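import Mathlib

section
/-! # Module LipG: power series in several variables with nonnegative coefficients -/

set_option linter.unusedSectionVars false

namespace PGr
open scoped ENNReal

variable {ι J : Type*} [Fintype J] [DecidableEq J]

/-- the sum of the monomials `c i * ∏ j, z j ^ e i j` -/
noncomputable def msum (c : ι → ℝ≥0∞) (e : ι → J → ℕ) (z : J → ℝ≥0∞) : ℝ≥0∞ :=
  ∑' i, c i * ∏ j, z j ^ e i j

theorem msum_mono (c : ι → ℝ≥0∞) (e : ι → J → ℕ) {z z' : J → ℝ≥0∞} (h : ∀ j, z j ≤ z' j) :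
    msum c e z ≤ msum c e z' := by
  unfold msum
  refine ENNReal.tsum_le_tsum fun i => ?_
  gcongr with j
  exact h j

/-- the constant -/
theorem LipG_K (R : J → ℝ) (hR : ∀ j, 0 < R j) (j : J) : 1 / R j ≤ ∑ k, 1 / R k :=
  Finset.single_le_sum (f := fun k => 1 / R k) (fun k _ => (one_div_pos.2 (hR k)).le)
    (Finset.mem_univ j)

/-- extraction of one variable -/
theorem LipG_prod (s : Finset J) (n : J → ℕ) (R : J → ℝ) (hR : ∀ j, 0 < R j) {z : J → ℝ}
    (hz : ∀ j, 0 ≤ z j ∧ z j ≤ R j) {j : J} (hjs : j ∈ s) (hj : 1 ≤ n j) :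
    ∏ l ∈ s, z l ^ n l ≤ (z j / R j) * ∏ l ∈ s, R l ^ n l := by
  rw [← Finset.mul_prod_erase s (fun l => z l ^ n l) hjs,
    ← Finset.mul_prod_erase s (fun l => R l ^ n l) hjs, ← mul_assoc]
  have h1 : ∏ l ∈ s.erase j, z l ^ n l ≤ ∏ l ∈ s.erase j, R l ^ n l :=
    Finset.prod_le_prod (fun l _ => pow_nonneg (hz l).1 _)
      (fun l _ => pow_le_pow_left₀ (hz l).1 (hz l).2 _)
  have h2 : z j ^ n j ≤ z j / R j * R j ^ n j := by
    obtain ⟨m, hm⟩ : ∃ m, n j = m + 1 := ⟨n j - 1, by omega⟩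
    rw [hm, pow_succ, pow_succ]
    have e : z j / R j * (R j ^ m * R j) = z j * R j ^ m := by
      have := (hR j).ne'
      field_simp
    rw [e, mul_comm (z j ^ m) (z j)]
    exact mul_le_mul_of_nonneg_left (pow_le_pow_left₀ (hz j).1 (hz j).2 _) (hz j).1
  exact mul_le_mul h2 h1 (Finset.prod_nonneg fun l _ => pow_nonneg (hz l).1 _)
    (mul_nonneg (div_nonneg (hz j).1 (hR j).le) (pow_nonneg (hR j).le _))

theorem LipG_ofReal (n : J → ℕ) {z : J → ℝ} (hz : ∀ j, 0 ≤ z j) :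
    ∏ j, ENNReal.ofReal (z j) ^ n j = ENNReal.ofReal (∏ j, z j ^ n j) := by
  rw [ENNReal.ofReal_prod_of_nonneg (fun j _ => pow_nonneg (hz j) _)]
  refine Finset.prod_congr rfl fun j _ => ?_
  rw [ENNReal.ofReal_pow (hz j)]

/-- Suppose that every monomial contains a variable `z j` with `P j`, and that the sum is finite at the point `R`.
Then for points `z, z'` with coordinates at most `R j / 2` the sum is bounded by the variables `z j` with `P j`. -/
theorem msum_bound (c : ι → ℝ≥0∞) (e : ι → J → ℕ) (P : J → Prop) [DecidablePred P]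
    (hP : ∀ i, c i ≠ 0 → ∃ j, P j ∧ 1 ≤ e i j) (R : J → ℝ) (hR : ∀ j, 0 < R j)
    (hfin : msum c e (fun j => ENNReal.ofReal (R j)) ≠ ⊤) :
    ∃ C : ℝ, 0 ≤ C ∧ ∀ z : J → ℝ, (∀ j, 0 ≤ z j ∧ z j ≤ R j / 2) →
      msum c e (fun j => ENNReal.ofReal (z j)) ≠ ⊤ ∧
      (msum c e (fun j => ENNReal.ofReal (z j))).toReal ≤ C * ∑ j, if P j then z j else 0 := by
  have hK0 : 0 ≤ ∑ k, 1 / R k := Finset.sum_nonneg fun k _ => (one_div_pos.2 (hR k)).le
  refine ⟨(∑ k, 1 / R k) * (msum c e (fun j => ENNReal.ofReal (R j))).toReal,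
    mul_nonneg hK0 ENNReal.toReal_nonneg, fun z hz => ?_⟩
  have hz' : ∀ j, 0 ≤ z j ∧ z j ≤ R j := fun j => ⟨(hz j).1, by
    have h1 := (hz j).2
    have h2 := hR j
    linarith⟩
  have hfz : msum c e (fun j => ENNReal.ofReal (z j)) ≠ ⊤ :=
    ne_top_of_le_ne_top hfin (msum_mono c e fun j => ENNReal.ofReal_le_ofReal (hz' j).2)
  refine ⟨hfz, ?_⟩
  have hS0 : 0 ≤ ∑ j, (if P j then z j else 0) := Finset.sum_nonneg fun j _ => by
    split_ifs
    · exact (hz j).1
    · exact le_rfl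
  have key : msum c e (fun j => ENNReal.ofReal (z j)) ≤
      ENNReal.ofReal ((∑ k, 1 / R k) * ∑ j, if P j then z j else 0) *
        msum c e (fun j => ENNReal.ofReal (R j)) := by
    unfold msum
    rw [← ENNReal.tsum_mul_left]
    refine ENNReal.tsum_le_tsum fun i => ?_
    by_cases hc : c i = 0
    · rw [hc]; simp
    · obtain ⟨j, hPj, hj⟩ := hP i hc
      rw [LipG_ofReal _ (fun j => (hz j).1), LipG_ofReal _ (fun j => (hR j).le), mul_left_comm,
        ← ENNReal.ofReal_mul (mul_nonneg hK0 hS0)]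
      refine mul_le_mul_right (ENNReal.ofReal_le_ofReal ?_) _
      refine (LipG_prod Finset.univ (e i) R hR hz' (Finset.mem_univ j) hj).trans ?_
      refine mul_le_mul_of_nonneg_right ?_ (Finset.prod_nonneg fun l _ => pow_nonneg (hR l).le _)
      rw [div_eq_mul_one_div, mul_comm]
      refine mul_le_mul (LipG_K R hR j) ?_ (hz j).1 hK0
      have h1 : (if P j then z j else 0) ≤ ∑ j, (if P j then z j else 0) :=
        Finset.single_le_sum (f := fun j => if P j then z j else 0) (fun k _ => by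
          split_ifs
          · exact (hz k).1
          · exact le_rfl) (Finset.mem_univ j)
      rwa [if_pos hPj] at h1
  have h2 := ENNReal.toReal_mono (ENNReal.mul_ne_top ENNReal.ofReal_ne_top hfin) key
  rw [ENNReal.toReal_mul, ENNReal.toReal_ofReal (mul_nonneg hK0 hS0)] at h2
  linarith

end PGr

end

section
/-! # Module LipG2: the difference of two values of a power series in several variables -/

set_option linter.unusedSectionVars false

namespace PGr
open scoped ENNReal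

variable {ι J : Type*} [Fintype J] [DecidableEq J]

/-- telescoping for a product -/
theorem LipG2_tel (s : Finset J) (a b m : J → ℝ) (ha : ∀ j, 0 ≤ a j) (hb : ∀ j, 0 ≤ b j)
    (ham : ∀ j, a j ≤ m j) (hbm : ∀ j, b j ≤ m j) :
    |∏ j ∈ s, a j - ∏ j ∈ s, b j| ≤ ∑ j ∈ s, |a j - b j| * ∏ l ∈ s.erase j, m l := by
  have hm : ∀ j, 0 ≤ m j := fun j => (ha j).trans (ham j)
  induction s using Finset.induction_on with
  | empty => simp
  | insert k s hk ih =>
    rw [Finset.prod_insert hk, Finset.prod_insert hk, Finset.sum_insert hk,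
      Finset.erase_insert hk]
    have e : a k * ∏ j ∈ s, a j - b k * ∏ j ∈ s, b j =
        a k * (∏ j ∈ s, a j - ∏ j ∈ s, b j) + (a k - b k) * ∏ j ∈ s, b j := by ring
    rw [e]
    refine (abs_add_le _ _).trans ?_
    rw [abs_mul, abs_mul, abs_of_nonneg (ha k),
      abs_of_nonneg (Finset.prod_nonneg fun j _ => hb j), add_comm]
    refine add_le_add ?_ ?_
    · exact mul_le_mul_of_nonneg_left (Finset.prod_le_prod (fun j _ => hb j) fun j _ => hbm j)
        (abs_nonneg _)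
    · have h1 : ∑ j ∈ s, |a j - b j| * ∏ l ∈ (insert k s).erase j, m l =
          m k * ∑ j ∈ s, |a j - b j| * ∏ l ∈ s.erase j, m l := by
        rw [Finset.mul_sum]
        refine Finset.sum_congr rfl fun j hj => ?_
        have hkj : k ≠ j := fun h => hk (h ▸ hj)
        rw [Finset.erase_insert_of_ne hkj, Finset.prod_insert (fun h => hk (Finset.mem_of_mem_erase h))]
        ring
      rw [h1]
      exact mul_le_mul (ham k) ih (abs_nonneg _) (hm k)

/-- the difference of two powers -/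
theorem LipG2_pow {x y R : ℝ} (hR : 0 < R) (hx : 0 ≤ x ∧ x ≤ R / 2) (hy : 0 ≤ y ∧ y ≤ R / 2)
    (n : ℕ) : |x ^ n - y ^ n| ≤ 2 / R * |x - y| * R ^ n := by
  rcases Nat.eq_zero_or_pos n with rfl | hn
  · simp only [pow_zero, sub_self, abs_zero, mul_one]
    exact mul_nonneg (by positivity) (abs_nonneg _)
  obtain ⟨m, rfl⟩ : ∃ m, n = m + 1 := ⟨n - 1, by omega⟩
  have h1 : |x ^ (m + 1) - y ^ (m + 1)| ≤ |x - y| * ((m + 1 : ℕ) * (R / 2) ^ m) := by
    rw [← (Commute.all x y).mul_geom_sum₂ (m + 1), abs_mul]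
    refine mul_le_mul_of_nonneg_left ?_ (abs_nonneg _)
    have h2 : ∀ i ∈ Finset.range (m + 1), |x ^ i * y ^ (m + 1 - 1 - i)| ≤ (R / 2) ^ m := by
      intro i hi
      rw [Finset.mem_range] at hi
      rw [abs_of_nonneg (mul_nonneg (pow_nonneg hx.1 _) (pow_nonneg hy.1 _))]
      have h3 : (R / 2) ^ m = (R / 2) ^ i * (R / 2) ^ (m + 1 - 1 - i) := by
        rw [← pow_add]
        congr 1
        omega
      rw [h3]
      exact mul_le_mul (pow_le_pow_left₀ hx.1 hx.2 _) (pow_le_pow_left₀ hy.1 hy.2 _)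
        (pow_nonneg hy.1 _) (by positivity)
    refine (Finset.abs_sum_le_sum_abs _ _).trans ((Finset.sum_le_sum h2).trans ?_)
    rw [Finset.sum_const, Finset.card_range, nsmul_eq_mul]
  refine h1.trans ?_
  have h4 : ((m + 1 : ℕ) : ℝ) ≤ 2 ^ (m + 1) := by
    exact_mod_cast (Nat.lt_two_pow_self (n := m + 1)).le
  have h5 : ((m + 1 : ℕ) : ℝ) * (R / 2) ^ m ≤ 2 / R * R ^ (m + 1) := by
    have e1 : (2 : ℝ) / R * R ^ (m + 1) = 2 ^ (m + 1) * (R / 2) ^ m := by
      rw [div_pow, pow_succ, pow_succ]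
      field_simp
    rw [e1]
    exact mul_le_mul_of_nonneg_right h4 (by positivity)
  calc |x - y| * ((m + 1 : ℕ) * (R / 2) ^ m) ≤ |x - y| * (2 / R * R ^ (m + 1)) :=
        mul_le_mul_of_nonneg_left h5 (abs_nonneg _)
    _ = 2 / R * |x - y| * R ^ (m + 1) := by ring

/-- the difference of two monomials -/
theorem LipG2_mono (n : J → ℕ) (P : J → Prop) [DecidablePred P] (hn : ∃ j, P j ∧ 1 ≤ n j)
    (R : J → ℝ) (hR : ∀ j, 0 < R j) (z z' : J → ℝ) (hz : ∀ j, 0 ≤ z j ∧ z j ≤ R j / 2)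
    (hz' : ∀ j, 0 ≤ z' j ∧ z' j ≤ R j / 2) :
    |∏ j, z j ^ n j - ∏ j, z' j ^ n j| ≤
      (2 * (∑ k, 1 / R k) * (∑ j, if P j then |z j - z' j| else 0) +
        2 * (∑ k, 1 / R k) * (∑ k, 1 / R k) * (∑ j, if P j then z j + z' j else 0) *
          ∑ j, |z j - z' j|) * ∏ j, R j ^ n j := by
  obtain ⟨j0, hP0, hj0⟩ := hn
  obtain ⟨K, hK⟩ : ∃ K, K = ∑ k, 1 / R k := ⟨_, rfl⟩
  have hKj : ∀ j, 1 / R j ≤ K := fun j => hK ▸ LipG_K R hR j
  have hK0 : 0 ≤ K := hK ▸ Finset.sum_nonneg fun k _ => (one_div_pos.2 (hR k)).le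
  rw [← hK]
  have hM : ∀ j, 0 ≤ max (z j) (z' j) ∧ max (z j) (z' j) ≤ R j := fun j =>
    ⟨(hz j).1.trans (le_max_left _ _), max_le (by have := (hz j).2; have := hR j; linarith)
      (by have := (hz' j).2; have := hR j; linarith)⟩
  have h0 := LipG2_tel Finset.univ (fun j => z j ^ n j) (fun j => z' j ^ n j)
    (fun j => max (z j) (z' j) ^ n j) (fun j => pow_nonneg (hz j).1 _)
    (fun j => pow_nonneg (hz' j).1 _)
    (fun j => pow_le_pow_left₀ (hz j).1 (le_max_left _ _) _)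
    (fun j => pow_le_pow_left₀ (hz' j).1 (le_max_right _ _) _)
  refine h0.trans ?_
  have hprodR : ∀ s : Finset J, 0 ≤ ∏ l ∈ s, R l ^ n l := fun s =>
    Finset.prod_nonneg fun l _ => pow_nonneg (hR l).le _
  obtain ⟨T, hT⟩ : ∃ T, T = ∑ j, (if P j then z j + z' j else 0) := ⟨_, rfl⟩
  have hT1 : ∀ j, P j → z j + z' j ≤ T := by
    intro j hj
    have h1 : (if P j then z j + z' j else 0) ≤ ∑ j, (if P j then z j + z' j else 0) :=
      Finset.single_le_sum (f := fun j => if P j then z j + z' j else 0) (fun k _ => by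
        split_ifs
        · exact add_nonneg (hz k).1 (hz' k).1
        · exact le_rfl) (Finset.mem_univ j)
    rw [if_pos hj] at h1
    rw [hT]
    exact h1
  have hT0 : 0 ≤ T := (add_nonneg (hz j0).1 (hz' j0).1).trans (hT1 j0 hP0)
  rw [← hT]
  -- every term
  have hterm : ∀ j ∈ (Finset.univ : Finset J), |z j ^ n j - z' j ^ n j| *
      ∏ l ∈ Finset.univ.erase j, max (z l) (z' l) ^ n l ≤
      (2 * K * (if P j then |z j - z' j| else 0) + 2 * K * K * T * |z j - z' j|) *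
        ∏ j, R j ^ n j := by
    intro j _
    have h1 := LipG2_pow (hR j) (hz j) (hz' j) (n j)
    have h2K : 2 / R j ≤ 2 * K := by
      rw [div_eq_mul_one_div]
      exact mul_le_mul_of_nonneg_left (hKj j) (by norm_num)
    have hd0 : 0 ≤ |z j - z' j| := abs_nonneg _
    have hRn : 0 ≤ R j ^ n j := pow_nonneg (hR j).le _
    have h1' : |z j ^ n j - z' j ^ n j| ≤ 2 * K * |z j - z' j| * R j ^ n j :=
      h1.trans (mul_le_mul_of_nonneg_right (mul_le_mul_of_nonneg_right h2K hd0) hRn)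
    have hA0 : 0 ≤ 2 * K * |z j - z' j| * R j ^ n j := by positivity
    have hsplit : ∏ j, R j ^ n j = R j ^ n j * ∏ l ∈ Finset.univ.erase j, R l ^ n l :=
      (Finset.mul_prod_erase Finset.univ (fun l => R l ^ n l) (Finset.mem_univ j)).symm
    have hQ0 := hprodR (Finset.univ.erase j)
    have hB0 : 0 ≤ ∏ l ∈ Finset.univ.erase j, max (z l) (z' l) ^ n l :=
      Finset.prod_nonneg fun l _ => pow_nonneg (hM l).1 _
    by_cases hPj : P j
    · rw [if_pos hPj, hsplit]
      have h3 : ∏ l ∈ Finset.univ.erase j, max (z l) (z' l) ^ n l ≤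
          ∏ l ∈ Finset.univ.erase j, R l ^ n l :=
        Finset.prod_le_prod (fun l _ => pow_nonneg (hM l).1 _)
          (fun l _ => pow_le_pow_left₀ (hM l).1 (hM l).2 _)
      have h4 := mul_le_mul h1' h3 hB0 hA0
      have h5 : 0 ≤ 2 * K * K * T * |z j - z' j| * (R j ^ n j *
          ∏ l ∈ Finset.univ.erase j, R l ^ n l) := by positivity
      refine h4.trans ?_
      rw [add_mul]
      have e : 2 * K * |z j - z' j| * R j ^ n j * ∏ l ∈ Finset.univ.erase j, R l ^ n l =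
        2 * K * |z j - z' j| * (R j ^ n j * ∏ l ∈ Finset.univ.erase j, R l ^ n l) := by ring
      rw [e]
      linarith
    · rw [if_neg hPj, hsplit]
      have hne : j0 ≠ j := fun h => hPj (h ▸ hP0)
      have h3 := LipG_prod (Finset.univ.erase j) n R hR hM
        (Finset.mem_erase.2 ⟨hne, Finset.mem_univ j0⟩) hj0
      have h6 : max (z j0) (z' j0) / R j0 ≤ K * T := by
        rw [div_eq_mul_one_div, mul_comm]
        refine mul_le_mul (hKj j0) ?_ (hM j0).1 hK0
        refine le_trans ?_ (hT1 j0 hP0)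
        exact max_le (by have := (hz' j0).1; linarith) (by have := (hz j0).1; linarith)
      have h3' := h3.trans (mul_le_mul_of_nonneg_right h6 hQ0)
      have h4 := mul_le_mul h1' h3' hB0 hA0
      refine h4.trans (le_of_eq ?_)
      ring
  refine (Finset.sum_le_sum hterm).trans (le_of_eq ?_)
  rw [← Finset.sum_mul, Finset.sum_add_distrib, ← Finset.mul_sum, ← Finset.mul_sum]

/-- The difference of two values.  Proof: telescoping for every monomial: if `M j = max (z j) (z' j)`,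
`|∏ z j ^ e j - ∏ z' j ^ e j| ≤ ∑ j, e j * |z j - z' j| * M j ^ (e j - 1) * ∏_{l ≠ j} M l ^ e l`, and
`e j * (R j / 2) ^ (e j - 1) ≤ (2 / R j) * R j ^ e j` (`n ≤ 2 ^ n`); for `j` with `¬ P j` the product contains a variable `M l ≤ z l + z' l` with
`P l`, and `M l ^ e l ≤ (M l / R l) * R l ^ e l`. -/
theorem msum_lip (c : ι → ℝ≥0∞) (e : ι → J → ℕ) (P : J → Prop) [DecidablePred P]
    (hP : ∀ i, c i ≠ 0 → ∃ j, P j ∧ 1 ≤ e i j) (R : J → ℝ) (hR : ∀ j, 0 < R j)
    (hfin : msum c e (fun j => ENNReal.ofReal (R j)) ≠ ⊤) :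
    ∃ C : ℝ, 0 ≤ C ∧ ∀ z z' : J → ℝ, (∀ j, 0 ≤ z j ∧ z j ≤ R j / 2) →
      (∀ j, 0 ≤ z' j ∧ z' j ≤ R j / 2) →
      |(msum c e (fun j => ENNReal.ofReal (z j))).toReal -
        (msum c e (fun j => ENNReal.ofReal (z' j))).toReal| ≤
      C * (∑ j, if P j then |z j - z' j| else 0) +
        C * (∑ j, if P j then z j + z' j else 0) * ∑ j, |z j - z' j| := by
  obtain ⟨K, hK⟩ : ∃ K, K = ∑ k, 1 / R k := ⟨_, rfl⟩
  have hK0 : 0 ≤ K := hK ▸ Finset.sum_nonneg fun k _ => (one_div_pos.2 (hR k)).le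
  obtain ⟨M, hM⟩ : ∃ M, M = (msum c e (fun j => ENNReal.ofReal (R j))).toReal := ⟨_, rfl⟩
  have hM0 : 0 ≤ M := hM ▸ ENNReal.toReal_nonneg
  -- real values
  have hreal : ∀ z : J → ℝ, (∀ j, 0 ≤ z j ∧ z j ≤ R j) →
      Summable (fun i => (c i).toReal * ∏ j, z j ^ e i j) ∧
      (msum c e (fun j => ENNReal.ofReal (z j))).toReal =
        ∑' i, (c i).toReal * ∏ j, z j ^ e i j := by
    intro z hz
    have hfz : msum c e (fun j => ENNReal.ofReal (z j)) ≠ ⊤ :=
      ne_top_of_le_ne_top hfin (msum_mono c e fun j => ENNReal.ofReal_le_ofReal (hz j).2)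
    have hterm : ∀ i, (c i * ∏ j, ENNReal.ofReal (z j) ^ e i j).toReal =
        (c i).toReal * ∏ j, z j ^ e i j := by
      intro i
      rw [LipG_ofReal _ (fun j => (hz j).1), ENNReal.toReal_mul, ENNReal.toReal_ofReal
        (Finset.prod_nonneg fun j _ => pow_nonneg (hz j).1 _)]
    constructor
    · have := ENNReal.summable_toReal hfz
      simpa only [hterm] using this
    · unfold msum
      rw [ENNReal.tsum_toReal_eq (fun i => ENNReal.ne_top_of_tsum_ne_top hfz i)]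
      exact tsum_congr hterm
  have hRR : ∀ j, 0 ≤ R j ∧ R j ≤ R j := fun j => ⟨(hR j).le, le_rfl⟩
  refine ⟨2 * K * M + 2 * K * K * M, by positivity, fun z z' hz hz' => ?_⟩
  have hz1 : ∀ j, 0 ≤ z j ∧ z j ≤ R j := fun j => ⟨(hz j).1, by
    have h1 := (hz j).2
    have h2 := hR j
    linarith⟩
  have hz1' : ∀ j, 0 ≤ z' j ∧ z' j ≤ R j := fun j => ⟨(hz' j).1, by
    have h1 := (hz' j).2
    have h2 := hR j
    linarith⟩
  obtain ⟨s1, e1⟩ := hreal z hz1
  obtain ⟨s2, e2⟩ := hreal z' hz1'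
  obtain ⟨s3, e3⟩ := hreal R hRR
  rw [← hM] at e3
  obtain ⟨D, hD⟩ : ∃ D, D = ∑ j, (if P j then |z j - z' j| else 0) := ⟨_, rfl⟩
  obtain ⟨T, hT⟩ : ∃ T, T = ∑ j, (if P j then z j + z' j else 0) := ⟨_, rfl⟩
  obtain ⟨E, hE⟩ : ∃ E, E = ∑ j, |z j - z' j| := ⟨_, rfl⟩
  have hD0 : 0 ≤ D := hD ▸ Finset.sum_nonneg fun j _ => by
    split_ifs
    · exact abs_nonneg _
    · exact le_rfl
  have hT0 : 0 ≤ T := hT ▸ Finset.sum_nonneg fun j _ => by
    split_ifs
    · exact add_nonneg (hz j).1 (hz' j).1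
    · exact le_rfl
  have hE0 : 0 ≤ E := hE ▸ Finset.sum_nonneg fun j _ => abs_nonneg _
  rw [e1, e2, ← s1.tsum_sub s2, ← hD, ← hT, ← hE]
  have hb : ∀ i, |(c i).toReal * ∏ j, z j ^ e i j - (c i).toReal * ∏ j, z' j ^ e i j| ≤
      (2 * K * D + 2 * K * K * T * E) * ((c i).toReal * ∏ j, R j ^ e i j) := by
    intro i
    by_cases hc : c i = 0
    · rw [hc]; simp
    · have h1 := LipG2_mono (e i) P (hP i hc) R hR z z' hz hz'
      rw [← hK, ← hD, ← hT, ← hE] at h1
      rw [← mul_sub, abs_mul, abs_of_nonneg ENNReal.toReal_nonneg]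
      have h2 := mul_le_mul_of_nonneg_left h1 (ENNReal.toReal_nonneg (a := c i))
      refine h2.trans (le_of_eq ?_)
      ring
  have hsum : Summable (fun i => (2 * K * D + 2 * K * K * T * E) *
      ((c i).toReal * ∏ j, R j ^ e i j)) := s3.mul_left _
  have h3 : |∑' i, ((c i).toReal * ∏ j, z j ^ e i j - (c i).toReal * ∏ j, z' j ^ e i j)| ≤
      ∑' i, (2 * K * D + 2 * K * K * T * E) * ((c i).toReal * ∏ j, R j ^ e i j) := by
    rw [← Real.norm_eq_abs]
    exact tsum_of_norm_bounded hsum.hasSum (fun i => by rw [Real.norm_eq_abs]; exact hb i)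
  rw [tsum_mul_left, ← e3] at h3
  refine h3.trans ?_
  have h4 : 0 ≤ K * K * M * D := by positivity
  have h5 : 0 ≤ K * M * (T * E) := by positivity
  nlinarith [h4, h5]

end PGr

end
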