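import Mathlib

section
/-!
# The nodal cubic: definitions (MP_dfe0a1_co, stage 3, rotations, analysis)

Parameters `0 < q < c < 1`.  All quantities are rational functions of `q`, `c`:
`u = (c - q) / (1 - q c)`, `v = q (1 - c) / (c - q^2)`, `y = v (1 - u)^2`, `s y = u (1 - v)^2`,
`E = v (1 - u - v) / (1 - v)^2`, `m = 1 + u + v - 3 u v`.  The points
`(z, x) = (Zf w, Xf w)` and `(Zf (q w), Xf w)` lie on the cubic
`1 - z - x + m z x - y z^2 x - s y z x^2 = 0`.
-/

namespace PGa

/-- `u` -/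
noncomputable def uu (q c : ℝ) : ℝ := (c - q) / (1 - q * c)

/-- `v` -/
noncomputable def vv (q c : ℝ) : ℝ := q * (1 - c) / (c - q ^ 2)

/-- `y` -/
noncomputable def yy (q c : ℝ) : ℝ := vv q c * (1 - uu q c) ^ 2

/-- `s` -/
noncomputable def ss (q c : ℝ) : ℝ := uu q c * (1 - vv q c) ^ 2 / (vv q c * (1 - uu q c) ^ 2)

/-- `E` -/
noncomputable def EE (q c : ℝ) : ℝ := vv q c * (1 - uu q c - vv q c) / (1 - vv q c) ^ 2

/-- `m` -/
noncomputable def mm (q c : ℝ) : ℝ := 1 + uu q c + vv q c - 3 * uu q c * vv q c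

/-- the function `z` on the cubic, `Zf 0 = 1 / (1 - u)` -/
noncomputable def Zf (q c w : ℝ) : ℝ :=
  (1 - q * c) * (q - w) * (c - q * w) / (q * (1 - c) * (1 + q) * (c - w) * (1 - w))

/-- the function `x` on the cubic, `Xf 0 = 1 / (1 - v)` -/
noncomputable def Xf (q c w : ℝ) : ℝ :=
  (c - q ^ 2) * (1 - q * w) * (c - w) / ((c - q) * (1 + q) * (c - q * w) * (1 - w))

/-- the derivative of `Zf` -/
noncomputable def dZ (q c w : ℝ) : ℝ :=
  -((1 - q * c) * (c - q) * (1 - q) / (q * (1 - c) * (1 + q))) * (c - w ^ 2) /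
    ((c - w) ^ 2 * (1 - w) ^ 2)

/-- the derivative of `Xf` -/
noncomputable def dX (q c w : ℝ) : ℝ :=
  -((c - q ^ 2) * (1 - c) * (1 - q) / ((c - q) * (1 + q))) * (c - q * w ^ 2) /
    ((c - q * w) ^ 2 * (1 - w) ^ 2)

/-- the derivatives of the three solutions (vertex, face, edge pole) along the curve -/
noncomputable def dNv (c w : ℝ) : ℝ := 1 / (1 - w) - 1 / (c - w)

/-- face pole -/
noncomputable def dNf (q c w : ℝ) : ℝ := q / (c - q * w) - 1 / (1 - w)

/-- edge pole -/
noncomputable def dNe (q c w : ℝ) : ℝ :=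
  -((1 - q * c) * (c - q) * (1 - q) * c / (q * (1 - c) ^ 2 * (1 + q))) / (c - w) ^ 2

/-- the primitive of `dNv` -/
noncomputable def Nv (c w : ℝ) : ℝ := Real.log ((c - w) / (1 - w))

/-- the primitive of `dNf` -/
noncomputable def Nf (q c w : ℝ) : ℝ := Real.log ((1 - w) / (c - q * w))

/-- the primitive of `dNe` -/
noncomputable def Ne (q c w : ℝ) : ℝ :=
  -((1 - q * c) * (c - q) * (1 - q) * c / (q * (1 - c) ^ 2 * (1 + q))) / (c - w)

end PGa

end

section
/-! # Algebraic identities -/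

namespace PGa

variable {q c w : ℝ}

theorem one_sub_qc (hq : 0 < q) (hqc : q < c) (hc : c < 1) : 0 < 1 - q * c := by nlinarith

theorem c_sub_qq (hq : 0 < q) (hqc : q < c) (hc : c < 1) : 0 < c - q ^ 2 := by nlinarith

theorem uu_pos (hq : 0 < q) (hqc : q < c) (hc : c < 1) : 0 < uu q c :=
  div_pos (by linarith) (one_sub_qc hq hqc hc)

theorem vv_pos (hq : 0 < q) (hqc : q < c) (hc : c < 1) : 0 < vv q c :=
  div_pos (mul_pos hq (by linarith)) (c_sub_qq hq hqc hc)

theorem one_sub_uu (hq : 0 < q) (hqc : q < c) (hc : c < 1) :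
    1 - uu q c = (1 - c) * (1 + q) / (1 - q * c) := by
  have h1 : 1 - c * q ≠ 0 := by have := one_sub_qc hq hqc hc; nlinarith
  unfold uu
  field_simp
  ring

theorem one_sub_vv (hq : 0 < q) (hqc : q < c) (hc : c < 1) :
    1 - vv q c = (c - q) * (1 + q) / (c - q ^ 2) := by
  have h1 := (c_sub_qq hq hqc hc).ne'
  unfold vv
  field_simp
  ring

theorem one_sub_uu_pos (hq : 0 < q) (hqc : q < c) (hc : c < 1) : 0 < 1 - uu q c := by
  rw [one_sub_uu hq hqc hc]
  have h1 := one_sub_qc hq hqc hc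
  have h2 : 0 < 1 - c := by linarith
  positivity

theorem one_sub_vv_pos (hq : 0 < q) (hqc : q < c) (hc : c < 1) : 0 < 1 - vv q c := by
  rw [one_sub_vv hq hqc hc]
  have h1 := c_sub_qq hq hqc hc
  have h2 : 0 < c - q := by linarith
  positivity

theorem one_sub_uv (hq : 0 < q) (hqc : q < c) (hc : c < 1) :
    1 - uu q c * vv q c = c * (1 - q) ^ 2 * (1 + q) / ((1 - q * c) * (c - q ^ 2)) := by
  have h1 : 1 - c * q ≠ 0 := by have := one_sub_qc hq hqc hc; nlinarith
  have h2 := (c_sub_qq hq hqc hc).ne'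
  unfold uu vv
  field_simp
  ring

theorem yy_eq (hq : 0 < q) (hqc : q < c) (hc : c < 1) :
    yy q c = q * (1 - c) ^ 3 * (1 + q) ^ 2 / ((c - q ^ 2) * (1 - q * c) ^ 2) := by
  have h1 : 1 - c * q ≠ 0 := by have := one_sub_qc hq hqc hc; nlinarith
  have h2 := (c_sub_qq hq hqc hc).ne'
  unfold yy
  rw [one_sub_uu hq hqc hc]
  unfold vv
  field_simp

theorem ss_eq (hq : 0 < q) (hqc : q < c) (hc : c < 1) :
    ss q c = (c - q) ^ 3 * (1 - q * c) / (q * (c - q ^ 2) * (1 - c) ^ 3) := by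
  have h1 : 1 - c * q ≠ 0 := by have := one_sub_qc hq hqc hc; nlinarith
  have h2 := (c_sub_qq hq hqc hc).ne'
  have h3 : (1 - c) ≠ 0 := by linarith
  have h4 : (1 + q) ≠ 0 := by linarith
  unfold ss
  rw [one_sub_uu hq hqc hc, one_sub_vv hq hqc hc]
  unfold uu vv
  field_simp

theorem ss_pos (hq : 0 < q) (hqc : q < c) (hc : c < 1) : 0 < ss q c := by
  rw [ss_eq hq hqc hc]
  have h1 := one_sub_qc hq hqc hc
  have h2 := c_sub_qq hq hqc hc
  have h3 : 0 < 1 - c := by linarith
  have h4 : 0 < c - q := by linarith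
  positivity

theorem yy_pos (hq : 0 < q) (hqc : q < c) (hc : c < 1) : 0 < yy q c := by
  rw [yy_eq hq hqc hc]
  have h1 := one_sub_qc hq hqc hc
  have h2 := c_sub_qq hq hqc hc
  have h3 : 0 < 1 - c := by linarith
  positivity

end PGa

end

section
/-! # Values and the cubic -/

namespace PGa

variable {q c w : ℝ}

theorem Zf_q (q c : ℝ) : Zf q c q = 0 := by simp [Zf]

theorem Xf_c (q c : ℝ) : Xf q c c = 0 := by simp [Xf]

theorem Xf_q (hq : 0 < q) (hqc : q < c) (hc : c < 1) : Xf q c q = 1 := by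
  have h2 := (c_sub_qq hq hqc hc).ne'
  have h3 : c - q ≠ 0 := by linarith
  have h4 : (1 + q) ≠ 0 := by linarith
  have h5 : (1 - q) ≠ 0 := by linarith
  have h6 : c - q * q ≠ 0 := by rw [← pow_two]; exact h2
  unfold Xf
  rw [div_eq_one_iff_eq (by positivity)]
  ring

theorem Zf_qc (hq : 0 < q) (hqc : q < c) (hc : c < 1) : Zf q c (q * c) = 1 := by
  have h1 : 1 - q * c ≠ 0 := (one_sub_qc hq hqc hc).ne'
  have h3 : c - q * c ≠ 0 := by nlinarith
  have h4 : (1 + q) ≠ 0 := by linarith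
  have h5 : (1 - c) ≠ 0 := by linarith
  unfold Zf
  rw [div_eq_one_iff_eq (by positivity)]
  ring

theorem Zf_zero (hq : 0 < q) (hqc : q < c) (hc : c < 1) : Zf q c 0 = 1 / (1 - uu q c) := by
  have h1 : 1 - c * q ≠ 0 := by have := one_sub_qc hq hqc hc; nlinarith
  have h4 : (1 + q) ≠ 0 := by linarith
  have h5 : (1 - c) ≠ 0 := by linarith
  have h6 : c ≠ 0 := by linarith
  rw [one_sub_uu hq hqc hc]
  unfold Zf
  field_simp
  ring

theorem Xf_zero (hq : 0 < q) (hqc : q < c) (hc : c < 1) : Xf q c 0 = 1 / (1 - vv q c) := by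
  have h2 := (c_sub_qq hq hqc hc).ne'
  have h3 : c - q ≠ 0 := by linarith
  have h4 : (1 + q) ≠ 0 := by linarith
  have h6 : c ≠ 0 := by linarith
  rw [one_sub_vv hq hqc hc]
  unfold Xf
  field_simp
  simp [h6]

theorem EE_eq (hq : 0 < q) (hqc : q < c) (hc : c < 1) : Xf q c (q * c) = 1 + EE q c := by
  have h1 : 1 - c * q ≠ 0 := by have := one_sub_qc hq hqc hc; nlinarith
  have h2 := (c_sub_qq hq hqc hc).ne'
  have h3 : c - q ≠ 0 := by linarith
  have h4 : (1 + q) ≠ 0 := by linarith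
  have h6 : c ≠ 0 := by linarith
  have h7 : 1 - q ^ 2 ≠ 0 := by nlinarith
  unfold EE
  rw [one_sub_vv hq hqc hc, one_sub_uu hq hqc hc]
  unfold Xf vv
  field_simp
  ring

theorem ss_mul_yy (hq : 0 < q) (hqc : q < c) (hc : c < 1) :
    ss q c * yy q c = uu q c * (1 - vv q c) ^ 2 := by
  have h1 := (one_sub_uu_pos hq hqc hc).ne'
  have h2 := (vv_pos hq hqc hc).ne'
  unfold ss yy
  field_simp

set_option maxRecDepth 10000 in
/-- the cubic -/
theorem cubic (hq : 0 < q) (hqc : q < c) (hc : c < 1) (h1 : c - w ≠ 0) (h2 : 1 - w ≠ 0)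
    (h3 : c - q * w ≠ 0) :
    1 - Zf q c w - Xf q c w + mm q c * (Zf q c w * Xf q c w) -
      yy q c * (Zf q c w ^ 2 * Xf q c w) - ss q c * yy q c * (Zf q c w * Xf q c w ^ 2) = 0 := by
  have g1 : 1 - c * q ≠ 0 := by have := one_sub_qc hq hqc hc; nlinarith
  have g1' : 1 - q * c ≠ 0 := by rwa [mul_comm]
  have g2 := (c_sub_qq hq hqc hc).ne'
  have g3 : c - q ≠ 0 := by linarith
  have g4 : (1 + q) ≠ 0 := by linarith
  have g5 : (1 - c) ≠ 0 := by linarith
  have g6 : c ≠ 0 := by linarith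
  have h3' : c - w * q ≠ 0 := by rwa [mul_comm]
  rw [ss_mul_yy hq hqc hc, yy_eq hq hqc hc, one_sub_vv hq hqc hc]
  unfold mm Zf Xf uu vv
  field_simp
  ring

theorem Zf_mul (hq : 0 < q) (hqc : q < c) (hc : c < 1) :
    Zf q c (q * w) = (1 - q * c) * (1 - w) * (c - q ^ 2 * w) /
      ((1 - c) * (1 + q) * (c - q * w) * (1 - q * w)) := by
  have h4 : (1 + q) ≠ 0 := by linarith
  have h5 : (1 - c) ≠ 0 := by linarith
  have h6 : q ≠ 0 := by linarith
  unfold Zf
  have : q - q * w = q * (1 - w) := by ring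
  rw [this]
  have : (1 - q * c) * (q * (1 - w)) * (c - q * (q * w)) / (q * (1 - c) * (1 + q) * (c - q * w) * (1 - q * w)) =
    q * ((1 - q * c) * (1 - w) * (c - q ^ 2 * w)) / (q * ((1 - c) * (1 + q) * (c - q * w) * (1 - q * w))) := by ring
  rw [this, mul_div_mul_left _ _ h6]

set_option maxRecDepth 10000 in
/-- the second point with the same `x` -/
theorem cubic' (hq : 0 < q) (hqc : q < c) (hc : c < 1) (h1 : 1 - q * w ≠ 0) (h2 : 1 - w ≠ 0)
    (h3 : c - q * w ≠ 0) :
    1 - Zf q c (q * w) - Xf q c w + mm q c * (Zf q c (q * w) * Xf q c w) -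
      yy q c * (Zf q c (q * w) ^ 2 * Xf q c w) -
      ss q c * yy q c * (Zf q c (q * w) * Xf q c w ^ 2) = 0 := by
  have g1 : 1 - c * q ≠ 0 := by have := one_sub_qc hq hqc hc; nlinarith
  have g1' : 1 - q * c ≠ 0 := by rwa [mul_comm]
  have g2 := (c_sub_qq hq hqc hc).ne'
  have g3 : c - q ≠ 0 := by linarith
  have g4 : (1 + q) ≠ 0 := by linarith
  have g5 : (1 - c) ≠ 0 := by linarith
  have g6 : c ≠ 0 := by linarith
  have h3' : c - w * q ≠ 0 := by rwa [mul_comm]
  have h1' : 1 - w * q ≠ 0 := by rwa [mul_comm]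
  rw [ss_mul_yy hq hqc hc, yy_eq hq hqc hc, one_sub_vv hq hqc hc, Zf_mul hq hqc hc]
  unfold mm Xf uu vv
  field_simp
  ring

theorem dual_uu (hq : 0 < q) (hqc : q < c) (hc : c < 1) : uu q (q / c) = vv q c := by
  have h2 := (c_sub_qq hq hqc hc).ne'
  have h6 : c ≠ 0 := by linarith
  unfold uu vv
  have e1 : q / c - q = q * (1 - c) / c := by field_simp
  have e2 : 1 - q * (q / c) = (c - q ^ 2) / c := by field_simp
  rw [e1, e2, div_div_div_cancel_right₀ h6]

theorem dual_vv (hq : 0 < q) (hqc : q < c) (hc : c < 1) : vv q (q / c) = uu q c := by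
  have h1 : 1 - q * c ≠ 0 := (one_sub_qc hq hqc hc).ne'
  have h6 : c ≠ 0 := by linarith
  have h7 : q ≠ 0 := by linarith
  unfold uu vv
  have e1 : q * (1 - q / c) = q / c * (c - q) := by field_simp
  have e2 : q / c - q ^ 2 = q / c * (1 - q * c) := by field_simp
  rw [e1, e2, mul_div_mul_left _ _ (by positivity)]

theorem dual_ss (hq : 0 < q) (hqc : q < c) (hc : c < 1) : ss q (q / c) = 1 / ss q c := by
  unfold ss
  rw [dual_uu hq hqc hc, dual_vv hq hqc hc, one_div_div]

theorem dual_yy (hq : 0 < q) (hqc : q < c) (hc : c < 1) : yy q (q / c) = ss q c * yy q c := by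
  rw [ss_mul_yy hq hqc hc]
  unfold yy
  rw [dual_uu hq hqc hc, dual_vv hq hqc hc]

theorem dual_mm (hq : 0 < q) (hqc : q < c) (hc : c < 1) : mm q (q / c) = mm q c := by
  unfold mm
  rw [dual_uu hq hqc hc, dual_vv hq hqc hc]
  ring

theorem dual_EE (hq : 0 < q) (hqc : q < c) (hc : c < 1) : EE q (q / c) = ss q c * EE q c := by
  have h1 := (one_sub_uu_pos hq hqc hc).ne'
  have h3 := (one_sub_vv_pos hq hqc hc).ne'
  have h2 := (vv_pos hq hqc hc).ne'
  unfold EE ss
  rw [dual_uu hq hqc hc, dual_vv hq hqc hc]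
  field_simp
  ring

theorem dual_X (hq : 0 < q) (hqc : q < c) (hc : c < 1) : Xf q (q / c) w = Zf q c (c * w) := by
  have h6 : c ≠ 0 := by linarith
  have h7 : q ≠ 0 := by linarith
  unfold Xf Zf
  have e1 : q / c - q ^ 2 = q * (1 - q * c) / c := by field_simp
  have e2 : q / c - w = (q - c * w) / c := by field_simp
  have e3 : q / c - q = q * (1 - c) / c := by field_simp
  have e4 : q / c - q * w = q * (1 - c * w) / c := by field_simp
  have e5 : c - q * (c * w) = c * (1 - q * w) := by ring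
  have e6 : c - c * w = c * (1 - w) := by ring
  rw [e1, e2, e3, e4, e5, e6]
  have e7 : q * (1 - q * c) / c * (1 - q * w) * ((q - c * w) / c) =
      (q / c ^ 2) * ((1 - q * c) * (1 - q * w) * (q - c * w)) := by field_simp
  have e8 : q * (1 - c) / c * (1 + q) * (q * (1 - c * w) / c) * (1 - w) =
      (q / c ^ 2) * (q * (1 - c) * (1 + q) * (1 - c * w) * (1 - w)) := by field_simp
  have e9 : (1 - q * c) * (q - c * w) * (c * (1 - q * w)) =
      c * ((1 - q * c) * (1 - q * w) * (q - c * w)) := by ring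
  have e10 : q * (1 - c) * (1 + q) * (c * (1 - w)) * (1 - c * w) =
      c * (q * (1 - c) * (1 + q) * (1 - c * w) * (1 - w)) := by ring
  rw [e7, e8, e9, e10, mul_div_mul_left _ _ (by positivity), mul_div_mul_left _ _ h6]

theorem dual_Z (hq : 0 < q) (hqc : q < c) (hc : c < 1) : Zf q (q / c) (q * w) = Xf q c (c * w) := by
  have h6 : c ≠ 0 := by linarith
  have h7 : q ≠ 0 := by linarith
  have hc0 : 0 < c := by linarith
  have hd0 : 0 < q / c := by positivity
  have hd1 : q < q / c := by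
    rw [lt_div_iff₀ (by linarith)]
    nlinarith
  have hd2 : q / c < 1 := by
    rw [div_lt_one (by linarith)]
    exact hqc
  rw [Zf_mul hq hd1 hd2]
  unfold Xf
  have e1 : 1 - q * (q / c) = (c - q ^ 2) / c := by field_simp
  have e2 : q / c - q ^ 2 * w = (q / c) * (1 - q * (c * w)) := by field_simp
  have e3 : 1 - q / c = (c - q) / c := by field_simp
  have e4 : q / c - q * w = (q / c) * (1 - c * w) := by field_simp
  have e5 : c - q * (c * w) = c * (1 - q * w) := by ring
  have e6 : c - c * w = c * (1 - w) := by ring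
  rw [e1, e2, e3, e4, e5, e6]
  have e7 : (c - q ^ 2) / c * (1 - w) * (q / c * (1 - q * (c * w))) =
      (q / c ^ 2) * ((c - q ^ 2) * (1 - q * (c * w)) * (1 - w)) := by field_simp
  have e8 : (c - q) / c * (1 + q) * (q / c * (1 - c * w)) * (1 - q * w) =
      (q / c ^ 2) * ((c - q) * (1 + q) * (1 - q * w) * (1 - c * w)) := by field_simp
  have e9 : (c - q ^ 2) * (1 - q * (c * w)) * (c * (1 - w)) =
      c * ((c - q ^ 2) * (1 - q * (c * w)) * (1 - w)) := by ring
  have e10 : (c - q) * (1 + q) * (c * (1 - q * w)) * (1 - c * w) =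
      c * ((c - q) * (1 + q) * (1 - q * w) * (1 - c * w)) := by ring
  rw [e7, e8, e9, e10, mul_div_mul_left _ _ (by positivity), mul_div_mul_left _ _ h6]

/-- `m = 1 + y (1 + s + s E)` -/
theorem mm_eq (hq : 0 < q) (hqc : q < c) (hc : c < 1) :
    mm q c = 1 + yy q c * (1 + ss q c + ss q c * EE q c) := by
  have h1 := (one_sub_uu_pos hq hqc hc).ne'
  have h3 := (one_sub_vv_pos hq hqc hc).ne'
  have h2 := (vv_pos hq hqc hc).ne'
  have h4 : yy q c * (1 + ss q c + ss q c * EE q c) =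
      yy q c + ss q c * yy q c + ss q c * yy q c * EE q c := by ring
  rw [h4, ss_mul_yy hq hqc hc]
  unfold mm yy EE
  field_simp
  ring

end PGa

end

section
/-! # Module DER1: derivatives of Zf, Xf -/

namespace PGa

variable {q c w : ℝ}

/-- Module DER1 -/
theorem hasDerivAt_Zf (hq : 0 < q) (hqc : q < c) (hc : c < 1) (h0 : 0 ≤ w) (h1 : w < c) :
    HasDerivAt (Zf q c) (dZ q c w) w := by
  have g4 : (1 + q) ≠ 0 := by linarith
  have g5 : (1 - c) ≠ 0 := by linarith
  have g6 : q ≠ 0 := by linarith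
  have g7 : c - w ≠ 0 := by linarith
  have g8 : 1 - w ≠ 0 := by linarith
  have a1 : HasDerivAt (fun w : ℝ => (1 - q * c) * (q - w)) ((1 - q * c) * (-1)) w :=
    ((hasDerivAt_id w).const_sub q).const_mul _
  have a2 : HasDerivAt (fun w : ℝ => c - q * w) (-(q * 1)) w :=
    ((hasDerivAt_id w).const_mul q).const_sub c
  have b1 : HasDerivAt (fun w : ℝ => q * (1 - c) * (1 + q) * (c - w))
      (q * (1 - c) * (1 + q) * (-1)) w := ((hasDerivAt_id w).const_sub c).const_mul _
  have b2 : HasDerivAt (fun w : ℝ => 1 - w) (-1) w := (hasDerivAt_id w).const_sub 1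
  have h := (a1.mul a2).div (b1.mul b2)
    (mul_ne_zero (mul_ne_zero (mul_ne_zero (mul_ne_zero g6 g5) g4) g7) g8)
  have e : Zf q c = (fun w : ℝ => (1 - q * c) * (q - w) * (c - q * w) /
      (q * (1 - c) * (1 + q) * (c - w) * (1 - w))) := by
    funext t
    rfl
  rw [e]
  refine h.congr_deriv ?_
  unfold dZ
  simp only [Pi.mul_apply]
  field_simp
  ring

/-- Module DER1 -/
theorem hasDerivAt_Xf (hq : 0 < q) (hqc : q < c) (hc : c < 1) (h0 : 0 ≤ w) (h1 : w < 1) :
    HasDerivAt (Xf q c) (dX q c w) w := by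
  have g4 : (1 + q) ≠ 0 := by linarith
  have g5 : (1 - c) ≠ 0 := by linarith
  have g6 : c - q ≠ 0 := by linarith
  have g7 : c - q * w ≠ 0 := by nlinarith
  have g8 : 1 - w ≠ 0 := by linarith
  have a0 : HasDerivAt (fun w : ℝ => 1 - q * w) (-(q * 1)) w :=
    ((hasDerivAt_id w).const_mul q).const_sub 1
  have a1 : HasDerivAt (fun w : ℝ => (c - q ^ 2) * (1 - q * w)) ((c - q ^ 2) * (-(q * 1))) w :=
    a0.const_mul _
  have a2 : HasDerivAt (fun w : ℝ => c - w) (-1) w := (hasDerivAt_id w).const_sub c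
  have b0 : HasDerivAt (fun w : ℝ => c - q * w) (-(q * 1)) w :=
    ((hasDerivAt_id w).const_mul q).const_sub c
  have b1 : HasDerivAt (fun w : ℝ => (c - q) * (1 + q) * (c - q * w))
      ((c - q) * (1 + q) * (-(q * 1))) w := b0.const_mul _
  have b2 : HasDerivAt (fun w : ℝ => 1 - w) (-1) w := (hasDerivAt_id w).const_sub 1
  have h := (a1.mul a2).div (b1.mul b2)
    (mul_ne_zero (mul_ne_zero (mul_ne_zero g6 g4) g7) g8)
  have e : Xf q c = (fun w : ℝ => (c - q ^ 2) * (1 - q * w) * (c - w) /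
      ((c - q) * (1 + q) * (c - q * w) * (1 - w))) := by
    funext t
    rfl
  rw [e]
  refine h.congr_deriv ?_
  unfold dX
  simp only [Pi.mul_apply]
  have g7' : c - w * q ≠ 0 := by rwa [mul_comm]
  field_simp
  ring

/-- Module DER1 -/
theorem dZ_neg (hq : 0 < q) (hqc : q < c) (hc : c < 1) (h0 : 0 ≤ w) (h1 : w < c) :
    dZ q c w < 0 := by
  have h2 := one_sub_qc hq hqc hc
  have h3 : 0 < c - q := by linarith
  have h4 : 0 < 1 - q := by linarith
  have h5 : 0 < 1 - c := by linarith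
  have h6 : 0 < c - w := by linarith
  have h7 : 0 < 1 - w := by linarith
  have h8 : 0 < c - w ^ 2 := by nlinarith
  unfold dZ
  rw [neg_mul, neg_div, neg_lt_zero]
  positivity

/-- Module DER1 -/
theorem dX_neg (hq : 0 < q) (hqc : q < c) (hc : c < 1) (h0 : 0 ≤ w) (h1 : w < 1) :
    dX q c w < 0 := by
  have h2 := c_sub_qq hq hqc hc
  have h3 : 0 < c - q := by linarith
  have h4 : 0 < 1 - q := by linarith
  have h5 : 0 < 1 - c := by linarith
  have h6 : 0 < c - q * w := by nlinarith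
  have h7 : 0 < 1 - w := by linarith
  have h8 : 0 < c - q * w ^ 2 := by
    have : w ^ 2 ≤ 1 := by nlinarith
    nlinarith
  unfold dX
  rw [neg_mul, neg_div, neg_lt_zero]
  positivity

end PGa

end

section
/-! # Module DER2: signs and values -/

namespace PGa

variable {q c w : ℝ}

/-- Module DER2: `Zf` is positive on `[0, q)` -/
theorem Zf_pos (hq : 0 < q) (hqc : q < c) (hc : c < 1) (h0 : 0 ≤ w) (h1 : w < q) :
    0 < Zf q c w := by
  have h2 := one_sub_qc hq hqc hc
  have h3 : 0 < q - w := by linarith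
  have h4 : 0 < c - q * w := by nlinarith
  have h5 : 0 < 1 - c := by linarith
  have h6 : 0 < c - w := by linarith
  have h7 : 0 < 1 - w := by linarith
  unfold Zf
  positivity

/-- Module DER2 -/
theorem Xf_pos (hq : 0 < q) (hqc : q < c) (hc : c < 1) (h0 : 0 ≤ w) (h1 : w < c) :
    0 < Xf q c w := by
  have h2 := c_sub_qq hq hqc hc
  have h3 : 0 < 1 - q * w := by nlinarith
  have h4 : 0 < c - q * w := by nlinarith
  have h5 : 0 < c - q := by linarith
  have h6 : 0 < c - w := by linarith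
  have h7 : 0 < 1 - w := by linarith
  unfold Xf
  positivity

theorem DER2_key (q c w : ℝ) : (c - q ^ 2) * (1 - q * w) * (c - w) -
    (c - q) * (1 + q) * (c - q * w) * (1 - w) = (1 - c) * (w - q) * (q ^ 2 * w - c) := by ring

/-- Module DER2 (`Xf q = 1`, decreasing) -/
theorem Xf_lt_one (hq : 0 < q) (hqc : q < c) (hc : c < 1) (h0 : q < w) (h1 : w < c) :
    Xf q c w < 1 := by
  have h4 : 0 < c - q * w := by nlinarith
  have h5 : 0 < c - q := by linarith
  have h7 : 0 < 1 - w := by linarith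
  unfold Xf
  rw [div_lt_one (by positivity)]
  have h8 := DER2_key q c w
  have h9 : 0 < c - q ^ 2 * w := by
    have := c_sub_qq hq hqc hc
    nlinarith [sq_nonneg q]
  have h10 : 0 < (1 - c) * (w - q) := mul_pos (by linarith) (by linarith)
  nlinarith

/-- Module DER2 -/
theorem one_lt_Xf (hq : 0 < q) (hqc : q < c) (hc : c < 1) (h0 : 0 ≤ w) (h1 : w < q) :
    1 < Xf q c w := by
  have h4 : 0 < c - q * w := by nlinarith
  have h5 : 0 < c - q := by linarith
  have h7 : 0 < 1 - w := by linarith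
  unfold Xf
  rw [lt_div_iff₀ (by positivity), one_mul]
  have h8 := DER2_key q c w
  have h9 : 0 < c - q ^ 2 * w := by
    have := c_sub_qq hq hqc hc
    nlinarith [sq_nonneg q]
  have h10 : 0 < (1 - c) * (q - w) := mul_pos (by linarith) (by linarith)
  nlinarith

/-- Module DER2 (`Zf (q c) = 1`, decreasing) -/
theorem one_lt_Zf (hq : 0 < q) (hqc : q < c) (hc : c < 1) (h0 : 0 ≤ w) (h1 : w < c) :
    1 < Zf q c (q * w) := by
  have h3 : 0 < 1 - q * w := by nlinarith
  have h4 : 0 < c - q * w := by nlinarith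
  have h5 : 0 < 1 - c := by linarith
  rw [Zf_mul hq hqc hc, lt_div_iff₀ (by positivity), one_mul]
  have h8 : (1 - q * c) * (1 - w) * (c - q ^ 2 * w) - (1 - c) * (1 + q) * (c - q * w) * (1 - q * w) =
      (c - q) * (c - w) * (1 - q ^ 2 * w) := by ring
  have h9 : 0 < 1 - q ^ 2 * w := by
    have h10 : q ^ 2 < 1 := by nlinarith
    have h11 : w < 1 := by linarith
    nlinarith [sq_nonneg q]
  have h10 : 0 < (c - q) * (c - w) := mul_pos (by linarith) (by linarith)
  nlinarith

/-- Module DER2: `Zf (q w) - Zf w = ..` is positive -/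
theorem Zf_lt (hq : 0 < q) (hqc : q < c) (hc : c < 1) (h0 : 0 < w) (h1 : w < c) :
    Zf q c w < Zf q c (q * w) := by
  have hanti : StrictAntiOn (Zf q c) (Set.Icc 0 w) := by
    apply strictAntiOn_of_deriv_neg (convex_Icc 0 w)
    · intro t ht
      exact (hasDerivAt_Zf hq hqc hc ht.1 (by linarith [ht.2])).continuousAt.continuousWithinAt
    · intro t ht
      rw [interior_Icc] at ht
      rw [(hasDerivAt_Zf hq hqc hc ht.1.le (by linarith [ht.2])).deriv]
      exact dZ_neg hq hqc hc ht.1.le (by linarith [ht.2])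
  have hqw : q * w < w := by nlinarith
  exact hanti ⟨by positivity, hqw.le⟩ ⟨h0.le, le_rfl⟩ hqw

/-- Module DER2: every `f` in `(0, 1/(1-v))` is a value (intermediate value theorem) -/
theorem exists_Xf (hq : 0 < q) (hqc : q < c) (hc : c < 1) {f : ℝ} (h0 : 0 < f)
    (h1 : f < 1 / (1 - vv q c)) : ∃ w, 0 < w ∧ w < c ∧ Xf q c w = f := by
  have hcont : ContinuousOn (Xf q c) (Set.Icc 0 c) := by
    intro t ht
    exact (hasDerivAt_Xf hq hqc hc ht.1 (by linarith [ht.2])).continuousAt.continuousWithinAt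
  have h2 := intermediate_value_Ioo' (by linarith : (0 : ℝ) ≤ c) hcont
  have h3 : f ∈ Set.Ioo (Xf q c c) (Xf q c 0) := by
    rw [Xf_c, Xf_zero hq hqc hc]
    exact ⟨h0, h1⟩
  obtain ⟨w, hw, hwf⟩ := h2 h3
  exact ⟨w, hw.1, hw.2, hwf⟩

end PGa

end

section
/-! # Module DER3: derivatives of the solutions -/

namespace PGa

variable {q c w : ℝ}

/-- Module DER3 -/
theorem hasDerivAt_Nv (hc : c < 1) (h1 : w < c) : HasDerivAt (Nv c) (dNv c w) w := by
  have g7 : c - w ≠ 0 := by linarith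
  have g8 : 1 - w ≠ 0 := by linarith
  have a2 : HasDerivAt (fun w : ℝ => c - w) (-1) w := (hasDerivAt_id w).const_sub c
  have b2 : HasDerivAt (fun w : ℝ => 1 - w) (-1) w := (hasDerivAt_id w).const_sub 1
  have h := (a2.div b2 g8).log (div_ne_zero g7 g8)
  have e : Nv c = (fun w : ℝ => Real.log ((c - w) / (1 - w))) := by
    funext t
    rfl
  rw [e]
  refine h.congr_deriv ?_
  unfold dNv
  simp only [Pi.div_apply]
  field_simp
  ring

/-- Module DER3 -/
theorem hasDerivAt_Nf (hq : 0 < q) (hqc : q < c) (hc : c < 1) (h0 : 0 ≤ w) (h1 : w < 1) :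
    HasDerivAt (Nf q c) (dNf q c w) w := by
  have g7 : c - q * w ≠ 0 := by nlinarith
  have g8 : 1 - w ≠ 0 := by linarith
  have a2 : HasDerivAt (fun w : ℝ => c - q * w) (-(q * 1)) w :=
    ((hasDerivAt_id w).const_mul q).const_sub c
  have b2 : HasDerivAt (fun w : ℝ => 1 - w) (-1) w := (hasDerivAt_id w).const_sub 1
  have h := (b2.div a2 g7).log (div_ne_zero g8 g7)
  have e : Nf q c = (fun w : ℝ => Real.log ((1 - w) / (c - q * w))) := by
    funext t
    rfl
  rw [e]
  refine h.congr_deriv ?_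
  unfold dNf
  simp only [Pi.div_apply]
  have g7' : c - w * q ≠ 0 := by rwa [mul_comm]
  field_simp
  ring

/-- Module DER3 -/
theorem hasDerivAt_Ne (h1 : w < c) : HasDerivAt (Ne q c) (dNe q c w) w := by
  have g7 : c - w ≠ 0 := by linarith
  have a2 : HasDerivAt (fun w : ℝ => c - w) (-1) w := (hasDerivAt_id w).const_sub c
  set K : ℝ := -((1 - q * c) * (c - q) * (1 - q) * c / (q * (1 - c) ^ 2 * (1 + q))) with hK
  have h := (hasDerivAt_const w K).div a2 g7
  have e : Ne q c = (fun w : ℝ => K / (c - w)) := by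
    funext t
    rfl
  rw [e]
  refine h.congr_deriv ?_
  unfold dNe
  rw [← hK]
  field_simp
  ring

/-- Module DER3 -/
theorem dNv_nonpos (hc : c < 1) (h1 : w < c) : dNv c w ≤ 0 := by
  unfold dNv
  have : 1 / (1 - w) ≤ 1 / (c - w) := one_div_le_one_div_of_le (by linarith) (by linarith)
  linarith

/-- Module DER3 -/
theorem dNf_nonpos (hq : 0 < q) (hqc : q < c) (h0 : 0 ≤ w) (h1 : w < 1) : dNf q c w ≤ 0 := by
  unfold dNf
  have h2 : 0 < c - q * w := by nlinarith
  have h3 : 0 < 1 - w := by linarith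
  have : q / (c - q * w) ≤ 1 / (1 - w) := by
    rw [div_le_div_iff₀ h2 h3]
    nlinarith
  linarith

/-- Module DER3 -/
theorem dNe_nonpos (hq : 0 < q) (hqc : q < c) (hc : c < 1) : dNe q c w ≤ 0 := by
  unfold dNe
  have h2 := one_sub_qc hq hqc hc
  have h3 : 0 < c - q := by linarith
  have h4 : 0 < 1 - q := by linarith
  have h5 : 0 < 1 - c := by linarith
  have h6 : 0 < c := by linarith
  rw [neg_div, neg_nonpos]
  positivity

end PGa

end

section
/-! # Module DER5: values of the solutions -/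

namespace PGa

variable {q c w : ℝ}

/-- Module DER5: the values -/
theorem val_v (hq : 0 < q) (hqc : q < c) (hc : c < 1) :
    Nv c (q * c) - Nv c q = Real.log ((1 - uu q c * vv q c) / (1 - vv q c)) := by
  have h1 := one_sub_qc hq hqc hc
  have h2 := c_sub_qq hq hqc hc
  have h3 : 0 < 1 - c := by linarith
  have h4 : 0 < c - q := by linarith
  have h5 : 0 < 1 - q := by linarith
  have h6 : 0 < c := by linarith
  have h7 : 0 < c - q * c := by nlinarith
  have h8 : 0 < 1 + q := by linarith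
  unfold Nv
  rw [one_sub_uv hq hqc hc, one_sub_vv hq hqc hc, ← Real.log_div (by positivity) (by positivity)]
  congr 1
  have e : c - q * c = c * (1 - q) := by ring
  rw [e]
  have h1' := h1.ne'
  have h2' := h2.ne'
  have h4' := h4.ne'
  have h5' := h5.ne'
  have h8' := h8.ne'
  rw [div_div_div_eq, div_div_div_eq, div_eq_div_iff (by positivity) (by positivity)]
  ring

/-- Module DER5 -/
theorem val_f (hq : 0 < q) (hqc : q < c) (hc : c < 1) :
    Nf q c (q * c) - Nf q c q = -Real.log (1 - uu q c * vv q c) := by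
  have h1 := one_sub_qc hq hqc hc
  have h2 := c_sub_qq hq hqc hc
  have h3 : 0 < 1 - c := by linarith
  have h4 : 0 < c - q := by linarith
  have h5 : 0 < 1 - q := by linarith
  have h6 : 0 < c := by linarith
  have h8 : 0 < 1 + q := by linarith
  have h9 : 0 < c - q * (q * c) := by nlinarith
  have h10 : 0 < c - q * q := by nlinarith
  unfold Nf
  rw [one_sub_uv hq hqc hc, ← Real.log_div (by positivity) (by positivity), ← Real.log_inv]
  congr 1
  have e : c - q * (q * c) = c * ((1 - q) * (1 + q)) := by ring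
  have e' : c - q * q = c - q ^ 2 := by ring
  rw [e, e', inv_div, div_div_div_eq, div_eq_div_iff (by positivity) (by positivity)]
  ring

/-- Module DER5 -/
theorem val_e (hq : 0 < q) (hqc : q < c) (hc : c < 1) :
    Ne q c (q * c) - Ne q c q = 1 / (1 - uu q c) := by
  have h1 := one_sub_qc hq hqc hc
  have h3 : 0 < 1 - c := by linarith
  have h4 : 0 < c - q := by linarith
  have h5 : 0 < 1 - q := by linarith
  have h6 : 0 < c := by linarith
  have h8 : 0 < 1 + q := by linarith
  have h1' := h1.ne'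
  have h3' := h3.ne'
  have h4' := h4.ne'
  have h5' := h5.ne'
  have h6' := h6.ne'
  have h8' := h8.ne'
  have hq' := hq.ne'
  have e : c - q * c = c * (1 - q) := by ring
  unfold Ne
  rw [one_sub_uu hq hqc hc, e]
  field_simp
  ring

end PGa

end

section
/-! # Module EXT1: the larger root -/

namespace PGa

variable {q c : ℝ}

/-- the explicit larger root -/
noncomputable def bigX (q c f : ℝ) : ℝ :=
  ((mm q c * f - 1 - ss q c * yy q c * f ^ 2) +
    Real.sqrt ((mm q c * f - 1 - ss q c * yy q c * f ^ 2) ^ 2 - 4 * yy q c * f * (f - 1))) /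
    (2 * yy q c * f)

/-- Module EXT1.  `Zf w < Zf (q w)` are the two roots (`cubic`, `cubic'`), so the discriminant is
`(y f)^2 (Zf (q w) - Zf w)^2 > 0`. -/
theorem bigX_eq (hq : 0 < q) (hqc : q < c) (hc : c < 1) {w : ℝ} (h1 : 0 < w) (h2 : w < c) :
    bigX q c (Xf q c w) = Zf q c (q * w) ∧
    0 < (mm q c * Xf q c w - 1 - ss q c * yy q c * Xf q c w ^ 2) ^ 2 -
      4 * yy q c * Xf q c w * (Xf q c w - 1) := by
  have hw1 : 1 - w ≠ 0 := by linarith
  have hcw : c - w ≠ 0 := by linarith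
  have hqw : q * w < c := by nlinarith
  have h3 : c - q * w ≠ 0 := by linarith
  have h4 : 1 - q * w ≠ 0 := by linarith
  have c1 := cubic hq hqc hc hcw hw1 h3
  have c2 := cubic' hq hqc hc h4 hw1 h3
  have hlt := Zf_lt hq hqc hc h1 h2
  have hf := Xf_pos hq hqc hc h1.le h2
  have hy := yy_pos hq hqc hc
  unfold bigX
  set z1 := Zf q c w
  set z2 := Zf q c (q * w)
  set f := Xf q c w
  set m := mm q c
  set s := ss q c
  set y := yy q c
  have hyf : 0 < y * f := mul_pos hy hf
  have hd : 0 < z2 - z1 := by linarith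
  have hB : m * f - 1 - s * y * f ^ 2 = y * f * (z1 + z2) := by
    have e1 : (z2 - z1) * (m * f - 1 - s * y * f ^ 2 - y * f * (z1 + z2)) = 0 := by
      linear_combination c2 - c1
    rcases mul_eq_zero.mp e1 with h | h
    · exact absurd h hd.ne'
    · linarith
  have hP : f - 1 = y * f * (z1 * z2) := by
    linear_combination (-1) * c1 + z1 * hB
  have hD : (m * f - 1 - s * y * f ^ 2) ^ 2 - 4 * y * f * (f - 1) = (y * f * (z2 - z1)) ^ 2 := by
    rw [hB, hP]; ring
  rw [hD]
  refine ⟨?_, by positivity⟩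
  rw [Real.sqrt_sq (by positivity), hB]
  field_simp
  ring

/-- Module EXT2.  (`ContDiffAt.sqrt`, `ContDiffAt.analyticAt` as in `uf_analyticAt`; `exists_Xf`) -/
theorem bigX_analytic (hq : 0 < q) (hqc : q < c) (hc : c < 1) {f : ℝ} (h0 : 0 < f)
    (h1 : f < 1 / (1 - vv q c)) : AnalyticAt ℝ (bigX q c) f := by
  obtain ⟨w, hw0, hw1, rfl⟩ := exists_Xf hq hqc hc h0 h1
  have hD := (bigX_eq hq hqc hc hw0 hw1).2
  have hy := yy_pos hq hqc hc
  apply ContDiffAt.analyticAt
  have e1 : ContDiffAt ℝ (⊤ : WithTop ℕ∞)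
      (fun f : ℝ => (mm q c * f - 1 - ss q c * yy q c * f ^ 2) ^ 2 - 4 * yy q c * f * (f - 1))
      (Xf q c w) := by fun_prop
  have e2 := e1.sqrt hD.ne'
  have e3 : ContDiffAt ℝ (⊤ : WithTop ℕ∞)
      (fun f : ℝ => mm q c * f - 1 - ss q c * yy q c * f ^ 2) (Xf q c w) := by fun_prop
  show ContDiffAt ℝ (⊤ : WithTop ℕ∞) (fun f : ℝ =>
    ((mm q c * f - 1 - ss q c * yy q c * f ^ 2) +
    Real.sqrt ((mm q c * f - 1 - ss q c * yy q c * f ^ 2) ^ 2 - 4 * yy q c * f * (f - 1))) /
    (2 * yy q c * f)) (Xf q c w)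
  refine ContDiffAt.div (e3.add e2) (by fun_prop) ?_
  positivity

end PGa

end

section
/-! # Module PAR: the parameters q, c of a point (u, v) -/

namespace PGa

/-- Module PAR.  `r = u v / ((1 - u)(1 - v))` is in `(0, 1/4)`; `q` = the root `< 1` of
`q / (1 + q)^2 = r`, that is `q = (1 - 2 r - sqrt (1 - 4 r)) / (2 r)`, and `c = (u + q) / (1 + u q)`.
`uu q c = u` is immediate; `v (u (1 + q)^2 + q (1 - u)) = q (1 - u)` from the equation for `q`, which
is `vv q c = v` after multiplication by `1 - q`. -/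
theorem exists_qc {u v : ℝ} (hu : 0 < u) (hv : 0 < v) (hu1 : u < 1) (hv1 : v < 1)
    (h : 4 * u * v < (1 - u) * (1 - v)) :
    ∃ q c : ℝ, 0 < q ∧ q < c ∧ c < 1 ∧ uu q c = u ∧ vv q c = v := by
  have hu' : 0 < 1 - u := by linarith
  have hv' : 0 < 1 - v := by linarith
  have huv : 0 < u * v := mul_pos hu hv
  have hden : 0 < (1 - u) * (1 - v) := mul_pos hu' hv'
  set r := u * v / ((1 - u) * (1 - v)) with hr
  have hr0 : 0 < r := div_pos huv hden
  have hr4 : 4 * r < 1 := by
    rw [hr, mul_div_assoc', div_lt_one hden]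
    linarith
  set D := Real.sqrt (1 - 4 * r) with hD
  have hD2 : D ^ 2 = 1 - 4 * r := Real.sq_sqrt (by linarith)
  have hD0 : 0 < D := Real.sqrt_pos.2 (by linarith)
  have hD1 : D < 1 := by nlinarith
  set q := (1 - 2 * r - D) / (2 * r) with hq
  have hqr : 2 * r * q = 1 - 2 * r - D := by
    rw [hq]
    field_simp
  have hnum : 0 < 1 - 2 * r - D := by
    have h1 : (1 - 2 * r - D) * (1 - 2 * r + D) = 4 * r ^ 2 := by nlinarith
    have h2 : 0 < 1 - 2 * r + D := by linarith
    have h3 : 0 < (1 - 2 * r - D) * (1 - 2 * r + D) := by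
      rw [h1]
      positivity
    exact (pos_iff_pos_of_mul_pos h3).2 h2
  have hq0 : 0 < q := div_pos hnum (by linarith)
  have hq1 : q < 1 := by
    rw [hq, div_lt_one (by linarith)]
    nlinarith
  have hquad : r * (1 + q) ^ 2 = q := by
    have h1 : 4 * r * (r * (1 + q) ^ 2 - q) = 0 := by
      have h2 : 4 * r * (r * (1 + q) ^ 2 - q) =
          (2 * r * q) ^ 2 + (4 * r - 2) * (2 * r * q) + 4 * r ^ 2 := by ring
      rw [h2, hqr]
      nlinarith
    have h3 : 4 * r ≠ 0 := by positivity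
    have h4 := (mul_eq_zero.1 h1).resolve_left h3
    linarith
  have hkey : u * v * (1 + q) ^ 2 = q * ((1 - u) * (1 - v)) := by
    have h1 : r * ((1 - u) * (1 - v)) = u * v := by
      rw [hr]
      field_simp
    calc u * v * (1 + q) ^ 2 = r * (1 + q) ^ 2 * ((1 - u) * (1 - v)) := by rw [← h1]; ring
      _ = q * ((1 - u) * (1 - v)) := by rw [hquad]
  have huq : 0 < 1 + u * q := by positivity
  have hq2 : 0 < 1 - q ^ 2 := by nlinarith
  have hq' : 0 < 1 - q := by linarith
  refine ⟨q, (u + q) / (1 + u * q), hq0, ?_, ?_, ?_, ?_⟩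
  · rw [lt_div_iff₀ huq]
    nlinarith
  · rw [div_lt_one huq]
    nlinarith
  · unfold uu
    have e1 : (u + q) / (1 + u * q) - q = u * (1 - q ^ 2) / (1 + u * q) := by
      field_simp
      ring
    have e2 : 1 - q * ((u + q) / (1 + u * q)) = (1 - q ^ 2) / (1 + u * q) := by
      field_simp
      ring
    rw [e1, e2, div_div_div_cancel_right₀ huq.ne', mul_div_assoc, div_self hq2.ne', mul_one]
  · unfold vv
    have hW : 0 < u * (1 + q + q ^ 2) + q := by positivity
    have e1 : q * (1 - (u + q) / (1 + u * q)) = (1 - q) * (q * (1 - u)) / (1 + u * q) := by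
      field_simp
      ring
    have e2 : (u + q) / (1 + u * q) - q ^ 2 =
        (1 - q) * (u * (1 + q + q ^ 2) + q) / (1 + u * q) := by
      field_simp
      ring
    rw [e1, e2, div_div_div_cancel_right₀ huq.ne', mul_div_mul_left _ _ hq'.ne',
      div_eq_iff hW.ne']
    nlinarith

end PGa

end
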