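import Mathlib
import Pool.Agent.PGr.SumLib

section
/-! # Module Orb: sums over compatible families -/

set_option linter.unusedSectionVars false

namespace PGr
open Equiv Finset
open scoped ENNReal Classical

/-- `ESum`: the sum over all functions of a product is the product of the sums -/
theorem tsum_pi {J : Type} {Λ : Type*} [Fintype J] (g : J → Λ → ℝ≥0∞) :
    ∑' F : J → Λ, ∏ j, g j (F j) = ∏ j, ∑' x, g j x := (prod_tsum g).symm

section Orb_aux
variable {I : Type} {Λ : Type*} [Fintype I] [DecidableEq I]

/-- the representatives of the pairs -/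
private abbrev OrbR (τ : I → I) : Type := {i : I // Fintype.equivFin I i < Fintype.equivFin I (τ i)}

private abbrev OrbF (τ : I → I) : Type := {i : I // τ i = i}

private def orbFun (τ : I → I) : OrbF τ ⊕ (OrbR τ × Bool) → I
  | Sum.inl i => i.1
  | Sum.inr (i, false) => i.1
  | Sum.inr (i, true) => τ i.1

private theorem orbFun_bij (τ : I → I) (hτ : ∀ i, τ (τ i) = i) : Function.Bijective (orbFun τ) := by
  constructor
  · rintro (⟨i, hi⟩ | ⟨⟨i, hi⟩, _ | _⟩) (⟨j, hj⟩ | ⟨⟨j, hj⟩, _ | _⟩) h <;>
      simp only [orbFun] at h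
    · subst h; rfl
    · subst h; rw [hi] at hj; exact absurd hj (lt_irrefl _)
    · subst h
      rw [hτ] at hi
      rw [← hi] at hj
      exact absurd hj (lt_irrefl _)
    · subst h; rw [hj] at hi; exact absurd hi (lt_irrefl _)
    · subst h; rfl
    · subst h
      rw [hτ] at hi
      exact absurd (hi.trans hj) (lt_irrefl _)
    · subst h
      rw [hτ] at hj
      rw [← hj] at hi
      exact absurd hi (lt_irrefl _)
    · subst h
      rw [hτ] at hj
      exact absurd (hj.trans hi) (lt_irrefl _)
    · have : i = j := by rw [← hτ i, h, hτ]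
      subst this; rfl
  · intro i
    rcases lt_trichotomy (Fintype.equivFin I i) (Fintype.equivFin I (τ i)) with h | h | h
    · exact ⟨Sum.inr (⟨i, h⟩, false), rfl⟩
    · exact ⟨Sum.inl ⟨i, ((Fintype.equivFin I).injective h).symm⟩, rfl⟩
    · exact ⟨Sum.inr (⟨τ i, by rw [hτ]; exact h⟩, true), hτ i⟩

private noncomputable def orbEquiv (τ : I → I) (hτ : ∀ i, τ (τ i) = i) :
    OrbF τ ⊕ (OrbR τ × Bool) ≃ I := Equiv.ofBijective _ (orbFun_bij τ hτ)

/-- families on `I` as pairs of families -/
private noncomputable def orbPsi (τ : I → I) (hτ : ∀ i, τ (τ i) = i) :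
    (OrbF τ → Λ) × (OrbR τ → Bool → Λ) ≃ (I → Λ) :=
  ((Equiv.prodCongr (Equiv.refl _) (Equiv.curry (OrbR τ) Bool Λ).symm).trans
    (Equiv.sumArrowEquivProdArrow (OrbF τ) (OrbR τ × Bool) Λ).symm).trans
    ((orbEquiv τ hτ).arrowCongr (Equiv.refl Λ))

private theorem orbPsi_inl (τ : I → I) (hτ : ∀ i, τ (τ i) = i) (u : OrbF τ → Λ)
    (v : OrbR τ → Bool → Λ) (i : OrbF τ) : orbPsi τ hτ (u, v) i.1 = u i := by
  have h : (orbEquiv τ hτ).symm i.1 = Sum.inl i := by
    rw [Equiv.symm_apply_eq]; rfl
  show Sum.elim u (fun p : OrbR τ × Bool => v p.1 p.2) ((orbEquiv τ hτ).symm i.1) = u i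
  rw [h]; rfl

private theorem orbPsi_false (τ : I → I) (hτ : ∀ i, τ (τ i) = i) (u : OrbF τ → Λ)
    (v : OrbR τ → Bool → Λ) (i : OrbR τ) : orbPsi τ hτ (u, v) i.1 = v i false := by
  have h : (orbEquiv τ hτ).symm i.1 = Sum.inr (i, false) := by
    rw [Equiv.symm_apply_eq]; rfl
  show Sum.elim u (fun p : OrbR τ × Bool => v p.1 p.2) ((orbEquiv τ hτ).symm i.1) = v i false
  rw [h]; rfl

private theorem orbPsi_true (τ : I → I) (hτ : ∀ i, τ (τ i) = i) (u : OrbF τ → Λ)
    (v : OrbR τ → Bool → Λ) (i : OrbR τ) : orbPsi τ hτ (u, v) (τ i.1) = v i true := by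
  have h : (orbEquiv τ hτ).symm (τ i.1) = Sum.inr (i, true) := by
    rw [Equiv.symm_apply_eq]; rfl
  show Sum.elim u (fun p : OrbR τ × Bool => v p.1 p.2) ((orbEquiv τ hτ).symm (τ i.1)) = v i true
  rw [h]; rfl

private theorem orb_cond (τ : I → I) (hτ : ∀ i, τ (τ i) = i)
    (θ : I → Λ → Λ) (hθ : ∀ i x, θ (τ i) (θ i x) = x) (u : OrbF τ → Λ) (v : OrbR τ → Bool → Λ) :
    (∀ i, orbPsi τ hτ (u, v) (τ i) = θ i (orbPsi τ hτ (u, v) i)) ↔
      (∀ i : OrbF τ, θ i.1 (u i) = u i) ∧ ∀ i : OrbR τ, v i true = θ i.1 (v i false) := by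
  constructor
  · intro h
    refine ⟨fun i => ?_, fun i => ?_⟩
    · have h1 := h i.1
      rw [i.2, orbPsi_inl] at h1
      exact h1.symm
    · have h1 := h i.1
      rw [orbPsi_true, orbPsi_false] at h1
      exact h1
  · rintro ⟨h1, h2⟩ i
    obtain ⟨k, rfl⟩ := (orbEquiv τ hτ).surjective i
    rcases k with i | ⟨i, _ | _⟩
    · show orbPsi τ hτ (u, v) (τ i.1) = θ i.1 (orbPsi τ hτ (u, v) i.1)
      rw [i.2, orbPsi_inl, h1]
    · show orbPsi τ hτ (u, v) (τ i.1) = θ i.1 (orbPsi τ hτ (u, v) i.1)
      rw [orbPsi_true, orbPsi_false, h2]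
    · show orbPsi τ hτ (u, v) (τ (τ i.1)) = θ (τ i.1) (orbPsi τ hτ (u, v) (τ i.1))
      rw [hτ, orbPsi_true, orbPsi_false, h2, hθ]

private theorem orb_prod_eq (τ : I → I) (hτ : ∀ i, τ (τ i) = i) (g : I → Λ → ℝ≥0∞)
    (u : OrbF τ → Λ) (v : OrbR τ → Bool → Λ) :
    ∏ i, g i (orbPsi τ hτ (u, v) i) =
      (∏ i : OrbF τ, g i.1 (u i)) * ∏ i : OrbR τ, g i.1 (v i false) * g (τ i.1) (v i true) := by
  rw [← (orbEquiv τ hτ).prod_comp, Fintype.prod_sum_type, Fintype.prod_prod_type]
  congr 1
  · refine Finset.prod_congr rfl fun i _ => ?_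
    show g i.1 (orbPsi τ hτ (u, v) i.1) = _
    rw [orbPsi_inl]
  · refine Finset.prod_congr rfl fun i _ => ?_
    rw [Fintype.prod_bool, mul_comm]
    show g i.1 (orbPsi τ hτ (u, v) i.1) * g (τ i.1) (orbPsi τ hτ (u, v) (τ i.1)) = _
    rw [orbPsi_true, orbPsi_false]

private theorem orb_card (τ : I → I) (hτ : ∀ i, τ (τ i) = i) :
    Fintype.card (OrbR τ) = (univ.filter fun i => τ i ≠ i).card / 2 := by
  have h1 : Fintype.card I = Fintype.card (OrbF τ) + Fintype.card (OrbR τ) * 2 := by
    have h := Fintype.card_congr (orbEquiv τ hτ)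
    rw [Fintype.card_sum, Fintype.card_prod, Fintype.card_bool] at h
    exact h.symm
  have h2 : Fintype.card (OrbF τ) = (univ.filter fun i => τ i = i).card := by
    rw [Fintype.card_subtype]
  have h3 : (univ.filter fun i => τ i = i).card + (univ.filter fun i => τ i ≠ i).card =
      Fintype.card I := by
    rw [← Finset.card_univ]
    exact Finset.card_filter_add_card_filter_not _
  omega

end Orb_aux

/-- Proof.  Choose an injection of `I` into `ℕ` and let `R` be the set of the `i` with `τ i ≠ i` and `i` before `τ i`; then the `i` with `τ i ≠ i`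
are the disjoint union of `R` and `τ R`, so their number is twice the number of `R`.  A compatible family `F` is
determined by its values on `J = {i // τ i = i ∨ i ∈ R}`; every function on `J` with `θ i (F i) = F i` for the fixed `i` extends
(`F (τ i) = θ i (F i)` for `i ∈ R`; compatible at `τ i` by `hθ`).  So the sum is the sum over the functions on `J` of the product of the
`g i x` (if `θ i x = x`, otherwise 0) for fixed `i` and of `g i x * g (τ i) (θ i x)` for `i ∈ R`; `tsum_pi`. -/
theorem orb_prod {I : Type} {Λ : Type*} [Fintype I] [DecidableEq I] (τ : I → I) (hτ : ∀ i, τ (τ i) = i)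
    (θ : I → Λ → Λ) (hθ : ∀ i x, θ (τ i) (θ i x) = x) (g : I → Λ → ℝ≥0∞) (E : ℝ≥0∞)
    (hE : ∀ i, τ i ≠ i → ∑' x, g i x * g (τ i) (θ i x) = E) :
    ∑' F : I → Λ, (if ∀ i, F (τ i) = θ i (F i) then ∏ i, g i (F i) else 0) =
      (∏ i ∈ univ.filter fun i => τ i = i, ∑' x, if θ i x = x then g i x else 0) *
        E ^ ((univ.filter fun i => τ i ≠ i).card / 2) := by
  rw [← (orbPsi τ hτ).tsum_eq, ENNReal.tsum_prod']
  have h1 : ∀ (u : OrbF τ → Λ) (v : OrbR τ → Bool → Λ),
      (if ∀ i, orbPsi τ hτ (u, v) (τ i) = θ i (orbPsi τ hτ (u, v) i) then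
        ∏ i, g i (orbPsi τ hτ (u, v) i) else 0) =
      (∏ i : OrbF τ, if θ i.1 (u i) = u i then g i.1 (u i) else 0) *
        ∏ i : OrbR τ, if v i true = θ i.1 (v i false) then
          g i.1 (v i false) * g (τ i.1) (v i true) else 0 := by
    intro u v
    rw [Finset.prod_ite_zero, Finset.prod_ite_zero, orb_prod_eq]
    simp only [orb_cond τ hτ θ hθ, Finset.mem_univ, true_implies]
    by_cases hA : ∀ i : OrbF τ, θ i.1 (u i) = u i
    · by_cases hB : ∀ i : OrbR τ, v i true = θ i.1 (v i false)
      · rw [if_pos hA, if_pos hB, if_pos ⟨hA, hB⟩]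
      · rw [if_neg hB, if_neg (fun h => hB h.2), mul_zero]
    · rw [if_neg hA, if_neg (fun h => hA h.1), zero_mul]
  simp_rw [h1]
  simp_rw [ENNReal.tsum_mul_left, ENNReal.tsum_mul_right]
  have h2 : ∑' v : OrbR τ → Bool → Λ, ∏ i : OrbR τ, (if v i true = θ i.1 (v i false) then
          g i.1 (v i false) * g (τ i.1) (v i true) else 0) = E ^ (Fintype.card (OrbR τ)) := by
    have h3 := (prod_tsum (fun (i : OrbR τ) (w : Bool → Λ) => if w true = θ i.1 (w false) then
          g i.1 (w false) * g (τ i.1) (w true) else 0)).symm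
    refine h3.trans ?_
    have h6 : E ^ Fintype.card (OrbR τ) = ∏ _i : OrbR τ, E := by
      rw [Finset.prod_const, Finset.card_univ]
    rw [h6]
    refine Finset.prod_congr rfl fun i _ => ?_
    have hne : τ i.1 ≠ i.1 := by
      intro h
      have := i.2
      rw [h] at this
      exact lt_irrefl _ this
    rw [← hE i.1 hne, ← (Equiv.boolArrowEquivProd Λ).symm.tsum_eq, ENNReal.tsum_prod']
    refine tsum_congr fun x => ?_
    rw [tsum_eq_single (θ i.1 x)]
    · show (if θ i.1 x = θ i.1 x then g i.1 x * g (τ i.1) (θ i.1 x) else 0) = _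
      rw [if_pos rfl]
    · intro y hy
      show (if y = θ i.1 x then g i.1 x * g (τ i.1) y else 0) = _
      rw [if_neg hy]
  have h4 : ∑' u : OrbF τ → Λ, ∏ i : OrbF τ, (if θ i.1 (u i) = u i then g i.1 (u i) else 0) =
      ∏ i ∈ univ.filter fun i => τ i = i, ∑' x, if θ i x = x then g i x else 0 := by
    have h5 := (prod_tsum (fun (i : OrbF τ) (x : Λ) => if θ i.1 x = x then g i.1 x else 0)).symm
    refine h5.trans ?_
    rw [Finset.prod_subtype (p := fun i => τ i = i) (univ.filter fun i => τ i = i) (fun i => by simp)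
      (fun i => ∑' x, if θ i x = x then g i x else 0)]
  rw [h2, h4, orb_card τ hτ]

end PGr

end

section
/-! # Module OrbSum: sums over functions which are equivariant under a permutation -/

set_option linter.unusedSectionVars false

namespace PGr
open Equiv Finset
open scoped ENNReal Classical

/-- the number of elements of the cycle of `x` -/
noncomputable def orbN {X : Type*} [Fintype X] (π : Perm X) (x : X) : ℕ :=
  (univ.filter fun y => π.SameCycle x y).card

/-- the number of elements `y` of the cycle of `x` with `c y = true` -/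
noncomputable def orbC {X : Type*} [Fintype X] (π : Perm X) (c : X → Bool) (x : X) : ℕ :=
  (univ.filter fun y => π.SameCycle x y ∧ c y = true).card

/-- the cycle of `x` -/
def OrbSum_q {X : Type*} (π : Perm X) (x : X) : Quotient (Perm.SameCycle.setoid π) :=
  Quotient.mk (Perm.SameCycle.setoid π) x

theorem OrbSum_q_eq {X : Type*} (π : Perm X) (x y : X) :
    OrbSum_q π x = OrbSum_q π y ↔ π.SameCycle x y :=
  ⟨fun h => Quotient.exact h, fun h => Quotient.sound h⟩

theorem OrbSum_out {X : Type*} (π : Perm X) (x : X) : π.SameCycle (OrbSum_q π x).out x :=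
  Quotient.exact (Quotient.out_eq (OrbSum_q π x))

theorem OrbSum_q_out {X : Type*} (π : Perm X) (o : Quotient (Perm.SameCycle.setoid π)) :
    OrbSum_q π o.out = o := Quotient.out_eq o

theorem OrbSum_q_step {X : Type*} (π : Perm X) (x : X) : OrbSum_q π (π x) = OrbSum_q π x :=
  (OrbSum_q_eq π _ _).2 (Perm.sameCycle_apply_left.2 (Perm.SameCycle.refl π x))

/-- partial sums along the cycles -/
theorem OrbSum_pot {X : Type*} [Fintype X] (π : Perm X) (j : X → ℕ) :
    ∃ p : X → ℕ, (∀ o : Quotient (Perm.SameCycle.setoid π), p o.out = 0) ∧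
      (∀ x, π x ≠ (OrbSum_q π x).out → p (π x) = p x + j x) ∧
      ∀ x, π x = (OrbSum_q π x).out →
        p x + j x = ∑ y ∈ univ.filter (fun y => π.SameCycle (OrbSum_q π x).out y), j y := by
  let r : X → X := fun t => (OrbSum_q π t).out
  have hr : ∀ t, π.SameCycle (r t) t := OrbSum_out π
  have hrs : ∀ t, r (π t) = r t := by
    intro t
    show (OrbSum_q π (π t)).out = (OrbSum_q π t).out
    rw [OrbSum_q_step]
  have hro : ∀ o : Quotient (Perm.SameCycle.setoid π), r o.out = o.out := by
    intro o
    show (OrbSum_q π o.out).out = o.out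
    rw [OrbSum_q_out]
  have hex : ∀ t, ∃ n : ℕ, (π ^ n) (r t) = t := fun t => by
    obtain ⟨n, _, hn⟩ := (hr t).exists_pow_eq'
    exact ⟨n, hn⟩
  let k : X → ℕ := fun t => Nat.find (hex t)
  have hk : ∀ t, (π ^ k t) (r t) = t := fun t => Nat.find_spec (hex t)
  have hmin : ∀ t m, m < k t → (π ^ m) (r t) ≠ t := fun t m hm => Nat.find_min (hex t) hm
  have hsk : ∀ t, (π ^ (k t + 1)) (r t) = π t := by
    intro t
    rw [pow_succ', Perm.mul_apply, hk]
  refine ⟨fun t => ∑ i ∈ range (k t), j ((π ^ i) (r t)), fun o => ?_, fun t hst => ?_,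
    fun t hst => ?_⟩
  · have hk0 : k o.out = 0 := by
      have h0 : (π ^ 0) (r o.out) = o.out := by rw [hro]; rfl
      by_contra hne
      exact hmin o.out 0 (Nat.pos_of_ne_zero hne) h0
    show ∑ i ∈ range (k o.out), j ((π ^ i) (r o.out)) = 0
    rw [hk0, range_zero, sum_empty]
  · have hk1 : k (π t) = k t + 1 := by
      apply le_antisymm
      · by_contra hlt
        push Not at hlt
        exact hmin (π t) (k t + 1) hlt (by rw [hrs, hsk])
      · by_contra hlt
        push Not at hlt
        have h1 : (π ^ k (π t)) (r t) = π t := by have := hk (π t); rwa [hrs] at this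
        rcases Nat.eq_zero_or_pos (k (π t)) with h0 | hpos
        · rw [h0] at h1; exact hst h1.symm
        · obtain ⟨m, hm⟩ := Nat.exists_eq_succ_of_ne_zero hpos.ne'
          rw [hm, pow_succ', Perm.mul_apply] at h1
          exact hmin t m (by omega) (π.injective h1)
    show ∑ i ∈ range (k (π t)), j ((π ^ i) (r (π t))) = ∑ i ∈ range (k t), j ((π ^ i) (r t)) + j t
    rw [hk1, hrs, sum_range_succ, hk]
  · have hper : (π ^ (k t + 1)) (r t) = r t := by rw [hsk]; exact hst
    have hsum : ∑ i ∈ range (k t + 1), j ((π ^ i) (r t)) =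
        ∑ y ∈ univ.filter (fun y => π.SameCycle (r t) y), j y := by
      apply Finset.sum_bij (fun i _ => (π ^ i) (r t))
      · intro i _
        rw [mem_filter]
        exact ⟨mem_univ _, ⟨i, by simp⟩⟩
      · intro i hi i' hi' he
        rw [mem_range] at hi hi'
        have key : ∀ u v : ℕ, u < v → v ≤ k t → (π ^ u) (r t) ≠ (π ^ v) (r t) := by
          intro u v huv hv heq
          have h1 : (π ^ (k t - v + u)) (r t) = t := by
            rw [pow_add, Perm.mul_apply, heq, ← Perm.mul_apply, ← pow_add]
            have : k t - v + v = k t := by omega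
            rw [this, hk]
          exact hmin t _ (by omega) h1
        rcases lt_trichotomy i i' with hlt | heq | hgt
        · exact absurd he (key i i' hlt (by omega))
        · exact heq
        · exact absurd he.symm (key i' i hgt (by omega))
      · intro x hx
        rw [mem_filter] at hx
        obtain ⟨m, _, hm⟩ := hx.2.exists_pow_eq'
        refine ⟨m % (k t + 1), mem_range.2 (Nat.mod_lt _ (Nat.succ_pos _)), ?_⟩
        have h2 : ∀ q : ℕ, (π ^ ((k t + 1) * q)) (r t) = r t := by
          intro q
          induction q with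
          | zero => simp
          | succ q ih => rw [Nat.mul_succ, pow_add, Perm.mul_apply, hper, ih]
        have h3 : (π ^ m) (r t) = (π ^ (m % (k t + 1))) (r t) := by
          conv_lhs => rw [← Nat.mod_add_div m (k t + 1)]
          rw [pow_add, Perm.mul_apply, h2]
        rw [← h3, hm]
      · intro i _
        rfl
    rw [sum_range_succ, hk] at hsum
    exact hsum

theorem OrbSum_fib {X : Type*} [Fintype X] (π : Perm X)
    (o : Quotient (Perm.SameCycle.setoid π)) :
    (univ.filter fun x => OrbSum_q π x = o).card = orbN π o.out := by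
  rw [orbN]
  congr 1
  ext x
  simp only [mem_filter, mem_univ, true_and]
  conv_lhs => rw [← OrbSum_q_out π o]
  rw [OrbSum_q_eq]
  exact ⟨fun h => h.symm, fun h => h.symm⟩

/-- Proof: `f` is determined by its values at representatives of the cycles (`Quotient.out`); the value `a` at `x` is
possible iff going once around the cycle gives `a` again: always if `orbC` is even, iff `φ a = a` if it is odd; all
values on the cycle have the same weight. -/
theorem sum_equivariant {X α : Type*} [Fintype X] (π : Perm X) (c : X → Bool) (φ : α → α)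
    (hφ : ∀ a, φ (φ a) = a) (w : α → ℝ≥0∞) (hw : ∀ a, w (φ a) = w a) :
    ∑' f : X → α, (if ∀ x, f (π x) = (if c x then φ (f x) else f x) then ∏ x, w (f x) else 0) =
      ∏ᶠ o : Quotient (Perm.SameCycle.setoid π), (if Even (orbC π c o.out) then
        ∑' a, w a ^ orbN π o.out else ∑' a, if φ a = a then w a ^ orbN π o.out else 0) := by
  obtain ⟨p, hp0, hp1, hp2⟩ := OrbSum_pot π (fun x => if c x = true then 1 else 0)
  obtain ⟨k, hk0, hk1, -⟩ := OrbSum_pot π (fun _ => 1)
  have hsumC : ∀ x, ∑ y ∈ univ.filter (fun y => π.SameCycle x y), (if c y = true then 1 else 0) =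
      orbC π c x := by
    intro x
    rw [orbC, ← sum_filter, filter_filter, sum_const, smul_eq_mul, mul_one]
  have hit : ∀ (m : ℕ) (b : Bool) (a : α), (if b then φ (φ^[m] a) else φ^[m] a) =
      φ^[m + (if b = true then 1 else 0)] a := by
    intro m b a
    cases b
    · simp
    · simp only [if_true]
      rw [Function.iterate_succ_apply']
  have heven : ∀ (m : ℕ) (a : α), Even m → φ^[m] a = a := by
    intro m a hm
    obtain ⟨i, rfl⟩ := hm
    rw [← two_mul, Function.iterate_mul]
    have h2 : φ^[2] = id := by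
      funext b
      exact hφ b
    rw [h2, Function.iterate_id]
    rfl
  have hodd : ∀ (m : ℕ) (a : α), ¬ Even m → φ^[m] a = φ a := by
    intro m a hm
    rw [Nat.not_even_iff_odd] at hm
    obtain ⟨i, rfl⟩ := hm
    rw [Function.iterate_add_apply, Function.iterate_one, heven _ _ ⟨i, by ring⟩]
  have hwit : ∀ (m : ℕ) (a : α), w (φ^[m] a) = w a := by
    intro m a
    by_cases hm : Even m
    · rw [heven m a hm]
    · rw [hodd m a hm, hw]
  -- the functions with given values at the representatives
  let Fn : (Quotient (Perm.SameCycle.setoid π) → α) → X → α :=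
    fun g x => φ^[p x] (g (OrbSum_q π x))
  have hFout : ∀ g (o : Quotient (Perm.SameCycle.setoid π)), Fn g o.out = g o := by
    intro g o
    show φ^[p o.out] (g (OrbSum_q π o.out)) = g o
    rw [hp0, OrbSum_q_out]
    rfl
  have hFinj : Function.Injective Fn := by
    intro g g' h
    funext o
    rw [← hFout g o, ← hFout g' o, h]
  have hFeq : ∀ g, (∀ x, Fn g (π x) = (if c x then φ (Fn g x) else Fn g x)) ↔
      ∀ o : Quotient (Perm.SameCycle.setoid π), Even (orbC π c o.out) ∨ φ (g o) = g o := by
    intro g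
    have hstep : ∀ x, (if c x then φ (Fn g x) else Fn g x) =
        φ^[p x + (if c x = true then 1 else 0)] (g (OrbSum_q π x)) := fun x => hit _ _ _
    constructor
    · intro h o
      by_cases he : Even (orbC π c o.out)
      · exact Or.inl he
      right
      have hx1 : π (π⁻¹ o.out) = o.out := by simp
      have hx2 : OrbSum_q π (π⁻¹ o.out) = o := by
        rw [← OrbSum_q_step, hx1, OrbSum_q_out]
      have h1 := h (π⁻¹ o.out)
      rw [hx1, hFout, hstep, hp2 (π⁻¹ o.out) (by rw [hx1, hx2]), hx2, hsumC, hodd _ _ he] at h1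
      exact h1.symm
    · intro h x
      rw [hstep]
      by_cases hx : π x = (OrbSum_q π x).out
      · rw [hp2 x hx, hsumC, hx, hFout]
        rcases h (OrbSum_q π x) with he | he
        · rw [heven _ _ he]
        · by_cases he' : Even (orbC π c (OrbSum_q π x).out)
          · rw [heven _ _ he']
          · rw [hodd _ _ he', he]
      · show φ^[p (π x)] (g (OrbSum_q π (π x))) = _
        rw [hp1 x hx, OrbSum_q_step]
  have hFsurj : ∀ f : X → α, (∀ x, f (π x) = (if c x then φ (f x) else f x)) →
      Fn (fun o => f o.out) = f := by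
    intro f hf
    have key : ∀ n x, k x = n → φ^[p x] (f (OrbSum_q π x).out) = f x := by
      intro n
      induction n using Nat.strong_induction_on with
      | _ n ih =>
        intro x hx
        by_cases hxr : x = (OrbSum_q π x).out
        · rw [← hxr]
          have : p x = 0 := by rw [hxr]; exact hp0 _
          rw [this]
          rfl
        · obtain ⟨y, hy⟩ : ∃ y, π y = x := ⟨π⁻¹ x, by simp⟩
          subst hy
          rw [OrbSum_q_step] at hxr ⊢
          have h1 := hk1 y hxr
          have h2 := ih (k y) (by omega) y rfl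
          rw [hp1 y hxr, ← hit, h2, hf]
    funext x
    exact key (k x) x rfl
  rw [finprod_eq_prod_of_fintype]
  have hR : ∀ o : Quotient (Perm.SameCycle.setoid π), (if Even (orbC π c o.out) then
        ∑' a, w a ^ orbN π o.out else ∑' a, if φ a = a then w a ^ orbN π o.out else 0) =
      ∑' a, if Even (orbC π c o.out) ∨ φ a = a then w a ^ orbN π o.out else 0 := by
    intro o
    by_cases he : Even (orbC π c o.out)
    · rw [if_pos he]
      refine tsum_congr fun a => ?_
      rw [if_pos (Or.inl he)]
    · rw [if_neg he]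
      refine tsum_congr fun a => ?_
      by_cases h : φ a = a
      · rw [if_pos h, if_pos (Or.inr h)]
      · rw [if_neg h, if_neg (by tauto)]
  rw [prod_congr rfl fun o _ => hR o, prod_tsum, ← hFinj.tsum_eq]
  · refine tsum_congr fun g => ?_
    by_cases h : ∀ o : Quotient (Perm.SameCycle.setoid π), Even (orbC π c o.out) ∨ φ (g o) = g o
    · rw [if_pos ((hFeq g).2 h)]
      have h1 : ∀ x, w (Fn g x) = w (g (OrbSum_q π x)) := fun x => hwit _ _
      rw [prod_congr rfl fun x _ => h1 x,
        ← prod_fiberwise univ (OrbSum_q π) (fun x => w (g (OrbSum_q π x)))]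
      refine prod_congr rfl fun o _ => ?_
      rw [if_pos (h o), ← OrbSum_fib, ← prod_const]
      refine prod_congr rfl fun x hx => ?_
      rw [(mem_filter.1 hx).2]
    · rw [if_neg fun h' => h ((hFeq g).1 h')]
      push Not at h
      obtain ⟨o, ho⟩ := h
      symm
      refine prod_eq_zero (mem_univ o) ?_
      rw [if_neg]
      rintro (h1 | h1)
      · exact ho.1 h1
      · exact ho.2 h1
  · intro f hf
    rw [Function.mem_support] at hf
    have h1 : ∀ x, f (π x) = (if c x then φ (f x) else f x) := by
      by_contra h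
      rw [if_neg h] at hf
      exact hf rfl
    exact ⟨fun o => f o.out, hFsurj f h1⟩

/-- all cycles have length `k`, except some fixed points; `c` vanishes outside the fixed points -/
theorem OrbSum_rot {X α : Type*} [Fintype X] (π : Perm X) (k : ℕ) (hk : 2 ≤ k)
    (hπ : ∀ x, π x ≠ x → orbN π x = k) (c : X → Bool) (hc : ∀ x, π x ≠ x → Even (orbC π c x))
    (φ : α → α) (hφ : ∀ a, φ (φ a) = a) (w : α → ℝ≥0∞) (hw : ∀ a, w (φ a) = w a) :
    ∑' f : X → α, (if ∀ x, f (π x) = (if c x then φ (f x) else f x) then ∏ x, w (f x) else 0) =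
      (∑' a, w a) ^ (univ.filter fun x => π x = x ∧ c x = false).card *
      (∑' a, if φ a = a then w a else 0) ^ (univ.filter fun x => π x = x ∧ c x = true).card *
      (∑' a, w a ^ k) ^ ((Fintype.card X - (univ.filter fun x => π x = x).card) / k) := by
  rw [sum_equivariant π c φ hφ w hw, finprod_eq_prod_of_fintype]
  -- fixed points
  have hfix : ∀ x y, π x = x → π.SameCycle x y → y = x := by
    intro x y hx h
    obtain ⟨i, _, hi⟩ := h.exists_pow_eq'
    rw [← hi]
    clear hi
    induction i with
    | zero => rfl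
    | succ i ih =>
      rw [pow_succ, Perm.mul_apply, hx]
      exact ih (by omega)
  have hfixout : ∀ x, π x = x → (OrbSum_q π x).out = x := fun x hx =>
    hfix x _ hx (OrbSum_out π x).symm
  have hN1 : ∀ x, π x = x → orbN π x = 1 := by
    intro x hx
    rw [orbN, card_eq_one]
    refine ⟨x, ?_⟩
    ext y
    simp only [mem_filter, mem_univ, true_and, mem_singleton]
    exact ⟨fun h => hfix x y hx h, fun h => by rw [h]⟩
  have hC0 : ∀ x, π x = x → c x = false → orbC π c x = 0 := by
    intro x hx hcx
    rw [orbC, card_eq_zero, filter_eq_empty_iff]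
    rintro y _ ⟨h1, h2⟩
    rw [hfix x y hx h1, hcx] at h2
    exact absurd h2 (by decide)
  have hC1 : ∀ x, π x = x → c x = true → orbC π c x = 1 := by
    intro x hx hcx
    rw [orbC, card_eq_one]
    refine ⟨x, ?_⟩
    ext y
    simp only [mem_filter, mem_univ, true_and, mem_singleton]
    exact ⟨fun h => hfix x y hx h.1, fun h => by rw [h]; exact ⟨Perm.SameCycle.refl _ _, hcx⟩⟩
  obtain ⟨A, hA⟩ : ∃ A, A = ∑' a, w a := ⟨_, rfl⟩
  obtain ⟨B, hB⟩ : ∃ B, B = ∑' a, if φ a = a then w a else 0 := ⟨_, rfl⟩
  obtain ⟨C, hC⟩ : ∃ C, C = ∑' a, w a ^ k := ⟨_, rfl⟩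
  have hT : ∀ o : Quotient (Perm.SameCycle.setoid π), (if Even (orbC π c o.out) then
        ∑' a, w a ^ orbN π o.out else ∑' a, if φ a = a then w a ^ orbN π o.out else 0) =
      if π o.out = o.out ∧ c o.out = false then A else
        if π o.out = o.out ∧ c o.out = true then B else C := by
    intro o
    by_cases h : π o.out = o.out
    · by_cases hb : c o.out = true
      · have h1 : ¬ (π o.out = o.out ∧ c o.out = false) := by
          rintro ⟨_, h2⟩
          rw [hb] at h2
          exact absurd h2 (by decide)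
        rw [hC1 _ h hb, if_neg (by decide : ¬ Even 1), hN1 _ h, if_neg h1, if_pos ⟨h, hb⟩, hB]
        simp only [pow_one]
      · have hb' : c o.out = false := by simpa using hb
        rw [hC0 _ h hb', if_pos (by decide : Even 0), hN1 _ h, if_pos ⟨h, hb'⟩, hA]
        simp only [pow_one]
    · rw [if_pos (hc _ h), hπ _ h, if_neg (fun h' => h h'.1), if_neg (fun h' => h h'.1), hC]
  rw [prod_congr rfl fun o _ => hT o, ← hA, ← hB, ← hC, prod_ite, prod_const, prod_ite, prod_const,
    prod_const, filter_filter, filter_filter, ← mul_assoc]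
  -- counting
  have hcount : ∀ b : Bool, (univ.filter fun o : Quotient (Perm.SameCycle.setoid π) =>
      π o.out = o.out ∧ c o.out = b).card = (univ.filter fun x => π x = x ∧ c x = b).card := by
    intro b
    symm
    refine card_bij (fun x _ => OrbSum_q π x) ?_ ?_ ?_
    · intro x hx
      rw [mem_filter] at hx ⊢
      rw [hfixout x hx.2.1]
      exact ⟨mem_univ _, hx.2⟩
    · intro x hx y hy h
      rw [mem_filter] at hx hy
      exact (hfix x y hx.2.1 ((OrbSum_q_eq π x y).1 h)).symm
    · intro o ho
      rw [mem_filter] at ho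
      exact ⟨o.out, mem_filter.2 ⟨mem_univ _, ho.2⟩, OrbSum_q_out π o⟩
  have hcard : Fintype.card X = (univ.filter fun x => π x = x).card +
      (univ.filter fun o : Quotient (Perm.SameCycle.setoid π) => ¬ π o.out = o.out).card * k := by
    have h1 : Fintype.card X = ∑ o : Quotient (Perm.SameCycle.setoid π), orbN π o.out := by
      rw [← card_univ, card_eq_sum_card_fiberwise (f := OrbSum_q π) (t := univ)
        (fun x _ => mem_coe.2 (mem_univ _))]
      exact sum_congr rfl fun o _ => OrbSum_fib π o
    have h2 : ∀ o : Quotient (Perm.SameCycle.setoid π), orbN π o.out =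
        if π o.out = o.out then 1 else k := by
      intro o
      by_cases h : π o.out = o.out
      · rw [if_pos h, hN1 _ h]
      · rw [if_neg h, hπ _ h]
    rw [h1, sum_congr rfl fun o _ => h2 o, sum_ite, sum_const, sum_const, smul_eq_mul, mul_one,
      smul_eq_mul]
    congr 1
    symm
    refine card_bij (fun x _ => OrbSum_q π x) ?_ ?_ ?_
    · intro x hx
      rw [mem_filter] at hx ⊢
      rw [hfixout x hx.2]
      exact ⟨mem_univ _, hx.2⟩
    · intro x hx y hy h
      rw [mem_filter] at hx hy
      exact (hfix x y hx.2 ((OrbSum_q_eq π x y).1 h)).symm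
    · intro o ho
      rw [mem_filter] at ho
      exact ⟨o.out, mem_filter.2 ⟨mem_univ _, ho.2⟩, OrbSum_q_out π o⟩
  have hB2 : (univ.filter fun o : Quotient (Perm.SameCycle.setoid π) =>
      ¬ (π o.out = o.out ∧ c o.out = false) ∧ π o.out = o.out ∧ c o.out = true) =
      univ.filter fun o : Quotient (Perm.SameCycle.setoid π) =>
        π o.out = o.out ∧ c o.out = true := by
    ext o
    simp only [mem_filter, mem_univ, true_and]
    constructor
    · exact fun h => h.2
    · intro h
      refine ⟨fun h' => ?_, h⟩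
      rw [h.2] at h'
      exact absurd h'.2 (by decide)
  have hC2 : (univ.filter fun o : Quotient (Perm.SameCycle.setoid π) =>
      ¬ (π o.out = o.out ∧ c o.out = false) ∧ ¬ (π o.out = o.out ∧ c o.out = true)) =
      univ.filter fun o : Quotient (Perm.SameCycle.setoid π) => ¬ π o.out = o.out := by
    ext o
    simp only [mem_filter, mem_univ, true_and]
    rcases c o.out with _ | _ <;> simp
  have hdiv : (Fintype.card X - (univ.filter fun x => π x = x).card) / k =
      (univ.filter fun o : Quotient (Perm.SameCycle.setoid π) => ¬ π o.out = o.out).card := by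
    rw [hcard, Nat.add_sub_cancel_left, Nat.mul_div_cancel _ (by omega)]
  rw [hB2, hC2, hcount, hcount, hdiv]

/-- the case of an involution: cycles of length 1 and 2 -/
theorem sum_equivariant_inv {X α : Type*} [Fintype X] (π : Perm X) (hπ : ∀ x, π (π x) = x)
    (c : X → Bool) (hc : ∀ x, c (π x) = c x) (φ : α → α) (hφ : ∀ a, φ (φ a) = a) (w : α → ℝ≥0∞)
    (hw : ∀ a, w (φ a) = w a) :
    ∑' f : X → α, (if ∀ x, f (π x) = (if c x then φ (f x) else f x) then ∏ x, w (f x) else 0) =
      (∑' a, w a) ^ (univ.filter fun x => π x = x ∧ c x = false).card *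
      (∑' a, if φ a = a then w a else 0) ^ (univ.filter fun x => π x = x ∧ c x = true).card *
      (∑' a, w a ^ 2) ^ ((Fintype.card X - (univ.filter fun x => π x = x).card) / 2) := by
  have hcyc : ∀ x, (univ.filter fun y => π.SameCycle x y) = {x, π x} := by
    intro x
    ext y
    simp only [mem_filter, mem_univ, true_and, mem_insert, mem_singleton]
    constructor
    · intro h
      obtain ⟨i, _, hi⟩ := h.exists_pow_eq'
      have key : ∀ i : ℕ, (π ^ i) x = x ∨ (π ^ i) x = π x := by
        intro i
        induction i with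
        | zero => left; rfl
        | succ i ih =>
          rw [pow_succ', Perm.mul_apply]
          rcases ih with h | h
          · right; rw [h]
          · left; rw [h, hπ]
      rcases key i with h | h
      · left; rw [← hi, h]
      · right; rw [← hi, h]
    · rintro (h | h)
      · rw [h]
      · rw [h]
        exact ⟨1, by simp⟩
  refine OrbSum_rot π 2 le_rfl (fun x hx => ?_) c (fun x hx => ?_) φ hφ w hw
  · rw [orbN, hcyc, card_pair (Ne.symm hx)]
  · rw [orbC, ← filter_filter, hcyc]
    by_cases h : c x = true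
    · have h1 : ({x, π x} : Finset X).filter (fun y => c y = true) = {x, π x} := by
        rw [filter_eq_self]
        intro y hy
        rw [mem_insert, mem_singleton] at hy
        rcases hy with rfl | rfl
        · exact h
        · rw [hc]; exact h
      rw [h1, card_pair (Ne.symm hx)]
      exact even_two
    · have h1 : ({x, π x} : Finset X).filter (fun y => c y = true) = ∅ := by
        rw [filter_eq_empty_iff]
        intro y hy
        rw [mem_insert, mem_singleton] at hy
        rcases hy with rfl | rfl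
        · exact h
        · rw [hc]; exact h
      rw [h1, card_empty]
      exact Even.zero

/-- all cycles have length `k`, except some fixed points; `c` vanishes outside the fixed points -/
theorem sum_equivariant_rot {X α : Type*} [Fintype X] (π : Perm X) (k : ℕ) (hk : 2 ≤ k)
    (hπ : ∀ x, π x ≠ x → orbN π x = k) (c : X → Bool) (hc : ∀ x, π x ≠ x → Even (orbC π c x))
    (φ : α → α) (hφ : ∀ a, φ (φ a) = a) (w : α → ℝ≥0∞) (hw : ∀ a, w (φ a) = w a) :
    ∑' f : X → α, (if ∀ x, f (π x) = (if c x then φ (f x) else f x) then ∏ x, w (f x) else 0) =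
      (∑' a, w a) ^ (univ.filter fun x => π x = x ∧ c x = false).card *
      (∑' a, if φ a = a then w a else 0) ^ (univ.filter fun x => π x = x ∧ c x = true).card *
      (∑' a, w a ^ k) ^ ((Fintype.card X - (univ.filter fun x => π x = x).card) / k) :=
  OrbSum_rot π k hk hπ c hc φ hφ w hw

end PGr

end
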