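import Pool.Agent.PGc.CDefs
import Pool.Agent.PGc.PlPlanar
import Pool.Agent.PGr.BlockDefs
import Pool.Agent.PGr.Cone
import Pool.Agent.PGr.PieceDec
import Pool.Agent.PGr.PlanarPl
import Pool.Agent.PGr.Wedge

section
/-!
# Symmetric rigid maps: the generating functions used by the graph side (interface of stage 3)
-/

set_option linter.unusedSectionVars false

namespace PGr
open Equiv Finset
open scoped ENNReal Classical

/-- the vertices of a map -/
def BMap.Vx (M : BMap) : Type := Quotient (Perm.SameCycle.setoid M.s)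

/-- the vertex of a dart -/
def BMap.vx (M : BMap) (t : M.T) : M.Vx := Quotient.mk (Perm.SameCycle.setoid M.s) t

/-- degree of the root vertex (the vertex of `inr true`) -/
noncomputable def BMap.dg (M : BMap) : ℕ :=
  Function.minimalPeriod (fun t => M.s t) (Sum.inr true)

/-- `σ` is a symmetry of `M` which maps the root dart to `t`: it commutes with the edge involution,
and with the rotation if `o` is true; it inverts the rotation if `o` is false. -/
structure SymM (M : BMap) (o : Bool) (σ : Perm M.T) (t : M.T) : Prop where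
  a : ∀ x, σ (M.aa x) = M.aa (σ x)
  s : ∀ x, σ (M.s x) = if o then M.s (σ x) else M.s⁻¹ (σ x)
  root : σ (Sum.inr true) = t

/-- the number of vertices fixed by `σ`, different from the vertices of the darts in `X` -/
noncomputable def fixV (M : BMap) (σ : Perm M.T) (X : M.T → Prop) : ℕ :=
  Nat.card {q : M.Vx // (∀ t, X t → q ≠ M.vx t) ∧ ∀ t, M.vx t = q → M.vx (σ t) = q}

/-- the number of darts in `X` fixed by `σ` -/
noncomputable def fixD (M : BMap) (σ : Perm M.T) (X : M.T → Prop) : ℕ :=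
  Nat.card {t : M.T // X t ∧ σ t = t}

/-- the number of darts in `X` whose edge is reversed by `σ` -/
noncomputable def revD (M : BMap) (σ : Perm M.T) (X : M.T → Prop) : ℕ :=
  Nat.card {t : M.T // X t ∧ σ t = M.aa t}

/-- Weight of a rooted map with an involution `σ`; the root edge and its two ends are not weighted.
`k1`, `k2`: fixed vertices, pairs of vertices; `d1`: edges whose darts are fixed, `s1`: reversed
edges, `d2`: pairs of edges. -/
noncomputable def symW (M : BMap) (σ : Perm M.T) (k1 k2 d1 s1 d2 : ℝ≥0∞) : ℝ≥0∞ :=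
  k1 ^ fixV M σ (fun t => ∃ b, t = Sum.inr b) *
    k2 ^ ((nV M.s - 2 - fixV M σ (fun t => ∃ b, t = Sum.inr b)) / 2) *
    d1 ^ (fixD M σ (fun t => ∃ d, t = Sum.inl d) / 2) *
    s1 ^ (revD M σ (fun t => ∃ d, t = Sum.inl d) / 2) *
    d2 ^ ((Fintype.card M.D - fixD M σ (fun t => ∃ d, t = Sum.inl d) -
      revD M σ (fun t => ∃ d, t = Sum.inl d)) / 4)

/-- The same; everything is weighted except the root vertex (the vertex of `inr true`). -/
noncomputable def symW0 (M : BMap) (σ : Perm M.T) (k1 k2 d1 s1 d2 : ℝ≥0∞) : ℝ≥0∞ :=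
  k1 ^ fixV M σ (fun t => t = Sum.inr true) *
    k2 ^ ((nV M.s - 1 - fixV M σ (fun t => t = Sum.inr true)) / 2) *
    d1 ^ (fixD M σ (fun _ => True) / 2) * s1 ^ (revD M σ (fun _ => True) / 2) *
    d2 ^ ((Fintype.card M.T - fixD M σ (fun _ => True) - revD M σ (fun _ => True)) / 4)

/-- rigid maps with a reflection fixing the root dart (the root edge lies on the axis) -/
noncomputable def Av (k1 k2 d1 s1 d2 : ℝ≥0∞) : ℝ≥0∞ :=
  ∑' c : GC, ∑ σ : Perm c.rep.1.T,
    if Rigid c.rep.1 ∧ SymM c.rep.1 false σ (Sum.inr true) then symW c.rep.1 σ k1 k2 d1 s1 d2 else 0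

/-- rigid maps with a reflection reversing the root edge (the root edge crosses the axis) -/
noncomputable def Ah (k1 k2 d1 s1 d2 : ℝ≥0∞) : ℝ≥0∞ :=
  ∑' c : GC, ∑ σ : Perm c.rep.1.T,
    if Rigid c.rep.1 ∧ SymM c.rep.1 false σ (Sum.inr false) then symW c.rep.1 σ k1 k2 d1 s1 d2 else 0

/-- rigid maps with a rotation reversing the root edge -/
noncomputable def Api (k1 k2 d1 s1 d2 : ℝ≥0∞) : ℝ≥0∞ :=
  ∑' c : GC, ∑ σ : Perm c.rep.1.T,
    if Rigid c.rep.1 ∧ SymM c.rep.1 true σ (Sum.inr false) then symW c.rep.1 σ k1 k2 d1 s1 d2 else 0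

/-- rigid maps with a reflection exchanging the root dart and the next dart (the corner of the
root dart is bisected by the axis); only the root vertex is not weighted -/
noncomputable def Ac (k1 k2 d1 s1 d2 : ℝ≥0∞) : ℝ≥0∞ :=
  ∑' c : GC, ∑ σ : Perm c.rep.1.T,
    if Rigid c.rep.1 ∧ SymM c.rep.1 false σ (c.rep.1.s (Sum.inr true)) then
      symW0 c.rep.1 σ k1 k2 d1 s1 d2 else 0

/-- rigid maps, only the root vertex is not weighted, divided by the degree of the root vertex -/
noncomputable def Q1 (s E : ℝ≥0∞) : ℝ≥0∞ :=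
  ∑' c : GC, if Rigid c.rep.1 then
    s ^ (nV c.rep.1.s - 1) * E ^ (Fintype.card c.rep.1.T / 2) / (c.rep.1.dg : ℝ≥0∞) else 0

/-- weight of a map with a rotation `σ` of order `k ≥ 2` about the root vertex: `kv` for the other
fixed vertex (if any), `s` for the other orbits of vertices, `ke` for a reversed edge (if any,
`k = 2`), `E` for the other orbits of edges -/
noncomputable def rotW (M : BMap) (σ : Perm M.T) (k : ℕ) (kv s ke E : ℝ≥0∞) : ℝ≥0∞ :=
  kv ^ fixV M σ (fun t => t = Sum.inr true) *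
    s ^ ((nV M.s - 1 - fixV M σ (fun t => t = Sum.inr true)) / k) *
    ke ^ (revD M σ (fun _ => True) / 2) *
    E ^ ((Fintype.card M.T - revD M σ (fun _ => True)) / (2 * k))

/-- rigid maps with a rotation of order `k` about the root vertex (the rotation which maps the root
dart to the `dg / k`-th dart after it), multiplied by `k / dg` -/
noncomputable def Qk (k : ℕ) (kv s ke E : ℝ≥0∞) : ℝ≥0∞ :=
  ∑' c : GC, ∑ σ : Perm c.rep.1.T,
    if Rigid c.rep.1 ∧ k ∣ c.rep.1.dg ∧
        SymM c.rep.1 true σ ((c.rep.1.s ^ (c.rep.1.dg / k)) (Sum.inr true)) then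
      rotW c.rep.1 σ k kv s ke E * (k : ℝ≥0∞) / (c.rep.1.dg : ℝ≥0∞) else 0

end PGr

end

section
/-! # Module ToRG: simple graphs and graphs given by darts -/

set_option linter.unusedSectionVars false

namespace PGr
open Equiv Finset
open scoped Classical

variable {V V' : Type} [Fintype V] [DecidableEq V] [Fintype V'] [DecidableEq V']

private theorem ToRG_inc (G : SimpleGraph V) (v : V) (d : G.Dart) : (toRG G v).inc d = d.fst := rfl

private theorem ToRG_a (G : SimpleGraph V) (v : V) (d : G.Dart) : (toRG G v).a d = d.symm := rfl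

private theorem ToRG_inca (G : SimpleGraph V) (v : V) (d : G.Dart) :
    (toRG G v).inc ((toRG G v).a d) = d.snd := rfl

theorem toRG_good {G : SimpleGraph V} (hc : G.Connected) (hp : IsPlanar G) (v : V) :
    (toRG G v).IsGood := by
  refine ⟨?_, ?_, ?_, ?_, ?_, ?_⟩
  · intro d
    exact SimpleGraph.Dart.symm_symm d
  · intro d
    exact SimpleGraph.Dart.symm_ne d
  · intro d h
    exact (SimpleGraph.Dart.fst_ne_snd d) h.symm
  · intro d d' h1 h2
    exact SimpleGraph.Dart.ext _ _ (Prod.ext h1 h2)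
  · intro X h0 hX
    have : ∃ w : V, w ∉ X := by
      by_contra hcon
      push Not at hcon
      exact hX (eq_univ_iff_forall.2 hcon)
    obtain ⟨w, hw⟩ := this
    obtain ⟨p⟩ := hc.preconnected v w
    obtain ⟨d, -, hd1, hd2⟩ := p.exists_boundary_dart {w | w ∈ X} h0 hw
    exact ⟨d, hd1, hd2⟩
  · obtain ⟨s, hs, hpl⟩ := planar_pl hp
    exact ⟨s, hs, hpl⟩

/-- a graph isomorphism is the same as an isomorphism of the dart structures -/
theorem toRG_iso {G : SimpleGraph V} {G' : SimpleGraph V'} {v : V} {v' : V'} :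
    RIso (toRG G v) (toRG G' v') ↔ ∃ f : G ≃g G', f v = v' := by
  constructor
  · rintro ⟨e, f, h1, h2, h3⟩
    have hadj : ∀ {V V' : Type} [Fintype V] [DecidableEq V] [Fintype V'] [DecidableEq V']
        {G : SimpleGraph V} {G' : SimpleGraph V'} {v : V} {v' : V'}
        (e : (toRG G v).D ≃ (toRG G' v').D) (f : (toRG G v).V ≃ (toRG G' v').V),
        (∀ d, e ((toRG G v).a d) = (toRG G' v').a (e d)) →
        (∀ d, f ((toRG G v).inc d) = (toRG G' v').inc (e d)) →
        ∀ x y, G.Adj x y → G'.Adj (f x) (f y) := by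
      intro V V' _ _ _ _ G G' v v' e f h1 h2 x y hxy
      let d : G.Dart := ⟨(x, y), hxy⟩
      have e1 : f x = (e d : G'.Dart).fst := h2 d
      have e2 : f y = (e d : G'.Dart).snd := by
        have := h2 ((toRG G v).a d)
        rw [h1] at this
        exact this
      have h3 := (e d : G'.Dart).adj
      rw [e1, e2]
      exact h3
    refine ⟨⟨f, ?_⟩, h3⟩
    intro x y
    constructor
    · intro h
      have := hadj (G := G') (G' := G) (v := v') (v' := v) e.symm f.symm (by
        intro d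
        rw [Equiv.symm_apply_eq, h1, Equiv.apply_symm_apply]) (by
        intro d
        rw [Equiv.symm_apply_eq, h2, Equiv.apply_symm_apply]) _ _ h
      have key : ∀ x' y', x' = x → y' = y → G.Adj x' y' → G.Adj x y := by
        rintro _ _ rfl rfl h
        exact h
      exact key _ _ (Equiv.symm_apply_apply f x) (Equiv.symm_apply_apply f y) this
    · intro h
      exact hadj e f h1 h2 x y h
  · rintro ⟨f, hf⟩
    refine ⟨⟨fun d => (⟨(f (d : G.Dart).fst, f (d : G.Dart).snd), f.map_adj_iff.2 (d : G.Dart).adj⟩ : G'.Dart),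
      fun d => (⟨(f.symm (d : G'.Dart).fst, f.symm (d : G'.Dart).snd),
        f.symm.map_adj_iff.2 (d : G'.Dart).adj⟩ : G.Dart), ?_, ?_⟩, f.toEquiv, ?_, ?_, hf⟩
    · intro d
      apply SimpleGraph.Dart.ext
      exact Prod.ext (f.symm_apply_apply _) (f.symm_apply_apply _)
    · intro d
      apply SimpleGraph.Dart.ext
      exact Prod.ext (f.apply_symm_apply _) (f.apply_symm_apply _)
    · intro d
      rfl
    · intro d
      rfl

theorem exists_toRG {H : RG} (h : H.IsGood) : ∃ (G : SimpleGraph (Fin H.size)) (v : Fin H.size),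
    G.Connected ∧ IsPlanar G ∧ RIso H (toRG G v) := by
  let φ : H.V ≃ Fin H.size := Fintype.equivFin H.V
  let G : SimpleGraph (Fin H.size) :=
    { Adj := fun x y => ∃ d : H.D, φ (H.inc d) = x ∧ φ (H.inc (H.a d)) = y
      symm := ⟨by
        rintro x y ⟨d, h1, h2⟩
        exact ⟨H.a d, h2, by rw [h.inv]; exact h1⟩⟩
      loopless := ⟨by
        rintro x ⟨d, h1, h2⟩
        apply h.loop d
        apply φ.injective
        rw [h1, h2]⟩ }
  have hmk : ∀ d : H.D, G.Adj (φ (H.inc d)) (φ (H.inc (H.a d))) := fun d => ⟨d, rfl, rfl⟩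
  let e : H.D ≃ G.Dart := Equiv.ofBijective (fun d => ⟨(φ (H.inc d), φ (H.inc (H.a d))), hmk d⟩) (by
    constructor
    · intro d d' hdd
      have h1 : φ (H.inc d) = φ (H.inc d') := congrArg (fun x : G.Dart => x.fst) hdd
      have h2 : φ (H.inc (H.a d)) = φ (H.inc (H.a d')) := congrArg (fun x : G.Dart => x.snd) hdd
      exact h.simp d d' (φ.injective h1) (φ.injective h2)
    · rintro ⟨⟨x, y⟩, hxy⟩
      obtain ⟨d, h1, h2⟩ := hxy
      refine ⟨d, ?_⟩
      apply SimpleGraph.Dart.ext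
      exact Prod.ext h1 h2)
  have hiso : RIso H (toRG G (φ H.v0)) := by
    refine ⟨e, φ, ?_, ?_, rfl⟩
    · intro d
      apply SimpleGraph.Dart.ext
      refine Prod.ext rfl ?_
      change φ (H.inc (H.a (H.a d))) = φ (H.inc d)
      rw [h.inv]
    · intro d
      rfl
  have hgood := hiso.good h
  refine ⟨G, φ H.v0, ?_, ?_, hiso⟩
  · have hreach : ∀ w, G.Reachable (φ H.v0) w := by
      by_contra hcon
      push Not at hcon
      obtain ⟨w, hw⟩ := hcon
      obtain ⟨d, hd1, hd2⟩ := hgood.conn (univ.filter fun x => G.Reachable (φ H.v0) x)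
        (by
          rw [mem_filter]
          exact ⟨mem_univ _, SimpleGraph.Reachable.refl _⟩)
        (by
          intro hu
          have h5 := Finset.ext_iff.1 hu w
          exact hw (mem_filter.1 (h5.2 (mem_univ _))).2)
      apply hd2
      rw [mem_filter] at hd1 ⊢
      refine ⟨mem_univ _, hd1.2.trans ?_⟩
      exact (d : G.Dart).adj.reachable
    have : Nonempty (Fin H.size) := ⟨φ H.v0⟩
    exact ⟨fun x y => (hreach x).symm.trans (hreach y)⟩
  · apply pl_planar
    obtain ⟨s, hs, hpl⟩ := hgood.planar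
    exact ⟨s, hs, hpl⟩

end PGr

end

section
/-! # Module ToArc: graphs with a root arc -/

set_option linter.unusedSectionVars false

namespace PGr
open Equiv Finset
open scoped Classical

variable {V V' : Type} [Fintype V] [DecidableEq V] [Fintype V'] [DecidableEq V']

/-! ### arcs -/

/-- the edges are connected through vertices other than `x` -/
def NCut (G : RG) (x : G.V) : Prop := ∀ A : Finset G.D, Cl G.a A → A.Nonempty → A ≠ univ →
  ∃ y, y ≠ x ∧ Sh G.inc A y

/-- `r` is a dart at the root, both ends of its edge are not cut vertices -/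
structure RG.IsArc (G : RG) (r : G.D) : Prop where
  good : G.IsGood
  root : G.inc r = G.v0
  nc0 : NCut G G.v0
  nc1 : NCut G (G.inc (G.a r))

/-- isomorphism of graphs with a root arc -/
def AIso (G H : RG) (r : G.D) (r' : H.D) : Prop :=
  ∃ (e : G.D ≃ H.D) (f : G.V ≃ H.V), (∀ d, e (G.a d) = H.a (e d)) ∧
    (∀ d, f (G.inc d) = H.inc (e d)) ∧ e r = r'

theorem AIso.symm {G H : RG} {r : G.D} {r' : H.D} (h : AIso G H r r') : AIso H G r' r := by
  obtain ⟨e, f, h1, h2, h3⟩ := h
  refine ⟨e.symm, f.symm, fun d => ?_, fun d => ?_, ?_⟩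
  · rw [Equiv.symm_apply_eq, h1, Equiv.apply_symm_apply]
  · rw [Equiv.symm_apply_eq, h2, Equiv.apply_symm_apply]
  · rw [Equiv.symm_apply_eq, h3]

theorem AIso.trans {G H K : RG} {r : G.D} {r' : H.D} {r'' : K.D} (h : AIso G H r r')
    (h' : AIso H K r' r'') : AIso G K r r'' := by
  obtain ⟨e, f, h1, h2, h3⟩ := h
  obtain ⟨e', f', h1', h2', h3'⟩ := h'
  exact ⟨e.trans e', f.trans f', fun d => by simp [h1, h1'], fun d => by simp [h2, h2'],
    by simp [h3, h3']⟩

theorem AIso.size_eq {G H : RG} {r : G.D} {r' : H.D} (h : AIso G H r r') : G.size = H.size := by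
  obtain ⟨e, f, -, -, -⟩ := h
  exact Fintype.card_congr f

/-- every vertex of a connected graph with an edge is on an edge -/
theorem ToArc_nbr {G : SimpleGraph V} (hc : G.Connected) {x y : V} (hxy : G.Adj x y) (u : V) :
    ∃ w, G.Adj u w := by
  have : Nontrivial V := ⟨x, y, hxy.ne⟩
  exact hc.preconnected.exists_adj_of_nontrivial u

/-- In a connected graph with an edge: `G - x` is connected iff the edges are connected through vertices
different from `x`. -/
theorem nonCut_iff {G : SimpleGraph V} (hc : G.Connected) {x y : V} (hxy : G.Adj x y) (z v : V) :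
    NonCut G z ↔ NCut (toRG G v) z := by
  constructor
  · intro hz A hA hne hnu
    by_contra hcon
    push Not at hcon
    -- darts at a vertex different from `z` are all inside or all outside
    have hall : ∀ d d' : G.Dart, d.fst = d'.fst → d.fst ≠ z → d ∈ A → d' ∈ A := by
      intro d d' h1 h2 h3
      by_contra h4
      exact hcon d.fst h2 ⟨⟨d, h3, rfl⟩, d', h4, h1.symm⟩
    have hsymm : ∀ d : G.Dart, d.symm ∈ A ↔ d ∈ A := hA
    -- an end different from `z`
    have hend : ∀ (d : G.Dart), ∃ d' : G.Dart, d'.fst ≠ z ∧ (d' ∈ A ↔ d ∈ A) := by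
      intro d
      by_cases h : d.fst = z
      · refine ⟨d.symm, ?_, hsymm d⟩
        intro h'
        exact d.adj.ne (h.trans h'.symm)
      · exact ⟨d, h, Iff.rfl⟩
    obtain ⟨d, hd⟩ := hne
    obtain ⟨d', hd'⟩ : ∃ d', d' ∉ A := by
      by_contra h
      push Not at h
      exact hnu (Finset.eq_univ_iff_forall.2 h)
    obtain ⟨d1, h1, h1'⟩ := hend d
    obtain ⟨d2, h2, h2'⟩ := hend d'
    have key : ∀ (a b : ({z}ᶜ : Set V)) (p : (G.induce {z}ᶜ).Walk a b),
        (∃ e ∈ A, e.fst = a.1) → ∀ e : G.Dart, e.fst = b.1 → e ∈ A := by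
      intro a b p
      induction p with
      | @nil a =>
        rintro ⟨e, he, hea⟩ e' he'
        refine hall e e' (hea.trans he'.symm) ?_ he
        rw [hea]
        exact a.2
      | @cons a c b hac p ih =>
        rintro ⟨e, he, hea⟩
        have hadj : G.Adj a.1 c.1 := hac
        let e1 : G.Dart := ⟨(a.1, c.1), hadj⟩
        have he1 : e1 ∈ A := hall e e1 hea (by rw [hea]; exact a.2) he
        exact ih ⟨e1.symm, (hsymm e1).2 he1, rfl⟩
    obtain ⟨p⟩ := hz ⟨d1.fst, h1⟩ ⟨d2.fst, h2⟩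
    have h3 := key _ _ p ⟨d1, h1'.2 hd, rfl⟩ d2 rfl
    exact hd' (h2'.1 h3)
  · intro hz y1 y2
    by_contra hcon
    let S : Set V := {u | ∃ h : u ∈ ({z}ᶜ : Set V), (G.induce {z}ᶜ).Reachable y1 ⟨u, h⟩}
    have hstep : ∀ u w, u ∈ S → G.Adj u w → w ≠ z → w ∈ S := by
      rintro u w ⟨hu, hr⟩ hadj hw
      refine ⟨hw, hr.trans (SimpleGraph.Adj.reachable ?_)⟩
      exact hadj
    let A : Finset G.Dart := univ.filter fun d => d.fst ∈ S ∨ d.snd ∈ S
    have hAmem : ∀ d : G.Dart, d ∈ A ↔ d.fst ∈ S ∨ d.snd ∈ S := fun d => by simp [A]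
    have hAcl : Cl (toRG G v).a A := by
      intro (d : G.Dart)
      exact (hAmem d.symm).trans (or_comm.trans (hAmem d).symm)
    have hy1 : y1.1 ∈ S := ⟨y1.2, SimpleGraph.Reachable.refl _⟩
    have hy2 : y2.1 ∉ S := fun ⟨_, h⟩ => hcon h
    obtain ⟨w1, hw1⟩ := ToArc_nbr hc hxy y1.1
    obtain ⟨w2, hw2⟩ := ToArc_nbr hc hxy y2.1
    have hne : A.Nonempty := ⟨(⟨(y1.1, w1), hw1⟩ : G.Dart), (hAmem _).2 (Or.inl hy1)⟩
    have hnu : A ≠ univ := by
      intro h
      have h1 : (⟨(y2.1, w2), hw2⟩ : G.Dart) ∈ A := h ▸ mem_univ _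
      rcases (hAmem _).1 h1 with h2 | h2
      · exact hy2 h2
      · exact hy2 (hstep _ _ h2 hw2.symm y2.2)
    obtain ⟨u, hu, ⟨d, hd, hdu⟩, d', hd', hd'u⟩ := hz A hAcl hne hnu
    have hdu' : d.fst = u := hdu
    have hd'u' : d'.fst = u := hd'u
    have huS : u ∈ S := by
      rcases (hAmem _).1 hd with h2 | h2
      · rwa [hdu'] at h2
      · refine hstep _ _ h2 ?_ hu
        rw [← hdu']
        exact d.adj.symm
    exact hd' ((hAmem _).2 (Or.inl (by rw [hd'u']; exact huS)))

theorem toRG_arc {G : SimpleGraph V} (hc : G.Connected) (hp : IsPlanar G) {v w : V}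
    (h : G.Adj v w) (hv : NonCut G v) (hw : NonCut G w) : (toRG G v).IsArc ⟨(v, w), h⟩ :=
  ⟨toRG_good hc hp v, rfl, (nonCut_iff hc h v v).1 hv, (nonCut_iff hc h w v).1 hw⟩

/-- isomorphic graphs have isomorphic dart structures -/
theorem ToArc_darts {G : SimpleGraph V} {G' : SimpleGraph V'} (f : G ≃g G') :
    ∃ e : G.Dart ≃ G'.Dart, ∀ d : G.Dart, (e d).fst = f d.fst ∧ (e d).snd = f d.snd := by
  let g : G.Dart → G'.Dart := fun d => ⟨(f d.fst, f d.snd), f.map_adj_iff.2 d.adj⟩
  have hg : Function.Bijective g := by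
    constructor
    · intro d d' h
      have h1 : f d.fst = f d'.fst := congrArg (fun x : G'.Dart => x.fst) h
      have h2 : f d.snd = f d'.snd := congrArg (fun x : G'.Dart => x.snd) h
      exact SimpleGraph.Dart.ext _ _ (Prod.ext (f.injective h1) (f.injective h2))
    · intro d
      refine ⟨⟨(f.symm d.fst, f.symm d.snd), f.symm.map_adj_iff.2 d.adj⟩, ?_⟩
      exact SimpleGraph.Dart.ext _ _ (Prod.ext (f.apply_symm_apply _) (f.apply_symm_apply _))
  exact ⟨Equiv.ofBijective g hg, fun d => ⟨rfl, rfl⟩⟩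

theorem toRG_arc_iso {G : SimpleGraph V} {G' : SimpleGraph V'} {v w : V} {v' w' : V'}
    (h : G.Adj v w) (h' : G'.Adj v' w') (hc : G.Connected) (hc' : G'.Connected) :
    AIso (toRG G v) (toRG G' v') ⟨(v, w), h⟩ ⟨(v', w'), h'⟩ ↔ ∃ f : G ≃g G', f v = v' ∧ f w = w' := by
  constructor
  · rintro ⟨e, f, h1, h2, h3⟩
    have h1' : ∀ d : G.Dart, e d.symm = (e d : G'.Dart).symm := h1
    have h2' : ∀ d : G.Dart, f d.fst = (e d : G'.Dart).fst := h2
    have h2'' : ∀ d : G.Dart, f d.snd = (e d : G'.Dart).snd := by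
      intro d
      have := h2' d.symm
      rw [h1'] at this
      exact this
    have hadj : ∀ a b, G'.Adj (f a) (f b) ↔ G.Adj a b := by
      intro a b
      constructor
      · intro hab
        obtain ⟨d, hd⟩ := e.surjective (⟨(f a, f b), hab⟩ : G'.Dart)
        have e1 := h2' d
        have e2 := h2'' d
        rw [hd] at e1 e2
        have e3 : (d : G.Dart).fst = a := f.injective e1
        have e4 : (d : G.Dart).snd = b := f.injective e2
        rw [← e3, ← e4]
        exact SimpleGraph.Dart.adj d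
      · intro hab
        have e1 := h2' ⟨(a, b), hab⟩
        have e2 := h2'' ⟨(a, b), hab⟩
        have e3 : f a = _ := e1
        have e4 : f b = _ := e2
        rw [e3, e4]
        exact SimpleGraph.Dart.adj _
    refine ⟨⟨f, @hadj⟩, ?_, ?_⟩
    · have e1 := h2' ⟨(v, w), h⟩
      rw [h3] at e1
      exact e1
    · have e1 := h2'' ⟨(v, w), h⟩
      rw [h3] at e1
      exact e1
  · rintro ⟨f, rfl, rfl⟩
    obtain ⟨e, he⟩ := ToArc_darts f
    refine ⟨e, f.toEquiv, fun d => ?_, fun d => (he d).1.symm, ?_⟩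
    · change e (SimpleGraph.Dart.symm d) = SimpleGraph.Dart.symm (e d)
      exact SimpleGraph.Dart.ext _ _ (Prod.ext ((he _).1.trans (he d).2.symm)
        ((he _).2.trans (he d).1.symm))
    · exact SimpleGraph.Dart.ext _ _ (Prod.ext (he _).1 (he _).2)

/-- transport of `NCut` -/
theorem ToArc_ncut {G H : RG} {r : G.D} {r' : H.D} (h : AIso G H r r') :
    ∃ f : G.V ≃ H.V, f (G.inc r) = H.inc r' ∧ f (G.inc (G.a r)) = H.inc (H.a r') ∧
      ∀ x, NCut G x → NCut H (f x) := by
  obtain ⟨e, f, h1, h2, h3⟩ := h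
  refine ⟨f, by rw [h2, h3], by rw [h2, h1, h3], fun x hx A hA hne hnu => ?_⟩
  have hmem : ∀ d, d ∈ A.map e.symm.toEmbedding ↔ e d ∈ A := by
    intro d
    simp [Finset.mem_map_equiv]
  obtain ⟨y, hy, ⟨d, hd, hdy⟩, d', hd', hd'y⟩ := hx (A.map e.symm.toEmbedding) (by
    intro d
    rw [hmem, hmem, h1]
    exact hA _) (hne.map) (by
    intro h
    apply hnu
    rw [Finset.eq_univ_iff_forall] at h ⊢
    intro d
    have := h (e.symm d)
    rwa [hmem, e.apply_symm_apply] at this)
  rw [hmem] at hd hd'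
  refine ⟨f y, fun h => hy (f.injective h), ⟨e d, hd, ?_⟩, e d', hd', ?_⟩
  · rw [← h2, hdy]
  · rw [← h2, hd'y]

theorem exists_toRG_arc {H : RG} {r : H.D} (h : H.IsArc r) :
    ∃ (G : SimpleGraph (Fin H.size)) (v w : Fin H.size) (ha : G.Adj v w), G.Connected ∧
      IsPlanar G ∧ NonCut G v ∧ NonCut G w ∧ AIso H (toRG G v) r ⟨(v, w), ha⟩ := by
  obtain ⟨G, v, hc, hp, e, f, h1, h2, h3⟩ := exists_toRG h.good
  have hdv : (e r : G.Dart).fst = v := by
    have e1 : f (H.inc r) = (e r : G.Dart).fst := h2 r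
    rw [← e1, h.root]
    exact h3
  have hadj : G.Adj v (e r : G.Dart).snd := by
    rw [← hdv]
    exact SimpleGraph.Dart.adj _
  have her : e r = (⟨(v, (e r : G.Dart).snd), hadj⟩ : G.Dart) :=
    SimpleGraph.Dart.ext _ _ (Prod.ext hdv rfl)
  have hiso : AIso H (toRG G v) r (⟨(v, (e r : G.Dart).snd), hadj⟩ : G.Dart) :=
    ⟨e, f, h1, h2, her⟩
  obtain ⟨g, g1, g2, g3⟩ := ToArc_ncut hiso
  refine ⟨G, v, (e r : G.Dart).snd, hadj, hc, hp, ?_, ?_, hiso⟩
  · rw [nonCut_iff hc hadj v v]
    have h4 := g3 _ h.nc0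
    rw [← h.root, g1] at h4
    exact h4
  · rw [nonCut_iff hc hadj _ v]
    have h4 := g3 _ h.nc1
    rw [g2] at h4
    exact h4

end PGr

end

section
/-! # Module ArcDec: the network of an arc -/

set_option linter.unusedSectionVars false

namespace PGr
open Equiv Finset
open scoped Classical

/-- `Hook.iso` with the image of the root dart; copy its proof (`Pool/Agent/PGr/BlockIso.lean`) -/
theorem Hook.aiso {G : RG} {r : G.D} (hG : G.IsGood) (X : Hook G r) (hr : G.inc r = G.v0)
    (hroot : ∀ d, X.hook d ≠ some G.v0) (lab : X.BV → RC)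
    (hlab : ∀ z : X.BV, z.1 ≠ G.v0 → RIso (X.rg z.1) (lab z).rep.1) :
    AIso G (expand (X.net hG.inv lab)) r (Sum.inl (Sum.inr true)) := by
  classical
  apply AIso.symm
  set N := X.net hG.inv lab
  have hpt : (N.pole true).1 = G.v0 := hr
  have hv0 : ∀ v : {v : N.V // v ≠ N.pole true}, v.1.1 ≠ G.v0 := by
    rintro ⟨v, hv⟩ h
    exact hv (Subtype.ext (h.trans hpt.symm))
  have hiso : ∀ v : {v : N.V // v ≠ N.pole true}, RIso (N.lab v.1).rep.1 (X.rg v.1.1) :=
    fun v => (hlab v.1 (hv0 v)).symm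
  choose ev fv h1 h2 h3 using hiso
  let g : (expand N).D → G.D := fun x =>
    match x with
    | Sum.inl (Sum.inl d) => d.1
    | Sum.inl (Sum.inr b) => bif b then r else G.a r
    | Sum.inr p => (ev p.1 p.2).1
  let k : (expand N).V → G.V := fun x =>
    match x with
    | none => G.v0
    | some p => (fv p.1 p.2).1
  have hgnone : ∀ t, X.hook (g (Sum.inl t)) = none := by
    rintro (d | b)
    · exact d.2.1
    · cases b
      · show X.hook (G.a r) = none
        rw [X.hh, X.root]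
      · exact X.root
  have hgsome : ∀ p, X.hook (g (Sum.inr p)) = some p.1.1.1 := fun p => (ev p.1 p.2).2
  have hg : Function.Bijective g := by
    constructor
    · rintro (t | p) (t' | p') h
      · congr 1
        rcases t with d | b <;> rcases t' with d' | b'
        · exact congrArg Sum.inl (Subtype.ext h)
        · exfalso
          cases b'
          · exact d.2.2.2 h
          · exact d.2.2.1 h
        · exfalso
          cases b
          · exact d'.2.2.2 h.symm
          · exact d'.2.2.1 h.symm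
        · cases b <;> cases b'
          · rfl
          · exact absurd h (hG.fpf r)
          · exact absurd h.symm (hG.fpf r)
          · rfl
      · have e1 := hgnone t
        rw [h, hgsome p'] at e1
        simp at e1
      · have e1 := hgnone t'
        rw [← h, hgsome p] at e1
        simp at e1
      · obtain ⟨v, d⟩ := p
        obtain ⟨v', d'⟩ := p'
        have e1 := hgsome ⟨v, d⟩
        rw [h, hgsome ⟨v', d'⟩] at e1
        have e2 : v' = v := Subtype.ext (Subtype.ext (Option.some.inj e1))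
        subst e2
        have e3 : ev v' d = ev v' d' := Subtype.ext h
        rw [(ev v').injective e3]
    · intro d
      rcases hd : X.hook d with _ | c
      · by_cases hdr : d = r
        · exact ⟨Sum.inl (Sum.inr true), hdr.symm⟩
        · by_cases hdr' : d = G.a r
          · exact ⟨Sum.inl (Sum.inr false), hdr'.symm⟩
          · exact ⟨Sum.inl (Sum.inl ⟨d, hd, hdr, hdr'⟩), rfl⟩
      · have hc0 : c ≠ G.v0 := by
          rintro rfl
          exact hroot d hd
        obtain ⟨d', hd', hd'c⟩ := X.ex2 d c hd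
        let v : {v : N.V // v ≠ N.pole true} := ⟨⟨c, d', hd', hd'c⟩, fun h =>
          hc0 ((congrArg Subtype.val h).trans hpt)⟩
        exact ⟨Sum.inr ⟨v, (ev v).symm ⟨d, hd⟩⟩,
          congrArg Subtype.val (Equiv.apply_symm_apply (ev v) ⟨d, hd⟩)⟩
  have hk : Function.Bijective k := by
    have hne : ∀ p : (Σ v : {v : N.V // v ≠ N.pole true}, (N.lab v.1).rep.1.V),
        (fv p.1 p.2).1 ≠ G.v0 := by
      intro p hp
      have e1 := (fv p.1 p.2).2
      have e2 := BlockIso.eq_c X e1 (d0 := r) (by rw [X.root]; simp) (hr.trans hp.symm)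
      exact hv0 p.1 (e2.symm.trans hp)
    constructor
    · rintro (_ | p) (_ | p') h
      · rfl
      · exact absurd h.symm (hne p')
      · exact absurd h (hne p)
      · obtain ⟨v, z⟩ := p
        obtain ⟨v', z'⟩ := p'
        have e1 := (fv v z).2
        have e2 := (fv v' z').2
        have h' : (fv v z).1 = (fv v' z').1 := h
        rw [← h'] at e2
        have e3 : v = v' := Subtype.ext (Subtype.ext (BlockIso.same X v.1.2 v'.1.2 e1 e2))
        subst e3
        have e4 : fv v z = fv v z' := Subtype.ext h'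
        rw [(fv v).injective e4]
    · intro x
      by_cases hx : x = G.v0
      · exact ⟨none, hx.symm⟩
      · have key : ∀ (c : G.V) (hc : ∃ d, X.hook d = none ∧ G.inc d = c) (hc0 : c ≠ G.v0)
            (hxc : x = c ∨ ∃ d, X.hook d = some c ∧ G.inc d = x), ∃ y, k y = x := by
          intro c hc hc0 hxc
          let v : {v : N.V // v ≠ N.pole true} := ⟨⟨c, hc⟩, fun h =>
            hc0 ((congrArg Subtype.val h).trans hpt)⟩
          exact ⟨some ⟨v, (fv v).symm ⟨x, hxc⟩⟩,
            congrArg Subtype.val (Equiv.apply_symm_apply (fv v) ⟨x, hxc⟩)⟩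
        obtain ⟨d, hd⟩ := BlockIso.exists_dart hG hx
        rcases hh : X.hook d with _ | c
        · exact key x ⟨d, hh, hd⟩ hx (Or.inl rfl)
        · exact key c (X.ex2 d c hh) (by rintro rfl; exact hroot d hh) (Or.inr ⟨d, hh, hd⟩)
  have hkey : ∀ t : N.T, (N.inc t).1 = G.inc (g (Sum.inl t)) := by
    rintro (d | b)
    · rfl
    · cases b <;> rfl
  refine ⟨Equiv.ofBijective g hg, Equiv.ofBijective k hk, ?_, ?_, rfl⟩
  · rintro ((d | b) | p)
    · rfl
    · cases b
      · show r = G.a (G.a r)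
        rw [hG.inv]
      · rfl
    · show (ev p.1 ((N.lab p.1.1).rep.1.a p.2)).1 = G.a (ev p.1 p.2).1
      rw [h1]
      rfl
  · rintro (t | p)
    · show k ((expand N).inc (Sum.inl t)) = G.inc (g (Sum.inl t))
      rw [← hkey]
      by_cases ht : N.inc t = N.pole true
      · have e1 : (expand N).inc (Sum.inl t) = none := by
          show (if h : N.inc t = N.pole true then none else _) = none
          rw [dif_pos ht]
        rw [e1, ht]
        exact hpt.symm
      · have e1 : (expand N).inc (Sum.inl t) =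
            some ⟨⟨N.inc t, ht⟩, (N.lab (N.inc t)).rep.1.v0⟩ := by
          show (if h : N.inc t = N.pole true then none else _) = _
          rw [dif_neg ht]
        rw [e1]
        show (fv ⟨N.inc t, ht⟩ (N.lab (N.inc t)).rep.1.v0).1 = (N.inc t).1
        rw [h3]
        rfl
    · show (fv p.1 ((N.lab p.1.1).rep.1.inc p.2)).1 = G.inc (ev p.1 p.2).1
      rw [h2]
      rfl

/-- nothing is hooked at the other end of the arc -/
theorem ArcDec_not {G : RG} {r : G.D} (h : G.IsArc r) (X : Hook G r) (d : G.D) :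
    X.hook d ≠ some (G.inc (G.a r)) := by
  intro hd
  obtain ⟨x, hx, ⟨t, ht, htx⟩, t', ht', htx'⟩ := h.nc1
    (univ.filter fun d => X.hook d = some (G.inc (G.a r)))
    (fun d => by simp only [mem_filter, mem_univ, true_and, X.hh])
    ⟨d, by simpa using hd⟩
    (fun hu => by
      have : r ∈ (univ.filter fun d => X.hook d = some (G.inc (G.a r))) := by
        rw [hu]; exact mem_univ _
      rw [mem_filter, X.root] at this
      simp at this)
  simp only [mem_filter, mem_univ, true_and] at ht ht'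
  exact hx (htx.symm.trans (X.share t t' _ ht ht' (htx.trans htx'.symm)))

theorem ArcDec_size {G : RG} {r : G.D} (h : G.IsArc r) (X : Hook G r) :
    (X.rg (G.inc (G.a r))).size = 1 := by
  unfold RG.size
  rw [Fintype.card_eq_one_iff]
  refine ⟨⟨G.inc (G.a r), Or.inl rfl⟩, ?_⟩
  rintro ⟨z, hz | ⟨d, hd, -⟩⟩
  · exact Subtype.ext hz
  · exact absurd hd (ArcDec_not h X d)

/-- as `piece_dec`; nothing is hooked at the other end `w` of the arc (the edges hooked at `w` would share only
`w` with the others, contradiction with `nc1`), so the label at `w` is the one-vertex graph -/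
theorem arc_dec {G : RG} {r : G.D} (h : G.IsArc r) :
    ∃ N : LNet RC, AIso G (expand N) r (Sum.inl (Sum.inr true)) ∧
      (N.lab (N.pole false)).rep.1.size = 1 ∧
      ((N.IsGood ∧ ¬ Direct N) ∨ NIso N (emptyNet (N.lab (N.pole false))) ∧
        N.pole true ≠ N.pole false) := by
  have hG := h.good
  have hP : Piece G := ⟨⟨r⟩, h.nc0⟩
  have hr := h.root
  obtain ⟨X⟩ := exists_hook hG.inv r (fun A hA hA' hA'' => by
    obtain ⟨x, -, hx⟩ := h.nc0 A hA hA' hA''; exact ⟨x, hx⟩)
  let lab : X.BV → RC := fun z => Quotient.mk rSetoid ⟨X.rg z.1, X.rg_good hG hr z.1⟩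
  have hlab : ∀ z : X.BV, RIso (X.rg z.1) (lab z).rep.1 := fun z =>
    RIso.symm (Quotient.exact (Quotient.out_eq (lab z)))
  refine ⟨X.net hG.inv lab, X.aiso hG hr (X.not_root hG hP hr) lab (fun z _ => hlab z), ?_, ?_⟩
  · exact (RIso.size_eq (hlab _)).symm.trans (ArcDec_size h X)
  · rcases isEmpty_or_nonempty {d : G.D // X.hook d = none ∧ d ≠ r ∧ d ≠ G.a r} with h | h
    · exact Or.inr ⟨X.net_empty hG lab h _, X.net_pole_ne hG lab⟩
    · exact Or.inl (X.net_good hG lab h)

end PGr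

end

section
/-! # Module RCount: counting rooted graphs -/

set_option linter.unusedSectionVars false

namespace PGr
open Equiv Finset
open scoped ENNReal Classical

theorem RCount_size (G : GR) : (RC.rep (Quotient.mk rSetoid G)).1.size = G.1.size := by
  have h2 : RIso (Quotient.out (Quotient.mk rSetoid G)).1 G.1 :=
    Quotient.exact (s := rSetoid) (Quotient.out_eq _)
  exact h2.size_eq

theorem RCount_toRG_size {n : ℕ} (G : SimpleGraph (Fin n)) (v : Fin n) : (toRG G v).size = n := by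
  unfold RG.size
  exact Fintype.card_fin n

/-- the class of a rooted graph on `Fin n` -/
noncomputable def RCount_map (n : ℕ) (q : Quotient (rpSetoid n)) : {c : RC // c.rep.1.size = n} :=
  ⟨Quotient.mk rSetoid ⟨toRG q.out.1.1 q.out.1.2, toRG_good q.out.2.1 q.out.2.2 _⟩, by
    rw [RCount_size]
    exact RCount_toRG_size _ _⟩

theorem RCount_inj (n : ℕ) : Function.Injective (RCount_map n) := by
  intro q q' h
  have h1 := congrArg Subtype.val h
  have h2 : RIso (toRG q.out.1.1 q.out.1.2) (toRG q'.out.1.1 q'.out.1.2) := Quotient.exact h1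
  obtain ⟨f, hf⟩ := toRG_iso.mp h2
  have h3 : (rpSetoid n).r q.out q'.out := ⟨f, hf⟩
  have h4 := Quotient.sound (s := rpSetoid n) h3
  rwa [Quotient.out_eq, Quotient.out_eq] at h4

theorem RCount_surj (n : ℕ) : Function.Surjective (RCount_map n) := by
  rintro ⟨c, hc⟩
  subst hc
  obtain ⟨G, v, hG, hp, hiso⟩ := exists_toRG c.rep.2
  refine ⟨Quotient.mk (rpSetoid _) ⟨(G, v), hG, hp⟩, ?_⟩
  apply Subtype.ext
  set q : Quotient (rpSetoid c.rep.1.size) := Quotient.mk (rpSetoid _) ⟨(G, v), hG, hp⟩ with hq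
  have h1 : (rpSetoid _).r q.out ⟨(G, v), hG, hp⟩ :=
    Quotient.exact (s := rpSetoid _) (Quotient.out_eq _)
  obtain ⟨f, hf⟩ := h1
  have h2 : RIso (toRG q.out.1.1 q.out.1.2) (toRG G v) := toRG_iso.mpr ⟨f, hf⟩
  have h3 : RIso (toRG q.out.1.1 q.out.1.2) c.rep.1 := h2.trans hiso.symm
  have h4 : (Quotient.mk rSetoid ⟨toRG q.out.1.1 q.out.1.2, toRG_good q.out.2.1 q.out.2.2 _⟩ : RC) =
      Quotient.mk rSetoid c.rep := Quotient.sound (s := rSetoid) h3
  exact h4.trans (Quotient.out_eq c)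

instance RCount_finRPl (n : ℕ) : Finite (RPl n) := by
  unfold RPl
  infer_instance

theorem rc_finite (n : ℕ) : Finite {c : RC // c.rep.1.size = n} :=
  Finite.of_surjective (RCount_map n) (RCount_surj n)

/-- `toRG_good`, `toRG_iso`, `exists_toRG` -/
theorem rcount_eq (n : ℕ) : rcount n = rr n :=
  (Nat.card_eq_of_bijective (RCount_map n) ⟨RCount_inj n, RCount_surj n⟩).symm

theorem rr_zero : rr 0 = 0 := by
  have : IsEmpty (Quotient (rpSetoid 0)) := by
    refine ⟨fun q => ?_⟩
    exact Fin.elim0 q.out.1.2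
  exact Nat.card_of_isEmpty

theorem RCount_bot_planar (n : ℕ) : IsPlanar (⊥ : SimpleGraph (Fin n)) := by
  have hE : IsEmpty (⊥ : SimpleGraph (Fin n)).Dart := ⟨fun d => d.adj.elim⟩
  refine ⟨1, fun d => (hE.false d).elim, ?_⟩
  have h1 : nCyc (1 : Perm (⊥ : SimpleGraph (Fin n)).Dart) = 0 := by
    unfold nCyc
    have : IsEmpty (Quotient (Perm.SameCycle.setoid (1 : Perm (⊥ : SimpleGraph (Fin n)).Dart))) :=
      ⟨fun q => hE.false q.out⟩
    exact Nat.card_of_isEmpty
  have h2 : nCyc (dsymm (⊥ : SimpleGraph (Fin n)) * 1) = 0 := by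
    unfold nCyc
    have : IsEmpty (Quotient (Perm.SameCycle.setoid
        (dsymm (⊥ : SimpleGraph (Fin n)) * 1))) := ⟨fun q => hE.false q.out⟩
    exact Nat.card_of_isEmpty
  have h3 : Nat.card (⊥ : SimpleGraph (Fin n)).edgeSet = 0 := by
    rw [SimpleGraph.edgeSet_bot]
    simp
  have h4 : IsEmpty {c : (⊥ : SimpleGraph (Fin n)).ConnectedComponent //
      ∃ d : (⊥ : SimpleGraph (Fin n)).Dart,
        (⊥ : SimpleGraph (Fin n)).connectedComponentMk d.fst = c} :=
    ⟨fun c => hE.false c.2.choose⟩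
  rw [h1, h2, h3, Nat.card_of_isEmpty]

theorem RCount_sub : Subsingleton (Quotient (rpSetoid 1)) := by
  refine ⟨fun q q' => ?_⟩
  have h3 : (rpSetoid 1).r q.out q'.out := by
    have h5 : q.out.1.1 = q'.out.1.1 := by
      ext a b
      have hab : a = b := Subsingleton.elim a b
      subst hab
      simp
    refine ⟨⟨Equiv.refl _, ?_⟩, Subsingleton.elim _ _⟩
    intro a b
    have hab : a = b := Subsingleton.elim a b
    subst hab
    simp
  have h4 := Quotient.sound (s := rpSetoid 1) h3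
  rwa [Quotient.out_eq, Quotient.out_eq] at h4

theorem RCount_one : Nonempty (Quotient (rpSetoid 1)) := by
  refine ⟨Quotient.mk (rpSetoid 1) ⟨(⊥, 0), ?_, RCount_bot_planar 1⟩⟩
  have : Nonempty (Fin 1) := ⟨0⟩
  refine ⟨fun a b => ?_⟩
  have hab : a = b := Subsingleton.elim a b
  subst hab
  exact SimpleGraph.Reachable.refl _

theorem rr_one : rr 1 = 1 := by
  have := RCount_sub
  have := RCount_one
  unfold rr
  exact Nat.card_of_subsingleton (Classical.arbitrary _)

/-- the class of the one-vertex graph is the only class of size 1 -/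
theorem rc_one_unique {c c' : RC} (h : c.rep.1.size = 1) (h' : c'.rep.1.size = 1) : c = c' := by
  obtain ⟨q, hq⟩ := RCount_surj 1 ⟨c, h⟩
  obtain ⟨q', hq'⟩ := RCount_surj 1 ⟨c', h'⟩
  have := RCount_sub
  have : q = q' := Subsingleton.elim q q'
  rw [this, hq'] at hq
  exact (congrArg Subtype.val hq).symm

theorem exists_rc_one : ∃ c : RC, c.rep.1.size = 1 := by
  obtain ⟨q⟩ := RCount_one
  exact ⟨(RCount_map 1 q).1, (RCount_map 1 q).2⟩

theorem rr_sum (x : ℝ≥0∞) : ∑' n, (rr n : ℝ≥0∞) * x ^ n = ∑' c : RC, wx x c := by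
  have h1 : ∑' c : RC, wx x c = ∑' p : Σ n : ℕ, {c : RC // c.rep.1.size = n}, x ^ p.1 := by
    rw [← (Equiv.sigmaFiberEquiv (fun c : RC => c.rep.1.size)).tsum_eq (fun c => wx x c)]
    refine tsum_congr fun p => ?_
    obtain ⟨n, c, hc⟩ := p
    subst hc
    rfl
  rw [h1, ENNReal.tsum_sigma (fun (n : ℕ) (_ : {c : RC // c.rep.1.size = n}) => x ^ n)]
  refine tsum_congr fun n => ?_
  rw [← rcount_eq]
  have := rc_finite n
  have := Fintype.ofFinite {c : RC // c.rep.1.size = n}
  rw [tsum_fintype, Finset.sum_const, nsmul_eq_mul, Finset.card_univ, rcount,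
    Nat.card_eq_fintype_card]

end PGr

end

section
/-! # Module Kap: the number of shared vertices is submodular -/

set_option linter.unusedSectionVars false

namespace PGr
open Equiv Finset
open scoped Classical

section
variable {T V : Type*} [Fintype T] [DecidableEq T] [Fintype V] [DecidableEq V] (inc : T → V)

theorem mem_shV {A : Finset T} {x : V} : x ∈ shV inc A ↔ Sh inc A x := by simp [shV]

theorem shV_compl (A : Finset T) : shV inc Aᶜ = shV inc A := by
  ext x
  rw [mem_shV, mem_shV]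
  constructor
  · rintro ⟨⟨t, ht, htx⟩, t', ht', htx'⟩
    rw [Finset.mem_compl] at ht ht'
    exact ⟨⟨t', not_not.1 ht', htx'⟩, t, ht, htx⟩
  · rintro ⟨⟨t, ht, htx⟩, t', ht', htx'⟩
    exact ⟨⟨t', Finset.mem_compl.2 ht', htx'⟩, t, fun h => Finset.mem_compl.1 h ht, htx⟩

/-- check for every vertex how often it is counted on both sides -/
theorem shV_inter_union (A B : Finset T) :
    (shV inc (A ∩ B)).card + (shV inc (A ∪ B)).card ≤ (shV inc A).card + (shV inc B).card := by
  have h1 : shV inc (A ∩ B) ∪ shV inc (A ∪ B) ⊆ shV inc A ∪ shV inc B := by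
    intro x hx
    rw [Finset.mem_union, mem_shV, mem_shV] at hx
    rw [Finset.mem_union, mem_shV, mem_shV]
    rcases hx with ⟨⟨t, ht, htx⟩, t', ht', htx'⟩ | ⟨⟨t, ht, htx⟩, t', ht', htx'⟩
    · rw [Finset.mem_inter] at ht ht'
      by_cases hA : t' ∈ A
      · exact Or.inr ⟨⟨t, ht.2, htx⟩, t', fun hB => ht' ⟨hA, hB⟩, htx'⟩
      · exact Or.inl ⟨⟨t, ht.1, htx⟩, t', hA, htx'⟩
    · rw [Finset.mem_union] at ht ht'
      push Not at ht'
      rcases ht with h | h
      · exact Or.inl ⟨⟨t, h, htx⟩, t', ht'.1, htx'⟩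
      · exact Or.inr ⟨⟨t, h, htx⟩, t', ht'.2, htx'⟩
  have h2 : shV inc (A ∩ B) ∩ shV inc (A ∪ B) ⊆ shV inc A ∩ shV inc B := by
    intro x hx
    rw [Finset.mem_inter, mem_shV, mem_shV] at hx
    rw [Finset.mem_inter, mem_shV, mem_shV]
    obtain ⟨⟨⟨t, ht, htx⟩, -⟩, -, t', ht', htx'⟩ := hx
    rw [Finset.mem_inter] at ht
    rw [Finset.mem_union] at ht'
    push Not at ht'
    exact ⟨⟨⟨t, ht.1, htx⟩, t', ht'.1, htx'⟩, ⟨t, ht.2, htx⟩, t', ht'.2, htx'⟩
  have h3 := Finset.card_le_card h1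
  have h4 := Finset.card_le_card h2
  have h5 := Finset.card_union_add_card_inter (shV inc (A ∩ B)) (shV inc (A ∪ B))
  have h6 := Finset.card_union_add_card_inter (shV inc A) (shV inc B)
  omega

/-- by `shV_compl` and `shV_inter_union` for `A` and `Bᶜ` -/
theorem shV_sdiff (A B : Finset T) :
    (shV inc (A \ B)).card + (shV inc (B \ A)).card ≤ (shV inc A).card + (shV inc B).card := by
  have h := shV_inter_union inc A Bᶜ
  have e1 : A ∩ Bᶜ = A \ B := by
    ext t
    simp
  have e2 : (A ∪ Bᶜ)ᶜ = B \ A := by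
    ext t
    simp [and_comm]
  rw [e1, shV_compl inc B, ← shV_compl inc (A ∪ Bᶜ), e2] at h
  exact h

/-- `two` in terms of `shV` -/
theorem LNet.IsGood.two_le_shV {Λ : Type*} {N : LNet Λ} (h : N.IsGood) {A : Finset N.T}
    (hA : Cl N.aa A) (hne : A.Nonempty) (hu : A ≠ univ) : 2 ≤ (shV N.inc A).card := by
  obtain ⟨x, y, hxy, hx, hy⟩ := h.two A hA hne hu
  exact Finset.one_lt_card.2 ⟨x, (mem_shV N.inc).2 hx, y, (mem_shV N.inc).2 hy, hxy⟩

/-- an isomorphism preserves the number of shared vertices -/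
theorem shV_map {T' V' : Type*} [Fintype T'] [DecidableEq T'] [Fintype V'] [DecidableEq V']
    (inc' : T' → V') (e : T ≃ T') (f : V ≃ V') (h : ∀ t, f (inc t) = inc' (e t)) (A : Finset T) :
    shV inc' (A.map e.toEmbedding) = (shV inc A).map f.toEmbedding := by
  ext y
  rw [mem_shV, Finset.mem_map]
  constructor
  · rintro ⟨⟨t, ht, hty⟩, t', ht', hty'⟩
    rw [Finset.mem_map] at ht
    obtain ⟨u, hu, rfl⟩ := ht
    refine ⟨inc u, (mem_shV inc).2 ⟨⟨u, hu, rfl⟩, e.symm t', ?_, ?_⟩, ?_⟩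
    · intro hmem
      apply ht'
      rw [Finset.mem_map]
      exact ⟨e.symm t', hmem, e.apply_symm_apply t'⟩
    · apply f.injective
      rw [h, e.apply_symm_apply, hty', h]
      exact hty.symm
    · show f (inc u) = y
      rw [h]
      exact hty
  · rintro ⟨x, hx, rfl⟩
    obtain ⟨⟨t, ht, htx⟩, t', ht', htx'⟩ := (mem_shV inc).1 hx
    refine ⟨⟨e t, Finset.mem_map.2 ⟨t, ht, rfl⟩, ?_⟩, e t', ?_, ?_⟩
    · rw [← h, htx]; rfl
    · intro hmem
      rw [Finset.mem_map] at hmem
      obtain ⟨u, hu, hue⟩ := hmem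
      have : u = t' := e.injective hue
      exact ht' (this ▸ hu)
    · rw [← h, htx']; rfl

end

end PGr

end

section
/-! # Module MSPoint: pointed multisets -/

set_option linter.unusedSectionVars false

namespace PGr
open scoped ENNReal Classical

theorem MSPoint_count {ι : Type*} (i : ι) (m : Multiset ι) :
    (m.count i : ℝ≥0∞) = ∑' j : ℕ, if j + 1 ≤ m.count i then (1 : ℝ≥0∞) else 0 := by
  rw [tsum_eq_sum (s := Finset.range (m.count i))]
  · rw [Finset.sum_congr rfl (g := fun _ => (1 : ℝ≥0∞))]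
    · simp
    · intro j hj
      rw [Finset.mem_range] at hj
      rw [if_pos (by omega)]
  · intro j hj
    rw [Finset.mem_range] at hj
    rw [if_neg (by omega)]

theorem MSPoint_sum {ι : Type*} (k : ι → ℕ) (m : Multiset ι) :
    ((m.map k).sum : ℝ≥0∞) = ∑' i, (m.count i : ℝ≥0∞) * (k i : ℝ≥0∞) := by
  rw [tsum_eq_sum (s := m.toFinset)]
  · rw [Finset.sum_multiset_map_count]
    push_cast
    refine Finset.sum_congr rfl (fun i _ => ?_)
    rw [smul_eq_mul]
    push_cast
    rfl
  · intro i hi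
    rw [Multiset.mem_toFinset] at hi
    rw [Multiset.count_eq_zero_of_notMem hi]
    simp

theorem MSPoint_shift {ι : Type*} (f : ι → ℝ≥0∞) (i : ι) (j : ℕ) :
    ∑' m : Multiset ι, (if j + 1 ≤ m.count i then (m.map f).prod else 0) = f i ^ (j + 1) * MS f := by
  have hinj : Function.Injective (fun m' : Multiset ι => Multiset.replicate (j + 1) i + m') := by
    intro a b h
    exact (Multiset.add_right_inj).1 h
  rw [← hinj.tsum_eq]
  · unfold MS
    rw [← ENNReal.tsum_mul_left]
    refine tsum_congr (fun m' => ?_)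
    rw [if_pos (by
      rw [Multiset.count_add, Multiset.count_replicate_self]; omega)]
    rw [Multiset.map_add, Multiset.prod_add, Multiset.map_replicate, Multiset.prod_replicate]
  · intro m hm
    rw [Function.mem_support] at hm
    have h1 : j + 1 ≤ m.count i := by
      by_contra h
      exact hm (if_neg h)
    exact ⟨m - Multiset.replicate (j + 1) i,
      add_tsub_cancel_of_le (Multiset.le_count_iff_replicate_le.1 h1)⟩

/-- Proof: `Σ_m (Σ_i count i m * k i) Π f = Σ_i k i Σ_{j ≥ 1} Σ_{m : count i m ≥ j} Π f`, and the multisets with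
`count i m ≥ j` are `j • {i} + m'`, so the inner sum is `f i ^ j * MS f`; `Σ_{j ≥ 1} f^j = f (1 - f)⁻¹ ≤ f (1 - x0)⁻¹`. -/
theorem MS_pointed {ι : Type*} (f : ι → ℝ≥0∞) (k : ι → ℕ) {x0 : ℝ≥0∞} (hx : x0 < 1)
    (hf : ∀ i, f i ≤ x0) :
    ∑' m : Multiset ι, ((m.map k).sum : ℝ≥0∞) * (m.map f).prod ≤
      MS f * ((1 - x0)⁻¹ * ∑' i, (k i : ℝ≥0∞) * f i) := by
  have h1 : ∀ m : Multiset ι, ((m.map k).sum : ℝ≥0∞) * (m.map f).prod =
      ∑' i, ∑' j : ℕ, (k i : ℝ≥0∞) * (if j + 1 ≤ m.count i then (m.map f).prod else 0) := by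
    intro m
    rw [MSPoint_sum, ← ENNReal.tsum_mul_right]
    refine tsum_congr (fun i => ?_)
    rw [MSPoint_count, ENNReal.tsum_mul_left, mul_comm _ (k i : ℝ≥0∞), mul_assoc,
      ← ENNReal.tsum_mul_right]
    congr 1
    refine tsum_congr (fun j => ?_)
    split_ifs <;> simp
  calc ∑' m : Multiset ι, ((m.map k).sum : ℝ≥0∞) * (m.map f).prod
      = ∑' i, ∑' j : ℕ, ∑' m : Multiset ι,
          (k i : ℝ≥0∞) * (if j + 1 ≤ m.count i then (m.map f).prod else 0) := by
        simp_rw [h1]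
        rw [ENNReal.tsum_comm]
        refine tsum_congr (fun i => ?_)
        rw [ENNReal.tsum_comm]
    _ = ∑' i, (k i : ℝ≥0∞) * (f i * (1 - f i)⁻¹ * MS f) := by
        refine tsum_congr (fun i => ?_)
        simp_rw [ENNReal.tsum_mul_left, MSPoint_shift]
        congr 1
        simp_rw [pow_succ']
        rw [ENNReal.tsum_mul_right, ENNReal.tsum_mul_left, ENNReal.tsum_geometric]
    _ ≤ ∑' i, MS f * ((1 - x0)⁻¹ * ((k i : ℝ≥0∞) * f i)) := by
        refine ENNReal.tsum_le_tsum (fun i => ?_)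
        have h2 : (1 - f i)⁻¹ ≤ (1 - x0)⁻¹ := ENNReal.inv_le_inv.2 (tsub_le_tsub_left (hf i) 1)
        calc (k i : ℝ≥0∞) * (f i * (1 - f i)⁻¹ * MS f)
            ≤ (k i : ℝ≥0∞) * (f i * (1 - x0)⁻¹ * MS f) := by gcongr
          _ = MS f * ((1 - x0)⁻¹ * ((k i : ℝ≥0∞) * f i)) := by ring
    _ = MS f * ((1 - x0)⁻¹ * ∑' i, (k i : ℝ≥0∞) * f i) := by
        rw [ENNReal.tsum_mul_left, ENNReal.tsum_mul_left]
end PGr

end

section
/-! # Module WedgeUq: the decomposition of a rooted graph in pieces is unique -/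

set_option linter.unusedSectionVars false

namespace PGr
open Equiv Finset
open scoped ENNReal Classical

section
variable {J J' : Type} [Fintype J] [DecidableEq J] [Fintype J'] [DecidableEq J']
  {X : J → RG} {X' : J' → RG}

/-- the vertex of the wedge that comes from a vertex of `X j` -/
noncomputable def WedgeUq_vtx (X : J → RG) (j : J) (x : (X j).V) : (wedge X).V :=
  if h : x = (X j).v0 then none else some ⟨j, ⟨x, h⟩⟩

theorem WedgeUq_vtx_root (X : J → RG) (j : J) : WedgeUq_vtx X j (X j).v0 = none := dif_pos rfl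

theorem WedgeUq_vtx_of (X : J → RG) (j : J) {x : (X j).V} (h : x ≠ (X j).v0) :
    WedgeUq_vtx X j x = some ⟨j, ⟨x, h⟩⟩ := dif_neg h

theorem WedgeUq_inc (X : J → RG) (j : J) (d : (X j).D) :
    (wedge X).inc ⟨j, d⟩ = WedgeUq_vtx X j ((X j).inc d) := by
  by_cases h : (X j).inc d = (X j).v0
  · rw [Wedge.inc_none X j d h, h, WedgeUq_vtx_root]
  · rw [Wedge.inc_some X j d h, WedgeUq_vtx_of X j h]

theorem WedgeUq_inj (X : J → RG) (j : J) {x y : (X j).V}
    (h : WedgeUq_vtx X j x = WedgeUq_vtx X j y) : x = y := by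
  by_cases hx : x = (X j).v0
  · by_cases hy : y = (X j).v0
    · rw [hx, hy]
    · rw [hx, WedgeUq_vtx_root, WedgeUq_vtx_of X j hy] at h
      cases h
  · by_cases hy : y = (X j).v0
    · rw [hy, WedgeUq_vtx_root, WedgeUq_vtx_of X j hx] at h
      cases h
    · rw [WedgeUq_vtx_of X j hx, WedgeUq_vtx_of X j hy] at h
      obtain ⟨-, h2⟩ := Sigma.mk.inj_iff.1 (Option.some.inj h)
      exact congrArg Subtype.val (eq_of_heq h2)

/-- two darts at the same vertex which is not the root belong to the same graph -/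
theorem WedgeUq_fst {X : J → RG} {t t' : (wedge X).D} (h : (wedge X).inc t = (wedge X).inc t')
    (h0 : (wedge X).inc t ≠ none) : t.1 = t'.1 := by
  obtain ⟨j, d⟩ := t
  obtain ⟨j', d'⟩ := t'
  by_cases hd : (X j).inc d = (X j).v0
  · exact absurd (Wedge.inc_none X j d hd) h0
  · by_cases hd' : (X j').inc d' = (X j').v0
    · rw [Wedge.inc_none X j' d' hd'] at h
      exact absurd h h0
    · rw [Wedge.inc_some X j d hd, Wedge.inc_some X j' d' hd'] at h
      exact (Sigma.mk.inj_iff.1 (Option.some.inj h)).1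

/-- `(e, f)` is an isomorphism of the wedges -/
structure WedgeUq_Iso (X : J → RG) (X' : J' → RG) (e : (wedge X).D ≃ (wedge X').D)
    (f : (wedge X).V ≃ (wedge X').V) : Prop where
  a : ∀ d, e ((wedge X).a d) = (wedge X').a (e d)
  inc : ∀ d, f ((wedge X).inc d) = (wedge X').inc (e d)
  v0 : f none = none

theorem WedgeUq_Iso.symm {e : (wedge X).D ≃ (wedge X').D}
    {f : (wedge X).V ≃ (wedge X').V} (h : WedgeUq_Iso X X' e f) :
    WedgeUq_Iso X' X e.symm f.symm := by
  refine ⟨fun d => ?_, fun d => ?_, ?_⟩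
  · rw [Equiv.symm_apply_eq, h.a, Equiv.apply_symm_apply]
  · rw [Equiv.symm_apply_eq, h.inc, Equiv.apply_symm_apply]
  · exact (Equiv.symm_apply_eq f).2 h.v0.symm

/-- the darts of a piece are mapped into one piece -/
theorem WedgeUq_part {e : (wedge X).D ≃ (wedge X').D} {f : (wedge X).V ≃ (wedge X').V}
    (h : WedgeUq_Iso X X' e f) (hX : ∀ j, Piece (X j)) (j : J) (d d' : (X j).D) :
    (e ⟨j, d⟩).1 = (e ⟨j, d'⟩).1 := by
  obtain ⟨A, hA⟩ : ∃ A : Finset (X j).D, ∀ t, t ∈ A ↔ (e ⟨j, t⟩).1 = (e ⟨j, d⟩).1 :=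
    ⟨univ.filter fun t => (e ⟨j, t⟩).1 = (e ⟨j, d⟩).1, by simp⟩
  have hst : ∀ t : (X j).D, (e ⟨j, (X j).a t⟩).1 = (e ⟨j, t⟩).1 := by
    intro t
    have h1 := h.a ⟨j, t⟩
    have h2 : e ⟨j, (X j).a t⟩ = (wedge X').a (e ⟨j, t⟩) := h1
    rw [h2]
    rfl
  have hcl : Cl (X j).a A := by
    intro t
    rw [hA, hA, hst]
  by_cases hu : A = univ
  · have h1 : d' ∈ A := by rw [hu]; exact mem_univ _
    exact ((hA d').1 h1).symm
  · exfalso
    obtain ⟨x, hx, ⟨t, ht, htx⟩, ⟨t', ht', htx'⟩⟩ := (hX j).2 A hcl ⟨d, (hA d).2 rfl⟩ hu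
    apply ht'
    rw [hA] at ht ⊢
    rw [← ht]
    symm
    have h1 : (wedge X).inc ⟨j, t⟩ = some ⟨j, ⟨x, hx⟩⟩ := by
      rw [WedgeUq_inc, htx, WedgeUq_vtx_of X j hx]
    have h2 : (wedge X).inc ⟨j, t'⟩ = some ⟨j, ⟨x, hx⟩⟩ := by
      rw [WedgeUq_inc, htx', WedgeUq_vtx_of X j hx]
    refine WedgeUq_fst ?_ ?_
    · exact (h.inc _).symm.trans ((congrArg f (h1.trans h2.symm)).trans (h.inc _))
    · intro h3
      have h4 := f.injective (((h.inc _).trans h3).trans h.v0.symm)
      rw [h1] at h4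
      cases h4

theorem WedgeUq_vtx_exists {e : (wedge X).D ≃ (wedge X').D} {f : (wedge X).V ≃ (wedge X').V}
    (h : WedgeUq_Iso X X' e f) {j : J} {j' : J'} (hG : (X j).IsGood)
    (h1 : ∀ d : (X j).D, ∃ d' : (X' j').D, e ⟨j, d⟩ = (⟨j', d'⟩ : (wedge X').D))
    (x : (X j).V) : ∃ x', f (WedgeUq_vtx X j x) = WedgeUq_vtx X' j' x' := by
  by_cases hx : x = (X j).v0
  · refine ⟨(X' j').v0, ?_⟩
    rw [hx, WedgeUq_vtx_root, WedgeUq_vtx_root]
    exact h.v0
  · obtain ⟨d, rfl⟩ := Wedge.exists_dart hG hx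
    obtain ⟨d', hd'⟩ := h1 d
    refine ⟨(X' j').inc d', ?_⟩
    rw [← WedgeUq_inc, ← WedgeUq_inc]
    exact (h.inc _).trans (congrArg _ hd')

theorem WedgeUq_riso {e : (wedge X).D ≃ (wedge X').D} {f : (wedge X).V ≃ (wedge X').V}
    (h : WedgeUq_Iso X X' e f) {j : J} {j' : J'} (hG : (X j).IsGood) (hG' : (X' j').IsGood)
    (h1 : ∀ d : (X j).D, ∃ d' : (X' j').D, e ⟨j, d⟩ = (⟨j', d'⟩ : (wedge X').D))
    (h2 : ∀ d' : (X' j').D, ∃ d : (X j).D, e.symm ⟨j', d'⟩ = (⟨j, d⟩ : (wedge X).D)) :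
    RIso (X j) (X' j') := by
  have h3 := WedgeUq_vtx_exists h hG h1
  have h4 := WedgeUq_vtx_exists h.symm hG' h2
  choose ev hev using h1
  choose fv hfv using h3
  have heb : Function.Bijective ev := by
    constructor
    · intro z z' hz
      have h5 : e ⟨j, z⟩ = e ⟨j, z'⟩ := by rw [hev, hev, hz]
      obtain ⟨-, h6⟩ := Sigma.mk.inj_iff.1 (e.injective h5)
      exact eq_of_heq h6
    · intro z'
      obtain ⟨z, hz⟩ := h2 z'
      refine ⟨z, ?_⟩
      have h5 := ((Equiv.symm_apply_eq e).1 hz).trans (hev z)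
      obtain ⟨-, h6⟩ := Sigma.mk.inj_iff.1 h5
      exact (eq_of_heq h6).symm
  have hfb : Function.Bijective fv := by
    constructor
    · intro z z' hz
      have h5 : f (WedgeUq_vtx X j z) = f (WedgeUq_vtx X j z') := by rw [hfv, hfv, hz]
      exact WedgeUq_inj X j (f.injective h5)
    · intro z'
      obtain ⟨z, hz⟩ := h4 z'
      refine ⟨z, ?_⟩
      have h5 := ((Equiv.symm_apply_eq f).1 hz).trans (hfv z)
      exact (WedgeUq_inj X' j' h5).symm
  refine ⟨Equiv.ofBijective ev heb, Equiv.ofBijective fv hfb, fun d => ?_, fun d => ?_, ?_⟩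
  · show ev _ = (X' j').a (ev d)
    have h5 : e ⟨j, (X j).a d⟩ = (wedge X').a (e ⟨j, d⟩) := h.a ⟨j, d⟩
    rw [hev, hev] at h5
    obtain ⟨-, h6⟩ := Sigma.mk.inj_iff.1 h5
    exact eq_of_heq h6
  · show fv _ = (X' j').inc (ev d)
    have h5 := h.inc ⟨j, d⟩
    rw [hev, WedgeUq_inc, WedgeUq_inc, hfv] at h5
    exact WedgeUq_inj X' j' h5
  · show fv _ = (X' j').v0
    have h5 := hfv (X j).v0
    rw [WedgeUq_vtx_root] at h5
    have h6 : WedgeUq_vtx X' j' (X' j').v0 = none := WedgeUq_vtx_root X' j'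
    exact WedgeUq_inj X' j' (h5.symm.trans (h.v0.trans h6.symm))

theorem WedgeUq_sigma {X : J → RG} {t : (wedge X).D} {j : J} (h : t.1 = j) :
    ∃ d : (X j).D, t = (⟨j, d⟩ : (wedge X).D) := by
  subst h
  exact ⟨t.2, rfl⟩

end

/-- Let `(e, f)` be the isomorphism.  The darts of `X j` are mapped into one `X' j'`: otherwise the set of the darts `d` of `X j`
with `e d` in a given `X' j'` is closed, nonempty and not everything, so by `Piece` it shares a vertex `x ≠ v0` of `X j` with the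
other darts of `X j`, but all darts at `f x` belong to the same `X' j''`.  By symmetry `e` maps the darts of `X j` onto those of `X' j'`;
this is the bijection; every vertex of a good piece different from the root is on a dart. -/
theorem wedge_inj {J J' : Type} [Fintype J] [DecidableEq J] [Fintype J'] [DecidableEq J']
    (X : J → RG) (X' : J' → RG) (hX : ∀ j, (X j).IsGood ∧ Piece (X j))
    (hX' : ∀ j, (X' j).IsGood ∧ Piece (X' j)) (h : RIso (wedge X) (wedge X')) :
    ∃ π : J ≃ J', ∀ j, RIso (X j) (X' (π j)) := by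
  obtain ⟨e, f, h1, h2, h3⟩ := h
  have hi : WedgeUq_Iso X X' e f := ⟨h1, h2, h3⟩
  have hn : ∀ j, Nonempty (X j).D := fun j => (hX j).2.1
  have hn' : ∀ j, Nonempty (X' j).D := fun j => (hX' j).2.1
  choose t ht using fun j => (⟨(hn j).some, rfl⟩ : ∃ d : (X j).D, d = (hn j).some)
  choose t' ht' using fun j => (⟨(hn' j).some, rfl⟩ : ∃ d : (X' j).D, d = (hn' j).some)
  let g : J → J' := fun j => (e ⟨j, t j⟩).1
  let g' : J' → J := fun j => (e.symm ⟨j, t' j⟩).1
  have hp := WedgeUq_part hi fun j => (hX j).2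
  have hp' := WedgeUq_part hi.symm fun j => (hX' j).2
  have hg : ∀ j, g' (g j) = j := by
    intro j
    have h4 := hp' (g j) (t' (g j)) (e ⟨j, t j⟩).2
    have h5 : e.symm (⟨g j, (e ⟨j, t j⟩).2⟩ : (wedge X').D) = ⟨j, t j⟩ :=
      e.symm_apply_apply ⟨j, t j⟩
    rw [h5] at h4
    exact h4
  have hg' : ∀ j, g (g' j) = j := by
    intro j
    have h4 := hp (g' j) (t (g' j)) (e.symm ⟨j, t' j⟩).2
    have h5 : e (⟨g' j, (e.symm ⟨j, t' j⟩).2⟩ : (wedge X).D) = ⟨j, t' j⟩ :=
      e.apply_symm_apply ⟨j, t' j⟩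
    rw [h5] at h4
    exact h4
  refine ⟨⟨g, g', hg, hg'⟩, fun j => ?_⟩
  refine WedgeUq_riso hi (hX j).1 (hX' _).1 (fun d => ?_) (fun d' => ?_)
  · exact WedgeUq_sigma (hp j d (t j))
  · refine WedgeUq_sigma ((hp' (g j) d' (t' (g j))).trans ?_)
    exact hg j

end PGr

end
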