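import Pool.Agent.PGc.Four
import Pool.Agent.PGr.Cut
import Pool.Agent.PGr.NoPinch

section
/-! # Module Ends: the two ends of a set of edges of cut 4 -/

set_option linter.unusedSectionVars false

namespace PGr
open Equiv Finset

section
variable {T : Type*} [Fintype T] [DecidableEq T] {a s : Perm T} {A B : Finset T}

/-- walk along the cycle of `s` from an element of `A` to an element outside `A` -/
theorem exists_exit {t : T} (ht : ShC s A t) : ∃ z, s.SameCycle t z ∧ z ∈ A ∧ s z ∉ A := by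
  obtain ⟨⟨x, hx, hx'⟩, y, hy, hy'⟩ := ht
  obtain ⟨k, hk, hk'⟩ := SubMap.exit s hx hy (hx'.symm.trans hy')
  exact ⟨(s ^ k) x, hx'.trans ⟨k, by simp⟩, hk k le_rfl, hk'⟩

private theorem Ends_shC_compl {t : T} (ht : ShC s A t) : ShC s Aᶜ t := by
  obtain ⟨⟨x, hx, hx'⟩, y, hy, hy'⟩ := ht
  exact ⟨⟨y, mem_compl.mpr hy, hy'⟩, x, fun h => mem_compl.mp h hx, hx'⟩

theorem exists_entry {t : T} (ht : ShC s A t) : ∃ z, s.SameCycle t z ∧ z ∉ A ∧ s z ∈ A := by
  obtain ⟨z, h1, h2, h3⟩ := exists_exit (Ends_shC_compl ht)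
  exact ⟨z, h1, mem_compl.mp h2, by simpa using h3⟩

/-- There are exactly two exits (`cut_eq_two_mul`), and the two different shared vertices (`Good.two_shared`)
contain one each. -/
theorem Good.exit_unique (h : Good a s) (hA : Cl a A) (h4 : cut s A = 4) {t t' : T} (ht : t ∈ A)
    (ht' : s t ∉ A) (hu : t' ∈ A) (hu' : s t' ∉ A) (hs : s.SameCycle t t') : t = t' := by
  by_contra hne
  exact h.last_ne hA h4 ht hu ht' hu' hne hs

/-- the same for the complement -/
theorem Good.entry_unique (h : Good a s) (hA : Cl a A) (h4 : cut s A = 4) {t t' : T} (ht : t ∉ A)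
    (ht' : s t ∈ A) (hu : t' ∉ A) (hu' : s t' ∈ A) (hs : s.SameCycle t t') : t = t' := by
  refine h.exit_unique hA.compl (by rw [cut_compl]; exact h4) (mem_compl.mpr ht) ?_
    (mem_compl.mpr hu) ?_ hs
  · exact fun h' => mem_compl.mp h' ht'
  · exact fun h' => mem_compl.mp h' hu'

/-- three shared vertices are not pairwise different -/
private theorem Ends_two (h4 : cut s A = 4) {x y z : T}
    (hx : ShC s A x) (hy : ShC s A y) (hz : ShC s A z) (hxy : ¬ s.SameCycle x y)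
    (hxz : ¬ s.SameCycle x z) : s.SameCycle y z := by
  obtain ⟨u, hu, hu1, hu2⟩ := exists_exit hx
  obtain ⟨v, hv, hv1, hv2⟩ := exists_exit hy
  obtain ⟨w, hw, hw1, hw2⟩ := exists_exit hz
  have hne : u ≠ v := by
    rintro rfl
    exact hxy (hu.trans hv.symm)
  rcases SubMap.last_eq h4 hu1 hv1 hu2 hv2 hne hw1 hw2 with e | e
  · subst e
    exact absurd (hu.trans hw.symm) hxz
  · subst e
    exact hv.trans hw.symm

/-- There are exactly two shared vertices: `Good.two_shared` gives two, a third one would contain a third exit. -/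
theorem Good.ends (h : Good a s) (hA : Cl a A) (h4 : cut s A = 4) {r : T} (hr : ShC s A r) :
    ∃ x, ShC s A x ∧ ¬ s.SameCycle r x ∧ ∀ t, ShC s A t → s.SameCycle r t ∨ s.SameCycle x t := by
  have hne : A.Nonempty := by
    obtain ⟨⟨x, hx, -⟩, -⟩ := hr
    exact ⟨x, hx⟩
  have hu : A ≠ univ := by
    rintro rfl
    obtain ⟨-, x, hx, -⟩ := hr
    exact hx (mem_univ _)
  obtain ⟨t, t', ht, ht', htt⟩ := h.two_shared hA hne hu
  obtain ⟨x, hx, hrx⟩ : ∃ x, ShC s A x ∧ ¬ s.SameCycle r x := by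
    by_cases h1 : s.SameCycle r t
    · exact ⟨t', ht', fun h2 => htt (h1.symm.trans h2)⟩
    · exact ⟨t, ht, h1⟩
  refine ⟨x, hx, hrx, fun u hu' => ?_⟩
  by_cases h2 : s.SameCycle r u
  · exact Or.inl h2
  · exact Or.inr (Ends_two h4 hr hx hu' hrx h2)

/-- three shared vertices are not pairwise different -/
theorem Good.ends_two (h : Good a s) (hA : Cl a A) (h4 : cut s A = 4) {x y z : T}
    (hx : ShC s A x) (hy : ShC s A y) (hz : ShC s A z) (hxy : ¬ s.SameCycle x y)
    (hxz : ¬ s.SameCycle x z) : s.SameCycle y z := Ends_two h4 hx hy hz hxy hxz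

/-- count the boundary corners -/
theorem cut_union_disj (hd : Disjoint A B) :
    cut s (A ∪ B) + (univ.filter fun t => (t ∈ A ∧ s t ∈ B) ∨ (t ∈ B ∧ s t ∈ A)).card * 2 =
      cut s A + cut s B := by
  have hd' : ∀ x, x ∈ A → x ∉ B := fun x hx hx' => Finset.disjoint_left.mp hd hx hx'
  simp only [cut_eq_sum_CutAux, card_filter, sum_mul, ← sum_add_distrib]
  refine sum_congr rfl fun t _ => ?_
  have e1 := hd' t
  have e2 := hd' (s t)
  simp only [mem_union]
  by_cases h1 : t ∈ A <;> by_cases h2 : t ∈ B <;> by_cases h3 : s t ∈ A <;>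
    by_cases h4 : s t ∈ B <;> simp_all

/-- two different corners between disjoint sets -/
theorem cut_union_le (hd : Disjoint A B) {c c' : T} (hne : c ≠ c')
    (hc : (c ∈ A ∧ s c ∈ B) ∨ (c ∈ B ∧ s c ∈ A))
    (hc' : (c' ∈ A ∧ s c' ∈ B) ∨ (c' ∈ B ∧ s c' ∈ A)) :
    cut s (A ∪ B) + 4 ≤ cut s A + cut s B := by
  have h1 := cut_union_disj (s := s) hd
  have h2 : 2 ≤ (univ.filter fun t => (t ∈ A ∧ s t ∈ B) ∨ (t ∈ B ∧ s t ∈ A)).card := by
    rw [← card_pair hne]
    refine card_le_card fun x hx => ?_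
    rw [mem_insert, mem_singleton] at hx
    rw [mem_filter]
    refine ⟨mem_univ _, ?_⟩
    rcases hx with rfl | rfl
    · exact hc
    · exact hc'
  omega

end

end PGr

end

section
/-! # Module Cross: two crossing sets of cut 4 -/

set_option linter.unusedSectionVars false

namespace PGr
open Equiv Finset

section
variable {T : Type*} [Fintype T] [DecidableEq T] {a s : Perm T} {A B : Finset T}

private theorem Cross_union_lt (s : Perm T) (A B : Finset T)
    (h : ∃ t, (t ∈ A \ B ∧ s t ∈ B \ A) ∨ (t ∈ B \ A ∧ s t ∈ A \ B)) :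
    cut s (A ∩ B) + cut s (A ∪ B) + 2 ≤ cut s A + cut s B := by
  obtain ⟨t0, ht0⟩ := h
  have e : ∑ t, (if t = t0 then 2 else 0 : ℕ) = 2 := by simp
  simp only [cut_eq_sum_CutAux, ← sum_add_distrib]
  rw [← e, ← sum_add_distrib]
  refine sum_le_sum fun t _ => ?_
  simp only [mem_inter, mem_union]
  by_cases hh : t = t0
  · subst hh
    simp only [mem_sdiff] at ht0
    rcases ht0 with ⟨⟨h1, h2⟩, h3, h4⟩ | ⟨⟨h1, h2⟩, h3, h4⟩ <;> simp [h1, h2, h3, h4]
  · rw [if_neg hh]
    by_cases h1 : t ∈ A <;> by_cases h2 : t ∈ B <;> by_cases h3 : s t ∈ A <;>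
      by_cases h4 : s t ∈ B <;> simp [h1, h2, h3, h4]

/-- Four regions `A ∩ B`, `A \ B`, `B \ A`, `O = (A ∪ B)ᶜ`.  All four have cut 4 (`NS.uncross`, `NS.uncross_sdiff`,
`cut_compl`), so there is equality in `cut_inter_union` and `cut_sdiff`: no corner lies between `A \ B` and `B \ A`,
and none between `A ∩ B` and `O` (in the first inequality, a corner between `A \ B` and `B \ A` is counted twice on the
right and not on the left; for the second one see `cut_sdiff_lt`). -/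
theorem Good.cross_corners (h : Good a s) (hA : Cl a A) (hB : Cl a B) (h4 : cut s A = 4)
    (h4' : cut s B = 4) (hi : (A ∩ B).Nonempty) (hu : A ∪ B ≠ univ) (hab : (A \ B).Nonempty)
    (hba : (B \ A).Nonempty) (t : T) :
    ¬ (t ∈ A \ B ∧ s t ∈ B \ A) ∧ ¬ (t ∈ B \ A ∧ s t ∈ A \ B) ∧
    ¬ (t ∈ A ∩ B ∧ s t ∉ A ∪ B) ∧ ¬ (t ∉ A ∪ B ∧ s t ∈ A ∩ B) := by
  obtain ⟨e1, e2⟩ := h.ns.uncross hA hB h4 h4' hi hu
  obtain ⟨e3, e4⟩ := h.ns.uncross_sdiff hA hB h4 h4' hab hba
  have k1 : ¬ ∃ t, (t ∈ A \ B ∧ s t ∈ B \ A) ∨ (t ∈ B \ A ∧ s t ∈ A \ B) := by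
    intro hh
    have := Cross_union_lt s A B hh
    omega
  have k2 : ¬ ∃ t, (t ∈ A ∩ B ∧ s t ∉ A ∪ B) ∨ (t ∉ A ∪ B ∧ s t ∈ A ∩ B) := by
    intro hh
    have := cut_sdiff_lt s A B hh
    omega
  exact ⟨fun hh => k1 ⟨t, Or.inl hh⟩, fun hh => k1 ⟨t, Or.inr hh⟩, fun hh => k2 ⟨t, Or.inl hh⟩,
    fun hh => k2 ⟨t, Or.inr hh⟩⟩

/-- Suppose not.  Then the darts at the vertex of `r` are in `A \ B`, `B \ A` or `O`, and the first two occur
(`ShC`).  Leaving `A \ B` one enters `O` (`cross_corners`), leaving `B \ A` too: two different exits of `A ∪ B` (closed,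
cut 4) at one vertex, `exit_unique`. -/
theorem Good.cross_meet (h : Good a s) (hA : Cl a A) (hB : Cl a B) (h4 : cut s A = 4)
    (h4' : cut s B = 4) (hi : (A ∩ B).Nonempty) (hu : A ∪ B ≠ univ) (hab : (A \ B).Nonempty)
    (hba : (B \ A).Nonempty) {r : T} (hr : ShC s A r) (hr' : ShC s B r) :
    ∃ t ∈ A ∩ B, s.SameCycle r t := by
  by_contra hcon
  push Not at hcon
  obtain ⟨e1, e2⟩ := h.ns.uncross hA hB h4 h4' hi hu
  obtain ⟨z, hz, hz1, hz2⟩ := exists_exit hr
  obtain ⟨w, hw, hw1, hw2⟩ := exists_exit hr'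
  have hzB : z ∉ B := fun h' => hcon z (mem_inter.mpr ⟨hz1, h'⟩) hz
  have hwA : w ∉ A := fun h' => hcon w (mem_inter.mpr ⟨h', hw1⟩) hw
  have c1 := (h.cross_corners hA hB h4 h4' hi hu hab hba z).1
  have c2 := (h.cross_corners hA hB h4 h4' hi hu hab hba w).2.1
  simp only [mem_sdiff] at c1 c2
  have hszB : s z ∉ B := fun h' => c1 ⟨⟨hz1, hzB⟩, h', hz2⟩
  have hswA : s w ∉ A := fun h' => c2 ⟨⟨hw1, hwA⟩, h', hw2⟩
  have e : z = w := h.exit_unique (hA.union hB) e2 (mem_union_left _ hz1)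
    (by rw [mem_union]; tauto) (mem_union_right _ hw1) (by rw [mem_union]; tauto)
    (hz.symm.trans hw)
  exact hzB (e ▸ hw1)

/-- `B \ A` has darts at `r` -/
private theorem Cross_mid (h : Good a s) (hA : Cl a A) (hB : Cl a B) (h4 : cut s A = 4)
    (h4' : cut s B = 4) (hi : (A ∩ B).Nonempty) (hu : A ∪ B ≠ univ) (hab : (A \ B).Nonempty)
    (hba : (B \ A).Nonempty) {r : T} (hr : ShC s A r) (hr' : ShC s B r)
    (ho : ∃ t, t ∉ A ∪ B ∧ s.SameCycle r t) : ∃ t ∈ B \ A, s.SameCycle r t := by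
  by_contra hcon
  push Not at hcon
  obtain ⟨e3, e4⟩ := h.ns.uncross_sdiff hA hB h4 h4' hab hba
  obtain ⟨m, hm, hm'⟩ := h.cross_meet hA hB h4 h4' hi hu hab hba hr hr'
  obtain ⟨o, ho1, ho2⟩ := ho
  have s1 : ShC s (A ∩ B) r :=
    ⟨⟨m, hm, hm'⟩, o, fun h' => ho1 (mem_union_left _ (mem_inter.mp h').1), ho2⟩
  have s2 : ShC s (A ∪ B) r := ⟨⟨m, mem_union_left _ (mem_inter.mp hm).1, hm'⟩, o, ho1, ho2⟩
  obtain ⟨z, hz, hz1, hz2⟩ := exists_exit s1
  obtain ⟨w, hw, hw1, hw2⟩ := exists_entry s2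
  have c1 := (h.cross_corners hA hB h4 h4' hi hu hab hba z).2.2.1
  have c2 := (h.cross_corners hA hB h4 h4' hi hu hab hba w).2.2.2
  have hsz : s.SameCycle r (s z) := hz.trans ⟨1, by simp⟩
  have hsw : s.SameCycle r (s w) := hw.trans ⟨1, by simp⟩
  have d1 := hcon (s z)
  have d2 := hcon (s w)
  have z1 : s z ∈ A \ B := by
    simp only [mem_sdiff, mem_inter, mem_union] at *
    tauto
  have w1 : s w ∈ A \ B := by
    simp only [mem_sdiff, mem_inter, mem_union] at *
    tauto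
  have e : z = w := h.entry_unique (hA.sdiff hB) e3 (by simp only [mem_sdiff, mem_inter] at *; tauto)
    z1 (by simp only [mem_sdiff, mem_union] at *; tauto) w1 (hz.symm.trans hw)
  subst e
  exact hw1 (mem_union_left _ (mem_inter.mp hz1).1)

private theorem Cross_mid' (h : Good a s) (hA : Cl a A) (hB : Cl a B) (h4 : cut s A = 4)
    (h4' : cut s B = 4) (hi : (A ∩ B).Nonempty) (hu : A ∪ B ≠ univ) (hab : (A \ B).Nonempty)
    (hba : (B \ A).Nonempty) {r : T} (hr : ShC s A r) (hr' : ShC s B r)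
    (ho : ∃ t, t ∉ A ∪ B ∧ s.SameCycle r t) : ∃ t ∈ A \ B, s.SameCycle r t :=
  Cross_mid h hB hA h4' h4 (by rw [inter_comm]; exact hi) (by rw [union_comm]; exact hu) hba hab
    hr' hr (by rw [union_comm]; exact ho)

/-- The other ends coincide.  Suppose `x` is not shared for `B`.  Case 1: no dart at `x` is in `B`.  `A ∩ B` is closed
with cut 4, shared at `r` (`cross_meet`, and `ho`); let `y` be its other end (`Good.ends`).  If `y` were shared for `A`, then
`y ~ x` (`ends_two`), but `y` has a dart in `B`.  So all darts at `y` are in `A`, and `y` is shared for `B`.  `B \ A` is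
closed with cut 4; is it shared at `r`?  If not, no dart at `r` is in `B \ A` (`A ∩ B` has darts at `r`), the regions at
`r` are `A ∩ B`, `A \ B`, `O` and `A \ B` has two exits at `r`, into `O` and into `A ∩ B` (by `cross_corners` there is
no corner between `A ∩ B` and `O`), contradiction.  So let `y'` be the other end of `B \ A`.  If `y'` were shared for `A`,
then `y' ~ x`, but `y'` has a dart in `B`.  So no dart at `y'` is in `A`, and `y'` is shared for `B`; `ends_two` for `B`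
(`r`, `y`, `y'`) gives `y ~ y'`, contradiction.  Case 2: all darts at `x` are in `B`.  Let `y` be the other end of `A \ B`
(shared at `r`: as above) and `y'` the other end of `A ∪ B`.  If `y` were shared for `A` then `y ~ x`, but `y` has a dart
outside `B`; so all darts at `y` are in `A` and `y` is shared for `B`.  If `y'` were shared for `A`, then `y' ~ x`, but `y'`
has a dart outside `A ∪ B`.  So no dart at `y'` is in `A`, `y'` is shared for `B`, `y ~ y'`, contradiction. -/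
theorem Good.cross_end (h : Good a s) (hA : Cl a A) (hB : Cl a B) (h4 : cut s A = 4)
    (h4' : cut s B = 4) (hi : (A ∩ B).Nonempty) (hu : A ∪ B ≠ univ) (hab : (A \ B).Nonempty)
    (hba : (B \ A).Nonempty) {r : T} (hr : ShC s A r) (hr' : ShC s B r)
    (ho : ∃ t, t ∉ A ∪ B ∧ s.SameCycle r t) {x : T} (hx : ShC s A x)
    (hn : ¬ s.SameCycle r x) : ShC s B x := by
  by_contra hcon
  obtain ⟨e1, e2⟩ := h.ns.uncross hA hB h4 h4' hi hu
  obtain ⟨e3, e4⟩ := h.ns.uncross_sdiff hA hB h4 h4' hab hba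
  obtain ⟨m, hm, hm'⟩ := h.cross_meet hA hB h4 h4' hi hu hab hba hr hr'
  obtain ⟨q, hq, hq'⟩ := Cross_mid h hA hB h4 h4' hi hu hab hba hr hr' ho
  obtain ⟨p, hp, hp'⟩ := Cross_mid' h hA hB h4 h4' hi hu hab hba hr hr' ho
  obtain ⟨o, ho1, ho2⟩ := ho
  rw [mem_inter] at hm
  rw [mem_sdiff] at hq hp
  rw [mem_union, not_or] at ho1
  by_cases hc : ∃ t ∈ B, s.SameCycle x t
  · -- all darts at `x` are in `B`
    have hall : ∀ t, s.SameCycle x t → t ∈ B := by
      intro t ht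
      by_contra htB
      exact hcon ⟨hc, t, htB, ht⟩
    have s1 : ShC s (A \ B) r :=
      ⟨⟨p, mem_sdiff.mpr hp, hp'⟩, m, fun h' => (mem_sdiff.mp h').2 hm.2, hm'⟩
    have s2 : ShC s (A ∪ B) r :=
      ⟨⟨m, mem_union_left _ hm.1, hm'⟩, o, by rw [mem_union]; tauto, ho2⟩
    obtain ⟨y, hy, hry, -⟩ := h.ends (hA.sdiff hB) e3 s1
    obtain ⟨y', hy', hry', -⟩ := h.ends (hA.union hB) e2 s2
    obtain ⟨⟨u, hu1, hu2⟩, v, hv1, hv2⟩ := hy
    obtain ⟨⟨u', hu1', hu2'⟩, v', hv1', hv2'⟩ := hy'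
    rw [mem_sdiff] at hu1 hv1
    rw [mem_union] at hu1' hv1'
    have hyA : ∀ t, s.SameCycle y t → t ∈ A := by
      intro t ht
      by_contra htA
      have : s.SameCycle x y := h.ends_two hA h4 hr hx ⟨⟨u, hu1.1, hu2⟩, t, htA, ht⟩ hn hry
      exact hu1.2 (hall u (this.trans hu2))
    have hyA' : ∀ t, s.SameCycle y' t → t ∉ A := by
      intro t ht htA
      have : s.SameCycle x y' := h.ends_two hA h4 hr hx
        ⟨⟨t, htA, ht⟩, v', fun h' => hv1' (Or.inl h'), hv2'⟩ hn hry'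
      exact hv1' (Or.inr (hall v' (this.trans hv2')))
    have hvB : v ∈ B := by
      have := hyA v hv2
      tauto
    have hu'B : u' ∈ B := by
      have := hyA' u' hu2'
      tauto
    have : s.SameCycle y y' := h.ends_two hB h4' hr' ⟨⟨v, hvB, hv2⟩, u, hu1.2, hu2⟩
      ⟨⟨u', hu'B, hu2'⟩, v', fun h' => hv1' (Or.inr h'), hv2'⟩ hry hry'
    exact hyA' u' hu2' (hyA u' (this.trans hu2'))
  · push Not at hc
    have hall : ∀ t, s.SameCycle x t → t ∉ B := fun t ht htB => hc t htB ht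
    have s1 : ShC s (A ∩ B) r :=
      ⟨⟨m, mem_inter.mpr hm, hm'⟩, o, fun h' => ho1.1 (mem_inter.mp h').1, ho2⟩
    have s2 : ShC s (B \ A) r :=
      ⟨⟨q, mem_sdiff.mpr hq, hq'⟩, m, fun h' => (mem_sdiff.mp h').2 hm.1, hm'⟩
    obtain ⟨y, hy, hry, -⟩ := h.ends (hA.inter hB) e1 s1
    obtain ⟨y', hy', hry', -⟩ := h.ends (hB.sdiff hA) e4 s2
    obtain ⟨⟨u, hu1, hu2⟩, v, hv1, hv2⟩ := hy
    obtain ⟨⟨u', hu1', hu2'⟩, v', hv1', hv2'⟩ := hy'
    rw [mem_inter] at hu1 hv1
    rw [mem_sdiff] at hu1' hv1'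
    have hyA : ∀ t, s.SameCycle y t → t ∈ A := by
      intro t ht
      by_contra htA
      have : s.SameCycle x y := h.ends_two hA h4 hr hx ⟨⟨u, hu1.1, hu2⟩, t, htA, ht⟩ hn hry
      exact hall u (this.trans hu2) hu1.2
    have hyA' : ∀ t, s.SameCycle y' t → t ∉ A := by
      intro t ht htA
      have : s.SameCycle x y' := h.ends_two hA h4 hr hx
        ⟨⟨t, htA, ht⟩, u', hu1'.2, hu2'⟩ hn hry'
      exact hall u' (this.trans hu2') hu1'.1
    have hvB : v ∉ B := by
      have := hyA v hv2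
      tauto
    have hv'B : v' ∉ B := by
      have := hyA' v' hv2'
      tauto
    have : s.SameCycle y y' := h.ends_two hB h4' hr' ⟨⟨u, hu1.2, hu2⟩, v, hvB, hv2⟩
      ⟨⟨u', hu1'.1, hu2'⟩, v', hv'B, hv2'⟩ hry hry'
    exact hu1'.2 (hyA u' (this.trans hu2'))

/-- The exit `z` of `B` and the first dart `s w` of `B` at `r`: exactly one of them is in `A`.  All four regions have
darts at `r` (`cross_meet`, `ho`; for `A \ B`, `B \ A` as in `cross_end`), and each has one exit and one entry there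
(`exit_unique`, `entry_unique`).  If both are in `A`: `s z ∉ B` so `s z ∈ A \ B` (`cross_corners`), `w ∈ A \ B`, so the
only exit of `A ∩ B` goes to `A \ B` and the only entry comes from `A \ B`; the exit `t` of `B \ A` has `s t ∉ A ∩ B` and
`s t ∉ A \ B`, so `s t ∈ O`, `t` is an exit of `B`, `t = z ∈ A`, contradiction.  If neither is in `A`: the exit `t` of
`A ∩ B` has `s t ∈ B \ A` (if `s t ∉ B` then `t = z ∉ A`), so `t` is an entry of `B \ A`, but `w` is one, so `t = w ∉ B`. -/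
theorem Good.cross_exit (h : Good a s) (hA : Cl a A) (hB : Cl a B) (h4 : cut s A = 4)
    (h4' : cut s B = 4) (hi : (A ∩ B).Nonempty) (hu : A ∪ B ≠ univ) (hab : (A \ B).Nonempty)
    (hba : (B \ A).Nonempty) {r : T} (hr : ShC s A r) (hr' : ShC s B r)
    (ho : ∃ t, t ∉ A ∪ B ∧ s.SameCycle r t) {z w : T} (hz : s.SameCycle r z) (hzB : z ∈ B)
    (hzB' : s z ∉ B) (hw : s.SameCycle r w) (hwB : w ∉ B) (hwB' : s w ∈ B) :
    (z ∈ A ∧ s w ∉ A) ∨ (z ∉ A ∧ s w ∈ A) := by
  obtain ⟨e1, e2⟩ := h.ns.uncross hA hB h4 h4' hi hu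
  obtain ⟨e3, e4⟩ := h.ns.uncross_sdiff hA hB h4 h4' hab hba
  obtain ⟨m, hm, hm'⟩ := h.cross_meet hA hB h4 h4' hi hu hab hba hr hr'
  obtain ⟨q, hq, hq'⟩ := Cross_mid h hA hB h4 h4' hi hu hab hba hr hr' ho
  obtain ⟨o, ho1, ho2⟩ := ho
  rw [mem_inter] at hm
  rw [mem_sdiff] at hq
  rw [mem_union, not_or] at ho1
  by_cases hzA : z ∈ A <;> by_cases hwA : s w ∈ A
  · exfalso
    have s2 : ShC s (B \ A) r :=
      ⟨⟨q, mem_sdiff.mpr hq, hq'⟩, m, fun h' => (mem_sdiff.mp h').2 hm.1, hm'⟩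
    obtain ⟨t, ht, ht1, ht2⟩ := exists_exit s2
    have c1 := (h.cross_corners hA hB h4 h4' hi hu hab hba w).2.2.2
    have c2 := (h.cross_corners hA hB h4 h4' hi hu hab hba t).2.1
    rw [mem_sdiff] at ht1 ht2
    have hwA' : w ∈ A := by
      simp only [mem_union, mem_inter] at c1
      tauto
    have hst : s t ∉ B := by
      intro hstB
      have hstA : s t ∈ A := by tauto
      have e : t = w := h.entry_unique (hA.inter hB) e1 (by rw [mem_inter]; tauto)
        (mem_inter.mpr ⟨hstA, hstB⟩) (by rw [mem_inter]; tauto) (mem_inter.mpr ⟨hwA, hwB'⟩)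
        (ht.symm.trans hw)
      exact ht1.2 (e ▸ hwA')
    have e : t = z := h.exit_unique hB h4' ht1.1 hst hzB hzB' (ht.symm.trans hz)
    exact ht1.2 (e ▸ hzA)
  · exact Or.inl ⟨hzA, hwA⟩
  · exact Or.inr ⟨hzA, hwA⟩
  · exfalso
    have s1 : ShC s (A ∩ B) r :=
      ⟨⟨m, mem_inter.mpr hm, hm'⟩, o, fun h' => ho1.1 (mem_inter.mp h').1, ho2⟩
    obtain ⟨t, ht, ht1, ht2⟩ := exists_exit s1
    rw [mem_inter] at ht1 ht2
    have hstB : s t ∈ B := by
      by_contra hst
      have e : t = z := h.exit_unique hB h4' ht1.2 hst hzB hzB' (ht.symm.trans hz)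
      exact hzA (e ▸ ht1.1)
    have hstA : s t ∉ A := by tauto
    have e : t = w := h.entry_unique (hB.sdiff hA) e4 (by rw [mem_sdiff]; tauto)
      (mem_sdiff.mpr ⟨hstB, hstA⟩) (by rw [mem_sdiff]; tauto) (mem_sdiff.mpr ⟨hwB', hwA⟩)
      (ht.symm.trans hw)
    exact hwB (e ▸ ht1.2)

end

end PGr

end

section
/-! # Module Adj: two sets with a common corner and the same ends -/

set_option linter.unusedSectionVars false

namespace PGr
open Equiv Finset

section
variable {T : Type*} [Fintype T] [DecidableEq T] {a s : Perm T} {A B : Finset T}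

/-- Entering a closed set at the corner `c`, the face of `c` leaves it at a corner `u` which is not at the vertex of `c`.
Proof: `u 0 = c`, `u (j + 1) = (a * s) (u j)`; `u 1 = a (s c) ∈ B`; as long as `s (u j) ∈ B`, `u (j + 1) ∈ B`; the first
`j ≥ 1` with `u j ∈ B`, `s (u j) ∉ B` exists, since the cycle returns to `c ∉ B`.  `u j ≠ c` as `c ∉ B`; so `noPinch`. -/
theorem face_exit (h : Good a s) (hB : Cl a B) {c : T} (hc : c ∉ B) (hc' : s c ∈ B) :
    ∃ u, (a * s).SameCycle c u ∧ u ∈ B ∧ s u ∉ B ∧ ¬ s.SameCycle c u := by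
  have h1 : (a * s) c ∈ B := by rw [Perm.mul_apply, hB]; exact hc'
  obtain ⟨k, hk, hk'⟩ := SubMap.exit (a * s) h1 hc
    (Perm.sameCycle_apply_left.mpr (Perm.SameCycle.refl _ _))
  rw [Perm.mul_apply, hB] at hk'
  have h2 : (a * s).SameCycle c (((a * s) ^ k) ((a * s) c)) :=
    Perm.sameCycle_apply_left.mp ⟨k, by simp⟩
  refine ⟨((a * s) ^ k) ((a * s) c), h2, hk k le_rfl, hk', fun h3 => ?_⟩
  refine h.noPinch ?_ h3 h2
  intro e
  exact hc (e ▸ hk k le_rfl)

/-- the same backwards: the face which leaves `A` at the corner `c` has entered it at a corner `u` -/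
theorem face_entry (h : Good a s) (hA : Cl a A) {c : T} (hc : c ∈ A) (hc' : s c ∉ A) :
    ∃ u, (a * s).SameCycle c u ∧ u ∉ A ∧ s u ∈ A ∧ ¬ s.SameCycle c u := by
  obtain ⟨u, h1, h2, h3, h4⟩ := face_exit h hA.compl (c := c) (fun h' => mem_compl.mp h' hc)
    (mem_compl.mpr hc')
  exact ⟨u, h1, mem_compl.mp h2, by simpa using h3, h4⟩

/-- Two disjoint sets of cut 4 with the same ends which share a corner at one end share a corner at the other
end.  Proof: the face of `c` leaves `B` at `u` (`face_exit`) and enters `A` at `u'` (`face_entry`); both are at the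
vertex of `x` (shared vertices of `B`, resp. `A`, different from the vertex of `c`: `ends_two`); by `noPinch` `u = u'`, and
`c' = u`. -/
theorem Good.adj (h : Good a s) (hA : Cl a A) (hB : Cl a B) (h4 : cut s A = 4)
    (h4' : cut s B = 4) (hd : Disjoint A B) {c x : T} (hc : c ∈ A) (hc' : s c ∈ B)
    (hx : ShC s A x) (hx' : ShC s B x) (hn : ¬ s.SameCycle c x) :
    ∃ c', s.SameCycle x c' ∧ c' ∈ B ∧ s c' ∈ A := by
  have hd' : ∀ x, x ∈ A → x ∉ B := fun x hx hx' => Finset.disjoint_left.mp hd hx hx'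
  have hcB : c ∉ B := hd' c hc
  have hcA : s c ∉ A := fun h' => hd' _ h' hc'
  obtain ⟨u, hu1, hu2, hu3, hu4⟩ := face_exit h hB hcB hc'
  obtain ⟨v, hv1, hv2, hv3, hv4⟩ := face_entry h hA hc hcA
  have hsc : s.SameCycle c (s c) := ⟨1, by simp⟩
  have shBc : ShC s B c := ⟨⟨s c, hc', hsc⟩, c, hcB, Perm.SameCycle.refl _ _⟩
  have shAc : ShC s A c := ⟨⟨c, hc, Perm.SameCycle.refl _ _⟩, s c, hcA, hsc⟩
  have shBu : ShC s B u := ⟨⟨u, hu2, Perm.SameCycle.refl _ _⟩, s u, hu3, ⟨1, by simp⟩⟩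
  have shAv : ShC s A v := ⟨⟨s v, hv3, ⟨1, by simp⟩⟩, v, hv2, Perm.SameCycle.refl _ _⟩
  have e1 : s.SameCycle x u := h.ends_two hB h4' shBc hx' shBu hn hu4
  have e2 : s.SameCycle x v := h.ends_two hA h4 shAc hx shAv hn hv4
  have e3 : u = v := by
    by_contra hne
    exact h.noPinch hne (e1.symm.trans e2) (hu1.symm.trans hv1)
  subst e3
  exact ⟨u, e1, hu2, hv3⟩

end

end PGr

end
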