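import Pool.Agent.PGc.Four
import Pool.Agent.PGm.M04
import Pool.Agent.PGr.CompInj
import Pool.Agent.PGr.Cut
import Pool.Agent.PGr.CutIso
import Pool.Agent.PGr.Defs
import Pool.Agent.PGr.Euler
import Pool.Agent.PGr.NoPinch
import Pool.Agent.PGr.PlSum
import Pool.Agent.PGr.Reps
import Pool.Agent.PGr.SumDefs

section
/-!
# Maps with a reflection: definitions

A reflection of a map `(T, a, s)` is an involution `e` of the darts which commutes with `a` and
conjugates `s` into its inverse.  Darts with `e t = t` lie on the axis, darts with `e t = a t` cross the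
axis, corners with `e t = s t` are bisected by the axis.

Two pictures.  `M`: the map we want to count.  `N`: its dual; the edge involution is the same, the
rotation of `N` is `a * s`, the reflection of `N` is `a * e`.
-/

set_option linter.unusedSectionVars false

namespace PGr
open Equiv Finset
open scoped ENNReal

/-- letters: `C` edge on the axis (of `N`), `J` nothing, `G` the corner is on the axis, `X` a
crossing edge (of `N`) is attached at the corner -/
inductive Ltr | C | J | G | X
  deriving DecidableEq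

instance : Fintype Ltr := ⟨{.C, .J, .G, .X}, by intro x; cases x <;> simp⟩

section
variable {T : Type*} [Fintype T] [DecidableEq T]

/-- `e` is a reflection of the map `(a, s)` -/
structure Refl (a s e : Perm T) : Prop where
  ea : ∀ t, e (a t) = a (e t)
  es : ∀ t, s (e (s t)) = e t
  ee : ∀ t, e (e t) = t

/-- number of vertices fixed by `e` -/
noncomputable def nFix (s e : Perm T) : ℕ :=
  Nat.card {q : Quotient (Perm.SameCycle.setoid s) // ∃ t, q = Quotient.mk _ t ∧ s.SameCycle t (e t)}

/-- number of darts on the axis -/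
def cAx (e : Perm T) : ℕ := (univ.filter fun t => e t = t).card
/-- number of darts crossing the axis -/
def cCr (a e : Perm T) : ℕ := (univ.filter fun t => e t = a t).card
/-- number of bisected corners -/
def cBis (s e : Perm T) : ℕ := (univ.filter fun t => e t = s t).card

/-! ### Picture M -/

/-- position of the root: `C` the root edge crosses the axis, `G` the root corner is bisected,
`X` the dart after the root dart is on the axis -/
def MTy (a s e : Perm T) (r : T) : Ltr → Prop
  | .C => e r = a r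
  | .G => e r = s r
  | .X => e (s r) = s r ∧ e r ≠ r
  | .J => False

/-- Reduced: an invariant set of edges of cut 4 which does not contain the root and whose ends
(the vertices of its boundary corners) are on the axis is a single edge. -/
def MRed (a s e : Perm T) (r : T) : Prop :=
  ∀ A : Finset T, Cl a A → (∀ t ∈ A, e t ∈ A) → cut s A = 4 → r ∉ A →
    (∀ t ∈ bd s A, s.SameCycle t (e t)) → A.card = 2

/-- weight: `x` a vertex on the axis, `k` a pair of vertices, `y1` an edge on the axis, `A * y` an edge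
crossing the axis, `y` a pair of edges -/
noncomputable def RW (x k y1 A y : ℝ≥0∞) (a s e : Perm T) : ℝ≥0∞ :=
  x ^ nFix s e * k ^ ((nV s - nFix s e) / 2) * y1 ^ (cAx e / 2) * A ^ (cCr a e / 2) *
    y ^ (cCr a e / 2 + (Fintype.card T - cAx e - cCr a e) / 4)

/-! ### Picture N -/

def NTy (a s e : Perm T) (r : T) : Ltr → Prop
  | .C => e r = r
  | .G => e r = s r
  | .X => e (s r) = a (s r) ∧ e r ≠ a r
  | .J => False

def NRed (a s e : Perm T) (r : T) : Prop :=
  ∀ A : Finset T, Cl a A → (∀ t ∈ A, e t ∈ A) → cut s A = 4 → r ∉ A →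
    (∀ t ∈ bd s A, ¬ s.SameCycle t (e t)) → A.card = 2

/-- `g` tells the side of the axis: `g t` is the side of the dart `t`; if `t` is on the axis, the side
of the corner `t` (after `t`); `0` is the upper side. -/
structure Side (a s e : Perm T) (g : T → ZMod 2) : Prop where
  gs : ∀ t, g (s t) = g t + (if e t = s t then 1 else 0) + (if e (s t) = s t then 1 else 0)
  ga : ∀ t, g (a t) = g t + (if e t = t then 1 else 0) + (if e t = a t then 1 else 0)
  ge : ∀ t, g (e t) = g t + 1 + (if e t = t then 1 else 0)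

/-- the closed upper half: the darts on the axis and the upper darts not crossing the axis -/
def HP (a e : Perm T) (g : T → ZMod 2) : Finset T :=
  univ.filter fun t => e t = t ∨ (g t = 0 ∧ e t ≠ a t)

/-- a reduced map with a reflection, in picture N -/
structure NR (a s e : Perm T) (g : T → ZMod 2) (r : T) (ty : Ltr) : Prop where
  good : Good a s
  refl : Refl a s e
  side : Side a s e g
  typ : NTy a s e r ty
  gr : g r = if ty = .C then 1 else 0
  red : NRed a s e r

/-- the hypotheses on a half map: nonseparable, planar, at least one edge, the root face passes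
every vertex at most once, no loops -/
structure HH (a s : Perm T) (r : T) : Prop where
  inv : ∀ t, a (a t) = t
  fpf : ∀ t, a t ≠ t
  ns : NS a s
  pl : Pl a s
  np : ∀ t t', t ≠ t' → s.SameCycle t t' → (a * s).SameCycle r t → ¬ (a * s).SameCycle r t'
  nl : ∀ t, ¬ s.SameCycle t (a t)

/-- the letters on the corners of the root face of a half map; all other corners have letter `J` -/
structure Mark (a s : Perm T) (r : T) (μ : T → Ltr) : Prop where
  root : μ r ≠ .J
  dom : ∀ t, μ t ≠ .J → (a * s).SameCycle r t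
  next : ∀ t, (μ t = .J ∨ μ t = .X) → μ (a (s t)) ≠ .C
  cc : ∀ t, μ t ≠ .J → μ (a t) ≠ .C
  two : μ r = .C ∨ ∃ t, t ≠ r ∧ μ t ≠ .J

/-- the letters of the half map of a map with a reflection -/
def ltr (a s e : Perm T) (g : T → ZMod 2) (t : T) : Ltr :=
  if g t = 1 then .C else if e t = s t then .G else if e (s t) = a (s t) then .X else .J

end

/-! ### Doubling -/

section
variable {T : Type} [Fintype T] [DecidableEq T]

/-- `t` is on the axis of the double -/
def CE (a : Perm T) (μ : T → Ltr) (t : T) : Prop := μ t = .C ∨ μ (a t) = .C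

instance (a : Perm T) (μ : T → Ltr) (t : T) : Decidable (CE a μ t) := by
  unfold CE; infer_instance

/-- darts of the double: `up t`, a lower copy of `t` unless `t` is on the axis, and the two darts of a
crossing edge for every corner with letter `X` -/
abbrev DT (a : Perm T) (μ : T → Ltr) : Type :=
  T ⊕ ({t : T // ¬ CE a μ t} ⊕ ({t : T // μ t = .X} × Bool))

variable (a s : Perm T) (μ : T → Ltr)

abbrev dup (t : T) : DT a μ := Sum.inl t
/-- the lower copy of `t` (`up t` if `t` is on the axis) -/
def dlo (t : T) : DT a μ := if h : CE a μ t then Sum.inl t else Sum.inr (Sum.inl ⟨t, h⟩)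

theorem dlo_pos {t : T} (h : CE a μ t) : dlo a μ t = Sum.inl t := by simp [dlo, h]
theorem dlo_neg {t : T} (h : ¬ CE a μ t) : dlo a μ t = Sum.inr (Sum.inl ⟨t, h⟩) := by simp [dlo, h]

/-- edge involution of the double -/
def dAf (hinv : ∀ t, a (a t) = t) : DT a μ → DT a μ
  | Sum.inl t => Sum.inl (a t)
  | Sum.inr (Sum.inl t) => Sum.inr (Sum.inl ⟨a t.1, fun h => t.2 (by
      unfold CE at *; rw [hinv] at h; tauto)⟩)
  | Sum.inr (Sum.inr (t, b)) => Sum.inr (Sum.inr (t, !b))

/-- reflection of the double -/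
def dEf : DT a μ → DT a μ
  | Sum.inl t => dlo a μ t
  | Sum.inr (Sum.inl t) => Sum.inl t.1
  | Sum.inr (Sum.inr (t, b)) => Sum.inr (Sum.inr (t, !b))

/-- the dart of the double after `up t` -/
def dSup (t : T) : DT a μ :=
  match h : μ t with
  | .J => Sum.inl (s t)
  | .G => dlo a μ t
  | .X => Sum.inr (Sum.inr (⟨t, h⟩, true))
  | .C => dlo a μ (s.symm t)

/-- the dart of the double after the lower copy of `s t'` -/
def dSlo (t' : T) : DT a μ :=
  match h : μ t' with
  | .J => dlo a μ t'
  | .X => Sum.inr (Sum.inr (⟨t', h⟩, false))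
  | .G => Sum.inl (s t')
  | .C => Sum.inl (s t')

/-- rotation of the double -/
def dSf : DT a μ → DT a μ
  | Sum.inl t => dSup a s μ t
  | Sum.inr (Sum.inl t) => dSlo a s μ (s.symm t.1)
  | Sum.inr (Sum.inr (t, true)) => Sum.inl (s t.1)
  | Sum.inr (Sum.inr (t, false)) => dlo a μ t.1

/-- side function of the double -/
def dG : DT a μ → ZMod 2
  | Sum.inl t => if μ t = .C then 1 else 0
  | Sum.inr (Sum.inl _) => 1
  | Sum.inr (Sum.inr (_, b)) => if b then 0 else 1

theorem dAf_inv (hinv : ∀ t, a (a t) = t) (z : DT a μ) : dAf a μ hinv (dAf a μ hinv z) = z := by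
  rcases z with t | t | ⟨t, b⟩
  · simp [dAf, hinv]
  · simp [dAf, hinv]
  · simp [dAf]

/-- edge involution of the double, as a permutation -/
def dA (hinv : ∀ t, a (a t) = t) : Perm (DT a μ) :=
  ⟨dAf a μ hinv, dAf a μ hinv, dAf_inv a μ hinv, dAf_inv a μ hinv⟩

theorem dEf_inv (z : DT a μ) : dEf a μ (dEf a μ z) = z := by
  rcases z with t | t | ⟨t, b⟩
  · by_cases h : CE a μ t
    · simp [dEf, dlo_pos, h]
    · simp [dEf, dlo_neg, h]
  · simp [dEf, dlo_neg a μ t.2]
  · simp [dEf]

/-- reflection of the double, as a permutation -/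
def dE : Perm (DT a μ) := ⟨dEf a μ, dEf a μ, dEf_inv a μ, dEf_inv a μ⟩

end

/-! ### Sums -/

/-- degree of the root vertex -/
noncomputable def BMap.deg (M : BMap) : ℕ := Function.minimalPeriod (fun t => M.s t) (Sum.inr true)

/-- sum of the weights of the reduced maps with a reflection, with root of type `ty` (picture M,
root edge and all vertices counted) -/
noncomputable def RSum (ty : Ltr) (x k y1 A y : ℝ≥0∞) : ℝ≥0∞ := by
  classical
  exact ∑' c : GC, if h : ∃ e : Perm c.rep.1.T, Refl c.rep.1.aa c.rep.1.s e ∧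
      MTy c.rep.1.aa c.rep.1.s e (Sum.inr true) ty ∧ MRed c.rep.1.aa c.rep.1.s e (Sum.inr true) then
    RW x k y1 A y c.rep.1.aa c.rep.1.s h.choose else 0

/-- nonseparable maps with root vertex of degree `d`, the root vertex is not counted -/
noncomputable def BS (k y : ℝ≥0∞) (d : ℕ) : ℝ≥0∞ := by
  classical
  exact ∑' c : GC, if c.rep.1.deg = d then
    k ^ (nV c.rep.1.s - 1) * y ^ (Fintype.card c.rep.1.T / 2) else 0

/-- weights of the words of length `n`: from the free state / from the state after `J` or `X`, with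
any end -/
noncomputable def wAny (x y1 A : ℝ≥0∞) : ℕ → ℝ≥0∞ × ℝ≥0∞
  | 0 => (1, 1)
  | n + 1 => ((A + x) * (wAny x y1 A n).1 + (1 + x * y1) * (wAny x y1 A n).2,
      x * (wAny x y1 A n).1 + (1 + x * y1) * (wAny x y1 A n).2)

/-- the same, at least one letter different from `J` -/
noncomputable def wNon (x y1 A : ℝ≥0∞) : ℕ → ℝ≥0∞ × ℝ≥0∞
  | 0 => (0, 0)
  | n + 1 => ((A + x) * (wAny x y1 A n).1 + x * y1 * (wAny x y1 A n).2 + (wNon x y1 A n).2,
      x * (wAny x y1 A n).1 + x * y1 * (wAny x y1 A n).2 + (wNon x y1 A n).2)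

/-- the same as `wAny`, ending in the free state -/
noncomputable def wFree (x y1 A : ℝ≥0∞) : ℕ → ℝ≥0∞ × ℝ≥0∞
  | 0 => (1, 0)
  | n + 1 => ((A + x) * (wFree x y1 A n).1 + (1 + x * y1) * (wFree x y1 A n).2,
      x * (wFree x y1 A n).1 + (1 + x * y1) * (wFree x y1 A n).2)

/-- weight of the cyclic words of length `n + 1` with root letter `ty` -/
noncomputable def wSum (x y1 A : ℝ≥0∞) (ty : Ltr) (n : ℕ) : ℝ≥0∞ :=
  match ty with
  | .C => A * (wFree x y1 A n).1
  | .G => x * (wNon x y1 A n).1
  | .X => x * y1 * (wNon x y1 A n).2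
  | .J => 0

/-- weight of a letter -/
noncomputable def lw (x y1 A : ℝ≥0∞) : Ltr → ℝ≥0∞
  | .C => A
  | .J => 1
  | .G => x
  | .X => x * y1

end PGr

end

section
/-! # Module Cls: the class of a rooted map -/

set_option linter.unusedSectionVars false

namespace PGr
open Equiv Finset

section
variable {T : Type} [Fintype T] [DecidableEq T]

/-- the class of the map `(T, a, s)` with root dart `r` -/
noncomputable def gcl (a s : Perm T) (r : T) (h : Good a s) : GC :=
  Quotient.mk _ ⟨(exists_BMap a s r h.inv h.fpf).choose, by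
    obtain ⟨e, h1, h2, _⟩ := (exists_BMap a s r h.inv h.fpf).choose_spec
    exact Good_iso e h1 h2 h⟩

theorem gcl_iso (a s : Perm T) (r : T) (h : Good a s) :
    ∃ e : T ≃ (gcl a s r h).rep.1.T, (∀ t, e (a t) = (gcl a s r h).rep.1.aa (e t)) ∧
      (∀ t, e (s t) = (gcl a s r h).rep.1.s (e t)) ∧ e r = Sum.inr true := by
  obtain ⟨e, h1, h2, h3⟩ := (exists_BMap a s r h.inv h.fpf).choose_spec
  have hb : BIso (exists_BMap a s r h.inv h.fpf).choose (gcl a s r h).rep.1 := by
    have h4 := Quotient.mk_out (s := bSetoid) (⟨(exists_BMap a s r h.inv h.fpf).choose,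
      Good_iso e h1 h2 h⟩ : GB)
    exact BIso.symm h4
  obtain ⟨f, g1, g2, g3⟩ := hb
  refine ⟨e.trans f, fun t => ?_, fun t => ?_, ?_⟩
  · simp only [Equiv.trans_apply]; rw [h1, g1]
  · simp only [Equiv.trans_apply]; rw [h2, g2]
  · simp only [Equiv.trans_apply]; rw [h3, g3]

theorem gcl_eq_iff {T' : Type} [Fintype T'] [DecidableEq T'] {a s : Perm T} {r : T} (h : Good a s)
    {a' s' : Perm T'} {r' : T'} (h' : Good a' s') :
    gcl a s r h = gcl a' s' r' h' ↔
      ∃ e : T ≃ T', (∀ t, e (a t) = a' (e t)) ∧ (∀ t, e (s t) = s' (e t)) ∧ e r = r' := by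
  obtain ⟨e, h1, h2, h3⟩ := (exists_BMap a s r h.inv h.fpf).choose_spec
  obtain ⟨e', h1', h2', h3'⟩ := (exists_BMap a' s' r' h'.inv h'.fpf).choose_spec
  constructor
  · intro hh
    have hb : BIso (exists_BMap a s r h.inv h.fpf).choose
        (exists_BMap a' s' r' h'.inv h'.fpf).choose := Quotient.exact hh
    obtain ⟨f, g1, g2, g3⟩ := hb
    refine ⟨(e.trans f).trans e'.symm, fun t => ?_, fun t => ?_, ?_⟩
    · simp only [Equiv.trans_apply]
      rw [Equiv.symm_apply_eq, h1', Equiv.apply_symm_apply, h1, g1]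
    · simp only [Equiv.trans_apply]
      rw [Equiv.symm_apply_eq, h2', Equiv.apply_symm_apply, h2, g2]
    · simp only [Equiv.trans_apply]
      rw [Equiv.symm_apply_eq, h3', h3, g3]
  · rintro ⟨f, g1, g2, g3⟩
    refine Quotient.sound ?_
    change BIso (exists_BMap a s r h.inv h.fpf).choose
        (exists_BMap a' s' r' h'.inv h'.fpf).choose
    refine ⟨(e.symm.trans f).trans e', fun t => ?_, fun t => ?_, ?_⟩
    · obtain ⟨t, rfl⟩ := e.surjective t
      simp only [Equiv.trans_apply]
      rw [← h1, Equiv.symm_apply_apply, Equiv.symm_apply_apply, g1, h1']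
    · obtain ⟨t, rfl⟩ := e.surjective t
      simp only [Equiv.trans_apply]
      rw [← h2, Equiv.symm_apply_apply, Equiv.symm_apply_apply, g2, h2']
    · simp only [Equiv.trans_apply]
      rw [← h3, Equiv.symm_apply_apply, g3, h3']

theorem gcl_rep (c : GC) : gcl c.rep.1.aa c.rep.1.s (Sum.inr true) c.rep.2 = c := by
  have h := c.rep.2
  obtain ⟨e, h1, h2, h3⟩ := (exists_BMap c.rep.1.aa c.rep.1.s (Sum.inr true) h.inv h.fpf).choose_spec
  conv_rhs => rw [← Quotient.out_eq c]
  refine Quotient.sound ?_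
  have hb : BIso c.rep.1 (exists_BMap c.rep.1.aa c.rep.1.s (Sum.inr true) h.inv h.fpf).choose :=
    ⟨e, h1, h2, h3⟩
  exact hb.symm

/-- transport of the definitions along an isomorphism -/
theorem Refl_iso {T' : Type} [Fintype T'] [DecidableEq T'] {a s e : Perm T} {a' s' : Perm T'}
    (f : T ≃ T') (h1 : ∀ t, f (a t) = a' (f t)) (h2 : ∀ t, f (s t) = s' (f t)) (h : Refl a s e) :
    Refl a' s' ((f.symm.trans e).trans f) where
  ea t := by
    obtain ⟨t, rfl⟩ := f.surjective t
    simp only [Equiv.trans_apply]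
    rw [← h1, Equiv.symm_apply_apply, Equiv.symm_apply_apply, ← h1, h.ea]
  es t := by
    obtain ⟨t, rfl⟩ := f.surjective t
    simp only [Equiv.trans_apply]
    rw [Equiv.symm_apply_apply, ← h2 t, Equiv.symm_apply_apply, ← h2, h.es]
  ee t := by
    obtain ⟨t, rfl⟩ := f.surjective t
    simp only [Equiv.trans_apply]
    rw [Equiv.symm_apply_apply, Equiv.symm_apply_apply, h.ee]

private theorem Cls_ft {T' : Type} {e : Perm T} (f : T ≃ T') (t : T) :
    ((f.symm.trans e).trans f) (f t) = f (e t) := by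
  simp only [Equiv.trans_apply]
  rw [Equiv.symm_apply_apply]

theorem MTy_iso {T' : Type} [Fintype T'] [DecidableEq T'] {a s e : Perm T} {a' s' : Perm T'} {r : T}
    {ty : Ltr} (f : T ≃ T') (h1 : ∀ t, f (a t) = a' (f t)) (h2 : ∀ t, f (s t) = s' (f t))
    (h : MTy a s e r ty) : MTy a' s' ((f.symm.trans e).trans f) (f r) ty := by
  cases ty with
  | C =>
    change _ = _
    change e r = a r at h
    rw [Cls_ft, h, h1]
  | G =>
    change _ = _
    change e r = s r at h
    rw [Cls_ft, h, h2]
  | X =>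
    change _ ∧ _
    change e (s r) = s r ∧ e r ≠ r at h
    rw [← h2, Cls_ft, Cls_ft, h.1]
    exact ⟨rfl, fun h5 => h.2 (f.injective h5)⟩
  | J => exact h

private theorem Cls_sc {T' : Type} [Fintype T'] [DecidableEq T'] {s : Perm T} {s' : Perm T'}
    (f : T ≃ T') (h2 : ∀ t, f (s t) = s' (f t)) (x y : T) :
    s'.SameCycle (f x) (f y) ↔ s.SameCycle x y := by
  constructor
  · rintro ⟨i, hi⟩
    refine ⟨i, f.injective ?_⟩
    rw [CutIso.zpow f h2, hi]
  · rintro ⟨i, hi⟩
    exact ⟨i, by rw [← CutIso.zpow f h2, hi]⟩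

theorem MRed_iso {T' : Type} [Fintype T'] [DecidableEq T'] {a s e : Perm T} {a' s' : Perm T'} {r : T}
    (f : T ≃ T') (h1 : ∀ t, f (a t) = a' (f t)) (h2 : ∀ t, f (s t) = s' (f t))
    (h : MRed a s e r) : MRed a' s' ((f.symm.trans e).trans f) (f r) := by
  intro A hA hi h4 hr hb
  have hA' : Cl a (A.map f.symm.toEmbedding) := Cl_iso f.symm (CutIso.symm h1) hA
  have hm : ∀ t, t ∈ A.map f.symm.toEmbedding ↔ f t ∈ A := by
    intro t
    rw [Finset.mem_map_equiv, Equiv.symm_symm]
  have hc : cut s (A.map f.symm.toEmbedding) = 4 := by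
    rw [← h4, ← cut_iso f h2, CutIso.map_symm]
  have := h (A.map f.symm.toEmbedding) hA' (by
    intro t ht
    rw [hm] at ht ⊢
    have := hi _ ht
    rwa [Cls_ft] at this) hc (by rwa [hm]) (by
    intro t ht
    rw [bd, mem_filter, hm, hm] at ht
    have h5 := hb (f t) (by
      rw [bd, mem_filter, ← h2]
      exact ⟨mem_univ _, ht.2⟩)
    rw [Cls_ft, Cls_sc f h2] at h5
    exact h5)
  rwa [card_map] at this

private theorem Cls_filter {T' : Type} [Fintype T'] [DecidableEq T'] (f : T ≃ T') (p : T → Prop)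
    [DecidablePred p] (p' : T' → Prop) [DecidablePred p'] (h : ∀ t, p' (f t) ↔ p t) :
    (univ.filter p').card = (univ.filter p).card := by
  symm
  refine Finset.card_bij (fun t _ => f t) ?_ ?_ ?_
  · intro t ht
    rw [mem_filter] at ht ⊢
    exact ⟨mem_univ _, (h t).2 ht.2⟩
  · intro t _ t' _ h5
    exact f.injective h5
  · intro t' ht'
    obtain ⟨t, rfl⟩ := f.surjective t'
    rw [mem_filter] at ht'
    exact ⟨t, by rw [mem_filter]; exact ⟨mem_univ _, (h t).1 ht'.2⟩, rfl⟩

private theorem Cls_nFix {T' : Type} [Fintype T'] [DecidableEq T'] {s e : Perm T} {s' : Perm T'}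
    (f : T ≃ T') (h2 : ∀ t, f (s t) = s' (f t)) :
    nFix s' ((f.symm.trans e).trans f) = nFix s e := by
  unfold nFix
  symm
  let F : Quotient (Perm.SameCycle.setoid s) ≃ Quotient (Perm.SameCycle.setoid s') :=
    Quotient.congr f (fun x y => (Cls_sc f h2 x y).symm)
  refine Nat.card_congr (F.subtypeEquiv ?_)
  intro q
  constructor
  · rintro ⟨t, rfl, ht⟩
    refine ⟨f t, rfl, ?_⟩
    rw [Cls_ft, Cls_sc f h2]
    exact ht
  · rintro ⟨t', h5, ht⟩
    obtain ⟨t, rfl⟩ := f.surjective t'
    refine ⟨t, F.injective (h5.trans rfl), ?_⟩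
    rw [Cls_ft, Cls_sc f h2] at ht
    exact ht

theorem RW_iso {T' : Type} [Fintype T'] [DecidableEq T'] {a s e : Perm T} {a' s' : Perm T'}
    (f : T ≃ T') (h1 : ∀ t, f (a t) = a' (f t)) (h2 : ∀ t, f (s t) = s' (f t))
    (x k y1 A y : ENNReal) :
    RW x k y1 A y a' s' ((f.symm.trans e).trans f) = RW x k y1 A y a s e := by
  have e1 : nFix s' ((f.symm.trans e).trans f) = nFix s e := Cls_nFix f h2
  have e2 : nV s' = nV s := (nV_iso f h2).symm
  have e3 : cAx ((f.symm.trans e).trans f) = cAx e := by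
    unfold cAx
    refine Cls_filter f _ _ ?_
    intro t
    rw [Cls_ft]
    exact f.injective.eq_iff
  have e4 : cCr a' ((f.symm.trans e).trans f) = cCr a e := by
    unfold cCr
    refine Cls_filter f _ _ ?_
    intro t
    rw [Cls_ft, ← h1]
    exact f.injective.eq_iff
  have e5 : Fintype.card T' = Fintype.card T := (Fintype.card_congr f).symm
  unfold RW
  rw [e1, e2, e3, e4, e5]

end

end PGr

end

section
/-! # Module CycInv: reflections of the cycles of a permutation -/

set_option linter.unusedSectionVars false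

namespace PGr
open Equiv Finset

section
variable {T : Type*} [Fintype T] [DecidableEq T] {s e : Perm T}

/-- `e` conjugates the powers of `s` into their inverses -/
theorem CycInv_pow (hes : ∀ t, s (e (s t)) = e t) (k : ℤ) (t : T) :
    e ((s ^ k) t) = (s ^ (-k)) (e t) := by
  have h1 : e * s * e⁻¹ = s⁻¹ := by
    ext x
    have h := hes (e⁻¹ x)
    have h' : e (e⁻¹ x) = x := by simp
    rw [h'] at h
    rw [Perm.eq_inv_iff_eq]
    exact h
  have h2 : e * s ^ k * e⁻¹ = s ^ (-k) := by
    rw [← conj_zpow, h1, inv_zpow, zpow_neg]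
  have h3 := congrArg (fun f : Perm T => f (e t)) h2
  have h4 : (e * s ^ k * e⁻¹) (e t) = e ((s ^ k) t) := by simp
  rw [← h4]
  exact h3

/-- `e` maps cycles onto cycles -/
theorem CycInv_map (hes : ∀ t, s (e (s t)) = e t) {t x : T} (h : s.SameCycle t x) :
    s.SameCycle (e t) (e x) := by
  obtain ⟨k, rfl⟩ := h
  exact ⟨-k, (CycInv_pow hes k t).symm⟩

theorem CycInv_iff (t : T) (k l : ℤ) :
    (s ^ k) t = (s ^ l) t ↔ ((Function.minimalPeriod (fun x => s x) t : ℕ) : ℤ) ∣ k - l := by
  have h := MulAction.zpow_smul_eq_iff_minimalPeriod_dvd (a := s) (b := t) (n := k - l)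
  have h1 : (s ^ (k - l)) • t = t ↔ (s ^ k) t = (s ^ l) t := by
    rw [Perm.smul_def, sub_eq_neg_add, zpow_add, Perm.mul_apply, zpow_neg, Perm.inv_eq_iff_eq,
      eq_comm, eq_comm (a := (s ^ l) t)]
  rw [← h1, h]
  rfl

theorem CycInv_pos (t : T) : 0 < Function.minimalPeriod (fun x => s x) t := by
  have h := MulAction.zpow_smul_eq_iff_minimalPeriod_dvd (a := s) (b := t) (n := (orderOf s : ℤ))
  have h1 : s ^ ((orderOf s : ℕ) : ℤ) • t = t := by
    rw [zpow_natCast, pow_orderOf_eq_one, one_smul]
  have h2 := h.1 h1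
  have h3 : Function.minimalPeriod (fun x => s • x) t ∣ orderOf s := by exact_mod_cast h2
  exact Nat.pos_of_dvd_of_pos h3 (orderOf_pos s)

theorem CycInv_nat (t : T) {x : T} (h : s.SameCycle t x) :
    ∃ i : ℕ, i < Function.minimalPeriod (fun x => s x) t ∧ (s ^ (i : ℤ)) t = x := by
  obtain ⟨k, hk⟩ := h
  have hn : (0 : ℤ) < (Function.minimalPeriod (fun x => s x) t : ℕ) := by
    exact_mod_cast CycInv_pos t
  set n := Function.minimalPeriod (fun x => s x) t with hn'
  have h0 : 0 ≤ k % (n : ℤ) := Int.emod_nonneg _ hn.ne'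
  have h1 : k % (n : ℤ) < n := Int.emod_lt_of_pos _ hn
  refine ⟨(k % (n : ℤ)).toNat, by omega, ?_⟩
  rw [← hk, Int.toNat_of_nonneg h0, CycInv_iff]
  exact ⟨-(k / n), by rw [Int.emod_def, ← hn']; ring⟩

theorem CycInv_count {n c : ℕ} (hc : c < n) :
    ((range n).filter (fun i => 2 * i = c ∨ 2 * i = c + n)).card +
      ((range n).filter (fun i => 2 * i + 1 = c ∨ 2 * i + 1 = c + n)).card = 2 := by
  rcases Nat.even_or_odd' c with ⟨a, ha | ha⟩ <;> rcases Nat.even_or_odd' n with ⟨b, hb | hb⟩
  · have h1 : (range n).filter (fun i => 2 * i = c ∨ 2 * i = c + n) = {a, a + b} := by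
      ext i; simp only [mem_filter, mem_range, mem_insert, mem_singleton]; omega
    have h2 : (range n).filter (fun i => 2 * i + 1 = c ∨ 2 * i + 1 = c + n) = ∅ := by
      ext i; simp only [mem_filter, mem_range, notMem_empty, iff_false]; omega
    rw [h1, h2, card_pair (by omega), card_empty]
  · have h1 : (range n).filter (fun i => 2 * i = c ∨ 2 * i = c + n) = {a} := by
      ext i; simp only [mem_filter, mem_range, mem_singleton]; omega
    have h2 : (range n).filter (fun i => 2 * i + 1 = c ∨ 2 * i + 1 = c + n) = {a + b} := by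
      ext i; simp only [mem_filter, mem_range, mem_singleton]; omega
    rw [h1, h2, card_singleton, card_singleton]
  · have h1 : (range n).filter (fun i => 2 * i = c ∨ 2 * i = c + n) = ∅ := by
      ext i; simp only [mem_filter, mem_range, notMem_empty, iff_false]; omega
    have h2 : (range n).filter (fun i => 2 * i + 1 = c ∨ 2 * i + 1 = c + n) = {a, a + b} := by
      ext i; simp only [mem_filter, mem_range, mem_insert, mem_singleton]; omega
    rw [h1, h2, card_pair (by omega), card_empty]
  · have h1 : (range n).filter (fun i => 2 * i = c ∨ 2 * i = c + n) = {a + b + 1} := by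
      ext i; simp only [mem_filter, mem_range, mem_singleton]; omega
    have h2 : (range n).filter (fun i => 2 * i + 1 = c ∨ 2 * i + 1 = c + n) = {a} := by
      ext i; simp only [mem_filter, mem_range, mem_singleton]; omega
    rw [h1, h2, card_singleton, card_singleton]

theorem CycInv_dvd {n : ℕ} {z : ℤ} (h1 : -(n : ℤ) < z) (h2 : z < 2 * n) :
    (n : ℤ) ∣ z ↔ z = 0 ∨ z = n := by
  constructor
  · rintro ⟨k, hk⟩
    have hn : (0 : ℤ) < n := by omega
    have h3 : -1 < k := by
      by_contra h
      push Not at h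
      nlinarith
    have h4 : k < 2 := by
      by_contra h
      push Not at h
      nlinarith
    have h5 : k = 0 ∨ k = 1 := by omega
    rcases h5 with rfl | rfl
    · left; rw [hk, mul_zero]
    · right; rw [hk, mul_one]
  · rintro (h | h)
    · rw [h]; exact dvd_zero _
    · rw [h]

/-- Proof.  Let `n` be the length of the cycle and `e t = s^c t` (`c ≥ 0`).  The elements are `s^i t`, `i < n`, and
`e (s^i t) = s^(c - i) t` (integers).  So `e x = x` iff `2 i ≡ c` and `e x = s x` iff `2 i ≡ c - 1` modulo `n`.  If `n` is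
odd both congruences have exactly one solution; if `n` is even exactly one of them has solutions, namely two. -/
theorem cyc_two (hes : ∀ t, s (e (s t)) = e t) (hee : ∀ t, e (e t) = t) {t : T}
    (ht : s.SameCycle t (e t)) :
    (univ.filter fun x => s.SameCycle t x ∧ e x = x).card +
      (univ.filter fun x => s.SameCycle t x ∧ e x = s x).card = 2 := by
  obtain ⟨c, hc, hct⟩ := CycInv_nat t ht
  set n := Function.minimalPeriod (fun x => s x) t with hn
  rw [← CycInv_count hc]
  have hinj : ∀ i ∈ range n, ∀ j ∈ range n, (s ^ (i : ℤ)) t = (s ^ (j : ℤ)) t → i = j := by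
    intro i hi j hj h
    rw [mem_range] at hi hj
    rw [CycInv_iff, ← hn] at h
    have h1 : ((i : ℤ) - j) % n = 0 := Int.emod_eq_zero_of_dvd h
    obtain ⟨k, hk⟩ := h
    have h3 : -1 < k := by
      by_contra h
      push Not at h
      have : (n : ℤ) * k ≤ -n := by nlinarith
      omega
    have h4 : k < 1 := by
      by_contra h
      push Not at h
      have : (n : ℤ) * k ≥ n := by nlinarith
      omega
    have h5 : k = 0 := by omega
    rw [h5, mul_zero] at hk
    omega
  have he : ∀ i : ℕ, e ((s ^ (i : ℤ)) t) = (s ^ ((c : ℤ) - i)) t := by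
    intro i
    rw [CycInv_pow hes, ← hct, ← Perm.mul_apply, ← zpow_add]
    congr 2
    ring
  congr 1
  · symm
    refine card_bij (fun i _ => (s ^ (i : ℤ)) t) ?_ ?_ ?_
    · intro i hi
      rw [mem_filter, mem_range] at hi
      rw [mem_filter]
      refine ⟨mem_univ _, ⟨i, rfl⟩, ?_⟩
      rw [he, CycInv_iff, ← hn]
      have h1 : (c : ℤ) - i - i = -(2 * i - c) := by ring
      rw [h1, dvd_neg, CycInv_dvd (by omega) (by omega)]
      omega
    · intro i hi j hj h
      exact hinj i (mem_filter.1 hi).1 j (mem_filter.1 hj).1 h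
    · intro x hx
      rw [mem_filter] at hx
      obtain ⟨i, hi, hix⟩ := CycInv_nat t hx.2.1
      refine ⟨i, ?_, hix⟩
      rw [mem_filter, mem_range]
      refine ⟨hi, ?_⟩
      have h2 := hx.2.2
      rw [← hix, he, CycInv_iff, ← hn] at h2
      have h1 : (c : ℤ) - i - i = -(2 * i - c) := by ring
      rw [← hn] at hi
      rw [h1, dvd_neg, CycInv_dvd (by omega) (by omega)] at h2
      omega
  · symm
    have hs : ∀ i : ℕ, s ((s ^ (i : ℤ)) t) = (s ^ ((i : ℤ) + 1)) t := by
      intro i
      rw [← Perm.mul_apply, add_comm, zpow_add, zpow_one]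
    refine card_bij (fun i _ => (s ^ (i : ℤ)) t) ?_ ?_ ?_
    · intro i hi
      rw [mem_filter, mem_range] at hi
      rw [mem_filter]
      refine ⟨mem_univ _, ⟨i, rfl⟩, ?_⟩
      rw [he, hs, CycInv_iff, ← hn]
      have h1 : (c : ℤ) - i - (i + 1) = -(2 * i + 1 - c) := by ring
      rw [h1, dvd_neg, CycInv_dvd (by omega) (by omega)]
      omega
    · intro i hi j hj h
      exact hinj i (mem_filter.1 hi).1 j (mem_filter.1 hj).1 h
    · intro x hx
      rw [mem_filter] at hx
      obtain ⟨i, hi, hix⟩ := CycInv_nat t hx.2.1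
      refine ⟨i, ?_, hix⟩
      rw [mem_filter, mem_range]
      refine ⟨hi, ?_⟩
      have h2 := hx.2.2
      rw [← hix, he, hs, CycInv_iff, ← hn] at h2
      have h1 : (c : ℤ) - i - (i + 1) = -(2 * i + 1 - c) := by ring
      rw [← hn] at hi
      rw [h1, dvd_neg, CycInv_dvd (by omega) (by omega)] at h2
      omega

/-- Cycles which are not fixed contain no axis elements. -/
theorem CycInv_not (hes : ∀ t, s (e (s t)) = e t) {t : T} (ht : ¬ s.SameCycle t (e t)) {x : T}
    (hx : s.SameCycle t x) : e x ≠ x ∧ e x ≠ s x := by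
  have h1 := CycInv_map hes hx
  refine ⟨fun h => ht ?_, fun h => ht ?_⟩
  · rw [h] at h1
    exact hx.trans h1.symm
  · rw [h] at h1
    exact (Perm.sameCycle_apply_right.2 hx).trans h1.symm

/-- Proof.  `e` maps the cycle of `t` to the cycle of `e t` (`e (s t) = s⁻¹ (e t)`).  If these are different, all terms
are 0 (`e x = x` or `e x = s x` would put `x` and `e x` in one cycle).  Otherwise `x ↦ e x` and `x ↦ s⁻¹ (e x)` are
involutions of the cycle (`(s⁻¹ e)(s⁻¹ e) = s⁻¹ (e s⁻¹ e) = s⁻¹ s`), with fixed points `e x = x` and `e x = s x`; both numbers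
of fixed points have the parity of the length of the cycle (`Function.Involutive.card_fixedPoints...` or
`Finset.sum_involution` for the constant function 1 on the non fixed points). -/
theorem cyc_even (hes : ∀ t, s (e (s t)) = e t) (hee : ∀ t, e (e t) = t) (t : T) :
    ∑ x ∈ univ.filter (fun x => s.SameCycle t x),
      ((if e x = x then 1 else 0) + (if e x = s x then 1 else 0) : ZMod 2) = 0 := by
  by_cases ht : s.SameCycle t (e t)
  · have h := cyc_two hes hee ht
    rw [sum_add_distrib, sum_boole, sum_boole, filter_filter, filter_filter, ← Nat.cast_add, h]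
    rfl
  · refine sum_eq_zero fun x hx => ?_
    have h := CycInv_not hes ht (mem_filter.1 hx).2
    rw [if_neg h.1, if_neg h.2, add_zero]

/-- sum `cyc_two` over the fixed cycles -/
theorem two_nFix (hes : ∀ t, s (e (s t)) = e t) (hee : ∀ t, e (e t) = t) :
    2 * nFix s e = cAx e + cBis s e := by
  classical
  have key : ∀ t : T, (univ.filter fun x => s.SameCycle t x ∧ e x = x).card +
      (univ.filter fun x => s.SameCycle t x ∧ e x = s x).card =
        if s.SameCycle t (e t) then 2 else 0 := by
    intro t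
    by_cases ht : s.SameCycle t (e t)
    · rw [if_pos ht, cyc_two hes hee ht]
    · rw [if_neg ht]
      have h1 : (univ.filter fun x => s.SameCycle t x ∧ e x = x) = ∅ := by
        refine filter_eq_empty_iff.2 fun x _ hx => (CycInv_not hes ht hx.1).1 hx.2
      have h2 : (univ.filter fun x => s.SameCycle t x ∧ e x = s x) = ∅ := by
        refine filter_eq_empty_iff.2 fun x _ hx => (CycInv_not hes ht hx.1).2 hx.2
      rw [h1, h2, card_empty]
  let Q := Quotient (Perm.SameCycle.setoid s)
  let m : T → Q := fun t => Quotient.mk _ t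
  have hm : ∀ t x : T, m x = m t ↔ s.SameCycle t x := by
    intro t x
    refine Quotient.eq.trans ?_
    exact ⟨fun h => h.symm, fun h => h.symm⟩
  have h1 : cAx e = ∑ q : Q, (univ.filter fun x => m x = q ∧ e x = x).card := by
    rw [cAx, card_eq_sum_card_fiberwise (f := m) (t := univ) (fun x _ => mem_coe.2 (mem_univ _))]
    refine sum_congr rfl fun q _ => ?_
    rw [filter_filter]
    congr 1
    ext x
    simp only [mem_filter, mem_univ, true_and]
    tauto
  have h2 : cBis s e = ∑ q : Q, (univ.filter fun x => m x = q ∧ e x = s x).card := by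
    rw [cBis, card_eq_sum_card_fiberwise (f := m) (t := univ) (fun x _ => mem_coe.2 (mem_univ _))]
    refine sum_congr rfl fun q _ => ?_
    rw [filter_filter]
    congr 1
    ext x
    simp only [mem_filter, mem_univ, true_and]
    tauto
  have h3 : ∀ q : Q, (univ.filter fun x => m x = q ∧ e x = x).card +
      (univ.filter fun x => m x = q ∧ e x = s x).card =
        if (∃ t, q = m t ∧ s.SameCycle t (e t)) then 2 else 0 := by
    intro q
    obtain ⟨t, rfl⟩ : ∃ t, m t = q := Quotient.exists_rep q
    have h6 : (univ.filter fun x => m x = m t ∧ e x = x).card +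
      (univ.filter fun x => m x = m t ∧ e x = s x).card =
        if s.SameCycle t (e t) then 2 else 0 := by
      simp only [hm]
      exact key t
    rw [h6]
    have h4 : (∃ t', m t = m t' ∧ s.SameCycle t' (e t')) ↔ s.SameCycle t (e t) := by
      constructor
      · rintro ⟨t', h, h'⟩
        have h5 := (hm t' t).1 h
        exact h5.symm.trans (h'.trans (CycInv_map hes h5))
      · intro h
        exact ⟨t, rfl, h⟩
    by_cases h : s.SameCycle t (e t)
    · rw [if_pos h, if_pos (h4.2 h)]
    · rw [if_neg h, if_neg (fun h' => h (h4.1 h'))]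
  rw [h1, h2, ← sum_add_distrib, sum_congr rfl fun q _ => h3 q, ← sum_filter, sum_const, smul_eq_mul,
    mul_comm, nFix, Nat.card_eq_fintype_card, Fintype.card_subtype]

/-- `e` acts on the set of cycles as an involution with `nFix s e` fixed points -/
theorem nV_parity (hes : ∀ t, s (e (s t)) = e t) (hee : ∀ t, e (e t) = t) :
    ∃ p, nV s = nFix s e + 2 * p := by
  classical
  let Q := Quotient (Perm.SameCycle.setoid s)
  let E : Q → Q := Quotient.map e fun t x h => CycInv_map hes h
  have hE : ∀ t : T, E (Quotient.mk _ t) = Quotient.mk _ (e t) := fun t => rfl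
  have hEE : ∀ q, E (E q) = q := by
    intro q
    obtain ⟨t, rfl⟩ : ∃ t, Quotient.mk _ t = q := Quotient.exists_rep q
    rw [hE, hE, hee]
  let E' : Function.End Q := E
  have hf : E' ^ 2 ^ 1 = 1 := by
    funext q
    exact hEE q
  have h1 := Equiv.Perm.card_fixedPoints_modEq (p := 2) (n := 1) (f := E') hf
  have h2 : Fintype.card (Function.fixedPoints E) = nFix s e := by
    rw [nFix, Nat.card_eq_fintype_card]
    refine Fintype.card_congr (Equiv.subtypeEquivRight fun q => ?_)
    constructor
    · intro h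
      obtain ⟨t, rfl⟩ : ∃ t, Quotient.mk _ t = q := Quotient.exists_rep q
      refine ⟨t, rfl, ?_⟩
      have h3 : E (Quotient.mk _ t) = Quotient.mk _ t := h
      rw [hE] at h3
      exact (Quotient.exact h3).symm
    · rintro ⟨t, rfl, h⟩
      show E (Quotient.mk _ t) = Quotient.mk _ t
      rw [hE]
      exact Quotient.sound h.symm
  have h3 : Fintype.card (Function.fixedPoints E) ≤ Fintype.card Q :=
    Fintype.card_subtype_le _
  rw [h2] at h3
  have h4 : nV s = Fintype.card Q := Nat.card_eq_fintype_card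
  have h5 : Fintype.card Q ≡ nFix s e [MOD 2] := by
    rw [← h2]; exact h1
  rw [Nat.ModEq] at h5
  refine ⟨(nV s - nFix s e) / 2, ?_⟩
  rw [h4]
  omega

end

end PGr

end

section
/-! # Module Axis: the axis of a reflection separates the map and is connected -/

set_option linter.unusedSectionVars false

namespace PGr
open Equiv Finset

section
variable {T : Type*} [Fintype T] [DecidableEq T] {a s e : Perm T}

/-- the dual reflection -/
theorem Refl.dual (hinv : ∀ t, a (a t) = t) (h : Refl a s e) : Refl a (a * s) (a * e) := by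
  refine ⟨fun t => ?_, fun t => ?_, fun t => ?_⟩
  · simp only [Perm.mul_apply, h.ea]
  · simp only [Perm.mul_apply, h.ea, hinv, h.es]
  · simp only [Perm.mul_apply, h.ea, hinv, h.ee]

theorem Axis_const (h : NS a s) {F : T → ZMod 2} (hs : ∀ t, F (s t) = F t)
    (ha : ∀ t, F (a t) = F t) (t t' : T) : F t = F t' := by
  classical
  obtain ⟨A, hA⟩ : ∃ A : Finset T, A = univ.filter fun x => F x = F t := ⟨_, rfl⟩
  have hcl : Cl a A := by
    intro x
    simp only [hA, mem_filter, mem_univ, true_and, ha]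
  have hcut : cut s A = 0 := by
    rw [cut, card_eq_zero, bd, filter_eq_empty_iff]
    intro x _
    simp only [hA, mem_filter, mem_univ, true_and, hs, not_true_eq_false, not_false_eq_true]
  by_contra hne
  have h1 : A ≠ univ := by
    intro hu
    have : t' ∈ A := hu ▸ mem_univ t'
    rw [hA, mem_filter] at this
    exact hne this.2.symm
  have := h A hcl ⟨t, by simp [hA]⟩ h1
  omega

theorem Axis_inv {f : Perm T} {F : T → ZMod 2} (hs : ∀ t, F (f t) = F t) {t x : T}
    (h : f.SameCycle t x) : F x = F t := by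
  obtain ⟨n, rfl⟩ := PlSum.exists_pow f h
  induction n with
  | zero => simp
  | succ n ih =>
    rw [pow_succ', Perm.mul_apply, hs]
    exact ih ⟨n, by simp⟩

/-- `α` is a 0/1 label of vertices, `β` of faces (`β t` for the face of the corner `t`), which agree along the
axis.
Proof (all in `ZMod 2`; write `ax t, cr t, bis t` for the indicators of `e t = t`, `e t = a t`, `e t = s t`).
Choose a set `R` of darts with exactly one dart of every edge with `e t = t` or `e t = a t` and no other darts; `ρ` its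
indicator, so `ρ (a t) = ρ t + ax t + cr t`.  Let `m t = α t` if `ax t`, `β t` if `cr t` (0 otherwise), `m (a t) = m t` by
`h2`, `h3`; `ρ' = ρ m`.  Let `j t = bis t α t + ρ' t + ρ' (s t) + ax (s t) α (s t)`.
Sum over a cycle of `s`: `ρ'` telescopes, `α` is constant, the rest is `α (Σ bis + Σ ax) = 0` by `cyc_even`.
Sum over a cycle of `a * s`: with `y = a (s t)`: `ρ' (s t) = ρ' (a y) = ρ' y + (ax y + cr y) m y`,
`ax (s t) α (s t) = ax (a y) α (a y) = ax y α y`, so the sum is `Σ bis t α t + Σ cr t β t = β (Σ bis + Σ cr)` (by `h1`), which is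
0 by `cyc_even` for `a * s`, `a * e` (`(a e) t = t` iff `cr t`, `(a e) t = a (s t)` iff `bis t`).
`Pl_iff_sums` gives `h`; put `g = h + ρ'`: the first two claims.  `f t := g t + g (e t)`:
`f (s t) = f t + ax t α t + ax (s t) α (s t)` (with `y = s⁻¹ (e t)`: `g (e (s t)) = g y`,
`g (e t) = g (s y) = g y + bis y α y + ax (e t) α (e t)`, `bis y = bis t` and `y = t` if `bis t`) and `f (a t) = f t`.  So
`f + ax α` is invariant under `s` and `a`, hence constant, `= κ` (the orbit of a dart is closed, has cut 0, `NS`).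
At a dart with `ax t`: `f t = 0`; with `cr t`: `f t = g t + g (a t) = β t`; with `bis t`: `f t = g t + g (s t) = α t`
(`ax (s t) = 0` as `s t ≠ t`: `e (s t) = t`). -/
theorem axis_lemma (h : Good a s) (he : Refl a s e) (α β : T → ZMod 2)
    (hα : ∀ t, α (s t) = α t) (hβ : ∀ t, β (a (s t)) = β t)
    (h1 : ∀ t, e t = s t → α t = β t) (h2 : ∀ t, e t = t → α (a t) = α t)
    (h3 : ∀ t, e t = a t → β (a t) = β t) :
    ∃ (g : T → ZMod 2) (κ : ZMod 2),
      (∀ t, g (s t) = g t + (if e t = s t then α t else 0) + (if e (s t) = s t then α t else 0)) ∧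
      (∀ t, g (a t) = g t + (if e t = t then α t else 0) + (if e t = a t then β t else 0)) ∧
      (∀ t, g (e t) = g t + κ + (if e t = t then α t else 0)) ∧
      (∀ t, e t = s t → α t = κ) ∧ (∀ t, e t = t → α t = κ) ∧ (∀ t, e t = a t → β t = κ) := by
  classical
  have two : (2 : ZMod 2) = 0 := rfl
  -- the terms
  obtain ⟨b, hb⟩ : ∃ b : T → ZMod 2, ∀ t, b t = if e t = s t then α t else 0 := ⟨_, fun _ => rfl⟩
  obtain ⟨c, hc⟩ : ∃ c : T → ZMod 2, ∀ t, c t = if e t = t then α t else 0 := ⟨_, fun _ => rfl⟩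
  obtain ⟨d, hd⟩ : ∃ d : T → ZMod 2, ∀ t, d t = if e t = a t then β t else 0 := ⟨_, fun _ => rfl⟩
  -- a choice of darts
  obtain ⟨ρ, hρ⟩ : ∃ ρ : T → ZMod 2, ∀ t, ρ (a t) = ρ t + 1 := by
    refine ⟨fun t => if Fintype.equivFin T t < Fintype.equivFin T (a t) then 1 else 0, fun t => ?_⟩
    simp only [h.inv]
    have hne : Fintype.equivFin T t ≠ Fintype.equivFin T (a t) := fun h' =>
      h.fpf t ((Fintype.equivFin T).injective h').symm
    rcases lt_or_gt_of_ne hne with h' | h'
    · rw [if_neg (not_lt.mpr h'.le), if_pos h']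
      rfl
    · rw [if_pos h', if_neg (not_lt.mpr h'.le)]
      rfl
  have hfx : ∀ t, e (a t) = a t ↔ e t = t := fun t => by rw [he.ea]; exact a.injective.eq_iff
  have hcx : ∀ t, e (a t) = a (a t) ↔ e t = a t := fun t => by rw [he.ea]; exact a.injective.eq_iff
  have hca : ∀ t, c (a t) = c t := by
    intro t
    rw [hc, hc]
    by_cases h' : e t = t
    · rw [if_pos ((hfx t).mpr h'), if_pos h', h2 t h']
    · rw [if_neg (fun h'' => h' ((hfx t).mp h'')), if_neg h']
  have hda : ∀ t, d (a t) = d t := by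
    intro t
    rw [hd, hd]
    by_cases h' : e t = a t
    · rw [if_pos ((hcx t).mpr h'), if_pos h', h3 t h']
    · rw [if_neg (fun h'' => h' ((hcx t).mp h'')), if_neg h']
  have hce : ∀ t, c (e t) = c t := by
    intro t
    rw [hc, hc, he.ee]
    by_cases h' : e t = t
    · rw [if_pos h'.symm, if_pos h', h']
    · rw [if_neg (fun h'' => h' h''.symm), if_neg h']
  have hde : ∀ t, d (e t) = d t := by
    intro t
    by_cases h' : e t = a t
    · rw [h', hda]
    · rw [hd, hd, if_neg h', if_neg]
      intro h''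
      rw [he.ee] at h''
      exact h' (by rw [← h.inv (e t), ← h''])
  have hbe : ∀ t, b (e (s t)) = b t := by
    intro t
    by_cases h' : e t = s t
    · rw [← h', he.ee]
    · rw [hb, hb, if_neg h', if_neg]
      intro h''
      rw [he.ee, he.es] at h''
      exact h' h''.symm
  obtain ⟨ρ', hρ'⟩ : ∃ ρ' : T → ZMod 2, ∀ t, ρ' t = ρ t * (c t + d t) := ⟨_, fun _ => rfl⟩
  have hρa : ∀ t, ρ' (a t) = ρ' t + (c t + d t) := by
    intro t
    rw [hρ', hρ', hρ, hca, hda]
    ring
  -- the even function
  obtain ⟨p, hp1, hp2⟩ := (Pl_iff_sums h.inv).mp h.pl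
    (fun t => b t + ρ' t + ρ' (s t) + c (s t)) (by
      intro t
      have e1 : ∀ x ∈ univ.filter (fun x => s.SameCycle t x), b x + ρ' x + ρ' (s x) + c (s x) =
          α t * ((if e x = x then 1 else 0) + (if e x = s x then 1 else 0)) +
            ((ρ' x + ρ' (s x)) + (c x + c (s x))) := by
        intro x hx
        have h4 : α x = α t := Axis_inv hα (mem_filter.mp hx).2
        have h5 : c x = α t * (if e x = x then 1 else 0) := by
          rw [hc, h4]; split_ifs <;> simp
        have h6 : b x = α t * (if e x = s x then 1 else 0) := by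
          rw [hb, h4]; split_ifs <;> simp
        rw [h6]
        linear_combination h5 - c x * two
      rw [sum_congr rfl e1, sum_add_distrib, sum_add_distrib, sum_cycle_eq_zero,
        sum_cycle_eq_zero, ← mul_sum, cyc_even he.es he.ee]
      simp) (by
      intro t
      have e1 : ∀ x ∈ univ.filter (fun x => (a * s).SameCycle t x),
          b x + ρ' x + ρ' (s x) + c (s x) =
          β t * ((if (a * e) x = x then 1 else 0) + (if (a * e) x = (a * s) x then 1 else 0)) +
            ((ρ' x + ρ' ((a * s) x)) + (d x + d ((a * s) x))) := by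
        intro x hx
        have h4 : β x = β t := Axis_inv (f := a * s) hβ (mem_filter.mp hx).2
        have h5 : d x = β t * (if (a * e) x = x then 1 else 0) := by
          rw [hd, h4]
          have : (a * e) x = x ↔ e x = a x := by
            rw [Perm.mul_apply]
            constructor
            · intro h'; rw [← h.inv (e x), h']
            · intro h'; rw [h', h.inv]
          simp only [this]
          split_ifs <;> simp
        have h6 : b x = β t * (if (a * e) x = (a * s) x then 1 else 0) := by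
          rw [hb]
          have : (a * e) x = (a * s) x ↔ e x = s x := a.injective.eq_iff
          simp only [this]
          split_ifs with h'
          · rw [h1 x h', h4]; simp
          · simp
        have h7 := hρa (s x)
        have h8 := hda (s x)
        rw [h6]
        simp only [Perm.mul_apply] at *
        linear_combination h5 - h7 - h8 - d x * two - d (s x) * two
      rw [sum_congr rfl e1, sum_add_distrib, sum_add_distrib, sum_cycle_eq_zero,
        sum_cycle_eq_zero, ← mul_sum, cyc_even (s := a * s) (e := a * e)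
          (he.dual h.inv).es (he.dual h.inv).ee]
      simp)
  obtain ⟨g, hg⟩ : ∃ g : T → ZMod 2, ∀ t, g t = p t + ρ' t := ⟨_, fun _ => rfl⟩
  have hgs : ∀ t, g (s t) = g t + b t + c (s t) := by
    intro t
    have := hp2 t
    rw [hg, hg]
    linear_combination this + (ρ' (s t) - p t) * two
  have hga : ∀ t, g (a t) = g t + (c t + d t) := by
    intro t
    rw [hg, hg, hp1, hρa]
    ring
  -- the constant
  obtain ⟨F, hF⟩ : ∃ F : T → ZMod 2, ∀ t, F t = g t + g (e t) + c t := ⟨_, fun _ => rfl⟩
  have hFs : ∀ t, F (s t) = F t := by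
    intro t
    have k1 := hgs t
    have k2 := hgs (e (s t))
    rw [he.es, hbe, hce] at k2
    rw [hF, hF]
    linear_combination k1 - k2 + (c (s t) - c t) * two
  have hFa : ∀ t, F (a t) = F t := by
    intro t
    have k1 := hga t
    have k2 := hga (e t)
    rw [hce, hde] at k2
    rw [hF, hF, he.ea, hca]
    linear_combination k1 + k2 + (c t + d t) * two
  have hne : Nonempty T := Fintype.card_pos_iff.mp (by have := h.big; omega)
  obtain ⟨t0⟩ := hne
  have hk : ∀ t, F t = F t0 := fun t => Axis_const h.ns hFs hFa t t0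
  have hcs : ∀ t, c (s t) = if e (s t) = s t then α t else 0 := by
    intro t
    rw [hc]
    split_ifs
    · exact hα t
    · rfl
  refine ⟨g, F t0, fun t => ?_, fun t => ?_, fun t => ?_, fun t ht => ?_, fun t ht => ?_,
    fun t ht => ?_⟩
  · rw [← hb, ← hcs]; exact hgs t
  · rw [← hc, ← hd, add_assoc]; exact hga t
  · have := hk t
    rw [hF] at this
    rw [← hc]
    linear_combination this - (g t + c t) * two
  · have h4 : e (s t) ≠ s t := by
      rw [← ht, he.ee]
      intro h'
      exact h.s_ne t (ht.symm.trans h'.symm)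
    have h5 : e t ≠ t := by rw [ht]; exact h.s_ne t
    rw [← hk t, hF, hc, if_neg h5, ht, hgs t, hcs, if_neg h4, hb, if_pos ht]
    linear_combination -(g t) * two
  · rw [← hk t, hF, hc, if_pos ht, ht]
    linear_combination -(g t) * two
  · have h5 : e t ≠ t := by rw [ht]; exact h.fpf t
    rw [← hk t, hF, hc, if_neg h5, ht, hga t, hc, if_neg h5, hd, if_pos ht]
    linear_combination -(g t) * two

/-- `axis_lemma` with `α = β = 1`; add a constant to `g` -/
theorem side_exists (h : Good a s) (he : Refl a s e)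
    (hx : ∃ t, e t = t ∨ e t = a t ∨ e t = s t) (r : T) (c : ZMod 2) :
    ∃ g, Side a s e g ∧ g r = c := by
  obtain ⟨g, κ, g1, g2, g3, g4, g5, g6⟩ := axis_lemma h he (fun _ => 1) (fun _ => 1)
    (fun _ => rfl) (fun _ => rfl) (fun _ _ => rfl) (fun _ _ => rfl) (fun _ _ => rfl)
  have hκ : κ = 1 := by
    obtain ⟨t, ht | ht | ht⟩ := hx
    · exact (g5 t ht).symm
    · exact (g6 t ht).symm
    · exact (g4 t ht).symm
  subst hκ
  refine ⟨fun t => g t + (c - g r), ⟨fun t => ?_, fun t => ?_, fun t => ?_⟩, by simp⟩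
  · rw [g1 t]; ring
  · rw [g2 t]; ring
  · rw [g3 t]; ring

/-- the difference is invariant under `s` and `a` -/
theorem side_unique (h : Good a s) {g g' : T → ZMod 2} (h1 : Side a s e g) (h2 : Side a s e g')
    {r : T} (hr : g r = g' r) : g = g' := by
  funext t
  have := Axis_const h.ns (F := fun t => g t - g' t)
    (fun t => by rw [h1.gs, h2.gs]; ring)
    (fun t => by rw [h1.ga, h2.ga]; ring) t r
  simp only [hr, sub_self] at this
  exact sub_eq_zero.mp this

end

end PGr

end

section
/-! # Module DblA: the double of a half map, with its reflection -/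

set_option linter.unusedSectionVars false

namespace PGr
open Equiv Finset

section
variable {T : Type} [Fintype T] [DecidableEq T] {a s : Perm T} {r : T} {μ : T → Ltr}

/-- a corner with a letter different from `J` is not followed by ... the dart itself is not on the axis, except
letter `C` (`Mark.cc`) -/
theorem Mark.ce (hM : Mark a s r μ) {t : T} (h1 : μ t ≠ .J) (h2 : μ t ≠ .C) : ¬ CE a μ t := by
  rintro (h | h)
  · exact h2 h
  · exact hM.cc t h1 h

/-- two corners of the root face at one vertex are equal -/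
theorem DblA_np (hH : HH a s r) (hM : Mark a s r μ) {t t' : T} (hc : s.SameCycle t t')
    (h1 : μ t ≠ .J) (h2 : μ t' ≠ .J) : t = t' := by
  by_contra hne
  exact hH.np t t' hne hc (hM.dom t h1) (hM.dom t' h2)

/-- if `s t` is on the axis and `μ t` is `J` or `X` then `μ (s t) = C` (`Mark.next`), and `X` is impossible:
`t` and `s t` would be two corners of the root face at one vertex (`HH.np`); `s t ≠ t` as `μ t ≠ C` -/
theorem Mark.ce_s (hH : HH a s r) (hM : Mark a s r μ) {t : T} (h1 : μ t = .J ∨ μ t = .X)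
    (h2 : CE a μ (s t)) : μ t = .J ∧ μ (s t) = .C := by
  have h3 : μ (s t) = .C := by
    rcases h2 with h2 | h2
    · exact h2
    · exact absurd h2 (hM.next t h1)
  refine ⟨?_, h3⟩
  rcases h1 with h1 | h1
  · exact h1
  · exfalso
    have h4 : t = s t := DblA_np hH hM (Perm.sameCycle_apply_right.2 (Perm.SameCycle.refl s t))
      (by rw [h1]; decide) (by rw [h3]; decide)
    rw [← h4, h1] at h3
    exact absurd h3 (by decide)

/-- the corner before a corner with letter `C` has letter `J` (`HH.np`).  If `s⁻¹ t = t` then `{t, a t}` is closed and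
...: `s t = t` is impossible: by `NS` if there are other edges; if there are none, `a t` is the next corner of the root
face, `μ (a t) ≠ C` by `cc` (for `t`) and `μ (a t) ∉ {J, X}` by `next` (for `a t`: `a (s (a t)) = t` as `s (a t) = a t`), so
`μ (a t) = G`, contradiction with `cc` for `a t` -/
theorem Mark.prev_C (hH : HH a s r) (hM : Mark a s r μ) {t : T} (h : μ t = .C) :
    s.symm t ≠ t ∧ μ (s.symm t) = .J := by
  have hne : s.symm t ≠ t := by
    intro h0
    have hst : s t = t := by
      rw [Equiv.symm_apply_eq] at h0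
      exact h0.symm
    have hcut : cut s {t, a t} ≤ 2 := by
      have hsub : bd s {t, a t} ⊆ {a t, s.symm (a t)} := by
        intro x hx
        rw [mem_bd] at hx
        rw [mem_insert, mem_singleton]
        by_cases h1 : x ∈ ({t, a t} : Finset T)
        · left
          rw [mem_insert, mem_singleton] at h1
          rcases h1 with h1 | h1
          · exfalso
            apply hx
            rw [h1, hst]
          · exact h1
        · right
          have h2 : s x ∈ ({t, a t} : Finset T) := by
            by_contra h3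
            exact hx ⟨fun h => absurd h h1, fun h => absurd h h3⟩
          rw [mem_insert, mem_singleton] at h2
          rcases h2 with h2 | h2
          · exfalso
            apply h1
            have h3 : x = t := s.injective (by rw [h2, hst])
            rw [h3]
            exact mem_insert_self _ _
          · rw [← h2, Equiv.symm_apply_apply]
      exact (card_le_card hsub).trans card_le_two
    have huniv : ({t, a t} : Finset T) = univ := by
      by_contra hne
      have h4 := hH.ns {t, a t} (Cl_pair hH.inv t) ⟨t, mem_insert_self _ _⟩ hne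
      omega
    have hsat : s (a t) = a t := by
      have h1 : s (a t) ∈ ({t, a t} : Finset T) := by rw [huniv]; exact mem_univ _
      rw [mem_insert, mem_singleton] at h1
      rcases h1 with h1 | h1
      · exfalso
        have h2 : a t = t := s.injective (by rw [h1, hst])
        exact hH.fpf t h2
      · exact h1
    have hat : μ (a t) ≠ .C := hM.cc t (by rw [h]; decide)
    have hnx := hM.next (a t)
    rw [hsat, hH.inv] at hnx
    have hcc := hM.cc (a t)
    rw [hH.inv] at hcc
    cases h5 : μ (a t) with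
    | C => exact hat h5
    | J => exact hnx (Or.inl h5) h
    | X => exact hnx (Or.inr h5) h
    | G => exact hcc (by rw [h5]; decide) h
  refine ⟨hne, ?_⟩
  by_contra hJ
  apply hne
  refine DblA_np hH hM ?_ hJ (by rw [h]; decide)
  have h1 : s.SameCycle (s.symm t) (s (s.symm t)) :=
    Perm.sameCycle_apply_right.2 (Perm.SameCycle.refl s _)
  rwa [Equiv.apply_symm_apply] at h1

/-! ### values of the two match expressions -/

theorem DblA_sup_J {t : T} (h : μ t = .J) : dSup a s μ t = Sum.inl (s t) := by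
  unfold dSup
  split <;> rename_i h' <;> first | rfl | (rw [h] at h'; exact absurd h' (by decide))
theorem DblA_sup_G {t : T} (h : μ t = .G) : dSup a s μ t = dlo a μ t := by
  unfold dSup
  split <;> rename_i h' <;> first | rfl | (rw [h] at h'; exact absurd h' (by decide))
theorem DblA_sup_X {t : T} (h : μ t = .X) : dSup a s μ t = Sum.inr (Sum.inr (⟨t, h⟩, true)) := by
  unfold dSup
  split <;> rename_i h' <;> first | rfl | (rw [h] at h'; exact absurd h' (by decide))
theorem DblA_sup_C {t : T} (h : μ t = .C) : dSup a s μ t = dlo a μ (s.symm t) := by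
  unfold dSup
  split <;> rename_i h' <;> first | rfl | (rw [h] at h'; exact absurd h' (by decide))
theorem DblA_slo_J {t : T} (h : μ t = .J) : dSlo a s μ t = dlo a μ t := by
  unfold dSlo
  split <;> rename_i h' <;> first | rfl | (rw [h] at h'; exact absurd h' (by decide))
theorem DblA_slo_X {t : T} (h : μ t = .X) : dSlo a s μ t = Sum.inr (Sum.inr (⟨t, h⟩, false)) := by
  unfold dSlo
  split <;> rename_i h' <;> first | rfl | (rw [h] at h'; exact absurd h' (by decide))
theorem DblA_slo_GC {t : T} (h : μ t = .G ∨ μ t = .C) : dSlo a s μ t = Sum.inl (s t) := by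
  unfold dSlo
  rcases h with h | h <;> split <;> rename_i h' <;>
    first | rfl | (rw [h] at h'; exact absurd h' (by decide))

theorem DblA_E_lo (t : T) : dEf a μ (dlo a μ t) = Sum.inl t := by
  have h := dEf_inv a μ (Sum.inl t)
  exact h

/-- the dart after the lower copy of `s t` -/
theorem DblA_S_lo {t : T} (h : ¬ CE a μ (s t)) : dSf a s μ (dlo a μ (s t)) = dSlo a s μ t := by
  rw [dlo_neg a μ h]
  show dSlo a s μ (s.symm (s t)) = dSlo a s μ t
  rw [Equiv.symm_apply_apply]

/-- the reflection identity, by cases (the proof is in the docstring of this module's text):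
`up t`: `J`: if `s t` is on the axis, `μ (s t) = C` (`ce_s`) and the dart after `s t` is the lower copy of `t`, otherwise
the dart after the lower copy of `s t` is the lower copy of `t`; `G`: the lower copy of `t`; `X`: the lower crossing
dart, then the lower copy of `t`; `C`: the dart after `up (s⁻¹ t)` is `up t` (`prev_C`).
lower copy of `t`, `t' = s⁻¹ t`: `J`: `up t'`, then `up t`; `X`: upper crossing dart, `up t`; `G`, `C`: the dart is
`up t`, its image is the lower copy of `t`, followed by `up t`.  Crossing darts: similar. -/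
theorem dSf_refl (hH : HH a s r) (hM : Mark a s r μ) (z : DT a μ) :
    dSf a s μ (dEf a μ (dSf a s μ z)) = dEf a μ z := by
  rcases z with t | t | ⟨t, b⟩
  · show dSf a s μ (dEf a μ (dSup a s μ t)) = dlo a μ t
    cases h : μ t with
    | J =>
      rw [DblA_sup_J h]
      show dSf a s μ (dlo a μ (s t)) = dlo a μ t
      by_cases hc : CE a μ (s t)
      · rw [dlo_pos a μ hc]
        show dSup a s μ (s t) = dlo a μ t
        rw [DblA_sup_C (hM.ce_s hH (Or.inl h) hc).2, Equiv.symm_apply_apply]
      · rw [DblA_S_lo hc, DblA_slo_J h]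
    | G =>
      rw [DblA_sup_G h, DblA_E_lo]
      exact DblA_sup_G h
    | X =>
      rw [DblA_sup_X h]
      rfl
    | C =>
      rw [DblA_sup_C h, DblA_E_lo]
      show dSup a s μ (s.symm t) = dlo a μ t
      rw [DblA_sup_J (hM.prev_C hH h).2, Equiv.apply_symm_apply, dlo_pos a μ (Or.inl h)]
  · obtain ⟨t, ht⟩ := t
    show dSf a s μ (dEf a μ (dSlo a s μ (s.symm t))) = Sum.inl t
    cases h : μ (s.symm t) with
    | J =>
      rw [DblA_slo_J h, DblA_E_lo]
      show dSup a s μ (s.symm t) = Sum.inl t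
      rw [DblA_sup_J h, Equiv.apply_symm_apply]
    | X =>
      rw [DblA_slo_X h]
      show Sum.inl (s (s.symm t)) = Sum.inl t
      rw [Equiv.apply_symm_apply]
    | G =>
      rw [DblA_slo_GC (Or.inl h), Equiv.apply_symm_apply]
      show dSf a s μ (dlo a μ t) = Sum.inl t
      have h2 : ¬ CE a μ (s (s.symm t)) := by rwa [Equiv.apply_symm_apply]
      have h3 := DblA_S_lo (a := a) (s := s) h2
      rw [Equiv.apply_symm_apply] at h3
      rw [h3, DblA_slo_GC (Or.inl h), Equiv.apply_symm_apply]
    | C =>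
      rw [DblA_slo_GC (Or.inr h), Equiv.apply_symm_apply]
      show dSf a s μ (dlo a μ t) = Sum.inl t
      have h2 : ¬ CE a μ (s (s.symm t)) := by rwa [Equiv.apply_symm_apply]
      have h3 := DblA_S_lo (a := a) (s := s) h2
      rw [Equiv.apply_symm_apply] at h3
      rw [h3, DblA_slo_GC (Or.inr h), Equiv.apply_symm_apply]
  · obtain ⟨t, ht⟩ := t
    cases b with
    | true =>
      show dSf a s μ (dlo a μ (s t)) = Sum.inr (Sum.inr (⟨t, ht⟩, false))
      have hc : ¬ CE a μ (s t) := by
        intro hc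
        have h1 := (hM.ce_s hH (Or.inr ht) hc).1
        rw [ht] at h1
        exact absurd h1 (by decide)
      rw [DblA_S_lo hc, DblA_slo_X ht]
    | false =>
      show dSf a s μ (dEf a μ (dlo a μ t)) = Sum.inr (Sum.inr (⟨t, ht⟩, true))
      rw [DblA_E_lo]
      exact DblA_sup_X ht

/-- rotation of the double, as a permutation -/
def dS (hH : HH a s r) (hM : Mark a s r μ) : Perm (DT a μ) where
  toFun := dSf a s μ
  invFun z := dEf a μ (dSf a s μ (dEf a μ z))
  left_inv z := by
    show dEf a μ (dSf a s μ (dEf a μ (dSf a s μ z))) = z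
    rw [dSf_refl hH hM, dEf_inv]
  right_inv z := by
    show dSf a s μ (dEf a μ (dSf a s μ (dEf a μ z))) = z
    rw [dSf_refl hH hM, dEf_inv]

theorem dS_apply (hH : HH a s r) (hM : Mark a s r μ) (z : DT a μ) :
    dS hH hM z = dSf a s μ z := rfl

theorem DblA_CE_a (hinv : ∀ t, a (a t) = t) (t : T) : CE a μ (a t) ↔ CE a μ t := by
  unfold CE
  rw [hinv]
  exact or_comm

theorem dRefl (hH : HH a s r) (hM : Mark a s r μ) : Refl (dA a μ hH.inv) (dS hH hM) (dE a μ) := by
  refine ⟨?_, ?_, ?_⟩
  · intro z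
    show dEf a μ (dAf a μ hH.inv z) = dAf a μ hH.inv (dEf a μ z)
    rcases z with t | t | ⟨t, b⟩
    · show dlo a μ (a t) = dAf a μ hH.inv (dlo a μ t)
      by_cases h : CE a μ t
      · rw [dlo_pos a μ h, dlo_pos a μ ((DblA_CE_a hH.inv t).2 h)]
        rfl
      · rw [dlo_neg a μ h, dlo_neg a μ (fun h' => h ((DblA_CE_a hH.inv t).1 h'))]
        rfl
    · rfl
    · rfl
  · intro z
    exact dSf_refl hH hM z
  · intro z
    exact dEf_inv a μ z

theorem dA_fpf (hH : HH a s r) (z : DT a μ) : dA a μ hH.inv z ≠ z := by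
  rcases z with t | t | ⟨t, b⟩
  · intro h
    exact hH.fpf t (Sum.inl.inj h)
  · intro h
    exact hH.fpf t.1 (congrArg Subtype.val (Sum.inl.inj (Sum.inr.inj h)))
  · intro h
    have h1 := (Prod.mk.inj (Sum.inr.inj (Sum.inr.inj h))).2
    cases b <;> simp at h1

/-- basic values of the rotation -/
theorem dS_J (hH : HH a s r) (hM : Mark a s r μ) {t : T} (h : μ t = .J) :
    dS hH hM (dup a μ t) = dup a μ (s t) := DblA_sup_J h
theorem dS_G (hH : HH a s r) (hM : Mark a s r μ) {t : T} (h : μ t = .G) :
    dS hH hM (dup a μ t) = dlo a μ t := DblA_sup_G h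
theorem dS_X (hH : HH a s r) (hM : Mark a s r μ) {t : T} (h : μ t = .X) :
    dS hH hM (dup a μ t) = Sum.inr (Sum.inr (⟨t, h⟩, true)) := DblA_sup_X h
theorem dS_C (hH : HH a s r) (hM : Mark a s r μ) {t : T} (h : μ t = .C) :
    dS hH hM (dup a μ t) = dlo a μ (s.symm t) := DblA_sup_C h
theorem dS_xt (hH : HH a s r) (hM : Mark a s r μ) {t : T} (h : μ t = .X) :
    dS hH hM (Sum.inr (Sum.inr (⟨t, h⟩, true))) = dup a μ (s t) := rfl
theorem dS_xf (hH : HH a s r) (hM : Mark a s r μ) {t : T} (h : μ t = .X) :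
    dS hH hM (Sum.inr (Sum.inr (⟨t, h⟩, false))) = dlo a μ t := rfl
theorem dS_loJ (hH : HH a s r) (hM : Mark a s r μ) {t : T} (h : μ t = .J) (h' : ¬ CE a μ (s t)) :
    dS hH hM (dlo a μ (s t)) = dlo a μ t := by
  rw [dS_apply, DblA_S_lo h', DblA_slo_J h]
theorem dS_loX (hH : HH a s r) (hM : Mark a s r μ) {t : T} (h : μ t = .X) :
    dS hH hM (dlo a μ (s t)) = Sum.inr (Sum.inr (⟨t, h⟩, false)) := by
  have hc : ¬ CE a μ (s t) := by
    intro hc
    have h1 := (hM.ce_s hH (Or.inr h) hc).1
    rw [h] at h1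
    exact absurd h1 (by decide)
  rw [dS_apply, DblA_S_lo hc, DblA_slo_X h]
theorem dS_loGC (hH : HH a s r) (hM : Mark a s r μ) {t : T} (h : μ t = .G ∨ μ t = .C)
    (h' : ¬ CE a μ (s t)) : dS hH hM (dlo a μ (s t)) = dup a μ (s t) := by
  rw [dS_apply, DblA_S_lo h', DblA_slo_GC h]
theorem dE_up (t : T) : dE a μ (dup a μ t) = dlo a μ t := rfl
theorem dE_lo (t : T) : dE a μ (dlo a μ t) = dup a μ t := DblA_E_lo t

/-- first letter `G` or `C`, then `s t` on the axis means `μ (a (s t)) = C` -/
theorem Mark.ce_GC (hH : HH a s r) (hM : Mark a s r μ) {t : T} (h : μ t = .G ∨ μ t = .C)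
    (h' : CE a μ (s t)) : μ (a (s t)) = .C := by
  rcases h' with h' | h'
  · exfalso
    have h1 := (hM.prev_C hH h').2
    rw [Equiv.symm_apply_apply] at h1
    rcases h with h | h <;> rw [h] at h1 <;> exact absurd h1 (by decide)
  · exact h'

end

end PGr

end

section
/-! # Module DualR: the two pictures -/

set_option linter.unusedSectionVars false

namespace PGr
open Equiv Finset

section
variable {T : Type*} [Fintype T] [DecidableEq T] {a s e : Perm T} {r : T} {ty : Ltr}

theorem DualR_sum_int (f : Perm T) (p : T → ℤ) (t : T) :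
    ∑ x ∈ univ.filter (fun x => f.SameCycle t x), (p x - p (f x)) = 0 := by
  rw [sum_sub_distrib]
  have : ∑ x ∈ univ.filter (fun x => f.SameCycle t x), p (f x)
      = ∑ x ∈ univ.filter (fun x => f.SameCycle t x), p x := by
    apply Finset.sum_bij (fun x _ => f x)
    · intro x hx
      rw [mem_filter] at hx ⊢
      exact ⟨mem_univ _, Perm.sameCycle_apply_right.2 hx.2⟩
    · intro x _ y _ h; exact f.injective h
    · intro y hy
      rw [mem_filter] at hy
      refine ⟨f⁻¹ y, ?_, by simp⟩
      rw [mem_filter]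
      exact ⟨mem_univ _, hy.2.trans ⟨-1, by simp⟩⟩
    · intro x _; rfl
  rw [this, sub_self]

/-- the only two boundary corners of a cycle are of different kind -/
theorem DualR_two {f : Perm T} {A : Finset T} {x y : T} (hne : x ≠ y) (hxy : f.SameCycle x y)
    (hx : x ∈ bd f A) (hy : y ∈ bd f A)
    (honly : ∀ z, f.SameCycle x z → z ∈ bd f A → z = x ∨ z = y) : x ∈ A ↔ y ∉ A := by
  have h1 := DualR_sum_int f (fun t => if t ∈ A then (1 : ℤ) else 0) x
  have hsub : ({x, y} : Finset T) ⊆ univ.filter (fun z => f.SameCycle x z) := by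
    intro z hz
    simp only [mem_insert, mem_singleton] at hz
    rw [mem_filter]
    rcases hz with rfl | rfl
    · exact ⟨mem_univ _, Perm.SameCycle.refl _ _⟩
    · exact ⟨mem_univ _, hxy⟩
  rw [← sum_subset hsub, sum_pair hne] at h1
  · rw [mem_bd] at hx hy
    by_cases a1 : x ∈ A <;> by_cases a2 : f x ∈ A <;> by_cases a3 : y ∈ A <;>
      by_cases a4 : f y ∈ A <;> simp [a1, a2, a3, a4] at h1 hx hy ⊢
  · intro z hz hz'
    rw [mem_filter] at hz
    simp only [mem_insert, mem_singleton, not_or] at hz'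
    have : z ∉ bd f A := fun hb => by
      rcases honly z hz.2 hb with h | h
      · exact hz'.1 h
      · exact hz'.2 h
    rw [mem_bd, not_not] at this
    by_cases b1 : z ∈ A
    · simp [b1, this.mp b1]
    · have b2 : f z ∉ A := fun h => b1 (this.mpr h)
      simp [b1, b2]

theorem DualR_mem_iff (he : Refl a s e) {A : Finset T} (hi : ∀ t ∈ A, e t ∈ A) (t : T) :
    e t ∈ A ↔ t ∈ A :=
  ⟨fun h => by have := hi _ h; rwa [he.ee] at this, hi t⟩

/-- mirror image of a boundary corner -/
theorem DualR_mirror (he : Refl a s e) {A : Finset T} (hi : ∀ t ∈ A, e t ∈ A) {t : T}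
    (ht : t ∈ bd s A) : e (s t) ∈ bd s A ∧ e (s t) ≠ t ∧ (e (s t) ∈ A ↔ t ∉ A) := by
  have hm := DualR_mem_iff he hi
  rw [mem_bd] at ht
  refine ⟨?_, ?_, ?_⟩
  · rw [mem_bd, he.es, hm, hm]
    tauto
  · intro h0
    have h1 := he.es t
    rw [h0] at h1
    apply ht
    rw [h1, hm]
  · rw [hm]
    tauto

theorem DualR_sc (he : Refl a s e) (t : T) : s.SameCycle t (e (s t)) ↔ s.SameCycle t (e t) := by
  have h1 : s.SameCycle (e (s t)) (e t) := ⟨1, by simp [he.es]⟩
  exact ⟨fun h => h.trans h1, fun h => h.trans h1.symm⟩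

theorem DualR_fc (he : Refl a s e) (t : T) :
    (a * s).SameCycle t (e (s t)) ↔ (a * s).SameCycle t ((a * e) t) := by
  have h1 : (a * s).SameCycle (e (s t)) ((a * e) t) := ⟨1, by simp [Perm.mul_apply, he.es]⟩
  exact ⟨fun h => h.trans h1, fun h => h.trans h1.symm⟩

/-- `a (a x) = x` -/
theorem mty_iff (hinv : ∀ t, a (a t) = t) (he : Refl a s e) :
    MTy a s e r ty ↔ NTy a (a * s) (a * e) r ty := by
  have hinj : ∀ u v : T, a u = v ↔ u = a v := fun u v =>
    ⟨fun h => by rw [← h, hinv], fun h => by rw [h, hinv]⟩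
  cases ty
  · show e r = a r ↔ a (e r) = r
    rw [hinj]
  · exact Iff.rfl
  · show e r = s r ↔ a (e r) = a (s r)
    exact a.injective.eq_iff.symm
  · show (e (s r) = s r ∧ e r ≠ r) ↔ (a (e (a (s r))) = a (a (s r)) ∧ a (e r) ≠ a r)
    rw [he.ea, hinv, hinv, Ne, Ne, a.injective.eq_iff]

/-- Let `A` be closed, invariant, with cut 4.  The boundary corners for `s` and `a * s` are the same
(`Four.bd_dual`).  Every boundary corner `b` has a mirror image `b' = s⁻¹ (e b)`, also a boundary corner, at the vertex of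
`e b` and in the face of `a (e b)` (`(a * s) b' = a (e b)`); `b' ≠ b`, as otherwise `e b = s b`, `b ∈ A ↔ s b ∈ A`.
If all ends are fixed (`s.SameCycle b (e b)`) then `b, b'` are at one vertex, so in different faces (`noPinch`).
Conversely let `b` be a boundary corner with `¬ s.SameCycle b (e b)` and suppose the faces of `b` and `b'` are different.
By `two_shared` the 4 boundary corners are at two vertices, two at each of them: `b, c` at the vertex of `b`, `b', c'` at the
other one.  The face of `b` contains an even number of boundary corners, not `c` (`noPinch`), not `b'`, so it is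
`{b, c'}`.  Call a boundary corner `t` an entry if `t ∉ A`, `s t ∈ A`, an exit otherwise.  On a vertex and on a face entries and
exits have the same number (`a * s` and `s` have the same entries because `A` is closed).  `b'` is an exit iff `b` is an
entry, and the same for `c, c'`; `b, c` are an entry and an exit, so `b, c'` are both entries or both exits,
contradiction. -/
theorem ends_dual (h : Good a s) (he : Refl a s e) {A : Finset T} (hA : Cl a A)
    (hi : ∀ t ∈ A, e t ∈ A) (h4 : cut s A = 4) :
    (∀ t ∈ bd s A, s.SameCycle t (e t)) ↔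
      ∀ t ∈ bd (a * s) A, ¬ (a * s).SameCycle t ((a * e) t) := by
  rw [Four.bd_dual hA]
  constructor
  · intro hall t ht
    obtain ⟨_, h2, _⟩ := DualR_mirror he hi ht
    rw [← DualR_fc he]
    exact h.noPinch h2.symm ((DualR_sc he t).mpr (hall t ht))
  · intro hall b hb
    by_contra hcon
    rw [← DualR_sc he] at hcon
    have hb' := hall b hb
    rw [← DualR_fc he] at hb'
    obtain ⟨m1, m2, m3⟩ := DualR_mirror he hi hb
    set b' := e (s b) with hb'def
    obtain ⟨c, c1, c2, c3⟩ := Four.partner s hb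
    obtain ⟨c', d1, d2, d3⟩ := Four.partner s m1
    obtain ⟨d, e1, e2, e3⟩ := Four.partner (a * s) (A := A) (t := b)
      (by rw [Four.bd_dual hA]; exact hb)
    rw [Four.bd_dual hA] at e3
    have n1 : b ≠ c := c1.symm
    have n2 : b ≠ b' := m2.symm
    have n3 : b ≠ c' := fun h0 => hcon (h0 ▸ d2.symm)
    have n4 : c ≠ b' := fun h0 => hcon (h0 ▸ c2)
    have n5 : c ≠ c' := fun h0 => hcon (c2.trans (h0 ▸ d2.symm))
    have n6 : b' ≠ c' := d1.symm
    have hbd : bd s A = {b, c, b', c'} := by
      symm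
      apply Finset.eq_of_subset_of_card_le
      · intro z hz
        simp only [mem_insert, mem_singleton] at hz
        rcases hz with rfl | rfl | rfl | rfl
        · exact hb
        · exact c3
        · exact m1
        · exact d3
      · rw [cut] at h4
        rw [h4, card_insert_of_notMem, card_insert_of_notMem, card_pair n6]
        · simp [n4, n5]
        · simp [n1, n2, n3]
    -- vertex of `b'`
    have p1 : b' ∈ A ↔ c' ∉ A := by
      refine DualR_two n6 d2 m1 d3 fun z hz hzb => ?_
      rw [hbd] at hzb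
      simp only [mem_insert, mem_singleton] at hzb
      rcases hzb with rfl | rfl | rfl | rfl
      · exact absurd hz.symm hcon
      · exact absurd (c2.trans hz.symm) hcon
      · exact Or.inl rfl
      · exact Or.inr rfl
    have hdc : d = c' := by
      have h5 := e3
      rw [hbd] at h5
      simp only [mem_insert, mem_singleton] at h5
      rcases h5 with h5 | h5 | h5 | h5
      · exact absurd h5 e1
      · subst h5
        exact absurd e2 (h.noPinch n1 c2)
      · subst h5
        exact absurd e2 hb'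
      · exact h5
    rw [hdc] at e2
    have p2 : b ∈ A ↔ c' ∉ A := by
      refine DualR_two (f := a * s) n3 e2 ?_ ?_ fun z hz hzb => ?_
      · rw [Four.bd_dual hA]; exact hb
      · rw [Four.bd_dual hA]; exact d3
      rw [Four.bd_dual hA, hbd] at hzb
      simp only [mem_insert, mem_singleton] at hzb
      rcases hzb with rfl | rfl | rfl | rfl
      · exact Or.inl rfl
      · exact absurd hz (h.noPinch n1 c2)
      · exact absurd hz hb'
      · exact Or.inr rfl
    tauto

/-- the condition for one boundary corner implies it for all (used for `MRed`, `NRed`): the ends are two vertices,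
exchanged or both fixed -/
theorem ends_all (h : Good a s) (he : Refl a s e) {A : Finset T} (hA : Cl a A)
    (hi : ∀ t ∈ A, e t ∈ A) (h4 : cut s A = 4) :
    (∀ t ∈ bd s A, s.SameCycle t (e t)) ∨ ∀ t ∈ bd s A, ¬ s.SameCycle t (e t) := by
  by_contra hcon
  push Not at hcon
  obtain ⟨⟨c, hc, hc0⟩, b, hb, hb0⟩ := hcon
  rw [← DualR_sc he] at hc0
  obtain ⟨m1, m2, m3⟩ := DualR_mirror he hi hc
  set c' := e (s c) with hc'
  obtain ⟨b2, b3, b4, b5⟩ := Four.partner s hb
  obtain ⟨c2, c3, c4, c5⟩ := Four.partner s hc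
  have he' : ∀ u v, s.SameCycle u v → s.SameCycle (e u) (e v) := by
    rintro u v ⟨k, hk⟩
    refine ⟨-k, ?_⟩
    have key : ∀ (n : ℕ) (w : T), e ((s ^ n) w) = (s ^ n)⁻¹ (e w) := by
      intro n
      induction n with
      | zero => intro w; simp
      | succ n ih =>
        intro w
        have e1 : (s ^ (n + 1)) w = (s ^ n) (s w) := by rw [pow_succ, Perm.mul_apply]
        have e2 : (s ^ (n + 1))⁻¹ (e w) = (s ^ n)⁻¹ (s⁻¹ (e w)) := by
          rw [pow_succ', mul_inv_rev, Perm.mul_apply]
        have e3 : e (s w) = s⁻¹ (e w) := by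
          rw [Perm.eq_inv_iff_eq]; exact he.es w
        rw [e1, ih, e2, e3]
    rcases Int.eq_nat_or_neg k with ⟨n, rfl | rfl⟩
    · rw [← hk]
      rw [zpow_natCast, key]
      simp
    · have hu : u = (s ^ n) v := by
        rw [← hk]; simp
      rw [hu, key]
      simp
  have hfix : ∀ z, s.SameCycle b z → s.SameCycle z (e z) := fun z hz =>
    hz.symm.trans (hb0.trans (he' _ _ hz))
  have hbc : ∀ z, s.SameCycle b z → ¬ s.SameCycle c z := fun z hz hz' => by
    have h5 : s.SameCycle b c := hz.trans hz'.symm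
    have h6 := hfix c h5
    rw [← DualR_sc he] at h6
    exact hc0 h6
  have hbc' : ∀ z, s.SameCycle b z → ¬ s.SameCycle c' z := fun z hz hz' => by
    have h5 : s.SameCycle b c' := hz.trans hz'.symm
    have h6 : s.SameCycle c' (e c) := ⟨1, by simp [hc', he.es]⟩
    have h7 := hfix _ (h5.trans h6)
    rw [he.ee] at h7
    exact hc0 (h7.symm.trans h6.symm)
  have hsub : ({b, b2, c, c2, c'} : Finset T) ⊆ bd s A := by
    intro z hz
    simp only [mem_insert, mem_singleton] at hz
    rcases hz with rfl | rfl | rfl | rfl | rfl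
    · exact hb
    · exact b5
    · exact hc
    · exact c5
    · exact m1
  have hle := card_le_card hsub
  rw [cut] at h4
  have n1 : b ≠ b2 := b3.symm
  have n2 : b ≠ c := fun h0 => hbc b (Perm.SameCycle.refl _ _) (h0 ▸ Perm.SameCycle.refl _ _)
  have n3 : b ≠ c2 := fun h0 => hbc b (Perm.SameCycle.refl _ _) (h0 ▸ c4)
  have n4 : b ≠ c' := fun h0 => hbc' b (Perm.SameCycle.refl _ _) (h0 ▸ Perm.SameCycle.refl _ _)
  have n5 : b2 ≠ c := fun h0 => hbc b2 b4 (h0 ▸ Perm.SameCycle.refl _ _)
  have n6 : b2 ≠ c2 := fun h0 => hbc b2 b4 (h0 ▸ c4)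
  have n7 : b2 ≠ c' := fun h0 => hbc' b2 b4 (h0 ▸ Perm.SameCycle.refl _ _)
  have n8 : c ≠ c2 := c3.symm
  have n9 : c ≠ c' := m2.symm
  have n10 : c2 ≠ c' := fun h0 => hc0 (h0 ▸ c4)
  rw [card_insert_of_notMem (by simp [n1, n2, n3, n4]),
    card_insert_of_notMem (by simp [n5, n6, n7]),
    card_insert_of_notMem (by simp [n8, n9]), card_pair n10] at hle
  omega

theorem mred_iff (h : Good a s) (he : Refl a s e) :
    MRed a s e r ↔ NRed a (a * s) (a * e) r := by
  have key : ∀ A : Finset T, Cl a A → ((∀ t ∈ A, e t ∈ A) ↔ ∀ t ∈ A, (a * e) t ∈ A) := by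
    intro A hA
    constructor
    · intro h0 t ht
      rw [Perm.mul_apply, hA]
      exact h0 t ht
    · intro h0 t ht
      have := h0 t ht
      rwa [Perm.mul_apply, hA] at this
  constructor
  · intro hM A hA hi h4 hr hb
    rw [cut_dual hA] at h4
    have hi' := (key A hA).mpr hi
    exact hM A hA hi' h4 hr ((ends_dual h he hA hi' h4).mpr hb)
  · intro hN A hA hi h4 hr hb
    exact hN A hA ((key A hA).mp hi) (by rw [cut_dual hA]; exact h4) hr
      ((ends_dual h he hA hi h4).mp hb)

/-- `a` commutes with `e`; inverse of `Refl.dual` -/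
theorem refl_dual_iff (hinv : ∀ t, a (a t) = t) : Refl a s e ↔ Refl a (a * s) (a * e) := by
  constructor
  · exact fun h => Refl.dual hinv h
  · intro h
    have h1 := Refl.dual hinv h
    have haa : a * a = 1 := by ext t; simp [hinv]
    rw [← mul_assoc, ← mul_assoc, haa, one_mul, one_mul] at h1
    exact h1

/-- a reduced map in picture M gives `NR` data for its dual; for `side_exists` use the root -/
theorem exists_NR (h : Good a s) (he : Refl a s e) (ht : MTy a s e r ty) (hr : MRed a s e r) :
    ∃ g, NR a (a * s) (a * e) g r ty := by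
  have hd := h.dual
  have hed := Refl.dual h.inv he
  have hty := (mty_iff h.inv he).mp ht
  have hx : ∃ t, (a * e) t = t ∨ (a * e) t = a t ∨ (a * e) t = (a * s) t := by
    cases ty
    · exact ⟨r, Or.inl hty⟩
    · exact hty.elim
    · exact ⟨r, Or.inr (Or.inr hty)⟩
    · exact ⟨(a * s) r, Or.inr (Or.inl hty.1)⟩
  obtain ⟨g, hg1, hg2⟩ := side_exists hd hed hx r (if ty = .C then 1 else 0)
  exact ⟨g, ⟨hd, hed, hg1, hty, hg2, (mred_iff h he).mp hr⟩⟩

/-- the reflection of a map is unique if its value at the root is known: `e' e` commutes with `a` and `s` and fixes a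
dart (type `C`, `G`: the root; type `X`: the dart `s r`) -/
theorem refl_unique (h : Good a s) {e' : Perm T} (he : Refl a s e) (he' : Refl a s e')
    (ht : MTy a s e r ty) (ht' : MTy a s e' r ty) : e = e' := by
  have hs' : ∀ (f : Perm T), Refl a s f → ∀ u, f (s⁻¹ u) = s (f u) := by
    intro f hf u
    have h1 := hf.es (s⁻¹ u)
    have h2 : s (s⁻¹ u) = u := by simp
    rw [h2] at h1
    exact h1.symm
  have hse : ∀ (f : Perm T), Refl a s f → ∀ u, f (s u) = s⁻¹ (f u) := by
    intro f hf u
    rw [Perm.eq_inv_iff_eq]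
    exact hf.es u
  have hfs : ∀ t, e' (e (s t)) = s (e' (e t)) := fun t => by
    rw [hse e he, hs' e' he']
  have hfa : ∀ t, e' (e (a t)) = a (e' (e t)) := fun t => by rw [he.ea, he'.ea]
  obtain ⟨t0, ht0⟩ : ∃ t, e' (e t) = t := by
    cases ty
    · refine ⟨r, ?_⟩
      have h1 : e r = a r := ht
      have h2 : e' r = a r := ht'
      rw [h1, he'.ea, h2, h.inv]
    · exact ht.elim
    · refine ⟨r, ?_⟩
      have h1 : e r = s r := ht
      have h2 : e' r = s r := ht'
      rw [h1, hse e' he', h2]
      simp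
    · refine ⟨s r, ?_⟩
      have h1 : e (s r) = s r := ht.1
      have h2 : e' (s r) = s r := ht'.1
      rw [h1, h2]
  set F : Finset T := univ.filter fun t => e' (e t) = t with hF
  have hcl : Cl a F := by
    intro t
    simp only [hF, mem_filter, mem_univ, true_and, hfa, a.injective.eq_iff]
  have hcut : cut s F = 0 := by
    rw [cut, card_eq_zero, eq_empty_iff_forall_notMem]
    intro t ht1
    rw [mem_bd] at ht1
    apply ht1
    simp only [hF, mem_filter, mem_univ, true_and, hfs, s.injective.eq_iff]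
  have hFu : F = univ := by
    by_contra hne
    have := h.ns F hcl ⟨t0, by simp [hF, ht0]⟩ hne
    omega
  ext t
  have h1 : t ∈ F := by rw [hFu]; exact mem_univ _
  rw [hF, mem_filter] at h1
  have h2 := congrArg e' h1.2
  rw [he'.ee] at h2
  exact h2

end

end PGr

end

section
/-! # Module Genus: the genus is not negative -/

set_option linter.unusedSectionVars false

namespace PGr
open Equiv Finset

/-- Proof (all dimensions are in `Pool/Agent/PGr/Euler.lean`).  Let `δ σ = Euler_del σ`, `n = |T|`.  The image of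
`ker (δ a)` under `δ s` has dimension `nV a - nComp a s` (`Euler_finrank_map`, `Euler_finrank_ker`,
`Euler_finrank_comp`).  It is contained in `range (δ s) ⊓ range (δ (a * s))`: if `h ∘ a = h` then
`h t + h (s t) = h t + h (a (s t))`, so `δ s h = δ (a * s) h`.  The dimension of the intersection is
`(n - nV s) + (n - nV (a * s)) - (n - nComp a s)` (`Euler_finrank_range`, `Euler_finrank_sup`, the dimension formula for
`⊓` and `⊔`). -/
theorem genus {T : Type*} [Fintype T] [DecidableEq T] (a s : Perm T) :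
    nV a + nV s + nV (a * s) ≤ Fintype.card T + 2 * nComp a s := by
  set J : Submodule (ZMod 2) (T → ZMod 2) :=
    LinearMap.range (Euler_del s) ⊓ LinearMap.range (Euler_del (a * s)) with hJ
  set B : Submodule (ZMod 2) (T → ZMod 2) := (LinearMap.ker (Euler_del a)).map (Euler_del s) with hB
  have hBJ : B ≤ J := by
    rintro _ ⟨h, hh, rfl⟩
    rw [SetLike.mem_coe, Euler_mem_ker] at hh
    refine ⟨⟨h, rfl⟩, ⟨h, ?_⟩⟩
    funext t
    rw [Euler_del_apply, Euler_del_apply, Perm.mul_apply, hh]
  have hfin : Module.finrank (ZMod 2) B ≤ Module.finrank (ZMod 2) J := Submodule.finrank_mono hBJ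
  have d1 := Euler_finrank_map (Euler_del s) (LinearMap.ker (Euler_del a))
  rw [Euler_finrank_comp, ← hB, Euler_finrank_ker] at d1
  have d3 := Submodule.finrank_sup_add_finrank_inf_eq (LinearMap.range (Euler_del s))
    (LinearMap.range (Euler_del (a * s)))
  rw [← hJ] at d3
  have d4 := Euler_finrank_sup a s
  have d5 := Euler_finrank_range s
  have d6 := Euler_finrank_range (a * s)
  omega

end PGr

end

section
/-!
# Maps with a rotation about a vertex: definitions

A rotation `ρ` of order `k` of a map `(T, a, s)` commutes with `a` and `s`; it fixes the vertex of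
the root dart `r`.  The maps with a rotation about a vertex (V-objects) are obtained from the maps
with a rotation about a face (F-objects, V-objects of the dual) by a fan: a new vertex in the face
joined by nets to the corners of the face.
-/

set_option linter.unusedSectionVars false

namespace PGr
open Equiv Finset
open scoped ENNReal

section
variable {T : Type*} [Fintype T] [DecidableEq T]

/-- `ρ` is a rotation of order `k ≥ 2` of the map `(a, s)` which fixes the vertex of `r`; no power
`ρ ^ i`, `0 < i < k`, fixes a dart. -/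
structure Rot (a s ρ : Perm T) (k : ℕ) (r : T) : Prop where
  ra : ∀ t, ρ (a t) = a (ρ t)
  rs : ∀ t, ρ (s t) = s (ρ t)
  k2 : 2 ≤ k
  pow : ∀ t, (ρ ^ k) t = t
  free : ∀ (t : T) (i : ℕ), 0 < i → i < k → (ρ ^ i) t ≠ t
  root : s.SameCycle r (ρ r)

/-- nonseparable planar map with at least one edge -/
structure NP (a s : Perm T) : Prop where
  inv : ∀ t, a (a t) = t
  fpf : ∀ t, a t ≠ t
  ns : NS a s
  pl : Pl a s

/-- the sets of edges of cut 4 at the root vertex whose translates are disjoint -/
structure VS (a s ρ : Perm T) (k : ℕ) (r : T) (A : Finset T) : Prop where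
  cl : Cl a A
  cut4 : cut s A = 4
  root : ∃ t ∈ A, s.SameCycle r t
  disj : ∀ i, 0 < i → i < k → ∀ t ∈ A, (ρ ^ i) t ∉ A

/-- the maximal ones -/
def MaxV (a s ρ : Perm T) (k : ℕ) (r : T) (A : Finset T) : Prop :=
  VS a s ρ k r A ∧ ∀ B, VS a s ρ k r B → A ⊆ B → B ⊆ A

/-- bond: the translates of one of these sets cover everything -/
def Bd (a s ρ : Perm T) (k : ℕ) (r : T) : Prop :=
  ∃ S : Finset T, VS a s ρ k r S ∧ ∀ t, ∃ i : ℕ, (ρ ^ i) t ∈ S

/-- the darts outside the maximal sets -/
noncomputable def HS (a s ρ : Perm T) (k : ℕ) (r : T) : Finset T := by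
  classical exact univ.filter fun t => ∀ A, MaxV a s ρ k r A → t ∉ A

theorem mem_HS {a s ρ : Perm T} {k : ℕ} {r t : T} :
    t ∈ HS a s ρ k r ↔ ∀ A, MaxV a s ρ k r A → t ∉ A := by
  simp [HS]

/-- degree of the vertex of `t` -/
noncomputable def dgs (s : Perm T) (t : T) : ℕ := Function.minimalPeriod (fun x => s x) t

/-- the other pole is a vertex -/
def PV (s ρ : Perm T) (r : T) : Prop := ∃ x, ¬ s.SameCycle r x ∧ s.SameCycle x (ρ x)

/-- the other pole is a face -/
def PF (a s ρ : Perm T) : Prop := ∃ x, (a * s).SameCycle x (ρ x)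

/-- the other pole is (the middle of) an edge -/
def PE (a ρ : Perm T) : Prop := ∃ x, ρ x = a x

end

/-- isomorphism of maps which maps the root edge to the root edge, reversed if `c` is true -/
def CIso (c : Bool) (M N : BMap) : Prop :=
  ∃ e : M.T ≃ N.T, (∀ t, e (M.aa t) = N.aa (e t)) ∧ (∀ t, e (M.s t) = N.s (e t)) ∧
    ∀ b, e (Sum.inr b) = Sum.inr (xor c b)

/-! ### Substitution of nets for some of the edges -/

/-- a map with darts `(K × Bool) ⊕ R`; the edges in `K` are going to be replaced by nets -/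
structure GCo where
  K : Type
  [fK : Fintype K]
  [dK : DecidableEq K]
  R : Type
  [fR : Fintype R]
  [dR : DecidableEq R]
  aR : Perm R
  s : Perm ((K × Bool) ⊕ R)

attribute [instance] GCo.fK GCo.dK GCo.fR GCo.dR

/-- the darts -/
abbrev GCo.T (C : GCo) : Type := (C.K × Bool) ⊕ C.R

/-- the edge involution -/
def GCo.aa (C : GCo) : Perm C.T :=
  Perm.sumCongr (Equiv.prodCongr (Equiv.refl C.K) Equiv.boolNot) C.aR

def GCo.IsGood (C : GCo) : Prop := Good C.aa C.s

section
variable (C : GCo) (N : C.K → GB)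

/-- the darts after the substitution -/
abbrev GCo.FT : Type := (Σ i, (N i).1.D) ⊕ C.R

/-- the edge involution after the substitution -/
def GCo.Fa : Perm (C.FT N) := Perm.sumCongr (Equiv.sigmaCongrRight fun i => (N i).1.a) C.aR

/-- entering an edge of `K` means entering the net at its first dart -/
noncomputable def gjump : C.T → C.FT N
  | Sum.inl (j, b) => Sum.inl ⟨j, fstD (N j) b⟩
  | Sum.inr t => Sum.inr t

/-- the rotation after the substitution, as a function -/
noncomputable def gFun : C.FT N → C.FT N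
  | Sum.inl ⟨i, d⟩ =>
    match (N i).1.s (Sum.inl d) with
    | Sum.inl d' => Sum.inl ⟨i, d'⟩
    | Sum.inr b => gjump C N (C.s (Sum.inl (i, b)))
  | Sum.inr t => gjump C N (C.s (Sum.inr t))

theorem gFun_in {i : C.K} {d d' : (N i).1.D} (h : (N i).1.s (Sum.inl d) = Sum.inl d') :
    gFun C N (Sum.inl ⟨i, d⟩) = Sum.inl ⟨i, d'⟩ := by
  simp only [gFun, h]

theorem gFun_out {i : C.K} {d : (N i).1.D} {b : Bool}
    (h : (N i).1.s (Sum.inl d) = Sum.inr b) :
    gFun C N (Sum.inl ⟨i, d⟩) = gjump C N (C.s (Sum.inl (i, b))) := by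
  simp only [gFun, h]

theorem gjump_inj : Function.Injective (gjump C N) := by
  rintro (⟨j, b⟩ | b) (⟨j', b'⟩ | b') h
  · simp only [gjump, Sum.inl.injEq, Sigma.mk.inj_iff] at h
    obtain ⟨rfl, h⟩ := h
    have h1 := fstD_spec (N j) b
    have h2 := fstD_spec (N j) b'
    rw [eq_of_heq h, ← h2] at h1
    have := (N j).1.s.injective h1
    simp only [Sum.inr.injEq] at this
    rw [this]
  · simp [gjump] at h
  · simp [gjump] at h
  · simp only [gjump, Sum.inr.injEq] at h; rw [h]

theorem gjump_ne {i : C.K} {d d' : (N i).1.D} (h : (N i).1.s (Sum.inl d) = Sum.inl d')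
    (x : C.T) : gjump C N x ≠ Sum.inl ⟨i, d'⟩ := by
  rcases x with ⟨j, b⟩ | b
  · intro hx
    simp only [gjump, Sum.inl.injEq, Sigma.mk.inj_iff] at hx
    obtain ⟨rfl, hx⟩ := hx
    have h1 := fstD_spec (N j) b
    rw [eq_of_heq hx, ← h] at h1
    have := (N j).1.s.injective h1
    simp at this
  · intro hx; simp [gjump] at hx

theorem gFun_inj : Function.Injective (gFun C N) := by
  have key : ∀ x : C.FT N,
      (∃ i d d', x = Sum.inl ⟨i, d⟩ ∧ (N i).1.s (Sum.inl d) = Sum.inl d' ∧
        gFun C N x = Sum.inl ⟨i, d'⟩) ∨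
      (∃ y : C.T, gFun C N x = gjump C N (C.s y) ∧
        ((∃ i d b, x = Sum.inl ⟨i, d⟩ ∧ (N i).1.s (Sum.inl d) = Sum.inr b ∧ y = Sum.inl (i, b)) ∨
          ∃ b, x = Sum.inr b ∧ y = Sum.inr b)) := by
    rintro (⟨i, d⟩ | b)
    · rcases h : (N i).1.s (Sum.inl d) with d' | b
      · exact Or.inl ⟨i, d, d', rfl, h, gFun_in C N h⟩
      · exact Or.inr ⟨Sum.inl (i, b), gFun_out C N h, Or.inl ⟨i, d, b, rfl, h, rfl⟩⟩
    · exact Or.inr ⟨Sum.inr b, rfl, Or.inr ⟨b, rfl, rfl⟩⟩
  intro x x' hx
  rcases key x with ⟨i, d, d', rfl, h, hc⟩ | ⟨y, hc, hy⟩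
  · rcases key x' with ⟨i', e, e', rfl, h', hc'⟩ | ⟨y', hc', hy'⟩
    · rw [hc, hc'] at hx
      simp only [Sum.inl.injEq, Sigma.mk.inj_iff] at hx
      obtain ⟨rfl, hx⟩ := hx
      rw [eq_of_heq hx, ← h'] at h
      have := (N i).1.s.injective h
      simp only [Sum.inl.injEq] at this
      rw [this]
    · rw [hc, hc'] at hx
      exact absurd hx.symm (gjump_ne C N h _)
  · rcases key x' with ⟨i', e, e', rfl, h', hc'⟩ | ⟨y', hc', hy'⟩
    · rw [hc, hc'] at hx
      exact absurd hx (gjump_ne C N h' _)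
    · rw [hc, hc'] at hx
      have hyy : y = y' := C.s.injective (gjump_inj C N hx)
      subst hyy
      rcases hy with ⟨i, d, b, rfl, h, rfl⟩ | ⟨b, rfl, rfl⟩
      · rcases hy' with ⟨i', e, b', rfl, h', hi⟩ | ⟨b', rfl, hi⟩
        · simp only [Sum.inl.injEq, Prod.mk.injEq] at hi
          obtain ⟨rfl, rfl⟩ := hi
          have := (N i).1.s.injective (h.trans h'.symm)
          simp only [Sum.inl.injEq] at this
          rw [this]
        · simp at hi
      · rcases hy' with ⟨i', e, b', rfl, h', hi⟩ | ⟨b', rfl, hi⟩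
        · simp at hi
        · simp only [Sum.inr.injEq] at hi; rw [hi]

/-- the rotation after the substitution -/
noncomputable def GCo.Fs : Perm (C.FT N) :=
  Equiv.ofBijective (gFun C N) (Finite.injective_iff_bijective.mp (gFun_inj C N))

theorem GCo.Fs_in {i : C.K} {d d' : (N i).1.D} (h : (N i).1.s (Sum.inl d) = Sum.inl d') :
    C.Fs N (Sum.inl ⟨i, d⟩) = Sum.inl ⟨i, d'⟩ := gFun_in C N h

theorem GCo.Fs_out {i : C.K} {d : (N i).1.D} {b : Bool}
    (h : (N i).1.s (Sum.inl d) = Sum.inr b) :
    C.Fs N (Sum.inl ⟨i, d⟩) = gjump C N (C.s (Sum.inl (i, b))) := gFun_out C N h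

theorem GCo.Fs_inr (t : C.R) : C.Fs N (Sum.inr t) = gjump C N (C.s (Sum.inr t)) := rfl

/-- the core map given by bijections of the nets (reversed if `c` is true) and of the other darts -/
def gmap {C C' : GCo} (eK : C.K ≃ C'.K) (eR : C.R ≃ C'.R) (c : C.K → Bool) : C.T → C'.T
  | Sum.inl (i, b) => Sum.inl (eK i, xor (c i) b)
  | Sum.inr t => Sum.inr (eR t)

/-- the core with given components -/
abbrev mkC (K R : Type) [Fintype K] [DecidableEq K] [Fintype R] [DecidableEq R] (aR : Perm R)
    (sC : Perm ((K × Bool) ⊕ R)) : GCo := { K := K, R := R, aR := aR, s := sC }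

/-- the darts of the net `i` -/
noncomputable def GCo.part (i : C.K) : Finset (C.FT N) := by
  classical exact univ.filter fun t => ∃ d : (N i).1.D, t = Sum.inl ⟨i, d⟩

theorem GCo.mem_part {i : C.K} {t : C.FT N} :
    t ∈ C.part N i ↔ ∃ d : (N i).1.D, t = Sum.inl ⟨i, d⟩ := by
  simp [GCo.part]

end

/-! ### The star -/

section star
variable {R : Type} [Fintype R] [DecidableEq R] (a s : Perm R) (K : Finset R)

/-- a new vertex joined to the corners in `K`; the dart `(κ, false)` is in the corner `κ`, the dart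
`(κ, true)` is at the new vertex -/
noncomputable def starFun : ({x // x ∈ K} × Bool) ⊕ R → ({x // x ∈ K} × Bool) ⊕ R
  | Sum.inr p => if h : p ∈ K then Sum.inl (⟨p, h⟩, false) else Sum.inr (s p)
  | Sum.inl (κ, false) => Sum.inr (s κ.1)
  | Sum.inl (κ, true) => Sum.inl ((ret (a * s) K)⁻¹ κ, true)

theorem starFun_inj : Function.Injective (starFun a s K) := by
  rintro (⟨κ, _ | _⟩ | p) (⟨κ', _ | _⟩ | p') h
  · simp only [starFun, Sum.inr.injEq, EmbeddingLike.apply_eq_iff_eq] at h
    rw [Subtype.ext h]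
  · simp [starFun] at h
  · simp only [starFun] at h
    split at h
    · simp at h
    · rename_i hp
      simp only [Sum.inr.injEq, EmbeddingLike.apply_eq_iff_eq] at h
      exact absurd (h ▸ κ.2) hp
  · simp [starFun] at h
  · simp only [starFun, Sum.inl.injEq, Prod.mk.injEq, EmbeddingLike.apply_eq_iff_eq, and_true] at h
    rw [h]
  · simp only [starFun] at h
    split at h <;> simp at h
  · simp only [starFun] at h
    split at h
    · simp at h
    · rename_i hp
      simp only [Sum.inr.injEq, EmbeddingLike.apply_eq_iff_eq] at h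
      exact absurd (h ▸ κ'.2) hp
  · simp only [starFun] at h
    split at h <;> simp at h
  · simp only [starFun] at h
    split at h <;> split at h
    · simp only [Sum.inl.injEq, Prod.mk.injEq, Subtype.mk.injEq, and_true] at h
      rw [h]
    · simp at h
    · simp at h
    · simp only [Sum.inr.injEq, EmbeddingLike.apply_eq_iff_eq] at h
      rw [h]

/-- the star as a map whose spokes may be replaced by nets -/
noncomputable def starC : GCo where
  K := {x // x ∈ K}
  R := R
  aR := a
  s := Equiv.ofBijective (starFun a s K)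
    (Finite.injective_iff_bijective.mp (starFun_inj a s K))

theorem starC_inr_mem {p : R} (h : p ∈ K) :
    (starC a s K).s (Sum.inr p) = Sum.inl (⟨p, h⟩, false) := by
  show starFun a s K (Sum.inr p) = _
  simp only [starFun, h, dif_pos]
  rfl

theorem starC_inr_not_mem {p : R} (h : p ∉ K) :
    (starC a s K).s (Sum.inr p) = Sum.inr (s p) := by
  show starFun a s K (Sum.inr p) = _
  simp only [starFun, h, not_false_eq_true, dif_neg]
  rfl

theorem starC_false (κ : {x // x ∈ K}) :
    (starC a s K).s (Sum.inl (κ, false)) = Sum.inr (s κ.1) := rfl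

theorem starC_true (κ : {x // x ∈ K}) :
    (starC a s K).s (Sum.inl (κ, true)) = Sum.inl ((ret (a * s) K)⁻¹ κ, true) := rfl

end star

/-- The data of a fan: a nonseparable map (with at least one edge) with a rotation about the face of
`p`, an invariant set `K ∋ p` of corners of this face, and nets for the spokes. -/
structure FanD (k : ℕ) where
  R : Type
  [fR : Fintype R]
  [dR : DecidableEq R]
  a : Perm R
  s : Perm R
  ρ : Perm R
  p : R
  K : Finset R
  N : {x // x ∈ K} → GB
  np : NP a s
  rot : Rot a (a * s) ρ k p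
  pK : p ∈ K
  face : ∀ x ∈ K, (a * s).SameCycle p x
  inv : ∀ x, ρ x ∈ K ↔ x ∈ K
  per : ∀ (x : R) (h : x ∈ K), BIso (N ⟨x, h⟩).1 (N ⟨ρ x, (inv x).2 h⟩).1

attribute [instance] FanD.fR FanD.dR

namespace FanD
variable {k : ℕ} (X : FanD k)

/-- the star -/
noncomputable abbrev C : GCo := starC X.a X.s X.K

/-- the net at `p` -/
noncomputable abbrev N0 : GB := X.N ⟨X.p, X.pK⟩

/-- the darts of the fan -/
abbrev FT : Type := X.C.FT X.N

noncomputable abbrev Fa : Perm X.FT := X.C.Fa X.N
noncomputable abbrev Fs : Perm X.FT := X.C.Fs X.N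

/-- a dart of the net at `p` as a dart of the fan -/
abbrev rt (d : X.N0.1.D) : X.FT := Sum.inl ⟨⟨X.p, X.pK⟩, d⟩

/-- `d` is at the new vertex -/
def AtPole (d : X.N0.1.D) : Prop := X.N0.1.s.SameCycle (Sum.inr true) (Sum.inl d)

end FanD

/-- A family of disjoint sets of edges of cut 4, with their two last darts. -/
structure Fam {T : Type} [Fintype T] [DecidableEq T] (a s : Perm T) (K : Type) [Fintype K]
    [DecidableEq K] where
  A : K → Finset T
  z : K → Bool → T
  cl : ∀ κ, Cl a (A κ)
  cut4 : ∀ κ, cut s (A κ) = 4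
  disj : ∀ κ κ', κ ≠ κ' → Disjoint (A κ) (A κ')
  mem : ∀ κ b, z κ b ∈ A κ
  out : ∀ κ b, s (z κ b) ∉ A κ
  ne : ∀ κ, z κ true ≠ z κ false

section
variable {T : Type} [Fintype T] [DecidableEq T] {a s : Perm T} {K : Type} [Fintype K]
  [DecidableEq K] (F : Fam a s K)

/-- the darts outside the family -/
abbrev Fam.R : Type := {t : T // ∀ κ, t ∉ F.A κ}

/-- a dart of the core as a dart of the map: the last dart of the part -/
def Fam.lst : (K × Bool) ⊕ F.R → T
  | Sum.inl x => F.z x.1 x.2
  | Sum.inr t => t.1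

end

end PGr

end

section
/-! # Module FixP: a rotation of prime order has two poles -/

set_option linter.unusedSectionVars false

namespace PGr
open Equiv Finset

section
variable {T : Type*} [Fintype T] [DecidableEq T]

theorem FixP_dvd {X : Type*} {σ : Perm X} {p : ℕ} (hp : p.Prime) (hpow : ∀ x, (σ ^ p) x = x)
    {x : X} (hx : σ x ≠ x) {i : ℕ} (hi : (σ ^ i) x = x) : p ∣ i := by
  have e : ∀ n : ℕ, (σ ^ n) x = x → Function.IsPeriodicPt σ n x := by
    intro n hn
    rw [Function.IsPeriodicPt, Function.IsFixedPt, Perm.iterate_eq_pow]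
    exact hn
  have h1 := (e p (hpow x)).minimalPeriod_dvd
  have h2 := (e i hi).minimalPeriod_dvd
  rcases (Nat.dvd_prime hp).mp h1 with h3 | h3
  · exfalso
    have := Function.isPeriodicPt_minimalPeriod σ x
    rw [h3] at this
    exact hx this
  · rw [h3] at h2; exact h2

theorem FixP_count {X : Type*} [Finite X] (σ : Perm X) {p : ℕ} (hp : p.Prime)
    (hpow : ∀ x, (σ ^ p) x = x) :
    Nat.card X + (p - 1) * Nat.card {x : X // σ x = x} =
      p * Nat.card (Quotient (Perm.SameCycle.setoid σ)) := by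
  classical
  have : Fintype X := Fintype.ofFinite _
  have : Fintype (Quotient (Perm.SameCycle.setoid σ)) := Fintype.ofFinite _
  let mk : X → Quotient (Perm.SameCycle.setoid σ) := Quotient.mk _
  rw [Nat.card_eq_fintype_card, Nat.card_eq_fintype_card, Nat.card_eq_fintype_card,
    Fintype.card_subtype]
  have h1 : Fintype.card X = ∑ q : Quotient (Perm.SameCycle.setoid σ),
      (univ.filter fun x => mk x = q).card := by
    rw [← card_univ]
    exact card_eq_sum_card_fiberwise (fun x _ => mem_univ (mk x))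
  have h2 : (univ.filter fun x : X => σ x = x).card =
      ∑ q : Quotient (Perm.SameCycle.setoid σ),
        ((univ.filter fun x : X => σ x = x).filter fun x => mk x = q).card :=
    card_eq_sum_card_fiberwise (fun x _ => mem_univ (mk x))
  rw [h1, h2, mul_sum, ← sum_add_distrib]
  have h3 : ∀ q : Quotient (Perm.SameCycle.setoid σ), (univ.filter fun x => mk x = q).card +
      (p - 1) * ((univ.filter fun x : X => σ x = x).filter fun x => mk x = q).card = p := by
    intro q
    induction q using Quotient.inductionOn with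
    | h x =>
      have hmk : ∀ y, mk y = Quotient.mk _ x ↔ σ.SameCycle y x := fun y => Quotient.eq
      by_cases hx : σ x = x
      · have hone : ∀ y, σ.SameCycle y x → y = x := by
          intro y hy
          obtain ⟨n, hn⟩ := hy.symm.exists_nat_pow_eq
          have : ∀ n : ℕ, (σ ^ n) x = x := by
            intro n
            induction n with
            | zero => rfl
            | succ n ih => rw [pow_succ, Perm.mul_apply, hx, ih]
          rw [this] at hn
          exact hn.symm
        have e1 : (univ.filter fun y => mk y = Quotient.mk _ x) = {x} := by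
          ext y
          simp only [mem_filter, mem_univ, true_and, mem_singleton, hmk]
          exact ⟨hone y, fun h => h ▸ Perm.SameCycle.refl _ _⟩
        have e2 : ((univ.filter fun y : X => σ y = y).filter fun y => mk y = Quotient.mk _ x) = {x} := by
          ext y
          simp only [mem_filter, mem_univ, true_and, mem_singleton, hmk]
          refine ⟨fun h => hone y h.2, ?_⟩
          rintro rfl
          exact ⟨hx, Perm.SameCycle.refl _ _⟩
        rw [e1, e2, card_singleton]
        have := hp.one_lt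
        omega
      · have hper : ∀ y, σ.SameCycle y x → σ y ≠ y := by
          intro y hy hy2
          apply hx
          obtain ⟨n, hn⟩ := hy.exists_nat_pow_eq
          have : ∀ n : ℕ, (σ ^ n) y = y := by
            intro n
            induction n with
            | zero => rfl
            | succ n ih => rw [pow_succ, Perm.mul_apply, hy2, ih]
          rw [this] at hn
          rw [← hn]; exact hy2
        have e2 : ((univ.filter fun y : X => σ y = y).filter fun y => mk y = Quotient.mk _ x) = ∅ := by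
          ext y
          simp only [mem_filter, mem_univ, true_and, notMem_empty, iff_false, hmk]
          exact fun h => hper y h.2 h.1
        have e1 : (univ.filter fun y => mk y = Quotient.mk _ x) =
            (range p).image (fun i => (σ ^ i) x) := by
          ext y
          simp only [mem_filter, mem_univ, true_and, hmk, mem_image, mem_range]
          constructor
          · intro h
            obtain ⟨n, hn⟩ := h.symm.exists_nat_pow_eq
            refine ⟨n % p, Nat.mod_lt _ hp.pos, ?_⟩
            have hm : ∀ m : ℕ, (σ ^ (p * m)) x = x := by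
              intro m
              induction m with
              | zero => simp
              | succ m ih => rw [Nat.mul_succ, pow_add, Perm.mul_apply, hpow, ih]
            have : (σ ^ n) x = (σ ^ (n % p)) ((σ ^ (p * (n / p))) x) := by
              rw [← Perm.mul_apply, ← pow_add, Nat.mod_add_div]
            rw [← hn, this, hm]
          · rintro ⟨i, _, rfl⟩
            exact (Perm.SameCycle.symm ⟨i, by simp⟩)
        have hinj : ∀ i j, i < j → j < p → (σ ^ i) x ≠ (σ ^ j) x := by
          intro i j hij hj he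
          obtain ⟨d, rfl⟩ := Nat.exists_eq_add_of_lt hij
          have : (σ ^ (i + d + 1)) x = (σ ^ i) ((σ ^ (d + 1)) x) := by
            rw [← Perm.mul_apply, ← pow_add, add_assoc]
          rw [this] at he
          have h4 := (σ ^ i).injective he
          have h5 := FixP_dvd hp hpow hx h4.symm
          have := Nat.le_of_dvd (by omega) h5
          omega
        rw [e1, e2, card_empty, mul_zero, add_zero, card_image_of_injOn, card_range]
        intro i hi j hj he
        simp only [coe_range, Set.mem_Iio] at hi hj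
        rcases lt_trichotomy i j with h | h | h
        · exact absurd he (hinj i j h hj)
        · exact h
        · exact absurd he.symm (hinj j i h hi)
  rw [sum_congr rfl (fun q _ => h3 q), sum_const, card_univ, smul_eq_mul, mul_comm]

theorem FixP_comm {f h : Perm T} (hc : ∀ t, h (f t) = f (h t)) (m n : ℕ) (t : T) :
    (h ^ m) ((f ^ n) t) = (f ^ n) ((h ^ m) t) := by
  have h1 : Commute h f := by
    ext t
    rw [Perm.mul_apply, Perm.mul_apply, hc]
  have h2 := (h1.pow_pow m n).eq
  rw [← Perm.mul_apply, h2, Perm.mul_apply]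

theorem FixP_exists (f h : Perm T) (hc : ∀ t, h (f t) = f (h t)) :
    ∃ fq : Perm (Quotient (Perm.SameCycle.setoid h)),
      ∀ t, fq (Quotient.mk (Perm.SameCycle.setoid h) t) =
        Quotient.mk (Perm.SameCycle.setoid h) (f t) := by
  refine ⟨Quotient.congr f fun x y => ?_, fun t => rfl⟩
  change h.SameCycle x y ↔ h.SameCycle (f x) (f y)
  constructor
  · intro hxy
    obtain ⟨n, hn⟩ := hxy.exists_nat_pow_eq
    refine ⟨n, ?_⟩
    have := FixP_comm hc n 1 x
    rw [pow_one] at this
    rw [zpow_natCast, this, hn]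
  · intro hxy
    obtain ⟨n, hn⟩ := hxy.exists_nat_pow_eq
    refine ⟨n, ?_⟩
    have := FixP_comm hc n 1 x
    rw [pow_one] at this
    rw [this] at hn
    rw [zpow_natCast]
    exact f.injective hn

theorem FixP_qpow {f h : Perm T} {fq : Perm (Quotient (Perm.SameCycle.setoid h))}
    (hq : ∀ t, fq (Quotient.mk (Perm.SameCycle.setoid h) t) =
        Quotient.mk (Perm.SameCycle.setoid h) (f t)) (n : ℕ) (t : T) :
    (fq ^ n) (Quotient.mk (Perm.SameCycle.setoid h) t) =
        Quotient.mk (Perm.SameCycle.setoid h) ((f ^ n) t) := by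
  induction n generalizing t with
  | zero => rfl
  | succ n ih => rw [pow_succ, Perm.mul_apply, hq, ih, pow_succ, Perm.mul_apply]

theorem FixP_same {f h : Perm T} {fq : Perm (Quotient (Perm.SameCycle.setoid h))}
    (hq : ∀ t, fq (Quotient.mk (Perm.SameCycle.setoid h) t) =
        Quotient.mk (Perm.SameCycle.setoid h) (f t)) (t t' : T) :
    fq.SameCycle (Quotient.mk (Perm.SameCycle.setoid h) t)
      (Quotient.mk (Perm.SameCycle.setoid h) t') ↔ ∃ n m : ℕ, (h ^ m) ((f ^ n) t) = t' := by
  constructor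
  · intro H
    obtain ⟨n, hn⟩ := H.exists_nat_pow_eq
    rw [FixP_qpow hq] at hn
    have h1 : h.SameCycle ((f ^ n) t) t' := Quotient.exact hn
    obtain ⟨m, hm⟩ := h1.exists_nat_pow_eq
    exact ⟨n, m, hm⟩
  · rintro ⟨n, m, h1⟩
    refine ⟨n, ?_⟩
    rw [zpow_natCast, FixP_qpow hq]
    exact Quotient.sound (show h.SameCycle _ _ from ⟨m, by rw [zpow_natCast]; exact h1⟩)

theorem FixP_swap {f h : Perm T} (hc : ∀ t, h (f t) = f (h t))
    {fq : Perm (Quotient (Perm.SameCycle.setoid h))}
    (hq : ∀ t, fq (Quotient.mk (Perm.SameCycle.setoid h) t) =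
        Quotient.mk (Perm.SameCycle.setoid h) (f t))
    {hq' : Perm (Quotient (Perm.SameCycle.setoid f))}
    (hh : ∀ t, hq' (Quotient.mk (Perm.SameCycle.setoid f) t) =
        Quotient.mk (Perm.SameCycle.setoid f) (h t)) :
    Nat.card (Quotient (Perm.SameCycle.setoid fq)) =
      Nat.card (Quotient (Perm.SameCycle.setoid hq')) := by
  let F : T → Quotient (Perm.SameCycle.setoid fq) := fun t =>
    Quotient.mk _ (Quotient.mk (Perm.SameCycle.setoid h) t)
  let G : T → Quotient (Perm.SameCycle.setoid hq') := fun t =>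
    Quotient.mk _ (Quotient.mk (Perm.SameCycle.setoid f) t)
  have hF : Function.Surjective F := by
    intro q
    induction q using Quotient.inductionOn with
    | h q =>
      induction q using Quotient.inductionOn with
      | h t => exact ⟨t, rfl⟩
  have hG : Function.Surjective G := by
    intro q
    induction q using Quotient.inductionOn with
    | h q =>
      induction q using Quotient.inductionOn with
      | h t => exact ⟨t, rfl⟩
  have hker : Setoid.ker F = Setoid.ker G := by
    ext x y
    rw [Setoid.ker_def, Setoid.ker_def]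
    have e1 : F x = F y ↔ fq.SameCycle (Quotient.mk _ x) (Quotient.mk _ y) := Quotient.eq
    have e2 : G x = G y ↔ hq'.SameCycle (Quotient.mk _ x) (Quotient.mk _ y) := Quotient.eq
    rw [e1, e2, FixP_same hq, FixP_same hh]
    constructor
    · rintro ⟨n, m, h1⟩
      exact ⟨m, n, by rw [← FixP_comm hc]; exact h1⟩
    · rintro ⟨n, m, h1⟩
      exact ⟨m, n, by rw [FixP_comm hc]; exact h1⟩
  have eF := Setoid.quotientKerEquivOfSurjective F hF
  have eG := Setoid.quotientKerEquivOfSurjective G hG
  rw [hker] at eF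
  exact Nat.card_congr (eF.symm.trans eG)

/-- `ρ` acts freely with prime order `p` and commutes with `g`.  The permutation `gq` induced by `g` on the
orbits of `ρ`: its cycles are the orbits of `ρ` on the cycles of `g`.  Proof: the map from the cycles of `g` to the
cycles of `gq` is surjective; two cycles (of `t`, `t'`) have the same image iff `g ^ i t = ρ ^ j t'` for some `i`, `j`,
so the fibres are the orbits of the cyclic group of prime order `p` generated by `ρ` on the set of cycles of `g`:
they have 1 element (the cycle is fixed by `ρ`) or `p` elements.  So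
`nV g = nFix g ρ + p * (nV gq - nFix g ρ)`. -/
theorem quot_cycles {g ρ : Perm T} {p : ℕ} (hp : p.Prime) (hc : ∀ t, ρ (g t) = g (ρ t))
    (hpow : ∀ t, (ρ ^ p) t = t) (hfree : ∀ t, ρ t ≠ t) :
    ∃ gq : Perm (Quotient (Perm.SameCycle.setoid ρ)),
      (∀ t, gq (Quotient.mk (Perm.SameCycle.setoid ρ) t) =
        Quotient.mk (Perm.SameCycle.setoid ρ) (g t)) ∧
      nV g + (p - 1) * nFix g ρ = p * nV gq := by
  obtain ⟨gq, hgq⟩ := FixP_exists g ρ hc
  obtain ⟨σ, hσ⟩ := FixP_exists ρ g (fun t => (hc t).symm)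
  refine ⟨gq, hgq, ?_⟩
  have hσp : ∀ x, (σ ^ p) x = x := by
    intro x
    induction x using Quotient.inductionOn with
    | h t => rw [FixP_qpow hσ, hpow]
  have h1 := FixP_count σ hp hσp
  have h2 := FixP_swap hc hgq hσ
  have h3 : nFix g ρ = Nat.card {x : Quotient (Perm.SameCycle.setoid g) // σ x = x} := by
    rw [nFix]
    apply Nat.card_congr
    apply Equiv.subtypeEquivRight
    intro q
    induction q using Quotient.inductionOn with
    | h t =>
      constructor
      · rintro ⟨t', h4, h5⟩
        rw [h4, hσ]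
        exact Quotient.sound (show g.SameCycle _ _ from h5.symm)
      · intro h4
        rw [hσ] at h4
        exact ⟨t, rfl, (Quotient.exact h4 : g.SameCycle _ _).symm⟩
  rw [h3, nV, nV, h2]
  exact h1

theorem FixP_nComp {T : Type*} [Fintype T] [DecidableEq T] [Nonempty T] {a s : Perm T}
    (h : ∀ A : Finset T, (∀ t, t ∈ A → a t ∈ A) → (∀ t, t ∈ A → s t ∈ A) → A.Nonempty → A = univ) :
    nComp a s = 1 := by
  classical
  obtain ⟨t₀⟩ := (inferInstance : Nonempty T)
  rw [nComp, Nat.card_eq_one_iff_unique]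
  have htr : ∀ t t' : T, ∃ g : Subgroup.closure {a, s}, g • t' = t := by
    intro t t'
    set A : Finset T := univ.filter fun x => ∃ g : Subgroup.closure {a, s}, g • t' = x with hA
    have hmem : ∀ (σ : Perm T), σ ∈ Subgroup.closure {a, s} → ∀ x, x ∈ A → σ x ∈ A := by
      intro σ hσ x
      simp only [hA, mem_filter, mem_univ, true_and]
      rintro ⟨g, hg⟩
      refine ⟨⟨σ, hσ⟩ * g, ?_⟩
      rw [mul_smul, hg]
      rfl
    have hne : A.Nonempty :=
      ⟨t', by simp only [hA, mem_filter, mem_univ, true_and]; exact ⟨1, one_smul _ _⟩⟩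
    have hu : A = univ := h A (hmem a (Subgroup.subset_closure (by simp)))
      (hmem s (Subgroup.subset_closure (by simp))) hne
    have : t ∈ A := by rw [hu]; exact mem_univ _
    simpa [hA] using this
  constructor
  · constructor
    intro x y
    induction x using Quotient.inductionOn with
    | h x =>
      induction y using Quotient.inductionOn with
      | h y => exact Quotient.sound (htr x y)
  · exact ⟨Quotient.mk _ t₀⟩

/-- Proof.  Let `n = |T|`.  All orbits of `ρ` have `p` elements, so `p * |Q| = n` for the set `Q` of orbits.  `T` is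
connected (`nComp a s = 1`, from `NS`), so is `Q`.  `Good.euler` and `2 * nV a = n` (the cycles of `a` are the edges):
`nV a + nV s + nV (a * s) = n + 2`.  Let `F` be the sum of the three numbers `nFix`.  `quot_cycles` for
`g = a`, `s`, `a * s` (the induced permutation of `a * s` is the product of the induced ones, since they are
determined by their values on classes) and `genus` for `Q`:
`n + 2 + (p - 1) * F = p * (sum of nV gq) ≤ p * (|Q| + 2) = n + 2 * p`.  So `F ≤ 2`.  And `p` divides
`n + 2 + (p - 1) * F` and `n`, so `p` divides `2 - F`; `F ≥ 1` by `h1`; `F = 1` is impossible. -/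
theorem fix_prime0 {a s ρ : Perm T} (h : Good a s) {p : ℕ} (hp : p.Prime)
    (ha : ∀ t, ρ (a t) = a (ρ t)) (hs : ∀ t, ρ (s t) = s (ρ t))
    (hpow : ∀ t, (ρ ^ p) t = t) (hfree : ∀ t, ρ t ≠ t)
    (h1 : 1 ≤ nFix s ρ + nFix a ρ + nFix (a * s) ρ) :
    nFix s ρ + nFix a ρ + nFix (a * s) ρ = 2 := by
  classical
  obtain ⟨aq, haq, ea⟩ := quot_cycles hp ha hpow hfree
  obtain ⟨sq, hsq, es⟩ := quot_cycles hp hs hpow hfree
  obtain ⟨fq, hfq, ef⟩ := quot_cycles (g := a * s) hp
    (fun t => by rw [Perm.mul_apply, Perm.mul_apply, ha, hs]) hpow hfree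
  have hprod : fq = aq * sq := by
    ext x
    induction x using Quotient.inductionOn with
    | h t =>
      change fq _ = aq (sq _)
      rw [hfq, hsq, haq]
      rfl
  have : Fintype (Quotient (Perm.SameCycle.setoid ρ)) := Fintype.ofFinite _
  obtain ⟨t₀⟩ : Nonempty T := Fintype.card_pos_iff.mp (by have := h.big; omega)
  have : Nonempty (Quotient (Perm.SameCycle.setoid ρ)) := ⟨Quotient.mk _ t₀⟩
  have hcomp : nComp aq sq = 1 := by
    apply FixP_nComp
    intro A hA1 hA2 hA3
    set B : Finset T := univ.filter fun t => Quotient.mk (Perm.SameCycle.setoid ρ) t ∈ A with hB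
    have hmB : ∀ t, t ∈ B ↔ Quotient.mk (Perm.SameCycle.setoid ρ) t ∈ A := by
      intro t; simp [hB]
    have hBne : B.Nonempty := by
      obtain ⟨q, hq⟩ := hA3
      induction q using Quotient.inductionOn with
      | h t => exact ⟨t, (hmB t).mpr hq⟩
    have hBa : ∀ t, t ∈ B → a t ∈ B := by
      intro t ht
      rw [hmB] at ht ⊢
      rw [← haq]
      exact hA1 _ ht
    have hBs : ∀ t, t ∈ B → s t ∈ B := by
      intro t ht
      rw [hmB] at ht ⊢
      rw [← hsq]
      exact hA2 _ ht
    have hcl : Cl a B := by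
      intro t
      constructor
      · intro ht
        have := hBa _ ht
        rwa [h.inv] at this
      · exact hBa t
    have hpn : ∀ n : ℕ, ∀ t, t ∈ B → (s ^ n) t ∈ B := by
      intro n
      induction n with
      | zero => intro t ht; exact ht
      | succ n ih => intro t ht; rw [pow_succ, Perm.mul_apply]; exact ih _ (hBs t ht)
    have hcut : cut s B = 0 := by
      rw [cut, card_eq_zero, bd, filter_eq_empty_iff]
      intro x _
      rw [not_not]
      constructor
      · exact hBs x
      · intro hx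
        have h2 := hpn (orderOf s - 1) _ hx
        have h3 : (s ^ (orderOf s - 1)) (s x) = x := by
          rw [← Perm.mul_apply, ← pow_succ, Nat.sub_add_cancel (orderOf_pos s), pow_orderOf_eq_one]
          rfl
        rwa [h3] at h2
    have hBu : B = univ := by
      by_contra hcon
      have := h.ns B hcl hBne hcon
      omega
    ext q
    simp only [mem_univ, iff_true]
    induction q using Quotient.inductionOn with
    | h t => rw [← hmB, hBu]; exact mem_univ _
  have hgen := genus aq sq
  rw [hcomp, ← hprod] at hgen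
  have heul := h.euler
  have hn2 := Euler_finrank_inv h.inv h.fpf
  rw [Euler_finrank_ker] at hn2
  have hcard := FixP_count ρ hp hpow
  have hzero : Nat.card {x : T // ρ x = x} = 0 := by
    rw [Nat.card_eq_zero]
    left
    exact ⟨fun x => hfree x.1 x.2⟩
  rw [hzero, mul_zero, add_zero, Nat.card_eq_fintype_card, Nat.card_eq_fintype_card] at hcard
  set n := Fintype.card T
  set q := Fintype.card (Quotient (Perm.SameCycle.setoid ρ))
  set Φ := nFix s ρ + nFix a ρ + nFix (a * s) ρ with hΦ
  have hsum : n + 2 + (p - 1) * Φ = p * (nV aq + nV sq + nV fq) := by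
    have e1 : nV a + nV s + nV (a * s) = n + 2 := by omega
    rw [← e1, hΦ]
    calc nV a + nV s + nV (a * s) + (p - 1) * (nFix s ρ + nFix a ρ + nFix (a * s) ρ)
        = (nV a + (p - 1) * nFix a ρ) + (nV s + (p - 1) * nFix s ρ) +
          (nV (a * s) + (p - 1) * nFix (a * s) ρ) := by ring
      _ = p * (nV aq + nV sq + nV fq) := by rw [ea, es, ef]; ring
  have hle : p * (nV aq + nV sq + nV fq) ≤ p * (q + 2) := Nat.mul_le_mul_left _ (by omega)
  obtain ⟨P, hP⟩ : ∃ P, p = P + 1 := ⟨p - 1, by have := hp.pos; omega⟩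
  have hP1 : 1 ≤ P := by have := hp.one_lt; omega
  have hΦ2 : Φ ≤ 2 := by
    have e2 : p * (q + 2) = n + 2 * p := by rw [mul_add, ← hcard]; ring
    rw [e2] at hle
    rw [← hsum] at hle
    have e3 : (p - 1) * Φ ≤ 2 * P := by
      rw [hP] at hle ⊢
      omega
    rw [hP, Nat.add_sub_cancel, mul_comm 2 P] at e3
    exact Nat.le_of_mul_le_mul_left e3 hP1
  have hΦ1 : Φ ≠ 1 := by
    intro h2
    rw [h2, mul_one] at hsum
    have hd : p ∣ 1 := by
      have hd1 : p ∣ n + 2 + (p - 1) := ⟨_, hsum⟩
      have hd2 : p ∣ n + p := (Nat.dvd_add_right ⟨q, hcard⟩).mpr dvd_rfl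
      have e4 : n + 2 + (p - 1) = n + p + 1 := by omega
      rw [e4] at hd1
      exact (Nat.dvd_add_right hd2).mp hd1
    have := Nat.le_of_dvd one_pos hd
    omega
  omega

theorem fix_prime {a s ρ : Perm T} (h : Good a s) {p : ℕ} (hp : p.Prime)
    (ha : ∀ t, ρ (a t) = a (ρ t)) (hs : ∀ t, ρ (s t) = s (ρ t))
    (hpow : ∀ t, (ρ ^ p) t = t) (hfree : ∀ t, ρ t ≠ t) (h1 : ∃ t, s.SameCycle t (ρ t)) :
    nFix s ρ + nFix a ρ + nFix (a * s) ρ = 2 := by
  refine fix_prime0 h hp ha hs hpow hfree ?_
  obtain ⟨t₀, ht₀⟩ := h1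
  have hpos : 1 ≤ nFix s ρ := by
    rw [nFix, Nat.one_le_iff_ne_zero, ← Nat.pos_iff_ne_zero, Nat.card_pos_iff]
    exact ⟨⟨⟨Quotient.mk _ t₀, t₀, rfl, ht₀⟩⟩, inferInstance⟩
  omega

end

end PGr

end

section
/-! # Module Poles: a rotation about a vertex has exactly one other pole -/

set_option linter.unusedSectionVars false

namespace PGr
open Equiv Finset

section
variable {T : Type*} [Fintype T] [DecidableEq T] {a s ρ : Perm T} {k : ℕ} {r : T}

theorem Poles_comm {g τ : Perm T} (h : ∀ t, τ (g t) = g (τ t)) (n : ℕ) (t : T) :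
    (τ ^ n) (g t) = g ((τ ^ n) t) := by
  induction n with
  | zero => rfl
  | succ n ih => rw [pow_succ', Perm.mul_apply, Perm.mul_apply, ih, h]

theorem Poles_comm' {g τ : Perm T} (h : ∀ t, τ (g t) = g (τ t)) (n : ℕ) (t : T) :
    τ ((g ^ n) t) = (g ^ n) (τ t) := by
  have := Poles_comm (g := τ) (τ := g) (fun t => (h t).symm) n t
  exact this.symm

theorem Poles_commas {τ : Perm T} (ha : ∀ t, τ (a t) = a (τ t)) (hs : ∀ t, τ (s t) = s (τ t))
    (t : T) : τ ((a * s) t) = (a * s) (τ t) := by
  rw [Perm.mul_apply, Perm.mul_apply, ha, hs]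

theorem Poles_sc_map {g τ : Perm T} (h : ∀ t, τ (g t) = g (τ t)) {x y : T} :
    g.SameCycle (τ x) (τ y) ↔ g.SameCycle x y := by
  constructor
  · intro hxy
    obtain ⟨n, hn⟩ := hxy.exists_nat_pow_eq
    rw [← Poles_comm' h] at hn
    exact ⟨n, by simpa using τ.injective hn⟩
  · intro hxy
    obtain ⟨n, hn⟩ := hxy.exists_nat_pow_eq
    refine ⟨n, ?_⟩
    rw [zpow_natCast, ← Poles_comm' h, hn]

theorem Poles_sc_pow {g τ : Perm T} (h : ∀ t, τ (g t) = g (τ t)) {x : T}
    (hx : g.SameCycle x (τ x)) (n : ℕ) : g.SameCycle x ((τ ^ n) x) := by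
  induction n with
  | zero => exact Perm.SameCycle.refl _ _
  | succ n ih =>
    rw [pow_succ', Perm.mul_apply]
    exact hx.trans ((Poles_sc_map h).2 ih)

/-- if a cell is fixed so is every dart of it -/
theorem Poles_sc_of {g τ : Perm T} (h : ∀ t, τ (g t) = g (τ t)) {x y : T}
    (hx : g.SameCycle x (τ x)) (hxy : g.SameCycle x y) : g.SameCycle y (τ y) :=
  hxy.symm.trans (hx.trans ((Poles_sc_map h).2 hxy))

theorem Poles_pos {g τ : Perm T} : 1 ≤ nFix g τ ↔ ∃ t, g.SameCycle t (τ t) := by
  rw [nFix, Nat.one_le_iff_ne_zero, Nat.card_ne_zero]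
  constructor
  · rintro ⟨⟨⟨q, t, _, ht⟩⟩, _⟩
    exact ⟨t, ht⟩
  · rintro ⟨t, ht⟩
    exact ⟨⟨⟨Quotient.mk _ t, t, rfl, ht⟩⟩, inferInstance⟩

theorem Poles_one {g τ : Perm T} (h : nFix g τ ≤ 1) {x y : T} (hx : g.SameCycle x (τ x))
    (hy : g.SameCycle y (τ y)) : g.SameCycle x y := by
  rw [nFix, Finite.card_le_one_iff_subsingleton] at h
  have := h.elim ⟨Quotient.mk (Perm.SameCycle.setoid g) x, x, rfl, hx⟩
    ⟨Quotient.mk (Perm.SameCycle.setoid g) y, y, rfl, hy⟩
  exact Quotient.exact (congrArg Subtype.val this)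

theorem Poles_two {g τ : Perm T} (h : nFix g τ ≤ 2) {x y z : T} (hx : g.SameCycle x (τ x))
    (hy : g.SameCycle y (τ y)) (hz : g.SameCycle z (τ z)) (hxy : ¬ g.SameCycle x y)
    (hxz : ¬ g.SameCycle x z) : g.SameCycle y z := by
  classical
  by_contra hyz
  have : Fintype {q : Quotient (Perm.SameCycle.setoid g) //
    ∃ t, q = Quotient.mk _ t ∧ g.SameCycle t (τ t)} := Fintype.ofFinite _
  rw [nFix, Nat.card_eq_fintype_card] at h
  have h2 : 2 < Fintype.card {q : Quotient (Perm.SameCycle.setoid g) //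
    ∃ t, q = Quotient.mk _ t ∧ g.SameCycle t (τ t)} := by
    rw [Fintype.two_lt_card_iff]
    refine ⟨⟨Quotient.mk _ x, x, rfl, hx⟩, ⟨Quotient.mk _ y, y, rfl, hy⟩,
      ⟨Quotient.mk _ z, z, rfl, hz⟩, fun h => hxy ?_, fun h => hxz ?_, fun h => hyz ?_⟩
    · exact Quotient.exact (congrArg Subtype.val h)
    · exact Quotient.exact (congrArg Subtype.val h)
    · exact Quotient.exact (congrArg Subtype.val h)
  omega

theorem Poles_two' {g τ : Perm T} (h : 2 ≤ nFix g τ) (x : T) :
    ∃ y, ¬ g.SameCycle x y ∧ g.SameCycle y (τ y) := by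
  classical
  by_contra hc
  push Not at hc
  have h1 : nFix g τ ≤ 1 := by
    rw [nFix, Finite.card_le_one_iff_subsingleton]
    constructor
    rintro ⟨q, t, rfl, ht⟩ ⟨q', t', rfl, ht'⟩
    have h2 : g.SameCycle x t := by
      by_contra h3
      exact hc t h3 ht
    have h2' : g.SameCycle x t' := by
      by_contra h3
      exact hc t' h3 ht'
    exact Subtype.ext (Quotient.sound (h2.symm.trans h2'))
  omega

theorem Poles_congr {g τ σ : Perm T} (h : ∀ t, g.SameCycle t (τ t) ↔ g.SameCycle t (σ t)) :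
    nFix g τ = nFix g σ := by
  simp only [nFix, h]

theorem Rot.Poles_mod (hr : Rot a s ρ k r) (n : ℕ) (t : T) : (ρ ^ n) t = (ρ ^ (n % k)) t := by
  have hk : ρ ^ k = 1 := by ext t; simp [hr.pow]
  conv_lhs => rw [← Nat.div_add_mod n k, pow_add, pow_mul, hk, one_pow, one_mul]

theorem Rot.Poles_dvd_iff (hr : Rot a s ρ k r) {n : ℕ} {t : T} : (ρ ^ n) t = t ↔ k ∣ n := by
  have hk0 : 0 < k := by have := hr.k2; omega
  rw [hr.Poles_mod]
  constructor
  · intro h
    by_contra hd
    refine hr.free t (n % k) ?_ (Nat.mod_lt _ hk0) h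
    rcases Nat.eq_zero_or_pos (n % k) with h0 | h0
    · exact absurd (Nat.dvd_of_mod_eq_zero h0) hd
    · exact h0
  · intro h
    rw [Nat.mod_eq_zero_of_dvd h]
    rfl

theorem Rot.Poles_as (hr : Rot a s ρ k r) (t : T) : ρ ((a * s) t) = (a * s) (ρ t) :=
  Poles_commas hr.ra hr.rs t

/-- the fixed cells of a power of prime order -/
theorem Rot.Poles_exists (h : Good a s) (hr : Rot a s ρ k r) {i : ℕ} (h0 : 0 < i) (h1 : i < k) :
    ∃ n, nFix s ((ρ ^ i) ^ n) + nFix a ((ρ ^ i) ^ n) + nFix (a * s) ((ρ ^ i) ^ n) = 2 := by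
  have hne : ρ ^ i ≠ 1 := by
    intro h2
    exact hr.free r i h0 h1 (by rw [h2]; rfl)
  have ho : orderOf (ρ ^ i) ≠ 1 := fun h2 => hne (orderOf_eq_one_iff.1 h2)
  obtain ⟨p, hp, hpd⟩ := Nat.exists_prime_and_dvd ho
  obtain ⟨m, hm⟩ := hpd
  have hm0 : m ≠ 0 := by
    rintro rfl
    rw [mul_zero] at hm
    exact absurd hm (orderOf_pos _).ne'
  have hop : orderOf ((ρ ^ i) ^ m) = p := by
    rw [orderOf_pow' _ hm0, hm, Nat.gcd_eq_right (Dvd.intro_left p rfl),
      Nat.mul_div_cancel _ (Nat.pos_of_ne_zero hm0)]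
  refine ⟨m, fix_prime h hp (ρ := (ρ ^ i) ^ m) ?_ ?_ ?_ ?_ ?_⟩
  · intro t; rw [← pow_mul]; exact Poles_comm hr.ra _ t
  · intro t; rw [← pow_mul]; exact Poles_comm hr.rs _ t
  · intro t
    have := pow_orderOf_eq_one ((ρ ^ i) ^ m)
    rw [hop] at this
    rw [this]; rfl
  · intro t ht
    rw [← pow_mul, hr.Poles_dvd_iff] at ht
    have : ρ ^ (i * m) = 1 := by
      ext t
      rw [(hr.Poles_dvd_iff).2 ht]
      rfl
    rw [← pow_mul, this, orderOf_one] at hop
    exact hp.one_lt.ne hop
  · refine ⟨r, ?_⟩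
    rw [← pow_mul]
    exact Poles_sc_pow hr.rs hr.root _

theorem Poles_sca (hinv : ∀ t, a (a t) = t) {x y : T} (h : a.SameCycle x y) :
    y = x ∨ y = a x := by
  obtain ⟨n, hn⟩ := h.exists_nat_pow_eq
  have key : ∀ n : ℕ, (a ^ n) x = x ∨ (a ^ n) x = a x := by
    intro n
    induction n with
    | zero => exact Or.inl rfl
    | succ n ih =>
      rw [pow_succ', Perm.mul_apply]
      rcases ih with h | h
      · exact Or.inr (by rw [h])
      · exact Or.inl (by rw [h, hinv])
  rw [← hn]
  exact key n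

theorem Rot.Poles_ae (h : Good a s) (hr : Rot a s ρ k r) {t : T} (ht : a.SameCycle t (ρ t)) :
    ρ t = a t := by
  rcases Poles_sca h.inv ht with h1 | h1
  · exact absurd (by simpa using h1) (hr.free t 1 one_pos (by have := hr.k2; omega))
  · exact h1

theorem Poles_dvd {α : Type*} [Fintype α] [DecidableEq α] (π : Perm α) (k : ℕ)
    (h : ∀ x, π x ≠ x → ∀ n, (π ^ n) x = x → k ∣ n) : k ∣ π.support.card := by
  rw [← Perm.sum_cycleType]
  refine Multiset.dvd_sum fun n hn => ?_
  rw [Perm.cycleType_def, Multiset.mem_map] at hn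
  obtain ⟨c, hc, rfl⟩ := hn
  have hc' : c ∈ π.cycleFactorsFinset := hc
  have hcyc : c.IsCycle := (Perm.mem_cycleFactorsFinset_iff.1 hc').1
  obtain ⟨x, hx⟩ := hcyc.nonempty_support
  have h1 : c = π.cycleOf x := Perm.cycle_is_cycleOf hx hc'
  have h2 : π x ≠ x := by
    have := (Perm.mem_cycleFactorsFinset_iff.1 hc').2 x hx
    rw [← this]
    exact Perm.mem_support.1 hx
  refine h x h2 _ ?_
  have h3 : (π ^ (Finset.card ∘ Perm.support) c) x = (c ^ (Finset.card ∘ Perm.support) c) x := by
    conv_rhs => rw [h1]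
    rw [Perm.cycleOf_pow_apply_self, ← h1]
  rw [h3]
  show (c ^ c.support.card) x = x
  rw [← hcyc.orderOf, pow_orderOf_eq_one]
  rfl

/-- the permutation of the cycles of `g` induced by `τ` -/
def Poles_q {g τ : Perm T} (h : ∀ t, τ (g t) = g (τ t)) :
    Perm (Quotient (Perm.SameCycle.setoid g)) :=
  Quotient.congr τ fun _ _ => (Poles_sc_map h).symm

theorem Poles_q_mk {g τ : Perm T} (h : ∀ t, τ (g t) = g (τ t)) (t : T) :
    Poles_q h (Quotient.mk _ t) = Quotient.mk _ (τ t) := rfl

theorem Poles_qpow {g τ : Perm T} (h : ∀ t, τ (g t) = g (τ t)) (n : ℕ) (t : T) :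
    ((Poles_q h) ^ n) (Quotient.mk _ t) = Quotient.mk _ ((τ ^ n) t) := by
  induction n with
  | zero => rfl
  | succ n ih => rw [pow_succ', Perm.mul_apply, ih, Poles_q_mk, pow_succ', Perm.mul_apply]

theorem Poles_supp {g τ : Perm T} [Fintype (Quotient (Perm.SameCycle.setoid g))]
    [DecidableEq (Quotient (Perm.SameCycle.setoid g))] (h : ∀ t, τ (g t) = g (τ t)) :
    (Poles_q h).support.card + nFix g τ = nV g := by
  have h1 : nFix g τ = ((Poles_q h).supportᶜ).card := by
    rw [nFix, Nat.subtype_card]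
    intro q
    obtain ⟨t, rfl⟩ := Quotient.exists_rep q
    rw [mem_compl, Perm.mem_support, not_not, Poles_q_mk]
    constructor
    · intro h2
      exact ⟨t, rfl, (Quotient.exact h2).symm⟩
    · rintro ⟨t', h2, h3⟩
      exact Quotient.sound (Poles_sc_of h h3 (Quotient.exact h2).symm).symm
  rw [h1, nV, Nat.card_eq_fintype_card, card_compl]
  have := card_le_univ (Poles_q h).support
  omega

theorem Poles_dgs (s : Perm T) (r : T) (n : ℕ) : (s ^ n) r = r ↔ dgs s r ∣ n := by
  rw [dgs, ← Function.isPeriodicPt_iff_minimalPeriod_dvd, Function.IsPeriodicPt,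
    Function.IsFixedPt, ← Perm.iterate_eq_pow]

theorem Poles_dgs_pos (s : Perm T) (r : T) : 0 < dgs s r := by
  rcases Nat.eq_zero_or_pos (dgs s r) with h | h
  · exfalso
    have h1 : (s ^ orderOf s) r = r := by rw [pow_orderOf_eq_one]; rfl
    rw [Poles_dgs, h, zero_dvd_iff] at h1
    exact (orderOf_pos s).ne' h1
  · exact h

/-- If `(ρ ^ i) t = t` for one dart, then `ρ ^ i = 1` (`iso_unique` in `PGr/CompInj` with `e = ρ ^ i`, `e' = 1`), so `k`
divides `i`. -/
theorem Rot.of_order (h : Good a s) (ha : ∀ t, ρ (a t) = a (ρ t)) (hs : ∀ t, ρ (s t) = s (ρ t))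
    (hk : orderOf ρ = k) (k2 : 2 ≤ k) (hr : s.SameCycle r (ρ r)) : Rot a s ρ k r := by 
  subst hk
  refine ⟨ha, hs, k2, fun t => by rw [pow_orderOf_eq_one]; rfl, ?_, hr⟩
  intro t i h0 h1 ht
  have h2 : ρ ^ i = 1 := by
    refine iso_unique h t (ρ ^ i) 1 (Poles_comm ha i) (Poles_comm hs i) (fun _ => rfl)
      (fun _ => rfl) ?_
    rw [ht]; rfl
  exact absurd (orderOf_le_of_pow_eq_one h0 h2) (not_le.2 h1)

theorem Rot.order_eq (hr : Rot a s ρ k r) : orderOf ρ = k := by 
  have hk : ρ ^ k = 1 := by ext t; simp [hr.pow]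
  have h1 := orderOf_dvd_of_pow_eq_one hk
  refine Nat.dvd_antisymm h1 ?_
  rw [← hr.Poles_dvd_iff (t := r), pow_orderOf_eq_one]
  rfl

/-- a power with exponent prime to `k` is again a rotation -/
theorem Rot.coprime_pow (hr : Rot a s ρ k r) {i : ℕ} (hi : i.Coprime k) : Rot a s (ρ ^ i) k r := by
  
  refine ⟨Poles_comm hr.ra i, Poles_comm hr.rs i, hr.k2, ?_, ?_, Poles_sc_pow hr.rs hr.root i⟩
  · intro t
    rw [← pow_mul, hr.Poles_dvd_iff]
    exact Dvd.intro_left i rfl
  · intro t j h0 h1 ht
    rw [← pow_mul, hr.Poles_dvd_iff] at ht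
    have h2 : k ∣ j := (Nat.Coprime.dvd_of_dvd_mul_left hi.symm ht)
    exact absurd (Nat.le_of_dvd h0 h2) (not_le.2 h1)

/-- The fixed cells.  Proof.  For `0 < i < k` and a prime `p` dividing the order `m = k / gcd (i, k)` of `ρ ^ i`, put
`j = k / p`; then `σ = ρ ^ j` has prime order `p`, acts freely, and is a power of `ρ ^ i`, so the cells fixed by `ρ ^ i`
are fixed by `σ`.  By `fix_prime`, `σ` fixes exactly 2 cells (cycles of `s`, `a`, `a * s`): the vertex of `r` and one
more cell `P`.  `ρ` commutes with `σ`, so it permutes these two cells, and it fixes the vertex of `r`, so it fixes `P`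
(a cell of the same kind).  So every cell fixed by `σ`, hence every cell fixed by `ρ ^ i`, is fixed by `ρ`. -/
theorem Rot.fixed_of_pow (h : Good a s) (hr : Rot a s ρ k r) {i : ℕ} (h0 : 0 < i) (h1 : i < k)
    {t : T} :
    (s.SameCycle t ((ρ ^ i) t) → s.SameCycle t (ρ t)) ∧
    (a.SameCycle t ((ρ ^ i) t) → a.SameCycle t (ρ t)) ∧
    ((a * s).SameCycle t ((ρ ^ i) t) → (a * s).SameCycle t (ρ t)) := by 
  obtain ⟨n, hn⟩ := hr.Poles_exists h h0 h1
  have cs : ∀ t, (ρ ^ i) (s t) = s ((ρ ^ i) t) := Poles_comm hr.rs i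
  have ca : ∀ t, (ρ ^ i) (a t) = a ((ρ ^ i) t) := Poles_comm hr.ra i
  have cas : ∀ t, (ρ ^ i) ((a * s) t) = (a * s) ((ρ ^ i) t) := Poles_comm hr.Poles_as i
  have hrσ : s.SameCycle r (((ρ ^ i) ^ n) r) := Poles_sc_pow cs (Poles_sc_pow hr.rs hr.root i) n
  have hps : 1 ≤ nFix s ((ρ ^ i) ^ n) := Poles_pos.2 ⟨r, hrσ⟩
  -- the image under `ρ` of a fixed cell is fixed
  have himg : ∀ {g : Perm T}, (∀ t, ρ (g t) = g (ρ t)) → ∀ {t : T},
      g.SameCycle t (((ρ ^ i) ^ n) t) → g.SameCycle (ρ t) (((ρ ^ i) ^ n) (ρ t)) := by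
    intro g hg t ht
    have h2 : ((ρ ^ i) ^ n) (ρ t) = ρ (((ρ ^ i) ^ n) t) := by
      rw [← pow_mul, ← Perm.mul_apply, ← Perm.mul_apply, ← pow_succ, ← pow_succ']
    rw [h2]
    exact (Poles_sc_map hg).2 ht
  refine ⟨fun ht => ?_, fun ht => ?_, fun ht => ?_⟩
  · have ht' := Poles_sc_pow cs ht n
    by_cases hrt : s.SameCycle r t
    · exact Poles_sc_of hr.rs hr.root hrt
    · refine Poles_two (g := s) (τ := (ρ ^ i) ^ n) (by omega) hrσ ht' (himg hr.rs ht') hrt ?_
      intro h2
      exact hrt ((Poles_sc_map hr.rs).1 (hr.root.symm.trans h2))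
  · have ht' := Poles_sc_pow ca ht n
    exact Poles_one (by omega) ht' (himg hr.ra ht')
  · have ht' := Poles_sc_pow cas ht n
    exact Poles_one (by omega) ht' (himg hr.Poles_as ht')

/-- all cells fixed by `ρ` are fixed by `ρ ^ j` in the proof of `fixed_of_pow`, and conversely -/
theorem Rot.two_poles (h : Good a s) (hr : Rot a s ρ k r) :
    nFix s ρ + nFix a ρ + nFix (a * s) ρ = 2 := by 
  have hk2 := hr.k2
  obtain ⟨n, hn⟩ := hr.Poles_exists h (i := 1) one_pos (by omega)
  rw [pow_one] at hn
  have hnk : 0 < n % k := by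
    rcases Nat.eq_zero_or_pos (n % k) with h0 | h0
    · exfalso
      have h1 : ρ ^ n = 1 := by
        ext t
        rw [(hr.Poles_dvd_iff).2 (Nat.dvd_of_mod_eq_zero h0)]; rfl
      rw [h1] at hn
      have e1 : 4 ≤ nV a + nV s + nV (a * s) := by
        have h2 := Euler_finrank_ker a
        have h3 := Euler_finrank_inv h.inv h.fpf
        have h4 := h.big
        have h5 := h.euler
        omega
      have e2 : ∀ g : Perm T, nFix g 1 = nV g := by
        intro g
        rw [nFix, nV]
        refine Nat.card_congr (Equiv.subtypeUnivEquiv ?_)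
        intro q
        obtain ⟨t, rfl⟩ := Quotient.exists_rep q
        exact ⟨t, rfl, Perm.SameCycle.refl _ _⟩
      rw [e2, e2, e2] at hn
      omega
    · exact h0
  have hn' : ρ ^ n = ρ ^ (n % k) := by ext t; rw [hr.Poles_mod]
  have key := fun t => hr.fixed_of_pow h hnk (Nat.mod_lt n (by omega)) (t := t)
  rw [← hn', ] at key
  rw [← hn, Poles_congr (g := s) (τ := ρ) (σ := ρ ^ n), Poles_congr (g := a) (τ := ρ) (σ := ρ ^ n),
    Poles_congr (g := a * s) (τ := ρ) (σ := ρ ^ n)]
  · exact fun t => ⟨fun ht => Poles_sc_pow hr.Poles_as ht n, (key t).2.2⟩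
  · exact fun t => ⟨fun ht => Poles_sc_pow hr.ra ht n, (key t).2.1⟩
  · exact fun t => ⟨fun ht => Poles_sc_pow hr.rs ht n, (key t).1⟩

/-- if an edge is fixed by a power, then `k = 2` and it is reversed: `(ρ ^ i) t = a t` gives `ρ t = a t` or `ρ t = t`
by `fixed_of_pow`; the second is excluded; so `(ρ ^ 2) t = t` and `k = 2` -/
theorem Rot.edge (h : Good a s) (hr : Rot a s ρ k r) {i : ℕ} (h0 : 0 < i) (h1 : i < k) {t : T}
    (ht : (ρ ^ i) t = a t) : k = 2 ∧ ρ t = a t := by 
  have hk2 := hr.k2
  have h2 := (hr.fixed_of_pow h h0 h1 (t := t)).2.1 (by rw [ht]; exact ⟨1, by simp⟩)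
  have h3 := hr.Poles_ae h h2
  refine ⟨?_, h3⟩
  by_contra hk
  refine hr.free t 2 two_pos (by omega) ?_
  rw [pow_two, Perm.mul_apply, h3, hr.ra, h3, h.inv]

/-- the numbers of fixed cells: `nFix s ρ ≥ 1` because of the vertex of `r`, and the sum is 2 -/
theorem Rot.trichotomy (h : Good a s) (hr : Rot a s ρ k r) :
    (PV s ρ r ∧ ¬ PF a s ρ ∧ ¬ PE a ρ ∧ nFix s ρ = 2 ∧ nFix (a * s) ρ = 0 ∧ nFix a ρ = 0) ∨
    (¬ PV s ρ r ∧ PF a s ρ ∧ ¬ PE a ρ ∧ nFix s ρ = 1 ∧ nFix (a * s) ρ = 1 ∧ nFix a ρ = 0) ∨
    (¬ PV s ρ r ∧ ¬ PF a s ρ ∧ PE a ρ ∧ nFix s ρ = 1 ∧ nFix (a * s) ρ = 0 ∧ nFix a ρ = 1) := by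
  
  have h2 := hr.two_poles h
  have hs1 : 1 ≤ nFix s ρ := Poles_pos.2 ⟨r, hr.root⟩
  have hPE : PE a ρ ↔ 1 ≤ nFix a ρ := by
    rw [Poles_pos]
    constructor
    · rintro ⟨x, hx⟩; exact ⟨x, hx ▸ ⟨1, by simp⟩⟩
    · rintro ⟨x, hx⟩; exact ⟨x, hr.Poles_ae h hx⟩
  have hPF : PF a s ρ ↔ 1 ≤ nFix (a * s) ρ := Poles_pos.symm
  have hPV : PV s ρ r ↔ 2 ≤ nFix s ρ := by
    constructor
    · rintro ⟨x, hx, hx'⟩
      by_contra hc
      exact hx (Poles_one (by omega) hr.root hx')
    · exact fun hc => Poles_two' hc r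
  rw [hPE, hPF, hPV]
  omega

/-- the other fixed vertex is unique (`nFix s ρ ≤ 2`) -/
theorem Rot.vertex_unique (h : Good a s) (hr : Rot a s ρ k r) {x y : T}
    (hx : ¬ s.SameCycle r x) (hx' : s.SameCycle x (ρ x))
    (hy : ¬ s.SameCycle r y) (hy' : s.SameCycle y (ρ y)) : s.SameCycle x y := by 
  have h2 := hr.two_poles h
  exact Poles_two (by omega) hr.root hx' hy' hx hy

/-- the reversed edge is unique -/
theorem Rot.edge_unique (h : Good a s) (hr : Rot a s ρ k r) {x y : T} (hx : ρ x = a x)
    (hy : ρ y = a y) : y = x ∨ y = a x := by 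
  have h2 := hr.two_poles h
  have hs1 : 1 ≤ nFix s ρ := Poles_pos.2 ⟨r, hr.root⟩
  refine Poles_sca h.inv (Poles_one (τ := ρ) (by omega) ?_ ?_)
  · rw [hx]; exact ⟨1, by simp⟩
  · rw [hy]; exact ⟨1, by simp⟩

/-- all other orbits have `k` elements: the cyclic group generated by `ρ` acts on the cycles of `s` which are not
fixed by `ρ`, and by `fixed_of_pow` the stabilisers are trivial -/
theorem Rot.dvd (h : Good a s) (hr : Rot a s ρ k r) :
    k ∣ Fintype.card T ∧ k ∣ nV s - nFix s ρ ∧ k ∣ Fintype.card T / 2 - nFix a ρ ∧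
      k ∣ nV (a * s) - nFix (a * s) ρ := by 
  classical
  have hk2 := hr.k2
  have key : ∀ {g : Perm T}, (∀ t, ρ (g t) = g (ρ t)) →
      (∀ {i : ℕ}, 0 < i → i < k → ∀ t, g.SameCycle t ((ρ ^ i) t) → g.SameCycle t (ρ t)) →
      k ∣ nV g - nFix g ρ := by
    intro g hg hf
    have : Fintype (Quotient (Perm.SameCycle.setoid g)) := Fintype.ofFinite _
    have h1 := Poles_supp hg
    have h2 : k ∣ (Poles_q hg).support.card := by
      refine Poles_dvd _ k ?_
      intro q hq n hn
      obtain ⟨t, rfl⟩ := Quotient.exists_rep q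
      rw [Poles_qpow] at hn
      have h3 : g.SameCycle t ((ρ ^ n) t) := (Quotient.exact hn).symm
      by_contra hd
      have h4 : 0 < n % k := by
        rcases Nat.eq_zero_or_pos (n % k) with h0 | h0
        · exact absurd (Nat.dvd_of_mod_eq_zero h0) hd
        · exact h0
      rw [hr.Poles_mod] at h3
      exact hq (Quotient.sound (hf h4 (Nat.mod_lt _ (by omega)) t h3).symm)
    rwa [show nV g - nFix g ρ = (Poles_q hg).support.card by omega]
  refine ⟨?_, key hr.rs fun h0 h1 t => (hr.fixed_of_pow h h0 h1).1, ?_,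
    key hr.Poles_as fun h0 h1 t => (hr.fixed_of_pow h h0 h1).2.2⟩
  · have h1 : ρ.support = univ := by
      ext t
      simp only [Perm.mem_support, mem_univ, iff_true]
      intro ht
      exact hr.free t 1 one_pos (by omega) (by simpa using ht)
    have h2 := Poles_dvd ρ k (fun x _ n hn => (hr.Poles_dvd_iff).1 hn)
    rwa [h1, card_univ] at h2
  · have h2 := Euler_finrank_ker a
    have h3 := Euler_finrank_inv h.inv h.fpf
    rw [show Fintype.card T / 2 = nV a by omega]
    exact key hr.ra fun h0 h1 t => (hr.fixed_of_pow h h0 h1).2.1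

/-- The degree of the root vertex is a multiple of `k`, and some power `ρ ^ i` with `i` prime to `k` is the rotation by
`dgs s r / k` darts.  Proof: `ρ r = (s ^ m) r`; `(ρ ^ i) r = (s ^ (m * i)) r`; with `D = dgs s r`: `D ∣ m * i` iff
`(ρ ^ i) r = r` iff `k ∣ i`; so `D / gcd (m, D) = k`, and `m = (D / k) * m'` with `m'` prime to `k`; choose `i` with
`m' * i ≡ 1` modulo `k`. -/
theorem Rot.normal (h : Good a s) (hr : Rot a s ρ k r) : k ∣ dgs s r ∧
    ∃ i : ℕ, i.Coprime k ∧ (ρ ^ i) r = (s ^ (dgs s r / k)) r := by 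
  have hk2 := hr.k2
  obtain ⟨m, hm⟩ := hr.root.exists_nat_pow_eq
  have hi : ∀ i, (ρ ^ i) r = (s ^ (m * i)) r := by
    intro i
    induction i with
    | zero => simp
    | succ i ih =>
      rw [pow_succ', Perm.mul_apply, ih, Poles_comm' hr.rs, ← hm, ← Perm.mul_apply, ← pow_add,
        Nat.mul_succ]
  have hD := Poles_dgs_pos s r
  have key : ∀ i, dgs s r ∣ m * i ↔ k ∣ i := by
    intro i
    rw [← hr.Poles_dvd_iff (t := r), hi, Poles_dgs]
  obtain ⟨m', D', hc, h1, h2⟩ := Nat.exists_coprime m (dgs s r)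
  have hg : 0 < m.gcd (dgs s r) := Nat.gcd_pos_of_pos_right _ hD
  generalize m.gcd (dgs s r) = g at *
  have key2 : ∀ i, D' ∣ i ↔ k ∣ i := by
    intro i
    rw [← key, h2, h1, mul_assoc, mul_comm g i, ← mul_assoc, Nat.mul_dvd_mul_iff_right hg,
      hc.symm.dvd_mul_left]
  have hDk : D' = k := Nat.dvd_antisymm ((key2 k).2 dvd_rfl) ((key2 D').1 dvd_rfl)
  subst hDk
  have hdiv : dgs s r / D' = g := by rw [h2]; exact Nat.mul_div_cancel_left _ (by omega)
  refine ⟨⟨g, h2⟩, ?_⟩
  obtain ⟨i, -, hi1⟩ := Nat.exists_mul_mod_eq_one_of_coprime hc (by omega)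
  refine ⟨i, ?_, ?_⟩
  · have h3 : i.gcd D' ∣ m' * i % D' :=
      (Nat.dvd_mod_iff (Nat.gcd_dvd_right _ _)).2 (Dvd.dvd.mul_left (Nat.gcd_dvd_left _ _) _)
    rw [hi1] at h3
    exact Nat.dvd_one.1 h3
  · rw [hdiv, hi]
    have h4 : m * i = g + dgs s r * (m' * i / D') := by
      have h5 := Nat.mod_add_div (m' * i) D'
      rw [hi1] at h5
      calc m * i = g * (m' * i) := by rw [h1]; ring
        _ = g * (1 + D' * (m' * i / D')) := by rw [h5]
        _ = g + D' * g * (m' * i / D') := by ring
        _ = g + dgs s r * (m' * i / D') := by rw [h2]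
    rw [h4, pow_add, Perm.mul_apply, (Poles_dgs s r _).2 (Dvd.intro _ rfl)]

/-- Conversely: a permutation commuting with `a` and `s` which maps `r` to `(s ^ (D / k)) r`, `D = dgs s r`, `k ∣ D`,
`2 ≤ k`, is a rotation of order `k` (`(ρ ^ i) r = (s ^ (i * (D / k))) r`, `iso_unique`). -/
theorem Rot.of_normal (h : Good a s) (ha : ∀ t, ρ (a t) = a (ρ t)) (hs : ∀ t, ρ (s t) = s (ρ t))
    (k2 : 2 ≤ k) (hk : k ∣ dgs s r) (hr : ρ r = (s ^ (dgs s r / k)) r) : Rot a s ρ k r := by 
  have hD := Poles_dgs_pos s r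
  have hi : ∀ i, (ρ ^ i) r = (s ^ (i * (dgs s r / k))) r := by
    intro i
    induction i with
    | zero => simp
    | succ i ih =>
      rw [pow_succ', Perm.mul_apply, ih, Poles_comm' hs, hr, ← Perm.mul_apply, ← pow_add,
        Nat.succ_mul]
  have hid : ∀ {i : ℕ} {t : T}, (ρ ^ i) t = t → ρ ^ i = 1 := by
    intro i t ht
    refine iso_unique h t (ρ ^ i) 1 (Poles_comm ha i) (Poles_comm hs i) (fun _ => rfl)
      (fun _ => rfl) ?_
    rw [ht]; rfl
  refine ⟨ha, hs, k2, ?_, ?_, ⟨(dgs s r / k : ℕ), by rw [zpow_natCast, hr]⟩⟩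
  · intro t
    have h1 : (ρ ^ k) r = r := by
      rw [hi, Nat.mul_div_cancel' hk, Poles_dgs]
    rw [hid h1]; rfl
  · intro t i h0 h1 ht
    have h2 : (ρ ^ i) r = r := by rw [hid ht]; rfl
    rw [hi, Poles_dgs] at h2
    obtain ⟨q, hq⟩ := hk
    have hk0 : 0 < k := by omega
    rw [hq, Nat.mul_div_cancel_left _ hk0] at h2
    have hq0 : 0 < q := by
      rcases Nat.eq_zero_or_pos q with h3 | h3
      · rw [h3, mul_zero] at hq; omega
      · exact h3
    exact absurd (Nat.le_of_dvd h0 (Nat.dvd_of_mul_dvd_mul_right hq0 h2)) (not_le.2 h1)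

/-- Two rotations of order `k` about the same vertex are powers of each other: both become equal to the rotation
by `dgs s r / k` darts (`normal`, `iso_unique`). -/
theorem Rot.pow_eq (h : Good a s) {ρ' : Perm T} (hr : Rot a s ρ k r) (hr' : Rot a s ρ' k r) :
    ∃ i : ℕ, i.Coprime k ∧ ρ' = ρ ^ i := by 
  have hk2 := hr.k2
  obtain ⟨_, i, hi, h1⟩ := hr.normal h
  obtain ⟨_, i', hi', h1'⟩ := hr'.normal h
  have h2 : ρ ^ i = ρ' ^ i' :=
    iso_unique h r _ _ (Poles_comm hr.ra i) (Poles_comm hr.rs i) (Poles_comm hr'.ra i')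
      (Poles_comm hr'.rs i') (h1.trans h1'.symm)
  obtain ⟨j, -, hj⟩ := Nat.exists_mul_mod_eq_one_of_coprime hi' (by omega)
  have hj' : j.Coprime k := by
    have h3 : j.gcd k ∣ i' * j % k :=
      (Nat.dvd_mod_iff (Nat.gcd_dvd_right _ _)).2 (Dvd.dvd.mul_left (Nat.gcd_dvd_left _ _) _)
    rw [hj] at h3
    exact Nat.dvd_one.1 h3
  refine ⟨i * j, Nat.Coprime.mul_left hi hj', ?_⟩
  rw [pow_mul, h2, ← pow_mul]
  ext t
  rw [hr'.Poles_mod, hj, pow_one]

end

end PGr

end

section
/-! # Module GIso: isomorphic cores and nets give isomorphic maps -/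

set_option linter.unusedSectionVars false

namespace PGr
open Equiv Finset

section

/-- an isomorphism of nets which maps root darts to root darts, on the nonroot darts -/
theorem GIso_net {M M' : BMap} {c : Bool} (f : M.T ≃ M'.T)
    (fr : ∀ b, f (Sum.inr b) = Sum.inr (xor c b)) :
    ∃ g : M.D ≃ M'.D, ∀ d, f (Sum.inl d) = Sum.inl (g d) := by
  have h1 : ∀ d, ∃ d', f (Sum.inl d) = Sum.inl d' := by
    intro d
    rcases h : f (Sum.inl d) with d' | b
    · exact ⟨d', rfl⟩
    · exfalso
      have h2 : f (Sum.inr (xor c b)) = Sum.inr b := by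
        rw [fr]; cases c <;> cases b <;> rfl
      have h3 := f.injective (h.trans h2.symm)
      simp at h3
  choose g hg using h1
  have hbij : Function.Bijective g := by
    constructor
    · intro d d' h
      have h2 : f (Sum.inl d) = f (Sum.inl d') := by rw [hg, hg, h]
      exact Sum.inl_injective (f.injective h2)
    · intro d'
      rcases h : f.symm (Sum.inl d') with d | b
      · refine ⟨d, ?_⟩
        have h2 : f (Sum.inl d) = Sum.inl d' := by rw [← h, Equiv.apply_symm_apply]
        rw [hg] at h2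
        exact Sum.inl_injective h2
      · exfalso
        have h2 : f (Sum.inr b) = Sum.inl d' := by rw [← h, Equiv.apply_symm_apply]
        rw [fr] at h2
        simp at h2
  exact ⟨Equiv.ofBijective g hbij, hg⟩

/-- The bijection is `inl ⟨i, d⟩ ↦ inl ⟨eK i, d'⟩` where `inl d' = f i (inl d)` for the given isomorphisms `f i` of the nets
(they map root darts to root darts, so nonroot darts to nonroot darts), and `inr t ↦ inr (eR t)`.  `Fs`: inside a net clear; if
`(N i).s (inl d) = inr b`, then `(N' (eK i)).s (inl d') = inr (xor (c i) b)`, and `f i` maps `fstD (N i) b` to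
`fstD (N' (eK i)) (xor (c i) b)`, so the bijection maps `gjump C N x` to `gjump C' N' (gmap x)`. -/
theorem GCo.iso_of {C C' : GCo} {N : C.K → GB} {N' : C'.K → GB} (eK : C.K ≃ C'.K)
    (eR : C.R ≃ C'.R) (c : C.K → Bool) (ha : ∀ t, eR (C.aR t) = C'.aR (eR t))
    (hs : ∀ x, gmap eK eR c (C.s x) = C'.s (gmap eK eR c x))
    (f : ∀ i, (N i).1.T ≃ (N' (eK i)).1.T)
    (fa : ∀ i t, f i ((N i).1.aa t) = (N' (eK i)).1.aa (f i t))
    (fs : ∀ i t, f i ((N i).1.s t) = (N' (eK i)).1.s (f i t))
    (fr : ∀ i b, f i (Sum.inr b) = Sum.inr (xor (c i) b)) :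
    ∃ e : C.FT N ≃ C'.FT N', (∀ t, e (C.Fa N t) = C'.Fa N' (e t)) ∧
      (∀ t, e (C.Fs N t) = C'.Fs N' (e t)) ∧ (∀ t, e (Sum.inr t) = Sum.inr (eR t)) ∧
      ∀ i d d', f i (Sum.inl d) = Sum.inl d' → e (Sum.inl ⟨i, d⟩) = Sum.inl ⟨eK i, d'⟩ := by
  choose g hg using fun i => GIso_net (f i) (fr i)
  set e : C.FT N ≃ C'.FT N' := Equiv.sumCongr (Equiv.sigmaCongr eK g) eR with he
  have hel : ∀ i d, e (Sum.inl ⟨i, d⟩) = Sum.inl ⟨eK i, g i d⟩ := fun i d => rfl
  have her : ∀ t, e (Sum.inr t) = Sum.inr (eR t) := fun t => rfl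
  have hfst : ∀ j b, g j (fstD (N j) b) = fstD (N' (eK j)) (xor (c j) b) := by
    intro j b
    have h1 := fs j (Sum.inr b)
    rw [fstD_spec, hg, fr, fstD_spec] at h1
    exact Sum.inl_injective h1
  have hj : ∀ x, e (gjump C N x) = gjump C' N' (gmap eK eR c x) := by
    rintro (⟨j, b⟩ | t)
    · show e (Sum.inl ⟨j, fstD (N j) b⟩) = Sum.inl ⟨eK j, fstD (N' (eK j)) (xor (c j) b)⟩
      rw [hel, hfst]
    · rfl
  refine ⟨e, ?_, ?_, her, ?_⟩
  · rintro (⟨i, d⟩ | t)
    · show e (Sum.inl ⟨i, (N i).1.a d⟩) = Sum.inl ⟨eK i, (N' (eK i)).1.a (g i d)⟩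
      rw [hel]
      have h1 : f i (Sum.inl ((N i).1.a d)) = (N' (eK i)).1.aa (f i (Sum.inl d)) := fa i (Sum.inl d)
      rw [hg, hg] at h1
      have h2 : g i ((N i).1.a d) = (N' (eK i)).1.a (g i d) := Sum.inl_injective h1
      rw [h2]
    · show e (Sum.inr (C.aR t)) = Sum.inr (C'.aR (eR t))
      rw [her, ha]
  · rintro (⟨i, d⟩ | t)
    · rw [hel]
      have h1 := fs i (Sum.inl d)
      rcases h : (N i).1.s (Sum.inl d) with d' | b
      · rw [h, hg, hg] at h1
        rw [GCo.Fs_in C N h, GCo.Fs_in C' N' h1.symm, hel]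
      · rw [h, fr, hg] at h1
        rw [GCo.Fs_out C N h, GCo.Fs_out C' N' h1.symm, hj, hs]
        rfl
    · rw [her, GCo.Fs_inr, GCo.Fs_inr, hj, hs]
      rfl
  · intro i d d' h
    rw [hg] at h
    rw [hel, Sum.inl_injective h]

theorem CIso.choose_iso {c : Bool} {M N : BMap} (h : CIso c M N) : ∃ e : M.T ≃ N.T,
    (∀ t, e (M.aa t) = N.aa (e t)) ∧ (∀ t, e (M.s t) = N.s (e t)) ∧
      ∀ b, e (Sum.inr b) = Sum.inr (xor c b) := h

/-- `e (inr false) = e (aa (inr true)) = aa (inr true)` -/
theorem CIso_false {M N : BMap} : CIso false M N ↔ BIso M N := by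
  constructor
  · rintro ⟨e, h1, h2, h3⟩
    exact ⟨e, h1, h2, h3 true⟩
  · rintro ⟨e, h1, h2, h3⟩
    refine ⟨e, h1, h2, fun b => ?_⟩
    cases b
    · have h4 := h1 (Sum.inr true)
      rw [h3] at h4
      exact h4
    · exact h3

theorem CIso.symm {c : Bool} {M N : BMap} (h : CIso c M N) : CIso c N M := by
  obtain ⟨e, h1, h2, h3⟩ := h
  refine ⟨e.symm, fun t => ?_, fun t => ?_, fun b => ?_⟩
  · rw [Equiv.symm_apply_eq, h1, Equiv.apply_symm_apply]
  · rw [Equiv.symm_apply_eq, h2, Equiv.apply_symm_apply]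
  · rw [Equiv.symm_apply_eq, h3]
    cases c <;> cases b <;> rfl

theorem CIso.trans {c c' : Bool} {M N K : BMap} (h : CIso c M N) (h' : CIso c' N K) :
    CIso (xor c c') M K := by
  obtain ⟨e, h1, h2, h3⟩ := h
  obtain ⟨e', h1', h2', h3'⟩ := h'
  refine ⟨e.trans e', fun t => ?_, fun t => ?_, fun b => ?_⟩
  · rw [Equiv.trans_apply, Equiv.trans_apply, h1, h1']
  · rw [Equiv.trans_apply, Equiv.trans_apply, h2, h2']
  · rw [Equiv.trans_apply, h3, h3']
    cases c <;> cases c' <;> cases b <;> rfl

end

end PGr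

end
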