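import Pool.Agent.PGc.Four
import Pool.Agent.PGm.M06
import Pool.Agent.PGr.PlRestrict
import Pool.Agent.PGr.PlSum
import Pool.Agent.PGr.RetLib

section
/-! # Module DblC: the double is planar -/

set_option linter.unusedSectionVars false

namespace PGr
open Equiv Finset

section
variable {T : Type} [Fintype T] [DecidableEq T] {a s : Perm T} {r : T} {μ : T → Ltr}

theorem DblC_ce (hinv : ∀ t, a (a t) = t) (t : T) : CE a μ (a t) ↔ CE a μ t := by
  unfold CE
  rw [hinv]
  exact or_comm

theorem DblC_dA_up (hinv : ∀ t, a (a t) = t) (t : T) :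
    dA a μ hinv (dup a μ t) = dup a μ (a t) := rfl

theorem DblC_dA_lo (hinv : ∀ t, a (a t) = t) (t : T) :
    dA a μ hinv (dlo a μ t) = dlo a μ (a t) := by
  by_cases h : CE a μ t
  · rw [dlo_pos a μ h, dlo_pos a μ ((DblC_ce hinv t).2 h)]
    rfl
  · rw [dlo_neg a μ h, dlo_neg a μ (fun h' => h ((DblC_ce hinv t).1 h'))]
    rfl

/-- sums over all darts, over the cycles of the rotation and over the faces vanish -/
theorem DblC_pot (hH : HH a s r) (P Q : T → ZMod 2)
    (h : ∀ t, ¬ (a * s).SameCycle r t → P t + P (s t) = Q t + Q ((a * s) t)) :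
    ∃ h : T → ZMod 2, (∀ t, h (a t) = h t) ∧ ∀ t, h t + h (s t) = P t + P (s t) := by
  refine (Pl_iff_sums hH.inv).1 hH.pl (fun t => P t + P (s t)) (fun t => sum_cycle_eq_zero s P t) ?_
  intro t
  by_cases ht : (a * s).SameCycle r t
  · have h1 : ∑ x, (P x + P (s x)) = 0 := by
      rw [sum_add_distrib, Equiv.sum_comp s P]
      exact PlSum.two _
    have h2 := sum_filter_add_sum_filter_not univ (fun x => (a * s).SameCycle t x)
      (fun x => P x + P (s x))
    have h3 : ∑ x ∈ univ.filter (fun x => ¬ (a * s).SameCycle t x), (P x + P (s x)) = 0 := by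
      have h4 : ∑ x ∈ univ.filter (fun x => ¬ (a * s).SameCycle t x), (P x + P (s x)) =
          ∑ x ∈ univ.filter (fun x => ¬ (a * s).SameCycle t x), (Q x + Q ((a * s) x)) := by
        refine sum_congr rfl fun x hx => h x fun hx' => ?_
        exact (mem_filter.1 hx).2 (ht.symm.trans hx')
      have h5 : ∑ x ∈ univ.filter (fun x => ¬ (a * s).SameCycle t x), Q ((a * s) x) =
          ∑ x ∈ univ.filter (fun x => ¬ (a * s).SameCycle t x), Q x := by
        apply Finset.sum_bij (fun x _ => (a * s) x)
        · intro x hx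
          rw [mem_filter] at hx ⊢
          exact ⟨mem_univ _, fun h' => hx.2 (Perm.sameCycle_apply_right.1 h')⟩
        · intro x _ y _ h; exact (a * s).injective h
        · intro y hy
          rw [mem_filter] at hy
          refine ⟨(a * s)⁻¹ y, ?_, by simp⟩
          rw [mem_filter]
          exact ⟨mem_univ _, fun h' => hy.2 (h'.trans ⟨1, by simp⟩)⟩
        · intro x _; rfl
      rw [h4, sum_add_distrib, h5]
      exact PlSum.two _
    rw [h3, add_zero, h1] at h2
    exact h2
  · have h4 : ∑ x ∈ univ.filter (fun x => (a * s).SameCycle t x), (P x + P (s x)) =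
        ∑ x ∈ univ.filter (fun x => (a * s).SameCycle t x), (Q x + Q ((a * s) x)) := by
      refine sum_congr rfl fun x hx => h x fun hx' => ?_
      exact ht (hx'.trans (mem_filter.1 hx).2.symm)
    rw [h4]
    exact sum_cycle_eq_zero (a * s) Q t

/-- Proof.  Let `p, q` be given on the darts of the double with `p z + q (a z) = p (s z) + q (s z)` for all `z` (`a, s` the
involution and the rotation of the double).  On the half map put `p₀ t = p (up t)`, and for the upper copy
`j₀ t = p₀ t + p₀ (s t)` for ALL `t`.  Sums of `j₀` over cycles of `s` vanish; the sum over a face other than the root face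
vanishes, because there all letters are `J` and `j₀ t = q (up (a t)) + q (up (s t))`, with `s t = a (ψ t)`, telescopes; the
sum over the root face vanishes because the sum over all `t` does.  By `Pl_iff_sums` there is `h₀` with `h₀ (a t) = h₀ t`,
`h₀ t + h₀ (s t) = p₀ t + p₀ (s t)`.  In the same way for the lower copy: `p₁ t = p (dlo t)`, `h₁`: for `t` with letter `J`
the rotation maps `dlo (s t)` to `dlo t` (if `s t` is not on the axis; if `s t` is on the axis, then `μ (s t) = C` and
`dS (up (s t)) = dlo t`), so `p₁ (s t) + q (dlo (a (s t))) = p₁ t + q (dlo t)`, where for `t` on the axis, `dlo t = up t`.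
Define for `t` in the root face, with `u = a t`:
  `Γ t = q (up (a t)) + q (dlo t) + h₀ t + h₁ t` if `μ t ≠ C`, and `Γ t = h₀ t + h₁ t` if `μ t = C`.
Claim: `Γ (a (s t)) = Γ t`.  With `ψ t = a (s t)`; if `μ (ψ t) ≠ C`: `Γ (ψ t) = q (up (s t)) + q (dlo (a (s t))) + h₀ (s t) + h₁ (s t)`.
`J`: (`μ (ψ t) ≠ C` by `next`, `μ t ≠ C`) add the equations at the corners `up t` and `dlo (s t)` (or its replacement) and the
equations of `h₀`, `h₁` at `t`.  `G`: `p₀ t + q (up (a t)) = p₁ t + q (dlo t)`, so `Γ t = p₀ t + h₀ t + p₁ t + h₁ t =: δ t`; and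
`p₁ (s t) + q (dlo (a (s t))) = p₀ (s t) + q (up (s t))` if `s t` is not on the axis, so `Γ (ψ t) = δ (s t) = δ t`
(`p + h` is invariant under `s`); if `s t` is on the axis, `μ (ψ t) = C`, `p₁ (s t) = p₀ (s t)`, `Γ (ψ t) = h₀ (s t) + h₁ (s t) = δ (s t)`.
`X`: with the crossing darts `z, z'`: `Γ t = δ t + p z + p z' = Γ (ψ t)`.
`C`: `p₁ t = p₀ t`, so `Γ t = δ t`, and `Γ (ψ t) = δ (s t)` as for `G`.
So `Γ` is constant on the root face; adding the constant to `h₁` we may assume `Γ = 0`.  Define `h (up t) = h₀ t`,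
`h (dlo t) = h₁ t` (consistent on the axis: if `μ t = C` then `h₀ t + h₁ t = Γ t = 0`, and both are invariant under `a`),
`h` of a crossing edge at the corner `t`: `h₀ t + p₀ t + p z = h₁ t + p₁ t + p z'` (`Γ t = δ t + p z + p z' = 0`).  Then
`p + h` is constant on the cycles of the rotation: check every type of corner (`G`: `δ t = 0`). -/
theorem dbl_pl (hH : HH a s r) (hM : Mark a s r μ) : Pl (dA a μ hH.inv) (dS hH hM) := by
  intro p q hpq
  -- the corner equations
  have hlo : ∀ {t : T}, CE a μ t → dlo a μ t = dup a μ t := fun h => dlo_pos a μ h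
  have EJ : ∀ t, μ t = .J → p (dup a μ t) + q (dup a μ (a t)) =
      p (dup a μ (s t)) + q (dup a μ (s t)) := by
    intro t ht
    have h := hpq (dup a μ t)
    rwa [DblC_dA_up, dS_J hH hM ht] at h
  have EJ' : ∀ t, μ t = .J → p (dlo a μ (s t)) + q (dlo a μ (a (s t))) =
      p (dlo a μ t) + q (dlo a μ t) := by
    intro t ht
    have h := hpq (dlo a μ (s t))
    rw [DblC_dA_lo] at h
    by_cases hc : CE a μ (s t)
    · have h1 := (Mark.ce_s hH hM (Or.inl ht) hc).2
      have h2 := dS_C hH hM h1
      rw [Equiv.symm_apply_apply] at h2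
      rwa [hlo hc, h2, ← hlo hc] at h
    · rwa [dS_loJ hH hM ht hc] at h
  have EG : ∀ t, μ t = .G → p (dup a μ t) + q (dup a μ (a t)) = p (dlo a μ t) + q (dlo a μ t) := by
    intro t ht
    have h := hpq (dup a μ t)
    rwa [DblC_dA_up, dS_G hH hM ht] at h
  have EGC : ∀ t, (μ t = .G ∨ μ t = .C) → ¬ CE a μ (s t) →
      p (dlo a μ (s t)) + q (dlo a μ (a (s t))) = p (dup a μ (s t)) + q (dup a μ (s t)) := by
    intro t ht hc
    have h := hpq (dlo a μ (s t))
    rwa [DblC_dA_lo, dS_loGC hH hM ht hc] at h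
  have EX : ∀ t (ht : μ t = .X), p (dup a μ t) + q (dup a μ (a t)) =
      p (Sum.inr (Sum.inr (⟨t, ht⟩, true))) + q (Sum.inr (Sum.inr (⟨t, ht⟩, true))) := by
    intro t ht
    have h := hpq (dup a μ t)
    rwa [DblC_dA_up, dS_X hH hM ht] at h
  have EXt : ∀ t (ht : μ t = .X), p (Sum.inr (Sum.inr (⟨t, ht⟩, true))) +
      q (Sum.inr (Sum.inr (⟨t, ht⟩, false))) = p (dup a μ (s t)) + q (dup a μ (s t)) := by
    intro t ht
    have h := hpq (Sum.inr (Sum.inr (⟨t, ht⟩, true)))
    rw [dS_xt hH hM ht] at h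
    exact h
  have EXl : ∀ t (ht : μ t = .X), p (dlo a μ (s t)) + q (dlo a μ (a (s t))) =
      p (Sum.inr (Sum.inr (⟨t, ht⟩, false))) + q (Sum.inr (Sum.inr (⟨t, ht⟩, false))) := by
    intro t ht
    have h := hpq (dlo a μ (s t))
    rwa [DblC_dA_lo, dS_loX hH hM ht] at h
  have EXf : ∀ t (ht : μ t = .X), p (Sum.inr (Sum.inr (⟨t, ht⟩, false))) +
      q (Sum.inr (Sum.inr (⟨t, ht⟩, true))) = p (dlo a μ t) + q (dlo a μ t) := by
    intro t ht
    have h := hpq (Sum.inr (Sum.inr (⟨t, ht⟩, false)))
    rw [dS_xf hH hM ht] at h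
    exact h
  have hJ : ∀ t, ¬ (a * s).SameCycle r t → μ t = .J := fun t ht =>
    by_contra fun h => ht (hM.dom t h)
  -- the potentials of the two copies
  obtain ⟨h0, h0a, h0s⟩ := DblC_pot hH (fun t => p (dup a μ t)) (fun t => q (dup a μ (a t))) (by
    intro t ht
    have h := EJ t (hJ t ht)
    simp only [Perm.mul_apply, hH.inv]
    grind)
  obtain ⟨h1, h1a, h1s⟩ := DblC_pot hH (fun t => p (dlo a μ t)) (fun t => q (dlo a μ t)) (by
    intro t ht
    have h := EJ' t (hJ t ht)
    simp only [Perm.mul_apply]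
    grind)
  -- the function Γ
  obtain ⟨Γ, hΓ⟩ : ∃ Γ : T → ZMod 2, ∀ t, Γ t = if μ t = .C then h0 t + h1 t else
      q (dup a μ (a t)) + q (dlo a μ t) + h0 t + h1 t := ⟨_, fun t => rfl⟩
  have hΓC : ∀ t, μ t = .C → Γ t = h0 t + h1 t := fun t h => by rw [hΓ, if_pos h]
  have hΓN : ∀ t, μ t ≠ .C → Γ t = q (dup a μ (a t)) + q (dlo a μ t) + h0 t + h1 t :=
    fun t h => by rw [hΓ, if_neg h]
  -- values of Γ
  have hG1 : ∀ t, μ t = .G ∨ μ t = .C →
      Γ t = p (dup a μ t) + h0 t + p (dlo a μ t) + h1 t := by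
    rintro t (ht | ht)
    · rw [hΓN t (by rw [ht]; decide)]
      have h := EG t ht
      grind
    · rw [hΓC t ht, hlo (Or.inl ht)]
      grind
  have hG2 : ∀ t, μ t = .G ∨ μ t = .C →
      Γ (a (s t)) = p (dup a μ (s t)) + h0 (s t) + p (dlo a μ (s t)) + h1 (s t) := by
    intro t ht
    have e0 := h0a (s t)
    have e1 := h1a (s t)
    by_cases hc : CE a μ (s t)
    · rw [hΓC _ (Mark.ce_GC hH hM ht hc), hlo hc]
      grind
    · have hne : μ (a (s t)) ≠ .C := fun h => hc (Or.inr h)
      rw [hΓN _ hne, hH.inv]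
      have h := EGC t ht hc
      grind
  have hX1 : ∀ t (ht : μ t = .X), Γ t = p (dup a μ t) + h0 t + p (dlo a μ t) + h1 t +
      p (Sum.inr (Sum.inr (⟨t, ht⟩, true))) + p (Sum.inr (Sum.inr (⟨t, ht⟩, false))) := by
    intro t ht
    rw [hΓN t (by rw [ht]; decide)]
    have e1 := EX t ht
    have e2 := EXf t ht
    grind
  have hinv : ∀ t, Γ (a (s t)) = Γ t := by
    intro t
    have e0 := h0a (s t)
    have e1 := h1a (s t)
    have f0 := h0s t
    have f1 := h1s t
    rcases hμ : μ t with _ | _ | _ | _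
    · rw [hG2 t (Or.inr hμ), hG1 t (Or.inr hμ)]
      grind
    · rw [hΓN t (by rw [hμ]; decide), hΓN _ (hM.next t (Or.inl hμ)), hH.inv]
      have e2 := EJ t hμ
      have e3 := EJ' t hμ
      grind
    · rw [hG2 t (Or.inl hμ), hG1 t (Or.inl hμ)]
      grind
    · rw [hX1 t hμ, hΓN _ (hM.next t (Or.inr hμ)), hH.inv]
      have e2 := EXt t hμ
      have e3 := EXl t hμ
      grind
  have hconst : ∀ t, (a * s).SameCycle r t → Γ t = Γ r := by
    intro t ht
    obtain ⟨n, hn⟩ := PlSum.exists_pow (a * s) ht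
    rw [← hn]
    clear hn
    induction n with
    | zero => rfl
    | succ n ih =>
      rw [pow_succ', Perm.mul_apply, Perm.mul_apply, hinv, ih]
  have hroot : ∀ t, μ t ≠ .J → Γ t = Γ r := fun t h => hconst t (hM.dom t h)
  obtain ⟨g, hg⟩ : ∃ g : T → ZMod 2, ∀ t, g t = h1 t + Γ r := ⟨_, fun t => rfl⟩
  have hga : ∀ t, g (a t) = g t := fun t => by rw [hg, hg, h1a]
  have hgs : ∀ t, g t + g (s t) = p (dlo a μ t) + p (dlo a μ (s t)) := by
    intro t
    have e := h1s t
    rw [hg, hg]
    grind
  have hC0 : ∀ t, μ t = .C → h0 t = g t := by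
    intro t ht
    have e1 := hroot t (by rw [ht]; decide)
    have e2 := hΓC t ht
    rw [hg]
    grind
  have hCE : ∀ t, CE a μ t → h0 t = g t := by
    rintro t (ht | ht)
    · exact hC0 t ht
    · have := hC0 _ ht
      rwa [h0a, hga] at this
  have hδ : ∀ t, μ t = .G ∨ μ t = .C → p (dup a μ t) + h0 t + p (dlo a μ t) + g t = 0 := by
    intro t ht
    have e1 := hroot t (by rcases ht with h | h <;> rw [h] <;> decide)
    have e2 := hG1 t ht
    rw [hg]
    grind
  have hδX : ∀ t (ht : μ t = .X), p (dup a μ t) + h0 t + p (dlo a μ t) + g t +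
      p (Sum.inr (Sum.inr (⟨t, ht⟩, true))) + p (Sum.inr (Sum.inr (⟨t, ht⟩, false))) = 0 := by
    intro t ht
    have e1 := hroot t (by rw [ht]; decide)
    have e2 := hX1 t ht
    rw [hg]
    grind
  -- the function on the double
  obtain ⟨H, Hup, Hl, Hx⟩ : ∃ H : DT a μ → ZMod 2, (∀ t, H (Sum.inl t) = h0 t) ∧
      (∀ t, H (Sum.inr (Sum.inl t)) = g t.1) ∧
      ∀ t b, H (Sum.inr (Sum.inr (t, b))) = h0 t.1 + p (dup a μ t.1) +
        p (Sum.inr (Sum.inr (t, true))) :=
    ⟨fun z => match z with
      | Sum.inl t => h0 t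
      | Sum.inr (Sum.inl t) => g t.1
      | Sum.inr (Sum.inr (t, _)) => h0 t.1 + p (dup a μ t.1) + p (Sum.inr (Sum.inr (t, true))),
      fun _ => rfl, fun _ => rfl, fun _ _ => rfl⟩
  have Hlo : ∀ t, H (dlo a μ t) = g t := by
    intro t
    by_cases h : CE a μ t
    · rw [dlo_pos a μ h, Hup, hCE t h]
    · rw [dlo_neg a μ h, Hl]
  refine ⟨H, ?_, ?_⟩
  · rintro (t | t | ⟨t, b⟩)
    · show H (Sum.inl (a t)) = H (Sum.inl t)
      rw [Hup, Hup, h0a]
    · show H (Sum.inr (Sum.inl _)) = H (Sum.inr (Sum.inl t))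
      rw [Hl, Hl, hga]
    · show H (Sum.inr (Sum.inr (t, !b))) = H (Sum.inr (Sum.inr (t, b)))
      rw [Hx, Hx]
  · -- lower copies
    have low : ∀ t, ¬ CE a μ (s t) → H (dlo a μ (s t)) + H (dS hH hM (dlo a μ (s t))) =
        p (dlo a μ (s t)) + p (dS hH hM (dlo a μ (s t))) := by
      intro t hc
      have e := hgs t
      have e0 := h0s t
      rw [Hlo]
      rcases hμ : μ t with _ | _ | _ | _
      · rw [dS_loGC hH hM (Or.inr hμ) hc, Hup]
        have e1 := hδ t (Or.inr hμ)
        grind
      · rw [dS_loJ hH hM hμ hc, Hlo]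
        grind
      · rw [dS_loGC hH hM (Or.inl hμ) hc, Hup]
        have e1 := hδ t (Or.inl hμ)
        grind
      · rw [dS_loX hH hM hμ, Hx]
        have e1 := hδX t hμ
        grind
    rintro (t | t | ⟨⟨t, ht⟩, b⟩)
    · have e0 := h0s t
      show H (dup a μ t) + H (dS hH hM (dup a μ t)) = p (dup a μ t) + p (dS hH hM (dup a μ t))
      rcases hμ : μ t with _ | _ | _ | _
      · rw [dS_C hH hM hμ, Hlo, Hup]
        have e1 := hgs (s.symm t)
        rw [Equiv.apply_symm_apply] at e1
        have e2 := hC0 t hμ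
        rw [hlo (Or.inl hμ)] at e1
        grind
      · rw [dS_J hH hM hμ, Hup, Hup]
        exact e0
      · rw [dS_G hH hM hμ, Hlo, Hup]
        have e1 := hδ t (Or.inl hμ)
        grind
      · rw [dS_X hH hM hμ, Hx, Hup]
        grind
    · have h1 := low (s.symm t.1) (by rw [Equiv.apply_symm_apply]; exact t.2)
      rw [Equiv.apply_symm_apply, dlo_neg a μ t.2] at h1
      exact h1
    · cases b
      · rw [dS_xf hH hM ht, Hx, Hlo]
        have e1 := hδX t ht
        grind
      · rw [dS_xt hH hM ht, Hx, Hup]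
        have e0 := h0s t
        grind

end

end PGr

end

section
/-! # Module HalfA: the closed upper half, local facts -/

set_option linter.unusedSectionVars false

namespace PGr
open Equiv Finset

section
variable {T : Type*} [Fintype T] [DecidableEq T] {a s e : Perm T} {g : T → ZMod 2} {r : T} {ty : Ltr}

theorem HalfA_z (x : ZMod 2) : x = 0 ∨ x = 1 := by revert x; decide

theorem HalfA_mem {t : T} : t ∈ HP a e g ↔ e t = t ∨ (g t = 0 ∧ e t ≠ a t) := by
  simp [HP]

/-- `e` maps cycles of `s` to cycles of `s` -/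
theorem HalfA_same (h : Refl a s e) {t z : T} (hz : s.SameCycle t z) :
    s.SameCycle (e t) (e z) := by
  have h1 := hz.conj (g := e)
  have h2 : e * s * e⁻¹ = s⁻¹ := by
    ext x
    rw [Perm.mul_apply, Perm.mul_apply]
    have h3 := h.es (e⁻¹ x)
    have h4 : e (e⁻¹ x) = x := e.apply_symm_apply x
    rw [h4] at h3
    rw [Perm.eq_inv_iff_eq]
    exact h3
  rw [h2] at h1
  exact Perm.sameCycle_inv.1 h1

theorem HalfA_ea_cr (h : NR a s e g r ty) {t : T} (ht : e t = a t) : e (a t) = a (a t) := by
  rw [h.refl.ea, ht]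

/-- by `Side.ga` -/
theorem NR.cl (h : NR a s e g r ty) : Cl a (HP a e g) := by
  intro t
  rw [HalfA_mem, HalfA_mem]
  have h1 : e (a t) = a t ↔ e t = t := by
    rw [h.refl.ea]; exact a.injective.eq_iff
  have h2 : e (a t) = a (a t) ↔ e t = a t := by
    rw [h.refl.ea]; exact a.injective.eq_iff
  rw [h1, Ne, h2]
  by_cases h3 : e t = t
  · simp [h3]
  · by_cases h4 : e t = a t
    · simp [h4]
    · have := h.side.ga t
      rw [if_neg h3, if_neg h4, add_zero, add_zero] at this
      rw [this]

/-- in type `G`: `s r ≠ a r` (`Good.s_ne_a`), in type `C`: `r ≠ a r` -/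
theorem NR.root_nc (h : NR a s e g r ty) : e r ≠ a r := by
  have h1 := h.typ
  cases ty with
  | C =>
    have h2 : e r = r := h1
    rw [h2]; exact (h.good.fpf r).symm
  | J => exact h1.elim
  | G =>
    have h2 : e r = s r := h1
    rw [h2]; exact h.good.s_ne_a r
  | X => exact h1.2

/-- by the types: `e r = r`, or `g r = 0` and `r` is not crossing (type `G`: `s r ≠ a r` by `s_ne_a`) -/
theorem NR.root_mem (h : NR a s e g r ty) : r ∈ HP a e g := by
  rw [HalfA_mem]
  have h1 := h.typ
  have h2 := h.gr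
  have h3 := h.root_nc
  cases ty with
  | C => exact Or.inl h1
  | J => exact h1.elim
  | G => exact Or.inr ⟨by simpa using h2, h3⟩
  | X => exact Or.inr ⟨by simpa using h2, h3⟩

/-- A crossing dart and a dart on the axis, or a bisected corner, are never at the same vertex: `e` moves
the vertex of a crossing dart (`noLoop`) and fixes the other one. -/
theorem NR.cr_vertex (h : NR a s e g r ty) {t : T} (ht : e t = a t) {z : T}
    (hz : s.SameCycle t z) : ¬ s.SameCycle z (e z) := by
  intro h1
  have h2 := HalfA_same h.refl hz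
  rw [ht] at h2
  exact h.good.noLoop t (hz.trans (h1.trans h2.symm))

theorem HalfA_s1 (s : Perm T) (t : T) : s.SameCycle t (s t) := ⟨1, by simp⟩

theorem HalfA_sm (s : Perm T) (t : T) : s.SameCycle t (s.symm t) := ⟨-1, by simp [Perm.inv_def]⟩

/-- Two crossing darts are never consecutive.  Proof: let `A = {t, a t, s t, a (s t)}`; its boundary corners are
among `s⁻¹ t`, `s t`, `s⁻¹ (a (s t))`, `a t` (as `s (a (s t)) = s (e (s t)) = e t = a t`), so the cut is at most 4.
`A ≠ univ` as `r ∉ A` (`root_nc`; `A` consists of crossing darts).  So the cut is 4, the ends are swapped by `e`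
(`noLoop`), `A` is invariant, so `A.card = 2` by `red`, but `t`, `a t`, `s t` are different (`s_ne`, `s_ne_a`). -/
theorem NR.no_cr_cr (h : NR a s e g r ty) {t : T} (ht : e t = a t) : e (s t) ≠ a (s t) := by
  intro hst
  have hinv := h.good.inv
  have h1 : s (a (s t)) = a t := by rw [← hst, h.refl.es, ht]
  have hat : e (a t) = a (a t) := HalfA_ea_cr h ht
  have hast : e (a (s t)) = a (a (s t)) := HalfA_ea_cr h hst
  set A : Finset T := {t, a t, s t, a (s t)} with hA
  have hmem : ∀ x, x ∈ A ↔ x = t ∨ x = a t ∨ x = s t ∨ x = a (s t) := by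
    intro x; simp [hA]
  have hcr : ∀ x ∈ A, e x = a x := by
    intro x hx
    rcases (hmem x).1 hx with rfl | rfl | rfl | rfl
    · exact ht
    · exact hat
    · exact hst
    · exact hast
  have hcl : Cl a A := by
    have key : ∀ x, x ∈ A → a x ∈ A := by
      intro x hx
      rcases (hmem x).1 hx with rfl | rfl | rfl | rfl
      · exact (hmem _).2 (Or.inr (Or.inl rfl))
      · exact (hmem _).2 (Or.inl (hinv _))
      · exact (hmem _).2 (Or.inr (Or.inr (Or.inr rfl)))
      · exact (hmem _).2 (Or.inr (Or.inr (Or.inl (hinv _))))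
    intro x
    refine ⟨fun hx => ?_, key x⟩
    have := key _ hx
    rwa [hinv] at this
  have hr : r ∉ A := fun hr => h.root_nc (hcr r hr)
  have hbd : bd s A ⊆ {a t, s t, s.symm t, s.symm (a (s t))} := by
    intro x hx
    simp only [bd, mem_filter, mem_univ, true_and] at hx
    simp only [mem_insert, mem_singleton]
    by_cases hxA : x ∈ A
    · have h2 : s x ∉ A := fun h3 => hx (iff_of_true hxA h3)
      rcases (hmem x).1 hxA with rfl | rfl | rfl | rfl
      · exact absurd ((hmem _).2 (Or.inr (Or.inr (Or.inl rfl)))) h2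
      · exact Or.inl rfl
      · exact Or.inr (Or.inl rfl)
      · exact absurd ((hmem _).2 (Or.inr (Or.inl h1))) h2
    · have h2 : s x ∈ A := by
        by_contra h3
        exact hx (iff_of_false hxA h3)
      rcases (hmem _).1 h2 with h3 | h3 | h3 | h3
      · right; right; left
        exact (Equiv.eq_symm_apply s).2 h3
      · exfalso
        apply hxA
        have : x = a (s t) := s.injective (by rw [h3, h1])
        exact (hmem _).2 (Or.inr (Or.inr (Or.inr this)))
      · exfalso
        apply hxA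
        exact (hmem _).2 (Or.inl (s.injective h3))
      · right; right; right
        exact (Equiv.eq_symm_apply s).2 h3
  have hcut4 : cut s A ≤ 4 := by
    refine (card_le_card hbd).trans ?_
    exact Finset.card_le_four
  have hcut : cut s A = 4 := by
    refine le_antisymm hcut4 (h.good.ns A hcl ⟨t, (hmem _).2 (Or.inl rfl)⟩ ?_)
    intro hu
    exact hr (hu ▸ mem_univ r)
  have hinvA : ∀ x ∈ A, e x ∈ A := by
    intro x hx
    rw [hcr x hx]
    exact (hcl x).2 hx
  have hends : ∀ x ∈ bd s A, ¬ s.SameCycle x (e x) := by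
    intro x hx
    have hx' := hbd hx
    simp only [mem_insert, mem_singleton] at hx'
    rcases hx' with rfl | rfl | rfl | rfl
    · exact h.cr_vertex hat (Perm.SameCycle.refl _ _)
    · exact h.cr_vertex hst (Perm.SameCycle.refl _ _)
    · exact h.cr_vertex ht (HalfA_sm s t)
    · exact h.cr_vertex hast (HalfA_sm s _)
  have hcard := h.red A hcl hinvA hcut hr hends
  have h3 : ({t, a t, s t} : Finset T).card = 3 := by
    rw [Finset.card_eq_three]
    exact ⟨t, a t, s t, (h.good.fpf t).symm, (h.good.s_ne t).symm, (h.good.s_ne_a t).symm, rfl⟩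
  have h4 : ({t, a t, s t} : Finset T) ⊆ A := by
    intro x hx
    simp only [mem_insert, mem_singleton] at hx
    rw [hmem]
    tauto
  have := card_le_card h4
  omega

theorem HalfA_ltr_J {t : T} (hl : ltr a s e g t = .J) :
    g t = 0 ∧ e t ≠ s t ∧ e (s t) ≠ a (s t) := by
  unfold ltr at hl
  by_cases h1 : g t = 1
  · simp [h1] at hl
  · rw [if_neg h1] at hl
    by_cases h2 : e t = s t
    · simp [h2] at hl
    · rw [if_neg h2] at hl
      by_cases h3 : e (s t) = a (s t)
      · simp [h3] at hl
      · exact ⟨(HalfA_z _).resolve_right h1, h2, h3⟩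

theorem HalfA_ltr_X {t : T} (hl : ltr a s e g t = .X) :
    g t = 0 ∧ e t ≠ s t ∧ e (s t) = a (s t) := by
  unfold ltr at hl
  by_cases h1 : g t = 1
  · simp [h1] at hl
  · rw [if_neg h1] at hl
    by_cases h2 : e t = s t
    · simp [h2] at hl
    · rw [if_neg h2] at hl
      by_cases h3 : e (s t) = a (s t)
      · exact ⟨(HalfA_z _).resolve_right h1, h2, h3⟩
      · simp [h3] at hl

theorem HalfA_ltr_G {t : T} (hl : ltr a s e g t = .G) : g t = 0 ∧ e t = s t := by
  unfold ltr at hl
  by_cases h1 : g t = 1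
  · simp [h1] at hl
  · rw [if_neg h1] at hl
    by_cases h2 : e t = s t
    · exact ⟨(HalfA_z _).resolve_right h1, h2⟩
    · rw [if_neg h2] at hl
      by_cases h3 : e (s t) = a (s t)
      · simp [h3] at hl
      · simp [h3] at hl

theorem HalfA_ltr_C {t : T} (hl : ltr a s e g t = .C) : g t = 1 := by
  unfold ltr at hl
  by_contra h1
  rw [if_neg h1] at hl
  by_cases h2 : e t = s t
  · simp [h2] at hl
  · rw [if_neg h2] at hl
    by_cases h3 : e (s t) = a (s t)
    · simp [h3] at hl
    · simp [h3] at hl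

/-- inner corners and corners with letter `J`; by `Side.gs` -/
theorem NR.step_J (h : NR a s e g r ty) {t : T} (ht : t ∈ HP a e g)
    (hl : ltr a s e g t = .J) : g t = 0 ∧ s t ∈ HP a e g := by
  obtain ⟨h1, h2, h3⟩ := HalfA_ltr_J hl
  refine ⟨h1, HalfA_mem.2 ?_⟩
  by_cases h4 : e (s t) = s t
  · exact Or.inl h4
  · right
    have := h.side.gs t
    rw [if_neg h2, if_neg h4, h1] at this
    exact ⟨by simpa using this, h3⟩

/-- letter `X` (`no_cr_cr`, `cr_vertex`); `s t` is crossing -/
theorem NR.step_X (h : NR a s e g r ty) {t : T} (ht : t ∈ HP a e g)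
    (hl : ltr a s e g t = .X) : g t = 0 ∧ e t ≠ t ∧ e (s t) = a (s t) ∧ g (s t) = 0 ∧
      s t ∉ HP a e g ∧ s (s t) ∈ HP a e g ∧ g (s (s t)) = 0 ∧ e (s (s t)) ≠ s (s t) := by
  obtain ⟨h1, h2, h3⟩ := HalfA_ltr_X hl
  have h4 : e t ≠ t := by
    intro h5
    refine h.cr_vertex h3 (HalfA_s1 s t).symm ?_
    rw [h5]
  have h5 : e (s t) ≠ s t := by rw [h3]; exact h.good.fpf _
  have h6 : g (s t) = 0 := by
    have := h.side.gs t
    rw [if_neg h2, if_neg h5, h1] at this
    simpa using this
  have h7 : s t ∉ HP a e g := by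
    rw [HalfA_mem]
    rintro (h8 | ⟨-, h8⟩)
    · exact h5 h8
    · exact h8 h3
  have h8 : e (s (s t)) ≠ a (s (s t)) := h.no_cr_cr h3
  have h9 : e (s (s t)) ≠ s (s t) := by
    intro h10
    refine h.cr_vertex h3 (HalfA_s1 s (s t)) ?_
    rw [h10]
  have h10 : g (s (s t)) = 0 := by
    have := h.side.gs (s t)
    rw [if_neg (by rw [h3]; exact (h.good.s_ne_a _).symm), if_neg h9, h6] at this
    simpa using this
  exact ⟨h1, h4, h3, h6, h7, HalfA_mem.2 (Or.inr ⟨h10, h8⟩), h10, h9⟩

/-- letter `G` -/
theorem NR.step_G (h : NR a s e g r ty) {t : T} (ht : t ∈ HP a e g)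
    (hl : ltr a s e g t = .G) : g t = 0 ∧ e t ≠ t ∧ e t = s t ∧ s t ∉ HP a e g := by
  obtain ⟨h1, h2⟩ := HalfA_ltr_G hl
  have h3 : e (s t) ≠ s t := by
    rw [← h2, h.refl.ee, h2]; exact (h.good.s_ne t).symm
  refine ⟨h1, by rw [h2]; exact h.good.s_ne t, h2, ?_⟩
  rw [HalfA_mem]
  rintro (h4 | ⟨h4, -⟩)
  · exact h3 h4
  · have := h.side.gs t
    rw [if_pos h2, if_neg h3, h1, h4] at this
    simp at this

/-- letter `C`: the corner after a dart on the axis is on the lower side; `s t = e (s⁻¹ t)` by `Refl.es` -/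
theorem NR.step_C (h : NR a s e g r ty) {t : T} (ht : t ∈ HP a e g)
    (hl : ltr a s e g t = .C) : g t = 1 ∧ e t = t ∧ s.symm t ∈ HP a e g ∧ g (s.symm t) = 0 ∧
      ltr a s e g (s.symm t) = .J ∧ s t = e (s.symm t) := by
  have h1 := HalfA_ltr_C hl
  have h2 : e t = t := by
    rcases HalfA_mem.1 ht with h3 | ⟨h3, -⟩
    · exact h3
    · rw [h1] at h3; simp at h3
  set w := s.symm t with hw
  have hsw : s w = t := s.apply_symm_apply t
  have h3 : e w ≠ s w := by
    rw [hsw]
    intro h4
    have h5 : w = t := by rw [← h.refl.ee w, h4, h2]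
    exact h.good.s_ne w (hsw.trans h5.symm)
  have h4 : g w = 0 := by
    have := h.side.gs w
    rw [if_neg h3, hsw, if_pos h2, h1, add_zero] at this
    rcases HalfA_z (g w) with h5 | h5
    · exact h5
    · rw [h5] at this
      exact absurd this (by decide)
  have h5 : e w ≠ a w := by
    intro h6
    refine h.cr_vertex h6 (z := t) ?_ ?_
    · have := HalfA_s1 s w
      rwa [hsw] at this
    · rw [h2]
  refine ⟨h1, h2, HalfA_mem.2 (Or.inr ⟨h4, h5⟩), h4, ?_, ?_⟩
  · unfold ltr
    rw [if_neg (by rw [h4]; decide), if_neg h3, hsw, h2, if_neg (h.good.fpf t).symm]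
  · have := h.refl.es w
    rw [hsw, h2] at this
    exact this

/-- the first return of a corner with letter `J` -/
theorem NR.ret_J (h : NR a s e g r ty) (t : {x // x ∈ HP a e g})
    (hl : ltr a s e g t.1 = .J) : (ret s (HP a e g) t).1 = s t.1 := by
  rw [ret_of_mem s (HP a e g) t (h.step_J t.2 hl).2]

theorem NR.ret_X (h : NR a s e g r ty) (t : {x // x ∈ HP a e g})
    (hl : ltr a s e g t.1 = .X) : (ret s (HP a e g) t).1 = s (s t.1) := by
  obtain ⟨-, -, -, -, h5, h6, -, -⟩ := h.step_X t.2 hl
  have h7 : (s ^ 2) t.1 = s (s t.1) := by rw [pow_two, Perm.mul_apply]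
  have := ret_spec s (HP a e g) t (k := 2) (by norm_num) (by rw [h7]; exact h6) (by
    intro j hj hj2
    have : j = 1 := by omega
    subst this
    rw [pow_one]; exact h5)
  rw [this]
  exact h7

/-- the step before the first return -/
theorem HalfA_before (h : NR a s e g r ty) (t : {x // x ∈ HP a e g})
    (hl : ltr a s e g t.1 = .G ∨ ltr a s e g t.1 = .C) :
    s.SameCycle t.1 (e t.1) ∧ ∃ w, s w = (ret s (HP a e g) t).1 ∧ s.SameCycle t.1 w ∧ g w = 1 := by
  have hfix : s.SameCycle t.1 (e t.1) := by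
    rcases hl with hl | hl
    · rw [(HalfA_ltr_G hl).2]; exact HalfA_s1 s _
    · rw [(h.step_C t.2 hl).2.1]
  refine ⟨hfix, ?_⟩
  set k := retK s (HP a e g) t with hk
  have hkpos : 0 < k := retK_pos s _ t
  refine ⟨(s ^ (k - 1)) t.1, ?_, ⟨((k - 1 : ℕ) : ℤ), by rw [zpow_natCast]⟩, ?_⟩
  · rw [ret_val, ← hk, ← Perm.mul_apply, ← pow_succ']
    congr 2
    omega
  · by_cases hk1 : k = 1
    · rw [hk1]
      simp only [Nat.sub_self, pow_zero, Perm.one_apply]
      rcases hl with hl | hl
      · exfalso
        have h1 := (h.step_G t.2 hl).2.2.2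
        have h2 := retK_mem s (HP a e g) t
        rw [← hk, hk1, pow_one] at h2
        exact h1 h2
      · exact HalfA_ltr_C hl
    · have h1 := retK_min s (HP a e g) t (k := k - 1) (by omega) (by omega)
      set w := (s ^ (k - 1)) t.1 with hw
      have hsc : s.SameCycle t.1 w := ⟨((k - 1 : ℕ) : ℤ), by rw [zpow_natCast]⟩
      have h2 : e w ≠ a w := fun h3 => h.cr_vertex h3 hsc.symm hfix
      rcases HalfA_z (g w) with h3 | h3
      · exact absurd (HalfA_mem.2 (Or.inr ⟨h3, h2⟩)) h1
      · exact h3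

/-- The next dart of the half after a corner with letter `G` or `C`: all darts `w` in between are not in the half, they
are at a vertex fixed by `e`, so they are lower, `g w = 1`, `e w ≠ w`.  Let `t'` be the first return and `w = s⁻¹ t'`,
so `g w = 1` (`w` is lower, or `w = t` has letter `C`).  If `e t' = t'` then `g t' = g w + 0 + 1 = 0`.  Otherwise
`g t' = 0`, so `e w = t'` (`Side.gs`). -/
theorem NR.ret_GC (h : NR a s e g r ty) (t : {x // x ∈ HP a e g})
    (hl : ltr a s e g t.1 = .G ∨ ltr a s e g t.1 = .C) :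
    g (ret s (HP a e g) t).1 = 0 ∧
      (e (ret s (HP a e g) t).1 = (ret s (HP a e g) t).1 ∨
        e (ret s (HP a e g) t).1 = s.symm (ret s (HP a e g) t).1) := by
  obtain ⟨-, w, hw, -, hg⟩ := HalfA_before h t hl
  have hmem := (ret s (HP a e g) t).2
  set t' := (ret s (HP a e g) t).1 with ht'
  have hgs := h.side.gs w
  rw [hw, hg] at hgs
  have hws : w = s.symm t' := (Equiv.eq_symm_apply s).2 hw
  by_cases h1 : e t' = t'
  · refine ⟨?_, Or.inl h1⟩
    have h2 : e w ≠ t' := by
      intro h3
      have h4 : w = t' := by rw [← h.refl.ee w, h3, h1]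
      exact h.good.s_ne w (hw.trans h4.symm)
    rw [if_neg h2, if_pos h1] at hgs
    rw [hgs]; decide
  · have h2 : g t' = 0 := ((HalfA_mem.1 hmem).resolve_left h1).1
    refine ⟨h2, Or.inr ?_⟩
    rw [if_neg h1, h2] at hgs
    have h3 : e w = t' := by
      by_contra h4
      rw [if_neg h4] at hgs
      exact absurd hgs (by decide)
    rw [← hws, ← h3, h.refl.ee]

/-- At every vertex there is at most one corner of the half with letter `G` or `C`.  Proof: `t` and `t'` give two
different elements counted in `cyc_two` (`e x = x` with `g x = 1`, or `e x = s x` with `g x = 0`), and the first return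
of `t` (`ret_GC`) gives a third one (`e x = x` with `g x = 0`, or `x = s⁻¹ (ret t)`: `e x = s x` with `g x = 1`). -/
theorem NR.GC_unique (h : NR a s e g r ty) {t t' : T} (ht : t ∈ HP a e g) (ht' : t' ∈ HP a e g)
    (hl : ltr a s e g t = .G ∨ ltr a s e g t = .C) (hl' : ltr a s e g t' = .G ∨ ltr a s e g t' = .C)
    (hs : s.SameCycle t t') : t = t' := by
  by_contra hne
  obtain ⟨hfix, w, hw, hcw, hg⟩ := HalfA_before h ⟨t, ht⟩ hl
  have hret := h.ret_GC ⟨t, ht⟩ hl
  set u := (ret s (HP a e g) ⟨t, ht⟩).1 with hu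
  have hcu : s.SameCycle t u := by
    rw [← hw]; exact hcw.trans (HalfA_s1 s w)
  have hws : w = s.symm u := (Equiv.eq_symm_apply s).2 hw
  have htwo := cyc_two h.refl.es h.refl.ee hfix
  set P := univ.filter fun x => s.SameCycle t x ∧ e x = x with hP
  set Q := univ.filter fun x => s.SameCycle t x ∧ e x = s x with hQ
  have hdis : Disjoint P Q := by
    rw [Finset.disjoint_left]
    intro x hx hx'
    have h1 := (mem_filter.1 hx).2.2
    have h2 := (mem_filter.1 hx').2.2
    exact h.good.s_ne x (h2.symm.trans h1)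
  -- the type of an element with letter G or C
  have key : ∀ x ∈ HP a e g, s.SameCycle t x → (ltr a s e g x = .G ∨ ltr a s e g x = .C) →
      (x ∈ P ∧ g x = 1) ∨ (x ∈ Q ∧ g x = 0) := by
    intro x hx hc hlx
    rcases hlx with hlx | hlx
    · obtain ⟨h1, -, h3, -⟩ := h.step_G hx hlx
      exact Or.inr ⟨mem_filter.2 ⟨mem_univ _, hc, h3⟩, h1⟩
    · obtain ⟨h1, h2, -⟩ := h.step_C hx hlx
      exact Or.inl ⟨mem_filter.2 ⟨mem_univ _, hc, h2⟩, h1⟩
  have hthird : ∃ v, (v ∈ P ∧ g v = 0) ∨ (v ∈ Q ∧ g v = 1) := by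
    obtain ⟨h1, h2 | h2⟩ := hret
    · exact ⟨u, Or.inl ⟨mem_filter.2 ⟨mem_univ _, hcu, h2⟩, h1⟩⟩
    · refine ⟨w, Or.inr ⟨mem_filter.2 ⟨mem_univ _, hcw, ?_⟩, hg⟩⟩
      rw [hw, hws, ← h2, h.refl.ee]
  obtain ⟨v, hv⟩ := hthird
  have hne' : ∀ x, ((x ∈ P ∧ g x = 1) ∨ (x ∈ Q ∧ g x = 0)) → v ≠ x := by
    rintro x hx rfl
    rcases hv with ⟨h1, h2⟩ | ⟨h1, h2⟩ <;> rcases hx with ⟨h3, h4⟩ | ⟨h3, h4⟩
    · rw [h2] at h4; exact absurd h4 (by decide)
    · exact Finset.disjoint_left.1 hdis h1 h3
    · exact Finset.disjoint_left.1 hdis h3 h1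
    · rw [h2] at h4; exact absurd h4 (by decide)
  have k1 := key t ht (Perm.SameCycle.refl _ _) hl
  have k2 := key t' ht' hs hl'
  have hmemPQ : ∀ x, ((x ∈ P ∧ g x = 1) ∨ (x ∈ Q ∧ g x = 0)) → x ∈ P ∪ Q := by
    intro x hx
    rw [mem_union]
    rcases hx with hx | hx
    · exact Or.inl hx.1
    · exact Or.inr hx.1
  have hvPQ : v ∈ P ∪ Q := by
    rw [mem_union]
    rcases hv with hx | hx
    · exact Or.inl hx.1
    · exact Or.inr hx.1
  have hsub : ({v, t, t'} : Finset T) ⊆ P ∪ Q := by
    intro x hx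
    simp only [mem_insert, mem_singleton] at hx
    rcases hx with rfl | rfl | rfl
    · exact hvPQ
    · exact hmemPQ _ k1
    · exact hmemPQ _ k2
  have hcard3 : ({v, t, t'} : Finset T).card = 3 := by
    rw [Finset.card_eq_three]
    exact ⟨v, t, t', hne' t k1, hne' t' k2, hne, rfl⟩
  have h5 := card_le_card hsub
  rw [hcard3, card_union_of_disjoint hdis, htwo] at h5
  omega

theorem HalfA_cr0 (h : NR a s e g r ty) {t : T} (ht : e t = a t) (hg : g t = 0) :
    s.symm t ∈ HP a e g ∧ ltr a s e g (s.symm t) = .X := by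
  set w := s.symm t with hw
  have hsw : s w = t := s.apply_symm_apply t
  have h1 : e t ≠ t := by rw [ht]; exact h.good.fpf t
  have h2 : e w ≠ t := by
    intro h3
    have h4 : w = a t := by rw [← h.refl.ee w, h3, ht]
    have h5 := HalfA_sm s t
    rw [← hw, h4] at h5
    exact h.good.noLoop t h5
  have h3 : g w = 0 := by
    have := h.side.gs w
    rw [hsw, if_neg h2, if_neg h1, hg] at this
    simpa using this.symm
  have h4 : e w ≠ a w := by
    intro h5
    have := h.no_cr_cr h5
    rw [hsw] at this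
    exact this ht
  refine ⟨HalfA_mem.2 (Or.inr ⟨h3, h4⟩), ?_⟩
  unfold ltr
  rw [if_neg (by rw [h3]; decide), hsw, if_neg h2, if_pos ht]

/-- every dart is in the half, or is the lower copy of one, or is crossing and attached at a corner of the
half with letter `X` (`no_cr_cr`, `cr_vertex`) -/
theorem NR.cover (h : NR a s e g r ty) (t : T) :
    t ∈ HP a e g ∨ (e t ∈ HP a e g ∧ e t ≠ t) ∨
      (e t = a t ∧ g t = 0 ∧ s.symm t ∈ HP a e g ∧ ltr a s e g (s.symm t) = .X) ∨
      (e t = a t ∧ g t = 1 ∧ s.symm (a t) ∈ HP a e g ∧ ltr a s e g (s.symm (a t)) = .X) := by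
  by_cases h1 : e t = t
  · exact Or.inl (HalfA_mem.2 (Or.inl h1))
  by_cases h2 : e t = a t
  · rcases HalfA_z (g t) with h3 | h3
    · obtain ⟨h4, h5⟩ := HalfA_cr0 h h2 h3
      exact Or.inr (Or.inr (Or.inl ⟨h2, h3, h4, h5⟩))
    · have h4 : g (a t) = 0 := by
        have := h.side.ga t
        rw [if_neg h1, if_pos h2, h3] at this
        rw [this]; decide
      obtain ⟨h5, h6⟩ := HalfA_cr0 h (HalfA_ea_cr h h2) h4
      exact Or.inr (Or.inr (Or.inr ⟨h2, h3, h5, h6⟩))
  · rcases HalfA_z (g t) with h3 | h3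
    · exact Or.inl (HalfA_mem.2 (Or.inr ⟨h3, h2⟩))
    · right; left
      refine ⟨HalfA_mem.2 (Or.inr ⟨?_, ?_⟩), h1⟩
      · have := h.side.ge t
        rw [if_neg h1, h3] at this
        rw [this]; decide
      · rw [h.refl.ee]
        intro h4
        apply h2
        have : a t = a (a (e t)) := congrArg a h4
        rw [h.good.inv] at this
        exact this.symm

/-- letter of the root -/
theorem NR.ltr_root (h : NR a s e g r ty) : ltr a s e g r = ty := by
  have h1 := h.typ
  have h2 := h.gr
  cases ty with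
  | C =>
    have h3 : g r = 1 := by simpa using h2
    unfold ltr
    rw [if_pos h3]
  | J => exact h1.elim
  | G =>
    have h3 : g r = 0 := by simpa using h2
    have h4 : e r = s r := h1
    unfold ltr
    rw [if_neg (by rw [h3]; decide), if_pos h4]
  | X =>
    have h3 : g r = 0 := by simpa using h2
    have h4 : e (s r) = a (s r) := h1.1
    have h5 : e r ≠ s r := by
      intro h6
      rw [← h6, h.refl.ee, h6] at h4
      have h7 : s r = a r := by
        have := congrArg a h4
        rw [h.good.inv] at this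
        exact this.symm
      exact h.good.s_ne_a r h7
    unfold ltr
    rw [if_neg (by rw [h3]; decide), if_neg h5, if_pos h4]

end

end PGr

end

section
/-! # Module HalfB: the outer corners of the half form one face -/

set_option linter.unusedSectionVars false

namespace PGr
open Equiv Finset

section
variable {T : Type*} [Fintype T] [DecidableEq T] {a s e : Perm T} {g : T → ZMod 2} {r : T} {ty : Ltr}

/-- rotation and edge involution of the half -/
noncomputable abbrev NR.hs (_ : NR a s e g r ty) : Perm {x // x ∈ HP a e g} := ret s (HP a e g)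
abbrev NR.ha (h : NR a s e g r ty) : Perm {x // x ∈ HP a e g} := subA a (HP a e g) h.cl
abbrev NR.hr (h : NR a s e g r ty) : {x // x ∈ HP a e g} := ⟨r, h.root_mem⟩

theorem HalfB_z2 (x : ZMod 2) : x = 0 ∨ x = 1 := by revert x; decide

/-- the side along a face -/
theorem HalfB_side (h : NR a s e g r ty) (t : T) :
    g (a (s t)) = g t + (if e t = s t ∨ e (s t) = a (s t) then 1 else 0) := by
  rw [h.side.ga, h.side.gs]
  by_cases h1 : e t = s t
  · have h2 : e (s t) ≠ a (s t) := by
      rw [← h1, h.refl.ee]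
      intro h'
      apply h.good.s_ne_a t
      rw [← h1]
      conv_rhs => rw [h', h.good.inv]
    rw [if_pos h1, if_neg h2, if_pos (Or.inl h1)]
    rcases HalfB_z2 (g t) with h0 | h0 <;> rw [h0] <;> split_ifs <;> decide
  · by_cases h2 : e (s t) = a (s t)
    · rw [if_neg h1, if_pos h2, if_pos (Or.inr h2), if_neg (by rw [h2]; exact h.good.fpf _)]
      simp
    · rw [if_neg h1, if_neg h2, if_neg (show ¬ (e t = s t ∨ e (s t) = a (s t)) from
        fun h' => h'.elim h1 h2)]
      rcases HalfB_z2 (g t) with h0 | h0 <;> rw [h0] <;> split_ifs <;> decide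

theorem HalfB_psi_J (h : NR a s e g r ty) (t : {x // x ∈ HP a e g}) (h0 : g t.1 = 0)
    (hc : ¬ (e t.1 = s t.1 ∨ e (s t.1) = a (s t.1))) :
    ((h.ha * h.hs) t).1 = a (s t.1) ∧ g ((h.ha * h.hs) t).1 = 0 := by
  have hl : ltr a s e g t.1 = .J := by
    push Not at hc
    rw [ltr, if_neg (by rw [h0]; decide), if_neg hc.1, if_neg hc.2]
  have h1 : ((h.ha * h.hs) t).1 = a (s t.1) := by
    rw [Perm.mul_apply, subA_val, h.ret_J t hl]
  refine ⟨h1, ?_⟩
  rw [h1, HalfB_side h, if_neg hc, h0, add_zero]

/-- a corner of the half with letter `C` does not come after a corner with letter `J` or `X` -/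
theorem NR.next_ne (h : NR a s e g r ty) (t : {x // x ∈ HP a e g})
    (hl : ltr a s e g t.1 = .J ∨ ltr a s e g t.1 = .X) :
    ltr a s e g (h.ha (h.hs t)).1 ≠ .C := by
  have key : g (h.ha (h.hs t)).1 = 0 := by
    rcases hl with hl | hl
    · have h0 := (h.step_J t.2 hl).1
      have hc : ¬ (e t.1 = s t.1 ∨ e (s t.1) = a (s t.1)) := by
        rw [ltr, if_neg (by rw [h0]; decide)] at hl
        rintro (h' | h')
        · rw [if_pos h'] at hl; exact absurd hl (by decide)
        · by_cases h'' : e t.1 = s t.1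
          · rw [if_pos h''] at hl; exact absurd hl (by decide)
          · rw [if_neg h'', if_pos h'] at hl; exact absurd hl (by decide)
      exact (HalfB_psi_J h t h0 hc).2
    · obtain ⟨_, _, h2, _, _, _, h3, h4⟩ := h.step_X t.2 hl
      rw [subA_val, h.ret_X t hl, h.side.ga, h3, if_neg h4, if_neg (h.no_cr_cr h2)]
      simp
  intro hC
  rw [ltr, if_neg (by rw [key]; decide)] at hC
  split_ifs at hC

/-- at most two changes of side in a face -/
theorem HalfB_two (h : NR a s e g r ty) (t : T) :
    (univ.filter fun x => (a * s).SameCycle t x ∧ (e x = s x ∨ e (s x) = a (s x))).card ≤ 2 := by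
  classical
  have hd := h.refl.dual h.good.inv
  have f1 : ∀ x, e x = s x → (a * e) x = (a * s) x := fun x hx => by
    rw [Perm.mul_apply, Perm.mul_apply, hx]
  have f2 : ∀ x, e (s x) = a (s x) → (a * e) ((a * s) x) = (a * s) x := fun x hx => by
    rw [Perm.mul_apply, Perm.mul_apply, h.refl.ea, h.good.inv, hx]
  by_cases hex : ∃ x, (a * s).SameCycle t x ∧ (e x = s x ∨ e (s x) = a (s x))
  · obtain ⟨x, hx, hx2⟩ := hex
    have ht : (a * s).SameCycle t ((a * e) t) := by
      have k1 : ∀ z, (a * s).SameCycle t z → (a * s).SameCycle z ((a * e) z) →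
          (a * s).SameCycle t ((a * e) t) := fun z hz hz2 =>
        (hz.trans hz2).trans (CycInv_map hd.es hz).symm
      rcases hx2 with hx2 | hx2
      · exact k1 x hx (by rw [f1 x hx2]; exact ⟨1, by simp⟩)
      · refine k1 ((a * s) x) (hx.trans ⟨1, by simp⟩) ?_
        rw [f2 x hx2]
    have h2 := cyc_two hd.es hd.ee ht
    have h3 : (univ.filter fun x => (a * s).SameCycle t x ∧ (a * e) ((a * s) x) = (a * s) x).card ≤
        (univ.filter fun x => (a * s).SameCycle t x ∧ (a * e) x = x).card := by
      apply card_le_card_of_injOn (fun x => (a * s) x)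
      · intro y hy
        simp only [coe_filter, mem_univ, true_and, Set.mem_ofPred_eq] at hy ⊢
        exact ⟨hy.1.trans ⟨1, by simp⟩, hy.2⟩
      · intro y _ z _ hyz
        exact (a * s).injective hyz
    have h4 : (univ.filter fun x => (a * s).SameCycle t x ∧ (e x = s x ∨ e (s x) = a (s x))) ⊆
        (univ.filter fun x => (a * s).SameCycle t x ∧ (a * e) ((a * s) x) = (a * s) x) ∪
        (univ.filter fun x => (a * s).SameCycle t x ∧ (a * e) x = (a * s) x) := by
      intro y hy
      simp only [mem_filter, mem_univ, true_and, mem_union] at hy ⊢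
      obtain ⟨hy1, hy2 | hy2⟩ := hy
      · exact Or.inr ⟨hy1, f1 y hy2⟩
      · exact Or.inl ⟨hy1, f2 y hy2⟩
    have h5 := (card_le_card h4).trans (card_union_le _ _)
    omega
  · rw [filter_false_of_mem]
    · simp
    · intro x _ hx
      exact hex ⟨x, hx⟩

/-- walking along a face without change of side -/
theorem HalfB_walk (h : NR a s e g r ty) (t : {x // x ∈ HP a e g}) (h0 : g t.1 = 0) (k : ℕ)
    (hk : ∀ i < k, ¬ (e (((a * s) ^ i) t.1) = s (((a * s) ^ i) t.1) ∨
      e (s (((a * s) ^ i) t.1)) = a (s (((a * s) ^ i) t.1)))) :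
    ∃ u : {x // x ∈ HP a e g}, u.1 = ((a * s) ^ k) t.1 ∧ g u.1 = 0 ∧
      (h.ha * h.hs).SameCycle t u := by
  induction k with
  | zero => exact ⟨t, by simp, h0, Perm.SameCycle.refl _ _⟩
  | succ k ih =>
    obtain ⟨u, hu1, hu2, hu3⟩ := ih (fun i hi => hk i (by omega))
    have h1 := hk k (by omega)
    rw [← hu1] at h1
    obtain ⟨h2, h3⟩ := HalfB_psi_J h u hu2 h1
    refine ⟨(h.ha * h.hs) u, ?_, h3, hu3.trans ⟨1, by simp⟩⟩
    rw [h2, hu1, pow_succ', Perm.mul_apply, Perm.mul_apply]

/-- two corners of the half on the upper side in one face of the map are in one face of the half -/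
theorem HalfB_face (h : NR a s e g r ty) (t t' : {x // x ∈ HP a e g}) (h0 : g t.1 = 0)
    (h0' : g t'.1 = 0) (hf : (a * s).SameCycle t.1 t'.1) : (h.ha * h.hs).SameCycle t t' := by
  classical
  obtain ⟨φ, hφ⟩ : ∃ φ : Perm T, φ = a * s := ⟨_, rfl⟩
  obtain ⟨ch, hch⟩ : ∃ ch : T → Prop, ∀ x, ch x ↔ (e x = s x ∨ e (s x) = a (s x)) :=
    ⟨_, fun _ => Iff.rfl⟩
  obtain ⟨k, hk, hkt⟩ := CycInv_nat t.1 hf
  obtain ⟨n, hn⟩ : ∃ n, n = Function.minimalPeriod (fun x => (a * s) x) t.1 := ⟨_, rfl⟩
  rw [← hn] at hk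
  rw [zpow_natCast, ← hφ] at hkt
  obtain ⟨N, hN⟩ : ∃ N : ℕ → ℕ, ∀ i, N i = ((range i).filter fun j => ch ((φ ^ j) t.1)).card :=
    ⟨_, fun _ => rfl⟩
  -- the side
  have hg : ∀ i, g ((φ ^ i) t.1) = g t.1 + (N i : ZMod 2) := by
    intro i
    induction i with
    | zero => rw [hN]; simp
    | succ i ih =>
      rw [pow_succ', Perm.mul_apply, hφ, Perm.mul_apply, HalfB_side h, ← hφ, ih, hN, hN,
        range_add_one, filter_insert]
      by_cases h1 : ch ((φ ^ i) t.1)
      · rw [if_pos h1, if_pos ((hch _).mp h1), card_insert_of_notMem (by simp)]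
        push_cast; ring
      · rw [if_neg h1, if_neg (fun h' => h1 ((hch _).mpr h')), add_zero]
  -- at most two changes
  have hN2 : N n ≤ 2 := by
    rw [hN]
    refine le_trans ?_ (HalfB_two h t.1)
    apply card_le_card_of_injOn (fun j => (φ ^ j) t.1)
    · intro j hj
      simp only [coe_filter, mem_range, mem_univ, true_and, Set.mem_ofPred_eq] at hj ⊢
      refine ⟨?_, (hch _).mp hj.2⟩
      rw [← hφ]
      exact ⟨j, by simp⟩
    · intro i hi j hj hij
      simp only [coe_filter, mem_range, Set.mem_ofPred_eq] at hi hj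
      simp only at hij
      rw [← Perm.iterate_eq_pow, ← Perm.iterate_eq_pow] at hij
      have hi' := hi.1
      have hj' := hj.1
      rw [hn, ← hφ] at hi' hj'
      exact Function.iterate_injOn_Iio_minimalPeriod (f := fun x => φ x) hi' hj' hij
  have hpn : (φ ^ n) t.1 = t.1 := by
    rw [← Perm.iterate_eq_pow, hn, ← hφ]
    exact Function.iterate_minimalPeriod (f := fun x => φ x)
  have hmono : N k ≤ N n := by
    rw [hN, hN]
    exact card_le_card (filter_subset_filter _ (range_subset_range.mpr hk.le))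
  have hcase : N k = 0 ∨ N k = 2 := by
    have h1 := hg k
    rw [hkt, h0', h0, zero_add] at h1
    have h2 : N k ≠ 1 := by
      intro h'
      rw [h'] at h1
      exact absurd h1 (by decide)
    omega
  rcases hcase with hz | hz
  · obtain ⟨u, hu1, _, hu3⟩ := HalfB_walk h t h0 k (by
      intro i hi
      rw [← hch, ← hφ]
      intro h'
      have : i ∈ (range k).filter fun j => ch ((φ ^ j) t.1) := mem_filter.mpr ⟨mem_range.mpr hi, h'⟩
      rw [hN, card_eq_zero] at hz
      rw [hz] at this
      exact absurd this (notMem_empty _))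
    have : u = t' := Subtype.ext (by rw [hu1, ← hφ, hkt])
    rw [← this]
    exact hu3
  · obtain ⟨u, hu1, _, hu3⟩ := HalfB_walk h t' h0' (n - k) (by
      intro i hi
      rw [← hch, ← hφ]
      intro h'
      have h1 : (φ ^ i) t'.1 = (φ ^ (i + k)) t.1 := by
        rw [pow_add, Perm.mul_apply, hkt]
      rw [h1] at h'
      have hsub : (insert (i + k) ((range k).filter fun j => ch ((φ ^ j) t.1))) ⊆
          (range n).filter fun j => ch ((φ ^ j) t.1) := by
        intro j hj
        rw [mem_insert] at hj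
        rcases hj with rfl | hj
        · exact mem_filter.mpr ⟨mem_range.mpr (by omega), h'⟩
        · rw [mem_filter, mem_range] at hj ⊢
          exact ⟨by omega, hj.2⟩
      have h2 := card_le_card hsub
      rw [card_insert_of_notMem (by simp), ← hN, ← hN] at h2
      omega)
    have : u = t := Subtype.ext (by
      rw [hu1, ← hφ, ← hkt, ← Perm.mul_apply, ← pow_add, Nat.sub_add_cancel hk.le, hpn])
    rw [← this]
    exact hu3.symm

/-- All corners of the half with a letter different from `J` are in the root face of the half.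
Proof.  Let `O` be the set of darts (corners) of the half in the face of `r` (the cycle of `ψ = ha * hs`), a set
invariant under `ψ`.  Apply `axis_lemma` with the labels
`α t = 1` iff there is `c ∈ O` with letter `G` or `C` and `s.SameCycle t c`;
`β t = 1` iff there is `c ∈ O` with `g c = 0` and `(a * s).SameCycle t c`.
Call a step `t → a (s t)` of the map a change if `e t = s t` or `e (s t) = a (s t)`; then `g (a (s t)) = g t + 1`, otherwise
`g (a (s t)) = g t` (`Side.gs`, `Side.ga`; at most one of the two).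
(F) Let `t, t'` be corners in one face of the map, `t ∈ O`, both in the half with `g = 0` (so the letters are `J`, `G`
or `X`).  Then `t' ∈ O`.  Proof: if `t` has letter `J` then `ψ t = a (s t)` is the next corner in the map, in the half with
`g = 0` again; so walking from `t` one reaches a first corner `c` with letter `G` or `X`, `c ∈ O`, in the same face of the
map, a change from 0 to 1; similarly from `t'` one reaches `c'`, and `t'` and `c'` are in the same `ψ`-cycle.  The number of
changes in the face is 2 (`cyc_two` for `a * s` and `a * e`; `t ↦ a (s t)` maps the changes with `e (s t) = a (s t)` to the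
crossing darts of the face), and they alternate, so `c = c'`.
(V) If `t` has letter `G` or `C` then `α t = 1` iff `t ∈ O` (`GC_unique`).  Let `t' = hs t` be the first return,
`g t' = 0` (`ret_GC`).  `ψ t = a t'`.
(h1) Let `e t = s t`.  If `g t = 0` then `t` is in the half with letter `G`, `β t = 1` iff `t ∈ O` by (F).  If `g t = 1`, then
`s t = e t` is in the half, `g (s t) = 0` and `s t = hs c` for the corner `c` with letter `G` or `C` at this vertex (walk
back from `s t` along lower darts); `α t = [c ∈ O] = [ψ c ∈ O]`, `ψ c = a (s t)` is in the face of `t` and has `g = 0`, so by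
(F) `β t = [ψ c ∈ O]`.
(h2) Let `e t = t`; we may assume `g t = 1` (exchange `t` and `a t`, `Side.ga`), so `t` has letter `C`; and `a t = hs c` for the
corner `c` with letter `G` or `C` at the vertex of `a t`; `ψ c = t`, so `α (a t) = [c ∈ O] = [t ∈ O] = α t`.
(h3) Let `e t = a t`, `g t = 0` (exchange `t` and `a t`).  `c = s⁻¹ t` is in the half with letter `X` (`cover`), in the face of
`a t = a (s c)`, so `β (a t) = [c ∈ O]` by (F).  `ψ c = a (s (s c)) = a (s t)` is in the face of `t`, in the half with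
`g = 0`, so `β t = [ψ c ∈ O]`, the same.
By the lemma there is `κ` with `α = κ`, `β = κ` on all elements of the axis; `r` is one of them (letter `ty`), where the
label is 1, so `κ = 1`; so every corner with letter `G` or `C` is in `O` by (V), and if `c` has letter `X` then
`e (s c) = a (s c)`, `β (s c) = 1`, `β (s c) = [c ∈ O]` as in (h3). -/
theorem NR.conn (h : NR a s e g r ty) (t : {x // x ∈ HP a e g})
    (hl : ltr a s e g t.1 ≠ .J) : (h.ha * h.hs).SameCycle h.hr t := by
  classical
  obtain ⟨O, hO⟩ : ∃ O : T → Prop, ∀ c, O c ↔ ∃ hc : c ∈ HP a e g,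
    (h.ha * h.hs).SameCycle h.hr ⟨c, hc⟩ := ⟨_, fun _ => Iff.rfl⟩
  have hOr : O r := (hO r).mpr ⟨h.root_mem, Perm.SameCycle.refl _ _⟩
  have hOmem : ∀ c, O c → c ∈ HP a e g := fun c hc => ((hO c).mp hc).1
  have hOψ : ∀ c : {x // x ∈ HP a e g}, O c.1 ↔ O (a (ret s (HP a e g) c).1) := by
    intro c
    have e1 : (h.ha * h.hs) c = ⟨a (ret s (HP a e g) c).1, (h.cl _).mpr (ret s (HP a e g) c).2⟩ :=
      Subtype.ext rfl
    rw [hO, hO]
    constructor
    · rintro ⟨_, h2⟩
      refine ⟨(h.cl _).mpr (ret s (HP a e g) c).2, ?_⟩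
      rw [← e1]
      exact Perm.sameCycle_apply_right.mpr h2
    · rintro ⟨_, h2⟩
      rw [← e1] at h2
      exact ⟨c.2, Perm.sameCycle_apply_right.mp h2⟩
  obtain ⟨α, hα⟩ : ∃ α : T → ZMod 2, ∀ t, α t = if ∃ c, O c ∧
    (ltr a s e g c = .G ∨ ltr a s e g c = .C) ∧ s.SameCycle t c then 1 else 0 := ⟨_, fun _ => rfl⟩
  obtain ⟨β, hβ⟩ : ∃ β : T → ZMod 2, ∀ t, β t = if ∃ c, O c ∧ g c = 0 ∧
    (a * s).SameCycle t c then 1 else 0 := ⟨_, fun _ => rfl⟩
  have hαs : ∀ t, α (s t) = α t := by
    intro t
    simp only [hα, Perm.sameCycle_apply_left]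
  have hβs : ∀ t, β (a (s t)) = β t := by
    intro t
    have e1 : a (s t) = (a * s) t := rfl
    rw [e1]
    simp only [hβ, Perm.sameCycle_apply_left]
  have hαc : ∀ t x, s.SameCycle t x → α x = α t := fun t x hx => Axis_inv hαs hx
  -- (V)
  have hV : ∀ t, t ∈ HP a e g → (ltr a s e g t = .G ∨ ltr a s e g t = .C) →
      α t = if O t then 1 else 0 := by
    intro t ht hl
    rw [hα]
    congr 1
    apply propext
    constructor
    · rintro ⟨c, hc1, hc2, hc3⟩
      rw [h.GC_unique ht (hOmem c hc1) hl hc2 hc3]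
      exact hc1
    · intro ho
      exact ⟨t, ho, hl, Perm.SameCycle.refl _ _⟩
  -- (F)
  have hFF : ∀ t, t ∈ HP a e g → g t = 0 → β t = if O t then 1 else 0 := by
    intro t ht h0
    rw [hβ]
    congr 1
    apply propext
    constructor
    · rintro ⟨c, hc1, hc2, hc3⟩
      obtain ⟨hc4, hc5⟩ := (hO c).mp hc1
      exact (hO t).mpr ⟨ht, hc5.trans (HalfB_face h ⟨c, hc4⟩ ⟨t, ht⟩ hc2 h0 hc3.symm)⟩
    · intro ho
      exact ⟨t, ho, h0, Perm.SameCycle.refl _ _⟩
  -- darts before a return
  have hret : ∀ c : {x // x ∈ HP a e g}, s.SameCycle c.1 (ret s (HP a e g) c).1 := fun c =>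
    RetLib_sameCycle_pow s (HP a e g) c 1
  have h1 : ∀ t, e t = s t → α t = β t := by
    intro t ht
    rcases HalfB_z2 (g t) with h0 | h0
    · have hm : t ∈ HP a e g := mem_filter.mpr ⟨mem_univ _, Or.inr ⟨h0, by
        rw [ht]; exact h.good.s_ne_a t⟩⟩
      have hG : ltr a s e g t = .G := by rw [ltr, if_neg (by rw [h0]; decide), if_pos ht]
      rw [hV t hm (Or.inl hG), hFF t hm h0]
    · have k1 : e (s t) ≠ s t := by
        rw [← ht, h.refl.ee]
        intro h'
        exact h.good.s_ne t (ht.symm.trans h'.symm)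
      have k2 : e (s t) ≠ a (s t) := by
        rw [← ht, h.refl.ee]
        intro h'
        apply h.good.s_ne_a t
        rw [← ht]
        conv_rhs => rw [h', h.good.inv]
      have k3 : g (s t) = 0 := by
        rw [h.side.gs, h0, if_pos ht, if_neg k1]; decide
      have k4 : s t ∈ HP a e g := mem_filter.mpr ⟨mem_univ _, Or.inr ⟨k3, k2⟩⟩
      have k5 : t ∉ HP a e g := by
        intro h'
        rcases (mem_filter.mp h').2 with h'' | h''
        · exact h.good.s_ne t (ht.symm.trans h'')
        · rw [h0] at h''; exact absurd h''.1 (by decide)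
      obtain ⟨c, hc⟩ : ∃ c, ret s (HP a e g) c = ⟨s t, k4⟩ :=
        (ret s (HP a e g)).surjective _
      have hcv := congrArg Subtype.val hc
      simp only at hcv
      have hGC : ltr a s e g c.1 = .G ∨ ltr a s e g c.1 = .C := by
        rcases hlc : ltr a s e g c.1 with _ | _ | _ | _
        · exact Or.inr rfl
        · exfalso
          rw [h.ret_J c hlc] at hcv
          exact k5 (s.injective hcv ▸ c.2)
        · exact Or.inl rfl
        · exfalso
          rw [h.ret_X c hlc] at hcv
          have k6 := s.injective hcv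
          obtain ⟨_, _, k7, _⟩ := h.step_X c.2 hlc
          rw [k6] at k7
          exact h.good.s_ne_a t (ht.symm.trans k7)
      have k8 : s.SameCycle t c.1 := by
        have := hret c
        rw [hcv] at this
        exact (this.trans (Perm.sameCycle_apply_left.mpr (Perm.SameCycle.refl _ _))).symm
      rw [← hαc t c.1 k8, hV c.1 c.2 hGC, ← hβs t, hFF (a (s t)) ((h.cl _).mpr k4) (by
        rw [h.side.ga, k3, if_neg k1, if_neg k2]; decide)]
      have k9 := hOψ c
      rw [hcv] at k9
      simp only [k9]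
  have h2' : ∀ t, e t = t → g t = 1 → α (a t) = α t := by
    intro t ht h0
    have k1 : t ∈ HP a e g := mem_filter.mpr ⟨mem_univ _, Or.inl ht⟩
    have k2 : g (a t) = 0 := by
      rw [h.side.ga, h0, if_pos ht, if_neg (by rw [ht]; exact fun h' => h.good.fpf t h'.symm)]
      decide
    have k3 : e (a t) = a t := by rw [h.refl.ea, ht]
    have k4 : a t ∈ HP a e g := mem_filter.mpr ⟨mem_univ _, Or.inl k3⟩
    obtain ⟨c, hc⟩ : ∃ c, ret s (HP a e g) c = ⟨a t, k4⟩ :=
        (ret s (HP a e g)).surjective _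
    have hcv := congrArg Subtype.val hc
    simp only at hcv
    have hGC : ltr a s e g c.1 = .G ∨ ltr a s e g c.1 = .C := by
      rcases hlc : ltr a s e g c.1 with _ | _ | _ | _
      · exact Or.inr rfl
      · exfalso
        rw [h.ret_J c hlc] at hcv
        have k5 := (h.step_J c.2 hlc).1
        have k6 : e c.1 ≠ s c.1 := by
          intro h'
          rw [ltr, if_neg (by rw [k5]; decide), if_pos h'] at hlc
          exact absurd hlc (by decide)
        have k7 := h.side.gs c.1
        rw [hcv, k2, k5, if_neg (by rw [← hcv]; exact k6), if_pos k3] at k7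
        exact absurd k7 (by decide)
      · exact Or.inl rfl
      · exfalso
        rw [h.ret_X c hlc] at hcv
        obtain ⟨_, _, _, _, _, _, _, k7⟩ := h.step_X c.2 hlc
        rw [hcv] at k7
        exact k7 k3
    have k8 : s.SameCycle (a t) c.1 := by
      have := hret c
      rw [hcv] at this
      exact this.symm
    have hC : ltr a s e g t = .C := by rw [ltr, if_pos h0]
    rw [← hαc (a t) c.1 k8, hV c.1 c.2 hGC, hV t k1 (Or.inr hC)]
    have k9 := hOψ c
    rw [hcv, h.good.inv] at k9
    simp only [k9]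
  have h2 : ∀ t, e t = t → α (a t) = α t := by
    intro t ht
    rcases HalfB_z2 (g t) with h0 | h0
    · have k3 : e (a t) = a t := by rw [h.refl.ea, ht]
      have k2 : g (a t) = 1 := by
        rw [h.side.ga, h0, if_pos ht, if_neg (by rw [ht]; exact fun h' => h.good.fpf t h'.symm)]
        decide
      have := h2' (a t) k3 k2
      rw [h.good.inv] at this
      exact this.symm
    · exact h2' t ht h0
  have h3'' : ∀ c, c ∈ HP a e g → ltr a s e g c = .X → β (a (s c)) = (if O c then 1 else 0) ∧
      β (s c) = (if O c then 1 else 0) := by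
    intro c hc hlc
    obtain ⟨k1, k2, k3, k4, k5, k6, k7, k8⟩ := h.step_X hc hlc
    refine ⟨by rw [hβs, hFF c hc k1], ?_⟩
    have k9 := hOψ ⟨c, hc⟩
    rw [h.ret_X ⟨c, hc⟩ hlc] at k9
    rw [← hβs (s c), hFF (a (s (s c))) ((h.cl _).mpr k6) (by
      rw [h.side.ga, k7, if_neg k8, if_neg (h.no_cr_cr k3)]; decide)]
    simp only at k9
    simp only [k9]
  have h3' : ∀ t, e t = a t → g t = 0 → β (a t) = β t := by
    intro t ht h0
    rcases h.cover t with k | k | k | k
    · exfalso
      rcases (mem_filter.mp k).2 with h' | h'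
      · exact h.good.fpf t (ht.symm.trans h')
      · exact h'.2 ht
    · exfalso
      rcases (mem_filter.mp k.1).2 with h' | h'
      · rw [h.refl.ee, ht] at h'
        exact h.good.fpf t h'.symm
      · have := h'.1
        rw [ht, h.side.ga, h0, if_neg k.2, if_pos ht] at this
        exact absurd this (by decide)
    · obtain ⟨k1, k2⟩ := h3'' (s.symm t) k.2.2.1 k.2.2.2
      rw [Equiv.apply_symm_apply] at k1 k2
      rw [k1, k2]
    · exfalso
      rw [h0] at k
      exact absurd k.2.1 (by decide)
  have h3 : ∀ t, e t = a t → β (a t) = β t := by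
    intro t ht
    rcases HalfB_z2 (g t) with h0 | h0
    · exact h3' t ht h0
    · have k1 : e (a t) = a (a t) := by rw [h.refl.ea, ht]
      have k2 : g (a t) = 0 := by
        rw [h.side.ga, h0, if_neg (by rw [ht]; exact h.good.fpf t), if_pos ht]; decide
      have := h3' (a t) k1 k2
      rw [h.good.inv] at this
      exact this.symm
  obtain ⟨_, κ, _, _, _, q1, q2, q3⟩ := axis_lemma h.good h.refl α β hαs hβs h1 h2 h3
  have hltr := h.ltr_root
  have htyp := h.typ
  have hgr := h.gr
  have hκ : κ = 1 := by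
    rcases ty with _ | _ | _ | _
    · have k1 := q2 r htyp
      rw [hV r h.root_mem (Or.inr hltr), if_pos hOr] at k1
      exact k1.symm
    · exact absurd htyp (by simp [NTy])
    · have k1 := q1 r htyp
      rw [hV r h.root_mem (Or.inl hltr), if_pos hOr] at k1
      exact k1.symm
    · have k1 := q3 (s r) htyp.1
      rw [(h3'' r h.root_mem hltr).2, if_pos hOr] at k1
      exact k1.symm
  have hfin : O t.1 := by
    have k0 : ∀ x : ZMod 2, x = (if O t.1 then 1 else 0) → x = 1 → O t.1 := by
      intro x hx hx1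
      by_contra hn
      rw [if_neg hn, hx1] at hx
      exact absurd hx (by decide)
    rcases hlt : ltr a s e g t.1 with _ | _ | _ | _
    · exact k0 _ (hV t.1 t.2 (Or.inr hlt)) ((q2 t.1 (h.step_C t.2 hlt).2.1).trans hκ)
    · exact absurd hlt hl
    · exact k0 _ (hV t.1 t.2 (Or.inl hlt)) ((q1 t.1 (h.step_G t.2 hlt).2.2.1).trans hκ)
    · exact k0 _ (h3'' t.1 t.2 hlt).2 ((q3 (s t.1) (h.step_X t.2 hlt).2.2.1).trans hκ)
  obtain ⟨_, h5⟩ := (hO t.1).mp hfin
  exact h5

end

end PGr

end

section
/-! # Module HalfC: the half map is nonseparable -/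

set_option linter.unusedSectionVars false

namespace PGr
open Equiv Finset

section
variable {T : Type*} [Fintype T] [DecidableEq T] {a s e : Perm T} {g : T → ZMod 2} {r : T} {ty : Ltr}

theorem HalfC_z2 (u : ZMod 2) : u = 0 ∨ u = 1 := by revert u; decide

theorem HalfC_mem_HP {t : T} : t ∈ HP a e g ↔ e t = t ∨ (g t = 0 ∧ e t ≠ a t) := by
  simp [HP]

/-- the set of darts of `A`, as darts of the map -/
def HalfC_A0 {H : Finset T} (A : Finset {x // x ∈ H}) : Finset T :=
  A.map ⟨Subtype.val, Subtype.val_injective⟩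

theorem HalfC_mem_A0 {H : Finset T} {A : Finset {x // x ∈ H}} {t : T} :
    t ∈ HalfC_A0 A ↔ ∃ ht : t ∈ H, (⟨t, ht⟩ : {x // x ∈ H}) ∈ A := by
  simp [HalfC_A0]

theorem HalfC_val_mem {H : Finset T} {A : Finset {x // x ∈ H}} {t : {x // x ∈ H}} :
    t.1 ∈ HalfC_A0 A ↔ t ∈ A := by
  rw [HalfC_mem_A0]
  exact ⟨fun ⟨_, h⟩ => h, fun h => ⟨t.2, h⟩⟩

/-- the double of `A` -/
def HalfC_dbl (a s e : Perm T) (g : T → ZMod 2) (A0 : Finset T) : Finset T :=
  univ.filter fun t => t ∈ A0 ∨ e t ∈ A0 ∨
    (e t = a t ∧ ((s.symm t ∈ A0 ∧ g t = 0) ∨ (s.symm (a t) ∈ A0 ∧ g t = 1)))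

theorem HalfC_mem_dbl {A0 : Finset T} {t : T} : t ∈ HalfC_dbl a s e g A0 ↔ (t ∈ A0 ∨ e t ∈ A0 ∨
    (e t = a t ∧ ((s.symm t ∈ A0 ∧ g t = 0) ∨ (s.symm (a t) ∈ A0 ∧ g t = 1)))) := by
  simp [HalfC_dbl]

theorem HalfC_cr_g (h : NR a s e g r ty) {t : T} (ht : e t = a t) : g (a t) = g t + 1 := by
  have h1 := h.side.ga t
  rw [if_neg (fun h0 : e t = t => h.good.fpf t (by rw [← ht, h0])), if_pos ht] at h1
  rw [h1]; ring

theorem HalfC_cr_a (h : NR a s e g r ty) {t : T} : e (a t) = a (a t) ↔ e t = a t := by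
  rw [h.refl.ea, a.injective.eq_iff]

theorem HalfC_HP_nc (h : NR a s e g r ty) {t : T} (ht : t ∈ HP a e g) : e t ≠ a t := by
  rw [HalfC_mem_HP] at ht
  rcases ht with ht | ht
  · intro h0
    exact h.good.fpf t (by rw [← h0, ht])
  · exact ht.2

/-- a dart of the half whose mirror image is in the half is on the axis -/
theorem HalfC_HP_e (h : NR a s e g r ty) {t : T} (ht : t ∈ HP a e g) (ht' : e t ∈ HP a e g) :
    e t = t := by
  by_contra h0
  rw [HalfC_mem_HP] at ht ht'
  have h1 : g t = 0 := by tauto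
  have h2 : g (e t) = 0 := by
    rcases ht' with h2 | h2
    · exact absurd (by rw [h.refl.ee] at h2; exact h2.symm) h0
    · exact h2.1
  have h3 := h.side.ge t
  rw [if_neg h0, h1, h2] at h3
  revert h3; decide

theorem HalfC_dbl_HP (h : NR a s e g r ty) {A0 : Finset T} (hA : A0 ⊆ HP a e g) {t : T}
    (ht : t ∈ HP a e g) : t ∈ HalfC_dbl a s e g A0 ↔ t ∈ A0 := by
  rw [HalfC_mem_dbl]
  constructor
  · rintro (h1 | h1 | h1)
    · exact h1
    · have := HalfC_HP_e h ht (hA h1)
      rwa [this] at h1
    · exact absurd h1.1 (HalfC_HP_nc h ht)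
  · exact Or.inl

theorem HalfC_dbl_cr (h : NR a s e g r ty) {A0 : Finset T} (hA : A0 ⊆ HP a e g) {t : T}
    (ht : e t = a t) (hg : g t = 0) : t ∈ HalfC_dbl a s e g A0 ↔ s.symm t ∈ A0 := by
  rw [HalfC_mem_dbl]
  constructor
  · rintro (h1 | h1 | h1)
    · exact absurd ht (HalfC_HP_nc h (hA h1))
    · exfalso
      have h2 := HalfC_HP_nc h (hA h1)
      rw [h.refl.ee, ht, h.good.inv] at h2
      exact h2 rfl
    · rcases h1.2 with h2 | h2
      · exact h2.1
      · rw [hg] at h2
        exact absurd h2.2 (by decide)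
  · intro h1
    exact Or.inr (Or.inr ⟨ht, Or.inl ⟨h1, hg⟩⟩)

theorem HalfC_dbl_cl (h : NR a s e g r ty) {A0 : Finset T} (hA : Cl a A0) :
    Cl a (HalfC_dbl a s e g A0) := by
  have key : ∀ t, t ∈ HalfC_dbl a s e g A0 → a t ∈ HalfC_dbl a s e g A0 := by
    intro t ht
    rw [HalfC_mem_dbl] at ht ⊢
    rcases ht with h1 | h1 | ⟨h1, h2⟩
    · exact Or.inl ((hA t).mpr h1)
    · right; left
      rw [h.refl.ea, hA]; exact h1
    · right; right
      refine ⟨(HalfC_cr_a h).mpr h1, ?_⟩
      rw [HalfC_cr_g h h1, h.good.inv]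
      rcases h2 with ⟨h2, h3⟩ | ⟨h2, h3⟩
      · right; exact ⟨h2, by rw [h3]; decide⟩
      · left; exact ⟨h2, by rw [h3]; decide⟩
  intro t
  refine ⟨fun ht => ?_, key t⟩
  have := key _ ht
  rwa [h.good.inv] at this

theorem HalfC_dbl_e (h : NR a s e g r ty) {A0 : Finset T} (hA : Cl a A0) :
    ∀ t ∈ HalfC_dbl a s e g A0, e t ∈ HalfC_dbl a s e g A0 := by
  intro t ht
  have ht0 := ht
  rw [HalfC_mem_dbl] at ht
  rcases ht with h1 | h1 | ⟨h1, h2⟩
  · rw [HalfC_mem_dbl]
    right; left
    rw [h.refl.ee]; exact h1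
  · rw [HalfC_mem_dbl]
    exact Or.inl h1
  · rw [h1, HalfC_dbl_cl h hA]
    exact ht0

/-- side of the mirror corner -/
theorem HalfC_gm (h : NR a s e g r ty) (t : T) :
    g (e (s t)) = g t + 1 + (if e t = s t then 1 else 0) := by
  rw [h.side.ge, h.side.gs]
  have h2 : ∀ u v w : ZMod 2, u + v + w + 1 + w = u + 1 + v := by decide
  exact h2 _ _ _

/-- the corner of the map belonging to a corner of the half with letter `J` or `X` -/
def HalfC_up (a s e : Perm T) (g : T → ZMod 2) (t : T) : T :=
  if ltr a s e g t = .X then s t else t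

theorem HalfC_up_sc (t : T) : s.SameCycle t (HalfC_up a s e g t) := by
  unfold HalfC_up
  split_ifs
  · exact ⟨1, by simp⟩
  · exact Perm.SameCycle.refl _ _

/-- the upper boundary corners of the double come from boundary corners of the half -/
theorem HalfC_bd (h : NR a s e g r ty) {A : Finset {x // x ∈ HP a e g}} {t : T}
    (ht : t ∈ bd s (HalfC_dbl a s e g (HalfC_A0 A))) (hg : g t = 0) :
    ∃ u ∈ bd (ret s (HP a e g)) A, (ltr a s e g u.1 = .J ∨ ltr a s e g u.1 = .X) ∧
      HalfC_up a s e g u.1 = t := by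
  have hA : HalfC_A0 A ⊆ HP a e g := by
    intro x hx
    rw [HalfC_mem_A0] at hx
    exact hx.1
  have he := h.refl
  have hb := ht
  rw [mem_bd] at hb
  have hnb : e t ≠ s t := by
    intro h0
    apply hb
    have hcl : Cl a (HalfC_A0 A) ∨ True := Or.inr trivial
    rw [← h0]
    constructor
    · intro h1
      rw [HalfC_mem_dbl] at h1 ⊢
      rcases h1 with h1 | h1 | ⟨h1, h2⟩
      · right; left; rw [he.ee]; exact h1
      · left; exact h1
      · right; right
        rw [he.ee]
        have h3 : e t = a t := h1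
        rw [h3, h.good.inv]
        refine ⟨rfl, ?_⟩
        rw [HalfC_cr_g h h3]
        rcases h2 with ⟨h2, h4⟩ | ⟨h2, h4⟩
        · right; exact ⟨h2, by rw [h4]; decide⟩
        · left; exact ⟨h2, by rw [h4]; decide⟩
    · intro h1
      rw [HalfC_mem_dbl] at h1 ⊢
      rw [he.ee] at h1
      rcases h1 with h1 | h1 | ⟨h1, h2⟩
      · right; left; exact h1
      · left; exact h1
      · right; right
        have h3 : e t = a t := by
          have h4 := congrArg a h1
          rw [h.good.inv] at h4
          exact h4.symm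
        rw [h3, h.good.inv] at h2
        refine ⟨h3, ?_⟩
        rw [HalfC_cr_g h h3] at h2
        rcases h2 with ⟨h2, h4⟩ | ⟨h2, h4⟩
        · right
          refine ⟨h2, ?_⟩
          rcases HalfC_z2 (g t) with h5 | h5
          · rw [h5] at h4; exact absurd h4 (by decide)
          · exact h5
        · left
          refine ⟨h2, ?_⟩
          rcases HalfC_z2 (g t) with h5 | h5
          · exact h5
          · rw [h5] at h4; exact absurd h4 (by decide)
  by_cases hc : e t = a t
  · -- crossing dart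
    obtain ⟨h1, h2⟩ : s.symm t ∈ HP a e g ∧ ltr a s e g (s.symm t) = .X := by
      rcases h.cover t with h1 | h1 | h1 | h1
      · exact absurd hc (HalfC_HP_nc h h1)
      · exfalso
        have h2 := HalfC_HP_nc h h1.1
        rw [he.ee, hc, h.good.inv] at h2
        exact h2 rfl
      · exact h1.2.2
      · rw [hg] at h1
        exact absurd h1.2.1 (by decide)
    refine ⟨⟨s.symm t, h1⟩, ?_, Or.inr h2, ?_⟩
    · rw [mem_bd, ← HalfC_val_mem (t := ret s (HP a e g) ⟨s.symm t, h1⟩),
        h.ret_X ⟨s.symm t, h1⟩ h2, ← HalfC_val_mem (t := (⟨s.symm t, h1⟩ : {x // x ∈ HP a e g}))]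
      simp only [apply_symm_apply]
      have h3 := h.step_X h1 h2
      simp only [apply_symm_apply] at h3
      rw [← HalfC_dbl_cr h hA hc hg, ← HalfC_dbl_HP h hA h3.2.2.2.2.2.1]
      exact hb
    · unfold HalfC_up
      rw [if_pos h2, apply_symm_apply]
  · -- a dart of the half
    have h1 : t ∈ HP a e g := HalfC_mem_HP.mpr (Or.inr ⟨hg, hc⟩)
    by_cases hx : e (s t) = a (s t)
    · exfalso
      have hl : ltr a s e g t = .X := by
        unfold ltr
        rw [if_neg (by rw [hg]; decide), if_neg hnb, if_pos hx]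
      have h3 := h.step_X h1 hl
      apply hb
      rw [HalfC_dbl_HP h hA h1, HalfC_dbl_cr h hA hx h3.2.2.2.1, symm_apply_apply]
    · have hl : ltr a s e g t = .J := by
        unfold ltr
        rw [if_neg (by rw [hg]; decide), if_neg hnb, if_neg hx]
      have h3 := h.step_J h1 hl
      refine ⟨⟨t, h1⟩, ?_, Or.inl hl, ?_⟩
      · rw [mem_bd, ← HalfC_val_mem (t := ret s (HP a e g) ⟨t, h1⟩),
          h.ret_J ⟨t, h1⟩ hl, ← HalfC_val_mem (t := (⟨t, h1⟩ : {x // x ∈ HP a e g})),
          ← HalfC_dbl_HP h hA h1, ← HalfC_dbl_HP h hA h3.2]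
        exact hb
      · unfold HalfC_up
        rw [hl]
        rfl

/-- Proof.  Let `A` be closed in the half, nonempty, not everything, with cut less than 4, so 0 or 2
(`cut_eq_two_mul`); replacing `A` by its complement we may assume `r ∉ A`.  Let `A'` be the set of the darts
of `A`, the darts `e t`, `t ∈ A`, and the crossing darts `s t`, `a (s t)` for `t ∈ A` with letter `X` (`t = s⁻¹ z` for the
upper dart `z` of the crossing edge).  `A'` is closed, invariant under `e`, `r ∉ A'`, `A' ≠ univ`, nonempty.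
The boundary corners of `A'`: upper corners: for `t` in the half with letter `J`: iff `t` is a boundary corner of `A`
(`hs t = s t`); with letter `X`: the corner `t` is not a boundary corner (same side), the corner `s t` is iff `t` is a
boundary corner of `A` (`hs t = s (s t)`); with letter `G`: `s t = e t`, no; with letter `C`: `s t = e (s⁻¹ t)`, this is the
mirror image of the corner `s⁻¹ t`.  Lower corners: the mirror images (`t ↦ s⁻¹ (e t)` maps boundary corners to boundary
corners).  So the cut of `A'` is twice the number of boundary corners of `A` with letter `J` or `X`, at most 4; by `NS` of the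
map it is 4, `A` has exactly two boundary corners `t1, t2`, both with letter `J` or `X`; they are at one vertex of the half
(every cycle has an even number), hence at one vertex of the map (`sameCycle_ret`).  If this vertex is fixed by
`e`, all boundary corners of `A'` are at one vertex, contradiction with `Good.two_shared`.  Otherwise the ends of `A'` are
swapped by `e` (all boundary corners are at the vertex of `t1` or at its image), so `A'.card = 2` by `red`; but `A` contains
an upper dart at the vertex of `t1` (`t1` or `hs t1`; it is not on the axis), so `A'` contains two pairs. -/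
theorem NR.half_ns (h : NR a s e g r ty) : NS h.ha h.hs := by
  -- the case that the root is not in `A`
  have main : ∀ A : Finset {x // x ∈ HP a e g}, Cl h.ha A → A.Nonempty → h.hr ∉ A →
      4 ≤ cut h.hs A := by
    intro A hA hne hr
    by_contra hcut
    have hcut2 : (bd h.hs A).card ≤ 2 := by
      have h1 := cut_eq_two_mul h.hs A
      rw [cut] at h1 hcut
      omega
    set A0 := HalfC_A0 A with hA0
    have hsub : A0 ⊆ HP a e g := by
      intro x hx
      rw [hA0, HalfC_mem_A0] at hx
      exact hx.1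
    have hcl0 : Cl a A0 := by
      intro t
      rw [hA0, HalfC_mem_A0, HalfC_mem_A0]
      constructor
      · rintro ⟨ht, h1⟩
        have ht' : t ∈ HP a e g := (h.cl t).mp ht
        exact ⟨ht', (hA ⟨t, ht'⟩).mp h1⟩
      · rintro ⟨ht, h1⟩
        exact ⟨(h.cl t).mpr ht, (hA ⟨t, ht⟩).mpr h1⟩
    set B := HalfC_dbl a s e g A0 with hB
    have hBcl : Cl a B := HalfC_dbl_cl h hcl0
    have hBe : ∀ t ∈ B, e t ∈ B := HalfC_dbl_e h hcl0
    have hBr : r ∉ B := by
      rw [hB, HalfC_dbl_HP h hsub h.root_mem, hA0]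
      intro h1
      rw [HalfC_mem_A0] at h1
      exact hr h1.2
    have hBne : B.Nonempty := by
      obtain ⟨x, hx⟩ := hne
      exact ⟨x.1, HalfC_mem_dbl.mpr (Or.inl (HalfC_val_mem.mpr hx))⟩
    have hBu : B ≠ univ := fun h0 => hBr (h0 ▸ mem_univ r)
    have hB4 := h.good.ns B hBcl hBne hBu
    -- upper boundary corners
    set U := (bd s B).filter fun t => g t = 0 with hU
    have hUsub : U ⊆ (bd h.hs A).image fun u => HalfC_up a s e g u.1 := by
      intro t ht
      rw [hU, mem_filter] at ht
      obtain ⟨u, hu, _, hut⟩ := HalfC_bd h ht.1 ht.2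
      exact mem_image.mpr ⟨u, hu, hut⟩
    have hmir : ∀ t ∈ bd s B, g t ≠ 0 → e (s t) ∈ U := by
      intro t ht hg
      obtain ⟨m1, m2, m3⟩ := DualR_mirror h.refl hBe ht
      rw [hU, mem_filter]
      refine ⟨m1, ?_⟩
      rw [HalfC_gm h, if_neg]
      · rcases HalfC_z2 (g t) with h5 | h5
        · exact absurd h5 hg
        · rw [h5]; decide
      · intro h0
        apply m2
        rw [← h0, h.refl.ee]
    have hle1 : ((bd s B).filter fun t => ¬ g t = 0).card ≤ U.card := by
      apply card_le_card_of_injOn (fun t => e (s t))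
      · intro t ht
        rw [mem_coe, mem_filter] at ht
        exact hmir t ht.1 ht.2
      · intro x _ y _ hxy
        exact s.injective (e.injective hxy)
    have hsplit : U.card + ((bd s B).filter fun t => ¬ g t = 0).card = (bd s B).card :=
      card_filter_add_card_filter_not (s := bd s B) (fun t => g t = 0)
    have hle2 : U.card ≤ (bd h.hs A).card := (card_le_card hUsub).trans card_image_le
    have hcutB : cut s B = (bd s B).card := rfl
    have hUc : U.card = 2 := by omega
    have hAc : (bd h.hs A).card = 2 := by omega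
    have hc4 : cut s B = 4 := by omega
    have hUeq : U = (bd h.hs A).image fun u => HalfC_up a s e g u.1 := by
      apply Finset.eq_of_subset_of_card_le hUsub
      exact card_image_le.trans (by omega)
    -- the two boundary corners of `A`
    obtain ⟨u1, hu1⟩ : (bd h.hs A).Nonempty := card_pos.mp (by omega)
    obtain ⟨u2, hne12, hsc12, hu2⟩ := Four.partner h.hs hu1
    have hbdA : bd h.hs A = {u1, u2} := by
      symm
      apply Finset.eq_of_subset_of_card_le
      · intro z hz
        simp only [mem_insert, mem_singleton] at hz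
        rcases hz with rfl | rfl
        · exact hu1
        · exact hu2
      · rw [hAc, card_pair hne12.symm]
    have hs12 : s.SameCycle u1.1 u2.1 := (sameCycle_ret s _ u1 u2).mp hsc12
    have hall : ∀ t ∈ U, s.SameCycle u1.1 t := by
      intro t ht
      rw [hUeq, hbdA, mem_image] at ht
      obtain ⟨u, hu, rfl⟩ := ht
      simp only [mem_insert, mem_singleton] at hu
      rcases hu with rfl | rfl
      · exact HalfC_up_sc _
      · exact hs12.trans (HalfC_up_sc _)
    obtain ⟨t1, ht1⟩ : U.Nonempty := card_pos.mp (by omega)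
    have ht1b : t1 ∈ bd s B := (mem_filter.mp ht1).1
    rcases ends_all h.good h.refl hBcl hBe hc4 with hfix | hfree
    · -- all boundary corners are at one vertex
      obtain ⟨x, y, hx, hy, hxy⟩ := h.good.two_shared hBcl hBne hBu
      obtain ⟨x', hx', hxx⟩ := Four.exists_bd_of_shC hx
      obtain ⟨y', hy', hyy⟩ := Four.exists_bd_of_shC hy
      have hone : ∀ z ∈ bd s B, s.SameCycle u1.1 z := by
        intro z hz
        by_cases hg : g z = 0
        · exact hall z (mem_filter.mpr ⟨hz, hg⟩)
        · have h1 := hall _ (hmir z hz hg)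
          have h2 := hfix z hz
          rw [← DualR_sc h.refl] at h2
          exact h1.trans h2.symm
      exact hxy (hxx.trans ((hone x' hx').symm.trans ((hone y' hy').trans hyy.symm)))
    · have hcard := h.red B hBcl hBe hc4 hBr hfree
      -- a dart of `A` at the vertex of `u1`
      obtain ⟨w, hw, hwu⟩ : ∃ w : {x // x ∈ HP a e g}, w ∈ A ∧ s.SameCycle u1.1 w.1 := by
        rw [mem_bd] at hu1
        by_cases h1 : u1 ∈ A
        · exact ⟨u1, h1, Perm.SameCycle.refl _ _⟩
        · refine ⟨h.hs u1, by tauto, (sameCycle_ret s _ _ _).mp ⟨1, by simp⟩⟩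
      have hwB : w.1 ∈ B := HalfC_mem_dbl.mpr (Or.inl (HalfC_val_mem.mpr hw))
      have hew : e w.1 ≠ w.1 := by
        intro h0
        have h1 : s.SameCycle t1 w.1 := (hall t1 ht1).symm.trans hwu
        have h2 : s.SameCycle t1 (e t1) := by
          have h3 : s.SameCycle (e (s t1)) (e t1) := ⟨1, by simp [h.refl.es]⟩
          -- `e` maps the cycle of `t1` to the cycle of `e t1`
          have h1' := h1
          obtain ⟨k, hk⟩ := h1
          have key : ∀ (n : ℕ) (w : T), e ((s ^ n) w) = (s ^ n)⁻¹ (e w) := by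
            intro n
            induction n with
            | zero => intro w; simp
            | succ n ih =>
              intro w
              have e1 : (s ^ (n + 1)) w = (s ^ n) (s w) := by rw [pow_succ, Perm.mul_apply]
              have e2 : (s ^ (n + 1))⁻¹ (e w) = (s ^ n)⁻¹ (s⁻¹ (e w)) := by
                rw [pow_succ', mul_inv_rev, Perm.mul_apply]
              have e3 : e (s w) = s⁻¹ (e w) := by
                rw [Perm.eq_inv_iff_eq]; exact h.refl.es w
              rw [e1, ih, e2, e3]
          have h4 : s.SameCycle (e t1) (e w.1) := by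
            rcases Int.eq_nat_or_neg k with ⟨n, rfl | rfl⟩
            · rw [← hk, zpow_natCast, key]
              exact ⟨-(n : ℤ), by simp⟩
            · have hu : t1 = (s ^ n) w.1 := by
                rw [← hk]; simp
              rw [hu, key]
              exact ⟨(n : ℤ), by simp⟩
          rw [h0] at h4
          exact h1'.trans h4.symm
        exact hfree t1 ht1b h2
      have hsub3 : ({w.1, a w.1, e w.1} : Finset T) ⊆ B := by
        intro z hz
        simp only [mem_insert, mem_singleton] at hz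
        rcases hz with rfl | rfl | rfl
        · exact hwB
        · exact (hBcl _).mpr hwB
        · exact hBe _ hwB
      have hc3 := card_le_card hsub3
      rw [card_insert_of_notMem (by simp [(h.good.fpf w.1).symm, hew.symm]),
        card_pair (HalfC_HP_nc h w.2).symm] at hc3
      omega
  intro A hA hne hu
  by_cases hr : h.hr ∈ A
  · rw [← cut_compl]
    refine main Aᶜ hA.compl ?_ (by simpa using hr)
    rw [← Finset.compl_ne_univ_iff_nonempty, compl_compl]
    exact hu
  · exact main A hA hne hr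

/-- `half_ns`, `Pl.restrict`; `np`: if the half has at least 4 darts it is `Good` (`noPinch`), if it has 2 darts `t, a t`
they are at different vertices (`sameCycle_ret`, `noLoop`) -/
theorem NR.half_hh (h : NR a s e g r ty) : HH h.ha h.hs h.hr := by
  have hinv : ∀ t, h.ha (h.ha t) = t := fun t => Subtype.ext (h.good.inv t.1)
  have hfpf : ∀ t, h.ha t ≠ t := fun t h0 => h.good.fpf t.1 (congrArg Subtype.val h0)
  have hpl : Pl h.ha h.hs := Pl.restrict h.good.pl h.good.inv _ h.cl
  refine ⟨hinv, hfpf, h.half_ns, hpl, ?_, fun t h0 =>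
    h.good.noLoop t.1 ((sameCycle_ret s _ t (h.ha t)).mp h0)⟩
  intro t t' hne hsc h1 h2
  by_cases hbig : 4 ≤ Fintype.card {x // x ∈ HP a e g}
  · have hgood : Good h.ha h.hs := ⟨hinv, hfpf, h.half_ns, hpl, hbig⟩
    exact hgood.noPinch hne hsc (h1.symm.trans h2)
  · have ht' : t' = h.ha t := by
      by_contra h3
      have h4 := Rig1.card_four hinv hfpf (e := t) (u := t') hne.symm h3
      have h5 := card_le_univ ({t, h.ha t, t', h.ha t'} : Finset {x // x ∈ HP a e g})
      omega
    have h6 := (sameCycle_ret s _ t t').mp hsc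
    rw [ht'] at h6
    exact h.good.noLoop t.1 h6

/-- the letters of the half; `conn`, `next_ne`, `ltr_root`.  `cc`: let `t` and `a t` both have a letter different from `J`
and `a t` letter `C`.  Then `t` is on the axis, so its letter is `J`, `G`, `X` with `g t = 0` and `e t = t`: `G`, `X` are
impossible (`step_G`, `step_X`).  `two`: suppose `ty ≠ C` and all other corners have letter `J`.  Then `r` is the
only dart `t` of the closed set `HP` with `s t ∉ HP` (`step_J`), so its cut is 2 (`cut_eq_two_mul`), but `e r ∉ HP`;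
contradiction with `NS`. -/
theorem NR.half_mark (h : NR a s e g r ty) :
    Mark h.ha h.hs h.hr (fun t => ltr a s e g t.1) := by
  have hroot : ltr a s e g r ≠ .J := by
    rw [h.ltr_root]
    intro h0
    have := h.typ
    rw [h0] at this
    exact this
  refine ⟨hroot, fun t ht => h.conn t ht, fun t ht => h.next_ne t ht, ?_, ?_⟩
  · intro t ht h0
    have h1 := h.step_C (t := a t.1) (h.ha t).2 h0
    have het : e t.1 = t.1 := by
      have h2 := h1.2.1
      rw [h.refl.ea] at h2
      exact a.injective h2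
    have hg : g t.1 = 0 := by
      have h2 := h.side.ga t.1
      rw [h1.1, if_pos het, if_neg (HalfC_HP_nc h t.2)] at h2
      rcases HalfC_z2 (g t.1) with h5 | h5
      · exact h5
      · rw [h5] at h2; exact absurd h2 (by decide)
    have ht0 : ltr a s e g t.1 ≠ .J := ht
    rcases hl : ltr a s e g t.1 with _ | _ | _ | _
    · have := (h.step_C t.2 hl).1
      rw [hg] at this
      exact absurd this (by decide)
    · exact ht0 hl
    · exact (h.step_G t.2 hl).2.1 het
    · exact (h.step_X t.2 hl).2.1 het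
  · by_contra hcon
    push Not at hcon
    obtain ⟨hrC, hall⟩ := hcon
    have hrl : ltr a s e g r ≠ .C := hrC
    have hsub : (univ.filter fun t => t ∈ HP a e g ∧ s t ∉ HP a e g) ⊆ {r} := by
      intro t ht
      rw [mem_filter] at ht
      rw [mem_singleton]
      by_contra h0
      have h1 := hall ⟨t, ht.2.1⟩ (fun h2 => h0 (congrArg Subtype.val h2))
      exact ht.2.2 (h.step_J ht.2.1 h1).2
    have h1 := cut_eq_two_mul s (HP a e g)
    have h2 := card_le_card hsub
    rw [card_singleton] at h2
    have her : g r = 0 ∧ e r ≠ r := by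
      rcases hl : ltr a s e g r with _ | _ | _ | _
      · exact absurd hl hrl
      · exact absurd hl hroot
      · have := h.step_G h.root_mem hl
        exact ⟨this.1, this.2.1⟩
      · have := h.step_X h.root_mem hl
        exact ⟨this.1, this.2.1⟩
    have h3 := h.good.ns (HP a e g) h.cl ⟨r, h.root_mem⟩ (fun h0 => by
      have h4 : e r ∈ HP a e g := by rw [h0]; exact mem_univ _
      exact her.2 (HalfC_HP_e h h.root_mem h4))
    omega

end

end PGr

end
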