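import Pool.Agent.PGc.Crit
import Pool.Agent.PGc.Curve
import Pool.Agent.PGc.Kernel
import Pool.Agent.PGc.Pring
import Pool.Agent.PGc.RgExpl
import Pool.Agent.PGc.SerEq
import Pool.Agent.PGc.SmallY
import Pool.Agent.PGc.TEq
import Pool.Agent.PGm.M02
import Pool.Agent.PGm.M06
import Pool.Agent.PGr.KSum
import Pool.Agent.PGr.NoPinch
import Pool.Agent.PGr.SumLib

section
/-! # Module ESD: duality -/

namespace PGa
open PGr
open scoped ENNReal

/-- the dual class -/
noncomputable def ESDmap (c : GC) : GC :=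
  Quotient.map (fun M : GB => (⟨M.1.dual, M.2.dual⟩ : GB)) (fun _ _ h => BIso.dual h) c

theorem ESD_mk (M : GB) : ESDmap (Quotient.mk bSetoid M) = Quotient.mk bSetoid ⟨M.1.dual, M.2.dual⟩ :=
  rfl

theorem ESD_invol (c : GC) : ESDmap (ESDmap c) = c := by
  obtain ⟨M, rfl⟩ := Quotient.exists_rep c
  rw [ESD_mk, ESD_mk]
  congr 1
  exact Subtype.ext (dual_dual M.2)

/-- duality of the classes -/
noncomputable def ESDequiv : GC ≃ GC := ⟨ESDmap, ESDmap, ESD_invol, ESD_invol⟩

theorem ESD_rep (c : GC) : BIso (ESDmap c).rep.1 c.rep.1.dual := by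
  have h1 : ESDmap c = Quotient.mk bSetoid ⟨c.rep.1.dual, c.rep.2.dual⟩ := by
    rw [← ESD_mk]
    congr 1
    exact (Quotient.out_eq c).symm
  have h2 : Quotient.mk bSetoid (ESDmap c).rep =
      Quotient.mk bSetoid ⟨c.rep.1.dual, c.rep.2.dual⟩ := by
    rw [← h1]
    exact Quotient.out_eq _
  exact Quotient.exact h2

theorem ESD_W {S Y : ℝ≥0∞} (h0 : S ≠ 0) (ht : S ≠ ⊤) {M : BMap} (hM : M.IsGood) :
    W S⁻¹ (S * Y) M.dual = S * W S Y M := by
  have h1 := Good.euler hM
  have h2 := Good.two_le_nV hM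
  have h3 := Good.two_le_nV (Good.dual hM)
  have hT : Fintype.card M.T = Fintype.card M.D + 2 := by
    rw [Fintype.card_sum, Fintype.card_bool]
  have h4 : nV M.dual.s = nV (M.aa * M.s) := rfl
  have h5 : Fintype.card M.dual.D = Fintype.card M.D := rfl
  rw [W, W, h4, h5]
  obtain ⟨k, hk⟩ : ∃ k, k = nV (M.aa * M.s) - 2 := ⟨_, rfl⟩
  obtain ⟨j, hj⟩ : ∃ j, j = nV M.s - 2 := ⟨_, rfl⟩
  have h6 : Fintype.card M.D / 2 = k + (j + 1) := by omega
  rw [← hk, ← hj, h6, mul_pow, pow_add, ← mul_assoc, ← mul_assoc, ← mul_pow,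
    ENNReal.inv_mul_cancel h0 ht, one_pow, one_mul, pow_succ, mul_comm (S ^ j) S, mul_assoc]

/-- Module ESD.  The classes are permuted by `M ↦ M.dual` (an involution on classes up to `BIso`),
`nV M.dual.s = E + 2 - nV M.s` (`Good.euler`), so
`W S⁻¹ (S * Y) M.dual = S * W S Y M`. -/
theorem Es_dual {S Y : ℝ≥0∞} (h0 : S ≠ 0) (ht : S ≠ ⊤) : Es S⁻¹ (S * Y) = S * Es S Y := by
  have h1 : ∀ s y : ℝ≥0∞, Es s y = ∑' c : GC, W s y c.rep.1 := by
    intro s y
    rw [Es, Esel]
    refine tsum_congr fun c => ?_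
    rw [if_pos trivial]
  rw [h1, h1, ← ESDequiv.tsum_eq (fun c : GC => W S⁻¹ (S * Y) c.rep.1), ← ENNReal.tsum_mul_left]
  refine tsum_congr fun c => ?_
  have h2 : W S⁻¹ (S * Y) (ESDmap c).rep.1 = W S⁻¹ (S * Y) c.rep.1.dual := (ESD_rep c).W_eq _ _
  rw [← ESD_W h0 ht c.rep.2, ← h2]
  rfl

end PGa

end

section
/-! # Modules FEQ: the functional equation -/

namespace PGa
open PGr
open scoped ENNReal

/-- nets with `f` marking the side length -/
noncomputable def tauL (s y f : ℝ) : ℝ≥0∞ :=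
  ∑' l, tL (ENNReal.ofReal s) (ENNReal.ofReal y) l * ENNReal.ofReal f ^ l

/-- (`Es_eq_tsum`) -/
theorem tauL_one (s y : ℝ) : tauL s y 1 = Es (ENNReal.ofReal s) (ENNReal.ofReal y) := by
  rw [Es_eq_tsum, tauL]
  refine tsum_congr (fun l => ?_)
  rw [ENNReal.ofReal_one, one_pow, mul_one]

theorem tauL_mono {s y f f' : ℝ} (h : f ≤ f') : tauL s y f ≤ tauL s y f' := by
  refine ENNReal.tsum_le_tsum (fun l => ?_)
  gcongr

private lemma FEQ_cauchy (a t : ℕ → ℝ≥0∞) :
    ∑' l, ∑ p ∈ Finset.HasAntidiagonal.antidiagonal l, a p.1 * t p.2 = (∑' l, a l) * ∑' l, t l := by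
  have h1 : ∀ l, ∑ p ∈ Finset.HasAntidiagonal.antidiagonal l, a p.1 * t p.2 =
      ∑' p : (Finset.HasAntidiagonal.antidiagonal l), a p.1.1 * t p.1.2 := fun l =>
    (Finset.tsum_subtype (Finset.HasAntidiagonal.antidiagonal l) (fun p : ℕ × ℕ => a p.1 * t p.2)).symm
  simp_rw [h1]
  rw [← ENNReal.tsum_sigma (fun (l : ℕ) (p : (Finset.HasAntidiagonal.antidiagonal l)) => a p.1.1 * t p.1.2)]
  have h2 := Equiv.tsum_eq Finset.HasAntidiagonal.sigmaAntidiagonalEquivProd
    (fun p : ℕ × ℕ => a p.1 * t p.2)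
  have h3 : ∑' p : ℕ × ℕ, a p.1 * t p.2 = ∑' i, ∑' j, a i * t j :=
    ENNReal.tsum_prod (f := fun i j => a i * t j)
  rw [show (∑' p : (Σ l : ℕ, (Finset.HasAntidiagonal.antidiagonal l : Finset (ℕ × ℕ))), a p.2.1.1 * t p.2.1.2) =
    ∑' p : ℕ × ℕ, a p.1 * t p.2 from h2, h3]
  simp_rw [ENNReal.tsum_mul_left]
  rw [ENNReal.tsum_mul_right]

private lemma FEQ_geom (Φ : ℝ≥0∞) (m : ℕ) :
    Φ * ∑ l ∈ Finset.range m, Φ ^ (l + 1) + Φ = ∑ l ∈ Finset.range m, Φ ^ (l + 1) + Φ ^ (m + 1) := by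
  induction m with
  | zero => simp
  | succ m ih =>
    rw [Finset.sum_range_succ, mul_add]
    calc Φ * ∑ l ∈ Finset.range m, Φ ^ (l + 1) + Φ * Φ ^ (m + 1) + Φ
        = (Φ * ∑ l ∈ Finset.range m, Φ ^ (l + 1) + Φ) + Φ * Φ ^ (m + 1) := by ring
      _ = (∑ l ∈ Finset.range m, Φ ^ (l + 1) + Φ ^ (m + 1)) + Φ * Φ ^ (m + 1) := by rw [ih]
      _ = _ := by ring

private lemma FEQ_T (S Y Φ : ℝ≥0∞) :
    ∑' l, tL S Y l * Φ ^ l = ∑' l, aL S Y l * Φ ^ l +
      S * ((∑' l, aL S Y l * Φ ^ l) * ∑' l, tL S Y l * Φ ^ l) := by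
  rw [← FEQ_cauchy (fun l => aL S Y l * Φ ^ l) (fun l => tL S Y l * Φ ^ l),
    ← ENNReal.tsum_mul_left, ← ENNReal.tsum_add]
  refine tsum_congr (fun l => ?_)
  rw [tL_eq, add_mul, mul_assoc, Finset.sum_mul]
  congr 2
  refine Finset.sum_congr rfl (fun p hp => ?_)
  rw [Finset.HasAntidiagonal.mem_antidiagonal] at hp
  rw [← hp, pow_add]
  ring

private lemma FEQ_A (S Y Φ : ℝ≥0∞) :
    ∑' l, aL S Y l * Φ ^ l =
      Y * Φ + Y * ∑' m, tL S Y m * ∑ l ∈ Finset.range m, Φ ^ (l + 1) := by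
  have h0 : aL S Y 0 = 0 := by
    have h1 := aL_le_tL S Y 0
    rw [tL_zero] at h1
    exact le_antisymm h1 zero_le
  rw [tsum_eq_zero_add' ENNReal.summable, h0, zero_mul, zero_add]
  have h1 : ∀ l : ℕ, aL S Y (l + 1) * Φ ^ (l + 1) =
      (if l = 0 then Y else 0) * Φ ^ (l + 1) +
        Y * ∑' m, (if l + 1 ≤ m then tL S Y m else 0) * Φ ^ (l + 1) := by
    intro l
    rw [aL_eq S Y (l + 1) (Nat.succ_pos l), add_mul, ENNReal.tsum_mul_right, mul_assoc]
    simp only [Nat.add_eq_right]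
  simp_rw [h1]
  rw [ENNReal.tsum_add, ENNReal.tsum_mul_left, ENNReal.tsum_comm]
  congr 1
  · rw [tsum_eq_single 0 (fun l hl => by rw [if_neg hl, zero_mul])]
    simp
  · congr 1
    refine tsum_congr (fun m => ?_)
    rw [tsum_eq_sum (s := Finset.range m)]
    · rw [Finset.mul_sum]
      refine Finset.sum_congr rfl (fun l hl => ?_)
      rw [Finset.mem_range] at hl
      rw [if_pos (by omega)]
    · intro l hl
      rw [Finset.mem_range] at hl
      rw [if_neg (by omega), zero_mul]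

private lemma FEQ_U (S Y Φ : ℝ≥0∞) :
    Φ * (∑' m, tL S Y m * ∑ l ∈ Finset.range m, Φ ^ (l + 1)) + Φ * Es S Y =
      ∑' m, tL S Y m * ∑ l ∈ Finset.range m, Φ ^ (l + 1) + Φ * ∑' l, tL S Y l * Φ ^ l := by
  rw [Es_eq_tsum, ← ENNReal.tsum_mul_left, ← ENNReal.tsum_mul_left, ← ENNReal.tsum_mul_left,
    ← ENNReal.tsum_add, ← ENNReal.tsum_add]
  refine tsum_congr (fun m => ?_)
  calc Φ * (tL S Y m * ∑ l ∈ Finset.range m, Φ ^ (l + 1)) + Φ * tL S Y m
      = tL S Y m * (Φ * ∑ l ∈ Finset.range m, Φ ^ (l + 1) + Φ) := by ring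
    _ = tL S Y m * (∑ l ∈ Finset.range m, Φ ^ (l + 1) + Φ ^ (m + 1)) := by rw [FEQ_geom]
    _ = _ := by ring

/-- Module FEQ.  `τ = α (1 + s τ)` (`tL_eq`, Cauchy product) and
`(f - 1) α = y f (f - 1) + y f (τ - E)` (`aL_eq`, `aL 0 = 0`, `∑_{l=1..m} f^l = (f^(m+1) - f)/(f-1)`,
also for `f = 1`).  Compare `Kernel_real` in `PGc/Kernel.lean`, which has the same computation
for `f ≤ 4` and small `y`. -/
theorem feq {s y E f : ℝ} (hs : 0 ≤ s) (hy : 0 ≤ y) (hf : 0 < f) (hE : 0 ≤ E)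
    (hEs : Es (ENNReal.ofReal s) (ENNReal.ofReal y) = ENNReal.ofReal E)
    (hfin : tauL s y f ≠ ⊤) :
    (s * (tauL s y f).toReal) * (f - 1) =
      y * f * (1 + s * (tauL s y f).toReal) ^ 2 +
      s * y * f ^ 2 * (1 + s * (tauL s y f).toReal) -
      y * f * (1 + s + s * E) * (1 + s * (tauL s y f).toReal) := by
  have hT := FEQ_T (ENNReal.ofReal s) (ENNReal.ofReal y) (ENNReal.ofReal f)
  have hA := FEQ_A (ENNReal.ofReal s) (ENNReal.ofReal y) (ENNReal.ofReal f)
  have hU := FEQ_U (ENNReal.ofReal s) (ENNReal.ofReal y) (ENNReal.ofReal f)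
  have hAT : ∑' l, aL (ENNReal.ofReal s) (ENNReal.ofReal y) l * ENNReal.ofReal f ^ l ≤
      tauL s y f := by
    refine ENNReal.tsum_le_tsum (fun l => ?_)
    have := aL_le_tL (ENNReal.ofReal s) (ENNReal.ofReal y) l
    gcongr
  rw [hEs] at hU
  change tauL s y f = _ + _ * (_ * tauL s y f) at hT
  change _ = _ + _ * tauL s y f at hU
  set T := tauL s y f with hTdef
  set A := ∑' l, aL (ENNReal.ofReal s) (ENNReal.ofReal y) l * ENNReal.ofReal f ^ l with hAdef
  set U := ∑' m, tL (ENNReal.ofReal s) (ENNReal.ofReal y) m *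
    ∑ l ∈ Finset.range m, ENNReal.ofReal f ^ (l + 1) with hUdef
  have hAfin : A ≠ ⊤ := ne_top_of_le_ne_top hfin hAT
  rcases hy.eq_or_lt with hy0 | hy0
  · subst hy0
    rw [ENNReal.ofReal_zero, zero_mul, zero_mul, zero_add] at hA
    rw [hA, zero_mul, mul_zero, zero_add] at hT
    rw [hT]
    simp
  · have hUfin : U ≠ ⊤ := by
      intro h
      apply hAfin
      rw [hA, h, ENNReal.mul_top (ENNReal.ofReal_pos.2 hy0).ne', add_top]
    obtain ⟨τ, hτ0, hτ⟩ : ∃ τ : ℝ, 0 ≤ τ ∧ T = ENNReal.ofReal τ :=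
      ⟨T.toReal, ENNReal.toReal_nonneg, (ENNReal.ofReal_toReal hfin).symm⟩
    obtain ⟨α, hα0, hα⟩ : ∃ α : ℝ, 0 ≤ α ∧ A = ENNReal.ofReal α :=
      ⟨A.toReal, ENNReal.toReal_nonneg, (ENNReal.ofReal_toReal hAfin).symm⟩
    obtain ⟨υ, hυ0, hυ⟩ : ∃ υ : ℝ, 0 ≤ υ ∧ U = ENNReal.ofReal υ :=
      ⟨U.toReal, ENNReal.toReal_nonneg, (ENNReal.ofReal_toReal hUfin).symm⟩
    rw [hτ, hα] at hT
    rw [hα, hυ] at hA
    rw [hυ, hτ] at hU
    rw [← ENNReal.ofReal_mul hα0, ← ENNReal.ofReal_mul hs, ← ENNReal.ofReal_add hα0 (by positivity),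
      ENNReal.ofReal_eq_ofReal_iff hτ0 (by positivity)] at hT
    rw [← ENNReal.ofReal_mul hy, ← ENNReal.ofReal_mul hy,
      ← ENNReal.ofReal_add (by positivity) (by positivity),
      ENNReal.ofReal_eq_ofReal_iff hα0 (by positivity)] at hA
    rw [← ENNReal.ofReal_mul hf.le, ← ENNReal.ofReal_mul hf.le, ← ENNReal.ofReal_mul hf.le,
      ← ENNReal.ofReal_add (by positivity) (by positivity),
      ← ENNReal.ofReal_add (by positivity) (by positivity),
      ENNReal.ofReal_eq_ofReal_iff (by positivity) (by positivity)] at hU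
    rw [hτ, ENNReal.toReal_ofReal hτ0]
    have h1 : (f - 1) * α = y * f * (f - 1) + y * f * (τ - E) := by
      have h2 : (f - 1) * υ = f * τ - f * E := by linarith
      calc (f - 1) * α = y * f * (f - 1) + y * ((f - 1) * υ) := by rw [hA]; ring
        _ = _ := by rw [h2]; ring
    have h3 : τ = α * (1 + s * τ) := by linarith
    have h4 : s * τ * (f - 1) = s * (1 + s * τ) * ((f - 1) * α) := by
      calc s * τ * (f - 1) = s * (α * (1 + s * τ)) * (f - 1) := by rw [← h3]
        _ = _ := by ring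
    rw [h4, h1]
    ring

end PGa

end

section
/-! # Module POS -/

namespace PGa
open PGr
open scoped ENNReal

variable {q c : ℝ}

/-- a quadratic `A X^2 - B X - C = 0` with `A, C > 0` has only one positive root -/
theorem Pos_unique {A B C X Z : ℝ} (hA : 0 < A) (hC : 0 < C) (hX : 0 < X) (hZ : 0 < Z)
    (h1 : A * X ^ 2 - B * X - C = 0) (h2 : A * Z ^ 2 - B * Z - C = 0) : X = Z := by
  have h3 : (X - Z) * (A * X * Z + C) = 0 := by
    have e1 : Z * (A * X ^ 2 - B * X - C) - X * (A * Z ^ 2 - B * Z - C) =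
        (X - Z) * (A * X * Z + C) := by ring
    rw [← e1, h1, h2]; ring
  have h4 : 0 < A * X * Z + C := by positivity
  rcases mul_eq_zero.1 h3 with h5 | h5
  · linarith
  · exact absurd h5 h4.ne'

/-- Module POS.  `f = Xf w` is in `(0, 1)`, so `tauL f ≤ tauL 1 = Es < ⊤`.  `X = 1 + s τ(f)` is a
positive root of `y f X^2 - (m f - 1 - s y f^2) X + (f - 1) = 0` (`feq`, `mm_eq`), whose product of
roots `(f - 1)/(y f)` is negative, so there is only one positive root; `Zf (q w)` is one too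
(`cubic'`, `one_lt_Zf`). -/
theorem tau_small (hq : 0 < q) (hqc : q < c) (hc : c < 1)
    (hEs : Es (ENNReal.ofReal (ss q c)) (ENNReal.ofReal (yy q c)) = ENNReal.ofReal (EE q c))
    {w : ℝ} (h1 : q < w) (h2 : w < c) :
    tauL (ss q c) (yy q c) (Xf q c w) = ENNReal.ofReal ((Zf q c (q * w) - 1) / ss q c) := by
  have hs := ss_pos hq hqc hc
  have hy := yy_pos hq hqc hc
  have hw0 : 0 ≤ w := by linarith
  have hf0 := Xf_pos hq hqc hc hw0 h2
  have hf1 := Xf_lt_one hq hqc hc h1 h2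
  have hZ := one_lt_Zf hq hqc hc hw0 h2
  have hfin : tauL (ss q c) (yy q c) (Xf q c w) ≠ ⊤ := by
    have h3 : tauL (ss q c) (yy q c) (Xf q c w) ≤ tauL (ss q c) (yy q c) 1 := tauL_mono hf1.le
    rw [tauL_one, hEs] at h3
    exact ne_top_of_le_ne_top ENNReal.ofReal_ne_top h3
  have hE : 0 ≤ EE q c := by
    have hv := one_sub_vv_pos hq hqc hc
    have hu := uu_pos hq hqc hc
    have hv' := vv_pos hq hqc hc
    have h3 := EE_eq hq hqc hc
    have hc0 : 0 < c := by linarith
    have h4 : 0 ≤ q * c := by positivity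
    have h5 : q * c < q := by nlinarith
    have h6 := one_lt_Xf hq hqc hc h4 h5
    linarith
  have hfeq := feq hs.le hy.le hf0 hE hEs hfin
  set τ := (tauL (ss q c) (yy q c) (Xf q c w)).toReal with hτ
  have hτ0 : 0 ≤ τ := ENNReal.toReal_nonneg
  have hcub := cubic' (q := q) (c := c) (w := w) hq hqc hc (by nlinarith) (by linarith)
    (by nlinarith)
  have hm := mm_eq hq hqc hc
  have key : 1 + ss q c * τ = Zf q c (q * w) := by
    refine Pos_unique (A := yy q c * Xf q c w)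
      (B := mm q c * Xf q c w - 1 - ss q c * yy q c * Xf q c w ^ 2)
      (C := 1 - Xf q c w) (by positivity) (by linarith) (by positivity) (by linarith) ?_ ?_
    · rw [hm]
      linear_combination -hfeq
    · linear_combination -hcub
  rw [← ENNReal.ofReal_toReal hfin]
  congr 1
  rw [eq_div_iff hs.ne']
  show τ * ss q c = _
  linarith

end PGa

end

section
/-! # Module EXT3: the closed form for nets with the side length marked -/

namespace PGa
open PGr
open scoped ENNReal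

variable {q c : ℝ}

theorem EXT3_lt (hq : 0 < q) (hqc : q < c) (hc : c < 1) {w : ℝ} (h1 : 0 < w) (h2 : w < c) :
    Xf q c w < 1 / (1 - vv q c) := by
  have hcont : ContinuousOn (Xf q c) (Set.Icc 0 w) := fun x hx =>
    (hasDerivAt_Xf hq hqc hc hx.1 (by linarith [hx.2])).continuousAt.continuousWithinAt
  have hanti : StrictAntiOn (Xf q c) (Set.Icc 0 w) := by
    refine strictAntiOn_of_hasDerivWithinAt_neg (f' := dX q c) (convex_Icc 0 w) hcont
      (fun x hx => ?_) (fun x hx => ?_)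
    · rw [interior_Icc] at hx
      exact (hasDerivAt_Xf hq hqc hc hx.1.le (by linarith [hx.2])).hasDerivWithinAt
    · rw [interior_Icc] at hx
      exact dX_neg hq hqc hc hx.1.le (by linarith [hx.2])
  have h := hanti ⟨le_rfl, h1.le⟩ ⟨h1.le, le_rfl⟩ h1
  rwa [Xf_zero hq hqc hc] at h

/-- Module EXT3.  `pringsheim` with `b = 1/(1-v)`, `ε = 1`, `g f = (bigX f - 1) / s`, `exists_Xf`,
`tau_small`. -/
theorem tau_all (hq : 0 < q) (hqc : q < c) (hc : c < 1)
    (hEs : Es (ENNReal.ofReal (ss q c)) (ENNReal.ofReal (yy q c)) = ENNReal.ofReal (EE q c))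
    {w : ℝ} (h1 : 0 < w) (h2 : w < c) :
    tauL (ss q c) (yy q c) (Xf q c w) = ENNReal.ofReal ((Zf q c (q * w) - 1) / ss q c) := by
  have hs := ss_pos hq hqc hc
  have hv1 := one_sub_vv_pos hq hqc hc
  have hv0 := vv_pos hq hqc hc
  have hb : (1 : ℝ) ≤ 1 / (1 - vv q c) := by
    rw [le_div_iff₀ hv1]
    linarith
  have key := pringsheim (fun l => tL (ENNReal.ofReal (ss q c)) (ENNReal.ofReal (yy q c)) l)
    (1 / (1 - vv q c)) 1 one_pos hb (fun f => (bigX q c f - 1) / ss q c) (by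
      intro f hf
      exact ((bigX_analytic hq hqc hc hf.1 hf.2).sub analyticAt_const).div_const) (by
      intro f hf0 hf1
      obtain ⟨w', hw0, hwc, hw⟩ := exists_Xf hq hqc hc hf0 (lt_of_lt_of_le hf1 hb)
      have hqw : q < w' := by
        by_contra hle
        push Not at hle
        rcases hle.lt_or_eq with h | h
        · have := one_lt_Xf hq hqc hc hw0.le h
          rw [hw] at this
          linarith
        · rw [h, Xf_q hq hqc hc] at hw
          linarith
      have hbig := (bigX_eq hq hqc hc hw0 hwc).1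
      rw [hw] at hbig
      have hZ := one_lt_Zf hq hqc hc hw0.le hwc
      simp only [hbig]
      refine ⟨div_nonneg (by linarith) hs.le, ?_⟩
      have h := tau_small hq hqc hc hEs hqw hwc
      rw [hw] at h
      exact h)
  have h := (key (Xf q c w) (Xf_pos hq hqc hc h1.le h2) (EXT3_lt hq hqc hc h1 h2)).2
  have hbig := (bigX_eq hq hqc hc h1 h2).1
  simp only [hbig] at h
  exact h

end PGa

end

section
/-! # Module DUA -/

namespace PGa
open PGr
open scoped ENNReal

/-- Module DUA.  `tau_all` for the parameters `q`, `q / c` (`dual_ss`, `dual_yy`, `dual_EE`,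
`dual_X`, `dual_Z`, `Es_dual`) at `w / c`. -/
theorem tau_dual {q c : ℝ} (hq : 0 < q) (hqc : q < c) (hc : c < 1)
    (hEs : Es (ENNReal.ofReal (ss q c)) (ENNReal.ofReal (yy q c)) = ENNReal.ofReal (EE q c))
    {w : ℝ} (h1 : 0 < w) (h2 : w < q) :
    tauL (1 / ss q c) (ss q c * yy q c) (Zf q c w) =
      ENNReal.ofReal (ss q c * (Xf q c w - 1)) := by
  have hc0 : 0 < c := hq.trans hqc
  have hs := ss_pos hq hqc hc
  have hd1 : q < q / c := by
    rw [lt_div_iff₀ hc0]
    nlinarith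
  have hd2 : q / c < 1 := by
    rw [div_lt_one hc0]
    exact hqc
  have hw : c * (w / c) = w := by field_simp
  have hEs' : Es (ENNReal.ofReal (ss q (q / c))) (ENNReal.ofReal (yy q (q / c))) =
      ENNReal.ofReal (EE q (q / c)) := by
    rw [dual_ss hq hqc hc, dual_yy hq hqc hc, dual_EE hq hqc hc, one_div,
      ENNReal.ofReal_inv_of_pos hs, ENNReal.ofReal_mul hs.le, ENNReal.ofReal_mul hs.le,
      Es_dual (by simpa using hs) ENNReal.ofReal_ne_top, hEs]
  have h := tau_all hq hd1 hd2 hEs' (w := w / c) (div_pos h1 hc0)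
    (div_lt_div_of_pos_right h2 hc0)
  rw [dual_Z hq hqc hc, dual_X hq hqc hc, dual_ss hq hqc hc, dual_yy hq hqc hc, hw] at h
  rw [h]
  congr 1
  rw [div_div_eq_mul_div, div_one, mul_comm]

end PGa

end

section
/-! # Module ESF1 -/

namespace PGa
open PGr
open scoped ENNReal

/-- Module ESF1.  `Es S Y` is a power series in `Y`. -/
theorem Es_series (S Y : ℝ≥0∞) : Es S Y =
    ∑' n : ℕ, (∑' c : GC, if Fintype.card c.rep.1.D / 2 = n then
      S ^ (nV c.rep.1.s - 2) else 0) * Y ^ n := by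
  have h1 : ∀ n : ℕ, (∑' c : GC, if Fintype.card c.rep.1.D / 2 = n then
      S ^ (nV c.rep.1.s - 2) else 0) * Y ^ n =
      ∑' c : GC, (if Fintype.card c.rep.1.D / 2 = n then
        S ^ (nV c.rep.1.s - 2) * Y ^ n else 0) := by
    intro n
    rw [← ENNReal.tsum_mul_right]
    refine tsum_congr fun c => ?_
    split_ifs with h
    · rfl
    · exact zero_mul _
  rw [tsum_congr h1, ENNReal.tsum_comm]
  unfold Es Esel
  refine tsum_congr fun c => ?_
  rw [tsum_eq_single (Fintype.card c.rep.1.D / 2) (fun n hn => if_neg (fun h => hn h.symm))]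
  simp [W]

end PGa

end

section
/-! # Module ESF2 -/

namespace PGa
open PGr
open scoped ENNReal

/-- every `y` in `(0, Yf t)` is a value of `Yf` -/
theorem Esf2_exists_Yf {t y : ℝ} (h0 : 0 < t) (h1 : t < 1) (hy : 0 < y)
    (hy' : y < Yf (scr t) t) : ∃ v, 0 < v ∧ v < t ∧ Yf (scr t) v = y := by
  have hs := scr_pos h0 h1
  have hc : ContinuousOn (Yf (scr t)) (Set.Icc 0 t) :=
    (Yf_continuousOn hs).mono fun v hv => ⟨hv.1, hv.2.trans_lt h1⟩
  have hiv := intermediate_value_Icc h0.le hc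
  rw [Yf_zero] at hiv
  obtain ⟨v, hv, hvE⟩ := hiv ⟨hy.le, hy'.le⟩
  refine ⟨v, lt_of_le_of_ne hv.1 ?_, lt_of_le_of_ne hv.2 ?_, hvE⟩
  · intro h
    rw [← h, Yf_zero] at hvE
    linarith
  · intro h
    rw [h] at hvE
    linarith

/-- Module ESF2.  Analytic inverse of `Yf (scr t)` on `(0, t)`; copy of `exists_inverse`
(`PGc/Curve.lean`) with `Yf` (`Yf_hasDerivAt`, `qf_pos`, `Yf_strictMonoOn`, `Yf_analyticAt`,
`Yf_continuousOn`). -/
theorem exists_inverse_Y {t : ℝ} (h0 : 0 < t) (h1 : t < 1) :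
    ∃ V : ℝ → ℝ, (∀ y ∈ Set.Ioo 0 (Yf (scr t) t), AnalyticAt ℝ V y ∧ 0 < V y ∧ V y < t ∧
      Yf (scr t) (V y) = y) ∧ ∀ v ∈ Set.Ioo 0 t, V (Yf (scr t) v) = v := by
  classical
  have hs := scr_pos h0 h1
  have hmono := Yf_strictMonoOn h0 h1
  let V : ℝ → ℝ := fun y => if h : 0 < y ∧ y < Yf (scr t) t then
    (Esf2_exists_Yf h0 h1 h.1 h.2).choose else 0
  have hV : ∀ y, (h : 0 < y ∧ y < Yf (scr t) t) → 0 < V y ∧ V y < t ∧ Yf (scr t) (V y) = y := by
    intro y h
    have h2 : V y = (Esf2_exists_Yf h0 h1 h.1 h.2).choose := dif_pos h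
    rw [h2]
    exact (Esf2_exists_Yf h0 h1 h.1 h.2).choose_spec
  have hYf : ∀ v ∈ Set.Ioo 0 t, 0 < Yf (scr t) v ∧ Yf (scr t) v < Yf (scr t) t := by
    intro v hv
    have h2 := hmono ⟨le_rfl, h0.le⟩ ⟨hv.1.le, hv.2.le⟩ hv.1
    have h3 := hmono ⟨hv.1.le, hv.2.le⟩ ⟨h0.le, le_rfl⟩ hv.2
    rw [Yf_zero] at h2
    exact ⟨h2, h3⟩
  have hVY : ∀ v ∈ Set.Ioo 0 t, V (Yf (scr t) v) = v := by
    intro v hv
    obtain ⟨a, b, c⟩ := hV _ (hYf v hv)
    exact hmono.injOn ⟨a.le, b.le⟩ ⟨hv.1.le, hv.2.le⟩ c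
  refine ⟨V, fun y hy => ?_, hVY⟩
  obtain ⟨a, b, c⟩ := hV y ⟨hy.1, hy.2⟩
  refine ⟨?_, a, b, c⟩
  -- the local inverse
  set v0 := V y with hv0
  have hv1 : v0 < 1 := b.trans h1
  have hder := Yf_hasDerivAt hs a hv1
  set D := (1 - uf (scr t) v0) ^ 2 * qf (scr t) v0 / ((1 + uf (scr t) v0) * (1 - v0)) with hD
  have hDpos : 0 < D := by
    have h2 := qf_pos a b h1
    have h3 := uf_pos hs a hv1
    have h4 : 0 < 1 - v0 := by linarith
    have h5 := uf_lt_one hs a hv1
    have h6 : 0 < 1 - uf (scr t) v0 := by linarith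
    rw [hD]
    positivity
  have hcd : ContDiffAt ℝ (⊤ : WithTop ℕ∞) (Yf (scr t)) v0 := (Yf_analyticAt hs a hv1).contDiffAt
  let f' : ℝ ≃L[ℝ] ℝ := ContinuousLinearEquiv.unitsEquivAut ℝ (Units.mk0 D hDpos.ne')
  have hf' : HasFDerivAt (Yf (scr t)) (f' : ℝ →L[ℝ] ℝ) v0 := by
    have h2 := hder.hasFDerivAt
    have h3 : (f' : ℝ →L[ℝ] ℝ) = ContinuousLinearMap.toSpanSingleton ℝ D := by
      ext
      simp [f']
    rw [h3]
    exact h2
  have hn : (⊤ : WithTop ℕ∞) ≠ 0 := by simp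
  have hli := hcd.to_localInverse hf' hn
  rw [c] at hli
  have hev : V =ᶠ[nhds y] hcd.localInverse hf' hn := by
    have h2 : hcd.localInverse hf' hn y = v0 := by
      have := hcd.localInverse_apply_image hf' hn
      rwa [c] at this
    have h3 : ContinuousAt (hcd.localInverse hf' hn) y := hli.continuousAt
    have h4 : ∀ᶠ z in nhds y, hcd.localInverse hf' hn z ∈ Set.Ioo 0 t := by
      apply h3.eventually
      rw [h2]
      exact Ioo_mem_nhds a b
    have h5 : ∀ᶠ z in nhds y, Yf (scr t) (hcd.localInverse hf' hn z) = z := by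
      have := (hcd.hasStrictFDerivAt' hf' hn).eventually_right_inverse
      rw [c] at this
      exact this
    filter_upwards [h4, h5] with z hz1 hz2
    have h6 := hVY _ hz1
    rw [hz2] at h6
    exact h6
  exact (hli.congr_of_eventuallyEq hev).analyticAt

end PGa

end

section
/-! # Module ESF3 -/

namespace PGa
open PGr
open scoped ENNReal

/-- Module ESF3.  `Es_series`, `Es_eq` (small `y`), `pringsheim` in `y` with
`g y = Ef (scr t) (V y)`. -/
theorem Es_full {t v : ℝ} (h0 : 0 < t) (h1 : t < 1) (hs : scr t ≤ 1 / 10) (hv : 0 < v)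
    (hv' : v < t) :
    Es (ENNReal.ofReal (scr t)) (ENNReal.ofReal (Yf (scr t) v)) =
      ENNReal.ofReal (Ef (scr t) v) := by
  have hs0 := scr_pos h0 h1
  have ht := half_lt h0 h1 hs
  obtain ⟨V, hV, hV'⟩ := exists_inverse_Y h0 h1
  have hmono := Ef_strictMonoOn h0 h1
  have hYmono := Yf_strictMonoOn h0 h1
  -- a small parameter
  obtain ⟨δ, hδ0, hδ1, hδ⟩ : ∃ δ : ℝ, 0 < δ ∧ δ < 1 / 2 ∧ Yf (scr t) δ ≤ 1 / 4000 := by
    have hc : ContinuousWithinAt (Yf (scr t)) (Set.Ico 0 1) 0 :=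
      Yf_continuousOn hs0 0 (Set.left_mem_Ico.2 one_pos)
    have h2 : ∀ᶠ x in nhdsWithin (0 : ℝ) (Set.Ico 0 1), Yf (scr t) x < 1 / 4000 := by
      have := hc.eventually_lt (g := fun _ => (1 / 4000 : ℝ)) continuousWithinAt_const
        (by rw [Yf_zero]; norm_num)
      exact this
    have h3 : ∀ᶠ x in nhdsWithin (0 : ℝ) (Set.Ioi 0),
        Yf (scr t) x < 1 / 4000 ∧ x < 1 / 2 ∧ 0 < x := by
      have h4 : ∀ᶠ x in nhdsWithin (0 : ℝ) (Set.Ioi 0), x < 1 / 2 := by
        have : ∀ᶠ x in nhds (0 : ℝ), x < 1 / 2 := gt_mem_nhds (by norm_num)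
        exact this.filter_mono nhdsWithin_le_nhds
      have h5 : ∀ᶠ x in nhdsWithin (0 : ℝ) (Set.Ioi 0), 0 < x := eventually_mem_nhdsWithin
      have h6 : ∀ᶠ x in nhdsWithin (0 : ℝ) (Set.Ioi 0), Yf (scr t) x < 1 / 4000 := by
        have h7 : nhdsWithin (0 : ℝ) (Set.Ioo 0 1) ≤ nhdsWithin (0 : ℝ) (Set.Ico 0 1) :=
          nhdsWithin_mono _ Set.Ioo_subset_Ico_self
        have h8 := h2.filter_mono h7
        rwa [nhdsWithin_Ioo_eq_nhdsGT one_pos] at h8
      filter_upwards [h4, h5, h6] with x a b c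
      exact ⟨c, a, b⟩
    obtain ⟨δ, h⟩ := h3.exists
    exact ⟨δ, h.2.2, h.2.1, h.1.le⟩
  have hε0 : 0 < Yf (scr t) δ := by
    have := hYmono (Set.left_mem_Icc.2 h0.le) ⟨hδ0.le, by linarith⟩ hδ0
    rwa [Yf_zero] at this
  have hεb : Yf (scr t) δ ≤ Yf (scr t) t :=
    hYmono.monotoneOn ⟨hδ0.le, by linarith⟩ (Set.right_mem_Icc.2 h0.le) (by linarith)
  have key := pringsheim (fun n : ℕ => ∑' c : GC, if Fintype.card c.rep.1.D / 2 = n then
      (ENNReal.ofReal (scr t)) ^ (nV c.rep.1.s - 2) else 0) (Yf (scr t) t) (Yf (scr t) δ) hε0 hεb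
    (fun y => Ef (scr t) (V y)) ?_ ?_
  · have hx0 : 0 < Yf (scr t) v := by
      have := hYmono (Set.left_mem_Icc.2 h0.le) ⟨hv.le, hv'.le⟩ hv
      rwa [Yf_zero] at this
    have hxb : Yf (scr t) v < Yf (scr t) t :=
      hYmono ⟨hv.le, hv'.le⟩ (Set.right_mem_Icc.2 h0.le) hv'
    have h := (key _ hx0 hxb).2
    rw [hV' v ⟨hv, hv'⟩] at h
    rw [Es_series]
    exact h
  · intro y hy
    obtain ⟨a, b, c, d⟩ := hV y hy
    exact AnalyticAt.comp (g := Ef (scr t)) (Ef_analyticAt hs0 b (c.trans h1)) a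
  · intro y hy0 hyδ
    have hyt : y < Yf (scr t) t := hyδ.trans_le hεb
    obtain ⟨a, b, c, d⟩ := hV y ⟨hy0, hyt⟩
    have hVδ : V y < δ := by
      by_contra hcon
      have := hYmono.monotoneOn ⟨hδ0.le, by linarith⟩ ⟨b.le, c.le⟩ (not_lt.1 hcon)
      rw [d] at this
      linarith
    have hE0 : 0 < Ef (scr t) (V y) := by
      have := hmono (Set.left_mem_Icc.2 h0.le) ⟨b.le, c.le⟩ b
      rwa [Ef_zero] at this
    refine ⟨hE0.le, ?_⟩
    rw [← Es_series]
    have h := Es_eq h0 h1 hs b (by linarith) (by rw [d]; linarith)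
    rw [d] at h
    exact h

end PGa

end

section
/-! # Module INS -/

namespace PGa
open PGr
open scoped ENNReal

/-- The parameters `q`, `c` of the point `(uf s v, v)`, `s = scr t`, `v < t`. -/
theorem exists_point_v {t v : ℝ} (h0 : 0 < t) (h1 : t < 1) (hs : scr t ≤ 1 / 10) (hv0 : 0 < v)
    (hvt : v < t) :
    ∃ q c : ℝ, 0 < q ∧ q < c ∧ c < 1 ∧ uu q c = uf (scr t) v ∧ vv q c = v ∧ ss q c = scr t ∧
      EE q c = Ef (scr t) v ∧ yy q c = Yf (scr t) v ∧
      Es (ENNReal.ofReal (ss q c)) (ENNReal.ofReal (yy q c)) = ENNReal.ofReal (EE q c) := by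
  have hsp := scr_pos h0 h1
  have hv1 : v < 1 := hvt.trans h1
  have hu0 := uf_pos hsp hv0 hv1
  have hu1 := uf_lt_one hsp hv0 hv1
  have hueq := uf_eq hsp hv0 hv1
  have hqf := qf_pos hv0 hvt h1
  unfold qf at hqf
  obtain ⟨q, c, hq, hqc, hc, hu, hv⟩ := exists_qc hu0 hv0 hu1 hv1 (by nlinarith)
  have e1 : ss q c = scr t := by
    have h3 : 0 < 1 - uf (scr t) v := by linarith
    unfold ss
    rw [hu, hv, hueq]
    field_simp
  have e2 : EE q c = Ef (scr t) v := by
    unfold EE Ef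
    rw [hu, hv]
  have e3 : yy q c = Yf (scr t) v := by
    unfold yy Yf
    rw [hu, hv]
  refine ⟨q, c, hq, hqc, hc, hu, hv, e1, e2, e3, ?_⟩
  rw [e1, e2, e3, Es_full h0 h1 hs hv0 hvt]

/-- Module INS.  `exists_Ef` gives `v < t` with `Ef s v = E`, `u = uf s v` (`uf_eq`, `uf_pos`,
`uf_lt_one`), `qf_pos` is `4 u v < (1 - u)(1 - v)`, `exists_qc`; `Es_full`. -/
theorem exists_point {t E : ℝ} (h0 : 0 < t) (h1 : t < 1) (hs : scr t ≤ 1 / 10) (hE : 0 < E)
    (hE' : E < ecr t) :
    ∃ q c : ℝ, 0 < q ∧ q < c ∧ c < 1 ∧ ss q c = scr t ∧ EE q c = E ∧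
      Es (ENNReal.ofReal (ss q c)) (ENNReal.ofReal (yy q c)) = ENNReal.ofReal (EE q c) := by
  obtain ⟨v, hv0, hvt, hvE⟩ := exists_Ef h0 h1 hE hE'
  obtain ⟨q, c, hq, hqc, hc, -, -, e1, e2, -, e4⟩ := exists_point_v h0 h1 hs hv0 hvt
  exact ⟨q, c, hq, hqc, hc, e1, e2.trans hvE, e4⟩

end PGa

end

section
/-! # Module INT1 -/

namespace PGa
open scoped ENNReal

/-- the coefficients of the primitive -/
private noncomputable def INT1_c (R : ℕ → ℝ≥0∞) (n : ℕ) : ℝ≥0∞ :=
  Nat.casesOn n 0 (fun δ => R δ / ((δ : ℝ≥0∞) + 1))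

private lemma INT1_c_succ (R : ℕ → ℝ≥0∞) (δ : ℕ) :
    INT1_c R (δ + 1) = R δ / ((δ : ℝ≥0∞) + 1) := rfl

private lemma INT1_sum (R : ℕ → ℝ≥0∞) (z : ℝ≥0∞) :
    ∑' n, INT1_c R n * z ^ n = ∑' δ : ℕ, R δ * z ^ (δ + 1) / ((δ : ℝ≥0∞) + 1) := by
  rw [tsum_eq_zero_add' ENNReal.summable]
  have h0 : INT1_c R 0 = 0 := rfl
  rw [h0, zero_mul, zero_add]
  refine tsum_congr (fun δ => ?_)
  rw [INT1_c_succ, div_eq_mul_inv, div_eq_mul_inv]
  ring

private lemma INT1_dsum (R : ℕ → ℝ≥0∞) (z : ℝ≥0∞) :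
    ∑' n : ℕ, (n : ℝ≥0∞) * (INT1_c R n * z ^ (n - 1)) = ∑' δ : ℕ, R δ * z ^ δ := by
  rw [tsum_eq_zero_add' ENNReal.summable]
  rw [Nat.cast_zero, zero_mul, zero_add]
  refine tsum_congr (fun δ => ?_)
  rw [INT1_c_succ, Nat.add_sub_cancel, ← mul_assoc]
  congr 1
  push_cast
  exact ENNReal.mul_div_cancel (by simp) (by simp)

private lemma INT1_le (R : ℕ → ℝ≥0∞) (z : ℝ≥0∞) :
    ∑' δ : ℕ, R δ * z ^ (δ + 1) / ((δ : ℝ≥0∞) + 1) ≤ (∑' δ : ℕ, R δ * z ^ δ) * z := by
  rw [← ENNReal.tsum_mul_right]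
  refine ENNReal.tsum_le_tsum (fun δ => ?_)
  refine ENNReal.div_le_of_le_mul ?_
  rw [pow_succ, ← mul_assoc]
  exact le_mul_of_one_le_right zero_le (by simp)

/-- Module INT1.  `F z = ∑ R δ z^(δ+1)/(δ+1)` is differentiable on `(0, b)` with derivative
`∑ R δ z^δ` (`nonneg_series_deriv` in `PGc/Pring.lean` or directly), so `F (x w) - P w` is constant
on `(w1, w2)`, `= - P w2` (limit `w → w2`, `F 0 = 0`); then `w → w1`: monotone convergence of the
series (`F b = sup`). -/
theorem int_series (R : ℕ → ℝ≥0∞) (x dx P dP : ℝ → ℝ) {w1 w2 b : ℝ} (h12 : w1 < w2)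
    (hxc : ContinuousOn x (Set.Icc w1 w2)) (hPc : ContinuousOn P (Set.Icc w1 w2))
    (hx : ∀ w, w1 < w → w < w2 → HasDerivAt x (dx w) w)
    (hP : ∀ w, w1 < w → w < w2 → HasDerivAt P (dP w) w)
    (hdx : ∀ w, w1 < w → w < w2 → dx w < 0) (hx1 : x w1 = b) (hx2 : x w2 = 0)
    (hdP : ∀ w, w1 < w → w < w2 → dP w ≤ 0)
    (hR : ∀ w, w1 < w → w < w2 → ∑' δ, R δ * ENNReal.ofReal (x w) ^ δ =
      ENNReal.ofReal (dP w / dx w)) :
    ∑' δ : ℕ, R δ * ENNReal.ofReal b ^ (δ + 1) / ((δ : ℝ≥0∞) + 1) =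
      ENNReal.ofReal (P w1 - P w2) := by
  have hanti : StrictAntiOn x (Set.Icc w1 w2) := by
    refine strictAntiOn_of_deriv_neg (convex_Icc _ _) hxc (fun w hw => ?_)
    rw [interior_Icc] at hw
    rw [(hx w hw.1 hw.2).deriv]
    exact hdx w hw.1 hw.2
  have hpos : ∀ w, w1 < w → w < w2 → 0 < x w := fun w h1 h2 => by
    rw [← hx2]; exact hanti ⟨h1.le, h2.le⟩ ⟨h12.le, le_rfl⟩ h2
  have hltb : ∀ w, w1 < w → w < w2 → x w < b := fun w h1 h2 => by
    rw [← hx1]; exact hanti ⟨le_rfl, h12.le⟩ ⟨h1.le, h2.le⟩ h1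
  have hb : 0 < b := by
    rw [← hx1, ← hx2]; exact hanti ⟨le_rfl, h12.le⟩ ⟨h12.le, le_rfl⟩ h12
  -- the series of the primitive
  have hfin : ∀ w, w1 < w → w < w2 →
      ∑' n, INT1_c R n * ENNReal.ofReal (x w) ^ n ≠ ⊤ := by
    intro w h1 h2
    rw [INT1_sum]
    refine ne_top_of_le_ne_top ?_ (INT1_le R _)
    rw [hR w h1 h2]
    exact ENNReal.mul_ne_top ENNReal.ofReal_ne_top ENNReal.ofReal_ne_top
  set F : ℝ → ℝ := fun z => (∑' n, INT1_c R n * ENNReal.ofReal z ^ n).toReal with hF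
  have hFd : ∀ w, w1 < w → w < w2 → HasDerivAt F (dP w / dx w) (x w) := by
    intro w h1 h2
    have h3 : w1 < (w1 + w) / 2 := by linarith
    have h4 : (w1 + w) / 2 < w := by linarith
    have h5 := PGr.nonneg_series_deriv (INT1_c R) (hpos _ h3 (h4.trans h2))
      (hfin _ h3 (h4.trans h2)) (hpos w h1 h2)
      (hanti ⟨h3.le, (h4.trans h2).le⟩ ⟨h1.le, h2.le⟩ h4)
    have h6 := h5.2
    rw [INT1_dsum, hR w h1 h2, ENNReal.toReal_ofReal] at h6
    · exact h6
    · exact div_nonneg_of_nonpos (hdP w h1 h2) (hdx w h1 h2).le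
  have hG : ∀ w ∈ Set.Ioo w1 w2, HasDerivAt (fun w => F (x w) - P w) 0 w := by
    intro w hw
    have h1 := ((hFd w hw.1 hw.2).comp w (hx w hw.1 hw.2)).sub (hP w hw.1 hw.2)
    rw [div_mul_cancel₀ _ (hdx w hw.1 hw.2).ne, sub_self] at h1
    exact h1
  have hconst : ∀ a ∈ Set.Ioo w1 w2, ∀ c ∈ Set.Ioo w1 w2,
      F (x a) - P a = F (x c) - P c := by
    intro a ha c hc
    refine IsOpen.is_const_of_deriv_eq_zero isOpen_Ioo isPreconnected_Ioo (𝕜 := ℝ)
      (f := fun w => F (x w) - P w) ?_ ?_ ha hc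
    · intro w hw
      exact (hG w hw).differentiableAt.differentiableWithinAt
    · intro w hw
      exact (hG w hw).deriv
  -- limit at the right end
  have hmem : ∀ᶠ w in nhdsWithin w2 (Set.Iio w2), w ∈ Set.Ioo w1 w2 :=
    Ioo_mem_nhdsLT h12
  have hxl2 : Filter.Tendsto x (nhdsWithin w2 (Set.Iio w2)) (nhds 0) := by
    have h1 := (hxc w2 ⟨h12.le, le_rfl⟩)
    rw [ContinuousWithinAt, hx2] at h1
    refine h1.mono_left ?_
    rw [nhdsWithin_le_iff]
    filter_upwards [hmem] with w hw using ⟨hw.1.le, hw.2.le⟩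
  have hPl2 : Filter.Tendsto P (nhdsWithin w2 (Set.Iio w2)) (nhds (P w2)) := by
    have h1 := (hPc w2 ⟨h12.le, le_rfl⟩)
    refine h1.mono_left ?_
    rw [nhdsWithin_le_iff]
    filter_upwards [hmem] with w hw using ⟨hw.1.le, hw.2.le⟩
  set w0 : ℝ := (w1 + w2) / 2 with hw0
  have hw01 : w1 < w0 := by rw [hw0]; linarith
  have hw02 : w0 < w2 := by rw [hw0]; linarith
  have hFl2 : Filter.Tendsto (fun w => F (x w)) (nhdsWithin w2 (Set.Iio w2)) (nhds 0) := by
    have h1 : Filter.Tendsto (fun w => (dP w0 / dx w0) * x w) (nhdsWithin w2 (Set.Iio w2))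
        (nhds 0) := by
      have := hxl2.const_mul (dP w0 / dx w0)
      rwa [mul_zero] at this
    refine squeeze_zero' (Filter.Eventually.of_forall fun w => ENNReal.toReal_nonneg) ?_ h1
    filter_upwards [hmem, (Ioo_mem_nhdsLT hw02 : Set.Ioo w0 w2 ∈ _)] with w hw hw'
    have h2 : ∑' n, INT1_c R n * ENNReal.ofReal (x w) ^ n ≤
        ENNReal.ofReal (dP w0 / dx w0) * ENNReal.ofReal (x w) := by
      rw [INT1_sum, ← hR w0 hw01 hw02]
      refine (INT1_le R _).trans (mul_le_mul_left (ENNReal.tsum_le_tsum (fun δ => ?_)) _)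
      have h3 : x w ≤ x w0 := (hanti ⟨hw01.le, hw02.le⟩ ⟨hw.1.le, hw.2.le⟩ hw'.1).le
      gcongr
    have h3 : 0 ≤ dP w0 / dx w0 :=
      div_nonneg_of_nonpos (hdP _ hw01 hw02) (hdx _ hw01 hw02).le
    rw [← ENNReal.ofReal_mul h3] at h2
    have h4 := ENNReal.toReal_mono ENNReal.ofReal_ne_top h2
    rwa [ENNReal.toReal_ofReal (mul_nonneg h3 (hpos w hw.1 hw.2).le)] at h4
  have hval : ∀ w ∈ Set.Ioo w1 w2, F (x w) = P w - P w2 := by
    intro w hw
    have h1 : Filter.Tendsto (fun v => F (x v) - P v) (nhdsWithin w2 (Set.Iio w2))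
        (nhds (0 - P w2)) := hFl2.sub hPl2
    have h2 : Filter.Tendsto (fun v => F (x v) - P v) (nhdsWithin w2 (Set.Iio w2))
        (nhds (F (x w) - P w)) := by
      refine (tendsto_const_nhds).congr' ?_
      filter_upwards [hmem] with v hv using hconst w hw v hv
    have h3 := tendsto_nhds_unique h1 h2
    linarith
  have hvalE : ∀ w ∈ Set.Ioo w1 w2, ∑' n, INT1_c R n * ENNReal.ofReal (x w) ^ n =
      ENNReal.ofReal (P w - P w2) := by
    intro w hw
    rw [← hval w hw, hF]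
    exact (ENNReal.ofReal_toReal (hfin w hw.1 hw.2)).symm
  -- limit at the left end
  have hmem1 : ∀ᶠ w in nhdsWithin w1 (Set.Ioi w1), w ∈ Set.Ioo w1 w2 :=
    Ioo_mem_nhdsGT h12
  have hxl1 : Filter.Tendsto x (nhdsWithin w1 (Set.Ioi w1)) (nhds b) := by
    have h1 := (hxc w1 ⟨le_rfl, h12.le⟩)
    rw [ContinuousWithinAt, hx1] at h1
    refine h1.mono_left ?_
    rw [nhdsWithin_le_iff]
    filter_upwards [hmem1] with w hw using ⟨hw.1.le, hw.2.le⟩
  have hPl1 : Filter.Tendsto (fun w => ENNReal.ofReal (P w - P w2))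
      (nhdsWithin w1 (Set.Ioi w1)) (nhds (ENNReal.ofReal (P w1 - P w2))) := by
    have h1 : Filter.Tendsto P (nhdsWithin w1 (Set.Ioi w1)) (nhds (P w1)) := by
      refine (hPc w1 ⟨le_rfl, h12.le⟩).mono_left ?_
      rw [nhdsWithin_le_iff]
      filter_upwards [hmem1] with w hw using ⟨hw.1.le, hw.2.le⟩
    exact (ENNReal.continuous_ofReal.tendsto _).comp (h1.sub_const _)
  have hRt : ∀ n, INT1_c R n ≠ ⊤ :=
    PGr.Pring_ne_top (INT1_c R) (hpos w0 hw01 hw02) (hfin w0 hw01 hw02)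
  rw [← INT1_sum]
  refine le_antisymm ?_ ?_
  · rw [ENNReal.tsum_eq_iSup_sum]
    refine iSup_le (fun S => ?_)
    have h1 : Filter.Tendsto (fun w => ∑ n ∈ S, INT1_c R n * ENNReal.ofReal (x w) ^ n)
        (nhdsWithin w1 (Set.Ioi w1))
        (nhds (∑ n ∈ S, INT1_c R n * ENNReal.ofReal b ^ n)) := by
      refine tendsto_finsetSum _ (fun n _ => ?_)
      refine ENNReal.Tendsto.const_mul ?_ (Or.inr (hRt n))
      exact ((ENNReal.continuous_pow n).tendsto _).comp
        ((ENNReal.continuous_ofReal.tendsto _).comp hxl1)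
    refine le_of_tendsto_of_tendsto h1 hPl1 ?_
    filter_upwards [hmem1] with w hw
    rw [← hvalE w hw]
    exact ENNReal.sum_le_tsum S
  · refine le_of_tendsto hPl1 ?_
    filter_upwards [hmem1] with w hw
    rw [← hvalE w hw]
    refine ENNReal.tsum_le_tsum (fun n => ?_)
    have h3 : x w ≤ b := (hltb w hw.1 hw.2).le
    gcongr

end PGa

end

section
/-!
# The closed form of the symmetric rigid maps: definitions

Point `(u, v)` of the region `Reg`: weight `sv u v` of a vertex, `yv u v` of an edge, `ev u v` of a net.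
`w ↦ (zw u v w, xw u v w)` parametrises the cubic curve; `Xz u v z` is the second coordinate as a function of the first
one, on the domain `DomZ u v` (up to the singularity).
-/

namespace PGa

/-- the region of the parameters -/
structure Reg (u v : ℝ) : Prop where
  u0 : 0 < u
  v0 : 0 < v
  q : u + v + 3 * u * v < 1

/-- weight of a vertex -/
noncomputable def sv (u v : ℝ) : ℝ := u * (1 - v) ^ 2 / (v * (1 - u) ^ 2)
/-- weight of an edge -/
noncomputable def yv (u v : ℝ) : ℝ := v * (1 - u) ^ 2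
/-- weight of a net -/
noncomputable def ev (u v : ℝ) : ℝ := v * (1 - u - v) / (1 - v) ^ 2

noncomputable def aa (u v : ℝ) : ℝ := v * (1 - u)
noncomputable def bb (u v : ℝ) : ℝ := v * (1 - u * v)

/-- first coordinate of the point with parameter `w` -/
noncomputable def zw (u v w : ℝ) : ℝ := w * (1 - bb u v * w) / (1 - aa u v * w)
/-- second coordinate of the point with parameter `w` -/
noncomputable def xw (u v w : ℝ) : ℝ := (1 - v * w) / ((1 - aa u v * w) * (1 - bb u v * w))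
/-- the parameter of the point with first coordinate `z` -/
noncomputable def wz (u v z : ℝ) : ℝ :=
  ((1 + aa u v * z) - Real.sqrt ((1 + aa u v * z) ^ 2 - 4 * bb u v * z)) / (2 * bb u v)
/-- the second coordinate as a function of the first one -/
noncomputable def Xz (u v z : ℝ) : ℝ := xw u v (wz u v z)

/-- the domain of `Xz` -/
structure DomZ (u v z : ℝ) : Prop where
  z0 : 0 < z
  a : aa u v * z < 1
  d : 4 * bb u v * z < (1 + aa u v * z) ^ 2

/-- the domain of the parameter `w` -/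
structure DomW (u v w : ℝ) : Prop where
  w0 : 0 < w
  a : aa u v * w < 1
  d : 0 < 1 - 2 * bb u v * w + aa u v * bb u v * w ^ 2

/-- the linear function of `t` with the values `Xz z1`, `Xz z2` at `z1`, `z2` -/
noncomputable def LL (u v z1 z2 t : ℝ) : ℝ :=
  (Xz u v z1 * (z2 - t) + Xz u v z2 * (t - z1)) / (z2 - z1)

/-- `z1 < z2` are the eigenvalues for the weights `K`, `D`, `A` -/
structure Eig (K D A z1 z2 : ℝ) : Prop where
  lt : z1 < z2
  sum : z1 + z2 = 1 + A + K + K * D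
  prod : z1 * z2 = A * (1 + K * D)

end PGa

end

section
/-! # Module XREG: the points of the region -/

namespace PGa
open PGr
open scoped ENNReal

theorem Reg.u1 {u v : ℝ} (h : Reg u v) : u < 1 := by
  nlinarith [h.u0, h.v0, h.q, mul_pos h.u0 h.v0]
theorem Reg.v1 {u v : ℝ} (h : Reg u v) : v < 1 := by
  nlinarith [h.u0, h.v0, h.q, mul_pos h.u0 h.v0]
theorem Reg.uv {u v : ℝ} (h : Reg u v) : u + v < 1 := by
  nlinarith [h.u0, h.v0, h.q, mul_pos h.u0 h.v0]
theorem Reg.aa_pos {u v : ℝ} (h : Reg u v) : 0 < aa u v :=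
  mul_pos h.v0 (by linarith [h.u1])
/-- `a < b < v` -/
theorem Reg.aa_lt_bb {u v : ℝ} (h : Reg u v) : aa u v < bb u v := by
  unfold aa bb
  have h1 := mul_pos h.u0 h.v0
  have h2 : u * v < u := by nlinarith [h.u0, h.v1]
  nlinarith [h.v0]
theorem Reg.bb_lt {u v : ℝ} (h : Reg u v) : bb u v < v := by
  unfold bb
  nlinarith [mul_pos h.u0 h.v0, h.v0]
theorem Reg.sv_pos {u v : ℝ} (h : Reg u v) : 0 < sv u v := by
  have h1 := h.u1
  have h2 := h.v1
  unfold sv
  exact div_pos (mul_pos h.u0 (by nlinarith)) (mul_pos h.v0 (by nlinarith))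
theorem Reg.yv_pos {u v : ℝ} (h : Reg u v) : 0 < yv u v := by
  have h1 := h.u1
  unfold yv
  exact mul_pos h.v0 (by nlinarith)
theorem Reg.ev_pos {u v : ℝ} (h : Reg u v) : 0 < ev u v := by
  have h1 := h.uv
  have h2 := h.v1
  unfold ev
  exact div_pos (mul_pos h.v0 (by linarith)) (by nlinarith)

/-- Module XREG.  `scr_surj` (PGc/Crit) gives `t` with `scr t = sv u v`; `uf (sv u v) v = u`
(uniqueness of the solution of `u (1-v)^2 = s v (1-u)^2` in `(0,1)`, see `uf_eq` and the proof of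
`exists_point`); `v < t`, since otherwise `qf s v ≤ qf s t = 0` (`qf_strictAnti`, `qf_crit`), but
`qf s v = 1 - u - v - 3 u v > 0`; then `exists_point_v`. -/
theorem reg_t {u v : ℝ} (h : Reg u v) :
    ∃ t : ℝ, 0 < t ∧ t < 1 ∧ v < t ∧ scr t = sv u v ∧ uf (sv u v) v = u := by
  have hs := h.sv_pos
  have hu1 := h.u1
  have hv1 := h.v1
  obtain ⟨t, ht0, ht1, ht⟩ := scr_surj hs
  have huf : uf (sv u v) v = u := by
    symm
    refine uf_unique hs h.v0 hv1 h.u0 hu1 ?_
    have h2 : v * (1 - u) ^ 2 ≠ 0 := by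
      have : 0 < 1 - u := by linarith
      have := mul_pos h.v0 (pow_pos this 2)
      exact this.ne'
    unfold sv
    rw [mul_assoc, div_mul_cancel₀ _ h2]
  have hq : 0 < qf (sv u v) v := by
    unfold qf
    rw [huf]
    have := h.q
    nlinarith
  refine ⟨t, ht0, ht1, ?_, ht, huf⟩
  by_contra hcon
  push Not at hcon
  have hc := qf_crit ht0 ht1
  rw [ht] at hc
  rcases hcon.eq_or_lt with e | e
  · rw [e] at hc
    linarith
  · have := qf_strictAnti hs ht0 e hv1
    linarith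

theorem reg_point {u v : ℝ} (h : Reg u v) (hs : sv u v ≤ 1 / 10) :
    ∃ q c : ℝ, 0 < q ∧ q < c ∧ c < 1 ∧ uu q c = u ∧ vv q c = v ∧ ss q c = sv u v ∧
      yy q c = yv u v ∧ EE q c = ev u v ∧
      Es (ENNReal.ofReal (sv u v)) (ENNReal.ofReal (yv u v)) = ENNReal.ofReal (ev u v) := by
  obtain ⟨t, h0, h1, hv, h2, h3⟩ := reg_t h
  obtain ⟨q, c, hq, hqc, hc, e1, e2, e3, e4, e5, e6⟩ :=
    exists_point_v h0 h1 (by rw [h2]; exact hs) h.v0 hv
  rw [h2] at e1 e3 e4 e5
  have e7 : EE q c = ev u v := by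
    rw [e4]; unfold Ef ev; rw [h3]
  have e8 : yy q c = yv u v := by
    rw [e5]; unfold Yf yv; rw [h3]
  rw [h3] at e1
  rw [e3, e7, e8] at e6
  exact ⟨q, c, hq, hqc, hc, e1, e2, e3, e8, e7, e6⟩

/-- Uniqueness of `(u, v)`: `reg_t` (the same `t`, `scr` is injective), `Ef_strictMonoOn`. -/
theorem uv_unique {u v u' v' : ℝ} (h : Reg u v) (h' : Reg u' v') (hs : sv u v = sv u' v')
    (hE : ev u v = ev u' v') : u = u' ∧ v = v' := by
  obtain ⟨t, ht0, ht1, hvt, hst, hut⟩ := reg_t h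
  obtain ⟨t', ht0', ht1', hvt', hst', hut'⟩ := reg_t h'
  have htt : t = t' := by
    have h1 : scr t = scr t' := by rw [hst, hst', hs]
    exact scr_strictAntiOn.injOn ⟨ht0, ht1⟩ ⟨ht0', ht1'⟩ h1
  subst htt
  have e1 : Ef (scr t) v = ev u v := by
    unfold Ef ev
    rw [hst, hut]
  have e2 : Ef (scr t) v' = ev u' v' := by
    unfold Ef ev
    rw [hst', hut']
  have hv : v = v' := by
    refine (Ef_strictMonoOn ht0 ht1).injOn ⟨h.v0.le, hvt.le⟩ ⟨h'.v0.le, hvt'.le⟩ ?_
    rw [e1, e2, hE]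
  refine ⟨?_, hv⟩
  rw [← hut, ← hut', hs, hv]

end PGa

end

section
/-!
# Module XCRV: the parametrisation `w ↦ (zw, xw)`

`0 < a < b < v`.  For `DomW w`: the derivative of `f(w) = 1 - 2 b w + a b w^2` is `-2 b (1 - a w) < 0` for `a w < 1`.
-/

namespace PGa
open PGr
open scoped ENNReal

variable {u v w z z' : ℝ}

/-- elementary facts on `a` and `b` -/
theorem XCrv_ab (h : Reg u v) : 0 < aa u v ∧ aa u v < bb u v ∧ bb u v < v ∧ u < 1 ∧ v < 1 ∧
    0 < 1 - u * v := by
  have hu := h.u0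
  have hv := h.v0
  have hq := h.q
  have huv : 0 < u * v := mul_pos hu hv
  have hu1 : u < 1 := by nlinarith
  have hv1 : v < 1 := by nlinarith
  unfold aa bb
  refine ⟨mul_pos hv (by linarith), ?_, ?_, hu1, hv1, by nlinarith⟩
  · have : u * v < u := by nlinarith
    exact mul_lt_mul_of_pos_left (by linarith) hv
  · nlinarith

/-- If `v w ≥ 1` then `f(w) ≤ f(1/v) = -u (1 - v - u v) < 0` (`f` decreasing on `a w < 1`), contradiction.
`b w < v w`. -/
theorem DomW.vw (h : Reg u v) (hw : DomW u v w) : v * w < 1 := by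
  obtain ⟨ha, hab, hbv, hu1, hv1, hc⟩ := XCrv_ab h
  have hu := h.u0
  have hv := h.v0
  have hq := h.q
  have huv : 0 < u * v := mul_pos hu hv
  by_contra hcon
  push Not at hcon
  have h1 := hw.a
  have h2 := hw.d
  obtain ⟨t, ht⟩ : ∃ t, t = v * w := ⟨_, rfl⟩
  have e1 : aa u v * w = (1 - u) * t := by rw [ht]; unfold aa; ring
  have e2 : 1 - 2 * bb u v * w + aa u v * bb u v * w ^ 2 =
      1 - (1 - u * v) * (t * (2 - (1 - u) * t)) := by
    rw [ht]; unfold aa bb; ring
  rw [e1] at h1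
  rw [e2] at h2
  rw [← ht] at hcon
  have h3 : 1 + u ≤ t * (2 - (1 - u) * t) := by
    have h4 : t * (2 - (1 - u) * t) - (1 + u) = (t - 1) * (2 - (1 - u) * (t + 1)) := by ring
    have h5 : 0 ≤ (t - 1) * (2 - (1 - u) * (t + 1)) :=
      mul_nonneg (by linarith) (by nlinarith)
    linarith
  have h6 : (1 - u * v) * (1 + u) ≤ (1 - u * v) * (t * (2 - (1 - u) * t)) :=
    mul_le_mul_of_nonneg_left h3 hc.le
  have h7 : (1 - u * v) * (1 + u) = 1 + u * (1 - v - u * v) := by ring
  have h8 : 0 < u * (1 - v - u * v) := mul_pos hu (by nlinarith)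
  linarith

/-- the quadratic relation between `w` and `z` -/
theorem XCrv_rel {a b w z : ℝ} (h : z * (1 - a * w) = w * (1 - b * w)) :
    (1 + a * z) ^ 2 - 4 * b * z = (1 + a * z - 2 * b * w) ^ 2 ∧
      (1 + a * z - 2 * b * w) * (1 - a * w) = 1 - 2 * b * w + a * b * w ^ 2 := by
  constructor
  · linear_combination (-4 * b) * h
  · linear_combination a * h

/-- `z > 0`; `a z < 1` is `2 a w - a b w^2 < 1`, from `2 a w - a b w^2 < 2 b w - a b w^2 < 1`;
`(1 + a z)(1 - a w) = 1 - a b w^2` and `(1 + a z - 2 b w)(1 - a w) = 1 - 2 b w + a b w^2 > 0`, and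
`(1 + a z)^2 - 4 b z = (1 + a z - 2 b w)^2` as `b w^2 - (1 + a z) w + z = 0`. -/
theorem zw_dom (h : Reg u v) (hw : DomW u v w) : DomZ u v (zw u v w) ∧ wz u v (zw u v w) = w := by
  obtain ⟨ha, hab, hbv, hu1, hv1, hc⟩ := XCrv_ab h
  have hvw := hw.vw h
  have h0 := hw.w0
  have h1 := hw.a
  have h2 := hw.d
  obtain ⟨a, hadef⟩ : ∃ a, a = aa u v := ⟨_, rfl⟩
  obtain ⟨b, hbdef⟩ : ∃ b, b = bb u v := ⟨_, rfl⟩
  obtain ⟨z, hzdef⟩ : ∃ z, z = zw u v w := ⟨_, rfl⟩
  have hb : 0 < b := by rw [hbdef]; exact ha.trans hab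
  have hbw : b * w < 1 := by
    have h3 : b * w < v * w := by
      rw [hbdef]
      exact mul_lt_mul_of_pos_right hbv h0
    linarith
  rw [← hadef, ← hbdef] at h2
  rw [← hadef] at h1 ha
  rw [← hadef, ← hbdef] at hab
  have hden : 0 < 1 - a * w := by linarith
  have hrel : z * (1 - a * w) = w * (1 - b * w) := by
    rw [hzdef]
    unfold zw
    rw [← hadef, ← hbdef]
    exact div_mul_cancel₀ _ hden.ne'
  have hz0 : 0 < z := by
    have h4 : 0 < w * (1 - b * w) := mul_pos h0 (by linarith)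
    rw [← hrel] at h4
    exact pos_of_mul_pos_left h4 hden.le
  obtain ⟨r1, r2⟩ := XCrv_rel hrel
  have hs : 0 < 1 + a * z - 2 * b * w := by
    rw [← r2] at h2
    exact pos_of_mul_pos_left h2 hden.le
  refine ⟨⟨?_, ?_, ?_⟩, ?_⟩
  · rw [← hzdef]; exact hz0
  · rw [← hzdef, ← hadef]
    have h5 : a * z * (1 - a * w) < 1 * (1 - a * w) := by
      have e : a * z * (1 - a * w) = a * w - a * b * w ^ 2 := by
        linear_combination a * hrel
      rw [e]
      have h6 : a * w < b * w := mul_lt_mul_of_pos_right hab h0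
      linarith
    exact lt_of_mul_lt_mul_right h5 hden.le
  · rw [← hzdef, ← hadef, ← hbdef]
    have := pow_pos hs 2
    linarith
  · rw [← hzdef]
    unfold wz
    rw [← hadef, ← hbdef, r1, Real.sqrt_sq hs.le]
    field_simp
    ring

/-- `w = wz z` is the smaller root of `b w^2 - (1 + a z) w + z = 0`, i.e. `z (1 - a w) = w (1 - b w)`; `w > 0` as
`4 b z > 0`; `a w < 1` as `a (1 + a z) < 2 a < 2 b`; `(1 + a z - 2 b w)(1 - a w) = 1 - 2 b w + a b w^2` and
`1 + a z - 2 b w` is the square root. -/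
theorem wz_dom (h : Reg u v) (hz : DomZ u v z) : DomW u v (wz u v z) ∧ zw u v (wz u v z) = z := by
  obtain ⟨ha, hab, hbv, hu1, hv1, hc⟩ := XCrv_ab h
  have h0 := hz.z0
  have h1 := hz.a
  have h2 := hz.d
  obtain ⟨a, hadef⟩ : ∃ a, a = aa u v := ⟨_, rfl⟩
  obtain ⟨b, hbdef⟩ : ∃ b, b = bb u v := ⟨_, rfl⟩
  obtain ⟨w, hwdef⟩ : ∃ w, w = wz u v z := ⟨_, rfl⟩
  rw [← hadef] at h1 ha
  rw [← hadef, ← hbdef] at hab h2
  have hb : 0 < b := ha.trans hab
  obtain ⟨r, hrdef⟩ : ∃ r, r = Real.sqrt ((1 + a * z) ^ 2 - 4 * b * z) := ⟨_, rfl⟩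
  have hr0 : 0 < r := by
    rw [hrdef]
    exact Real.sqrt_pos.2 (by linarith)
  have hr2 : r ^ 2 = (1 + a * z) ^ 2 - 4 * b * z := by
    rw [hrdef]
    exact Real.sq_sqrt (by linarith)
  have hw : w = ((1 + a * z) - r) / (2 * b) := by
    rw [hwdef, hrdef]
    unfold wz
    rw [← hadef, ← hbdef]
  have hw2 : 2 * b * w = 1 + a * z - r := by
    rw [hw]
    field_simp
  have haz : 0 < a * z := mul_pos ha h0
  have hbz : 0 < b * z := mul_pos hb h0
  have hr1 : r < 1 + a * z := by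
    by_contra hcon
    push Not at hcon
    have h3 : (1 + a * z) ^ 2 ≤ r ^ 2 := pow_le_pow_left₀ (by linarith) hcon 2
    linarith
  have hw0 : 0 < w := by
    rw [hw]
    exact div_pos (by linarith) (by linarith)
  have hrel : z * (1 - a * w) = w * (1 - b * w) := by
    have h4 : 4 * b * (z * (1 - a * w) - w * (1 - b * w)) = 0 := by
      have h5 : r = 1 + a * z - 2 * b * w := by linarith
      rw [h5] at hr2
      linear_combination hr2
    have h6 := (mul_eq_zero.1 h4).resolve_left (by positivity)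
    linarith
  have haw : a * w < 1 := by
    have h7 : a * (2 * b * w) < 1 * (2 * b) := by
      rw [hw2]
      have h8 : a * (1 + a * z - r) ≤ a * 2 := mul_le_mul_of_nonneg_left (by linarith) ha.le
      linarith
    have h9 : a * w * (2 * b) < 1 * (2 * b) := by
      have e : a * w * (2 * b) = a * (2 * b * w) := by ring
      rw [e]
      exact h7
    exact lt_of_mul_lt_mul_right h9 (by linarith)
  obtain ⟨-, r2⟩ := XCrv_rel hrel
  refine ⟨⟨?_, ?_, ?_⟩, ?_⟩
  · rw [← hwdef]; exact hw0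
  · rw [← hwdef, ← hadef]; exact haw
  · rw [← hwdef, ← hadef, ← hbdef, ← r2]
    exact mul_pos (by linarith) (by linarith)
  · rw [← hwdef]
    unfold zw
    rw [← hadef, ← hbdef, ← hrel]
    have : 1 - a * w ≠ 0 := by linarith
    field_simp

end PGa

end

section
/-! # Module XCRVB: the domain `DomZ` is an interval; the point `z = 1` -/

namespace PGa
open PGr
open scoped ENNReal

variable {u v w z z' : ℝ}

/-- `h(z) = (1 + a z)^2 - 4 b z` is decreasing for `a z < 1`. -/
theorem domZ_down (h : Reg u v) (hz : DomZ u v z) (h0 : 0 < z') (h1 : z' ≤ z) : DomZ u v z' := by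
  have ha := h.aa_pos
  have hab := h.aa_lt_bb
  have haz := hz.a
  have hle : aa u v * z' ≤ aa u v * z := mul_le_mul_of_nonneg_left h1 ha.le
  refine ⟨h0, lt_of_le_of_lt hle haz, ?_⟩
  have hd := hz.d
  have e1 : 0 ≤ (z - z') * (4 * bb u v - aa u v * (2 + aa u v * z + aa u v * z')) := by
    apply mul_nonneg (by linarith)
    have e2 : aa u v * (2 + aa u v * z + aa u v * z') ≤ aa u v * 4 :=
      mul_le_mul_of_nonneg_left (by linarith) ha.le
    linarith
  have e3 : (1 + aa u v * z') ^ 2 - 4 * bb u v * z' = (1 + aa u v * z) ^ 2 - 4 * bb u v * z +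
      (z - z') * (4 * bb u v - aa u v * (2 + aa u v * z + aa u v * z')) := by ring
  linarith

/-- continuity and `domZ_down` -/
theorem domZ_open (h : Reg u v) (hz : DomZ u v z) :
    ∃ b, z < b ∧ ∀ z', 0 < z' → z' < b → DomZ u v z' := by
  have ho : IsOpen {y : ℝ | aa u v * y < 1 ∧ 4 * bb u v * y < (1 + aa u v * y) ^ 2} := by
    apply IsOpen.inter
    · exact isOpen_lt (f := fun y : ℝ => aa u v * y) (g := fun _ => (1 : ℝ)) (by fun_prop) (by fun_prop)
    · exact isOpen_lt (f := fun y : ℝ => 4 * bb u v * y) (g := fun y : ℝ => (1 + aa u v * y) ^ 2)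
        (by fun_prop) (by fun_prop)
  obtain ⟨ε, hε, hb⟩ := Metric.isOpen_iff.1 ho z ⟨hz.a, hz.d⟩
  have hm : z + ε / 2 ∈ Metric.ball z ε := by
    rw [Metric.mem_ball, Real.dist_eq, add_sub_cancel_left, abs_of_pos (by positivity)]
    linarith
  have h1 := hb hm
  have h2 : DomZ u v (z + ε / 2) := ⟨by linarith [hz.z0], h1.1, h1.2⟩
  exact ⟨z + ε / 2, by linarith, fun z' h0 hz' => domZ_down h h2 h0 hz'.le⟩

/-- `w = 1 / (1 - u v)`; `1 - 2 b w + a b w^2 = (1 - u - v - u v (…)) …`: compute with `field_simp`. -/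
theorem domZ_one (h : Reg u v) : DomZ u v 1 ∧ wz u v 1 = 1 / (1 - u * v) ∧ Xz u v 1 = 1 + ev u v := by
  have hu := h.u0
  have hv := h.v0
  have hq := h.q
  have hu1 := h.u1
  have hv1 := h.v1
  have huv : 0 < u * v := mul_pos hu hv
  have h1 : 0 < 1 - v - u * v := by nlinarith
  have h2 : 0 < 1 - u * v := by nlinarith
  have h2' : 1 - u * v ≠ 0 := h2.ne'
  have h3 : (1 + aa u v * 1) ^ 2 - 4 * bb u v * 1 = (1 - v - u * v) ^ 2 := by
    unfold aa bb; ring
  have hw : wz u v 1 = 1 / (1 - u * v) := by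
    unfold wz
    rw [h3, Real.sqrt_sq h1.le]
    unfold aa bb
    field_simp
    ring
  refine ⟨⟨one_pos, ?_, ?_⟩, hw, ?_⟩
  · unfold aa
    nlinarith
  · have : 0 < (1 - v - u * v) ^ 2 := by positivity
    linarith
  · unfold Xz
    rw [hw]
    unfold xw ev aa bb
    have h4 : 0 < 1 - v := by linarith
    have h4' : 1 - v ≠ 0 := h4.ne'
    have h1' : 1 - v - u * v ≠ 0 := h1.ne'
    have e0 : v * (1 - u) = v - 1 + (1 - u * v) := by ring
    have e5 : 1 + v * (1 - u - v) / (1 - v) ^ 2 = ((1 - u * v) - v) / (1 - v) ^ 2 := by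
      field_simp
      ring
    rw [e0, e5]
    generalize 1 - u * v = D at h2'
    have e1 : 1 - v * (1 / D) = (D - v) / D := by
      field_simp
    have e2 : 1 - (v - 1 + D) * (1 / D) = (1 - v) / D := by
      field_simp
      ring
    have e3 : 1 - v * D * (1 / D) = 1 - v := by
      field_simp
    rw [e1, e2, e3]
    field_simp

end PGa

end

section
/-! # Module XCRVC: analyticity -/

namespace PGa
open PGr
open scoped ENNReal

variable {u v w z z' : ℝ}

/-- `Xz` is analytic on its domain (`AnalyticAt` of `Real.sqrt` at a positive number) -/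
theorem Xz_analyticAt (h : Reg u v) (hz : DomZ u v z) : AnalyticAt ℝ (Xz u v) z := by
  have hD : 0 < (1 + aa u v * z) ^ 2 - 4 * bb u v * z := by linarith [hz.d]
  have hb : 0 < bb u v := h.aa_pos.trans h.aa_lt_bb
  have hpoly : AnalyticAt ℝ (fun z => (1 + aa u v * z) ^ 2 - 4 * bb u v * z) z := by fun_prop
  have hsq : AnalyticAt ℝ (fun z => Real.sqrt ((1 + aa u v * z) ^ 2 - 4 * bb u v * z)) z :=
    AnalyticAt.comp (g := Real.sqrt)
      (f := fun z => (1 + aa u v * z) ^ 2 - 4 * bb u v * z)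
      ((Real.contDiffAt_sqrt (n := ⊤) hD.ne').analyticAt) hpoly
  have hlin : AnalyticAt ℝ (fun z => 1 + aa u v * z) z := by fun_prop
  have hw : AnalyticAt ℝ (fun z => wz u v z) z := by
    unfold wz
    exact (hlin.sub hsq).div analyticAt_const (by positivity)
  obtain ⟨hdw, -⟩ := wz_dom h hz
  have hvw := hdw.vw h
  have hbw : bb u v * wz u v z < 1 := by
    have := mul_lt_mul_of_pos_right h.bb_lt hdw.w0
    linarith
  have haw := hdw.a
  have h1 : AnalyticAt ℝ (fun z => 1 - v * wz u v z) z :=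
    analyticAt_const.sub (analyticAt_const.mul hw)
  have h2 : AnalyticAt ℝ (fun z => 1 - aa u v * wz u v z) z :=
    analyticAt_const.sub (analyticAt_const.mul hw)
  have h3 : AnalyticAt ℝ (fun z => 1 - bb u v * wz u v z) z :=
    analyticAt_const.sub (analyticAt_const.mul hw)
  have h4 : (1 - aa u v * wz u v z) * (1 - bb u v * wz u v z) ≠ 0 :=
    mul_ne_zero (by linarith) (by linarith)
  exact h1.div (h2.mul h3) h4

end PGa

end

section
/-!
# Module XMOB: comparison of the two parametrisations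

Let `w' ∈ (0, q)` be a parameter of `Zf`, `Xf`, and `w = (1 - c)(q - w') / (a (1 - q)(c - w'))`, `a = aa (uu q c) (vv q c)`.
Then `1 - a w = (c - q)(1 - w') / ((1 - q)(c - w'))`,
`1 - b w = (c - q)(c - q w') / ((c - q^2)(c - w'))`, `1 - v w = (c - q)(1 - q w') / ((1 - q^2)(c - w'))`,
`a = q (1 - c)^2 (1 + q) / ((c - q^2)(1 - q c))`, `b = q (1 - c) c (1 - q)^2 (1 + q) / ((c - q^2)^2 (1 - q c))`,
`1 - u v = c (1 - q)^2 (1 + q) / ((1 - q c)(c - q^2))` (`one_sub_uv`), so `zw w = Zf w'`, `xw w = Xf w'`, and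
`1 - 2 b w + a b w^2 = (c - w'^2)(c - q)^2 / ((c - q^2)(c - w')^2) > 0`.
-/

namespace PGa
open PGr
open scoped ENNReal

theorem mob {q c w' : ℝ} (hq : 0 < q) (hqc : q < c) (hc : c < 1) (h0 : 0 < w') (h1 : w' < q) :
    ∃ w, DomW (uu q c) (vv q c) w ∧ zw (uu q c) (vv q c) w = Zf q c w' ∧
      xw (uu q c) (vv q c) w = Xf q c w' := by
  have hq1 : q < 1 := hqc.trans hc
  have hw1 : w' < 1 := h1.trans hq1
  have hwc : w' < c := h1.trans hqc
  have hc0 : 0 < c := hq.trans hqc
  have hqc1 : q * c < 1 := by nlinarith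
  have p1 : 0 < 1 - q * c := by linarith
  have p2 : 0 < c - q ^ 2 := by nlinarith
  have p3 : 0 < c - q := by linarith
  have p4 : 0 < 1 - q := by linarith
  have p5 : 0 < 1 - c := by linarith
  have p6 : 0 < c - w' := by linarith
  have p7 : 0 < 1 - w' := by linarith
  have p8 : 0 < q - w' := by linarith
  have p9 : 0 < c - q * w' := by nlinarith
  have p10 : 0 < 1 - q * w' := by nlinarith
  have p11 : 0 < 1 + q := by linarith
  have p12 : 0 < c - w' ^ 2 := by nlinarith
  have n1 := p1.ne'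
  have n2 := p2.ne'
  have n3 := p3.ne'
  have n4 := p4.ne'
  have n5 := p5.ne'
  have n6 := p6.ne'
  have n7 := p7.ne'
  have n9 := p9.ne'
  have n11 := p11.ne'
  have nq := hq.ne'
  set w : ℝ := (q - w') * (c - q ^ 2) * (1 - q * c) /
    (q * (1 - c) * ((1 - q) * (1 + q)) * (c - w')) with hw
  have ha : aa (uu q c) (vv q c) = q * (1 - c) ^ 2 * (1 + q) / ((c - q ^ 2) * (1 - q * c)) := by
    unfold aa uu vv
    field_simp
    ring
  have hb : bb (uu q c) (vv q c) =
      q * (1 - c) * c * (1 - q) ^ 2 * (1 + q) / ((c - q ^ 2) ^ 2 * (1 - q * c)) := by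
    unfold bb uu vv
    field_simp
    ring
  have haw : aa (uu q c) (vv q c) * w = (1 - c) * (q - w') / ((1 - q) * (c - w')) := by
    rw [ha, hw]
    field_simp
  have hbw : bb (uu q c) (vv q c) * w = c * (1 - q) * (q - w') / ((c - q ^ 2) * (c - w')) := by
    rw [hb, hw]
    field_simp
  have hvw : vv q c * w = (q - w') * (1 - q * c) / ((1 - q) * (1 + q) * (c - w')) := by
    rw [hw]
    unfold vv
    field_simp
  have haw' : 1 - aa (uu q c) (vv q c) * w = (c - q) * (1 - w') / ((1 - q) * (c - w')) := by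
    rw [haw]
    field_simp
    ring
  have hbw' : 1 - bb (uu q c) (vv q c) * w =
      (c - q) * (c - q * w') / ((c - q ^ 2) * (c - w')) := by
    rw [hbw]
    field_simp
    ring
  have hvw' : 1 - vv q c * w = (c - q) * (1 - q * w') / ((1 - q) * (1 + q) * (c - w')) := by
    rw [hvw]
    field_simp
    ring
  have hf : 1 - 2 * bb (uu q c) (vv q c) * w +
      aa (uu q c) (vv q c) * bb (uu q c) (vv q c) * w ^ 2 =
      (c - q) ^ 2 * (c - w' ^ 2) / ((c - q ^ 2) * (c - w') ^ 2) := by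
    have e1 : 1 - 2 * bb (uu q c) (vv q c) * w +
        aa (uu q c) (vv q c) * bb (uu q c) (vv q c) * w ^ 2 =
        (1 - bb (uu q c) (vv q c) * w) -
          (bb (uu q c) (vv q c) * w) * (1 - aa (uu q c) (vv q c) * w) := by ring
    rw [e1, hbw', hbw, haw']
    field_simp
    ring
  have hw0 : 0 < w := by
    rw [hw]
    positivity
  refine ⟨w, ⟨hw0, ?_, ?_⟩, ?_, ?_⟩
  · have : 0 < 1 - aa (uu q c) (vv q c) * w := by
      rw [haw']
      positivity
    linarith
  · rw [hf]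
    positivity
  · unfold zw Zf
    rw [hbw', haw', hw]
    field_simp
  · unfold xw Xf
    rw [hbw', haw', hvw']
    field_simp

end PGa

end

section
/-! # Module XTAU: the maps counted by the length of the root face, in closed form up to the singularity -/

namespace PGa
open PGr
open scoped ENNReal

/-- `Zf` takes all values in `(0, 1)` on `(0, q)` -/
private theorem XTau_ivt {q c z : ℝ} (hq : 0 < q) (hqc : q < c) (hc : c < 1) (h0 : 0 < z)
    (h1 : z < 1) : ∃ w, 0 < w ∧ w < q ∧ Zf q c w = z := by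
  have hc0 : 0 < c := hq.trans hqc
  have hcont : ContinuousOn (Zf q c) (Set.Icc 0 q) := by
    unfold Zf
    refine ContinuousOn.div (by fun_prop) (by fun_prop) ?_
    rintro w ⟨hw0, hwq⟩
    have h2 : 0 < c - w := by linarith
    have h3 : 0 < 1 - w := by linarith
    have h4 : 0 < 1 - c := by linarith
    positivity
  have hz0 : 1 < Zf q c 0 := by
    unfold Zf
    rw [lt_div_iff₀ (by
      have h4 : 0 < 1 - c := by linarith
      have h5 : 0 < c - 0 := by linarith
      have h6 : (0 : ℝ) < 1 - 0 := by norm_num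
      positivity)]
    have e : (1 - q * c) * (q - 0) * (c - q * 0) - 1 * (q * (1 - c) * (1 + q) * (c - 0) * (1 - 0)) =
        q * c * (c - q) := by ring
    have h7 : 0 < q * c * (c - q) := mul_pos (mul_pos hq hc0) (by linarith)
    linarith
  have hzq : Zf q c q = 0 := by
    unfold Zf
    rw [sub_self, mul_zero, zero_mul, zero_div]
  have h2 := intermediate_value_Ioo' hq.le hcont
  obtain ⟨w, ⟨hw0, hwq⟩, hw⟩ := h2 (show z ∈ Set.Ioo (Zf q c q) (Zf q c 0) from
    ⟨by rw [hzq]; exact h0, h1.trans hz0⟩)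
  exact ⟨w, hw0, hwq, hw⟩

/-- `Xf > 1` on `(0, q)` -/
private theorem XTau_one {q c w : ℝ} (hq : 0 < q) (hqc : q < c) (hc : c < 1) (_h0 : 0 < w)
    (h1 : w < q) : 1 < Xf q c w := by
  unfold Xf
  have hc0 : 0 < c := hq.trans hqc
  have h2 : 0 < c - q := by linarith
  have h3 : 0 < 1 - w := by linarith
  have h4 : 0 < c - q * w := by nlinarith
  rw [lt_div_iff₀ (by positivity)]
  have e : (c - q ^ 2) * (1 - q * w) * (c - w) - 1 * ((c - q) * (1 + q) * (c - q * w) * (1 - w)) =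
      (1 - c) * (q - w) * (c - q ^ 2 * w) := by ring
  have h5 : 0 < c - q ^ 2 * w := by
    have h6 : q * w < 1 := by nlinarith
    have h7 : q ^ 2 * w < q * 1 := by
      have : q ^ 2 * w = q * (q * w) := by ring
      rw [this]
      exact mul_lt_mul_of_pos_left h6 hq
    linarith
  have h8 : 0 < (1 - c) * (q - w) * (c - q ^ 2 * w) :=
    mul_pos (mul_pos (by linarith) (by linarith)) h5
  linarith

/-- every `z ∈ (0, 1/(1-u))` is `Zf w'` with `w' ∈ (0, q)` (intermediate value theorem: `Zf 0 = 1/(1-u)`,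
`Zf q = 0`), `tau_dual` at `w'`, `mob`, `zw_dom` -/
theorem tau_z_small {u v z : ℝ} (h : Reg u v) (hs : sv u v ≤ 1 / 10) (h0 : 0 < z) (h1 : z < 1) :
    DomZ u v z ∧ tauL (1 / sv u v) (sv u v * yv u v) z =
      ENNReal.ofReal (sv u v * (Xz u v z - 1)) ∧ 0 ≤ sv u v * (Xz u v z - 1) := by
  obtain ⟨q, c, hq, hqc, hc, eu, ev', es, ey, eE, hE⟩ := reg_point h hs
  obtain ⟨w', hw0, hwq, hwz⟩ := XTau_ivt hq hqc hc h0 h1
  obtain ⟨w, hw, hz, hx⟩ := mob hq hqc hc hw0 hwq
  rw [eu, ev'] at hw hz hx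
  obtain ⟨hd, he⟩ := zw_dom h hw
  rw [hz, hwz] at hd he
  have hX : Xz u v z = Xf q c w' := by
    unfold Xz
    rw [he, hx]
  have h2 := tau_dual hq hqc hc (by rw [es, ey, eE]; exact hE) hw0 hwq
  rw [es, ey, hwz] at h2
  refine ⟨hd, ?_, ?_⟩
  · rw [h2, hX]
  · rw [hX]
    have h3 := XTau_one hq hqc hc hw0 hwq
    exact mul_nonneg h.sv_pos.le (by linarith)

/-- Module XMOB, second part: `pringsheim` (PGc/Pring) with `c l = tL (ofReal (1/s)) (ofReal (s y)) l`,
`g z = s (Xz z - 1)`, `ε = 1` (or `min 1 b`), `b` from `domZ_open`; `Xz_analyticAt`, `tau_z_small`. -/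
theorem tau_z {u v z : ℝ} (h : Reg u v) (hs : sv u v ≤ 1 / 10) (hz : DomZ u v z) :
    tauL (1 / sv u v) (sv u v * yv u v) z =
      ENNReal.ofReal (sv u v * (Xz u v z - 1)) ∧ 0 ≤ sv u v * (Xz u v z - 1) := by
  obtain ⟨b, hb, hbd⟩ := domZ_open h hz
  have hb0 : 0 < b := hz.z0.trans hb
  have h1 := pringsheim (fun l => tL (ENNReal.ofReal (1 / sv u v))
    (ENNReal.ofReal (sv u v * yv u v)) l) b (min 1 b) (lt_min one_pos hb0) (min_le_right _ _)
    (fun x => sv u v * (Xz u v x - 1)) (by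
      rintro x ⟨hx0, hxb⟩
      exact analyticAt_const.mul ((Xz_analyticAt h (hbd x hx0 hxb)).sub analyticAt_const)) (by
      intro x hx0 hx1
      obtain ⟨-, h2, h3⟩ := tau_z_small h hs hx0 (lt_of_lt_of_le hx1 (min_le_left _ _))
      exact ⟨h3, h2⟩) z hz.z0 hb
  exact ⟨h1.2, h1.1⟩

end PGa

end

section
/-! # Maps by the degree of the root vertex and nets by the side length -/

set_option linter.unusedSectionVars false

namespace PGr
open Equiv Finset
open scoped ENNReal Classical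

theorem BSt_dual_rl {M : BMap} (hM : M.IsGood) : M.dual.rl = M.deg := by
  unfold BMap.rl BMap.deg
  congr 1
  funext t
  show (M.aa * (M.aa * M.s)) t = M.s t
  rw [← mul_assoc]
  have h : M.aa * M.aa = 1 := by
    ext x
    exact hM.inv x
  rw [h, one_mul]

theorem BS_tL {k y : ℝ≥0∞} (h0 : k ≠ 0) (ht : k ≠ ⊤) (n : ℕ) :
    BS k y (n + 1) = y * tL k⁻¹ (k * y) n := by
  have hE : tL k⁻¹ (k * y) n = ∑' c : GC, if c.rep.1.rl = n + 1 then
      W k⁻¹ (k * y) c.rep.1 else 0 := by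
    rw [tL, Esel]
    refine tsum_congr fun c => ?_
    by_cases h : c.rep.1.rl = n + 1 <;> simp [h]
  rw [hE, BS, ← PGa.ESDequiv.tsum_eq (fun c : GC => if c.rep.1.rl = n + 1 then
    W k⁻¹ (k * y) c.rep.1 else 0), ← ENNReal.tsum_mul_left]
  refine tsum_congr fun c => ?_
  have hr := PGa.ESD_rep c
  have e1 : (PGa.ESDequiv c).rep.1.rl = c.rep.1.deg := by
    rw [← BSt_dual_rl c.rep.2]
    exact hr.rl_eq
  have e2 : W k⁻¹ (k * y) (PGa.ESDequiv c).rep.1 = k * W k y c.rep.1 := by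
    rw [← PGa.ESD_W h0 ht c.rep.2]
    exact hr.W_eq _ _
  rw [e1, e2]
  by_cases h : c.rep.1.deg = n + 1
  · rw [if_pos h, if_pos h, W]
    have h2 := Good.two_le_nV c.rep.2
    have hT : Fintype.card c.rep.1.T = Fintype.card c.rep.1.D + 2 := by
      rw [Fintype.card_sum, Fintype.card_bool]
    obtain ⟨j, hj⟩ : ∃ j, j = nV c.rep.1.s - 2 := ⟨_, rfl⟩
    have h3 : nV c.rep.1.s - 1 = j + 1 := by omega
    have h4 : Fintype.card c.rep.1.T / 2 = Fintype.card c.rep.1.D / 2 + 1 := by omega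
    rw [h3, h4, ← hj]
    ring
  · rw [if_neg h, if_neg h, mul_zero]

end PGr

end

section
/-!
# Module XBS: the maps counted by the degree of the root vertex
-/

namespace PGa
open PGr
open scoped ENNReal

theorem BS_tL {k y : ℝ≥0∞} (hk : k ≠ 0) (hk' : k ≠ ⊤) (n : ℕ) :
    BS k y (n + 1) = y * tL k⁻¹ (k * y) n :=
  PGr.BS_tL hk hk' n

end PGa

end

section
/-! # Module XUV: existence of the parameters `(u, v)`, behaviour near the base point -/

namespace PGa
open PGr
open scoped ENNReal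

/-- Existence of `(u, v)`: for `0 < s` and `0 < E < 2`, `s` small.  `scr_surj`, `exists_Ef` with `E < ecr t`
(`scr t → 0` forces `t → 1`, `ecr t → ∞`: for `t ≤ 9 / 10` one has `scr t ≥ 1 / 4000`, `ecr` is increasing and
`ecr (9 / 10) > 2`), `u = uf s v`; `qf_pos` is `Reg`. -/
theorem exists_uv {s E : ℝ} (hs : 0 < s) (hs' : s < 1 / 4000) (hE : 0 < E) (hE' : E < 2) :
    ∃ u v : ℝ, Reg u v ∧ sv u v = s ∧ ev u v = E := by
  obtain ⟨t, ht0, ht1, ht⟩ := scr_surj hs
  have h9 : 9 / 10 < t := by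
    by_contra hcon
    push Not at hcon
    have h1 : scr (9 / 10) ≤ scr t := by
      rcases hcon.lt_or_eq with h3 | h3
      · exact (scr_strictAntiOn ⟨ht0, ht1⟩ ⟨by norm_num, by norm_num⟩ h3).le
      · rw [h3]
    have h2 : (1 : ℝ) / 4000 < scr (9 / 10) := by
      unfold scr
      norm_num
    linarith
  have h10 : ecr (9 / 10) < ecr t :=
    ecr_strictMonoOn ⟨by norm_num, by norm_num⟩ ⟨ht0, ht1⟩ h9
  have h11 : (2 : ℝ) < ecr (9 / 10) := by
    unfold ecr
    norm_num
  obtain ⟨v, hv0, hvt, hv⟩ := exists_Ef ht0 ht1 hE (by linarith)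
  rw [ht] at hv
  have hv1 : v < 1 := hvt.trans ht1
  have hu0 := uf_pos hs hv0 hv1
  have hu1 := uf_lt_one hs hv0 hv1
  have hq := qf_pos (t := t) hv0 hvt ht1
  rw [ht] at hq
  unfold qf at hq
  refine ⟨uf s v, v, ⟨hu0, hv0, by nlinarith⟩, ?_, ?_⟩
  · unfold sv
    rw [uf_eq hs hv0 hv1]
    have h1 : v * (1 - uf s v) ^ 2 ≠ 0 := by
      have : 0 < 1 - uf s v := by linarith
      exact (mul_pos hv0 (pow_pos this 2)).ne'
    rw [mul_assoc, mul_div_assoc, div_self h1, mul_one]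
  · rw [← hv]
    rfl

/-- Write `E = ev u v`.  `E (1-v)^2 = v (1-u-v)`; from `Reg`, `u < (1-v)/(1+3v)`, so
`E > 3 v^2 / ((1-v)(1+3v))`, and `E < 2` forces `v < 3/4`.  `u = s v (1-u)^2/(1-v)^2 ≤ 12 s`.
`v (1 + E) = E + u v/(1-v)`, so `0 ≤ v - E/(1+E) ≤ 3 u`. -/
theorem uv_near {u v : ℝ} (h : Reg u v) (hE : ev u v < 2) :
    v < 3 / 4 ∧ u ≤ 12 * sv u v ∧ 0 ≤ v - ev u v / (1 + ev u v) ∧
      v - ev u v / (1 + ev u v) ≤ 3 * u := by
  have hu0 := h.u0
  have hv0 := h.v0
  have hu1 := h.u1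
  have hv1 := h.v1
  have huv := h.uv
  have hq := h.q
  have hE0 := h.ev_pos
  have p1 : 0 < 1 - v := by linarith
  have p2 : 0 < 1 - u := by linarith
  have p3 : 0 < u * v := mul_pos hu0 hv0
  have e1 : ev u v * (1 - v) ^ 2 = v * (1 - u - v) := by
    unfold ev
    rw [div_mul_cancel₀ _ (pow_pos p1 2).ne']
  have hv34 : v < 3 / 4 := by
    by_contra hcon
    push Not at hcon
    have a1 : 3 * v * (1 - v) < (1 + 3 * v) * (1 - u - v) := by nlinarith
    have a2 : v * (3 * v * (1 - v)) < v * ((1 + 3 * v) * (1 - u - v)) :=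
      mul_lt_mul_of_pos_left a1 hv0
    have a3 : ev u v * (1 - v) ^ 2 < 2 * (1 - v) ^ 2 :=
      mul_lt_mul_of_pos_right hE (pow_pos p1 2)
    have a4 : v * (3 * v * (1 - v)) < (1 + 3 * v) * (2 * (1 - v) ^ 2) := by
      have : v * ((1 + 3 * v) * (1 - u - v)) = (1 + 3 * v) * (ev u v * (1 - v) ^ 2) := by
        rw [e1]; ring
      have h3 : 0 < 1 + 3 * v := by linarith
      have := mul_lt_mul_of_pos_left a3 h3
      linarith
    have a5 : 0 ≤ 9 * v ^ 2 - 4 * v - 2 := by nlinarith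
    have a6 : 0 ≤ (1 - v) * (9 * v ^ 2 - 4 * v - 2) := mul_nonneg p1.le a5
    nlinarith
  have e2 : v - ev u v / (1 + ev u v) = u * v / ((1 - v) * (1 + ev u v)) := by
    have h1 : (1 + ev u v) ≠ 0 := by linarith
    have h2 : (1 - v) ≠ 0 := p1.ne'
    rw [sub_eq_iff_eq_add, div_add_div _ _ (mul_ne_zero h2 h1) h1, eq_div_iff
      (mul_ne_zero (mul_ne_zero h2 h1) h1)]
    have e3 : ev u v * (1 - v) * (1 - v) = v * (1 - u - v) := by rw [← e1]; ring
    have e4 : u * v + ev u v * (1 - v) * (1 - v) = v * (1 - v) := by rw [e3]; ring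
    have e5 : (u * v + ev u v * (1 - v) * (1 - v)) = (1 - v) * v := by rw [e4]; ring
    have e6 : u * v = (1 - v) * (v - ev u v * (1 - v)) := by linarith
    rw [e6]
    ring
  refine ⟨hv34, ?_, ?_, ?_⟩
  · have hsv := h.sv_pos
    have e3 : u * (1 - v) ^ 2 = sv u v * (v * (1 - u) ^ 2) := by
      unfold sv
      rw [div_mul_cancel₀ _ (mul_pos hv0 (pow_pos p2 2)).ne']
    have a1 : (1 / 16 : ℝ) ≤ (1 - v) ^ 2 := by nlinarith
    have a2 : (1 - u) ^ 2 ≤ 1 := by nlinarith
    have a3 : v * (1 - u) ^ 2 ≤ 3 / 4 := by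
      have := mul_le_mul_of_nonneg_left a2 hv0.le
      linarith
    have a4 : u * (1 / 16) ≤ u * (1 - v) ^ 2 := mul_le_mul_of_nonneg_left a1 hu0.le
    have a5 : sv u v * (v * (1 - u) ^ 2) ≤ sv u v * (3 / 4) :=
      mul_le_mul_of_nonneg_left a3 hsv.le
    linarith
  · rw [e2]
    have : 0 < (1 - v) * (1 + ev u v) := mul_pos p1 (by linarith)
    positivity
  · rw [e2, div_le_iff₀ (mul_pos p1 (by linarith))]
    have a1 : v ≤ 3 * (1 - v) := by linarith
    have a2 : 3 * (1 - v) ≤ 3 * (1 - v) * (1 + ev u v) := by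
      have : 0 ≤ 3 * (1 - v) * ev u v := by positivity
      nlinarith
    have a3 := mul_le_mul_of_nonneg_left (a1.trans a2) hu0.le
    nlinarith

end PGa

end

section
/-!
# Module XLIN: sums over the maps counted by the degree of the root vertex
-/

namespace PGa
open PGr
open scoped ENNReal

/-- `BS_tL`, `tau_z` (definition of `tauL` in PGa/Feq) -/
theorem BS_z {u v z : ℝ} (h : Reg u v) (hs : sv u v ≤ 1 / 10) (hz : DomZ u v z) :
    ∑' n, BS (ENNReal.ofReal (sv u v)) (ENNReal.ofReal (yv u v)) (n + 1) * ENNReal.ofReal z ^ n =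
      ENNReal.ofReal (sv u v * yv u v * (Xz u v z - 1)) ∧ 0 ≤ Xz u v z - 1 := by
  have hs0 := h.sv_pos
  have hy0 := h.yv_pos
  obtain ⟨h1, h2⟩ := tau_z h hs hz
  refine ⟨?_, nonneg_of_mul_nonneg_right h2 hs0⟩
  have h3 : ∀ n, BS (ENNReal.ofReal (sv u v)) (ENNReal.ofReal (yv u v)) (n + 1) *
      ENNReal.ofReal z ^ n = ENNReal.ofReal (yv u v) *
      (tL (ENNReal.ofReal (1 / sv u v)) (ENNReal.ofReal (sv u v * yv u v)) n *
        ENNReal.ofReal z ^ n) := by
    intro n
    rw [BS_tL (ENNReal.ofReal_pos.2 hs0).ne' ENNReal.ofReal_ne_top, one_div,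
      ENNReal.ofReal_inv_of_pos hs0, ENNReal.ofReal_mul hs0.le]
    ring
  rw [tsum_congr h3, ENNReal.tsum_mul_left]
  change ENNReal.ofReal (yv u v) * tauL (1 / sv u v) (sv u v * yv u v) z = _
  rw [h1, ← ENNReal.ofReal_mul hy0.le]
  congr 1
  ring

/-- `BS_z` at `z1`, `z2`, `1` (`domZ_one`): with `b n = (BS .. (n+1)).toReal ≥ 0` (finite, since the sum at `z = 1` is finite)
`HasSum (b n * z^n) (s y (Xz z - 1))`, add, `ENNReal.ofReal_tsum_of_nonneg`. -/
theorem BS_lin {u v z1 z2 α β γ : ℝ} (h : Reg u v) (hs : sv u v ≤ 1 / 10) (h1 : DomZ u v z1)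
    (h2 : DomZ u v z2) (hm : ∀ n : ℕ, 0 ≤ α * z1 ^ n + β * z2 ^ n + γ) :
    ∑' n, BS (ENNReal.ofReal (sv u v)) (ENNReal.ofReal (yv u v)) (n + 1) *
        ENNReal.ofReal (α * z1 ^ n + β * z2 ^ n + γ) =
      ENNReal.ofReal (sv u v * yv u v * (α * (Xz u v z1 - 1) + β * (Xz u v z2 - 1) + γ * ev u v)) ∧
      0 ≤ α * (Xz u v z1 - 1) + β * (Xz u v z2 - 1) + γ * ev u v := by
  obtain ⟨d1, -, d2⟩ := domZ_one h
  have hsy : 0 < sv u v * yv u v := mul_pos h.sv_pos h.yv_pos
  set B : ℕ → ℝ≥0∞ := fun n => BS (ENNReal.ofReal (sv u v)) (ENNReal.ofReal (yv u v)) (n + 1)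
    with hB
  have hfin : ∀ n, B n ≠ ⊤ := by
    intro n
    have h3 := (BS_z h hs d1).1
    have h4 : B n * ENNReal.ofReal 1 ^ n ≤ ∑' n, B n * ENNReal.ofReal 1 ^ n := ENNReal.le_tsum n
    rw [ENNReal.ofReal_one, one_pow, mul_one] at h4
    refine ne_top_of_le_ne_top ?_ h4
    rw [← ENNReal.ofReal_one, h3]
    exact ENNReal.ofReal_ne_top
  have key : ∀ z, DomZ u v z → HasSum (fun n => (B n).toReal * z ^ n)
      (sv u v * yv u v * (Xz u v z - 1)) := by
    intro z hz
    obtain ⟨h3, h4⟩ := BS_z h hs hz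
    have hz0 := hz.z0
    have h5 : ∀ n, B n * ENNReal.ofReal z ^ n = ENNReal.ofReal ((B n).toReal * z ^ n) := by
      intro n
      rw [ENNReal.ofReal_mul ENNReal.toReal_nonneg, ENNReal.ofReal_toReal (hfin n),
        ENNReal.ofReal_pow hz0.le]
    have h6 : ∑' n, ENNReal.ofReal ((B n).toReal * z ^ n) =
        ENNReal.ofReal (sv u v * yv u v * (Xz u v z - 1)) := by
      rw [← h3]
      exact (tsum_congr h5).symm
    have h0 : ∀ n, 0 ≤ (B n).toReal * z ^ n := fun n =>
      mul_nonneg ENNReal.toReal_nonneg (pow_nonneg hz0.le n)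
    have h7 : Summable fun n => (B n).toReal * z ^ n := by
      have := ENNReal.summable_toReal (f := fun n => ENNReal.ofReal ((B n).toReal * z ^ n))
        (by rw [h6]; exact ENNReal.ofReal_ne_top)
      refine this.congr fun n => ?_
      exact ENNReal.toReal_ofReal (h0 n)
    rw [← ENNReal.ofReal_tsum_of_nonneg h0 h7] at h6
    have h8 := (ENNReal.ofReal_eq_ofReal_iff (tsum_nonneg h0) (mul_nonneg hsy.le h4)).1 h6
    rw [← h8]
    exact h7.hasSum
  have k1 := key z1 h1
  have k2 := key z2 h2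
  have k3 := key 1 d1
  have k4 : HasSum (fun n => (B n).toReal * (α * z1 ^ n + β * z2 ^ n + γ))
      (sv u v * yv u v * (α * (Xz u v z1 - 1) + β * (Xz u v z2 - 1) + γ * ev u v)) := by
    have := ((k1.mul_left α).add (k2.mul_left β)).add (k3.mul_left γ)
    rw [d2] at this
    have e1 : (fun n => (B n).toReal * (α * z1 ^ n + β * z2 ^ n + γ)) = fun n =>
        α * ((B n).toReal * z1 ^ n) + β * ((B n).toReal * z2 ^ n) + γ * ((B n).toReal * 1 ^ n) := by
      funext n
      rw [one_pow]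
      ring
    have e2 : sv u v * yv u v * (α * (Xz u v z1 - 1) + β * (Xz u v z2 - 1) + γ * ev u v) =
        α * (sv u v * yv u v * (Xz u v z1 - 1)) + β * (sv u v * yv u v * (Xz u v z2 - 1)) +
        γ * (sv u v * yv u v * (1 + ev u v - 1)) := by ring
    rw [e1, e2]
    exact this
  have hn : ∀ n, 0 ≤ (B n).toReal * (α * z1 ^ n + β * z2 ^ n + γ) := fun n =>
    mul_nonneg ENNReal.toReal_nonneg (hm n)
  refine ⟨?_, ?_⟩
  · rw [← k4.tsum_eq, ENNReal.ofReal_tsum_of_nonneg hn k4.summable]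
    refine tsum_congr fun n => ?_
    rw [ENNReal.ofReal_mul ENNReal.toReal_nonneg, ENNReal.ofReal_toReal (hfin n)]
  · have := k4.nonneg hn
    exact nonneg_of_mul_nonneg_right this hsy

end PGa

end

section
/-! # Module XNOT: nets which are not parallel / not series -/

namespace PGa
open PGr
open scoped ENNReal Classical

private theorem XNot_split (s y : ℝ≥0∞) (Q : BMap → Prop) :
    Es s y = Esel s y Q + Esel s y (fun M => ¬ Q M) := by
  unfold Es
  rw [ESum.Esel_eq s y (fun _ => True), ESum.Esel_eq s y Q, ESum.Esel_eq s y (fun M => ¬ Q M),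
    ← ENNReal.tsum_add]
  refine tsum_congr fun c => ?_
  by_cases hc : Q c.rep.1
  · simp [hc]
  · simp [hc]

private theorem XNot_solve {a b : ℝ} (ha : 0 ≤ a) (hb : 0 < b) {F : ℝ≥0∞}
    (h : F * ENNReal.ofReal b = ENNReal.ofReal a) : F = ENNReal.ofReal (a / b) := by
  have hb0 : ENNReal.ofReal b ≠ 0 := by
    rw [ne_eq, ENNReal.ofReal_eq_zero]; exact not_le.mpr hb
  rw [ENNReal.ofReal_div_of_pos hb, ← h, ENNReal.mul_div_cancel_right hb0 ENNReal.ofReal_ne_top]

/-- `par_eq` (PGc/SerEq) and `Es = Esel IsPar + Esel (¬ IsPar)` -/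
theorem notPar_closed {s y E : ℝ} (hs : 0 < s) (hE : 0 < E)
    (h : Es (ENNReal.ofReal s) (ENNReal.ofReal y) = ENNReal.ofReal E) :
    Esel (ENNReal.ofReal s) (ENNReal.ofReal y) (fun M => ¬ IsPar M) =
      ENNReal.ofReal (E / (1 + E)) := by
  apply XNot_solve hE.le (by linarith)
  have h1 := XNot_split (ENNReal.ofReal s) (ENNReal.ofReal y) IsPar
  rw [par_eq, h] at h1
  rw [ENNReal.ofReal_add zero_le_one hE.le, ENNReal.ofReal_one, mul_add, mul_one, add_comm]
  exact h1.symm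

/-- `ser_eq` (PGc/SerEq) -/
theorem notSer_closed {s y E : ℝ} (hs : 0 < s) (hE : 0 < E)
    (h : Es (ENNReal.ofReal s) (ENNReal.ofReal y) = ENNReal.ofReal E) :
    Esel (ENNReal.ofReal s) (ENNReal.ofReal y) (fun M => ¬ IsSer M) =
      ENNReal.ofReal (E / (1 + s * E)) := by
  have hsE : 0 < s * E := mul_pos hs hE
  apply XNot_solve hE.le (by linarith)
  have h1 := XNot_split (ENNReal.ofReal s) (ENNReal.ofReal y) IsSer
  rw [ser_eq, h] at h1
  rw [ENNReal.ofReal_add zero_le_one hsE.le, ENNReal.ofReal_one, mul_add, mul_one, add_comm,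
    ENNReal.ofReal_mul hs.le]
  refine Eq.trans ?_ h1.symm
  ring

end PGa

end

section
/-! # Module Words: sums over the letters around the root vertex -/

set_option linter.unusedSectionVars false

namespace PGr
open Equiv Finset
open scoped ENNReal Classical

/-- the state after a letter: `true` is the free state -/
def Words_fr : Ltr → Bool
  | .C => true
  | .G => true
  | .J => false
  | .X => false

/-- a word is allowed, `b` is the state before -/
def Words_ok : (n : ℕ) → Bool → (Fin n → Ltr) → Prop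
  | 0, _, _ => True
  | n + 1, b, v => (v 0 = .C → b = true) ∧ Words_ok n (Words_fr (v 0)) (fun i => v i.succ)

/-- the state at the end -/
def Words_end : (n : ℕ) → Bool → (Fin n → Ltr) → Bool
  | 0, b, _ => b
  | n + 1, _, v => Words_end n (Words_fr (v 0)) (fun i => v i.succ)

theorem Words_sum_succ {n : ℕ} (F : (Fin (n + 1) → Ltr) → ℝ≥0∞) :
    ∑ v, F v = ∑ l : Ltr, ∑ v : Fin n → Ltr, F (Fin.cons l v) := by
  rw [← (Fin.consEquiv (fun _ : Fin (n + 1) => Ltr)).sum_comp, Fintype.sum_prod_type]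
  rfl

theorem Words_sum_ltr (F : Ltr → ℝ≥0∞) :
    ∑ l : Ltr, F l = F .C + (F .J + (F .G + F .X)) := by
  have h : (univ : Finset Ltr) = {.C, .J, .G, .X} := rfl
  rw [h, Finset.sum_insert (by decide), Finset.sum_insert (by decide),
    Finset.sum_insert (by decide), Finset.sum_singleton]

theorem Words_any (x y1 A : ℝ≥0∞) (n : ℕ) (b : Bool) :
    (∑ v : Fin n → Ltr, if Words_ok n b v then ∏ i, lw x y1 A (v i) else 0) =
      if b = true then (wAny x y1 A n).1 else (wAny x y1 A n).2 := by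
  induction n generalizing b with
  | zero => simp [Words_ok, wAny]
  | succ n ih =>
    rw [Words_sum_succ, Words_sum_ltr]
    have key : ∀ l, (∑ v : Fin n → Ltr, if Words_ok (n + 1) b (Fin.cons l v) then
        ∏ i, lw x y1 A ((Fin.cons l v : Fin (n + 1) → Ltr) i) else 0) =
        if (l = .C → b = true) then lw x y1 A l *
          (if Words_fr l = true then (wAny x y1 A n).1 else (wAny x y1 A n).2) else 0 := by
      intro l
      rw [← ih (Words_fr l)]
      by_cases hl : (l = .C → b = true)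
      · rw [if_pos hl, Finset.mul_sum]
        refine Finset.sum_congr rfl fun v _ => ?_
        simp only [Words_ok, Fin.cons_zero, Fin.cons_succ, Fin.prod_univ_succ]
        by_cases h : Words_ok n (Words_fr l) v
        · rw [if_pos ⟨hl, h⟩, if_pos h]
        · rw [if_neg (fun h' => h h'.2), if_neg h, mul_zero]
      · rw [if_neg hl]
        refine Finset.sum_eq_zero fun v _ => ?_
        rw [if_neg]
        rintro ⟨h, -⟩
        exact hl h
    rw [key, key, key, key]
    cases b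
    · simp [Words_fr, lw, wAny]
      ring
    · simp [Words_fr, lw, wAny]
      ring

theorem Words_non (x y1 A : ℝ≥0∞) (n : ℕ) (b : Bool) :
    (∑ v : Fin n → Ltr, if Words_ok n b v ∧ ∃ i, v i ≠ .J then ∏ i, lw x y1 A (v i) else 0) =
      if b = true then (wNon x y1 A n).1 else (wNon x y1 A n).2 := by
  induction n generalizing b with
  | zero => simp [Words_ok, wNon]
  | succ n ih =>
    rw [Words_sum_succ, Words_sum_ltr]
    have key : ∀ l, l ≠ .J → (∑ v : Fin n → Ltr,
        if Words_ok (n + 1) b (Fin.cons l v) ∧ ∃ i, (Fin.cons l v : Fin (n + 1) → Ltr) i ≠ .J then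
        ∏ i, lw x y1 A ((Fin.cons l v : Fin (n + 1) → Ltr) i) else 0) =
        if (l = .C → b = true) then lw x y1 A l *
          (if Words_fr l = true then (wAny x y1 A n).1 else (wAny x y1 A n).2) else 0 := by
      intro l hlJ
      rw [← Words_any x y1 A n (Words_fr l)]
      by_cases hl : (l = .C → b = true)
      · rw [if_pos hl, Finset.mul_sum]
        refine Finset.sum_congr rfl fun v _ => ?_
        simp only [Words_ok, Fin.cons_zero, Fin.cons_succ, Fin.prod_univ_succ]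
        by_cases h : Words_ok n (Words_fr l) v
        · rw [if_pos ⟨⟨hl, h⟩, ⟨0, by simpa using hlJ⟩⟩, if_pos h]
        · rw [if_neg (fun h' => h h'.1.2), if_neg h, mul_zero]
      · rw [if_neg hl]
        refine Finset.sum_eq_zero fun v _ => ?_
        rw [if_neg]
        rintro ⟨⟨h, -⟩, -⟩
        exact hl h
    have keyJ : (∑ v : Fin n → Ltr,
        if Words_ok (n + 1) b (Fin.cons .J v) ∧ ∃ i, (Fin.cons .J v : Fin (n + 1) → Ltr) i ≠ .J then
        ∏ i, lw x y1 A ((Fin.cons .J v : Fin (n + 1) → Ltr) i) else 0) =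
        (wNon x y1 A n).2 := by
      have h0 := ih false
      rw [if_neg (by decide)] at h0
      rw [← h0]
      refine Finset.sum_congr rfl fun v _ => ?_
      have h1 : (Words_ok (n + 1) b (Fin.cons .J v) ∧
          ∃ i, (Fin.cons .J v : Fin (n + 1) → Ltr) i ≠ .J) ↔
          (Words_ok n false v ∧ ∃ i, v i ≠ .J) := by
        rw [Fin.exists_fin_succ]
        simp only [Words_ok, Fin.cons_zero, Fin.cons_succ, Words_fr]
        constructor
        · rintro ⟨⟨-, h1⟩, h2⟩
          exact ⟨h1, h2.resolve_left (fun h => h rfl)⟩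
        · rintro ⟨h1, h2⟩
          exact ⟨⟨fun h => by simp at h, h1⟩, Or.inr h2⟩
      have h2 : ∏ i, lw x y1 A ((Fin.cons .J v : Fin (n + 1) → Ltr) i) =
          ∏ i, lw x y1 A (v i) := by
        rw [Fin.prod_univ_succ]
        simp [lw]
      simp only [h1, h2]
    rw [key _ (by decide), keyJ, key _ (by decide), key _ (by decide)]
    cases b
    · simp [Words_fr, lw, wNon]
      ring
    · simp [Words_fr, lw, wNon]
      ring

theorem Words_free (x y1 A : ℝ≥0∞) (n : ℕ) (b : Bool) :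
    (∑ v : Fin n → Ltr, if Words_ok n b v ∧ Words_end n b v = true then
      ∏ i, lw x y1 A (v i) else 0) =
      if b = true then (wFree x y1 A n).1 else (wFree x y1 A n).2 := by
  induction n generalizing b with
  | zero => cases b <;> simp [Words_ok, Words_end, wFree]
  | succ n ih =>
    rw [Words_sum_succ, Words_sum_ltr]
    have key : ∀ l, (∑ v : Fin n → Ltr, if Words_ok (n + 1) b (Fin.cons l v) ∧
        Words_end (n + 1) b (Fin.cons l v) = true then
        ∏ i, lw x y1 A ((Fin.cons l v : Fin (n + 1) → Ltr) i) else 0) =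
        if (l = .C → b = true) then lw x y1 A l *
          (if Words_fr l = true then (wFree x y1 A n).1 else (wFree x y1 A n).2) else 0 := by
      intro l
      rw [← ih (Words_fr l)]
      by_cases hl : (l = .C → b = true)
      · rw [if_pos hl, Finset.mul_sum]
        refine Finset.sum_congr rfl fun v _ => ?_
        simp only [Words_ok, Words_end, Fin.cons_zero, Fin.cons_succ, Fin.prod_univ_succ]
        by_cases h : Words_ok n (Words_fr l) v ∧ Words_end n (Words_fr l) v = true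
        · rw [if_pos ⟨⟨hl, h.1⟩, h.2⟩, if_pos h]
        · rw [if_neg (fun h' => h ⟨h'.1.2, h'.2⟩), if_neg h, mul_zero]
      · rw [if_neg hl]
        refine Finset.sum_eq_zero fun v _ => ?_
        rw [if_neg]
        rintro ⟨⟨h, -⟩, -⟩
        exact hl h
    rw [key, key, key, key]
    cases b
    · simp [Words_fr, lw, wFree]
      ring
    · simp [Words_fr, lw, wFree]
      ring

theorem Words_ok_iff (W : ℕ → Ltr) (n : ℕ) :
    Words_ok n (Words_fr (W 0)) (fun i : Fin n => W ((i : ℕ) + 1)) ↔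
      ∀ i < n, W (i + 1) = .C → Words_fr (W i) = true := by
  induction n generalizing W with
  | zero => simp [Words_ok]
  | succ n ih =>
    have h0 := ih (fun i => W (i + 1))
    constructor
    · rintro ⟨h1, h2⟩ i hi
      rcases i with _ | i
      · exact h1
      · exact (h0.1 h2) i (by omega)
    · intro h
      exact ⟨h 0 (by omega), h0.2 fun i hi => h (i + 1) (by omega)⟩

theorem Words_end_eq (W : ℕ → Ltr) (n : ℕ) :
    Words_end n (Words_fr (W 0)) (fun i : Fin n => W ((i : ℕ) + 1)) = Words_fr (W n) := by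
  induction n generalizing W with
  | zero => rfl
  | succ n ih => exact ih (fun i => W (i + 1))

theorem Words_fr_iff (l : Ltr) : Words_fr l = true ↔ ¬ (l = .J ∨ l = .X) := by
  cases l <;> simp [Words_fr]

theorem Words_per {M : BMap} : Sum.inr true ∈ Function.periodicPts (fun t : M.T => M.s t) :=
  (M.s.injective.mem_periodicPts (Sum.inr true))

/-- the root vertex has degree at least 2 (`s_ne`) -/
theorem deg_ge {M : BMap} (h : M.IsGood) : 2 ≤ M.deg := by
  have h0 : 0 < M.deg := Function.minimalPeriod_pos_of_mem_periodicPts Words_per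
  have h1 : M.deg ≠ 1 := by
    intro h2
    have h3 := Function.minimalPeriod_eq_one_iff_isFixedPt.1 h2
    exact Good.s_ne h (Sum.inr true) h3
  omega

section main

variable {M : BMap}

/-- the darts at the root vertex -/
noncomputable def Words_p (M : BMap) (i : ℕ) : M.T := (fun t : M.T => M.s t)^[i] (Sum.inr true)

theorem Words_p_zero : Words_p M 0 = Sum.inr true := rfl

theorem Words_p_succ (i : ℕ) : Words_p M (i + 1) = M.s (Words_p M i) :=
  Function.iterate_succ_apply' _ _ _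

theorem Words_p_deg : Words_p M M.deg = Sum.inr true := Function.iterate_minimalPeriod

theorem Words_p_inj {i j : ℕ} (hi : i < M.deg) (hj : j < M.deg) (h : Words_p M i = Words_p M j) :
    i = j :=
  Function.iterate_injOn_Iio_minimalPeriod (f := fun t : M.T => M.s t) (x := Sum.inr true)
    hi hj h

theorem Words_p_same (i : ℕ) : M.s.SameCycle (Sum.inr true) (Words_p M i) := by
  induction i with
  | zero => exact Perm.SameCycle.refl _ _
  | succ i ih =>
    rw [Words_p_succ]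
    exact ih.trans ⟨1, by simp⟩

theorem Words_p_surj {t : M.T} (h : M.s.SameCycle (Sum.inr true) t) :
    ∃ i < M.deg, Words_p M i = t := by
  obtain ⟨k, hk⟩ := h.exists_nat_pow_eq
  refine ⟨k % M.deg, Nat.mod_lt _ (Function.minimalPeriod_pos_of_mem_periodicPts Words_per), ?_⟩
  have h1 : (fun t : M.T => M.s t)^[k % M.deg] (Sum.inr true) =
      (fun t : M.T => M.s t)^[k] (Sum.inr true) := Function.iterate_mod_minimalPeriod_eq
  show (fun t : M.T => M.s t)^[k % M.deg] (Sum.inr true) = t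
  rw [h1, ← hk]
  have h2 : ∀ k : ℕ, ∀ t : M.T, (fun t : M.T => M.s t)^[k] t = (M.s ^ k) t := by
    intro k
    induction k with
    | zero => intro t; rfl
    | succ k ih =>
      intro t
      rw [Function.iterate_succ_apply', ih, pow_succ', Perm.mul_apply]
  exact h2 k _

theorem Words_mark (h : M.IsGood) {m : ℕ} (hm : M.deg = m + 1) (ty : Ltr) (μ : M.T → Ltr) :
    (Mark M.aa (M.aa * M.s) (Sum.inr true) μ ∧ μ (Sum.inr true) = ty) ↔
      (∀ t, ¬ M.s.SameCycle (Sum.inr true) t → μ t = .J) ∧ μ (Sum.inr true) = ty ∧ ty ≠ .J ∧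
      (∀ i < m, μ (Words_p M (i + 1)) = .C → Words_fr (μ (Words_p M i)) = true) ∧
      (ty = .C → Words_fr (μ (Words_p M m)) = true) ∧
      (ty = .C ∨ ∃ i < m, μ (Words_p M (i + 1)) ≠ .J) := by
  have haa : M.aa * (M.aa * M.s) = M.s := by
    ext t
    rw [Perm.mul_apply, Perm.mul_apply, h.inv]
  have hnext : ∀ t, M.aa ((M.aa * M.s) t) = M.s t := by
    intro t
    rw [Perm.mul_apply, h.inv]
  constructor
  · rintro ⟨hM, rfl⟩
    refine ⟨?_, rfl, hM.root, ?_, ?_, ?_⟩
    · intro t ht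
      by_contra hJ
      have := hM.dom t hJ
      rw [haa] at this
      exact ht this
    · intro i hi hC
      rw [Words_fr_iff]
      intro hJX
      have := hM.next _ hJX
      rw [hnext, ← Words_p_succ] at this
      exact this hC
    · intro hC
      rw [Words_fr_iff]
      intro hJX
      have := hM.next _ hJX
      rw [hnext, ← Words_p_succ, ← hm, Words_p_deg] at this
      exact this hC
    · rcases hM.two with h1 | ⟨t, h1, h2⟩
      · exact Or.inl h1
      · right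
        have h3 := hM.dom t h2
        rw [haa] at h3
        obtain ⟨i, hi, rfl⟩ := Words_p_surj h3
        rcases i with _ | i
        · exact absurd Words_p_zero h1
        · exact ⟨i, by omega, h2⟩
  · rintro ⟨h1, h2, h3, h4, h5, h6⟩
    refine ⟨⟨by rw [h2]; exact h3, ?_, ?_, ?_, ?_⟩, h2⟩
    · intro t ht
      rw [haa]
      by_contra hc
      exact ht (h1 t hc)
    · intro t ht hC
      rw [hnext] at hC
      have h7 : M.s.SameCycle (Sum.inr true) (M.s t) := by
        by_contra hc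
        rw [h1 _ hc] at hC
        simp at hC
      have h8 : M.s.SameCycle (Sum.inr true) t := h7.trans (Perm.SameCycle.symm ⟨1, by simp⟩)
      obtain ⟨i, hi, rfl⟩ := Words_p_surj h8
      rw [← Words_p_succ] at hC
      rcases Nat.lt_or_ge i m with h9 | h9
      · exact (Words_fr_iff _).1 (h4 i h9 hC) ht
      · have h10 : i = m := by omega
        subst h10
        rw [← hm, Words_p_deg, h2] at hC
        exact (Words_fr_iff _).1 (h5 hC) ht
    · intro t ht hC
      have h7 : M.s.SameCycle (Sum.inr true) t := by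
        by_contra hc
        exact ht (h1 t hc)
      have h8 : M.s.SameCycle (Sum.inr true) (M.aa t) := by
        by_contra hc
        rw [h1 _ hc] at hC
        simp at hC
      exact Good.noLoop h t (h7.symm.trans h8)
    · rcases h6 with h7 | ⟨i, hi, h7⟩
      · left; rw [h2, h7]
      · right
        refine ⟨_, ?_, h7⟩
        intro h8
        have := Words_p_inj (M := M) (i := i + 1) (j := 0) (by omega) (by omega) h8
        omega

theorem Words_prod {m : ℕ} (hm : M.deg = m + 1) (x y1 A : ℝ≥0∞) {μ : M.T → Ltr}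
    (h1 : ∀ t, ¬ M.s.SameCycle (Sum.inr true) t → μ t = .J) :
    ∏ t, lw x y1 A (μ t) =
      lw x y1 A (μ (Sum.inr true)) * ∏ i : Fin m, lw x y1 A (μ (Words_p M ((i : ℕ) + 1))) := by
  have h2 : ∏ t, lw x y1 A (μ t) =
      ∏ t ∈ (range (m + 1)).image (Words_p M), lw x y1 A (μ t) := by
    symm
    refine Finset.prod_subset (Finset.subset_univ _) ?_
    intro t _ ht
    have h3 : ¬ M.s.SameCycle (Sum.inr true) t := by
      intro h4
      obtain ⟨i, hi, rfl⟩ := Words_p_surj h4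
      exact ht (Finset.mem_image_of_mem _ (Finset.mem_range.2 (by omega)))
    rw [h1 t h3]
    rfl
  rw [h2, Finset.prod_image, Finset.prod_range_succ', mul_comm, Words_p_zero]
  · congr 1
    rw [Finset.prod_range]
  · intro i hi j hj hij
    have hi' := Finset.mem_range.1 hi
    have hj' := Finset.mem_range.1 hj
    exact Words_p_inj (by omega) (by omega) hij

/-- a word as a labelling -/
noncomputable def Words_b (M : BMap) {m : ℕ} (ty : Ltr) (v : Fin m → Ltr) : M.T → Ltr := fun t =>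
  if t = Sum.inr true then ty else
    if h : ∃ i : Fin m, Words_p M ((i : ℕ) + 1) = t then v h.choose else .J

theorem Words_b_root {m : ℕ} (ty : Ltr) (v : Fin m → Ltr) :
    Words_b M ty v (Sum.inr true) = ty := by simp [Words_b]

theorem Words_b_p {m : ℕ} (hm : M.deg = m + 1) (ty : Ltr) (v : Fin m → Ltr) (i : Fin m) :
    Words_b M ty v (Words_p M ((i : ℕ) + 1)) = v i := by
  have h1 : Words_p M ((i : ℕ) + 1) ≠ Sum.inr true := by
    intro h2
    have := Words_p_inj (M := M) (i := i + 1) (j := 0) (by have := i.2; omega) (by omega) h2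
    omega
  have h2 : ∃ j : Fin m, Words_p M ((j : ℕ) + 1) = Words_p M ((i : ℕ) + 1) := ⟨i, rfl⟩
  unfold Words_b
  rw [if_neg h1, dif_pos h2]
  congr 1
  have h3 := h2.choose_spec
  have h4 := Words_p_inj (M := M) (by have := h2.choose.2; omega) (by have := i.2; omega) h3
  exact Fin.ext (by omega)

theorem Words_b_off {m : ℕ} (ty : Ltr) (v : Fin m → Ltr) (t : M.T)
    (ht : ¬ M.s.SameCycle (Sum.inr true) t) : Words_b M ty v t = .J := by
  unfold Words_b
  rw [if_neg, dif_neg]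
  · rintro ⟨i, rfl⟩
    exact ht (Words_p_same _)
  · rintro rfl
    exact ht (Perm.SameCycle.refl _ _)

/-- the condition on words -/
def Words_Q (ty : Ltr) (m : ℕ) (v : Fin m → Ltr) : Prop :=
  ty ≠ .J ∧ Words_ok m (Words_fr ty) v ∧ (ty = .C → Words_end m (Words_fr ty) v = true) ∧
    (ty = .C ∨ ∃ i, v i ≠ .J)

theorem Words_Q_of (h : M.IsGood) {m : ℕ} (hm : M.deg = m + 1) (ty : Ltr) (μ : M.T → Ltr)
    (h0 : μ (Sum.inr true) = ty) (h1 : ∀ t, ¬ M.s.SameCycle (Sum.inr true) t → μ t = .J) :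
    (Mark M.aa (M.aa * M.s) (Sum.inr true) μ ∧ μ (Sum.inr true) = ty) ↔
      Words_Q ty m (fun i => μ (Words_p M ((i : ℕ) + 1))) := by
  rw [Words_mark h hm]
  have e1 := Words_ok_iff (fun i => μ (Words_p M i)) m
  have e2 := Words_end_eq (fun i => μ (Words_p M i)) m
  simp only [Words_p_zero, h0] at e1 e2
  unfold Words_Q
  rw [e1, e2]
  constructor
  · rintro ⟨-, -, h3, h4, h5, h6⟩
    refine ⟨h3, h4, h5, ?_⟩
    rcases h6 with h7 | ⟨i, hi, h7⟩
    · exact Or.inl h7
    · exact Or.inr ⟨⟨i, hi⟩, h7⟩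
  · rintro ⟨h3, h4, h5, h6⟩
    refine ⟨h1, h0, h3, h4, h5, ?_⟩
    rcases h6 with h7 | ⟨i, h7⟩
    · exact Or.inl h7
    · exact Or.inr ⟨i, i.2, h7⟩

theorem Words_transfer (h : M.IsGood) {m : ℕ} (hm : M.deg = m + 1) (x y1 A : ℝ≥0∞) (ty : Ltr) :
    (∑ μ : M.T → Ltr, if Mark M.aa (M.aa * M.s) (Sum.inr true) μ ∧ μ (Sum.inr true) = ty then
      ∏ t, lw x y1 A (μ t) else 0) =
    ∑ v : Fin m → Ltr, if Words_Q ty m v then lw x y1 A ty * ∏ i, lw x y1 A (v i) else 0 := by
  rw [← Finset.sum_filter, ← Finset.sum_filter]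
  refine Finset.sum_bij' (fun μ _ => fun i : Fin m => μ (Words_p M ((i : ℕ) + 1)))
    (fun v _ => Words_b M ty v) ?_ ?_ ?_ ?_ ?_
  · intro μ hμ
    have hμ' := (Finset.mem_filter.1 hμ).2
    have h2 := (Words_mark h hm ty μ).1 hμ'
    exact Finset.mem_filter.2 ⟨mem_univ _, (Words_Q_of h hm ty μ hμ'.2 h2.1).1 hμ'⟩
  · intro v hv
    have hv' := (Finset.mem_filter.1 hv).2
    refine Finset.mem_filter.2 ⟨mem_univ _, ?_⟩
    refine (Words_Q_of h hm ty (Words_b M ty v) (Words_b_root ty v) (Words_b_off ty v)).2 ?_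
    have h3 : (fun i : Fin m => Words_b M ty v (Words_p M ((i : ℕ) + 1))) = v := by
      funext i; exact Words_b_p hm ty v i
    rw [h3]; exact hv'
  · intro μ hμ
    have hμ' := (Finset.mem_filter.1 hμ).2
    have h2 := (Words_mark h hm ty μ).1 hμ'
    funext t
    by_cases ht : M.s.SameCycle (Sum.inr true) t
    · obtain ⟨i, hi, rfl⟩ := Words_p_surj ht
      rcases i with _ | i
      · rw [Words_p_zero, Words_b_root]; exact hμ'.2.symm
      · exact Words_b_p hm ty (fun i : Fin m => μ (Words_p M ((i : ℕ) + 1))) ⟨i, by omega⟩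
    · rw [Words_b_off _ _ _ ht, h2.1 t ht]
  · intro v hv
    funext i
    exact Words_b_p hm ty v i
  · intro μ hμ
    have hμ' := (Finset.mem_filter.1 hμ).2
    have h2 := (Words_mark h hm ty μ).1 hμ'
    rw [Words_prod hm x y1 A h2.1, hμ'.2]

end main

/-- Proof.  For the half map `(aa, aa * s)`: `aa * (aa * s) = s`, the root face is the cycle of `s` at the root dart, and
`aa ((aa * s) t) = s t`; `cc` is automatic (`noLoop`).  So the markings `μ` with root letter `ty` correspond to the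
sequences `w_i = μ (s^i root)`, `0 ≤ i < deg`, with `w_0 = ty`, `w_i = J` or `X` implies `w_{i+1} ≠ C` (cyclically), and
some `w_i ≠ J` with `i > 0` if `ty ≠ C`.  Define by recursion on `n` the finite sums over `Fin n → Ltr`; first letter:
state free / after `J, X`; for `ty = C` the last letter must be `C` or `G` (free state), for `ty = G, X` any end is allowed
and the sequence `J … J` is excluded (`wNon`). -/
theorem words_sum {M : BMap} (h : M.IsGood) (x y1 A : ℝ≥0∞) (ty : Ltr) :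
    (∑ μ : M.T → Ltr, if Mark M.aa (M.aa * M.s) (Sum.inr true) μ ∧ μ (Sum.inr true) = ty then
      ∏ t, lw x y1 A (μ t) else 0) = wSum x y1 A ty (M.deg - 1) := by
  have h2 := deg_ge h
  obtain ⟨m, hm⟩ : ∃ m, M.deg = m + 1 := ⟨M.deg - 1, by omega⟩
  rw [Words_transfer h hm, hm, Nat.add_sub_cancel]
  cases ty with
  | C =>
    have h3 : ∀ v : Fin m → Ltr, Words_Q .C m v ↔
        (Words_ok m true v ∧ Words_end m true v = true) := by
      intro v
      unfold Words_Q
      constructor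
      · rintro ⟨-, h4, h5, -⟩
        exact ⟨h4, h5 rfl⟩
      · rintro ⟨h4, h5⟩
        exact ⟨by decide, h4, fun _ => h5, Or.inl rfl⟩
    have h4 := Words_free x y1 A m true
    rw [if_pos rfl] at h4
    show _ = A * (wFree x y1 A m).1
    rw [← h4, Finset.mul_sum]
    refine Finset.sum_congr rfl fun v _ => ?_
    by_cases h5 : Words_ok m true v ∧ Words_end m true v = true
    · rw [if_pos ((h3 v).2 h5), if_pos h5]; rfl
    · rw [if_neg (fun h6 => h5 ((h3 v).1 h6)), if_neg h5, mul_zero]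
  | J =>
    show _ = (0 : ℝ≥0∞)
    refine Finset.sum_eq_zero fun v _ => ?_
    rw [if_neg (fun h3 => h3.1 rfl)]
  | G =>
    have h3 : ∀ v : Fin m → Ltr, Words_Q .G m v ↔ (Words_ok m true v ∧ ∃ i, v i ≠ .J) := by
      intro v
      unfold Words_Q
      constructor
      · rintro ⟨-, h4, -, h5⟩
        exact ⟨h4, h5.resolve_left (by decide)⟩
      · rintro ⟨h4, h5⟩
        exact ⟨by decide, h4, fun h6 => by simp at h6, Or.inr h5⟩
    have h4 := Words_non x y1 A m true
    rw [if_pos rfl] at h4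
    show _ = x * (wNon x y1 A m).1
    rw [← h4, Finset.mul_sum]
    refine Finset.sum_congr rfl fun v _ => ?_
    by_cases h5 : Words_ok m true v ∧ ∃ i, v i ≠ .J
    · rw [if_pos ((h3 v).2 h5), if_pos h5]; rfl
    · rw [if_neg (fun h6 => h5 ((h3 v).1 h6)), if_neg h5, mul_zero]
  | X =>
    have h3 : ∀ v : Fin m → Ltr, Words_Q .X m v ↔ (Words_ok m false v ∧ ∃ i, v i ≠ .J) := by
      intro v
      unfold Words_Q
      constructor
      · rintro ⟨-, h4, -, h5⟩
        exact ⟨h4, h5.resolve_left (by decide)⟩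
      · rintro ⟨h4, h5⟩
        exact ⟨by decide, h4, fun h6 => by simp at h6, Or.inr h5⟩
    have h4 := Words_non x y1 A m false
    rw [if_neg (by decide)] at h4
    show _ = x * y1 * (wNon x y1 A m).2
    rw [← h4, Finset.mul_sum]
    refine Finset.sum_congr rfl fun v _ => ?_
    by_cases h5 : Words_ok m false v ∧ ∃ i, v i ≠ .J
    · rw [if_pos ((h3 v).2 h5), if_pos h5]; rfl
    · rw [if_neg (fun h6 => h5 ((h3 v).1 h6)), if_neg h5, mul_zero]

theorem Words_link_mark (μ : Bool → Ltr) : Mark (Equiv.boolNot) (1 : Perm Bool) true μ ↔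
    ((μ true = .G ∨ μ true = .X) ∧ (μ false = .G ∨ μ false = .X)) := by
  constructor
  · intro hM
    have h1 := hM.root
    have h2 := hM.next true
    have h3 := hM.next false
    have h4 := hM.cc true
    have h5 := hM.cc false
    have h6 := hM.two
    simp only [Perm.one_apply, Equiv.boolNot_apply, Bool.not_true, Bool.not_false] at h2 h3 h4 h5
    have h7 : μ true = .C ∨ μ false ≠ .J := by
      rcases h6 with h6 | ⟨t, h6, h7⟩
      · exact Or.inl h6
      · cases t
        · exact Or.inr h7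
        · exact absurd rfl h6
    rcases hT : μ true <;> rcases hF : μ false <;> simp_all
  · rintro ⟨h1, h2⟩
    refine ⟨?_, ?_, ?_, ?_, ?_⟩
    · rcases h1 with h1 | h1 <;> rw [h1] <;> decide
    · intro t _
      cases t
      · refine ⟨1, ?_⟩
        simp
      · exact Perm.SameCycle.refl _ _
    · intro t _
      cases t
      · show μ true ≠ .C
        rcases h1 with h1 | h1 <;> rw [h1] <;> decide
      · show μ false ≠ .C
        rcases h2 with h1 | h1 <;> rw [h1] <;> decide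
    · intro t _
      cases t
      · show μ true ≠ .C
        rcases h1 with h1 | h1 <;> rw [h1] <;> decide
      · show μ false ≠ .C
        rcases h2 with h1 | h1 <;> rw [h1] <;> decide
    · right
      refine ⟨false, by decide, ?_⟩
      rcases h2 with h1 | h1 <;> rw [h1] <;> decide

/-- the half map with one edge: the letters of the two corners are `G` or `X` -/
theorem words_link (x y1 A : ℝ≥0∞) (ty : Ltr) :
    (∑ μ : Bool → Ltr, if Mark (Equiv.boolNot) (1 : Perm Bool) true μ ∧ μ true = ty then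
      ∏ t, lw x y1 A (μ t) else 0) =
      (match ty with | .G => x * (x + x * y1) | .X => x * y1 * (x + x * y1) | _ => 0) := by
  simp only [Words_link_mark, Fintype.prod_bool]
  rw [← (Equiv.boolArrowEquivProd Ltr).symm.sum_comp, Fintype.sum_prod_type]
  have hsymm : ∀ p q : Ltr, (Equiv.boolArrowEquivProd Ltr).symm (p, q) true = q ∧
      (Equiv.boolArrowEquivProd Ltr).symm (p, q) false = p := by
    intro p q
    exact ⟨rfl, rfl⟩
  simp only [(hsymm _ _).1, (hsymm _ _).2, Words_sum_ltr]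
  cases ty <;> simp [lw] <;> ring

end PGr

end

section
/-! # Module PerSum: sums over invariant functions -/

set_option linter.unusedSectionVars false

namespace PGr
open Equiv Finset
open scoped ENNReal Classical

section PerSumAux
variable {A : Type*} [Fintype A]

/-- the orbits -/
abbrev PerSum_Q (σ : Perm A) : Type _ := Quotient (Perm.SameCycle.setoid σ)

theorem PerSum_mk {σ : Perm A} {t u : A} :
    (Quotient.mk (Perm.SameCycle.setoid σ) t = Quotient.mk (Perm.SameCycle.setoid σ) u) ↔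
      σ.SameCycle t u := by
  rw [Quotient.eq]
  rfl

theorem PerSum_inv {Λ : Type*} {σ : Perm A} {ω : A → Λ} (h : ∀ t, ω (σ t) = ω t) {t u : A}
    (htu : σ.SameCycle t u) : ω u = ω t := by
  obtain ⟨n, rfl⟩ := htu.exists_nat_pow_eq
  induction n with
  | zero => rfl
  | succ n ih =>
    rw [pow_succ', Perm.mul_apply, h]
    exact ih ⟨n, by simp⟩

/-- an orbit has `k` elements -/
theorem PerSum_card (σ : Perm A) {k : ℕ} (hk : 0 < k)
    (hpow : ∀ t, (σ ^ k) t = t) (hfree : ∀ (t : A) (i : ℕ), 0 < i → i < k → (σ ^ i) t ≠ t)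
    (q : PerSum_Q σ) :
    Fintype.card {t : A // Quotient.mk (Perm.SameCycle.setoid σ) t = q} = k := by
  induction q using Quotient.inductionOn with
  | h u =>
  have key : ∀ n m : ℕ, n < m → m < k → (σ ^ n) u ≠ (σ ^ m) u := by
    intro n m h1 h2 h3
    refine hfree u (m - n) (by omega) (by omega) ?_
    have h4 : (σ ^ m) = σ ^ n * σ ^ (m - n) := by rw [← pow_add]; congr 1; omega
    rw [h4, Perm.mul_apply] at h3
    exact ((σ ^ n).injective h3).symm
  have hmul : ∀ n, (σ ^ (k * n)) u = u := by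
    intro n
    rw [pow_mul]
    have h5 : σ ^ k = 1 := Equiv.ext hpow
    rw [h5, one_pow]
    rfl
  let f : Fin k → {t : A // Quotient.mk (Perm.SameCycle.setoid σ) t =
      Quotient.mk (Perm.SameCycle.setoid σ) u} := fun n =>
    ⟨(σ ^ (n : ℕ)) u, PerSum_mk.2 (Perm.SameCycle.symm ⟨(n : ℕ), by simp⟩)⟩
  have hf : Function.Bijective f := by
    constructor
    · intro n m h
      have h1 : (σ ^ (n : ℕ)) u = (σ ^ (m : ℕ)) u := congrArg Subtype.val h
      rcases lt_trichotomy (n : ℕ) (m : ℕ) with h2 | h2 | h2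
      · exact absurd h1 (key _ _ h2 m.2)
      · exact Fin.ext h2
      · exact absurd h1.symm (key _ _ h2 n.2)
    · rintro ⟨t, ht⟩
      obtain ⟨n, hn⟩ := (PerSum_mk.1 ht).symm.exists_nat_pow_eq
      refine ⟨⟨n % k, Nat.mod_lt _ hk⟩, Subtype.ext ?_⟩
      show (σ ^ (n % k)) u = t
      rw [← hn]
      conv_rhs => rw [← Nat.mod_add_div n k, pow_add, Perm.mul_apply, hmul]
  rw [← Fintype.card_of_bijective hf, Fintype.card_fin]

theorem PerSum_prod (σ : Perm A) {k : ℕ} (hk : 0 < k)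
    (hpow : ∀ t, (σ ^ k) t = t) (hfree : ∀ (t : A) (i : ℕ), 0 < i → i < k → (σ ^ i) t ≠ t)
    {M : Type*} [CommMonoid M] (F : PerSum_Q σ → M) :
    ∏ t, F (Quotient.mk (Perm.SameCycle.setoid σ) t) = ∏ q, F q ^ k := by
  rw [← Fintype.prod_fiberwise (fun t => Quotient.mk (Perm.SameCycle.setoid σ) t)]
  refine Finset.prod_congr rfl fun q _ => ?_
  rw [← PerSum_card σ hk hpow hfree q]
  rw [Finset.prod_congr rfl (g := fun _ => F q) (fun t _ => by rw [t.2])]
  rw [Finset.prod_const, Finset.card_univ]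

theorem PerSum_cardQ (σ : Perm A) {k : ℕ} (hk : 0 < k)
    (hpow : ∀ t, (σ ^ k) t = t) (hfree : ∀ (t : A) (i : ℕ), 0 < i → i < k → (σ ^ i) t ≠ t) :
    Fintype.card (PerSum_Q σ) = Fintype.card A / k := by
  have h := PerSum_prod σ hk hpow hfree (M := Multiplicative ℕ)
    (fun _ => Multiplicative.ofAdd 1)
  rw [Finset.prod_const, Finset.prod_const, Finset.card_univ, Finset.card_univ] at h
  have h2 : Fintype.card A = Fintype.card (PerSum_Q σ) * k := by
    have h3 := congrArg Multiplicative.toAdd h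
    simp only [toAdd_pow, toAdd_ofAdd, smul_eq_mul, mul_one] at h3
    exact h3
  rw [h2, Nat.mul_div_cancel _ hk]

end PerSumAux

/-- the restriction to an invariant set -/
def PerSum_res {T : Type*} (ρ : Perm T) (I : Finset T) (hI : ∀ t, ρ t ∈ I ↔ t ∈ I) :
    Perm {t // t ∈ I} := ρ.subtypePerm hI

theorem PerSum_res_pow {T : Type*} (ρ : Perm T) (I : Finset T) (hI : ∀ t, ρ t ∈ I ↔ t ∈ I)
    (n : ℕ) (t : {t // t ∈ I}) : (((PerSum_res ρ I hI) ^ n) t).1 = (ρ ^ n) t.1 := by
  induction n generalizing t with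
  | zero => rfl
  | succ n ih =>
    rw [pow_succ, Perm.mul_apply, ih, pow_succ, Perm.mul_apply]
    rfl

/-- Let `ρ` act freely with order `k` on `T`, let `I` be an invariant set.  The invariant functions on `I` are the functions on a
set of representatives of the orbits (`|I| / k` of them), and the product over an orbit is a `k`-th power; `prod_tsum`. -/
theorem per_sum {T Λ : Type*} [Fintype T] [DecidableEq T] (ρ : Perm T) {k : ℕ} (hk : 0 < k)
    (hpow : ∀ t, (ρ ^ k) t = t) (hfree : ∀ (t : T) (i : ℕ), 0 < i → i < k → (ρ ^ i) t ≠ t)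
    (I : Finset T) (hI : ∀ t, ρ t ∈ I ↔ t ∈ I) (w : Λ → ℝ≥0∞) :
    (∑' ω : {ω : {t // t ∈ I} → Λ // ∀ t, ω ⟨ρ t.1, (hI t.1).2 t.2⟩ = ω t}, ∏ t, w (ω.1 t)) =
      (∑' x, w x ^ k) ^ (I.card / k) := by
  set σ := PerSum_res ρ I hI with hσ
  have hpow' : ∀ t, (σ ^ k) t = t := fun t => Subtype.ext (by
    rw [hσ, PerSum_res_pow, hpow])
  have hfree' : ∀ t (i : ℕ), 0 < i → i < k → (σ ^ i) t ≠ t := fun t i h1 h2 h3 => by
    have h4 := congrArg Subtype.val h3
    rw [hσ, PerSum_res_pow] at h4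
    exact hfree t.1 i h1 h2 h4
  let e : (PerSum_Q σ → Λ) ≃
      {ω : {t // t ∈ I} → Λ // ∀ t, ω ⟨ρ t.1, (hI t.1).2 t.2⟩ = ω t} :=
    { toFun := fun f => ⟨fun t => f (Quotient.mk _ t), fun t => congrArg f (PerSum_mk.2
        (Perm.SameCycle.symm ⟨1, by rw [zpow_one]; rfl⟩))⟩
      invFun := fun ω q => Quotient.liftOn q ω.1 (fun a b h =>
        (PerSum_inv (σ := σ) (ω := ω.1) ω.2 h).symm)
      left_inv := fun f => by
        funext q
        induction q using Quotient.inductionOn with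
        | h u => rfl
      right_inv := fun ω => rfl }
  rw [← e.tsum_eq]
  have h1 : ∀ f : PerSum_Q σ → Λ, ∏ t, w ((e f).1 t) = ∏ q, w (f q) ^ k := fun f =>
    PerSum_prod σ hk hpow' hfree' (fun q => w (f q))
  rw [tsum_congr h1, ← prod_tsum (fun (_ : PerSum_Q σ) (x : Λ) => w x ^ k), Finset.prod_const,
    Finset.card_univ, PerSum_cardQ σ hk hpow' hfree', Fintype.card_coe]

/-- The same with one orbit distinguished (the orbit of `p`), and functions on `T` with values in `Option Λ` which vanish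
(`none`) outside `I`: the value at `p` is not `none` and has the additional weight `g`. -/
theorem per_sum_root {T Λ : Type*} [Fintype T] [DecidableEq T] (ρ : Perm T) {k : ℕ} (hk : 0 < k)
    (hpow : ∀ t, (ρ ^ k) t = t) (hfree : ∀ (t : T) (i : ℕ), 0 < i → i < k → (ρ ^ i) t ≠ t)
    (I : Finset T) (hI : ∀ t, ρ t ∈ I ↔ t ∈ I) {p : T} (hp : p ∈ I) (g φ : Λ → ℝ≥0∞) :
    (∑' ω : {ω : T → Option Λ // (∀ t, ω t ≠ none → t ∈ I) ∧ (∀ t, ω (ρ t) = ω t) ∧ ω p ≠ none},
      (match ω.1 p with | none => 0 | some x => g x) *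
        ∏ t, (match ω.1 t with | none => 1 | some x => φ x)) =
      (∑' x, g x * φ x ^ k) * (1 + ∑' x, φ x ^ k) ^ (I.card / k - 1) := by
  set σ := PerSum_res ρ I hI with hσ
  have hpow' : ∀ t, (σ ^ k) t = t := fun t => Subtype.ext (by
    rw [hσ, PerSum_res_pow, hpow])
  have hfree' : ∀ t (i : ℕ), 0 < i → i < k → (σ ^ i) t ≠ t := fun t i h1 h2 h3 => by
    have h4 := congrArg Subtype.val h3
    rw [hσ, PerSum_res_pow] at h4
    exact hfree t.1 i h1 h2 h4
  let Ω := {ω : T → Option Λ //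
    (∀ t, ω t ≠ none → t ∈ I) ∧ (∀ t, ω (ρ t) = ω t) ∧ ω p ≠ none}
  let q0 : PerSum_Q σ := Quotient.mk _ ⟨p, hp⟩
  let A : Option Λ → ℝ≥0∞ := fun o => match o with | none => 1 | some x => φ x
  let B : Option Λ → ℝ≥0∞ := fun o => match o with | none => 0 | some x => g x
  let W : PerSum_Q σ → Option Λ → ℝ≥0∞ := fun q o => if q = q0 then B o * A o ^ k else A o ^ k
  let e : Ω → (PerSum_Q σ → Option Λ) := fun ω q =>
    Quotient.liftOn q (fun t => ω.1 t.1) (fun a b h =>
      (PerSum_inv (σ := σ) (ω := fun t => ω.1 t.1) (fun t => ω.2.2.1 t.1) h).symm)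
  have hemk : ∀ (ω : Ω) (t : {t // t ∈ I}), e ω (Quotient.mk _ t) = ω.1 t.1 := fun ω t => rfl
  have hinj : Function.Injective e := by
    intro ω ω' h
    refine Subtype.ext (funext fun t => ?_)
    by_cases ht : t ∈ I
    · have h1 := congrFun h (Quotient.mk _ ⟨t, ht⟩)
      exact h1
    · have h1 : ω.1 t = none := by
        by_contra hne
        exact ht (ω.2.1 t hne)
      have h2 : ω'.1 t = none := by
        by_contra hne
        exact ht (ω'.2.1 t hne)
      rw [h1, h2]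
  have hsupp : Function.support (fun f : PerSum_Q σ → Option Λ => ∏ q, W q (f q)) ⊆
      Set.range e := by
    intro f hf
    have hf0 : f q0 ≠ none := by
      intro hn
      refine hf ?_
      refine Finset.prod_eq_zero (Finset.mem_univ q0) ?_
      show (if q0 = q0 then B (f q0) * A (f q0) ^ k else A (f q0) ^ k) = 0
      rw [if_pos rfl, hn]
      exact zero_mul _
    let F : T → Option Λ := fun t => if ht : t ∈ I then f (Quotient.mk _ ⟨t, ht⟩) else none
    have hF1 : ∀ t (ht : t ∈ I), F t = f (Quotient.mk _ ⟨t, ht⟩) := fun t ht => dif_pos ht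
    have hF2 : ∀ t, t ∉ I → F t = none := fun t ht => dif_neg ht
    refine ⟨⟨F, ?_, ?_, ?_⟩, ?_⟩
    · intro t ht
      by_contra hn
      exact ht (hF2 t hn)
    · intro t
      by_cases ht : t ∈ I
      · rw [hF1 t ht, hF1 (ρ t) ((hI t).2 ht)]
        exact congrArg f (PerSum_mk.2 (Perm.SameCycle.symm ⟨1, by rw [zpow_one]; rfl⟩))
      · rw [hF2 t ht, hF2 (ρ t) (fun h => ht ((hI t).1 h))]
    · rw [hF1 p hp]
      exact hf0
    · funext q
      induction q using Quotient.inductionOn with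
      | h u =>
        rw [hemk]
        exact hF1 u.1 u.2
  have hval : ∀ ω : Ω, B (ω.1 p) * ∏ t, A (ω.1 t) = ∏ q, W q (e ω q) := by
    intro ω
    have h1 : ∏ t, A (ω.1 t) = ∏ t : {t // t ∈ I}, A (ω.1 t.1) := by
      rw [Finset.prod_coe_sort I (fun t => A (ω.1 t))]
      refine (Finset.prod_subset (Finset.subset_univ I) fun t _ ht => ?_).symm
      have h2 : ω.1 t = none := by
        by_contra hne
        exact ht (ω.2.1 t hne)
      rw [h2]
    have h3 : ∏ t : {t // t ∈ I}, A (ω.1 t.1) = ∏ q, A (e ω q) ^ k :=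
      PerSum_prod σ hk hpow' hfree' (fun q => A (e ω q))
    rw [h1, h3, ← Finset.mul_prod_erase Finset.univ (fun q => A (e ω q) ^ k)
      (Finset.mem_univ q0), ← Finset.mul_prod_erase Finset.univ (fun q => W q (e ω q))
      (Finset.mem_univ q0), ← mul_assoc]
    congr 1
    · show _ = (if q0 = q0 then B (e ω q0) * A (e ω q0) ^ k else A (e ω q0) ^ k)
      rw [if_pos rfl]
      rfl
    · refine Finset.prod_congr rfl fun q hq => ?_
      show _ = (if q = q0 then B (e ω q) * A (e ω q) ^ k else A (e ω q) ^ k)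
      rw [if_neg (Finset.ne_of_mem_erase hq)]
  have hsum : (∑' ω : Ω, B (ω.1 p) * ∏ t, A (ω.1 t)) = ∏ q, ∑' o, W q o := by
    rw [tsum_congr hval, hinj.tsum_eq hsupp, prod_tsum]
  have hopt : ∀ f : Option Λ → ℝ≥0∞, ∑' o, f o = f none + ∑' x, f (some x) := fun f =>
    KSum.tsum_opt f
  have hW0 : ∑' o, W q0 o = ∑' x, g x * φ x ^ k := by
    rw [hopt]
    have h1 : W q0 none = 0 := by
      show (if q0 = q0 then B none * A none ^ k else A none ^ k) = 0
      rw [if_pos rfl]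
      exact zero_mul _
    rw [h1, zero_add]
    refine tsum_congr fun x => ?_
    show (if q0 = q0 then B (some x) * A (some x) ^ k else A (some x) ^ k) = _
    rw [if_pos rfl]
  have hW1 : ∀ q, q ≠ q0 → ∑' o, W q o = 1 + ∑' x, φ x ^ k := by
    intro q hq
    rw [hopt]
    congr 1
    · show (if q = q0 then B none * A none ^ k else A none ^ k) = 1
      rw [if_neg hq]
      exact one_pow _
    · refine tsum_congr fun x => ?_
      show (if q = q0 then B (some x) * A (some x) ^ k else A (some x) ^ k) = _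
      rw [if_neg hq]
  refine Eq.trans ?_ (hsum.trans ?_)
  · rfl
  · rw [← Finset.mul_prod_erase Finset.univ (fun q => ∑' o, W q o) (Finset.mem_univ q0), hW0,
      Finset.prod_congr rfl (fun q hq => hW1 q (Finset.ne_of_mem_erase hq)), Finset.prod_const,
      Finset.card_erase_of_mem (Finset.mem_univ q0), Finset.card_univ,
      PerSum_cardQ σ hk hpow' hfree', Fintype.card_coe]

end PGr

end
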