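import Pool.Agent.PGm.M06
import Pool.Agent.PGr.CompInj
import Pool.Agent.PGr.CompNS
import Pool.Agent.PGr.CompPl
import Pool.Agent.PGr.CompV
import Pool.Agent.PGr.RetLib

section
/-! # Module GNS: substitution of nets, cuts -/

set_option linter.unusedSectionVars false

namespace PGr
open Equiv Finset

section
variable (C : GCo) (N : C.K → GB)

/-- the edge in `K` of a dart -/
def GCo.edge : C.T → Option C.K
  | Sum.inl x => some x.1
  | Sum.inr _ => none

/-- the part of a dart after the substitution -/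
def GCo.pt : C.FT N → Option C.K
  | Sum.inl x => some x.1
  | Sum.inr _ => none

/-- the corner after the substitution at a corner of the core -/
noncomputable def GNS_lc : C.T → C.FT N
  | Sum.inl (i, b) => Sum.inl ⟨i, CompNS.lstD (N i) b⟩
  | Sum.inr b => Sum.inr b

theorem GNS_s_lc (x : C.T) : C.Fs N (GNS_lc C N x) = gjump C N (C.s x) := by
  rcases x with ⟨i, b⟩ | b
  · exact C.Fs_out N (CompNS.lstD_spec (N i) b)
  · exact C.Fs_inr N b

theorem GNS_pt_lc (x : C.T) : C.pt N (GNS_lc C N x) = C.edge x := by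
  rcases x with ⟨i, b⟩ | b <;> rfl

theorem GNS_pt_jump (x : C.T) : C.pt N (gjump C N x) = C.edge x := by
  rcases x with ⟨i, b⟩ | b <;> rfl

theorem GNS_lc_inj : Function.Injective (GNS_lc C N) := by
  intro x y h
  have h1 := congrArg (C.Fs N) h
  rw [GNS_s_lc, GNS_s_lc] at h1
  exact C.s.injective (gjump_inj C N h1)

/-- the corners after the substitution -/
theorem GNS_corner (t : C.FT N) :
    (∃ i d d', (N i).1.s (Sum.inl d) = Sum.inl d' ∧ t = Sum.inl ⟨i, d⟩ ∧
      C.Fs N t = Sum.inl ⟨i, d'⟩) ∨ ∃ x, t = GNS_lc C N x := by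
  rcases t with ⟨i, d⟩ | b
  · rcases h : (N i).1.s (Sum.inl d) with d' | b
    · exact Or.inl ⟨i, d, d', h, rfl, C.Fs_in N h⟩
    · refine Or.inr ⟨Sum.inl (i, b), ?_⟩
      rw [CompNS.lstD_unique (N i) h]
      rfl
  · exact Or.inr ⟨Sum.inr b, rfl⟩

/-- The cut of a union of nets and of darts outside `K` is the cut of the corresponding set in the core.  All proofs of
this file are the proofs of `Pool/Agent/PGr/CompNS.lean` with `C.R` instead of `Bool` for the darts which are not
replaced. -/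
theorem GCo.cut_sat (B : Finset C.T) (hB : ∀ i b b', Sum.inl (i, b) ∈ B → Sum.inl (i, b') ∈ B)
    (B' : Finset (C.FT N)) (h1 : ∀ i d b, (Sum.inl ⟨i, d⟩ : C.FT N) ∈ B' ↔ Sum.inl (i, b) ∈ B)
    (h2 : ∀ t, (Sum.inr t : C.FT N) ∈ B' ↔ Sum.inr t ∈ B) : cut (C.Fs N) B' = cut C.s B := by
  have hl : ∀ x, GNS_lc C N x ∈ B' ↔ x ∈ B := by
    rintro (⟨i, b⟩ | t)
    · exact h1 i _ b
    · exact h2 t
  have hj : ∀ x, gjump C N x ∈ B' ↔ x ∈ B := by
    rintro (⟨i, b⟩ | t)
    · exact h1 i _ b
    · exact h2 t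
  have h : bd (C.Fs N) B' = (bd C.s B).map ⟨GNS_lc C N, GNS_lc_inj C N⟩ := by
    ext t
    rw [mem_bd, mem_map]
    simp only [Function.Embedding.coeFn_mk]
    constructor
    · intro ht
      rcases GNS_corner C N t with ⟨i, d, d', -, rfl, h3⟩ | ⟨x, rfl⟩
      · exfalso
        apply ht
        rw [h3, h1 i d true, h1 i d' true]
      · refine ⟨x, ?_, rfl⟩
        rw [GNS_s_lc, hl, hj] at ht
        rw [mem_bd]
        exact ht
    · rintro ⟨x, hx, rfl⟩
      rw [mem_bd] at hx
      rw [GNS_s_lc, hl, hj]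
      exact hx
  unfold cut
  rw [h, card_map]

theorem GCo.part_cl (i : C.K) : Cl (C.Fa N) (C.part N i) := by
  rintro (⟨j, d⟩ | b)
  · rw [C.mem_part, C.mem_part]
    have h0 : C.Fa N (Sum.inl ⟨j, d⟩) = Sum.inl ⟨j, (N j).1.a d⟩ := rfl
    rw [h0]
    constructor
    · rintro ⟨d', hd'⟩
      simp only [Sum.inl.injEq, Sigma.mk.inj_iff] at hd'
      obtain ⟨rfl, -⟩ := hd'
      exact ⟨d, rfl⟩
    · rintro ⟨d', hd'⟩
      simp only [Sum.inl.injEq, Sigma.mk.inj_iff] at hd'
      obtain ⟨rfl, -⟩ := hd'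
      exact ⟨_, rfl⟩
  · rw [C.mem_part, C.mem_part]
    have h0 : C.Fa N (Sum.inr b) = Sum.inr (C.aR b) := rfl
    rw [h0]
    constructor
    · rintro ⟨d', hd'⟩; cases hd'
    · rintro ⟨d', hd'⟩; cases hd'

theorem GNS_mem_part {i : C.K} {t : C.FT N} : t ∈ C.part N i ↔ C.pt N t = some i := by
  rw [C.mem_part]
  constructor
  · rintro ⟨d, rfl⟩; rfl
  · intro h
    rcases t with ⟨j, d⟩ | b
    · have : j = i := Option.some_injective _ h
      subst this
      exact ⟨d, rfl⟩
    · exact absurd h.symm (Option.some_ne_none i)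

theorem GNS_aa_inl (i : C.K) (b : Bool) : C.aa (Sum.inl (i, b)) = Sum.inl (i, !b) := rfl

theorem GCo.part_cut (hC : C.IsGood) (i : C.K) : cut (C.Fs N) (C.part N i) = 4 := by
  have h1 := Good.cut_pair hC (Sum.inl (i, true))
  rw [← h1]
  rw [GNS_aa_inl]
  refine C.cut_sat N _ ?_ _ ?_ ?_
  · intro j b b' h
    simp only [mem_insert, mem_singleton, Sum.inl.injEq, Prod.mk.injEq] at h ⊢
    rcases h with ⟨rfl, -⟩ | ⟨rfl, -⟩ <;> cases b' <;> simp
  · intro j d b
    rw [C.mem_part]
    simp only [mem_insert, mem_singleton, Sum.inl.injEq, Prod.mk.injEq]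
    constructor
    · rintro ⟨d', hd'⟩
      simp only [Sigma.mk.inj_iff] at hd'
      obtain ⟨rfl, -⟩ := hd'
      cases b <;> simp
    · intro h
      have : j = i := by rcases h with h | h <;> exact h.1
      subst this
      exact ⟨d, rfl⟩
  · intro t
    rw [C.mem_part]
    simp

/-- the corner after a core dart is in another edge -/
theorem GCo.edge_s (hC : C.IsGood) (i : C.K) (b : Bool) :
    C.edge (C.s (Sum.inl (i, b))) ≠ some i := by
  intro h
  have h1 := Good.s_ne hC (Sum.inl (i, b))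
  have h2 := Good.s_ne_a hC (Sum.inl (i, b))
  rcases h3 : C.s (Sum.inl (i, b)) with ⟨j, b'⟩ | b'
  · rw [h3] at h
    have h4 : j = i := Option.some_injective _ h
    subst h4
    by_cases hb : b' = b
    · subst hb
      exact h1 h3
    · have hb' : b' = !b := by
        cases b <;> cases b' <;> simp_all
      subst hb'
      exact h2 h3
  · rw [h3] at h
    exact Option.some_ne_none i h.symm

theorem GNS_inl_inj (i : C.K) :
    Function.Injective (fun d : (N i).1.D => (Sum.inl ⟨i, d⟩ : C.FT N)) :=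
  fun _ _ h => sigma_mk_injective (β := fun i => (N i).1.D) (Sum.inl_injective h)

/-- sets of edges inside one net (`CompNS.cut_sub`) -/
theorem GCo.cut_sub (hC : C.IsGood) (i : C.K) (B : Finset (N i).1.D) (B' : Finset (C.FT N))
    (h1 : ∀ t, t ∈ B' ↔ ∃ d ∈ B, t = Sum.inl ⟨i, d⟩) :
    cut (C.Fs N) B' = cut (N i).1.s (B.map ⟨Sum.inl, Sum.inl_injective⟩) := by
  rw [cut_eq_two_mul, cut_eq_two_mul]
  congr 1
  symm
  refine card_bij (fun x _ => Sum.elim (fun d => (Sum.inl ⟨i, d⟩ : C.FT N))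
    (fun _ => Sum.inl ⟨i, fstD (N i) true⟩) x) ?_ ?_ ?_
  · rintro x hx
    rw [mem_filter] at hx
    obtain ⟨-, hx1, hx2⟩ := hx
    rw [mem_map] at hx1
    obtain ⟨d, hd, rfl⟩ := hx1
    rw [mem_filter]
    refine ⟨mem_univ _, (h1 _).2 ⟨d, hd, rfl⟩, fun h => hx2 ?_⟩
    rw [h1] at h
    obtain ⟨d', hd', h⟩ := h
    change C.Fs N (Sum.inl ⟨i, d⟩) = _ at h
    change (N i).1.s (Sum.inl d) ∈ _
    rcases h3 : (N i).1.s (Sum.inl d) with e | b
    · rw [C.Fs_in N h3] at h
      have h4 : e = d' := GNS_inl_inj C N i h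
      rw [h4]
      exact mem_map.2 ⟨d', hd', rfl⟩
    · exfalso
      rw [C.Fs_out N h3] at h
      have h4 := congrArg (C.pt N) h
      rw [GNS_pt_jump] at h4
      exact C.edge_s hC i b h4
  · rintro x hx y hy hxy
    rw [mem_filter] at hx hy
    obtain ⟨-, hx1, -⟩ := hx
    obtain ⟨-, hy1, -⟩ := hy
    rw [mem_map] at hx1 hy1
    obtain ⟨d, hd, rfl⟩ := hx1
    obtain ⟨e, he, rfl⟩ := hy1
    have h4 : d = e := GNS_inl_inj C N i hxy
    rw [h4]
  · rintro t ht
    rw [mem_filter] at ht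
    obtain ⟨-, ht1, ht2⟩ := ht
    rw [h1] at ht1
    obtain ⟨d, hd, rfl⟩ := ht1
    refine ⟨Sum.inl d, ?_, rfl⟩
    rw [mem_filter]
    refine ⟨mem_univ _, mem_map.2 ⟨d, hd, rfl⟩, fun h => ht2 ?_⟩
    rw [mem_map] at h
    obtain ⟨d', hd', h⟩ := h
    rw [C.Fs_in N h.symm, h1]
    exact ⟨d', hd', rfl⟩

/-- a nonempty set of edges inside one net has cut at least four -/
theorem GNS_four_le_sub (hC : C.IsGood) (i : C.K) {B : Finset (C.FT N)}
    (hB : Cl (C.Fa N) B) (hne : B.Nonempty) (hsub : B ⊆ C.part N i) :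
    4 ≤ cut (C.Fs N) B := by
  classical
  have h1 : ∀ t, t ∈ B ↔ ∃ d ∈ (univ.filter fun d : (N i).1.D => (Sum.inl ⟨i, d⟩ : C.FT N) ∈ B),
      t = Sum.inl ⟨i, d⟩ := by
    intro t
    constructor
    · intro ht
      obtain ⟨d, rfl⟩ := C.mem_part N |>.1 (hsub ht)
      exact ⟨d, mem_filter.2 ⟨mem_univ _, ht⟩, rfl⟩
    · rintro ⟨d, hd, rfl⟩
      exact (mem_filter.1 hd).2
  rw [C.cut_sub N hC i _ B h1]
  refine (N i).2.ns _ ?_ ?_ ?_
  · rintro (d | b)
    · simp only [mem_map, mem_filter, mem_univ, true_and, Function.Embedding.coeFn_mk, BMap.aa,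
        ext_inl, Sum.inl.injEq, exists_eq_right]
      exact hB (Sum.inl ⟨i, d⟩)
    · simp [BMap.aa]
  · obtain ⟨t, ht⟩ := hne
    obtain ⟨d, hd, -⟩ := (h1 t).1 ht
    exact ⟨_, mem_map.2 ⟨d, hd, rfl⟩⟩
  · intro h
    have h2 : (Sum.inr true : (N i).1.T) ∈ (univ : Finset (N i).1.T) := mem_univ _
    rw [← h, mem_map] at h2
    obtain ⟨d, -, h3⟩ := h2
    exact Sum.inl_ne_inr h3

/-- absorbing parts -/
theorem GNS_absorb (hC : C.IsGood) {A : Finset (C.FT N)} (hA : Cl (C.Fa N) A) (S : Finset C.K)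
    (hS : ∀ i ∈ S, (A ∩ C.part N i).Nonempty) :
    cut (C.Fs N) (A ∪ S.biUnion (C.part N)) ≤ cut (C.Fs N) A := by
  classical
  induction S using Finset.induction_on with
  | empty => rw [biUnion_empty, union_empty]
  | insert i S hi ih =>
    have h2 := ih fun j hj => hS j (mem_insert_of_mem hj)
    have h3 : A ∪ (insert i S).biUnion (C.part N) = (A ∪ S.biUnion (C.part N)) ∪ C.part N i := by
      rw [biUnion_insert, union_assoc, union_comm (C.part N i)]
    have h4 := cut_inter_union (C.Fs N) (A ∪ S.biUnion (C.part N)) (C.part N i)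
    rw [← h3, C.part_cut N hC i] at h4
    have hcl : Cl (C.Fa N) (S.biUnion (C.part N)) := by
      intro t
      simp only [mem_biUnion]
      constructor
      · rintro ⟨j, hj, h⟩; exact ⟨j, hj, (C.part_cl N j t).1 h⟩
      · rintro ⟨j, hj, h⟩; exact ⟨j, hj, (C.part_cl N j t).2 h⟩
    have h5 : 4 ≤ cut (C.Fs N) ((A ∪ S.biUnion (C.part N)) ∩ C.part N i) := by
      refine GNS_four_le_sub C N hC i ((hA.union hcl).inter (C.part_cl N i)) ?_ inter_subset_right
      obtain ⟨t, ht⟩ := hS i (mem_insert_self i S)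
      rw [mem_inter] at ht
      exact ⟨t, mem_inter.2 ⟨mem_union_left _ ht.1, ht.2⟩⟩
    omega

theorem GNS_bi_cl (S : Finset C.K) : Cl (C.Fa N) (S.biUnion (C.part N)) := by
  intro t
  simp only [mem_biUnion]
  constructor
  · rintro ⟨j, hj, h⟩; exact ⟨j, hj, (C.part_cl N j t).1 h⟩
  · rintro ⟨j, hj, h⟩; exact ⟨j, hj, (C.part_cl N j t).2 h⟩

/-- as `comp_ns` -/
theorem GCo.F_ns (hC : C.IsGood) : NS (C.Fa N) (C.Fs N) := by
  classical
  intro A hA hne hu
  let S : Finset C.K := univ.filter fun i => (A ∩ C.part N i).Nonempty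
  have hS : ∀ i ∈ S, (A ∩ C.part N i).Nonempty := fun i hi => (mem_filter.1 hi).2
  by_cases hall : A ∪ S.biUnion (C.part N) = univ
  · -- all but one part are absorbed
    obtain ⟨t, ht⟩ : ∃ t, t ∉ A := by
      by_contra hcon
      push Not at hcon
      exact hu (eq_univ_of_forall hcon)
    have ht2 : t ∈ A ∪ S.biUnion (C.part N) := by rw [hall]; exact mem_univ _
    rw [mem_union, mem_biUnion] at ht2
    obtain ⟨j, hj, htj⟩ := ht2.resolve_left ht
    have h1 := GNS_absorb C N hC hA (S.erase j) fun i hi => hS i (mem_of_mem_erase hi)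
    refine le_trans ?_ h1
    rw [← cut_compl]
    refine GNS_four_le_sub C N hC j (hA.union (GNS_bi_cl C N _)).compl ?_ ?_
    · refine ⟨t, ?_⟩
      rw [mem_compl, mem_union, mem_biUnion]
      rintro (h | ⟨i, hi, h⟩)
      · exact ht h
      · rw [GNS_mem_part] at h htj
        rw [h] at htj
        exact (mem_erase.1 hi).1 (Option.some_injective _ htj)
    · intro x hx
      rw [mem_compl, mem_union, mem_biUnion] at hx
      push Not at hx
      have hx2 : x ∈ A ∪ S.biUnion (C.part N) := by rw [hall]; exact mem_univ _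
      rw [mem_union, mem_biUnion] at hx2
      obtain ⟨i, hi, hxi⟩ := hx2.resolve_left hx.1
      by_cases hij : i = j
      · exact hij ▸ hxi
      · exact absurd hxi (hx.2 i (mem_erase.2 ⟨hij, hi⟩))
  · have h1 := GNS_absorb C N hC hA S hS
    refine le_trans ?_ h1
    -- the corresponding set of the core
    let B : Finset C.T := univ.filter fun x => gjump C N x ∈ A ∪ S.biUnion (C.part N)
    have hpart : ∀ i d, (Sum.inl ⟨i, d⟩ : C.FT N) ∈ A ∪ S.biUnion (C.part N) ↔ i ∈ S := by
      intro i d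
      rw [mem_union, mem_biUnion]
      constructor
      · rintro (h | ⟨j, hj, h⟩)
        · refine mem_filter.2 ⟨mem_univ _, Sum.inl ⟨i, d⟩, mem_inter.2 ⟨h, ?_⟩⟩
          exact (C.mem_part N).2 ⟨d, rfl⟩
        · rw [GNS_mem_part] at h
          have : i = j := Option.some_injective _ h
          rw [this]; exact hj
      · intro hi
        exact Or.inr ⟨i, hi, (C.mem_part N).2 ⟨d, rfl⟩⟩
    have hBm : ∀ x, x ∈ B ↔ gjump C N x ∈ A ∪ S.biUnion (C.part N) := fun x => by
      simp only [B, mem_filter, mem_univ, true_and]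
    have hBi : ∀ i b, (Sum.inl (i, b) : C.T) ∈ B ↔ i ∈ S := fun i b => by
      rw [hBm]; exact hpart i _
    have hBr : ∀ t, (Sum.inr t : C.T) ∈ B ↔ (Sum.inr t : C.FT N) ∈ A ∪ S.biUnion (C.part N) :=
      fun t => hBm _
    have hclU : Cl (C.Fa N) (A ∪ S.biUnion (C.part N)) := hA.union (GNS_bi_cl C N _)
    have h2 : cut (C.Fs N) (A ∪ S.biUnion (C.part N)) = cut C.s B := by
      refine C.cut_sat N B ?_ _ ?_ ?_
      · intro i b b' h
        rw [hBi] at h ⊢
        exact h
      · intro i d b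
        rw [hpart, hBi]
      · intro t
        exact (hBr t).symm
    rw [h2]
    refine hC.ns B ?_ ?_ ?_
    · rintro (⟨i, b⟩ | t)
      · rw [GNS_aa_inl, hBi, hBi]
      · have h3 : C.aa (Sum.inr t) = Sum.inr (C.aR t) := rfl
        rw [h3, hBr, hBr]
        exact hclU (Sum.inr t)
    · obtain ⟨t, ht⟩ := hne
      rcases t with ⟨i, d⟩ | t
      · exact ⟨Sum.inl (i, true), (hBi i true).2 ((hpart i d).1 (mem_union_left _ ht))⟩
      · exact ⟨Sum.inr t, (hBr t).2 (mem_union_left _ ht)⟩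
    · intro h
      apply hall
      refine eq_univ_of_forall fun t => ?_
      rcases t with ⟨i, d⟩ | t
      · rw [hpart, ← hBi i true, h]; exact mem_univ _
      · rw [← hBr, h]; exact mem_univ _

end

end PGr

end

section
/-! # Module GPl: substitution of nets, planarity -/

set_option linter.unusedSectionVars false

namespace PGr
open Equiv Finset

section
variable (C : GCo) (N : C.K → GB)

/-- the corner after the substitution at a corner of the core -/
noncomputable def GPl_lc : C.T → C.FT N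
  | Sum.inl (i, b) => Sum.inl ⟨i, CompNS.lstD (N i) b⟩
  | Sum.inr t => Sum.inr t

theorem GPl_s_lc (x : C.T) : C.Fs N (GPl_lc C N x) = gjump C N (C.s x) := by
  rcases x with ⟨i, b⟩ | t
  · exact C.Fs_out N (CompNS.lstD_spec (N i) b)
  · exact C.Fs_inr N t

theorem GPl_corner (t : C.FT N) :
    (∃ i d d', (N i).1.s (Sum.inl d) = Sum.inl d' ∧ t = Sum.inl ⟨i, d⟩ ∧
      C.Fs N t = Sum.inl ⟨i, d'⟩) ∨ ∃ x, t = GPl_lc C N x := by
  rcases t with ⟨i, d⟩ | b
  · rcases h : (N i).1.s (Sum.inl d) with d' | b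
    · exact Or.inl ⟨i, d, d', h, rfl, C.Fs_in N h⟩
    · refine Or.inr ⟨Sum.inl (i, b), ?_⟩
      rw [CompNS.lstD_unique (N i) h]
      rfl
  · exact Or.inr ⟨Sum.inr b, rfl⟩

/-- As `comp_pl` in `Pool/Agent/PGr/CompPl.lean` (copy it, with `C.R` instead of `Bool` for the darts which are not
replaced; `CompPl.net` can be used). -/
theorem GCo.F_pl (hC : C.IsGood) : Pl (C.Fa N) (C.Fs N) := by
  intro P Q hPQ
  have hin : ∀ i d d', (N i).1.s (Sum.inl d) = Sum.inl d' →
      P (Sum.inl ⟨i, d⟩) + Q (Sum.inl ⟨i, (N i).1.a d⟩) =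
        P (Sum.inl ⟨i, d'⟩) + Q (Sum.inl ⟨i, d'⟩) := by
    intro i d d' h
    have h1 := hPQ (Sum.inl ⟨i, d⟩)
    rw [C.Fs_in N h] at h1
    exact h1
  choose hh r q n1 n2 n3 n4 n5 n6 using fun i => CompPl.net (N i)
    (fun d => P (Sum.inl ⟨i, d⟩)) (fun d => Q (Sum.inl ⟨i, d⟩)) (hin i)
  -- the core
  let Pc : C.T → ZMod 2 := Sum.elim (fun x => r x.1 x.2) (fun b => P (Sum.inr b))
  let Qc : C.T → ZMod 2 := Sum.elim (fun x => q x.1 (!x.2)) (fun b => Q (Sum.inr b))
  have hjump : ∀ y : C.T, Pc y + Qc y = P (gjump C N y) + Q (gjump C N y) := by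
    rintro (⟨i, b⟩ | b)
    · exact n6 i b
    · rfl
  have hlast : ∀ x : C.T, Pc x + Qc (C.aa x) =
      P (GPl_lc C N x) + Q (C.Fa N (GPl_lc C N x)) := by
    rintro (⟨i, b⟩ | b)
    · have h1 := n5 i b
      change r i b + q i (!(!b)) = _
      rw [Bool.not_not]
      exact h1
    · rfl
  obtain ⟨hc, c1, c2⟩ := hC.pl Pc Qc (by
    intro x
    have h1 := hPQ (GPl_lc C N x)
    rw [GPl_s_lc] at h1
    exact (hlast x).trans (h1.trans (hjump (C.s x)).symm))
  let H : C.FT N → ZMod 2 := fun t => match t with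
    | Sum.inl ⟨i, d⟩ => hh i (Sum.inl d) + hh i (Sum.inr true) + hc (Sum.inl (i, true))
    | Sum.inr b => hc (Sum.inr b)
  have hhb : ∀ i b, hh i (Sum.inr b) = hh i (Sum.inr true) := by
    intro i b
    cases b
    · exact n1 i (Sum.inr true)
    · rfl
  have hcb : ∀ i b, hc (Sum.inl (i, b)) = hc (Sum.inl (i, true)) := by
    intro i b
    cases b
    · exact c1 (Sum.inl (i, true))
    · rfl
  have hH : ∀ i d b, H (Sum.inl ⟨i, d⟩) = hh i (Sum.inl d) + hh i (Sum.inr b) +
      hc (Sum.inl (i, b)) := by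
    intro i d b
    rw [hhb, hcb]
  have hA : ∀ x, H (GPl_lc C N x) + hc x = P (GPl_lc C N x) + Pc x := by
    rintro (⟨i, b⟩ | b)
    · change H (Sum.inl ⟨i, CompNS.lstD (N i) b⟩) + _ = _
      rw [hH i _ b, n3 i b]
      have h1 : P (Sum.inl ⟨i, CompNS.lstD (N i) b⟩) + r i b + hc (Sum.inl (i, b)) +
          hc (Sum.inl (i, b)) = P (Sum.inl ⟨i, CompNS.lstD (N i) b⟩) + r i b +
            (hc (Sum.inl (i, b)) + hc (Sum.inl (i, b))) := by ring
      refine h1.trans ?_
      rw [CompPl.two, add_zero]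
      rfl
    · exact (CompPl.two _).trans (CompPl.two _).symm
  have hB : ∀ y, hc y + H (gjump C N y) = Pc y + P (gjump C N y) := by
    rintro (⟨i, b⟩ | b)
    · change _ + H (Sum.inl ⟨i, fstD (N i) b⟩) = _
      rw [hH i _ b]
      have h2 := n4 i b
      have h1 : hc (Sum.inl (i, b)) + (hh i (Sum.inl (fstD (N i) b)) + hh i (Sum.inr b) +
          hc (Sum.inl (i, b))) = (hh i (Sum.inr b) + hh i (Sum.inl (fstD (N i) b))) +
            (hc (Sum.inl (i, b)) + hc (Sum.inl (i, b))) := by ring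
      refine h1.trans ?_
      rw [CompPl.two, add_zero]
      exact h2
    · exact (CompPl.two _).trans (CompPl.two _).symm
  refine ⟨H, ?_, ?_⟩
  · rintro (⟨i, d⟩ | b)
    · change hh i (Sum.inl ((N i).1.a d)) + _ + _ = hh i (Sum.inl d) + _ + _
      have h1 := n1 i (Sum.inl d)
      have h2 : hh i (Sum.inl ((N i).1.a d)) = hh i (Sum.inl d) := h1
      rw [h2]
    · exact c1 (Sum.inr b)
  · intro t
    rcases GPl_corner C N t with ⟨i, d, d', h, rfl, h2⟩ | ⟨x, rfl⟩
    · rw [h2]
      have h3 := n2 i d d' h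
      rw [hH i d true, hH i d' true]
      have h1 : hh i (Sum.inl d) + hh i (Sum.inr true) + hc (Sum.inl (i, true)) +
          (hh i (Sum.inl d') + hh i (Sum.inr true) + hc (Sum.inl (i, true))) =
          (hh i (Sum.inl d) + hh i (Sum.inl d')) + (hh i (Sum.inr true) + hh i (Sum.inr true)) +
            (hc (Sum.inl (i, true)) + hc (Sum.inl (i, true))) := by ring
      rw [h1, CompPl.two, CompPl.two, add_zero, add_zero, h3]
    · rw [GPl_s_lc]
      have h3 := hA x
      have h4 := hB (C.s x)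
      have h5 := c2 x
      have h6 : hc x + hc (C.s x) = Pc x + Pc (C.s x) := h5
      have h7 : H (GPl_lc C N x) + H (gjump C N (C.s x)) =
          (H (GPl_lc C N x) + hc x) + (hc (C.s x) + H (gjump C N (C.s x))) +
            (hc x + hc (C.s x)) := by
        have h8 : (H (GPl_lc C N x) + hc x) + (hc (C.s x) + H (gjump C N (C.s x))) +
            (hc x + hc (C.s x)) = H (GPl_lc C N x) + H (gjump C N (C.s x)) +
              (hc x + hc x) + (hc (C.s x) + hc (C.s x)) := by ring
        rw [h8, CompPl.two, CompPl.two, add_zero, add_zero]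
      rw [h7, h3, h4, h6]
      have h8 : P (GPl_lc C N x) + Pc x + (Pc (C.s x) + P (gjump C N (C.s x))) +
          (Pc x + Pc (C.s x)) = P (GPl_lc C N x) + P (gjump C N (C.s x)) +
            (Pc x + Pc x) + (Pc (C.s x) + Pc (C.s x)) := by ring
      rw [h8, CompPl.two, CompPl.two, add_zero, add_zero]

/-- `C.T` has at least 4 darts, and every net has at least 2 nonroot darts -/
theorem GCo.F_good (hC : C.IsGood) : Good (C.Fa N) (C.Fs N) where
  inv := by
    rintro (⟨i, d⟩ | t)
    · have h1 := (N i).2.inv (Sum.inl d)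
      have h2 : (N i).1.a ((N i).1.a d) = d := Sum.inl_injective h1
      change (Sum.inl ⟨i, (N i).1.a ((N i).1.a d)⟩ : C.FT N) = _
      rw [h2]
    · have h1 : (Sum.inr (C.aR (C.aR t)) : C.T) = Sum.inr t := hC.inv (Sum.inr t)
      change (Sum.inr (C.aR (C.aR t)) : C.FT N) = _
      rw [Sum.inr_injective h1]
  fpf := by
    rintro (⟨i, d⟩ | t) h
    · have h1 : (Sum.inl ⟨i, (N i).1.a d⟩ : C.FT N) = Sum.inl ⟨i, d⟩ := h
      have h2 := sigma_mk_injective (Sum.inl_injective h1)
      exact (N i).2.fpf (Sum.inl d) (congrArg Sum.inl h2)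
    · have h1 : (Sum.inr (C.aR t) : C.FT N) = Sum.inr t := h
      exact hC.fpf (Sum.inr t) (congrArg Sum.inr (Sum.inr_injective h1))
  ns := C.F_ns N hC
  pl := C.F_pl N hC
  big := by
    have h1 : 4 ≤ Fintype.card ((C.K × Bool) ⊕ C.R) := hC.big
    rw [Fintype.card_sum, Fintype.card_prod, Fintype.card_bool] at h1
    have h3 : ∀ i, 2 ≤ Fintype.card (N i).1.D := by
      intro i
      have h3 : 4 ≤ Fintype.card ((N i).1.D ⊕ Bool) := (N i).2.big
      rw [Fintype.card_sum, Fintype.card_bool] at h3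
      omega
    change 4 ≤ Fintype.card ((Σ i, (N i).1.D) ⊕ C.R)
    rw [Fintype.card_sum, Fintype.card_sigma]
    have h4 : Fintype.card C.K * 2 ≤ ∑ i, Fintype.card (N i).1.D := by
      calc Fintype.card C.K * 2 = ∑ _i : C.K, 2 := by simp
        _ ≤ _ := Finset.sum_le_sum fun i _ => h3 i
    omega

end

end PGr

end

section
/-! # Module GV: substitution of nets, vertices and degrees -/

set_option linter.unusedSectionVars false
set_option linter.unusedVariables false

namespace PGr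
open Equiv Finset

namespace GVAux
open CompVAux (root_uniq exists_nat_pow sc_apply Cyc cyc cyc_eq cyc_s Inn exists_dart dart dart_spec
  dart_root card_inn)

variable (C : GCo) (N : C.K → GB)

theorem pow_root (i : C.K) (b : Bool) : ∀ (n : ℕ) (d : (N i).1.D),
    ((N i).1.s ^ n) (Sum.inl d) = Sum.inr b →
    (C.Fs N).SameCycle (Sum.inl ⟨i, d⟩) (gjump C N (C.s (Sum.inl (i, b)))) := by
  intro n
  induction n with
  | zero => intro d h; simp at h
  | succ n ih =>
    intro d h
    rw [pow_succ, Perm.mul_apply] at h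
    rcases hd : (N i).1.s (Sum.inl d) with d' | b'
    · rw [hd] at h
      have h1 := ih d' h
      have h2 := sc_apply (C.Fs N) (Sum.inl ⟨i, d⟩)
      rw [C.Fs_in N hd] at h2
      exact h2.trans h1
    · have h2 := sc_apply (C.Fs N) (Sum.inl ⟨i, d⟩)
      rw [C.Fs_out N hd] at h2
      have hb : b' = b := by
        refine root_uniq (N i) (x := Sum.inr b') (Perm.SameCycle.refl _ _) ?_
        rw [hd] at h
        exact ⟨(n : ℤ), by simpa using h⟩
      rw [hb] at h2
      exact h2

theorem out_root {i : C.K} {b : Bool} {d : (N i).1.D}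
    (h : (N i).1.s.SameCycle (Sum.inl d) (Sum.inr b)) :
    (C.Fs N).SameCycle (Sum.inl ⟨i, d⟩) (gjump C N (C.s (Sum.inl (i, b)))) := by
  obtain ⟨n, hn⟩ := exists_nat_pow h
  exact pow_root C N i b n d hn

theorem fst_sc (M : GB) (b : Bool) :
    M.1.s.SameCycle (Sum.inl (fstD M b)) (Sum.inr b) := by
  have h := sc_apply M.1.s (Sum.inr b)
  rw [fstD_spec] at h
  exact h.symm

theorem jump_step (y : C.T) :
    (C.Fs N).SameCycle (gjump C N y) (gjump C N (C.s y)) := by
  rcases y with ⟨i, b⟩ | b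
  · exact out_root C N (fst_sc (N i) b)
  · have h := sc_apply (C.Fs N) (Sum.inr b)
    rw [GCo.Fs_inr] at h
    exact h

theorem jump_sc {y y' : C.T} (h : C.s.SameCycle y y') :
    (C.Fs N).SameCycle (gjump C N y) (gjump C N y') := by
  obtain ⟨n, hn⟩ := exists_nat_pow h
  subst hn
  induction n with
  | zero => exact Perm.SameCycle.refl _ _
  | succ n ih =>
    rw [pow_succ', Perm.mul_apply]
    exact (ih ⟨(n : ℤ), by simp⟩).trans (jump_step C N _)

theorem core_sc {i : C.K} {b : Bool} {d : (N i).1.D}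
    (h : (N i).1.s.SameCycle (Sum.inl d) (Sum.inr b)) :
    (C.Fs N).SameCycle (gjump C N (Sum.inl (i, b))) (Sum.inl ⟨i, d⟩) :=
  (jump_step C N (Sum.inl (i, b))).trans (out_root C N h).symm

theorem inner_pow (i : C.K) : ∀ (n : ℕ) (d d' : (N i).1.D),
    (¬ ∃ b, (N i).1.s.SameCycle (Sum.inl d) (Sum.inr b)) →
    ((N i).1.s ^ n) (Sum.inl d) = Sum.inl d' →
    (C.Fs N).SameCycle (Sum.inl ⟨i, d⟩) (Sum.inl ⟨i, d'⟩) := by
  intro n
  induction n with
  | zero =>
    intro d d' _ h
    have h1 : d = d' := by simpa using h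
    rw [h1]
  | succ n ih =>
    intro d d' hb h
    rw [pow_succ, Perm.mul_apply] at h
    rcases hd : (N i).1.s (Sum.inl d) with e | b'
    · rw [hd] at h
      have h2 := sc_apply (C.Fs N) (Sum.inl ⟨i, d⟩)
      rw [C.Fs_in N hd] at h2
      refine h2.trans (ih e d' ?_ h)
      rintro ⟨b, hb'⟩
      apply hb
      refine ⟨b, ?_⟩
      have h3 := sc_apply (N i).1.s (Sum.inl d)
      rw [hd] at h3
      exact h3.trans hb'
    · exfalso
      apply hb
      refine ⟨b', ?_⟩
      have h3 := sc_apply (N i).1.s (Sum.inl d)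
      rw [hd] at h3
      exact h3

open Classical in
/-- the cycle type of a dart of the composite -/
noncomputable def F : (C.FT N) → Cyc C.s ⊕ (Σ i, Cyc (N i).1.s)
  | Sum.inr b => Sum.inl (cyc C.s (Sum.inr b))
  | Sum.inl ⟨i, d⟩ =>
    if h : ∃ b, (N i).1.s.SameCycle (Sum.inl d) (Sum.inr b) then
      Sum.inl (cyc C.s (Sum.inl (i, h.choose)))
    else Sum.inr ⟨i, cyc (N i).1.s (Sum.inl d)⟩

theorem F_core {i : C.K} {b : Bool} {d : (N i).1.D}
    (h : (N i).1.s.SameCycle (Sum.inl d) (Sum.inr b)) :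
    F C N (Sum.inl ⟨i, d⟩) = Sum.inl (cyc C.s (Sum.inl (i, b))) := by
  have h1 : ∃ b, (N i).1.s.SameCycle (Sum.inl d) (Sum.inr b) := ⟨b, h⟩
  have h2 : h1.choose = b := root_uniq (N i) h1.choose_spec h
  simp only [F, dif_pos h1]
  rw [h2]

theorem F_inner {i : C.K} {d : (N i).1.D}
    (h : ¬ ∃ b, (N i).1.s.SameCycle (Sum.inl d) (Sum.inr b)) :
    F C N (Sum.inl ⟨i, d⟩) = Sum.inr ⟨i, cyc (N i).1.s (Sum.inl d)⟩ := by
  simp only [F, dif_neg h]

theorem F_jump (y : C.T) : F C N (gjump C N y) = Sum.inl (cyc C.s y) := by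
  rcases y with ⟨i, b⟩ | b
  · exact F_core C N (fst_sc (N i) b)
  · rfl

theorem F_s (x : C.FT N) : F C N ((C.Fs N) x) = F C N x := by
  rcases x with ⟨i, d⟩ | b
  · rcases hd : (N i).1.s (Sum.inl d) with e | b
    · rw [C.Fs_in N hd]
      have h3 := sc_apply (N i).1.s (Sum.inl d)
      rw [hd] at h3
      by_cases hb : ∃ b, (N i).1.s.SameCycle (Sum.inl d) (Sum.inr b)
      · obtain ⟨b, hb⟩ := hb
        rw [F_core C N hb, F_core C N (h3.symm.trans hb)]
      · have hb' : ¬ ∃ b, (N i).1.s.SameCycle (Sum.inl e) (Sum.inr b) := by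
          rintro ⟨b, hb'⟩
          exact hb ⟨b, h3.trans hb'⟩
        rw [F_inner C N hb, F_inner C N hb', cyc_eq.2 h3.symm]
    · rw [C.Fs_out N hd]
      have h3 := sc_apply (N i).1.s (Sum.inl d)
      rw [hd] at h3
      rw [F_core C N h3, F_jump, cyc_s]
  · rw [GCo.Fs_inr, F_jump, cyc_s]
    rfl

theorem F_sc {x y : C.FT N} (h : (C.Fs N).SameCycle x y) : F C N x = F C N y := by
  obtain ⟨n, hn⟩ := exists_nat_pow h
  subst hn
  clear h
  induction n with
  | zero => rfl
  | succ n ih =>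
    rw [pow_succ', Perm.mul_apply, F_s]
    exact ih

/-- cycles of the composite from the cycles of the core and the inner cycles of the nets -/
noncomputable def G : Cyc C.s ⊕ (Σ i, Inn (N i)) → Cyc (C.Fs N)
  | Sum.inl q => Quotient.lift (fun y => cyc (C.Fs N) (gjump C N y))
      (fun _ _ h => cyc_eq.2 (jump_sc C N h)) q
  | Sum.inr ⟨i, q⟩ => cyc (C.Fs N) (Sum.inl ⟨i, dart (N i) q⟩)

/-- `F` on cycles -/
noncomputable def Fb : Cyc (C.Fs N) → Cyc C.s ⊕ (Σ i, Cyc (N i).1.s) :=
  Quotient.lift (F C N) (fun _ _ h => F_sc C N h)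

/-- the embedding -/
def emb : Cyc C.s ⊕ (Σ i, Inn (N i)) → Cyc C.s ⊕ (Σ i, Cyc (N i).1.s)
  | Sum.inl q => Sum.inl q
  | Sum.inr ⟨i, q⟩ => Sum.inr ⟨i, q.1⟩

theorem emb_inj : Function.Injective (emb C N) := by
  rintro (q | ⟨i, q⟩) (q' | ⟨i', q'⟩) h
  · simpa [emb] using h
  · simp [emb] at h
  · simp [emb] at h
  · simp only [emb, Sum.inr.injEq, Sigma.mk.inj_iff] at h
    obtain ⟨rfl, h⟩ := h
    have := Subtype.ext (eq_of_heq h)
    rw [this]

theorem Fb_G (z : Cyc C.s ⊕ (Σ i, Inn (N i))) : Fb C N (G C N z) = emb C N z := by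
  rcases z with q | ⟨i, q⟩
  · induction q using Quotient.inductionOn with
    | _ y => exact F_jump C N y
  · have h1 : Fb C N (G C N (Sum.inr ⟨i, q⟩)) = F C N (Sum.inl ⟨i, dart (N i) q⟩) := rfl
    rw [h1, F_inner C N (dart_root (N i) q)]
    simp only [emb]
    rw [← dart_spec]

theorem G_bij : Function.Bijective (G C N) := by
  constructor
  · intro z z' h
    apply emb_inj C N
    rw [← Fb_G, ← Fb_G, h]
  · intro w
    induction w using Quotient.inductionOn with
    | _ x =>
      rcases x with ⟨i, d⟩ | b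
      · by_cases hb : ∃ b, (N i).1.s.SameCycle (Sum.inl d) (Sum.inr b)
        · obtain ⟨b, hb⟩ := hb
          refine ⟨Sum.inl (cyc C.s (Sum.inl (i, b))), ?_⟩
          exact cyc_eq.2 (core_sc C N hb)
        · have hq : ¬ ∃ b : Bool, cyc (N i).1.s (Sum.inl d) = cyc (N i).1.s (Sum.inr b) := by
            rintro ⟨b, h⟩
            exact hb ⟨b, cyc_eq.1 h⟩
          refine ⟨Sum.inr ⟨i, ⟨cyc (N i).1.s (Sum.inl d), hq⟩⟩, ?_⟩
          refine cyc_eq.2 ?_
          have h1 := cyc_eq.1 (dart_spec (N i) ⟨cyc (N i).1.s (Sum.inl d), hq⟩)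
          obtain ⟨n, hn⟩ := exists_nat_pow h1
          exact (inner_pow C N i n d _ hb hn).symm
      · exact ⟨Sum.inl (cyc C.s (Sum.inr b)), rfl⟩

/-- the darts of a net at a pole -/
theorem card_pole (M : GB) (b : Bool) :
    (univ.filter fun d : M.1.D => M.1.s.SameCycle (Sum.inr b) (Sum.inl d)).card =
      dgs M.1.s (Sum.inr b) - 1 := by
  have h1 : (univ.filter fun y : M.1.T => M.1.s.SameCycle (Sum.inr b) y) =
      insert (Sum.inr b) ((univ.filter fun d : M.1.D =>
        M.1.s.SameCycle (Sum.inr b) (Sum.inl d)).map ⟨Sum.inl, Sum.inl_injective⟩) := by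
    ext y
    rcases y with d | b'
    · simp
    · simp only [mem_filter, mem_univ, true_and, mem_insert, Sum.inr.injEq, mem_map,
        Function.Embedding.coeFn_mk, reduceCtorEq, and_false, exists_false, or_false]
      constructor
      · intro h
        exact (root_uniq M (Perm.SameCycle.refl _ (Sum.inr b)) h).symm
      · rintro rfl
        exact Perm.SameCycle.refl _ _
  unfold dgs
  rw [minimalPeriod_eq_card, h1, card_insert_of_notMem (by simp), card_map]
  simp

end GVAux

section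
variable (C : GCo) (N : C.K → GB)
open CompVAux (root_uniq exists_nat_pow sc_apply Cyc cyc cyc_eq cyc_s Inn card_inn)

/-- the vertices at core darts: copy `jump_sc`, `core_sc` of `Pool/Agent/PGr/CompV.lean` -/
theorem GCo.sc_jump {x y : C.T} :
    (C.Fs N).SameCycle (gjump C N x) (gjump C N y) ↔ C.s.SameCycle x y := by
  constructor
  · intro h
    have h1 := GVAux.F_sc C N h
    rw [GVAux.F_jump, GVAux.F_jump] at h1
    exact cyc_eq.1 (Sum.inl_injective h1)
  · exact GVAux.jump_sc C N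

/-- a dart of a net at a pole -/
theorem GCo.sc_pole {i : C.K} {b : Bool} {d : (N i).1.D}
    (h : (N i).1.s.SameCycle (Sum.inl d) (Sum.inr b)) :
    (C.Fs N).SameCycle (gjump C N (Sum.inl (i, b))) (Sum.inl ⟨i, d⟩) :=
  GVAux.core_sc C N h

/-- a dart of a net which is not at a pole: its vertex consists of darts of the same net -/
theorem GCo.sc_inner {i : C.K} {d : (N i).1.D}
    (h : ∀ b, ¬ (N i).1.s.SameCycle (Sum.inl d) (Sum.inr b)) (t : C.FT N) :
    (C.Fs N).SameCycle (Sum.inl ⟨i, d⟩) t ↔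
      ∃ d', t = Sum.inl ⟨i, d'⟩ ∧ (N i).1.s.SameCycle (Sum.inl d) (Sum.inl d') := by
  have h0 : ¬ ∃ b, (N i).1.s.SameCycle (Sum.inl d) (Sum.inr b) := fun ⟨b, hb⟩ => h b hb
  constructor
  · intro ht
    have h1 := GVAux.F_sc C N ht
    rw [GVAux.F_inner C N h0] at h1
    rcases t with ⟨j, e⟩ | b
    · by_cases hb : ∃ b, (N j).1.s.SameCycle (Sum.inl e) (Sum.inr b)
      · obtain ⟨b, hb⟩ := hb
        rw [GVAux.F_core C N hb] at h1
        exact absurd h1 Sum.inr_ne_inl
      · rw [GVAux.F_inner C N hb] at h1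
        have h2 := Sum.inr_injective h1
        obtain rfl : i = j := congrArg Sigma.fst h2
        have h3 := eq_of_heq (Sigma.mk.inj h2).2
        exact ⟨e, rfl, cyc_eq.1 h3⟩
    · exact absurd h1 Sum.inr_ne_inl
  · rintro ⟨d', rfl, hd⟩
    obtain ⟨n, hn⟩ := exists_nat_pow hd
    exact GVAux.inner_pow C N i n d d' h0 hn

/-- as `nV_comp` -/
theorem GCo.F_nV (hC : C.IsGood) :
    nV (C.Fs N) + 2 * Fintype.card C.K = nV C.s + ∑ i, nV (N i).1.s := by
  have h1 := Nat.card_congr (Equiv.ofBijective _ (GVAux.G_bij C N))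
  rw [Nat.card_sum, Nat.card_sigma] at h1
  have h2 : ∑ i, nV (N i).1.s = ∑ i, Nat.card (Inn (N i)) + 2 * Fintype.card C.K := by
    rw [← Finset.sum_congr rfl (fun i _ => card_inn (N i)), sum_add_distrib]
    simp [mul_comm]
  rw [h2]
  unfold nV
  have h3 : Nat.card (Cyc C.s) + ∑ i, Nat.card (Inn (N i)) = Nat.card (Cyc (C.Fs N)) := h1
  unfold Cyc at h3
  omega

/-- weight of a core dart: the number of darts of the net at this pole -/
noncomputable def GCo.wt : C.T → ℕ
  | Sum.inl (i, b) => dgs (N i).1.s (Sum.inr b) - 1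
  | Sum.inr _ => 1

open Classical in
/-- the core dart of a dart -/
noncomputable def GVAux.κ : C.FT N → C.T
  | Sum.inr b => Sum.inr b
  | Sum.inl ⟨i, d⟩ =>
    if h : ∃ b, (N i).1.s.SameCycle (Sum.inl d) (Sum.inr b) then Sum.inl (i, h.choose)
    else Sum.inl (i, true)

theorem GVAux.κ_core {i : C.K} {b : Bool} {d : (N i).1.D}
    (h : (N i).1.s.SameCycle (Sum.inl d) (Sum.inr b)) :
    GVAux.κ C N (Sum.inl ⟨i, d⟩) = Sum.inl (i, b) := by
  have h1 : ∃ b, (N i).1.s.SameCycle (Sum.inl d) (Sum.inr b) := ⟨b, h⟩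
  have h2 : h1.choose = b := root_uniq (N i) h1.choose_spec h
  simp only [GVAux.κ, dif_pos h1]
  rw [h2]

/-- a dart at the vertex of a core dart is a core dart or at a pole -/
theorem GVAux.at_core {x : C.T} {t : C.FT N} (h : (C.Fs N).SameCycle (gjump C N x) t) :
    C.s.SameCycle x (GVAux.κ C N t) ∧ ((∃ b, t = Sum.inr b) ∨
      ∃ i d b, t = Sum.inl ⟨i, d⟩ ∧ (N i).1.s.SameCycle (Sum.inl d) (Sum.inr b)) := by
  have h1 := GVAux.F_sc C N h
  rw [GVAux.F_jump] at h1
  rcases t with ⟨i, d⟩ | b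
  · by_cases hb : ∃ b, (N i).1.s.SameCycle (Sum.inl d) (Sum.inr b)
    · obtain ⟨b, hb⟩ := hb
      rw [GVAux.F_core C N hb] at h1
      rw [GVAux.κ_core C N hb]
      exact ⟨cyc_eq.1 (Sum.inl_injective h1), Or.inr ⟨i, d, b, rfl, hb⟩⟩
    · rw [GVAux.F_inner C N hb] at h1
      exact absurd h1 Sum.inl_ne_inr
  · exact ⟨cyc_eq.1 (Sum.inl_injective h1), Or.inl ⟨b, rfl⟩⟩

/-- The degree of a vertex of the core after the substitution: its darts are the darts of the nets `i` at the poles
`b` with `inl (i, b)` at this vertex, and the darts `inr t` at this vertex (`sc_jump`, `sc_pole`, `sc_inner`, and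
`minimalPeriod_eq_card`). -/
theorem GCo.F_dg (hC : C.IsGood) (x : C.T) :
    dgs (C.Fs N) (gjump C N x) = ∑ y ∈ (univ : Finset C.T).filter (fun y => C.s.SameCycle x y),
      C.wt N y := by
  classical
  have h1 : dgs (C.Fs N) (gjump C N x) =
      (univ.filter fun t => (C.Fs N).SameCycle (gjump C N x) t).card := by
    unfold dgs
    rw [minimalPeriod_eq_card]
  rw [h1, Finset.card_eq_sum_card_fiberwise (f := GVAux.κ C N)
    (t := (univ : Finset C.T).filter (fun y => C.s.SameCycle x y))]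
  · refine Finset.sum_congr rfl fun y hy => ?_
    have hxy : C.s.SameCycle x y := (mem_filter.1 hy).2
    rcases y with ⟨i, b⟩ | b
    · have h2 : ((univ.filter fun t => (C.Fs N).SameCycle (gjump C N x) t).filter
          fun t => GVAux.κ C N t = Sum.inl (i, b)) =
          (univ.filter fun d : (N i).1.D => (N i).1.s.SameCycle (Sum.inr b) (Sum.inl d)).map
            ⟨fun d => (Sum.inl ⟨i, d⟩ : C.FT N), fun d d' h => by
              have h3 := Sum.inl_injective h
              exact eq_of_heq (Sigma.mk.inj h3).2⟩ := by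
        ext t
        simp only [mem_filter, mem_univ, true_and, mem_map, Function.Embedding.coeFn_mk]
        constructor
        · rintro ⟨ht, hk⟩
          rcases (GVAux.at_core C N ht).2 with ⟨b', rfl⟩ | ⟨j, d, b', rfl, hd⟩
          · exact absurd hk Sum.inr_ne_inl
          · rw [GVAux.κ_core C N hd] at hk
            have h3 := Sum.inl_injective hk
            simp only [Prod.mk.injEq] at h3
            obtain ⟨rfl, rfl⟩ := h3
            exact ⟨d, hd.symm, rfl⟩
        · rintro ⟨d, hd, rfl⟩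
          exact ⟨((C.sc_jump N).2 hxy).trans (C.sc_pole N hd.symm), GVAux.κ_core C N hd.symm⟩
      rw [h2, card_map, GVAux.card_pole]
      rfl
    · have h2 : ((univ.filter fun t => (C.Fs N).SameCycle (gjump C N x) t).filter
          fun t => GVAux.κ C N t = Sum.inr b) = {(Sum.inr b : C.FT N)} := by
        ext t
        simp only [mem_filter, mem_univ, true_and, mem_singleton]
        constructor
        · rintro ⟨ht, hk⟩
          rcases (GVAux.at_core C N ht).2 with ⟨b', rfl⟩ | ⟨j, d, b', rfl, hd⟩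
          · have h3 : (Sum.inr b' : C.T) = Sum.inr b := hk
            rw [Sum.inr_injective h3]
          · rw [GVAux.κ_core C N hd] at hk
            exact absurd hk Sum.inl_ne_inr
        · rintro rfl
          exact ⟨(C.sc_jump N (x := x) (y := Sum.inr b)).2 hxy, rfl⟩
      rw [h2, card_singleton]
      rfl
  · intro t ht
    have ht' := (mem_filter.1 (Finset.mem_coe.1 ht)).2
    exact Finset.mem_coe.2 (mem_filter.2 ⟨mem_univ _, (GVAux.at_core C N ht').1⟩)

theorem GCo.F_card : Fintype.card (C.FT N) = (∑ i, Fintype.card (N i).1.D) + Fintype.card C.R := by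
  unfold GCo.FT
  rw [Fintype.card_sum, Fintype.card_sigma]

end

end PGr

end

section
/-! # Module StarNS: the star is nonseparable -/

set_option linter.unusedSectionVars false

namespace PGr
open Equiv Finset

section
variable {R : Type} [Fintype R] [DecidableEq R] {a s : Perm R} {K : Finset R} {p : R}

theorem StarNS_mem_bd {T : Type*} [Fintype T] [DecidableEq T] {s : Perm T} {A : Finset T} {t : T} :
    t ∈ bd s A ↔ ¬ (t ∈ A ↔ s t ∈ A) := by
  simp [bd]

theorem StarNS_cut_compl {T : Type*} [Fintype T] [DecidableEq T] (s : Perm T) (A : Finset T) :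
    cut s Aᶜ = cut s A := by
  unfold cut
  congr 1
  ext t
  rw [StarNS_mem_bd, StarNS_mem_bd, mem_compl, mem_compl, not_iff_not]
  exact not_iff_not

theorem StarNS_four {T : Type*} [DecidableEq T] {S : Finset T} {w x y z : T} (hw : w ∈ S)
    (hx : x ∈ S) (hy : y ∈ S) (hz : z ∈ S) (h1 : w ≠ x) (h2 : w ≠ y) (h3 : w ≠ z) (h4 : x ≠ y)
    (h5 : x ≠ z) (h6 : y ≠ z) : 4 ≤ S.card := by
  have hsub : ({w, x, y, z} : Finset T) ⊆ S := by
    intro t ht
    simp only [mem_insert, mem_singleton] at ht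
    rcases ht with rfl | rfl | rfl | rfl <;> assumption
  have hcard : ({w, x, y, z} : Finset T).card = 4 := by
    rw [card_insert_of_notMem, card_insert_of_notMem, card_insert_of_notMem, card_singleton]
    · simp [h6]
    · simp [h4, h5]
    · simp [h1, h2, h3]
  rw [← hcard]
  exact card_le_card hsub

theorem StarNS_ret (hf : ∀ x ∈ K, (a * s).SameCycle p x) (κ κ' : {x // x ∈ K}) :
    (ret (a * s) K).SameCycle κ κ' :=
  (sameCycle_ret (a * s) K κ κ').2 ((hf κ.1 κ.2).symm.trans (hf κ'.1 κ'.2))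

theorem StarNS_ret_ne (hK : 2 ≤ K.card) (hf : ∀ x ∈ K, (a * s).SameCycle p x) (κ : {x // x ∈ K}) :
    ret (a * s) K κ ≠ κ := by
  intro he
  have h1 : 1 < Fintype.card {x // x ∈ K} := by
    rw [Fintype.card_coe]
    omega
  obtain ⟨κ', hne⟩ := Fintype.exists_ne_of_one_lt_card h1 κ
  obtain ⟨i, hi⟩ := StarNS_ret hf κ κ'
  apply hne
  rw [← hi]
  exact Perm.zpow_apply_eq_self_of_apply_eq_self he i

theorem StarNS_bd_mem {B : Finset (starC a s K).T} {x : R} (hx : x ∈ K) :
    (Sum.inr x : (starC a s K).T) ∈ bd (starC a s K).s B ↔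
      ¬ ((Sum.inr x : (starC a s K).T) ∈ B ↔ (Sum.inl (⟨x, hx⟩, false) : (starC a s K).T) ∈ B) := by
  rw [StarNS_mem_bd, starC_inr_mem a s K hx]

theorem StarNS_bd_not_mem {B : Finset (starC a s K).T} {x : R} (hx : x ∉ K) :
    (Sum.inr x : (starC a s K).T) ∈ bd (starC a s K).s B ↔
      ¬ ((Sum.inr x : (starC a s K).T) ∈ B ↔ (Sum.inr (s x) : (starC a s K).T) ∈ B) := by
  rw [StarNS_mem_bd, starC_inr_not_mem a s K hx]
  rfl

/-- the case in which the closed set contains only spokes -/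
theorem StarNS_spokes (hK : 2 ≤ K.card) (hf : ∀ x ∈ K, (a * s).SameCycle p x)
    {B : Finset (starC a s K).T} (hB : Cl (starC a s K).aa B) (hne : B.Nonempty)
    (h0 : ∀ x : R, (Sum.inr x : (starC a s K).T) ∉ B) : 4 ≤ cut (starC a s K).s B := by
  have hcl : ∀ (κ : {x // x ∈ K}) (b c : Bool), (Sum.inl (κ, b) : (starC a s K).T) ∈ B →
      (Sum.inl (κ, c) : (starC a s K).T) ∈ B := by
    intro κ b c h
    by_cases hbc : b = c
    · rwa [← hbc]
    · have h1 := (hB (Sum.inl (κ, b))).2 h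
      have h2 : (starC a s K).aa (Sum.inl (κ, b)) = Sum.inl (κ, !b) := rfl
      rw [h2] at h1
      have h3 : (!b) = c := by cases b <;> cases c <;> simp_all
      rwa [h3] at h1
  obtain ⟨κ, hκ⟩ : ∃ κ : {x // x ∈ K}, (Sum.inl (κ, true) : (starC a s K).T) ∈ B := by
    obtain ⟨⟨κ, b⟩ | x, ht⟩ := hne
    · exact ⟨κ, hcl κ b true ht⟩
    · exact absurd ht (h0 x)
  have hb1 : ∀ κ : {x // x ∈ K}, (Sum.inl (κ, true) : (starC a s K).T) ∈ B →
      (Sum.inr κ.1 : (starC a s K).T) ∈ bd (starC a s K).s B := by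
    intro κ hκ
    rw [StarNS_mem_bd, starC_inr_mem a s K κ.2]
    intro h
    exact h0 κ.1 (h.2 (hcl κ true false hκ))
  have hb2 : ∀ κ : {x // x ∈ K}, (Sum.inl (κ, true) : (starC a s K).T) ∈ B →
      (Sum.inl (κ, false) : (starC a s K).T) ∈ bd (starC a s K).s B := by
    intro κ hκ
    rw [StarNS_mem_bd, starC_false a s K κ]
    intro h
    exact h0 _ (h.1 (hcl κ true false hκ))
  by_cases huniq : ∃ κ' : {x // x ∈ K}, κ' ≠ κ ∧ (Sum.inl (κ', true) : (starC a s K).T) ∈ B
  · obtain ⟨κ', hne', hκ'⟩ := huniq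
    have hv : κ.1 ≠ κ'.1 := fun h => hne' (Subtype.ext h).symm
    refine StarNS_four (hb1 κ hκ) (hb2 κ hκ) (hb1 κ' hκ') (hb2 κ' hκ') ?_ ?_ ?_ ?_ ?_ ?_
    · intro h; cases h
    · intro h; exact hv (Sum.inr.inj h)
    · intro h; cases h
    · intro h; cases h
    · intro h
      have := Sum.inl.inj h
      rw [Prod.mk.injEq] at this
      exact hne' this.1.symm
    · intro h; cases h
  · push Not at huniq
    set κ1 := ret (a * s) K κ with hκ1
    have h1 : κ1 ≠ κ := StarNS_ret_ne hK hf κ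
    have h2 : (ret (a * s) K)⁻¹ κ ≠ κ := by
      intro h
      rw [Perm.inv_eq_iff_eq] at h
      exact h1 h.symm
    have hb3 : (Sum.inl (κ, true) : (starC a s K).T) ∈ bd (starC a s K).s B := by
      rw [StarNS_mem_bd, starC_true a s K κ]
      intro h
      exact huniq _ h2 (h.1 hκ)
    have hb4 : (Sum.inl (κ1, true) : (starC a s K).T) ∈ bd (starC a s K).s B := by
      rw [StarNS_mem_bd, starC_true a s K κ1]
      have h3 : (ret (a * s) K)⁻¹ κ1 = κ := by
        rw [Perm.inv_eq_iff_eq]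
      rw [h3]
      intro h
      exact huniq _ h1 (h.2 hκ)
    refine StarNS_four (hb1 κ hκ) (hb2 κ hκ) hb3 hb4 ?_ ?_ ?_ ?_ ?_ ?_
    · intro h; cases h
    · intro h; cases h
    · intro h; cases h
    · intro h
      have := Sum.inl.inj h
      rw [Prod.mk.injEq] at this
      exact absurd this.2 Bool.false_ne_true
    · intro h
      have := Sum.inl.inj h
      rw [Prod.mk.injEq] at this
      exact absurd this.2 Bool.false_ne_true
    · intro h
      have := Sum.inl.inj h
      rw [Prod.mk.injEq] at this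
      exact h1 this.1.symm

/-- Let `B` be closed, nonempty, not everything, `C = B ∩ R`, `L` the set of spokes in `B`.  The corners of the star not at
the new vertex: for `q ∉ K` the corner `(q, s q)`, for `κ ∈ K` the two corners `(κ, spoke)`, `(spoke, s κ)`.  The number of
boundary corners among them is the cut of `C` in `(a, s)` plus twice the number of `κ ∈ K` such that `κ`, `s κ` are both in `C`
or both outside and the spoke is on the other side.  If `C` is nonempty and not everything, the cut is at least 4.  If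
`C = ∅`: every spoke in `L` contributes 2; if there is only one, then (as `|K| ≥ 2` and the new darts `(κ, true)` form one
cycle, since `ret (a * s) K` is one cycle, `sameCycle_ret`) there are two more boundary corners at the new vertex.  If
`C = univ`: the same for the complement. -/
theorem star_ns (h : NS a s) (hinv : ∀ t, a (a t) = t) (hK : 2 ≤ K.card)
    (hf : ∀ x ∈ K, (a * s).SameCycle p x) : NS (starC a s K).aa (starC a s K).s := by
  intro B hB hne hu
  by_cases h0 : ∀ x : R, (Sum.inr x : (starC a s K).T) ∉ B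
  · exact StarNS_spokes hK hf hB hne h0
  by_cases h1 : ∀ x : R, (Sum.inr x : (starC a s K).T) ∈ B
  · rw [← StarNS_cut_compl]
    refine StarNS_spokes hK hf ?_ ?_ ?_
    · intro t
      rw [mem_compl, mem_compl, hB t]
    · rw [nonempty_iff_ne_empty]
      intro he
      rw [compl_eq_empty_iff] at he
      exact hu he
    · intro x hx
      rw [mem_compl] at hx
      exact hx (h1 x)
  push Not at h0 h1
  obtain ⟨x0, hx0⟩ := h0
  obtain ⟨x1, hx1⟩ := h1
  set C : Finset R := univ.filter fun x => (Sum.inr x : (starC a s K).T) ∈ B with hC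
  have hmem : ∀ x, x ∈ C ↔ (Sum.inr x : (starC a s K).T) ∈ B := by
    intro x
    rw [hC, mem_filter]
    exact ⟨fun h => h.2, fun h => ⟨mem_univ _, h⟩⟩
  have h4 := h C (fun t => by
      rw [hmem, hmem]
      exact hB (Sum.inr t)) ⟨x0, (hmem _).2 hx0⟩ (fun he => hx1 ((hmem _).1 (he ▸ mem_univ _)))
  refine h4.trans ?_
  unfold cut
  let f : R → (starC a s K).T := fun x =>
    if hx : x ∈ K then (if ((Sum.inr x : (starC a s K).T) ∈ B ↔
      (Sum.inl (⟨x, hx⟩, false) : (starC a s K).T) ∈ B) then Sum.inl (⟨x, hx⟩, false)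
      else Sum.inr x) else Sum.inr x
  have hf1 : ∀ x, f x = Sum.inr x ∨ ∃ hx : x ∈ K, f x = Sum.inl (⟨x, hx⟩, false) := by
    intro x
    by_cases hx : x ∈ K
    · by_cases hy : ((Sum.inr x : (starC a s K).T) ∈ B ↔
        (Sum.inl (⟨x, hx⟩, false) : (starC a s K).T) ∈ B)
      · exact Or.inr ⟨hx, by simp only [f, dif_pos hx, if_pos hy]⟩
      · exact Or.inl (by simp only [f, dif_pos hx, if_neg hy]; rfl)
    · exact Or.inl (by simp only [f, dif_neg hx]; rfl)
  refine card_le_card_of_injOn f ?_ ?_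
  · intro x hx
    rw [mem_coe, StarNS_mem_bd, hmem, hmem] at hx
    rw [mem_coe]
    by_cases hxK : x ∈ K
    · by_cases hy : ((Sum.inr x : (starC a s K).T) ∈ B ↔
        (Sum.inl (⟨x, hxK⟩, false) : (starC a s K).T) ∈ B)
      · have hfx : f x = Sum.inl (⟨x, hxK⟩, false) := by simp only [f, dif_pos hxK, if_pos hy]
        rw [hfx, StarNS_mem_bd, starC_false a s K ⟨x, hxK⟩, ← hy]
        exact hx
      · have hfx : f x = Sum.inr x := by simp only [f, dif_pos hxK, if_neg hy]; rfl
        rw [hfx]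
        exact (StarNS_bd_mem hxK).2 hy
    · have hfx : f x = Sum.inr x := by simp only [f, dif_neg hxK]; rfl
      rw [hfx]
      exact (StarNS_bd_not_mem hxK).2 hx
  · intro x _ y _ hxy
    rcases hf1 x with h5 | ⟨hx, h5⟩ <;> rcases hf1 y with h6 | ⟨hy, h6⟩
    · rw [h5, h6] at hxy
      exact Sum.inr.inj hxy
    · rw [h5, h6] at hxy
      cases hxy
    · rw [h5, h6] at hxy
      cases hxy
    · rw [h5, h6] at hxy
      exact congrArg (fun z : ({x // x ∈ K} × Bool) ⊕ R => Sum.elim (fun w => w.1.1) id z) hxy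

/-- the new vertex is one cycle -/
theorem star_root (hf : ∀ x ∈ K, (a * s).SameCycle p x) (κ κ' : {x // x ∈ K}) :
    (starC a s K).s.SameCycle (Sum.inl (κ, true)) (Sum.inl (κ', true)) := by
  have h1 : ((ret (a * s) K)⁻¹).SameCycle κ κ' := (StarNS_ret hf κ κ').inv
  obtain ⟨i, _, hi⟩ := h1.exists_pow_eq'
  have h2 : ∀ (n : ℕ) (κ : {x // x ∈ K}), ((starC a s K).s ^ n) (Sum.inl (κ, true)) =
      Sum.inl ((((ret (a * s) K)⁻¹) ^ n) κ, true) := by
    intro n
    induction n with
    | zero => intro κ; rfl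
    | succ n ih =>
      intro κ
      have e1 : ((starC a s K).s ^ (n + 1)) (Sum.inl (κ, true)) =
          ((starC a s K).s ^ n) ((starC a s K).s (Sum.inl (κ, true))) := by
        rw [pow_succ, Perm.mul_apply]
      have e2 := congrArg ((starC a s K).s ^ n) (starC_true a s K κ)
      have e3 := ih ((ret (a * s) K)⁻¹ κ)
      exact e1.trans (e2.trans (e3.trans (by rw [pow_succ, Perm.mul_apply])))
  refine ⟨(i : ℤ), ?_⟩
  rw [zpow_natCast, h2, hi]
  rfl

/-- the old vertex of a dart -/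
def StarNS_g : ({x // x ∈ K} × Bool) ⊕ R → R
  | Sum.inl x => x.1.1
  | Sum.inr x => x

theorem StarNS_step {t : (starC a s K).T} (ht : ∀ κ, t ≠ Sum.inl (κ, true)) :
    (∀ κ, (starC a s K).s t ≠ Sum.inl (κ, true)) ∧
      s.SameCycle (StarNS_g t) (StarNS_g ((starC a s K).s t)) := by
  rcases t with ⟨κ, b⟩ | x
  · cases b
    · rw [starC_false a s K κ]
      exact ⟨(fun κ h => by cases h), ⟨1, rfl⟩⟩
    · exact absurd rfl (ht κ)
  · by_cases hx : x ∈ K
    · rw [starC_inr_mem a s K hx]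
      exact ⟨(fun κ h => by cases h), Perm.SameCycle.refl _ _⟩
    · rw [starC_inr_not_mem a s K hx]
      exact ⟨(fun κ h => by cases h), ⟨1, rfl⟩⟩

theorem StarNS_pow {t : (starC a s K).T} (ht : ∀ κ, t ≠ Sum.inl (κ, true)) (n : ℕ) :
    (∀ κ, ((starC a s K).s ^ n) t ≠ Sum.inl (κ, true)) ∧
      s.SameCycle (StarNS_g t) (StarNS_g (((starC a s K).s ^ n) t)) := by
  induction n with
  | zero => exact ⟨ht, Perm.SameCycle.refl _ _⟩
  | succ n ih =>
    rw [pow_succ', Perm.mul_apply]
    have := StarNS_step ih.1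
    exact ⟨this.1, ih.2.trans this.2⟩

/-- the vertices of the star: the new vertex, and the old vertices -/
theorem star_sc (x y : R) :
    (starC a s K).s.SameCycle (Sum.inr x) (Sum.inr y) ↔ s.SameCycle x y := by
  constructor
  · intro h
    obtain ⟨i, _, hi⟩ := h.exists_pow_eq'
    have h1 := (StarNS_pow (a := a) (s := s) (K := K) (t := Sum.inr x)
      (fun κ h => by cases h) i).2
    rw [hi] at h1
    exact h1
  · intro h
    have hstep : ∀ x : R, (starC a s K).s.SameCycle (Sum.inr x) (Sum.inr (s x)) := by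
      intro x
      by_cases hx : x ∈ K
      · refine ⟨2, ?_⟩
        have h2 : ((starC a s K).s ^ (2 : ℕ)) (Sum.inr x) = Sum.inr (s x) := by
          rw [pow_succ, Perm.mul_apply, starC_inr_mem a s K hx, pow_one,
            starC_false a s K ⟨x, hx⟩]
        exact h2
      · exact ⟨1, (by rw [zpow_one, starC_inr_not_mem a s K hx]; rfl)⟩
    obtain ⟨i, _, hi⟩ := h.exists_pow_eq'
    rw [← hi]
    clear hi
    induction i with
    | zero => exact Perm.SameCycle.refl _ _
    | succ i ih =>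
      rw [pow_succ', Perm.mul_apply]
      exact (ih (by omega)).trans (hstep _)

theorem star_sc_spoke (κ : {x // x ∈ K}) (y : R) :
    (starC a s K).s.SameCycle (Sum.inl (κ, false)) (Sum.inr y) ↔ s.SameCycle κ.1 y := by
  have h1 : (starC a s K).s (Sum.inr κ.1) = Sum.inl (κ, false) := starC_inr_mem a s K κ.2
  have h2 : (starC a s K).s.SameCycle (Sum.inr κ.1) (Sum.inl (κ, false)) := ⟨1, h1⟩
  rw [← star_sc (a := a) (K := K)]
  exact ⟨fun h => h2.trans h, fun h => h2.symm.trans h⟩

theorem star_sc_ne (κ : {x // x ∈ K}) (y : R) :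
    ¬ (starC a s K).s.SameCycle (Sum.inl (κ, true)) (Sum.inr y) := by
  intro h
  obtain ⟨i, _, hi⟩ := h.symm.exists_pow_eq'
  exact (StarNS_pow (a := a) (s := s) (K := K) (t := Sum.inr y)
    (fun κ h => by cases h) i).1 κ hi

/-- one new vertex -/
theorem star_nV (hp : p ∈ K) (hf : ∀ x ∈ K, (a * s).SameCycle p x) :
    nV (starC a s K).s = nV s + 1 := by
  let f : Option (Quotient (Perm.SameCycle.setoid s)) →
      Quotient (Perm.SameCycle.setoid (starC a s K).s) := fun o =>
    match o with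
    | none => Quotient.mk _ (Sum.inl (⟨p, hp⟩, true))
    | some v => Quotient.lift (fun x : R => Quotient.mk (Perm.SameCycle.setoid (starC a s K).s)
        (Sum.inr x)) (fun x y hxy => Quotient.sound ((star_sc x y).2 hxy)) v
  have hf' : Function.Bijective f := by
    constructor
    · intro u v
      rcases u with _ | u <;> rcases v with _ | v
      · intro _
        rfl
      · refine Quotient.inductionOn v fun y h => ?_
        exact absurd (Quotient.exact h) (star_sc_ne _ _)
      · refine Quotient.inductionOn u fun x h => ?_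
        exact absurd (Quotient.exact h.symm) (star_sc_ne _ _)
      · refine Quotient.inductionOn₂ u v fun x y h => ?_
        exact congrArg some (Quotient.sound ((star_sc x y).1 (Quotient.exact h)))
    · intro v
      refine Quotient.inductionOn v fun t => ?_
      rcases t with ⟨κ, b⟩ | x
      · cases b
        · refine ⟨some (Quotient.mk _ κ.1), Quotient.sound ?_⟩
          exact ((star_sc_spoke κ κ.1).2 (Perm.SameCycle.refl _ _)).symm
        · exact ⟨none, Quotient.sound (star_root hf _ _)⟩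
      · exact ⟨some (Quotient.mk _ x), rfl⟩
  unfold nV
  rw [← Nat.card_congr (Equiv.ofBijective f hf'), Finite.card_option]

end

end PGr

end

section
/-! # Module GUniq: an isomorphism which maps parts to parts comes from the core and the nets -/

set_option linter.unusedSectionVars false

namespace PGr
open Equiv Finset

section

namespace GUniq
open CompInj

variable {C : GCo} (N : C.K → GB)

/-- the last dart of the part at a core dart -/
noncomputable def L : C.T → C.FT N
  | Sum.inl (j, b) => Sum.inl ⟨j, lstD (N j) b⟩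
  | Sum.inr t => Sum.inr t

theorem L_inl (j : C.K) (b : Bool) : L N (Sum.inl (j, b)) = Sum.inl ⟨j, lstD (N j) b⟩ := rfl

theorem L_inr (t : C.R) : L N (Sum.inr t) = Sum.inr t := rfl

theorem s_L (x : C.T) : C.Fs N (L N x) = gjump C N (C.s x) := by
  rcases x with ⟨j, b⟩ | t
  · exact C.Fs_out N (lstD_spec (N j) b)
  · exact C.Fs_inr N t

theorem L_inj : Function.Injective (L N) := by
  rintro (⟨j, b⟩ | t) (⟨j', b'⟩ | t') h
  · rw [L_inl, L_inl, Sum.inl.injEq, Sigma.mk.injEq] at h
    obtain ⟨rfl, h⟩ := h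
    have h1 := lstD_spec (N j) b
    have h2 := lstD_spec (N j) b'
    rw [eq_of_heq h, h2, Sum.inr.injEq] at h1
    rw [h1]
  · cases h
  · cases h
  · rw [L_inr, L_inr, Sum.inr.injEq] at h
    rw [h]

theorem inl_mem {i j : C.K} {d : (N j).1.D} :
    (Sum.inl ⟨j, d⟩ : C.FT N) ∈ C.part N i ↔ j = i := by
  rw [GCo.mem_part]
  constructor
  · rintro ⟨d', h⟩
    rw [Sum.inl.injEq, Sigma.mk.injEq] at h
    exact h.1
  · rintro rfl
    exact ⟨d, rfl⟩

theorem inr_not_mem {i : C.K} {t : C.R} : (Sum.inr t : C.FT N) ∉ C.part N i := by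
  rw [GCo.mem_part]
  rintro ⟨d', h⟩
  cases h

theorem gjump_mem {i : C.K} {x : C.T} : gjump C N x ∈ C.part N i ↔ C.edge x = some i := by
  rcases x with ⟨j, b⟩ | t
  · show (Sum.inl ⟨j, fstD (N j) b⟩ : C.FT N) ∈ C.part N i ↔ some j = some i
    rw [inl_mem, Option.some.injEq]
  · show (Sum.inr t : C.FT N) ∈ C.part N i ↔ none = some i
    constructor
    · intro h
      exact absurd h (inr_not_mem N)
    · intro h
      cases h

/-- the last darts are those not followed by a dart of the same part -/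
theorem last_iff (hC : C.IsGood) (t : C.FT N) :
    (∀ i, t ∈ C.part N i → C.Fs N t ∉ C.part N i) ↔ ∃ x, t = L N x := by
  constructor
  · intro h
    rcases t with ⟨i, d⟩ | t
    · rcases hs : (N i).1.s (Sum.inl d) with d' | b
      · exfalso
        refine h i ((inl_mem N).2 rfl) ?_
        rw [C.Fs_in N hs, inl_mem]
      · refine ⟨Sum.inl (i, b), ?_⟩
        rw [eq_lstD hs, L_inl]
    · exact ⟨Sum.inr t, rfl⟩
  · rintro ⟨x, rfl⟩ i hi
    rcases x with ⟨j, b⟩ | t
    · rw [L_inl, inl_mem] at hi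
      subst hi
      rw [s_L, gjump_mem]
      exact C.edge_s hC j b
    · exact absurd hi (inr_not_mem N)

theorem comp_run (hC : C.IsGood) (y : C.T) :
    ∃ k, ((C.Fs N) ^ k) (gjump C N y) = L N y ∧
      ∀ i < k, ¬ ∃ x, ((C.Fs N) ^ i) (gjump C N y) = L N x := by
  rcases y with ⟨j, b⟩ | t
  · obtain ⟨k, d, hd0, hd, hk⟩ := run (N j) b
    have hpow : ∀ i, i ≤ k → ((C.Fs N) ^ i) (gjump C N (Sum.inl (j, b))) =
        (Sum.inl ⟨j, d i⟩ : C.FT N) := by
      intro i
      induction i with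
      | zero =>
        intro _
        rw [pow_zero, hd0]
        rfl
      | succ i ih =>
        intro hi
        rw [pow_succ', Perm.mul_apply, ih (by omega)]
        exact C.Fs_in N (hd i (by omega))
    refine ⟨k, ?_, ?_⟩
    · rw [hpow k le_rfl, eq_lstD hk, L_inl]
    · intro i hi
      rw [hpow i (by omega)]
      intro hx
      refine (last_iff N hC _).2 hx j ((inl_mem N).2 rfl) ?_
      rw [C.Fs_in N (hd i hi), inl_mem]
  · exact ⟨0, rfl, fun i hi => absurd hi (Nat.not_lt_zero _)⟩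

section two
variable {C' : GCo} (N' : C'.K → GB)

theorem exists_core (hC : C.IsGood) (hC' : C'.IsGood) (e : C.FT N ≃ C'.FT N')
    (hs : ∀ t, e (C.Fs N t) = C'.Fs N' (e t)) (eK : C.K ≃ C'.K)
    (hp : ∀ i t, e t ∈ C'.part N' (eK i) ↔ t ∈ C.part N i) :
    ∃ f : C.T → C'.T, Function.Bijective f ∧ (∀ x, e (L N x) = L N' (f x)) ∧
      (∀ x, f (C.s x) = C'.s (f x)) ∧ ∀ x, e (gjump C N x) = gjump C' N' (f x) := by
  classical
  have hlast : ∀ t, (∃ x, t = L N x) ↔ ∃ x', e t = L N' x' := by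
    intro t
    rw [← last_iff N hC, ← last_iff N' hC', ← hs]
    constructor
    · intro h i' hi'
      obtain ⟨i, rfl⟩ := eK.surjective i'
      rw [hp] at hi' ⊢
      exact h i hi'
    · intro h i hi
      rw [← hp] at hi ⊢
      exact h (eK i) hi
  have hex1 : ∀ x, ∃ x', e (L N x) = L N' x' := fun x => (hlast _).1 ⟨x, rfl⟩
  choose f hf using hex1
  have hfi : Function.Injective f := by
    intro x y hxy
    apply L_inj N
    apply e.injective
    rw [hf, hf, hxy]
  have hfs : Function.Surjective f := by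
    intro x'
    obtain ⟨x, hx⟩ := (hlast (e.symm (L N' x'))).2 ⟨x', by rw [Equiv.apply_symm_apply]⟩
    refine ⟨x, L_inj N' ?_⟩
    rw [← hf, ← hx, Equiv.apply_symm_apply]
  have hz : ∀ x, e (gjump C N (C.s x)) = gjump C' N' (C'.s (f x)) := by
    intro x
    rw [← s_L N x, ← s_L N' (f x), hs, hf]
  have hfs' : ∀ x, f (C.s x) = C'.s (f x) := by
    intro x
    obtain ⟨k, hk, hkm⟩ := comp_run N hC (C.s x)
    obtain ⟨k', hk', hkm'⟩ := comp_run N' hC' (C'.s (f x))
    have hpow : ∀ i t, e (((C.Fs N) ^ i) t) = ((C'.Fs N') ^ i) (e t) := by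
      intro i
      induction i with
      | zero => intro t; rfl
      | succ i ih => intro t; rw [pow_succ', pow_succ', Perm.mul_apply, Perm.mul_apply, hs, ih]
    have hek : ((C'.Fs N') ^ k) (gjump C' N' (C'.s (f x))) = L N' (f (C.s x)) := by
      rw [← hz, ← hpow, hk, hf]
    have hkk : k = k' := by
      rcases lt_trichotomy k k' with h | h | h
      · exact absurd ⟨_, hek⟩ (hkm' k h)
      · exact h
      · exfalso
        apply hkm k' h
        obtain ⟨x0, hx0⟩ := (hlast (((C.Fs N) ^ k') (gjump C N (C.s x)))).2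
          ⟨_, by rw [hpow, hz, hk']⟩
        exact ⟨x0, hx0⟩
    apply L_inj N'
    rw [← hek, ← hk', hkk]
  refine ⟨f, ⟨hfi, hfs⟩, hf, hfs', fun x => ?_⟩
  obtain ⟨y, rfl⟩ := C.s.surjective x
  rw [hz, hfs']

end two

end GUniq

open CompInj GUniq

/-- Proof (compare `Pool/Agent/PGr/CompInj.lean`).  `e` maps `inr` darts to `inr` darts, which defines `eR`.  The last darts
`⟨i, lstD (N i) b⟩` (`lstD` of `CompInj`: `(N i).s (inl (lstD _ b)) = inr b`) are exactly the darts of the part `i` followed by a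
dart outside the part (`GCo.edge_s`: after leaving the part `i` at the pole `b` one enters another part or an `inr` dart).
So `e` maps the two last darts of the part `i` to the two last darts of the part `eK i`; this defines `c i`
(`e ⟨i, lstD b⟩ = ⟨eK i, lstD (xor (c i) b)⟩`).  Similarly for the first darts `⟨i, fstD b⟩`, the darts of the part preceded by a
dart outside: `⟨i, fstD b⟩` and `⟨i, lstD b⟩` are at the same vertex, and the two poles of a part are at different
vertices (`noLoop` for the core), or: the rotation leads from `fstD b` to `lstD b` inside the part (`run` in `CompInj`); so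
`e ⟨i, fstD b⟩ = ⟨eK i, fstD (xor (c i) b)⟩`.  So `e` maps `gjump C N x` to `gjump C' N' (gmap x)`; as `C.s x` is determined by
`Fs (last dart of x) = gjump (C.s x)`, `gmap` commutes with the rotations of the cores.  The isomorphism of the nets: `e` on the
nonroot darts, `inr b ↦ inr (xor (c i) b)`. -/
theorem GCo.uniq {C C' : GCo} (hC : C.IsGood) (hC' : C'.IsGood) {N : C.K → GB} {N' : C'.K → GB}
    (e : C.FT N ≃ C'.FT N') (ha : ∀ t, e (C.Fa N t) = C'.Fa N' (e t))
    (hs : ∀ t, e (C.Fs N t) = C'.Fs N' (e t)) (eK : C.K ≃ C'.K)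
    (hp : ∀ i t, e t ∈ C'.part N' (eK i) ↔ t ∈ C.part N i) :
    ∃ (eR : C.R ≃ C'.R) (c : C.K → Bool) (f : ∀ i, (N i).1.T ≃ (N' (eK i)).1.T),
      (∀ t, eR (C.aR t) = C'.aR (eR t)) ∧
      (∀ x, gmap eK eR c (C.s x) = C'.s (gmap eK eR c x)) ∧
      (∀ t, e (Sum.inr t) = Sum.inr (eR t)) ∧
      (∀ i t, f i ((N i).1.aa t) = (N' (eK i)).1.aa (f i t)) ∧
      (∀ i t, f i ((N i).1.s t) = (N' (eK i)).1.s (f i t)) ∧
      (∀ i b, f i (Sum.inr b) = Sum.inr (xor (c i) b)) ∧
      ∀ i d d', e (Sum.inl ⟨i, d⟩) = Sum.inl ⟨eK i, d'⟩ ↔ f i (Sum.inl d) = Sum.inl d' := by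
  classical
  obtain ⟨f, ⟨hfi, hfs⟩, hL, hfS, hJ⟩ := GUniq.exists_core N N' hC hC' e hs eK hp
  -- inl darts are mapped to inl darts
  have hinl : ∀ i (d : (N i).1.D), ∃ d' : (N' (eK i)).1.D,
      e (Sum.inl ⟨i, d⟩) = Sum.inl ⟨eK i, d'⟩ := by
    intro i d
    have h1 := (hp i (Sum.inl ⟨i, d⟩)).2 ((inl_mem N).2 rfl)
    rw [GCo.mem_part] at h1
    exact h1
  have hinr : ∀ t : C.R, ∃ t' : C'.R, e (Sum.inr t) = Sum.inr t' := by
    intro t
    rcases he : e (Sum.inr t) with ⟨j, d⟩ | t'
    · exfalso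
      obtain ⟨i, rfl⟩ := eK.surjective j
      have h1 : e (Sum.inr t) ∈ C'.part N' (eK i) := by
        rw [he, inl_mem]
      rw [hp] at h1
      exact inr_not_mem N h1
    · exact ⟨t', rfl⟩
  choose F hF using hinl
  choose eR0 heR0 using hinr
  have hR0b : Function.Bijective eR0 := by
    constructor
    · intro t t' h
      have h1 := heR0 t
      rw [h, ← heR0 t'] at h1
      exact Sum.inr.inj (e.injective h1)
    · intro t'
      rcases he : e.symm (Sum.inr t') with ⟨i, d⟩ | t
      · exfalso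
        rw [Equiv.symm_apply_eq, hF] at he
        cases he
      · rw [Equiv.symm_apply_eq, heR0] at he
        exact ⟨t, (Sum.inr.inj he).symm⟩
  have hFb : ∀ i, Function.Bijective (F i) := by
    intro i
    constructor
    · intro d d' h
      have h1 := hF i d
      rw [h, ← hF i d'] at h1
      have h2 := Sum.inl.inj (e.injective h1)
      rw [Sigma.mk.injEq] at h2
      exact eq_of_heq h2.2
    · intro d'
      rcases he : e.symm (Sum.inl ⟨eK i, d'⟩) with ⟨j, d⟩ | t
      · rw [Equiv.symm_apply_eq, hF, Sum.inl.injEq, Sigma.mk.injEq] at he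
        obtain ⟨h1, h2⟩ := he
        have h3 := eK.injective h1
        subst h3
        exact ⟨d, (eq_of_heq h2).symm⟩
      · exfalso
        rw [Equiv.symm_apply_eq, heR0] at he
        cases he
  -- the core map
  have hfl : ∀ i b, ∃ b', f (Sum.inl (i, b)) = Sum.inl (eK i, b') := by
    intro i b
    have h1 := hL (Sum.inl (i, b))
    rw [GUniq.L_inl, hF] at h1
    rcases hx : f (Sum.inl (i, b)) with ⟨j, b'⟩ | t'
    · rw [hx, GUniq.L_inl, Sum.inl.injEq, Sigma.mk.injEq] at h1
      obtain ⟨rfl, -⟩ := h1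
      exact ⟨b', rfl⟩
    · rw [hx, L_inr] at h1
      cases h1
  have hfr : ∀ t, f (Sum.inr t) = Sum.inr (eR0 t) := by
    intro t
    apply GUniq.L_inj N'
    rw [← hL, L_inr, L_inr, heR0]
  choose β hβ using hfl
  have hβne : ∀ i, β i true = !(β i false) := by
    intro i
    have h1 : β i true ≠ β i false := by
      intro h
      have h2 : f (Sum.inl (i, true)) = f (Sum.inl (i, false)) := by rw [hβ, hβ, h]
      have h3 := Sum.inl.inj (hfi h2)
      rw [Prod.mk.injEq] at h3
      exact absurd h3.2.symm Bool.false_ne_true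
    cases h2 : β i true <;> cases h3 : β i false
    · rw [h2, h3] at h1; exact absurd rfl h1
    · rfl
    · rfl
    · rw [h2, h3] at h1; exact absurd rfl h1
  have hβ' : ∀ i b, f (Sum.inl (i, b)) = Sum.inl (eK i, xor (β i false) b) := by
    intro i b
    rw [hβ]
    cases b
    · rw [Bool.xor_false]
    · rw [Bool.xor_true, hβne]
  have hgm : ∀ x, gmap eK (Equiv.ofBijective eR0 hR0b) (fun i => β i false) x = f x := by
    rintro (⟨i, b⟩ | t)
    · rw [hβ']
      rfl
    · rw [hfr]
      rfl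
  have hfst : ∀ i b, F i (fstD (N i) b) = fstD (N' (eK i)) (xor (β i false) b) := by
    intro i b
    have h1 := hJ (Sum.inl (i, b))
    rw [hβ'] at h1
    have h2 : e (Sum.inl ⟨i, fstD (N i) b⟩) =
        Sum.inl ⟨eK i, fstD (N' (eK i)) (xor (β i false) b)⟩ := h1
    rw [hF, Sum.inl.injEq, Sigma.mk.injEq] at h2
    exact eq_of_heq h2.2
  have hlst : ∀ i b, F i (lstD (N i) b) = lstD (N' (eK i)) (xor (β i false) b) := by
    intro i b
    have h1 := hL (Sum.inl (i, b))
    rw [hβ', GUniq.L_inl, GUniq.L_inl, hF, Sum.inl.injEq, Sigma.mk.injEq] at h1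
    exact eq_of_heq h1.2
  refine ⟨Equiv.ofBijective eR0 hR0b, fun i => β i false,
    fun i => Equiv.sumCongr (Equiv.ofBijective (F i) (hFb i))
      ⟨fun b => xor (β i false) b, fun b => xor (β i false) b,
        fun b => by cases b <;> cases β i false <;> rfl,
        fun b => by cases b <;> cases β i false <;> rfl⟩, ?_, ?_, ?_, ?_, ?_, ?_, ?_⟩
  · intro t
    have h1 := ha (Sum.inr t)
    rw [heR0] at h1
    have h2 : e (Sum.inr (C.aR t)) = Sum.inr (C'.aR (eR0 t)) := h1
    rw [heR0] at h2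
    exact Sum.inr.inj h2
  · intro x
    rw [hgm, hgm, hfS]
  · exact heR0
  · rintro i (d | b)
    · have h1 := ha (Sum.inl ⟨i, d⟩)
      rw [hF] at h1
      have h2 : e (Sum.inl ⟨i, (N i).1.a d⟩) = Sum.inl ⟨eK i, (N' (eK i)).1.a (F i d)⟩ := h1
      rw [hF, Sum.inl.injEq, Sigma.mk.injEq] at h2
      show (Sum.inl (F i ((N i).1.a d)) : (N' (eK i)).1.T) = Sum.inl ((N' (eK i)).1.a (F i d))
      rw [eq_of_heq h2.2]
    · show (Sum.inr (xor (β i false) (!b)) : (N' (eK i)).1.T) = Sum.inr (!(xor (β i false) b))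
      cases b <;> cases β i false <;> rfl
  · rintro i (d | b)
    · rcases hd : (N i).1.s (Sum.inl d) with d2 | b
      · have h1 := hs (Sum.inl ⟨i, d⟩)
        rw [C.Fs_in N hd, hF, hF] at h1
        rcases hd' : (N' (eK i)).1.s (Sum.inl (F i d)) with d3 | b'
        · rw [C'.Fs_in N' hd', Sum.inl.injEq, Sigma.mk.injEq] at h1
          show (Sum.inl (F i d2) : (N' (eK i)).1.T) = (N' (eK i)).1.s (Sum.inl (F i d))
          rw [hd', eq_of_heq h1.2]
        · exfalso
          rw [C'.Fs_out N' hd'] at h1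
          have h2 : gjump C' N' (C'.s (Sum.inl (eK i, b'))) ∈ C'.part N' (eK i) := by
            rw [← h1, inl_mem]
          rw [gjump_mem] at h2
          exact C'.edge_s hC' (eK i) b' h2
      · have h1 : d = lstD (N i) b := eq_lstD hd
        show (Sum.inr (xor (β i false) b) : (N' (eK i)).1.T) = (N' (eK i)).1.s (Sum.inl (F i d))
        rw [h1, hlst, lstD_spec]
    · rw [fstD_spec]
      show (Sum.inl (F i (fstD (N i) b)) : (N' (eK i)).1.T) =
        (N' (eK i)).1.s (Sum.inr (xor (β i false) b))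
      rw [fstD_spec, hfst]
  · intro i b
    rfl
  · intro i d d'
    show e (Sum.inl ⟨i, d⟩) = Sum.inl ⟨eK i, d'⟩ ↔ (Sum.inl (F i d) : (N' (eK i)).1.T) = Sum.inl d'
    rw [hF, Sum.inl.injEq, Sum.inl.injEq, Sigma.mk.injEq]
    constructor
    · rintro ⟨_, h⟩
      exact eq_of_heq h
    · rintro rfl
      exact ⟨rfl, HEq.rfl⟩

end

end PGr

end
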