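import Pool.Agent.PGc.PrefType
import Pool.Agent.PGm.M05
import Pool.Agent.PGm.M06
import Pool.Agent.PGm.M09
import Pool.Agent.PGr.ESum
import Pool.Agent.PGr.InsPl
import Pool.Agent.PGr.NoPinch
import Pool.Agent.PGr.ParProps
import Pool.Agent.PGr.PlRestrict
import Pool.Agent.PGr.RetLib

section
/-! # Module VBasic: the sets with disjoint translates -/

set_option linter.unusedSectionVars false

namespace PGr
open Equiv Finset

section
variable {T : Type*} [Fintype T] [DecidableEq T] {a s ρ : Perm T} {k : ℕ} {r : T}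
  {A B : Finset T}

theorem Rot.pow_a (hr : Rot a s ρ k r) (i : ℕ) (t : T) : (ρ ^ i) (a t) = a ((ρ ^ i) t) := by
  induction i generalizing t with
  | zero => rfl
  | succ n ih => rw [pow_succ, Perm.mul_apply, Perm.mul_apply, hr.ra, ih]

theorem Rot.pow_s (hr : Rot a s ρ k r) (i : ℕ) (t : T) : (ρ ^ i) (s t) = s ((ρ ^ i) t) := by
  induction i generalizing t with
  | zero => rfl
  | succ n ih => rw [pow_succ, Perm.mul_apply, Perm.mul_apply, hr.rs, ih]

theorem VBasic_same (hr : Rot a s ρ k r) (i : ℕ) {x y : T} (h : s.SameCycle x y) :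
    s.SameCycle ((ρ ^ i) x) ((ρ ^ i) y) := by
  obtain ⟨n, -, hn⟩ := h.exists_pow_eq' (f := s)
  refine ⟨n, ?_⟩
  rw [zpow_natCast, ← hn]
  clear hn
  induction n with
  | zero => rfl
  | succ n ih => rw [pow_succ', Perm.mul_apply, Perm.mul_apply, ih, hr.pow_s]

theorem VBasic_pow (hr : Rot a s ρ k r) : ρ ^ k = 1 := Equiv.ext fun t => hr.pow t

theorem VBasic_root (hr : Rot a s ρ k r) (i : ℕ) : s.SameCycle r ((ρ ^ i) r) := by
  induction i with
  | zero => exact Perm.SameCycle.refl _ _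
  | succ n ih =>
    rw [pow_succ, Perm.mul_apply]
    exact ih.trans (VBasic_same hr n hr.root)

theorem Rot.pow_root (hr : Rot a s ρ k r) (i : ℕ) {t : T} :
    s.SameCycle r ((ρ ^ i) t) ↔ s.SameCycle r t := by
  constructor
  · intro h
    have h1 := VBasic_same hr ((k - 1) * i) ((VBasic_root hr i).symm.trans h)
    have h2 : ∀ x : T, (ρ ^ ((k - 1) * i)) ((ρ ^ i) x) = x := by
      intro x
      rw [← Perm.mul_apply, ← pow_add]
      have : (k - 1) * i + i = k * i := by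
        have := hr.k2
        obtain ⟨m, rfl⟩ : ∃ m, k = m + 1 := ⟨k - 1, by omega⟩
        simp [add_mul]
      rw [this, pow_mul, VBasic_pow hr, one_pow]
      rfl
    rwa [h2, h2] at h1
  · intro h
    exact (VBasic_root hr i).trans (VBasic_same hr i h)

/-- exponents may be taken modulo `k` -/
theorem Rot.pow_mod (hr : Rot a s ρ k r) (i : ℕ) (t : T) : (ρ ^ (i % k)) t = (ρ ^ i) t := by
  conv_rhs => rw [← Nat.mod_add_div i k, pow_add, pow_mul, VBasic_pow hr, one_pow, mul_one]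

theorem Rot.pow_inv (hr : Rot a s ρ k r) {i : ℕ} (hi : i ≤ k) (t : T) :
    (ρ ^ (k - i)) ((ρ ^ i) t) = t := by
  rw [← Perm.mul_apply, ← pow_add, Nat.sub_add_cancel hi, hr.pow]

/-- a translate -/
def tr (ρ : Perm T) (i : ℕ) (A : Finset T) : Finset T := A.map (ρ ^ i).toEmbedding

theorem mem_tr {ρ : Perm T} {i : ℕ} {A : Finset T} {t : T} :
    (ρ ^ i) t ∈ tr ρ i A ↔ t ∈ A := by
  unfold tr
  exact Finset.mem_map' (ρ ^ i).toEmbedding

theorem mem_tr' {ρ : Perm T} {i : ℕ} {A : Finset T} {t : T} :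
    t ∈ tr ρ i A ↔ ∃ x ∈ A, (ρ ^ i) x = t := by
  unfold tr
  exact Finset.mem_map

theorem VBasic_surj (ρ : Perm T) (i : ℕ) (t : T) : ∃ x, (ρ ^ i) x = t := (ρ ^ i).surjective t

theorem tr_cl (hr : Rot a s ρ k r) (i : ℕ) (hA : Cl a A) : Cl a (tr ρ i A) := by
  intro t
  obtain ⟨x, rfl⟩ := VBasic_surj ρ i t
  rw [← hr.pow_a, mem_tr, mem_tr]
  exact hA x

theorem tr_cut (hr : Rot a s ρ k r) (i : ℕ) : cut s (tr ρ i A) = cut s A := by
  have : bd s (tr ρ i A) = (bd s A).map (ρ ^ i).toEmbedding := by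
    ext t
    obtain ⟨x, rfl⟩ := VBasic_surj ρ i t
    have h1 : (ρ ^ i) x ∈ (bd s A).map (ρ ^ i).toEmbedding ↔ x ∈ bd s A :=
      Finset.mem_map' (ρ ^ i).toEmbedding
    rw [h1]
    simp only [bd, mem_filter, mem_univ, true_and]
    rw [← hr.pow_s, mem_tr, mem_tr]
  unfold cut
  rw [this, card_map]

theorem VS.tr (hr : Rot a s ρ k r) (hA : VS a s ρ k r A) (i : ℕ) :
    VS a s ρ k r (tr ρ i A) := by
  refine ⟨tr_cl hr i hA.cl, (tr_cut hr i).trans hA.cut4, ?_, ?_⟩
  · obtain ⟨t, ht, hrt⟩ := hA.root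
    exact ⟨(ρ ^ i) t, mem_tr.2 ht, (hr.pow_root i).2 hrt⟩
  · intro j hj hjk t ht
    obtain ⟨x, hx, rfl⟩ := mem_tr'.1 ht
    rw [← Perm.mul_apply, ← pow_add, add_comm, pow_add, Perm.mul_apply, mem_tr]
    exact hA.disj j hj hjk x hx

theorem MaxV.tr (hr : Rot a s ρ k r) (hA : MaxV a s ρ k r A) (i : ℕ) :
    MaxV a s ρ k r (PGr.tr ρ i A) := by
  refine ⟨hA.1.tr hr i, fun B hB hs => ?_⟩
  have hk := hr.k2
  have hlt : i % k ≤ k := (Nat.mod_lt _ (by omega)).le
  have h1 : A ⊆ PGr.tr ρ (k - i % k) B := by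
    intro x hx
    rw [← hr.pow_inv hlt x, mem_tr, hr.pow_mod]
    exact hs (mem_tr.2 hx)
  have h2 := hA.2 _ (hB.tr hr (k - i % k)) h1
  intro y hy
  have h3 : (ρ ^ (k - i % k)) y ∈ A := h2 (mem_tr.2 hy)
  have h4 : (ρ ^ (i % k)) ((ρ ^ (k - i % k)) y) = y := by
    rw [← Perm.mul_apply, ← pow_add, Nat.add_sub_cancel' hlt, hr.pow]
  rw [← h4, hr.pow_mod, mem_tr]
  exact h3

/-- a larger set, of maximal cardinality -/
theorem exists_maxV (hA : VS a s ρ k r A) : ∃ B, MaxV a s ρ k r B ∧ A ⊆ B := by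
  classical
  obtain ⟨B, hB, hmax⟩ := (univ.filter fun B => VS a s ρ k r B ∧ A ⊆ B).exists_max_image card
    ⟨A, by simp [hA]⟩
  simp only [mem_filter, mem_univ, true_and] at hB hmax
  refine ⟨B, ⟨hB.1, fun C hC hs => ?_⟩, hB.2⟩
  exact (eq_of_subset_of_card_le hs (hmax C ⟨hC, hB.2.trans hs⟩)).ge

theorem VS.ne_univ (hr : Rot a s ρ k r) (hA : VS a s ρ k r A) : A ≠ univ := by
  obtain ⟨t, ht, -⟩ := hA.root
  have := hA.disj 1 (by omega) (by have := hr.k2; omega) t ht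
  rintro rfl
  exact this (mem_univ _)

/-- the vertex of `r` is not contained in `A` (it would be contained in `ρ A`) -/
theorem VS.shC (hr : Rot a s ρ k r) (hA : VS a s ρ k r A) : ShC s A r := by
  obtain ⟨t, ht, hrt⟩ := hA.root
  exact ⟨⟨t, ht, hrt⟩, (ρ ^ 1) t, hA.disj 1 (by omega) (by have := hr.k2; omega) t ht,
    (hr.pow_root 1).2 hrt⟩

theorem VBasic_inj (hr : Rot a s ρ k r) (hA : VS a s ρ k r A) {i j : ℕ} (hi : i < k)
    (hij : i ≤ j) (hj : j < k) {x y : T} (hx : x ∈ A) (hy : y ∈ A) (h : (ρ ^ i) x = (ρ ^ j) y) :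
    i = j ∧ x = y := by
  obtain ⟨m, rfl⟩ := Nat.exists_eq_add_of_le hij
  rw [pow_add, Perm.mul_apply] at h
  have h1 := (ρ ^ i).injective h
  rcases Nat.eq_zero_or_pos m with rfl | hm
  · exact ⟨rfl, h1⟩
  · exact absurd (h1 ▸ hx) (hA.disj m hm (by omega) y hy)

theorem VBasic_card (hr : Rot a s ρ k r) (hA : VS a s ρ k r A) {S U : Finset T} (hS : S ⊆ A)
    (hU : ∀ x ∈ S, ∀ i, (ρ ^ i) x ∈ U) : k * S.card ≤ U.card := by
  have : (range k ×ˢ S).card ≤ U.card := by
    refine card_le_card_of_injOn (fun p : ℕ × T => (ρ ^ p.1) p.2) ?_ ?_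
    · rintro ⟨i, x⟩ hp
      simp only [coe_product, Set.mem_prod, mem_coe] at hp
      exact hU x hp.2 i
    · rintro ⟨i, x⟩ hp ⟨j, y⟩ hq hpq
      simp only [coe_product, Set.mem_prod, mem_coe, mem_range] at hp hq
      simp only at hpq
      rcases le_total i j with hij | hij
      · obtain ⟨rfl, rfl⟩ := VBasic_inj hr hA hp.1 hij hq.1 (hS hp.2) (hS hq.2) hpq
        rfl
      · obtain ⟨rfl, rfl⟩ := VBasic_inj hr hA hq.1 hij hp.1 (hS hq.2) (hS hp.2) hpq.symm
        rfl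
  rwa [card_product, card_range] at this

/-- the translates of `A` are disjoint -/
theorem VS.card (hr : Rot a s ρ k r) (hA : VS a s ρ k r A) : k * A.card ≤ Fintype.card T := by
  rw [← Finset.card_univ]
  exact VBasic_card hr hA (Finset.Subset.refl _) fun _ _ _ => mem_univ _

/-- the same for the darts at the vertex of `r` -/
theorem VS.card_root (hr : Rot a s ρ k r) (hA : VS a s ρ k r A) :
    k * (univ.filter fun t => t ∈ A ∧ s.SameCycle r t).card ≤
      (univ.filter fun t => s.SameCycle r t).card := by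
  refine VBasic_card hr hA (fun x hx => (mem_filter.1 hx).2.1) fun x hx i => ?_
  rw [mem_filter] at hx ⊢
  exact ⟨mem_univ _, (hr.pow_root i).2 hx.2.2⟩

/-- `|A ∪ B| < 2 |T| / k ≤ |T|` -/
theorem VS.union_ne (hr : Rot a s ρ k r) (hA : VS a s ρ k r A) (hB : VS a s ρ k r B)
    (hi : (A ∩ B).Nonempty) : A ∪ B ≠ univ := by
  intro hu
  have h1 := Finset.card_union_add_card_inter A B
  have h2 := Finset.card_pos.2 hi
  have h3 : 2 * A.card ≤ Fintype.card T := (Nat.mul_le_mul_right _ hr.k2).trans (hA.card hr)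
  have h4 : 2 * B.card ≤ Fintype.card T := (Nat.mul_le_mul_right _ hr.k2).trans (hB.card hr)
  rw [hu, Finset.card_univ] at h1
  omega

/-- By `cross_meet` the sets of darts of `A` and of `B` at the vertex of `r` intersect, and each has at most `1/k` of the
darts at this vertex (`card_root`). -/
theorem VS.out (h : Good a s) (hr : Rot a s ρ k r) (hA : VS a s ρ k r A) (hB : VS a s ρ k r B)
    (hi : (A ∩ B).Nonempty) (hab : (A \ B).Nonempty) (hba : (B \ A).Nonempty) :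
    ∃ t, t ∉ A ∪ B ∧ s.SameCycle r t := by
  obtain ⟨t, ht, hrt⟩ := h.cross_meet hA.cl hB.cl hA.cut4 hB.cut4 hi (hA.union_ne hr hB hi) hab hba
    (hA.shC hr) (hB.shC hr)
  by_contra hcon
  push Not at hcon
  have h3 := (Nat.mul_le_mul_right _ hr.k2).trans (hA.card_root hr)
  have h4 := (Nat.mul_le_mul_right _ hr.k2).trans (hB.card_root hr)
  have h1 := Finset.card_union_add_card_inter (univ.filter fun t => t ∈ A ∧ s.SameCycle r t)
    (univ.filter fun t => t ∈ B ∧ s.SameCycle r t)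
  have h2 : 0 < ((univ.filter fun t => t ∈ A ∧ s.SameCycle r t) ∩
      (univ.filter fun t => t ∈ B ∧ s.SameCycle r t)).card := by
    refine Finset.card_pos.2 ⟨t, ?_⟩
    simp only [mem_inter, mem_filter, mem_univ, true_and]
    rw [mem_inter] at ht
    exact ⟨⟨ht.1, hrt⟩, ht.2, hrt⟩
  have h5 : (univ.filter fun t => s.SameCycle r t) ⊆
      (univ.filter fun t => t ∈ A ∧ s.SameCycle r t) ∪
      (univ.filter fun t => t ∈ B ∧ s.SameCycle r t) := by
    intro x hx
    simp only [mem_union, mem_filter, mem_univ, true_and] at hx ⊢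
    by_contra hx'
    refine hcon x ?_ hx
    rw [mem_union]
    tauto
  have h6 := Finset.card_le_card h5
  omega

/-- An edge at the root vertex: `cut_pair`; `(ρ ^ i) t = a t` is impossible, since `a t` is not at the vertex of `t`
(`noLoop`). -/
theorem VS.pair (h : Good a s) (hr : Rot a s ρ k r) {t : T} (ht : s.SameCycle r t) :
    VS a s ρ k r {t, a t} := by
  have key : ∀ i, 0 < i → i < k → (ρ ^ i) t ≠ a t := by
    intro i hi hik he
    have h1 := (hr.pow_root i).2 ht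
    rw [he] at h1
    exact h.noLoop t (ht.symm.trans h1)
  refine ⟨Cl_pair h.inv t, h.cut_pair t, ⟨t, by simp, ht⟩, ?_⟩
  intro i hi hik x hx
  simp only [mem_insert, mem_singleton] at hx ⊢
  rcases hx with rfl | rfl
  · rintro (he | he)
    · exact hr.free _ i hi hik he
    · exact key i hi hik he
  · rintro (he | he)
    · rw [hr.pow_a] at he
      exact key i hi hik (by rw [← h.inv ((ρ ^ i) t), he])
    · exact hr.free _ i hi hik he

/-- if `A` is not `VS` although it is closed, of cut 4 and meets the root vertex, then it meets a translate -/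
theorem exists_meet (hA : Cl a A) (h4 : cut s A = 4) (ht : ∃ t ∈ A, s.SameCycle r t)
    (hn : ¬ VS a s ρ k r A) : ∃ i t, 0 < i ∧ i < k ∧ t ∈ A ∧ (ρ ^ i) t ∈ A := by
  by_contra hcon
  push Not at hcon
  exact hn ⟨hA, h4, ht, fun i hi hik t ht => hcon i t hi hik ht⟩

end

end PGr

end

section
/-! # Module Transp: transport along isomorphisms; the choice of the rotation -/

set_option linter.unusedSectionVars false

namespace PGr
open Equiv Finset

section
variable {T : Type*} [Fintype T] [DecidableEq T] {a s ρ : Perm T} {k : ℕ} {r : T}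
  {T' : Type*} [Fintype T'] [DecidableEq T'] {a' s' : Perm T'}

theorem Transp_pow (f : T ≃ T') (i : ℕ) (t : T) :
    (((f.symm.trans ρ).trans f : Perm T') ^ i) (f t) = f ((ρ ^ i) t) := by
  induction i generalizing t with
  | zero => rfl
  | succ i ih =>
    rw [pow_succ, pow_succ, Perm.mul_apply, Perm.mul_apply]
    have h1 : ((f.symm.trans ρ).trans f : Perm T') (f t) = f (ρ t) := by simp
    rw [h1, ih]

theorem Transp_one (f : T ≃ T') (t : T) :
    ((f.symm.trans ρ).trans f : Perm T') (f t) = f (ρ t) := by simp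

theorem Transp_spow (f : T ≃ T') (hs : ∀ t, f (s t) = s' (f t)) (n : ℕ) (t : T) :
    f ((s ^ n) t) = (s' ^ n) (f t) := by
  induction n generalizing t with
  | zero => rfl
  | succ n ih => rw [pow_succ, pow_succ, Perm.mul_apply, Perm.mul_apply, ih, hs]

theorem Transp_same (f : T ≃ T') (hs : ∀ t, f (s t) = s' (f t)) {t t' : T} :
    s'.SameCycle (f t) (f t') ↔ s.SameCycle t t' := by
  constructor
  · intro h
    obtain ⟨n, -, hn⟩ := h.exists_pow_eq'
    refine ⟨n, ?_⟩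
    rw [← Transp_spow f hs] at hn
    rw [zpow_natCast]
    exact f.injective hn
  · intro h
    obtain ⟨n, -, hn⟩ := h.exists_pow_eq'
    exact ⟨n, by rw [zpow_natCast, ← Transp_spow f hs, hn]⟩

theorem Transp_mem (f : T ≃ T') {A : Finset T} {t : T} : f t ∈ A.map f.toEmbedding ↔ t ∈ A := by
  rw [mem_map_equiv, Equiv.symm_apply_apply]

theorem Rot.iso (f : T ≃ T') (ha : ∀ t, f (a t) = a' (f t)) (hs : ∀ t, f (s t) = s' (f t))
    (h : Rot a s ρ k r) : Rot a' s' ((f.symm.trans ρ).trans f) k (f r) where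
  ra t := by
    obtain ⟨t, rfl⟩ := f.surjective t
    rw [← ha, Transp_one, Transp_one, h.ra, ha]
  rs t := by
    obtain ⟨t, rfl⟩ := f.surjective t
    rw [← hs, Transp_one, Transp_one, h.rs, hs]
  k2 := h.k2
  pow t := by
    obtain ⟨t, rfl⟩ := f.surjective t
    rw [Transp_pow, h.pow]
  free t i h0 h1 := by
    obtain ⟨t, rfl⟩ := f.surjective t
    rw [Transp_pow]
    exact fun he => h.free t i h0 h1 (f.injective he)
  root := by
    rw [Transp_one, Transp_same f hs]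
    exact h.root

theorem VS.iso (f : T ≃ T') (ha : ∀ t, f (a t) = a' (f t)) (hs : ∀ t, f (s t) = s' (f t))
    (A : Finset T) : VS a' s' ((f.symm.trans ρ).trans f) k (f r) (A.map f.toEmbedding) ↔
      VS a s ρ k r A := by
  have hcut : cut s' (A.map f.toEmbedding) = cut s A := cut_iso f hs A
  constructor
  · intro h
    refine ⟨fun t => ?_, ?_, ?_, fun i h0 h1 t ht => ?_⟩
    · have := h.cl (f t)
      rw [← ha, Transp_mem, Transp_mem] at this
      exact this
    · rw [← hcut]; exact h.cut4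
    · obtain ⟨t, ht, hr⟩ := h.root
      obtain ⟨t, rfl⟩ := f.surjective t
      exact ⟨t, (Transp_mem f).1 ht, (Transp_same f hs).1 hr⟩
    · have := h.disj i h0 h1 (f t) ((Transp_mem f).2 ht)
      rw [Transp_pow, Transp_mem] at this
      exact this
  · intro h
    refine ⟨fun t => ?_, ?_, ?_, fun i h0 h1 t ht => ?_⟩
    · obtain ⟨t, rfl⟩ := f.surjective t
      rw [← ha, Transp_mem, Transp_mem]
      exact h.cl t
    · rw [hcut]; exact h.cut4
    · obtain ⟨t, ht, hr⟩ := h.root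
      exact ⟨f t, (Transp_mem f).2 ht, (Transp_same f hs).2 hr⟩
    · obtain ⟨t, rfl⟩ := f.surjective t
      rw [Transp_pow, Transp_mem]
      exact h.disj i h0 h1 t ((Transp_mem f).1 ht)

theorem MaxV.iso (f : T ≃ T') (ha : ∀ t, f (a t) = a' (f t)) (hs : ∀ t, f (s t) = s' (f t))
    (A : Finset T) : MaxV a' s' ((f.symm.trans ρ).trans f) k (f r) (A.map f.toEmbedding) ↔
      MaxV a s ρ k r A := by
  constructor
  · rintro ⟨h1, h2⟩
    refine ⟨(VS.iso f ha hs A).1 h1, fun B hB hAB => ?_⟩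
    have := h2 (B.map f.toEmbedding) ((VS.iso f ha hs B).2 hB) (map_subset_map.2 hAB)
    exact map_subset_map.1 this
  · rintro ⟨h1, h2⟩
    refine ⟨(VS.iso f ha hs A).2 h1, fun B hB hAB => ?_⟩
    have hBB : (B.map f.symm.toEmbedding).map f.toEmbedding = B := by
      ext t
      rw [mem_map_equiv, mem_map_equiv, Equiv.symm_symm, Equiv.apply_symm_apply]
    rw [← hBB] at hB hAB ⊢
    exact map_subset_map.2 (h2 _ ((VS.iso f ha hs _).1 hB) (map_subset_map.1 hAB))

theorem Bd.iso (f : T ≃ T') (ha : ∀ t, f (a t) = a' (f t)) (hs : ∀ t, f (s t) = s' (f t)) :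
    Bd a' s' ((f.symm.trans ρ).trans f) k (f r) ↔ Bd a s ρ k r := by
  constructor
  · rintro ⟨S, h1, h2⟩
    have hSS : (S.map f.symm.toEmbedding).map f.toEmbedding = S := by
      ext t
      rw [mem_map_equiv, mem_map_equiv, Equiv.symm_symm, Equiv.apply_symm_apply]
    rw [← hSS] at h1 h2
    refine ⟨_, (VS.iso f ha hs _).1 h1, fun t => ?_⟩
    obtain ⟨i, hi⟩ := h2 (f t)
    rw [Transp_pow, Transp_mem] at hi
    exact ⟨i, hi⟩
  · rintro ⟨S, h1, h2⟩
    refine ⟨_, (VS.iso f ha hs _).2 h1, fun t => ?_⟩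
    obtain ⟨t, rfl⟩ := f.surjective t
    obtain ⟨i, hi⟩ := h2 t
    refine ⟨i, ?_⟩
    rw [Transp_pow, Transp_mem]
    exact hi

theorem Transp_VS (h : Good a s) {ρ' : Perm T} (hr : Rot a s ρ k r) (hr' : Rot a s ρ' k r)
    {A : Finset T} (hA : VS a s ρ k r A) : VS a s ρ' k r A := by
  obtain ⟨j, hj, rfl⟩ := Rot.pow_eq h hr hr'
  refine ⟨hA.cl, hA.cut4, hA.root, fun i h0 h1 t ht => ?_⟩
  rw [← pow_mul, ← hr.pow_mod]
  refine hA.disj _ ?_ (Nat.mod_lt _ (by have := hr.k2; omega)) t ht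
  rw [Nat.pos_iff_ne_zero]
  intro h2
  have h3 : k ∣ j * i := Nat.dvd_of_mod_eq_zero h2
  have h4 : k ∣ i := (Nat.Coprime.dvd_of_dvd_mul_left hj.symm h3)
  exact absurd (Nat.le_of_dvd h0 h4) (by omega)

/-- the definitions depend only on the group generated by `ρ` (`Rot.pow_eq`) -/
theorem VS.indep (h : Good a s) {ρ' : Perm T} (hr : Rot a s ρ k r) (hr' : Rot a s ρ' k r)
    (A : Finset T) : VS a s ρ k r A ↔ VS a s ρ' k r A :=
  ⟨Transp_VS h hr hr', Transp_VS h hr' hr⟩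

theorem MaxV.indep (h : Good a s) {ρ' : Perm T} (hr : Rot a s ρ k r) (hr' : Rot a s ρ' k r)
    (A : Finset T) : MaxV a s ρ k r A ↔ MaxV a s ρ' k r A := by
  unfold MaxV
  rw [VS.indep h hr hr' A]
  simp only [VS.indep h hr hr']

theorem Transp_Bd (h : Good a s) {ρ' : Perm T} (hr : Rot a s ρ k r) (hr' : Rot a s ρ' k r)
    (hB : Bd a s ρ k r) : Bd a s ρ' k r := by
  obtain ⟨S, h1, h2⟩ := hB
  refine ⟨S, (VS.indep h hr hr' S).1 h1, fun t => ?_⟩
  obtain ⟨i, hi⟩ := h2 t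
  obtain ⟨j, -, hj⟩ := Rot.pow_eq h hr' hr
  refine ⟨j * i, ?_⟩
  rw [pow_mul, ← hj]
  exact hi

theorem Bd.indep (h : Good a s) {ρ' : Perm T} (hr : Rot a s ρ k r) (hr' : Rot a s ρ' k r) :
    Bd a s ρ k r ↔ Bd a s ρ' k r :=
  ⟨Transp_Bd h hr hr', Transp_Bd h hr' hr⟩

/-- a permutation commuting with `s` maps cycles to cycles -/
theorem Transp_sc {c : Perm T} (hs : ∀ t, ρ (c t) = c (ρ t)) {x y : T} (h : c.SameCycle x y) :
    c.SameCycle (ρ x) (ρ y) := (Transp_same (s := c) (s' := c) ρ hs).2 h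

theorem Transp_sc_pow {c : Perm T} (hs : ∀ t, ρ (c t) = c (ρ t)) {x : T}
    (h : c.SameCycle x (ρ x)) (i : ℕ) : c.SameCycle x ((ρ ^ i) x) := by
  induction i with
  | zero => exact Perm.SameCycle.refl _ _
  | succ i ih =>
    rw [pow_succ', Perm.mul_apply]
    exact h.trans (Transp_sc hs ih)

theorem Transp_PV (h : Good a s) {ρ' : Perm T} (hr : Rot a s ρ k r) (hr' : Rot a s ρ' k r) :
    (PV s ρ r → PV s ρ' r) ∧ (PF a s ρ → PF a s ρ') ∧ (PE a ρ → PE a ρ') := by
  obtain ⟨j, hj, rfl⟩ := Rot.pow_eq h hr hr'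
  refine ⟨?_, ?_, ?_⟩
  · rintro ⟨x, h1, h2⟩
    exact ⟨x, h1, Transp_sc_pow hr.rs h2 j⟩
  · rintro ⟨x, h1⟩
    refine ⟨x, Transp_sc_pow (fun t => ?_) h1 j⟩
    rw [Perm.mul_apply, Perm.mul_apply, hr.ra, hr.rs]
  · rintro ⟨x, h1⟩
    refine ⟨x, ?_⟩
    have h2 : (ρ ^ 2) x = x := by
      rw [pow_two, Perm.mul_apply, h1, hr.ra, h1, h.inv]
    have hk : k = 2 := by
      by_contra hne
      have := hr.k2
      exact hr.free x 2 (by omega) (by omega) h2
    subst hk
    rw [← hr.pow_mod]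
    have h3 : j % 2 = 1 := by
      rcases Nat.mod_two_eq_zero_or_one j with h4 | h4
      · exfalso
        have h5 : 2 ∣ Nat.gcd j 2 := Nat.dvd_gcd (Nat.dvd_of_mod_eq_zero h4) (dvd_refl 2)
        have h6 : Nat.gcd j 2 = 1 := hj
        rw [h6] at h5
        omega
      · exact h4
    rw [h3, pow_one, h1]

theorem PV.indep (h : Good a s) {ρ' : Perm T} (hr : Rot a s ρ k r) (hr' : Rot a s ρ' k r) :
    (PV s ρ r ↔ PV s ρ' r) ∧ (PF a s ρ ↔ PF a s ρ') ∧ (PE a ρ ↔ PE a ρ') := by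
  have h1 := Transp_PV h hr hr'
  have h2 := Transp_PV h hr' hr
  exact ⟨⟨h1.1, h2.1⟩, ⟨h1.2.1, h2.2.1⟩, ⟨h1.2.2, h2.2.2⟩⟩

/-- the root may be changed within the vertex -/
theorem Rot.root_change (hr : Rot a s ρ k r) {r' : T} (h : s.SameCycle r r') :
    Rot a s ρ k r' where
  ra := hr.ra
  rs := hr.rs
  k2 := hr.k2
  pow := hr.pow
  free := hr.free
  root := h.symm.trans (hr.root.trans (Transp_sc hr.rs h))

theorem VS.root_change {r' : T} (h : s.SameCycle r r') (A : Finset T) :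
    VS a s ρ k r A ↔ VS a s ρ k r' A := by
  constructor
  · rintro ⟨h1, h2, ⟨t, ht, ht'⟩, h4⟩
    exact ⟨h1, h2, ⟨t, ht, h.symm.trans ht'⟩, h4⟩
  · rintro ⟨h1, h2, ⟨t, ht, ht'⟩, h4⟩
    exact ⟨h1, h2, ⟨t, ht, h.trans ht'⟩, h4⟩

theorem MaxV.root_change {r' : T} (h : s.SameCycle r r') (A : Finset T) :
    MaxV a s ρ k r A ↔ MaxV a s ρ k r' A := by
  unfold MaxV
  rw [VS.root_change h A]
  simp only [VS.root_change h]

theorem Bd.root_change {r' : T} (h : s.SameCycle r r') :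
    Bd a s ρ k r ↔ Bd a s ρ k r' := by
  unfold Bd
  simp only [VS.root_change h]

end

end PGr

end

section
/-! # Module StarPl: the star is planar -/

set_option linter.unusedSectionVars false

namespace PGr
open Equiv Finset

private theorem StarPl_inv {X : Type*} (f : Perm X) (x : X) : f⁻¹ (f x) = x := by simp

private theorem StarPl_inv2 {X : Type*} (f : Perm X) (x : X) : f (f⁻¹ x) = x := by simp

section
variable {R : Type} [Fintype R] [DecidableEq R] {a s : Perm R} {K : Finset R} {p : R}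

/-- Proof.  Let `P`, `Q` be functions on the darts of the star with
`P t + Q (a t) = P (s t) + Q (s t)` at all corners `t` (`Pl`).  Write `f κ = inl (κ, false)`, `g κ = inl (κ, true)`,
`ψ = a * s` on `R`, `pred = (ret ψ K)⁻¹`.  The relations at the corners `inr κ` and `f κ` (`κ ∈ K`) are
`P κ + Q (a κ) = P (f κ) + Q (f κ)` and `P (f κ) + Q (g κ) = P (s κ) + Q (s κ)`; so with `b κ = Q (f κ) + Q (g κ)`:
`P κ + Q (a κ) + P (s κ) + Q (s κ) = b κ`.  The relation at `g κ` is `P (g κ) + Q (f κ) = P (g κ') + Q (g κ')`, `κ' = pred κ`; so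
with `β κ = P (g κ) + Q (g κ)`: `β κ + b κ = β (pred κ)`.
Define `ε` on `R`: on the face of `p` (the cycle of `ψ`), `ε t = β (κ⁻)` where `κ⁻` is the last element of `K` strictly before
`t` along `ψ` (for `κ ∈ K`: `ε κ = β (pred κ)`), and `ε = 0` on the other faces (`PlRestrict_run` for `ψ` and `K` gives such a
function).  Then `ε t + ε (ψ t) = b t` for `t ∈ K` and `0` for `t ∉ K`.  So `Q' t = Q t + ε (a t)` satisfies
`P t + Q' (a t) = P (s t) + Q' (s t)` for all `t ∈ R` (`a (s t) = ψ t`).  `Pl a s` gives `h` on `R` with `h (a t) = h t`,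
`h t + h (s t) = P t + P (s t)`.  Extend it to the spokes: `η κ = h κ + P κ + P (f κ)`.  The corners `inr κ`, `f κ` are
clear.  The corner `g κ`: to show `η κ + η κ' = P (g κ) + P (g κ')`, `κ' = pred κ`.  `h t + Q' (a t)` is constant on the face
(`InsPl.face`), so `h κ + h κ' = Q' (a κ) + Q' (a κ') = Q (a κ) + Q (a κ') + ε κ + ε κ'`, and
`Q (a κ) + P κ + P (f κ) = Q (f κ)`; so `η κ + η κ' = ε κ + Q (f κ) + ε κ' + Q (f κ')`, with
`ε κ = β κ'`, `ε κ' = β (pred κ') = β κ' + b κ'`: it is `b κ' + Q (f κ) + Q (f κ') = Q (g κ') + Q (f κ)`, which is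
`P (g κ) + P (g κ')` by the relation at `g κ`. -/
theorem star_pl (hinv : ∀ t, a (a t) = t) (h : Pl a s) (hp : p ∈ K)
    (hf : ∀ x ∈ K, (a * s).SameCycle p x) : Pl (starC a s K).aa (starC a s K).s := by
  classical
  intro P Q hPQ
  -- the relations at the corners
  have r0 : ∀ t, t ∉ K → P (Sum.inr t) + Q (Sum.inr (a t)) = P (Sum.inr (s t)) + Q (Sum.inr (s t)) := by
    intro t ht
    have h1 := hPQ (Sum.inr t)
    rw [starC_inr_not_mem a s K ht] at h1
    exact h1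
  have r1 : ∀ κ : {x // x ∈ K}, P (Sum.inr κ.1) + Q (Sum.inr (a κ.1)) =
      P (Sum.inl (κ, false)) + Q (Sum.inl (κ, false)) := by
    intro κ
    have h1 := hPQ (Sum.inr κ.1)
    rw [starC_inr_mem a s K κ.2] at h1
    exact h1
  have r2 : ∀ κ : {x // x ∈ K}, P (Sum.inl (κ, false)) + Q (Sum.inl (κ, true)) =
      P (Sum.inr (s κ.1)) + Q (Sum.inr (s κ.1)) := by
    intro κ
    have h1 := hPQ (Sum.inl (κ, false))
    rw [starC_false a s K κ] at h1
    exact h1
  have r3 : ∀ κ : {x // x ∈ K}, P (Sum.inl (κ, true)) + Q (Sum.inl (κ, false)) =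
      P (Sum.inl ((ret (a * s) K)⁻¹ κ, true)) + Q (Sum.inl ((ret (a * s) K)⁻¹ κ, true)) := by
    intro κ
    have h1 := hPQ (Sum.inl (κ, true))
    rw [starC_true a s K κ] at h1
    exact h1
  let β : {x // x ∈ K} → ZMod 2 := fun κ => P (Sum.inl (κ, true)) + Q (Sum.inl (κ, true))
  let b : {x // x ∈ K} → ZMod 2 := fun κ => Q (Sum.inl (κ, false)) + Q (Sum.inl (κ, true))
  have hβb : ∀ κ, β κ + b κ = β ((ret (a * s) K)⁻¹ κ) := by
    intro κ
    have h1 := r3 κ
    show P (Sum.inl (κ, true)) + Q (Sum.inl (κ, true)) +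
      (Q (Sum.inl (κ, false)) + Q (Sum.inl (κ, true))) = P (Sum.inl ((ret (a * s) K)⁻¹ κ, true)) +
        Q (Sum.inl ((ret (a * s) K)⁻¹ κ, true))
    grind
  -- the function on the face
  obtain ⟨F, F1, F2, F3⟩ := PlRestrict_run (a * s) K β (fun κ => β ((ret (a * s) K)⁻¹ κ)) (by
    intro κ
    show β κ = β ((ret (a * s) K)⁻¹ (ret (a * s) K κ))
    rw [StarPl_inv])
  let ε : R → ZMod 2 := fun t => F ((a * s)⁻¹ t)
  have hε1 : ∀ κ : {x // x ∈ K}, ε κ.1 = β ((ret (a * s) K)⁻¹ κ) := by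
    intro κ
    have h1 : (a * s) ((a * s)⁻¹ κ.1) = κ.1 := StarPl_inv2 _ _
    have h2 := F3 ((a * s)⁻¹ κ.1) (by rw [h1]; exact κ.2)
    show F ((a * s)⁻¹ κ.1) = _
    rw [h2]
    congr 3
  have hε2 : ∀ κ : {x // x ∈ K}, ε ((a * s) κ.1) = β κ := by
    intro κ
    show F ((a * s)⁻¹ ((a * s) κ.1)) = _
    rw [StarPl_inv]
    exact F1 κ
  have hε3 : ∀ t, t ∉ K → ε ((a * s) t) = ε t := by
    intro t ht
    show F ((a * s)⁻¹ ((a * s) t)) = F ((a * s)⁻¹ t)
    rw [StarPl_inv]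
    have h1 : (a * s) ((a * s)⁻¹ t) = t := StarPl_inv2 _ _
    have h2 := F2 ((a * s)⁻¹ t) (by rw [h1]; exact ht)
    rw [h1] at h2
    exact h2
  have hψ : ∀ t, a (s t) = (a * s) t := fun t => rfl
  let Q' : R → ZMod 2 := fun t => Q (Sum.inr t) + ε (a t)
  have hE : ∀ t, P (Sum.inr t) + Q' (a t) = P (Sum.inr (s t)) + Q' (s t) := by
    intro t
    show P (Sum.inr t) + (Q (Sum.inr (a t)) + ε (a (a t))) =
      P (Sum.inr (s t)) + (Q (Sum.inr (s t)) + ε (a (s t)))
    rw [hinv, hψ]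
    by_cases ht : t ∈ K
    · have h1 := hε1 ⟨t, ht⟩
      have h2 := hε2 ⟨t, ht⟩
      have h3 := hβb ⟨t, ht⟩
      have h4 := r1 ⟨t, ht⟩
      have h5 := r2 ⟨t, ht⟩
      have h6 : b ⟨t, ht⟩ = Q (Sum.inl (⟨t, ht⟩, false)) + Q (Sum.inl (⟨t, ht⟩, true)) := rfl
      simp only at h1 h2 h4 h5
      rw [h1, h2, ← h3, h6]
      clear h1 h2 h3 h6
      grind
    · rw [hε3 t ht]
      have h1 := r0 t ht
      grind
  obtain ⟨h0, ha, hs⟩ := h (fun t => P (Sum.inr t)) Q' hE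
  have hface := InsPl.face hinv hE ha hs
  have hconst : ∀ x ∈ K, h0 x + Q' (a x) = h0 p + Q' (a p) := by
    intro x hx
    obtain ⟨k, hk⟩ := InsPl.exists_pow (hf x hx)
    rw [← hk]
    exact hface p k
  let η : {x // x ∈ K} → ZMod 2 := fun κ => h0 κ.1 + P (Sum.inr κ.1) + P (Sum.inl (κ, false))
  refine ⟨Sum.elim (fun x => η x.1) h0, ?_, ?_⟩
  · rintro (⟨κ, c⟩ | t)
    · rfl
    · exact ha t
  · rintro (⟨κ, _ | _⟩ | t)
    · rw [starC_false a s K κ]
      show η κ + h0 (s κ.1) = P (Sum.inl (κ, false)) + P (Sum.inr (s κ.1))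
      have h1 := hs κ.1
      show h0 κ.1 + P (Sum.inr κ.1) + P (Sum.inl (κ, false)) + h0 (s κ.1) = _
      grind
    · rw [starC_true a s K κ]
      show η κ + η ((ret (a * s) K)⁻¹ κ) =
        P (Sum.inl (κ, true)) + P (Sum.inl ((ret (a * s) K)⁻¹ κ, true))
      have h1 := r3 κ
      have h2 := hβb ((ret (a * s) K)⁻¹ κ)
      have h3 := hε1 κ
      have h4 := hε1 ((ret (a * s) K)⁻¹ κ)
      generalize (ret (a * s) K)⁻¹ κ = κ' at h1 h2 h3 h4 ⊢
      have h5 := (hconst κ.1 κ.2).trans (hconst κ'.1 κ'.2).symm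
      have h6 : h0 κ.1 + (Q (Sum.inr (a κ.1)) + ε (a (a κ.1))) =
        h0 κ'.1 + (Q (Sum.inr (a κ'.1)) + ε (a (a κ'.1))) := h5
      rw [hinv, hinv, h3, h4, ← h2] at h6
      have h7 := r1 κ
      have h8 := r1 κ'
      have h9 : b κ' = Q (Sum.inl (κ', false)) + Q (Sum.inl (κ', true)) := rfl
      rw [h9] at h6
      show h0 κ.1 + P (Sum.inr κ.1) + P (Sum.inl (κ, false)) +
        (h0 κ'.1 + P (Sum.inr κ'.1) + P (Sum.inl (κ', false))) = _
      clear h2 h3 h4 h5 h9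
      grind
    · by_cases ht : t ∈ K
      · rw [starC_inr_mem a s K ht]
        show h0 t + η ⟨t, ht⟩ = P (Sum.inr t) + P (Sum.inl (⟨t, ht⟩, false))
        show h0 t + (h0 t + P (Sum.inr t) + P (Sum.inl (⟨t, ht⟩, false))) = _
        grind
      · rw [starC_inr_not_mem a s K ht]
        exact hs t

theorem star_good (h : NP a s) (hp : p ∈ K) (hK : 2 ≤ K.card)
    (hf : ∀ x ∈ K, (a * s).SameCycle p x) : (starC a s K).IsGood where
  inv := by
    rintro (⟨κ, c⟩ | t)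
    · change (Sum.inl (κ, !(!c)) : (starC a s K).T) = _
      rw [Bool.not_not]
    · change (Sum.inr (a (a t)) : (starC a s K).T) = _
      rw [h.inv]
  fpf := by
    rintro (⟨κ, c⟩ | t) h1
    · have h2 : (Sum.inl (κ, !c) : (starC a s K).T) = Sum.inl (κ, c) := h1
      have h3 := congrArg Prod.snd (Sum.inl_injective h2)
      cases c <;> exact Bool.noConfusion h3
    · have h2 : (Sum.inr (a t) : (starC a s K).T) = Sum.inr t := h1
      exact h.fpf t (Sum.inr_injective h2)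
  ns := star_ns h.ns h.inv hK hf
  pl := star_pl h.inv h.pl hp hf
  big := by
    change 4 ≤ Fintype.card (({x // x ∈ K} × Bool) ⊕ R)
    rw [Fintype.card_sum, Fintype.card_prod, Fintype.card_bool, Fintype.card_coe]
    omega

end

end PGr

end

section
/-! # Module FanA: the fan is a good map with a rotation -/

set_option linter.unusedSectionVars false

namespace PGr
open Equiv Finset

theorem FanA_pow {T T' : Type*} (s : Perm T) (s' : Perm T') (f : T → T')
    (hs : ∀ t, f (s t) = s' (f t)) (n : ℕ) (t : T) : f ((s ^ n) t) = (s' ^ n) (f t) := by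
  induction n generalizing t with
  | zero => rfl
  | succ n ih => rw [pow_succ', pow_succ', Perm.mul_apply, Perm.mul_apply, hs, ih]

/-- first returns and isomorphisms -/
theorem FanA_ret {T T' : Type*} [Fintype T] [DecidableEq T] [Fintype T'] [DecidableEq T']
    {s : Perm T} {s' : Perm T'} {S : Finset T} {S' : Finset T'} (f : T ≃ T')
    (hs : ∀ t, f (s t) = s' (f t)) (hS : ∀ x, f x ∈ S' ↔ x ∈ S) (x : {x // x ∈ S}) :
    ret s' S' ⟨f x.1, (hS _).2 x.2⟩ = ⟨f (ret s S x).1, (hS _).2 (ret s S x).2⟩ := by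
  obtain ⟨k, hk, h1, h2⟩ := exists_ret s S x
  have h3 : (s' ^ k) (f x.1) = f (ret s S x).1 := by rw [← FanA_pow s s' f hs, h1]
  rw [ret_spec s' S' ⟨f x.1, (hS _).2 x.2⟩ hk (by
    show (s' ^ k) (f x.1) ∈ S'
    rw [h3]; exact (hS _).2 (ret s S x).2) (fun i hi hik => by
    show (s' ^ i) (f x.1) ∉ S'
    rw [← FanA_pow s s' f hs, hS]
    exact h2 i hi hik)]
  exact Subtype.ext h3

theorem FanA_ret_inv {T T' : Type*} [Fintype T] [DecidableEq T] [Fintype T'] [DecidableEq T']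
    {s : Perm T} {s' : Perm T'} {S : Finset T} {S' : Finset T'} (f : T ≃ T')
    (hs : ∀ t, f (s t) = s' (f t)) (hS : ∀ x, f x ∈ S' ↔ x ∈ S) (x : {x // x ∈ S}) :
    (ret s' S')⁻¹ ⟨f x.1, (hS _).2 x.2⟩ =
      ⟨f ((ret s S)⁻¹ x).1, (hS _).2 ((ret s S)⁻¹ x).2⟩ := by
  rw [Perm.inv_eq_iff_eq, FanA_ret f hs hS]
  apply Subtype.ext
  show f x.1 = f (ret s S ((ret s S).symm x)).1
  rw [Equiv.apply_symm_apply]

/-- the bijection of the spokes -/
def FanA_eK {R R' : Type} {K : Finset R} {K' : Finset R'} (f : R ≃ R')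
    (hK : ∀ x, f x ∈ K' ↔ x ∈ K) : {x // x ∈ K} ≃ {x // x ∈ K'} where
  toFun x := ⟨f x.1, (hK _).2 x.2⟩
  invFun x := ⟨f.symm x.1, by
    have h := hK (f.symm x.1)
    rw [Equiv.apply_symm_apply] at h
    exact h.1 x.2⟩
  left_inv x := Subtype.ext (f.symm_apply_apply _)
  right_inv x := Subtype.ext (f.apply_symm_apply _)

/-- isomorphisms of stars -/
theorem FanA_star {R R' : Type} [Fintype R] [DecidableEq R] [Fintype R'] [DecidableEq R']
    {a s : Perm R} {a' s' : Perm R'} {K : Finset R} {K' : Finset R'} (f : R ≃ R')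
    (fa : ∀ t, f (a t) = a' (f t)) (fs : ∀ t, f (s t) = s' (f t)) (hK : ∀ x, f x ∈ K' ↔ x ∈ K)
    (x : (starC a s K).T) :
    gmap (C := starC a s K) (C' := starC a' s' K') (FanA_eK f hK) f (fun _ => false)
      ((starC a s K).s x) =
      (starC a' s' K').s (gmap (C := starC a s K) (C' := starC a' s' K') (FanA_eK f hK) f
        (fun _ => false) x) := by
  have has : ∀ t, f ((a * s) t) = (a' * s') (f t) := by
    intro t
    rw [Perm.mul_apply, Perm.mul_apply, fa, fs]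
  rcases x with ⟨κ, _ | _⟩ | q
  · rw [starC_false]
    show Sum.inr (f (s κ.1)) = (starC a' s' K').s (Sum.inl (⟨f κ.1, (hK _).2 κ.2⟩, false))
    rw [starC_false, fs]
  · rw [starC_true]
    show Sum.inl ((⟨f ((ret (a * s) K)⁻¹ κ).1, _⟩ : {x // x ∈ K'}), true) =
      (starC a' s' K').s (Sum.inl (⟨f κ.1, (hK _).2 κ.2⟩, true))
    rw [starC_true, FanA_ret_inv f has hK]
  · by_cases hq : q ∈ K
    · rw [starC_inr_mem a s K hq]
      show Sum.inl ((⟨f q, _⟩ : {x // x ∈ K'}), false) = (starC a' s' K').s (Sum.inr (f q))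
      rw [starC_inr_mem a' s' K' ((hK q).2 hq)]
      rfl
    · rw [starC_inr_not_mem a s K hq]
      show Sum.inr (f (s q)) = (starC a' s' K').s (Sum.inr (f q))
      rw [starC_inr_not_mem a' s' K' (fun h => hq ((hK q).1 h)), fs]

/-- isomorphisms of fans -/
theorem FanA_iso {k : ℕ} {X X' : FanD k} (f : X.R ≃ X'.R)
    (fa : ∀ t, f (X.a t) = X'.a (f t)) (fs : ∀ t, f (X.s t) = X'.s (f t))
    (fK : ∀ x, f x ∈ X'.K ↔ x ∈ X.K)
    (g : ∀ κ : {x // x ∈ X.K}, (X.N κ).1.T ≃ (X'.N ⟨f κ.1, (fK _).2 κ.2⟩).1.T)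
    (ga : ∀ κ t, g κ ((X.N κ).1.aa t) = (X'.N ⟨f κ.1, (fK _).2 κ.2⟩).1.aa (g κ t))
    (gs : ∀ κ t, g κ ((X.N κ).1.s t) = (X'.N ⟨f κ.1, (fK _).2 κ.2⟩).1.s (g κ t))
    (gr : ∀ κ b, g κ (Sum.inr b) = Sum.inr b) :
    ∃ e : X.FT ≃ X'.FT, (∀ t, e (X.Fa t) = X'.Fa (e t)) ∧ (∀ t, e (X.Fs t) = X'.Fs (e t)) ∧
      (∀ t, e (Sum.inr t) = Sum.inr (f t)) ∧
      ∀ κ d d', g κ (Sum.inl d) = Sum.inl d' →
        e (Sum.inl ⟨κ, d⟩) = Sum.inl ⟨⟨f κ.1, (fK _).2 κ.2⟩, d'⟩ := by
  obtain ⟨e, h1, h2, h3, h4⟩ := GCo.iso_of (C := X.C) (C' := X'.C) (N := X.N) (N' := X'.N)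
    (FanA_eK f fK) f (fun _ => false) fa (FanA_star f fa fs fK) g ga gs
    (fun κ b => (gr κ b).trans (by cases b <;> rfl))
  exact ⟨e, h1, h2, h3, h4⟩

namespace FanD
variable {k : ℕ} (X : FanD k)

theorem FanA_rho_s (t : X.R) : X.ρ (X.s t) = X.s (X.ρ t) := by
  have h1 := X.rot.rs t
  rw [Perm.mul_apply, Perm.mul_apply, X.rot.ra] at h1
  exact X.a.injective h1

/-- `p` and `ρ p` -/
theorem two_le : 2 ≤ X.K.card := by
  have h1 : X.ρ X.p ≠ X.p := by
    have := X.rot.free X.p 1 one_pos X.rot.k2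
    rwa [pow_one] at this
  exact Finset.one_lt_card.2 ⟨X.ρ X.p, (X.inv X.p).2 X.pK, X.p, X.pK, h1⟩

theorem C_good : X.C.IsGood := star_good X.np X.pK X.two_le X.face

theorem good : Good X.Fa X.Fs := GCo.F_good X.C X.N X.C_good

theorem FanA_sc_rt {d : X.N0.1.D} (hd : X.AtPole d) :
    X.Fs.SameCycle (gjump X.C X.N (Sum.inl (⟨X.p, X.pK⟩, true))) (X.rt d) :=
  GCo.sc_pole X.C X.N hd.symm

/-- the darts at the new vertex: the darts of the nets at the pole `true` -/
theorem root_iff {d : X.N0.1.D} (hd : X.AtPole d) (t : X.FT) :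
    X.Fs.SameCycle (X.rt d) t ↔
      ∃ κ d', t = Sum.inl ⟨κ, d'⟩ ∧ (X.N κ).1.s.SameCycle (Sum.inr true) (Sum.inl d') := by
  have h0 := X.FanA_sc_rt hd
  constructor
  · intro h
    rcases t with ⟨κ, d'⟩ | y
    · by_cases hp : ∀ b, ¬ (X.N κ).1.s.SameCycle (Sum.inl d') (Sum.inr b)
      · exfalso
        obtain ⟨d'', h1, h2⟩ := (GCo.sc_inner X.C X.N hp (X.rt d)).1 h.symm
        have h3 : (⟨⟨X.p, X.pK⟩, d⟩ : Σ κ : {x // x ∈ X.K}, (X.N κ).1.D) = ⟨κ, d''⟩ :=
          Sum.inl_injective h1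
        obtain ⟨h4, h5⟩ := Sigma.mk.inj_iff.1 h3
        subst h4
        have h6 := eq_of_heq h5
        subst h6
        exact hp true (h2.trans hd.symm)
      · push Not at hp
        obtain ⟨b, hb⟩ := hp
        have h1 := GCo.sc_pole X.C X.N hb
        have h2 : X.C.s.SameCycle (Sum.inl (⟨X.p, X.pK⟩, true)) (Sum.inl (κ, b)) :=
          (GCo.sc_jump X.C X.N).1 (h0.trans (h.trans h1.symm))
        cases b
        · exfalso
          have h3 := (star_sc_spoke (a := X.a) (s := X.s) κ κ.1).2 (Perm.SameCycle.refl _ _)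
          exact star_sc_ne ⟨X.p, X.pK⟩ κ.1 (h2.trans h3)
        · exact ⟨κ, d', rfl, hb.symm⟩
    · exfalso
      have h2 : X.C.s.SameCycle (Sum.inl (⟨X.p, X.pK⟩, true)) (Sum.inr y) :=
        (GCo.sc_jump X.C X.N).1 (h0.trans h)
      exact star_sc_ne ⟨X.p, X.pK⟩ y h2
  · rintro ⟨κ, d', rfl, h⟩
    have h1 := GCo.sc_pole X.C X.N h.symm
    have h2 : X.C.s.SameCycle (Sum.inl (⟨X.p, X.pK⟩, true)) (Sum.inl (κ, true)) :=
      star_root X.face ⟨X.p, X.pK⟩ κ
    exact h0.symm.trans (((GCo.sc_jump X.C X.N).2 h2).trans h1)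

/-- old vertices -/
theorem sc_inr (x y : X.R) : X.Fs.SameCycle (Sum.inr x) (Sum.inr y) ↔ X.s.SameCycle x y :=
  (GCo.sc_jump X.C X.N (x := Sum.inr x) (y := Sum.inr y)).trans (star_sc x y)

/-- the darts of a net at the pole `false` are at the vertex of its corner -/
theorem sc_false (κ : {x // x ∈ X.K}) {d : (X.N κ).1.D}
    (hd : (X.N κ).1.s.SameCycle (Sum.inr false) (Sum.inl d)) :
    X.Fs.SameCycle (Sum.inr κ.1) (Sum.inl ⟨κ, d⟩) := by
  have h3 : X.C.s.SameCycle (Sum.inl (κ, false)) (Sum.inr κ.1) :=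
    (star_sc_spoke (a := X.a) (s := X.s) κ κ.1).2 (Perm.SameCycle.refl _ _)
  exact ((GCo.sc_jump X.C X.N).2 h3.symm).trans (GCo.sc_pole X.C X.N hd.symm)

/-- the rotation with all its properties -/
theorem FanA_rot : ∃ ρF : Perm X.FT, (∀ t, ρF (X.Fa t) = X.Fa (ρF t)) ∧
    (∀ t, ρF (X.Fs t) = X.Fs (ρF t)) ∧ (∀ t, ρF (Sum.inr t) = Sum.inr (X.ρ t)) ∧
    ∀ (κ : {x // x ∈ X.K}) (d : (X.N κ).1.D),
      ∃ d', ρF (Sum.inl ⟨κ, d⟩) = Sum.inl ⟨⟨X.ρ κ.1, (X.inv κ.1).2 κ.2⟩, d'⟩ ∧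
        ((X.N κ).1.s.SameCycle (Sum.inr true) (Sum.inl d) →
          (X.N ⟨X.ρ κ.1, (X.inv κ.1).2 κ.2⟩).1.s.SameCycle (Sum.inr true) (Sum.inl d')) := by
  have h0 : ∀ κ : {x // x ∈ X.K}, ∃ g : (X.N κ).1.T ≃ (X.N ⟨X.ρ κ.1, (X.inv κ.1).2 κ.2⟩).1.T,
      (∀ t, g ((X.N κ).1.aa t) = (X.N ⟨X.ρ κ.1, (X.inv κ.1).2 κ.2⟩).1.aa (g t)) ∧
      (∀ t, g ((X.N κ).1.s t) = (X.N ⟨X.ρ κ.1, (X.inv κ.1).2 κ.2⟩).1.s (g t)) ∧
      ∀ b, g (Sum.inr b) = Sum.inr b := by
    intro κ
    obtain ⟨g, h1, h2, h3⟩ := (CIso_false.2 (X.per κ.1 κ.2)).choose_iso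
    exact ⟨g, h1, h2, fun b => by rw [h3]; cases b <;> rfl⟩
  choose g ga gs gr using h0
  obtain ⟨e, h1, h2, h3, h4⟩ := FanA_iso (X := X) (X' := X) X.ρ X.rot.ra X.FanA_rho_s X.inv g
    ga gs gr
  refine ⟨e, h1, h2, h3, fun κ d => ?_⟩
  obtain ⟨g', hg'⟩ := GIso_net (c := false) (g κ) (fun b => by rw [gr]; cases b <;> rfl)
  refine ⟨g' d, h4 κ d _ (hg' d), fun h5 => ?_⟩
  obtain ⟨n, -, hn⟩ := h5.exists_pow_eq'
  refine ⟨n, ?_⟩
  rw [zpow_natCast, ← gr κ true, ← FanA_pow _ _ (g κ) (gs κ), hn, hg']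

/-- The rotation: `GCo.iso_of` for the core `starC a s K` and the bijections `κ ↦ ρ κ`, `t ↦ ρ t`, no reversal (`ρ` commutes
with `ret (a * s) K`), and the isomorphisms `X.per` of the nets, gives a permutation `ρF` commuting with `Fa`, `Fs`.  `ρF ^ k`
fixes all darts `inr t`, so it is 1 (`iso_unique`), and `ρF ^ i`, `0 < i < k`, moves the darts `inr t`, so `orderOf ρF = k`;
`Rot.of_order`. -/
theorem exists_rot {d : X.N0.1.D} (hd : X.AtPole d) : ∃ ρF : Perm X.FT,
    Rot X.Fa X.Fs ρF k (X.rt d) ∧ ∀ t, ρF (Sum.inr t) = Sum.inr (X.ρ t) := by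
  obtain ⟨ρF, h1, h2, h3, h4⟩ := X.FanA_rot
  refine ⟨ρF, ?_, h3⟩
  have hpow : ∀ (n : ℕ) (t : X.R), (ρF ^ n) (Sum.inr t) = Sum.inr ((X.ρ ^ n) t) := by
    intro n t
    exact (FanA_pow X.ρ ρF (fun t => (Sum.inr t : X.FT)) (fun t => (h3 t).symm) n t).symm
  have hca : ∀ (n : ℕ) t, (ρF ^ n) (X.Fa t) = X.Fa ((ρF ^ n) t) := by
    intro n t
    have := FanA_pow ρF ρF (fun t => X.Fa t) (fun t => (h1 t).symm) n t
    exact this.symm
  have hcs : ∀ (n : ℕ) t, (ρF ^ n) (X.Fs t) = X.Fs ((ρF ^ n) t) := by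
    intro n t
    have := FanA_pow ρF ρF (fun t => X.Fs t) (fun t => (h2 t).symm) n t
    exact this.symm
  have hk2 := X.rot.k2
  have hk : ρF ^ k = 1 := by
    refine iso_unique X.good (Sum.inr X.p) (ρF ^ k) 1 (hca k) (hcs k) (fun _ => rfl)
      (fun _ => rfl) ?_
    rw [hpow, X.rot.pow]
    rfl
  have ho : orderOf ρF = k := by
    rw [orderOf_eq_iff (by omega)]
    refine ⟨hk, fun m hm h0 h5 => ?_⟩
    have h6 := hpow m X.p
    rw [h5] at h6
    have h7 : (Sum.inr X.p : X.FT) = Sum.inr ((X.ρ ^ m) X.p) := h6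
    exact X.rot.free X.p m h0 hm (Sum.inr_injective h7).symm
  refine Rot.of_order X.good h1 h2 ho hk2 ?_
  obtain ⟨d', h5, h6⟩ := h4 ⟨X.p, X.pK⟩ d
  rw [X.root_iff hd]
  exact ⟨_, d', h5, h6 hd⟩

/-- any rotation which is `ρ` on the darts `inr t` permutes the parts: it is the one constructed in `exists_rot` by
`iso_unique` -/
theorem rot_part {d : X.N0.1.D} (hd : X.AtPole d) {ρF : Perm X.FT}
    (hr : Rot X.Fa X.Fs ρF k (X.rt d)) (h : ∀ t, ρF (Sum.inr t) = Sum.inr (X.ρ t))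
    (κ : {x // x ∈ X.K}) (t : X.FT) :
    ρF t ∈ X.C.part X.N ⟨X.ρ κ.1, (X.inv κ.1).2 κ.2⟩ ↔ t ∈ X.C.part X.N κ := by
  obtain ⟨ρ', h1, h2, h3, h4⟩ := X.FanA_rot
  have he : ρF = ρ' := iso_unique X.good (Sum.inr X.p) ρF ρ' hr.ra hr.rs h1 h2 (by rw [h, h3])
  subst he
  rw [GCo.mem_part, GCo.mem_part]
  constructor
  · rintro ⟨d₁, hd₁⟩
    rcases t with ⟨κ', d'⟩ | y
    · obtain ⟨d'', h5, -⟩ := h4 κ' d'
      rw [h5] at hd₁
      have h6 : (⟨⟨X.ρ κ'.1, (X.inv κ'.1).2 κ'.2⟩, d''⟩ : Σ κ : {x // x ∈ X.K}, (X.N κ).1.D) =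
        ⟨⟨X.ρ κ.1, (X.inv κ.1).2 κ.2⟩, d₁⟩ := Sum.inl_injective hd₁
      have h7 := congrArg (fun z => z.1.1) h6
      have h8 : κ' = κ := Subtype.ext (X.ρ.injective h7)
      subst h8
      exact ⟨d', rfl⟩
    · rw [h] at hd₁
      simp at hd₁
  · rintro ⟨d₁, rfl⟩
    obtain ⟨d'', h5, -⟩ := h4 κ d₁
    exact ⟨d'', h5⟩

end FanD

end PGr

end

section
/-!
# Generating functions of the maps with a rotation: definitions

`k` is the order of the rotation.  The weights are given by their `k`-th roots: `S`, `F`, `Y` for the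
vertices, faces, edges which are not fixed, `kv`, `kf`, `ke` for a fixed vertex (not the root vertex),
a fixed face, a reversed edge, `Z` for the darts at the root vertex (which has no weight `S`).
-/

set_option linter.unusedSectionVars false

namespace PGr
open Equiv Finset
open scoped ENNReal Classical

/-- the weight of a map with a rotation about a vertex -/
noncomputable def wR {T : Type*} [Fintype T] (S F Y kv kf ke Z : ℝ≥0∞) (a s ρ : Perm T) (r : T) :
    ℝ≥0∞ :=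
  S ^ (nV s - nFix s ρ) * F ^ (nV (a * s) - nFix (a * s) ρ) *
    Y ^ (Fintype.card T / 2 - nFix a ρ) * kv ^ (nFix s ρ - 1) * kf ^ nFix (a * s) ρ *
    ke ^ nFix a ρ * Z ^ dgs s r

/-- rooted map with a rotation of order `k` about the root vertex -/
def IsV (k : ℕ) (M : BMap) : Prop := ∃ ρ, Rot M.aa M.s ρ k (Sum.inr true)

/-- rooted map with a rotation of order `k` about the root face -/
def IsFo (k : ℕ) (M : BMap) : Prop := ∃ ρ, Rot M.aa (M.aa * M.s) ρ k (Sum.inr true)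

/-- ... about the root vertex, not a bond -/
def IsNB (k : ℕ) (M : BMap) : Prop :=
  ∃ ρ, Rot M.aa M.s ρ k (Sum.inr true) ∧ ¬ Bd M.aa M.s ρ k (Sum.inr true)

/-- ... about the root vertex, a bond -/
def IsBd (k : ℕ) (M : BMap) : Prop :=
  ∃ ρ, Rot M.aa M.s ρ k (Sum.inr true) ∧ Bd M.aa M.s ρ k (Sum.inr true)

/-- the weight of a rooted map with a rotation about the root vertex -/
noncomputable def wV (k : ℕ) (S F Y kv kf ke Z : ℝ≥0∞) (M : BMap) : ℝ≥0∞ :=
  if h : IsV k M then wR S F Y kv kf ke Z M.aa M.s h.choose (Sum.inr true) else 0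

/-- the weight of a rooted map with a rotation about the root face (which has no weight `F`); `Z` is
the weight of the corners of the root face -/
noncomputable def wF (k : ℕ) (S F Y kv kf ke Z : ℝ≥0∞) (M : BMap) : ℝ≥0∞ :=
  if h : IsFo k M then wR F S Y kf kv ke Z M.aa (M.aa * M.s) h.choose (Sum.inr true) else 0

/-- all maps with a rotation about the root vertex -/
noncomputable def gV (k : ℕ) (S F Y kv kf ke Z : ℝ≥0∞) : ℝ≥0∞ :=
  ∑' c : GC, wV k S F Y kv kf ke Z c.rep.1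

/-- all maps with a rotation about the root face -/
noncomputable def gF (k : ℕ) (S F Y kv kf ke Z : ℝ≥0∞) : ℝ≥0∞ :=
  ∑' c : GC, wF k S F Y kv kf ke Z c.rep.1

/-- no bonds -/
noncomputable def gNB (k : ℕ) (S F Y kv kf ke Z : ℝ≥0∞) : ℝ≥0∞ :=
  ∑' c : GC, if IsNB k c.rep.1 then wV k S F Y kv kf ke Z c.rep.1 else 0

/-- bonds -/
noncomputable def gBD (k : ℕ) (S F Y kv kf ke Z : ℝ≥0∞) : ℝ≥0∞ :=
  ∑' c : GC, if IsBd k c.rep.1 then wV k S F Y kv kf ke Z c.rep.1 else 0

/-- at most `M` orbits of edges -/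
noncomputable def gVt (k M : ℕ) (S F Y kv kf ke Z : ℝ≥0∞) : ℝ≥0∞ :=
  ∑' c : GC, if Fintype.card c.rep.1.T ≤ 2 * k * M then wV k S F Y kv kf ke Z c.rep.1 else 0

noncomputable def gFt (k M : ℕ) (S F Y kv kf ke Z : ℝ≥0∞) : ℝ≥0∞ :=
  ∑' c : GC, if Fintype.card c.rep.1.T ≤ 2 * k * M then wF k S F Y kv kf ke Z c.rep.1 else 0

noncomputable def gNBt (k M : ℕ) (S F Y kv kf ke Z : ℝ≥0∞) : ℝ≥0∞ :=
  ∑' c : GC, if IsNB k c.rep.1 ∧ Fintype.card c.rep.1.T ≤ 2 * k * M then
    wV k S F Y kv kf ke Z c.rep.1 else 0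

/-- the link (one edge, reversed by the rotation of order 2) as a map with a rotation about its face -/
noncomputable def lkw (k : ℕ) (S ke Z : ℝ≥0∞) : ℝ≥0∞ := if k = 2 then ke * S ^ 2 * Z ^ 2 else 0

/-- number of nonroot darts at the root vertex -/
noncomputable def pd (M : BMap) : ℕ := dgs M.s (Sum.inr true) - 1

/-- the weight of a net: inner vertices, faces (all but one), nonroot edges, nonroot darts at the pole -/
noncomputable def nw (s f y z : ℝ≥0∞) (M : BMap) : ℝ≥0∞ :=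
  s ^ (nV M.s - 2) * f ^ (nV (M.aa * M.s) - 1) * y ^ (Fintype.card M.D / 2) * z ^ pd M

/-- generating function of the nets -/
noncomputable def eN (s f y z : ℝ≥0∞) : ℝ≥0∞ := ∑' c : GC, nw s f y z c.rep.1

/-- the same with a marked nonroot dart at the pole -/
noncomputable def eD (s f y z : ℝ≥0∞) : ℝ≥0∞ := ∑' c : GC, (pd c.rep.1 : ℝ≥0∞) * nw s f y z c.rep.1

/-! ### Codes of fans -/

/-- `ω` puts nets in some corners of the root face, in the root corner, and is invariant under `ρ` -/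
structure FCond (M : BMap) (ρ : Perm M.T) (ω : M.T → Option GC) : Prop where
  supp : ∀ t, ω t ≠ none → (M.aa * M.s).SameCycle (Sum.inr true) t
  per : ∀ t, ω (ρ t) = ω t
  root : ω (Sum.inr true) ≠ none

/-- the net of an option -/
noncomputable def onet (o : Option GC) (h : o ≠ none) : GB :=
  (o.get (Option.isSome_iff_ne_none.2 h)).rep

theorem NP.of_good {T : Type*} [Fintype T] [DecidableEq T] {a s : Perm T} (h : Good a s) :
    NP a s := ⟨h.inv, h.fpf, h.ns, h.pl⟩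

/-- the fan of a code -/
noncomputable def FanD.ofCode (k : ℕ) (c : GC) (h : IsFo k c.rep.1) (ω : c.rep.1.T → Option GC)
    (hω : FCond c.rep.1 h.choose ω) : FanD k where
  R := c.rep.1.T
  a := c.rep.1.aa
  s := c.rep.1.s
  ρ := h.choose
  p := Sum.inr true
  K := univ.filter fun t => ω t ≠ none
  N := fun x => onet (ω x.1) (mem_filter.1 x.2).2
  np := NP.of_good c.rep.2
  rot := h.choose_spec
  pK := by simpa using hω.root
  face := fun x hx => hω.supp x (by simpa using hx)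
  inv := fun x => by simp [hω.per]
  per := fun x hx => by
    have h1 : ∀ (o o' : Option GC) (h : o ≠ none) (h' : o' ≠ none), o = o' →
        BIso (onet o h).1 (onet o' h').1 := by
      rintro o _ h h' rfl
      exact BIso.refl _
    exact h1 _ _ _ _ (hω.per x).symm

theorem NP.link : NP (Equiv.boolNot : Perm Bool) (1 : Perm Bool) where
  inv := by simp
  fpf := by simp
  ns := by
    intro A hA hne hu
    exfalso
    obtain ⟨b, hb⟩ := hne
    apply hu
    rw [eq_univ_iff_forall]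
    intro x
    rcases eq_or_ne x b with rfl | h
    · exact hb
    · have h2 : x = Equiv.boolNot b := by cases x <;> cases b <;> simp_all
      rw [h2]
      exact (hA b).2 hb
  pl := by
    intro p q _
    exact ⟨fun _ => 0, by simp, fun t => by simp; exact (CharTwo.add_self_eq_zero _).symm⟩

/-- the fan over the link -/
noncomputable def FanD.ofLink (k : ℕ) (hk : k = 2) (n : GC) : FanD k where
  R := Bool
  a := Equiv.boolNot
  s := 1
  ρ := Equiv.boolNot
  p := true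
  K := univ
  N := fun _ => n.rep
  np := NP.link
  rot := by
    subst hk
    refine ⟨fun t => rfl, fun t => by simp, le_refl _, fun t => by simp [pow_two], ?_, ?_⟩
    · intro t i h0 h1
      have : i = 1 := by omega
      subst this
      simp
    · exact ⟨1, by simp⟩
  pK := mem_univ _
  face := by
    intro x _
    cases x
    · exact ⟨1, by simp⟩
    · exact ⟨0, by simp⟩
  inv := by simp
  per := fun _ _ => BIso.refl _

/-- the class of a fan with root dart `d` -/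
noncomputable def FanD.cls {k : ℕ} (X : FanD k) (d : X.N0.1.D) : GC :=
  gcl X.Fa X.Fs (X.rt d) X.good

/-! ### Bonds -/

/-- the rotation of the map with two vertices and `k` edges: forwards at the first vertex (darts
`(i, true)`), backwards at the second one -/
def bondP (k : ℕ) : Perm (Fin k × Bool) where
  toFun x := (bif x.2 then finRotate k x.1 else (finRotate k).symm x.1, x.2)
  invFun x := (bif x.2 then (finRotate k).symm x.1 else finRotate k x.1, x.2)
  left_inv := by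
    rintro ⟨i, _ | _⟩
    · exact Prod.ext ((finRotate k).apply_symm_apply i) rfl
    · exact Prod.ext ((finRotate k).symm_apply_apply i) rfl
  right_inv := by
    rintro ⟨i, _ | _⟩
    · exact Prod.ext ((finRotate k).symm_apply_apply i) rfl
    · exact Prod.ext ((finRotate k).apply_symm_apply i) rfl

/-- the map with two vertices and `k` edges -/
def bondC (k : ℕ) : GCo where
  K := Fin k
  R := Empty
  aR := 1
  s := Perm.sumCongr (bondP k) 1

/-- `k` copies of the net `N` in parallel -/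
abbrev bFT (k : ℕ) (N : GB) : Type := (bondC k).FT (fun _ => N)
noncomputable abbrev bFa (k : ℕ) (N : GB) : Perm (bFT k N) := (bondC k).Fa (fun _ => N)
noncomputable abbrev bFs (k : ℕ) (N : GB) : Perm (bFT k N) := (bondC k).Fs (fun _ => N)

/-- the dart `d` in the copy number 0 -/
def brt {k : ℕ} (hk : 2 ≤ k) (N : GB) (d : N.1.D) : bFT k N := Sum.inl ⟨(⟨0, by omega⟩ : Fin k), d⟩

/-- `d` is in the first parallel component: every parallel prefix contains it -/
def FirstC (M : BMap) (d : M.D) : Prop :=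
  ∀ A, Pref M A → M.s⁻¹ (Sum.inr true) ∉ A → Sum.inl d ∈ A

/-- `d` is at the pole `true` -/
def AtP (M : BMap) (d : M.D) : Prop := M.s.SameCycle (Sum.inr true) (Sum.inl d)

end PGr

end

section
/-! # Module Cnt: the weights depend only on the class -/

set_option linter.unusedSectionVars false

namespace PGr
open Equiv Finset
open scoped ENNReal Classical

section
variable {T : Type*} [Fintype T] [DecidableEq T] {T' : Type*} [Fintype T'] [DecidableEq T']
  {a s ρ : Perm T} {a' s' : Perm T'} {k : ℕ} {r : T} (S F Y kv kf ke Z : ℝ≥0∞)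

private theorem Cnt_ft (f : T ≃ T') (t : T) : ((f.symm.trans ρ).trans f) (f t) = f (ρ t) := by
  simp only [Equiv.trans_apply]
  rw [Equiv.symm_apply_apply]

private theorem Cnt_sc (f : T ≃ T') (h2 : ∀ t, f (s t) = s' (f t)) (x y : T) :
    s'.SameCycle (f x) (f y) ↔ s.SameCycle x y := by
  constructor
  · rintro ⟨i, hi⟩
    refine ⟨i, f.injective ?_⟩
    rw [CutIso.zpow f h2, hi]
  · rintro ⟨i, hi⟩
    exact ⟨i, by rw [← CutIso.zpow f h2, hi]⟩

private theorem Cnt_nFix (f : T ≃ T') (h2 : ∀ t, f (s t) = s' (f t)) :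
    nFix s' ((f.symm.trans ρ).trans f) = nFix s ρ := by
  unfold nFix
  symm
  let F : Quotient (Perm.SameCycle.setoid s) ≃ Quotient (Perm.SameCycle.setoid s') :=
    Quotient.congr f (fun x y => (Cnt_sc f h2 x y).symm)
  refine Nat.card_congr (F.subtypeEquiv ?_)
  intro q
  constructor
  · rintro ⟨t, rfl, ht⟩
    refine ⟨f t, rfl, ?_⟩
    rw [Cnt_ft, Cnt_sc f h2]
    exact ht
  · rintro ⟨t', h5, ht⟩
    obtain ⟨t, rfl⟩ := f.surjective t'
    refine ⟨t, F.injective (h5.trans rfl), ?_⟩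
    rw [Cnt_ft, Cnt_sc f h2] at ht
    exact ht

private theorem Cnt_dgs (f : T ≃ T') (h2 : ∀ t, f (s t) = s' (f t)) :
    dgs s' (f r) = dgs s r := by
  unfold dgs
  rw [minimalPeriod_eq_card, minimalPeriod_eq_card]
  symm
  refine Finset.card_bij (fun t _ => f t) ?_ (fun t _ t' _ h5 => f.injective h5) ?_
  · intro t ht
    rw [mem_filter] at ht ⊢
    exact ⟨mem_univ _, (Cnt_sc f h2 _ _).2 ht.2⟩
  · intro t' ht'
    obtain ⟨t, rfl⟩ := f.surjective t'
    rw [mem_filter] at ht'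
    exact ⟨t, by rw [mem_filter]; exact ⟨mem_univ _, (Cnt_sc f h2 _ _).1 ht'.2⟩, rfl⟩

theorem wR_iso (f : T ≃ T') (ha : ∀ t, f (a t) = a' (f t)) (hs : ∀ t, f (s t) = s' (f t)) :
    wR S F Y kv kf ke Z a' s' ((f.symm.trans ρ).trans f) (f r) = wR S F Y kv kf ke Z a s ρ r := by
  have hp : ∀ t, f ((a * s) t) = (a' * s') (f t) := by
    intro t
    rw [Perm.mul_apply, Perm.mul_apply, ha, hs]
  unfold wR
  rw [Cnt_nFix f hs, Cnt_nFix f ha, Cnt_nFix f hp, Cnt_dgs f hs, ← nV_iso f hs, ← nV_iso f hp,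
    Fintype.card_congr f]

private theorem Cnt_pow {σ : Perm T} (hc : ∀ t, ρ (σ t) = σ (ρ t)) (i : ℕ) {t : T}
    (h : σ.SameCycle t (ρ t)) : σ.SameCycle t ((ρ ^ i) t) := by
  have hc' : ∀ (n : ℕ) (t : T), ρ ((σ ^ n) t) = (σ ^ n) (ρ t) := by
    intro n
    induction n with
    | zero => intro t; rfl
    | succ n ih =>
      intro t
      rw [pow_succ, Perm.mul_apply, ih, hc, Perm.mul_apply]
  induction i with
  | zero => exact Perm.SameCycle.refl _ _
  | succ i ih =>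
    rw [pow_succ', Perm.mul_apply]
    obtain ⟨n, -, hn⟩ := ih.exists_pow_eq'
    have h1 : σ.SameCycle (ρ t) (ρ ((ρ ^ i) t)) := by
      rw [← hn, hc']
      exact ⟨n, by rw [zpow_natCast]⟩
    exact h.trans h1

private theorem Cnt_nFix_eq {σ ρ' : Perm T}
    (h : ∀ t, σ.SameCycle t (ρ t) ↔ σ.SameCycle t (ρ' t)) : nFix σ ρ = nFix σ ρ' := by
  unfold nFix
  refine Nat.card_congr (Equiv.subtypeEquivRight fun q => ?_)
  constructor
  · rintro ⟨t, h1, h2⟩
    exact ⟨t, h1, (h t).1 h2⟩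
  · rintro ⟨t, h1, h2⟩
    exact ⟨t, h1, (h t).2 h2⟩

/-- `Rot.pow_eq`: the cells fixed by `ρ` and by `ρ ^ i`, `i` prime to `k`, are the same -/
theorem wR_indep (h : Good a s) {ρ' : Perm T} (hr : Rot a s ρ k r) (hr' : Rot a s ρ' k r) :
    wR S F Y kv kf ke Z a s ρ r = wR S F Y kv kf ke Z a s ρ' r := by
  obtain ⟨i, -, hi⟩ := Rot.pow_eq h hr hr'
  obtain ⟨j, -, hj⟩ := Rot.pow_eq h hr' hr
  have key : ∀ σ : Perm T, (∀ t, ρ (σ t) = σ (ρ t)) → (∀ t, ρ' (σ t) = σ (ρ' t)) →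
      nFix σ ρ = nFix σ ρ' := by
    intro σ h1 h2
    refine Cnt_nFix_eq fun t => ⟨fun h3 => ?_, fun h3 => ?_⟩
    · rw [hi]
      exact Cnt_pow h1 i h3
    · rw [hj]
      exact Cnt_pow h2 j h3
  have hp : ∀ t, ρ ((a * s) t) = (a * s) (ρ t) := by
    intro t
    rw [Perm.mul_apply, Perm.mul_apply, hr.ra, hr.rs]
  have hp' : ∀ t, ρ' ((a * s) t) = (a * s) (ρ' t) := by
    intro t
    rw [Perm.mul_apply, Perm.mul_apply, hr'.ra, hr'.rs]
  unfold wR
  rw [key s hr.rs hr'.rs, key a hr.ra hr'.ra, key (a * s) hp hp']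

theorem wR_root {r' : T} (h : s.SameCycle r r') :
    wR S F Y kv kf ke Z a s ρ r = wR S F Y kv kf ke Z a s ρ r' := by
  have h1 : dgs s r = dgs s r' := by
    unfold dgs
    rw [minimalPeriod_eq_card, minimalPeriod_eq_card]
    congr 1
    ext y
    simp only [mem_filter, mem_univ, true_and]
    exact ⟨fun h2 => h.symm.trans h2, fun h2 => h.trans h2⟩
  unfold wR
  rw [h1]

end

section
variable {T : Type} [Fintype T] [DecidableEq T] {a s ρ : Perm T} {k : ℕ} {r : T}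
  (S F Y kv kf ke Z : ℝ≥0∞)

private theorem Cnt_rot (h : Good a s) (hr : Rot a s ρ k r) :
    ∃ e : T ≃ (gcl a s r h).rep.1.T, (∀ t, e (a t) = (gcl a s r h).rep.1.aa (e t)) ∧
      (∀ t, e (s t) = (gcl a s r h).rep.1.s (e t)) ∧ e r = Sum.inr true ∧
      Rot (gcl a s r h).rep.1.aa (gcl a s r h).rep.1.s ((e.symm.trans ρ).trans e) k
        (Sum.inr true) := by
  obtain ⟨e, h1, h2, h3⟩ := gcl_iso a s r h
  refine ⟨e, h1, h2, h3, ?_⟩
  have h4 := Rot.iso e h1 h2 hr
  rw [h3] at h4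
  exact h4

theorem isV_gcl (h : Good a s) (hr : Rot a s ρ k r) : IsV k (gcl a s r h).rep.1 := by
  obtain ⟨e, -, -, -, h4⟩ := Cnt_rot h hr
  exact ⟨_, h4⟩

theorem exists_of_isV {c : GC} (h : IsV k c.rep.1) :
    ∃ ρ, Rot c.rep.1.aa c.rep.1.s ρ k (Sum.inr true) := h

/-- `gcl_iso`, `wR_iso`, `wR_indep` -/
theorem wV_gcl (h : Good a s) (hr : Rot a s ρ k r) :
    wV k S F Y kv kf ke Z (gcl a s r h).rep.1 = wR S F Y kv kf ke Z a s ρ r := by
  obtain ⟨e, h1, h2, h3, h4⟩ := Cnt_rot h hr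
  have hV : IsV k (gcl a s r h).rep.1 := ⟨_, h4⟩
  have h5 : wV k S F Y kv kf ke Z (gcl a s r h).rep.1 =
      wR S F Y kv kf ke Z (gcl a s r h).rep.1.aa (gcl a s r h).rep.1.s hV.choose
        (Sum.inr true) := dif_pos hV
  rw [h5, wR_indep S F Y kv kf ke Z (gcl a s r h).rep.2 hV.choose_spec h4, ← h3]
  exact wR_iso S F Y kv kf ke Z e h1 h2

/-- the same for the dual (`Good.dual`) -/
theorem wF_gcl (h : Good a s) (hr : Rot a (a * s) ρ k r) :
    IsFo k (gcl a s r h).rep.1 ∧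
    wF k S F Y kv kf ke Z (gcl a s r h).rep.1 = wR F S Y kf kv ke Z a (a * s) ρ r := by
  obtain ⟨e, h1, h2, h3⟩ := gcl_iso a s r h
  have hp : ∀ t, e ((a * s) t) = ((gcl a s r h).rep.1.aa * (gcl a s r h).rep.1.s) (e t) := by
    intro t
    rw [Perm.mul_apply, Perm.mul_apply, h1, h2]
  have h4 := Rot.iso e h1 hp hr
  rw [h3] at h4
  have hV : IsFo k (gcl a s r h).rep.1 := ⟨_, h4⟩
  refine ⟨hV, ?_⟩
  have h5 : wF k S F Y kv kf ke Z (gcl a s r h).rep.1 =
      wR F S Y kf kv ke Z (gcl a s r h).rep.1.aa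
        ((gcl a s r h).rep.1.aa * (gcl a s r h).rep.1.s) hV.choose (Sum.inr true) := dif_pos hV
  rw [h5, wR_indep F S Y kf kv ke Z (Good.dual (gcl a s r h).rep.2) hV.choose_spec h4, ← h3]
  exact wR_iso F S Y kf kv ke Z e h1 hp

theorem isNB_gcl (h : Good a s) (hr : Rot a s ρ k r) :
    IsNB k (gcl a s r h).rep.1 ↔ ¬ Bd a s ρ k r := by
  obtain ⟨e, h1, h2, h3, h4⟩ := Cnt_rot h hr
  have h5 : Bd (gcl a s r h).rep.1.aa (gcl a s r h).rep.1.s ((e.symm.trans ρ).trans e) k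
      (Sum.inr true) ↔ Bd a s ρ k r := by
    rw [← h3]
    exact Bd.iso e h1 h2
  constructor
  · rintro ⟨ρ', h6, h7⟩
    rwa [Bd.indep (gcl a s r h).rep.2 h6 h4, h5] at h7
  · intro h6
    exact ⟨_, h4, by rwa [h5]⟩

theorem isBd_gcl (h : Good a s) (hr : Rot a s ρ k r) :
    IsBd k (gcl a s r h).rep.1 ↔ Bd a s ρ k r := by
  obtain ⟨e, h1, h2, h3, h4⟩ := Cnt_rot h hr
  have h5 : Bd (gcl a s r h).rep.1.aa (gcl a s r h).rep.1.s ((e.symm.trans ρ).trans e) k
      (Sum.inr true) ↔ Bd a s ρ k r := by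
    rw [← h3]
    exact Bd.iso e h1 h2
  constructor
  · rintro ⟨ρ', h6, h7⟩
    rwa [Bd.indep (gcl a s r h).rep.2 h6 h4, h5] at h7
  · intro h6
    exact ⟨_, h4, by rwa [h5]⟩

/-- `Bd.indep`: exactly one of the two holds if `IsV` -/
theorem isV_cases (c : GC) : (IsV k c.rep.1 ↔ IsNB k c.rep.1 ∨ IsBd k c.rep.1) ∧
    ¬ (IsNB k c.rep.1 ∧ IsBd k c.rep.1) := by
  refine ⟨⟨?_, ?_⟩, ?_⟩
  · rintro ⟨ρ, h⟩
    by_cases h1 : Bd c.rep.1.aa c.rep.1.s ρ k (Sum.inr true)
    · exact Or.inr ⟨ρ, h, h1⟩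
    · exact Or.inl ⟨ρ, h, h1⟩
  · rintro (⟨ρ, h, -⟩ | ⟨ρ, h, -⟩)
    · exact ⟨ρ, h⟩
    · exact ⟨ρ, h⟩
  · rintro ⟨⟨ρ, h, h1⟩, ρ', h', h2⟩
    exact h1 ((Bd.indep c.rep.2 h h').2 h2)

theorem gV_eq_add : gV k S F Y kv kf ke Z = gNB k S F Y kv kf ke Z + gBD k S F Y kv kf ke Z := by
  unfold gV gNB gBD
  rw [← ENNReal.tsum_add]
  refine tsum_congr fun c => ?_
  obtain ⟨h1, h2⟩ := isV_cases (k := k) c
  by_cases hn : IsNB k c.rep.1
  · have hb : ¬ IsBd k c.rep.1 := fun h => h2 ⟨hn, h⟩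
    rw [if_pos hn, if_neg hb, add_zero]
  · by_cases hb : IsBd k c.rep.1
    · rw [if_neg hn, if_pos hb, zero_add]
    · rw [if_neg hn, if_neg hb, add_zero]
      have hv : ¬ IsV k c.rep.1 := fun h => (h1.1 h).elim hn hb
      exact dif_neg hv

/-- the number of nonroot darts at the pole (`minimalPeriod_eq_card`) -/
theorem card_atP (N : GB) : (univ.filter fun d => AtP N.1 d).card = pd N.1 := by
  unfold pd dgs
  rw [minimalPeriod_eq_card]
  have h1 : (univ.filter fun y => N.1.s.SameCycle (Sum.inr true) y) =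
      insert (Sum.inr true) ((univ.filter fun d => AtP N.1 d).map
        ⟨(Sum.inl : N.1.D → N.1.T), Sum.inl_injective⟩) := by
    ext y
    simp only [mem_filter, mem_univ, true_and, mem_insert, mem_map, Function.Embedding.coeFn_mk]
    constructor
    · intro h
      rcases y with d | b
      · exact Or.inr ⟨d, h, rfl⟩
      · cases b
        · exfalso
          exact Good.noLoop (a := N.1.aa) N.2 (Sum.inr true) h
        · exact Or.inl rfl
    · rintro (rfl | ⟨d, hd, rfl⟩)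
      · exact Perm.SameCycle.refl _ _
      · exact hd
  rw [h1, card_insert_of_notMem, card_map]
  · rfl
  · simp

theorem pd_pos (N : GB) : 0 < pd N.1 := by
  rw [← card_atP, card_pos]
  refine ⟨fstD N true, ?_⟩
  rw [mem_filter]
  refine ⟨mem_univ _, ?_⟩
  unfold AtP
  rw [← fstD_spec N true]
  exact ⟨1, by simp⟩

/-- `wR` for a reversed edge: if `k ≠ 2`, the weight does not depend on `ke` (`Rot.edge`) -/
theorem wR_ke (h : Good a s) (hr : Rot a s ρ k r) (hk : k ≠ 2) (ke' : ℝ≥0∞) :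
    wR S F Y kv kf ke Z a s ρ r = wR S F Y kv kf ke' Z a s ρ r := by
  have h0 : nFix a ρ = 0 := by
    unfold nFix
    rw [Nat.card_eq_zero]
    left
    refine ⟨?_⟩
    rintro ⟨q, t, -, ht⟩
    have h1 : ρ t = t ∨ ρ t = a t := by
      obtain ⟨n, hn⟩ := ht
      have h2 : ∀ m : ℕ, (a ^ m) t = t ∨ (a ^ m) t = a t := by
        intro m
        induction m with
        | zero => exact Or.inl rfl
        | succ m ih =>
          rw [pow_succ', Perm.mul_apply]
          rcases ih with h3 | h3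
          · exact Or.inr (by rw [h3])
          · exact Or.inl (by rw [h3, h.inv])
      obtain ⟨m, -, hm⟩ := (show a.SameCycle t (ρ t) from ⟨n, hn⟩).exists_pow_eq'
      rw [← hm]
      exact h2 m
    rcases h1 with h1 | h1
    · exact hr.free t 1 one_pos hr.k2 (by rw [pow_one]; exact h1)
    · exact hk (Rot.edge h hr (i := 1) one_pos hr.k2 (t := t) (by rw [pow_one]; exact h1)).1
  unfold wR
  rw [h0, pow_zero, pow_zero]

end

end PGr

end

section
/-! # Module DualC: duality -/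

set_option linter.unusedSectionVars false

namespace PGr
open Equiv Finset
open scoped ENNReal Classical

/-- the dual class (`GB.dual`, an isomorphism of maps is an isomorphism of the duals) -/
noncomputable def dualC (c : GC) : GC := Quotient.mk bSetoid (GB.dual c.rep)

private theorem DualC_rep (N : GB) : BIso (GC.rep (Quotient.mk bSetoid N)).1 N.1 :=
  Quotient.mk_out N

private theorem DualC_eq {c c' : GC} (h : BIso c.rep.1 c'.rep.1) : c = c' := by
  rw [← Quotient.out_eq c, ← Quotient.out_eq c']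
  exact Quotient.sound h

theorem dualC_dualC (c : GC) : dualC (dualC c) = c := by
  refine DualC_eq ?_
  have h1 : BIso (dualC (dualC c)).rep.1 (dualC c).rep.1.dual := DualC_rep (GB.dual (dualC c).rep)
  have h2 : BIso (dualC c).rep.1 c.rep.1.dual := DualC_rep (GB.dual c.rep)
  have h3 := h1.trans h2.dual
  rwa [dual_dual c.rep.2] at h3

theorem dualC_iso (c : GC) : BIso (dualC c).rep.1 c.rep.1.dual := DualC_rep (GB.dual c.rep)

/-- reindexing by `dualC` -/
theorem tsum_dualC (f : GC → ℝ≥0∞) : ∑' c, f (dualC c) = ∑' c, f c :=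
  (Function.Involutive.toPerm dualC dualC_dualC).tsum_eq f

private theorem DualC_wV {M N : BMap} (h : BIso M N) (hN : N.IsGood) (k : ℕ)
    (S F Y kv kf ke Z : ℝ≥0∞) : wV k S F Y kv kf ke Z M = wV k S F Y kv kf ke Z N := by
  obtain ⟨e, h1, h2, h3⟩ := h
  by_cases hM : IsV k M
  · have h4 := Rot.iso e h1 h2 hM.choose_spec
    rw [h3] at h4
    have hV : IsV k N := ⟨_, h4⟩
    have e1 : wV k S F Y kv kf ke Z M =
        wR S F Y kv kf ke Z M.aa M.s hM.choose (Sum.inr true) := dif_pos hM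
    have e2 : wV k S F Y kv kf ke Z N =
        wR S F Y kv kf ke Z N.aa N.s hV.choose (Sum.inr true) := dif_pos hV
    rw [e1, e2, wR_indep S F Y kv kf ke Z hN hV.choose_spec h4, ← h3]
    exact (wR_iso S F Y kv kf ke Z e h1 h2).symm
  · have hV : ¬ IsV k N := by
      rintro ⟨ρ, hρ⟩
      apply hM
      have h1' : ∀ t, e.symm (N.aa t) = M.aa (e.symm t) := fun t => by
        rw [Equiv.symm_apply_eq, h1, Equiv.apply_symm_apply]
      have h2' : ∀ t, e.symm (N.s t) = M.s (e.symm t) := fun t => by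
        rw [Equiv.symm_apply_eq, h2, Equiv.apply_symm_apply]
      have h4 := Rot.iso e.symm h1' h2' hρ
      have h3' : e.symm (Sum.inr true) = Sum.inr true := by
        rw [Equiv.symm_apply_eq, h3]
      rw [h3'] at h4
      exact ⟨_, h4⟩
    unfold wV
    rw [dif_neg hM, dif_neg hV]

/-- `wF k S F Y kv kf ke Z M = wV k F S Y kf kv ke Z M.dual` by definition -/
private theorem DualC_wF (M : BMap) (k : ℕ) (S F Y kv kf ke Z : ℝ≥0∞) :
    wF k S F Y kv kf ke Z M = wV k F S Y kf kv ke Z M.dual := rfl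

/-- `wF k S F Y kv kf ke Z M = wV k F S Y kf kv ke Z M.dual` by definition -/
theorem gF_dual (k : ℕ) (S F Y kv kf ke Z : ℝ≥0∞) :
    gF k S F Y kv kf ke Z = gV k F S Y kf kv ke Z := by
  unfold gF gV
  rw [← tsum_dualC]
  refine tsum_congr fun c => ?_
  rw [DualC_wF]
  have h1 : BIso (dualC c).rep.1.dual c.rep.1 := by
    have h2 := (dualC_iso c).dual
    rwa [dual_dual c.rep.2] at h2
  exact DualC_wV h1 c.rep.2 k F S Y kf kv ke Z

theorem gFt_dual (k M : ℕ) (S F Y kv kf ke Z : ℝ≥0∞) :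
    gFt k M S F Y kv kf ke Z = gVt k M F S Y kf kv ke Z := by
  unfold gFt gVt
  rw [← tsum_dualC]
  refine tsum_congr fun c => ?_
  have h1 : BIso (dualC c).rep.1.dual c.rep.1 := by
    have h2 := (dualC_iso c).dual
    rwa [dual_dual c.rep.2] at h2
  have h3 : Fintype.card (dualC c).rep.1.T = Fintype.card c.rep.1.T := by
    obtain ⟨e, -, -, -⟩ := h1
    exact Fintype.card_congr e
  rw [h3, DualC_wF, DualC_wV h1 c.rep.2 k F S Y kf kv ke Z]

private theorem DualC_dgs {M : BMap} (h : M.IsGood) : dgs M.s (Sum.inr true) = M.dual.rl := by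
  have h1 : M.aa * (M.aa * M.s) = M.s := Equiv.ext fun t => h.inv (M.s t)
  have h2 : M.dual.rl = dgs (M.aa * (M.aa * M.s)) (Sum.inr true) := rfl
  rw [h2, h1]

private theorem DualC_nw {M N : BMap} (h : BIso M N) (hM : M.IsGood) (hN : N.IsGood)
    (s f y z : ℝ≥0∞) : nw s f y z M = nw s f y z N := by
  have h1 : nV (M.aa * M.s) = nV (N.aa * N.s) := h.dual.nV_eq
  have h2 : pd M = pd N := by
    unfold pd
    rw [DualC_dgs hM, DualC_dgs hN, h.dual.rl_eq]
  unfold nw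
  rw [h.nV_eq, h1, h.card_eq, h2]

/-- root faces instead of root vertices: `rl` -/
theorem eN_dual (s f y z : ℝ≥0∞) : eN s f y z =
    ∑' c : GC, s ^ (nV (c.rep.1.aa * c.rep.1.s) - 2) * f ^ (nV c.rep.1.s - 1) *
      y ^ (Fintype.card c.rep.1.D / 2) * z ^ (c.rep.1.rl - 1) := by
  unfold eN
  rw [← tsum_dualC]
  refine tsum_congr fun c => ?_
  rw [DualC_nw (dualC_iso c) (dualC c).rep.2 c.rep.2.dual s f y z]
  unfold nw pd
  have h1 : c.rep.1.aa * (c.rep.1.aa * c.rep.1.s) = c.rep.1.s :=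
    Equiv.ext fun t => c.rep.2.inv (c.rep.1.s t)
  have h2 : nV (c.rep.1.dual.aa * c.rep.1.dual.s) = nV c.rep.1.s := by
    change nV (c.rep.1.aa * (c.rep.1.aa * c.rep.1.s)) = _
    rw [h1]
  rw [h2]
  rfl

private theorem DualC_swap (s y z : ℝ≥0∞) : ∑' l, tL s y l * z ^ l =
    ∑' c : GC, W s y c.rep.1 * z ^ (c.rep.1.rl - 1) := by
  unfold tL Esel
  simp_rw [← ENNReal.tsum_mul_right]
  rw [ENNReal.tsum_comm]
  refine tsum_congr fun c => ?_
  have h1 : 0 < c.rep.1.rl := by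
    unfold BMap.rl
    rw [minimalPeriod_eq_card, card_pos]
    exact ⟨Sum.inr true, by
      simp only [mem_filter, mem_univ, true_and]; exact Perm.SameCycle.refl _ _⟩
  rw [tsum_eq_single (c.rep.1.rl - 1)]
  · rw [if_pos (by omega)]
  · intro l hl
    rw [if_neg (by omega), zero_mul]

/-- with `f ^ (nV - 1) = f * f ^ (nV - 2)` and `s = 1`: `tL` -/
theorem eN_one_dual (f y z : ℝ≥0∞) : eN 1 f y z = f * ∑' l, tL f y l * z ^ l := by
  rw [DualC_swap, eN_dual, ← ENNReal.tsum_mul_left]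
  refine tsum_congr fun c => ?_
  have h1 : 2 ≤ nV c.rep.1.s := Good.two_le_nV c.rep.2
  have h2 : f ^ (nV c.rep.1.s - 1) = f * f ^ (nV c.rep.1.s - 2) := by
    rw [← pow_succ']
    congr 1
    omega
  rw [one_pow, one_mul, h2]
  unfold W
  ring

/-- Euler's formula: faces of a net are `|D| / 2 + 3 - nV`; for `s ≠ 0, ⊤`:
`s ^ (nF - 2) y ^ n = s⁻¹ (s⁻¹) ^ (nV - 2) (s y) ^ n` with `n = |D| / 2` -/
theorem eN_vertex (s y z : ℝ≥0∞) (h0 : s ≠ 0) (ht : s ≠ ⊤) :
    s * eN s 1 y z = ∑' l, tL s⁻¹ (s * y) l * z ^ l := by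
  rw [DualC_swap, eN_dual, ← ENNReal.tsum_mul_left]
  refine tsum_congr fun c => ?_
  have h1 : 2 ≤ nV c.rep.1.s := Good.two_le_nV c.rep.2
  have h1' : 2 ≤ nV (c.rep.1.aa * c.rep.1.s) := Good.two_le_nV c.rep.2.dual
  obtain ⟨n, -, hn⟩ := card_D_even c.rep.2
  have h3 := Good.euler c.rep.2
  have h4 : Fintype.card c.rep.1.T = Fintype.card c.rep.1.D + 2 := by
    rw [Fintype.card_sum, Fintype.card_bool]
  have h5 : nV c.rep.1.s + nV (c.rep.1.aa * c.rep.1.s) = n + 3 := by omega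
  have h6 : Fintype.card c.rep.1.D / 2 = n := by omega
  obtain ⟨p, hp⟩ : ∃ p, nV c.rep.1.s = p + 2 := ⟨nV c.rep.1.s - 2, by omega⟩
  obtain ⟨q, hq⟩ : ∃ q, nV (c.rep.1.aa * c.rep.1.s) = q + 2 :=
    ⟨nV (c.rep.1.aa * c.rep.1.s) - 2, by omega⟩
  have h7 : n = p + q + 1 := by omega
  unfold W
  rw [h6, hq, hp, h7, one_pow]
  have h8 : q + 2 - 2 = q := by omega
  have h9 : p + 2 - 2 = p := by omega
  rw [h8, h9]
  have h10 : s⁻¹ ^ p * s ^ (p + q + 1) = s ^ (q + 1) := by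
    rw [show p + q + 1 = p + (q + 1) by ring, pow_add, ← mul_assoc, ← mul_pow,
      ENNReal.inv_mul_cancel h0 ht, one_pow, one_mul]
  calc s * (s ^ q * 1 * y ^ (p + q + 1) * z ^ (c.rep.1.rl - 1))
      = s ^ (q + 1) * y ^ (p + q + 1) * z ^ (c.rep.1.rl - 1) := by ring
    _ = (s⁻¹ ^ p * s ^ (p + q + 1)) * y ^ (p + q + 1) * z ^ (c.rep.1.rl - 1) := by rw [h10]
    _ = s⁻¹ ^ p * (s * y) ^ (p + q + 1) * z ^ (c.rep.1.rl - 1) := by rw [mul_pow]; ring

end PGr

end

section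
/-! # Module BondA: two crossing maximal sets -/

set_option linter.unusedSectionVars false

namespace PGr
open Equiv Finset

section
variable {T : Type*} [Fintype T] [DecidableEq T] {a s ρ : Perm T} {k : ℕ} {r : T}
  {A B : Finset T}

theorem BondA_pow_mul (hr : Rot a s ρ k r) (n : ℕ) (t : T) : (ρ ^ (k * n)) t = t := by
  have h : ρ ^ k = 1 := Equiv.ext fun t => hr.pow t
  rw [pow_mul, h, one_pow]; rfl

theorem BondA_back (hr : Rot a s ρ k r) (n : ℕ) (t : T) : (ρ ^ ((k - 1) * n)) ((ρ ^ n) t) = t := by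
  rw [← Perm.mul_apply, ← pow_add]
  have h1 : (k - 1) * n + n = k * n := by
    have := hr.k2
    obtain ⟨m, rfl⟩ : ∃ m, k = m + 1 := ⟨k - 1, by omega⟩
    rw [Nat.add_sub_cancel]; ring
  rw [h1, BondA_pow_mul hr]

theorem BondA_sc (hr : Rot a s ρ k r) (i : ℕ) {x y : T} (h : s.SameCycle x y) :
    s.SameCycle ((ρ ^ i) x) ((ρ ^ i) y) := by
  have hc : Commute s (ρ ^ i) := by
    have : s * ρ ^ i = ρ ^ i * s := Equiv.ext fun t => (hr.pow_s i t).symm
    exact this
  obtain ⟨n, hn⟩ := h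
  refine ⟨n, ?_⟩
  rw [← hn, ← Perm.mul_apply, ← Perm.mul_apply, (hc.zpow_left n).eq]

theorem BondA_shC_tr (hr : Rot a s ρ k r) (i : ℕ) {x : T} (h : ShC s A x) :
    ShC s (tr ρ i A) ((ρ ^ i) x) := by
  obtain ⟨⟨y, hy, hy'⟩, z, hz, hz'⟩ := h
  refine ⟨⟨(ρ ^ i) y, mem_tr.2 hy, BondA_sc hr i hy'⟩, (ρ ^ i) z, ?_, BondA_sc hr i hz'⟩
  rw [mem_tr]; exact hz

theorem BondA_shC_sc {x y : T} (h : ShC s A x) (hxy : s.SameCycle x y) : ShC s A y := by
  obtain ⟨⟨u, hu, hu'⟩, z, hz, hz'⟩ := h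
  exact ⟨⟨u, hu, hxy.symm.trans hu'⟩, z, hz, hxy.symm.trans hz'⟩

theorem BondA_tr_disj (hA : VS a s ρ k r A) {i j : ℕ} (hj : j < k)
    (hne : i < j) : Disjoint (tr ρ i A) (tr ρ j A) := by
  rw [Finset.disjoint_left]
  intro y hy hy'
  obtain ⟨x, hx, rfl⟩ := mem_tr'.1 hy
  obtain ⟨x', hx', he⟩ := mem_tr'.1 hy'
  have h1 : (ρ ^ (j - i)) x' = x := by
    apply (ρ ^ i).injective
    rw [← he, ← Perm.mul_apply, ← pow_add]
    congr 2
    omega
  exact hA.disj (j - i) (by omega) (by omega) x' hx' (h1 ▸ hx)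

theorem BondA_disj0 (hA : VS a s ρ k r A) {j : ℕ} (h0 : 0 < j) (hj : j < k) :
    Disjoint A (tr ρ j A) := by
  rw [Finset.disjoint_left]
  intro y hy hy'
  obtain ⟨x, hx, rfl⟩ := mem_tr'.1 hy'
  exact hA.disj j h0 hj x hx hy

theorem BondA_disj' (hA : VS a s ρ k r A) {i j : ℕ} (hi : i < k) (hj : j < k)
    (hne : i ≠ j) : Disjoint (tr ρ i A) (tr ρ j A) := by
  rcases Nat.lt_or_gt_of_ne hne with h | h
  · exact BondA_tr_disj hA hj h
  · exact (BondA_tr_disj hA hi h).symm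

theorem BondA_diff (hA : MaxV a s ρ k r A) (hB : MaxV a s ρ k r B) (hne : A ≠ B) :
    (A \ B).Nonempty := by
  rw [Finset.sdiff_nonempty]
  intro h
  exact hne (Finset.Subset.antisymm h (hA.2 B hB.1 h))

/-- A set crosses at most two members of a disjoint family.  Proof: let `z` be the exit and `w` the entry of `B` at `r`
(`exists_exit`, `exists_entry` for `VS.shC`).  By `cross_exit` (with `VS.out`, `VS.union_ne`) each of the sets
`A₁, A₂, A₃` contains `z` or `s w`; two of them contain the same one of these darts. -/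
theorem not_three (h : Good a s) (hr : Rot a s ρ k r) (hB : VS a s ρ k r B)
    {A₁ A₂ A₃ : Finset T} (h1 : VS a s ρ k r A₁) (h2 : VS a s ρ k r A₂) (h3 : VS a s ρ k r A₃)
    (d12 : Disjoint A₁ A₂) (d13 : Disjoint A₁ A₃) (d23 : Disjoint A₂ A₃)
    (i1 : (A₁ ∩ B).Nonempty) (i2 : (A₂ ∩ B).Nonempty) (i3 : (A₃ ∩ B).Nonempty)
    (n1 : (A₁ \ B).Nonempty) (n2 : (A₂ \ B).Nonempty) (n3 : (A₃ \ B).Nonempty)
    (m1 : (B \ A₁).Nonempty) (m2 : (B \ A₂).Nonempty) (m3 : (B \ A₃).Nonempty) : False := by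
  obtain ⟨z, hz, hzB, hzB'⟩ := exists_exit (hB.shC hr)
  obtain ⟨w, hw, hwB, hwB'⟩ := exists_entry (hB.shC hr)
  have key : ∀ A : Finset T, VS a s ρ k r A → (A ∩ B).Nonempty → (A \ B).Nonempty →
      (B \ A).Nonempty → z ∈ A ∨ s w ∈ A := by
    intro A hA hi hab hba
    rcases h.cross_exit hA.cl hB.cl hA.cut4 hB.cut4 hi (hA.union_ne hr hB hi) hab hba (hA.shC hr)
      (hB.shC hr) (hA.out h hr hB hi hab hba) hz hzB hzB' hw hwB hwB' with h1 | h1
    · exact Or.inl h1.1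
    · exact Or.inr h1.2
  rw [Finset.disjoint_left] at d12 d13 d23
  rcases key A₁ h1 i1 n1 m1 with k1 | k1 <;> rcases key A₂ h2 i2 n2 m2 with k2 | k2 <;>
    rcases key A₃ h3 i3 n3 m3 with k3 | k3
  · exact d12 k1 k2
  · exact d12 k1 k2
  · exact d13 k1 k3
  · exact d23 k2 k3
  · exact d23 k2 k3
  · exact d13 k1 k3
  · exact d12 k1 k2
  · exact d12 k1 k2

/-- A closed invariant set is everything.  Let `U` be closed with `cut s U ≤ 4`, nonempty, invariant under `ρ ^ j`,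
`0 < j < k`, and let all its shared vertices be the vertex of `r` or the vertex of `x`.  Then `U = univ`.  Proof: else
`cut s U = 4` (`NS`).  If the vertex of `r` is shared, the exit of `U` at `r` (`exists_exit`) is mapped by `ρ ^ j` to an
exit at `r`, by `exit_unique` it is fixed, contradiction.  Otherwise all shared vertices are the vertex of `x`,
contradiction to `Good.two_shared`. -/
theorem inv_univ (h : Good a s) (hr : Rot a s ρ k r) {U : Finset T} (hU : Cl a U)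
    (h4 : cut s U ≤ 4) (hne : U.Nonempty) {j : ℕ} (h0 : 0 < j) (hj : j < k)
    (hinv : ∀ t ∈ U, (ρ ^ j) t ∈ U) {x : T}
    (hsh : ∀ t, ShC s U t → s.SameCycle r t ∨ s.SameCycle x t) : U = univ := by
  by_contra hu
  have h4' : cut s U = 4 := le_antisymm h4 (h.ns U hU hne hu)
  have hinv' : ∀ t, (ρ ^ j) t ∈ U → t ∈ U := by
    have h1 : U.map (ρ ^ j).toEmbedding ⊆ U := by
      intro y hy
      rw [Finset.mem_map_equiv] at hy
      have := hinv _ hy
      rwa [Equiv.apply_symm_apply] at this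
    have h2 : U.map (ρ ^ j).toEmbedding = U :=
      Finset.eq_of_subset_of_card_le h1 (by rw [Finset.card_map])
    intro t ht
    rw [← h2, Finset.mem_map_equiv, Equiv.symm_apply_apply] at ht
    exact ht
  by_cases hsr : ShC s U r
  · obtain ⟨z, hz, hzU, hzU'⟩ := exists_exit hsr
    have h1 := h.exit_unique hU h4' hzU hzU' (hinv z hzU) (by
      rw [← hr.pow_s]; exact fun hh => hzU' (hinv' _ hh))
      (hz.symm.trans ((hr.pow_root j).2 hz))
    exact hr.free z j h0 hj h1.symm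
  · obtain ⟨t, t', ht, ht', hn⟩ := h.two_shared hU hne hu
    have key : ∀ t, ShC s U t → s.SameCycle x t := by
      intro t ht
      rcases hsh t ht with h1 | h1
      · exact absurd (BondA_shC_sc ht h1.symm) hsr
      · exact h1
    exact hn ((key t ht).symm.trans (key t' ht'))

/-- Let `A ∪ B` and its translates cover -/
theorem BondA_cover (h : Good a s) (hr : Rot a s ρ k r) {U : Finset T} (hU : Cl a U)
    (h4 : cut s U ≤ 4) (hne : U.Nonempty) {j : ℕ} (h0 : 0 < j) (hj : j < k) {x : T}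
    (hxj : s.SameCycle x ((ρ ^ j) x))
    (hsh : ∀ i t, ShC s (tr ρ i U) t → s.SameCycle r t ∨ s.SameCycle ((ρ ^ i) x) t)
    (hmeet : ∃ y ∈ U, (ρ ^ j) y ∈ U) (t : T) : ∃ l, ∃ y ∈ U, (ρ ^ (j * l)) y = t := by
  classical
  set C : ℕ → Finset T := fun m => univ.filter fun t => ∃ l ≤ m, ∃ y ∈ U, (ρ ^ (j * l)) y = t with hC
  have hCmem : ∀ m t, t ∈ C m ↔ ∃ l ≤ m, ∃ y ∈ U, (ρ ^ (j * l)) y = t := by
    intro m t; simp [hC]
  have hC0 : C 0 = U := by
    ext t
    rw [hCmem]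
    constructor
    · rintro ⟨l, hl, y, hy, rfl⟩
      have : l = 0 := by omega
      subst this
      simpa using hy
    · intro ht
      exact ⟨0, le_rfl, t, ht, by simp⟩
  have hCs : ∀ m, C (m + 1) = C m ∪ tr ρ (j * (m + 1)) U := by
    intro m
    ext t
    rw [Finset.mem_union, hCmem, hCmem, mem_tr']
    constructor
    · rintro ⟨l, hl, y, hy, rfl⟩
      rcases Nat.lt_or_ge l (m + 1) with h1 | h1
      · exact Or.inl ⟨l, by omega, y, hy, rfl⟩
      · have : l = m + 1 := by omega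
        subst this
        exact Or.inr ⟨y, hy, rfl⟩
    · rintro (⟨l, hl, y, hy, rfl⟩ | ⟨y, hy, rfl⟩)
      · exact ⟨l, by omega, y, hy, rfl⟩
      · exact ⟨m + 1, le_rfl, y, hy, rfl⟩
  have hCl : ∀ m, Cl a (C m) := by
    intro m
    induction m with
    | zero => rw [hC0]; exact hU
    | succ m ih => rw [hCs]; exact ih.union (tr_cl hr _ hU)
  have hCne : ∀ m, (C m).Nonempty := by
    intro m
    obtain ⟨y, hy⟩ := hne
    exact ⟨y, (hCmem m y).2 ⟨0, Nat.zero_le _, y, hy, by simp⟩⟩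
  have hCcut : ∀ m, cut s (C m) ≤ 4 := by
    intro m
    induction m with
    | zero => rw [hC0]; exact h4
    | succ m ih =>
      by_cases hu : C m ∪ tr ρ (j * (m + 1)) U = univ
      · rw [hCs, hu, cut_univ]; omega
      · have hi : (C m ∩ tr ρ (j * (m + 1)) U).Nonempty := by
          obtain ⟨y, hy, hy'⟩ := hmeet
          refine ⟨(ρ ^ (j * (m + 1))) y, ?_⟩
          rw [Finset.mem_inter]
          refine ⟨(hCmem m _).2 ⟨m, le_rfl, (ρ ^ j) y, hy', ?_⟩, mem_tr.2 hy⟩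
          rw [← Perm.mul_apply, ← pow_add, Nat.mul_succ]
        have e1 : cut s (C m) = 4 := by
          refine le_antisymm ih (h.ns _ (hCl m) (hCne m) fun he => hu ?_)
          rw [he]; exact Finset.union_eq_left.2 (Finset.subset_univ _)
        have e2 : cut s (tr ρ (j * (m + 1)) U) = 4 := by
          refine le_antisymm ((tr_cut hr _).le.trans h4) (h.ns _ (tr_cl hr _ hU) ?_ fun he => hu ?_)
          · obtain ⟨y, hy⟩ := hne
            exact ⟨_, mem_tr.2 hy⟩
          · rw [he]; exact Finset.union_eq_right.2 (Finset.subset_univ _)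
        rw [hCs]
        exact (h.ns.uncross (hCl m) (tr_cl hr _ hU) e1 e2 hi hu).2.le
  have hxx : ∀ l, s.SameCycle x ((ρ ^ (j * l)) x) := by
    intro l
    induction l with
    | zero => simpa using Perm.SameCycle.refl s x
    | succ l ih =>
      refine ih.trans ?_
      rw [Nat.mul_succ, pow_add, Perm.mul_apply]
      exact BondA_sc hr _ hxj
  have hinv : ∀ t ∈ C k, (ρ ^ j) t ∈ C k := by
    intro t ht
    rw [hCmem] at ht ⊢
    obtain ⟨l, hl, y, hy, rfl⟩ := ht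
    rcases Nat.lt_or_ge l k with h1 | h1
    · refine ⟨l + 1, h1, y, hy, ?_⟩
      rw [← Perm.mul_apply, ← pow_add, Nat.mul_succ, add_comm]
    · have : l = k := by omega
      subst this
      refine ⟨1, by have := hr.k2; omega, y, hy, ?_⟩
      rw [mul_comm j l, BondA_pow_mul hr, mul_one]
  have hshC : ∀ t, ShC s (C k) t → s.SameCycle r t ∨ s.SameCycle x t := by
    rintro t ⟨⟨u, hu, hu'⟩, v, hv, hv'⟩
    obtain ⟨l, hl, y, hy, rfl⟩ := (hCmem k u).1 hu
    have h1 : ShC s (tr ρ (j * l) U) t := by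
      refine ⟨⟨_, mem_tr.2 hy, hu'⟩, v, fun hh => hv ?_, hv'⟩
      obtain ⟨y', hy', he⟩ := mem_tr'.1 hh
      exact (hCmem k v).2 ⟨l, hl, y', hy', he⟩
    rcases hsh _ t h1 with h2 | h2
    · exact Or.inl h2
    · exact Or.inr ((hxx l).trans h2)
  have huniv := inv_univ h hr (hCl k) (hCcut k) (hCne k) h0 hj hinv hshC
  have ht : t ∈ C k := by rw [huniv]; exact Finset.mem_univ t
  obtain ⟨l, _, y, hy, he⟩ := (hCmem k t).1 ht
  exact ⟨l, y, hy, he⟩

theorem BondA_end (h : Good a s) (hr : Rot a s ρ k r) (hA : VS a s ρ k r A) {x : T}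
    (hx : ShC s A x) (hn : ¬ s.SameCycle r x) (i : ℕ) {t : T} (ht : ShC s (tr ρ i A) t) :
    s.SameCycle r t ∨ s.SameCycle ((ρ ^ i) x) t := by
  have hA' := hA.tr hr i
  by_cases hrt : s.SameCycle r t
  · exact Or.inl hrt
  · right
    exact h.ends_two hA'.cl hA'.cut4 (hA'.shC hr) (BondA_shC_tr hr i hx) ht
      (fun hh => hn ((hr.pow_root i).1 hh)) hrt

theorem BondA_main (h : Good a s) (hr : Rot a s ρ k r) (hA : MaxV a s ρ k r A)
    (hB : MaxV a s ρ k r B) (hne : A ≠ B) (hi : (A ∩ B).Nonempty) {j : ℕ} (h0 : 0 < j) (hj : j < k)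
    (hmeet : ∃ y ∈ A, (ρ ^ j) y ∈ B) : Bd a s ρ k r := by
  have hab := BondA_diff hA hB hne
  have hba := BondA_diff hB hA hne.symm
  have hu := hA.1.union_ne hr hB.1 hi
  have hA' : MaxV a s ρ k r (tr ρ j A) := hA.tr hr j
  have hd : Disjoint A (tr ρ j A) := BondA_disj0 hA.1 h0 hj
  have hneB : ∀ i, 0 < i → i < k → tr ρ i A ≠ B := by
    intro i hi0 hik he
    have hd' := BondA_disj0 hA.1 hi0 hik
    rw [he, Finset.disjoint_iff_inter_eq_empty] at hd'
    rw [hd'] at hi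
    exact Finset.not_nonempty_empty hi
  have hneA' := hneB j h0 hj
  have hiB : (tr ρ j A ∩ B).Nonempty := by
    obtain ⟨y, hy, hy'⟩ := hmeet
    exact ⟨_, Finset.mem_inter.2 ⟨mem_tr.2 hy, hy'⟩⟩
  have hAB := BondA_diff hA' hB hneA'
  have hBA := BondA_diff hB hA' hneA'.symm
  -- the set S
  have hcutD := (h.ns.uncross_sdiff hB.1.cl hA'.1.cl hB.1.cut4 hA'.1.cut4 hBA hAB).1
  have hinterS : (A ∩ (B \ tr ρ j A)).Nonempty := by
    obtain ⟨y, hy⟩ := hi
    rw [Finset.mem_inter] at hy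
    exact ⟨y, Finset.mem_inter.2 ⟨hy.1, Finset.mem_sdiff.2 ⟨hy.2, Finset.disjoint_left.1 hd hy.1⟩⟩⟩
  have hSu : A ∪ (B \ tr ρ j A) ≠ univ := by
    intro he
    apply hu
    rw [Finset.eq_univ_iff_forall] at he ⊢
    intro y
    have := he y
    rw [Finset.mem_union, Finset.mem_sdiff] at this
    rw [Finset.mem_union]
    rcases this with h1 | h1
    · exact Or.inl h1
    · exact Or.inr h1.1
  have hcutS := (h.ns.uncross hA.1.cl (hB.1.cl.sdiff hA'.1.cl) hA.1.cut4 hcutD hinterS hSu).2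
  -- no translate of a point of A in B \ A'
  have hno : ∀ i, 0 < i → i < k → ∀ t ∈ A, (ρ ^ i) t ∈ B \ tr ρ j A → False := by
    intro i hi0 hik t ht ht'
    rw [Finset.mem_sdiff] at ht'
    have hij : i ≠ j := by
      rintro rfl
      exact ht'.2 (mem_tr.2 ht)
    have hA'' : MaxV a s ρ k r (tr ρ i A) := hA.tr hr i
    have hneA'' := hneB i hi0 hik
    exact not_three h hr hB.1 hA.1 hA'.1 hA''.1 hd (BondA_disj0 hA.1 hi0 hik)
      (BondA_disj' hA.1 hj hik hij.symm) hi hiB ⟨_, Finset.mem_inter.2 ⟨mem_tr.2 ht, ht'.1⟩⟩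
      hab hAB (BondA_diff hA'' hB hneA'') hba hBA (BondA_diff hB hA'' hneA''.symm)
  have hS : VS a s ρ k r (A ∪ (B \ tr ρ j A)) := by
    refine ⟨hA.1.cl.union (hB.1.cl.sdiff hA'.1.cl), hcutS, ?_, ?_⟩
    · obtain ⟨t, ht, ht'⟩ := hA.1.root
      exact ⟨t, Finset.mem_union_left _ ht, ht'⟩
    · intro i hi0 hik t ht ht'
      rw [Finset.mem_union] at ht ht'
      rcases ht with ht | ht <;> rcases ht' with ht' | ht'
      · exact hA.1.disj i hi0 hik t ht ht'
      · exact hno i hi0 hik t ht ht'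
      · have h1 := hr.pow_inv hik.le t
        refine hno (k - i) (by omega) (by omega) ((ρ ^ i) t) ht' ?_
        rw [h1]; exact ht
      · exact hB.1.disj i hi0 hik t (Finset.mem_sdiff.1 ht).1 (Finset.mem_sdiff.1 ht').1
  -- the other end
  obtain ⟨x, hx, hnx, _⟩ := h.ends hA.1.cl hA.1.cut4 (hA.1.shC hr)
  have hxB : ShC s B x := h.cross_end hA.1.cl hB.1.cl hA.1.cut4 hB.1.cut4 hi hu hab hba
    (hA.1.shC hr) (hB.1.shC hr) (hA.1.out h hr hB.1 hi hab hba) hx hnx
  have hiB' : (B ∩ tr ρ j A).Nonempty := by rwa [Finset.inter_comm]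
  have hxA' : ShC s (tr ρ j A) x := h.cross_end hB.1.cl hA'.1.cl hB.1.cut4 hA'.1.cut4 hiB'
    (hB.1.union_ne hr hA'.1 hiB') hBA hAB
    (hB.1.shC hr) (hA'.1.shC hr) (hB.1.out h hr hA'.1 hiB' hBA hAB) hxB hnx
  have hxj : s.SameCycle x ((ρ ^ j) x) :=
    h.ends_two hA'.1.cl hA'.1.cut4 (hA'.1.shC hr) hxA' (BondA_shC_tr hr j hx) hnx
      (fun hh => hnx ((hr.pow_root j).1 hh))
  have hcover := BondA_cover h hr (U := A ∪ B) (hA.1.cl.union hB.1.cl)
    (h.ns.uncross hA.1.cl hB.1.cl hA.1.cut4 hB.1.cut4 hi hu).2.le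
    (by obtain ⟨t, ht, _⟩ := hA.1.root; exact ⟨t, Finset.mem_union_left _ ht⟩) h0 hj hxj
    (by
      rintro i t ⟨⟨u, hu1, hu2⟩, v, hv1, hv2⟩
      have hv3 : v ∉ tr ρ i A ∧ v ∉ tr ρ i B := by
        constructor
        · intro hh
          obtain ⟨y, hy, he⟩ := mem_tr'.1 hh
          exact hv1 (mem_tr'.2 ⟨y, Finset.mem_union_left _ hy, he⟩)
        · intro hh
          obtain ⟨y, hy, he⟩ := mem_tr'.1 hh
          exact hv1 (mem_tr'.2 ⟨y, Finset.mem_union_right _ hy, he⟩)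
      obtain ⟨y, hy, he⟩ := mem_tr'.1 hu1
      rcases Finset.mem_union.1 hy with hy | hy
      · exact BondA_end h hr hA.1 hx hnx i
          ⟨⟨u, mem_tr'.2 ⟨y, hy, he⟩, hu2⟩, v, hv3.1, hv2⟩
      · exact BondA_end h hr hB.1 hxB hnx i
          ⟨⟨u, mem_tr'.2 ⟨y, hy, he⟩, hu2⟩, v, hv3.2, hv2⟩)
    (by
      obtain ⟨y, hy, hy'⟩ := hmeet
      exact ⟨y, Finset.mem_union_left _ hy, Finset.mem_union_right _ hy'⟩)
  refine ⟨_, hS, fun t => ?_⟩
  obtain ⟨l, y, hy, rfl⟩ := hcover t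
  by_cases hyS : y ∈ A ∪ (B \ tr ρ j A)
  · exact ⟨(k - 1) * (j * l), by rw [BondA_back hr]; exact hyS⟩
  · have hyA' : y ∈ tr ρ j A := by
      by_contra hc
      apply hyS
      rw [Finset.mem_union] at hy ⊢
      rcases hy with hy | hy
      · exact Or.inl hy
      · exact Or.inr (Finset.mem_sdiff.2 ⟨hy, hc⟩)
    obtain ⟨z, hz, rfl⟩ := mem_tr'.1 hyA'
    refine ⟨(k - 1) * (j * l + j), ?_⟩
    rw [← Perm.mul_apply (ρ ^ (j * l)), ← pow_add, BondA_back hr]
    exact Finset.mem_union_left _ hz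

/-- Proof.  `A \ B` and `B \ A` are nonempty by maximality; `A ∪ B ≠ univ` (`union_ne`), `cut s (A ∪ B) = 4`
(`NS.uncross`), and `A ∪ B` is not `VS` (maximality of `A`, `B`), so by `exists_meet` some `t ∈ A ∪ B` has
`(ρ ^ i) t ∈ A ∪ B`, `0 < i < k`; not both in `A` and not both in `B`; so (replacing `i` by `k - i` if necessary)
`A' = tr ρ j A` meets `B` for some `0 < j < k`.  `A'` is maximal (`MaxV.tr`), disjoint from `A`, and `A' ≠ B`, so `B` and `A'`
cross.  Put `S = A ∪ (B \ A')`.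
`S` is `VS`: `cut s (B \ A') = 4` (`uncross_sdiff`), `A ∩ (B \ A') = A ∩ B ≠ ∅`, `uncross`.  Disjoint translates: let
`t ∈ S`, `(ρ ^ i) t ∈ S`, `0 < i < k`.  Both in `A` or both in `B` is impossible.  If `t ∈ A`, `(ρ ^ i) t ∈ B \ A'`, then
`tr ρ i A` is different from `A'`, so disjoint from it (`i ≠ j`, translates of `A`), and `A`, `A'`, `tr ρ i A` are
pairwise disjoint and all cross `B`: `not_three`.  If `t ∈ B \ A'`, `(ρ ^ i) t ∈ A`: the same with `k - i`, as
`t ∈ tr ρ (k - i) A`.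
The translates of `S` cover: let `x` be the other end of `A`; by `cross_end` it is the other end of `B` and of `A'`
(`cross_end` for `B`, `A'`), and `(ρ ^ j) x` is also the other end of `A'`, so `(ρ ^ j) x ~ x`.  Let `C m` be the union of
`tr ρ (j * l) (A ∪ B)`, `l ≤ m`.  By induction `cut s (C m) ≤ 4`: `tr ρ (j * (m + 1)) A` meets `tr ρ (j * m) B ⊆ C m`
(uncross with `tr ρ (j * (m + 1)) (A ∪ B)`).  `C k` is invariant under `ρ ^ j`, its shared vertices are shared
vertices of some `tr ρ (j * l) A` or `tr ρ (j * l) B`, that is, the vertices of `r` or `x`.  So `C k = univ` by `inv_univ`.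
Finally every `t ∈ A ∪ B` is in `S` or in `A' = tr ρ j A`, that is in a translate of `S`. -/
theorem bd_of_inter (h : Good a s) (hr : Rot a s ρ k r) (hA : MaxV a s ρ k r A)
    (hB : MaxV a s ρ k r B) (hne : A ≠ B) (hi : (A ∩ B).Nonempty) : Bd a s ρ k r := by
  have hba := BondA_diff hB hA hne.symm
  have hu := hA.1.union_ne hr hB.1 hi
  have hcut := (h.ns.uncross hA.1.cl hB.1.cl hA.1.cut4 hB.1.cut4 hi hu).2
  have hroot : ∃ t ∈ A ∪ B, s.SameCycle r t := by
    obtain ⟨t, ht, ht'⟩ := hA.1.root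
    exact ⟨t, Finset.mem_union_left _ ht, ht'⟩
  have hnVS : ¬ VS a s ρ k r (A ∪ B) := by
    intro hv
    obtain ⟨y, hy⟩ := hba
    rw [Finset.mem_sdiff] at hy
    exact hy.2 (hA.2 _ hv Finset.subset_union_left (Finset.mem_union_right _ hy.1))
  obtain ⟨i, t, hi0, hik, ht, ht'⟩ := exists_meet (hA.1.cl.union hB.1.cl) hcut hroot hnVS
  rw [Finset.mem_union] at ht ht'
  rcases ht with ht | ht <;> rcases ht' with ht' | ht'
  · exact absurd ht' (hA.1.disj i hi0 hik t ht)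
  · exact BondA_main h hr hA hB hne hi hi0 hik ⟨t, ht, ht'⟩
  · refine BondA_main h hr hA hB hne hi (j := k - i) (by omega) (by omega) ⟨_, ht', ?_⟩
    rw [hr.pow_inv hik.le]; exact ht
  · exact absurd ht' (hB.1.disj i hi0 hik t ht)

end

end PGr

end

section
/-! # Module BondB: two adjacent maximal sets with the same ends -/

set_option linter.unusedSectionVars false

namespace PGr
open Equiv Finset

section
variable {T : Type*} [Fintype T] [DecidableEq T] {a s ρ : Perm T} {k : ℕ} {r : T}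
  {A B : Finset T}

/-- Proof.  If `A` and `B` intersect: `bd_of_inter`.  So let them be disjoint.  `Good.adj` gives a second common corner
`c'` at the vertex of `x`, so `cut s (A ∪ B) ≤ 4` (`cut_union_le`).  If `A ∪ B = univ`: `k * |A| ≤ |T|`, `k * |B| ≤ |T|`
(`VS.card`), so `k = 2` and `|A| = |B|`, and `tr ρ 1 A` is disjoint from `A`, so equal to `B`: the translates of `A`
cover.  Otherwise `cut s (A ∪ B) = 4`, `A ∪ B` is not `VS` (maximality), so by `exists_meet` `tr ρ j A` meets `B` for some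
`0 < j < k` (as in `bd_of_inter`).  If `tr ρ j A ≠ B`, apply `bd_of_inter` to these two.  If `tr ρ j A = B`: the other end `x`
of `B` is also the vertex of `(ρ ^ j) x`.  Let `C m` be the union of `tr ρ (j * l) A`, `l ≤ m`.  By induction
`cut s (C m) ≤ 4`: `tr ρ (j * (m + 1)) A` is one of the previous sets or disjoint from all of them (maximal sets are
equal or disjoint, otherwise `bd_of_inter`), and in the second case `(ρ ^ (j * m)) c` and `(ρ ^ (j * m)) c'` are two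
corners between `C m` and it (`cut_union_le`).  `C k` is invariant under `ρ ^ j` and its shared vertices are the vertices of
`r` or `x`; `inv_univ`: the translates of `A` cover. -/
theorem bd_of_adj_root (h : Good a s) (hr : Rot a s ρ k r) (hA : MaxV a s ρ k r A)
    (hB : MaxV a s ρ k r B) {c x : T} (hc : c ∈ A) (hcA : s c ∉ A) (hc' : s c ∈ B)
    (hcr : s.SameCycle r c) (hx : ShC s A x) (hx' : ShC s B x) (hn : ¬ s.SameCycle r x) :
    Bd a s ρ k r := by
  have hne : A ≠ B := fun he => hcA (he ▸ hc')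
  by_cases hi : (A ∩ B).Nonempty
  · exact bd_of_inter h hr hA hB hne hi
  have hd : Disjoint A B := by
    rw [Finset.disjoint_iff_inter_eq_empty]
    exact Finset.not_nonempty_iff_eq_empty.1 hi
  obtain ⟨c', _, hc'B, hc'A⟩ := h.adj hA.1.cl hB.1.cl hA.1.cut4 hB.1.cut4 hd hc hc' hx hx'
    (fun hh => hn (hcr.trans hh))
  have hcc' : c ≠ c' := fun he => Finset.disjoint_left.1 hd hc (he ▸ hc'B)
  have hcut : cut s (A ∪ B) ≤ 4 := by
    have h1 := cut_union_le hd hcc' (Or.inl ⟨hc, hc'⟩) (Or.inr ⟨hc'B, hc'A⟩)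
    have h2 := hA.1.cut4
    have h3 := hB.1.cut4
    omega
  -- `tr ρ j A = B` is enough
  have hfin : ∀ j, 0 < j → j < k → tr ρ j A = B → Bd a s ρ k r := by
    intro j h0 hj he
    have hxj : s.SameCycle x ((ρ ^ j) x) :=
      h.ends_two hB.1.cl hB.1.cut4 (hB.1.shC hr) hx' (by rw [← he]; exact BondA_shC_tr hr j hx) hn
        (fun hh => hn ((hr.pow_root j).1 hh))
    have hcover := BondA_cover h hr (U := A ∪ B) (hA.1.cl.union hB.1.cl) hcut
      ⟨c, Finset.mem_union_left _ hc⟩ h0 hj hxj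
      (by
        rintro i t ⟨⟨u, hu1, hu2⟩, v, hv1, hv2⟩
        have hv3 : v ∉ tr ρ i A ∧ v ∉ tr ρ i B := by
          constructor
          · intro hh
            obtain ⟨y, hy, he⟩ := mem_tr'.1 hh
            exact hv1 (mem_tr'.2 ⟨y, Finset.mem_union_left _ hy, he⟩)
          · intro hh
            obtain ⟨y, hy, he⟩ := mem_tr'.1 hh
            exact hv1 (mem_tr'.2 ⟨y, Finset.mem_union_right _ hy, he⟩)
        obtain ⟨y, hy, he⟩ := mem_tr'.1 hu1
        rcases Finset.mem_union.1 hy with hy | hy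
        · exact BondA_end h hr hA.1 hx hn i
            ⟨⟨u, mem_tr'.2 ⟨y, hy, he⟩, hu2⟩, v, hv3.1, hv2⟩
        · exact BondA_end h hr hB.1 hx' hn i
            ⟨⟨u, mem_tr'.2 ⟨y, hy, he⟩, hu2⟩, v, hv3.2, hv2⟩)
      ⟨c, Finset.mem_union_left _ hc, Finset.mem_union_right _ (by rw [← he]; exact mem_tr.2 hc)⟩
    refine ⟨A, hA.1, fun t => ?_⟩
    obtain ⟨l, y, hy, rfl⟩ := hcover t
    rcases Finset.mem_union.1 hy with hy | hy
    · exact ⟨(k - 1) * (j * l), by rw [BondA_back hr]; exact hy⟩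
    · rw [← he] at hy
      obtain ⟨z, hz, rfl⟩ := mem_tr'.1 hy
      refine ⟨(k - 1) * (j * l + j), ?_⟩
      rw [← Perm.mul_apply (ρ ^ (j * l)), ← pow_add, BondA_back hr]
      exact hz
  by_cases hu : A ∪ B = univ
  · have h1 := hA.1.card hr
    have h2 := hB.1.card hr
    have h3 : A.card + B.card = Fintype.card T := by
      rw [← Finset.card_union_of_disjoint hd, hu, Finset.card_univ]
    have hk2 := hr.k2
    have hTpos : 0 < Fintype.card T := Fintype.card_pos_iff.2 ⟨c⟩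
    have hk : k = 2 := by
      by_contra hk3
      have h5 : 3 ≤ k := by omega
      have h6 : 3 * A.card ≤ k * A.card := Nat.mul_le_mul_right _ h5
      have h7 : 3 * B.card ≤ k * B.card := Nat.mul_le_mul_right _ h5
      omega
    subst hk
    have h4 : tr ρ 1 A ⊆ B := by
      intro y hy
      have h5 := Finset.disjoint_right.1 (BondA_disj0 hA.1 (j := 1) (by omega) (by omega)) hy
      have h6 : y ∈ A ∪ B := by rw [hu]; exact Finset.mem_univ y
      rcases Finset.mem_union.1 h6 with h7 | h7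
      · exact absurd h7 h5
      · exact h7
    have h5 : (tr ρ 1 A).card = A.card := Finset.card_map _
    exact hfin 1 (by omega) (by omega) (Finset.eq_of_subset_of_card_le h4 (by omega))
  · have hcut4 : cut s (A ∪ B) = 4 :=
      le_antisymm hcut (h.ns _ (hA.1.cl.union hB.1.cl) ⟨c, Finset.mem_union_left _ hc⟩ hu)
    have hroot : ∃ t ∈ A ∪ B, s.SameCycle r t := ⟨c, Finset.mem_union_left _ hc, hcr⟩
    have hnVS : ¬ VS a s ρ k r (A ∪ B) := fun hv =>
      hcA (hA.2 _ hv Finset.subset_union_left (Finset.mem_union_right _ hc'))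
    obtain ⟨i, t, hi0, hik, ht, ht'⟩ := exists_meet (hA.1.cl.union hB.1.cl) hcut4 hroot hnVS
    have hmain : ∀ j, 0 < j → j < k → (∃ y ∈ A, (ρ ^ j) y ∈ B) → Bd a s ρ k r := by
      rintro j h0 hj ⟨y, hy, hy'⟩
      by_cases he : tr ρ j A = B
      · exact hfin j h0 hj he
      · exact bd_of_inter h hr (hA.tr hr j) hB he ⟨_, Finset.mem_inter.2 ⟨mem_tr.2 hy, hy'⟩⟩
    rw [Finset.mem_union] at ht ht'
    rcases ht with ht | ht <;> rcases ht' with ht' | ht'
    · exact absurd ht' (hA.1.disj i hi0 hik t ht)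
    · exact hmain i hi0 hik ⟨t, ht, ht'⟩
    · refine hmain (k - i) (by omega) (by omega) ⟨_, ht', ?_⟩
      rw [hr.pow_inv hik.le]; exact ht
    · exact absurd ht' (hB.1.disj i hi0 hik t ht)

/-- Proof.  If they intersect: `bd_of_inter` (`A ≠ B` as `s c ∉ A`).  Otherwise both sets have the ends `r` and `c`
(`VS.shC`), by `Good.adj` (with `x = r`) there is a corner `c'` at the vertex of `r` with `c' ∈ B`, `s c' ∈ A`:
`bd_of_adj_root` for `B`, `A`, `c'`, `x = c`. -/
theorem bd_of_adj (h : Good a s) (hr : Rot a s ρ k r) (hA : MaxV a s ρ k r A)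
    (hB : MaxV a s ρ k r B) {c : T} (hc : c ∈ A) (hcA : s c ∉ A) (hc' : s c ∈ B)
    (hcr : ¬ s.SameCycle r c) : Bd a s ρ k r := by
  have hne : A ≠ B := fun he => hcA (he ▸ hc')
  by_cases hi : (A ∩ B).Nonempty
  · exact bd_of_inter h hr hA hB hne hi
  have hd : Disjoint A B := by
    rw [Finset.disjoint_iff_inter_eq_empty]
    exact Finset.not_nonempty_iff_eq_empty.1 hi
  have hsc : s.SameCycle c (s c) := ⟨1, by simp⟩
  have hAc : ShC s A c := ⟨⟨c, hc, Perm.SameCycle.refl s c⟩, s c, hcA, hsc⟩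
  have hBc : ShC s B c :=
    ⟨⟨s c, hc', hsc⟩, c, Finset.disjoint_left.1 hd hc, Perm.SameCycle.refl s c⟩
  obtain ⟨c', h1, h2, h3⟩ := h.adj hA.1.cl hB.1.cl hA.1.cut4 hB.1.cut4 hd hc hc' (hA.1.shC hr)
    (hB.1.shC hr) (fun hh => hcr hh.symm)
  exact bd_of_adj_root h hr hB hA h2 (Finset.disjoint_left.1 hd h3) h3 h1 hBc hAc hcr

end

end PGr

end

section
/-! # Module HGap: the darts outside the maximal sets -/

set_option linter.unusedSectionVars false

namespace PGr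
open Equiv Finset

section
variable {T : Type*} [Fintype T] [DecidableEq T] {a s ρ : Perm T} {k : ℕ} {r : T}
  {A B : Finset T}

theorem HS_cl (_hr : Rot a s ρ k r) : Cl a (HS a s ρ k r) := by
  intro t
  rw [mem_HS, mem_HS]
  constructor
  · intro h A hA ht
    exact h A hA ((hA.1.cl t).2 ht)
  · intro h A hA ht
    exact h A hA ((hA.1.cl t).1 ht)

theorem HS_inv (hr : Rot a s ρ k r) (t : T) : ρ t ∈ HS a s ρ k r ↔ t ∈ HS a s ρ k r := by
  rw [mem_HS, mem_HS]
  constructor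
  · intro h A hA ht
    refine h _ (hA.tr hr 1) ?_
    have h1 : (ρ ^ 1) t ∈ PGr.tr ρ 1 A := mem_tr.2 ht
    rwa [pow_one] at h1
  · intro h A hA ht
    have hk : 1 ≤ k := by have := hr.k2; omega
    refine h _ (hA.tr hr (k - 1)) ?_
    have h1 : (ρ ^ (k - 1)) (ρ t) ∈ PGr.tr ρ (k - 1) A := mem_tr.2 ht
    have h2 := hr.pow_inv hk t
    rw [pow_one] at h2
    rwa [h2] at h1

/-- `VS.pair`, `exists_maxV` -/
theorem HS_root (h : Good a s) (hr : Rot a s ρ k r) {t : T} (ht : s.SameCycle r t) :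
    t ∉ HS a s ρ k r := by
  intro hm
  obtain ⟨B, hB, hsub⟩ := exists_maxV (VS.pair h hr ht)
  exact mem_HS.1 hm B hB (hsub (by simp))

/-- `bd_of_inter` -/
theorem MaxV.eq_of_mem (h : Good a s) (hr : Rot a s ρ k r) (hn : ¬ Bd a s ρ k r)
    (hA : MaxV a s ρ k r A) (hB : MaxV a s ρ k r B) {t : T} (ht : t ∈ A) (ht' : t ∈ B) :
    A = B := by
  by_contra hne
  exact hn (bd_of_inter h hr hA hB hne ⟨t, mem_inter.2 ⟨ht, ht'⟩⟩)

private theorem HGap_notMem {t : T} (h : t ∉ HS a s ρ k r) : ∃ A, MaxV a s ρ k r A ∧ t ∈ A := by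
  rw [mem_HS] at h
  push Not at h
  exact h

private theorem HGap_step (x : T) : s.SameCycle x (s x) := ⟨1, by simp⟩

/-- The situation at the other end of a maximal set `A`: let `x` be the other end, `z` the exit of `A` there and `p` the
entry.  `p ∉ A`, `s p ∈ A`; if `p ∉ HS`, then `p` is in a maximal set `B ≠ A`, and `bd_of_adj` for `B`, `A`, `p` gives a
bond; similarly `s z ∈ HS`.  Uniqueness of `p`: a dart `q ∈ HS` with `s q ∈ A` is an entry of `A`, not at the vertex of `r`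
(`HS_root`), so at the vertex of `x` (`ends_two`), `entry_unique`; similarly for `z`.  From `p` the rotation goes to
`s p ∈ A`, stays in `A` until an exit of `A` at this vertex, that is `z`, and then `s z ∈ HS`: the first return. -/
theorem gap (h : Good a s) (hr : Rot a s ρ k r) (hn : ¬ Bd a s ρ k r) (hA : MaxV a s ρ k r A) :
    ∃ p z : T, p ∈ HS a s ρ k r ∧ s p ∈ A ∧ z ∈ A ∧ s z ∈ HS a s ρ k r ∧ s.SameCycle p z ∧
      ¬ s.SameCycle r p ∧ (∀ q ∈ HS a s ρ k r, s q ∈ A → q = p) ∧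
      (∀ q ∈ A, s q ∈ HS a s ρ k r → q = z) ∧
      ∀ hp : p ∈ HS a s ρ k r, (ret s (HS a s ρ k r) ⟨p, hp⟩).1 = s z := by
  have hcl := hA.1.cl
  have h4 := hA.1.cut4
  have hsh := hA.1.shC hr
  obtain ⟨x, hx, hrx, hends⟩ := h.ends hcl h4 hsh
  obtain ⟨z, hxz, hzA, hszA⟩ := exists_exit hx
  obtain ⟨p, hxp, hpA, hspA⟩ := exists_entry hx
  have hrp : ¬ s.SameCycle r p := fun hc => hrx (hc.trans hxp.symm)
  have hrz : ¬ s.SameCycle r z := fun hc => hrx (hc.trans hxz.symm)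
  have hAHS : ∀ q ∈ HS a s ρ k r, q ∉ A := fun q hq => mem_HS.1 hq A hA
  have hpHS : p ∈ HS a s ρ k r := by
    by_contra hc
    obtain ⟨B, hB, hpB⟩ := HGap_notMem hc
    have hspB : s p ∉ B := by
      intro hspB
      have := MaxV.eq_of_mem h hr hn hA hB hspA hspB
      exact hpA (this ▸ hpB)
    exact hn (bd_of_adj h hr hB hA hpB hspB hspA hrp)
  have hszHS : s z ∈ HS a s ρ k r := by
    by_contra hc
    obtain ⟨B, hB, hszB⟩ := HGap_notMem hc
    exact hn (bd_of_adj h hr hA hB hzA hszA hszB hrz)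
  have hpz : s.SameCycle p z := hxp.symm.trans hxz
  refine ⟨p, z, hpHS, hspA, hzA, hszHS, hpz, hrp, ?_, ?_, ?_⟩
  · intro q hq hsq
    have hqA := hAHS q hq
    have hqs : ShC s A q := ⟨⟨s q, hsq, HGap_step q⟩, q, hqA, Perm.SameCycle.refl _ _⟩
    rcases hends q hqs with h1 | h1
    · exact absurd hq (HS_root h hr h1)
    · exact h.entry_unique hcl h4 hqA hsq hpA hspA (h1.symm.trans hxp)
  · intro q hq hsq
    have hsqA := hAHS (s q) hsq
    have hqs : ShC s A q := ⟨⟨q, hq, Perm.SameCycle.refl _ _⟩, s q, hsqA, HGap_step q⟩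
    rcases hends q hqs with h1 | h1
    · exact absurd hsq (HS_root h hr (h1.trans (HGap_step q)))
    · exact h.exit_unique hcl h4 hq hsqA hzA hszA (h1.symm.trans hxz)
  · intro hp
    classical
    -- the first exit
    have hex : ∃ n, 0 < n ∧ (s ^ n) p ∉ A := ⟨orderOf s, orderOf_pos s, by
      rw [pow_orderOf_eq_one]
      exact hpA⟩
    set n := Nat.find hex with hndef
    have hn0 : 0 < n := (Nat.find_spec hex).1
    have hnA : (s ^ n) p ∉ A := (Nat.find_spec hex).2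
    have hmin : ∀ i, 0 < i → i < n → (s ^ i) p ∈ A := by
      intro i hi hin
      by_contra hc
      exact Nat.find_min hex hin ⟨hi, hc⟩
    have hn1 : n ≠ 1 := by
      intro h1
      rw [h1, pow_one] at hnA
      exact hnA hspA
    obtain ⟨m, hm⟩ : ∃ m, n = m + 1 := ⟨n - 1, by omega⟩
    have hmA : (s ^ m) p ∈ A := hmin m (by omega) (by omega)
    have hsm : s ((s ^ m) p) = (s ^ n) p := by rw [hm, pow_succ', Perm.mul_apply]
    have hmz : (s ^ m) p = z := by
      refine h.exit_unique hcl h4 hmA (by rw [hsm]; exact hnA) hzA hszA ?_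
      have h1 : s.SameCycle p ((s ^ m) p) := ⟨(m : ℤ), by simp⟩
      exact h1.symm.trans hpz
    have hnz : (s ^ n) p = s z := by rw [← hsm, hmz]
    have h5 := ret_spec s (HS a s ρ k r) ⟨p, hp⟩ hn0 (by
      show (s ^ n) p ∈ _
      rw [hnz]
      exact hszHS) (by
      intro i hi hin hmem
      exact hAHS _ hmem (hmin i hi hin))
    rw [h5]
    exact hnz

/-- a dart of `HS` is followed by a dart of `HS` or by a dart of a maximal set, whose gap it is -/
theorem HS_next (_h : Good a s) (_hr : Rot a s ρ k r) (_hn : ¬ Bd a s ρ k r) {t : T}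
    (_ht : t ∈ HS a s ρ k r) (ht' : s t ∉ HS a s ρ k r) : ∃ A, MaxV a s ρ k r A ∧ s t ∈ A :=
  HGap_notMem ht'

/-- two darts of different maximal sets are consecutive only at the vertex of `r` -/
theorem MaxV_next (h : Good a s) (hr : Rot a s ρ k r) (hn : ¬ Bd a s ρ k r)
    (hA : MaxV a s ρ k r A) {t : T} (ht : t ∈ A) (ht' : s t ∉ A) :
    (s.SameCycle r t ∧ ∃ B, MaxV a s ρ k r B ∧ s t ∈ B) ∨
      (¬ s.SameCycle r t ∧ s t ∈ HS a s ρ k r) := by
  by_cases hrt : s.SameCycle r t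
  · exact Or.inl ⟨hrt, HGap_notMem (HS_root h hr (hrt.trans (HGap_step t)))⟩
  · refine Or.inr ⟨hrt, ?_⟩
    by_contra hc
    obtain ⟨B, hB, hstB⟩ := HGap_notMem hc
    exact hn (bd_of_adj h hr hA hB ht ht' hstB hrt)

/-- `gap` for the maximal set containing `r` -/
theorem HS_nonempty (h : Good a s) (hr : Rot a s ρ k r) (hn : ¬ Bd a s ρ k r) :
    (HS a s ρ k r).Nonempty := by
  obtain ⟨A, hA, _⟩ := HGap_notMem (HS_root h hr (Perm.SameCycle.refl s r))
  obtain ⟨p, _, hp, _⟩ := gap h hr hn hA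
  exact ⟨p, hp⟩

end

end PGr

end

section
/-! # Module HNS: the map outside the maximal sets is nonseparable -/

set_option linter.unusedSectionVars false

namespace PGr
open Equiv Finset

section
variable {T : Type*} [Fintype T] [DecidableEq T] {a s ρ : Perm T} {k : ℕ} {r : T}

/-- `C` and the maximal sets in its interior gaps: `t ∈ C`, or `t` is in a maximal set `A` such that the dart `p` of `HS`
before `A` (`s p ∈ A`) and the dart `s z` of `HS` after `A` (`z ∈ A`) are in `C` -/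
noncomputable def fillV (a s ρ : Perm T) (k : ℕ) (r : T) (C : Finset T) : Finset T := by
  classical
  exact univ.filter fun t => t ∈ C ∨ ∃ A, MaxV a s ρ k r A ∧ t ∈ A ∧
    (∃ p ∈ C, s p ∈ A) ∧ ∃ z ∈ A, s z ∈ C

theorem HNS_mem_fillV {C : Finset T} {t : T} : t ∈ fillV a s ρ k r C ↔
    (t ∈ C ∨ ∃ A, MaxV a s ρ k r A ∧ t ∈ A ∧ (∃ p ∈ C, s p ∈ A) ∧ ∃ z ∈ A, s z ∈ C) := by
  simp [fillV]

theorem exists_minimal_card_HNS {U : Type*} [Fintype U] [DecidableEq U] {P : Finset U → Prop}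
    (hP : ∃ C, P C) : ∃ C, P C ∧ ∀ D, P D → C.card ≤ D.card := by
  classical
  have h1 : ∃ n, ∃ C, P C ∧ C.card = n := by
    obtain ⟨C, hC⟩ := hP
    exact ⟨_, C, hC, rfl⟩
  obtain ⟨C, hC, hn⟩ := Nat.find_spec h1
  refine ⟨C, hC, fun D hD => ?_⟩
  rw [hn]
  exact Nat.find_min' h1 ⟨D, hD, rfl⟩

theorem HNS_notMem {A : Finset T} (hA : MaxV a s ρ k r A) {t : T} (ht : t ∈ A) :
    t ∉ HS a s ρ k r := fun h => mem_HS.1 h A hA ht

theorem HNS_exists {t : T} (ht : t ∉ HS a s ρ k r) : ∃ A, MaxV a s ρ k r A ∧ t ∈ A := by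
  rw [mem_HS] at ht
  push Not at ht
  exact ht

theorem HNS_HS_pow (hr : Rot a s ρ k r) (i : ℕ) (t : T) :
    (ρ ^ i) t ∈ HS a s ρ k r ↔ t ∈ HS a s ρ k r := by
  induction i with
  | zero => simp
  | succ i ih => rw [pow_succ', Perm.mul_apply, HS_inv hr, ih]

/-- `Cl`; and if `C` is invariant under `ρ ^ j` so is `fillV C`; and if the translates of `C` are disjoint so are those
of `fillV C` (if `A` and its translate `tr ρ i A` are both in `fillV C`, then `p` and `(ρ ^ i) p` are in `C`) -/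
theorem fillV_cl (h : Good a s) (hr : Rot a s ρ k r) (hn : ¬ Bd a s ρ k r) {C : Finset T}
    (hC : Cl a C) (hCH : C ⊆ HS a s ρ k r) :
    Cl a (fillV a s ρ k r C) ∧
    (∀ i, (∀ t ∈ C, (ρ ^ i) t ∈ C) → ∀ t ∈ fillV a s ρ k r C, (ρ ^ i) t ∈ fillV a s ρ k r C) ∧
    ((∀ i, 0 < i → i < k → ∀ t ∈ C, (ρ ^ i) t ∉ C) →
      ∀ i, 0 < i → i < k → ∀ t ∈ fillV a s ρ k r C, (ρ ^ i) t ∉ fillV a s ρ k r C) := by
  refine ⟨?_, ?_, ?_⟩
  · intro t
    rw [HNS_mem_fillV, HNS_mem_fillV, hC t]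
    refine or_congr Iff.rfl (exists_congr fun A => and_congr_right fun hA => ?_)
    rw [hA.1.cl t]
  · intro i hi t ht
    rw [HNS_mem_fillV] at ht ⊢
    rcases ht with ht | ⟨A, hA, htA, ⟨p, hp, hpA⟩, z, hz, hzC⟩
    · exact Or.inl (hi t ht)
    · refine Or.inr ⟨tr ρ i A, hA.tr hr i, mem_tr.2 htA, ⟨(ρ ^ i) p, hi p hp, ?_⟩,
        (ρ ^ i) z, mem_tr.2 hz, ?_⟩
      · rw [← hr.pow_s]
        exact mem_tr.2 hpA
      · rw [← hr.pow_s]
        exact hi _ hzC
  · intro hd i hi hik t ht ht'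
    rw [HNS_mem_fillV] at ht ht'
    rcases ht with ht | ⟨A, hA, htA, ⟨p, hp, hpA⟩, -⟩
    · rcases ht' with ht' | ⟨B, hB, htB, -⟩
      · exact hd i hi hik t ht ht'
      · exact HNS_notMem hB htB ((HNS_HS_pow hr i t).2 (hCH ht))
    · rcases ht' with ht' | ⟨B, hB, htB, ⟨q, hq, hqB⟩, -⟩
      · exact HNS_notMem hA htA ((HNS_HS_pow hr i t).1 (hCH ht'))
      · have hAB : tr ρ i A = B := (hA.tr hr i).eq_of_mem h hr hn hB (mem_tr.2 htA) htB
        obtain ⟨p', z', -, -, -, -, -, -, hu, -, -⟩ := gap h hr hn hB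
        have h1 : q = p' := hu q (hCH hq) hqB
        have h2 : (ρ ^ i) p = p' := by
          refine hu _ ((HNS_HS_pow hr i p).2 (hCH hp)) ?_
          rw [← hr.pow_s, ← hAB]
          exact mem_tr.2 hpA
        exact hd i hi hik p hp (by rw [h2, ← h1]; exact hq)

/-- The number of boundary corners of `C1 = fillV C` which are not at the vertex of `r` is at most the number of
boundary corners of `C` in `(HS, ret s HS)`.  Proof: let `t` be such a corner (not at `r`).  (i) `t, s t ∈ HS`: then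
`ret s HS t = s t` and `t` is a boundary corner of `C`.  (ii) `t ∈ HS`, `s t ∈ A` maximal: `t = p` is the gap corner of `A`,
`ret s HS p = s z`; boundary corner of `C1` iff `p ∈ C` and `s z ∉ C`.  (iii) `t ∈ A`, `s t ∈ HS`: `t = z`; boundary iff
`p ∉ C`, `s z ∈ C`; map it to `p`.  (iv) both in the same maximal set: no boundary corner; different maximal sets only at `r`
(`MaxV_next`).  The map `t ↦ t` in the cases (i), (ii) and `z ↦ p` in case (iii) is injective into `bd (ret s HS) C`. -/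
theorem fillV_bd (h : Good a s) (hr : Rot a s ρ k r) (hn : ¬ Bd a s ρ k r)
    (C : Finset {t // t ∈ HS a s ρ k r}) :
    ((bd s (fillV a s ρ k r (C.map (Function.Embedding.subtype _)))).filter
      fun t => ¬ s.SameCycle r t).card ≤ cut (ret s (HS a s ρ k r)) C := by
  classical
  obtain ⟨C', hC'⟩ : ∃ C' : Finset T, C' = C.map (Function.Embedding.subtype _) := ⟨_, rfl⟩
  rw [← hC']
  have hmem : ∀ t : T, t ∈ C' ↔ ∃ ht : t ∈ (HS a s ρ k r), (⟨t, ht⟩ : {t // t ∈ (HS a s ρ k r)}) ∈ C := by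
    intro t
    simp [hC']
  have hmem' : ∀ (t : T) (ht : t ∈ (HS a s ρ k r)), t ∈ C' ↔ (⟨t, ht⟩ : {t // t ∈ (HS a s ρ k r)}) ∈ C := by
    intro t ht
    rw [hmem]
    exact ⟨fun ⟨_, h⟩ => h, fun h => ⟨ht, h⟩⟩
  have hsubH : ∀ t ∈ C', t ∈ (HS a s ρ k r) := fun t ht => ((hmem t).1 ht).1
  -- membership in the filled set
  have hin : ∀ t ∈ (HS a s ρ k r), (t ∈ fillV a s ρ k r C' ↔ t ∈ C') := by
    intro t ht
    rw [HNS_mem_fillV]
    constructor
    · rintro (h1 | ⟨A, hA, h1, -⟩)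
      · exact h1
      · exact absurd ht (HNS_notMem hA h1)
    · exact Or.inl
  have hout : ∀ (A : Finset T) (hA : MaxV a s ρ k r A) (p z : T), p ∈ (HS a s ρ k r) → s p ∈ A → z ∈ A →
      s z ∈ (HS a s ρ k r) → (∀ q ∈ (HS a s ρ k r), s q ∈ A → q = p) → (∀ q ∈ A, s q ∈ (HS a s ρ k r) → q = z) → ∀ t ∈ A,
      (t ∈ fillV a s ρ k r C' ↔ (p ∈ C' ∧ s z ∈ C')) := by
    intro A hA p z hp hpA hz hzH hup huz t ht
    rw [HNS_mem_fillV]
    constructor
    · rintro (h1 | ⟨B, hB, h1, ⟨q, hq, hqB⟩, w, hw, hwC⟩)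
      · exact absurd (hsubH t h1) (HNS_notMem hA ht)
      · have hAB : A = B := hA.eq_of_mem h hr hn hB ht h1
        subst hAB
        rw [hup q (hsubH q hq) hqB] at hq
        rw [huz w hw (hsubH _ hwC)] at hwC
        exact ⟨hq, hwC⟩
    · rintro ⟨h1, h2⟩
      exact Or.inr ⟨A, hA, ht, ⟨p, h1, hpA⟩, z, hz, h2⟩
  let R : T → {t // t ∈ (HS a s ρ k r)} → Prop := fun t x => (x.1 = t ∧ (s t ∈ (HS a s ρ k r) ∨ x ∈ C)) ∨
    (t ∉ (HS a s ρ k r) ∧ x ∉ C ∧ ∃ A, MaxV a s ρ k r A ∧ t ∈ A ∧ s x.1 ∈ A ∧ s t ∈ (HS a s ρ k r))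
  refine card_le_card_of_forall_subsingleton R ?_ ?_
  · intro t ht
    rw [mem_filter, mem_bd] at ht
    obtain ⟨hb, hrt⟩ := ht
    by_cases htH : t ∈ (HS a s ρ k r)
    · rw [hin t htH] at hb
      by_cases hstH : s t ∈ (HS a s ρ k r)
      · rw [hin _ hstH] at hb
        refine ⟨⟨t, htH⟩, ?_, Or.inl ⟨rfl, Or.inl hstH⟩⟩
        rw [mem_bd, ret_of_mem s (HS a s ρ k r) ⟨t, htH⟩ hstH, ← hmem' t htH, ← hmem' (s t) hstH]
        exact hb
      · obtain ⟨A, hA, hstA⟩ := HS_next h hr hn htH hstH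
        obtain ⟨p, z, hp, hpA, hz, hzH, -, -, hup, huz, hret⟩ := gap h hr hn hA
        have htp : t = p := hup t htH hstA
        subst htp
        rw [hout A hA t z hp hpA hz hzH hup huz (s t) hstA] at hb
        have h1 : t ∈ C' ∧ s z ∉ C' := by tauto
        refine ⟨⟨t, htH⟩, ?_, Or.inl ⟨rfl, Or.inr ((hmem' t htH).1 h1.1)⟩⟩
        have h2 : ret s (HS a s ρ k r) ⟨t, htH⟩ = ⟨s z, hzH⟩ := Subtype.ext (hret htH)
        rw [mem_bd, h2, ← hmem' t htH, ← hmem' _ hzH]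
        tauto
    · obtain ⟨A, hA, htA⟩ := HNS_exists htH
      obtain ⟨p, z, hp, hpA, hz, hzH, -, -, hup, huz, hret⟩ := gap h hr hn hA
      rw [hout A hA p z hp hpA hz hzH hup huz t htA] at hb
      by_cases hstA : s t ∈ A
      · rw [hout A hA p z hp hpA hz hzH hup huz (s t) hstA] at hb
        exact absurd Iff.rfl hb
      · rcases MaxV_next h hr hn hA htA hstA with ⟨h1, -⟩ | ⟨-, h1⟩
        · exact absurd h1 hrt
        · have htz : t = z := huz t htA h1
          subst htz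
          rw [hin _ h1] at hb
          have h2 : p ∉ C' ∧ s t ∈ C' := by tauto
          refine ⟨⟨p, hp⟩, ?_, Or.inr ⟨htH, fun h3 => h2.1 ((hmem' p hp).2 h3), A, hA, htA, hpA, h1⟩⟩
          have h3 : ret s (HS a s ρ k r) ⟨p, hp⟩ = ⟨s t, hzH⟩ := Subtype.ext (hret hp)
          rw [mem_bd, h3, ← hmem' p hp, ← hmem' _ hzH]
          tauto
  · intro x _ t1 ht1 t2 ht2
    rcases ht1.2 with ⟨h1, h1'⟩ | ⟨h1, h1x, A, hA, hA1, hA2, hA3⟩
    · rcases ht2.2 with ⟨h2, h2'⟩ | ⟨h2, h2x, B, hB, hB1, hB2, hB3⟩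
      · rw [← h1, ← h2]
      · rcases h1' with h3 | h3
        · rw [← h1] at h3
          exact absurd h3 (HNS_notMem hB hB2)
        · exact absurd h3 h2x
    · rcases ht2.2 with ⟨h2, h2'⟩ | ⟨h2, h2x, B, hB, hB1, hB2, hB3⟩
      · rcases h2' with h3 | h3
        · rw [← h2] at h3
          exact absurd h3 (HNS_notMem hA hA2)
        · exact absurd h3 h1x
      · have hAB : A = B := hA.eq_of_mem h hr hn hB hA2 hB2
        subst hAB
        obtain ⟨p, z, -, -, -, -, -, -, -, huz, -⟩ := gap h hr hn hA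
        rw [huz t1 hA1 hA3, huz t2 hB1 hB3]

/-- For a closed set `U`: the number of boundary corners at the vertex of `r` is at most the number of boundary
corners elsewhere: the face of a boundary corner at `r` contains another boundary corner (`partner` for the face
permutation, `bd_dual`), which is not at `r` by `noPinch`, and different corners at `r` are in different faces. -/
theorem bd_root_le (h : Good a s) {U : Finset T} (hU : Cl a U) (r : T) :
    ((bd s U).filter fun t => s.SameCycle r t).card ≤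
      ((bd s U).filter fun t => ¬ s.SameCycle r t).card := by
  refine card_le_card_of_forall_subsingleton (fun t t' => (a * s).SameCycle t t') ?_ ?_
  · intro t ht
    rw [mem_filter] at ht
    obtain ⟨t', hne, hsc, ht'⟩ := Four.partner (a * s) (A := U) (t := t)
      (by rw [Four.bd_dual hU]; exact ht.1)
    rw [Four.bd_dual hU] at ht'
    refine ⟨t', ?_, hsc⟩
    rw [mem_filter]
    exact ⟨ht', fun h1 => h.noPinch hne.symm (ht.2.symm.trans h1) hsc⟩
  · intro t' _ t1 ht1 t2 ht2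
    by_contra hne
    have h1 := (mem_filter.1 (mem_coe.1 ht1.1)).2
    have h2 := (mem_filter.1 (mem_coe.1 ht2.1)).2
    exact h.noPinch hne (h1.symm.trans h2) (ht1.2.trans ht2.2.symm)

theorem HNS_pow_comm {s σ : Perm T} (hσ : ∀ t, σ (s t) = s (σ t)) (i : ℕ) (t : T) :
    σ ((s ^ i) t) = (s ^ i) (σ t) := by
  induction i with
  | zero => rfl
  | succ i ih => rw [pow_succ', Perm.mul_apply, hσ, ih, Perm.mul_apply]

/-- the first return commutes with symmetries -/
theorem HNS_ret_comm {s σ : Perm T} {S : Finset T} (hσ : ∀ t, σ (s t) = s (σ t))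
    (hS : ∀ t, σ t ∈ S ↔ t ∈ S) (x : {x // x ∈ S}) :
    (ret s S ⟨σ x.1, (hS _).2 x.2⟩).1 = σ (ret s S x).1 := by
  obtain ⟨m, hm, h1, h2⟩ := exists_ret s S x
  have h3 : (s ^ m) (σ x.1) ∈ S := by
    rw [← HNS_pow_comm hσ, hS, h1]
    exact (ret s S x).2
  have h4 := ret_spec s S ⟨σ x.1, (hS _).2 x.2⟩ hm h3 (fun i hi hlt => by
    show (s ^ i) (σ x.1) ∉ S
    rw [← HNS_pow_comm hσ, hS]
    exact h2 i hi hlt)
  rw [h4]
  show (s ^ m) (σ x.1) = _
  rw [← HNS_pow_comm hσ, h1]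

/-- Proof.  Let `C` be a closed set of darts of `H = HS`, nonempty, not everything, with cut less than 4 in
`(H, sH)`, `sH = ret s H`; it is 0 or 2 (`cut_eq_two_mul`).  Let `C1 = fillV C`; it contains `C` and not `H \ C`
(the maximal sets are disjoint from `H`).  By `fillV_bd`, `bd_root_le`: `cut s C1 ≤ 2 * cut sH C`, and `4 ≤ cut s C1`.  So
`cut sH C = 2`, `cut s C1 = 4`, with exactly two boundary corners at the vertex of `r` (so `C1` has a dart there, and
one exit).  So for every closed proper nonempty `C` (i) `2 ≤ cut sH C`, (ii) if `cut sH C = 2` and the translates of `C` are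
disjoint, then `C1` is `VS`, so contained in a maximal set `B`, but `C ⊆ B` is impossible (`mem_HS`).
Take `C` with `cut sH C = 2` (closed, proper, nonempty) of minimal cardinality.  By (ii) `C` meets its translate `C'` by
`ρ ^ i` for some `0 < i < k`.  `C' = C`: if `C ∪ C' ≠ univ`, then `cut_inter_union` and (i) give
`cut sH (C ∩ C') = 2`, so `C ∩ C' = C` by minimality.  If `C ∪ C' = univ` and `C ≠ C'`, then `cut_sdiff` and (i) give
`cut sH (C \ C') = 2`, a smaller set (`C` meets `C'`), contradiction.  So `C` is invariant under `ρ ^ i`, and so is `C1`; but `C1` has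
exactly one exit at the vertex of `r`, which would be fixed by `ρ ^ i`. -/
theorem HS_ns (h : Good a s) (hr : Rot a s ρ k r) (hn : ¬ Bd a s ρ k r)
    (hcl : Cl a (HS a s ρ k r)) :
    NS (subA a (HS a s ρ k r) hcl) (ret s (HS a s ρ k r)) := by
  classical
  let emb : {t // t ∈ (HS a s ρ k r)} ↪ T := Function.Embedding.subtype _
  have hmem' : ∀ (C : Finset {t // t ∈ (HS a s ρ k r)}) (t : T) (ht : t ∈ (HS a s ρ k r)),
      t ∈ C.map emb ↔ (⟨t, ht⟩ : {t // t ∈ (HS a s ρ k r)}) ∈ C := by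
    intro C t ht
    simp [emb, ht]
  have hsubH : ∀ (C : Finset {t // t ∈ (HS a s ρ k r)}), ∀ t ∈ C.map emb, t ∈ (HS a s ρ k r) := by
    intro C t ht
    obtain ⟨x, -, rfl⟩ := mem_map.1 ht
    exact x.2
  have hcl' : ∀ C : Finset {t // t ∈ (HS a s ρ k r)}, Cl (subA a (HS a s ρ k r) hcl) C → Cl a (C.map emb) := by
    intro C hC t
    constructor
    · intro ht
      have h1 := hsubH C _ ht
      have h2 : t ∈ (HS a s ρ k r) := (hcl t).1 h1
      rw [hmem' C _ h1] at ht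
      rw [hmem' C t h2]
      exact (hC ⟨t, h2⟩).1 ht
    · intro ht
      have h2 := hsubH C _ ht
      have h1 : a t ∈ (HS a s ρ k r) := (hcl t).2 h2
      rw [hmem' C _ h2] at ht
      rw [hmem' C _ h1]
      exact (hC ⟨t, h2⟩).2 ht
  -- closed proper nonempty sets
  have key : ∀ C : Finset {t // t ∈ (HS a s ρ k r)}, Cl (subA a (HS a s ρ k r) hcl) C → C.Nonempty → C ≠ univ →
      2 ≤ cut (ret s (HS a s ρ k r)) C ∧ (cut (ret s (HS a s ρ k r)) C = 2 →
        cut s (fillV a s ρ k r (C.map emb)) = 4 ∧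
        ∃ z, s.SameCycle r z ∧ z ∈ fillV a s ρ k r (C.map emb) ∧
          s z ∉ fillV a s ρ k r (C.map emb)) := by
    intro C hC hne hu
    obtain ⟨hf1, -, -⟩ := fillV_cl h hr hn (hcl' C hC) (hsubH C)
    have hne1 : (fillV a s ρ k r (C.map emb)).Nonempty := by
      obtain ⟨x, hx⟩ := hne
      exact ⟨x.1, HNS_mem_fillV.2 (Or.inl ((hmem' C x.1 x.2).2 hx))⟩
    have hu1 : fillV a s ρ k r (C.map emb) ≠ univ := by
      intro h0
      apply hu
      rw [eq_univ_iff_forall] at h0 ⊢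
      intro x
      rcases HNS_mem_fillV.1 (h0 x.1) with h1 | ⟨A, hA, h1, -⟩
      · exact (hmem' C x.1 x.2).1 h1
      · exact absurd x.2 (HNS_notMem hA h1)
    have h4 := h.ns _ hf1 hne1 hu1
    have hv := fillV_bd h hr hn C
    have huv := bd_root_le h hf1 r
    have hsum : ((bd s (fillV a s ρ k r (C.map emb))).filter fun t => s.SameCycle r t).card +
        ((bd s (fillV a s ρ k r (C.map emb))).filter fun t => ¬ s.SameCycle r t).card =
        cut s (fillV a s ρ k r (C.map emb)) := card_filter_add_card_filter_not _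
    have hv' : ((bd s (fillV a s ρ k r (C.map emb))).filter fun t => ¬ s.SameCycle r t).card ≤
        cut (ret s (HS a s ρ k r)) C := hv
    refine ⟨by omega, fun h2 => ?_⟩
    refine ⟨by omega, ?_⟩
    have hpos : 0 < ((bd s (fillV a s ρ k r (C.map emb))).filter
        fun t => s.SameCycle r t).card := by omega
    obtain ⟨t, ht⟩ := card_pos.1 hpos
    rw [mem_filter] at ht
    obtain ⟨z, hz1, hz2, hz3⟩ := exists_exit (Four.shC_of_bd ht.1)
    exact ⟨z, ht.2.trans hz1, hz2, hz3⟩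
  intro C0 hC0 hne0 hu0
  by_contra hlt
  push Not at hlt
  have hev := cut_eq_two_mul (ret s (HS a s ρ k r)) C0
  have h20 : cut (ret s (HS a s ρ k r)) C0 = 2 := by
    have := (key C0 hC0 hne0 hu0).1
    omega
  -- a minimal one
  obtain ⟨C, ⟨hC, hne, hu, h2⟩, hmin⟩ := exists_minimal_card_HNS
    (P := fun C : Finset {t // t ∈ (HS a s ρ k r)} => Cl (subA a (HS a s ρ k r) hcl) C ∧ C.Nonempty ∧ C ≠ univ ∧
      cut (ret s (HS a s ρ k r)) C = 2) ⟨C0, hC0, hne0, hu0, h20⟩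
  obtain ⟨hf1, hf2, hf3⟩ := fillV_cl h hr hn (hcl' C hC) (hsubH C)
  obtain ⟨hc4, z, hz1, hz2, hz3⟩ := (key C hC hne hu).2 h2
  -- it meets a translate
  have hmeet : ∃ i t, 0 < i ∧ i < k ∧ t ∈ C.map emb ∧ (ρ ^ i) t ∈ C.map emb := by
    by_contra hcon
    push Not at hcon
    have hVS : VS a s ρ k r (fillV a s ρ k r (C.map emb)) :=
      ⟨hf1, hc4, ⟨z, hz2, hz1⟩, hf3 fun i hi hik t ht => hcon i t hi hik ht⟩
    obtain ⟨B, hB, hsub⟩ := exists_maxV hVS
    obtain ⟨x, hx⟩ := hne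
    have h3 : x.1 ∈ B := hsub (HNS_mem_fillV.2 (Or.inl ((hmem' C x.1 x.2).2 hx)))
    exact HNS_notMem hB h3 x.2
  obtain ⟨i, t0, hi, hik, ht0, ht0'⟩ := hmeet
  -- the translate
  have hinv : ∀ t, (ρ ^ i) t ∈ (HS a s ρ k r) ↔ t ∈ (HS a s ρ k r) := HNS_HS_pow hr i
  let σ : Perm {t // t ∈ (HS a s ρ k r)} := (ρ ^ i).subtypePerm hinv
  have hσs : ∀ x, σ (ret s (HS a s ρ k r) x) = ret s (HS a s ρ k r) (σ x) := fun x =>
    Subtype.ext (HNS_ret_comm (hr.pow_s i) hinv x).symm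
  have hσa : ∀ x, σ (subA a (HS a s ρ k r) hcl x) = subA a (HS a s ρ k r) hcl (σ x) := fun x =>
    Subtype.ext (hr.pow_a i x.1)
  have hmemσ : ∀ x, σ x ∈ C.map σ.toEmbedding ↔ x ∈ C := by
    intro x
    simp
  have hDcl : Cl (subA a (HS a s ρ k r) hcl) (C.map σ.toEmbedding) := by
    intro x
    obtain ⟨y, rfl⟩ := σ.surjective x
    rw [← hσa, hmemσ, hmemσ]
    exact hC y
  have hDcut : cut (ret s (HS a s ρ k r)) (C.map σ.toEmbedding) = 2 := by
    rw [← h2]
    have h3 : bd (ret s (HS a s ρ k r)) (C.map σ.toEmbedding) = (bd (ret s (HS a s ρ k r)) C).map σ.toEmbedding := by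
      ext x
      obtain ⟨y, rfl⟩ := σ.surjective x
      rw [mem_bd, ← hσs, hmemσ, hmemσ]
      simp [mem_bd]
    rw [cut, h3, card_map, cut]
  have hDcard : (C.map σ.toEmbedding).card = C.card := card_map _
  have hDne : (C.map σ.toEmbedding).Nonempty := hne.map
  have hint : (C ∩ C.map σ.toEmbedding).Nonempty := by
    have h3 := hsubH C _ ht0
    refine ⟨σ ⟨t0, h3⟩, mem_inter.2 ⟨?_, (hmemσ _).2 ((hmem' C t0 h3).1 ht0)⟩⟩
    exact (hmem' C _ ((hinv t0).2 h3)).1 ht0'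
  have hDC : C.map σ.toEmbedding = C := by
    by_contra hDne'
    have hCD : ¬ C ⊆ C.map σ.toEmbedding := fun hs =>
      hDne' (eq_of_subset_of_card_le hs hDcard.le).symm
    have hDC' : ¬ C.map σ.toEmbedding ⊆ C := fun hs =>
      hDne' (eq_of_subset_of_card_le hs hDcard.ge)
    have hd1 : (C \ C.map σ.toEmbedding).Nonempty := sdiff_nonempty.2 hCD
    have hd2 : (C.map σ.toEmbedding \ C).Nonempty := sdiff_nonempty.2 hDC'
    by_cases hun : C ∪ C.map σ.toEmbedding = univ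
    · have h3 := cut_sdiff (ret s (HS a s ρ k r)) C (C.map σ.toEmbedding)
      have h4 : (C \ C.map σ.toEmbedding) ≠ univ := by
        intro h0
        rw [eq_univ_iff_forall] at h0
        obtain ⟨x, hx⟩ := hDne
        exact (mem_sdiff.1 (h0 x)).2 hx
      have h5 : (C.map σ.toEmbedding \ C) ≠ univ := by
        intro h0
        rw [eq_univ_iff_forall] at h0
        obtain ⟨x, hx⟩ := hne
        exact (mem_sdiff.1 (h0 x)).2 hx
      have h6 := (key _ (hC.sdiff hDcl) hd1 h4).1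
      have h7 := (key _ (hDcl.sdiff hC) hd2 h5).1
      have h8 := hmin (C \ C.map σ.toEmbedding) ⟨hC.sdiff hDcl, hd1, h4, by omega⟩
      have h9 : C \ C.map σ.toEmbedding ⊂ C := by
        refine Finset.ssubset_iff_subset_ne.2 ⟨sdiff_subset, fun h0 => ?_⟩
        obtain ⟨x, hx⟩ := hint
        rw [mem_inter] at hx
        have h10 := hx.1
        rw [← h0, mem_sdiff] at h10
        exact h10.2 hx.2
      have := card_lt_card h9
      omega
    · have h3 := cut_inter_union (ret s (HS a s ρ k r)) C (C.map σ.toEmbedding)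
      have h4 : (C ∩ C.map σ.toEmbedding) ≠ univ := by
        intro h0
        apply hu
        rw [eq_univ_iff_forall] at h0 ⊢
        exact fun x => (mem_inter.1 (h0 x)).1
      have h6 := (key _ (hC.inter hDcl) hint h4).1
      have h7 := (key _ (hC.union hDcl) (hne.mono subset_union_left) hun).1
      have h8 := hmin (C ∩ C.map σ.toEmbedding) ⟨hC.inter hDcl, hint, h4, by omega⟩
      have h9 : C ∩ C.map σ.toEmbedding = C := eq_of_subset_of_card_le inter_subset_left h8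
      exact hCD (inter_eq_left.1 h9)
  -- so it is invariant
  have hCinv : ∀ t ∈ C.map emb, (ρ ^ i) t ∈ C.map emb := by
    intro t ht
    have h3 := hsubH C _ ht
    rw [hmem' C t h3] at ht
    rw [hmem' C _ ((hinv t).2 h3)]
    have h4 : σ ⟨t, h3⟩ ∈ C.map σ.toEmbedding := (hmemσ _).2 ht
    rw [hDC] at h4
    exact h4
  have hF := hf2 i hCinv
  -- the exit at `r` is fixed
  have hz2' : (ρ ^ i) z ∈ fillV a s ρ k r (C.map emb) := hF z hz2
  have hz3' : s ((ρ ^ i) z) ∉ fillV a s ρ k r (C.map emb) := by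
    intro h3
    apply hz3
    -- iterate the symmetry
    have h5 : ∀ n : ℕ, ∀ t ∈ fillV a s ρ k r (C.map emb), ((ρ ^ i) ^ n) t ∈
        fillV a s ρ k r (C.map emb) := by
      intro n
      induction n with
      | zero => intro t ht; simpa using ht
      | succ n ih =>
        intro t ht
        rw [pow_succ', Perm.mul_apply]
        exact hF _ (ih t ht)
    rw [← hr.pow_s] at h3
    have h6 := h5 (k - 1) _ h3
    have h7 : ((ρ ^ i) ^ (k - 1)) ((ρ ^ i) (s z)) = s z := by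
      have h8 : ((ρ ^ i) ^ (k - 1)) ((ρ ^ i) (s z)) = ((ρ ^ i) ^ k) (s z) := by
        have hk1 : k = (k - 1) + 1 := by have := hr.k2; omega
        conv_rhs => rw [hk1, pow_succ, Perm.mul_apply]
      rw [h8, ← pow_mul, mul_comm, pow_mul]
      have h9 : ∀ n : ℕ, ((ρ ^ k) ^ n) (s z) = s z := by
        intro n
        induction n with
        | zero => rfl
        | succ n ih => rw [pow_succ', Perm.mul_apply, ih, hr.pow]
      exact h9 i
    rwa [h7] at h6
  have hcyc : s.SameCycle z ((ρ ^ i) z) := hz1.symm.trans ((hr.pow_root i).2 hz1)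
  have heq := h.exit_unique hf1 hc4 hz2 hz3 hz2' hz3' hcyc
  exact hr.free z i hi hik heq.symm

/-- with `Pl.restrict` -/
theorem HS_np (h : Good a s) (hr : Rot a s ρ k r) (hn : ¬ Bd a s ρ k r)
    (hcl : Cl a (HS a s ρ k r)) :
    NP (subA a (HS a s ρ k r) hcl) (ret s (HS a s ρ k r)) where
  inv := fun t => Subtype.ext (h.inv t.1)
  fpf := fun t ht => h.fpf t.1 (congrArg Subtype.val ht)
  ns := HS_ns h hr hn hcl
  pl := h.pl.restrict h.inv _ hcl

end

end PGr

end

section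
/-! # Module HOrd: the order of the maximal sets around the root vertex -/

set_option linter.unusedSectionVars false

namespace PGr
open Equiv Finset

section
variable {T : Type*} [Fintype T] [DecidableEq T] {a s ρ : Perm T} {k : ℕ} {r : T}
  {A B : Finset T}

/-- The maximal sets `A` and `B` are consecutive at the root vertex: `c ∈ A`, `s c ∈ B`.  Let `p`, `q` be the corners of
`HS` before `A` and `B`.  Then `p` is the next occupied corner after `q` in the face of `(HS, ret s HS)`: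
`ψ = subA a * ret s HS`, `ψ ^ n q = p`, `n > 0`, and the corners in between are not occupied.
Proof.  Follow the face of `T` (`a * s`) from the corner `c`.  `(a * s) c = a (s c) ∈ B`; the face stays in `B` until a corner
`u ∈ B`, `s u ∉ B`, which is not at `r` (`noPinch`, as in `face_exit` of module Adj), so `s u ∈ HS` and `u = z` is the last dart of `B`
(`gap`), `s u = ret s HS q`, and the next corner of the face is `a (s u) = ψ q`.  As long as the corner `x ∈ HS` of the face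
is not occupied (`s x ∈ HS`), the next corner is `a (s x) = ψ x`.  The face returns to `c ∉ HS`, so after finitely many
steps `x = ψ ^ n q` (`n ≥ 1`) is occupied, `s x ∈ A'` with `A'` maximal (`HS_next`).  Following the face inside `A'` it leaves `A'` at a
corner not at the vertex of `x`, so at the vertex of `r` (`ends_two`); the only corner of this face at the vertex of `r`
is `c` (`noPinch`), so `c ∈ A'`, `A' = A` (`MaxV.eq_of_mem`) and `x = p` (`gap`). -/
theorem order (h : Good a s) (hr : Rot a s ρ k r) (hn : ¬ Bd a s ρ k r)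
    (hA : MaxV a s ρ k r A) (hB : MaxV a s ρ k r B) {c : T} (hc : c ∈ A) (hcA : s c ∉ A)
    (hc' : s c ∈ B) (hcr : s.SameCycle r c) (hcl : Cl a (HS a s ρ k r))
    (p q : {t // t ∈ HS a s ρ k r}) (hp : s p.1 ∈ A) (hq : s q.1 ∈ B) :
    ∃ n, 0 < n ∧ ((subA a (HS a s ρ k r) hcl * ret s (HS a s ρ k r)) ^ n) q = p ∧
      ∀ i, 0 < i → i < n →
        s (((subA a (HS a s ρ k r) hcl * ret s (HS a s ρ k r)) ^ i) q).1 ∈ HS a s ρ k r := by
  set ψ := subA a (HS a s ρ k r) hcl * ret s (HS a s ρ k r) with hψ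
  have hcB : c ∉ B := fun hcB => hcA ((MaxV.eq_of_mem h hr hn hA hB hc hcB) ▸ hc')
  have hcH : c ∉ HS a s ρ k r := HS_root h hr hcr
  -- the face steps
  have hstep : ∀ x : {t // t ∈ HS a s ρ k r}, s x.1 ∈ HS a s ρ k r → (ψ x).1 = (a * s) x.1 := by
    intro x hx
    have h1 : ret s (HS a s ρ k r) x = ⟨s x.1, hx⟩ := ret_of_mem s _ x hx
    show a (ret s (HS a s ρ k r) x).1 = _
    rw [h1]
    rfl
  -- the first step
  have hfirst : (a * s).SameCycle c (ψ q).1 := by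
    obtain ⟨p0, z, g1, g2, g3, g4, g5, g6, g7, g8, g9⟩ := gap h hr hn hB
    obtain ⟨u, u1, u2, u3, u4⟩ := face_exit h hB.1.cl hcB hc'
    have hur : ¬ s.SameCycle r u := fun hru => u4 (hcr.symm.trans hru)
    have hsu : s u ∈ HS a s ρ k r := by
      rcases MaxV_next h hr hn hB u2 u3 with ⟨h1, -⟩ | ⟨-, h1⟩
      · exact absurd h1 hur
      · exact h1
    have huz : u = z := g8 u u2 hsu
    have hq0 : q.1 = p0 := g7 q.1 q.2 hq
    have hret : (ret s (HS a s ρ k r) q).1 = s z := by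
      have h2 := g9 g1
      have h3 : q = ⟨p0, g1⟩ := Subtype.ext hq0
      rw [h3]
      exact h2
    have h4 : (ψ q).1 = (a * s) z := by
      show a (ret s (HS a s ρ k r) q).1 = _
      rw [hret]
      rfl
    rw [h4, ← huz]
    exact (Perm.sameCycle_apply_right).2 u1
  have hpow : ∀ m : ℕ, (∀ i < m, s ((ψ ^ (i + 1)) q).1 ∈ HS a s ρ k r) →
      ((ψ ^ (m + 1)) q).1 = ((a * s) ^ m) (ψ q).1 := by
    intro m
    induction m with
    | zero => intro _; rfl
    | succ m ih =>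
      intro hm
      rw [pow_succ' ψ (m + 1), Perm.mul_apply, hstep _ (hm m (by omega)),
        ih (fun i hi => hm i (by omega)), pow_succ' (a * s) m]
      rfl
  have hex : ∃ m : ℕ, s ((ψ ^ (m + 1)) q).1 ∉ HS a s ρ k r := by
    by_contra hcon
    push Not at hcon
    obtain ⟨m, _, hm⟩ := hfirst.symm.exists_pow_eq'
    have h1 := hpow m (fun i _ => hcon i)
    rw [hm] at h1
    exact hcH (h1 ▸ ((ψ ^ (m + 1)) q).2)
  classical
  have hm1 := Nat.find_spec hex
  have hm2 : ∀ i < Nat.find hex, s ((ψ ^ (i + 1)) q).1 ∈ HS a s ρ k r := fun i hi =>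
    not_not.1 (Nat.find_min hex hi)
  generalize Nat.find hex = m at hm1 hm2
  have hx := hpow m hm2
  set x := (ψ ^ (m + 1)) q with hxdef
  have hcx : (a * s).SameCycle c x.1 := by
    rw [hx]
    exact hfirst.trans ⟨(m : ℤ), by rw [zpow_natCast]⟩
  obtain ⟨A', hA', hxA'⟩ := HS_next h hr hn x.2 hm1
  have hxA : x.1 ∉ A' := (mem_HS.1 x.2) A' hA'
  obtain ⟨u, u1, u2, u3, u4⟩ := face_exit h hA'.1.cl hxA hxA'
  have hxr : ¬ s.SameCycle r x.1 := fun hrx => HS_root h hr hrx x.2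
  have hur : s.SameCycle u r := by
    refine h.ends_two hA'.1.cl hA'.1.cut4 (x := x.1) ?_ ?_ (VS.shC hr hA'.1) u4
      (fun hc => hxr hc.symm)
    · exact ⟨⟨s x.1, hxA', Perm.sameCycle_apply_right.2 (Perm.SameCycle.refl _ _)⟩,
        x.1, hxA, Perm.SameCycle.refl _ _⟩
    · exact ⟨⟨u, u2, Perm.SameCycle.refl _ _⟩, s u, u3,
        Perm.sameCycle_apply_right.2 (Perm.SameCycle.refl _ _)⟩
  have hcu : c = u := by
    by_contra hne
    exact h.noPinch hne (hcr.symm.trans hur.symm) (hcx.trans u1)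
  have hAA : A' = A := (MaxV.eq_of_mem h hr hn hA' hA u2 (hcu ▸ hc))
  refine ⟨m + 1, by omega, ?_, ?_⟩
  · obtain ⟨p0, z, g1, g2, g3, g4, g5, g6, g7, g8, g9⟩ := gap h hr hn hA
    rw [← hxdef]
    apply Subtype.ext
    rw [g7 x.1 x.2 (hAA ▸ hxA'), g7 p.1 p.2 hp]
  · intro i hi hlt
    obtain ⟨j, rfl⟩ : ∃ j, i = j + 1 := ⟨i - 1, by omega⟩
    exact hm2 j (by omega)

/-- all occupied corners are in one face, and `ρ` maps this face to itself: going once around the vertex of `r`,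
`order` connects all maximal sets -/
theorem one_face (h : Good a s) (hr : Rot a s ρ k r) (hn : ¬ Bd a s ρ k r)
    (hcl : Cl a (HS a s ρ k r)) (p q : {t // t ∈ HS a s ρ k r}) (hp : s p.1 ∉ HS a s ρ k r)
    (hq : s q.1 ∉ HS a s ρ k r) :
    (subA a (HS a s ρ k r) hcl * ret s (HS a s ρ k r)).SameCycle p q := by
  have hcls : ∀ t : {t // t ∈ HS a s ρ k r}, s t.1 ∉ HS a s ρ k r →
      ∃ A, MaxV a s ρ k r A ∧ s t.1 ∈ A := fun t ht => HS_next h hr hn t.2 ht
  obtain ⟨A, hA, hpA⟩ := hcls p hp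
  obtain ⟨B, hB, hqB⟩ := hcls q hq
  obtain ⟨t, htA, htr⟩ := hA.1.root
  obtain ⟨t', htB, htr'⟩ := hB.1.root
  have key : ∀ (i : ℕ) (A' : Finset T), MaxV a s ρ k r A' → (s ^ i) t ∈ A' →
      ∀ p' : {t // t ∈ HS a s ρ k r}, s p'.1 ∈ A' →
        (subA a (HS a s ρ k r) hcl * ret s (HS a s ρ k r)).SameCycle p p' := by
    intro i
    induction i with
    | zero =>
      intro A' hA' ht p' hp'
      have h1 : A = A' := MaxV.eq_of_mem h hr hn hA hA' htA ht
      obtain ⟨p0, z, g1, g2, g3, g4, g5, g6, g7, g8, g9⟩ := gap h hr hn hA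
      have h2 : p = p' := by
        apply Subtype.ext
        rw [g7 p.1 p.2 hpA, g7 p'.1 p'.2 (h1 ▸ hp')]
      rw [h2]
    | succ i ih =>
      intro A' hA' ht p' hp'
      have hr1 : s.SameCycle r ((s ^ i) t) := htr.trans ⟨(i : ℤ), by rw [zpow_natCast]⟩
      have h1 : (s ^ i) t ∉ HS a s ρ k r := HS_root h hr hr1
      rw [mem_HS] at h1
      push Not at h1
      obtain ⟨A2, hA2, ht2⟩ := h1
      obtain ⟨p0, z, g1, g2, g3, g4, g5, g6, g7, g8, g9⟩ := gap h hr hn hA2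
      have h2 := ih A2 hA2 ht2 ⟨p0, g1⟩ g2
      rw [pow_succ', Perm.mul_apply] at ht
      by_cases h3 : s ((s ^ i) t) ∈ A2
      · have h4 : A2 = A' := MaxV.eq_of_mem h hr hn hA2 hA' h3 ht
        have h5 : (⟨p0, g1⟩ : {t // t ∈ HS a s ρ k r}) = p' :=
          Subtype.ext (g7 p'.1 p'.2 (h4 ▸ hp')).symm
        rwa [h5] at h2
      · obtain ⟨n, _, hn2, _⟩ := order h hr hn hA2 hA' ht2 h3 ht hr1 hcl ⟨p0, g1⟩ p' g2 hp'
        have h4 : (subA a (HS a s ρ k r) hcl * ret s (HS a s ρ k r)).SameCycle p' ⟨p0, g1⟩ :=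
          ⟨(n : ℤ), by rw [zpow_natCast, hn2]⟩
        exact h2.trans h4.symm
  obtain ⟨i, _, hi⟩ := (htr.symm.trans htr').exists_pow_eq'
  exact key i B hB (hi ▸ htB) q hqB

end

end PGr

end

section
/-! # Module FanV: the maximal sets of a fan are its nets -/

set_option linter.unusedSectionVars false

namespace PGr
open Equiv Finset

namespace FanD
variable {k : ℕ} (X : FanD k) {d : X.N0.1.D} {ρF : Perm X.FT}

private theorem fs_inr_mem {t : X.R} (h : t ∈ X.K) :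
    X.Fs (Sum.inr t) = Sum.inl ⟨⟨t, h⟩, fstD (X.N ⟨t, h⟩) false⟩ := by
  show gjump X.C X.N (X.C.s (Sum.inr t)) = _
  rw [starC_inr_mem X.a X.s X.K h]
  rfl

private theorem fs_inr_not_mem {t : X.R} (h : t ∉ X.K) :
    X.Fs (Sum.inr t) = Sum.inr (X.s t) := by
  show gjump X.C X.N (X.C.s (Sum.inr t)) = _
  rw [starC_inr_not_mem X.a X.s X.K h]
  rfl

private theorem fs_false {κ : {x // x ∈ X.K}} {e : (X.N κ).1.D}
    (h : (X.N κ).1.s (Sum.inl e) = Sum.inr false) :
    X.Fs (Sum.inl ⟨κ, e⟩) = Sum.inr (X.s κ.1) := by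
  have h1 := X.C.Fs_out X.N (i := κ) h
  exact h1

private theorem fs_true {κ : {x // x ∈ X.K}} {e : (X.N κ).1.D}
    (h : (X.N κ).1.s (Sum.inl e) = Sum.inr true) :
    ∃ κ', X.Fs (Sum.inl ⟨κ, e⟩) = Sum.inl ⟨κ', fstD (X.N κ') true⟩ := by
  have h1 := X.C.Fs_out X.N (i := κ) h
  exact ⟨_, h1⟩

private theorem fs_in {κ : {x // x ∈ X.K}} {e e' : (X.N κ).1.D}
    (h : (X.N κ).1.s (Sum.inl e) = Sum.inl e') :
    X.Fs (Sum.inl ⟨κ, e⟩) = Sum.inl ⟨κ, e'⟩ := X.C.Fs_in X.N (i := κ) h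

private theorem inl_mem (κ κ' : {x // x ∈ X.K}) (e : (X.N κ').1.D) :
    (Sum.inl ⟨κ', e⟩ : X.FT) ∈ X.C.part X.N κ ↔ κ' = κ := by
  rw [X.C.mem_part X.N]
  constructor
  · rintro ⟨e', h⟩
    have h1 := Sum.inl_injective h
    exact congrArg Sigma.fst h1
  · rintro rfl
    exact ⟨e, rfl⟩

private theorem inr_mem (κ : {x // x ∈ X.K}) (t : X.R) :
    (Sum.inr t : X.FT) ∉ X.C.part X.N κ := by
  rw [X.C.mem_part X.N]
  rintro ⟨e', h⟩
  exact absurd h Sum.inr_ne_inl

private theorem pow_part (hd : X.AtPole d) (hr : Rot X.Fa X.Fs ρF k (X.rt d))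
    (h : ∀ t, ρF (Sum.inr t) = Sum.inr (X.ρ t)) (i : ℕ) (κ : {x // x ∈ X.K}) :
    ∃ hm : (X.ρ ^ i) κ.1 ∈ X.K, ∀ t, t ∈ X.C.part X.N κ →
      (ρF ^ i) t ∈ X.C.part X.N ⟨(X.ρ ^ i) κ.1, hm⟩ := by
  induction i with
  | zero => exact ⟨κ.2, fun t ht => ht⟩
  | succ i ih =>
    obtain ⟨hm, h1⟩ := ih
    have hm' : (X.ρ ^ (i + 1)) κ.1 ∈ X.K := by
      rw [pow_succ', Perm.mul_apply]
      exact (X.inv _).2 hm
    refine ⟨hm', fun t ht => ?_⟩
    have h2 := (X.rot_part hd hr h ⟨(X.ρ ^ i) κ.1, hm⟩ ((ρF ^ i) t)).2 (h1 t ht)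
    have h3 : (⟨X.ρ ((X.ρ ^ i) κ.1), (X.inv _).2 hm⟩ : {x // x ∈ X.K}) =
        ⟨(X.ρ ^ (i + 1)) κ.1, hm'⟩ := by
      apply Subtype.ext
      show X.ρ ((X.ρ ^ i) κ.1) = (X.ρ ^ (i + 1)) κ.1
      rw [pow_succ', Perm.mul_apply]
    have h4 : (ρF ^ (i + 1)) t = ρF ((ρF ^ i) t) := by
      rw [pow_succ', Perm.mul_apply]
    rw [h4, ← h3]
    exact h2

/-- `GCo.part_cl`, `GCo.part_cut`; the translates are the parts of `(ρ ^ i) κ` (`rot_part`) -/
theorem part_vs (hd : X.AtPole d) (hr : Rot X.Fa X.Fs ρF k (X.rt d))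
    (h : ∀ t, ρF (Sum.inr t) = Sum.inr (X.ρ t)) (κ : {x // x ∈ X.K}) :
    VS X.Fa X.Fs ρF k (X.rt d) (X.C.part X.N κ) := by
  refine ⟨X.C.part_cl X.N κ, X.C.part_cut X.N X.C_good κ, ?_, ?_⟩
  · refine ⟨Sum.inl ⟨κ, fstD (X.N κ) true⟩, (inl_mem X κ κ _).2 rfl, ?_⟩
    rw [X.root_iff hd]
    refine ⟨κ, fstD (X.N κ) true, rfl, ⟨1, ?_⟩⟩
    rw [zpow_one]
    exact fstD_spec (X.N κ) true
  · intro i h0 hk t ht ht'
    obtain ⟨hm, h1⟩ := pow_part X hd hr h i κ
    have h2 := h1 t ht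
    rw [X.C.mem_part X.N] at h2 ht'
    obtain ⟨e, he⟩ := h2
    obtain ⟨e', he'⟩ := ht'
    rw [he] at he'
    have h3 := congrArg Sigma.fst (Sum.inl_injective he')
    have h4 := congrArg Subtype.val h3
    exact X.rot.free κ.1 i h0 hk h4

/-- the corner of `R` at which a corner of the fan is -/
private def toR : X.FT → X.R
  | Sum.inl x => x.1.1
  | Sum.inr t => t

private theorem walk {κ : {x // x ∈ X.K}} {A : Finset X.FT}
    (hA : ∀ e : (X.N κ).1.D, (X.N κ).1.s.SameCycle (Sum.inr false) (Sum.inl e) →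
      ((Sum.inl ⟨κ, e⟩ : X.FT) ∈ A ↔ X.Fs (Sum.inl ⟨κ, e⟩) ∈ A)) :
    ((Sum.inl ⟨κ, fstD (X.N κ) false⟩ : X.FT) ∈ A ↔ (Sum.inr (X.s κ.1) : X.FT) ∈ A) := by
  by_contra hcon
  -- all darts of the walk are inner darts with the same membership
  have key : ∀ n : ℕ, ∃ e : (X.N κ).1.D, ((X.N κ).1.s ^ (n + 1)) (Sum.inr false) = Sum.inl e ∧
      ((Sum.inl ⟨κ, fstD (X.N κ) false⟩ : X.FT) ∈ A ↔ (Sum.inl ⟨κ, e⟩ : X.FT) ∈ A) := by
    intro n
    induction n with
    | zero =>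
      refine ⟨fstD (X.N κ) false, ?_, Iff.rfl⟩
      rw [zero_add, pow_one]
      exact fstD_spec (X.N κ) false
    | succ n ih =>
      obtain ⟨e, he, hi⟩ := ih
      have hsc : (X.N κ).1.s.SameCycle (Sum.inr false) (Sum.inl e) :=
        ⟨((n + 1 : ℕ) : ℤ), by rw [zpow_natCast]; exact he⟩
      have h1 := hA e hsc
      have h2 : ((X.N κ).1.s ^ (n + 1 + 1)) (Sum.inr false) = (X.N κ).1.s (Sum.inl e) := by
        rw [pow_succ', Perm.mul_apply, he]
      rcases h3 : (X.N κ).1.s (Sum.inl e) with e' | b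
      · refine ⟨e', by rw [h2, h3], ?_⟩
        rw [fs_in X h3] at h1
        exact hi.trans h1
      · cases b
        · exfalso
          rw [fs_false X h3] at h1
          exact hcon (hi.trans h1)
        · exfalso
          refine (X.N κ).2.noLoop (Sum.inr false) ?_
          have h4 : (X.N κ).1.aa (Sum.inr false) = Sum.inr true := rfl
          rw [h4]
          refine ⟨((n + 1 + 1 : ℕ) : ℤ), ?_⟩
          rw [zpow_natCast, h2, h3]
  obtain ⟨e, he, -⟩ := key (orderOf (X.N κ).1.s - 1)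
  have h5 : orderOf (X.N κ).1.s - 1 + 1 = orderOf (X.N κ).1.s :=
    Nat.sub_add_cancel (orderOf_pos _)
  rw [h5, pow_orderOf_eq_one] at he
  exact absurd he Sum.inr_ne_inl

/-- The number of boundary corners of a closed set `A` which are not at the new vertex is at least the cut of
`C = {t : inr t ∈ A}` in `(X.a, X.s)`: for `p ∉ K` with `p`, `s p` on different sides the corner `inr p`; for `p ∈ K` the
rotation leads from `inr p` through the darts of the net `p` at the pole `false` to `inr (s p)`, and one of these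
corners is a boundary corner. -/
theorem bd_ge (hd : X.AtPole d) {A : Finset X.FT} (C : Finset X.R)
    (hC : ∀ t, t ∈ C ↔ Sum.inr t ∈ A) :
    cut X.s C ≤ ((bd X.Fs A).filter fun t => ¬ X.Fs.SameCycle (X.rt d) t).card := by
  classical
  have hnr : ∀ t : X.R, ¬ X.Fs.SameCycle (X.rt d) (Sum.inr t) := by
    intro t ht
    obtain ⟨κ, e, h1, -⟩ := (X.root_iff hd _).1 ht
    exact absurd h1 Sum.inr_ne_inl
  have hnf : ∀ (κ : {x // x ∈ X.K}) (e : (X.N κ).1.D),
      (X.N κ).1.s.SameCycle (Sum.inr false) (Sum.inl e) →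
      ¬ X.Fs.SameCycle (X.rt d) (Sum.inl ⟨κ, e⟩) := by
    intro κ e he ht
    obtain ⟨κ', e', h1, h2⟩ := (X.root_iff hd _).1 ht
    have h3 := Sum.inl_injective h1
    obtain ⟨rfl, h4⟩ := Sigma.mk.inj_iff.1 h3
    have h5 := eq_of_heq h4
    subst h5
    refine (X.N κ).2.noLoop (Sum.inr false) ?_
    have h4 : (X.N κ).1.aa (Sum.inr false) = Sum.inr true := rfl
    rw [h4]
    exact he.trans h2.symm
  have h1 : bd X.s C ⊆
      ((bd X.Fs A).filter fun t => ¬ X.Fs.SameCycle (X.rt d) t).image (toR X) := by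
    intro t ht
    rw [mem_bd, hC, hC] at ht
    rw [mem_image]
    by_contra hcon
    push Not at hcon
    have hb : ∀ c : X.FT, toR X c = t → ¬ X.Fs.SameCycle (X.rt d) c → (c ∈ A ↔ X.Fs c ∈ A) := by
      intro c hc hc'
      by_contra hn
      exact hcon c (mem_filter.2 ⟨mem_bd.2 hn, hc'⟩) hc
    have h2 := hb (Sum.inr t) rfl (hnr t)
    by_cases hK : t ∈ X.K
    · rw [fs_inr_mem X hK] at h2
      have h3 := walk X (κ := ⟨t, hK⟩) (A := A) fun e he => hb _ rfl (hnf _ e he)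
      exact ht (h2.trans h3)
    · rw [fs_inr_not_mem X hK] at h2
      exact ht h2
  exact (card_le_card h1).trans card_image_le

private theorem cross_lst {κ κ' : {x // x ∈ X.K}} (hne : κ ≠ κ') {c : X.FT}
    (hc : c ∈ X.C.part X.N κ) (hc' : X.Fs c ∈ X.C.part X.N κ') :
    c = Sum.inl ⟨κ, CompNS.lstD (X.N κ) true⟩ := by
  rw [X.C.mem_part X.N] at hc
  obtain ⟨e, rfl⟩ := hc
  rcases h3 : (X.N κ).1.s (Sum.inl e) with e' | b
  · rw [fs_in X h3, inl_mem] at hc'
    exact absurd hc' hne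
  · cases b
    · rw [fs_false X h3] at hc'
      exact absurd hc' (inr_mem X κ' _)
    · rw [CompNS.lstD_unique (X.N κ) h3]

/-- the core set of the spokes in `J` -/
private noncomputable def spk (J : Finset {x // x ∈ X.K}) : Finset X.C.T := by
  classical exact univ.filter fun x => ∃ κ ∈ J, ∃ b, x = Sum.inl (κ, b)

private theorem mem_spk {J : Finset {x // x ∈ X.K}} {x : X.C.T} :
    x ∈ spk X J ↔ ∃ κ ∈ J, ∃ b, x = Sum.inl (κ, b) := by
  simp [spk]

private theorem mem_spk_inl {J : Finset {x // x ∈ X.K}} {κ : {x // x ∈ X.K}} {b : Bool} :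
    (Sum.inl (κ, b) : X.C.T) ∈ spk X J ↔ κ ∈ J := by
  rw [mem_spk]
  constructor
  · rintro ⟨κ', h1, b', h2⟩
    have h3 := congrArg Prod.fst (Sum.inl_injective h2)
    simp only at h3
    rw [h3]; exact h1
  · intro h
    exact ⟨κ, h, b, rfl⟩

private theorem mem_spk_inr {J : Finset {x // x ∈ X.K}} {t : X.R} :
    (Sum.inr t : X.C.T) ∉ spk X J := by
  rw [mem_spk]
  rintro ⟨κ', h1, b', h2⟩
  exact absurd h2 Sum.inr_ne_inl

/-- the union of nets -/
private noncomputable def nts (J : Finset {x // x ∈ X.K}) : Finset X.FT := by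
  classical exact univ.filter fun t => ∃ κ ∈ J, t ∈ X.C.part X.N κ

private theorem mem_nts {J : Finset {x // x ∈ X.K}} {t : X.FT} :
    t ∈ nts X J ↔ ∃ κ ∈ J, t ∈ X.C.part X.N κ := by
  simp [nts]

private theorem cut_nts (J : Finset {x // x ∈ X.K}) :
    cut X.Fs (nts X J) = cut X.C.s (spk X J) := by
  refine X.C.cut_sat X.N (spk X J) ?_ (nts X J) ?_ ?_
  · intro κ b b' h
    exact (mem_spk_inl X).2 ((mem_spk_inl X).1 h)
  · intro κ e b
    rw [mem_nts]
    constructor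
    · rintro ⟨κ', h1, h2⟩
      rw [inl_mem] at h2
      subst h2
      exact (mem_spk_inl X).2 h1
    · intro h
      exact ⟨κ, (mem_spk_inl X).1 h, (inl_mem X κ κ e).2 rfl⟩
  · intro t
    rw [mem_nts]
    constructor
    · rintro ⟨κ', -, h2⟩
      exact absurd h2 (inr_mem X κ' t)
    · intro h
      exact absurd h (mem_spk_inr X)

private theorem at_new {κ : {x // x ∈ X.K}} {z : X.C.T}
    (hz : X.C.s.SameCycle (Sum.inl (κ, true)) z) : ∃ κ' : {x // x ∈ X.K}, z = Sum.inl (κ', true) := by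
  rcases z with ⟨κ', b⟩ | t
  · cases b
    · exfalso
      have h1 : X.C.s.SameCycle (Sum.inl (κ', false)) (Sum.inr κ'.1) :=
        (star_sc_spoke κ' κ'.1).2 (Perm.SameCycle.refl _ _)
      exact star_sc_ne κ κ'.1 (hz.trans h1)
    · exact ⟨κ', rfl⟩
  · exact absurd hz (star_sc_ne κ t)

/-- the cut of the spokes in `J` -/
private theorem cut_spk {J : Finset {x // x ∈ X.K}} (h4 : cut X.C.s (spk X J) ≤ 4)
    (h2 : 2 ≤ J.card) : J = univ ∧ J.card = 2 := by
  classical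
  obtain ⟨F, hF, hc⟩ : ∃ F : Finset X.C.T, (∀ t, t ∈ F ↔ t ∈ spk X J ∧ X.C.s t ∉ spk X J) ∧
      2 * F.card ≤ 4 := by
    rw [cut_eq_two_mul] at h4
    refine ⟨_, fun t => ?_, h4⟩
    rw [mem_filter]
    exact and_iff_right (mem_univ _)
  have hsub : J.map ⟨fun κ => (Sum.inl (κ, false) : X.C.T), fun x y h =>
      congrArg Prod.fst (Sum.inl_injective h)⟩ ⊆ F := by
    intro t ht
    rw [mem_map] at ht
    obtain ⟨κ, hκ, rfl⟩ := ht
    rw [hF]
    refine ⟨(mem_spk_inl X).2 hκ, ?_⟩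
    show X.C.s (Sum.inl (κ, false)) ∉ spk X J
    rw [starC_false X.a X.s X.K κ]
    exact mem_spk_inr X
  have h5 : J.card ≤ 2 := by
    have h6 : J.card ≤ F.card := by
      have h7 := card_le_card hsub
      rw [card_map] at h7
      exact h7
    omega
  refine ⟨?_, le_antisymm h5 h2⟩
  by_contra hu
  obtain ⟨κ', hκ'⟩ : ∃ κ', κ' ∉ J := by
    by_contra hcon
    push Not at hcon
    exact hu (eq_univ_iff_forall.2 hcon)
  obtain ⟨κ, hκ⟩ : J.Nonempty := card_pos.1 (by omega)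
  have hsc : X.C.s.SameCycle (Sum.inl (κ, true)) (Sum.inl (κ', true)) :=
    star_root (p := X.p) X.face κ κ'
  have hsh : ShC X.C.s (spk X J) (Sum.inl (κ, true)) :=
    ⟨⟨_, (mem_spk_inl X).2 hκ, Perm.SameCycle.refl _ _⟩,
      ⟨_, fun h => hκ' ((mem_spk_inl X).1 h), hsc⟩⟩
  obtain ⟨z, hz1, hz2, hz3⟩ := exists_exit hsh
  obtain ⟨κ2, rfl⟩ := at_new X hz1
  have hnm : (Sum.inl (κ2, true) : X.C.T) ∉ J.map ⟨fun κ => (Sum.inl (κ, false) : X.C.T),
      fun x y h => congrArg Prod.fst (Sum.inl_injective h)⟩ := by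
    intro h
    rw [mem_map] at h
    obtain ⟨κ3, -, h3⟩ := h
    have h6 := congrArg Prod.snd (Sum.inl_injective h3)
    exact Bool.false_ne_true h6
  have hsub2 : insert (Sum.inl (κ2, true) : X.C.T) (J.map ⟨fun κ => (Sum.inl (κ, false) : X.C.T),
      fun x y h => congrArg Prod.fst (Sum.inl_injective h)⟩) ⊆ F := by
    refine insert_subset ?_ hsub
    rw [hF]
    exact ⟨hz2, hz3⟩
  have h6 : J.card + 1 ≤ F.card := by
    have h7 := card_le_card hsub2
    rw [card_insert_of_notMem hnm, card_map] at h7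
    exact h7
  omega

private theorem four_le {A : Finset X.FT} (hA : Cl X.Fa A) (hne : A.Nonempty)
    (hu : ∃ t, t ∉ A) : 4 ≤ cut X.Fs A := by
  refine X.good.ns A hA hne fun h => ?_
  obtain ⟨t, ht⟩ := hu
  rw [h] at ht
  exact ht (mem_univ _)

/-- adding the nets which meet `A` does not increase the cut -/
private theorem absorb {A : Finset X.FT} (hA : Cl X.Fa A) (S : Finset {x // x ∈ X.K})
    (hS : ∀ κ ∈ S, (A ∩ X.C.part X.N κ).Nonempty) :
    cut X.Fs (A ∪ nts X S) ≤ cut X.Fs A := by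
  classical
  induction S using Finset.induction_on with
  | empty =>
    have h2 : nts X ∅ = ∅ := by
      ext t
      rw [mem_nts]
      simp
    rw [h2, union_empty]
  | insert κ S hκ ih =>
    have h2 := ih fun j hj => hS j (mem_insert_of_mem hj)
    have h3 : A ∪ nts X (insert κ S) = (A ∪ nts X S) ∪ X.C.part X.N κ := by
      ext t
      simp only [mem_union, mem_nts, mem_insert]
      constructor
      · rintro (h | ⟨κ', rfl | h1, h2⟩)
        · exact Or.inl (Or.inl h)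
        · exact Or.inr h2
        · exact Or.inl (Or.inr ⟨κ', h1, h2⟩)
      · rintro ((h | ⟨κ', h1, h2⟩) | h)
        · exact Or.inl h
        · exact Or.inr ⟨κ', Or.inr h1, h2⟩
        · exact Or.inr ⟨κ, Or.inl rfl, h⟩
    have h4 := cut_inter_union X.Fs (A ∪ nts X S) (X.C.part X.N κ)
    have hc : cut X.Fs (X.C.part X.N κ) = 4 := X.C.part_cut X.N X.C_good κ
    rw [← h3, hc] at h4
    have hcl : Cl X.Fa (nts X S) := by
      intro t
      rw [mem_nts, mem_nts]
      refine exists_congr fun κ' => and_congr_right fun _ => ?_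
      exact X.C.part_cl X.N κ' t
    have h5 : 4 ≤ cut X.Fs ((A ∪ nts X S) ∩ X.C.part X.N κ) := by
      refine four_le X ((hA.union hcl).inter (X.C.part_cl X.N κ)) ?_ ⟨Sum.inr X.p, ?_⟩
      · obtain ⟨t, ht⟩ := hS κ (mem_insert_self κ S)
        rw [mem_inter] at ht
        exact ⟨t, mem_inter.2 ⟨mem_union_left _ ht.1, ht.2⟩⟩
      · intro h
        exact inr_mem X κ X.p (mem_inter.1 h).2
    omega

/-- Proof.  Let `A` be `VS`, `C = {t : inr t ∈ A}`.  `C ≠ univ`, since `A` and its translate are disjoint.  If `C` is not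
empty, then `4 ≤ cut X.s C` (`X.np.ns`), and `A` has at least two boundary corners at the new vertex (`VS.shC`, an exit and an
entry), so by `bd_ge` its cut is at least 6.  So `C = ∅`.  Let `J` be the set of nets which `A` meets.  Suppose `|J| ≥ 2`.
Adding the nets in `J` one after the other (`NS.uncross`, the union is never everything since `R` is not empty) gives
`cut (union of the nets in J) = 4`.  By `GCo.cut_sat` this is the cut of the spokes in `J` in the star, `2 |J|` plus the number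
of boundary corners at the new vertex (`star_root`: the new vertex is one cycle), at least 2 if `J ≠ K`.  So `J = K` and
`|K| = 2`, `k = 2`, `K = {p, ρ p}`.  Let `A₁`, `A₂` be the parts of `A` in the two nets.  Both are closed and nonempty with cut
at least 4, and `cut A = cut A₁ + cut A₂ - 2 m` (`cut_union_disj`), `m` the number of corners between them; the only
corners between the two nets are the two corners at the new vertex: from the last dart of one net at the pole `true` to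
the first one of the other.  So `m = 2` and the first and the last darts of both nets at the pole `true` are in `A`.
But `ρF` maps the last dart of the first net to the last dart of the second one, contradiction. -/
theorem vs_sub (hd : X.AtPole d) (hr : Rot X.Fa X.Fs ρF k (X.rt d))
    (h : ∀ t, ρF (Sum.inr t) = Sum.inr (X.ρ t)) {A : Finset X.FT}
    (hA : VS X.Fa X.Fs ρF k (X.rt d) A) : ∃ κ, A ⊆ X.C.part X.N κ := by
  classical
  have hk := X.rot.k2
  -- no dart of `R` is in `A`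
  have hR : ∀ t : X.R, (Sum.inr t : X.FT) ∉ A := by
    intro t0 ht0
    have hd1 : ∀ t : X.R, (Sum.inr t : X.FT) ∈ A → (Sum.inr (X.ρ t) : X.FT) ∉ A := by
      intro t ht
      have h1 := hA.disj 1 one_pos (by omega) _ ht
      rw [pow_one, h] at h1
      exact h1
    let C : Finset X.R := univ.filter fun t => (Sum.inr t : X.FT) ∈ A
    have hC : ∀ t, t ∈ C ↔ (Sum.inr t : X.FT) ∈ A := by
      intro t
      simp [C]
    have h1 : 4 ≤ cut X.s C := by
      refine X.np.ns C ?_ ⟨t0, (hC _).2 ht0⟩ ?_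
      · intro t
        rw [hC, hC]
        exact hA.cl (Sum.inr t)
      · intro hu
        have h2 : X.ρ t0 ∈ C := by rw [hu]; exact mem_univ _
        exact hd1 t0 ht0 ((hC _).1 h2)
    have h2 := bd_ge X hd C hC
    obtain ⟨z, hz1, hz2, hz3⟩ := exists_exit (VS.shC hr hA)
    obtain ⟨w, hw1, hw2, hw3⟩ := exists_entry (VS.shC hr hA)
    have h3 : ((bd X.Fs A).filter fun t => ¬ X.Fs.SameCycle (X.rt d) t).card +
        ((bd X.Fs A).filter fun t => X.Fs.SameCycle (X.rt d) t).card = 4 := by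
      have := card_filter_add_card_filter_not (s := bd X.Fs A)
        (fun t => X.Fs.SameCycle (X.rt d) t)
      have h4 := hA.cut4
      unfold cut at h4
      omega
    have h4 : 0 < ((bd X.Fs A).filter fun t => X.Fs.SameCycle (X.rt d) t).card := by
      refine card_pos.2 ⟨z, mem_filter.2 ⟨mem_bd.2 fun h5 => hz3 (h5.1 hz2), hz1⟩⟩
    omega
  -- the nets which `A` meets
  let J : Finset {x // x ∈ X.K} := univ.filter fun κ => (A ∩ X.C.part X.N κ).Nonempty
  have hJ : ∀ κ, κ ∈ J ↔ (A ∩ X.C.part X.N κ).Nonempty := by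
    intro κ
    simp [J]
  have hAJ : A ⊆ nts X J := by
    intro t ht
    rw [mem_nts]
    rcases t with ⟨κ, e⟩ | t
    · have h1 := (inl_mem X κ κ e).2 rfl
      exact ⟨κ, (hJ κ).2 ⟨_, mem_inter.2 ⟨ht, h1⟩⟩, h1⟩
    · exact absurd ht (hR t)
  obtain ⟨t1, ht1, -⟩ := hA.root
  obtain ⟨κ1, hκ1, h1⟩ := (mem_nts X).1 (hAJ ht1)
  by_contra hcon
  push Not at hcon
  obtain ⟨t2, ht2, h2⟩ := not_subset.1 (hcon κ1)
  obtain ⟨κ2, hκ2, h3⟩ := (mem_nts X).1 (hAJ ht2)
  have hne : κ1 ≠ κ2 := by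
    rintro rfl
    exact h2 h3
  have hJ2 : 2 ≤ J.card := by
    have : ({κ1, κ2} : Finset {x // x ∈ X.K}) ⊆ J := by
      intro κ hκ
      rw [mem_insert, mem_singleton] at hκ
      rcases hκ with rfl | rfl
      · exact hκ1
      · exact hκ2
    have h4 := card_le_card this
    rwa [card_pair hne] at h4
  have h4 := absorb X hA.cl J fun κ hκ => (hJ κ).1 hκ
  rw [union_eq_right.2 hAJ, cut_nts, hA.cut4] at h4
  obtain ⟨hJu, hJc⟩ := cut_spk X h4 hJ2
  have hJe : ∀ κ : {x // x ∈ X.K}, κ = κ1 ∨ κ = κ2 := by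
    intro κ
    by_contra hcon
    push Not at hcon
    have h5 : ({κ, κ1, κ2} : Finset {x // x ∈ X.K}) ⊆ J := by
      rw [hJu]; exact subset_univ _
    have h6 := card_le_card h5
    rw [card_insert_of_notMem (by simp [hcon.1, hcon.2]), card_pair hne] at h6
    omega
  -- the rotation exchanges the two nets
  have hρ : ∀ κ : {x // x ∈ X.K}, X.ρ κ.1 ≠ κ.1 := by
    intro κ h5
    refine X.rot.free κ.1 1 one_pos (by omega) ?_
    rw [pow_one]
    exact h5
  have hp1 : (⟨X.ρ κ1.1, (X.inv κ1.1).2 κ1.2⟩ : {x // x ∈ X.K}) = κ2 := by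
    rcases hJe ⟨X.ρ κ1.1, (X.inv κ1.1).2 κ1.2⟩ with h5 | h5
    · exact absurd (congrArg Subtype.val h5) (hρ κ1)
    · exact h5
  have hp2 : (⟨X.ρ κ2.1, (X.inv κ2.1).2 κ2.2⟩ : {x // x ∈ X.K}) = κ1 := by
    rcases hJe ⟨X.ρ κ2.1, (X.inv κ2.1).2 κ2.2⟩ with h5 | h5
    · exact h5
    · exact absurd (congrArg Subtype.val h5) (hρ κ2)
  have hr1 : ∀ t, t ∈ X.C.part X.N κ1 → ρF t ∈ X.C.part X.N κ2 := by
    intro t ht
    have h5 := (X.rot_part hd hr h κ1 t).2 ht
    rw [hp1] at h5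
    exact h5
  have hr2 : ∀ t, t ∈ X.C.part X.N κ2 → ρF t ∈ X.C.part X.N κ1 := by
    intro t ht
    have h5 := (X.rot_part hd hr h κ2 t).2 ht
    rw [hp2] at h5
    exact h5
  -- the two halves of `A`
  have hdj : Disjoint (A ∩ X.C.part X.N κ1) (A ∩ X.C.part X.N κ2) := by
    rw [Finset.disjoint_left]
    intro t ht ht'
    have h5 := (mem_inter.1 ht).2
    have h6 := (mem_inter.1 ht').2
    rw [X.C.mem_part X.N] at h5
    obtain ⟨e, rfl⟩ := h5
    rw [inl_mem] at h6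
    exact hne h6
  have hun : (A ∩ X.C.part X.N κ1) ∪ (A ∩ X.C.part X.N κ2) = A := by
    ext t
    rw [mem_union, mem_inter, mem_inter]
    constructor
    · rintro (h5 | h5) <;> exact h5.1
    · intro ht
      obtain ⟨κ, -, h5⟩ := (mem_nts X).1 (hAJ ht)
      rcases hJe κ with rfl | rfl
      · exact Or.inl ⟨ht, h5⟩
      · exact Or.inr ⟨ht, h5⟩
  have hcut := cut_union_disj (s := X.Fs) hdj
  rw [hun, hA.cut4] at hcut
  have hc1 : 4 ≤ cut X.Fs (A ∩ X.C.part X.N κ1) :=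
    four_le X (hA.cl.inter (X.C.part_cl X.N κ1)) ⟨t1, mem_inter.2 ⟨ht1, h1⟩⟩
      ⟨Sum.inr X.p, fun h5 => inr_mem X κ1 X.p (mem_inter.1 h5).2⟩
  have hc2 : 4 ≤ cut X.Fs (A ∩ X.C.part X.N κ2) :=
    four_le X (hA.cl.inter (X.C.part_cl X.N κ2)) ⟨t2, mem_inter.2 ⟨ht2, h3⟩⟩
      ⟨Sum.inr X.p, fun h5 => inr_mem X κ2 X.p (mem_inter.1 h5).2⟩
  have hsub : (univ.filter fun t => (t ∈ A ∩ X.C.part X.N κ1 ∧ X.Fs t ∈ A ∩ X.C.part X.N κ2) ∨
      (t ∈ A ∩ X.C.part X.N κ2 ∧ X.Fs t ∈ A ∩ X.C.part X.N κ1)) ⊆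
      {Sum.inl ⟨κ1, CompNS.lstD (X.N κ1) true⟩, Sum.inl ⟨κ2, CompNS.lstD (X.N κ2) true⟩} := by
    intro c hc
    rw [mem_insert, mem_singleton]
    rcases (mem_filter.1 hc).2 with ⟨h5, h6⟩ | ⟨h5, h6⟩
    · exact Or.inl (cross_lst X hne (mem_inter.1 h5).2 (mem_inter.1 h6).2)
    · exact Or.inr (cross_lst X hne.symm (mem_inter.1 h5).2 (mem_inter.1 h6).2)
  have heq := eq_of_subset_of_card_le hsub (card_le_two.trans (by omega))
  have hm1 : (Sum.inl ⟨κ1, CompNS.lstD (X.N κ1) true⟩ : X.FT) ∈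
      (univ.filter fun t => (t ∈ A ∩ X.C.part X.N κ1 ∧ X.Fs t ∈ A ∩ X.C.part X.N κ2) ∨
      (t ∈ A ∩ X.C.part X.N κ2 ∧ X.Fs t ∈ A ∩ X.C.part X.N κ1)) := by
    rw [heq]; simp
  have hm2 : (Sum.inl ⟨κ2, CompNS.lstD (X.N κ2) true⟩ : X.FT) ∈
      (univ.filter fun t => (t ∈ A ∩ X.C.part X.N κ1 ∧ X.Fs t ∈ A ∩ X.C.part X.N κ2) ∨
      (t ∈ A ∩ X.C.part X.N κ2 ∧ X.Fs t ∈ A ∩ X.C.part X.N κ1)) := by
    rw [heq]; simp
  have hn1 : (Sum.inl ⟨κ1, CompNS.lstD (X.N κ1) true⟩ : X.FT) ∈ A ∩ X.C.part X.N κ1 ∧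
      X.Fs (Sum.inl ⟨κ1, CompNS.lstD (X.N κ1) true⟩) ∈ A ∩ X.C.part X.N κ2 := by
    rcases (mem_filter.1 hm1).2 with h5 | h5
    · exact h5
    · exact absurd ((inl_mem X κ2 κ1 _).1 (mem_inter.1 h5.1).2) hne
  have hn2 : (Sum.inl ⟨κ2, CompNS.lstD (X.N κ2) true⟩ : X.FT) ∈ A := by
    rcases (mem_filter.1 hm2).2 with h5 | h5
    · exact (mem_inter.1 h5.1).1
    · exact (mem_inter.1 h5.1).1
  have h5 : ρF (Sum.inl ⟨κ1, CompNS.lstD (X.N κ1) true⟩) ∈ X.C.part X.N κ2 :=
    hr1 _ (mem_inter.1 hn1.1).2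
  have h6 : X.Fs (ρF (Sum.inl ⟨κ1, CompNS.lstD (X.N κ1) true⟩)) ∈ X.C.part X.N κ1 := by
    rw [← hr.rs]
    exact hr2 _ (mem_inter.1 hn1.2).2
  have h7 := cross_lst X hne.symm h5 h6
  have h8 := hA.disj 1 one_pos (by omega) _ (mem_inter.1 hn1.1).1
  rw [pow_one, h7] at h8
  exact h8 hn2

theorem maxV_iff (hd : X.AtPole d) (hr : Rot X.Fa X.Fs ρF k (X.rt d))
    (h : ∀ t, ρF (Sum.inr t) = Sum.inr (X.ρ t)) (A : Finset X.FT) :
    MaxV X.Fa X.Fs ρF k (X.rt d) A ↔ ∃ κ, A = X.C.part X.N κ := by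
  constructor
  · rintro ⟨h1, h2⟩
    obtain ⟨κ, h3⟩ := vs_sub X hd hr h h1
    exact ⟨κ, Subset.antisymm h3 (h2 _ (part_vs X hd hr h κ) h3)⟩
  · rintro ⟨κ, rfl⟩
    refine ⟨part_vs X hd hr h κ, fun B hB hs => ?_⟩
    obtain ⟨κ', h3⟩ := vs_sub X hd hr h hB
    have h4 := h3 (hs ((inl_mem X κ κ (fstD (X.N κ) true)).2 rfl))
    rw [inl_mem] at h4
    rw [h4]
    exact h3

/-- the darts `inr t` are in no translate -/
theorem not_bd (hd : X.AtPole d) (hr : Rot X.Fa X.Fs ρF k (X.rt d))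
    (h : ∀ t, ρF (Sum.inr t) = Sum.inr (X.ρ t)) : ¬ Bd X.Fa X.Fs ρF k (X.rt d) := by
  rintro ⟨S, hS, hall⟩
  obtain ⟨κ, h3⟩ := vs_sub X hd hr h hS
  obtain ⟨i, hi⟩ := hall (Sum.inr X.p)
  have h4 : ∀ i : ℕ, (ρF ^ i) (Sum.inr X.p) = Sum.inr ((X.ρ ^ i) X.p) := by
    intro i
    induction i with
    | zero => rfl
    | succ i ih =>
      rw [pow_succ', Perm.mul_apply, ih, pow_succ', Perm.mul_apply]
      exact h _
  rw [h4] at hi
  exact inr_mem X κ _ (h3 hi)

end FanD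

end PGr

end
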