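import Pool.Agent.PGc.Four
import Pool.Agent.PGm.M06
import Pool.Agent.PGm.M07
import Pool.Agent.PGm.M09
import Pool.Agent.PGm.M10
import Pool.Agent.PGr.Euler
import Pool.Agent.PGr.NoPinch
import Pool.Agent.PGr.RetLib

section
/-! # Module DblB: the double is nonseparable -/

set_option linter.unusedSectionVars false

namespace PGr
open Equiv Finset

section
variable {T : Type} [Fintype T] [DecidableEq T] {a s : Perm T} {r : T} {μ : T → Ltr}

/-- the darts on the upper side, as a set -/
def upSet (a : Perm T) (μ : T → Ltr) : Finset (DT a μ) := univ.filter fun z => ∃ t, z = dup a μ t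

/-- Going around a cycle of a permutation, a subset of the elements sees at most as many changes (general lemma):
between `x ∈ S` and `ret s S x` there is a boundary corner of `A` if exactly one of the two is in `A`. -/
theorem cut_ret_le {U : Type*} [Fintype U] [DecidableEq U] (σ : Perm U) (S A : Finset U) :
    cut (ret σ S) (univ.filter fun x : {x // x ∈ S} => x.1 ∈ A) ≤ cut σ A := by
  have key : ∀ x : {x // x ∈ S}, x ∈ bd (ret σ S) (univ.filter fun x : {x // x ∈ S} => x.1 ∈ A) →
      ∃ i, i < retK σ S x ∧ (σ ^ i) x.1 ∈ bd σ A := by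
    intro x hx
    rw [mem_bd] at hx
    simp only [mem_filter, mem_univ, true_and] at hx
    by_contra hcon
    push Not at hcon
    apply hx
    have hall : ∀ j, j ≤ retK σ S x → (x.1 ∈ A ↔ (σ ^ j) x.1 ∈ A) := by
      intro j
      induction j with
      | zero => intro _; simp
      | succ j ih =>
        intro hj
        have h1 := hcon j (by omega)
        rw [mem_bd, not_not] at h1
        rw [ih (by omega), h1, pow_succ', Perm.mul_apply]
    have h2 := hall _ le_rfl
    rw [ret_val]
    exact h2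
  classical
  unfold cut
  refine card_le_card_of_injOn (fun x => if hx : x ∈ bd (ret σ S)
      (univ.filter fun x : {x // x ∈ S} => x.1 ∈ A) then (σ ^ (key x hx).choose) x.1 else x.1) ?_ ?_
  · intro x hx
    have hx' : x ∈ bd (ret σ S) (univ.filter fun x : {x // x ∈ S} => x.1 ∈ A) := hx
    simp only [dif_pos hx']
    exact (key x hx').choose_spec.2
  · intro x hx y hy hxy
    have hx' : x ∈ bd (ret σ S) (univ.filter fun x : {x // x ∈ S} => x.1 ∈ A) := hx
    have hy' : y ∈ bd (ret σ S) (univ.filter fun x : {x // x ∈ S} => x.1 ∈ A) := hy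
    simp only [dif_pos hx', dif_pos hy'] at hxy
    have hi := (key x hx').choose_spec.1
    have hj := (key y hy').choose_spec.1
    generalize (key x hx').choose = i at hxy hi
    generalize (key y hy').choose = j at hxy hj
    have main : ∀ (x y : {x // x ∈ S}) (i j : ℕ), i ≤ j → i < retK σ S x → j < retK σ S y →
        (σ ^ i) x.1 = (σ ^ j) y.1 → x = y := by
      intro x y i j hle _ hj h
      obtain ⟨m, rfl⟩ := Nat.exists_eq_add_of_le hle
      rw [pow_add, Perm.mul_apply] at h
      have h1 : x.1 = (σ ^ m) y.1 := (σ ^ i).injective h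
      rcases Nat.eq_zero_or_pos m with h0 | hpos
      · subst h0
        exact Subtype.ext (by simpa using h1)
      · exfalso
        exact retK_min σ S y hpos (by omega) (h1 ▸ x.2)
    rcases le_total i j with h | h
    · exact main x y i j h hi hj hxy
    · exact (main y x j i h hj hi hxy.symm).symm

/-- darts on the axis at the vertex of a corner with a letter -/
theorem DblB_ce (hH : HH a s r) (hM : Mark a s r μ) {t u : T} (ht : μ t ≠ .J)
    (hc : s.SameCycle t u) (h : CE a μ u) : u = s t ∨ (u = t ∧ μ t = .C) := by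
  rcases h with h | h
  · right
    have h1 : t = u := DblA_np hH hM hc ht (by rw [h]; decide)
    exact ⟨h1.symm, by rw [h1]; exact h⟩
  · left
    have h1 : μ (s.symm u) ≠ .J := by
      intro hJ
      have h2 := hM.next (s.symm u) (Or.inl hJ)
      rw [Equiv.apply_symm_apply] at h2
      exact h2 h
    have h3 : s.SameCycle t (s.symm u) := by
      refine hc.trans ?_
      have h4 : s.SameCycle (s.symm u) (s (s.symm u)) :=
        Perm.sameCycle_apply_right.2 (Perm.SameCycle.refl s _)
      rw [Equiv.apply_symm_apply] at h4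
      exact h4.symm
    have h5 : t = s.symm u := DblA_np hH hM h3 ht h1
    rw [h5, Equiv.apply_symm_apply]

theorem DblB_mem_up {z : DT a μ} : z ∈ upSet a μ ↔ ∃ t, z = dup a μ t := by
  simp [upSet]

theorem DblB_lo_not {u : T} (h : ¬ CE a μ u) : dlo a μ u ∉ upSet a μ := by
  rw [DblB_mem_up, dlo_neg a μ h]
  rintro ⟨t, ht⟩
  exact absurd ht (by simp)

/-- the run through the lower copies -/
theorem DblB_run (hH : HH a s r) (hM : Mark a s r μ) {t : T} (ht : μ t = .G ∨ μ t = .C) (j0 : ℕ)
    (h0 : dS hH hM (dup a μ t) = dlo a μ ((⇑s.symm)^[j0] t))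
    (hj0 : μ t = .C → j0 = 1) :
    ∃ k, 0 < k ∧ (dS hH hM ^ k) (dup a μ t) = dup a μ (s t) ∧
      ∀ i, 0 < i → i < k → (dS hH hM ^ i) (dup a μ t) ∉ upSet a μ := by
  have htJ : μ t ≠ .J := by rcases ht with h | h <;> rw [h] <;> decide
  set u : ℕ → T := fun j => (⇑s.symm)^[j] t with hu
  have hsucc : ∀ j, s (u (j + 1)) = u j := by
    intro j
    simp only [hu]
    rw [Function.iterate_succ_apply', Equiv.apply_symm_apply]
  have hcyc : ∀ j, s.SameCycle t (u j) := by
    intro j
    induction j with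
    | zero => exact Perm.SameCycle.refl _ _
    | succ j ih =>
      refine ih.trans ?_
      rw [← hsucc j]
      exact (Perm.sameCycle_apply_right.2 (Perm.SameCycle.refl s _)).symm
  have hex : ∃ j, j0 ≤ j ∧ u j = s t := by
    refine ⟨j0 + (orderOf s * (j0 + 1) - (j0 + 1)), Nat.le_add_right _ _, ?_⟩
    have hN := orderOf_pos s
    have h1 : (j0 + 1) ≤ orderOf s * (j0 + 1) := Nat.le_mul_of_pos_left _ hN
    have h2 : j0 + (orderOf s * (j0 + 1) - (j0 + 1)) + 1 = orderOf s * (j0 + 1) := by omega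
    have h3 : u (j0 + (orderOf s * (j0 + 1) - (j0 + 1)) + 1) = t := by
      rw [h2]
      simp only [hu]
      have h4 : (⇑s.symm) = ⇑(s⁻¹) := rfl
      rw [h4, Perm.iterate_eq_pow, inv_pow, pow_mul, pow_orderOf_eq_one]
      simp
    rw [← hsucc, h3]
  classical
  obtain ⟨J, ⟨hJ1, hJ2⟩, hJ3⟩ : ∃ J, (j0 ≤ J ∧ u J = s t) ∧ ∀ i, i < J → ¬ (j0 ≤ i ∧ u i = s t) :=
    ⟨Nat.find hex, Nat.find_spec hex, fun i hi => Nat.find_min hex hi⟩
  -- the darts before `J` are not on the axis
  have hce : ∀ j, j0 ≤ j → j < J → ¬ CE a μ (u j) := by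
    intro j hj hjJ h
    rcases DblB_ce hH hM htJ (hcyc j) h with h1 | ⟨h1, h2⟩
    · exact hJ3 j hjJ ⟨hj, h1⟩
    · have h3 := hj0 h2
      subst h3
      obtain ⟨i, rfl⟩ : ∃ i, j = i + 1 := ⟨j - 1, by omega⟩
      have h4 : u i = s t := by rw [← hsucc i, h1]
      rcases Nat.eq_zero_or_pos i with h5 | h5
      · subst h5
        have h6 : u 0 = t := rfl
        have h7 := (hM.prev_C hH h2).1
        apply h7
        rw [Equiv.symm_apply_eq, ← h4, h6]
      · exact hJ3 i (by omega) ⟨h5, h4⟩
  have hstep : ∀ j, j0 ≤ j → j ≤ J → (dS hH hM ^ (j - j0 + 1)) (dup a μ t) = dlo a μ (u j) := by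
    intro j hj
    induction j, hj using Nat.le_induction with
    | base =>
      intro _
      rw [Nat.sub_self, zero_add, pow_one]
      exact h0
    | succ j hj ih =>
      intro hjJ
      have h1 := ih (by omega)
      have h2 : j + 1 - j0 + 1 = (j - j0 + 1) + 1 := by omega
      rw [h2, pow_succ', Perm.mul_apply, h1]
      have hJl : μ (u (j + 1)) = .J := by
        by_contra h3
        have h4 : t = u (j + 1) := DblA_np hH hM (hcyc _) htJ h3
        apply hJ3 j (by omega)
        refine ⟨hj, ?_⟩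
        rw [← hsucc j, ← h4]
      have h5 := hce j hj (by omega)
      rw [← hsucc j] at h5
      have h6 := dS_loJ hH hM hJl h5
      rw [hsucc j] at h6
      exact h6
  by_cases hc : CE a μ (s t)
  · refine ⟨J - j0 + 1, Nat.succ_pos _, ?_, ?_⟩
    · rw [hstep J hJ1 le_rfl, hJ2, dlo_pos a μ hc]
    · intro i hi hik
      have h1 := hstep (j0 + (i - 1)) (Nat.le_add_right _ _) (by omega)
      have h2 : j0 + (i - 1) - j0 + 1 = i := by omega
      rw [h2] at h1
      rw [h1]
      exact DblB_lo_not (hce _ (Nat.le_add_right _ _) (by omega))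
  · refine ⟨J - j0 + 1 + 1, Nat.succ_pos _, ?_, ?_⟩
    · rw [pow_succ', Perm.mul_apply, hstep J hJ1 le_rfl, hJ2]
      exact dS_loGC hH hM ht hc
    · intro i hi hik
      have h1 := hstep (j0 + (i - 1)) (Nat.le_add_right _ _) (by omega)
      have h2 : j0 + (i - 1) - j0 + 1 = i := by omega
      rw [h2] at h1
      rw [h1]
      rcases Nat.lt_or_ge (j0 + (i - 1)) J with h3 | h3
      · exact DblB_lo_not (hce _ (Nat.le_add_right _ _) h3)
      · have h4 : j0 + (i - 1) = J := by omega
        rw [h4, hJ2]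
        exact DblB_lo_not hc

/-- The rotation of the double restricted to the upper darts is `s`.  Proof: by the letter of `t`: `J`: directly.
`X`: `up t`, the crossing dart, `up (s t)`.  `G`: `up t` is followed by the lower copy of `t`, then by the lower copies of
`s⁻¹ t, s⁻² t, …`: by `HH.np` all other corners at the vertex of `t` have letter `J`; this goes on until the lower copy of
`s t`, followed by `up (s t)` (`dS_loGC`), or, if `s t` is on the axis, the lower copy of `s (s t)` is followed by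
`dlo (s t) = up (s t)`; no other dart of this vertex is on the axis (a dart `u` on the axis has `μ u = C`, but `t` is the
only corner of the root face at this vertex, or `μ (a u) = C`, and then `u = s t`: the corner before `a u` in the root
face is `s⁻¹ u`, with a letter different from `J`, so it is `t`).  `C`: similar, starting with the lower copy of
`s⁻¹ t`. -/
theorem ret_double (hH : HH a s r) (hM : Mark a s r μ) (t : T)
    (ht : dup a μ t ∈ upSet a μ) (ht' : dup a μ (s t) ∈ upSet a μ) :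
    ret (dS hH hM) (upSet a μ) ⟨dup a μ t, ht⟩ = ⟨dup a μ (s t), ht'⟩ := by
  have fin : (∃ k, 0 < k ∧ (dS hH hM ^ k) (dup a μ t) = dup a μ (s t) ∧
      ∀ i, 0 < i → i < k → (dS hH hM ^ i) (dup a μ t) ∉ upSet a μ) →
      ret (dS hH hM) (upSet a μ) ⟨dup a μ t, ht⟩ = ⟨dup a μ (s t), ht'⟩ := by
    rintro ⟨k, hk, h1, h2⟩
    have h3 : (dS hH hM ^ k) (dup a μ t) ∈ upSet a μ := by rw [h1]; exact ht'
    rw [ret_spec (dS hH hM) (upSet a μ) ⟨dup a μ t, ht⟩ hk h3 h2]
    exact Subtype.ext h1
  apply fin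
  cases h : μ t with
  | J =>
    refine ⟨1, one_pos, ?_, fun i hi hik => by omega⟩
    rw [pow_one]
    exact dS_J hH hM h
  | X =>
    refine ⟨2, two_pos, ?_, ?_⟩
    · rw [pow_succ', pow_one, Perm.mul_apply, dS_X hH hM h]
      rfl
    · intro i hi hik
      have hi1 : i = 1 := by omega
      rw [hi1, pow_one, dS_X hH hM h, DblB_mem_up]
      rintro ⟨u, hu⟩
      exact absurd hu (by simp)
  | G =>
    exact DblB_run hH hM (Or.inl h) 0 (dS_G hH hM h) (fun hC => by rw [h] at hC; exact absurd hC (by decide))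
  | C =>
    exact DblB_run hH hM (Or.inr h) 1 (dS_C hH hM h) (fun _ => rfl)

/-- the upper trace of a closed set with small cut is empty or everything -/
theorem DblB_trace (hH : HH a s r) (hM : Mark a s r μ) (A : Finset (DT a μ))
    (hA : Cl (dA a μ hH.inv) A) (hcut : cut (dS hH hM) A < 4) :
    (∀ t, dup a μ t ∈ A) ∨ (∀ t, dup a μ t ∉ A) := by
  have hmem : ∀ t : T, dup a μ t ∈ upSet a μ := fun t => DblB_mem_up.2 ⟨t, rfl⟩
  have hle : cut s (univ.filter fun t => dup a μ t ∈ A) ≤ cut (dS hH hM) A := by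
    refine le_trans ?_ (cut_ret_le (dS hH hM) (upSet a μ) A)
    unfold cut
    refine card_le_card_of_injOn (fun t => ⟨dup a μ t, hmem t⟩) ?_ ?_
    · intro t ht
      have ht' : t ∈ bd s (univ.filter fun t => dup a μ t ∈ A) := ht
      rw [mem_bd] at ht'
      simp only [mem_filter, mem_univ, true_and] at ht'
      show (⟨dup a μ t, hmem t⟩ : {x // x ∈ upSet a μ}) ∈ bd _ _
      rw [mem_bd, ret_double hH hM t (hmem t) (hmem (s t))]
      simp only [mem_filter, mem_univ, true_and]
      exact ht'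
    · intro t _ t' _ h
      have h1 := congrArg Subtype.val h
      exact Sum.inl.inj h1
  by_cases hne : (univ.filter fun t => dup a μ t ∈ A).Nonempty
  · by_cases hu : (univ.filter fun t => dup a μ t ∈ A) = univ
    · left
      intro t
      have h1 : t ∈ (univ.filter fun t => dup a μ t ∈ A) := by rw [hu]; exact mem_univ _
      simpa using h1
    · exfalso
      have hcl : Cl a (univ.filter fun t => dup a μ t ∈ A) := by
        intro t
        simp only [mem_filter, mem_univ, true_and]
        exact hA (dup a μ t)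
      have := hH.ns _ hcl hne hu
      omega
  · right
    intro t ht
    apply hne
    exact ⟨t, by simpa using ht⟩

/-- the reflected set -/
theorem DblB_refl_cut (hH : HH a s r) (hM : Mark a s r μ) (A : Finset (DT a μ)) :
    cut (dS hH hM) (univ.filter fun z => dE a μ z ∈ A) = cut (dS hH hM) A := by
  have hes := (dRefl hH hM).es
  have hee := (dRefl hH hM).ee
  unfold cut
  refine card_bij (fun z _ => dE a μ (dS hH hM z)) ?_ ?_ ?_
  · intro z hz
    rw [mem_bd] at hz ⊢
    simp only [mem_filter, mem_univ, true_and] at hz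
    rw [hes]
    intro h
    exact hz h.symm
  · intro z _ z' _ h
    exact (dS hH hM).injective ((dE a μ).injective h)
  · intro y hy
    refine ⟨dE a μ (dS hH hM y), ?_, ?_⟩
    · rw [mem_bd] at hy ⊢
      simp only [mem_filter, mem_univ, true_and]
      rw [hee, hes, hee]
      intro h
      exact hy h.symm
    · rw [hes, hee]

/-- the owner of a boundary corner -/
def DblB_own (a s : Perm T) (μ : T → Ltr) : DT a μ → T
  | Sum.inl t => t
  | Sum.inr (Sum.inl t) => s.symm t.1
  | Sum.inr (Sum.inr (t, _)) => t.1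

theorem DblB_four {U : Type*} [Fintype U] [DecidableEq U] {W : Type*} (S : Finset U) (f : U → W)
    {t1 t2 : W} (hne : t1 ≠ t2)
    (h1 : ∃ p q, p ≠ q ∧ f p = t1 ∧ f q = t1 ∧ p ∈ S ∧ q ∈ S)
    (h2 : ∃ p q, p ≠ q ∧ f p = t2 ∧ f q = t2 ∧ p ∈ S ∧ q ∈ S) : 4 ≤ S.card := by
  obtain ⟨p, q, hpq, hp, hq, hpS, hqS⟩ := h1
  obtain ⟨p', q', hpq', hp', hq', hpS', hqS'⟩ := h2
  have hsub : ({p, q, p', q'} : Finset U) ⊆ S := by
    intro x hx
    simp only [mem_insert, mem_singleton] at hx
    rcases hx with h | h | h | h <;> rw [h] <;> assumption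
  have hcard : ({p, q, p', q'} : Finset U).card = 4 := by
    rw [card_insert_of_notMem, card_insert_of_notMem, card_insert_of_notMem, card_singleton]
    · simpa using hpq'
    · simp only [mem_insert, mem_singleton, not_or]
      constructor
      · rintro rfl; exact hne (hq.symm.trans hp')
      · rintro rfl; exact hne (hq.symm.trans hq')
    · simp only [mem_insert, mem_singleton, not_or]
      refine ⟨hpq, ?_, ?_⟩
      · rintro rfl; exact hne (hp.symm.trans hp')
      · rintro rfl; exact hne (hp.symm.trans hq')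
  rw [← hcard]
  exact card_le_card hsub

/-- the case in which all upper darts are in the set -/
theorem DblB_full (hH : HH a s r) (hM : Mark a s r μ) (A : Finset (DT a μ))
    (hA : Cl (dA a μ hH.inv) A) (hne : A ≠ univ) (h0 : ∀ t, dup a μ t ∈ A) :
    4 ≤ cut (dS hH hM) A := by
  by_contra hlt
  push Not at hlt
  have hA' : Cl (dA a μ hH.inv) (univ.filter fun z => dE a μ z ∈ A) := by
    intro z
    simp only [mem_filter, mem_univ, true_and]
    rw [(dRefl hH hM).ea]
    exact hA _
  have h1 := DblB_trace hH hM _ hA' (by rw [DblB_refl_cut hH hM]; exact hlt)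
  simp only [mem_filter, mem_univ, true_and, dE_up] at h1
  have hXA : ∀ (t : T) (ht : μ t = .X) (b b' : Bool),
      (Sum.inr (Sum.inr (⟨t, ht⟩, b)) : DT a μ) ∈ A → (Sum.inr (Sum.inr (⟨t, ht⟩, b')) : DT a μ) ∈ A := by
    intro t ht b b' h
    have h2 := hA (Sum.inr (Sum.inr (⟨t, ht⟩, b)))
    have h3 : dA a μ hH.inv (Sum.inr (Sum.inr (⟨t, ht⟩, b))) = Sum.inr (Sum.inr (⟨t, ht⟩, !b)) := rfl
    rw [h3] at h2
    cases b <;> cases b' <;> simp_all
  have hceX : ∀ t : T, μ t = .X → ¬ CE a μ (s t) := by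
    intro t ht hc
    have h2 := (hM.ce_s hH (Or.inr ht) hc).1
    rw [ht] at h2
    exact absurd h2 (by decide)
  rcases h1 with h1 | h1
  · -- all lower copies are in `A`
    obtain ⟨z, hz⟩ : ∃ z, z ∉ A := by
      by_contra hcon
      push Not at hcon
      exact hne (eq_univ_iff_forall.2 hcon)
    rcases z with t | t | ⟨⟨t, ht⟩, b⟩
    · exact hz (h0 t)
    · apply hz
      have h2 := h1 t.1
      rw [dlo_neg a μ t.2] at h2
      exact h2
    · have hx : ∀ b', (Sum.inr (Sum.inr (⟨t, ht⟩, b')) : DT a μ) ∉ A := by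
        intro b' h
        exact hz (hXA t ht b' b h)
      have hc1 : dup a μ t ∈ bd (dS hH hM) A := by
        rw [mem_bd, dS_X hH hM ht]
        intro h
        exact hx true (h.1 (h0 t))
      have hc2 : (Sum.inr (Sum.inr (⟨t, ht⟩, true)) : DT a μ) ∈ bd (dS hH hM) A := by
        rw [mem_bd, dS_xt hH hM ht]
        intro h
        exact hx true (h.2 (h0 (s t)))
      have hc3 : dlo a μ (s t) ∈ bd (dS hH hM) A := by
        rw [mem_bd, dS_loX hH hM ht]
        intro h
        exact hx false (h.1 (h1 (s t)))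
      have hc4 : (Sum.inr (Sum.inr (⟨t, ht⟩, false)) : DT a μ) ∈ bd (dS hH hM) A := by
        rw [mem_bd, dS_xf hH hM ht]
        intro h
        exact hx false (h.2 (h1 t))
      have hlo := dlo_neg a μ (hceX t ht)
      have h4 : 4 ≤ (bd (dS hH hM) A).card := by
        refine DblB_four _ (fun z : DT a μ => match z with
          | Sum.inl _ => (0 : ℕ)
          | Sum.inr (Sum.inl _) => 0
          | Sum.inr (Sum.inr _) => 1) (t1 := 0) (t2 := 1) (by decide)
          ⟨dup a μ t, dlo a μ (s t), ?_, rfl, ?_, hc1, hc3⟩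
          ⟨_, _, ?_, rfl, rfl, hc2, hc4⟩
        · rw [hlo]; simp
        · rw [hlo]
        · simp
      unfold cut at hlt
      omega
  · -- no lower copy is in `A`
    have hnce : ∀ t, ¬ CE a μ t := by
      intro t hc
      have h2 := h1 t
      rw [dlo_pos a μ hc] at h2
      exact h2 (h0 t)
    have hnC : ∀ t, μ t ≠ .C := fun t h => hnce t (Or.inl h)
    obtain ⟨t2, ht2r, ht2⟩ : ∃ t, t ≠ r ∧ μ t ≠ .J := by
      rcases hM.two with h | h
      · exact absurd h (hnC r)
      · exact h
    have hpair : ∀ t, μ t ≠ .J → ∃ p q, p ≠ q ∧ DblB_own a s μ p = t ∧ DblB_own a s μ q = t ∧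
        p ∈ bd (dS hH hM) A ∧ q ∈ bd (dS hH hM) A := by
      intro t ht
      have hlo := dlo_neg a μ (hnce (s t))
      have hownlo : DblB_own a s μ (dlo a μ (s t)) = t := by
        rw [hlo]
        exact Equiv.symm_apply_apply s t
      cases h : μ t with
      | J => exact absurd h ht
      | C => exact absurd h (hnC t)
      | G =>
        refine ⟨dup a μ t, dlo a μ (s t), by rw [hlo]; simp, rfl, hownlo, ?_, ?_⟩
        · rw [mem_bd, dS_G hH hM h]
          intro h'
          exact h1 t (h'.1 (h0 t))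
        · rw [mem_bd, dS_loGC hH hM (Or.inl h) (hnce (s t))]
          intro h'
          exact h1 (s t) (h'.2 (h0 (s t)))
      | X =>
        by_cases hx : (Sum.inr (Sum.inr (⟨t, h⟩, false)) : DT a μ) ∈ A
        · refine ⟨Sum.inr (Sum.inr (⟨t, h⟩, false)), dlo a μ (s t), by rw [hlo]; simp, rfl,
            hownlo, ?_, ?_⟩
          · rw [mem_bd, dS_xf hH hM h]
            intro h'
            exact h1 t (h'.1 hx)
          · rw [mem_bd, dS_loX hH hM h]
            intro h'
            exact h1 (s t) (h'.2 hx)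
        · have hx' : (Sum.inr (Sum.inr (⟨t, h⟩, true)) : DT a μ) ∉ A :=
            fun h' => hx (hXA t h true false h')
          refine ⟨dup a μ t, Sum.inr (Sum.inr (⟨t, h⟩, true)), by simp, rfl, rfl, ?_, ?_⟩
          · rw [mem_bd, dS_X hH hM h]
            intro h'
            exact hx' (h'.1 (h0 t))
          · rw [mem_bd, dS_xt hH hM h]
            intro h'
            exact hx' (h'.2 (h0 (s t)))
    have h4 := DblB_four (bd (dS hH hM) A) (DblB_own a s μ) ht2r (hpair t2 ht2)
      (hpair r hM.root)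
    unfold cut at hlt
    omega

/-- Proof.  Let `A` be closed, nonempty, not everything, with cut at most 2.  `A₀ = {t : up t ∈ A}` and
`A₁ = {t : lower copy of t ∈ A}` are closed in the half map, with cut at most 2 (`cut_ret_le`, `ret_double`; for `A₁` apply
this to the image of `A` under `dE`, which has the same cut), so they are empty or everything (`HH.ns`); we may
assume `A₀` is everything (complement).  If `A₁` is everything, the complement consists of crossing darts; take one
crossing edge outside: both darts have two boundary corners next to them (the neighbours of a crossing dart are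
upper or lower copies), so the cut is at least 4.  If `A₁` is empty, there is no dart on the axis, so no letter `C`.  Every
corner `t` with letter `G` gives the boundary corners `up t` (followed by the lower copy of `t`) and the lower copy of
`s t` (followed by `up (s t)`); every corner with letter `X` gives two boundary corners: `up t` and the upper crossing
dart, or the lower crossing dart and the lower copy of `s t` (according to the crossing edge in `A` or not: if it is in
`A`, the corners lower crossing dart and lower copy of `s t`, if not, the corners `up t` and upper crossing dart).  By `two`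
there are at least two such corners `t`, so the cut is at least 4. -/
theorem dbl_ns (hH : HH a s r) (hM : Mark a s r μ) : NS (dA a μ hH.inv) (dS hH hM) := by
  intro A hA hne hu
  by_contra hlt
  push Not at hlt
  rcases DblB_trace hH hM A hA hlt with h0 | h0
  · have := DblB_full hH hM A hA hu h0
    omega
  · have h1 := DblB_full hH hM Aᶜ hA.compl ?_ ?_
    · rw [cut_compl] at h1
      omega
    · intro h
      obtain ⟨x, hx⟩ := hne
      have h2 : x ∈ Aᶜ := by rw [h]; exact mem_univ _
      exact (mem_compl.1 h2) hx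
    · intro t
      exact mem_compl.2 (h0 t)

end

end PGr

end

section
/-! # Module DblD: the double is a reduced map with a reflection -/

set_option linter.unusedSectionVars false

namespace PGr
open Equiv Finset

section
variable {T : Type} [Fintype T] [DecidableEq T] {a s : Perm T} {r : T} {μ : T → Ltr}

/-- a set of darts with a dart outside -/
theorem DblD_four (hinv : ∀ t, a (a t) = t) (hfpf : ∀ t, a t ≠ t) {x y : T} (h1 : y ≠ x)
    (h2 : y ≠ a x) : 4 ≤ Fintype.card T := by
  have h3 : a y ≠ x := fun h => h2 (by rw [← h, hinv])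
  have h4 : a y ≠ a x := fun h => h1 (a.injective h)
  have hc : ({x, a x, y, a y} : Finset T).card = 4 := by
    rw [card_insert_of_notMem, card_insert_of_notMem, card_insert_of_notMem, card_singleton]
    · rw [mem_singleton]; exact fun h => hfpf y h.symm
    · simp only [mem_insert, mem_singleton]
      rintro (h | h)
      · exact h2 h.symm
      · exact h4 h.symm
    · simp only [mem_insert, mem_singleton]
      rintro (h | h | h)
      · exact hfpf x h.symm
      · exact h1 h.symm
      · exact h3 h.symm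
  rw [← hc, ← card_univ]
  exact card_le_card (subset_univ _)

theorem DblD_root (hM : Mark a s r μ) (h : CE a μ r) : μ r = .C := by
  rcases h with h | h
  · exact h
  · exact absurd h (hM.cc r hM.root)

/-- at least 4 darts: the darts `up t`, and a second copy of `t` unless `CE t`; if `T = {r, a r}` the letter `C` is
impossible (as in `Mark.prev_C`) -/
theorem dbl_good (hH : HH a s r) (hM : Mark a s r μ) : Good (dA a μ hH.inv) (dS hH hM) where
  inv := dAf_inv a μ hH.inv
  fpf := dA_fpf hH
  ns := dbl_ns hH hM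
  pl := dbl_pl hH hM
  big := by
    by_cases hT : 4 ≤ Fintype.card T
    · exact hT.trans (Fintype.card_le_of_injective (dup a μ) (fun x y h => Sum.inl.inj h))
    · have hce : ¬ CE a μ r := by
        intro hc
        have hC := DblD_root hM hc
        have h1 := (hM.prev_C hH hC).1
        have h2 : s.symm r = a r := by
          by_contra h3
          exact hT (DblD_four hH.inv hH.fpf h1 h3)
        apply hH.nl r
        rw [← h2]
        exact ⟨-1, by simp⟩
      have hce' : ¬ CE a μ (a r) := fun h => hce ((DblA_CE_a hH.inv r).1 h)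
      refine DblD_four (a := dA a μ hH.inv) (dAf_inv a μ hH.inv) (dA_fpf hH)
        (x := dup a μ r) (y := dlo a μ r) ?_ ?_
      · rw [dlo_neg a μ hce]; exact fun h => by cases h
      · rw [dlo_neg a μ hce]
        show Sum.inr _ ≠ Sum.inl _
        exact fun h => by cases h

theorem DblD_lo_up (t : T) : dlo a μ t = dup a μ t ↔ CE a μ t := by
  constructor
  · intro h
    by_contra hc
    rw [dlo_neg a μ hc] at h
    cases h
  · exact dlo_pos a μ

theorem DblD_lo_up' {t u : T} (h : dlo a μ t = dup a μ u) : CE a μ t ∧ t = u := by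
  by_cases hc : CE a μ t
  · rw [dlo_pos a μ hc] at h
    exact ⟨hc, Sum.inl.inj h⟩
  · rw [dlo_neg a μ hc] at h
    cases h

theorem DblD_lo_inj {t u : T} (h : dlo a μ t = dlo a μ u) : t = u := by
  have h1 := congrArg (dEf a μ) h
  rw [DblA_E_lo, DblA_E_lo] at h1
  exact Sum.inl.inj h1

theorem DblD_lo_x {t : T} (z : {t : T // μ t = .X} × Bool) : dlo a μ t ≠ Sum.inr (Sum.inr z) := by
  by_cases hc : CE a μ t
  · rw [dlo_pos a μ hc]; exact fun h => by cases h
  · rw [dlo_neg a μ hc]; exact fun h => by cases h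

theorem DblD_g_lo (t : T) : dG a μ (dlo a μ t) =
    if CE a μ t then (if μ t = .C then 1 else 0) else 1 := by
  by_cases hc : CE a μ t
  · rw [dlo_pos a μ hc, if_pos hc]; rfl
  · rw [dlo_neg a μ hc, if_neg hc]; rfl

/-- by cases; `up t` and `dlo t` are different if `t` is not on the axis; for `gs` at `up t` with letter `J`: `s t` is on the
axis iff `μ (s t) = C` (`ce_s`) -/
theorem dbl_side (hH : HH a s r) (hM : Mark a s r μ) :
    Side (dA a μ hH.inv) (dS hH hM) (dE a μ) (dG a μ) := by
  refine ⟨?_, ?_, ?_⟩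
  · -- gs
    intro z
    rcases z with t | ⟨t, ht⟩ | ⟨⟨t, ht⟩, b⟩
    · change dG a μ (dS hH hM (dup a μ t)) = dG a μ (dup a μ t) +
        (if dE a μ (dup a μ t) = dS hH hM (dup a μ t) then 1 else 0) +
        (if dE a μ (dS hH hM (dup a μ t)) = dS hH hM (dup a μ t) then 1 else 0)
      have hg : dG a μ (dup a μ t) = if μ t = .C then 1 else 0 := rfl
      rw [dE_up, hg]
      cases h : μ t with
      | J =>
        rw [dS_J hH hM h, dE_up]
        have h1 : ¬ dlo a μ t = dup a μ (s t) := by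
          intro h2
          obtain ⟨h3, h4⟩ := DblD_lo_up' h2
          rcases h3 with h3 | h3
          · rw [h] at h3; exact absurd h3 (by decide)
          · have h5 := hM.next t (Or.inl h)
            rw [← h4] at h5
            exact h5 h3
        rw [if_neg h1]
        have hg' : dG a μ (dup a μ (s t)) = if μ (s t) = .C then 1 else 0 := rfl
        rw [hg']
        by_cases hc : CE a μ (s t)
        · rw [if_pos (hM.ce_s hH (Or.inl h) hc).2, if_pos (dlo_pos a μ hc)]; decide
        · rw [if_neg (show ¬ μ (s t) = .C from fun h2 => hc (Or.inl h2)),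
            if_neg (show ¬ dlo a μ (s t) = dup a μ (s t) from fun h2 => hc ((DblD_lo_up _).1 h2))]
          decide
      | G =>
        rw [dS_G hH hM h, dE_lo, if_pos rfl]
        have hc : ¬ CE a μ t := hM.ce (by rw [h]; decide) (by rw [h]; decide)
        rw [DblD_g_lo, if_neg hc, if_neg (show ¬ dup a μ t = dlo a μ t from
          fun h2 => hc ((DblD_lo_up t).1 h2.symm))]
        decide
      | X =>
        rw [dS_X hH hM h, if_neg (DblD_lo_x _)]
        have h1 : ¬ dE a μ (Sum.inr (Sum.inr (⟨t, h⟩, true))) = Sum.inr (Sum.inr (⟨t, h⟩, true)) := by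
          intro h2
          have h3 := (Prod.mk.inj (Sum.inr.inj (Sum.inr.inj h2))).2
          simp at h3
        rw [if_neg h1]
        simp [dG]
      | C =>
        obtain ⟨h1, h2⟩ := hM.prev_C hH h
        rw [dS_C hH hM h, dE_lo, DblD_g_lo, if_neg (show ¬ dlo a μ t = dlo a μ (s.symm t) from
          fun h3 => h1 (DblD_lo_inj h3).symm)]
        by_cases hc : CE a μ (s.symm t)
        · rw [if_pos hc, if_neg (by rw [h2]; decide), if_pos (dlo_pos a μ hc).symm]; decide
        · rw [if_neg hc, if_neg (show ¬ dup a μ (s.symm t) = dlo a μ (s.symm t) from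
            fun h3 => hc ((DblD_lo_up _).1 h3.symm))]; decide
    · have hlo : (Sum.inr (Sum.inl ⟨t, ht⟩) : DT a μ) = dlo a μ t := (dlo_neg a μ ht).symm
      rw [hlo]
      rw [dE_lo, DblD_g_lo, if_neg ht]
      have hs : s (s.symm t) = t := Equiv.apply_symm_apply _ _
      have ht' : ¬ CE a μ (s (s.symm t)) := by rw [hs]; exact ht
      cases h : μ (s.symm t) with
      | J =>
        have h1 := dS_loJ hH hM h ht'
        rw [hs] at h1
        rw [h1, dE_lo, DblD_g_lo]
        have h2 : ¬ dup a μ t = dlo a μ (s.symm t) := by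
          intro h3
          obtain ⟨h4, h5⟩ := DblD_lo_up' h3.symm
          rw [h5] at h4
          exact ht h4
        rw [if_neg h2]
        by_cases hc : CE a μ (s.symm t)
        · rw [if_pos hc, if_neg (by rw [h]; decide), if_pos (dlo_pos a μ hc).symm]; decide
        · rw [if_neg hc, if_neg (fun h3 => hc ((DblD_lo_up _).1 h3.symm))]; decide
      | X =>
        have h1 := dS_loX hH hM h
        rw [hs] at h1
        rw [h1]
        have h2 : ¬ dE a μ (Sum.inr (Sum.inr (⟨s.symm t, h⟩, false))) =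
            Sum.inr (Sum.inr (⟨s.symm t, h⟩, false)) := by
          intro h2
          have h3 := (Prod.mk.inj (Sum.inr.inj (Sum.inr.inj h2))).2
          simp at h3
        rw [if_neg h2, if_neg (fun h3 => by cases h3)]
        simp [dG]
      | G =>
        have h1 := dS_loGC hH hM (Or.inl h) ht'
        rw [hs] at h1
        rw [h1, if_pos rfl, dE_up, if_neg (fun h3 => ht ((DblD_lo_up _).1 h3))]
        have hg' : dG a μ (dup a μ t) = if μ t = .C then 1 else 0 := rfl
        rw [hg', if_neg (fun h3 => ht (Or.inl h3))]; decide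
      | C =>
        have h1 := dS_loGC hH hM (Or.inr h) ht'
        rw [hs] at h1
        rw [h1, if_pos rfl, dE_up, if_neg (fun h3 => ht ((DblD_lo_up _).1 h3))]
        have hg' : dG a μ (dup a μ t) = if μ t = .C then 1 else 0 := rfl
        rw [hg', if_neg (fun h3 => ht (Or.inl h3))]; decide
    · cases b with
      | true =>
        rw [dS_xt hH hM ht, dE_up]
        have hc : ¬ CE a μ (s t) := by
          intro hc
          have h1 := (hM.ce_s hH (Or.inr ht) hc).1
          rw [ht] at h1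
          exact absurd h1 (by decide)
        have h1 : ¬ dE a μ (Sum.inr (Sum.inr (⟨t, ht⟩, true))) = dup a μ (s t) := fun h3 => by cases h3
        rw [if_neg h1, if_neg (fun h3 => hc ((DblD_lo_up _).1 h3))]
        have hg' : dG a μ (dup a μ (s t)) = if μ (s t) = .C then 1 else 0 := rfl
        rw [hg', if_neg (fun h3 => hc (Or.inl h3))]
        simp [dG]
      | false =>
        rw [dS_xf hH hM ht, dE_lo]
        have hc : ¬ CE a μ t := hM.ce (by rw [ht]; decide) (by rw [ht]; decide)
        have h1 : ¬ dE a μ (Sum.inr (Sum.inr (⟨t, ht⟩, false))) = dlo a μ t :=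
          fun h3 => DblD_lo_x _ h3.symm
        rw [if_neg h1, if_neg (fun h3 => hc ((DblD_lo_up _).1 h3.symm)), DblD_g_lo, if_neg hc]
        simp [dG]
  · -- ga
    intro z
    rcases z with t | ⟨t, ht⟩ | ⟨⟨t, ht⟩, b⟩
    · change dG a μ (dup a μ (a t)) = dG a μ (dup a μ t) +
        (if dE a μ (dup a μ t) = dup a μ t then 1 else 0) +
        (if dE a μ (dup a μ t) = dup a μ (a t) then 1 else 0)
      have hg : ∀ t, dG a μ (dup a μ t) = if μ t = .C then 1 else 0 := fun _ => rfl
      rw [dE_up, hg, hg]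
      have h1 : ¬ dlo a μ t = dup a μ (a t) := fun h2 => hH.fpf t (DblD_lo_up' h2).2.symm
      rw [if_neg h1]
      by_cases h2 : μ t = .C
      · have h3 := hM.cc t (by rw [h2]; decide)
        rw [if_pos h2, if_neg h3, if_pos (dlo_pos a μ (Or.inl h2))]; decide
      · by_cases h3 : μ (a t) = .C
        · rw [if_neg h2, if_pos h3, if_pos (dlo_pos a μ (Or.inr h3))]; decide
        · rw [if_neg h2, if_neg h3, if_neg (show ¬ dlo a μ t = dup a μ t from
            fun h4 => ((DblD_lo_up _).1 h4).elim h2 h3)]; decide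
    · have h1 : ¬ dE a μ (Sum.inr (Sum.inl ⟨t, ht⟩)) = Sum.inr (Sum.inl ⟨t, ht⟩) :=
        fun h3 => by cases h3
      have h2 : ¬ dE a μ (Sum.inr (Sum.inl ⟨t, ht⟩)) = dA a μ hH.inv (Sum.inr (Sum.inl ⟨t, ht⟩)) :=
        fun h3 => by cases h3
      rw [if_neg h1, if_neg h2]
      simp [dG, dA, dAf]
    · have h1 : ¬ dE a μ (Sum.inr (Sum.inr (⟨t, ht⟩, b))) = Sum.inr (Sum.inr (⟨t, ht⟩, b)) := by
        intro h2
        have h3 := (Prod.mk.inj (Sum.inr.inj (Sum.inr.inj h2))).2
        cases b <;> simp at h3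
      have h2 : dE a μ (Sum.inr (Sum.inr (⟨t, ht⟩, b))) =
          dA a μ hH.inv (Sum.inr (Sum.inr (⟨t, ht⟩, b))) := rfl
      rw [if_neg h1, if_pos h2]
      cases b
      · show (0 : ZMod 2) = 1 + 0 + 1
        decide
      · show (1 : ZMod 2) = 0 + 0 + 1
        decide
  · -- ge
    intro z
    rcases z with t | ⟨t, ht⟩ | ⟨⟨t, ht⟩, b⟩
    · change dG a μ (dE a μ (dup a μ t)) = dG a μ (dup a μ t) + 1 +
        (if dE a μ (dup a μ t) = dup a μ t then 1 else 0)
      have hg : dG a μ (dup a μ t) = if μ t = .C then 1 else 0 := rfl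
      rw [dE_up, hg, DblD_g_lo]
      by_cases hc : CE a μ t
      · rw [if_pos hc, if_pos (dlo_pos a μ hc)]
        by_cases h2 : μ t = .C
        · rw [if_pos h2]; decide
        · rw [if_neg h2]; decide
      · rw [if_neg hc, if_neg (show ¬ dlo a μ t = dup a μ t from fun h3 => hc ((DblD_lo_up _).1 h3)),
          if_neg (show ¬ μ t = .C from fun h3 => hc (Or.inl h3))]; decide
    · have h1 : ¬ dE a μ (Sum.inr (Sum.inl ⟨t, ht⟩)) = Sum.inr (Sum.inl ⟨t, ht⟩) :=
        fun h3 => by cases h3
      rw [if_neg h1]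
      show (if μ t = .C then (1 : ZMod 2) else 0) = 1 + 1 + 0
      rw [if_neg (fun h3 => ht (Or.inl h3))]; decide
    · have h1 : ¬ dE a μ (Sum.inr (Sum.inr (⟨t, ht⟩, b))) = Sum.inr (Sum.inr (⟨t, ht⟩, b)) := by
        intro h2
        have h3 := (Prod.mk.inj (Sum.inr.inj (Sum.inr.inj h2))).2
        cases b <;> simp at h3
      rw [if_neg h1]
      cases b
      · show (0 : ZMod 2) = 1 + 1 + 0
        decide
      · show (1 : ZMod 2) = 0 + 1 + 0
        decide

theorem dbl_typ (hH : HH a s r) (hM : Mark a s r μ) :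
    NTy (dA a μ hH.inv) (dS hH hM) (dE a μ) (dup a μ r) (μ r) := by
  cases h : μ r with
  | J => exact absurd h hM.root
  | C =>
    show dE a μ (dup a μ r) = dup a μ r
    rw [dE_up]; exact dlo_pos a μ (Or.inl h)
  | G =>
    show dE a μ (dup a μ r) = dS hH hM (dup a μ r)
    rw [dE_up, dS_G hH hM h]
  | X =>
    show dE a μ (dS hH hM (dup a μ r)) = dA a μ hH.inv (dS hH hM (dup a μ r)) ∧
      dE a μ (dup a μ r) ≠ dA a μ hH.inv (dup a μ r)
    rw [dS_X hH hM h]
    refine ⟨rfl, ?_⟩
    rw [dE_up]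
    intro h2
    exact hH.fpf r (DblD_lo_up' h2).2.symm

/-- `dE` maps cycles to cycles -/
theorem DblD_sc {U : Type*} [Fintype U] [DecidableEq U] {a s e : Perm U} (he : Refl a s e) {x y : U}
    (h : s.SameCycle x y) : s.SameCycle (e x) (e y) := by
  have h1 : e * s * e⁻¹ = s⁻¹ := by
    ext t
    have h2 : e⁻¹ t = e t := by
      rw [Perm.inv_eq_iff_eq]; exact (he.ee t).symm
    rw [Perm.mul_apply, Perm.mul_apply, h2, Perm.eq_inv_iff_eq]
    rw [he.es (e t), he.ee]
  have h3 : (e * s * e⁻¹).SameCycle (e x) (e y) := by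
    rw [Perm.sameCycle_conj]
    simpa using h
  rw [h1, Perm.sameCycle_inv] at h3
  exact h3

/-- the upper darts of a vertex of the half map are at one vertex of the double -/
theorem DblD_up_sc (hH : HH a s r) (hM : Mark a s r μ) {t u : T} (h : s.SameCycle t u) :
    (dS hH hM).SameCycle (dup a μ t) (dup a μ u) := by
  have hmem : ∀ t : T, dup a μ t ∈ upSet a μ := fun t => by
    simp only [upSet, mem_filter, mem_univ, true_and]; exact ⟨t, rfl⟩
  have key : ∀ t : T, (dS hH hM).SameCycle (dup a μ t) (dup a μ (s t)) := by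
    intro t
    have h1 := ret_double hH hM t (hmem t) (hmem (s t))
    have h2 := congrArg Subtype.val h1
    rw [ret_val] at h2
    refine ⟨(retK (dS hH hM) (upSet a μ) ⟨dup a μ t, hmem t⟩ : ℤ), ?_⟩
    rw [zpow_natCast]
    exact h2
  obtain ⟨i, _, hi⟩ := h.exists_pow_eq'
  have : ∀ n : ℕ, (dS hH hM).SameCycle (dup a μ t) (dup a μ ((s ^ n) t)) := by
    intro n
    induction n with
    | zero => exact Perm.SameCycle.refl _ _
    | succ n ih =>
      rw [pow_succ', Perm.mul_apply]
      exact ih.trans (key _)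
  rw [← hi]
  exact this i

/-- If a corner at the vertex of `t` has letter `G` or `C`, then `up t` and `dlo t` are at the same vertex of the double:
all `up (s^i t)` are at one vertex (`ret_double`, `sameCycle_ret`), the lower copies too (apply `dE`), and `up u`, `dlo u` are at
the same vertex for the corner `u` with letter `G` or `C`. -/
theorem dbl_fixed (hH : HH a s r) (hM : Mark a s r μ) {t u : T} (hu : μ u = .G ∨ μ u = .C)
    (hs : s.SameCycle t u) : (dS hH hM).SameCycle (dup a μ t) (dlo a μ t) := by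
  have h1 := DblD_up_sc hH hM hs
  have h2 := DblD_sc (dRefl hH hM) h1
  rw [dE_up, dE_up] at h2
  have h3 : (dS hH hM).SameCycle (dup a μ u) (dlo a μ u) := by
    rcases hu with hu | hu
    · rw [← dS_G hH hM hu]
      exact ⟨1, by simp⟩
    · rw [dlo_pos a μ (Or.inl hu)]
  exact (h1.trans h3).trans h2.symm

/-- Proof.  Let `A` be as in `NRed` and `A₀ = {t : up t ∈ A} = {t : dlo t ∈ A}`, closed, `r ∉ A₀`.  If `A₀` is empty, `A`
consists of crossing edges, each of them has 4 boundary corners next to it, all different, so `A` is one edge.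
Otherwise the half map has at least 4 darts (`A₀` and its complement are nonempty), it is `Good`, and by
`Good.two_shared` there are boundary corners of `A₀` at two different vertices `v₁, v₂` of the half map, at each of them
at least two (`Four.partner` or `cut_eq_two_mul`).  A boundary corner `t` of `A₀` with letter `J` gives the boundary corners
`up t` and its mirror image (lower side) of `A`; with letter `X` it gives at least one of `up t`, `x`, and its mirror
image.  At each vertex at most one corner has letter `G` or `C` (`HH.np`), so at `v₁` there is a boundary corner `t₁` with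
letter `J` or `X`, at `v₂` a `t₂`; these give already 4 boundary corners of `A`.  So `t₁` is the only boundary corner of `A₀` at
`v₁` with letter `J` or `X`, so another one has letter `G` or `C`, and by `dbl_fixed` the boundary corner at `up t₁` is at a
vertex fixed by `dE`, contradiction with the assumption on the ends. -/
theorem dbl_red (hH : HH a s r) (hM : Mark a s r μ) :
    NRed (dA a μ hH.inv) (dS hH hM) (dE a μ) (dup a μ r) := by
  intro A hcl hinvE hcut hr hends
  have hlo : ∀ t, dlo a μ t ∈ A ↔ dup a μ t ∈ A := by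
    intro t
    constructor
    · intro h; have := hinvE _ h; rwa [dE_lo] at this
    · intro h; have := hinvE _ h; rwa [dE_up] at this
  have hxx : ∀ (t : T) (h : μ t = .X) (b b' : Bool),
      (Sum.inr (Sum.inr (⟨t, h⟩, b)) : DT a μ) ∈ A → (Sum.inr (Sum.inr (⟨t, h⟩, b')) : DT a μ) ∈ A := by
    intro t h b b' hm
    by_cases hb : b' = b
    · rw [hb]; exact hm
    · have hb' : b' = !b := by cases b <;> cases b' <;> simp_all
      rw [hb']
      exact (hcl (Sum.inr (Sum.inr (⟨t, h⟩, b)))).2 hm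
  by_cases h0 : ∀ t, dup a μ t ∉ A
  · -- only crossing edges
    have hform : ∀ z ∈ A, ∃ (t : T) (h : μ t = .X) (b : Bool), z = Sum.inr (Sum.inr (⟨t, h⟩, b)) := by
      intro z hz
      rcases z with t | ⟨t, ht⟩ | ⟨⟨t, ht⟩, b⟩
      · exact absurd hz (h0 t)
      · exfalso
        apply h0 t
        rw [← hlo, dlo_neg a μ ht]; exact hz
      · exact ⟨t, ht, b, rfl⟩
    have hneA : A.Nonempty := by
      rw [nonempty_iff_ne_empty]
      rintro rfl
      rw [cut, bd] at hcut
      simp at hcut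
    obtain ⟨z, hz⟩ := hneA
    obtain ⟨t, ht, b, rfl⟩ := hform z hz
    have hc : ¬ CE a μ (s t) := by
      intro hc
      have h1 := (hM.ce_s hH (Or.inr ht) hc).1
      rw [ht] at h1
      exact absurd h1 (by decide)
    have hct : ¬ CE a μ t := hM.ce (by rw [ht]; decide) (by rw [ht]; decide)
    have hsub : ({dup a μ t, Sum.inr (Sum.inr (⟨t, ht⟩, true)), Sum.inr (Sum.inr (⟨t, ht⟩, false)),
        dlo a μ (s t)} : Finset (DT a μ)) ⊆ bd (dS hH hM) A := by
      intro x hx
      simp only [mem_insert, mem_singleton] at hx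
      rw [mem_bd]
      rcases hx with rfl | rfl | rfl | rfl
      · rw [dS_X hH hM ht]
        exact fun h1 => h0 t (h1.2 (hxx t ht b true hz))
      · rw [dS_xt hH hM ht]
        exact fun h1 => h0 (s t) (h1.1 (hxx t ht b true hz))
      · rw [dS_xf hH hM ht]
        exact fun h1 => h0 t ((hlo t).1 (h1.1 (hxx t ht b false hz)))
      · rw [dS_loX hH hM ht]
        exact fun h1 => h0 (s t) ((hlo (s t)).1 (h1.2 (hxx t ht b false hz)))
    have hcard : ({dup a μ t, Sum.inr (Sum.inr (⟨t, ht⟩, true)), Sum.inr (Sum.inr (⟨t, ht⟩, false)),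
        dlo a μ (s t)} : Finset (DT a μ)).card = 4 := by
      rw [card_insert_of_notMem, card_insert_of_notMem, card_insert_of_notMem, card_singleton]
      · rw [mem_singleton]; exact fun h1 => DblD_lo_x _ h1.symm
      · simp only [mem_insert, mem_singleton]
        rintro (h1 | h1)
        · have h3 := (Prod.mk.inj (Sum.inr.inj (Sum.inr.inj h1))).2
          simp at h3
        · exact DblD_lo_x _ h1.symm
      · simp only [mem_insert, mem_singleton]
        rintro (h1 | h1 | h1)
        · cases h1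
        · cases h1
        · exact hc (DblD_lo_up' h1.symm).1
    have heq := eq_of_subset_of_card_le hsub (by rw [hcard]; exact hcut.le)
    have huniq : ∀ (t' : T) (h' : μ t' = .X) (b' : Bool),
        (Sum.inr (Sum.inr (⟨t', h'⟩, b')) : DT a μ) ∈ A → t' = t := by
      intro t' h' b' hm
      have h1 : dup a μ t' ∈ bd (dS hH hM) A := by
        rw [mem_bd, dS_X hH hM h']
        exact fun h1 => h0 t' (h1.2 (hxx t' h' b' true hm))
      rw [← heq] at h1
      simp only [mem_insert, mem_singleton] at h1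
      rcases h1 with h1 | h1 | h1 | h1
      · exact Sum.inl.inj h1
      · cases h1
      · cases h1
      · exact absurd (DblD_lo_up' h1.symm).1 hc
    have hA : A = {Sum.inr (Sum.inr (⟨t, ht⟩, true)), Sum.inr (Sum.inr (⟨t, ht⟩, false))} := by
      ext x
      simp only [mem_insert, mem_singleton]
      constructor
      · intro hx
        obtain ⟨t', h', b', rfl⟩ := hform x hx
        obtain rfl := huniq t' h' b' hx
        cases b'
        · exact Or.inr rfl
        · exact Or.inl rfl
      · rintro (rfl | rfl)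
        · exact hxx t ht b true hz
        · exact hxx t ht b false hz
    rw [hA, card_pair]
    intro h1
    have h3 := (Prod.mk.inj (Sum.inr.inj (Sum.inr.inj h1))).2
    simp at h3
  · exfalso
    push Not at h0
    obtain ⟨t₀, ht₀⟩ := h0
    set A₀ : Finset T := univ.filter fun t => dup a μ t ∈ A with hA₀
    have mA : ∀ t, t ∈ A₀ ↔ dup a μ t ∈ A := by intro t; simp [hA₀]
    have hcl₀ : Cl a A₀ := by
      intro t
      rw [mA, mA]
      exact hcl (dup a μ t)
    have hne₀ : A₀.Nonempty := ⟨t₀, (mA _).2 ht₀⟩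
    have hr₀ : r ∉ A₀ := fun h => hr ((mA _).1 h)
    have hu₀ : A₀ ≠ univ := fun h => hr₀ (by rw [h]; exact mem_univ _)
    have hT : 4 ≤ Fintype.card T := by
      refine DblD_four hH.inv hH.fpf (x := t₀) (y := r) ?_ ?_
      · rintro rfl; exact hr ht₀
      · intro h1
        apply hr₀
        rw [h1, hcl₀, mA]; exact ht₀
    have hgood : Good a s := ⟨hH.inv, hH.fpf, hH.ns, hH.pl, hT⟩
    obtain ⟨v₁, v₂, hv₁, hv₂, hv⟩ := hgood.two_shared hcl₀ hne₀ hu₀
    -- a boundary corner with letter `J` and another boundary corner at a shared vertex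
    have hJ : ∀ v, ShC s A₀ v → ∃ t t', t ∈ bd s A₀ ∧ t' ∈ bd s A₀ ∧ t' ≠ t ∧ s.SameCycle v t ∧
        s.SameCycle v t' ∧ μ t = .J := by
      intro v hv
      obtain ⟨z, hz, hvz⟩ := Four.exists_bd_of_shC hv
      obtain ⟨z', hne, hzz', hz'⟩ := Four.partner s hz
      by_cases h1 : μ z = .J
      · exact ⟨z, z', hz, hz', hne, hvz, hvz.trans hzz', h1⟩
      · by_cases h2 : μ z' = .J
        · exact ⟨z', z, hz', hz, hne.symm, hvz.trans hzz', hvz, h2⟩
        · exact absurd (DblA_np hH hM hzz' h1 h2).symm hne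
    obtain ⟨t₁, t₁', hb₁, hb₁', hne₁, hvt₁, hvt₁', hJ₁⟩ := hJ v₁ hv₁
    obtain ⟨t₂, t₂', hb₂, hb₂', hne₂, hvt₂, hvt₂', hJ₂⟩ := hJ v₂ hv₂
    -- different vertices
    have hdiff : ∀ {x y : T}, s.SameCycle v₁ x → s.SameCycle v₂ y → x ≠ y := by
      rintro x y hx hy rfl
      exact hv (hx.trans hy.symm)
    have hs1 : ∀ x : T, s.SameCycle x (s x) := fun x => ⟨1, by simp⟩
    -- upper boundary corners
    have hup : ∀ t, t ∈ bd s A₀ → μ t = .J → dup a μ t ∈ bd (dS hH hM) A := by
      intro t ht hJt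
      rw [mem_bd] at ht ⊢
      rw [dS_J hH hM hJt, ← mA, ← mA]
      exact ht
    have hlow : ∀ t, t ∈ bd s A₀ → μ t = .J → dlo a μ (s t) ∈ bd (dS hH hM) A := by
      intro t ht hJt
      have h1 : dS hH hM (dlo a μ (s t)) = dlo a μ t := by
        have h2 := (dRefl hH hM).es (dup a μ t)
        rw [dS_J hH hM hJt, dE_up, dE_up] at h2
        exact h2
      rw [mem_bd] at ht ⊢
      rw [h1, hlo, hlo, ← mA, ← mA]
      exact fun h2 => ht h2.symm
    have hst₁ : s t₁ ≠ t₁ := by
      intro h1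
      rw [mem_bd, h1] at hb₁
      exact hb₁ Iff.rfl
    have hst₂ : s t₂ ≠ t₂ := by
      intro h1
      rw [mem_bd, h1] at hb₂
      exact hb₂ Iff.rfl
    have hsub : ({dup a μ t₁, dlo a μ (s t₁), dup a μ t₂, dlo a μ (s t₂)} : Finset (DT a μ)) ⊆
        bd (dS hH hM) A := by
      intro x hx
      simp only [mem_insert, mem_singleton] at hx
      rcases hx with rfl | rfl | rfl | rfl
      · exact hup t₁ hb₁ hJ₁
      · exact hlow t₁ hb₁ hJ₁
      · exact hup t₂ hb₂ hJ₂
      · exact hlow t₂ hb₂ hJ₂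
    have hcard : ({dup a μ t₁, dlo a μ (s t₁), dup a μ t₂, dlo a μ (s t₂)} : Finset (DT a μ)).card
        = 4 := by
      rw [card_insert_of_notMem, card_insert_of_notMem, card_insert_of_notMem, card_singleton]
      · rw [mem_singleton]; exact fun h1 => hst₂ (DblD_lo_up' h1.symm).2
      · simp only [mem_insert, mem_singleton]
        rintro (h1 | h1)
        · exact hdiff (hvt₁.trans (hs1 _)) hvt₂ (DblD_lo_up' h1).2
        · exact hdiff (hvt₁.trans (hs1 _)) (hvt₂.trans (hs1 _)) (DblD_lo_inj h1)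
      · simp only [mem_insert, mem_singleton]
        rintro (h1 | h1 | h1)
        · exact hst₁ (DblD_lo_up' h1.symm).2
        · exact hdiff hvt₁ hvt₂ (Sum.inl.inj h1)
        · exact hdiff hvt₁ (hvt₂.trans (hs1 _)) (DblD_lo_up' h1.symm).2.symm
    have heq := eq_of_subset_of_card_le hsub (by rw [hcard]; exact hcut.le)
    -- the other boundary corner at `v₁`
    have hup' : dup a μ t₁' ∈ bd (dS hH hM) A → μ t₁' ≠ .C → False := by
      intro h1 h2
      rw [← heq] at h1
      simp only [mem_insert, mem_singleton] at h1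
      rcases h1 with h1 | h1 | h1 | h1
      · exact hne₁ (Sum.inl.inj h1)
      · obtain ⟨h3, h4⟩ := DblD_lo_up' h1.symm
        have h5 := (hM.ce_s hH (Or.inl hJ₁) h3).2
        rw [h4] at h5
        exact h2 h5
      · exact hdiff hvt₁' hvt₂ (Sum.inl.inj h1)
      · exact hdiff hvt₁' (hvt₂.trans (hs1 _)) (DblD_lo_up' h1.symm).2.symm
    have hGC : μ t₁' = .G ∨ μ t₁' = .C → False := by
      intro h1
      have h2 := dbl_fixed hH hM h1 (hvt₁.symm.trans hvt₁')
      have h3 := hends _ (hup t₁ hb₁ hJ₁)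
      rw [dE_up] at h3
      exact h3 h2
    cases h1 : μ t₁' with
    | J => exact hup' (hup t₁' hb₁' h1) (by rw [h1]; decide)
    | G => exact hGC (Or.inl h1)
    | C => exact hGC (Or.inr h1)
    | X =>
      by_cases h2 : dup a μ t₁' ∈ bd (dS hH hM) A
      · exact hup' h2 (by rw [h1]; decide)
      · -- then the upper crossing dart is a boundary corner
        have h3 : (Sum.inr (Sum.inr (⟨t₁', h1⟩, true)) : DT a μ) ∈ bd (dS hH hM) A := by
          rw [mem_bd, not_not, dS_X hH hM h1] at h2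
          rw [mem_bd, dS_xt hH hM h1, ← h2, ← mA, ← mA]
          exact mem_bd.1 hb₁'
        rw [← heq] at h3
        simp only [mem_insert, mem_singleton] at h3
        rcases h3 with h3 | h3 | h3 | h3
        · cases h3
        · exact DblD_lo_x _ h3.symm
        · cases h3
        · exact DblD_lo_x _ h3.symm

theorem dbl_nr (hH : HH a s r) (hM : Mark a s r μ) :
    NR (dA a μ hH.inv) (dS hH hM) (dE a μ) (dG a μ) (dup a μ r) (μ r) where
  good := dbl_good hH hM
  refl := dRefl hH hM
  side := dbl_side hH hM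
  typ := dbl_typ hH hM
  gr := by simp only [dG]
  red := dbl_red hH hM

end

end PGr

end

section
/-! # Module HalfD: numbers of vertices and faces of the half map -/

set_option linter.unusedSectionVars false

namespace PGr
open Equiv Finset

section
variable {T : Type*} [Fintype T] [DecidableEq T] {a s e : Perm T} {g : T → ZMod 2} {r : T} {ty : Ltr}

/-- a nonseparable map is connected -/
theorem HalfD_nComp (h : NS a s) (t₀ : T) : nComp a s = 1 := by
  classical
  rw [nComp, Nat.card_eq_one_iff_unique]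
  have htr : ∀ t t' : T, ∃ g : Subgroup.closure {a, s}, g • t' = t := by
    intro t t'
    set A : Finset T := univ.filter fun x => ∃ g : Subgroup.closure {a, s}, g • t' = x with hA
    have hmem : ∀ (σ : Perm T), σ ∈ Subgroup.closure {a, s} → ∀ x, (σ x ∈ A ↔ x ∈ A) := by
      intro σ hσ x
      simp only [hA, mem_filter, mem_univ, true_and]
      constructor
      · rintro ⟨g, hg⟩
        refine ⟨⟨σ, hσ⟩⁻¹ * g, ?_⟩
        rw [mul_smul, hg]
        change σ⁻¹ (σ x) = x
        simp
      · rintro ⟨g, hg⟩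
        refine ⟨⟨σ, hσ⟩ * g, ?_⟩
        rw [mul_smul, hg]
        rfl
    have hcl : Cl a A := hmem a (Subgroup.subset_closure (by simp))
    have hs := hmem s (Subgroup.subset_closure (by simp))
    have hcut : cut s A = 0 := by
      rw [cut, card_eq_zero, bd, filter_eq_empty_iff]
      intro x _
      rw [not_not]
      exact (hs x).symm
    have hne : A.Nonempty :=
      ⟨t', by simp only [hA, mem_filter, mem_univ, true_and]; exact ⟨1, one_smul _ _⟩⟩
    have hu : A = univ := by
      by_contra hcon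
      have := h A hcl hne hcon
      omega
    have : t ∈ A := by rw [hu]; exact mem_univ _
    simpa [hA] using this
  constructor
  · constructor
    intro x y
    induction x using Quotient.inductionOn with
    | h x =>
      induction y using Quotient.inductionOn with
      | h y => exact Quotient.sound (htr x y)
  · exact ⟨Quotient.mk _ t₀⟩

/-- `e` maps cycles to cycles -/
theorem HalfD_sc (he : Refl a s e) {x y : T} (h : s.SameCycle x y) : s.SameCycle (e x) (e y) := by
  have h1 : e * s * e⁻¹ = s⁻¹ := by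
    ext t
    have h2 : e⁻¹ t = e t := by
      rw [Perm.inv_eq_iff_eq]; exact (he.ee t).symm
    rw [Perm.mul_apply, Perm.mul_apply, h2, Perm.eq_inv_iff_eq]
    rw [he.es (e t), he.ee]
  have h3 : (e * s * e⁻¹).SameCycle (e x) (e y) := by
    rw [Perm.sameCycle_conj]
    simpa using h
  rw [h1, Perm.sameCycle_inv] at h3
  exact h3

/-- a label which does not change along a cycle -/
theorem HalfD_const (f : T → ZMod 2) {x : T}
    (hf : ∀ y, s.SameCycle x y → f (s y) = f y) {y : T} (h : s.SameCycle x y) : f y = f x := by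
  obtain ⟨i, _, hi⟩ := h.exists_pow_eq'
  have key : ∀ n : ℕ, f ((s ^ n) x) = f x := by
    intro n
    induction n with
    | zero => simp
    | succ n ih =>
      rw [pow_succ', Perm.mul_apply, hf _ ⟨(n : ℤ), by simp⟩, ih]
  rw [← hi, key]

/-- Proof.  The vertices of the half correspond to the vertices of the map with a dart in `HP` (`sameCycle_ret`).
A vertex fixed by `e` has a dart in `HP` (it has no crossing dart, and if `t` is not in `HP` then `e t` is).  If a vertex
`v` is not fixed, it has no dart on the axis and no bisected corner, so `g` is constant on it (`Side.gs`) and has the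
other value on `e v` (`Side.ge`): exactly one of `v`, `e v` has `g = 0`, and this one has a dart in `HP`
(`no_cr_cr`).  So `nV hs` = `nFix` + (number of not fixed vertices) / 2. -/
theorem NR.nV_half (h : NR a s e g r ty) : 2 * nV h.hs = nV s + nFix s e := by
  classical
  have hFQ : Fintype (Quotient (Perm.SameCycle.setoid s)) := Fintype.ofFinite _
  let mk : T → Quotient (Perm.SameCycle.setoid s) := fun t => Quotient.mk _ t
  have hmk : ∀ x y, mk x = mk y ↔ s.SameCycle x y := fun x y => Quotient.eq (r := Perm.SameCycle.setoid s)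
  have hsurj : ∀ q, ∃ t, mk t = q := fun q => Quotient.exists_rep q
  let ε : Quotient (Perm.SameCycle.setoid s) → Quotient (Perm.SameCycle.setoid s) :=
    Quotient.lift (fun t => mk (e t)) (fun x y hxy => (hmk _ _).mpr (HalfD_sc h.refl hxy))
  have hε : ∀ t, ε (mk t) = mk (e t) := fun t => rfl
  have hεε : ∀ q, ε (ε q) = q := by
    intro q
    obtain ⟨t, rfl⟩ := hsurj q
    rw [hε, hε, h.refl.ee]
  let V : Finset (Quotient (Perm.SameCycle.setoid s)) :=
    univ.filter fun q => ∃ t, t ∈ HP a e g ∧ mk t = q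
  have hV : ∀ q, q ∈ V ↔ ∃ t, t ∈ HP a e g ∧ mk t = q := by
    intro q; simp [V]
  let F : Finset (Quotient (Perm.SameCycle.setoid s)) := univ.filter fun q => ε q = q
  have hF : ∀ q, q ∈ F ↔ ε q = q := by intro q; simp [F]
  -- number of vertices of the half
  have c1 : nV h.hs = V.card := by
    rw [nV, ← Fintype.card_coe V, ← Nat.card_eq_fintype_card]
    refine Nat.card_congr ?_
    refine Equiv.ofBijective
      (Quotient.lift (fun x => (⟨mk x.1, (hV _).mpr ⟨x.1, x.2, rfl⟩⟩ : {q // q ∈ V}))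
        (fun x y hxy => Subtype.ext ((hmk _ _).mpr ((sameCycle_ret s _ x y).mp hxy)))) ⟨?_, ?_⟩
    · intro p q
      induction p using Quotient.inductionOn with
      | h x =>
        induction q using Quotient.inductionOn with
        | h y =>
          intro hxy
          have h1 := congrArg Subtype.val hxy
          exact Quotient.sound ((sameCycle_ret s _ x y).mpr ((hmk _ _).mp h1))
    · rintro ⟨q, hq⟩
      obtain ⟨t, ht, rfl⟩ := (hV q).mp hq
      exact ⟨Quotient.mk _ ⟨t, ht⟩, rfl⟩
  have c2 : nV s = Fintype.card (Quotient (Perm.SameCycle.setoid s)) := by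
    rw [nV, Nat.card_eq_fintype_card]
  have c3 : nFix s e = F.card := by
    rw [nFix, ← Fintype.card_coe F, ← Nat.card_eq_fintype_card]
    refine Nat.card_congr (Equiv.subtypeEquivRight fun q => ?_)
    rw [hF]
    constructor
    · rintro ⟨t, rfl, ht⟩
      exact ((hmk _ _).mpr ht).symm
    · intro hq
      obtain ⟨t, rfl⟩ := hsurj q
      exact ⟨t, rfl, (hmk _ _).mp hq.symm⟩
  have hVε : (V.image ε).card = V.card :=
    card_image_of_injective _ (fun p q hpq => by rw [← hεε p, hpq, hεε])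
  have hmem : ∀ q, q ∈ V.image ε ↔ ε q ∈ V := by
    intro q
    rw [mem_image]
    constructor
    · rintro ⟨p, hp, rfl⟩; rw [hεε]; exact hp
    · intro hq; exact ⟨_, hq, hεε q⟩
  have hun : V ∪ V.image ε = univ := by
    ext q
    simp only [mem_union, mem_univ, iff_true]
    rw [hmem]
    obtain ⟨t, rfl⟩ := hsurj q
    rcases h.cover t with h1 | ⟨h1, _⟩ | ⟨_, _, h1, _⟩ | ⟨h0, _, h1, _⟩
    · exact Or.inl ((hV _).mpr ⟨t, h1, rfl⟩)
    · exact Or.inr ((hV _).mpr ⟨e t, h1, (hε t).symm⟩)
    · refine Or.inl ((hV _).mpr ⟨_, h1, (hmk _ _).mpr ⟨1, by simp⟩⟩)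
    · refine Or.inr ((hV _).mpr ⟨_, h1, ?_⟩)
      rw [hε, h0]
      exact (hmk _ _).mpr ⟨1, by simp⟩
  have hin : V ∩ V.image ε = F := by
    ext q
    rw [mem_inter, hmem, hF]
    constructor
    · rintro ⟨h1, h2⟩
      by_contra hq
      obtain ⟨t, ht, rfl⟩ := (hV _).mp h1
      obtain ⟨t', ht', h3⟩ := (hV _).mp h2
      rw [hε, hmk] at h3
      -- no dart of the vertex is on the axis, no corner is bisected
      have hno : ∀ x, s.SameCycle t x → e x ≠ x ∧ e x ≠ s x := by
        intro x hx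
        have hqx : mk t = mk x := (hmk _ _).mpr hx
        rw [hqx, hε] at hq
        constructor
        · intro h5; exact hq (by rw [h5])
        · intro h5; exact hq (by rw [h5]; exact (hmk _ _).mpr ⟨-1, by simp⟩)
      have hno' : ∀ x, s.SameCycle (e t) x → e x ≠ x ∧ e x ≠ s x := by
        intro x hx
        have hx' : s.SameCycle t (e x) := by
          have := HalfD_sc h.refl hx
          rwa [h.refl.ee] at this
        obtain ⟨h5, h6⟩ := hno _ hx'
        rw [h.refl.ee] at h5
        constructor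
        · exact fun h7 => h5 h7.symm
        · intro h7
          -- e x = s x: then x = e (s x) and s (e (s x)) = e x
          have h8 := (hno (e x) hx').1
          have hsx : s.SameCycle t x := by
            have : s.SameCycle (e x) x := by rw [h7]; exact ⟨-1, by simp⟩
            exact hx'.trans this
          exact (hno x hsx).2 h7
      have hg : ∀ y, s.SameCycle t y → g (s y) = g y := by
        intro y hy
        rw [h.side.gs y, if_neg (hno y hy).2, if_neg (hno (s y) (hy.trans ⟨1, by simp⟩)).1]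
        simp
      have hg' : ∀ y, s.SameCycle (e t) y → g (s y) = g y := by
        intro y hy
        rw [h.side.gs y, if_neg (hno' y hy).2, if_neg (hno' (s y) (hy.trans ⟨1, by simp⟩)).1]
        simp
      have hg0 : g t = 0 := by
        rw [HP, mem_filter] at ht
        rcases ht.2 with h5 | h5
        · exact absurd h5 (hno t (Perm.SameCycle.refl _ _)).1
        · exact h5.1
      have hg0' : g t' = 0 := by
        rw [HP, mem_filter] at ht'
        rcases ht'.2 with h5 | h5
        · exact absurd h5 (hno' t' h3.symm).1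
        · exact h5.1
      have hge : g t' = g (e t) := HalfD_const g hg' h3.symm
      rw [h.side.ge t, if_neg (hno t (Perm.SameCycle.refl _ _)).1, hg0, hg0'] at hge
      exact absurd hge (by decide)
    · intro hq
      have h1 : q ∈ V ∪ V.image ε := by rw [hun]; exact mem_univ _
      rw [mem_union, hmem, hq] at h1
      rw [hq]
      tauto
  have := card_union_add_card_inter V (V.image ε)
  rw [hun, hin, hVε, card_univ] at this
  omega

/-- the darts are: on the axis, upper, lower (the images of the upper ones), crossing -/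
theorem NR.card_half (h : NR a s e g r ty) :
    2 * Fintype.card {x // x ∈ HP a e g} + cCr a e = Fintype.card T + cAx e := by
  classical
  rw [Fintype.card_coe]
  let U : Finset T := univ.filter fun t => g t = 0 ∧ e t ≠ t ∧ e t ≠ a t
  let L : Finset T := univ.filter fun t => g t = 1 ∧ e t ≠ t ∧ e t ≠ a t
  have hg01 : ∀ x : ZMod 2, x = 0 ∨ x = 1 := by decide
  have hUL : U.card = L.card := by
    refine card_bij' (fun t _ => e t) (fun t _ => e t) ?_ ?_ ?_ ?_
    · intro t ht
      simp only [U, L, mem_filter, mem_univ, true_and] at ht ⊢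
      obtain ⟨h1, h2, h3⟩ := ht
      refine ⟨?_, ?_, ?_⟩
      · rw [h.side.ge, if_neg h2, h1]; decide
      · rw [h.refl.ee]; exact fun h4 => h2 h4.symm
      · rw [h.refl.ee, ← h.refl.ea]
        intro h4
        apply h3
        have := congrArg e h4
        rw [h.refl.ee] at this
        exact this
    · intro t ht
      simp only [U, L, mem_filter, mem_univ, true_and] at ht ⊢
      obtain ⟨h1, h2, h3⟩ := ht
      refine ⟨?_, ?_, ?_⟩
      · rw [h.side.ge, if_neg h2, h1]; decide
      · rw [h.refl.ee]; exact fun h4 => h2 h4.symm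
      · rw [h.refl.ee, ← h.refl.ea]
        intro h4
        apply h3
        have := congrArg e h4
        rw [h.refl.ee] at this
        exact this
    · intro t _; exact h.refl.ee t
    · intro t _; exact h.refl.ee t
  have h1 : (HP a e g).card = cAx e + U.card := by
    rw [cAx, ← card_union_of_disjoint]
    · congr 1
      ext t
      simp only [HP, U, mem_filter, mem_univ, true_and, mem_union]
      by_cases h2 : e t = t
      · simp [h2]
      · simp [h2]
    · rw [disjoint_left]
      intro t h2 h3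
      simp only [U, mem_filter, mem_univ, true_and] at h2 h3
      exact h3.2.1 h2
  have h2 : Fintype.card T = cAx e + cCr a e + U.card + L.card := by
    rw [cAx, cCr, ← card_univ, ← card_union_of_disjoint, ← card_union_of_disjoint,
      ← card_union_of_disjoint]
    · congr 1
      ext t
      simp only [U, L, mem_filter, mem_univ, true_and, mem_union, true_iff]
      rcases hg01 (g t) with h3 | h3 <;> by_cases h4 : e t = t <;> by_cases h5 : e t = a t <;>
        simp_all
    · rw [disjoint_left]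
      intro t h3 h4
      simp only [U, L, mem_filter, mem_univ, true_and, mem_union] at h3 h4
      rcases h3 with (h3 | h3) | h3
      · exact h4.2.1 h3
      · exact h4.2.2 h3
      · have h5 := h3.1; rw [h4.1] at h5; exact absurd h5 (by decide)
    · rw [disjoint_left]
      intro t h3 h4
      simp only [U, mem_filter, mem_univ, true_and, mem_union] at h3 h4
      rcases h3 with h3 | h3
      · exact h4.2.1 h3
      · exact h4.2.2 h3
    · rw [disjoint_left]
      intro t h3 h4
      simp only [mem_filter, mem_univ, true_and] at h3 h4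
      exact h.good.fpf t (h4.symm.trans h3)
  omega

/-- Proof: Euler's formula for the map (`Good.euler`) and for the half (`Good.euler` if it has at least 4 darts;
directly if it has two darts: then `hs = 1` and `ha * hs = ha` has one cycle), `nV_half`, `card_half`, and
`two_nFix` for `(s, e)` and for `(a * s, a * e)`: `cBis (a*s) (a*e) = cBis s e`, `cAx (a * e) = cCr a e`. -/
theorem NR.nF_half (h : NR a s e g r ty) :
    nV (a * s) + 2 = nFix (a * s) (a * e) + 2 * nV (h.ha * h.hs) := by
  classical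
  have hh := h.half_hh
  have E1 := h.good.euler
  have E2 := (Pl_iff_euler hh.inv hh.fpf).mp hh.pl
  rw [HalfD_nComp hh.ns h.hr] at E2
  have V1 := h.nV_half
  have C1 := h.card_half
  have p1 := Euler_finrank_inv h.good.inv h.good.fpf
  have p2 := Euler_finrank_inv hh.inv hh.fpf
  have F1 := two_nFix h.refl.es h.refl.ee
  have hd := h.refl.dual h.good.inv
  have F2 := two_nFix hd.es hd.ee
  have b1 : cAx (a * e) = cCr a e := by
    unfold cAx cCr
    refine congrArg Finset.card (Finset.filter_congr (fun t _ => ?_))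
    rw [Perm.mul_apply]
    constructor
    · intro h1
      have := congrArg a h1
      rw [h.good.inv] at this
      exact this
    · intro h1
      rw [h1, h.good.inv]
  have b2 : cBis (a * s) (a * e) = cBis s e := by
    unfold cBis
    refine congrArg Finset.card (Finset.filter_congr (fun t _ => ?_))
    rw [Perm.mul_apply, Perm.mul_apply]
    exact a.injective.eq_iff
  rw [b1, b2] at F2
  omega

end

end PGr

end

section
/-! # Module DblE: the half of the double, and the double of the half -/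

set_option linter.unusedSectionVars false

namespace PGr
open Equiv Finset

section
variable {T : Type} [Fintype T] [DecidableEq T] {a s : Perm T} {r : T} {μ : T → Ltr}

private theorem DblE_dE_inl (t : T) : dE a μ (Sum.inl t) = dlo a μ t := rfl
private theorem DblE_dE_lo (t : {t : T // ¬ CE a μ t}) :
    dE a μ (Sum.inr (Sum.inl t)) = Sum.inl t.1 := rfl
private theorem DblE_dE_x (t : {t : T // μ t = .X}) (b : Bool) :
    dE a μ (Sum.inr (Sum.inr (t, b))) = Sum.inr (Sum.inr (t, !b)) := rfl
private theorem DblE_dA_inl (hinv : ∀ t, a (a t) = t) (t : T) :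
    dA a μ hinv (Sum.inl t) = Sum.inl (a t) := rfl
private theorem DblE_dA_x (hinv : ∀ t, a (a t) = t) (t : {t : T // μ t = .X}) (b : Bool) :
    dA a μ hinv (Sum.inr (Sum.inr (t, b))) = Sum.inr (Sum.inr (t, !b)) := rfl

private theorem DblE_dlo_inl {t u : T} (h : dlo a μ t = Sum.inl u) : CE a μ t ∧ t = u := by
  by_cases hc : CE a μ t
  · rw [dlo_pos a μ hc] at h
    exact ⟨hc, Sum.inl.inj h⟩
  · rw [dlo_neg a μ hc] at h
    exact absurd h (by simp)

private theorem DblE_dlo_ne_x {t : T} {z : {t : T // μ t = .X} × Bool} :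
    dlo a μ t ≠ Sum.inr (Sum.inr z) := by
  intro h
  by_cases hc : CE a μ t
  · rw [dlo_pos a μ hc] at h
    exact absurd h (by simp)
  · rw [dlo_neg a μ hc] at h
    exact absurd h (by simp)

/-- the closed upper half of the double consists of the darts `up t` -/
theorem dbl_HP (hH : HH a s r) (hM : Mark a s r μ) (z : DT a μ) :
    z ∈ HP (dA a μ hH.inv) (dE a μ) (dG a μ) ↔ ∃ t, z = dup a μ t := by
  unfold HP
  rw [mem_filter]
  constructor
  · rintro ⟨-, h⟩
    rcases z with t | t | ⟨t, b⟩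
    · exact ⟨t, rfl⟩
    · rcases h with h | h
      · rw [DblE_dE_lo] at h; exact absurd h (by simp)
      · exact absurd h.1 (by simp [dG])
    · rcases h with h | h
      · rw [DblE_dE_x] at h
        exfalso
        simp at h
      · exact absurd (by rw [DblE_dE_x, DblE_dA_x]) h.2
  · rintro ⟨t, rfl⟩
    refine ⟨mem_univ _, ?_⟩
    by_cases hc : CE a μ t
    · left
      show dE a μ (Sum.inl t) = Sum.inl t
      rw [DblE_dE_inl, dlo_pos a μ hc]
    · right
      constructor
      · have : μ t ≠ .C := fun h => hc (Or.inl h)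
        simp [dup, dG, this]
      · show dE a μ (Sum.inl t) ≠ dA a μ hH.inv (Sum.inl t)
        rw [DblE_dE_inl, DblE_dA_inl]
        intro h
        exact hc (DblE_dlo_inl h).1

private theorem DblE_J_ne (hH : HH a s r) (hM : Mark a s r μ) {t : T} (h : μ t = .J) :
    dlo a μ t ≠ Sum.inl (s t) := by
  intro h'
  obtain ⟨hc, hs⟩ := DblE_dlo_inl h'
  have h1 : μ (a t) = .C := by
    rcases hc with hc | hc
    · rw [h] at hc; cases hc
    · exact hc
  have h2 := hM.next t (Or.inl h)
  rw [← hs] at h2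
  exact h2 h1

/-- letters of the double; `J`: `e (up t) = dlo t ≠ up (s t)` (if `dlo t = up t` because `μ (a t) = C`, use `s t ≠ t`,
which follows from `cc`, `next` or `NS`) -/
theorem dbl_ltr (hH : HH a s r) (hM : Mark a s r μ) (t : T) :
    ltr (dA a μ hH.inv) (dS hH hM) (dE a μ) (dG a μ) (dup a μ t) = μ t := by
  unfold ltr
  show (if (if μ t = .C then (1 : ZMod 2) else 0) = 1 then Ltr.C else
    if dlo a μ t = dS hH hM (dup a μ t) then Ltr.G else
    if dE a μ (dS hH hM (dup a μ t)) = dA a μ hH.inv (dS hH hM (dup a μ t)) then Ltr.X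
    else Ltr.J) = μ t
  rcases hl : μ t with _ | _ | _ | _
  · simp
  · rw [if_neg (by simp), dS_J hH hM hl, if_neg (DblE_J_ne hH hM hl), if_neg]
    show dE a μ (Sum.inl (s t)) ≠ dA a μ hH.inv (Sum.inl (s t))
    rw [DblE_dE_inl, DblE_dA_inl]
    intro h
    exact hH.fpf (s t) (DblE_dlo_inl h).2.symm
  · rw [if_neg (by simp), dS_G hH hM hl, if_pos rfl]
  · rw [if_neg (by simp), dS_X hH hM hl, if_neg DblE_dlo_ne_x, if_pos]
    rw [DblE_dE_x, DblE_dA_x]

private theorem DblE_card (P : DT a μ → Prop) [DecidablePred P] :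
    (univ.filter P).card = (univ.filter fun t : T => P (Sum.inl t)).card +
      ((univ.filter fun t : {t : T // ¬ CE a μ t} => P (Sum.inr (Sum.inl t))).card +
      (univ.filter fun t : {t : T // μ t = .X} × Bool => P (Sum.inr (Sum.inr t))).card) := by
  classical
  rw [← Fintype.card_subtype, ← Fintype.card_subtype, ← Fintype.card_subtype,
    ← Fintype.card_subtype]
  rw [Fintype.card_congr (Equiv.subtypeSum), Fintype.card_sum]
  congr 1
  rw [Fintype.card_congr (Equiv.subtypeSum), Fintype.card_sum]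

/-- numbers of darts on the axis, crossing darts, bisected corners.  On the axis: `up t` with `CE t`, that is
`μ t = C` or `μ (a t) = C` (exclusive by `cc`).  Bisected corners: `up t` with letter `G`; and the lower copies of `s t`, where
`μ t` is `G` or `C`, `s t` not on the axis; the map `t ↦ a (s t)` is a bijection from `{t : μ t = G or C, s t on the axis}`
to `{t : μ t = C}` (`ce_GC`, `next`). -/
theorem dbl_cAx (hH : HH a s r) (hM : Mark a s r μ) :
    cAx (dE a μ) = 2 * (univ.filter fun t => μ t = .C).card := by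
  unfold cAx
  rw [DblE_card]
  have h1 : (univ.filter fun t : T => dE a μ (Sum.inl t) = Sum.inl t) =
      (univ.filter fun t => μ t = .C) ∪ (univ.filter fun t => μ (a t) = .C) := by
    ext t
    rw [mem_union, mem_filter, mem_filter, mem_filter, DblE_dE_inl]
    constructor
    · rintro ⟨-, h⟩
      rcases (DblE_dlo_inl h).1 with h | h
      · exact Or.inl ⟨mem_univ _, h⟩
      · exact Or.inr ⟨mem_univ _, h⟩
    · intro h
      refine ⟨mem_univ _, dlo_pos a μ ?_⟩
      rcases h with h | h
      · exact Or.inl h.2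
      · exact Or.inr h.2
  have h2 : (univ.filter fun t : {t : T // ¬ CE a μ t} =>
      dE a μ (Sum.inr (Sum.inl t)) = Sum.inr (Sum.inl t)) = ∅ := by
    apply filter_eq_empty_iff.mpr
    intro t _ h
    rw [DblE_dE_lo] at h
    exact absurd h (by simp)
  have h3 : (univ.filter fun t : {t : T // μ t = .X} × Bool =>
      dE a μ (Sum.inr (Sum.inr t)) = Sum.inr (Sum.inr t)) = ∅ := by
    apply filter_eq_empty_iff.mpr
    rintro ⟨t, b⟩ _ h
    rw [DblE_dE_x] at h
    simp at h
  have h4 : (univ.filter fun t => μ (a t) = .C).card = (univ.filter fun t => μ t = .C).card := by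
    apply card_bij (fun t _ => a t)
    · intro t ht
      rw [mem_filter] at ht ⊢
      exact ⟨mem_univ _, ht.2⟩
    · intro t _ t' _ h
      exact a.injective h
    · intro t ht
      rw [mem_filter] at ht
      refine ⟨a t, ?_, hH.inv t⟩
      rw [mem_filter, hH.inv]
      exact ⟨mem_univ _, ht.2⟩
  rw [h1, h2, h3, card_union_of_disjoint, h4]
  · simp; ring
  · rw [disjoint_filter]
    intro t _ h
    exact hM.cc t (by rw [h]; decide)

theorem dbl_cCr (hH : HH a s r) (hM : Mark a s r μ) :
    cCr (dA a μ hH.inv) (dE a μ) = 2 * (univ.filter fun t => μ t = .X).card := by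
  unfold cCr
  rw [DblE_card]
  have h1 : (univ.filter fun t : T => dE a μ (Sum.inl t) = dA a μ hH.inv (Sum.inl t)) = ∅ := by
    apply filter_eq_empty_iff.mpr
    intro t _ h
    rw [DblE_dE_inl, DblE_dA_inl] at h
    exact hH.fpf t (DblE_dlo_inl h).2.symm
  have h2 : (univ.filter fun t : {t : T // ¬ CE a μ t} =>
      dE a μ (Sum.inr (Sum.inl t)) = dA a μ hH.inv (Sum.inr (Sum.inl t))) = ∅ := by
    apply filter_eq_empty_iff.mpr
    intro t _ h
    rw [DblE_dE_lo] at h
    exact absurd h (by simp [dA, dAf])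
  have h3 : (univ.filter fun t : {t : T // μ t = .X} × Bool =>
      dE a μ (Sum.inr (Sum.inr t)) = dA a μ hH.inv (Sum.inr (Sum.inr t))) = univ := by
    apply filter_true_of_mem
    rintro ⟨t, b⟩ _
    rfl
  rw [h1, h2, h3, card_univ, Fintype.card_prod, Fintype.card_bool, Fintype.card_subtype]
  simp; ring

theorem dbl_cBis (hH : HH a s r) (hM : Mark a s r μ) :
    cBis (dS hH hM) (dE a μ) = 2 * (univ.filter fun t => μ t = .G).card := by
  classical
  unfold cBis
  rw [DblE_card]
  have h1 : (univ.filter fun t : T => dE a μ (Sum.inl t) = dS hH hM (Sum.inl t)) =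
      univ.filter fun t => μ t = .G := by
    ext t
    rw [mem_filter, mem_filter, DblE_dE_inl]
    refine and_congr_right fun _ => ?_
    rcases hl : μ t with _ | _ | _ | _
    · have := dS_C hH hM hl
      rw [show dS hH hM (Sum.inl t) = dlo a μ (s.symm t) from this]
      constructor
      · intro h
        rw [dlo_pos a μ (Or.inl hl)] at h
        exact absurd (DblE_dlo_inl h.symm).2 (hM.prev_C hH hl).1
      · intro h; cases h
    · have := dS_J hH hM hl
      rw [show dS hH hM (Sum.inl t) = Sum.inl (s t) from this]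
      constructor
      · intro h; exact absurd h (DblE_J_ne hH hM hl)
      · intro h; cases h
    · have := dS_G hH hM hl
      rw [show dS hH hM (Sum.inl t) = dlo a μ t from this]
      simp
    · have := dS_X hH hM hl
      rw [show dS hH hM (Sum.inl t) = Sum.inr (Sum.inr (⟨t, hl⟩, true)) from this]
      constructor
      · intro h; exact absurd h DblE_dlo_ne_x
      · intro h; cases h
  have h3 : (univ.filter fun t : {t : T // μ t = .X} × Bool =>
      dE a μ (Sum.inr (Sum.inr t)) = dS hH hM (Sum.inr (Sum.inr t))) = ∅ := by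
    apply filter_eq_empty_iff.mpr
    rintro ⟨⟨t, ht⟩, b⟩ _ h
    rw [DblE_dE_x] at h
    cases b
    · rw [dS_xf hH hM ht] at h
      exact DblE_dlo_ne_x h.symm
    · rw [dS_xt hH hM ht] at h
      exact absurd h (by simp)
  have h2 : (univ.filter fun t : {t : T // ¬ CE a μ t} =>
      dE a μ (Sum.inr (Sum.inl t)) = dS hH hM (Sum.inr (Sum.inl t))).card =
      (univ.filter fun t => (μ t = .G ∨ μ t = .C) ∧ ¬ CE a μ (s t)).card := by
    apply card_bij (fun t _ => s.symm t.1)
    · intro t ht
      rw [mem_filter] at ht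
      rw [mem_filter]
      refine ⟨mem_univ _, ?_, by rw [Equiv.apply_symm_apply]; exact t.2⟩
      have h := ht.2
      rw [DblE_dE_lo, dS_apply] at h
      by_contra hcon
      rw [not_or] at hcon
      have h' : Sum.inl t.1 = dSlo a s μ (s.symm t.1) := h
      unfold dSlo at h'
      split at h'
      · exact t.2 ((DblE_dlo_inl h'.symm).2 ▸ (DblE_dlo_inl h'.symm).1)
      · exact absurd h' (by simp)
      · rename_i hl; exact hcon.1 hl
      · rename_i hl; exact hcon.2 hl
    · intro t _ t' _ h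
      exact Subtype.ext (s.symm.injective h)
    · intro t ht
      rw [mem_filter] at ht
      refine ⟨⟨s t, ht.2.2⟩, ?_, by simp⟩
      rw [mem_filter]
      refine ⟨mem_univ _, ?_⟩
      rw [DblE_dE_lo]
      have h := dS_loGC hH hM ht.2.1 ht.2.2
      rw [dlo_neg a μ ht.2.2] at h
      exact h.symm
  have h4 : (univ.filter fun t => (μ t = .G ∨ μ t = .C) ∧ CE a μ (s t)).card =
      (univ.filter fun t => μ t = .C).card := by
    apply card_bij (fun t _ => a (s t))
    · intro t ht
      rw [mem_filter] at ht ⊢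
      exact ⟨mem_univ _, hM.ce_GC hH ht.2.1 ht.2.2⟩
    · intro t _ t' _ h
      exact s.injective (a.injective h)
    · intro t ht
      rw [mem_filter] at ht
      have e1 : s (s.symm (a t)) = a t := Equiv.apply_symm_apply _ _
      refine ⟨s.symm (a t), ?_, by rw [e1, hH.inv]⟩
      rw [mem_filter, e1]
      refine ⟨mem_univ _, ?_, Or.inr (by rw [hH.inv]; exact ht.2)⟩
      by_contra hcon
      rw [not_or] at hcon
      have h5 := hM.next (s.symm (a t)) (by
        rcases hl : μ (s.symm (a t)) with _ | _ | _ | _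
        · exact absurd hl hcon.2
        · exact Or.inl rfl
        · exact absurd hl hcon.1
        · exact Or.inr rfl)
      rw [e1, hH.inv] at h5
      exact h5 ht.2
  have h5 : (univ.filter fun t => (μ t = .G ∨ μ t = .C) ∧ CE a μ (s t)).card +
      (univ.filter fun t => (μ t = .G ∨ μ t = .C) ∧ ¬ CE a μ (s t)).card =
      (univ.filter fun t => μ t = .G).card + (univ.filter fun t => μ t = .C).card := by
    rw [← card_union_of_disjoint, ← card_union_of_disjoint]
    · congr 1
      ext t
      simp only [mem_union, mem_filter, mem_univ, true_and]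
      tauto
    · rw [disjoint_filter]
      intro t _ h h'
      rw [h] at h'; cases h'
    · rw [disjoint_filter]
      intro t _ h h'
      exact h'.2 h.2
  rw [h1, h2, h3]
  simp only [card_empty, add_zero]
  omega

end

section
variable {T : Type} [Fintype T] [DecidableEq T] {a s e : Perm T} {g : T → ZMod 2} {r : T} {ty : Ltr}

/-- the map from the double of the half to the map -/
private def DblE_th (h : NR a s e g r ty) :
    DT h.ha (fun t : {x // x ∈ HP a e g} => ltr a s e g t.1) → T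
  | Sum.inl t => t.1
  | Sum.inr (Sum.inl t) => e t.1.1
  | Sum.inr (Sum.inr (t, true)) => s t.1.1
  | Sum.inr (Sum.inr (t, false)) => e (s t.1.1)

private theorem DblE_ce (h : NR a s e g r ty) (t : {x // x ∈ HP a e g}) :
    CE h.ha (fun t : {x // x ∈ HP a e g} => ltr a s e g t.1) t ↔ e t.1 = t.1 := by
  constructor
  · rintro (hc | hc)
    · exact (h.step_C t.2 hc).2.1
    · have h1 := (h.step_C (h.ha t).2 hc).2.1
      have h2 : (h.ha t).1 = a t.1 := rfl
      rw [h2, h.refl.ea] at h1
      exact a.injective h1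
  · intro he
    rcases (by decide : ∀ x : ZMod 2, x = 0 ∨ x = 1) (g t.1) with h0 | h0
    · right
      show ltr a s e g (a t.1) = .C
      have h1 := h.side.ga t.1
      rw [if_pos he, if_neg (by rw [he]; exact (h.good.fpf t.1).symm), h0] at h1
      unfold ltr
      rw [if_pos]
      rw [h1]; decide
    · left
      show ltr a s e g t.1 = .C
      unfold ltr
      rw [if_pos h0]

private theorem DblE_th_lo (h : NR a s e g r ty) (t : {x // x ∈ HP a e g}) :
    DblE_th h (dlo h.ha (fun t : {x // x ∈ HP a e g} => ltr a s e g t.1) t) = e t.1 := by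
  by_cases hc : CE h.ha (fun t : {x // x ∈ HP a e g} => ltr a s e g t.1) t
  · rw [dlo_pos _ _ hc]
    exact ((DblE_ce h t).mp hc).symm
  · rw [dlo_neg _ _ hc]
    rfl

private theorem DblE_th_surj (h : NR a s e g r ty) : Function.Surjective (DblE_th h) := by
  intro z
  rcases h.cover z with hz | ⟨hz, hne⟩ | ⟨h1, h2, h3, h4⟩ | ⟨h1, h2, h3, h4⟩
  · exact ⟨Sum.inl ⟨z, hz⟩, rfl⟩
  · refine ⟨dlo _ _ ⟨e z, hz⟩, ?_⟩
    rw [DblE_th_lo]
    exact h.refl.ee z
  · refine ⟨Sum.inr (Sum.inr (⟨⟨s.symm z, h3⟩, h4⟩, true)), ?_⟩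
    exact Equiv.apply_symm_apply _ _
  · refine ⟨Sum.inr (Sum.inr (⟨⟨s.symm (a z), h3⟩, h4⟩, false)), ?_⟩
    show e (s (s.symm (a z))) = z
    rw [Equiv.apply_symm_apply, ← h1, h.refl.ee]

private theorem DblE_HP_g (h : NR a s e g r ty) {t : T} (ht : t ∈ HP a e g) (hne : e t ≠ t) :
    g t = 0 ∧ e t ≠ a t := by
  unfold HP at ht
  rw [mem_filter] at ht
  rcases ht.2 with h1 | h1
  · exact absurd h1 hne
  · exact h1

private theorem DblE_th_inj (h : NR a s e g r ty) : Function.Injective (DblE_th h) := by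
  have hlo : ∀ t : {t : {x // x ∈ HP a e g} //
      ¬ CE h.ha (fun t : {x // x ∈ HP a e g} => ltr a s e g t.1) t}, e t.1.1 ≠ t.1.1 :=
    fun t hc => t.2 ((DblE_ce h t.1).mpr hc)
  -- invariants
  have k2 : ∀ t : {t : {x // x ∈ HP a e g} //
      ¬ CE h.ha (fun t : {x // x ∈ HP a e g} => ltr a s e g t.1) t}, g (e t.1.1) = 1 ∧
      e (e t.1.1) ≠ e t.1.1 ∧ e (e t.1.1) ≠ a (e t.1.1) := by
    intro t
    obtain ⟨g0, g1⟩ := DblE_HP_g h t.1.2 (hlo t)
    refine ⟨?_, ?_, ?_⟩
    · rw [h.side.ge, g0, if_neg (hlo t)]; decide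
    · rw [h.refl.ee]; exact fun hh => hlo t hh.symm
    · rw [h.refl.ee, ← h.refl.ea]
      intro hh
      apply g1
      rw [← h.refl.ee (a t.1.1), ← hh]
  have k3 : ∀ t : {t : {x // x ∈ HP a e g} //
      (fun t : {x // x ∈ HP a e g} => ltr a s e g t.1) t = .X},
      g (s t.1.1) = 0 ∧ e (s t.1.1) = a (s t.1.1) := by
    intro t
    have := h.step_X t.1.2 t.2
    exact ⟨this.2.2.2.1, this.2.2.1⟩
  have k4 : ∀ t : {t : {x // x ∈ HP a e g} //
      (fun t : {x // x ∈ HP a e g} => ltr a s e g t.1) t = .X},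
      g (e (s t.1.1)) = 1 ∧ e (e (s t.1.1)) = a (e (s t.1.1)) := by
    intro t
    obtain ⟨g0, g1⟩ := k3 t
    refine ⟨?_, ?_⟩
    · rw [h.side.ge, g0, if_neg (by rw [g1]; exact h.good.fpf _)]; decide
    · rw [h.refl.ee, ← h.refl.ea, ← g1, h.refl.ee]
  have k1 : ∀ t : {x // x ∈ HP a e g}, e t.1 = t.1 ∨ (g t.1 = 0 ∧ e t.1 ≠ a t.1) := by
    intro t
    have := t.2
    unfold HP at this
    rw [mem_filter] at this
    exact this.2
  have k1' : ∀ t : {x // x ∈ HP a e g}, e t.1 ≠ a t.1 := by
    intro t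
    rcases k1 t with h1 | h1
    · rw [h1]; exact (h.good.fpf _).symm
    · exact h1.2
  intro z z' hz
  rcases z with t | t | ⟨t, b⟩ <;> rcases z' with t' | t' | ⟨t', b'⟩
  · have h1 : t.1 = t'.1 := hz
    rw [Subtype.ext h1]
  · exfalso
    have h1 : t.1 = e t'.1.1 := hz
    obtain ⟨a1, a2, a3⟩ := k2 t'
    rw [← h1] at a1 a2 a3
    rcases k1 t with h2 | h2
    · exact a2 h2
    · rw [h2.1] at a1; exact absurd a1 (by decide)
  · exfalso
    cases b'
    · have h1 : t.1 = e (s t'.1.1) := hz
      have := (k4 t').2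
      rw [← h1] at this
      exact k1' t this
    · have h1 : t.1 = s t'.1.1 := hz
      have := (k3 t').2
      rw [← h1] at this
      exact k1' t this
  · exfalso
    have h1 : e t.1.1 = t'.1 := hz
    obtain ⟨a1, a2, a3⟩ := k2 t
    rw [h1] at a1 a2 a3
    rcases k1 t' with h2 | h2
    · exact a2 h2
    · rw [h2.1] at a1; exact absurd a1 (by decide)
  · have h1 : e t.1.1 = e t'.1.1 := hz
    rw [Subtype.ext (Subtype.ext (e.injective h1))]
  · exfalso
    obtain ⟨a1, a2, a3⟩ := k2 t
    cases b'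
    · have h1 : e t.1.1 = e (s t'.1.1) := hz
      have := (k4 t').2
      rw [← h1] at this
      exact a3 this
    · have h1 : e t.1.1 = s t'.1.1 := hz
      have := (k3 t').2
      rw [← h1] at this
      exact a3 this
  · exfalso
    cases b
    · have h1 : e (s t.1.1) = t'.1 := hz
      have := (k4 t).2
      rw [h1] at this
      exact k1' t' this
    · have h1 : s t.1.1 = t'.1 := hz
      have := (k3 t).2
      rw [h1] at this
      exact k1' t' this
  · exfalso
    obtain ⟨a1, a2, a3⟩ := k2 t'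
    cases b
    · have h1 : e (s t.1.1) = e t'.1.1 := hz
      have := (k4 t).2
      rw [h1] at this
      exact a3 this
    · have h1 : s t.1.1 = e t'.1.1 := hz
      have := (k3 t).2
      rw [h1] at this
      exact a3 this
  · cases b <;> cases b'
    · have h1 : e (s t.1.1) = e (s t'.1.1) := hz
      rw [Subtype.ext (Subtype.ext (s.injective (e.injective h1)))]
    · exfalso
      have h1 : e (s t.1.1) = s t'.1.1 := hz
      have a1 := (k4 t).1
      rw [h1, (k3 t').1] at a1
      exact absurd a1 (by decide)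
    · exfalso
      have h1 : s t.1.1 = e (s t'.1.1) := hz
      have a1 := (k4 t').1
      rw [← h1, (k3 t).1] at a1
      exact absurd a1 (by decide)
    · have h1 : s t.1.1 = s t'.1.1 := hz
      rw [Subtype.ext (Subtype.ext (s.injective h1))]

/-- The double of the half is the map.  Proof: `up t ↦ t`, lower copy of `t` (not on the axis) `↦ e t`, crossing darts
at `t` with letter `X`: `↦ s t` (upper), `e (s t)` (lower).  Bijective by `NR.cover`.  The rotation: `NR.ret_J`, `ret_X`,
`step_G`, `step_C`; on the lower side use `s (e (s t)) = e t`; for the lower copy of `t' = hs t` with letter of `t` equal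
to `G` or `C` and `t'` not on the axis: `e t' = s⁻¹ t'` (`ret_GC`), so `s (e t') = t'`. -/
theorem NR.double_half (h : NR a s e g r ty) :
    ∃ Θ : DT h.ha (fun t : {x // x ∈ HP a e g} => ltr a s e g t.1) ≃ T,
      (∀ z, Θ (dA h.ha _ h.half_hh.inv z) = a (Θ z)) ∧
      (∀ z, Θ (dS h.half_hh h.half_mark z) = s (Θ z)) ∧
      (∀ z, Θ (dE h.ha _ z) = e (Θ z)) ∧ Θ (dup h.ha _ h.hr) = r := by
  refine ⟨Equiv.ofBijective (DblE_th h) ⟨DblE_th_inj h, DblE_th_surj h⟩, ?_, ?_, ?_, rfl⟩
  · intro z
    show DblE_th h (dA h.ha _ h.half_hh.inv z) = a (DblE_th h z)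
    rcases z with t | t | ⟨t, b⟩
    · rfl
    · show e (a t.1.1) = a (e t.1.1)
      exact h.refl.ea _
    · have hx := (h.step_X t.1.2 t.2).2.2.1
      cases b
      · show s t.1.1 = a (e (s t.1.1))
        rw [hx, h.good.inv]
      · show e (s t.1.1) = a (s t.1.1)
        exact hx
  · intro z
    show DblE_th h (dS h.half_hh h.half_mark z) = s (DblE_th h z)
    rcases z with t | t | ⟨⟨t, ht⟩, b⟩
    · rcases hl : ltr a s e g t.1 with _ | _ | _ | _
      · have h1 := dS_C h.half_hh h.half_mark (t := t) hl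
        rw [show dS h.half_hh h.half_mark (Sum.inl t) = _ from h1, DblE_th_lo]
        obtain ⟨c1, c2, c3, c4, c5, c6⟩ := h.step_C t.2 hl
        have h2 : h.hs ⟨s.symm t.1, c3⟩ = t := by
          apply Subtype.ext
          have h3 := h.ret_J ⟨s.symm t.1, c3⟩ c5
          rw [show (h.hs ⟨s.symm t.1, c3⟩).1 = _ from h3]
          exact Equiv.apply_symm_apply _ _
        have h3 : h.hs.symm t = ⟨s.symm t.1, c3⟩ := by
          rw [Equiv.symm_apply_eq]; exact h2.symm
        rw [h3]
        exact c6.symm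
      · have h1 := dS_J h.half_hh h.half_mark (t := t) hl
        rw [show dS h.half_hh h.half_mark (Sum.inl t) = _ from h1]
        exact h.ret_J t hl
      · have h1 := dS_G h.half_hh h.half_mark (t := t) hl
        rw [show dS h.half_hh h.half_mark (Sum.inl t) = _ from h1, DblE_th_lo]
        exact (h.step_G t.2 hl).2.2.1
      · have h1 := dS_X h.half_hh h.half_mark (t := t) hl
        rw [show dS h.half_hh h.half_mark (Sum.inl t) = _ from h1]
        rfl
    · obtain ⟨t, hc⟩ := t
      obtain ⟨u, rfl⟩ := h.hs.surjective t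
      have hcs : CE h.ha (fun t : {x // x ∈ HP a e g} => ltr a s e g t.1) (h.hs u) → False := hc
      have e0 : (Sum.inr (Sum.inl ⟨h.hs u, hc⟩) :
          DT h.ha (fun t : {x // x ∈ HP a e g} => ltr a s e g t.1)) = dlo _ _ (h.hs u) :=
        (dlo_neg _ _ hc).symm
      rw [e0, DblE_th_lo]
      rcases hl : ltr a s e g u.1 with _ | _ | _ | _
      · have h1 := dS_loGC h.half_hh h.half_mark (t := u) (Or.inr hl) hc
        rw [h1]
        show (h.hs u).1 = s (e (h.hs u).1)
        rcases (h.ret_GC u (Or.inr hl)).2 with h2 | h2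
        · exact absurd ((DblE_ce h (h.hs u)).mpr h2) hc
        · have h3 : e (h.hs u).1 = s.symm (h.hs u).1 := h2
          rw [h3, Equiv.apply_symm_apply]
      · have h1 := dS_loJ h.half_hh h.half_mark (t := u) hl hc
        rw [h1, DblE_th_lo]
        have h2 : (h.hs u).1 = s u.1 := h.ret_J u hl
        rw [h2, h.refl.es]
      · have h1 := dS_loGC h.half_hh h.half_mark (t := u) (Or.inl hl) hc
        rw [h1]
        show (h.hs u).1 = s (e (h.hs u).1)
        rcases (h.ret_GC u (Or.inl hl)).2 with h2 | h2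
        · exact absurd ((DblE_ce h (h.hs u)).mpr h2) hc
        · have h3 : e (h.hs u).1 = s.symm (h.hs u).1 := h2
          rw [h3, Equiv.apply_symm_apply]
      · have h1 := dS_loX h.half_hh h.half_mark (t := u) hl
        rw [h1]
        show e (s u.1) = s (e (h.hs u).1)
        have h2 : (h.hs u).1 = s (s u.1) := h.ret_X u hl
        rw [h2, h.refl.es]
    · cases b
      · have h1 := dS_xf h.half_hh h.half_mark (t := t) ht
        rw [show dS h.half_hh h.half_mark (Sum.inr (Sum.inr (⟨t, ht⟩, false))) = _ from h1,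
          DblE_th_lo]
        show e t.1 = s (e (s t.1))
        rw [h.refl.es]
      · have h1 := dS_xt h.half_hh h.half_mark (t := t) ht
        rw [show dS h.half_hh h.half_mark (Sum.inr (Sum.inr (⟨t, ht⟩, true))) = _ from h1]
        exact h.ret_X t ht
  · intro z
    show DblE_th h (dE h.ha _ z) = e (DblE_th h z)
    rcases z with t | t | ⟨t, b⟩
    · exact DblE_th_lo h t
    · show t.1.1 = e (e t.1.1)
      rw [h.refl.ee]
    · cases b
      · show s t.1.1 = e (e (s t.1.1))
        rw [h.refl.ee]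
      · rfl

end

end PGr

end

section
/-! # Module Phi: reduced maps with a reflection and marked half maps -/

set_option linter.unusedSectionVars false

namespace PGr
open Equiv Finset
open scoped ENNReal

private theorem Phi_aa {U : Type*} {α : Perm U} (h : ∀ z, α (α z) = z) (β : Perm U) :
    α * (α * β) = β := by
  ext z
  simp [Perm.mul_apply, h]

private theorem Phi_ret {U U' : Type*} [Fintype U] [DecidableEq U] [Fintype U'] [DecidableEq U']
    {σ : Perm U} {σ' : Perm U'} (F : U ≃ U') (hF : ∀ z, F (σ z) = σ' (F z)) {S : Finset U}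
    {S' : Finset U'} (hS : ∀ z, F z ∈ S' ↔ z ∈ S) (x : {x // x ∈ S}) :
    F (ret σ S x).1 = (ret σ' S' ⟨F x.1, (hS _).2 x.2⟩).1 := by
  obtain ⟨k, hk, hk1, hk2⟩ := exists_ret σ S x
  have hp : ∀ (i : ℕ) z, F ((σ ^ i) z) = (σ' ^ i) (F z) := by
    intro i
    induction i with
    | zero => intro z; simp
    | succ i ih =>
      intro z
      rw [pow_succ', pow_succ', Perm.mul_apply, Perm.mul_apply, hF, ih]
  rw [ret_spec σ' S' ⟨F x.1, (hS _).2 x.2⟩ hk
    (by rw [← hp, hS, hk1]; exact (ret σ S x).2)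
    (by intro i hi hik; rw [← hp, hS]; exact hk2 i hi hik)]
  change F (ret σ S x).1 = (σ' ^ k) (F x.1)
  rw [← hp, hk1]

private theorem Phi_even {T : Type*} [Fintype T] [DecidableEq T] {a : Perm T}
    (hinv : ∀ t, a (a t) = t) (hfpf : ∀ t, a t ≠ t) : 2 ∣ Fintype.card T := by
  have h1 : a ^ 2 = 1 := by
    ext t
    simp [pow_two, hinv]
  have h2 := Equiv.Perm.two_dvd_card_support h1
  have h3 : a.support = univ := by
    ext t
    simp [hfpf t]
  rw [h3, card_univ] at h2
  exact h2

section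
variable {T : Type} [Fintype T] [DecidableEq T] {a s : Perm T} {r : T} {μ : T → Ltr}

/-- the class (picture M) of the double of a marked half map -/
noncomputable def phi (hH : HH a s r) (hM : Mark a s r μ) : GC :=
  gcl (dA a μ hH.inv) (dA a μ hH.inv * dS hH hM) (dup a μ r) (dbl_good hH hM).dual

private theorem Phi_dinv (hH : HH a s r) (z : DT a μ) :
    dA a μ hH.inv (dA a μ hH.inv z) = z := dAf_inv a μ hH.inv z

private theorem Phi_refl (hH : HH a s r) (hM : Mark a s r μ) :
    Refl (dA a μ hH.inv) (dA a μ hH.inv * dS hH hM) (dA a μ hH.inv * dE a μ) :=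
  Refl.dual (Phi_dinv hH) (dRefl hH hM)

private theorem Phi_ty (hH : HH a s r) (hM : Mark a s r μ) :
    MTy (dA a μ hH.inv) (dA a μ hH.inv * dS hH hM) (dA a μ hH.inv * dE a μ) (dup a μ r) (μ r) := by
  rw [mty_iff (Phi_dinv hH) (Phi_refl hH hM), Phi_aa (Phi_dinv hH), Phi_aa (Phi_dinv hH)]
  exact (dbl_nr hH hM).typ

private theorem Phi_red (hH : HH a s r) (hM : Mark a s r μ) :
    MRed (dA a μ hH.inv) (dA a μ hH.inv * dS hH hM) (dA a μ hH.inv * dE a μ) (dup a μ r) := by
  rw [mred_iff (dbl_good hH hM).dual (Phi_refl hH hM), Phi_aa (Phi_dinv hH),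
    Phi_aa (Phi_dinv hH)]
  exact (dbl_nr hH hM).red

private theorem Phi_mem_up (z : DT a μ) : z ∈ upSet a μ ↔ ∃ t, z = dup a μ t := by
  simp [upSet]

/-- forward direction of `phi_eq_iff`, from the isomorphism of the doubles -/
private theorem Phi_fwd {T' : Type} [Fintype T'] [DecidableEq T'] {a' s' : Perm T'} {r' : T'}
    {μ' : T' → Ltr} (hH : HH a s r) (hM : Mark a s r μ) (hH' : HH a' s' r') (hM' : Mark a' s' r' μ')
    (hty : μ r = μ' r') (F : DT a μ ≃ DT a' μ')
    (f1 : ∀ z, F (dA a μ hH.inv z) = dA a' μ' hH'.inv (F z))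
    (f2 : ∀ z, F ((dA a μ hH.inv * dS hH hM) z) = (dA a' μ' hH'.inv * dS hH' hM') (F z))
    (f3 : F (dup a μ r) = dup a' μ' r') :
    ∃ f : T ≃ T', (∀ t, f (a t) = a' (f t)) ∧ (∀ t, f (s t) = s' (f t)) ∧
      f r = r' ∧ ∀ t, μ' (f t) = μ t := by
  have fS : ∀ z, F (dS hH hM z) = dS hH' hM' (F z) := by
    intro z
    have h1 := f2 z
    rw [Perm.mul_apply, Perm.mul_apply, f1] at h1
    exact (dA a' μ' hH'.inv).injective h1
  have fE : ∀ z, F (dE a μ z) = dE a' μ' (F z) := by
    have hu := refl_unique (ty := μ r) (dbl_good hH' hM').dual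
      (Refl_iso F f1 f2 (Phi_refl hH hM)) (Phi_refl hH' hM')
      (r := dup a' μ' r')
      (by have := MTy_iso F f1 f2 (Phi_ty hH hM); rwa [f3] at this)
      (by have := Phi_ty hH' hM'; rwa [← hty] at this)
    intro z
    have h1 := congrArg (fun p : Perm _ => p (F z)) hu
    simp only [Equiv.trans_apply, Equiv.symm_apply_apply, Perm.mul_apply] at h1
    rw [f1] at h1
    exact (dA a' μ' hH'.inv).injective h1
  have fG : ∀ z, dG a' μ' (F z) = dG a μ z := by
    have hs : Side (dA a' μ' hH'.inv) (dS hH' hM') (dE a' μ') (fun z => dG a μ (F.symm z)) := by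
      have hd := dbl_side hH hM
      refine ⟨?_, ?_, ?_⟩
      · intro t
        obtain ⟨z, rfl⟩ := F.surjective t
        simp only [← fS, ← fE, F.injective.eq_iff, Equiv.symm_apply_apply]
        exact hd.gs z
      · intro t
        obtain ⟨z, rfl⟩ := F.surjective t
        simp only [← f1, ← fE, F.injective.eq_iff, Equiv.symm_apply_apply]
        exact hd.ga z
      · intro t
        obtain ⟨z, rfl⟩ := F.surjective t
        simp only [← fE, F.injective.eq_iff, Equiv.symm_apply_apply]
        exact hd.ge z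
    have h1 := side_unique (dbl_good hH' hM') (dbl_side hH' hM') hs (r := dup a' μ' r') (by
      rw [← f3]
      simp only [Equiv.symm_apply_apply]
      rw [f3]
      simp only [dG, hty])
    intro z
    rw [h1]
    simp only [Equiv.symm_apply_apply]
  have fHP : ∀ z, F z ∈ HP (dA a' μ' hH'.inv) (dE a' μ') (dG a' μ') ↔
      z ∈ HP (dA a μ hH.inv) (dE a μ) (dG a μ) := by
    intro z
    unfold HP
    rw [mem_filter, mem_filter]
    simp only [← f1, ← fE, fG, F.injective.eq_iff, ne_eq, mem_univ]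
  have fup : ∀ z, (∃ t', F z = dup a' μ' t') ↔ ∃ t, z = dup a μ t := by
    intro z
    rw [← dbl_HP hH' hM', fHP, dbl_HP hH hM]
  have hex : ∀ t, ∃ t', F (dup a μ t) = dup a' μ' t' := fun t => (fup _).2 ⟨t, rfl⟩
  choose f hf using hex
  have hinj : Function.Injective f := by
    intro t t' h
    have h1 := hf t
    rw [h, ← hf t'] at h1
    exact Sum.inl_injective (F.injective h1)
  have hsurj : Function.Surjective f := by
    intro t'
    obtain ⟨t, ht⟩ := (fup (F.symm (dup a' μ' t'))).1 ⟨t', F.apply_symm_apply _⟩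
    refine ⟨t, ?_⟩
    have h1 := hf t
    rw [← ht, F.apply_symm_apply] at h1
    exact (Sum.inl_injective h1).symm
  have hSS : ∀ z, F z ∈ upSet a' μ' ↔ z ∈ upSet a μ := by
    intro z
    rw [Phi_mem_up, Phi_mem_up, fup]
  refine ⟨Equiv.ofBijective f ⟨hinj, hsurj⟩, ?_, ?_, ?_, ?_⟩
  · intro t
    change f (a t) = a' (f t)
    have h1 := f1 (dup a μ t)
    rw [hf t] at h1
    change F (dup a μ (a t)) = dup a' μ' (a' (f t)) at h1
    rw [hf] at h1
    exact Sum.inl_injective h1
  · intro t
    change f (s t) = s' (f t)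
    have ht : dup a μ t ∈ upSet a μ := (Phi_mem_up _).2 ⟨t, rfl⟩
    have hst : dup a μ (s t) ∈ upSet a μ := (Phi_mem_up _).2 ⟨s t, rfl⟩
    have ht' : dup a' μ' (f t) ∈ upSet a' μ' := (Phi_mem_up _).2 ⟨f t, rfl⟩
    have hst' : dup a' μ' (s' (f t)) ∈ upSet a' μ' := (Phi_mem_up _).2 ⟨s' (f t), rfl⟩
    have h1 := Phi_ret F fS hSS ⟨dup a μ t, ht⟩
    rw [ret_double hH hM t ht hst] at h1
    have h2 : (⟨F (dup a μ t), (hSS _).2 ht⟩ : {x // x ∈ upSet a' μ'}) =
        ⟨dup a' μ' (f t), ht'⟩ := Subtype.ext (hf t)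
    rw [h2, ret_double hH' hM' (f t) ht' hst'] at h1
    change F (dup a μ (s t)) = dup a' μ' (s' (f t)) at h1
    rw [hf] at h1
    exact Sum.inl_injective h1
  · change f r = r'
    have h1 := hf r
    rw [f3] at h1
    exact (Sum.inl_injective h1).symm
  · intro t
    change μ' (f t) = μ t
    rw [← dbl_ltr hH' hM' (f t), ← dbl_ltr hH hM t, ← hf t]
    unfold ltr
    simp only [← fS, ← fE, ← f1, fG, F.injective.eq_iff]

/-- the isomorphism of the doubles -/
private def Phi_map {T' : Type} [Fintype T'] [DecidableEq T'] {a' : Perm T'}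
    {μ' : T' → Ltr} (f : T ≃ T') (ha : ∀ t, f (a t) = a' (f t)) (hμ : ∀ t, μ' (f t) = μ t) :
    DT a μ ≃ DT a' μ' :=
  Equiv.sumCongr f (Equiv.sumCongr
    (f.subtypeEquiv (fun t => by unfold CE; rw [← ha, hμ, hμ]))
    (Equiv.prodCongr (f.subtypeEquiv (fun t => by rw [hμ])) (Equiv.refl Bool)))

private theorem Phi_map_up {T' : Type} [Fintype T'] [DecidableEq T'] {a' : Perm T'}
    {μ' : T' → Ltr} (f : T ≃ T') (ha : ∀ t, f (a t) = a' (f t)) (hμ : ∀ t, μ' (f t) = μ t) (t : T) :
    Phi_map (μ := μ) f ha hμ (dup a μ t) = dup a' μ' (f t) := rfl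

private theorem Phi_map_x {T' : Type} [Fintype T'] [DecidableEq T'] {a' : Perm T'}
    {μ' : T' → Ltr} (f : T ≃ T') (ha : ∀ t, f (a t) = a' (f t)) (hμ : ∀ t, μ' (f t) = μ t)
    (t : T) (h : μ t = .X) (h' : μ' (f t) = .X) (b : Bool) :
    Phi_map (μ := μ) f ha hμ (Sum.inr (Sum.inr (⟨t, h⟩, b))) =
      Sum.inr (Sum.inr (⟨f t, h'⟩, b)) := rfl

private theorem Phi_map_lo {T' : Type} [Fintype T'] [DecidableEq T'] {a' : Perm T'}
    {μ' : T' → Ltr} (f : T ≃ T') (ha : ∀ t, f (a t) = a' (f t)) (hμ : ∀ t, μ' (f t) = μ t) (t : T) :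
    Phi_map (μ := μ) f ha hμ (dlo a μ t) = dlo a' μ' (f t) := by
  by_cases h : CE a μ t
  · have h' : CE a' μ' (f t) := by
      unfold CE at h ⊢
      rwa [← ha, hμ, hμ]
    rw [dlo_pos a μ h, dlo_pos a' μ' h']
    rfl
  · have h' : ¬ CE a' μ' (f t) := by
      unfold CE at h ⊢
      rwa [← ha, hμ, hμ]
    rw [dlo_neg a μ h, dlo_neg a' μ' h']
    rfl

private theorem Phi_bwd {T' : Type} [Fintype T'] [DecidableEq T'] {a' s' : Perm T'} {r' : T'}
    {μ' : T' → Ltr} (hH : HH a s r) (hM : Mark a s r μ) (hH' : HH a' s' r') (hM' : Mark a' s' r' μ')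
    (f : T ≃ T') (ha : ∀ t, f (a t) = a' (f t)) (hs : ∀ t, f (s t) = s' (f t))
    (hr : f r = r') (hμ : ∀ t, μ' (f t) = μ t) : phi hH hM = phi hH' hM' := by
  unfold phi
  rw [gcl_eq_iff]
  have f1 : ∀ z, Phi_map (μ := μ) f ha hμ (dA a μ hH.inv z) =
      dA a' μ' hH'.inv (Phi_map (μ := μ) f ha hμ z) := by
    rintro (t | t | ⟨t, b⟩)
    · change Sum.inl (f (a t)) = Sum.inl (a' (f t))
      rw [ha]
    · change Sum.inr (Sum.inl _) = Sum.inr (Sum.inl _)
      congr 2
      apply Subtype.ext
      change f (a t.1) = a' (f t.1)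
      rw [ha]
    · rfl
  have hsy : ∀ t, f (s.symm t) = s'.symm (f t) := by
    intro t
    rw [Equiv.eq_symm_apply, ← hs, Equiv.apply_symm_apply]
  have hce : ∀ t, CE a μ t ↔ CE a' μ' (f t) := by
    intro t
    unfold CE
    rw [← ha, hμ, hμ]
  have f2 : ∀ z, Phi_map (μ := μ) f ha hμ (dS hH hM z) =
      dS hH' hM' (Phi_map (μ := μ) f ha hμ z) := by
    rintro (t | ⟨u, hu⟩ | ⟨⟨t, ht⟩, b⟩)
    · change Phi_map (μ := μ) f ha hμ (dS hH hM (dup a μ t)) =
        dS hH' hM' (Phi_map (μ := μ) f ha hμ (dup a μ t))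
      rw [Phi_map_up]
      rcases h : μ t with _ | _ | _ | _
      · rw [dS_C hH hM h, dS_C hH' hM' (by rw [hμ, h]), Phi_map_lo, hsy]
      · rw [dS_J hH hM h, dS_J hH' hM' (by rw [hμ, h]), Phi_map_up, hs]
      · rw [dS_G hH hM h, dS_G hH' hM' (by rw [hμ, h]), Phi_map_lo]
      · rw [dS_X hH hM h, dS_X hH' hM' (by rw [hμ, h])]
        exact Phi_map_x f ha hμ t h (by rw [hμ, h]) true
    · obtain ⟨t, rfl⟩ := s.surjective u
      have h0 : (Sum.inr (Sum.inl ⟨s t, hu⟩) : DT a μ) = dlo a μ (s t) := (dlo_neg a μ hu).symm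
      have hu' : ¬ CE a' μ' (s' (f t)) := by rw [← hs, ← hce]; exact hu
      rw [h0, Phi_map_lo, hs]
      rcases h : μ t with _ | _ | _ | _
      · rw [dS_loGC hH hM (Or.inr h) hu, dS_loGC hH' hM' (Or.inr (by rw [hμ, h])) hu',
          Phi_map_up, hs]
      · rw [dS_loJ hH hM h hu, dS_loJ hH' hM' (by rw [hμ, h]) hu', Phi_map_lo]
      · rw [dS_loGC hH hM (Or.inl h) hu, dS_loGC hH' hM' (Or.inl (by rw [hμ, h])) hu',
          Phi_map_up, hs]
      · rw [dS_loX hH hM h, dS_loX hH' hM' (by rw [hμ, h])]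
        exact Phi_map_x f ha hμ t h (by rw [hμ, h]) false
    · have ht' : μ' (f t) = .X := by rw [hμ, ht]
      rw [Phi_map_x f ha hμ t ht ht' b]
      cases b
      · rw [dS_xf hH hM ht, dS_xf hH' hM' ht', Phi_map_lo]
      · rw [dS_xt hH hM ht, dS_xt hH' hM' ht', Phi_map_up, hs]
  refine ⟨Phi_map (μ := μ) f ha hμ, f1, ?_, ?_⟩
  · intro z
    rw [Perm.mul_apply, Perm.mul_apply, f1, f2]
  · rw [Phi_map_up, hr]

/-- Proof of the direction from left to right: an isomorphism `f` of the doubles (of their duals, hence of the doubles: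
`dS = dA * (dA * dS)`) transports the reflection (`refl_unique` or: both values at the root are known) and the side
function (`side_unique`; the values at the roots are equal as `μ r = C` iff the root is fixed), hence the set of the upper
darts (`dbl_HP`), on which the first return of the rotation is `s` (`ret_double`); the letters by `dbl_ltr`. -/
theorem phi_eq_iff {T' : Type} [Fintype T'] [DecidableEq T'] {a' s' : Perm T'} {r' : T'}
    {μ' : T' → Ltr} (hH : HH a s r) (hM : Mark a s r μ) (hH' : HH a' s' r') (hM' : Mark a' s' r' μ')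
    (hty : μ r = μ' r') :
    phi hH hM = phi hH' hM' ↔ ∃ f : T ≃ T', (∀ t, f (a t) = a' (f t)) ∧ (∀ t, f (s t) = s' (f t)) ∧
      f r = r' ∧ ∀ t, μ' (f t) = μ t := by
  constructor
  · intro h
    unfold phi at h
    rw [gcl_eq_iff] at h
    obtain ⟨F, f1, f2, f3⟩ := h
    exact Phi_fwd hH hM hH' hM' hty F f1 f2 f3
  · rintro ⟨f, h1, h2, h3, h4⟩
    exact Phi_bwd hH hM hH' hM' f h1 h2 h3 h4

/-- the class `phi` belongs to the family of type `μ r` -/
theorem phi_mem (hH : HH a s r) (hM : Mark a s r μ) :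
    ∃ e : Perm (phi hH hM).rep.1.T, Refl (phi hH hM).rep.1.aa (phi hH hM).rep.1.s e ∧
      MTy (phi hH hM).rep.1.aa (phi hH hM).rep.1.s e (Sum.inr true) (μ r) ∧
      MRed (phi hH hM).rep.1.aa (phi hH hM).rep.1.s e (Sum.inr true) := by
  obtain ⟨F, f1, f2, f3⟩ := gcl_iso (dA a μ hH.inv) (dA a μ hH.inv * dS hH hM) (dup a μ r)
    (dbl_good hH hM).dual
  refine ⟨(F.symm.trans (dA a μ hH.inv * dE a μ)).trans F, Refl_iso F f1 f2 (Phi_refl hH hM),
    ?_, ?_⟩
  · have := MTy_iso F f1 f2 (Phi_ty hH hM)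
    rwa [f3] at this
  · have := MRed_iso F f1 f2 (Phi_red hH hM)
    rwa [f3] at this

private theorem Phi_of_NR {T : Type} [Fintype T] [DecidableEq T] {a s e : Perm T} {g : T → ZMod 2}
    {r : T} {ty : Ltr} (h : Good a s) (hN : NR a (a * s) (a * e) g r ty) :
    phi hN.half_hh hN.half_mark = gcl a s r h := by
  obtain ⟨Θ, t1, t2, t3, t4⟩ := hN.double_half
  unfold phi
  rw [gcl_eq_iff]
  refine ⟨Θ, t1, ?_, t4⟩
  intro z
  rw [Perm.mul_apply, t1, t2, Perm.mul_apply, h.inv]

/-- every class of the family is a class `phi`: `exists_NR`, `NR.half_hh`, `NR.half_mark`, `NR.double_half`, `NR.ltr_root` -/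
theorem phi_surj (c : GC) (ty : Ltr) (h : ∃ e : Perm c.rep.1.T, Refl c.rep.1.aa c.rep.1.s e ∧
      MTy c.rep.1.aa c.rep.1.s e (Sum.inr true) ty ∧ MRed c.rep.1.aa c.rep.1.s e (Sum.inr true)) :
    ∃ (T : Type) (_ : Fintype T) (_ : DecidableEq T) (a s : Perm T) (r : T) (μ : T → Ltr)
      (hH : HH a s r) (hM : Mark a s r μ), μ r = ty ∧ phi hH hM = c := by
  obtain ⟨e, he, ht, hr⟩ := h
  obtain ⟨g, hN⟩ := exists_NR c.rep.2 he ht hr
  exact ⟨_, inferInstance, inferInstance, hN.ha, hN.hs, hN.hr, _, hN.half_hh, hN.half_mark,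
    hN.ltr_root, (Phi_of_NR c.rep.2 hN).trans (gcl_rep c)⟩

private theorem Phi_prod (x y1 A : ℝ≥0∞) :
    ∏ t, lw x y1 A (μ t) = A ^ (univ.filter fun t => μ t = .C).card *
      x ^ (univ.filter fun t => μ t = .G).card * (x * y1) ^ (univ.filter fun t => μ t = .X).card := by
  have h : ∀ t, lw x y1 A (μ t) = (if μ t = .C then A else 1) * (if μ t = .G then x else 1) *
      (if μ t = .X then x * y1 else 1) := by
    intro t
    rcases h : μ t with _ | _ | _ | _ <;> simp [lw]
  rw [prod_congr rfl (fun t _ => h t), prod_mul_distrib, prod_mul_distrib, prod_ite, prod_ite,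
    prod_ite]
  simp

private theorem Phi_half (hH : HH a s r) (hM : Mark a s r μ) :
    ∃ f : T ≃ {x // x ∈ HP (dA a μ hH.inv) (dE a μ) (dG a μ)},
      (∀ t, f (a t) = (dbl_nr hH hM).ha (f t)) ∧ ∀ t, f (s t) = (dbl_nr hH hM).hs (f t) := by
  have hm : ∀ t, dup a μ t ∈ HP (dA a μ hH.inv) (dE a μ) (dG a μ) := fun t =>
    (dbl_HP hH hM _).2 ⟨t, rfl⟩
  have hb : Function.Bijective (fun t : T =>
      (⟨dup a μ t, hm t⟩ : {x // x ∈ HP (dA a μ hH.inv) (dE a μ) (dG a μ)})) := by
    constructor
    · intro t t' h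
      exact Sum.inl_injective (Subtype.ext_iff.1 h)
    · rintro ⟨z, hz⟩
      obtain ⟨t, rfl⟩ := (dbl_HP hH hM _).1 hz
      exact ⟨t, rfl⟩
  refine ⟨Equiv.ofBijective _ hb, ?_, ?_⟩
  · intro t
    rfl
  · intro t
    have hS : ∀ z, (Equiv.refl (DT a μ)) z ∈ upSet a μ ↔
        z ∈ HP (dA a μ hH.inv) (dE a μ) (dG a μ) := by
      intro z
      rw [dbl_HP hH hM]
      exact Phi_mem_up z
    have h1 := Phi_ret (Equiv.refl (DT a μ)) (σ := dS hH hM) (σ' := dS hH hM) (fun _ => rfl) hS
      ⟨dup a μ t, hm t⟩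
    have ht : dup a μ t ∈ upSet a μ := (Phi_mem_up _).2 ⟨t, rfl⟩
    have hst : dup a μ (s t) ∈ upSet a μ := (Phi_mem_up _).2 ⟨s t, rfl⟩
    have h2 := ret_double hH hM t ht hst
    apply Subtype.ext
    change dup a μ (s t) = (ret (dS hH hM) _ ⟨dup a μ t, hm t⟩).1
    change (ret (dS hH hM) _ ⟨dup a μ t, hm t⟩).1 = (ret (dS hH hM) (upSet a μ)
      ⟨dup a μ t, _⟩).1 at h1
    rw [h1]
    exact (congrArg Subtype.val h2).symm

/-- Proof: the weight does not depend on `e` (`refl_unique`) and on the representative (`RW_iso`).  For the double `N` and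
its dual `M`: `cAx (a * e) = cCr a e`, `cCr a (a * e) = cAx e`, `cBis` the same; `dbl_cAx`, `dbl_cCr`, `dbl_cBis`,
`two_nFix` for `M`: `nFix = #G + #X`; `NR.nF_half` for the double and `ret_double`, `dbl_HP` (the half of the double is the
half map): `nV = nFix + 2 (nV (a * s) - 1)`; number of darts of the double `2 |T| - 2 #C + 2 #X` (`card_half`). -/
theorem phi_weight (hH : HH a s r) (hM : Mark a s r μ) (x k y1 A y : ℝ≥0∞)
    {e : Perm (phi hH hM).rep.1.T} (he : Refl (phi hH hM).rep.1.aa (phi hH hM).rep.1.s e)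
    (ht : MTy (phi hH hM).rep.1.aa (phi hH hM).rep.1.s e (Sum.inr true) (μ r)) :
    RW x k y1 A y (phi hH hM).rep.1.aa (phi hH hM).rep.1.s e =
      k ^ (nV (a * s) - 1) * y ^ (Fintype.card T / 2) * ∏ t, lw x y1 A (μ t) := by
  obtain ⟨F, f1, f2, f3⟩ := gcl_iso (dA a μ hH.inv) (dA a μ hH.inv * dS hH hM) (dup a μ r)
    (dbl_good hH hM).dual
  have hu : e = (F.symm.trans (dA a μ hH.inv * dE a μ)).trans F := by
    refine refl_unique (ty := μ r) (phi hH hM).rep.2 he (Refl_iso F f1 f2 (Phi_refl hH hM)) ht ?_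
    have := MTy_iso F f1 f2 (Phi_ty hH hM)
    rwa [f3] at this
  have hRW : RW x k y1 A y (phi hH hM).rep.1.aa (phi hH hM).rep.1.s e =
      RW x k y1 A y (dA a μ hH.inv) (dA a μ hH.inv * dS hH hM) (dA a μ hH.inv * dE a μ) := by
    rw [hu]
    exact RW_iso F f1 f2 x k y1 A y
  rw [hRW]
  have hdi := Phi_dinv (μ := μ) hH
  have c1 : cAx (dA a μ hH.inv * dE a μ) = 2 * (univ.filter fun t => μ t = .X).card := by
    rw [← dbl_cCr hH hM]
    unfold cAx cCr
    congr 1
    ext z
    simp only [mem_filter, mem_univ, true_and, Perm.mul_apply]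
    constructor
    · intro h
      have h5 := congrArg (dA a μ hH.inv) h
      rw [hdi] at h5
      exact h5
    · intro h
      rw [h, hdi]
  have c2 : cCr (dA a μ hH.inv) (dA a μ hH.inv * dE a μ) =
      2 * (univ.filter fun t => μ t = .C).card := by
    rw [← dbl_cAx hH hM]
    unfold cAx cCr
    congr 1
    ext z
    simp only [mem_filter, mem_univ, true_and, Perm.mul_apply]
    exact (dA a μ hH.inv).injective.eq_iff
  have c3 : cBis (dA a μ hH.inv * dS hH hM) (dA a μ hH.inv * dE a μ) =
      2 * (univ.filter fun t => μ t = .G).card := by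
    rw [← dbl_cBis hH hM]
    unfold cBis
    congr 1
    ext z
    simp only [mem_filter, mem_univ, true_and, Perm.mul_apply]
    exact (dA a μ hH.inv).injective.eq_iff
  have hrM := Phi_refl hH hM
  have c4 := two_nFix hrM.es hrM.ee
  rw [c1, c3] at c4
  have hN := dbl_nr hH hM
  have c5 := hN.nF_half
  obtain ⟨f, g1, g2⟩ := Phi_half hH hM
  have c6 : nV (a * s) = nV (hN.ha * hN.hs) := by
    refine nV_iso f ?_
    intro t
    rw [Perm.mul_apply, Perm.mul_apply, g1, g2]
  rw [← c6] at c5
  have c7 := hN.card_half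
  rw [← Fintype.card_congr f, dbl_cCr hH hM, dbl_cAx hH hM] at c7
  have c8 : cAx (dA a μ hH.inv * dE a μ) + cCr (dA a μ hH.inv) (dA a μ hH.inv * dE a μ) ≤
      Fintype.card (DT a μ) := by
    unfold cAx cCr
    rw [← card_union_of_disjoint]
    · exact card_le_univ _
    · rw [disjoint_filter]
      intro z _ h1 h2
      exact dA_fpf hH z (h2.symm.trans h1)
  rw [c1, c2] at c8
  obtain ⟨m, hm⟩ := Phi_even hH.inv hH.fpf
  rw [Phi_prod]
  unfold RW
  rw [c1, c2]
  generalize (univ.filter fun t => μ t = .X).card = X at *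
  generalize (univ.filter fun t => μ t = .C).card = C at *
  generalize (univ.filter fun t => μ t = .G).card = G at *
  generalize nFix (dA a μ hH.inv * dS hH hM) (dA a μ hH.inv * dE a μ) = nf at *
  generalize nV (dA a μ hH.inv * dS hH hM) = nv at *
  generalize Fintype.card (DT a μ) = cd at *
  have e1 : nf = G + X := by omega
  have e2 : (nv - nf) / 2 = nV (a * s) - 1 := by omega
  have e3 : 2 * X / 2 = X := by omega
  have e4 : 2 * C / 2 = C := by omega
  have e5 : C + (cd - 2 * X - 2 * C) / 4 = Fintype.card T / 2 := by omega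
  rw [e3, e4, e5, e2, e1, mul_pow, pow_add]
  ring

end

/-- the dual of a good map is a half map -/
theorem hh_dual (M : GB) : HH M.1.aa (M.1.aa * M.1.s) (Sum.inr true) := by
  have h : Good M.1.aa (M.1.aa * M.1.s) := Good.dual M.2
  exact ⟨h.inv, h.fpf, h.ns, h.pl, fun t t' hne h1 h2 h3 => h.noPinch hne h1 (h2.symm.trans h3),
    h.noLoop⟩

/-- the half map with one edge -/
theorem hh_link : HH (Equiv.boolNot) (1 : Perm Bool) true where
  inv := by decide
  fpf := by decide
  ns := by
    intro A hA hne hu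
    exfalso
    apply hu
    obtain ⟨b, hb⟩ := hne
    ext c
    simp only [mem_univ, iff_true]
    by_cases h : c = b
    · rw [h]; exact hb
    · have h1 : c = Equiv.boolNot b := by
        revert h
        cases b <;> cases c <;> decide
      rw [h1]
      exact (hA b).2 hb
  pl := by
    intro p q _
    refine ⟨fun _ => 0, fun _ => rfl, fun t => ?_⟩
    simp only [Perm.one_apply, add_zero]
    exact (CharTwo.add_self_eq_zero _).symm
  np := by
    intro t t' hne h
    exact absurd (Perm.sameCycle_one.1 h) hne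
  nl := by
    intro t h
    have := Perm.sameCycle_one.1 h
    revert this
    cases t <;> decide

/-- a half map has one edge and two vertices (it is the link: if it has two darts then `s = 1` by `np`), or it is good -/
theorem hh_cases {T : Type} [Fintype T] [DecidableEq T] {a s : Perm T} {r : T} (h : HH a s r) :
    (Fintype.card T = 2 ∧ s = 1) ∨ Good a s := by
  by_cases hb : 4 ≤ Fintype.card T
  · exact Or.inr ⟨h.inv, h.fpf, h.ns, h.pl, hb⟩
  · left
    obtain ⟨m, hm⟩ := Phi_even h.inv h.fpf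
    have h0 : 0 < Fintype.card T := Fintype.card_pos_iff.2 ⟨r⟩
    have h2 : Fintype.card T = 2 := by omega
    refine ⟨h2, ?_⟩
    ext t
    rw [Perm.one_apply]
    by_contra hne
    have h3 : s t = a t := by
      by_contra hne'
      have h4 : ({t, a t, s t} : Finset T).card = 3 := by
        rw [card_insert_of_notMem, card_insert_of_notMem, card_singleton]
        · rw [mem_singleton]; exact fun h5 => hne' h5.symm
        · rw [mem_insert, mem_singleton]
          rintro (h5 | h5)
          · exact h.fpf t h5.symm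
          · exact hne h5.symm
      have h5 := card_le_univ ({t, a t, s t} : Finset T)
      omega
    exact h.nl t ⟨1, by simpa using h3⟩

end PGr

end

section
/-! # Module FanUq: isomorphisms of fans -/

set_option linter.unusedSectionVars false

namespace PGr
open Equiv Finset

/-- Isomorphic data give isomorphic fans (`GCo.iso_of`; the isomorphism `g` at `p` is `f 0` and is used for the root dart). -/
theorem FanD.iso_of {k : ℕ} {X X' : FanD k} {d : X.N0.1.D} {d' : X'.N0.1.D} (f : X.R ≃ X'.R)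
    (fa : ∀ t, f (X.a t) = X'.a (f t)) (fs : ∀ t, f (X.s t) = X'.s (f t)) (fp : f X.p = X'.p)
    (fK : ∀ x, f x ∈ X'.K ↔ x ∈ X.K)
    (fN : ∀ (x : X.R) (h : x ∈ X.K), BIso (X.N ⟨x, h⟩).1 (X'.N ⟨f x, (fK x).2 h⟩).1)
    (g : X.N0.1.T ≃ X'.N0.1.T) (ga : ∀ t, g (X.N0.1.aa t) = X'.N0.1.aa (g t))
    (gs : ∀ t, g (X.N0.1.s t) = X'.N0.1.s (g t)) (gr : g (Sum.inr true) = Sum.inr true)
    (gd : g (Sum.inl d) = Sum.inl d') :
    ∃ e : X.FT ≃ X'.FT, (∀ t, e (X.Fa t) = X'.Fa (e t)) ∧ (∀ t, e (X.Fs t) = X'.Fs (e t)) ∧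
      e (X.rt d) = X'.rt d' := by
  have grb : ∀ b, g (Sum.inr b) = Sum.inr b := by
    intro b
    cases b
    · have h1 := ga (Sum.inr true)
      rw [gr] at h1
      exact h1
    · exact gr
  have key : ∀ κ' : {x // x ∈ X'.K}, κ' = ⟨X'.p, X'.pK⟩ → ∃ g' : X.N0.1.T ≃ (X'.N κ').1.T,
      (∀ t, g' (X.N0.1.aa t) = (X'.N κ').1.aa (g' t)) ∧
      (∀ t, g' (X.N0.1.s t) = (X'.N κ').1.s (g' t)) ∧ (∀ b, g' (Sum.inr b) = Sum.inr b) ∧
      ∃ d₁, g' (Sum.inl d) = Sum.inl d₁ ∧ (Sum.inl ⟨κ', d₁⟩ : X'.FT) = X'.rt d' := by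
    rintro _ rfl
    exact ⟨g, ga, gs, grb, d', gd, rfl⟩
  have h0 : ∀ κ : {x // x ∈ X.K}, ∃ g₁ : (X.N κ).1.T ≃ (X'.N ⟨f κ.1, (fK _).2 κ.2⟩).1.T,
      (∀ t, g₁ ((X.N κ).1.aa t) = (X'.N ⟨f κ.1, (fK _).2 κ.2⟩).1.aa (g₁ t)) ∧
      (∀ t, g₁ ((X.N κ).1.s t) = (X'.N ⟨f κ.1, (fK _).2 κ.2⟩).1.s (g₁ t)) ∧
      (∀ b, g₁ (Sum.inr b) = Sum.inr b) ∧
      ∀ d₀ : (X.N κ).1.D, (Sum.inl ⟨κ, d₀⟩ : X.FT) = X.rt d →
        ∃ d₁, g₁ (Sum.inl d₀) = Sum.inl d₁ ∧
          (Sum.inl ⟨⟨f κ.1, (fK _).2 κ.2⟩, d₁⟩ : X'.FT) = X'.rt d' := by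
    intro κ
    by_cases hκ : κ = ⟨X.p, X.pK⟩
    · subst hκ
      obtain ⟨g', h1, h2, h3, d₁, h4, h5⟩ := key ⟨f X.p, (fK _).2 X.pK⟩ (Subtype.ext fp)
      refine ⟨g', h1, h2, h3, fun d₀ h6 => ?_⟩
      have h7 : d₀ = d := by
        have h8 : (⟨⟨X.p, X.pK⟩, d₀⟩ : Σ κ : {x // x ∈ X.K}, (X.N κ).1.D) = ⟨⟨X.p, X.pK⟩, d⟩ :=
          Sum.inl_injective h6
        exact eq_of_heq (Sigma.mk.inj_iff.1 h8).2
      rw [h7]
      exact ⟨d₁, h4, h5⟩
    · obtain ⟨g', h1, h2, h3⟩ := (CIso_false.2 (fN κ.1 κ.2)).choose_iso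
      refine ⟨g', h1, h2, fun b => (h3 b).trans (by cases b <;> rfl), fun d₀ h6 => ?_⟩
      exfalso
      have h8 : (⟨κ, d₀⟩ : Σ κ : {x // x ∈ X.K}, (X.N κ).1.D) = ⟨⟨X.p, X.pK⟩, d⟩ :=
        Sum.inl_injective h6
      exact hκ (Sigma.mk.inj_iff.1 h8).1
  choose g₁ h1 h2 h3 h4 using h0
  obtain ⟨e, e1, e2, -, e4⟩ := FanA_iso f fa fs fK g₁ h1 h2 h3
  refine ⟨e, e1, e2, ?_⟩
  obtain ⟨d₁, h5, h6⟩ := h4 ⟨X.p, X.pK⟩ d rfl
  rw [← h6]
  exact e4 _ _ _ h5

theorem FanUq_sc {T T' : Type*} [Fintype T] [DecidableEq T] (s : Perm T) (s' : Perm T')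
    (f : T → T') (hs : ∀ t, f (s t) = s' (f t)) {x y : T} (h : s.SameCycle x y) :
    s'.SameCycle (f x) (f y) := by
  obtain ⟨n, -, hn⟩ := h.exists_pow_eq'
  exact ⟨n, by rw [zpow_natCast, ← FanA_pow s s' f hs, hn]⟩

/-- the maximal sets are mapped to the maximal sets -/
theorem FanUq_part {k : ℕ} {X X' : FanD k} {d : X.N0.1.D} {d' : X'.N0.1.D} (hd : X.AtPole d)
    (hd' : X'.AtPole d') (e : X.FT ≃ X'.FT) (ha : ∀ t, e (X.Fa t) = X'.Fa (e t))
    (hs : ∀ t, e (X.Fs t) = X'.Fs (e t)) (he : e (X.rt d) = X'.rt d') :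
    ∃ eK : {x // x ∈ X.K} ≃ {x // x ∈ X'.K}, ∀ κ t,
      e t ∈ X'.C.part X'.N (eK κ) ↔ t ∈ X.C.part X.N κ := by
  obtain ⟨ρF, hr, hρ⟩ := X.exists_rot hd
  obtain ⟨ρF', hr', hρ'⟩ := X'.exists_rot hd'
  have hc := Rot.iso e ha hs hr
  rw [he] at hc
  have hM : ∀ A : Finset X.FT, (∃ κ, A.map e.toEmbedding = X'.C.part X'.N κ) ↔
      ∃ κ, A = X.C.part X.N κ := by
    intro A
    have h1 := MaxV.iso (ρ := ρF) (k := k) (r := X.rt d) e ha hs A
    rw [he, MaxV.indep X'.good hc hr', X'.maxV_iff hd' hr' hρ', X.maxV_iff hd hr hρ] at h1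
    exact h1
  have hne : ∀ (Y : FanD k) (κ : {x // x ∈ Y.K}), ∃ t, t ∈ Y.C.part Y.N κ := fun Y κ =>
    ⟨Sum.inl ⟨κ, fstD (Y.N κ) true⟩, (GCo.mem_part Y.C Y.N).2 ⟨_, rfl⟩⟩
  have hdisj : ∀ (Y : FanD k) (κ κ' : {x // x ∈ Y.K}) (t : Y.FT), t ∈ Y.C.part Y.N κ →
      t ∈ Y.C.part Y.N κ' → κ = κ' := by
    intro Y κ κ' t h1 h2
    obtain ⟨d₁, h3⟩ := (GCo.mem_part Y.C Y.N).1 h1
    obtain ⟨d₂, h4⟩ := (GCo.mem_part Y.C Y.N).1 h2
    have h5 : (⟨κ, d₁⟩ : Σ κ : {x // x ∈ Y.K}, (Y.N κ).1.D) = ⟨κ', d₂⟩ :=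
      Sum.inl_injective (h3.symm.trans h4)
    exact (Sigma.mk.inj_iff.1 h5).1
  choose φ hφ using fun κ => (hM (X.C.part X.N κ)).2 ⟨κ, rfl⟩
  have hmem : ∀ κ t, e t ∈ X'.C.part X'.N (φ κ) ↔ t ∈ X.C.part X.N κ := by
    intro κ t
    rw [← hφ, mem_map_equiv, Equiv.symm_apply_apply]
  have hbij : Function.Bijective φ := by
    constructor
    · intro κ κ' h
      obtain ⟨t, ht⟩ := hne X κ
      refine hdisj X κ κ' t ht ?_
      rw [← hmem, ← h, hmem]
      exact ht
    · intro κ'
      have h1 : ((X'.C.part X'.N κ').map e.symm.toEmbedding).map e.toEmbedding =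
          X'.C.part X'.N κ' := by
        ext t
        rw [mem_map_equiv, mem_map_equiv, Equiv.symm_symm, Equiv.apply_symm_apply]
      obtain ⟨κ, hκ⟩ := (hM _).1 ⟨κ', h1⟩
      refine ⟨κ, ?_⟩
      obtain ⟨t, ht⟩ := hne X κ
      refine hdisj X' _ _ (e t) ((hmem κ t).2 ht) ?_
      rw [← h1, hκ, mem_map_equiv, Equiv.symm_apply_apply]
      exact ht
  exact ⟨Equiv.ofBijective φ hbij, hmem⟩

/-- Conversely.  Proof: let `ρF`, `ρF'` be the rotations (`exists_rot`).  The conjugate of `ρF` by `e` is a rotation of the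
second fan about the same vertex (`Rot.iso`), so by `MaxV.indep`, `MaxV.iso` and `maxV_iff` `e` maps nets to nets.  `GCo.uniq` gives
the isomorphism of the stars and of the nets; the reversal bits are `false`, since `e` maps the new vertex to the new
vertex (its darts are in the nets at the pole `true`: `root_iff`).  The isomorphism `f` of `R` commutes with `a`; it commutes
with `s` and preserves `K`, because `gmap` commutes with the rotations of the stars.  The net containing the root is at
`p`: `f p = p'`. -/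
theorem FanD.uniq {k : ℕ} {X X' : FanD k} {d : X.N0.1.D} {d' : X'.N0.1.D} (hd : X.AtPole d)
    (hd' : X'.AtPole d') (e : X.FT ≃ X'.FT) (ha : ∀ t, e (X.Fa t) = X'.Fa (e t))
    (hs : ∀ t, e (X.Fs t) = X'.Fs (e t)) (he : e (X.rt d) = X'.rt d') :
    ∃ (f : X.R ≃ X'.R) (g : X.N0.1.T ≃ X'.N0.1.T), (∀ t, f (X.a t) = X'.a (f t)) ∧
      (∀ t, f (X.s t) = X'.s (f t)) ∧ f X.p = X'.p ∧ (∀ x, f x ∈ X'.K ↔ x ∈ X.K) ∧
      (∀ (x : X.R) (h : x ∈ X.K) (h' : f x ∈ X'.K), BIso (X.N ⟨x, h⟩).1 (X'.N ⟨f x, h'⟩).1) ∧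
      (∀ t, g (X.N0.1.aa t) = X'.N0.1.aa (g t)) ∧ (∀ t, g (X.N0.1.s t) = X'.N0.1.s (g t)) ∧
      g (Sum.inr true) = Sum.inr true ∧ g (Sum.inl d) = Sum.inl d' := by
  obtain ⟨eK, hp⟩ := FanUq_part hd hd' e ha hs he
  obtain ⟨eR, c, f, h1, h2, h3, h4, h5, h6, h7⟩ := GCo.uniq X.C_good X'.C_good e ha hs eK hp
  -- no reversal
  have hc : ∀ i, c i = false := by
    intro i
    have k1 : (X.N i).1.s.SameCycle (Sum.inr true) (Sum.inl (fstD (X.N i) true)) := by
      rw [← fstD_spec]; exact CompVAux.sc_apply _ _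
    have k2 : X.Fs.SameCycle (X.rt d) (Sum.inl ⟨i, fstD (X.N i) true⟩) :=
      (X.root_iff hd _).2 ⟨i, _, rfl, k1⟩
    have k3 := FanUq_sc X.Fs X'.Fs e hs k2
    obtain ⟨g', hg'⟩ := GIso_net (f i) (h6 i)
    have k4 := (h7 i _ _).2 (hg' (fstD (X.N i) true))
    rw [he, k4, X'.root_iff hd'] at k3
    obtain ⟨κ, d₁, k5, k6⟩ := k3
    have k7 : (⟨eK i, g' (fstD (X.N i) true)⟩ : Σ κ : {x // x ∈ X'.K}, (X'.N κ).1.D) = ⟨κ, d₁⟩ :=
      Sum.inl_injective k5
    obtain ⟨k8, k9⟩ := Sigma.mk.inj_iff.1 k7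
    subst k8
    have k10 := eq_of_heq k9
    subst k10
    have k11 := FanUq_sc (X.N i).1.s (X'.N (eK i)).1.s (f i) (h5 i) k1
    rw [h6, hg'] at k11
    have k12 := CompVAux.root_uniq (X'.N (eK i)) (Perm.SameCycle.refl _ (Sum.inr true))
      (k6.trans k11.symm)
    cases hci : c i
    · rfl
    · rw [hci] at k12
      simp at k12
  -- `K`
  have hKmem : ∀ (q : X.R) (hq : q ∈ X.K), ∃ h' : eR q ∈ X'.K, eK ⟨q, hq⟩ = ⟨eR q, h'⟩ := by
    intro q hq
    have k1 := h2 (Sum.inr q)
    have k2 : X.C.s (Sum.inr q) = Sum.inl (⟨q, hq⟩, false) := starC_inr_mem X.a X.s X.K hq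
    have k3 : gmap eK eR c (Sum.inr q) = (Sum.inr (eR q) : X'.C.T) := rfl
    rw [k2, k3] at k1
    by_cases hq' : eR q ∈ X'.K
    · refine ⟨hq', ?_⟩
      have k4 : X'.C.s (Sum.inr (eR q)) = Sum.inl (⟨eR q, hq'⟩, false) :=
        starC_inr_mem X'.a X'.s X'.K hq'
      rw [k4] at k1
      have k5 : (Sum.inl (eK ⟨q, hq⟩, xor (c ⟨q, hq⟩) false) : X'.C.T) =
        Sum.inl (⟨eR q, hq'⟩, false) := k1
      exact congrArg Prod.fst (Sum.inl_injective k5)
    · exfalso
      have k4 : X'.C.s (Sum.inr (eR q)) = Sum.inr (X'.s (eR q)) :=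
        starC_inr_not_mem X'.a X'.s X'.K hq'
      rw [k4] at k1
      have k5 : (Sum.inl (eK ⟨q, hq⟩, xor (c ⟨q, hq⟩) false) : X'.C.T) =
        Sum.inr (X'.s (eR q)) := k1
      simp at k5
  have hKnot : ∀ q : X.R, q ∉ X.K → eR q ∉ X'.K ∧ eR (X.s q) = X'.s (eR q) := by
    intro q hq
    have k1 := h2 (Sum.inr q)
    have k2 : X.C.s (Sum.inr q) = Sum.inr (X.s q) := starC_inr_not_mem X.a X.s X.K hq
    have k3 : gmap eK eR c (Sum.inr q) = (Sum.inr (eR q) : X'.C.T) := rfl
    rw [k2, k3] at k1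
    by_cases hq' : eR q ∈ X'.K
    · exfalso
      have k4 : X'.C.s (Sum.inr (eR q)) = Sum.inl (⟨eR q, hq'⟩, false) :=
        starC_inr_mem X'.a X'.s X'.K hq'
      rw [k4] at k1
      have k5 : (Sum.inr (eR (X.s q)) : X'.C.T) = Sum.inl (⟨eR q, hq'⟩, false) := k1
      simp at k5
    · refine ⟨hq', ?_⟩
      have k4 : X'.C.s (Sum.inr (eR q)) = Sum.inr (X'.s (eR q)) :=
        starC_inr_not_mem X'.a X'.s X'.K hq'
      rw [k4] at k1
      exact Sum.inr_injective k1
  have hKs : ∀ (q : X.R), q ∈ X.K → eR (X.s q) = X'.s (eR q) := by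
    intro q hq
    obtain ⟨hq', k0⟩ := hKmem q hq
    have k1 := h2 (Sum.inl (⟨q, hq⟩, false))
    have k2 : X.C.s (Sum.inl (⟨q, hq⟩, false)) = Sum.inr (X.s q) :=
      starC_false X.a X.s X.K ⟨q, hq⟩
    have k3 : gmap eK eR c (Sum.inl (⟨q, hq⟩, false)) =
        (Sum.inl (⟨eR q, hq'⟩, false) : X'.C.T) := by
      show Sum.inl (eK ⟨q, hq⟩, xor (c ⟨q, hq⟩) false) = (Sum.inl (⟨eR q, hq'⟩, false) : X'.C.T)
      rw [k0, hc]
      rfl
    have k4 : X'.C.s (Sum.inl (⟨eR q, hq'⟩, false)) = Sum.inr (X'.s (eR q)) :=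
      starC_false X'.a X'.s X'.K ⟨eR q, hq'⟩
    rw [k2, k3, k4] at k1
    exact Sum.inr_injective k1
  -- the net of the root
  have hpp : eK ⟨X.p, X.pK⟩ = ⟨X'.p, X'.pK⟩ := by
    have k1 : X.rt d ∈ X.C.part X.N ⟨X.p, X.pK⟩ := (GCo.mem_part X.C X.N).2 ⟨d, rfl⟩
    rw [← hp, he] at k1
    obtain ⟨d₁, k2⟩ := (GCo.mem_part X'.C X'.N).1 k1
    have k3 : (⟨⟨X'.p, X'.pK⟩, d'⟩ : Σ κ : {x // x ∈ X'.K}, (X'.N κ).1.D) =
      ⟨eK ⟨X.p, X.pK⟩, d₁⟩ := Sum.inl_injective k2
    exact (Sigma.mk.inj_iff.1 k3).1.symm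
  have key : ∀ κ' : {x // x ∈ X'.K}, κ' = ⟨X'.p, X'.pK⟩ → ∀ g' : X.N0.1.T ≃ (X'.N κ').1.T,
      (∀ t, g' (X.N0.1.aa t) = (X'.N κ').1.aa (g' t)) →
      (∀ t, g' (X.N0.1.s t) = (X'.N κ').1.s (g' t)) → (∀ b, g' (Sum.inr b) = Sum.inr b) →
      (∀ d₁, g' (Sum.inl d) = Sum.inl d₁ → (Sum.inl ⟨κ', d₁⟩ : X'.FT) = X'.rt d') →
      ∃ g : X.N0.1.T ≃ X'.N0.1.T, (∀ t, g (X.N0.1.aa t) = X'.N0.1.aa (g t)) ∧
        (∀ t, g (X.N0.1.s t) = X'.N0.1.s (g t)) ∧
        g (Sum.inr true) = Sum.inr true ∧ g (Sum.inl d) = Sum.inl d' := by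
    rintro _ rfl g' k1 k2 k3 k4
    obtain ⟨g₂, hg₂⟩ := GIso_net (c := false) g' (fun b => (k3 b).trans (by cases b <;> rfl))
    refine ⟨g', k1, k2, k3 true, ?_⟩
    have k5 := k4 _ (hg₂ d)
    have k6 : (⟨⟨X'.p, X'.pK⟩, g₂ d⟩ : Σ κ : {x // x ∈ X'.K}, (X'.N κ).1.D) =
      ⟨⟨X'.p, X'.pK⟩, d'⟩ := Sum.inl_injective k5
    rw [hg₂, eq_of_heq (Sigma.mk.inj_iff.1 k6).2]
  have h6' : ∀ i b, f i (Sum.inr b) = Sum.inr b := by
    intro i b
    rw [h6, hc]
    cases b <;> rfl
  obtain ⟨g, g1, g2, g3, g4⟩ := key (eK ⟨X.p, X.pK⟩) hpp (f ⟨X.p, X.pK⟩) (h4 _) (h5 _) (h6' _)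
    (fun d₁ hd₁ => ((h7 ⟨X.p, X.pK⟩ d d₁).2 hd₁).symm.trans he)
  refine ⟨eR, g, h1, ?_, ?_, ?_, ?_, g1, g2, g3, g4⟩
  · intro t
    by_cases ht : t ∈ X.K
    · exact hKs t ht
    · exact (hKnot t ht).2
  · obtain ⟨h', k1⟩ := hKmem X.p X.pK
    rw [hpp] at k1
    exact (congrArg Subtype.val k1).symm
  · intro x
    constructor
    · intro hx
      by_contra hcon
      exact (hKnot x hcon).1 hx
    · intro hx
      exact (hKmem x hx).1
  · intro x hx hx'
    obtain ⟨h', k1⟩ := hKmem x hx
    have k2 : BIso (X.N ⟨x, hx⟩).1 (X'.N (eK ⟨x, hx⟩)).1 :=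
      ⟨f ⟨x, hx⟩, h4 _, h5 _, h6' _ true⟩
    rw [k1] at k2
    exact k2

end PGr

end

section
/-! # Module FanW: numbers of vertices, faces, darts and poles of a fan -/

set_option linter.unusedSectionVars false

namespace PGr
open Equiv Finset

namespace FanD
variable {k : ℕ} (X : FanD k) {d : X.N0.1.D} {ρF : Perm X.FT}

theorem FanW_sc_eq {T : Type*} {g : Perm T} {x y z : T} (h : g.SameCycle x y) (e : y = z) :
    g.SameCycle x z := e ▸ h

theorem FanW_dgs_sc {T : Type*} [Fintype T] [DecidableEq T] {s : Perm T} {x y : T}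
    (h : s.SameCycle x y) : dgs s x = dgs s y := by
  obtain ⟨n, hn⟩ := h.exists_nat_pow_eq
  have key : ∀ m, (s ^ m) x = x ↔ (s ^ m) y = y := by
    intro m
    rw [← hn, ← Perm.mul_apply, ← pow_add, add_comm m n, pow_add, Perm.mul_apply,
      (s ^ n).injective.eq_iff]
  refine Nat.dvd_antisymm ?_ ?_
  · rw [← Poles_dgs, key, Poles_dgs]
  · rw [← Poles_dgs, ← key, Poles_dgs]

/-- the rotation maps no net to itself -/
theorem FanW_part (hd : X.AtPole d) (hr : Rot X.Fa X.Fs ρF k (X.rt d))
    (h : ∀ t, ρF (Sum.inr t) = Sum.inr (X.ρ t)) {κ : {x // x ∈ X.K}} {d' d'' : (X.N κ).1.D}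
    (he : ρF (Sum.inl ⟨κ, d'⟩) = Sum.inl ⟨κ, d''⟩) : False := by
  have h1 := (X.rot_part hd hr h κ (Sum.inl ⟨κ, d'⟩)).2 ((GCo.mem_part X.C X.N).2 ⟨d', rfl⟩)
  rw [he] at h1
  obtain ⟨e, h2⟩ := (GCo.mem_part X.C X.N (i := (⟨X.ρ κ.1, (X.inv κ.1).2 κ.2⟩ : {x // x ∈ X.K}))).1 h1
  have h3 : X.ρ κ.1 = κ.1 := by
    have h4 := congrArg Sigma.fst (Sum.inl.inj h2)
    exact (congrArg Subtype.val h4).symm
  exact X.rot.free κ.1 1 one_pos (by have := X.rot.k2; omega) (by simpa using h3)

/-- `GCo.F_nV`, `star_nV` -/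
theorem nV_eq : nV X.Fs + 2 * X.K.card = nV X.s + 1 + ∑ κ, nV (X.N κ).1.s := by 
  have h1 := GCo.F_nV X.C X.N X.C_good
  have h2 : nV X.C.s = nV X.s + 1 := star_nV X.pK X.face
  rw [h2] at h1
  have h3 : Fintype.card X.C.K = X.K.card := Fintype.card_coe _
  rw [h3] at h1
  exact h1

theorem card_eq : Fintype.card X.FT = (∑ κ, Fintype.card (X.N κ).1.D) + Fintype.card X.R := by
  
  exact GCo.F_card X.C X.N

/-- Euler's formula for a nonseparable planar map with at least one edge (`Pl_iff_euler`, one component) -/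
theorem _root_.PGr.NP.euler {T : Type*} [Fintype T] [DecidableEq T] {a s : Perm T} (h : NP a s)
    (hne : Nonempty T) : nV s + nV (a * s) = Fintype.card T / 2 + 2 := by 
  classical
  rw [(Pl_iff_euler h.inv h.fpf).mp h.pl]
  obtain ⟨t₀⟩ := hne
  suffices nComp a s = 1 by omega
  rw [nComp, Nat.card_eq_one_iff_unique]
  have htr : ∀ t t' : T, ∃ g : Subgroup.closure {a, s}, g • t' = t := by
    intro t t'
    set A : Finset T := univ.filter fun x => ∃ g : Subgroup.closure {a, s}, g • t' = x with hA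
    have hmem : ∀ (σ : Perm T), σ ∈ Subgroup.closure {a, s} → ∀ x, (σ x ∈ A ↔ x ∈ A) := by
      intro σ hσ x
      simp only [hA, mem_filter, mem_univ, true_and]
      constructor
      · rintro ⟨g, hg⟩
        refine ⟨⟨σ, hσ⟩⁻¹ * g, ?_⟩
        rw [mul_smul, hg]
        change σ⁻¹ (σ x) = x
        simp
      · rintro ⟨g, hg⟩
        refine ⟨⟨σ, hσ⟩ * g, ?_⟩
        rw [mul_smul, hg]
        rfl
    have hcl : Cl a A := hmem a (Subgroup.subset_closure (by simp))
    have hs := hmem s (Subgroup.subset_closure (by simp))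
    have hcut : cut s A = 0 := by
      rw [cut, card_eq_zero, bd, filter_eq_empty_iff]
      intro x _
      rw [not_not]
      exact (hs x).symm
    have hne : A.Nonempty :=
      ⟨t', by simp only [hA, mem_filter, mem_univ, true_and]; exact ⟨1, one_smul _ _⟩⟩
    have hu : A = univ := by
      by_contra hcon
      have := h.ns A hcl hne hcon
      omega
    have : t ∈ A := by rw [hu]; exact mem_univ _
    simpa [hA] using this
  constructor
  · constructor
    intro x y
    induction x using Quotient.inductionOn with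
    | h x =>
      induction y using Quotient.inductionOn with
      | h y => exact Quotient.sound (htr x y)
  · exact ⟨Quotient.mk _ t₀⟩

/-- `nV_eq` and Euler's formula for the fan, for `R` and for the nets -/
theorem nF_eq : nV (X.Fa * X.Fs) + X.K.card + 1 =
    nV (X.a * X.s) + ∑ κ, nV ((X.N κ).1.aa * (X.N κ).1.s) := by 
  have hg := X.good
  have e1 := hg.euler
  have e2 := X.np.euler ⟨X.p⟩
  have e3 := X.nV_eq
  have e4 := X.card_eq
  have ev : ∀ {T : Type} [Fintype T] [DecidableEq T] {a : Perm T}, (∀ t, a (a t) = t) →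
      (∀ t, a t ≠ t) → Fintype.card T = 2 * (Fintype.card T / 2) := by
    intro T _ _ a h1 h2
    have := Euler_finrank_inv h1 h2
    omega
  have evR := ev X.np.inv X.np.fpf
  have hN : ∀ κ : {x // x ∈ X.K}, nV (X.N κ).1.s + nV ((X.N κ).1.aa * (X.N κ).1.s) =
      Fintype.card (X.N κ).1.D / 2 + 3 ∧
      Fintype.card (X.N κ).1.D = 2 * (Fintype.card (X.N κ).1.D / 2) := by
    intro κ
    have h1 := (X.N κ).2.euler
    have h2 := ev (X.N κ).2.inv (X.N κ).2.fpf
    have h3 : Fintype.card (X.N κ).1.T = Fintype.card (X.N κ).1.D + 2 := by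
      rw [Fintype.card_sum, Fintype.card_bool]
    omega
  have s1 : ∑ κ, nV (X.N κ).1.s + ∑ κ, nV ((X.N κ).1.aa * (X.N κ).1.s) =
      ∑ κ, (Fintype.card (X.N κ).1.D / 2) + 3 * X.K.card := by
    rw [← sum_add_distrib, sum_congr rfl fun κ _ => (hN κ).1, sum_add_distrib, sum_const,
      card_univ, Fintype.card_coe, smul_eq_mul, mul_comm X.K.card 3]
  have s2 : ∑ κ, Fintype.card (X.N κ).1.D = 2 * ∑ κ, (Fintype.card (X.N κ).1.D / 2) := by
    rw [mul_sum]
    exact sum_congr rfl fun κ _ => (hN κ).2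
  have h5 : Fintype.card X.FT / 2 = ∑ κ, (Fintype.card (X.N κ).1.D / 2) + Fintype.card X.R / 2 := by
    omega
  omega

/-- `GCo.F_dg` for the new vertex, whose darts are the darts `inl (κ, true)` of the star (`star_root`) -/
theorem dg_eq (hd : X.AtPole d) :
    dgs X.Fs (X.rt d) + X.K.card = ∑ κ, dgs (X.N κ).1.s (Sum.inr true) := by 
  classical
  have h1 : X.Fs.SameCycle (gjump X.C X.N (Sum.inl (⟨X.p, X.pK⟩, true))) (X.rt d) :=
    GCo.sc_pole X.C X.N hd.symm
  rw [FanW_dgs_sc h1.symm, GCo.F_dg X.C X.N X.C_good]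
  have h2 : ∑ y ∈ (univ : Finset X.C.T).filter
      (fun y => X.C.s.SameCycle (Sum.inl (⟨X.p, X.pK⟩, true)) y), X.C.wt X.N y =
      ∑ κ : X.C.K, X.C.wt X.N (Sum.inl (κ, true)) := by
    symm
    refine sum_bij (fun κ _ => (Sum.inl (κ, true) : X.C.T)) ?_ ?_ ?_ (fun _ _ => rfl)
    · intro κ _
      rw [mem_filter]
      exact ⟨mem_univ _, star_root X.face _ _⟩
    · intro κ _ κ' _ h
      simpa using h
    · intro y hy
      rw [mem_filter] at hy
      have hy := hy.2
      rcases y with ⟨κ, _ | _⟩ | y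
      · exfalso
        exact star_sc_ne _ _ (hy.trans ((star_sc_spoke κ κ.1).2 (Perm.SameCycle.refl _ _)))
      · exact ⟨κ, mem_univ _, rfl⟩
      · exact absurd hy (star_sc_ne _ _)
  rw [h2]
  have h3 : ∀ κ : X.C.K, X.C.wt X.N (Sum.inl (κ, true)) + 1 =
      dgs (X.N κ).1.s (Sum.inr true) := by
    intro κ
    show dgs (X.N κ).1.s (Sum.inr true) - 1 + 1 = _
    have := Poles_dgs_pos (X.N κ).1.s (Sum.inr true)
    omega
  have h4 : Fintype.card X.C.K = X.K.card := Fintype.card_coe _
  have h5 : ∑ κ : X.C.K, dgs (X.N κ).1.s (Sum.inr true) =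
      ∑ κ : X.C.K, X.C.wt X.N (Sum.inl (κ, true)) + X.K.card := by
    rw [← sum_congr rfl fun κ _ => h3 κ, sum_add_distrib, sum_const, card_univ, h4,
      smul_eq_mul, mul_one]
  exact h5.symm

/-- The poles: no power of `ρF` maps a net to itself, so the other pole is a vertex, a face, an edge of `R`.  A fixed
vertex not the new one contains a dart `inr t` (a vertex inside a net is mapped into another net; a vertex of the star
different from the new one contains such a dart), and `sc_inr`. -/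
theorem pv_iff (hd : X.AtPole d) (hr : Rot X.Fa X.Fs ρF k (X.rt d))
    (h : ∀ t, ρF (Sum.inr t) = Sum.inr (X.ρ t)) :
    PV X.Fs ρF (X.rt d) ↔ ∃ x, X.s.SameCycle x (X.ρ x) := by 
  constructor
  · rintro ⟨x, hx, hx'⟩
    rcases x with ⟨κ, d'⟩ | t
    · by_cases h1 : (X.N κ).1.s.SameCycle (Sum.inr true) (Sum.inl d')
      · exact absurd ((X.root_iff hd _).2 ⟨κ, d', rfl, h1⟩) hx
      · by_cases h2 : (X.N κ).1.s.SameCycle (Sum.inr false) (Sum.inl d')
        · have h3 := X.sc_false κ h2
          have h4 := Poles_sc_of hr.rs hx' h3.symm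
          exact ⟨κ.1, (X.sc_inr _ _).1 (FanW_sc_eq h4 (h κ.1))⟩
        · exfalso
          obtain ⟨d'', h3, _⟩ := (GCo.sc_inner X.C X.N (i := κ) (d := d') (by
            rintro (_ | _) h3
            · exact h2 h3.symm
            · exact h1 h3.symm) _).1 hx'
          exact X.FanW_part hd hr h h3
    · rw [h] at hx'
      exact ⟨t, (X.sc_inr _ _).1 hx'⟩
  · rintro ⟨x, hx⟩
    refine ⟨Sum.inr x, fun h1 => ?_, ?_⟩
    · obtain ⟨κ, d', h2, _⟩ := (X.root_iff hd _).1 h1
      simp at h2
    · exact FanW_sc_eq ((X.sc_inr _ _).2 hx) (h x).symm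

theorem pe_iff (hd : X.AtPole d) (hr : Rot X.Fa X.Fs ρF k (X.rt d))
    (h : ∀ t, ρF (Sum.inr t) = Sum.inr (X.ρ t)) : PE X.Fa ρF ↔ PE X.a X.ρ := by 
  constructor
  · rintro ⟨x, hx⟩
    rcases x with ⟨κ, d'⟩ | t
    · exfalso
      exact X.FanW_part hd hr h (κ := κ) (d' := d') (d'' := (X.N κ).1.a d') hx
    · have h1 : X.Fa (Sum.inr t) = Sum.inr (X.a t) := rfl
      exact ⟨t, Sum.inr.inj ((h t).symm.trans (hx.trans h1))⟩
  · rintro ⟨x, hx⟩
    exact ⟨Sum.inr x, (h x).trans (congrArg Sum.inr hx)⟩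

/-- If a face of `R` which is not the face of `p` is fixed, it is a face of the fan (its corners are not in `K`).
Conversely, by the trichotomy (`Rot.trichotomy` for the fan and, if `R` has at least 4 darts, for the dual of `R`; if
`R` has two darts, then `ρ` reverses its only edge and both sides are false): if `PF` holds for the fan, then `PV` and `PE`
do not, so by `pv_iff`, `pe_iff` the other pole of `R` (different from the face of `p`) is not a vertex and not an edge, so it is a face. -/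
theorem pf_iff (hd : X.AtPole d) (hr : Rot X.Fa X.Fs ρF k (X.rt d))
    (h : ∀ t, ρF (Sum.inr t) = Sum.inr (X.ρ t)) :
    PF X.Fa X.Fs ρF ↔ ∃ x, ¬ (X.a * X.s).SameCycle X.p x ∧ (X.a * X.s).SameCycle x (X.ρ x) := by
  
  classical
  have hinvs : X.a * (X.a * X.s) = X.s := by
    ext t; simp [X.np.inv]
  constructor
  · intro hF
    have h1 := hr.trichotomy X.good
    have h2 : ¬ PV X.Fs ρF (X.rt d) ∧ ¬ PE X.Fa ρF := by tauto
    rw [X.pv_iff hd hr h, X.pe_iff hd hr h] at h2
    obtain ⟨h2, h3⟩ := h2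
    have hk2 := X.rot.k2
    by_cases hc : 4 ≤ Fintype.card X.R
    · have hg : Good X.a X.s := ⟨X.np.inv, X.np.fpf, X.np.ns, X.np.pl, hc⟩
      have h4 := X.rot.trichotomy hg.dual
      have h5 : ¬ PF X.a (X.a * X.s) X.ρ := by
        rintro ⟨x, hx⟩
        rw [hinvs] at hx
        exact h2 ⟨x, hx⟩
      have h6 : PV (X.a * X.s) X.ρ X.p := by tauto
      exact h6
    · exfalso
      refine h3 ⟨X.p, ?_⟩
      have h4 : X.ρ X.p ≠ X.p := by
        intro h5
        exact X.rot.free X.p 1 one_pos (by omega) (by simpa using h5)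
      by_contra h5
      have h6 : ({X.p, X.a X.p, X.ρ X.p} : Finset X.R).card = 3 := by
        rw [card_insert_of_notMem, card_insert_of_notMem, card_singleton]
        · simpa using fun h => h5 h.symm
        · simp only [mem_insert, mem_singleton, not_or]
          exact ⟨fun h => X.np.fpf X.p h.symm, fun h => h4 h.symm⟩
      have h7 := card_le_univ ({X.p, X.a X.p, X.ρ X.p} : Finset X.R)
      have h8 := Euler_finrank_inv X.np.inv X.np.fpf
      omega
  · rintro ⟨x, hx, hx'⟩
    obtain ⟨n, hn⟩ := hx'.exists_nat_pow_eq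
    have key : ∀ n : ℕ, ((X.Fa * X.Fs) ^ n) (Sum.inr x) = Sum.inr (((X.a * X.s) ^ n) x) := by
      intro n
      induction n with
      | zero => rfl
      | succ n ih =>
      rw [pow_succ', Perm.mul_apply, ih, pow_succ' _ n, Perm.mul_apply]
      set y := ((X.a * X.s) ^ n) x with hy
      have hxy : (X.a * X.s).SameCycle x y := ⟨n, by rw [zpow_natCast]⟩
      have hyK : y ∉ X.K := fun hy' => hx ((X.face y hy').trans hxy.symm)
      have h1 : X.Fs (Sum.inr y) = Sum.inr (X.s y) := by
        show gjump X.C X.N (X.C.s (Sum.inr y)) = _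
        rw [starC_inr_not_mem _ _ _ hyK]
        rfl
      exact congrArg X.Fa h1
    refine ⟨Sum.inr x, FanW_sc_eq ⟨n, ?_⟩ (h x).symm⟩
    rw [zpow_natCast, key, hn]

end FanD

end PGr

end

section
/-! # Module FanWt: the weight of a fan -/

set_option linter.unusedSectionVars false

namespace PGr
open Equiv Finset
open scoped ENNReal Classical

namespace FanWt

section two
variable {T : Type*} [Fintype T] [DecidableEq T] {a ρ : Perm T} {p : T}

theorem same (hall : ∀ t, t = p ∨ t = a p) (t : T) : a.SameCycle p t := by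
  rcases hall t with h | h
  · rw [h]
  · rw [h]
    exact ⟨1, by simp⟩

theorem rho (hinv : ∀ t, a (a t) = t) (hfpf : a p ≠ p) (hall : ∀ t, t = p ∨ t = a p)
    (hρ : ρ p = a p) (t : T) : ρ t = a t := by
  rcases hall t with h | h
  · rw [h, hρ]
  · rw [h, hinv]
    rcases hall (ρ (a p)) with h1 | h1
    · exact h1
    · rw [← hρ] at h1
      have h2 := ρ.injective h1
      rw [hρ] at h2
      exact absurd h2 hfpf

theorem nFix_a (hinv : ∀ t, a (a t) = t) (hfpf : a p ≠ p) (hall : ∀ t, t = p ∨ t = a p)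
    (hρ : ρ p = a p) : nFix a ρ = 1 := by
  unfold nFix
  rw [Nat.card_eq_one_iff_unique]
  refine ⟨⟨?_⟩, ⟨⟨Quotient.mk _ p, p, rfl, ?_⟩⟩⟩
  · rintro ⟨q, t, rfl, -⟩ ⟨q', t', rfl, -⟩
    refine Subtype.ext (Quotient.sound ?_)
    exact (same hall t).symm.trans (same hall t')
  · rw [hρ]
    exact ⟨1, by simp⟩

theorem nFix_one (hinv : ∀ t, a (a t) = t) (hfpf : a p ≠ p) (hall : ∀ t, t = p ∨ t = a p)
    (hρ : ρ p = a p) : nFix (1 : Perm T) ρ = 0 := by
  unfold nFix
  rw [Nat.card_eq_zero]
  left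
  refine ⟨?_⟩
  rintro ⟨q, t, -, ht⟩
  rw [Perm.sameCycle_one, rho hinv hfpf hall hρ] at ht
  rcases hall t with h | h
  · rw [h] at ht
    exact hfpf ht.symm
  · rw [h, hinv] at ht
    exact hfpf ht

theorem nV_a (hall : ∀ t, t = p ∨ t = a p) : nV a = 1 := by
  unfold nV
  rw [Nat.card_eq_one_iff_unique]
  refine ⟨⟨?_⟩, ⟨Quotient.mk _ p⟩⟩
  intro q q'
  induction q using Quotient.inductionOn with
  | h t =>
    induction q' using Quotient.inductionOn with
    | h t' => exact Quotient.sound ((same hall t).symm.trans (same hall t'))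

theorem card_two (hfpf : a p ≠ p) (hall : ∀ t, t = p ∨ t = a p) : Fintype.card T = 2 := by
  have h : (univ : Finset T) = {p, a p} := by
    ext t
    simp only [mem_univ, mem_insert, mem_singleton, true_iff]
    exact hall t
  rw [← card_univ, h, card_pair (Ne.symm hfpf)]

theorem nV_one (hfpf : a p ≠ p) (hall : ∀ t, t = p ∨ t = a p) : nV (1 : Perm T) = 2 := by
  rw [← card_two hfpf hall]
  unfold nV
  rw [← Nat.card_eq_fintype_card]
  symm
  refine Nat.card_eq_of_bijective (fun t : T => (Quotient.mk _ t : Quotient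
    (Perm.SameCycle.setoid (1 : Perm T)))) ⟨?_, ?_⟩
  · intro t t' h
    have h1 : (1 : Perm T).SameCycle t t' := Quotient.exact h
    rwa [Perm.sameCycle_one] at h1
  · intro q
    obtain ⟨t, ht⟩ := Quotient.exists_rep q
    exact ⟨t, ht⟩

theorem dgs_a (hfpf : a p ≠ p) (hall : ∀ t, t = p ∨ t = a p) : dgs a p = 2 := by
  unfold dgs
  rw [minimalPeriod_eq_card]
  have h : (univ.filter fun y => a.SameCycle p y) = univ := by
    ext t
    simp only [mem_filter, mem_univ, true_and, iff_true]
    exact same hall t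
  rw [h, card_univ]
  exact card_two hfpf hall

end two

/-- a nonseparable map with a rotation about the face of `p` which has less than 4 darts is the link -/
theorem small {T : Type*} [Fintype T] [DecidableEq T] {a s ρ : Perm T} {k : ℕ} {p : T}
    (hn : NP a s) (hr : Rot a (a * s) ρ k p) (hc : Fintype.card T < 4) :
    (∀ t, t = p ∨ t = a p) ∧ s = 1 ∧ ρ p = a p := by
  have hall : ∀ t, t = p ∨ t = a p := by
    intro t
    by_contra h
    rw [not_or] at h
    have h2 : ({p, a p, t, a t} : Finset T).card = 4 := by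
      have n1 : p ≠ a p := fun h1 => hn.fpf p h1.symm
      have n2 : p ≠ t := fun h1 => h.1 h1.symm
      have n3 : p ≠ a t := fun h1 => h.2 (by rw [h1, hn.inv])
      have n4 : a p ≠ t := fun h1 => h.2 h1.symm
      have n5 : a p ≠ a t := fun h1 => n2 (a.injective h1)
      have n6 : t ≠ a t := fun h1 => hn.fpf t h1.symm
      rw [card_insert_of_notMem, card_insert_of_notMem, card_insert_of_notMem, card_singleton]
      · simpa using n6
      · simp [n4, n5]
      · simp [n1, n2, n3]
    have h3 := card_le_univ ({p, a p, t, a t} : Finset T)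
    omega
  have hρ : ρ p = a p := by
    rcases hall (ρ p) with h | h
    · exact absurd h (by simpa using hr.free p 1 one_pos hr.k2)
    · exact h
  have hsp : s p = p := by
    rcases hall (s p) with h | h
    · exact h
    · exfalso
      have h1 : (a * s) p = p := by rw [Perm.mul_apply, h, hn.inv]
      have h2 := hr.root
      rw [hρ] at h2
      obtain ⟨n, hn'⟩ := h2
      rw [Perm.zpow_apply_eq_self_of_apply_eq_self h1] at hn'
      exact hn.fpf p hn'.symm
  refine ⟨hall, ?_, hρ⟩
  ext t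
  rcases hall t with h | h
  · rw [h, hsp]
    rfl
  · rw [h]
    rcases hall (s (a p)) with h1 | h1
    · exfalso
      have h2 : s (a p) = s p := by rw [h1, hsp]
      exact hn.fpf p (s.injective h2)
    · rw [h1]
      rfl

end FanWt

namespace FanD
variable {k : ℕ} (X : FanD k)

theorem FanWt_aas : X.a * (X.a * X.s) = X.s := Equiv.ext fun t => X.np.inv (X.s t)

/-- the fixed cells of the fan and of `R` -/
theorem FanWt_fix {d : X.N0.1.D} (hd : X.AtPole d) {ρF : Perm X.FT}
    (hr : Rot X.Fa X.Fs ρF k (X.rt d)) (h : ∀ t, ρF (Sum.inr t) = Sum.inr (X.ρ t)) :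
    nFix X.Fs ρF = nFix X.s X.ρ + 1 ∧ nFix (X.Fa * X.Fs) ρF + 1 = nFix (X.a * X.s) X.ρ ∧
      nFix X.Fa ρF = nFix X.a X.ρ := by
  have hv := X.pv_iff hd hr h
  have he := X.pe_iff hd hr h
  have hf := X.pf_iff hd hr h
  have ht := Rot.trichotomy X.good hr
  by_cases hc : 4 ≤ Fintype.card X.R
  · have hg : Good X.a X.s := ⟨X.np.inv, X.np.fpf, X.np.ns, X.np.pl, hc⟩
    have ht' := Rot.trichotomy (Good.dual hg) X.rot
    have h1 : PV (X.a * X.s) X.ρ X.p ↔ PF X.Fa X.Fs ρF := hf.symm
    have h2 : PF X.a (X.a * X.s) X.ρ ↔ PV X.Fs ρF (X.rt d) := by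
      rw [hv]
      unfold PF
      rw [X.FanWt_aas]
    rw [h1, h2, ← he, X.FanWt_aas] at ht'
    rcases ht with ⟨a1, a2, a3, a4, a5, a6⟩ | ⟨a1, a2, a3, a4, a5, a6⟩ | ⟨a1, a2, a3, a4, a5, a6⟩ <;>
    rcases ht' with ⟨b1, b2, b3, b4, b5, b6⟩ | ⟨b1, b2, b3, b4, b5, b6⟩ |
      ⟨b1, b2, b3, b4, b5, b6⟩ <;>
    first
    | exact absurd b1 a2
    | exact absurd a1 b2
    | exact absurd a3 b3
    | exact absurd b3 a3
    | exact absurd a1 b1
    | exact absurd b1 a1
    | exact absurd a2 b1
    | exact absurd b2 a1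
    | exact absurd a2 b2
    | exact absurd b2 a2
    | (refine ⟨?_, ?_, ?_⟩ <;> omega)
  · obtain ⟨hall, hs, hρ⟩ := FanWt.small X.np X.rot (by omega)
    have hfp := X.np.fpf X.p
    have n1 : nFix X.a X.ρ = 1 := FanWt.nFix_a X.np.inv hfp hall hρ
    have n2 : nFix X.s X.ρ = 0 := by
      rw [hs]
      exact FanWt.nFix_one X.np.inv hfp hall hρ
    have n3 : nFix (X.a * X.s) X.ρ = 1 := by
      rw [hs, mul_one]
      exact n1
    have hpe : PE X.Fa ρF := he.2 ⟨X.p, hρ⟩
    rcases ht with ⟨a1, a2, a3, a4, a5, a6⟩ | ⟨a1, a2, a3, a4, a5, a6⟩ | ⟨a1, a2, a3, a4, a5, a6⟩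
    · exact absurd hpe a3
    · exact absurd hpe a3
    · rw [n1, n2, n3, a4, a5, a6]
      exact ⟨rfl, rfl, rfl⟩

end FanD

/-- Proof: `exists_rot`, `wV_gcl`; the exponents: `nV_eq`, `nF_eq`, `card_eq`, `dg_eq`; the numbers of fixed cells by
`Rot.trichotomy` for the fan and `pv_iff`, `pe_iff`, `pf_iff` (the vertices of `R` fixed by `ρ`: `nFix X.s X.ρ` is 1 if there is one,
at most one; and so on; if `R` has at least 4 darts this is `Rot.trichotomy` for the dual of `R`; if it has 2 darts, then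
`X.s = 1`, `ρ` is the exchange, `nFix s ρ = 0`, `nFix a ρ = 1`, `nFix (a * s) ρ = 1`). -/
theorem FanD.wV_cls {k : ℕ} (X : FanD k) {d : X.N0.1.D} (hd : X.AtPole d)
    (S F Y kv kf ke Z : ℝ≥0∞) :
    wV k S F Y kv kf ke Z (X.cls d).rep.1 =
      wR F S Y kf kv ke 1 X.a (X.a * X.s) X.ρ X.p * ∏ κ, nw S F Y Z (X.N κ).1 := by
  obtain ⟨ρF, hr, h⟩ := X.exists_rot hd
  have e1 : wV k S F Y kv kf ke Z (X.cls d).rep.1 =
      wR S F Y kv kf ke Z X.Fa X.Fs ρF (X.rt d) := wV_gcl S F Y kv kf ke Z X.good hr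
  rw [e1]
  obtain ⟨f1, f2, f3⟩ := X.FanWt_fix hd hr h
  have v := X.nV_eq
  have f := X.nF_eq
  have c := X.card_eq
  have g := X.dg_eq hd
  -- sums over the nets
  have hK : X.K.card = ∑ κ : {x // x ∈ X.K}, 1 := by
    rw [sum_const, card_univ, Fintype.card_coe, smul_eq_mul, mul_one]
  have s1 : ∑ κ, nV (X.N κ).1.s = ∑ κ, (nV (X.N κ).1.s - 2) + 2 * X.K.card := by
    rw [hK, mul_sum, ← sum_add_distrib]
    refine sum_congr rfl fun κ _ => ?_
    have := Good.two_le_nV (X.N κ).2
    omega
  have s2 : ∑ κ, nV ((X.N κ).1.aa * (X.N κ).1.s) =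
      ∑ κ, (nV ((X.N κ).1.aa * (X.N κ).1.s) - 1) + X.K.card := by
    rw [hK, ← sum_add_distrib]
    refine sum_congr rfl fun κ _ => ?_
    have : 2 ≤ nV ((X.N κ).1.aa * (X.N κ).1.s) := Good.two_le_nV (X.N κ).2.dual
    omega
  have s3 : ∑ κ, Fintype.card (X.N κ).1.D = 2 * ∑ κ, (Fintype.card (X.N κ).1.D / 2) := by
    rw [mul_sum]
    refine sum_congr rfl fun κ _ => ?_
    obtain ⟨n, -, hn⟩ := card_D_even (X.N κ).2
    omega
  have s4 : ∑ κ, dgs (X.N κ).1.s (Sum.inr true) = ∑ κ, pd (X.N κ).1 + X.K.card := by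
    rw [hK, ← sum_add_distrib]
    refine sum_congr rfl fun κ _ => ?_
    have := pd_pos (X.N κ)
    unfold pd at this ⊢
    omega
  -- bounds
  have hle : ∀ {T : Type} [Fintype T] [DecidableEq T] (σ ρ : Perm T), nFix σ ρ ≤ nV σ := by
    intro T _ _ σ ρ
    unfold nFix nV
    exact Nat.card_le_card_of_injective Subtype.val Subtype.val_injective
  have b1 := hle X.s X.ρ
  have b2 := hle (X.a * X.s) X.ρ
  have b3 : nFix X.a X.ρ ≤ Fintype.card X.R / 2 := by
    have h1 : 2 ≤ Fintype.card X.R := by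
      have h2 := card_le_univ ({X.p, X.a X.p} : Finset X.R)
      rwa [card_pair (Ne.symm (X.np.fpf X.p))] at h2
    rcases Rot.trichotomy X.good hr with ⟨-, -, -, -, -, a6⟩ | ⟨-, -, -, -, -, a6⟩ |
      ⟨-, -, -, -, -, a6⟩ <;> omega
  have x1 : nV X.Fs - nFix X.Fs ρF = (nV X.s - nFix X.s X.ρ) + ∑ κ, (nV (X.N κ).1.s - 2) := by
    omega
  have x2 : nV (X.Fa * X.Fs) - nFix (X.Fa * X.Fs) ρF =
      (nV (X.a * X.s) - nFix (X.a * X.s) X.ρ) +
        ∑ κ, (nV ((X.N κ).1.aa * (X.N κ).1.s) - 1) := by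
    omega
  have x3 : Fintype.card X.FT / 2 - nFix X.Fa ρF =
      (Fintype.card X.R / 2 - nFix X.a X.ρ) + ∑ κ, (Fintype.card (X.N κ).1.D / 2) := by
    rw [c, s3, f3]
    omega
  have x4 : dgs X.Fs (X.rt d) = ∑ κ, pd (X.N κ).1 := by omega
  have x5 : nFix X.Fs ρF - 1 = nFix X.s X.ρ := by omega
  have x6 : nFix (X.Fa * X.Fs) ρF = nFix (X.a * X.s) X.ρ - 1 := by omega
  unfold wR nw
  rw [x1, x2, x3, x4, x5, x6, f3, X.FanWt_aas, prod_mul_distrib, prod_mul_distrib,
    prod_mul_distrib, prod_pow_eq_pow_sum, prod_pow_eq_pow_sum, prod_pow_eq_pow_sum,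
    prod_pow_eq_pow_sum, pow_add, pow_add, pow_add, one_pow]
  ring

theorem FanD.isNB_cls {k : ℕ} (X : FanD k) {d : X.N0.1.D} (hd : X.AtPole d) :
    IsNB k (X.cls d).rep.1 := by
  obtain ⟨ρF, hr, h⟩ := X.exists_rot hd
  exact (isNB_gcl X.good hr).2 (X.not_bd hd hr h)

/-- number of darts of a fan -/
theorem FanD.card_cls {k : ℕ} (X : FanD k) {d : X.N0.1.D} :
    Fintype.card (X.cls d).rep.1.T = (∑ κ, Fintype.card (X.N κ).1.D) + Fintype.card X.R := by
  obtain ⟨e, -, -, -⟩ := gcl_iso X.Fa X.Fs (X.rt d) X.good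
  rw [← X.card_eq]
  exact (Fintype.card_congr e).symm

/-- the weight of the link as a map with a rotation about its face -/
theorem wR_link (S F Y kv kf ke Z : ℝ≥0∞) :
    wR F S Y kf kv ke Z (Equiv.boolNot : Perm Bool) (Equiv.boolNot * 1) Equiv.boolNot true =
      ke * S ^ 2 * Z ^ 2 := by
  have hinv : ∀ t, (Equiv.boolNot : Perm Bool) (Equiv.boolNot t) = t := by simp
  have hfp : (Equiv.boolNot : Perm Bool) true ≠ true := by simp
  have hall : ∀ t, t = true ∨ t = (Equiv.boolNot : Perm Bool) true := by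
    intro t
    cases t <;> simp
  have h1 : (Equiv.boolNot : Perm Bool) * (Equiv.boolNot * 1) = 1 := by
    ext t
    simp
  have n1 := FanWt.nFix_a (ρ := (Equiv.boolNot : Perm Bool)) hinv hfp hall rfl
  have n2 := FanWt.nFix_one (ρ := (Equiv.boolNot : Perm Bool)) hinv hfp hall rfl
  have n3 := FanWt.nV_a (a := (Equiv.boolNot : Perm Bool)) hall
  have n4 := FanWt.nV_one hfp hall
  have n5 := FanWt.dgs_a hfp hall
  unfold wR
  rw [h1, mul_one, n1, n2, n3, n4, n5, Fintype.card_bool]
  simp
  ring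

end PGr

end
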