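import Pool.Agent.PGc.RigLe
import Pool.Agent.PGm.M06
import Pool.Agent.PGr.CompInj
import Pool.Agent.PGr.CompIso
import Pool.Agent.PGr.CompV
import Pool.Agent.PGr.ESum
import Pool.Agent.PGr.ParProps
import Pool.Agent.PGr.SerExcl

section
/-!
# Equivariant decomposition: definitions

`TwI m c M N φ`: `φ` is an isomorphism of rooted maps, up to a mirror image (`m`) and up to reversal
of the root edge (`c`).  A reflection of `M` with the root edge crossing the axis is a `TwI true true M M e`,
a reflection with the root edge on the axis is a `TwI true false M M e`.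
-/

set_option linter.unusedSectionVars false

namespace PGr
open Equiv Finset
open scoped ENNReal

/-- the rotation, inverted if `m` is true -/
def twS {T : Type} (m : Bool) (s : Perm T) : Perm T := if m then s⁻¹ else s

/-- exchange the two root darts if `c` is true -/
def rf (D : Type) (c : Bool) : Perm (D ⊕ Bool) :=
  Perm.sumCongr 1 (if c then Equiv.boolNot else 1)

/-- twisted isomorphism of rooted maps -/
structure TwI (m c : Bool) (M N : BMap) (φ : M.T ≃ N.T) : Prop where
  aa : ∀ t, φ (M.aa t) = N.aa (φ t)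
  rot : ∀ t, φ (M.s t) = twS m N.s (φ t)
  root : ∀ b, φ (Sum.inr b) = Sum.inr (xor c b)

/-- the mirror image (`m`), with reversed root edge (`c`) -/
def twM (m c : Bool) (M : BMap) : BMap where
  D := M.D
  a := M.a
  s := rf M.D c * twS m M.s * rf M.D c

/-! ### Weights -/

/-- weights of: a dart on the axis, a bisected corner, a dart crossing the axis, a vertex, a dart -/
structure Wt where
  ax : ℝ≥0∞
  bi : ℝ≥0∞
  cr : ℝ≥0∞
  vx : ℝ≥0∞
  dt : ℝ≥0∞

/-- number of nonroot darts on the axis -/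
def nAx (M : BMap) (e : Perm M.T) : ℕ :=
  (univ.filter fun d : M.D => e (Sum.inl d) = Sum.inl d).card

/-- number of nonroot darts crossing the axis -/
def nCr (M : BMap) (e : Perm M.T) : ℕ :=
  (univ.filter fun d : M.D => e (Sum.inl d) = Sum.inl (M.a d)).card

/-- number of bisected corners -/
def nBi (M : BMap) (e : Perm M.T) : ℕ := (univ.filter fun t : M.T => e t = M.s t).card

/-- the weight of a rooted map with a reflection; the root edge and its ends are not weighted -/
noncomputable def Vw (w : Wt) (M : BMap) (e : Perm M.T) : ℝ≥0∞ :=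
  w.ax ^ nAx M e * w.bi ^ nBi M e * w.cr ^ nCr M e * w.vx ^ (nV M.s - 2) *
    w.dt ^ Fintype.card M.D

/-- the weight of one map of a pair of mirror images -/
noncomputable def hW (w : Wt) (M : BMap) : ℝ≥0∞ :=
  w.vx ^ (nV M.s - 2) * w.dt ^ Fintype.card M.D

/-- an invariant set of edges with cut 4 and ends on the axis, without the root edge, different from
the set of all nonroot edges -/
structure AxSet (M : BMap) (e : Perm M.T) (A : Finset M.T) : Prop where
  cl : Cl M.aa A
  inv : ∀ t ∈ A, e t ∈ A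
  cut4 : cut M.s A = 4
  root : Sum.inr true ∉ A
  rest : A ∪ M.root ≠ univ
  ends : ∀ t ∈ bd M.s A, M.s.SameCycle t (e t)

/-- reduced: all these sets are single edges -/
def ARed (M : BMap) (e : Perm M.T) : Prop := ∀ A, AxSet M e A → A.card = 2

/-- weight of `M` if it has a reflection with root type `c` and is reduced -/
noncomputable def sw (w : Wt) (c : Bool) (M : BMap) : ℝ≥0∞ := by
  classical
  exact ∑ e : Perm M.T, if TwI true c M M e ∧ ARed M e then Vw w M e else 0

/-- reduced maps with crossing root edge -/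
noncomputable def EC (w : Wt) : ℝ≥0∞ := ∑' x : GC, sw w true x.rep.1

/-- the same, not parallel -/
noncomputable def NpC (w : Wt) : ℝ≥0∞ := by
  classical
  exact ∑' x : GC, if ¬ IsPar x.rep.1 then sw w true x.rep.1 else 0

/-- the same, not series -/
noncomputable def NsC (w : Wt) : ℝ≥0∞ := by
  classical
  exact ∑' x : GC, if ¬ IsSer x.rep.1 then sw w true x.rep.1 else 0

/-- pairs of nets -/
noncomputable def e2 (w : Wt) : ℝ≥0∞ := Es (w.vx ^ 2) (w.dt ^ 4)
noncomputable def fN (w : Wt) : ℝ≥0∞ := Esel (w.vx ^ 2) (w.dt ^ 4) (fun M => ¬ IsSer M)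
noncomputable def fP (w : Wt) : ℝ≥0∞ := Esel (w.vx ^ 2) (w.dt ^ 4) (fun M => ¬ IsPar M)

/-- the contribution of the composites with rigid core; `E` is the weight of a net on an edge
crossing the axis -/
noncomputable def RigS (w : Wt) (c : Bool) (E : ℝ≥0∞) : ℝ≥0∞ := by
  classical
  exact ∑' x : GC, ∑ ψ : Perm x.rep.1.T, if Rigid x.rep.1 ∧ TwI true c x.rep.1 x.rep.1 ψ then
    w.bi ^ nBi x.rep.1 ψ * w.vx ^ (nV x.rep.1.s - 2) *
      (w.ax ^ 2 * w.dt ^ 2) ^ (nAx x.rep.1 ψ / 2) * E ^ (nCr x.rep.1 ψ / 2) *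
      e2 w ^ ((Fintype.card x.rep.1.D - nAx x.rep.1 ψ - nCr x.rep.1 ψ) / 4) else 0

/-! ### Composites -/

/-- `e` is a twisted isomorphism of composites which induces the twisted isomorphism `ψ` of the cores
and twisted isomorphisms of the nets -/
structure CTw (m c : Bool) (C C' : Core) (N : C.I → GB) (N' : C'.I → GB)
    (ψ : C.toB.T ≃ C'.toB.T) (e : (comp C N).T ≃ (comp C' N').T) : Prop where
  core : TwI m c C.toB C'.toB ψ
  tw : TwI m c (comp C N) (comp C' N') e
  nets : ∀ i b i' b', ψ (Sum.inl (i, b)) = Sum.inl (i', b') →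
    ∃ φ : (N i).1.T ≃ (N' i').1.T, TwI m (xor b b') (N i).1 (N' i').1 φ ∧
      ∀ d d', φ (Sum.inl d) = Sum.inl d' → e (CompInj.dt N i d) = CompInj.dt N' i' d'

/-- the core of the mirror image (`m`), with reversed root edge (`c`) -/
def twCore (m c : Bool) (C : Core) : Core where
  I := C.I
  s := rf (C.I × Bool) c * twS m C.s * rf (C.I × Bool) c

/-- a set of darts of the net `i` as a set of darts of the composite -/
noncomputable def upS {C : Core} (N : C.I → GB) (i : C.I) (B : Finset (N i).1.D) :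
    Finset (comp C N).T :=
  B.map ⟨CompInj.dt N i, fun _ _ h => CompInj.dt_inj N h⟩

/-- a set of nonroot darts as a set of darts -/
def dn {M : BMap} (B : Finset M.D) : Finset M.T := B.map ⟨Sum.inl, Sum.inl_injective⟩

/-- weight if there is a reflection with root type `c` (not necessarily reduced) -/
noncomputable def sv (w : Wt) (c : Bool) (M : BMap) : ℝ≥0∞ := by
  classical
  exact ∑ e : Perm M.T, if TwI true c M M e then Vw w M e else 0

/-- weight of the net on the edge `i` of a core with the reflection `ψ` -/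
noncomputable def pv (w : Wt) (C : Core) (ψ : Perm C.toB.T) (i : C.I) (M : BMap) : ℝ≥0∞ := by
  classical
  exact if ψ (Sum.inl (i, true)) = Sum.inl (i, true) then sv w false M else
    if ψ (Sum.inl (i, true)) = Sum.inl (i, false) then sv w true M else hW w M

/-- the same for reduced maps -/
noncomputable def qv (w : Wt) (C : Core) (ψ : Perm C.toB.T) (i : C.I) (M : BMap) : ℝ≥0∞ := by
  classical
  exact if ψ (Sum.inl (i, true)) = Sum.inl (i, true) then
      (if Fintype.card M.D = 2 then w.ax ^ 2 * w.dt ^ 2 else 0) else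
    if ψ (Sum.inl (i, true)) = Sum.inl (i, false) then sw w true M else hW w M

/-- the core of the dual of a composite -/
def ddCore (C : Core) : Core where
  I := C.I
  s := Perm.sumCongr 1 Equiv.boolNot * C.s *
    Perm.sumCongr (Equiv.prodCongr (Equiv.refl C.I) Equiv.boolNot) 1

/-- the cycle of length 4: edges `0`, `1`, `2` and the root edge -/
def quad : Core where
  I := Fin 3
  s := swap (Sum.inr true) (Sum.inl (0, true)) * swap (Sum.inl (0, false)) (Sum.inl (1, true)) *
    swap (Sum.inl (1, false)) (Sum.inl (2, true)) * swap (Sum.inl (2, false)) (Sum.inr false)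

/-- three nets -/
def nets3 (N₀ N₁ N₂ : GB) : Fin 3 → GB
  | 0 => N₀
  | 1 => N₁
  | 2 => N₂

/-! ### Classes -/

noncomputable def serC (a b : GC) : GC := ESum.cl ⟨serMap a.rep b.rep, serMap_good _ _⟩
noncomputable def parC (a b : GC) : GC := ESum.cl ⟨parMap a.rep b.rep, parMap_good _ _⟩
noncomputable def dC (a : GC) : GC := ESum.cl a.rep.dual

/-- the class of the digon -/
noncomputable def digC : GC := ESum.cl ⟨digonB, digon_good⟩

/-- the class of the composite of an index -/
noncomputable def ixC (p : RigLe.Ix) : GC :=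
  ESum.cl ⟨comp (ESum.core p.1) (fun i => (p.2 i).rep), comp_good _ _ (ESum.core_good p.1)⟩

/-- weight of `M` if it has a reflection with root edge on the axis, is reduced, and the dart before
the root dart is not on the axis -/
noncomputable def swX (w : Wt) (M : BMap) : ℝ≥0∞ := by
  classical
  exact ∑ e : Perm M.T, if TwI true false M M e ∧ ARed M e ∧
    e (M.s⁻¹ (Sum.inr true)) ≠ M.s⁻¹ (Sum.inr true) then Vw w M e else 0

end PGr

end

section
/-! # Module Tw: twisted isomorphisms -/

set_option linter.unusedSectionVars false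

namespace PGr
open Equiv Finset
open scoped ENNReal

section
variable {T : Type}

@[simp] theorem twS_false (s : Perm T) : twS false s = s := rfl
@[simp] theorem twS_true (s : Perm T) : twS true s = s⁻¹ := rfl

theorem twS_inv (m : Bool) (s : Perm T) : (twS m s)⁻¹ = twS m s⁻¹ := by
  cases m <;> simp

theorem twS_twS (m m' : Bool) (s : Perm T) : twS m (twS m' s) = twS (xor m m') s := by
  cases m <;> cases m' <;> simp

theorem twS_inv' (m : Bool) (s : Perm T) : twS (!m) s = (twS m s)⁻¹ := by
  cases m <;> simp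

theorem rf_inl {D : Type} (c : Bool) (d : D) : rf D c (Sum.inl d) = Sum.inl d := rfl
theorem rf_inr {D : Type} (c b : Bool) : rf D c (Sum.inr b) = Sum.inr (xor c b) := by
  cases c <;> cases b <;> rfl

theorem rf_rf {D : Type} (c : Bool) (t : D ⊕ Bool) : rf D c (rf D c t) = t := by
  rcases t with d | b
  · rfl
  · rw [rf_inr, rf_inr]; cases c <;> cases b <;> rfl

theorem rf_sq {D : Type} (c : Bool) : rf D c * rf D c = 1 := by
  ext t : 1
  exact rf_rf c t

theorem rf_invp {D : Type} (c : Bool) : (rf D c)⁻¹ = rf D c :=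
  inv_eq_of_mul_eq_one_left (rf_sq c)

theorem inr_bool {D : Type} (a : Perm D) (b : Bool) : ext a (Sum.inr b) = Sum.inr (!b) := rfl

end

theorem TwI.refl (M : BMap) : TwI false false M M (Equiv.refl _) :=
  ⟨fun _ => rfl, fun _ => rfl, fun b => by cases b <;> rfl⟩

theorem TwI.rot' {m c : Bool} {M N : BMap} {φ : M.T ≃ N.T} (h : TwI m c M N φ) (t : M.T) :
    φ (M.s⁻¹ t) = (twS m N.s)⁻¹ (φ t) := by
  have h1 := h.rot (M.s⁻¹ t)
  have h2 : M.s (M.s⁻¹ t) = t := by simp
  rw [h2] at h1
  rw [h1]
  simp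

/-- the rotation of the image in terms of the inverted rotation of the source -/
theorem TwI.rot2 {m c : Bool} {M N : BMap} {φ : M.T ≃ N.T} (h : TwI m c M N φ) (t : M.T) :
    φ (twS m M.s t) = N.s (φ t) := by
  cases m
  · exact h.rot t
  · have h1 := h.rot' t
    rw [twS_true, inv_inv] at h1
    exact h1

theorem TwI.symm {m c : Bool} {M N : BMap} {φ : M.T ≃ N.T} (h : TwI m c M N φ) :
    TwI m c N M φ.symm := by
  refine ⟨fun t => ?_, fun t => ?_, fun b => ?_⟩
  · rw [Equiv.symm_apply_eq, h.aa, Equiv.apply_symm_apply]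
  · rw [Equiv.symm_apply_eq, h.rot2, Equiv.apply_symm_apply]
  · rw [Equiv.symm_apply_eq, h.root]
    cases c <;> cases b <;> rfl

theorem TwI.trans {m c m' c' : Bool} {M N K : BMap} {φ : M.T ≃ N.T} {χ : N.T ≃ K.T}
    (h : TwI m c M N φ) (h' : TwI m' c' N K χ) :
    TwI (xor m m') (xor c c') M K (φ.trans χ) := by
  refine ⟨fun t => ?_, fun t => ?_, fun b => ?_⟩
  · simp only [Equiv.trans_apply]
    rw [h.aa, h'.aa]
  · simp only [Equiv.trans_apply]
    rw [h.rot]
    cases m
    · rw [twS_false, h'.rot, Bool.false_xor]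
    · rw [twS_true]
      have h1 := h'.rot' (φ t)
      rw [h1]
      cases m' <;> simp
  · simp only [Equiv.trans_apply]
    rw [h.root, h'.root]
    cases c <;> cases c' <;> cases b <;> rfl

theorem BIso_iff {M N : BMap} : BIso M N ↔ ∃ φ, TwI false false M N φ := by
  constructor
  · rintro ⟨φ, h1, h2, h3⟩
    refine ⟨φ, h1, h2, fun b => ?_⟩
    cases b
    · have h4 := h1 (Sum.inr true)
      rw [h3] at h4
      exact h4
    · exact h3
  · rintro ⟨φ, h⟩
    exact ⟨φ, h.aa, h.rot, h.root true⟩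

theorem twM_tw (m c : Bool) (M : BMap) : TwI m c M (twM m c M) (rf M.D c) := by
  have key : twS m (twM m c M).s = rf M.D c * M.s * rf M.D c := by
    cases m
    · rfl
    · show (rf M.D c * M.s⁻¹ * rf M.D c)⁻¹ = _
      rw [mul_inv_rev, mul_inv_rev, inv_inv, rf_invp, mul_assoc]
  refine ⟨fun t => ?_, fun t => ?_, fun b => ?_⟩
  · rcases t with d | b
    · rfl
    · show rf M.D c (Sum.inr (!b)) = ext M.a (rf M.D c (Sum.inr b))
      rw [rf_inr, rf_inr]
      cases c <;> cases b <;> rfl
  · rw [key]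
    show rf M.D c (M.s t) = rf M.D c (M.s (rf M.D c (rf M.D c t)))
    rw [rf_rf]
  · exact rf_inr c b

theorem TwI.biso {m c : Bool} {M N : BMap} {φ : M.T ≃ N.T} (h : TwI m c M N φ) :
    BIso (twM m c M) N := by
  rw [BIso_iff]
  refine ⟨_, by simpa using (twM_tw m c M).symm.trans h⟩

theorem TwI_iff {m c : Bool} {M N : BMap} : (∃ φ, TwI m c M N φ) ↔ BIso (twM m c M) N := by
  refine ⟨fun ⟨φ, h⟩ => h.biso, fun h => ?_⟩
  obtain ⟨χ, h⟩ := BIso_iff.1 h
  exact ⟨_, by simpa using (twM_tw m c M).trans h⟩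

theorem bd_inv {T : Type} [Fintype T] [DecidableEq T] (s : Perm T) (A : Finset T) :
    bd s⁻¹ A = (bd s A).map s.toEmbedding := by
  ext t
  simp only [bd, mem_filter, mem_univ, true_and, mem_map_equiv]
  have h : s (s.symm t) = t := s.apply_symm_apply t
  rw [h]
  show ¬ (t ∈ A ↔ s.symm t ∈ A) ↔ _
  tauto

theorem cut_twS {T : Type} [Fintype T] [DecidableEq T] (m : Bool) (s : Perm T) (A : Finset T) :
    cut (twS m s) A = cut s A := by
  cases m
  · rfl
  · rw [twS_true, cut, cut, bd_inv, card_map]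

theorem Pl_inv {T : Type} [Fintype T] [DecidableEq T] {a s : Perm T} (hinv : ∀ t, a (a t) = t)
    (h : Pl a s) : Pl a s⁻¹ := by
  intro p q hpq
  obtain ⟨f, h1, h2⟩ := h p (fun t => q (a t)) (fun t => by
    have h3 := hpq (s t)
    have h4 : s⁻¹ (s t) = t := by simp
    rw [h4] at h3
    rw [hinv]
    exact h3.symm)
  refine ⟨f, h1, fun t => ?_⟩
  have h3 := h2 (s⁻¹ t)
  have h4 : s (s⁻¹ t) = t := by simp
  rw [h4] at h3
  rw [add_comm, h3, add_comm]

theorem Good_twS {T : Type} [Fintype T] [DecidableEq T] {a s : Perm T} (m : Bool)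
    (h : Good a s) : Good a (twS m s) := by
  cases m
  · exact h
  · refine ⟨h.inv, h.fpf, fun A hA hne hu => ?_, Pl_inv h.inv h.pl, h.big⟩
    have := h.ns A hA hne hu
    rw [← cut_twS true] at this
    exact this

theorem TwI.good {m c : Bool} {M N : BMap} {φ : M.T ≃ N.T} (h : TwI m c M N φ)
    (hM : M.IsGood) : N.IsGood := by
  have h1 : Good M.aa (twS m M.s) := Good_twS m hM
  exact Good_iso φ h.aa (fun t => h.rot2 t) h1

theorem twM_good (m c : Bool) (M : GB) : (twM m c M.1).IsGood := (twM_tw m c M.1).good M.2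

/-- the mirror image (`m`), with reversed root edge (`c`) -/
def twG (m c : Bool) (M : GB) : GB := ⟨twM m c M.1, twM_good m c M⟩

noncomputable def twC (m c : Bool) (x : GC) : GC := ESum.cl (twG m c x.rep)

theorem cl_eq_iff {M N : GB} : ESum.cl M = ESum.cl N ↔ BIso M.1 N.1 :=
  ⟨ESum.iso_of_mk, fun h => Quotient.sound h⟩

theorem cl_rep (x : GC) : ESum.cl x.rep = x := Quotient.out_eq x

/-- `M` and its twisted image -/
theorem tw_cl_iff {m c : Bool} {M : GB} {x : GC} :
    twC m c (ESum.cl M) = x ↔ ∃ φ, TwI m c M.1 x.rep.1 φ := by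
  conv_lhs => rw [← cl_rep x]
  unfold twC
  rw [cl_eq_iff]
  obtain ⟨χ, hχ⟩ := BIso_iff.1 (ESum.rep_iso M)
  constructor
  · intro h
    obtain ⟨φ, hφ⟩ := TwI_iff.2 h
    exact ⟨_, by simpa using hχ.symm.trans hφ⟩
  · rintro ⟨φ, hφ⟩
    exact TwI_iff.1 ⟨_, by simpa using hχ.trans hφ⟩

theorem twC_cl (m c : Bool) (M : GB) : twC m c (ESum.cl M) = ESum.cl (twG m c M) := by
  rw [tw_cl_iff]
  obtain ⟨χ, hχ⟩ := BIso_iff.1 (ESum.rep_iso (twG m c M))
  exact ⟨_, by simpa using (twM_tw m c M.1).trans hχ.symm⟩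

theorem twC_eq_iff {m c : Bool} {x y : GC} :
    twC m c x = y ↔ ∃ φ, TwI m c x.rep.1 y.rep.1 φ := by
  conv_lhs => rw [← cl_rep x]
  rw [tw_cl_iff]

theorem twC_twC (m c m' c' : Bool) (x : GC) :
    twC m c (twC m' c' x) = twC (xor m m') (xor c c') x := by
  obtain ⟨φ, h⟩ := twC_eq_iff.1 (rfl : twC m' c' x = twC m' c' x)
  obtain ⟨χ, h'⟩ := twC_eq_iff.1 (rfl : twC m c (twC m' c' x) = twC m c (twC m' c' x))
  symm
  rw [twC_eq_iff]
  refine ⟨φ.trans χ, ?_⟩
  have := h.trans h'
  rwa [Bool.xor_comm m' m, Bool.xor_comm c' c] at this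

theorem twC_false (x : GC) : twC false false x = x :=
  twC_eq_iff.2 ⟨_, TwI.refl _⟩

theorem twC_inv (m c : Bool) (x : GC) : twC m c (twC m c x) = x := by
  rw [twC_twC]
  simp [twC_false]

/-- twisted isomorphisms of good maps are determined by the root -/
theorem TwI.unique {m c : Bool} {M N : BMap} (hM : M.IsGood) {φ χ : M.T ≃ N.T}
    (h : TwI m c M N φ) (h' : TwI m c M N χ) : φ = χ := by
  refine iso_unique (a := M.aa) (s := twS m M.s) (a' := N.aa) (s' := N.s) (Good_twS m hM)
    (Sum.inr true) φ χ h.aa h.rot2 h'.aa h'.rot2 ?_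
  rw [h.root, h'.root]

/-- a twisted automorphism with an involution as twist is an involution -/
theorem TwI.invol {m c : Bool} {M : BMap} (hM : M.IsGood) {e : Perm M.T}
    (h : TwI m c M M e) (t : M.T) : e (e t) = t := by
  have h1 : e.symm = e := TwI.unique hM h.symm h
  have h2 : e.symm (e t) = t := e.symm_apply_apply t
  rwa [h1] at h2

theorem TwI.refl_ {c : Bool} {M : BMap} (hM : M.IsGood) {e : Perm M.T}
    (h : TwI true c M M e) : Refl M.aa M.s e where
  ea := h.aa
  es t := by
    rw [h.rot t, twS_true]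
    simp
  ee := h.invol hM

theorem sameCycle_twS {T : Type} (m : Bool) (s : Perm T) (x y : T) :
    (twS m s).SameCycle x y ↔ s.SameCycle x y := by
  cases m
  · exact Iff.rfl
  · exact Perm.sameCycle_inv

theorem TwI.sameCycle {m c : Bool} {M N : BMap} {φ : M.T ≃ N.T} (h : TwI m c M N φ) (x y : M.T) :
    M.s.SameCycle x y ↔ N.s.SameCycle (φ x) (φ y) := by
  rw [← sameCycle_twS m M.s]
  have hp : ∀ (k : ℕ) (z : M.T), φ (((twS m M.s) ^ k) z) = (N.s ^ k) (φ z) := by
    intro k
    induction k with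
    | zero => intro z; rfl
    | succ k ih => intro z; rw [pow_succ', pow_succ', Perm.mul_apply, Perm.mul_apply, h.rot2, ih]
  constructor
  · intro hc
    obtain ⟨k, -, hk⟩ := hc.exists_pow_eq'
    exact ⟨k, by rw [zpow_natCast, ← hp, hk]⟩
  · intro hc
    obtain ⟨k, -, hk⟩ := hc.exists_pow_eq'
    refine ⟨k, φ.injective ?_⟩
    rw [zpow_natCast, hp, hk]

theorem TwI.nV_eq {m c : Bool} {M N : BMap} {φ : M.T ≃ N.T} (h : TwI m c M N φ) :
    nV N.s = nV M.s := by
  have h1 : ∀ x y, M.s.SameCycle x y ↔ N.s.SameCycle (φ x) (φ y) := TwI.sameCycle h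
  unfold nV
  refine (Nat.card_congr (Quotient.congr φ ?_)).symm
  intro x y
  exact h1 x y

theorem TwI.card_eq {m c : Bool} {M N : BMap} {φ : M.T ≃ N.T} (_h : TwI m c M N φ) :
    Fintype.card M.D = Fintype.card N.D := by
  have h1 := Fintype.card_congr φ
  have h2 : Fintype.card M.T = Fintype.card M.D + 2 := by
    show Fintype.card (M.D ⊕ Bool) = _
    rw [Fintype.card_sum, Fintype.card_bool]
  have h3 : Fintype.card N.T = Fintype.card N.D + 2 := by
    show Fintype.card (N.D ⊕ Bool) = _
    rw [Fintype.card_sum, Fintype.card_bool]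
  omega

theorem hW_tw {m c : Bool} {M N : BMap} {φ : M.T ≃ N.T} (w : Wt) (h : TwI m c M N φ) :
    hW w N = hW w M := by
  unfold hW
  rw [h.nV_eq, h.card_eq]

/-- a twisted isomorphism maps nonroot darts to nonroot darts -/
theorem TwI.inl {m c : Bool} {M N : BMap} {φ : M.T ≃ N.T} (h : TwI m c M N φ) (d : M.D) :
    ∃ d', φ (Sum.inl d) = Sum.inl d' := by
  rcases h1 : φ (Sum.inl d) with d' | b
  · exact ⟨d', rfl⟩
  · exfalso
    have h2 : φ (Sum.inr (xor c b)) = Sum.inr b := by
      rw [h.root]; cases c <;> cases b <;> rfl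
    have h3 := φ.injective (h1.trans h2.symm)
    simp at h3

/-- twisted isomorphisms of the duals -/
theorem TwI.dual {m c : Bool} {M N : BMap} (hM : M.IsGood) {φ : M.T ≃ N.T} (h : TwI m c M N φ) :
    TwI m (xor c m) M.dual N.dual (if m then φ.trans N.aa else φ) := by
  have hN : N.IsGood := h.good hM
  have h1 : ∀ z, N.aa (N.aa z) = z := hN.inv
  cases m
  · refine ⟨h.aa, fun t => (h.aa (M.s t)).trans (congrArg N.aa (h.rot t)), fun b => ?_⟩
    rw [Bool.xor_false]
    exact h.root b
  · refine ⟨fun t => congrArg N.aa (h.aa t), fun t => ?_, fun b => ?_⟩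
    · have h3 : N.aa (φ (M.aa (M.s t))) = N.s⁻¹ (φ t) := by
        rw [h.aa, h.rot t, h1]; rfl
      have h4 : (N.aa * N.s)⁻¹ (N.aa (φ t)) = N.s⁻¹ (φ t) := by
        rw [mul_inv_rev, Perm.mul_apply]
        simp
      exact h3.trans h4.symm
    · have h5 : N.aa (φ (Sum.inr b)) = Sum.inr (!(xor c b)) := congrArg N.aa (h.root b)
      have h6 : (!(xor c b)) = xor (xor c true) b := by cases c <;> cases b <;> rfl
      exact h5.trans (congrArg Sum.inr h6)

end PGr

end

section
/-! # Module CTwA: twisted images of composites, isomorphisms of composites with rigid cores -/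

set_option linter.unusedSectionVars false

namespace PGr
open Equiv Finset

theorem CTwA_s_false (M : GB) (t : M.1.T) : (twG false false M).1.s t = M.1.s t := by
  show rf M.1.D false (M.1.s (rf M.1.D false t)) = M.1.s t
  have h : ∀ x : M.1.D ⊕ Bool, rf M.1.D false x = x := by
    rintro (d | b)
    · rfl
    · rw [rf_inr, Bool.false_xor]
  rw [h, h]

theorem CTwA_s_true (M : GB) (t : M.1.T) : (twG true false M).1.s (M.1.s t) = t := by
  show rf M.1.D false (M.1.s⁻¹ (rf M.1.D false (M.1.s t))) = t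
  have h : ∀ x : M.1.D ⊕ Bool, rf M.1.D false x = x := by
    rintro (d | b)
    · rfl
    · rw [rf_inr, Bool.false_xor]
  rw [h, h]
  simp

theorem CTwA_fst_false (M : GB) (b : Bool) : fstD (twG false false M) b = fstD M b := by
  have h1 := fstD_spec (twG false false M) b
  have h2 := CTwA_s_false M (Sum.inr b)
  rw [fstD_spec M b] at h2
  exact Sum.inl_injective (h1.symm.trans h2)

theorem CTwA_fst_true (M : GB) (b : Bool) : fstD (twG true false M) b = CompInj.lstD M b := by
  have h1 := fstD_spec (twG true false M) b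
  have h2 := CTwA_s_true M (Sum.inl (CompInj.lstD M b))
  rw [CompInj.lstD_spec M b] at h2
  exact Sum.inl_injective (h1.symm.trans h2)

theorem CTwA_lst_true (M : GB) (b : Bool) : CompInj.lstD (twG true false M) b = fstD M b := by
  have h2 := CTwA_s_true M (Sum.inr b)
  rw [fstD_spec M b] at h2
  exact (CompInj.eq_lstD (M := twG true false M) h2).symm

/-- the bijection -/
def CTwA_k (m c : Bool) (C : Core) (N : C.I → GB) :
    (comp C N).T ≃ (comp (twCore m c C) (fun i => twG m false (N i))).T :=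
  rf (Σ i, (N i).1.D) c

theorem CTwA_k_dt (m c : Bool) (C : Core) (N : C.I → GB) (i : C.I) (d : (N i).1.D) :
    CTwA_k m c C N (CompInj.dt N i d) =
      CompInj.dt (C := twCore m c C) (fun i => twG m false (N i)) i d := rfl

theorem CTwA_k_inr (m c : Bool) (C : Core) (N : C.I → GB) (b : Bool) :
    CTwA_k m c C N (Sum.inr b) = Sum.inr (xor c b) := rf_inr c b

/-- `κ (J y) = J' (rf y)` if `m` is false -/
theorem CTwA_kJ (c : Bool) (C : Core) (N : C.I → GB) (y : (C.I × Bool) ⊕ Bool) :
    CTwA_k false c C N (CompInj.J N y) =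
      CompInj.J (C := twCore false c C) (fun i => twG false false (N i)) (rf (C.I × Bool) c y) := by
  rcases y with ⟨j, b⟩ | b
  · rw [rf_inl, CompInj.J_inl, CTwA_k_dt]
    refine Eq.trans ?_ (CompInj.J_inl (C := twCore false c C) _ j b).symm
    rw [CTwA_fst_false]
  · rw [rf_inr]
    exact CTwA_k_inr false c C N b

theorem CTwA_kJL (c : Bool) (C : Core) (N : C.I → GB) (y : (C.I × Bool) ⊕ Bool) :
    CTwA_k true c C N (CompInj.J N y) =
      CompInj.L (C := twCore true c C) (fun i => twG true false (N i)) (rf (C.I × Bool) c y) := by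
  rcases y with ⟨j, b⟩ | b
  · rw [rf_inl, CompInj.J_inl, CTwA_k_dt]
    refine Eq.trans ?_ (CompInj.L_inl (C := twCore true c C) _ j b).symm
    rw [CTwA_lst_true]
  · rw [rf_inr]
    exact CTwA_k_inr true c C N b

theorem CTwA_kLJ (c : Bool) (C : Core) (N : C.I → GB) (y : (C.I × Bool) ⊕ Bool) :
    CTwA_k true c C N (CompInj.L N y) =
      CompInj.J (C := twCore true c C) (fun i => twG true false (N i)) (rf (C.I × Bool) c y) := by
  rcases y with ⟨j, b⟩ | b
  · rw [rf_inl, CompInj.L_inl, CTwA_k_dt]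
    refine Eq.trans ?_ (CompInj.J_inl (C := twCore true c C) _ j b).symm
    rw [CTwA_fst_true]
  · rw [rf_inr]
    exact CTwA_k_inr true c C N b

theorem CTwA_kLL (c : Bool) (C : Core) (N : C.I → GB) (y : (C.I × Bool) ⊕ Bool) :
    CTwA_k false c C N (CompInj.L N y) =
      CompInj.L (C := twCore false c C) (fun i => twG false false (N i)) (rf (C.I × Bool) c y) := by
  rcases y with ⟨j, b⟩ | b
  · rw [rf_inl, CompInj.L_inl, CTwA_k_dt]
    refine Eq.trans ?_ (CompInj.L_inl (C := twCore false c C) _ j b).symm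
    have h : CompInj.lstD (twG false false (N j)) b = CompInj.lstD (N j) b := by
      have h1 := CompInj.lstD_spec (N j) b
      have h2 := CTwA_s_false (N j) (Sum.inl (CompInj.lstD (N j) b))
      rw [h1] at h2
      exact (CompInj.eq_lstD (M := twG false false (N j)) h2).symm
    rw [h]
  · rw [rf_inr]
    exact CTwA_k_inr false c C N b

/-- the darts of a composite -/
theorem CTwA_cases {C : Core} (N : C.I → GB) (t : (comp C N).T) :
    (∃ i d d', (N i).1.s (Sum.inl d) = Sum.inl d' ∧ t = CompInj.dt N i d) ∨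
      ∃ x, t = CompInj.L N x := by
  rcases CompInj.cases_dt N t with ⟨i, d, rfl⟩ | ⟨b, rfl⟩
  · rcases h : (N i).1.s (Sum.inl d) with d' | b
    · exact Or.inl ⟨i, d, d', h, rfl⟩
    · refine Or.inr ⟨Sum.inl (i, b), ?_⟩
      rw [CompInj.eq_lstD h, CompInj.L_inl]
  · exact Or.inr ⟨Sum.inr b, rfl⟩

/-- The twisted image of a composite is the composite of the twisted image of the core with the mirror images of the
nets.  The bijection is the identity on the nonroot darts, `dt N i d ↦ dt _ i d`, and `inr b ↦ inr (xor c b)`.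
Proof of `rot` for `m` true: the rotation of the composite `K` of the mirror images satisfies `κ (s (t)) = K.s⁻¹ (κ t)`, that
is `K.s (κ (s t)) = κ t`: if `t = dt i d` and `s t = dt i d'` then `N i` has `s (inl d) = inl d'`, the mirror image has
`s (inl d') = inl d`.  If `t = L x` (last dart at the core dart `x`) then `s t = J (C.s x)` (`CompInj.s_L`), and the first dart of a net is the
last dart of its mirror image: `K.s` maps `κ (J (C.s x))` to the first dart (of the mirror images) at
the core dart `C.s⁻¹ (C.s x) = x`, that is `κ (L x)`. -/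
theorem ctwist (m c : Bool) (C : Core) (N : C.I → GB) :
    ∃ κ : (comp C N).T ≃ (comp (twCore m c C) (fun i => twG m false (N i))).T,
      CTw m c C (twCore m c C) N (fun i => twG m false (N i)) (rf (C.I × Bool) c) κ := by
  refine ⟨CTwA_k m c C N, twM_tw m c C.toB, ⟨?_, ?_, ?_⟩, ?_⟩
  · intro t
    rcases CompInj.cases_dt N t with ⟨i, d, rfl⟩ | ⟨b, rfl⟩
    · rfl
    · have h1 : (comp C N).aa (Sum.inr b) = Sum.inr (!b) := rfl
      rw [h1, CTwA_k_inr, CTwA_k_inr]
      show Sum.inr (xor c (!b)) = Sum.inr (!(xor c b))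
      cases c <;> cases b <;> rfl
  · intro t
    cases m
    · -- no mirror image
      show CTwA_k false c C N ((comp C N).s t) =
        (comp (twCore false c C) (fun i => twG false false (N i))).s (CTwA_k false c C N t)
      rcases CTwA_cases N t with ⟨i, d, d', h, rfl⟩ | ⟨x, rfl⟩
      · rw [CompInj.s_dt_in N h, CTwA_k_dt, CTwA_k_dt]
        refine (CompInj.s_dt_in (C := twCore false c C) (fun i => twG false false (N i)) ?_).symm
        exact (CTwA_s_false (N i) (Sum.inl d)).trans h
      · rw [CompInj.s_L, CTwA_kJ, CTwA_kLL]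
        refine Eq.trans ?_ (CompInj.s_L (C := twCore false c C) _ _).symm
        congr 1
        show rf (C.I × Bool) c (C.s x) = rf (C.I × Bool) c (C.s (rf (C.I × Bool) c
          (rf (C.I × Bool) c x)))
        rw [rf_rf]
    · show CTwA_k true c C N ((comp C N).s t) =
        (comp (twCore true c C) (fun i => twG true false (N i))).s⁻¹ (CTwA_k true c C N t)
      rw [Perm.eq_inv_iff_eq]
      rcases CTwA_cases N t with ⟨i, d, d', h, rfl⟩ | ⟨x, rfl⟩
      · rw [CompInj.s_dt_in N h, CTwA_k_dt, CTwA_k_dt]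
        refine CompInj.s_dt_in (C := twCore true c C) (fun i => twG true false (N i)) ?_
        have h1 := CTwA_s_true (N i) (Sum.inl d)
        rw [h] at h1
        exact h1
      · rw [CompInj.s_L, CTwA_kJL, CTwA_kLJ]
        refine Eq.trans (CompInj.s_L (C := twCore true c C) _ _) ?_
        congr 1
        show rf (C.I × Bool) c (C.s⁻¹ (rf (C.I × Bool) c (rf (C.I × Bool) c (C.s x)))) =
          rf (C.I × Bool) c x
        rw [rf_rf]
        simp
  · intro b
    exact CTwA_k_inr m c C N b
  · intro i b i' b' h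
    have h0 : (Sum.inl (i, b) : (C.I × Bool) ⊕ Bool) = Sum.inl (i', b') := h
    have h1 : (i, b) = (i', b') := Sum.inl_injective h0
    have h2 : i = i' ∧ b = b' := Prod.mk.inj h1
    obtain ⟨rfl, rfl⟩ := h2
    rw [Bool.xor_self]
    refine ⟨rf (N i).1.D false, twM_tw m false (N i).1, fun d d' h => ?_⟩
    have h2 : d = d' := Sum.inl_injective h
    subst h2
    rfl

/-- Proof.  `CompInj.main` gives an isomorphism `f` of the cores with `e (L x) = L (f x)`, and `e` maps parts onto parts.  Let
`f (inl (i, b)) = inl (i', b')`.  Then `e` maps the part `i` onto the part `i'`; this defines `φ` on the nonroot darts, and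
`φ (inr b₁) = inr (xor (xor b b') b₁)`.  Compare the proof of `comp_inj_nets`, which is the case `f = 1`. -/
theorem ctw0 {C C' : Core} {N : C.I → GB} {N' : C'.I → GB} (hC : C.toB.IsGood)
    (hR : Rigid C.toB) (hC' : C'.toB.IsGood) (hR' : Rigid C'.toB)
    {e : (comp C N).T ≃ (comp C' N').T} (h : TwI false false (comp C N) (comp C' N') e) :
    ∃ ψ, CTw false false C C' N N' ψ e := by
  classical
  have ha := h.aa
  have hs : ∀ t, e ((comp C N).s t) = (comp C' N').s (e t) := h.rot
  have hr : e (Sum.inr true) = Sum.inr true := h.root true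
  obtain ⟨f, h1, h2, h3, h4, h5⟩ := CompInj.main N N' hC hR hC' hR' e ha hs hr
  have hfalse : f (Sum.inr false) = Sum.inr false := by
    have := h2 (Sum.inr true)
    rw [h4] at this
    exact this
  refine ⟨f, ⟨fun t => ?_, h3, fun b => ?_⟩, h, ?_⟩
  · exact (congrArg f (CompInj.ca_eq C t)).trans ((h2 t).trans (CompInj.ca_eq C' (f t)).symm)
  · cases b
    · exact hfalse
    · exact h4
  · intro i b i' b' hψ
    have hf : ∀ b₁, f (Sum.inl (i, b₁)) = Sum.inl (i', xor (xor b b') b₁) := by
      intro b₁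
      by_cases hb : b₁ = b
      · subst hb
        refine Eq.trans hψ ?_
        cases b₁ <;> cases b' <;> rfl
      · have hb' : b₁ = !b := by cases b <;> cases b₁ <;> simp_all
        subst hb'
        have h6 := h2 (Sum.inl (i, b))
        have h7 : CompInj.ca C (Sum.inl (i, b)) = Sum.inl (i, !b) := rfl
        rw [h7] at h6
        rw [h6]
        have h8 : f (Sum.inl (i, b)) = Sum.inl (i', b') := hψ
        rw [h8]
        show Sum.inl (i', !b') = _
        cases b <;> cases b' <;> rfl
    have hpart : ∀ t, partOf C N t = some i ↔ partOf C' N' (e t) = some i' := by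
      intro t
      have h6 := h5 t (CompInj.L N (Sum.inl (i, b)))
      have h7 : e (CompInj.L N (Sum.inl (i, b))) = CompInj.L N' (Sum.inl (i', b')) := by
        rw [h1]; exact congrArg _ hψ
      rw [h7, CompInj.partOf_L, CompInj.partOf_L] at h6
      exact h6
    have hex : ∀ d : (N i).1.D, ∃ d' : (N' i').1.D, e (CompInj.dt N i d) = CompInj.dt N' i' d' := by
      intro d
      have h6 := (hpart (CompInj.dt N i d)).1 (CompInj.partOf_dt N i d)
      rcases CompInj.cases_dt N' (e (CompInj.dt N i d)) with ⟨j, d', h7⟩ | ⟨b, h7⟩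
      · rw [h7, CompInj.partOf_dt, Option.some.injEq] at h6
        subst h6
        exact ⟨d', h7⟩
      · rw [h7, CompFour.partOf_root] at h6
        simp at h6
    choose g hg using hex
    have hgi : Function.Injective g := by
      intro d d' hdd
      have h6 : e (CompInj.dt N i d) = e (CompInj.dt N i d') := by
        rw [hg, hg, hdd]
      exact CompInj.dt_inj N (e.injective h6)
    have hgs : Function.Surjective g := by
      intro d'
      have h6 := (hpart (e.symm (CompInj.dt N' i' d'))).2 (by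
        rw [Equiv.apply_symm_apply]; exact CompInj.partOf_dt N' i' d')
      rcases CompInj.cases_dt N (e.symm (CompInj.dt N' i' d')) with ⟨j, d, h7⟩ | ⟨b, h7⟩
      · rw [h7, CompInj.partOf_dt, Option.some.injEq] at h6
        subst h6
        refine ⟨d, ?_⟩
        have h8 := hg d
        rw [← h7, Equiv.apply_symm_apply] at h8
        exact (CompInj.dt_inj N' h8).symm
      · rw [h7, CompFour.partOf_root] at h6
        simp at h6
    have hgl : ∀ b₁, g (CompInj.lstD (N i) b₁) = CompInj.lstD (N' i') (xor (xor b b') b₁) := by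
      intro b₁
      have h6 := h1 (Sum.inl (i, b₁))
      rw [hf, CompInj.L_inl, CompInj.L_inl, hg] at h6
      exact CompInj.dt_inj N' h6
    have hgf : ∀ b₁, g (fstD (N i) b₁) = fstD (N' i') (xor (xor b b') b₁) := by
      intro b₁
      obtain ⟨x, hx⟩ := C.s.surjective (Sum.inl (i, b₁))
      have h8 : e (CompInj.J N (C.s x)) = CompInj.J N' (f (C.s x)) := by
        rw [← CompInj.s_L, hs, h1, CompInj.s_L, h3]
      rw [hx, hf, CompInj.J_inl, CompInj.J_inl, hg] at h8
      exact CompInj.dt_inj N' h8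
    have hga : ∀ d, g ((N i).1.a d) = (N' i').1.a (g d) := by
      intro d
      have h6 := ha (CompInj.dt N i d)
      rw [hg, CompInj.aa_dt, CompInj.aa_dt, hg] at h6
      exact CompInj.dt_inj N' h6
    let w : Bool ≃ Bool := ⟨fun x => xor (xor b b') x, fun x => xor (xor b b') x,
      fun x => by cases b <;> cases b' <;> cases x <;> rfl,
      fun x => by cases b <;> cases b' <;> cases x <;> rfl⟩
    refine ⟨(Equiv.ofBijective g ⟨hgi, hgs⟩).sumCongr w, ⟨?_, ?_, fun b₁ => rfl⟩, ?_⟩
    · rintro (d | b₁)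
      · exact congrArg Sum.inl (hga d)
      · show Sum.inr (xor (xor b b') (!b₁)) = Sum.inr (!(xor (xor b b') b₁))
        cases b <;> cases b' <;> cases b₁ <;> rfl
    · rintro (d | b₁)
      · change _ = (N' i').1.s (Sum.inl (g d))
        rcases h6 : (N i).1.s (Sum.inl d) with d2 | b₁
        · change Sum.inl (g d2) = _
          have h8 := hs (CompInj.dt N i d)
          rw [CompInj.s_dt_in N h6, hg, hg] at h8
          rcases h9 : (N' i').1.s (Sum.inl (g d)) with d3 | b₁
          · rw [CompInj.s_dt_in N' h9] at h8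
            exact congrArg Sum.inl (CompInj.dt_inj N' h8)
          · exfalso
            have h10 := (CompInj.last_iff N' hC' (CompInj.dt N' i' (g d))).2
              ⟨Sum.inl (i', b₁), by rw [CompInj.eq_lstD h9, CompInj.L_inl]⟩
            rw [← h8, CompInj.partOf_dt, CompInj.partOf_dt] at h10
            exact h10 rfl
        · change Sum.inr (xor (xor b b') b₁) = _
          rw [CompInj.eq_lstD h6, hgl, CompInj.lstD_spec]
      · change _ = (N' i').1.s (Sum.inr (xor (xor b b') b₁))
        rw [fstD_spec, fstD_spec]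
        exact congrArg Sum.inl (hgf b₁)
    · intro d d' hd
      have h6 : g d = d' := Sum.inl_injective hd
      rw [← h6]
      exact hg d

end PGr

end

section
/-! # Module TwSer: series, parallel, rigid maps and twisted isomorphisms -/

set_option linter.unusedSectionVars false

namespace PGr
open Equiv Finset

variable {m c : Bool} {M N : BMap} {φ : M.T ≃ N.T}

/-- closed sets and cuts are transported: `cut_iso`, `cut_twS`, `TwI.rot2` (as in `TwI.good`) -/
theorem TwI.cut_map (h : TwI m c M N φ) (A : Finset M.T) :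
    cut N.s (A.map φ.toEmbedding) = cut M.s A := by
  rw [cut_iso (s := twS m M.s) (s' := N.s) φ h.rot2 A, cut_twS]

namespace TwSer

theorem cl_root (M : BMap) : Cl M.aa M.root := by
  rintro (d | b)
  · simp [BMap.root, BMap.aa]
  · cases b <;> simp [BMap.root, BMap.aa]

theorem map_root (h : TwI m c M N φ) : M.root.map φ.toEmbedding = N.root := by
  unfold BMap.root
  rw [map_insert, map_singleton]
  change {φ (Sum.inr true), φ (Sum.inr false)} = _
  rw [h.root, h.root]
  cases c
  · rfl
  · exact Finset.pair_comm _ _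

theorem root_iff {A : Finset M.T} (hA : Cl M.aa A) (b b' : Bool) :
    (Sum.inr b : M.T) ∈ A ↔ (Sum.inr b' : M.T) ∈ A := by
  have h1 : (Sum.inr true : M.T) ∈ A ↔ (Sum.inr false : M.T) ∈ A := hA (Sum.inr false)
  cases b <;> cases b'
  · exact Iff.rfl
  · exact h1.symm
  · exact h1
  · exact Iff.rfl

/-- a series prefix seen from the other end of the root edge -/
theorem source (hM : M.IsGood) (c : Bool) (hs : IsSer M) : ∃ B : Finset M.T, Cl M.aa B ∧
    (Sum.inr (!c) : M.T) ∉ B ∧ M.s (Sum.inr (!c)) ∈ B ∧ M.s⁻¹ (Sum.inr (!c)) ∈ B ∧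
    B ∪ M.root ≠ univ ∧ cut M.s B = 4 ∧ cut M.s (B ∪ M.root) = 4 := by
  obtain ⟨A, hA, hl⟩ := hs
  cases c
  · exact ⟨A, hA.cl, hA.root, hA.fst, hl, hA.rest, hA.cut4, hA.cut4'⟩
  · obtain ⟨e1, e2⟩ := Pref.ends hM hA hl
    have hroot : ∀ t : M.T, t ∈ M.root ↔ t = Sum.inr true ∨ t = Sum.inr false := by
      intro t
      rw [BMap.root, mem_insert, mem_singleton]
    have hR : ∀ t ∈ M.root, t ∉ A := by
      intro t ht h1
      rcases (hroot t).1 ht with rfl | rfl
      · exact hA.root h1
      · exact hA.root ((root_iff hA.cl _ _).1 h1)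
    have hm : ∀ t, t ∈ (A ∪ M.root)ᶜ ↔ t ∉ A ∧ t ∉ M.root := by
      intro t
      rw [mem_compl, mem_union, not_or]
    have n1 : M.s (Sum.inr false) ∉ M.root := by
      rw [hroot]
      rintro (h | h)
      · exact Good.s_ne_a hM (Sum.inr false) h
      · exact Good.s_ne hM (Sum.inr false) h
    have n2 : M.s⁻¹ (Sum.inr false) ∉ M.root := by
      rw [hroot]
      rintro (h | h)
      · rw [Perm.inv_eq_iff_eq] at h
        exact Good.s_ne_a hM (Sum.inr true) h.symm
      · rw [Perm.inv_eq_iff_eq] at h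
        exact Good.s_ne hM (Sum.inr false) h.symm
    have hu : (A ∪ M.root)ᶜ ∪ M.root = Aᶜ := by
      ext t
      rw [mem_union, hm, mem_compl]
      constructor
      · rintro (h | h)
        · exact h.1
        · exact hR t h
      · intro h
        by_cases ht : t ∈ M.root
        · exact Or.inr ht
        · exact Or.inl ⟨h, ht⟩
    refine ⟨(A ∪ M.root)ᶜ, (hA.cl.union (cl_root M)).compl, ?_, ?_, ?_, ?_, ?_, ?_⟩
    · rw [hm]
      exact fun h => h.2 ((hroot _).2 (Or.inr rfl))
    · rw [hm]
      exact ⟨e1, n1⟩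
    · rw [hm]
      exact ⟨e2, n2⟩
    · rw [hu]
      intro h
      have h1 : M.s (Sum.inr true) ∈ Aᶜ := by rw [h]; exact mem_univ _
      rw [mem_compl] at h1
      exact h1 hA.fst
    · rw [cut_compl]
      exact hA.cut4'
    · rw [hu, cut_compl]
      exact hA.cut4

theorem ser_one (hM : M.IsGood) (h : TwI m c M N φ) (hs : IsSer M) : IsSer N := by
  obtain ⟨B, b1, b2, b3, b4, b5, b6, b7⟩ := source hM c hs
  have hr : φ (Sum.inr (!c)) = Sum.inr true := by
    rw [h.root]
    cases c <;> rfl
  have hmem : ∀ t, φ t ∈ B.map φ.toEmbedding ↔ t ∈ B := CutIso.mem φ B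
  have hun : B.map φ.toEmbedding ∪ N.root = (B ∪ M.root).map φ.toEmbedding := by
    rw [map_union, map_root h]
  have key : N.s (Sum.inr true) ∈ B.map φ.toEmbedding ∧
      N.s⁻¹ (Sum.inr true) ∈ B.map φ.toEmbedding := by
    have h1 : N.s (Sum.inr true) = φ (twS m M.s (Sum.inr (!c))) := by rw [h.rot2, hr]
    have h2 : N.s⁻¹ (Sum.inr true) = φ ((twS m M.s)⁻¹ (Sum.inr (!c))) := by
      rw [Perm.inv_eq_iff_eq, ← h.rot2]
      have h3 : twS m M.s ((twS m M.s)⁻¹ (Sum.inr (!c))) = Sum.inr (!c) := by simp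
      rw [h3, hr]
    rw [h1, h2, hmem, hmem]
    cases m
    · exact ⟨b3, b4⟩
    · rw [twS_true, inv_inv]
      exact ⟨b4, b3⟩
  refine ⟨B.map φ.toEmbedding, ⟨Cl_iso φ h.aa b1, ?_, key.1, ?_, ?_, ?_⟩, key.2⟩
  · rw [← hr, hmem]
    exact b2
  · rw [hun]
    exact fun h4 => b5 (CutIso.map_univ φ h4)
  · rw [h.cut_map]
    exact b6
  · rw [hun, h.cut_map]
    exact b7

theorem rigid_one (h : TwI m c M N φ) (hM : Rigid M) : Rigid N := by
  obtain ⟨hM1, hM2⟩ := hM
  have hc := Fintype.card_congr φ
  refine ⟨by rw [← hc]; exact hM1, ?_⟩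
  intro A hA hA1 hA2
  have h4 := hM2 (A.map φ.symm.toEmbedding) (Cl_iso φ.symm (CutIso.symm h.aa) hA)
    (by rw [card_map]; exact hA1) (by rw [card_map, hc]; exact hA2)
  rw [← h.cut_map, CutIso.map_symm] at h4
  exact h4

end TwSer

open TwSer

/-- Proof.  By symmetry (`TwI.symm`, `TwI.good`) it is enough to show one direction. -/
theorem isSer_tw (hM : M.IsGood) (h : TwI m c M N φ) : IsSer M ↔ IsSer N :=
  ⟨ser_one hM h, ser_one (h.good hM) h.symm⟩

/-- `TwI.dual` -/
theorem isPar_tw (hM : M.IsGood) (h : TwI m c M N φ) : IsPar M ↔ IsPar N :=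
  isSer_tw hM.dual (h.dual hM)

theorem rigid_tw (h : TwI m c M N φ) : Rigid M ↔ Rigid N :=
  ⟨rigid_one h, rigid_one h.symm⟩

theorem isSer_twC (m c : Bool) (x : GC) : IsSer (twC m c x).rep.1 ↔ IsSer x.rep.1 := by
  obtain ⟨φ, h⟩ := twC_eq_iff.1 (rfl : twC m c x = twC m c x)
  exact (isSer_tw x.rep.2 h).symm

theorem isPar_twC (m c : Bool) (x : GC) : IsPar (twC m c x).rep.1 ↔ IsPar x.rep.1 := by
  obtain ⟨φ, h⟩ := twC_eq_iff.1 (rfl : twC m c x = twC m c x)
  exact (isPar_tw x.rep.2 h).symm

/-- invariance of the class functions -/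
theorem hW_twC (w : Wt) (m c : Bool) (x : GC) : hW w (twC m c x).rep.1 = hW w x.rep.1 := by
  obtain ⟨φ, h⟩ := twC_eq_iff.1 (rfl : twC m c x = twC m c x)
  exact hW_tw w h

end PGr

end

section
/-! # Module CTwB: twisted isomorphisms of composites -/

set_option linter.unusedSectionVars false

namespace PGr
open Equiv Finset

variable {m c : Bool} {C C' : Core} {N : C.I → GB} {N' : C'.I → GB}

namespace CTwB

theorem core_inl {C C' : Core} {m c : Bool} {ψ : C.toB.T ≃ C'.toB.T}
    (h : TwI m c C.toB C'.toB ψ) (i : C.I) (b : Bool) :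
    ∃ i' b', ψ (Sum.inl (i, b)) = Sum.inl (i', b') := by
  obtain ⟨⟨i', b'⟩, h1⟩ := h.inl (i, b)
  exact ⟨i', b', h1⟩

end CTwB

open CTwB

theorem CTw.trans {m' c' : Bool} {C'' : Core} {N'' : C''.I → GB} {ψ : C.toB.T ≃ C'.toB.T}
    {e : (comp C N).T ≃ (comp C' N').T} {ψ' : C'.toB.T ≃ C''.toB.T}
    {e' : (comp C' N').T ≃ (comp C'' N'').T} (h : CTw m c C C' N N' ψ e)
    (h' : CTw m' c' C' C'' N' N'' ψ' e') :
    CTw (xor m m') (xor c c') C C'' N N'' (ψ.trans ψ') (e.trans e') := by
  refine ⟨h.core.trans h'.core, h.tw.trans h'.tw, ?_⟩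
  intro i b i'' b'' hi
  obtain ⟨i', b', h1⟩ := core_inl h.core i b
  have h2 : ψ' (Sum.inl (i', b')) = Sum.inl (i'', b'') := (congrArg ψ' h1).symm.trans hi
  obtain ⟨φ, hφ, hd⟩ := h.nets i b i' b' h1
  obtain ⟨φ', hφ', hd'⟩ := h'.nets i' b' i'' b'' h2
  refine ⟨φ.trans φ', ?_, ?_⟩
  · have h3 := hφ.trans hφ'
    have h4 : xor (xor b b') (xor b' b'') = xor b b'' := by
      cases b <;> cases b' <;> cases b'' <;> rfl
    rwa [h4] at h3
  · intro d d'' hdd
    obtain ⟨d', h5⟩ := hφ.inl d
    have h6 : φ' (Sum.inl d') = Sum.inl d'' := by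
      rw [← h5]
      exact hdd
    rw [Equiv.trans_apply, hd d d' h5, hd' d' d'' h6]

theorem CTw.symm {ψ : C.toB.T ≃ C'.toB.T} {e : (comp C N).T ≃ (comp C' N').T}
    (h : CTw m c C C' N N' ψ e) : CTw m c C' C N' N ψ.symm e.symm := by
  refine ⟨h.core.symm, h.tw.symm, ?_⟩
  intro i' b' i b hi
  have h1 : ψ (Sum.inl (i, b)) = Sum.inl (i', b') := ((Equiv.symm_apply_eq ψ).1 hi).symm
  obtain ⟨φ, hφ, hd⟩ := h.nets i b i' b' h1
  refine ⟨φ.symm, ?_, ?_⟩
  · have h3 := hφ.symm
    rwa [Bool.xor_comm b b'] at h3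
  · intro d' d hdd
    have h6 : φ (Sum.inl d) = Sum.inl d' := by
      rw [← hdd, Equiv.apply_symm_apply]
    rw [Equiv.symm_apply_eq, hd d d' h6]

/-- `ctwist` reduces this to `ctw0` -/
theorem ctw_exists (hC : C.toB.IsGood) (hR : Rigid C.toB) (hC' : C'.toB.IsGood)
    (hR' : Rigid C'.toB) {e : (comp C N).T ≃ (comp C' N').T}
    (h : TwI m c (comp C N) (comp C' N') e) : ∃ ψ, CTw m c C C' N N' ψ e := by
  obtain ⟨κ, hκ⟩ := ctwist m c C N
  have h1 : TwI false false (comp (twCore m c C) (fun i => twG m false (N i))) (comp C' N')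
      (κ.symm.trans e) := by
    have h2 := hκ.tw.symm.trans h
    rwa [Bool.xor_self, Bool.xor_self] at h2
  obtain ⟨ψ', h3⟩ := ctw0 (hκ.core.good hC) ((rigid_tw hκ.core).1 hR) hC' hR' h1
  refine ⟨(show C.toB.T ≃ (twCore m c C).toB.T from rf (C.I × Bool) c).trans ψ', ?_⟩
  have h4 := hκ.trans h3
  rw [Bool.xor_false, Bool.xor_false] at h4
  have h5 : κ.trans (κ.symm.trans e) = e := by
    ext t
    simp
  rwa [h5] at h4

namespace CTwB

theorem net_equiv {M N : BMap} {m c : Bool} {φ : M.T ≃ N.T} (h : TwI m c M N φ) :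
    ∃ f : M.D ≃ N.D, ∀ d, φ (Sum.inl d) = Sum.inl (f d) := by
  obtain ⟨f, hf⟩ := CompIso.exists_equiv (φ.trans (rf N.D c)) (fun b => by
    rw [Equiv.trans_apply, h.root]
    show rf N.D c (Sum.inr (xor c b)) = Sum.inr b
    rw [rf_inr]
    cases c <;> cases b <;> rfl)
  refine ⟨f, fun d => ?_⟩
  have h1 := congrArg (rf N.D c) (hf d)
  rw [Equiv.trans_apply] at h1
  have h2 : rf N.D c (rf N.D c (φ (Sum.inl d))) = φ (Sum.inl d) := rf_rf c _
  rw [h2] at h1
  exact h1

theorem mk0 {ψ : C.toB.T ≃ C'.toB.T} (hψ : TwI false false C.toB C'.toB ψ)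
    (hn : ∀ i b i' b', ψ (Sum.inl (i, b)) = Sum.inl (i', b') →
      ∃ φ, TwI false (xor b b') (N i).1 (N' i').1 φ) :
    ∃ e, CTw false false C C' N N' ψ e := by
  -- the bijection of the edges
  obtain ⟨p, hp⟩ := net_equiv hψ
  have hpa : ∀ i b, p (i, !b) = ((p (i, b)).1, !(p (i, b)).2) := by
    intro i b
    have h3 : (Sum.inl (p (i, !b)) : C'.toB.T) = C'.toB.aa (Sum.inl (p (i, b))) :=
      (hp (i, !b)).symm.trans ((hψ.aa (Sum.inl (i, b))).trans (congrArg C'.toB.aa (hp (i, b))))
    exact Sum.inl_injective h3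
  have hpf : ∀ i b, p (i, b) = ((p (i, false)).1, xor (p (i, false)).2 b) := by
    intro i b
    cases b
    · rw [Bool.xor_false]
      rfl
    · have h1 := hpa i false
      rw [Bool.xor_true]
      exact h1
  have hpi : Function.Bijective (fun i : C.I => (p (i, false)).1) := by
    constructor
    · intro i j hij
      have hij' : (p (i, false)).1 = (p (j, false)).1 := hij
      have h1 : p (i, xor (p (i, false)).2 false) = ((p (i, false)).1, false) := by
        rw [hpf, Bool.xor_false, Bool.xor_self]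
      have h2 : p (j, xor (p (j, false)).2 false) = ((p (j, false)).1, false) := by
        rw [hpf, Bool.xor_false, Bool.xor_self]
      rw [hij', ← h2] at h1
      exact congrArg Prod.fst (p.injective h1)
    · intro i'
      obtain ⟨⟨i, b⟩, hx⟩ := p.surjective (i', false)
      refine ⟨i, ?_⟩
      have h1 := congrArg Prod.fst (hpf i b)
      rw [hx] at h1
      exact h1.symm
  let π : C.I ≃ C'.I := Equiv.ofBijective _ hpi
  have hπ : ∀ i, π i = (p (i, false)).1 := fun _ => rfl
  have hψi : ∀ i b, ψ (Sum.inl (i, b)) = Sum.inl (π i, xor (p (i, false)).2 b) := by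
    intro i b
    exact (hp (i, b)).trans (congrArg Sum.inl (hpf i b))
  -- the isomorphisms of the nets
  have hex : ∀ i, ∃ φ, TwI false (p (i, false)).2 (N i).1 (N' (π i)).1 φ := by
    intro i
    obtain ⟨φ, hφ⟩ := hn i false _ _ (hψi i false)
    rw [Bool.xor_false, Bool.false_xor] at hφ
    exact ⟨φ, hφ⟩
  choose φ hφ using hex
  choose f hf using fun i => net_equiv (hφ i)
  have hfa : ∀ i d, f i ((N i).1.a d) = (N' (π i)).1.a (f i d) := by
    intro i d
    have h1 := (hφ i).aa (Sum.inl d)
    have h2 : (N i).1.aa (Sum.inl d) = Sum.inl ((N i).1.a d) := rfl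
    rw [h2, hf, hf] at h1
    exact Sum.inl_injective h1
  have hfst : ∀ i b, f i (fstD (N i) b) = fstD (N' (π i)) (xor (p (i, false)).2 b) := by
    intro i b
    have h1 := (hφ i).rot (Sum.inr b)
    rw [fstD_spec, hf, (hφ i).root, twS_false, fstD_spec] at h1
    exact Sum.inl_injective h1
  let E : (comp C N).T ≃ (comp C' N').T :=
    Equiv.sumCongr (Equiv.sigmaCongr π f) (Equiv.refl Bool)
  have hE : ∀ i d, E (CompInj.dt N i d) = CompInj.dt N' (π i) (f i d) := fun _ _ => rfl
  have hEr : ∀ b, E (Sum.inr b) = Sum.inr b := fun _ => rfl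
  have hψr : ∀ b, ψ (Sum.inr b) = Sum.inr b := fun b => by
    rw [hψ.root, Bool.false_xor]
  have hψs : ∀ x, ψ (C.s x) = C'.s (ψ x) := hψ.rot
  have hJ : ∀ x : C.toB.T, E (CompInj.J N x) = CompInj.J N' (ψ x) := by
    rintro (⟨i, b⟩ | b)
    · change E (CompInj.dt N i (fstD (N i) b)) = CompInj.J N' (ψ (Sum.inl (i, b)))
      rw [hψi, hE, hfst]
      rfl
    · change E (Sum.inr b) = CompInj.J N' (ψ (Sum.inr b))
      rw [hψr]
      rfl
  refine ⟨E, hψ, ⟨?_, ?_, ?_⟩, ?_⟩
  · intro t
    rcases CompInj.cases_dt N t with ⟨i, d, rfl⟩ | ⟨b, rfl⟩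
    · rw [CompInj.aa_dt, hE, hfa, hE, CompInj.aa_dt]
    · rfl
  · intro t
    rw [twS_false]
    rcases CompInj.cases_dt N t with ⟨i, d, rfl⟩ | ⟨b, rfl⟩
    · have h1 := (hφ i).rot (Sum.inl d)
      rw [hf, twS_false] at h1
      rcases h2 : (N i).1.s (Sum.inl d) with d' | b
      · rw [h2, hf] at h1
        rw [CompInj.s_dt_in N h2, hE, hE, CompInj.s_dt_in N' h1.symm]
      · rw [h2, (hφ i).root] at h1
        rw [CompInj.s_dt_out N h2, hE, CompInj.s_dt_out N' h1.symm]
        exact (hJ _).trans (congrArg (CompInj.J N') ((hψs _).trans (congrArg C'.s (hψi i b))))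
    · rw [hEr, CompInj.s_dt_root, CompInj.s_dt_root]
      exact (hJ _).trans (congrArg (CompInj.J N') ((hψs _).trans (congrArg C'.s (hψr b))))
  · intro b
    rw [hEr, Bool.false_xor]
  · intro i b i' b' hi
    rw [hψi] at hi
    have h1 := Sum.inl_injective hi
    have h2 : π i = i' := congrArg Prod.fst h1
    have h3 : xor (p (i, false)).2 b = b' := congrArg Prod.snd h1
    subst h2
    subst h3
    refine ⟨φ i, ?_, ?_⟩
    · have h4 : xor b (xor (p (i, false)).2 b) = (p (i, false)).2 := by
        cases b <;> cases (p (i, false)).2 <;> rfl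
      rw [h4]
      exact hφ i
    · intro d d' hd
      rw [hf] at hd
      rw [hE, Sum.inl_injective hd]

end CTwB

/-- Proof.  By `ctwist` we may assume `m = c = false`. -/
theorem ctw_mk {ψ : C.toB.T ≃ C'.toB.T} (hψ : TwI m c C.toB C'.toB ψ)
    (hn : ∀ i b i' b', ψ (Sum.inl (i, b)) = Sum.inl (i', b') →
      ∃ φ, TwI m (xor b b') (N i).1 (N' i').1 φ) : ∃ e, CTw m c C C' N N' ψ e := by
  obtain ⟨κ, hκ0⟩ := ctwist m c C N
  obtain ⟨R, hR, hκ⟩ : ∃ R : C.toB.T ≃ (twCore m c C).toB.T,
      (∀ i b, R (Sum.inl (i, b)) = Sum.inl (i, b)) ∧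
      CTw m c C (twCore m c C) N (fun i => twG m false (N i)) R κ :=
    ⟨rf (C.I × Bool) c, fun _ _ => rfl, hκ0⟩
  have h1 : TwI false false (twCore m c C).toB C'.toB (R.symm.trans ψ) := by
    have h2 := hκ.core.symm.trans hψ
    rwa [Bool.xor_self, Bool.xor_self] at h2
  obtain ⟨e, he⟩ := mk0 (C := twCore m c C) (N := fun i => twG m false (N i)) (N' := N') h1 (by
    intro i b i' b' hi
    have h4 : R.symm (Sum.inl (i, b)) = Sum.inl (i, b) :=
      (Equiv.symm_apply_eq R).2 (hR i b).symm
    have h3 : ψ (Sum.inl (i, b)) = Sum.inl (i', b') := (congrArg ψ h4).symm.trans hi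
    obtain ⟨φ, hφ⟩ := hn i b i' b' h3
    have h6 := (twM_tw m false (N i).1).symm.trans hφ
    rw [Bool.xor_self, Bool.false_xor] at h6
    exact ⟨_, h6⟩)
  refine ⟨κ.trans e, ?_⟩
  have h4 := hκ.trans he
  rw [Bool.xor_false, Bool.xor_false] at h4
  have h5 : R.trans (R.symm.trans ψ) = ψ := by
    ext t
    simp
  rwa [h5] at h4

/-- the isomorphism of the nets is unique (`TwI.unique`), so it is the one induced by `e` -/
theorem CTw.dt {ψ : C.toB.T ≃ C'.toB.T} {e : (comp C N).T ≃ (comp C' N').T}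
    (h : CTw m c C C' N N' ψ e) {i : C.I} {b : Bool} {i' : C'.I} {b' : Bool}
    (hi : ψ (Sum.inl (i, b)) = Sum.inl (i', b')) {φ : (N i).1.T ≃ (N' i').1.T}
    (hφ : TwI m (xor b b') (N i).1 (N' i').1 φ) {d : (N i).1.D} {d' : (N' i').1.D}
    (hd : φ (Sum.inl d) = Sum.inl d') : e (CompInj.dt N i d) = CompInj.dt N' i' d' := by
  obtain ⟨φ0, hφ0, hd0⟩ := h.nets i b i' b' hi
  have h1 : φ = φ0 := TwI.unique (N i).2 hφ hφ0
  subst h1
  exact hd0 d d' hd

/-- For mirror images last darts are mapped to first darts: for `x = inl (i, b)`, `ψ x = inl (i', b')` the map `φ` of the nets satisfies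
`φ (s (inl (lstD b))) = s⁻¹ (φ (inl (lstD b)))` and the left side is `φ (inr b) = inr b'`. -/
theorem CTw.L_J {ψ : C.toB.T ≃ C'.toB.T} {e : (comp C N).T ≃ (comp C' N').T}
    (h : CTw true c C C' N N' ψ e) (x : C.toB.T) : e (CompInj.L N x) = CompInj.J N' (ψ x) := by
  rcases x with ⟨i, b⟩ | b
  · obtain ⟨i', b', h1⟩ := core_inl h.core i b
    obtain ⟨φ, hφ, hd⟩ := h.nets i b i' b' h1
    have h2 := hφ.rot (Sum.inl (CompInj.lstD (N i) b))
    rw [CompInj.lstD_spec, hφ.root, twS_true] at h2
    have h3 : xor (xor b b') b = b' := by cases b <;> cases b' <;> rfl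
    rw [h3, eq_comm, Perm.inv_eq_iff_eq, fstD_spec] at h2
    have h4 := hd _ _ h2
    have h5 : CompInj.J N' (ψ (Sum.inl (i, b))) = CompInj.dt N' i' (fstD (N' i') b') := by
      rw [h1]
      rfl
    exact h4.trans h5.symm
  · have h1 : e (Sum.inr b) = Sum.inr (xor c b) := h.tw.root b
    have h2 : ψ (Sum.inr b) = Sum.inr (xor c b) := h.core.root b
    have h3 : CompInj.J N' (ψ (Sum.inr b)) = Sum.inr (xor c b) := by
      rw [h2]
      rfl
    exact h1.trans h3.symm

theorem CTw.J_L {ψ : C.toB.T ≃ C'.toB.T} {e : (comp C N).T ≃ (comp C' N').T}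
    (h : CTw true c C C' N N' ψ e) (x : C.toB.T) : e (CompInj.J N x) = CompInj.L N' (ψ x) := by
  have h1 := h.symm.L_J (ψ x)
  rw [Equiv.symm_apply_eq] at h1
  rw [h1]
  have h2 : ψ.symm (ψ x) = x := ψ.symm_apply_apply x
  rw [h2]

end PGr

end

section
/-! # Module AxPart: invariant sets inside a part of a composite -/

set_option linter.unusedSectionVars false

namespace PGr
open Equiv Finset

variable {c : Bool} {C : Core} {N : C.I → GB} {ψ : Perm C.toB.T} {e : Perm (comp C N).T}

open CompVAux in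
theorem AxPart_core_uniq (hC : C.toB.IsGood) {i : C.I} {b b' : Bool}
    (h : C.s.SameCycle (Sum.inl (i, b)) (Sum.inl (i, b'))) : b = b' := by
  by_contra hne
  have hb : b' = !b := by cases b <;> cases b' <;> simp_all
  subst hb
  exact Good.noLoop hC (Sum.inl (i, b) : C.toB.T) h

open CompVAux in
/-- darts of one part: the vertices of the core at the two ends of the edge `i` are different (`noLoop`); use `F_sc`, `F_core`, `F_inner`,
`inner_pow`, `out_root` of `CompV` -/
theorem sc_part (hC : C.toB.IsGood) (i : C.I) (d d' : (N i).1.D) :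
    (comp C N).s.SameCycle (CompInj.dt N i d) (CompInj.dt N i d') ↔
      (N i).1.s.SameCycle (Sum.inl d) (Sum.inl d') := by
  constructor
  · intro h
    have hF : F C N (Sum.inl ⟨i, d⟩) = F C N (Sum.inl ⟨i, d'⟩) := F_sc C N h
    by_cases h1 : ∃ b, (N i).1.s.SameCycle (Sum.inl d) (Sum.inr b)
    · obtain ⟨b, hb⟩ := h1
      rw [F_core C N hb] at hF
      by_cases h2 : ∃ b', (N i).1.s.SameCycle (Sum.inl d') (Sum.inr b')
      · obtain ⟨b', hb'⟩ := h2
        rw [F_core C N hb'] at hF
        have h3 := AxPart_core_uniq hC (cyc_eq.1 (Sum.inl_injective hF))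
        subst h3
        exact hb.trans hb'.symm
      · rw [F_inner C N h2] at hF
        simp at hF
    · rw [F_inner C N h1] at hF
      by_cases h2 : ∃ b', (N i).1.s.SameCycle (Sum.inl d') (Sum.inr b')
      · obtain ⟨b', hb'⟩ := h2
        rw [F_core C N hb'] at hF
        simp at hF
      · rw [F_inner C N h2] at hF
        simp only [Sum.inr.injEq, Sigma.mk.inj_iff, heq_eq_eq, true_and] at hF
        exact cyc_eq.1 hF
  · intro h
    by_cases h1 : ∃ b, (N i).1.s.SameCycle (Sum.inl d) (Sum.inr b)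
    · obtain ⟨b, hb⟩ := h1
      exact (core_sc C N hb).symm.trans (core_sc C N (h.symm.trans hb))
    · obtain ⟨n, hn⟩ := exists_nat_pow h
      exact inner_pow C N i n d d' h1 hn

open CompVAux in
/-- darts of two parts at one vertex are at poles -/
theorem sc_parts (hC : C.toB.IsGood) {i j : C.I} (hij : i ≠ j) {d : (N i).1.D} {d' : (N j).1.D}
    (h : (comp C N).s.SameCycle (CompInj.dt N i d) (CompInj.dt N j d')) :
    ∃ b b', (N i).1.s.SameCycle (Sum.inl d) (Sum.inr b) ∧
      (N j).1.s.SameCycle (Sum.inl d') (Sum.inr b') ∧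
      C.s.SameCycle (Sum.inl (i, b)) (Sum.inl (j, b')) := by
  have hF : F C N (Sum.inl ⟨i, d⟩) = F C N (Sum.inl ⟨j, d'⟩) := F_sc C N h
  by_cases h1 : ∃ b, (N i).1.s.SameCycle (Sum.inl d) (Sum.inr b)
  · obtain ⟨b, hb⟩ := h1
    rw [F_core C N hb] at hF
    by_cases h2 : ∃ b', (N j).1.s.SameCycle (Sum.inl d') (Sum.inr b')
    · obtain ⟨b', hb'⟩ := h2
      rw [F_core C N hb'] at hF
      exact ⟨b, b', hb, hb', cyc_eq.1 (Sum.inl_injective hF)⟩
    · rw [F_inner C N h2] at hF
      simp at hF
  · rw [F_inner C N h1] at hF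
    by_cases h2 : ∃ b', (N j).1.s.SameCycle (Sum.inl d') (Sum.inr b')
    · obtain ⟨b', hb'⟩ := h2
      rw [F_core C N hb'] at hF
      simp at hF
    · rw [F_inner C N h2] at hF
      simp only [Sum.inr.injEq, Sigma.mk.inj_iff] at hF
      exact absurd hF.1 hij

open CompVAux in
/-- a dart at the vertex of a root dart -/
theorem sc_root (hC : C.toB.IsGood) {i : C.I} {d : (N i).1.D} {b' : Bool} :
    (comp C N).s.SameCycle (CompInj.dt N i d) (Sum.inr b') ↔
      ∃ b, (N i).1.s.SameCycle (Sum.inl d) (Sum.inr b) ∧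
        C.s.SameCycle (Sum.inl (i, b)) (Sum.inr b') := by
  constructor
  · intro h
    have hF : F C N (Sum.inl ⟨i, d⟩) = F C N (Sum.inr b') := F_sc C N h
    have hF2 : F C N (Sum.inr b') = Sum.inl (cyc C.s (Sum.inr b')) := rfl
    rw [hF2] at hF
    by_cases h1 : ∃ b, (N i).1.s.SameCycle (Sum.inl d) (Sum.inr b)
    · obtain ⟨b, hb⟩ := h1
      rw [F_core C N hb] at hF
      exact ⟨b, hb, cyc_eq.1 (Sum.inl_injective hF)⟩
    · rw [F_inner C N h1] at hF
      simp at hF
  · rintro ⟨b, hb, h⟩
    exact (core_sc C N hb).symm.trans (jump_sc C N h)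

/-- `upS` and cuts: `CompNS.cut_sub` -/
theorem cut_upS (hC : C.toB.IsGood) (i : C.I) (B : Finset (N i).1.D) :
    cut (comp C N).s (upS N i B) = cut (N i).1.s (dn B) := CompNS.cut_sub C N hC i B

theorem AxPart_mem_up {i : C.I} {B : Finset (N i).1.D} {d : (N i).1.D} :
    CompInj.dt N i d ∈ upS N i B ↔ d ∈ B := by
  unfold upS
  rw [mem_map]
  constructor
  · rintro ⟨d', hd', h⟩
    have := CompInj.dt_inj N h
    rwa [← this]
  · intro h
    exact ⟨d, h, rfl⟩

theorem AxPart_up_part {i : C.I} {B : Finset (N i).1.D} {t : (comp C N).T} (h : t ∈ upS N i B) :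
    ∃ d ∈ B, t = CompInj.dt N i d := by
  unfold upS at h
  rw [mem_map] at h
  obtain ⟨d, hd, h⟩ := h
  exact ⟨d, hd, h.symm⟩

theorem AxPart_mem_dn {M : BMap} {B : Finset M.D} {d : M.D} :
    (Sum.inl d : M.T) ∈ dn B ↔ d ∈ B := by
  unfold dn
  rw [mem_map]
  constructor
  · rintro ⟨d', hd', h⟩
    have := Sum.inl_injective h
    rwa [← this]
  · intro h
    exact ⟨d, h, rfl⟩

theorem AxPart_dn_inr {M : BMap} {B : Finset M.D} {b : Bool} : (Sum.inr b : M.T) ∉ dn B := by
  unfold dn
  rw [mem_map]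
  rintro ⟨d', hd', h⟩
  have h1 : (Sum.inl d' : M.D ⊕ Bool) = Sum.inr b := h
  simp at h1

/-- the boundary corners of a set inside a part, in the part -/
theorem AxPart_bd_dt (hC : C.toB.IsGood) {i : C.I} {B : Finset (N i).1.D} {d : (N i).1.D} :
    CompInj.dt N i d ∈ bd (comp C N).s (upS N i B) ↔ (Sum.inl d : (N i).1.T) ∈ bd (N i).1.s (dn B) := by
  rw [mem_bd, mem_bd, AxPart_mem_up, AxPart_mem_dn]
  rcases h : (N i).1.s (Sum.inl d) with d' | b
  · rw [CompInj.s_dt_in N h, AxPart_mem_up, AxPart_mem_dn]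
  · rw [CompInj.s_dt_out N h]
    have h1 : CompInj.J N (C.s (Sum.inl (i, b))) ∉ upS N i B := by
      intro h2
      obtain ⟨d', -, h3⟩ := AxPart_up_part h2
      have h4 := CompInj.partOf_J N (C.s (Sum.inl (i, b)))
      rw [h3, CompInj.partOf_dt] at h4
      exact CompInj.edge_s_ne hC (Sum.inl (i, b)) h4.symm
    have h2 : (Sum.inr b : (N i).1.T) ∉ dn B := AxPart_dn_inr
    simp only [h1, h2]

/-- the ends of a set inside a part -/
theorem AxPart_ends (hC : C.toB.IsGood) (h : CTw true c C C N N ψ e)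
    {i : C.I} {b b' : Bool} (hψ : ψ (Sum.inl (i, b)) = Sum.inl (i, b'))
    {φ : Perm (N i).1.T} (hφ : TwI true (xor b b') (N i).1 (N i).1 φ) (B : Finset (N i).1.D) :
    (∀ t ∈ bd (comp C N).s (upS N i B), (comp C N).s.SameCycle t (e t)) ↔
      ∀ t ∈ bd (N i).1.s (dn B), (N i).1.s.SameCycle t (φ t) := by
  have hdt : ∀ d, (comp C N).s.SameCycle (CompInj.dt N i d) (e (CompInj.dt N i d)) ↔
      (N i).1.s.SameCycle (Sum.inl d) (φ (Sum.inl d)) := by
    intro d
    obtain ⟨d', hd'⟩ := hφ.inl d
    rw [h.dt hψ hφ hd', sc_part hC, hd']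
  have hroot : ∀ b₁, (N i).1.s.SameCycle (Sum.inl (fstD (N i) b₁)) (φ (Sum.inl (fstD (N i) b₁))) ↔
      (N i).1.s.SameCycle (Sum.inr b₁) (φ (Sum.inr b₁)) := by
    intro b₁
    have h1 : (N i).1.s.SameCycle (Sum.inr b₁) (Sum.inl (fstD (N i) b₁)) := by
      rw [← fstD_spec]; exact CompVAux.sc_apply _ _
    have h2 : (N i).1.s.SameCycle (φ (Sum.inr b₁)) (φ (Sum.inl (fstD (N i) b₁))) :=
      (hφ.sameCycle _ _).1 h1
    exact ⟨fun h3 => h1.trans (h3.trans h2.symm), fun h3 => h1.symm.trans (h3.trans h2)⟩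
  have hL : ∀ y b₁, C.s y = Sum.inl (i, b₁) → ∀ t, t = CompInj.L N y →
      ((comp C N).s.SameCycle t (e t) ↔ (N i).1.s.SameCycle (Sum.inr b₁) (φ (Sum.inr b₁))) := by
    intro y b₁ hy t ht
    rw [← hroot, ← hdt]
    have h1 : (comp C N).s.SameCycle t (CompInj.dt N i (fstD (N i) b₁)) := by
      have h2 := CompInj.s_L N y
      rw [hy, CompInj.J_inl] at h2
      rw [← h2, ← ht]
      exact CompVAux.sc_apply _ _
    have h2 := (h.tw.sameCycle _ _).1 h1
    exact ⟨fun h3 => h1.symm.trans (h3.trans h2), fun h3 => h1.trans (h3.trans h2.symm)⟩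
  have hs2 : ∀ t, t ∈ bd (comp C N).s (upS N i B) → (∃ d, t = CompInj.dt N i d) ∨
      ∃ y b₁, C.s y = Sum.inl (i, b₁) ∧ t = CompInj.L N y ∧ fstD (N i) b₁ ∈ B := by
    intro t ht
    rw [mem_bd] at ht
    by_cases h1 : t ∈ upS N i B
    · obtain ⟨d, _, h2⟩ := AxPart_up_part h1
      exact Or.inl ⟨d, h2⟩
    · have h2 : (comp C N).s t ∈ upS N i B := by
        by_contra h3
        exact ht ⟨fun h4 => absurd h4 h1, fun h4 => absurd h4 h3⟩
      obtain ⟨d, hd, h3⟩ := AxPart_up_part h2
      by_cases h4 : partOf C N t = some i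
      · left
        rcases CompInj.cases_dt N t with ⟨j, d', rfl⟩ | ⟨b₁, rfl⟩
        · rw [CompInj.partOf_dt] at h4
          have h5 : j = i := Option.some_injective _ h4
          subst h5
          exact ⟨d', rfl⟩
        · rw [CompFour.partOf_root] at h4
          simp at h4
      · right
        have h5 : partOf C N ((comp C N).s t) ≠ partOf C N t := by
          rw [h3, CompInj.partOf_dt]
          exact fun h6 => h4 h6.symm
        obtain ⟨y, hy⟩ := (CompInj.last_iff N hC t).1 h5
        have h6 := CompInj.s_L N y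
        rw [← hy, h3] at h6
        rcases hCy : C.s y with ⟨j, b₁⟩ | b₁
        · rw [hCy, CompInj.J_inl] at h6
          have h7 : i = j := by
            have := congrArg (partOf C N) h6
            rw [CompInj.partOf_dt, CompInj.partOf_dt] at this
            exact Option.some_injective _ this
          subst h7
          have h8 := CompInj.dt_inj N h6
          exact ⟨y, b₁, hCy, hy, by rw [← h8]; exact hd⟩
        · rw [hCy] at h6
          have := congrArg (partOf C N) h6
          rw [CompInj.partOf_dt, CompInj.partOf_J] at this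
          simp [Core.edge] at this
  constructor
  · intro hh t ht
    rcases t with d | b₁
    · rw [← hdt]
      exact hh _ ((AxPart_bd_dt hC).2 ht)
    · rw [mem_bd, fstD_spec, AxPart_mem_dn] at ht
      have h1 : fstD (N i) b₁ ∈ B := by
        by_contra h2
        exact ht ⟨fun h4 => absurd h4 AxPart_dn_inr, fun h4 => absurd h4 h2⟩
      have hy : C.s (C.s⁻¹ (Sum.inl (i, b₁))) = Sum.inl (i, b₁) := by simp
      set y := C.s⁻¹ (Sum.inl (i, b₁)) with hyd
      rw [← hL y b₁ hy _ rfl]
      apply hh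
      rw [mem_bd]
      have h2 := CompInj.s_L N y
      rw [hy, CompInj.J_inl] at h2
      rw [h2, AxPart_mem_up]
      intro h3
      obtain ⟨d, -, h4⟩ := AxPart_up_part (h3.2 h1)
      have h5 := CompInj.partOf_L N y
      rw [h4, CompInj.partOf_dt] at h5
      have h6 := CompInj.edge_s_ne hC y
      rw [hy, ← h5] at h6
      exact h6 rfl
  · intro hh t ht
    rcases hs2 t ht with ⟨d, rfl⟩ | ⟨y, b₁, hy, hty, hB⟩
    · rw [hdt]
      exact hh _ ((AxPart_bd_dt hC).1 ht)
    · rw [hL y b₁ hy t hty]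
      apply hh
      rw [mem_bd, fstD_spec, AxPart_mem_dn]
      intro h3
      exact AxPart_dn_inr (h3.2 hB)

/-- Proof.  `cl`: both sides say that `B` is closed under `(N i).1.a`.  `inv`: `CTw.dt`.  `cut4`: `cut_upS`.  `root`: trivial.  `rest`: the
composite has another part, so this is true for `upS N i B`; for `dn B` it says `B ≠ univ`.  `ends`: the boundary corners of
`upS N i B`: the corner `dt i d` with `s (dt i d) = dt i d'` is a boundary corner iff `inl d` is one of `dn B`; the corner
`L (inl (i, b₁))` iff `lstD b₁ ∈ B` iff `inl (lstD b₁)` is a boundary corner of `dn B`; the corner `t = L y` with `C.s y = inl (i, b₁)`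
(before the first dart of the part) iff `fstD b₁ ∈ B` iff `inr b₁` is a boundary corner of `dn B`; other corners are
not.  For darts of the part, `SameCycle t (e t)` in the composite is `SameCycle` in the net (`sc_part`, `CTw.dt`); for `t = L y`
use that `t`, `s t` are at one vertex and `e (s t) = s⁻¹ (e t)`, `e t` too, and the same in the net for `inr b₁` and
`s (inr b₁)`.  If `B = univ`: `dn B ∪ root = univ`, so `dn B` is not an `AxSet`; `upS N i univ` is the part `i`, its cut is 4
(`cut_partSet`); its boundary corners are at the vertices of the core at `(i, b₁)`, which `e` maps to the vertex at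
`ψ (inl (i, b₁))`: the same if `b = b'`, the other end of the edge if `b ≠ b'`. -/
theorem ax_part (hC : C.toB.IsGood) (h2 : 2 ≤ Fintype.card C.I) (h : CTw true c C C N N ψ e)
    {i : C.I} {b b' : Bool} (hψ : ψ (Sum.inl (i, b)) = Sum.inl (i, b'))
    {φ : Perm (N i).1.T} (hφ : TwI true (xor b b') (N i).1 (N i).1 φ) (B : Finset (N i).1.D) :
    AxSet (comp C N) e (upS N i B) ↔ AxSet (N i).1 φ (dn B) ∨ (B = univ ∧ b = b') := by
  have hroot : Sum.inr true ∉ upS N i B := by
    intro h1
    obtain ⟨d, -, h3⟩ := AxPart_up_part h1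
    have h4 := congrArg (partOf C N) h3
    rw [CompInj.partOf_dt, CompFour.partOf_root] at h4
    simp at h4
  obtain ⟨j, hj⟩ : ∃ j, j ≠ i := by
    by_contra hcon
    push Not at hcon
    have : Fintype.card C.I ≤ 1 := by
      rw [Fintype.card_le_one_iff]
      intro x y; rw [hcon x, hcon y]
    omega
  have hrest : upS N i B ∪ (comp C N).root ≠ univ := by
    intro h1
    have h3 : CompInj.dt N j (fstD (N j) true) ∈ upS N i B ∪ (comp C N).root := by
      rw [h1]; exact mem_univ _
    rw [mem_union] at h3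
    rcases h3 with h3 | h3
    · obtain ⟨d, -, h3⟩ := AxPart_up_part h3
      have h4 := congrArg (partOf C N) h3
      rw [CompInj.partOf_dt, CompInj.partOf_dt] at h4
      exact hj (Option.some_injective _ h4)
    · obtain ⟨b₁, hb₁⟩ := CompFour.mem_root.1 h3
      have h4 := congrArg (partOf C N) hb₁
      rw [CompInj.partOf_dt, CompFour.partOf_root] at h4
      simp at h4
  have hcl : Cl (comp C N).aa (upS N i B) ↔ ∀ d, (N i).1.a d ∈ B ↔ d ∈ B := by
    constructor
    · intro h1 d
      have h3 := h1 (CompInj.dt N i d)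
      rwa [CompInj.aa_dt, AxPart_mem_up, AxPart_mem_up] at h3
    · intro h1 t
      rcases CompInj.cases_dt N t with ⟨k, d, rfl⟩ | ⟨b₁, rfl⟩
      · by_cases hk : k = i
        · subst hk
          rw [CompInj.aa_dt, AxPart_mem_up, AxPart_mem_up]
          exact h1 d
        · have h3 : ∀ d', CompInj.dt N k d' ∉ upS N i B := by
            intro d' h4
            obtain ⟨d'', -, h4⟩ := AxPart_up_part h4
            have h5 := congrArg (partOf C N) h4
            rw [CompInj.partOf_dt, CompInj.partOf_dt] at h5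
            exact hk (Option.some_injective _ h5)
          rw [CompInj.aa_dt]
          exact ⟨fun h4 => absurd h4 (h3 _), fun h4 => absurd h4 (h3 _)⟩
      · have h3 : ∀ b₂, (Sum.inr b₂ : (comp C N).T) ∉ upS N i B := by
          intro b₂ h4
          obtain ⟨d, -, h3⟩ := AxPart_up_part h4
          have h4 := congrArg (partOf C N) h3
          rw [CompInj.partOf_dt, CompFour.partOf_root] at h4
          simp at h4
        exact ⟨fun h4 => absurd h4 (h3 _), fun h4 => absurd h4 (h3 _)⟩
  have hcl' : Cl (N i).1.aa (dn B) ↔ ∀ d, (N i).1.a d ∈ B ↔ d ∈ B := by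
    constructor
    · intro h1 d
      have h3 := h1 (Sum.inl d)
      have h4 : (N i).1.aa (Sum.inl d) = Sum.inl ((N i).1.a d) := rfl
      rwa [h4, AxPart_mem_dn, AxPart_mem_dn] at h3
    · intro h1 t
      rcases t with d | b₁
      · have h4 : (N i).1.aa (Sum.inl d) = Sum.inl ((N i).1.a d) := rfl
        rw [h4, AxPart_mem_dn, AxPart_mem_dn]
        exact h1 d
      · exact ⟨fun h4 => absurd h4 AxPart_dn_inr, fun h4 => absurd h4 AxPart_dn_inr⟩
  have hinv : (∀ t ∈ upS N i B, e t ∈ upS N i B) ↔ ∀ t ∈ dn B, φ t ∈ dn B := by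
    constructor
    · intro h1 t ht
      rcases t with d | b₁
      · rw [AxPart_mem_dn] at ht
        have h3 := h1 _ (AxPart_mem_up.2 ht)
        obtain ⟨d', hd'⟩ := hφ.inl d
        rw [h.dt hψ hφ hd', AxPart_mem_up] at h3
        rw [hd', AxPart_mem_dn]
        exact h3
      · exact absurd ht AxPart_dn_inr
    · intro h1 t ht
      obtain ⟨d, hd, rfl⟩ := AxPart_up_part ht
      have h3 := h1 _ (AxPart_mem_dn.2 hd)
      obtain ⟨d', hd'⟩ := hφ.inl d
      rw [hd', AxPart_mem_dn] at h3
      rw [h.dt hψ hφ hd', AxPart_mem_up]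
      exact h3
  have hends := AxPart_ends hC h hψ hφ B
  by_cases hB : B = univ
  · have hN : ¬ AxSet (N i).1 φ (dn B) := by
      intro h1
      apply h1.rest
      ext t
      simp only [mem_univ, iff_true, mem_union]
      rcases t with d | b₁
      · left
        rw [AxPart_mem_dn, hB]
        exact mem_univ _
      · exact Or.inr (CompFour.mem_root.2 ⟨b₁, rfl⟩)
    constructor
    · intro h1
      right
      refine ⟨hB, ?_⟩
      have h3 := hends.1 h1.ends (Sum.inr true) (by
        rw [mem_bd, fstD_spec, AxPart_mem_dn]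
        intro h4
        exact AxPart_dn_inr (h4.2 (by rw [hB]; exact mem_univ _)))
      rw [hφ.root] at h3
      have h4 := CompVAux.root_uniq (N i) (Perm.SameCycle.refl _ (Sum.inr true)) h3
      revert h4
      cases b <;> cases b' <;> decide
    · rintro (h1 | ⟨-, hbb⟩)
      · exact absurd h1 hN
      · refine ⟨hcl.2 (fun d => by rw [hB]; exact iff_of_true (mem_univ _) (mem_univ _)), hinv.2 ?_, ?_, hroot, hrest, hends.2 ?_⟩
        · intro t ht
          rcases t with d | b₁
          · obtain ⟨d', hd'⟩ := hφ.inl d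
            rw [hd', AxPart_mem_dn, hB]
            exact mem_univ _
          · exact absurd ht AxPart_dn_inr
        · have h3 : upS N i B = partSet C N i := by
            ext t
            rw [CompFour.mem_partSet]
            constructor
            · intro h4
              obtain ⟨d, -, rfl⟩ := AxPart_up_part h4
              exact CompInj.partOf_dt N i d
            · intro h4
              rcases CompInj.cases_dt N t with ⟨k, d, rfl⟩ | ⟨b₁, rfl⟩
              · rw [CompInj.partOf_dt] at h4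
                have h5 : k = i := Option.some_injective _ h4
                subst h5
                rw [AxPart_mem_up, hB]
                exact mem_univ _
              · rw [CompFour.partOf_root] at h4
                simp at h4
          rw [h3, cut_partSet C N hC i]
        · have hrt : ∀ b₁, φ (Sum.inr b₁) = Sum.inr b₁ := by
            intro b₁
            rw [hφ.root, hbb]
            cases b' <;> simp
          intro t ht
          rcases t with d | b₁
          · rw [mem_bd, AxPart_mem_dn] at ht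
            rcases h5 : (N i).1.s (Sum.inl d) with d' | b₁
            · exfalso
              rw [h5, AxPart_mem_dn, hB] at ht
              exact ht ⟨fun _ => mem_univ _, fun _ => mem_univ _⟩
            · have h6 : (N i).1.s.SameCycle (Sum.inl d) (Sum.inr b₁) := by
                rw [← h5]; exact CompVAux.sc_apply _ _
              have h7 := (hφ.sameCycle _ _).1 h6
              rw [hrt] at h7
              exact h6.trans h7.symm
          · rw [hrt]
  · have hres : dn B ∪ (N i).1.root ≠ univ := by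
      intro h1
      apply hB
      ext d
      simp only [mem_univ, iff_true]
      have h3 : (Sum.inl d : (N i).1.T) ∈ dn B ∪ (N i).1.root := by rw [h1]; exact mem_univ _
      rw [mem_union, AxPart_mem_dn] at h3
      rcases h3 with h3 | h3
      · exact h3
      · obtain ⟨b₁, hb₁⟩ := CompFour.mem_root.1 h3
        have h4 : (Sum.inl d : (N i).1.D ⊕ Bool) = Sum.inr b₁ := hb₁
        simp at h4
    constructor
    · intro h1
      left
      exact ⟨hcl'.2 (hcl.1 h1.cl), hinv.1 h1.inv, by rw [← cut_upS hC, h1.cut4], AxPart_dn_inr,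
        hres, hends.1 h1.ends⟩
    · rintro (h1 | ⟨h1, -⟩)
      · exact ⟨hcl.2 (hcl'.1 h1.cl), hinv.2 h1.inv, by rw [cut_upS hC, h1.cut4], hroot, hrest,
          hends.2 h1.ends⟩
      · exact absurd h1 hB

end PGr

end
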