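import Pool.Agent.PGc.Four
import Pool.Agent.PGm.M12

section
/-! # Module Assoc: the series composition of three nets -/

set_option linter.unusedSectionVars false

namespace PGr
open Equiv Finset

def Assoc_a : Perm ((Fin 3 × Bool) ⊕ Bool) :=
  ext (Equiv.prodCongr (Equiv.refl (Fin 3)) Equiv.boolNot)

def Assoc_s : Perm ((Fin 3 × Bool) ⊕ Bool) :=
  swap (Sum.inr true) (Sum.inl (0, true)) * swap (Sum.inl (0, false)) (Sum.inl (1, true)) *
    swap (Sum.inl (1, false)) (Sum.inl (2, true)) * swap (Sum.inl (2, false)) (Sum.inr false)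

def Assoc_P (A : Finset ((Fin 3 × Bool) ⊕ Bool)) : Prop :=
  (∀ t, Assoc_a t ∈ A ↔ t ∈ A) → A.Nonempty → A ≠ univ →
    4 ≤ (univ.filter fun t => ¬ (t ∈ A ↔ Assoc_s t ∈ A)).card

instance Assoc_dec : DecidablePred Assoc_P := fun A =>
  inferInstanceAs (Decidable ((∀ t, Assoc_a t ∈ A ↔ t ∈ A) → A.Nonempty → A ≠ univ →
    4 ≤ (univ.filter fun t => ¬ (t ∈ A ↔ Assoc_s t ∈ A)).card))

theorem Assoc_ns : ∀ A : Finset ((Fin 3 × Bool) ⊕ Bool), Assoc_P A := by
  decide +kernel

theorem Assoc_st : Assoc_s (Sum.inr true) = Sum.inl (0, true) := by decide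
theorem Assoc_s0t : Assoc_s (Sum.inl (0, true)) = Sum.inr true := by decide
theorem Assoc_s0f : Assoc_s (Sum.inl (0, false)) = Sum.inl (1, true) := by decide
theorem Assoc_s1t : Assoc_s (Sum.inl (1, true)) = Sum.inl (0, false) := by decide
theorem Assoc_s1f : Assoc_s (Sum.inl (1, false)) = Sum.inl (2, true) := by decide
theorem Assoc_s2t : Assoc_s (Sum.inl (2, true)) = Sum.inl (1, false) := by decide
theorem Assoc_s2f : Assoc_s (Sum.inl (2, false)) = Sum.inr false := by decide
theorem Assoc_sf : Assoc_s (Sum.inr false) = Sum.inl (2, false) := by decide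

theorem Assoc_pl : Pl Assoc_a Assoc_s := by
  intro p q H
  have e1 : p (Sum.inr true) + q (Sum.inr false) =
      p (Sum.inl (0, true)) + q (Sum.inl (0, true)) := H (Sum.inr true)
  have e2 : p (Sum.inl (0, false)) + q (Sum.inl (0, true)) =
      p (Sum.inl (1, true)) + q (Sum.inl (1, true)) := H (Sum.inl (0, false))
  have e3 : p (Sum.inl (1, false)) + q (Sum.inl (1, true)) =
      p (Sum.inl (2, true)) + q (Sum.inl (2, true)) := H (Sum.inl (1, false))
  have e4 : p (Sum.inl (2, false)) + q (Sum.inl (2, true)) =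
      p (Sum.inr false) + q (Sum.inr false) := H (Sum.inl (2, false))
  have h2 : (2 : ZMod 2) = 0 := by decide
  refine ⟨fun t => match t with
    | Sum.inl (0, _) => p (Sum.inl (0, true)) + p (Sum.inr true)
    | Sum.inl (1, _) => p (Sum.inl (0, true)) + p (Sum.inr true) + p (Sum.inl (0, false)) +
        p (Sum.inl (1, true))
    | Sum.inl (2, _) => p (Sum.inl (2, false)) + p (Sum.inr false)
    | Sum.inr _ => 0, ?_, ?_⟩
  · rintro (⟨i, b⟩ | b)
    · fin_cases i <;> cases b <;> rfl
    · cases b <;> rfl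
  · have key : (p (Sum.inl (0, true)) + p (Sum.inr true) + p (Sum.inl (0, false)) +
        p (Sum.inl (1, true))) + (p (Sum.inl (2, false)) + p (Sum.inr false)) =
        p (Sum.inl (1, false)) + p (Sum.inl (2, true)) := by
      linear_combination e1 + e2 + e3 + e4 + (p (Sum.inl (0, true)) + p (Sum.inl (1, true)) +
        p (Sum.inr false) - p (Sum.inl (1, false))) * h2
    rintro (⟨i, b⟩ | b)
    · fin_cases i <;> cases b
      · show (p (Sum.inl (0, true)) + p (Sum.inr true)) + (p (Sum.inl (0, true)) +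
          p (Sum.inr true) + p (Sum.inl (0, false)) + p (Sum.inl (1, true))) =
          p (Sum.inl (0, false)) + p (Sum.inl (1, true))
        linear_combination (p (Sum.inl (0, true)) + p (Sum.inr true)) * h2
      · show (p (Sum.inl (0, true)) + p (Sum.inr true)) + 0 =
          p (Sum.inl (0, true)) + p (Sum.inr true)
        ring
      · show (p (Sum.inl (0, true)) + p (Sum.inr true) + p (Sum.inl (0, false)) +
          p (Sum.inl (1, true))) + (p (Sum.inl (2, false)) + p (Sum.inr false)) =
          p (Sum.inl (1, false)) + p (Sum.inl (2, true))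
        exact key
      · show (p (Sum.inl (0, true)) + p (Sum.inr true) + p (Sum.inl (0, false)) +
          p (Sum.inl (1, true))) + (p (Sum.inl (0, true)) + p (Sum.inr true)) =
          p (Sum.inl (1, true)) + p (Sum.inl (0, false))
        linear_combination (p (Sum.inl (0, true)) + p (Sum.inr true)) * h2
      · show (p (Sum.inl (2, false)) + p (Sum.inr false)) + 0 =
          p (Sum.inl (2, false)) + p (Sum.inr false)
        ring
      · show (p (Sum.inl (2, false)) + p (Sum.inr false)) + (p (Sum.inl (0, true)) +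
          p (Sum.inr true) + p (Sum.inl (0, false)) + p (Sum.inl (1, true))) =
          p (Sum.inl (2, true)) + p (Sum.inl (1, false))
        linear_combination key
    · cases b
      · show (0 : ZMod 2) + (p (Sum.inl (2, false)) + p (Sum.inr false)) =
          p (Sum.inr false) + p (Sum.inl (2, false))
        ring
      · show (0 : ZMod 2) + (p (Sum.inl (0, true)) + p (Sum.inr true)) =
          p (Sum.inr true) + p (Sum.inl (0, true))
        ring

/-- by `decide` as `tri_good` -/
theorem quad_good : quad.toB.IsGood where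
  inv := by
    have : ∀ t : (Fin 3 × Bool) ⊕ Bool, Assoc_a (Assoc_a t) = t := by decide
    exact this
  fpf := by
    have : ∀ t : (Fin 3 × Bool) ⊕ Bool, Assoc_a t ≠ t := by decide
    exact this
  ns := Assoc_ns
  pl := Assoc_pl
  big := by
    show 4 ≤ Fintype.card ((Fin 3 × Bool) ⊕ Bool)
    decide

/-- the vertex of a dart -/
def Assoc_v : (Fin 3 × Bool) ⊕ Bool → Fin 4
  | Sum.inl (0, true) => 0
  | Sum.inl (0, false) => 1
  | Sum.inl (1, true) => 1
  | Sum.inl (1, false) => 2
  | Sum.inl (2, true) => 2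
  | Sum.inl (2, false) => 3
  | Sum.inr true => 0
  | Sum.inr false => 3

theorem Assoc_same (t t' : (Fin 3 × Bool) ⊕ Bool) :
    Assoc_s.SameCycle t t' ↔ Assoc_v t = Assoc_v t' := by
  have h1 : ∀ t t' : (Fin 3 × Bool) ⊕ Bool, Assoc_v t = Assoc_v t' →
      t' = t ∨ t' = Assoc_s t := by decide
  have h2 : ∀ t : (Fin 3 × Bool) ⊕ Bool, Assoc_v (Assoc_s t) = Assoc_v t := by decide
  constructor
  · rintro ⟨i, rfl⟩
    induction i using Int.induction_on generalizing t with
    | zero => simp
    | succ n ih =>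
      rw [zpow_add_one, Perm.mul_apply, ← ih (Assoc_s t), h2]
    | pred n ih =>
      rw [zpow_sub_one, Perm.mul_apply, ← ih (Assoc_s⁻¹ t)]
      have := h2 (Assoc_s⁻¹ t)
      rw [TriProps_app] at this
      exact this
  · intro h
    rcases h1 t t' h with h | h
    · rw [h]
    · rw [h]
      exact ⟨1, by simp⟩

theorem quad_nV : nV quad.s = 4 := by
  have e : Quotient (Perm.SameCycle.setoid Assoc_s) ≃ Fin 4 := by
    refine Equiv.ofBijective (Quotient.lift Assoc_v fun t t' h => (Assoc_same t t').mp h)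
      ⟨?_, ?_⟩
    · intro x y
      induction x using Quotient.inductionOn with | _ x => ?_
      induction y using Quotient.inductionOn with | _ y => ?_
      intro h
      exact Quotient.sound ((Assoc_same x y).mpr h)
    · have h3 : ∀ k : Fin 4, ∃ t, Assoc_v t = k := by decide
      intro k
      obtain ⟨t, ht⟩ := h3 k
      exact ⟨Quotient.mk _ t, ht⟩
  show Nat.card (Quotient (Perm.SameCycle.setoid Assoc_s)) = 4
  rw [Nat.card_congr e]
  simp

theorem Assoc_tt : tri.s (Sum.inl (true, true)) = Sum.inr true := by decide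
theorem Assoc_tf : tri.s (Sum.inl (true, false)) = Sum.inl (false, true) := by decide
theorem Assoc_ft : tri.s (Sum.inl (false, true)) = Sum.inl (true, false) := by decide
theorem Assoc_ff : tri.s (Sum.inl (false, false)) = Sum.inr false := by decide
theorem Assoc_t : tri.s (Sum.inr true) = Sum.inl (true, true) := by decide
theorem Assoc_f : tri.s (Sum.inr false) = Sum.inl (false, false) := by decide

section ser
variable (X Y : GB)

/-- a dart of the first net -/
noncomputable def Assoc_x (d : X.1.D) : (serMap X Y).T := Sum.inl ⟨true, d⟩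
/-- a dart of the second net -/
noncomputable def Assoc_y (d : Y.1.D) : (serMap X Y).T := Sum.inl ⟨false, d⟩

theorem Assoc_ser_x_in {d d' : X.1.D} (h : X.1.s (Sum.inl d) = Sum.inl d') :
    (serMap X Y).s (Sum.inl ⟨true, d⟩) = Sum.inl ⟨true, d'⟩ :=
  comp_s_in tri (serNets X Y) (i := true) h

theorem Assoc_ser_y_in {d d' : Y.1.D} (h : Y.1.s (Sum.inl d) = Sum.inl d') :
    (serMap X Y).s (Sum.inl ⟨false, d⟩) = Sum.inl ⟨false, d'⟩ :=
  comp_s_in tri (serNets X Y) (i := false) h

theorem Assoc_ser_x_t {d : X.1.D} (h : X.1.s (Sum.inl d) = Sum.inr true) :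
    (serMap X Y).s (Sum.inl ⟨true, d⟩) = Sum.inr true := by
  have e := comp_s_out tri (serNets X Y) (i := true) h
  rw [Assoc_tt] at e
  exact e

theorem Assoc_ser_x_f {d : X.1.D} (h : X.1.s (Sum.inl d) = Sum.inr false) :
    (serMap X Y).s (Sum.inl ⟨true, d⟩) = Sum.inl ⟨false, fstD Y true⟩ := by
  have e := comp_s_out tri (serNets X Y) (i := true) h
  rw [Assoc_tf] at e
  exact e

theorem Assoc_ser_y_t {d : Y.1.D} (h : Y.1.s (Sum.inl d) = Sum.inr true) :
    (serMap X Y).s (Sum.inl ⟨false, d⟩) = Sum.inl ⟨true, fstD X false⟩ := by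
  have e := comp_s_out tri (serNets X Y) (i := false) h
  rw [Assoc_ft] at e
  exact e

theorem Assoc_ser_y_f {d : Y.1.D} (h : Y.1.s (Sum.inl d) = Sum.inr false) :
    (serMap X Y).s (Sum.inl ⟨false, d⟩) = Sum.inr false := by
  have e := comp_s_out tri (serNets X Y) (i := false) h
  rw [Assoc_ff] at e
  exact e

theorem Assoc_ser_t : (serMap X Y).s (Sum.inr true) = Sum.inl ⟨true, fstD X true⟩ := by
  have e := comp_s_root tri (serNets X Y) true
  rw [Assoc_t] at e
  exact e

theorem Assoc_ser_f : (serMap X Y).s (Sum.inr false) = Sum.inl ⟨false, fstD Y false⟩ := by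
  have e := comp_s_root tri (serNets X Y) false
  rw [Assoc_f] at e
  exact e

theorem Assoc_fst_t : fstD ⟨serMap X Y, serMap_good _ _⟩ true = ⟨true, fstD X true⟩ :=
  Sum.inl_injective ((fstD_spec ⟨serMap X Y, serMap_good _ _⟩ true).symm.trans (Assoc_ser_t X Y))

theorem Assoc_fst_f : fstD ⟨serMap X Y, serMap_good _ _⟩ false = ⟨false, fstD Y false⟩ :=
  Sum.inl_injective ((fstD_spec ⟨serMap X Y, serMap_good _ _⟩ false).symm.trans (Assoc_ser_f X Y))

end ser

section quad
variable (a m b : GB)

theorem Assoc_q_in (i : Fin 3) {d d' : (nets3 a m b i).1.D}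
    (h : (nets3 a m b i).1.s (Sum.inl d) = Sum.inl d') :
    (comp quad (nets3 a m b)).s (Sum.inl ⟨i, d⟩) = Sum.inl ⟨i, d'⟩ :=
  comp_s_in quad (nets3 a m b) (i := i) h

theorem Assoc_q0t {d : a.1.D} (h : a.1.s (Sum.inl d) = Sum.inr true) :
    (comp quad (nets3 a m b)).s (Sum.inl ⟨(0 : Fin 3), d⟩) = Sum.inr true := by
  have e := comp_s_out quad (nets3 a m b) (i := (0 : Fin 3)) h
  have e1 : quad.s (Sum.inl ((0 : Fin 3), true)) = Sum.inr true := Assoc_s0t
  rw [e1] at e
  exact e

theorem Assoc_q0f {d : a.1.D} (h : a.1.s (Sum.inl d) = Sum.inr false) :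
    (comp quad (nets3 a m b)).s (Sum.inl ⟨(0 : Fin 3), d⟩) =
      Sum.inl ⟨(1 : Fin 3), fstD m true⟩ := by
  have e := comp_s_out quad (nets3 a m b) (i := (0 : Fin 3)) h
  have e1 : quad.s (Sum.inl ((0 : Fin 3), false)) = Sum.inl ((1 : Fin 3), true) := Assoc_s0f
  rw [e1] at e
  exact e

theorem Assoc_q1t {d : m.1.D} (h : m.1.s (Sum.inl d) = Sum.inr true) :
    (comp quad (nets3 a m b)).s (Sum.inl ⟨(1 : Fin 3), d⟩) =
      Sum.inl ⟨(0 : Fin 3), fstD a false⟩ := by
  have e := comp_s_out quad (nets3 a m b) (i := (1 : Fin 3)) h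
  have e1 : quad.s (Sum.inl ((1 : Fin 3), true)) = Sum.inl ((0 : Fin 3), false) := Assoc_s1t
  rw [e1] at e
  exact e

theorem Assoc_q1f {d : m.1.D} (h : m.1.s (Sum.inl d) = Sum.inr false) :
    (comp quad (nets3 a m b)).s (Sum.inl ⟨(1 : Fin 3), d⟩) =
      Sum.inl ⟨(2 : Fin 3), fstD b true⟩ := by
  have e := comp_s_out quad (nets3 a m b) (i := (1 : Fin 3)) h
  have e1 : quad.s (Sum.inl ((1 : Fin 3), false)) = Sum.inl ((2 : Fin 3), true) := Assoc_s1f
  rw [e1] at e
  exact e

theorem Assoc_q2t {d : b.1.D} (h : b.1.s (Sum.inl d) = Sum.inr true) :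
    (comp quad (nets3 a m b)).s (Sum.inl ⟨(2 : Fin 3), d⟩) =
      Sum.inl ⟨(1 : Fin 3), fstD m false⟩ := by
  have e := comp_s_out quad (nets3 a m b) (i := (2 : Fin 3)) h
  have e1 : quad.s (Sum.inl ((2 : Fin 3), true)) = Sum.inl ((1 : Fin 3), false) := Assoc_s2t
  rw [e1] at e
  exact e

theorem Assoc_q2f {d : b.1.D} (h : b.1.s (Sum.inl d) = Sum.inr false) :
    (comp quad (nets3 a m b)).s (Sum.inl ⟨(2 : Fin 3), d⟩) = Sum.inr false := by
  have e := comp_s_out quad (nets3 a m b) (i := (2 : Fin 3)) h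
  have e1 : quad.s (Sum.inl ((2 : Fin 3), false)) = Sum.inr false := Assoc_s2f
  rw [e1] at e
  exact e

theorem Assoc_qt : (comp quad (nets3 a m b)).s (Sum.inr true) =
    Sum.inl ⟨(0 : Fin 3), fstD a true⟩ := by
  have e := comp_s_root quad (nets3 a m b) true
  have e1 : quad.s (Sum.inr true) = Sum.inl ((0 : Fin 3), true) := Assoc_st
  rw [e1] at e
  exact e

theorem Assoc_qf : (comp quad (nets3 a m b)).s (Sum.inr false) =
    Sum.inl ⟨(2 : Fin 3), fstD b false⟩ := by
  have e := comp_s_root quad (nets3 a m b) false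
  have e1 : quad.s (Sum.inr false) = Sum.inl ((2 : Fin 3), false) := Assoc_sf
  rw [e1] at e
  exact e

/-- the darts, left composition -/
def Assoc_eL : (serMap ⟨serMap a m, serMap_good _ _⟩ b).D ≃ (comp quad (nets3 a m b)).D where
  toFun
    | ⟨true, ⟨true, d⟩⟩ => ⟨(0 : Fin 3), d⟩
    | ⟨true, ⟨false, d⟩⟩ => ⟨(1 : Fin 3), d⟩
    | ⟨false, d⟩ => ⟨(2 : Fin 3), d⟩
  invFun
    | ⟨(0 : Fin 3), d⟩ => ⟨true, ⟨true, d⟩⟩
    | ⟨(1 : Fin 3), d⟩ => ⟨true, ⟨false, d⟩⟩
    | ⟨(2 : Fin 3), d⟩ => ⟨false, d⟩
  left_inv := by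
    rintro ⟨_ | _, d⟩
    · rfl
    · obtain ⟨_ | _, d⟩ := d <;> rfl
  right_inv := by
    rintro ⟨i, d⟩
    fin_cases i <;> rfl

/-- the darts, right composition -/
def Assoc_eR : (serMap a ⟨serMap m b, serMap_good _ _⟩).D ≃ (comp quad (nets3 a m b)).D where
  toFun
    | ⟨true, d⟩ => ⟨(0 : Fin 3), d⟩
    | ⟨false, ⟨true, d⟩⟩ => ⟨(1 : Fin 3), d⟩
    | ⟨false, ⟨false, d⟩⟩ => ⟨(2 : Fin 3), d⟩
  invFun
    | ⟨(0 : Fin 3), d⟩ => ⟨true, d⟩
    | ⟨(1 : Fin 3), d⟩ => ⟨false, ⟨true, d⟩⟩
    | ⟨(2 : Fin 3), d⟩ => ⟨false, ⟨false, d⟩⟩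
  left_inv := by
    rintro ⟨_ | _, d⟩
    · obtain ⟨_ | _, d⟩ := d <;> rfl
    · rfl
  right_inv := by
    rintro ⟨i, d⟩
    fin_cases i <;> rfl

theorem ser_quad_left (a m b : GB) :
    BIso (serMap ⟨serMap a m, serMap_good _ _⟩ b) (comp quad (nets3 a m b)) := by
  refine ⟨Equiv.sumCongr (Assoc_eL a m b) (Equiv.refl Bool), ?_, ?_, rfl⟩
  · rintro (⟨_ | _, d⟩ | c)
    · rfl
    · obtain ⟨_ | _, d⟩ := d <;> rfl
    · rfl
  · rintro (⟨_ | _, d⟩ | c)
    · change b.1.D at d
      change Equiv.sumCongr (Assoc_eL a m b) (Equiv.refl Bool) _ =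
        (comp quad (nets3 a m b)).s (Sum.inl ⟨(2 : Fin 3), d⟩)
      rcases h : b.1.s (Sum.inl d) with d' | _ | _
      · rw [Assoc_ser_y_in _ _ h, Assoc_q_in a m b 2 h]
        rfl
      · rw [Assoc_ser_y_f _ _ h, Assoc_q2f a m b h]
        rfl
      · rw [Assoc_ser_y_t _ _ h, Assoc_q2t a m b h, Assoc_fst_f]
        rfl
    · obtain ⟨_ | _, d⟩ := d
      · change m.1.D at d
        change Equiv.sumCongr (Assoc_eL a m b) (Equiv.refl Bool) _ =
          (comp quad (nets3 a m b)).s (Sum.inl ⟨(1 : Fin 3), d⟩)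
        rcases h : m.1.s (Sum.inl d) with d' | _ | _
        · rw [Assoc_ser_x_in _ _ (Assoc_ser_y_in a m h), Assoc_q_in a m b 1 h]
          rfl
        · rw [Assoc_ser_x_f _ _ (Assoc_ser_y_f a m h), Assoc_q1f a m b h]
          rfl
        · rw [Assoc_ser_x_in _ _ (Assoc_ser_y_t a m h), Assoc_q1t a m b h]
          rfl
      · change a.1.D at d
        change Equiv.sumCongr (Assoc_eL a m b) (Equiv.refl Bool) _ =
          (comp quad (nets3 a m b)).s (Sum.inl ⟨(0 : Fin 3), d⟩)
        rcases h : a.1.s (Sum.inl d) with d' | _ | _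
        · rw [Assoc_ser_x_in _ _ (Assoc_ser_x_in a m h), Assoc_q_in a m b 0 h]
          rfl
        · rw [Assoc_ser_x_in _ _ (Assoc_ser_x_f a m h), Assoc_q0f a m b h]
          rfl
        · rw [Assoc_ser_x_t _ _ (Assoc_ser_x_t a m h), Assoc_q0t a m b h]
          rfl
    · change Equiv.sumCongr (Assoc_eL a m b) (Equiv.refl Bool) _ =
        (comp quad (nets3 a m b)).s (Sum.inr c)
      cases c
      · rw [Assoc_ser_f, Assoc_qf]
        rfl
      · rw [Assoc_ser_t, Assoc_qt, Assoc_fst_t]
        rfl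

theorem ser_quad_right (a m b : GB) :
    BIso (serMap a ⟨serMap m b, serMap_good _ _⟩) (comp quad (nets3 a m b)) := by
  refine ⟨Equiv.sumCongr (Assoc_eR a m b) (Equiv.refl Bool), ?_, ?_, rfl⟩
  · rintro (⟨_ | _, d⟩ | c)
    · obtain ⟨_ | _, d⟩ := d <;> rfl
    · rfl
    · rfl
  · rintro (⟨_ | _, d⟩ | c)
    · obtain ⟨_ | _, d⟩ := d
      · change b.1.D at d
        change Equiv.sumCongr (Assoc_eR a m b) (Equiv.refl Bool) _ =
          (comp quad (nets3 a m b)).s (Sum.inl ⟨(2 : Fin 3), d⟩)
        rcases h : b.1.s (Sum.inl d) with d' | _ | _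
        · rw [Assoc_ser_y_in _ _ (Assoc_ser_y_in m b h), Assoc_q_in a m b 2 h]
          rfl
        · rw [Assoc_ser_y_f _ _ (Assoc_ser_y_f m b h), Assoc_q2f a m b h]
          rfl
        · rw [Assoc_ser_y_in _ _ (Assoc_ser_y_t m b h), Assoc_q2t a m b h]
          rfl
      · change m.1.D at d
        change Equiv.sumCongr (Assoc_eR a m b) (Equiv.refl Bool) _ =
          (comp quad (nets3 a m b)).s (Sum.inl ⟨(1 : Fin 3), d⟩)
        rcases h : m.1.s (Sum.inl d) with d' | _ | _
        · rw [Assoc_ser_y_in _ _ (Assoc_ser_x_in m b h), Assoc_q_in a m b 1 h]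
          rfl
        · rw [Assoc_ser_y_in _ _ (Assoc_ser_x_f m b h), Assoc_q1f a m b h]
          rfl
        · rw [Assoc_ser_y_t _ _ (Assoc_ser_x_t m b h), Assoc_q1t a m b h]
          rfl
    · change a.1.D at d
      change Equiv.sumCongr (Assoc_eR a m b) (Equiv.refl Bool) _ =
        (comp quad (nets3 a m b)).s (Sum.inl ⟨(0 : Fin 3), d⟩)
      rcases h : a.1.s (Sum.inl d) with d' | _ | _
      · rw [Assoc_ser_x_in _ _ h, Assoc_q_in a m b 0 h]
        rfl
      · rw [Assoc_ser_x_f _ _ h, Assoc_q0f a m b h, Assoc_fst_t]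
        rfl
      · rw [Assoc_ser_x_t _ _ h, Assoc_q0t a m b h]
        rfl
    · change Equiv.sumCongr (Assoc_eR a m b) (Equiv.refl Bool) _ =
        (comp quad (nets3 a m b)).s (Sum.inr c)
      cases c
      · rw [Assoc_ser_f, Assoc_qf, Assoc_fst_f]
        rfl
      · rw [Assoc_ser_t, Assoc_qt]
        rfl

end quad

end PGr

end

section
/-! # Module ARser: series maps with crossing root edge are reduced iff the middle part is -/

set_option linter.unusedSectionVars false

namespace PGr
open Equiv Finset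

/-- The poles are not on the axis: an `AxSet` of a map with crossing root edge has no dart at the vertices of the root darts.  Proof: if
`x ∈ A` is at the vertex of `inr b`, this vertex contains a boundary corner of `A` (as `inr b ∉ A`; `Four.exists_bd_of_shC`), so it is fixed by `e`; but
`e (inr b) = inr (!b)` is at a different vertex (`noLoop`). -/
theorem pole_free {M : BMap} (hM : M.IsGood) {e : Perm M.T} (h : TwI true true M M e)
    {A : Finset M.T} (hA : AxSet M e A) {b : Bool} {x : M.T} (hx : x ∈ A) :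
    ¬ M.s.SameCycle x (Sum.inr b) := by
  intro hc
  have hr : (Sum.inr b : M.T) ∉ A := by
    cases b
    · exact fun h2 => hA.root ((hA.cl (Sum.inr true)).1 h2)
    · exact hA.root
  obtain ⟨z, hz, hz'⟩ := Four.exists_bd_of_shC (s := M.s) (A := A) (t := x)
    ⟨⟨x, hx, Perm.SameCycle.refl _ _⟩, Sum.inr b, hr, hc⟩
  have h2 := hA.ends z hz
  have h3 : M.s.SameCycle (Sum.inr b) z := hc.symm.trans hz'
  have h4 : M.s.SameCycle (e (Sum.inr b)) (e z) := (h.sameCycle _ _).1 h3
  have h5 : M.s.SameCycle (Sum.inr b) (e (Sum.inr b)) := h3.trans (h2.trans h4.symm)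
  rw [h.root] at h5
  have h6 : M.aa (Sum.inr b) = Sum.inr (xor true b) := by cases b <;> rfl
  rw [← h6] at h5
  exact Good.noLoop hM (Sum.inr b) h5

/-- a part which is moved by the reflection and which shares only one vertex with the other parts does
not meet an `AxSet` -/
theorem ARser_part {C : Core} {N : C.I → GB} {ψ : Perm C.toB.T} {e : Perm (comp C N).T}
    (hC : C.toB.IsGood) (h : CTw true true C C N N ψ e) {A : Finset (comp C N).T}
    (hA : AxSet (comp C N) e A) (i : C.I) (b0 : Bool)
    (h1 : ∀ j, j ≠ i → ∀ b b', C.s.SameCycle (Sum.inl (i, b)) (Sum.inl (j, b')) → b = b0)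
    (h2 : ∃ j, j ≠ i ∧ ∃ b b', ψ (Sum.inl (i, b)) = Sum.inl (j, b')) (d : (N i).1.D) :
    CompInj.dt N i d ∉ A := by
  classical
  intro hd
  have hM : (comp C N).IsGood := comp_good C N hC
  set B : Finset (comp C N).T := A.filter fun t => partOf C N t = some i with hB
  have hBm : ∀ t, t ∈ B ↔ t ∈ A ∧ partOf C N t = some i := fun t => by rw [hB, mem_filter]
  have hcl : Cl (comp C N).aa B := by
    intro t
    have hpa : partOf C N ((comp C N).aa t) = partOf C N t := by
      rcases t with ⟨i, d⟩ | b <;> rfl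
    rw [hBm, hBm, hA.cl t, hpa]
  have hne : B.Nonempty := ⟨CompInj.dt N i d, (hBm _).2 ⟨hd, rfl⟩⟩
  have hu : B ≠ univ := by
    intro hu
    have h3 : (Sum.inr true : (comp C N).T) ∈ B := by rw [hu]; exact mem_univ _
    exact hA.root ((hBm _).1 h3).1
  obtain ⟨j0, hj0, b1, b1', hψ⟩ := h2
  obtain ⟨φ, hφ, hφ'⟩ := h.nets i b1 j0 b1' hψ
  have key : ∀ z ∈ bd (comp C N).s B,
      (comp C N).s.SameCycle z (CompInj.dt N i (CompInj.lstD (N i) b0)) := by
    intro z hz
    have hsz : (comp C N).s.SameCycle z ((comp C N).s z) := ⟨1, by simp⟩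
    obtain ⟨x, y, hx, hy, hzx, hzy, hbd⟩ : ∃ x y, x ∈ B ∧ y ∉ B ∧ (comp C N).s.SameCycle z x ∧
        (comp C N).s.SameCycle z y ∧ (y ∉ A → z ∈ bd (comp C N).s A) := by
      rw [mem_bd] at hz
      by_cases hzB : z ∈ B
      · have hsB : (comp C N).s z ∉ B := fun h4 => hz ⟨fun _ => h4, fun _ => hzB⟩
        refine ⟨z, (comp C N).s z, hzB, hsB, Perm.SameCycle.refl _ _, hsz, fun h5 => ?_⟩
        rw [mem_bd]
        exact fun h6 => h5 (h6.1 ((hBm _).1 hzB).1)
      · have hsB : (comp C N).s z ∈ B := by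
          by_contra h4
          exact hz ⟨fun h5 => absurd h5 hzB, fun h5 => absurd h5 h4⟩
        refine ⟨(comp C N).s z, z, hsB, hzB, hsz, Perm.SameCycle.refl _ _, fun h5 => ?_⟩
        rw [mem_bd]
        exact fun h6 => h5 (h6.2 ((hBm _).1 hsB).1)
    obtain ⟨hxA, hxi⟩ := (hBm _).1 hx
    obtain ⟨i', d0, rfl⟩ | ⟨b, rfl⟩ := CompInj.cases_dt N x
    swap
    · cases hxi
    have hi' : i' = i := Option.some.inj hxi
    subst hi'
    refine hzx.trans ?_
    have fin : ∀ j d', j ≠ i' → (comp C N).s.SameCycle (CompInj.dt N i' d0) (CompInj.dt N j d') →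
        (comp C N).s.SameCycle (CompInj.dt N i' d0)
          (CompInj.dt N i' (CompInj.lstD (N i') b0)) := by
      intro j d' hj hc
      obtain ⟨b, b', e1, e2, e3⟩ := sc_parts hC (Ne.symm hj) hc
      have hb := h1 j hj b b' e3
      subst hb
      rw [sc_part hC i']
      refine e1.trans ?_
      refine Perm.SameCycle.symm ⟨1, ?_⟩
      rw [zpow_one]
      exact CompInj.lstD_spec (N i') b
    obtain ⟨j, d1, rfl⟩ | ⟨b, rfl⟩ := CompInj.cases_dt N y
    · by_cases hj : j = i'
      · subst hj
        have hyA : CompInj.dt N j d1 ∉ A := fun h5 => hy ((hBm _).2 ⟨h5, rfl⟩)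
        have h6 := hA.ends z (hbd hyA)
        obtain ⟨d2, hd2⟩ := hφ.inl d0
        have h7 : e (CompInj.dt N j d0) = CompInj.dt N j0 d2 := hφ' d0 d2 hd2
        have h8 : (comp C N).s.SameCycle (e z) (e (CompInj.dt N j d0)) :=
          (h.tw.sameCycle _ _).1 hzx
        rw [h7] at h8
        exact fin j0 d2 hj0 (hzx.symm.trans (h6.trans h8))
      · exact fin j d1 hj (hzx.symm.trans hzy)
    · exact absurd (hzx.symm.trans hzy) (pole_free hM h.tw hA hxA)
  obtain ⟨t, t', ht, ht', hn⟩ := Good.two_shared hM hcl hne hu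
  obtain ⟨z, hz, hz'⟩ := Four.exists_bd_of_shC ht
  obtain ⟨w, hw, hw'⟩ := Four.exists_bd_of_shC ht'
  exact hn ((hz'.trans (key z hz)).trans (hw'.trans (key w hw)).symm)

theorem ARser_inv {T V : Type} {s : Perm T} (f : T → V) (h : ∀ t, f (s t) = f t) {x y : T}
    (hxy : s.SameCycle x y) : f x = f y := by
  obtain ⟨k, rfl⟩ := hxy
  have h2 : ∀ t, f (s⁻¹ t) = f t := fun t => by
    have := h (s⁻¹ t)
    have h3 : s (s⁻¹ t) = t := by simp
    rw [h3] at this
    exact this.symm
  induction k using Int.induction_on with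
  | zero => rfl
  | succ n ih => rw [add_comm, zpow_add, zpow_one, Perm.mul_apply, h]; exact ih
  | pred n ih =>
    rw [sub_eq_add_neg, add_comm, zpow_add, zpow_neg_one, Perm.mul_apply, h2]
    exact ih

/-- the vertices of the triangle -/
def ARser_vt : (Bool × Bool) ⊕ Bool → ℕ
  | Sum.inr true => 0
  | Sum.inl (true, true) => 0
  | Sum.inl (true, false) => 1
  | Sum.inl (false, true) => 1
  | Sum.inl (false, false) => 2
  | Sum.inr false => 2

theorem ARser_vt_s : ∀ t : (Bool × Bool) ⊕ Bool, ARser_vt (tri.s t) = ARser_vt t := by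
  decide

/-- the vertices of the cycle of length 4 -/
def ARser_vq : (Fin 3 × Bool) ⊕ Bool → ℕ
  | Sum.inr true => 0
  | Sum.inl (0, true) => 0
  | Sum.inl (0, false) => 1
  | Sum.inl (1, true) => 1
  | Sum.inl (1, false) => 2
  | Sum.inl (2, true) => 2
  | Sum.inl (2, false) => 3
  | Sum.inr false => 3

theorem ARser_vq_s : ∀ t : (Fin 3 × Bool) ⊕ Bool, ARser_vq (quad.s t) = ARser_vq t := by
  decide

/-- Proof.  Let `A` be an `AxSet`, `B` the set of the darts of `A` in the first part (edge `true`).  Suppose `B` is not empty.  `B` is not the whole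
first part, as this part has darts at the vertex of `inr true` (`pole_free`); `B` is closed.  Every boundary corner `t` of `B` is
at the middle vertex (the vertex of the core of `(true, false)` and `(false, true)`): one of `t`, `s t` is in `B`, the other, `z`, not.  If `z` is in the
first part then `z ∉ A`, `t` is a boundary corner of `A`, its vertex contains a dart `x ∈ B` and `e x`, which is in the second part; the only
vertex of the core with darts of both edges is the middle one (`sc_parts`).  If `z` is in the second part, the same.  `z` is a root dart: impossible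
by `pole_free`.  This contradicts `Good.two_shared` (two boundary corners at different vertices).  So `B` is empty, and as `e` exchanges the parts `A` is
empty, but its cut is 4. -/
theorem ared_tri {a b : GB} {ψ : Perm tri.toB.T} {e : Perm (comp tri (serNets a b)).T}
    (h : CTw true true tri tri (serNets a b) (serNets a b) ψ e)
    (hψ : ∀ i b, ψ (Sum.inl (i, b)) = Sum.inl (!i, !b)) : ARed (comp tri (serNets a b)) e := by
  intro A hA
  exfalso
  have h1 : ∀ j : Bool, j ≠ true → ∀ b b', tri.s.SameCycle (Sum.inl (true, b)) (Sum.inl (j, b')) →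
      b = false := by
    intro j hj b b' hc
    have h2 := ARser_inv ARser_vt ARser_vt_s hc
    revert h2
    cases j <;> cases b <;> cases b' <;> simp_all [ARser_vt]
  have h2 : ∀ j : Bool, j ≠ false → ∀ b b',
      tri.s.SameCycle (Sum.inl (false, b)) (Sum.inl (j, b')) → b = true := by
    intro j hj b b' hc
    have h2 := ARser_inv ARser_vt ARser_vt_s hc
    revert h2
    cases j <;> cases b <;> cases b' <;> simp_all [ARser_vt]
  have hA0 : A = ∅ := by
    rw [eq_empty_iff_forall_notMem]
    intro x hx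
    obtain ⟨i, d, rfl⟩ | ⟨b', rfl⟩ := CompInj.cases_dt (serNets a b) x
    · cases i
      · exact ARser_part tri_good h hA false true h2 ⟨true, Bool.noConfusion, true, false, hψ _ _⟩ d hx
      · exact ARser_part tri_good h hA true false h1 ⟨false, Bool.noConfusion, true, false, hψ _ _⟩ d hx
    · exact pole_free (serMap_good a b) h.tw hA hx (b := b') (Perm.SameCycle.refl _ _)
  have h4 := hA.cut4
  rw [hA0] at h4
  simp [cut, bd] at h4

/-- Proof.  `ax_part` for the middle part shows that an `AxSet` of `m` gives one of the composite (the alternative `b = b'` is excluded).  Conversely it is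
enough to show that an `AxSet` `A` of the composite is inside the middle part.  Let `B` be the set of the darts of `A` in the first part, suppose it is
not empty.  No vertex contains darts of the first and of the third part, so no vertex with a dart `x` of the first part is fixed by `e`.  Hence every
boundary corner of `B` has its other dart in the middle part (not in the first part: this would be a boundary corner of `A` at a vertex not fixed;
not a root dart: `pole_free`), so all boundary corners of `B` are at the vertex of the core at `(0, false)`, a contradiction to `Good.two_shared`.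
The third part: apply `e`. -/
theorem ared_quad {a m b : GB} {ψ : Perm quad.toB.T} {e : Perm (comp quad (nets3 a m b)).T}
    (h : CTw true true quad quad (nets3 a m b) (nets3 a m b) ψ e)
    (h0 : ∀ b, ψ (Sum.inl ((0 : Fin 3), b)) = Sum.inl ((2 : Fin 3), !b))
    (h1 : ∀ b, ψ (Sum.inl ((1 : Fin 3), b)) = Sum.inl ((1 : Fin 3), !b))
    (h2 : ∀ b, ψ (Sum.inl ((2 : Fin 3), b)) = Sum.inl ((0 : Fin 3), !b))
    {φ : Perm m.1.T} (hφ : TwI true true m.1 m.1 φ) :
    ARed (comp quad (nets3 a m b)) e ↔ ARed m.1 φ := by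
  have n20 : (2 : Fin 3) ≠ (0 : Fin 3) := by decide
  classical
  have hcard : 2 ≤ Fintype.card quad.I := by
    show 2 ≤ Fintype.card (Fin 3)
    decide
  have hax := fun B : Finset (nets3 a m b (1 : Fin 3)).1.D =>
    ax_part (C := quad) (N := nets3 a m b) (ψ := ψ) (e := e) quad_good hcard h (i := (1 : Fin 3))
      (b := true) (b' := false) (h1 true) (φ := φ) hφ B
  constructor
  · intro hR A' hA'
    set B : Finset m.1.D := univ.filter fun d => (Sum.inl d : m.1.T) ∈ A' with hB
    have hBA : dn B = A' := by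
      ext t
      rcases t with d | b
      · simp [dn, hB]
      · have h3 : (Sum.inr b : m.1.T) ∉ A' := by
          cases b
          · exact fun h4 => hA'.root ((hA'.cl (Sum.inr true)).1 h4)
          · exact hA'.root
        simp [dn, h3]
    have h5 := (hax B).2 (Or.inl (by
      have : AxSet m.1 φ (dn B) := by rw [hBA]; exact hA'
      exact this))
    have h6 := hR _ h5
    rw [← hBA]
    unfold dn
    rw [card_map]
    unfold upS at h6
    rw [card_map] at h6
    exact h6
  · intro hR A hA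
    have g0 : ∀ j : Fin 3, j ≠ 0 → ∀ b b', quad.s.SameCycle (Sum.inl ((0 : Fin 3), b))
        (Sum.inl (j, b')) → b = false := by
      intro j hj b b' hc
      have h3 := ARser_inv ARser_vq ARser_vq_s hc
      revert h3
      fin_cases j <;> cases b <;> cases b' <;> simp_all [ARser_vq]
    have g2 : ∀ j : Fin 3, j ≠ 2 → ∀ b b', quad.s.SameCycle (Sum.inl ((2 : Fin 3), b))
        (Sum.inl (j, b')) → b = true := by
      intro j hj b b' hc
      have h3 := ARser_inv ARser_vq ARser_vq_s hc
      revert h3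
      fin_cases j <;> cases b <;> cases b' <;> simp_all [ARser_vq]
    set B : Finset (nets3 a m b (1 : Fin 3)).1.D :=
      univ.filter fun d => CompInj.dt (C := quad) (nets3 a m b) (1 : Fin 3) d ∈ A with hB
    have hBA : upS (C := quad) (nets3 a m b) (1 : Fin 3) B = A := by
      ext t
      unfold upS
      rw [mem_map]
      constructor
      · rintro ⟨d, hd, rfl⟩
        exact (mem_filter.1 hd).2
      · intro ht
        obtain ⟨i, d, rfl⟩ | ⟨b', rfl⟩ := CompInj.cases_dt (C := quad) (nets3 a m b) t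
        · have hi : i = (0 : Fin 3) ∨ i = (1 : Fin 3) ∨ i = (2 : Fin 3) := by
            have : ∀ i : Fin 3, i = 0 ∨ i = 1 ∨ i = 2 := by decide
            exact this i
          rcases hi with rfl | rfl | rfl
          · exact absurd ht (ARser_part quad_good h hA (0 : Fin 3) false g0
              ⟨(2 : Fin 3), n20, true, false, h0 _⟩ d)
          · exact ⟨d, mem_filter.2 ⟨mem_univ _, ht⟩, rfl⟩
          · exact absurd ht (ARser_part quad_good h hA (2 : Fin 3) true g2
              ⟨(0 : Fin 3), n20.symm, true, false, h2 _⟩ d)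
        · exact absurd (Perm.SameCycle.refl _ _)
            (pole_free (comp_good quad (nets3 a m b) quad_good) h.tw hA ht (b := b'))
    have h5 := (hax B).1 (by rw [hBA]; exact hA)
    rcases h5 with h5 | ⟨-, h5⟩
    · have h6 := hR _ h5
      rw [← hBA]
      unfold upS
      rw [card_map]
      have h7 : (dn B).card = B.card := by
        unfold dn
        rw [card_map]
      rw [← h7]
      exact h6
    · cases h5

end PGr

end
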