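import Pool.Agent.PGm.M06
import Pool.Agent.PGm.M10
import Pool.Agent.PGm.M12
import Pool.Agent.PGm.M13
import Pool.Agent.PGr.CompIso
import Pool.Agent.PGr.CompV
import Pool.Agent.PGr.Digon

section
/-! # Module CompDual: the dual of a composite -/

set_option linter.unusedSectionVars false

namespace PGr
open Equiv Finset

/-- The bijection is `inl (i, b) ↦ inl (i, !b)`, `inr b ↦ inr b`: with `G` this bijection and `F` the exchange of the root darts, `(ddCore C).s = F * C.s * G`, and
`G (aa y) = F y` for all `y`, so `(ddCore C).s (G x) = F (C.s x) = G (aa (C.s x))` (`G` is an involution). -/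
theorem dd_iso (C : Core) : BIso C.toB.dual (ddCore C).toB := by
  have hGG : ∀ t : (C.I × Bool) ⊕ Bool,
      Perm.sumCongr (Equiv.prodCongr (Equiv.refl C.I) Equiv.boolNot) (1 : Perm Bool)
        (Perm.sumCongr (Equiv.prodCongr (Equiv.refl C.I) Equiv.boolNot) (1 : Perm Bool) t) = t := by
    rintro (⟨i, b⟩ | b)
    · cases b <;> rfl
    · rfl
  have hGa : ∀ y : (C.I × Bool) ⊕ Bool,
      Perm.sumCongr (Equiv.prodCongr (Equiv.refl C.I) Equiv.boolNot) (1 : Perm Bool)
        (ext (Equiv.prodCongr (Equiv.refl C.I) Equiv.boolNot) y) =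
      Perm.sumCongr (1 : Perm (C.I × Bool)) Equiv.boolNot y := by
    rintro (⟨i, b⟩ | b)
    · cases b <;> rfl
    · cases b <;> rfl
  refine ⟨(Perm.sumCongr (Equiv.prodCongr (Equiv.refl C.I) Equiv.boolNot) (1 : Perm Bool) :
    Perm ((C.I × Bool) ⊕ Bool)), ?_, ?_, rfl⟩
  · rintro (⟨i, b⟩ | b)
    · rfl
    · rfl
  · have key : ∀ t : (C.I × Bool) ⊕ Bool,
        Perm.sumCongr (Equiv.prodCongr (Equiv.refl C.I) Equiv.boolNot) (1 : Perm Bool)
        (ext (Equiv.prodCongr (Equiv.refl C.I) Equiv.boolNot) (C.s t)) =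
      Perm.sumCongr (1 : Perm (C.I × Bool)) Equiv.boolNot (C.s
        (Perm.sumCongr (Equiv.prodCongr (Equiv.refl C.I) Equiv.boolNot) (1 : Perm Bool)
          (Perm.sumCongr (Equiv.prodCongr (Equiv.refl C.I) Equiv.boolNot) (1 : Perm Bool) t))) := by
      intro t
      rw [hGG, hGa]
    exact key

theorem dd_good {C : Core} (hC : C.toB.IsGood) : (ddCore C).toB.IsGood :=
  (dd_iso C).good hC.dual

private theorem cd_fst (M : GB) (b : Bool) : fstD M.dual b = M.1.a (fstD M b) := by
  have h1 : M.dual.1.s (Sum.inr b) = Sum.inl (fstD M.dual b) := fstD_spec M.dual b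
  have h2 : M.dual.1.s (Sum.inr b) = Sum.inl (M.1.a (fstD M b)) := by
    change M.1.aa (M.1.s (Sum.inr b)) = _
    rw [fstD_spec]
    rfl
  exact Sum.inl_injective (h1.symm.trans h2)

private theorem cd_jump (C : Core) (N : C.I → GB) (y : (C.I × Bool) ⊕ Bool) :
    (comp C N).aa (jump C N y) = jump (ddCore C) (fun i => (N i).dual)
      (Perm.sumCongr (1 : Perm (C.I × Bool)) Equiv.boolNot y) := by
  rcases y with ⟨j, b⟩ | b
  · change (Sum.inl ⟨j, (N j).1.a (fstD (N j) b)⟩ : (comp C N).T) =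
      Sum.inl ⟨j, fstD (N j).dual b⟩
    rw [cd_fst]
  · rfl

/-- The identity on the darts.  Let `t = dt i d`.  If `(N i).s (inl d) = inl d'` both rotations map `t` to `dt i (a d')`.  If `(N i).s (inl d) = inr b` then
the rotation of the dual maps `t` to `aa (J (C.s (inl (i, b))))`, and the dual net maps `inl d` to `inr (!b)`, so the right side is `J ((ddCore C).s (inl (i, !b)))` and
`(ddCore C).s (inl (i, !b)) = F (C.s (inl (i, b)))`; the first dart of the dual net `N j` at `b'` is `a` of the first dart of `N j` at `b'`; a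
root dart `inr b'` is mapped to `inr (!b')` on both sides.  The same for `t = inr b`. -/
theorem comp_dual (C : Core) (N : C.I → GB) :
    BIso (comp C N).dual (comp (ddCore C) (fun i => (N i).dual)) := by
  refine ⟨Equiv.refl _, fun t => rfl, ?_, rfl⟩
  rintro (⟨i, d⟩ | b)
  · change (comp C N).aa ((comp C N).s (Sum.inl ⟨i, d⟩)) =
      (comp (ddCore C) (fun i => (N i).dual)).s (Sum.inl ⟨i, d⟩)
    rcases h : (N i).1.s (Sum.inl d) with d' | b
    · have h' : ((N i).dual).1.s (Sum.inl d) = Sum.inl ((N i).1.a d') := by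
        change (N i).1.aa ((N i).1.s (Sum.inl d)) = _
        rw [h]
        rfl
      rw [comp_s_in C N h]
      exact (comp_s_in (ddCore C) (fun i => (N i).dual) h').symm
    · have h' : ((N i).dual).1.s (Sum.inl d) = Sum.inr (!b) := by
        change (N i).1.aa ((N i).1.s (Sum.inl d)) = _
        rw [h]
        rfl
      rw [comp_s_out C N h, cd_jump]
      refine Eq.trans ?_ (comp_s_out (ddCore C) (fun i => (N i).dual) h').symm
      have h3 : (ddCore C).s (Sum.inl (i, !b)) =
          Perm.sumCongr (1 : Perm (C.I × Bool)) Equiv.boolNot (C.s (Sum.inl (i, b))) := by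
        change Perm.sumCongr (1 : Perm (C.I × Bool)) Equiv.boolNot (C.s (Sum.inl (i, !(!b)))) = _
        rw [Bool.not_not]
      rw [h3]
  · change (comp C N).aa ((comp C N).s (Sum.inr b)) =
      (comp (ddCore C) (fun i => (N i).dual)).s (Sum.inr b)
    rw [comp_s_root, cd_jump]
    rfl

private theorem cd_dd (M : GB) : M.dual.dual = M := Subtype.ext (dual_dual M.2)

private theorem cd_ddi (M : GB) : BIso M.dual.dual.1 M.1 := by
  rw [cd_dd]
  exact BIso.refl _

/-- `comp_dual` for `tri` and the duals of `a`, `b`; the dual of the dual is isomorphic to the map (`comp_iso`) -/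
theorem par_bond (a b : GB) : BIso (parMap a b) (comp (ddCore tri) (serNets a b)) := by
  have h1 : BIso (parMap a b) (comp (ddCore tri) (fun i => (serNets a.dual b.dual i).dual)) :=
    comp_dual tri (serNets a.dual b.dual)
  refine h1.trans (comp_iso (ddCore tri) _ _ ?_)
  rintro (_ | _)
  · exact cd_ddi b
  · exact cd_ddi a

/-- `ser_quad_right` -/
theorem par_bond3 (a m b : GB) :
    BIso (parMap a ⟨parMap m b, parMap_good _ _⟩) (comp (ddCore quad) (nets3 a m b)) := by
  have e1 : (GB.dual ⟨parMap m b, parMap_good _ _⟩) =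
      ⟨serMap m.dual b.dual, serMap_good _ _⟩ := cd_dd ⟨serMap m.dual b.dual, serMap_good _ _⟩
  have h1 : BIso (parMap a ⟨parMap m b, parMap_good _ _⟩)
      (serMap a.dual ⟨serMap m.dual b.dual, serMap_good _ _⟩).dual := by
    unfold parMap
    rw [show (GB.dual ⟨(serMap m.dual b.dual).dual, parMap_good _ _⟩) =
      ⟨serMap m.dual b.dual, serMap_good _ _⟩ from e1]
    exact BIso.refl _
  have h2 := (ser_quad_right a.dual m.dual b.dual).dual
  have h3 := comp_dual quad (nets3 a.dual m.dual b.dual)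
  refine ((h1.trans h2).trans h3).trans (comp_iso (ddCore quad) _ _ ?_)
  have key : ∀ i : Fin 3, BIso ((nets3 a.dual m.dual b.dual i).dual).1 (nets3 a m b i).1 := by
    intro i
    fin_cases i
    · exact cd_ddi a
    · exact cd_ddi m
    · exact cd_ddi b
  exact key

private theorem cd_nV {C : Core} (hC : C.toB.IsGood) :
    2 * (nV C.s + nV (ddCore C).s) = Fintype.card (C.I × Bool) + 6 := by
  have h0 : nV C.toB.dual.s = nV (ddCore C).toB.s := (dd_iso C).nV_eq
  have h1 := Good.euler hC
  have h2 : Fintype.card C.toB.T = Fintype.card (C.I × Bool) + 2 := by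
    change Fintype.card ((C.I × Bool) ⊕ Bool) = _
    rw [Fintype.card_sum, Fintype.card_bool]
  have h3 : nV (C.toB.aa * C.toB.s) = nV (ddCore C).s := h0
  have h4 : nV C.toB.s = nV C.s := rfl
  rw [h3, h4, h2] at h1
  have h5 : Fintype.card (C.I × Bool) = Fintype.card C.I * 2 := by
    rw [Fintype.card_prod, Fintype.card_bool]
  omega

/-- the numbers of vertices (`decide`-like as `tri_nV`, or Euler) -/
theorem bond_nV : nV (ddCore tri).s = 2 := by
  have h := cd_nV tri_good
  have h1 : Fintype.card (tri.I × Bool) = 4 := rfl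
  rw [h1, tri_nV] at h
  omega

theorem bond3_nV : nV (ddCore quad).s = 2 := by
  have h := cd_nV quad_good
  have h1 : Fintype.card (quad.I × Bool) = 6 := rfl
  rw [h1, quad_nV] at h
  omega

end PGr

end

section
/-!
# Rigid maps with a rotation: definitions

Two kinds of rotations of a rooted map: rotations of order `k` about the root vertex (`Rot`), and
rotations which exchange the two root darts (`TwI false true`; they have order 2, and one of the two poles is the
middle of the root edge).  Face weights are 1 except for a fixed face.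
-/

set_option linter.unusedSectionVars false

namespace PGr
open Equiv Finset
open scoped ENNReal Classical

/-- the weight of a net without symmetry: inner vertices, nonroot edges -/
noncomputable def nwt (S Y : ℝ≥0∞) (M : BMap) : ℝ≥0∞ :=
  S ^ (nV M.s - 2) * Y ^ (Fintype.card M.D / 2)

/-- the weight of a map with a rotation exchanging the two root darts; the root edge and its ends are not
weighted -/
noncomputable def pW (S Y kv kf ke : ℝ≥0∞) (M : BMap) (e : Perm M.T) : ℝ≥0∞ :=
  S ^ (nV M.s - 2 - nFix M.s e) * Y ^ (Fintype.card M.T / 2 - nFix M.aa e) *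
    kv ^ nFix M.s e * kf ^ nFix (M.aa * M.s) e * ke ^ (nFix M.aa e - 1)

/-- the weight of `M` if it has a rotation exchanging the two root darts, otherwise 0 -/
noncomputable def wPi (S Y kv kf ke : ℝ≥0∞) (M : BMap) : ℝ≥0∞ :=
  ∑ e : Perm M.T, if TwI false true M M e then pW S Y kv kf ke M e else 0

/-- nets with a rotation exchanging the two root darts, with the property `P` -/
noncomputable def FRsel (S Y kv kf ke : ℝ≥0∞) (P : BMap → Prop) : ℝ≥0∞ :=
  ∑' c : GC, if P c.rep.1 then wPi S Y kv kf ke c.rep.1 else 0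

/-- all nets with a rotation exchanging the two root darts -/
noncomputable def FRs (S Y kv kf ke : ℝ≥0∞) : ℝ≥0∞ := ∑' c : GC, wPi S Y kv kf ke c.rep.1

/-- the weight of a map with a rotation about the vertex of `r`, which is not weighted; `ζ` is the
weight of the edges at this vertex -/
noncomputable def wS {T : Type*} [Fintype T] (S Y kv kf ke ζ : ℝ≥0∞) (a s ρ : Perm T) (r : T) :
    ℝ≥0∞ :=
  S ^ (nV s - nFix s ρ) * Y ^ (Fintype.card T / 2 - nFix a ρ - dgs s r) *
    kv ^ (nFix s ρ - 1) * kf ^ nFix (a * s) ρ * ke ^ nFix a ρ * ζ ^ dgs s r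

/-- the same for a rooted map (0 if there is no rotation of order `k` about the root vertex) -/
noncomputable def wSc (k : ℕ) (S Y kv kf ke ζ : ℝ≥0∞) (M : BMap) : ℝ≥0∞ :=
  if h : IsV k M then wS S Y kv kf ke ζ M.aa M.s h.choose (Sum.inr true) else 0

/-- no bond, and all maximal sets are single edges -/
def Al2 (k : ℕ) (M : BMap) : Prop :=
  ∃ ρ, Rot M.aa M.s ρ k (Sum.inr true) ∧ ¬ Bd M.aa M.s ρ k (Sum.inr true) ∧
    ∀ A, MaxV M.aa M.s ρ k (Sum.inr true) A → A.card = 2

/-- the same, root vertex of degree at least 3 -/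
def ZC (k : ℕ) (M : BMap) : Prop := Al2 k M ∧ 3 ≤ dgs M.s (Sum.inr true)

noncomputable def ZS (k : ℕ) (S Y kv kf ke ζ : ℝ≥0∞) : ℝ≥0∞ :=
  ∑' c : GC, if ZC k c.rep.1 then wSc k S Y kv kf ke ζ c.rep.1 else 0

/-- rigid maps with a rotation about the root vertex -/
noncomputable def RS (k : ℕ) (S Y kv kf ke ζ : ℝ≥0∞) : ℝ≥0∞ :=
  ∑' c : GC, if Rigid c.rep.1 then wSc k S Y kv kf ke ζ c.rep.1 else 0

/-! ### Cores -/

/-- the edge `i` of the core is at the root vertex -/
def AtV (C : Core) (i : C.I) : Prop := ∃ b, C.s.SameCycle (Sum.inr true) (Sum.inl (i, b))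

/-- `e` is an automorphism (without root) of the composite which induces the automorphism `ψ` of the core
and isomorphisms of the nets.  If `ψ` maps an edge of the core to the root edge or conversely, nothing is said about
the net on this edge (it has two nonroot darts then). -/
structure CAut (C : Core) (N : C.I → GB) (ψ : Perm C.toB.T) (e : Perm (comp C N).T) : Prop where
  caa : ∀ x, ψ (C.toB.aa x) = C.toB.aa (ψ x)
  cs : ∀ x, ψ (C.s x) = C.s (ψ x)
  aa : ∀ t, e ((comp C N).aa t) = (comp C N).aa (e t)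
  s : ∀ t, e ((comp C N).s t) = (comp C N).s (e t)
  L : ∀ x, e (CompInj.L N x) = CompInj.L N (ψ x)
  nets : ∀ i b i' b', ψ (Sum.inl (i, b)) = Sum.inl (i', b') →
    ∃ φ : (N i).1.T ≃ (N i').1.T, TwI false (xor b b') (N i).1 (N i').1 φ ∧
      ∀ d d', φ (Sum.inl d) = Sum.inl d' → e (CompInj.dt N i d) = CompInj.dt N i' d'

/-- exchange of the root edge and the edge `i`: `inr true ↔ inl (i, b)` -/
def swR {I : Type} [DecidableEq I] (i : I) (b : Bool) : Perm ((I × Bool) ⊕ Bool) :=
  swap (Sum.inr true) (Sum.inl (i, b)) * swap (Sum.inr false) (Sum.inl (i, !b))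

/-- the core with root dart `inl (i, b)`; the edge `i` is now the old root edge -/
def reCore (C : Core) (i : C.I) (b : Bool) : Core where
  I := C.I
  s := swR i b * C.s * swR i b

/-- the weight of the net on the edge `i`, in a core with a rotation `ψ` exchanging the root darts -/
noncomputable def pwt (S Y kv kf ke : ℝ≥0∞) (C : Core) (ψ : Perm C.toB.T) (i : C.I) (M : BMap) :
    ℝ≥0∞ :=
  if ψ (Sum.inl (i, true)) = Sum.inl (i, false) then wPi S Y kv kf ke M else nwt S Y M

/-- the weight of the net on the edge `i`, in a core with a rotation `ψ` about the root vertex -/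
noncomputable def swt (S Y kv kf ke : ℝ≥0∞) (C : Core) (ψ : Perm C.toB.T) (i : C.I) (M : BMap) :
    ℝ≥0∞ :=
  if AtV C i then 1 else pwt S Y kv kf ke C ψ i M

/-! ### `k`-th roots and the two unknown functions -/

/-- `k`-th root -/
noncomputable def kr (k : ℕ) (x : ℝ≥0∞) : ℝ≥0∞ := x ^ ((k : ℝ)⁻¹)

/-- maps with a rotation about the root vertex, divided by `z` -/
noncomputable def nS (k : ℕ) (s y kv kf ke z : ℝ≥0∞) : ℝ≥0∞ :=
  ke + gV k (kr k s) 1 (kr k y) kv kf ke (kr k z) / z

/-- maps with a rotation about the root face, divided by `f` -/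
noncomputable def hS (k : ℕ) (s y kv kf ke f : ℝ≥0∞) : ℝ≥0∞ :=
  ke * s + gF k (kr k s) 1 (kr k y) kv kf ke (kr k f) / f

/-- truncations -/
noncomputable def nM (k : ℕ) (s y kv kf ke : ℝ≥0∞) (M : ℕ) (z : ℝ≥0∞) : ℝ≥0∞ :=
  if M = 0 then 0 else ke + gVt k M (kr k s) 1 (kr k y) kv kf ke (kr k z) / z

noncomputable def hM (k : ℕ) (s y kv kf ke : ℝ≥0∞) (M : ℕ) (f : ℝ≥0∞) : ℝ≥0∞ :=
  if M = 0 then 0 else ke * s + gFt k M (kr k s) 1 (kr k y) kv kf ke (kr k f) / f

/-- rigid maps with a rotation about the root vertex of degree `k * (δ + 1)` -/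
noncomputable def RSd (k : ℕ) (S Y kv kf ke : ℝ≥0∞) (δ : ℕ) : ℝ≥0∞ :=
  ∑' c : GC, if Rigid c.rep.1 ∧ dgs c.rep.1.s (Sum.inr true) = k * (δ + 1) then
    wSc k S Y kv kf ke 1 c.rep.1 else 0

end PGr

end

section
/-! # Module UCnt: the weights are class functions -/

set_option linter.unusedSectionVars false

namespace PGr
open Equiv Finset
open scoped ENNReal Classical

section
variable {T : Type*} [Fintype T] [DecidableEq T] {T' : Type*} [Fintype T'] [DecidableEq T']
  {a s ρ : Perm T} {a' s' : Perm T'} {k : ℕ} {r : T} {S Y kv kf ke ζ : ℝ≥0∞}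

private theorem UCnt_ft (f : T ≃ T') (t : T) : ((f.symm.trans ρ).trans f) (f t) = f (ρ t) := by
  simp only [Equiv.trans_apply]
  rw [Equiv.symm_apply_apply]

private theorem UCnt_sc (f : T ≃ T') (h2 : ∀ t, f (s t) = s' (f t)) (x y : T) :
    s'.SameCycle (f x) (f y) ↔ s.SameCycle x y := by
  constructor
  · rintro ⟨i, hi⟩
    refine ⟨i, f.injective ?_⟩
    rw [CutIso.zpow f h2, hi]
  · rintro ⟨i, hi⟩
    exact ⟨i, by rw [← CutIso.zpow f h2, hi]⟩

theorem nFix_conj (f : T ≃ T') (hs : ∀ t, f (s t) = s' (f t)) (ρ : Perm T) :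
    nFix s' ((f.symm.trans ρ).trans f) = nFix s ρ := by
  unfold nFix
  symm
  let F : Quotient (Perm.SameCycle.setoid s) ≃ Quotient (Perm.SameCycle.setoid s') :=
    Quotient.congr f (fun x y => (UCnt_sc f hs x y).symm)
  refine Nat.card_congr (F.subtypeEquiv ?_)
  intro q
  constructor
  · rintro ⟨t, rfl, ht⟩
    refine ⟨f t, rfl, ?_⟩
    rw [UCnt_ft, UCnt_sc f hs]
    exact ht
  · rintro ⟨t', h5, ht⟩
    obtain ⟨t, rfl⟩ := f.surjective t'
    refine ⟨t, F.injective (h5.trans rfl), ?_⟩
    rw [UCnt_ft, UCnt_sc f hs] at ht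
    exact ht

theorem dgs_conj (f : T ≃ T') (hs : ∀ t, f (s t) = s' (f t)) (r : T) :
    dgs s' (f r) = dgs s r := by
  unfold dgs
  rw [minimalPeriod_eq_card, minimalPeriod_eq_card]
  symm
  refine Finset.card_bij (fun t _ => f t) ?_ (fun t _ t' _ h5 => f.injective h5) ?_
  · intro t ht
    rw [mem_filter] at ht ⊢
    exact ⟨mem_univ _, (UCnt_sc f hs _ _).2 ht.2⟩
  · intro t' ht'
    obtain ⟨t, rfl⟩ := f.surjective t'
    rw [mem_filter] at ht'
    exact ⟨t, by rw [mem_filter]; exact ⟨mem_univ _, (UCnt_sc f hs _ _).1 ht'.2⟩, rfl⟩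

private theorem UCnt_pow {σ : Perm T} (hc : ∀ t, ρ (σ t) = σ (ρ t)) (i : ℕ) {t : T}
    (h : σ.SameCycle t (ρ t)) : σ.SameCycle t ((ρ ^ i) t) := by
  have hc' : ∀ (n : ℕ) (t : T), ρ ((σ ^ n) t) = (σ ^ n) (ρ t) := by
    intro n
    induction n with
    | zero => intro t; rfl
    | succ n ih =>
      intro t
      rw [pow_succ, Perm.mul_apply, ih, hc, Perm.mul_apply]
  induction i with
  | zero => exact Perm.SameCycle.refl _ _
  | succ i ih =>
    rw [pow_succ', Perm.mul_apply]
    obtain ⟨n, -, hn⟩ := ih.exists_pow_eq'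
    have h1 : σ.SameCycle (ρ t) (ρ ((ρ ^ i) t)) := by
      rw [← hn, hc']
      exact ⟨n, by rw [zpow_natCast]⟩
    exact h.trans h1

private theorem UCnt_nFix_eq {σ ρ' : Perm T}
    (h : ∀ t, σ.SameCycle t (ρ t) ↔ σ.SameCycle t (ρ' t)) : nFix σ ρ = nFix σ ρ' := by
  unfold nFix
  refine Nat.card_congr (Equiv.subtypeEquivRight fun q => ?_)
  constructor
  · rintro ⟨t, h1, h2⟩
    exact ⟨t, h1, (h t).1 h2⟩
  · rintro ⟨t, h1, h2⟩
    exact ⟨t, h1, (h t).2 h2⟩

/-- `Rot.pow_eq`: the cells fixed by `ρ` and by `ρ ^ i`, `i` prime to `k`, are the same (see `wR_indep` in Cnt) -/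
theorem nFix_indep (h : Good a s) {ρ' : Perm T} (hr : Rot a s ρ k r) (hr' : Rot a s ρ' k r) :
    nFix s ρ' = nFix s ρ ∧ nFix a ρ' = nFix a ρ ∧ nFix (a * s) ρ' = nFix (a * s) ρ := by
  obtain ⟨i, -, hi⟩ := Rot.pow_eq h hr hr'
  obtain ⟨j, -, hj⟩ := Rot.pow_eq h hr' hr
  have key : ∀ σ : Perm T, (∀ t, ρ (σ t) = σ (ρ t)) → (∀ t, ρ' (σ t) = σ (ρ' t)) →
      nFix σ ρ' = nFix σ ρ := by
    intro σ h1 h2
    refine UCnt_nFix_eq fun t => ⟨fun h3 => ?_, fun h3 => ?_⟩
    · rw [hj]
      exact UCnt_pow h2 j h3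
    · rw [hi]
      exact UCnt_pow h1 i h3
  have hp : ∀ t, ρ ((a * s) t) = (a * s) (ρ t) := by
    intro t
    rw [Perm.mul_apply, Perm.mul_apply, hr.ra, hr.rs]
  have hp' : ∀ t, ρ' ((a * s) t) = (a * s) (ρ' t) := by
    intro t
    rw [Perm.mul_apply, Perm.mul_apply, hr'.ra, hr'.rs]
  exact ⟨key s hr.rs hr'.rs, key a hr.ra hr'.ra, key (a * s) hp hp'⟩

theorem wS_iso (f : T ≃ T') (ha : ∀ t, f (a t) = a' (f t)) (hs : ∀ t, f (s t) = s' (f t)) :
    wS S Y kv kf ke ζ a' s' ((f.symm.trans ρ).trans f) (f r) = wS S Y kv kf ke ζ a s ρ r := by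
  have hp : ∀ t, f ((a * s) t) = (a' * s') (f t) := by
    intro t
    rw [Perm.mul_apply, Perm.mul_apply, ha, hs]
  unfold wS
  rw [nFix_conj f hs, nFix_conj f ha, nFix_conj f hp, dgs_conj f hs, ← nV_iso f hs,
    Fintype.card_congr f]

theorem wS_indep (h : Good a s) {ρ' : Perm T} (hr : Rot a s ρ k r) (hr' : Rot a s ρ' k r) :
    wS S Y kv kf ke ζ a s ρ' r = wS S Y kv kf ke ζ a s ρ r := by
  obtain ⟨h1, h2, h3⟩ := nFix_indep h hr hr'
  unfold wS
  rw [h1, h2, h3]

/-- if `k ≠ 2` there is no reversed edge (`Rot.edge`, `Rot.trichotomy`) -/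
theorem wS_ke (h : Good a s) (hr : Rot a s ρ k r) (hk : k ≠ 2) (ke' : ℝ≥0∞) :
    wS S Y kv kf ke ζ a s ρ r = wS S Y kv kf ke' ζ a s ρ r := by
  have h0 : nFix a ρ = 0 := by
    rcases Rot.trichotomy h hr with h1 | h1 | h1
    · exact h1.2.2.2.2.2
    · exact h1.2.2.2.2.2
    · exfalso
      obtain ⟨x, hx⟩ := h1.2.2.1
      have h2 : (ρ ^ 1) x = a x := by rw [pow_one]; exact hx
      exact hk (Rot.edge h hr (by omega) (by have := hr.k2; omega) h2).1
  unfold wS
  rw [h0, pow_zero, pow_zero]

end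

section
variable {M N : BMap} {k : ℕ} {S Y kv kf ke ζ : ℝ≥0∞}

private theorem UCnt_rot (h : BIso M N) {ρ : Perm M.T} (hr : Rot M.aa M.s ρ k (Sum.inr true)) :
    ∃ e : M.T ≃ N.T, (∀ t, e (M.aa t) = N.aa (e t)) ∧ (∀ t, e (M.s t) = N.s (e t)) ∧
      e (Sum.inr true) = Sum.inr true ∧
      Rot N.aa N.s ((e.symm.trans ρ).trans e) k (Sum.inr true) := by
  obtain ⟨e, h1, h2, h3⟩ := h
  refine ⟨e, h1, h2, h3, ?_⟩
  have h4 := Rot.iso e h1 h2 hr
  rw [h3] at h4
  exact h4

theorem IsV_iso (h : BIso M N) : IsV k M ↔ IsV k N := by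
  constructor
  · rintro ⟨ρ, hr⟩
    obtain ⟨e, -, -, -, h4⟩ := UCnt_rot h hr
    exact ⟨_, h4⟩
  · rintro ⟨ρ, hr⟩
    obtain ⟨e, -, -, -, h4⟩ := UCnt_rot h.symm hr
    exact ⟨_, h4⟩

theorem wSc_of (hM : M.IsGood) {ρ : Perm M.T} (hr : Rot M.aa M.s ρ k (Sum.inr true)) :
    wSc k S Y kv kf ke ζ M = wS S Y kv kf ke ζ M.aa M.s ρ (Sum.inr true) := by
  have hV : IsV k M := ⟨ρ, hr⟩
  unfold wSc
  rw [dif_pos hV]
  exact wS_indep hM hr hV.choose_spec

theorem wSc_none (h : ¬ IsV k M) : wSc k S Y kv kf ke ζ M = 0 := by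
  unfold wSc
  rw [dif_neg h]

theorem wSc_iso (hM : M.IsGood) (h : BIso M N) :
    wSc k S Y kv kf ke ζ M = wSc k S Y kv kf ke ζ N := by
  by_cases hV : IsV k M
  · obtain ⟨ρ, hr⟩ := hV
    obtain ⟨e, h1, h2, h3, h4⟩ := UCnt_rot h hr
    rw [wSc_of hM hr, wSc_of (h.good hM) h4]
    have h5 := wS_iso (S := S) (Y := Y) (kv := kv) (kf := kf) (ke := ke) (ζ := ζ) (ρ := ρ)
      (r := (Sum.inr true : M.T)) e h1 h2
    rw [h3] at h5
    exact h5.symm
  · rw [wSc_none hV, wSc_none fun h' => hV ((IsV_iso h).2 h')]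

/-- `Bd.indep`, `MaxV.indep` -/
theorem Al2_of (hM : M.IsGood) {ρ : Perm M.T} (hr : Rot M.aa M.s ρ k (Sum.inr true)) :
    Al2 k M ↔ ¬ Bd M.aa M.s ρ k (Sum.inr true) ∧
      ∀ A, MaxV M.aa M.s ρ k (Sum.inr true) A → A.card = 2 := by
  constructor
  · rintro ⟨ρ', h1, h2, h3⟩
    refine ⟨fun h4 => h2 ((Bd.indep hM hr h1).1 h4), fun A hA => h3 A ?_⟩
    exact (MaxV.indep hM hr h1 A).1 hA
  · rintro ⟨h1, h2⟩
    exact ⟨ρ, hr, h1, h2⟩

private theorem UCnt_Al2 (h : BIso M N) (hA : Al2 k M) : Al2 k N := by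
  obtain ⟨ρ, h1, h2, h3⟩ := hA
  obtain ⟨e, e1, e2, e3, e4⟩ := UCnt_rot h h1
  refine ⟨_, e4, fun h5 => h2 ?_, fun A hA => ?_⟩
  · rw [← e3] at h5
    exact (Bd.iso e e1 e2).1 h5
  · have h6 : (A.map e.symm.toEmbedding).map e.toEmbedding = A := CutIso.map_symm e A
    rw [← h6, ← e3] at hA
    have h7 := h3 _ ((MaxV.iso e e1 e2 _).1 hA)
    rw [card_map] at h7
    exact h7

/-- `Rot.iso`, `Bd.iso`, `MaxV.iso` -/
theorem Al2_iso (h : BIso M N) : Al2 k M ↔ Al2 k N := ⟨UCnt_Al2 h, UCnt_Al2 h.symm⟩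

theorem ZC_iso (h : BIso M N) : ZC k M ↔ ZC k N := by
  have h1 : dgs N.s (Sum.inr true) = dgs M.s (Sum.inr true) := by
    obtain ⟨e, e1, e2, e3⟩ := h
    have := dgs_conj e e2 (Sum.inr true)
    rwa [e3] at this
  unfold ZC
  rw [Al2_iso h, h1]

theorem ZC.isV (h : ZC k M) : IsV k M := by
  obtain ⟨⟨ρ, h1, -, -⟩, -⟩ := h
  exact ⟨ρ, h1⟩

theorem pW_iso {φ : M.T ≃ N.T} (h : TwI false false M N φ) (e : Perm M.T) :
    pW S Y kv kf ke N ((φ.symm.trans e).trans φ) = pW S Y kv kf ke M e := by
  have hs : ∀ t, φ (M.s t) = N.s (φ t) := h.rot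
  have hp : ∀ t, φ ((M.aa * M.s) t) = (N.aa * N.s) (φ t) := by
    intro t
    rw [Perm.mul_apply, Perm.mul_apply, h.aa, hs]
  unfold pW
  rw [nFix_conj φ hs, nFix_conj φ h.aa, nFix_conj φ hp, ← nV_iso φ hs, Fintype.card_congr φ]

private theorem UCnt_conj {φ : M.T ≃ N.T} (h : TwI false false M N φ) {e : Perm M.T} :
    TwI false true N N ((φ.symm.trans e).trans φ) ↔ TwI false true M M e := by
  constructor
  · intro h1
    have h2 := (h.trans h1).trans h.symm
    simp only [Bool.false_xor, Bool.xor_false] at h2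
    have h3 : ((φ.trans ((φ.symm.trans e).trans φ)).trans φ.symm) = e := by
      ext t : 1
      simp
    rwa [h3] at h2
  · intro h1
    have h2 := (h.symm.trans h1).trans h
    simpa using h2

/-- `Equiv.sum_comp` with the conjugation (as `sw_iso` in PGs/Sw) -/
theorem wPi_iso (h : BIso M N) : wPi S Y kv kf ke M = wPi S Y kv kf ke N := by
  obtain ⟨φ, hφ⟩ := BIso_iff.1 h
  unfold wPi
  refine Fintype.sum_equiv (Equiv.permCongr φ) _ _ fun e => ?_
  have h1 : (Equiv.permCongr φ) e = (φ.symm.trans e).trans φ := by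
    ext t : 1
    simp
  rw [h1]
  by_cases h2 : TwI false true M M e
  · rw [if_pos h2, if_pos ((UCnt_conj hφ).2 h2), pW_iso hφ]
  · rw [if_neg h2, if_neg fun h3 => h2 ((UCnt_conj hφ).1 h3)]

/-- the rotation is unique (`TwI.unique`) -/
theorem wPi_of (hM : M.IsGood) {e : Perm M.T} (h : TwI false true M M e) :
    wPi S Y kv kf ke M = pW S Y kv kf ke M e := by
  unfold wPi
  rw [Finset.sum_eq_single e, if_pos h]
  · intro e' _ hne
    rw [if_neg]
    intro h'
    exact hne (TwI.unique hM h' h)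
  · intro h'
    exact absurd (mem_univ _) h'

theorem wPi_none (h : ¬ ∃ e : Perm M.T, TwI false true M M e) : wPi S Y kv kf ke M = 0 := by
  unfold wPi
  refine Finset.sum_eq_zero fun e _ => ?_
  rw [if_neg]
  intro h'
  exact h ⟨e, h'⟩

/-- `twC_eq_iff` -/
theorem pi_iff (x : GC) :
    (∃ e : Perm x.rep.1.T, TwI false true x.rep.1 x.rep.1 e) ↔ twC false true x = x :=
  twC_eq_iff.symm

theorem nwt_iso (h : BIso M N) : nwt S Y M = nwt S Y N := by
  unfold nwt
  rw [h.nV_eq, h.card_eq]

/-- `TwI.nV_eq`, `TwI.card_eq` -/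
theorem nwt_twC (m c : Bool) (x : GC) : nwt S Y (twC m c x).rep.1 = nwt S Y x.rep.1 := by
  obtain ⟨φ, h⟩ := twC_eq_iff.1 (rfl : twC m c x = twC m c x)
  unfold nwt
  rw [h.nV_eq, h.card_eq]

theorem nwt_sq (M : BMap) : nwt S Y M ^ 2 = W (S ^ 2) (Y ^ 2) M := by
  unfold nwt W
  rw [mul_pow, ← pow_mul, ← pow_mul, ← pow_mul, ← pow_mul, mul_comm 2, mul_comm 2]

/-- `nw s 1 y 1 = nwt s y`, and `eN s 1 y 1 = Es s y` -/
theorem nwt_pow (k : ℕ) (M : BMap) : nwt S Y M ^ k = nw (S ^ k) 1 (Y ^ k) 1 M := by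
  unfold nwt nw
  rw [mul_pow, ← pow_mul, ← pow_mul, ← pow_mul, ← pow_mul, mul_comm k, mul_comm k, one_pow,
    one_pow, mul_one, mul_one]

theorem tsum_nwt_pow (k : ℕ) : ∑' c : GC, nwt S Y c.rep.1 ^ k = eN (S ^ k) 1 (Y ^ k) 1 := by
  unfold eN
  exact tsum_congr fun c => nwt_pow k c.rep.1

theorem eN_eq_Es (s y : ℝ≥0∞) : eN s 1 y 1 = Es s y := by
  unfold Es Esel eN nw W
  refine tsum_congr fun c => ?_
  rw [one_pow, one_pow, mul_one, mul_one, if_pos trivial]

end

/-! ### Rotations exchanging the root darts -/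

section
variable {M : BMap} {e : Perm M.T}

/-- `TwI.invol` -/
theorem TwI.piInvol (hM : M.IsGood) (h : TwI false true M M e) (t : M.T) : e (e t) = t :=
  h.invol hM t

/-- `iso_unique`: otherwise `e = 1`, but `e (inr true) = inr false` -/
theorem TwI.piFree (hM : M.IsGood) (h : TwI false true M M e) (t : M.T) : e t ≠ t := by
  intro ht
  have h1 : e = Equiv.refl _ := by
    refine iso_unique hM t e (Equiv.refl _) h.aa h.rot (fun _ => rfl) (fun _ => rfl) ?_
    rw [ht]
    rfl
  have h2 := h.root true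
  rw [h1] at h2
  simp at h2

/-- the root edge is fixed, and `fix_prime0` for `p = 2` -/
theorem TwI.piTwo (hM : M.IsGood) (h : TwI false true M M e) :
    1 ≤ nFix M.aa e ∧ nFix M.s e + nFix M.aa e + nFix (M.aa * M.s) e = 2 := by
  have h1 : 1 ≤ nFix M.aa e := by
    rw [Poles_pos]
    refine ⟨Sum.inr true, 1, ?_⟩
    rw [h.root true]
    rfl
  refine ⟨h1, fix_prime0 hM Nat.prime_two h.aa h.rot (fun t => ?_) (h.piFree hM) (by omega)⟩
  rw [pow_two, Perm.mul_apply]
  exact h.piInvol hM t

/-- the cycles of `g` not fixed by an involution `e` are exchanged in pairs -/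
private theorem UCnt_pairs {T : Type} [Fintype T] [DecidableEq T] {g e : Perm T}
    (hc : ∀ t, e (g t) = g (e t)) (he : ∀ t, e (e t) = t) :
    2 ∣ nV g - nFix g e ∧ nFix g e ≤ nV g := by
  have : Fintype (Quotient (Perm.SameCycle.setoid g)) := Fintype.ofFinite _
  have h1 := Poles_supp hc
  have h2 : 2 ∣ (Poles_q hc).support.card := by
    refine Poles_dvd _ 2 ?_
    intro q hq n hn
    obtain ⟨t, rfl⟩ := Quotient.exists_rep q
    rw [Poles_qpow] at hn
    by_contra hd
    have h3 : (e ^ n) t = e t := by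
      obtain ⟨m, hm⟩ := Nat.odd_iff.2 (Nat.two_dvd_ne_zero.1 hd)
      have h4 : ∀ m : ℕ, (e ^ (2 * m)) t = t := by
        intro m
        have h5 : e ^ 2 = 1 := by
          ext x : 1
          rw [pow_two, Perm.mul_apply, he]
          rfl
        rw [pow_mul, h5, one_pow]
        rfl
      rw [hm, pow_succ', Perm.mul_apply, h4]
    rw [h3] at hn
    exact hq hn
  constructor
  · rwa [show nV g - nFix g e = (Poles_q hc).support.card by omega]
  · omega

/-- The two ends of the root edge are different (`Good.noLoop`) and are exchanged by `e`, so they are not fixed; the other not fixed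
vertices are exchanged in pairs (`e` is an involution); the same for the edges. -/
theorem TwI.piV (hM : M.IsGood) (h : TwI false true M M e) :
    nFix M.s e + 2 ≤ nV M.s ∧ 2 ∣ nV M.s - 2 - nFix M.s e ∧
      2 ∣ Fintype.card M.T / 2 - nFix M.aa e ∧ nFix M.aa e ≤ Fintype.card M.T / 2 := by
  obtain ⟨h1, h2⟩ := UCnt_pairs (g := M.s) (e := e) h.rot (h.piInvol hM)
  obtain ⟨h3, h4⟩ := UCnt_pairs (g := M.aa) (e := e) h.aa (h.piInvol hM)
  have h5 : Fintype.card M.T / 2 = nV M.aa := by
    have h6 := Euler_finrank_ker M.aa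
    have h7 := Euler_finrank_inv hM.inv hM.fpf
    omega
  have h8 : nFix M.s e < nV M.s := by
    have hrot : ∀ t, e (M.s t) = M.s (e t) := h.rot
    have : Fintype (Quotient (Perm.SameCycle.setoid M.s)) := Fintype.ofFinite _
    have h9 := Poles_supp hrot
    have h10 : 0 < (Poles_q hrot).support.card := by
      rw [Finset.card_pos]
      refine ⟨Quotient.mk _ (Sum.inr true), ?_⟩
      rw [Perm.mem_support, Poles_q_mk, h.root true]
      intro h11
      exact hM.noLoop (Sum.inr true) (Quotient.exact h11).symm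
    omega
  rw [h5]
  refine ⟨?_, ?_, h3, h4⟩
  · omega
  · omega

end

/-! ### The digon -/

section
variable {S Y kv kf ke : ℝ≥0∞}

/-- Both darts of the nonroot edge are exchanged, as are the two root darts; `nFix` of the edges is 2, of the vertices and
faces 0. -/
theorem wPi_dig : wPi S Y kv kf ke digC.rep.1 = ke := by
  have h1 : BIso digC.rep.1 digonB := ESum.rep_iso _
  rw [wPi_iso h1]
  let e : Perm digonB.T := Perm.sumCongr Equiv.boolNot Equiv.boolNot
  have he : TwI false true digonB digonB e := by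
    refine ⟨fun t => ?_, fun t => ?_, fun b => ?_⟩
    · rcases t with b | b <;> cases b <;> rfl
    · rcases t with b | b <;> cases b <;> rfl
    · cases b <;> rfl
  rw [wPi_of digon_good he]
  obtain ⟨h2, h3⟩ := he.piTwo digon_good
  obtain ⟨h4, -, -, h5⟩ := he.piV digon_good
  rw [digon_nV] at h4
  have h6 : 2 ≤ nFix digonB.aa e := by
    rw [nFix, ← Nat.card_fin 2]
    refine Nat.card_le_card_of_injective
      (fun i : Fin 2 => ⟨if i = 0 then Quotient.mk _ (Sum.inr true) else
        Quotient.mk _ (Sum.inl true), ?_⟩) ?_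
    · by_cases hi : i = 0
      · rw [if_pos hi]
        exact ⟨_, rfl, 1, rfl⟩
      · rw [if_neg hi]
        exact ⟨_, rfl, 1, rfl⟩
    · intro i j hij
      have h7 : ¬ digonB.aa.SameCycle (Sum.inr true) (Sum.inl true) := by
        intro h8
        rcases Poles_sca digon_good.inv h8 with h9 | h9
        · simp at h9
        · simp [Digon_aa_inr] at h9
      by_cases hi : i = 0 <;> by_cases hj : j = 0
      · rw [hi, hj]
      · exfalso
        simp only [hi, hj, if_true, if_false, Subtype.mk.injEq] at hij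
        exact h7 (Quotient.exact hij)
      · exfalso
        simp only [hi, hj, if_true, if_false, Subtype.mk.injEq] at hij
        exact h7 (Quotient.exact hij).symm
      · omega
  have h7 : Fintype.card digonB.T = 4 := rfl
  rw [h7] at h5
  have h8 : nFix digonB.aa e = 2 := by omega
  have h9 : nFix digonB.s e = 0 := by omega
  have h10 : nFix (digonB.aa * digonB.s) e = 0 := by omega
  unfold pW
  rw [h8, h9, h10, h7, digon_nV]
  simp

end

end PGr

end

section
/-! # Module CAutB: automorphisms of composites, basics -/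

set_option linter.unusedSectionVars false
set_option linter.unusedVariables false

namespace PGr
open Equiv Finset

namespace CAutB
open CompVAux

/-- the dart after `L x` -/
theorem sc_sL {C : Core} (N : C.I → GB) (x : (C.I × Bool) ⊕ Bool) :
    (comp C N).s.SameCycle (CompInj.L N x) (CompInj.J N (C.s x)) := by
  rw [← CompInj.s_L N x]
  exact sc_apply _ _

theorem F_L {C : Core} (N : C.I → GB) (x : (C.I × Bool) ⊕ Bool) :
    F C N (CompInj.L N x) = Sum.inl (cyc C.s x) := by
  rw [F_sc C N (sc_sL N x), ← cyc_s C.s x]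
  exact F_jump C N (C.s x)

theorem sc_core {C : Core} {x y : (C.I × Bool) ⊕ Bool} (h : C.s.SameCycle x y) :
    C.s.SameCycle (C.s x) (C.s y) :=
  Perm.sameCycle_apply_left.2 (Perm.sameCycle_apply_right.2 h)

theorem cd_fst (M : GB) (b : Bool) : fstD M.dual b = M.1.a (fstD M b) := by
  have h1 : M.dual.1.s (Sum.inr b) = Sum.inl (fstD M.dual b) := fstD_spec M.dual b
  have h2 : M.dual.1.s (Sum.inr b) = Sum.inl (M.1.a (fstD M b)) := by
    change M.1.aa (M.1.s (Sum.inr b)) = _
    rw [fstD_spec]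
    rfl
  exact Sum.inl_injective (h1.symm.trans h2)

theorem cd_jump (C : Core) (N : C.I → GB) (y : (C.I × Bool) ⊕ Bool) :
    (comp C N).aa (jump C N y) = jump (ddCore C) (fun i => (N i).dual)
      (Perm.sumCongr (1 : Perm (C.I × Bool)) Equiv.boolNot y) := by
  rcases y with ⟨j, b⟩ | b
  · change (Sum.inl ⟨j, (N j).1.a (fstD (N j) b)⟩ : (comp C N).T) =
      Sum.inl ⟨j, fstD (N j).dual b⟩
    rw [cd_fst]
  · rfl

end CAutB

section
variable {C : Core} (N : C.I → GB)

/-! The vertices of the composite: see `CompV` (`F`, `F_sc`, `jump_sc`, `core_sc`, `inner_pow`, `fst_sc`). -/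

theorem comp_sc_L (x y : (C.I × Bool) ⊕ Bool) :
    (comp C N).s.SameCycle (CompInj.L N x) (CompInj.L N y) ↔ C.s.SameCycle x y := by
  constructor
  · intro h
    have h1 := CompVAux.F_sc C N h
    rw [CAutB.F_L, CAutB.F_L] at h1
    exact CompVAux.cyc_eq.1 (Sum.inl_injective h1)
  · intro h
    exact ((CAutB.sc_sL N x).trans (CompVAux.jump_sc C N (CAutB.sc_core h))).trans
      (CAutB.sc_sL N y).symm

/-- a dart of the net at the pole `b` is at the vertex of the core dart -/
theorem comp_sc_pole {i : C.I} {b : Bool} {d : (N i).1.D}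
    (h : (N i).1.s.SameCycle (Sum.inl d) (Sum.inr b)) :
    (comp C N).s.SameCycle (CompInj.dt N i d) (CompInj.L N (Sum.inl (i, b))) :=
  Perm.SameCycle.trans (CompVAux.out_root C N h) (CAutB.sc_sL N (Sum.inl (i, b))).symm

/-- a dart at an inner vertex of a net -/
theorem comp_sc_inner {i : C.I} {d : (N i).1.D}
    (h : ¬ ∃ b, (N i).1.s.SameCycle (Sum.inl d) (Sum.inr b)) :
    (∀ x, ¬ (comp C N).s.SameCycle (CompInj.dt N i d) (CompInj.L N x)) ∧
    (∀ d', (comp C N).s.SameCycle (CompInj.dt N i d) (CompInj.dt N i d') ↔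
      (N i).1.s.SameCycle (Sum.inl d) (Sum.inl d')) ∧
    ∀ j d', (comp C N).s.SameCycle (CompInj.dt N i d) (CompInj.dt N j d') → j = i := by
  have hF : CompVAux.F C N (CompInj.dt N i d) = Sum.inr ⟨i, CompVAux.cyc (N i).1.s (Sum.inl d)⟩ :=
    CompVAux.F_inner C N h
  refine ⟨fun x hx => ?_, fun d' => ⟨fun h1 => ?_, fun h1 => ?_⟩, fun j d' h1 => ?_⟩
  · have h1 := CompVAux.F_sc C N hx
    rw [CAutB.F_L, hF] at h1
    simp at h1
  · have h2 := CompVAux.F_sc C N h1
    rw [hF] at h2
    by_cases h3 : ∃ b, (N i).1.s.SameCycle (Sum.inl d') (Sum.inr b)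
    · obtain ⟨b, h3⟩ := h3
      rw [show CompVAux.F C N (CompInj.dt N i d') = _ from CompVAux.F_core C N h3] at h2
      simp at h2
    · rw [show CompVAux.F C N (CompInj.dt N i d') = _ from CompVAux.F_inner C N h3] at h2
      have h4 := Sum.inr_injective h2
      rw [Sigma.mk.injEq] at h4
      exact CompVAux.cyc_eq.1 (eq_of_heq h4.2)
  · obtain ⟨n, hn⟩ := CompVAux.exists_nat_pow h1
    exact CompVAux.inner_pow C N i n d d' h hn
  · have h2 := CompVAux.F_sc C N h1
    rw [hF] at h2
    by_cases h3 : ∃ b, (N j).1.s.SameCycle (Sum.inl d') (Sum.inr b)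
    · obtain ⟨b, h3⟩ := h3
      rw [show CompVAux.F C N (CompInj.dt N j d') = _ from CompVAux.F_core C N h3] at h2
      simp at h2
    · rw [show CompVAux.F C N (CompInj.dt N j d') = _ from CompVAux.F_inner C N h3] at h2
      have h4 := Sum.inr_injective h2
      rw [Sigma.mk.injEq] at h4
      exact h4.1.symm

/-- a dart of the part `i` at the root vertex: the edge `i` is at the root vertex -/
theorem comp_atV {i : C.I} {d : (N i).1.D}
    (h : (comp C N).s.SameCycle (Sum.inr true) (CompInj.dt N i d)) : AtV C i := by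
  by_cases h1 : ∃ b, (N i).1.s.SameCycle (Sum.inl d) (Sum.inr b)
  · obtain ⟨b, h1⟩ := h1
    exact ⟨b, (comp_sc_L N (Sum.inr true) (Sum.inl (i, b))).1 (h.trans (comp_sc_pole N h1))⟩
  · exact absurd h.symm ((comp_sc_inner N h1).1 (Sum.inr true))

variable {N}

/-- a net with two nonroot darts: the first dart and the last dart at a pole coincide, and `d` is one of them -/
theorem two_darts {M : GB} (h : Fintype.card M.1.D = 2) :
    (∀ b, fstD M b = CompInj.lstD M b) ∧ (∀ d, ∃ b, d = CompInj.lstD M b) ∧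
      (∀ b, M.1.a (CompInj.lstD M b) = CompInj.lstD M (!b)) := by
  have hne : CompInj.lstD M true ≠ CompInj.lstD M false := by
    intro h1
    have h2 := CompInj.lstD_spec M true
    rw [h1, CompInj.lstD_spec M false] at h2
    simp at h2
  have hall : ∀ d, ∃ b, d = CompInj.lstD M b := by
    have hu : ({CompInj.lstD M true, CompInj.lstD M false} : Finset M.1.D) = univ := by
      apply eq_univ_of_card
      rw [card_pair hne, h]
    intro d
    have h1 : d ∈ ({CompInj.lstD M true, CompInj.lstD M false} : Finset M.1.D) :=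
      hu ▸ mem_univ d
    rw [mem_insert, mem_singleton] at h1
    rcases h1 with h1 | h1
    · exact ⟨true, h1⟩
    · exact ⟨false, h1⟩
  refine ⟨fun b => ?_, hall, fun b => ?_⟩
  · obtain ⟨b', h1⟩ := hall (fstD M b)
    by_cases h2 : b' = b
    · rw [h1, h2]
    · exfalso
      have h3 : b' = !b := by cases b <;> cases b' <;> simp_all
      subst h3
      refine M.2.noLoop (Sum.inr b) ?_
      show M.1.s.SameCycle (Sum.inr b) (Sum.inr (!b))
      refine Perm.SameCycle.trans (y := Sum.inl (fstD M b)) ⟨1, ?_⟩ ⟨1, ?_⟩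
      · rw [zpow_one, fstD_spec]
      · rw [zpow_one, h1, CompInj.lstD_spec]
  · obtain ⟨b', h1⟩ := hall (M.1.a (CompInj.lstD M b))
    rw [h1]
    congr 1
    by_contra h2
    have h3 : b' = b := by cases b <;> cases b' <;> simp_all
    subst h3
    have h4 := M.2.fpf (Sum.inl (CompInj.lstD M b'))
    exact h4 (congrArg Sum.inl h1)

/-- any two nets with two nonroot darts are isomorphic, also with reversed root edge (`eq_digon`); the isomorphism maps `lstD b` to
`lstD (xor c b)` -/
theorem two_darts_iso {M M' : GB} (h : Fintype.card M.1.D = 2) (h' : Fintype.card M'.1.D = 2)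
    (c : Bool) : ∃ φ : M.1.T ≃ M'.1.T, TwI false c M.1 M'.1 φ ∧
      ∀ b, φ (Sum.inl (CompInj.lstD M b)) = Sum.inl (CompInj.lstD M' (xor c b)) := by
  obtain ⟨f1, l1, a1⟩ := two_darts h
  obtain ⟨f2, l2, a2⟩ := two_darts h'
  have hbij : ∀ (K : GB), (∀ d, ∃ b, d = CompInj.lstD K b) →
      Function.Bijective (CompInj.lstD K) := by
    intro K hl
    refine ⟨fun b b' h1 => ?_, fun d => ?_⟩
    · have h2 := CompInj.lstD_spec K b
      rw [h1, CompInj.lstD_spec K b'] at h2
      exact (Sum.inr_injective h2).symm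
    · obtain ⟨b, hb⟩ := hl d
      exact ⟨b, hb.symm⟩
  let g1 : Bool ≃ M.1.D := Equiv.ofBijective _ (hbij M l1)
  let g2 : Bool ≃ M'.1.D := Equiv.ofBijective _ (hbij M' l2)
  let X : Bool ≃ Bool := if c then Equiv.boolNot else Equiv.refl _
  have hX : ∀ b, X b = xor c b := by
    intro b
    cases c <;> cases b <;> rfl
  let f : M.1.D ≃ M'.1.D := (g1.symm.trans X).trans g2
  have hf : ∀ b, f (CompInj.lstD M b) = CompInj.lstD M' (xor c b) := by
    intro b
    show g2 (X (g1.symm (g1 b))) = _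
    rw [g1.symm_apply_apply, hX]
    rfl
  refine ⟨Equiv.sumCongr f X, ⟨?_, ?_, ?_⟩, fun b => congrArg Sum.inl (hf b)⟩
  · rintro (d | b)
    · obtain ⟨b, rfl⟩ := l1 d
      show (Sum.inl (f (M.1.a (CompInj.lstD M b))) : M'.1.T) =
        Sum.inl (M'.1.a (f (CompInj.lstD M b)))
      rw [a1, hf, hf, a2]
      cases b <;> cases c <;> rfl
    · show (Sum.inr (X (!b)) : M'.1.T) = Sum.inr (!(X b))
      rw [hX, hX]
      cases b <;> cases c <;> rfl
  · rintro (d | b)
    · obtain ⟨b, rfl⟩ := l1 d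
      rw [CompInj.lstD_spec, twS_false]
      show (Sum.inr (X b) : M'.1.T) = M'.1.s (Sum.inl (f (CompInj.lstD M b)))
      rw [hf, CompInj.lstD_spec, hX]
    · rw [fstD_spec, f1, twS_false]
      show (Sum.inl (f (CompInj.lstD M b)) : M'.1.T) = M'.1.s (Sum.inr (X b))
      rw [hf, hX, fstD_spec, f2]
  · intro b
    show (Sum.inr (X b) : M'.1.T) = _
    rw [hX]

/-- an isomorphism maps last darts to last darts: `s (lstD b) = inr b` -/
theorem TwI.lst {c : Bool} {M M' : GB} {φ : M.1.T ≃ M'.1.T} (h : TwI false c M.1 M'.1 φ) (b : Bool) :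
    φ (Sum.inl (CompInj.lstD M b)) = Sum.inl (CompInj.lstD M' (xor c b)) := by
  apply M'.1.s.injective
  have h1 := h.rot (Sum.inl (CompInj.lstD M b))
  rw [twS_false] at h1
  rw [← h1, CompInj.lstD_spec, CompInj.lstD_spec, h.root]

/-- `L`: `TwI.lst` for the isomorphism of the nets, and `core.root`, `tw.root` for the root darts -/
theorem CTw.caut {c : Bool} {ψ : Perm C.toB.T} {e : Perm (comp C N).T} (hC : C.toB.IsGood)
    (h : CTw false c C C N N ψ e) : CAut C N ψ e where
  caa := h.core.aa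
  cs := h.core.rot
  aa := h.tw.aa
  s := h.tw.rot
  L := by
    rintro (⟨i, b⟩ | b)
    · obtain ⟨i', b', h1⟩ := CTwB.core_inl h.core i b
      obtain ⟨φ, hφ, hd⟩ := h.nets i b i' b' h1
      have h2 := TwI.lst hφ b
      have h3 : xor (xor b b') b = b' := by cases b <;> cases b' <;> rfl
      rw [h3] at h2
      have h4 : CompInj.L N (ψ (Sum.inl (i, b))) = CompInj.dt N i' (CompInj.lstD (N i') b') := by
        rw [h1]
        rfl
      exact (hd _ _ h2).trans h4.symm
    · have h1 : e (Sum.inr b) = Sum.inr (xor c b) := h.tw.root b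
      have h2 : ψ (Sum.inr b) = Sum.inr (xor c b) := h.core.root b
      have h3 : CompInj.L N (ψ (Sum.inr b)) = Sum.inr (xor c b) := by
        rw [h2]
        rfl
      exact h1.trans h3.symm
  nets := h.nets

theorem CAut.pow_L {ψ : Perm C.toB.T} {e : Perm (comp C N).T} (h : CAut C N ψ e) (n : ℕ)
    (x : (C.I × Bool) ⊕ Bool) : (e ^ n) (CompInj.L N x) = CompInj.L N ((ψ ^ n) x) := by
  induction n with
  | zero => rfl
  | succ n ih =>
    rw [pow_succ', Perm.mul_apply, ih, pow_succ']
    exact h.L ((ψ ^ n) x)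

/-- The dual.  With `G (inl (i, b)) = inl (i, !b)`, `G (inr b) = inr b`: `(ddCore C).s = F * C.s * G` (`F` the exchange of the root darts; see
`dd_iso`), `ψ' = G ψ G` is an automorphism of `ddCore C`; the last dart of the dual net at `b` is the last dart of the net at `!b`, so the
function `L` of the dual composite is `L ∘ G`.  `(comp C N).dual` and `comp (ddCore C) _` have the same darts, and the isomorphism `comp_dual` is
the identity on darts; to have this in the statement: -/
theorem comp_dual' (C : Core) (N : C.I → GB) : ∃ κ : (comp C N).T ≃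
      (comp (ddCore C) (fun i => (N i).dual)).T,
    (∀ t, κ ((comp C N).aa t) = (comp (ddCore C) (fun i => (N i).dual)).aa (κ t)) ∧
    (∀ t, κ (((comp C N).aa * (comp C N).s) t) =
      (comp (ddCore C) (fun i => (N i).dual)).s (κ t)) ∧
    (∀ i d, κ (CompInj.dt N i d) =
      CompInj.dt (C := ddCore C) (fun i => (N i).dual) i d) ∧
    (∀ i b, κ (CompInj.L N (Sum.inl (i, b))) =
      CompInj.L (C := ddCore C) (fun i => (N i).dual) (Sum.inl (i, !b))) ∧
    ∀ b, κ (Sum.inr b) = Sum.inr b := by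
  refine ⟨Equiv.refl _, fun t => rfl, ?_, fun i d => rfl, ?_, fun b => rfl⟩
  · rintro (⟨i, d⟩ | b)
    · change (comp C N).aa ((comp C N).s (Sum.inl ⟨i, d⟩)) =
        (comp (ddCore C) (fun i => (N i).dual)).s (Sum.inl ⟨i, d⟩)
      rcases h : (N i).1.s (Sum.inl d) with d' | b
      · have h' : ((N i).dual).1.s (Sum.inl d) = Sum.inl ((N i).1.a d') := by
          change (N i).1.aa ((N i).1.s (Sum.inl d)) = _
          rw [h]
          rfl
        rw [comp_s_in C N h]
        exact (comp_s_in (ddCore C) (fun i => (N i).dual) h').symm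
      · have h' : ((N i).dual).1.s (Sum.inl d) = Sum.inr (!b) := by
          change (N i).1.aa ((N i).1.s (Sum.inl d)) = _
          rw [h]
          rfl
        rw [comp_s_out C N h, CAutB.cd_jump]
        refine Eq.trans ?_ (comp_s_out (ddCore C) (fun i => (N i).dual) h').symm
        have h3 : (ddCore C).s (Sum.inl (i, !b)) =
            Perm.sumCongr (1 : Perm (C.I × Bool)) Equiv.boolNot (C.s (Sum.inl (i, b))) := by
          change Perm.sumCongr (1 : Perm (C.I × Bool)) Equiv.boolNot
            (C.s (Sum.inl (i, !(!b)))) = _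
          rw [Bool.not_not]
        rw [h3]
    · change (comp C N).aa ((comp C N).s (Sum.inr b)) =
        (comp (ddCore C) (fun i => (N i).dual)).s (Sum.inr b)
      rw [comp_s_root, CAutB.cd_jump]
      rfl
  · intro i b
    show CompInj.dt N i (CompInj.lstD (N i) b) = CompInj.dt (C := ddCore C)
      (fun i => (N i).dual) i (CompInj.lstD (N i).dual (!b))
    have h : CompInj.lstD (N i) b = CompInj.lstD (N i).dual (!b) := by
      refine CompInj.eq_lstD (M := (N i).dual) ?_
      show (N i).1.aa ((N i).1.s (Sum.inl (CompInj.lstD (N i) b))) = Sum.inr (!b)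
      rw [CompInj.lstD_spec]
      rfl
    rw [h]
    rfl

end

end PGr

end

section
/-! # Module ReRoot: another root edge -/

set_option linter.unusedSectionVars false

namespace PGr
open Equiv Finset

section
variable {C : Core} (i : C.I) (b : Bool)

theorem swR_true : swR i b (Sum.inr true) = Sum.inl (i, b) := by
  simp [swR, swap_apply_def]

theorem swR_false : swR i b (Sum.inr false) = Sum.inl (i, !b) := by
  simp [swR, swap_apply_def]

theorem swR_inl : swR i b (Sum.inl (i, b)) = Sum.inr true := by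
  simp [swR, swap_apply_def]

theorem swR_inl' : swR i b (Sum.inl (i, !b)) = Sum.inr false := by
  simp [swR, swap_apply_def]

theorem swR_ne {j : C.I} (h : j ≠ i) (c : Bool) :
    swR i b (Sum.inl (j, c)) = Sum.inl (j, c) := by
  simp [swR, swap_apply_def, h]

theorem swR_swR (x : (C.I × Bool) ⊕ Bool) : swR i b (swR i b x) = x := by
  rcases x with ⟨j, c⟩ | c
  · by_cases hj : j = i
    · subst hj
      rcases Bool.eq_or_eq_not c b with rfl | rfl
      · rw [swR_inl, swR_true]
      · rw [swR_inl', swR_false]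
    · rw [swR_ne i b hj, swR_ne i b hj]
  · cases c
    · rw [swR_false, swR_inl']
    · rw [swR_true, swR_inl]

/-- `swR i b` is an isomorphism (which moves the root) of the cores -/
theorem swR_iso : (∀ x : C.toB.T, swR i b (C.toB.aa x) = (reCore C i b).toB.aa (swR i b x)) ∧
    ∀ x : C.toB.T, swR i b (C.s x) = (reCore C i b).s (swR i b x) := by
  constructor
  · rintro (⟨j, c⟩ | c)
    · by_cases hj : j = i
      · subst hj
        have h1 : C.toB.aa (Sum.inl (j, c)) = Sum.inl (j, !c) := rfl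
        rw [h1]
        rcases Bool.eq_or_eq_not c b with rfl | rfl
        · exact (swR_inl' j c).trans (congrArg (reCore C j c).toB.aa (swR_inl j c).symm)
        · rw [Bool.not_not]
          exact (swR_inl j b).trans (congrArg (reCore C j b).toB.aa (swR_inl' j b).symm)
      · have h1 : C.toB.aa (Sum.inl (j, c)) = Sum.inl (j, !c) := rfl
        rw [h1]
        exact (swR_ne i b hj _).trans (congrArg (reCore C i b).toB.aa (swR_ne i b hj c).symm)
    · cases c
      · have h1 : C.toB.aa (Sum.inr false) = Sum.inr true := rfl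
        rw [h1]
        have h3 : (reCore C i b).toB.aa (Sum.inl (i, !b)) = Sum.inl (i, b) := by
          show Sum.inl (i, !(!b)) = _
          rw [Bool.not_not]
        exact (swR_true i b).trans (h3.symm.trans
          (congrArg (reCore C i b).toB.aa (swR_false i b).symm))
      · have h1 : C.toB.aa (Sum.inr true) = Sum.inr false := rfl
        rw [h1]
        exact (swR_false i b).trans (congrArg (reCore C i b).toB.aa (swR_true i b).symm)
  · intro x
    show _ = swR i b (C.s (swR i b (swR i b x)))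
    exact congrArg (fun y => swR i b (C.s y)) (swR_swR i b x).symm

/-- `Good_iso`, `cut_iso` -/
theorem reCore_good (hC : C.toB.IsGood) : (reCore C i b).toB.IsGood :=
  Good_iso (T := C.toB.T) (T' := (reCore C i b).toB.T) (swR i b) (swR_iso i b).1
    (swR_iso i b).2 hC

theorem reCore_rigid (hR : Rigid C.toB) : Rigid (reCore C i b).toB := by
  obtain ⟨hM1, hM2⟩ := hR
  let e : C.toB.T ≃ (reCore C i b).toB.T := swR i b
  have h1 : ∀ x, e (C.toB.aa x) = (reCore C i b).toB.aa (e x) := (swR_iso i b).1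
  have h2 : ∀ x, e (C.toB.s x) = (reCore C i b).toB.s (e x) := (swR_iso i b).2
  have hc := Fintype.card_congr e
  refine ⟨by rw [← hc]; exact hM1, ?_⟩
  intro A hA hA1 hA2
  have h4 := hM2 (A.map e.symm.toEmbedding) (Cl_iso e.symm (CutIso.symm h1) hA)
    (by rw [card_map]; exact hA1) (by rw [card_map, hc]; exact hA2)
  rw [← cut_iso e h2, CutIso.map_symm] at h4
  exact h4

/-- Proof.  `κ (dt N j d) = dt N j d` for `j ≠ i`, `κ (dt N i (lstD (N i) c)) = inr true` if `c = b`, `inr false` otherwise, `κ (inr true) = dt N i (lstD (N i) b)`,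
`κ (inr false) = dt N i (lstD (N i) !b)`.  So `κ (L N x) = L N (swR i b x)` for all `x`, and `κ (J N x) = J N (swR i b x)` (`two_darts`: first dart = last dart).
Rotation: a dart which is not some `L N x` is `dt N j d` with `s (inl d) = inl d'` in `N j` and `j ≠ i` (in `N i` every nonroot dart is a last dart);
and `s (L N x) = J N (C.s x)` (`s_L`), `(reCore C i b).s (swR i b x) = swR i b (C.s x)`. -/
theorem re_root {N : C.I → GB} (h2 : Fintype.card (N i).1.D = 2) :
    ∃ κ : (comp C N).T ≃ (comp (reCore C i b) N).T,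
      (∀ t, κ ((comp C N).aa t) = (comp (reCore C i b) N).aa (κ t)) ∧
      (∀ t, κ ((comp C N).s t) = (comp (reCore C i b) N).s (κ t)) ∧
      (∀ x, κ (CompInj.L N x) = CompInj.L (C := reCore C i b) N (swR i b x)) ∧
      ∀ j d, j ≠ i → κ (CompInj.dt N j d) = CompInj.dt (C := reCore C i b) N j d := by
  classical
  obtain ⟨hf, hl, ha⟩ := two_darts h2
  have hlne : ∀ c c' : Bool, CompInj.lstD (N i) c = CompInj.lstD (N i) c' → c = c' := by
    intro c c' h
    have h3 := CompInj.lstD_spec (N i) c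
    rw [h, CompInj.lstD_spec] at h3
    exact (Sum.inr_injective h3).symm
  let D (j : C.I) (d : (N j).1.D) : (Σ j, (N j).1.D) ⊕ Bool := Sum.inl ⟨j, d⟩
  have hDi : ∀ d d' : (N i).1.D, D i d = D i d' → d = d' := by
    intro d d' h
    have h3 := Sum.inl_injective h
    exact eq_of_heq (Sigma.mk.inj h3).2
  let κ : Perm ((Σ j, (N j).1.D) ⊕ Bool) :=
    swap (Sum.inr true) (D i (CompInj.lstD (N i) b)) *
      swap (Sum.inr false) (D i (CompInj.lstD (N i) (!b)))
  have hκ : ∀ x, κ x = swap (Sum.inr true) (D i (CompInj.lstD (N i) b))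
      (swap (Sum.inr false) (D i (CompInj.lstD (N i) (!b))) x) := fun _ => rfl
  have hbb : b ≠ !b := by cases b <;> simp
  have k1 : κ (Sum.inr true) = D i (CompInj.lstD (N i) b) := by
    have h0 : swap (Sum.inr false) (D i (CompInj.lstD (N i) (!b))) (Sum.inr true) =
        Sum.inr true := swap_apply_of_ne_of_ne (by simp) (by simp [D])
    rw [hκ, h0, swap_apply_left]
  have k2 : κ (Sum.inr false) = D i (CompInj.lstD (N i) (!b)) := by
    rw [hκ, swap_apply_left]
    refine swap_apply_of_ne_of_ne (by simp [D]) ?_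
    intro h
    exact hbb (hlne _ _ (hDi _ _ h)).symm
  have k3 : κ (D i (CompInj.lstD (N i) b)) = Sum.inr true := by
    have h0 : swap (Sum.inr false) (D i (CompInj.lstD (N i) (!b)))
        (D i (CompInj.lstD (N i) b)) = D i (CompInj.lstD (N i) b) :=
      swap_apply_of_ne_of_ne (by simp [D]) (fun h => hbb (hlne _ _ (hDi _ _ h)))
    rw [hκ, h0, swap_apply_right]
  have k4 : κ (D i (CompInj.lstD (N i) (!b))) = Sum.inr false := by
    rw [hκ, swap_apply_right]
    exact swap_apply_of_ne_of_ne (by simp) (by simp [D])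
  have k5 : ∀ j d, j ≠ i → κ (D j d) = D j d := by
    intro j d hj
    have h3 : ∀ d', D j d ≠ D i d' := by
      intro d' h
      exact hj (Sigma.mk.inj (Sum.inl_injective h)).1
    have h0 : swap (Sum.inr false) (D i (CompInj.lstD (N i) (!b))) (D j d) = D j d :=
      swap_apply_of_ne_of_ne (by simp [D]) (h3 _)
    rw [hκ, h0]
    exact swap_apply_of_ne_of_ne (by simp [D]) (h3 _)
  have kL : ∀ x, κ (CompInj.L N x) = CompInj.L (C := reCore C i b) N (swR i b x) := by
    rintro (⟨j, c⟩ | c)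
    · by_cases hj : j = i
      · subst hj
        rcases Bool.eq_or_eq_not c b with rfl | rfl
        · rw [swR_inl]
          exact k3
        · rw [swR_inl']
          exact k4
      · rw [swR_ne i b hj]
        exact k5 _ _ hj
    · cases c
      · rw [swR_false]
        exact k2
      · rw [swR_true]
        exact k1
  have kJ : ∀ x, κ (CompInj.J N x) = CompInj.J (C := reCore C i b) N (swR i b x) := by
    rintro (⟨j, c⟩ | c)
    · by_cases hj : j = i
      · subst hj
        have h3 : CompInj.J N (Sum.inl (j, c)) = D j (CompInj.lstD (N j) c) := by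
          rw [CompInj.J_inl, hf]
          rfl
        rw [h3]
        rcases Bool.eq_or_eq_not c b with rfl | rfl
        · rw [swR_inl]
          exact k3
        · rw [swR_inl']
          exact k4
      · rw [swR_ne i b hj]
        exact k5 _ _ hj
    · cases c
      · rw [swR_false]
        have h3 : CompInj.J (C := reCore C i b) N (Sum.inl (i, !b)) =
            D i (CompInj.lstD (N i) (!b)) := by
          rw [← hf]
          rfl
        exact k2.trans h3.symm
      · rw [swR_true]
        have h3 : CompInj.J (C := reCore C i b) N (Sum.inl (i, b)) =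
            D i (CompInj.lstD (N i) b) := by
          rw [← hf]
          rfl
        exact k1.trans h3.symm
  refine ⟨κ, ?_, ?_, kL, fun j d hj => k5 j d hj⟩
  · intro t
    rcases CompInj.cases_dt N t with ⟨j, d, rfl⟩ | ⟨c, rfl⟩
    · rw [CompInj.aa_dt]
      by_cases hj : j = i
      · subst hj
        obtain ⟨c, rfl⟩ := hl d
        rw [ha]
        rcases Bool.eq_or_eq_not c b with rfl | rfl
        · exact k4.trans (congrArg (comp (reCore C j c) N).aa k3.symm)
        · rw [Bool.not_not]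
          exact k3.trans (congrArg (comp (reCore C j b) N).aa k4.symm)
      · exact (k5 _ _ hj).trans (congrArg (comp (reCore C i b) N).aa (k5 _ _ hj).symm)
    · cases c
      · have e3 : D i (CompInj.lstD (N i) b) = D i ((N i).1.a (CompInj.lstD (N i) !b)) := by
          rw [ha, Bool.not_not]
        exact k1.trans (e3.trans (congrArg (comp (reCore C i b) N).aa k2.symm))
      · have e3 : D i (CompInj.lstD (N i) !b) = D i ((N i).1.a (CompInj.lstD (N i) b)) := by
          rw [ha]
        exact k2.trans (e3.trans (congrArg (comp (reCore C i b) N).aa k1.symm))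
  · have hLs : ∀ x, κ ((comp C N).s (CompInj.L N x)) =
        (comp (reCore C i b) N).s (κ (CompInj.L N x)) := by
      intro x
      have e1 : κ ((comp C N).s (CompInj.L N x)) = κ (CompInj.J N (C.s x)) :=
        congrArg κ (CompInj.s_L N x)
      have e2 : (comp (reCore C i b) N).s (κ (CompInj.L N x)) =
          (comp (reCore C i b) N).s (CompInj.L (C := reCore C i b) N (swR i b x)) :=
        congrArg (comp (reCore C i b) N).s (kL x)
      have e3 : (comp (reCore C i b) N).s (CompInj.L (C := reCore C i b) N (swR i b x)) =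
          CompInj.J (C := reCore C i b) N ((reCore C i b).s (swR i b x)) :=
        CompInj.s_L (C := reCore C i b) N _
      have e4 : CompInj.J (C := reCore C i b) N ((reCore C i b).s (swR i b x)) =
          CompInj.J (C := reCore C i b) N (swR i b (C.s x)) :=
        congrArg (CompInj.J (C := reCore C i b) N) ((swR_iso i b).2 x).symm
      exact (e1.trans (kJ _)).trans (e2.trans (e3.trans e4)).symm
    intro t
    rcases CompInj.cases_dt N t with ⟨j, d, rfl⟩ | ⟨c, rfl⟩
    · by_cases hj : j = i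
      · subst hj
        obtain ⟨c, rfl⟩ := hl d
        exact hLs (Sum.inl (j, c))
      · rcases hs : (N j).1.s (Sum.inl d) with d' | c
        · have e1 : (comp C N).s (CompInj.dt N j d) = CompInj.dt N j d' :=
            CompInj.s_dt_in N hs
          have e2 : (comp (reCore C i b) N).s (CompInj.dt (C := reCore C i b) N j d) =
            CompInj.dt (C := reCore C i b) N j d' := CompInj.s_dt_in (C := reCore C i b) N hs
          have e3 : (comp (reCore C i b) N).s (κ (CompInj.dt N j d)) =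
              (comp (reCore C i b) N).s (CompInj.dt (C := reCore C i b) N j d) :=
            congrArg (comp (reCore C i b) N).s (k5 _ _ hj)
          exact ((congrArg κ e1).trans (k5 _ _ hj)).trans (e3.trans e2).symm
        · rw [CompInj.eq_lstD hs]
          exact hLs (Sum.inl (j, c))
    · exact hLs (Sum.inr c)

end

end PGr

end

section
/-! # Module ZFwd: a rotation of the composite induces a rotation of the core -/

set_option linter.unusedSectionVars false
set_option linter.unusedVariables false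

namespace PGr
open Equiv Finset

namespace ZFwd

/-- isomorphisms of composites map last darts to last darts -/
theorem cL {C C' : Core} {N : C.I → GB} {N' : C'.I → GB} {c : Bool} {ψ : C.toB.T ≃ C'.toB.T}
    {e : (comp C N).T ≃ (comp C' N').T} (h : CTw false c C C' N N' ψ e) (x : C.toB.T) :
    e (CompInj.L N x) = CompInj.L N' (ψ x) := by
  rcases x with ⟨i, b⟩ | b
  · obtain ⟨i', b', h1⟩ := CTwB.core_inl h.core i b
    obtain ⟨φ, hφ, hd⟩ := h.nets i b i' b' h1
    have h2 := TwI.lst hφ b
    have h3 : xor (xor b b') b = b' := by cases b <;> cases b' <;> rfl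
    rw [h3] at h2
    have h4 : CompInj.L N' (ψ (Sum.inl (i, b))) =
        CompInj.dt N' i' (CompInj.lstD (N' i') b') := by
      rw [h1]
      rfl
    exact (hd _ _ h2).trans h4.symm
  · have h1 : e (Sum.inr b) = Sum.inr (xor c b) := h.tw.root b
    have h2 : ψ (Sum.inr b) = Sum.inr (xor c b) := h.core.root b
    have h3 : CompInj.L N' (ψ (Sum.inr b)) = Sum.inr (xor c b) := by
      rw [h2]
      rfl
    exact h1.trans h3.symm

/-- the data of `re_root` -/
structure KR (C : Core) (i : C.I) (b : Bool) (N : C.I → GB)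
    (κ : (comp C N).T ≃ (comp (reCore C i b) N).T) : Prop where
  aa : ∀ t, κ ((comp C N).aa t) = (comp (reCore C i b) N).aa (κ t)
  s : ∀ t, κ ((comp C N).s t) = (comp (reCore C i b) N).s (κ t)
  L : ∀ x, κ (CompInj.L N x) = CompInj.L (C := reCore C i b) N (swR i b x)
  dt : ∀ j d, j ≠ i → κ (CompInj.dt N j d) = CompInj.dt (C := reCore C i b) N j d

theorem sw_aa {C : Core} (i : C.I) (b : Bool) (y : (reCore C i b).toB.T) :
    (swR i b ((reCore C i b).toB.aa y) : C.toB.T) = C.toB.aa (swR i b y) := by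
  have h1 := (swR_iso i b).1 (swR i b y)
  have h2 : swR i b (swR i b y) = y := swR_swR i b y
  have h3 := congrArg (swR i b) h1
  have h4 : swR i b (swR i b (C.toB.aa (swR i b y))) = C.toB.aa (swR i b y) := swR_swR i b _
  have h5 : swR i b ((reCore C i b).toB.aa (swR i b (swR i b y))) =
      swR i b ((reCore C i b).toB.aa y) := congrArg (fun z => swR i b ((reCore C i b).toB.aa z)) h2
  exact h5.symm.trans (h3.symm.trans h4)

theorem sw_s {C : Core} (i : C.I) (b : Bool) (y : (C.I × Bool) ⊕ Bool) :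
    swR i b ((reCore C i b).s y) = C.s (swR i b y) := by
  have h1 := (swR_iso (C := C) i b).2 (swR i b y)
  have h2 : swR i b (swR i b y) = y := swR_swR i b y
  have h3 := congrArg (swR i b) h1
  have h4 : swR i b (swR i b (C.s (swR i b y))) = C.s (swR i b y) := swR_swR i b _
  have h5 : swR i b ((reCore C i b).s (swR i b (swR i b y))) =
      swR i b ((reCore C i b).s y) := congrArg (fun z => swR i b ((reCore C i b).s z)) h2
  exact h5.symm.trans (h3.symm.trans h4)

end ZFwd

open ZFwd

section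
variable {C : Core} {N : C.I → GB} {k : ℕ}

/-- Proof.  `ρ (inr true)` is at the root vertex, it is not `inr true` (`Rot.free`) and not `inr false` (`noLoop`), so it is `dt N i d`, and `AtV C i` (`comp_atV`); by `two_darts`
it is `L N (inl (i, b))`.  `re_root` gives `κ`; `e = ρ.trans κ : (comp C N).T ≃ (comp (reCore C i b) N).T` is an isomorphism which maps `inr true` to
`κ (L N (inl (i, b))) = L N (inr true) = inr true`, so `TwI false false`.  `ctw0` (`reCore_good`, `reCore_rigid`) gives `ψ₀` with `CTw false false C (reCore C i b) N N ψ₀ e`.  Put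
`ψ = ψ₀.trans (swR i b)` (`swR` is an involution); it commutes with `aa` and `s` (`swR_iso`).  `ρ (L N x) = L N (ψ x)`: `e (L N x) = L N (ψ₀ x)` (`TwI.lst` for the isomorphisms of the
nets, as in `CTw.caut`), and `κ (L N y) = L N (swR i b y)`.  The nets: if `ψ (inl (j, c)) = inl (j', c')`, then `ψ₀ (inl (j, c)) = swR i b (inl (j', c'))`; here `j' ≠ i`, since
`ψ (inr true) = inl (i, b)`, `ψ (inr false) = inl (i, !b)` and `ψ` is injective; so it is `inl (j', c')`, and `κ` is the identity on the part `j'`.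
`Rot` for `ψ`: `(ρ ^ n) (L N x) = L N ((ψ ^ n) x)` (`CAut.pow_L`) and `L` is injective (`L_inj`); root vertex: `comp_sc_L`. -/
theorem zc_fwd (hC : C.toB.IsGood) (hR : Rigid C.toB) {ρ : Perm (comp C N).T}
    (hr : Rot (comp C N).aa (comp C N).s ρ k (Sum.inr true))
    (h2 : ∀ i, AtV C i → Fintype.card (N i).1.D = 2) :
    ∃ ψ : Perm C.toB.T, CAut C N ψ ρ ∧ Rot C.toB.aa C.s ψ k (Sum.inr true) := by
  have hN := comp_good C N hC
  have hk := hr.k2
  -- the image of the root dart
  obtain ⟨i, b, hai, hb⟩ : ∃ i b, AtV C i ∧ ρ (Sum.inr true) = CompInj.L N (Sum.inl (i, b)) := by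
    rcases CompInj.cases_dt N (ρ (Sum.inr true)) with ⟨i, d, h1⟩ | ⟨b, h1⟩
    · have h3 : AtV C i := by
        refine comp_atV N (d := d) ?_
        rw [← h1]
        exact hr.root
      obtain ⟨b, hb⟩ := (two_darts (h2 i h3)).2.1 d
      refine ⟨i, b, h3, ?_⟩
      rw [h1, hb]
      rfl
    · exfalso
      cases b
      · refine hN.noLoop (Sum.inr true) ?_
        have h3 := hr.root
        rw [h1] at h3
        exact h3
      · refine hr.free (Sum.inr true) 1 one_pos (by omega) ?_
        rw [pow_one]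
        exact h1
  obtain ⟨κ, ka, ks, kL, kd⟩ := re_root i b (N := N) (h2 i hai)
  -- the isomorphism
  have hroot : κ (ρ (Sum.inr true)) = Sum.inr true := by
    rw [hb, kL]
    have h3 : swR i b (Sum.inl (i, b)) = Sum.inr true := swR_inl i b
    rw [h3]
    rfl
  have htw : TwI false false (comp C N) (comp (reCore C i b) N) (ρ.trans κ) := by
    refine ⟨fun t => ?_, fun t => ?_, fun b' => ?_⟩
    · show κ (ρ ((comp C N).aa t)) = _
      rw [hr.ra, ka]
      rfl
    · show κ (ρ ((comp C N).s t)) = _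
      rw [hr.rs, ks]
      rfl
    · cases b'
      · show κ (ρ ((comp C N).aa (Sum.inr true))) = _
        rw [hr.ra, ka, hroot]
        rfl
      · exact hroot
  obtain ⟨ψ₀, h0⟩ := ctw0 hC hR (reCore_good i b hC) (reCore_rigid i b hR) htw
  obtain ⟨ψ, hψ⟩ : ∃ ψ : Perm C.toB.T, ∀ x, ψ x = swR i b (ψ₀ x) :=
    ⟨ψ₀.trans (swR i b), fun x => rfl⟩
  have hψ' : ∀ x, ψ₀ x = swR i b (ψ x) := by
    intro x
    rw [hψ]
    exact (swR_swR i b (ψ₀ x)).symm
  have hL : ∀ x, ρ (CompInj.L N x) = CompInj.L N (ψ x) := by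
    intro x
    apply κ.injective
    have h3 : κ (ρ (CompInj.L N x)) = CompInj.L (C := reCore C i b) N (ψ₀ x) := cL h0 x
    exact h3.trans ((congrArg (CompInj.L (C := reCore C i b) N) (hψ' x)).trans
      (kL (ψ x)).symm)
  have hcaut : CAut C N ψ ρ := by
    refine ⟨fun x => ?_, fun x => ?_, hr.ra, hr.rs, hL, ?_⟩
    · rw [hψ, hψ]
      have h3 : ψ₀ (C.toB.aa x) = (reCore C i b).toB.aa (ψ₀ x) := h0.core.aa x
      rw [h3]
      exact sw_aa i b (ψ₀ x)
    · have h3 : ψ₀ (C.s x) = (reCore C i b).s (ψ₀ x) := h0.core.rot x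
      have h4 : ψ (C.s x) = swR i b (ψ₀ (C.s x)) := hψ (C.s x)
      exact h4.trans ((congrArg (swR i b) h3).trans ((sw_s i b (ψ₀ x)).trans
        (congrArg C.s (hψ x).symm)))
    · intro j c j' c' hj
      obtain ⟨j₁, c₁, hj₁⟩ := CTwB.core_inl h0.core j c
      have h3 : ψ₀ (Sum.inl (j, c)) = swR i b (Sum.inl (j', c')) := by
        rw [hψ', hj]
      have hji : j' ≠ i := by
        rintro rfl
        rw [hj₁] at h3
        by_cases hc : c' = b
        · rw [hc] at h3
          have h4 := h3.trans (swR_inl j' b)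
          simp at h4
        · have hc' : c' = !b := Bool.eq_not_of_ne hc
          rw [hc'] at h3
          have h4 := h3.trans (swR_inl' j' b)
          simp at h4
      have h4 : ψ₀ (Sum.inl (j, c)) = Sum.inl (j', c') := h3.trans (swR_ne i b hji c')
      obtain ⟨φ, hφ, hd⟩ := h0.nets j c j' c' h4
      refine ⟨φ, hφ, fun d d' hdd => ?_⟩
      apply κ.injective
      have h5 : κ (ρ (CompInj.dt N j d)) = CompInj.dt (C := reCore C i b) N j' d' := hd d d' hdd
      rw [h5]
      exact (kd j' d' hji).symm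
  refine ⟨ψ, hcaut, hcaut.caa, hcaut.cs, hk, fun x => ?_, fun x n h3 h4 h5 => ?_, ?_⟩
  · apply CompInj.L_inj N
    rw [← hcaut.pow_L k x]
    exact hr.pow _
  · refine hr.free (CompInj.L N x) n h3 h4 ?_
    rw [hcaut.pow_L n x]
    exact congrArg (CompInj.L N) h5
  · refine (comp_sc_L N (Sum.inr true) (ψ (Sum.inr true))).1 ?_
    have h3 := hr.root
    have h4 : ρ (Sum.inr true) = CompInj.L N (ψ (Sum.inr true)) := hL (Sum.inr true)
    rw [h4] at h3
    exact h3

/-- For a given rotation `ψ` of the core: `ψ' ` from `zc_fwd`, `ψ = ψ' ^ m` with `m` prime to `k` (`Rot.pow_eq`), `ρ' = ρ ^ m` is a rotation (`Rot.coprime_pow`); `zc_fwd` for `ρ'`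
gives `ψ''` with `ρ' (L N x) = L N (ψ'' x)`, and `(ρ ^ m) (L N x) = L N ((ψ' ^ m) x)`, so `ψ'' = ψ` (`L_inj`). -/
theorem zc_fwd' (hC : C.toB.IsGood) (hR : Rigid C.toB) {ρ : Perm (comp C N).T}
    (hr : Rot (comp C N).aa (comp C N).s ρ k (Sum.inr true))
    (h2 : ∀ i, AtV C i → Fintype.card (N i).1.D = 2) {ψ : Perm C.toB.T}
    (hψ : Rot C.toB.aa C.s ψ k (Sum.inr true)) :
    ∃ ρ' : Perm (comp C N).T, CAut C N ψ ρ' ∧
      Rot (comp C N).aa (comp C N).s ρ' k (Sum.inr true) := by
  obtain ⟨ψ', hc, hr1⟩ := zc_fwd hC hR hr h2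
  obtain ⟨m, hm, h3⟩ := Rot.pow_eq (a := C.toB.aa) (s := C.toB.s) hC hr1 hψ
  have hr2 := hr.coprime_pow hm
  obtain ⟨ψ'', hc2, -⟩ := zc_fwd hC hR hr2 h2
  have h4 : ψ'' = ψ := by
    ext x : 1
    apply CompInj.L_inj N
    rw [← hc2.L x, hc.pow_L m x, h3]
  exact ⟨ρ ^ m, h4 ▸ hc2, hr2⟩

/-- Conversely.  Proof.  `ψ (inr true)` is at the root vertex, not a root dart, so it is `inl (i, b)` with `AtV C i`.  `ψ₀ = ψ.trans (swR i b)` is a `TwI false false C.toB (reCore C i b).toB`
(`swR_iso`; `inr true ↦ inr true`).  For the nets: if `ψ₀ (inl (j, c)) = inl (j', c')` and `j' ≠ i`, then `ψ (inl (j, c)) = inl (j', c')`: `hn`; if `j' = i`, then `ψ (inl (j, c))` is a root dart, so `AtV C j`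
(if `ψ` maps it to `inr false`, then it maps `inl (j, !c)` to `inr true`; `ψ` preserves the root vertex: `Rot.root` and `cs`) and both nets have two nonroot darts (`two_darts_iso`).
`ctw_mk` gives `e : (comp C N).T ≃ (comp (reCore C i b) N).T`; `ρ = e.trans κ.symm` with `κ` from `re_root`.  `CAut`: as in `zc_fwd`.  `Rot`: `(ρ ^ n) (L N x) = L N ((ψ ^ n) x)`; `(ρ ^ k)` fixes
`L N x`, so `ρ ^ k = 1` (`iso_unique`, `comp_good`); if `(ρ ^ n) t = t` for some `t` and `0 < n < k`, then `ρ ^ n = 1` and `(ψ ^ n) x = x`; root vertex: `comp_sc_L`. -/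
theorem zc_bwd (hC : C.toB.IsGood) {ψ : Perm C.toB.T}
    (hψ : Rot C.toB.aa C.s ψ k (Sum.inr true))
    (h2 : ∀ i, AtV C i → Fintype.card (N i).1.D = 2)
    (hn : ∀ i b i' b', ψ (Sum.inl (i, b)) = Sum.inl (i', b') →
      ∃ φ : (N i).1.T ≃ (N i').1.T, TwI false (xor b b') (N i).1 (N i').1 φ) :
    ∃ ρ : Perm (comp C N).T, CAut C N ψ ρ ∧
      Rot (comp C N).aa (comp C N).s ρ k (Sum.inr true) := by
  have hN := comp_good C N hC
  have hk := hψ.k2
  have hpr : ∀ x : C.toB.T, C.s.SameCycle (Sum.inr true) (ψ x) → C.s.SameCycle (Sum.inr true) x := by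
    intro x h3
    have h4 := (hψ.pow_root 1 (t := x)).1 (by rw [pow_one]; exact h3)
    exact h4
  have hpr' : ∀ x : C.toB.T, ψ x = Sum.inr true → C.s.SameCycle (Sum.inr true) x := by
    intro x h3
    refine hpr x ?_
    rw [h3]
    exact Perm.SameCycle.refl _ _
  obtain ⟨i, b, hib⟩ : ∃ i b, ψ (Sum.inr true) = Sum.inl (i, b) := by
    rcases h1 : ψ (Sum.inr true) with ⟨i, b⟩ | b
    · exact ⟨i, b, rfl⟩
    · exfalso
      cases b
      · refine hC.noLoop (Sum.inr true) ?_
        have h3 := hψ.root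
        rw [h1] at h3
        exact h3
      · refine hψ.free (Sum.inr true) 1 one_pos (by omega) ?_
        rw [pow_one]
        exact h1
  have hib' : ψ (Sum.inr false) = Sum.inl (i, !b) := by
    have h3 := hψ.ra (Sum.inr true)
    rw [hib] at h3
    exact h3
  have hai : AtV C i := by
    refine ⟨b, ?_⟩
    have h3 := hψ.root
    rw [hib] at h3
    exact h3
  obtain ⟨κ, ka, ks, kL, kd⟩ := re_root i b (N := N) (h2 i hai)
  obtain ⟨ψ₀, hψ₀⟩ : ∃ ψ₀ : C.toB.T ≃ (reCore C i b).toB.T, ∀ x, ψ₀ x = swR i b (ψ x) :=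
    ⟨ψ.trans (swR i b), fun x => rfl⟩
  have htw : TwI false false C.toB (reCore C i b).toB ψ₀ := by
    have ha : ∀ t : C.toB.T, ψ₀ (C.toB.aa t) = (reCore C i b).toB.aa (ψ₀ t) := by
      intro t
      rw [hψ₀, hψ₀, hψ.ra]
      exact (swR_iso i b).1 (ψ t)
    have hrt : ψ₀ (Sum.inr true) = Sum.inr true := by
      rw [hψ₀, hib]
      exact swR_inl i b
    refine ⟨ha, fun t => ?_, fun b' => ?_⟩
    · have h3 : ψ (C.toB.s t) = C.toB.s (ψ t) := hψ.rs t
      rw [hψ₀, h3, hψ₀]
      exact (swR_iso i b).2 (ψ t)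
    · cases b'
      · have h3 := ha (Sum.inr true)
        rw [hrt] at h3
        exact h3
      · exact hrt
  have hback : ∀ x y, ψ₀ x = y → ψ x = swR i b y := by
    intro x y h3
    rw [← h3, hψ₀]
    exact (swR_swR i b (ψ x)).symm
  obtain ⟨e, he⟩ := ctw_mk (N := N) (C' := reCore C i b) (N' := N) htw (by
    intro j c j' c' hj
    have h3 := hback _ _ hj
    by_cases hji : j' = i
    · have hai' : AtV C j' := hji ▸ hai
      rw [hji] at h3
      have hAj : AtV C j := by
        by_cases hc : c' = b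
        · rw [hc] at h3
          have h4 : ψ (Sum.inl (j, c)) = Sum.inr true := h3.trans (swR_inl i b)
          exact ⟨c, hpr' _ h4⟩
        · have hc' : c' = !b := Bool.eq_not_of_ne hc
          rw [hc'] at h3
          have h4 : ψ (Sum.inl (j, c)) = Sum.inr false := h3.trans (swR_inl' i b)
          have h5 : ψ (Sum.inl (j, !c)) = Sum.inr true := by
            have h6 := hψ.ra (Sum.inl (j, c))
            rw [h4] at h6
            exact h6
          exact ⟨!c, hpr' _ h5⟩
      obtain ⟨φ, hφ, -⟩ := two_darts_iso (h2 j hAj) (h2 j' hai') (xor c c')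
      exact ⟨φ, hφ⟩
    · exact hn j c j' c' (h3.trans (swR_ne i b hji c')))
  obtain ⟨ρ, hρ⟩ : ∃ ρ : Perm (comp C N).T, ∀ t, κ (ρ t) = e t :=
    ⟨e.trans κ.symm, fun t => κ.apply_symm_apply (e t)⟩
  have hL : ∀ x, ρ (CompInj.L N x) = CompInj.L N (ψ x) := by
    intro x
    apply κ.injective
    exact (hρ _).trans ((cL he x).trans ((congrArg (CompInj.L (C := reCore C i b) N) (hψ₀ x)).trans
      (kL (ψ x)).symm))
  have hρa : ∀ t, ρ ((comp C N).aa t) = (comp C N).aa (ρ t) := by
    intro t
    apply κ.injective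
    rw [hρ, ka, hρ]
    exact he.tw.aa t
  have hρs : ∀ t, ρ ((comp C N).s t) = (comp C N).s (ρ t) := by
    intro t
    apply κ.injective
    rw [hρ, ks, hρ]
    exact he.tw.rot t
  have hcaut : CAut C N ψ ρ := by
    refine ⟨hψ.ra, hψ.rs, hρa, hρs, hL, ?_⟩
    intro j c j' c' hj
    have hji : j' ≠ i := by
      rintro rfl
      by_cases hc : c' = b
      · rw [hc] at hj
        have h4 := ψ.injective (hj.trans hib.symm)
        simp at h4
      · have hc' : c' = !b := Bool.eq_not_of_ne hc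
        rw [hc'] at hj
        have h4 := ψ.injective (hj.trans hib'.symm)
        simp at h4
    have h4 : ψ₀ (Sum.inl (j, c)) = Sum.inl (j', c') := by
      rw [hψ₀, hj]
      exact swR_ne i b hji c'
    obtain ⟨φ, hφ, hd⟩ := he.nets j c j' c' h4
    refine ⟨φ, hφ, fun d d' hdd => ?_⟩
    apply κ.injective
    rw [hρ, hd d d' hdd]
    exact (kd j' d' hji).symm
  have hpow : ∀ (n : ℕ) (t : (comp C N).T), (ρ ^ n) t = t → ρ ^ n = 1 := by
    intro n t h3
    exact iso_unique hN t (ρ ^ n) 1 (Poles_comm hρa n) (Poles_comm hρs n) (fun _ => rfl)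
      (fun _ => rfl) h3
  have hpow' : ∀ n : ℕ, ρ ^ n = 1 → ∀ x, (ψ ^ n) x = x := by
    intro n h3 x
    apply CompInj.L_inj N
    rw [← hcaut.pow_L n x, h3]
    rfl
  refine ⟨ρ, hcaut, hρa, hρs, hk, fun t => ?_, fun t n h3 h4 h5 => ?_, ?_⟩
  · have h3 : (ρ ^ k) (CompInj.L N (Sum.inr true)) = CompInj.L N (Sum.inr true) := by
      rw [hcaut.pow_L k]
      exact congrArg (CompInj.L N) (hψ.pow _)
    rw [hpow k _ h3]
    rfl
  · exact hψ.free (Sum.inr true) n h3 h4 (hpow' n (hpow n t h5) _)
  · have h3 := (comp_sc_L N (Sum.inr true) (ψ (Sum.inr true))).2 hψ.root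
    have h4 : ρ (Sum.inr true) = CompInj.L N (ψ (Sum.inr true)) := hL (Sum.inr true)
    rw [h4]
    exact h3

end

end PGr

end
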