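import Pool.Agent.PGc.PrefType
import Pool.Agent.PGm.M06
import Pool.Agent.PGm.M08
import Pool.Agent.PGm.M11
import Pool.Agent.PGm.M12
import Pool.Agent.PGm.M14

section
/-!
# Module XWRD: the weights of the words in closed form

The recursions of `wFree`, `wAny`, `wNon` are given by the matrix `((A + K, 1 + K D), (K, 1 + K D))`, with
characteristic polynomial `(z - z1)(z - z2)`.  Prove each closed form by induction on `n` together with
the closed form of the other component and nonnegativity: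
`wFree n .2 = K (z2^n - z1^n) / (z2 - z1)`, `wAny n .1 = (z2^(n+1) - z1^(n+1)) / (z2 - z1)`,
`wAny n .2 = (z2^n (z2 - A) - z1^n (z1 - A)) / (z2 - z1)`, `wNon n .i + 1 = wAny n .i`.
Useful: `A + K + 1 + K D = z1 + z2`, `(A + K)(1 + K D) - K (1 + K D) = z1 z2`, so
`(A + K - z1)(A + K - z2) = - K (1 + K D)`.
-/

namespace PGa
open PGr
open scoped ENNReal

variable {K D A z1 z2 : ℝ}

private theorem XWrd_free (hK : 0 ≤ K) (hD : 0 ≤ D) (hA : 0 ≤ A) (h : Eig K D A z1 z2) (n : ℕ) :
    ((wFree (ENNReal.ofReal K) (ENNReal.ofReal D) (ENNReal.ofReal A) n).1 =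
      ENNReal.ofReal ((z2 ^ n * (A + K - z1) - z1 ^ n * (A + K - z2)) / (z2 - z1)) ∧
      0 ≤ (z2 ^ n * (A + K - z1) - z1 ^ n * (A + K - z2)) / (z2 - z1)) ∧
    ((wFree (ENNReal.ofReal K) (ENNReal.ofReal D) (ENNReal.ofReal A) n).2 =
      ENNReal.ofReal (K * (z2 ^ n - z1 ^ n) / (z2 - z1)) ∧
      0 ≤ K * (z2 ^ n - z1 ^ n) / (z2 - z1)) := by
  have hd : z2 - z1 ≠ 0 := by have := h.lt; intro h; linarith
  have hKD : 0 ≤ K * D := mul_nonneg hK hD
  have hs := h.sum
  have hp := h.prod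
  induction n with
  | zero =>
    have e1 : (z2 ^ 0 * (A + K - z1) - z1 ^ 0 * (A + K - z2)) / (z2 - z1) = 1 := by
      rw [pow_zero, pow_zero, div_eq_one_iff_eq hd]; ring
    have e2 : K * (z2 ^ 0 - z1 ^ 0) / (z2 - z1) = 0 := by simp
    rw [e1, e2]
    refine ⟨⟨?_, zero_le_one⟩, ?_, le_rfl⟩
    · simp [wFree]
    · simp [wFree]
  | succ n ih =>
    obtain ⟨⟨i1, i2⟩, i3, i4⟩ := ih
    set F := (z2 ^ n * (A + K - z1) - z1 ^ n * (A + K - z2)) / (z2 - z1) with hF
    set G := K * (z2 ^ n - z1 ^ n) / (z2 - z1) with hG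
    have e1 : (z2 ^ (n + 1) * (A + K - z1) - z1 ^ (n + 1) * (A + K - z2)) / (z2 - z1) =
        (A + K) * F + (1 + K * D) * G := by
      rw [hF, hG]
      field_simp
      have h1 : (A + K - z1) * (A + K - z2) = - K * (1 + K * D) := by
        have : (A + K - z1) * (A + K - z2) = (A + K) ^ 2 - (A + K) * (z1 + z2) + z1 * z2 := by ring
        rw [this, hs, hp]; ring
      have h2 : (A + K) * (A + K - z1) + (1 + K * D) * K = z2 * (A + K - z1) := by
        linear_combination h1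
      have h3 : (A + K) * (A + K - z2) + (1 + K * D) * K = z1 * (A + K - z2) := by
        linear_combination h1
      rw [pow_succ, pow_succ]
      linear_combination (-(z2 ^ n)) * h2 + z1 ^ n * h3
    have e2 : K * (z2 ^ (n + 1) - z1 ^ (n + 1)) / (z2 - z1) = K * F + (1 + K * D) * G := by
      rw [hF, hG]
      field_simp
      rw [pow_succ, pow_succ]
      linear_combination K * (z2 ^ n - z1 ^ n) * hs
    rw [e1, e2]
    have hKD1 : 0 ≤ 1 + K * D := by linarith
    refine ⟨⟨?_, by positivity⟩, ?_, by positivity⟩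
    · rw [wFree, i1, i3, ENNReal.ofReal_add (by positivity) (by positivity),
        ENNReal.ofReal_mul (by positivity), ENNReal.ofReal_mul (by positivity),
        ENNReal.ofReal_add hA hK, ENNReal.ofReal_add zero_le_one hKD, ENNReal.ofReal_mul hK,
        ENNReal.ofReal_one]
    · rw [wFree, i1, i3, ENNReal.ofReal_add (by positivity) (by positivity),
        ENNReal.ofReal_mul (by positivity), ENNReal.ofReal_mul (by positivity),
        ENNReal.ofReal_add zero_le_one hKD, ENNReal.ofReal_mul hK,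
        ENNReal.ofReal_one]

private theorem XWrd_any (hK : 0 ≤ K) (hD : 0 ≤ D) (hA : 0 ≤ A) (h : Eig K D A z1 z2) (n : ℕ) :
    ((wAny (ENNReal.ofReal K) (ENNReal.ofReal D) (ENNReal.ofReal A) n).1 =
      ENNReal.ofReal ((z2 ^ (n + 1) - z1 ^ (n + 1)) / (z2 - z1)) ∧
      0 ≤ (z2 ^ (n + 1) - z1 ^ (n + 1)) / (z2 - z1)) ∧
    ((wAny (ENNReal.ofReal K) (ENNReal.ofReal D) (ENNReal.ofReal A) n).2 =
      ENNReal.ofReal ((z2 ^ n * (z2 - A) - z1 ^ n * (z1 - A)) / (z2 - z1)) ∧
      0 ≤ (z2 ^ n * (z2 - A) - z1 ^ n * (z1 - A)) / (z2 - z1)) := by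
  have hd : z2 - z1 ≠ 0 := by have := h.lt; intro h; linarith
  have hKD : 0 ≤ K * D := mul_nonneg hK hD
  have hs := h.sum
  have hp := h.prod
  induction n with
  | zero =>
    have e1 : (z2 ^ (0 + 1) - z1 ^ (0 + 1)) / (z2 - z1) = 1 := by
      rw [div_eq_one_iff_eq hd]; ring
    have e2 : (z2 ^ 0 * (z2 - A) - z1 ^ 0 * (z1 - A)) / (z2 - z1) = 1 := by
      rw [div_eq_one_iff_eq hd]; ring
    rw [e1, e2]
    refine ⟨⟨?_, zero_le_one⟩, ?_, zero_le_one⟩
    · simp [wAny]
    · simp [wAny]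
  | succ n ih =>
    obtain ⟨⟨i1, i2⟩, i3, i4⟩ := ih
    set F := (z2 ^ (n + 1) - z1 ^ (n + 1)) / (z2 - z1) with hF
    set G := (z2 ^ n * (z2 - A) - z1 ^ n * (z1 - A)) / (z2 - z1) with hG
    have e1 : (z2 ^ (n + 1 + 1) - z1 ^ (n + 1 + 1)) / (z2 - z1) =
        (A + K) * F + (1 + K * D) * G := by
      rw [hF, hG]
      field_simp
      rw [pow_succ, pow_succ, pow_succ, pow_succ]
      linear_combination (z2 ^ n * z2 - z1 ^ n * z1) * hs - (z2 ^ n - z1 ^ n) * hp
    have e2 : (z2 ^ (n + 1) * (z2 - A) - z1 ^ (n + 1) * (z1 - A)) / (z2 - z1) =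
        K * F + (1 + K * D) * G := by
      rw [hF, hG]
      field_simp
      rw [pow_succ, pow_succ]
      linear_combination (z2 ^ n * z2 - z1 ^ n * z1) * hs - (z2 ^ n - z1 ^ n) * hp
    rw [e1, e2]
    have hKD1 : 0 ≤ 1 + K * D := by linarith
    refine ⟨⟨?_, by positivity⟩, ?_, by positivity⟩
    · rw [wAny, i1, i3, ENNReal.ofReal_add (by positivity) (by positivity),
        ENNReal.ofReal_mul (by positivity), ENNReal.ofReal_mul (by positivity),
        ENNReal.ofReal_add hA hK, ENNReal.ofReal_add zero_le_one hKD, ENNReal.ofReal_mul hK,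
        ENNReal.ofReal_one]
    · rw [wAny, i1, i3, ENNReal.ofReal_add (by positivity) (by positivity),
        ENNReal.ofReal_mul (by positivity), ENNReal.ofReal_mul (by positivity),
        ENNReal.ofReal_add zero_le_one hKD, ENNReal.ofReal_mul hK,
        ENNReal.ofReal_one]

private theorem XWrd_non (x y a : ℝ≥0∞) (n : ℕ) :
    (wNon x y a n).1 + 1 = (wAny x y a n).1 ∧ (wNon x y a n).2 + 1 = (wAny x y a n).2 := by
  induction n with
  | zero => simp [wNon, wAny]
  | succ n ih =>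
    rw [wNon, wAny]
    refine ⟨?_, ?_⟩
    · show (a + x) * (wAny x y a n).1 + x * y * (wAny x y a n).2 + (wNon x y a n).2 + 1 =
        (a + x) * (wAny x y a n).1 + (1 + x * y) * (wAny x y a n).2
      rw [add_assoc, ih.2]
      ring
    · show x * (wAny x y a n).1 + x * y * (wAny x y a n).2 + (wNon x y a n).2 + 1 =
        x * (wAny x y a n).1 + (1 + x * y) * (wAny x y a n).2
      rw [add_assoc, ih.2]
      ring

private theorem XWrd_sub {a : ℝ≥0∞} {r : ℝ} (h : a + 1 = ENNReal.ofReal r) :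
    a = ENNReal.ofReal (r - 1) ∧ 0 ≤ r - 1 := by
  refine ⟨?_, ?_⟩
  · rw [ENNReal.ofReal_sub _ zero_le_one, ENNReal.ofReal_one, ← h]
    exact (ENNReal.add_sub_cancel_right ENNReal.one_ne_top).symm
  · have h1 : (1 : ℝ≥0∞) ≤ ENNReal.ofReal r := by
      rw [← h]
      exact le_add_self
    rw [ENNReal.one_le_ofReal] at h1
    linarith

theorem wFree_closed (hK : 0 ≤ K) (hD : 0 ≤ D) (hA : 0 ≤ A) (h : Eig K D A z1 z2) (n : ℕ) :
    (wFree (ENNReal.ofReal K) (ENNReal.ofReal D) (ENNReal.ofReal A) n).1 =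
      ENNReal.ofReal ((z2 ^ n * (A + K - z1) - z1 ^ n * (A + K - z2)) / (z2 - z1)) ∧
      0 ≤ (z2 ^ n * (A + K - z1) - z1 ^ n * (A + K - z2)) / (z2 - z1) :=
  (XWrd_free hK hD hA h n).1

theorem wNon1_closed (hK : 0 ≤ K) (hD : 0 ≤ D) (hA : 0 ≤ A) (h : Eig K D A z1 z2) (n : ℕ) :
    (wNon (ENNReal.ofReal K) (ENNReal.ofReal D) (ENNReal.ofReal A) n).1 =
      ENNReal.ofReal ((z2 ^ (n + 1) - z1 ^ (n + 1)) / (z2 - z1) - 1) ∧
      0 ≤ (z2 ^ (n + 1) - z1 ^ (n + 1)) / (z2 - z1) - 1 :=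
  XWrd_sub ((XWrd_non _ _ _ n).1.trans (XWrd_any hK hD hA h n).1.1)

theorem wNon2_closed (hK : 0 ≤ K) (hD : 0 ≤ D) (hA : 0 ≤ A) (h : Eig K D A z1 z2) (n : ℕ) :
    (wNon (ENNReal.ofReal K) (ENNReal.ofReal D) (ENNReal.ofReal A) n).2 =
      ENNReal.ofReal ((z2 ^ n * (z2 - A) - z1 ^ n * (z1 - A)) / (z2 - z1) - 1) ∧
      0 ≤ (z2 ^ n * (z2 - A) - z1 ^ n * (z1 - A)) / (z2 - z1) - 1 :=
  XWrd_sub ((XWrd_non _ _ _ n).2.trans (XWrd_any hK hD hA h n).2.1)

end PGa

end

section
/-! # Module Bij: the generating functions of the reduced maps with a reflection -/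

set_option linter.unusedSectionVars false

namespace PGr
open Equiv Finset
open scoped ENNReal Classical

section
variable {T : Type} [Fintype T] [DecidableEq T] {a s : Perm T} {r : T} {μ : T → Ltr}
variable {T' : Type} [Fintype T'] [DecidableEq T'] {a' s' : Perm T'} {r' : T'} {μ' : T' → Ltr}

theorem Bij_pow (f : T ≃ T') (h2 : ∀ t, f (s t) = s' (f t)) (n : ℕ) (t : T) :
    f ((s ^ n) t) = (s' ^ n) (f t) := by
  induction n generalizing t with
  | zero => simp
  | succ n ih => rw [pow_succ, pow_succ, Perm.mul_apply, Perm.mul_apply, ih, h2]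

theorem Bij_same (f : T ≃ T') (h2 : ∀ t, f (s t) = s' (f t)) {t t' : T} (h : s.SameCycle t t') :
    s'.SameCycle (f t) (f t') := by
  obtain ⟨n, -, hn⟩ := h.exists_pow_eq'
  exact ⟨n, by rw [zpow_natCast, ← Bij_pow f h2, hn]⟩

theorem Bij_mark (f : T ≃ T') (h1 : ∀ t, f (a t) = a' (f t)) (h2 : ∀ t, f (s t) = s' (f t))
    (hr : f r = r') (hμ : ∀ t, μ' (f t) = μ t) (h : Mark a s r μ) : Mark a' s' r' μ' := by
  have h3 : ∀ t, f ((a * s) t) = (a' * s') (f t) := fun t => by
    rw [Perm.mul_apply, Perm.mul_apply, h1, h2]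
  constructor
  · rw [← hr, hμ]; exact h.root
  · intro t ht
    obtain ⟨t, rfl⟩ := f.surjective t
    rw [hμ] at ht
    rw [← hr]
    exact Bij_same f h3 (h.dom t ht)
  · intro t ht
    obtain ⟨t, rfl⟩ := f.surjective t
    rw [hμ] at ht
    rw [← h2, ← h1, hμ]
    exact h.next t ht
  · intro t ht
    obtain ⟨t, rfl⟩ := f.surjective t
    rw [hμ] at ht
    rw [← h1, hμ]
    exact h.cc t ht
  · rcases h.two with h4 | ⟨t, h4, h5⟩
    · left; rw [← hr, hμ]; exact h4
    · right
      exact ⟨f t, fun h6 => h4 (f.injective (h6.trans hr.symm)), by rwa [hμ]⟩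

end

/-- the index type -/
abbrev BijI (ty : Ltr) : Type 1 :=
  {μ : Bool → Ltr // Mark (Equiv.boolNot) (1 : Perm Bool) true μ ∧ μ true = ty} ⊕
  Σ c : GC, {μ : c.rep.1.T → Ltr // Mark c.rep.1.aa (c.rep.1.aa * c.rep.1.s) (Sum.inr true) μ ∧
          μ (Sum.inr true) = ty}

/-- the class of an index -/
noncomputable def BijF (ty : Ltr) : BijI ty → GC
  | Sum.inl μ => phi hh_link μ.2.1
  | Sum.inr ⟨c, μ⟩ => phi (hh_dual c.rep) μ.2.1

theorem Bij_rep {c c' : GC} (h : BIso c.rep.1 c'.rep.1) : c = c' :=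
  Quotient.out_equiv_out.mp h

theorem BijF_inj (ty : Ltr) : Function.Injective (BijF ty) := by
  rintro (⟨μ, hμ, h1⟩ | ⟨c, μ, hμ, h1⟩) (⟨μ', hμ', h1'⟩ | ⟨c', μ', hμ', h1'⟩) h
  · obtain ⟨f, hf1, hf2, hf3, hf4⟩ := (phi_eq_iff hh_link hμ hh_link hμ' (h1.trans h1'.symm)).mp h
    have h5 : ∀ b, f b = b := by
      intro b
      cases b with
      | true => exact hf3
      | false =>
        rcases h6 : f false with _ | _
        · rfl
        · rw [← hf3] at h6
          exact absurd (f.injective h6) (by decide)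
    have h6 : μ = μ' := by
      funext b
      rw [← hf4, h5]
    subst h6; rfl
  · exfalso
    obtain ⟨f, -⟩ := (phi_eq_iff hh_link hμ (hh_dual c'.rep) hμ' (h1.trans h1'.symm)).mp h
    have h2 := Fintype.card_congr f
    have h3 := c'.rep.2.big
    rw [← h2] at h3
    simp at h3
  · exfalso
    obtain ⟨f, -⟩ := (phi_eq_iff (hh_dual c.rep) hμ hh_link hμ' (h1.trans h1'.symm)).mp h
    have h2 := Fintype.card_congr f
    have h3 := c.rep.2.big
    rw [h2] at h3
    simp at h3
  · obtain ⟨f, hf1, hf2, hf3, hf4⟩ :=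
      (phi_eq_iff (hh_dual c.rep) hμ (hh_dual c'.rep) hμ' (h1.trans h1'.symm)).mp h
    have hs : ∀ t, f (c.rep.1.s t) = c'.rep.1.s (f t) := by
      intro t
      have h2 := hf2 t
      rw [Perm.mul_apply, Perm.mul_apply, hf1] at h2
      exact c'.rep.1.aa.injective h2
    have hc : c = c' := Bij_rep ⟨f, hf1, hs, hf3⟩
    subst hc
    have h5 : f = Equiv.refl _ :=
      iso_unique c.rep.2 (Sum.inr true) f (Equiv.refl _) hf1 hs (fun _ => rfl) (fun _ => rfl) hf3
    have h6 : μ = μ' := by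
      funext b
      rw [← hf4, h5]; rfl
    subst h6; rfl

theorem BijF_surj (ty : Ltr) (c : GC) (h : ∃ e : Perm c.rep.1.T, Refl c.rep.1.aa c.rep.1.s e ∧
      MTy c.rep.1.aa c.rep.1.s e (Sum.inr true) ty ∧ MRed c.rep.1.aa c.rep.1.s e (Sum.inr true)) :
    ∃ i, BijF ty i = c := by
  obtain ⟨T, _, _, a, s, r, μ, hH, hM, hty, hphi⟩ := phi_surj c ty h
  rcases hh_cases hH with ⟨hc, hs⟩ | hG
  · -- the link
    subst hs
    have hne : a r ≠ r := hH.fpf r
    have hbij : Function.Bijective (fun b : Bool => if b then r else a r) := by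
      rw [Fintype.bijective_iff_injective_and_card]
      refine ⟨?_, by rw [hc]; rfl⟩
      intro b b' hb
      cases b <;> cases b'
      · rfl
      · exact absurd hb hne
      · exact absurd hb.symm hne
      · rfl
    let f : Bool ≃ T := Equiv.ofBijective _ hbij
    have hft : f true = r := rfl
    have hff : f false = a r := rfl
    have hf1 : ∀ b, f (Equiv.boolNot b) = a (f b) := by
      intro b
      cases b with
      | true => exact hff
      | false => show f true = a (f false); rw [hft, hff, hH.inv]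
    have h1 : ∀ t, f.symm (a t) = Equiv.boolNot (f.symm t) := by
      intro t
      rw [Equiv.symm_apply_eq, hf1, Equiv.apply_symm_apply]
    have hM' : Mark (Equiv.boolNot) (1 : Perm Bool) true (μ ∘ f) :=
      Bij_mark f.symm h1 (fun _ => rfl) (by rw [Equiv.symm_apply_eq, hft])
        (fun t => by simp) hM
    have hty' : (μ ∘ f) true = ty := by rw [Function.comp, hft, hty]
    refine ⟨Sum.inl ⟨μ ∘ f, hM', hty'⟩, ?_⟩
    rw [← hphi]
    exact (phi_eq_iff hh_link hM' hH hM (hty'.trans hty.symm)).mpr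
      ⟨f, hf1, fun _ => rfl, hft, fun _ => rfl⟩
  · obtain ⟨c₀, f, hf1, hf2, hf3⟩ : ∃ c₀ : GC, ∃ f : T ≃ c₀.rep.1.T, (∀ t, f (a t) = c₀.rep.1.aa (f t)) ∧
        (∀ t, f ((a * s) t) = c₀.rep.1.s (f t)) ∧ f r = Sum.inr true :=
      ⟨_, gcl_iso a (a * s) r hG.dual⟩
    have hs : ∀ t, f (s t) = (c₀.rep.1.aa * c₀.rep.1.s) (f t) := by
      intro t
      rw [Perm.mul_apply, ← hf2, ← hf1, Perm.mul_apply, hH.inv]
    have hM' : Mark c₀.rep.1.aa (c₀.rep.1.aa * c₀.rep.1.s) (Sum.inr true) (μ ∘ f.symm) :=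
      Bij_mark f hf1 hs hf3 (fun t => by simp) hM
    have hty' : (μ ∘ f.symm) (Sum.inr true) = ty := by
      rw [Function.comp, ← hf3, Equiv.symm_apply_apply, hty]
    refine ⟨Sum.inr ⟨c₀, μ ∘ f.symm, hM', hty'⟩, ?_⟩
    rw [← hphi]
    exact ((phi_eq_iff hH hM (hh_dual c₀.rep) hM' (hty.trans hty'.symm)).mpr
      ⟨f, hf1, hs, hf3, fun t => by simp⟩).symm

theorem BijF_term {T : Type} [Fintype T] [DecidableEq T] {a s : Perm T} {r : T} {μ : T → Ltr}
    (hH : HH a s r) (hM : Mark a s r μ) {ty : Ltr} (hty : μ r = ty) (x k y1 A y : ℝ≥0∞) :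
    (if h : ∃ e : Perm (phi hH hM).rep.1.T, Refl (phi hH hM).rep.1.aa (phi hH hM).rep.1.s e ∧
      MTy (phi hH hM).rep.1.aa (phi hH hM).rep.1.s e (Sum.inr true) ty ∧
      MRed (phi hH hM).rep.1.aa (phi hH hM).rep.1.s e (Sum.inr true) then
    RW x k y1 A y (phi hH hM).rep.1.aa (phi hH hM).rep.1.s h.choose else 0) =
      k ^ (nV (a * s) - 1) * y ^ (Fintype.card T / 2) * ∏ t, lw x y1 A (μ t) := by
  subst hty
  rw [dif_pos (phi_mem hH hM)]
  have h := (phi_mem hH hM).choose_spec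
  exact phi_weight hH hM x k y1 A y h.1 h.2.1

theorem Bij_nV_link : nV ((Equiv.boolNot : Perm Bool) * 1) = 1 := by
  rw [nV, Nat.card_eq_one_iff_unique]
  refine ⟨⟨?_⟩, ⟨Quotient.mk _ true⟩⟩
  intro p q
  induction p using Quotient.inductionOn with | _ p
  induction q using Quotient.inductionOn with | _ q
  apply Quotient.sound
  show Perm.SameCycle _ p q
  cases p <;> cases q
  · exact Perm.SameCycle.refl _ _
  · exact ⟨1, rfl⟩
  · exact ⟨1, rfl⟩
  · exact Perm.SameCycle.refl _ _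

theorem Bij_fin {α : Type} [Fintype α] (P : α → Prop) [hP : DecidablePred P] (w : α → ℝ≥0∞)
    (k : ℝ≥0∞) :
    ∑' i : {x // P x}, k * w i.1 = k * ∑ x, if P x then w x else 0 := by
  rw [ENNReal.tsum_mul_left, ← tsum_fintype (L := SummationFilter.unconditional _)]
  congr 1
  refine (_root_.tsum_subtype {x | P x} w).trans (tsum_congr fun x => ?_)
  by_cases h : P x <;> simp [Set.indicator, h]

/-- Proof.  `phi` gives a bijection from the disjoint union of `{μ : Bool → Ltr // Mark, μ true = ty}` (half map with one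
edge) and `Σ c : GC, {μ : c.rep.1.T → Ltr // Mark aa (aa * s) (inr true) μ, μ (inr true) = ty}` onto the set of classes
counted by `RSum ty`: into: `phi_mem`; injective: `phi_eq_iff` (an isomorphism of the half maps `c.rep.dual`, `c'.rep.dual`
is an isomorphism of `c.rep`, `c'.rep` as `aa * (aa * s) = s`, so `c = c'`, and it is the identity (`iso_unique` in
`PGr/CompInj`), so `μ = μ'`; the link has 2 darts, the others at least 4); surjective: `phi_surj`, `hh_cases` (a good half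
map `(T, a, s, r)` is isomorphic to the dual of `c.rep` with `c = gcl a (a * s) r`; a half map with 2 darts is isomorphic to
the link), transport of `Mark`.  The weights by `phi_weight`; the tsum over `GC` restricted to the image is the tsum over the
source. -/
theorem rsum_eq (ty : Ltr) (x k y1 A y : ℝ≥0∞) :
    RSum ty x k y1 A y =
      y * (∑ μ : Bool → Ltr, if Mark (Equiv.boolNot) (1 : Perm Bool) true μ ∧ μ true = ty then
        ∏ t, lw x y1 A (μ t) else 0) +
      ∑' c : GC, k ^ (nV c.rep.1.s - 1) * y ^ (Fintype.card c.rep.1.T / 2) *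
        ∑ μ : c.rep.1.T → Ltr, if Mark c.rep.1.aa (c.rep.1.aa * c.rep.1.s) (Sum.inr true) μ ∧
          μ (Sum.inr true) = ty then ∏ t, lw x y1 A (μ t) else 0 := by
  have h0 : RSum ty x k y1 A y = ∑' i : BijI ty, (fun c : GC =>
      if h : ∃ e : Perm c.rep.1.T, Refl c.rep.1.aa c.rep.1.s e ∧
      MTy c.rep.1.aa c.rep.1.s e (Sum.inr true) ty ∧ MRed c.rep.1.aa c.rep.1.s e (Sum.inr true) then
    RW x k y1 A y c.rep.1.aa c.rep.1.s h.choose else 0) (BijF ty i) := by
    refine (Function.Injective.tsum_eq (BijF_inj ty) ?_).symm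
    intro c hc
    rw [Function.mem_support] at hc
    by_cases h : ∃ e : Perm c.rep.1.T, Refl c.rep.1.aa c.rep.1.s e ∧
          MTy c.rep.1.aa c.rep.1.s e (Sum.inr true) ty ∧ MRed c.rep.1.aa c.rep.1.s e (Sum.inr true)
    · exact BijF_surj ty c h
    · exact absurd (dif_neg h) hc
  rw [h0, Summable.tsum_sum ENNReal.summable ENNReal.summable, ENNReal.tsum_sigma']
  congr 1
  · refine Eq.trans (tsum_congr fun μ => ?_) (Bij_fin _ _ _)
    refine (BijF_term hh_link μ.2.1 μ.2.2 x k y1 A y).trans ?_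
    rw [Bij_nV_link]
    simp
  · refine tsum_congr fun c => ?_
    refine Eq.trans (tsum_congr fun μ => ?_) (Bij_fin _ _ _)
    refine (BijF_term (hh_dual c.rep) μ.2.1 μ.2.2 x k y1 A y).trans ?_
    have h3 : c.rep.1.aa * (c.rep.1.aa * c.rep.1.s) = c.rep.1.s := by
      ext1 t
      rw [Perm.mul_apply, Perm.mul_apply, c.rep.2.inv]
    rw [h3]

theorem Bij_all (ty : Ltr) (x k y1 A y : ℝ≥0∞) :
    RSum ty x k y1 A y = y * (match ty with | .G => x * (x + x * y1) | .X => x * y1 * (x + x * y1) | _ => 0) +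
      ∑' n, BS k y (n + 1) * wSum x y1 A ty n := by
  rw [rsum_eq, words_link]
  congr 1
  have h1 : ∀ c : GC, k ^ (nV c.rep.1.s - 1) * y ^ (Fintype.card c.rep.1.T / 2) *
        (∑ μ : c.rep.1.T → Ltr, if Mark c.rep.1.aa (c.rep.1.aa * c.rep.1.s) (Sum.inr true) μ ∧
          μ (Sum.inr true) = ty then ∏ t, lw x y1 A (μ t) else 0) =
      ∑' n : ℕ, (if c.rep.1.deg = n + 1 then
        k ^ (nV c.rep.1.s - 1) * y ^ (Fintype.card c.rep.1.T / 2) else 0) * wSum x y1 A ty n := by
    intro c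
    rw [words_sum c.rep.2]
    have h2 := deg_ge c.rep.2
    rw [tsum_eq_single (c.rep.1.deg - 1)]
    · rw [if_pos (by omega)]
    · intro n hn
      rw [if_neg (by omega), zero_mul]
  rw [tsum_congr h1, ENNReal.tsum_comm]
  refine tsum_congr fun n => ?_
  rw [ENNReal.tsum_mul_right]
  rfl

/-- the three generating functions -/
theorem rsum_C (x k y1 A y : ℝ≥0∞) :
    RSum .C x k y1 A y = ∑' n, BS k y (n + 1) * (A * (wFree x y1 A n).1) := by
  rw [Bij_all]
  simp [wSum]

theorem rsum_G (x k y1 A y : ℝ≥0∞) :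
    RSum .G x k y1 A y = x * y * (x + x * y1) + ∑' n, BS k y (n + 1) * (x * (wNon x y1 A n).1) := by
  rw [Bij_all]
  simp only [wSum]
  congr 1
  ring

theorem rsum_X (x k y1 A y : ℝ≥0∞) :
    RSum .X x k y1 A y = x * y1 * y * (x + x * y1) +
      ∑' n, BS k y (n + 1) * (x * y1 * (wNon x y1 A n).2) := by
  rw [Bij_all]
  simp only [wSum]
  congr 1
  ring

end PGr

end

section
/-!
# Module XRS: the sums over the reduced maps in closed form

`rsum_C`, `rsum_G`, `rsum_X` (PGs/Bij), `wFree_closed`, `wNon1_closed`, `wNon2_closed`, `BS_lin`.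
With `X_i = Xz z_i`: for `(wFree n).1` the coefficients are `α = -(A + K - z2)/(z2 - z1)`, `β = (A + K - z1)/(z2 - z1)`, `γ = 0`
and `α + β = 1`, `α X1 + β X2 = LL (A + K)`; for `(wNon n).1`: `α = -z1/(z2-z1)`, `β = z2/(z2-z1)`, `γ = -1`,
`α X1 + β X2 = LL (z1 + z2)`; for `(wNon n).2`: `α = -(z1 - A)/(z2-z1)`, `β = (z2 - A)/(z2-z1)`, `γ = -1`,
`α X1 + β X2 = LL (z1 + z2 - A)`.  (`LL t = (X1 (z2 - t) + X2 (t - z1)) / (z2 - z1)`.)
-/

namespace PGa
open PGr
open scoped ENNReal

variable {u v K D A z1 z2 : ℝ}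

theorem rsumC_closed (h : Reg u v) (hs : sv u v ≤ 1 / 10) (hK : 0 ≤ K) (hD : 0 ≤ D) (hA : 0 ≤ A)
    (he : Eig K D A z1 z2) (h1 : 0 < z1) (h2 : DomZ u v z2) :
    RSum .C (ENNReal.ofReal K) (ENNReal.ofReal (sv u v)) (ENNReal.ofReal D) (ENNReal.ofReal A)
        (ENNReal.ofReal (yv u v)) =
      ENNReal.ofReal (A * yv u v * sv u v * (LL u v z1 z2 (A + K) - 1)) ∧
      0 ≤ LL u v z1 z2 (A + K) - 1 := by
  have hz : z2 - z1 ≠ 0 := (sub_pos.mpr he.lt).ne'
  have hd1 : DomZ u v z1 := domZ_down h h2 h1 he.lt.le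
  have hform : ∀ n : ℕ, (z2 ^ n * (A + K - z1) - z1 ^ n * (A + K - z2)) / (z2 - z1) =
      -(A + K - z2) / (z2 - z1) * z1 ^ n + (A + K - z1) / (z2 - z1) * z2 ^ n + 0 := by
    intro n
    field_simp
    ring
  have hpos : ∀ n : ℕ, 0 ≤ -(A + K - z2) / (z2 - z1) * z1 ^ n +
      (A + K - z1) / (z2 - z1) * z2 ^ n + 0 := by
    intro n
    rw [← hform]
    exact (wFree_closed hK hD hA he n).2
  obtain ⟨hB1, hB2⟩ := BS_lin h hs hd1 h2 hpos
  have hval : -(A + K - z2) / (z2 - z1) * (Xz u v z1 - 1) +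
      (A + K - z1) / (z2 - z1) * (Xz u v z2 - 1) + 0 * ev u v = LL u v z1 z2 (A + K) - 1 := by
    unfold LL
    field_simp
    ring
  rw [hval] at hB1 hB2
  refine ⟨?_, hB2⟩
  rw [rsum_C]
  have hterm : ∀ n, BS (ENNReal.ofReal (sv u v)) (ENNReal.ofReal (yv u v)) (n + 1) *
      (ENNReal.ofReal A *
        (wFree (ENNReal.ofReal K) (ENNReal.ofReal D) (ENNReal.ofReal A) n).1) =
      ENNReal.ofReal A * (BS (ENNReal.ofReal (sv u v)) (ENNReal.ofReal (yv u v)) (n + 1) *
        ENNReal.ofReal (-(A + K - z2) / (z2 - z1) * z1 ^ n +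
          (A + K - z1) / (z2 - z1) * z2 ^ n + 0)) := by
    intro n
    rw [(wFree_closed hK hD hA he n).1, hform]
    ring
  rw [tsum_congr hterm, ENNReal.tsum_mul_left, hB1, ← ENNReal.ofReal_mul hA]
  congr 1
  ring

theorem rsumX_closed (h : Reg u v) (hs : sv u v ≤ 1 / 10) (hK : 0 ≤ K) (hD : 0 ≤ D) (hA : 0 ≤ A)
    (he : Eig K D A z1 z2) (h1 : 0 < z1) (h2 : DomZ u v z2) :
    RSum .X (ENNReal.ofReal K) (ENNReal.ofReal (sv u v)) (ENNReal.ofReal D) (ENNReal.ofReal A)
        (ENNReal.ofReal (yv u v)) =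
      ENNReal.ofReal (K * D * yv u v * (K + K * D) +
        K * D * (sv u v * yv u v * (LL u v z1 z2 (1 + K + K * D) - 1 - ev u v))) ∧
      0 ≤ LL u v z1 z2 (1 + K + K * D) - 1 - ev u v := by
  have hz : z2 - z1 ≠ 0 := (sub_pos.mpr he.lt).ne'
  have hd1 : DomZ u v z1 := domZ_down h h2 h1 he.lt.le
  have hform : ∀ n : ℕ, (z2 ^ n * (z2 - A) - z1 ^ n * (z1 - A)) / (z2 - z1) - 1 =
      -(z1 - A) / (z2 - z1) * z1 ^ n + (z2 - A) / (z2 - z1) * z2 ^ n + -1 := by
    intro n
    field_simp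
    ring
  have hpos : ∀ n : ℕ, 0 ≤ -(z1 - A) / (z2 - z1) * z1 ^ n +
      (z2 - A) / (z2 - z1) * z2 ^ n + -1 := by
    intro n
    rw [← hform]
    exact (wNon2_closed hK hD hA he n).2
  obtain ⟨hB1, hB2⟩ := BS_lin h hs hd1 h2 hpos
  have hKD : 1 + K + K * D = z1 + z2 - A := by linarith [he.sum]
  have hval : -(z1 - A) / (z2 - z1) * (Xz u v z1 - 1) +
      (z2 - A) / (z2 - z1) * (Xz u v z2 - 1) + -1 * ev u v =
      LL u v z1 z2 (1 + K + K * D) - 1 - ev u v := by
    rw [hKD]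
    unfold LL
    field_simp
    ring
  rw [hval] at hB1 hB2
  refine ⟨?_, hB2⟩
  rw [rsum_X]
  have hterm : ∀ n, BS (ENNReal.ofReal (sv u v)) (ENNReal.ofReal (yv u v)) (n + 1) *
      (ENNReal.ofReal K * ENNReal.ofReal D *
        (wNon (ENNReal.ofReal K) (ENNReal.ofReal D) (ENNReal.ofReal A) n).2) =
      (ENNReal.ofReal K * ENNReal.ofReal D) *
        (BS (ENNReal.ofReal (sv u v)) (ENNReal.ofReal (yv u v)) (n + 1) *
        ENNReal.ofReal (-(z1 - A) / (z2 - z1) * z1 ^ n +
          (z2 - A) / (z2 - z1) * z2 ^ n + -1)) := by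
    intro n
    rw [(wNon2_closed hK hD hA he n).1, hform]
    ring
  have hy := h.yv_pos.le
  have hs0 := h.sv_pos.le
  have hKD0 : 0 ≤ K * D := mul_nonneg hK hD
  rw [tsum_congr hterm, ENNReal.tsum_mul_left, hB1, ← ENNReal.ofReal_mul hK,
    ← ENNReal.ofReal_mul hKD0, ← ENNReal.ofReal_mul hKD0, ← ENNReal.ofReal_add hK hKD0,
    ← ENNReal.ofReal_mul (mul_nonneg hKD0 hy), ← ENNReal.ofReal_add
      (mul_nonneg (mul_nonneg hKD0 hy) (add_nonneg hK hKD0))
      (mul_nonneg hKD0 (mul_nonneg (mul_nonneg hs0 hy) hB2))]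

theorem rsumG_closed (h : Reg u v) (hs : sv u v ≤ 1 / 10) (hK : 0 ≤ K) (hD : 0 ≤ D) (hA : 0 ≤ A)
    (he : Eig K D A z1 z2) (h1 : 0 < z1) (h2 : DomZ u v z2) :
    RSum .G (ENNReal.ofReal K) (ENNReal.ofReal (sv u v)) (ENNReal.ofReal D) (ENNReal.ofReal A)
        (ENNReal.ofReal (yv u v)) =
      ENNReal.ofReal (K * yv u v * (K + K * D) +
        K * (sv u v * yv u v * (LL u v z1 z2 (1 + A + K + K * D) - 1 - ev u v))) ∧
      0 ≤ LL u v z1 z2 (1 + A + K + K * D) - 1 - ev u v := by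
  have hz : z2 - z1 ≠ 0 := (sub_pos.mpr he.lt).ne'
  have hd1 : DomZ u v z1 := domZ_down h h2 h1 he.lt.le
  have hform : ∀ n : ℕ, (z2 ^ (n + 1) - z1 ^ (n + 1)) / (z2 - z1) - 1 =
      -z1 / (z2 - z1) * z1 ^ n + z2 / (z2 - z1) * z2 ^ n + -1 := by
    intro n
    field_simp
    ring
  have hpos : ∀ n : ℕ, 0 ≤ -z1 / (z2 - z1) * z1 ^ n + z2 / (z2 - z1) * z2 ^ n + -1 := by
    intro n
    rw [← hform]
    exact (wNon1_closed hK hD hA he n).2
  obtain ⟨hB1, hB2⟩ := BS_lin h hs hd1 h2 hpos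
  have hKD : 1 + A + K + K * D = z1 + z2 := by linarith [he.sum]
  have hval : -z1 / (z2 - z1) * (Xz u v z1 - 1) + z2 / (z2 - z1) * (Xz u v z2 - 1) +
      -1 * ev u v = LL u v z1 z2 (1 + A + K + K * D) - 1 - ev u v := by
    rw [hKD]
    unfold LL
    field_simp
    ring
  rw [hval] at hB1 hB2
  refine ⟨?_, hB2⟩
  rw [rsum_G]
  have hterm : ∀ n, BS (ENNReal.ofReal (sv u v)) (ENNReal.ofReal (yv u v)) (n + 1) *
      (ENNReal.ofReal K *
        (wNon (ENNReal.ofReal K) (ENNReal.ofReal D) (ENNReal.ofReal A) n).1) =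
      ENNReal.ofReal K *
        (BS (ENNReal.ofReal (sv u v)) (ENNReal.ofReal (yv u v)) (n + 1) *
        ENNReal.ofReal (-z1 / (z2 - z1) * z1 ^ n + z2 / (z2 - z1) * z2 ^ n + -1)) := by
    intro n
    rw [(wNon1_closed hK hD hA he n).1, hform]
    ring
  have hy := h.yv_pos.le
  have hs0 := h.sv_pos.le
  have hKD0 : 0 ≤ K * D := mul_nonneg hK hD
  rw [tsum_congr hterm, ENNReal.tsum_mul_left, hB1, ← ENNReal.ofReal_mul hK,
    ← ENNReal.ofReal_mul hK, ← ENNReal.ofReal_mul hK, ← ENNReal.ofReal_add hK hKD0,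
    ← ENNReal.ofReal_mul (mul_nonneg hK hy), ← ENNReal.ofReal_add
      (mul_nonneg (mul_nonneg hK hy) (add_nonneg hK hKD0))
      (mul_nonneg hK (mul_nonneg (mul_nonneg hs0 hy) hB2))]

end PGa

end

section
/-! # Module Tail: sets of cut 4 which contain the first part of a series or parallel composition -/

set_option linter.unusedSectionVars false

namespace PGr
open Equiv Finset

/-- A variant of `pref_ser_or_par`: a prefix with `s⁻¹ (inr true) ∉ A` shows that the map is parallel (this is what the proof of `pref_ser_or_par` gives). -/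
theorem par_of_pref {M : BMap} (hM : M.IsGood) {A : Finset M.T} (h : Pref M A)
    (hs : M.s⁻¹ (Sum.inr true) ∉ A) : IsPar M := by
  by_cases hs' : M.s⁻¹ (Sum.inr false) ∈ A
  · have hroot : Cl M.aa M.root := by
      rintro (d | b)
      · simp [BMap.root, BMap.aa]
      · cases b <;> simp [BMap.root, BMap.aa]
    refine ⟨A, ⟨h.cl, h.root, (h.cl _).2 h.fst, h.rest, ?_, ?_⟩, ?_⟩
    · exact (cut_dual h.cl).trans h.cut4
    · exact (cut_dual (h.cl.union hroot)).trans h.cut4'
    · have e : (M.aa * M.s)⁻¹ (Sum.inr true) = M.s⁻¹ (Sum.inr false) := by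
        rw [Perm.inv_eq_iff_eq, Perm.mul_apply, SerExcl.apply_inv]
        rfl
      show (M.aa * M.s)⁻¹ (Sum.inr true) ∈ A
      rw [e]
      exact hs'
  exfalso
  have hsf := PrefType_next hM h hs hs'
  have hfA : (Sum.inr false : M.T) ∉ A := fun h1 => h.root ((h.cl (Sum.inr true)).1 h1)
  set Vt := univ.filter fun x => M.s.SameCycle (Sum.inr true) x with hVt
  set Vf := univ.filter fun x => M.s.SameCycle (Sum.inr false) x with hVf
  have hloop : ¬ M.s.SameCycle (Sum.inr true) (Sum.inr false) := hM.noLoop (Sum.inr true)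
  have hdis : Disjoint (Vt ∩ bd M.s A) (Vf ∩ bd M.s A) := by
    rw [disjoint_left]
    intro x h1 h2
    rw [mem_inter, hVt, mem_filter] at h1
    rw [mem_inter, hVf, mem_filter] at h2
    exact hloop (h1.1.2.trans h2.1.2.symm)
  have htb : (Sum.inr true : M.T) ∈ bd M.s A := by
    rw [mem_bd]
    have h1 := h.root
    have h2 := h.fst
    tauto
  have hfb : (Sum.inr false : M.T) ∈ bd M.s A := by
    rw [mem_bd]
    tauto
  have c1 := (PrefType_two (PrefType_even M.s A (Sum.inr true)) (x := Sum.inr true)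
    (by rw [mem_inter, mem_filter]; exact ⟨⟨mem_univ _, Perm.SameCycle.refl _ _⟩, htb⟩)).1
  have c2 := (PrefType_two (PrefType_even M.s A (Sum.inr false)) (x := Sum.inr false)
    (by rw [mem_inter, mem_filter]; exact ⟨⟨mem_univ _, Perm.SameCycle.refl _ _⟩, hfb⟩)).1
  have hall : (Vt ∩ bd M.s A) ∪ (Vf ∩ bd M.s A) = bd M.s A := by
    apply eq_of_subset_of_card_le
    · exact union_subset inter_subset_right inter_subset_right
    · rw [card_union_of_disjoint hdis]
      have h4 : (bd M.s A).card = 4 := h.cut4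
      rw [h4]
      exact add_le_add c1 c2
  obtain ⟨z, hz, hzne⟩ := (PrefType_two (PrefType_even (M.aa * M.s) A (Sum.inr true))
    (x := Sum.inr true) (by
      rw [mem_inter, mem_filter, PrefType_bd_dual h.cl]
      exact ⟨⟨mem_univ _, Perm.SameCycle.refl _ _⟩, htb⟩)).2
  rw [mem_inter, mem_filter, PrefType_bd_dual h.cl] at hz
  obtain ⟨⟨-, hzf⟩, hzb⟩ := hz
  have hz' := hzb
  rw [← hall, mem_union, mem_inter, mem_inter] at hz'
  rcases hz' with ⟨h1, -⟩ | ⟨h1, -⟩
  · rw [hVt, mem_filter] at h1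
    exact hM.noPinch (Ne.symm hzne) h1.2 hzf
  · rw [hVf, mem_filter] at h1
    have h2 : z = M.s⁻¹ (Sum.inr false) := by
      by_contra hne
      refine hM.noPinch hne ?_ ?_
      · exact h1.2.symm.trans ⟨-1, by simp⟩
      · refine hzf.symm.trans ?_
        refine Perm.SameCycle.symm ⟨1, ?_⟩
        rw [zpow_one, Perm.mul_apply, SerExcl.apply_inv]
        rfl
    rw [h2, mem_bd, SerExcl.apply_inv] at hzb
    exact hzb ⟨fun h3 => absurd h3 hs', fun h3 => absurd h3 hfA⟩


section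
variable {C : Core} {N : C.I → GB}

theorem Tail_root (hC : C.toB.IsGood) : cut (comp C N).s (comp C N).root = 4 := by
  have h := Good.cut_pair (comp_good C N hC) (Sum.inr true)
  exact h

theorem Tail_mem {i : C.I} {B : Finset (N i).1.D} {d : (N i).1.D} :
    CompInj.dt N i d ∈ upS N i B ↔ d ∈ B := by
  unfold upS
  rw [Finset.mem_map]
  constructor
  · rintro ⟨d', h1, h2⟩
    have h3 : d' = d := CompInj.dt_inj N h2
    rw [← h3]
    exact h1
  · intro h
    exact ⟨d, h, rfl⟩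

theorem Tail_mem_ne {i j : C.I} (hij : i ≠ j) {B : Finset (N i).1.D} {d : (N j).1.D} :
    CompInj.dt N j d ∉ upS N i B := by
  unfold upS
  rw [Finset.mem_map]
  rintro ⟨d', h1, h2⟩
  have h3 := congrArg (partOf C N) h2
  have h4 : some i = some j := h3
  exact hij (Option.some.inj h4)

theorem Tail_mem_inr {i : C.I} {B : Finset (N i).1.D} {b : Bool} :
    (Sum.inr b : (comp C N).T) ∉ upS N i B := by
  unfold upS
  rw [Finset.mem_map]
  rintro ⟨d', h1, h2⟩
  cases h2

theorem Tail_mem_dn {M : BMap} {B : Finset M.D} {d : M.D} : (Sum.inl d : M.T) ∈ dn B ↔ d ∈ B := by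
  simp [dn]

theorem Tail_inr_dn {M : BMap} {B : Finset M.D} {b : Bool} : (Sum.inr b : M.T) ∉ dn B := by
  simp [dn]

theorem Tail_dn (i : C.I) (B : Finset (N i).1.D) : (dn B)ᶜ = dn Bᶜ ∪ (N i).1.root := by
  ext t
  rcases t with d | b
  · simp [dn, BMap.root]
  · cases b <;> simp [dn, BMap.root]

theorem Tail_cut (hC : C.toB.IsGood) (i : C.I) (B : Finset (N i).1.D) :
    cut (N i).1.s (dn B ∪ (N i).1.root) = cut (comp C N).s (upS N i Bᶜ) := by
  rw [cut_upS hC, ← cut_compl _ (dn Bᶜ), Tail_dn, compl_compl]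

theorem Tail_part (hC : C.toB.IsGood) (i : C.I) : cut (comp C N).s (upS N i univ) = 4 := by
  rw [cut_upS hC, ← cut_compl, Tail_dn, Finset.compl_univ]
  have h1 : (dn ∅ : Finset (N i).1.T) = ∅ := rfl
  rw [h1, Finset.empty_union]
  exact Good.cut_pair (N i).2 (Sum.inr true)

theorem Tail_main (hC : C.toB.IsGood) {i j : C.I} (hij : i ≠ j) (hall : ∀ k, k = i ∨ k = j)
    {E : Finset (comp C N).T} (hE : Cl (comp C N).aa E) (h4 : cut (comp C N).s E = 4)
    (hr : Sum.inr true ∉ E) (hP : upS N i univ ⊆ E) (hu : E ∪ (comp C N).root ≠ univ)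
    (hne : E ≠ upS N i univ) :
    ∃ B : Finset (N j).1.D, Cl (N j).1.aa (dn B) ∧ dn B ∪ (N j).1.root ≠ univ ∧
      cut (N j).1.s (dn B) = 4 ∧ cut (N j).1.s (dn B ∪ (N j).1.root) = 4 ∧
      (∀ d d', (comp C N).s (CompInj.dt N i d) = CompInj.dt N j d' → d' ∈ B) ∧
      (∀ d d', (comp C N).s (CompInj.dt N j d) = CompInj.dt N i d' → d ∈ B) ∧
      (∀ d b, (comp C N).s (CompInj.dt N j d) = Sum.inr b → d ∉ B) := by
  classical
  have hM : (comp C N).IsGood := comp_good C N hC
  have hrf : (Sum.inr false : (comp C N).T) ∉ E := fun h => hr ((hE (Sum.inr false)).2 h)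
  have hrb : ∀ b, (Sum.inr b : (comp C N).T) ∉ E := by
    intro b; cases b
    · exact hrf
    · exact hr
  set B : Finset (N j).1.D := univ.filter fun d => CompInj.dt N j d ∈ E with hB
  have hBm : ∀ d, d ∈ B ↔ CompInj.dt N j d ∈ E := by
    intro d
    rw [hB, mem_filter]
    exact ⟨fun h => h.2, fun h => ⟨mem_univ _, h⟩⟩
  have hPm : ∀ d, CompInj.dt N i d ∈ E := fun d => hP (Tail_mem.2 (mem_univ _))
  have hEZ : E ∩ upS N j univ = upS N j B := by
    ext t
    rw [mem_inter]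
    rcases CompInj.cases_dt N t with ⟨k, d, rfl⟩ | ⟨b, rfl⟩
    · rcases hall k with rfl | rfl
      · constructor
        · rintro ⟨-, h⟩
          exact absurd h (Tail_mem_ne (Ne.symm hij))
        · intro h
          exact absurd h (Tail_mem_ne (Ne.symm hij))
      · rw [Tail_mem, Tail_mem, hBm]
        exact ⟨fun h => h.1, fun h => ⟨h, mem_univ _⟩⟩
    · exact ⟨fun h => absurd h.2 Tail_mem_inr, fun h => absurd h Tail_mem_inr⟩
  have hZE : upS N j univ \ E = upS N j Bᶜ := by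
    ext t
    rw [mem_sdiff]
    rcases CompInj.cases_dt N t with ⟨k, d, rfl⟩ | ⟨b, rfl⟩
    · rcases hall k with rfl | rfl
      · constructor
        · rintro ⟨h, -⟩
          exact absurd h (Tail_mem_ne (Ne.symm hij))
        · intro h
          exact absurd h (Tail_mem_ne (Ne.symm hij))
      · rw [Tail_mem, Tail_mem, mem_compl, hBm]
        exact ⟨fun h => h.2, fun h => ⟨mem_univ _, h⟩⟩
    · exact ⟨fun h => absurd h.1 Tail_mem_inr, fun h => absurd h Tail_mem_inr⟩
  have hEP : E \ upS N j univ = upS N i univ := by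
    ext t
    rw [mem_sdiff]
    rcases CompInj.cases_dt N t with ⟨k, d, rfl⟩ | ⟨b, rfl⟩
    · rcases hall k with rfl | rfl
      · exact ⟨fun _ => Tail_mem.2 (mem_univ _), fun _ => ⟨hPm d, Tail_mem_ne (Ne.symm hij)⟩⟩
      · exact ⟨fun h => absurd (Tail_mem.2 (mem_univ _)) h.2, fun h => absurd h (Tail_mem_ne hij)⟩
    · exact ⟨fun h => absurd h.1 (hrb b), fun h => absurd h Tail_mem_inr⟩
  have hroot : ∀ b, (Sum.inr b : (comp C N).T) ∈ (comp C N).root := by
    intro b; cases b <;> simp [BMap.root]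
  have hrootd : ∀ k d, CompInj.dt N k d ∉ (comp C N).root := by
    intro k d h
    rw [BMap.root, mem_insert, mem_singleton] at h
    rcases h with h | h <;> cases h
  have hEU : (E ∪ upS N j univ)ᶜ = (comp C N).root := by
    ext t
    rw [mem_compl, mem_union]
    rcases CompInj.cases_dt N t with ⟨k, d, rfl⟩ | ⟨b, rfl⟩
    · rcases hall k with rfl | rfl
      · exact ⟨fun h => absurd (Or.inl (hPm d)) h, fun h => absurd h (hrootd _ _)⟩
      · exact ⟨fun h => absurd (Or.inr (Tail_mem.2 (mem_univ _))) h,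
          fun h => absurd h (hrootd _ _)⟩
    · exact ⟨fun _ => hroot b, fun _ h => h.elim (hrb b) Tail_mem_inr⟩
  have cP : cut (comp C N).s (upS N i univ) = 4 := Tail_part hC i
  have cZ : cut (comp C N).s (upS N j univ) = 4 := Tail_part hC j
  have cR : cut (comp C N).s (E ∪ upS N j univ) = 4 := by
    rw [← cut_compl, hEU]; exact Tail_root hC
  have hBne : B.Nonempty := by
    by_contra h0
    rw [not_nonempty_iff_eq_empty] at h0
    apply hne
    rw [← hEP]
    ext t
    rw [mem_sdiff]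
    refine ⟨fun h => ⟨h, fun h' => ?_⟩, fun h => h.1⟩
    have h1 : t ∈ upS N j B := by rw [← hEZ]; exact mem_inter.2 ⟨h, h'⟩
    rw [h0] at h1
    simp [upS] at h1
  have hBu : Bᶜ.Nonempty := by
    by_contra h0
    rw [not_nonempty_iff_eq_empty, compl_eq_empty_iff] at h0
    apply hu
    rw [eq_univ_iff_forall]
    intro t
    rw [mem_union]
    rcases CompInj.cases_dt N t with ⟨k, d, rfl⟩ | ⟨b, rfl⟩
    · left
      rcases hall k with rfl | rfl
      · exact hPm d
      · rw [← hBm, h0]; exact mem_univ _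
    · exact Or.inr (hroot b)
  have hBc : Cl (N j).1.aa (dn B) := by
    intro t
    rcases t with d | b
    · have h1 := hE (CompInj.dt N j d)
      rw [CompInj.aa_dt, ← hBm, ← hBm] at h1
      simpa [dn, BMap.aa] using h1
    · simp [dn, BMap.aa]
  have hdn : ∀ (B : Finset (N j).1.D) (d : (N j).1.D), (Sum.inl d : (N j).1.T) ∈ dn B ↔ d ∈ B := by
    intro B d; simp [dn]
  have hu1 : dn B ∪ (N j).1.root ≠ univ := by
    obtain ⟨d, hd⟩ := hBu
    intro h
    have h1 : (Sum.inl d : (N j).1.T) ∈ dn B ∪ (N j).1.root := by rw [h]; exact mem_univ _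
    rw [mem_union, hdn] at h1
    rcases h1 with h1 | h1
    · exact (mem_compl.1 hd) h1
    · simp [BMap.root] at h1
  have hb1 : 4 ≤ cut (comp C N).s (E ∩ upS N j univ) := by
    rw [hEZ, cut_upS hC]
    obtain ⟨d, hd⟩ := hBne
    refine (N j).2.ns _ hBc ⟨Sum.inl d, (hdn _ _).2 hd⟩ fun h => hu1 ?_
    rw [h]
    ext t
    simp
  have hb2 : 4 ≤ cut (comp C N).s (upS N j univ \ E) := by
    rw [hZE, ← Tail_cut hC]
    refine (N j).2.ns _ (hBc.union ?_) ?_ hu1
    · intro t
      rcases t with d | b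
      · simp [BMap.root, BMap.aa]
      · cases b <;> simp [BMap.root, BMap.aa]
    · exact ⟨Sum.inr true, mem_union_right _ (by simp [BMap.root])⟩
  have k1 := cut_sdiff (comp C N).s E (upS N j univ)
  have k2 := cut_inter_union (comp C N).s E (upS N j univ)
  rw [hEP] at k1
  refine ⟨B, hBc, hu1, ?_, ?_, ?_, ?_, ?_⟩
  · rw [← cut_upS hC, ← hEZ]
    omega
  · rw [Tail_cut hC, ← hZE]
    omega
  · intro d d' h
    by_contra hd'
    have h1 := cut_sdiff_lt (comp C N).s E (upS N j univ)ᶜ ⟨CompInj.dt N i d, Or.inl ⟨?_, ?_⟩⟩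
    · rw [cut_compl] at h1
      have e1 : E \ (upS N j univ)ᶜ = E ∩ upS N j univ := by
        rw [sdiff_compl]; rfl
      have e2 : (upS N j univ)ᶜ \ E = (E ∪ upS N j univ)ᶜ := by
        ext t; simp only [mem_sdiff, mem_compl, mem_union]; tauto
      rw [e1, e2, cut_compl] at h1
      omega
    · rw [mem_inter, mem_compl]
      exact ⟨hPm d, Tail_mem_ne (Ne.symm hij)⟩
    · rw [h, mem_union, mem_compl]
      rintro (h2 | h2)
      · exact hd' ((hBm _).2 h2)
      · exact h2 (Tail_mem.2 (mem_univ _))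
  · intro d d' h
    by_contra hd'
    have h1 := cut_sdiff_lt (comp C N).s E (upS N j univ)ᶜ ⟨CompInj.dt N j d, Or.inr ⟨?_, ?_⟩⟩
    · rw [cut_compl] at h1
      have e1 : E \ (upS N j univ)ᶜ = E ∩ upS N j univ := by
        rw [sdiff_compl]; rfl
      have e2 : (upS N j univ)ᶜ \ E = (E ∪ upS N j univ)ᶜ := by
        ext t; simp only [mem_sdiff, mem_compl, mem_union]; tauto
      rw [e1, e2, cut_compl] at h1
      omega
    · rw [mem_union, mem_compl]
      rintro (h2 | h2)
      · exact hd' ((hBm _).2 h2)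
      · exact h2 (Tail_mem.2 (mem_univ _))
    · rw [h, mem_inter, mem_compl]
      exact ⟨hPm d', Tail_mem_ne (Ne.symm hij)⟩
  · intro d b h hd
    have h1 := cut_sdiff_lt (comp C N).s E (upS N j univ) ⟨CompInj.dt N j d, Or.inl ⟨?_, ?_⟩⟩
    · rw [hEP] at h1
      omega
    · rw [mem_inter]
      exact ⟨(hBm _).1 hd, Tail_mem.2 (mem_univ _)⟩
    · rw [h, mem_union]
      exact fun h2 => h2.elim (hrb b) Tail_mem_inr

end

/-- Proof.  Let `P` be the first part (cut 4), `Z` the second, `B = E ∩ Z`; suppose `B` is not empty; it is not `Z`.  For disjoint sets `A`, `A'` let `κ A A'` be the number of corners between them, so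
`cut (A ∪ A') = cut A + cut A' - 2 κ A A'`.  `κ P root = 2`, `κ P Z = 2`, `κ root Z = 2` (the corners of the triangle).  `cut E = 4` gives `2 κ P B = cut B`, so `κ P B ≥ 2`, hence `κ P B = 2`, `cut B = 4` and
both corners between `P` and `Z` are between `P` and `B`.  The set `Z \ B` has cut `κ B (Z \ B) + κ root (Z \ B) = (4 - 2 - κ root B) + (2 - κ root B)`, and it is at least 4, so `κ root B = 0` and
this cut is 4.  So in the net `z` the set `dn B` has cut 4, with the root edge also 4 (the complement is `Z \ B`), and the darts after and before `inr true` are in it: the net `z` is series. -/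
theorem tail_ser {x z : GB} (hz : ¬ IsSer z.1) {E : Finset (comp tri (serNets x z)).T}
    (hE : Cl (comp tri (serNets x z)).aa E) (h4 : cut (comp tri (serNets x z)).s E = 4)
    (hr : Sum.inr true ∉ E) (hP : upS (serNets x z) true univ ⊆ E)
    (hu : E ∪ (comp tri (serNets x z)).root ≠ univ) : E = upS (serNets x z) true univ := by
  by_contra hne
  obtain ⟨B, h1, h2, h3, h5, h6, h7, h8⟩ := Tail_main (C := tri) (N := serNets x z) tri_good
    (i := true) (j := false) (fun h => Bool.noConfusion h) (fun k => by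
      cases (k : Bool)
      · exact Or.inr rfl
      · exact Or.inl rfl) hE h4 hr hP hu hne
  apply hz
  have hf : fstD z true ∈ B := by
    refine h6 (CompInj.lstD x false) (fstD z true) ?_
    have := CompInj.s_L (C := tri) (serNets x z) (Sum.inl (true, false))
    exact this
  have hl : CompInj.lstD z true ∈ B := by
    refine h7 (CompInj.lstD z true) (fstD x false) ?_
    have := CompInj.s_L (C := tri) (serNets x z) (Sum.inl (false, true))
    exact this
  refine ⟨dn B, ⟨h1, ?_, ?_, h2, h3, h5⟩, ?_⟩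
  · exact Tail_inr_dn (M := z.1) (B := B)
  · show z.1.s (Sum.inr true) ∈ dn (M := z.1) B
    rw [fstD_spec]
    exact (Tail_mem_dn (M := z.1) (B := B)).2 hf
  · have e : z.1.s⁻¹ (Sum.inr true) = Sum.inl (CompInj.lstD z true) := by
      rw [Perm.inv_eq_iff_eq, CompInj.lstD_spec]
    rw [e]
    exact (Tail_mem_dn (M := z.1) (B := B)).2 hl

/-- The same for the parallel composition: `κ P root = κ P Z = κ root Z = 2`, one corner of each kind at each pole.  In the net `z` the dart after `inr true` and the dart before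
`inr false` are in `dn B`; the dart before `inr true` is not, as `κ root B = 0`; `par_of_pref`. -/
theorem tail_par {x z : GB} (hz : ¬ IsPar z.1) {E : Finset (comp (ddCore tri) (serNets x z)).T}
    (hE : Cl (comp (ddCore tri) (serNets x z)).aa E)
    (h4 : cut (comp (ddCore tri) (serNets x z)).s E = 4) (hr : Sum.inr true ∉ E)
    (hP : upS (C := ddCore tri) (serNets x z) true univ ⊆ E)
    (hu : E ∪ (comp (ddCore tri) (serNets x z)).root ≠ univ) :
    E = upS (C := ddCore tri) (serNets x z) true univ := by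
  by_contra hne
  obtain ⟨B, h1, h2, h3, h5, h6, h7, h8⟩ := Tail_main (C := ddCore tri) (N := serNets x z)
    (dd_good tri_good)
    (i := true) (j := false) (fun h => Bool.noConfusion h) (fun k => by
      cases (k : Bool)
      · exact Or.inr rfl
      · exact Or.inl rfl) hE h4 hr hP hu hne
  apply hz
  have hf : fstD z true ∈ B := by
    refine h6 (CompInj.lstD x true) (fstD z true) ?_
    have := CompInj.s_L (C := ddCore tri) (serNets x z) (Sum.inl (true, true))
    exact this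
  have hl : CompInj.lstD z true ∉ B := by
    refine h8 (CompInj.lstD z true) true ?_
    have := CompInj.s_L (C := ddCore tri) (serNets x z) (Sum.inl (false, true))
    exact this
  refine par_of_pref z.2 (A := dn B) ⟨h1, ?_, ?_, h2, h3, h5⟩ ?_
  · exact Tail_inr_dn (M := z.1) (B := B)
  · show z.1.s (Sum.inr true) ∈ dn (M := z.1) B
    rw [fstD_spec]
    exact (Tail_mem_dn (M := z.1) (B := B)).2 hf
  · have e : z.1.s⁻¹ (Sum.inr true) = Sum.inl (CompInj.lstD z true) := by
      rw [Perm.inv_eq_iff_eq, CompInj.lstD_spec]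
    rw [e]
    exact fun h => hl ((Tail_mem_dn (M := z.1) (B := B)).1 h)

end PGr

end
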