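import Pool.Agent.PGc.CDefs
import Pool.Agent.PGc.Four
import Pool.Agent.PGc.Three
import Pool.Agent.PGc.Whitney
import Pool.Agent.PGm.M04
import Pool.Agent.PGr.CompFour
import Pool.Agent.PGr.CompV
import Pool.Agent.PGr.DecGood
import Pool.Agent.PGr.Digon
import Pool.Agent.PGr.InsPl
import Pool.Agent.PGr.NetRig
import Pool.Agent.PGr.NetSer
import Pool.Agent.PGr.SerCut
import Pool.Agent.PGr.SubPl

section
/-! # Module AddE: adding the direct edge -/

set_option linter.unusedSectionVars false

namespace PGr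
open Equiv Finset
open scoped ENNReal Classical
universe u
variable {Λ : Type u}

/-- add an edge joining the poles -/
def addE (N : LNet Λ) : LNet Λ where
  D := N.D ⊕ Bool
  V := N.V
  a := Perm.sumCongr N.a Equiv.boolNot
  inc := Sum.elim (Sum.elim (fun d => N.inc (Sum.inl d)) N.pole) N.pole
  lab := N.lab

namespace AddE

theorem inc_inl (N : LNet Λ) (t : N.T) : (addE N).inc (Sum.inl t) = N.inc t := by
  rcases t with d | b <;> rfl

theorem pole_inj {N : LNet Λ} (h : N.IsGood) {b b' : Bool} (hb : N.pole b = N.pole b') :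
    b = b' := by
  by_contra hne
  have h1 : b' = !b := by cases b <;> cases b' <;> simp_all
  subst h1
  exact h.loop (Sum.inr b) hb.symm

/-- the old darts as darts of the new network -/
def j (N : LNet Λ) : N.T → (addE N).T := Sum.map Sum.inl id

theorem j_inc (N : LNet Λ) (t : N.T) : (addE N).inc (j N t) = N.inc t := by
  rcases t with d | b <;> rfl

theorem j_aa (N : LNet Λ) (t : N.T) : (addE N).aa (j N t) = j N (N.aa t) := by
  rcases t with d | b <;> rfl

theorem same {T : Type} [Fintype T] [DecidableEq T] (s : Perm T) {c0 c1 : T} (hc : c0 ≠ c1)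
    (x y : T ⊕ Bool) : (insS s c0 c1).SameCycle x y ↔
      s.SameCycle (InsBasic.pr c0 c1 x) (InsBasic.pr c0 c1 y) := by
  have hx : ∀ x : T ⊕ Bool, (insS s c0 c1).SameCycle x (Sum.inl (InsBasic.pr c0 c1 x)) := by
    rintro (t | (_ | _))
    · exact Perm.SameCycle.refl _ _
    · exact (InsBasic.false_c1 s hc).symm
    · exact (InsBasic.true_c0 s hc).symm
  constructor
  · exact fun h => InsBasic.proj s hc h
  · intro h
    exact (hx x).trans (((sameCycle_insS s hc _ _).2 h).trans (hx y).symm)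

theorem direct (N : LNet Λ) : Direct (addE N) := ⟨Sum.inr true, rfl, rfl⟩

theorem no_pole {N : LNet Λ} (h : N.IsGood) (hd : ¬ Direct N) (b : Bool) (d : N.D)
    (h1 : N.inc (Sum.inl d) = N.pole b) (h2 : N.inc (Sum.inl (N.a d)) = N.pole (!b)) : False := by
  apply hd
  cases b
  · exact ⟨N.a d, h2, by rw [h.inv]; exact h1⟩
  · exact ⟨d, h1, h2⟩

theorem sh {N : LNet Λ} {A : Finset (addE N).T} {x : N.V}
    (hx : Sh N.inc (univ.filter fun t => j N t ∈ A) x) : Sh (addE N).inc A x := by
  obtain ⟨⟨t, ht, h1⟩, t', ht', h2⟩ := hx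
  refine ⟨⟨j N t, (mem_filter.1 ht).2, ?_⟩, j N t', ?_, ?_⟩
  · rw [j_inc]; exact h1
  · intro h
    exact ht' (mem_filter.2 ⟨mem_univ _, h⟩)
  · rw [j_inc]; exact h2

theorem two {N : LNet Λ} (h : N.IsGood) (A : Finset (addE N).T) (hA : Cl (addE N).aa A)
    (hne : A.Nonempty) (hu : A ≠ univ) :
    ∃ x y, x ≠ y ∧ Sh (addE N).inc A x ∧ Sh (addE N).inc A y := by
  by_cases hr : (Sum.inl (Sum.inr true) : (addE N).T) ∈ A ↔ (Sum.inr true : (addE N).T) ∈ A
  · have hr' : ∀ b, (Sum.inl (Sum.inr b) : (addE N).T) ∈ A ↔ (Sum.inr b : (addE N).T) ∈ A := by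
      intro b
      cases b
      · have h1 : (Sum.inl (Sum.inr false) : (addE N).T) ∈ A ↔
          (Sum.inl (Sum.inr true) : (addE N).T) ∈ A := hA (Sum.inl (Sum.inr true))
        have h2 : (Sum.inr false : (addE N).T) ∈ A ↔
          (Sum.inr true : (addE N).T) ∈ A := hA (Sum.inr true)
        rw [h1, h2]
        exact hr
      · exact hr
    have hcl : Cl N.aa (univ.filter fun t => j N t ∈ A) := by
      intro t
      simp only [mem_filter, mem_univ, true_and]
      rw [← j_aa]
      exact hA _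
    have hne' : (univ.filter fun t => j N t ∈ A).Nonempty := by
      obtain ⟨(t | b), ht⟩ := hne
      · rcases t with d | b
        · exact ⟨Sum.inl d, mem_filter.2 ⟨mem_univ _, ht⟩⟩
        · exact ⟨Sum.inr b, mem_filter.2 ⟨mem_univ _, (hr' b).1 ht⟩⟩
      · exact ⟨Sum.inr b, mem_filter.2 ⟨mem_univ _, ht⟩⟩
    have hu' : (univ.filter fun t => j N t ∈ A) ≠ univ := by
      intro h1
      apply hu
      rw [eq_univ_iff_forall] at h1 ⊢
      have h2 : ∀ t, j N t ∈ A := fun t => (mem_filter.1 (h1 t)).2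
      rintro ((d | b) | b)
      · exact h2 (Sum.inl d)
      · exact (hr' b).2 (h2 (Sum.inr b))
      · exact h2 (Sum.inr b)
    obtain ⟨x, y, hxy, hx, hy⟩ := h.two _ hcl hne' hu'
    exact ⟨x, y, hxy, sh hx, sh hy⟩
  · have hr' : ∀ b, ¬ ((Sum.inl (Sum.inr b) : (addE N).T) ∈ A ↔ (Sum.inr b : (addE N).T) ∈ A) := by
      intro b
      cases b
      · have h1 : (Sum.inl (Sum.inr false) : (addE N).T) ∈ A ↔
          (Sum.inl (Sum.inr true) : (addE N).T) ∈ A := hA (Sum.inl (Sum.inr true))
        have h2 : (Sum.inr false : (addE N).T) ∈ A ↔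
          (Sum.inr true : (addE N).T) ∈ A := hA (Sum.inr true)
        rw [h1, h2]
        exact hr
      · exact hr
    have hs : ∀ b, Sh (addE N).inc A (N.pole b) := by
      intro b
      have h1 := hr' b
      by_cases h2 : (Sum.inl (Sum.inr b) : (addE N).T) ∈ A
      · have h3 : (Sum.inr b : (addE N).T) ∉ A := fun h3 => h1 ⟨fun _ => h3, fun _ => h2⟩
        exact ⟨⟨_, h2, rfl⟩, _, h3, rfl⟩
      · have h3 : (Sum.inr b : (addE N).T) ∈ A := by
          by_contra h3
          exact h1 ⟨fun h => absurd h h2, fun h => absurd h h3⟩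
        exact ⟨⟨_, h3, rfl⟩, _, h2, rfl⟩
    refine ⟨N.pole true, N.pole false, ?_, hs true, hs false⟩
    intro h1
    exact absurd (pole_inj h h1) (by decide)

theorem planar {N : LNet Λ} (h : N.IsGood) :
    ∃ s : Perm (addE N).T, (∀ t t', s.SameCycle t t' ↔ (addE N).inc t = (addE N).inc t') ∧
      Pl (addE N).aa s := by
  obtain ⟨s, hs, hp⟩ := h.planar
  have hs1 : s (s.symm (Sum.inr false)) = Sum.inr false := s.apply_symm_apply _
  have hsc : s.SameCycle (s.symm (Sum.inr false)) (Sum.inr false) := ⟨1, by rw [zpow_one, hs1]⟩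
  have hc : (Sum.inr true : N.T) ≠ s.symm (Sum.inr false) := by
    intro h1
    rw [← h1, hs] at hsc
    exact absurd (pole_inj h hsc) (by decide)
  have hinv : ∀ t, N.aa (N.aa t) = t := by
    rintro (d | b)
    · exact congrArg Sum.inl (h.inv d)
    · show (Sum.inr (!!b) : N.T) = _
      rw [Bool.not_not]
  have hface : (N.aa * s).SameCycle (Sum.inr true : N.T) (s.symm (Sum.inr false)) := by
    refine Perm.SameCycle.symm ⟨1, ?_⟩
    rw [zpow_one, Perm.mul_apply, hs1]
    rfl
  refine ⟨insS s (Sum.inr true) (s.symm (Sum.inr false)), ?_, Pl.ins hinv hp hc hface⟩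
  have hinc : ∀ x : (addE N).T, (addE N).inc x =
      N.inc (InsBasic.pr (Sum.inr true) (s.symm (Sum.inr false)) x) := by
    rintro (t | (_ | _))
    · exact inc_inl N t
    · show N.pole false = N.inc (s.symm (Sum.inr false))
      exact ((hs _ _).1 hsc).symm
    · rfl
  intro t t'
  exact ((same s hc t t').trans (hs _ _)).trans
    ⟨fun h => (hinc t).trans (h.trans (hinc t').symm),
      fun h => (hinc t).symm.trans (h.trans (hinc t'))⟩

end AddE

/-- planarity: insert the edge in the map next to the root edge (`Good.ins` or directly) -/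
theorem addE_good {N : LNet Λ} (h : N.IsGood) (hd : ¬ Direct N) :
    (addE N).IsGood ∧ Direct (addE N) := by
  refine ⟨⟨?_, ?_, ⟨Sum.inr true⟩, ?_, ?_, ?_, fun A hA hne hu => AddE.two h A hA hne hu,
    AddE.planar h⟩, AddE.direct N⟩
  · rintro (d | b)
    · exact congrArg Sum.inl (h.inv d)
    · show (Sum.inr (!!b) : N.D ⊕ Bool) = _
      rw [Bool.not_not]
  · rintro (d | b) h1
    · exact h.fpf d (Sum.inl_injective h1)
    · have h2 : (!b) = b := Sum.inr_injective h1
      cases b <;> exact absurd h2 (by decide)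
  · intro v
    obtain ⟨t, ht⟩ := h.surj v
    exact ⟨AddE.j N t, (AddE.j_inc N t).trans ht⟩
  · rintro (t | b)
    · have h1 := h.loop t
      intro h2
      exact h1 ((AddE.inc_inl N (N.aa t)).symm.trans (h2.trans (AddE.inc_inl N t)))
    · exact h.loop (Sum.inr b)
  · rintro (d | b) (d' | b') h1 h2
    · exact congrArg Sum.inl (h.simp d d' h1 h2)
    · exact (AddE.no_pole h hd b' d h1 h2).elim
    · exact (AddE.no_pole h hd b d' h1.symm h2.symm).elim
    · exact congrArg Sum.inr (AddE.pole_inj h h1)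

/-- the values of the function `inc` of `addE N` at the nonroot darts -/
def AddE.ii (N : LNet Λ) : N.D ⊕ Bool → N.V := Sum.elim (fun d => N.inc (Sum.inl d)) N.pole

theorem AddE.iso_aux {N N' : LNet Λ} (h' : N'.IsGood)
    (hd' : ¬ Direct N') (e : (N.D ⊕ Bool) ≃ (N'.D ⊕ Bool)) (f : N.V ≃ N'.V)
    (h1 : ∀ d, e (Perm.sumCongr N.a Equiv.boolNot d) = Perm.sumCongr N'.a Equiv.boolNot (e d))
    (h2 : ∀ d, f (AddE.ii N d) = AddE.ii N' (e d))
    (h3 : ∀ b, f (N.pole b) = N'.pole b)
    (h4 : ∀ x, (∀ b, x ≠ N.pole b) → N'.lab (f x) = N.lab x) : NIso N N' := by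
  have he : ∀ b, e (Sum.inr b) = Sum.inr b := by
    intro b
    have e1 : AddE.ii N' (e (Sum.inr b)) = N'.pole b := by
      rw [← h2]
      exact h3 b
    have e2 : AddE.ii N' (Perm.sumCongr N'.a Equiv.boolNot (e (Sum.inr b))) = N'.pole (!b) := by
      rw [← h1, ← h2]
      exact h3 (!b)
    rcases h5 : e (Sum.inr b) with d' | b'
    · rw [h5] at e1 e2
      exact (AddE.no_pole h' hd' b d' e1 e2).elim
    · rw [h5] at e1
      exact congrArg Sum.inr (AddE.pole_inj h' e1)
  have hl : ∀ d : N.D, ∃ d' : N'.D, e (Sum.inl d) = Sum.inl d' := by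
    intro d
    rcases h5 : e (Sum.inl d) with d' | b'
    · exact ⟨d', rfl⟩
    · rw [← he b'] at h5
      exact absurd (e.injective h5) (by simp)
  choose g hg using hl
  have hgi : Function.Injective g := by
    intro d d' hdd
    have h5 : e (Sum.inl d) = e (Sum.inl d') := by rw [hg, hg, hdd]
    exact Sum.inl_injective (e.injective h5)
  have hgs : Function.Surjective g := by
    intro d'
    obtain ⟨x, hx⟩ := e.surjective (Sum.inl d')
    rcases x with d | b
    · refine ⟨d, ?_⟩
      have := hg d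
      rw [hx] at this
      exact (Sum.inl_injective this).symm
    · rw [he] at hx
      exact absurd hx (by simp)
  refine ⟨Equiv.ofBijective g ⟨hgi, hgs⟩, f, ?_, ?_, h3, h4⟩
  · intro d
    have h5 := h1 (Sum.inl d)
    have h6 : Perm.sumCongr N.a Equiv.boolNot (Sum.inl d) = Sum.inl (N.a d) := rfl
    rw [h6, hg, hg] at h5
    exact Sum.inl_injective h5
  · intro d
    have h5 := h2 (Sum.inl d)
    rw [hg] at h5
    exact h5

theorem addE_iso {N N' : LNet Λ} (h : N.IsGood) (h' : N'.IsGood) (hd : ¬ Direct N)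
    (hd' : ¬ Direct N') : NIso (addE N) (addE N') ↔ NIso N N' := by
  constructor
  · rintro ⟨e, f, h1, h2, h3, h4⟩
    exact AddE.iso_aux h' hd' e f h1 h2 h3 h4
  · rintro ⟨e, f, h1, h2, h3, h4⟩
    refine ⟨Equiv.sumCongr e (Equiv.refl _), f, ?_, ?_, h3, h4⟩
    · rintro (d | b)
      · exact congrArg Sum.inl (h1 d)
      · rfl
    · rintro (d | b)
      · exact h2 d
      · exact h3 b

theorem wt_addE (w : Λ → ℝ≥0∞) (N : LNet Λ) : wt w (addE N) = wt w N := rfl

namespace AddE

theorem not_ne (b : Bool) (h : (!b) = b) : False := by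
  cases b <;> exact absurd h (by decide)

theorem tf : (true : Bool) ≠ false := by decide

theorem digon_same (x y : Bool ⊕ Bool) : Perm.SameCycle (Equiv.sumComm Bool Bool) x y ↔
    Sum.elim id id x = Sum.elim (id : Bool → Bool) id y := by
  have h1 : ∀ n : ℕ, ∀ x : Bool ⊕ Bool, Sum.elim id id
      (((Equiv.sumComm Bool Bool : Perm (Bool ⊕ Bool)) ^ n) x) =
      Sum.elim (id : Bool → Bool) id x := by
    intro n
    induction n with
    | zero => intro x; rfl
    | succ n ih =>
      intro x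
      rw [pow_succ, Perm.mul_apply, ih]
      rcases x with b | b <;> rfl
  constructor
  · intro h
    obtain ⟨n, -, hn⟩ := h.exists_pow_eq'
    rw [← hn]
    exact (h1 n x).symm
  · intro h
    rcases x with b | b <;> rcases y with b' | b' <;>
      (have h' : b = b' := h) <;> subst h'
    · exact Perm.SameCycle.refl _ _
    · exact ⟨1, by rw [zpow_one]; rfl⟩
    · exact ⟨1, by rw [zpow_one]; rfl⟩
    · exact Perm.SameCycle.refl _ _

end AddE

theorem edgeNet_good (g : Bool → Λ) : (edgeNet g).IsGood ∧ Direct (edgeNet g) := by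
  refine ⟨⟨?_, ?_, ⟨true⟩, ?_, ?_, ?_, ?_, ?_⟩, ⟨true, rfl, rfl⟩⟩
  · exact Bool.not_not
  · exact fun d h => AddE.not_ne d h
  · intro v
    exact ⟨Sum.inr v, rfl⟩
  · rintro (b | b) h
    · exact AddE.not_ne b h
    · exact AddE.not_ne b h
  · intro d d' h _
    exact h
  · intro A hA hne hu
    have h1 : (Sum.inl false : (edgeNet g).T) ∈ A ↔ (Sum.inl true : (edgeNet g).T) ∈ A :=
      hA (Sum.inl true)
    have h2 : (Sum.inr false : (edgeNet g).T) ∈ A ↔ (Sum.inr true : (edgeNet g).T) ∈ A :=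
      hA (Sum.inr true)
    have h3 : ¬ ((Sum.inl true : (edgeNet g).T) ∈ A ↔ (Sum.inr true : (edgeNet g).T) ∈ A) := by
      intro h
      by_cases h4 : (Sum.inl true : (edgeNet g).T) ∈ A
      · apply hu
        ext x
        simp only [mem_univ, iff_true]
        rcases x with (_ | _) | (_ | _)
        · exact h1.mpr h4
        · exact h4
        · exact h2.mpr (h.mp h4)
        · exact h.mp h4
      · obtain ⟨x, hx⟩ := hne
        rcases x with (_ | _) | (_ | _)
        · exact h4 (h1.mp hx)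
        · exact h4 hx
        · exact h4 (h.mpr (h2.mp hx))
        · exact h4 (h.mpr hx)
    have h4 : ∀ b, ¬ ((Sum.inl b : (edgeNet g).T) ∈ A ↔ (Sum.inr b : (edgeNet g).T) ∈ A) := by
      intro b
      cases b
      · rw [h1, h2]; exact h3
      · exact h3
    have hs : ∀ b : Bool, Sh (edgeNet g).inc A b := by
      intro b
      have h5 := h4 b
      by_cases h6 : (Sum.inl b : (edgeNet g).T) ∈ A
      · have h7 : (Sum.inr b : (edgeNet g).T) ∉ A := fun h7 => h5 ⟨fun _ => h7, fun _ => h6⟩
        exact ⟨⟨_, h6, rfl⟩, _, h7, rfl⟩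
      · have h7 : (Sum.inr b : (edgeNet g).T) ∈ A := by
          by_contra h7
          exact h5 ⟨fun h => absurd h h6, fun h => absurd h h7⟩
        exact ⟨⟨_, h7, rfl⟩, _, h6, rfl⟩
    exact ⟨true, false, AddE.tf, hs true, hs false⟩
  · exact ⟨Equiv.sumComm Bool Bool, fun t t' => AddE.digon_same t t', digon_good.pl⟩

namespace AddE

/-- delete the edge of `d0` -/
def del (N : LNet Λ) (h : N.IsGood) (d0 : N.D) : LNet Λ where
  D := {d : N.D // d ≠ d0 ∧ d ≠ N.a d0}
  V := N.V
  a := N.a.subtypePerm (fun d => by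
    constructor
    · rintro ⟨h1, h2⟩
      refine ⟨fun h3 => h2 (by rw [h3]), fun h3 => h1 (by rw [h3, h.inv])⟩
    · rintro ⟨h1, h2⟩
      refine ⟨fun h3 => h2 (by rw [← h3, h.inv]), fun h3 => h1 (N.a.injective h3)⟩)
  inc := Sum.elim (fun d => N.inc (Sum.inl d.1)) N.pole
  lab := N.lab

/-- the darts of the new network, the deleted edge is mapped to the root edge -/
noncomputable def rr0 (N : LNet Λ) (d0 : N.D) : N.T → {d : N.D // d ≠ d0 ∧ d ≠ N.a d0} ⊕ Bool
  | Sum.inl d => if h1 : d = d0 then Sum.inr true else if h2 : d = N.a d0 then Sum.inr false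
      else Sum.inl ⟨d, h1, h2⟩
  | Sum.inr b => Sum.inr b

theorem rr0_d0 (N : LNet Λ) (d0 : N.D) : rr0 N d0 (Sum.inl d0) = Sum.inr true := by
  simp [rr0]

theorem rr0_a (N : LNet Λ) (h : N.IsGood) (d0 : N.D) :
    rr0 N d0 (Sum.inl (N.a d0)) = Sum.inr false := by
  simp [rr0, h.fpf d0]

theorem rr0_val (N : LNet Λ) (d0 : N.D) (d : {d : N.D // d ≠ d0 ∧ d ≠ N.a d0}) :
    rr0 N d0 (Sum.inl d.1) = Sum.inl d := by
  simp [rr0, d.2.1, d.2.2]

theorem rr0_cases (N : LNet Λ) (h : N.IsGood) (d0 : N.D) (t : N.T) :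
    (∃ b, t = Sum.inl (bif b then d0 else N.a d0) ∧ rr0 N d0 t = Sum.inr b) ∨
      (∃ b, t = Sum.inr b ∧ rr0 N d0 t = Sum.inr b) ∨
      ∃ d : {d : N.D // d ≠ d0 ∧ d ≠ N.a d0}, t = Sum.inl d.1 ∧ rr0 N d0 t = Sum.inl d := by
  rcases t with d | b
  · by_cases h1 : d = d0
    · subst h1
      exact Or.inl ⟨true, rfl, rr0_d0 N d⟩
    · by_cases h2 : d = N.a d0
      · subst h2
        exact Or.inl ⟨false, rfl, rr0_a N h d0⟩
      · exact Or.inr (Or.inr ⟨⟨d, h1, h2⟩, rfl, rr0_val N d0 ⟨d, h1, h2⟩⟩)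
  · exact Or.inr (Or.inl ⟨b, rfl, rfl⟩)

theorem rr0_inc (N : LNet Λ) (h : N.IsGood) (d0 : N.D)
    (h1 : N.inc (Sum.inl d0) = N.pole true) (h2 : N.inc (Sum.inl (N.a d0)) = N.pole false)
    (t : N.T) : (del N h d0).inc (rr0 N d0 t) = N.inc t := by
  rcases rr0_cases N h d0 t with ⟨b, ht, hr⟩ | ⟨b, ht, hr⟩ | ⟨d, ht, hr⟩
  · rw [hr, ht]
    cases b
    · exact h2.symm
    · exact h1.symm
  · rw [hr, ht]
    rfl
  · rw [hr, ht]
    rfl

theorem rr0_aa (N : LNet Λ) (h : N.IsGood) (d0 : N.D) (t : N.T) :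
    rr0 N d0 (N.aa t) = (del N h d0).aa (rr0 N d0 t) := by
  rcases rr0_cases N h d0 t with ⟨b, ht, hr⟩ | ⟨b, ht, hr⟩ | ⟨d, ht, hr⟩
  · rw [hr, ht]
    cases b
    · show rr0 N d0 (Sum.inl (N.a (N.a d0))) = _
      rw [h.inv, rr0_d0]
      rfl
    · show rr0 N d0 (Sum.inl (N.a d0)) = _
      rw [rr0_a N h]
      rfl
  · rw [hr, ht]
    rfl
  · rw [hr, ht]
    exact rr0_val N d0 ((del N h d0).a d)

theorem rr0_surj (N : LNet Λ) (d0 : N.D) (x : {d : N.D // d ≠ d0 ∧ d ≠ N.a d0} ⊕ Bool) :
    ∃ t, rr0 N d0 t = x := by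
  rcases x with d | b
  · exact ⟨Sum.inl d.1, rr0_val N d0 d⟩
  · exact ⟨Sum.inr b, rfl⟩

theorem del_two (N : LNet Λ) (h : N.IsGood) (d0 : N.D)
    (h1 : N.inc (Sum.inl d0) = N.pole true) (h2 : N.inc (Sum.inl (N.a d0)) = N.pole false)
    (A : Finset (del N h d0).T) (hA : Cl (del N h d0).aa A) (hne : A.Nonempty) (hu : A ≠ univ) :
    ∃ x y, x ≠ y ∧ Sh (del N h d0).inc A x ∧ Sh (del N h d0).inc A y := by
  have hm : ∀ t, t ∈ (univ.filter fun t => rr0 N d0 t ∈ A) ↔ rr0 N d0 t ∈ A := by
    intro t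
    rw [mem_filter]
    exact ⟨fun h => h.2, fun h => ⟨mem_univ _, h⟩⟩
  have hsh : ∀ x, Sh N.inc (univ.filter fun t => rr0 N d0 t ∈ A) x →
      Sh (del N h d0).inc A x := by
    rintro x ⟨⟨t, ht, e1⟩, t', ht', e2⟩
    exact ⟨⟨rr0 N d0 t, (hm t).1 ht, (rr0_inc N h d0 h1 h2 t).trans e1⟩,
      rr0 N d0 t', fun h => ht' ((hm t').2 h), (rr0_inc N h d0 h1 h2 t').trans e2⟩
  have h5 := h.two (univ.filter fun t => rr0 N d0 t ∈ A) ?_ ?_ ?_
  · obtain ⟨x, y, hxy, hx, hy⟩ := h5
    exact ⟨x, y, hxy, hsh x hx, hsh y hy⟩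
  · intro t
    rw [hm, hm, rr0_aa N h]
    exact hA _
  · obtain ⟨x, hx⟩ := hne
    obtain ⟨t, rfl⟩ := rr0_surj N d0 x
    exact ⟨t, (hm t).2 hx⟩
  · intro h3
    apply hu
    rw [eq_univ_iff_forall] at h3 ⊢
    intro x
    obtain ⟨t, rfl⟩ := rr0_surj N d0 x
    exact (hm t).1 (h3 t)

theorem del_planar (N : LNet Λ) (h : N.IsGood) (d0 : N.D) :
    ∃ s : Perm (del N h d0).T,
      (∀ t t', s.SameCycle t t' ↔ (del N h d0).inc t = (del N h d0).inc t') ∧
      Pl (del N h d0).aa s := by
  obtain ⟨s, hs, hp⟩ := h.planar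
  have hinv : ∀ t, N.aa (N.aa t) = t := by
    rintro (d | b)
    · exact congrArg Sum.inl (h.inv d)
    · show (Sum.inr (!!b) : N.T) = _
      rw [Bool.not_not]
  let S : Finset N.T := univ.filter fun t => t ≠ Sum.inl d0 ∧ t ≠ Sum.inl (N.a d0)
  have hmS : ∀ t, t ∈ S ↔ t ≠ Sum.inl d0 ∧ t ≠ Sum.inl (N.a d0) := by
    intro t
    show t ∈ univ.filter _ ↔ _
    rw [mem_filter]
    exact ⟨fun h => h.2, fun h => ⟨mem_univ _, h⟩⟩
  have ha0 : N.aa (Sum.inl d0) = Sum.inl (N.a d0) := rfl
  have ha1 : N.aa (Sum.inl (N.a d0)) = Sum.inl d0 := by rw [← ha0, hinv]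
  have hS : Cl N.aa S := by
    intro t
    rw [hmS, hmS]
    constructor
    · rintro ⟨e1, e2⟩
      exact ⟨fun e3 => e2 (by rw [e3, ha0]), fun e3 => e1 (by rw [e3, ha1])⟩
    · rintro ⟨e1, e2⟩
      exact ⟨fun e3 => e2 (by rw [← ha0, ← e3, hinv]), fun e3 => e1 (N.aa.injective (by
        rw [e3, ha0]))⟩
  let φ : ({d : N.D // d ≠ d0 ∧ d ≠ N.a d0} ⊕ Bool) ≃ {x // x ∈ S} :=
    { toFun := fun x => match x with
        | Sum.inl d => ⟨Sum.inl d.1, (hmS _).2
            ⟨fun e => d.2.1 (Sum.inl_injective e), fun e => d.2.2 (Sum.inl_injective e)⟩⟩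
        | Sum.inr b => ⟨Sum.inr b, (hmS _).2 ⟨Sum.inr_ne_inl, Sum.inr_ne_inl⟩⟩
      invFun := fun x => rr0 N d0 x.1
      left_inv := by
        rintro (d | b)
        · exact rr0_val N d0 d
        · rfl
      right_inv := by
        rintro ⟨t, ht⟩
        apply Subtype.ext
        rcases rr0_cases N h d0 t with ⟨b, ht', hr⟩ | ⟨b, ht', hr⟩ | ⟨d, ht', hr⟩
        · exfalso
          rw [hmS] at ht
          cases b
          · exact ht.2 ht'
          · exact ht.1 ht'
        · subst ht'
          rfl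
        · subst ht'
          simp only [rr0_val] }
  have hφ : ∀ x, N.inc (φ x).1 = (del N h d0).inc x := by
    rintro (d | b) <;> rfl
  have hφa : ∀ x, φ.symm (subA N.aa S hS x) = (del N h d0).aa (φ.symm x) := fun x =>
    rr0_aa N h d0 x.1
  have hcong : ∀ x, φ.symm (ret s S x) = (φ.symm.permCongr (ret s S)) (φ.symm x) := by
    intro x
    rw [Equiv.permCongr_apply, Equiv.symm_symm, Equiv.apply_symm_apply]
  refine ⟨φ.symm.permCongr (ret s S), ?_, ?_⟩
  · intro t t'
    refine (SubPl.sameCycle_iso φ.symm (ret s S) t t').trans ?_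
    refine (sameCycle_ret s S _ _).trans ?_
    refine (hs _ _).trans ?_
    exact ⟨fun e => (hφ t).symm.trans (e.trans (hφ t')),
      fun e => (hφ t).trans (e.trans (hφ t').symm)⟩
  · exact Pl_iso (a := subA N.aa S hS) (s := ret s S) φ.symm hφa hcong (hp.restrict hinv S hS)

theorem del_good (N : LNet Λ) (h : N.IsGood) (d0 : N.D)
    (h1 : N.inc (Sum.inl d0) = N.pole true) (h2 : N.inc (Sum.inl (N.a d0)) = N.pole false)
    (hne : ∃ d, d ≠ d0 ∧ d ≠ N.a d0) : (del N h d0).IsGood where
  inv := fun d => Subtype.ext (h.inv d.1)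
  fpf := fun d hd => h.fpf d.1 (congrArg Subtype.val hd)
  ne := by
    obtain ⟨d, hd⟩ := hne
    exact ⟨⟨d, hd⟩⟩
  surj := by
    intro v
    obtain ⟨t, ht⟩ := h.surj v
    exact ⟨rr0 N d0 t, (rr0_inc N h d0 h1 h2 t).trans ht⟩
  loop := by
    rintro (d | b)
    · exact h.loop (Sum.inl d.1)
    · exact h.loop (Sum.inr b)
  simp := fun d d' e1 e2 => Subtype.ext (h.simp d.1 d'.1 e1 e2)
  two := fun A hA hne hu => del_two N h d0 h1 h2 A hA hne hu
  planar := del_planar N h d0

theorem del_direct (N : LNet Λ) (h : N.IsGood) (d0 : N.D)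
    (h1 : N.inc (Sum.inl d0) = N.pole true) (h2 : N.inc (Sum.inl (N.a d0)) = N.pole false) :
    ¬ Direct (del N h d0) := by
  rintro ⟨d, e1, e2⟩
  have e3 : N.inc (Sum.inl d.1) = N.pole true := e1
  have e4 : N.inc (Sum.inl (N.a d.1)) = N.pole false := e2
  exact d.2.1 (h.simp d.1 d0 (e3.trans h1.symm) (e4.trans h2.symm))

theorem del_iso (N : LNet Λ) (h : N.IsGood) (d0 : N.D)
    (h1 : N.inc (Sum.inl d0) = N.pole true) (h2 : N.inc (Sum.inl (N.a d0)) = N.pole false) :
    NIso (addE (del N h d0)) N := by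
  let ψ : {d : N.D // d ≠ d0 ∧ d ≠ N.a d0} ⊕ Bool → N.D :=
    Sum.elim (fun d => d.1) (fun b => bif b then d0 else N.a d0)
  have hψ : Function.Bijective ψ := by
    constructor
    · rintro (d | (_ | _)) (d' | (_ | _)) hx
      · exact congrArg Sum.inl (Subtype.ext hx)
      · exact absurd hx d.2.2
      · exact absurd hx d.2.1
      · exact absurd hx.symm d'.2.2
      · rfl
      · exact absurd hx (h.fpf d0)
      · exact absurd hx.symm d'.2.1
      · exact absurd hx.symm (h.fpf d0)
      · rfl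
    · intro d
      by_cases e1 : d = d0
      · exact ⟨Sum.inr true, e1.symm⟩
      · by_cases e2 : d = N.a d0
        · exact ⟨Sum.inr false, e2.symm⟩
        · exact ⟨Sum.inl ⟨d, e1, e2⟩, rfl⟩
  refine ⟨Equiv.ofBijective ψ hψ, Equiv.refl _, ?_, ?_, fun _ => rfl, fun _ _ => rfl⟩
  · rintro (d | (_ | _))
    · rfl
    · exact (h.inv d0).symm
    · rfl
  · rintro (d | (_ | _))
    · rfl
    · exact h2.symm
    · exact h1.symm

theorem edge_iso (N : LNet Λ) (h : N.IsGood) (d0 : N.D)
    (h1 : N.inc (Sum.inl d0) = N.pole true) (h2 : N.inc (Sum.inl (N.a d0)) = N.pole false)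
    (hne : ∀ d, d = d0 ∨ d = N.a d0) (g : Bool → Λ) : NIso (edgeNet g) N := by
  let ψ : Bool → N.D := fun b => bif b then d0 else N.a d0
  have hψ : Function.Bijective ψ := by
    constructor
    · rintro (_ | _) (_ | _) hx
      · rfl
      · exact absurd hx (h.fpf d0)
      · exact absurd hx.symm (h.fpf d0)
      · rfl
    · intro d
      rcases hne d with e | e
      · exact ⟨true, e.symm⟩
      · exact ⟨false, e.symm⟩
  have hf : Function.Bijective N.pole := by
    constructor
    · exact fun b b' hb => pole_inj h hb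
    · intro v
      obtain ⟨(d | b), ht⟩ := h.surj v
      · rcases hne d with e | e
        · subst e
          exact ⟨true, h1.symm.trans ht⟩
        · subst e
          exact ⟨false, h2.symm.trans ht⟩
      · exact ⟨b, ht⟩
  refine ⟨Equiv.ofBijective ψ hψ, Equiv.ofBijective N.pole hf, ?_, ?_, fun _ => rfl,
    fun x hx => absurd rfl (hx x)⟩
  · rintro (_ | _)
    · exact (h.inv d0).symm
    · rfl
  · rintro (_ | _)
    · exact h2.symm
    · exact h1.symm

end AddE

/-- a network with a direct edge -/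
theorem direct_dec {N : LNet Λ} (h : N.IsGood) (hd : Direct N) :
    (∃ g, NIso N (edgeNet g)) ∨ ∃ N', N'.IsGood ∧ ¬ Direct N' ∧ NIso N (addE N') := by
  obtain ⟨d0, h1, h2⟩ := hd
  by_cases hne : ∃ d, d ≠ d0 ∧ d ≠ N.a d0
  · exact Or.inr ⟨_, AddE.del_good N h d0 h1 h2 hne, AddE.del_direct N h d0 h1 h2,
      (AddE.del_iso N h d0 h1 h2).symm⟩
  · left
    push Not at hne
    refine ⟨fun b => N.lab (N.pole b), (AddE.edge_iso N h d0 h1 h2 ?_ _).symm⟩
    intro d
    by_cases e : d = d0
    · exact Or.inl e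
    · exact Or.inr (hne d e)

theorem not_edgeNet_addE {N : LNet Λ} (h : N.IsGood) (g : Bool → Λ) :
    ¬ NIso (edgeNet g) (addE N) := by
  intro hi
  have h1 := hi.card_eq
  have h2 : Fintype.card (edgeNet g).D = 2 := Fintype.card_bool
  have h3 : Fintype.card (addE N).D = Fintype.card N.D + 2 := by
    show Fintype.card (N.D ⊕ Bool) = _
    rw [Fintype.card_sum, Fintype.card_bool]
  have h4 : 0 < Fintype.card N.D := Fintype.card_pos_iff.2 h.ne
  omega

open NetSumC in
theorem AddE.sum_direct [Nonempty Λ] (w : Λ → ℝ≥0∞) :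
    Nsel w (fun N => Direct N) = 1 + Nsel w (fun N => ¬ Direct N) := by
  obtain ⟨l0⟩ := ‹Nonempty Λ›
  let e0 : NC Λ := cls (edgeNet fun _ => l0) (edgeNet_good _).1
  have he0 : NIso e0.rep.1 (edgeNet fun _ => l0) := cls_iso _ _
  let Φ : Option {c : NC Λ // ¬ Direct c.rep.1} → NC Λ
    | none => e0
    | some c => cls (addE c.1.rep.1) (addE_good c.1.rep.2 c.2).1
  have hΦ : ∀ c, NIso (Φ (some c)).rep.1 (addE c.1.rep.1) := fun c => cls_iso _ _
  have hΦ0 : NIso (Φ none).rep.1 (edgeNet fun _ => l0) := he0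
  have hinj : Function.Injective Φ := by
    rintro (_ | c) (_ | c') hcc
    · rfl
    · exfalso
      have h1 := hΦ c'
      rw [← hcc] at h1
      exact not_edgeNet_addE c'.1.rep.2 _ (hΦ0.symm.trans h1)
    · exfalso
      have h1 := hΦ c
      rw [hcc] at h1
      exact not_edgeNet_addE c.1.rep.2 _ (hΦ0.symm.trans h1)
    · have h1 := hΦ c
      rw [hcc] at h1
      have h2 := (addE_iso c.1.rep.2 c'.1.rep.2 c.2 c'.2).1 (h1.symm.trans (hΦ c'))
      exact congrArg some (Subtype.ext (eq_of_rep h2))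
  have hsupp : Function.support (fun c : NC Λ => if Direct c.rep.1 then wt w c.rep.1 else 0) ⊆
      Set.range Φ := by
    intro c hc
    have hd : Direct c.rep.1 := by
      by_contra h
      exact hc (if_neg h)
    rcases direct_dec c.rep.2 hd with ⟨g, hg⟩ | ⟨N', hN', hd', hi⟩
    · refine ⟨none, ?_⟩
      exact eq_of_rep (hΦ0.trans ((GlueLib.edge_iso _ g).trans hg.symm))
    · have h1 := cls_iso N' hN'
      have h2 : ¬ Direct (cls N' hN').rep.1 := fun h => hd' (h1.direct h)
      refine ⟨some ⟨cls N' hN', h2⟩, ?_⟩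
      exact eq_of_rep ((hΦ _).trans
        (((addE_iso (cls N' hN').rep.2 hN' h2 hd').2 h1).trans hi.symm))
  unfold Nsel
  have h3 := hinj.tsum_eq hsupp
  refine Eq.trans ?_ (h3.symm.trans ?_)
  · refine tsum_congr fun c => ?_
    split_ifs <;> rfl
  · rw [tsum_opt]
    have h5 : Direct (Φ none).rep.1 := hΦ0.symm.direct (edgeNet_good _).2
    rw [if_pos h5, hΦ0.wt_eq, wt_edgeNet]
    congr 1
    have h4 : ∀ c : {c : NC Λ // ¬ Direct c.rep.1},
        (if Direct (Φ (some c)).rep.1 then wt w (Φ (some c)).rep.1 else 0) = wt w c.1.rep.1 := by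
      intro c
      rw [if_pos ((hΦ c).symm.direct (AddE.direct _)), (hΦ c).wt_eq, wt_addE]
    simp_rw [h4]
    have h6 := tsum_subtype {c : NC Λ | ¬ Direct c.rep.1} (fun c : NC Λ => wt w c.rep.1)
    refine h6.trans (tsum_congr fun c => ?_)
    rw [Set.indicator_apply]
    by_cases hc : ¬ Direct c.rep.1
    · rw [if_pos hc, if_pos (by exact hc)]
    · rw [if_neg hc, if_neg (by exact hc)]

theorem Nsel_all [Nonempty Λ] (w : Λ → ℝ≥0∞) :
    Nsel w (fun _ => True) = 1 + 2 * Nsel w (fun N => ¬ Direct N) := by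
  have h1 : Nsel w (fun _ => True) = Nsel w (fun N => Direct N) + Nsel w (fun N => ¬ Direct N) := by
    unfold Nsel
    rw [← ENNReal.tsum_add]
    refine tsum_congr fun c => ?_
    by_cases hc : Direct c.rep.1
    · simp [hc]
    · simp [hc]
  rw [h1, AddE.sum_direct]
  ring

end PGr

end

section
/-! # Module CMatchLib: matchings of cores -/

set_option linter.unusedSectionVars false

namespace PGr
open Equiv Finset
open scoped Classical
universe u
variable {Λ : Type u}

theorem NIso.fl {N N' : LNet Λ} (b : Bool) (h : NIso N N') : NIso (LNet.fl b N) (LNet.fl b N') := by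
  obtain ⟨e, f, h1, h2, h3, h4⟩ := h
  refine ⟨e, f, h1, h2, fun c => h3 (xor b c), fun x hx => h4 x fun c hc => ?_⟩
  refine hx (xor b c) ?_
  rw [hc]
  show N.inc (Sum.inr c) = N.inc (Sum.inr (xor b (xor b c)))
  rw [← Bool.xor_assoc, Bool.xor_self, Bool.false_xor]

theorem fl_fl (b c : Bool) (N : LNet Λ) :
    NIso (LNet.fl b (LNet.fl c N)) (LNet.fl (xor b c) N) := by
  refine ⟨Equiv.refl _, Equiv.refl _, fun _ => rfl, fun _ => rfl, fun d => ?_, fun _ _ => rfl⟩
  show N.inc (Sum.inr (xor c (xor b d))) = N.inc (Sum.inr (xor (xor b c) d))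
  cases b <;> cases c <;> cases d <;> rfl

theorem fl_false (N : LNet Λ) : NIso (LNet.fl false N) N := by
  refine ⟨Equiv.refl _, Equiv.refl _, fun _ => rfl, fun _ => rfl, fun d => ?_, fun _ _ => rfl⟩
  show N.inc (Sum.inr (xor false d)) = N.inc (Sum.inr d)
  rw [Bool.false_xor]

variable {C C' C'' : Core} {N : C.I → LNet Λ} {N' : C'.I → LNet Λ} {N'' : C''.I → LNet Λ}
  {g : C.CV → Λ} {g' : C'.CV → Λ} {g'' : C''.CV → Λ}

private theorem cml_vinc {C : Core} {t t' : (C.I × Bool) ⊕ Bool} :
    C.vinc t = C.vinc t' ↔ C.s.SameCycle t t' :=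
  ⟨fun h => Quotient.exact h, fun h => Quotient.sound h⟩

private theorem cml_root {ψ : C.toB.T ≃ C'.toB.T} (h : CMatch N N' g g' ψ) (t : C.toB.T)
    (b : Bool) : C.vinc t = C.vinc (Sum.inr b) ↔ C'.vinc (ψ t) = C'.vinc (Sum.inr b) := by
  have key : ∀ y : C'.toB.T, ψ (Sum.inr b) = y →
      (C.s.SameCycle t (Sum.inr b) ↔ C'.s.SameCycle (ψ t) y) := by
    rintro _ rfl
    exact h.vtx t _
  rw [cml_vinc, cml_vinc]
  exact key _ (h.root b)

theorem CMatch.symm {ψ : C.toB.T ≃ C'.toB.T} (h : CMatch N N' g g' ψ) :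
    CMatch N' N g' g ψ.symm where
  aa := by
    intro t
    rw [Equiv.symm_apply_eq, h.aa, Equiv.apply_symm_apply]
  root := by
    intro b
    rw [Equiv.symm_apply_eq, h.root]
  vtx := by
    intro t t'
    have := h.vtx (ψ.symm t) (ψ.symm t')
    rw [Equiv.apply_symm_apply, Equiv.apply_symm_apply] at this
    exact this.symm
  net := by
    intro i c i' c' he
    rw [Equiv.symm_apply_eq] at he
    have h1 := h.net i' c' i c he.symm
    have h2 := NIso.fl (xor c c') h1
    have h3 := fl_fl (xor c c') (xor c' c) (N' i)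
    have h4 : xor (xor c c') (xor c' c) = false := by cases c <;> cases c' <;> rfl
    rw [h4] at h3
    exact ((h2.trans h3).trans (fl_false (N' i))).symm
  lab := by
    intro t ht
    have h1 := h.lab (ψ.symm t) (by
      intro b hb
      refine ht b ?_
      have h2 := (cml_root h (ψ.symm t) b).1 hb
      rw [Equiv.apply_symm_apply] at h2
      exact h2)
    rw [Equiv.apply_symm_apply] at h1
    exact h1.symm

theorem CMatch.trans {ψ : C.toB.T ≃ C'.toB.T} {ψ' : C'.toB.T ≃ C''.toB.T}
    (h : CMatch N N' g g' ψ) (h' : CMatch N' N'' g' g'' ψ') :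
    CMatch N N'' g g'' (ψ.trans ψ') where
  aa := by
    intro t
    rw [Equiv.trans_apply, Equiv.trans_apply, h.aa, h'.aa]
  root := by
    intro b
    rw [Equiv.trans_apply, h.root, h'.root]
  vtx := by
    intro t t'
    rw [Equiv.trans_apply, Equiv.trans_apply, h.vtx, h'.vtx]
  net := by
    intro i c i'' c'' he
    rw [Equiv.trans_apply] at he
    rcases hm : ψ (Sum.inl (i, c)) with ⟨i', c'⟩ | b
    · rw [hm] at he
      have h1 := h.net i c i' c' hm
      have h2 := NIso.fl (xor c c') (h'.net i' c' i'' c'' he)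
      have h3 := fl_fl (xor c c') (xor c' c'') (N'' i'')
      have h4 : xor (xor c c') (xor c' c'') = xor c c'' := by
        cases c <;> cases c' <;> cases c'' <;> rfl
      rw [h4] at h3
      exact (h1.trans h2).trans h3
    · exfalso
      rw [hm, h'.root] at he
      exact Sum.inr_ne_inl he
  lab := by
    intro t ht
    have h1 := h.lab t ht
    have h2 := h'.lab (ψ t) (by
      intro b hb
      exact ht b ((cml_root h t b).2 hb))
    rw [Equiv.trans_apply, h2, h1]

/-- Whitney: a matching is an isomorphism of maps or a reflection.  Apply `whitney` to the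
rotation `ψ⁻¹ s' ψ` (`Pl_iso`). -/
theorem CMatch.iso_or (hC : C.toB.IsGood) (hR : Rigid C.toB) (hC' : C'.toB.IsGood)
    {ψ : C.toB.T ≃ C'.toB.T} (h : CMatch N N' g g' ψ) :
    (∀ t, ψ (C.s t) = C'.s (ψ t)) ∨ ∀ t, ψ (C.s t) = C'.s⁻¹ (ψ t) := by
  set s' : Perm C.toB.T := (ψ.trans C'.toB.s).trans ψ.symm with hs'
  have hval : ∀ t, s' t = ψ.symm (C'.toB.s (ψ t)) := fun t => rfl
  have hcom : ∀ t', ψ.symm (C'.toB.s t') = s' (ψ.symm t') := by
    intro t'
    rw [hval, Equiv.apply_symm_apply]
  have hcom' : ∀ t, ψ (s' t) = C'.toB.s (ψ t) := by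
    intro t
    rw [hval, Equiv.apply_symm_apply]
  have hp : Pl C.toB.aa s' := by
    refine Pl_iso ψ.symm ?_ hcom hC'.pl
    intro t
    rw [Equiv.symm_apply_eq, h.aa, Equiv.apply_symm_apply]
  have hv : ∀ t t', s'.SameCycle t t' ↔ C.toB.s.SameCycle t t' := by
    intro t t'
    have h1 := h.vtx t t'
    have h2 : s'.SameCycle t t' ↔ C'.toB.s.SameCycle (ψ t) (ψ t') := by
      constructor
      · rintro ⟨i, hi⟩
        exact ⟨i, by rw [← CutIso.zpow ψ hcom', hi]⟩
      · rintro ⟨i, hi⟩
        refine ⟨i, ψ.injective ?_⟩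
        rw [CutIso.zpow ψ hcom', hi]
    exact h2.trans h1.symm
  rcases whitney hC hR hv hp with h1 | h1
  · left
    intro t
    show ψ (C.toB.s t) = C'.toB.s (ψ t)
    rw [← h1]
    exact hcom' t
  · right
    intro t
    show ψ (C.toB.s t) = C'.toB.s⁻¹ (ψ t)
    rw [Perm.eq_inv_iff_eq, ← hcom', h1]
    exact congrArg ψ (Equiv.symm_apply_apply C.toB.s t)

end PGr

end

section
/-! # Module CompInc: the vertices of a composite map are the vertices of the glued graph -/

set_option linter.unusedSectionVars false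

namespace PGr
open Equiv Finset
universe u
variable {Λ : Type u}

/-- the good rooted maps given by rotations of good networks -/
def netGB {I : Type} (X : I → LNet Λ) (sr : ∀ i, Perm (X i).T)
    (hg : ∀ i, Good (X i).aa (sr i)) : I → GB := fun i => ⟨(X i).toB (sr i), hg i⟩

section
open CompVAux

variable (C : Core) (X : C.I → LNet Λ)

theorem CompInc_pole (hX : ∀ i, (X i).IsGood) {i : C.I} {d : (X i).D} {b : Bool}
    (h : (X i).inc (Sum.inl d) = (X i).pole b) :
    glueInc C.vinc X (Sum.inl ⟨i, d⟩) = Sum.inl (C.vinc (Sum.inl (i, b))) := by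
  cases b with
  | true => simp only [glueInc, dif_pos h]
  | false =>
    have h1 : ¬ (X i).inc (Sum.inl d) = (X i).pole true := by
      intro h2
      exact (hX i).loop (Sum.inr true) (h.symm.trans h2)
    simp only [glueInc, dif_neg h1, dif_pos h]

theorem CompInc_int {i : C.I} {d : (X i).D} (h : ∀ b, (X i).inc (Sum.inl d) ≠ (X i).pole b) :
    glueInc C.vinc X (Sum.inl ⟨i, d⟩) = Sum.inr ⟨i, ⟨(X i).inc (Sum.inl d), h⟩⟩ := by
  simp only [glueInc, dif_neg (h true), dif_neg (h false)]

theorem CompInc_iff (N : C.I → GB) (x y : (comp C N).T) :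
    (comp C N).s.SameCycle x y ↔ F C N x = F C N y := by
  refine ⟨F_sc C N, fun h => ?_⟩
  have hinj : Function.Injective (Fb C N) := by
    intro q q' hq
    obtain ⟨z, rfl⟩ := (G_bij C N).2 q
    obtain ⟨z', rfl⟩ := (G_bij C N).2 q'
    rw [Fb_G, Fb_G] at hq
    rw [emb_inj C N hq]
  exact cyc_eq.1 (hinj (show Fb C N (cyc _ x) = Fb C N (cyc _ y) from h))

end

/-- Proof: `CompV` (`F`, `F_sc`, `G_bij`, `core_sc`, `inner_pow`, ...) describes the cycles of a composite: two darts
are in the same cycle iff they are at the same core vertex, or in the same cycle, without root darts, of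
the same net.  `glueInc` says the same with `inc`; the two poles of a net are different (`loop` for a root
dart) and are at the root darts. -/
theorem comp_inc (C : Core) (X : C.I → LNet Λ) (hX : ∀ i, (X i).IsGood)
    (sr : ∀ i, Perm (X i).T)
    (hsr : ∀ i t t', (sr i).SameCycle t t' ↔ (X i).inc t = (X i).inc t')
    (hg : ∀ i, Good (X i).aa (sr i)) (g : C.CV → Λ)
    (t t' : (Σ i, (X i).D) ⊕ Bool) :
    (comp C (netGB X sr hg)).s.SameCycle t t' ↔
      glueInc C.vinc X t = glueInc C.vinc X t' := by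
  rw [CompInc_iff C (netGB X sr hg) t t']
  have key : ∀ t : (Σ i, (X i).D) ⊕ Bool,
      (∃ q : C.CV, CompVAux.F C (netGB X sr hg) t = Sum.inl q ∧ glueInc C.vinc X t = Sum.inl q) ∨
      ∃ (i : C.I) (d : (X i).D) (h : ∀ b, (X i).inc (Sum.inl d) ≠ (X i).pole b),
        CompVAux.F C (netGB X sr hg) t = Sum.inr ⟨i, CompVAux.cyc (sr i) (Sum.inl d)⟩ ∧
        glueInc C.vinc X t = Sum.inr ⟨i, ⟨(X i).inc (Sum.inl d), h⟩⟩ := by
    rintro (⟨i, d⟩ | b)
    · by_cases h : ∃ b, (X i).inc (Sum.inl d) = (X i).pole b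
      · obtain ⟨b, hb⟩ := h
        left
        refine ⟨C.vinc (Sum.inl (i, b)), ?_, CompInc_pole C X hX hb⟩
        exact CompVAux.F_core C (netGB X sr hg) (i := i) (b := b) (d := d) ((hsr i _ _).2 hb)
      · push Not at h
        right
        refine ⟨i, d, h, ?_, CompInc_int C X h⟩
        refine CompVAux.F_inner C (netGB X sr hg) (i := i) (d := d) ?_
        rintro ⟨b, hb⟩
        exact h b ((hsr i _ _).1 hb)
    · left
      exact ⟨C.vinc (Sum.inr b), rfl, rfl⟩
  rcases key t with ⟨q, h1, h2⟩ | ⟨i, d, h, h1, h2⟩ <;>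
    rcases key t' with ⟨q', h1', h2'⟩ | ⟨i', d', h', h1', h2'⟩ <;>
    rw [h1, h2, h1', h2']
  · constructor <;> intro h <;> exact congrArg Sum.inl (Sum.inl_injective h)
  · constructor <;> intro h <;> cases h
  · constructor <;> intro h <;> cases h
  · constructor
    · intro h3
      have h4 := Sum.inr_injective h3
      obtain rfl : i = i' := congrArg Sigma.fst h4
      have h5 := eq_of_heq (Sigma.mk.inj_iff.1 h4).2
      have h6 := (hsr i _ _).1 (CompVAux.cyc_eq.1 h5)
      congr 2
      exact Subtype.ext h6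
    · intro h3
      have h4 := Sum.inr_injective h3
      obtain rfl : i = i' := congrArg Sigma.fst h4
      have h5 := eq_of_heq (Sigma.mk.inj_iff.1 h4).2
      have h6 := (hsr i _ _).2 (congrArg Subtype.val h5)
      congr 2
      exact CompVAux.cyc_eq.2 h6

/-- the vertices of the glued graph have darts -/
theorem glue_surj (C : Core) (X : C.I → LNet Λ) (hX : ∀ i, (X i).IsGood) :
    Function.Surjective (glueInc C.vinc X) := by
  rintro (q | ⟨i, x⟩)
  · induction q using Quotient.inductionOn with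
    | _ y =>
      rcases y with ⟨i, b⟩ | b
      · obtain ⟨d, hd⟩ := NetSer.exists_pole (hX i) b
        exact ⟨Sum.inl ⟨i, d⟩, CompInc_pole C X hX hd⟩
      · exact ⟨Sum.inr b, rfl⟩
  · obtain ⟨t, ht⟩ := (hX i).surj x.1
    rcases t with d | b
    · have h : ∀ b, (X i).inc (Sum.inl d) ≠ (X i).pole b := by
        rw [ht]
        exact x.2
      refine ⟨Sum.inl ⟨i, d⟩, ?_⟩
      rw [CompInc_int C X h]
      congr 2
      exact Subtype.ext ht
    · exact absurd ht.symm (x.2 b)

end PGr

end

section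
/-! # Module GlueGood: networks glued on a rigid core are good -/

set_option linter.unusedSectionVars false

namespace PGr
open Equiv Finset
universe u
variable {Λ : Type u}

namespace GlueGood

theorem pole_ne {N : LNet Λ} (h : N.IsGood) {b b' : Bool} (hb : N.pole b = N.pole b') : b = b' := by
  have h1 : N.pole false ≠ N.pole true := h.loop (Sum.inr true)
  cases b <;> cases b'
  · rfl
  · exact absurd hb h1
  · exact absurd hb.symm h1
  · rfl

/-- a dart at a pole -/
theorem inc_pole (C : Core) (X : C.I → LNet Λ) (hX : ∀ i, (X i).IsGood) {i : C.I} {d : (X i).D}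
    {b : Bool} (h : (X i).inc (Sum.inl d) = (X i).pole b) :
    glueInc C.vinc X (Sum.inl ⟨i, d⟩) = Sum.inl (C.vinc (Sum.inl (i, b))) := by
  cases b
  · refine GlueLib.inc_false _ _ (fun h' => ?_) h
    have := pole_ne (hX i) (h.symm.trans h')
    cases this
  · exact GlueLib.inc_true _ _ h

/-- an interior dart -/
theorem inc_int (C : Core) (X : C.I → LNet Λ) {i : C.I} {d : (X i).D}
    (h : ∀ b, (X i).inc (Sum.inl d) ≠ (X i).pole b) :
    glueInc C.vinc X (Sum.inl ⟨i, d⟩) = Sum.inr ⟨i, ⟨(X i).inc (Sum.inl d), h⟩⟩ :=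
  GlueLib.inc_int _ _ (h true) (h false)

theorem pole_or (X : LNet Λ) (d : X.D) :
    (∃ b, X.inc (Sum.inl d) = X.pole b) ∨ ∀ b, X.inc (Sum.inl d) ≠ X.pole b := by
  by_cases h : ∃ b, X.inc (Sum.inl d) = X.pole b
  · exact Or.inl h
  · exact Or.inr (fun b hb => h ⟨b, hb⟩)

/-- if a dart of a net is at a core vertex then it is at a pole -/
theorem pole_of_inl (C : Core) (X : C.I → LNet Λ) {i : C.I} {d : (X i).D} {v : C.CV}
    (h : glueInc C.vinc X (Sum.inl ⟨i, d⟩) = Sum.inl v) :
    ∃ b, (X i).inc (Sum.inl d) = (X i).pole b := by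
  rcases pole_or (X i) d with h1 | h1
  · exact h1
  · rw [inc_int C X h1] at h
    cases h

/-- in one net vertices are mapped injectively -/
theorem inc_inj (C : Core) (hC : C.toB.IsGood) (X : C.I → LNet Λ) (hX : ∀ i, (X i).IsGood)
    {i : C.I} {d d' : (X i).D}
    (h : glueInc C.vinc X (Sum.inl ⟨i, d⟩) = glueInc C.vinc X (Sum.inl ⟨i, d'⟩)) :
    (X i).inc (Sum.inl d) = (X i).inc (Sum.inl d') := by
  rcases pole_or (X i) d with ⟨b, hb⟩ | h1
  · rw [inc_pole C X hX hb] at h
    obtain ⟨b', hb'⟩ := pole_of_inl C X h.symm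
    rw [inc_pole C X hX hb'] at h
    have h2 : C.vinc (Sum.inl (i, b)) = C.vinc (Sum.inl (i, b')) := Sum.inl.inj h
    have h3 : C.s.SameCycle (Sum.inl (i, b)) (Sum.inl (i, b')) := Quotient.exact h2
    have h4 : b = b' := by
      by_contra hne
      have h5 : b' = !b := by
        cases b <;> cases b' <;> simp_all
      rw [h5] at h3
      exact Good.noLoop hC (Sum.inl (i, b)) h3
    rw [hb, hb', h4]
  · rcases pole_or (X i) d' with ⟨b', hb'⟩ | h1'
    · rw [inc_pole C X hX hb', inc_int C X h1] at h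
      cases h
    · rw [inc_int C X h1, inc_int C X h1'] at h
      have h2 := Sum.inr.inj h
      have h3 := eq_of_heq (Sigma.mk.inj h2).2
      exact congrArg Subtype.val h3

/-- the rotation of the glued network -/
theorem rot (C : Core) (hC : C.toB.IsGood) (X : C.I → LNet Λ)
    (hX : ∀ i, (X i).IsGood) (g : C.CV → Λ) : ∃ s : Perm (glue C.vinc X g).T,
    (∀ t t', s.SameCycle t t' ↔ (glue C.vinc X g).inc t = (glue C.vinc X g).inc t') ∧
    Good (glue C.vinc X g).aa s := by
  choose sr hsr hg using fun i => (hX i).rot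
  refine ⟨(comp C (netGB X sr hg)).s, fun t t' => comp_inc C X hX sr hsr hg g t t', ?_⟩
  exact comp_good C (netGB X sr hg) hC

end GlueGood

open GlueGood

/-- Proof: choose rotations of the nets (`LNet.IsGood.rot`), `comp_good`, `comp_inc`.  `simp`: two darts in
different nets with the same ends give two parallel core darts, `Rg3.simple`; in one net use `simp` of the
net (its vertices are mapped injectively because the core has no loops).  `two`: `Good.two_shared`. -/
theorem glue_rig_good (C : Core) (hC : C.toB.IsGood) (hR : Rigid C.toB) (X : C.I → LNet Λ)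
    (hX : ∀ i, (X i).IsGood) (g : C.CV → Λ) : (glue C.vinc X g).IsGood := by
  obtain ⟨s, hs, hgood⟩ := rot C hC X hX g
  refine ⟨?_, ?_, ?_, glue_surj C X hX, ?_, ?_, ?_, ⟨s, hs, hgood.pl⟩⟩
  · rintro ⟨i, d⟩
    change (⟨i, (X i).a ((X i).a d)⟩ : Σ i, (X i).D) = ⟨i, d⟩
    rw [(hX i).inv]
  · rintro ⟨i, d⟩ h
    have h1 : (⟨i, (X i).a d⟩ : Σ i, (X i).D) = ⟨i, d⟩ := h
    exact (hX i).fpf d (eq_of_heq (Sigma.mk.inj h1).2)
  · have h3 := CompFour.card_I C hR
    have : 0 < Fintype.card C.I := by omega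
    obtain ⟨i⟩ := Fintype.card_pos_iff.mp this
    obtain ⟨d⟩ := (hX i).ne
    exact ⟨⟨i, d⟩⟩
  · intro t h
    exact hgood.noLoop t ((hs t _).2 h.symm)
  · rintro ⟨i, e⟩ ⟨j, e'⟩ h1 h2
    by_cases hij : i = j
    · subst hij
      have g1 := inc_inj C hC X hX (d := e) (d' := e') h1
      have g2 := inc_inj C hC X hX (d := (X i).a e) (d' := (X i).a e') h2
      rw [(hX i).simp e e' g1 g2]
    · exfalso
      have k1 : glueInc C.vinc X (Sum.inl ⟨i, e⟩) = glueInc C.vinc X (Sum.inl ⟨j, e'⟩) := h1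
      have k2 : glueInc C.vinc X (Sum.inl ⟨i, (X i).a e⟩) =
        glueInc C.vinc X (Sum.inl ⟨j, (X j).a e'⟩) := h2
      have both : ∀ (f : (X i).D) (f' : (X j).D),
          glueInc C.vinc X (Sum.inl ⟨i, f⟩) = glueInc C.vinc X (Sum.inl ⟨j, f'⟩) →
          ∃ b b', (X i).inc (Sum.inl f) = (X i).pole b ∧ (X j).inc (Sum.inl f') = (X j).pole b' ∧
            C.s.SameCycle (Sum.inl (i, b)) (Sum.inl (j, b')) := by
        intro f f' hf
        rcases pole_or (X i) f with ⟨b, hb⟩ | hb
        · rw [inc_pole C X hX hb] at hf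
          obtain ⟨b', hb'⟩ := pole_of_inl C X hf.symm
          rw [inc_pole C X hX hb'] at hf
          exact ⟨b, b', hb, hb', Quotient.exact (Sum.inl.inj hf)⟩
        · rw [inc_int C X hb] at hf
          rcases pole_or (X j) f' with ⟨b', hb'⟩ | hb'
          · rw [inc_pole C X hX hb'] at hf
            cases hf
          · rw [inc_int C X hb'] at hf
            exact absurd (Sigma.mk.inj (Sum.inr.inj hf)).1 hij
      obtain ⟨b, b', p1, p2, p3⟩ := both e e' k1
      obtain ⟨c, c', q1, q2, q3⟩ := both ((X i).a e) ((X j).a e') k2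
      have hc : c = !b := by
        by_contra hne
        have hcb : c = b := by
          cases b <;> cases c <;> simp_all
        apply (hX i).loop (Sum.inl e)
        change (X i).inc (Sum.inl ((X i).a e)) = _
        rw [q1, p1, hcb]
      have hc' : c' = !b' := by
        by_contra hne
        have hcb : c' = b' := by
          cases b' <;> cases c' <;> simp_all
        apply (hX j).loop (Sum.inl e')
        change (X j).inc (Sum.inl ((X j).a e')) = _
        rw [q2, p2, hcb]
      rw [hc, hc'] at q3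
      have h5 := Rg3.simple (a := C.toB.aa) (s := C.s) hC hR (x := Sum.inl (i, b))
        (y := Sum.inl (j, b')) p3 q3
      have h6 : (i, b) = (j, b') := Sum.inl.inj h5
      exact hij (Prod.mk.inj h6).1
  · intro A hA hne hu
    obtain ⟨t, t', h1, h2, h3⟩ := hgood.two_shared hA hne hu
    have key : ∀ t, ShC s A t → Sh (glue C.vinc X g).inc A ((glue C.vinc X g).inc t) := by
      rintro t ⟨⟨x, hx, hx'⟩, y, hy, hy'⟩
      exact ⟨⟨x, hx, ((hs t x).1 hx').symm⟩, y, hy, ((hs t y).1 hy').symm⟩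
    exact ⟨_, _, fun h => h3 ((hs t t').2 h), key t h1, key t' h2⟩

end PGr

end

section
/-! # Module GlueFour: the parts of a rigid composite are its maximal sets with two shared vertices -/

set_option linter.unusedSectionVars false

namespace PGr
open Equiv Finset
open scoped Classical
universe u
variable {Λ : Type u}

/-- the set of darts of the net `i` -/
noncomputable def gpart (C : Core) (X : C.I → LNet Λ) (g : C.CV → Λ) (i : C.I) :
    Finset (glue C.vinc X g).T := univ.filter fun t => ∃ d : (X i).D, t = Sum.inl ⟨i, d⟩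

namespace GlueFour

variable (C : Core) (X : C.I → LNet Λ) (g : C.CV → Λ)

theorem mem_gpart {i : C.I} {t : (glue C.vinc X g).T} :
    t ∈ gpart C X g i ↔ ∃ d : (X i).D, t = Sum.inl ⟨i, d⟩ := by simp [gpart]

/-- the part of a dart -/
def eg : (glue C.vinc X g).T → Option C.I
  | Sum.inl d => some d.1
  | Sum.inr _ => none

theorem eg_inl (d : (glue C.vinc X g).D) : eg C X g (Sum.inl d) = some d.1 := rfl
theorem eg_inr (b : Bool) : eg C X g (Sum.inr b) = none := rfl

theorem eg_aa (t : (glue C.vinc X g).T) : eg C X g ((glue C.vinc X g).aa t) = eg C X g t := by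
  rcases t with ⟨i, d⟩ | b <;> rfl

theorem mem_gpart_eg {i : C.I} {t : (glue C.vinc X g).T} :
    t ∈ gpart C X g i ↔ eg C X g t = some i := by
  rw [mem_gpart]
  constructor
  · rintro ⟨d, rfl⟩
    rfl
  · intro h
    rcases t with ⟨j, d⟩ | b
    · have h1 : j = i := Option.some.inj h
      subst h1
      exact ⟨d, rfl⟩
    · cases h

/-- the darts of a set of parts -/
noncomputable def U (J : Finset C.I) : Finset (glue C.vinc X g).T :=
  univ.filter fun t => eg C X g t ∈ J.map Function.Embedding.some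

theorem mem_U {J : Finset C.I} {t : (glue C.vinc X g).T} :
    t ∈ U C X g J ↔ eg C X g t ∈ J.map Function.Embedding.some := by simp [U]

theorem cl_U (J : Finset C.I) : Cl (glue C.vinc X g).aa (U C X g J) := by
  intro t
  rw [mem_U, mem_U, eg_aa]

theorem inc_pole (hX : ∀ i, (X i).IsGood) {i : C.I} {d : (X i).D}
    {b : Bool} (h : (X i).inc (Sum.inl d) = (X i).pole b) :
    (glue C.vinc X g).inc (Sum.inl ⟨i, d⟩) = Sum.inl (C.vinc (Sum.inl (i, b))) := by
  have hne : (X i).pole false ≠ (X i).pole true := (hX i).loop (Sum.inr true)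
  cases b
  · exact GlueLib.inc_false _ _ (fun h' => hne (h.symm.trans h')) h
  · exact GlueLib.inc_true _ _ h

/-- the vertex of a core dart -/
def cv (x : C.toB.T) : (glue C.vinc X g).V := Sum.inl (C.vinc x)

theorem cv_eq {x y : C.toB.T} (h : C.s.SameCycle x y) : cv C X g x = cv C X g y :=
  congrArg Sum.inl (Quotient.sound h)

theorem cv_inj {x y : C.toB.T} (h : cv C X g x = cv C X g y) : C.s.SameCycle x y :=
  Quotient.exact (Sum.inl.inj h)

theorem mem_two {V : Type*} [DecidableEq V] (x a b : V) :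
    x ∈ ({a, b} : Finset V) ↔ x = a ∨ x = b := by simp

/-- a dart of the glued network at a core dart -/
theorem dart (hX : ∀ i, (X i).IsGood) (x : C.toB.T) : ∃ t : (glue C.vinc X g).T,
    (glue C.vinc X g).inc t = cv C X g x ∧ eg C X g t = C.edge x := by
  rcases x with ⟨i, b⟩ | b
  · obtain ⟨d, hd⟩ := NetSer.exists_pole (hX i) b
    exact ⟨Sum.inl ⟨i, d⟩, inc_pole C X g hX hd, rfl⟩
  · exact ⟨Sum.inr b, rfl, rfl⟩

/-- shared vertices of a set of core edges -/
theorem sh_core (hX : ∀ i, (X i).IsGood) (J : Finset C.I) {S : Finset C.toB.T}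
    (hS : ∀ x, x ∈ S ↔ C.edge x ∈ J.map Function.Embedding.some) {t : C.toB.T}
    (ht : ShC C.s S t) : cv C X g t ∈ shV (glue C.vinc X g).inc (U C X g J) := by
  rw [mem_shV]
  obtain ⟨⟨x, hx, hx'⟩, y, hy, hy'⟩ := ht
  obtain ⟨u, hu1, hu2⟩ := dart C X g hX x
  obtain ⟨v, hv1, hv2⟩ := dart C X g hX y
  refine ⟨⟨u, ?_, ?_⟩, v, ?_, ?_⟩
  · rw [mem_U, hu2]
    exact (hS x).1 hx
  · rw [hu1]
    exact (cv_eq C X g hx').symm
  · rw [mem_U, hv2]
    exact fun h => hy ((hS y).2 h)
  · rw [hv1]
    exact (cv_eq C X g hy').symm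

theorem card_S (J : Finset C.I) :
    (univ.filter fun x : (C.I × Bool) ⊕ Bool =>
      C.edge x ∈ J.map Function.Embedding.some).card = 2 * J.card := by
  have : (univ.filter fun x : (C.I × Bool) ⊕ Bool =>
      C.edge x ∈ J.map Function.Embedding.some) =
      ((J ×ˢ (univ : Finset Bool)).map
        (Function.Embedding.inl : (C.I × Bool) ↪ (C.I × Bool) ⊕ Bool)) := by
    ext x
    rcases x with ⟨i, b⟩ | b
    · simp [Core.edge]
    · simp [Core.edge]
  rw [this, card_map, card_product]
  simp [mul_comm]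

theorem exists_S' (J : Finset C.I) : ∃ S : Finset ((C.I × Bool) ⊕ Bool), S.card = 2 * J.card ∧
    ∀ x, x ∈ S ↔ C.edge x ∈ J.map Function.Embedding.some :=
  ⟨_, card_S C J, fun x => by simp⟩

theorem exists_S (J : Finset C.I) : ∃ S : Finset C.toB.T, S.card = 2 * J.card ∧
    ∀ x, x ∈ S ↔ C.edge x ∈ J.map Function.Embedding.some := exists_S' C J

theorem card_three {V : Type*} [DecidableEq V] {x y z : V} {S : Finset V} (hx : x ∈ S)
    (hy : y ∈ S) (hz : z ∈ S) (h1 : x ≠ y) (h2 : x ≠ z) (h3 : y ≠ z) : 3 ≤ S.card := by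
  have h4 : ({x, y, z} : Finset V) ⊆ S := by
    intro w hw
    simp only [mem_insert, mem_singleton] at hw
    rcases hw with rfl | rfl | rfl <;> assumption
  have h5 := card_le_card h4
  rw [card_insert_of_notMem, card_insert_of_notMem, card_singleton] at h5
  · exact h5
  · simpa using h3
  · simp [h1, h2]

theorem three (hC : C.toB.IsGood) (hR : Rigid C.toB) (hX : ∀ i, (X i).IsGood) (J : Finset C.I)
    (h1 : 2 ≤ J.card) (h2 : J.card < Fintype.card C.I) :
    3 ≤ (shV (glue C.vinc X g).inc (U C X g J)).card := by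
  have hcardT : Fintype.card C.toB.T = 2 * Fintype.card C.I + 2 := by
    change Fintype.card ((C.I × Bool) ⊕ Bool) = _
    simp [Fintype.card_sum, Fintype.card_prod]
    ring
  obtain ⟨S, hcard, hmem⟩ := exists_S C J
  have hcl : Cl C.toB.aa S := by
    intro x
    refine (hmem _).trans (Iff.trans ?_ (hmem x).symm)
    rcases x with ⟨i, b⟩ | b
    · exact Iff.rfl
    · exact Iff.rfl
  obtain ⟨t, t', t'', a1, a2, a3, b1, b2, b3⟩ := Rg3.three_shared (a := C.toB.aa) (s := C.s) hC hR
    (A := S) hcl (by omega) (by omega)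
  exact card_three (sh_core C X g hX J hmem a1) (sh_core C X g hX J hmem a2)
    (sh_core C X g hX J hmem a3) (fun h => b1 (cv_inj C X g h)) (fun h => b2 (cv_inj C X g h))
    (fun h => b3 (cv_inj C X g h))

end GlueFour

open GlueFour

theorem gpart_cl (C : Core) (X : C.I → LNet Λ) (g : C.CV → Λ) (i : C.I) :
    Cl (glue C.vinc X g).aa (gpart C X g i) := by
  intro t
  rw [mem_gpart_eg, mem_gpart_eg, eg_aa]

/-- a part shares exactly its two attachment vertices with the rest -/
theorem gpart_shV (C : Core) (hC : C.toB.IsGood) (hR : Rigid C.toB) (X : C.I → LNet Λ)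
    (hX : ∀ i, (X i).IsGood) (g : C.CV → Λ) (i : C.I) :
    shV (glue C.vinc X g).inc (gpart C X g i) =
      {Sum.inl (C.vinc (Sum.inl (i, true))), Sum.inl (C.vinc (Sum.inl (i, false)))} := by
  ext x
  refine (mem_shV _).trans (Iff.trans ?_ (mem_two x _ _).symm)
  constructor
  · rintro ⟨⟨t, ht, htx⟩, t', ht', htx'⟩
    obtain ⟨d, rfl⟩ := (mem_gpart C X g).1 ht
    by_cases h1 : ∃ b, (X i).inc (Sum.inl d) = (X i).pole b
    · obtain ⟨b, hb⟩ := h1
      rw [inc_pole C X g hX hb] at htx
      cases b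
      · exact Or.inr htx.symm
      · exact Or.inl htx.symm
    · exfalso
      have h2 : ∀ b, (X i).inc (Sum.inl d) ≠ (X i).pole b := fun b hb => h1 ⟨b, hb⟩
      have h3 : (glue C.vinc X g).inc (Sum.inl ⟨i, d⟩) =
          Sum.inr ⟨i, ⟨(X i).inc (Sum.inl d), h2⟩⟩ :=
        GlueLib.inc_int _ _ (h2 true) (h2 false)
      rw [h3] at htx
      rw [← htx] at htx'
      rcases t' with ⟨j, e⟩ | b
      · have hj : j ≠ i := by
          rintro rfl
          exact ht' ((mem_gpart C X g).2 ⟨e, rfl⟩)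
        by_cases h4 : ∃ b, (X j).inc (Sum.inl e) = (X j).pole b
        · obtain ⟨b, hb⟩ := h4
          rw [inc_pole C X g hX hb] at htx'
          cases htx'
        · have h5 : ∀ b, (X j).inc (Sum.inl e) ≠ (X j).pole b := fun b hb => h4 ⟨b, hb⟩
          have h6 : (glue C.vinc X g).inc (Sum.inl ⟨j, e⟩) =
              Sum.inr ⟨j, ⟨(X j).inc (Sum.inl e), h5⟩⟩ :=
            GlueLib.inc_int _ _ (h5 true) (h5 false)
          rw [h6] at htx'
          exact hj (Sigma.mk.inj (Sum.inr.inj htx')).1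
      · have h4 : (glue C.vinc X g).inc (Sum.inr b) = Sum.inl (C.vinc (Sum.inr b)) := rfl
        rw [h4] at htx'
        cases htx'
  · have key : ∀ b, Sh (glue C.vinc X g).inc (gpart C X g i)
        (Sum.inl (C.vinc (Sum.inl (i, b)))) := by
      intro b
      obtain ⟨d, hd⟩ := NetSer.exists_pole (hX i) b
      refine ⟨⟨Sum.inl ⟨i, d⟩, (mem_gpart C X g).2 ⟨d, rfl⟩, inc_pole C X g hX hd⟩, ?_⟩
      obtain ⟨t, ht1, ht2⟩ := dart C X g hX (C.s (Sum.inl (i, b)))
      have hsc : C.s.SameCycle (Sum.inl (i, b)) (C.s (Sum.inl (i, b))) := ⟨1, by simp⟩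
      refine ⟨t, ?_, ?_⟩
      · rw [mem_gpart_eg, ht2]
        intro h
        rcases hx : C.s (Sum.inl (i, b)) with ⟨j, c⟩ | c
        · rw [hx] at h
          have hj : j = i := Option.some.inj h
          subst hj
          by_cases hcb : c = b
          · rw [hcb] at hx
            exact Good.s_ne hC (Sum.inl (j, b)) hx
          · have hcb' : c = !b := by
              cases b <;> cases c <;> simp_all
            rw [hx, hcb'] at hsc
            exact Good.noLoop hC (Sum.inl (j, b)) hsc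
        · rw [hx] at h
          cases h
      · rw [ht1]
        exact (cv_eq C X g hsc).symm
    rintro (rfl | rfl)
    · exact key true
    · exact key false

namespace GlueFour

variable (C : Core) (X : C.I → LNet Λ) (g : C.CV → Λ)

/-- the parts met by `A` -/
noncomputable def meets (A : Finset (glue C.vinc X g).T) : Finset C.I :=
  univ.filter fun i => ∃ t ∈ A, eg C X g t = some i

theorem mem_meets {A : Finset (glue C.vinc X g).T} {i : C.I} :
    i ∈ meets C X g A ↔ ∃ t ∈ A, eg C X g t = some i := by simp [meets]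

theorem ne_univ {A : Finset (glue C.vinc X g).T} (h : Sum.inr true ∉ A) : A ≠ univ :=
  fun h1 => h (h1 ▸ mem_univ _)

theorem inr_mem_iff {A : Finset (glue C.vinc X g).T} (hA : Cl (glue C.vinc X g).aa A)
    (hr : Sum.inr true ∉ A) (b : Bool) : Sum.inr b ∉ A := by
  cases b
  · intro h
    exact hr ((hA (Sum.inr true)).1 h)
  · exact hr

theorem two_le (hC : C.toB.IsGood) (hR : Rigid C.toB) (hX : ∀ i, (X i).IsGood)
    {A : Finset (glue C.vinc X g).T} (hA : Cl (glue C.vinc X g).aa A) (hne : A.Nonempty)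
    (hr : Sum.inr true ∉ A) : 2 ≤ (shV (glue C.vinc X g).inc A).card :=
  LNet.IsGood.two_le_shV (glue_rig_good C hC hR X hX g) hA hne (ne_univ C X g hr)

theorem gpart_le (hC : C.toB.IsGood) (hR : Rigid C.toB) (hX : ∀ i, (X i).IsGood) (i : C.I) :
    (shV (glue C.vinc X g).inc (gpart C X g i)).card ≤ 2 := by
  rw [gpart_shV C hC hR X hX g i]
  exact card_le_two

theorem inr_gpart (i : C.I) (b : Bool) : (Sum.inr b : (glue C.vinc X g).T) ∉ gpart C X g i := by
  rw [mem_gpart_eg]
  intro h
  cases h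

theorem union_le (hC : C.toB.IsGood) (hR : Rigid C.toB) (hX : ∀ i, (X i).IsGood)
    {A : Finset (glue C.vinc X g).T} (hA : Cl (glue C.vinc X g).aa A) (h2 : (shV (glue C.vinc X g).inc A).card ≤ 2) (K : Finset C.I)
    (hK : K ⊆ meets C X g A) :
    (shV (glue C.vinc X g).inc (A ∪ U C X g K)).card ≤ 2 := by
  induction K using Finset.induction_on with
  | empty =>
    have : U C X g (∅ : Finset C.I) = ∅ := by
      ext t
      rw [mem_U]; simp
    rw [this, union_empty]
    exact h2
  | insert i K hi ih =>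
    have ih := ih (fun x hx => hK (mem_insert_of_mem hx))
    have hi' : i ∈ meets C X g A := hK (mem_insert_self _ _)
    obtain ⟨t, ht, hti⟩ := (mem_meets C X g).1 hi'
    have hs : A ∪ U C X g (insert i K) = A ∪ U C X g K ∪ gpart C X g i := by
      ext x
      simp only [mem_union, mem_U, mem_gpart_eg, map_insert, mem_insert,
        Function.Embedding.some_apply]
      tauto
    have hclu : Cl (glue C.vinc X g).aa (A ∪ U C X g K) := hA.union (cl_U C X g K)
    have h3 := shV_inter_union (glue C.vinc X g).inc (A ∪ U C X g K) (gpart C X g i)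
    have h4 := gpart_le C X g hC hR hX i
    have h5 : 2 ≤ (shV (glue C.vinc X g).inc ((A ∪ U C X g K) ∩ gpart C X g i)).card := by
      refine two_le C X g hC hR hX (hclu.inter (gpart_cl C X g i)) ⟨t, ?_⟩ ?_
      · rw [mem_inter, mem_union, mem_gpart_eg]
        exact ⟨Or.inl ht, hti⟩
      · intro h
        exact inr_gpart C X g i true (mem_inter.1 h).2
    rw [hs]
    omega

theorem meets_card (hC : C.toB.IsGood) (hR : Rigid C.toB) (hX : ∀ i, (X i).IsGood)
    {A : Finset (glue C.vinc X g).T} (hA : Cl (glue C.vinc X g).aa A)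
    (hr : Sum.inr true ∉ A) (hne : A.Nonempty)
    (h2 : (shV (glue C.vinc X g).inc A).card ≤ 2) :
    (meets C X g A).card = 1 ∨ meets C X g A = univ := by
  have h := union_le C X g hC hR hX hA h2 _ (Subset.refl _)
  have hs : A ∪ U C X g (meets C X g A) = U C X g (meets C X g A) := by
    rw [union_eq_right]
    intro t ht
    rw [mem_U]
    rcases t with d | b
    · rw [mem_map]
      exact ⟨d.1, (mem_meets C X g).2 ⟨_, ht, rfl⟩, rfl⟩
    · exact absurd ht (inr_mem_iff C X g hA hr b)
  rw [hs] at h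
  have hJne : (meets C X g A).Nonempty := by
    obtain ⟨t, ht⟩ := hne
    rcases t with d | b
    · exact ⟨d.1, (mem_meets C X g).2 ⟨_, ht, rfl⟩⟩
    · exact absurd ht (inr_mem_iff C X g hA hr b)
  by_contra hcon
  push Not at hcon
  obtain ⟨h1, h2⟩ := hcon
  have h3 : 0 < (meets C X g A).card := card_pos.2 hJne
  have h4 : (meets C X g A).card < Fintype.card C.I := by
    rw [← card_univ]
    exact card_lt_card (ssubset_univ_iff.2 h2)
  have h5 := three C X g hC hR hX (meets C X g A) (by omega) h4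
  omega

end GlueFour

/-- Proof: as `comp_four`, with the number `κ` of shared vertices instead of the cut.
(1) Uncross `A` with the parts `P_i`, `i ∈ J := {i : A ∩ P_i ≠ ∅}` (`shV_inter_union`, `κ ≥ 2` for nonempty proper closed
sets): `κ (⋃_{i ∈ J} P_i) = 2`; the shared vertices of a union of parts are the shared vertices of the
corresponding set of core darts, so `Rg3.three_shared` for the core gives `|J| = 1` (then `A ⊆ P_i`), or `J` is
everything.  (2) If `J` is everything and some `P_i ⊄ A`, then `A \ P_i` is nonempty (there are `≥ 3` parts) and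
has `κ = 2` (`shV_sdiff`) and meets exactly the parts different from `i`: contradiction with (1). -/
theorem glue_four (C : Core) (hC : C.toB.IsGood) (hR : Rigid C.toB) (X : C.I → LNet Λ)
    (hX : ∀ i, (X i).IsGood) (g : C.CV → Λ) {A : Finset (glue C.vinc X g).T}
    (hA : Cl (glue C.vinc X g).aa A) (hr : Sum.inr true ∉ A) (hne : A.Nonempty)
    (h2 : (shV (glue C.vinc X g).inc A).card ≤ 2) (hu : ∃ d, Sum.inl d ∉ A) :
    ∃ i, A ⊆ gpart C X g i := by
  have hI := CompFour.card_I C hR
  rcases meets_card C X g hC hR hX hA hr hne h2 with h1 | h1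
  · obtain ⟨i, hi⟩ := card_eq_one.1 h1
    refine ⟨i, fun t ht => ?_⟩
    rw [mem_gpart_eg]
    rcases t with d | b
    · have h3 : d.1 ∈ meets C X g A := (mem_meets C X g).2 ⟨_, ht, rfl⟩
      rw [hi, mem_singleton] at h3
      rw [eg_inl, h3]
    · exact absurd ht (inr_mem_iff C X g hA hr b)
  · exfalso
    obtain ⟨⟨i, d⟩, hd⟩ := hu
    obtain ⟨j, hj⟩ : ∃ j, j ≠ i := by
      by_contra hcon
      push Not at hcon
      have : Fintype.card C.I ≤ 1 := by
        rw [Fintype.card_le_one_iff]
        intro x y; rw [hcon x, hcon y]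
      omega
    have hmem : ∀ j, j ≠ i → j ∈ meets C X g (A \ gpart C X g i) := by
      intro j hj
      have : j ∈ meets C X g A := by rw [h1]; exact mem_univ _
      obtain ⟨t, ht, htj⟩ := (mem_meets C X g).1 this
      refine (mem_meets C X g).2 ⟨t, ?_, htj⟩
      rw [mem_sdiff, mem_gpart_eg, htj]
      exact ⟨ht, by simpa using hj⟩
    have hnei : i ∉ meets C X g (A \ gpart C X g i) := by
      intro hmi
      obtain ⟨t, ht, hti⟩ := (mem_meets C X g).1 hmi
      rw [mem_sdiff, mem_gpart_eg] at ht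
      exact ht.2 hti
    have hne' : (A \ gpart C X g i).Nonempty := by
      obtain ⟨t, ht, _⟩ := (mem_meets C X g).1 (hmem j hj)
      exact ⟨t, ht⟩
    have hr' : Sum.inr true ∉ A \ gpart C X g i := fun h => hr (mem_sdiff.1 h).1
    have hcl := gpart_cl C X g i
    have h3 := shV_sdiff (glue C.vinc X g).inc A (gpart C X g i)
    have h4 := gpart_le C X g hC hR hX i
    have h5 : 2 ≤ (shV (glue C.vinc X g).inc (gpart C X g i \ A)).card := by
      refine two_le C X g hC hR hX (hcl.sdiff hA) ⟨Sum.inl ⟨i, d⟩, ?_⟩ ?_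
      · rw [mem_sdiff, mem_gpart_eg]
        exact ⟨rfl, hd⟩
      · intro h
        exact inr_gpart C X g i true (mem_sdiff.1 h).1
    rcases meets_card C X g hC hR hX (hA.sdiff hcl) hr' hne' (by omega) with h6 | h6
    · have h7 : (univ.erase i : Finset C.I) ⊆ meets C X g (A \ gpart C X g i) := by
        intro x hx
        exact hmem x (ne_of_mem_erase hx)
      have h8 := card_le_card h7
      rw [card_erase_of_mem (mem_univ _), card_univ, h6] at h8
      omega
    · rw [h6] at hnei
      exact hnei (mem_univ _)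

end PGr

end

section
/-! # Module GlueIso: isomorphic rigid composites have matching cores -/

set_option linter.unusedSectionVars false

namespace PGr
open Equiv Finset
open scoped Classical
universe u
variable {Λ : Type u}

namespace GlueIso

/-- the vertex of the glued network given by a vertex of the net `i` -/
noncomputable def emb {C : Core} (X : C.I → LNet Λ) (g : C.CV → Λ) (i : C.I) (v : (X i).V) :
    (glue C.vinc X g).V :=
  if h1 : v = (X i).pole true then Sum.inl (C.vinc (Sum.inl (i, true)))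
  else if h2 : v = (X i).pole false then Sum.inl (C.vinc (Sum.inl (i, false)))
  else Sum.inr ⟨i, ⟨v, by rintro (_ | _) <;> assumption⟩⟩

variable {C : Core} {X : C.I → LNet Λ} {g : C.CV → Λ}

theorem pole_ne (hX : ∀ i, (X i).IsGood) (i : C.I) : (X i).pole true ≠ (X i).pole false := by
  intro h
  exact (hX i).loop (Sum.inr true) h.symm

theorem emb_pole (hX : ∀ i, (X i).IsGood) (i : C.I) (b : Bool) :
    emb X g i ((X i).pole b) = Sum.inl (C.vinc (Sum.inl (i, b))) := by
  cases b
  · unfold emb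
    rw [dif_neg (pole_ne hX i).symm, dif_pos rfl]
  · unfold emb
    rw [dif_pos rfl]

theorem emb_int (i : C.I) (v : (X i).Int) : emb X g i v.1 = Sum.inr ⟨i, v⟩ := by
  unfold emb
  rw [dif_neg (v.2 true), dif_neg (v.2 false)]
  rfl

theorem emb_inc (i : C.I) (d : (X i).D) :
    emb X g i ((X i).inc (Sum.inl d)) = (glue C.vinc X g).inc (Sum.inl ⟨i, d⟩) := by
  by_cases h1 : (X i).inc (Sum.inl d) = (X i).pole true
  · unfold emb
    rw [dif_pos h1]
    exact (GlueLib.inc_true _ _ h1).symm
  · by_cases h2 : (X i).inc (Sum.inl d) = (X i).pole false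
    · unfold emb
      rw [dif_neg h1, dif_pos h2]
      exact (GlueLib.inc_false _ _ h1 h2).symm
    · unfold emb
      rw [dif_neg h1, dif_neg h2]
      exact (GlueLib.inc_int _ _ h1 h2).symm

/-- a vertex of a net is a pole or internal -/
theorem pole_or (i : C.I) (v : (X i).V) : (∃ b, v = (X i).pole b) ∨ ∀ b, v ≠ (X i).pole b := by
  by_cases h : ∃ b, v = (X i).pole b
  · exact Or.inl h
  · exact Or.inr fun b hb => h ⟨b, hb⟩

theorem emb_inj (hX : ∀ i, (X i).IsGood) (i : C.I)
    (hne : C.vinc (Sum.inl (i, true)) ≠ C.vinc (Sum.inl (i, false))) :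
    Function.Injective (emb X g i) := by
  have hb : ∀ b b', C.vinc (Sum.inl (i, b)) = C.vinc (Sum.inl (i, b')) → b = b' := by
    intro b b' h
    cases b <;> cases b'
    · rfl
    · exact absurd h.symm hne
    · exact absurd h hne
    · rfl
  intro v v' h
  rcases pole_or i v with ⟨b, rfl⟩ | hv
  · rcases pole_or i v' with ⟨b', rfl⟩ | hv'
    · rw [emb_pole hX, emb_pole hX] at h
      rw [hb b b' (Sum.inl.inj h)]
    · have h2 : emb X g i v' = _ := emb_int i ⟨v', hv'⟩
      rw [emb_pole hX, h2] at h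
      cases h
  · have h1 : emb X g i v = _ := emb_int i ⟨v, hv⟩
    rcases pole_or i v' with ⟨b', rfl⟩ | hv'
    · rw [emb_pole hX, h1] at h
      cases h
    · have h2 : emb X g i v' = _ := emb_int i ⟨v', hv'⟩
      rw [h1, h2] at h
      have h3 := eq_of_heq (Sigma.mk.inj (Sum.inr.inj h)).2
      exact congrArg Subtype.val h3

theorem mem_gpart {i j : C.I} {d : (X j).D} :
    (Sum.inl ⟨j, d⟩ : (glue C.vinc X g).T) ∈ gpart C X g i ↔ j = i := by
  unfold gpart
  rw [mem_filter]
  constructor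
  · rintro ⟨_, d', h⟩
    exact (Sigma.mk.inj (Sum.inl.inj h)).1
  · rintro rfl
    exact ⟨mem_univ _, d, rfl⟩

theorem not_mem_gpart {i : C.I} {b : Bool} :
    (Sum.inr b : (glue C.vinc X g).T) ∉ gpart C X g i := by
  unfold gpart
  rw [mem_filter]
  rintro ⟨_, d', h⟩
  cases h

theorem vinc_ne (hC : C.toB.IsGood) (hR : Rigid C.toB)
    (hX : ∀ i, (X i).IsGood) (g : C.CV → Λ) (i : C.I) :
    C.vinc (Sum.inl (i, true)) ≠ C.vinc (Sum.inl (i, false)) := by
  intro h
  obtain ⟨d⟩ := (hX i).ne
  have h1 := (glue_rig_good C hC hR X hX g).two_le_shV (gpart_cl C X g i)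
    ⟨Sum.inl ⟨i, d⟩, mem_gpart.2 rfl⟩ (fun hu => by
      have h2 : (Sum.inr true : (glue C.vinc X g).T) ∈ gpart C X g i := by
        rw [hu]
        exact mem_univ _
      exact not_mem_gpart h2)
  obtain ⟨x, hx, y, hy, hxy⟩ := Finset.one_lt_card.1 h1
  rw [gpart_shV C hC hR X hX g i, h] at hx hy
  have hx' : x = Sum.inl (C.vinc (Sum.inl (i, false))) := by
    rcases Finset.mem_insert.1 hx with h2 | h2
    · exact h2
    · exact Finset.mem_singleton.1 h2
  have hy' : y = Sum.inl (C.vinc (Sum.inl (i, false))) := by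
    rcases Finset.mem_insert.1 hy with h2 | h2
    · exact h2
    · exact Finset.mem_singleton.1 h2
  exact hxy (hx'.trans hy'.symm)

theorem part {C' : Core} {X' : C'.I → LNet Λ} {g' : C'.CV → Λ} (hC : C.toB.IsGood)
    (hR : Rigid C.toB) (hC' : C'.toB.IsGood) (hR' : Rigid C'.toB) (hX : ∀ i, (X i).IsGood)
    (hX' : ∀ i, (X' i).IsGood)
    (e : (glue C.vinc X g).D ≃ (glue C'.vinc X' g').D)
    (f : (glue C.vinc X g).V ≃ (glue C'.vinc X' g').V)
    (h1 : ∀ d, e ((glue C.vinc X g).a d) = (glue C'.vinc X' g').a (e d))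
    (h2 : ∀ d, f ((glue C.vinc X g).inc (Sum.inl d)) = (glue C'.vinc X' g').inc (Sum.inl (e d)))
    (h3 : ∀ b, f ((glue C.vinc X g).pole b) = (glue C'.vinc X' g').pole b) (i : C.I) :
    ∃ i', ∀ d : (X i).D, (e ⟨i, d⟩).1 = i' := by
  have hcard := CompFour.card_I C hR
  obtain ⟨j, hj⟩ : ∃ j, j ≠ i := by
    have : Nontrivial C.I := by
      rw [← Fintype.one_lt_card_iff_nontrivial]
      omega
    exact exists_ne i
  have hcl := Cl_iso (GlueLib.dart e) (GlueLib.dart_aa h1) (gpart_cl C X g i)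
  have hsh := shV_map (glue C.vinc X g).inc (glue C'.vinc X' g').inc (GlueLib.dart e) f
    (GlueLib.dart_inc h2 h3) (gpart C X g i)
  obtain ⟨d0⟩ := (hX i).ne
  obtain ⟨dj⟩ := (hX j).ne
  have hmem : ∀ t : (glue C.vinc X g).T, GlueLib.dart e t ∈
      (gpart C X g i).map (GlueLib.dart e).toEmbedding ↔ t ∈ gpart C X g i :=
    fun t => CutIso.mem _ _ t
  obtain ⟨i', hi'⟩ := glue_four C' hC' hR' X' hX' g' hcl
    (fun h => not_mem_gpart ((hmem (Sum.inr true)).1 h))
    ⟨_, (hmem (Sum.inl ⟨i, d0⟩)).2 (mem_gpart.2 rfl)⟩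
    (by
      rw [hsh, card_map, gpart_shV C hC hR X hX g i]
      exact card_le_two)
    ⟨e ⟨j, dj⟩, fun h => hj (mem_gpart.1 ((hmem (Sum.inl ⟨j, dj⟩)).1 h))⟩
  refine ⟨i', fun d => ?_⟩
  have h4 := hi' ((hmem (Sum.inl ⟨i, d⟩)).2 (mem_gpart.2 rfl))
  exact mem_gpart.1 (show (Sum.inl ⟨(e ⟨i, d⟩).1, (e ⟨i, d⟩).2⟩ : (glue C'.vinc X' g').T) ∈
    gpart C' X' g' i' from h4)

/-- restriction of a bijection to the ranges of two injections -/
theorem exists_restrict {V W V' W' : Type*} (j : V → W) (j' : V' → W') (hj : Function.Injective j)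
    (hj' : Function.Injective j') (f : W ≃ W') (h1 : ∀ v, ∃ v', f (j v) = j' v')
    (h2 : ∀ v', ∃ v, f (j v) = j' v') : ∃ fi : V ≃ V', ∀ v, f (j v) = j' (fi v) := by
  choose φ hφ using h1
  refine ⟨Equiv.ofBijective φ ⟨?_, ?_⟩, hφ⟩
  · intro v v' h
    have h3 : f (j v) = f (j v') := by rw [hφ, hφ, h]
    exact hj (f.injective h3)
  · intro v'
    obtain ⟨v, hv⟩ := h2 v'
    exact ⟨v, hj' ((hφ v).symm.trans hv)⟩

/-- the bijection of the darts of a part -/
theorem exists_fibre {I I' : Type} {D : I → Type} {D' : I' → Type} (e : (Σ i, D i) ≃ (Σ i, D' i))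
    (π : I ≃ I') (h : ∀ i d, (e ⟨i, d⟩).1 = π i) (i : I) :
    ∃ ei : D i ≃ D' (π i), ∀ d, e ⟨i, d⟩ = ⟨π i, ei d⟩ := by
  obtain ⟨ei, hei⟩ := exists_restrict (fun d : D i => (⟨i, d⟩ : Σ i, D i))
    (fun d : D' (π i) => (⟨π i, d⟩ : Σ i, D' i)) sigma_mk_injective sigma_mk_injective e
    (fun d => by
      have h1 := h i d
      rcases he : e ⟨i, d⟩ with ⟨i', d'⟩
      rw [he] at h1
      obtain rfl : i' = π i := h1
      exact ⟨d', rfl⟩)
    (fun d' => by
      rcases he : e.symm ⟨π i, d'⟩ with ⟨k, d⟩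
      have h1 : e ⟨k, d⟩ = ⟨π i, d'⟩ := by rw [← he, Equiv.apply_symm_apply]
      have h2 := h k d
      rw [h1] at h2
      obtain rfl : i = k := π.injective h2
      exact ⟨d, h1⟩)
  exact ⟨ei, hei⟩

end GlueIso

open GlueIso

/-- Proof: let `(e, f)` be the isomorphism.  By `gpart_shV`, `shV_map` and `glue_four` (for both sides; there are at
least 3 parts, so a part is not everything) `e` maps each part `i` onto a part `i'`.  So `f` maps the two attachment
vertices of `i` to those of `i'`: there is a bit `c` with `f (att (i, b)) = att (i', xor c b)` (the attachment vertices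
of a part are different).  Put `ψ (inl (i, b)) = inl (i', xor c b)`, `ψ (inr b) = inr b`.  `vtx`: two core darts are at
the same vertex iff the vertices `Sum.inl (C.vinc _)` of the glued graph are equal.  `net`: restrict `e` to the
part (the vertices of a network are its poles and internal vertices, `surj`). -/
theorem glue_rig_iso (C C' : Core) (hC : C.toB.IsGood) (hR : Rigid C.toB) (hC' : C'.toB.IsGood)
    (hR' : Rigid C'.toB) (X : C.I → LNet Λ) (X' : C'.I → LNet Λ) (hX : ∀ i, (X i).IsGood)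
    (hX' : ∀ i, (X' i).IsGood) (g : C.CV → Λ) (g' : C'.CV → Λ)
    (h : NIso (glue C.vinc X g) (glue C'.vinc X' g')) :
    ∃ ψ : C.toB.T ≃ C'.toB.T, CMatch X X' g g' ψ := by
  obtain ⟨e, f, h1, h2, h3, h4⟩ := h
  have h1' : ∀ d, e.symm ((glue C'.vinc X' g').a d) = (glue C.vinc X g).a (e.symm d) := by
    intro d
    rw [Equiv.symm_apply_eq, h1, Equiv.apply_symm_apply]
  have h2' : ∀ d, f.symm ((glue C'.vinc X' g').inc (Sum.inl d)) =
      (glue C.vinc X g).inc (Sum.inl (e.symm d)) := by
    intro d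
    rw [Equiv.symm_apply_eq, h2, Equiv.apply_symm_apply]
  have h3' : ∀ b, f.symm ((glue C'.vinc X' g').pole b) = (glue C.vinc X g).pole b := by
    intro b
    rw [Equiv.symm_apply_eq, h3]
  choose π hπ using part hC hR hC' hR' hX hX' e f h1 h2 h3
  choose π' hπ' using part hC' hR' hC hR hX' hX e.symm f.symm h1' h2' h3'
  have hl : ∀ i, π' (π i) = i := by
    intro i
    obtain ⟨d⟩ := (hX i).ne
    have h5 := hπ i d
    rcases he : e ⟨i, d⟩ with ⟨i', d'⟩
    rw [he] at h5
    subst h5
    have h6 := hπ' _ d'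
    rw [← he, Equiv.symm_apply_apply] at h6
    exact h6.symm
  have hr : ∀ i', π (π' i') = i' := by
    intro i'
    obtain ⟨d'⟩ := (hX' i').ne
    have h5 := hπ' i' d'
    rcases he : e.symm ⟨i', d'⟩ with ⟨i, d⟩
    rw [he] at h5
    subst h5
    have h6 := hπ _ d
    rw [← he, Equiv.apply_symm_apply] at h6
    exact h6.symm
  set P : C.I ≃ C'.I := ⟨π, π', hl, hr⟩ with hP
  have hpart : ∀ i, (gpart C X g i).map (GlueLib.dart e).toEmbedding = gpart C' X' g' (P i) := by
    intro i
    ext t'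
    obtain ⟨t, rfl⟩ := (GlueLib.dart e).surjective t'
    rw [CutIso.mem]
    rcases t with ⟨j, d⟩ | b
    · have h5 : (Sum.inl (e ⟨j, d⟩) : (glue C'.vinc X' g').T) ∈ gpart C' X' g' (P i) ↔
          (e ⟨j, d⟩).1 = P i :=
        mem_gpart (i := P i) (j := (e ⟨j, d⟩).1) (d := (e ⟨j, d⟩).2)
      have h6 : (e ⟨j, d⟩).1 = P j := hπ j d
      rw [h6, P.injective.eq_iff] at h5
      exact mem_gpart.trans h5.symm
    · exact ⟨fun h => absurd h not_mem_gpart, fun h => absurd h not_mem_gpart⟩
  have hatt : ∀ i, ∃ c : Bool, ∀ b, f (Sum.inl (C.vinc (Sum.inl (i, b)))) =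
      Sum.inl (C'.vinc (Sum.inl (P i, xor c b))) := by
    intro i
    have hsh := shV_map (glue C.vinc X g).inc (glue C'.vinc X' g').inc (GlueLib.dart e) f
      (GlueLib.dart_inc h2 h3) (gpart C X g i)
    rw [hpart, gpart_shV C' hC' hR' X' hX' g' (P i)] at hsh
    have hm : ∀ b, f (Sum.inl (C.vinc (Sum.inl (i, b)))) =
        Sum.inl (C'.vinc (Sum.inl (P i, true))) ∨ f (Sum.inl (C.vinc (Sum.inl (i, b)))) =
        Sum.inl (C'.vinc (Sum.inl (P i, false))) := by
      intro b
      have h5 : (Sum.inl (C.vinc (Sum.inl (i, b))) : (glue C.vinc X g).V) ∈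
          shV (glue C.vinc X g).inc (gpart C X g i) := by
        rw [gpart_shV C hC hR X hX g i]
        cases b
        · exact Finset.mem_insert.2 (Or.inr (Finset.mem_singleton.2 rfl))
        · exact Finset.mem_insert.2 (Or.inl rfl)
      have h6 := Finset.mem_map_of_mem f.toEmbedding h5
      rw [← hsh] at h6
      rcases Finset.mem_insert.1 h6 with h7 | h7
      · exact Or.inl h7
      · exact Or.inr (Finset.mem_singleton.1 h7)
    have hne : f (Sum.inl (C.vinc (Sum.inl (i, true)))) ≠
        f (Sum.inl (C.vinc (Sum.inl (i, false)))) := fun h5 =>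
      vinc_ne hC hR hX g i (Sum.inl.inj (f.injective h5))
    rcases hm true with ht | ht <;> rcases hm false with hf | hf
    · exact absurd (ht.trans hf.symm) hne
    · refine ⟨false, ?_⟩
      rintro (_ | _)
      · exact hf
      · exact ht
    · refine ⟨true, ?_⟩
      rintro (_ | _)
      · exact hf
      · exact ht
    · exact absurd (ht.trans hf.symm) hne
  choose c hc using hatt
  have hxx : ∀ c b : Bool, xor c (xor c b) = b := by
    intro c b
    cases c <;> cases b <;> rfl
  set ψ : C.toB.T ≃ C'.toB.T :=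
    { toFun := fun t => match t with
        | Sum.inl (i, b) => Sum.inl (P i, xor (c i) b)
        | Sum.inr b => Sum.inr b
      invFun := fun t => match t with
        | Sum.inl (i, b) => Sum.inl (P.symm i, xor (c (P.symm i)) b)
        | Sum.inr b => Sum.inr b
      left_inv := by
        rintro (⟨i, b⟩ | b)
        · show (Sum.inl (P.symm (P i), xor (c (P.symm (P i))) (xor (c i) b)) : C.toB.T) =
            Sum.inl (i, b)
          rw [Equiv.symm_apply_apply, hxx]
          rfl
        · rfl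
      right_inv := by
        rintro (⟨i, b⟩ | b)
        · show (Sum.inl (P (P.symm i), xor (c (P.symm i)) (xor (c (P.symm i)) b)) : C'.toB.T) =
            Sum.inl (i, b)
          rw [Equiv.apply_symm_apply, hxx]
          rfl
        · rfl } with hψ
  have hψl : ∀ i b, ψ (Sum.inl (i, b)) = Sum.inl (P i, xor (c i) b) := fun _ _ => rfl
  have hψr : ∀ b, ψ (Sum.inr b) = Sum.inr b := fun _ => rfl
  have hF : ∀ t : C.toB.T, f (Sum.inl (C.vinc t)) = Sum.inl (C'.vinc (ψ t)) := by
    rintro (⟨i, b⟩ | b)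
    · exact hc i b
    · exact h3 b
  refine ⟨ψ, ⟨?_, hψr, ?_, ?_, ?_⟩⟩
  · rintro (⟨i, b⟩ | b)
    · show (Sum.inl (P i, xor (c i) (!b)) : C'.toB.T) = Sum.inl (P i, !(xor (c i) b))
      cases c i <;> cases b <;> rfl
    · rfl
  · intro t t'
    have h5 : C.s.SameCycle t t' ↔ C.vinc t = C.vinc t' :=
      ⟨fun h => Quotient.sound h, fun h => Quotient.exact h⟩
    have h6 : C'.s.SameCycle (ψ t) (ψ t') ↔ C'.vinc (ψ t) = C'.vinc (ψ t') :=
      ⟨fun h => Quotient.sound h, fun h => Quotient.exact h⟩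
    rw [h5, h6]
    constructor
    · intro h7
      have h8 := hF t
      rw [h7, hF t'] at h8
      exact (Sum.inl.inj h8).symm
    · intro h7
      have h8 := hF t
      rw [h7, ← hF t'] at h8
      exact Sum.inl.inj (f.injective h8)
  · intro i b i' b' hb
    rw [hψl] at hb
    have hb1 := Sum.inl.inj hb
    obtain rfl : P i = i' := congrArg Prod.fst hb1
    obtain rfl : xor (c i) b = b' := congrArg Prod.snd hb1
    have hcb : xor b (xor (c i) b) = c i := by
      cases c i <;> cases b <;> rfl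
    rw [hcb]
    obtain ⟨ei, hei⟩ := exists_fibre (D := fun i => (X i).D) (D' := fun i => (X' i).D) e P
      (fun i d => hπ i d) i
    have hemb : ∀ d, f (emb X g i ((X i).inc (Sum.inl d))) =
        emb X' g' (P i) ((X' (P i)).inc (Sum.inl (ei d))) := by
      intro d
      exact (congrArg f (emb_inc i d)).trans ((h2 ⟨i, d⟩).trans ((congrArg
        (fun z => (glue C'.vinc X' g').inc (Sum.inl z)) (hei d)).trans (emb_inc (P i) (ei d)).symm))
    have hembp : ∀ b, f (emb X g i ((X i).pole b)) =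
        emb X' g' (P i) ((X' (P i)).pole (xor (c i) b)) := by
      intro b
      rw [emb_pole hX, emb_pole hX', hc]
    have hinj := emb_inj (g := g) hX i (vinc_ne hC hR hX g i)
    have hinj' := emb_inj (g := g') hX' (P i) (vinc_ne hC' hR' hX' g' (P i))
    obtain ⟨fi, hfi⟩ := exists_restrict (emb X g i) (emb X' g' (P i)) hinj hinj' f
      (fun v => by
        obtain ⟨t, rfl⟩ := (hX i).surj v
        rcases t with d | b
        · exact ⟨_, hemb d⟩
        · exact ⟨_, hembp b⟩)
      (fun v' => by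
        obtain ⟨t, rfl⟩ := (hX' (P i)).surj v'
        rcases t with d | b
        · refine ⟨(X i).inc (Sum.inl (ei.symm d)), ?_⟩
          rw [hemb, Equiv.apply_symm_apply]
        · refine ⟨(X i).pole (xor (c i) b), ?_⟩
          rw [hembp, hxx]
          rfl)
    refine ⟨ei, fi, ?_, ?_, ?_, ?_⟩
    · intro d
      have h5 := h1 ⟨i, d⟩
      have h7 : (⟨P i, ei ((X i).a d)⟩ : Σ i, (X' i).D) = ⟨P i, (X' (P i)).a (ei d)⟩ :=
        (hei ((X i).a d)).symm.trans (h5.trans (congrArg (glue C'.vinc X' g').a (hei d)))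
      exact eq_of_heq (Sigma.mk.inj h7).2
    · intro d
      apply hinj'
      exact (hfi _).symm.trans (hemb d)
    · intro b
      apply hinj'
      exact (hfi _).symm.trans (hembp b)
    · intro x hx
      have hx' : ∀ b, fi x ≠ (X' (P i)).pole b := by
        intro b hb2
        refine hx (xor (c i) b) ?_
        apply hinj
        apply f.injective
        rw [hfi, hb2, hembp, hxx]
      have h5 := hfi x
      have h6 : emb X g i x = _ := emb_int i ⟨x, hx⟩
      have h7 : emb X' g' (P i) (fi x) = _ := emb_int (P i) ⟨fi x, hx'⟩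
      rw [h6, h7] at h5
      have h8 := h4 (Sum.inr ⟨i, ⟨x, hx⟩⟩) (fun b hb2 => by cases hb2)
      rw [h5] at h8
      exact h8
  · intro t ht
    have h5 := h4 (Sum.inl (C.vinc t)) (fun b hb => ht b (Sum.inl.inj hb))
    rw [hF] at h5
    exact h5

end PGr

end

section
/-! # Module GlueX: they are neither parallel nor series networks -/

set_option linter.unusedSectionVars false

namespace PGr
open Equiv Finset
universe u
variable {Λ : Type u}

namespace GlueX

theorem ne_pole {N : LNet Λ} (h : N.IsGood) {b b' : Bool} (hb : N.pole b = N.pole b') : b = b' := by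
  have h1 : N.pole false ≠ N.pole true := h.loop (Sum.inr true)
  cases b <;> cases b'
  · rfl
  · exact absurd hb h1
  · exact absurd hb.symm h1
  · rfl

theorem at_pole (C : Core) (X : C.I → LNet Λ) (hX : ∀ i, (X i).IsGood) {i : C.I} {d : (X i).D}
    {v : C.CV} (h : glueInc C.vinc X (Sum.inl ⟨i, d⟩) = Sum.inl v) :
    ∃ b, v = C.vinc (Sum.inl (i, b)) := by
  by_cases h1 : ∃ b, (X i).inc (Sum.inl d) = (X i).pole b
  · obtain ⟨b, hb⟩ := h1
    refine ⟨b, ?_⟩
    cases b
    · have h2 : glueInc C.vinc X (Sum.inl ⟨i, d⟩) = Sum.inl (C.vinc (Sum.inl (i, false))) :=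
        GlueLib.inc_false _ _ (fun h' => by
          have := ne_pole (hX i) (hb.symm.trans h')
          cases this) hb
      exact (Sum.inl.inj (h2.symm.trans h)).symm
    · have h2 : glueInc C.vinc X (Sum.inl ⟨i, d⟩) = Sum.inl (C.vinc (Sum.inl (i, true))) :=
        GlueLib.inc_true _ _ hb
      exact (Sum.inl.inj (h2.symm.trans h)).symm
  · exfalso
    have h2 : ∀ b, (X i).inc (Sum.inl d) ≠ (X i).pole b := fun b hb => h1 ⟨b, hb⟩
    have h3 : glueInc C.vinc X (Sum.inl ⟨i, d⟩) = Sum.inr ⟨i, ⟨(X i).inc (Sum.inl d), h2⟩⟩ :=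
      GlueLib.inc_int _ _ (h2 true) (h2 false)
    rw [h3] at h
    cases h

/-- no net is attached at both ends of the root edge -/
theorem no_par (C : Core) (hC : C.toB.IsGood) (hR : Rigid C.toB) (X : C.I → LNet Λ)
    (hX : ∀ i, (X i).IsGood) {i : C.I} {d e : (X i).D}
    (h1 : glueInc C.vinc X (Sum.inl ⟨i, d⟩) = Sum.inl (C.vinc (Sum.inr true)))
    (h2 : glueInc C.vinc X (Sum.inl ⟨i, e⟩) = Sum.inl (C.vinc (Sum.inr false))) : False := by
  obtain ⟨b, hb⟩ := at_pole C X hX h1
  obtain ⟨b', hb'⟩ := at_pole C X hX h2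
  have g1 : C.s.SameCycle (Sum.inr true) (Sum.inl (i, b)) := Quotient.exact hb
  have g2 : C.s.SameCycle (Sum.inr false) (Sum.inl (i, b')) := Quotient.exact hb'
  have h5 : b' = !b := by
    by_contra hne
    have hbb : b' = b := by
      cases b <;> cases b' <;> simp_all
    rw [hbb] at g2
    exact Good.noLoop hC (Sum.inr true) (g1.trans g2.symm)
  rw [h5] at g2
  have h6 := Rg3.simple (a := C.toB.aa) (s := C.s) hC hR (x := Sum.inr true)
    (y := Sum.inl (i, b)) g1 g2
  cases h6

/-- sets of cut 4 in the glued network -/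
theorem four (C : Core) (hC : C.toB.IsGood) (hR : Rigid C.toB) (X : C.I → LNet Λ)
    (hX : ∀ i, (X i).IsGood) (g : C.CV → Λ) : ∃ s : Perm (glue C.vinc X g).T,
    (∀ t t', s.SameCycle t t' ↔ (glue C.vinc X g).inc t = (glue C.vinc X g).inc t') ∧
    Good (glue C.vinc X g).aa s ∧
    ∀ A : Finset (glue C.vinc X g).T, Cl (glue C.vinc X g).aa A → Sum.inr true ∉ A →
      A.Nonempty → cut s A = 4 →
      (∃ i, ∀ t ∈ A, ∃ d : (X i).D, t = Sum.inl ⟨i, d⟩) ∨ ∀ d, Sum.inl d ∈ A := by
  choose sr hsr hg using fun i => (hX i).rot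
  refine ⟨(comp C (netGB X sr hg)).s, fun t t' => comp_inc C X hX sr hsr hg g t t',
    comp_good C (netGB X sr hg) hC, ?_⟩
  intro A hA hr hne h4
  rcases comp_four C (netGB X sr hg) hC hR (A := A) hA hr hne h4 with ⟨i, hi⟩ | hu
  · left
    refine ⟨i, fun t ht => ?_⟩
    have h1 := (CompFour.mem_partSet C (netGB X sr hg) i t).1 (hi ht)
    rcases t with ⟨j, d⟩ | b
    · have h2 : j = i := Option.some.inj h1
      subst h2
      exact ⟨d, rfl⟩
    · cases h1
  · right
    intro d
    have h1 := (eq_univ_iff_forall.1 hu) (Sum.inl d)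
    rcases mem_union.1 h1 with h2 | h2
    · exact h2
    · obtain ⟨b, hb⟩ := CompFour.mem_root.1 h2
      cases hb

theorem conn_aux {N : LNet Λ} (good : N.IsGood) {s : Perm N.T}
    (hs : ∀ t t', s.SameCycle t t' ↔ N.inc t = N.inc t') (hg : Good N.aa s)
    (h4 : ∀ B : Finset N.T, Cl N.aa B → Sum.inr true ∉ B → B.Nonempty → cut s B = 4 →
      (∃ t ∈ B, N.pole true = N.inc t) → (∃ t ∈ B, N.pole false = N.inc t) → ∀ d, Sum.inl d ∈ B)
    (A : Finset N.D) (hA : Cl N.a A) (hne : A.Nonempty)
    (hint : ∀ x, Sh (fun d => N.inc (Sum.inl d)) A x → ∃ b, N.pole b = x) :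
    (∃ d ∈ A, N.inc (Sum.inl d) = N.pole true) ∧
    ∀ d, N.inc (Sum.inl d) = N.pole true → d ∈ A := by
  set A' : Finset N.T := A.map ⟨Sum.inl, Sum.inl_injective⟩ with hA'
  have hcl : Cl N.aa A' := SerCut.cl_map hA
  have hne' : A'.Nonempty := hne.map (f := ⟨Sum.inl, Sum.inl_injective⟩)
  have hnu : A' ≠ univ := fun h => by
    have h3 : (Sum.inr true : N.T) ∈ (univ : Finset N.T) := mem_univ _
    rw [← h] at h3
    exact SerCut.inr_notMem true h3
  have hpole : ∀ z, Sh N.inc A' z → (∃ d ∈ A, N.inc (Sum.inl d) = z) ∧ ∃ b, N.pole b = z := by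
    intro z hz
    obtain ⟨h1, h2⟩ := SerCut.sh_map hz
    refine ⟨h1, ?_⟩
    rcases h2 with h2 | h2
    · exact hint z ⟨h1, h2⟩
    · exact h2
  have hboth : ∃ d ∈ A, N.inc (Sum.inl d) = N.pole true := by
    obtain ⟨x, y, hxy, hx, hy⟩ := good.two A' hcl hne' hnu
    obtain ⟨hx1, b, hb⟩ := hpole x hx
    obtain ⟨hy1, c, hc⟩ := hpole y hy
    cases b
    · cases c
      · exact absurd (hb.symm.trans hc) hxy
      · rw [hc]; exact hy1
    · rw [hb]; exact hx1
  refine ⟨hboth, ?_⟩
  obtain ⟨d0, hd0, hd0p⟩ := hboth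
  obtain ⟨c, hc1, hc2, hc3⟩ := NetRig.leave (s := s) (A := A'ᶜ) (t := Sum.inr true)
    (t' := Sum.inl d0) ((hs _ _).2 hd0p.symm) (by
      rw [mem_compl]
      exact SerCut.inr_notMem true) (by
      rw [mem_compl, not_not]
      exact (SerCut.inl_mem d0).2 hd0)
  rw [mem_compl] at hc2
  rw [mem_compl, not_not] at hc3
  obtain ⟨B, hB1, hB2, hB3, hB4, hB5, hB6, x, hxB, hxq⟩ := hg.exists_four hcl
    (p := Sum.inr true) (q := Sum.inr false) (c := c) (by
      intro h
      exact good.loop (Sum.inr true) ((hs _ _).1 h).symm) (by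
      rintro t ⟨⟨y, hy, hty⟩, z, hz, htz⟩
      obtain ⟨-, b, hb⟩ := hpole (N.inc t) ⟨⟨y, hy, ((hs _ _).1 hty).symm⟩, z, hz,
        ((hs _ _).1 htz).symm⟩
      cases b
      · right; exact (hs _ _).2 hb
      · left; exact (hs _ _).2 hb) hc1 hc2 hc3
  have hrB : (Sum.inr true : N.T) ∉ B := fun h =>
    SerCut.inr_notMem true (hB5 (Sum.inr true) (Perm.SameCycle.refl _ _) h)
  have hsc : s.SameCycle (Sum.inr true) (s c) := hc1.trans ⟨1, by simp⟩
  have hall := h4 B hB1 hrB ⟨_, hB3⟩ hB2 ⟨_, hB3, (hs _ _).1 hsc⟩ ⟨_, hxB, (hs _ _).1 hxq⟩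
  intro d hd
  have h5 := hB5 (Sum.inl d) ((hs _ _).2 hd.symm) (hall d)
  exact (SerCut.inl_mem d).1 h5

theorem sh_compl' {T V : Type*} [Fintype T] [DecidableEq T] (inc : T → V) (A : Finset T) (x : V)
    (h : Sh inc Aᶜ x) : Sh inc A x := by
  obtain ⟨⟨t, ht, htx⟩, t', ht', htx'⟩ := h
  rw [mem_compl] at ht ht'
  rw [not_not] at ht'
  exact ⟨⟨t', ht', htx'⟩, t, ht, htx⟩

end GlueX

open GlueX

/-- Proof (with a rotation of the glued network from `comp_inc`).
`¬ Direct`: a direct edge is in some net `i` and joins its poles, so the core edge `i` is parallel to the root edge,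
`Rg3.simple`.
`Conn`: let `A` be closed, nonempty, not everything, sharing no internal vertex with the rest `B` of the
nonroot darts.  In the map, `A` shares with its complement only the poles `p, q`, so by `two_shared` both.  Let
`c ∉ A`, `s c ∈ A` be at `p`.  `exists_four`: a closed `B₁` with cut 4, `s c ∈ B₁`, darts at `p` only from `A`, so the
root edge is not in `B₁`.  `comp_four`: either `B₁` is contained in a part `i`, which then has darts at `p` and at
`q`, so the core edge `i` is parallel to the root edge, contradiction; or `B₁` contains all nonroot darts, so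
all nonroot darts at `p` are in `A`; but the same for `B` shows that all nonroot darts at `p` are in `B`. -/
theorem glue_rig_X (C : Core) (hC : C.toB.IsGood) (hR : Rigid C.toB) (X : C.I → LNet Λ)
    (hX : ∀ i, (X i).IsGood) (g : C.CV → Λ) : XNet (glue C.vinc X g) := by
  refine ⟨glue_rig_good C hC hR X hX g, ?_, ?_⟩
  · intro A hA hne hu
    by_contra hcon
    push Not at hcon
    have hint : ∀ x, Sh (fun d => (glue C.vinc X g).inc (Sum.inl d)) A x →
        ∃ b, (glue C.vinc X g).pole b = x := by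
      intro x hx
      by_contra h1
      exact hcon x (fun b hb => h1 ⟨b, hb.symm⟩) hx
    have hne' : (Aᶜ).Nonempty := by rwa [nonempty_iff_ne_empty, Ne, compl_eq_empty_iff]
    obtain ⟨s, hs, hg, h4⟩ := four C hC hR X hX g
    have h4' : ∀ B : Finset (glue C.vinc X g).T, Cl (glue C.vinc X g).aa B → Sum.inr true ∉ B →
        B.Nonempty → cut s B = 4 → (∃ t ∈ B, (glue C.vinc X g).pole true = (glue C.vinc X g).inc t) →
        (∃ t ∈ B, (glue C.vinc X g).pole false = (glue C.vinc X g).inc t) → ∀ d, Sum.inl d ∈ B := by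
      rintro B hB1 hrB hBne hB4 ⟨t, ht, htp⟩ ⟨t', ht', htp'⟩
      rcases h4 B hB1 hrB hBne hB4 with ⟨i, hi⟩ | hall
      · exfalso
        obtain ⟨d, rfl⟩ := hi _ ht
        obtain ⟨e, rfl⟩ := hi _ ht'
        exact no_par C hC hR X hX (i := i) (d := d) (e := e) htp.symm htp'.symm
      · exact hall
    have good := glue_rig_good C hC hR X hX g
    obtain ⟨⟨d, hd, hdp⟩, -⟩ := conn_aux good hs hg h4' A hA hne hint
    obtain ⟨-, h2⟩ := conn_aux good hs hg h4' Aᶜ hA.compl hne'
      (fun x hx => hint x (sh_compl' _ A x hx))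
    exact (mem_compl.1 (h2 d hdp)) hd
  · rintro ⟨⟨i, d⟩, h1, h2⟩
    exact no_par C hC hR X hX (i := i) (d := d) (e := (X i).a d) h1 h2

/-- Proof: for a set `A` as in `SerN`, `A` and the other nonroot darts have cut 4 (`ser_cut4`), so by `comp_four`
each is contained in one part, but there are at least 3 parts (`card_I` in `CompFour`). -/
theorem glue_rig_not_ser (C : Core) (hC : C.toB.IsGood) (hR : Rigid C.toB) (X : C.I → LNet Λ)
    (hX : ∀ i, (X i).IsGood) (g : C.CV → Λ) : ¬ SerN (glue C.vinc X g) := by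
  rintro ⟨A, hA, hne, hu, h1⟩
  have good := glue_rig_good C hC hR X hX g
  obtain ⟨s, hs, hg, h4⟩ := four C hC hR X hX g
  have hne' : (Aᶜ).Nonempty := by rwa [nonempty_iff_ne_empty, Ne, compl_eq_empty_iff]
  have hu' : Aᶜ ≠ univ := by
    intro h
    rw [compl_eq_univ_iff] at h
    exact hne.ne_empty h
  have c1 := ser_cut4 good hs hg hA hne hu h1
  have c2 := ser_cut4 good hs hg hA.compl hne' hu'
    (fun x y hx hy => h1 x y (sh_compl' _ A x hx) (sh_compl' _ A y hy))
  have p : ∀ B : Finset (glue C.vinc X g).D, Cl (glue C.vinc X g).a B → B.Nonempty → B ≠ univ →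
      cut s (B.map ⟨Sum.inl, Sum.inl_injective⟩) = 4 → ∃ i : C.I, ∀ d ∈ B, d.1 = i := by
    intro B hB hBne hBu hB4
    rcases h4 _ (SerCut.cl_map hB) (SerCut.inr_notMem true)
      (hBne.map (f := ⟨Sum.inl, Sum.inl_injective⟩)) hB4 with ⟨i, hi⟩ | hall
    · refine ⟨i, fun d hd => ?_⟩
      obtain ⟨e, he⟩ := hi (Sum.inl d) ((SerCut.inl_mem d).2 hd)
      have h5 : d = ⟨i, e⟩ := Sum.inl.inj he
      rw [h5]
    · exfalso
      apply hBu
      rw [eq_univ_iff_forall]
      intro d
      exact (SerCut.inl_mem d).1 (hall d)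
  obtain ⟨i, hi⟩ := p A hA hne hu c1
  obtain ⟨j, hj⟩ := p Aᶜ hA.compl hne' hu' c2
  have h3 := CompFour.card_I C hR
  obtain ⟨k, hk⟩ : ∃ k, k ≠ i ∧ k ≠ j := by
    by_contra hcon
    push Not at hcon
    have h1 : (univ : Finset C.I) ⊆ {i, j} := by
      intro x _
      rw [mem_insert, mem_singleton]
      by_cases hx : x = i
      · exact Or.inl hx
      · exact Or.inr (hcon x hx)
    have h2 := card_le_card h1
    rw [card_univ] at h2
    have h3 : ({i, j} : Finset C.I).card ≤ 2 := card_insert_le _ _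
    omega
  obtain ⟨d⟩ := (hX k).ne
  by_cases hd : (⟨k, d⟩ : Σ i, (X i).D) ∈ A
  · exact hk.1 (hi _ hd)
  · exact hk.2 (hj _ (mem_compl.2 hd))

end PGr

end

section
/-! # Module Codes: at most two codes for a rigid network -/

set_option linter.unusedSectionVars false

namespace PGr
open Equiv Finset
open scoped ENNReal Classical
universe u
variable {Λ : Type u}
open NetSumC

/-- extend a labelling of the internal vertices -/
noncomputable def gx [Nonempty Λ] {C : Core} (g : CInt C → Λ) : C.CV → Λ :=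
  fun x => if h : ∀ b, x ≠ C.vinc (Sum.inr b) then g ⟨x, h⟩ else Classical.arbitrary Λ

/-- the nets of a code -/
noncomputable def cX (p : Ix Λ) : (core p.1).I → LNet Λ := fun i => (p.2.1 i).rep.1

/-- the network of a code -/
noncomputable def cN [Nonempty Λ] (p : Ix Λ) : LNet Λ := glue (core p.1).vinc (cX p) (gx p.2.2)

private theorem cds_good (c : GC) : (core c).toB.IsGood := (core_iso c).symm.good c.rep.2

private theorem cds_rigid {c : GC} (h : Rigid c.rep.1) : Rigid (core c).toB :=
  (core_iso c).symm.rigid h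

theorem cN_good [Nonempty Λ] (p : Ix Λ) (h : Rigid p.1.rep.1) : (cN p).IsGood :=
  glue_rig_good (core p.1) (cds_good p.1) (cds_rigid h) (cX p) (fun i => (p.2.1 i).rep.2) _

theorem cN_X [Nonempty Λ] (p : Ix Λ) (h : Rigid p.1.rep.1) : XNet (cN p) ∧ ¬ SerN (cN p) :=
  ⟨glue_rig_X (core p.1) (cds_good p.1) (cds_rigid h) (cX p) (fun i => (p.2.1 i).rep.2) _,
    glue_rig_not_ser (core p.1) (cds_good p.1) (cds_rigid h) (cX p)
      (fun i => (p.2.1 i).rep.2) _⟩

private theorem cds_same [Nonempty Λ] (c : GC) (q q' : ((core c).I → NC Λ) × (CInt (core c) → Λ))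
    {ψ : (core c).toB.T ≃ (core c).toB.T}
    (hm : CMatch (cX ⟨c, q⟩) (cX ⟨c, q'⟩) (gx q.2) (gx q'.2) ψ)
    (hs : ∀ t, ψ ((core c).s t) = (core c).s (ψ t)) : q = q' := by
  have hψ : ψ = Equiv.refl _ := by
    refine iso_unique (cds_good c) (Sum.inr true) ψ (Equiv.refl _) hm.aa hs (fun _ => rfl)
      (fun _ => rfl) ?_
    rw [hm.root]
    rfl
  subst hψ
  refine Prod.ext ?_ ?_
  · funext i
    have h1 := hm.net i false i false rfl
    exact eq_of_rep (h1.trans (fl_false _))
  · funext x
    obtain ⟨x, hx⟩ := x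
    obtain ⟨t, rfl⟩ := Quotient.exists_rep x
    have h1 := hm.lab t hx
    have h2 : gx q.2 ((core c).vinc t) = q.2 ⟨Quotient.mk _ t, hx⟩ := dif_pos hx
    have h3 : gx q'.2 ((core c).vinc t) = q'.2 ⟨Quotient.mk _ t, hx⟩ := dif_pos hx
    rw [← h2, ← h3]
    exact h1.symm

/-- an isomorphism of codes is an equality: the cores are isomorphic rooted maps, so the classes are
equal; then the isomorphism is the identity by `iso_unique` -/
theorem code_eq [Nonempty Λ] (p p' : Ix Λ) (h : Rigid p.1.rep.1) (h' : Rigid p'.1.rep.1)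
    {ψ : (core p.1).toB.T ≃ (core p'.1).toB.T}
    (hm : CMatch (cX p) (cX p') (gx p.2.2) (gx p'.2.2) ψ)
    (hs : ∀ t, ψ ((core p.1).s t) = (core p'.1).s (ψ t)) : p = p' := by
  obtain ⟨c, q⟩ := p
  obtain ⟨c', q'⟩ := p'
  have hB : BIso (core c).toB (core c').toB := ⟨ψ, hm.aa, hs, hm.root true⟩
  have hB' : BIso c.rep.1 c'.rep.1 := ((core_iso c).symm.trans hB).trans (core_iso c')
  have hc : c = c' := by
    have h1 : Quotient.mk bSetoid c.rep = Quotient.mk bSetoid c'.rep := Quotient.sound hB'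
    rwa [Quotient.out_eq, Quotient.out_eq] at h1
  subst hc
  exact congrArg (Sigma.mk c) (cds_same c q q' hm hs)

/-- three codes of isomorphic networks are not pairwise different: `glue_rig_iso`, `CMatch.iso_or`, and the
composition of two reflections is an isomorphism -/
theorem three_codes [Nonempty Λ] (p p' p'' : Ix Λ) (h : Rigid p.1.rep.1) (h' : Rigid p'.1.rep.1)
    (h'' : Rigid p''.1.rep.1) (h1 : NIso (cN p) (cN p')) (h2 : NIso (cN p) (cN p'')) :
    p = p' ∨ p = p'' ∨ p' = p'' := by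
  obtain ⟨ψ, hm⟩ := glue_rig_iso (core p.1) (core p'.1) (cds_good p.1) (cds_rigid h)
    (cds_good p'.1) (cds_rigid h') (cX p) (cX p') (fun i => (p.2.1 i).rep.2)
    (fun i => (p'.2.1 i).rep.2) _ _ h1
  obtain ⟨ψ', hm'⟩ := glue_rig_iso (core p.1) (core p''.1) (cds_good p.1) (cds_rigid h)
    (cds_good p''.1) (cds_rigid h'') (cX p) (cX p'') (fun i => (p.2.1 i).rep.2)
    (fun i => (p''.2.1 i).rep.2) _ _ h2
  rcases hm.iso_or (cds_good p.1) (cds_rigid h) (cds_good p'.1) with hs | hs
  · exact Or.inl (code_eq p p' h h' hm hs)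
  rcases hm'.iso_or (cds_good p.1) (cds_rigid h) (cds_good p''.1) with hs' | hs'
  · exact Or.inr (Or.inl (code_eq p p'' h h'' hm' hs'))
  refine Or.inr (Or.inr (code_eq p' p'' h' h'' (hm.symm.trans hm') fun t => ?_))
  rw [Equiv.trans_apply, Equiv.trans_apply]
  obtain ⟨u, rfl⟩ : ∃ u, ψ ((core p.1).s u) = t :=
    ⟨(core p.1).s.symm (ψ.symm t), by rw [Equiv.apply_symm_apply, Equiv.apply_symm_apply]⟩
  rw [Equiv.symm_apply_apply, hs u]
  have e1 : (core p'.1).s ((core p'.1).s⁻¹ (ψ u)) = ψ u :=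
    Equiv.apply_symm_apply (core p'.1).s (ψ u)
  rw [e1, Equiv.symm_apply_apply, hs' u]
  exact (Equiv.apply_symm_apply (core p''.1).s (ψ' u)).symm

end PGr

end

section
/-! # Module RgTwo: the generating function of rigid networks is at least one half of `Rg` -/

set_option linter.unusedSectionVars false

namespace PGr
open Equiv Finset
open scoped ENNReal Classical
universe u
variable {Λ : Type u}
open NetSumC

/-- a map which is at most two-to-one on the support.  Proof: sum over the fibres (`ENNReal.tsum_comm`,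
or bound finite sums): every fibre contains at most two elements of the support. -/
theorem tsum_le_two {α β : Type*} {f : α → ℝ≥0∞} {g : β → ℝ≥0∞} (φ : α → β)
    (h3 : ∀ x y z, f x ≠ 0 → f y ≠ 0 → f z ≠ 0 → φ x = φ y → φ x = φ z → x = y ∨ x = z ∨ y = z)
    (h : ∀ x, f x ≠ 0 → f x ≤ g (φ x)) : ∑' x, f x ≤ 2 * ∑' y, g y := by
  rw [ENNReal.tsum_eq_iSup_sum]
  refine iSup_le fun s => ?_
  rw [← Finset.sum_filter_ne_zero s]
  calc ∑ x ∈ s.filter (fun x => f x ≠ 0), f x
      ≤ ∑ x ∈ s.filter (fun x => f x ≠ 0), g (φ x) :=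
        Finset.sum_le_sum fun x hx => h x (mem_filter.1 hx).2
    _ = ∑ b ∈ (s.filter (fun x => f x ≠ 0)).image φ,
          ((s.filter (fun x => f x ≠ 0)).filter fun a => φ a = b).card • g b :=
        Finset.sum_comp g φ
    _ ≤ ∑ b ∈ (s.filter (fun x => f x ≠ 0)).image φ, 2 * g b := by
        refine Finset.sum_le_sum fun b _ => ?_
        rw [nsmul_eq_mul]
        refine mul_le_mul' ?_ le_rfl
        have hc : ((s.filter (fun x => f x ≠ 0)).filter fun a => φ a = b).card ≤ 2 := by
          by_contra hc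
          rw [not_le, Finset.two_lt_card] at hc
          obtain ⟨x, hx, y, hy, z, hz, hxy, hxz, hyz⟩ := hc
          rw [mem_filter, mem_filter] at hx hy hz
          rcases h3 x y z hx.1.2 hy.1.2 hz.1.2 (hx.2.trans hy.2.symm) (hx.2.trans hz.2.symm)
            with h4 | h4 | h4
          · exact hxy h4
          · exact hxz h4
          · exact hyz h4
        exact_mod_cast hc
    _ = 2 * ∑ b ∈ (s.filter (fun x => f x ≠ 0)).image φ, g b := (Finset.mul_sum _ _ _).symm
    _ ≤ 2 * ∑' y, g y := mul_le_mul' le_rfl (ENNReal.sum_le_tsum _)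

/-- the weights of the codes -/
noncomputable def RgTwo_pw (w : Λ → ℝ≥0∞) (p : Ix Λ) : ℝ≥0∞ :=
  if Rigid p.1.rep.1 then
    (∏ i, wt w (p.2.1 i).rep.1) * ∏ x : CInt (core p.1), w (p.2.2 x)
  else 0

theorem RgTwo_pole (c : GC) : (core c).vinc (Sum.inr true) ≠ (core c).vinc (Sum.inr false) := by
  intro h
  have h1 : (core c).toB.IsGood := (core_iso c).symm.good c.rep.2
  exact Good.noLoop h1 (Sum.inr true) (Quotient.exact h)

theorem RgTwo_sum (w : Λ → ℝ≥0∞) (c : GC) :
    (∑' q : ((core c).I → NC Λ) × (CInt (core c) → Λ), RgTwo_pw w ⟨c, q⟩) =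
      if Rigid c.rep.1 then (∑' l, w l) ^ (nV c.rep.1.s - 2) *
        (Nsel w fun _ => True) ^ (Fintype.card c.rep.1.D / 2) else 0 := by
  by_cases hc : Rigid c.rep.1
  · rw [if_pos hc]
    have h1 : ∀ q : ((core c).I → NC Λ) × (CInt (core c) → Λ), RgTwo_pw w ⟨c, q⟩ =
        (∏ i, wt w (q.1 i).rep.1) *
          ∏ x : CInt (core c), w (q.2 x) := fun q => by unfold RgTwo_pw; rw [if_pos hc]
    simp_rw [h1]
    rw [← tsum_prod_mul (fun f : (core c).I → NC Λ => ∏ i, wt w (f i).rep.1)
      (fun g : CInt (core c) → Λ => ∏ x, w (g x)),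
      ← prod_tsum (fun (_ : (core c).I) (d : NC Λ) => wt w d.rep.1),
      ← prod_tsum (fun (_ : CInt (core c)) (l : Λ) => w l), prod_const, prod_const, card_univ,
      card_univ, card_CInt (RgTwo_pole c), mul_comm]
    have h2 : Fintype.card c.rep.1.D / 2 = Fintype.card (core c).I := by
      rw [← (core_iso c).card_eq]
      have : Fintype.card (core c).toB.D = Fintype.card (core c).I * 2 := by
        show Fintype.card ((core c).I × Bool) = _
        rw [Fintype.card_prod, Fintype.card_bool]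
      rw [this]
      simp
    have h3 : nV (core c).s = nV c.rep.1.s := (core_iso c).nV_eq
    have h4 : (Nsel w fun _ => True) = ∑' d : NC Λ, wt w d.rep.1 := by
      unfold Nsel
      refine tsum_congr fun d => ?_
      rw [if_pos trivial]
    rw [h2, ← h3, h4]
  · have h1 : ∀ q : ((core c).I → NC Λ) × (CInt (core c) → Λ), RgTwo_pw w ⟨c, q⟩ = 0 :=
      fun q => by unfold RgTwo_pw; rw [if_neg hc]
    simp_rw [h1]
    rw [if_neg hc]
    simp

theorem RgTwo_wt [Nonempty Λ] (w : Λ → ℝ≥0∞) (p : Ix Λ) (h : Rigid p.1.rep.1) :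
    wt w (cN p) = RgTwo_pw w p := by
  have h1 : wt w (cN p) = (∏ x : {x : (core p.1).CV // ∀ b, x ≠ (core p.1).vinc (Sum.inr b)},
      w (gx p.2.2 x.1)) * ∏ i, wt w (cX p i) := wt_glue w _ _ _
  rw [h1, RgTwo_pw, if_pos h, mul_comm]
  congr 1
  refine Finset.prod_congr rfl fun x _ => ?_
  have h2 : gx p.2.2 x.1 = p.2.2 x := dif_pos x.2
  rw [h2]

theorem RgTwo_X {N N' : LNet Λ} (h : NIso N N') (hN : XNet N ∧ ¬ SerN N) :
    XNet N' ∧ ¬ SerN N' :=
  ⟨⟨h.good hN.1.good, h.conn hN.1.conn, fun h1 => hN.1.dir (h.symm.direct h1)⟩,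
    fun h1 => hN.2 (h.symm.ser h1)⟩

/-- Proof: `Rg` is the sum over the codes `p` (as in `sum_pw_le` of `NetSumC`, with equalities) of the weight
`(∏ i, wt w (p.2.1 i).rep.1) * ∏ x, w (p.2.2 x)`, which is `wt w (cN p)` (`wt_glue`); map `p` to the class of `cN p`. -/
theorem rg_le_two [Nonempty Λ] (w : Λ → ℝ≥0∞) :
    Rg (∑' l, w l) (Nsel w (fun _ => True)) ≤ 2 * Nsel w (fun N => XNet N ∧ ¬ SerN N) := by
  have h1 : Rg (∑' l, w l) (Nsel w (fun _ => True)) = ∑' p : Ix Λ, RgTwo_pw w p := by
    rw [← tsum_sigma_eq (fun c q => RgTwo_pw w ⟨c, q⟩)]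
    unfold Rg
    refine tsum_congr fun c => ?_
    rw [RgTwo_sum]
  rw [h1]
  by_cases hne : ∃ p : Ix Λ, Rigid p.1.rep.1
  · obtain ⟨p0, hp0⟩ := hne
    set φ : Ix Λ → NC Λ := fun p => if h : Rigid p.1.rep.1 then cls (cN p) (cN_good p h)
      else cls (cN p0) (cN_good p0 hp0) with hφ
    have hrig : ∀ p : Ix Λ, RgTwo_pw w p ≠ 0 → Rigid p.1.rep.1 := by
      intro p hp
      by_contra hc
      exact hp (if_neg hc)
    have hval : ∀ p (h : Rigid p.1.rep.1), φ p = cls (cN p) (cN_good p h) := fun p h => dif_pos h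
    have hiso : ∀ p, Rigid p.1.rep.1 → NIso (φ p).rep.1 (cN p) := by
      intro p h
      rw [hval p h]
      exact cls_iso _ _
    unfold Nsel
    refine tsum_le_two φ ?_ ?_
    · intro x y z hx hy hz hxy hxz
      have h2 := hiso x (hrig x hx)
      have h3 := hiso y (hrig y hy)
      have h4 := hiso z (hrig z hz)
      rw [← hxy] at h3
      rw [← hxz] at h4
      exact three_codes x y z (hrig x hx) (hrig y hy) (hrig z hz) (h2.symm.trans h3)
        (h2.symm.trans h4)
    · intro p hp
      have h2 := hrig p hp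
      have h3 := hiso p h2
      rw [if_pos (RgTwo_X h3.symm (cN_X p h2)), h3.wt_eq, RgTwo_wt w p h2]
  · have h2 : ∀ p : Ix Λ, RgTwo_pw w p = 0 := fun p => if_neg fun h => hne ⟨p, h⟩
    simp [h2]

end PGr

end

section
/-!
# Networks: exchange of the poles on classes, parts, series composition of classes (definitions)
-/

set_option linter.unusedSectionVars false

namespace PGr
open Equiv Finset
open scoped ENNReal Classical
universe u
variable {Λ : Type u}
open NetSumC

/-- the exchange of the two root darts -/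
def flT (D : Type) : (D ⊕ Bool) ≃ (D ⊕ Bool) := Perm.sumCongr (Equiv.refl D) Equiv.boolNot

theorem flT_inc (N : LNet Λ) (t : N.T) : (LNet.fl true N).inc t = N.inc (flT N.D t) := by
  rcases t with d | b
  · rfl
  · cases b <;> rfl

theorem flT_aa (N : LNet Λ) (t : N.T) : flT N.D (N.aa t) = N.aa (flT N.D t) := by
  rcases t with d | b
  · rfl
  · cases b <;> rfl

theorem flT_flT (D : Type) (t : D ⊕ Bool) : flT D (flT D t) = t := by
  rcases t with d | b
  · rfl
  · cases b <;> rfl

theorem fl_good {N : LNet Λ} (h : N.IsGood) : (LNet.fl true N).IsGood where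
  inv := h.inv
  fpf := h.fpf
  ne := h.ne
  surj := by
    intro v
    obtain ⟨t, ht⟩ := h.surj v
    exact ⟨flT N.D t, by rw [flT_inc, flT_flT, ht]⟩
  loop := by
    intro t
    have h1 := h.loop (flT N.D t)
    rw [← flT_aa] at h1
    have h2 := flT_inc N ((LNet.fl true N).aa t)
    have h3 := flT_inc N t
    rw [h3, h2]
    exact h1
  simp := h.simp
  two := by
    intro A hA hne hu
    set B : Finset N.T := A.map (flT N.D).toEmbedding with hB
    have hmem : ∀ t, t ∈ B ↔ flT N.D t ∈ A := by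
      intro t
      rw [hB, Finset.mem_map]
      constructor
      · rintro ⟨y, hy, rfl⟩
        show flT N.D (flT N.D y) ∈ A
        rwa [flT_flT]
      · intro ht
        exact ⟨flT N.D t, ht, flT_flT _ _⟩
    have hBc : Cl N.aa B := by
      intro t
      rw [hmem, hmem, flT_aa]
      exact hA _
    have hBne : B.Nonempty := by
      obtain ⟨t, ht⟩ := hne
      exact ⟨flT N.D t, (hmem _).2 (by rwa [flT_flT])⟩
    have hBu : B ≠ univ := by
      intro he
      apply hu
      ext t
      simp only [mem_univ, iff_true]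
      have : flT N.D t ∈ B := by rw [he]; exact mem_univ _
      rw [hmem, flT_flT] at this
      exact this
    obtain ⟨x, y, hxy, hx, hy⟩ := h.two B hBc hBne hBu
    have key : ∀ z, Sh N.inc B z → Sh (LNet.fl true N).inc A z := by
      rintro z ⟨⟨t, ht, htz⟩, t', ht', htz'⟩
      refine ⟨⟨flT N.D t, (hmem t).1 ht, ?_⟩, flT N.D t', fun hc => ht' ((hmem t').2 hc), ?_⟩
      · rw [flT_inc, flT_flT, htz]
      · rw [flT_inc, flT_flT, htz']
    exact ⟨x, y, hxy, key x hx, key y hy⟩
  planar := by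
    obtain ⟨s, hs, hp⟩ := h.planar
    set E : Perm (N.D ⊕ Bool) := flT N.D with hE
    have hEE : ∀ t, E (E t) = t := flT_flT N.D
    have hEi : ∀ t, E⁻¹ t = E t := fun t => by
      rw [Perm.inv_eq_iff_eq, hEE]
    refine ⟨(E⁻¹ * s * E : Perm (N.D ⊕ Bool)), fun t t' => ?_, ?_⟩
    · have h1 : (E⁻¹ * s * E : Perm (N.D ⊕ Bool)).SameCycle t t' ↔ s.SameCycle (E t) (E t') := by
        have := Perm.sameCycle_conj (f := s) (g := E⁻¹) (x := t) (y := t')
        rw [inv_inv] at this
        exact this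
      rw [flT_inc, flT_inc]
      exact h1.trans (hs _ _)
    · have h2 : Pl (N.aa : Perm (N.D ⊕ Bool)) (E⁻¹ * s * E : Perm (N.D ⊕ Bool)) := by
        refine Pl_iso (T := N.D ⊕ Bool) (T' := N.D ⊕ Bool) E ?_ ?_ hp
        · exact flT_aa N
        · intro t
          show E (s t) = E⁻¹ (s (E (E t)))
          rw [hEE, hEi]
      exact h2

/-- exchange of the poles -/
noncomputable def NC.fl (c : NC Λ) : NC Λ := cls (LNet.fl true c.rep.1) (fl_good c.rep.2)

/-- `∑ (weight) ^ k` over the classes of networks with property `P` -/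
noncomputable def pN (w : Λ → ℝ≥0∞) (k : ℕ) (P : NC Λ → Prop) : ℝ≥0∞ :=
  ∑' c : NC Λ, if P c then wt w c.rep.1 ^ k else 0

/-- `∑ (weight) ^ k` over the labels -/
noncomputable def pK (w : Λ → ℝ≥0∞) (k : ℕ) : ℝ≥0∞ := ∑' l, w l ^ k

/-- all networks -/
noncomputable def pD (w : Λ → ℝ≥0∞) (k : ℕ) : ℝ≥0∞ := pN w k fun _ => True

/-- networks isomorphic to their reverse -/
noncomputable def pS (w : Λ → ℝ≥0∞) (k : ℕ) : ℝ≥0∞ := pN w k fun c => c.fl = c

/-- classes of networks that are neither an edge nor parallel -/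
def NC.IsX (c : NC Λ) : Prop := XNet c.rep.1

/-- classes of series networks -/
def NC.IsSer (c : NC Λ) : Prop := SerN c.rep.1

abbrev XC (Λ : Type u) := {c : NC Λ // c.IsX}

/-- The network `N` consists of the networks in the multiset `m` and, if `b` is true, of a direct
edge, all in parallel. -/
def IsParts (N : LNet Λ) (b : Bool) (m : Multiset (XC Λ)) : Prop :=
  ∃ (J : Type) (_ : Fintype J) (_ : DecidableEq J) (X : J → XC Λ) (g : Bool → Λ),
    NIso N (bond b (fun j => (X j).1.rep.1) g) ∧ m = univ.val.map X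

/-- two networks in parallel -/
def par2 (N X : LNet Λ) (g : Bool → Λ) : LNet Λ :=
  glue (bondInc Bool) (fun b => bif b then N else X) g

/-- number of edges -/
noncomputable def NC.sz (c : NC Λ) : ℕ := Fintype.card c.rep.1.D / 2

end PGr

end

section
/-!
# Decorated rigid maps: definitions
-/

set_option linter.unusedSectionVars false

namespace PGr
open Equiv Finset
open scoped ENNReal Classical
universe u
variable {Λ : Type u}
open NetSumC

/-- the darts of the core of a class of maps -/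
abbrev CT (c : GC) : Type := (core c).toB.T

/-- Rooted maps with a decoration of the darts and a decoration of the vertices.  (A rooted map has no
automorphism, so isomorphism classes of decorated rooted maps are such triples.) -/
abbrev DC (α β : Type*) := Σ c : GC, (CT c → α) × ((core c).CV → β)

/-- A matching of decorated maps: an isomorphism (`o = true`) or a reflection (`o = false`) which
respects the decorations (the root darts need not correspond to each other). -/
structure DM {α β : Type*} (p q : DC α β) (o : Bool) (ψ : CT p.1 ≃ CT q.1) : Prop where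
  a : ∀ t, ψ ((core p.1).toB.aa t) = (core q.1).toB.aa (ψ t)
  s : ∀ t, ψ ((core p.1).s t) = if o then (core q.1).s (ψ t) else (core q.1).s⁻¹ (ψ t)
  f : ∀ t, q.2.1 (ψ t) = p.2.1 t
  g : ∀ t, q.2.2 ((core q.1).vinc (ψ t)) = p.2.2 ((core p.1).vinc t)

/-- the dart decoration given by networks on the edges: the network of the edge `i` leads from the end of the
dart `(i, true)` to the end of `(i, false)` -/
noncomputable def eDec {I : Type} (F : I → NC Λ) (x : I × Bool) : NC Λ :=
  if x.2 then F x.1 else (F x.1).fl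

/-- the decorated map of a code: the root edge and its ends have the decoration `none` -/
noncomputable def hat (p : Ix Λ) : DC (Option (NC Λ)) (Option Λ) :=
  ⟨p.1, Sum.elim (fun x => some (eDec p.2.1 x)) (fun _ => none),
    fun x => if h : ∀ b, x ≠ (core p.1).vinc (Sum.inr b) then some (p.2.2 ⟨x, h⟩) else none⟩

/-- the vertices of a core different from the root vertex -/
abbrev CExt (C : Core) : Type := {x : C.CV // x ≠ C.vinc (Sum.inr true)}

/-- Full codes: a rooted map with networks on all edges, also on the root edge, and labels on all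
vertices different from the root vertex. -/
abbrev FC (Λ : Type u) := Σ c : GC, ((core c).I → NC Λ) × NC Λ × (CExt (core c) → Λ)

/-- the decorated map of a full code; only the root vertex has the decoration `none` -/
noncomputable def FC.hat (p : FC Λ) : DC (NC Λ) (Option Λ) :=
  ⟨p.1, Sum.elim (eDec p.2.1) (fun b => if b then p.2.2.1 else p.2.2.1.fl),
    fun x => if h : x ≠ (core p.1).vinc (Sum.inr true) then some (p.2.2.2 ⟨x, h⟩) else none⟩

/-- weight of a full code -/
noncomputable def FC.wt (w : Λ → ℝ≥0∞) (p : FC Λ) : ℝ≥0∞ :=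
  (∏ i, PGr.wt w (p.2.1 i).rep.1) * PGr.wt w p.2.2.1.rep.1 * ∏ x, w (p.2.2.2 x)

/-- rigid full codes -/
abbrev FCR (Λ : Type u) := {p : FC Λ // Rigid p.1.rep.1}

/-- degree of the root vertex -/
noncomputable def FCR.dg (p : FCR Λ) : ℕ := (core p.1.1).toB.dg

end PGr

end

section
/-! # Module DMLibA: matchings of decorated maps -/

set_option linter.unusedSectionVars false

namespace PGr
open Equiv Finset
open scoped ENNReal Classical
universe u
variable {Λ : Type u} {α β : Type*}
open NetSumC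

/-! ### auxiliary facts -/

private theorem DMLibA_ia {T : Type*} (s : Perm T) (t : T) : s⁻¹ (s t) = t :=
  s.symm_apply_apply t

private theorem DMLibA_ai {T : Type*} (s : Perm T) (t : T) : s (s⁻¹ t) = t :=
  s.apply_symm_apply t

private theorem DMLibA_good (c : GC) : Good (core c).toB.aa (core c).s :=
  (core_iso c).symm.good c.rep.2

private theorem DMLibA_cut {T : Type*} [Fintype T] [DecidableEq T] (s : Perm T) (A : Finset T) :
    cut s⁻¹ A = cut s A := by
  unfold cut
  have h1 : bd s⁻¹ A = (bd s A).map s.toEmbedding := by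
    ext t
    obtain ⟨u, rfl⟩ := s.surjective t
    rw [Finset.mem_map_equiv, Equiv.symm_apply_apply]
    unfold bd
    rw [mem_filter, mem_filter, DMLibA_ia]
    simp only [mem_univ, true_and]
    tauto
  rw [h1, card_map]

private theorem DMLibA_same {T T' : Type*} [Fintype T] [DecidableEq T] [Fintype T']
    [DecidableEq T'] {s : Perm T} {s' : Perm T'} (e : T ≃ T') (h : ∀ t, e (s t) = s' (e t))
    (t t' : T) : s.SameCycle t t' ↔ s'.SameCycle (e t) (e t') := by
  constructor
  · rintro ⟨i, hi⟩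
    exact ⟨i, by rw [← CutIso.zpow e h, hi]⟩
  · rintro ⟨i, hi⟩
    refine ⟨i, e.injective ?_⟩
    rw [CutIso.zpow e h, hi]

/-- the rotation of the target, up to the sign -/
private noncomputable def DMLibA_sg (c : GC) (o : Bool) : Perm (CT c) :=
  if o then (core c).s else (core c).s⁻¹

private theorem DMLibA_s {p q : DC α β} {o : Bool} {ψ : CT p.1 ≃ CT q.1} (h : DM p q o ψ)
    (t : CT p.1) : ψ ((core p.1).s t) = DMLibA_sg q.1 o (ψ t) := by
  rw [h.s]
  cases o <;> rfl

private theorem DMLibA_inv {p q : DC α β} {o : Bool} {ψ : CT p.1 ≃ CT q.1} (h : DM p q o ψ)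
    (t : CT p.1) : ψ ((core p.1).s⁻¹ t) = if o then (core q.1).s⁻¹ (ψ t) else
      (core q.1).s (ψ t) := by
  have h1 := h.s ((core p.1).s⁻¹ t)
  have h2 : (core p.1).s ((core p.1).s⁻¹ t) = t := DMLibA_ai _ _
  rw [h2] at h1
  cases o
  · simp only [Bool.false_eq_true, if_false] at h1 ⊢
    rw [h1]
    exact (DMLibA_ai _ _).symm
  · simp only [if_true] at h1 ⊢
    rw [h1]
    exact (DMLibA_ia _ _).symm

theorem DM.refl (p : DC α β) : DM p p true (Equiv.refl _) where
  a := fun _ => rfl
  s := fun _ => rfl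
  f := fun _ => rfl
  g := fun _ => rfl

theorem DM.symm {p q : DC α β} {o : Bool} {ψ : CT p.1 ≃ CT q.1} (h : DM p q o ψ) :
    DM q p o ψ.symm where
  a := by
    intro t
    rw [Equiv.symm_apply_eq, h.a, Equiv.apply_symm_apply]
  s := by
    intro t
    rw [Equiv.symm_apply_eq]
    cases o
    · have h1 := DMLibA_inv h (ψ.symm t)
      simp only [Bool.false_eq_true, if_false] at h1 ⊢
      rw [h1, Equiv.apply_symm_apply]
    · have h1 := h.s (ψ.symm t)
      simp only [if_true] at h1 ⊢
      rw [h1, Equiv.apply_symm_apply]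
  f := by
    intro t
    have h1 := h.f (ψ.symm t)
    rw [Equiv.apply_symm_apply] at h1
    exact h1.symm
  g := by
    intro t
    have h1 := h.g (ψ.symm t)
    rw [Equiv.apply_symm_apply] at h1
    exact h1.symm

/-- the sign of the composition is `true` iff the signs are equal -/
theorem DM.trans {p q r : DC α β} {o o' : Bool} {ψ : CT p.1 ≃ CT q.1} {ψ' : CT q.1 ≃ CT r.1}
    (h : DM p q o ψ) (h' : DM q r o' ψ') : DM p r (o == o') (ψ.trans ψ') where
  a := by
    intro t
    rw [Equiv.trans_apply, Equiv.trans_apply, h.a, h'.a]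
  s := by
    intro t
    rw [Equiv.trans_apply, Equiv.trans_apply, h.s]
    cases o
    · have h1 := DMLibA_inv h' (ψ t)
      cases o'
      · exact h1
      · exact h1
    · have h1 := h'.s (ψ t)
      cases o'
      · exact h1
      · exact h1
  f := by
    intro t
    rw [Equiv.trans_apply, h'.f, h.f]
  g := by
    intro t
    rw [Equiv.trans_apply, h'.g, h.g]

/-- `iso_unique`; two reflections with the same value at a dart: compose with the inverse -/
theorem DM.unique {p q : DC α β} {o : Bool} {ψ ψ' : CT p.1 ≃ CT q.1} (h : DM p q o ψ)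
    (h' : DM p q o ψ') {t : CT p.1} (ht : ψ t = ψ' t) : ψ = ψ' :=
  iso_unique (DMLibA_good p.1) t ψ ψ' h.a (DMLibA_s h) h'.a (DMLibA_s h') ht

private theorem DMLibA_eq (c : GC) (x y : (CT c → α) × ((core c).CV → β))
    {ψ : CT c ≃ CT c} (h : DM (⟨c, x⟩ : DC α β) ⟨c, y⟩ true ψ)
    (hr : ψ (Sum.inr true) = Sum.inr true) : x = y := by
  have hψ : ψ = Equiv.refl _ := by
    refine iso_unique (DMLibA_good c) (Sum.inr true) ψ (Equiv.refl _) h.a h.s (fun _ => rfl)
      (fun _ => rfl) ?_
    rw [hr]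
    rfl
  subst hψ
  refine Prod.ext ?_ ?_
  · funext t
    exact (h.f t).symm
  · funext z
    obtain ⟨t, rfl⟩ := Quotient.exists_rep z
    exact (h.g t).symm

/-- an isomorphism respecting the roots: the classes are equal, and the isomorphism is the identity
(as in `code_eq`, `Pool/Agent/PGc/Codes.lean`) -/
theorem DM.eq {p q : DC α β} {ψ : CT p.1 ≃ CT q.1} (h : DM p q true ψ)
    (hr : ψ (Sum.inr true) = Sum.inr true) : p = q := by
  obtain ⟨c, x⟩ := p
  obtain ⟨c', y⟩ := q
  have hB : BIso (core c).toB (core c').toB := ⟨ψ, h.a, h.s, hr⟩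
  have hB' : BIso c.rep.1 c'.rep.1 := ((core_iso c).symm.trans hB).trans (core_iso c')
  have hc : c = c' := by
    have h1 : Quotient.mk bSetoid c.rep = Quotient.mk bSetoid c'.rep := Quotient.sound hB'
    rwa [Quotient.out_eq, Quotient.out_eq] at h1
  subst hc
  exact congrArg (Sigma.mk c) (DMLibA_eq c x y h hr)

/-- Every decorated good map with a root dart is isomorphic to a member of `DC`: `exists_BMap`, its class, `core_iso`. -/
theorem exists_code {T : Type} [Fintype T] [DecidableEq T] {a s : Perm T} (h : Good a s) (r : T)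
    (f : T → α) (g : T → β) (hg : ∀ t t', s.SameCycle t t' → g t = g t') :
    ∃ (p : DC α β) (e : T ≃ CT p.1), (∀ t, e (a t) = (core p.1).toB.aa (e t)) ∧
      (∀ t, e (s t) = (core p.1).s (e t)) ∧ e r = Sum.inr true ∧ (∀ t, p.2.1 (e t) = f t) ∧
      ∀ t, p.2.2 ((core p.1).vinc (e t)) = g t := by
  obtain ⟨N, e1, h1, h2, h3⟩ := exists_BMap a s r h.inv h.fpf
  have hN : N.IsGood := Good_iso e1 h1 h2 h
  set c : GC := Quotient.mk bSetoid ⟨N, hN⟩ with hc
  have hB : BIso c.rep.1 N := Quotient.exact (s := bSetoid) (Quotient.out_eq c)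
  obtain ⟨e2, k1, k2, k3⟩ := ((core_iso c).trans hB).symm
  set e : T ≃ CT c := e1.trans e2 with he
  have ha : ∀ t, e (a t) = (core c).toB.aa (e t) := by
    intro t
    rw [he, Equiv.trans_apply, Equiv.trans_apply, h1, k1]
  have hs : ∀ t, e (s t) = (core c).s (e t) := by
    intro t
    rw [he, Equiv.trans_apply, Equiv.trans_apply, h2]
    exact k2 _
  have hr : e r = Sum.inr true := by
    rw [he, Equiv.trans_apply, h3, k3]
  have hlift : ∀ t t' : CT c, (core c).s.SameCycle t t' → g (e.symm t) = g (e.symm t') := by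
    intro t t' htt
    apply hg
    rw [DMLibA_same e hs, Equiv.apply_symm_apply, Equiv.apply_symm_apply]
    exact htt
  refine ⟨⟨c, fun t => f (e.symm t),
    Quotient.lift (s := Perm.SameCycle.setoid (core c).s) (fun t => g (e.symm t)) hlift⟩,
    e, ha, hs, hr, ?_, ?_⟩
  · intro t
    show f (e.symm (e t)) = f t
    rw [Equiv.symm_apply_apply]
  · intro t
    show g (e.symm (e t)) = g t
    rw [Equiv.symm_apply_apply]

/-- a good map with the inverse rotation is good -/
theorem Good.mirror {T : Type*} [Fintype T] [DecidableEq T] {a s : Perm T} (h : Good a s) :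
    Good a s⁻¹ where
  inv := h.inv
  fpf := h.fpf
  ns := by
    intro A hA hne hu
    rw [DMLibA_cut]
    exact h.ns A hA hne hu
  pl := by
    intro p q hpq
    obtain ⟨g, hg1, hg2⟩ := h.pl p (fun t => q (a t)) (by
      intro t
      have h1 := hpq (s t)
      rw [DMLibA_ia] at h1
      show p t + q (a (a t)) = p (s t) + q (a (s t))
      rw [h.inv]
      exact h1.symm)
    refine ⟨g, hg1, fun t => ?_⟩
    have h2 := hg2 (s⁻¹ t)
    rw [DMLibA_ai] at h2
    rw [add_comm (g t), add_comm (p t)]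
    exact h2
  big := h.big

/-- change of the root dart and, for `o = false`, reflection: `exists_code` for the rotation `s` or `s⁻¹` -/
theorem exists_reroot (p : DC α β) (t : CT p.1) (o : Bool) :
    ∃ (q : DC α β) (ψ : CT p.1 ≃ CT q.1), DM p q o ψ ∧ ψ t = Sum.inr true := by
  cases o
  · obtain ⟨q, e, h1, h2, h3, h4, h5⟩ := exists_code (α := α) (β := β)
      (DMLibA_good p.1).mirror t p.2.1
      (fun t => p.2.2 ((core p.1).vinc t)) (by
        intro t t' h
        have h' : (core p.1).s.SameCycle t t' := Perm.sameCycle_inv.mp h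
        have h'' : (core p.1).vinc t = (core p.1).vinc t' := Quotient.sound h'
        show p.2.2 ((core p.1).vinc t) = p.2.2 ((core p.1).vinc t')
        rw [h''])
    refine ⟨q, e, ⟨h1, fun t => ?_, h4, h5⟩, h3⟩
    have h6 : e t = (core q.1).s (e ((core p.1).s t)) :=
      (congrArg e (DMLibA_ia (core p.1).s t)).symm.trans (h2 ((core p.1).s t))
    show e ((core p.1).s t) = (core q.1).s⁻¹ (e t)
    rw [h6]
    exact (DMLibA_ia _ _).symm
  · obtain ⟨q, e, h1, h2, h3, h4, h5⟩ := exists_code (α := α) (β := β)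
      (DMLibA_good p.1) t p.2.1
      (fun t => p.2.2 ((core p.1).vinc t)) (by
        intro t t' h
        have h'' : (core p.1).vinc t = (core p.1).vinc t' := Quotient.sound h
        show p.2.2 ((core p.1).vinc t) = p.2.2 ((core p.1).vinc t')
        rw [h''])
    exact ⟨q, e, ⟨h1, h2, h4, h5⟩, h3⟩

theorem DM.rigid {p q : DC α β} {o : Bool} {ψ : CT p.1 ≃ CT q.1} (h : DM p q o ψ)
    (hp : Rigid p.1.rep.1) : Rigid q.1.rep.1 := by
  have hp' : Rigid (core p.1).toB := (core_iso p.1).symm.rigid hp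
  refine (core_iso q.1).rigid ?_
  obtain ⟨hM1, hM2⟩ := hp'
  have hc := Fintype.card_congr ψ
  refine ⟨by rw [← hc]; exact hM1, ?_⟩
  intro A hA hA1 hA2
  have h4 := hM2 (A.map ψ.symm.toEmbedding) (Cl_iso ψ.symm (CutIso.symm h.a) hA)
    (by rw [card_map]; exact hA1) (by rw [card_map, hc]; exact hA2)
  have h5 := cut_iso ψ (DMLibA_s h) (A.map ψ.symm.toEmbedding)
  rw [CutIso.map_symm] at h5
  have h6 : cut (DMLibA_sg q.1 o) A = cut (core q.1).s A := by
    cases o
    · exact DMLibA_cut _ _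
    · rfl
  rw [h6] at h5
  show 4 < cut (core q.1).s A
  rw [h5]
  exact h4

theorem DM.sameCycle {p q : DC α β} {o : Bool} {ψ : CT p.1 ≃ CT q.1} (h : DM p q o ψ)
    (t t' : CT p.1) : (core p.1).s.SameCycle t t' ↔ (core q.1).s.SameCycle (ψ t) (ψ t') := by
  refine (DMLibA_same ψ (DMLibA_s h) t t').trans ?_
  cases o
  · exact Perm.sameCycle_inv
  · exact Iff.rfl

theorem DM.nV_eq {p q : DC α β} {o : Bool} {ψ : CT p.1 ≃ CT q.1} (h : DM p q o ψ) :
    nV (core p.1).s = nV (core q.1).s := by
  unfold nV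
  refine Nat.card_congr (Quotient.congr ψ ?_)
  intro x y
  exact h.sameCycle x y

theorem CT_good (c : GC) : Good (core c).toB.aa (core c).s := DMLibA_good c

end PGr

end

section
/-! # Module GlueMatch: matching cores give isomorphic glued networks -/

set_option linter.unusedSectionVars false

namespace PGr
open Equiv Finset
open scoped ENNReal Classical
universe u
variable {Λ : Type u}
open NetSumC

private theorem GM_inc {I Vc : Type} [Fintype I] [DecidableEq I] [Fintype Vc] [DecidableEq Vc]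
    (cinc : (I × Bool) ⊕ Bool → Vc) (N : I → LNet Λ) (hN : ∀ i, (N i).IsGood) {i : I}
    {d : (N i).D} (b : Bool) (h : (N i).inc (Sum.inl d) = (N i).pole b) :
    glueInc cinc N (Sum.inl ⟨i, d⟩) = Sum.inl (cinc (Sum.inl (i, b))) := by
  cases b
  · refine GlueLib.inc_false cinc N (fun h' => ?_) h
    exact (hN i).loop (Sum.inr true) (h.symm.trans h')
  · exact GlueLib.inc_true cinc N h

/-- Networks glued along matching patterns.  `ψ` maps the darts of the first pattern to the darts of the second one,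
`θ` the vertices; the networks on corresponding edges are isomorphic after exchange of the poles if `ψ` maps `(i, c)` to
`(i', c')` with `c ≠ c'`; the root darts are exchanged if `b` is true.
Proof: write the isomorphism down.  For `d : (N i).D` with `ψ (inl (i, true)) = inl (i', c')` use the isomorphism
`N i → fl (xor true c') (N' i')`, whose darts are those of `N' i'`; the internal vertices of `N i` go to internal
vertices, core vertices by `θ`. -/
theorem glue_match {I I' Vc Vc' : Type} [Fintype I] [DecidableEq I] [Fintype I'] [DecidableEq I']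
    [Fintype Vc] [DecidableEq Vc] [Fintype Vc'] [DecidableEq Vc']
    (cinc : (I × Bool) ⊕ Bool → Vc) (cinc' : (I' × Bool) ⊕ Bool → Vc') (N : I → LNet Λ)
    (N' : I' → LNet Λ) (hN : ∀ i, (N i).IsGood) (hN' : ∀ i, (N' i).IsGood) (g : Vc → Λ)
    (g' : Vc' → Λ) (b : Bool) (ψ : ((I × Bool) ⊕ Bool) ≃ ((I' × Bool) ⊕ Bool)) (θ : Vc ≃ Vc')
    (hr : ∀ c, ψ (Sum.inr c) = Sum.inr (xor b c))
    (ha : ∀ i c, ∃ i' c', ψ (Sum.inl (i, c)) = Sum.inl (i', c') ∧
      ψ (Sum.inl (i, !c)) = Sum.inl (i', !c'))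
    (hθ : ∀ t, θ (cinc t) = cinc' (ψ t))
    (hnet : ∀ i c i' c', ψ (Sum.inl (i, c)) = Sum.inl (i', c') →
      NIso (N i) (LNet.fl (xor c c') (N' i')))
    (hlab : ∀ x, (∀ c, x ≠ cinc (Sum.inr c)) → g' (θ x) = g x) :
    NIso (glue cinc N g) (LNet.fl b (glue cinc' N' g')) := by
  -- the map of the edges
  have h0 : ∀ i, ∃ i' τ, ∀ c, ψ (Sum.inl (i, c)) = Sum.inl (i', xor τ c) := by
    intro i
    obtain ⟨i', c', h1, h2⟩ := ha i true
    refine ⟨i', !c', fun c => ?_⟩
    cases c
    · rw [Bool.xor_false]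
      exact h2
    · rw [Bool.xor_true, Bool.not_not]
      exact h1
  choose π₀ τ hπ using h0
  have hinj : Function.Injective π₀ := by
    intro i j hij
    have h1 := hπ i (xor (τ i) (τ j))
    have h2 := hπ j false
    rw [← Bool.xor_assoc, Bool.xor_self, Bool.false_xor, hij] at h1
    rw [Bool.xor_false] at h2
    have h3 := ψ.injective (h1.trans h2.symm)
    exact congrArg Prod.fst (Sum.inl_injective h3)
  have hsurj : Function.Surjective π₀ := by
    intro i'
    rcases ht : ψ.symm (Sum.inl (i', true)) with ⟨i, c⟩ | c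
    · refine ⟨i, ?_⟩
      have h1 := hπ i c
      rw [← ht, Equiv.apply_symm_apply] at h1
      exact (congrArg Prod.fst (Sum.inl_injective h1)).symm
    · have h1 := hr c
      rw [← ht, Equiv.apply_symm_apply] at h1
      exact absurd h1 Sum.inl_ne_inr
  set π : I ≃ I' := Equiv.ofBijective π₀ ⟨hinj, hsurj⟩ with hπdef
  have hπ' : ∀ i c, ψ (Sum.inl (i, c)) = Sum.inl (π i, xor (τ i) c) := hπ
  have hiso : ∀ i, NIso (N i) (LNet.fl (τ i) (N' (π i))) := by
    intro i
    have h1 := hnet i false (π i) (τ i) (by rw [hπ', Bool.xor_false])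
    rwa [Bool.false_xor] at h1
  choose e f h1 h2 h3 h4 using hiso
  have h2' : ∀ i d, f i ((N i).inc (Sum.inl d)) = (N' (π i)).inc (Sum.inl (e i d)) := h2
  have h3' : ∀ i c, f i ((N i).pole c) = (N' (π i)).pole (xor (τ i) c) := h3
  have hint : ∀ i (x : (N i).V), (∀ c, x ≠ (N i).pole c) ↔ ∀ c, f i x ≠ (N' (π i)).pole c := by
    intro i x
    constructor
    · intro h c hc
      apply h (xor (τ i) c)
      apply (f i).injective
      rw [hc, h3', ← Bool.xor_assoc, Bool.xor_self, Bool.false_xor]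
    · intro h c hc
      apply h (xor (τ i) c)
      rw [hc, h3']
  refine ⟨Equiv.sigmaCongr π e, Equiv.sumCongr θ
    (Equiv.sigmaCongr π (fun i => (f i).subtypeEquiv (hint i))), ?_, ?_, ?_, ?_⟩
  · rintro ⟨i, d⟩
    change (⟨π i, e i ((N i).a d)⟩ : Σ i, (N' i).D) = ⟨π i, (N' (π i)).a (e i d)⟩
    rw [h1]
    rfl
  · rintro ⟨i, d⟩
    change (Equiv.sumCongr θ
      (Equiv.sigmaCongr π (fun i => (f i).subtypeEquiv (hint i))))
      (glueInc cinc N (Sum.inl ⟨i, d⟩)) = glueInc cinc' N' (Sum.inl ⟨π i, e i d⟩)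
    have hcase : ∀ c, (N i).inc (Sum.inl d) = (N i).pole c →
        (Equiv.sumCongr θ (Equiv.sigmaCongr π (fun i => (f i).subtypeEquiv (hint i))))
      (glueInc cinc N (Sum.inl ⟨i, d⟩)) = glueInc cinc' N' (Sum.inl ⟨π i, e i d⟩) := by
      intro c hc
      have h5 : (N' (π i)).inc (Sum.inl (e i d)) = (N' (π i)).pole (xor (τ i) c) := by
        rw [← h2', hc, h3']
      rw [GM_inc cinc N hN c hc, GM_inc cinc' N' hN' _ h5]
      change Sum.inl (θ (cinc (Sum.inl (i, c)))) = _
      rw [hθ, hπ']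
    by_cases c1 : (N i).inc (Sum.inl d) = (N i).pole true
    · exact hcase true c1
    · by_cases c2 : (N i).inc (Sum.inl d) = (N i).pole false
      · exact hcase false c2
      · have h6 : ∀ c, (N i).inc (Sum.inl d) ≠ (N i).pole c := by
          rintro (_ | _)
          · exact c2
          · exact c1
        have h7 := (hint i _).1 h6
        rw [h2'] at h7
        rw [GlueLib.inc_int _ _ c1 c2, GlueLib.inc_int _ _ (h7 true) (h7 false)]
        change Sum.inr (⟨π i, _⟩ : Σ i, (N' i).Int) = Sum.inr ⟨π i, _⟩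
        congr 2
        exact Subtype.ext (h2' i d)
  · intro c
    change Sum.inl (θ (cinc (Sum.inr c))) = Sum.inl (cinc' (Sum.inr (xor b c)))
    rw [hθ, hr]
  · rintro (x | ⟨i, x⟩) hx
    · change g' (θ x) = g x
      exact hlab x (fun c hc => hx c (congrArg Sum.inl hc))
    · change (N' (π i)).lab (f i x.1) = (N i).lab x.1
      refine h4 i x.1 x.2

private theorem GM_vinc {C : Core} {t t' : (C.I × Bool) ⊕ Bool} :
    C.vinc t = C.vinc t' ↔ C.s.SameCycle t t' :=
  ⟨fun h => Quotient.exact h, fun h => Quotient.sound h⟩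

/-- a matching of the decorated maps of two codes gives an isomorphism of their networks -/
theorem DM.glue [Nonempty Λ] {p q : Ix Λ} {o b : Bool} {ψ : CT (hat p).1 ≃ CT (hat q).1}
    (h : DM (hat p) (hat q) o ψ) (hb : ∀ c, ψ (Sum.inr c) = Sum.inr (xor b c)) :
    NIso (cN p) (LNet.fl b (cN q)) := by
  set E : (((core p.1).I × Bool) ⊕ Bool) ≃ (((core q.1).I × Bool) ⊕ Bool) := ψ with hE
  have hs : ∀ t, E ((core p.1).s t) =
      if o then (core q.1).s (E t) else (core q.1).s⁻¹ (E t) := h.s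
  -- same cycles
  have hcyc1 : ∀ t, (core q.1).s.SameCycle (E t) (E ((core p.1).s t)) := by
    intro t
    rw [hs]
    cases o
    · refine ⟨-1, ?_⟩
      simp
    · exact ⟨1, by simp⟩
  have hfw : ∀ t t', (core p.1).s.SameCycle t t' → (core q.1).s.SameCycle (E t) (E t') := by
    intro t t' ht
    obtain ⟨n, hn⟩ := ht.exists_nat_pow_eq
    rw [← hn]
    clear hn ht
    induction n with
    | zero => exact Perm.SameCycle.refl _ _
    | succ n ih =>
      rw [pow_succ', Perm.mul_apply]
      exact ih.trans (hcyc1 _)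
  have hbw : ∀ t t', (core q.1).s.SameCycle (E t) (E t') → (core p.1).s.SameCycle t t' := by
    -- one step backwards
    have hstep : ∀ u, (core p.1).s.SameCycle (E.symm u) (E.symm ((core q.1).s u)) := by
      intro u
      cases o
      · have h5 := hs (E.symm ((core q.1).s u))
        rw [Equiv.apply_symm_apply] at h5
        have h5' : E ((core p.1).s (E.symm ((core q.1).s u))) = u :=
          h5.trans (Equiv.symm_apply_apply (core q.1).s u)
        have h6 : (core p.1).s (E.symm ((core q.1).s u)) = E.symm u := by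
          rw [Equiv.eq_symm_apply]
          exact h5'
        exact Perm.SameCycle.symm ⟨1, by simpa using h6⟩
      · have h5 := hs (E.symm u)
        rw [Equiv.apply_symm_apply] at h5
        simp only [if_true] at h5
        have h6 : (core p.1).s (E.symm u) = E.symm ((core q.1).s u) := by
          rw [← h5, Equiv.symm_apply_apply]
        exact ⟨1, by simpa using h6⟩
    have hall : ∀ u u', (core q.1).s.SameCycle u u' →
        (core p.1).s.SameCycle (E.symm u) (E.symm u') := by
      intro u u' hu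
      obtain ⟨n, hn⟩ := hu.exists_nat_pow_eq
      rw [← hn]
      clear hn hu
      induction n with
      | zero => exact Perm.SameCycle.refl _ _
      | succ n ih =>
        rw [pow_succ', Perm.mul_apply]
        exact ih.trans (hstep _)
    intro t t' ht
    have := hall _ _ ht
    rwa [Equiv.symm_apply_apply, Equiv.symm_apply_apply] at this
  let θ : (core p.1).CV ≃ (core q.1).CV :=
    Quotient.congr E (fun t t' => ⟨hfw t t', hbw t t'⟩)
  have hθ : ∀ t, θ ((core p.1).vinc t) = (core q.1).vinc (E t) := fun t => rfl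
  have hr : ∀ c, E (Sum.inr c) = Sum.inr (xor b c) := hb
  have hf : ∀ t, (hat q).2.1 (E t) = (hat p).2.1 t := h.f
  have hg : ∀ t, (hat q).2.2 ((core q.1).vinc (E t)) = (hat p).2.2 ((core p.1).vinc t) := h.g
  have haa : ∀ i c, E (Sum.inl (i, !c)) =
      ext (Equiv.prodCongr (Equiv.refl (core q.1).I) Equiv.boolNot) (E (Sum.inl (i, c))) :=
    fun i c => h.a (Sum.inl (i, c))
  refine glue_match (core p.1).vinc (core q.1).vinc (cX p) (cX q)
    (fun i => (p.2.1 i).rep.2) (fun i => (q.2.1 i).rep.2) (gx p.2.2) (gx q.2.2) b E θ hr ?_ hθ ?_ ?_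
  · intro i c
    rcases ht : E (Sum.inl (i, c)) with ⟨i', c'⟩ | c'
    · refine ⟨i', c', rfl, ?_⟩
      rw [haa, ht]
      rfl
    · exfalso
      have h5 := hr (xor b c')
      rw [← Bool.xor_assoc, Bool.xor_self, Bool.false_xor, ← ht] at h5
      exact absurd (E.injective h5) Sum.inr_ne_inl
  · intro i c i' c' ht
    have h5 := hf (Sum.inl (i, c))
    rw [ht] at h5
    have h6 : eDec q.2.1 (i', c') = eDec p.2.1 (i, c) := Option.some_injective _ h5
    have hfl : ∀ x : NC Λ, NIso x.fl.rep.1 (LNet.fl true x.rep.1) := fun x =>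
      cls_iso (LNet.fl true x.rep.1) (fl_good x.rep.2)
    show NIso (p.2.1 i).rep.1 (LNet.fl (xor c c') (q.2.1 i').rep.1)
    cases c <;> cases c'
    · have h7 : (q.2.1 i').fl = (p.2.1 i).fl := h6
      have h8 := hfl (p.2.1 i)
      rw [← h7] at h8
      have h9 := ((hfl (q.2.1 i')).symm.trans h8).fl true
      exact ((fl_fl true true _).symm.trans (h9.symm.trans (fl_fl true true _)) |>
        fun h10 => (fl_false _).symm.trans h10)
    · have h7 : q.2.1 i' = (p.2.1 i).fl := h6
      have h8 := (hfl (p.2.1 i)).fl true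
      rw [← h7] at h8
      exact ((fl_false _).symm.trans (fl_fl true true _).symm).trans h8.symm
    · have h7 : (q.2.1 i').fl = p.2.1 i := h6
      rw [← h7]
      exact hfl _
    · have h7 : q.2.1 i' = p.2.1 i := h6
      rw [← h7]
      exact (fl_false _).symm
  · intro x hx
    obtain ⟨t, rfl⟩ := Quotient.exists_rep x
    have hx' : ∀ c, (core p.1).vinc t ≠ (core p.1).vinc (Sum.inr c) := hx
    have h5 := hg t
    have h6 : (hat p).2.2 ((core p.1).vinc t) = some (p.2.2 ⟨(core p.1).vinc t, hx'⟩) :=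
      dif_pos hx'
    rw [h6] at h5
    have hy : ∀ c, (core q.1).vinc (E t) ≠ (core q.1).vinc (Sum.inr c) := by
      intro c hc
      have h7 : ¬ ∀ b, (core q.1).vinc (E t) ≠ (core q.1).vinc (Sum.inr b) :=
        fun h => h c hc
      have h8 : (hat q).2.2 ((core q.1).vinc (E t)) = none := dif_neg h7
      rw [h8] at h5
      exact absurd h5 (by simp)
    have h9 : (hat q).2.2 ((core q.1).vinc (E t)) = some (q.2.2 ⟨(core q.1).vinc (E t), hy⟩) :=
      dif_pos hy
    rw [h9] at h5
    have h10 := Option.some_injective _ h5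
    have h11 : gx p.2.2 ((core p.1).vinc t) = p.2.2 ⟨(core p.1).vinc t, hx'⟩ := dif_pos hx'
    have h12 : gx q.2.2 ((core q.1).vinc (E t)) = q.2.2 ⟨(core q.1).vinc (E t), hy⟩ := dif_pos hy
    show gx q.2.2 (θ ((core p.1).vinc t)) = gx p.2.2 ((core p.1).vinc t)
    rw [hθ, h11, h12, h10]

end PGr

end

section
/-! # Module SerUq: the series decomposition is unique -/

set_option linter.unusedSectionVars false

namespace PGr
open Equiv Finset
open scoped ENNReal Classical
universe u
variable {Λ : Type u}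

namespace SerUq

/-- the vertices of `N i` as vertices of the series composition -/
noncomputable def J (N : Bool → LNet Λ) (i : Bool) (x : (N i).V) : Option Bool ⊕ Σ i, (N i).Int :=
  if h1 : x = (N i).pole true then Sum.inl (serInc (Sum.inl (i, true)))
  else if h2 : x = (N i).pole false then Sum.inl (serInc (Sum.inl (i, false)))
  else Sum.inr ⟨i, ⟨x, by rintro (_ | _) <;> assumption⟩⟩

variable {N N' : Bool → LNet Λ} {g g' : Option Bool → Λ}

theorem inc_eq (g : Option Bool → Λ) (i : Bool) (d : (N i).D) :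
    (glue serInc N g).inc (Sum.inl (⟨i, d⟩ : Σ i, (N i).D)) = J N i ((N i).inc (Sum.inl d)) := by
  show glueInc serInc N (Sum.inl ⟨i, d⟩) = J N i ((N i).inc (Sum.inl d))
  unfold J
  by_cases c1 : (N i).inc (Sum.inl d) = (N i).pole true
  · rw [GlueLib.inc_true _ _ c1, dif_pos c1]
  · by_cases c2 : (N i).inc (Sum.inl d) = (N i).pole false
    · rw [GlueLib.inc_false _ _ c1 c2, dif_neg c1, dif_pos c2]
    · rw [GlueLib.inc_int _ _ c1 c2, dif_neg c1, dif_neg c2]

theorem J_true (i : Bool) : J N i ((N i).pole true) = Sum.inl (serInc (Sum.inl (i, true))) :=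
  dif_pos rfl

theorem J_false (hN : ∀ i, (N i).IsGood) (i : Bool) :
    J N i ((N i).pole false) = Sum.inl (serInc (Sum.inl (i, false))) := by
  unfold J
  rw [dif_neg (NetPar.pole_ne (hN i)).symm, dif_pos rfl]

theorem J_cases (N : Bool → LNet Λ) (i : Bool) (x : (N i).V) :
    (x = (N i).pole true ∧ J N i x = Sum.inl (serInc (Sum.inl (i, true)))) ∨
    (x = (N i).pole false ∧ J N i x = Sum.inl (serInc (Sum.inl (i, false)))) ∨
    ∃ y : (N i).Int, y.1 = x ∧ J N i x = Sum.inr ⟨i, y⟩ := by
  unfold J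
  by_cases c1 : x = (N i).pole true
  · exact Or.inl ⟨c1, dif_pos c1⟩
  · by_cases c2 : x = (N i).pole false
    · exact Or.inr (Or.inl ⟨c2, by rw [dif_neg c1, dif_pos c2]⟩)
    · exact Or.inr (Or.inr ⟨⟨x, by rintro (_ | _) <;> assumption⟩, rfl, by
        rw [dif_neg c1, dif_neg c2]⟩)

theorem serInc_ne (i : Bool) : serInc (Sum.inl (i, true)) ≠ serInc (Sum.inl (i, false)) := by
  cases i <;> simp [serInc]

theorem J_inj (N : Bool → LNet Λ) (i : Bool) : Function.Injective (J N i) := by
  intro x y h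
  rcases J_cases N i x with ⟨h1, h2⟩ | ⟨h1, h2⟩ | ⟨a, h1, h2⟩ <;>
  rcases J_cases N i y with ⟨h3, h4⟩ | ⟨h3, h4⟩ | ⟨b, h3, h4⟩
  · rw [h1, h3]
  · rw [h2, h4] at h
    exact absurd (Sum.inl.inj h) (serInc_ne i)
  · rw [h2, h4] at h
    cases h
  · rw [h2, h4] at h
    exact absurd (Sum.inl.inj h).symm (serInc_ne i)
  · rw [h1, h3]
  · rw [h2, h4] at h
    cases h
  · rw [h2, h4] at h
    cases h
  · rw [h2, h4] at h
    cases h
  · rw [h2, h4] at h
    have := Sum.inr.inj h
    rw [Sigma.mk.injEq] at this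
    rw [← h1, ← h3, eq_of_heq this.2]

/-- the two parts share only the middle vertex -/
theorem J_share (N : Bool → LNet Λ) {x : (N true).V} {y : (N false).V}
    (h : J N true x = J N false y) : J N true x = Sum.inl none := by
  rcases J_cases N true x with ⟨h1, h2⟩ | ⟨h1, h2⟩ | ⟨a, h1, h2⟩ <;>
  rcases J_cases N false y with ⟨h3, h4⟩ | ⟨h3, h4⟩ | ⟨b, h3, h4⟩
  · rw [h2, h4] at h
    simp [serInc] at h
  · rw [h2, h4] at h
    simp [serInc] at h
  · rw [h2, h4] at h
    cases h
  · rw [h2]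
    rfl
  · rw [h2]
    rfl
  · rw [h2, h4] at h
    cases h
  · rw [h2, h4] at h
    cases h
  · rw [h2, h4] at h
    cases h
  · rw [h2, h4] at h
    have := Sum.inr.inj h
    rw [Sigma.mk.injEq] at this
    exact absurd this.1 (by simp)

theorem claim (g : Option Bool → Λ) (hs : ¬ SerN (N true)) (A : Finset (glue serInc N g).D)
    (hA : Cl (glue serInc N g).a A)
    (hp : ∃ t ∈ A, (glue serInc N g).inc (Sum.inl t) = (glue serInc N g).pole true)
    (hsh : ∀ x y, Sh (fun d => (glue serInc N g).inc (Sum.inl d)) A x →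
      Sh (fun d => (glue serInc N g).inc (Sum.inl d)) A y → x = y) (d : (N true).D) :
    (⟨true, d⟩ : Σ i, (N i).D) ∈ A := by
  by_contra hd
  apply hs
  refine ⟨univ.filter fun d : (N true).D => (⟨true, d⟩ : Σ i, (N i).D) ∈ A, ?_, ?_, ?_, ?_⟩
  · intro d
    rw [mem_filter, mem_filter]
    have := hA (⟨true, d⟩ : Σ i, (N i).D)
    constructor
    · rintro ⟨-, h⟩
      exact ⟨mem_univ _, this.1 h⟩
    · rintro ⟨-, h⟩
      exact ⟨mem_univ _, this.2 h⟩
  · obtain ⟨⟨i, t⟩, ht, h1⟩ := hp
    have h2 : J N i ((N i).inc (Sum.inl t)) = Sum.inl (some true) := by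
      rw [← inc_eq g i t]
      exact h1
    cases i with
    | true => exact ⟨t, by rw [mem_filter]; exact ⟨mem_univ _, ht⟩⟩
    | false =>
      exfalso
      rcases J_cases N false ((N false).inc (Sum.inl t)) with ⟨-, h4⟩ | ⟨-, h4⟩ | ⟨b, -, h4⟩
      · rw [h4] at h2
        simp [serInc] at h2
      · rw [h4] at h2
        simp [serInc] at h2
      · rw [h4] at h2
        cases h2
  · intro h
    have : d ∈ (univ : Finset (N true).D) := mem_univ _
    rw [← h, mem_filter] at this
    exact hd this.2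
  · have key : ∀ x, Sh (fun d => (N true).inc (Sum.inl d))
        (univ.filter fun d : (N true).D => (⟨true, d⟩ : Σ i, (N i).D) ∈ A) x →
        Sh (fun d => (glue serInc N g).inc (Sum.inl d)) A (J N true x) := by
      rintro x ⟨⟨t, ht, h1⟩, t', ht', h2⟩
      rw [mem_filter] at ht ht'
      refine ⟨⟨(⟨true, t⟩ : Σ i, (N i).D), ht.2, ?_⟩, (⟨true, t'⟩ : Σ i, (N i).D), ?_, ?_⟩
      · show (glue serInc N g).inc (Sum.inl (⟨true, t⟩ : Σ i, (N i).D)) = _
        rw [inc_eq, ← h1]
      · exact fun h => ht' ⟨mem_univ _, h⟩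
      · show (glue serInc N g).inc (Sum.inl (⟨true, t'⟩ : Σ i, (N i).D)) = _
        rw [inc_eq, ← h2]
    intro x y hx hy
    exact J_inj N true (hsh _ _ (key x hx) (key y hy))

/-- the isomorphism `(e, f)` maps the first part into the first part -/
theorem first (hN' : ∀ i, (N' i).IsGood) (hs : ¬ SerN (N true))
    (e : (glue serInc N g).D ≃ (glue serInc N' g').D)
    (f : (glue serInc N g).V ≃ (glue serInc N' g').V)
    (h1 : ∀ d, e ((glue serInc N g).a d) = (glue serInc N' g').a (e d))
    (h2 : ∀ d, f ((glue serInc N g).inc (Sum.inl d)) = (glue serInc N' g').inc (Sum.inl (e d)))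
    (h3 : ∀ b, f ((glue serInc N g).pole b) = (glue serInc N' g').pole b) (d : (N true).D) :
    (e (⟨true, d⟩ : Σ i, (N i).D)).1 = true := by
  have h := claim (N := N) g hs (univ.filter fun t => (e t).1 = true) ?_ ?_ ?_ d
  · exact (mem_filter.1 h).2
  · intro t
    rw [mem_filter, mem_filter, h1]
    constructor
    · rintro ⟨-, h⟩
      exact ⟨mem_univ _, h⟩
    · rintro ⟨-, h⟩
      exact ⟨mem_univ _, h⟩
  · obtain ⟨d', hd'⟩ := NetSer.exists_pole (hN' true) true
    refine ⟨e.symm (⟨true, d'⟩ : Σ i, (N' i).D), ?_, ?_⟩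
    · rw [mem_filter, Equiv.apply_symm_apply]
      exact ⟨mem_univ _, rfl⟩
    · apply f.injective
      rw [h2, Equiv.apply_symm_apply, h3, inc_eq, hd', J_true]
      rfl
  · have key : ∀ x, Sh (fun d => (glue serInc N g).inc (Sum.inl d))
        (univ.filter fun t => (e t).1 = true) x → f x = Sum.inl none := by
      rintro x ⟨⟨t, ht, h4⟩, t', ht', h5⟩
      rw [mem_filter] at ht ht'
      have h6 : f x = (glue serInc N' g').inc (Sum.inl (e t)) := by rw [← h4, h2]
      have h7 : f x = (glue serInc N' g').inc (Sum.inl (e t')) := by rw [← h5, h2]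
      rcases he : e t with ⟨i, u⟩
      rcases he' : e t' with ⟨i', u'⟩
      have hi : i = true := by
        have := ht.2
        rwa [he] at this
      have hi' : i' = false := by
        rw [← Bool.not_eq_true]
        intro h8
        apply ht'
        refine ⟨mem_univ _, ?_⟩
        rw [he']
        exact h8
      subst hi hi'
      rw [he, inc_eq] at h6
      rw [he', inc_eq] at h7
      rw [h6]
      exact J_share N' (h6.symm.trans h7)
    intro x y hx hy
    exact f.injective ((key x hx).trans (key y hy).symm)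

theorem lab_J (g : Option Bool → Λ) (i : Bool) {x : (N i).V} (hx : ∀ b, x ≠ (N i).pole b) :
    (glue serInc N g).lab (J N i x) = (N i).lab x := by
  rcases J_cases N i x with ⟨h1, h2⟩ | ⟨h1, h2⟩ | ⟨a, h1, h2⟩
  · exact absurd h1 (hx true)
  · exact absurd h1 (hx false)
  · rw [h2, ← h1]
    rfl

theorem J_not_pole (g : Option Bool → Λ) (i : Bool) {x : (N i).V} (hx : ∀ b, x ≠ (N i).pole b)
    (b : Bool) : J N i x ≠ (glue serInc N g).pole b := by
  rcases J_cases N i x with ⟨h1, h2⟩ | ⟨h1, h2⟩ | ⟨a, h1, h2⟩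
  · exact absurd h1 (hx true)
  · exact absurd h1 (hx false)
  · rw [h2]
    intro h
    cases h

theorem main (hN : ∀ i, (N i).IsGood) (hN' : ∀ i, (N' i).IsGood) (hs : ¬ SerN (N true))
    (hs' : ¬ SerN (N' true)) (h : NIso (glue serInc N g) (glue serInc N' g')) :
    (∀ i, NIso (N i) (N' i)) ∧ g none = g' none := by
  obtain ⟨e, f, h1, h2, h3, h4⟩ := h
  have s1 : ∀ d, e.symm ((glue serInc N' g').a d) = (glue serInc N g).a (e.symm d) := by
    intro d
    rw [Equiv.symm_apply_eq, h1, Equiv.apply_symm_apply]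
  have s2 : ∀ d, f.symm ((glue serInc N' g').inc (Sum.inl d)) =
      (glue serInc N g).inc (Sum.inl (e.symm d)) := by
    intro d
    rw [Equiv.symm_apply_eq, h2, Equiv.apply_symm_apply]
  have s3 : ∀ b, f.symm ((glue serInc N' g').pole b) = (glue serInc N g).pole b := by
    intro b
    rw [Equiv.symm_apply_eq, h3]
  have a1 := first hN' hs e f h1 h2 h3
  have a2 := first hN hs' e.symm f.symm s1 s2 s3
  have hex : ∀ i (d : (N i).D), ∃ u : (N' i).D, e (⟨i, d⟩ : Σ i, (N i).D) = ⟨i, u⟩ := by
    intro i d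
    rcases he : e (⟨i, d⟩ : Σ i, (N i).D) with ⟨j, u⟩
    cases i with
    | true =>
      have hj := a1 d
      rw [he] at hj
      have hj' : j = true := hj
      subst hj'
      exact ⟨u, rfl⟩
    | false =>
      cases j with
      | false => exact ⟨u, rfl⟩
      | true =>
        exfalso
        have hu := a2 u
        rw [← he, Equiv.symm_apply_apply] at hu
        exact absurd hu Bool.false_ne_true
  choose E hE using hex
  have hEb : ∀ i, Function.Bijective (E i) := by
    intro i
    constructor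
    · intro d d' hd
      have h5 := hE i d
      rw [hd, ← hE i d'] at h5
      have h6 : (⟨i, d⟩ : Σ i, (N i).D) = ⟨i, d'⟩ := e.injective h5
      rw [Sigma.mk.injEq] at h6
      exact eq_of_heq h6.2
    · intro u
      rcases he : e.symm (⟨i, u⟩ : Σ i, (N' i).D) with ⟨j, d⟩
      rw [Equiv.symm_apply_eq] at he
      have he' : (⟨i, u⟩ : Σ i, (N' i).D) = ⟨j, E j d⟩ := he.trans (hE j d)
      rw [Sigma.mk.injEq] at he'
      obtain ⟨rfl, he'⟩ := he'
      exact ⟨d, (eq_of_heq he').symm⟩
  have hinc : ∀ i (d : (N i).D), f (J N i ((N i).inc (Sum.inl d))) =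
      J N' i ((N' i).inc (Sum.inl (E i d))) := by
    intro i d
    rw [← inc_eq g i d, h2, hE i d, inc_eq]
  have hmid : f (Sum.inl none) = Sum.inl none := by
    obtain ⟨d1, hd1⟩ := NetSer.exists_pole (hN true) false
    obtain ⟨d2, hd2⟩ := NetSer.exists_pole (hN false) true
    have h5 := hinc true d1
    have h6 := hinc false d2
    rw [hd1, J_false hN] at h5
    rw [hd2, J_true] at h6
    have h7 : f (Sum.inl none) = J N' true ((N' true).inc (Sum.inl (E true d1))) := h5
    have h8 : f (Sum.inl none) = J N' false ((N' false).inc (Sum.inl (E false d2))) := h6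
    rw [h7]
    exact J_share N' (h7.symm.trans h8)
  have hcore : ∀ i b, f (Sum.inl (serInc (Sum.inl (i, b)))) = Sum.inl (serInc (Sum.inl (i, b))) := by
    intro i b
    have hp : ∀ b, f (Sum.inl (some b)) = Sum.inl (some b) := fun b => h3 b
    cases i <;> cases b
    · exact hp false
    · exact hmid
    · exact hmid
    · exact hp true
  have hpole : ∀ i b, f (J N i ((N i).pole b)) = J N' i ((N' i).pole b) := by
    intro i b
    cases b
    · rw [J_false hN, J_false hN', hcore]
    · rw [J_true, J_true, hcore]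
  have hFx : ∀ i (x : (N i).V), ∃ y : (N' i).V, J N' i y = f (J N i x) := by
    intro i x
    obtain ⟨t, rfl⟩ := (hN i).surj x
    rcases t with d | b
    · exact ⟨_, (hinc i d).symm⟩
    · exact ⟨_, (hpole i b).symm⟩
  choose F hF using hFx
  have hFd : ∀ i (d : (N i).D), F i ((N i).inc (Sum.inl d)) = (N' i).inc (Sum.inl (E i d)) := by
    intro i d
    apply J_inj N' i
    rw [hF, hinc]
  have hFp : ∀ i b, F i ((N i).pole b) = (N' i).pole b := by
    intro i b
    apply J_inj N' i
    rw [hF, hpole]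
  have hFb : ∀ i, Function.Bijective (F i) := by
    intro i
    constructor
    · intro x y hxy
      apply J_inj N i
      apply f.injective
      rw [← hF, ← hF, hxy]
    · intro y
      obtain ⟨t, rfl⟩ := (hN' i).surj y
      rcases t with u | b
      · obtain ⟨d, rfl⟩ := (hEb i).2 u
        exact ⟨_, hFd i d⟩
      · exact ⟨_, hFp i b⟩
  refine ⟨fun i => ⟨Equiv.ofBijective (E i) (hEb i), Equiv.ofBijective (F i) (hFb i), ?_, ?_, ?_, ?_⟩, ?_⟩
  · intro d
    have h5 := h1 (⟨i, d⟩ : Σ i, (N i).D)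
    rw [hE i d] at h5
    have h6 : (⟨i, E i ((N i).a d)⟩ : Σ i, (N' i).D) = ⟨i, (N' i).a (E i d)⟩ :=
      (hE i ((N i).a d)).symm.trans h5
    rw [Sigma.mk.injEq] at h6
    exact eq_of_heq h6.2
  · exact hFd i
  · exact hFp i
  · intro x hx
    have hx' : ∀ b, F i x ≠ (N' i).pole b := by
      intro b hb
      rw [← hFp i b] at hb
      exact hx b ((hFb i).1 hb)
    have h5 := h4 (J N i x) (J_not_pole g i hx)
    rw [← hF, lab_J g i hx, lab_J g' i hx'] at h5
    exact h5
  · have h5 := h4 (Sum.inl none) (fun b hb => by cases hb)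
    rw [hmid] at h5
    exact h5.symm

end SerUq

/-- Proof.  Let `(e, f)` be the isomorphism, `A₁` the set of darts of `N₁` in `serGlue N₁ N₂ g`.
Claim: every closed set `A` of nonroot darts which contains a dart at the pole `true` and shares at most one vertex with the
other nonroot darts contains `A₁`: the darts at the pole `true` are in `A₁`, so `A ∩ A₁` is nonempty; if `A₁ ⊄ A`, then
`A ∩ A₁` is a closed nonempty proper set of darts of `N₁`, so it shares two different vertices with the other darts of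
`N₁` because `N₁` is not series, and `A` shares these two vertices with its complement.
Apply the claim to `e⁻¹ (A₁')` and in the other direction to `e (A₁)` (`A₁` shares only the middle vertex with its
complement): `e (A₁) = A₁'`.  So `e` maps `A₂` onto `A₂'` and `f` maps the middle vertex to the middle vertex; restrict. -/
theorem serGlue_inj {N₁ N₂ N₁' N₂' : LNet Λ} (h₁ : N₁.IsGood) (h₂ : N₂.IsGood) (h₁' : N₁'.IsGood)
    (h₂' : N₂'.IsGood) (g g' : Option Bool → Λ) (hs : ¬ SerN N₁) (hs' : ¬ SerN N₁')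
    (h : NIso (serGlue N₁ N₂ g) (serGlue N₁' N₂' g')) :
    NIso N₁ N₁' ∧ NIso N₂ N₂' ∧ g none = g' none := by
  have hm := SerUq.main (N := fun i => bif i then N₁ else N₂) (N' := fun i => bif i then N₁' else N₂')
    (g := g) (g' := g') (fun i => by cases i; exacts [h₂, h₁]) (fun i => by cases i; exacts [h₂', h₁'])
    hs hs' h
  exact ⟨hm.1 true, hm.1 false, hm.2⟩

end PGr

end
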