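import Pool.Agent.PGm.M16
import Pool.Agent.PGr.ParProps
import Pool.Agent.PGr.TriProps

section
/-! # Module Pat: the patterns of the series and parallel composition are good maps -/

set_option linter.unusedSectionVars false

namespace PGr
open Equiv Finset
open scoped ENNReal
universe u
variable {Λ : Type u}

/-- The bond with three edges (the dual of the triangle); the nonroot edges are `true`, `false`.  Rotation at
the vertex `true`: root, `(true, true)`, `(false, true)`; at the vertex `false`: root, `(false, false)`,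
`(true, false)`. -/
def bond3 : Core :=
  { I := Bool
    s := (swap (Sum.inr true) (Sum.inl (true, true)) *
        swap (Sum.inl (true, true)) (Sum.inl (false, true))) *
      (swap (Sum.inr false) (Sum.inl (false, false)) *
        swap (Sum.inl (false, false)) (Sum.inl (true, false))) }

def Pat_s : Perm ((Bool × Bool) ⊕ Bool) :=
  (swap (Sum.inr true) (Sum.inl (true, true)) *
      swap (Sum.inl (true, true)) (Sum.inl (false, true))) *
    (swap (Sum.inr false) (Sum.inl (false, false)) *
      swap (Sum.inl (false, false)) (Sum.inl (true, false)))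

theorem Pat_ns : ∀ A : Finset ((Bool × Bool) ⊕ Bool),
    (∀ t, TriProps_a t ∈ A ↔ t ∈ A) → A.Nonempty → A ≠ univ →
    4 ≤ (univ.filter fun t => ¬ (t ∈ A ↔ Pat_s t ∈ A)).card := by
  decide +kernel

theorem Pat_pl : Pl bond3.toB.aa bond3.toB.s := by
  intro p q H
  have e1 : p (Sum.inr true) + q (Sum.inr false) =
      p (Sum.inl (true, true)) + q (Sum.inl (true, true)) := H (Sum.inr true)
  have e2 : p (Sum.inl (true, true)) + q (Sum.inl (true, false)) =
      p (Sum.inl (false, true)) + q (Sum.inl (false, true)) := H (Sum.inl (true, true))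
  have e3 : p (Sum.inl (false, true)) + q (Sum.inl (false, false)) =
      p (Sum.inr true) + q (Sum.inr true) := H (Sum.inl (false, true))
  have e4 : p (Sum.inr false) + q (Sum.inr true) =
      p (Sum.inl (false, false)) + q (Sum.inl (false, false)) := H (Sum.inr false)
  have e5 : p (Sum.inl (false, false)) + q (Sum.inl (false, true)) =
      p (Sum.inl (true, false)) + q (Sum.inl (true, false)) := H (Sum.inl (false, false))
  have e6 : p (Sum.inl (true, false)) + q (Sum.inl (true, true)) =
      p (Sum.inr false) + q (Sum.inr false) := H (Sum.inl (true, false))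
  have h2 : (2 : ZMod 2) = 0 := by decide
  have k1 : p (Sum.inr true) + p (Sum.inl (false, true)) =
      p (Sum.inr false) + p (Sum.inl (false, false)) := by
    linear_combination e3 + e4 + (p (Sum.inr true) - p (Sum.inr false)) * h2
  have k2 : p (Sum.inl (true, true)) + p (Sum.inl (false, true)) =
      p (Sum.inl (false, false)) + p (Sum.inl (true, false)) := by
    linear_combination e2 + e5 + (p (Sum.inl (false, true)) - p (Sum.inl (false, false))) * h2
  have k3 : p (Sum.inr true) + p (Sum.inl (true, true)) =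
      p (Sum.inl (true, false)) + p (Sum.inr false) := by
    linear_combination e1 + e6 + (p (Sum.inl (true, true)) - p (Sum.inl (true, false))) * h2
  refine ⟨fun t => match t with
    | Sum.inl (true, _) => p (Sum.inr true) + p (Sum.inl (true, true))
    | Sum.inl (false, _) => p (Sum.inr true) + p (Sum.inl (false, true))
    | Sum.inr _ => 0, ?_, ?_⟩
  · rintro (⟨(_ | _), (_ | _)⟩ | (_ | _)) <;> rfl
  · rintro (⟨(_ | _), (_ | _)⟩ | (_ | _))
    · show (p (Sum.inr true) + p (Sum.inl (false, true))) +
        (p (Sum.inr true) + p (Sum.inl (true, true))) =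
        p (Sum.inl (false, false)) + p (Sum.inl (true, false))
      linear_combination k2 + p (Sum.inr true) * h2
    · show (p (Sum.inr true) + p (Sum.inl (false, true))) + 0 =
        p (Sum.inl (false, true)) + p (Sum.inr true)
      ring
    · show (p (Sum.inr true) + p (Sum.inl (true, true))) + 0 =
        p (Sum.inl (true, false)) + p (Sum.inr false)
      linear_combination k3
    · show (p (Sum.inr true) + p (Sum.inl (true, true))) +
        (p (Sum.inr true) + p (Sum.inl (false, true))) =
        p (Sum.inl (true, true)) + p (Sum.inl (false, true))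
      linear_combination p (Sum.inr true) * h2
    · show (0 : ZMod 2) + (p (Sum.inr true) + p (Sum.inl (false, true))) =
        p (Sum.inr false) + p (Sum.inl (false, false))
      linear_combination k1
    · show (0 : ZMod 2) + (p (Sum.inr true) + p (Sum.inl (true, true))) =
        p (Sum.inr true) + p (Sum.inl (true, true))
      ring

/-- as `tri_good` (`Pool/Agent/PGr/TriProps.lean`), or by duality from it -/
theorem bond3_good : bond3.toB.IsGood where
  inv := by
    have : ∀ t : (Bool × Bool) ⊕ Bool, TriProps_a (TriProps_a t) = t := by decide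
    exact this
  fpf := by
    have : ∀ t : (Bool × Bool) ⊕ Bool, TriProps_a t ≠ t := by decide
    exact this
  ns := Pat_ns
  pl := Pat_pl
  big := by
    show 4 ≤ Fintype.card ((Bool × Bool) ⊕ Bool)
    decide

theorem Pat_same (t t' : (Bool × Bool) ⊕ Bool) :
    Pat_s.SameCycle t t' ↔ bondInc Bool t = bondInc Bool t' := by
  have h1 : ∀ t t' : (Bool × Bool) ⊕ Bool, bondInc Bool t = bondInc Bool t' →
      t' = t ∨ t' = Pat_s t ∨ t' = Pat_s (Pat_s t) := by decide
  have h2 : ∀ t : (Bool × Bool) ⊕ Bool, bondInc Bool (Pat_s t) = bondInc Bool t := by decide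
  constructor
  · rintro ⟨i, rfl⟩
    induction i using Int.induction_on generalizing t with
    | zero => simp
    | succ n ih =>
      rw [zpow_add_one, Perm.mul_apply, ← ih (Pat_s t), h2]
    | pred n ih =>
      rw [zpow_sub_one, Perm.mul_apply, ← ih (Pat_s⁻¹ t)]
      have := h2 (Pat_s⁻¹ t)
      rw [TriProps_app] at this
      exact this
  · intro h
    rcases h1 t t' h with h | h | h
    · rw [h]
    · rw [h]
      exact ⟨1, by simp⟩
    · rw [h]
      exact ⟨2, by simp [pow_two]⟩

/-- its vertices -/
theorem bond3_vinc : ∃ e : bond3.CV ≃ Bool, ∀ x, e (bond3.vinc x) = bondInc Bool x := by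
  refine ⟨Equiv.ofBijective (Quotient.lift (bondInc Bool) fun t t' h => (Pat_same t t').mp h)
      ⟨?_, ?_⟩, fun x => rfl⟩
  · intro x y
    induction x using Quotient.inductionOn with | _ x => ?_
    induction y using Quotient.inductionOn with | _ y => ?_
    intro h
    exact Quotient.sound ((Pat_same x y).mpr h)
  · intro b
    exact ⟨Quotient.mk _ (Sum.inr b), rfl⟩

theorem Pat_serInc (x : (Bool × Bool) ⊕ Bool) : TriProps_v x = serInc x := by
  revert x
  decide

theorem tri_vinc : ∃ e : tri.CV ≃ Option Bool, ∀ x, e (tri.vinc x) = serInc x := by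
  refine ⟨Equiv.ofBijective (Quotient.lift TriProps_v fun t t' h => (TriProps_same t t').mp h)
      ⟨?_, ?_⟩, fun x => Pat_serInc x⟩
  · intro x y
    induction x using Quotient.inductionOn with | _ x => ?_
    induction y using Quotient.inductionOn with | _ y => ?_
    intro h
    exact Quotient.sound ((TriProps_same x y).mpr h)
  · rintro (_ | b)
    · exact ⟨Quotient.mk _ (Sum.inl (true, false)), rfl⟩
    · exact ⟨Quotient.mk _ (Sum.inr b), rfl⟩

section
variable {I Vc Vc' : Type} [Fintype I] [DecidableEq I] [Fintype Vc] [DecidableEq Vc] [Fintype Vc']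
  [DecidableEq Vc']

/-- relabelling of the vertices of the pattern -/
theorem glue_cinc (cinc : (I × Bool) ⊕ Bool → Vc) (cinc' : (I × Bool) ⊕ Bool → Vc') (e : Vc ≃ Vc')
    (he : ∀ x, e (cinc x) = cinc' x) (N : I → LNet Λ) (g : Vc → Λ) (g' : Vc' → Λ)
    (hg : ∀ x, (∀ b, x ≠ cinc (Sum.inr b)) → g' (e x) = g x) :
    NIso (glue cinc N g) (glue cinc' N g') := by
  refine ⟨Equiv.refl _, Equiv.sumCongr e (Equiv.refl _), fun _ => rfl, ?_, ?_, ?_⟩
  · rintro ⟨i, d⟩
    change (Equiv.sumCongr e (Equiv.refl _)) (glueInc cinc N (Sum.inl ⟨i, d⟩)) =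
      glueInc cinc' N (Sum.inl ⟨i, d⟩)
    by_cases c1 : (N i).inc (Sum.inl d) = (N i).pole true
    · rw [GlueLib.inc_true _ _ c1, GlueLib.inc_true _ _ c1]
      exact congrArg Sum.inl (he _)
    · by_cases c2 : (N i).inc (Sum.inl d) = (N i).pole false
      · rw [GlueLib.inc_false _ _ c1 c2, GlueLib.inc_false _ _ c1 c2]
        exact congrArg Sum.inl (he _)
      · rw [GlueLib.inc_int _ _ c1 c2, GlueLib.inc_int _ _ c1 c2]
        rfl
  · intro b
    exact congrArg Sum.inl (he (Sum.inr b))
  · rintro (x | ⟨i, x⟩) hx
    · exact hg x (fun b hb => hx b (congrArg Sum.inl hb))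
    · rfl

end

end PGr

end

section
/-! # Module GlueCore: networks glued along a good map are good -/

set_option linter.unusedSectionVars false

namespace PGr
open Equiv Finset
open scoped ENNReal Classical
universe u
variable {Λ : Type u}

open GlueGood in
/-- Proof: as `glue_rig_good` (`Pool/Agent/PGc/GlueGood.lean`, which has all lemmas): rotations of the nets
(`LNet.IsGood.rot`), `comp_good`, `comp_inc`, `glue_surj`; only `simp` is different: two darts in different nets
with the same ends are direct edges of two nets on parallel edges of the core (in one net use `simp` of the net;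
its vertices are mapped injectively because the core has no loops). -/
theorem glue_core_good (C : Core) (hC : C.toB.IsGood) (X : C.I → LNet Λ)
    (hX : ∀ i, (X i).IsGood) (g : C.CV → Λ)
    (hs : ∀ i j b c, i ≠ j → Direct (X i) → Direct (X j) →
      ¬ (C.vinc (Sum.inl (i, b)) = C.vinc (Sum.inl (j, c)) ∧
        C.vinc (Sum.inl (i, !b)) = C.vinc (Sum.inl (j, !c)))) : (glue C.vinc X g).IsGood := by
  obtain ⟨s, hs', hgood⟩ := rot C hC X hX g
  have hdir : ∀ (N : LNet Λ) (hN : N.IsGood) (d : N.D) (b : Bool),
      N.inc (Sum.inl d) = N.pole b → N.inc (Sum.inl (N.a d)) = N.pole (!b) → Direct N := by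
    intro N hN d b h1 h2
    cases b
    · refine ⟨N.a d, h2, ?_⟩
      rw [hN.inv]
      exact h1
    · exact ⟨d, h1, h2⟩
  refine ⟨?_, ?_, ?_, glue_surj C X hX, ?_, ?_, ?_, ⟨s, hs', hgood.pl⟩⟩
  · rintro ⟨i, d⟩
    change (⟨i, (X i).a ((X i).a d)⟩ : Σ i, (X i).D) = ⟨i, d⟩
    rw [(hX i).inv]
  · rintro ⟨i, d⟩ h
    have h1 : (⟨i, (X i).a d⟩ : Σ i, (X i).D) = ⟨i, d⟩ := h
    exact (hX i).fpf d (eq_of_heq (Sigma.mk.inj h1).2)
  · have h3 : 4 ≤ Fintype.card C.toB.T := hC.big
    have h4 : Fintype.card C.toB.T = Fintype.card C.I * 2 + 2 := by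
      show Fintype.card ((C.I × Bool) ⊕ Bool) = _
      rw [Fintype.card_sum, Fintype.card_prod, Fintype.card_bool]
    have : 0 < Fintype.card C.I := by omega
    obtain ⟨i⟩ := Fintype.card_pos_iff.mp this
    obtain ⟨d⟩ := (hX i).ne
    exact ⟨⟨i, d⟩⟩
  · intro t h
    exact hgood.noLoop t ((hs' t _).2 h.symm)
  · rintro ⟨i, e⟩ ⟨j, e'⟩ h1 h2
    by_cases hij : i = j
    · subst hij
      have g1 := inc_inj C hC X hX (d := e) (d' := e') h1
      have g2 := inc_inj C hC X hX (d := (X i).a e) (d' := (X i).a e') h2
      rw [(hX i).simp e e' g1 g2]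
    · exfalso
      have k1 : glueInc C.vinc X (Sum.inl ⟨i, e⟩) = glueInc C.vinc X (Sum.inl ⟨j, e'⟩) := h1
      have k2 : glueInc C.vinc X (Sum.inl ⟨i, (X i).a e⟩) =
        glueInc C.vinc X (Sum.inl ⟨j, (X j).a e'⟩) := h2
      have both : ∀ (f : (X i).D) (f' : (X j).D),
          glueInc C.vinc X (Sum.inl ⟨i, f⟩) = glueInc C.vinc X (Sum.inl ⟨j, f'⟩) →
          ∃ b b', (X i).inc (Sum.inl f) = (X i).pole b ∧ (X j).inc (Sum.inl f') = (X j).pole b' ∧
            C.vinc (Sum.inl (i, b)) = C.vinc (Sum.inl (j, b')) := by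
        intro f f' hf
        rcases pole_or (X i) f with ⟨b, hb⟩ | hb
        · rw [inc_pole C X hX hb] at hf
          obtain ⟨b', hb'⟩ := pole_of_inl C X hf.symm
          rw [inc_pole C X hX hb'] at hf
          exact ⟨b, b', hb, hb', Sum.inl.inj hf⟩
        · rw [inc_int C X hb] at hf
          rcases pole_or (X j) f' with ⟨b', hb'⟩ | hb'
          · rw [inc_pole C X hX hb'] at hf
            cases hf
          · rw [inc_int C X hb'] at hf
            exact absurd (Sigma.mk.inj (Sum.inr.inj hf)).1 hij
      obtain ⟨b, b', p1, p2, p3⟩ := both e e' k1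
      obtain ⟨c, c', q1, q2, q3⟩ := both ((X i).a e) ((X j).a e') k2
      have hc : c = !b := by
        by_contra hne
        have hcb : c = b := by
          cases b <;> cases c <;> simp_all
        apply (hX i).loop (Sum.inl e)
        change (X i).inc (Sum.inl ((X i).a e)) = _
        rw [q1, p1, hcb]
      have hc' : c' = !b' := by
        by_contra hne
        have hcb : c' = b' := by
          cases b' <;> cases c' <;> simp_all
        apply (hX j).loop (Sum.inl e')
        change (X j).inc (Sum.inl ((X j).a e')) = _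
        rw [q2, p2, hcb]
      rw [hc] at q1 q3
      rw [hc'] at q2 q3
      exact hs i j b b' hij (hdir (X i) (hX i) e b p1 q1) (hdir (X j) (hX j) e' b' p2 q2) ⟨p3, q3⟩
  · intro A hA hne hu
    obtain ⟨t, t', h1, h2, h3⟩ := hgood.two_shared hA hne hu
    have key : ∀ t, ShC s A t → Sh (glue C.vinc X g).inc A ((glue C.vinc X g).inc t) := by
      rintro t ⟨⟨x, hx, hx'⟩, y, hy, hy'⟩
      exact ⟨⟨x, hx, ((hs' t x).1 hx').symm⟩, y, hy, ((hs' t y).1 hy').symm⟩
    exact ⟨_, _, fun h => h3 ((hs' t t').2 h), key t h1, key t' h2⟩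

/-- `tri_vinc`, `glue_cinc`; the triangle has no parallel edges -/
theorem serGlue_good {N₁ N₂ : LNet Λ} (h₁ : N₁.IsGood) (h₂ : N₂.IsGood) (g : Option Bool → Λ) :
    (serGlue N₁ N₂ g).IsGood := by
  obtain ⟨e, he⟩ := tri_vinc
  have h1 : NIso (glue tri.vinc (fun i : Bool => bif i then N₁ else N₂) (fun x => g (e x)))
      (glue serInc (fun i : Bool => bif i then N₁ else N₂) g) :=
    glue_cinc (I := Bool) tri.vinc serInc e he (fun i : Bool => bif i then N₁ else N₂)
      (fun x => g (e x)) g (fun x _ => rfl)
  refine h1.good ?_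
  refine glue_core_good tri tri_good (fun i : Bool => bif i then N₁ else N₂) ?_ _ ?_
  · intro i
    change Bool at i
    cases i
    · exact h₂
    · exact h₁
  · intro i j b c hij _ _ h
    change Bool at i j
    obtain ⟨ha, hb⟩ := h
    have ha' : serInc (Sum.inl (i, b)) = serInc (Sum.inl (j, c)) := by
      rw [← he, ← he]
      exact congrArg e ha
    have hb' : serInc (Sum.inl (i, !b)) = serInc (Sum.inl (j, !c)) := by
      rw [← he, ← he]
      exact congrArg e hb
    cases i <;> cases j <;> cases b <;> cases c <;> simp_all [serInc]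

/-- `bond3_vinc`, `glue_cinc` -/
theorem par2_good {N X : LNet Λ} (h : N.IsGood) (h' : X.IsGood) (hd : ¬ (Direct N ∧ Direct X))
    (g : Bool → Λ) : (par2 N X g).IsGood := by
  obtain ⟨e, he⟩ := bond3_vinc
  have h1 : NIso (glue bond3.vinc (fun i : Bool => bif i then N else X) (fun x => g (e x)))
      (glue (bondInc Bool) (fun i : Bool => bif i then N else X) g) :=
    glue_cinc (I := Bool) bond3.vinc (bondInc Bool) e he (fun i : Bool => bif i then N else X)
      (fun x => g (e x)) g (fun x _ => rfl)
  refine h1.good ?_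
  refine glue_core_good bond3 bond3_good (fun i : Bool => bif i then N else X) ?_ _ ?_
  · intro i
    change Bool at i
    cases i
    · exact h'
    · exact h
  · intro i j b c hij h2 h3 _
    change Bool at i j
    cases i <;> cases j
    · exact hij rfl
    · exact hd ⟨h3, h2⟩
    · exact hd ⟨h2, h3⟩
    · exact hij rfl

end PGr

end
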