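import Pool.Agent.PGm.M03
import Pool.Agent.PGm.M16

section
/-! # Module Flip: exchange of the poles of a network -/

set_option linter.unusedSectionVars false

namespace PGr
open Equiv Finset
open scoped ENNReal Classical
universe u
variable {Λ : Type u}
open NetSumC

/-- `cls_iso` -/
theorem NC.fl_rep (c : NC Λ) : NIso c.fl.rep.1 (LNet.fl true c.rep.1) := cls_iso _ _

/-- by `NIso.fl`, `fl_fl`, `fl_false`, `eq_of_rep` -/
theorem NC.fl_fl (c : NC Λ) : c.fl.fl = c := by
  refine eq_of_rep ?_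
  exact ((NC.fl_rep c.fl).trans ((NC.fl_rep c).fl true)).trans
    ((PGr.fl_fl true true c.rep.1).trans (fl_false c.rep.1))

theorem cls_fl {N : LNet Λ} (h : N.IsGood) : cls (LNet.fl true N) (fl_good h) = (cls N h).fl := by
  refine eq_of_rep ?_
  exact (cls_iso _ _).trans (((cls_iso N h).symm.fl true).trans (NC.fl_rep (cls N h)).symm)

theorem Flip_pole (b : Bool) (N : LNet Λ) (c : Bool) :
    (LNet.fl b N).pole c = N.pole (xor b c) := rfl

theorem Flip_int (b : Bool) (N : LNet Λ) (x : N.V) :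
    (∀ c, x ≠ (LNet.fl b N).pole c) ↔ ∀ c, x ≠ N.pole c := by
  constructor
  · intro h c hc
    refine h (xor b c) ?_
    rw [Flip_pole, ← Bool.xor_assoc, Bool.xor_self, Bool.false_xor]
    exact hc
  · intro h c
    exact h (xor b c)

/-- the internal vertices are the same -/
theorem wt_fl (w : Λ → ℝ≥0∞) (b : Bool) (N : LNet Λ) : wt w (LNet.fl b N) = wt w N := by
  unfold wt
  let e : (LNet.fl b N).Int ≃ N.Int := Equiv.subtypeEquivRight (Flip_int b N)
  exact Fintype.prod_equiv e (fun x : (LNet.fl b N).Int => w ((LNet.fl b N).lab x.1))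
    (fun x : N.Int => w (N.lab x.1)) (fun _ => rfl)

theorem fl_direct (b : Bool) {N : LNet Λ} (h : N.IsGood) : Direct (LNet.fl b N) ↔ Direct N := by
  cases b
  · exact Iff.rfl
  · constructor
    · rintro ⟨d, h1, h2⟩
      refine ⟨N.a d, h2, ?_⟩
      have h3 : N.a (N.a d) = d := h.inv d
      rw [h3]
      exact h1
    · rintro ⟨d, h1, h2⟩
      refine ⟨N.a d, h2, ?_⟩
      have h3 : N.a (N.a d) = d := h.inv d
      show N.inc (Sum.inl (N.a (N.a d))) = _
      rw [h3]
      exact h1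

theorem fl_conn (b : Bool) (N : LNet Λ) : Conn (LNet.fl b N) ↔ Conn N := by
  constructor
  · intro h A hA hne hu
    obtain ⟨x, hx, hs⟩ := h A hA hne hu
    exact ⟨x, (Flip_int b N x).1 hx, hs⟩
  · intro h A hA hne hu
    obtain ⟨x, hx, hs⟩ := h A hA hne hu
    exact ⟨x, (Flip_int b N x).2 hx, hs⟩

theorem fl_ser (b : Bool) (N : LNet Λ) : SerN (LNet.fl b N) ↔ SerN N := Iff.rfl

theorem Flip_X {N : LNet Λ} (h : XNet N) : XNet (LNet.fl true N) :=
  ⟨fl_good h.good, (fl_conn true N).2 h.conn, fun hd => h.dir ((fl_direct true h.good).1 hd)⟩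

theorem Flip_xiso {N N' : LNet Λ} (h : NIso N N') (hN : XNet N) : XNet N' :=
  ⟨h.good hN.good, h.conn hN.conn, fun hd => hN.dir (h.symm.direct hd)⟩

theorem Flip_X' (c : NC Λ) (h : c.IsX) : c.fl.IsX :=
  Flip_xiso (NC.fl_rep c).symm (Flip_X h)

theorem NC.fl_X (c : NC Λ) : c.fl.IsX ↔ c.IsX := by
  constructor
  · intro h
    have h1 := Flip_X' c.fl h
    rwa [NC.fl_fl] at h1
  · exact Flip_X' c

theorem NC.fl_Ser (c : NC Λ) : c.fl.IsSer ↔ c.IsSer := by
  constructor
  · intro h
    have h1 : SerN (LNet.fl true c.rep.1) := (NC.fl_rep c).ser h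
    exact (fl_ser true _).1 h1
  · intro h
    exact (NC.fl_rep c).symm.ser ((fl_ser true _).2 h)

theorem NC.wt_fl (w : Λ → ℝ≥0∞) (c : NC Λ) : wt w c.fl.rep.1 = wt w c.rep.1 := by
  rw [(NC.fl_rep c).wt_eq, PGr.wt_fl]

theorem NC.sz_fl (c : NC Λ) : c.fl.sz = c.sz := by
  unfold NC.sz
  rw [(NC.fl_rep c).card_eq]
  rfl

theorem NC.fl_Direct (c : NC Λ) : Direct c.fl.rep.1 ↔ Direct c.rep.1 := by
  rw [← fl_direct true c.rep.2]
  exact ⟨fun h => (NC.fl_rep c).direct h, fun h => (NC.fl_rep c).symm.direct h⟩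

/-- a bijection of `NC` -/
theorem NC.fl_inj {c c' : NC Λ} (h : c.fl = c'.fl) : c = c' := by rw [← c.fl_fl, h, c'.fl_fl]

/-- powers of weights: `(∏ w) ^ k = ∏ (w ^ k)` -/
theorem wt_pow (w : Λ → ℝ≥0∞) (k : ℕ) (N : LNet Λ) : wt (fun l => w l ^ k) N = wt w N ^ k := by
  unfold wt
  exact Finset.prod_pow _ _ _

/-- so all identities for `k = 1` hold for all `k` -/
theorem pN_pow (w : Λ → ℝ≥0∞) (j k : ℕ) (P : NC Λ → Prop) :
    pN (fun l => w l ^ j) k P = pN w (j * k) P := by
  unfold pN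
  refine tsum_congr fun c => ?_
  rw [wt_pow, pow_mul]

theorem pK_pow (w : Λ → ℝ≥0∞) (j k : ℕ) : pK (fun l => w l ^ j) k = pK w (j * k) := by
  unfold pK
  refine tsum_congr fun l => ?_
  rw [pow_mul]

/-- splitting of a sum -/
theorem pN_add (w : Λ → ℝ≥0∞) (k : ℕ) (P Q : NC Λ → Prop) :
    pN w k (fun c => P c ∧ Q c) + pN w k (fun c => P c ∧ ¬ Q c) = pN w k P := by
  unfold pN
  rw [← ENNReal.tsum_add]
  refine tsum_congr fun c => ?_
  by_cases hP : P c <;> by_cases hQ : Q c <;> simp [hP, hQ]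

/-- relation with `Nsel` (the properties `P` of networks used here are invariant under `NIso`, but the
sums use representatives in both cases) -/
theorem pN_one (w : Λ → ℝ≥0∞) (P : LNet Λ → Prop) : pN w 1 (fun c => P c.rep.1) = Nsel w P := by
  unfold pN Nsel
  refine tsum_congr fun c => ?_
  by_cases hP : P c.rep.1 <;> simp [hP]

end PGr

end

section
/-! # Module DMLibB: the decorated maps of codes -/

set_option linter.unusedSectionVars false

namespace PGr
open Equiv Finset
open scoped ENNReal Classical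
universe u
variable {Λ : Type u} {α β : Type*}
open NetSumC

theorem DMLibB.eDec_true {I : Type} (F : I → NC Λ) (i : I) : eDec F (i, true) = F i := rfl

theorem DMLibB.eDec_false {I : Type} (F : I → NC Λ) (i : I) : eDec F (i, false) = (F i).fl := rfl

theorem DMLibB.eDec_not {I : Type} (F : I → NC Λ) (x : I × Bool) :
    eDec F (x.1, !x.2) = (eDec F x).fl := by
  obtain ⟨i, b⟩ := x
  cases b
  · show F i = (F i).fl.fl
    rw [NC.fl_fl]
  · rfl

theorem hat_inj {p q : Ix Λ} (h : hat p = hat q) : p = q := by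
  obtain ⟨c, F, G⟩ := p
  obtain ⟨c', F', G'⟩ := q
  obtain rfl : c = c' := congrArg Sigma.fst h
  have h2 := eq_of_heq (Sigma.mk.inj h).2
  have hF := congrArg Prod.fst h2
  have hG := congrArg Prod.snd h2
  have h3 : F = F' := by
    funext i
    have h5 := congrFun hF (Sum.inl (i, true))
    exact Option.some.inj h5
  have h4 : G = G' := by
    funext x
    have h5 := congrFun hG x.1
    dsimp only at h5
    rw [dif_pos x.2, dif_pos x.2] at h5
    exact Option.some.inj h5
  rw [h3, h4]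

/-- the decorated maps which come from codes -/
theorem exists_hat {q : DC (Option (NC Λ)) (Option Λ)}
    (h1 : ∀ t, q.2.1 ((core q.1).toB.aa t) = (q.2.1 t).map NC.fl)
    (h2 : ∀ t, q.2.1 t = none ↔ ∃ b, t = Sum.inr b)
    (h3 : ∀ x, q.2.2 x = none ↔ ∃ b, x = (core q.1).vinc (Sum.inr b)) : ∃ p : Ix Λ, hat p = q := by
  obtain ⟨c, f, g⟩ := q
  dsimp only at h1 h2 h3
  have hf : ∀ i : (core c).I, ∃ N : NC Λ, f (Sum.inl (i, true)) = some N := by
    intro i
    rcases h : f (Sum.inl (i, true)) with _ | N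
    · obtain ⟨b, hb⟩ := (h2 _).1 h
      cases hb
    · exact ⟨N, rfl⟩
  have hg : ∀ x : CInt (core c), ∃ l : Λ, g x.1 = some l := by
    intro x
    rcases h : g x.1 with _ | l
    · obtain ⟨b, hb⟩ := (h3 _).1 h
      exact absurd hb (x.2 b)
    · exact ⟨l, rfl⟩
  choose F hF using hf
  choose G hG using hg
  refine ⟨⟨c, F, G⟩, ?_⟩
  refine congrArg (Sigma.mk c) (Prod.ext ?_ ?_)
  · funext t
    rcases t with ⟨i, b⟩ | b
    · cases b
      · have h4 := h1 (Sum.inl (i, true))
        rw [hF] at h4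
        exact h4.symm
      · exact (hF i).symm
    · exact ((h2 (Sum.inr b)).2 ⟨b, rfl⟩).symm
  · funext x
    show (if h : ∀ b, x ≠ (core c).vinc (Sum.inr b) then some (G ⟨x, h⟩) else none) = g x
    by_cases h : ∀ b, x ≠ (core c).vinc (Sum.inr b)
    · rw [dif_pos h]
      exact (hG ⟨x, h⟩).symm
    · rw [dif_neg h]
      push Not at h
      exact ((h3 x).2 h).symm

theorem DMLibB.hat_aa (p : Ix Λ) (t : CT (hat p).1) :
    (hat p).2.1 ((core (hat p).1).toB.aa t) = ((hat p).2.1 t).map NC.fl := by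
  rcases t with ⟨i, b⟩ | b
  · show some (eDec p.2.1 (i, !b)) = some (eDec p.2.1 (i, b)).fl
    rw [DMLibB.eDec_not p.2.1 (i, b)]
  · rfl

theorem DMLibB.hat_none (p : Ix Λ) (t : CT (hat p).1) :
    (hat p).2.1 t = none ↔ ∃ b, t = Sum.inr b := by
  rcases t with x | b
  · constructor
    · intro h
      cases h
    · rintro ⟨b, hb⟩
      cases hb
  · exact ⟨fun _ => ⟨b, rfl⟩, fun _ => rfl⟩

theorem DMLibB.hat_none' (p : Ix Λ) (x : (core (hat p).1).CV) :
    (hat p).2.2 x = none ↔ ∃ b, x = (core (hat p).1).vinc (Sum.inr b) := by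
  show (if h : ∀ b, x ≠ (core p.1).vinc (Sum.inr b) then some (p.2.2 ⟨x, h⟩) else none) = none ↔ _
  by_cases h : ∀ b, x ≠ (core p.1).vinc (Sum.inr b)
  · rw [dif_pos h]
    constructor
    · intro h'
      cases h'
    · rintro ⟨b, hb⟩
      exact absurd hb (h b)
  · rw [dif_neg h]
    push Not at h
    exact ⟨fun _ => h, fun _ => rfl⟩

theorem DMLibB.vinc_eq_iff {C : Core} {t t' : C.toB.T} : C.vinc t = C.vinc t' ↔ C.s.SameCycle t t' :=
  Quotient.eq (r := Perm.SameCycle.setoid C.s)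

theorem DMLibB.vinc_surj (C : Core) (x : C.CV) : ∃ t, C.vinc t = x := Quotient.exists_rep x

theorem DMLibB.dm_vinc {p q : DC α β} {o : Bool} {ψ : CT p.1 ≃ CT q.1} (h : DM p q o ψ)
    (t t' : CT p.1) : (core p.1).vinc t = (core p.1).vinc t' ↔
      (core q.1).vinc (ψ t) = (core q.1).vinc (ψ t') := by
  rw [DMLibB.vinc_eq_iff (C := core p.1), DMLibB.vinc_eq_iff (C := core q.1)]
  exact h.sameCycle t t'

/-- codes rooted at one of the two darts of the root edge, or reflected -/
theorem hat_reroot (p : Ix Λ) (b o : Bool) :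
    ∃ (q : Ix Λ) (ψ : CT (hat p).1 ≃ CT (hat q).1), DM (hat p) (hat q) o ψ ∧
      ψ (Sum.inr b) = Sum.inr true := by
  obtain ⟨q, ψ, hψ, hr⟩ := exists_reroot (hat p) (Sum.inr b) o
  have hr' : ψ (Sum.inr (!b)) = Sum.inr false := by
    have h1 := hψ.a (Sum.inr b)
    rw [hr] at h1
    exact h1
  have hroot : ∀ t, (∃ c, t = (Sum.inr c : CT (hat p).1)) ↔ ∃ c, ψ t = (Sum.inr c : CT q.1) := by
    intro t
    constructor
    · rintro ⟨c, rfl⟩
      by_cases hc : c = b
      · subst hc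
        exact ⟨true, hr⟩
      · have : c = !b := by cases b <;> cases c <;> simp_all
        subst this
        exact ⟨false, hr'⟩
    · rintro ⟨c, hc⟩
      cases c
      · exact ⟨!b, ψ.injective (hc.trans hr'.symm)⟩
      · exact ⟨b, ψ.injective (hc.trans hr.symm)⟩
  have h1 : ∀ t, q.2.1 ((core q.1).toB.aa t) = (q.2.1 t).map NC.fl := by
    intro t
    obtain ⟨t, rfl⟩ := ψ.surjective t
    rw [← hψ.a, hψ.f, hψ.f, DMLibB.hat_aa]
  have h2 : ∀ t, q.2.1 t = none ↔ ∃ b, t = Sum.inr b := by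
    intro t
    obtain ⟨t, rfl⟩ := ψ.surjective t
    rw [hψ.f, DMLibB.hat_none, hroot]
  have h3 : ∀ x, q.2.2 x = none ↔ ∃ b, x = (core q.1).vinc (Sum.inr b) := by
    intro x
    obtain ⟨t, rfl⟩ := DMLibB.vinc_surj _ x
    obtain ⟨t, rfl⟩ := ψ.surjective t
    rw [hψ.g, DMLibB.hat_none']
    constructor
    · rintro ⟨c, hc⟩
      obtain ⟨c', hc'⟩ := (hroot (Sum.inr c)).1 ⟨c, rfl⟩
      exact ⟨c', ((DMLibB.dm_vinc hψ _ _).1 hc).trans (congrArg (core q.1).vinc hc')⟩
    · rintro ⟨c, hc⟩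
      obtain ⟨t', ht'⟩ := ψ.surjective (Sum.inr c)
      obtain ⟨c', hc'⟩ := (hroot t').2 ⟨c, ht'⟩
      exact ⟨c', ((DMLibB.dm_vinc hψ _ _).2 (hc.trans (congrArg (core q.1).vinc ht'.symm))).trans
        (congrArg (core (hat p).1).vinc hc')⟩
  obtain ⟨q', rfl⟩ := exists_hat h1 h2 h3
  exact ⟨q', ψ, hψ, hr⟩

/-- a matching of codes maps the root edge to the root edge -/
theorem DM.hat_root {p q : Ix Λ} {o : Bool} {ψ : CT (hat p).1 ≃ CT (hat q).1}
    (h : DM (hat p) (hat q) o ψ) : ∃ b, ∀ c, ψ (Sum.inr c) = Sum.inr (xor b c) := by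
  have h1 : (hat q).2.1 (ψ (Sum.inr true)) = none := by
    rw [h.f]
    exact (DMLibB.hat_none p _).2 ⟨true, rfl⟩
  obtain ⟨b, hb⟩ := (DMLibB.hat_none q _).1 h1
  have h2 : ψ (Sum.inr false) = Sum.inr (!b) := by
    have h3 := h.a (Sum.inr true)
    rw [hb] at h3
    exact h3
  refine ⟨!b, fun c => ?_⟩
  cases c
  · rw [h2, Bool.xor_false]
  · rw [hb, Bool.xor_true, Bool.not_not]

end PGr

end

section
/-! # Module DMLib: the decorated maps of full codes -/

set_option linter.unusedSectionVars false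

namespace PGr
open Equiv Finset
open scoped ENNReal Classical
universe u
variable {Λ : Type u} {α β : Type*}
open NetSumC

theorem FC.hat_inj {p q : FC Λ} (h : p.hat = q.hat) : p = q := by
  obtain ⟨c, F, N, G⟩ := p
  obtain ⟨c', F', N', G'⟩ := q
  obtain rfl : c = c' := congrArg Sigma.fst h
  have h2 := eq_of_heq (Sigma.mk.inj h).2
  have hF := congrArg Prod.fst h2
  have hG := congrArg Prod.snd h2
  have h3 : F = F' := by
    funext i
    exact congrFun hF (Sum.inl (i, true))
  have h5 : N = N' := congrFun hF (Sum.inr true)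
  have h4 : G = G' := by
    funext x
    have h5 := congrFun hG x.1
    dsimp only at h5
    rw [dif_pos x.2, dif_pos x.2] at h5
    exact Option.some.inj h5
  rw [h3, h4, h5]

namespace DMLib

/-- the decorated maps which come from full codes -/
theorem exists_fc {q : DC (NC Λ) (Option Λ)}
    (h1 : ∀ t, q.2.1 ((core q.1).toB.aa t) = (q.2.1 t).fl)
    (h3 : ∀ x, q.2.2 x = none ↔ x = (core q.1).vinc (Sum.inr true)) : ∃ p : FC Λ, p.hat = q := by
  obtain ⟨c, f, g⟩ := q
  dsimp only at h1 h3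
  have hg : ∀ x : CExt (core c), ∃ l : Λ, g x.1 = some l := by
    intro x
    rcases h : g x.1 with _ | l
    · exact absurd ((h3 _).1 h) x.2
    · exact ⟨l, rfl⟩
  choose G hG using hg
  refine ⟨⟨c, fun i => f (Sum.inl (i, true)), f (Sum.inr true), G⟩, ?_⟩
  refine congrArg (Sigma.mk c) (Prod.ext ?_ ?_)
  · funext t
    rcases t with ⟨i, b⟩ | b
    · cases b
      · exact (h1 (Sum.inl (i, true))).symm
      · rfl
    · cases b
      · exact (h1 (Sum.inr true)).symm
      · rfl
  · funext x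
    show (if h : x ≠ (core c).vinc (Sum.inr true) then some (G ⟨x, h⟩) else none) = g x
    by_cases h : x ≠ (core c).vinc (Sum.inr true)
    · rw [dif_pos h]
      exact (hG ⟨x, h⟩).symm
    · rw [dif_neg h]
      exact ((h3 x).2 (not_not.1 h)).symm

theorem hat_aa (p : FC Λ) (t : CT p.hat.1) :
    p.hat.2.1 ((core p.hat.1).toB.aa t) = (p.hat.2.1 t).fl := by
  rcases t with ⟨i, b⟩ | b
  · show eDec p.2.1 (i, !b) = (eDec p.2.1 (i, b)).fl
    exact DMLibB.eDec_not p.2.1 (i, b)
  · cases b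
    · show p.2.2.1 = p.2.2.1.fl.fl
      rw [NC.fl_fl]
    · rfl

theorem hat_none (p : FC Λ) (x : (core p.hat.1).CV) :
    p.hat.2.2 x = none ↔ x = (core p.hat.1).vinc (Sum.inr true) := by
  show (if h : x ≠ (core p.1).vinc (Sum.inr true) then some (p.2.2.2 ⟨x, h⟩) else none) = none ↔ _
  by_cases h : x ≠ (core p.1).vinc (Sum.inr true)
  · rw [dif_pos h]
    constructor
    · intro h'
      cases h'
    · intro hb
      exact absurd hb h
  · rw [dif_neg h]
    exact ⟨fun _ => not_not.1 h, fun _ => rfl⟩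

theorem hat_some (p : FC Λ) (x : CExt (core p.1)) : p.hat.2.2 x.1 = some (p.2.2.2 x) := by
  show (if h : x.1 ≠ (core p.1).vinc (Sum.inr true) then some (p.2.2.2 ⟨x.1, h⟩) else none) = _
  rw [dif_pos x.2]

/-- the bijection of the vertices -/
theorem exists_cv {p q : DC α β} {o : Bool} {ψ : CT p.1 ≃ CT q.1} (h : DM p q o ψ) :
    ∃ e : (core p.1).CV ≃ (core q.1).CV,
      ∀ t, e ((core p.1).vinc t) = (core q.1).vinc (ψ t) := by
  refine ⟨Quotient.congr (ra := Perm.SameCycle.setoid (core p.1).s)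
    (rb := Perm.SameCycle.setoid (core q.1).s) ψ (fun t t' => h.sameCycle t t'), fun t => rfl⟩

/-- the square of the product of the weights of the networks -/
theorem prod_darts (w : Λ → ℝ≥0∞) (p : FC Λ) :
    ∏ t : CT p.1, PGr.wt w (p.hat.2.1 t).rep.1 =
      ((∏ i, PGr.wt w (p.2.1 i).rep.1) * PGr.wt w p.2.2.1.rep.1) ^ 2 := by
  set W : ((core p.1).I × Bool) ⊕ Bool → ℝ≥0∞ := fun t => PGr.wt w (p.hat.2.1 t).rep.1 with hW
  have h1 : ∏ t : CT p.1, PGr.wt w (p.hat.2.1 t).rep.1 = ∏ t, W t := rfl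
  rw [h1, Fintype.prod_sum_type, Fintype.prod_prod_type]
  have h2 : ∀ i : (core p.1).I, ∏ b : Bool, W (Sum.inl (i, b)) =
      PGr.wt w (p.2.1 i).rep.1 ^ 2 := by
    intro i
    rw [Fintype.prod_bool]
    have h3 : W (Sum.inl (i, true)) = PGr.wt w (p.2.1 i).rep.1 := rfl
    have h4 : W (Sum.inl (i, false)) = PGr.wt w (p.2.1 i).fl.rep.1 := rfl
    rw [h3, h4, NC.wt_fl, sq]
  have h5 : ∏ b : Bool, W (Sum.inr b) = PGr.wt w p.2.2.1.rep.1 ^ 2 := by
    rw [Fintype.prod_bool]
    have h3 : W (Sum.inr true) = PGr.wt w p.2.2.1.rep.1 := rfl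
    have h4 : W (Sum.inr false) = PGr.wt w (p.2.2.1).fl.rep.1 := rfl
    rw [h3, h4, NC.wt_fl, sq]
  rw [Finset.prod_congr rfl (fun i _ => h2 i), h5, Finset.prod_pow, mul_pow]

end DMLib

open DMLib

/-- full codes rooted at another dart of the root vertex, or reflected -/
theorem FC.reroot (p : FC Λ) (t : CT p.hat.1) (ht : (core p.1).s.SameCycle (Sum.inr true) t)
    (o : Bool) : ∃ (q : FC Λ) (ψ : CT p.hat.1 ≃ CT q.hat.1), DM p.hat q.hat o ψ ∧
      ψ t = Sum.inr true := by
  obtain ⟨q, ψ, hψ, hr⟩ := exists_reroot p.hat t o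
  have h1 : ∀ t, q.2.1 ((core q.1).toB.aa t) = (q.2.1 t).fl := by
    intro t
    obtain ⟨t, rfl⟩ := ψ.surjective t
    rw [← hψ.a, hψ.f, hψ.f, DMLib.hat_aa]
  have h3 : ∀ x, q.2.2 x = none ↔ x = (core q.1).vinc (Sum.inr true) := by
    intro x
    obtain ⟨t', rfl⟩ := DMLibB.vinc_surj _ x
    obtain ⟨t', rfl⟩ := ψ.surjective t'
    have h4 : (core p.hat.1).vinc (Sum.inr true) = (core p.hat.1).vinc t :=
      DMLibB.vinc_eq_iff.2 ht
    have h5 : (core q.1).vinc (Sum.inr true) = (core q.1).vinc (ψ t) :=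
      congrArg (core q.1).vinc hr.symm
    rw [hψ.g, h5]
    have h6 := DMLib.hat_none p ((core p.hat.1).vinc t')
    rw [h4] at h6
    exact h6.trans (DMLibB.dm_vinc hψ t' t)
  obtain ⟨q', rfl⟩ := exists_fc h1 h3
  exact ⟨q', ψ, hψ, hr⟩

/-- a matching of full codes maps the root vertex to the root vertex -/
theorem DM.fc_root {p q : FC Λ} {o : Bool} {ψ : CT p.hat.1 ≃ CT q.hat.1}
    (h : DM p.hat q.hat o ψ) (t : CT p.hat.1) : (core p.1).s.SameCycle (Sum.inr true) t ↔
      (core q.1).s.SameCycle (Sum.inr true) (ψ t) := by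
  have h1 := h.g t
  have h5 := DMLib.hat_none p ((core p.hat.1).vinc t)
  have h6 := DMLib.hat_none q ((core q.hat.1).vinc (ψ t))
  rw [h1] at h6
  have h2 : (core p.1).vinc t = (core p.1).vinc (Sum.inr true) ↔
    (core q.1).vinc (ψ t) = (core q.1).vinc (Sum.inr true) := h5.symm.trans h6
  have h3 : (core p.1).vinc t = (core p.1).vinc (Sum.inr true) ↔
      (core p.1).s.SameCycle (Sum.inr true) t :=
    (DMLibB.vinc_eq_iff (C := core p.1)).trans ⟨fun h => h.symm, fun h => h.symm⟩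
  have h4 : (core q.1).vinc (ψ t) = (core q.1).vinc (Sum.inr true) ↔
      (core q.1).s.SameCycle (Sum.inr true) (ψ t) :=
    (DMLibB.vinc_eq_iff (C := core q.1)).trans ⟨fun h => h.symm, fun h => h.symm⟩
  exact h3.symm.trans (h2.trans h4)

theorem DM.fc_wt (w : Λ → ℝ≥0∞) {p q : FC Λ} {o : Bool} {ψ : CT p.hat.1 ≃ CT q.hat.1}
    (h : DM p.hat q.hat o ψ) : p.wt w = q.wt w := by
  have h1 : ((∏ i, PGr.wt w (p.2.1 i).rep.1) * PGr.wt w p.2.2.1.rep.1) ^ 2 =
      ((∏ i, PGr.wt w (q.2.1 i).rep.1) * PGr.wt w q.2.2.1.rep.1) ^ 2 := by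
    rw [← DMLib.prod_darts, ← DMLib.prod_darts]
    refine Fintype.prod_equiv ψ _ _ fun t => ?_
    rw [h.f t]
  have h2 : (∏ i, PGr.wt w (p.2.1 i).rep.1) * PGr.wt w p.2.2.1.rep.1 =
      (∏ i, PGr.wt w (q.2.1 i).rep.1) * PGr.wt w q.2.2.1.rep.1 := by
    exact (ENNReal.pow_right_strictMono two_ne_zero).injective h1
  obtain ⟨e, he⟩ : ∃ e : (core p.1).CV ≃ (core q.1).CV,
      ∀ t : CT p.hat.1, e ((core p.1).vinc t) = (core q.1).vinc (ψ t) := exists_cv h
  have hlab : ∀ x : (core p.1).CV, q.hat.2.2 (e x) = p.hat.2.2 x := by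
    intro x
    obtain ⟨t, rfl⟩ := DMLibB.vinc_surj _ x
    have h3 := h.g t
    exact (congrArg q.hat.2.2 (he t)).trans h3
  have hroot : ∀ x : (core p.1).CV, x ≠ (core p.1).vinc (Sum.inr true) ↔
      e x ≠ (core q.1).vinc (Sum.inr true) := by
    intro x
    refine not_congr ?_
    have h3 := DMLib.hat_none p x
    have h4 := DMLib.hat_none q (e x)
    rw [hlab] at h4
    exact h3.symm.trans h4
  have h3 : ∏ x : CExt (core p.1), w (p.2.2.2 x) = ∏ x : CExt (core q.1), w (q.2.2.2 x) := by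
    refine Fintype.prod_equiv (e.subtypeEquiv hroot) _ _ fun x => ?_
    have h4 := hlab x.1
    have h5 := DMLib.hat_some p x
    have h6 := DMLib.hat_some q (e.subtypeEquiv hroot x)
    have h7 : some (q.2.2.2 (e.subtypeEquiv hroot x)) = some (p.2.2.2 x) :=
      h6.symm.trans (h4.trans h5)
    rw [Option.some.inj h7]
  unfold FC.wt
  rw [h2, h3]

end PGr

end

section
/-! # Module SymMLib: symmetries and isomorphisms of maps -/

set_option linter.unusedSectionVars false

namespace PGr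
open Equiv Finset
open scoped ENNReal Classical

variable {M N : BMap}

/-- transport of a symmetry along an isomorphism -/
theorem SymM.conj {o : Bool} {σ : Perm M.T} {t : M.T} (h : SymM M o σ t) (e : M.T ≃ N.T)
    (ha : ∀ t, e (M.aa t) = N.aa (e t)) (hs : ∀ t, e (M.s t) = N.s (e t))
    (hr : e (Sum.inr true) = Sum.inr true) :
    SymM N o ((e.symm.trans σ).trans e) (e t) := by
  have ha' : ∀ x, e.symm (N.aa x) = M.aa (e.symm x) := fun x => by
    rw [Equiv.symm_apply_eq, ha, Equiv.apply_symm_apply]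
  have hs' : ∀ x, e.symm (N.s x) = M.s (e.symm x) := fun x => by
    rw [Equiv.symm_apply_eq, hs, Equiv.apply_symm_apply]
  refine ⟨fun x => ?_, fun x => ?_, ?_⟩
  · show e (σ (e.symm (N.aa x))) = N.aa (e (σ (e.symm x)))
    rw [ha', h.a, ha]
  · show e (σ (e.symm (N.s x))) = if o then N.s (e (σ (e.symm x))) else N.s⁻¹ (e (σ (e.symm x)))
    rw [hs', h.s]
    cases o
    · simp only [Bool.false_eq_true, if_false]
      rw [Perm.eq_inv_iff_eq, ← hs]
      congr 1
      exact Equiv.apply_symm_apply M.s _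
    · simp only [if_true]
      rw [hs]
  · show e (σ (e.symm (Sum.inr true))) = e t
    rw [← hr, Equiv.symm_apply_apply, h.root]

/-- an isomorphism of rooted maps respects the root edge -/
theorem iso_root_false (e : M.T ≃ N.T) (ha : ∀ t, e (M.aa t) = N.aa (e t))
    (hr : e (Sum.inr true) = Sum.inr true) : e (Sum.inr false) = Sum.inr false := by
  have h := ha (Sum.inr true)
  rw [hr] at h
  exact h

namespace SymMLib

theorem sc (e : M.T ≃ N.T) (hs : ∀ t, e (M.s t) = N.s (e t)) (t t' : M.T) :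
    M.s.SameCycle t t' ↔ N.s.SameCycle (e t) (e t') := by
  have hN : N.s = (e.symm.trans M.s).trans e := by
    ext x
    show _ = e (M.s (e.symm x))
    rw [hs, Equiv.apply_symm_apply]
  have hz : ∀ (k : ℕ) (t : M.T), e ((M.s ^ k) t) = (N.s ^ k) (e t) := by
    intro k
    induction k with
    | zero => intro t; rfl
    | succ n ih =>
      intro t
      rw [pow_succ', pow_succ', Perm.mul_apply, Perm.mul_apply, hs, ih]
  constructor
  · intro h
    obtain ⟨k, _, hk⟩ := h.exists_pow_eq'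
    refine ⟨(k : ℤ), ?_⟩
    rw [zpow_natCast, ← hz, hk]
  · intro h
    obtain ⟨k, _, hk⟩ := h.exists_pow_eq'
    refine ⟨(k : ℤ), e.injective ?_⟩
    rw [zpow_natCast, hz, hk]

theorem exists_vx (e : M.T ≃ N.T) (hs : ∀ t, e (M.s t) = N.s (e t)) :
    ∃ f : M.Vx ≃ N.Vx, ∀ t, f (M.vx t) = N.vx (e t) :=
  ⟨Quotient.congr (ra := Perm.SameCycle.setoid M.s) (rb := Perm.SameCycle.setoid N.s) e
    (fun t t' => sc e hs t t'), fun _ => rfl⟩

theorem fixV_conj (σ : Perm M.T) (e : M.T ≃ N.T) (hs : ∀ t, e (M.s t) = N.s (e t))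
    (X : M.T → Prop) (Y : N.T → Prop) (hXY : ∀ t, X t ↔ Y (e t)) :
    fixV N ((e.symm.trans σ).trans e) Y = fixV M σ X := by
  obtain ⟨f, hf⟩ := exists_vx e hs
  unfold fixV
  refine (Nat.card_congr (f.subtypeEquiv fun q => ?_)).symm
  refine and_congr ?_ ?_
  · constructor
    · intro h t ht hq
      obtain ⟨t, rfl⟩ := e.surjective t
      rw [← hf] at hq
      exact h t ((hXY t).2 ht) (f.injective hq)
    · intro h t ht hq
      apply h (e t) ((hXY t).1 ht)
      rw [hq, hf]
  · constructor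
    · intro h t ht
      obtain ⟨t, rfl⟩ := e.surjective t
      rw [← hf] at ht
      show N.vx (e (σ (e.symm (e t)))) = f q
      rw [Equiv.symm_apply_apply, ← hf, h t (f.injective ht)]
    · intro h t ht
      have h1 := h (e t) (by rw [← hf, ht])
      change N.vx (e (σ (e.symm (e t)))) = f q at h1
      rw [Equiv.symm_apply_apply, ← hf] at h1
      exact f.injective h1

theorem fixD_conj (σ : Perm M.T) (e : M.T ≃ N.T)
    (X : M.T → Prop) (Y : N.T → Prop) (hXY : ∀ t, X t ↔ Y (e t)) :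
    fixD N ((e.symm.trans σ).trans e) Y = fixD M σ X := by
  unfold fixD
  refine (Nat.card_congr (e.subtypeEquiv fun t => ?_)).symm
  refine and_congr (hXY t) ?_
  show _ ↔ e (σ (e.symm (e t))) = e t
  rw [Equiv.symm_apply_apply, e.injective.eq_iff]

theorem revD_conj (σ : Perm M.T) (e : M.T ≃ N.T) (ha : ∀ t, e (M.aa t) = N.aa (e t))
    (X : M.T → Prop) (Y : N.T → Prop) (hXY : ∀ t, X t ↔ Y (e t)) :
    revD N ((e.symm.trans σ).trans e) Y = revD M σ X := by
  unfold revD
  refine (Nat.card_congr (e.subtypeEquiv fun t => ?_)).symm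
  refine and_congr (hXY t) ?_
  show _ ↔ e (σ (e.symm (e t))) = N.aa (e t)
  rw [Equiv.symm_apply_apply, ← ha, e.injective.eq_iff]

theorem nV_conj (e : M.T ≃ N.T) (hs : ∀ t, e (M.s t) = N.s (e t)) : nV N.s = nV M.s := by
  obtain ⟨f, _⟩ := exists_vx e hs
  exact (Nat.card_congr f).symm

theorem cardT (e : M.T ≃ N.T) : Fintype.card N.T = Fintype.card M.T := Fintype.card_congr e.symm

theorem cardD (e : M.T ≃ N.T) : Fintype.card N.D = Fintype.card M.D := by
  have h := cardT e
  rw [Fintype.card_sum, Fintype.card_sum] at h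
  omega

/-- the root darts -/
theorem rootX (e : M.T ≃ N.T) (ha : ∀ t, e (M.aa t) = N.aa (e t))
    (hr : e (Sum.inr true) = Sum.inr true) (t : M.T) :
    (∃ b, t = Sum.inr b) ↔ ∃ b, e t = Sum.inr b := by
  have hf := iso_root_false e ha hr
  constructor
  · rintro ⟨b, rfl⟩
    cases b
    · exact ⟨false, hf⟩
    · exact ⟨true, hr⟩
  · rintro ⟨b, hb⟩
    cases b
    · exact ⟨false, e.injective (hb.trans hf.symm)⟩
    · exact ⟨true, e.injective (hb.trans hr.symm)⟩

/-- the other darts -/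
theorem nonX (e : M.T ≃ N.T) (ha : ∀ t, e (M.aa t) = N.aa (e t))
    (hr : e (Sum.inr true) = Sum.inr true) (t : M.T) :
    (∃ b, t = Sum.inl b) ↔ ∃ b, e t = Sum.inl b := by
  have h := rootX e ha hr t
  rcases t with d | b
  · rcases h' : e (Sum.inl d) with d' | b'
    · exact ⟨fun _ => ⟨d', rfl⟩, fun _ => ⟨d, rfl⟩⟩
    · obtain ⟨c, hc⟩ := h.2 ⟨b', h'⟩
      cases hc
  · obtain ⟨c, hc⟩ := h.1 ⟨b, rfl⟩
    rw [hc]
    constructor
    · rintro ⟨d, hd⟩
      cases hd
    · rintro ⟨d, hd⟩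
      cases hd

theorem oneX (e : M.T ≃ N.T) (hr : e (Sum.inr true) = Sum.inr true) (t : M.T) :
    t = Sum.inr true ↔ e t = Sum.inr true := by
  rw [← e.injective.eq_iff, hr]

end SymMLib

open SymMLib

theorem symW_conj (σ : Perm M.T) (e : M.T ≃ N.T) (ha : ∀ t, e (M.aa t) = N.aa (e t))
    (hs : ∀ t, e (M.s t) = N.s (e t)) (hr : e (Sum.inr true) = Sum.inr true)
    (k1 k2 d1 s1 d2 : ℝ≥0∞) :
    symW N ((e.symm.trans σ).trans e) k1 k2 d1 s1 d2 = symW M σ k1 k2 d1 s1 d2 := by
  unfold symW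
  rw [fixV_conj σ e hs (fun t => ∃ b, t = Sum.inr b) (fun t => ∃ b, t = Sum.inr b)
      (rootX e ha hr),
    fixD_conj σ e (fun t => ∃ d, t = Sum.inl d) (fun t => ∃ d, t = Sum.inl d) (nonX e ha hr),
    revD_conj σ e ha (fun t => ∃ d, t = Sum.inl d) (fun t => ∃ d, t = Sum.inl d) (nonX e ha hr),
    nV_conj e hs, cardD e]

theorem symW0_conj (σ : Perm M.T) (e : M.T ≃ N.T) (ha : ∀ t, e (M.aa t) = N.aa (e t))
    (hs : ∀ t, e (M.s t) = N.s (e t)) (hr : e (Sum.inr true) = Sum.inr true)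
    (k1 k2 d1 s1 d2 : ℝ≥0∞) :
    symW0 N ((e.symm.trans σ).trans e) k1 k2 d1 s1 d2 = symW0 M σ k1 k2 d1 s1 d2 := by
  unfold symW0
  rw [fixV_conj σ e hs (fun t => t = Sum.inr true) (fun t => t = Sum.inr true) (oneX e hr),
    fixD_conj σ e (fun _ => True) (fun _ => True) (fun _ => Iff.rfl),
    revD_conj σ e ha (fun _ => True) (fun _ => True) (fun _ => Iff.rfl),
    nV_conj e hs, cardT e]

theorem rotW_conj (σ : Perm M.T) (e : M.T ≃ N.T) (ha : ∀ t, e (M.aa t) = N.aa (e t))
    (hs : ∀ t, e (M.s t) = N.s (e t)) (hr : e (Sum.inr true) = Sum.inr true) (k : ℕ)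
    (kv s ke E : ℝ≥0∞) :
    rotW N ((e.symm.trans σ).trans e) k kv s ke E = rotW M σ k kv s ke E := by
  unfold rotW
  rw [fixV_conj σ e hs (fun t => t = Sum.inr true) (fun t => t = Sum.inr true) (oneX e hr),
    revD_conj σ e ha (fun _ => True) (fun _ => True) (fun _ => Iff.rfl),
    nV_conj e hs, cardT e]

theorem dg_conj (e : M.T ≃ N.T) (hs : ∀ t, e (M.s t) = N.s (e t))
    (hr : e (Sum.inr true) = Sum.inr true) : N.dg = M.dg := by
  unfold BMap.dg
  have hz : ∀ k : ℕ, e ((fun t => M.s t)^[k] (Sum.inr true)) = (fun t => N.s t)^[k] (Sum.inr true) := by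
    intro k
    induction k with
    | zero => exact hr
    | succ n ih =>
      rw [Function.iterate_succ_apply', Function.iterate_succ_apply', ← ih]
      exact hs _
  refine Nat.dvd_antisymm ?_ ?_
  · refine Function.IsPeriodicPt.minimalPeriod_dvd ?_
    have h := hz (Function.minimalPeriod (fun t => M.s t) (Sum.inr true))
    rw [Function.iterate_minimalPeriod, hr] at h
    exact h.symm
  · refine Function.IsPeriodicPt.minimalPeriod_dvd ?_
    have h := hz (Function.minimalPeriod (fun t => N.s t) (Sum.inr true))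
    rw [Function.iterate_minimalPeriod] at h
    exact e.injective (h.trans hr.symm)

/-- a symmetry of a good map is determined by its sign and the image of a dart -/
theorem SymM.unique (hM : M.IsGood) {o : Bool} {σ σ' : Perm M.T} {t : M.T} (h : SymM M o σ t)
    (h' : SymM M o σ' t) : σ = σ' := by
  cases o
  · exact iso_unique (a := M.aa) (s := M.s) (a' := M.aa) (s' := M.s⁻¹) hM (Sum.inr true) σ σ'
      h.a h.s h'.a h'.s (h.root.trans h'.root.symm)
  · exact iso_unique (a := M.aa) (s := M.s) (a' := M.aa) (s' := M.s) hM (Sum.inr true) σ σ'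
      h.a h.s h'.a h'.s (h.root.trans h'.root.symm)

/-- the weight of a symmetry fixing the root edge, with all elements except the root vertex weighted -/
theorem symW0_eq (hM : M.IsGood) {σ : Perm M.T} (h : SymM M false σ (Sum.inr true))
    (k1 k2 d1 s1 d2 : ℝ≥0∞) : symW0 M σ k1 k2 d1 s1 d2 = k1 * d1 * symW M σ k1 k2 d1 s1 d2 := by
  have hσt : σ (Sum.inr true) = Sum.inr true := h.root
  have hσf : σ (Sum.inr false) = Sum.inr false := by
    have h1 := h.a (Sum.inr true)
    rw [hσt] at h1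
    exact h1
  have hvne : M.vx (Sum.inr false) ≠ M.vx (Sum.inr true) := by
    intro h1
    have h2 : M.s.SameCycle (Sum.inr false) (Sum.inr true) := Quotient.exact h1
    exact Good.noLoop hM (Sum.inr false) h2
  have hsc : ∀ t t' : M.T, M.s.SameCycle t t' → M.s.SameCycle (σ t) (σ t') := by
    intro t t' h1
    obtain ⟨k, _, hk⟩ := h1.exists_pow_eq'
    have h2 : ∀ k : ℕ, M.s.SameCycle (σ t) (σ ((M.s ^ k) t)) := by
      intro k
      induction k with
      | zero => exact Perm.SameCycle.refl _ _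
      | succ n ih =>
        rw [pow_succ', Perm.mul_apply, h.s]
        simp only [Bool.false_eq_true, if_false]
        exact (Perm.sameCycle_symm_apply_right (f := M.s)).2 ih
    rw [← hk]
    exact h2 k
  have hfix : ∀ t, M.vx t = M.vx (Sum.inr false) → M.vx (σ t) = M.vx (Sum.inr false) := by
    intro t ht
    have h1 : M.s.SameCycle t (Sum.inr false) := Quotient.exact ht
    have h2 := hsc _ _ h1
    rw [hσf] at h2
    exact Quotient.sound h2
  have hfin : Finite M.Vx := inferInstanceAs (Finite (Quotient (Perm.SameCycle.setoid M.s)))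
  have hV : fixV M σ (fun t => t = Sum.inr true) =
      fixV M σ (fun t => ∃ b, t = Sum.inr b) + 1 := by
    unfold fixV
    rw [← Finite.card_option]
    refine Nat.card_congr ?_
    refine (Equiv.ofBijective (fun o : Option {q : M.Vx // (∀ t, (∃ b, t = Sum.inr b) → q ≠ M.vx t) ∧
      ∀ t, M.vx t = q → M.vx (σ t) = q} => (⟨o.elim (M.vx (Sum.inr false)) (fun q => q.1), ?_⟩ :
        {q : M.Vx // (∀ t, t = Sum.inr true → q ≠ M.vx t) ∧
          ∀ t, M.vx t = q → M.vx (σ t) = q})) ?_).symm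
    · rcases o with _ | q
      · refine ⟨?_, hfix⟩
        rintro t rfl
        exact hvne
      · refine ⟨?_, q.2.2⟩
        rintro t rfl
        exact q.2.1 _ ⟨true, rfl⟩
    · constructor
      · intro o o' hoo
        have h1 := congrArg Subtype.val hoo
        rcases o with _ | q <;> rcases o' with _ | q'
        · rfl
        · exact absurd h1.symm (q'.2.1 _ ⟨false, rfl⟩)
        · exact absurd h1 (q.2.1 _ ⟨false, rfl⟩)
        · exact congrArg some (Subtype.ext h1)
      · intro q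
        by_cases hq : q.1 = M.vx (Sum.inr false)
        · exact ⟨none, Subtype.ext hq.symm⟩
        · refine ⟨some ⟨q.1, ?_, q.2.2⟩, rfl⟩
          rintro t ⟨b, rfl⟩
          cases b
          · exact hq
          · exact q.2.1 _ rfl
  have hD : fixD M σ (fun _ => True) = fixD M σ (fun t => ∃ d, t = Sum.inl d) + 2 := by
    unfold fixD
    have h2 : Nat.card {t : M.T // True ∧ σ t = t} =
        (univ.filter fun t : M.T => σ t = t).card := by
      rw [Nat.card_eq_fintype_card, Fintype.card_subtype]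
      congr 1
      ext t
      simp
    have h3 : Nat.card {t : M.T // (∃ d, t = Sum.inl d) ∧ σ t = t} =
        (univ.filter fun t : M.T => (∃ d, t = Sum.inl d) ∧ σ t = t).card := by
      rw [Nat.card_eq_fintype_card, Fintype.card_subtype]
    rw [h2, h3]
    have h4 : (univ.filter fun t : M.T => σ t = t) =
        (univ.filter fun t : M.T => (∃ d, t = Sum.inl d) ∧ σ t = t) ∪
          {Sum.inr true, Sum.inr false} := by
      ext t
      simp only [mem_filter, mem_univ, true_and, mem_union, mem_insert, mem_singleton]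
      rcases t with d | b
      · simp
      · cases b
        · simp [hσf]
        · simp [hσt]
    have h5 : Disjoint (univ.filter fun t : M.T => (∃ d, t = Sum.inl d) ∧ σ t = t)
        {Sum.inr true, Sum.inr false} := by
      rw [Finset.disjoint_left]
      intro t ht ht'
      simp only [mem_filter, mem_univ, true_and, mem_insert, mem_singleton] at ht ht'
      obtain ⟨⟨d, rfl⟩, _⟩ := ht
      rcases ht' with h | h <;> cases h
    rw [h4, card_union_of_disjoint h5]
    congr 1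
  have hR : revD M σ (fun _ => True) = revD M σ (fun t => ∃ d, t = Sum.inl d) := by
    unfold revD
    refine Nat.card_congr (Equiv.subtypeEquivRight fun t => ?_)
    constructor
    · rintro ⟨_, ht⟩
      refine ⟨?_, ht⟩
      rcases t with d | b
      · exact ⟨d, rfl⟩
      · exfalso
        cases b
        · rw [hσf] at ht
          cases ht
        · rw [hσt] at ht
          cases ht
    · rintro ⟨_, ht⟩
      exact ⟨trivial, ht⟩
  have hT : Fintype.card M.T = Fintype.card M.D + 2 := by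
    rw [Fintype.card_sum, Fintype.card_bool]
  unfold symW0 symW
  rw [hV, hD, hR, hT]
  generalize fixV M σ (fun t => ∃ b, t = Sum.inr b) = f
  generalize fixD M σ (fun t => ∃ d, t = Sum.inl d) = g
  generalize revD M σ (fun t => ∃ d, t = Sum.inl d) = r
  have e1 : nV M.s - 1 - (f + 1) = nV M.s - 2 - f := by omega
  have e2 : (g + 2) / 2 = g / 2 + 1 := by omega
  have e3 : Fintype.card M.D + 2 - (g + 2) - r = Fintype.card M.D - g - r := by omega
  rw [e1, e2, e3, pow_succ k1, pow_succ d1]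
  ring

end PGr

end

section
/-! # Module MapShift: change of the root dart of a map -/

set_option linter.unusedSectionVars false

namespace PGr
open Equiv Finset
open scoped ENNReal Classical

/-- `e` is an isomorphism of the maps of `c` and `c'`, not necessarily of rooted maps -/
structure MIso (c c' : GC) (e : c.rep.1.T ≃ c'.rep.1.T) : Prop where
  a : ∀ x, e (c.rep.1.aa x) = c'.rep.1.aa (e x)
  s : ∀ x, e (c.rep.1.s x) = c'.rep.1.s (e x)

/-- `exists_BMap` for the maps of `c` with the root dart `t` -/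
theorem exists_shift (c : GC) (t : c.rep.1.T) :
    ∃ (c' : GC) (e : c.rep.1.T ≃ c'.rep.1.T), MIso c c' e ∧ e t = Sum.inr true := by
  obtain ⟨N, e, ha, hs, hr⟩ := exists_BMap c.rep.1.aa c.rep.1.s t c.rep.2.inv c.rep.2.fpf
  have hN : N.IsGood := Good_iso e ha hs c.rep.2
  have h1 : BIso N (GC.rep (Quotient.mk bSetoid ⟨N, hN⟩)).1 :=
    (Quotient.exact (s := bSetoid) (Quotient.out_eq (Quotient.mk bSetoid (⟨N, hN⟩ : GB)))).symm
  obtain ⟨e', ha', hs', hr'⟩ := h1
  refine ⟨Quotient.mk bSetoid ⟨N, hN⟩, e.trans e', ⟨fun x => ?_, fun x => ?_⟩, ?_⟩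
  · show e' (e _) = _
    rw [ha, ha']
    rfl
  · show e' (e _) = _
    rw [hs, hs']
    rfl
  · show e' (e t) = _
    rw [hr, hr']

theorem MIso.symm {c c' : GC} {e : c.rep.1.T ≃ c'.rep.1.T} (h : MIso c c' e) : MIso c' c e.symm :=
  ⟨CutIso.symm h.a, CutIso.symm h.s⟩

theorem MIso.trans {c c' c'' : GC} {e : c.rep.1.T ≃ c'.rep.1.T} {e' : c'.rep.1.T ≃ c''.rep.1.T}
    (h : MIso c c' e) (h' : MIso c' c'' e') : MIso c c'' (e.trans e') :=
  ⟨fun x => by
    show e' (e _) = _
    rw [h.a, h'.a]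
    rfl, fun x => by
    show e' (e _) = _
    rw [h.s, h'.s]
    rfl⟩

/-- an isomorphism of rooted maps is the identity of a class -/
theorem MIso.eq {c c' : GC} {e : c.rep.1.T ≃ c'.rep.1.T} (h : MIso c c' e)
    (hr : e (Sum.inr true) = Sum.inr true) : c = c' := by
  have h1 : BIso c.rep.1 c'.rep.1 := ⟨e, h.a, h.s, hr⟩
  have h2 : Quotient.mk bSetoid c.rep = Quotient.mk bSetoid c'.rep := Quotient.sound h1
  rwa [Quotient.out_eq, Quotient.out_eq] at h2

theorem MapShift_rigid {c c' : GC} {e : c.rep.1.T ≃ c'.rep.1.T} (h : MIso c c' e)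
    (hM : Rigid c.rep.1) : Rigid c'.rep.1 := by
  obtain ⟨hM1, hM2⟩ := hM
  have hc := Fintype.card_congr e
  refine ⟨by rw [← hc]; exact hM1, ?_⟩
  intro A hA hA1 hA2
  have h4 := hM2 (A.map e.symm.toEmbedding) (Cl_iso e.symm (CutIso.symm h.a) hA)
    (by rw [card_map]; exact hA1) (by rw [card_map, hc]; exact hA2)
  rw [← cut_iso e h.s, CutIso.map_symm] at h4
  exact h4

theorem MIso.rigid {c c' : GC} {e : c.rep.1.T ≃ c'.rep.1.T} (h : MIso c c' e) :
    Rigid c.rep.1 ↔ Rigid c'.rep.1 := ⟨MapShift_rigid h, MapShift_rigid h.symm⟩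

/-- iterates of a permutation -/
theorem MapShift_iter {T : Type*} (s : Perm T) (n : ℕ) (x : T) :
    (fun t => s t)^[n] x = (s ^ n) x := congrFun (Equiv.Perm.iterate_eq_pow s n) x

theorem MapShift_periodic {T : Type*} [Fintype T] (s : Perm T) (x : T) :
    x ∈ Function.periodicPts (fun t => s t) :=
  ⟨orderOf s, orderOf_pos s, by
    rw [Function.IsPeriodicPt, Function.IsFixedPt, MapShift_iter, pow_orderOf_eq_one]
    rfl⟩

/-- the minimal period is constant on cycles -/
theorem MapShift_cyc {T : Type*} [Fintype T] (s : Perm T) {x y : T} (h : s.SameCycle x y) :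
    Function.minimalPeriod (fun t => s t) x = Function.minimalPeriod (fun t => s t) y := by
  obtain ⟨n, _, hn⟩ := h.exists_pow_eq'
  rw [← hn, ← MapShift_iter, Function.minimalPeriod_apply_iterate (MapShift_periodic s x)]

/-- the minimal period is invariant under isomorphisms -/
theorem MapShift_per {T T' : Type*} {s : Perm T} {s' : Perm T'} (e : T ≃ T')
    (h : ∀ t, e (s t) = s' (e t)) (x : T) :
    Function.minimalPeriod (fun t => s t) x = Function.minimalPeriod (fun t => s' t) (e x) := by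
  have h1 : ∀ n : ℕ, e ((s ^ n) x) = (s' ^ n) (e x) := by
    intro n
    induction n with
    | zero => rfl
    | succ n ih => rw [pow_succ', Perm.mul_apply, h, ih, pow_succ', Perm.mul_apply]
  rw [Function.minimalPeriod_eq_minimalPeriod_iff]
  intro n
  rw [Function.IsPeriodicPt, Function.IsPeriodicPt, Function.IsFixedPt, Function.IsFixedPt,
    MapShift_iter, MapShift_iter, ← h1]
  exact e.injective.eq_iff.symm

/-- if the root vertices correspond to each other -/
theorem MIso.dg {c c' : GC} {e : c.rep.1.T ≃ c'.rep.1.T} (h : MIso c c' e)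
    (hr : c'.rep.1.s.SameCycle (Sum.inr true) (e (Sum.inr true))) : c.rep.1.dg = c'.rep.1.dg := by
  rw [BMap.dg, BMap.dg, MapShift_cyc _ hr]
  exact MapShift_per e h.s _

theorem MapShift_same {c c' : GC} {e : c.rep.1.T ≃ c'.rep.1.T} (h : MIso c c' e)
    (x y : c.rep.1.T) : c.rep.1.s.SameCycle x y ↔ c'.rep.1.s.SameCycle (e x) (e y) := by
  have key : ∀ {c c' : GC} {e : c.rep.1.T ≃ c'.rep.1.T} (_ : MIso c c' e) (x y : c.rep.1.T),
      c.rep.1.s.SameCycle x y → c'.rep.1.s.SameCycle (e x) (e y) := by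
    intro c c' e h x y hxy
    obtain ⟨n, _, hn⟩ := hxy.exists_pow_eq'
    rw [← hn]
    clear hn
    have h2 : ∀ m : ℕ, e ((c.rep.1.s ^ m) x) = (c'.rep.1.s ^ m) (e x) := by
      intro m
      induction m with
      | zero => rfl
      | succ m ih => rw [pow_succ', Perm.mul_apply, h.s, ih, pow_succ', Perm.mul_apply]
    rw [h2]
    exact ⟨n, by simp⟩
  constructor
  · exact key h x y
  · intro h1
    have h2 := key h.symm _ _ h1
    rwa [Equiv.symm_apply_apply, Equiv.symm_apply_apply] at h2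

theorem MapShift_vx (M : BMap) (x y : M.T) : M.vx x = M.vx y ↔ M.s.SameCycle x y :=
  ⟨fun h => Quotient.exact h, fun h => Quotient.sound h⟩

theorem MIso.symW0 {c c' : GC} {e : c.rep.1.T ≃ c'.rep.1.T} (h : MIso c c' e)
    (hr : c'.rep.1.s.SameCycle (Sum.inr true) (e (Sum.inr true))) (σ : Perm c.rep.1.T)
    (k1 k2 d1 s1 d2 : ℝ≥0∞) :
    PGr.symW0 c'.rep.1 ((e.symm.trans σ).trans e) k1 k2 d1 s1 d2 =
      PGr.symW0 c.rep.1 σ k1 k2 d1 s1 d2 := by
  have hτ : ∀ x, ((e.symm.trans σ).trans e) (e x) = e (σ x) := by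
    intro x
    show e (σ (e.symm (e x))) = e (σ x)
    rw [Equiv.symm_apply_apply]
  -- the vertices
  let v : c.rep.1.Vx ≃ c'.rep.1.Vx := Quotient.congr e (fun x y => MapShift_same h x y)
  have hv : ∀ x, v (c.rep.1.vx x) = c'.rep.1.vx (e x) := fun x => rfl
  have hroot : v (c.rep.1.vx (Sum.inr true)) = c'.rep.1.vx (Sum.inr true) := by
    rw [hv, MapShift_vx]
    exact hr.symm
  have hV : fixV c'.rep.1 ((e.symm.trans σ).trans e) (fun t => t = Sum.inr true) =
      fixV c.rep.1 σ (fun t => t = Sum.inr true) := by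
    unfold fixV
    symm
    refine Nat.card_congr (v.subtypeEquiv fun q => ?_)
    constructor
    · rintro ⟨h1, h2⟩
      refine ⟨?_, ?_⟩
      · rintro _ rfl heq
        exact h1 _ rfl (v.injective (heq.trans hroot.symm))
      · intro t ht
        obtain ⟨x, rfl⟩ := e.surjective t
        rw [hτ, ← hv, h2 x (v.injective ((hv x).trans ht))]
    · rintro ⟨h1, h2⟩
      refine ⟨?_, ?_⟩
      · rintro _ rfl heq
        exact h1 _ rfl ((congrArg v heq).trans hroot)
      · intro t ht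
        have h3 := h2 (e t) ((hv t).symm.trans (congrArg v ht))
        rw [hτ, ← hv] at h3
        exact v.injective h3
  have hD : fixD c'.rep.1 ((e.symm.trans σ).trans e) (fun _ => True) =
      fixD c.rep.1 σ (fun _ => True) := by
    unfold fixD
    symm
    refine Nat.card_congr (e.subtypeEquiv fun x => ?_)
    rw [hτ]
    exact ⟨fun h1 => ⟨trivial, congrArg e h1.2⟩, fun h1 => ⟨trivial, e.injective h1.2⟩⟩
  have hR : revD c'.rep.1 ((e.symm.trans σ).trans e) (fun _ => True) =
      revD c.rep.1 σ (fun _ => True) := by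
    unfold revD
    symm
    refine Nat.card_congr (e.subtypeEquiv fun x => ?_)
    rw [hτ, ← h.a]
    exact ⟨fun h1 => ⟨trivial, congrArg e h1.2⟩, fun h1 => ⟨trivial, e.injective h1.2⟩⟩
  have hn : nV c'.rep.1.s = nV c.rep.1.s := (nV_iso e h.s).symm
  have hT : Fintype.card c'.rep.1.T = Fintype.card c.rep.1.T := (Fintype.card_congr e).symm
  unfold PGr.symW0
  rw [hV, hD, hR, hn, hT]

/-- the darts of the root vertex are `s ^ j` of the root dart, `j < dg` -/
theorem root_pow (c : GC) (t : c.rep.1.T) : c.rep.1.s.SameCycle (Sum.inr true) t ↔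
    ∃ j, j < c.rep.1.dg ∧ (c.rep.1.s ^ j) (Sum.inr true) = t := by
  constructor
  · intro h
    obtain ⟨n, _, hn⟩ := h.exists_pow_eq'
    have hp := Function.minimalPeriod_pos_of_mem_periodicPts
      (MapShift_periodic c.rep.1.s (Sum.inr true))
    refine ⟨n % c.rep.1.dg, Nat.mod_lt _ hp, ?_⟩
    rw [← hn, ← MapShift_iter, ← MapShift_iter]
    exact Function.iterate_mod_minimalPeriod_eq
  · rintro ⟨j, _, hj⟩
    exact ⟨j, by rw [← hj]; simp⟩

theorem root_pow_inj (c : GC) {i j : ℕ} (hi : i < c.rep.1.dg) (hj : j < c.rep.1.dg)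
    (h : (c.rep.1.s ^ i) (Sum.inr true) = (c.rep.1.s ^ j) (Sum.inr true)) : i = j := by
  rw [← MapShift_iter, ← MapShift_iter] at h
  exact (Function.iterate_eq_iterate_iff_of_lt_minimalPeriod hi hj).1 h

theorem dg_pos (c : GC) : 0 < c.rep.1.dg :=
  Function.minimalPeriod_pos_of_mem_periodicPts (MapShift_periodic c.rep.1.s (Sum.inr true))

end PGr

end

section
/-! # Module Burn: full codes up to isomorphism, reflection and change of the root dart at the root vertex -/

set_option linter.unusedSectionVars false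

namespace PGr
open Equiv Finset
open scoped ENNReal Classical
universe u
variable {Λ : Type u}
open NetSumC

/-- equivalence of full codes -/
instance fcSetoid (Λ : Type u) : Setoid (FCR Λ) where
  r p q := ∃ (o : Bool) (ψ : CT p.1.hat.1 ≃ CT q.1.hat.1), DM p.1.hat q.1.hat o ψ
  iseqv := ⟨fun p => ⟨true, Equiv.refl _, DM.refl _⟩, fun ⟨o, ψ, h⟩ => ⟨o, ψ.symm, h.symm⟩,
    fun ⟨_, _, h⟩ ⟨_, _, h'⟩ => ⟨_, _, h.trans h'⟩⟩

/-- The generating function of graphs with root vertex `v0` together with a node at `v0` whose skeleton is rigid: the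
equivalence classes of rigid full codes. -/
noncomputable def PR (w : Λ → ℝ≥0∞) : ℝ≥0∞ := ∑' x : Quotient (fcSetoid Λ), x.out.1.wt w

/-- the pairs (sign, matching) from `p` to itself -/
noncomputable def stab (p : FCR Λ) : ℕ :=
  ∑ o : Bool, (univ.filter fun σ : Perm (CT p.1.1) => DM p.1.hat p.1.hat o σ).card

/-- the minimal periods of a permutation and its inverse -/
theorem Burn_inv {T : Type*} (s : Perm T) (x : T) :
    Function.minimalPeriod (fun t => s⁻¹ t) x = Function.minimalPeriod (fun t => s t) x := by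
  rw [Function.minimalPeriod_eq_minimalPeriod_iff]
  intro n
  rw [Function.IsPeriodicPt, Function.IsPeriodicPt, Function.IsFixedPt, Function.IsFixedPt,
    MapShift_iter, MapShift_iter, inv_pow, Perm.inv_eq_iff_eq]
  exact eq_comm

theorem fc_dg {p q : FCR Λ} (h : (fcSetoid Λ).r p q) : p.dg = q.dg := by
  obtain ⟨o, ψ, h⟩ := h
  have h1 : (core q.1.1).s.SameCycle (Sum.inr true) (ψ (Sum.inr true)) :=
    (h.fc_root (Sum.inr true)).1 (Perm.SameCycle.refl _ _)
  have h2 : Function.minimalPeriod (fun t => (core q.1.1).s t) (Sum.inr true) =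
      Function.minimalPeriod (fun t => (core q.1.1).s t) (ψ (Sum.inr true)) := MapShift_cyc _ h1
  have h3 : Function.minimalPeriod (fun t => (core p.1.1).s t) (Sum.inr true) =
      Function.minimalPeriod (fun t => (core q.1.1).s t) (ψ (Sum.inr true)) := by
    rcases o with _ | _
    · have h4 : ∀ t, ψ ((core p.1.1).s t) = (core q.1.1).s⁻¹ (ψ t) := fun t => h.s t
      have h5 := MapShift_per (s' := (core q.1.1).s⁻¹) ψ h4 (Sum.inr true)
      exact h5.trans (Burn_inv _ _)
    · have h4 : ∀ t, ψ ((core p.1.1).s t) = (core q.1.1).s (ψ t) := fun t => h.s t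
      exact MapShift_per (s' := (core q.1.1).s) ψ h4 (Sum.inr true)
  exact h3.trans h2.symm

/-- the matchings of `p` with itself -/
abbrev BurnM (p : FCR Λ) : Type :=
  {x : Bool × Perm (CT p.1.hat.1) // DM p.1.hat p.1.hat x.1 x.2}

theorem Burn_stab (p : FCR Λ) : stab p = Nat.card (BurnM p) := by
  rw [Nat.card_eq_fintype_card, Fintype.card_subtype, Finset.card_filter,
    Fintype.sum_prod_type (f := fun x : Bool × Perm (CT p.1.hat.1) =>
      if DM p.1.hat p.1.hat x.1 x.2 then 1 else 0)]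
  unfold stab
  refine Finset.sum_congr rfl fun o _ => ?_
  rw [Finset.card_filter]
  rfl

theorem fc_stab {p q : FCR Λ} (h : (fcSetoid Λ).r p q) : stab p = stab q := by
  obtain ⟨o, ψ, h⟩ := h
  rw [Burn_stab, Burn_stab]
  have hb : ∀ o o' : Bool, ((o == o') == o) = o' := by decide
  refine Nat.card_congr
    { toFun := fun x => ⟨(x.1.1, (ψ.symm.trans x.1.2).trans ψ), ?_⟩
      invFun := fun x => ⟨(x.1.1, (ψ.trans x.1.2).trans ψ.symm), ?_⟩
      left_inv := fun x => ?_
      right_inv := fun x => ?_ }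
  · have h1 := (h.symm.trans x.2).trans h
    rwa [hb] at h1
  · have h1 := (h.trans x.2).trans h.symm
    rwa [hb] at h1
  · refine Subtype.ext (Prod.ext rfl ?_)
    ext t
    simp
  · refine Subtype.ext (Prod.ext rfl ?_)
    ext t
    simp

theorem fc_wt' (w : Λ → ℝ≥0∞) {p q : FCR Λ} (h : (fcSetoid Λ).r p q) : p.1.wt w = q.1.wt w := by
  obtain ⟨o, ψ, h⟩ := h
  exact h.fc_wt w

/-- two matchings with the same sign and the same preimage of the root dart -/
theorem Burn_eq {p : FCR Λ} {q q' : FCR Λ} {o : Bool} {ψ : CT p.1.hat.1 ≃ CT q.1.hat.1}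
    {ψ' : CT p.1.hat.1 ≃ CT q'.1.hat.1} (h : DM p.1.hat q.1.hat o ψ)
    (h' : DM p.1.hat q'.1.hat o ψ') {t : CT p.1.hat.1} (ht : ψ t = Sum.inr true)
    (ht' : ψ' t = Sum.inr true) : q = q' := by
  have h1 := h.symm.trans h'
  have h2 : (o == o) = true := by cases o <;> rfl
  rw [h2] at h1
  have h3 : (ψ.symm.trans ψ') (Sum.inr true) = Sum.inr true := by
    show ψ' (ψ.symm (Sum.inr true)) = Sum.inr true
    rw [← ht, Equiv.symm_apply_apply, ht']
  exact Subtype.ext (FC.hat_inj (h1.eq h3))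

/-- Orbit and stabiliser: the map `(o, t) ↦ q` (`FC.reroot`), `t` a dart of the root vertex of `p`, is a surjection of a set with
`2 * dg` elements onto the class of `p`, and every fibre has `stab p` elements: the pairs `(o, t)` over `q` correspond to the
pairs `(o, ψ)` with `DM p q o ψ`, `t = ψ⁻¹ (inr true)` (`DM.fc_root`, `DM.unique`), and these are the compositions of one of them
with the elements of the stabiliser. -/
theorem card_class (p : FCR Λ) :
    Nat.card {q : FCR Λ // (fcSetoid Λ).r p q} * stab p = 2 * p.dg ∧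
      Finite {q : FCR Λ // (fcSetoid Λ).r p q} := by
  -- the darts of the root vertex
  let V0 : Type := {t : CT p.1.hat.1 // (core p.1.1).s.SameCycle (Sum.inr true) t}
  have hV0 : Nat.card V0 = p.dg := by
    have hper : Function.minimalPeriod (fun t => (core p.1.1).s t) (Sum.inr true) = p.dg := rfl
    have hpos : 0 < p.dg := Function.minimalPeriod_pos_of_mem_periodicPts
      (MapShift_periodic (core p.1.1).s (Sum.inr true))
    rw [← Nat.card_fin p.dg]
    symm
    refine Nat.card_congr (Equiv.ofBijective (fun j : Fin p.dg =>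
      (⟨((core p.1.1).s ^ (j : ℕ)) (Sum.inr true), ⟨(j : ℕ), by simp⟩⟩ : V0)) ⟨?_, ?_⟩)
    · intro i j hij
      have h1 : ((core p.1.1).s ^ (i : ℕ)) (Sum.inr true) =
          ((core p.1.1).s ^ (j : ℕ)) (Sum.inr true) := congrArg Subtype.val hij
      rw [← MapShift_iter, ← MapShift_iter] at h1
      exact Fin.ext ((Function.iterate_eq_iterate_iff_of_lt_minimalPeriod i.2 j.2).1 h1)
    · rintro ⟨t, ht⟩
      obtain ⟨n, _, hn⟩ := ht.exists_pow_eq'
      refine ⟨⟨n % p.dg, Nat.mod_lt _ hpos⟩, Subtype.ext ?_⟩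
      show ((core p.1.1).s ^ (n % p.dg)) (Sum.inr true) = t
      rw [← hn, ← MapShift_iter, ← MapShift_iter]
      exact Function.iterate_mod_minimalPeriod_eq
  -- the pairs of a code of the class and a matching
  let Cl : Type _ := {q : FCR Λ // (fcSetoid Λ).r p q}
  let X : Type _ := Σ q : Cl, {x : Bool × (CT p.1.hat.1 ≃ CT q.1.1.hat.1) //
    DM p.1.hat q.1.1.hat x.1 x.2}
  have hX1 : Nonempty (X ≃ Bool × V0) := by
    refine ⟨Equiv.ofBijective (fun x : X => (x.2.1.1, (⟨x.2.1.2.symm (Sum.inr true), ?_⟩ : V0)))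
      ⟨?_, ?_⟩⟩
    · have h1 := (x.2.2.fc_root (x.2.1.2.symm (Sum.inr true))).2
      rw [Equiv.apply_symm_apply] at h1
      exact h1 (Perm.SameCycle.refl _ _)
    · rintro ⟨⟨q, hq⟩, ⟨⟨o, ψ⟩, hψ⟩⟩ ⟨⟨q', hq'⟩, ⟨⟨o', ψ'⟩, hψ'⟩⟩ hxx
      have h1 : o = o' := (Prod.ext_iff.1 hxx).1
      have h2 : ψ.symm (Sum.inr true) = ψ'.symm (Sum.inr true) :=
        congrArg Subtype.val (Prod.ext_iff.1 hxx).2
      subst h1
      have h3 : ψ (ψ.symm (Sum.inr true)) = Sum.inr true := Equiv.apply_symm_apply _ _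
      have h4 : ψ' (ψ.symm (Sum.inr true)) = Sum.inr true := by
        rw [h2]
        exact Equiv.apply_symm_apply _ _
      have h5 : q = q' := Burn_eq hψ hψ' h3 h4
      subst h5
      have h6 : ψ = ψ' := DM.unique hψ hψ' (t := ψ.symm (Sum.inr true)) (h3.trans h4.symm)
      subst h6
      rfl
    · rintro ⟨o, ⟨t, ht⟩⟩
      obtain ⟨q, ψ, hψ, hψt⟩ := FC.reroot p.1 t ht o
      have hq : Rigid q.1.rep.1 := hψ.rigid p.2
      refine ⟨⟨⟨⟨q, hq⟩, ⟨o, ψ, hψ⟩⟩, ⟨(o, ψ), hψ⟩⟩, ?_⟩
      refine Prod.ext rfl (Subtype.ext ?_)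
      show ψ.symm (Sum.inr true) = t
      rw [← hψt, Equiv.symm_apply_apply]
  have hX2 : Nonempty (X ≃ Cl × BurnM p) := by
    have hch : ∀ q : Cl, ∃ x : Bool × (CT p.1.hat.1 ≃ CT q.1.1.hat.1),
        DM p.1.hat q.1.1.hat x.1 x.2 := fun q => by
      obtain ⟨o, ψ, h⟩ := q.2
      exact ⟨(o, ψ), h⟩
    choose m hm using hch
    have hb : ∀ o o' : Bool, ((o == o') == o') = o := by decide
    refine ⟨
      { toFun := fun x => (x.1, ⟨(x.2.1.1 == (m x.1).1, x.2.1.2.trans (m x.1).2.symm), ?_⟩)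
        invFun := fun y => ⟨y.1, ⟨(y.2.1.1 == (m y.1).1, y.2.1.2.trans (m y.1).2), ?_⟩⟩
        left_inv := ?_
        right_inv := ?_ }⟩
    · exact x.2.2.trans (hm x.1).symm
    · exact y.2.2.trans (hm y.1)
    · rintro ⟨q, ⟨⟨o, ψ⟩, hψ⟩⟩
      refine Sigma.ext rfl (heq_of_eq (Subtype.ext (Prod.ext (hb _ _) ?_)))
      ext t
      simp
    · rintro ⟨q, ⟨⟨o, ψ⟩, hψ⟩⟩
      refine Prod.ext rfl (Subtype.ext (Prod.ext (hb _ _) ?_))
      ext t
      simp
  obtain ⟨e1⟩ := hX1
  obtain ⟨e2⟩ := hX2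
  have h1 : Nat.card (Cl × BurnM p) = Nat.card (Bool × V0) := Nat.card_congr (e2.symm.trans e1)
  rw [Nat.card_prod, Nat.card_prod, hV0] at h1
  constructor
  · rw [Burn_stab, h1, Nat.card_eq_fintype_card, Fintype.card_bool]
  · have hfin : Finite (Cl × BurnM p) := Finite.of_equiv _ (e2.symm.trans e1).symm
    have hne : Nonempty (BurnM p) := ⟨⟨(true, Equiv.refl _), DM.refl _⟩⟩
    exact Finite.of_surjective (fun x : Cl × BurnM p => x.1) fun q =>
      ⟨(q, Classical.arbitrary _), rfl⟩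

/-- Burnside's lemma: sum over the classes; `fc_dg`, `fc_stab`, `fc_wt'`, `card_class` -/
theorem PR_burnside (w : Λ → ℝ≥0∞) : PR w = ∑' p : FCR Λ, ∑ o : Bool, ∑ σ : Perm (CT p.1.1),
    if DM p.1.hat p.1.hat o σ then p.1.wt w / (2 * (p.dg : ℝ≥0∞)) else 0 := by
  have h1 : ∀ p : FCR Λ, (∑ o : Bool, ∑ σ : Perm (CT p.1.1),
      if DM p.1.hat p.1.hat o σ then p.1.wt w / (2 * (p.dg : ℝ≥0∞)) else 0) =
      (stab p : ℝ≥0∞) * (p.1.wt w / (2 * (p.dg : ℝ≥0∞))) := by
    intro p
    rw [stab, Nat.cast_sum, Finset.sum_mul]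
    refine Finset.sum_congr rfl fun o _ => ?_
    rw [← Finset.sum_filter, Finset.sum_const, nsmul_eq_mul]
  rw [tsum_congr h1]
  obtain ⟨f, hf⟩ : ∃ f : FCR Λ → ℝ≥0∞, ∀ p, f p =
      (stab p : ℝ≥0∞) * (p.1.wt w / (2 * (p.dg : ℝ≥0∞))) := ⟨_, fun _ => rfl⟩
  rw [tsum_congr fun p => (hf p).symm]
  have hconst : ∀ {p q : FCR Λ}, (fcSetoid Λ).r p q → f q = f p := by
    intro p q h
    rw [hf, hf, fc_dg h, fc_stab h, fc_wt' w h]
  let mk : FCR Λ → Quotient (fcSetoid Λ) := Quotient.mk (fcSetoid Λ)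
  rw [← (Equiv.sigmaFiberEquiv mk).tsum_eq, ENNReal.tsum_sigma']
  unfold PR
  refine tsum_congr fun x => ?_
  have hx : mk x.out = x := Quotient.out_eq x
  let e : {p : FCR Λ // mk p = x} ≃ {q : FCR Λ // (fcSetoid Λ).r x.out q} :=
    Equiv.subtypeEquivRight fun q => by
      constructor
      · intro h
        exact Quotient.exact (hx.trans h.symm)
      · intro h
        exact (Quotient.sound h : mk x.out = mk q).symm.trans hx
  have hval : ∀ q : {p : FCR Λ // mk p = x}, f ((Equiv.sigmaFiberEquiv mk) ⟨x, q⟩) = f x.out :=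
    fun q => hconst (e q).2
  rw [tsum_congr hval]
  obtain ⟨hc, hfin⟩ := card_class x.out
  have hfin' : Finite {p : FCR Λ // mk p = x} := Finite.of_equiv _ e.symm
  have hft : Fintype {p : FCR Λ // mk p = x} := Fintype.ofFinite _
  rw [tsum_fintype, Finset.sum_const, card_univ, nsmul_eq_mul, ← Nat.card_eq_fintype_card,
    Nat.card_congr e, hf, ← mul_assoc, ← Nat.cast_mul, hc]
  have hpos : 0 < x.out.dg := Function.minimalPeriod_pos_of_mem_periodicPts
    (MapShift_periodic (core x.out.1.1).s (Sum.inr true))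
  have hcast : ((2 * x.out.dg : ℕ) : ℝ≥0∞) = 2 * (x.out.dg : ℝ≥0∞) := by push_cast; rfl
  rw [hcast]
  symm
  refine ENNReal.mul_div_cancel ?_ ?_
  · exact mul_ne_zero (by norm_num) (Nat.cast_ne_zero.2 hpos.ne')
  · exact ENNReal.mul_ne_top (by norm_num) (ENNReal.natCast_ne_top _)

end PGr

end

section
/-! # Module SymSum: sums over the full codes with a given reflection -/

set_option linter.unusedSectionVars false

namespace PGr
open Equiv Finset
open scoped ENNReal Classical
universe u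
variable {Λ : Type u} (w : Λ → ℝ≥0∞)
open NetSumC

/-- sums over the decorations of the edges which are invariant under an involution `τ` of the darts -/
theorem SymSum_edge {E α : Type*} [Fintype E] (τ : E × Bool → E × Bool) (hτ : ∀ x, τ (τ x) = x)
    (hf : ∀ e b, τ (e, !b) = ((τ (e, b)).1, !(τ (e, b)).2)) (φ : α → α) (hφ : ∀ a, φ (φ a) = a)
    (w : α → ℝ≥0∞) (hw : ∀ a, w (φ a) = w a) :
    ∑' G : E → α, (if ∀ x, (if (τ x).2 then G (τ x).1 else φ (G (τ x).1)) =
        (if x.2 then G x.1 else φ (G x.1)) then ∏ e, w (G e) else 0) =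
      (∑' a, w a) ^ ((univ.filter fun x => τ x = x).card / 2) *
      (∑' a, if φ a = a then w a else 0) ^ ((univ.filter fun x => τ x = (x.1, !x.2)).card / 2) *
      (∑' a, w a ^ 2) ^ ((Fintype.card (E × Bool) - (univ.filter fun x => τ x = x).card -
        (univ.filter fun x => τ x = (x.1, !x.2)).card) / 4) := by
  -- the action on the edges
  obtain ⟨cc, hcc⟩ : ∃ cc : E → Bool, ∀ e, cc e = !(τ (e, true)).2 := ⟨_, fun _ => rfl⟩
  have h1 : ∀ e b, τ (e, b) = ((τ (e, true)).1, xor b (cc e)) := by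
    intro e b
    rcases b with _ | _
    · have h := hf e true
      simp only [Bool.not_true] at h
      rw [h, hcc]
      simp
    · rw [hcc]
      simp
  have hinv : ∀ e, (τ ((τ (e, true)).1, true)).1 = e := by
    intro e
    have h2 := h1 (τ (e, true)).1 (τ (e, true)).2
    have h3 : ((τ (e, true)).1, (τ (e, true)).2) = τ (e, true) := rfl
    rw [h3, hτ] at h2
    exact (congrArg Prod.fst h2).symm
  have hcinv : ∀ e, cc (τ (e, true)).1 = cc e := by
    intro e
    have h2 := h1 (τ (e, true)).1 (τ (e, true)).2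
    have h3 : ((τ (e, true)).1, (τ (e, true)).2) = τ (e, true) := rfl
    rw [h3, hτ] at h2
    have h4 := congrArg Prod.snd h2
    simp only at h4
    rw [hcc e]
    rcases h5 : (τ (e, true)).2 with _ | _
    · rw [h5] at h4
      simpa using h4.symm
    · rw [h5] at h4
      simpa using h4.symm
  let π : Perm E := ⟨fun e => (τ (e, true)).1, fun e => (τ (e, true)).1, hinv, hinv⟩
  have hπ : ∀ e, π e = (τ (e, true)).1 := fun _ => rfl
  have hππ : ∀ e, π (π e) = e := hinv
  have key := sum_equivariant_inv π hππ cc (fun e => hcinv e) φ hφ w hw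
  have hcond : ∀ G : E → α, (∀ x : E × Bool, (if (τ x).2 then G (τ x).1 else φ (G (τ x).1)) =
        (if x.2 then G x.1 else φ (G x.1))) ↔ ∀ e, G (π e) = (if cc e then φ (G e) else G e) := by
    intro G
    constructor
    · intro h e
      have h2 := h (e, true)
      rw [h1 e true, ← hπ] at h2
      rcases h3 : cc e with _ | _
      · rw [h3] at h2
        simpa using h2
      · rw [h3] at h2
        have h4 : φ (G (π e)) = G e := by simpa using h2
        simp only [if_true]
        rw [← h4, hφ]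
    · rintro h ⟨e, b⟩
      rw [h1 e b, ← hπ]
      simp only
      rw [h e]
      rcases h3 : cc e with _ | _ <;> rcases b with _ | _ <;> simp [hφ]
  simp_rw [hcond]
  rw [key]
  have hfix : (univ.filter fun x => τ x = x).card =
      2 * (univ.filter fun e => π e = e ∧ cc e = false).card := by
    have h2 : (univ.filter fun x : E × Bool => τ x = x) =
        (univ.filter fun e => π e = e ∧ cc e = false) ×ˢ (univ : Finset Bool) := by
      ext ⟨e, b⟩
      simp only [mem_filter, mem_univ, true_and, mem_product, and_true]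
      rw [h1 e b, Prod.mk.injEq, hπ]
      rcases cc e with _ | _ <;> rcases b with _ | _ <;> simp
    rw [h2, card_product, card_univ, Fintype.card_bool, mul_comm]
  have hrev : (univ.filter fun x : E × Bool => τ x = (x.1, !x.2)).card =
      2 * (univ.filter fun e => π e = e ∧ cc e = true).card := by
    have h2 : (univ.filter fun x : E × Bool => τ x = (x.1, !x.2)) =
        (univ.filter fun e => π e = e ∧ cc e = true) ×ˢ (univ : Finset Bool) := by
      ext ⟨e, b⟩
      simp only [mem_filter, mem_univ, true_and, mem_product, and_true]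
      rw [h1 e b, Prod.mk.injEq, hπ]
      rcases cc e with _ | _ <;> rcases b with _ | _ <;> simp
    rw [h2, card_product, card_univ, Fintype.card_bool, mul_comm]
  have hsum : (univ.filter fun e => π e = e).card =
      (univ.filter fun e => π e = e ∧ cc e = false).card +
        (univ.filter fun e => π e = e ∧ cc e = true).card := by
    rw [← card_filter_add_card_filter_not (s := univ.filter fun e => π e = e)
      (fun e => cc e = false), filter_filter, filter_filter]
    congr 2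
    ext e
    simp
  have hcard : Fintype.card (E × Bool) = 2 * Fintype.card E := by
    rw [Fintype.card_prod, Fintype.card_bool, mul_comm]
  rw [hfix, hrev, hcard, hsum, Nat.mul_div_cancel_left _ (by norm_num : 0 < 2),
    Nat.mul_div_cancel_left _ (by norm_num : 0 < 2)]
  congr 2
  omega

/-- sums over the decorations of the vertices which are invariant under an involution -/
theorem SymSum_vert {V α : Type*} [Fintype V] (π : Perm V) (hπ : ∀ x, π (π x) = x)
    (w : α → ℝ≥0∞) :
    ∑' g : V → α, (if ∀ x, g (π x) = g x then ∏ x, w (g x) else 0) =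
      (∑' a, w a) ^ (univ.filter fun x => π x = x).card *
      (∑' a, w a ^ 2) ^ ((Fintype.card V - (univ.filter fun x => π x = x).card) / 2) := by
  have key := sum_equivariant_inv π hπ (fun _ => false) (fun _ => rfl) (id : α → α)
    (fun _ => rfl) w (fun _ => rfl)
  have h1 : (univ.filter fun x => π x = x ∧ false = false) = univ.filter fun x => π x = x := by
    ext x; simp
  have h2 : (univ.filter fun x => π x = x ∧ false = true) = (∅ : Finset V) := by
    ext x; simp
  rw [h1, h2, card_empty, pow_zero, mul_one] at key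
  rw [← key]
  refine tsum_congr fun g => ?_
  simp

/-- the darts of a core, with the root edge as a further edge -/
def SymSum_ed (C : Core) : Option C.I × Bool ≃ (C.I × Bool) ⊕ Bool where
  toFun x := match x with
    | (some i, b) => Sum.inl (i, b)
    | (none, b) => Sum.inr b
  invFun x := match x with
    | Sum.inl (i, b) => (some i, b)
    | Sum.inr b => (none, b)
  left_inv := by rintro ⟨_ | i, b⟩ <;> rfl
  right_inv := by rintro (⟨i, b⟩ | b) <;> rfl

theorem SymSum_aa (C : Core) (e : Option C.I) (b : Bool) :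
    C.toB.aa (SymSum_ed C (e, b)) = SymSum_ed C (e, !b) := by
  rcases e with _ | i <;> rfl

/-- the networks on all edges of a full code -/
def SymSum_G {c : GC} (q : ((core c).I → NC Λ) × NC Λ × (CExt (core c) → Λ)) :
    Option (core c).I → NC Λ := fun e => e.elim q.2.1 q.1

theorem SymSum_dec (c : GC) (q : ((core c).I → NC Λ) × NC Λ × (CExt (core c) → Λ))
    (x : Option (core c).I × Bool) :
    (FC.hat ⟨c, q⟩).2.1 (SymSum_ed (core c) x) =
      if x.2 then SymSum_G q x.1 else (SymSum_G q x.1).fl := by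
  rcases x with ⟨_ | i, b⟩ <;> rfl

theorem SymSum_good (c : GC) : (core c).toB.IsGood := (core_iso c).symm.good c.rep.2

/-- the edge involution of a core -/
def SymSum_a (C : Core) : Perm ((C.I × Bool) ⊕ Bool) := C.toB.aa

theorem SymSum_aa' (C : Core) (e : Option C.I) (b : Bool) :
    SymSum_a C (SymSum_ed C (e, b)) = SymSum_ed C (e, !b) := SymSum_aa C e b

/-- a reflection which preserves the root vertex is an involution -/
theorem SymSum_inv {C : Core} (hC : C.toB.IsGood) {t : (C.I × Bool) ⊕ Bool}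
    (ht : C.s.SameCycle (Sum.inr true) t) {σ : Perm ((C.I × Bool) ⊕ Bool)}
    (ha : ∀ x, σ (SymSum_a C x) = SymSum_a C (σ x)) (hs : ∀ x, σ (C.s x) = C.s⁻¹ (σ x))
    (hr : σ (Sum.inr true) = t) (x : (C.I × Bool) ⊕ Bool) : σ (σ x) = x := by
  have hsi : ∀ x, σ (C.s⁻¹ x) = C.s (σ x) := by
    intro x
    have h1 := hs (C.s⁻¹ x)
    rw [show C.s (C.s⁻¹ x) = x by simp] at h1
    rw [h1]
    simp
  have hpow : ∀ (n : ℕ) x, σ ((C.s ^ n) x) = (C.s⁻¹ ^ n) (σ x) := by
    intro n
    induction n with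
    | zero => intro x; rfl
    | succ n ih =>
      intro x
      rw [pow_succ', Perm.mul_apply, hs, ih, pow_succ', Perm.mul_apply]
  have hroot : σ (σ (Sum.inr true)) = Sum.inr true := by
    obtain ⟨n, _, hn⟩ := ht.exists_pow_eq'
    rw [hr, ← hn, hpow, hr, ← hn, inv_pow]
    simp
  have hC' : Good (SymSum_a C) C.s := hC
  have h1 := iso_unique hC' (Sum.inr true) (σ.trans σ) (Equiv.refl _)
    (a' := SymSum_a C) (s' := C.s) (fun t => by
      show σ (σ (SymSum_a C t)) = SymSum_a C (σ (σ t))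
      rw [ha, ha]) (fun t => by
      show σ (σ (C.s t)) = C.s (σ (σ t))
      rw [hs, hsi]) (fun _ => rfl) (fun _ => rfl) hroot
  exact congrArg (fun f : ((C.I × Bool) ⊕ Bool) ≃ ((C.I × Bool) ⊕ Bool) => f x) h1

/-- a reflection maps cycles to cycles -/
theorem SymSum_cyc {C : Core} {σ : Perm ((C.I × Bool) ⊕ Bool)}
    (hs : ∀ x, σ (C.s x) = C.s⁻¹ (σ x)) {x y : (C.I × Bool) ⊕ Bool} (hxy : C.s.SameCycle x y) :
    C.s.SameCycle (σ x) (σ y) := by
  obtain ⟨n, _, hn⟩ := hxy.exists_pow_eq'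
  rw [← hn]
  clear hn
  have key : ∀ m : ℕ, C.s.SameCycle (σ x) (σ ((C.s ^ m) x)) := by
    intro m
    induction m with
    | zero => exact Perm.SameCycle.refl _ _
    | succ m ih =>
      rw [pow_succ', Perm.mul_apply, hs]
      exact ih.trans ⟨-1, by simp⟩
  exact key n

theorem SymSum_vinc (C : Core) (x y : (C.I × Bool) ⊕ Bool) :
    C.vinc x = C.vinc y ↔ C.s.SameCycle x y :=
  ⟨fun h => Quotient.exact h, fun h => Quotient.sound h⟩

theorem SymSum_card_CExt (C : Core) : Fintype.card (CExt C) = nV C.s - 1 := by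
  have h1 : nV C.s = Fintype.card C.CV := by
    rw [← Nat.card_eq_fintype_card]
    rfl
  have h2 : Fintype.card (CExt C) = (univ.filter fun x : C.CV => x ≠ C.vinc (Sum.inr true)).card :=
    Fintype.card_subtype _
  have h3 : (univ.filter fun x : C.CV => x ≠ C.vinc (Sum.inr true)) =
      univ \ {C.vinc (Sum.inr true)} := by
    ext x
    simp only [mem_filter, mem_univ, true_and, mem_sdiff, mem_singleton]
  rw [h2, h3, Finset.card_sdiff_of_subset (subset_univ _), card_singleton, card_univ, h1]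

/-- a sum over full codes is a sum over decorations of the edges and of the vertices -/
theorem SymSum_split (c : GC) (A : (Option (core c).I → NC Λ) → ℝ≥0∞)
    (B : (CExt (core c) → Λ) → ℝ≥0∞) :
    ∑' q : ((core c).I → NC Λ) × NC Λ × (CExt (core c) → Λ), A (SymSum_G q) * B q.2.2 =
      (∑' G, A G) * ∑' g, B g := by
  rw [tsum_prod_mul]
  let e : (((core c).I → NC Λ) × NC Λ × (CExt (core c) → Λ)) ≃
      (Option (core c).I → NC Λ) × (CExt (core c) → Λ) :=
    { toFun := fun q => (SymSum_G q, q.2.2)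
      invFun := fun p => (fun i => p.1 (some i), p.1 none, p.2)
      left_inv := fun q => rfl
      right_inv := by
        rintro ⟨G, g⟩
        refine Prod.ext ?_ rfl
        funext x
        rcases x with _ | i <;> rfl }
  exact e.tsum_eq (fun p : (Option (core c).I → NC Λ) × (CExt (core c) → Λ) => A p.1 * B p.2)

theorem SymSum_wt (c : GC) (q : ((core c).I → NC Λ) × NC Λ × (CExt (core c) → Λ)) :
    FC.wt w ⟨c, q⟩ = (∏ e, wt w (SymSum_G q e).rep.1) * ∏ x, w (q.2.2 x) := by
  rw [Fintype.prod_option, FC.wt, mul_comm (wt w (SymSum_G q none).rep.1)]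
  rfl

theorem SymSum_pD (k : ℕ) : pD w k = ∑' d : NC Λ, wt w d.rep.1 ^ k := by
  unfold pD pN
  refine tsum_congr fun d => ?_
  rw [if_pos trivial]

theorem SymSum_pS : pS w 1 = ∑' d : NC Λ, if d.fl = d then wt w d.rep.1 else 0 := by
  unfold pS pN
  simp only [pow_one]

/-- the dart decoration of a full code -/
noncomputable def SymSum_D {c : GC} (q : ((core c).I → NC Λ) × NC Λ × (CExt (core c) → Λ)) :
    ((core c).I × Bool) ⊕ Bool → NC Λ :=
  Sum.elim (eDec q.1) (fun b => if b then q.2.1 else q.2.1.fl)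

/-- the vertex decoration of a full code -/
noncomputable def SymSum_g {c : GC} (q : ((core c).I → NC Λ) × NC Λ × (CExt (core c) → Λ)) :
    (core c).CV → Option Λ :=
  fun x => if h : x ≠ (core c).vinc (Sum.inr true) then some (q.2.2 ⟨x, h⟩) else none

theorem SymSum_dec' {c : GC} (q : ((core c).I → NC Λ) × NC Λ × (CExt (core c) → Λ))
    (x : Option (core c).I × Bool) :
    SymSum_D q (SymSum_ed (core c) x) =
      if x.2 then SymSum_G q x.1 else (SymSum_G q x.1).fl := SymSum_dec c q x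

theorem SymSum_main (c : GC) (t : ((core c).I × Bool) ⊕ Bool)
    (ht : (core c).s.SameCycle (Sum.inr true) t) (σ : Perm (((core c).I × Bool) ⊕ Bool))
    (ha : ∀ x, σ (SymSum_a (core c) x) = SymSum_a (core c) (σ x))
    (hs : ∀ x, σ ((core c).s x) = (core c).s⁻¹ (σ x)) (hr : σ (Sum.inr true) = t) :
    ∑' q : ((core c).I → NC Λ) × NC Λ × (CExt (core c) → Λ),
      (if (∀ x, SymSum_D q (σ x) = SymSum_D q x) ∧
          (∀ x, SymSum_g q ((core c).vinc (σ x)) = SymSum_g q ((core c).vinc x)) then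
        FC.wt w ⟨c, q⟩ else 0) =
      symW0 (core c).toB σ (pK w 1) (pK w 2) (pD w 1) (pS w 1) (pD w 2) := by
  have hinv := SymSum_inv (SymSum_good c) ht ha hs hr
  let ed := SymSum_ed (core c)
  -- the darts
  let τ : Option (core c).I × Bool → Option (core c).I × Bool := fun x => ed.symm (σ (ed x))
  have hτ : ∀ x, ed (τ x) = σ (ed x) := fun x => ed.apply_symm_apply _
  have hττ : ∀ x, τ (τ x) = x := by
    intro x
    apply ed.injective
    rw [hτ, hτ, hinv]
  have hτf : ∀ e b, τ (e, !b) = ((τ (e, b)).1, !(τ (e, b)).2) := by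
    intro e b
    apply ed.injective
    rw [hτ]
    have h1 : SymSum_a (core c) (ed (e, b)) = ed (e, !b) := SymSum_aa' (core c) e b
    have h2 : SymSum_a (core c) (ed ((τ (e, b)).1, (τ (e, b)).2)) =
      ed ((τ (e, b)).1, !(τ (e, b)).2) := SymSum_aa' (core c) (τ (e, b)).1 (τ (e, b)).2
    have h4 : σ (ed (e, b)) = ed ((τ (e, b)).1, (τ (e, b)).2) := (hτ (e, b)).symm
    rw [← h1, ha, h4, h2]
  -- the vertices
  have hv : ∀ x y, (core c).vinc x = (core c).vinc y →
      (core c).vinc (σ x) = (core c).vinc (σ y) := by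
    intro x y hxy
    rw [SymSum_vinc] at hxy ⊢
    exact SymSum_cyc hs hxy
  have hroot : (core c).vinc (σ (Sum.inr true)) = (core c).vinc (Sum.inr true) := by
    rw [hr, SymSum_vinc]
    exact ht.symm
  have hrep : ∀ x : (core c).CV, ∃ y, (core c).vinc y = x := fun x => Quotient.exists_rep x
  choose rp hrp using hrep
  obtain ⟨ν, hνd⟩ : ∃ ν : (core c).CV → (core c).CV, ∀ x, ν x = (core c).vinc (σ (rp x)) :=
    ⟨_, fun _ => rfl⟩
  have hν : ∀ y, ν ((core c).vinc y) = (core c).vinc (σ y) := fun y => by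
    rw [hνd]
    exact hv _ _ (hrp _)
  have hνν : ∀ x, ν (ν x) = x := by
    intro x
    conv_lhs => rw [← hrp x]
    rw [hν, hν, hinv, hrp]
  have hνr : ν ((core c).vinc (Sum.inr true)) = (core c).vinc (Sum.inr true) := by
    rw [hν, hroot]
  have hνne : ∀ x, x ≠ (core c).vinc (Sum.inr true) → ν x ≠ (core c).vinc (Sum.inr true) := by
    intro x hx hx'
    apply hx
    rw [← hνν x, hx', hνr]
  let π : Perm (CExt (core c)) := ⟨fun x => ⟨ν x.1, hνne x.1 x.2⟩, fun x => ⟨ν x.1, hνne x.1 x.2⟩,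
    fun x => Subtype.ext (hνν x.1), fun x => Subtype.ext (hνν x.1)⟩
  have hπ : ∀ x, π (π x) = x := fun x => Subtype.ext (hνν x.1)
  -- the conditions
  have hc1 : ∀ q : ((core c).I → NC Λ) × NC Λ × (CExt (core c) → Λ),
      (∀ x, SymSum_D q (σ x) = SymSum_D q x) ↔
      ∀ x, (if (τ x).2 then SymSum_G q (τ x).1 else (SymSum_G q (τ x).1).fl) =
        (if x.2 then SymSum_G q x.1 else (SymSum_G q x.1).fl) := by
    intro q
    constructor
    · intro h1 x
      have h2 := h1 (ed x)
      rw [← hτ] at h2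
      rw [SymSum_dec', SymSum_dec'] at h2
      exact h2
    · intro h1 t
      obtain ⟨x, rfl⟩ := ed.surjective t
      rw [← hτ]
      rw [SymSum_dec', SymSum_dec']
      exact h1 x
  have hc2 : ∀ q : ((core c).I → NC Λ) × NC Λ × (CExt (core c) → Λ),
      (∀ x, SymSum_g q ((core c).vinc (σ x)) = SymSum_g q ((core c).vinc x)) ↔
      ∀ x, q.2.2 (π x) = q.2.2 x := by
    intro q
    have hval : ∀ x, SymSum_g q x =
        if h : x ≠ (core c).vinc (Sum.inr true) then some (q.2.2 ⟨x, h⟩) else none := fun _ => rfl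
    constructor
    · intro h1 x
      have h2 := h1 (rp x.1)
      have h3 : (core c).vinc (σ (rp x.1)) = ν x.1 := (hνd _).symm
      rw [h3, hrp, hval, hval, dif_pos x.2, dif_pos (hνne x.1 x.2)] at h2
      exact Option.some.inj h2
    · intro h1 t
      rw [← hν, hval, hval]
      by_cases h2 : (core c).vinc t ≠ (core c).vinc (Sum.inr true)
      · rw [dif_pos h2, dif_pos (hνne _ h2)]
        exact congrArg some (h1 ⟨_, h2⟩)
      · rw [dif_neg h2, dif_neg]
        push Not at h2 ⊢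
        rw [h2, hνr]
  have hmain : ∀ q : ((core c).I → NC Λ) × NC Λ × (CExt (core c) → Λ),
      (if (∀ x, SymSum_D q (σ x) = SymSum_D q x) ∧
          (∀ x, SymSum_g q ((core c).vinc (σ x)) = SymSum_g q ((core c).vinc x)) then
        FC.wt w ⟨c, q⟩ else 0) =
      (if ∀ x, (if (τ x).2 then SymSum_G q (τ x).1 else (SymSum_G q (τ x).1).fl) =
        (if x.2 then SymSum_G q x.1 else (SymSum_G q x.1).fl) then
          ∏ e, wt w (SymSum_G q e).rep.1 else 0) *
      (if ∀ x, q.2.2 (π x) = q.2.2 x then ∏ x, w (q.2.2 x) else 0) := by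
    intro q
    rw [SymSum_wt]
    by_cases h1 : ∀ x, (if (τ x).2 then SymSum_G q (τ x).1 else (SymSum_G q (τ x).1).fl) =
        (if x.2 then SymSum_G q x.1 else (SymSum_G q x.1).fl)
    · by_cases h2 : ∀ x, q.2.2 (π x) = q.2.2 x
      · rw [if_pos ⟨(hc1 q).2 h1, (hc2 q).2 h2⟩, if_pos h1, if_pos h2]
      · rw [if_neg (fun h3 => h2 ((hc2 q).1 h3.2)), if_neg h2, mul_zero]
    · rw [if_neg (fun h3 => h1 ((hc1 q).1 h3.1)), if_neg h1, zero_mul]
  rw [tsum_congr hmain, SymSum_split c
    (fun G => if ∀ x, (if (τ x).2 then G (τ x).1 else (G (τ x).1).fl) =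
        (if x.2 then G x.1 else (G x.1).fl) then ∏ e, wt w (G e).rep.1 else 0)
    (fun g => if ∀ x, g (π x) = g x then ∏ x, w (g x) else 0)]
  have h0 : ∀ A A' B B' C : ℝ≥0∞, A = A' → B = B' → A' * B' = C → A * B = C := by
    rintro _ _ _ _ _ rfl rfl h
    exact h
  refine h0 _ _ _ _ _
    (Eq.trans ?_ (SymSum_edge τ hττ hτf NC.fl NC.fl_fl (fun d => wt w d.rep.1) (NC.wt_fl w)))
    (Eq.trans ?_ (SymSum_vert π hπ w)) ?_
  · refine tsum_congr fun G => ?_
    congr
  · refine tsum_congr fun G => ?_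
    congr
  -- the exponents
  have hD : fixD (core c).toB σ (fun _ => True) =
      (univ.filter fun x : Option (core c).I × Bool => τ x = x).card := by
    rw [fixD, ← Fintype.card_subtype, ← Nat.card_eq_fintype_card]
    refine Nat.card_congr ?_
    refine (ed.subtypeEquiv fun x => ?_).symm
    constructor
    · intro h1
      exact ⟨trivial, ((hτ x).symm.trans (congrArg ed h1) : σ (ed x) = ed x)⟩
    · rintro ⟨_, h1⟩
      apply ed.injective
      rw [hτ]
      exact h1
  have hR : revD (core c).toB σ (fun _ => True) =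
      (univ.filter fun x : Option (core c).I × Bool => τ x = (x.1, !x.2)).card := by
    rw [revD, ← Fintype.card_subtype, ← Nat.card_eq_fintype_card]
    refine Nat.card_congr ?_
    refine (ed.subtypeEquiv fun x => ?_).symm
    have h2 : SymSum_a (core c) (ed x) = ed (x.1, !x.2) := SymSum_aa' (core c) x.1 x.2
    constructor
    · intro h1
      refine ⟨trivial, ?_⟩
      show σ (ed x) = SymSum_a (core c) (ed x)
      rw [← hτ, h1, h2]
    · rintro ⟨_, h1⟩
      have h1' : σ (ed x) = SymSum_a (core c) (ed x) := h1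
      apply ed.injective
      rw [hτ, ← h2]
      exact h1'
  have hV : fixV (core c).toB σ (fun t => t = Sum.inr true) =
      (univ.filter fun x : CExt (core c) => π x = x).card := by
    rw [fixV, ← Fintype.card_subtype, ← Nat.card_eq_fintype_card]
    refine Nat.card_congr ?_
    refine ⟨fun q => ⟨⟨q.1, q.2.1 _ rfl⟩, ?_⟩, fun x => ⟨x.1.1, ?_, ?_⟩, fun _ => rfl, fun _ => rfl⟩
    · refine Subtype.ext ?_
      have h1 : (core c).vinc (σ (rp q.1)) = q.1 := q.2.2 (rp q.1) (hrp q.1)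
      exact (hνd _).trans h1
    · rintro _ rfl
      exact x.1.2
    · intro t ht'
      have h1 : ν x.1.1 = x.1.1 := congrArg Subtype.val x.2
      have h2 : (core c).vinc t = x.1.1 := ht'
      have h3 : (core c).vinc (σ t) = x.1.1 := by
        have h4 := hν t
        rw [h2, h1] at h4
        exact h4.symm
      exact h3
  have hT : Fintype.card (core c).toB.T = Fintype.card (Option (core c).I × Bool) :=
    (Fintype.card_congr ed).symm
  have hE : Fintype.card (CExt (core c)) = nV (core c).toB.s - 1 := SymSum_card_CExt _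
  rw [symW0, hD, hR, hV, hT, hE, SymSum_pD, SymSum_pD, SymSum_pS, pK, pK]
  simp only [pow_one]
  have h9 : ∀ a b c d e : ℝ≥0∞, a * b * c * (d * e) = d * e * a * b * c := by
    intros
    ring
  refine (h9 _ _ _ _ _).trans ?_
  congr!

/-- The same for full codes and a reflection fixing the root vertex; all darts and the vertices different from the root
vertex are decorated: edges are indexed by `Option I`. -/
theorem fc_sum_refl (c : GC) (hc : Rigid c.rep.1) (t : CT c)
    (ht : (core c).s.SameCycle (Sum.inr true) t) (σ : Perm (CT c))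
    (h : SymM (core c).toB false σ t) :
    ∑' q : ((core c).I → NC Λ) × NC Λ × (CExt (core c) → Λ),
      (if (∀ t, (FC.hat ⟨c, q⟩).2.1 (σ t) = (FC.hat ⟨c, q⟩).2.1 t) ∧
          (∀ t, (FC.hat ⟨c, q⟩).2.2 ((core c).vinc (σ t)) =
            (FC.hat ⟨c, q⟩).2.2 ((core c).vinc t)) then FC.wt w ⟨c, q⟩ else 0) =
      symW0 (core c).toB σ (pK w 1) (pK w 2) (pD w 1) (pS w 1) (pD w 2) :=
  SymSum_main w c t ht σ h.a (fun x => h.s x) h.root

/-- all full codes -/
theorem fc_sum_id (c : GC) (hc : Rigid c.rep.1) :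
    ∑' q : ((core c).I → NC Λ) × NC Λ × (CExt (core c) → Λ), FC.wt w ⟨c, q⟩ =
      pK w 1 ^ (nV (core c).s - 1) * pD w 1 ^ (Fintype.card (CT c) / 2) := by
  rw [tsum_congr (SymSum_wt w c), SymSum_split c (fun G => ∏ e, wt w (G e).rep.1)
    (fun g => ∏ x, w (g x)),
    ← prod_tsum (fun (_ : Option (core c).I) (d : NC Λ) => wt w d.rep.1),
    ← prod_tsum (fun (_ : CExt (core c)) (l : Λ) => w l), prod_const, prod_const, card_univ,
    card_univ, SymSum_card_CExt, SymSum_pD, pK]
  have hT : Fintype.card (CT c) / 2 = Fintype.card (Option (core c).I) := by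
    have h1 : Fintype.card (CT c) = Fintype.card (Option (core c).I × Bool) :=
      (Fintype.card_congr (SymSum_ed (core c))).symm
    rw [h1, Fintype.card_prod, Fintype.card_bool]
    omega
  rw [hT, mul_comm]
  simp only [pow_one]

end PGr

end

section
/-! # Library for the modules SymSumI, SymSumR (sums over decorations with a given symmetry) -/

set_option linter.unusedSectionVars false

namespace PGr
open Equiv Finset
open scoped ENNReal Classical
universe u
variable {Λ : Type u}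
open NetSumC

namespace SymAux

theorem iteC {α : Type*} {b c : Prop} {ib : Decidable b} {ic : Decidable c} (h : b ↔ c) {x y x' y' : α}
    (hx : x = x') (hy : y = y') : @ite α b ib x y = @ite α c ic x' y' := by
  subst hx hy
  by_cases hb : b
  · rw [if_pos hb, if_pos (h.1 hb)]
  · rw [if_neg hb, if_neg fun hc => hb (h.2 hc)]

/-- `τ` commutes with the flip of the second component -/
def CF {J : Type*} (τ : Perm (J × Bool)) : Prop := ∀ x, τ (x.1, !x.2) = ((τ x).1, !(τ x).2)

theorem CF.fst {J : Type*} {τ : Perm (J × Bool)} (h : CF τ) (j : J) (b b' : Bool) :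
    (τ (j, b)).1 = (τ (j, b')).1 := by
  by_cases hb : b = b'
  · rw [hb]
  · have : b' = !b := by cases b <;> cases b' <;> simp_all
    rw [this]
    exact (congrArg Prod.fst (h (j, b))).symm

theorem CF.symm {J : Type*} {τ : Perm (J × Bool)} (h : CF τ) : CF τ.symm := by
  intro x
  have h1 := h (τ.symm x)
  rw [Equiv.apply_symm_apply] at h1
  rw [Equiv.symm_apply_eq, h1]

theorem exists_pi {J : Type*} {τ : Perm (J × Bool)} (h : CF τ) :
    ∃ (π : Perm J) (c : J → Bool), ∀ j b, τ (j, b) = (π j, xor (c j) b) := by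
  refine ⟨⟨fun j => (τ (j, true)).1, fun j => (τ.symm (j, true)).1, fun j => ?_, fun j => ?_⟩,
    fun j => !(τ (j, true)).2, fun j b => ?_⟩
  · show (τ.symm ((τ (j, true)).1, true)).1 = j
    rw [h.symm.fst _ true (τ (j, true)).2]
    show (τ.symm (τ (j, true))).1 = j
    rw [Equiv.symm_apply_apply]
  · show (τ ((τ.symm (j, true)).1, true)).1 = j
    rw [h.fst _ true (τ.symm (j, true)).2]
    show (τ (τ.symm (j, true))).1 = j
    rw [Equiv.apply_symm_apply]
  · refine Prod.ext (h.fst _ _ _) ?_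
    show (τ (j, b)).2 = xor (!(τ (j, true)).2) b
    cases b
    · have h1 := congrArg Prod.snd (h (j, true))
      have h2 : (τ (j, false)).2 = !(τ (j, true)).2 := h1
      rw [h2, Bool.xor_false]
    · rw [Bool.xor_true, Bool.not_not]

/-- the condition on the edge decorations -/
theorem eDec_iff {J : Type} {τ : Perm (J × Bool)} {π : Perm J} {c : J → Bool}
    (hτ : ∀ j b, τ (j, b) = (π j, xor (c j) b)) (F : J → NC Λ) :
    (∀ x, eDec F (τ x) = eDec F x) ↔ ∀ j, F (π j) = if c j then (F j).fl else F j := by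
  have key : ∀ j b, (eDec F (τ (j, b)) = eDec F (j, b) ↔
      F (π j) = if c j then (F j).fl else F j) := by
    intro j b
    rw [hτ]
    unfold eDec
    show ((if xor (c j) b = true then F (π j) else (F (π j)).fl) =
      if b = true then F j else (F j).fl) ↔ _
    cases hc : c j <;> cases b <;> simp
    · exact ⟨fun h => NC.fl_inj h, fun h => by rw [h]⟩
    · exact ⟨fun h => by rw [← h, NC.fl_fl], fun h => by rw [h, NC.fl_fl]⟩
  constructor
  · intro h j
    exact (key j true).1 (h _)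
  · rintro h ⟨j, b⟩
    exact (key j b).2 (h j)

theorem card_two {J : Type*} [Fintype J] (P : J → Prop) [DecidablePred P] (Q : J × Bool → Prop)
    (h : ∀ j b, Q (j, b) ↔ P j) : Nat.card {x // Q x} = 2 * (univ.filter P).card := by
  have e : {x : J × Bool // Q x} ≃ {j // P j} × Bool :=
    { toFun := fun x => (⟨x.1.1, (h _ _).1 x.2⟩, x.1.2)
      invFun := fun y => ⟨(y.1.1, y.2), (h _ _).2 y.1.2⟩
      left_inv := fun x => rfl
      right_inv := fun y => rfl }
  rw [Nat.card_congr e, Nat.card_prod, Nat.card_eq_fintype_card, Nat.card_eq_fintype_card,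
    Fintype.card_bool, Fintype.card_subtype, mul_comm]

theorem card_fix {J : Type*} [Fintype J] {τ : Perm (J × Bool)} {π : Perm J} {c : J → Bool}
    (hτ : ∀ j b, τ (j, b) = (π j, xor (c j) b)) :
    Nat.card {x // τ x = x} = 2 * (univ.filter fun j => π j = j ∧ c j = false).card := by
  refine card_two (fun j => π j = j ∧ c j = false) _ fun j b => ?_
  rw [hτ, Prod.mk.injEq]
  refine and_congr Iff.rfl ?_
  cases c j <;> cases b <;> simp

theorem card_rev {J : Type*} [Fintype J] {τ : Perm (J × Bool)} {π : Perm J} {c : J → Bool}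
    (hτ : ∀ j b, τ (j, b) = (π j, xor (c j) b)) :
    Nat.card {x : J × Bool // τ x = (x.1, !x.2)} =
      2 * (univ.filter fun j => π j = j ∧ c j = true).card := by
  refine card_two (fun j => π j = j ∧ c j = true) _ fun j b => ?_
  rw [hτ, Prod.mk.injEq]
  refine and_congr Iff.rfl ?_
  cases c j <;> cases b <;> simp

theorem card_split {J : Type*} [Fintype J] (π : Perm J) (c : J → Bool) :
    (univ.filter fun j => π j = j).card = (univ.filter fun j => π j = j ∧ c j = false).card +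
      (univ.filter fun j => π j = j ∧ c j = true).card := by
  rw [← Finset.card_union_of_disjoint]
  · congr 1
    ext j
    simp only [mem_filter, mem_univ, true_and, mem_union]
    cases c j <;> simp
  · rw [Finset.disjoint_filter]
    intro j _ h h'
    rw [h.2] at h'
    exact absurd h'.2 (by simp)

theorem pD_one (w : Λ → ℝ≥0∞) : pD w 1 = ∑' c : NC Λ, wt w c.rep.1 := by
  unfold pD pN
  simp

theorem pS_one (w : Λ → ℝ≥0∞) : pS w 1 = ∑' c : NC Λ, if c.fl = c then wt w c.rep.1 else 0 := by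
  unfold pS pN
  simp

theorem pD_k (w : Λ → ℝ≥0∞) (k : ℕ) : pD w k = ∑' c : NC Λ, wt w c.rep.1 ^ k := by
  unfold pD pN
  simp

theorem pK_one (w : Λ → ℝ≥0∞) : pK w 1 = ∑' l, w l := by
  unfold pK
  simp

/-- sum over the edge decorations invariant under an involution -/
theorem edge_sum_inv {J : Type} [Fintype J] {τ : Perm (J × Bool)} (h : CF τ)
    (hinv : ∀ x, τ (τ x) = x) (w : Λ → ℝ≥0∞) :
    ∑' F : J → NC Λ, (if ∀ x, eDec F (τ x) = eDec F x then ∏ j, wt w (F j).rep.1 else 0) =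
      pD w 1 ^ (Nat.card {x // τ x = x} / 2) *
      pS w 1 ^ (Nat.card {x : J × Bool // τ x = (x.1, !x.2)} / 2) *
      pD w 2 ^ ((Fintype.card (J × Bool) - Nat.card {x // τ x = x} -
        Nat.card {x : J × Bool // τ x = (x.1, !x.2)}) / 4) := by
  obtain ⟨π, c, hτ⟩ := exists_pi h
  have h1 : ∀ j, π (π j) = j ∧ c (π j) = c j := by
    intro j
    have h2 := hinv (j, true)
    rw [hτ, hτ, Prod.mk.injEq] at h2
    refine ⟨h2.1, ?_⟩
    have h3 := h2.2
    revert h3
    cases c (π j) <;> cases c j <;> simp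
  have h3 := sum_equivariant_inv π (fun j => (h1 j).1) c (fun j => (h1 j).2) (NC.fl (Λ := Λ))
    (fun a => a.fl_fl) (fun a => wt w a.rep.1) (fun a => NC.wt_fl w a)
  refine Eq.trans (tsum_congr fun F => ?_) (h3.trans ?_)
  · exact iteC (eDec_iff hτ F) rfl rfl
  rw [card_fix hτ, card_rev hτ, pD_one, pS_one, pD_k, card_split π c, Fintype.card_prod,
    Fintype.card_bool]
  have e1 : 2 * (univ.filter fun j => π j = j ∧ c j = false).card / 2 =
      (univ.filter fun j => π j = j ∧ c j = false).card := by omega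
  have e2 : 2 * (univ.filter fun j => π j = j ∧ c j = true).card / 2 =
      (univ.filter fun j => π j = j ∧ c j = true).card := by omega
  have e3 : (Fintype.card J * 2 - 2 * (univ.filter fun j => π j = j ∧ c j = false).card -
      2 * (univ.filter fun j => π j = j ∧ c j = true).card) / 4 = (Fintype.card J -
      ((univ.filter fun j => π j = j ∧ c j = false).card +
      (univ.filter fun j => π j = j ∧ c j = true).card)) / 2 := by omega
  rw [e1, e2, e3]
  congr!

theorem vert_sum_inv {X : Type*} [Fintype X] (π : Perm X) (hπ : ∀ x, π (π x) = x)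
    (w : Λ → ℝ≥0∞) :
    ∑' g : X → Λ, (if ∀ x, g (π x) = g x then ∏ x, w (g x) else 0) =
      pK w 1 ^ Nat.card {x // π x = x} * pK w 2 ^ ((Fintype.card X - Nat.card {x // π x = x}) / 2) := by
  have h3 := sum_equivariant_inv π hπ (fun _ => false) (fun _ => rfl) (id : Λ → Λ)
    (fun a => rfl) w (fun a => rfl)
  simp only [Bool.false_eq_true, if_false] at h3
  rw [h3, pK_one]
  have h4 : Nat.card {x // π x = x} = (univ.filter fun x => π x = x).card := by
    rw [Nat.card_eq_fintype_card, Fintype.card_subtype]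
  rw [h4]
  simp only [and_true, and_false, Finset.filter_false, Finset.card_empty, pow_zero, mul_one]
  rfl

theorem pow_inj_of {X : Type*} {π : Perm X} {k : ℕ} {x : X}
    (h : ∀ m, 0 < m → m < k → (π ^ m) x ≠ x) {m n : ℕ} (hn : n < k) (hmn : m < n) :
    (π ^ m) x ≠ (π ^ n) x := by
  intro he
  refine h (n - m) (by omega) (by omega) ?_
  have h1 : (π ^ n) x = (π ^ m) ((π ^ (n - m)) x) := by
    rw [← Perm.mul_apply, ← pow_add]
    congr 2
    omega
  rw [h1] at he
  exact ((π ^ m).injective he).symm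

theorem orb_card {X : Type*} [Fintype X] {π : Perm X} {k : ℕ} (hk : 0 < k) {x : X}
    (hkx : (π ^ k) x = x) (h : ∀ m, 0 < m → m < k → (π ^ m) x ≠ x) (P : X → Prop)
    [DecidablePred P] :
    (univ.filter fun y => π.SameCycle x y ∧ P y).card =
      ((range k).filter fun m => P ((π ^ m) x)).card := by
  symm
  refine Finset.card_bij (fun m _ => (π ^ m) x) ?_ ?_ ?_
  · intro m hm
    rw [mem_filter] at hm
    rw [mem_filter]
    exact ⟨mem_univ _, ⟨m, by rw [zpow_natCast]⟩, hm.2⟩
  · intro m hm n hn he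
    rw [mem_filter, mem_range] at hm hn
    rcases lt_trichotomy m n with h1 | h1 | h1
    · exact absurd he (pow_inj_of h hn.1 h1)
    · exact h1
    · exact absurd he.symm (pow_inj_of h hm.1 h1)
  · intro y hy
    rw [mem_filter] at hy
    obtain ⟨⟨i, hi⟩, hy2⟩ := hy.2
    have hk' : (0 : ℤ) < k := by exact_mod_cast hk
    have h0 := Int.emod_nonneg i hk'.ne'
    have h1 := Int.emod_lt_of_pos i hk'
    obtain ⟨r, hr⟩ := Int.eq_ofNat_of_zero_le h0
    have h2 : (π ^ r) x = y := by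
      rw [← hi]
      have h3 : i = r + k * (i / k) := by
        have := Int.emod_add_mul_ediv i k
        omega
      have h4 : (π ^ ((k : ℤ) * (i / k))) x = x := by
        rw [zpow_mul, zpow_natCast]
        exact Perm.zpow_apply_eq_self_of_apply_eq_self hkx _
      conv_rhs => rw [h3, zpow_add, Perm.mul_apply, h4, zpow_natCast]
    refine ⟨r, ?_, h2⟩
    rw [mem_filter, mem_range, h2]
    refine ⟨?_, hy2⟩
    have : (r : ℤ) < k := by rw [← hr]; exact h1
    exact_mod_cast this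

theorem orbN_eq {X : Type*} [Fintype X] {π : Perm X} {k : ℕ} (hk : 0 < k) {x : X}
    (hkx : (π ^ k) x = x) (h : ∀ m, 0 < m → m < k → (π ^ m) x ≠ x) : orbN π x = k := by
  have h1 := orb_card hk hkx h (fun _ => True)
  simp only [and_true, filter_true, card_range] at h1
  unfold orbN
  rw [← h1]

theorem pow_pi {J : Type*} {τ : Perm (J × Bool)} {π : Perm J} {c : J → Bool}
    (hτ : ∀ j b, τ (j, b) = (π j, xor (c j) b)) (m : ℕ) (j : J) (b : Bool) :
    (τ ^ m) (j, b) = ((π ^ m) j,
      xor (decide (Odd (∑ l ∈ range m, if c ((π ^ l) j) then 1 else 0))) b) := by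
  induction m with
  | zero => simp
  | succ m ih =>
    rw [pow_succ', Perm.mul_apply, ih, hτ, pow_succ' π, Perm.mul_apply, sum_range_succ]
    refine Prod.ext rfl ?_
    show xor (c ((π ^ m) j)) _ = _
    rw [← Bool.xor_assoc]
    congr 1
    generalize (∑ l ∈ range m, if c ((π ^ l) j) then 1 else 0) = S
    cases c ((π ^ m) j)
    · simp
    · simp only [if_true, Nat.odd_add_one]
      by_cases ho : Odd S <;> simp [ho]

/-- sum over the edge decorations invariant under a rotation -/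
theorem edge_sum_rot {J : Type} [Fintype J] {τ : Perm (J × Bool)} (h : CF τ) {k : ℕ}
    (hk2 : 2 ≤ k) (hk : τ ^ k = 1) (hfix : ∀ m x, 0 < m → m < k → (τ ^ m) x ≠ x)
    (he : ∀ m x, 0 < m → m < k → (τ ^ m) x = (x.1, !x.2) → k = 2) (w : Λ → ℝ≥0∞) :
    ∑' F : J → NC Λ, (if ∀ x, eDec F (τ x) = eDec F x then ∏ j, wt w (F j).rep.1 else 0) =
      pS w 1 ^ (Nat.card {x : J × Bool // τ x = (x.1, !x.2)} / 2) *
      pD w k ^ ((Fintype.card (J × Bool) - Nat.card {x : J × Bool // τ x = (x.1, !x.2)}) /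
        (2 * k)) := by
  obtain ⟨π, c, hτ⟩ := exists_pi h
  have hpk : ∀ j, (π ^ k) j = j ∧ Even (∑ l ∈ range k, if c ((π ^ l) j) then 1 else 0) := by
    intro j
    have h2 := pow_pi hτ k j true
    rw [hk, Perm.one_apply, Prod.mk.injEq] at h2
    refine ⟨h2.1.symm, ?_⟩
    have h3 := h2.2
    rw [← Nat.not_odd_iff_even]
    intro ho
    rw [decide_eq_true ho] at h3
    exact absurd h3 (by decide)
  have hpm : ∀ j, π j ≠ j → ∀ m, 0 < m → m < k → (π ^ m) j ≠ j := by
    intro j hj m hm hmk he'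
    have h2 := pow_pi hτ m j true
    rw [he'] at h2
    rcases hb : xor (decide (Odd (∑ l ∈ range m, if c ((π ^ l) j) then 1 else 0))) true with _ | _
    · rw [hb] at h2
      have h3 := he m (j, true) hm hmk h2
      have h4 : m = 1 := by omega
      subst h4
      rw [pow_one] at he'
      exact hj he'
    · rw [hb] at h2
      exact hfix m _ hm hmk h2
  have h3 := sum_equivariant_rot π k hk2
    (fun j hj => orbN_eq (by omega) (hpk j).1 (hpm j hj)) c (fun j hj => by
      have h4 := orb_card (by omega) (hpk j).1 (hpm j hj) (fun y => c y = true)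
      have h5 := (hpk j).2
      rw [← Finset.card_filter] at h5
      unfold orbC
      rw [h4]
      exact h5) (NC.fl (Λ := Λ)) (fun a => a.fl_fl) (fun a => wt w a.rep.1)
      (fun a => NC.wt_fl w a)
  refine Eq.trans (tsum_congr fun F => ?_) (h3.trans ?_)
  · exact iteC (eDec_iff hτ F) rfl rfl
  have e0 : (univ.filter fun j => π j = j ∧ c j = false).card = 0 := by
    rw [card_eq_zero, filter_eq_empty_iff]
    rintro j - ⟨h1, h2⟩
    refine hfix 1 (j, true) (by omega) (by omega) ?_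
    rw [pow_one, hτ, h1, h2, Bool.false_xor]
  rw [card_rev hτ, pS_one, pD_k, card_split π c, Fintype.card_prod,
    Fintype.card_bool, e0, pow_zero, one_mul, zero_add]
  have e2 : 2 * (univ.filter fun j => π j = j ∧ c j = true).card / 2 =
      (univ.filter fun j => π j = j ∧ c j = true).card := by omega
  have e3 : (Fintype.card J * 2 - 2 * (univ.filter fun j => π j = j ∧ c j = true).card) /
      (2 * k) = (Fintype.card J - (univ.filter fun j => π j = j ∧ c j = true).card) / k := by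
    rw [mul_comm (Fintype.card J) 2, ← Nat.mul_sub, Nat.mul_div_mul_left _ _ (by omega)]
  rw [e2, e3]
  congr!

theorem vert_sum_rot {X : Type*} [Fintype X] (π : Perm X) {k : ℕ} (hk2 : 2 ≤ k)
    (hk : π ^ k = 1) (hfix : ∀ m x, 0 < m → m < k → (π ^ m) x = x → π x = x)
    (w : Λ → ℝ≥0∞) :
    ∑' g : X → Λ, (if ∀ x, g (π x) = g x then ∏ x, w (g x) else 0) =
      pK w 1 ^ Nat.card {x // π x = x} * pK w k ^ ((Fintype.card X - Nat.card {x // π x = x}) / k) := by
  have h3 := sum_equivariant_rot π k hk2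
    (fun j hj => orbN_eq (by omega) (by rw [hk]; rfl) fun m h1 h2 h4 => hj (hfix m j h1 h2 h4))
    (fun _ => false) (fun _ _ => by
      unfold orbC
      simp) (id : Λ → Λ) (fun a => rfl) w (fun a => rfl)
  simp only [Bool.false_eq_true, if_false] at h3
  rw [h3, pK_one]
  have h4 : Nat.card {x // π x = x} = (univ.filter fun x => π x = x).card := by
    rw [Nat.card_eq_fintype_card, Fintype.card_subtype]
  rw [h4]
  simp only [and_true, and_false, Finset.filter_false, Finset.card_empty, pow_zero, mul_one]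
  rfl

section core
variable {C : Core} {σ : Perm ((C.I × Bool) ⊕ Bool)}

/-- the induced permutation of the vertices -/
def sV (hσ : ∀ t t', C.s.SameCycle t t' ↔ C.s.SameCycle (σ t) (σ t')) : Perm C.CV :=
  Quotient.congr σ hσ

theorem sV_vinc (hσ : ∀ t t', C.s.SameCycle t t' ↔ C.s.SameCycle (σ t) (σ t'))
    (t : (C.I × Bool) ⊕ Bool) :
    sV hσ (C.vinc t) = C.vinc (σ t) := rfl

theorem sV_pow (hσ : ∀ t t', C.s.SameCycle t t' ↔ C.s.SameCycle (σ t) (σ t')) (m : ℕ)
    (t : (C.I × Bool) ⊕ Bool) : (sV hσ ^ m) (C.vinc t) = C.vinc ((σ ^ m) t) := by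
  induction m with
  | zero => rfl
  | succ m ih => rw [pow_succ', Perm.mul_apply, ih, sV_vinc, pow_succ', Perm.mul_apply]

theorem same_of_o {o : Bool} (hs : ∀ x, σ (C.s x) = if o then C.s (σ x) else C.s⁻¹ (σ x))
    (t t' : (C.I × Bool) ⊕ Bool) : C.s.SameCycle t t' ↔ C.s.SameCycle (σ t) (σ t') := by
  have h1 : ∀ t, σ (C.s t) = (bif o then C.s else C.s⁻¹) (σ t) := by
    intro t
    refine (hs t).trans ?_
    cases o <;> rfl
  have h2 : ∀ (i : ℤ) t, σ ((C.s ^ i) t) = ((bif o then C.s else C.s⁻¹) ^ i) (σ t) :=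
    fun i t => CutIso.zpow σ h1 i t
  have h3 : C.s.SameCycle t t' ↔ (bif o then C.s else C.s⁻¹).SameCycle (σ t) (σ t') := by
    constructor
    · rintro ⟨i, hi⟩
      exact ⟨i, (h2 i t).symm.trans (congrArg σ hi)⟩
    · rintro ⟨i, hi⟩
      exact ⟨i, σ.injective ((h2 i t).trans hi)⟩
  rw [h3]
  cases o
  · exact Perm.sameCycle_inv
  · rfl

/-- the condition on the vertex decorations -/
theorem vert_iff (hσ : ∀ t t', C.s.SameCycle t t' ↔ C.s.SameCycle (σ t) (σ t'))
    (P : C.CV → Prop) (hP : ∀ x, P (sV hσ x) ↔ P x) (g : {x // P x} → Λ) (dec : C.CV → Option Λ)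
    (h1 : ∀ x (h : P x), dec x = some (g ⟨x, h⟩)) (h2 : ∀ x, ¬ P x → dec x = none) :
    (∀ t, dec (C.vinc (σ t)) = dec (C.vinc t)) ↔
      ∀ x, g ((sV hσ).subtypePerm hP x) = g x := by
  constructor
  · rintro h ⟨x, hx⟩
    obtain ⟨t, rfl⟩ : ∃ t, C.vinc t = x := Quotient.exists_rep x
    have h3 := h t
    have h4 : P (C.vinc (σ t)) := (hP _).2 hx
    rw [h1 _ h4, h1 _ hx] at h3
    exact Option.some.inj h3
  · intro h t
    by_cases hx : P (C.vinc t)
    · have h4 : P (C.vinc (σ t)) := (hP _).2 hx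
      rw [h1 _ h4, h1 _ hx]
      exact congrArg some (h ⟨_, hx⟩)
    · have h4 : ¬ P (C.vinc (σ t)) := fun h => hx ((hP _).1 h)
      rw [h2 _ h4, h2 _ hx]

theorem fixV_eq (hσ : ∀ t t', C.s.SameCycle t t' ↔ C.s.SameCycle (σ t) (σ t'))
    (P : C.CV → Prop) (hP : ∀ x, P (sV hσ x) ↔ P x) (X : (C.I × Bool) ⊕ Bool → Prop)
    (hX : ∀ x, P x ↔ ∀ t, X t → x ≠ C.vinc t) :
    fixV C.toB σ X = Nat.card {x : {x // P x} // (sV hσ).subtypePerm hP x = x} := by
  have key : ∀ q : C.CV, (∀ t, C.vinc t = q → C.vinc (σ t) = q) ↔ sV hσ q = q := by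
    intro q
    obtain ⟨t, rfl⟩ : ∃ t, C.vinc t = q := Quotient.exists_rep q
    constructor
    · intro h
      exact h t rfl
    · intro h t' ht'
      rw [← sV_vinc hσ, ht']
      exact h
  refine Nat.card_congr
    { toFun := fun q => ⟨⟨q.1, (hX _).2 q.2.1⟩, Subtype.ext ((key _).1 q.2.2)⟩
      invFun := fun x => ⟨x.1.1, (hX _).1 x.1.2, (key _).2 (congrArg Subtype.val x.2)⟩
      left_inv := fun _ => rfl
      right_inv := fun _ => rfl }

theorem exists_tau {β : Bool} (hr : ∀ b, σ (Sum.inr b) = Sum.inr (xor β b)) :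
    ∃ τ : Perm (C.I × Bool), ∀ x, σ (Sum.inl x) = Sum.inl (τ x) := by
  have h1 : ∀ x : C.I × Bool, ∃ y : C.I × Bool, σ (Sum.inl x) = Sum.inl y := by
    intro x
    rcases hy : σ (Sum.inl x) with y | b
    · exact ⟨y, rfl⟩
    · exfalso
      have h2 := hr (xor β b)
      rw [← Bool.xor_assoc, Bool.xor_self, Bool.false_xor, ← hy] at h2
      exact Sum.inr_ne_inl (σ.injective h2)
  choose f hf using h1
  have hi : Function.Injective f := by
    intro x y hxy
    refine Sum.inl_injective (σ.injective ?_)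
    rw [hf, hf, hxy]
  exact ⟨Equiv.ofBijective f (Finite.injective_iff_bijective.1 hi), fun x => hf x⟩

theorem iteM {A B A' B' : Prop} {d1 : Decidable (A ∧ B)} {d2 : Decidable A'} {d3 : Decidable B'}
    (hA : A ↔ A') (hB : B ↔ B') (x y : ℝ≥0∞) :
    @ite _ (A ∧ B) d1 (x * y) 0 = @ite _ A' d2 x 0 * @ite _ B' d3 y 0 := by
  by_cases h1 : A'
  · by_cases h2 : B'
    · rw [if_pos ⟨hA.2 h1, hB.2 h2⟩, if_pos h1, if_pos h2]
    · rw [if_neg fun h => h2 (hB.1 h.2), if_neg h2, mul_zero]
  · rw [if_neg fun h => h1 (hA.1 h.1), if_neg h1, zero_mul]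

theorem aa_inl (x : C.I × Bool) : C.toB.aa (Sum.inl x) = Sum.inl (x.1, !x.2) := rfl

theorem aa_inr (b : Bool) : C.toB.aa (Sum.inr b) = Sum.inr (!b) := by
  cases b <;> rfl

theorem tau_CF {τ : Perm (C.I × Bool)} (hτ : ∀ x, σ (Sum.inl x) = Sum.inl (τ x))
    (ha : ∀ x, σ (C.toB.aa x) = C.toB.aa (σ x)) : CF τ := by
  intro x
  refine Sum.inl_injective (β := Bool) ?_
  have h2 : σ (Sum.inl (x.1, !x.2)) = C.toB.aa (Sum.inl (τ x)) :=
    (ha (Sum.inl x)).trans (congrArg C.toB.aa (hτ x))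
  exact (hτ _).symm.trans h2

theorem tau_inv {τ : Perm (C.I × Bool)} (hτ : ∀ x, σ (Sum.inl x) = Sum.inl (τ x))
    (hinv : ∀ x, σ (σ x) = x) (x : C.I × Bool) : τ (τ x) = x := by
  refine Sum.inl_injective (β := Bool) ?_
  have h1 := hinv (Sum.inl x)
  rw [hτ, hτ] at h1
  exact h1

theorem edge_iff {β : Bool} (hr : ∀ b, σ (Sum.inr b) = Sum.inr (xor β b))
    {τ : Perm (C.I × Bool)} (hτ : ∀ x, σ (Sum.inl x) = Sum.inl (τ x)) (F : C.I → NC Λ)
    (f : (C.I × Bool) ⊕ Bool → Option (NC Λ)) (hf : ∀ x, f (Sum.inl x) = some (eDec F x))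
    (hf' : ∀ b, f (Sum.inr b) = none) :
    (∀ t, f (σ t) = f t) ↔ ∀ x, eDec F (τ x) = eDec F x := by
  constructor
  · intro h1 x
    have h2 := h1 (Sum.inl x)
    rw [hτ, hf, hf] at h2
    exact Option.some.inj h2
  · intro h1 t
    rcases t with x | b'
    · rw [hτ, hf, hf, h1 x]
    · rw [hr, hf', hf']

theorem fixD_eq {τ : Perm (C.I × Bool)} (hτ : ∀ x, σ (Sum.inl x) = Sum.inl (τ x)) :
    fixD C.toB σ (fun t => ∃ d, t = Sum.inl d) = Nat.card {x // τ x = x} := by
  symm
  refine Nat.card_congr (Equiv.ofBijective (fun x => ⟨Sum.inl x.1, ⟨x.1, rfl⟩,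
    (hτ x.1).trans (congrArg Sum.inl x.2)⟩) ⟨?_, ?_⟩)
  · rintro ⟨x, hx⟩ ⟨y, hy⟩ hxy
    exact Subtype.ext (Sum.inl_injective (congrArg Subtype.val hxy))
  · rintro ⟨_, ⟨x, rfl⟩, hx⟩
    exact ⟨⟨x, Sum.inl_injective ((hτ x).symm.trans hx)⟩, rfl⟩

theorem revD_eq {τ : Perm (C.I × Bool)} (hτ : ∀ x, σ (Sum.inl x) = Sum.inl (τ x)) :
    revD C.toB σ (fun t => ∃ d, t = Sum.inl d) =
      Nat.card {x : C.I × Bool // τ x = (x.1, !x.2)} := by
  symm
  refine Nat.card_congr (Equiv.ofBijective (fun x => ⟨Sum.inl x.1, ⟨x.1, rfl⟩,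
    (hτ x.1).trans (congrArg Sum.inl x.2)⟩) ⟨?_, ?_⟩)
  · rintro ⟨x, hx⟩ ⟨y, hy⟩ hxy
    exact Subtype.ext (Sum.inl_injective (congrArg Subtype.val hxy))
  · rintro ⟨_, ⟨x, rfl⟩, hx⟩
    exact ⟨⟨x, Sum.inl_injective ((hτ x).symm.trans hx)⟩, rfl⟩

/-- the set of the two roots is invariant -/
theorem pole_iff (hσ : ∀ t t', C.s.SameCycle t t' ↔ C.s.SameCycle (σ t) (σ t')) {β : Bool}
    (hr : ∀ b, σ (Sum.inr b) = Sum.inr (xor β b)) (x : C.CV) :
    (∀ b, sV hσ x ≠ C.vinc (Sum.inr b)) ↔ ∀ b, x ≠ C.vinc (Sum.inr b) := by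
  have h1 : ∀ b', sV hσ x = C.vinc (Sum.inr (xor β b')) ↔
      x = C.vinc (Sum.inr b') := by
    intro b'
    rw [← hr, ← sV_vinc hσ]
    exact (sV hσ).injective.eq_iff
  constructor
  · intro h2 b' h3
    exact h2 _ ((h1 b').2 h3)
  · intro h2 b' h3
    refine h2 (xor β b') ((h1 _).1 ?_)
    rw [h3, ← Bool.xor_assoc, Bool.xor_self, Bool.false_xor]

theorem sV_inv (hσ : ∀ t t', C.s.SameCycle t t' ↔ C.s.SameCycle (σ t) (σ t'))
    (hinv : ∀ x, σ (σ x) = x) (x : C.CV) : sV hσ (sV hσ x) = x := by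
  obtain ⟨t, rfl⟩ : ∃ t, C.vinc t = x := Quotient.exists_rep x
  rw [sV_vinc, sV_vinc, hinv]

end core

end SymAux

end PGr

end

section
/-! # Module ReflSum: the reflections fixing the root vertex -/

set_option linter.unusedSectionVars false

namespace PGr
open Equiv Finset
open scoped ENNReal Classical

/-- the maps with root degree `d` and a reflection which maps the root dart to the `j`-th dart after it -/
noncomputable def reflT (k1 k2 d1 s1 d2 : ℝ≥0∞) (d j : ℕ) : ℝ≥0∞ :=
  ∑' c : GC, ∑ σ : Perm c.rep.1.T,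
    if Rigid c.rep.1 ∧ c.rep.1.dg = d ∧ SymM c.rep.1 false σ ((c.rep.1.s ^ j) (Sum.inr true)) then
      symW0 c.rep.1 σ k1 k2 d1 s1 d2 else 0

namespace ReflSum

/-- classes of maps with a permutation of the darts -/
abbrev X := Σ c : GC, Perm c.rep.1.T

noncomputable def f (k1 k2 d1 s1 d2 : ℝ≥0∞) (d j : ℕ) (x : X) : ℝ≥0∞ :=
  if Rigid x.1.rep.1 ∧ x.1.rep.1.dg = d ∧
      SymM x.1.rep.1 false x.2 ((x.1.rep.1.s ^ j) (Sum.inr true)) then
    symW0 x.1.rep.1 x.2 k1 k2 d1 s1 d2 else 0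

theorem reflT_eq (k1 k2 d1 s1 d2 : ℝ≥0∞) (d j : ℕ) :
    reflT k1 k2 d1 s1 d2 d j = ∑' x : X, f k1 k2 d1 s1 d2 d j x := by
  unfold reflT
  rw [ENNReal.tsum_sigma']
  refine tsum_congr fun c => ?_
  rw [tsum_fintype]
  rfl

theorem zpow_e {c c' : GC} {e : c.rep.1.T ≃ c'.rep.1.T} (h : MIso c c' e) (n : ℤ)
    (x : c.rep.1.T) : e ((c.rep.1.s ^ n) x) = (c'.rep.1.s ^ n) (e x) := by
  have h1 : (Equiv.permCongrHom e) c.rep.1.s = c'.rep.1.s := by
    ext y
    change e (c.rep.1.s (e.symm y)) = c'.rep.1.s y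
    rw [h.s, Equiv.apply_symm_apply]
  have h2 : (Equiv.permCongrHom e) (c.rep.1.s ^ n) = c'.rep.1.s ^ n := by
    rw [map_zpow, h1]
  rw [← h2]
  change _ = e ((c.rep.1.s ^ n) (e.symm (e x)))
  rw [Equiv.symm_apply_apply]

theorem zpow_refl {M : BMap} {σ : Perm M.T} {t : M.T} (h : SymM M false σ t) (n : ℤ) (x : M.T) :
    σ ((M.s ^ n) x) = (M.s ^ (-n)) (σ x) := by
  have h1 : σ * M.s * σ⁻¹ = M.s⁻¹ := by
    ext y
    change σ (M.s (σ⁻¹ y)) = M.s⁻¹ y
    have h2 := h.s (σ⁻¹ y)
    have h3 : σ (σ⁻¹ y) = y := Equiv.apply_symm_apply σ y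
    rw [h2, h3]
    rfl
  have h4 : σ * M.s ^ n * σ⁻¹ = M.s ^ (-n) := by
    rw [← conj_zpow, h1, inv_zpow', ]
  have h5 : σ * M.s ^ n = M.s ^ (-n) * σ := by
    rw [← h4]
    group
  exact congrArg (fun g : Perm M.T => g x) h5

/-- the class of the map with the root dart moved by `s ^ n` -/
noncomputable def cc (n : ℤ) (c : GC) : GC :=
  (exists_shift c ((c.rep.1.s ^ n) (Sum.inr true))).choose

noncomputable def ee (n : ℤ) (c : GC) : c.rep.1.T ≃ (cc n c).rep.1.T :=
  (exists_shift c ((c.rep.1.s ^ n) (Sum.inr true))).choose_spec.choose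

theorem ee_spec (n : ℤ) (c : GC) : MIso c (cc n c) (ee n c) ∧
    ee n c ((c.rep.1.s ^ n) (Sum.inr true)) = Sum.inr true :=
  (exists_shift c ((c.rep.1.s ^ n) (Sum.inr true))).choose_spec.choose_spec

noncomputable def F (n : ℤ) (x : X) : X :=
  ⟨cc n x.1, ((ee n x.1).symm.trans x.2).trans (ee n x.1)⟩

theorem key (n : ℤ) {c1 c2 c' : GC} {e1 : c1.rep.1.T ≃ c'.rep.1.T} {e2 : c2.rep.1.T ≃ c'.rep.1.T}
    (h1 : MIso c1 c' e1) (h2 : MIso c2 c' e2)
    (r1 : e1 ((c1.rep.1.s ^ n) (Sum.inr true)) = Sum.inr true)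
    (r2 : e2 ((c2.rep.1.s ^ n) (Sum.inr true)) = Sum.inr true)
    (σ1 : Perm c1.rep.1.T) (σ2 : Perm c2.rep.1.T)
    (hσ : ((e1.symm.trans σ1).trans e1 : c'.rep.1.T ≃ c'.rep.1.T) =
      (e2.symm.trans σ2).trans e2) : (⟨c1, σ1⟩ : X) = ⟨c2, σ2⟩ := by
  have h12 : MIso c1 c2 (e1.trans e2.symm) := h1.trans h2.symm
  have hr : (e1.trans e2.symm) (Sum.inr true) = Sum.inr true := by
    have h3 := zpow_e h12 n (Sum.inr true)
    have h4 : (e1.trans e2.symm) ((c1.rep.1.s ^ n) (Sum.inr true)) =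
        (c2.rep.1.s ^ n) (Sum.inr true) := by
      rw [Equiv.trans_apply, r1, ← r2, Equiv.symm_apply_apply]
    rw [h4] at h3
    exact ((c2.rep.1.s ^ n).injective h3).symm
  obtain rfl : c1 = c2 := h12.eq hr
  have h5 : SymM c1.rep.1 true (e1.trans e2.symm) (Sum.inr true) := by
    refine ⟨h12.a, fun x => ?_, hr⟩
    rw [if_pos rfl]
    exact h12.s x
  have h6 : SymM c1.rep.1 true (1 : Perm c1.rep.1.T) (Sum.inr true) := by
    refine ⟨fun x => rfl, fun x => ?_, rfl⟩
    rw [if_pos rfl]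
    rfl
  have h7 : (e1.trans e2.symm : Perm c1.rep.1.T) = 1 := SymM.unique c1.rep.2 h5 h6
  have h8 : ∀ x, e1 x = e2 x := by
    intro x
    have h9 : e2.symm (e1 x) = x := congrArg (fun g : Perm c1.rep.1.T => g x) h7
    rw [Equiv.symm_apply_eq] at h9
    exact h9
  have h10 : e1 = e2 := Equiv.ext h8
  subst h10
  have h11 : σ1 = σ2 := by
    ext x
    have h12 := congrArg (fun g : c'.rep.1.T ≃ c'.rep.1.T => g (e1 x)) hσ
    simp only [Equiv.trans_apply, Equiv.symm_apply_apply] at h12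
    exact e1.injective h12
  rw [h11]

theorem key' (n : ℤ) {c1 c2 c1' c2' : GC} {e1 : c1.rep.1.T ≃ c1'.rep.1.T}
    {e2 : c2.rep.1.T ≃ c2'.rep.1.T}
    (h1 : MIso c1 c1' e1) (h2 : MIso c2 c2' e2)
    (r1 : e1 ((c1.rep.1.s ^ n) (Sum.inr true)) = Sum.inr true)
    (r2 : e2 ((c2.rep.1.s ^ n) (Sum.inr true)) = Sum.inr true)
    (σ1 : Perm c1.rep.1.T) (σ2 : Perm c2.rep.1.T)
    (hσ : (⟨c1', (e1.symm.trans σ1).trans e1⟩ : X) = ⟨c2', (e2.symm.trans σ2).trans e2⟩) :
    (⟨c1, σ1⟩ : X) = ⟨c2, σ2⟩ := by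
  obtain rfl : c1' = c2' := congrArg Sigma.fst hσ
  exact key n h1 h2 r1 r2 σ1 σ2 (eq_of_heq (Sigma.mk.inj hσ).2)

theorem F_inj (n : ℤ) : Function.Injective (F n) := by
  rintro ⟨c1, σ1⟩ ⟨c2, σ2⟩ h
  exact key' n (ee_spec n c1).1 (ee_spec n c2).1 (ee_spec n c1).2 (ee_spec n c2).2 σ1 σ2 h

theorem f_F (k1 k2 d1 s1 d2 : ℝ≥0∞) (d j j' : ℕ) (n : ℤ) (hj : (j : ℤ) - 2 * n = j') (x : X) :
    f k1 k2 d1 s1 d2 d j x ≤ f k1 k2 d1 s1 d2 d j' (F n x) := by
  obtain ⟨c, σ⟩ := x
  unfold f
  by_cases hx : Rigid c.rep.1 ∧ c.rep.1.dg = d ∧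
      SymM c.rep.1 false σ ((c.rep.1.s ^ j) (Sum.inr true))
  · obtain ⟨hR, hd, hS⟩ := hx
    obtain ⟨hm, hr⟩ := ee_spec n c
    have hcyc : (cc n c).rep.1.s.SameCycle (Sum.inr true) (ee n c (Sum.inr true)) := by
      have h1 := zpow_e hm n (Sum.inr true)
      rw [hr] at h1
      exact Perm.SameCycle.symm ⟨n, h1.symm⟩
    have hinv : ∀ y, ee n c ((ee n c).symm y) = y := fun y => Equiv.apply_symm_apply _ _
    have ha' : ∀ y, (ee n c).symm ((cc n c).rep.1.aa y) = c.rep.1.aa ((ee n c).symm y) := by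
      intro y
      rw [Equiv.symm_apply_eq, hm.a, hinv]
    have hs' : ∀ y, (ee n c).symm ((cc n c).rep.1.s y) = c.rep.1.s ((ee n c).symm y) := by
      intro y
      rw [Equiv.symm_apply_eq, hm.s, hinv]
    have hsinv : ∀ y, ee n c (c.rep.1.s⁻¹ y) = (cc n c).rep.1.s⁻¹ (ee n c y) := by
      intro y
      rw [Perm.eq_inv_iff_eq, ← hm.s]
      congr 1
      exact Equiv.apply_symm_apply c.rep.1.s y
    have hS' : SymM (cc n c).rep.1 false (((ee n c).symm.trans σ).trans (ee n c))
        (((cc n c).rep.1.s ^ j') (Sum.inr true)) := by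
      refine ⟨fun y => ?_, fun y => ?_, ?_⟩
      · change ee n c (σ ((ee n c).symm ((cc n c).rep.1.aa y))) =
          (cc n c).rep.1.aa (ee n c (σ ((ee n c).symm y)))
        rw [ha', hS.a, hm.a]
      · rw [if_neg (by simp)]
        change ee n c (σ ((ee n c).symm ((cc n c).rep.1.s y))) =
          (cc n c).rep.1.s⁻¹ (ee n c (σ ((ee n c).symm y)))
        rw [hs', hS.s, if_neg (by simp), hsinv]
      · change ee n c (σ ((ee n c).symm (Sum.inr true))) = _
        have h1 : (ee n c).symm (Sum.inr true) = (c.rep.1.s ^ n) (Sum.inr true) := by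
          rw [Equiv.symm_apply_eq, hr]
        rw [h1, zpow_refl hS, hS.root]
        have h2 : (c.rep.1.s ^ (-n)) ((c.rep.1.s ^ j) (Sum.inr true)) =
            (c.rep.1.s ^ (j' : ℤ)) ((c.rep.1.s ^ n) (Sum.inr true)) := by
          rw [← Perm.mul_apply, ← Perm.mul_apply, ← zpow_natCast, ← zpow_add, ← zpow_add, ← hj]
          congr 2
          ring
        rw [h2, zpow_e hm, hr, zpow_natCast]
    rw [if_pos ⟨hR, hd, hS⟩, if_pos]
    · exact (hm.symW0 hcyc σ k1 k2 d1 s1 d2).ge
    · exact ⟨hm.rigid.1 hR, (hm.dg hcyc).symm.trans hd, hS'⟩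
  · rw [if_neg hx]
    exact zero_le

end ReflSum

open ReflSum in
/-- Move the root dart `r` to `r' = s r`: if `σ r = s ^ (j+2) r`, then `σ r' = s⁻¹ (σ r) = s ^ j r'`.  This is a bijection
of the pairs (class, reflection): `(c, σ) ↦ (c', e σ e⁻¹)` for the isomorphism `e` of `exists_shift` with `t = s (inr true)`; the
inverse is `exists_shift` with `t = s⁻¹ (inr true)`; use `MIso.eq`, `SymM.unique` and injections in both directions. -/
theorem reflT_shift (k1 k2 d1 s1 d2 : ℝ≥0∞) (d j : ℕ) :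
    reflT k1 k2 d1 s1 d2 d (j + 2) = reflT k1 k2 d1 s1 d2 d j := by
  rw [ReflSum.reflT_eq, ReflSum.reflT_eq]
  refine le_antisymm ?_ ?_
  · refine le_trans (ENNReal.tsum_le_tsum fun x => f_F k1 k2 d1 s1 d2 d (j + 2) j 1
      (by push_cast; ring) x) ?_
    exact ENNReal.tsum_comp_le_tsum_of_injective (F_inj 1) _
  · refine le_trans (ENNReal.tsum_le_tsum fun x => f_F k1 k2 d1 s1 d2 d j (j + 2) (-1)
      (by push_cast; ring) x) ?_
    exact ENNReal.tsum_comp_le_tsum_of_injective (F_inj (-1)) _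

/-- the `d`-th dart after the root dart is the root dart -/
theorem reflT_period (k1 k2 d1 s1 d2 : ℝ≥0∞) (d j : ℕ) :
    reflT k1 k2 d1 s1 d2 d (j + d) = reflT k1 k2 d1 s1 d2 d j := by
  unfold reflT
  refine tsum_congr fun c => Finset.sum_congr rfl fun σ _ => ?_
  by_cases hd : c.rep.1.dg = d
  · have h1 : (c.rep.1.s ^ (j + d)) (Sum.inr true) = (c.rep.1.s ^ j) (Sum.inr true) := by
      rw [pow_add, Perm.mul_apply]
      congr 1
      subst hd
      have h2 := Function.iterate_minimalPeriod (f := fun t => c.rep.1.s t) (x := Sum.inr true)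
      rw [← Perm.iterate_eq_pow]
      exact h2
    rw [h1]
  · rw [if_neg (fun h => hd h.2.1), if_neg (fun h => hd h.2.1)]

/-- `reflT_shift`, `reflT_period`: if `d` is even, half of the `j < d` are even; if `d` is odd, all values are equal -/
theorem reflT_sum (k1 k2 d1 s1 d2 : ℝ≥0∞) (d : ℕ) :
    2 * ∑ j ∈ range d, reflT k1 k2 d1 s1 d2 d j =
      d * (reflT k1 k2 d1 s1 d2 d 0 + reflT k1 k2 d1 s1 d2 d 1) := by
  set T : ℕ → ℝ≥0∞ := reflT k1 k2 d1 s1 d2 d with hT
  have h2 : ∀ j, T (j + 2) = T j := reflT_shift k1 k2 d1 s1 d2 d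
  have hp : ∀ j, T (j + d) = T j := reflT_period k1 k2 d1 s1 d2 d
  have hev : ∀ m, T (2 * m) = T 0 := by
    intro m
    induction m with
    | zero => rfl
    | succ m ih => rw [show 2 * (m + 1) = 2 * m + 2 by ring, h2, ih]
  have hod : ∀ m, T (2 * m + 1) = T 1 := by
    intro m
    induction m with
    | zero => rfl
    | succ m ih => rw [show 2 * (m + 1) + 1 = (2 * m + 1) + 2 by ring, h2, ih]
  have hsum : ∀ m, ∑ j ∈ range (2 * m), T j = m * (T 0 + T 1) := by
    intro m
    induction m with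
    | zero => simp
    | succ m ih =>
      rw [show 2 * (m + 1) = 2 * m + 1 + 1 by ring, sum_range_succ, sum_range_succ, ih, hev, hod]
      push_cast
      ring
  rcases Nat.even_or_odd' d with ⟨m, hm | hm⟩
  · have h3 := hsum m
    rw [← hm] at h3
    rw [h3, hm]
    push_cast
    ring
  · have h3 : T 0 = T 1 := by
      have h4 := hp 0
      rw [zero_add, hm] at h4
      rw [← h4]
      exact hod m
    rw [hm, sum_range_succ, hsum, hev, h3]
    push_cast
    ring

open ReflSum in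
/-- Sum over `d`: the left side is `∑' d, ∑ j < d, reflT d j / (2 d)` (`root_pow`, `root_pow_inj`, `dg_pos`); `∑' d, reflT d 1` is `Ac`,
and `∑' d, reflT d 0 = k1 * d1 * Av` by `symW0_eq`. -/
theorem refl_sum (k1 k2 d1 s1 d2 : ℝ≥0∞) :
    ∑' c : GC, ∑ σ : Perm c.rep.1.T,
      (if Rigid c.rep.1 ∧ ∃ t, c.rep.1.s.SameCycle (Sum.inr true) t ∧ SymM c.rep.1 false σ t then
        symW0 c.rep.1 σ k1 k2 d1 s1 d2 / (2 * (c.rep.1.dg : ℝ≥0∞)) else 0) =
      (k1 * d1 * Av k1 k2 d1 s1 d2 + Ac k1 k2 d1 s1 d2) / 4 := by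
  -- the left side is a sum over `X`
  have hL : (∑' c : GC, ∑ σ : Perm c.rep.1.T,
      (if Rigid c.rep.1 ∧ ∃ t, c.rep.1.s.SameCycle (Sum.inr true) t ∧ SymM c.rep.1 false σ t then
        symW0 c.rep.1 σ k1 k2 d1 s1 d2 / (2 * (c.rep.1.dg : ℝ≥0∞)) else 0)) =
      ∑' x : X, ∑' d : ℕ, ∑ j ∈ range d, f k1 k2 d1 s1 d2 d j x / (2 * (d : ℝ≥0∞)) := by
    rw [ENNReal.tsum_sigma']
    refine tsum_congr fun c => ?_
    rw [tsum_fintype]
    refine Finset.sum_congr rfl fun σ _ => ?_
    have h1 : ∀ d, d ≠ c.rep.1.dg →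
        ∑ j ∈ range d, f k1 k2 d1 s1 d2 d j ⟨c, σ⟩ / (2 * (d : ℝ≥0∞)) = 0 := by
      intro d hd
      refine Finset.sum_eq_zero fun j _ => ?_
      unfold f
      rw [if_neg (fun h => hd h.2.1.symm), ENNReal.zero_div]
    rw [tsum_eq_single _ h1]
    by_cases hx : Rigid c.rep.1 ∧ ∃ t, c.rep.1.s.SameCycle (Sum.inr true) t ∧
        SymM c.rep.1 false σ t
    · rw [if_pos hx]
      obtain ⟨hR, t, ht, hS⟩ := hx
      obtain ⟨j, hj, hjt⟩ := (root_pow c t).1 ht
      rw [Finset.sum_eq_single j]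
      · unfold f
        rw [if_pos]
        refine ⟨hR, rfl, ?_⟩
        change SymM c.rep.1 false σ ((c.rep.1.s ^ j) (Sum.inr true))
        rw [hjt]
        exact hS
      · intro i hi hij
        unfold f
        rw [if_neg, ENNReal.zero_div]
        rintro ⟨_, _, hS'⟩
        apply hij
        refine root_pow_inj c (mem_range.1 hi) hj ?_
        have h3 : σ (Sum.inr true) = (c.rep.1.s ^ i) (Sum.inr true) := hS'.root
        rw [← h3, hjt, hS.root]
      · intro hj'
        exact absurd (mem_range.2 hj) hj'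
    · rw [if_neg hx]
      symm
      refine Finset.sum_eq_zero fun j hj => ?_
      unfold f
      rw [if_neg, ENNReal.zero_div]
      rintro ⟨hR, _, hS⟩
      exact hx ⟨hR, _, (root_pow c _).2 ⟨j, mem_range.1 hj, rfl⟩, hS⟩
  have hA : ∀ j : ℕ, (∑' d : ℕ, reflT k1 k2 d1 s1 d2 d j) = ∑' c : GC, ∑ σ : Perm c.rep.1.T,
      if Rigid c.rep.1 ∧ SymM c.rep.1 false σ ((c.rep.1.s ^ j) (Sum.inr true)) then
        symW0 c.rep.1 σ k1 k2 d1 s1 d2 else 0 := by
    intro j
    have h1 : ∀ d, reflT k1 k2 d1 s1 d2 d j = ∑' x : X, f k1 k2 d1 s1 d2 d j x :=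
      fun d => ReflSum.reflT_eq _ _ _ _ _ _ _
    simp only [h1]
    rw [ENNReal.tsum_comm, ENNReal.tsum_sigma']
    refine tsum_congr fun c => ?_
    rw [tsum_fintype]
    refine Finset.sum_congr rfl fun σ _ => ?_
    have h2 : ∀ d, d ≠ c.rep.1.dg → f k1 k2 d1 s1 d2 d j ⟨c, σ⟩ = 0 := by
      intro d hd
      unfold f
      rw [if_neg (fun h => hd h.2.1.symm)]
    rw [tsum_eq_single _ h2]
    unfold f
    by_cases hx : Rigid c.rep.1 ∧ SymM c.rep.1 false σ ((c.rep.1.s ^ j) (Sum.inr true))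
    · rw [if_pos hx, if_pos ⟨hx.1, rfl, hx.2⟩]
    · rw [if_neg hx, if_neg (fun h => hx ⟨h.1, h.2.2⟩)]
  have hA0 : (∑' d : ℕ, reflT k1 k2 d1 s1 d2 d 0) = k1 * d1 * Av k1 k2 d1 s1 d2 := by
    rw [hA]
    unfold Av
    rw [← ENNReal.tsum_mul_left]
    refine tsum_congr fun c => ?_
    rw [Finset.mul_sum]
    refine Finset.sum_congr rfl fun σ _ => ?_
    rw [pow_zero, Perm.one_apply]
    by_cases hx : Rigid c.rep.1 ∧ SymM c.rep.1 false σ (Sum.inr true)
    · rw [if_pos hx, if_pos hx, symW0_eq c.rep.2 hx.2]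
    · rw [if_neg hx, if_neg hx, mul_zero]
  have hA1 : (∑' d : ℕ, reflT k1 k2 d1 s1 d2 d 1) = Ac k1 k2 d1 s1 d2 := by
    rw [hA]
    unfold Ac
    refine tsum_congr fun c => Finset.sum_congr rfl fun σ _ => ?_
    rw [pow_one]
  have hT0 : ∀ j, reflT k1 k2 d1 s1 d2 0 j = 0 := by
    intro j
    unfold reflT
    rw [ENNReal.tsum_eq_zero]
    intro c
    refine Finset.sum_eq_zero fun σ _ => ?_
    rw [if_neg]
    rintro ⟨_, h, _⟩
    exact (dg_pos c).ne' h
  rw [hL, ENNReal.tsum_comm]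
  have hd : ∀ d : ℕ, (∑' x : X, ∑ j ∈ range d, f k1 k2 d1 s1 d2 d j x / (2 * (d : ℝ≥0∞))) =
      (reflT k1 k2 d1 s1 d2 d 0 + reflT k1 k2 d1 s1 d2 d 1) / 4 := by
    intro d
    have h1 : (∑' x : X, ∑ j ∈ range d, f k1 k2 d1 s1 d2 d j x / (2 * (d : ℝ≥0∞))) =
        (∑ j ∈ range d, reflT k1 k2 d1 s1 d2 d j) / (2 * (d : ℝ≥0∞)) := by
      rw [Summable.tsum_finsetSum (fun _ _ => ENNReal.summable), div_eq_mul_inv,
        Finset.sum_mul]
      refine Finset.sum_congr rfl fun j _ => ?_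
      rw [ReflSum.reflT_eq, ← ENNReal.tsum_mul_right]
      rfl
    rw [h1]
    rcases Nat.eq_zero_or_pos d with h0 | hpos
    · subst h0
      simp [hT0]
    · have h2 := reflT_sum k1 k2 d1 s1 d2 d
      set S := ∑ j ∈ range d, reflT k1 k2 d1 s1 d2 d j with hS
      set U := reflT k1 k2 d1 s1 d2 d 0 + reflT k1 k2 d1 s1 d2 d 1 with hU
      have hd0 : (d : ℝ≥0∞) ≠ 0 := by exact_mod_cast hpos.ne'
      have hdt : (d : ℝ≥0∞) ≠ ∞ := ENNReal.natCast_ne_top d
      have h3 : S / (2 * (d : ℝ≥0∞)) = (2 * S) / (4 * (d : ℝ≥0∞)) := by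
        rw [show (4 : ℝ≥0∞) * (d : ℝ≥0∞) = 2 * (2 * (d : ℝ≥0∞)) by ring]
        rw [ENNReal.mul_div_mul_left _ _ (by norm_num) (by norm_num)]
      rw [h3, h2, mul_comm (4 : ℝ≥0∞), ENNReal.mul_div_mul_left _ _ hd0 hdt]
  rw [tsum_congr hd]
  have h4 : (∑' d : ℕ, (reflT k1 k2 d1 s1 d2 d 0 + reflT k1 k2 d1 s1 d2 d 1) / 4) =
      (∑' d : ℕ, (reflT k1 k2 d1 s1 d2 d 0 + reflT k1 k2 d1 s1 d2 d 1)) / 4 := by
    simp only [div_eq_mul_inv]
    rw [ENNReal.tsum_mul_right]
  rw [h4, ENNReal.tsum_add, hA0, hA1]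

end PGr

end

section
/-! # Module SymSumI: sums over the codes with a given symmetry -/

set_option linter.unusedSectionVars false

namespace PGr
open Equiv Finset
open scoped ENNReal Classical
universe u
variable {Λ : Type u} (w : Λ → ℝ≥0∞)
open NetSumC

/-- a symmetry mapping the root edge to itself is an involution -/
theorem SymSumI_inv (c : GC) (o b : Bool) (σ : Perm (CT c))
    (h : SymM (core c).toB o σ (Sum.inr b)) :
    (∀ b', σ (Sum.inr b') = Sum.inr (xor (!b) b')) ∧ ∀ x, σ (σ x) = x := by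
  have hr : ∀ b', σ (Sum.inr b') = Sum.inr (xor (!b) b') := by
    intro b'
    cases b'
    · have h1 := h.a (Sum.inr true)
      rw [h.root] at h1
      rw [Bool.xor_false]
      exact h1.trans (SymAux.aa_inr b)
    · rw [h.root, Bool.xor_true, Bool.not_not]
  refine ⟨hr, fun x => ?_⟩
  have h2 : σ.trans σ = Equiv.refl _ := by
    refine iso_unique (a' := (core c).toB.aa) (s' := (core c).s) (CT_good c) (Sum.inr true)
      (σ.trans σ) (Equiv.refl _) (fun t => ?_) (fun t => ?_) (fun _ => rfl) (fun _ => rfl) ?_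
    · rw [Equiv.trans_apply, Equiv.trans_apply, h.a, h.a]
    · show σ (σ ((core c).toB.s t)) = (core c).toB.s (σ (σ t))
      rw [h.s]
      cases o
      · have h0 : ∀ x, (core c).toB.s ((core c).toB.s⁻¹ x) = x := fun x =>
          Equiv.apply_symm_apply (core c).toB.s x
        have h3 := h.s ((core c).toB.s⁻¹ (σ t))
        rw [h0] at h3
        simp only [Bool.false_eq_true, if_false] at h3 ⊢
        rw [h3, h0]
      · simp only [if_true]
        exact h.s _
    · show σ (σ (Sum.inr true)) = Sum.inr true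
      rw [hr, hr, ← Bool.xor_assoc, Bool.xor_self, Bool.false_xor]
  exact Equiv.congr_fun h2 x

/-- The sum of the weights of all codes with the map `c` which are invariant under `σ`.
Proof: the sum is a product of a sum over `F : I → NC Λ` and a sum over `g : CInt → Λ` (`tsum_prod_mul`).  `σ` maps the
root edge to itself, so it induces an involution `π` of `I` (`σ ∘ σ = 1` as it fixes a dart, `iso_unique`) and
`σ (inl (i, true)) = inl (π i, !(c i))`; `F` is compatible iff `F (π i) = F i` or `(F i).fl` if `c i`; `c (π i) = c i`: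
`sum_equivariant_inv` with `φ = NC.fl`.  The fixed darts are two for each `i` with `π i = i`, `c i = false`, the reversed
darts two for each `i` with `π i = i`, `c i = true`; `Fintype.card (core c).toB.D = 2 * card I`.  Similarly for the
internal vertices (`sum_equivariant_inv` with `c = false`, `φ = id`); there are `nV - 2` of them (`card_CInt`). -/
theorem ix_sum (c : GC) (hc : Rigid c.rep.1) (o b : Bool) (σ : Perm (CT c))
    (h : SymM (core c).toB o σ (Sum.inr b)) :
    ∑' q : ((core c).I → NC Λ) × (CInt (core c) → Λ),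
      (if (∀ t, (hat ⟨c, q⟩).2.1 (σ t) = (hat ⟨c, q⟩).2.1 t) ∧
          (∀ t, (hat ⟨c, q⟩).2.2 ((core c).vinc (σ t)) = (hat ⟨c, q⟩).2.2 ((core c).vinc t)) then
        (∏ i, wt w (q.1 i).rep.1) * ∏ x, w (q.2 x) else 0) =
      symW (core c).toB σ (pK w 1) (pK w 2) (pD w 1) (pS w 1) (pD w 2) := by
  obtain ⟨hr, hinv⟩ := SymSumI_inv c o b σ h
  obtain ⟨τ, hτ⟩ := SymAux.exists_tau hr
  have hσ := SymAux.same_of_o h.s
  have hP := SymAux.pole_iff hσ hr
  have hA : ∀ q : ((core c).I → NC Λ) × (CInt (core c) → Λ),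
      (∀ t, (hat ⟨c, q⟩).2.1 (σ t) = (hat ⟨c, q⟩).2.1 t) ↔
        ∀ x, eDec q.1 (τ x) = eDec q.1 x := fun q =>
    SymAux.edge_iff hr hτ q.1 (hat ⟨c, q⟩).2.1 (fun _ => rfl) (fun _ => rfl)
  have hB : ∀ q : ((core c).I → NC Λ) × (CInt (core c) → Λ),
      (∀ t, (hat ⟨c, q⟩).2.2 ((core c).vinc (σ t)) = (hat ⟨c, q⟩).2.2 ((core c).vinc t)) ↔
        ∀ x, q.2 ((SymAux.sV hσ).subtypePerm hP x) = q.2 x := fun q =>
    SymAux.vert_iff hσ (fun x => ∀ b, x ≠ (core c).vinc (Sum.inr b)) hP q.2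
      (hat ⟨c, q⟩).2.2 (fun x hx => dif_pos hx) (fun x hx => dif_neg hx)
  have hV : fixV (core c).toB σ (fun t => ∃ b, t = Sum.inr b) =
      Nat.card {x : CInt (core c) // (SymAux.sV hσ).subtypePerm hP x = x} := by
    refine SymAux.fixV_eq hσ (fun x => ∀ b, x ≠ (core c).vinc (Sum.inr b)) hP _ fun x => ?_
    constructor
    · rintro h1 t ⟨b, rfl⟩
      exact h1 b
    · intro h1 b
      exact h1 _ ⟨b, rfl⟩
  refine Eq.trans (tsum_congr fun q => SymAux.iteM (hA q) (hB q) _ _)
    (Eq.trans (tsum_prod_mul (fun F : (core c).I → NC Λ => if ∀ x, eDec F (τ x) = eDec F x then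
        ∏ i, wt w (F i).rep.1 else 0) (fun g : CInt (core c) → Λ =>
        if ∀ x, g ((SymAux.sV hσ).subtypePerm hP x) = g x then ∏ x, w (g x) else 0)).symm ?_)
  rw [SymAux.edge_sum_inv (SymAux.tau_CF hτ h.a) (SymAux.tau_inv hτ hinv) w,
    SymAux.vert_sum_inv _ (fun x => Subtype.ext (SymAux.sV_inv hσ hinv x.1)) w]
  unfold symW
  have hD : fixD (core c).toB σ (fun t => ∃ d, t = Sum.inl d) = Nat.card {x // τ x = x} :=
    SymAux.fixD_eq hτ
  have hR : revD (core c).toB σ (fun t => ∃ d, t = Sum.inl d) =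
      Nat.card {x : (core c).I × Bool // τ x = (x.1, !x.2)} := SymAux.revD_eq hτ
  rw [hV, hD, hR, card_CInt (RgTwo_pole c)]
  have hcard : Fintype.card (core c).toB.D = Fintype.card ((core c).I × Bool) := rfl
  rw [hcard]
  have hnV : nV (core c).toB.s = nV (core c).s := rfl
  rw [hnV]
  ring

end PGr

end
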