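import Pool.Agent.PGm.M16
import Pool.Agent.PGm.M17
import Pool.Agent.PGm.M18
import Pool.Agent.PGr.MSet

section
/-! # Module BondInj: the parallel decomposition is unique -/

set_option linter.unusedSectionVars false

namespace PGr
open Equiv Finset
open scoped ENNReal Classical
universe u
variable {Λ : Type u}

/-- isomorphisms from bijections of the darts -/
theorem BondInj_niso {N N' : LNet Λ} (hN : Function.Surjective N.inc)
    (hN' : Function.Surjective N'.inc) (e : N.D ≃ N'.D) (ha : ∀ d, e (N.a d) = N'.a (e d))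
    (hi : ∀ t t' : N.T, N.inc t = N.inc t' ↔
      N'.inc (GlueLib.dart e t) = N'.inc (GlueLib.dart e t'))
    (hl : ∀ d, (∀ b, N.inc (Sum.inl d) ≠ N.pole b) →
      N'.lab (N'.inc (Sum.inl (e d))) = N.lab (N.inc (Sum.inl d))) : NIso N N' := by
  have hf : ∀ x : N.V, ∃ y : N'.V, ∀ t, N.inc t = x → N'.inc (GlueLib.dart e t) = y := by
    intro x
    obtain ⟨t0, rfl⟩ := hN x
    exact ⟨N'.inc (GlueLib.dart e t0), fun t ht => (hi t t0).1 ht⟩
  choose F hF using hf
  have hF' : ∀ t, F (N.inc t) = N'.inc (GlueLib.dart e t) := fun t => (hF _ t rfl).symm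
  have hinj : Function.Injective F := by
    intro x y hxy
    obtain ⟨t, rfl⟩ := hN x
    obtain ⟨t', rfl⟩ := hN y
    rw [hF', hF'] at hxy
    exact (hi t t').2 hxy
  have hsurj : Function.Surjective F := by
    intro y
    obtain ⟨t', rfl⟩ := hN' y
    obtain ⟨t, rfl⟩ := (GlueLib.dart e).surjective t'
    exact ⟨N.inc t, hF' t⟩
  refine ⟨e, Equiv.ofBijective F ⟨hinj, hsurj⟩, ha, fun d => hF' (Sum.inl d),
    fun b => hF' (Sum.inr b), fun x hx => ?_⟩
  obtain ⟨t, rfl⟩ := hN x
  rcases t with d | b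
  · show N'.lab (F (N.inc (Sum.inl d))) = _
    rw [hF']
    exact hl d hx
  · exact absurd rfl (hx b)

section
variable {I I' : Type} [Fintype I] [DecidableEq I] [Fintype I'] [DecidableEq I']

/-- the vertex of the parallel composition -/
def BondInj.k (N : I → LNet Λ) (i : I) (x : (N i).V) : Bool ⊕ Σ i, (N i).Int :=
  if h1 : x = (N i).pole true then Sum.inl true
  else if h2 : x = (N i).pole false then Sum.inl false
  else Sum.inr ⟨i, ⟨x, by rintro (_ | _) <;> assumption⟩⟩

theorem BondInj.inc_inl (N : I → LNet Λ) (i : I) (d : (N i).D) :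
    glueInc (bondInc I) N (Sum.inl ⟨i, d⟩) = BondInj.k N i ((N i).inc (Sum.inl d)) := rfl

theorem BondInj.poles {N : LNet Λ} (h : N.IsGood) : N.pole false ≠ N.pole true :=
  h.loop (Sum.inr true)

theorem BondInj.k_pole (N : I → LNet Λ) (hN : ∀ i, (N i).IsGood) (i : I) (b : Bool) :
    BondInj.k N i ((N i).pole b) = Sum.inl b := by
  unfold BondInj.k
  cases b
  · rw [dif_neg (BondInj.poles (hN i)), dif_pos rfl]
  · rw [dif_pos rfl]

theorem BondInj.k_int (N : I → LNet Λ) (i : I) (x : (N i).V) (hx : ∀ b, x ≠ (N i).pole b) :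
    BondInj.k N i x = Sum.inr ⟨i, ⟨x, hx⟩⟩ := by
  unfold BondInj.k
  rw [dif_neg (hx true), dif_neg (hx false)]

theorem BondInj.k_inj (N : I → LNet Λ) (hN : ∀ i, (N i).IsGood) (i : I) :
    Function.Injective (BondInj.k N i) := by
  intro x y hxy
  by_cases hx : ∃ b, x = (N i).pole b
  · obtain ⟨b, rfl⟩ := hx
    rw [BondInj.k_pole N hN] at hxy
    by_cases hy : ∃ b, y = (N i).pole b
    · obtain ⟨b', rfl⟩ := hy
      rw [BondInj.k_pole N hN] at hxy
      rw [Sum.inl_injective hxy]
    · rw [BondInj.k_int N i y (fun b hb => hy ⟨b, hb⟩)] at hxy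
      exact absurd hxy (by simp)
  · rw [BondInj.k_int N i x (fun b hb => hx ⟨b, hb⟩)] at hxy
    by_cases hy : ∃ b, y = (N i).pole b
    · obtain ⟨b', rfl⟩ := hy
      rw [BondInj.k_pole N hN] at hxy
      exact absurd hxy (by simp)
    · rw [BondInj.k_int N i y (fun b hb => hy ⟨b, hb⟩)] at hxy
      have h1 := Sum.inr_injective hxy
      have h2 := (Sigma.mk.inj_iff.1 h1).2
      exact congrArg Subtype.val (eq_of_heq h2)

theorem BondInj.k_idx (N : I → LNet Λ) {i i' : I} {x : (N i).V} {x' : (N i').V}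
    (h : BondInj.k N i x = BondInj.k N i' x') (hb : ∀ b, BondInj.k N i x ≠ Sum.inl b) :
    i = i' := by
  by_cases hx : ∀ b, x ≠ (N i).pole b
  · by_cases hx' : ∀ b, x' ≠ (N i').pole b
    · rw [BondInj.k_int N i x hx, BondInj.k_int N i' x' hx'] at h
      exact (Sigma.mk.inj_iff.1 (Sum.inr_injective h)).1
    · exfalso
      rw [h] at hb
      unfold BondInj.k at hb
      by_cases h1 : x' = (N i').pole true
      · exact hb true (dif_pos h1)
      · by_cases h2 : x' = (N i').pole false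
        · exact hb false ((dif_neg h1).trans (dif_pos h2))
        · exact hx' (by rintro (_ | _) <;> assumption)
  · exfalso
    unfold BondInj.k at hb
    by_cases h1 : x = (N i).pole true
    · exact hb true (dif_pos h1)
    · by_cases h2 : x = (N i).pole false
      · exact hb false ((dif_neg h1).trans (dif_pos h2))
      · exact hx (by rintro (_ | _) <;> assumption)

/-- a part is mapped into one part -/
theorem BondInj.idx (N : I → LNet Λ) (N' : I' → LNet Λ) (hN : ∀ i, (N i).IsGood)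
    (hc : ∀ i, Conn (N i)) (e : (Σ i, (N i).D) ≃ (Σ i, (N' i).D))
    (f : (Bool ⊕ Σ i, (N i).Int) ≃ (Bool ⊕ Σ i, (N' i).Int))
    (h1 : ∀ i d, (e ⟨i, (N i).a d⟩).1 = (e ⟨i, d⟩).1)
    (h2 : ∀ p, f (glueInc (bondInc I) N (Sum.inl p)) =
      glueInc (bondInc I') N' (Sum.inl (e p)))
    (h3 : ∀ b, f (Sum.inl b) = Sum.inl b) : ∃ ι : I → I', ∀ i d, (e ⟨i, d⟩).1 = ι i := by
  have key : ∀ i, ∃ i', ∀ d, (e ⟨i, d⟩).1 = i' := by
    intro i
    obtain ⟨d0⟩ := (hN i).ne
    refine ⟨(e ⟨i, d0⟩).1, ?_⟩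
    by_contra hcon
    set A : Finset (N i).D := univ.filter fun d => (e ⟨i, d⟩).1 = (e ⟨i, d0⟩).1 with hA
    have hmem : ∀ d, d ∈ A ↔ (e ⟨i, d⟩).1 = (e ⟨i, d0⟩).1 := fun d => by simp [hA]
    have hcl : Cl (N i).a A := by
      intro d
      rw [hmem, hmem, h1]
    have hne : A.Nonempty := ⟨d0, (hmem d0).2 rfl⟩
    have hu : A ≠ univ := by
      intro hu
      apply hcon
      intro d
      rw [← hmem, hu]
      exact mem_univ d
    obtain ⟨x, hx, ⟨d, hd, hdx⟩, d', hd', hdx'⟩ := hc i A hcl hne hu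
    have hdx2 : (N i).inc (Sum.inl d) = x := hdx
    have hdx2' : (N i).inc (Sum.inl d') = x := hdx'
    have e1 : glueInc (bondInc I) N (Sum.inl ⟨i, d⟩) = Sum.inr ⟨i, ⟨x, hx⟩⟩ := by
      rw [BondInj.inc_inl, hdx2]
      exact BondInj.k_int N i x hx
    have e2 : glueInc (bondInc I) N (Sum.inl ⟨i, d'⟩) = Sum.inr ⟨i, ⟨x, hx⟩⟩ := by
      rw [BondInj.inc_inl, hdx2']
      exact BondInj.k_int N i x hx
    have e3 : glueInc (bondInc I') N' (Sum.inl (e ⟨i, d⟩)) =
        glueInc (bondInc I') N' (Sum.inl (e ⟨i, d'⟩)) := by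
      rw [← h2, ← h2, e1, e2]
    have e4 : ∀ b, glueInc (bondInc I') N' (Sum.inl (e ⟨i, d⟩)) ≠ Sum.inl b := by
      intro b hb
      rw [← h2, e1, ← h3] at hb
      exact absurd (f.injective hb) (by simp)
    have e5 : (e ⟨i, d⟩).1 = (e ⟨i, d'⟩).1 :=
      BondInj.k_idx N' (i := (e ⟨i, d⟩).1) (i' := (e ⟨i, d'⟩).1)
        (x := (N' (e ⟨i, d⟩).1).inc (Sum.inl (e ⟨i, d⟩).2))
        (x' := (N' (e ⟨i, d'⟩).1).inc (Sum.inl (e ⟨i, d'⟩).2)) e3 e4
    exact hd' ((hmem d').2 (e5.symm.trans ((hmem d).1 hd)))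
  choose ι hι using key
  exact ⟨ι, hι⟩

/-- the parallel decomposition is unique -/
theorem BondInj.core (N : I → LNet Λ) (N' : I' → LNet Λ) (hN : ∀ i, (N i).IsGood)
    (hN' : ∀ i, (N' i).IsGood) (hc : ∀ i, Conn (N i)) (hc' : ∀ i, Conn (N' i))
    (e : (Σ i, (N i).D) ≃ (Σ i, (N' i).D))
    (f : (Bool ⊕ Σ i, (N i).Int) ≃ (Bool ⊕ Σ i, (N' i).Int))
    (h1' : ∀ i d, e ⟨i, (N i).a d⟩ = ⟨(e ⟨i, d⟩).1, (N' (e ⟨i, d⟩).1).a (e ⟨i, d⟩).2⟩)
    (h2 : ∀ p, f (glueInc (bondInc I) N (Sum.inl p)) =
      glueInc (bondInc I') N' (Sum.inl (e p)))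
    (h3' : ∀ b, f (Sum.inl b) = Sum.inl b)
    (h4 : ∀ i (x : (N i).Int) i' (x' : (N' i').Int), f (Sum.inr ⟨i, x⟩) = Sum.inr ⟨i', x'⟩ →
      (N' i').lab x'.1 = (N i).lab x.1) :
    ∃ π : I ≃ I', ∀ i, NIso (N i) (N' (π i)) := by
  obtain ⟨ι, hι⟩ := BondInj.idx N N' hN hc e f (fun i d => by rw [h1' i d]) h2 h3'
  obtain ⟨ι', hι'⟩ := BondInj.idx N' N hN' hc' e.symm f.symm (fun i d => by
    have h5 : e.symm ⟨i, (N' i).a d⟩ = ⟨(e.symm ⟨i, d⟩).1, (N (e.symm ⟨i, d⟩).1).a (e.symm ⟨i, d⟩).2⟩ := by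
      rw [Equiv.symm_apply_eq, h1']
      show _ = (⟨(e (e.symm ⟨i, d⟩)).1, (N' (e (e.symm ⟨i, d⟩)).1).a (e (e.symm ⟨i, d⟩)).2⟩ :
        Σ i, (N' i).D)
      rw [Equiv.apply_symm_apply]
    rw [h5]) (fun p => by
      rw [Equiv.symm_apply_eq]
      have := h2 (e.symm p)
      rw [Equiv.apply_symm_apply] at this
      exact this.symm) (fun b => by rw [Equiv.symm_apply_eq, h3'])
  have l1 : ∀ i, ι' (ι i) = i := by
    intro i
    obtain ⟨d⟩ := (hN i).ne
    have h5 := hι i d
    rcases h6 : e ⟨i, d⟩ with ⟨j, d'⟩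
    rw [h6] at h5
    have h7 := hι' j d'
    rw [← h6, Equiv.symm_apply_apply] at h7
    rw [← h5]
    exact h7.symm
  have l2 : ∀ i, ι (ι' i) = i := by
    intro i
    obtain ⟨d⟩ := (hN' i).ne
    have h5 := hι' i d
    rcases h6 : e.symm ⟨i, d⟩ with ⟨j, d'⟩
    rw [h6] at h5
    have h7 := hι j d'
    rw [← h6, Equiv.apply_symm_apply] at h7
    rw [← h5]
    exact h7.symm
  refine ⟨⟨ι, ι', l1, l2⟩, fun i => ?_⟩
  show NIso (N i) (N' (ι i))
  have hE : ∀ d, ∃ d', e ⟨i, d⟩ = ⟨ι i, d'⟩ := by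
    intro d
    have h5 := hι i d
    rcases h6 : e ⟨i, d⟩ with ⟨j, d'⟩
    rw [h6] at h5
    have h5' : j = ι i := h5
    subst h5'
    exact ⟨d', rfl⟩
  choose E hE using hE
  have hinj : Function.Injective E := by
    intro d d' hdd
    have h5 : e ⟨i, d⟩ = e ⟨i, d'⟩ := by rw [hE, hE, hdd]
    exact eq_of_heq (Sigma.mk.inj_iff.1 (e.injective h5)).2
  have hsurj : Function.Surjective E := by
    intro d'
    rcases h6 : e.symm ⟨ι i, d'⟩ with ⟨j, d⟩
    have h7 := hι' (ι i) d'
    rw [h6, l1] at h7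
    have h7' : j = i := h7
    subst h7'
    refine ⟨d, ?_⟩
    have h8 : e ⟨j, d⟩ = ⟨ι j, d'⟩ := by rw [← h6, Equiv.apply_symm_apply]
    rw [hE] at h8
    exact eq_of_heq (Sigma.mk.inj_iff.1 h8).2
  let E' : (N i).D ≃ (N' (ι i)).D := Equiv.ofBijective E ⟨hinj, hsurj⟩
  -- the vertices
  have hk : ∀ t : (N i).T, f (BondInj.k N i ((N i).inc t)) =
      BondInj.k N' (ι i) ((N' (ι i)).inc (GlueLib.dart E' t)) := by
    rintro (d | b)
    · rw [← BondInj.inc_inl, h2 ⟨i, d⟩, hE]
      rfl
    · show f (BondInj.k N i ((N i).pole b)) = BondInj.k N' (ι i) ((N' (ι i)).pole b)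
      rw [BondInj.k_pole N hN, BondInj.k_pole N' hN', h3']
  refine BondInj_niso (hN i).surj (hN' _).surj E' (fun d => ?_) (fun t t' => ?_) (fun d hd => ?_)
  · have h5 := h1' i d
    rw [hE] at h5
    have h6 : (⟨(e ⟨i, d⟩).1, (N' (e ⟨i, d⟩).1).a (e ⟨i, d⟩).2⟩ : Σ i, (N' i).D) =
        ⟨ι i, (N' (ι i)).a (E d)⟩ := by
      rw [hE]
    rw [h6] at h5
    exact eq_of_heq (Sigma.mk.inj_iff.1 h5).2
  · constructor
    · intro h5
      apply BondInj.k_inj N' hN' (ι i)
      rw [← hk, ← hk, h5]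
    · intro h5
      apply BondInj.k_inj N hN i
      apply f.injective
      rw [hk, hk, h5]
  · have h5 := hk (Sum.inl d)
    rw [BondInj.k_int N i _ hd] at h5
    have h6 : ∀ b, (N' (ι i)).inc (Sum.inl (E' d)) ≠ (N' (ι i)).pole b := by
      intro b hb
      have h7 : f (Sum.inr ⟨i, ⟨(N i).inc (Sum.inl d), hd⟩⟩) = Sum.inl b := by
        rw [h5]
        show BondInj.k N' (ι i) ((N' (ι i)).inc (Sum.inl (E' d))) = _
        rw [hb, BondInj.k_pole N' hN']
      rw [← h3'] at h7
      exact absurd (f.injective h7) (by simp)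
    have h8 : f (Sum.inr ⟨i, ⟨(N i).inc (Sum.inl d), hd⟩⟩) =
        Sum.inr ⟨ι i, ⟨(N' (ι i)).inc (Sum.inl (E' d)), h6⟩⟩ := by
      rw [h5]
      exact BondInj.k_int N' (ι i) _ h6
    exact h4 _ _ _ _ h8

theorem BondInj.glue (N : I → LNet Λ) (N' : I' → LNet Λ) (hN : ∀ i, (N i).IsGood)
    (hN' : ∀ i, (N' i).IsGood) (hc : ∀ i, Conn (N i)) (hc' : ∀ i, Conn (N' i)) (g g' : Bool → Λ)
    (h : NIso (PGr.glue (bondInc I) N g) (PGr.glue (bondInc I') N' g')) :
    ∃ π : I ≃ I', ∀ i, NIso (N i) (N' (π i)) := by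
  obtain ⟨e, f, h1, h2, h3, h4⟩ := h
  refine BondInj.core N N' hN hN' hc hc' e f (fun i d => h1 ⟨i, d⟩) h2 h3 ?_
  intro i x i' x' hx
  have h5 := h4 (Sum.inr ⟨i, x⟩) (fun b hb => by
    have h6 : (Sum.inr ⟨i, x⟩ : Bool ⊕ Σ i, (N i).Int) = Sum.inl b := hb
    exact absurd h6 (by simp))
  have h7 : glueLab N' g' (f (Sum.inr ⟨i, x⟩)) = (N i).lab x.1 := h5
  have h8 : f (Sum.inr ⟨i, x⟩) = Sum.inr ⟨i', x'⟩ := hx
  rw [h8] at h7
  exact h7

end

theorem BondInj.edge_conn (g : Bool → Λ) : Conn (edgeNet g) := by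
  intro A hA hne hu
  exfalso
  apply hu
  obtain ⟨b, hb⟩ := hne
  have hb' : (edgeNet g).a b ∈ A := (hA b).2 hb
  ext c
  refine ⟨fun _ => mem_univ _, fun _ => ?_⟩
  have h1 : c = b ∨ c = (edgeNet g).a b := by
    show c = b ∨ c = Equiv.boolNot b
    have h2 : ∀ c b : Bool, c = b ∨ c = Equiv.boolNot b := by decide
    exact h2 c b
  rcases h1 with rfl | rfl
  · exact hb
  · exact hb'

theorem BondInj.edge_direct (g : Bool → Λ) : Direct (edgeNet g) := ⟨true, rfl, rfl⟩

/-- Proof.  Let `(e, f)` be the isomorphism.  A dart of `bond b X g` belongs to the direct edge (if `b`) or to some `X j`;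
the parts share only the poles.  The direct edge is the only edge joining the poles (`XNet.dir`), so `b = b'`, and `e` maps
the direct edge to the direct edge.  For `j`: the darts of `X j` are mapped into one part `j'`: otherwise, for the part `j'`
of one of the images, the set `A` of darts `d` of `X j` with `e d` in the part `j'` is closed, nonempty and not everything, so
by `Conn (X j)` it shares an internal vertex `x` of `X j` with the other darts of `X j`; but `f x` is not a pole, and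
all darts at an internal vertex are in one part.  By symmetry (`NIso.symm`) `e` maps the part `j` onto the part `j'`; this
is the bijection `π`, and the restriction of `(e, f)` is an isomorphism `X j → X' (π j)`; the vertices of a
network are the vertices of its darts and poles (`surj`). -/
theorem bond_inj {J J' : Type} [Fintype J] [DecidableEq J] [Fintype J'] [DecidableEq J'] (b b' : Bool)
    (X : J → LNet Λ) (X' : J' → LNet Λ) (g g' : Bool → Λ) (hX : ∀ j, XNet (X j))
    (hX' : ∀ j, XNet (X' j)) (h : NIso (bond b X g) (bond b' X' g')) :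
    b = b' ∧ ∃ π : J ≃ J', ∀ j, NIso (X j) (X' (π j)) := by
  have gd : ∀ {K : Type} (Y : K → LNet Λ) (l : Bool → Λ), (∀ j, XNet (Y j)) →
      ∀ i : Option K, (i.elim (edgeNet l) Y : LNet Λ).IsGood := by
    intro K Y l hY i
    rcases i with _ | j
    · exact (edgeNet_good l).1
    · exact (hY j).good
  have cn : ∀ {K : Type} (Y : K → LNet Λ) (l : Bool → Λ), (∀ j, XNet (Y j)) →
      ∀ i : Option K, Conn (i.elim (edgeNet l) Y : LNet Λ) := by
    intro K Y l hY i
    rcases i with _ | j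
    · exact BondInj.edge_conn l
    · exact (hY j).conn
  cases b <;> cases b'
  · exact ⟨rfl, BondInj.glue X X' (fun j => (hX j).good) (fun j => (hX' j).good)
      (fun j => (hX j).conn) (fun j => (hX' j).conn) g g' h⟩
  · exfalso
    obtain ⟨π, hπ⟩ := BondInj.glue X (fun i : Option J' => i.elim (edgeNet g') X')
      (fun j => (hX j).good) (gd X' g' hX') (fun j => (hX j).conn) (cn X' g' hX') g g' h
    have h1 := hπ (π.symm none)
    rw [Equiv.apply_symm_apply] at h1
    exact (hX _).dir (h1.symm.direct (BondInj.edge_direct g'))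
  · exfalso
    obtain ⟨π, hπ⟩ := BondInj.glue (fun i : Option J => i.elim (edgeNet g) X) X'
      (gd X g hX) (fun j => (hX' j).good) (cn X g hX) (fun j => (hX' j).conn) g g' h
    have h1 := hπ none
    exact (hX' _).dir (h1.direct (BondInj.edge_direct g))
  · refine ⟨rfl, ?_⟩
    obtain ⟨π, hπ⟩ := BondInj.glue (fun i : Option J => i.elim (edgeNet g) X)
      (fun i : Option J' => i.elim (edgeNet g') X') (gd X g hX) (gd X' g' hX') (cn X g hX)
      (cn X' g' hX') g g' h
    have hn : π none = none := by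
      rcases h1 : π none with _ | j'
      · rfl
      · exfalso
        have h2 := hπ none
        rw [h1] at h2
        exact (hX' _).dir (h2.direct (BondInj.edge_direct g))
    refine ⟨Equiv.removeNone π, fun j => ?_⟩
    have h1 : ∃ x', π (some j) = some x' := by
      rcases h2 : π (some j) with _ | j'
      · exfalso
        have h3 : (some j : Option J) = none := π.injective (h2.trans hn.symm)
        cases h3
      · exact ⟨j', rfl⟩
    have h2 := Equiv.removeNone_some π h1
    have h3 := hπ (some j)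
    rw [← h2] at h3
    exact h3

end PGr

end

section
/-! # Module Par2A: two networks in parallel (elementary properties) -/

set_option linter.unusedSectionVars false

namespace PGr
open Equiv Finset
open scoped ENNReal Classical
universe u
variable {Λ : Type u}

namespace Par2A

theorem pole_ne {N : LNet Λ} (h : N.IsGood) {b b' : Bool} (hb : N.pole b = N.pole b') : b = b' :=
  GlueGood.pole_ne h hb

section
variable {J : Type} [Fintype J] [DecidableEq J] (X : J → LNet Λ)

/-- a dart at a pole -/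
theorem inc_pole {i : J} (hX : (X i).IsGood) {d : (X i).D} {b : Bool}
    (h : (X i).inc (Sum.inl d) = (X i).pole b) :
    glueInc (bondInc J) X (Sum.inl ⟨i, d⟩) = Sum.inl b := by
  cases b
  · refine GlueLib.inc_false _ _ (fun h' => ?_) h
    have := pole_ne hX (h.symm.trans h')
    cases this
  · exact GlueLib.inc_true _ _ h

/-- an interior dart -/
theorem inc_int {i : J} {d : (X i).D} (h : ∀ b, (X i).inc (Sum.inl d) ≠ (X i).pole b) :
    glueInc (bondInc J) X (Sum.inl ⟨i, d⟩) = Sum.inr ⟨i, ⟨(X i).inc (Sum.inl d), h⟩⟩ :=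
  GlueLib.inc_int _ _ (h true) (h false)

/-- a dart of the glued network is at a pole iff it is at this pole in its own network -/
theorem inc_inl_iff {i : J} (hX : (X i).IsGood) {d : (X i).D} {b : Bool} :
    glueInc (bondInc J) X (Sum.inl ⟨i, d⟩) = Sum.inl b ↔ (X i).inc (Sum.inl d) = (X i).pole b := by
  constructor
  · intro h
    rcases GlueGood.pole_or (X i) d with ⟨c, hc⟩ | h1
    · rw [inc_pole X hX hc] at h
      rw [hc, Sum.inl.inj h]
    · rw [inc_int X h1] at h
      cases h
  · exact inc_pole X hX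

/-- an interior vertex determines its network -/
theorem inc_inr {i : J} (hX : (X i).IsGood) {d : (X i).D} {y : Σ i, (X i).Int}
    (h : glueInc (bondInc J) X (Sum.inl ⟨i, d⟩) = Sum.inr y) : i = y.1 := by
  rcases GlueGood.pole_or (X i) d with ⟨c, hc⟩ | h1
  · rw [inc_pole X hX hc] at h
    cases h
  · rw [inc_int X h1] at h
    have := Sum.inr.inj h
    rw [← this]

theorem direct_iff (hX : ∀ i, (X i).IsGood) (g : Bool → Λ) :
    Direct (glue (bondInc J) X g) ↔ ∃ i, Direct (X i) := by
  constructor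
  · rintro ⟨⟨i, d⟩, h1, h2⟩
    exact ⟨i, d, (inc_inl_iff X (hX i)).1 h1, (inc_inl_iff X (hX i)).1 h2⟩
  · rintro ⟨i, d, h1, h2⟩
    exact ⟨⟨i, d⟩, (inc_inl_iff X (hX i)).2 h1, (inc_inl_iff X (hX i)).2 h2⟩

end

end Par2A

open Par2A

theorem par2_direct {N X : LNet Λ} (h : N.IsGood) (h' : X.IsGood) (g : Bool → Λ) :
    Direct (par2 N X g) ↔ Direct N ∨ Direct X := by
  have hX : ∀ b, (bif b then N else X).IsGood := by
    intro b
    cases b
    · exact h'
    · exact h
  have key := direct_iff (J := Bool) (fun b => bif b then N else X) hX g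
  refine key.trans ?_
  constructor
  · rintro ⟨b, hb⟩
    cases b
    · exact Or.inr hb
    · exact Or.inl hb
  · rintro (hb | hb)
    · exact ⟨true, hb⟩
    · exact ⟨false, hb⟩

/-- the darts of `N` share only the poles with the darts of `X` -/
theorem par2_not_X {N X : LNet Λ} (h : N.IsGood) (h' : X.IsGood) (g : Bool → Λ) :
    ¬ XNet (par2 N X g) := by
  have hX : ∀ b, (bif b then N else X).IsGood := by
    intro b
    cases b
    · exact h'
    · exact h
  intro hx
  set A : Finset (par2 N X g).D := univ.filter fun t => t.1 = true with hA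
  have hmem : ∀ t : (par2 N X g).D, t ∈ A ↔ t.1 = true := by
    intro t
    rw [hA, Finset.mem_filter]
    exact and_iff_right (Finset.mem_univ _)
  obtain ⟨d⟩ := h.ne
  obtain ⟨d'⟩ := h'.ne
  obtain ⟨x, hxp, ⟨t, ht, hte⟩, t', ht', hte'⟩ := hx.conn A
    (fun t => by rw [hmem, hmem]; exact Iff.rfl)
    ⟨(⟨true, d⟩ : (par2 N X g).D), (hmem _).2 rfl⟩
    (fun hu => by
      have h1 : (⟨false, d'⟩ : (par2 N X g).D) ∈ A := by rw [hu]; exact Finset.mem_univ _
      have h2 := (hmem _).1 h1
      cases h2)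
  rcases x with b | y
  · exact hxp b rfl
  · obtain ⟨i, e⟩ := t
    obtain ⟨j, e'⟩ := t'
    have h1 : i = y.1 := inc_inr (fun b => bif b then N else X) (hX i) hte
    have h2 : j = y.1 := inc_inr (fun b => bif b then N else X) (hX j) hte'
    have h3 : i = true := (hmem _).1 ht
    exact ht' ((hmem _).2 (h2.trans (h1.symm.trans h3)))

theorem wt_par2 (w : Λ → ℝ≥0∞) (N X : LNet Λ) (g : Bool → Λ) :
    wt w (par2 N X g) = wt w N * wt w X := by
  unfold par2
  rw [GlueLib.wt_bondInc, Fintype.prod_bool]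
  rfl

theorem card_par2 (N X : LNet Λ) (g : Bool → Λ) :
    Fintype.card (par2 N X g).D = Fintype.card N.D + Fintype.card X.D := by
  have h : Fintype.card (par2 N X g).D =
      Fintype.card (Σ b : Bool, (bif b then N else X : LNet Λ).D) := by
    apply Fintype.card_congr
    exact Equiv.refl _
  rw [h, Fintype.card_sigma, Fintype.sum_bool]
  rfl

/-- `glue_iso` -/
theorem par2_iso {N N' X X' : LNet Λ} (h : NIso N N') (h' : NIso X X') (g g' : Bool → Λ) :
    NIso (par2 N X g) (par2 N' X' g') := by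
  refine glue_iso (bondInc Bool) (bondInc Bool) _ _ g g' (Equiv.refl Bool) (fun _ _ => rfl)
    (fun _ => rfl) ?_ (fun x hx => absurd rfl (hx x))
  intro i
  cases i
  · exact h'
  · exact h

/-- `glue_iso` with `Equiv.boolNot` -/
theorem par2_comm (N X : LNet Λ) (g : Bool → Λ) : NIso (par2 N X g) (par2 X N g) := by
  refine glue_iso (bondInc Bool) (bondInc Bool) _ _ g g Equiv.boolNot (fun _ _ => rfl)
    (fun _ => rfl) ?_ (fun _ _ => rfl)
  intro i
  cases i
  · exact NIso.refl X
  · exact NIso.refl N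

end PGr

end

section
/-! # Module Par2: two networks in parallel -/

set_option linter.unusedSectionVars false

namespace PGr
open Equiv Finset
open scoped ENNReal Classical
universe u
variable {Λ : Type u}

namespace Par2

section
variable {J : Type} [Fintype J] [DecidableEq J]

/-- darts -/
def eD (Y : J → LNet Λ) (X : LNet Λ) (g : Bool → Λ) :
    (Σ o : Option J, (o.elim X Y : LNet Λ).D) ≃
      (Σ b : Bool, (bif b then glue (bondInc J) Y g else X : LNet Λ).D) where
  toFun
    | ⟨some j, d⟩ => ⟨true, (⟨j, d⟩ : (glue (bondInc J) Y g).D)⟩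
    | ⟨none, d⟩ => ⟨false, d⟩
  invFun
    | ⟨true, t⟩ => ⟨some (show (glue (bondInc J) Y g).D from t).1,
        (show (glue (bondInc J) Y g).D from t).2⟩
    | ⟨false, d⟩ => ⟨none, d⟩
  left_inv := by rintro ⟨_ | j, d⟩ <;> rfl
  right_inv := by rintro ⟨_ | _, d⟩ <;> rfl

/-- the vertex of a glued network given by an interior vertex of one of the networks -/
def iV (Y : J → LNet Λ) (g : Bool → Λ) (j : J) (x : (Y j).Int) : (glue (bondInc J) Y g).Int :=
  ⟨Sum.inr ⟨j, x⟩, fun _ h => by cases h⟩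

/-- vertices -/
def eV (Y : J → LNet Λ) (X : LNet Λ) (g : Bool → Λ) :
    (Bool ⊕ Σ o : Option J, (o.elim X Y : LNet Λ).Int) ≃
      (Bool ⊕ Σ b : Bool, (bif b then glue (bondInc J) Y g else X : LNet Λ).Int) where
  toFun
    | Sum.inl b => Sum.inl b
    | Sum.inr ⟨some j, x⟩ => Sum.inr ⟨true, iV Y g j x⟩
    | Sum.inr ⟨none, x⟩ => Sum.inr ⟨false, x⟩
  invFun
    | Sum.inl b => Sum.inl b
    | Sum.inr ⟨true, ⟨Sum.inl b, h⟩⟩ => absurd rfl (h b)
    | Sum.inr ⟨true, ⟨Sum.inr y, _⟩⟩ => Sum.inr ⟨some y.1, y.2⟩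
    | Sum.inr ⟨false, x⟩ => Sum.inr ⟨none, x⟩
  left_inv := by rintro (b | ⟨_ | j, x⟩) <;> rfl
  right_inv := by
    rintro (b | ⟨_ | _, x⟩)
    · rfl
    · rfl
    · obtain ⟨b | y, h⟩ := x
      · exact absurd rfl (h b)
      · rfl

theorem snoc (Y : J → LNet Λ) (X : LNet Λ) (g g' g'' : Bool → Λ) :
    NIso (glue (bondInc (Option J)) (fun o => o.elim X Y) g)
      (par2 (glue (bondInc J) Y g') X g'') := by
  refine ⟨eD Y X g', eV Y X g', ?_, ?_, fun _ => rfl, ?_⟩
  · rintro ⟨_ | j, d⟩ <;> rfl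
  · rintro ⟨_ | j, d⟩
    · change eV Y X g' (glueInc (bondInc (Option J)) (fun o => o.elim X Y) (Sum.inl ⟨none, d⟩)) =
        glueInc (bondInc Bool) (fun b => bif b then glue (bondInc J) Y g' else X)
          (Sum.inl ⟨false, d⟩)
      by_cases c1 : X.inc (Sum.inl d) = X.pole true
      · rw [GlueLib.inc_true (bondInc (Option J)) (fun o : Option J => o.elim X Y) (i := none) c1,
          GlueLib.inc_true (bondInc Bool) (fun b => bif b then glue (bondInc J) Y g' else X)
            (i := false) c1]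
        rfl
      · by_cases c2 : X.inc (Sum.inl d) = X.pole false
        · rw [GlueLib.inc_false (bondInc (Option J)) (fun o : Option J => o.elim X Y) (i := none)
              c1 c2,
            GlueLib.inc_false (bondInc Bool) (fun b => bif b then glue (bondInc J) Y g' else X)
              (i := false) c1 c2]
          rfl
        · rw [GlueLib.inc_int (bondInc (Option J)) (fun o : Option J => o.elim X Y) (i := none)
              c1 c2,
            GlueLib.inc_int (bondInc Bool) (fun b => bif b then glue (bondInc J) Y g' else X)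
              (i := false) c1 c2]
          rfl
    · change eV Y X g' (glueInc (bondInc (Option J)) (fun o => o.elim X Y)
          (Sum.inl ⟨some j, d⟩)) =
        glueInc (bondInc Bool) (fun b => bif b then glue (bondInc J) Y g' else X)
          (Sum.inl ⟨true, (⟨j, d⟩ : (glue (bondInc J) Y g').D)⟩)
      by_cases c1 : (Y j).inc (Sum.inl d) = (Y j).pole true
      · have h1 : (glue (bondInc J) Y g').inc (Sum.inl ⟨j, d⟩) =
            (glue (bondInc J) Y g').pole true := GlueLib.inc_true (bondInc J) Y c1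
        rw [GlueLib.inc_true (bondInc (Option J)) (fun o : Option J => o.elim X Y) (i := some j) c1,
          GlueLib.inc_true (bondInc Bool) (fun b => bif b then glue (bondInc J) Y g' else X)
            (i := true) h1]
        rfl
      · by_cases c2 : (Y j).inc (Sum.inl d) = (Y j).pole false
        · have h2 : (glue (bondInc J) Y g').inc (Sum.inl ⟨j, d⟩) =
              (glue (bondInc J) Y g').pole false := GlueLib.inc_false (bondInc J) Y c1 c2
          have h1 : ¬ (glue (bondInc J) Y g').inc (Sum.inl ⟨j, d⟩) =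
              (glue (bondInc J) Y g').pole true := by
            rw [h2]
            intro h
            have h3 : (Sum.inl false : Bool ⊕ Σ i, (Y i).Int) = Sum.inl true := h
            cases h3
          rw [GlueLib.inc_false (bondInc (Option J)) (fun o : Option J => o.elim X Y)
              (i := some j) c1 c2,
            GlueLib.inc_false (bondInc Bool) (fun b => bif b then glue (bondInc J) Y g' else X)
              (i := true) h1 h2]
          rfl
        · have h3 : (glue (bondInc J) Y g').inc (Sum.inl ⟨j, d⟩) = Sum.inr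
              ⟨j, ⟨(Y j).inc (Sum.inl d), by rintro (_ | _) <;> assumption⟩⟩ :=
            GlueLib.inc_int (bondInc J) Y c1 c2
          have h1 : ¬ (glue (bondInc J) Y g').inc (Sum.inl ⟨j, d⟩) =
              (glue (bondInc J) Y g').pole true := by
            rw [h3]
            intro h
            cases h
          have h2 : ¬ (glue (bondInc J) Y g').inc (Sum.inl ⟨j, d⟩) =
              (glue (bondInc J) Y g').pole false := by
            rw [h3]
            intro h
            cases h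
          rw [GlueLib.inc_int (bondInc (Option J)) (fun o : Option J => o.elim X Y) (i := some j)
              c1 c2,
            GlueLib.inc_int (bondInc Bool) (fun b => bif b then glue (bondInc J) Y g' else X)
              (i := true) h1 h2]
          change Sum.inr (⟨true, iV Y g' j _⟩ : Σ b : Bool,
            (bif b then glue (bondInc J) Y g' else X : LNet Λ).Int) = Sum.inr ⟨true, _⟩
          congr 2
          exact Subtype.ext h3.symm
  · rintro (b | ⟨_ | j, x⟩) hx
    · exact absurd rfl (hx b)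
    · rfl
    · rfl

/-- exchange of the poles -/
theorem fl_glue (X : J → LNet Λ) (hX : ∀ j, (X j).IsGood) (g g' : Bool → Λ) :
    NIso (LNet.fl true (glue (bondInc J) X g))
      (glue (bondInc J) (fun j => LNet.fl true (X j)) g') := by
  have hp : ∀ (j : J) (x : (X j).V), (∀ b, x ≠ (X j).pole b) ↔
      (∀ b, x ≠ (LNet.fl true (X j)).pole b) := fun j x => (Flip_int true (X j) x).symm
  refine ⟨Equiv.refl _, Equiv.sumCongr Equiv.boolNot
    (Equiv.sigmaCongrRight fun j => Equiv.subtypeEquivRight (hp j)), fun _ => rfl, ?_, ?_, ?_⟩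
  · rintro ⟨j, d⟩
    change (Equiv.sumCongr Equiv.boolNot
      (Equiv.sigmaCongrRight fun j => Equiv.subtypeEquivRight (hp j)))
      (glueInc (bondInc J) X (Sum.inl ⟨j, d⟩)) =
      glueInc (bondInc J) (fun j => LNet.fl true (X j)) (Sum.inl ⟨j, d⟩)
    rcases GlueGood.pole_or (X j) d with ⟨b, hb⟩ | hb
    · have h1 := Par2A.inc_pole X (hX j) hb
      have h2 := Par2A.inc_pole (fun j => LNet.fl true (X j)) (fl_good (hX j)) (d := d) (b := !b)
        (by
          change (X j).inc (Sum.inl d) = (X j).pole (xor true (!b))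
          rw [hb]
          cases b <;> rfl)
      rw [h1, h2]
      rfl
    · have h1 := Par2A.inc_int X hb
      have h2 := Par2A.inc_int (fun j => LNet.fl true (X j)) (d := d) ((hp j _).1 hb)
      rw [h1, h2]
      rfl
  · intro b
    cases b <;> rfl
  · rintro (b | ⟨j, x⟩) hx
    · exfalso
      refine hx (!b) ?_
      cases b <;> rfl
    · rfl

theorem one (N : LNet Λ) (hN : N.pole true ≠ N.pole false) (g : Bool → Λ) :
    NIso (glue (bondInc Unit) (fun _ => N) g) N := by
  have hpi : ∀ b b', N.pole b = N.pole b' → b = b' := by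
    intro b b' h
    cases b <;> cases b'
    · rfl
    · exact absurd h.symm hN
    · exact absurd h hN
    · rfl
  let F : (Bool ⊕ Σ _ : Unit, N.Int) → N.V := fun y => match y with
    | Sum.inl b => N.pole b
    | Sum.inr y => y.2.1
  have hF : Function.Bijective F := by
    constructor
    · rintro (b | ⟨_, x⟩) (b' | ⟨_, x'⟩) h
      · rw [hpi b b' h]
      · exact absurd h.symm (x'.2 b)
      · exact absurd h (x.2 b')
      · have : x = x' := Subtype.ext h
        rw [this]
    · intro v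
      by_cases hv : ∃ b, v = N.pole b
      · obtain ⟨b, rfl⟩ := hv
        exact ⟨Sum.inl b, rfl⟩
      · exact ⟨Sum.inr ⟨(), ⟨v, fun b hb => hv ⟨b, hb⟩⟩⟩, rfl⟩
  refine ⟨Equiv.uniqueSigma (fun _ : Unit => N.D), Equiv.ofBijective F hF, fun _ => rfl, ?_,
    fun _ => rfl, ?_⟩
  · rintro ⟨⟨⟩, d⟩
    change F (glueInc (bondInc Unit) (fun _ => N) (Sum.inl ⟨(), d⟩)) = N.inc (Sum.inl d)
    by_cases c1 : N.inc (Sum.inl d) = N.pole true
    · rw [GlueLib.inc_true (bondInc Unit) (fun _ => N) (i := ()) c1, c1]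
      rfl
    · by_cases c2 : N.inc (Sum.inl d) = N.pole false
      · rw [GlueLib.inc_false (bondInc Unit) (fun _ => N) (i := ()) c1 c2, c2]
        rfl
      · rw [GlueLib.inc_int (bondInc Unit) (fun _ => N) (i := ()) c1 c2]
  · rintro (b | ⟨⟨⟩, x⟩) hx
    · exact absurd rfl (hx b)
    · rfl

/-- gluing depends only on the classes -/
theorem congr {J' : Type} [Fintype J'] [DecidableEq J'] (X : J → LNet Λ) (X' : J' → LNet Λ)
    (g g' : Bool → Λ) (π : J ≃ J') (hX : ∀ j, NIso (X j) (X' (π j))) :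
    NIso (glue (bondInc J) X g) (glue (bondInc J') X' g') :=
  glue_iso _ _ X X' g g' π (fun _ _ => rfl) (fun _ => rfl) hX (fun x hx => absurd rfl (hx x))

end

end Par2

open Par2

/-- write the isomorphism of the darts and vertices down -/
theorem par2_assoc {N X Y : LNet Λ} (h : N.IsGood) (h' : X.IsGood) (h'' : Y.IsGood) (g : Bool → Λ) :
    NIso (par2 (par2 N X g) Y g) (par2 N (par2 X Y g) g) := by
  have h1 := snoc (fun b : Bool => bif b then N else X) Y g g g
  have h2 := snoc (fun b : Bool => bif b then X else Y) N g g g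
  let π : Option Bool ≃ Option Bool :=
    { toFun := fun o => match o with
        | some true => none
        | some false => some true
        | none => some false
      invFun := fun o => match o with
        | some true => some false
        | some false => none
        | none => some true
      left_inv := by rintro (_ | _ | _) <;> rfl
      right_inv := by rintro (_ | _ | _) <;> rfl }
  have h3 : NIso (glue (bondInc (Option Bool)) (fun o => o.elim Y fun b => bif b then N else X) g)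
      (glue (bondInc (Option Bool)) (fun o => o.elim N fun b => bif b then X else Y) g) := by
    refine Par2.congr _ _ g g π ?_
    rintro (_ | _ | _)
    · exact NIso.refl Y
    · exact NIso.refl X
    · exact NIso.refl N
  exact (h1.symm.trans (h3.trans h2)).trans (par2_comm _ _ g)

theorem par2_fl {N X : LNet Λ} (h : N.IsGood) (h' : X.IsGood) (g g' : Bool → Λ) :
    NIso (LNet.fl true (par2 N X g)) (par2 (LNet.fl true N) (LNet.fl true X) g') := by
  have h1 := fl_glue (fun b : Bool => bif b then N else X) (by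
    intro b
    cases b
    · exact h'
    · exact h) g g'
  refine h1.trans (Par2.congr _ _ g' g' (Equiv.refl Bool) ?_)
  intro b
  cases b
  · exact NIso.refl _
  · exact NIso.refl _

/-- adding one network to a bond -/
theorem bond_snoc {J : Type} [Fintype J] [DecidableEq J] (b : Bool) (hb : b = true ∨ Nonempty J)
    (Y : J → LNet Λ) (X : LNet Λ) (hY : ∀ j, (Y j).IsGood) (hX : X.IsGood) (g : Bool → Λ) :
    NIso (bond b (fun j : Option J => j.elim X Y) g) (par2 (bond b Y g) X g) := by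
  cases b
  · exact snoc Y X g g g
  · have h1 := snoc (fun i : Option J => i.elim (edgeNet g) Y) X g g g
    refine NIso.trans ?_ h1
    let π : Option (Option J) ≃ Option (Option J) :=
      { toFun := fun o => match o with
          | none => some none
          | some none => none
          | some (some j) => some (some j)
        invFun := fun o => match o with
          | none => some none
          | some none => none
          | some (some j) => some (some j)
        left_inv := by rintro (_ | _ | _) <;> rfl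
        right_inv := by rintro (_ | _ | _) <;> rfl }
    refine Par2.congr _ _ g g π ?_
    rintro (_ | _ | j)
    · exact NIso.refl (edgeNet g)
    · exact NIso.refl X
    · exact NIso.refl (Y j)

/-- a bond with one network -/
theorem bond_one {J : Type} [Fintype J] [DecidableEq J] (Y : J → LNet Λ) (j : J) (hj : ∀ i, i = j)
    (hY : (Y j).IsGood) (g : Bool → Λ) : NIso (bond false Y g) (Y j) := by
  have h1 := one (Y j) (fun h => by cases Par2A.pole_ne hY h) g
  refine NIso.trans ?_ h1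
  refine Par2.congr Y (fun _ : Unit => Y j) g g
    { toFun := fun _ => (), invFun := fun _ => j, left_inv := fun i => (hj i).symm,
      right_inv := fun _ => rfl } ?_
  intro i
  rw [hj i]
  exact NIso.refl (Y j)

theorem bond_none {J : Type} [Fintype J] [DecidableEq J] [IsEmpty J] (Y : J → LNet Λ)
    (g : Bool → Λ) : NIso (bond true Y g) (edgeNet g) := by
  have h := bond_one (J := Option J) (fun i : Option J => i.elim (edgeNet g) Y) none (by
    rintro (_ | j)
    · rfl
    · exact (IsEmpty.false j).elim) (edgeNet_good g).1 g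
  exact h

end PGr

end

section
/-! # Module Parts: classes of networks and multisets of parts -/

set_option linter.unusedSectionVars false

namespace PGr
open Equiv Finset
open scoped ENNReal Classical
universe u
variable {Λ : Type u}
open NetSumC

/-- `XNet` is invariant under isomorphisms -/
theorem Parts_xnet {N N' : LNet Λ} (h : NIso N N') (hN : XNet N) : XNet N' :=
  ⟨h.good hN.good, h.conn hN.conn, fun hd => hN.dir (h.symm.direct hd)⟩

/-- the class of an `XNet` -/
noncomputable def Parts_xc (N : LNet Λ) (h : XNet N) : XC Λ :=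
  ⟨cls N h.good, Parts_xnet (cls_iso N h.good).symm h⟩

theorem Parts_xc_iso (N : LNet Λ) (h : XNet N) : NIso (Parts_xc N h).1.rep.1 N :=
  cls_iso N h.good

theorem Parts_xc_eq {x : XC Λ} {N : LNet Λ} (h : XNet N) (h' : NIso x.1.rep.1 N) :
    Parts_xc N h = x :=
  Subtype.ext (eq_of_rep ((Parts_xc_iso N h).trans h'.symm))

theorem Parts_ext {x y : XC Λ} (h : NIso x.1.rep.1 y.1.rep.1) : x = y :=
  Subtype.ext (eq_of_rep h)

/-- from `par_dec` -/
theorem exists_parts {N : LNet Λ} (h : N.IsGood) : ∃ m, IsParts N (decide (Direct N)) m := by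
  obtain ⟨J, i1, i2, X, g, hX, hcard, hiso⟩ := par_dec h
  refine ⟨univ.val.map fun j => Parts_xc (X j) (hX j), J, i1, i2,
    fun j => Parts_xc (X j) (hX j), g, ?_, rfl⟩
  have h2 := bond_iso (decide (Direct N)) X (fun j => (Parts_xc (X j) (hX j)).1.rep.1) g g
    (Equiv.refl J) (fun j => (Parts_xc_iso (X j) (hX j)).symm)
  convert hiso.trans h2 using 2

/-- `bond_inj` -/
theorem IsParts.unique {N : LNet Λ} {b b' : Bool} {m m' : Multiset (XC Λ)} (h : IsParts N b m)
    (h' : IsParts N b' m') : b = b' ∧ m = m' := by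
  obtain ⟨J, i1, i2, X, g, hi, hm⟩ := h
  obtain ⟨J', i1', i2', X', g', hi', hm'⟩ := h'
  obtain ⟨h1, π, hπ⟩ := bond_inj b b' (fun j => (X j).1.rep.1) (fun j => (X' j).1.rep.1) g g'
    (fun j => (X j).2) (fun j => (X' j).2) (hi.symm.trans hi')
  refine ⟨h1, ?_⟩
  have h2 : ∀ j, X j = X' (π j) := fun j => Parts_ext (hπ j)
  rw [hm, hm']
  have h3 : (X : J → XC Λ) = X' ∘ π := funext h2
  rw [h3, ← Multiset.map_map, Multiset.map_univ_val_equiv]

/-- `bond_iso`, `exists_equiv_of_map_eq` -/
theorem IsParts.iso {N N' : LNet Λ} {b : Bool} {m : Multiset (XC Λ)} (h : IsParts N b m)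
    (h' : IsParts N' b m) : NIso N N' := by
  obtain ⟨J, i1, i2, X, g, hi, hm⟩ := h
  obtain ⟨J', i1', i2', X', g', hi', hm'⟩ := h'
  obtain ⟨π, hπ⟩ := exists_equiv_of_map_eq X X' (hm.symm.trans hm')
  refine hi.trans (NIso.trans ?_ hi'.symm)
  refine bond_iso b _ _ g g' π fun j => ?_
  rw [hπ j]
  exact NIso.refl _

theorem IsParts.of_iso {N N' : LNet Λ} {b : Bool} {m : Multiset (XC Λ)} (h : IsParts N b m)
    (h' : NIso N' N) : IsParts N' b m := by
  obtain ⟨J, i1, i2, X, g, hi, hm⟩ := h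
  exact ⟨J, i1, i2, X, g, h'.trans hi, hm⟩

/-- the direct edge alone -/
theorem isParts_edge (g : Bool → Λ) : IsParts (edgeNet g) true 0 := by
  refine ⟨Empty, inferInstance, inferInstance, fun j => j.elim, g, ?_, ?_⟩
  · exact (bond_none (fun j : Empty => (Empty.elim j : XC Λ).1.rep.1) g).symm
  · rw [Finset.univ_eq_empty]
    rfl

/-- one part -/
theorem isParts_X {N : LNet Λ} (h : XNet N) : ∃ x : XC Λ, NIso x.1.rep.1 N ∧ IsParts N false {x} := by
  refine ⟨Parts_xc N h, Parts_xc_iso N h, Unit, inferInstance, inferInstance,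
    fun _ => Parts_xc N h, fun b => N.lab (N.pole b), ?_, ?_⟩
  · have h1 := bond_one (fun _ : Unit => (Parts_xc N h).1.rep.1) () (fun _ => rfl)
      (Parts_xc N h).1.rep.2 (fun b => N.lab (N.pole b))
    exact (Parts_xc_iso N h).symm.trans h1.symm
  · rfl

theorem Parts_of_XC (x : XC Λ) : IsParts x.1.rep.1 false {x} := by
  obtain ⟨x', h1, h2⟩ := isParts_X x.2
  rwa [Parts_ext h1] at h2

theorem Parts_nonempty {N : LNet Λ} {b : Bool} {m : Multiset (XC Λ)} (hN : N.IsGood)
    (h : IsParts N b m) : b = true ∨ m ≠ 0 := by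
  obtain ⟨J, i1, i2, X, g, hi, hm⟩ := h
  by_contra hc
  rw [not_or, not_not, Bool.not_eq_true] at hc
  obtain ⟨rfl, rfl⟩ := hc
  have hJ : IsEmpty J := by
    have h1 := hm.symm
    rw [Multiset.map_eq_zero, Finset.val_eq_zero, Finset.univ_eq_empty_iff] at h1
    exact h1
  obtain ⟨e, -⟩ := hi
  obtain ⟨d⟩ := hN.ne
  obtain ⟨i, -⟩ := e d
  exact hJ.false i

theorem Parts_mem {J : Type} [Fintype J] [DecidableEq J] {X : J → XC Λ} {b : Bool}
    (h : b = true ∨ univ.val.map X ≠ 0) : b = true ∨ Nonempty J := by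
  rcases h with h | h
  · exact Or.inl h
  · right
    by_contra hc
    rw [not_nonempty_iff] at hc
    apply h
    rw [Finset.univ_eq_empty]
    rfl

/-- `bond_snoc` -/
theorem IsParts.par2 {N : LNet Λ} {b : Bool} {m : Multiset (XC Λ)} (hN : N.IsGood)
    (h : IsParts N b m) (x : XC Λ) (g : Bool → Λ) :
    IsParts (PGr.par2 N x.1.rep.1 g) b (x ::ₘ m) := by
  have hbm := Parts_nonempty hN h
  obtain ⟨J, i1, i2, X, g0, hi, rfl⟩ := h
  have h1 := bond_snoc b (Parts_mem hbm) (fun j => (X j).1.rep.1) x.1.rep.1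
    (fun j => (X j).1.rep.2) x.1.rep.2 g0
  refine ⟨Option J, inferInstance, inferInstance, fun j => j.elim x X, g0, ?_, ?_⟩
  · have h2 : (fun j : Option J => (j.elim x X : XC Λ).1.rep.1) =
        fun j : Option J => j.elim x.1.rep.1 fun j => (X j).1.rep.1 := by
      funext j
      cases j <;> rfl
    rw [h2]
    exact (par2_iso hi (NIso.refl _) g g0).trans h1.symm
  · rw [univ_option]
    simp [Finset.insertNone]

/-- existence, by induction on the multiset with `par2` -/
theorem exists_of_parts [Nonempty Λ] (b : Bool) (m : Multiset (XC Λ)) (h : b = true ∨ m ≠ 0) :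
    ∃ N : LNet Λ, N.IsGood ∧ IsParts N b m := by
  obtain ⟨l⟩ := (inferInstance : Nonempty Λ)
  induction m using Multiset.induction_on with
  | empty =>
    rcases h with rfl | h
    · exact ⟨edgeNet fun _ => l, (edgeNet_good _).1, isParts_edge _⟩
    · exact absurd rfl h
  | cons x m ih =>
    by_cases hc : b = true ∨ m ≠ 0
    · obtain ⟨N, hN, hp⟩ := ih hc
      refine ⟨par2 N x.1.rep.1 fun _ => l, par2_good hN x.1.rep.2 (fun hd => x.2.dir hd.2) _,
        hp.par2 hN x _⟩
    · rw [not_or, not_not, Bool.not_eq_true] at hc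
      obtain ⟨rfl, rfl⟩ := hc
      exact ⟨x.1.rep.1, x.1.rep.2, Parts_of_XC x⟩

/-- by the uniqueness every network with parts `(b, m) ≠ (false, 0)` is isomorphic to the one of
`exists_of_parts` -/
theorem IsParts.good {N : LNet Λ} {b : Bool} {m : Multiset (XC Λ)} (h : IsParts N b m)
    (hbm : b = true ∨ m ≠ 0) : N.IsGood ∧ (Direct N ↔ b = true) := by
  have hne : Nonempty Λ := by
    obtain ⟨J, i1, i2, X, g, hi, hm⟩ := h
    exact ⟨g true⟩
  obtain ⟨N0, h0, hp⟩ := exists_of_parts b m hbm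
  have hN : N.IsGood := (hp.iso h).good h0
  refine ⟨hN, ?_⟩
  obtain ⟨m', hm'⟩ := exists_parts hN
  obtain ⟨h1, -⟩ := h.unique hm'
  rw [h1, decide_eq_true_iff]

theorem IsParts.wt {N : LNet Λ} {b : Bool} {m : Multiset (XC Λ)} (w : Λ → ℝ≥0∞) (h : IsParts N b m) :
    PGr.wt w N = (m.map fun x => PGr.wt w x.1.rep.1).prod := by
  obtain ⟨J, i1, i2, X, g, hi, rfl⟩ := h
  rw [hi.wt_eq w, wt_bond, Multiset.map_map]
  rfl

theorem IsParts.card {N : LNet Λ} {b : Bool} {m : Multiset (XC Λ)} (h : IsParts N b m) :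
    Fintype.card N.D = (if b then 2 else 0) + (m.map fun x => Fintype.card x.1.rep.1.D).sum := by
  obtain ⟨J, i1, i2, X, g, hi, rfl⟩ := h
  rw [hi.card_eq, Multiset.map_map]
  cases b
  · have h1 : Fintype.card (bond false (fun j => (X j).1.rep.1) g).D =
        Fintype.card (Σ j, (X j).1.rep.1.D) := Fintype.card_congr (Equiv.refl _)
    rw [h1, Fintype.card_sigma, if_neg Bool.false_ne_true, zero_add]
    rfl
  · have h1 : Fintype.card (bond true (fun j => (X j).1.rep.1) g).D =
        Fintype.card (Σ j : Option J, (j.elim (edgeNet g) (fun j => (X j).1.rep.1) : LNet Λ).D) :=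
      Fintype.card_congr (Equiv.refl _)
    rw [h1, Fintype.card_sigma, Fintype.sum_option]
    have h2 : Fintype.card (edgeNet g).D = 2 := Fintype.card_bool
    rw [show (Option.elim none (edgeNet g) fun j => (X j).1.rep.1) = edgeNet g from rfl, h2,
      if_pos rfl]
    rfl

/-- the exchange of the poles on `XC` -/
noncomputable def XC.fl (x : XC Λ) : XC Λ := ⟨x.1.fl, (NC.fl_X x.1).2 x.2⟩

/-- by induction with `par2_fl`, or directly on `bond` -/
theorem IsParts.fl {N : LNet Λ} {b : Bool} {m : Multiset (XC Λ)} (hN : N.IsGood) (h : IsParts N b m) :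
    IsParts (LNet.fl true N) b (m.map XC.fl) := by
  have hne : Nonempty Λ := by
    obtain ⟨J, i1, i2, X, g, hi, hm⟩ := h
    exact ⟨g true⟩
  have hbm := Parts_nonempty hN h
  obtain ⟨l⟩ := hne
  induction m using Multiset.induction_on generalizing N with
  | empty =>
    rcases hbm with rfl | hbm
    · rw [Multiset.map_zero]
      have h1 := h.iso (isParts_edge fun _ => l)
      have h2 : NIso (LNet.fl true (edgeNet fun _ : Bool => l)) (edgeNet fun _ => l) := by
        exact ⟨Equiv.boolNot, Equiv.boolNot, fun _ => rfl, fun _ => rfl,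
          fun c => by cases c <;> rfl, fun _ _ => rfl⟩
      exact (isParts_edge fun _ => l).of_iso ((NIso.fl true h1).trans h2)
    · exact absurd rfl hbm
  | cons x m ih =>
    rw [Multiset.map_cons]
    by_cases hc : b = true ∨ m ≠ 0
    · have : Nonempty Λ := ⟨l⟩
      obtain ⟨N0, h0, hp⟩ := exists_of_parts b m hc
      have h1 := h.iso (hp.par2 h0 x fun _ => l)
      have h2 := par2_fl h0 x.1.rep.2 (fun _ => l) (fun _ => l)
      have h3 : NIso (PGr.par2 (LNet.fl true N0) (LNet.fl true x.1.rep.1) fun _ => l)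
          (PGr.par2 (LNet.fl true N0) (XC.fl x).1.rep.1 fun _ => l) :=
        par2_iso (NIso.refl _) (NC.fl_rep x.1).symm _ _
      exact ((ih h0 hp hc).par2 (fl_good h0) (XC.fl x) fun _ => l).of_iso
        ((NIso.fl true h1).trans (h2.trans h3))
    · rw [not_or, not_not, Bool.not_eq_true] at hc
      obtain ⟨rfl, rfl⟩ := hc
      rw [Multiset.map_zero]
      have h1 := h.iso (Parts_of_XC x)
      exact (Parts_of_XC (XC.fl x)).of_iso ((NIso.fl true h1).trans (NC.fl_rep x.1).symm)

/-- a network with parts `(b, m)` is an `XNet` iff `b = false` and `m` has one element -/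
theorem IsParts.X_iff {N : LNet Λ} {b : Bool} {m : Multiset (XC Λ)} (hN : N.IsGood)
    (h : IsParts N b m) : XNet N ↔ b = false ∧ Multiset.card m = 1 := by
  constructor
  · intro hX
    obtain ⟨x, h1, h2⟩ := isParts_X hX
    obtain ⟨h3, h4⟩ := h.unique h2
    exact ⟨h3, by rw [h4, Multiset.card_singleton]⟩
  · rintro ⟨rfl, h1⟩
    obtain ⟨x, rfl⟩ := Multiset.card_eq_one.1 h1
    exact Parts_xnet ((Parts_of_XC x).iso h) x.2

/-- Classes of networks are the same as pairs `(b, m)` different from `(false, 0)`. -/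
theorem exists_partsEquiv [Nonempty Λ] :
    ∃ Φ : NC Λ ≃ {p : Bool × Multiset (XC Λ) // p.1 = true ∨ p.2 ≠ 0},
      ∀ c, IsParts c.rep.1 (Φ c).1.1 (Φ c).1.2 := by
  choose m hm using fun c : NC Λ => exists_parts c.rep.2
  let φ : NC Λ → {p : Bool × Multiset (XC Λ) // p.1 = true ∨ p.2 ≠ 0} := fun c =>
    ⟨(decide (Direct c.rep.1), m c), Parts_nonempty c.rep.2 (hm c)⟩
  have hφ : ∀ c, IsParts c.rep.1 (φ c).1.1 (φ c).1.2 := hm
  refine ⟨Equiv.ofBijective φ ⟨fun c c' h => ?_, fun p => ?_⟩, fun c => hφ c⟩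
  · have h1 := hφ c
    rw [h] at h1
    exact eq_of_rep (h1.iso (hφ c'))
  · obtain ⟨N, hN, hp⟩ := exists_of_parts p.1.1 p.1.2 p.2
    refine ⟨cls N hN, Subtype.ext ?_⟩
    obtain ⟨h1, h2⟩ := (hφ (cls N hN)).unique (hp.of_iso (cls_iso N hN))
    exact Prod.ext h1 h2

end PGr

end

section
/-! # Module DEq: the generating function of networks in terms of the one of their parts -/

set_option linter.unusedSectionVars false

namespace PGr
open Equiv Finset
open scoped ENNReal Classical
universe u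
variable {Λ : Type u} (w : Λ → ℝ≥0∞)

/-- the weights of the parts -/
noncomputable def wX (x : XC Λ) : ℝ≥0∞ := wt w x.1.rep.1

/-- pairs `(b, m)` -/
abbrev DEq_PS (Λ : Type u) := {p : Bool × Multiset (XC Λ) // p.1 = true ∨ p.2 ≠ 0}

theorem DEq_sum [Nonempty Λ] (P : NC Λ → Prop) (Q : Bool × Multiset (XC Λ) → Prop)
    (h : ∀ (c : NC Λ) b m, IsParts c.rep.1 b m → (P c ↔ Q (b, m))) :
    pN w 1 P + (if Q (false, 0) then 1 else 0) =
      ∑' p : Bool × Multiset (XC Λ), if Q p then (p.2.map (wX w)).prod else 0 := by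
  obtain ⟨Φ, hΦ⟩ := exists_partsEquiv (Λ := Λ)
  have h1 : pN w 1 P = ∑' p : DEq_PS Λ, if Q p.1 then (p.1.2.map (wX w)).prod else 0 := by
    rw [← Φ.tsum_eq]
    unfold pN
    refine tsum_congr fun c => ?_
    have h2 := h c _ _ (hΦ c)
    have h3 := (hΦ c).wt w
    rw [pow_one, h3]
    by_cases hP : P c
    · rw [if_pos hP, if_pos (h2.1 hP)]
      rfl
    · rw [if_neg hP, if_neg (fun hq => hP (h2.2 hq))]
  have h2 : (∑' p : DEq_PS Λ, if Q p.1 then (p.1.2.map (wX w)).prod else 0) =
      ∑' p : Bool × Multiset (XC Λ), if p = (false, 0) then 0 else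
        if Q p then (p.2.map (wX w)).prod else 0 := by
    have h3 := tsum_subtype {p : Bool × Multiset (XC Λ) | p.1 = true ∨ p.2 ≠ 0}
      (fun p => if Q p then (p.2.map (wX w)).prod else 0)
    refine Eq.trans h3 (tsum_congr fun p => ?_)
    rw [Set.indicator_apply]
    by_cases hp : p = (false, 0)
    · rw [if_pos hp, if_neg]
      rintro (h4 | h4)
      · rw [hp] at h4
        exact absurd h4 Bool.false_ne_true
      · rw [hp] at h4
        exact h4 rfl
    · rw [if_neg hp, if_pos]
      by_contra h4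
      apply hp
      rw [Set.mem_ofPred_eq, not_or, not_not, Bool.not_eq_true] at h4
      exact Prod.ext h4.1 h4.2
  rw [h1, h2, ENNReal.tsum_eq_add_tsum_ite ((false, 0) : Bool × Multiset (XC Λ))
    (f := fun p => if Q p then (p.2.map (wX w)).prod else 0), add_comm]
  refine congrArg₂ (· + ·) ?_ (by congr!)
  by_cases hq : Q (false, 0)
  · rw [if_pos hq, if_pos hq, Multiset.map_zero, Multiset.prod_zero]
  · rw [if_neg hq, if_neg hq]

theorem DEq_bool (F : Bool × Multiset (XC Λ) → ℝ≥0∞) :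
    ∑' p, F p = ∑' m, F (false, m) + ∑' m, F (true, m) := by
  rw [ENNReal.tsum_prod', tsum_bool]

/-- `exists_partsEquiv` and `IsParts.wt`: the sum over all pairs `(b, m)` is `2 * MS`, and the pair `(false, 0)`
contributes `1` -/
theorem D_eq [Nonempty Λ] : pD w 1 + 1 = 2 * MS (wX w) := by
  have h := DEq_sum w (fun _ => True) (fun _ => True) (fun _ _ _ _ => Iff.rfl)
  rw [DEq_bool] at h
  simp only [if_true] at h
  rw [two_mul]
  exact h

/-- a network which is isomorphic to its reverse has an invariant multiset of parts -/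
theorem S_eq [Nonempty Λ] : pS w 1 + 1 =
    2 * ∑' m : {m : Multiset (XC Λ) // m.map XC.fl = m}, (m.1.map (wX w)).prod := by
  have h := DEq_sum w (fun c => c.fl = c) (fun p => p.2.map XC.fl = p.2) (fun c b m hp => by
    have h1 := hp.fl c.rep.2
    constructor
    · intro hc
      have h2 : NIso c.rep.1 (LNet.fl true c.rep.1) := by
        have := NC.fl_rep c
        rwa [hc] at this
      exact ((h1.of_iso h2).unique hp).2
    · intro hm
      have hm' : m.map XC.fl = m := hm
      rw [hm'] at h1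
      exact NetSumC.eq_of_rep ((NC.fl_rep c).trans (h1.iso hp)))
  rw [DEq_bool] at h
  have h2 : (∑' m : Multiset (XC Λ), if m.map XC.fl = m then (m.map (wX w)).prod else 0) =
      ∑' m : {m : Multiset (XC Λ) // m.map XC.fl = m}, (m.1.map (wX w)).prod := by
    have h3 := tsum_subtype {m : Multiset (XC Λ) | m.map XC.fl = m}
      (fun m => (m.map (wX w)).prod)
    refine Eq.trans (tsum_congr fun m => ?_) h3.symm
    rw [Set.indicator_apply]
    rfl
  rw [if_pos (Multiset.map_zero _)] at h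
  rw [two_mul, ← h2]
  refine Eq.trans h ?_
  congr!

/-- networks without a direct edge -/
theorem N_eq [Nonempty Λ] : pN w 1 (fun c => ¬ Direct c.rep.1) + 1 = MS (wX w) := by
  have h := DEq_sum w (fun c => ¬ Direct c.rep.1) (fun p => p.1 = false) (fun c b m hp => by
    have h1 := (hp.good (Parts_nonempty c.rep.2 hp)).2
    rw [h1, Bool.not_eq_true])
  rw [DEq_bool] at h
  rw [if_pos rfl] at h
  rw [h]
  simp [MS]

theorem DEq_card {N : LNet Λ} (h : N.IsGood) : 2 ≤ Fintype.card N.D := by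
  obtain ⟨d⟩ := h.ne
  have h1 : ({d, N.a d} : Finset N.D).card = 2 := Finset.card_pair (h.fpf d).symm
  rw [← h1]
  exact Finset.card_le_univ _

/-- the networks with at least two parts: `1` is the single edge -/
theorem D_split [Nonempty Λ] : pD w 1 = 1 + pN w 1 NC.IsX +
    pN w 1 (fun c => 4 ≤ Fintype.card c.rep.1.D ∧ ¬ c.IsX) := by
  obtain ⟨l⟩ := (inferInstance : Nonempty Λ)
  set e : NC Λ := NetSumC.cls (edgeNet fun _ => l) (edgeNet_good _).1 with he
  have hep : IsParts e.rep.1 true 0 := (isParts_edge _).of_iso (NetSumC.cls_iso _ _)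
  have hec : Fintype.card e.rep.1.D = 2 := by
    rw [hep.card]
    simp
  have heX : ¬ e.IsX := by
    intro h
    have := (hep.X_iff e.rep.2).1 h
    exact absurd this.1.symm Bool.false_ne_true
  have hew : wt w e.rep.1 = 1 := by
    rw [hep.wt w]
    simp
  have hother : ∀ c : NC Λ, c ≠ e → ¬ c.IsX → 4 ≤ Fintype.card c.rep.1.D := by
    intro c hc hX
    obtain ⟨m, hm⟩ := exists_parts c.rep.2
    have hne := Parts_nonempty c.rep.2 hm
    have hcard := hm.card
    have hXi := hm.X_iff c.rep.2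
    generalize decide (Direct c.rep.1) = b at hm hne hcard hXi
    have hsum : ∀ m : Multiset (XC Λ), 2 * Multiset.card m ≤
        (m.map fun x => Fintype.card x.1.rep.1.D).sum := by
      intro m
      induction m using Multiset.induction_on with
      | empty => simp
      | cons x m ih =>
        rw [Multiset.map_cons, Multiset.sum_cons, Multiset.card_cons]
        have := DEq_card x.1.rep.2
        omega
    have h1 := hsum m
    cases b
    · rw [if_neg Bool.false_ne_true] at hcard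
      have h2 : Multiset.card m ≠ 0 := by
        intro h3
        rw [Multiset.card_eq_zero] at h3
        rcases hne with h4 | h4
        · exact absurd h4 Bool.false_ne_true
        · exact h4 h3
      have h3 : Multiset.card m ≠ 1 := fun h3 => hX (hXi.2 ⟨rfl, h3⟩)
      omega
    · rw [if_pos rfl] at hcard
      have h2 : Multiset.card m ≠ 0 := by
        intro h3
        rw [Multiset.card_eq_zero] at h3
        subst h3
        exact hc (NetSumC.eq_of_rep (hm.iso hep))
      omega
  have h1 : ∀ c : NC Λ, wt w c.rep.1 ^ 1 = ((if c = e then 1 else 0) +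
      if c.IsX then wt w c.rep.1 ^ 1 else 0) +
      if 4 ≤ Fintype.card c.rep.1.D ∧ ¬ c.IsX then wt w c.rep.1 ^ 1 else 0 := by
    intro c
    by_cases hc : c = e
    · rw [hc, if_pos rfl, if_neg heX, if_neg (fun h => by rw [hec] at h; omega), hew]
      simp
    · by_cases hX : c.IsX
      · rw [if_neg hc, if_pos hX, if_neg (fun h => h.2 hX)]
        simp
      · rw [if_neg hc, if_neg hX, if_pos ⟨hother c hc hX, hX⟩]
        simp
  unfold pD pN
  simp only [if_true]
  rw [tsum_congr h1, ENNReal.tsum_add, ENNReal.tsum_add, tsum_ite_eq]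
  congr!

end PGr

end

section
/-! # Module MSxA: exponential formula for multisets -/

set_option linter.unusedSectionVars false

namespace PGr
open Equiv Finset
open scoped ENNReal Classical

namespace MSxA

/-- the logarithm `-log (1 - x)` -/
noncomputable def lg (x : ℝ≥0∞) : ℝ≥0∞ := ∑' k : ℕ, x ^ (k + 1) / ((k + 1 : ℕ) : ℝ≥0∞)

theorem lg_eq {x : ℝ≥0∞} (hx : x < 1) : lg x = ENNReal.ofReal (- Real.log (1 - x.toReal)) := by
  have hfin : x ≠ ⊤ := ne_top_of_lt hx
  have h1 : x.toReal < 1 := by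
    have := (ENNReal.toReal_lt_toReal hfin ENNReal.one_ne_top).mpr hx
    simpa using this
  have h0 : 0 ≤ x.toReal := ENNReal.toReal_nonneg
  have h2 := Real.hasSum_pow_div_log_of_abs_lt_one (x := x.toReal) (by rw [abs_of_nonneg h0]; exact h1)
  rw [← h2.tsum_eq, ENNReal.ofReal_tsum_of_nonneg (fun n => by positivity) h2.summable]
  unfold lg
  refine tsum_congr fun k => ?_
  rw [ENNReal.ofReal_div_of_pos (by positivity), ENNReal.ofReal_pow h0, ENNReal.ofReal_toReal hfin]
  congr 1
  have : ((k : ℝ) + 1) = ((k + 1 : ℕ) : ℝ) := by push_cast; ring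
  rw [this, ENNReal.ofReal_natCast]

theorem lg_ne_top {x : ℝ≥0∞} (hx : x < 1) : lg x ≠ ⊤ := by
  rw [lg_eq hx]; exact ENNReal.ofReal_ne_top

theorem exp_lg {x : ℝ≥0∞} (hx : x < 1) : (1 - x)⁻¹ = ENNReal.ofReal (Real.exp (lg x).toReal) := by
  have hfin : x ≠ ⊤ := ne_top_of_lt hx
  have h1 : x.toReal < 1 := by
    have := (ENNReal.toReal_lt_toReal hfin ENNReal.one_ne_top).mpr hx
    simpa using this
  have h0 : 0 ≤ x.toReal := ENNReal.toReal_nonneg
  have h2 : 0 ≤ - Real.log (1 - x.toReal) := by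
    rw [neg_nonneg]
    exact Real.log_nonpos (by linarith) (by linarith)
  rw [lg_eq hx, ENNReal.toReal_ofReal h2, Real.exp_neg, Real.exp_log (by linarith),
    ENNReal.ofReal_inv_of_pos (by linarith), ENNReal.ofReal_sub _ h0, ENNReal.ofReal_one,
    ENNReal.ofReal_toReal hfin]

theorem lg_le {x : ℝ≥0∞} (hx : x ≤ 2⁻¹) : lg x ≤ 2 * x := by
  have h1 : ∀ k : ℕ, x ^ (k + 1) / ((k + 1 : ℕ) : ℝ≥0∞) ≤ x * (2⁻¹) ^ k := by
    intro k
    calc x ^ (k + 1) / ((k + 1 : ℕ) : ℝ≥0∞) ≤ x ^ (k + 1) / 1 := by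
          refine ENNReal.div_le_div_left ?_ _
          exact_mod_cast Nat.succ_le_succ (Nat.zero_le k)
      _ = x ^ (k + 1) := div_one _
      _ = x * x ^ k := pow_succ' x k
      _ ≤ x * (2⁻¹) ^ k := by gcongr
  calc lg x ≤ ∑' k : ℕ, x * (2⁻¹) ^ k := ENNReal.tsum_le_tsum h1
    _ = x * 2 := by rw [ENNReal.tsum_mul_left, ENNReal.tsum_geometric, ENNReal.one_sub_inv_two, inv_inv]
    _ = 2 * x := mul_comm _ _

theorem sum_lg {ι : Type*} (f : ι → ℝ≥0∞) :
    ∑' k : ℕ, (∑' i, f i ^ (k + 1)) / ((k + 1 : ℕ) : ℝ≥0∞) = ∑' i, lg (f i) := by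
  unfold lg
  rw [ENNReal.tsum_comm]
  refine tsum_congr fun k => ?_
  simp_rw [div_eq_mul_inv]
  rw [ENNReal.tsum_mul_right]

theorem sum_lg_ne_top {ι : Type*} (f : ι → ℝ≥0∞) (hf : ∀ i, f i < 1) (hs : ∑' i, f i ≠ ⊤) :
    ∑' i, lg (f i) ≠ ⊤ := by
  have hfin : {i | (2⁻¹ : ℝ≥0∞) ≤ f i}.Finite :=
    ENNReal.finite_const_le_of_tsum_ne_top hs (by simp)
  set s := hfin.toFinset with hsdef
  have h1 : ∀ i, lg (f i) ≤ (if i ∈ s then lg (f i) else 0) + 2 * f i := by
    intro i
    by_cases hi : i ∈ s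
    · rw [if_pos hi]; exact le_self_add
    · rw [if_neg hi, zero_add]
      apply lg_le
      rw [hsdef, Set.Finite.mem_toFinset, Set.mem_ofPred_eq, not_le] at hi
      exact hi.le
  refine ne_top_of_le_ne_top ?_ (ENNReal.tsum_le_tsum h1)
  rw [ENNReal.tsum_add, ENNReal.tsum_mul_left, ENNReal.add_ne_top]
  refine ⟨?_, ENNReal.mul_ne_top (by simp) hs⟩
  rw [tsum_eq_sum (s := s) (fun i hi => if_neg hi)]
  refine ENNReal.sum_ne_top.mpr fun i hi => ?_
  rw [if_pos hi]
  exact lg_ne_top (hf i)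

/-- multisets supported in `insert a s` -/
noncomputable def insEquiv {ι : Type*} (a : ι) (s : Finset ι) (ha : a ∉ s) :
    {m : Multiset ι // m.toFinset ⊆ insert a s} ≃ ℕ × {m : Multiset ι // m.toFinset ⊆ s} where
  toFun m := (m.1.count a, ⟨m.1.filter (· ≠ a), by
    intro i hi
    rw [Multiset.mem_toFinset, Multiset.mem_filter] at hi
    have := m.2 (Multiset.mem_toFinset.mpr hi.1)
    rw [Finset.mem_insert] at this
    exact this.resolve_left hi.2⟩)
  invFun p := ⟨Multiset.replicate p.1 a + p.2.1, by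
    intro i hi
    rw [Multiset.mem_toFinset, Multiset.mem_add] at hi
    rw [Finset.mem_insert]
    rcases hi with hi | hi
    · exact Or.inl (Multiset.eq_of_mem_replicate hi)
    · exact Or.inr (p.2.2 (Multiset.mem_toFinset.mpr hi))⟩
  left_inv m := by
    apply Subtype.ext
    show Multiset.replicate (m.1.count a) a + m.1.filter (· ≠ a) = m.1
    rw [← Multiset.filter_eq' m.1 a]
    exact Multiset.filter_add_not _ _
  right_inv p := by
    have h1 : a ∉ p.2.1 := fun h => ha (p.2.2 (Multiset.mem_toFinset.mpr h))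
    refine Prod.ext ?_ (Subtype.ext ?_)
    · show (Multiset.replicate p.1 a + p.2.1).count a = p.1
      rw [Multiset.count_add, Multiset.count_replicate_self, Multiset.count_eq_zero_of_notMem h1, add_zero]
    · show (Multiset.replicate p.1 a + p.2.1).filter (· ≠ a) = p.2.1
      rw [Multiset.filter_add, Multiset.filter_eq_nil.mpr, zero_add, Multiset.filter_eq_self.mpr]
      · intro i hi he
        exact h1 (he ▸ hi)
      · intro i hi he
        exact he (Multiset.eq_of_mem_replicate hi)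

theorem prod_supp {ι : Type*} (f : ι → ℝ≥0∞) (s : Finset ι) :
    ∑' m : {m : Multiset ι // m.toFinset ⊆ s}, (m.1.map f).prod = ∏ i ∈ s, (1 - f i)⁻¹ := by
  induction s using Finset.induction_on with
  | empty =>
    rw [Finset.prod_empty, tsum_eq_single (⟨0, by simp⟩ : {m : Multiset ι // m.toFinset ⊆ ∅})]
    · simp
    · intro m hm
      exfalso
      apply hm
      apply Subtype.ext
      have := m.2
      rw [Finset.subset_empty, Multiset.toFinset_eq_empty] at this
      exact this
  | insert a s ha ih =>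
    rw [← (insEquiv a s ha).symm.tsum_eq, Finset.prod_insert ha, ← ih, ENNReal.tsum_prod',
      ← ENNReal.tsum_geometric, ← ENNReal.tsum_mul_right]
    refine tsum_congr fun k => ?_
    rw [← ENNReal.tsum_mul_left]
    refine tsum_congr fun m => ?_
    show ((Multiset.replicate k a + m.1).map f).prod = _
    rw [Multiset.map_add, Multiset.prod_add, Multiset.map_replicate, Multiset.prod_replicate]

theorem MS_eq_iSup {ι : Type*} (f : ι → ℝ≥0∞) :
    MS f = ⨆ s : Finset ι, ∏ i ∈ s, (1 - f i)⁻¹ := by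
  apply le_antisymm
  · unfold MS
    rw [ENNReal.tsum_eq_iSup_sum]
    refine iSup_le fun F => ?_
    refine le_trans ?_ (le_iSup _ (F.sup Multiset.toFinset))
    rw [← prod_supp]
    have h1 := tsum_subtype {m : Multiset ι | m.toFinset ⊆ F.sup Multiset.toFinset}
      (fun m => (m.map f).prod)
    refine le_trans ?_ h1.ge
    refine le_trans (Finset.sum_le_sum fun m hm => ?_) (ENNReal.sum_le_tsum F)
    have h2 : m ∈ {m : Multiset ι | m.toFinset ⊆ F.sup Multiset.toFinset} :=
      Finset.le_sup (f := Multiset.toFinset) hm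
    rw [Set.indicator_of_mem h2]
  · refine iSup_le fun s => ?_
    rw [← prod_supp]
    exact ENNReal.tsum_comp_le_tsum_of_injective Subtype.val_injective _

end MSxA

/-- `MS f = ∏ (1 - f i)⁻¹ = exp (∑ (∑ f i ^ k) / k)`.
Proof: for a finite index set, `MS f = ∏ ∑ₖ f i ^ k` and `-log (1 - x) = ∑ x ^ k / k` (`Real.hasSum_pow_div_log_of_abs_lt_one`).
In general take the supremum over the finite subsets `F` of indices (the multisets supported in `F`; both sides are
monotone and continuous from below: `ENNReal.tsum_eq_iSup_sum` and monotone convergence in `k`).  Work with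
`L f := ∑' k, (∑' i, f i ^ (k+1)) / (k+1)` in `ℝ≥0∞` and the extension of `exp`. -/
theorem MS_exp {ι : Type*} (f : ι → ℝ≥0∞) (hf : ∀ i, f i < 1) (hs : ∑' i, f i ≠ ⊤) :
    (∑' k : ℕ, (∑' i, f i ^ (k + 1)) / ((k + 1 : ℕ) : ℝ≥0∞)) ≠ ⊤ ∧
    MS f = ENNReal.ofReal (Real.exp
      (∑' k : ℕ, (∑' i, f i ^ (k + 1)) / ((k + 1 : ℕ) : ℝ≥0∞)).toReal) := by
  rw [MSxA.sum_lg]
  have hL := MSxA.sum_lg_ne_top f hf hs
  refine ⟨hL, ?_⟩
  rw [MSxA.MS_eq_iSup]
  have h1 : ∀ s : Finset ι, ∏ i ∈ s, (1 - f i)⁻¹ =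
      ENNReal.ofReal (Real.exp (∑ i ∈ s, MSxA.lg (f i)).toReal) := by
    intro s
    rw [ENNReal.toReal_sum fun i _ => MSxA.lg_ne_top (hf i), Real.exp_sum,
      ENNReal.ofReal_prod_of_nonneg fun i _ => (Real.exp_pos _).le]
    exact Finset.prod_congr rfl fun i _ => MSxA.exp_lg (hf i)
  have hmono : Monotone fun s : Finset ι => ∏ i ∈ s, (1 - f i)⁻¹ := by
    intro s t hst
    show ∏ i ∈ s, (1 - f i)⁻¹ ≤ ∏ i ∈ t, (1 - f i)⁻¹
    refine Finset.prod_le_prod_of_subset_of_one_le' hst fun i _ _ => ?_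
    rw [ENNReal.one_le_inv]
    exact tsub_le_self
  refine tendsto_nhds_unique (tendsto_atTop_iSup hmono) ?_
  simp_rw [h1]
  refine ENNReal.tendsto_ofReal ?_
  refine (Real.continuous_exp.tendsto _).comp ?_
  exact (ENNReal.tendsto_toReal hL).comp ENNReal.summable.hasSum

end PGr

end

section
/-! # Module MSx: exponential formula for invariant multisets -/

set_option linter.unusedSectionVars false

namespace PGr
open Equiv Finset
open scoped ENNReal Classical

namespace MSx

variable {ι : Type*}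

/-- the orbits of `τ` -/
def std (τ : ι → ι) (hτ : ∀ i, τ (τ i) = i) : Setoid ι where
  r i j := i = j ∨ i = τ j
  iseqv := {
    refl := fun i => Or.inl rfl
    symm := by
      rintro i j (h | h)
      · exact Or.inl h.symm
      · exact Or.inr (by rw [h, hτ])
    trans := by
      rintro i j k (h | h) (h' | h')
      · exact Or.inl (h.trans h')
      · exact Or.inr (h.trans h')
      · exact Or.inr (by rw [h, h'])
      · exact Or.inl (by rw [h, h', hτ]) }

/-- the elements of an orbit -/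
noncomputable def orb (τ : ι → ι) (hτ : ∀ i, τ (τ i) = i) (q : Quotient (std τ hτ)) : Multiset ι :=
  if τ q.out = q.out then {q.out} else {q.out, τ q.out}

theorem mk_eq (τ : ι → ι) (hτ : ∀ i, τ (τ i) = i) (i j : ι) :
    Quotient.mk (std τ hτ) i = Quotient.mk (std τ hτ) j ↔ i = j ∨ i = τ j := Quotient.eq

theorem mk_tau (τ : ι → ι) (hτ : ∀ i, τ (τ i) = i) (i : ι) :
    Quotient.mk (std τ hτ) (τ i) = Quotient.mk (std τ hτ) i := by
  rw [mk_eq]; exact Or.inr rfl

theorem count_orb (τ : ι → ι) (hτ : ∀ i, τ (τ i) = i) (q : Quotient (std τ hτ)) (i : ι) :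
    (orb τ hτ q).count i = if Quotient.mk (std τ hτ) i = q then 1 else 0 := by
  have h0 : Quotient.mk (std τ hτ) i = q ↔ i = q.out ∨ i = τ q.out := by
    rw [← mk_eq τ hτ, Quotient.out_eq]
  unfold orb
  split_ifs with h1 h2 h2
  · rw [h0, h1, or_self] at h2
    rw [h2]; simp
  · rw [h0, h1, or_self] at h2
    rw [Multiset.count_singleton, if_neg h2]
  · rw [h0] at h2
    rw [Multiset.insert_eq_cons, Multiset.count_cons, Multiset.count_singleton]
    rcases h2 with h2 | h2
    · have h3 : i ≠ τ q.out := fun h => h1 (h.symm.trans h2)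
      rw [if_neg h3, if_pos h2]
    · have h3 : i ≠ q.out := fun h => h1 (h2.symm.trans h)
      rw [if_neg h3, if_pos h2]
  · rw [h0, not_or] at h2
    rw [Multiset.insert_eq_cons, Multiset.count_cons, Multiset.count_singleton, if_neg h2.1,
      if_neg h2.2]

theorem count_bind_orb (τ : ι → ι) (hτ : ∀ i, τ (τ i) = i) (M : Multiset (Quotient (std τ hτ)))
    (i : ι) : (M.bind (orb τ hτ)).count i = M.count (Quotient.mk (std τ hτ) i) := by
  rw [Multiset.count_bind]
  induction M using Multiset.induction_on with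
  | empty => simp
  | cons a M ih => 
    rw [Multiset.map_cons, Multiset.sum_cons, ih, count_orb, Multiset.count_cons, add_comm]

theorem count_map_tau (τ : ι → ι) (hτ : ∀ i, τ (τ i) = i) (m : Multiset ι) (i : ι) :
    (m.map τ).count i = m.count (τ i) := by
  have hinj : Function.Injective τ := fun a b h => by rw [← hτ a, h, hτ]
  conv_lhs => rw [← hτ i]
  exact Multiset.count_map_eq_count' τ m hinj (τ i)

/-- invariant multisets are multisets of orbits -/
noncomputable def eqv (τ : ι → ι) (hτ : ∀ i, τ (τ i) = i) :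
    Multiset (Quotient (std τ hτ)) ≃ {m : Multiset ι // m.map τ = m} :=
  Equiv.ofBijective (fun M => ⟨M.bind (orb τ hτ), by
    ext i
    rw [count_map_tau τ hτ, count_bind_orb, count_bind_orb, mk_tau]⟩) (by
    constructor
    · intro M N h
      have h1 : M.bind (orb τ hτ) = N.bind (orb τ hτ) := congrArg Subtype.val h
      ext q
      induction q using Quotient.inductionOn with
      | h i => rw [← count_bind_orb, h1, count_bind_orb]
    · intro m
      refine ⟨∑ q ∈ m.1.toFinset.image (Quotient.mk (std τ hτ)), m.1.count q.out • {q}, ?_⟩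
      apply Subtype.ext
      ext i
      rw [count_bind_orb, Multiset.count_sum']
      have h1 : m.1.count (Quotient.mk (std τ hτ) i).out = m.1.count i := by
        have h2 : (Quotient.mk (std τ hτ) i).out = i ∨ (Quotient.mk (std τ hτ) i).out = τ i := by
          rw [← mk_eq τ hτ, Quotient.out_eq]
        rcases h2 with h2 | h2
        · rw [h2]
        · rw [h2, ← count_map_tau τ hτ, m.2]
      simp_rw [Multiset.count_nsmul, Multiset.count_singleton]
      by_cases hi : Quotient.mk (std τ hτ) i ∈ m.1.toFinset.image (Quotient.mk (std τ hτ))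
      · rw [Finset.sum_eq_single_of_mem _ hi]
        · rw [if_pos rfl, mul_one, h1]
        · intro q _ hq
          rw [if_neg hq.symm, mul_zero]
      · rw [Finset.sum_eq_zero]
        · symm
          rw [Multiset.count_eq_zero]
          intro h
          exact hi (Finset.mem_image_of_mem _ (Multiset.mem_toFinset.mpr h))
        · intro q hq
          have : Quotient.mk (std τ hτ) i ≠ q := fun h => hi (h ▸ hq)
          rw [if_neg this, mul_zero])

theorem sum_inv (f : ι → ℝ≥0∞) (τ : ι → ι) (hτ : ∀ i, τ (τ i) = i) :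
    ∑' m : {m : Multiset ι // m.map τ = m}, (m.1.map f).prod =
      MS fun q => ((orb τ hτ q).map f).prod := by
  rw [← (eqv τ hτ).tsum_eq]
  unfold MS
  refine tsum_congr fun M => ?_
  show ((M.bind (orb τ hτ)).map f).prod = _
  rw [Multiset.map_bind, Multiset.prod_bind]

theorem sum_orb (τ : ι → ι) (hτ : ∀ i, τ (τ i) = i) (F : ι → ℝ≥0∞) :
    ∑' i, F i = ∑' q, ((orb τ hτ q).map F).sum := by
  have h1 : ∀ i, F i = ∑' q, if Quotient.mk (std τ hτ) i = q then F i else 0 := by
    intro i
    rw [tsum_eq_single (Quotient.mk (std τ hτ) i)]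
    · rw [if_pos rfl]
    · intro q hq
      rw [if_neg hq.symm]
  rw [tsum_congr h1, ENNReal.tsum_comm]
  refine tsum_congr fun q => ?_
  have h0 : ∀ i, Quotient.mk (std τ hτ) i = q ↔ i = q.out ∨ i = τ q.out := by
    intro i
    rw [← mk_eq τ hτ, Quotient.out_eq]
  unfold orb
  split_ifs with h2
  · rw [Multiset.map_singleton, Multiset.sum_singleton, tsum_eq_single q.out]
    · rw [if_pos ((h0 _).mpr (Or.inl rfl))]
    · intro i hi
      rw [if_neg]
      rw [h0, h2, or_self]
      exact hi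
  · rw [Multiset.insert_eq_cons, Multiset.map_cons, Multiset.sum_cons, Multiset.map_singleton,
      Multiset.sum_singleton, tsum_eq_sum (s := {q.out, τ q.out}), Finset.sum_pair (Ne.symm h2),
      if_pos ((h0 _).mpr (Or.inl rfl)), if_pos ((h0 _).mpr (Or.inr rfl))]
    intro i hi
    rw [if_neg]
    rw [h0]
    simpa using hi

end MSx

/-- multisets invariant under an involution `τ` preserving the weights: a product over the fixed elements of
`(1 - f i)⁻¹` and over the pairs `{i, τ i}` of `(1 - f i ^ 2)⁻¹`; the logarithm is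
`∑ₖ (1/k) (k odd: ∑_{τ i = i} f i ^ k; k even: ∑ᵢ f i ^ k)`.  Here `k + 1` is the exponent. -/
theorem MS_inv_exp {ι : Type*} (f : ι → ℝ≥0∞) (τ : ι → ι) (hτ : ∀ i, τ (τ i) = i)
    (hfτ : ∀ i, f (τ i) = f i) (hf : ∀ i, f i < 1) (hs : ∑' i, f i ≠ ⊤) :
    (∑' k : ℕ, (if Even k then ∑' i, (if τ i = i then f i ^ (k + 1) else 0) else
      ∑' i, f i ^ (k + 1)) / ((k + 1 : ℕ) : ℝ≥0∞)) ≠ ⊤ ∧
    ∑' m : {m : Multiset ι // m.map τ = m}, (m.1.map f).prod = ENNReal.ofReal (Real.exp
      (∑' k : ℕ, (if Even k then ∑' i, (if τ i = i then f i ^ (k + 1) else 0) else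
        ∑' i, f i ^ (k + 1)) / ((k + 1 : ℕ) : ℝ≥0∞)).toReal) := by
  set g : Quotient (MSx.std τ hτ) → ℝ≥0∞ := fun q => ((MSx.orb τ hτ q).map f).prod with hg
  have hgq : ∀ q, g q = if τ q.out = q.out then f q.out else f q.out ^ 2 := by
    intro q
    rw [hg]
    show ((MSx.orb τ hτ q).map f).prod = _
    unfold MSx.orb
    split_ifs with h
    · simp
    · rw [Multiset.insert_eq_cons, Multiset.map_cons, Multiset.prod_cons, Multiset.map_singleton,
        Multiset.prod_singleton, hfτ, sq]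
  have hg1 : ∀ q, g q < 1 := by
    intro q
    rw [hgq]
    split_ifs with h
    · exact hf _
    · exact pow_lt_one₀ zero_le (hf _) (by norm_num)
  have hg2 : ∑' q, g q ≠ ⊤ := by
    refine ne_top_of_le_ne_top hs ?_
    rw [MSx.sum_orb τ hτ f]
    refine ENNReal.tsum_le_tsum fun q => ?_
    rw [hgq]
    unfold MSx.orb
    split_ifs with h
    · simp
    · rw [Multiset.insert_eq_cons, Multiset.map_cons, Multiset.sum_cons, sq]
      refine le_trans ?_ le_self_add
      calc f q.out * f q.out ≤ f q.out * 1 := by gcongr; exact (hf _).le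
        _ = f q.out := mul_one _
  have hkey : (∑' k : ℕ, (if Even k then ∑' i, (if τ i = i then f i ^ (k + 1) else 0) else
      ∑' i, f i ^ (k + 1)) / ((k + 1 : ℕ) : ℝ≥0∞)) =
      ∑' k : ℕ, (∑' q, g q ^ (k + 1)) / ((k + 1 : ℕ) : ℝ≥0∞) := by
    rw [MSxA.sum_lg]
    have h1 : ∀ k : ℕ, (if Even k then ∑' i, (if τ i = i then f i ^ (k + 1) else 0) else
        ∑' i, f i ^ (k + 1)) / ((k + 1 : ℕ) : ℝ≥0∞) =
        ∑' q : Quotient (MSx.std τ hτ), (if τ q.out = q.out then f q.out ^ (k + 1) else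
          if Even k then 0 else 2 * f q.out ^ (k + 1)) / ((k + 1 : ℕ) : ℝ≥0∞) := by
      intro k
      simp_rw [div_eq_mul_inv]
      rw [ENNReal.tsum_mul_right]
      congr 1
      split_ifs with hk
      · rw [MSx.sum_orb τ hτ]
        refine tsum_congr fun q => ?_
        unfold MSx.orb
        split_ifs with h
        · simp [h]
        · rw [Multiset.insert_eq_cons, Multiset.map_cons, Multiset.sum_cons, Multiset.map_singleton,
            Multiset.sum_singleton, if_neg h, if_neg, add_zero]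
          rw [hτ]; exact fun h' => h h'.symm
      · rw [MSx.sum_orb τ hτ]
        refine tsum_congr fun q => ?_
        unfold MSx.orb
        split_ifs with h
        · simp
        · rw [Multiset.insert_eq_cons, Multiset.map_cons, Multiset.sum_cons, Multiset.map_singleton,
            Multiset.sum_singleton, hfτ, two_mul]
    rw [tsum_congr h1, ENNReal.tsum_comm]
    refine tsum_congr fun q => ?_
    rw [hgq]
    unfold MSxA.lg
    split_ifs with h
    · rfl
    · have hodd : Function.Injective fun j : ℕ => 2 * j + 1 := fun a b h => by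
        simpa using h
      rw [← hodd.tsum_eq]
      · refine tsum_congr fun j => ?_
        show (if Even (2 * j + 1) then 0 else 2 * f q.out ^ (2 * j + 1 + 1)) / ((2 * j + 1 + 1 : ℕ) : ℝ≥0∞) = _
        rw [if_neg (by simp), ← pow_mul, show 2 * j + 1 + 1 = 2 * (j + 1) by ring]
        rw [Nat.cast_mul, Nat.cast_ofNat, ENNReal.mul_div_mul_left _ _ (by simp) (by simp)]
      · intro k hk
        rw [Function.mem_support] at hk
        by_contra hc
        apply hk
        have : Even k := by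
          by_contra he
          rw [Nat.not_even_iff_odd] at he
          obtain ⟨j, hj⟩ := he
          exact hc ⟨j, hj.symm⟩
        rw [if_pos this, ENNReal.zero_div]
  rw [hkey, MSx.sum_inv f τ hτ]
  exact MS_exp g hg1 hg2

end PGr

end

section
/-! # Module DExp: the equations for all networks, in exponential form -/

set_option linter.unusedSectionVars false

namespace PGr
open Equiv Finset
open scoped ENNReal Classical
universe u
variable {Λ : Type u} (w : Λ → ℝ≥0∞)

namespace DExp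

theorem ms_single {ι : Type*} (f : ι → ℝ≥0∞) : ∑' i, f i ≤ MS f := by
  unfold MS
  have h := ENNReal.tsum_comp_le_tsum_of_injective (f := fun i : ι => ({i} : Multiset ι))
    (fun i j h => Multiset.singleton_inj.1 h) (fun m : Multiset ι => (m.map f).prod)
  refine le_trans (le_of_eq (tsum_congr fun i => ?_)) h
  simp

theorem ms_pow {ι : Type*} (f : ι → ℝ≥0∞) (i : ι) : ∑' n : ℕ, f i ^ n ≤ MS f := by
  unfold MS
  have h := ENNReal.tsum_comp_le_tsum_of_injective (f := fun n : ℕ => Multiset.replicate n i)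
    (fun n m h => by simpa using congrArg Multiset.card h)
    (fun m : Multiset ι => (m.map f).prod)
  refine le_trans (le_of_eq (tsum_congr fun n => ?_)) h
  simp

theorem ms_lt {ι : Type*} (f : ι → ℝ≥0∞) (h : MS f ≠ ⊤) (i : ι) : f i < 1 := by
  by_contra hc
  rw [not_lt] at hc
  apply h
  refine top_le_iff.1 (le_trans (le_of_eq ?_) (ms_pow f i))
  symm
  rw [← top_le_iff]
  calc (⊤ : ℝ≥0∞) = ∑' n : ℕ, (1 : ℝ≥0∞) := by rw [ENNReal.tsum_const_eq_top_of_ne_zero one_ne_zero]
    _ ≤ ∑' n : ℕ, f i ^ n := ENNReal.tsum_le_tsum fun n => one_le_pow₀ hc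

theorem ms_fin [Nonempty Λ] (h : pD w 1 ≠ ⊤) : MS (wX w) ≠ ⊤ := by
  intro h1
  have h2 := D_eq w
  rw [h1] at h2
  have h3 : pD w 1 + 1 ≠ ⊤ := ENNReal.add_ne_top.2 ⟨h, ENNReal.one_ne_top⟩
  apply h3
  rw [h2]
  exact ENNReal.mul_top (by norm_num)

theorem sum_wX (k : ℕ) (Q : NC Λ → Prop) (g : XC Λ → ℝ≥0∞)
    (hg : ∀ x : XC Λ, g x = if Q x.1 then wX w x ^ k else 0) :
    ∑' x : XC Λ, g x = pN w k (fun c => c.IsX ∧ Q c) := by
  have h1 : ∑' x : XC Λ, g x = ∑' x : {c : NC Λ | c.IsX},
      (fun c : NC Λ => if Q c then wt w c.rep.1 ^ k else 0) x.1 := tsum_congr fun x => hg x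
  refine h1.trans ((_root_.tsum_subtype {c : NC Λ | c.IsX}
    (fun c : NC Λ => if Q c then wt w c.rep.1 ^ k else 0)).trans ?_)
  unfold pN
  refine tsum_congr fun p => ?_
  by_cases h2 : p.IsX <;> by_cases h3 : Q p <;> simp [Set.indicator, h2, h3]

theorem sum_wX' (k : ℕ) : ∑' x : XC Λ, wX w x ^ k = pN w k NC.IsX := by
  rw [sum_wX w k (fun _ => True) _ (fun x => by simp)]
  congr 1
  funext c
  simp

theorem sum_inv (k : ℕ) (inst : ∀ i : XC Λ, Decidable (XC.fl i = i)) :
    ∑' i : XC Λ, @ite _ (XC.fl i = i) (inst i) (wX w i ^ k) 0 =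
      pN w k (fun c => c.IsX ∧ c.fl = c) := by
  refine sum_wX w k (fun c => c.fl = c) _ (fun x => ?_)
  have h4 : XC.fl x = x ↔ x.1.fl = x.1 :=
    ⟨fun h => congrArg Subtype.val h, fun h => Subtype.ext h⟩
  by_cases hq : x.1.fl = x.1
  · rw [if_pos hq, if_pos (h4.2 hq)]
  · rw [if_neg hq, if_neg fun h => hq (h4.1 h)]

end DExp

open DExp in
/-- `D_eq`, `MS_exp`.  The hypotheses of `MS_exp` hold because `MS (wX w)` is finite: `MS f ≥ 1 + f i + f i ^ 2 + ...` and
`MS f ≥ ∑ f i`.  `∑' x : XC Λ, wX w x ^ k = pN w k NC.IsX` (sum over a subtype). -/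
theorem D_exp [Nonempty Λ] (h : pD w 1 ≠ ⊤) :
    (∑' k : ℕ, pN w (k + 1) NC.IsX / ((k + 1 : ℕ) : ℝ≥0∞)) ≠ ⊤ ∧
    pD w 1 + 1 = 2 * ENNReal.ofReal (Real.exp
      (∑' k : ℕ, pN w (k + 1) NC.IsX / ((k + 1 : ℕ) : ℝ≥0∞)).toReal) := by
  have h1 := ms_fin w h
  have h2 := MS_exp (wX w) (ms_lt _ h1) (ne_top_of_le_ne_top h1 (ms_single _))
  simp only [sum_wX'] at h2
  rw [D_eq w, ← h2.2]
  exact ⟨h2.1, rfl⟩

open DExp in
/-- `S_eq`, `MS_inv_exp` with `τ = XC.fl` -/
theorem S_exp [Nonempty Λ] (h : pD w 1 ≠ ⊤) :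
    (∑' k : ℕ, (if Even k then pN w (k + 1) (fun c => c.IsX ∧ c.fl = c) else
      pN w (k + 1) NC.IsX) / ((k + 1 : ℕ) : ℝ≥0∞)) ≠ ⊤ ∧
    pS w 1 + 1 = 2 * ENNReal.ofReal (Real.exp
      (∑' k : ℕ, (if Even k then pN w (k + 1) (fun c => c.IsX ∧ c.fl = c) else
        pN w (k + 1) NC.IsX) / ((k + 1 : ℕ) : ℝ≥0∞)).toReal) := by
  have h1 := ms_fin w h
  have h2 := MS_inv_exp (wX w) XC.fl (fun x => Subtype.ext (NC.fl_fl x.1))
    (fun x => NC.wt_fl w x.1) (ms_lt _ h1) (ne_top_of_le_ne_top h1 (ms_single _))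
  have h3 := fun k : ℕ => sum_inv w (k + 1) (fun i => Classical.propDecidable _)
  simp only [sum_wX', h3] at h2
  rw [S_eq w, ← h2.2]
  exact ⟨h2.1, rfl⟩

end PGr

end

section
/-! # Module SerGdA: series compositions are series networks -/

set_option linter.unusedSectionVars false

namespace PGr
open Equiv Finset
open scoped ENNReal Classical
universe u
variable {Λ : Type u}

private theorem SerGdA_half {N : LNet Λ} (h : N.IsGood) {A : Finset N.D} (hc : Cl N.a A)
    (hne : A.Nonempty) (hu : A ≠ univ) (b : Bool) :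
    (∃ x, (∀ b', x ≠ N.pole b') ∧ Sh (fun d => N.inc (Sum.inl d)) A x) ∨
      ∃ d ∈ A, N.inc (Sum.inl d) = N.pole b := by
  have hm : ∀ d : N.D, (Sum.inl d : N.T) ∈ A.map ⟨Sum.inl, Sum.inl_injective⟩ ↔ d ∈ A := by
    intro d
    rw [mem_map]
    constructor
    · rintro ⟨d', hd', he⟩
      have : d' = d := Sum.inl.inj he
      rwa [← this]
    · intro hd
      exact ⟨d, hd, rfl⟩
  have hr : ∀ c : Bool, (Sum.inr c : N.T) ∉ A.map ⟨Sum.inl, Sum.inl_injective⟩ := by
    intro c hcon
    rw [mem_map] at hcon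
    obtain ⟨d, -, he⟩ := hcon
    exact absurd he (by simp)
  have hB : Cl N.aa (A.map ⟨Sum.inl, Sum.inl_injective⟩) := by
    rintro (d | c)
    · show (Sum.inl (N.a d) : N.T) ∈ _ ↔ _
      rw [hm, hm]
      exact hc d
    · constructor
      · intro hcon
        exact absurd hcon (hr (!c))
      · intro hcon
        exact absurd hcon (hr c)
  obtain ⟨x, y, hxy, hx, hy⟩ := h.two _ hB (by
    obtain ⟨d, hd⟩ := hne
    exact ⟨Sum.inl d, (hm d).2 hd⟩) (by
    intro he
    have : (Sum.inr true : N.T) ∈ (univ : Finset N.T) := mem_univ _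
    rw [← he] at this
    exact hr true this)
  have key : ∀ x, Sh N.inc (A.map ⟨Sum.inl, Sum.inl_injective⟩) x →
      (∃ d ∈ A, N.inc (Sum.inl d) = x) ∧
        ((∃ d, d ∉ A ∧ N.inc (Sum.inl d) = x) ∨ ∃ c, x = N.pole c) := by
    rintro x ⟨⟨t, ht, hx⟩, t', ht', hx'⟩
    constructor
    · rcases t with d | c
      · exact ⟨d, (hm d).1 ht, hx⟩
      · exact absurd ht (hr c)
    · rcases t' with d | c
      · exact Or.inl ⟨d, fun hd => ht' ((hm d).2 hd), hx'⟩
      · exact Or.inr ⟨c, hx'.symm⟩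
  have key2 : ∀ x, Sh N.inc (A.map ⟨Sum.inl, Sum.inl_injective⟩) x → (∀ b', x ≠ N.pole b') →
      Sh (fun d => N.inc (Sum.inl d)) A x := by
    intro x hx hb
    obtain ⟨h1, h2⟩ := key x hx
    refine ⟨h1, ?_⟩
    rcases h2 with h2 | ⟨c, h2⟩
    · exact h2
    · exact absurd h2 (hb c)
  by_cases h1 : ∀ b', x ≠ N.pole b'
  · exact Or.inl ⟨x, h1, key2 x hx h1⟩
  by_cases h2 : ∀ b', y ≠ N.pole b'
  · exact Or.inl ⟨y, h2, key2 y hy h2⟩
  push Not at h1 h2
  obtain ⟨bx, hbx⟩ := h1
  obtain ⟨b_y, hby⟩ := h2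
  right
  have hne' : bx ≠ b_y := by
    rintro rfl
    exact hxy (hbx.trans hby.symm)
  have : b = bx ∨ b = b_y := by
    revert hne'
    cases b <;> cases bx <;> cases b_y <;> simp
  rcases this with rfl | rfl
  · rw [← hbx]; exact (key x hx).1
  · rw [← hby]; exact (key y hy).1

private theorem SerGdA_key {N : LNet Λ} (h : N.IsGood) {A : Finset N.D} (hc : Cl N.a A)
    (hne : A.Nonempty) (hu : A ≠ univ) (b : Bool) :
    ∃ x, ((∀ b', x ≠ N.pole b') ∨ x = N.pole b) ∧ Sh (fun d => N.inc (Sum.inl d)) A x := by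
  rcases SerGdA_half h hc hne hu b with ⟨x, h1, h2⟩ | h1
  · exact ⟨x, Or.inl h1, h2⟩
  have hne' : (Aᶜ).Nonempty := by
    rw [nonempty_iff_ne_empty]
    intro e
    exact hu (by rwa [compl_eq_empty_iff] at e)
  have hu' : Aᶜ ≠ univ := by
    intro e
    have : A = ∅ := by rwa [compl_eq_univ_iff] at e
    exact hne.ne_empty this
  rcases SerGdA_half h hc.compl hne' hu' b with ⟨x, h2, h3⟩ | ⟨d, h2, h3⟩
  · exact ⟨x, Or.inl h2, (NetSer.sh_compl _ _ _).mp h3⟩
  · exact ⟨N.pole b, Or.inr rfl, h1, d, mem_compl.1 h2, h3⟩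

section
variable {I Vc : Type} [Fintype I] [DecidableEq I] [Fintype Vc] [DecidableEq Vc]

/-- the image of a vertex of a network in the glued network -/
private def SerGdA_vm (cinc : (I × Bool) ⊕ Bool → Vc) (N : I → LNet Λ) (i : I) (x : (N i).V) :
    Vc ⊕ Σ i, (N i).Int :=
  if h1 : x = (N i).pole true then Sum.inl (cinc (Sum.inl (i, true)))
  else if h2 : x = (N i).pole false then Sum.inl (cinc (Sum.inl (i, false)))
  else Sum.inr ⟨i, ⟨x, by rintro (_ | _) <;> assumption⟩⟩

private theorem SerGdA_vm_inc (cinc : (I × Bool) ⊕ Bool → Vc) (N : I → LNet Λ) (i : I)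
    (d : (N i).D) :
    glueInc cinc N (Sum.inl ⟨i, d⟩) = SerGdA_vm cinc N i ((N i).inc (Sum.inl d)) := rfl

private theorem SerGdA_vm_int (cinc : (I × Bool) ⊕ Bool → Vc) (N : I → LNet Λ) (i : I)
    {x : (N i).V} (hx : ∀ b, x ≠ (N i).pole b) :
    SerGdA_vm cinc N i x = Sum.inr ⟨i, ⟨x, hx⟩⟩ := by
  unfold SerGdA_vm
  rw [dif_neg (hx true), dif_neg (hx false)]

private theorem SerGdA_vm_pole (cinc : (I × Bool) ⊕ Bool → Vc) (N : I → LNet Λ) (i : I)
    (hN : (N i).IsGood) (b : Bool) :
    SerGdA_vm cinc N i ((N i).pole b) = Sum.inl (cinc (Sum.inl (i, b))) := by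
  unfold SerGdA_vm
  cases b
  · rw [dif_neg, dif_pos rfl]
    exact (hN.loop (Sum.inr false)).symm
  · rw [dif_pos rfl]

private theorem SerGdA_sh (cinc : (I × Bool) ⊕ Bool → Vc) (N : I → LNet Λ) (g : Vc → Λ) (i : I)
    {A : Finset (glue cinc N g).D} {x : (N i).V}
    (h : Sh (fun d => (N i).inc (Sum.inl d))
      (univ.filter fun d : (N i).D => (⟨i, d⟩ : (glue cinc N g).D) ∈ A) x) :
    Sh (fun d => (glue cinc N g).inc (Sum.inl d)) A (SerGdA_vm cinc N i x) := by
  obtain ⟨⟨d, hd, hx⟩, d', hd', hx'⟩ := h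
  rw [mem_filter] at hd hd'
  refine ⟨⟨⟨i, d⟩, hd.2, ?_⟩, ⟨i, d'⟩, fun hc => hd' ⟨mem_univ _, hc⟩, ?_⟩
  · show glueInc cinc N (Sum.inl ⟨i, d⟩) = _
    rw [SerGdA_vm_inc]
    exact congrArg _ hx
  · show glueInc cinc N (Sum.inl ⟨i, d'⟩) = _
    rw [SerGdA_vm_inc]
    exact congrArg _ hx'

end

private theorem SerGdA_good {N₁ N₂ : LNet Λ} (h₁ : N₁.IsGood) (h₂ : N₂.IsGood) (i : Bool) :
    (bif i then N₁ else N₂).IsGood := by
  cases i
  · exact h₂
  · exact h₁

/-- `¬ Direct`: a direct edge would be in both nets.  `Conn`: a closed nonempty proper set `A` of nonroot darts; if it is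
all of one net, the middle vertex is shared; otherwise `A ∩ N₁` (or `A ∩ N₂`) is nonempty and proper in `N₁`, and by
`two` (for the network `N₁`, with the root edge in `A` or not in `A`; the poles may be shared only through the root edge) it
shares an internal vertex of `N₁` or the pole of `N₁` which is the middle vertex. -/
theorem serGlue_X {N₁ N₂ : LNet Λ} (h₁ : N₁.IsGood) (h₂ : N₂.IsGood) (g : Option Bool → Λ) :
    XNet (serGlue N₁ N₂ g) where
  good := serGlue_good h₁ h₂ g
  conn := by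
    intro A hA hne hu
    have hcl : ∀ i : Bool, Cl (bif i then N₁ else N₂).a
        (univ.filter fun d : (bif i then N₁ else N₂).D =>
          (⟨i, d⟩ : (serGlue N₁ N₂ g).D) ∈ A) := by
      intro i d
      rw [mem_filter, mem_filter]
      have := hA ⟨i, d⟩
      exact ⟨fun h => ⟨mem_univ _, this.1 h.2⟩, fun h => ⟨mem_univ _, this.2 h.2⟩⟩
    have hgoal : ∀ i : Bool, (univ.filter fun d : (bif i then N₁ else N₂).D =>
          (⟨i, d⟩ : (serGlue N₁ N₂ g).D) ∈ A).Nonempty →
        (univ.filter fun d : (bif i then N₁ else N₂).D =>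
          (⟨i, d⟩ : (serGlue N₁ N₂ g).D) ∈ A) ≠ univ →
        ∃ x : (serGlue N₁ N₂ g).V, (∀ b, x ≠ (serGlue N₁ N₂ g).pole b) ∧
          Sh (fun d => (serGlue N₁ N₂ g).inc (Sum.inl d)) A x := by
      intro i h1 h2
      obtain ⟨x, hx, hs⟩ := SerGdA_key (SerGdA_good h₁ h₂ i) (hcl i) h1 h2 (!i)
      refine ⟨SerGdA_vm serInc (fun i => bif i then N₁ else N₂) i x, ?_,
        SerGdA_sh serInc (fun i => bif i then N₁ else N₂) g i hs⟩
      rcases hx with hx | hx
      · rw [SerGdA_vm_int serInc (fun i => bif i then N₁ else N₂) i hx]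
        intro b hb
        cases hb
      · rw [hx, SerGdA_vm_pole serInc (fun i => bif i then N₁ else N₂) i
          (SerGdA_good h₁ h₂ i) (!i)]
        intro b hb
        cases i <;> cases hb
    by_cases ht : (univ.filter fun d : (bif true then N₁ else N₂).D =>
          (⟨true, d⟩ : (serGlue N₁ N₂ g).D) ∈ A) = ∅
    · by_cases hf : (univ.filter fun d : (bif false then N₁ else N₂).D =>
          (⟨false, d⟩ : (serGlue N₁ N₂ g).D) ∈ A) = univ
      · -- the middle vertex
        obtain ⟨d, hd⟩ := NetSer.exists_pole h₁ false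
        obtain ⟨d', hd'⟩ := NetSer.exists_pole h₂ true
        refine ⟨Sum.inl none, (fun b hb => by cases hb), ⟨⟨false, d'⟩, ?_, ?_⟩, ⟨true, d⟩, ?_, ?_⟩
        · have : d' ∈ (univ : Finset (bif false then N₁ else N₂).D) := mem_univ _
          rw [← hf, mem_filter] at this
          exact this.2
        · show glueInc serInc (fun i => bif i then N₁ else N₂) (Sum.inl ⟨false, d'⟩) = _
          rw [SerGdA_vm_inc]
          have : SerGdA_vm serInc (fun i => bif i then N₁ else N₂) false (N₂.pole true) = _ :=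
            SerGdA_vm_pole serInc (fun i => bif i then N₁ else N₂) false h₂ true
          rw [show (bif false then N₁ else N₂).inc (Sum.inl d') = N₂.pole true from hd', this]
          rfl
        · intro hc
          have : d ∈ (univ.filter fun d : (bif true then N₁ else N₂).D =>
            (⟨true, d⟩ : (serGlue N₁ N₂ g).D) ∈ A) := mem_filter.2 ⟨mem_univ _, hc⟩
          rw [ht] at this
          exact absurd this (notMem_empty _)
        · show glueInc serInc (fun i => bif i then N₁ else N₂) (Sum.inl ⟨true, d⟩) = _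
          rw [SerGdA_vm_inc]
          have : SerGdA_vm serInc (fun i => bif i then N₁ else N₂) true (N₁.pole false) = _ :=
            SerGdA_vm_pole serInc (fun i => bif i then N₁ else N₂) true h₁ false
          rw [show (bif true then N₁ else N₂).inc (Sum.inl d) = N₁.pole false from hd, this]
          rfl
      · refine hgoal false ?_ hf
        obtain ⟨⟨i, d⟩, hd⟩ := hne
        cases i
        · exact ⟨d, mem_filter.2 ⟨mem_univ _, hd⟩⟩
        · exfalso
          have : d ∈ (univ.filter fun d : (bif true then N₁ else N₂).D =>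
            (⟨true, d⟩ : (serGlue N₁ N₂ g).D) ∈ A) := mem_filter.2 ⟨mem_univ _, hd⟩
          rw [ht] at this
          exact absurd this (notMem_empty _)
    · by_cases htu : (univ.filter fun d : (bif true then N₁ else N₂).D =>
          (⟨true, d⟩ : (serGlue N₁ N₂ g).D) ∈ A) = univ
      · by_cases hf : (univ.filter fun d : (bif false then N₁ else N₂).D =>
          (⟨false, d⟩ : (serGlue N₁ N₂ g).D) ∈ A) = ∅
        · obtain ⟨d, hd⟩ := NetSer.exists_pole h₁ false
          obtain ⟨d', hd'⟩ := NetSer.exists_pole h₂ true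
          refine ⟨Sum.inl none, (fun b hb => by cases hb), ⟨⟨true, d⟩, ?_, ?_⟩, ⟨false, d'⟩, ?_, ?_⟩
          · have : d ∈ (univ : Finset (bif true then N₁ else N₂).D) := mem_univ _
            rw [← htu, mem_filter] at this
            exact this.2
          · show glueInc serInc (fun i => bif i then N₁ else N₂) (Sum.inl ⟨true, d⟩) = _
            rw [SerGdA_vm_inc]
            have : SerGdA_vm serInc (fun i => bif i then N₁ else N₂) true (N₁.pole false) = _ :=
              SerGdA_vm_pole serInc (fun i => bif i then N₁ else N₂) true h₁ false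
            rw [show (bif true then N₁ else N₂).inc (Sum.inl d) = N₁.pole false from hd, this]
            rfl
          · intro hc
            have : d' ∈ (univ.filter fun d : (bif false then N₁ else N₂).D =>
              (⟨false, d⟩ : (serGlue N₁ N₂ g).D) ∈ A) := mem_filter.2 ⟨mem_univ _, hc⟩
            rw [hf] at this
            exact absurd this (notMem_empty _)
          · show glueInc serInc (fun i => bif i then N₁ else N₂) (Sum.inl ⟨false, d'⟩) = _
            rw [SerGdA_vm_inc]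
            have : SerGdA_vm serInc (fun i => bif i then N₁ else N₂) false (N₂.pole true) = _ :=
              SerGdA_vm_pole serInc (fun i => bif i then N₁ else N₂) false h₂ true
            rw [show (bif false then N₁ else N₂).inc (Sum.inl d') = N₂.pole true from hd', this]
            rfl
        · refine hgoal false (nonempty_iff_ne_empty.2 hf) ?_
          intro hfu
          apply hu
          ext ⟨i, d⟩
          simp only [mem_univ, iff_true]
          cases i
          · have : d ∈ (univ : Finset (bif false then N₁ else N₂).D) := mem_univ _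
            rw [← hfu, mem_filter] at this
            exact this.2
          · have : d ∈ (univ : Finset (bif true then N₁ else N₂).D) := mem_univ _
            rw [← htu, mem_filter] at this
            exact this.2
      · exact hgoal true (nonempty_iff_ne_empty.2 ht) htu
  dir := by
    rintro ⟨⟨i, d⟩, h3, h4⟩
    have h3' : SerGdA_vm serInc (fun i => bif i then N₁ else N₂) i
      ((bif i then N₁ else N₂).inc (Sum.inl d)) = Sum.inl (some true) := h3
    have h4' : SerGdA_vm serInc (fun i => bif i then N₁ else N₂) i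
      ((bif i then N₁ else N₂).inc (Sum.inl ((bif i then N₁ else N₂).a d))) =
        Sum.inl (some false) := h4
    unfold SerGdA_vm at h3' h4'
    cases i
    · split_ifs at h3'
      · cases h3'
      · cases h3'
    · split_ifs at h4'
      · cases h4'
      · cases h4'

/-- `A` = the darts of the first net -/
theorem serGlue_ser {N₁ N₂ : LNet Λ} (h₁ : N₁.IsGood) (h₂ : N₂.IsGood) (g : Option Bool → Λ) :
    SerN (serGlue N₁ N₂ g) := by
  refine ⟨univ.filter fun d : (serGlue N₁ N₂ g).D => d.1 = true, ?_, ?_, ?_, ?_⟩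
  · intro d
    rw [mem_filter, mem_filter]
    exact ⟨fun h => ⟨mem_univ _, h.2⟩, fun h => ⟨mem_univ _, h.2⟩⟩
  · obtain ⟨d⟩ := h₁.ne
    exact ⟨⟨true, d⟩, mem_filter.2 ⟨mem_univ _, rfl⟩⟩
  · intro he
    obtain ⟨d⟩ := h₂.ne
    have : (⟨false, d⟩ : (serGlue N₁ N₂ g).D) ∈ (univ : Finset (serGlue N₁ N₂ g).D) := mem_univ _
    rw [← he] at this
    have h2 : false = true := (mem_filter.1 this).2
    cases h2
  · have key : ∀ x, Sh (fun d => (serGlue N₁ N₂ g).inc (Sum.inl d))
        (univ.filter fun d : (serGlue N₁ N₂ g).D => d.1 = true) x → x = Sum.inl none := by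
      rintro x ⟨⟨⟨i, d⟩, hd, hx⟩, ⟨i', d'⟩, hd', hx'⟩
      have hi : i = true := (mem_filter.1 hd).2
      have hi' : i' = false := by
        cases i'
        · rfl
        · exact (hd' (mem_filter.2 ⟨mem_univ _, (rfl : true = true)⟩)).elim
      subst hi hi'
      have h3 : SerGdA_vm serInc (fun i => bif i then N₁ else N₂) true
        ((bif true then N₁ else N₂).inc (Sum.inl d)) = x := hx
      have h4 : SerGdA_vm serInc (fun i => bif i then N₁ else N₂) false
        ((bif false then N₁ else N₂).inc (Sum.inl d')) = x := hx'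
      rw [← h3] at h4 ⊢
      unfold SerGdA_vm at h4 ⊢
      split_ifs at h4 ⊢
      all_goals first
        | rfl
        | cases h4
    intro x y hx hy
    rw [key x hx, key y hy]

theorem card_serGlue (N₁ N₂ : LNet Λ) (g : Option Bool → Λ) :
    Fintype.card (serGlue N₁ N₂ g).D = Fintype.card N₁.D + Fintype.card N₂.D := by
  have h : Fintype.card (serGlue N₁ N₂ g).D =
      Fintype.card (Σ i : Bool, (bif i then N₁ else N₂).D) :=
    Fintype.card_congr (Equiv.refl _)
  rw [h, Fintype.card_sigma, Fintype.sum_bool]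
  rfl

end PGr

end

section
/-! # Module SerGd: the series composition -/

set_option linter.unusedSectionVars false

namespace PGr
open Equiv Finset
open scoped ENNReal Classical
universe u
variable {Λ : Type u}

section
variable {I Vc : Type} [Fintype I] [DecidableEq I] [Fintype Vc] [DecidableEq Vc]

private theorem SerGd_p (cinc : (I × Bool) ⊕ Bool → Vc) (N : I → LNet Λ) (i : I)
    (hN : (N i).IsGood) (b : Bool) {d : (N i).D} (h : (N i).inc (Sum.inl d) = (N i).pole b) :
    glueInc cinc N (Sum.inl ⟨i, d⟩) = Sum.inl (cinc (Sum.inl (i, b))) := by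
  cases b
  · refine GlueLib.inc_false _ _ ?_ h
    rw [h]
    exact (hN.loop (Sum.inr false)).symm
  · exact GlueLib.inc_true _ _ h

private theorem SerGd_i (cinc : (I × Bool) ⊕ Bool → Vc) (N : I → LNet Λ) (i : I)
    {d : (N i).D} (h : ∀ b, (N i).inc (Sum.inl d) ≠ (N i).pole b) :
    glueInc cinc N (Sum.inl ⟨i, d⟩) = Sum.inr ⟨i, ⟨(N i).inc (Sum.inl d), h⟩⟩ :=
  GlueLib.inc_int _ _ (h true) (h false)

private theorem SerGd_c (N : LNet Λ) (x : N.V) : (∃ b, x = N.pole b) ∨ ∀ b, x ≠ N.pole b := by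
  by_cases h : ∃ b, x = N.pole b
  · exact Or.inl h
  · push Not at h
    exact Or.inr h

end

section
variable {N₁ N₂ N₃ : LNet Λ}

/-! inclusions of the vertices -/

private theorem SerGd_t (h₁ : N₁.IsGood) (g : Option Bool → Λ) (b : Bool) {d : N₁.D}
    (h : N₁.inc (Sum.inl d) = N₁.pole b) :
    (serGlue N₁ N₂ g).inc (Sum.inl ⟨true, d⟩) = Sum.inl (serInc (Sum.inl (true, b))) :=
  SerGd_p serInc (fun i => bif i then N₁ else N₂) true h₁ b h

private theorem SerGd_f (h₂ : N₂.IsGood) (g : Option Bool → Λ) (b : Bool) {d : N₂.D}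
    (h : N₂.inc (Sum.inl d) = N₂.pole b) :
    (serGlue N₁ N₂ g).inc (Sum.inl ⟨false, d⟩) = Sum.inl (serInc (Sum.inl (false, b))) :=
  SerGd_p serInc (fun i => bif i then N₁ else N₂) false h₂ b h

private theorem SerGd_ti (g : Option Bool → Λ) {d : N₁.D}
    (h : ∀ b, N₁.inc (Sum.inl d) ≠ N₁.pole b) :
    (serGlue N₁ N₂ g).inc (Sum.inl ⟨true, d⟩) = Sum.inr ⟨true, ⟨N₁.inc (Sum.inl d), h⟩⟩ :=
  SerGd_i serInc (fun i => bif i then N₁ else N₂) true h

private theorem SerGd_fi (g : Option Bool → Λ) {d : N₂.D}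
    (h : ∀ b, N₂.inc (Sum.inl d) ≠ N₂.pole b) :
    (serGlue N₁ N₂ g).inc (Sum.inl ⟨false, d⟩) = Sum.inr ⟨false, ⟨N₂.inc (Sum.inl d), h⟩⟩ :=
  SerGd_i serInc (fun i => bif i then N₁ else N₂) false h

private theorem SerGd_flint {N : LNet Λ} {x : N.V} (h : ∀ b, x ≠ N.pole b) :
    ∀ b, x ≠ (LNet.fl true N).pole b := fun b => h (xor true b)

private theorem SerGd_flint' {N : LNet Λ} {x : N.V} (h : ∀ b, x ≠ (LNet.fl true N).pole b) :
    ∀ b, x ≠ N.pole b := by
  intro b
  cases b
  · exact h true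
  · exact h false

/-- darts -/
private def SerGd_eD (N₁ N₂ : LNet Λ) (g g' : Option Bool → Λ) :
    (LNet.fl true (serGlue N₁ N₂ g)).D ≃ (serGlue (LNet.fl true N₂) (LNet.fl true N₁) g').D where
  toFun
    | ⟨true, d⟩ => ⟨false, d⟩
    | ⟨false, d⟩ => ⟨true, d⟩
  invFun
    | ⟨true, d⟩ => ⟨false, d⟩
    | ⟨false, d⟩ => ⟨true, d⟩
  left_inv := by rintro ⟨_ | _, d⟩ <;> rfl
  right_inv := by rintro ⟨_ | _, d⟩ <;> rfl

/-- vertices -/
private def SerGd_eV (N₁ N₂ : LNet Λ) (g g' : Option Bool → Λ) :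
    (LNet.fl true (serGlue N₁ N₂ g)).V ≃ (serGlue (LNet.fl true N₂) (LNet.fl true N₁) g').V where
  toFun
    | Sum.inl (some b) => Sum.inl (some (!b))
    | Sum.inl none => Sum.inl none
    | Sum.inr ⟨true, x⟩ =>
      Sum.inr ⟨false, (⟨x.1, SerGd_flint (N := N₁) x.2⟩ : (LNet.fl true N₁).Int)⟩
    | Sum.inr ⟨false, x⟩ =>
      Sum.inr ⟨true, (⟨x.1, SerGd_flint (N := N₂) x.2⟩ : (LNet.fl true N₂).Int)⟩
  invFun
    | Sum.inl (some b) => Sum.inl (some (!b))
    | Sum.inl none => Sum.inl none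
    | Sum.inr ⟨true, x⟩ => Sum.inr ⟨false, (⟨x.1, SerGd_flint' (N := N₂) x.2⟩ : N₂.Int)⟩
    | Sum.inr ⟨false, x⟩ => Sum.inr ⟨true, (⟨x.1, SerGd_flint' (N := N₁) x.2⟩ : N₁.Int)⟩
  left_inv := by
    rintro ((_ | b) | ⟨_ | _, x⟩)
    · rfl
    · cases b <;> rfl
    · rfl
    · rfl
  right_inv := by
    rintro ((_ | b) | ⟨_ | _, x⟩)
    · rfl
    · cases b <;> rfl
    · rfl
    · rfl

end

/-- reversal -/
theorem serGlue_fl {N₁ N₂ : LNet Λ} (h₁ : N₁.IsGood) (h₂ : N₂.IsGood) (g g' : Option Bool → Λ)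
    (hg : g' none = g none) :
    NIso (LNet.fl true (serGlue N₁ N₂ g)) (serGlue (LNet.fl true N₂) (LNet.fl true N₁) g') := by
  refine ⟨SerGd_eD N₁ N₂ g g', SerGd_eV N₁ N₂ g g', ?_, ?_, ?_, ?_⟩
  · rintro ⟨_ | _, d⟩ <;> rfl
  · have hpp : ∀ (N : LNet Λ) (d : N.D) (b : Bool), N.inc (Sum.inl d) = N.pole b →
        (LNet.fl true N).inc (Sum.inl d) = (LNet.fl true N).pole (!b) := by
      intro N d b h
      cases b <;> exact h
    rintro ⟨_ | _, d⟩
    · show SerGd_eV N₁ N₂ g g' ((serGlue N₁ N₂ g).inc (Sum.inl ⟨false, d⟩)) =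
        (serGlue (LNet.fl true N₂) (LNet.fl true N₁) g').inc (Sum.inl ⟨true, d⟩)
      rcases SerGd_c N₂ (N₂.inc (Sum.inl d)) with ⟨b, hb⟩ | hb
      · rw [SerGd_f h₂ g b hb, SerGd_t (fl_good h₂) g' (!b) (hpp N₂ d b hb)]
        cases b <;> rfl
      · rw [SerGd_fi g hb, SerGd_ti (N₁ := LNet.fl true N₂) g' (SerGd_flint hb)]
        rfl
    · show SerGd_eV N₁ N₂ g g' ((serGlue N₁ N₂ g).inc (Sum.inl ⟨true, d⟩)) =
        (serGlue (LNet.fl true N₂) (LNet.fl true N₁) g').inc (Sum.inl ⟨false, d⟩)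
      rcases SerGd_c N₁ (N₁.inc (Sum.inl d)) with ⟨b, hb⟩ | hb
      · rw [SerGd_t h₁ g b hb, SerGd_f (fl_good h₁) g' (!b) (hpp N₁ d b hb)]
        cases b <;> rfl
      · rw [SerGd_ti g hb, SerGd_fi (N₂ := LNet.fl true N₁) g' (SerGd_flint hb)]
        rfl
  · intro b
    cases b <;> rfl
  · rintro ((_ | b) | ⟨_ | _, x⟩) hx
    · exact hg
    · exfalso
      refine hx (!b) ?_
      cases b <;> rfl
    · rfl
    · rfl

section
variable (N₁ N₂ N₃ : LNet Λ) (g g' : Option Bool → Λ)

private def SerGd_aD : (serGlue (serGlue N₁ N₂ g) N₃ g').D ≃ (serGlue N₁ (serGlue N₂ N₃ g') g).D where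
  toFun
    | ⟨true, (⟨true, d⟩ : (serGlue N₁ N₂ g).D)⟩ => ⟨true, d⟩
    | ⟨true, (⟨false, d⟩ : (serGlue N₁ N₂ g).D)⟩ => ⟨false, (⟨true, d⟩ : (serGlue N₂ N₃ g').D)⟩
    | ⟨false, d⟩ => ⟨false, (⟨false, d⟩ : (serGlue N₂ N₃ g').D)⟩
  invFun
    | ⟨true, d⟩ => ⟨true, (⟨true, d⟩ : (serGlue N₁ N₂ g).D)⟩
    | ⟨false, (⟨true, d⟩ : (serGlue N₂ N₃ g').D)⟩ => ⟨true, (⟨false, d⟩ : (serGlue N₁ N₂ g).D)⟩
    | ⟨false, (⟨false, d⟩ : (serGlue N₂ N₃ g').D)⟩ => ⟨false, d⟩
  left_inv := by
    rintro ⟨_ | _, d⟩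
    · rfl
    · obtain ⟨_ | _, d⟩ := d <;> rfl
  right_inv := by
    rintro ⟨_ | _, d⟩
    · obtain ⟨_ | _, d⟩ := d <;> rfl
    · rfl

private def SerGd_a1 : (serGlue N₁ N₂ g).Int → (serGlue N₁ (serGlue N₂ N₃ g') g).V
  | ⟨Sum.inl none, _⟩ => Sum.inl none
  | ⟨Sum.inl (some b), h⟩ => (h b rfl).elim
  | ⟨Sum.inr ⟨true, x⟩, _⟩ => Sum.inr ⟨true, x⟩
  | ⟨Sum.inr ⟨false, x⟩, _⟩ =>
    Sum.inr ⟨false, (⟨Sum.inr ⟨true, x⟩, fun b hb => by cases hb⟩ : (serGlue N₂ N₃ g').Int)⟩

private def SerGd_a2 : (serGlue N₂ N₃ g').Int → (serGlue (serGlue N₁ N₂ g) N₃ g').V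
  | ⟨Sum.inl none, _⟩ => Sum.inl none
  | ⟨Sum.inl (some b), h⟩ => (h b rfl).elim
  | ⟨Sum.inr ⟨false, x⟩, _⟩ => Sum.inr ⟨false, x⟩
  | ⟨Sum.inr ⟨true, x⟩, _⟩ =>
    Sum.inr ⟨true, (⟨Sum.inr ⟨false, x⟩, fun b hb => by cases hb⟩ : (serGlue N₁ N₂ g).Int)⟩

private def SerGd_aV : (serGlue (serGlue N₁ N₂ g) N₃ g').V ≃ (serGlue N₁ (serGlue N₂ N₃ g') g).V where
  toFun
    | Sum.inl (some b) => Sum.inl (some b)
    | Sum.inl none =>
      Sum.inr ⟨false, (⟨Sum.inl none, fun b hb => by cases hb⟩ : (serGlue N₂ N₃ g').Int)⟩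
    | Sum.inr ⟨true, x⟩ => SerGd_a1 N₁ N₂ N₃ g g' x
    | Sum.inr ⟨false, x⟩ =>
      Sum.inr ⟨false, (⟨Sum.inr ⟨false, x⟩, fun b hb => by cases hb⟩ : (serGlue N₂ N₃ g').Int)⟩
  invFun
    | Sum.inl (some b) => Sum.inl (some b)
    | Sum.inl none =>
      Sum.inr ⟨true, (⟨Sum.inl none, fun b hb => by cases hb⟩ : (serGlue N₁ N₂ g).Int)⟩
    | Sum.inr ⟨false, x⟩ => SerGd_a2 N₁ N₂ N₃ g g' x
    | Sum.inr ⟨true, x⟩ =>
      Sum.inr ⟨true, (⟨Sum.inr ⟨true, x⟩, fun b hb => by cases hb⟩ : (serGlue N₁ N₂ g).Int)⟩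
  left_inv := by
    rintro ((_ | b) | ⟨_ | _, x⟩)
    · rfl
    · rfl
    · rfl
    · obtain ⟨(_ | b) | ⟨_ | _, x⟩, h⟩ := x
      · rfl
      · exact (h b rfl).elim
      · rfl
      · rfl
  right_inv := by
    rintro ((_ | b) | ⟨_ | _, x⟩)
    · rfl
    · rfl
    · obtain ⟨(_ | b) | ⟨_ | _, x⟩, h⟩ := x
      · rfl
      · exact (h b rfl).elim
      · rfl
      · rfl
    · rfl

end

/-- associativity; the labels of the two middle vertices are `g none`, `g' none` -/
theorem serGlue_assoc {N₁ N₂ N₃ : LNet Λ} (h₁ : N₁.IsGood) (h₂ : N₂.IsGood) (h₃ : N₃.IsGood)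
    (g g' : Option Bool → Λ) :
    NIso (serGlue (serGlue N₁ N₂ g) N₃ g') (serGlue N₁ (serGlue N₂ N₃ g') g) := by
  have h₁₂ := serGlue_good h₁ h₂ g
  have h₂₃ := serGlue_good h₂ h₃ g'
  refine ⟨SerGd_aD N₁ N₂ N₃ g g', SerGd_aV N₁ N₂ N₃ g g', ?_, ?_, ?_, ?_⟩
  · rintro ⟨_ | _, d⟩
    · rfl
    · obtain ⟨_ | _, d⟩ := d <;> rfl
  · rintro ⟨_ | _, d⟩
    · show SerGd_aV N₁ N₂ N₃ g g' ((serGlue (serGlue N₁ N₂ g) N₃ g').inc (Sum.inl ⟨false, d⟩)) =
        (serGlue N₁ (serGlue N₂ N₃ g') g).inc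
          (Sum.inl ⟨false, (⟨false, d⟩ : (serGlue N₂ N₃ g').D)⟩)
      rcases SerGd_c N₃ (N₃.inc (Sum.inl d)) with ⟨b, hb⟩ | hb
      · have h5 := SerGd_f (N₁ := N₂) h₃ g' b hb
        rw [SerGd_f h₃ g' b hb]
        cases b
        · rw [SerGd_f (N₂ := serGlue N₂ N₃ g') h₂₃ g false h5]
          rfl
        · rw [SerGd_fi (N₂ := serGlue N₂ N₃ g') g (d := (⟨false, d⟩ : (serGlue N₂ N₃ g').D))
            (fun b hb => by rw [h5] at hb; cases hb)]
          simp only [h5]
          rfl
      · have h5 := SerGd_fi (N₁ := N₂) g' hb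
        rw [SerGd_fi g' hb]
        rw [SerGd_fi (N₂ := serGlue N₂ N₃ g') g (d := (⟨false, d⟩ : (serGlue N₂ N₃ g').D))
            (fun b hb => by rw [h5] at hb; cases hb)]
        simp only [h5]
        rfl
    · obtain ⟨_ | _, d⟩ := d
      · show SerGd_aV N₁ N₂ N₃ g g' ((serGlue (serGlue N₁ N₂ g) N₃ g').inc
            (Sum.inl ⟨true, (⟨false, d⟩ : (serGlue N₁ N₂ g).D)⟩)) =
          (serGlue N₁ (serGlue N₂ N₃ g') g).inc
            (Sum.inl ⟨false, (⟨true, d⟩ : (serGlue N₂ N₃ g').D)⟩)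
        rcases SerGd_c N₂ (N₂.inc (Sum.inl d)) with ⟨b, hb⟩ | hb
        · have h5 := SerGd_t (N₂ := N₃) h₂ g' b hb
          have h6 := SerGd_f (N₁ := N₁) h₂ g b hb
          cases b
          · rw [SerGd_t (N₁ := serGlue N₁ N₂ g) h₁₂ g' false h6,
              SerGd_fi (N₂ := serGlue N₂ N₃ g') g (d := (⟨true, d⟩ : (serGlue N₂ N₃ g').D))
              (fun b hb => by rw [h5] at hb; cases hb)]
            simp only [h5]
            rfl
          · rw [SerGd_f (N₂ := serGlue N₂ N₃ g') h₂₃ g true h5,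
              SerGd_ti (N₁ := serGlue N₁ N₂ g) g' (d := (⟨false, d⟩ : (serGlue N₁ N₂ g).D))
              (fun b hb => by rw [h6] at hb; cases hb)]
            simp only [h6]
            rfl
        · have h5 := SerGd_ti (N₂ := N₃) g' hb
          have h6 := SerGd_fi (N₁ := N₁) g hb
          rw [SerGd_fi (N₂ := serGlue N₂ N₃ g') g (d := (⟨true, d⟩ : (serGlue N₂ N₃ g').D))
              (fun b hb => by rw [h5] at hb; cases hb),
            SerGd_ti (N₁ := serGlue N₁ N₂ g) g' (d := (⟨false, d⟩ : (serGlue N₁ N₂ g).D))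
              (fun b hb => by rw [h6] at hb; cases hb)]
          simp only [h5, h6]
          rfl
      · show SerGd_aV N₁ N₂ N₃ g g' ((serGlue (serGlue N₁ N₂ g) N₃ g').inc
            (Sum.inl ⟨true, (⟨true, d⟩ : (serGlue N₁ N₂ g).D)⟩)) =
          (serGlue N₁ (serGlue N₂ N₃ g') g).inc (Sum.inl ⟨true, d⟩)
        rcases SerGd_c N₁ (N₁.inc (Sum.inl d)) with ⟨b, hb⟩ | hb
        · have h6 := SerGd_t (N₂ := N₂) h₁ g b hb
          rw [SerGd_t h₁ g b hb]
          cases b
          · rw [SerGd_ti (N₁ := serGlue N₁ N₂ g) g' (d := (⟨true, d⟩ : (serGlue N₁ N₂ g).D))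
              (fun b hb => by rw [h6] at hb; cases hb)]
            simp only [h6]
            rfl
          · rw [SerGd_t (N₁ := serGlue N₁ N₂ g) h₁₂ g' true h6]
            rfl
        · have h6 := SerGd_ti (N₂ := N₂) g hb
          rw [SerGd_ti g hb]
          rw [SerGd_ti (N₁ := serGlue N₁ N₂ g) g' (d := (⟨true, d⟩ : (serGlue N₁ N₂ g).D))
              (fun b hb => by rw [h6] at hb; cases hb)]
          simp only [h6]
          rfl
  · intro b
    cases b <;> rfl
  · rintro ((_ | b) | ⟨_ | _, x⟩) hx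
    · rfl
    · exact (hx b rfl).elim
    · rfl
    · obtain ⟨(_ | b) | ⟨_ | _, x⟩, h⟩ := x
      · rfl
      · exact (h b rfl).elim
      · rfl
      · rfl

end PGr

end
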