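import Pool.Agent.PGc.RgSmall
import Pool.Agent.PGc.RgTop
import Pool.Agent.PGm.M18

section
/-! # Module Q1Alg: the closed form of `Q1`, algebra -/

set_option linter.unusedSectionVars false

namespace PGr
open Real

/-- the auxiliary square root -/
private noncomputable def Q1Alg_w (s v : ℝ) : ℝ := Real.sqrt (1 + 4 * (s * v / (1 - v) ^ 2))

private theorem Q1Alg_z_pos {s v : ℝ} (hs : 0 < s) (h0 : 0 < v) (h1 : v < 1) :
    0 < s * v / (1 - v) ^ 2 := div_pos (mul_pos hs h0) (pow_pos (by linarith) 2)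

private theorem Q1Alg_w_sq {s v : ℝ} (hs : 0 < s) (h0 : 0 < v) (h1 : v < 1) :
    Q1Alg_w s v ^ 2 = 1 + 4 * (s * v / (1 - v) ^ 2) :=
  Real.sq_sqrt (by have := Q1Alg_z_pos hs h0 h1; linarith)

private theorem Q1Alg_w_one_lt {s v : ℝ} (hs : 0 < s) (h0 : 0 < v) (h1 : v < 1) :
    1 < Q1Alg_w s v := by
  have h := Q1Alg_z_pos hs h0 h1
  rw [Q1Alg_w, Real.lt_sqrt zero_le_one]
  linarith

private theorem Q1Alg_uf_w {s v : ℝ} (hs : 0 < s) (h0 : 0 < v) (h1 : v < 1) :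
    uf s v = (Q1Alg_w s v - 1) / (Q1Alg_w s v + 1) := by
  have h2 := Q1Alg_w_one_lt hs h0 h1
  have h3 := Q1Alg_w_sq hs h0 h1
  have h6 := Q1Alg_z_pos hs h0 h1
  have h4 : uf s v = 2 * (s * v / (1 - v) ^ 2) / (1 + 2 * (s * v / (1 - v) ^ 2) + Q1Alg_w s v) := rfl
  rw [h4, div_eq_div_iff (by positivity) (by positivity)]
  have h5 : s * v / (1 - v) ^ 2 = (Q1Alg_w s v ^ 2 - 1) / 4 := by linarith
  rw [h5]
  ring

/-- the derivative with respect to `s`, from `uf_eq` or from the explicit formula -/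
theorem uf_hasDerivAt_s {s v : ℝ} (hs : 0 < s) (h0 : 0 < v) (h1 : v < 1) :
    HasDerivAt (fun s => uf s v) (uf s v * (1 - uf s v) / (s * (1 + uf s v))) s := by
  have hv : (1 - v) ≠ 0 := by linarith
  have e0 : HasDerivAt (fun s : ℝ => s * v / (1 - v) ^ 2) (v / (1 - v) ^ 2) s := by
    have := ((hasDerivAt_id s).mul_const v).div_const ((1 - v) ^ 2)
    simpa using this
  have e1 : HasDerivAt (fun s : ℝ => 1 + 4 * (s * v / (1 - v) ^ 2)) (4 * (v / (1 - v) ^ 2)) s :=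
    (e0.const_mul 4).const_add 1
  have hz := Q1Alg_z_pos hs h0 h1
  have e2 : HasDerivAt (fun s : ℝ => Q1Alg_w s v) (4 * (v / (1 - v) ^ 2) / (2 * Q1Alg_w s v)) s :=
    e1.sqrt (by positivity)
  have h3 := Q1Alg_w_one_lt hs h0 h1
  have h4 := Q1Alg_w_sq hs h0 h1
  have e3 := (e2.sub_const 1).div (e2.add_const 1) (by linarith)
  have e4 : (fun s => uf s v) =ᶠ[nhds s] fun s => (Q1Alg_w s v - 1) / (Q1Alg_w s v + 1) := by
    filter_upwards [lt_mem_nhds hs] with x hx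
    exact Q1Alg_uf_w hx h0 h1
  have e5 : HasDerivAt (fun s => uf s v) _ s := e3.congr_of_eventuallyEq e4
  refine e5.congr_deriv ?_
  rw [Q1Alg_uf_w hs h0 h1]
  have hs' : s = (Q1Alg_w s v ^ 2 - 1) * (1 - v) ^ 2 / (4 * v) := by
    rw [h4]
    field_simp
    ring
  have hw1 : Q1Alg_w s v + 1 ≠ 0 := by linarith
  have hw0 : Q1Alg_w s v ≠ 0 := by linarith
  have hw3 : Q1Alg_w s v - 1 ≠ 0 := by linarith
  have hw2 : 1 + (Q1Alg_w s v - 1) / (Q1Alg_w s v + 1) = 2 * Q1Alg_w s v / (Q1Alg_w s v + 1) := by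
    field_simp
    ring
  rw [hw2]
  generalize Q1Alg_w s v = w at *
  have hw4 : w ^ 2 - 1 ≠ 0 := by
    have : w ^ 2 - 1 = (w - 1) * (w + 1) := by ring
    rw [this]
    exact mul_ne_zero hw3 hw1
  subst hs'
  field_simp
  ring

/-- closed form of `Q1` as a function of `u`, `v` with `s = u (1-v)^2 / (v (1-u)^2)` -/
noncomputable def q1F (s u v : ℝ) : ℝ :=
  let E := v * (1 - u - v) / (1 - v) ^ 2
  let y := v * (1 - u) ^ 2
  let m := 1 + u + v - 3 * u * v
  let w := s * E / (1 + s * E)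
  let a := E / (1 + E)
  s * log ((1 - u * v) * (1 - v) / (1 - v - u * v)) - log (1 - u * v) + m - 1 / 2 -
    m / (2 * (1 - u)) - y / 2 - s * y + s * a + s * a * E * (1 - E) / 2 + s * E ^ 2 / 2 -
    s * E * y - s * E ^ 2 * w / 2

noncomputable def Q1f (s v : ℝ) : ℝ := q1F s (uf s v) v

/-- the generating function with all vertices and edges counted -/
noncomputable def Gf (s v : ℝ) : ℝ := s ^ 2 * Ef s v * Rf s v

/-- Partial derivatives: `Ef_hasDerivAt` for `v`; for `s` with `uf_hasDerivAt_s`. -/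
theorem Ef_hasDerivAt_s {s v : ℝ} (hs : 0 < s) (h0 : 0 < v) (h1 : v < 1) :
    HasDerivAt (fun s => Ef s v)
      (- v * (uf s v * (1 - uf s v) / (s * (1 + uf s v))) / (1 - v) ^ 2) s := by
  have h2 := uf_hasDerivAt_s hs h0 h1
  have h3 : HasDerivAt (fun s => v * (1 - uf s v - v) / (1 - v) ^ 2)
      (v * (-(uf s v * (1 - uf s v) / (s * (1 + uf s v)))) / (1 - v) ^ 2) s :=
    (((h2.const_sub 1).sub_const v).const_mul v).div_const _
  refine HasDerivAt.congr_deriv (f := fun s => Ef s v) h3 ?_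
  ring

private theorem Q1Alg_Yf_s {s v : ℝ} (hs : 0 < s) (h0 : 0 < v) (h1 : v < 1) :
    HasDerivAt (fun s => Yf s v)
      (- 2 * v * (1 - uf s v) * (uf s v * (1 - uf s v) / (s * (1 + uf s v)))) s := by
  have h2 := uf_hasDerivAt_s hs h0 h1
  have h3 : HasDerivAt (fun s => v * (1 - uf s v) ^ 2)
      (v * (2 * (1 - uf s v) * (-(uf s v * (1 - uf s v) / (s * (1 + uf s v)))))) s :=
    (((h2.const_sub 1).pow 2).congr_deriv (by simp)).const_mul v
  refine HasDerivAt.congr_deriv (f := fun s => Yf s v) h3 ?_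
  ring

/-- derivative of `Gf` for functions `E`, `Y` of `x`, and `S` of `x` -/
private theorem Q1Alg_G {S E Y : ℝ → ℝ} {x S' E' Y' : ℝ} (hS : HasDerivAt S S' x)
    (hE : HasDerivAt E E' x) (hY : HasDerivAt Y Y' x) (h1 : 1 + S x * E x ≠ 0)
    (h2 : 1 + E x ≠ 0) :
    HasDerivAt (fun x => S x ^ 2 * E x * (E x - Y x - S x * E x ^ 2 / (1 + S x * E x) -
      E x ^ 2 / (1 + E x)))
      (2 * S x * S' * E x * (E x - Y x - S x * E x ^ 2 / (1 + S x * E x) - E x ^ 2 / (1 + E x)) +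
        S x ^ 2 * (E' * (E x - Y x - S x * E x ^ 2 / (1 + S x * E x) - E x ^ 2 / (1 + E x)) +
          E x * (E' - Y' -
            ((S' * E x ^ 2 + 2 * S x * E x * E') * (1 + S x * E x) -
              S x * E x ^ 2 * (S' * E x + S x * E')) / (1 + S x * E x) ^ 2 -
            (2 * E x * E' * (1 + E x) - E x ^ 2 * E') / (1 + E x) ^ 2))) x := by
  have a1 : HasDerivAt (fun x => E x ^ 2) (2 * E x * E') x :=
    (hE.pow 2).congr_deriv (by simp)
  have a2 : HasDerivAt (fun x => S x ^ 2) (2 * S x * S') x :=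
    (hS.pow 2).congr_deriv (by simp)
  have a3 : HasDerivAt (fun x => S x * E x ^ 2) (S' * E x ^ 2 + S x * (2 * E x * E')) x :=
    hS.mul a1
  have a4 : HasDerivAt (fun x => 1 + S x * E x) (S' * E x + S x * E') x :=
    (hS.mul hE).const_add 1
  have a5 := a3.div a4 h1
  have a6 : HasDerivAt (fun x => 1 + E x) E' x := hE.const_add 1
  have a7 := a1.div a6 h2
  have a8 := (a2.mul hE).mul (((hE.sub hY).sub a5).sub a7)
  refine HasDerivAt.congr_deriv a8 ?_
  simp only [Pi.sub_apply, Pi.mul_apply, Pi.div_apply]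
  ring

private theorem Q1Alg_facts {s v : ℝ} (hs : 0 < s) (h0 : 0 < v) (h1 : v < 1)
    (h2 : 0 < 1 - uf s v - v) : 0 < uf s v ∧ uf s v < 1 ∧ 0 < Ef s v ∧ 0 < 1 - uf s v * v ∧
      0 < 1 - v - uf s v * v := by
  have h3 := uf_pos hs h0 h1
  have h4 := uf_lt_one hs h0 h1
  have h5 : uf s v * v < uf s v := by nlinarith
  have h6 : 0 < Ef s v := div_pos (mul_pos h0 h2) (pow_pos (by linarith) 2)
  exact ⟨h3, h4, h6, by linarith, by linarith⟩

private theorem Q1Alg_Z {u v s u' E' y' Es Ys : ℝ} (hu : 0 < u) (hu1 : u < 1) (hv : 0 < v)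
    (hv1 : v < 1) (huv : 1 - u * v ≠ 0)
    (hs : s = u * (1 - v) ^ 2 / (v * (1 - u) ^ 2))
    (hu' : u' = u * (1 - u) * (1 + v) / ((1 + u) * v * (1 - v)))
    (hE' : E' = (1 - u - v - 3 * v * u) / ((1 + u) * (1 - v) ^ 3))
    (hy' : y' = (1 - u) ^ 2 * (1 - u - v - 3 * v * u) / ((1 + u) * (1 - v)))
    (hEs : Es = - v * (u * (1 - u) / (s * (1 + u))) / (1 - v) ^ 2)
    (hYs : Ys = - 2 * v * (1 - u) * (u * (1 - u) / (s * (1 + u)))) :
    s * (-(u' * v + u) / (1 - u * v)) + s / (1 - v) - (-(u' * v + u) / (1 - u * v)) +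
      (u' + 1 - 3 * (u' * v + u)) - ((u' + 1 - 3 * (u' * v + u)) / (2 * (1 - u)) +
        (1 + u + v - 3 * u * v) * u' / (2 * (1 - u) ^ 2)) - y' / 2 - s * y' -
      s * (v * (1 - u - v) / (1 - v) ^ 2) * y' + s ^ 2 * (Ys * E' - y' * Es) / 2 = 0 := by
  have a1 : 1 - v ≠ 0 := by linarith
  have a2 : 1 - u ≠ 0 := by linarith
  have a3 : 1 + u ≠ 0 := by linarith
  have a4 : s ≠ 0 := by
    rw [hs]
    exact div_ne_zero (mul_ne_zero hu.ne' (pow_ne_zero 2 a1))
      (mul_ne_zero hv.ne' (pow_ne_zero 2 a2))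
  have b1 : s ^ 2 * (Ys * E' - y' * Es) / 2 =
      s * ((- 2 * v * (1 - u) * (u * (1 - u) / (1 + u))) * E' -
        y' * (- v * (u * (1 - u) / (1 + u)) / (1 - v) ^ 2)) / 2 := by
    rw [hYs, hEs]
    field_simp
  rw [b1, hs, hu', hE', hy']
  field_simp
  ring

/-- the part of `Q1f` which is a function of `E` -/
private theorem Q1Alg_B {s E : ℝ} (h1 : 1 + s * E ≠ 0) (h2 : 1 + E ≠ 0) :
    HasDerivAt (fun E => s * (E / (1 + E)) + s * (E / (1 + E)) * E * (1 - E) / 2 +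
      s * E ^ 2 / 2 - s * E ^ 2 * (s * E / (1 + s * E)) / 2)
      (s - s ^ 2 * E ^ 2 / (1 + s * E) - s ^ 2 * E ^ 2 / (2 * (1 + s * E) ^ 2)) E := by
  have a0 : HasDerivAt (fun E : ℝ => E) 1 E := hasDerivAt_id E
  have a1 : HasDerivAt (fun E : ℝ => E / (1 + E)) (1 / (1 + E) ^ 2) E := by
    refine (a0.div (a0.const_add 1) h2).congr_deriv ?_
    field_simp
    ring
  have a2 : HasDerivAt (fun E : ℝ => s * E) s E := by simpa using a0.const_mul s
  have a3 : HasDerivAt (fun E : ℝ => s * E / (1 + s * E)) (s / (1 + s * E) ^ 2) E := by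
    refine (a2.div (a2.const_add 1) h1).congr_deriv ?_
    field_simp
    ring
  have a4 : HasDerivAt (fun E : ℝ => E ^ 2) (2 * E) E := (a0.pow 2).congr_deriv (by simp)
  have a5 := ((((a1.const_mul s).add ((((a1.const_mul s).mul a0).mul (a0.const_sub 1)).div_const
    2)).add ((a4.const_mul s).div_const 2)).sub (((a4.const_mul s).mul a3).div_const 2))
  refine HasDerivAt.congr_deriv a5 ?_
  simp only [Pi.mul_apply]
  field_simp
  ring

private theorem Q1Alg_Q {s v : ℝ} (hs : 0 < s) (h0 : 0 < v) (h1 : v < 1)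
    (h2 : 0 < 1 - uf s v - v) {u' E' y' : ℝ} (hu' : HasDerivAt (uf s) u' v)
    (hE' : HasDerivAt (Ef s) E' v) (hy' : HasDerivAt (Yf s) y' v) :
    HasDerivAt (fun v => Q1f s v)
      (s * (-(u' * v + uf s v) / (1 - uf s v * v) - 1 / (1 - v) +
          (1 + (u' * v + uf s v)) / (1 - v - uf s v * v)) -
        (-(u' * v + uf s v) / (1 - uf s v * v)) + (u' + 1 - 3 * (u' * v + uf s v)) -
        ((u' + 1 - 3 * (u' * v + uf s v)) / (2 * (1 - uf s v)) +
          (1 + uf s v + v - 3 * uf s v * v) * u' / (2 * (1 - uf s v) ^ 2)) - y' / 2 - s * y' +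
        (s - s ^ 2 * Ef s v ^ 2 / (1 + s * Ef s v) -
          s ^ 2 * Ef s v ^ 2 / (2 * (1 + s * Ef s v) ^ 2)) * E' -
        s * (E' * Yf s v + Ef s v * y')) v := by
  obtain ⟨h3, h4, h5, h6, h7⟩ := Q1Alg_facts hs h0 h1 h2
  have a0 : HasDerivAt (fun v : ℝ => v) 1 v := hasDerivAt_id v
  have a1 : HasDerivAt (fun v => uf s v * v) (u' * v + uf s v) v :=
    (hu'.mul a0).congr_deriv (by simp)
  have a2 : HasDerivAt (fun v => 1 - uf s v * v) (-(u' * v + uf s v)) v := a1.const_sub 1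
  have a3 : HasDerivAt (fun v : ℝ => 1 - v) (-1) v := a0.const_sub 1
  have a4 : HasDerivAt (fun v => 1 - v - uf s v * v) (-1 - (u' * v + uf s v)) v := a3.sub a1
  have h8 : (1 - uf s v * v) * (1 - v) / (1 - v - uf s v * v) ≠ 0 := by
    have : 0 < 1 - v := by linarith
    positivity
  have h9 : 1 - v ≠ 0 := by linarith
  have a5 : HasDerivAt (fun v => log ((1 - uf s v * v) * (1 - v) / (1 - v - uf s v * v)))
      (-(u' * v + uf s v) / (1 - uf s v * v) - 1 / (1 - v) +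
          (1 + (u' * v + uf s v)) / (1 - v - uf s v * v)) v := by
    refine (((a2.mul a3).div a4 h7.ne').log h8).congr_deriv ?_
    simp only [Pi.mul_apply, Pi.div_apply]
    generalize u' * v + uf s v = X at *
    generalize uf s v * v = Y at *
    have h6' := h6.ne'
    have h7' := h7.ne'
    field_simp
    ring
  have a6 : HasDerivAt (fun v => log (1 - uf s v * v)) (-(u' * v + uf s v) / (1 - uf s v * v)) v :=
    a2.log h6.ne'
  have a7 : HasDerivAt (fun v => 1 + uf s v + v - 3 * uf s v * v)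
      (u' + 1 - 3 * (u' * v + uf s v)) v := by
    have := ((hu'.const_add 1).add a0).sub ((hu'.const_mul 3).mul a0)
    refine HasDerivAt.congr_deriv this ?_
    ring
  have h10 : 1 - uf s v ≠ 0 := by linarith
  have a8 : HasDerivAt (fun v => 2 * (1 - uf s v)) (2 * (-u')) v :=
    (hu'.const_sub 1).const_mul 2
  have a9 : HasDerivAt (fun v => (1 + uf s v + v - 3 * uf s v * v) / (2 * (1 - uf s v)))
      ((u' + 1 - 3 * (u' * v + uf s v)) / (2 * (1 - uf s v)) +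
          (1 + uf s v + v - 3 * uf s v * v) * u' / (2 * (1 - uf s v) ^ 2)) v := by
    refine (a7.div a8 (mul_ne_zero two_ne_zero h10)).congr_deriv ?_
    field_simp
    ring
  have h11 : 1 + s * Ef s v ≠ 0 := by positivity
  have h12 : 1 + Ef s v ≠ 0 := by positivity
  have b1 := (Q1Alg_B h11 h12).comp v hE'
  have b2 := (((((((a5.const_mul s).sub a6).add a7).sub_const (1 / 2)).sub a9).sub
    (hy'.div_const 2)).sub (hy'.const_mul s)).add b1 |>.sub ((hE'.mul hy').const_mul s)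
  have b3 : (fun v => Q1f s v) = fun v => (s * log ((1 - uf s v * v) * (1 - v) /
      (1 - v - uf s v * v)) - log (1 - uf s v * v) + (1 + uf s v + v - 3 * uf s v * v) - 1 / 2 -
      (1 + uf s v + v - 3 * uf s v * v) / (2 * (1 - uf s v)) - Yf s v / 2 - s * Yf s v) +
      (s * (Ef s v / (1 + Ef s v)) + s * (Ef s v / (1 + Ef s v)) * Ef s v * (1 - Ef s v) / 2 +
        s * Ef s v ^ 2 / 2 - s * Ef s v ^ 2 * (s * Ef s v / (1 + s * Ef s v)) / 2) -
      s * (Ef s v * Yf s v) := by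
    funext v
    have : Q1f s v = s * log ((1 - uf s v * v) * (1 - v) / (1 - v - uf s v * v)) -
        log (1 - uf s v * v) + (1 + uf s v + v - 3 * uf s v * v) - 1 / 2 -
        (1 + uf s v + v - 3 * uf s v * v) / (2 * (1 - uf s v)) - Yf s v / 2 - s * Yf s v +
        s * (Ef s v / (1 + Ef s v)) + s * (Ef s v / (1 + Ef s v)) * Ef s v * (1 - Ef s v) / 2 +
        s * Ef s v ^ 2 / 2 - s * Ef s v * Yf s v -
        s * Ef s v ^ 2 * (s * Ef s v / (1 + s * Ef s v)) / 2 := rfl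
    rw [this]
    ring
  rw [b3]
  exact b2

private theorem Q1Alg_W {u v u' E' : ℝ} (hu : 0 < u) (hv : 0 < v)
    (hv1 : v < 1) (h2 : 0 < 1 - v - u * v)
    (hu' : u' = u * (1 - u) * (1 + v) / ((1 + u) * v * (1 - v)))
    (hE' : E' = (1 - u - v - 3 * v * u) / ((1 + u) * (1 - v) ^ 3)) :
    E' / (1 + v * (1 - u - v) / (1 - v) ^ 2) =
      2 / (1 - v) - (1 + (u' * v + u)) / (1 - v - u * v) := by
  have a1 : 1 - v ≠ 0 := by linarith
  have a3 : 1 + u ≠ 0 := by linarith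
  have a4 : 1 + v * (1 - u - v) / (1 - v) ^ 2 = (1 - v - u * v) / (1 - v) ^ 2 := by
    field_simp
    ring
  have a5 := h2.ne'
  rw [a4, hu', hE']
  field_simp
  ring

/-- The identity `2 E ∂Q1 = ∂G/∂s` at fixed `E`, in the coordinates `(s, v)`; all derivatives exist, and after the substitution of the
derivatives of `uf` and of `s = u (1-v)^2 / (v (1-u)^2)` (`uf_eq`) it is an identity of rational functions of `u`, `v`
(the logarithm `log ((1-uv)(1-v)/(1-v-uv))` is multiplied with `s`, which is fixed).  Verified numerically with 60 digits. -/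
theorem Q1f_deriv {s v : ℝ} (hs : 0 < s) (h0 : 0 < v) (h1 : v < 1) (h2 : 0 < 1 - uf s v - v) :
    ∃ Gs Gv : ℝ, HasDerivAt (fun s => Gf s v) Gs s ∧ HasDerivAt (fun v => Gf s v) Gv v ∧
      HasDerivAt (fun v => Q1f s v)
        ((Gs * (qf s v / ((1 + uf s v) * (1 - v) ^ 3)) -
          Gv * (- v * (uf s v * (1 - uf s v) / (s * (1 + uf s v))) / (1 - v) ^ 2)) /
          (2 * Ef s v)) v := by
  obtain ⟨h3, h4, h5, h6, h7⟩ := Q1Alg_facts hs h0 h1 h2
  have h11 : 1 + s * Ef s v ≠ 0 := by positivity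
  have h12 : 1 + Ef s v ≠ 0 := by positivity
  have hEs := Ef_hasDerivAt_s hs h0 h1
  have hYs := Q1Alg_Yf_s hs h0 h1
  have hEv := Ef_hasDerivAt hs h0 h1
  have hYv := Yf_hasDerivAt hs h0 h1
  have hu := uf_hasDerivAt hs h0 h1
  have hGs := Q1Alg_G (hasDerivAt_id s) hEs hYs h11 h12
  have hGv := Q1Alg_G (hasDerivAt_const v s) hEv hYv h11 h12
  refine ⟨_, _, hGs, hGv, (Q1Alg_Q hs h0 h1 h2 hu hEv hYv).congr_deriv ?_⟩
  have hseq : s = uf s v * (1 - v) ^ 2 / (v * (1 - uf s v) ^ 2) := by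
    have := uf_eq hs h0 h1
    have h8 : v * (1 - uf s v) ^ 2 ≠ 0 := by
      have : 0 < 1 - uf s v := by linarith
      positivity
    rw [eq_div_iff h8, this]
    ring
  have hZ := Q1Alg_Z (E' := qf s v / ((1 + uf s v) * (1 - v) ^ 3))
    (y' := (1 - uf s v) ^ 2 * qf s v / ((1 + uf s v) * (1 - v))) h3 h4 h0 h1 h6.ne' hseq
    rfl rfl rfl rfl rfl
  have hW := Q1Alg_W (E' := qf s v / ((1 + uf s v) * (1 - v) ^ 3)) h3 h0 h1 h7 rfl rfl
  have hEf : v * (1 - uf s v - v) / (1 - v) ^ 2 = Ef s v := rfl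
  rw [hEf] at hZ hW
  simp only [id_eq, mul_zero, zero_mul, mul_one, one_mul, zero_add]
  have h5' := h5.ne'
  generalize uf s v * (1 - uf s v) * (1 + v) / ((1 + uf s v) * v * (1 - v)) = u' at *
  generalize (1 - uf s v) ^ 2 * qf s v / ((1 + uf s v) * (1 - v)) = Yv at *
  generalize qf s v / ((1 + uf s v) * (1 - v) ^ 3) = Ev at *
  generalize - 2 * v * (1 - uf s v) * (uf s v * (1 - uf s v) / (s * (1 + uf s v))) = Ys at *
  generalize - v * (uf s v * (1 - uf s v) / (s * (1 + uf s v))) / (1 - v) ^ 2 = Es at *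
  have hR : (((2 * s * Ef s v * (Ef s v - Yf s v - s * Ef s v ^ 2 / (1 + s * Ef s v) -
      Ef s v ^ 2 / (1 + Ef s v)) + s ^ 2 * (Es * (Ef s v - Yf s v - s * Ef s v ^ 2 /
      (1 + s * Ef s v) - Ef s v ^ 2 / (1 + Ef s v)) + Ef s v * (Es - Ys -
      ((Ef s v ^ 2 + 2 * s * Ef s v * Es) * (1 + s * Ef s v) -
        s * Ef s v ^ 2 * (Ef s v + s * Es)) / (1 + s * Ef s v) ^ 2 -
      (2 * Ef s v * Es * (1 + Ef s v) - Ef s v ^ 2 * Es) / (1 + Ef s v) ^ 2))) * Ev -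
      (s ^ 2 * (Ev * (Ef s v - Yf s v - s * Ef s v ^ 2 / (1 + s * Ef s v) -
      Ef s v ^ 2 / (1 + Ef s v)) + Ef s v * (Ev - Yv -
      ((2 * s * Ef s v * Ev) * (1 + s * Ef s v) - s * Ef s v ^ 2 * (s * Ev)) /
        (1 + s * Ef s v) ^ 2 -
      (2 * Ef s v * Ev * (1 + Ef s v) - Ef s v ^ 2 * Ev) / (1 + Ef s v) ^ 2))) * Es) /
      (2 * Ef s v)) = (s * (Ef s v - Yf s v - s * Ef s v ^ 2 / (1 + s * Ef s v) -
      Ef s v ^ 2 / (1 + Ef s v)) - s ^ 2 * Ef s v ^ 2 / (2 * (1 + s * Ef s v) ^ 2)) * Ev -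
      s ^ 2 * (Ys * Ev - Yv * Es) / 2 := by
    generalize Ef s v = E at *
    generalize Yf s v = Y at *
    field_simp
    ring
  rw [hR]
  have hB : 1 - Ef s v + Ef s v ^ 2 / (1 + Ef s v) = 1 / (1 + Ef s v) := by
    field_simp
    ring
  linear_combination hZ + s * hW + (s * Ev) * hB

/-- the value at `v = 0` -/
theorem Q1f_zero {s : ℝ} (hs : 0 < s) :
    Filter.Tendsto (fun v => Q1f s v) (nhdsWithin 0 (Set.Ioi 0)) (nhds 0) := by
  have h1 : ContinuousAt (fun p : ℝ × ℝ => q1F s p.1 p.2) (0, 0) := by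
    unfold q1F
    fun_prop (disch := norm_num)
  have h2 : Filter.Tendsto (uf s) (nhdsWithin 0 (Set.Ioi 0)) (nhds 0) := by
    have h3 := (uf_continuousOn hs) 0 ⟨le_refl _, one_pos⟩
    rw [ContinuousWithinAt, uf_zero] at h3
    refine h3.mono_left ?_
    have h4 : Set.Ioo (0 : ℝ) 1 ∈ nhdsWithin (0 : ℝ) (Set.Ioi 0) :=
      Ioo_mem_nhdsGT one_pos
    rw [← nhdsWithin_inter_of_mem h4]
    exact nhdsWithin_mono _ fun x hx => ⟨hx.1.1.le, hx.1.2⟩
  have h3 : Filter.Tendsto (fun v : ℝ => (uf s v, v)) (nhdsWithin 0 (Set.Ioi 0)) (nhds (0, 0)) :=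
    h2.prodMk_nhds (Filter.tendsto_id.mono_left nhdsWithin_le_nhds)
  have h4 := h1.tendsto.comp h3
  have h5 : q1F s 0 0 = 0 := by
    simp [q1F]
    norm_num
  simp only [h5] at h4
  exact h4

end PGr

end

section
/-! # Module Q1Sym: exchange of two root darts -/

set_option linter.unusedSectionVars false

namespace PGr
open Equiv Finset
open scoped ENNReal Classical

private theorem Q1Sym_per {T : Type*} [Fintype T] (s : Perm T) (t : T) :
    Function.minimalPeriod (fun x => s x) t =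
      (univ.filter fun x => Quotient.mk (Perm.SameCycle.setoid s) x =
        Quotient.mk (Perm.SameCycle.setoid s) t).card := by
  have h1 : Function.minimalPeriod (fun x => s x) t =
      Fintype.card (MulAction.orbit (Subgroup.zpowers s) t) :=
    MulAction.minimalPeriod_eq_card (a := s) (b := t)
  rw [h1, Fintype.card_subtype]
  congr 1
  ext x
  simp only [mem_filter, mem_univ, true_and]
  rw [Quotient.eq]
  constructor
  · rintro ⟨⟨g, i, hi⟩, hg⟩
    have h2 : g t = x := hg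
    have h3 : (s ^ i) t = x := by
      rw [← h2]
      exact congrArg (fun f : Perm T => f t) hi
    exact Perm.SameCycle.symm ⟨i, h3⟩
  · intro h
    obtain ⟨i, hi⟩ := Perm.SameCycle.symm h
    exact ⟨⟨s ^ i, i, rfl⟩, hi⟩

private theorem Q1Sym_sum {T : Type*} [Fintype T] (s : Perm T) :
    ∑ t, ((Function.minimalPeriod (fun x => s x) t : ℕ) : ℝ≥0∞)⁻¹ = (nV s : ℝ≥0∞) := by
  have h1 := Finset.sum_fiberwise (univ : Finset T)
    (fun t => Quotient.mk (Perm.SameCycle.setoid s) t)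
    (fun t => ((Function.minimalPeriod (fun x => s x) t : ℕ) : ℝ≥0∞)⁻¹)
  rw [← h1, nV, Nat.card_eq_fintype_card]
  have h2 : ∀ q : Quotient (Perm.SameCycle.setoid s),
      ∑ t ∈ univ.filter (fun t => Quotient.mk (Perm.SameCycle.setoid s) t = q),
        ((Function.minimalPeriod (fun x => s x) t : ℕ) : ℝ≥0∞)⁻¹ = 1 := by
    intro q
    have h3 : ∀ t ∈ univ.filter (fun t => Quotient.mk (Perm.SameCycle.setoid s) t = q),
        ((Function.minimalPeriod (fun x => s x) t : ℕ) : ℝ≥0∞)⁻¹ =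
        (((univ.filter (fun t => Quotient.mk (Perm.SameCycle.setoid s) t = q)).card : ℕ) :
          ℝ≥0∞)⁻¹ := by
      intro t ht
      rw [mem_filter] at ht
      rw [Q1Sym_per, ht.2]
    rw [Finset.sum_congr rfl h3, Finset.sum_const, nsmul_eq_mul]
    refine ENNReal.mul_inv_cancel ?_ (ENNReal.natCast_ne_top _)
    obtain ⟨t, rfl⟩ := Quotient.exists_rep q
    have : 0 < (univ.filter (fun x => Quotient.mk (Perm.SameCycle.setoid s) x =
        Quotient.mk (Perm.SameCycle.setoid s) t)).card :=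
      Finset.card_pos.2 ⟨t, by simp⟩
    exact_mod_cast this.ne'
  rw [Finset.sum_congr rfl fun q _ => h2 q, Finset.sum_const, nsmul_eq_mul, mul_one,
    Finset.card_univ]

/-- the shifted class and the isomorphism -/
private noncomputable def Q1Sym_c (c : GC) (t : c.rep.1.T) : GC := (exists_shift c t).choose

private noncomputable def Q1Sym_e (c : GC) (t : c.rep.1.T) :
    c.rep.1.T ≃ (Q1Sym_c c t).rep.1.T := (exists_shift c t).choose_spec.choose

private theorem Q1Sym_iso (c : GC) (t : c.rep.1.T) : MIso c (Q1Sym_c c t) (Q1Sym_e c t) :=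
  (exists_shift c t).choose_spec.choose_spec.1

private theorem Q1Sym_root (c : GC) (t : c.rep.1.T) : Q1Sym_e c t t = Sum.inr true :=
  (exists_shift c t).choose_spec.choose_spec.2

/-- the exchange of the root and a dart -/
private noncomputable def Q1Sym_f (p : Σ c : GC, c.rep.1.T) : Σ c : GC, c.rep.1.T :=
  ⟨Q1Sym_c p.1 p.2, Q1Sym_e p.1 p.2 (Sum.inr true)⟩

private theorem Q1Sym_id {c : GC} {e : c.rep.1.T ≃ c.rep.1.T} (h : MIso c c e)
    (hr : e (Sum.inr true) = Sum.inr true) : e = Equiv.refl _ :=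
  iso_unique c.rep.2 (Sum.inr true) e (Equiv.refl _) h.a h.s (fun _ => rfl) (fun _ => rfl) hr

private theorem Q1Sym_inv (p : Σ c : GC, c.rep.1.T) : Q1Sym_f (Q1Sym_f p) = p := by
  obtain ⟨c, t⟩ := p
  have h1 := Q1Sym_iso c t
  have h2 := Q1Sym_root c t
  have h3 := Q1Sym_iso (Q1Sym_c c t) (Q1Sym_e c t (Sum.inr true))
  have h4 := Q1Sym_root (Q1Sym_c c t) (Q1Sym_e c t (Sum.inr true))
  show (⟨Q1Sym_c (Q1Sym_c c t) (Q1Sym_e c t (Sum.inr true)),
    Q1Sym_e (Q1Sym_c c t) (Q1Sym_e c t (Sum.inr true)) (Sum.inr true)⟩ : Σ c : GC, c.rep.1.T) = ⟨c, t⟩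
  generalize Q1Sym_e (Q1Sym_c c t) (Q1Sym_e c t (Sum.inr true)) = e' at *
  generalize Q1Sym_c (Q1Sym_c c t) (Q1Sym_e c t (Sum.inr true)) = c'' at *
  have h5 := h1.trans h3
  have h6 : c = c'' := h5.eq h4
  subst h6
  have h7 := Q1Sym_id h5 h4
  have h8 : e' (Sum.inr true) = t := by
    rw [← h2]
    exact congrArg (fun f : c.rep.1.T ≃ c.rep.1.T => f t) h7
  rw [h8]

private theorem Q1Sym_deg (c : GC) (t : c.rep.1.T) : (Q1Sym_c c t).rep.1.dg =
    Function.minimalPeriod (fun x => c.rep.1.s x) t := by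
  rw [BMap.dg]
  have h1 := Q1Sym_iso c t
  have h2 := Q1Sym_root c t
  refine Function.minimalPeriod_eq_minimalPeriod_iff.2 fun n => ?_
  have h3 : ∀ n : ℕ, Q1Sym_e c t ((fun x => c.rep.1.s x)^[n] t) =
      (fun x => (Q1Sym_c c t).rep.1.s x)^[n] (Sum.inr true) := by
    intro n
    induction n with
    | zero => exact h2
    | succ n ih =>
      rw [Function.iterate_succ_apply', Function.iterate_succ_apply', ← ih]
      exact h1.s _
  constructor
  · intro h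
    have h4 : (fun x => (Q1Sym_c c t).rep.1.s x)^[n] (Sum.inr true) = Sum.inr true := h
    rw [← h3, ← h2] at h4
    exact (Q1Sym_e c t).injective h4
  · intro h
    have h4 : (fun x => c.rep.1.s x)^[n] t = t := h
    have h5 := h3 n
    rw [h4, h2] at h5
    exact h5.symm

/-- `X` is a function of maps without a root.  Both sides are sums over the pairs (map `c` with root dart `r`, dart `t` of
`c`): on the left of `X c / (degree of the vertex of r)`, on the right of `X c / (degree of the vertex of t)` (every vertex contributes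
`1`, so the sum over `t` is the number of vertices).  The exchange of `r` and `t` is a bijection of these pairs: `(c, t) ↦ (c', e r)`
with `e : c → c'`, `e t = r'` (`exists_shift`, `MIso.eq`, `MIso.symm`). -/
theorem q1_sym (X : GC → ℝ≥0∞) (hX : ∀ c c' e, MIso c c' e → X c = X c') :
    ∑' c : GC, (Fintype.card c.rep.1.T : ℝ≥0∞) * X c / (c.rep.1.dg : ℝ≥0∞) =
      ∑' c : GC, (nV c.rep.1.s : ℝ≥0∞) * X c := by
  have h1 : ∑' c : GC, (Fintype.card c.rep.1.T : ℝ≥0∞) * X c / (c.rep.1.dg : ℝ≥0∞) =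
      ∑' p : Σ c : GC, c.rep.1.T, X p.1 / (p.1.rep.1.dg : ℝ≥0∞) := by
    rw [ENNReal.tsum_sigma']
    refine tsum_congr fun c => ?_
    rw [tsum_fintype]
    show _ = ∑ _b : c.rep.1.T, X c / (c.rep.1.dg : ℝ≥0∞)
    rw [Finset.sum_const, Finset.card_univ, nsmul_eq_mul, mul_div_assoc]
  have h2 : ∑' c : GC, (nV c.rep.1.s : ℝ≥0∞) * X c =
      ∑' p : Σ c : GC, c.rep.1.T, X p.1 /
        ((Function.minimalPeriod (fun x => p.1.rep.1.s x) p.2 : ℕ) : ℝ≥0∞) := by
    rw [ENNReal.tsum_sigma']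
    refine tsum_congr fun c => ?_
    rw [tsum_fintype, ← Q1Sym_sum, Finset.sum_mul]
    refine Finset.sum_congr rfl fun t _ => ?_
    rw [div_eq_mul_inv, mul_comm]
  have h3 : ∑' p : Σ c : GC, c.rep.1.T, X p.1 / (p.1.rep.1.dg : ℝ≥0∞) =
      ∑' p : Σ c : GC, c.rep.1.T, X (Q1Sym_f p).1 / ((Q1Sym_f p).1.rep.1.dg : ℝ≥0∞) :=
    ((Function.Involutive.toPerm Q1Sym_f Q1Sym_inv).tsum_eq
      (fun p : Σ c : GC, c.rep.1.T => X p.1 / (p.1.rep.1.dg : ℝ≥0∞))).symm
  rw [h1, h2, h3]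
  refine tsum_congr fun p => ?_
  have h4 : X p.1 = X (Q1Sym_f p).1 := hX _ _ _ (Q1Sym_iso p.1 p.2)
  have h5 : (Q1Sym_f p).1.rep.1.dg = Function.minimalPeriod (fun x => p.1.rep.1.s x) p.2 :=
    Q1Sym_deg p.1 p.2
  rw [h4, h5]

end PGr

end

section
/-! # Module Q1Fd: derivatives of the generating functions of rigid maps -/

set_option linter.unusedSectionVars false

namespace PGr
open Equiv Finset
open scoped ENNReal Classical

/-- number of edges -/
noncomputable def nE (c : GC) : ℕ := Fintype.card c.rep.1.T / 2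

/-- all vertices and edges are counted -/
noncomputable def gG (s E : ℝ) : ℝ :=
  ∑' c : GC, if Rigid c.rep.1 then s ^ nV c.rep.1.s * E ^ nE c else 0

/-- derivative with respect to `s` -/
noncomputable def gH (s E : ℝ) : ℝ :=
  ∑' c : GC, if Rigid c.rep.1 then (nV c.rep.1.s : ℝ) * s ^ (nV c.rep.1.s - 1) * E ^ nE c else 0

/-- derivative with respect to `E` -/
noncomputable def gE (s E : ℝ) : ℝ :=
  ∑' c : GC, if Rigid c.rep.1 then (nE c : ℝ) * s ^ nV c.rep.1.s * E ^ (nE c - 1) else 0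

/-- divided by the degree of the root vertex -/
noncomputable def gQ (s E : ℝ) : ℝ :=
  ∑' c : GC, if Rigid c.rep.1 then s ^ (nV c.rep.1.s - 1) * E ^ nE c / (c.rep.1.dg : ℝ) else 0

private theorem Q1Fd_two_le_nV (c : GC) : 2 ≤ nV c.rep.1.s := Good.two_le_nV c.rep.2

private theorem Q1Fd_nE (c : GC) : nE c = Fintype.card c.rep.1.D / 2 + 1 := by
  have h : Fintype.card c.rep.1.T = Fintype.card c.rep.1.D + 2 := by
    rw [Fintype.card_sum, Fintype.card_bool]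
  rw [nE, h]
  omega

private theorem Q1Fd_card (c : GC) : Fintype.card c.rep.1.T = 2 * nE c := by
  have h : Good c.rep.1.aa c.rep.1.s := c.rep.2
  have h1 : ∑ x : c.rep.1.T, (1 : ZMod 2) = 0 := by
    refine Finset.sum_involution (fun x _ => c.rep.1.aa x) ?_ ?_ ?_ ?_
    · intro x _
      decide
    · intro x _ _
      exact h.fpf x
    · intro x _
      exact Finset.mem_univ _
    · intro x _
      exact h.inv x
  have h2 : ((Fintype.card c.rep.1.T : ℕ) : ZMod 2) = 0 := by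
    rw [← h1, Finset.sum_const, Finset.card_univ]
    simp
  have h3 : 2 ∣ Fintype.card c.rep.1.T := (ZMod.natCast_eq_zero_iff _ _).1 h2
  rw [nE]
  omega

/-- the sum of all terms in `ENNReal` -/
private theorem Q1Fd_enn {s E : ℝ} (hs : 0 ≤ s) (hE : 0 ≤ E) :
    ∑' c : GC, ENNReal.ofReal (if Rigid c.rep.1 then s ^ nV c.rep.1.s * E ^ nE c else 0) =
      ENNReal.ofReal s ^ 2 * ENNReal.ofReal E * Rg (ENNReal.ofReal s) (ENNReal.ofReal E) := by
  rw [Rg, ← ENNReal.tsum_mul_left]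
  refine tsum_congr fun c => ?_
  by_cases hc : Rigid c.rep.1
  · rw [if_pos hc, if_pos hc, ENNReal.ofReal_mul (pow_nonneg hs _), ENNReal.ofReal_pow hs,
      ENNReal.ofReal_pow hE, Q1Fd_nE]
    have h2 := Q1Fd_two_le_nV c
    obtain ⟨k, hk⟩ := Nat.exists_eq_add_of_le h2
    rw [hk, Nat.add_sub_cancel_left, pow_add, pow_add]
    ring
  · rw [if_neg hc, if_neg hc, ENNReal.ofReal_zero, mul_zero]

private theorem Q1Fd_summable {s E : ℝ} (hs : 0 ≤ s) (hE : 0 ≤ E)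
    (h : Rg (ENNReal.ofReal s) (ENNReal.ofReal E) ≠ ⊤) :
    Summable fun c : GC => if Rigid c.rep.1 then s ^ nV c.rep.1.s * E ^ nE c else 0 := by
  have h1 := Q1Fd_enn hs hE
  have h2 : ∑' c : GC, ENNReal.ofReal (if Rigid c.rep.1 then s ^ nV c.rep.1.s * E ^ nE c else 0)
      ≠ ⊤ := by
    rw [h1]
    exact ENNReal.mul_ne_top (ENNReal.mul_ne_top (ENNReal.pow_ne_top ENNReal.ofReal_ne_top)
      ENNReal.ofReal_ne_top) h
  refine (ENNReal.summable_toReal h2).congr fun c => ?_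
  rw [ENNReal.toReal_ofReal]
  split_ifs
  · positivity
  · exact le_rfl

private theorem Q1Fd_Ef_pos {t v : ℝ} (h0 : 0 < t) (h1 : t < 1) (hv : 0 < v) (hv' : v < t) :
    0 < Ef (scr t) v := by
  have := Ef_strictMonoOn h0 h1 ⟨le_rfl, h0.le⟩ ⟨hv.le, hv'.le⟩ hv
  rwa [Ef_zero] at this

/-- `gG s E = s ^ 2 * E * Rg s E` -/
theorem gG_eq {t v : ℝ} (h0 : 0 < t) (h1 : t < 1) (hs : scr t < 1 / 10) (hv : 0 < v) (hv' : v < t) :
    gG (scr t) (Ef (scr t) v) = scr t ^ 2 * Ef (scr t) v * Rf (scr t) v := by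
  have hs0 := scr_pos h0 h1
  have hE0 := Q1Fd_Ef_pos h0 h1 hv hv'
  obtain ⟨hR, hRg⟩ := Rg_expl h0 h1 hs.le hv hv'
  have h2 := Q1Fd_enn hs0.le hE0.le
  rw [hRg] at h2
  have h3 : gG (scr t) (Ef (scr t) v) = (∑' c : GC, ENNReal.ofReal (if Rigid c.rep.1 then
      scr t ^ nV c.rep.1.s * Ef (scr t) v ^ nE c else 0)).toReal := by
    rw [ENNReal.tsum_toReal_eq fun _ => ENNReal.ofReal_ne_top, gG]
    refine tsum_congr fun c => ?_
    rw [ENNReal.toReal_ofReal]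
    split_ifs
    · positivity
    · exact le_rfl
  rw [h3, h2, ENNReal.toReal_mul, ENNReal.toReal_mul, ENNReal.toReal_pow,
    ENNReal.toReal_ofReal hs0.le, ENNReal.toReal_ofReal hE0.le, ENNReal.toReal_ofReal hR]

private theorem Q1Fd_point {t E : ℝ} (h0 : 0 < t) (h1 : t < 1) (hs : scr t < 1 / 10) (hE : 0 < E)
    (hE' : E < ecr t) : ∃ s₁ E₁ : ℝ, scr t < s₁ ∧ E < E₁ ∧
      Summable fun c : GC => if Rigid c.rep.1 then s₁ ^ nV c.rep.1.s * E₁ ^ nE c else 0 := by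
  have hI : Set.Ioo (0 : ℝ) 1 ∈ nhds t := Ioo_mem_nhds h0 h1
  have c1 := (scr_continuousOn.continuousAt hI).eventually_lt_const hs
  have c2 := (ecr_continuousOn.continuousAt hI).eventually_const_lt hE'
  have c3 : ∀ᶠ x in nhdsWithin t (Set.Iio t), ((scr x < 1 / 10 ∧ E < ecr x) ∧ x ∈ Set.Ioo (0 : ℝ) 1) ∧
      x < t :=
    (((c1.and c2).and hI).filter_mono nhdsWithin_le_nhds).and self_mem_nhdsWithin
  obtain ⟨x, ⟨⟨hx1, hx2⟩, hx3⟩, hx4⟩ := c3.exists
  refine ⟨scr x, (E + ecr x) / 2, scr_strictAntiOn hx3 ⟨h0, h1⟩ hx4, by linarith, ?_⟩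
  have hEp : 0 < (E + ecr x) / 2 := by linarith
  obtain ⟨v, hv0, hv1, hv2⟩ := exists_Ef hx3.1 hx3.2 hEp (by linarith : (E + ecr x) / 2 < ecr x)
  obtain ⟨_, hRg⟩ := Rg_expl hx3.1 hx3.2 hx1.le hv0 hv1
  rw [hv2] at hRg
  refine Q1Fd_summable (scr_pos hx3.1 hx3.2).le hEp.le ?_
  rw [hRg]
  exact ENNReal.ofReal_ne_top

private theorem Q1Fd_pow {a b : ℝ} (ha : 0 ≤ a) (hab : a < b) (n : ℕ) :
    (n : ℝ) * a ^ (n - 1) ≤ b ^ n / (b - a) := by
  have hba : 0 < b - a := by linarith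
  rw [le_div_iff₀ hba]
  induction n with
  | zero => simp
  | succ n ih =>
    have h1 : (n : ℝ) * a ^ n * (b - a) ≤ a * b ^ n := by
      rcases Nat.eq_zero_or_pos n with h | h
      · subst h
        simp only [Nat.cast_zero, zero_mul, pow_zero, mul_one]
        exact ha
      · have h2 : a ^ n = a * a ^ (n - 1) := by
          rw [← pow_succ', Nat.sub_add_cancel h]
        calc (n : ℝ) * a ^ n * (b - a) = a * ((n : ℝ) * a ^ (n - 1) * (b - a)) := by
              rw [h2]; ring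
          _ ≤ a * b ^ n := mul_le_mul_of_nonneg_left ih ha
    have h3 : a ^ n ≤ b ^ n := pow_le_pow_left₀ ha hab.le n
    rw [Nat.add_sub_cancel, Nat.cast_add, Nat.cast_one]
    have h4 : a ^ n * (b - a) ≤ b ^ n * (b - a) := mul_le_mul_of_nonneg_right h3 hba.le
    calc ((n : ℝ) + 1) * a ^ n * (b - a) = (n : ℝ) * a ^ n * (b - a) + a ^ n * (b - a) := by ring
      _ ≤ a * b ^ n + b ^ n * (b - a) := add_le_add h1 h4
      _ = b ^ (n + 1) := by ring

/-- the derivative of a monomial -/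
private theorem Q1Fd_mono (n m : ℕ) (p : ℝ × ℝ) : HasFDerivAt (fun p : ℝ × ℝ => p.1 ^ n * p.2 ^ m)
    (((n : ℝ) * p.1 ^ (n - 1) * p.2 ^ m) • ContinuousLinearMap.fst ℝ ℝ ℝ +
      ((m : ℝ) * p.1 ^ n * p.2 ^ (m - 1)) • ContinuousLinearMap.snd ℝ ℝ ℝ) p := by
  have h1 : HasFDerivAt (fun p : ℝ × ℝ => p.1) (ContinuousLinearMap.fst ℝ ℝ ℝ) p := hasFDerivAt_fst
  have h2 : HasFDerivAt (fun p : ℝ × ℝ => p.2) (ContinuousLinearMap.snd ℝ ℝ ℝ) p := hasFDerivAt_snd
  have h3 := (h1.pow n).mul (h2.pow m)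
  refine HasFDerivAt.congr_fderiv h3 ?_
  ext <;> simp <;> ring

private theorem Q1Fd_b1 {a s₁ x y E₁ : ℝ} (hx : 0 ≤ x) (hxa : x ≤ a) (ha : a < s₁)
    (hy : 0 ≤ y) (hyE : y ≤ E₁) (n m : ℕ) :
    (n : ℝ) * x ^ (n - 1) * y ^ m ≤ 1 / (s₁ - a) * (s₁ ^ n * E₁ ^ m) := by
  have h1 : (n : ℝ) * x ^ (n - 1) ≤ s₁ ^ n / (s₁ - a) :=
    le_trans (mul_le_mul_of_nonneg_left (pow_le_pow_left₀ hx hxa _) (Nat.cast_nonneg n))
      (Q1Fd_pow (hx.trans hxa) ha n)
  have h2 : y ^ m ≤ E₁ ^ m := pow_le_pow_left₀ hy hyE m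
  have h3 : 0 ≤ s₁ ^ n / (s₁ - a) := by
    have : 0 < s₁ - a := by linarith
    have : 0 ≤ s₁ := by linarith
    positivity
  calc (n : ℝ) * x ^ (n - 1) * y ^ m ≤ s₁ ^ n / (s₁ - a) * E₁ ^ m :=
        mul_le_mul h1 h2 (pow_nonneg hy m) h3
    _ = _ := by ring

private theorem Q1Fd_b2 {b s₁ x y E₁ : ℝ} (hx : 0 ≤ x) (hxs : x ≤ s₁)
    (hy : 0 ≤ y) (hyb : y ≤ b) (hb : b < E₁) (n m : ℕ) :
    (m : ℝ) * x ^ n * y ^ (m - 1) ≤ 1 / (E₁ - b) * (s₁ ^ n * E₁ ^ m) := by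
  have h := Q1Fd_b1 hy hyb hb hx hxs m n
  calc (m : ℝ) * x ^ n * y ^ (m - 1) = (m : ℝ) * y ^ (m - 1) * x ^ n := by ring
    _ ≤ 1 / (E₁ - b) * (E₁ ^ m * s₁ ^ n) := h
    _ = _ := by ring

/-- Termwise differentiation (`hasFDerivAt_tsum_of_isPreconnected`): choose `s₁ > scr t`, `E₁ > E` such that `Rg s₁ E₁` is finite
(`scr` is continuous and decreasing, `ecr` is continuous, `Rg_expl`, `exists_Ef`); on the polydisc of a smaller radius the derivatives of the
terms are bounded by a summable sequence (`n * a ^ (n - 1) ≤ C * b ^ n` for `a < b`). -/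
theorem gG_fderiv {t E : ℝ} (h0 : 0 < t) (h1 : t < 1) (hs : scr t < 1 / 10) (hE : 0 < E)
    (hE' : E < ecr t) : HasFDerivAt (fun p : ℝ × ℝ => gG p.1 p.2)
      (gH (scr t) E • ContinuousLinearMap.fst ℝ ℝ ℝ + gE (scr t) E • ContinuousLinearMap.snd ℝ ℝ ℝ)
      (scr t, E) := by
  have hs0 := scr_pos h0 h1
  obtain ⟨s₁, E₁, hs1, hE1, hsum⟩ := Q1Fd_point h0 h1 hs hE hE'
  generalize scr t = s at *
  obtain ⟨a, ha, ha'⟩ := exists_between hs1
  obtain ⟨b, hb, hb'⟩ := exists_between hE1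
  have ha0 : 0 < s₁ - a := by linarith
  have hb0 : 0 < E₁ - b := by linarith
  have hf1 : ‖ContinuousLinearMap.fst ℝ ℝ ℝ‖ ≤ 1 := ContinuousLinearMap.norm_fst_le ℝ ℝ ℝ
  have hf2 : ‖ContinuousLinearMap.snd ℝ ℝ ℝ‖ ≤ 1 := ContinuousLinearMap.norm_snd_le ℝ ℝ ℝ
  set A : GC → ℝ × ℝ → ℝ := fun c p => if Rigid c.rep.1 then
    (nV c.rep.1.s : ℝ) * p.1 ^ (nV c.rep.1.s - 1) * p.2 ^ nE c else 0 with hA
  set B : GC → ℝ × ℝ → ℝ := fun c p => if Rigid c.rep.1 then
    (nE c : ℝ) * p.1 ^ nV c.rep.1.s * p.2 ^ (nE c - 1) else 0 with hB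
  have hAb : ∀ c (p : ℝ × ℝ), p ∈ Set.Ioo (-a) a ×ˢ Set.Ioo (-b) b → ‖A c p‖ ≤
      1 / (s₁ - a) * (if Rigid c.rep.1 then s₁ ^ nV c.rep.1.s * E₁ ^ nE c else 0) := by
    intro c p hp
    have hp1 : |p.1| ≤ a := abs_le.2 ⟨hp.1.1.le, hp.1.2.le⟩
    have hp2 : |p.2| ≤ b := abs_le.2 ⟨hp.2.1.le, hp.2.2.le⟩
    simp only [hA]
    split_ifs
    · rw [Real.norm_eq_abs, abs_mul, abs_mul, abs_pow, abs_pow, Nat.abs_cast]
      exact Q1Fd_b1 (abs_nonneg _) hp1 ha' (abs_nonneg _) (hp2.trans hb'.le) _ _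
    · simp
  have hBb : ∀ c (p : ℝ × ℝ), p ∈ Set.Ioo (-a) a ×ˢ Set.Ioo (-b) b → ‖B c p‖ ≤
      1 / (E₁ - b) * (if Rigid c.rep.1 then s₁ ^ nV c.rep.1.s * E₁ ^ nE c else 0) := by
    intro c p hp
    have hp1 : |p.1| ≤ a := abs_le.2 ⟨hp.1.1.le, hp.1.2.le⟩
    have hp2 : |p.2| ≤ b := abs_le.2 ⟨hp.2.1.le, hp.2.2.le⟩
    simp only [hB]
    split_ifs
    · rw [Real.norm_eq_abs, abs_mul, abs_mul, abs_pow, abs_pow, Nat.abs_cast]
      exact Q1Fd_b2 (abs_nonneg _) (hp1.trans ha'.le) (abs_nonneg _) hp2 hb' _ _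
    · simp
  have hmem : ((s, E) : ℝ × ℝ) ∈ Set.Ioo (-a) a ×ˢ Set.Ioo (-b) b :=
    ⟨⟨by simp only; linarith, ha⟩, ⟨by simp only; linarith, hb⟩⟩
  have hsA : Summable fun c => A c (s, E) :=
    Summable.of_norm_bounded (hsum.mul_left (1 / (s₁ - a))) fun c => hAb c _ hmem
  have hsB : Summable fun c => B c (s, E) :=
    Summable.of_norm_bounded (hsum.mul_left (1 / (E₁ - b))) fun c => hBb c _ hmem
  have hS0 : Summable fun c : GC =>
      (fun p : ℝ × ℝ => if Rigid c.rep.1 then p.1 ^ nV c.rep.1.s * p.2 ^ nE c else 0) (s, E) := by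
    refine Summable.of_norm_bounded hsum fun c => ?_
    show ‖if Rigid c.rep.1 then s ^ nV c.rep.1.s * E ^ nE c else 0‖ ≤ _
    split_ifs
    · rw [Real.norm_of_nonneg (by positivity)]
      exact mul_le_mul (pow_le_pow_left₀ hs0.le hs1.le _) (pow_le_pow_left₀ hE.le hE1.le _)
        (pow_nonneg hE.le _) (pow_nonneg (hs0.le.trans hs1.le) _)
    · simp
  have key := hasFDerivAt_tsum_of_isPreconnected (𝕜 := ℝ)
    (f := fun (c : GC) (p : ℝ × ℝ) => if Rigid c.rep.1 then p.1 ^ nV c.rep.1.s * p.2 ^ nE c else 0)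
    (f' := fun (c : GC) (p : ℝ × ℝ) => A c p • ContinuousLinearMap.fst ℝ ℝ ℝ +
      B c p • ContinuousLinearMap.snd ℝ ℝ ℝ)
    ((hsum.mul_left (1 / (s₁ - a))).add (hsum.mul_left (1 / (E₁ - b))))
    (isOpen_Ioo.prod isOpen_Ioo)
    ((convex_Ioo (-a) a).prod (convex_Ioo (-b) b)).isPreconnected ?_ ?_ hmem hS0 hmem
  · refine key.congr_fderiv ?_
    rw [(hsA.smul_const _).tsum_add (hsB.smul_const _), hsA.tsum_smul_const, hsB.tsum_smul_const]
    rfl
  · intro c p _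
    simp only [hA, hB]
    split_ifs
    · exact Q1Fd_mono _ _ p
    · simp only [zero_smul, add_zero]
      exact hasFDerivAt_const (0 : ℝ) p
  · intro c p hp
    refine (norm_add_le _ _).trans (add_le_add ?_ ?_)
    · rw [norm_smul]
      exact (mul_le_of_le_one_right (norm_nonneg _) hf1).trans (hAb c p hp)
    · rw [norm_smul]
      exact (mul_le_of_le_one_right (norm_nonneg _) hf2).trans (hBb c p hp)

private theorem Q1Fd_dg_pos (c : GC) : (1 : ℝ) ≤ (c.rep.1.dg : ℝ) := by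
  exact_mod_cast dg_pos c

private theorem Q1Fd_sum0 {s s₁ E E₁ : ℝ} (hs0 : 0 < s) (hs1 : s < s₁) (hE : 0 < E) (hE1 : E < E₁)
    (hsum : Summable fun c : GC => if Rigid c.rep.1 then s₁ ^ nV c.rep.1.s * E₁ ^ nE c else 0) :
    Summable fun c : GC => if Rigid c.rep.1 then
      s ^ (nV c.rep.1.s - 1) * E ^ nE c / (c.rep.1.dg : ℝ) else 0 := by
  refine Summable.of_norm_bounded (hsum.mul_left (1 / s)) fun c => ?_
  split_ifs
  · have hd := Q1Fd_dg_pos c
    rw [Real.norm_of_nonneg (by positivity)]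
    have h2 := Q1Fd_two_le_nV c
    have h3 : s ^ (nV c.rep.1.s - 1) = 1 / s * s ^ nV c.rep.1.s := by
      obtain ⟨k, hk⟩ := Nat.exists_eq_add_of_le h2
      rw [hk, show 2 + k - 1 = k + 1 by omega, show 2 + k = (k + 1) + 1 by omega, pow_succ s (k + 1)]
      field_simp
    calc s ^ (nV c.rep.1.s - 1) * E ^ nE c / (c.rep.1.dg : ℝ)
        ≤ s ^ (nV c.rep.1.s - 1) * E ^ nE c := div_le_self (by positivity) hd
      _ = 1 / s * (s ^ nV c.rep.1.s * E ^ nE c) := by rw [h3]; ring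
      _ ≤ 1 / s * (s₁ ^ nV c.rep.1.s * E₁ ^ nE c) := by
          refine mul_le_mul_of_nonneg_left ?_ (by positivity)
          exact mul_le_mul (pow_le_pow_left₀ hs0.le hs1.le _) (pow_le_pow_left₀ hE.le hE1.le _)
            (pow_nonneg hE.le _) (pow_nonneg (hs0.le.trans hs1.le) _)
  · simp

private theorem Q1Fd_inv {c c' : GC} {e : c.rep.1.T ≃ c'.rep.1.T} (h : MIso c c' e) :
    nV c.rep.1.s = nV c'.rep.1.s ∧ nE c = nE c' :=
  ⟨nV_iso e h.s, by rw [nE, nE, Fintype.card_congr e]⟩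

/-- the exchange of the root darts in real numbers -/
private theorem Q1Fd_sym {s E : ℝ} (hs0 : 0 < s) (hE : 0 < E)
    (hA : Summable fun c : GC => if Rigid c.rep.1 then
      s ^ (nV c.rep.1.s - 1) * ((nE c : ℝ) * E ^ (nE c - 1)) / (c.rep.1.dg : ℝ) else 0)
    (hB : Summable fun c : GC => if Rigid c.rep.1 then
      (nV c.rep.1.s : ℝ) * s ^ (nV c.rep.1.s - 1) * E ^ nE c else 0) :
    ∑' c : GC, (if Rigid c.rep.1 then
      s ^ (nV c.rep.1.s - 1) * ((nE c : ℝ) * E ^ (nE c - 1)) / (c.rep.1.dg : ℝ) else 0) =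
      gH s E / (2 * E) := by
  have hX := q1_sym (fun c => ENNReal.ofReal (if Rigid c.rep.1 then
    s ^ (nV c.rep.1.s - 1) * E ^ (nE c - 1) / 2 else 0)) (by
      intro c c' e h
      obtain ⟨h1, h2⟩ := Q1Fd_inv h
      simp only [h.rigid, h1, h2])
  have hB' : Summable fun c : GC => if Rigid c.rep.1 then
      (nV c.rep.1.s : ℝ) * (s ^ (nV c.rep.1.s - 1) * E ^ (nE c - 1) / 2) else 0 := by
    refine (hB.mul_right (1 / (2 * E))).congr fun c => ?_
    split_ifs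
    · rw [show E ^ nE c = E ^ (nE c - 1) * E from by
        rw [← pow_succ]
        congr 1
        have := Q1Fd_nE c
        omega]
      field_simp
    · rw [zero_mul]
  have e1 : ∑' c : GC, ENNReal.ofReal (if Rigid c.rep.1 then
      s ^ (nV c.rep.1.s - 1) * ((nE c : ℝ) * E ^ (nE c - 1)) / (c.rep.1.dg : ℝ) else 0) =
      ∑' c : GC, ENNReal.ofReal (if Rigid c.rep.1 then
      (nV c.rep.1.s : ℝ) * (s ^ (nV c.rep.1.s - 1) * E ^ (nE c - 1) / 2) else 0) := by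
    refine Eq.trans (tsum_congr fun c => ?_) (hX.trans (tsum_congr fun c => ?_))
    · have hd : 0 < (c.rep.1.dg : ℝ) := zero_lt_one.trans_le (Q1Fd_dg_pos c)
      split_ifs
      · rw [Q1Fd_card c, ← ENNReal.ofReal_natCast (c.rep.1.dg), ← ENNReal.ofReal_natCast (2 * nE c),
          ← ENNReal.ofReal_mul (Nat.cast_nonneg _), ← ENNReal.ofReal_div_of_pos hd]
        congr 1
        push_cast
        ring
      · simp
    · split_ifs
      · rw [← ENNReal.ofReal_natCast, ← ENNReal.ofReal_mul (Nat.cast_nonneg _)]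
      · simp
  have n1 : ∀ c : GC, 0 ≤ (if Rigid c.rep.1 then
      s ^ (nV c.rep.1.s - 1) * ((nE c : ℝ) * E ^ (nE c - 1)) / (c.rep.1.dg : ℝ) else 0) := by
    intro c
    split_ifs
    · positivity
    · exact le_rfl
  have n2 : ∀ c : GC, 0 ≤ (if Rigid c.rep.1 then
      (nV c.rep.1.s : ℝ) * (s ^ (nV c.rep.1.s - 1) * E ^ (nE c - 1) / 2) else 0) := by
    intro c
    split_ifs
    · positivity
    · exact le_rfl
  rw [← ENNReal.ofReal_tsum_of_nonneg n1 hA, ← ENNReal.ofReal_tsum_of_nonneg n2 hB'] at e1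
  have e2 := (ENNReal.ofReal_eq_ofReal_iff (tsum_nonneg n1) (tsum_nonneg n2)).1 e1
  rw [e2, gH, ← tsum_div_const]
  refine tsum_congr fun c => ?_
  split_ifs
  · rw [show E ^ nE c = E ^ (nE c - 1) * E from by
      rw [← pow_succ]
      congr 1
      have := Q1Fd_nE c
      omega]
    field_simp
  · rw [zero_div]

/-- termwise differentiation; `q1_sym` for the maps with `n` edges: `2 n ∑ s ^ (V - 1) / dg = ∑ V s ^ (V - 1)` -/
theorem gQ_deriv {t E : ℝ} (h0 : 0 < t) (h1 : t < 1) (hs : scr t < 1 / 10) (hE : 0 < E)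
    (hE' : E < ecr t) :
    HasDerivAt (fun E => gQ (scr t) E) (gH (scr t) E / (2 * E)) E := by
  have hs0 := scr_pos h0 h1
  obtain ⟨s₁, E₁, hs1, hE1, hsum⟩ := Q1Fd_point h0 h1 hs hE hE'
  generalize scr t = s at *
  obtain ⟨a, ha, ha'⟩ := exists_between hs1
  obtain ⟨b, hb, hb'⟩ := exists_between hE1
  have ha0 : 0 < s₁ - a := by linarith
  have hb0 : 0 < E₁ - b := by linarith
  have hsA : Summable fun c : GC => if Rigid c.rep.1 then
      (nV c.rep.1.s : ℝ) * s ^ (nV c.rep.1.s - 1) * E ^ nE c else 0 := by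
    refine Summable.of_norm_bounded (hsum.mul_left (1 / (s₁ - a))) fun c => ?_
    split_ifs
    · rw [Real.norm_of_nonneg (by positivity)]
      exact Q1Fd_b1 hs0.le ha.le ha' hE.le hE1.le _ _
    · simp
  have hbd : ∀ (c : GC) (y : ℝ), y ∈ Set.Ioo (-b) b → ‖if Rigid c.rep.1 then
      s ^ (nV c.rep.1.s - 1) * ((nE c : ℝ) * y ^ (nE c - 1)) / (c.rep.1.dg : ℝ) else 0‖ ≤
      1 / s * (1 / (E₁ - b)) * (if Rigid c.rep.1 then s₁ ^ nV c.rep.1.s * E₁ ^ nE c else 0) := by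
    intro c y hy
    have hy1 : |y| ≤ b := abs_le.2 ⟨hy.1.le, hy.2.le⟩
    split_ifs
    · have hd := Q1Fd_dg_pos c
      rw [Real.norm_eq_abs, abs_div, abs_mul, abs_mul, abs_pow, abs_pow, Nat.abs_cast,
        Nat.abs_cast, abs_of_pos hs0]
      have h2 := Q1Fd_two_le_nV c
      have h3 : s ^ (nV c.rep.1.s - 1) = 1 / s * s ^ nV c.rep.1.s := by
        obtain ⟨k, hk⟩ := Nat.exists_eq_add_of_le h2
        rw [hk, show 2 + k - 1 = k + 1 by omega, show 2 + k = (k + 1) + 1 by omega,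
          pow_succ s (k + 1)]
        field_simp
      calc s ^ (nV c.rep.1.s - 1) * ((nE c : ℝ) * |y| ^ (nE c - 1)) / (c.rep.1.dg : ℝ)
          ≤ s ^ (nV c.rep.1.s - 1) * ((nE c : ℝ) * |y| ^ (nE c - 1)) :=
            div_le_self (by positivity) hd
        _ = 1 / s * ((nE c : ℝ) * s ^ nV c.rep.1.s * |y| ^ (nE c - 1)) := by rw [h3]; ring
        _ ≤ 1 / s * (1 / (E₁ - b) * (s₁ ^ nV c.rep.1.s * E₁ ^ nE c)) := by
            refine mul_le_mul_of_nonneg_left ?_ (by positivity)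
            exact Q1Fd_b2 hs0.le hs1.le (abs_nonneg _) hy1 hb' _ _
        _ = _ := by ring
    · simp
  have hmem : E ∈ Set.Ioo (-b) b := ⟨by linarith, hb⟩
  have key := hasDerivAt_tsum_of_isPreconnected
    (g := fun (c : GC) (y : ℝ) => if Rigid c.rep.1 then
      s ^ (nV c.rep.1.s - 1) * y ^ nE c / (c.rep.1.dg : ℝ) else 0)
    (g' := fun (c : GC) (y : ℝ) => if Rigid c.rep.1 then
      s ^ (nV c.rep.1.s - 1) * ((nE c : ℝ) * y ^ (nE c - 1)) / (c.rep.1.dg : ℝ) else 0)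
    (hsum.mul_left (1 / s * (1 / (E₁ - b)))) isOpen_Ioo isPreconnected_Ioo ?_ hbd hmem
    (Q1Fd_sum0 hs0 hs1 hE hE1 hsum) hmem
  · refine key.congr_deriv ?_
    refine Q1Fd_sym hs0 hE ?_ hsA
    exact Summable.of_norm_bounded (hsum.mul_left (1 / s * (1 / (E₁ - b)))) fun c => hbd c _ hmem
  · intro c y _
    split_ifs
    · exact ((hasDerivAt_pow (nE c) y).const_mul _).div_const _
    · exact hasDerivAt_const y (0 : ℝ)

/-- every rigid map has at least one edge; `gQ s E ≤ C * E` for small `E` -/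
theorem gQ_zero {t : ℝ} (h0 : 0 < t) (h1 : t < 1) (hs : scr t < 1 / 10) :
    Filter.Tendsto (fun E => gQ (scr t) E) (nhdsWithin 0 (Set.Ioi 0)) (nhds 0) := by
  have hs0 := scr_pos h0 h1
  have he0 := ecr_pos h0 h1
  obtain ⟨s₁, E₁, hs1, hE1, hsum⟩ := Q1Fd_point (E := ecr t / 2) h0 h1 hs (by linarith)
    (by linarith)
  have hE₀ : 0 < ecr t / 2 := by linarith
  generalize ecr t / 2 = E₀ at *
  generalize scr t = s at *
  have hK : Summable fun c : GC => if Rigid c.rep.1 then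
      s ^ (nV c.rep.1.s - 1) * E₀ ^ nE c / (c.rep.1.dg : ℝ) else 0 :=
    Q1Fd_sum0 hs0 hs1 hE₀ hE1 hsum
  have hle : ∀ E, 0 < E → E < E₀ → 0 ≤ gQ s E ∧ gQ s E ≤ E / E₀ * gQ s E₀ := by
    intro E hE hEE
    have hterm : ∀ c : GC, (if Rigid c.rep.1 then
        s ^ (nV c.rep.1.s - 1) * E ^ nE c / (c.rep.1.dg : ℝ) else 0) ≤
        E / E₀ * (if Rigid c.rep.1 then
          s ^ (nV c.rep.1.s - 1) * E₀ ^ nE c / (c.rep.1.dg : ℝ) else 0) := by
      intro c
      split_ifs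
      · have h2 : nE c = (nE c - 1) + 1 := by
          have := Q1Fd_nE c
          omega
        have h3 : E ^ nE c ≤ E / E₀ * E₀ ^ nE c := by
          rw [h2, pow_succ, pow_succ]
          have h4 : E ^ (nE c - 1) ≤ E₀ ^ (nE c - 1) := pow_le_pow_left₀ hE.le hEE.le _
          calc E ^ (nE c - 1) * E ≤ E₀ ^ (nE c - 1) * E := mul_le_mul_of_nonneg_right h4 hE.le
            _ = E / E₀ * (E₀ ^ (nE c - 1) * E₀) := by field_simp
        have hd := Q1Fd_dg_pos c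
        calc s ^ (nV c.rep.1.s - 1) * E ^ nE c / (c.rep.1.dg : ℝ)
            ≤ s ^ (nV c.rep.1.s - 1) * (E / E₀ * E₀ ^ nE c) / (c.rep.1.dg : ℝ) := by
              gcongr
          _ = _ := by ring
      · simp
    have hnn : ∀ c : GC, 0 ≤ (if Rigid c.rep.1 then
        s ^ (nV c.rep.1.s - 1) * E ^ nE c / (c.rep.1.dg : ℝ) else 0) := by
      intro c
      split_ifs
      · positivity
      · exact le_rfl
    refine ⟨tsum_nonneg hnn, ?_⟩
    rw [gQ, gQ, ← tsum_mul_left]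
    exact Summable.tsum_le_tsum hterm
      (Summable.of_nonneg_of_le hnn hterm (hK.mul_left _)) (hK.mul_left _)
  have hlim : Filter.Tendsto (fun E : ℝ => E / E₀ * gQ s E₀) (nhdsWithin 0 (Set.Ioi 0)) (nhds 0) := by
    have h2 : Filter.Tendsto (fun E : ℝ => E / E₀ * gQ s E₀) (nhds 0) (nhds (0 / E₀ * gQ s E₀)) :=
      (Filter.tendsto_id.div_const E₀).mul_const _
    rw [zero_div, zero_mul] at h2
    exact h2.mono_left nhdsWithin_le_nhds
  refine tendsto_of_tendsto_of_tendsto_of_le_of_le' tendsto_const_nhds hlim ?_ ?_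
  · filter_upwards [Ioo_mem_nhdsGT hE₀] with E hEm
    exact (hle E hEm.1 hEm.2).1
  · filter_upwards [Ioo_mem_nhdsGT hE₀] with E hEm
    exact (hle E hEm.1 hEm.2).2

/-- all terms are nonnegative and the sum is finite (it is bounded by `s * E * Rg s E`) -/
theorem Q1_gQ {t E : ℝ} (h0 : 0 < t) (h1 : t < 1) (hs : scr t < 1 / 10) (hE : 0 < E)
    (hE' : E < ecr t) : Q1 (ENNReal.ofReal (scr t)) (ENNReal.ofReal E) =
      ENNReal.ofReal (gQ (scr t) E) ∧ 0 ≤ gQ (scr t) E := by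
  have hs0 := scr_pos h0 h1
  obtain ⟨s₁, E₁, hs1, hE1, hsum⟩ := Q1Fd_point h0 h1 hs hE hE'
  generalize scr t = s at *
  have hK := Q1Fd_sum0 hs0 hs1 hE hE1 hsum
  have hnn : ∀ c : GC, 0 ≤ (if Rigid c.rep.1 then
      s ^ (nV c.rep.1.s - 1) * E ^ nE c / (c.rep.1.dg : ℝ) else 0) := by
    intro c
    split_ifs
    · positivity
    · exact le_rfl
  refine ⟨?_, tsum_nonneg hnn⟩
  rw [gQ, ENNReal.ofReal_tsum_of_nonneg hnn hK, Q1]
  refine tsum_congr fun c => ?_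
  have hd : 0 < (c.rep.1.dg : ℝ) := zero_lt_one.trans_le (Q1Fd_dg_pos c)
  split_ifs
  · rw [ENNReal.ofReal_div_of_pos hd, ENNReal.ofReal_mul (by positivity),
      ENNReal.ofReal_pow hs0.le, ENNReal.ofReal_pow hE.le, ENNReal.ofReal_natCast]
    rfl
  · simp

end PGr

end

section
/-! # Module Q1Expl: the value of `Q1` -/

set_option linter.unusedSectionVars false

namespace PGr
open scoped ENNReal

private theorem Q1Expl_E {t v : ℝ} (h0 : 0 < t) (h1 : t < 1) (hv : 0 < v) (hv' : v < t) :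
    0 < Ef (scr t) v ∧ Ef (scr t) v < ecr t ∧ 0 < 1 - uf (scr t) v - v := by
  have h2 := Ef_strictMonoOn h0 h1 ⟨le_rfl, h0.le⟩ ⟨hv.le, hv'.le⟩ hv
  have h3 := Ef_strictMonoOn h0 h1 ⟨hv.le, hv'.le⟩ ⟨h0.le, le_rfl⟩ hv'
  rw [Ef_zero] at h2
  rw [Ef_crit h0 h1] at h3
  refine ⟨h2, h3, ?_⟩
  have h4 : 0 < v * (1 - uf (scr t) v - v) / (1 - v) ^ 2 := h2
  have h5 : 0 < (1 - v) ^ 2 := pow_pos (by linarith) 2
  have h6 : 0 < v * (1 - uf (scr t) v - v) := by
    by_contra h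
    have := div_nonpos_of_nonpos_of_nonneg (not_lt.1 h) h5.le
    linarith
  exact (mul_pos_iff_of_pos_left hv).1 h6

private theorem Q1Expl_fin {t v : ℝ} (h0 : 0 < t) (h1 : t < 1) (hs : scr t < 1 / 10) (hv : 0 < v)
    (hv' : v < t) : HasDerivAt (fun v => gQ (scr t) (Ef (scr t) v) - Q1f (scr t) v) 0 v := by
  have hs0 := scr_pos h0 h1
  have hv1 : v < 1 := hv'.trans h1
  obtain ⟨hE, hE', h2⟩ := Q1Expl_E h0 h1 hv hv'
  obtain ⟨Gs, Gv, hGs, hGv, hQ⟩ := Q1f_deriv hs0 hv hv1 h2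
  have hEv := Ef_hasDerivAt hs0 hv hv1
  have hEs := Ef_hasDerivAt_s hs0 hv hv1
  have hF := gG_fderiv h0 h1 hs hE hE'
  have hD := (gQ_deriv h0 h1 hs hE hE').comp v hEv
  have e1 : HasDerivAt (fun s' => gG s' (Ef s' v)) (gH (scr t) (Ef (scr t) v) +
      gE (scr t) (Ef (scr t) v) *
        (- v * (uf (scr t) v * (1 - uf (scr t) v) / (scr t * (1 + uf (scr t) v))) / (1 - v) ^ 2))
      (scr t) := by
    have h3 := hF.comp_hasDerivAt (scr t) (f := fun s' => (s', Ef s' v))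
      ((hasDerivAt_id (scr t)).prodMk hEs)
    refine HasDerivAt.congr_deriv h3 ?_
    simp
  have e2 : HasDerivAt (fun v' => gG (scr t) (Ef (scr t) v')) (gE (scr t) (Ef (scr t) v) *
      (qf (scr t) v / ((1 + uf (scr t) v) * (1 - v) ^ 3))) v := by
    have h3 := hF.comp_hasDerivAt v (f := fun v' => (scr t, Ef (scr t) v'))
      ((hasDerivAt_const v (scr t)).prodMk hEv)
    refine HasDerivAt.congr_deriv h3 ?_
    simp
  have c1 : (fun s' => gG s' (Ef s' v)) =ᶠ[nhds (scr t)] fun s' => Gf s' v := by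
    have h3 : scr t < scr v := scr_strictAntiOn ⟨hv, hv1⟩ ⟨h0, h1⟩ hv'
    filter_upwards [lt_mem_nhds hs0, gt_mem_nhds h3, gt_mem_nhds hs] with x hx0 hx1 hx2
    obtain ⟨t', ht0, ht1, rfl⟩ := scr_surj hx0
    have h4 : v < t' := by
      by_contra h
      rcases (not_lt.1 h).lt_or_eq with h5 | h5
      · have := scr_strictAntiOn ⟨ht0, ht1⟩ ⟨hv, hv1⟩ h5
        linarith
      · rw [h5] at hx1
        exact lt_irrefl _ hx1
    exact gG_eq ht0 ht1 hx2 hv h4
  have c2 : (fun v' => gG (scr t) (Ef (scr t) v')) =ᶠ[nhds v] fun v' => Gf (scr t) v' := by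
    filter_upwards [lt_mem_nhds hv, gt_mem_nhds hv'] with x hx0 hx1
    exact gG_eq h0 h1 hs hx0 hx1
  have d1 := (hGs.congr_of_eventuallyEq c1).unique e1
  have d2 := (hGv.congr_of_eventuallyEq c2).unique e2
  have h3 : HasDerivAt (fun v => gQ (scr t) (Ef (scr t) v) - Q1f (scr t) v) _ v := hD.sub hQ
  refine h3.congr_deriv ?_
  rw [d1, d2]
  generalize - v * (uf (scr t) v * (1 - uf (scr t) v) / (scr t * (1 + uf (scr t) v))) /
    (1 - v) ^ 2 = X
  generalize qf (scr t) v / ((1 + uf (scr t) v) * (1 - v) ^ 3) = Y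
  ring

/-- Chain rule for `gG (s, Ef s v) = Gf s v` (`gG_eq` in a neighbourhood of `(scr t, v)`; `scr` is a decreasing homeomorphism): with
`Es`, `Ev` the partial derivatives of `Ef`, `Gs = gH + gE * Es`, `Gv = gE * Ev`, so `gH * Ev = Gs * Ev - Gv * Es`.  So
`(gQ (scr t) (Ef (scr t) v))' = gH * Ev / (2 E)` is the derivative of `Q1f` (`Q1f_deriv`), and both functions tend to `0` for `v → 0`
(`gQ_zero`, `Ef` tends to `0`; `Q1f_zero`). -/
theorem gQ_expl {t v : ℝ} (h0 : 0 < t) (h1 : t < 1) (hs : scr t < 1 / 10) (hv : 0 < v) (hv' : v < t) :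
    gQ (scr t) (Ef (scr t) v) = Q1f (scr t) v := by
  have hs0 := scr_pos h0 h1
  have hconst : ∀ y ∈ Set.Ioo 0 t, gQ (scr t) (Ef (scr t) y) - Q1f (scr t) y =
      gQ (scr t) (Ef (scr t) v) - Q1f (scr t) v := by
    intro y hy
    refine isOpen_Ioo.is_const_of_deriv_eq_zero isPreconnected_Ioo
      (f := fun v => gQ (scr t) (Ef (scr t) v) - Q1f (scr t) v) ?_ ?_ hy ⟨hv, hv'⟩
    · intro x hx
      exact (Q1Expl_fin h0 h1 hs hx.1 hx.2).differentiableAt.differentiableWithinAt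
    · intro x hx
      exact (Q1Expl_fin h0 h1 hs hx.1 hx.2).deriv
  have hI : Set.Ioo 0 t ∈ nhdsWithin (0 : ℝ) (Set.Ioi 0) := Ioo_mem_nhdsGT h0
  have hEf : Filter.Tendsto (fun y => Ef (scr t) y) (nhdsWithin 0 (Set.Ioi 0))
      (nhdsWithin 0 (Set.Ioi 0)) := by
    refine tendsto_nhdsWithin_iff.2 ⟨?_, ?_⟩
    · have h3 := (Ef_continuousOn hs0) 0 ⟨le_refl _, one_pos⟩
      rw [ContinuousWithinAt, Ef_zero] at h3
      refine h3.mono_left ?_
      rw [← nhdsWithin_inter_of_mem hI]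
      exact nhdsWithin_mono _ fun x hx => ⟨hx.1.1.le, hx.1.2.trans h1⟩
    · filter_upwards [hI] with y hy
      exact (Q1Expl_E h0 h1 hy.1 hy.2).1
  have hlim : Filter.Tendsto (fun y => gQ (scr t) (Ef (scr t) y) - Q1f (scr t) y)
      (nhdsWithin 0 (Set.Ioi 0)) (nhds (0 - 0)) :=
    ((gQ_zero h0 h1 hs).comp hEf).sub (Q1f_zero hs0)
  have hlim2 : Filter.Tendsto (fun y => gQ (scr t) (Ef (scr t) y) - Q1f (scr t) y)
      (nhdsWithin 0 (Set.Ioi 0)) (nhds (gQ (scr t) (Ef (scr t) v) - Q1f (scr t) v)) := by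
    refine tendsto_const_nhds.congr' ?_
    filter_upwards [hI] with y hy
    exact (hconst y hy).symm
  have := tendsto_nhds_unique hlim2 hlim
  linarith

theorem Q1_expl {t v : ℝ} (h0 : 0 < t) (h1 : t < 1) (hs : scr t < 1 / 10) (hv : 0 < v) (hv' : v < t) :
    0 ≤ Q1f (scr t) v ∧ Q1 (ENNReal.ofReal (scr t)) (ENNReal.ofReal (Ef (scr t) v)) =
      ENNReal.ofReal (Q1f (scr t) v) := by
  obtain ⟨hE, hE', _⟩ := Q1Expl_E h0 h1 hv hv'
  obtain ⟨h2, h3⟩ := Q1_gQ h0 h1 hs hE hE'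
  rw [gQ_expl h0 h1 hs hv hv'] at h2 h3
  exact ⟨h3, h2⟩

end PGr

end
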