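import Pool.Agent.PGa.Der4
import Pool.Agent.PGc.MapDec
import Pool.Agent.PGc.PlGlue
import Pool.Agent.PGm.M02
import Pool.Agent.PGm.M03
import Pool.Agent.PGm.M04
import Pool.Agent.PGm.M05
import Pool.Agent.PGm.M06
import Pool.Agent.PGm.M09
import Pool.Agent.PGm.M12
import Pool.Agent.PGm.M16
import Pool.Agent.PGr.CompIso
import Pool.Agent.PGr.CompV
import Pool.Agent.PGr.ConeGood
import Pool.Agent.PGr.Digon
import Pool.Agent.PGr.Expand
import Pool.Agent.PGr.Final
import Pool.Agent.PGr.NetSumB
import Pool.Agent.PGr.NetSumC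
import Pool.Agent.PGr.Quot
import Pool.Agent.PGr.SerSurj
import Pool.Agent.PGr.SubMap

section
/-! # Derivatives along the curve -/

end

section
/-! # Module Sw: the weights of symmetric maps are class functions -/

set_option linter.unusedSectionVars false

namespace PGr
open Equiv Finset
open scoped ENNReal Classical

variable {M N : BMap}

namespace Sw

theorem cj_apply {T T' : Type} (φ : T ≃ T') (e : Perm T) (t : T) :
    ((φ.symm.trans e).trans φ) (φ t) = φ (e t) := by
  simp

theorem inl_equiv {φ : M.T ≃ N.T} (h : TwI false false M N φ) :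
    ∃ f : M.D ≃ N.D, ∀ d, φ (Sum.inl d) = Sum.inl (f d) :=
  CompIso.exists_equiv φ (fun b => by rw [h.root]; cases b <;> rfl)

/-- the numbers of elements with corresponding properties are equal -/
theorem card_filter_congr {A B : Type} [Fintype A] [Fintype B] (f : A ≃ B) (P : A → Prop)
    (Q : B → Prop) [DecidablePred P] [DecidablePred Q] (h : ∀ a, Q (f a) ↔ P a) :
    (univ.filter Q).card = (univ.filter P).card := by
  have h1 : (univ.filter P).map f.toEmbedding = univ.filter Q := by
    ext b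
    obtain ⟨a, rfl⟩ := f.surjective b
    rw [mem_map_equiv, Equiv.symm_apply_apply, mem_filter, mem_filter, h]
    simp
  rw [← h1, card_map]

theorem nAx_iso {φ : M.T ≃ N.T} (h : TwI false false M N φ) (e : Perm M.T) :
    nAx N ((φ.symm.trans e).trans φ) = nAx M e := by
  obtain ⟨f, hf⟩ := inl_equiv h
  unfold nAx
  refine card_filter_congr f _ _ fun d => ?_
  rw [← hf, cj_apply, φ.injective.eq_iff]

theorem nCr_iso {φ : M.T ≃ N.T} (h : TwI false false M N φ) (e : Perm M.T) :
    nCr N ((φ.symm.trans e).trans φ) = nCr M e := by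
  obtain ⟨f, hf⟩ := inl_equiv h
  unfold nCr
  refine card_filter_congr f _ _ fun d => ?_
  have h1 : (Sum.inl (N.a (f d)) : N.T) = φ (Sum.inl (M.a d)) := by
    have h2 := h.aa (Sum.inl d)
    rw [hf] at h2
    exact h2.symm
  rw [h1, ← hf, cj_apply, φ.injective.eq_iff]

theorem nBi_iso {φ : M.T ≃ N.T} (h : TwI false false M N φ) (e : Perm M.T) :
    nBi N ((φ.symm.trans e).trans φ) = nBi M e := by
  unfold nBi
  refine card_filter_congr φ _ _ fun t => ?_
  have h1 : N.s (φ t) = φ (M.s t) := (h.rot t).symm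
  rw [h1, cj_apply, φ.injective.eq_iff]

theorem tw_conj {φ : M.T ≃ N.T} (h : TwI false false M N φ) {c : Bool} (e : Perm M.T) :
    TwI true c N N ((φ.symm.trans e).trans φ) ↔ TwI true c M M e := by
  constructor
  · intro h1
    have h2 := (h.trans h1).trans h.symm
    have e1 : (φ.trans ((φ.symm.trans e).trans φ)).trans φ.symm = e := by
      ext t
      simp
    rw [e1] at h2
    simpa using h2
  · intro h1
    have h2 := (h.symm.trans h1).trans h
    simpa using h2

end Sw

open Sw

/-- all numbers are preserved by the conjugation with an isomorphism -/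
theorem Vw_iso (w : Wt) {φ : M.T ≃ N.T} (h : TwI false false M N φ) (e : Perm M.T) :
    Vw w N ((φ.symm.trans e).trans φ) = Vw w M e := by
  unfold Vw
  rw [nAx_iso h, nCr_iso h, nBi_iso h, h.nV_eq, h.card_eq]

namespace Sw

theorem axSet_map {φ : M.T ≃ N.T} (h : TwI false false M N φ) {e : Perm M.T} {A : Finset M.T}
    (hA : AxSet M e A) : AxSet N ((φ.symm.trans e).trans φ) (A.map φ.toEmbedding) := by
  have hmem : ∀ t, φ t ∈ A.map φ.toEmbedding ↔ t ∈ A := CutIso.mem φ A
  have hs : ∀ t, φ (M.s t) = N.s (φ t) := h.rot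
  have hr : ∀ b, φ (Sum.inr b) = Sum.inr b := fun b => by rw [h.root]; cases b <;> rfl
  refine ⟨Cl_iso φ h.aa hA.cl, ?_, ?_, ?_, ?_, ?_⟩
  · intro t ht
    obtain ⟨t, rfl⟩ := φ.surjective t
    rw [cj_apply, hmem]
    exact hA.inv t ((hmem t).1 ht)
  · rw [cut_iso φ hs]
    exact hA.cut4
  · rw [← hr, hmem]
    exact hA.root
  · rw [← CutIso.root h.aa (hr true)]
    exact fun h4 => hA.rest (CutIso.map_univ φ h4)
  · intro t ht
    obtain ⟨t, rfl⟩ := φ.surjective t
    rw [cj_apply, ← h.sameCycle]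
    refine hA.ends t ?_
    unfold bd at ht ⊢
    rw [mem_filter] at ht ⊢
    rw [← hs, hmem, hmem] at ht
    exact ⟨mem_univ _, ht.2⟩

theorem conj_conj {T T' : Type} (φ : T ≃ T') (e : Perm T) :
    ((φ.symm.symm.trans ((φ.symm.trans e).trans φ)).trans φ.symm : Perm T) = e := by
  ext t
  simp

end Sw

theorem ARed_iso {φ : M.T ≃ N.T} (h : TwI false false M N φ) (e : Perm M.T) :
    ARed N ((φ.symm.trans e).trans φ) ↔ ARed M e := by
  constructor
  · intro h1 A hA
    have h2 := h1 _ (axSet_map h hA)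
    rwa [card_map] at h2
  · intro h1 A hA
    have h2 := axSet_map h.symm hA
    rw [conj_conj] at h2
    have h3 := h1 _ h2
    rwa [card_map] at h3

/-- `Equiv.sum_comp` with the conjugation `e ↦ (φ.symm.trans e).trans φ` (`Equiv.permCongr`) -/
theorem sw_iso (w : Wt) (c : Bool) (h : BIso M N) : sw w c M = sw w c N := by
  obtain ⟨φ, h⟩ := BIso_iff.1 h
  unfold sw
  refine Fintype.sum_equiv φ.permCongr _ _ fun e => ?_
  have e1 : φ.permCongr e = (φ.symm.trans e).trans φ := rfl
  rw [e1]
  refine if_congr (and_congr (tw_conj h e).symm (ARed_iso h e).symm) (Vw_iso w h e).symm rfl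

theorem sv_iso (w : Wt) (c : Bool) (h : BIso M N) : sv w c M = sv w c N := by
  obtain ⟨φ, h⟩ := BIso_iff.1 h
  unfold sv
  refine Fintype.sum_equiv φ.permCongr _ _ fun e => ?_
  have e1 : φ.permCongr e = (φ.symm.trans e).trans φ := rfl
  rw [e1]
  exact if_congr (tw_conj h e).symm (Vw_iso w h e).symm rfl

theorem swX_iso (w : Wt) (h : BIso M N) : swX w M = swX w N := by
  obtain ⟨φ, h⟩ := BIso_iff.1 h
  unfold swX
  refine Fintype.sum_equiv φ.permCongr _ _ fun e => ?_
  have e1 : φ.permCongr e = (φ.symm.trans e).trans φ := rfl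
  rw [e1]
  have h2 : φ (M.s⁻¹ (Sum.inr true)) = N.s⁻¹ (Sum.inr true) := by
    have h3 := h.rot' (Sum.inr true)
    have h4 : φ (Sum.inr true) = Sum.inr true := h.root true
    rw [h4] at h3
    exact h3
  have h5 : ((φ.symm.trans e).trans φ) (N.s⁻¹ (Sum.inr true)) ≠ N.s⁻¹ (Sum.inr true) ↔
      e (M.s⁻¹ (Sum.inr true)) ≠ M.s⁻¹ (Sum.inr true) := by
    rw [← h2, cj_apply, Ne, φ.injective.eq_iff]
  exact if_congr (and_congr (tw_conj h e).symm (and_congr (ARed_iso h e).symm h5.symm))
    (Vw_iso w h e).symm rfl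

theorem hW_iso (w : Wt) (h : BIso M N) : hW w M = hW w N := by
  obtain ⟨φ, h⟩ := BIso_iff.1 h
  exact (hW_tw w h).symm

/-- the reflection is unique (`TwI.unique`) -/
theorem sw_of (w : Wt) {c : Bool} (hM : M.IsGood) {e : Perm M.T} (h : TwI true c M M e) :
    sw w c M = if ARed M e then Vw w M e else 0 := by
  unfold sw
  rw [Finset.sum_eq_single e]
  · exact if_congr (and_iff_right h) rfl rfl
  · intro e' _ hne
    rw [if_neg]
    exact fun h' => hne (TwI.unique hM h'.1 h)
  · intro h'
    exact absurd (mem_univ _) h'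

theorem sv_of (w : Wt) {c : Bool} (hM : M.IsGood) {e : Perm M.T} (h : TwI true c M M e) :
    sv w c M = Vw w M e := by
  unfold sv
  rw [Finset.sum_eq_single e]
  · exact if_pos h
  · intro e' _ hne
    rw [if_neg]
    exact fun h' => hne (TwI.unique hM h' h)
  · intro h'
    exact absurd (mem_univ _) h'

theorem swX_of (w : Wt) (hM : M.IsGood) {e : Perm M.T} (h : TwI true false M M e) :
    swX w M = if ARed M e ∧ e (M.s⁻¹ (Sum.inr true)) ≠ M.s⁻¹ (Sum.inr true) then Vw w M e else 0 := by
  unfold swX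
  rw [Finset.sum_eq_single e]
  · exact if_congr (and_iff_right h) rfl rfl
  · intro e' _ hne
    rw [if_neg]
    exact fun h' => hne (TwI.unique hM h'.1 h)
  · intro h'
    exact absurd (mem_univ _) h'

theorem sw_none (w : Wt) {c : Bool} (h : ¬ ∃ e : Perm M.T, TwI true c M M e) : sw w c M = 0 := by
  unfold sw
  refine Finset.sum_eq_zero fun e _ => ?_
  rw [if_neg]
  exact fun h' => h ⟨e, h'.1⟩

theorem swX_none (w : Wt) (h : ¬ ∃ e : Perm M.T, TwI true false M M e) : swX w M = 0 := by
  unfold swX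
  refine Finset.sum_eq_zero fun e _ => ?_
  rw [if_neg]
  exact fun h' => h ⟨e, h'.1⟩

/-- a class has a reflection iff it is equal to its twisted image -/
theorem sym_iff (c : Bool) (x : GC) :
    (∃ e : Perm x.rep.1.T, TwI true c x.rep.1 x.rep.1 e) ↔ twC true c x = x :=
  twC_eq_iff.symm

namespace Sw

theorem dig_aa (b : Bool) : digonB.aa (Sum.inl b) = Sum.inl (!b) := rfl
theorem dig_s_inl (b : Bool) : digonB.s (Sum.inl b) = Sum.inr b := rfl
theorem dig_s_inr (b : Bool) : digonB.s (Sum.inr b) = Sum.inl b := rfl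
theorem dig_si_inl (b : Bool) : digonB.s⁻¹ (Sum.inl b) = Sum.inr b := rfl
theorem dig_si_inr (b : Bool) : digonB.s⁻¹ (Sum.inr b) = Sum.inl b := rfl

/-- a digon has no axial sets -/
theorem dig_red (e : Perm digonB.T) : ARed digonB e := by
  intro A hA
  exfalso
  have h0 : (Sum.inr true : digonB.T) ∉ A := hA.root
  have h1 : (Sum.inr false : digonB.T) ∉ A := fun h => h0 ((hA.cl (Sum.inr true)).1 h)
  have h2 : (Sum.inl true : digonB.T) ∈ A ↔ (Sum.inl false : digonB.T) ∈ A := hA.cl (Sum.inl false)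
  by_cases h3 : (Sum.inl false : digonB.T) ∈ A
  · apply hA.rest
    ext x
    simp only [mem_univ, iff_true, mem_union, BMap.root, mem_insert, mem_singleton]
    rcases x with (_ | _) | (_ | _)
    · exact Or.inl h3
    · exact Or.inl (h2.2 h3)
    · exact Or.inr (Or.inr rfl)
    · exact Or.inr (Or.inl rfl)
  · have h4 : A = ∅ := by
      rw [eq_empty_iff_forall_notMem]
      rintro ((_ | _) | (_ | _))
      · exact h3
      · exact fun h => h3 (h2.1 h)
      · exact h1
      · exact h0
    have h5 := hA.cut4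
    rw [h4] at h5
    unfold cut bd at h5
    simp at h5

theorem dig_tw_true : TwI true true digonB digonB digonB.aa := by
  refine ⟨fun _ => rfl, ?_, ?_⟩
  · rintro ((_ | _) | (_ | _)) <;> rfl
  · intro b
    cases b <;> rfl

theorem dig_tw_false : TwI true false digonB digonB 1 := by
  refine ⟨fun _ => rfl, ?_, ?_⟩
  · rintro ((_ | _) | (_ | _)) <;> rfl
  · intro b
    cases b <;> rfl

theorem dig_ax : nAx digonB digonB.aa = 0 := by
  unfold nAx
  rw [card_eq_zero, filter_eq_empty_iff]
  rintro (_ | _) _ h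
  · cases h
  · cases h

theorem dig_ax' : nAx digonB 1 = 2 := by
  unfold nAx
  rw [filter_true_of_mem]
  · rfl
  · intro d _
    rfl

theorem dig_cr : nCr digonB digonB.aa = 2 := by
  unfold nCr
  rw [filter_true_of_mem]
  · rfl
  · intro d _
    rfl

theorem dig_cr' : nCr digonB 1 = 0 := by
  unfold nCr
  rw [card_eq_zero, filter_eq_empty_iff]
  rintro (_ | _) _ h
  · cases h
  · cases h

theorem dig_bi : nBi digonB digonB.aa = 0 := by
  unfold nBi
  rw [card_eq_zero, filter_eq_empty_iff]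
  rintro ((_ | _) | (_ | _)) _ h
  · cases h
  · cases h
  · cases h
  · cases h

theorem dig_bi' : nBi digonB 1 = 0 := by
  unfold nBi
  rw [card_eq_zero, filter_eq_empty_iff]
  rintro ((_ | _) | (_ | _)) _ h
  · cases h
  · cases h
  · cases h
  · cases h

theorem dig_card : Fintype.card digonB.D = 2 := rfl

end Sw

/-- the digon: 2 darts crossing the axis, no bisected corner, two vertices (`digon_nV`) -/
theorem sw_dig_true (w : Wt) : sw w true digC.rep.1 = w.cr ^ 2 * w.dt ^ 2 := by
  have h1 : BIso digC.rep.1 digonB := ESum.rep_iso ⟨digonB, digon_good⟩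
  rw [sw_iso w true h1, sw_of w digon_good dig_tw_true, if_pos (dig_red _)]
  unfold Vw
  rw [dig_ax, dig_bi, dig_cr, digon_nV, dig_card]
  simp

/-- a map with two nonroot darts is the digon (`eq_digon`), 2 darts on the axis -/
theorem sv_two (w : Wt) (hM : M.IsGood) (h2 : Fintype.card M.D = 2) :
    sv w false M = w.ax ^ 2 * w.dt ^ 2 := by
  have h1 : BIso M digonB := eq_digon hM (by omega)
  rw [sv_iso w false h1, sv_of w digon_good dig_tw_false]
  unfold Vw
  rw [dig_ax', dig_bi', dig_cr', digon_nV, dig_card]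
  simp

/-- the sum of the squares of the weights -/
theorem Esel_hW (w : Wt) (P : BMap → Prop) :
    Esel (w.vx ^ 2) (w.dt ^ 4) P = ∑' x : GC, if P x.rep.1 then hW w x.rep.1 ^ 2 else 0 := by
  unfold Esel
  refine tsum_congr fun x => ?_
  by_cases hP : P x.rep.1
  · rw [if_pos hP, if_pos hP]
    obtain ⟨k, _, hk⟩ := card_D_even x.rep.2
    unfold W hW
    rw [hk, Nat.mul_div_cancel_left k (by norm_num)]
    ring
  · rw [if_neg hP, if_neg hP]

theorem e2_hW (w : Wt) : e2 w = ∑' x : GC, hW w x.rep.1 ^ 2 := by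
  unfold e2 Es
  rw [Esel_hW]
  refine tsum_congr fun x => if_pos trivial

end PGr

end

section
/-! # Module VComp: the weight of a symmetric composite -/

set_option linter.unusedSectionVars false

namespace PGr
open Equiv Finset
open scoped ENNReal

/-- there are no bisected corners next to the root darts: `e (inr b)` is a root dart and `s (inr b)` is not; if
`s t = inr b = e t` then `t` is a root dart -/
theorem no_bi_root {c : Bool} {M : BMap} (hM : M.IsGood) {e : Perm M.T} (h : TwI true c M M e)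
    {t : M.T} (ht : e t = M.s t) : ∃ d d', t = Sum.inl d ∧ M.s t = Sum.inl d' := by
  rcases t with d | b
  · obtain ⟨d', hd'⟩ := h.inl d
    exact ⟨d, d', rfl, by rw [← ht, hd']⟩
  · exfalso
    obtain ⟨d, hd⟩ := exists_fst ⟨M, hM⟩ b
    rw [h.root] at ht
    rw [show M.s (Sum.inr b) = Sum.inl d from hd] at ht
    simp at ht

variable {c : Bool} {C : Core} {N : C.I → GB} {ψ : Perm C.toB.T} {e : Perm (comp C N).T}

private theorem vc_nAx : nAx (comp C N) e = ∑ i, (univ.filter fun d : (N i).1.D =>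
    e (CompInj.dt N i d) = CompInj.dt N i d).card := by
  unfold nAx
  rw [card_filter]
  simp only [card_filter]
  exact Fintype.sum_sigma (fun x : (Σ i, (N i).1.D) =>
    if e (Sum.inl x) = Sum.inl x then 1 else 0)

private theorem vc_nCr : nCr (comp C N) e = ∑ i, (univ.filter fun d : (N i).1.D =>
    e (CompInj.dt N i d) = CompInj.dt N i ((N i).1.a d)).card := by
  unfold nCr
  rw [card_filter]
  simp only [card_filter]
  exact Fintype.sum_sigma (fun x : (Σ i, (N i).1.D) =>
    if e (Sum.inl x) = Sum.inl ((comp C N).a x) then 1 else 0)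

private theorem vc_card : Fintype.card (comp C N).D = ∑ i, Fintype.card (N i).1.D :=
  Fintype.card_sigma

private theorem vc_in {M : GB} (d : M.1.D) (hd : ¬ ∃ d', M.1.s (Sum.inl d) = Sum.inl d') :
    ∃ b, M.1.s (Sum.inl d) = Sum.inr b := by
  rcases h : M.1.s (Sum.inl d) with d' | b
  · exact absurd ⟨d', h⟩ hd
  · exact ⟨b, rfl⟩

private theorem vc_nBi (h : CTw true c C C N N ψ e) : nBi (comp C N) e = nBi C.toB ψ +
    ∑ i, (univ.filter fun d : (N i).1.D =>
    e (CompInj.dt N i d) = (comp C N).s (CompInj.dt N i d) ∧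
      ∃ d', (N i).1.s (Sum.inl d) = Sum.inl d').card := by
  classical
  have hL : ∀ x : C.toB.T, e (CompInj.L N x) = (comp C N).s (CompInj.L N x) ↔ ψ x = C.s x := by
    intro x
    rw [h.L_J, CompInj.s_L]
    exact (jump_inj C N).eq_iff
  unfold nBi
  rw [card_filter, card_filter]
  have e1 : (∑ t : (comp C N).T, if e t = (comp C N).s t then 1 else 0) =
      (∑ i, ∑ d : (N i).1.D, if e (CompInj.dt N i d) = (comp C N).s (CompInj.dt N i d)
        then 1 else 0) + ∑ b : Bool, if ψ (Sum.inr b) = C.s (Sum.inr b) then 1 else 0 := by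
    have h1 := Fintype.sum_sum_type (fun t : (Σ i, (N i).1.D) ⊕ Bool =>
      if e t = (comp C N).s t then 1 else 0)
    refine h1.trans ?_
    congr 1
    · exact Fintype.sum_sigma (fun x : (Σ i, (N i).1.D) =>
        if e (Sum.inl x) = (comp C N).s (Sum.inl x) then 1 else 0)
    · refine sum_congr rfl fun b _ => ?_
      have h2 := hL (Sum.inr b)
      exact if_congr h2 rfl rfl
  have e2 : (∑ x : C.toB.T, if ψ x = C.toB.s x then 1 else 0) =
      (∑ i, ∑ b : Bool, if ψ (Sum.inl (i, b)) = C.s (Sum.inl (i, b)) then 1 else 0) +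
        ∑ b : Bool, if ψ (Sum.inr b) = C.s (Sum.inr b) then 1 else 0 := by
    have h1 := Fintype.sum_sum_type (fun t : (C.I × Bool) ⊕ Bool =>
      if ψ t = C.s t then 1 else 0)
    refine h1.trans ?_
    congr 1
    exact Fintype.sum_prod_type (fun x : C.I × Bool =>
        if ψ (Sum.inl x) = C.s (Sum.inl x) then 1 else 0)
  rw [e1, e2]
  have e3 : ∀ i, (∑ d : (N i).1.D, if e (CompInj.dt N i d) = (comp C N).s (CompInj.dt N i d)
        then 1 else 0) = (∑ b : Bool, if ψ (Sum.inl (i, b)) = C.s (Sum.inl (i, b)) then 1 else 0) +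
      (univ.filter fun d : (N i).1.D =>
        e (CompInj.dt N i d) = (comp C N).s (CompInj.dt N i d) ∧
        ∃ d', (N i).1.s (Sum.inl d) = Sum.inl d').card := by
    intro i
    rw [← card_filter, ← card_filter]
    have h3 : (univ.filter fun b : Bool => ψ (Sum.inl (i, b)) = C.s (Sum.inl (i, b))).card =
        ((univ.filter fun b : Bool => ψ (Sum.inl (i, b)) = C.s (Sum.inl (i, b))).image
          fun b => CompInj.lstD (N i) b).card := by
      rw [card_image_of_injective]
      intro b b' hb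
      have h4 : CompInj.lstD (N i) b = CompInj.lstD (N i) b' := hb
      have h5 := CompInj.lstD_spec (N i) b
      rw [h4, CompInj.lstD_spec] at h5
      exact (Sum.inr_injective h5).symm
    rw [h3, ← card_union_of_disjoint]
    · congr 1
      ext d
      simp only [mem_filter, mem_univ, true_and, mem_union, mem_image]
      constructor
      · intro hd
        by_cases hin : ∃ d', (N i).1.s (Sum.inl d) = Sum.inl d'
        · exact Or.inr ⟨hd, hin⟩
        · obtain ⟨b, hb⟩ := vc_in d hin
          left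
          have h6 := CompInj.eq_lstD hb
          refine ⟨b, ?_, h6.symm⟩
          have h7 := hL (Sum.inl (i, b))
          refine h7.1 ?_
          have h8 : CompInj.L N (Sum.inl (i, b)) = CompInj.dt N i d := by
            rw [h6]
            rfl
          exact (congrArg e h8).trans (hd.trans (congrArg (comp C N).s h8.symm))
      · rintro (⟨b, hb, rfl⟩ | hd)
        · exact (hL (Sum.inl (i, b))).2 hb
        · exact hd.1
    · rw [disjoint_left]
      intro d hd hd'
      simp only [mem_filter, mem_univ, true_and, mem_image] at hd hd'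
      obtain ⟨b, -, rfl⟩ := hd
      obtain ⟨-, d', hd'⟩ := hd'
      rw [CompInj.lstD_spec] at hd'
      simp at hd'
  rw [sum_congr rfl fun i _ => e3 i, sum_add_distrib]
  omega

private theorem vc_two (M : GB) : 2 ≤ nV M.1.s := by
  have := CompVAux.card_inn M
  omega

private theorem vc_nV (hC : C.toB.IsGood) :
    nV (comp C N).s - 2 = (nV C.s - 2) + ∑ i, (nV (N i).1.s - 2) := by
  have h1 := nV_comp C N hC
  have h2 : 2 ≤ nV C.s := vc_two ⟨C.toB, hC⟩
  have h3 : ∑ i, nV (N i).1.s = ∑ i, (nV (N i).1.s - 2) + 2 * Fintype.card C.I := by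
    have h4 : ∀ i ∈ (univ : Finset C.I), nV (N i).1.s = (nV (N i).1.s - 2) + 2 := fun i _ => by
      have := vc_two (N i)
      omega
    rw [sum_congr rfl h4, sum_add_distrib]
    simp [mul_comm]
  omega

private theorem vc_pv (h : CTw true c C C N N ψ e) (w : Wt) (i : C.I) :
    pv w C ψ i (N i).1 =
      w.ax ^ (univ.filter fun d : (N i).1.D =>
        e (CompInj.dt N i d) = CompInj.dt N i d).card *
      w.bi ^ (univ.filter fun d : (N i).1.D =>
        e (CompInj.dt N i d) = (comp C N).s (CompInj.dt N i d) ∧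
        ∃ d', (N i).1.s (Sum.inl d) = Sum.inl d').card *
      w.cr ^ (univ.filter fun d : (N i).1.D =>
        e (CompInj.dt N i d) = CompInj.dt N i ((N i).1.a d)).card *
      w.vx ^ (nV (N i).1.s - 2) * w.dt ^ Fintype.card (N i).1.D := by
  classical
  obtain ⟨⟨i', b'⟩, hψ⟩ := h.core.inl (i, true)
  by_cases hi : i' = i
  · subst hi
    obtain ⟨φ, hφ, hφ'⟩ := h.nets i' true i' b' hψ
    have key : ∀ d d', e (CompInj.dt N i' d) = CompInj.dt N i' d' ↔
        φ (Sum.inl d) = Sum.inl d' := by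
      intro d d'
      obtain ⟨d₁, hd₁⟩ := hφ.inl d
      have h1 := hφ' d d₁ hd₁
      rw [h1, hd₁]
      constructor
      · intro h2
        rw [CompInj.dt_inj N h2]
      · intro h2
        rw [Sum.inl_injective h2]
    have h1 : pv w C ψ i' (N i').1 = Vw w (N i').1 φ := by
      cases b'
      · unfold pv
        rw [if_neg, if_pos]
        · exact sv_of w (N i').2 hφ
        · exact hψ
        · intro h2
          have h3 : ((i', false) : C.I × Bool) = (i', true) := Sum.inl_injective (hψ.symm.trans h2)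
          simp at h3
      · unfold pv
        rw [if_pos]
        · exact sv_of w (N i').2 hφ
        · exact hψ
    rw [h1]
    unfold Vw
    have hA : nAx (N i').1 φ = (univ.filter fun d : (N i').1.D =>
        e (CompInj.dt N i' d) = CompInj.dt N i' d).card := by
      unfold nAx
      congr 1
      ext d
      simp only [mem_filter, mem_univ, true_and]
      exact (key d d).symm
    have hCr : nCr (N i').1 φ = (univ.filter fun d : (N i').1.D =>
        e (CompInj.dt N i' d) = CompInj.dt N i' ((N i').1.a d)).card := by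
      unfold nCr
      congr 1
      ext d
      simp only [mem_filter, mem_univ, true_and]
      exact (key d _).symm
    have hB : nBi (N i').1 φ = (univ.filter fun d : (N i').1.D =>
        e (CompInj.dt N i' d) = (comp C N).s (CompInj.dt N i' d) ∧
        ∃ d', (N i').1.s (Sum.inl d) = Sum.inl d').card := by
      unfold nBi
      refine (card_bij (fun d _ => Sum.inl d) ?_ ?_ ?_).symm
      · intro d hd
        simp only [mem_filter, mem_univ, true_and] at hd ⊢
        obtain ⟨hd, d', hd'⟩ := hd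
        rw [CompInj.s_dt_in N hd', key] at hd
        rw [hd, hd']
      · intro d _ d' _ hd
        exact Sum.inl_injective hd
      · intro t ht
        simp only [mem_filter, mem_univ, true_and] at ht
        obtain ⟨d, d', rfl, hd'⟩ := no_bi_root (N i').2 hφ ht
        refine ⟨d, ?_, rfl⟩
        simp only [mem_filter, mem_univ, true_and]
        refine ⟨?_, d', hd'⟩
        rw [CompInj.s_dt_in N hd', key, ht, hd']
    rw [hA, hB, hCr]
  · obtain ⟨φ, hφ, hφ'⟩ := h.nets i true i' b' hψ
    have key : ∀ d d', e (CompInj.dt N i d) ≠ CompInj.dt N i d' := by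
      intro d d' h2
      obtain ⟨d₁, hd₁⟩ := hφ.inl d
      have h1 := hφ' d d₁ hd₁
      rw [h1] at h2
      have h3 := congrArg (partOf C N) h2
      rw [CompInj.partOf_dt, CompInj.partOf_dt] at h3
      exact hi (Option.some_injective _ h3)
    have h1 : pv w C ψ i (N i).1 = hW w (N i).1 := by
      unfold pv
      rw [if_neg, if_neg]
      · intro h2
        have h3 := congrArg Prod.fst (Sum.inl_injective (hψ.symm.trans h2))
        exact hi h3
      · intro h2
        have h3 := congrArg Prod.fst (Sum.inl_injective (hψ.symm.trans h2))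
        exact hi h3
    rw [h1]
    unfold hW
    have hA : (univ.filter fun d : (N i).1.D =>
        e (CompInj.dt N i d) = CompInj.dt N i d) = ∅ :=
      filter_eq_empty_iff.2 fun d _ => key d d
    have hCr : (univ.filter fun d : (N i).1.D =>
        e (CompInj.dt N i d) = CompInj.dt N i ((N i).1.a d)) = ∅ :=
      filter_eq_empty_iff.2 fun d _ => key d _
    have hB : (univ.filter fun d : (N i).1.D =>
        e (CompInj.dt N i d) = (comp C N).s (CompInj.dt N i d) ∧
        ∃ d', (N i).1.s (Sum.inl d) = Sum.inl d') = ∅ := by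
      refine filter_eq_empty_iff.2 fun d _ => ?_
      rintro ⟨h2, d', hd'⟩
      rw [CompInj.s_dt_in N hd'] at h2
      exact key _ _ h2
    rw [hA, hB, hCr]
    simp

/-- Proof.  Call the edge `i` of the core fixed if `ψ (inl (i, true)) = inl (i, b)` for some `b`; then the map `φ` of the net given by `h.nets` is
a reflection of `N i` with root type `xor true b`, and `e (dt i d) = dt i d'` iff `φ (inl d) = inl d'`.  If `i` is not fixed then `e` maps
the part `i` to another part.  So the numbers `nAx`, `nCr` of the composite are the sums of the numbers of the nets at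
the fixed edges.  Bisected corners: let `e t = s t`.  If `t = dt i d`, `s t = dt i d'` (inside a part), then `i` is fixed and
`inl d` is a bisected corner of `N i`; by `no_bi_root` these are all bisected corners of `N i`.  Otherwise `t = L x` for a core
dart `x`, and `e (L x) = J (ψ x)` (`CTw.L_J`), `s (L x) = J (C.s x)`, `J` is injective (`jump_inj`); so these are
the bisected corners of the core.  `nV_comp` (all nets have at least two vertices, `comp` also): `nV (comp) - 2 = (nV C - 2) + ∑ (nV (N i) - 2)`; the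
number of darts is the sum.  For fixed `i` the factor is `Vw w (N i) φ = sv w _ (N i)` (`sv_of`), otherwise `hW w (N i)`. -/
theorem Vw_comp (hC : C.toB.IsGood) (h : CTw true c C C N N ψ e) (w : Wt) :
    Vw w (comp C N) e = w.bi ^ nBi C.toB ψ * w.vx ^ (nV C.s - 2) * ∏ i, pv w C ψ i (N i).1 := by
  rw [prod_congr rfl fun i _ => vc_pv h w i]
  simp only [prod_mul_distrib, prod_pow_eq_pow_sum]
  unfold Vw
  rw [vc_nAx, vc_nBi h, vc_nCr, vc_card, vc_nV hC, pow_add, pow_add]
  ring

end PGr

end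

section
/-! # Module ARig: reduced composites with rigid core -/

set_option linter.unusedSectionVars false

namespace PGr
open Equiv Finset
open scoped ENNReal Classical

variable {c : Bool} {C : Core} {N : C.I → GB} {ψ : Perm C.toB.T} {e : Perm (comp C N).T}

private theorem ARig_dn {M : BMap} {A : Finset M.T} (hA : Cl M.aa A) (hr : Sum.inr true ∉ A) :
    A = dn (univ.filter fun d : M.D => (Sum.inl d : M.T) ∈ A) := by
  ext t
  unfold dn
  rw [mem_map]
  constructor
  · intro ht
    rcases t with d | b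
    · exact ⟨d, mem_filter.2 ⟨mem_univ _, ht⟩, rfl⟩
    · exact absurd ((CompFour.inr_mem_iff hA b true).1 ht) hr
  · rintro ⟨d, hd, rfl⟩
    exact (mem_filter.1 hd).2

private theorem ARig_up {i : C.I} {A : Finset (comp C N).T} (hi : A ⊆ partSet C N i) :
    A = upS N i (univ.filter fun d : (N i).1.D => CompInj.dt N i d ∈ A) := by
  ext t
  unfold upS
  rw [mem_map]
  constructor
  · intro ht
    have h1 := (CompFour.mem_partSet C N i t).1 (hi ht)
    rcases CompInj.cases_dt N t with ⟨j, d, rfl⟩ | ⟨b, rfl⟩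
    · rw [CompInj.partOf_dt] at h1
      obtain rfl := Option.some.inj h1
      exact ⟨d, mem_filter.2 ⟨mem_univ _, ht⟩, rfl⟩
    · rw [CompFour.partOf_root] at h1
      cases h1
  · rintro ⟨d, hd, rfl⟩
    exact (mem_filter.1 hd).2

private theorem ARig_inl {m c : Bool} {M M' : BMap} {φ : M.T ≃ M'.T} (h : TwI m c M M' φ)
    (d : M.D) : ∃ d', φ (Sum.inl d) = Sum.inl d' := by
  rcases h1 : φ (Sum.inl d) with d' | b
  · exact ⟨d', rfl⟩
  · exfalso
    have h2 := h.root (xor c b)
    have h3 : (xor c (xor c b)) = b := by cases c <;> cases b <;> rfl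
    rw [h3] at h2
    have h4 := φ.injective (h1.trans h2.symm)
    cases h4

private theorem ARig_deg {T : Type} [Fintype T] [DecidableEq T] {a s : Perm T}
    (hinv : ∀ t, a (a t) = t) (hfpf : ∀ t, a t ≠ t) {r y : T} (h1 : s r = y) (h2 : s y = r)
    (h3 : y ≠ r) (h4 : y ≠ a r) : ∃ A : Finset T, Cl a A ∧ A.card = 4 ∧ cut s A ≤ 4 := by
  have h5 : a y ≠ r := fun h => h4 (by rw [← h, hinv])
  have h6 : a y ≠ a r := fun h => h3 (a.injective h)
  refine ⟨{r, a r, y, a y}, ?_, ?_, ?_⟩
  · intro t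
    simp only [mem_insert, mem_singleton]
    constructor
    · rintro (h | h | h | h)
      · right; left
        rw [← h, hinv]
      · left
        exact a.injective h
      · right; right; right
        rw [← h, hinv]
      · right; right; left
        exact a.injective h
    · rintro (h | h | h | h)
      · rw [h]; simp
      · rw [h, hinv]; simp
      · rw [h]; simp
      · rw [h, hinv]; simp
  · rw [card_insert_of_notMem, card_insert_of_notMem, card_insert_of_notMem, card_singleton]
    · simp only [mem_singleton]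
      exact (hfpf y).symm
    · simp only [mem_insert, mem_singleton]
      rintro (h | h)
      · exact h4 h.symm
      · exact h6 h.symm
    · simp only [mem_insert, mem_singleton]
      rintro (h | h | h)
      · exact hfpf r h.symm
      · exact h3 h.symm
      · exact h5 h.symm
  · have h9 : bd s {r, a r, y, a y} ⊆ {a r, a y, s.symm (a r), s.symm (a y)} := by
      intro t ht
      have ht' := (mem_filter.1 ht).2
      simp only [mem_insert, mem_singleton] at ht' ⊢
      rw [Equiv.eq_symm_apply, Equiv.eq_symm_apply]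
      by_cases h10 : t = r
      · exfalso
        apply ht'
        rw [h10, h1]
        simp
      by_cases h11 : t = y
      · exfalso
        apply ht'
        rw [h11, h2]
        simp
      have h12 : s t ≠ y := fun h => h10 (s.injective (h.trans h1.symm))
      have h13 : s t ≠ r := fun h => h11 (s.injective (h.trans h2.symm))
      tauto
    refine (card_le_card h9).trans ?_
    exact card_le_four

/-- Proof.  From left to right: for an edge `i` on the axis the whole part `i` is an `AxSet` (`ax_part` with `B = univ`), so `N i` has 2 nonroot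
darts; for an edge `i` crossing the axis an `AxSet` of `N i` gives an `AxSet` of the composite of the same size (every set
without root darts is `dn B`; a closed set without `inr true` does not contain `inr false`).  From right to left: let `A` be an `AxSet`.  By `comp_four` `A` is
inside a part `i` (the other alternative is excluded by `rest`), so `A = upS N i B`.  As `e` maps `A` into `A`, the edge `i` is fixed, `ψ (inl (i, true)) = inl (i, b')`.
If `b'` is true, the part has 2 darts, `A` is closed and not empty, so it has 2 darts.  If `b'` is false, `dn B` is an `AxSet` of `N i`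
(`ax_part`), so it has 2 elements. -/
theorem ared_rigid (hC : C.toB.IsGood) (hR : Rigid C.toB) (h : CTw true c C C N N ψ e) :
    ARed (comp C N) e ↔
      (∀ i, ψ (Sum.inl (i, true)) = Sum.inl (i, true) → Fintype.card (N i).1.D = 2) ∧
      ∀ i (φ : Perm (N i).1.T), ψ (Sum.inl (i, true)) = Sum.inl (i, false) →
        TwI true true (N i).1 (N i).1 φ → ARed (N i).1 φ := by
  have h2 : 2 ≤ Fintype.card C.I := by
    have := CompFour.card_I C hR
    omega
  have hcard : ∀ (i : C.I) (B : Finset (N i).1.D), (upS N i B).card = B.card :=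
    fun i B => card_map _
  have hcard' : ∀ (i : C.I) (B : Finset (N i).1.D), (dn (M := (N i).1) B).card = B.card :=
    fun i B => card_map _
  constructor
  · intro hA
    refine ⟨fun i hi => ?_, fun i φ hi hφ A hAx => ?_⟩
    · obtain ⟨φ, hφ, -⟩ := h.nets i true i true hi
      have h3 := (ax_part hC h2 h hi hφ univ).2 (Or.inr ⟨rfl, rfl⟩)
      have h4 := hA _ h3
      rw [hcard, card_univ] at h4
      exact h4
    · have hAB := ARig_dn hAx.cl hAx.root
      set B := univ.filter fun d : (N i).1.D => (Sum.inl d : (N i).1.T) ∈ A with hB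
      rw [hAB] at hAx
      have hφ' : TwI true (xor true false) (N i).1 (N i).1 φ := hφ
      have h3 := (ax_part hC h2 h hi hφ' B).2 (Or.inl hAx)
      have h4 := hA _ h3
      rw [hAB, hcard']
      rw [hcard] at h4
      exact h4
  · rintro ⟨ha, hb⟩ A hAx
    have hne : A.Nonempty := by
      rw [nonempty_iff_ne_empty]
      rintro rfl
      have h3 := hAx.cut4
      have h4 : cut (comp C N).s ∅ = 0 := by
        unfold cut bd
        simp
      omega
    rcases comp_four C N hC hR hAx.cl hAx.root hne hAx.cut4 with ⟨i, hi⟩ | h4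
    swap
    · exact absurd h4 hAx.rest
    have hAB := ARig_up hi
    set B := univ.filter fun d : (N i).1.D => CompInj.dt N i d ∈ A with hB
    obtain ⟨t, ht⟩ := hne
    have ht' : t ∈ upS N i B := by rwa [← hAB]
    unfold upS at ht'
    rw [mem_map] at ht'
    obtain ⟨d, hd, rfl⟩ := ht'
    have ht2 : CompInj.dt N i d ∈ A := ht
    obtain ⟨⟨i', b'⟩, hψi⟩ := ARig_inl h.core (i, true)
    obtain ⟨φ, hφ, hdt⟩ := h.nets i true i' b' hψi
    obtain ⟨d', hd'⟩ := ARig_inl hφ d
    have he := hdt d d' hd'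
    have h5 : CompInj.dt N i' d' ∈ A := by
      rw [← he]
      exact hAx.inv _ ht2
    have h6 := (CompFour.mem_partSet C N i _).1 (hi h5)
    rw [CompInj.partOf_dt] at h6
    obtain rfl := Option.some.inj h6
    cases b'
    · rw [hAB] at hAx
      have hφ' : TwI true (xor true false) (N i').1 (N i').1 φ := hφ
      rcases (ax_part hC h2 h hψi hφ' B).1 hAx with h7 | ⟨-, h7⟩
      · have h8 := hb i' φ hψi hφ _ h7
        rw [hcard'] at h8
        rw [hAB, hcard, h8]
      · cases h7
    · have h7 := ha i' hψi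
      have h8 : B.card ≤ 2 := by
        rw [← h7]
        exact card_le_univ _
      have h9 : (N i').1.a d ∈ B := by
        rw [hB, mem_filter]
        refine ⟨mem_univ _, ?_⟩
        have h10 := (hAx.cl (CompInj.dt N i' d)).2 ht2
        exact h10
      have h10 : (N i').1.a d ≠ d := by
        intro h11
        exact (N i').2.fpf (Sum.inl d) (congrArg Sum.inl h11)
      have h11 : 1 < B.card := one_lt_card.2 ⟨_, h9, _, hd, h10⟩
      rw [hAB, hcard]
      omega

/-- `ctw_mk`, `sw_of`, `ared_rigid`, `Vw_comp`; the factors: for `i` on the axis with 2 darts `sv_two`; for `i` crossing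
the axis `sv_of`, `sw_of` -/
theorem sw_rigid (hC : C.toB.IsGood) (hR : Rigid C.toB) (hψ : TwI true c C.toB C.toB ψ)
    (hn : ∀ i b i' b', ψ (Sum.inl (i, b)) = Sum.inl (i', b') →
      ∃ φ, TwI true (xor b b') (N i).1 (N i').1 φ) (w : Wt) :
    sw w c (comp C N) =
      w.bi ^ nBi C.toB ψ * w.vx ^ (nV C.s - 2) * ∏ i, qv w C ψ i (N i).1 := by
  obtain ⟨e, he⟩ := ctw_mk hψ hn
  rw [sw_of w (comp_good C N hC) he.tw]
  by_cases hA : ARed (comp C N) e
  · rw [if_pos hA, Vw_comp hC he w]
    obtain ⟨ha, hb⟩ := (ared_rigid hC hR he).1 hA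
    congr 1
    refine prod_congr rfl fun i _ => ?_
    unfold pv qv
    by_cases h1 : ψ (Sum.inl (i, true)) = Sum.inl (i, true)
    · rw [if_pos h1, if_pos h1, if_pos (ha i h1), sv_two w (N i).2 (ha i h1)]
    · rw [if_neg h1, if_neg h1]
      by_cases h2 : ψ (Sum.inl (i, true)) = Sum.inl (i, false)
      · rw [if_pos h2, if_pos h2]
        obtain ⟨φ, hφ, -⟩ := he.nets i true i false h2
        have hφ' : TwI true true (N i).1 (N i).1 φ := hφ
        rw [sv_of w (N i).2 hφ', sw_of w (N i).2 hφ', if_pos (hb i φ h2 hφ')]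
      · rw [if_neg h2, if_neg h2]
  · rw [if_neg hA]
    rw [ared_rigid hC hR he, not_and_or] at hA
    symm
    apply mul_eq_zero_of_right
    rcases hA with hA | hA
    · push Not at hA
      obtain ⟨i, h1, h2⟩ := hA
      apply prod_eq_zero (mem_univ i)
      unfold qv
      rw [if_pos h1, if_neg h2]
    · push Not at hA
      obtain ⟨i, φ, h1, h2, h3⟩ := hA
      apply prod_eq_zero (mem_univ i)
      unfold qv
      have h4 : ¬ ψ (Sum.inl (i, true)) = Sum.inl (i, true) := by
        rw [h1]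
        intro h5
        cases h5
      rw [if_neg h4, if_pos h1, sw_of w (N i).2 h2, if_neg h3]

/-- `ctw_exists` -/
theorem sw_rigid_none (hC : C.toB.IsGood) (hR : Rigid C.toB)
    (h : ¬ ∃ ψ : Perm C.toB.T, TwI true c C.toB C.toB ψ ∧
      ∀ i b i' b', ψ (Sum.inl (i, b)) = Sum.inl (i', b') →
        ∃ φ, TwI true (xor b b') (N i).1 (N i').1 φ) (w : Wt) :
    sw w c (comp C N) = 0 := by
  apply sw_none
  rintro ⟨e, he⟩
  obtain ⟨ψ, hψ⟩ := ctw_exists hC hR hC hR he
  refine h ⟨ψ, hψ.core, fun i b i' b' hi => ?_⟩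
  obtain ⟨φ, hφ, -⟩ := hψ.nets i b i' b' hi
  exact ⟨φ, hφ⟩

/-- In a composite with rigid core the darts after and before the root dart are in different parts: otherwise the root vertex of
the core has degree at most 3 with ... ; precisely: `C.s (inr true)` and `C.s⁻¹ (inr true)` belong to different edges: if they are
equal, the set of the root edge and this edge has cut at most `4` (the two corners between them are not
boundary corners: the cut is at most `4 + 4 - 2 * 2`), a contradiction to `Rigid`; if they are the two darts of one edge, this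
edge is a loop.  As `e` fixes `inr true` and exchanges the darts after and before it, `e` does not fix the dart before it. -/
theorem swX_rigid (hC : C.toB.IsGood) (hR : Rigid C.toB) (w : Wt) :
    swX w (comp C N) = sw w false (comp C N) := by
  by_cases hex : ∃ e : Perm (comp C N).T, TwI true false (comp C N) (comp C N) e
  swap
  · rw [sw_none w hex, swX_none w hex]
  obtain ⟨e, he⟩ := hex
  rw [sw_of w (comp_good C N hC) he, swX_of w (comp_good C N hC) he]
  have key : (comp C N).s (Sum.inr true) ≠ (comp C N).s⁻¹ (Sum.inr true) := by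
    intro hk
    obtain ⟨x, hx⟩ : ∃ x, C.s x = Sum.inr true := C.s.surjective _
    have h1 : (comp C N).s (CompInj.L N x) = Sum.inr true := by
      rw [CompInj.s_L, hx]
      rfl
    have h2 : CompInj.L N x = CompInj.J N (C.s (Sum.inr true)) := by
      rw [← CompInj.s_dt_root N true, hk, ← h1]
      simp
    have h3 := congrArg (partOf C N) h2
    rw [CompInj.partOf_L, CompInj.partOf_J] at h3
    have h4 := CompInj.edge_s_ne hC (Sum.inr true)
    rcases CompInj.edge_eq h3 with h5 | h5
    · rcases h6 : C.s (Sum.inr true) with ⟨i, b⟩ | b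
      swap
      · rw [h6] at h4
        exact h4 rfl
      rw [h5, h6] at hx
      obtain ⟨A, hcl, hc4, h10⟩ := ARig_deg (a := C.toB.aa) (s := C.toB.s)
        (r := Sum.inr true) (y := Sum.inl (i, b)) hC.inv hC.fpf h6 hx (by
          rintro h
          cases h) (by
          intro h
          cases h)
      have h8 := hR.2 A hcl (by rw [hc4]) (by rw [hc4]; exact hR.1)
      omega
    · have h6 := hC.noLoop (C.s (Sum.inr true))
      apply h6
      rw [CompInj.ca_eq, ← h5]
      refine ⟨-2, ?_⟩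
      have h7 : C.s (C.s x) = C.s (Sum.inr true) := by rw [hx]
      rw [← h7]
      show (C.s ^ (-2 : ℤ)) (C.s (C.s x)) = x
      rw [show (-2 : ℤ) = -1 + -1 by norm_num, zpow_add, Perm.mul_apply, zpow_neg_one]
      simp
  have h5 : e ((comp C N).s⁻¹ (Sum.inr true)) ≠ (comp C N).s⁻¹ (Sum.inr true) := by
    have h6 := he.rot' (Sum.inr true)
    rw [twS_true, inv_inv] at h6
    have h7 : e (Sum.inr true) = Sum.inr true := he.root true
    rw [h6, h7]
    exact key
  by_cases hA : ARed (comp C N) e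
  · rw [if_pos hA, if_pos ⟨hA, h5⟩]
  · rw [if_neg hA, if_neg (fun h => hA h.1)]

end PGr

end

section
/-! # Module SumB: sums over the classes of good rooted maps -/

set_option linter.unusedSectionVars false

namespace PGr
open Equiv Finset
open scoped ENNReal Classical

/-- a sum over the elements with a property, from a parametrization -/
private theorem SumB_of {α : Type*} (g : GC → ℝ≥0∞) (P : GC → Prop) (R : α → Prop)
    [∀ x, Decidable (P x)] [∀ a, Decidable (R a)] (F : α → GC)
    (h1 : ∀ a, R a → P (F a)) (h2 : ∀ a a', R a → R a' → F a = F a' → a = a')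
    (h3 : ∀ x, P x → ∃ a, R a ∧ F a = x) :
    (∑' x : GC, if P x then g x else 0) = ∑' a : α, if R a then g (F a) else 0 := by
  have hF : Function.Injective (fun a : {a // R a} => F a.1) := by
    rintro ⟨a, ha⟩ ⟨b, hb⟩ h
    exact Subtype.ext (h2 a b ha hb h)
  rw [← hF.tsum_eq (f := fun x : GC => if P x then g x else 0),
    ← (Subtype.val_injective (p := R)).tsum_eq (f := fun a : α => if R a then g (F a) else 0)]
  · refine tsum_congr fun a => ?_
    rw [if_pos (h1 a.1 a.2), if_pos a.2]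
  · intro a ha
    have : R a := by
      by_contra h
      exact ha (if_neg h)
    exact ⟨⟨a, this⟩, rfl⟩
  · intro x hx
    have : P x := by
      by_contra h
      exact hx (if_neg h)
    obtain ⟨a, ha, he⟩ := h3 x this
    exact ⟨⟨a, ha⟩, he⟩

/-- `RigLe.small`, `eq_digon`: the maps with less than 4 nonroot darts are the digon; series and parallel exclude each other and the digon
(`not_ser_par`; a prefix and the rest after the root each contain 2 darts); compare the proof of `E_eq` -/
theorem sum_types (g : GC → ℝ≥0∞) :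
    ∑' x, g x = g digC + (∑' x : GC, if IsSer x.rep.1 then g x else 0) +
      (∑' x : GC, if IsPar x.rep.1 then g x else 0) +
      ∑' x : GC, if ¬ IsSer x.rep.1 ∧ ¬ IsPar x.rep.1 ∧ 4 ≤ Fintype.card x.rep.1.D then g x else 0 := by
  have hd : g digC = ∑' x : GC, if x = digC then g x else 0 := by
    rw [tsum_eq_single digC]
    · rw [if_pos rfl]
    · intro x hx
      rw [if_neg hx]
  have hi : BIso digC.rep.1 digonB := ESum.rep_iso ⟨digonB, digon_good⟩
  rw [hd, ← ENNReal.tsum_add, ← ENNReal.tsum_add, ← ENNReal.tsum_add]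
  refine tsum_congr fun x => ?_
  by_cases h0 : x = digC
  · subst h0
    have h1 : ¬ IsSer digC.rep.1 := fun h => digon_not_ser (hi.ser h)
    have h2 : ¬ IsPar digC.rep.1 := fun h => digon_not_par (hi.par h)
    have h3 : ¬ (¬ IsSer digC.rep.1 ∧ ¬ IsPar digC.rep.1 ∧ 4 ≤ Fintype.card digC.rep.1.D) := by
      rintro ⟨-, -, h⟩
      rw [hi.card_eq] at h
      have : Fintype.card digonB.D = 2 := by
        show Fintype.card Bool = 2
        decide
      omega
    rw [if_pos rfl, if_neg h1, if_neg h2, if_neg h3]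
    simp
  · have h4 : 4 ≤ Fintype.card x.rep.1.D := by
      by_contra h
      exact h0 (ESum.eq_of_iso ((eq_digon x.rep.2 (by omega)).trans hi.symm))
    rw [if_neg h0]
    by_cases h1 : IsSer x.rep.1
    · have h2 := not_ser_par x.rep.2 h1
      rw [if_pos h1, if_neg h2, if_neg (fun h => h.1 h1)]
      simp
    · by_cases h2 : IsPar x.rep.1
      · rw [if_neg h1, if_pos h2, if_neg (fun h => h.2.1 h2)]
        simp
      · rw [if_neg h1, if_neg h2, if_pos ⟨h1, h2, h4⟩]
        simp

/-- The map `(a, b) ↦ serC a b` from `{a // ¬ IsSer a} × GC` to `{x // IsSer x}` is a bijection: `serMap_inj`, the existence of the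
decomposition with nonseries first part (used for `ser_eq` in `PGc/SerEq`), `serMap_isSer`, `ESum.rep_iso` -/
theorem ser_sum (g : GC → ℝ≥0∞) :
    (∑' x : GC, if IsSer x.rep.1 then g x else 0) =
      ∑' a : GC, ∑' b : GC, if ¬ IsSer a.rep.1 then g (serC a b) else 0 := by
  have hi : ∀ a b : GC, BIso (serC a b).rep.1 (serMap a.rep b.rep) := fun a b => ESum.rep_iso _
  rw [← ENNReal.tsum_prod (f := fun a b : GC => if ¬ IsSer a.rep.1 then g (serC a b) else 0)]
  refine SumB_of g (fun x => IsSer x.rep.1) (fun p : GC × GC => ¬ IsSer p.1.rep.1)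
    (fun p : GC × GC => serC p.1 p.2) ?_ ?_ ?_
  · rintro ⟨a, b⟩ -
    exact (hi a b).symm.ser (serMap_isSer _ _)
  · rintro ⟨a, b⟩ ⟨a', b'⟩ h h' he
    have he' : serC a b = serC a' b' := he
    have h1 : BIso (serMap a.rep b.rep) (serMap a'.rep b'.rep) := by
      refine ((hi a b).symm).trans ?_
      rw [he']
      exact hi a' b'
    obtain ⟨h4, h5⟩ := serMap_inj h h' h1
    exact Prod.ext (ESum.eq_of_iso h4) (ESum.eq_of_iso h5)
  · intro x hx
    obtain ⟨N₁, N₂, h1, h2⟩ := exists_serMap x.rep.2 hx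
    have e1 := ESum.rep_iso N₁
    have e2 := ESum.rep_iso N₂
    refine ⟨(ESum.cl N₁, ESum.cl N₂), fun hs => h1 (e1.ser hs), ?_⟩
    apply ESum.eq_of_iso
    exact (hi _ _).trans ((serMap_iso e1 e2).trans h2.symm)

theorem par_sum (g : GC → ℝ≥0∞) :
    (∑' x : GC, if IsPar x.rep.1 then g x else 0) =
      ∑' a : GC, ∑' b : GC, if ¬ IsPar a.rep.1 then g (parC a b) else 0 := by
  have hi : ∀ a b : GC, BIso (parC a b).rep.1 (parMap a.rep b.rep) := fun a b => ESum.rep_iso _
  rw [← ENNReal.tsum_prod (f := fun a b : GC => if ¬ IsPar a.rep.1 then g (parC a b) else 0)]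
  refine SumB_of g (fun x => IsPar x.rep.1) (fun p : GC × GC => ¬ IsPar p.1.rep.1)
    (fun p : GC × GC => parC p.1 p.2) ?_ ?_ ?_
  · rintro ⟨a, b⟩ -
    exact (hi a b).symm.par (parMap_isPar _ _)
  · rintro ⟨a, b⟩ ⟨a', b'⟩ h h' he
    have he' : parC a b = parC a' b' := he
    have h1 : BIso (parMap a.rep b.rep) (parMap a'.rep b'.rep) := by
      refine ((hi a b).symm).trans ?_
      rw [he']
      exact hi a' b'
    have h3 : BIso (parMap a.rep b.rep).dual (parMap a'.rep b'.rep).dual := h1.dual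
    unfold parMap at h3
    rw [dual_dual (serMap_good _ _), dual_dual (serMap_good _ _)] at h3
    obtain ⟨h4, h5⟩ := serMap_inj (N₁ := a.rep.dual) (N₂ := b.rep.dual) (N₁' := a'.rep.dual)
      (N₂' := b'.rep.dual) h h' h3
    have h6 : BIso a.rep.1.dual.dual a'.rep.1.dual.dual := BIso.dual h4
    have h7 : BIso b.rep.1.dual.dual b'.rep.1.dual.dual := BIso.dual h5
    rw [dual_dual a.rep.2, dual_dual a'.rep.2] at h6
    rw [dual_dual b.rep.2, dual_dual b'.rep.2] at h7
    exact Prod.ext (ESum.eq_of_iso h6) (ESum.eq_of_iso h7)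
  · intro x hx
    obtain ⟨N₁, N₂, h1, h2⟩ := exists_parMap x.rep.2 hx
    have e1 := ESum.rep_iso N₁
    have e2 := ESum.rep_iso N₂
    refine ⟨(ESum.cl N₁, ESum.cl N₂), fun hs => h1 (e1.par hs), ?_⟩
    apply ESum.eq_of_iso
    exact (hi _ _).trans ((SerEq_parMap_iso e1 e2).trans h2.symm)

/-- The map `ixC` from `{p // Rigid p.1}` is a bijection onto the set of the other classes: `RigLe.exists_ix` (surjective, `comp_iso`, `Dc`), `comp_inj_core`,
`comp_inj_nets` (injective; the cores `ESum.core c`, `ESum.core c'` are isomorphic, so `c = c'` by `ESum.core_iso`), `comp_not_ser`, `comp_not_par`; compare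
`rig_le` and `ESum.rig_ge` -/
theorem rig_sum (g : GC → ℝ≥0∞) :
    (∑' x : GC, if ¬ IsSer x.rep.1 ∧ ¬ IsPar x.rep.1 ∧ 4 ≤ Fintype.card x.rep.1.D then g x else 0) =
      ∑' p : RigLe.Ix, if Rigid p.1.rep.1 then g (ixC p) else 0 := by
  have hi : ∀ p : RigLe.Ix, BIso (ixC p).rep.1 (comp (ESum.core p.1) (fun i => (p.2 i).rep)) :=
    fun p => ESum.rep_iso _
  have hcore : ∀ c : GC, Rigid c.rep.1 → Rigid (ESum.core c).toB := fun c hc =>
    (ESum.core_iso c).symm.rigid hc
  refine SumB_of g (fun x => ¬ IsSer x.rep.1 ∧ ¬ IsPar x.rep.1 ∧ 4 ≤ Fintype.card x.rep.1.D)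
    (fun p : RigLe.Ix => Rigid p.1.rep.1) ixC ?_ ?_ ?_
  · rintro ⟨c, f⟩ hc
    have hR := hcore c hc
    have hi' := hi ⟨c, f⟩
    have h3 : 3 ≤ Fintype.card (ESum.core c).I := by
      have := hR.1
      have e : Fintype.card (ESum.core c).toB.T = Fintype.card (ESum.core c).I * 2 + 2 := by
        show Fintype.card (((ESum.core c).I × Bool) ⊕ Bool) = _
        rw [Fintype.card_sum, Fintype.card_prod, Fintype.card_bool]
      omega
    have hcard : 4 ≤ Fintype.card (comp (ESum.core c) (fun i => (f i).rep)).D := by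
      have e : Fintype.card (comp (ESum.core c) (fun i => (f i).rep)).D =
          ∑ i, Fintype.card (f i).rep.1.D := by
        show Fintype.card (Σ i, (f i).rep.1.D) = _
        rw [Fintype.card_sigma]
      rw [e]
      have h5 : ∑ _i : (ESum.core c).I, 2 ≤ ∑ i, Fintype.card (f i).rep.1.D := by
        apply Finset.sum_le_sum
        intro i _
        obtain ⟨k, hk, hk2⟩ := card_D_even (f i).rep.2
        omega
      rw [Finset.sum_const, smul_eq_mul, Finset.card_univ] at h5
      omega
    refine ⟨fun h => ?_, fun h => ?_, ?_⟩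
    · exact comp_not_ser _ _ (ESum.core_good c) hR (hi'.ser h)
    · exact comp_not_par _ _ (ESum.core_good c) hR (hi'.par h)
    · rw [hi'.card_eq]
      exact hcard
  · rintro ⟨c, f⟩ ⟨c', f'⟩ hc hc' he
    have hR := hcore c hc
    have hR' := hcore c' hc'
    have h3 : BIso (comp (ESum.core c) (fun i => (f i).rep))
        (comp (ESum.core c') (fun i => (f' i).rep)) := by
      refine (hi ⟨c, f⟩).symm.trans ?_
      rw [he]
      exact hi ⟨c', f'⟩
    have h4 := comp_inj_core _ _ _ _ (ESum.core_good c) hR (ESum.core_good c') hR' h3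
    have h5 : c = c' :=
      ESum.eq_of_iso (((ESum.core_iso c).symm.trans h4).trans (ESum.core_iso c'))
    subst h5
    have h6 : f = f' := by
      funext i
      exact ESum.eq_of_iso (comp_inj_nets _ _ _ (ESum.core_good c) hR h3 i)
    rw [h6]
  · rintro x ⟨h1, h2, h3⟩
    obtain ⟨p, hp, N, hN, hx⟩ := RigLe.exists_ix x.rep.2 h1 h2 h3
    refine ⟨p, hp, ESum.eq_of_iso ?_⟩
    refine (hi p).trans ((comp_iso _ _ _ fun i => ?_).trans hx.symm)
    show BIso (GC.rep (p.2 i)).1 (N i).1
    rw [← hN i]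
    exact ESum.rep_iso (N i)

end PGr

end

section
/-! # Module RigTot: the sum over the symmetric composites with rigid core -/

set_option linter.unusedSectionVars false

namespace PGr
open Equiv Finset
open scoped ENNReal Classical

/-- the summand of `RigS` -/
noncomputable def rigT (w : Wt) (c : Bool) (E : ℝ≥0∞) (M : BMap) : ℝ≥0∞ :=
  ∑ ψ : Perm M.T, if Rigid M ∧ TwI true c M M ψ then
    w.bi ^ nBi M ψ * w.vx ^ (nV M.s - 2) *
      (w.ax ^ 2 * w.dt ^ 2) ^ (nAx M ψ / 2) * E ^ (nCr M ψ / 2) *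
      e2 w ^ ((Fintype.card M.D - nAx M ψ - nCr M ψ) / 4) else 0

private theorem RigTot_conj {M N : BMap} {φ : M.T ≃ N.T} (h : TwI false false M N φ)
    {c : Bool} (e : Perm M.T) :
    TwI true c N N ((φ.symm.trans e).trans φ) ↔ TwI true c M M e := by
  constructor
  · intro h1
    have h2 := (h.trans h1).trans h.symm
    have e2 : (φ.trans ((φ.symm.trans e).trans φ)).trans φ.symm = e := by
      ext t : 1
      simp
    rw [e2] at h2
    simpa using h2
  · intro h1
    have h2 := (h.symm.trans h1).trans h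
    simpa using h2

private theorem RigTot_nBi {M N : BMap} {φ : M.T ≃ N.T} (h : TwI false false M N φ)
    (e : Perm M.T) : nBi N ((φ.symm.trans e).trans φ) = nBi M e := by
  unfold nBi
  symm
  refine Finset.card_bij (fun t _ => φ t) ?_ ?_ ?_
  · intro t ht
    rw [mem_filter] at ht ⊢
    refine ⟨mem_univ _, ?_⟩
    simp only [Equiv.trans_apply, Equiv.symm_apply_apply]
    rw [ht.2, h.rot]
    rfl
  · intro t _ t' _ he
    exact φ.injective he
  · intro t ht
    rw [mem_filter] at ht
    refine ⟨φ.symm t, ?_, Equiv.apply_symm_apply _ _⟩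
    rw [mem_filter]
    refine ⟨mem_univ _, φ.injective ?_⟩
    have h1 := ht.2
    simp only [Equiv.trans_apply] at h1
    rw [h1, h.rot, Equiv.apply_symm_apply]
    rfl

private theorem RigTot_D {M N : BMap} {φ : M.T ≃ N.T} (h : TwI false false M N φ) :
    ∃ f : M.D ≃ N.D, ∀ d, φ (Sum.inl d) = Sum.inl (f d) := by
  choose f hf using h.inl
  have hinj : Function.Injective f := by
    intro d d' he
    have h1 := hf d
    rw [he, ← hf d'] at h1
    exact Sum.inl_injective (φ.injective h1)
  have hbij : Function.Bijective f :=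
    (Fintype.bijective_iff_injective_and_card f).2 ⟨hinj, h.card_eq⟩
  exact ⟨Equiv.ofBijective f hbij, hf⟩

private theorem RigTot_nAx {M N : BMap} {φ : M.T ≃ N.T} (h : TwI false false M N φ)
    (e : Perm M.T) : nAx N ((φ.symm.trans e).trans φ) = nAx M e := by
  obtain ⟨f, hf⟩ := RigTot_D h
  have hf' : ∀ d, φ.symm (Sum.inl (f d)) = Sum.inl d := fun d => by
    rw [Equiv.symm_apply_eq, hf]
  unfold nAx
  symm
  refine Finset.card_bij (fun d _ => f d) ?_ ?_ ?_
  · intro d hd
    rw [mem_filter] at hd ⊢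
    refine ⟨mem_univ _, ?_⟩
    simp only [Equiv.trans_apply]
    rw [hf', hd.2, hf]
  · intro d _ d' _ he
    exact f.injective he
  · intro d hd
    rw [mem_filter] at hd
    obtain ⟨d0, rfl⟩ := f.surjective d
    refine ⟨d0, ?_, rfl⟩
    rw [mem_filter]
    refine ⟨mem_univ _, φ.injective ?_⟩
    have h1 := hd.2
    simp only [Equiv.trans_apply] at h1
    rw [hf'] at h1
    rw [h1, hf]

private theorem RigTot_nCr {M N : BMap} {φ : M.T ≃ N.T} (h : TwI false false M N φ)
    (e : Perm M.T) : nCr N ((φ.symm.trans e).trans φ) = nCr M e := by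
  obtain ⟨f, hf⟩ := RigTot_D h
  have hf' : ∀ d, φ.symm (Sum.inl (f d)) = Sum.inl d := fun d => by
    rw [Equiv.symm_apply_eq, hf]
  have ha : ∀ d, N.a (f d) = f (M.a d) := by
    intro d
    have h1 := h.aa (Sum.inl d)
    rw [hf] at h1
    have h2 : φ (Sum.inl (M.a d)) = Sum.inl (N.a (f d)) := h1
    rw [hf] at h2
    exact (Sum.inl_injective h2).symm
  unfold nCr
  symm
  refine Finset.card_bij (fun d _ => f d) ?_ ?_ ?_
  · intro d hd
    rw [mem_filter] at hd ⊢
    refine ⟨mem_univ _, ?_⟩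
    simp only [Equiv.trans_apply]
    rw [hf', hd.2, hf, ha]
  · intro d _ d' _ he
    exact f.injective he
  · intro d hd
    rw [mem_filter] at hd
    obtain ⟨d0, rfl⟩ := f.surjective d
    refine ⟨d0, ?_, rfl⟩
    rw [mem_filter]
    refine ⟨mem_univ _, φ.injective ?_⟩
    have h1 := hd.2
    simp only [Equiv.trans_apply] at h1
    rw [hf'] at h1
    rw [h1, hf, ha]

/-- as `sw_iso` -/
theorem rigT_iso (w : Wt) (c : Bool) (E : ℝ≥0∞) {M N : BMap} (h : BIso M N) :
    rigT w c E M = rigT w c E N := by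
  obtain ⟨φ, hφ⟩ := BIso_iff.1 h
  have hR : Rigid M ↔ Rigid N := rigid_tw hφ
  have hD := hφ.card_eq
  have hV := hφ.nV_eq
  unfold rigT
  refine Fintype.sum_equiv (Equiv.permCongr φ) _ _ fun e => ?_
  have he : (Equiv.permCongr φ) e = (φ.symm.trans e).trans φ := rfl
  rw [he, RigTot_nBi hφ, RigTot_nAx hφ, RigTot_nCr hφ, hD, hV]
  have hiff : (Rigid M ∧ TwI true c M M e) ↔
      (Rigid N ∧ TwI true c N N ((φ.symm.trans e).trans φ)) := by
    rw [hR, RigTot_conj hφ]
  by_cases h1 : Rigid M ∧ TwI true c M M e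
  · rw [if_pos h1, if_pos (hiff.1 h1)]
  · rw [if_neg h1, if_neg (fun h2 => h1 (hiff.2 h2))]

/-- the digon is the only class with two darts -/
private theorem RigTot_dig {x : GC} (h : Fintype.card x.rep.1.D = 2) : x = digC := by
  refine ESum.eq_of_iso ?_
  exact (eq_digon x.rep.2 (by omega)).trans (ESum.rep_iso ⟨digonB, digon_good⟩).symm

private theorem RigTot_digcard : Fintype.card digC.rep.1.D = 2 := by
  have h1 : Fintype.card digC.rep.1.D = Fintype.card digonB.D :=
    (ESum.rep_iso ⟨digonB, digon_good⟩).card_eq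
  rw [h1]
  show Fintype.card Bool = 2
  decide

private theorem RigTot_twdig (m c : Bool) : twC m c digC = digC := by
  apply RigTot_dig
  obtain ⟨φ, hφ⟩ := twC_eq_iff.1 (rfl : twC m c digC = twC m c digC)
  rw [← hφ.card_eq]
  exact RigTot_digcard

/-- Proof.  Let `C` be a rigid core.  If it has no reflection `ψ` with root type `c` all terms are 0 (`sw_rigid_none`) and `rigT` is 0.  Otherwise `ψ` is unique (`TwI.unique`);
define `τ i`, `β i` by `ψ (inl (i, true)) = inl (τ i, β i)` (then `ψ (inl (i, false)) = inl (τ i, !(β i))`, `τ` is an involution and `β (τ i) = β i`) and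
`θ i x = twC true (xor true (β i)) x`.  For `F : C.I → GC` the nets `(F i).rep` are compatible with `ψ` iff `F (τ i) = θ i (F i)` for all `i` (`twC_eq_iff`, `twC_inv`).  By `sw_rigid`,
`sw_rigid_none` the term of `F` is `w.bi ^ nBi * w.vx ^ (nV - 2) * ∏ i, qv w C ψ i (F i).rep` if `F` is compatible and 0 otherwise.  `orb_prod` with `g i x = qv w C ψ i x.rep`: for `τ i ≠ i` it is `hW w x.rep`,
`hW_twC`, `e2_hW`; for `τ i = i`, `β i = true`: the sum over the `x` with `twC true false x = x` and two darts is `w.ax ^ 2 * w.dt ^ 2` (only the digon, `eq_digon`; it is symmetric); for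
`τ i = i`, `β i = false` the sum is `EC w` (`sw_none`, `sym_iff`).  The darts of `C.toB` are `C.I × Bool`, so `nAx = 2 #{i | τ i = i, β i = true}`, `nCr = 2 #{i | τ i = i, β i = false}`
and the number of darts is twice the number of edges. -/
theorem rig_core (w : Wt) (c : Bool) (C : Core) (hC : C.toB.IsGood) (hR : Rigid C.toB) :
    ∑' F : C.I → GC, sw w c (comp C (fun i => (F i).rep)) = rigT w c (EC w) C.toB := by
  by_cases hex : ∃ ψ : Perm C.toB.T, TwI true c C.toB C.toB ψ
  swap
  · -- no reflection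
    have h1 : ∀ F : C.I → GC, sw w c (comp C (fun i => (F i).rep)) = 0 := fun F =>
      sw_rigid_none hC hR (fun ⟨ψ, hψ, _⟩ => hex ⟨ψ, hψ⟩) w
    simp only [h1, tsum_zero]
    unfold rigT
    symm
    refine Finset.sum_eq_zero fun ψ _ => if_neg fun h2 => hex ⟨ψ, h2.2⟩
  · obtain ⟨ψ, hψ⟩ := hex
    -- the right side
    have hr : rigT w c (EC w) C.toB =
        w.bi ^ nBi C.toB ψ * w.vx ^ (nV C.s - 2) *
          (w.ax ^ 2 * w.dt ^ 2) ^ (nAx C.toB ψ / 2) * EC w ^ (nCr C.toB ψ / 2) *
          e2 w ^ ((Fintype.card C.toB.D - nAx C.toB ψ - nCr C.toB ψ) / 4) := by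
      unfold rigT
      rw [Finset.sum_eq_single ψ]
      · rw [if_pos ⟨hR, hψ⟩]
        rfl
      · intro χ _ hχ
        exact if_neg fun h2 => hχ (TwI.unique hC h2.2 hψ)
      · intro h2
        exact absurd (mem_univ _) h2
    -- the action on the edges
    have hact : ∀ i : C.I, ∃ p : C.I × Bool, ψ (Sum.inl (i, true)) = Sum.inl p := fun i =>
      hψ.inl (i, true)
    choose p hp using hact
    let τ : C.I → C.I := fun i => (p i).1
    let γ : C.I → Bool := fun i => xor true (p i).2
    have hall : ∀ i b, ψ (Sum.inl (i, b)) = Sum.inl (τ i, xor (γ i) b) := by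
      intro i b
      have h1 : ψ (Sum.inl (i, true)) = Sum.inl (τ i, (p i).2) := hp i
      cases b with
      | true =>
        rw [h1]
        show (Sum.inl (τ i, (p i).2) : C.toB.T) = Sum.inl (τ i, xor (xor true (p i).2) true)
        cases (p i).2 <;> rfl
      | false =>
        have h2 : ψ (Sum.inl (i, false)) = C.toB.aa (ψ (Sum.inl (i, true))) :=
          hψ.aa (Sum.inl (i, true))
        rw [h2, h1]
        show (Sum.inl (τ i, !(p i).2) : C.toB.T) = Sum.inl (τ i, xor (xor true (p i).2) false)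
        cases (p i).2 <;> rfl
    have hinv : ∀ i, τ (τ i) = i ∧ γ (τ i) = γ i := by
      intro i
      have h1 : ψ (ψ (Sum.inl (i, true))) = Sum.inl (i, true) := hψ.invol hC (Sum.inl (i, true))
      rw [hall] at h1
      have h1' := (hall (τ i) (xor (γ i) true)).symm.trans h1
      have h2 := Sum.inl_injective h1'
      have h3 : τ (τ i) = i := congrArg Prod.fst h2
      have h4 : xor (γ (τ i)) (xor (γ i) true) = true := congrArg Prod.snd h2
      refine ⟨h3, ?_⟩
      revert h4
      cases γ (τ i) <;> cases γ i <;> simp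
    -- compatible families
    have hcomp : ∀ F : C.I → GC, sw w c (comp C (fun i => (F i).rep)) =
        w.bi ^ nBi C.toB ψ * w.vx ^ (nV C.s - 2) *
          (if ∀ i, F (τ i) = twC true (γ i) (F i) then ∏ i, qv w C ψ i (F i).rep.1 else 0) := by
      intro F
      by_cases hF : ∀ i, F (τ i) = twC true (γ i) (F i)
      · rw [if_pos hF]
        refine sw_rigid hC hR hψ ?_ w
        intro i b i' b' hi
        rw [hall] at hi
        have h2 := Sum.inl_injective hi
        have h3 : τ i = i' := congrArg Prod.fst h2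
        have h4 : xor (γ i) b = b' := congrArg Prod.snd h2
        have h5 : xor b b' = γ i := by
          rw [← h4]; cases γ i <;> cases b <;> rfl
        rw [h5, ← h3]
        exact twC_eq_iff.1 (hF i).symm
      · rw [if_neg hF, mul_zero]
        refine sw_rigid_none hC hR ?_ w
        rintro ⟨χ, hχ, hn⟩
        have h1 : χ = ψ := TwI.unique hC hχ hψ
        subst h1
        apply hF
        intro i
        have h2 := hn i true (τ i) (xor (γ i) true) (hall i true)
        have h5 : xor true (xor (γ i) true) = γ i := by cases γ i <;> rfl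
        rw [h5] at h2
        exact (twC_eq_iff.2 h2).symm
    have hsum : ∑' F : C.I → GC, sw w c (comp C (fun i => (F i).rep)) =
        w.bi ^ nBi C.toB ψ * w.vx ^ (nV C.s - 2) *
          ∑' F : C.I → GC, (if ∀ i, F (τ i) = twC true (γ i) (F i) then
            ∏ i, qv w C ψ i (F i).rep.1 else 0) := by
      rw [← ENNReal.tsum_mul_left]
      exact tsum_congr hcomp
    have horb := orb_prod (Λ := GC) τ (fun i => (hinv i).1) (fun i x => twC true (γ i) x)
      (fun i x => by
        show twC true (γ (τ i)) (twC true (γ i) x) = x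
        rw [(hinv i).2, twC_inv])
      (fun i x => qv w C ψ i x.rep.1) (e2 w) (fun i hi => by
        have hne : ∀ j, τ j ≠ j → ∀ x : GC, qv w C ψ j x.rep.1 = hW w x.rep.1 := by
          intro j hj x
          have h1 : ¬ ψ (Sum.inl (j, true)) = Sum.inl (j, true) := by
            rw [hall]
            intro h2
            exact hj (congrArg Prod.fst (Sum.inl_injective h2))
          have h2 : ¬ ψ (Sum.inl (j, true)) = Sum.inl (j, false) := by
            rw [hall]
            intro h2
            exact hj (congrArg Prod.fst (Sum.inl_injective h2))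
          unfold qv
          rw [if_neg h1, if_neg h2]
        rw [e2_hW]
        refine tsum_congr fun x => ?_
        have hi' : τ (τ i) ≠ τ i := by rw [(hinv i).1]; exact hi.symm
        rw [hne i hi x, hne (τ i) hi' _, hW_twC, pow_two])
    -- the fixed edges
    have hfix : ∀ i, τ i = i → (∑' x : GC, if twC true (γ i) x = x then qv w C ψ i x.rep.1 else 0) =
        if γ i = true then EC w else w.ax ^ 2 * w.dt ^ 2 := by
      intro i hi
      have h0 := hall i true
      rw [hi] at h0
      cases hγ : γ i with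
      | true =>
        rw [hγ] at h0
        have h1 : ¬ ψ (Sum.inl (i, true)) = Sum.inl (i, true) := by
          rw [h0]
          intro h2
          have h3 := congrArg Prod.snd (Sum.inl_injective h2)
          cases h3
        have h2 : ψ (Sum.inl (i, true)) = Sum.inl (i, false) := h0
        rw [if_pos rfl]
        unfold EC
        refine tsum_congr fun x => ?_
        unfold qv
        rw [if_neg h1, if_pos h2]
        split_ifs with h3
        · rfl
        · exact (sw_none w (fun h4 => h3 ((sym_iff true x).1 h4))).symm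
      | false =>
        rw [hγ] at h0
        have h1 : ψ (Sum.inl (i, true)) = Sum.inl (i, true) := h0
        rw [if_neg (by simp)]
        rw [tsum_eq_single digC]
        · rw [if_pos (RigTot_twdig _ _)]
          unfold qv
          rw [if_pos h1, if_pos RigTot_digcard]
        · intro x hx
          unfold qv
          rw [if_pos h1]
          split_ifs with h3 h4
          · exact absurd (RigTot_dig h4) hx
          · rfl
          · rfl
    have hprod : (∏ i ∈ univ.filter fun i => τ i = i,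
        ∑' x : GC, if twC true (γ i) x = x then qv w C ψ i x.rep.1 else 0) =
        EC w ^ (univ.filter fun i => τ i = i ∧ γ i = true).card *
          (w.ax ^ 2 * w.dt ^ 2) ^ (univ.filter fun i => τ i = i ∧ ¬ γ i = true).card := by
      have h1 : (∏ i ∈ univ.filter fun i => τ i = i,
        ∑' x : GC, if twC true (γ i) x = x then qv w C ψ i x.rep.1 else 0) =
        ∏ i ∈ univ.filter fun i => τ i = i, if γ i = true then EC w else w.ax ^ 2 * w.dt ^ 2 := by
        refine Finset.prod_congr rfl fun i hi => ?_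
        rw [mem_filter] at hi
        exact hfix i hi.2
      rw [h1, Finset.prod_ite, Finset.prod_const, Finset.prod_const, filter_filter, filter_filter]
    -- counting
    have hcol : ∀ (P : C.I → Prop) [DecidablePred P], (univ.filter fun d : C.I × Bool => P d.1).card =
        2 * (univ.filter fun i : C.I => P i).card := by
      intro P _
      have h1 : (univ.filter fun d : C.I × Bool => P d.1) =
          (univ.filter fun i : C.I => P i) ×ˢ (univ : Finset Bool) := by
        ext d
        simp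
      rw [h1, Finset.card_product, Finset.card_univ, Fintype.card_bool, mul_comm]
    have hAx : nAx C.toB ψ = 2 * (univ.filter fun i : C.I => τ i = i ∧ ¬ γ i = true).card := by
      rw [← hcol (fun i => τ i = i ∧ ¬ γ i = true)]
      unfold nAx
      congr 1
      ext d
      obtain ⟨i, b⟩ := d
      have hd : ψ (Sum.inl (i, b)) = Sum.inl (i, b) ↔ (τ i = i ∧ ¬ γ i = true) := by
        rw [hall]
        constructor
        · intro h1
          have h2 := Sum.inl_injective h1
          refine ⟨congrArg Prod.fst h2, ?_⟩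
          have h3 : xor (γ i) b = b := congrArg Prod.snd h2
          intro h4
          rw [h4] at h3
          cases b <;> cases h3
        · rintro ⟨h1, h2⟩
          rw [h1, Bool.not_eq_true] at *
          rw [h2, Bool.false_xor]
      constructor
      · intro h1
        exact Finset.mem_filter.2 ⟨mem_univ _, hd.1 (Finset.mem_filter.1 h1).2⟩
      · intro h1
        exact Finset.mem_filter.2 ⟨mem_univ _, hd.2 (Finset.mem_filter.1 h1).2⟩
    have hCr : nCr C.toB ψ = 2 * (univ.filter fun i : C.I => τ i = i ∧ γ i = true).card := by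
      rw [← hcol (fun i => τ i = i ∧ γ i = true)]
      unfold nCr
      congr 1
      ext d
      obtain ⟨i, b⟩ := d
      have hd : ψ (Sum.inl (i, b)) = Sum.inl (i, !b) ↔ (τ i = i ∧ γ i = true) := by
        rw [hall]
        constructor
        · intro h1
          have h2 := Sum.inl_injective h1
          refine ⟨congrArg Prod.fst h2, ?_⟩
          have h3 : xor (γ i) b = !b := congrArg Prod.snd h2
          revert h3
          cases γ i <;> cases b <;> simp
        · rintro ⟨h1, h2⟩
          rw [h1, h2, Bool.true_xor]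
      constructor
      · intro h1
        exact Finset.mem_filter.2 ⟨mem_univ _, hd.1 (Finset.mem_filter.1 h1).2⟩
      · intro h1
        exact Finset.mem_filter.2 ⟨mem_univ _, hd.2 (Finset.mem_filter.1 h1).2⟩
    have hD : Fintype.card C.toB.D = 2 * Fintype.card C.I := by
      show Fintype.card (C.I × Bool) = _
      rw [Fintype.card_prod, Fintype.card_bool, mul_comm]
    have htot : Fintype.card C.I = (univ.filter fun i : C.I => τ i = i ∧ ¬ γ i = true).card +
        (univ.filter fun i : C.I => τ i = i ∧ γ i = true).card +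
        (univ.filter fun i : C.I => τ i ≠ i).card := by
      have h1 := Finset.card_filter_add_card_filter_not (s := (univ : Finset C.I)) (fun i => τ i = i)
      have h2 := Finset.card_filter_add_card_filter_not
        (s := univ.filter fun i : C.I => τ i = i) (fun i => γ i = true)
      rw [filter_filter, filter_filter] at h2
      rw [Finset.card_univ] at h1
      have h3 : (univ.filter fun i : C.I => τ i ≠ i) = univ.filter fun i : C.I => ¬ τ i = i := rfl
      rw [h3]
      omega
    have horb' : (∑' F : C.I → GC, (if ∀ i, F (τ i) = twC true (γ i) (F i) then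
        ∏ i, qv w C ψ i (F i).rep.1 else 0)) =
        (∏ i ∈ univ.filter fun i => τ i = i,
          ∑' x : GC, if twC true (γ i) x = x then qv w C ψ i x.rep.1 else 0) *
        e2 w ^ ((univ.filter fun i : C.I => τ i ≠ i).card / 2) := by
      refine (tsum_congr fun F => ?_).trans (horb.trans ?_)
      · split_ifs <;> rfl
      · congr 1
        refine Finset.prod_congr (by congr) fun i _ => tsum_congr fun x => ?_
        split_ifs <;> rfl
    rw [hsum, hr, horb', hprod, hAx, hCr, hD]
    have e1 : 2 * (univ.filter fun i : C.I => τ i = i ∧ ¬ γ i = true).card / 2 =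
        (univ.filter fun i : C.I => τ i = i ∧ ¬ γ i = true).card := by omega
    have e2' : 2 * (univ.filter fun i : C.I => τ i = i ∧ γ i = true).card / 2 =
        (univ.filter fun i : C.I => τ i = i ∧ γ i = true).card := by omega
    have e3 : (2 * Fintype.card C.I - 2 * (univ.filter fun i : C.I => τ i = i ∧ ¬ γ i = true).card -
        2 * (univ.filter fun i : C.I => τ i = i ∧ γ i = true).card) / 4 =
        (univ.filter fun i : C.I => τ i ≠ i).card / 2 := by omega
    rw [e1, e2', e3]
    ring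

/-- `rig_sum`, `sw_iso`, `rig_core` for `ESum.core x`, `ESum.core_iso`, `rigT_iso`; the sum over `RigLe.Ix` is the sum over `x : GC` of the sum over `F` (`tsum_sigma`) -/
theorem rig_total (w : Wt) (c : Bool) :
    (∑' x : GC, if ¬ IsSer x.rep.1 ∧ ¬ IsPar x.rep.1 ∧ 4 ≤ Fintype.card x.rep.1.D then
      sw w c x.rep.1 else 0) = RigS w c (EC w) := by
  rw [rig_sum (fun x => sw w c x.rep.1)]
  have h1 : ∀ p : RigLe.Ix, (if Rigid p.1.rep.1 then sw w c (ixC p).rep.1 else 0) =
      (fun (x : GC) (F : (ESum.core x).I → GC) => if Rigid x.rep.1 then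
        sw w c (comp (ESum.core x) (fun i => (F i).rep)) else 0) p.1 p.2 := by
    intro p
    have h2 : sw w c (ixC p).rep.1 =
        sw w c (comp (ESum.core p.1) (fun i => (p.2 i).rep)) :=
      sw_iso w c (ESum.rep_iso _)
    simp only [h2]
  refine (tsum_congr h1).trans ((tsum_sigma_eq (fun (x : GC) (F : (ESum.core x).I → GC) =>
    if Rigid x.rep.1 then sw w c (comp (ESum.core x) (fun i => (F i).rep)) else 0)).symm.trans ?_)
  show _ = ∑' x : GC, rigT w c (EC w) x.rep.1
  refine tsum_congr fun x => ?_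
  by_cases hx : Rigid x.rep.1
  · simp only [if_pos hx]
    rw [rig_core w c (ESum.core x) (ESum.core_good x) ((ESum.core_iso x).symm.rigid hx)]
    exact rigT_iso w c (EC w) (ESum.core_iso x)
  · simp only [if_neg hx, tsum_zero]
    unfold rigT
    symm
    exact Finset.sum_eq_zero fun ψ _ => if_neg fun h => hx h.1

/-- the same with `swX_rigid` -/
theorem rig_total_X (w : Wt) :
    (∑' x : GC, if ¬ IsSer x.rep.1 ∧ ¬ IsPar x.rep.1 ∧ 4 ≤ Fintype.card x.rep.1.D then
      swX w x.rep.1 else 0) = RigS w false (EC w) := by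
  rw [← rig_total, rig_sum (fun x => swX w x.rep.1), rig_sum (fun x => sw w false x.rep.1)]
  refine tsum_congr fun p => ?_
  by_cases hx : Rigid p.1.rep.1
  · rw [if_pos hx, if_pos hx]
    have h2 : swX w (ixC p).rep.1 = swX w (comp (ESum.core p.1) (fun i => (p.2 i).rep)) :=
      swX_iso w (ESum.rep_iso _)
    have h3 : sw w false (ixC p).rep.1 =
        sw w false (comp (ESum.core p.1) (fun i => (p.2 i).rep)) :=
      sw_iso w false (ESum.rep_iso _)
    rw [h2, h3]
    exact swX_rigid (ESum.core_good p.1) ((ESum.core_iso p.1).symm.rigid hx) w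
  · rw [if_neg hx, if_neg hx]

end PGr

end

section
/-! # Module ArcInj: the network of an arc is unique -/

set_option linter.unusedSectionVars false

namespace PGr
open Equiv Finset
open scoped Classical

/-- the darts of `N` in its expansion -/
def ArcInj_t (N : LNet RC) (t : N.T) : (expand N).D := Sum.inl t

/-- the darts of the label of `v` -/
def ArcInj_q (N : LNet RC) (v : {v : N.V // v ≠ N.pole true}) (d : (N.lab v.1).rep.1.D) :
    (expand N).D := Sum.inr ⟨v, d⟩

/-- the vertices of the label of `v` -/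
def ArcInj_z (N : LNet RC) (v : {v : N.V // v ≠ N.pole true}) (z : (N.lab v.1).rep.1.V) :
    (expand N).V := some ⟨v, z⟩

/-- the vertices of `N` as vertices of its expansion -/
noncomputable def ArcInj_v (N : LNet RC) (x : N.V) : (expand N).V :=
  if h : x = N.pole true then (expand N).v0 else ArcInj_z N ⟨x, h⟩ (N.lab x).rep.1.v0

theorem ArcInj_cases (N : LNet RC) (d : (expand N).D) :
    (∃ t, d = ArcInj_t N t) ∨ ∃ v q, d = ArcInj_q N v q := by
  rcases d with t | ⟨v, q⟩
  · exact Or.inl ⟨t, rfl⟩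
  · exact Or.inr ⟨v, q, rfl⟩

theorem ArcInj_t_inj {N : LNet RC} {t t' : N.T} (h : ArcInj_t N t = ArcInj_t N t') : t = t' :=
  Sum.inl.inj h

theorem ArcInj_tq {N : LNet RC} {t : N.T} {v : {v : N.V // v ≠ N.pole true}}
    {q : (N.lab v.1).rep.1.D} (h : ArcInj_t N t = ArcInj_q N v q) : False := by
  have h' : (Sum.inl t : N.T ⊕ Σ v : {v : N.V // v ≠ N.pole true}, (N.lab v.1).rep.1.D) =
    Sum.inr ⟨v, q⟩ := h
  simp at h'

theorem ArcInj_q_fst {N : LNet RC} {v w : {v : N.V // v ≠ N.pole true}}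
    {q : (N.lab v.1).rep.1.D} {q' : (N.lab w.1).rep.1.D} (h : ArcInj_q N v q = ArcInj_q N w q') :
    v = w := congrArg Sigma.fst (Sum.inr.inj h)

theorem ArcInj_q_inj {N : LNet RC} {v : {v : N.V // v ≠ N.pole true}}
    {q q' : (N.lab v.1).rep.1.D} (h : ArcInj_q N v q = ArcInj_q N v q') : q = q' :=
  eq_of_heq (Sigma.mk.inj (Sum.inr.inj h)).2

theorem ArcInj_z_fst {N : LNet RC} {v w : {v : N.V // v ≠ N.pole true}}
    {q : (N.lab v.1).rep.1.V} {q' : (N.lab w.1).rep.1.V} (h : ArcInj_z N v q = ArcInj_z N w q') :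
    v = w := congrArg Sigma.fst (Option.some.inj h)

theorem ArcInj_z_inj {N : LNet RC} {v : {v : N.V // v ≠ N.pole true}}
    {q q' : (N.lab v.1).rep.1.V} (h : ArcInj_z N v q = ArcInj_z N v q') : q = q' :=
  eq_of_heq (Sigma.mk.inj (Option.some.inj h)).2

theorem ArcInj_z_ne {N : LNet RC} {v : {v : N.V // v ≠ N.pole true}}
    {q : (N.lab v.1).rep.1.V} (h : ArcInj_z N v q = (expand N).v0) : False :=
  Option.some_ne_none _ h

theorem ArcInj_v_root {N : LNet RC} {x : N.V} (h : x = N.pole true) :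
    ArcInj_v N x = (expand N).v0 := by
  unfold ArcInj_v
  exact dif_pos h

theorem ArcInj_v_some {N : LNet RC} {x : N.V} (h : x ≠ N.pole true) :
    ArcInj_v N x = ArcInj_z N ⟨x, h⟩ (N.lab x).rep.1.v0 := by
  unfold ArcInj_v
  exact dif_neg h

theorem ArcInj_inc_t (N : LNet RC) (t : N.T) :
    (expand N).inc (ArcInj_t N t) = ArcInj_v N (N.inc t) := rfl

theorem ArcInj_inc_q (N : LNet RC) (v : {v : N.V // v ≠ N.pole true}) (q : (N.lab v.1).rep.1.D) :
    (expand N).inc (ArcInj_q N v q) = ArcInj_z N v ((N.lab v.1).rep.1.inc q) := rfl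

theorem ArcInj_a_t (N : LNet RC) (t : N.T) :
    (expand N).a (ArcInj_t N t) = ArcInj_t N (N.aa t) := rfl

theorem ArcInj_a_q (N : LNet RC) (v : {v : N.V // v ≠ N.pole true}) (q : (N.lab v.1).rep.1.D) :
    (expand N).a (ArcInj_q N v q) = ArcInj_q N v ((N.lab v.1).rep.1.a q) := rfl

theorem ArcInj_zv {N : LNet RC} {v : {v : N.V // v ≠ N.pole true}} {z : (N.lab v.1).rep.1.V}
    {x : N.V} (h : ArcInj_z N v z = ArcInj_v N x) : v.1 = x := by
  by_cases hx : x = N.pole true
  · rw [ArcInj_v_root hx] at h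
    exact (ArcInj_z_ne h).elim
  · rw [ArcInj_v_some hx] at h
    exact congrArg Subtype.val (ArcInj_z_fst h)

theorem ArcInj_v_inj {N : LNet RC} {x y : N.V} (h : ArcInj_v N x = ArcInj_v N y) : x = y := by
  by_cases hx : x = N.pole true
  · by_cases hy : y = N.pole true
    · exact hx.trans hy.symm
    · rw [ArcInj_v_root hx, ArcInj_v_some hy] at h
      exact (ArcInj_z_ne h.symm).elim
  · rw [ArcInj_v_some hx] at h
    exact ArcInj_zv h

section
variable {N N' : LNet RC}

/-- a dart of `N` is mapped to a dart of `N'` -/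
theorem ArcInj_dart (h : N.IsGood) (e : (expand N).D ≃ (expand N').D)
    (f : (expand N).V ≃ (expand N').V) (h1 : ∀ d, e ((expand N).a d) = (expand N').a (e d))
    (h2 : ∀ d, f ((expand N).inc d) = (expand N').inc (e d))
    (h3 : e (ArcInj_t N (Sum.inr true)) = ArcInj_t N' (Sum.inr true)) (t0 : N.T) :
    ∃ t', e (ArcInj_t N t0) = ArcInj_t N' t' := by
  rcases ArcInj_cases N' (e (ArcInj_t N t0)) with ⟨t', he⟩ | ⟨v, d0, he⟩
  · exact ⟨t', he⟩
  exfalso
  let A : Finset N.T := univ.filter fun t => ∃ d, e (ArcInj_t N t) = ArcInj_q N' v d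
  have hA : ∀ t, t ∈ A ↔ ∃ d, e (ArcInj_t N t) = ArcInj_q N' v d := fun t => by
    simp only [A, mem_filter, mem_univ, true_and]
  have haa : ∀ t : N.T, ∀ d, e (ArcInj_t N t) = ArcInj_q N' v d →
      e (ArcInj_t N (N.aa t)) = ArcInj_q N' v ((N'.lab v.1).rep.1.a d) := by
    intro t d htd
    rw [← ArcInj_a_t, h1, htd, ArcInj_a_q]
  have hinv : ∀ t : N.T, N.aa (N.aa t) = t := by
    rintro (d | b)
    · exact congrArg Sum.inl (h.inv d)
    · cases b <;> rfl
  have hcl : Cl N.aa A := by
    intro t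
    rw [hA, hA]
    constructor
    · rintro ⟨d, hd⟩
      have := haa _ _ hd
      rw [hinv] at this
      exact ⟨_, this⟩
    · rintro ⟨d, hd⟩
      exact ⟨_, haa _ _ hd⟩
  have hroot : (Sum.inr true : N.T) ∉ A := by
    rw [hA]
    rintro ⟨d, hd⟩
    rw [h3] at hd
    exact ArcInj_tq hd
  obtain ⟨x, y, hxy, ⟨⟨t1, ht1, hx1⟩, t2, ht2, hx2⟩, ⟨t3, ht3, hy3⟩, t4, ht4, hy4⟩ :=
    h.two A hcl ⟨t0, (hA t0).2 ⟨d0, he⟩⟩ (fun hu => hroot (hu ▸ mem_univ _))
  have key : ∀ (x : N.V) (t1 t2 : N.T), t1 ∈ A → N.inc t1 = x → t2 ∉ A → N.inc t2 = x →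
      f (ArcInj_v N x) = ArcInj_v N' v.1 := by
    intro x t1 t2 ht1 hx1 ht2 hx2
    obtain ⟨d1, hd1⟩ := (hA t1).1 ht1
    have e1 : f (ArcInj_v N x) = ArcInj_z N' v ((N'.lab v.1).rep.1.inc d1) := by
      rw [← hx1, ← ArcInj_inc_t, h2, hd1, ArcInj_inc_q]
    have e2 : f (ArcInj_v N x) = (expand N').inc (e (ArcInj_t N t2)) := by
      rw [← hx2, ← ArcInj_inc_t, h2]
    rcases ArcInj_cases N' (e (ArcInj_t N t2)) with ⟨t', he2⟩ | ⟨w, d2, he2⟩
    · rw [he2, ArcInj_inc_t] at e2
      rw [e2]
      rw [e2] at e1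
      rw [ArcInj_zv e1.symm]
    · exfalso
      rw [he2, ArcInj_inc_q] at e2
      have e4 : v = w := ArcInj_z_fst (e1.symm.trans e2)
      subst e4
      exact ht2 ((hA t2).2 ⟨d2, he2⟩)
  have e1 := key x t1 t2 ht1 hx1 ht2 hx2
  have e2 := key y t3 t4 ht3 hy3 ht4 hy4
  exact hxy (ArcInj_v_inj (f.injective (e1.trans e2.symm)))

/-- the label graph at `v` is mapped to the label graph at `v'` -/
theorem ArcInj_lab (e : (expand N).D ≃ (expand N').D)
    (f : (expand N).V ≃ (expand N').V) (h1 : ∀ d, e ((expand N).a d) = (expand N').a (e d))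
    (h2 : ∀ d, f ((expand N).inc d) = (expand N').inc (e d))
    (hq : ∀ v q, ∃ v' q', e (ArcInj_q N v q) = ArcInj_q N' v' q')
    (v : {v : N.V // v ≠ N.pole true}) (v' : {v : N'.V // v ≠ N'.pole true})
    (hv : f (ArcInj_z N v (N.lab v.1).rep.1.v0) = ArcInj_z N' v' (N'.lab v'.1).rep.1.v0) :
    (∀ z, ∃ z', f (ArcInj_z N v z) = ArcInj_z N' v' z') ∧
      ∀ d, ∃ d', e (ArcInj_q N v d) = ArcInj_q N' v' d' := by
  have hd : ∀ d, (∃ z', f (ArcInj_z N v ((N.lab v.1).rep.1.inc d)) = ArcInj_z N' v' z') →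
      ∃ d', e (ArcInj_q N v d) = ArcInj_q N' v' d' := by
    rintro d ⟨z', hz'⟩
    obtain ⟨w, d', hw⟩ := hq v d
    have e1 : f (ArcInj_z N v ((N.lab v.1).rep.1.inc d)) =
        ArcInj_z N' w ((N'.lab w.1).rep.1.inc d') := by
      rw [← ArcInj_inc_q, h2, hw, ArcInj_inc_q]
    rw [hz'] at e1
    have e3 : v' = w := ArcInj_z_fst e1
    subst e3
    exact ⟨d', hw⟩
  have hz : ∀ z, ∃ z', f (ArcInj_z N v z) = ArcInj_z N' v' z' := by
    let Z : Finset (N.lab v.1).rep.1.V :=
      univ.filter fun z => ∃ z', f (ArcInj_z N v z) = ArcInj_z N' v' z'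
    have hZ : ∀ z, z ∈ Z ↔ ∃ z', f (ArcInj_z N v z) = ArcInj_z N' v' z' := fun z => by
      simp only [Z, mem_filter, mem_univ, true_and]
    by_cases hu : Z = univ
    · intro z
      exact (hZ z).1 (hu ▸ mem_univ z)
    · exfalso
      obtain ⟨d, hd1, hd2⟩ := (N.lab v.1).rep.2.conn Z ((hZ _).2 ⟨_, hv⟩) hu
      obtain ⟨d', hd'⟩ := hd d ((hZ _).1 hd1)
      apply hd2
      rw [hZ]
      refine ⟨(N'.lab v'.1).rep.1.inc ((N'.lab v'.1).rep.1.a d'), ?_⟩
      rw [← ArcInj_inc_q, ← ArcInj_a_q, h2, h1, hd', ArcInj_a_q, ArcInj_inc_q]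
  exact ⟨hz, fun d => hd d (hz _)⟩

end

theorem expand_arc_inj {N N' : LNet RC} (h : N.IsGood) (h' : N'.IsGood)
    (hi : AIso (expand N) (expand N') (Sum.inl (Sum.inr true)) (Sum.inl (Sum.inr true))) :
    NIso N N' := by
  obtain ⟨e, f, h1, h2, h3⟩ := hi
  replace h3 : e (ArcInj_t N (Sum.inr true)) = ArcInj_t N' (Sum.inr true) := h3
  have h1' : ∀ d, e.symm ((expand N').a d) = (expand N).a (e.symm d) := fun d => by
    rw [Equiv.symm_apply_eq, h1, Equiv.apply_symm_apply]
  have h2' : ∀ d, f.symm ((expand N').inc d) = (expand N).inc (e.symm d) := fun d => by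
    rw [Equiv.symm_apply_eq, h2, Equiv.apply_symm_apply]
  have h3' : e.symm (ArcInj_t N' (Sum.inr true)) = ArcInj_t N (Sum.inr true) := by
    rw [Equiv.symm_apply_eq, h3]
  choose eT heT using ArcInj_dart h e f h1 h2 h3
  choose eT' heT' using ArcInj_dart h' e.symm f.symm h1' h2' h3'
  have hl : ∀ t, eT' (eT t) = t := by
    intro t
    have e1 := heT' (eT t)
    rw [← heT, Equiv.symm_apply_apply] at e1
    exact (ArcInj_t_inj e1).symm
  have hr : ∀ t, eT (eT' t) = t := by
    intro t
    have e1 := heT (eT' t)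
    rw [← heT', Equiv.apply_symm_apply] at e1
    exact (ArcInj_t_inj e1).symm
  have hq : ∀ v q, ∃ v' q', e (ArcInj_q N v q) = ArcInj_q N' v' q' := by
    intro v q
    rcases ArcInj_cases N' (e (ArcInj_q N v q)) with ⟨t', hp⟩ | hp
    · exfalso
      have e1 := heT' t'
      rw [← hp, Equiv.symm_apply_apply] at e1
      exact ArcInj_tq e1.symm
    · exact hp
  have hq' : ∀ v q, ∃ v' q', e.symm (ArcInj_q N' v q) = ArcInj_q N v' q' := by
    intro v q
    rcases ArcInj_cases N (e.symm (ArcInj_q N' v q)) with ⟨t', hp⟩ | hp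
    · exfalso
      have e1 := heT t'
      rw [← hp, Equiv.apply_symm_apply] at e1
      exact ArcInj_tq e1.symm
    · exact hp
  have hroot : eT (Sum.inr true) = Sum.inr true := by
    have e1 := heT (Sum.inr true)
    rw [h3] at e1
    exact (ArcInj_t_inj e1).symm
  have haa : ∀ t, eT (N.aa t) = N'.aa (eT t) := by
    intro t
    have e1 := heT (N.aa t)
    rw [← ArcInj_a_t, h1, heT, ArcInj_a_t] at e1
    exact (ArcInj_t_inj e1).symm
  have hroot' : ∀ b, eT (Sum.inr b) = Sum.inr b := by
    intro b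
    cases b
    · have e1 := haa (Sum.inr true)
      rw [hroot] at e1
      exact e1
    · exact hroot
  have hroot2 : ∀ b, eT' (Sum.inr b) = Sum.inr b := fun b => by
    have e1 := hl (Sum.inr b)
    rwa [hroot'] at e1
  -- darts
  have hD : ∀ d : N.D, ∃ d' : N'.D, eT (Sum.inl d) = Sum.inl d' := by
    intro d
    rcases hp : eT (Sum.inl d) with d' | b
    · exact ⟨d', rfl⟩
    · exfalso
      have e1 := hl (Sum.inl d)
      rw [hp, hroot2] at e1
      exact absurd e1 (by simp)
  have hD' : ∀ d : N'.D, ∃ d' : N.D, eT' (Sum.inl d) = Sum.inl d' := by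
    intro d
    rcases hp : eT' (Sum.inl d) with d' | b
    · exact ⟨d', rfl⟩
    · exfalso
      have e1 := hr (Sum.inl d)
      rw [hp, hroot'] at e1
      exact absurd e1 (by simp)
  choose g hg using hD
  choose g' hg' using hD'
  let eD : N.D ≃ N'.D :=
    { toFun := g
      invFun := g'
      left_inv := fun d => by
        have e1 := hl (Sum.inl d)
        rw [hg, hg'] at e1
        exact Sum.inl.inj e1
      right_inv := fun d => by
        have e1 := hr (Sum.inl d)
        rw [hg', hg] at e1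
        exact Sum.inl.inj e1 }
  -- vertices
  have hV : ∀ x : N.V, ∃ x' : N'.V, f (ArcInj_v N x) = ArcInj_v N' x' := by
    intro x
    obtain ⟨t, rfl⟩ := h.surj x
    exact ⟨N'.inc (eT t), by rw [← ArcInj_inc_t, h2, heT, ArcInj_inc_t]⟩
  have hV' : ∀ x : N'.V, ∃ x' : N.V, f.symm (ArcInj_v N' x) = ArcInj_v N x' := by
    intro x
    obtain ⟨t, rfl⟩ := h'.surj x
    exact ⟨N.inc (eT' t), by rw [← ArcInj_inc_t, h2', heT', ArcInj_inc_t]⟩
  choose k hk using hV
  choose k' hk' using hV'
  let fV : N.V ≃ N'.V :=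
    { toFun := k
      invFun := k'
      left_inv := fun x => by
        have e1 := hk' (k x)
        rw [← hk, Equiv.symm_apply_apply] at e1
        exact (ArcInj_v_inj e1).symm
      right_inv := fun x => by
        have e1 := hk (k' x)
        rw [← hk', Equiv.apply_symm_apply] at e1
        exact (ArcInj_v_inj e1).symm }
  have hinc : ∀ t, k (N.inc t) = N'.inc (eT t) := by
    intro t
    apply ArcInj_v_inj
    rw [← hk, ← ArcInj_inc_t, h2, heT, ArcInj_inc_t]
  have hpole : ∀ b, k (N.pole b) = N'.pole b := by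
    intro b
    have e1 := hinc (Sum.inr b)
    rw [hroot'] at e1
    exact e1
  refine ⟨eD, fV, ?_, ?_, hpole, ?_⟩
  · intro d
    change g (N.a d) = N'.a (g d)
    have e2 : eT (Sum.inl (N.a d)) = N'.aa (eT (Sum.inl d)) := haa (Sum.inl d)
    rw [hg, hg] at e2
    exact Sum.inl.inj e2
  · intro d
    change k (N.inc (Sum.inl d)) = N'.inc (Sum.inl (g d))
    rw [hinc, hg]
  · intro x hx
    change N'.lab (k x) = N.lab x
    have hx1 : x ≠ N.pole true := hx true
    have hx2 : k x ≠ N'.pole true := by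
      rw [← hpole]
      exact fun h => hx1 (fV.injective h)
    have hv : f (ArcInj_z N ⟨x, hx1⟩ (N.lab x).rep.1.v0) =
        ArcInj_z N' ⟨k x, hx2⟩ (N'.lab (k x)).rep.1.v0 := by
      have e1 := hk x
      rwa [ArcInj_v_some hx1, ArcInj_v_some hx2] at e1
    have hv' : f.symm (ArcInj_z N' ⟨k x, hx2⟩ (N'.lab (k x)).rep.1.v0) =
        ArcInj_z N ⟨x, hx1⟩ (N.lab x).rep.1.v0 := by
      rw [← hv, Equiv.symm_apply_apply]
    obtain ⟨hz, hd⟩ := ArcInj_lab e f h1 h2 hq ⟨x, hx1⟩ ⟨k x, hx2⟩ hv
    obtain ⟨hz', hd'⟩ := ArcInj_lab e.symm f.symm h1' h2' hq' ⟨k x, hx2⟩ ⟨x, hx1⟩ hv'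
    choose p hp using hd
    choose p' hp' using hd'
    choose q hq1 using hz
    choose q' hq1' using hz'
    have hiso : RIso (N.lab x).rep.1 (N'.lab (k x)).rep.1 := by
      refine ⟨⟨p, p', fun d => ?_, fun d => ?_⟩, ⟨q, q', fun z => ?_, fun z => ?_⟩, fun d => ?_,
        fun d => ?_, ?_⟩
      · have e1 := hp' (p d)
        rw [← hp, Equiv.symm_apply_apply] at e1
        exact (ArcInj_q_inj e1).symm
      · have e1 := hp (p' d)
        rw [← hp', Equiv.apply_symm_apply] at e1
        exact (ArcInj_q_inj e1).symm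
      · have e1 := hq1' (q z)
        rw [← hq1, Equiv.symm_apply_apply] at e1
        exact (ArcInj_z_inj e1).symm
      · have e1 := hq1 (q' z)
        rw [← hq1', Equiv.apply_symm_apply] at e1
        exact (ArcInj_z_inj e1).symm
      · have e1 := hp ((N.lab x).rep.1.a d)
        have e2 := h1 (ArcInj_q N ⟨x, hx1⟩ d)
        rw [ArcInj_a_q, hp d, ArcInj_a_q] at e2
        exact ArcInj_q_inj (e1.symm.trans e2)
      · have e1 := hq1 ((N.lab x).rep.1.inc d)
        have e2 := h2 (ArcInj_q N ⟨x, hx1⟩ d)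
        rw [ArcInj_inc_q, hp d, ArcInj_inc_q] at e2
        exact ArcInj_z_inj (e1.symm.trans e2)
      · exact ArcInj_z_inj ((hq1 ((N.lab x).rep.1.v0)).symm.trans hv)
    have e1 : (Quotient.mk rSetoid (N.lab x).rep : RC) = Quotient.mk rSetoid (N'.lab (k x)).rep :=
      Quotient.sound hiso
    rw [Quotient.out_eq, Quotient.out_eq] at e1
    exact e1.symm

/-- an isomorphism of networks gives an isomorphism of arcs (as `expand_iso`) -/
theorem expand_aiso {N N' : LNet RC} (h : NIso N N')
    (hl : N.lab (N.pole false) = N'.lab (N'.pole false)) :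
    AIso (expand N) (expand N') (Sum.inl (Sum.inr true)) (Sum.inl (Sum.inr true)) := by
  classical
  obtain ⟨e, f, h1, h2, h3, h4⟩ := h
  have hlab : ∀ v : {v : N.V // v ≠ N.pole true}, N.lab v.1 = N'.lab (f v.1) := by
    rintro ⟨v, hv⟩
    by_cases hv' : v = N.pole false
    · subst hv'
      rw [h3]; exact hl
    · exact (h4 v (by rintro (_ | _) <;> assumption)).symm
  have hiso : ∀ v : {v : N.V // v ≠ N.pole true},
      RIso (N.lab v.1).rep.1 (N'.lab (f v.1)).rep.1 := by
    intro v
    rw [hlab v]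
    exact RIso.refl _
  choose ev fv g1 g2 g3 using hiso
  let F : {v : N.V // v ≠ N.pole true} ≃ {v : N'.V // v ≠ N'.pole true} :=
    f.subtypeEquiv (fun v => by rw [← h3, Ne, Ne, f.injective.eq_iff])
  let E : (expand N).D ≃ (expand N').D :=
    Equiv.sumCongr (Equiv.sumCongr e (Equiv.refl Bool))
      (Equiv.sigmaCongr (β₂ := fun v : {v : N'.V // v ≠ N'.pole true} => (N'.lab v.1).rep.1.D) F ev)
  let G : (expand N).V ≃ (expand N').V :=
    Equiv.optionCongr (Equiv.sigmaCongr
      (β₂ := fun v : {v : N'.V // v ≠ N'.pole true} => (N'.lab v.1).rep.1.V) F fv)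
  refine ⟨E, G, ?_, ?_, rfl⟩
  · rintro ((d | b) | ⟨v, d⟩)
    · show (Sum.inl (Sum.inl (e (N.a d))) : (expand N').D) = Sum.inl (Sum.inl (N'.a (e d)))
      rw [h1]
    · rfl
    · show (Sum.inr ⟨F v, ev v ((N.lab v.1).rep.1.a d)⟩ : (expand N').D) =
        Sum.inr ⟨F v, (N'.lab (f v.1)).rep.1.a (ev v d)⟩
      rw [g1]
  · have hinc : ∀ t : N.T, f (N.inc t) = N'.inc ((Equiv.sumCongr e (Equiv.refl Bool)) t) := by
      rintro (d | b)
      · exact h2 d
      · exact h3 b
    rintro (t | ⟨v, d⟩)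
    · have ht := hinc t
      by_cases hn : N.inc t = N.pole true
      · have hn' : N'.inc ((Equiv.sumCongr e (Equiv.refl Bool)) t) = N'.pole true := by
          rw [← ht, hn, h3]
        have e1 : (expand N).inc (Sum.inl t) = none := by
          show (if h : N.inc t = N.pole true then none else _) = none
          rw [dif_pos hn]
        have e2 : (expand N').inc (E (Sum.inl t)) = none := by
          show (if h : N'.inc ((Equiv.sumCongr e (Equiv.refl Bool)) t) = N'.pole true then none
            else _) = none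
          rw [dif_pos hn']
        rw [e1, e2]; rfl
      · have hn' : N'.inc ((Equiv.sumCongr e (Equiv.refl Bool)) t) ≠ N'.pole true := by
          rw [← ht, ← h3]
          exact fun h => hn (f.injective h)
        have e1 : (expand N).inc (Sum.inl t) =
            some ⟨⟨N.inc t, hn⟩, (N.lab (N.inc t)).rep.1.v0⟩ := by
          show (if h : N.inc t = N.pole true then none else _) = _
          rw [dif_neg hn]
        have e2 : (expand N').inc (E (Sum.inl t)) =
            some ⟨⟨N'.inc ((Equiv.sumCongr e (Equiv.refl Bool)) t), hn'⟩,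
              (N'.lab (N'.inc ((Equiv.sumCongr e (Equiv.refl Bool)) t))).rep.1.v0⟩ := by
          show (if h : N'.inc ((Equiv.sumCongr e (Equiv.refl Bool)) t) = N'.pole true then none
            else _) = _
          rw [dif_neg hn']
        rw [e1, e2]
        show (some ⟨F ⟨N.inc t, hn⟩, fv ⟨N.inc t, hn⟩ (N.lab (N.inc t)).rep.1.v0⟩ :
          Option (Σ v : {v : N'.V // v ≠ N'.pole true}, (N'.lab v.1).rep.1.V)) = _
        rw [g3]
        exact Expand.some_eq N' (by rw [ht]; exact hn') hn' ht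
    · show (some ⟨F v, fv v ((N.lab v.1).rep.1.inc d)⟩ :
        Option (Σ v : {v : N'.V // v ≠ N'.pole true}, (N'.lab v.1).rep.1.V)) =
        some ⟨F v, (N'.lab (f v.1)).rep.1.inc (ev v d)⟩
      rw [g2]

/-- the label of the pole `false` may be changed without changing the class of the network -/
theorem relabel (N : LNet RC) (l : RC) (hp : N.pole true ≠ N.pole false) :
    ∃ N' : LNet RC, NIso N N' ∧ N'.lab (N'.pole false) = l ∧ N'.pole true ≠ N'.pole false := by
  refine ⟨{ N with lab := Function.update N.lab (N.pole false) l }, ⟨Equiv.refl _, Equiv.refl _,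
    fun _ => rfl, fun _ => rfl, fun _ => rfl, fun x hx => ?_⟩, ?_, hp⟩
  · exact Function.update_of_ne (hx false) _ _
  · exact Function.update_self _ _ _

end PGr

end

section
/-! # Module ExpGood: expanded networks are good rooted graphs -/

set_option linter.unusedSectionVars false

namespace PGr
open Equiv Finset
open scoped Classical

/-! ### cycles of sums of permutations -/

theorem ExpGood.sum_zpow {T U : Type*} (s : Perm T) (S : Perm U) (i : ℤ) :
    (Perm.sumCongr s S) ^ i = Perm.sumCongr (s ^ i) (S ^ i) :=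
  (map_zpow (Perm.sumCongrHom T U) (s, S) i).symm

theorem ExpGood.sigma_zpow {J : Type*} {D : J → Type*} (S : ∀ j, Perm (D j)) (i : ℤ) :
    (Equiv.sigmaCongrRight S : Perm (Σ j, D j)) ^ i = Equiv.sigmaCongrRight (fun j => S j ^ i) :=
  (map_zpow (Perm.sigmaCongrRightHom D) S i).symm

/-! ### the hypotheses -/

/-- what is needed of the network -/
structure EHyp (N : LNet RC) : Prop where
  inv : ∀ d, N.a (N.a d) = d
  fpf : ∀ d, N.a d ≠ d
  surj : Function.Surjective N.inc
  loop : ∀ t, N.inc (N.aa t) ≠ N.inc t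
  simp : ∀ d d' : N.D, N.inc (Sum.inl d) = N.inc (Sum.inl d') →
    N.inc (Sum.inl (N.a d)) = N.inc (Sum.inl (N.a d')) → d = d'
  two : ∀ A : Finset N.T, Cl N.aa A → A.Nonempty → A ≠ univ →
    ∃ x y, x ≠ y ∧ Sh N.inc A x ∧ Sh N.inc A y
  planar : ∃ s : Perm N.T, (∀ t t', s.SameCycle t t' ↔ N.inc t = N.inc t') ∧ Pl N.aa s
  nd : ¬ Direct N

theorem EHyp.of_good {N : LNet RC} (h : N.IsGood) (hd : ¬ Direct N) : EHyp N :=
  ⟨h.inv, h.fpf, h.surj, h.loop, h.simp, h.two, h.planar, hd⟩

theorem EHyp.of_empty (l : RC) : EHyp (emptyNet l) where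
  inv := fun d => by cases d
  fpf := fun d => by cases d
  surj := fun b => ⟨Sum.inr b, rfl⟩
  loop := by
    rintro (e | b)
    · cases e
    · show (!b) ≠ b
      cases b <;> decide
  simp := fun d => by cases d
  two := by
    intro A hA hne hnu
    exfalso
    apply hnu
    have key : ∀ b, (Sum.inr b : (emptyNet l).T) ∈ A := by
      obtain ⟨t, ht⟩ := hne
      rcases t with e | c
      · cases e
      · intro b
        have h2 := (hA (Sum.inr c)).2 ht
        have h3 : (Sum.inr (!c) : (emptyNet l).T) ∈ A := h2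
        cases b <;> cases c <;> first | exact ht | exact h3
    ext t
    simp only [mem_univ, iff_true]
    rcases t with e | c
    · cases e
    · exact key c
  planar := by
    refine ⟨1, ?_, ?_⟩
    · intro t t'
      rw [Perm.sameCycle_one]
      constructor
      · intro h
        rw [h]
      · intro h
        rcases t with e | b
        · cases e
        · rcases t' with e | b'
          · cases e
          · have h2 : b = b' := h
            rw [h2]
    · intro p q _
      refine ⟨fun _ => 0, fun _ => rfl, fun t => ?_⟩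
      show (0 : ZMod 2) + 0 = p t + p t
      rw [add_zero, CharTwo.add_self_eq_zero]
  nd := by
    rintro ⟨d, -⟩
    cases d

/-! ### labels -/

theorem ExpGood.sh_compl {T V : Type*} [Fintype T] [DecidableEq T] {inc : T → V} {A : Finset T} {x : V} (h : Sh inc Aᶜ x) :
    Sh inc A x := by
  obtain ⟨⟨t, ht, h1⟩, ⟨t', ht', h2⟩⟩ := h
  rw [mem_compl] at ht ht'
  rw [not_not] at ht'
  exact ⟨⟨t', ht', h2⟩, ⟨t, ht, h1⟩⟩

theorem ExpGood.cl_compl {T : Type*} [Fintype T] [DecidableEq T] {a : Perm T} {A : Finset T} (h : Cl a A) :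
    Cl a Aᶜ := by
  intro t
  rw [mem_compl, mem_compl, h t]

theorem ExpGood.dart_root {G : RG} (hG : G.IsGood) (d : G.D) : ∃ r, G.inc r = G.v0 := by
  have h1 : ({G.v0} : Finset G.V) ≠ univ := by
    intro h2
    have h3 : G.inc (G.a d) ∈ ({G.v0} : Finset G.V) := by rw [h2]; exact mem_univ _
    have h4 : G.inc d ∈ ({G.v0} : Finset G.V) := by rw [h2]; exact mem_univ _
    rw [mem_singleton] at h3 h4
    exact hG.loop d (h3.trans h4.symm)
  obtain ⟨r, hr, -⟩ := hG.conn {G.v0} (mem_singleton_self _) h1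
  exact ⟨r, mem_singleton.1 hr⟩

theorem ExpGood.sh_core {G : RG} (hG : G.IsGood) (B : Finset G.D) (hB : Cl G.a B)
    (h0 : ∃ t ∈ B, G.inc t = G.v0) (hnu : B ≠ univ) : ∃ y, Sh G.inc B y := by
  by_contra hno
  push Not at hno
  have hB2 : ∀ t t', t ∈ B → G.inc t = G.inc t' → t' ∈ B := by
    intro t t' ht he
    by_contra h1
    exact hno (G.inc t) ⟨⟨t, ht, rfl⟩, ⟨t', h1, he.symm⟩⟩
  obtain ⟨t0, ht0⟩ : ∃ t, t ∉ B := by
    by_contra h1
    push Not at h1
    exact hnu (eq_univ_iff_forall.2 h1)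
  obtain ⟨d, hd1, hd2⟩ := hG.conn (univ.filter fun y => ∃ t ∈ B, G.inc t = y)
    (mem_filter.2 ⟨mem_univ _, h0⟩) (by
      intro h1
      have h2 : G.inc t0 ∈ univ.filter fun y => ∃ t ∈ B, G.inc t = y := by rw [h1]; exact mem_univ _
      obtain ⟨t, ht, h3⟩ := (mem_filter.1 h2).2
      exact ht0 (hB2 t t0 ht h3))
  obtain ⟨t, ht, h3⟩ := (mem_filter.1 hd1).2
  apply hd2
  exact mem_filter.2 ⟨mem_univ _, G.a d, (hB d).2 (hB2 t d ht h3), rfl⟩

theorem ExpGood.sh_exists {G : RG} (hG : G.IsGood) (A : Finset G.D) (hA : Cl G.a A)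
    (hne : A.Nonempty) (hnu : A ≠ univ) : ∃ y, Sh G.inc A y := by
  obtain ⟨d, hd⟩ := hne
  obtain ⟨r, hr⟩ := ExpGood.dart_root hG d
  by_cases h1 : r ∈ A
  · exact ExpGood.sh_core hG A hA ⟨r, h1, hr⟩ hnu
  · obtain ⟨y, hy⟩ := ExpGood.sh_core hG Aᶜ (ExpGood.cl_compl hA) ⟨r, mem_compl.2 h1, hr⟩ (by
      intro h2
      have h3 : d ∈ Aᶜ := by rw [h2]; exact mem_univ _
      exact (mem_compl.1 h3) hd)
    exact ⟨y, ExpGood.sh_compl hy⟩

/-! ### vertices of the expansion -/

/-- the vertex of the expansion that comes from a vertex of the network -/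
noncomputable def ExpGood.vtx (N : LNet RC) (x : N.V) : (expand N).V :=
  if h : x = N.pole true then none else some ⟨⟨x, h⟩, (N.lab x).rep.1.v0⟩

open ExpGood in
theorem ExpGood.inc_inl (N : LNet RC) (t : N.T) : (expand N).inc (Sum.inl t) = vtx N (N.inc t) := rfl

open ExpGood in
theorem ExpGood.inc_inr (N : LNet RC) (v : {v : N.V // v ≠ N.pole true}) (d : (N.lab v.1).rep.1.D) :
    (expand N).inc (Sum.inr ⟨v, d⟩) = some ⟨v, (N.lab v.1).rep.1.inc d⟩ := rfl

theorem ExpGood.vtx_pole (N : LNet RC) : vtx N (N.pole true) = none := dif_pos rfl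

theorem ExpGood.vtx_of (N : LNet RC) (v : {v : N.V // v ≠ N.pole true}) :
    vtx N v.1 = some ⟨v, (N.lab v.1).rep.1.v0⟩ := dif_neg v.2

theorem ExpGood.vtx_inj (N : LNet RC) {x y : N.V} (h : vtx N x = vtx N y) : x = y := by
  by_cases hx : x = N.pole true
  · by_cases hy : y = N.pole true
    · rw [hx, hy]
    · rw [hx, vtx_pole, vtx_of N ⟨y, hy⟩] at h
      cases h
  · by_cases hy : y = N.pole true
    · rw [hy, vtx_pole, vtx_of N ⟨x, hx⟩] at h
      cases h
    · rw [vtx_of N ⟨x, hx⟩, vtx_of N ⟨y, hy⟩] at h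
      have h1 := congrArg (fun z : Option (Σ v : {v : N.V // v ≠ N.pole true}, (N.lab v.1).rep.1.V) =>
        z.map fun w => w.1.1) h
      simpa using h1

theorem ExpGood.vtx_some (N : LNet RC) {x : N.V} {v : {v : N.V // v ≠ N.pole true}}
    {y : (N.lab v.1).rep.1.V} (h : vtx N x = some ⟨v, y⟩) : x = v.1 ∧ y = (N.lab v.1).rep.1.v0 := by
  have hx : x ≠ N.pole true := by
    intro hx
    rw [hx, vtx_pole] at h
    cases h
  rw [vtx_of N ⟨x, hx⟩] at h
  have h1 := Option.some.inj h
  obtain ⟨h2, h3⟩ := Sigma.mk.inj_iff.1 h1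
  subst h2
  exact ⟨rfl, (eq_of_heq h3).symm⟩

/-! ### the expansion -/

open ExpGood

theorem ExpGood.side {N : LNet RC} (h : EHyp N) (z : N.V)
    (hz : ∀ v : {v : N.V // v ≠ N.pole true}, v.1 = z → IsEmpty (N.lab v.1).rep.1.D)
    (A : Finset (expand N).D) (hA : Cl (expand N).a A) (h0 : ∀ t : N.T, (Sum.inl t : (expand N).D) ∈ A)
    (v : {v : N.V // v ≠ N.pole true}) (d : (N.lab v.1).rep.1.D)
    (hd : (Sum.inr ⟨v, d⟩ : (expand N).D) ∉ A) : ∃ y, y ≠ vtx N z ∧ Sh (expand N).inc A y := by
  have hvz : v.1 ≠ z := fun h1 => (hz v h1).false d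
  have hG := (N.lab v.1).rep.2
  obtain ⟨t, ht⟩ := h.surj v.1
  by_cases h1 : ∃ r, (N.lab v.1).rep.1.inc r = (N.lab v.1).rep.1.v0 ∧ (Sum.inr ⟨v, r⟩ : (expand N).D) ∉ A
  · obtain ⟨r, hr1, hr2⟩ := h1
    refine ⟨vtx N v.1, fun h2 => hvz (vtx_inj N h2), ⟨Sum.inl t, h0 t, ?_⟩, ⟨Sum.inr ⟨v, r⟩, hr2, ?_⟩⟩
    · rw [inc_inl, ht]
    · rw [inc_inr, hr1, vtx_of]
  · push Not at h1
    obtain ⟨r, hr⟩ := dart_root hG d
    have hB : Cl (N.lab v.1).rep.1.a (univ.filter fun d => (Sum.inr ⟨v, d⟩ : (expand N).D) ∈ A) := by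
      intro e
      rw [mem_filter, mem_filter]
      exact ⟨fun h2 => ⟨mem_univ _, (hA (Sum.inr ⟨v, e⟩)).1 h2.2⟩,
        fun h2 => ⟨mem_univ _, (hA (Sum.inr ⟨v, e⟩)).2 h2.2⟩⟩
    obtain ⟨y, ⟨e1, he1, hy1⟩, ⟨e2, he2, hy2⟩⟩ := sh_exists hG _ hB ⟨r, mem_filter.2 ⟨mem_univ _, h1 r hr⟩⟩ (by
      intro h2
      have h3 : d ∈ univ.filter fun d => (Sum.inr ⟨v, d⟩ : (expand N).D) ∈ A := by rw [h2]; exact mem_univ _
      exact hd (mem_filter.1 h3).2)
    refine ⟨some ⟨v, y⟩, ?_, ⟨Sum.inr ⟨v, e1⟩, (mem_filter.1 he1).2, ?_⟩, ⟨Sum.inr ⟨v, e2⟩, ?_, ?_⟩⟩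
    · intro h2
      exact hvz (vtx_some N h2.symm).1.symm
    · rw [inc_inr, hy1]
    · intro h2
      exact he2 (mem_filter.2 ⟨mem_univ _, h2⟩)
    · rw [inc_inr, hy2]

theorem ExpGood.ncut {N : LNet RC} (h : EHyp N) (z : N.V)
    (hz : ∀ v : {v : N.V // v ≠ N.pole true}, v.1 = z → IsEmpty (N.lab v.1).rep.1.D) :
    NCut (expand N) (vtx N z) := by
  intro A hA hne hnu
  have hCl : Cl N.aa (univ.filter fun t : N.T => (Sum.inl t : (expand N).D) ∈ A) := by
    intro t
    rw [mem_filter, mem_filter]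
    exact ⟨fun h2 => ⟨mem_univ _, (hA (Sum.inl t)).1 h2.2⟩,
      fun h2 => ⟨mem_univ _, (hA (Sum.inl t)).2 h2.2⟩⟩
  by_cases h0 : (univ.filter fun t : N.T => (Sum.inl t : (expand N).D) ∈ A).Nonempty
  · by_cases h1 : (univ.filter fun t : N.T => (Sum.inl t : (expand N).D) ∈ A) = univ
    · have h2 : ∀ t : N.T, (Sum.inl t : (expand N).D) ∈ A := by
        intro t
        have h3 : t ∈ univ.filter fun t : N.T => (Sum.inl t : (expand N).D) ∈ A := by rw [h1]; exact mem_univ _
        exact (mem_filter.1 h3).2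
      obtain ⟨x, hx⟩ : ∃ x, x ∉ A := by
        by_contra h3
        push Not at h3
        exact hnu (eq_univ_iff_forall.2 h3)
      rcases x with t | ⟨v, d⟩
      · exact absurd (h2 t) hx
      · exact side h z hz A hA h2 v d hx
    · obtain ⟨x, y, hxy, hx, hy⟩ := h.two _ hCl h0 h1
      have key : ∀ w, Sh N.inc (univ.filter fun t : N.T => (Sum.inl t : (expand N).D) ∈ A) w →
          Sh (expand N).inc A (vtx N w) := by
        rintro w ⟨⟨t, ht, h2⟩, ⟨t', ht', h3⟩⟩
        refine ⟨⟨Sum.inl t, (mem_filter.1 ht).2, by rw [inc_inl, h2]⟩, ⟨Sum.inl t', ?_, by rw [inc_inl, h3]⟩⟩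
        intro h4
        exact ht' (mem_filter.2 ⟨mem_univ _, h4⟩)
      by_cases hxz : x = z
      · refine ⟨vtx N y, ?_, key y hy⟩
        intro h2
        exact hxy (hxz.trans (vtx_inj N h2).symm)
      · exact ⟨vtx N x, fun h2 => hxz (vtx_inj N h2), key x hx⟩
  · have h2 : ∀ t : N.T, (Sum.inl t : (expand N).D) ∈ Aᶜ := by
      exact fun t => mem_compl.2 fun h3 => h0 ⟨t, mem_filter.2 ⟨mem_univ _, h3⟩⟩
    obtain ⟨x, hx⟩ := hne
    rcases x with t | ⟨v, d⟩
    · exact absurd hx (mem_compl.1 (h2 t))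
    · obtain ⟨y, hy1, hy2⟩ := side h z hz Aᶜ (cl_compl hA) h2 v d (fun h3 => mem_compl.1 h3 hx)
      exact ⟨y, hy1, sh_compl hy2⟩

theorem ExpGood.conn {N : LNet RC} (h : EHyp N) (X : Finset (expand N).V) (h0 : (expand N).v0 ∈ X)
    (hX : X ≠ univ) : ∃ d, (expand N).inc d ∈ X ∧ (expand N).inc ((expand N).a d) ∉ X := by
  by_contra hno
  push Not at hno
  by_cases hY : (univ.filter fun x : N.V => vtx N x ∈ X) = univ
  · have h1 : ∀ x : N.V, vtx N x ∈ X := by
      intro x
      have h3 : x ∈ univ.filter fun x : N.V => vtx N x ∈ X := by rw [hY]; exact mem_univ _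
      exact (mem_filter.1 h3).2
    apply hX
    rw [eq_univ_iff_forall]
    intro x
    rcases x with _ | ⟨v, y⟩
    · exact h0
    · have hG := (N.lab v.1).rep.2
      by_cases h2 : (univ.filter fun y : (N.lab v.1).rep.1.V => (some ⟨v, y⟩ : (expand N).V) ∈ X) = univ
      · have h3 : y ∈ univ.filter fun y : (N.lab v.1).rep.1.V => (some ⟨v, y⟩ : (expand N).V) ∈ X := by
          rw [h2]; exact mem_univ _
        exact (mem_filter.1 h3).2
      · exfalso
        have h3 := h1 v.1
        rw [vtx_of] at h3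
        obtain ⟨d, hd1, hd2⟩ := hG.conn _ (mem_filter.2 ⟨mem_univ _, h3⟩) h2
        apply hd2
        refine mem_filter.2 ⟨mem_univ _, ?_⟩
        exact hno (Sum.inr ⟨v, d⟩) (mem_filter.1 hd1).2
  · have hB : ∀ t : N.T, vtx N (N.inc t) ∈ X → vtx N (N.inc (N.aa t)) ∈ X := fun t ht =>
      hno (Sum.inl t) ht
    have hinv : ∀ t : N.T, N.aa (N.aa t) = t := by
      rintro (d | b)
      · show (Sum.inl (N.a (N.a d)) : N.T) = Sum.inl d
        rw [h.inv]
      · show (Sum.inr (!!b) : N.T) = Sum.inr b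
        rw [Bool.not_not]
    have hCl : Cl N.aa (univ.filter fun t : N.T => vtx N (N.inc t) ∈ X) := by
      intro t
      rw [mem_filter, mem_filter]
      refine ⟨fun h1 => ⟨mem_univ _, ?_⟩, fun h1 => ⟨mem_univ _, hB t h1.2⟩⟩
      have h2 := hB (N.aa t) h1.2
      rwa [hinv] at h2
    obtain ⟨x0, hx0⟩ : ∃ x, x ∉ univ.filter fun x : N.V => vtx N x ∈ X := by
      by_contra h3
      push Not at h3
      exact hY (eq_univ_iff_forall.2 h3)
    obtain ⟨x, -, -, ⟨⟨t, ht, h1⟩, ⟨t', ht', h2⟩⟩, -⟩ := h.two _ hCl (by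
      refine ⟨Sum.inr true, mem_filter.2 ⟨mem_univ _, ?_⟩⟩
      show vtx N (N.pole true) ∈ X
      rw [vtx_pole]
      exact h0) (by
      intro h3
      obtain ⟨t, ht⟩ := h.surj x0
      have h4 : t ∈ univ.filter fun t : N.T => vtx N (N.inc t) ∈ X := by rw [h3]; exact mem_univ _
      apply hx0
      refine mem_filter.2 ⟨mem_univ _, ?_⟩
      rw [← ht]
      exact (mem_filter.1 h4).2)
    apply ht'
    refine mem_filter.2 ⟨mem_univ _, ?_⟩
    rw [h2, ← h1]
    exact (mem_filter.1 ht).2

theorem ExpGood.planar {N : LNet RC} (h : EHyp N) : ∃ s : Perm (expand N).D,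
    (∀ t t', s.SameCycle t t' ↔ (expand N).inc t = (expand N).inc t') ∧ Pl (expand N).a s := by
  obtain ⟨s₀, hs₀, hp₀⟩ := h.planar
  have hpl := fun v : {v : N.V // v ≠ N.pole true} => (N.lab v.1).rep.2.planar
  choose sv hsv hpv using hpl
  have hPl : Pl (expand N).a (Perm.sumCongr s₀ (Equiv.sigmaCongrRight sv) : Perm (expand N).D) :=
    Pl.sum_sigma hp₀ hpv
  let J : Type := {v : {v : N.V // v ≠ N.pole true} // Nonempty (N.lab v.1).rep.1.D}
  let s : Perm (expand N).D := Perm.sumCongr s₀ (Equiv.sigmaCongrRight sv)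
  have hzl : ∀ (i : ℤ) (t : N.T), (s ^ i) (Sum.inl t) = Sum.inl ((s₀ ^ i) t) := by
    intro i t
    show ((Perm.sumCongr s₀ (Equiv.sigmaCongrRight sv)) ^ i) (Sum.inl t) = _
    rw [sum_zpow]
    rfl
  have hzr : ∀ (i : ℤ) (v : {v : N.V // v ≠ N.pole true}) (d : (N.lab v.1).rep.1.D),
      (s ^ i) (Sum.inr ⟨v, d⟩) = Sum.inr ⟨v, ((sv v) ^ i) d⟩ := by
    intro i v d
    show ((Perm.sumCongr s₀ (Equiv.sigmaCongrRight sv)) ^ i) (Sum.inr ⟨v, d⟩) = _
    rw [sum_zpow, sigma_zpow]
    rfl
  have hll : ∀ t t' : N.T, s.SameCycle (Sum.inl t) (Sum.inl t') ↔ N.inc t = N.inc t' := by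
    intro t t'
    rw [← hs₀]
    constructor
    · rintro ⟨i, hi⟩
      rw [hzl] at hi
      exact ⟨i, Sum.inl.inj hi⟩
    · rintro ⟨i, hi⟩
      exact ⟨i, by rw [hzl, hi]⟩
  have hlr : ∀ (t : N.T) (x : Σ v : {v : N.V // v ≠ N.pole true}, (N.lab v.1).rep.1.D),
      ¬ s.SameCycle (Sum.inl t) (Sum.inr x) := by
    rintro t x ⟨i, hi⟩
    rw [hzl] at hi
    cases hi
  have hrl : ∀ (t : N.T) (x : Σ v : {v : N.V // v ≠ N.pole true}, (N.lab v.1).rep.1.D),
      ¬ s.SameCycle (Sum.inr x) (Sum.inl t) := fun t x h1 => hlr t x h1.symm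
  have hrr : ∀ x y : Σ v : {v : N.V // v ≠ N.pole true}, (N.lab v.1).rep.1.D,
      s.SameCycle (Sum.inr x) (Sum.inr y) ↔
        (expand N).inc (Sum.inr x) = (expand N).inc (Sum.inr y) := by
    rintro ⟨v, d⟩ ⟨v', d'⟩
    constructor
    · rintro ⟨i, hi⟩
      rw [hzr] at hi
      obtain ⟨h2, h3⟩ := Sigma.mk.inj_iff.1 (Sum.inr.inj hi)
      subst h2
      have h4 := eq_of_heq h3
      rw [inc_inr, inc_inr]
      have h5 : (N.lab v.1).rep.1.inc d = (N.lab v.1).rep.1.inc d' := (hsv v d d').1 ⟨i, h4⟩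
      rw [h5]
    · intro h1
      rw [inc_inr, inc_inr] at h1
      obtain ⟨h2, h3⟩ := Sigma.mk.inj_iff.1 (Option.some.inj h1)
      subst h2
      obtain ⟨i, hi⟩ := (hsv v d d').2 (eq_of_heq h3)
      exact ⟨i, by rw [hzr, hi]⟩
  -- attaching darts
  have hn := fun j : J => h.surj j.1.1
  choose tn htn using hn
  have hd := fun j : J => dart_root (N.lab j.1.1).rep.2 j.2.some
  choose td htd using hd
  let pr : (expand N).D → Option J := Sum.elim (fun _ => none) (fun x => some ⟨x.1, ⟨x.2⟩⟩)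
  let n : J → (expand N).D := fun j => Sum.inl (tn j)
  let d : J → (expand N).D := fun j => Sum.inr ⟨j.1, td j⟩
  have hps : ∀ t, pr (s t) = pr t := by
    rintro (t | ⟨v, e⟩) <;> rfl
  have hpa : ∀ t, pr ((expand N).a t) = pr t := by
    rintro (t | ⟨v, e⟩) <;> rfl
  have hinv : ∀ t, (expand N).a ((expand N).a t) = t := by
    rintro ((e | b) | ⟨v, e⟩)
    · show (Sum.inl (Sum.inl (N.a (N.a e))) : (expand N).D) = _
      rw [h.inv]
    · show (Sum.inl (Sum.inr (!!b)) : (expand N).D) = _
      rw [Bool.not_not]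
    · show (Sum.inr ⟨v, (N.lab v.1).rep.1.a ((N.lab v.1).rep.1.a e)⟩ : (expand N).D) = _
      rw [(N.lab v.1).rep.2.inv]
  have hnj : ∀ j j' : J, s.SameCycle (n j) (n j') → j = j' := by
    intro j j' h1
    have h2 := (hll _ _).1 h1
    rw [htn, htn] at h2
    exact Subtype.ext (Subtype.ext h2)
  obtain ⟨s', h1, h2, h3, h4⟩ := exists_glue (s := s) pr hps n d (fun _ => rfl) (fun _ => rfl) hnj
  refine ⟨s', ?_, Pl.glue hinv hPl pr hpa hps n d (fun _ => rfl) (fun _ => rfl) ?_ h1 h2 h3⟩
  · intro t t'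
    rw [h4]
    rcases t with t | x
    · rcases t' with t' | x'
      · rw [hll, inc_inl, inc_inl]
        constructor
        · rintro (h5 | ⟨j, -, h5⟩ | ⟨j, h5, -⟩)
          · rw [h5]
          · exact absurd h5 (hlr _ _)
          · exact absurd h5 (hlr _ _)
        · intro h5
          exact Or.inl (vtx_inj N h5)
      · obtain ⟨v, e⟩ := x'
        rw [inc_inl, inc_inr]
        constructor
        · rintro (h5 | ⟨j, h5, h6⟩ | ⟨j, h5, -⟩)
          · exact absurd h5 (hlr _ _)
          · have h7 := (hll _ _).1 h5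
            have h8 := (hrr _ _).1 h6
            rw [inc_inr, inc_inr, htd] at h8
            rw [h7, htn, h8, vtx_of]
          · exact absurd h5 (hlr _ _)
        · intro h5
          obtain ⟨h6, h7⟩ := vtx_some N h5
          refine Or.inr (Or.inl ⟨⟨v, ⟨e⟩⟩, ?_, ?_⟩)
          · rw [hll, htn]
            exact h6
          · rw [hrr, inc_inr, inc_inr, htd, h7]
    · obtain ⟨v, e⟩ := x
      rcases t' with t' | x'
      · rw [inc_inl, inc_inr]
        constructor
        · rintro (h5 | ⟨j, h5, -⟩ | ⟨j, h5, h6⟩)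
          · exact absurd h5 (hrl _ _)
          · exact absurd h5 (hrl _ _)
          · have h7 := (hll _ _).1 h6
            have h8 := (hrr _ _).1 h5
            rw [inc_inr, inc_inr, htd] at h8
            rw [h7, htn, h8, vtx_of]
        · intro h5
          obtain ⟨h6, h7⟩ := vtx_some N h5.symm
          refine Or.inr (Or.inr ⟨⟨v, ⟨e⟩⟩, ?_, ?_⟩)
          · rw [hrr, inc_inr, inc_inr, htd, h7]
          · rw [hll, htn]
            exact h6
      · constructor
        · rintro (h5 | ⟨j, h5, -⟩ | ⟨j, -, h5⟩)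
          · exact (hrr _ _).1 h5
          · exact absurd h5 (hrl _ _)
          · exact absurd h5 (hrl _ _)
        · intro h5
          exact Or.inl ((hrr _ _).2 h5)
  · intro j j' h5
    apply hnj
    rw [h5]

theorem ExpGood.good {N : LNet RC} (h : EHyp N) : (expand N).IsGood where
  inv := by
    rintro ((e | b) | ⟨v, e⟩)
    · show (Sum.inl (Sum.inl (N.a (N.a e))) : (expand N).D) = _
      rw [h.inv]
    · show (Sum.inl (Sum.inr (!!b)) : (expand N).D) = _
      rw [Bool.not_not]
    · show (Sum.inr ⟨v, (N.lab v.1).rep.1.a ((N.lab v.1).rep.1.a e)⟩ : (expand N).D) = _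
      rw [(N.lab v.1).rep.2.inv]
  fpf := by
    rintro ((e | b) | ⟨v, e⟩) h1
    · exact h.fpf e (Sum.inl.inj (Sum.inl.inj h1))
    · have h2 : (!b) = b := Sum.inr.inj (Sum.inl.inj h1)
      cases b <;> cases h2
    · obtain ⟨-, h2⟩ := Sigma.mk.inj_iff.1 (Sum.inr.inj h1)
      exact (N.lab v.1).rep.2.fpf e (eq_of_heq h2)
  loop := by
    rintro (t | ⟨v, e⟩) h1
    · exact h.loop t (vtx_inj N h1)
    · obtain ⟨-, h2⟩ := Sigma.mk.inj_iff.1 (Option.some.inj h1)
      exact (N.lab v.1).rep.2.loop e (eq_of_heq h2)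
  simp := by
    have hmix : ∀ (t : N.T) (v : {v : N.V // v ≠ N.pole true}) (e : (N.lab v.1).rep.1.D),
        (expand N).inc (Sum.inl t) = (expand N).inc (Sum.inr ⟨v, e⟩) →
        (expand N).inc ((expand N).a (Sum.inl t)) = (expand N).inc ((expand N).a (Sum.inr ⟨v, e⟩)) → False := by
      intro t v e h1 h2
      have h3 := (vtx_some N (show vtx N (N.inc t) = some ⟨v, (N.lab v.1).rep.1.inc e⟩ from h1)).1
      have h4 := (vtx_some N (show vtx N (N.inc (N.aa t)) =
        some ⟨v, (N.lab v.1).rep.1.inc ((N.lab v.1).rep.1.a e)⟩ from h2)).1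
      exact h.loop t (h4.trans h3.symm)
    rintro (t | ⟨v, e⟩) (t' | ⟨v', e'⟩) h1 h2
    · have h3 : N.inc t = N.inc t' := vtx_inj N h1
      have h4 : N.inc (N.aa t) = N.inc (N.aa t') := vtx_inj N h2
      have hpole : N.pole false ≠ N.pole true := h.loop (Sum.inr true)
      have hdir : ∀ (e : N.D) (b : Bool), N.inc (Sum.inl e) = N.pole b →
          N.inc (Sum.inl (N.a e)) = N.pole (!b) → False := by
        intro e b h5 h6
        cases b
        · exact h.nd ⟨N.a e, h6, by rw [h.inv]; exact h5⟩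
        · exact h.nd ⟨e, h5, h6⟩
      rcases t with e | b
      · rcases t' with e' | b'
        · rw [h.simp e e' h3 h4]
        · exact (hdir e b' h3 h4).elim
      · rcases t' with e' | b'
        · exact (hdir e' b h3.symm h4.symm).elim
        · have h5 : N.pole b = N.pole b' := h3
          have h6 : b = b' := by
            cases b <;> cases b' <;> first | rfl | exact absurd h5 hpole | exact absurd h5.symm hpole
          rw [h6]
    · exact (hmix t v' e' h1 h2).elim
    · exact (hmix t' v e h1.symm h2.symm).elim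
    · obtain ⟨h3, h4⟩ := Sigma.mk.inj_iff.1 (Option.some.inj h1)
      subst h3
      obtain ⟨-, h5⟩ := Sigma.mk.inj_iff.1 (Option.some.inj h2)
      rw [(N.lab v.1).rep.2.simp e e' (eq_of_heq h4) (eq_of_heq h5)]
  conn := fun X h0 hX => ExpGood.conn h X h0 hX
  planar := ExpGood.planar h

theorem ExpGood.ncut0 {N : LNet RC} (h : EHyp N) : NCut (expand N) (expand N).v0 := by
  have h1 := ExpGood.ncut h (N.pole true) (fun v hv => absurd hv v.2)
  rw [vtx_pole] at h1
  exact h1

theorem ExpGood.arc {N : LNet RC} (h : EHyp N)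
    (hl : (N.lab (N.pole false)).rep.1.size = 1) :
    (expand N).IsArc (Sum.inl (Sum.inr true)) where
  good := ExpGood.good h
  root := vtx_pole N
  nc0 := ExpGood.ncut0 h
  nc1 := by
    refine ExpGood.ncut h (N.pole false) ?_
    rintro ⟨v, hv⟩ hvz
    change v = N.pole false at hvz
    subst hvz
    refine ⟨fun e => ?_⟩
    have h1 : Fintype.card (N.lab (N.pole false)).rep.1.V = 1 := hl
    obtain ⟨x, hx⟩ := Fintype.card_eq_one_iff.1 h1
    exact (N.lab (N.pole false)).rep.2.loop e ((hx _).trans (hx _).symm)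

/-- Planarity: `Pl.sum_sigma` for the network and the labels of its vertices `v ≠ pole true` whose graph has
a dart, then `exists_glue`, `Pl.glue` with `n v` a dart at `v`, `d v` a dart at the root of the label.
Simple: by `¬ Direct` the root edge is not parallel to another edge.  `NCut` at `pole true`: let `A` be closed,
nonempty, not everything; if a label graph is cut by `A` use its `conn`... (a proper nonempty closed set of
darts of a connected graph shares a vertex with the rest; this vertex is not `pole true`); if `A` is a union of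
label graphs and a set `A₀` of network edges: if `A₀` is empty or everything, then the attachment vertex of a
label graph in `A` (resp. not in `A`) is shared; otherwise use `two`. -/
theorem expand_good {N : LNet RC} (h : N.IsGood) (hd : ¬ Direct N) :
    (expand N).IsGood ∧ NCut (expand N) (expand N).v0 :=
  ⟨ExpGood.good (EHyp.of_good h hd), ExpGood.ncut0 (EHyp.of_good h hd)⟩

/-- if the label of the other pole is the one-vertex graph, the root edge is an arc -/
theorem expand_arc {N : LNet RC} (h : N.IsGood) (hd : ¬ Direct N)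
    (hl : (N.lab (N.pole false)).rep.1.size = 1) :
    (expand N).IsArc (Sum.inl (Sum.inr true)) := ExpGood.arc (EHyp.of_good h hd) hl

theorem expand_empty (l : RC) : (expand (emptyNet l)).IsGood ∧
    NCut (expand (emptyNet l)) (expand (emptyNet l)).v0 :=
  ⟨ExpGood.good (EHyp.of_empty l), ExpGood.ncut0 (EHyp.of_empty l)⟩

theorem expand_empty_arc (l : RC) (hl : l.rep.1.size = 1) :
    (expand (emptyNet l)).IsArc (Sum.inl (Sum.inr true)) := ExpGood.arc (EHyp.of_empty l) hl

/-- number of vertices in terms of the size of the network -/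
theorem expand_size_sg {N : LNet RC} (h : N.pole true ≠ N.pole false) :
    (expand N).size = 1 + (N.lab (N.pole false)).rep.1.size + sg N := by
  rw [expand_size, Expand.sum_split N h (fun v => (N.lab v).rep.1.size), sg, add_assoc]

theorem sg_emptyNet (l : RC) : sg (emptyNet l) = 0 := by
  unfold sg
  apply Finset.sum_eq_zero
  rintro ⟨x, hx⟩ -
  exact absurd rfl (hx x)

theorem NIso.sg_eq {N N' : LNet RC} (h : NIso N N') : sg N = sg N' := by
  obtain ⟨e, f, h1, h2, h3, h4⟩ := h
  unfold sg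
  refine Fintype.sum_equiv (f.subtypeEquiv (q := fun x => ∀ b, x ≠ N'.pole b) fun x => ?_) _ _ ?_
  · constructor
    · intro hx b hb
      exact hx b (f.injective (by rw [hb, h3]))
    · intro hx b hb
      exact hx b (by rw [hb, h3])
  · intro x
    have h5 := h4 x.1 x.2
    show (N.lab x.1).rep.1.size = (N'.lab (f x.1)).rep.1.size
    rw [h5]

theorem wt_wx (x : ENNReal) (N : LNet RC) : wt (wx x) N = x ^ sg N := by
  unfold wt wx sg
  exact Finset.prod_pow_eq_pow_sum _ _ _

end PGr

end

section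
/-! # Module BCount: counting arcs and networks -/

set_option linter.unusedSectionVars false

namespace PGr
open Equiv Finset
open scoped ENNReal Classical
open NetSumC

theorem BCount.size_pos (c : RC) : 0 < c.rep.1.size := Fintype.card_pos_iff.2 ⟨c.rep.1.v0⟩

theorem BCount.pole_ne {N : LNet RC} (h : N.IsGood) : N.pole true ≠ N.pole false :=
  fun h1 => h.loop (Sum.inr true) h1.symm

/-- a good network of size 0 has no internal vertex, so all edges are direct -/
theorem direct_of_sg_zero {N : LNet RC} (h : N.IsGood) (h0 : sg N = 0) : Direct N := by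
  have hint : ∀ x : N.V, ∃ b, x = N.pole b := by
    intro x
    by_contra hx
    push Not at hx
    have h1 := (Finset.sum_eq_zero_iff.1 h0) (⟨x, hx⟩ : N.Int) (mem_univ _)
    exact (BCount.size_pos _).ne' h1
  obtain ⟨d⟩ := h.ne
  obtain ⟨b, hb⟩ := hint (N.inc (Sum.inl d))
  obtain ⟨b', hb'⟩ := hint (N.inc (Sum.inl (N.a d)))
  have hne : b ≠ b' := by
    intro h1
    apply h.loop (Sum.inl d)
    show N.inc (Sum.inl (N.a d)) = N.inc (Sum.inl d)
    rw [hb, hb', h1]
  cases b
  · cases b'
    · exact absurd rfl hne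
    · exact ⟨N.a d, hb', by rw [h.inv]; exact hb⟩
  · cases b'
    · exact ⟨d, hb, hb'⟩
    · exact absurd rfl hne

/-- the relation between classes of networks and classes of arcs -/
def BCount.Rel (n : ℕ) (c : NC RC) (q : Quotient (apSetoid n)) : Prop :=
  ∃ (N : LNet RC) (p : APl n), NIso c.rep.1 N ∧ (N.lab (N.pole false)).rep.1.size = 1 ∧
    AIso (expand N) (toRG p.1.1 p.1.2.1) (Sum.inl (Sum.inr true)) ⟨(p.1.2.1, p.1.2.2), p.2.2.2.1⟩ ∧
    q = Quotient.mk (apSetoid n) p

theorem BCount.arc_exists {H : RG} {r : H.D} (h : H.IsArc r) {n : ℕ} (hn : H.size = n) :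
    ∃ p : APl n, AIso H (toRG p.1.1 p.1.2.1) r ⟨(p.1.2.1, p.1.2.2), p.2.2.2.1⟩ := by
  subst hn
  obtain ⟨G, v, w, ha, h1, h2, h3, h4, h5⟩ := exists_toRG_arc h
  exact ⟨⟨(G, v, w), h1, h2, ha, h3, h4⟩, h5⟩

theorem BCount.total {j : ℕ} (c : NC RC) (hd : ¬ Direct c.rep.1) (hj : sg c.rep.1 = j) :
    ∃ q, BCount.Rel (j + 2) c q := by
  obtain ⟨l, hl⟩ := exists_rc_one
  have hg := c.rep.2
  obtain ⟨N, hN1, hN2, hN3⟩ := relabel c.rep.1 l (BCount.pole_ne hg)
  have hN4 : (N.lab (N.pole false)).rep.1.size = 1 := by rw [hN2]; exact hl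
  have harc := expand_arc (hN1.good hg) (fun h1 => hd (hN1.symm.direct h1)) hN4
  have hsize : (expand N).size = j + 2 := by
    rw [expand_size_sg hN3, hN4, ← hN1.sg_eq, hj]
    omega
  obtain ⟨p, hp⟩ := BCount.arc_exists harc hsize
  exact ⟨_, N, p, hN1, hN4, hp, rfl⟩

theorem BCount.surj {j : ℕ} (hj : 0 < j) (q : Quotient (apSetoid (j + 2))) :
    ∃ c : NC RC, ¬ Direct c.rep.1 ∧ sg c.rep.1 = j ∧ BCount.Rel (j + 2) c q := by
  obtain ⟨p, rfl⟩ := Quotient.exists_rep q
  have harc := toRG_arc p.2.1 p.2.2.1 p.2.2.2.1 p.2.2.2.2.1 p.2.2.2.2.2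
  obtain ⟨N, h1, h2, h3⟩ := arc_dec harc
  have hsz : (expand N).size = j + 2 := by
    rw [← h1.size_eq]
    exact Fintype.card_fin _
  have hpole : N.pole true ≠ N.pole false := by
    rcases h3 with h3 | h3
    · exact BCount.pole_ne h3.1
    · exact h3.2
  have hsg : sg N = j := by
    rw [expand_size_sg hpole, h2] at hsz
    omega
  rcases h3 with ⟨h3, h4⟩ | ⟨h3, -⟩
  · have h5 : NIso (cls N h3).rep.1 N := cls_iso N h3
    refine ⟨cls N h3, fun h6 => h4 (h5.direct h6), by rw [h5.sg_eq, hsg], N, p, h5, h2, h1.symm, rfl⟩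
  · exfalso
    rw [h3.sg_eq, sg_emptyNet] at hsg
    omega

theorem BCount.func {n : ℕ} {c : NC RC} {q q' : Quotient (apSetoid n)} (h : BCount.Rel n c q)
    (h' : BCount.Rel n c q') : q = q' := by
  obtain ⟨N, p, h1, h2, h3, rfl⟩ := h
  obtain ⟨N', p', h1', h2', h3', rfl⟩ := h'
  have h4 := expand_aiso (h1.symm.trans h1') (rc_one_unique h2 h2')
  have h5 := (h3.symm.trans h4).trans h3'
  exact Quotient.sound ((toRG_arc_iso p.2.2.2.1 p'.2.2.2.1 p.2.1 p'.2.1).1 h5)

theorem BCount.inj {n : ℕ} {c c' : NC RC} {q : Quotient (apSetoid n)} (h : BCount.Rel n c q)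
    (h' : BCount.Rel n c' q) : c = c' := by
  obtain ⟨N, p, h1, h2, h3, rfl⟩ := h
  obtain ⟨N', p', h1', h2', h3', h4'⟩ := h'
  have h5 := (toRG_arc_iso p.2.2.2.1 p'.2.2.2.1 p.2.1 p'.2.1).2 (Quotient.exact h4')
  have h6 := (h3.trans h5).trans h3'.symm
  have h7 := expand_arc_inj (h1.good c.rep.2) (h1'.good c'.rep.2) h6
  exact eq_of_rep ((h1.trans h7).trans h1'.symm)

instance BCount.finite (n : ℕ) : Finite (Quotient (apSetoid n)) := by
  have h1 : Finite (APl n) := by
    unfold APl
    infer_instance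
  infer_instance

theorem nd_finite (j : ℕ) : Finite {c : NC RC // ¬ Direct c.rep.1 ∧ sg c.rep.1 = j} := by
  have h1 : ∀ c : {c : NC RC // ¬ Direct c.rep.1 ∧ sg c.rep.1 = j}, ∃ q, BCount.Rel (j + 2) c.1 q :=
    fun c => BCount.total c.1 c.2.1 c.2.2
  choose f hf using h1
  refine Finite.of_injective f fun c c' h2 => Subtype.ext ?_
  have h3 := hf c'
  rw [← h2] at h3
  exact BCount.inj (hf c) h3

/-- map a class to the class of its expansion (with the one-vertex label at the pole `false`) -/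
theorem bb_eq (j : ℕ) (hj : 0 < j) :
    bb (j + 2) = Nat.card {c : NC RC // ¬ Direct c.rep.1 ∧ sg c.rep.1 = j} := by
  have h1 : ∀ c : {c : NC RC // ¬ Direct c.rep.1 ∧ sg c.rep.1 = j}, ∃ q, BCount.Rel (j + 2) c.1 q :=
    fun c => BCount.total c.1 c.2.1 c.2.2
  choose f hf using h1
  symm
  refine Nat.card_eq_of_bijective f ⟨fun c c' h2 => Subtype.ext ?_, fun q => ?_⟩
  · have h3 := hf c'
    rw [← h2] at h3
    exact BCount.inj (hf c) h3
  · obtain ⟨c, h2, h3, h4⟩ := BCount.surj hj q
    exact ⟨⟨c, h2, h3⟩, BCount.func (hf _) h4⟩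

theorem BCount.adj_two {G : SimpleGraph (Fin 2)} {v w : Fin 2} (h : G.Adj v w) (a b : Fin 2) :
    G.Adj a b ↔ a ≠ b := by
  constructor
  · exact fun h1 => h1.ne
  · intro h1
    have h2 := h.ne
    have h3 : (a = v ∧ b = w) ∨ (a = w ∧ b = v) := by omega
    rcases h3 with ⟨rfl, rfl⟩ | ⟨rfl, rfl⟩
    · exact h
    · exact h.symm

theorem bb_two : bb 2 = 1 := by
  unfold bb
  rw [Nat.card_eq_one_iff_unique]
  constructor
  · refine ⟨fun x y => ?_⟩
    obtain ⟨p, rfl⟩ := Quotient.exists_rep x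
    obtain ⟨q, rfl⟩ := Quotient.exists_rep y
    apply Quotient.sound
    have hp := p.2.2.2.1
    have hq := q.2.2.2.1
    refine ⟨⟨Equiv.swap p.1.2.1 q.1.2.1, fun {a b} => ?_⟩, Equiv.swap_apply_left _ _, ?_⟩
    · rw [BCount.adj_two hp, BCount.adj_two hq]
      exact (Equiv.injective _).ne_iff
    · show Equiv.swap p.1.2.1 q.1.2.1 p.1.2.2 = q.1.2.2
      have h1 := hp.ne
      have h2 := hq.ne
      by_cases h3 : p.1.2.1 = q.1.2.1
      · rw [h3, Equiv.swap_self]
        show p.1.2.2 = q.1.2.2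
        omega
      · have h4 : p.1.2.2 = q.1.2.1 := by omega
        rw [h4, Equiv.swap_apply_right]
        omega
  · obtain ⟨l, hl⟩ := exists_rc_one
    have hpole : (emptyNet l).pole true ≠ (emptyNet l).pole false := by
      show (true : Bool) ≠ false
      decide
    have hsize : (expand (emptyNet l)).size = 2 := by
      rw [expand_size_sg hpole, sg_emptyNet]
      show 1 + l.rep.1.size + 0 = 2
      rw [hl]
    obtain ⟨p, -⟩ := BCount.arc_exists (expand_empty_arc l hl) hsize
    exact ⟨Quotient.mk _ p⟩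

theorem BCount.tsum_ite {C : Type*} (Q : C → Prop) [DecidablePred Q] [Finite {c // Q c}] (a : ℝ≥0∞) :
    (∑' c, if Q c then a else 0) = (Nat.card {c // Q c} : ℝ≥0∞) * a := by
  have h1 : (∑' c, if Q c then a else 0) = ∑' c : {c // Q c}, a := by
    have h2 := tsum_subtype {c | Q c} (fun _ => a)
    rw [show (∑' c : {c // Q c}, a) = ∑' c : ({c | Q c} : Set C), a from rfl, h2]
    refine tsum_congr fun c => ?_
    rw [Set.indicator_apply]
    by_cases h3 : Q c
    · rw [if_pos h3, if_pos (show c ∈ {c | Q c} from h3)]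
    · rw [if_neg h3, if_neg (show c ∉ {c | Q c} from h3)]
  have := Fintype.ofFinite {c // Q c}
  rw [h1, tsum_fintype, Finset.sum_const, nsmul_eq_mul, Finset.card_univ, Nat.card_eq_fintype_card]

theorem BCount.nsel (x : ℝ≥0∞) : Nsel (wx x) (fun N => ¬ Direct N) =
    ∑' j, (Nat.card {c : NC RC // ¬ Direct c.rep.1 ∧ sg c.rep.1 = j} : ℝ≥0∞) * x ^ j := by
  have h1 : ∀ j, (Nat.card {c : NC RC // ¬ Direct c.rep.1 ∧ sg c.rep.1 = j} : ℝ≥0∞) * x ^ j =
      ∑' c : NC RC, if ¬ Direct c.rep.1 ∧ sg c.rep.1 = j then x ^ j else 0 := by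
    intro j
    have := nd_finite j
    exact (BCount.tsum_ite (fun c : NC RC => ¬ Direct c.rep.1 ∧ sg c.rep.1 = j) (x ^ j)).symm
  simp only [h1]
  rw [ENNReal.tsum_comm]
  unfold Nsel
  refine tsum_congr fun c => ?_
  split_ifs with h2
  · rw [wt_wx, tsum_eq_single (sg c.rep.1)]
    · rw [if_pos ⟨h2, rfl⟩]
    · intro j hj
      rw [if_neg]
      rintro ⟨-, h3⟩
      exact hj h3.symm
  · rw [ENNReal.tsum_eq_zero.2]
    intro j
    rw [if_neg]
    rintro ⟨h3, -⟩
    exact h2 h3

theorem bb_sum (x : ℝ≥0∞) :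
    ∑' j, (bb (j + 2) : ℝ≥0∞) * x ^ j = 1 + Nsel (wx x) (fun N => ¬ Direct N) := by
  rw [BCount.nsel, tsum_eq_zero_add' ENNReal.summable, tsum_eq_zero_add' (f := fun j =>
    (Nat.card {c : NC RC // ¬ Direct c.rep.1 ∧ sg c.rep.1 = j} : ℝ≥0∞) * x ^ j) ENNReal.summable]
  have h0 : Nat.card {c : NC RC // ¬ Direct c.rep.1 ∧ sg c.rep.1 = 0} = 0 := by
    have : IsEmpty {c : NC RC // ¬ Direct c.rep.1 ∧ sg c.rep.1 = 0} :=
      ⟨fun c => c.2.1 (direct_of_sg_zero c.1.rep.2 c.2.2)⟩
    exact Nat.card_of_isEmpty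
  rw [h0]
  have h2 : ((bb (0 + 2) : ℕ) : ℝ≥0∞) = 1 := by
    rw [zero_add, bb_two, Nat.cast_one]
  rw [h2, pow_zero, mul_one, Nat.cast_zero, zero_mul, zero_add]
  congr 1
  refine tsum_congr fun j => ?_
  rw [bb_eq (j + 1) (Nat.succ_pos j)]

end PGr

end

section
/-! # Module DpRig: derivative inequality for rigid networks -/

set_option linter.unusedSectionVars false

namespace PGr
open Equiv Finset
open scoped ENNReal Classical
variable {x : ℝ≥0∞}

private theorem DpRig_pow_inj {a b : ℕ} (h : (2 : ℝ≥0∞) ^ a = 2 ^ b) : a = b := by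
  have h1 : ((2 ^ a : ℕ) : ℝ≥0∞) = ((2 ^ b : ℕ) : ℝ≥0∞) := by push_cast; exact h
  have h2 : (2 : ℕ) ^ a = 2 ^ b := by exact_mod_cast h1
  exact Nat.pow_right_injective (le_refl 2) h2

theorem sg_glue {I Vc : Type} [Fintype I] [DecidableEq I] [Fintype Vc] [DecidableEq Vc]
    (cinc : (I × Bool) ⊕ Bool → Vc) (N : I → LNet RC) (g : Vc → RC) :
    sg (glue cinc N g) = (∑ y : {y : Vc // ∀ b, y ≠ cinc (Sum.inr b)}, (g y.1).rep.1.size) +
      ∑ i, sg (N i) := by
  have h := wt_glue (wx 2) cinc N g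
  simp only [wt_wx] at h
  unfold wx at h
  rw [Finset.prod_pow_eq_pow_sum, Finset.prod_pow_eq_pow_sum, ← pow_add] at h
  exact DpRig_pow_inj h

/-- product rule: `Σ_g (Σ_i k (g i)) Π_i f (g i) = |ι| (Σ k f) (Σ f)^(|ι| - 1)` -/
theorem sum_prod_rule {ι α : Type*} [Fintype ι] (f : α → ℝ≥0∞) (k : α → ℕ) :
    ∑' g : ι → α, ((∑ i, k (g i) : ℕ) : ℝ≥0∞) * ∏ i, f (g i) =
      (Fintype.card ι : ℝ≥0∞) * (∑' a, (k a : ℝ≥0∞) * f a) * (∑' a, f a) ^ (Fintype.card ι - 1) := by
  have h1 : ∀ g : ι → α, ((∑ i, k (g i) : ℕ) : ℝ≥0∞) * ∏ i, f (g i) =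
      ∑ i, ∏ j, (if j = i then (k (g j) : ℝ≥0∞) * f (g j) else f (g j)) := by
    intro g
    rw [Nat.cast_sum, Finset.sum_mul]
    refine Finset.sum_congr rfl fun i _ => ?_
    rw [← Finset.mul_prod_erase univ (fun j => if j = i then (k (g j) : ℝ≥0∞) * f (g j) else f (g j))
      (mem_univ i), if_pos rfl, ← Finset.mul_prod_erase univ (fun j => f (g j)) (mem_univ i),
      mul_assoc]
    congr 2
    refine Finset.prod_congr rfl fun j hj => ?_
    rw [if_neg (Finset.ne_of_mem_erase hj)]
  simp_rw [h1]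
  rw [show (∑' g : ι → α, ∑ i, ∏ j, (if j = i then (k (g j) : ℝ≥0∞) * f (g j) else f (g j))) =
      ∑ i, ∑' g : ι → α, ∏ j, (if j = i then (k (g j) : ℝ≥0∞) * f (g j) else f (g j)) from
    Summable.tsum_finsetSum fun i _ => ENNReal.summable]
  have h2 : ∀ i : ι, ∑' g : ι → α, ∏ j, (if j = i then (k (g j) : ℝ≥0∞) * f (g j) else f (g j)) =
      (∑' a, (k a : ℝ≥0∞) * f a) * (∑' a, f a) ^ (Fintype.card ι - 1) := by
    intro i
    rw [← prod_tsum (fun (j : ι) (a : α) => if j = i then (k a : ℝ≥0∞) * f a else f a)]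
    rw [← Finset.mul_prod_erase univ _ (mem_univ i)]
    congr 1
    · simp
    · rw [Finset.prod_congr rfl (g := fun _ => ∑' a, f a) (fun j hj => by
        refine tsum_congr fun a => ?_
        rw [if_neg (Finset.ne_of_mem_erase hj)])]
      rw [prod_const, card_erase_of_mem (mem_univ i), card_univ]
  rw [Finset.sum_congr rfl fun i _ => h2 i, Finset.sum_const, card_univ, nsmul_eq_mul, mul_assoc]

open NetSumC

/-- the weights of the indices -/
private noncomputable def DpRig_pw (x : ℝ≥0∞) (n : ℕ) (p : Ix RC) : ℝ≥0∞ :=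
  if Rigid p.1.rep.1 ∧ (core p.1).vinc (Sum.inr true) ≠ (core p.1).vinc (Sum.inr false) then
    ((((∑ i, sg (p.2.1 i).rep.1 : ℕ) : ℝ≥0∞) *
      ∏ i, (if sg (p.2.1 i).rep.1 ≤ n then x ^ sg (p.2.1 i).rep.1 else 0)) *
        ∏ y : CInt (core p.1), wK x n (p.2.2 y)) +
    (∏ i, (if sg (p.2.1 i).rep.1 ≤ n then x ^ sg (p.2.1 i).rep.1 else 0)) *
      (((∑ y : CInt (core p.1), (p.2.2 y).rep.1.size : ℕ) : ℝ≥0∞) *
        ∏ y : CInt (core p.1), wK x n (p.2.2 y))
  else 0

private theorem DpRig_weight {n : ℕ} {N : LNet RC} {c : GC} {X : (core c).I → LNet RC}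
    {g : (core c).CV → RC} (hN : N.IsGood) (h : RDec N c X g) (hn : sg N ≤ n) :
    (sg N : ℝ≥0∞) * x ^ sg N ≤ DpRig_pw x n (ix h) := by
  have hpole : (core c).vinc (Sum.inr true) ≠ (core c).vinc (Sum.inr false) := by
    obtain ⟨e, f, h1, h2, h3, h4⟩ := h.iso
    intro he
    have h5 : f (N.pole true) = f (N.pole false) := by
      rw [h3, h3]
      show (Sum.inl _ : _ ⊕ _) = Sum.inl _
      rw [he]
    exact hN.loop (Sum.inr true) (f.injective h5).symm
  have hs : sg N = (∑ y : CInt (core c), (g y.1).rep.1.size) + ∑ i, sg (X i) := by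
    rw [h.iso.sg_eq, sg_glue]
  have hcl : ∀ i, sg (cls (X i) (h.good i)).rep.1 = sg (X i) := fun i =>
    (cls_iso (X i) (h.good i)).sg_eq
  have hi : ∀ i, sg (X i) ≤ n := fun i => by
    have := Finset.single_le_sum (f := fun i => sg (X i)) (fun _ _ => Nat.zero_le _) (mem_univ i)
    have h0 : sg (X i) ≤ ∑ i, sg (X i) := this
    omega
  have hy : ∀ y : CInt (core c), (g y.1).rep.1.size ≤ n := fun y => by
    have := Finset.single_le_sum (f := fun y : CInt (core c) => (g y.1).rep.1.size)
      (fun _ _ => Nat.zero_le _) (mem_univ y)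
    have h0 : (g y.1).rep.1.size ≤ ∑ y : CInt (core c), (g y.1).rep.1.size := this
    omega
  unfold DpRig_pw
  rw [if_pos ⟨h.rig, hpole⟩]
  have e1 : ∏ i, (if sg ((ix h).2.1 i).rep.1 ≤ n then x ^ sg ((ix h).2.1 i).rep.1 else 0) =
      x ^ ∑ i, sg (X i) := by
    rw [← Finset.prod_pow_eq_pow_sum]
    refine Finset.prod_congr rfl fun i _ => ?_
    change (if sg (cls (X i) (h.good i)).rep.1 ≤ n then x ^ sg (cls (X i) (h.good i)).rep.1 else 0) = _
    rw [hcl i, if_pos (hi i)]
  have e2 : ∏ y : CInt (core c), wK x n ((ix h).2.2 y) = x ^ ∑ y : CInt (core c), (g y.1).rep.1.size := by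
    rw [← Finset.prod_pow_eq_pow_sum]
    refine Finset.prod_congr rfl fun y _ => ?_
    change wK x n (g y.1) = _
    unfold wK
    rw [if_pos (hy y)]
  have e3 : ∑ i, sg ((ix h).2.1 i).rep.1 = ∑ i, sg (X i) := Finset.sum_congr rfl fun i _ => hcl i
  have e4 : ∑ y : CInt (core c), ((ix h).2.2 y).rep.1.size = ∑ y : CInt (core c), (g y.1).rep.1.size := rfl
  refine le_of_eq ?_
  change _ = ((((∑ i, sg ((ix h).2.1 i).rep.1 : ℕ) : ℝ≥0∞) *
      ∏ i, (if sg ((ix h).2.1 i).rep.1 ≤ n then x ^ sg ((ix h).2.1 i).rep.1 else 0)) *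
        ∏ y : CInt (core c), wK x n ((ix h).2.2 y)) +
    (∏ i, (if sg ((ix h).2.1 i).rep.1 ≤ n then x ^ sg ((ix h).2.1 i).rep.1 else 0)) *
      (((∑ y : CInt (core c), ((ix h).2.2 y).rep.1.size : ℕ) : ℝ≥0∞) *
        ∏ y : CInt (core c), wK x n ((ix h).2.2 y))
  rw [e1, e2, e3, e4, hs, pow_add, Nat.cast_add]
  ring

private theorem DpRig_sum (n : ℕ) (c : GC) :
    (∑' q : ((core c).I → NC RC) × (CInt (core c) → RC), DpRig_pw x n ⟨c, q⟩) ≤
      (if Rigid c.rep.1 then ((nV c.rep.1.s - 2 : ℕ) : ℝ≥0∞) *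
        (Kn x n ^ (nV c.rep.1.s - 3) * Dt x n (fun _ => True) ^ (Fintype.card c.rep.1.D / 2)) else 0) *
          Kp x n +
      (if Rigid c.rep.1 then ((Fintype.card c.rep.1.D / 2 : ℕ) : ℝ≥0∞) *
        (Kn x n ^ (nV c.rep.1.s - 2) * Dt x n (fun _ => True) ^ (Fintype.card c.rep.1.D / 2 - 1)) else 0) *
          Dp x n (fun _ => True) := by
  by_cases hc : Rigid c.rep.1 ∧ (core c).vinc (Sum.inr true) ≠ (core c).vinc (Sum.inr false)
  · rw [if_pos hc.1, if_pos hc.1]
    set f : NC RC → ℝ≥0∞ := fun d => if sg d.rep.1 ≤ n then x ^ sg d.rep.1 else 0 with hf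
    have h1 : ∀ q : ((core c).I → NC RC) × (CInt (core c) → RC), DpRig_pw x n ⟨c, q⟩ =
        (((∑ i, sg (q.1 i).rep.1 : ℕ) : ℝ≥0∞) * ∏ i, f (q.1 i)) * (∏ y, wK x n (q.2 y)) +
        (∏ i, f (q.1 i)) * (((∑ y, (q.2 y).rep.1.size : ℕ) : ℝ≥0∞) * ∏ y, wK x n (q.2 y)) :=
      fun q => by unfold DpRig_pw; rw [if_pos hc]
    simp_rw [h1]
    rw [ENNReal.tsum_add,
      ← tsum_prod_mul (fun F : (core c).I → NC RC => ((∑ i, sg (F i).rep.1 : ℕ) : ℝ≥0∞) * ∏ i, f (F i))
        (fun G : CInt (core c) → RC => ∏ y, wK x n (G y)),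
      ← tsum_prod_mul (fun F : (core c).I → NC RC => ∏ i, f (F i))
        (fun G : CInt (core c) → RC => ((∑ y, (G y).rep.1.size : ℕ) : ℝ≥0∞) * ∏ y, wK x n (G y)),
      sum_prod_rule f (fun d : NC RC => sg d.rep.1), sum_prod_rule (wK x n) (fun r : RC => r.rep.1.size),
      ← prod_tsum (fun (_ : (core c).I) (d : NC RC) => f d),
      ← prod_tsum (fun (_ : CInt (core c)) (l : RC) => wK x n l), prod_const, prod_const, card_univ,
      card_univ, card_CInt hc.2]
    have h2 : Fintype.card c.rep.1.D / 2 = Fintype.card (core c).I := by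
      rw [← (core_iso c).card_eq]
      have : Fintype.card (core c).toB.D = Fintype.card (core c).I * 2 := by
        show Fintype.card ((core c).I × Bool) = _
        rw [Fintype.card_prod, Fintype.card_bool]
      rw [this]
      simp
    have h3 : nV (core c).s = nV c.rep.1.s := (core_iso c).nV_eq
    have h4 : ∑' d, f d = Dt x n (fun _ => True) := by
      unfold Dt
      simp only [true_and, hf]
    have h5 : ∑' d : NC RC, (sg d.rep.1 : ℝ≥0∞) * f d = Dp x n (fun _ => True) := by
      unfold Dp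
      simp only [true_and, hf, mul_ite, mul_zero]
    have h6 : ∑' l : RC, wK x n l = Kn x n := rfl
    have h7 : ∑' l : RC, (l.rep.1.size : ℝ≥0∞) * wK x n l = Kp x n := by
      unfold Kp wK
      refine tsum_congr fun l => ?_
      rw [mul_ite, mul_zero]
    rw [h2, h3, h4, h5, h6, h7, Nat.sub_sub]
    refine le_of_eq ?_
    ring
  · have h1 : ∀ q : ((core c).I → NC RC) × (CInt (core c) → RC), DpRig_pw x n ⟨c, q⟩ = 0 :=
      fun q => by unfold DpRig_pw; rw [if_neg hc]
    simp_rw [h1]
    rw [tsum_zero]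
    exact zero_le

/-- as `rn_le` (`rig_dec`, `Ix`, `rdec_inj`), with `sg` distributed over the internal vertices of the core and
the nets: `RgS` and `RgE` are the derivatives of `Rg`; note that the nets of a decomposition have `sg ≤ n` if the
glued network has, and that the core has `≥ 4` vertices (for `nV - 3`; not needed: `nV - 2` internal vertices) -/
theorem Dp_rig_le (n : ℕ) :
    Dp x n (fun N => XNet N ∧ ¬ SerN N) ≤
      RgS (Kn x n) (Dt x n (fun _ => True)) * Kp x n +
        RgE (Kn x n) (Dt x n (fun _ => True)) * Dp x n (fun _ => True) := by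
  have hex : ∀ d : NC RC, ∃ o : Option (Ix RC), (XNet d.rep.1 ∧ ¬ SerN d.rep.1) →
      ∃ c X g, ∃ h : RDec d.rep.1 c X g, o = some (ix h) := by
    intro d
    by_cases h : XNet d.rep.1 ∧ ¬ SerN d.rep.1
    · obtain ⟨c, X, g, hd⟩ := exists_rdec h.1 h.2
      exact ⟨some (ix hd), fun _ => ⟨c, X, g, hd, rfl⟩⟩
    · exact ⟨none, fun h' => absurd h' h⟩
  choose φ hφ using hex
  have h1 : ∑' o : Option (Ix RC), (match o with
      | none => (0 : ℝ≥0∞)
      | some p => DpRig_pw x n p) ≤ RgS (Kn x n) (Dt x n (fun _ => True)) * Kp x n +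
        RgE (Kn x n) (Dt x n (fun _ => True)) * Dp x n (fun _ => True) := by
    rw [tsum_opt]
    show 0 + ∑' p : Ix RC, DpRig_pw x n p ≤ _
    rw [zero_add, ← tsum_sigma_eq (fun c q => DpRig_pw x n ⟨c, q⟩)]
    have h2 := ENNReal.tsum_le_tsum fun c : GC => DpRig_sum (x := x) n c
    rw [ENNReal.tsum_add, ENNReal.tsum_mul_right, ENNReal.tsum_mul_right] at h2
    exact h2
  refine le_trans ?_ h1
  unfold Dp
  refine tsum_le_tsum_of_injOn φ ?_ ?_
  · intro d d' h h' he
    have hd : (XNet d.rep.1 ∧ ¬ SerN d.rep.1) ∧ sg d.rep.1 ≤ n := by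
      by_contra hc
      exact h (if_neg hc)
    have hd' : (XNet d'.rep.1 ∧ ¬ SerN d'.rep.1) ∧ sg d'.rep.1 ≤ n := by
      by_contra hc
      exact h' (if_neg hc)
    obtain ⟨c, X, g, hr, e⟩ := hφ d hd.1
    obtain ⟨c', X', g', hr', e'⟩ := hφ d' hd'.1
    rw [e, e'] at he
    exact rdec_inj hr hr' (Option.some.inj he)
  · intro d h
    have hd : (XNet d.rep.1 ∧ ¬ SerN d.rep.1) ∧ sg d.rep.1 ≤ n := by
      by_contra hc
      exact h (if_neg hc)
    rw [if_pos hd]
    obtain ⟨c, X, g, hr, e⟩ := hφ d hd.1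
    rw [e]
    exact DpRig_weight d.rep.2 hr hd.2

end PGr

end

section
/-! # Module DpSer: derivative inequality for series networks -/

set_option linter.unusedSectionVars false

namespace PGr
open Equiv Finset
open scoped ENNReal Classical
variable {x : ℝ≥0∞}

private theorem DpSer_pow_inj {a b : ℕ} (h : (2 : ℝ≥0∞) ^ a = 2 ^ b) : a = b := by
  have h1 : ((2 ^ a : ℕ) : ℝ≥0∞) = ((2 ^ b : ℕ) : ℝ≥0∞) := by push_cast; exact h
  have h2 : (2 : ℕ) ^ a = 2 ^ b := by exact_mod_cast h1
  exact Nat.pow_right_injective (le_refl 2) h2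

theorem sg_serGlue (N₁ N₂ : LNet RC) (g : Option Bool → RC) :
    sg (serGlue N₁ N₂ g) = (g none).rep.1.size + (sg N₁ + sg N₂) := by
  have h := wt_serGlue (wx 2) N₁ N₂ g
  rw [wt_wx, wt_wx, wt_wx] at h
  unfold wx at h
  rw [← pow_add, ← pow_add] at h
  exact DpSer_pow_inj h

private theorem DpSer_Dt (n : ℕ) : Dt x n (fun _ => True) =
    ∑' c : NC RC, if sg c.rep.1 ≤ n then x ^ sg c.rep.1 else 0 := by
  unfold Dt
  simp only [true_and]

private theorem DpSer_Dp (n : ℕ) : Dp x n (fun _ => True) =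
    ∑' c : NC RC, if sg c.rep.1 ≤ n then (sg c.rep.1 : ℝ≥0∞) * x ^ sg c.rep.1 else 0 := by
  unfold Dp
  simp only [true_and]

/-- as `sn_le` (`ser_dec`): `|l| + sg N₁ + sg N₂` is distributed over three factors -/
theorem Dp_ser_le (n : ℕ) :
    Dp x n (fun N => XNet N ∧ SerN N) ≤
      Kp x n * Dt x n (fun _ => True) ^ 2 +
        2 * (Kn x n * Dt x n (fun _ => True) * Dp x n (fun _ => True)) := by
  -- the right side as one sum
  have hR : Kp x n * Dt x n (fun _ => True) ^ 2 +
        2 * (Kn x n * Dt x n (fun _ => True) * Dp x n (fun _ => True)) =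
      ∑' p : (RC × NC RC) × NC RC,
        ((if p.1.1.rep.1.size ≤ n then (p.1.1.rep.1.size : ℝ≥0∞) * x ^ p.1.1.rep.1.size else 0) *
            (if sg p.1.2.rep.1 ≤ n then x ^ sg p.1.2.rep.1 else 0) *
            (if sg p.2.rep.1 ≤ n then x ^ sg p.2.rep.1 else 0) +
          ((if p.1.1.rep.1.size ≤ n then x ^ p.1.1.rep.1.size else 0) *
            (if sg p.1.2.rep.1 ≤ n then (sg p.1.2.rep.1 : ℝ≥0∞) * x ^ sg p.1.2.rep.1 else 0) *
            (if sg p.2.rep.1 ≤ n then x ^ sg p.2.rep.1 else 0) +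
          (if p.1.1.rep.1.size ≤ n then x ^ p.1.1.rep.1.size else 0) *
            (if sg p.1.2.rep.1 ≤ n then x ^ sg p.1.2.rep.1 else 0) *
            (if sg p.2.rep.1 ≤ n then (sg p.2.rep.1 : ℝ≥0∞) * x ^ sg p.2.rep.1 else 0))) := by
    rw [ENNReal.tsum_add, ENNReal.tsum_add]
    have e1 : Kp x n * Dt x n (fun _ => True) ^ 2 =
        Kp x n * Dt x n (fun _ => True) * Dt x n (fun _ => True) := by ring
    have e2 : 2 * (Kn x n * Dt x n (fun _ => True) * Dp x n (fun _ => True)) =
        Kn x n * Dp x n (fun _ => True) * Dt x n (fun _ => True) +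
          Kn x n * Dt x n (fun _ => True) * Dp x n (fun _ => True) := by ring
    rw [e1, e2, DpSer_Dt, DpSer_Dp]
    unfold Kp Kn wK
    rw [tsum_prod_mul, tsum_prod_mul, tsum_prod_mul, tsum_prod_mul, tsum_prod_mul, tsum_prod_mul]
  rw [hR]
  unfold Dp
  have key : ∀ c : NC RC, ((XNet c.rep.1 ∧ SerN c.rep.1) ∧ sg c.rep.1 ≤ n) →
      ∃ p : (RC × NC RC) × NC RC,
      (∃ g : Option Bool → RC, g none = p.1.1 ∧
        NIso c.rep.1 (serGlue p.1.2.rep.1 p.2.rep.1 g)) := by
    intro c hP
    obtain ⟨N₁, N₂, g, h1, h2, h3, h4, h5, h6⟩ := ser_dec c.rep.2 hP.1.2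
    have i1 := NetSumB.rep_iso ⟨N₁, h1⟩
    have i2 := NetSumB.rep_iso ⟨N₂, h2⟩
    exact ⟨((g none, Quotient.mk (nSetoid RC) ⟨N₁, h1⟩), Quotient.mk (nSetoid RC) ⟨N₂, h2⟩),
      ⟨g, rfl, h6.trans (serGlue_iso i1.symm i2.symm rfl)⟩⟩
  by_cases hne : Nonempty ((RC × NC RC) × NC RC)
  · choose! φ hφ using key
    refine tsum_le_tsum_of_injOn φ ?_ ?_
    · intro c c' hc hc' he
      have hP : (XNet c.rep.1 ∧ SerN c.rep.1) ∧ sg c.rep.1 ≤ n := by
        by_contra h
        exact hc (if_neg h)
      have hP' : (XNet c'.rep.1 ∧ SerN c'.rep.1) ∧ sg c'.rep.1 ≤ n := by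
        by_contra h
        exact hc' (if_neg h)
      obtain ⟨g, hg, hi⟩ := hφ c hP
      obtain ⟨g', hg', hi'⟩ := hφ c' hP'
      rw [← he] at hg' hi'
      have h1 : NIso c.rep.1 c'.rep.1 :=
        hi.trans ((serGlue_iso (NIso.refl _) (NIso.refl _) (hg.trans hg'.symm)).trans hi'.symm)
      have h2 : Quotient.mk (nSetoid RC) c.rep = Quotient.mk (nSetoid RC) c'.rep :=
        Quotient.sound h1
      rw [Quotient.out_eq, Quotient.out_eq] at h2
      exact h2
    · intro c hc
      have hP : (XNet c.rep.1 ∧ SerN c.rep.1) ∧ sg c.rep.1 ≤ n := by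
        by_contra h
        exact hc (if_neg h)
      obtain ⟨g, hg, hi⟩ := hφ c hP
      have hs : sg c.rep.1 = (φ c).1.1.rep.1.size + (sg (φ c).1.2.rep.1 + sg (φ c).2.rep.1) := by
        rw [hi.sg_eq, sg_serGlue, hg]
      have hn := hP.2
      rw [if_pos hP]
      rw [if_pos (show (φ c).1.1.rep.1.size ≤ n by omega),
        if_pos (show sg (φ c).1.2.rep.1 ≤ n by omega),
        if_pos (show sg (φ c).2.rep.1 ≤ n by omega),
        if_pos (show (φ c).1.1.rep.1.size ≤ n by omega),
        if_pos (show sg (φ c).1.2.rep.1 ≤ n by omega),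
        if_pos (show sg (φ c).2.rep.1 ≤ n by omega)]
      rw [hs]
      push_cast
      refine le_of_eq ?_
      ring
  · refine le_trans (le_of_eq (ENNReal.tsum_eq_zero.2 (fun c => if_neg (fun h => ?_)))) zero_le
    obtain ⟨p, -⟩ := key c h
    exact hne ⟨p⟩

end PGr

end

section
/-! # Module Join: a new root joined to the roots of two graphs -/

set_option linter.unusedSectionVars false

namespace PGr
open Equiv Finset
open scoped Classical

/-- a new root `none` joined to the roots of `G` and `H` -/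
def join (G H : RG) : RG where
  D := (G.D ⊕ H.D) ⊕ (Bool × Bool)
  V := Option (G.V ⊕ H.V)
  a := Perm.sumCongr (Perm.sumCongr G.a H.a) (Equiv.prodCongr (Equiv.refl _) Equiv.boolNot)
  inc := Sum.elim (Sum.elim (fun d => some (Sum.inl (G.inc d))) (fun d => some (Sum.inr (H.inc d))))
    (fun c => if c.2 then none else some (bif c.1 then Sum.inl G.v0 else Sum.inr H.v0))
  v0 := none

namespace JoinAux

variable {G H : RG}

theorem inc_l (d : G.D) : (join G H).inc (Sum.inl (Sum.inl d)) = some (Sum.inl (G.inc d)) := rfl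
theorem inc_r (d : H.D) : (join G H).inc (Sum.inl (Sum.inr d)) = some (Sum.inr (H.inc d)) := rfl
theorem inc_t (c : Bool) : (join G H).inc (Sum.inr (c, true)) = none := rfl
theorem inc_tf : (join G H).inc (Sum.inr (true, false)) = some (Sum.inl G.v0) := rfl
theorem inc_ff : (join G H).inc (Sum.inr (false, false)) = some (Sum.inr H.v0) := rfl
theorem a_l (d : G.D) : (join G H).a (Sum.inl (Sum.inl d)) = Sum.inl (Sum.inl (G.a d)) := rfl
theorem a_r (d : H.D) : (join G H).a (Sum.inl (Sum.inr d)) = Sum.inl (Sum.inr (H.a d)) := rfl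
theorem a_t (c : Bool) : (join G H).a (Sum.inr (c, true)) = Sum.inr (c, false) := rfl
theorem a_f (c : Bool) : (join G H).a (Sum.inr (c, false)) = Sum.inr (c, true) := rfl

theorem root_dart (hG : G.IsGood) (d : G.D) : ∃ x : G.D, G.inc x = G.v0 := by
  have h1 : ({G.v0} : Finset G.V) ≠ univ := by
    intro h
    have h2 := Finset.ext_iff.1 h (G.inc d)
    have h3 := Finset.ext_iff.1 h (G.inc (G.a d))
    rw [mem_singleton] at h2 h3
    exact hG.loop d ((h3.2 (mem_univ _)).trans (h2.2 (mem_univ _)).symm)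
  obtain ⟨x, hx, -⟩ := hG.conn {G.v0} (mem_singleton_self _) h1
  exact ⟨x, mem_singleton.1 hx⟩

/-- disjoint union of two maps -/
theorem pl_sum {T T' : Type*} [Fintype T] [DecidableEq T] [Fintype T'] [DecidableEq T']
    {a s : Perm T} {a' s' : Perm T'} (h : Pl a s) (h' : Pl a' s') :
    Pl (Perm.sumCongr a a') (Perm.sumCongr s s') := by
  intro p q hpq
  obtain ⟨f, e1, e2⟩ := h (fun t => p (Sum.inl t)) (fun t => q (Sum.inl t))
    (fun t => hpq (Sum.inl t))
  obtain ⟨f', e1', e2'⟩ := h' (fun t => p (Sum.inr t)) (fun t => q (Sum.inr t))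
    (fun t => hpq (Sum.inr t))
  refine ⟨Sum.elim f f', ?_, ?_⟩
  · rintro (t | t)
    · exact e1 t
    · exact e1' t
  · rintro (t | t)
    · exact e2 t
    · exact e2' t

/-- the rotation of the two new edges -/
def s0 : Perm (Bool × Bool) := ConeGood.sp Equiv.boolNot

theorem s0_t (c : Bool) : s0 (c, true) = (!c, true) := rfl
theorem s0_f (c : Bool) : s0 (c, false) = (c, false) := rfl

theorem pl_s0 : Pl (Equiv.prodCongr (Equiv.refl Bool) Equiv.boolNot) s0 := by
  intro p q _
  have h2 : ∀ x : ZMod 2, x + x = 0 := by decide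
  refine ⟨fun t => p (t.1, true), ?_, ?_⟩
  · rintro ⟨c, b⟩
    rfl
  · rintro ⟨c, _ | _⟩
    · rw [s0_f, h2, h2]
    · rw [s0_t]

/-- the rotation of the disjoint union -/
def sS (s₁ : Perm G.D) (s₂ : Perm H.D) : Perm ((G.D ⊕ H.D) ⊕ (Bool × Bool)) :=
  Perm.sumCongr (Perm.sumCongr s₁ s₂) s0

/-- the cycles of the disjoint union -/
def KK (G H : RG) : (G.D ⊕ H.D) ⊕ (Bool × Bool) → (G.V ⊕ H.V) ⊕ Option Bool
  | Sum.inl (Sum.inl d) => Sum.inl (Sum.inl (G.inc d))
  | Sum.inl (Sum.inr d) => Sum.inl (Sum.inr (H.inc d))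
  | Sum.inr (_, true) => Sum.inr none
  | Sum.inr (c, false) => Sum.inr (some c)

theorem KK_iff {s₁ : Perm G.D} {s₂ : Perm H.D}
    (h₁ : ∀ t t', s₁.SameCycle t t' ↔ G.inc t = G.inc t')
    (h₂ : ∀ t t', s₂.SameCycle t t' ↔ H.inc t = H.inc t') (t t' : (G.D ⊕ H.D) ⊕ (Bool × Bool)) :
    (sS s₁ s₂).SameCycle t t' ↔ KK G H t = KK G H t' := by
  have st : ∀ {α : Type} (f : Perm α) (x : α), f.SameCycle x (f x) := fun f x => ⟨1, by simp⟩
  constructor
  · intro h
    refine PlGlue_inv (s := sS s₁ s₂) (f := KK G H) ?_ h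
    rintro ((d | d) | ⟨c, _ | _⟩)
    · change Sum.inl (Sum.inl (G.inc (s₁ d))) = Sum.inl (Sum.inl (G.inc d))
      rw [(h₁ d (s₁ d)).1 (st s₁ d)]
    · change Sum.inl (Sum.inr (H.inc (s₂ d))) = Sum.inl (Sum.inr (H.inc d))
      rw [(h₂ d (s₂ d)).1 (st s₂ d)]
    · rfl
    · rfl
  · intro h
    rcases t with (d | d) | ⟨c, _ | _⟩ <;> rcases t' with (d' | d') | ⟨c', _ | _⟩ <;>
      simp only [KK, Sum.inl.injEq, Sum.inr.injEq, Option.some.injEq, reduceCtorEq] at h
    · exact ConeGood.same_pow s₁ (sS s₁ s₂) (fun x => Sum.inl (Sum.inl x))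
        (fun x => st (sS s₁ s₂) (Sum.inl (Sum.inl x))) ((h₁ d d').2 h)
    · exact ConeGood.same_pow s₂ (sS s₁ s₂) (fun x => Sum.inl (Sum.inr x))
        (fun x => st (sS s₁ s₂) (Sum.inl (Sum.inr x))) ((h₂ d d').2 h)
    · rw [h]
    · have hs : ∀ c : Bool, (sS s₁ s₂).SameCycle (Sum.inr (c, true)) (Sum.inr (!c, true)) :=
        fun c => st (sS s₁ s₂) (Sum.inr (c, true))
      by_cases hc : c = c'
      · rw [hc]
      · have hc' : c' = !c := by
          revert hc
          cases c <;> cases c' <;> simp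
        rw [hc']
        exact hs c

end JoinAux

open JoinAux

/-- planarity as in `cone_good'` (there the new root is joined to one vertex of every component) -/
theorem join_good {G H : RG} (hG : G.IsGood) (hH : H.IsGood) : (join G H).IsGood := by
  refine ⟨?_, ?_, ?_, ?_, ?_, ?_⟩
  · rintro ((d | d) | ⟨c, _ | _⟩)
    · rw [a_l, a_l, hG.inv]
    · rw [a_r, a_r, hH.inv]
    · rw [a_f, a_t]
    · rw [a_t, a_f]
  · rintro ((d | d) | ⟨c, _ | _⟩)
    · rw [a_l]
      intro h
      exact hG.fpf d (Sum.inl.inj (Sum.inl.inj h))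
    · rw [a_r]
      intro h
      exact hH.fpf d (Sum.inr.inj (Sum.inl.inj h))
    · rw [a_f]
      intro h
      simpa using congrArg Prod.snd (Sum.inr.inj h)
    · rw [a_t]
      intro h
      simpa using congrArg Prod.snd (Sum.inr.inj h)
  · rintro ((d | d) | ⟨c, _ | _⟩)
    · rw [a_l, inc_l, inc_l]
      intro h
      exact hG.loop d (Sum.inl.inj (Option.some.inj h))
    · rw [a_r, inc_r, inc_r]
      intro h
      exact hH.loop d (Sum.inr.inj (Option.some.inj h))
    · rw [a_f, inc_t]
      cases c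
      · rw [inc_ff]; exact fun h => nomatch h
      · rw [inc_tf]; exact fun h => nomatch h
    · rw [a_t, inc_t]
      cases c
      · rw [inc_ff]; exact fun h => nomatch h
      · rw [inc_tf]; exact fun h => nomatch h
  · rintro ((d | d) | ⟨c, _ | _⟩) ((d' | d') | ⟨c', _ | _⟩) h1 h2
    · rw [inc_l, inc_l] at h1
      rw [a_l, a_l, inc_l, inc_l] at h2
      rw [hG.simp d d' (Sum.inl.inj (Option.some.inj h1)) (Sum.inl.inj (Option.some.inj h2))]
    · rw [inc_l, inc_r] at h1
      exact nomatch h1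
    · rw [a_l, a_f, inc_l, inc_t] at h2
      exact nomatch h2
    · rw [inc_l, inc_t] at h1
      exact nomatch h1
    · rw [inc_l, inc_r] at h1
      exact nomatch h1
    · rw [inc_r, inc_r] at h1
      rw [a_r, a_r, inc_r, inc_r] at h2
      rw [hH.simp d d' (Sum.inr.inj (Option.some.inj h1)) (Sum.inr.inj (Option.some.inj h2))]
    · rw [a_r, a_f, inc_r, inc_t] at h2
      exact nomatch h2
    · rw [inc_r, inc_t] at h1
      exact nomatch h1
    · rw [a_l, a_f, inc_l, inc_t] at h2
      exact nomatch h2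
    · rw [a_r, a_f, inc_r, inc_t] at h2
      exact nomatch h2
    · cases c <;> cases c'
      · rfl
      · rw [inc_tf, inc_ff] at h1
        exact nomatch h1
      · rw [inc_tf, inc_ff] at h1
        exact nomatch h1
      · rfl
    · cases c
      · rw [inc_ff, inc_t] at h1; exact nomatch h1
      · rw [inc_tf, inc_t] at h1; exact nomatch h1
    · rw [inc_l, inc_t] at h1
      exact nomatch h1
    · rw [inc_r, inc_t] at h1
      exact nomatch h1
    · cases c'
      · rw [inc_ff, inc_t] at h1; exact nomatch h1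
      · rw [inc_tf, inc_t] at h1; exact nomatch h1
    · rw [a_t, a_t] at h2
      cases c <;> cases c'
      · rfl
      · rw [inc_tf, inc_ff] at h2
        exact nomatch h2
      · rw [inc_tf, inc_ff] at h2
        exact nomatch h2
      · rfl
  · intro X h0 hX
    by_cases hg : (some (Sum.inl G.v0) : (join G H).V) ∈ X
    · by_cases hh : (some (Sum.inr H.v0) : (join G H).V) ∈ X
      · have : ∃ v : (join G H).V, v ∉ X := by
          by_contra hcon
          push Not at hcon
          exact hX (eq_univ_iff_forall.2 hcon)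
        obtain ⟨v, hv⟩ := this
        rcases v with _ | (x | y)
        · exact absurd h0 hv
        · obtain ⟨d, hd1, hd2⟩ := hG.conn
            (univ.filter fun x => (some (Sum.inl x) : (join G H).V) ∈ X)
            (by rw [mem_filter]; exact ⟨mem_univ _, hg⟩)
            (by
              intro hu
              exact hv (mem_filter.1 ((Finset.ext_iff.1 hu x).2 (mem_univ _))).2)
          rw [mem_filter] at hd1 hd2
          exact ⟨Sum.inl (Sum.inl d), hd1.2, fun h => hd2 ⟨mem_univ _, h⟩⟩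
        · obtain ⟨d, hd1, hd2⟩ := hH.conn
            (univ.filter fun x => (some (Sum.inr x) : (join G H).V) ∈ X)
            (by rw [mem_filter]; exact ⟨mem_univ _, hh⟩)
            (by
              intro hu
              exact hv (mem_filter.1 ((Finset.ext_iff.1 hu y).2 (mem_univ _))).2)
          rw [mem_filter] at hd1 hd2
          exact ⟨Sum.inl (Sum.inr d), hd1.2, fun h => hd2 ⟨mem_univ _, h⟩⟩
      · exact ⟨Sum.inr (false, true), h0, hh⟩
    · exact ⟨Sum.inr (true, true), h0, hg⟩
  · obtain ⟨s₁, h₁, p₁⟩ := hG.planar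
    obtain ⟨s₂, h₂, p₂⟩ := hH.planar
    let T := (G.D ⊕ H.D) ⊕ (Bool × Bool)
    let J := {b : Bool // (b = true ∧ Nonempty G.D) ∨ (b = false ∧ Nonempty H.D)}
    have hK := KK_iff h₁ h₂
    have hplS : Pl (join G H).a (sS s₁ s₂) := pl_sum (pl_sum p₁ p₂) pl_s0
    let pr : T → Option J := fun t => match t with
      | Sum.inl (Sum.inl d) => some ⟨true, Or.inl ⟨rfl, ⟨d⟩⟩⟩
      | Sum.inl (Sum.inr d) => some ⟨false, Or.inr ⟨rfl, ⟨d⟩⟩⟩
      | Sum.inr _ => none
    let n : J → T := fun j => Sum.inr (j.1, false)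
    have hdex : ∀ j : J, ∃ t : T, pr t = some j ∧ (join G H).inc t = (join G H).inc (n j) := by
      rintro ⟨b, ⟨hb, ⟨d⟩⟩ | ⟨hb, ⟨d⟩⟩⟩
      · subst hb
        obtain ⟨x, hx⟩ := root_dart hG d
        refine ⟨Sum.inl (Sum.inl x), rfl, ?_⟩
        rw [inc_l, hx]
        rfl
      · subst hb
        obtain ⟨x, hx⟩ := root_dart hH d
        refine ⟨Sum.inl (Sum.inr x), rfl, ?_⟩
        rw [inc_r, hx]
        rfl
    choose d hd hdi using hdex
    have hpa : ∀ t : T, pr ((join G H).a t) = pr t := by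
      rintro ((d | d) | ⟨c, _ | _⟩) <;> rfl
    have hps : ∀ t : T, pr (sS s₁ s₂ t) = pr t := by
      rintro ((d | d) | ⟨c, _ | _⟩) <;> rfl
    have hn : ∀ j, pr (n j) = none := fun j => rfl
    have hni : ∀ j j', (sS s₁ s₂).SameCycle (n j) (n j') → j = j' := by
      intro j j' h
      rw [hK] at h
      have h5 : (Sum.inr (some j.1) : (G.V ⊕ H.V) ⊕ Option Bool) = Sum.inr (some j'.1) := h
      exact Subtype.ext (Option.some.inj (Sum.inr.inj h5))
    have hinvJ : ∀ t, (join G H).a ((join G H).a t) = t := by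
      rintro ((d | d) | ⟨c, _ | _⟩)
      · rw [a_l, a_l, hG.inv]
      · rw [a_r, a_r, hH.inv]
      · rw [a_f, a_t]
      · rw [a_t, a_f]
    obtain ⟨s', e1, e2, e3, e4⟩ := exists_glue (s := sS s₁ s₂) pr hps n d hn hd hni
    refine ⟨s', ?_, ?_⟩
    · -- the incidence is a function of `KK`
      let ρ : (G.V ⊕ H.V) ⊕ Option Bool → (join G H).V := fun z => match z with
        | Sum.inl v => some v
        | Sum.inr none => none
        | Sum.inr (some b) => some (bif b then Sum.inl G.v0 else Sum.inr H.v0)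
      have hρ : ∀ t : T, (join G H).inc t = ρ (KK G H t) := by
        rintro ((d | d) | ⟨c, _ | _⟩) <;> rfl
      have hsome : ∀ (t : T) (j : J), pr t = some j → ∀ w, (join G H).inc t = some w →
          KK G H t = Sum.inl w := by
        rintro ((d | d) | c) j hj w hw
        · exact congrArg Sum.inl (Option.some.inj hw)
        · exact congrArg Sum.inl (Option.some.inj hw)
        · exact nomatch hj
      -- the key case
      have key : ∀ (b : Bool) (t' : T) (v : G.V ⊕ H.V), KK G H t' = Sum.inl v →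
          some v = (some (bif b then Sum.inl G.v0 else Sum.inr H.v0) : (join G H).V) →
          ∃ j : J, KK G H (Sum.inr (b, false)) = KK G H (n j) ∧ KK G H t' = KK G H (d j) := by
        intro b t' v ht' hv
        have hv' := Option.some.inj hv
        have hjex : ∃ j : J, j.1 = b := by
          cases b
          · refine ⟨⟨false, Or.inr ⟨rfl, ?_⟩⟩, rfl⟩
            rcases t' with (x | x) | ⟨c, _ | _⟩
            · rw [hv'] at ht'
              simp [KK] at ht'
            · exact ⟨x⟩
            · simp [KK] at ht'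
            · simp [KK] at ht'
          · refine ⟨⟨true, Or.inl ⟨rfl, ?_⟩⟩, rfl⟩
            rcases t' with (x | x) | ⟨c, _ | _⟩
            · exact ⟨x⟩
            · rw [hv'] at ht'
              simp [KK] at ht'
            · simp [KK] at ht'
            · simp [KK] at ht'
        obtain ⟨j, hj⟩ := hjex
        refine ⟨j, by rw [← hj], ?_⟩
        have e5 : (join G H).inc (d j) = some v := by
          rw [hdi, hv, ← hj]
          rfl
        rw [hsome (d j) j (hd j) v e5, ht']
      intro t t'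
      refine (e4 t t').trans ?_
      rw [hK]
      constructor
      · rintro (h | ⟨j, h5, h6⟩ | ⟨j, h5, h6⟩)
        · rw [hρ, hρ, h]
        · rw [hK] at h5 h6
          rw [hρ, hρ, h5, h6, ← hρ, ← hρ, hdi]
        · rw [hK] at h5 h6
          rw [hρ, hρ, h5, h6, ← hρ, ← hρ, hdi]
      · intro h
        rw [hρ, hρ] at h
        rcases hz : KK G H t with v | (_ | b) <;> rcases hz' : KK G H t' with v' | (_ | b')
        · left
          rw [hz, hz'] at h
          rw [show v = v' from Option.some.inj h]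
        · rw [hz, hz'] at h
          exact absurd h (by simp [ρ])
        · right; right
          rw [hz, hz'] at h
          obtain ⟨j, h5, h6⟩ := key b' t v hz h
          refine ⟨j, ?_, ?_⟩
          · rw [hK]; exact h6
          · rw [hK, hz']
            exact h5
        · rw [hz, hz'] at h
          exact absurd h (by simp [ρ])
        · left; rfl
        · rw [hz, hz'] at h
          exact absurd h (by simp [ρ])
        · right; left
          rw [hz, hz'] at h
          obtain ⟨j, h5, h6⟩ := key b t' v' hz' h.symm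
          refine ⟨j, ?_, ?_⟩
          · rw [hK, hz]
            exact h5
          · rw [hK]; exact h6
        · rw [hz, hz'] at h
          exact absurd h (by simp [ρ])
        · left
          rw [hz, hz'] at h
          have h7 := Option.some.inj h
          cases b <;> cases b' <;> simp at h7 ⊢
    · refine Pl.glue hinvJ hplS pr hpa hps n d hn hd ?_ e1 e2 e3
      intro j j' h
      have h5 : (j.1, false) = (j'.1, false) := Sum.inr.inj h
      exact Subtype.ext (congrArg Prod.fst h5)

theorem join_size (G H : RG) : (join G H).size = G.size + H.size + 1 := by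
  change Fintype.card (Option (G.V ⊕ H.V)) = Fintype.card G.V + Fintype.card H.V + 1
  rw [Fintype.card_option, Fintype.card_sum]

namespace JoinAux

variable {G H G' H' : RG}

/-- isomorphisms of joins mapping the root dart `c` to the root dart `c'` -/
def PI (G H G' H' : RG) (c c' : Bool) : Prop :=
  ∃ (e : (join G H).D ≃ (join G' H').D) (f : (join G H).V ≃ (join G' H').V),
    (∀ d, e ((join G H).a d) = (join G' H').a (e d)) ∧
    (∀ d, f ((join G H).inc d) = (join G' H').inc (e d)) ∧ f none = none ∧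
    e (Sum.inr (c, true)) = Sum.inr (c', true)

theorem PI.symm {c c' : Bool} (h : PI G H G' H' c c') : PI G' H' G H c' c := by
  obtain ⟨e, f, h1, h2, h3, h4⟩ := h
  refine ⟨e.symm, f.symm, fun d => ?_, fun d => ?_, ?_, ?_⟩
  · rw [Equiv.symm_apply_eq, h1, Equiv.apply_symm_apply]
  · rw [Equiv.symm_apply_eq, h2, Equiv.apply_symm_apply]
  · rw [Equiv.symm_apply_eq]; exact h3.symm
  · rw [Equiv.symm_apply_eq]; exact h4.symm

/-- exchange of the two graphs: darts -/
def sw (G H : RG) : (G.D ⊕ H.D) ⊕ (Bool × Bool) ≃ (H.D ⊕ G.D) ⊕ (Bool × Bool) :=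
  Equiv.sumCongr (Equiv.sumComm _ _) (Equiv.prodCongr Equiv.boolNot (Equiv.refl _))

/-- exchange of the two graphs: vertices -/
def sv (G H : RG) : Option (G.V ⊕ H.V) ≃ Option (H.V ⊕ G.V) :=
  Equiv.optionCongr (Equiv.sumComm _ _)

theorem sw_a (d : (join G H).D) : sw G H ((join G H).a d) = (join H G).a (sw G H d) := by
  rcases d with (d | d) | ⟨c, b⟩ <;> rfl

theorem sw_inc (d : (join G H).D) : sv G H ((join G H).inc d) = (join H G).inc (sw G H d) := by
  rcases d with (d | d) | ⟨_ | _, _ | _⟩ <;> rfl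

theorem PI.right {c c' : Bool} (h : PI G H G' H' c c') : PI G H H' G' c (!c') := by
  obtain ⟨e, f, h1, h2, h3, h4⟩ := h
  refine ⟨e.trans (sw G' H'), f.trans (sv G' H'), fun d => ?_, fun d => ?_, ?_, ?_⟩
  · change sw G' H' (e ((join G H).a d)) = (join H' G').a (sw G' H' (e d))
    rw [h1, sw_a]
  · change sv G' H' (f ((join G H).inc d)) = (join H' G').inc (sw G' H' (e d))
    rw [h2, sw_inc]
  · change sv G' H' (f none) = none
    rw [h3]
    rfl
  · change sw G' H' (e (Sum.inr (c, true))) = Sum.inr (!c', true)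
    rw [h4]
    rfl

theorem PI.left {c c' : Bool} (h : PI G H G' H' c c') : PI H G G' H' (!c) c' := h.symm.right.symm

theorem PI.other {c c' : Bool} (h : PI G H G' H' c c') : PI G H G' H' (!c) (!c') := by
  obtain ⟨e, f, h1, h2, h3, h4⟩ := h
  refine ⟨e, f, h1, h2, h3, ?_⟩
  have h5 := h2 (Sum.inr (!c, true))
  rw [inc_t, h3] at h5
  rcases h6 : e (Sum.inr (!c, true)) with (d | d) | ⟨c₁, _ | _⟩
  · rw [h6, inc_l] at h5
    exact nomatch h5
  · rw [h6, inc_r] at h5
    exact nomatch h5
  · rw [h6] at h5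
    cases c₁
    · rw [inc_ff] at h5
      exact nomatch h5
    · rw [inc_tf] at h5
      exact nomatch h5
  · have h7 : c₁ ≠ c' := by
      rintro rfl
      have h8 := e.injective (h6.trans h4.symm)
      have h9 : (!c) = c := congrArg Prod.fst (Sum.inr.inj h8)
      revert h9
      cases c <;> simp
    have h8 : c₁ = !c' := by
      revert h7
      cases c₁ <;> cases c' <;> simp
    rw [h8]

theorem PI.side (hG : G.IsGood) (e : (join G H).D ≃ (join G' H').D)
    (f : (join G H).V ≃ (join G' H').V) (h1 : ∀ d, e ((join G H).a d) = (join G' H').a (e d))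
    (h2 : ∀ d, f ((join G H).inc d) = (join G' H').inc (e d))
    (h4 : e (Sum.inr (true, true)) = Sum.inr (true, true)) :
    (∀ x : G.V, ∃ x' : G'.V, f (some (Sum.inl x)) = some (Sum.inl x')) ∧
      (∀ d : G.D, ∃ d' : G'.D, e (Sum.inl (Sum.inl d)) = Sum.inl (Sum.inl d')) := by
  have h5 : e (Sum.inr (true, false)) = Sum.inr (true, false) := by
    have := h1 (Sum.inr (true, true))
    rw [h4, a_t, a_t] at this
    exact this
  have h6 : f (some (Sum.inl G.v0)) = some (Sum.inl G'.v0) := by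
    have := h2 (Sum.inr (true, false))
    rw [h5, inc_tf, inc_tf] at this
    exact this
  have step : ∀ (d : G.D) (x' : G'.V), f (some (Sum.inl (G.inc d))) = some (Sum.inl x') →
      ∃ d' : G'.D, e (Sum.inl (Sum.inl d)) = Sum.inl (Sum.inl d') := by
    intro d x' hx'
    have h7 := h2 (Sum.inl (Sum.inl d))
    rw [inc_l, hx'] at h7
    rcases h8 : e (Sum.inl (Sum.inl d)) with (d' | d') | ⟨c, _ | _⟩
    · exact ⟨d', rfl⟩
    · rw [h8, inc_r] at h7
      exact nomatch h7
    · cases c
      · rw [h8, inc_ff] at h7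
        exact nomatch h7
      · have h9 := e.injective (h8.trans h5.symm)
        exact nomatch h9
    · rw [h8, inc_t] at h7
      exact nomatch h7
  have hV : ∀ x : G.V, ∃ x' : G'.V, f (some (Sum.inl x)) = some (Sum.inl x') := by
    by_contra hcon
    push Not at hcon
    obtain ⟨x, hx⟩ := hcon
    obtain ⟨d, hd1, hd2⟩ := hG.conn
      (univ.filter fun x : G.V => ∃ x' : G'.V, f (some (Sum.inl x)) = some (Sum.inl x'))
      (by rw [mem_filter]; exact ⟨mem_univ _, _, h6⟩)
      (by
        intro hu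
        obtain ⟨x', hx'⟩ := (mem_filter.1 ((Finset.ext_iff.1 hu x).2 (mem_univ _))).2
        exact hx x' hx')
    rw [mem_filter] at hd1 hd2
    obtain ⟨-, x', hx'⟩ := hd1
    obtain ⟨d', hd'⟩ := step d x' hx'
    apply hd2
    refine ⟨mem_univ _, G'.inc (G'.a d'), ?_⟩
    have h7 := h2 ((join G H).a (Sum.inl (Sum.inl d)))
    rw [h1, hd', a_l, a_l, inc_l, inc_l] at h7
    exact h7
  refine ⟨hV, fun d => ?_⟩
  obtain ⟨x', hx'⟩ := hV (G.inc d)
  exact step d x' hx'

theorem PI.half (hG : G.IsGood) (hG' : G'.IsGood) (h : PI G H G' H' true true) : RIso G G' := by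
  obtain ⟨e, f, h1, h2, h3, h4⟩ := h
  obtain ⟨hV, hD⟩ := PI.side hG e f h1 h2 h4
  obtain ⟨hV', hD'⟩ := PI.side (G := G') (H := H') (G' := G) (H' := H) hG' e.symm f.symm
    (fun d => by rw [Equiv.symm_apply_eq, h1, Equiv.apply_symm_apply])
    (fun d => by rw [Equiv.symm_apply_eq, h2, Equiv.apply_symm_apply])
    (by rw [Equiv.symm_apply_eq]; exact h4.symm)
  choose φ hφ using hV
  choose ψ hψ using hV'
  choose φD hφD using hD
  choose ψD hψD using hD'
  have il : ∀ x y : G.V, (some (Sum.inl x) : Option (G.V ⊕ H.V)) = some (Sum.inl y) → x = y :=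
    fun x y h => Sum.inl.inj (Option.some.inj h)
  have il' : ∀ x y : G'.V, (some (Sum.inl x) : Option (G'.V ⊕ H'.V)) = some (Sum.inl y) → x = y :=
    fun x y h => Sum.inl.inj (Option.some.inj h)
  have iD : ∀ x y : G.D, (Sum.inl (Sum.inl x) : (G.D ⊕ H.D) ⊕ (Bool × Bool)) =
      Sum.inl (Sum.inl y) → x = y := fun x y h => Sum.inl.inj (Sum.inl.inj h)
  have iD' : ∀ x y : G'.D, (Sum.inl (Sum.inl x) : (G'.D ⊕ H'.D) ⊕ (Bool × Bool)) =
      Sum.inl (Sum.inl y) → x = y := fun x y h => Sum.inl.inj (Sum.inl.inj h)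
  let E : G.D ≃ G'.D := ⟨φD, ψD, fun d => iD _ _ ((hψD (φD d)).symm.trans
      ((Equiv.symm_apply_eq e).2 (hφD d).symm)), fun d => iD' _ _ ((hφD (ψD d)).symm.trans
      ((Equiv.symm_apply_eq e).1 (hψD d)).symm)⟩
  let F : G.V ≃ G'.V := ⟨φ, ψ, fun d => il _ _ ((hψ (φ d)).symm.trans
      ((Equiv.symm_apply_eq f).2 (hφ d).symm)), fun d => il' _ _ ((hφ (ψ d)).symm.trans
      ((Equiv.symm_apply_eq f).1 (hψ d)).symm)⟩
  refine ⟨E, F, fun d => ?_, fun d => ?_, ?_⟩
  · apply iD'
    change Sum.inl (Sum.inl (φD (G.a d))) = Sum.inl (Sum.inl (G'.a (φD d)))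
    have h5 := h1 (Sum.inl (Sum.inl d))
    rw [a_l, hφD, hφD, a_l] at h5
    exact h5
  · apply il'
    have h5 := h2 (Sum.inl (Sum.inl d))
    rw [inc_l, hφD, inc_l] at h5
    exact (hφ (G.inc d)).symm.trans h5
  · apply il'
    have h5 : e (Sum.inr (true, false)) = Sum.inr (true, false) := by
      have := h1 (Sum.inr (true, true))
      rw [h4, a_t, a_t] at this
      exact this
    have h6 := h2 (Sum.inr (true, false))
    rw [h5, inc_tf, inc_tf] at h6
    exact (hφ G.v0).symm.trans h6

end JoinAux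

/-- the two graphs are the components after deleting the root -/
theorem join_inj {G H G' H' : RG} (hG : G.IsGood) (hH : H.IsGood) (hG' : G'.IsGood)
    (hH' : H'.IsGood) (h : RIso (join G H) (join G' H')) :
    (RIso G G' ∧ RIso H H') ∨ (RIso G H' ∧ RIso H G') := by
  have hP : ∃ c, PI G H G' H' true c := by
    obtain ⟨e, f, h1, h2, h3⟩ := h
    have h5 := h2 (Sum.inr (true, true))
    have h3' : f none = none := h3
    rw [inc_t, h3'] at h5
    rcases h6 : e (Sum.inr (true, true)) with (d | d) | ⟨c₁, _ | _⟩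
    · rw [h6, inc_l] at h5
      exact nomatch h5
    · rw [h6, inc_r] at h5
      exact nomatch h5
    · rw [h6] at h5
      cases c₁
      · rw [inc_ff] at h5
        exact nomatch h5
      · rw [inc_tf] at h5
        exact nomatch h5
    · exact ⟨c₁, e, f, h1, h2, h3, h6⟩
  obtain ⟨c, hP⟩ := hP
  cases c
  · right
    exact ⟨hP.right.half hG hH', hP.other.left.half hH hG'⟩
  · left
    exact ⟨hP.half hG hG', hP.other.left.right.half hH hH'⟩

theorem rr_mul_le (m n : ℕ) : rr m * rr n ≤ 2 * rr (m + n + 1) := by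
  rw [← rcount_eq, ← rcount_eq, ← rcount_eq]
  unfold rcount
  have := rc_finite m
  have := rc_finite n
  have := rc_finite (m + n + 1)
  have hbool : Nat.card Bool = 2 := by simp
  rw [← Nat.card_prod, ← hbool, ← Nat.card_prod]
  let F : {c : RC // c.rep.1.size = m} × {c : RC // c.rep.1.size = n} →
      {c : RC // c.rep.1.size = m + n + 1} := fun p =>
    ⟨Quotient.mk rSetoid ⟨join p.1.1.rep.1 p.2.1.rep.1, join_good p.1.1.rep.2 p.2.1.rep.2⟩, by
      rw [RCount_size, join_size, p.1.2, p.2.2]⟩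
  have hF : ∀ p p', F p = F p' → p = p' ∨ (p.1.1 = p'.2.1 ∧ p.2.1 = p'.1.1) := by
    intro p p' h
    have h1 : RIso (join p.1.1.rep.1 p.2.1.rep.1) (join p'.1.1.rep.1 p'.2.1.rep.1) :=
      Quotient.exact (congrArg Subtype.val h)
    have hq : ∀ {c c' : RC}, RIso c.rep.1 c'.rep.1 → c = c' := by
      intro c c' hc
      rw [← Quotient.out_eq c, ← Quotient.out_eq c']
      exact Quotient.sound hc
    rcases join_inj p.1.1.rep.2 p.2.1.rep.2 p'.1.1.rep.2 p'.2.1.rep.2 h1 with ⟨h2, h3⟩ | ⟨h2, h3⟩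
    · left
      exact Prod.ext (Subtype.ext (hq h2)) (Subtype.ext (hq h3))
    · right
      exact ⟨hq h2, hq h3⟩
  refine Nat.card_le_card_of_injective (fun p => ((decide (p =
    (⟨p, rfl⟩ : ∃ p', F p' = F p).choose)), F p)) ?_
  intro p p' h
  have h1 : decide (p = (⟨p, rfl⟩ : ∃ q, F q = F p).choose) =
    decide (p' = (⟨p', rfl⟩ : ∃ q, F q = F p').choose) := congrArg Prod.fst h
  have h2 : F p = F p' := congrArg Prod.snd h
  have h3 : (⟨p, rfl⟩ : ∃ q, F q = F p).choose = (⟨p', rfl⟩ : ∃ q, F q = F p').choose := by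
    congr 1
    funext q
    rw [h2]
  have h4 : F (⟨p, rfl⟩ : ∃ q, F q = F p).choose = F p := (⟨p, rfl⟩ : ∃ q, F q = F p).choose_spec
  rw [← h3] at h1
  set r := (⟨p, rfl⟩ : ∃ q, F q = F p).choose with hr
  by_cases h5 : p = r
  · have h6 : p' = r := by
      by_contra h7
      rw [decide_eq_true h5, decide_eq_false h7] at h1
      exact absurd h1 (by simp)
    rw [h5, h6]
  · have h6 : p' ≠ r := by
      intro h7
      rw [decide_eq_false h5, decide_eq_true h7] at h1
      exact absurd h1 (by simp)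
    have h7 := (hF p r h4.symm).resolve_left h5
    have h8 := (hF p' r (h2.symm.trans h4.symm)).resolve_left h6
    exact Prod.ext (Subtype.ext (h7.1.trans h8.1.symm)) (Subtype.ext (h7.2.trans h8.2.symm))

end PGr

end

section
/-! # Module RIneq: inequalities between the counting sequences -/

set_option linter.unusedSectionVars false

namespace PGr
open Equiv Finset
open scoped ENNReal Classical

/-- the isomorphism from the representative of the class -/
theorem RIneq_iso {n : ℕ} (G : {G : SimpleGraph (Fin n) // IsPlanar G}) :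
    Nonempty (G.1 ≃g (Quotient.mk (pSetoid n) G).out.1) := by
  have h : (pSetoid n).r (Quotient.mk (pSetoid n) G).out G :=
    Quotient.exact (s := pSetoid n) (Quotient.out_eq _)
  obtain ⟨f⟩ := h
  exact ⟨f.symm⟩

/-- every connected planar graph has at most `n` choices of the root -/
theorem rr_le (n : ℕ) : rr n ≤ n * u n := by
  have hfin : Finite (Quotient (pSetoid n)) := inferInstance
  let P : Quotient (rpSetoid n) → {G : SimpleGraph (Fin n) // IsPlanar G} :=
    fun q => ⟨q.out.1.1, q.out.2.2⟩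
  let F : Quotient (rpSetoid n) → Fin n × Quotient (pSetoid n) := fun q =>
    ((Classical.choice (RIneq_iso (P q))) q.out.1.2, Quotient.mk (pSetoid n) (P q))
  have hF : Function.Injective F := by
    intro q q' h
    have h1 : (Classical.choice (RIneq_iso (P q))) q.out.1.2 =
      (Classical.choice (RIneq_iso (P q'))) q'.out.1.2 := congrArg Prod.fst h
    have h2 : Quotient.mk (pSetoid n) (P q) = Quotient.mk (pSetoid n) (P q') :=
      congrArg Prod.snd h
    generalize hf : Classical.choice (RIneq_iso (P q)) = f at h1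
    generalize hf' : Classical.choice (RIneq_iso (P q')) = f' at h1
    clear hf hf' h
    have key : ∃ g : q.out.1.1 ≃g q'.out.1.1, g q.out.1.2 = q'.out.1.2 := by
      revert f f'
      rw [← h2]
      intro f f' h1
      refine ⟨f.trans f'.symm, ?_⟩
      change f'.symm (f q.out.1.2) = _
      rw [h1]
      exact f'.symm_apply_apply _
    obtain ⟨g, hg⟩ := key
    have h3 : (rpSetoid n).r q.out q'.out := ⟨g, hg⟩
    have h4 := Quotient.sound (s := rpSetoid n) h3
    rwa [Quotient.out_eq, Quotient.out_eq] at h4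
  have h5 := Nat.card_le_card_of_injective F hF
  rw [Nat.card_prod, Nat.card_eq_fintype_card (α := Fin n), Fintype.card_fin] at h5
  exact h5

/-- the cone: `cone_good`, `cone_size`, `cone_inj` -/
theorem u_le_rr (n : ℕ) : u n ≤ rr (n + 1) := by
  have := rc_finite (n + 1)
  rw [← rcount_eq]
  let F : Quotient (pSetoid n) → {c : RC // c.rep.1.size = n + 1} := fun q =>
    ⟨Quotient.mk rSetoid ⟨cone q.out.1, cone_good q.out.2⟩, by
      rw [RCount_size, cone_size, Fintype.card_fin]⟩
  have hF : Function.Injective F := by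
    intro q q' h
    have h2 : RIso (cone q.out.1) (cone q'.out.1) := Quotient.exact (congrArg Subtype.val h)
    have h4 := Quotient.sound (s := pSetoid n) (cone_inj h2 : (pSetoid n).r q.out q'.out)
    rwa [Quotient.out_eq, Quotient.out_eq] at h4
  exact Nat.card_le_card_of_injective F hF

theorem RIneq_iso' {n : ℕ} (G : RPl n) :
    ∃ f : G.1.1 ≃g (Quotient.mk (rpSetoid n) G).out.1.1,
      f G.1.2 = (Quotient.mk (rpSetoid n) G).out.1.2 := by
  have h : (rpSetoid n).r (Quotient.mk (rpSetoid n) G).out G :=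
    Quotient.exact (s := rpSetoid n) (Quotient.out_eq _)
  exact (rpSetoid n).symm h

/-- an arc is given by its first vertex and one of the `n` vertices -/
theorem bb_le (n : ℕ) : bb n ≤ n * rr n := by
  let P : Quotient (apSetoid n) → RPl n :=
    fun q => ⟨(q.out.1.1, q.out.1.2.1), q.out.2.1, q.out.2.2.1⟩
  let F : Quotient (apSetoid n) → Fin n × Quotient (rpSetoid n) := fun q =>
    ((Classical.choose (RIneq_iso' (P q))) q.out.1.2.2, Quotient.mk (rpSetoid n) (P q))
  have hF : Function.Injective F := by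
    intro q q' h
    have h1 : (Classical.choose (RIneq_iso' (P q))) q.out.1.2.2 =
      (Classical.choose (RIneq_iso' (P q'))) q'.out.1.2.2 := congrArg Prod.fst h
    have h2 : Quotient.mk (rpSetoid n) (P q) = Quotient.mk (rpSetoid n) (P q') :=
      congrArg Prod.snd h
    have hs : (Classical.choose (RIneq_iso' (P q))) q.out.1.2.1 =
      (Quotient.mk (rpSetoid n) (P q)).out.1.2 := Classical.choose_spec (RIneq_iso' (P q))
    have hs' : (Classical.choose (RIneq_iso' (P q'))) q'.out.1.2.1 =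
      (Quotient.mk (rpSetoid n) (P q')).out.1.2 := Classical.choose_spec (RIneq_iso' (P q'))
    generalize hf : Classical.choose (RIneq_iso' (P q)) = f at h1 hs
    generalize hf' : Classical.choose (RIneq_iso' (P q')) = f' at h1 hs'
    clear hf hf' h
    have key : ∃ g : q.out.1.1 ≃g q'.out.1.1, g q.out.1.2.1 = q'.out.1.2.1 ∧
        g q.out.1.2.2 = q'.out.1.2.2 := by
      revert f f'
      rw [← h2]
      intro f hs f' h1 hs'
      refine ⟨f.trans f'.symm, ?_, ?_⟩
      · change f'.symm (f q.out.1.2.1) = _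
        rw [hs, ← hs']
        exact f'.symm_apply_apply _
      · change f'.symm (f q.out.1.2.2) = _
        rw [h1]
        exact f'.symm_apply_apply _
    obtain ⟨g, hg, hg'⟩ := key
    have h3 : (apSetoid n).r q.out q'.out := ⟨g, hg, hg'⟩
    have h4 := Quotient.sound (s := apSetoid n) h3
    rwa [Quotient.out_eq, Quotient.out_eq] at h4
  have h5 := Nat.card_le_card_of_injective F hF
  rw [Nat.card_prod, Nat.card_eq_fintype_card (α := Fin n), Fintype.card_fin] at h5
  exact h5

theorem RIneq_upos (n : ℕ) : 0 < u n := by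
  have hfin : Finite (Quotient (pSetoid n)) := inferInstance
  have hne : Nonempty (Quotient (pSetoid n)) :=
    ⟨Quotient.mk (pSetoid n) ⟨⊥, RCount_bot_planar n⟩⟩
  exact Nat.card_pos

theorem rr_pos {n : ℕ} (h : 0 < n) : 0 < rr n := by
  obtain ⟨m, rfl⟩ := Nat.exists_eq_succ_of_ne_zero h.ne'
  exact lt_of_lt_of_le (RIneq_upos m) (u_le_rr m)

end PGr

end

section
/-! # Module Growth: the radius of convergence -/

set_option linter.unusedSectionVars false

namespace PGr
open Equiv Finset
open scoped ENNReal Classical Topology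

namespace Growth

/-- the shifted sequence -/
noncomputable def g (n : ℕ) : ℝ := (rr (n - 1) : ℝ) / 2

theorem g_ge {n : ℕ} (h : 2 ≤ n) : 1 / 2 ≤ g n := by
  unfold g
  have h1 : (1 : ℝ) ≤ (rr (n - 1) : ℝ) := by exact_mod_cast rr_pos (by omega)
  linarith

theorem g_pos {n : ℕ} (h : 2 ≤ n) : 0 < g n := by
  have := g_ge h
  linarith

theorem g_mul {m n : ℕ} (hm : 2 ≤ m) (hn : 2 ≤ n) : g m * g n ≤ g (m + n) := by
  have h1 := rr_mul_le (m - 1) (n - 1)
  have h2 : m - 1 + (n - 1) + 1 = m + n - 1 := by omega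
  rw [h2] at h1
  have h3 : (rr (m - 1) : ℝ) * rr (n - 1) ≤ 2 * rr (m + n - 1) := by exact_mod_cast h1
  unfold g
  linarith

theorem g_pow_mul {m : ℕ} (hm : 2 ≤ m) (k r : ℕ) (hr : 2 ≤ r) : g m ^ k * g r ≤ g (k * m + r) := by
  induction k with
  | zero => simp
  | succ k ih =>
    calc g m ^ (k + 1) * g r = g m * (g m ^ k * g r) := by ring
      _ ≤ g m * g (k * m + r) := mul_le_mul_of_nonneg_left ih (g_pos hm).le
      _ ≤ g (m + (k * m + r)) := g_mul hm (by omega)
      _ = g ((k + 1) * m + r) := by congr 1; ring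

/-- logarithms -/
noncomputable def q (n : ℕ) : ℝ := Real.log (g n) / n

theorem g_le (n : ℕ) (h : 2 ≤ n) : g n ≤ (277 / 10 : ℝ) ^ n * n := by
  have h1 : (rr (n - 1) : ℝ) ≤ ((n - 1 : ℕ) : ℝ) * u (n - 1) := by exact_mod_cast rr_le (n - 1)
  have h2 := u_bound (n - 1)
  have h3 : n - 1 + 1 = n := by omega
  rw [h3] at h2
  have h4 : ((n - 1 : ℕ) : ℝ) ≤ n := by exact_mod_cast Nat.sub_le n 1
  have h5 : (0 : ℝ) < (277 / 10 : ℝ) ^ n := by positivity
  have h6 : (0 : ℝ) ≤ ((n - 1 : ℕ) : ℝ) := by positivity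
  have h7 : (rr (n - 1) : ℝ) ≤ n * (47 / 1250 * (277 / 10) ^ n) := by
    refine h1.trans ?_
    exact mul_le_mul h4 h2 (by positivity) (by positivity)
  unfold g
  have h8 : (0 : ℝ) ≤ (277 / 10 : ℝ) ^ n * n := by positivity
  nlinarith

theorem q_le (n : ℕ) (h : 2 ≤ n) : q n ≤ Real.log (277 / 10) + 1 := by
  have hn : (0 : ℝ) < n := by
    have : 0 < n := by omega
    exact_mod_cast this
  unfold q
  rw [div_le_iff₀ hn]
  have h1 : Real.log (g n) ≤ Real.log ((277 / 10 : ℝ) ^ n * n) :=
    Real.log_le_log (g_pos h) (g_le n h)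
  rw [Real.log_mul (by positivity) hn.ne', Real.log_pow] at h1
  have h2 : Real.log n ≤ n := (Real.log_le_sub_one_of_pos hn).trans (by linarith)
  linarith

theorem bdd : BddAbove (q '' Set.Ici 2) :=
  ⟨Real.log (277 / 10) + 1, by
    rintro y ⟨n, hn, rfl⟩
    exact q_le n hn⟩

theorem nonempt : (q '' Set.Ici 2).Nonempty := ⟨q 2, 2, by simp, rfl⟩

/-- the supremum -/
noncomputable def L : ℝ := sSup (q '' Set.Ici 2)

theorem q_le_L {n : ℕ} (h : 2 ≤ n) : q n ≤ L := le_csSup bdd ⟨n, h, rfl⟩

theorem g_le_exp {n : ℕ} (h : 2 ≤ n) : g n ≤ Real.exp (L * n) := by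
  have h1 := q_le_L h
  have hn : (0 : ℝ) < n := by
    have : 0 < n := by omega
    exact_mod_cast this
  unfold q at h1
  rw [div_le_iff₀ hn] at h1
  calc g n = Real.exp (Real.log (g n)) := (Real.exp_log (g_pos h)).symm
    _ ≤ Real.exp (L * n) := Real.exp_le_exp.mpr h1

theorem q_lower {k n : ℕ} (hk : 2 ≤ k) (hn : 2 ≤ n) :
    q k - ((k + 2) * |q k| + Real.log 2) / n ≤ q n := by
  have hk0 : (0 : ℝ) < k := by
    have : 0 < k := by omega
    exact_mod_cast this
  have hn0 : (0 : ℝ) < n := by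
    have : 0 < n := by omega
    exact_mod_cast this
  set Q := (n - 2) / k with hQ
  set r := (n - 2) % k + 2 with hr
  have hnr : Q * k + r = n := by
    have := Nat.div_add_mod (n - 2) k
    rw [hr, hQ]
    rw [mul_comm]
    omega
  have hrk : r ≤ k + 2 := by
    have := Nat.mod_lt (n - 2) (show 0 < k by omega)
    omega
  have h1 := g_pow_mul hk Q r (by omega)
  rw [hnr] at h1
  have h2 : g k ^ Q * (1 / 2) ≤ g n :=
    (mul_le_mul_of_nonneg_left (g_ge (by omega)) (pow_pos (g_pos hk) _).le).trans h1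
  have h3 : Q * Real.log (g k) - Real.log 2 ≤ Real.log (g n) := by
    have h4 := Real.log_le_log (mul_pos (pow_pos (g_pos hk) _) (by norm_num)) h2
    rw [Real.log_mul (pow_pos (g_pos hk) _).ne' (by norm_num), Real.log_pow, Real.log_div
      (by norm_num) (by norm_num), Real.log_one] at h4
    linarith
  have h5 : Real.log (g k) = q k * k := by
    unfold q
    field_simp
  have h6 : (Q : ℝ) * k = n - r := by
    have : ((Q * k + r : ℕ) : ℝ) = n := by exact_mod_cast hnr
    push_cast at this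
    linarith
  have h7 : (n : ℝ) * q k - (k + 2) * |q k| ≤ Q * Real.log (g k) := by
    rw [h5]
    have : (Q : ℝ) * (q k * k) = (n - r) * q k := by rw [← h6]; ring
    rw [this]
    have h8 : (r : ℝ) ≤ k + 2 := by exact_mod_cast hrk
    have h9 : (r : ℝ) * q k ≤ (k + 2) * |q k| :=
      calc (r : ℝ) * q k ≤ r * |q k| := mul_le_mul_of_nonneg_left (le_abs_self _) (by positivity)
        _ ≤ (k + 2) * |q k| := mul_le_mul_of_nonneg_right h8 (abs_nonneg _)
    linarith
  have h10 : q n = Real.log (g n) / n := rfl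
  rw [h10, le_div_iff₀ hn0, sub_mul, div_mul_cancel₀ _ hn0.ne']
  linarith

theorem tendsto_q : Filter.Tendsto q Filter.atTop (𝓝 L) := by
  rw [tendsto_order]
  constructor
  · intro a ha
    obtain ⟨y, ⟨k, hk, rfl⟩, hy⟩ := exists_lt_of_lt_csSup nonempt ha
    have hk2 : 2 ≤ k := hk
    have h1 : Filter.Tendsto (fun n : ℕ => q k - ((k + 2) * |q k| + Real.log 2) / n)
        Filter.atTop (𝓝 (q k - 0)) :=
      tendsto_const_nhds.sub (tendsto_const_div_atTop_nhds_zero_nat _)
    rw [sub_zero] at h1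
    filter_upwards [h1.eventually (lt_mem_nhds hy), Filter.eventually_ge_atTop 2] with n hn hn2
    exact hn.trans_le (q_lower hk2 hn2)
  · intro a ha
    filter_upwards [Filter.eventually_ge_atTop 2] with n hn
    exact (q_le_L hn).trans_lt ha

theorem rr_eq (n : ℕ) : (rr n : ℝ) = 2 * g (n + 1) := by
  unfold g
  rw [Nat.add_sub_cancel]
  ring

theorem tendsto_log_rr :
    Filter.Tendsto (fun n : ℕ => Real.log (rr n) / n) Filter.atTop (𝓝 L) := by
  have h1 : Filter.Tendsto (fun n : ℕ => Real.log 2 / n + q (n + 1) * (1 + 1 / n))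
      Filter.atTop (𝓝 (0 + L * (1 + 0))) := by
    apply Filter.Tendsto.add (tendsto_const_div_atTop_nhds_zero_nat _)
    apply Filter.Tendsto.mul
    · exact tendsto_q.comp (Filter.tendsto_add_atTop_nat 1)
    · exact tendsto_const_nhds.add tendsto_one_div_atTop_nhds_zero_nat
  rw [add_zero, mul_one, zero_add] at h1
  refine h1.congr' ?_
  filter_upwards [Filter.eventually_ge_atTop 1] with n hn
  have hn0 : (0 : ℝ) < n := by exact_mod_cast hn
  rw [rr_eq, Real.log_mul (by norm_num) (g_pos (by omega)).ne']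
  unfold q
  push_cast
  field_simp

theorem u_pos {n : ℕ} (h : 0 < n) : 0 < u n := by
  have h1 := rr_le n
  have h2 := rr_pos h
  by_contra h3
  have h4 : u n = 0 := by omega
  rw [h4] at h1
  omega

theorem tendsto_log_u :
    Filter.Tendsto (fun n : ℕ => Real.log (u n) / n) Filter.atTop (𝓝 L) := by
  have hlow : Filter.Tendsto (fun n : ℕ => Real.log (rr n) / n - Real.log n / n)
      Filter.atTop (𝓝 (L - 0)) := by
    apply tendsto_log_rr.sub
    have := Real.isLittleO_log_id_atTop.tendsto_div_nhds_zero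
    exact this.comp tendsto_natCast_atTop_atTop
  rw [sub_zero] at hlow
  have hup : Filter.Tendsto (fun n : ℕ => Real.log (rr (n + 1)) / ((n + 1 : ℕ) : ℝ) * (1 + 1 / n))
      Filter.atTop (𝓝 (L * (1 + 0))) := by
    apply Filter.Tendsto.mul
    · exact tendsto_log_rr.comp (Filter.tendsto_add_atTop_nat 1)
    · exact tendsto_const_nhds.add tendsto_one_div_atTop_nhds_zero_nat
  rw [add_zero, mul_one] at hup
  refine tendsto_of_tendsto_of_tendsto_of_le_of_le' hlow hup ?_ ?_
  · filter_upwards [Filter.eventually_ge_atTop 1] with n hn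
    have hn0 : (0 : ℝ) < n := by exact_mod_cast hn
    have hr : (0 : ℝ) < rr n := by exact_mod_cast rr_pos hn
    have hu : (0 : ℝ) < u n := by exact_mod_cast u_pos hn
    rw [← sub_div]
    apply div_le_div_of_nonneg_right _ hn0.le
    have h1 : (rr n : ℝ) ≤ n * u n := by exact_mod_cast rr_le n
    have h2 := Real.log_le_log hr h1
    rw [Real.log_mul hn0.ne' hu.ne'] at h2
    linarith
  · filter_upwards [Filter.eventually_ge_atTop 1] with n hn
    have hn0 : (0 : ℝ) < n := by exact_mod_cast hn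
    have hu : (0 : ℝ) < u n := by exact_mod_cast u_pos hn
    have h1 : (u n : ℝ) ≤ rr (n + 1) := by exact_mod_cast u_le_rr n
    have h2 := Real.log_le_log hu h1
    have h3 : Real.log (rr (n + 1)) / ((n + 1 : ℕ) : ℝ) * (1 + 1 / n) =
        Real.log (rr (n + 1)) / n := by
      push_cast
      field_simp
    rw [h3]
    exact div_le_div_of_nonneg_right h2 hn0.le

theorem tendsto_u :
    Filter.Tendsto (fun n : ℕ => (u n : ℝ) ^ (1 / n : ℝ)) Filter.atTop (𝓝 (Real.exp L)) := by
  have h1 := (Real.continuous_exp.tendsto L).comp tendsto_log_u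
  refine h1.congr' ?_
  filter_upwards [Filter.eventually_ge_atTop 1] with n hn
  have hu : (0 : ℝ) < u n := by exact_mod_cast u_pos hn
  rw [Function.comp, Real.rpow_def_of_pos hu]
  congr 1
  ring

theorem rr_le_exp (n : ℕ) : (rr n : ℝ) ≤ 2 * Real.exp L * Real.exp L ^ n := by
  rcases Nat.eq_zero_or_pos n with h | h
  · subst h
    rw [rr_zero]
    simp
    positivity
  · rw [rr_eq, mul_assoc, ← pow_succ', ← Real.exp_nat_mul]
    have h1 := g_le_exp (n := n + 1) (by omega)
    have h2 : L * ((n + 1 : ℕ) : ℝ) = ((n + 1 : ℕ) : ℝ) * L := mul_comm _ _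
    rw [h2] at h1
    linarith

theorem tsum_sup {ι : Type*} (k : ι → ℕ) {ρ : ℝ} (hρ : 0 < ρ) (B : ℝ≥0∞)
    (h : ∀ x : ℝ, 0 < x → x < ρ → ∑' c, ENNReal.ofReal x ^ k c ≤ B) :
    ∑' c, ENNReal.ofReal ρ ^ k c ≤ B := by
  rw [ENNReal.tsum_eq_iSup_sum]
  refine iSup_le fun s => ?_
  have hc : Continuous fun x : ℝ => ∑ c ∈ s, ENNReal.ofReal x ^ k c := by
    apply continuous_finsetSum
    intro c _
    exact (ENNReal.continuous_pow _).comp ENNReal.continuous_ofReal
  have ht : Filter.Tendsto (fun x : ℝ => ∑ c ∈ s, ENNReal.ofReal x ^ k c) (𝓝[<] ρ)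
      (𝓝 (∑ c ∈ s, ENNReal.ofReal ρ ^ k c)) := (hc.tendsto ρ).mono_left nhdsWithin_le_nhds
  refine le_of_tendsto ht ?_
  have h1 : ∀ᶠ x in 𝓝[<] ρ, x ∈ Set.Ioo 0 ρ := Ioo_mem_nhdsLT hρ
  filter_upwards [h1] with x hx
  exact (ENNReal.sum_le_tsum s).trans (h x hx.1 hx.2)

theorem geo_ne_top {y : ℝ} (hy0 : 0 ≤ y) (hy : y < 1) (C : ℝ) (k : ℕ) :
    ∑' n : ℕ, ENNReal.ofReal (C * (n ^ k * y ^ n)) ≠ ⊤ := by
  have h1 : Summable fun n : ℕ => C * ((n : ℝ) ^ k * y ^ n) := by
    apply Summable.mul_left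
    exact summable_pow_mul_geometric_of_norm_lt_one k (by rwa [Real.norm_of_nonneg hy0])
  exact h1.tsum_ofReal_ne_top

theorem conv {x : ℝ} (hx0 : 0 ≤ x) (hx : x * Real.exp L < 1) :
    ∑' c : RC, wx (ENNReal.ofReal x) c ≠ ⊤ ∧
      Nsel (wx (ENNReal.ofReal x)) (fun _ => True) ≠ ⊤ := by
  have hy0 : 0 ≤ x * Real.exp L := by positivity
  constructor
  · rw [← rr_sum]
    refine ne_top_of_le_ne_top (geo_ne_top hy0 hx (2 * Real.exp L) 0) ?_
    refine ENNReal.tsum_le_tsum fun n => ?_
    rw [← ENNReal.ofReal_natCast, ← ENNReal.ofReal_pow hx0, ← ENNReal.ofReal_mul (by positivity)]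
    apply ENNReal.ofReal_le_ofReal
    calc (rr n : ℝ) * x ^ n ≤ (2 * Real.exp L * Real.exp L ^ n) * x ^ n :=
          mul_le_mul_of_nonneg_right (rr_le_exp n) (by positivity)
      _ = 2 * Real.exp L * ((n : ℝ) ^ 0 * (x * Real.exp L) ^ n) := by
          rw [mul_pow]; ring
  · have : Nonempty RC := ⟨exists_rc_one.choose⟩
    rw [Nsel_all]
    have h1 : Nsel (wx (ENNReal.ofReal x)) (fun N => ¬ Direct N) ≠ ⊤ := by
      have h2 : 1 + Nsel (wx (ENNReal.ofReal x)) (fun N => ¬ Direct N) ≠ ⊤ := by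
        rw [← bb_sum]
        have h3 : ∑' n : ℕ, ENNReal.ofReal
            (2 * Real.exp L ^ 3 * ((n : ℝ) ^ 1 * (x * Real.exp L) ^ n)) +
            ∑' n : ℕ, ENNReal.ofReal
            (4 * Real.exp L ^ 3 * ((n : ℝ) ^ 0 * (x * Real.exp L) ^ n)) ≠ ⊤ :=
          ENNReal.add_ne_top.mpr ⟨geo_ne_top hy0 hx _ 1, geo_ne_top hy0 hx _ 0⟩
        refine ne_top_of_le_ne_top h3 ?_
        rw [← ENNReal.tsum_add]
        refine ENNReal.tsum_le_tsum fun n => ?_
        rw [← ENNReal.ofReal_natCast, ← ENNReal.ofReal_pow hx0,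
          ← ENNReal.ofReal_mul (by positivity), ← ENNReal.ofReal_add (by positivity)
            (by positivity)]
        apply ENNReal.ofReal_le_ofReal
        have h4 : (bb (n + 2) : ℝ) ≤ ((n + 2 : ℕ) : ℝ) * rr (n + 2) := by
          exact_mod_cast bb_le (n + 2)
        have h5 : (bb (n + 2) : ℝ) ≤ ((n + 2 : ℕ) : ℝ) *
            (2 * Real.exp L * Real.exp L ^ (n + 2)) :=
          h4.trans (mul_le_mul_of_nonneg_left (rr_le_exp (n + 2)) (by positivity))
        calc (bb (n + 2) : ℝ) * x ^ n ≤ ((n + 2 : ℕ) : ℝ) *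
            (2 * Real.exp L * Real.exp L ^ (n + 2)) * x ^ n :=
              mul_le_mul_of_nonneg_right h5 (by positivity)
          _ = 2 * Real.exp L ^ 3 * ((n : ℝ) ^ 1 * (x * Real.exp L) ^ n) +
              4 * Real.exp L ^ 3 * ((n : ℝ) ^ 0 * (x * Real.exp L) ^ n) := by
              rw [mul_pow]; push_cast; ring
      exact (ENNReal.add_ne_top.mp h2).2
    exact ENNReal.add_ne_top.mpr ⟨ENNReal.one_ne_top, ENNReal.mul_ne_top (by norm_num) h1⟩

theorem diverge {x : ℝ} (hx : 1 < x * Real.exp L) :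
    ∑' c : RC, wx (ENNReal.ofReal x) c = ⊤ := by
  have hx0 : 0 < x := by
    by_contra h
    have : x * Real.exp L ≤ 0 := mul_nonpos_of_nonpos_of_nonneg (not_lt.mp h) (Real.exp_pos _).le
    linarith
  have h1 : -Real.log x < L := by
    have h2 := Real.log_pos hx
    rw [Real.log_mul hx0.ne' (Real.exp_pos _).ne', Real.log_exp] at h2
    linarith
  obtain ⟨y, ⟨m, hm, rfl⟩, hy⟩ := exists_lt_of_lt_csSup nonempt h1
  have hm2 : 2 ≤ m := hm
  have hm0 : (0 : ℝ) < m := by
    have : 0 < m := by omega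
    exact_mod_cast this
  have h3 : 1 ≤ g m * x ^ m := by
    have h4 : 0 < Real.log (g m * x ^ m) := by
      rw [Real.log_mul (g_pos hm2).ne' (by positivity), Real.log_pow]
      unfold q at hy
      rw [lt_div_iff₀ hm0] at hy
      linarith
    by_contra h5
    have := Real.log_nonpos (mul_pos (g_pos hm2) (by positivity)).le (not_le.mp h5).le
    linarith
  rw [← rr_sum, ← top_le_iff]
  have hc : (0 : ℝ) < 2 / x := by positivity
  have h6 : ∑' k : ℕ, ENNReal.ofReal (2 / x) = ⊤ :=
    ENNReal.tsum_const_eq_top_of_ne_zero (by simpa using hc)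
  rw [← h6]
  have hinj : Function.Injective fun k : ℕ => k * m + (m - 1) := by
    intro a b hab
    have h7 : a * m + (m - 1) = b * m + (m - 1) := hab
    have h8 : a * m = b * m := by omega
    exact Nat.eq_of_mul_eq_mul_right (by omega) h8
  refine le_trans ?_ (ENNReal.tsum_comp_le_tsum_of_injective hinj
    (fun n => (rr n : ℝ≥0∞) * ENNReal.ofReal x ^ n))
  refine ENNReal.tsum_le_tsum fun k => ?_
  rw [← ENNReal.ofReal_natCast, ← ENNReal.ofReal_pow hx0.le, ← ENNReal.ofReal_mul (by positivity)]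
  apply ENNReal.ofReal_le_ofReal
  have h7 : (rr (k * m + (m - 1)) : ℝ) = 2 * g (k * m + m) := by
    rw [rr_eq]
    congr 2
    omega
  have h8 := g_pow_mul hm2 k m hm2
  have h9 : x ^ (k * m + m) = x * x ^ (k * m + (m - 1)) := by
    rw [← pow_succ']
    congr 1
    omega
  have h10 : 1 ≤ g (k * m + m) * x ^ (k * m + m) := by
    calc (1 : ℝ) ≤ (g m * x ^ m) ^ (k + 1) := one_le_pow₀ h3
      _ = (g m ^ k * g m) * x ^ (k * m + m) := by
          rw [mul_pow, ← pow_mul, pow_succ]
          congr 2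
          ring
      _ ≤ g (k * m + m) * x ^ (k * m + m) := mul_le_mul_of_nonneg_right h8 (by positivity)
  rw [h7, div_le_iff₀ hx0]
  rw [h9] at h10
  nlinarith

end Growth

open Growth

/-- Proof: `b_n := rr (n - 1) / 2` satisfies `b_m b_n ≤ b_(m+n)` (`rr_mul_le`) and `b_n ≤ C 27.7^n` (`rr_le`, `u_bound`),
so `b_n^(1/n)` converges to `γ = sup b_n^(1/n)` (Fekete), and `b_n ≤ γ^n`; `rr n / n ≤ u n ≤ rr (n+1)`, so
`u n^(1/n) → γ ≤ 277/10`.  `ρ = 1/γ`.  If `x > ρ`, some `b_m x^m > 1`, so `b_(km) x^(km) ≥ 1` for all `k` and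
the sum diverges.  If `x < ρ` all sums converge (`rr_sum`, `bb_sum`, `bb_le`, `Nsel_all`). -/
theorem exists_rho : ∃ ρ : ℝ, 10 / 277 ≤ ρ ∧
    Filter.Tendsto (fun n : ℕ => (u n : ℝ) ^ (1 / n : ℝ)) Filter.atTop (𝓝 (1 / ρ)) ∧
    (∀ x : ℝ, ρ < x → ∑' c : RC, wx (ENNReal.ofReal x) c = ⊤) ∧
    ∀ x : ℝ, x < ρ → ∑' c : RC, wx (ENNReal.ofReal x) c ≠ ⊤ ∧
      Nsel (wx (ENNReal.ofReal x)) (fun _ => True) ≠ ⊤ := by
  have hE : 0 < Real.exp L := Real.exp_pos _
  have hle : Real.exp L ≤ 277 / 10 := growth_le tendsto_u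
  refine ⟨1 / Real.exp L, ?_, ?_, ?_, ?_⟩
  · rw [le_div_iff₀ hE]
    linarith
  · rw [one_div_one_div]
    exact tendsto_u
  · intro x hx
    apply diverge
    rwa [div_lt_iff₀ hE] at hx
  · intro x hx
    rw [lt_div_iff₀ hE] at hx
    rcases le_or_gt 0 x with h | h
    · exact conv h hx
    · have h1 : ENNReal.ofReal x = ENNReal.ofReal 0 := by
        rw [ENNReal.ofReal_zero]
        exact ENNReal.ofReal_of_nonpos h.le
      rw [h1]
      exact conv le_rfl (by rw [zero_mul]; exact one_pos)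

/-- the sums are continuous from the left -/
theorem K_sup {ρ : ℝ} (hρ : 0 < ρ) (B : ℝ≥0∞)
    (h : ∀ x : ℝ, 0 < x → x < ρ → ∑' c : RC, wx (ENNReal.ofReal x) c ≤ B) :
    ∑' c : RC, wx (ENNReal.ofReal ρ) c ≤ B :=
  tsum_sup (fun c : RC => c.rep.1.size) hρ B h

theorem N_sup {ρ : ℝ} (hρ : 0 < ρ) (B : ℝ≥0∞)
    (h : ∀ x : ℝ, 0 < x → x < ρ → Nsel (wx (ENNReal.ofReal x)) (fun _ => True) ≤ B) :
    Nsel (wx (ENNReal.ofReal ρ)) (fun _ => True) ≤ B := by
  have h1 : ∀ x : ℝ≥0∞, Nsel (wx x) (fun _ => True) = ∑' c : NC RC, x ^ sg c.rep.1 := by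
    intro x
    unfold Nsel
    exact tsum_congr fun c => by rw [if_pos trivial, wt_wx]
  rw [h1]
  apply tsum_sup (fun c : NC RC => sg c.rep.1) hρ B
  intro x hx hx1
  rw [← h1]
  exact h x hx hx1

end PGr

end

section
/-! # Module TwoPoles: a rotation has only two poles -/

set_option linter.unusedSectionVars false

namespace PGr
open Equiv Finset
open scoped ENNReal Classical

theorem TwoPoles_rot {M : BMap} (hM : M.IsGood) {σ : Perm M.T} {t : M.T}
    (ht : M.s.SameCycle (Sum.inr true) t) (h : SymM M true σ t) (hσ : σ ≠ 1) :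
    Rot M.aa M.s σ (orderOf σ) (Sum.inr true) := by
  refine Rot.of_order hM h.a (fun x => by simpa using h.s x) rfl ?_ (by rw [h.root]; exact ht)
  have h1 : orderOf σ ≠ 1 := fun h2 => hσ (orderOf_eq_one_iff.1 h2)
  have h2 := orderOf_pos σ
  omega

/-- a vertex fixed by a nontrivial power of a rotation about the root vertex is fixed by the rotation -/
theorem two_poles_v {M : BMap} (hM : M.IsGood) {σ : Perm M.T} {t : M.T}
    (ht : M.s.SameCycle (Sum.inr true) t) (h : SymM M true σ t) {j : ℕ} (hj : σ ^ j ≠ 1) {x : M.T}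
    (hx : M.s.SameCycle x ((σ ^ j) x)) : M.s.SameCycle x (σ x) := by
  have hσ : σ ≠ 1 := by
    rintro rfl
    exact hj (one_pow j)
  have hr := TwoPoles_rot hM ht h hσ
  have h1 : σ ^ j = σ ^ (j % orderOf σ) := (pow_mod_orderOf σ j).symm
  rw [h1] at hj hx
  have h0 : 0 < j % orderOf σ := by
    rcases Nat.eq_zero_or_pos (j % orderOf σ) with h2 | h2
    · rw [h2, pow_zero] at hj
      exact absurd rfl hj
    · exact h2
  exact (hr.fixed_of_pow hM h0 (Nat.mod_lt _ (orderOf_pos σ)) (t := x)).1 hx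

/-- if a power of a rotation about the root vertex reverses an edge, the rotation has order two -/
theorem two_poles_e {M : BMap} (hM : M.IsGood) {σ : Perm M.T} {t : M.T}
    (ht : M.s.SameCycle (Sum.inr true) t) (h : SymM M true σ t) {j : ℕ} {x : M.T}
    (hx : (σ ^ j) x = M.aa x) : orderOf σ = 2 := by
  have hne : M.aa x ≠ x := Good.fpf hM x
  have hj : σ ^ j ≠ 1 := by
    intro h1
    rw [h1] at hx
    exact hne hx.symm
  have hσ : σ ≠ 1 := by
    rintro rfl
    exact hj (one_pow j)
  have hr := TwoPoles_rot hM ht h hσ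
  have h1 : σ ^ j = σ ^ (j % orderOf σ) := (pow_mod_orderOf σ j).symm
  rw [h1] at hj hx
  have h0 : 0 < j % orderOf σ := by
    rcases Nat.eq_zero_or_pos (j % orderOf σ) with h2 | h2
    · rw [h2, pow_zero] at hj
      exact absurd rfl hj
    · exact h2
  exact (hr.edge hM h0 (Nat.mod_lt _ (orderOf_pos σ)) (t := x) hx).1

end PGr

end

section
/-! # Module WedgeG: a wedge of good rooted graphs is good -/

set_option linter.unusedSectionVars false

namespace PGr
open Equiv Finset
open scoped ENNReal Classical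

section
variable {J : Type} [Fintype J] [DecidableEq J] {X : J → RG}

/-- the vertex of the wedge that comes from a vertex of `X j` -/
noncomputable def WedgeG_vtx (X : J → RG) (j : J) (x : (X j).V) : (wedge X).V :=
  if h : x = (X j).v0 then none else some ⟨j, ⟨x, h⟩⟩

theorem WedgeG_vtx_root (X : J → RG) (j : J) : WedgeG_vtx X j (X j).v0 = none := dif_pos rfl

theorem WedgeG_vtx_of (X : J → RG) (j : J) {x : (X j).V} (h : x ≠ (X j).v0) :
    WedgeG_vtx X j x = some ⟨j, ⟨x, h⟩⟩ := dif_neg h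

theorem WedgeG_inc (X : J → RG) (j : J) (d : (X j).D) :
    (wedge X).inc ⟨j, d⟩ = WedgeG_vtx X j ((X j).inc d) := by
  by_cases h : (X j).inc d = (X j).v0
  · rw [Wedge.inc_none X j d h, h, WedgeG_vtx_root]
  · rw [Wedge.inc_some X j d h, WedgeG_vtx_of X j h]

theorem WedgeG_vtx_none {j : J} {x : (X j).V} (h : WedgeG_vtx X j x = none) : x = (X j).v0 := by
  by_contra hx
  rw [WedgeG_vtx_of X j hx] at h
  cases h

theorem WedgeG_inj (X : J → RG) (j : J) {x y : (X j).V}
    (h : WedgeG_vtx X j x = WedgeG_vtx X j y) : x = y := by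
  by_cases hx : x = (X j).v0
  · rw [hx, WedgeG_vtx_root] at h
    rw [hx, WedgeG_vtx_none h.symm]
  · by_cases hy : y = (X j).v0
    · rw [hy, WedgeG_vtx_root] at h
      exact absurd (WedgeG_vtx_none h) hx
    · rw [WedgeG_vtx_of X j hx, WedgeG_vtx_of X j hy] at h
      obtain ⟨-, h2⟩ := Sigma.mk.inj_iff.1 (Option.some.inj h)
      exact congrArg Subtype.val (eq_of_heq h2)

/-- a vertex different from the root determines the graph -/
theorem WedgeG_fst {j j' : J} {x : (X j).V} {y : (X j').V}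
    (h : WedgeG_vtx X j x = WedgeG_vtx X j' y) (hx : x ≠ (X j).v0) : j = j' := by
  by_cases hy : y = (X j').v0
  · rw [hy, WedgeG_vtx_root] at h
    exact absurd (WedgeG_vtx_none h) hx
  · rw [WedgeG_vtx_of X j hx, WedgeG_vtx_of X j' hy] at h
    exact (Sigma.mk.inj_iff.1 (Option.some.inj h)).1

/-- the vertex of a dart in the disjoint union -/
def WedgeG_dv (X : J → RG) (t : (wedge X).D) : Σ j, (X j).V := ⟨t.1, (X t.1).inc t.2⟩

/-- the dart is at a root -/
def WedgeG_rt (X : J → RG) (t : (wedge X).D) : Prop := (X t.1).inc t.2 = (X t.1).v0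

theorem WedgeG_dv_rt {t t' : (wedge X).D} (h : WedgeG_dv X t = WedgeG_dv X t')
    (ht : WedgeG_rt X t) : WedgeG_rt X t' := by
  obtain ⟨j, d⟩ := t
  obtain ⟨j', d'⟩ := t'
  obtain ⟨h1, h2⟩ := Sigma.mk.inj_iff.1 h
  change j = j' at h1
  subst h1
  have h3 : (X j).inc d = (X j).inc d' := eq_of_heq h2
  have h4 : (X j).inc d = (X j).v0 := ht
  show (X j).inc d' = (X j).v0
  rw [← h3, h4]

theorem WedgeG_dv_of {t t' : (wedge X).D} (h : t.1 = t'.1) (ht : WedgeG_rt X t)
    (ht' : WedgeG_rt X t') : WedgeG_dv X t = WedgeG_dv X t' := by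
  obtain ⟨j, d⟩ := t
  obtain ⟨j', d'⟩ := t'
  change j = j' at h
  subst h
  have h3 : (X j).inc d = (X j).v0 := ht
  have h4 : (X j).inc d' = (X j).v0 := ht'
  show (⟨j, (X j).inc d⟩ : Σ j, (X j).V) = ⟨j, (X j).inc d'⟩
  rw [h3, h4]

theorem WedgeG_dv_inc {t t' : (wedge X).D} : (wedge X).inc t = (wedge X).inc t' ↔
    (WedgeG_dv X t = WedgeG_dv X t' ∨ (WedgeG_rt X t ∧ WedgeG_rt X t')) := by
  obtain ⟨j, d⟩ := t
  obtain ⟨j', d'⟩ := t'
  constructor
  · intro h
    rw [WedgeG_inc, WedgeG_inc] at h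
    by_cases hx : (X j).inc d = (X j).v0
    · rw [hx, WedgeG_vtx_root] at h
      exact Or.inr ⟨hx, WedgeG_vtx_none h.symm⟩
    · have h1 := WedgeG_fst h hx
      subst h1
      left
      show (⟨j, (X j).inc d⟩ : Σ j, (X j).V) = ⟨j, (X j).inc d'⟩
      rw [WedgeG_inj X j h]
  · rintro (h | ⟨h1, h2⟩)
    · obtain ⟨h1, h2⟩ := Sigma.mk.inj_iff.1 h
      change j = j' at h1
      subst h1
      have h3 : (X j).inc d = (X j).inc d' := eq_of_heq h2
      rw [WedgeG_inc, WedgeG_inc, h3]
    · have h3 : (X j).inc d = (X j).v0 := h1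
      have h4 : (X j').inc d' = (X j').v0 := h2
      rw [WedgeG_inc, WedgeG_inc, h3, h4, WedgeG_vtx_root, WedgeG_vtx_root]

/-- the roots of the graphs in `I` are merged -/
theorem WedgeG_merge (h : ∀ j, (X j).IsGood) (I : Finset J) :
    ∃ s : Perm (wedge X).D, Pl (wedge X).a s ∧ ∀ t t', s.SameCycle t t' ↔
      (WedgeG_dv X t = WedgeG_dv X t' ∨
        ((WedgeG_rt X t ∧ t.1 ∈ I) ∧ (WedgeG_rt X t' ∧ t'.1 ∈ I))) := by
  have hinv : ∀ t, (wedge X).a ((wedge X).a t) = t := by
    rintro ⟨j, d⟩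
    show (⟨j, (X j).a ((X j).a d)⟩ : (wedge X).D) = ⟨j, d⟩
    rw [(h j).inv]
  induction I using Finset.induction_on with
  | empty =>
    choose sv hsv hpv using fun j => (h j).planar
    refine ⟨Equiv.sigmaCongrRight sv, ?_, ?_⟩
    · intro p q hpq
      choose f g1 g2 using fun j => hpv j (fun t => p ⟨j, t⟩) (fun t => q ⟨j, t⟩)
        (fun t => hpq ⟨j, t⟩)
      exact ⟨fun x => f x.1 x.2, fun ⟨j, t⟩ => g1 j t, fun ⟨j, t⟩ => g2 j t⟩
    · have hz : ∀ (i : ℤ) (j : J) (d : (X j).D),
          ((Equiv.sigmaCongrRight sv : Perm (Σ j, (X j).D)) ^ i) ⟨j, d⟩ = ⟨j, ((sv j) ^ i) d⟩ := by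
        intro i j d
        rw [ExpGood.sigma_zpow]
        rfl
      rintro ⟨j, d⟩ ⟨j', d'⟩
      constructor
      · rintro ⟨i, hi⟩
        left
        have h1 := (hz i j d).symm.trans hi
        obtain ⟨h2, h3⟩ := Sigma.mk.inj_iff.1 h1
        subst h2
        have h4 : (X j).inc d = (X j).inc d' := (hsv j d d').1 ⟨i, eq_of_heq h3⟩
        show (⟨j, (X j).inc d⟩ : Σ j, (X j).V) = ⟨j, (X j).inc d'⟩
        rw [h4]
      · rintro (h1 | ⟨⟨-, h1⟩, -⟩)
        · obtain ⟨h2, h3⟩ := Sigma.mk.inj_iff.1 h1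
          change j = j' at h2
          subst h2
          obtain ⟨i, hi⟩ := (hsv j d d').2 (eq_of_heq h3)
          refine ⟨i, ?_⟩
          have h4 := hz i j d
          rw [hi] at h4
          exact h4
        · exact absurd h1 (Finset.notMem_empty _)
  | insert j0 I hj0 ih =>
    obtain ⟨s, hpl, hs⟩ := ih
    by_cases hr0 : ∃ r0 : (X j0).D, (X j0).inc r0 = (X j0).v0
    · by_cases hr1 : ∃ t1 : (wedge X).D, WedgeG_rt X t1 ∧ t1.1 ∈ I
      · obtain ⟨r0, hr0⟩ := hr0
        obtain ⟨t1, ht1, ht1I⟩ := hr1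
        let t0 : (wedge X).D := ⟨j0, r0⟩
        have ht0 : WedgeG_rt X t0 := hr0
        let pr : (wedge X).D → Option Unit := fun t => if t.1 = j0 then some () else none
        have hpr : ∀ t t' : (wedge X).D, (t.1 = j0 ↔ t'.1 = j0) → pr t = pr t' := by
          intro t t' h1
          show (if t.1 = j0 then some () else none) = if t'.1 = j0 then some () else none
          by_cases h2 : t.1 = j0
          · rw [if_pos h2, if_pos (h1.1 h2)]
          · rw [if_neg h2, if_neg fun h3 => h2 (h1.2 h3)]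
        have hps : ∀ t, pr (s t) = pr t := by
          intro t
          apply hpr
          have h1 : s.SameCycle t (s t) := ⟨1, by rw [zpow_one]⟩
          rcases (hs _ _).1 h1 with h2 | ⟨⟨-, h2⟩, -, h3⟩
          · have h3 : t.1 = (s t).1 := (Sigma.mk.inj_iff.1 h2).1
            rw [h3]
          · constructor
            · intro h4
              rw [h4] at h3
              exact absurd h3 hj0
            · intro h4
              rw [h4] at h2
              exact absurd h2 hj0
        have hpa : ∀ t, pr ((wedge X).a t) = pr t := fun t => hpr _ _ Iff.rfl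
        have hne : t1.1 ≠ j0 := fun h1 => hj0 (h1 ▸ ht1I)
        have hn : ∀ _ : Unit, pr t1 = none := fun _ => if_neg hne
        have hd : ∀ j : Unit, pr t0 = some j := fun _ => if_pos rfl
        obtain ⟨s', h1, h2, h3, h4⟩ := exists_glue (s := s) pr hps (fun _ => t1) (fun _ => t0)
          hn hd (fun _ _ _ => rfl)
        refine ⟨s', Pl.glue hinv hpl pr hpa hps (fun _ => t1) (fun _ => t0) hn hd
          (fun _ _ _ => rfl) h1 h2 h3, ?_⟩
        have e1 : ∀ t, s.SameCycle t t1 ↔ (WedgeG_rt X t ∧ t.1 ∈ I) := by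
          intro t
          rw [hs]
          constructor
          · rintro (h5 | h5)
            · refine ⟨WedgeG_dv_rt h5.symm ht1, ?_⟩
              have h6 : t.1 = t1.1 := (Sigma.mk.inj_iff.1 h5).1
              rw [h6]
              exact ht1I
            · exact h5.1
          · exact fun h5 => Or.inr ⟨h5, ht1, ht1I⟩
        have e0 : ∀ t, s.SameCycle t t0 ↔ (WedgeG_rt X t ∧ t.1 = j0) := by
          intro t
          rw [hs]
          constructor
          · rintro (h5 | h5)
            · exact ⟨WedgeG_dv_rt h5.symm ht0, (Sigma.mk.inj_iff.1 h5).1⟩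
            · exact absurd h5.2.2 hj0
          · exact fun h5 => Or.inl (WedgeG_dv_of h5.2 h5.1 ht0)
        intro t t'
        rw [h4, hs, mem_insert, mem_insert]
        constructor
        · rintro ((h5 | h5) | ⟨-, h5, h6⟩ | ⟨-, h5, h6⟩)
          · exact Or.inl h5
          · exact Or.inr ⟨⟨h5.1.1, Or.inr h5.1.2⟩, h5.2.1, Or.inr h5.2.2⟩
          · rw [e1] at h5
            rw [e0] at h6
            exact Or.inr ⟨⟨h5.1, Or.inr h5.2⟩, h6.1, Or.inl h6.2⟩
          · rw [e0] at h5
            rw [e1] at h6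
            exact Or.inr ⟨⟨h5.1, Or.inl h5.2⟩, h6.1, Or.inr h6.2⟩
        · rintro (h5 | ⟨⟨h5, h6 | h6⟩, h7, h8 | h8⟩)
          · exact Or.inl (Or.inl h5)
          · exact Or.inl (Or.inl (WedgeG_dv_of (h6.trans h8.symm) h5 h7))
          · exact Or.inr (Or.inr ⟨(), (e0 t).2 ⟨h5, h6⟩, (e1 t').2 ⟨h7, h8⟩⟩)
          · exact Or.inr (Or.inl ⟨(), (e1 t).2 ⟨h5, h6⟩, (e0 t').2 ⟨h7, h8⟩⟩)
          · exact Or.inl (Or.inr ⟨⟨h5, h6⟩, h7, h8⟩)
      · refine ⟨s, hpl, fun t t' => ?_⟩
        have h1 : ∀ t, WedgeG_rt X t → t.1 ∉ I := fun t ht hI => hr1 ⟨t, ht, hI⟩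
        rw [hs, mem_insert, mem_insert]
        constructor
        · rintro (h2 | h2)
          · exact Or.inl h2
          · exact absurd h2.1.2 (h1 t h2.1.1)
        · rintro (h2 | ⟨⟨h2, h3 | h3⟩, h4, h5 | h5⟩)
          · exact Or.inl h2
          · exact Or.inl (WedgeG_dv_of (h3.trans h5.symm) h2 h4)
          · exact absurd h5 (h1 t' h4)
          · exact absurd h3 (h1 t h2)
          · exact absurd h3 (h1 t h2)
    · refine ⟨s, hpl, fun t t' => ?_⟩
      have h1 : ∀ t : (wedge X).D, WedgeG_rt X t → t.1 ≠ j0 := by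
        rintro ⟨j, d⟩ ht hj
        change j = j0 at hj
        subst hj
        exact hr0 ⟨d, ht⟩
      rw [hs, mem_insert, mem_insert]
      constructor
      · rintro (h2 | h2)
        · exact Or.inl h2
        · exact Or.inr ⟨⟨h2.1.1, Or.inr h2.1.2⟩, h2.2.1, Or.inr h2.2.2⟩
      · rintro (h2 | ⟨⟨h2, h3 | h3⟩, h4, h5 | h5⟩)
        · exact Or.inl h2
        · exact absurd h3 (h1 t h2)
        · exact absurd h3 (h1 t h2)
        · exact absurd h5 (h1 t' h4)
        · exact Or.inr ⟨⟨h2, h3⟩, h4, h5⟩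

end

/-- `conn`: a set `Y` of vertices containing the root, not everything: there is `j` such that the vertices of `X j` are not all in
`Y`; use `conn` for `X j` and the preimage of `Y`.  `planar`: start with the disjoint union of the planar rotations
(`Pl.sum_sigma` or `Pl` of a sigma type) and merge the cycles of the roots one after the other; this is easiest by induction on the
number of the nonempty `X j` with `Pl.glue`, `exists_glue` (module PlGlue) for two parts: `wedge` over `Option J` is `wedge` of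
`wedge X` and one more graph; or merge all at the same time into one of them. -/
theorem wedge_good {J : Type} [Fintype J] [DecidableEq J] (X : J → RG) (h : ∀ j, (X j).IsGood) :
    (wedge X).IsGood where
  inv := by
    rintro ⟨j, d⟩
    show (⟨j, (X j).a ((X j).a d)⟩ : (wedge X).D) = ⟨j, d⟩
    rw [(h j).inv]
  fpf := by
    rintro ⟨j, d⟩ h1
    obtain ⟨-, h2⟩ := Sigma.mk.inj_iff.1 h1
    exact (h j).fpf d (eq_of_heq h2)
  loop := by
    rintro ⟨j, d⟩ h1
    have h2 : WedgeG_vtx X j ((X j).inc ((X j).a d)) = WedgeG_vtx X j ((X j).inc d) := by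
      rw [← WedgeG_inc, ← WedgeG_inc]
      exact h1
    exact (h j).loop d (WedgeG_inj X j h2)
  simp := by
    rintro ⟨j, d⟩ ⟨j', d'⟩ h1 h2
    have h3 : WedgeG_vtx X j ((X j).inc d) = WedgeG_vtx X j' ((X j').inc d') := by
      rw [← WedgeG_inc, ← WedgeG_inc]
      exact h1
    have h4 : WedgeG_vtx X j ((X j).inc ((X j).a d)) =
        WedgeG_vtx X j' ((X j').inc ((X j').a d')) := by
      rw [← WedgeG_inc, ← WedgeG_inc]
      exact h2
    have h5 : j = j' := by
      by_cases hx : (X j).inc d = (X j).v0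
      · exact WedgeG_fst h4 fun hy => (h j).loop d (hy.trans hx.symm)
      · exact WedgeG_fst h3 hx
    subst h5
    rw [(h j).simp d d' (WedgeG_inj X j h3) (WedgeG_inj X j h4)]
  conn := by
    intro Y h0 hY
    obtain ⟨y, hy⟩ : ∃ y, y ∉ Y := by
      by_contra h1
      push Not at h1
      exact hY (eq_univ_iff_forall.2 h1)
    rcases y with _ | ⟨j, x, hx⟩
    · exact absurd h0 hy
    · obtain ⟨d, hd1, hd2⟩ := (h j).conn (univ.filter fun x => WedgeG_vtx X j x ∈ Y)
        (mem_filter.2 ⟨mem_univ _, by rw [WedgeG_vtx_root]; exact h0⟩) (by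
        intro hu
        have h1 : x ∈ univ.filter fun x => WedgeG_vtx X j x ∈ Y := by rw [hu]; exact mem_univ _
        have h2 := (mem_filter.1 h1).2
        rw [WedgeG_vtx_of X j hx] at h2
        exact hy h2)
      refine ⟨(⟨j, d⟩ : (wedge X).D), ?_, ?_⟩
      · rw [WedgeG_inc]
        exact (mem_filter.1 hd1).2
      · intro h1
        apply hd2
        refine mem_filter.2 ⟨mem_univ _, ?_⟩
        rw [← WedgeG_inc]
        exact h1
  planar := by
    obtain ⟨s, h1, h2⟩ := WedgeG_merge h univ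
    refine ⟨s, fun t t' => ?_, h1⟩
    rw [h2, WedgeG_dv_inc]
    simp

end PGr

end

section
/-! # Module FamC: contraction of a family of sets of cut 4 -/

set_option linter.unusedSectionVars false

namespace PGr
open Equiv Finset

section
variable {T : Type} [Fintype T] [DecidableEq T] {a s : Perm T} {K : Type} [Fintype K]
  [DecidableEq K] (F : Fam a s K)

namespace FamCAux

open Classical in
/-- the part of a dart -/
private noncomputable def pt (t : T) : K ⊕ Finset T :=
  if h : ∃ κ, t ∈ F.A κ then Sum.inl h.choose else Sum.inr {t, a t}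

private theorem uniq {t : T} {κ κ' : K} (h : t ∈ F.A κ) (h' : t ∈ F.A κ') : κ = κ' := by
  by_contra hne
  exact disjoint_left.1 (F.disj κ κ' hne) h h'

private theorem pt_in {t : T} {κ : K} (h : t ∈ F.A κ) : pt F t = Sum.inl κ := by
  have h1 : ∃ κ, t ∈ F.A κ := ⟨κ, h⟩
  unfold pt
  rw [dif_pos h1, uniq F h1.choose_spec h]

private theorem pt_out {t : T} (h : ∀ κ, t ∉ F.A κ) : pt F t = Sum.inr {t, a t} := by
  unfold pt
  rw [dif_neg (by push Not; exact h)]

private theorem pt_inl {t : T} {κ : K} : pt F t = Sum.inl κ ↔ t ∈ F.A κ := by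
  constructor
  · intro h
    by_cases h1 : ∃ κ, t ∈ F.A κ
    · obtain ⟨κ', h2⟩ := h1
      rw [pt_in F h2] at h
      rw [← Sum.inl_injective h]
      exact h2
    · push Not at h1
      rw [pt_out F h1] at h
      simp at h
  · exact pt_in F

private theorem out_a {t : T} (h : ∀ κ, t ∉ F.A κ) (κ : K) : a t ∉ F.A κ := by
  rw [F.cl κ t]
  exact h κ

private theorem pt_a (hinv : ∀ t, a (a t) = t) (t : T) : pt F (a t) = pt F t := by
  by_cases h1 : ∃ κ, t ∈ F.A κ
  · obtain ⟨κ, h2⟩ := h1
    rw [pt_in F h2, pt_in F ((F.cl κ t).2 h2)]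
  · push Not at h1
    rw [pt_out F h1, pt_out F (out_a F h1), hinv, pair_comm]

private theorem pt_eq_out {t u : T} (h : ∀ κ, t ∉ F.A κ) (hu : pt F u = pt F t) :
    u = t ∨ u = a t := by
  rw [pt_out F h] at hu
  by_cases h1 : ∃ κ, u ∈ F.A κ
  · obtain ⟨κ, h2⟩ := h1
    rw [pt_in F h2] at hu
    simp at hu
  · push Not at h1
    rw [pt_out F h1] at hu
    have h2 : ({u, a u} : Finset T) = {t, a t} := Sum.inr_injective hu
    have h3 : u ∈ ({t, a t} : Finset T) := by
      rw [← h2]
      exact mem_insert_self _ _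
    simpa using h3

private theorem cut4 (h : Good a s) (t : T) :
    cut s (univ.filter fun u => pt F u = pt F t) = 4 := by
  by_cases h1 : ∃ κ, t ∈ F.A κ
  · obtain ⟨κ, h2⟩ := h1
    have h3 : (univ.filter fun u => pt F u = pt F t) = F.A κ := by
      ext u
      simp only [mem_filter, mem_univ, true_and]
      rw [pt_in F h2, pt_inl]
    rw [h3]
    exact F.cut4 κ
  · push Not at h1
    have h3 : (univ.filter fun u => pt F u = pt F t) = {t, a t} := by
      ext u
      simp only [mem_filter, mem_univ, true_and, mem_insert, mem_singleton]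
      constructor
      · exact pt_eq_out F h1
      · rintro (h4 | h4)
        · rw [h4]
        · rw [h4, pt_a F h.inv]
    rw [h3]
    exact h.cut_pair t

private theorem two (h : Good a s) (hbig : 4 ≤ 2 * Fintype.card K + Fintype.card F.R) :
    ∃ t u, pt F t ≠ pt F u := by
  by_contra hc
  push Not at hc
  have hK : Fintype.card K ≤ 1 := by
    by_contra hK
    obtain ⟨κ, κ', hne⟩ := Fintype.one_lt_card_iff.1 (by omega : 1 < Fintype.card K)
    have h1 := hc (F.z κ true) (F.z κ' true)
    rw [pt_in F (F.mem κ true), pt_in F (F.mem κ' true)] at h1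
    exact hne (Sum.inl_injective h1)
  have hR : Fintype.card F.R ≤ 2 := by
    by_contra hR
    have h0 : 0 < Fintype.card F.R := by omega
    obtain ⟨t⟩ := Fintype.card_pos_iff.1 h0
    have h1 : Fintype.card F.R ≤ ({t.1, a t.1} : Finset T).card := by
      rw [← card_univ]
      refine card_le_card_of_injOn (fun u => u.1) ?_ ?_
      · intro u _
        rcases pt_eq_out F t.2 (hc u.1 t.1) with h2 | h2
        · show u.1 ∈ (({t.1, a t.1} : Finset T) : Set T)
          rw [h2]
          simp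
        · show u.1 ∈ (({t.1, a t.1} : Finset T) : Set T)
          rw [h2]
          simp
      · intro u _ v _ huv
        exact Subtype.ext huv
    have h2 := card_le_two (a := t.1) (b := a t.1)
    omega
  have hK1 : Fintype.card K = 1 := by omega
  have hR2 : Fintype.card F.R = 2 := by omega
  obtain ⟨κ⟩ := Fintype.card_pos_iff.1 (by omega : 0 < Fintype.card K)
  obtain ⟨t⟩ := Fintype.card_pos_iff.1 (by omega : 0 < Fintype.card F.R)
  have h1 := hc t.1 (F.z κ true)
  rw [pt_in F (F.mem κ true), pt_inl] at h1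
  exact t.2 κ h1

/-- the last darts -/
private theorem mem_L (h : Good a s) {t : T} :
    t ∈ lastSet s (pt F) ↔ ∃ x, F.lst x = t := by
  rw [Quot.mem_last]
  constructor
  · intro h1
    by_cases h2 : ∃ κ, t ∈ F.A κ
    · obtain ⟨κ, h3⟩ := h2
      rw [pt_in F h3] at h1
      have h4 : s t ∉ F.A κ := fun h4 => h1 (pt_in F h4)
      rcases SubMap.last_eq (F.cut4 κ) (F.mem κ true) (F.mem κ false) (F.out κ true)
        (F.out κ false) (F.ne κ) h3 h4 with h5 | h5
      · exact ⟨Sum.inl (κ, true), h5.symm⟩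
      · exact ⟨Sum.inl (κ, false), h5.symm⟩
    · push Not at h2
      exact ⟨Sum.inr ⟨t, h2⟩, rfl⟩
  · rintro ⟨x, rfl⟩ h1
    rcases x with ⟨κ, b⟩ | t
    · have h2 : F.lst (Sum.inl (κ, b)) = F.z κ b := rfl
      rw [h2, pt_in F (F.mem κ b), pt_inl] at h1
      exact F.out κ b h1
    · have h2 : F.lst (Sum.inr t) = t.1 := rfl
      rw [h2] at h1
      rcases pt_eq_out F t.2 h1 with h3 | h3
      · exact h.s_ne _ h3
      · exact h.s_ne_a _ h3

private theorem lst_inj : Function.Injective F.lst := by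
  rintro (⟨κ, b⟩ | t) (⟨κ', b'⟩ | t') h
  · have h1 : F.z κ b = F.z κ' b' := h
    have h2 : κ = κ' := uniq F (F.mem κ b) (by rw [h1]; exact F.mem κ' b')
    subst h2
    have h3 := F.ne κ
    cases b <;> cases b'
    · rfl
    · exact absurd h1.symm h3
    · exact absurd h1 h3
    · rfl
  · have h1 : F.z κ b = t'.1 := h
    exact absurd (F.mem κ b) (by rw [h1]; exact t'.2 κ)
  · have h1 : t.1 = F.z κ' b' := h
    exact absurd (F.mem κ' b') (by rw [← h1]; exact t.2 κ')
  · have h1 : t.1 = t'.1 := h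
    rw [Subtype.ext h1]

/-- a dart which is not a last dart is followed by a dart of the same part -/
private theorem step (h : Good a s) {t : T} (ht : ∀ x, F.lst x ≠ t) : pt F (s t) = pt F t := by
  by_contra hc
  obtain ⟨x, hx⟩ := (mem_L F h).1 (Quot.mem_last.2 hc)
  exact ht x hx

private theorem run (h : Good a s) {t : T} {k : ℕ} (hk : 0 < k)
    (hmin : ∀ i, 0 < i → i < k → ∀ z, F.lst z ≠ (s ^ i) t) :
    pt F ((s ^ k) t) = pt F (s t) := by
  induction k with
  | zero => omega
  | succ m ih =>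
    by_cases hm : m = 0
    · subst hm
      simp
    · rw [← ih (by omega) (fun i hi hi' => hmin i hi (by omega)), pow_succ', Perm.mul_apply]
      exact step F h (hmin m (by omega) (by omega))

private theorem run_inr (h : Good a s) {t : T} {k : ℕ} {u : F.R} (hk : 0 < k)
    (hu : (s ^ k) t = u.1) (hmin : ∀ i, 0 < i → i < k → ∀ z, F.lst z ≠ (s ^ i) t) :
    s t = u.1 := by
  obtain ⟨m, rfl⟩ : ∃ m, k = m + 1 := ⟨k - 1, by omega⟩
  by_cases hm : m = 0
  · subst hm
    simpa using hu
  · have h1 := hmin m (by omega) (by omega)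
    have h2 := step F h h1
    rw [← Perm.mul_apply, ← pow_succ', hu] at h2
    rcases pt_eq_out F u.2 h2.symm with h3 | h3
    · exact absurd h3.symm (h1 (Sum.inr u))
    · exact absurd h3.symm (h1 (Sum.inr ⟨a u.1, out_a F u.2⟩))

private theorem last1 {κ : K} {t : T} (ht : t ∈ F.A κ) (hs : s t ∉ F.A κ) :
    ∃ b, t = F.z κ b := by
  rcases SubMap.last_eq (F.cut4 κ) (F.mem κ true) (F.mem κ false) (F.out κ true)
    (F.out κ false) (F.ne κ) ht hs with h5 | h5
  · exact ⟨true, h5⟩
  · exact ⟨false, h5⟩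

private theorem ret_last (h : Good a s) {x : (K × Bool) ⊕ F.R} {j : K} {b : Bool} {k : ℕ}
    (hk : 0 < k) (hx : (s ^ k) (F.lst x) = F.z j b)
    (hmin : ∀ i, 0 < i → i < k → ∀ z, F.lst z ≠ (s ^ i) (F.lst x)) :
    (ret s (F.A j) ⟨F.z j b, F.mem j b⟩).1 = s (F.lst x) := by
  have hw : s (F.lst x) ∈ F.A j := by
    rw [← pt_inl, ← run F h hk hmin, hx, pt_inl]
    exact F.mem j b
  have hx' : F.lst x ∉ F.A j := by
    intro hxm
    rcases x with ⟨i, b'⟩ | u
    · have h1 : i = j := uniq F (F.mem i b') hxm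
      subst h1
      exact F.out i b' hw
    · exact u.2 j hxm
  obtain ⟨u, hu⟩ := (ret s (F.A j)).surjective ⟨s (F.lst x), hw⟩
  have hul : s u.1 ∉ F.A j := by
    intro hmem
    have e1 := ret_of_mem s (F.A j) u hmem
    rw [hu] at e1
    have e2 : s (F.lst x) = s u.1 := congrArg Subtype.val e1
    exact hx' (by rw [s.injective e2]; exact u.2)
  obtain ⟨b'', hb''⟩ := last1 F u.2 hul
  have hcyc : s.SameCycle (F.z j b) u.1 := by
    have c1 : s.SameCycle (F.lst x) (F.z j b) := ⟨k, by
      rw [zpow_natCast]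
      exact hx⟩
    have c2 : (ret s (F.A j)).SameCycle u ⟨s (F.lst x), hw⟩ := ⟨1, by rw [zpow_one, hu]⟩
    rw [sameCycle_ret] at c2
    have c3 : s.SameCycle (F.lst x) (s (F.lst x)) := ⟨1, by rw [zpow_one]⟩
    exact c1.symm.trans (c3.trans c2.symm)
  have hub : u.1 = F.z j b := by
    by_contra hne
    exact h.last_ne (F.cl j) (F.cut4 j) (F.mem j b) u.2 (F.out j b) hul
      (fun e => hne e.symm) hcyc
  have hu2 : u = ⟨F.z j b, F.mem j b⟩ := Subtype.ext hub
  rw [← hu2, hu]

end FamCAux

open FamCAux in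
/-- Contraction of a family of disjoint sets of edges of cut 4: every set is replaced by one edge, whose darts
are at the two last darts (exits) of the set.  Proof.  `exists_quot` in `Pool/Agent/PGr/Quot.lean` for the partition
`part t = A κ` if `t ∈ A κ`, `part t = {t, a t}` (`Good.cut_pair`) for the darts outside the family (at least two parts by
`hbig`): with `L = lastSet s part` it gives `aL` with `Good aL (ret s L)`.  A dart outside the family is in `L`
(`s t ∉ {t, a t}`: `s_ne`, `s_ne_a`), and the darts of `A κ` in `L` are its two exits `z κ b` (`exists_last`, `last_eq` in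
`PGr/SubMap`); so `lst` is a bijection onto `L`, `aL` corresponds to the involution of the core, and `sC` is `ret s L`
conjugated by `lst` (`exists_ret`).  The nets are `D = {t // t ∈ A κ}`, `subA a (A κ)`,
`insS (ret s (A κ)) (z κ true) (z κ false)`, good by `Good.subMap`; the isomorphism is the identity on darts, see the
proof of `MapDec.main` / `ret_last` in `Pool/Agent/PGc/MapDec.lean` (copy it, the darts outside the family play the role
of the root darts). -/
theorem Fam.contract (h : Good a s) (hbig : 4 ≤ 2 * Fintype.card K + Fintype.card F.R) :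
    ∃ (aR : Perm F.R) (sC : Perm ((K × Bool) ⊕ F.R)) (N : K → GB)
      (e : T ≃ (mkC K F.R aR sC).FT N),
      (mkC K F.R aR sC).IsGood ∧
      (∀ t : F.R, (aR t).1 = a t.1) ∧
      (∀ x, ∃ n, 0 < n ∧ (s ^ n) (F.lst x) = F.lst (sC x) ∧
        ∀ i, 0 < i → i < n → ∀ y, F.lst y ≠ (s ^ i) (F.lst x)) ∧
      (∀ t, e (a t) = (mkC K F.R aR sC).Fa N (e t)) ∧
      (∀ t, e (s t) = (mkC K F.R aR sC).Fs N (e t)) ∧
      (∀ t : F.R, e t.1 = Sum.inr t) ∧
      (∀ κ t, e t ∈ (mkC K F.R aR sC).part N κ ↔ t ∈ F.A κ) ∧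
      ∀ κ b, ∃ d, e (F.z κ b) = Sum.inl ⟨κ, d⟩ ∧ (N κ).1.s (Sum.inl d) = Sum.inr b := by
  classical
  obtain ⟨aL, q1, q2, q3, q4, -⟩ := exists_quot h (pt F) (pt_a F h.inv) (FamCAux.cut4 F h)
    (two F h hbig)
  -- the bijection of the core darts with the last darts
  let ε₀ : (K × Bool) ⊕ F.R → {t // t ∈ lastSet s (pt F)} := fun x =>
    ⟨F.lst x, (mem_L F h).2 ⟨x, rfl⟩⟩
  have hε : Function.Bijective ε₀ := by
    constructor
    · intro x y hxy
      exact lst_inj F (congrArg Subtype.val hxy)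
    · rintro ⟨t, ht⟩
      obtain ⟨x, hx⟩ := (mem_L F h).1 ht
      exact ⟨x, Subtype.ext hx⟩
  let ε : (K × Bool) ⊕ F.R ≃ {t // t ∈ lastSet s (pt F)} := Equiv.ofBijective ε₀ hε
  have hεv : ∀ x, (ε x).1 = F.lst x := fun x => rfl
  let aR : Perm F.R := a.subtypePerm (p := fun t => ∀ κ, t ∉ F.A κ) (fun t => by
    constructor
    · intro h1 κ
      rw [← F.cl κ t]
      exact h1 κ
    · intro h1 κ
      rw [F.cl κ t]
      exact h1 κ)
  have haR : ∀ t : F.R, (aR t).1 = a t.1 := fun t => rfl
  let sC : Perm ((K × Bool) ⊕ F.R) := (ε.trans (ret s (lastSet s (pt F)))).trans ε.symm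
  have hsC : ∀ x, ε (sC x) = ret s (lastSet s (pt F)) (ε x) := fun x => by
    show ε (ε.symm _) = _
    rw [Equiv.apply_symm_apply]
    rfl
  -- the nets
  let z : ∀ κ, Bool → {t // t ∈ F.A κ} := fun κ b => ⟨F.z κ b, F.mem κ b⟩
  have hz : ∀ κ, z κ true ≠ z κ false := fun κ h1 => F.ne κ (congrArg Subtype.val h1)
  have hg : ∀ κ, Good (ext (subA a (F.A κ) (F.cl κ)))
      (insS (ret s (F.A κ)) (z κ true) (z κ false)) := fun κ =>
    h.subMap (F.cl κ) (F.cut4 κ) (F.out κ true) (F.out κ false) (hz κ)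
  let N : K → GB := fun κ =>
    ⟨{ D := {t // t ∈ F.A κ}, a := subA a (F.A κ) (F.cl κ),
       s := insS (ret s (F.A κ)) (z κ true) (z κ false) }, hg κ⟩
  have hNs : ∀ κ (t : {t // t ∈ F.A κ} ⊕ Bool),
      (N κ).1.s t = insS (ret s (F.A κ)) (z κ true) (z κ false) t := fun _ _ => rfl
  have hfst : ∀ j b, fstD (N j) b = ret s (F.A j) (z j b) := by
    intro j b
    have e1 := fstD_spec (N j) b
    rw [hNs] at e1
    cases b
    · rw [insS_false _ (hz j)] at e1
      exact (Sum.inl_injective e1).symm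
    · rw [insS_true _ (hz j)] at e1
      exact (Sum.inl_injective e1).symm
  let C : GCo := mkC K F.R aR sC
  let e' : (Σ κ, {t // t ∈ F.A κ}) ⊕ F.R → T := Sum.elim (fun p => p.2.1) (fun t => t.1)
  have he' : Function.Bijective e' := by
    constructor
    · rintro (⟨i, ⟨t, ht⟩⟩ | u) (⟨i', ⟨t', ht'⟩⟩ | u') h1
      · have e1 : t = t' := h1
        subst e1
        have e2 : i = i' := uniq F ht ht'
        subst e2
        rfl
      · have e1 : t = u'.1 := h1
        exact absurd ht (by rw [e1]; exact u'.2 i)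
      · have e1 : u.1 = t' := h1
        exact absurd ht' (by rw [← e1]; exact u.2 i')
      · have e1 : u.1 = u'.1 := h1
        rw [Subtype.ext e1]
    · intro t
      by_cases h1 : ∃ κ, t ∈ F.A κ
      · obtain ⟨κ, h2⟩ := h1
        exact ⟨Sum.inl ⟨κ, t, h2⟩, rfl⟩
      · push Not at h1
        exact ⟨Sum.inr ⟨t, h1⟩, rfl⟩
  have h9 : ∀ x, ∃ n, 0 < n ∧ (s ^ n) (F.lst x) = F.lst (sC x) ∧
        ∀ i, 0 < i → i < n → ∀ y, F.lst y ≠ (s ^ i) (F.lst x) := by
    intro x
    obtain ⟨n, hn, hn1, hn2⟩ := exists_ret s (lastSet s (pt F)) (ε x)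
    refine ⟨n, hn, ?_, ?_⟩
    · rw [← hεv (sC x), hsC]
      exact hn1
    · intro i hi hi' y hy
      exact hn2 i hi hi' ((mem_L F h).2 ⟨y, hy⟩)
  have hjump : ∀ x, e' (gjump C N (sC x)) = s (F.lst x) := by
    intro x
    obtain ⟨k, hk, hk1, hk2⟩ := h9 x
    rcases hy : sC x with ⟨j, b⟩ | u
    · show (fstD (N j) b).1 = _
      rw [hfst]
      rw [hy] at hk1
      exact ret_last F h hk hk1 hk2
    · show u.1 = _
      rw [hy] at hk1
      exact (run_inr F h hk hk1 hk2).symm
  let e : T ≃ C.FT N := (Equiv.ofBijective e' he').symm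
  have hee : ∀ y, e' y = (Equiv.ofBijective e' he') y := fun y => rfl
  have hes : ∀ t, e' (e t) = t := fun t => (Equiv.ofBijective e' he').apply_symm_apply t
  have hse : ∀ y, e (e' y) = y := fun y => (Equiv.ofBijective e' he').symm_apply_apply y
  have hFa : ∀ y, e' (C.Fa N y) = a (e' y) := by
    rintro (⟨i, x⟩ | u)
    · rfl
    · rfl
  have hFs : ∀ y, e' (C.Fs N y) = s (e' y) := by
    rintro (⟨i, x⟩ | u)
    · show _ = s x.1
      by_cases hx : s x.1 ∈ F.A i
      · have hx0 : ∀ b, x ≠ z i b := by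
          intro b hb
          apply F.out i b
          have h1 : x.1 = F.z i b := congrArg Subtype.val hb
          rw [← h1]
          exact hx
        have e1 : (N i).1.s (Sum.inl x) = Sum.inl (ret s (F.A i) x) :=
          insS_inl _ (hz i) (hx0 true) (hx0 false)
        rw [GCo.Fs_in C N e1]
        show (ret s (F.A i) x).1 = _
        rw [ret_of_mem s (F.A i) x hx]
      · obtain ⟨b, hb⟩ := last1 F x.2 hx
        have hxz : x = z i b := Subtype.ext hb
        have e1 : (N i).1.s (Sum.inl x) = Sum.inr b := by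
          rw [hxz, hNs]
          cases b
          · exact insS_c1 _ (hz i)
          · exact insS_c0 _ (hz i)
        rw [GCo.Fs_out C N e1, hb]
        exact hjump (Sum.inl (i, b))
    · rw [GCo.Fs_inr]
      exact hjump (Sum.inr u)
  refine ⟨aR, sC, N, e, ?_, haR, h9, ?_, ?_, ?_, ?_, ?_⟩
  · refine Good_iso (a := aL) (s := ret s (lastSet s (pt F))) ε.symm ?_ ?_ q4
    · intro y
      obtain ⟨x, rfl⟩ := ε.surjective y
      rw [Equiv.symm_apply_apply, Equiv.symm_apply_eq]
      have h1 : ∀ y y' : {t // t ∈ lastSet s (pt F)}, pt F y'.1 = pt F y.1 → y' ≠ y →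
          aL y = y' := fun y y' h2 h3 => ((q3 y y' h2).resolve_left h3).symm
      apply h1
      · rcases x with ⟨κ, b⟩ | u
        · show pt F (F.z κ (!b)) = pt F (F.z κ b)
          rw [pt_in F (F.mem κ _), pt_in F (F.mem κ _)]
        · show pt F (a u.1) = pt F u.1
          exact pt_a F h.inv u.1
      · intro h2
        have h3 := ε.injective h2
        rcases x with ⟨κ, b⟩ | u
        · have h4 : (Sum.inl (κ, !b) : (K × Bool) ⊕ F.R) = Sum.inl (κ, b) := h3
          have h5 := congrArg Prod.snd (Sum.inl_injective h4)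
          cases b <;> simp at h5
        · have h4 : (Sum.inr (aR u) : (K × Bool) ⊕ F.R) = Sum.inr u := h3
          have h5 := congrArg Subtype.val (Sum.inr_injective h4)
          rw [haR] at h5
          exact h.fpf _ h5
    · intro y
      obtain ⟨x, rfl⟩ := ε.surjective y
      rw [Equiv.symm_apply_apply, Equiv.symm_apply_eq]
      exact (hsC x).symm
  · intro t
    apply he'.1
    rw [hes, hFa, hes]
  · intro t
    apply he'.1
    rw [hes, hFs, hes]
  · intro t
    exact hse (Sum.inr t)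
  · intro κ t
    rw [GCo.mem_part]
    constructor
    · rintro ⟨d, hd⟩
      have h1 := hes t
      rw [hd] at h1
      rw [← h1]
      exact d.2
    · intro ht
      exact ⟨⟨t, ht⟩, hse (Sum.inl ⟨κ, ⟨t, ht⟩⟩)⟩
  · intro κ b
    refine ⟨z κ b, hse (Sum.inl ⟨κ, z κ b⟩), ?_⟩
    rw [hNs]
    cases b
    · exact insS_c1 _ (hz κ)
    · exact insS_c0 _ (hz κ)

end

end PGr

end
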