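import Mathlib
import Pool.Agent.PGc.Four
import Pool.Agent.PGc.PrefType
import Pool.Agent.PGm.M06
import Pool.Agent.PGm.M12
import Pool.Agent.PGm.M14
import Pool.Agent.PGm.M21
import Pool.Agent.PGr.CompV
import Pool.Agent.PGr.CutIso
import Pool.Agent.PGr.PlRestrict
import Pool.Agent.PGr.RetLib
import Pool.Agent.PGr.SerExcl
import Pool.Agent.PGr.SubMap
import Pool.Agent.PGr.SumLib

section
/-!
# Maps whose root corner is bisected: definitions

`twoS K N`: the darts of the nets `K`, `N` (without their root edges), glued at the two poles: around the pole `b` first the darts of `K`,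
then the darts of `N`.  The root dart of type `G` is the last dart of `N` at the pole `true`; the next dart is the first
dart of `K`.
-/

set_option linter.unusedSectionVars false

namespace PGr
open Equiv Finset
open scoped ENNReal

noncomputable def twoFun (K N : GB) : K.1.D ⊕ N.1.D → K.1.D ⊕ N.1.D
  | Sum.inl d => match K.1.s (Sum.inl d) with
    | Sum.inl d' => Sum.inl d'
    | Sum.inr b => Sum.inr (fstD N b)
  | Sum.inr d => match N.1.s (Sum.inl d) with
    | Sum.inl d' => Sum.inr d'
    | Sum.inr b => Sum.inl (fstD K b)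

theorem twoFun_ll {K N : GB} {d d' : K.1.D} (h : K.1.s (Sum.inl d) = Sum.inl d') :
    twoFun K N (Sum.inl d) = Sum.inl d' := by simp only [twoFun, h]
theorem twoFun_lr {K N : GB} {d : K.1.D} {b : Bool} (h : K.1.s (Sum.inl d) = Sum.inr b) :
    twoFun K N (Sum.inl d) = Sum.inr (fstD N b) := by simp only [twoFun, h]
theorem twoFun_rr {K N : GB} {d d' : N.1.D} (h : N.1.s (Sum.inl d) = Sum.inl d') :
    twoFun K N (Sum.inr d) = Sum.inr d' := by simp only [twoFun, h]
theorem twoFun_rl {K N : GB} {d : N.1.D} {b : Bool} (h : N.1.s (Sum.inl d) = Sum.inr b) :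
    twoFun K N (Sum.inr d) = Sum.inl (fstD K b) := by simp only [twoFun, h]

/-- the first dart at a pole is not preceded by a nonroot dart -/
theorem fst_ne {N : GB} {d d' : N.1.D} {b : Bool} (h : N.1.s (Sum.inl d) = Sum.inl d') :
    d' ≠ fstD N b := by
  intro h1
  have h2 := fstD_spec N b
  rw [← h1, ← h] at h2
  have := N.1.s.injective h2
  simp at this

theorem fst_inj {N : GB} {b b' : Bool} (h : fstD N b = fstD N b') : b = b' := by
  have h1 := fstD_spec N b
  rw [h, ← fstD_spec N b'] at h1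
  have := N.1.s.injective h1
  simpa using this

theorem twoFun_inj (K N : GB) : Function.Injective (twoFun K N) := by
  have hs : ∀ (M : GB) (x y : M.1.T), M.1.s x = M.1.s y → x = y := fun M x y h => M.1.s.injective h
  rintro (d | d) (e | e) h
  · rcases h1 : K.1.s (Sum.inl d) with d' | b <;> rcases h2 : K.1.s (Sum.inl e) with e' | b'
    · rw [twoFun_ll h1, twoFun_ll h2] at h
      rw [Sum.inl.injEq] at h
      rw [h, ← h2] at h1
      exact congrArg _ (by simpa using hs K _ _ h1)
    · rw [twoFun_ll h1, twoFun_lr h2] at h; simp at h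
    · rw [twoFun_lr h1, twoFun_ll h2] at h; simp at h
    · rw [twoFun_lr h1, twoFun_lr h2] at h
      rw [Sum.inr.injEq] at h
      rw [fst_inj h, ← h2] at h1
      exact congrArg _ (by simpa using hs K _ _ h1)
  · rcases h1 : K.1.s (Sum.inl d) with d' | b <;> rcases h2 : N.1.s (Sum.inl e) with e' | b'
    · rw [twoFun_ll h1, twoFun_rr h2] at h; simp at h
    · rw [twoFun_ll h1, twoFun_rl h2] at h
      rw [Sum.inl.injEq] at h
      exact absurd h (fst_ne h1)
    · rw [twoFun_lr h1, twoFun_rr h2] at h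
      rw [Sum.inr.injEq] at h
      exact absurd h.symm (fst_ne h2)
    · rw [twoFun_lr h1, twoFun_rl h2] at h; simp at h
  · rcases h1 : N.1.s (Sum.inl d) with d' | b <;> rcases h2 : K.1.s (Sum.inl e) with e' | b'
    · rw [twoFun_rr h1, twoFun_ll h2] at h; simp at h
    · rw [twoFun_rr h1, twoFun_lr h2] at h
      rw [Sum.inr.injEq] at h
      exact absurd h (fst_ne h1)
    · rw [twoFun_rl h1, twoFun_ll h2] at h
      rw [Sum.inl.injEq] at h
      exact absurd h.symm (fst_ne h2)
    · rw [twoFun_rl h1, twoFun_lr h2] at h; simp at h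
  · rcases h1 : N.1.s (Sum.inl d) with d' | b <;> rcases h2 : N.1.s (Sum.inl e) with e' | b'
    · rw [twoFun_rr h1, twoFun_rr h2] at h
      rw [Sum.inr.injEq] at h
      rw [h, ← h2] at h1
      exact congrArg _ (by simpa using hs N _ _ h1)
    · rw [twoFun_rr h1, twoFun_rl h2] at h; simp at h
    · rw [twoFun_rl h1, twoFun_rr h2] at h; simp at h
    · rw [twoFun_rl h1, twoFun_rl h2] at h
      rw [Sum.inl.injEq] at h
      rw [fst_inj h, ← h2] at h1
      exact congrArg _ (by simpa using hs N _ _ h1)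

/-- the rotation of the union of two nets -/
noncomputable def twoS (K N : GB) : Perm (K.1.D ⊕ N.1.D) :=
  Equiv.ofBijective _ (Finite.injective_iff_bijective.mp (twoFun_inj K N))

/-- the edge involution -/
def twoA (K N : GB) : Perm (K.1.D ⊕ N.1.D) := Perm.sumCongr K.1.a N.1.a

theorem twoS_apply (K N : GB) (t : K.1.D ⊕ N.1.D) : twoS K N t = twoFun K N t := rfl

/-- the root dart -/
noncomputable def twoR (K N : GB) : K.1.D ⊕ N.1.D := Sum.inr (CompInj.lstD N true)

/-- the two parts -/
def prK (K N : GB) : Finset (K.1.D ⊕ N.1.D) := univ.map ⟨Sum.inl, Sum.inl_injective⟩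
def prN (K N : GB) : Finset (K.1.D ⊕ N.1.D) := univ.map ⟨Sum.inr, Sum.inr_injective⟩

theorem twoR_s (K N : GB) : twoS K N (twoR K N) = Sum.inl (fstD K true) := by
  rw [twoS_apply, twoR, twoFun_rl (CompInj.lstD_spec N true)]

section
variable {T : Type} [Fintype T] [DecidableEq T]

/-- a set of edges with cut 4 which contains the root and is disjoint from its mirror image -/
structure GQ (a s e : Perm T) (r : T) (Q : Finset T) : Prop where
  cl : Cl a Q
  cut4 : cut s Q = 4
  mem : r ∈ Q
  dis : ∀ t ∈ Q, e t ∉ Q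

/-- the largest of these sets -/
def MaxQ (a s e : Perm T) (r : T) (P : Finset T) : Prop := GQ a s e r P ∧ ∀ Q, GQ a s e r Q → Q ⊆ P

/-- weight of an unrooted map with a reflection, everything is weighted -/
noncomputable def VT (w : Wt) (a s e : Perm T) : ℝ≥0∞ :=
  w.ax ^ cAx e * w.bi ^ cBis s e * w.cr ^ cCr a e * w.vx ^ nV s * w.dt ^ Fintype.card T

end

/-- reduced maps with bisected root corner -/
noncomputable def SG (w : Wt) : ℝ≥0∞ := by
  classical
  exact ∑' x : GC, ∑ e : Perm x.rep.1.T, if Refl x.rep.1.aa x.rep.1.s e ∧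
    e (Sum.inr true) = x.rep.1.s (Sum.inr true) ∧ MRed x.rep.1.aa x.rep.1.s e (Sum.inr true) then
    VT w x.rep.1.aa x.rep.1.s e else 0

/-- the conditions on a reflection of `twoS K N` -/
structure GP (K N : GB) (e : Perm (K.1.D ⊕ N.1.D)) : Prop where
  refl : Refl (twoA K N) (twoS K N) e
  root : e (twoR K N) = twoS K N (twoR K N)
  red : MRed (twoA K N) (twoS K N) e (twoR K N)
  max : MaxQ (twoA K N) (twoS K N) e (twoR K N) (prN K N)

/-- the second net is the mirror image of the first -/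
noncomputable def gpA (w : Wt) (K N : GB) : ℝ≥0∞ := by
  classical
  exact ∑ e : Perm (K.1.D ⊕ N.1.D), if GP K N e ∧ (∀ t ∈ prK K N, e t ∈ prN K N) then
    VT w (twoA K N) (twoS K N) e else 0

/-- the other cases -/
noncomputable def gpB (w : Wt) (K N : GB) : ℝ≥0∞ := by
  classical
  exact ∑ e : Perm (K.1.D ⊕ N.1.D), if GP K N e ∧ ¬ (∀ t ∈ prK K N, e t ∈ prN K N) then
    VT w (twoA K N) (twoS K N) e else 0

/-- the contribution of the composites with rigid core -/
noncomputable def RigG (w : Wt) (E : ℝ≥0∞) : ℝ≥0∞ := by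
  classical
  exact ∑' x : GC, ∑ ψ : Perm x.rep.1.T, if Rigid x.rep.1 ∧ Refl x.rep.1.aa x.rep.1.s ψ ∧
      ψ (Sum.inr true) = x.rep.1.s (Sum.inr true) then
    w.bi ^ cBis x.rep.1.s ψ * w.vx ^ nV x.rep.1.s *
      (w.ax ^ 2 * w.dt ^ 2) ^ (cAx ψ / 2) * E ^ (cCr x.rep.1.aa ψ / 2) *
      e2 w ^ ((Fintype.card x.rep.1.T - cAx ψ - cCr x.rep.1.aa ψ) / 4) else 0

/-! ### Unrooted composites -/

/-- the core dart at the end `b` of the edge `o`; `none` is the root edge -/
def cdt {C : Core} (o : Option C.I) (b : Bool) : C.toB.T :=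
  match o with
  | some i => Sum.inl (i, b)
  | none => Sum.inr b

/-- the end of the edge at a core dart -/
def cend {C : Core} (x : C.toB.T) : Bool :=
  match x with
  | Sum.inl (_, b) => b
  | Sum.inr b => b

/-- the net on the edge `o` -/
def netO {C : Core} (Y : C.I → GB) (N : GB) (o : Option C.I) : GB :=
  match o with
  | some i => Y i
  | none => N

/-- the darts of the net `netO Y N o` as darts of `twoS (comp C Y) N` -/
def dO {C : Core} (Y : C.I → GB) (N : GB) (o : Option C.I)
    (d : (netO Y N o).1.D) : (comp C Y).D ⊕ N.1.D :=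
  match o, d with
  | some i, d => Sum.inl (⟨i, d⟩ : Σ i, (Y i).1.D)
  | none, d => Sum.inr d

/-- the composite as a good map -/
noncomputable def cG (C : Core) (hC : C.toB.IsGood) (Y : C.I → GB) : GB :=
  ⟨comp C Y, comp_good C Y hC⟩

/-- `e` is a reflection of `twoS (comp C Y) N` which induces the reflection `ψ` of the core (which need
not preserve the root edge) and twisted isomorphisms of the nets -/
structure UTw (C : Core) (hC : C.toB.IsGood) (Y : C.I → GB) (N : GB) (ψ : Perm C.toB.T)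
    (e : Perm ((comp C Y).D ⊕ N.1.D)) : Prop where
  core : Refl C.toB.aa C.s ψ
  refl : Refl (twoA (cG C hC Y) N) (twoS (cG C hC Y) N) e
  nets : ∀ o b o' b', ψ (cdt o b) = cdt o' b' →
    ∃ φ : (netO Y N o).1.T ≃ (netO Y N o').1.T,
      TwI true (xor b b') (netO Y N o).1 (netO Y N o').1 φ ∧
      ∀ d d', φ (Sum.inl d) = Sum.inl d' → e (dO Y N o d) = dO Y N o' d'

/-- weight of the net on the edge `o` of a core with the reflection `ψ` -/
noncomputable def puv (w : Wt) (C : Core) (ψ : Perm C.toB.T) (o : Option C.I) (M : BMap) :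
    ℝ≥0∞ := by
  classical
  exact if ψ (cdt o true) = cdt o true then sv w false M else
    if ψ (cdt o true) = cdt o false then sv w true M else hW w M

/-- the same for reduced maps -/
noncomputable def quv (w : Wt) (C : Core) (ψ : Perm C.toB.T) (o : Option C.I) (M : BMap) :
    ℝ≥0∞ := by
  classical
  exact if ψ (cdt o true) = cdt o true then
      (if Fintype.card M.D = 2 then w.ax ^ 2 * w.dt ^ 2 else 0) else
    if ψ (cdt o true) = cdt o false then sw w true M else hW w M

/-- the nets are compatible with the reflection of the core -/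
def Cmp (C : Core) (Y : C.I → GB) (N : GB) (ψ : Perm C.toB.T) : Prop :=
  ∀ o b o' b', ψ (cdt o b) = cdt o' b' →
    ∃ φ, TwI true (xor b b') (netO Y N o).1 (netO Y N o').1 φ

/-- an invariant set of edges with cut 4 and ends on the axis -/
structure AxI {T : Type} [Fintype T] [DecidableEq T] (a s e : Perm T) (A : Finset T) : Prop where
  cl : Cl a A
  inv : ∀ t ∈ A, e t ∈ A
  cut4 : cut s A = 4
  ends : ∀ t ∈ bd s A, s.SameCycle t (e t)

/-- the darts of the net `x` are a part of the map `(T, a, s)`: inside the part the rotations agree, and after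
the last dart at a pole the rotation leaves the part and returns to it at the first dart of this pole -/
structure Chart {T : Type} (a s : Perm T) (x : GB) (j : x.1.D → T) : Prop where
  inj : Function.Injective j
  ja : ∀ d, a (j d) = j (x.1.a d)
  js : ∀ d d', x.1.s (Sum.inl d) = Sum.inl d' → s (j d) = j d'
  out : ∀ b, ∃ k, 1 ≤ k ∧ (s ^ (k + 1)) (j (CompInj.lstD x b)) = j (fstD x b) ∧
    ∀ i, 1 ≤ i → i ≤ k → ∀ d, (s ^ i) (j (CompInj.lstD x b)) ≠ j d

/-- the core with one edge parallel to the root edge: `comp dig0 (fun _ => K)` is `K` -/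
def dig0 : Core where
  I := Unit
  s := Equiv.mk (fun x => match x with
      | Sum.inl (_, b) => Sum.inr b
      | Sum.inr b => Sum.inl ((), b)) (fun x => match x with
      | Sum.inl (_, b) => Sum.inr b
      | Sum.inr b => Sum.inl ((), b)) (by rintro (⟨⟨⟩, b⟩ | b) <;> rfl) (by
        rintro (⟨⟨⟩, b⟩ | b) <;> rfl)

end PGr

end

section
/-! # Module TwoA: the union of two nets is a good map -/

set_option linter.unusedSectionVars false

namespace PGr
open Equiv Finset

variable (K N : GB)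

namespace TwoAux
open CompVAux

theorem sl {d d' : K.1.D} (h : K.1.s (Sum.inl d) = Sum.inl d') :
    twoS K N (Sum.inl d) = Sum.inl d' := by rw [twoS_apply, twoFun_ll h]
theorem slo {d : K.1.D} {b : Bool} (h : K.1.s (Sum.inl d) = Sum.inr b) :
    twoS K N (Sum.inl d) = Sum.inr (fstD N b) := by rw [twoS_apply, twoFun_lr h]
theorem sr {d d' : N.1.D} (h : N.1.s (Sum.inl d) = Sum.inl d') :
    twoS K N (Sum.inr d) = Sum.inr d' := by rw [twoS_apply, twoFun_rr h]
theorem sro {d : N.1.D} {b : Bool} (h : N.1.s (Sum.inl d) = Sum.inr b) :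
    twoS K N (Sum.inr d) = Sum.inl (fstD K b) := by rw [twoS_apply, twoFun_rl h]

theorem run_two (b : Bool) :
    (twoS K N).SameCycle (Sum.inr (fstD N b)) (Sum.inl (fstD K b)) := by
  obtain ⟨k, d, h0, h1, h2⟩ := CompInj.run N b
  have h3 : ∀ i ≤ k, (twoS K N).SameCycle (Sum.inr (d 0)) (Sum.inr (d i)) := by
    intro i
    induction i with
    | zero => intro _; exact Perm.SameCycle.refl _ _
    | succ i ih =>
      intro hi
      have h4 := sc_apply (twoS K N) (Sum.inr (d i))
      rw [sr K N (h1 i (by omega))] at h4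
      exact (ih (by omega)).trans h4
  have h5 := sc_apply (twoS K N) (Sum.inr (d k))
  rw [sro K N h2] at h5
  rw [← h0]
  exact (h3 k le_rfl).trans h5

noncomputable def GK : K.1.T → K.1.D ⊕ N.1.D
  | Sum.inl d => Sum.inl d
  | Sum.inr b => Sum.inr (fstD N b)

noncomputable def GN : N.1.T → K.1.D ⊕ N.1.D
  | Sum.inl d => Sum.inr d
  | Sum.inr b => Sum.inl (fstD K b)

theorem GK_step (t : K.1.T) : (twoS K N).SameCycle (GK K N t) (GK K N (K.1.s t)) := by
  rcases t with d | b
  · rcases h : K.1.s (Sum.inl d) with d' | b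
    · have h1 := sc_apply (twoS K N) (Sum.inl d)
      rw [sl K N h] at h1
      exact h1
    · have h1 := sc_apply (twoS K N) (Sum.inl d)
      rw [slo K N h] at h1
      exact h1
  · rw [fstD_spec]
    exact run_two K N b

theorem GN_step (t : N.1.T) : (twoS K N).SameCycle (GN K N t) (GN K N (N.1.s t)) := by
  rcases t with d | b
  · rcases h : N.1.s (Sum.inl d) with d' | b
    · have h1 := sc_apply (twoS K N) (Sum.inr d)
      rw [sr K N h] at h1
      exact h1
    · have h1 := sc_apply (twoS K N) (Sum.inr d)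
      rw [sro K N h] at h1
      exact h1
  · rw [fstD_spec]
    exact (run_two K N b).symm

theorem sc_lift {T T' : Type*} [Fintype T] [DecidableEq T] {s : Perm T} {s' : Perm T'} (G : T → T')
    (h : ∀ t, s'.SameCycle (G t) (G (s t))) {t t' : T} (hs : s.SameCycle t t') :
    s'.SameCycle (G t) (G t') := by
  obtain ⟨n, hn⟩ := exists_nat_pow hs
  clear hs
  induction n generalizing t' with
  | zero =>
    rw [pow_zero, Perm.one_apply] at hn
    rw [hn]
  | succ n ih =>
    rw [pow_succ', Perm.mul_apply] at hn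
    rw [← hn]
    exact (ih rfl).trans (h _)

theorem GK_sc {t t' : K.1.T} (h : K.1.s.SameCycle t t') :
    (twoS K N).SameCycle (GK K N t) (GK K N t') := sc_lift _ (GK_step K N) h

theorem GN_sc {t t' : N.1.T} (h : N.1.s.SameCycle t t') :
    (twoS K N).SameCycle (GN K N t) (GN K N t') := sc_lift _ (GN_step K N) h

open Classical in
/-- the vertex of a dart -/
noncomputable def F : K.1.D ⊕ N.1.D → Bool ⊕ (Cyc K.1.s ⊕ Cyc N.1.s)
  | Sum.inl d => if h : ∃ b, K.1.s.SameCycle (Sum.inl d) (Sum.inr b) then Sum.inl h.choose else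
      Sum.inr (Sum.inl (cyc K.1.s (Sum.inl d)))
  | Sum.inr d => if h : ∃ b, N.1.s.SameCycle (Sum.inl d) (Sum.inr b) then Sum.inl h.choose else
      Sum.inr (Sum.inr (cyc N.1.s (Sum.inl d)))

theorem F_lp {d : K.1.D} {b : Bool} (h : K.1.s.SameCycle (Sum.inl d) (Sum.inr b)) :
    F K N (Sum.inl d) = Sum.inl b := by
  have h1 : ∃ b, K.1.s.SameCycle (Sum.inl d) (Sum.inr b) := ⟨b, h⟩
  simp only [F, dif_pos h1]
  exact congrArg _ (root_uniq K h1.choose_spec h)

theorem F_rp {d : N.1.D} {b : Bool} (h : N.1.s.SameCycle (Sum.inl d) (Sum.inr b)) :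
    F K N (Sum.inr d) = Sum.inl b := by
  have h1 : ∃ b, N.1.s.SameCycle (Sum.inl d) (Sum.inr b) := ⟨b, h⟩
  simp only [F, dif_pos h1]
  exact congrArg _ (root_uniq N h1.choose_spec h)

theorem F_li {d : K.1.D} (h : ¬ ∃ b, K.1.s.SameCycle (Sum.inl d) (Sum.inr b)) :
    F K N (Sum.inl d) = Sum.inr (Sum.inl (cyc K.1.s (Sum.inl d))) := by
  simp only [F, dif_neg h]

theorem F_ri {d : N.1.D} (h : ¬ ∃ b, N.1.s.SameCycle (Sum.inl d) (Sum.inr b)) :
    F K N (Sum.inr d) = Sum.inr (Sum.inr (cyc N.1.s (Sum.inl d))) := by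
  simp only [F, dif_neg h]

theorem F_ll {d d' : K.1.D} (h : K.1.s.SameCycle (Sum.inl d) (Sum.inl d')) :
    F K N (Sum.inl d) = F K N (Sum.inl d') := by
  by_cases hb : ∃ b, K.1.s.SameCycle (Sum.inl d) (Sum.inr b)
  · obtain ⟨b, hb⟩ := hb
    rw [F_lp K N hb, F_lp K N (h.symm.trans hb)]
  · have hb' : ¬ ∃ b, K.1.s.SameCycle (Sum.inl d') (Sum.inr b) := fun ⟨b, hc⟩ =>
      hb ⟨b, h.trans hc⟩
    rw [F_li K N hb, F_li K N hb', cyc_eq.2 h]

theorem F_rr {d d' : N.1.D} (h : N.1.s.SameCycle (Sum.inl d) (Sum.inl d')) :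
    F K N (Sum.inr d) = F K N (Sum.inr d') := by
  by_cases hb : ∃ b, N.1.s.SameCycle (Sum.inl d) (Sum.inr b)
  · obtain ⟨b, hb⟩ := hb
    rw [F_rp K N hb, F_rp K N (h.symm.trans hb)]
  · have hb' : ¬ ∃ b, N.1.s.SameCycle (Sum.inl d') (Sum.inr b) := fun ⟨b, hc⟩ =>
      hb ⟨b, h.trans hc⟩
    rw [F_ri K N hb, F_ri K N hb', cyc_eq.2 h]

theorem F_s (x : K.1.D ⊕ N.1.D) : F K N (twoS K N x) = F K N x := by
  rcases x with d | d
  · rcases h : K.1.s (Sum.inl d) with d' | b
    · rw [sl K N h]
      have h1 := sc_apply K.1.s (Sum.inl d)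
      rw [h] at h1
      exact (F_ll K N h1).symm
    · rw [slo K N h]
      have h1 := sc_apply K.1.s (Sum.inl d)
      rw [h] at h1
      have h2 := sc_apply N.1.s (Sum.inr b)
      rw [fstD_spec] at h2
      rw [F_lp K N h1, F_rp K N h2.symm]
  · rcases h : N.1.s (Sum.inl d) with d' | b
    · rw [sr K N h]
      have h1 := sc_apply N.1.s (Sum.inl d)
      rw [h] at h1
      exact (F_rr K N h1).symm
    · rw [sro K N h]
      have h1 := sc_apply N.1.s (Sum.inl d)
      rw [h] at h1
      have h2 := sc_apply K.1.s (Sum.inr b)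
      rw [fstD_spec] at h2
      rw [F_rp K N h1, F_lp K N h2.symm]

theorem F_sc {x y : K.1.D ⊕ N.1.D} (h : (twoS K N).SameCycle x y) : F K N x = F K N y := by
  obtain ⟨n, hn⟩ := exists_nat_pow h
  clear h
  induction n generalizing y with
  | zero =>
    rw [pow_zero, Perm.one_apply] at hn
    rw [hn]
  | succ n ih =>
    rw [pow_succ', Perm.mul_apply] at hn
    rw [← hn, F_s]
    exact ih rfl

/-! ### cuts -/

/-- sums over the darts of a net, by the next dart -/
theorem sum_match (M : GB) (α : M.1.D → M.1.D → ℕ) (β : Bool → ℕ) :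
    (∑ d : M.1.D, match M.1.s (Sum.inl d) with
      | Sum.inl d' => α d d'
      | Sum.inr b => β b) =
    (∑ d : M.1.D, match M.1.s (Sum.inl d) with
      | Sum.inl d' => α d d'
      | Sum.inr _ => 0) + (β true + β false) := by
  have h1 : ∀ d : M.1.D, (match M.1.s (Sum.inl d) with
      | Sum.inl d' => α d d'
      | Sum.inr b => β b) =
      (match M.1.s (Sum.inl d) with
      | Sum.inl d' => α d d'
      | Sum.inr _ => 0) + ∑ b : Bool, if M.1.s (Sum.inl d) = Sum.inr b then β b else 0 := by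
    intro d
    rcases h : M.1.s (Sum.inl d) with d' | b
    · simp
    · cases b <;> simp
  rw [Finset.sum_congr rfl (fun d _ => h1 d), Finset.sum_add_distrib, Finset.sum_comm]
  congr 1
  have h2 : ∀ b : Bool, (∑ d : M.1.D, if M.1.s (Sum.inl d) = Sum.inr b then β b else 0) = β b := by
    intro b
    rw [Finset.sum_eq_single (CompInj.lstD M b)]
    · rw [if_pos (CompInj.lstD_spec M b)]
    · intro d _ hd
      rw [if_neg]
      intro h
      exact hd (CompInj.eq_lstD h)
    · intro h
      exact absurd (mem_univ _) h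
  rw [Fintype.sum_bool, h2, h2]

/-- the boundary corners inside a net -/
def inC (M : GB) (X : Finset M.1.D) : ℕ := ∑ d : M.1.D, match M.1.s (Sum.inl d) with
  | Sum.inl d' => if ¬ (d ∈ X ↔ d' ∈ X) then 1 else 0
  | Sum.inr _ => 0

theorem cut1 (M : GB) (X : Finset M.1.D) : cut M.1.s (dn X) = inC M X +
    ((if CompInj.lstD M true ∈ X then 1 else 0) + (if CompInj.lstD M false ∈ X then 1 else 0)) +
    ((if fstD M true ∈ X then 1 else 0) + (if fstD M false ∈ X then 1 else 0)) := by
  rw [cut_eq_sum_CutAux, Fintype.sum_sum_type, Fintype.sum_bool]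
  congr 1
  · have h := sum_match M (fun d d' => if ¬ (d ∈ X ↔ d' ∈ X) then 1 else 0)
      (fun b => if CompInj.lstD M b ∈ X then 1 else 0)
    unfold inC
    rw [← h]
    refine Finset.sum_congr rfl fun d _ => ?_
    rcases h : M.1.s (Sum.inl d) with d' | b
    · simp [dn]
    · have h3 := CompInj.eq_lstD h
      show _ = if CompInj.lstD M b ∈ X then 1 else 0
      rw [← h3]
      simp [dn]
  · rw [fstD_spec, fstD_spec]
    simp [dn]

theorem cut2 (M : GB) (X : Finset M.1.D) : cut M.1.s (dn X ∪ M.1.root) = inC M X +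
    ((if CompInj.lstD M true ∈ X then 0 else 1) + (if CompInj.lstD M false ∈ X then 0 else 1)) +
    ((if fstD M true ∈ X then 0 else 1) + (if fstD M false ∈ X then 0 else 1)) := by
  rw [cut_eq_sum_CutAux, Fintype.sum_sum_type, Fintype.sum_bool]
  congr 1
  · have h := sum_match M (fun d d' => if ¬ (d ∈ X ↔ d' ∈ X) then 1 else 0)
      (fun b => if CompInj.lstD M b ∈ X then 0 else 1)
    unfold inC
    rw [← h]
    refine Finset.sum_congr rfl fun d _ => ?_
    rcases h : M.1.s (Sum.inl d) with d' | b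
    · simp [dn, BMap.root]
    · have h3 := CompInj.eq_lstD h
      show _ = if CompInj.lstD M b ∈ X then 0 else 1
      rw [← h3]
      by_cases hd : d ∈ X <;> cases b <;> simp [dn, BMap.root, hd]
  · rw [fstD_spec, fstD_spec]
    by_cases h1 : fstD M true ∈ X <;> by_cases h2 : fstD M false ∈ X <;>
      simp [dn, BMap.root, h1, h2]

theorem cut3 (A : Finset (K.1.D ⊕ N.1.D)) (X : Finset K.1.D) (Y : Finset N.1.D)
    (hX : ∀ d, Sum.inl d ∈ A ↔ d ∈ X) (hY : ∀ d, Sum.inr d ∈ A ↔ d ∈ Y) :
    cut (twoS K N) A = (inC K X +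
      ((if ¬ (CompInj.lstD K true ∈ X ↔ fstD N true ∈ Y) then 1 else 0) +
      (if ¬ (CompInj.lstD K false ∈ X ↔ fstD N false ∈ Y) then 1 else 0))) + (inC N Y +
      ((if ¬ (CompInj.lstD N true ∈ Y ↔ fstD K true ∈ X) then 1 else 0) +
      (if ¬ (CompInj.lstD N false ∈ Y ↔ fstD K false ∈ X) then 1 else 0))) := by
  rw [cut_eq_sum_CutAux, Fintype.sum_sum_type]
  congr 1
  · have h := sum_match K (fun d d' => if ¬ (d ∈ X ↔ d' ∈ X) then 1 else 0)
      (fun b => if ¬ (CompInj.lstD K b ∈ X ↔ fstD N b ∈ Y) then 1 else 0)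
    unfold inC
    rw [← h]
    refine Finset.sum_congr rfl fun d _ => ?_
    rcases h : K.1.s (Sum.inl d) with d' | b
    · rw [sl K N h]
      simp only [hX]
    · have h3 := CompInj.eq_lstD h
      rw [slo K N h]
      simp only [hX, hY, h3]
  · have h := sum_match N (fun d d' => if ¬ (d ∈ Y ↔ d' ∈ Y) then 1 else 0)
      (fun b => if ¬ (CompInj.lstD N b ∈ Y ↔ fstD K b ∈ X) then 1 else 0)
    unfold inC
    rw [← h]
    refine Finset.sum_congr rfl fun d _ => ?_
    rcases h : N.1.s (Sum.inl d) with d' | b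
    · rw [sr K N h]
      simp only [hY]
    · have h3 := CompInj.eq_lstD h
      rw [sro K N h]
      simp only [hX, hY, h3]

/-- a proper set of edges of a net -/
theorem proper (M : GB) (X : Finset M.1.D) (hX : ∀ d, M.1.a d ∈ X ↔ d ∈ X) (h0 : X ≠ ∅)
    (h1 : X ≠ univ) : 4 ≤ cut M.1.s (dn X) ∧ 4 ≤ cut M.1.s (dn X ∪ M.1.root) := by
  have hc : Cl M.1.aa (dn X) := by
    intro t
    rcases t with d | b
    · simpa [dn, BMap.aa] using hX d
    · simp [dn, BMap.aa]
  have hc' : Cl M.1.aa M.1.root := by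
    intro t
    rcases t with d | b
    · simp [BMap.root, BMap.aa]
    · cases b <;> simp [BMap.root, BMap.aa]
  obtain ⟨d, hd⟩ := Finset.nonempty_iff_ne_empty.2 h0
  have h2 : ∃ d, d ∉ X := by
    by_contra h
    push Not at h
    exact h1 (eq_univ_iff_forall.2 h)
  obtain ⟨d', hd'⟩ := h2
  constructor
  · refine M.2.ns _ hc ⟨Sum.inl d, by simpa [dn] using hd⟩ fun h => ?_
    have h3 : (Sum.inr true : M.1.T) ∈ dn X := by rw [h]; exact mem_univ _
    simp [dn] at h3
  · refine M.2.ns _ (hc.union hc') ⟨Sum.inr true, by simp [BMap.root]⟩ fun h => ?_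
    have h3 : (Sum.inl d' : M.1.T) ∈ dn X ∪ M.1.root := by rw [h]; exact mem_univ _
    simp [dn, BMap.root] at h3
    exact hd' h3

theorem ns_two : NS (twoA K N) (twoS K N) := by
  intro A hA hne hnu
  set X : Finset K.1.D := univ.filter fun d => Sum.inl d ∈ A with hXd
  set Y : Finset N.1.D := univ.filter fun d => Sum.inr d ∈ A with hYd
  have hX : ∀ d, Sum.inl d ∈ A ↔ d ∈ X := fun d => by simp [hXd]
  have hY : ∀ d, Sum.inr d ∈ A ↔ d ∈ Y := fun d => by simp [hYd]
  have hXc : ∀ d, K.1.a d ∈ X ↔ d ∈ X := fun d => by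
    rw [← hX, ← hX]; exact hA (Sum.inl d)
  have hYc : ∀ d, N.1.a d ∈ Y ↔ d ∈ Y := fun d => by
    rw [← hY, ← hY]; exact hA (Sum.inr d)
  rw [cut3 K N A X Y hX hY]
  have hA0 : X = ∅ → Y = ∅ → False := by
    intro h1 h2
    obtain ⟨t, ht⟩ := hne
    rcases t with d | d
    · rw [hX, h1] at ht; simp at ht
    · rw [hY, h2] at ht; simp at ht
  have hA1 : X = univ → Y = univ → False := by
    intro h1 h2
    apply hnu
    rw [eq_univ_iff_forall]
    rintro (d | d)
    · rw [hX, h1]; exact mem_univ _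
    · rw [hY, h2]; exact mem_univ _
  have key : ∀ (M : GB) (Z : Finset M.1.D), (∀ d, M.1.a d ∈ Z ↔ d ∈ Z) → Z ≠ ∅ → Z ≠ univ →
      2 ≤ inC M Z := by
    intro M Z hZ h0 h1
    obtain ⟨c1, c2⟩ := proper M Z hZ h0 h1
    rw [cut1] at c1
    rw [cut2] at c2
    by_cases a1 : CompInj.lstD M true ∈ Z <;> by_cases a2 : CompInj.lstD M false ∈ Z <;>
      by_cases a3 : fstD M true ∈ Z <;> by_cases a4 : fstD M false ∈ Z <;>
      simp only [a1, a2, a3, a4, if_true, if_false] at c1 c2 <;> omega
  by_cases x0 : X = ∅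
  · by_cases y1 : Y = univ
    · rw [x0, y1]
      simp
      omega
    · have y0 : Y ≠ ∅ := fun h => hA0 x0 h
      have c1 := (proper N Y hYc y0 y1).1
      rw [cut1] at c1
      rw [x0]
      simp only [Finset.notMem_empty, false_iff, iff_false, not_not]
      omega
  · by_cases x1 : X = univ
    · have y1 : Y ≠ univ := fun h => hA1 x1 h
      by_cases y0 : Y = ∅
      · rw [x1, y0]
        simp
        omega
      · have c2 := (proper N Y hYc y0 y1).2
        rw [cut2] at c2
        rw [x1]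
        simp only [Finset.mem_univ, true_iff, iff_true, ite_not]
        omega
    · by_cases y0 : Y = ∅
      · have c1 := (proper K X hXc x0 x1).1
        rw [cut1] at c1
        rw [y0]
        simp only [Finset.notMem_empty, false_iff, iff_false, not_not]
        omega
      · by_cases y1 : Y = univ
        · have c2 := (proper K X hXc x0 x1).2
          rw [cut2] at c2
          rw [y1]
          simp only [Finset.mem_univ, true_iff, iff_true, ite_not]
          omega
        · have k1 := key K X hXc x0 x1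
          have k2 := key N Y hYc y0 y1
          omega

end TwoAux

open TwoAux CompVAux

/-- planarity: delete the root edge of the parallel composition -/
theorem two_pl : Pl (twoA K N) (twoS K N) := by
  have hg : (comp (ddCore tri) (serNets K N)).IsGood := comp_good _ _ (dd_good tri_good)
  set C := ddCore tri with hC
  set Q : C.I → GB := serNets K N with hQ
  set M := comp C Q with hM
  let S : Finset M.T := univ.filter fun t => ∀ b, t ≠ Sum.inr b
  have hSd : ∀ i d, CompInj.dt Q i d ∈ S := by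
    intro i d
    rw [mem_filter]
    exact ⟨mem_univ _, fun b h => by cases h⟩
  have hSr : ∀ b, (Sum.inr b : M.T) ∉ S := by
    intro b h
    exact (mem_filter.1 h).2 b rfl
  have hS : Cl M.aa S := by
    intro t
    rcases CompInj.cases_dt Q t with ⟨i, d, rfl⟩ | ⟨b, rfl⟩
    · rw [CompInj.aa_dt]
      exact ⟨fun _ => hSd _ _, fun _ => hSd _ _⟩
    · exact ⟨fun h => absurd h (hSr _), fun h => absurd h (hSr _)⟩
  let f : K.1.D ⊕ N.1.D → {x // x ∈ S} := fun t => match t with
    | Sum.inl d => ⟨CompInj.dt Q true d, hSd _ _⟩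
    | Sum.inr d => ⟨CompInj.dt Q false d, hSd _ _⟩
  have hf : Function.Bijective f := by
    constructor
    · rintro (d | d) (d' | d') h
      · exact congrArg _ (CompInj.dt_inj Q (congrArg Subtype.val h))
      · have h1 := congrArg (partOf C Q) (congrArg Subtype.val h)
        have h2 : some true = some false := h1
        cases h2
      · have h1 := congrArg (partOf C Q) (congrArg Subtype.val h)
        have h2 : some false = some true := h1
        cases h2
      · exact congrArg _ (CompInj.dt_inj Q (congrArg Subtype.val h))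
    · rintro ⟨t, ht⟩
      rcases CompInj.cases_dt Q t with ⟨i, d, rfl⟩ | ⟨b, rfl⟩
      · change Bool at i
        cases i
        · exact ⟨Sum.inr d, rfl⟩
        · exact ⟨Sum.inl d, rfl⟩
      · exact absurd ht (hSr b)
  let e := Equiv.ofBijective f hf
  have ha : ∀ t, e (twoA K N t) = subA M.aa S hS (e t) := by
    rintro (d | d) <;> rfl
  have h1 : ∀ (x : M.T) (hx : x ∈ S) (y : M.T) (hy : y ∈ S), M.s x = y →
      ret M.s S ⟨x, hx⟩ = ⟨y, hy⟩ := by
    intro x hx y hy h
    subst h
    exact ret_of_mem M.s S ⟨x, hx⟩ hy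
  have h2 : ∀ (x : M.T) (hx : x ∈ S) (y : M.T) (hy : y ∈ S) (b : Bool), M.s x = Sum.inr b →
      M.s (Sum.inr b) = y → ret M.s S ⟨x, hx⟩ = ⟨y, hy⟩ := by
    intro x hx y hy b h h'
    have h3 : (M.s ^ 2) x = y := by rw [pow_two, Perm.mul_apply, h, h']
    have h4 : (M.s ^ 2) x ∈ S := by rw [h3]; exact hy
    rw [ret_spec M.s S ⟨x, hx⟩ (k := 2) (by norm_num) h4 ?_]
    · exact Subtype.ext h3
    · intro i hi hlt
      have hi1 : i = 1 := by omega
      subst hi1
      rw [pow_one]
      show M.s x ∉ S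
      rw [h]
      exact hSr b
  have hs : ∀ t, e (twoS K N t) = ret M.s S (e t) := by
    rintro (d | d)
    · rcases h : K.1.s (Sum.inl d) with d' | b
      · rw [sl K N h]
        exact (h1 _ _ _ _ (CompInj.s_dt_in Q (i := true) h)).symm
      · rw [slo K N h]
        cases b
        · exact (h2 _ _ _ _ false (CompInj.s_dt_out Q (i := true) h)
            (CompInj.s_dt_root Q false)).symm
        · exact (h1 _ _ _ _ (CompInj.s_dt_out Q (i := true) h)).symm
    · rcases h : N.1.s (Sum.inl d) with d' | b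
      · rw [sr K N h]
        exact (h1 _ _ _ _ (CompInj.s_dt_in Q (i := false) h)).symm
      · rw [sro K N h]
        cases b
        · exact (h1 _ _ _ _ (CompInj.s_dt_out Q (i := false) h)).symm
        · exact (h2 _ _ _ _ true (CompInj.s_dt_out Q (i := false) h)
            (CompInj.s_dt_root Q true)).symm
  have hp : Pl (subA M.aa S hS) (ret M.s S) := Pl.restrict hg.pl hg.inv S hS
  refine Pl_iso e.symm (fun t => ?_) (fun t => ?_) hp
  · rw [Equiv.symm_apply_eq, ha, Equiv.apply_symm_apply]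
  · rw [Equiv.symm_apply_eq, hs, Equiv.apply_symm_apply]

/-- The union of two nets. `pl`: `two_pl`, `ns`: `ns_two`. -/
theorem two_good : Good (twoA K N) (twoS K N) where
  inv := by
    rintro (d | d)
    · have h := K.2.inv (Sum.inl d)
      exact congrArg Sum.inl (Sum.inl.inj h)
    · have h := N.2.inv (Sum.inl d)
      exact congrArg Sum.inr (Sum.inl.inj h)
  fpf := by
    rintro (d | d) h
    · exact K.2.fpf (Sum.inl d) (congrArg Sum.inl (Sum.inl.inj h))
    · exact N.2.fpf (Sum.inl d) (congrArg Sum.inl (Sum.inr.inj h))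
  ns := ns_two K N
  pl := two_pl K N
  big := by
    have h1 := K.2.big
    have h2 := N.2.big
    rw [Fintype.card_sum] at h1 h2 ⊢
    rw [Fintype.card_bool] at h1 h2
    omega

theorem two_sc_ll (d d' : K.1.D) : (twoS K N).SameCycle (Sum.inl d) (Sum.inl d') ↔
    K.1.s.SameCycle (Sum.inl d) (Sum.inl d') := by
  constructor
  · intro h
    have h1 := F_sc K N h
    by_cases hb : ∃ b, K.1.s.SameCycle (Sum.inl d) (Sum.inr b)
    · obtain ⟨b, hb⟩ := hb
      rw [F_lp K N hb] at h1
      by_cases hb' : ∃ b, K.1.s.SameCycle (Sum.inl d') (Sum.inr b)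
      · obtain ⟨b', hb'⟩ := hb'
        rw [F_lp K N hb', Sum.inl.injEq] at h1
        subst h1
        exact hb.trans hb'.symm
      · rw [F_li K N hb'] at h1
        cases h1
    · rw [F_li K N hb] at h1
      by_cases hb' : ∃ b, K.1.s.SameCycle (Sum.inl d') (Sum.inr b)
      · obtain ⟨b', hb'⟩ := hb'
        rw [F_lp K N hb'] at h1
        cases h1
      · rw [F_li K N hb', Sum.inr.injEq, Sum.inl.injEq] at h1
        exact cyc_eq.1 h1
  · intro h
    exact GK_sc K N h

theorem two_sc_rr (d d' : N.1.D) : (twoS K N).SameCycle (Sum.inr d) (Sum.inr d') ↔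
    N.1.s.SameCycle (Sum.inl d) (Sum.inl d') := by
  constructor
  · intro h
    have h1 := F_sc K N h
    by_cases hb : ∃ b, N.1.s.SameCycle (Sum.inl d) (Sum.inr b)
    · obtain ⟨b, hb⟩ := hb
      rw [F_rp K N hb] at h1
      by_cases hb' : ∃ b, N.1.s.SameCycle (Sum.inl d') (Sum.inr b)
      · obtain ⟨b', hb'⟩ := hb'
        rw [F_rp K N hb', Sum.inl.injEq] at h1
        subst h1
        exact hb.trans hb'.symm
      · rw [F_ri K N hb'] at h1
        cases h1
    · rw [F_ri K N hb] at h1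
      by_cases hb' : ∃ b, N.1.s.SameCycle (Sum.inl d') (Sum.inr b)
      · obtain ⟨b', hb'⟩ := hb'
        rw [F_rp K N hb'] at h1
        cases h1
      · rw [F_ri K N hb', Sum.inr.injEq, Sum.inr.injEq] at h1
        exact cyc_eq.1 h1
  · intro h
    exact GN_sc K N h

theorem two_sc_lr (d : K.1.D) (d' : N.1.D) : (twoS K N).SameCycle (Sum.inl d) (Sum.inr d') ↔
    ∃ b, K.1.s.SameCycle (Sum.inl d) (Sum.inr b) ∧ N.1.s.SameCycle (Sum.inl d') (Sum.inr b) := by
  constructor
  · intro h
    have h1 := F_sc K N h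
    by_cases hb : ∃ b, K.1.s.SameCycle (Sum.inl d) (Sum.inr b)
    · obtain ⟨b, hb⟩ := hb
      rw [F_lp K N hb] at h1
      by_cases hb' : ∃ b, N.1.s.SameCycle (Sum.inl d') (Sum.inr b)
      · obtain ⟨b', hb'⟩ := hb'
        rw [F_rp K N hb', Sum.inl.injEq] at h1
        subst h1
        exact ⟨b, hb, hb'⟩
      · rw [F_ri K N hb'] at h1
        cases h1
    · rw [F_li K N hb] at h1
      by_cases hb' : ∃ b, N.1.s.SameCycle (Sum.inl d') (Sum.inr b)
      · obtain ⟨b', hb'⟩ := hb'
        rw [F_rp K N hb'] at h1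
        cases h1
      · rw [F_ri K N hb', Sum.inr.injEq] at h1
        cases h1
  · rintro ⟨b, h1, h2⟩
    have h3 := GK_sc K N h1
    have h4 := GN_sc K N h2
    exact (h3.trans (run_two K N b)).trans h4.symm

/-- the vertices are the two poles and the inner vertices of the nets (as `nV_comp`) -/
theorem two_nV : nV (twoS K N) + 2 = nV K.1.s + nV N.1.s := by
  classical
  let G : Bool ⊕ (Inn K ⊕ Inn N) → Cyc (twoS K N) := fun z => match z with
    | Sum.inl b => cyc (twoS K N) (Sum.inl (fstD K b))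
    | Sum.inr (Sum.inl q) => cyc (twoS K N) (Sum.inl (dart K q))
    | Sum.inr (Sum.inr q) => cyc (twoS K N) (Sum.inr (dart N q))
  let Fb : Cyc (twoS K N) → Bool ⊕ (Cyc K.1.s ⊕ Cyc N.1.s) :=
    Quotient.lift (F K N) (fun _ _ h => F_sc K N h)
  have hF1 : ∀ b, Fb (G (Sum.inl b)) = Sum.inl b := by
    intro b
    show F K N (Sum.inl (fstD K b)) = _
    have h2 := sc_apply K.1.s (Sum.inr b)
    rw [fstD_spec] at h2
    exact F_lp K N h2.symm
  have hF2 : ∀ q, Fb (G (Sum.inr (Sum.inl q))) = Sum.inr (Sum.inl q.1) := by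
    intro q
    show F K N (Sum.inl (dart K q)) = _
    rw [F_li K N (dart_root K q), ← dart_spec]
  have hF3 : ∀ q, Fb (G (Sum.inr (Sum.inr q))) = Sum.inr (Sum.inr q.1) := by
    intro q
    show F K N (Sum.inr (dart N q)) = _
    rw [F_ri K N (dart_root N q), ← dart_spec]
  have hG : Function.Bijective G := by
    constructor
    · intro z z' h
      have h1 := congrArg Fb h
      rcases z with b | q | q <;> rcases z' with b' | q' | q'
      · rw [hF1, hF1, Sum.inl.injEq] at h1
        rw [h1]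
      · rw [hF1, hF2] at h1; cases h1
      · rw [hF1, hF3] at h1; cases h1
      · rw [hF2, hF1] at h1; cases h1
      · rw [hF2, hF2, Sum.inr.injEq, Sum.inl.injEq] at h1
        rw [Subtype.ext h1]
      · rw [hF2, hF3, Sum.inr.injEq] at h1; cases h1
      · rw [hF3, hF1] at h1; cases h1
      · rw [hF3, hF2, Sum.inr.injEq] at h1; cases h1
      · rw [hF3, hF3, Sum.inr.injEq, Sum.inr.injEq] at h1
        rw [Subtype.ext h1]
    · intro w
      induction w using Quotient.inductionOn with
      | _ x =>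
        rcases x with d | d
        · by_cases hb : ∃ b, K.1.s.SameCycle (Sum.inl d) (Sum.inr b)
          · obtain ⟨b, hb⟩ := hb
            refine ⟨Sum.inl b, cyc_eq.2 ?_⟩
            rw [two_sc_ll]
            have h2 := sc_apply K.1.s (Sum.inr b)
            rw [fstD_spec] at h2
            exact h2.symm.trans hb.symm
          · have hq : ¬ ∃ b : Bool, cyc K.1.s (Sum.inl d) = cyc K.1.s (Sum.inr b) := by
              rintro ⟨b, h⟩
              exact hb ⟨b, cyc_eq.1 h⟩
            refine ⟨Sum.inr (Sum.inl ⟨cyc K.1.s (Sum.inl d), hq⟩), cyc_eq.2 ?_⟩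
            rw [two_sc_ll]
            exact (cyc_eq.1 (dart_spec K ⟨cyc K.1.s (Sum.inl d), hq⟩)).symm
        · by_cases hb : ∃ b, N.1.s.SameCycle (Sum.inl d) (Sum.inr b)
          · obtain ⟨b, hb⟩ := hb
            refine ⟨Sum.inl b, cyc_eq.2 ?_⟩
            rw [two_sc_lr]
            have h2 := sc_apply K.1.s (Sum.inr b)
            rw [fstD_spec] at h2
            exact ⟨b, h2.symm, hb⟩
          · have hq : ¬ ∃ b : Bool, cyc N.1.s (Sum.inl d) = cyc N.1.s (Sum.inr b) := by
              rintro ⟨b, h⟩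
              exact hb ⟨b, cyc_eq.1 h⟩
            refine ⟨Sum.inr (Sum.inr ⟨cyc N.1.s (Sum.inl d), hq⟩), cyc_eq.2 ?_⟩
            rw [two_sc_rr]
            exact (cyc_eq.1 (dart_spec N ⟨cyc N.1.s (Sum.inl d), hq⟩)).symm
  have h1 := Nat.card_congr (Equiv.ofBijective _ hG)
  rw [Nat.card_sum, Nat.card_sum] at h1
  have h2 := card_inn K
  have h3 := card_inn N
  have h4 : Nat.card Bool = 2 := by simp
  have h5 : Nat.card (Cyc (twoS K N)) = nV (twoS K N) := rfl
  omega

end PGr

end

section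
/-! # Module ChartA: charts -/

set_option linter.unusedSectionVars false

namespace PGr
open Equiv Finset
open CompInj (lstD lstD_spec)

section
variable {T : Type} [Fintype T] [DecidableEq T] {a s : Perm T} {x : GB} {j : x.1.D → T}

theorem Chart.s_lst (h : Chart a s x j) (b : Bool) (d : x.1.D) : s (j (lstD x b)) ≠ j d := by
  obtain ⟨k, hk, -, h1⟩ := h.out b
  have h2 := h1 1 le_rfl hk d
  rwa [pow_one] at h2

theorem Chart.s_fst (h : Chart a s x j) (b : Bool) (d : x.1.D) : s⁻¹ (j (fstD x b)) ≠ j d := by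
  obtain ⟨k, hk, h0, h1⟩ := h.out b
  have h2 := h1 k hk le_rfl d
  rw [← h0, pow_succ', Perm.mul_apply]
  simpa using h2

theorem ChartA_mem {B : Finset x.1.D} (hj : Function.Injective j) {d : x.1.D} :
    j d ∈ B.map ⟨j, hj⟩ ↔ d ∈ B := by
  rw [mem_map]
  constructor
  · rintro ⟨d', hd', h⟩
    have := hj h
    rwa [← this]
  · intro h
    exact ⟨d, h, rfl⟩

/-- Inside the part the corners are the same; the corner `j (lstD x b)` is a boundary corner iff `lstD x b ∈ B`, the corner before `j (fstD x b)` iff `fstD x b ∈ B`; in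
the net these are the corners `inl (lstD x b)` and `inr b` -/
theorem chart_cut (h : Chart a s x j) (B : Finset x.1.D) :
    cut s (B.map ⟨j, h.inj⟩) = cut x.1.s (dn B) := by
  classical
  have hkey : ∀ d, s (j d) ∈ B.map ⟨j, h.inj⟩ ↔ x.1.s (Sum.inl d) ∈ dn B := by
    intro d
    rcases h1 : x.1.s (Sum.inl d) with d' | b
    · rw [h.js d d' h1, ChartA_mem, AxPart_mem_dn]
    · refine iff_of_false ?_ AxPart_dn_inr
      intro h2
      obtain ⟨d', -, h3⟩ := mem_map.1 h2
      rw [CompInj.eq_lstD h1] at h3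
      exact h.s_lst b d' h3.symm
  rw [cut_eq_two_mul, cut_eq_two_mul]
  congr 1
  have e1 : (univ.filter fun t => t ∈ B.map ⟨j, h.inj⟩ ∧ s t ∉ B.map ⟨j, h.inj⟩) =
      (B.filter fun d => x.1.s (Sum.inl d) ∉ dn B).map ⟨j, h.inj⟩ := by
    ext t
    simp only [mem_filter, mem_univ, true_and]
    constructor
    · rintro ⟨h1, h2⟩
      obtain ⟨d, hd, h3⟩ := mem_map.1 h1
      have h4 : j d = t := h3
      subst h4
      rw [ChartA_mem, mem_filter]
      exact ⟨hd, fun h5 => h2 ((hkey d).2 h5)⟩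
    · intro h1
      obtain ⟨d, hd, h3⟩ := mem_map.1 h1
      have h4 : j d = t := h3
      subst h4
      rw [mem_filter] at hd
      rw [ChartA_mem]
      exact ⟨hd.1, fun h5 => hd.2 ((hkey d).1 h5)⟩
  have e2 : (univ.filter fun t => t ∈ dn B ∧ x.1.s t ∉ dn B) =
      dn (B.filter fun d => x.1.s (Sum.inl d) ∉ dn B) := by
    ext t
    rw [mem_filter]
    rcases t with d | b
    · rw [AxPart_mem_dn, AxPart_mem_dn, mem_filter]
      exact ⟨fun h1 => h1.2, fun h1 => ⟨mem_univ _, h1⟩⟩
    · exact iff_of_false (fun h1 => AxPart_dn_inr h1.2.1) AxPart_dn_inr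
  rw [e1, e2, card_map]
  exact (card_map _).symm

theorem chart_cl (h : Chart a s x j) (B : Finset x.1.D) :
    Cl a (B.map ⟨j, h.inj⟩) ↔ Cl x.1.aa (dn B) := by
  have hxx : ∀ d, x.1.a (x.1.a d) = d := by
    intro d
    have h1 : x.1.aa (x.1.aa (Sum.inl d)) = Sum.inl d := x.2.inv _
    exact Sum.inl_injective h1
  constructor
  · intro h1 t
    rcases t with d | b
    · have h2 := h1 (j d)
      rw [h.ja, ChartA_mem, ChartA_mem] at h2
      have h3 : x.1.aa (Sum.inl d) = Sum.inl (x.1.a d) := rfl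
      rw [h3, AxPart_mem_dn, AxPart_mem_dn]
      exact h2
    · exact iff_of_false AxPart_dn_inr AxPart_dn_inr
  · intro h1 t
    have h2 : ∀ d, x.1.a d ∈ B ↔ d ∈ B := by
      intro d
      have h3 := h1 (Sum.inl d)
      have h4 : x.1.aa (Sum.inl d) = Sum.inl (x.1.a d) := rfl
      rwa [h4, AxPart_mem_dn, AxPart_mem_dn] at h3
    constructor
    · intro h3
      obtain ⟨d, hd, h4⟩ := mem_map.1 h3
      have h5 : a (j (x.1.a d)) = a t := by
        rw [h.ja, hxx]
        exact h4
      rw [← a.injective h5, ChartA_mem, h2]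
      exact hd
    · intro h3
      obtain ⟨d, hd, h4⟩ := mem_map.1 h3
      have h5 : j d = t := h4
      subst h5
      rw [h.ja, ChartA_mem, h2]
      exact hd

/-- the case `m = false` of `chart_iso` -/
theorem ChartA_iso0 {T' : Type} [Fintype T'] [DecidableEq T'] {a' s' : Perm T'} {x' : GB}
    {j' : x'.1.D → T'} (h : Chart a s x j) (h' : Chart a' s' x' j') (e : T ≃ T')
    (ha : ∀ t, e (a t) = a' (e t)) (hs : ∀ t, e (s t) = s' (e t))
    (hr : ∀ t, (∃ d, t = j d) ↔ ∃ d', e t = j' d') :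
    ∃ c φ, TwI false c x.1 x'.1 φ ∧ (∀ d d', φ (Sum.inl d) = Sum.inl d' → e (j d) = j' d') := by
  have h0 : ∀ d, ∃ d', e (j d) = j' d' := fun d => (hr (j d)).1 ⟨d, rfl⟩
  choose f hf using h0
  have hbij : Function.Bijective f := by
    constructor
    · intro d d' hd
      apply h.inj
      apply e.injective
      rw [hf, hf, hd]
    · intro d'
      obtain ⟨d, hd⟩ := (hr (e.symm (j' d'))).2 ⟨d', e.apply_symm_apply _⟩
      refine ⟨d, h'.inj ?_⟩
      rw [← hf, ← hd, Equiv.apply_symm_apply]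
  have fa : ∀ d, f (x.1.a d) = x'.1.a (f d) := by
    intro d
    apply h'.inj
    rw [← hf, ← h.ja, ha, hf, h'.ja]
  have hin : ∀ d d', x.1.s (Sum.inl d) = Sum.inl d' → x'.1.s (Sum.inl (f d)) = Sum.inl (f d') := by
    intro d d' h1
    have h2 : s' (j' (f d)) = j' (f d') := by
      rw [← hf, ← hs, h.js d d' h1, hf]
    rcases h3 : x'.1.s (Sum.inl (f d)) with d'' | b
    · have h4 := h'.js _ _ h3
      rw [h2] at h4
      rw [h'.inj h4]
    · exfalso
      rw [CompInj.eq_lstD h3] at h2
      exact h'.s_lst b _ h2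
  have hout : ∀ b, ∃ b', x'.1.s (Sum.inl (f (lstD x b))) = Sum.inr b' := by
    intro b
    rcases h3 : x'.1.s (Sum.inl (f (lstD x b))) with d'' | b'
    · exfalso
      have h4 := h'.js _ _ h3
      rw [← hf, ← hs] at h4
      obtain ⟨d, hd⟩ := (hr _).2 ⟨d'', h4⟩
      exact h.s_lst b d hd
    · exact ⟨b', rfl⟩
  obtain ⟨c, hc⟩ := hout false
  have hlst : ∀ b, f (lstD x b) = lstD x' (xor c b) := by
    intro b
    apply CompInj.eq_lstD
    cases b
    · rw [hc, Bool.xor_false]
    · obtain ⟨b', hb'⟩ := hout true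
      have h1 : b' ≠ c := by
        intro h2
        rw [h2, ← hc] at hb'
        have h3 := hbij.1 (Sum.inl_injective (x'.1.s.injective hb'))
        have h4 := lstD_spec x true
        rw [h3, lstD_spec x false] at h4
        simp at h4
      rw [hb']
      congr 1
      revert h1
      cases b' <;> cases c <;> decide
  have hpow : ∀ (n : ℕ) t, e ((s ^ n) t) = (s' ^ n) (e t) := by
    intro n
    induction n with
    | zero => intro t; rfl
    | succ n ih => intro t; rw [pow_succ', pow_succ', Perm.mul_apply, Perm.mul_apply, hs, ih]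
  have hfst : ∀ b, f (fstD x b) = fstD x' (xor c b) := by
    intro b
    obtain ⟨k, hk, k1, k2⟩ := h.out b
    obtain ⟨k', hk', k1', k2'⟩ := h'.out (xor c b)
    have h1 : (s' ^ (k + 1)) (j' (lstD x' (xor c b))) = j' (f (fstD x b)) := by
      rw [← hlst, ← hf, ← hpow, k1, hf]
    have h2 : ∀ i, 1 ≤ i → i ≤ k → ∀ d, (s' ^ i) (j' (lstD x' (xor c b))) ≠ j' d := by
      intro i hi1 hik d hd
      rw [← hlst, ← hf, ← hpow] at hd
      obtain ⟨d0, hd0⟩ := (hr _).2 ⟨d, hd⟩
      exact k2 i hi1 hik d0 hd0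
    have h3 : k = k' := by
      rcases lt_trichotomy k k' with h4 | h4 | h4
      · exact absurd h1 (k2' (k + 1) (by omega) h4 _)
      · exact h4
      · exact absurd k1' (h2 (k' + 1) (by omega) h4 _)
    apply h'.inj
    rw [← h1, h3, k1']
  refine ⟨c, Equiv.sumCongr (Equiv.ofBijective f hbij)
    ⟨fun b => xor c b, fun b => xor c b, fun b => by cases b <;> cases c <;> rfl,
      fun b => by cases b <;> cases c <;> rfl⟩, ⟨?_, ?_, ?_⟩, ?_⟩
  · intro t
    rcases t with d | b
    · show Sum.inl (f (x.1.a d)) = (Sum.inl (x'.1.a (f d)) : x'.1.D ⊕ Bool)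
      rw [fa]
    · show Sum.inr (xor c (!b)) = (Sum.inr (!(xor c b)) : x'.1.D ⊕ Bool)
      cases b <;> cases c <;> rfl
  · intro t
    rw [twS_false]
    rcases t with d | b
    · rcases h1 : x.1.s (Sum.inl d) with d' | b
      · show Sum.inl (f d') = x'.1.s (Sum.inl (f d))
        rw [hin d d' h1]
      · show Sum.inr (xor c b) = x'.1.s (Sum.inl (f d))
        rw [CompInj.eq_lstD h1, hlst, lstD_spec]
    · rw [fstD_spec]
      show Sum.inl (f (fstD x b)) = x'.1.s (Sum.inr (xor c b))
      rw [hfst, fstD_spec]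
  · intro b
    rfl
  · intro d d' h1
    have h2 : (Sum.inl (f d) : x'.1.D ⊕ Bool) = Sum.inl d' := h1
    rw [hf, Sum.inl_injective h2]

theorem ChartA_rf {D : Type} (t : D ⊕ Bool) : rf D false t = t := by
  rcases t with d | b
  · rfl
  · rw [rf_inr]; simp

theorem ChartA_twG_s (x : GB) (t : x.1.D ⊕ Bool) :
    (twG true false x).1.s t = x.1.s⁻¹ t := by
  show rf x.1.D false (x.1.s⁻¹ (rf x.1.D false t)) = _
  rw [ChartA_rf, ChartA_rf]

theorem ChartA_lst (x : GB) (b : Bool) : lstD (twG true false x) b = fstD x b := by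
  have h1 : x.1.s⁻¹ (Sum.inl (fstD x b)) = Sum.inr b := by
    rw [← fstD_spec]
    simp
  exact (CompInj.eq_lstD (M := twG true false x) (b := b) (d := fstD x b)
    ((ChartA_twG_s x (Sum.inl (fstD x b))).trans h1)).symm

theorem ChartA_fst (x : GB) (b : Bool) : fstD (twG true false x) b = lstD x b := by
  have h1 := fstD_spec (twG true false x) b
  have h2 : x.1.s⁻¹ (Sum.inr b) = Sum.inl (lstD x b) := by
    rw [← lstD_spec]
    simp
  have h3 := (ChartA_twG_s x (Sum.inr b)).trans h2
  exact Sum.inl_injective (h1.symm.trans h3)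

/-- the mirror image of a chart -/
theorem Chart.mirror (h : Chart a s x j) : Chart a s⁻¹ (twG true false x) j := by
  have hinv : ∀ (n : ℕ) (t u : T), (s ^ n) t = u → (s⁻¹ ^ n) u = t := by
    intro n t u h1
    rw [← h1, inv_pow]
    simp
  refine ⟨h.inj, h.ja, ?_, ?_⟩
  · intro d d' h1
    have h2 : x.1.s⁻¹ (Sum.inl d) = Sum.inl d' := (ChartA_twG_s x (Sum.inl d)).symm.trans h1
    have h3 : x.1.s (Sum.inl d') = Sum.inl d := (Perm.inv_eq_iff_eq.1 h2).symm
    have h4 := h.js d' d h3
    rw [← h4]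
    simp
  · intro b
    obtain ⟨k, hk, k1, k2⟩ := h.out b
    refine ⟨k, hk, ?_, ?_⟩
    · rw [ChartA_lst, ChartA_fst]
      exact hinv _ _ _ k1
    · intro i hi1 hik d h1
      rw [ChartA_lst] at h1
      have h2 : (s ^ (k + 1 - i)) (j (lstD x b)) = j d := by
        rw [← h1, ← k1]
        have h3 : (s ^ (k + 1)) (j (lstD x b)) = (s ^ i) ((s ^ (k + 1 - i)) (j (lstD x b))) := by
          rw [← Perm.mul_apply, ← pow_add]
          congr 2
          omega
        exact (hinv i _ _ h3.symm).symm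
      exact k2 (k + 1 - i) (by omega) (by omega) d h2

/-- Proof.  Every dart of `T` in the image of `j` is `j d`; this defines a bijection `f` of the nonroot darts of `x` and `x'`.  A dart `inl d` of `x` is followed by a root dart
iff `s (j d)` is not in the part (`js`, `s_lst`), and it is preceded by a root dart iff `s⁻¹ (j d)` is not in the part.  If `m` is false, `f` maps last darts to last darts, first darts to first darts; if `m` is true, last to first and
first to last.  As there are exactly two last darts, there is `c` such that `f (lstD x b)` is the last (first) dart of `x'` at the pole `xor c b` for both `b`; by `out` (first return to the part) the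
same `c` works for the first darts.  So `φ = f` on the nonroot darts, `φ (inr b) = inr (xor c b)` is a twisted isomorphism. -/
theorem chart_iso {T' : Type} [Fintype T'] [DecidableEq T'] {a' s' : Perm T'} {x' : GB}
    {j' : x'.1.D → T'} {m : Bool} (h : Chart a s x j) (h' : Chart a' s' x' j') (e : T ≃ T')
    (ha : ∀ t, e (a t) = a' (e t)) (hs : ∀ t, e (s t) = twS m s' (e t))
    (hr : ∀ t, (∃ d, t = j d) ↔ ∃ d', e t = j' d') :
    ∃ c φ, TwI m c x.1 x'.1 φ ∧ (∀ d d', φ (Sum.inl d) = Sum.inl d' → e (j d) = j' d') := by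
  cases m
  · exact ChartA_iso0 h h' e ha hs hr
  · obtain ⟨c, φ, h1, h2⟩ := ChartA_iso0 h h'.mirror e ha hs hr
    refine ⟨c, φ.trans (rf x'.1.D false).symm, ?_, ?_⟩
    · have h3 := h1.trans (twM_tw true false x'.1).symm
      rw [Bool.xor_false] at h3
      exact h3
    · intro d d' h3
      apply h2
      have h4 : (rf x'.1.D false).symm (φ (Sum.inl d)) = Sum.inl d' := h3
      rw [Equiv.symm_apply_eq] at h4
      rw [h4]
      rfl

/-- a criterion: two darts of the part at one vertex of the map are at one vertex of the net -/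
theorem ChartA_mk (hj : Function.Injective j) (hja : ∀ d, a (j d) = j (x.1.a d))
    (hjs : ∀ d d', x.1.s (Sum.inl d) = Sum.inl d' → s (j d) = j d')
    (hsl : ∀ b d, s (j (lstD x b)) ≠ j d)
    (hsc : ∀ d d', s.SameCycle (j d) (j d') → x.1.s.SameCycle (Sum.inl d) (Sum.inl d')) :
    Chart a s x j := by
  classical
  refine ⟨hj, hja, hjs, fun b => ?_⟩
  have hex : ∃ n, 1 ≤ n ∧ ∃ d, (s ^ n) (j (lstD x b)) = j d :=
    ⟨orderOf s, orderOf_pos s, lstD x b, by rw [pow_orderOf_eq_one]; rfl⟩
  obtain ⟨hn1, d₀, hd₀⟩ := Nat.find_spec hex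
  have hmin : ∀ i, 1 ≤ i → i < Nat.find hex → ∀ d, (s ^ i) (j (lstD x b)) ≠ j d := by
    intro i hi1 hin d hd
    exact Nat.find_min hex hin ⟨hi1, d, hd⟩
  set n := Nat.find hex with hn
  have hn2 : 2 ≤ n := by
    by_contra hcon
    have h1 : n = 1 := by omega
    rw [h1, pow_one] at hd₀
    exact hsl b _ hd₀
  have hsucc : n - 1 + 1 = n := by omega
  -- `d₀` is a first dart
  have hfirst : ∃ b₀, d₀ = fstD x b₀ := by
    rcases h1 : x.1.s⁻¹ (Sum.inl d₀) with d | b₀
    · exfalso
      have h2 : x.1.s (Sum.inl d) = Sum.inl d₀ := by rw [← h1]; simp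
      have h3 := hjs d d₀ h2
      rw [← hd₀, ← hsucc, pow_succ', Perm.mul_apply] at h3
      exact hmin (n - 1) (by omega) (by omega) d (s.injective h3).symm
    · have h2 : x.1.s (Sum.inr b₀) = Sum.inl d₀ := by rw [← h1]; simp
      rw [fstD_spec] at h2
      exact ⟨b₀, (Sum.inl_injective h2).symm⟩
  obtain ⟨b₀, rfl⟩ := hfirst
  have h1 : s.SameCycle (j (lstD x b)) (j (fstD x b₀)) := ⟨n, by rw [zpow_natCast, hd₀]⟩
  have h2 := hsc _ _ h1
  have h3 : x.1.s.SameCycle (Sum.inl (lstD x b)) (Sum.inr b) := by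
    rw [← lstD_spec]; exact CompVAux.sc_apply _ _
  have h4 : x.1.s.SameCycle (Sum.inr b₀) (Sum.inl (fstD x b₀)) := by
    rw [← fstD_spec]; exact CompVAux.sc_apply _ _
  have h5 : b = b₀ := CompVAux.root_uniq x h3 (h2.trans h4.symm)
  subst h5
  refine ⟨n - 1, by omega, ?_, fun i hi1 hi2 => hmin i hi1 (by omega)⟩
  rw [hsucc]
  exact hd₀

end

section
variable (K N : GB)

/-- `out` with `k` the number of the darts of the other net at this pole (`CompInj.run`) -/
theorem chart_l : Chart (twoA K N) (twoS K N) K Sum.inl := by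
  refine ChartA_mk Sum.inl_injective (fun d => rfl) (fun d d' h => ?_) (fun b d h => ?_)
    (fun d d' h => (two_sc_ll K N d d').1 h)
  · rw [twoS_apply, twoFun_ll h]
  · rw [twoS_apply, twoFun_lr (lstD_spec K b)] at h
    simp at h

theorem chart_r : Chart (twoA K N) (twoS K N) N Sum.inr := by
  refine ChartA_mk Sum.inr_injective (fun d => rfl) (fun d d' h => ?_) (fun b d h => ?_)
    (fun d d' h => (two_sc_rr K N d d').1 h)
  · rw [twoS_apply, twoFun_rr h]
  · rw [twoS_apply, twoFun_rl (lstD_spec N b)] at h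
    simp at h

end

/-- the parts of a composite; `out`: going around the vertex of the core from the core dart `(i, b)` one returns to the edge `i` only at `(i, b)` (no loops: `noLoop`), passing through the other parts
(`CompInj.comp_run`, `CompInj.s_L`, and through `N` at the root) -/
theorem chart_part {C : Core} (hC : C.toB.IsGood) (Y : C.I → GB) (N : GB) (i : C.I) :
    Chart (twoA (cG C hC Y) N) (twoS (cG C hC Y) N) (Y i) (fun d => dO Y N (some i) d) := by
  refine ChartA_mk (fun d d' h => ?_) (fun d => rfl) (fun d d' h => ?_) (fun b d h => ?_)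
    (fun d d' h => ?_)
  · have h1 : (Sum.inl (⟨i, d⟩ : Σ i, (Y i).1.D) : (comp C Y).D ⊕ N.1.D) = Sum.inl ⟨i, d'⟩ := h
    have h2 : (⟨i, d⟩ : Σ i, (Y i).1.D) = ⟨i, d'⟩ := Sum.inl_injective h1
    exact eq_of_heq (Sigma.mk.inj_iff.1 h2).2
  · have h1 : (cG C hC Y).1.s (Sum.inl ⟨i, d⟩) = Sum.inl ⟨i, d'⟩ := comp_s_in C Y h
    exact (twoS_apply _ _ _).trans (twoFun_ll (K := cG C hC Y) (N := N) h1)
  · have h1 : (cG C hC Y).1.s (Sum.inl ⟨i, lstD (Y i) b⟩) = CompInj.J Y (C.s (Sum.inl (i, b))) :=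
      CompInj.s_dt_out Y (lstD_spec (Y i) b)
    have h2 := CompInj.partOf_J Y (C.s (Sum.inl (i, b)))
    rw [← h1] at h2
    rcases h3 : (cG C hC Y).1.s (Sum.inl ⟨i, lstD (Y i) b⟩) with d' | b'
    · have h4 : twoS (cG C hC Y) N (Sum.inl ⟨i, lstD (Y i) b⟩) = Sum.inl d' :=
        (twoS_apply _ _ _).trans (twoFun_ll (K := cG C hC Y) (N := N) h3)
      have h5 : (Sum.inl d' : (cG C hC Y).1.D ⊕ N.1.D) = Sum.inl ⟨i, d⟩ := h4.symm.trans h
      have h6 : d' = ⟨i, d⟩ := Sum.inl_injective h5
      rw [h3, h6] at h2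
      exact CompInj.edge_s_ne hC (Sum.inl (i, b)) h2.symm
    · have h4 : twoS (cG C hC Y) N (Sum.inl ⟨i, lstD (Y i) b⟩) = Sum.inr (fstD N b') :=
        (twoS_apply _ _ _).trans (twoFun_lr (K := cG C hC Y) (N := N) h3)
      have h5 : (Sum.inr (fstD N b') : (cG C hC Y).1.D ⊕ N.1.D) = Sum.inl ⟨i, d⟩ := h4.symm.trans h
      simp at h5
  · have h1 := (two_sc_ll (cG C hC Y) N ⟨i, d⟩ ⟨i, d'⟩).1 h
    exact (sc_part hC i d d').1 h1

end PGr

end

section
/-! # Module GMax: the largest set of cut 4 at the root corner -/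

set_option linter.unusedSectionVars false

namespace PGr
open Equiv Finset

section
variable {T : Type} [Fintype T] [DecidableEq T] {a s e : Perm T} {r : T}

/-- Count the corners: a corner between `A \ B` and `B \ A` is a boundary corner of `A` and of `B`, and not of `A ∩ B`, `A ∪ B`; every other corner is
counted on the left at most as often as on the right. -/
theorem cut_cross (s : Perm T) (A B : Finset T) {t : T} (h1 : t ∈ A \ B) (h2 : s t ∈ B \ A) :
    cut s (A ∩ B) + cut s (A ∪ B) + 2 ≤ cut s A + cut s B := by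
  have e : ∑ u, (if u = t then 2 else 0 : ℕ) = 2 := by simp
  simp only [cut_eq_sum_CutAux, ← sum_add_distrib]
  rw [← e, ← sum_add_distrib]
  rw [mem_sdiff] at h1 h2
  refine sum_le_sum fun u _ => ?_
  simp only [mem_inter, mem_union]
  by_cases hh : u = t
  · subst hh
    simp [h1.1, h1.2, h2.1, h2.2]
  · rw [if_neg hh]
    by_cases h1 : u ∈ A <;> by_cases h2 : u ∈ B <;> by_cases h3 : s u ∈ A <;>
      by_cases h4 : s u ∈ B <;> simp [h1, h2, h3, h4]

private theorem gm_mem (he : Refl a s e) {A : Finset T} {t : T} :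
    t ∈ A.map e.toEmbedding ↔ e t ∈ A := by
  rw [mem_map_equiv]
  have h1 : e.symm t = e t := by
    rw [Equiv.symm_apply_eq, he.ee]
  rw [h1]

/-- the image of a closed set under the reflection -/
theorem refl_cl (he : Refl a s e) {A : Finset T} (hA : Cl a A) : Cl a (A.map e.toEmbedding) := by
  intro t
  rw [gm_mem he, gm_mem he, he.ea]
  exact hA _

theorem refl_cut (he : Refl a s e) (A : Finset T) : cut s (A.map e.toEmbedding) = cut s A := by
  rw [cut_eq_sum_CutAux, cut_eq_sum_CutAux,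
    ← Equiv.sum_comp (s.trans e) (fun u => if ¬ (u ∈ A ↔ s u ∈ A) then 1 else 0)]
  refine sum_congr rfl fun t _ => if_congr ?_ rfl rfl
  rw [gm_mem he, gm_mem he]
  have h1 : (s.trans e) t = e (s t) := rfl
  rw [h1, he.es t, not_iff_not]
  exact ⟨fun h => h.symm, fun h => h.symm⟩

private theorem gm_half (he : Refl a s e) {P : Finset T} (hP : ∀ t ∈ P, e t ∉ P) :
    2 * P.card ≤ Fintype.card T := by
  have h1 : Disjoint P (P.map e.toEmbedding) := by
    rw [disjoint_left]
    intro t ht ht'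
    exact hP t ht ((gm_mem he).1 ht')
  have h2 := card_le_univ (P ∪ P.map e.toEmbedding)
  rw [card_union_of_disjoint h1, card_map] at h2
  omega

private theorem gm_dis (h : Good a s) (he : Refl a s e) (hr : e r = s r) {P Q : Finset T}
    (hP : GQ a s e r P) (hQ : GQ a s e r Q) {t : T} (ht : t ∈ P) : e t ∉ Q := by
  intro hc
  have h1 : t ∈ P ∩ Q.map e.toEmbedding := mem_inter.2 ⟨ht, (gm_mem he).2 hc⟩
  have hrQ : r ∉ Q.map e.toEmbedding := fun h2 => hQ.dis r hQ.mem ((gm_mem he).1 h2)
  have h2 : r ∈ P \ Q.map e.toEmbedding := mem_sdiff.2 ⟨hP.mem, hrQ⟩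
  have h3 : s r ∈ Q.map e.toEmbedding \ P := by
    rw [← hr, mem_sdiff, gm_mem he, he.ee]
    exact ⟨hQ.mem, hP.dis r hP.mem⟩
  have h4 := cut_cross s _ _ h2 h3
  rw [refl_cut he, hP.cut4, hQ.cut4] at h4
  have hclQ := refl_cl he hQ.cl
  have h5 : 4 ≤ cut s (P ∩ Q.map e.toEmbedding) := by
    refine h.ns _ (hP.cl.inter hclQ) ⟨t, h1⟩ fun hu => ?_
    have h6 : r ∈ P ∩ Q.map e.toEmbedding := by rw [hu]; exact mem_univ _
    exact hrQ (mem_inter.1 h6).2
  have h6 : P ∪ Q.map e.toEmbedding = univ := by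
    by_contra hu
    have h7 := h.ns _ (hP.cl.union hclQ) ⟨r, mem_union_left _ hP.mem⟩ hu
    omega
  have h7 := card_union_add_card_inter P (Q.map e.toEmbedding)
  rw [h6, card_univ, card_map] at h7
  have h8 : 0 < (P ∩ Q.map e.toEmbedding).card := card_pos.2 ⟨t, h1⟩
  have h9 := gm_half he hP.dis
  have h10 := gm_half he hQ.dis
  omega

/-- Proof.  Let `B = P ∩ e Q`.  Suppose `B` is not empty.  `r ∈ P \ e Q` (as `r ∈ Q`, `e Q` is disjoint from `Q`), `s r = e r ∈ e Q \ P`.  By `cut_cross`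
`cut (P ∩ e Q) + cut (P ∪ e Q) ≤ 6`, so `cut (P ∪ e Q) ≤ 2` and `P ∪ e Q = univ` (`NS`).  But `P`, `Q` are disjoint from their images, so each has at most half of the darts, and
`P ∩ e Q` is not empty: contradiction.  So `(P ∪ Q)` is disjoint from its image.  `cut (P ∩ Q) + cut (P ∪ Q) ≤ cut P + cut Q = 8` (submodularity, in the library) and
both are at least 4 (`r ∈ P ∩ Q`; `e r ∉ P ∪ Q`), so `cut (P ∪ Q) = 4`. -/
theorem GQ.union (h : Good a s) (he : Refl a s e) (hr : e r = s r) {P Q : Finset T}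
    (hP : GQ a s e r P) (hQ : GQ a s e r Q) : GQ a s e r (P ∪ Q) := by
  have hdis : ∀ t ∈ P ∪ Q, e t ∉ P ∪ Q := by
    intro t ht ht'
    rw [mem_union] at ht ht'
    rcases ht with ht | ht <;> rcases ht' with ht' | ht'
    · exact hP.dis t ht ht'
    · exact gm_dis h he hr hP hQ ht ht'
    · exact gm_dis h he hr hQ hP ht ht'
    · exact hQ.dis t ht ht'
  have hrU : r ∈ P ∪ Q := mem_union_left _ hP.mem
  have h1 := cut_inter_union s P Q
  rw [hP.cut4, hQ.cut4] at h1
  have h2 : 4 ≤ cut s (P ∩ Q) := by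
    refine h.ns _ (hP.cl.inter hQ.cl) ⟨r, mem_inter.2 ⟨hP.mem, hQ.mem⟩⟩ fun hu => ?_
    have h3 : e r ∈ P ∩ Q := by rw [hu]; exact mem_univ _
    exact hP.dis r hP.mem (mem_inter.1 h3).1
  have h3 : 4 ≤ cut s (P ∪ Q) := by
    refine h.ns _ (hP.cl.union hQ.cl) ⟨r, hrU⟩ fun hu => ?_
    exact hdis r hrU (by rw [hu]; exact mem_univ _)
  exact ⟨hP.cl.union hQ.cl, by omega, hrU, hdis⟩

private theorem gm_pair (h : Good a s) (he : Refl a s e) (hr : e r = s r) :
    GQ a s e r {r, a r} := by
  refine ⟨Cl_pair h.inv r, h.cut_pair r, mem_insert_self _ _, ?_⟩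
  have h1 := h.s_ne r
  have h2 := h.s_ne_a r
  intro t ht ht'
  simp only [mem_insert, mem_singleton] at ht ht'
  rcases ht with rfl | rfl
  · rw [hr] at ht'
    rcases ht' with h3 | h3
    · exact h1 h3
    · exact h2 h3
  · rw [he.ea, hr] at ht'
    rcases ht' with h3 | h3
    · exact h2 (by rw [← h3, h.inv, h3])
    · exact h1 (a.injective h3)

/-- the set `{r, a r}` is one of these sets (its cut is at most 4, at least 4 by `NS`; `e r = s r` is different from `r` and from `a r`); the
union of all of them -/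
theorem exists_max (h : Good a s) (he : Refl a s e) (hr : e r = s r) : ∃ P, MaxQ a s e r P := by
  classical
  obtain ⟨P, hP, hmax⟩ := exists_max_image (univ.filter fun P : Finset T => GQ a s e r P)
    (fun P => P.card) ⟨{r, a r}, by simpa using gm_pair h he hr⟩
  simp only [mem_filter, mem_univ, true_and] at hP hmax
  refine ⟨P, hP, fun Q hQ => ?_⟩
  have h1 := hmax (P ∪ Q) (hP.union h he hr hQ)
  have h2 : P = P ∪ Q := eq_of_subset_of_card_le subset_union_left h1
  rw [h2]
  exact subset_union_right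

/-- Proof.  If `R` is disjoint from `e R`, then `e R` is one of the sets `GQ`.  Otherwise `r ∈ e R \ R`, `s r = e r ∈ R \ e R`, and `cut_cross` gives `cut (R ∪ e R) ≤ 2`, so
`R ∪ e R = univ`; then the complement of `R` is one of the sets `GQ`. -/
theorem max_alt (h : Good a s) (he : Refl a s e) (hr : e r = s r) {P R : Finset T}
    (hP : MaxQ a s e r P) (hR : Cl a R) (h4 : cut s R = 4) (h1 : r ∉ R) (h2 : s r ∈ R) :
    (∀ t ∈ R, e t ∈ P) ∨ ∀ t, t ∉ R → t ∈ P := by
  by_cases hd : ∀ t ∈ R, e t ∉ R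
  · left
    have hG : GQ a s e r (R.map e.toEmbedding) := by
      refine ⟨refl_cl he hR, by rw [refl_cut he, h4], ?_, ?_⟩
      · rw [gm_mem he, hr]
        exact h2
      · intro t ht ht'
        rw [gm_mem he] at ht ht'
        exact hd _ ht ht'
    intro t ht
    refine hP.2 _ hG ?_
    rw [gm_mem he, he.ee]
    exact ht
  · right
    push Not at hd
    obtain ⟨t, ht, ht'⟩ := hd
    have h3 : r ∈ R.map e.toEmbedding \ R := by
      rw [mem_sdiff, gm_mem he, hr]
      exact ⟨h2, h1⟩
    have h5 : s r ∈ R \ R.map e.toEmbedding := by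
      rw [mem_sdiff, gm_mem he]
      refine ⟨h2, ?_⟩
      rw [← hr, he.ee]
      exact h1
    have h6 := cut_cross s _ _ h3 h5
    rw [refl_cut he, h4] at h6
    have hcl := refl_cl he hR
    have h7 : 4 ≤ cut s (R.map e.toEmbedding ∩ R) := by
      refine h.ns _ (hcl.inter hR) ⟨t, mem_inter.2 ⟨(gm_mem he).2 ht', ht⟩⟩ fun hu => ?_
      have h8 : r ∈ R.map e.toEmbedding ∩ R := by rw [hu]; exact mem_univ _
      exact h1 (mem_inter.1 h8).2
    have h8 : R.map e.toEmbedding ∪ R = univ := by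
      by_contra hu
      have h9 := h.ns _ (hcl.union hR) ⟨t, mem_union_right _ ht⟩ hu
      omega
    have hG : GQ a s e r Rᶜ := by
      refine ⟨hR.compl, by rw [cut_compl, h4], mem_compl.2 h1, ?_⟩
      intro u hu hu'
      rw [mem_compl] at hu hu'
      have h9 : u ∈ R.map e.toEmbedding ∪ R := by rw [h8]; exact mem_univ _
      rw [mem_union, gm_mem he] at h9
      rcases h9 with h9 | h9
      · exact hu' h9
      · exact hu h9
    intro u hu
    exact hP.2 _ hG (mem_compl.2 hu)

/-- the mirror image of the largest set -/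
theorem MaxQ.alt_eq (h : Good a s) (he : Refl a s e) (hr : e r = s r) {P R : Finset T}
    (hP : MaxQ a s e r P) (hR : Cl a R) (h4 : cut s R = 4) (h1 : r ∉ R) (h2 : s r ∈ R)
    (h3 : P.map e.toEmbedding ⊆ R) (h5 : ∃ t, t ∉ R ∧ t ∉ P) : P.map e.toEmbedding = R := by
  refine Subset.antisymm h3 fun t ht => ?_
  rcases max_alt h he hr hP hR h4 h1 h2 with h6 | h6
  · rw [gm_mem he]
    exact h6 t ht
  · obtain ⟨u, hu, hu'⟩ := h5
    exact absurd (h6 u hu) hu'

end

end PGr

end

section
/-! # Module ParTwo: a net which is separated by its poles is parallel -/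

set_option linter.unusedSectionVars false

namespace PGr
open Equiv Finset

private theorem ParTwo_cl_root (M : BMap) : Cl M.aa M.root := by
  rintro (d | b)
  · simp [BMap.root, BMap.aa]
  · cases b <;> simp [BMap.root, BMap.aa]

private theorem ParTwo_mem_root {M : BMap} {t : M.T} : t ∈ M.root ↔ ∃ b, t = Sum.inr b := by
  simp only [BMap.root, mem_insert, mem_singleton]
  constructor
  · rintro (h | h)
    · exact ⟨_, h⟩
    · exact ⟨_, h⟩
  · rintro ⟨b, rfl⟩
    cases b <;> simp

private theorem ParTwo_aux {M : BMap} (hM : M.IsGood) {B : Finset M.T} (hB : Cl M.aa B)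
    (hr : Sum.inr true ∉ B) (hu : B ∪ M.root ≠ univ)
    (hp : ∀ t ∈ bd M.s B, ∃ b, M.s.SameCycle t (Sum.inr b)) (hf : M.s (Sum.inr true) ∈ B) :
    IsPar M := by
  have hloop : ¬ M.s.SameCycle (Sum.inr true) (Sum.inr false) := hM.noLoop (Sum.inr true)
  have hrf : ∀ {X : Finset M.T}, Cl M.aa X → Sum.inr true ∉ X → (Sum.inr false : M.T) ∉ X :=
    fun hX h1 h2 => h1 ((hX (Sum.inr true)).1 h2)
  have hroot : ∀ {X : Finset M.T}, Cl M.aa X → Sum.inr true ∉ X → ∀ t ∈ M.root, t ∉ X := by
    intro X hX h1 t ht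
    obtain ⟨b, rfl⟩ := ParTwo_mem_root.1 ht
    cases b
    · exact hrf hX h1
    · exact h1
  obtain ⟨B1, hB1, h4, hfB1, hrB1, hsub, hsh, x, hx, hx'⟩ := Good.exists_four hM hB hloop
    (fun t ht => by
      obtain ⟨z, hz, htz⟩ := Four.exists_bd_of_shC ht
      obtain ⟨b, hb⟩ := hp z hz
      cases b
      · exact Or.inr (htz.trans hb).symm
      · exact Or.inl (htz.trans hb).symm) (Perm.SameCycle.refl _ _) hr hf
  have hfB1' : (Sum.inr false : M.T) ∉ B1 := hrf hB1 hrB1
  have htb : (Sum.inr true : M.T) ∈ bd M.s B1 := by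
    rw [mem_bd]; exact fun e => hrB1 (e.mpr hfB1)
  -- the other boundary corner on the face of `inr true`
  obtain ⟨z, hzne, hzf, hzb⟩ := Four.partner (M.aa * M.s) (A := B1) (t := Sum.inr true)
    (by rw [Four.bd_dual hB1]; exact htb)
  rw [Four.bd_dual hB1] at hzb
  have hz : z = M.s⁻¹ (Sum.inr false) := by
    rcases hsh z (Four.shC_of_bd hzb) with h1 | h1
    · exact absurd hzf (hM.noPinch hzne.symm h1)
    · by_contra hne
      refine hM.noPinch hne ?_ ?_
      · exact h1.symm.trans ⟨-1, by simp⟩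
      · refine hzf.symm.trans ?_
        refine Perm.SameCycle.symm ⟨1, ?_⟩
        rw [zpow_one, Perm.mul_apply, SerExcl.apply_inv]
        rfl
  have hzB : M.s⁻¹ (Sum.inr false) ∈ B1 := by
    rw [hz, mem_bd, SerExcl.apply_inv] at hzb
    by_contra h1
    exact hzb ⟨fun h => absurd h h1, fun h => absurd h hfB1'⟩
  -- not everything
  have hrest : B1 ∪ M.root ≠ univ := by
    obtain ⟨y, hy⟩ : ∃ y, y ∉ B ∪ M.root := by
      by_contra hcon
      push Not at hcon
      exact hu (eq_univ_iff_forall.2 hcon)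
    set B' := (B ∪ M.root)ᶜ with hB'
    have hclB' : Cl M.aa B' := (hB.union (ParTwo_cl_root M)).compl
    have hneB' : B'.Nonempty := ⟨y, mem_compl.2 hy⟩
    have huB' : B' ≠ univ := by
      intro h0
      have h1 : (Sum.inr true : M.T) ∈ B' := h0 ▸ mem_univ _
      rw [hB', mem_compl, mem_union] at h1
      exact h1 (Or.inr (ParTwo_mem_root.2 ⟨true, rfl⟩))
    obtain ⟨t, t', ht, ht', htt⟩ := hM.two_shared hclB' hneB' huB'
    have hpole : ∀ u, ShC M.s B' u → M.s.SameCycle (Sum.inr true) u ∨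
        M.s.SameCycle (Sum.inr false) u := by
      intro u hu'
      obtain ⟨v, hv, huv⟩ := Four.exists_bd_of_shC hu'
      have hvs : M.s.SameCycle v (M.s v) := ⟨1, by simp⟩
      have key : ∃ b, M.s.SameCycle v (Sum.inr b) := by
        by_cases h1 : v ∈ M.root
        · obtain ⟨b, rfl⟩ := ParTwo_mem_root.1 h1
          exact ⟨b, Perm.SameCycle.refl _ _⟩
        by_cases h2 : M.s v ∈ M.root
        · obtain ⟨b, hb⟩ := ParTwo_mem_root.1 h2
          exact ⟨b, by rw [← hb]; exact hvs⟩
        · refine hp v ?_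
          rw [mem_bd] at hv ⊢
          intro h3
          apply hv
          rw [hB', mem_compl, mem_compl, mem_union, mem_union]
          tauto
      obtain ⟨b, hb⟩ := key
      cases b
      · exact Or.inr (huv.trans hb).symm
      · exact Or.inl (huv.trans hb).symm
    obtain ⟨u, hu1, hu2⟩ : ∃ u, ShC M.s B' u ∧ M.s.SameCycle (Sum.inr true) u := by
      rcases hpole t ht with h1 | h1
      · exact ⟨t, ht, h1⟩
      rcases hpole t' ht' with h2 | h2
      · exact ⟨t', ht', h2⟩
      · exact absurd (h1.symm.trans h2) htt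
    obtain ⟨⟨y', hy', hy2⟩, -⟩ := hu1
    intro h0
    have h1 : y' ∈ B1 ∪ M.root := h0 ▸ mem_univ _
    rw [hB', mem_compl, mem_union, not_or] at hy'
    rcases mem_union.1 h1 with h2 | h2
    · exact hy'.1 (hsub y' (hu2.trans hy2) h2)
    · exact hy'.2 h2
  -- the cut of `B1 ∪ root`
  have h4' : cut M.s (B1 ∪ M.root) = 4 := by
    have hge : 4 ≤ cut M.s (B1 ∪ M.root) :=
      hM.ns _ (hB1.union (ParTwo_cl_root M)) ⟨_, mem_union_left _ hfB1⟩ hrest
    have hle : cut M.s (B1 ∪ M.root) ≤ 4 := by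
      have c1 : cut M.s B1 = 2 * (univ.filter fun t => t ∈ B1 ∧ M.s t ∉ B1).card := by
        convert cut_eq_two_mul M.s B1
      have c2 : cut M.s (B1 ∪ M.root) =
          2 * (univ.filter fun t => t ∈ B1 ∪ M.root ∧ M.s t ∉ B1 ∪ M.root).card := by
        convert cut_eq_two_mul M.s (B1 ∪ M.root)
      have hsub' : (univ.filter fun t => t ∈ B1 ∪ M.root ∧ M.s t ∉ B1 ∪ M.root) ⊆
          insert (Sum.inr false) ((univ.filter fun t => t ∈ B1 ∧ M.s t ∉ B1).erase
            (M.s⁻¹ (Sum.inr false))) := by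
        intro t ht
        rw [mem_filter, mem_union, mem_union, not_or] at ht
        obtain ⟨-, h1, h2, h3⟩ := ht
        rw [mem_insert, mem_erase, mem_filter]
        rcases h1 with h1 | h1
        · right
          refine ⟨fun e => h3 ?_, mem_univ _, h1, h2⟩
          rw [e, SerExcl.apply_inv]
          exact ParTwo_mem_root.2 ⟨false, rfl⟩
        · obtain ⟨b, rfl⟩ := ParTwo_mem_root.1 h1
          cases b
          · exact Or.inl rfl
          · exact absurd hfB1 h2
      have h5 := (card_le_card hsub').trans (card_insert_le _ _)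
      rw [card_erase_of_mem] at h5
      · have h6 : 0 < (univ.filter fun t => t ∈ B1 ∧ M.s t ∉ B1).card := by omega
        omega
      · rw [mem_filter, SerExcl.apply_inv]
        exact ⟨mem_univ _, hzB, hfB1'⟩
    omega
  refine ⟨B1, ⟨hB1, hrB1, (hB1 _).2 hfB1, hrest, ?_, ?_⟩, ?_⟩
  · exact (cut_dual hB1).trans h4
  · exact (cut_dual (hB1.union (ParTwo_cl_root M))).trans h4'
  · have e : (M.aa * M.s)⁻¹ (Sum.inr true) = M.s⁻¹ (Sum.inr false) := by
      rw [Perm.inv_eq_iff_eq, Perm.mul_apply, SerExcl.apply_inv]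
      rfl
    show (M.aa * M.s)⁻¹ (Sum.inr true) ∈ B1
    rw [e]
    exact hzB

/-- A set of nonroot edges whose boundary corners are all at the poles (vertices of root darts), not empty, not everything: the net is parallel.
Proof.  Let `p`, `q` be the vertices of `inr true`, `inr false`.  Replacing `B` by `(B ∪ root)ᶜ` we may assume `s (inr true) ∈ B` (the boundary corners of the complement of `B ∪ root` are at the poles
too).  Both `B` and `(B ∪ root)ᶜ` have darts at `p` and at `q` (`Good.two_shared`).  `Good.exists_four` with `A = B`, `c = inr true` gives a closed set `B₁` of cut 4, `s (inr true) ∈ B₁`, `inr true ∉ B₁`,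
whose darts at `p` are in `B`, and whose shared vertices are `p`, `q`; two boundary corners at each.  The face of the corner `inr true` contains the corner `s⁻¹ (inr false)` (`a (s (s⁻¹ (inr false))) = inr true`) at `q`;
it contains an even number of boundary corners of `B₁` (`bd_dual`, `PrefType_even`), one of them is `inr true`, by `noPinch` it contains at most one corner at `p` and one at `q`, so
`s⁻¹ (inr false)` is a boundary corner and `s⁻¹ (inr false) ∈ B₁`.  At `p` the dart `s⁻¹ (inr true)` is not in `B₁` (otherwise all nonroot darts at `p` are in `B₁ ⊆ B`).  The cut of `B₁ ∪ root` is at least 4 (not everything: `(B ∪ root)ᶜ` has a dart at `p`),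
and it is 4 (if `s (inr false) ∈ B₁` it would be 2).  So `B₁` is a prefix and a series prefix of the dual as in `pref_ser_or_par`. -/
theorem par_of_two {M : BMap} (hM : M.IsGood) {B : Finset M.T} (hB : Cl M.aa B)
    (hr : Sum.inr true ∉ B) (hne : B.Nonempty) (hu : B ∪ M.root ≠ univ)
    (hp : ∀ t ∈ bd M.s B, ∃ b, M.s.SameCycle t (Sum.inr b)) : IsPar M := by
  by_cases hf : M.s (Sum.inr true) ∈ B
  · exact ParTwo_aux hM hB hr hu hp hf
  have hrootB : ∀ t ∈ M.root, t ∉ B := by
    intro t ht h1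
    obtain ⟨b, rfl⟩ := ParTwo_mem_root.1 ht
    cases b
    · exact hr ((hB (Sum.inr true)).1 h1)
    · exact hr h1
  refine ParTwo_aux hM (B := (B ∪ M.root)ᶜ) (hB.union (ParTwo_cl_root M)).compl ?_ ?_ ?_ ?_
  · rw [mem_compl, mem_union, not_not]
    exact Or.inr (ParTwo_mem_root.2 ⟨true, rfl⟩)
  · obtain ⟨x, hx⟩ := hne
    intro h0
    have h1 : x ∈ (B ∪ M.root)ᶜ ∪ M.root := h0 ▸ mem_univ _
    rcases mem_union.1 h1 with h2 | h2
    · exact mem_compl.1 h2 (mem_union_left _ hx)
    · exact hrootB x h2 hx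
  · intro v hv
    have hvs : M.s.SameCycle v (M.s v) := ⟨1, by simp⟩
    by_cases h1 : v ∈ M.root
    · obtain ⟨b, rfl⟩ := ParTwo_mem_root.1 h1
      exact ⟨b, Perm.SameCycle.refl _ _⟩
    by_cases h2 : M.s v ∈ M.root
    · obtain ⟨b, hb⟩ := ParTwo_mem_root.1 h2
      exact ⟨b, by rw [← hb]; exact hvs⟩
    · refine hp v ?_
      rw [mem_bd] at hv ⊢
      intro h3
      apply hv
      rw [mem_compl, mem_compl, mem_union, mem_union]
      tauto
  · rw [mem_compl, mem_union, not_or]
    refine ⟨hf, fun h1 => ?_⟩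
    obtain ⟨b, hb⟩ := ParTwo_mem_root.1 h1
    cases b
    · exact hM.s_ne_a (Sum.inr true) hb
    · exact hM.s_ne (Sum.inr true) hb

end PGr

end

section
/-! # Module GpA: two nets which are mirror images of each other -/

set_option linter.unusedSectionVars false

namespace PGr
open Equiv Finset
open scoped ENNReal Classical

theorem GpA_bd_univ (M : GB) : cut M.1.s (dn (univ : Finset M.1.D)) = 4 := by
  have h1 := Good.cut_pair M.2 (Sum.inr true)
  have h2 : (dn (univ : Finset M.1.D)) = ({Sum.inr true, M.1.aa (Sum.inr true)} : Finset M.1.T)ᶜ := by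
    ext t
    rw [mem_compl, mem_insert, mem_singleton]
    rcases t with d | b
    · constructor
      · intro _ h3
        rcases h3 with h3 | h3
        · have h4 : (Sum.inl d : M.1.D ⊕ Bool) = Sum.inr true := h3
          simp at h4
        · have h4 : (Sum.inl d : M.1.D ⊕ Bool) = Sum.inr false := h3
          simp at h4
      · intro _
        exact AxPart_mem_dn.2 (mem_univ _)
    · constructor
      · intro h3
        exact absurd h3 AxPart_dn_inr
      · intro h3
        exfalso
        apply h3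
        cases b
        · exact Or.inr rfl
        · exact Or.inl rfl
  rw [h2, cut_compl, h1]

/-- two darts of a good map which are adjacent in the rotation -/
theorem GpA_sc {T : Type*} (s : Perm T) (x : T) : s.SameCycle x (s x) := ⟨1, by simp⟩

theorem GpA_fst_sc (N : GB) (b : Bool) :
    N.1.s.SameCycle (Sum.inr b) (Sum.inl (fstD N b)) := by
  rw [← fstD_spec]; exact GpA_sc _ _

theorem GpA_lst_sc (N : GB) (b : Bool) :
    N.1.s.SameCycle (Sum.inl (CompInj.lstD N b)) (Sum.inr b) := by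
  rw [← CompInj.lstD_spec]; exact GpA_sc _ _

theorem GpA_refl_sc {T : Type*} [Fintype T] [DecidableEq T] {a s e : Perm T} (he : Refl a s e)
    {x y : T} (h : s.SameCycle x y) : s.SameCycle (e x) (e y) := by
  obtain ⟨n, -, hn⟩ := h.exists_pow_eq'
  have h1 : ∀ (n : ℕ) (t : T), (s ^ n) (e ((s ^ n) t)) = e t := by
    intro n
    induction n with
    | zero => intro t; rfl
    | succ n ih =>
      intro t
      have i1 : (s ^ (n + 1)) t = s ((s ^ n) t) := by rw [pow_succ', Perm.mul_apply]
      have i2 : ∀ z, (s ^ (n + 1)) z = (s ^ n) (s z) := fun z => by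
        rw [pow_succ, Perm.mul_apply]
      rw [i1, i2, he.es, ih]
  refine Perm.SameCycle.symm ⟨n, ?_⟩
  rw [zpow_natCast, ← hn]
  exact h1 n x

theorem GpA_es {T : Type*} [Fintype T] [DecidableEq T] {a s e : Perm T} (he : Refl a s e)
    (t : T) : e (s t) = s⁻¹ (e t) := by
  rw [Perm.eq_inv_iff_eq, he.es]

/-- a parallel net has a prefix whose boundary corners are at the poles -/
theorem GpA_prefix (N : GB) (h : IsPar N.1) : ∃ B : Finset N.1.D, Cl N.1.aa (dn B) ∧
    cut N.1.s (dn B) = 4 ∧ fstD N true ∈ B ∧ CompInj.lstD N false ∈ B ∧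
    CompInj.lstD N true ∉ B ∧ ∀ t ∈ bd N.1.s (dn B), ∃ b, N.1.s.SameCycle t (Sum.inr b) := by
  obtain ⟨A, hA, hAs⟩ := h
  have hA' := Pref.of_dual N.2 hA
  have hnr : ∀ b, (Sum.inr b : N.1.T) ∉ A := fun b h1 =>
    hA'.root ((CompFour.inr_mem_iff hA'.cl b true).1 h1)
  have hs1 : N.1.s⁻¹ (Sum.inr true) ∉ A := fun h1 =>
    not_ser_par N.2 ⟨A, hA', h1⟩ ⟨A, hA, hAs⟩
  have hs2 : N.1.s⁻¹ (Sum.inr false) ∈ A := by
    have e : (N.1.aa * N.1.s)⁻¹ (Sum.inr true) = N.1.s⁻¹ (Sum.inr false) := by
      rw [Perm.inv_eq_iff_eq, Perm.mul_apply, SerExcl.apply_inv]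
      rfl
    have h5 : (N.1.aa * N.1.s)⁻¹ (Sum.inr true) ∈ A := hAs
    rwa [e] at h5
  have hl : ∀ b, N.1.s⁻¹ (Sum.inr b) = Sum.inl (CompInj.lstD N b) := by
    intro b
    rw [Perm.inv_eq_iff_eq, CompInj.lstD_spec]
  have hdn : dn (univ.filter fun d => (Sum.inl d : N.1.T) ∈ A) = A := by
    ext t
    rcases t with d | b
    · rw [AxPart_mem_dn, mem_filter]
      exact ⟨fun h1 => h1.2, fun h1 => ⟨mem_univ _, h1⟩⟩
    · exact iff_of_false AxPart_dn_inr (hnr b)
  have hf : N.1.s (Sum.inr true) ∈ A := hA'.fst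
  have h4 : (bd N.1.s A).card = 4 := hA'.cut4
  have t1 : (Sum.inr true : N.1.T) ∈ bd N.1.s A := mem_bd.2 fun h1 => hA'.root (h1.2 hf)
  have t2 : N.1.s⁻¹ (Sum.inr false) ∈ bd N.1.s A := by
    rw [mem_bd]
    intro h1
    have h2 := h1.1 hs2
    have h3 : N.1.s (N.1.s⁻¹ (Sum.inr false)) = Sum.inr false := by simp
    rw [h3] at h2
    exact hnr _ h2
  obtain ⟨p1, hp1, hc1, hb1⟩ := Four.partner N.1.s t1
  obtain ⟨p2, hp2, hc2, hb2⟩ := Four.partner N.1.s t2
  have c2 : N.1.s.SameCycle (N.1.s⁻¹ (Sum.inr false)) (Sum.inr false) := by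
    have h3 := GpA_sc N.1.s (N.1.s⁻¹ (Sum.inr false))
    have h4 : N.1.s (N.1.s⁻¹ (Sum.inr false)) = Sum.inr false := by simp
    rwa [h4] at h3
  have hno : ∀ x y, N.1.s.SameCycle x (Sum.inr true) → N.1.s.SameCycle y (Sum.inr false) →
      x ≠ y := by
    intro x y hx hy hxy
    subst hxy
    have := CompVAux.root_uniq N hx hy
    simp at this
  have hsub : ({Sum.inr true, p1, N.1.s⁻¹ (Sum.inr false), p2} : Finset N.1.T) ⊆ bd N.1.s A := by
    intro x hx
    simp only [mem_insert, mem_singleton] at hx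
    rcases hx with rfl | rfl | rfl | rfl
    · exact t1
    · exact hb1
    · exact t2
    · exact hb2
  have hcard : ({Sum.inr true, p1, N.1.s⁻¹ (Sum.inr false), p2} : Finset N.1.T).card = 4 := by
    rw [card_insert_of_notMem, card_insert_of_notMem, card_insert_of_notMem, card_singleton]
    · rw [mem_singleton]
      exact hp2.symm
    · simp only [mem_insert, mem_singleton, not_or]
      exact ⟨hno _ _ hc1.symm c2, hno _ _ hc1.symm (hc2.symm.trans c2)⟩
    · simp only [mem_insert, mem_singleton, not_or]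
      exact ⟨hp1.symm, hno _ _ (Perm.SameCycle.refl _ _) c2,
        hno _ _ (Perm.SameCycle.refl _ _) (hc2.symm.trans c2)⟩
  have heq := eq_of_subset_of_card_le hsub (by rw [hcard, h4])
  refine ⟨univ.filter fun d => (Sum.inl d : N.1.T) ∈ A, ?_, ?_, ?_, ?_, ?_, ?_⟩
  · rw [hdn]; exact hA'.cl
  · rw [hdn]; exact hA'.cut4
  · rw [mem_filter, ← fstD_spec]
    exact ⟨mem_univ _, hf⟩
  · rw [mem_filter, ← hl]
    exact ⟨mem_univ _, hs2⟩
  · rw [mem_filter, ← hl]
    exact fun h1 => hs1 h1.2
  · rw [hdn, ← heq]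
    intro t ht
    simp only [mem_insert, mem_singleton] at ht
    rcases ht with rfl | rfl | rfl | rfl
    · exact ⟨true, Perm.SameCycle.refl _ _⟩
    · exact ⟨true, hc1.symm⟩
    · exact ⟨false, c2⟩
    · exact ⟨false, hc2.symm.trans c2⟩

/-- two corners between two sets -/
theorem GpA_cut_two {T : Type*} [Fintype T] [DecidableEq T] {s : Perm T} {A B : Finset T}
    (hA : cut s A ≤ 4) (hB : cut s B ≤ 4) {x y : T} (hxy : x ≠ y)
    (hx : x ∈ bd s A ∧ x ∈ bd s B ∧ x ∉ bd s (A ∪ B))
    (hy : y ∈ bd s A ∧ y ∈ bd s B ∧ y ∉ bd s (A ∪ B)) : cut s (A ∪ B) ≤ 4 := by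
  unfold cut at *
  have h1 : bd s (A ∪ B) ⊆ (bd s A ∪ bd s B) \ {x, y} := by
    intro t ht
    rw [mem_sdiff, mem_union, mem_insert, mem_singleton]
    refine ⟨?_, ?_⟩
    · by_contra hcon
      push Not at hcon
      rw [mem_bd] at ht
      apply ht
      have h2 := hcon.1
      have h3 := hcon.2
      rw [mem_bd, not_not] at h2 h3
      rw [mem_union, mem_union, h2, h3]
    · rintro (rfl | rfl)
      · exact hx.2.2 ht
      · exact hy.2.2 ht
  have h2 : ({x, y} : Finset T) ⊆ bd s A ∩ bd s B := by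
    intro t ht
    rw [mem_insert, mem_singleton] at ht
    rcases ht with rfl | rfl
    · exact mem_inter.2 ⟨hx.1, hx.2.1⟩
    · exact mem_inter.2 ⟨hy.1, hy.2.1⟩
  have h3 : ({x, y} : Finset T) ⊆ bd s A ∪ bd s B := fun t ht =>
    mem_union_left _ (mem_inter.1 (h2 ht)).1
  have h4 : ({x, y} : Finset T).card = 2 := card_pair hxy
  have h5 := card_le_card h1
  rw [card_sdiff_of_subset h3, h4] at h5
  have h6 := card_le_card h2
  rw [h4] at h6
  have h7 := card_union_add_card_inter (bd s A) (bd s B)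
  omega

section
variable {K N : GB}

theorem GpA_ll {d d' : K.1.D} (h : K.1.s (Sum.inl d) = Sum.inl d') :
    twoS K N (Sum.inl d) = Sum.inl d' := by rw [twoS_apply, twoFun_ll h]
theorem GpA_lr {d : K.1.D} {b : Bool} (h : K.1.s (Sum.inl d) = Sum.inr b) :
    twoS K N (Sum.inl d) = Sum.inr (fstD N b) := by rw [twoS_apply, twoFun_lr h]
theorem GpA_rr {d d' : N.1.D} (h : N.1.s (Sum.inl d) = Sum.inl d') :
    twoS K N (Sum.inr d) = Sum.inr d' := by rw [twoS_apply, twoFun_rr h]
theorem GpA_rl {d : N.1.D} {b : Bool} (h : N.1.s (Sum.inl d) = Sum.inr b) :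
    twoS K N (Sum.inr d) = Sum.inl (fstD K b) := by rw [twoS_apply, twoFun_rl h]

/-- the reflection exchanges `inr d` and `inl (φ d)` -/
theorem swap_refl {K N : GB} {φ : N.1.T ≃ K.1.T} (h : TwI true false N.1 K.1 φ) :
    ∃ e : Perm (K.1.D ⊕ N.1.D), Refl (twoA K N) (twoS K N) e ∧
      e (twoR K N) = twoS K N (twoR K N) ∧
      ∀ d d', φ (Sum.inl d) = Sum.inl d' → e (Sum.inr d) = Sum.inl d' ∧ e (Sum.inl d') = Sum.inr d := by
  have hroot : ∀ b, φ (Sum.inr b) = Sum.inr b := by
    intro b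
    rw [h.root]
    cases b <;> rfl
  have h0 : ∀ d, ∃ d', φ (Sum.inl d) = Sum.inl d' := h.inl
  choose f hf using h0
  have hbij : Function.Bijective f := by
    constructor
    · intro d d' hd
      have h1 : φ (Sum.inl d) = φ (Sum.inl d') := by rw [hf, hf, hd]
      exact Sum.inl_injective (φ.injective h1)
    · intro d'
      obtain ⟨d, hd⟩ := h.symm.inl d'
      refine ⟨d, ?_⟩
      rw [Equiv.symm_apply_eq, hf] at hd
      exact (Sum.inl_injective hd).symm
  set g : N.1.D ≃ K.1.D := Equiv.ofBijective f hbij with hg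
  have hφ : ∀ d, φ (Sum.inl d) = Sum.inl (g d) := hf
  have hgs : ∀ d, φ (Sum.inl (g.symm d)) = Sum.inl d := fun d => by
    rw [hφ, Equiv.apply_symm_apply]
  have hga : ∀ d, g (N.1.a d) = K.1.a (g d) := by
    intro d
    have h1 : φ (Sum.inl (N.1.a d)) = K.1.aa (φ (Sum.inl d)) := h.aa (Sum.inl d)
    rw [hφ, hφ] at h1
    exact Sum.inl_injective h1
  have hrot : ∀ t, K.1.s (φ (N.1.s t)) = φ t := by
    intro t
    rw [h.rot t, twS_true]
    simp
  -- inside the nets
  have hin : ∀ d d', N.1.s (Sum.inl d) = Sum.inl d' → K.1.s (Sum.inl (g d')) = Sum.inl (g d) := by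
    intro d d' h1
    have h2 := hrot (Sum.inl d)
    rwa [h1, hφ, hφ] at h2
  have hin' : ∀ d d', K.1.s (Sum.inl d) = Sum.inl d' →
      N.1.s (Sum.inl (g.symm d')) = Sum.inl (g.symm d) := by
    intro d d' h1
    rcases h2 : N.1.s (Sum.inl (g.symm d')) with d'' | b
    · have h3 := hin _ _ h2
      rw [Equiv.apply_symm_apply, ← h1] at h3
      have h4 := Sum.inl_injective (K.1.s.injective h3)
      rw [← h4, Equiv.symm_apply_apply]
    · exfalso
      have h3 := hrot (Sum.inl (g.symm d'))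
      rw [h2, hroot, hgs, ← h1] at h3
      have h4 := K.1.s.injective h3
      simp at h4
  have hlf : ∀ b, g (CompInj.lstD N b) = fstD K b := by
    intro b
    have h2 := hrot (Sum.inl (CompInj.lstD N b))
    rw [CompInj.lstD_spec, hroot, fstD_spec, hφ] at h2
    exact (Sum.inl_injective h2).symm
  have hfl : ∀ b, g (fstD N b) = CompInj.lstD K b := by
    intro b
    have h2 := hrot (Sum.inr b)
    rw [fstD_spec, hφ, hroot] at h2
    exact CompInj.eq_lstD h2
  set e : Perm (K.1.D ⊕ N.1.D) := ⟨fun t => match t with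
      | Sum.inl d => Sum.inr (g.symm d)
      | Sum.inr d => Sum.inl (g d), fun t => match t with
      | Sum.inl d => Sum.inr (g.symm d)
      | Sum.inr d => Sum.inl (g d), by rintro (d | d) <;> simp, by rintro (d | d) <;> simp⟩
    with he
  have el : ∀ d, e (Sum.inl d) = Sum.inr (g.symm d) := fun d => rfl
  have er : ∀ d, e (Sum.inr d) = Sum.inl (g d) := fun d => rfl
  refine ⟨e, ⟨?_, ?_, ?_⟩, ?_, ?_⟩
  · rintro (d | d)
    · show Sum.inr (g.symm (K.1.a d)) = (Sum.inr (N.1.a (g.symm d)) : K.1.D ⊕ N.1.D)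
      congr 1
      rw [Equiv.symm_apply_eq, hga, Equiv.apply_symm_apply]
    · show Sum.inl (g (N.1.a d)) = (Sum.inl (K.1.a (g d)) : K.1.D ⊕ N.1.D)
      rw [hga]
  · rintro (d | d)
    · rcases h1 : K.1.s (Sum.inl d) with d' | b
      · rw [GpA_ll h1, el, GpA_rr (hin' d d' h1), el]
      · rw [GpA_lr h1, er, hfl, GpA_lr (CompInj.lstD_spec K b), el, CompInj.eq_lstD h1, ← hfl,
          Equiv.symm_apply_apply]
    · rcases h1 : N.1.s (Sum.inl d) with d' | b
      · rw [GpA_rr h1, er, GpA_ll (hin d d' h1), er]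
      · rw [GpA_rl h1, el, CompInj.eq_lstD h1, er, hlf]
        have h2 : g.symm (fstD K b) = CompInj.lstD N b := by
          rw [← hlf, Equiv.symm_apply_apply]
        rw [h2, GpA_rl (CompInj.lstD_spec N b)]
  · rintro (d | d)
    · rw [el, er, Equiv.apply_symm_apply]
    · rw [er, el, Equiv.symm_apply_apply]
  · rw [twoR_s, twoR, er, hlf]
  · intro d d' h1
    rw [hφ] at h1
    have h2 : g d = d' := Sum.inl_injective h1
    rw [er, el, ← h2, Equiv.symm_apply_apply]
    exact ⟨rfl, rfl⟩

/-- the twisted isomorphism of the nets given by a reflection which exchanges them -/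
theorem GpA_phi {e : Perm (K.1.D ⊕ N.1.D)} (he : Refl (twoA K N) (twoS K N) e)
    (hr : e (twoR K N) = twoS K N (twoR K N)) (hs : ∀ d, ∃ d', e (Sum.inr d) = Sum.inl d')
    (hs' : ∀ d, ∃ d', e (Sum.inl d) = Sum.inr d') :
    ∃ φ, TwI true false N.1 K.1 φ ∧ ∀ d d', φ (Sum.inl d) = Sum.inl d' →
      e (Sum.inr d) = Sum.inl d' := by
  obtain ⟨c, φ, h1, h2⟩ := chart_iso (m := true) (chart_r K N) (chart_l K N) e he.ea
    (fun t => GpA_es he t) (fun t => by
      rcases t with d | d
      · refine iff_of_false ?_ ?_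
        · rintro ⟨d', h1⟩
          simp at h1
        · rintro ⟨d', h1⟩
          obtain ⟨d'', h2⟩ := hs' d
          rw [h2] at h1
          simp at h1
      · obtain ⟨d', h1⟩ := hs d
        exact iff_of_true ⟨d, rfl⟩ ⟨d', h1⟩)
  have hc : c = false := by
    obtain ⟨d', hd'⟩ := h1.inl (CompInj.lstD N true)
    have h3 := h2 _ _ hd'
    have h4 : e (Sum.inr (CompInj.lstD N true)) = Sum.inl (fstD K true) := by
      have h5 := hr
      rw [twoR_s, twoR] at h5
      exact h5
    rw [h4] at h3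
    have h5 : fstD K true = d' := Sum.inl_injective h3
    have h6 := h1.rot (Sum.inl (CompInj.lstD N true))
    rw [CompInj.lstD_spec, h1.root, hd', ← h5, twS_true, Perm.eq_inv_iff_eq] at h6
    rw [← fstD_spec K true] at h6
    have h7 := Sum.inr_injective (K.1.s.injective h6)
    revert h7
    cases c <;> decide
  subst hc
  exact ⟨φ, h1, h2⟩

/-- last darts go to first darts and first darts to last darts -/
theorem GpA_ends {e : Perm (K.1.D ⊕ N.1.D)} {φ : N.1.T ≃ K.1.T} (h : TwI true false N.1 K.1 φ)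
    (h2 : ∀ d d', φ (Sum.inl d) = Sum.inl d' → e (Sum.inr d) = Sum.inl d') (b : Bool) :
    e (Sum.inr (CompInj.lstD N b)) = Sum.inl (fstD K b) ∧
      e (Sum.inr (fstD N b)) = Sum.inl (CompInj.lstD K b) := by
  have hroot : ∀ b, φ (Sum.inr b) = Sum.inr b := by
    intro b
    rw [h.root]
    cases b <;> rfl
  have hrot : ∀ t, K.1.s (φ (N.1.s t)) = φ t := by
    intro t
    rw [h.rot t, twS_true]
    simp
  constructor
  · apply h2
    have h3 := hrot (Sum.inl (CompInj.lstD N b))
    rw [CompInj.lstD_spec, hroot, fstD_spec] at h3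
    exact h3.symm
  · apply h2
    have h3 := hrot (Sum.inr b)
    rw [fstD_spec, hroot] at h3
    obtain ⟨d', hd'⟩ := h.inl (fstD N b)
    rw [hd'] at h3 ⊢
    rw [CompInj.eq_lstD h3]

/-- Proof.  From left to right: let `N` be parallel; then (`IsPar`, `Pref.of_dual`, `not_ser_par`) there is a prefix `dn B` of `N` with `fstD true ∈ B`, `lstD false ∈ B`, `lstD true ∉ B`, of cut 4; two of its boundary corners are next to
the root darts at the two poles, so all are at poles (an even number at each vertex).  `A = inr B ∪ e (inr B)` is closed and invariant, does not contain the root, and its cut is at most `4 + 4 - 2 * 2`: the corners after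
`inl (lstD K true)` and after `inr (lstD N false)` are between the two sets (`e` maps first darts to last darts).  The boundary corners of `A` are at poles, which are fixed by `e`, and `A` has at least 4 darts.  From right to left: let `A` be as in `MRed`,
`B = {d | inr d ∈ A}`.  `B` is not empty as `A` is invariant and not empty (cut 4), and `lstD true ∉ B`.  A boundary corner of `dn B` in `N` is next to a root dart, or it is a boundary corner of `A`, its vertex is fixed by `e` and contains darts of both nets, so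
it is a pole (`two_sc_lr`).  By `par_of_two` `N` is parallel. -/
theorem swap_red {K N : GB} {e : Perm (K.1.D ⊕ N.1.D)} (he : Refl (twoA K N) (twoS K N) e)
    (hr : e (twoR K N) = twoS K N (twoR K N)) (hs : ∀ d, ∃ d', e (Sum.inr d) = Sum.inl d')
    (hs' : ∀ d, ∃ d', e (Sum.inl d) = Sum.inr d') :
    MRed (twoA K N) (twoS K N) e (twoR K N) ↔ ¬ IsPar N.1 := by
  obtain ⟨φ, hφ, hφe⟩ := GpA_phi he hr hs hs'
  have hend := GpA_ends hφ hφe
  have hG : Good (twoA K N) (twoS K N) := two_good K N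
  have hSl : ∀ b, twoS K N (Sum.inl (CompInj.lstD K b)) = Sum.inr (fstD N b) := fun b =>
    GpA_lr (CompInj.lstD_spec K b)
  have hSr : ∀ b, twoS K N (Sum.inr (CompInj.lstD N b)) = Sum.inl (fstD K b) := fun b =>
    GpA_rl (CompInj.lstD_spec N b)
  constructor
  · intro hred hpar
    obtain ⟨B, hcl, hcut, hft, hlf, hlt, hpole⟩ := GpA_prefix N hpar
    set A₁ : Finset (K.1.D ⊕ N.1.D) := B.map ⟨Sum.inr, (chart_r K N).inj⟩ with hA₁
    set A₂ : Finset (K.1.D ⊕ N.1.D) := A₁.map e.toEmbedding with hA₂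
    have m1r : ∀ d, (Sum.inr d : K.1.D ⊕ N.1.D) ∈ A₁ ↔ d ∈ B := fun d =>
      ChartA_mem (chart_r K N).inj
    have m1l : ∀ d, (Sum.inl d : K.1.D ⊕ N.1.D) ∉ A₁ := by
      intro d h
      obtain ⟨d', -, h1⟩ := mem_map.1 h
      have h2 : (Sum.inr d' : K.1.D ⊕ N.1.D) = Sum.inl d := h1
      simp at h2
    have m2 : ∀ t, t ∈ A₂ ↔ e t ∈ A₁ := by
      intro t
      rw [hA₂, mem_map_equiv]
      have h1 : e.symm t = e t := by
        rw [Equiv.symm_apply_eq, he.ee]
      rw [h1]
    have m2r : ∀ d, (Sum.inr d : K.1.D ⊕ N.1.D) ∉ A₂ := by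
      intro d h
      rw [m2] at h
      obtain ⟨d', h1⟩ := hs d
      rw [h1] at h
      exact m1l _ h
    have c1 : Cl (twoA K N) A₁ := (chart_cl (chart_r K N) B).2 hcl
    have k1 : cut (twoS K N) A₁ = 4 := by rw [hA₁, chart_cut (chart_r K N) B, hcut]
    have c2 : Cl (twoA K N) A₂ := refl_cl he c1
    have k2 : cut (twoS K N) A₂ = 4 := by rw [hA₂, refl_cut he, k1]
    have hx1 : (Sum.inr (CompInj.lstD N false) : K.1.D ⊕ N.1.D) ∈ A₁ := (m1r _).2 hlf
    have hx2 : twoS K N (Sum.inr (CompInj.lstD N false)) ∈ A₂ := by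
      rw [m2, hSr, ← (hend false).1, he.ee]
      exact hx1
    have hy1 : twoS K N (Sum.inl (CompInj.lstD K true)) ∈ A₁ := by
      rw [hSl]; exact (m1r _).2 hft
    have hy2 : (Sum.inl (CompInj.lstD K true) : K.1.D ⊕ N.1.D) ∈ A₂ := by
      rw [m2, ← (hend true).2, he.ee]
      exact (m1r _).2 hft
    have hx3 : twoS K N (Sum.inr (CompInj.lstD N false)) ∉ A₁ := by
      rw [hSr]; exact m1l _
    have hy3 : twoS K N (Sum.inl (CompInj.lstD K true)) ∉ A₂ := by
      rw [hSl]; exact m2r _
    have hle : cut (twoS K N) (A₁ ∪ A₂) ≤ 4 := by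
      refine GpA_cut_two k1.le k2.le (x := Sum.inr (CompInj.lstD N false))
        (y := Sum.inl (CompInj.lstD K true)) (by simp) ⟨?_, ?_, ?_⟩ ⟨?_, ?_, ?_⟩
      · exact mem_bd.2 fun h => hx3 (h.1 hx1)
      · exact mem_bd.2 fun h => m2r _ (h.2 hx2)
      · rw [mem_bd, not_not]
        exact iff_of_true (mem_union_left _ hx1) (mem_union_right _ hx2)
      · exact mem_bd.2 fun h => m1l _ (h.2 hy1)
      · exact mem_bd.2 fun h => hy3 (h.1 hy2)
      · rw [mem_bd, not_not]
        exact iff_of_true (mem_union_right _ hy2) (mem_union_left _ hy1)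
    have hrA : twoR K N ∉ A₁ ∪ A₂ := by
      rw [mem_union, twoR, not_or]
      exact ⟨fun h => hlt ((m1r _).1 h), m2r _⟩
    have hge : 4 ≤ cut (twoS K N) (A₁ ∪ A₂) :=
      hG.ns _ (c1.union c2) ⟨_, mem_union_left _ hx1⟩ (fun h => hrA (by rw [h]; exact mem_univ _))
    -- poles
    have hpf : ∀ b, (twoS K N).SameCycle (Sum.inr (CompInj.lstD N b))
        (e (Sum.inr (CompInj.lstD N b))) := by
      intro b
      rw [(hend b).1, ← hSr]
      exact GpA_sc _ _
    have hA₁p : ∀ t ∈ bd (twoS K N) A₁, ∃ b,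
        (twoS K N).SameCycle t (Sum.inr (CompInj.lstD N b)) := by
      intro t ht
      rcases t with d | d
      · rw [mem_bd] at ht
        have h1 : twoS K N (Sum.inl d) ∈ A₁ := by
          by_contra h2
          exact ht (iff_of_false (m1l _) h2)
        rcases h2 : K.1.s (Sum.inl d) with d' | b
        · rw [GpA_ll h2] at h1
          exact absurd h1 (m1l _)
        · refine ⟨b, (GpA_sc _ _).trans ?_⟩
          rw [GpA_lr h2, two_sc_rr]
          exact (GpA_fst_sc N b).symm.trans (GpA_lst_sc N b).symm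
      · rcases h2 : N.1.s (Sum.inl d) with d' | b
        · have h3 : (Sum.inl d : N.1.T) ∈ bd N.1.s (dn B) := by
            rw [mem_bd, h2, AxPart_mem_dn, AxPart_mem_dn]
            rw [mem_bd, GpA_rr h2, m1r, m1r] at ht
            exact ht
          obtain ⟨b, hb⟩ := hpole _ h3
          exact ⟨b, (two_sc_rr K N _ _).2 (hb.trans (GpA_lst_sc N b).symm)⟩
        · exact ⟨b, by rw [← CompInj.eq_lstD h2]⟩
    have hends : ∀ t ∈ bd (twoS K N) (A₁ ∪ A₂), (twoS K N).SameCycle t (e t) := by
      intro t ht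
      have h1 : t ∈ bd (twoS K N) A₁ ∨ t ∈ bd (twoS K N) A₂ := by
        by_contra hcon
        push Not at hcon
        rw [mem_bd] at ht
        apply ht
        have h2 := hcon.1
        have h3 := hcon.2
        rw [mem_bd, not_not] at h2 h3
        rw [mem_union, mem_union, h2, h3]
      rcases h1 with h1 | h1
      · obtain ⟨b, hb⟩ := hA₁p t h1
        exact hb.trans ((hpf b).trans (GpA_refl_sc he hb).symm)
      · have h2 : e (twoS K N t) ∈ bd (twoS K N) A₁ := by
          rw [mem_bd, he.es, ← m2, ← m2]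
          rw [mem_bd] at h1
          exact fun h3 => h1 h3.symm
        obtain ⟨b, hb⟩ := hA₁p _ h2
        have h3 : (twoS K N).SameCycle (e t) (Sum.inr (CompInj.lstD N b)) := by
          have h4 := GpA_sc (twoS K N) (e (twoS K N t))
          rw [he.es] at h4
          exact h4.symm.trans hb
        have h5 := GpA_refl_sc he h3
        rw [he.ee] at h5
        exact h5.trans ((hpf b).symm.trans h3.symm)
    have hcard := hred (A₁ ∪ A₂) (c1.union c2) (by
      intro t ht
      rw [mem_union] at ht ⊢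
      rcases ht with ht | ht
      · right
        rw [m2, he.ee]
        exact ht
      · left
        exact (m2 t).1 ht) (le_antisymm hle hge) hrA hends
    have hdis : Disjoint A₁ A₂ := by
      rw [disjoint_left]
      intro t h1 h3
      rcases t with d | d
      · exact m1l _ h1
      · exact m2r _ h3
    rw [card_union_of_disjoint hdis] at hcard
    have hA₁c : A₁.card = B.card := card_map _
    have hA₂c : A₂.card = A₁.card := card_map _
    have hB2 : 2 ≤ B.card := by
      have h1 : N.1.a (fstD N true) ∈ B := by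
        have h2 := (hcl (Sum.inl (fstD N true))).2 (AxPart_mem_dn.2 hft)
        exact AxPart_mem_dn.1 h2
      have h2 : N.1.a (fstD N true) ≠ fstD N true := by
        intro h3
        have h4 : N.1.aa (Sum.inl (fstD N true)) = Sum.inl (fstD N true) :=
          congrArg Sum.inl h3
        exact N.2.fpf _ h4
      exact Finset.one_lt_card.2 ⟨_, h1, _, hft, h2⟩
    omega
  · intro hpar A hcl hinv hcut hrA hends
    exfalso
    apply hpar
    set B : Finset N.1.D := univ.filter fun d => (Sum.inr d : K.1.D ⊕ N.1.D) ∈ A with hB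
    have mB : ∀ d, d ∈ B ↔ (Sum.inr d : K.1.D ⊕ N.1.D) ∈ A := by
      intro d
      rw [hB, mem_filter]
      exact ⟨fun h => h.2, fun h => ⟨mem_univ _, h⟩⟩
    have hAne : A.Nonempty := by
      rw [nonempty_iff_ne_empty]
      rintro rfl
      simp [cut, bd] at hcut
    refine par_of_two N.2 (B := dn B) ?_ AxPart_dn_inr ?_ ?_ ?_
    · intro t
      rcases t with d | b
      · have h1 : N.1.aa (Sum.inl d) = Sum.inl (N.1.a d) := rfl
        rw [h1, AxPart_mem_dn, AxPart_mem_dn, mB, mB]
        exact hcl (Sum.inr d)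
      · exact iff_of_false AxPart_dn_inr AxPart_dn_inr
    · obtain ⟨t, ht⟩ := hAne
      rcases t with d | d
      · obtain ⟨d', hd'⟩ := hs' d
        have h1 := hinv _ ht
        rw [hd'] at h1
        exact ⟨_, AxPart_mem_dn.2 ((mB _).2 h1)⟩
      · exact ⟨_, AxPart_mem_dn.2 ((mB _).2 ht)⟩
    · intro h1
      have h2 : (Sum.inl (CompInj.lstD N true) : N.1.T) ∈ dn B ∪ N.1.root := by
        rw [h1]; exact mem_univ _
      rw [mem_union, AxPart_mem_dn, mB] at h2
      rcases h2 with h2 | h2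
      · exact hrA h2
      · obtain ⟨b₁, hb₁⟩ := CompFour.mem_root.1 h2
        have h4 : (Sum.inl (CompInj.lstD N true) : N.1.D ⊕ Bool) = Sum.inr b₁ := hb₁
        simp at h4
    · intro t ht
      rcases t with d | b
      · rcases h2 : N.1.s (Sum.inl d) with d' | b
        · have h3 : (Sum.inr d : K.1.D ⊕ N.1.D) ∈ bd (twoS K N) A := by
            rw [mem_bd, GpA_rr h2, ← mB, ← mB]
            rw [mem_bd, h2, AxPart_mem_dn, AxPart_mem_dn] at ht
            exact ht
          have h4 := hends _ h3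
          obtain ⟨d'', hd''⟩ := hs d
          rw [hd''] at h4
          obtain ⟨b, -, hb⟩ := (two_sc_lr K N d'' d).1 h4.symm
          exact ⟨b, hb⟩
        · exact ⟨b, by rw [← h2]; exact GpA_sc _ _⟩
      · exact ⟨b, Perm.SameCycle.refl _ _⟩

/-- reflections with the same image of the root -/
theorem GpA_unique {T : Type} [Fintype T] [DecidableEq T] {a s e e' : Perm T} (h : Good a s)
    (he : Refl a s e) (he' : Refl a s e') {r : T} (hr : e r = e' r) : e = e' := by
  have h1 : Good a (twS true s) := Good_twS true h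
  have h2 : ∀ {f : Perm T}, Refl a s f → ∀ t, f (twS true s t) = s (f t) := by
    intro f hf t
    rw [twS_true]
    have h3 := hf.es (s⁻¹ t)
    have h4 : s (s⁻¹ t) = t := by simp
    rw [h4] at h3
    exact h3.symm
  exact iso_unique h1 r e e' he.ea (h2 he) he'.ea (h2 he') hr

theorem GpA_prN {t : K.1.D ⊕ N.1.D} : t ∈ prN K N ↔ ∃ d, t = Sum.inr d := by
  unfold prN
  rw [mem_map]
  constructor
  · rintro ⟨d, -, h⟩
    exact ⟨d, h.symm⟩
  · rintro ⟨d, rfl⟩
    exact ⟨d, mem_univ _, rfl⟩

theorem GpA_prK {t : K.1.D ⊕ N.1.D} : t ∈ prK K N ↔ ∃ d, t = Sum.inl d := by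
  unfold prK
  rw [mem_map]
  constructor
  · rintro ⟨d, -, h⟩
    exact ⟨d, h.symm⟩
  · rintro ⟨d, rfl⟩
    exact ⟨d, mem_univ _, rfl⟩

theorem GpA_not_prN {t : K.1.D ⊕ N.1.D} : t ∉ prN K N ↔ ∃ d, t = Sum.inl d := by
  rw [GpA_prN]
  rcases t with d | d
  · simp
  · simp

/-- the part of `N` is one of the sets `GQ` if it is disjoint from its image -/
theorem GpA_GQ {e : Perm (K.1.D ⊕ N.1.D)} (h : ∀ t ∈ prN K N, e t ∉ prN K N) :
    GQ (twoA K N) (twoS K N) e (twoR K N) (prN K N) := by
  have h1 : prN K N = (univ : Finset N.1.D).map ⟨Sum.inr, (chart_r K N).inj⟩ := rfl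
  refine ⟨?_, ?_, ?_, h⟩
  · rw [h1, chart_cl (chart_r K N)]
    intro t
    rcases t with d | b
    · have h4 : N.1.aa (Sum.inl d) = Sum.inl (N.1.a d) := rfl
      rw [h4, AxPart_mem_dn, AxPart_mem_dn]
      exact iff_of_true (mem_univ _) (mem_univ _)
    · exact iff_of_false AxPart_dn_inr AxPart_dn_inr
  · rw [h1, chart_cut (chart_r K N), GpA_bd_univ]
  · rw [GpA_prN]
    exact ⟨_, rfl⟩

/-- the value for a reflection which exchanges the parts -/
theorem GpA_val (w : Wt) {e : Perm (K.1.D ⊕ N.1.D)} (he : Refl (twoA K N) (twoS K N) e)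
    (hr : e (twoR K N) = twoS K N (twoR K N)) (hs : ∀ d, ∃ d', e (Sum.inr d) = Sum.inl d')
    (hs' : ∀ d, ∃ d', e (Sum.inl d) = Sum.inr d') :
    VT w (twoA K N) (twoS K N) e = w.bi ^ 4 * w.vx ^ 2 * hW w N.1 ^ 2 := by
  obtain ⟨φ, hφ, hφe⟩ := GpA_phi he hr hs hs'
  have hend := GpA_ends hφ hφe
  have h1 : cAx e = 0 := by
    unfold cAx
    rw [card_eq_zero, filter_eq_empty_iff]
    rintro (d | d) - h
    · obtain ⟨d', hd'⟩ := hs' d
      rw [hd'] at h
      simp at h
    · obtain ⟨d', hd'⟩ := hs d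
      rw [hd'] at h
      simp at h
  have h2 : cCr (twoA K N) e = 0 := by
    unfold cCr
    rw [card_eq_zero, filter_eq_empty_iff]
    rintro (d | d) - h
    · obtain ⟨d', hd'⟩ := hs' d
      rw [hd'] at h
      have h3 : (Sum.inr d' : K.1.D ⊕ N.1.D) = Sum.inl (K.1.a d) := h
      simp at h3
    · obtain ⟨d', hd'⟩ := hs d
      rw [hd'] at h
      have h3 : (Sum.inl d' : K.1.D ⊕ N.1.D) = Sum.inr (N.1.a d) := h
      simp at h3
  have h3 : cBis (twoS K N) e = 4 := by
    unfold cBis
    have h4 : (univ.filter fun t => e t = twoS K N t) =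
        ({Sum.inr (CompInj.lstD N true), Sum.inr (CompInj.lstD N false),
          Sum.inl (CompInj.lstD K true), Sum.inl (CompInj.lstD K false)} :
          Finset (K.1.D ⊕ N.1.D)) := by
      ext t
      simp only [mem_filter, mem_univ, true_and, mem_insert, mem_singleton]
      constructor
      · intro h
        rcases t with d | d
        · rcases h5 : K.1.s (Sum.inl d) with d' | b
          · rw [GpA_ll h5] at h
            obtain ⟨d'', hd''⟩ := hs' d
            rw [hd''] at h
            simp at h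
          · rw [CompInj.eq_lstD h5]
            cases b
            · exact Or.inr (Or.inr (Or.inr rfl))
            · exact Or.inr (Or.inr (Or.inl rfl))
        · rcases h5 : N.1.s (Sum.inl d) with d' | b
          · rw [GpA_rr h5] at h
            obtain ⟨d'', hd''⟩ := hs d
            rw [hd''] at h
            simp at h
          · rw [CompInj.eq_lstD h5]
            cases b
            · exact Or.inr (Or.inl rfl)
            · exact Or.inl rfl
      · have h5 : ∀ b, e (Sum.inr (CompInj.lstD N b)) = twoS K N (Sum.inr (CompInj.lstD N b)) :=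
          fun b => by rw [(hend b).1, GpA_rl (CompInj.lstD_spec N b)]
        have h6 : ∀ b, e (Sum.inl (CompInj.lstD K b)) = twoS K N (Sum.inl (CompInj.lstD K b)) :=
          fun b => by rw [← (hend b).2, he.ee, (hend b).2, GpA_lr (CompInj.lstD_spec K b)]
        rintro (rfl | rfl | rfl | rfl)
        · exact h5 _
        · exact h5 _
        · exact h6 _
        · exact h6 _
    have h5 : ∀ (M : GB), CompInj.lstD M true ≠ CompInj.lstD M false := by
      intro M h
      have h6 := CompInj.lstD_spec M true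
      rw [h, CompInj.lstD_spec] at h6
      simp at h6
    rw [h4, card_insert_of_notMem, card_insert_of_notMem, card_insert_of_notMem, card_singleton]
    · rw [mem_singleton]
      exact fun h => h5 K (Sum.inl_injective h)
    · simp
    · simp only [mem_insert, mem_singleton, not_or]
      exact ⟨fun h => h5 N (Sum.inr_injective h), by simp, by simp⟩
  have h4 : nV (twoS K N) + 2 = nV N.1.s + nV N.1.s := by
    rw [two_nV, ← hφ.nV_eq]
  have h5 : 2 ≤ nV N.1.s := by
    have := CompVAux.card_inn N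
    omega
  have h6 : Fintype.card (K.1.D ⊕ N.1.D) = Fintype.card N.1.D + Fintype.card N.1.D := by
    rw [Fintype.card_sum, hφ.card_eq]
  unfold VT hW
  rw [h1, h2, h3, h6, pow_zero, pow_zero, one_mul, mul_one]
  have h7 : nV (twoS K N) = 2 + ((nV N.1.s - 2) + (nV N.1.s - 2)) := by omega
  rw [h7, pow_add, pow_add w.vx, pow_add w.dt, mul_pow]
  ring

/-- Proof.  Let `e` satisfy `GP` and map the part of `K` into the part of `N`.  `e (prN)` is disjoint from `prN` (`GQ.dis`), so `e` exchanges the two parts, `chart_iso` (`chart_l`, `chart_r`, `m = true`) gives a twisted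
isomorphism of `N` and `K`; as `e` maps `inr (lstD N true)` to `inl (fstD K true)`, the root edge is not reversed.  Conversely `swap_refl`; `max`: a set `GQ` united with `prN` is disjoint from `e (prN) = prK`.  `swap_red`.  The weight: no dart on the
axis, none crossing, the four corners between the parts are bisected, no other; `two_nV`, `TwI.nV_eq`, `TwI.card_eq`.  The reflection is unique (`iso_unique`). -/
theorem gpA_eq (w : Wt) (K N : GB) : gpA w K N =
    if BIso (twM true false N.1) K.1 ∧ ¬ IsPar N.1 then w.bi ^ 4 * w.vx ^ 2 * hW w N.1 ^ 2 else 0 := by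
  have hex : ∀ e : Perm (K.1.D ⊕ N.1.D), GP K N e → (∀ t ∈ prK K N, e t ∈ prN K N) →
      (∀ d, ∃ d', e (Sum.inr d) = Sum.inl d') ∧ (∀ d, ∃ d', e (Sum.inl d) = Sum.inr d') := by
    intro e he hK
    constructor
    · intro d
      exact GpA_not_prN.1 (he.max.1.dis _ (GpA_prN.2 ⟨d, rfl⟩))
    · intro d
      exact GpA_prN.1 (hK _ (GpA_prK.2 ⟨d, rfl⟩))
  have hiff : (∃ e, GP K N e ∧ ∀ t ∈ prK K N, e t ∈ prN K N) ↔
      BIso (twM true false N.1) K.1 ∧ ¬ IsPar N.1 := by
    constructor
    · rintro ⟨e, he, hK⟩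
      obtain ⟨h1, h2⟩ := hex e he hK
      obtain ⟨φ, hφ, -⟩ := GpA_phi he.refl he.root h1 h2
      exact ⟨hφ.biso, (swap_red he.refl he.root h1 h2).1 he.red⟩
    · rintro ⟨h1, h2⟩
      obtain ⟨φ, hφ⟩ := TwI_iff.2 h1
      obtain ⟨e, he, hr, h3⟩ := swap_refl hφ
      have hs : ∀ d, ∃ d', e (Sum.inr d) = Sum.inl d' := by
        intro d
        obtain ⟨d', hd'⟩ := hφ.inl d
        exact ⟨d', (h3 d d' hd').1⟩
      have hs' : ∀ d, ∃ d', e (Sum.inl d) = Sum.inr d' := by
        intro d'
        obtain ⟨d, hd⟩ := hφ.symm.inl d'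
        rw [Equiv.symm_apply_eq] at hd
        exact ⟨d, (h3 d d' hd.symm).2⟩
      have hdis : ∀ t ∈ prN K N, e t ∉ prN K N := by
        intro t ht
        obtain ⟨d, rfl⟩ := GpA_prN.1 ht
        exact GpA_not_prN.2 (hs d)
      have hQ : GQ (twoA K N) (twoS K N) e (twoR K N) (prN K N) := GpA_GQ hdis
      refine ⟨e, ⟨he, hr, (swap_red he hr hs hs').2 h2, hQ, ?_⟩, ?_⟩
      · intro Q hQ' t ht
        by_contra hcon
        obtain ⟨d, rfl⟩ := GpA_not_prN.1 hcon
        have h4 := GQ.union (two_good K N) he hr hQ' hQ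
        apply h4.dis _ (mem_union_left _ ht)
        exact mem_union_right _ (GpA_prN.2 (hs' d))
      · intro t ht
        obtain ⟨d, rfl⟩ := GpA_prK.1 ht
        exact GpA_prN.2 (hs' d)
  unfold gpA
  by_cases h : BIso (twM true false N.1) K.1 ∧ ¬ IsPar N.1
  · rw [if_pos h]
    obtain ⟨e, he, hK⟩ := hiff.2 h
    obtain ⟨h1, h2⟩ := hex e he hK
    rw [Finset.sum_eq_single e]
    · rw [if_pos ⟨he, hK⟩]
      exact GpA_val w he.refl he.root h1 h2
    · intro e' _ hne
      rw [if_neg]
      rintro ⟨he', -⟩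
      exact hne (GpA_unique (two_good K N) he'.refl he.refl (he'.root.trans he.root.symm))
    · intro h3
      exact absurd (mem_univ _) h3
  · rw [if_neg h]
    apply Finset.sum_eq_zero
    intro e _
    rw [if_neg]
    rintro ⟨he, hK⟩
    exact h (hiff.1 ⟨e, he, hK⟩)

/-- `e (prN)` is inside `prK`, which has 2 darts, so it is `prK` -/
theorem gpB_dig (w : Wt) (K N : GB) (h : Fintype.card K.1.D = 2) : gpB w K N = 0 := by
  unfold gpB
  apply Finset.sum_eq_zero
  intro e _
  rw [if_neg]
  rintro ⟨he, hK⟩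
  apply hK
  have h1 : (prN K N).map e.toEmbedding ⊆ prK K N := by
    intro t ht
    obtain ⟨u, hu, rfl⟩ := mem_map.1 ht
    exact GpA_prK.2 (GpA_not_prN.1 (he.max.1.dis u hu))
  have h2 : (prK K N).card = 2 := by
    unfold prK
    rw [card_map, card_univ, h]
  have h3 : 2 ≤ (prN K N).card := by
    unfold prN
    rw [card_map, card_univ]
    have h4 := N.2.big
    have h5 : Fintype.card N.1.T = Fintype.card N.1.D + 2 := by
      show Fintype.card (N.1.D ⊕ Bool) = _
      rw [Fintype.card_sum, Fintype.card_bool]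
    omega
  have h4 : (prN K N).map e.toEmbedding = prK K N :=
    eq_of_subset_of_card_le h1 (by rw [card_map, h2]; exact h3)
  intro t ht
  rw [← h4] at ht
  obtain ⟨u, hu, rfl⟩ := mem_map.1 ht
  have h5 : e (e u) = u := he.refl.ee u
  show e (e u) ∈ prN K N
  rw [h5]
  exact hu

end

end PGr

end

section
/-! # Module UAn: reflections of unrooted composites -/

set_option linter.unusedSectionVars false

namespace PGr
open Equiv Finset

variable {C : Core} (hC : C.toB.IsGood) {Y : C.I → GB} {N : GB}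

/-- every dart of the composite is in exactly one part -/
theorem dO_cases (t : (comp C Y).D ⊕ N.1.D) : ∃ o d, t = dO Y N o d := by
  rcases t with ⟨i, d⟩ | d
  · exact ⟨some i, d, rfl⟩
  · exact ⟨none, d, rfl⟩
theorem dO_inj {o o' : Option C.I} {d : (netO Y N o).1.D} {d' : (netO Y N o').1.D}
    (h : dO Y N o d = dO Y N o' d') : ∃ ho : o = o', ho ▸ d = d' := by
  rcases o with _ | i <;> rcases o' with _ | i'
  · have h1 : (Sum.inr d : (comp C Y).D ⊕ N.1.D) = Sum.inr d' := h
    exact ⟨rfl, Sum.inr_injective h1⟩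
  · have h1 : (Sum.inr d : (comp C Y).D ⊕ N.1.D) = Sum.inl ⟨i', d'⟩ := h
    exact absurd h1 (by simp)
  · have h1 : (Sum.inl ⟨i, d⟩ : (comp C Y).D ⊕ N.1.D) = Sum.inr d' := h
    exact absurd h1 (by simp)
  · have h1 : (Sum.inl ⟨i, d⟩ : (comp C Y).D ⊕ N.1.D) = Sum.inl ⟨i', d'⟩ := h
    have h2 : (⟨i, d⟩ : Σ i, (Y i).1.D) = ⟨i', d'⟩ := Sum.inl_injective h1
    obtain ⟨h3, h4⟩ := Sigma.mk.inj h2
    subst h3
    exact ⟨rfl, eq_of_heq h4⟩

namespace UAn

theorem dO_inj' {o : Option C.I} {d d' : (netO Y N o).1.D}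
    (h : dO Y N o d = dO Y N o d') : d = d' := by
  obtain ⟨ho, h1⟩ := dO_inj h
  exact h1

theorem cdt_cases (x : C.toB.T) : ∃ o b, x = cdt o b := by
  rcases x with ⟨i, b⟩ | b
  · exact ⟨some i, b, rfl⟩
  · exact ⟨none, b, rfl⟩

theorem cdt_inj {o o' : Option C.I} {b b' : Bool} (h : (cdt o b : C.toB.T) = cdt o' b') :
    o = o' ∧ b = b' := by
  rcases o with _ | i <;> rcases o' with _ | i'
  · have h1 : (Sum.inr b : (C.I × Bool) ⊕ Bool) = Sum.inr b' := h
    exact ⟨rfl, Sum.inr_injective h1⟩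
  · have h1 : (Sum.inr b : (C.I × Bool) ⊕ Bool) = Sum.inl (i', b') := h
    exact absurd h1 (by simp)
  · have h1 : (Sum.inl (i, b) : (C.I × Bool) ⊕ Bool) = Sum.inr b' := h
    exact absurd h1 (by simp)
  · have h1 : (Sum.inl (i, b) : (C.I × Bool) ⊕ Bool) = Sum.inl (i', b') := h
    have h2 := Prod.mk.inj (Sum.inl_injective h1)
    exact ⟨congrArg some h2.1, h2.2⟩

theorem aa_cdt (o : Option C.I) (b : Bool) : C.toB.aa (cdt o b) = cdt o (!b) := by
  rcases o with _ | i <;> rfl

/-- the last dart at a core dart -/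
noncomputable def lo (Y : C.I → GB) (N : GB) (x : C.toB.T) : (comp C Y).D ⊕ N.1.D :=
  match x with
  | Sum.inl (i, b) => Sum.inl ⟨i, CompInj.lstD (Y i) b⟩
  | Sum.inr b => Sum.inr (CompInj.lstD N b)

/-- the first dart at a core dart -/
noncomputable def fo (Y : C.I → GB) (N : GB) (x : C.toB.T) : (comp C Y).D ⊕ N.1.D :=
  match x with
  | Sum.inl (i, b) => Sum.inl ⟨i, fstD (Y i) b⟩
  | Sum.inr b => Sum.inr (fstD N b)

/-- the rotation of the union, with the type of the darts of the composite -/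
noncomputable def SS (hC : C.toB.IsGood) (Y : C.I → GB) (N : GB) :
    Perm ((comp C Y).D ⊕ N.1.D) := twoS (cG C hC Y) N
noncomputable def AA (hC : C.toB.IsGood) (Y : C.I → GB) (N : GB) :
    Perm ((comp C Y).D ⊕ N.1.D) := twoA (cG C hC Y) N
/-- the rotation of the core -/
def cS (C : Core) : Perm C.toB.T := C.s

theorem lo_cdt (o : Option C.I) (b : Bool) :
    lo Y N (cdt o b) = dO Y N o (CompInj.lstD (netO Y N o) b) := by
  rcases o with _ | i <;> rfl

theorem fo_cdt (o : Option C.I) (b : Bool) :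
    fo Y N (cdt o b) = dO Y N o (fstD (netO Y N o) b) := by
  rcases o with _ | i <;> rfl

theorem lst_inj {M : GB} {b b' : Bool} (h : CompInj.lstD M b = CompInj.lstD M b') : b = b' := by
  have h1 := CompInj.lstD_spec M b
  rw [h, CompInj.lstD_spec M b'] at h1
  exact (Sum.inr_injective h1).symm

theorem fo_inj {x y : C.toB.T} (h : fo Y N x = fo Y N y) : x = y := by
  obtain ⟨o, b, rfl⟩ := cdt_cases x
  obtain ⟨o', b', rfl⟩ := cdt_cases y
  rw [fo_cdt, fo_cdt] at h
  obtain ⟨ho, h1⟩ := dO_inj h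
  subst ho
  rw [fst_inj h1]

theorem lo_inj {x y : C.toB.T} (h : lo Y N x = lo Y N y) : x = y := by
  obtain ⟨o, b, rfl⟩ := cdt_cases x
  obtain ⟨o', b', rfl⟩ := cdt_cases y
  rw [lo_cdt, lo_cdt] at h
  obtain ⟨ho, h1⟩ := dO_inj h
  subst ho
  rw [lst_inj h1]

end UAn

open UAn

/-- last darts and first darts at a core dart -/
theorem dO_s_in {o : Option C.I} {d d' : (netO Y N o).1.D}
    (h : (netO Y N o).1.s (Sum.inl d) = Sum.inl d') :
    twoS (cG C hC Y) N (dO Y N o d) = dO Y N o d' := by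
  rcases o with _ | i
  · exact (twoFun_rr h : twoFun (cG C hC Y) N (Sum.inr d) = Sum.inr d')
  · exact twoFun_ll (K := cG C hC Y) (N := N) (CompInj.s_dt_in Y h)

namespace UAn

/-- the rotation after a last dart -/
theorem s_lo (x : C.toB.T) : SS hC Y N (lo Y N x) = fo Y N (cS C x) := by
  have h1 : (comp C Y).s (CompInj.L Y x) = CompInj.J Y (cS C x) := CompInj.s_L Y x
  rcases x with ⟨i, b⟩ | b
  · rcases h2 : cS C (Sum.inl (i, b)) with ⟨i', b'⟩ | b'
    · have h3 := h1.trans (congrArg (CompInj.J Y) h2)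
      exact twoFun_ll (K := cG C hC Y) (N := N) h3
    · have h3 := h1.trans (congrArg (CompInj.J Y) h2)
      exact twoFun_lr (K := cG C hC Y) (N := N) h3
  · have h3 : (comp C Y).s (Sum.inr b) = Sum.inl (fstD (cG C hC Y) b) :=
      fstD_spec (cG C hC Y) b
    have h4 : SS hC Y N (lo Y N (Sum.inr b)) = Sum.inl (fstD (cG C hC Y) b) :=
      twoFun_rl (CompInj.lstD_spec N b)
    rcases h2 : cS C (Sum.inr b) with ⟨i', b'⟩ | b'
    · have h5 : CompInj.J Y (Sum.inl (i', b')) = Sum.inl (fstD (cG C hC Y) b) :=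
        (congrArg (CompInj.J Y) h2).symm.trans (h1.symm.trans h3)
      have h6 : (⟨i', fstD (Y i') b'⟩ : Σ i, (Y i).1.D) = fstD (cG C hC Y) b :=
        Sum.inl_injective h5
      exact h4.trans (congrArg Sum.inl h6.symm)
    · have h5 : CompInj.J Y (Sum.inr b') = Sum.inl (fstD (cG C hC Y) b) :=
        (congrArg (CompInj.J Y) h2).symm.trans (h1.symm.trans h3)
      have h6 : (Sum.inr b' : (Σ i, (Y i).1.D) ⊕ Bool) = Sum.inl (fstD (cG C hC Y) b) := h5
      exact absurd h6 (by simp)

end UAn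

/-- the dart after the last dart of the net `o` at the end `b` is the first dart of the net `o'` at the end `b'` if `C.s (cdt o b) = cdt o' b'` -/
theorem dO_s_out {o o' : Option C.I} {b b' : Bool} (h : C.s (cdt o b) = cdt o' b') :
    twoS (cG C hC Y) N (dO Y N o (CompInj.lstD (netO Y N o) b)) =
      dO Y N o' (fstD (netO Y N o') b') := by
  have h1 := s_lo hC (Y := Y) (N := N) (cdt o b)
  rw [lo_cdt] at h1
  have h2 : cS C (cdt o b) = cdt o' b' := h
  rw [h2, fo_cdt] at h1
  exact h1

namespace UAn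

theorem aa_dO (o : Option C.I) (d : (netO Y N o).1.D) :
    AA hC Y N (dO Y N o d) = dO Y N o ((netO Y N o).1.a d) := by
  rcases o with _ | i <;> rfl

/-- mirror images: last darts are mapped to first darts -/
theorem tw_lst {M M' : GB} {c : Bool} {φ : M.1.T ≃ M'.1.T} (h : TwI true c M.1 M'.1 φ) (b : Bool) :
    φ (Sum.inl (CompInj.lstD M b)) = Sum.inl (fstD M' (xor c b)) := by
  have h2 := h.rot (Sum.inl (CompInj.lstD M b))
  rw [CompInj.lstD_spec, h.root, twS_true, eq_comm, Perm.inv_eq_iff_eq, fstD_spec] at h2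
  exact h2

theorem tw_fst {M M' : GB} {c : Bool} {φ : M.1.T ≃ M'.1.T} (h : TwI true c M.1 M'.1 φ) (b : Bool) :
    φ (Sum.inl (fstD M b)) = Sum.inl (CompInj.lstD M' (xor c b)) := by
  have h2 := h.rot (Sum.inr b)
  rw [fstD_spec, h.root, twS_true, Perm.eq_inv_iff_eq] at h2
  obtain ⟨d, hd⟩ := h.inl (fstD M b)
  rw [hd] at h2 ⊢
  exact congrArg Sum.inl (CompInj.eq_lstD h2)

theorem chart_o (o : Option C.I) :
    Chart (twoA (cG C hC Y) N) (twoS (cG C hC Y) N) (netO Y N o) (fun d => dO Y N o d) := by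
  rcases o with _ | i
  · exact chart_r (cG C hC Y) N
  · exact chart_part hC Y N i

end UAn

/-- Proof (as `CompInj.main`, for the mirror image).  A dart is a last dart of its part iff the next dart is in another part, a first dart iff the previous one is.  As `e (s t) = s⁻¹ (e t)` and `e` permutes
the parts, `e` maps last darts to first darts: this defines `ψ` by `e (last dart at x) = first dart at ψ x`.  `ψ` commutes with `aa` (the part of the image has two ends) and is an involution.  Following the rotation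
from the first to the last dart at a core dart `y`, its image is followed backwards, so `e (first dart at y) = last dart at ψ y`.  Then `e (s (last at x)) = s⁻¹ (first at ψ x)` is the last dart at
`C.s⁻¹ (ψ x)`, and it is `e (first at C.s x) = last at ψ (C.s x)`.  The nets: `chart_iso` for the parts (`chart_part`, `chart_r`); the reversal is `xor b b'`. -/
theorem utw_exists {e : Perm ((comp C Y).D ⊕ N.1.D)}
    (he : Refl (twoA (cG C hC Y) N) (twoS (cG C hC Y) N) e)
    (hp : ∀ o : Option C.I, ∃ o' : Option C.I, ∀ d, ∃ d', e (dO Y N o d) = dO Y N o' d') :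
    ∃ ψ, UTw C hC Y N ψ e := by
  classical
  have hee : ∀ t, e (e t) = t := he.ee
  have hes : ∀ t, SS hC Y N (e (SS hC Y N t)) = e t := he.es
  choose τ hτ using hp
  have hne : ∀ o, Nonempty (netO Y N o).1.D := fun o => ⟨fstD (netO Y N o) true⟩
  have hττ : ∀ o, τ (τ o) = o := by
    intro o
    obtain ⟨d⟩ := hne o
    obtain ⟨d1, h1⟩ := hτ o d
    obtain ⟨d2, h2⟩ := hτ (τ o) d1
    rw [← h1, hee] at h2
    exact (dO_inj h2).1.symm
  have hex : ∀ o, ∃ c φ, TwI true c (netO Y N o).1 (netO Y N (τ o)).1 φ ∧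
      (∀ d d', φ (Sum.inl d) = Sum.inl d' → e (dO Y N o d) = dO Y N (τ o) d') := by
    intro o
    refine chart_iso (chart_o hC o) (chart_o hC (τ o)) e he.ea ?_ ?_
    · intro t
      exact (Perm.eq_inv_iff_eq).2 (he.es t)
    · intro t
      constructor
      · rintro ⟨d, rfl⟩
        exact hτ o d
      · rintro ⟨d', hd'⟩
        obtain ⟨d, hd⟩ := hτ (τ o) d'
        have h1 : t = e (dO Y N (τ o) d') := (hee t).symm.trans (congrArg e hd')
        rw [hd] at h1
        have h2 := hττ o
        revert d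
        rw [h2]
        intro d hd h1
        exact ⟨d, h1⟩
  choose c φ hφ hd using hex
  let g : C.toB.T → C.toB.T := fun x => match x with
    | Sum.inl (i, b) => cdt (τ (some i)) (xor (c (some i)) b)
    | Sum.inr b => cdt (τ none) (xor (c none) b)
  have hg : ∀ o b, g (cdt o b) = cdt (τ o) (xor (c o) b) := by
    intro o b
    rcases o with _ | i <;> rfl
  have hlo : ∀ x, e (lo Y N x) = fo Y N (g x) := by
    intro x
    obtain ⟨o, b, rfl⟩ := cdt_cases x
    rw [hg, lo_cdt, fo_cdt]
    exact hd o _ _ (tw_lst (hφ o) b)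
  have hfo : ∀ x, e (fo Y N x) = lo Y N (g x) := by
    intro x
    obtain ⟨o, b, rfl⟩ := cdt_cases x
    rw [hg, lo_cdt, fo_cdt]
    exact hd o _ _ (tw_fst (hφ o) b)
  have hgg : ∀ x, g (g x) = x := by
    intro x
    have h1 := hee (lo Y N x)
    rw [hlo, hfo] at h1
    exact lo_inj h1
  refine ⟨⟨g, g, hgg, hgg⟩, ⟨?_, ?_, hgg⟩, he, ?_⟩
  · intro x
    obtain ⟨o, b, rfl⟩ := cdt_cases x
    rw [aa_cdt]
    show g (cdt o (!b)) = C.toB.aa (g (cdt o b))
    rw [hg, hg, aa_cdt]
    congr 1
    cases c o <;> cases b <;> rfl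
  · intro x
    have h1 := hes (lo Y N x)
    rw [s_lo, hfo, s_lo, hlo] at h1
    exact fo_inj h1
  · intro o b o' b' h
    have h1 : (cdt (τ o) (xor (c o) b) : C.toB.T) = cdt o' b' := (hg o b).symm.trans h
    obtain ⟨h2, h3⟩ := cdt_inj h1
    subst h2
    subst h3
    refine ⟨φ o, ?_, hd o⟩
    have h4 : xor b (xor (c o) b) = c o := by cases b <;> cases c o <;> rfl
    rw [h4]
    exact hφ o

namespace UAn

theorem invo {o o1 o2 : Option C.I} (ho : o2 = o) {c1 c2 : Bool} (hc : c2 = c1)
    {φ1 : (netO Y N o).1.T ≃ (netO Y N o1).1.T} {φ2 : (netO Y N o1).1.T ≃ (netO Y N o2).1.T}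
    (h1 : TwI true c1 (netO Y N o).1 (netO Y N o1).1 φ1)
    (h2 : TwI true c2 (netO Y N o1).1 (netO Y N o2).1 φ2)
    {d : (netO Y N o).1.D} {d1 : (netO Y N o1).1.D} {d2 : (netO Y N o2).1.D}
    (hd1 : φ1 (Sum.inl d) = Sum.inl d1) (hd2 : φ2 (Sum.inl d1) = Sum.inl d2) :
    dO Y N o2 d2 = dO Y N o d := by
  subst ho
  subst hc
  have h3 := h1.trans h2
  rw [Bool.xor_self, Bool.xor_self] at h3
  have h4 : φ1.trans φ2 = Equiv.refl _ := TwI.unique (netO Y N o2).2 h3 (TwI.refl _)
  have h5 : (φ1.trans φ2) (Sum.inl d) = Sum.inl d2 := by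
    rw [Equiv.trans_apply, hd1, hd2]
  rw [h4] at h5
  have h6 : d = d2 := Sum.inl_injective h5
  rw [h6]

end UAn

/-- As `ctw_mk` (both darts of an edge give the same map of the nets); define `e` on the part `o` by the map `φ` for `b = true`.  `e` is an involution as `φ` and the map for `o'` are inverse to each
other (`TwI.unique`). -/
theorem utw_mk {ψ : Perm C.toB.T} (hψ : Refl C.toB.aa C.s ψ) (hn : Cmp C Y N ψ) :
    ∃ e, UTw C hC Y N ψ e := by
  classical
  have hex : ∀ o : Option C.I, ∃ (o' : Option C.I) (c : Bool),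
      ∀ b, ψ (cdt o b) = cdt o' (xor c b) := by
    intro o
    obtain ⟨o', b', h⟩ := cdt_cases (ψ (cdt o true))
    refine ⟨o', !b', fun b => ?_⟩
    cases b
    · have h1 : (cdt o false : C.toB.T) = C.toB.aa (cdt o true) := (aa_cdt o true).symm
      rw [h1, hψ.ea, h, aa_cdt, Bool.xor_false]
    · rw [h]
      congr 1
      cases b' <;> rfl
  choose τ c hτ using hex
  have hφ : ∀ o, ∃ φ, TwI true (c o) (netO Y N o).1 (netO Y N (τ o)).1 φ := by
    intro o
    obtain ⟨φ, hφ⟩ := hn o false (τ o) (xor (c o) false) (hτ o false)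
    rw [Bool.xor_false, Bool.false_xor] at hφ
    exact ⟨φ, hφ⟩
  choose φ hφ using hφ
  choose f hf using fun o => CTwB.net_equiv (hφ o)
  have hττ : ∀ o, τ (τ o) = o ∧ c (τ o) = c o := by
    intro o
    have h1 := hψ.ee (cdt o false)
    rw [hτ, hτ] at h1
    obtain ⟨h2, h3⟩ := cdt_inj h1
    refine ⟨h2, ?_⟩
    revert h3
    cases c o <;> cases c (τ o) <;> decide
  let e0 : (comp C Y).D ⊕ N.1.D → (comp C Y).D ⊕ N.1.D := fun t => match t with
    | Sum.inl ⟨i, d⟩ => dO Y N (τ (some i)) (f (some i) d)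
    | Sum.inr d => dO Y N (τ none) (f none d)
  have he0 : ∀ o d, e0 (dO Y N o d) = dO Y N (τ o) (f o d) := by
    intro o d
    rcases o with _ | i <;> rfl
  have hee : ∀ t, e0 (e0 t) = t := by
    intro t
    obtain ⟨o, d, rfl⟩ := dO_cases t
    rw [he0, he0]
    exact invo (hττ o).1 (hττ o).2 (hφ o) (hφ (τ o)) (hf o d) (hf (τ o) _)
  have hfa : ∀ o d, f o ((netO Y N o).1.a d) = (netO Y N (τ o)).1.a (f o d) := by
    intro o d
    have h1 := (hφ o).aa (Sum.inl d)
    have h2 : (netO Y N o).1.aa (Sum.inl d) = Sum.inl ((netO Y N o).1.a d) := rfl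
    rw [h2, hf, hf] at h1
    exact Sum.inl_injective h1
  have hlo : ∀ x, e0 (lo Y N x) = fo Y N (ψ x) := by
    intro x
    obtain ⟨o, b, rfl⟩ := cdt_cases x
    rw [hτ, lo_cdt, fo_cdt, he0]
    have h1 := tw_lst (hφ o) b
    rw [hf] at h1
    rw [Sum.inl_injective h1]
  have hfo : ∀ x, e0 (fo Y N x) = lo Y N (ψ x) := by
    intro x
    obtain ⟨o, b, rfl⟩ := cdt_cases x
    rw [hτ, lo_cdt, fo_cdt, he0]
    have h1 := tw_fst (hφ o) b
    rw [hf] at h1
    rw [Sum.inl_injective h1]
  refine ⟨⟨e0, e0, hee, hee⟩, hψ, ⟨?_, ?_, hee⟩, ?_⟩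
  · intro t
    show e0 (AA hC Y N t) = AA hC Y N (e0 t)
    obtain ⟨o, d, rfl⟩ := dO_cases t
    rw [aa_dO, he0, he0, hfa, aa_dO]
  · intro t
    show SS hC Y N (e0 (SS hC Y N t)) = e0 t
    obtain ⟨o, d, rfl⟩ := dO_cases t
    rcases h : (netO Y N o).1.s (Sum.inl d) with d' | b
    · have h0 : SS hC Y N (dO Y N o d) = dO Y N o d' := dO_s_in hC h
      rw [h0, he0, he0]
      apply dO_s_in
      have h1 := (hφ o).rot (Sum.inl d)
      rw [h, hf, hf, twS_true, Perm.eq_inv_iff_eq] at h1
      exact h1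
    · have h1 : dO Y N o d = lo Y N (cdt o b) := by
        rw [lo_cdt, CompInj.eq_lstD h]
      rw [h1, s_lo, hfo, s_lo, hlo]
      exact congrArg _ (hψ.es (cdt o b))
  · intro o b o' b' h
    have h1 : (cdt (τ o) (xor (c o) b) : C.toB.T) = cdt o' b' := (hτ o b).symm.trans h
    obtain ⟨h2, h3⟩ := cdt_inj h1
    subst h2
    subst h3
    refine ⟨φ o, ?_, ?_⟩
    · have h4 : xor b (xor (c o) b) = c o := by cases b <;> cases c o <;> rfl
      rw [h4]
      exact hφ o
    · intro d d' hdd
      rw [hf] at hdd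
      show e0 (dO Y N o d) = _
      rw [he0, Sum.inl_injective hdd]

theorem UTw.cmp {hC : C.toB.IsGood} {ψ : Perm C.toB.T} {e : Perm ((comp C Y).D ⊕ N.1.D)}
    (h : UTw C hC Y N ψ e) : Cmp C Y N ψ := by
  intro o b o' b' ho
  obtain ⟨φ, hφ, -⟩ := h.nets o b o' b' ho
  exact ⟨φ, hφ⟩

/-- the map of the nets is unique -/
theorem UTw.dt {hC : C.toB.IsGood} {ψ : Perm C.toB.T} {e : Perm ((comp C Y).D ⊕ N.1.D)}
    (h : UTw C hC Y N ψ e) {o : Option C.I} {b : Bool} {o' : Option C.I} {b' : Bool}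
    (ho : ψ (cdt o b) = cdt o' b') {φ : (netO Y N o).1.T ≃ (netO Y N o').1.T}
    (hφ : TwI true (xor b b') (netO Y N o).1 (netO Y N o').1 φ) {d : (netO Y N o).1.D}
    {d' : (netO Y N o').1.D} (hd : φ (Sum.inl d) = Sum.inl d') :
    e (dO Y N o d) = dO Y N o' d' := by
  obtain ⟨φ0, hφ0, hd0⟩ := h.nets o b o' b' ho
  have h1 : φ = φ0 := TwI.unique (netO Y N o).2 hφ hφ0
  subst h1
  exact hd0 d d' hd

/-- last darts are mapped to first darts -/
theorem UTw.lst {hC : C.toB.IsGood} {ψ : Perm C.toB.T} {e : Perm ((comp C Y).D ⊕ N.1.D)}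
    (h : UTw C hC Y N ψ e) {o : Option C.I} {b : Bool} {o' : Option C.I} {b' : Bool}
    (ho : ψ (cdt o b) = cdt o' b') :
    e (dO Y N o (CompInj.lstD (netO Y N o) b)) = dO Y N o' (fstD (netO Y N o') b') := by
  obtain ⟨φ, hφ, hd⟩ := h.nets o b o' b' ho
  have h1 := tw_lst hφ b
  have h2 : xor (xor b b') b = b' := by cases b <;> cases b' <;> rfl
  rw [h2] at h1
  exact hd _ _ h1

/-- the root is the last dart of `N` at the pole `true` -/
theorem UTw.root_iff {hC : C.toB.IsGood} {ψ : Perm C.toB.T} {e : Perm ((comp C Y).D ⊕ N.1.D)}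
    (h : UTw C hC Y N ψ e) :
    e (twoR (cG C hC Y) N) = twoS (cG C hC Y) N (twoR (cG C hC Y) N) ↔
      ψ (Sum.inr true) = C.s (Sum.inr true) := by
  have h1 : twoR (cG C hC Y) N = lo Y N (Sum.inr true) := rfl
  have h2 : e (lo Y N (Sum.inr true)) = fo Y N (ψ (Sum.inr true)) := by
    obtain ⟨o', b', h3⟩ := cdt_cases (ψ (Sum.inr true))
    have h4 := h.lst (o := none) (b := true) h3
    rw [h3, fo_cdt]
    exact h4
  have h5 : twoS (cG C hC Y) N (twoR (cG C hC Y) N) = fo Y N (cS C (Sum.inr true)) :=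
    s_lo hC (Sum.inr true)
  have h6 : e (twoR (cG C hC Y) N) = fo Y N (ψ (Sum.inr true)) := h2
  rw [h5, h6]
  exact ⟨fun h3 => fo_inj h3, fun h3 => congrArg (fo Y N) h3⟩

end PGr

end

section
/-! # Module UAx: invariant sets in unrooted composites -/

set_option linter.unusedSectionVars false

namespace PGr
open Equiv Finset

variable {C : Core} {hC : C.toB.IsGood} {Y : C.I → GB} {N : GB} {ψ : Perm C.toB.T}
  {e : Perm ((comp C Y).D ⊕ N.1.D)}

theorem dO_injective (Y : C.I → GB) (N : GB) (o : Option C.I) :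
    Function.Injective (dO Y N o) := by
  intro d d' h
  obtain ⟨ho, hd⟩ := dO_inj (o := o) (o' := o) h
  exact hd

/-- a set of darts of the part `o` -/
def upO (Y : C.I → GB) (N : GB) (o : Option C.I) (B : Finset (netO Y N o).1.D) :
    Finset ((comp C Y).D ⊕ N.1.D) := B.map ⟨dO Y N o, dO_injective Y N o⟩

theorem UAx_mem {o : Option C.I} {B : Finset (netO Y N o).1.D} {d : (netO Y N o).1.D} :
    dO Y N o d ∈ upO Y N o B ↔ d ∈ B := by
  unfold upO
  rw [mem_map]
  constructor
  · rintro ⟨d', hd', h⟩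
    have := dO_injective Y N o h
    rwa [← this]
  · intro h
    exact ⟨d, h, rfl⟩

theorem UAx_part {o : Option C.I} {B : Finset (netO Y N o).1.D} {t : (comp C Y).D ⊕ N.1.D}
    (h : t ∈ upO Y N o B) : ∃ d ∈ B, t = dO Y N o d := by
  unfold upO at h
  rw [mem_map] at h
  obtain ⟨d, hd, h⟩ := h
  exact ⟨d, hd, h.symm⟩

theorem UAx_chart (o : Option C.I) :
    Chart (twoA (cG C hC Y) N) (twoS (cG C hC Y) N) (netO Y N o) (fun d => dO Y N o d) := by
  rcases o with _ | i
  · exact chart_r (cG C hC Y) N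
  · exact chart_part hC Y N i

theorem upO_cl (o : Option C.I) (B : Finset (netO Y N o).1.D) :
    Cl (twoA (cG C hC Y) N) (upO Y N o B) ↔ Cl (netO Y N o).1.aa (dn B) :=
  chart_cl (UAx_chart (hC := hC) (Y := Y) (N := N) o) B

theorem upO_cut (o : Option C.I) (B : Finset (netO Y N o).1.D) :
    cut (twoS (cG C hC Y) N) (upO Y N o B) = cut (netO Y N o).1.s (dn B) :=
  chart_cut (UAx_chart (hC := hC) (Y := Y) (N := N) o) B

theorem UAx_dn_univ (M : GB) : cut M.1.s (dn (univ : Finset M.1.D)) = 4 := by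
  have h1 := Good.cut_pair M.2 (Sum.inr true)
  have h2 : (dn (univ : Finset M.1.D)) = ({Sum.inr true, M.1.aa (Sum.inr true)} : Finset M.1.T)ᶜ := by
    ext t
    rw [mem_compl, mem_insert, mem_singleton]
    rcases t with d | b
    · constructor
      · intro _ h3
        rcases h3 with h3 | h3
        · have h4 : (Sum.inl d : M.1.D ⊕ Bool) = Sum.inr true := h3
          simp at h4
        · have h4 : (Sum.inl d : M.1.D ⊕ Bool) = Sum.inr false := h3
          simp at h4
      · intro _
        exact AxPart_mem_dn.2 (mem_univ _)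
    · constructor
      · intro h3
        exact absurd h3 AxPart_dn_inr
      · intro h3
        exfalso
        apply h3
        cases b
        · exact Or.inr rfl
        · exact Or.inl rfl
  rw [h2, cut_compl, h1]

/-- the cut of a whole part is 4 -/
theorem upO_univ (o : Option C.I) : cut (twoS (cG C hC Y) N) (upO Y N o univ) = 4 := by
  rw [upO_cut]
  exact UAx_dn_univ _

/-- the same vertex, inside a part -/
theorem sc_dO (o : Option C.I) (d d' : (netO Y N o).1.D) :
    (twoS (cG C hC Y) N).SameCycle (dO Y N o d) (dO Y N o d') ↔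
      (netO Y N o).1.s.SameCycle (Sum.inl d) (Sum.inl d') := by
  rcases o with _ | i
  · exact two_sc_rr (cG C hC Y) N d d'
  · exact (two_sc_ll (cG C hC Y) N ⟨i, d⟩ ⟨i, d'⟩).trans (sc_part hC i d d')

/-- darts of two parts at one vertex are at poles -/
theorem sc_dO2 {o o' : Option C.I} (hoo : o ≠ o') {d : (netO Y N o).1.D}
    {d' : (netO Y N o').1.D} (h : (twoS (cG C hC Y) N).SameCycle (dO Y N o d) (dO Y N o' d')) :
    ∃ b b', (netO Y N o).1.s.SameCycle (Sum.inl d) (Sum.inr b) ∧
      (netO Y N o').1.s.SameCycle (Sum.inl d') (Sum.inr b') ∧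
      C.s.SameCycle (cdt o b) (cdt o' b') := by
  rcases o with _ | i <;> rcases o' with _ | i'
  · exact absurd rfl hoo
  · have h1 : (twoS (cG C hC Y) N).SameCycle (Sum.inl ⟨i', d'⟩) (Sum.inr d) := h.symm
    obtain ⟨b, h2, h3⟩ := (two_sc_lr (cG C hC Y) N ⟨i', d'⟩ d).1 h1
    obtain ⟨b', h4, h5⟩ := (sc_root (N := Y) hC (i := i') (d := d') (b' := b)).1 h2
    exact ⟨b, b', h3, h4, h5.symm⟩
  · have h1 : (twoS (cG C hC Y) N).SameCycle (Sum.inl ⟨i, d⟩) (Sum.inr d') := h
    obtain ⟨b, h2, h3⟩ := (two_sc_lr (cG C hC Y) N ⟨i, d⟩ d').1 h1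
    obtain ⟨b', h4, h5⟩ := (sc_root (N := Y) hC (i := i) (d := d) (b' := b)).1 h2
    exact ⟨b', b, h4, h3, h5⟩
  · have h1 : (twoS (cG C hC Y) N).SameCycle (Sum.inl ⟨i, d⟩) (Sum.inl ⟨i', d'⟩) := h
    have h2 := (two_sc_ll (cG C hC Y) N ⟨i, d⟩ ⟨i', d'⟩).1 h1
    exact sc_parts hC (fun h3 => hoo (congrArg some h3)) h2

/-- the boundary corners of a set inside a part, in the part -/
theorem UAx_bd {o : Option C.I} {B : Finset (netO Y N o).1.D} {d : (netO Y N o).1.D} :
    dO Y N o d ∈ bd (twoS (cG C hC Y) N) (upO Y N o B) ↔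
      (Sum.inl d : (netO Y N o).1.T) ∈ bd (netO Y N o).1.s (dn B) := by
  refine mem_bd.trans (Iff.trans ?_ mem_bd.symm)
  refine not_congr (iff_congr (UAx_mem.trans AxPart_mem_dn.symm) ?_)
  rcases h : (netO Y N o).1.s (Sum.inl d) with d' | b
  · have h5 := dO_s_in (hC := hC) (Y := Y) (N := N) h
    refine (Iff.of_eq (congrArg (fun z : (comp C Y).D ⊕ N.1.D => z ∈ upO Y N o B) h5)).trans ?_
    exact UAx_mem.trans AxPart_mem_dn.symm
  · have h0 : d = CompInj.lstD (netO Y N o) b := CompInj.eq_lstD h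
    have h1 : twoS (cG C hC Y) N (dO Y N o d) ∉ upO Y N o B := by
      intro h2
      obtain ⟨d', -, h3⟩ := UAx_part h2
      rw [h0] at h3
      exact (UAx_chart (hC := hC) (Y := Y) (N := N) o).s_lst b d' h3
    have h2 : (Sum.inr b : (netO Y N o).1.T) ∉ dn B := AxPart_dn_inr
    exact iff_of_false h1 h2

theorem UAx_refl_sc {T : Type*} [Fintype T] [DecidableEq T] {a s e : Perm T} (he : Refl a s e)
    {x y : T} (h : s.SameCycle x y) : s.SameCycle (e x) (e y) := by
  obtain ⟨n, -, hn⟩ := h.exists_pow_eq'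
  have h1 : ∀ (n : ℕ) (t : T), (s ^ n) (e ((s ^ n) t)) = e t := by
    intro n
    induction n with
    | zero => intro t; rfl
    | succ n ih =>
      intro t
      have i1 : (s ^ (n + 1)) t = s ((s ^ n) t) := by rw [pow_succ', Perm.mul_apply]
      have i2 : ∀ z, (s ^ (n + 1)) z = (s ^ n) (s z) := fun z => by
        rw [pow_succ, Perm.mul_apply]
      rw [i1, i2, he.es, ih]
  refine Perm.SameCycle.symm ⟨n, ?_⟩
  rw [zpow_natCast, ← hn]
  exact h1 n x

/-- As `ax_part`: `AxSet` for the net contains also `root`, `rest`, which say that `B` is not everything. -/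
theorem uax_part (h : UTw C hC Y N ψ e) {o : Option C.I} {b b' : Bool}
    (ho : ψ (cdt o b) = cdt o b') {φ : Perm (netO Y N o).1.T}
    (hφ : TwI true (xor b b') (netO Y N o).1 (netO Y N o).1 φ) (B : Finset (netO Y N o).1.D) :
    AxI (twoA (cG C hC Y) N) (twoS (cG C hC Y) N) e (upO Y N o B) ↔
      AxSet (netO Y N o).1 φ (dn B) ∨ (B = univ ∧ b = b') := by
  have hdt : ∀ d, (twoS (cG C hC Y) N).SameCycle (dO Y N o d) (e (dO Y N o d)) ↔
      (netO Y N o).1.s.SameCycle (Sum.inl d) (φ (Sum.inl d)) := by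
    intro d
    obtain ⟨d', hd'⟩ := hφ.inl d
    rw [h.dt ho hφ hd', sc_dO, hd']
  have hroot : ∀ b₁, (netO Y N o).1.s.SameCycle (Sum.inl (fstD (netO Y N o) b₁))
      (φ (Sum.inl (fstD (netO Y N o) b₁))) ↔
      (netO Y N o).1.s.SameCycle (Sum.inr b₁) (φ (Sum.inr b₁)) := by
    intro b₁
    have h1 : (netO Y N o).1.s.SameCycle (Sum.inr b₁) (Sum.inl (fstD (netO Y N o) b₁)) := by
      rw [← fstD_spec]; exact CompVAux.sc_apply _ _
    have h2 : (netO Y N o).1.s.SameCycle (φ (Sum.inr b₁)) (φ (Sum.inl (fstD (netO Y N o) b₁))) :=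
      (hφ.sameCycle _ _).1 h1
    exact ⟨fun h3 => h1.trans (h3.trans h2.symm), fun h3 => h1.symm.trans (h3.trans h2)⟩
  have hL : ∀ b₁ t, twoS (cG C hC Y) N t = dO Y N o (fstD (netO Y N o) b₁) →
      ((twoS (cG C hC Y) N).SameCycle t (e t) ↔
        (netO Y N o).1.s.SameCycle (Sum.inr b₁) (φ (Sum.inr b₁))) := by
    intro b₁ t ht
    rw [← hroot, ← hdt]
    have h1 : (twoS (cG C hC Y) N).SameCycle t (dO Y N o (fstD (netO Y N o) b₁)) := by
      rw [← ht]
      exact CompVAux.sc_apply _ _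
    have h2 := UAx_refl_sc h.refl h1
    exact ⟨fun h3 => h1.symm.trans (h3.trans h2), fun h3 => h1.trans (h3.trans h2.symm)⟩
  have hfst : ∀ b₁, ∀ t, twoS (cG C hC Y) N t = dO Y N o (fstD (netO Y N o) b₁) →
      ∀ d, t ≠ dO Y N o d := by
    intro b₁ t ht d hd
    apply (UAx_chart (hC := hC) (Y := Y) (N := N) o).s_fst b₁ d
    show (twoS (cG C hC Y) N)⁻¹ (dO Y N o (fstD (netO Y N o) b₁)) = dO Y N o d
    rw [← ht, ← hd]
    simp
  have hs2 : ∀ t, t ∈ bd (twoS (cG C hC Y) N) (upO Y N o B) → (∃ d, t = dO Y N o d) ∨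
      ∃ b₁, twoS (cG C hC Y) N t = dO Y N o (fstD (netO Y N o) b₁) ∧ fstD (netO Y N o) b₁ ∈ B := by
    intro t ht
    rw [mem_bd] at ht
    by_cases h1 : t ∈ upO Y N o B
    · obtain ⟨d, _, h2⟩ := UAx_part h1
      exact Or.inl ⟨d, h2⟩
    · have h2 : twoS (cG C hC Y) N t ∈ upO Y N o B := by
        by_contra h3
        exact ht ⟨fun h4 => absurd h4 h1, fun h4 => absurd h4 h3⟩
      obtain ⟨d, hd, h3⟩ := UAx_part h2
      rcases h4 : (netO Y N o).1.s⁻¹ (Sum.inl d) with d₀ | b₁
      · left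
        refine ⟨d₀, (twoS (cG C hC Y) N).injective ?_⟩
        have h5 : (netO Y N o).1.s (Sum.inl d₀) = Sum.inl d := by rw [← h4]; simp
        rw [dO_s_in (hC := hC) h5, h3]
      · right
        have h5 : (netO Y N o).1.s (Sum.inr b₁) = Sum.inl d := by rw [← h4]; simp
        rw [fstD_spec] at h5
        have h6 := Sum.inl_injective h5
        exact ⟨b₁, by rw [h6]; exact h3, by rw [h6]; exact hd⟩
  have hends : (∀ t ∈ bd (twoS (cG C hC Y) N) (upO Y N o B),
      (twoS (cG C hC Y) N).SameCycle t (e t)) ↔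
      ∀ t ∈ bd (netO Y N o).1.s (dn B), (netO Y N o).1.s.SameCycle t (φ t) := by
    constructor
    · intro hh t ht
      rcases t with d | b₁
      · rw [← hdt]
        exact hh _ (UAx_bd.2 ht)
      · rw [mem_bd, fstD_spec, AxPart_mem_dn] at ht
        have h1 : fstD (netO Y N o) b₁ ∈ B := by
          by_contra h2
          exact ht ⟨fun h4 => absurd h4 AxPart_dn_inr, fun h4 => absurd h4 h2⟩
        have hy : twoS (cG C hC Y) N ((twoS (cG C hC Y) N)⁻¹ (dO Y N o (fstD (netO Y N o) b₁))) =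
            dO Y N o (fstD (netO Y N o) b₁) := by simp
        rw [← hL b₁ _ hy]
        apply hh
        refine mem_bd.2 fun h3 => ?_
        have h5 : twoS (cG C hC Y) N ((twoS (cG C hC Y) N)⁻¹ (dO Y N o (fstD (netO Y N o) b₁))) ∈
            upO Y N o B := by
          have h6 : dO Y N o (fstD (netO Y N o) b₁) ∈ upO Y N o B := UAx_mem.2 h1
          exact (Iff.of_eq (congrArg (fun z : (comp C Y).D ⊕ N.1.D => z ∈ upO Y N o B) hy)).2 h6
        obtain ⟨d, -, h4⟩ := UAx_part (h3.2 h5)
        exact hfst b₁ _ hy d h4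
    · intro hh t ht
      rcases hs2 t ht with ⟨d, rfl⟩ | ⟨b₁, hy, hB⟩
      · rw [hdt]
        exact hh _ (UAx_bd.1 ht)
      · rw [hL b₁ t hy]
        apply hh
        rw [mem_bd, fstD_spec, AxPart_mem_dn]
        intro h3
        exact AxPart_dn_inr (h3.2 hB)
  have hcl := upO_cl (hC := hC) (Y := Y) (N := N) o B
  have hinv : (∀ t ∈ upO Y N o B, e t ∈ upO Y N o B) ↔ ∀ t ∈ dn B, φ t ∈ dn B := by
    constructor
    · intro h1 t ht
      rcases t with d | b₁
      · rw [AxPart_mem_dn] at ht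
        have h3 := h1 _ (UAx_mem.2 ht)
        obtain ⟨d', hd'⟩ := hφ.inl d
        rw [h.dt ho hφ hd', UAx_mem] at h3
        rw [hd', AxPart_mem_dn]
        exact h3
      · exact absurd ht AxPart_dn_inr
    · intro h1 t ht
      obtain ⟨d, hd, rfl⟩ := UAx_part ht
      have h3 := h1 _ (AxPart_mem_dn.2 hd)
      obtain ⟨d', hd'⟩ := hφ.inl d
      rw [hd', AxPart_mem_dn] at h3
      rw [h.dt ho hφ hd', UAx_mem]
      exact h3
  by_cases hB : B = univ
  · have hN : ¬ AxSet (netO Y N o).1 φ (dn B) := by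
      intro h1
      apply h1.rest
      ext t
      simp only [mem_univ, iff_true, mem_union]
      rcases t with d | b₁
      · left
        rw [AxPart_mem_dn, hB]
        exact mem_univ _
      · exact Or.inr (CompFour.mem_root.2 ⟨b₁, rfl⟩)
    constructor
    · intro h1
      right
      refine ⟨hB, ?_⟩
      have h3 := hends.1 h1.ends (Sum.inr true) (by
        rw [mem_bd, fstD_spec, AxPart_mem_dn]
        intro h4
        exact AxPart_dn_inr (h4.2 (by rw [hB]; exact mem_univ _)))
      rw [hφ.root] at h3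
      have h4 := CompVAux.root_uniq (netO Y N o) (Perm.SameCycle.refl _ (Sum.inr true)) h3
      revert h4
      cases b <;> cases b' <;> decide
    · rintro (h1 | ⟨-, hbb⟩)
      · exact absurd h1 hN
      · refine ⟨hcl.2 ?_, hinv.2 ?_, ?_, hends.2 ?_⟩
        · intro t
          rcases t with d | b₁
          · have h4 : (netO Y N o).1.aa (Sum.inl d) = Sum.inl ((netO Y N o).1.a d) := rfl
            rw [h4, AxPart_mem_dn, AxPart_mem_dn, hB]
            exact iff_of_true (mem_univ _) (mem_univ _)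
          · exact ⟨fun h4 => absurd h4 AxPart_dn_inr, fun h4 => absurd h4 AxPart_dn_inr⟩
        · intro t ht
          rcases t with d | b₁
          · obtain ⟨d', hd'⟩ := hφ.inl d
            rw [hd', AxPart_mem_dn, hB]
            exact mem_univ _
          · exact absurd ht AxPart_dn_inr
        · rw [hB]
          exact upO_univ o
        · have hrt : ∀ b₁, φ (Sum.inr b₁) = Sum.inr b₁ := by
            intro b₁
            rw [hφ.root, hbb]
            cases b' <;> simp
          intro t ht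
          rcases t with d | b₁
          · rw [mem_bd, AxPart_mem_dn] at ht
            rcases h5 : (netO Y N o).1.s (Sum.inl d) with d' | b₁
            · exfalso
              rw [h5, AxPart_mem_dn, hB] at ht
              exact ht ⟨fun _ => mem_univ _, fun _ => mem_univ _⟩
            · have h6 : (netO Y N o).1.s.SameCycle (Sum.inl d) (Sum.inr b₁) := by
                rw [← h5]; exact CompVAux.sc_apply _ _
              have h7 := (hφ.sameCycle _ _).1 h6
              rw [hrt] at h7
              exact h6.trans h7.symm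
          · rw [hrt]
  · have hres : dn B ∪ (netO Y N o).1.root ≠ univ := by
      intro h1
      apply hB
      ext d
      simp only [mem_univ, iff_true]
      have h3 : (Sum.inl d : (netO Y N o).1.T) ∈ dn B ∪ (netO Y N o).1.root := by
        rw [h1]; exact mem_univ _
      rw [mem_union, AxPart_mem_dn] at h3
      rcases h3 with h3 | h3
      · exact h3
      · obtain ⟨b₁, hb₁⟩ := CompFour.mem_root.1 h3
        have h4 : (Sum.inl d : (netO Y N o).1.D ⊕ Bool) = Sum.inr b₁ := hb₁
        simp at h4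
    constructor
    · intro h1
      left
      exact ⟨hcl.1 h1.cl, hinv.1 h1.inv, by rw [← upO_cut (hC := hC), h1.cut4], AxPart_dn_inr,
        hres, hends.1 h1.ends⟩
    · rintro (h1 | ⟨h1, -⟩)
      · exact ⟨hcl.2 h1.cl, hinv.2 h1.inv, by rw [upO_cut, h1.cut4], hends.2 h1.ends⟩
      · exact absurd h1 hB

end PGr

end

section
/-! # Module UVal: the weight of an unrooted symmetric composite -/

set_option linter.unusedSectionVars false

namespace PGr
open Equiv Finset
open scoped ENNReal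

section
variable {C : Core} {Y : C.I → GB} {N : GB}

private theorem uv_sum (f : (comp C Y).D ⊕ N.1.D → ℕ) :
    ∑ t, f t = ∑ o : Option C.I, ∑ d : (netO Y N o).1.D, f (dO Y N o d) := by
  have h1 := Fintype.sum_sum_type f
  have h2 := Fintype.sum_option (fun o : Option C.I => ∑ d : (netO Y N o).1.D, f (dO Y N o d))
  have h3 : ∑ x : (comp C Y).D, f (Sum.inl x) = ∑ i, ∑ d : (Y i).1.D, f (Sum.inl ⟨i, d⟩) :=
    Fintype.sum_sigma (fun x : (Σ i, (Y i).1.D) => f (Sum.inl x))
  rw [h2, h1, h3, add_comm]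
  rfl

private theorem uv_core (f : C.toB.T → ℕ) :
    ∑ x, f x = ∑ o : Option C.I, ∑ b : Bool, f (cdt o b) := by
  have h1 := Fintype.sum_sum_type f
  have h2 := Fintype.sum_option (fun o : Option C.I => ∑ b : Bool, f (cdt o b))
  have h3 : ∑ x : (C.I × Bool), f (Sum.inl x) = ∑ i, ∑ b : Bool, f (Sum.inl (i, b)) :=
    Fintype.sum_prod_type (fun x : C.I × Bool => f (Sum.inl x))
  rw [h2, h1, add_comm]
  exact congrArg₂ (· + ·) rfl h3

private theorem uv_cdt_inj {o o' : Option C.I} {b b' : Bool} (h : cdt o b = cdt o' b') :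
    o = o' ∧ b = b' := by
  rcases o with _ | i <;> rcases o' with _ | i'
  · exact ⟨rfl, Sum.inr_injective h⟩
  · exact absurd h Sum.inr_ne_inl
  · exact absurd h Sum.inl_ne_inr
  · have h1 : ((i, b) : C.I × Bool) = (i', b') := Sum.inl_injective h
    rw [Prod.mk.injEq] at h1
    exact ⟨congrArg some h1.1, h1.2⟩

private theorem uv_cdt_cases (x : C.toB.T) : ∃ o b, x = cdt o b := by
  rcases x with ⟨i, b⟩ | b
  · exact ⟨some i, b, rfl⟩
  · exact ⟨none, b, rfl⟩

private theorem uv_dO_inj {o : Option C.I} {d d' : (netO Y N o).1.D}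
    (h : dO Y N o d = dO Y N o d') : d = d' := by
  obtain ⟨ho, hd⟩ := dO_inj h
  exact hd

private theorem uv_fst {o o' : Option C.I} {b b' : Bool}
    (h : dO Y N o (fstD (netO Y N o) b) = dO Y N o' (fstD (netO Y N o') b')) :
    o = o' ∧ b = b' := by
  obtain ⟨ho, hd⟩ := dO_inj h
  subst ho
  exact ⟨rfl, fst_inj hd⟩

private theorem uv_in {M : GB} (d : M.1.D) (hd : ¬ ∃ d', M.1.s (Sum.inl d) = Sum.inl d') :
    ∃ b, M.1.s (Sum.inl d) = Sum.inr b := by
  rcases h : M.1.s (Sum.inl d) with d' | b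
  · exact absurd ⟨d', h⟩ hd
  · exact ⟨b, rfl⟩

variable {hC : C.toB.IsGood} {ψ : Perm C.toB.T} {e : Perm ((comp C Y).D ⊕ N.1.D)}

private theorem uv_last (h : UTw C hC Y N ψ e) (o : Option C.I) (b : Bool) :
    e (dO Y N o (CompInj.lstD (netO Y N o) b)) =
      twoS (cG C hC Y) N (dO Y N o (CompInj.lstD (netO Y N o) b)) ↔
        ψ (cdt o b) = C.s (cdt o b) := by
  obtain ⟨o₁, b₁, h1⟩ := uv_cdt_cases (ψ (cdt o b))
  obtain ⟨o₂, b₂, h2⟩ := uv_cdt_cases (C := C) (C.s (cdt o b))
  rw [h.lst h1, dO_s_out hC h2, h1, h2]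
  constructor
  · intro h3
    obtain ⟨h4, h5⟩ := uv_fst h3
    rw [h4, h5]
  · intro h3
    obtain ⟨rfl, rfl⟩ := uv_cdt_inj h3
    rfl

private theorem uv_bis (h : UTw C hC Y N ψ e) : cBis (twoS (cG C hC Y) N) e = cBis C.s ψ +
    ∑ o : Option C.I, (univ.filter fun d : (netO Y N o).1.D =>
      e (dO Y N o d) = twoS (cG C hC Y) N (dO Y N o d) ∧
      ∃ d', (netO Y N o).1.s (Sum.inl d) = Sum.inl d').card := by
  classical
  have e1 : cBis (twoS (cG C hC Y) N) e = ∑ o : Option C.I, ∑ d : (netO Y N o).1.D,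
      if e (dO Y N o d) = twoS (cG C hC Y) N (dO Y N o d) then 1 else 0 := by
    unfold cBis
    rw [card_filter]
    exact uv_sum (fun t => if e t = twoS (cG C hC Y) N t then 1 else 0)
  have e2 : cBis C.s ψ = ∑ o : Option C.I, ∑ b : Bool,
      if ψ (cdt o b) = C.s (cdt o b) then 1 else 0 := by
    unfold cBis
    rw [card_filter]
    exact uv_core (fun x => if ψ x = C.s x then 1 else 0)
  rw [e1, e2, ← sum_add_distrib]
  refine sum_congr rfl fun o _ => ?_
  rw [← card_filter, ← card_filter]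
  have h3 : (univ.filter fun b : Bool => ψ (cdt o b) = C.s (cdt o b)).card =
      ((univ.filter fun b : Bool => ψ (cdt o b) = C.s (cdt o b)).image
        fun b => CompInj.lstD (netO Y N o) b).card := by
    rw [card_image_of_injective]
    intro b b' hb
    have h4 : CompInj.lstD (netO Y N o) b = CompInj.lstD (netO Y N o) b' := hb
    have h5 := CompInj.lstD_spec (netO Y N o) b
    rw [h4, CompInj.lstD_spec] at h5
    exact (Sum.inr_injective h5).symm
  rw [h3, ← card_union_of_disjoint]
  · congr 1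
    ext d
    simp only [mem_filter, mem_univ, true_and, mem_union, mem_image]
    constructor
    · intro hd
      by_cases hin : ∃ d', (netO Y N o).1.s (Sum.inl d) = Sum.inl d'
      · exact Or.inr ⟨hd, hin⟩
      · obtain ⟨b, hb⟩ := uv_in d hin
        left
        have h6 := CompInj.eq_lstD hb
        refine ⟨b, ?_, h6.symm⟩
        rw [← uv_last h, ← h6]
        exact hd
    · rintro (⟨b, hb, rfl⟩ | hd)
      · exact (uv_last h o b).2 hb
      · exact hd.1
  · rw [disjoint_left]
    intro d hd hd'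
    simp only [mem_filter, mem_univ, true_and, mem_image] at hd hd'
    obtain ⟨b, -, rfl⟩ := hd
    obtain ⟨-, d', hd'⟩ := hd'
    rw [CompInj.lstD_spec] at hd'
    simp at hd'

private theorem uv_two (M : GB) : 2 ≤ nV M.1.s := by
  have := CompVAux.card_inn M
  omega

private theorem uv_nV : nV (twoS (cG C hC Y) N) =
    nV C.s + ∑ o : Option C.I, (nV (netO Y N o).1.s - 2) := by
  have h0 := two_nV (cG C hC Y) N
  have h1 : nV (cG C hC Y).1.s + 2 * Fintype.card C.I = nV C.s + ∑ i, nV (Y i).1.s :=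
    nV_comp C Y hC
  have h2 : ∑ o : Option C.I, (nV (netO Y N o).1.s - 2) =
      (nV N.1.s - 2) + ∑ i, (nV (Y i).1.s - 2) :=
    Fintype.sum_option (fun o : Option C.I => nV (netO Y N o).1.s - 2)
  have h3 : ∑ i, nV (Y i).1.s = ∑ i, (nV (Y i).1.s - 2) + 2 * Fintype.card C.I := by
    have h4 : ∀ i ∈ (univ : Finset C.I), nV (Y i).1.s = (nV (Y i).1.s - 2) + 2 := fun i _ => by
      have := uv_two (Y i)
      omega
    rw [sum_congr rfl h4, sum_add_distrib]
    simp [mul_comm]
  have h5 := uv_two N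
  omega

private theorem uv_pv (h : UTw C hC Y N ψ e) (w : Wt) (o : Option C.I) :
    puv w C ψ o (netO Y N o).1 =
      w.ax ^ (univ.filter fun d : (netO Y N o).1.D => e (dO Y N o d) = dO Y N o d).card *
      w.bi ^ (univ.filter fun d : (netO Y N o).1.D =>
        e (dO Y N o d) = twoS (cG C hC Y) N (dO Y N o d) ∧
        ∃ d', (netO Y N o).1.s (Sum.inl d) = Sum.inl d').card *
      w.cr ^ (univ.filter fun d : (netO Y N o).1.D =>
        e (dO Y N o d) = dO Y N o ((netO Y N o).1.a d)).card *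
      w.vx ^ (nV (netO Y N o).1.s - 2) * w.dt ^ Fintype.card (netO Y N o).1.D := by
  classical
  obtain ⟨o', b', hψ⟩ := uv_cdt_cases (ψ (cdt o true))
  by_cases hi : o' = o
  · subst hi
    obtain ⟨φ, hφ, hφ'⟩ := h.nets o' true o' b' hψ
    have key : ∀ d d', e (dO Y N o' d) = dO Y N o' d' ↔ φ (Sum.inl d) = Sum.inl d' := by
      intro d d'
      obtain ⟨d₁, hd₁⟩ := hφ.inl d
      have h1 := hφ' d d₁ hd₁
      rw [h1, hd₁]
      constructor
      · intro h2
        rw [uv_dO_inj h2]
      · intro h2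
        rw [Sum.inl_injective h2]
    have h1 : puv w C ψ o' (netO Y N o').1 = Vw w (netO Y N o').1 φ := by
      cases b'
      · unfold puv
        rw [if_neg, if_pos]
        · exact sv_of w (netO Y N o').2 hφ
        · exact hψ
        · intro h2
          have h3 := uv_cdt_inj (hψ.symm.trans h2)
          exact absurd h3.2 (by simp)
      · unfold puv
        rw [if_pos]
        · exact sv_of w (netO Y N o').2 hφ
        · exact hψ
    rw [h1]
    unfold Vw
    have hA : nAx (netO Y N o').1 φ = (univ.filter fun d : (netO Y N o').1.D =>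
        e (dO Y N o' d) = dO Y N o' d).card := by
      unfold nAx
      congr 1
      ext d
      simp only [mem_filter, mem_univ, true_and]
      exact (key d d).symm
    have hCr : nCr (netO Y N o').1 φ = (univ.filter fun d : (netO Y N o').1.D =>
        e (dO Y N o' d) = dO Y N o' ((netO Y N o').1.a d)).card := by
      unfold nCr
      congr 1
      ext d
      simp only [mem_filter, mem_univ, true_and]
      exact (key d _).symm
    have hB : nBi (netO Y N o').1 φ = (univ.filter fun d : (netO Y N o').1.D =>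
        e (dO Y N o' d) = twoS (cG C hC Y) N (dO Y N o' d) ∧
        ∃ d', (netO Y N o').1.s (Sum.inl d) = Sum.inl d').card := by
      unfold nBi
      refine (card_bij (fun d _ => Sum.inl d) ?_ ?_ ?_).symm
      · intro d hd
        simp only [mem_filter, mem_univ, true_and] at hd ⊢
        obtain ⟨hd, d', hd'⟩ := hd
        rw [dO_s_in hC hd', key] at hd
        rw [hd, hd']
      · intro d _ d' _ hd
        exact Sum.inl_injective hd
      · intro t ht
        simp only [mem_filter, mem_univ, true_and] at ht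
        obtain ⟨d, d', rfl, hd'⟩ := no_bi_root (netO Y N o').2 hφ ht
        refine ⟨d, ?_, rfl⟩
        simp only [mem_filter, mem_univ, true_and]
        refine ⟨?_, d', hd'⟩
        rw [dO_s_in hC hd', key, ht, hd']
    rw [hA, hB, hCr]
  · obtain ⟨φ, hφ, hφ'⟩ := h.nets o true o' b' hψ
    have key : ∀ d d', e (dO Y N o d) ≠ dO Y N o d' := by
      intro d d' h2
      obtain ⟨d₁, hd₁⟩ := hφ.inl d
      have h1 := hφ' d d₁ hd₁
      rw [h1] at h2
      obtain ⟨h3, -⟩ := dO_inj h2
      exact hi h3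
    have h1 : puv w C ψ o (netO Y N o).1 = hW w (netO Y N o).1 := by
      unfold puv
      rw [if_neg, if_neg]
      · intro h2
        exact hi (uv_cdt_inj (hψ.symm.trans h2)).1
      · intro h2
        exact hi (uv_cdt_inj (hψ.symm.trans h2)).1
    rw [h1]
    unfold hW
    have hA : (univ.filter fun d : (netO Y N o).1.D =>
        e (dO Y N o d) = dO Y N o d) = ∅ :=
      filter_eq_empty_iff.2 fun d _ => key d d
    have hCr : (univ.filter fun d : (netO Y N o).1.D =>
        e (dO Y N o d) = dO Y N o ((netO Y N o).1.a d)) = ∅ :=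
      filter_eq_empty_iff.2 fun d _ => key d _
    have hB : (univ.filter fun d : (netO Y N o).1.D =>
        e (dO Y N o d) = twoS (cG C hC Y) N (dO Y N o d) ∧
        ∃ d', (netO Y N o).1.s (Sum.inl d) = Sum.inl d') = ∅ := by
      refine filter_eq_empty_iff.2 fun d _ => ?_
      rintro ⟨h2, d', hd'⟩
      rw [dO_s_in hC hd'] at h2
      exact key _ _ h2
    rw [hA, hB, hCr]
    simp

end

/-- Proof as for `Vw_comp`.  Darts on the axis, crossing darts: only in the parts `o` with `ψ (cdt o true) = cdt o b`, there as in the net with the reflection `φ`.  Bisected corners: inside a part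
`o` as in the net (`no_bi_root`); at a last dart at the core dart `x`: `e` maps it to the first dart at `ψ x`, the next dart is the first dart at `C.s x`; so these are the `x` with `ψ x = C.s x`.  `nV`: `two_nV`, `nV_comp`
(all nets have at least two vertices).  Number of darts: the sum. -/
theorem VT_comp {C : Core} {hC : C.toB.IsGood} {Y : C.I → GB} {N : GB} {ψ : Perm C.toB.T}
    {e : Perm ((comp C Y).D ⊕ N.1.D)} (h : UTw C hC Y N ψ e) (w : Wt) :
    VT w (twoA (cG C hC Y) N) (twoS (cG C hC Y) N) e =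
      w.bi ^ cBis C.s ψ * w.vx ^ nV C.s * ∏ o : Option C.I, puv w C ψ o (netO Y N o).1 := by
  classical
  rw [prod_congr rfl fun o _ => uv_pv h w o]
  simp only [prod_mul_distrib, prod_pow_eq_pow_sum]
  have hA : cAx (T := (cG C hC Y).1.D ⊕ N.1.D) e =
      ∑ o : Option C.I, (univ.filter fun d : (netO Y N o).1.D =>
      e (dO Y N o d) = dO Y N o d).card := by
    unfold cAx
    rw [card_filter]
    simp only [card_filter]
    exact uv_sum (fun t => if e t = t then 1 else 0)
  have hCr : cCr (twoA (cG C hC Y) N) e = ∑ o : Option C.I,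
      (univ.filter fun d : (netO Y N o).1.D =>
        e (dO Y N o d) = dO Y N o ((netO Y N o).1.a d)).card := by
    unfold cCr
    rw [card_filter]
    simp only [card_filter]
    refine (uv_sum (fun t => if e t = twoA (cG C hC Y) N t then 1 else 0)).trans ?_
    refine sum_congr rfl fun o _ => sum_congr rfl fun d _ => ?_
    have h1 : twoA (cG C hC Y) N (dO Y N o d) = dO Y N o ((netO Y N o).1.a d) := by
      rcases o with _ | i <;> rfl
    rw [h1]
  have hD : Fintype.card ((cG C hC Y).1.D ⊕ N.1.D) =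
      ∑ o : Option C.I, Fintype.card (netO Y N o).1.D := by
    have h1 := uv_sum (C := C) (Y := Y) (N := N) (fun _ => 1)
    simp only [sum_const, smul_eq_mul, mul_one, card_univ] at h1
    exact h1
  unfold VT
  rw [hA, uv_bis h, hCr, hD, uv_nV, pow_add, pow_add]
  ring

end PGr

end

section
/-! # Module TwoB: a map with a set of cut 4 is the union of two nets -/

set_option linter.unusedSectionVars false

namespace PGr
open Equiv Finset

section
variable {T : Type} [Fintype T] [DecidableEq T] {a s : Perm T}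

/-- the dart of the complement before the entry at the vertex of `z` -/
private theorem TwoB_entry {S : Finset T} {z : T} (hz : z ∈ S) (hz' : s z ∉ S) :
    ∃ w, s.SameCycle z w ∧ w ∉ S ∧ s w ∈ S := by
  obtain ⟨k, hk, hk'⟩ := SubMap.exit s (P := Sᶜ) (x := s z) (y := z) (mem_compl.2 hz')
    (fun h => mem_compl.1 h hz) (Perm.sameCycle_apply_left.mpr (Perm.SameCycle.refl _ _))
  refine ⟨(s ^ k) (s z), ?_, mem_compl.1 (hk k le_rfl), by simpa using hk'⟩
  exact (Perm.sameCycle_apply_left.mp ⟨k, by simp⟩)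

/-- the first return after the last dart -/
private theorem TwoB_ret (h : Good a s) {S S' : Finset T} (hS : Cl a S) (h4 : cut s S = 4)
    (hS' : ∀ x, x ∈ S' ↔ x ∉ S) {z : T} (hz : z ∈ S) (hz' : s z ∉ S) (w : {x // x ∈ S'})
    (hw : s w.1 ∈ S) (hzw : s.SameCycle z w.1) : (ret s S' w).1 = s z := by
  obtain ⟨k, hk, hk'⟩ := SubMap.exit s (P := S) (x := s w.1) (y := w.1) hw
    ((hS' _).1 w.2) (Perm.sameCycle_apply_left.mpr (Perm.SameCycle.refl _ _))
  have e : (s ^ k) (s w.1) = z := by
    by_contra hne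
    refine h.last_ne hS h4 (hk k le_rfl) hz hk' hz' hne ?_
    refine Perm.SameCycle.trans ?_ hzw.symm
    exact Perm.SameCycle.symm (Perm.sameCycle_apply_left.mp ⟨k, by simp⟩)
  have e1 : ∀ i, (s ^ (i + 1)) w.1 = (s ^ i) (s w.1) := fun i => by
    rw [pow_succ, Perm.mul_apply]
  have e2 : (s ^ (k + 1 + 1)) w.1 = s z := by
    rw [e1, pow_succ', Perm.mul_apply, e]
  rw [ret_spec s S' w (k := k + 1 + 1) (by omega) (by rw [e2, hS']; exact hz') ?_]
  · exact e2
  · intro i hi hlt
    obtain ⟨j, rfl⟩ : ∃ j, i = j + 1 := ⟨i - 1, by omega⟩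
    rw [e1, hS', not_not]
    exact hk j (by omega)

end

/-- Proof.  Let `z₁ ≠ z₂` be the two darts of `P` with `s z ∉ P` (`exists_last`), `z₁ = r`, and `w₁`, `w₂` those of the complement `Pᶜ` (also cut 4) with `w₁` at the vertex of `z₁`, `w₂` at the
vertex of `z₂` (`Good.last_ne`: `z₁`, `z₂` are at different vertices; following `s` from `s z₁ ∉ P` one stays in `Pᶜ` until the last dart `w₁`, then enters `P` and stays in `P` until
`z₁`, as `z₂` is at another vertex).  Let `N` be the map of `Good.subMap` for `P` with the new darts `inr true` after `z₁`, `inr false` after `z₂`, and `K` the map for `Pᶜ` with `inr true` after `w₁`,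
`inr false` after `w₂`; the darts of `N` are `{x // x ∈ P} ⊕ Bool`.  `Θ (inl x) = x`, `Θ (inr x) = x`.  `twoS`: if `x ∈ P`, `s x ∈ P` the first return is `s x`; the dart after `z₁` in `s` is the first
dart of `K` at the pole `true`: the first return of `w₁` to `Pᶜ` is `s z₁`. -/
theorem exists_two {T : Type} [Fintype T] [DecidableEq T] {a s : Perm T} (h : Good a s)
    {P : Finset T} (hP : Cl a P) (h4 : cut s P = 4) {r : T} (hr : r ∈ P) (hr' : s r ∉ P) :
    ∃ (K N : GB) (Θ : (K.1.D ⊕ N.1.D) ≃ T), (∀ t, Θ (twoA K N t) = a (Θ t)) ∧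
      (∀ t, Θ (twoS K N t) = s (Θ t)) ∧ Θ (twoR K N) = r ∧ ∀ t, Θ t ∈ P ↔ t ∈ prN K N := by
  -- the second last dart
  obtain ⟨z2, hz2, hz2', hne⟩ : ∃ z2, z2 ∈ P ∧ s z2 ∉ P ∧ r ≠ z2 := by
    obtain ⟨u0, u1, hu, hu0, hu1, -⟩ := exists_last h4
    by_cases h1 : r = u0.1
    · exact ⟨u1.1, u1.2, hu1, fun e => hu (Subtype.ext (h1.symm.trans e))⟩
    · exact ⟨u0.1, u0.2, hu0, h1⟩
  have hnc : ¬ s.SameCycle r z2 := h.last_ne hP h4 hr hz2 hr' hz2' hne
  obtain ⟨w1, hw1, hw1P, hw1'⟩ := TwoB_entry hr hr'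
  obtain ⟨w2, hw2, hw2P, hw2'⟩ := TwoB_entry hz2 hz2'
  have hwne : w1 ≠ w2 := by
    rintro rfl
    exact hnc (hw1.trans hw2.symm)
  have hPc : Cl a Pᶜ := hP.compl
  have h4c : cut s Pᶜ = 4 := by rw [cut_compl]; exact h4
  have m1 : w1 ∈ Pᶜ := mem_compl.2 hw1P
  have m2 : w2 ∈ Pᶜ := mem_compl.2 hw2P
  have o1 : s w1 ∉ Pᶜ := fun e => mem_compl.1 e hw1'
  have o2 : s w2 ∉ Pᶜ := fun e => mem_compl.1 e hw2'
  have zne : (⟨r, hr⟩ : {x // x ∈ P}) ≠ ⟨z2, hz2⟩ := fun e => hne (congrArg Subtype.val e)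
  have wne : (⟨w1, m1⟩ : {x // x ∈ Pᶜ}) ≠ ⟨w2, m2⟩ := fun e => hwne (congrArg Subtype.val e)
  let N : GB := ⟨{ D := {x // x ∈ P}, a := subA a P hP, s := insS (ret s P) ⟨r, hr⟩ ⟨z2, hz2⟩ },
    h.subMap hP h4 hr' hz2' zne⟩
  let K : GB := ⟨BMap.mk {x // x ∈ Pᶜ} (subA a (Pᶜ) hPc) (insS (ret s (Pᶜ)) ⟨w1, m1⟩ ⟨w2, m2⟩),
    h.subMap hPc h4c o1 o2 wne⟩
  -- returns
  have r1 : (ret s P ⟨r, hr⟩).1 = s w1 :=
    TwoB_ret h hPc h4c (S' := P) (fun x => by rw [mem_compl, not_not]) m1 o1 ⟨r, hr⟩
      (mem_compl.2 hr') hw1.symm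
  have r2 : (ret s P ⟨z2, hz2⟩).1 = s w2 :=
    TwoB_ret h hPc h4c (S' := P) (fun x => by rw [mem_compl, not_not]) m2 o2 ⟨z2, hz2⟩
      (mem_compl.2 hz2') hw2.symm
  have r3 : (ret s (Pᶜ) ⟨w1, m1⟩).1 = s r :=
    TwoB_ret h hP h4 (S' := Pᶜ) (fun x => mem_compl) hr hr' ⟨w1, m1⟩ hw1' hw1
  have r4 : (ret s (Pᶜ) ⟨w2, m2⟩).1 = s z2 :=
    TwoB_ret h hP h4 (S' := Pᶜ) (fun x => mem_compl) hz2 hz2' ⟨w2, m2⟩ hw2' hw2
  -- rotations
  have sN0 : N.1.s (Sum.inl ⟨r, hr⟩) = Sum.inr true := insS_c0 _ zne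
  have sN1 : N.1.s (Sum.inl ⟨z2, hz2⟩) = Sum.inr false := insS_c1 _ zne
  have sN2 : N.1.s (Sum.inr true) = Sum.inl (ret s P ⟨r, hr⟩) := insS_true _ zne
  have sN3 : N.1.s (Sum.inr false) = Sum.inl (ret s P ⟨z2, hz2⟩) := insS_false _ zne
  have sK0 : K.1.s (Sum.inl ⟨w1, m1⟩) = Sum.inr true := insS_c0 _ wne
  have sK1 : K.1.s (Sum.inl ⟨w2, m2⟩) = Sum.inr false := insS_c1 _ wne
  have sK2 : K.1.s (Sum.inr true) = Sum.inl (ret s (Pᶜ) ⟨w1, m1⟩) := insS_true _ wne
  have sK3 : K.1.s (Sum.inr false) = Sum.inl (ret s (Pᶜ) ⟨w2, m2⟩) := insS_false _ wne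
  have fN1 : fstD N true = ret s P ⟨r, hr⟩ := Sum.inl_injective ((fstD_spec N true).symm.trans sN2)
  have fN2 : fstD N false = ret s P ⟨z2, hz2⟩ :=
    Sum.inl_injective ((fstD_spec N false).symm.trans sN3)
  have fK1 : fstD K true = ret s (Pᶜ) ⟨w1, m1⟩ := Sum.inl_injective ((fstD_spec K true).symm.trans sK2)
  have fK2 : fstD K false = ret s (Pᶜ) ⟨w2, m2⟩ :=
    Sum.inl_injective ((fstD_spec K false).symm.trans sK3)
  have hbij : Function.Bijective
      (Sum.elim (fun x : {x // x ∈ Pᶜ} => x.1) (fun x : {x // x ∈ P} => x.1)) := by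
    constructor
    · rintro (x | x) (y | y) hxy
      · exact congrArg _ (Subtype.ext hxy)
      · exact absurd y.2 (by rw [← (show x.1 = y.1 from hxy)]; exact mem_compl.1 x.2)
      · exact absurd x.2 (by rw [(show x.1 = y.1 from hxy)]; exact mem_compl.1 y.2)
      · exact congrArg _ (Subtype.ext hxy)
    · intro x
      by_cases hx : x ∈ P
      · exact ⟨Sum.inr ⟨x, hx⟩, rfl⟩
      · exact ⟨Sum.inl ⟨x, mem_compl.2 hx⟩, rfl⟩
  let Θ : (K.1.D ⊕ N.1.D) ≃ T := Equiv.ofBijective _ hbij
  have Θl : ∀ x : {x // x ∈ Pᶜ}, Θ (Sum.inl x) = x.1 := fun _ => rfl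
  have Θr : ∀ x : {x // x ∈ P}, Θ (Sum.inr x) = x.1 := fun _ => rfl
  refine ⟨K, N, Θ, ?_, ?_, ?_, ?_⟩
  · rintro (x | x)
    · rfl
    · rfl
  · rintro (x | x)
    · rw [twoS_apply]
      by_cases h1 : x = ⟨w1, m1⟩
      · rw [h1, twoFun_lr sK0, fN1, Θr, Θl, r1]
      by_cases h2 : x = ⟨w2, m2⟩
      · rw [h2, twoFun_lr sK1, fN2, Θr, Θl, r2]
      have hsx : s x.1 ∈ Pᶜ := by
        by_contra hcon
        rcases SubMap.last_eq h4c m1 m2 o1 o2 hwne x.2 hcon with e | e
        · exact h1 (Subtype.ext e)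
        · exact h2 (Subtype.ext e)
      have hx : K.1.s (Sum.inl x) = Sum.inl (ret s (Pᶜ) x) := insS_inl _ wne h1 h2
      rw [twoFun_ll hx, Θl, Θl, ret_of_mem s Pᶜ x hsx]
    · rw [twoS_apply]
      by_cases h1 : x = ⟨r, hr⟩
      · rw [h1, twoFun_rl sN0, fK1, Θr, Θl, r3]
      by_cases h2 : x = ⟨z2, hz2⟩
      · rw [h2, twoFun_rl sN1, fK2, Θr, Θl, r4]
      have hsx : s x.1 ∈ P := by
        by_contra hcon
        rcases SubMap.last_eq h4 hr hz2 hr' hz2' hne x.2 hcon with e | e
        · exact h1 (Subtype.ext e)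
        · exact h2 (Subtype.ext e)
      have hx : N.1.s (Sum.inl x) = Sum.inl (ret s P x) := insS_inl _ zne h1 h2
      rw [twoFun_rr hx, Θr, Θr, ret_of_mem s P x hsx]
  · have e : (⟨r, hr⟩ : {x // x ∈ P}) = CompInj.lstD N true := CompInj.eq_lstD (M := N) sN0
    rw [twoR, ← e, Θr]
  · rintro (x | x)
    · rw [Θl]
      constructor
      · intro h1; exact absurd h1 (mem_compl.1 x.2)
      · intro h1
        simp [prN] at h1
    · rw [Θr]
      constructor
      · intro _
        exact mem_map.2 ⟨x, mem_univ _, rfl⟩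
      · intro _; exact x.2

end PGr

end

section
/-! # Module FlipSum: sums over families of nets compatible with a rotation -/

namespace PGr
open Equiv Finset
open scoped ENNReal Classical

/-- Sum over families with prescribed values outside `P`. -/
theorem restrict_sum {I : Type} {Λ : Type*} [Fintype I] (P : I → Prop) (x0 : Λ)
    (Φ : ({i // P i} → Λ) → ℝ≥0∞) :
    (∑' F : I → Λ, if ∀ i, ¬ P i → F i = x0 then Φ (fun j => F j.1) else 0) = ∑' G, Φ G := by
  let e : ({i // P i} → Λ) → (I → Λ) := fun G i => if h : P i then G ⟨i, h⟩ else x0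
  have he : Function.Injective e := by
    intro G G' h
    funext j
    have h1 := congrFun h j.1
    simp only [e, dif_pos j.2] at h1
    exact h1
  rw [← he.tsum_eq]
  · refine tsum_congr fun G => ?_
    rw [if_pos]
    · congr 1
      funext j
      simp only [e, dif_pos j.2]
    · intro i hi
      simp only [e, dif_neg hi]
  · intro F hF
    by_cases hc : ∀ i, ¬ P i → F i = x0
    · refine ⟨fun j => F j.1, ?_⟩
      funext i
      by_cases h : P i
      · simp only [e, dif_pos h]
      · simp only [e, dif_neg h]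
        exact (hc i h).symm
    · exact absurd (if_neg hc) hF

namespace FlipSum

section
variable {I : Type} {Λ : Type*} [Fintype I] [DecidableEq I] (ρ : Perm (I × Bool)) {k : ℕ}

/-- the edge `i` is reversed -/
def Rv (i : I) : Prop := ρ (i, true) = (i, false)

theorem rho_false (hflip : ∀ i b, ρ (i, !b) = ((ρ (i, b)).1, !(ρ (i, b)).2)) (i : I) :
    ρ (i, false) = ((ρ (i, true)).1, !(ρ (i, true)).2) := hflip i true

theorem rho_fst (hflip : ∀ i b, ρ (i, !b) = ((ρ (i, b)).1, !(ρ (i, b)).2)) (i : I) (b : Bool) :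
    (ρ (i, b)).1 = (ρ (i, true)).1 := by
  cases b
  · rw [rho_false ρ hflip]
  · rfl

theorem tau_inj (hflip : ∀ i b, ρ (i, !b) = ((ρ (i, b)).1, !(ρ (i, b)).2)) :
    Function.Injective (fun i => (ρ (i, true)).1) := by
  intro i j h
  simp only at h
  by_cases h2 : (ρ (i, true)).2 = (ρ (j, true)).2
  · have h3 : ρ (i, true) = ρ (j, true) := Prod.ext h h2
    exact congrArg Prod.fst (ρ.injective h3)
  · have h3 : ρ (i, true) = ρ (j, false) := by
      rw [rho_false ρ hflip]
      have key : ∀ a b : Bool, a ≠ b → a = !b := by decide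
      exact Prod.ext h (key _ _ h2)
    exact congrArg Prod.fst (ρ.injective h3)

/-- the permutation of the edges -/
noncomputable def tau (hflip : ∀ i b, ρ (i, !b) = ((ρ (i, b)).1, !(ρ (i, b)).2)) : Perm I :=
  Equiv.ofBijective _ (Finite.injective_iff_bijective.mp (tau_inj ρ hflip))

variable (hflip : ∀ i b, ρ (i, !b) = ((ρ (i, b)).1, !(ρ (i, b)).2))

theorem tau_apply (i : I) : tau ρ hflip i = (ρ (i, true)).1 := rfl

theorem rho_pow_fst (n : ℕ) (i : I) (b : Bool) :
    ((ρ ^ n) (i, b)).1 = ((tau ρ hflip) ^ n) i := by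
  induction n with
  | zero => rfl
  | succ n ih =>
    rw [pow_succ', Perm.mul_apply, pow_succ', Perm.mul_apply, ← ih, tau_apply]
    rw [← rho_fst ρ hflip ((ρ ^ n) (i, b)).1 ((ρ ^ n) (i, b)).2]

include hflip in
theorem rho_pow_not (n : ℕ) (i : I) (b : Bool) :
    (ρ ^ n) (i, !b) = (((ρ ^ n) (i, b)).1, !((ρ ^ n) (i, b)).2) := by
  induction n with
  | zero => rfl
  | succ n ih =>
    rw [pow_succ', Perm.mul_apply, Perm.mul_apply, ih, hflip]

variable (hpow : ∀ t, (ρ ^ k) t = t)
  (hfree : ∀ (t : I × Bool) (n : ℕ), 0 < n → n < k → (ρ ^ n) t ≠ t)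
  (hrev : ∀ (i : I) (b : Bool) (n : ℕ), 0 < n → n < k → (ρ ^ n) (i, b) = (i, !b) → k = 2)
  (hk : 2 ≤ k)

include hpow in
theorem pow_mod (n : ℕ) (t : I × Bool) : (ρ ^ (n % k)) t = (ρ ^ n) t := by
  have h1 : ρ ^ k = 1 := by
    ext1 t
    rw [hpow]
    rfl
  conv_rhs => rw [← Nat.div_add_mod n k, pow_add, pow_mul, h1, one_pow, one_mul]

include hpow hk in
theorem sc_iff (t t' : I × Bool) : ρ.SameCycle t t' ↔ ∃ n < k, (ρ ^ n) t = t' := by
  constructor
  · intro h
    obtain ⟨n, hn⟩ := h.exists_nat_pow_eq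
    exact ⟨n % k, Nat.mod_lt _ (by omega), by rw [pow_mod ρ hpow, hn]⟩
  · rintro ⟨n, -, hn⟩
    exact ⟨n, by rw [zpow_natCast, hn]⟩

include hpow hfree hrev hk hflip in
/-- a power which flips an edge -/
theorem rv_of_pow {i : I} {b : Bool} {n : ℕ} (hn : n < k) (h : (ρ ^ n) (i, b) = (i, !b)) :
    Rv ρ i := by
  have h0 : 0 < n := by
    rcases Nat.eq_zero_or_pos n with h1 | h1
    · subst h1
      have h2 := congrArg Prod.snd h
      simp at h2
    · exact h1
  have h2 : k = 2 := hrev i b n h0 hn h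
  have h3 : n = 1 := by omega
  subst h3
  rw [pow_one] at h
  unfold Rv
  cases b
  · have h4 := hflip i false
    rw [h] at h4
    exact h4
  · exact h

include hpow hfree hrev hk hflip in
theorem sc_not {i : I} {b : Bool} (hi : ¬ Rv ρ i) : ¬ ρ.SameCycle (i, b) (i, !b) := by
  intro h
  obtain ⟨n, hn, h1⟩ := (sc_iff ρ hpow hk _ _).1 h
  exact hi (rv_of_pow ρ hflip hpow hfree hrev hk hn h1)

theorem tau_rv {i : I} (hi : Rv ρ i) : tau ρ hflip i = i := by
  rw [tau_apply, hi]

theorem sc_tau_rv {i j : I} (hi : Rv ρ i) (h : (tau ρ hflip).SameCycle i j) : j = i := by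
  obtain ⟨n, hn⟩ := h
  rw [← hn]
  exact Perm.zpow_apply_eq_self_of_apply_eq_self (tau_rv ρ hflip hi) n

/-- the representative of the orbit of an edge -/
noncomputable def rep (i : I) : I :=
  Quotient.out (Quotient.mk (Perm.SameCycle.setoid (tau ρ hflip)) i)

theorem rep_sc (i : I) : (tau ρ hflip).SameCycle (rep ρ hflip i) i :=
  Quotient.exact (Quotient.out_eq (Quotient.mk (Perm.SameCycle.setoid (tau ρ hflip)) i))

theorem rep_eq {i j : I} (h : (tau ρ hflip).SameCycle i j) : rep ρ hflip i = rep ρ hflip j := by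
  unfold rep
  congr 1
  exact Quotient.sound h

theorem rep_rep (i : I) : rep ρ hflip (rep ρ hflip i) = rep ρ hflip i :=
  rep_eq ρ hflip (rep_sc ρ hflip i)

theorem rep_tau (i : I) : rep ρ hflip (ρ (i, true)).1 = rep ρ hflip i :=
  (rep_eq ρ hflip (⟨1, by rw [zpow_one, tau_apply]⟩ : (tau ρ hflip).SameCycle i (ρ (i, true)).1)).symm

theorem rep_rv {i : I} (hi : ¬ Rv ρ i) : ¬ Rv ρ (rep ρ hflip i) := by
  intro h
  have h1 := sc_tau_rv ρ hflip h (rep_sc ρ hflip i)
  rw [← h1] at h
  exact hi h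

include hflip in
theorem tau_not_rv {i : I} (hi : ¬ Rv ρ i) : ¬ Rv ρ (ρ (i, true)).1 := by
  intro h
  have h0 : (tau ρ hflip).SameCycle i (ρ (i, true)).1 := ⟨1, by rw [zpow_one, tau_apply]⟩
  have h1 : (tau ρ hflip).SameCycle (ρ (i, true)).1 i := h0.symm
  have h2 := sc_tau_rv ρ hflip h h1
  rw [← h2] at h
  exact hi h

/-- representatives -/
abbrev R : Type := {r : I // ¬ Rv ρ r ∧ rep ρ hflip r = r}

include hpow hk in
/-- exactly one of the two darts of `i` is in the orbit of the dart `true` of the representative -/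
theorem sc_or (i : I) : ρ.SameCycle (rep ρ hflip i, true) (i, true) ∨
    ρ.SameCycle (rep ρ hflip i, true) (i, false) := by
  obtain ⟨n, hn⟩ := (rep_sc ρ hflip i).exists_nat_pow_eq
  rw [← rho_pow_fst ρ hflip n _ true] at hn
  rcases h : ((ρ ^ n) (rep ρ hflip i, true)).2 with _ | _
  · exact Or.inr ⟨n, by rw [zpow_natCast]; exact Prod.ext hn h⟩
  · exact Or.inl ⟨n, by rw [zpow_natCast]; exact Prod.ext hn h⟩

include hpow hfree hrev hk in
theorem sc_xor {i : I} (hi : ¬ Rv ρ i) : ρ.SameCycle (rep ρ hflip i, true) (i, false) ↔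
    ¬ ρ.SameCycle (rep ρ hflip i, true) (i, true) := by
  constructor
  · intro h h'
    exact sc_not ρ hflip hpow hfree hrev hk (b := true) hi (h'.symm.trans h)
  · intro h
    exact (sc_or ρ hflip hpow hk i).resolve_left h

/-- the family with given values on the reversed edges and on the representatives -/
noncomputable def ext (fl : Λ → Λ) (uv : ({i // Rv ρ i} → Λ) × (R ρ hflip → Λ)) (i : I) : Λ :=
  if h : Rv ρ i then uv.1 ⟨i, h⟩
  else if ρ.SameCycle (rep ρ hflip i, true) (i, true) then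
    uv.2 ⟨rep ρ hflip i, rep_rv ρ hflip h, rep_rep ρ hflip i⟩
  else fl (uv.2 ⟨rep ρ hflip i, rep_rv ρ hflip h, rep_rep ρ hflip i⟩)

variable (fl : Λ → Λ)

theorem ext_rv (uv : ({i // Rv ρ i} → Λ) × (R ρ hflip → Λ)) (i : {i // Rv ρ i}) :
    ext ρ hflip fl uv i.1 = uv.1 i := by
  unfold ext
  rw [dif_pos i.2]

theorem ext_R (uv : ({i // Rv ρ i} → Λ) × (R ρ hflip → Λ)) (r : R ρ hflip) :
    ext ρ hflip fl uv r.1 = uv.2 r := by
  unfold ext
  have h1 : ρ.SameCycle (rep ρ hflip r.1, true) (r.1, true) := by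
    rw [r.2.2]
  rw [dif_neg r.2.1, if_pos h1]
  exact congrArg uv.2 (Subtype.ext r.2.2)

theorem ext_inj : Function.Injective (ext (Λ := Λ) ρ hflip fl) := by
  rintro ⟨u, v⟩ ⟨u', v'⟩ h
  refine Prod.ext ?_ ?_
  · funext i
    have h1 := congrFun h i.1
    rw [ext_rv, ext_rv] at h1
    exact h1
  · funext r
    have h1 := congrFun h r.1
    rw [ext_R, ext_R] at h1
    exact h1

/-- compatible families -/
def Cpt (F : I → Λ) : Prop := ∀ i, F (ρ (i, true)).1 = if (ρ (i, true)).2 then F i else fl (F i)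

variable (hfl : ∀ x, fl (fl x) = x)

include hpow hfree hrev hk hfl in
theorem cpt_ext (uv : ({i // Rv ρ i} → Λ) × (R ρ hflip → Λ)) :
    Cpt ρ fl (ext ρ hflip fl uv) ↔ ∀ i, fl (uv.1 i) = uv.1 i := by
  constructor
  · intro h i
    have h1 := h i.1
    have h2 : ρ (i.1, true) = (i.1, false) := i.2
    rw [h2] at h1
    simp only [Bool.false_eq_true, if_false] at h1
    rw [ext_rv] at h1
    exact h1.symm
  · intro h i
    by_cases hi : Rv ρ i
    · have h2 : ρ (i, true) = (i, false) := hi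
      rw [h2]
      simp only [Bool.false_eq_true, if_false]
      have h3 := ext_rv ρ hflip fl uv ⟨i, hi⟩
      simp only at h3
      rw [h3]
      exact (h ⟨i, hi⟩).symm
    · have hi' := tau_not_rv ρ hflip hi
      unfold ext
      rw [dif_neg hi', dif_neg hi]
      have hr := rep_tau ρ hflip i
      have hv : uv.2 ⟨rep ρ hflip (ρ (i, true)).1, rep_rv ρ hflip hi', rep_rep ρ hflip _⟩ =
          uv.2 ⟨rep ρ hflip i, rep_rv ρ hflip hi, rep_rep ρ hflip i⟩ := by
        exact congrArg uv.2 (Subtype.ext hr)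
      rw [hv]
      -- the dart condition
      have hsc : ρ.SameCycle (rep ρ hflip (ρ (i, true)).1, true) ((ρ (i, true)).1, true) ↔
          if (ρ (i, true)).2 then ρ.SameCycle (rep ρ hflip i, true) (i, true)
          else ¬ ρ.SameCycle (rep ρ hflip i, true) (i, true) := by
        rw [hr]
        rcases ho : (ρ (i, true)).2 with _ | _
        · simp only [Bool.false_eq_true, if_false]
          rw [← sc_xor ρ hflip hpow hfree hrev hk hi]
          have h3 : ρ (i, false) = ((ρ (i, true)).1, true) := by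
            rw [rho_false ρ hflip, ho]
            rfl
          rw [← h3]
          exact Perm.sameCycle_apply_right
        · simp only [if_true]
          have h3 : ((ρ (i, true)).1, true) = ρ (i, true) := Prod.ext rfl ho.symm
          rw [h3]
          exact Perm.sameCycle_apply_right
      rcases ho : (ρ (i, true)).2 with _ | _
      · rw [ho] at hsc
        simp only [Bool.false_eq_true, if_false] at hsc ⊢
        by_cases h4 : ρ.SameCycle (rep ρ hflip i, true) (i, true)
        · rw [if_neg fun h5 => (hsc.1 h5) h4, if_pos h4]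
        · rw [if_pos (hsc.2 h4), if_neg h4, hfl]
      · rw [ho] at hsc
        simp only [if_true] at hsc ⊢
        by_cases h4 : ρ.SameCycle (rep ρ hflip i, true) (i, true)
        · rw [if_pos (hsc.2 h4), if_pos h4]
        · rw [if_neg fun h5 => h4 (hsc.1 h5), if_neg h4]

/-- the value of a family at a dart -/
def atD (F : I → Λ) (t : I × Bool) : Λ := if t.2 then F t.1 else fl (F t.1)

include hfl hflip in
theorem atD_rho {F : I → Λ} (hF : Cpt ρ fl F) (t : I × Bool) :
    atD fl F (ρ t) = atD fl F t := by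
  have key : ∀ i, atD fl F (ρ (i, true)) = F i := by
    intro i
    have h1 := hF i
    unfold atD
    rw [h1]
    rcases (ρ (i, true)).2 with _ | _
    · simp only [Bool.false_eq_true, if_false]
      exact hfl _
    · simp
  have hnot : ∀ (i : I) (b : Bool), atD fl F (i, !b) = fl (atD fl F (i, b)) := by
    intro i b
    unfold atD
    cases b
    · simp [hfl]
    · simp
  rcases t with ⟨i, _ | _⟩
  · rw [rho_false ρ hflip, hnot]
    have h1 : atD fl F ((ρ (i, true)).1, (ρ (i, true)).2) = F i := key i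
    rw [h1]
    rfl
  · rw [key]
    rfl

include hfl hflip in
theorem atD_sc {F : I → Λ} (hF : Cpt ρ fl F) {t t' : I × Bool} (h : ρ.SameCycle t t') :
    atD fl F t = atD fl F t' := by
  obtain ⟨n, hn⟩ := h.exists_nat_pow_eq
  have h1 : ∀ n : ℕ, atD fl F ((ρ ^ n) t) = atD fl F t := by
    intro n
    induction n with
    | zero => rfl
    | succ n ih =>
      rw [pow_succ', Perm.mul_apply, atD_rho ρ hflip fl hfl hF, ih]
  rw [← hn, h1]

include hpow hfree hrev hk hfl in
theorem mem_range {F : I → Λ} (hF : Cpt ρ fl F) : F ∈ Set.range (ext (Λ := Λ) ρ hflip fl) := by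
  refine ⟨(fun i => F i.1, fun r => F r.1), ?_⟩
  funext i
  unfold ext
  by_cases hi : Rv ρ i
  · rw [dif_pos hi]
  · rw [dif_neg hi]
    by_cases h4 : ρ.SameCycle (rep ρ hflip i, true) (i, true)
    · rw [if_pos h4]
      exact atD_sc ρ hflip fl hfl hF h4
    · rw [if_neg h4]
      have h5 := (sc_xor ρ hflip hpow hfree hrev hk hi).2 h4
      have h6 := atD_sc ρ hflip fl hfl hF h5
      have h7 : F (rep ρ hflip i) = fl (F i) := h6
      show fl (F (rep ρ hflip i)) = F i
      rw [h7, hfl]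

include hpow hfree hrev hk in
/-- the orbits of the edges which are not reversed have `k` elements -/
theorem fiber_card (r : R ρ hflip) :
    (univ.filter fun i : {i // ¬ Rv ρ i} => rep ρ hflip i.1 = r.1).card = k := by
  have h1 : ∀ n : ℕ, ¬ Rv ρ ((tau ρ hflip ^ n) r.1) := by
    intro n hn
    have h2 : (tau ρ hflip).SameCycle r.1 ((tau ρ hflip ^ n) r.1) := ⟨n, by rw [zpow_natCast]⟩
    have h3 := sc_tau_rv ρ hflip hn h2.symm
    rw [← h3] at hn
    exact r.2.1 hn
  have h2 : (univ.filter fun i : {i // ¬ Rv ρ i} => rep ρ hflip i.1 = r.1) =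
      (Finset.range k).image fun n => (⟨(tau ρ hflip ^ n) r.1, h1 n⟩ : {i // ¬ Rv ρ i}) := by
    ext i
    simp only [Finset.mem_filter, Finset.mem_univ, true_and, Finset.mem_image, Finset.mem_range]
    constructor
    · intro h
      have h3 := rep_sc ρ hflip i.1
      rw [h] at h3
      obtain ⟨n, hn⟩ := h3.exists_nat_pow_eq
      refine ⟨n % k, Nat.mod_lt _ (by omega), Subtype.ext ?_⟩
      show (tau ρ hflip ^ (n % k)) r.1 = i.1
      rw [← rho_pow_fst ρ hflip _ _ true, pow_mod ρ hpow, rho_pow_fst ρ hflip, hn]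
    · rintro ⟨n, -, rfl⟩
      have h3 : (tau ρ hflip).SameCycle r.1 ((tau ρ hflip ^ n) r.1) :=
        ⟨n, by rw [zpow_natCast]⟩
      show rep ρ hflip ((tau ρ hflip ^ n) r.1) = r.1
      rw [← rep_eq ρ hflip h3, r.2.2]
  rw [h2, Finset.card_image_of_injOn, Finset.card_range]
  -- injectivity
  have key : ∀ n m : ℕ, n < m → m < k → (tau ρ hflip ^ n) r.1 ≠ (tau ρ hflip ^ m) r.1 := by
    intro n m hnm hm h
    rw [← rho_pow_fst ρ hflip n r.1 true, ← rho_pow_fst ρ hflip m r.1 true] at h
    have h4 : (ρ ^ m) (r.1, true) = (ρ ^ (m - n)) ((ρ ^ n) (r.1, true)) := by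
      rw [← Perm.mul_apply, ← pow_add]
      congr 2
      omega
    set t := (ρ ^ n) (r.1, true) with ht
    have h5 : ((ρ ^ (m - n)) t).1 = t.1 := by rw [← h4]; exact h.symm
    by_cases h6 : ((ρ ^ (m - n)) t).2 = t.2
    · exact hfree t (m - n) (by omega) (by omega) (Prod.ext h5 h6)
    · have h7 : (ρ ^ (m - n)) (t.1, t.2) = (t.1, !t.2) := by
        refine Prod.ext h5 ?_
        show ((ρ ^ (m - n)) t).2 = !t.2
        cases h8 : ((ρ ^ (m - n)) t).2 <;> cases h9 : t.2 <;> simp_all
      have h8 := rv_of_pow ρ hflip hpow hfree hrev hk (by omega) h7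
      rw [ht, rho_pow_fst ρ hflip] at h8
      exact h1 n h8
  intro n hn m hm h
  simp only [Finset.coe_range, Set.mem_Iio] at hn hm
  have h3 := congrArg Subtype.val h
  simp only at h3
  rcases lt_trichotomy n m with h4 | h4 | h4
  · exact absurd h3 (key n m h4 hm)
  · exact h4
  · exact absurd h3.symm (key m n h4 hn)

include hpow hfree hrev hk in
theorem prod_fib (f : R ρ hflip → ℝ≥0∞) :
    ∏ i : {i // ¬ Rv ρ i}, f ⟨rep ρ hflip i.1, rep_rv ρ hflip i.2, rep_rep ρ hflip i.1⟩ =
      ∏ r, f r ^ k := by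
  rw [← Finset.prod_fiberwise (s := univ) (g := fun i : {i // ¬ Rv ρ i} =>
    (⟨rep ρ hflip i.1, rep_rv ρ hflip i.2, rep_rep ρ hflip i.1⟩ : R ρ hflip))]
  refine Finset.prod_congr rfl fun r _ => ?_
  have h1 : ∀ i ∈ univ.filter (fun i : {i // ¬ Rv ρ i} =>
      (⟨rep ρ hflip i.1, rep_rv ρ hflip i.2, rep_rep ρ hflip i.1⟩ : R ρ hflip) = r),
      f ⟨rep ρ hflip i.1, rep_rv ρ hflip i.2, rep_rep ρ hflip i.1⟩ = f r := by
    intro i hi
    rw [(Finset.mem_filter.1 hi).2]
  rw [Finset.prod_congr rfl h1, Finset.prod_const]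
  congr 1
  rw [← fiber_card ρ hflip hpow hfree hrev hk r]
  congr 1
  ext i
  simp only [Finset.mem_filter, Finset.mem_univ, true_and]
  exact ⟨fun h => congrArg Subtype.val h, fun h => Subtype.ext h⟩

include hpow hfree hrev hk in
theorem card_R : Fintype.card (R ρ hflip) = (univ.filter fun i => ¬ Rv ρ i).card / k := by
  have h1 : (univ.filter fun i => ¬ Rv ρ i).card = Fintype.card (R ρ hflip) * k := by
    have h2 : (univ.filter fun i => ¬ Rv ρ i).card = Fintype.card {i // ¬ Rv ρ i} := by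
      rw [Fintype.card_subtype]
    rw [h2, ← Finset.card_univ, Finset.card_eq_sum_card_fiberwise (t := univ)
      (f := fun i : {i // ¬ Rv ρ i} =>
        (⟨rep ρ hflip i.1, rep_rv ρ hflip i.2, rep_rep ρ hflip i.1⟩ : R ρ hflip))
      (fun _ _ => Finset.mem_coe.2 (Finset.mem_univ _))]
    rw [Finset.sum_congr rfl (g := fun _ => k), Finset.sum_const, Finset.card_univ, smul_eq_mul]
    intro r _
    rw [← fiber_card ρ hflip hpow hfree hrev hk r]
    congr 1
    ext i
    simp only [Finset.mem_filter, Finset.mem_univ, true_and]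
    exact ⟨fun h => congrArg Subtype.val h, fun h => Subtype.ext h⟩
  rw [h1, Nat.mul_div_cancel _ (by omega)]

end

end FlipSum

open FlipSum in
/-- `I` is a set of edges with darts `I × Bool`, `ρ` a rotation of order `k` acting freely on the darts, `fl` an involution on the set of labels.  A family
`F : I → Λ` is compatible if `F` at the image of the edge `i` is `F i`, flipped if the orientation changes.

Proof.  Let `τ i = (ρ (i, true)).1`.  Call `i` reversed if `ρ (i, true) = (i, false)`; then `k = 2` (`hrev`).  The number of reversed edges is independent of the rest: a compatible family satisfies `fl (F i) = F i` for reversed `i`.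
If `i` is not reversed: `τ ^ n i ≠ i` for `0 < n < k`: otherwise `(ρ ^ n) (i, true)` is `(i, true)` (against `hfree`) or `(i, false)`, and then `k = 2` by `hrev`, `n = 1`, `i` is reversed.  So the orbits of `τ`
on the set `J` of the nonreversed edges have exactly `k` elements, and the darts `(i, true)`, `(i, false)` are in different orbits of `ρ`.  Choose a set `R` of
representatives of these orbits (`|R| = |J| / k`).  A compatible family is determined by its values on `R` and on the reversed edges; every function on `R` extends uniquely: for `i ∈ R` and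
`(j, b) = (ρ ^ n) (i, true)`, `0 ≤ n < k`, put `F j = F i` if `b`, `fl (F i)` otherwise; this is compatible.  The product over the orbit of `i ∈ R` is `g (F i) ^ k` (`hg`).  So the sum is
`∑_{F : R ∪ Rev → Λ}` of a product: the sum over all functions of a product is the product of the sums (`tsum_pi` in PGs/Orb, there is also the case `k = 2`, `orb_prod`). -/
theorem flip_sum {I : Type} {Λ : Type*} [Fintype I] [DecidableEq I] (ρ : Perm (I × Bool)) {k : ℕ}
    (hk : 2 ≤ k) (hflip : ∀ i b, ρ (i, !b) = ((ρ (i, b)).1, !(ρ (i, b)).2))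
    (hpow : ∀ t, (ρ ^ k) t = t) (hfree : ∀ (t : I × Bool) (n : ℕ), 0 < n → n < k → (ρ ^ n) t ≠ t)
    (hrev : ∀ (i : I) (b : Bool) (n : ℕ), 0 < n → n < k → (ρ ^ n) (i, b) = (i, !b) → k = 2)
    (fl : Λ → Λ) (hfl : ∀ x, fl (fl x) = x) (g : Λ → ℝ≥0∞) (hg : ∀ x, g (fl x) = g x)
    (μ : Λ → ℝ≥0∞) :
    (∑' F : I → Λ,
      if ∀ i, F (ρ (i, true)).1 = if (ρ (i, true)).2 then F i else fl (F i) then
        ∏ i, (if ρ (i, true) = (i, false) then μ (F i) else g (F i)) else 0) =
      (∑' x, g x ^ k) ^ ((univ.filter fun i => ρ (i, true) ≠ (i, false)).card / k) *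
        (∑' x, if fl x = x then μ x else 0) ^
          (univ.filter fun i => ρ (i, true) = (i, false)).card := by
  have hsupp : Function.support (fun F : I → Λ =>
      if ∀ i, F (ρ (i, true)).1 = if (ρ (i, true)).2 then F i else fl (F i) then
        ∏ i, (if ρ (i, true) = (i, false) then μ (F i) else g (F i)) else (0 : ℝ≥0∞)) ⊆
      Set.range (FlipSum.ext (Λ := Λ) ρ hflip fl) := by
    intro F hF
    by_cases hc : ∀ i, F (ρ (i, true)).1 = if (ρ (i, true)).2 then F i else fl (F i)
    · exact mem_range ρ hflip hpow hfree hrev hk fl hfl hc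
    · exact absurd (if_neg hc) hF
  rw [← (ext_inj ρ hflip fl).tsum_eq hsupp]
  have hterm : ∀ uv : ({i // Rv ρ i} → Λ) × (R ρ hflip → Λ),
      (if ∀ i, FlipSum.ext ρ hflip fl uv (ρ (i, true)).1 =
          if (ρ (i, true)).2 then FlipSum.ext ρ hflip fl uv i else fl (FlipSum.ext ρ hflip fl uv i)
        then ∏ i, (if ρ (i, true) = (i, false) then μ (FlipSum.ext ρ hflip fl uv i)
          else g (FlipSum.ext ρ hflip fl uv i)) else (0 : ℝ≥0∞)) =
      (∏ i : {i // Rv ρ i}, if fl (uv.1 i) = uv.1 i then μ (uv.1 i) else 0) *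
        ∏ r, g (uv.2 r) ^ k := by
    intro uv
    have hc : (∀ i, FlipSum.ext ρ hflip fl uv (ρ (i, true)).1 =
        if (ρ (i, true)).2 then FlipSum.ext ρ hflip fl uv i
        else fl (FlipSum.ext ρ hflip fl uv i)) ↔ ∀ i, fl (uv.1 i) = uv.1 i :=
      cpt_ext ρ hflip hpow hfree hrev hk fl hfl uv
    rw [Finset.prod_ite_zero]
    simp only [Finset.mem_univ, true_implies]
    by_cases h1 : ∀ i, fl (uv.1 i) = uv.1 i
    · rw [if_pos (hc.2 h1), if_pos h1]
      rw [← Fintype.prod_subtype_mul_prod_subtype (fun i => Rv ρ i)]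
      congr 1
      · refine Finset.prod_congr rfl fun i _ => ?_
        have h2 : ρ (i.1, true) = (i.1, false) := i.2
        rw [if_pos h2, ext_rv]
      · rw [← prod_fib ρ hflip hpow hfree hrev hk (fun r => g (uv.2 r))]
        refine Finset.prod_congr rfl fun i _ => ?_
        have h2 : ρ (i.1, true) ≠ (i.1, false) := i.2
        rw [if_neg h2]
        unfold FlipSum.ext
        rw [dif_neg i.2]
        split_ifs
        · rfl
        · rw [hg]
    · rw [if_neg fun h => h1 (hc.1 h), if_neg h1, zero_mul]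
  rw [tsum_congr hterm, ENNReal.tsum_prod']
  simp only [ENNReal.tsum_mul_left, ENNReal.tsum_mul_right]
  have h1 : ∑' v : R ρ hflip → Λ, ∏ r, g (v r) ^ k =
      (∑' x, g x ^ k) ^ ((univ.filter fun i => ρ (i, true) ≠ (i, false)).card / k) := by
    rw [← prod_tsum (fun (_ : R ρ hflip) (x : Λ) => g x ^ k), Finset.prod_const, Finset.card_univ,
      card_R ρ hflip hpow hfree hrev hk]
    congr 3
    ext i
    simp only [Finset.mem_filter, Finset.mem_univ, true_and, Rv, ne_eq]
  have h2 : ∑' u : {i // Rv ρ i} → Λ, ∏ i, (if fl (u i) = u i then μ (u i) else 0) =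
      (∑' x, if fl x = x then μ x else 0) ^
        (univ.filter fun i => ρ (i, true) = (i, false)).card := by
    rw [← prod_tsum (fun (_ : {i // Rv ρ i}) (x : Λ) => if fl x = x then μ x else 0),
      Finset.prod_const, Finset.card_univ, Fintype.card_subtype]
    congr 2
    ext i
    simp only [Finset.mem_filter, Finset.mem_univ, true_and, Rv]
  rw [h1, h2, mul_comm]

end PGr

end
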