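import Pool.Agent.PGm.M06
import Pool.Agent.PGm.M22

section
/-! # Module PairSum: the sum over the maps with bisected root corner as a sum over pairs of nets -/

set_option linter.unusedSectionVars false

namespace PGr
open Equiv Finset
open scoped ENNReal Classical

variable (w : Wt)

namespace PairSum

section
variable {T T' : Type} [Fintype T] [DecidableEq T] [Fintype T'] [DecidableEq T']
  {a s : Perm T} {a' s' : Perm T'}

/-- conjugation -/
def cj (f : T ≃ T') (e : Perm T) : Perm T' := (f.symm.trans e).trans f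

theorem cj_app (f : T ≃ T') (e : Perm T) (t : T) : cj f e (f t) = f (e t) := by
  simp [cj]

theorem cj_eq (f : T ≃ T') {e : Perm T} {e' : Perm T'} (h : ∀ t, f (e t) = e' (f t)) :
    cj f e = e' := by
  ext t'
  obtain ⟨t, rfl⟩ := f.surjective t'
  rw [cj_app, h]

theorem cj_cj (f : T ≃ T') (e : Perm T) : cj f.symm (cj f e) = e := by
  apply cj_eq
  intro t'
  obtain ⟨t, rfl⟩ := f.surjective t'
  rw [cj_app, Equiv.symm_apply_apply, Equiv.symm_apply_apply]

theorem ite_iff {p q : Prop} [Decidable p] [Decidable q] (h : p ↔ q) {x y : ℝ≥0∞} (hxy : x = y) :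
    (if p then x else 0) = if q then y else 0 := by
  by_cases hp : p
  · rw [if_pos hp, if_pos (h.1 hp), hxy]
  · rw [if_neg hp, if_neg (fun hq => hp (h.2 hq))]

theorem filt (f : T ≃ T') (p : T → Prop) [DecidablePred p] (p' : T' → Prop) [DecidablePred p']
    (h : ∀ t, p' (f t) ↔ p t) : (univ.filter p').card = (univ.filter p).card := by
  symm
  refine Finset.card_bij (fun t _ => f t) ?_ ?_ ?_
  · intro t ht
    rw [mem_filter] at ht ⊢
    exact ⟨mem_univ _, (h t).2 ht.2⟩
  · intro t _ t' _ h5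
    exact f.injective h5
  · intro t' ht'
    obtain ⟨t, rfl⟩ := f.surjective t'
    rw [mem_filter] at ht'
    exact ⟨t, by rw [mem_filter]; exact ⟨mem_univ _, (h t).1 ht'.2⟩, rfl⟩

theorem VT_cj (f : T ≃ T') (h1 : ∀ t, f (a t) = a' (f t)) (h2 : ∀ t, f (s t) = s' (f t))
    (e : Perm T) : VT w a' s' (cj f e) = VT w a s e := by
  have e2 : nV s' = nV s := (nV_iso f h2).symm
  have e3 : cAx (cj f e) = cAx e := by
    unfold cAx
    refine filt f _ _ ?_
    intro t
    rw [cj_app]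
    exact f.injective.eq_iff
  have e4 : cCr a' (cj f e) = cCr a e := by
    unfold cCr
    refine filt f _ _ ?_
    intro t
    rw [cj_app, ← h1]
    exact f.injective.eq_iff
  have e6 : cBis s' (cj f e) = cBis s e := by
    unfold cBis
    refine filt f _ _ ?_
    intro t
    rw [cj_app, ← h2]
    exact f.injective.eq_iff
  have e5 : Fintype.card T' = Fintype.card T := (Fintype.card_congr f).symm
  unfold VT
  rw [e2, e3, e4, e5, e6]

theorem inv1 (f : T ≃ T') (h1 : ∀ t, f (a t) = a' (f t)) : ∀ t, f.symm (a' t) = a (f.symm t) := by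
  intro t'
  obtain ⟨t, rfl⟩ := f.surjective t'
  rw [← h1, Equiv.symm_apply_apply, Equiv.symm_apply_apply]

theorem Refl_cj (f : T ≃ T') (h1 : ∀ t, f (a t) = a' (f t)) (h2 : ∀ t, f (s t) = s' (f t))
    (e : Perm T) : Refl a' s' (cj f e) ↔ Refl a s e := by
  constructor
  · intro h
    have h3 := Refl_iso f.symm (inv1 f h1) (inv1 f h2) h
    have h4 : (f.symm.symm.trans (cj f e)).trans f.symm = e := cj_cj f e
    rwa [h4] at h3
  · intro h
    exact Refl_iso f h1 h2 h

theorem root_cj (f : T ≃ T') (h2 : ∀ t, f (s t) = s' (f t)) (e : Perm T) (r : T) :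
    cj f e (f r) = s' (f r) ↔ e r = s r := by
  rw [cj_app, ← h2]
  exact f.injective.eq_iff

theorem MRed_cj (f : T ≃ T') (h1 : ∀ t, f (a t) = a' (f t)) (h2 : ∀ t, f (s t) = s' (f t))
    (e : Perm T) (r : T) : MRed a' s' (cj f e) (f r) ↔ MRed a s e r := by
  constructor
  · intro h
    have h3 := MRed_iso f.symm (inv1 f h1) (inv1 f h2) h
    have h4 : (f.symm.symm.trans (cj f e)).trans f.symm = e := cj_cj f e
    rwa [h4, Equiv.symm_apply_apply] at h3
  · intro h
    exact MRed_iso f h1 h2 h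

theorem GQ_cj (f : T ≃ T') (h1 : ∀ t, f (a t) = a' (f t)) (h2 : ∀ t, f (s t) = s' (f t))
    {e : Perm T} {e' : Perm T'} (h3 : ∀ t, f (e t) = e' (f t)) {r : T} {Q : Finset T}
    (h : GQ a s e r Q) : GQ a' s' e' (f r) (Q.map f.toEmbedding) := by
  refine ⟨Cl_iso f h1 h.cl, ?_, ?_, ?_⟩
  · rw [cut_iso f h2, h.cut4]
  · exact Finset.mem_map_of_mem _ h.mem
  · intro t' ht' ht2
    obtain ⟨t, ht, rfl⟩ := Finset.mem_map.1 ht'
    have h4 : e' (f.toEmbedding t) = f (e t) := (h3 t).symm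
    rw [h4] at ht2
    obtain ⟨u, hu, hu2⟩ := Finset.mem_map.1 ht2
    have h5 : u = e t := f.injective hu2
    rw [h5] at hu
    exact h.dis t ht hu

theorem MaxQ_cj (f : T ≃ T') (h1 : ∀ t, f (a t) = a' (f t)) (h2 : ∀ t, f (s t) = s' (f t))
    {e : Perm T} {e' : Perm T'} (h3 : ∀ t, f (e t) = e' (f t)) {r : T} {Q : Finset T}
    (h : MaxQ a s e r Q) : MaxQ a' s' e' (f r) (Q.map f.toEmbedding) := by
  refine ⟨GQ_cj f h1 h2 h3 h.1, ?_⟩
  intro Q' hQ' t' ht'
  have h4 := GQ_cj f.symm (inv1 f h1) (inv1 f h2) (inv1 f h3) hQ'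
  rw [Equiv.symm_apply_apply] at h4
  have h5 := h.2 _ h4
  obtain ⟨t, rfl⟩ := f.surjective t'
  refine Finset.mem_map_of_mem _ (h5 ?_)
  rw [Finset.mem_map_equiv, Equiv.symm_symm]
  exact ht'

theorem MaxQ_unique {e : Perm T} {r : T} {P Q : Finset T} (hP : MaxQ a s e r P)
    (hQ : MaxQ a s e r Q) : P = Q :=
  Finset.Subset.antisymm (hQ.2 _ hP.1) (hP.2 _ hQ.1)

/-- the sum over the reflections -/
noncomputable def FF (w : Wt) (a s : Perm T) (r : T) : ℝ≥0∞ :=
  ∑ e : Perm T, if Refl a s e ∧ e r = s r ∧ MRed a s e r then VT w a s e else 0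

theorem FF_iso (f : T ≃ T') (h1 : ∀ t, f (a t) = a' (f t)) (h2 : ∀ t, f (s t) = s' (f t)) (r : T) :
    FF w a' s' (f r) = FF w a s r := by
  unfold FF
  symm
  refine Finset.sum_bij (fun e _ => cj f e) (fun _ _ => mem_univ _) ?_ ?_ ?_
  · intro e _ e' _ h
    rw [← cj_cj f e, ← cj_cj f e', h]
  · intro e' _
    refine ⟨cj f.symm e', mem_univ _, ?_⟩
    have := cj_cj f.symm e'
    rwa [Equiv.symm_symm] at this
  · intro e _
    exact ite_iff (and_congr (Refl_cj f h1 h2 e).symm (and_congr (root_cj f h2 e r).symm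
      (MRed_cj f h1 h2 e r).symm)) (VT_cj w f h1 h2 e).symm

theorem root_unique (h : Good a s) {e e' : Perm T} {r : T} (he : Refl a s e) (he' : Refl a s e')
    (hr : e r = s r) (hr' : e' r = s r) : e = e' :=
  refl_unique (ty := Ltr.G) h he he' hr hr'

theorem FF_eq (h : Good a s) {e : Perm T} {r : T} (he : Refl a s e) (hr : e r = s r)
    (hm : MRed a s e r) : FF w a s r = VT w a s e := by
  unfold FF
  rw [Finset.sum_eq_single e]
  · rw [if_pos ⟨he, hr, hm⟩]
  · intro e' _ hne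
    rw [if_neg]
    rintro ⟨h1, h2, -⟩
    exact hne (root_unique h h1 he h2 hr)
  · intro h1
    exact absurd (mem_univ _) h1

end

/-- both contributions together -/
noncomputable def gp (w : Wt) (K N : GB) : ℝ≥0∞ :=
  ∑ e : Perm (K.1.D ⊕ N.1.D), if GP K N e then VT w (twoA K N) (twoS K N) e else 0

theorem gp_eq (K N : GB) : gpA w K N + gpB w K N = gp w K N := by
  unfold gpA gpB gp
  rw [← Finset.sum_add_distrib]
  refine Finset.sum_congr rfl fun e _ => ?_
  by_cases h1 : GP K N e <;> by_cases h2 : ∀ t ∈ prK K N, e t ∈ prN K N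
  · rw [if_pos ⟨h1, h2⟩, if_neg (fun h => h.2 h2), if_pos h1, add_zero]
  · rw [if_neg (fun h => h2 h.2), if_pos ⟨h1, h2⟩, if_pos h1, zero_add]
  · rw [if_neg (fun h => h1 h.1), if_neg (fun h => h1 h.1), if_neg h1, add_zero]
  · rw [if_neg (fun h => h1 h.1), if_neg (fun h => h1 h.1), if_neg h1, add_zero]

theorem gp_ne {K N : GB} (h : gp w K N ≠ 0) : ∃ e, GP K N e := by
  by_contra h1
  push Not at h1
  apply h
  unfold gp
  refine Finset.sum_eq_zero fun e _ => ?_
  rw [if_neg (h1 e)]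

theorem gp_val {K N : GB} {e : Perm (K.1.D ⊕ N.1.D)} (h : GP K N e) :
    gp w K N = VT w (twoA K N) (twoS K N) e := by
  unfold gp
  rw [Finset.sum_eq_single e]
  · rw [if_pos h]
  · intro e' _ hne
    rw [if_neg]
    intro h1
    exact hne (root_unique (two_good K N) h1.refl h.refl h1.root h.root)
  · intro h1
    exact absurd (mem_univ _) h1

theorem mem_prK {K N : GB} (t : K.1.D ⊕ N.1.D) : t ∈ prK K N ↔ ∃ d, t = Sum.inl d := by
  unfold prK
  rw [Finset.mem_map]
  constructor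
  · rintro ⟨d, -, rfl⟩
    exact ⟨d, rfl⟩
  · rintro ⟨d, rfl⟩
    exact ⟨d, mem_univ _, rfl⟩

theorem mem_prN {K N : GB} (t : K.1.D ⊕ N.1.D) : t ∈ prN K N ↔ ∃ d, t = Sum.inr d := by
  unfold prN
  rw [Finset.mem_map]
  constructor
  · rintro ⟨d, -, rfl⟩
    exact ⟨d, rfl⟩
  · rintro ⟨d, rfl⟩
    exact ⟨d, mem_univ _, rfl⟩

theorem prK_iff {K N : GB} (t : K.1.D ⊕ N.1.D) : t ∈ prK K N ↔ t ∉ prN K N := by
  rw [mem_prK, mem_prN]
  rcases t with d | d <;> simp

/-- an isomorphism without twist, on the nonroot darts -/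
theorem net0 {M M' : GB} (h : BIso M.1 M'.1) : ∃ f : M.1.D ≃ M'.1.D,
    (∀ d, f (M.1.a d) = M'.1.a (f d)) ∧
    (∀ d d', M.1.s (Sum.inl d) = Sum.inl d' → M'.1.s (Sum.inl (f d)) = Sum.inl (f d')) ∧
    (∀ d b, M.1.s (Sum.inl d) = Sum.inr b → M'.1.s (Sum.inl (f d)) = Sum.inr b) ∧
    (∀ b, f (fstD M b) = fstD M' b) ∧ ∀ b, f (CompInj.lstD M b) = CompInj.lstD M' b := by
  obtain ⟨φ, hφ⟩ := BIso_iff.1 h
  have hinl : ∀ d, ∃ d', φ (Sum.inl d) = Sum.inl d' := hφ.inl
  choose g hg using hinl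
  have hgi : Function.Injective g := by
    intro d d' hd
    have h1 : φ (Sum.inl d) = φ (Sum.inl d') := by rw [hg, hg, hd]
    exact Sum.inl_injective (φ.injective h1)
  have hgs : Function.Surjective g := by
    intro d'
    obtain ⟨d, hd⟩ := hφ.symm.inl d'
    refine ⟨d, ?_⟩
    have h1 : φ (Sum.inl d) = Sum.inl d' := by rw [← hd, Equiv.apply_symm_apply]
    rw [hg] at h1
    exact Sum.inl_injective h1
  have hroot : ∀ b, φ (Sum.inr b) = Sum.inr b := fun b => by
    rw [hφ.root, Bool.false_xor]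
  have hin : ∀ d d', M.1.s (Sum.inl d) = Sum.inl d' → M'.1.s (Sum.inl (g d)) = Sum.inl (g d') := by
    intro d d' hd
    have h1 := hφ.rot (Sum.inl d)
    rw [hd, hg, hg, twS_false] at h1
    exact h1.symm
  have hout : ∀ d b, M.1.s (Sum.inl d) = Sum.inr b → M'.1.s (Sum.inl (g d)) = Sum.inr b := by
    intro d b hd
    have h1 := hφ.rot (Sum.inl d)
    rw [hd, hg, hroot, twS_false] at h1
    exact h1.symm
  refine ⟨Equiv.ofBijective g ⟨hgi, hgs⟩, ?_, hin, hout, ?_, ?_⟩
  · intro d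
    have h1 := hφ.aa (Sum.inl d)
    have h2 : M.1.aa (Sum.inl d) = Sum.inl (M.1.a d) := rfl
    rw [h2, hg, hg] at h1
    exact Sum.inl_injective h1
  · intro b
    have h1 := hφ.rot (Sum.inr b)
    rw [fstD_spec, hg, hroot, twS_false, fstD_spec] at h1
    exact Sum.inl_injective h1
  · intro b
    exact CompInj.eq_lstD (hout _ _ (CompInj.lstD_spec M b))

end PairSum

open PairSum

/-- isomorphisms of the nets give an isomorphism of the unions; transport `e` -/
theorem two_iso {K K' N N' : GB} (hK : BIso K.1 K'.1) (hN : BIso N.1 N'.1) :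
    ∃ Θ : (K.1.D ⊕ N.1.D) ≃ (K'.1.D ⊕ N'.1.D), (∀ t, Θ (twoA K N t) = twoA K' N' (Θ t)) ∧
      (∀ t, Θ (twoS K N t) = twoS K' N' (Θ t)) ∧ Θ (twoR K N) = twoR K' N' ∧
      (∀ t, Θ t ∈ prN K' N' ↔ t ∈ prN K N) ∧ ∀ t, Θ t ∈ prK K' N' ↔ t ∈ prK K N := by
  obtain ⟨f, hfa, hfi, hfo, hff, hfl⟩ := net0 hK
  obtain ⟨g, hga, hgi, hgo, hgf, hgl⟩ := net0 hN
  refine ⟨Equiv.sumCongr f g, ?_, ?_, ?_, ?_, ?_⟩
  · rintro (d | d)
    · exact congrArg Sum.inl (hfa d)
    · exact congrArg Sum.inr (hga d)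
  · rintro (d | d)
    · rw [twoS_apply, twoS_apply]
      rcases h : K.1.s (Sum.inl d) with d' | b
      · rw [twoFun_ll h]
        exact (twoFun_ll (hfi _ _ h)).symm
      · rw [twoFun_lr h]
        refine Eq.trans ?_ (twoFun_lr (hfo _ _ h)).symm
        exact congrArg Sum.inr (hgf b)
    · rw [twoS_apply, twoS_apply]
      rcases h : N.1.s (Sum.inl d) with d' | b
      · rw [twoFun_rr h]
        exact (twoFun_rr (hgi _ _ h)).symm
      · rw [twoFun_rl h]
        refine Eq.trans ?_ (twoFun_rl (hgo _ _ h)).symm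
        exact congrArg Sum.inl (hff b)
  · exact congrArg Sum.inr (hgl true)
  · intro t
    rw [mem_prN, mem_prN]
    rcases t with d | d <;> simp
  · intro t
    rw [mem_prK, mem_prK]
    rcases t with d | d <;> simp

namespace PairSum

theorem GP_cj {K K' N N' : GB} {Θ : (K.1.D ⊕ N.1.D) ≃ (K'.1.D ⊕ N'.1.D)}
    (h1 : ∀ t, Θ (twoA K N t) = twoA K' N' (Θ t)) (h2 : ∀ t, Θ (twoS K N t) = twoS K' N' (Θ t))
    (h3 : Θ (twoR K N) = twoR K' N') (h4 : ∀ t, Θ t ∈ prN K' N' ↔ t ∈ prN K N)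
    {e : Perm (K.1.D ⊕ N.1.D)} (h : GP K N e) : GP K' N' (cj Θ e) := by
  refine ⟨(Refl_cj Θ h1 h2 e).2 h.refl, ?_, ?_, ?_⟩
  · rw [← h3]
    exact (root_cj Θ h2 e _).2 h.root
  · rw [← h3]
    exact (MRed_cj Θ h1 h2 e _).2 h.red
  · rw [← h3]
    have h5 := MaxQ_cj Θ h1 h2 (fun t => (cj_app Θ e t).symm) h.max
    have h6 : (prN K N).map Θ.toEmbedding = prN K' N' := by
      ext t'
      obtain ⟨t, rfl⟩ := Θ.surjective t'
      rw [h4, Finset.mem_map_equiv, Equiv.symm_apply_apply]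
    rwa [h6] at h5

theorem GP_cj_iff {K K' N N' : GB} {Θ : (K.1.D ⊕ N.1.D) ≃ (K'.1.D ⊕ N'.1.D)}
    (h1 : ∀ t, Θ (twoA K N t) = twoA K' N' (Θ t)) (h2 : ∀ t, Θ (twoS K N t) = twoS K' N' (Θ t))
    (h3 : Θ (twoR K N) = twoR K' N') (h4 : ∀ t, Θ t ∈ prN K' N' ↔ t ∈ prN K N)
    (e : Perm (K.1.D ⊕ N.1.D)) : GP K' N' (cj Θ e) ↔ GP K N e := by
  constructor
  · intro h
    have h5 := GP_cj (Θ := Θ.symm) (inv1 Θ h1) (inv1 Θ h2)
      (by rw [← h3, Equiv.symm_apply_apply]) (fun t => by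
        rw [← h4, Equiv.apply_symm_apply]) h
    rwa [cj_cj] at h5
  · intro h
    exact GP_cj h1 h2 h3 h4 h

theorem sub_cj {K K' N N' : GB} {Θ : (K.1.D ⊕ N.1.D) ≃ (K'.1.D ⊕ N'.1.D)}
    (h4 : ∀ t, Θ t ∈ prN K' N' ↔ t ∈ prN K N) (h5 : ∀ t, Θ t ∈ prK K' N' ↔ t ∈ prK K N)
    (e : Perm (K.1.D ⊕ N.1.D)) : (∀ t ∈ prK K' N', cj Θ e t ∈ prN K' N') ↔
      ∀ t ∈ prK K N, e t ∈ prN K N := by
  constructor
  · intro h t ht
    have h6 := h (Θ t) ((h5 t).2 ht)
    rwa [cj_app, h4] at h6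
  · intro h t' ht'
    obtain ⟨t, rfl⟩ := Θ.surjective t'
    rw [cj_app, h4]
    exact h t ((h5 t).1 ht')

theorem sum_cj {T T' : Type} [Fintype T] [DecidableEq T] [Fintype T'] [DecidableEq T'] (f : T ≃ T')
    (F : Perm T → ℝ≥0∞) (F' : Perm T' → ℝ≥0∞) (h : ∀ e, F e = F' (cj f e)) :
    ∑ e : Perm T, F e = ∑ e : Perm T', F' e := by
  refine Finset.sum_bij (fun e _ => cj f e) (fun _ _ => mem_univ _) ?_ ?_ ?_
  · intro e _ e' _ h
    rw [← cj_cj f e, ← cj_cj f e', h]
  · intro e' _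
    refine ⟨cj f.symm e', mem_univ _, ?_⟩
    have := cj_cj f.symm e'
    rwa [Equiv.symm_symm] at this
  · intro e _
    exact h e

end PairSum

theorem gpA_iso {K K' N N' : GB} (hK : BIso K.1 K'.1) (hN : BIso N.1 N'.1) :
    gpA w K N = gpA w K' N' := by
  obtain ⟨Θ, h1, h2, h3, h4, h5⟩ := two_iso hK hN
  unfold gpA
  refine sum_cj Θ _ _ fun e => ?_
  exact ite_iff (and_congr (GP_cj_iff h1 h2 h3 h4 e).symm (sub_cj h4 h5 e).symm)
    (VT_cj w Θ h1 h2 e).symm
theorem gpB_iso {K K' N N' : GB} (hK : BIso K.1 K'.1) (hN : BIso N.1 N'.1) :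
    gpB w K N = gpB w K' N' := by
  obtain ⟨Θ, h1, h2, h3, h4, h5⟩ := two_iso hK hN
  unfold gpB
  refine sum_cj Θ _ _ fun e => ?_
  exact ite_iff (and_congr (GP_cj_iff h1 h2 h3 h4 e).symm (not_congr (sub_cj h4 h5 e)).symm)
    (VT_cj w Θ h1 h2 e).symm

namespace PairSum

/-- the class of the union -/
noncomputable def tcl (K N : GB) : GC := gcl (twoA K N) (twoS K N) (twoR K N) (two_good K N)

theorem tcl_inj {K N K' N' : GB} {e : Perm (K.1.D ⊕ N.1.D)} {e' : Perm (K'.1.D ⊕ N'.1.D)}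
    (h : GP K N e) (h' : GP K' N' e') (hh : tcl K N = tcl K' N') :
    BIso K.1 K'.1 ∧ BIso N.1 N'.1 := by
  obtain ⟨f, h1, h2, h3⟩ := (gcl_eq_iff (two_good K N) (two_good K' N')).1 hh
  have h4 : cj f e = e' := by
    refine root_unique (two_good K' N') ((Refl_cj f h1 h2 e).2 h.refl) h'.refl ?_ h'.root
    rw [← h3]
    exact (root_cj f h2 e _).2 h.root
  have h5 := MaxQ_cj f h1 h2 (fun t => (cj_app f e t).symm) h.max
  rw [h4, h3] at h5
  have h6 : (prN K N).map f.toEmbedding = prN K' N' := MaxQ_unique h5 h'.max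
  have h7 : ∀ t, t ∈ prN K N ↔ f t ∈ prN K' N' := by
    intro t
    rw [← h6, Finset.mem_map_equiv, Equiv.symm_apply_apply]
  have h8 : ∀ t, t ∈ prK K N ↔ f t ∈ prK K' N' := by
    intro t
    rw [prK_iff, prK_iff, h7]
  constructor
  · obtain ⟨c, φ, hφ, hd⟩ := chart_iso (m := false) (chart_l K N) (chart_l K' N') f h1
      (fun t => h2 t) (fun t => by rw [← mem_prK, ← mem_prK]; exact h8 t)
    have h9 : f (twoS K N (twoR K N)) = twoS K' N' (twoR K' N') := by rw [h2, h3]
    rw [twoR_s, twoR_s] at h9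
    have h10 := hφ.rot (Sum.inr true)
    rw [fstD_spec, hφ.root, twS_false, fstD_spec] at h10
    have h11 := hd _ _ h10
    rw [h9] at h11
    have h12 := fst_inj (Sum.inl_injective h11)
    have h13 : c = false := by
      revert h12
      cases c <;> decide
    rw [h13] at hφ
    exact BIso_iff.2 ⟨φ, hφ⟩
  · obtain ⟨c, φ, hφ, hd⟩ := chart_iso (m := false) (chart_r K N) (chart_r K' N') f h1
      (fun t => h2 t) (fun t => by rw [← mem_prN, ← mem_prN]; exact h7 t)
    obtain ⟨d', h10⟩ := hφ.inl (CompInj.lstD N true)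
    have h11 := hφ.rot (Sum.inl (CompInj.lstD N true))
    rw [CompInj.lstD_spec, hφ.root, twS_false, h10] at h11
    have h12 : d' = CompInj.lstD N' (xor c true) := CompInj.eq_lstD h11.symm
    have h13 := hd _ _ h10
    have h14 : f (Sum.inr (CompInj.lstD N true)) = Sum.inr (CompInj.lstD N' true) := h3
    rw [h14, h12] at h13
    have h15 := congrArg (fun d => N'.1.s (Sum.inl d)) (Sum.inr_injective h13)
    simp only [CompInj.lstD_spec] at h15
    have h16 : c = false := by
      have h17 := Sum.inr_injective h15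
      revert h17
      cases c <;> decide
    rw [h16] at hφ
    exact BIso_iff.2 ⟨φ, hφ⟩

theorem FF_tcl (K N : GB) : FF w (tcl K N).rep.1.aa (tcl K N).rep.1.s (Sum.inr true) =
    FF w (twoA K N) (twoS K N) (twoR K N) := by
  obtain ⟨f, h1, h2, h3⟩ := gcl_iso (twoA K N) (twoS K N) (twoR K N) (two_good K N)
  have h4 := FF_iso w f h1 h2 (twoR K N)
  rw [h3] at h4
  exact h4

theorem exists_pair {x : GC} (hx : FF w x.rep.1.aa x.rep.1.s (Sum.inr true) ≠ 0) :
    ∃ K N : GC, (∃ e, GP K.rep N.rep e) ∧ tcl K.rep N.rep = x := by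
  have hex : ∃ e : Perm x.rep.1.T, Refl x.rep.1.aa x.rep.1.s e ∧
      e (Sum.inr true) = x.rep.1.s (Sum.inr true) ∧ MRed x.rep.1.aa x.rep.1.s e (Sum.inr true) := by
    by_contra h1
    push Not at h1
    apply hx
    unfold FF
    refine Finset.sum_eq_zero fun e _ => ?_
    rw [if_neg]
    rintro ⟨h2, h3, h4⟩
    exact h1 e h2 h3 h4
  obtain ⟨e, he, hr, hm⟩ := hex
  have hg : Good x.rep.1.aa x.rep.1.s := x.rep.2
  obtain ⟨P, hP⟩ := exists_max hg he hr
  have hr' : x.rep.1.s (Sum.inr true) ∉ P := by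
    rw [← hr]
    exact hP.1.dis _ hP.1.mem
  obtain ⟨K, N, Θ, k1, k2, k3, k4⟩ := exists_two hg hP.1.cl hP.1.cut4 hP.1.mem hr'
  obtain ⟨Λ, l1, l2, l3, l4, l5⟩ := two_iso (ESum.rep_iso K) (ESum.rep_iso N)
  let f := Λ.trans Θ
  have f1 : ∀ t, f (twoA (ESum.cl K).rep (ESum.cl N).rep t) = x.rep.1.aa (f t) := by
    intro t
    show Θ (Λ _) = _
    rw [l1, k1]
    rfl
  have f2 : ∀ t, f (twoS (ESum.cl K).rep (ESum.cl N).rep t) = x.rep.1.s (f t) := by
    intro t
    show Θ (Λ _) = _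
    rw [l2, k2]
    rfl
  have f3 : f (twoR (ESum.cl K).rep (ESum.cl N).rep) = Sum.inr true := by
    show Θ (Λ _) = _
    rw [l3, k3]
  have f4 : ∀ t, f t ∈ P ↔ t ∈ prN (ESum.cl K).rep (ESum.cl N).rep := by
    intro t
    show Θ (Λ t) ∈ P ↔ _
    rw [k4, l4]
  refine ⟨ESum.cl K, ESum.cl N, ⟨cj f.symm e, ?_⟩, ?_⟩
  · have g1 := inv1 f f1
    have g2 := inv1 f f2
    have g3 : f.symm (Sum.inr true) = twoR (ESum.cl K).rep (ESum.cl N).rep := by
      rw [← f3, Equiv.symm_apply_apply]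
    refine ⟨(Refl_cj f.symm g1 g2 e).2 he, ?_, ?_, ?_⟩
    · rw [← g3]
      exact (root_cj f.symm g2 e _).2 hr
    · rw [← g3]
      exact (MRed_cj f.symm g1 g2 e _).2 hm
    · rw [← g3]
      have h5 := MaxQ_cj f.symm g1 g2 (fun t => (cj_app f.symm e t).symm) hP
      have h6 : P.map f.symm.toEmbedding = prN (ESum.cl K).rep (ESum.cl N).rep := by
        ext t
        rw [Finset.mem_map_equiv, Equiv.symm_symm]
        exact f4 t
      rwa [h6] at h5
  · conv_rhs => rw [← gcl_rep x]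
    exact (gcl_eq_iff _ _).2 ⟨f, f1, f2, f3⟩

end PairSum

/-- Proof.  The reflection with `e r = s r` is unique (`refl_unique` of `DualR`, or `iso_unique`).  For a pair `(K, N)` such that `twoS K N` has a reflection `e` with `GP K N e` let `g (K, N)` be the
class of `(twoA, twoS, twoR)` (`gcl`, `two_good`).  It has a reflection as in `SG` with the same weight (`gcl_iso`, transport: `Refl_iso`, ...).  `g` is injective: an isomorphism of `twoS K N`, `twoS K' N'` preserving
the roots transports `e` to `e'` and the largest sets `prN` (`MaxQ` is unique), so `chart_iso` with `m = false` for both parts gives isomorphisms of the nets up to reversal; the root dart is the last dart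
of `N` at `true`, so there is no reversal of `N`; the first dart of `K` at `true` follows it, so no reversal of `K`.  `g` is surjective: `exists_max`, `exists_two` (`s r = e r ∉ P`). -/
theorem pair_sum : SG w = ∑' K : GC, ∑' N : GC, (gpA w K.rep N.rep + gpB w K.rep N.rep) := by
  have h1 : SG w = ∑' x : GC, FF w x.rep.1.aa x.rep.1.s (Sum.inr true) := rfl
  have h2 : ∑' K : GC, ∑' N : GC, (gpA w K.rep N.rep + gpB w K.rep N.rep) =
      ∑' p : GC × GC, gp w p.1.rep p.2.rep := by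
    rw [ENNReal.tsum_prod (f := fun K N : GC => gp w K.rep N.rep)]
    refine tsum_congr fun K => tsum_congr fun N => ?_
    exact gp_eq w K.rep N.rep
  rw [h1, h2]
  refine tsum_eq_tsum_of_ne_zero_bij (fun p => tcl p.1.1.rep p.1.2.rep) ?_ ?_ ?_
  · rintro ⟨⟨K, N⟩, hp⟩ ⟨⟨K', N'⟩, hp'⟩ hh
    obtain ⟨e, he⟩ := gp_ne w (Function.mem_support.1 hp)
    obtain ⟨e', he'⟩ := gp_ne w (Function.mem_support.1 hp')
    obtain ⟨h3, h4⟩ := tcl_inj he he' hh
    have h5 : K = K' := ESum.eq_of_iso h3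
    have h6 : N = N' := ESum.eq_of_iso h4
    subst h5
    subst h6
    rfl
  · intro x hx
    obtain ⟨K, N, ⟨e, he⟩, hc⟩ := exists_pair w (Function.mem_support.1 hx)
    refine ⟨⟨(K, N), ?_⟩, hc⟩
    rw [Function.mem_support]
    show gp w K.rep N.rep ≠ 0
    have h3 := Function.mem_support.1 hx
    rw [← hc, FF_tcl, FF_eq w (two_good _ _) he.refl he.root he.red, ← gp_val w he] at h3
    exact h3
  · rintro ⟨⟨K, N⟩, hp⟩
    obtain ⟨e, he⟩ := gp_ne w (Function.mem_support.1 hp)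
    show FF w (tcl K.rep N.rep).rep.1.aa _ _ = gp w K.rep N.rep
    rw [FF_tcl, FF_eq w (two_good _ _) he.refl he.root he.red, gp_val w he]

end PGr

end

section
/-! # Module GpRig: the first net is a composite with rigid core -/

set_option linter.unusedSectionVars false

namespace PGr
open Equiv Finset
open scoped ENNReal Classical

variable {C : Core} {hC : C.toB.IsGood} {Y : C.I → GB} {N : GB}

namespace GpRig
open UAn

/-- the darts of a part -/
noncomputable def PT (Y : C.I → GB) (N : GB) (o : Option C.I) :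
    Finset ((comp C Y).D ⊕ N.1.D) := upO Y N o univ

theorem mem_PT {o : Option C.I} {t : (comp C Y).D ⊕ N.1.D} :
    t ∈ PT Y N o ↔ ∃ d, t = dO Y N o d := by
  constructor
  · intro h
    obtain ⟨d, -, hd⟩ := UAx_part h
    exact ⟨d, hd⟩
  · rintro ⟨d, rfl⟩
    exact UAx_mem.2 (mem_univ _)

theorem dO_mem (o : Option C.I) (d : (netO Y N o).1.D) : dO Y N o d ∈ PT Y N o :=
  mem_PT.2 ⟨d, rfl⟩

theorem PT_eq {o o' : Option C.I} {t : (comp C Y).D ⊕ N.1.D} (h : t ∈ PT Y N o)
    (h' : t ∈ PT Y N o') : o = o' := by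
  obtain ⟨d, rfl⟩ := mem_PT.1 h
  obtain ⟨d', hd'⟩ := mem_PT.1 h'
  exact (dO_inj hd').1

theorem exists_PT (t : (comp C Y).D ⊕ N.1.D) : ∃ o, t ∈ PT Y N o := by
  obtain ⟨o, d, rfl⟩ := dO_cases t
  exact ⟨o, dO_mem o d⟩

theorem PT_ne (o : Option C.I) : (PT Y N o).Nonempty :=
  ⟨_, dO_mem o (fstD (netO Y N o) true)⟩

theorem good : Good (AA hC Y N) (SS hC Y N) := two_good (cG C hC Y) N

theorem cl_univ (M : BMap) : Cl M.aa (dn (univ : Finset M.D)) := by
  intro t
  rcases t with d | b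
  · have h4 : M.aa (Sum.inl d) = Sum.inl (M.a d) := rfl
    rw [h4, AxPart_mem_dn, AxPart_mem_dn]
    exact iff_of_true (mem_univ _) (mem_univ _)
  · exact ⟨fun h4 => absurd h4 AxPart_dn_inr, fun h4 => absurd h4 AxPart_dn_inr⟩

theorem PT_cl (o : Option C.I) : Cl (AA hC Y N) (PT Y N o) :=
  (upO_cl (hC := hC) o univ).2 (cl_univ _)

theorem PT_cut (o : Option C.I) : cut (SS hC Y N) (PT Y N o) = 4 :=
  upO_univ (hC := hC) (Y := Y) (N := N) o

theorem prN_eq : prN (cG C hC Y) N = PT Y N none := by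
  ext t
  refine (PairSum.mem_prN t).trans (Iff.trans ?_ mem_PT.symm)
  exact Iff.rfl

theorem mem_prK' {t : (comp C Y).D ⊕ N.1.D} : t ∈ prK (cG C hC Y) N ↔ t ∉ PT Y N none := by
  rw [← prN_eq (hC := hC)]
  exact PairSum.prK_iff (K := cG C hC Y) (N := N) t

theorem four (hR : Rigid C.toB) {A : Finset ((comp C Y).D ⊕ N.1.D)} (hA : Cl (AA hC Y N) A)
    (h4 : cut (SS hC Y N) A = 4) (hN : ∀ t ∈ A, t ∉ PT Y N none) :
    (∃ i : C.I, A ⊆ PT Y N (some i)) ∨ ∀ t, t ∉ PT Y N none → t ∈ A := by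
  let B : Finset (comp C Y).D := univ.filter (fun d => (Sum.inl d : (comp C Y).D ⊕ N.1.D) ∈ A)
  have hB : ∀ d, d ∈ B ↔ (Sum.inl d : (comp C Y).D ⊕ N.1.D) ∈ A := by
    intro d
    simp [B]
  have hAB : A = B.map ⟨(Sum.inl : (comp C Y).D → (comp C Y).D ⊕ N.1.D), Sum.inl_injective⟩ := by
    ext t
    rw [mem_map]
    constructor
    · intro ht
      rcases t with d | d
      · exact ⟨d, (hB d).2 ht, rfl⟩
      · exact absurd (dO_mem (Y := Y) (N := N) none d) (hN _ ht)
    · rintro ⟨d, hd, rfl⟩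
      exact (hB d).1 hd
  have hcut : cut (comp C Y).s (dn B) = 4 := by
    have h1 : cut (SS hC Y N) (B.map ⟨(Sum.inl : (comp C Y).D → (comp C Y).D ⊕ N.1.D),
        Sum.inl_injective⟩) = cut (comp C Y).s (dn B) := chart_cut (chart_l (cG C hC Y) N) B
    rw [← h1, ← hAB, h4]
  have hcl : Cl (comp C Y).aa (dn B) := by
    refine (chart_cl (chart_l (cG C hC Y) N) B).1 ?_
    have h1 : Cl (AA hC Y N) (B.map ⟨(Sum.inl : (comp C Y).D → (comp C Y).D ⊕ N.1.D),
        Sum.inl_injective⟩) := by rw [← hAB]; exact hA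
    exact h1
  have hne : (dn B : Finset (comp C Y).T).Nonempty := by
    rw [nonempty_iff_ne_empty]
    intro h1
    rw [h1] at hcut
    unfold cut bd at hcut
    simp at hcut
  rcases comp_four (C := C) (N := Y) hC hR hcl AxPart_dn_inr hne hcut with ⟨i, hi⟩ | hu
  · left
    refine ⟨i, fun t ht => ?_⟩
    rcases t with d | d
    · have h1 := hi (AxPart_mem_dn.2 ((hB d).2 ht))
      rw [CompFour.mem_partSet] at h1
      obtain ⟨j, d'⟩ := d
      have h2 : some j = some i := h1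
      have h3 := Option.some.inj h2
      subst h3
      exact dO_mem (Y := Y) (N := N) (some j) d'
    · exact absurd (dO_mem (Y := Y) (N := N) none d) (hN _ ht)
  · right
    intro t ht
    rcases t with d | d
    · rw [← hB]
      have h1 : (Sum.inl d : (comp C Y).T) ∈ dn B ∪ (comp C Y).root := by
        rw [hu]
        exact mem_univ _
      rw [mem_union] at h1
      rcases h1 with h1 | h1
      · exact AxPart_mem_dn.1 h1
      · obtain ⟨b, hb⟩ := CompFour.mem_root.1 h1
        have h2 : (Sum.inl d : (comp C Y).D ⊕ Bool) = Sum.inr b := hb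
        simp at h2
    · exact absurd (dO_mem (Y := Y) (N := N) none d) ht

/-- there is an edge different from two given ones -/
theorem third (hR : Rigid C.toB) (i j : C.I) : ∃ k, k ≠ i ∧ k ≠ j := by
  have h3 := CompFour.card_I C hR
  by_contra h
  push Not at h
  have h1 : (univ : Finset C.I) ⊆ {i, j} := by
    intro k _
    rw [mem_insert, mem_singleton]
    by_cases hk : k = i
    · exact Or.inl hk
    · exact Or.inr (h k hk)
  have h2 := card_le_card h1
  have h4 : ({i, j} : Finset C.I).card ≤ 2 := card_le_two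
  rw [card_univ] at h2
  omega

theorem mem_mapE {T : Type} [Fintype T] [DecidableEq T] {a s e : Perm T} (he : Refl a s e)
    {A : Finset T} {t : T} : t ∈ A.map e.toEmbedding ↔ e t ∈ A := by
  rw [mem_map_equiv]
  have h1 : e.symm t = e t := by
    rw [Equiv.symm_apply_eq, he.ee]
  rw [h1]

/-- typed form of the conditions -/
structure GP' (hC : C.toB.IsGood) (Y : C.I → GB) (N : GB) (e : Perm ((comp C Y).D ⊕ N.1.D)) :
    Prop where
  refl : Refl (AA hC Y N) (SS hC Y N) e
  root : e (lo Y N (Sum.inr true)) = SS hC Y N (lo Y N (Sum.inr true))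
  red : MRed (AA hC Y N) (SS hC Y N) e (lo Y N (Sum.inr true))
  max : MaxQ (AA hC Y N) (SS hC Y N) e (lo Y N (Sum.inr true)) (PT Y N none)

theorem GP_iff {e : Perm ((comp C Y).D ⊕ N.1.D)} : GP (cG C hC Y) N e ↔ GP' hC Y N e := by
  constructor
  · intro h
    refine ⟨h.refl, h.root, h.red, ?_⟩
    have h1 := h.max
    have h2 : prN (cG C hC Y) N = PT Y N none := prN_eq
    exact h2 ▸ h1
  · intro h
    refine ⟨h.refl, h.root, h.red, ?_⟩
    have h2 : prN (cG C hC Y) N = PT Y N none := prN_eq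
    have h1 : MaxQ (AA hC Y N) (SS hC Y N) e (lo Y N (Sum.inr true)) (prN (cG C hC Y) N) := by
      rw [h2]
      exact h.max
    exact h1

end GpRig

open GpRig UAn

/-- Proof.  Let `i₀` be the edge of `C.s (inr true)` (not the root edge), so `s r` is in the part `i₀`.  `E = e (prN)` is inside the part of `K` and not all of it, closed, cut 4; by `comp_four` (transport the cut to `comp`: `chart_l`, `chart_cut`) it is
inside a part, which is `i₀` as `s r = e r ∈ E`; `max_alt` with `R` = the part `i₀`: `R ⊆ E` (the other alternative puts the other parts into `prN`; there are at least 3 parts, `card_I`).  So `E` is the part `i₀`.  For `i ≠ i₀` the image of the part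
`i` is closed, has cut 4, is disjoint from `prN` and from `E`, so by `comp_four` it is inside a part.  So `e` permutes the parts. -/
theorem rig_parts (hR : Rigid C.toB) {e : Perm ((comp C Y).D ⊕ N.1.D)}
    (h : GP (cG C hC Y) N e) (hn : ¬ (∀ t ∈ prK (cG C hC Y) N, e t ∈ prN (cG C hC Y) N)) :
    ∀ o : Option C.I, ∃ o' : Option C.I, ∀ d, ∃ d', e (dO Y N o d) = dO Y N o' d' := by
  have hg : GP' hC Y N e := GP_iff.1 h
  have he := hg.refl
  have hn' : ¬ ∀ t, t ∉ PT Y N none → e t ∈ PT Y N none := by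
    intro h1
    apply hn
    intro t ht
    have h2 := h1 t (mem_prK'.1 ht)
    have h3 : prN (cG C hC Y) N = PT Y N none := prN_eq
    exact h3 ▸ h2
  have hPP : ∀ t ∈ PT Y N none, e t ∉ PT Y N none := hg.max.1.dis
  have hEE : ∀ t, t ∈ (PT Y N none).map e.toEmbedding ↔ e t ∈ PT Y N none := fun t => mem_mapE he
  have hrP : lo Y N (Sum.inr true) ∈ PT Y N none := hg.max.1.mem
  have hEcl : Cl (AA hC Y N) ((PT Y N none).map e.toEmbedding) := refl_cl he (PT_cl none)
  have hEcut : cut (SS hC Y N) ((PT Y N none).map e.toEmbedding) = 4 := by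
    rw [refl_cut he, PT_cut]
  have hi : ∃ i : C.I, (PT Y N none).map e.toEmbedding ⊆ PT Y N (some i) := by
    rcases four hR hEcl hEcut (fun t ht h1 => hPP t h1 ((hEE t).1 ht)) with h1 | h1
    · exact h1
    · exfalso
      apply hn'
      intro t ht
      exact (hEE t).1 (h1 t ht)
  obtain ⟨i, hi⟩ := hi
  have hsr : SS hC Y N (lo Y N (Sum.inr true)) ∈ PT Y N (some i) := by
    apply hi
    rw [hEE, ← hg.root, he.ee]
    exact hrP
  have hr1 : lo Y N (Sum.inr true) ∉ PT Y N (some i) := by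
    intro h1
    have := PT_eq hrP h1
    simp at this
  have hRE : ∀ t ∈ PT Y N (some i), e t ∈ PT Y N none := by
    rcases max_alt good he hg.root hg.max (PT_cl (hC := hC) (some i)) (PT_cut (some i)) hr1 hsr with
      h1 | h1
    · exact h1
    · exfalso
      obtain ⟨k, hk, -⟩ := third hR i i
      obtain ⟨t, ht⟩ := PT_ne (Y := Y) (N := N) (some k)
      have h2 : t ∉ PT Y N (some i) := by
        intro h3
        exact hk (Option.some.inj (PT_eq ht h3))
      have h3 := PT_eq ht (h1 t h2)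
      simp at h3
  intro o
  rcases o with _ | j
  · refine ⟨some i, fun d => ?_⟩
    have h1 : e (dO Y N none d) ∈ PT Y N (some i) := by
      apply hi
      rw [hEE, he.ee]
      exact dO_mem none d
    exact mem_PT.1 h1
  · by_cases hj : j = i
    · subst hj
      refine ⟨none, fun d => ?_⟩
      exact mem_PT.1 (hRE _ (dO_mem (some j) d))
    · have hFF : ∀ t, t ∈ (PT Y N (some j)).map e.toEmbedding ↔ e t ∈ PT Y N (some j) :=
        fun t => mem_mapE he
      have hFcl : Cl (AA hC Y N) ((PT Y N (some j)).map e.toEmbedding) :=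
        refl_cl he (PT_cl (some j))
      have hFcut : cut (SS hC Y N) ((PT Y N (some j)).map e.toEmbedding) = 4 := by
        rw [refl_cut he, PT_cut]
      rcases four hR hFcl hFcut (fun t ht h1 => by
        have h2 : e t ∈ PT Y N (some i) := by
          apply hi
          rw [hEE, he.ee]
          exact h1
        exact hj (Option.some.inj (PT_eq ((hFF t).1 ht) h2))) with ⟨k, hk⟩ | h1
      · refine ⟨some k, fun d => ?_⟩
        have h1 : e (dO Y N (some j) d) ∈ PT Y N (some k) := by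
          apply hk
          rw [hFF, he.ee]
          exact dO_mem (some j) d
        exact mem_PT.1 h1
      · exfalso
        obtain ⟨t, ht⟩ := PT_ne (Y := Y) (N := N) (some i)
        have h2 : t ∉ PT Y N none := by
          intro h3
          have := PT_eq ht h3
          simp at this
        have h3 := (hFF t).1 (h1 t h2)
        have h4 := PT_eq h3 (hRE t ht)
        simp at h4

namespace GpRig

/-- the map of the edges induced by a reflection -/
theorem parts {ψ : Perm C.toB.T} {e : Perm ((comp C Y).D ⊕ N.1.D)} (h : UTw C hC Y N ψ e)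
    (o : Option C.I) : ∃ o', (∃ b', ψ (cdt o true) = cdt o' b') ∧
      ∀ t, t ∈ PT Y N o ↔ e t ∈ PT Y N o' := by
  obtain ⟨o', b', ho⟩ := cdt_cases (ψ (cdt o true))
  have hee : ∀ t, e (e t) = t := h.refl.ee
  have key : ∀ (o o' : Option C.I) (b b' : Bool), ψ (cdt o b) = cdt o' b' →
      ∀ t, t ∈ PT Y N o → e t ∈ PT Y N o' := by
    intro o o' b b' ho t ht
    obtain ⟨d, rfl⟩ := mem_PT.1 ht
    obtain ⟨φ, hφ, hd⟩ := h.nets o b o' b' ho
    obtain ⟨d', hd'⟩ := hφ.inl d
    rw [hd d d' hd']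
    exact dO_mem _ _
  refine ⟨o', ⟨b', ho⟩, fun t => ⟨key o o' true b' ho t, fun ht => ?_⟩⟩
  have h1 : ψ (cdt o' b') = cdt o true := by
    rw [← ho, h.core.ee]
  have h2 := key o' o b' true h1 _ ht
  rwa [hee] at h2

/-- the root edge of the core is mapped to another edge -/
theorem root_some {ψ : Perm C.toB.T} (hC : C.toB.IsGood)
    (hr : ψ (Sum.inr true) = C.s (Sum.inr true)) : ∃ i b, ψ (cdt none true) = cdt (some i) b := by
  have h1 : C.s (Sum.inr true) = Sum.inl (fstD (⟨C.toB, hC⟩ : GB) true) :=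
    fstD_spec (⟨C.toB, hC⟩ : GB) true
  let x : C.I × Bool := fstD (⟨C.toB, hC⟩ : GB) true
  exact ⟨x.1, x.2, hr.trans h1⟩

/-- `e` maps the darts of `PT none` into the part of the edge of `ψ (inr true)` -/
theorem parts_root {ψ : Perm C.toB.T} {e : Perm ((comp C Y).D ⊕ N.1.D)} (h : UTw C hC Y N ψ e)
    (hr : ψ (Sum.inr true) = C.s (Sum.inr true)) :
    ∃ i : C.I, ∀ t, t ∈ PT Y N none ↔ e t ∈ PT Y N (some i) := by
  obtain ⟨o', ⟨b', ho⟩, h1⟩ := parts h none
  obtain ⟨i, b, hi⟩ := root_some hC hr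
  have h2 : (cdt o' b' : C.toB.T) = cdt (some i) b := ho.symm.trans hi
  obtain ⟨h3, -⟩ := cdt_inj h2
  subst h3
  exact ⟨i, h1⟩

theorem root_eq {ψ : Perm C.toB.T} {e : Perm ((comp C Y).D ⊕ N.1.D)} (h : UTw C hC Y N ψ e)
    (hr : ψ (Sum.inr true) = C.s (Sum.inr true)) :
    e (lo Y N (Sum.inr true)) = SS hC Y N (lo Y N (Sum.inr true)) := h.root_iff.2 hr

theorem r_mem : lo Y N (Sum.inr true) ∈ PT Y N none := dO_mem none (CompInj.lstD N true)

theorem gq_none {ψ : Perm C.toB.T} {e : Perm ((comp C Y).D ⊕ N.1.D)} (h : UTw C hC Y N ψ e)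
    (hr : ψ (Sum.inr true) = C.s (Sum.inr true)) :
    GQ (AA hC Y N) (SS hC Y N) e (lo Y N (Sum.inr true)) (PT Y N none) := by
  refine ⟨PT_cl none, PT_cut none, r_mem, ?_⟩
  intro t ht ht2
  obtain ⟨i, hi⟩ := parts_root h hr
  have h1 := PT_eq ht2 ((hi t).1 ht)
  simp at h1

theorem rig_max' (hR : Rigid C.toB) {ψ : Perm C.toB.T} {e : Perm ((comp C Y).D ⊕ N.1.D)}
    (h : UTw C hC Y N ψ e) (hr : ψ (Sum.inr true) = C.s (Sum.inr true)) :
    MaxQ (AA hC Y N) (SS hC Y N) e (lo Y N (Sum.inr true)) (PT Y N none) := by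
  refine ⟨gq_none h hr, fun Q hQ => ?_⟩
  have he : Refl (AA hC Y N) (SS hC Y N) e := h.refl
  have hRR := GQ.union good he (root_eq h hr) hQ (gq_none h hr)
  obtain ⟨i, hi⟩ := parts_root h hr
  have hcl : Cl (AA hC Y N) (Q ∪ PT Y N none)ᶜ := hRR.cl.compl
  have hcut : cut (SS hC Y N) (Q ∪ PT Y N none)ᶜ = 4 := by rw [cut_compl, hRR.cut4]
  rcases four hR hcl hcut (fun t ht h1 => by
    rw [mem_compl] at ht
    exact ht (mem_union_right _ h1)) with ⟨k, hk⟩ | h1
  · exfalso
    -- the part `i` is in the complement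
    have h2 : ∀ t ∈ PT Y N (some i), t ∈ (Q ∪ PT Y N none)ᶜ := by
      intro t ht
      rw [mem_compl]
      intro h3
      have h4 : e t ∈ PT Y N none := (hi (e t)).2 (by rw [he.ee]; exact ht)
      exact hRR.dis t h3 (mem_union_right _ h4)
    obtain ⟨t0, ht0⟩ := PT_ne (Y := Y) (N := N) (some i)
    have hki : k = i := Option.some.inj (PT_eq (hk (h2 t0 ht0)) ht0)
    subst hki
    obtain ⟨j, hj, -⟩ := third hR k k
    obtain ⟨t, ht⟩ := PT_ne (Y := Y) (N := N) (some j)
    have hout : ∀ t, t ∉ PT Y N (some k) → t ∈ Q ∪ PT Y N none := by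
      intro t h3
      by_contra h4
      exact h3 (hk (mem_compl.2 h4))
    have h3 : t ∈ Q ∪ PT Y N none := hout t (fun h4 => hj (Option.some.inj (PT_eq ht h4)))
    have h4 : e t ∈ Q ∪ PT Y N none := by
      apply hout
      intro h5
      have h6 : t ∈ PT Y N none := (hi t).2 h5
      have h7 := PT_eq ht h6
      simp at h7
    exact hRR.dis t h3 h4
  · intro t ht
    by_contra h2
    have h3 := h1 t h2
    rw [mem_compl] at h3
    exact h3 (mem_union_left _ ht)

end GpRig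

/-- Let `Q` be a set `GQ`, `R = Q ∪ prN`.  The complement of `R` is inside the part of `K`, has cut 4 and contains `e (prN)`, the part `i₀`.  `comp_four`: it is inside a part, so it is the part `i₀`, and then `R` contains another part and its
image (a part different from `i₀`), contradiction to `dis`; or it is all of the part of `K`, and `R = prN`. -/
theorem rig_max (hR : Rigid C.toB) {ψ : Perm C.toB.T} {e : Perm ((comp C Y).D ⊕ N.1.D)}
    (h : UTw C hC Y N ψ e) (hr : ψ (Sum.inr true) = C.s (Sum.inr true)) :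
    MaxQ (twoA (cG C hC Y) N) (twoS (cG C hC Y) N) e (twoR (cG C hC Y) N)
      (prN (cG C hC Y) N) := by
  have h2 : prN (cG C hC Y) N = PT Y N none := prN_eq
  have h1 : MaxQ (AA hC Y N) (SS hC Y N) e (lo Y N (Sum.inr true)) (prN (cG C hC Y) N) := by
    rw [h2]
    exact rig_max' hR h hr
  exact h1

namespace GpRig

theorem inv_sub {ψ : Perm C.toB.T} {e : Perm ((comp C Y).D ⊕ N.1.D)} (hR : Rigid C.toB)
    (h : UTw C hC Y N ψ e) (hr : ψ (Sum.inr true) = C.s (Sum.inr true))
    {A : Finset ((comp C Y).D ⊕ N.1.D)} (hA : Cl (AA hC Y N) A) (hi : ∀ t ∈ A, e t ∈ A)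
    (h4 : cut (SS hC Y N) A = 4) (hrA : lo Y N (Sum.inr true) ∉ A) :
    ∀ t ∈ A, t ∉ PT Y N none := by
  have he : Refl (AA hC Y N) (SS hC Y N) e := h.refl
  obtain ⟨i, hpi⟩ := parts_root h hr
  by_contra hcon
  push Not at hcon
  obtain ⟨t0, ht0, ht0P⟩ := hcon
  have hns : NS (AA hC Y N) (SS hC Y N) := (good (hC := hC) (Y := Y) (N := N)).ns
  have hPcl : Cl (AA hC Y N) (PT Y N none) := PT_cl none
  have hPcut : cut (SS hC Y N) (PT Y N none) = 4 := PT_cut none
  -- `A \ P` is not empty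
  have h1 : e t0 ∈ A \ PT Y N none := by
    rw [mem_sdiff]
    refine ⟨hi t0 ht0, fun h2 => ?_⟩
    have := PT_eq h2 ((hpi t0).1 ht0P)
    simp at this
  -- `A ∪ P` is not everything
  have h2 : A ∪ PT Y N none ≠ univ := by
    intro h3
    have h5 : ∀ t ∈ PT Y N none, t ∈ A := by
      intro t ht
      have h6 : e t ∈ A ∪ PT Y N none := by rw [h3]; exact mem_univ _
      rw [mem_union] at h6
      rcases h6 with h6 | h6
      · have := hi _ h6
        rwa [he.ee] at this
      · have := PT_eq h6 ((hpi t).1 ht)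
        simp at this
    exact hrA (h5 _ r_mem)
  have c1 : 4 ≤ cut (SS hC Y N) (A ∩ PT Y N none) := by
    refine hns _ (hA.inter hPcl) ⟨t0, mem_inter.2 ⟨ht0, ht0P⟩⟩ ?_
    intro h3
    have h5 : lo Y N (Sum.inr true) ∈ A ∩ PT Y N none := by rw [h3]; exact mem_univ _
    exact hrA (mem_inter.1 h5).1
  have c2 : 4 ≤ cut (SS hC Y N) (A ∪ PT Y N none) :=
    hns _ (hA.union hPcl) ⟨t0, mem_union_left _ ht0⟩ h2
  have c3 : 4 ≤ cut (SS hC Y N) (A \ PT Y N none) := by
    refine hns _ (hA.sdiff hPcl) ⟨_, h1⟩ ?_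
    intro h3
    have h5 : lo Y N (Sum.inr true) ∈ A \ PT Y N none := by rw [h3]; exact mem_univ _
    exact hrA (mem_sdiff.1 h5).1
  have c4 : 4 ≤ cut (SS hC Y N) (PT Y N none \ A) := by
    refine hns _ (hPcl.sdiff hA) ⟨_, mem_sdiff.2 ⟨r_mem, hrA⟩⟩ ?_
    intro h3
    have h5 : t0 ∈ PT Y N none \ A := by rw [h3]; exact mem_univ _
    exact (mem_sdiff.1 h5).2 ht0
  have c5 := cut_inter_union (SS hC Y N) A (PT Y N none)
  have c6 := cut_inter_union (SS hC Y N) A (PT Y N none)ᶜ
  have e1 : A ∩ (PT Y N none)ᶜ = A \ PT Y N none := by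
    ext t
    rw [mem_inter, mem_compl, mem_sdiff]
  have e2 : A ∪ (PT Y N none)ᶜ = (PT Y N none \ A)ᶜ := by
    ext t
    rw [mem_union, mem_compl, mem_compl, mem_sdiff]
    tauto
  rw [e1, e2, cut_compl, cut_compl] at c6
  have d1 : cut (SS hC Y N) (A \ PT Y N none) = 4 := by omega
  have d2 : cut (SS hC Y N) (A ∪ PT Y N none)ᶜ = 4 := by rw [cut_compl]; omega
  obtain ⟨z, hz⟩ : (A ∪ PT Y N none)ᶜ.Nonempty := by
    rw [nonempty_iff_ne_empty]
    intro h3
    rw [h3] at d2
    unfold cut bd at d2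
    simp at d2
  have hz' := mem_compl.1 hz
  have f1 : ∃ j : C.I, A \ PT Y N none ⊆ PT Y N (some j) := by
    rcases four hR (hA.sdiff hPcl) d1 (fun t ht => (mem_sdiff.1 ht).2) with h3 | h3
    · exact h3
    · exfalso
      have h5 := h3 z (fun h6 => hz' (mem_union_right _ h6))
      exact hz' (mem_union_left _ (mem_sdiff.1 h5).1)
  have f2 : ∃ k : C.I, (A ∪ PT Y N none)ᶜ ⊆ PT Y N (some k) := by
    rcases four hR (hA.union hPcl).compl d2 (fun t ht h6 =>
      mem_compl.1 ht (mem_union_right _ h6)) with h3 | h3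
    · exact h3
    · exfalso
      have h5 := h3 (e t0) (mem_sdiff.1 h1).2
      exact mem_compl.1 h5 (mem_union_left _ (mem_sdiff.1 h1).1)
  obtain ⟨j, hj⟩ := f1
  obtain ⟨k, hk⟩ := f2
  obtain ⟨l, hlj, hlk⟩ := third hR j k
  obtain ⟨t, ht⟩ := PT_ne (Y := Y) (N := N) (some l)
  have htP : t ∉ PT Y N none := by
    intro h3
    have := PT_eq ht h3
    simp at this
  by_cases htA : t ∈ A
  · exact hlj (Option.some.inj (PT_eq ht (hj (mem_sdiff.2 ⟨htA, htP⟩))))
  · refine hlk (Option.some.inj (PT_eq ht (hk (mem_compl.2 fun h3 => ?_))))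
    rcases mem_union.1 h3 with h3 | h3
    · exact htA h3
    · exact htP h3

/-- an invariant set as in the definition of reduced maps is inside a part whose edge is fixed -/
theorem red_part {ψ : Perm C.toB.T} {e : Perm ((comp C Y).D ⊕ N.1.D)} (hR : Rigid C.toB)
    (h : UTw C hC Y N ψ e) (hr : ψ (Sum.inr true) = C.s (Sum.inr true))
    {A : Finset ((comp C Y).D ⊕ N.1.D)} (hA : Cl (AA hC Y N) A) (hi : ∀ t ∈ A, e t ∈ A)
    (h4 : cut (SS hC Y N) A = 4) (hrA : lo Y N (Sum.inr true) ∉ A) :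
    ∃ (i : C.I) (b' : Bool), ψ (cdt (some i) true) = cdt (some i) b' ∧
      ∃ B, A = upO Y N (some i) B := by
  have he : Refl (AA hC Y N) (SS hC Y N) e := h.refl
  obtain ⟨i0, hpi⟩ := parts_root h hr
  have h1 := inv_sub hR h hr hA hi h4 hrA
  obtain ⟨z, hz⟩ : A.Nonempty := by
    rw [nonempty_iff_ne_empty]
    intro h3
    rw [h3] at h4
    unfold cut bd at h4
    simp at h4
  rcases four hR hA h4 h1 with ⟨i, hAi⟩ | h2
  · obtain ⟨o', ⟨b', ho⟩, h3⟩ := parts h (some i)
    have h5 : e z ∈ PT Y N o' := (h3 z).1 (hAi hz)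
    have h6 : o' = some i := PT_eq h5 (hAi (hi z hz))
    subst h6
    refine ⟨i, b', ho, univ.filter (fun d => dO Y N (some i) d ∈ A), ?_⟩
    ext t
    constructor
    · intro ht
      obtain ⟨d, rfl⟩ := mem_PT.1 (hAi ht)
      exact UAx_mem.2 (mem_filter.2 ⟨mem_univ _, ht⟩)
    · intro ht
      obtain ⟨d, hd, rfl⟩ := UAx_part ht
      exact (mem_filter.1 hd).2
  · exfalso
    have h3 : e (lo Y N (Sum.inr true)) ∈ A := by
      apply h2
      intro h5
      have := PT_eq h5 ((hpi _).1 r_mem)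
      simp at this
    have h5 := hi _ h3
    rw [he.ee] at h5
    exact hrA h5

theorem card_upO (o : Option C.I) (B : Finset (netO Y N o).1.D) : (upO Y N o B).card = B.card :=
  card_map _

theorem card_dn {M : BMap} (B : Finset M.D) : (dn B).card = B.card := card_map _

theorem rig_red' (hR : Rigid C.toB) {ψ : Perm C.toB.T} {e : Perm ((comp C Y).D ⊕ N.1.D)}
    (h : UTw C hC Y N ψ e) (hr : ψ (Sum.inr true) = C.s (Sum.inr true)) :
    MRed (AA hC Y N) (SS hC Y N) e (lo Y N (Sum.inr true)) ↔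
      (∀ o, ψ (cdt o true) = cdt o true → Fintype.card (netO Y N o).1.D = 2) ∧
      ∀ o (φ : Perm (netO Y N o).1.T), ψ (cdt o true) = cdt o false →
        TwI true true (netO Y N o).1 (netO Y N o).1 φ → ARed (netO Y N o).1 φ := by
  have hnn : ∀ o b, ψ (cdt o true) = cdt o b → ∀ B, lo Y N (Sum.inr true) ∉ upO Y N o B := by
    intro o b ho B hB
    obtain ⟨i, hpi⟩ := parts_root h hr
    obtain ⟨d, -, hd⟩ := UAx_part hB
    have h1 : o = none := PT_eq (hd ▸ dO_mem o d : lo Y N (Sum.inr true) ∈ PT Y N o) r_mem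
    subst h1
    obtain ⟨j, c, hj⟩ := root_some hC hr
    have h2 := (cdt_inj (ho.symm.trans hj)).1
    simp at h2
  constructor
  · intro hM
    constructor
    · intro o ho
      obtain ⟨φ, hφ, -⟩ := h.nets o true o true ho
      have h1 := (uax_part h ho hφ univ).2 (Or.inr ⟨rfl, rfl⟩)
      have h2 := hM (upO Y N o univ) h1.cl h1.inv h1.cut4 (hnn o true ho univ) h1.ends
      rw [card_upO, card_univ] at h2
      exact h2
    · intro o φ ho hφ A hA
      have hA' : A = dn (univ.filter fun d => (Sum.inl d : (netO Y N o).1.T) ∈ A) := by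
        ext t
        rcases t with d | b
        · rw [AxPart_mem_dn, mem_filter]
          exact ⟨fun h1 => ⟨mem_univ _, h1⟩, fun h1 => h1.2⟩
        · constructor
          · intro h1
            exact absurd ((CompFour.inr_mem_iff hA.cl b true).1 h1) hA.root
          · intro h1
            exact absurd h1 AxPart_dn_inr
      rw [hA'] at hA
      have h1 := (uax_part h (b := true) (b' := false) ho hφ _).2 (Or.inl hA)
      have h2 := hM _ h1.cl h1.inv h1.cut4 (hnn o false ho _) h1.ends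
      rw [card_upO] at h2
      rw [hA', card_dn]
      exact h2
  · rintro ⟨k1, k2⟩ A hA hi h4 hrA hends
    obtain ⟨i, b', ho, B, hB⟩ := red_part hR h hr hA hi h4 hrA
    obtain ⟨φ, hφ, -⟩ := h.nets (some i) true (some i) b' ho
    have h1 : AxI (twoA (cG C hC Y) N) (twoS (cG C hC Y) N) e (upO Y N (some i) B) := by
      rw [← hB]
      exact ⟨hA, hi, h4, hends⟩
    have h2 := (uax_part h ho hφ B).1 h1
    rw [hB, card_upO]
    cases b'
    · rcases h2 with h2 | ⟨-, h2⟩
      · have h3 := k2 (some i) φ ho hφ _ h2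
        rwa [card_dn] at h3
      · simp at h2
    · have h3 := k1 (some i) ho
      have h5 : B.card ≤ 2 := by
        rw [← h3]
        exact card_le_univ B
      have hcl : Cl (AA hC Y N) (upO Y N (some i) B) := hB ▸ hA
      obtain ⟨z, hz⟩ : A.Nonempty := by
        rw [nonempty_iff_ne_empty]
        intro h3
        rw [h3] at h4
        unfold cut bd at h4
        simp at h4
      have h6 : ({z, AA hC Y N z} : Finset ((comp C Y).D ⊕ N.1.D)) ⊆ A := by
        intro t ht
        rw [mem_insert, mem_singleton] at ht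
        rcases ht with rfl | rfl
        · exact hz
        · exact (hA z).2 hz
      have h7 := card_le_card h6
      have h8 : z ≠ AA hC Y N z := fun h9 => (good (hC := hC) (Y := Y) (N := N)).fpf z h9.symm
      rw [card_pair h8, hB, card_upO] at h7
      omega

end GpRig

/-- Proof.  From left to right: `uax_part` (for an edge on the axis with `B = univ`).  From right to left: let `A` be as in `MRed`.  First, `A` does not meet `P = prN`: otherwise let `X₁ = A \ P`, not empty as it contains `e (A ∩ P)`, and let `X₂` be the complement of `A ∪ P`, not empty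
(otherwise `A` contains the part of `K`, so `e P`, so `P`, but `r ∉ A`).  `A ∩ P`, `A ∪ P`, `A \ P`, `P \ A` are closed, not empty, not everything, so (`cut` of union and intersection, of the differences: both sums are at most 8) all have cut 4.
`X₁`, `X₂` are inside the part of `K`, their union is this part; by `comp_four` each of them is inside one part (not everything); but there are at least three parts.  So `A` is inside the part of `K`; `comp_four`: inside a part `i` (`A` is not the whole part of `K`,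
which is not invariant), `A = upO (some i) B`; by invariance `ψ` fixes the edge `i`; `uax_part`. -/
theorem rig_red (hR : Rigid C.toB) {ψ : Perm C.toB.T} {e : Perm ((comp C Y).D ⊕ N.1.D)}
    (h : UTw C hC Y N ψ e) (hr : ψ (Sum.inr true) = C.s (Sum.inr true)) :
    MRed (twoA (cG C hC Y) N) (twoS (cG C hC Y) N) e (twoR (cG C hC Y) N) ↔
      (∀ o, ψ (cdt o true) = cdt o true → Fintype.card (netO Y N o).1.D = 2) ∧
      ∀ o (φ : Perm (netO Y N o).1.T), ψ (cdt o true) = cdt o false →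
        TwI true true (netO Y N o).1 (netO Y N o).1 φ → ARed (netO Y N o).1 φ :=
  rig_red' hR h hr

namespace GpRig

theorem not_all (hR : Rigid C.toB) {ψ : Perm C.toB.T} {e : Perm ((comp C Y).D ⊕ N.1.D)}
    (h : UTw C hC Y N ψ e) (hr : ψ (Sum.inr true) = C.s (Sum.inr true)) :
    ¬ (∀ t ∈ prK (cG C hC Y) N, e t ∈ prN (cG C hC Y) N) := by
  intro h1
  have h1' : ∀ t, t ∉ PT Y N none → e t ∈ PT Y N none := by
    intro t ht
    have h2 := h1 t (mem_prK'.2 ht)
    have h3 : prN (cG C hC Y) N = PT Y N none := prN_eq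
    exact h3 ▸ h2
  have he : Refl (AA hC Y N) (SS hC Y N) e := h.refl
  obtain ⟨i, hi⟩ := parts_root h hr
  obtain ⟨k, hk, -⟩ := third hR i i
  obtain ⟨t, ht⟩ := PT_ne (Y := Y) (N := N) (some k)
  have h2 : e t ∈ PT Y N none := h1' t (fun h3 => by
    have := PT_eq ht h3
    simp at this)
  have h3 := (hi (e t)).1 h2
  rw [he.ee] at h3
  exact hk (Option.some.inj (PT_eq ht h3))

theorem gpB_of (w : Wt) {K N : GB} {e : Perm (K.1.D ⊕ N.1.D)} (hu : ∀ e', GP K N e' → e' = e) :
    gpB w K N = if GP K N e ∧ ¬ (∀ t ∈ prK K N, e t ∈ prN K N) then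
      VT w (twoA K N) (twoS K N) e else 0 := by
  unfold gpB
  rw [Finset.sum_eq_single e]
  · intro e' _ hne
    rw [if_neg]
    rintro ⟨h1, -⟩
    exact hne (hu e' h1)
  · intro h1
    exact absurd (mem_univ _) h1

theorem gpB_zero (w : Wt) {K N : GB}
    (hu : ∀ e', GP K N e' → ∀ t ∈ prK K N, e' t ∈ prN K N) : gpB w K N = 0 := by
  unfold gpB
  refine Finset.sum_eq_zero fun e _ => ?_
  rw [if_neg]
  rintro ⟨h1, h2⟩
  exact h2 (hu e h1)

/-- the condition for reduced maps -/
def RC (C : Core) (Y : C.I → GB) (N : GB) (ψ : Perm C.toB.T) : Prop :=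
  (∀ o, ψ (cdt o true) = cdt o true → Fintype.card (netO Y N o).1.D = 2) ∧
      ∀ o (φ : Perm (netO Y N o).1.T), ψ (cdt o true) = cdt o false →
        TwI true true (netO Y N o).1 (netO Y N o).1 φ → ARed (netO Y N o).1 φ

/-- the products of the weights of the nets -/
theorem prod_pos {ψ : Perm C.toB.T} (hn : Cmp C Y N ψ) (w : Wt) (hc : RC C Y N ψ) :
    ∏ o : Option C.I, puv w C ψ o (netO Y N o).1 =
      ∏ o : Option C.I, quv w C ψ o (netO Y N o).1 := by
  obtain ⟨k1, k2⟩ := hc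
  refine Finset.prod_congr rfl fun o _ => ?_
  unfold puv quv
  by_cases h1 : ψ (cdt o true) = cdt o true
  · rw [if_pos h1, if_pos h1, if_pos (k1 o h1)]
    exact sv_two w (netO Y N o).2 (k1 o h1)
  · rw [if_neg h1, if_neg h1]
    by_cases h2 : ψ (cdt o true) = cdt o false
    · rw [if_pos h2, if_pos h2]
      obtain ⟨φ, hφ⟩ := hn o true o false h2
      have hφ' : TwI true true (netO Y N o).1 (netO Y N o).1 φ := hφ
      rw [sv_of w (netO Y N o).2 hφ', sw_of w (netO Y N o).2 hφ', if_pos (k2 o φ h2 hφ')]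
    · rw [if_neg h2, if_neg h2]

theorem prod_neg {ψ : Perm C.toB.T} (w : Wt) (hc : ¬ RC C Y N ψ) :
    ∏ o : Option C.I, quv w C ψ o (netO Y N o).1 = 0 := by
  by_cases hc1 : ∀ o, ψ (cdt o true) = cdt o true → Fintype.card (netO Y N o).1.D = 2
  · have hc2 : ¬ ∀ o (φ : Perm (netO Y N o).1.T), ψ (cdt o true) = cdt o false →
        TwI true true (netO Y N o).1 (netO Y N o).1 φ → ARed (netO Y N o).1 φ :=
      fun h2 => hc ⟨hc1, h2⟩
    push Not at hc2
    obtain ⟨o, φ, ho, hφ, hA⟩ := hc2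
    refine Finset.prod_eq_zero (mem_univ o) ?_
    unfold quv
    have h1 : ¬ ψ (cdt o true) = cdt o true := by
      intro h1
      have h2 := (cdt_inj (ho.symm.trans h1)).2
      simp at h2
    rw [if_neg h1, if_pos ho, sw_of w (netO Y N o).2 hφ, if_neg hA]
  · push Not at hc1
    obtain ⟨o, ho, hne⟩ := hc1
    refine Finset.prod_eq_zero (mem_univ o) ?_
    unfold quv
    rw [if_pos ho, if_neg hne]

/-- the weight of a compatible reflection of the core -/
noncomputable def val (w : Wt) (C : Core) (Y : C.I → GB) (N : GB) (ψ : Perm C.toB.T) : ℝ≥0∞ :=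
  w.bi ^ cBis C.s ψ * w.vx ^ nV C.s * ∏ o : Option C.I, quv w C ψ o (netO Y N o).1

theorem val_pos {ψ : Perm C.toB.T} {e : Perm ((comp C Y).D ⊕ N.1.D)}
    (h : UTw C hC Y N ψ e) (w : Wt) (hc : RC C Y N ψ) :
    VT w (twoA (cG C hC Y) N) (twoS (cG C hC Y) N) e = val w C Y N ψ :=
  (VT_comp h w).trans (congrArg (fun z => w.bi ^ cBis C.s ψ * w.vx ^ nV C.s * z)
    (prod_pos h.cmp w hc))

theorem val_neg {ψ : Perm C.toB.T} (w : Wt) (hc : ¬ RC C Y N ψ) : val w C Y N ψ = 0 :=
  (congrArg (fun z => w.bi ^ cBis C.s ψ * w.vx ^ nV C.s * z) (prod_neg w hc)).trans (mul_zero _)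

theorem gpB_utw (hR : Rigid C.toB) {ψ : Perm C.toB.T} {e : Perm ((comp C Y).D ⊕ N.1.D)}
    (he : UTw C hC Y N ψ e) (hr : ψ (Sum.inr true) = C.s (Sum.inr true)) (w : Wt) :
    gpB w (cG C hC Y) N = val w C Y N ψ := by
  have hLHS := gpB_of w (K := cG C hC Y) (N := N) (e := e) (fun e' h1 =>
        PairSum.root_unique good (GP_iff.1 h1).refl he.refl (GP_iff.1 h1).root (root_eq he hr))
  refine hLHS.trans ?_
  by_cases hm : RC C Y N ψ
  · have hm' := (rig_red' hR he hr).2 hm
    have hgp : GP (cG C hC Y) N e := GP_iff.2 ⟨he.refl, root_eq he hr, hm', rig_max' hR he hr⟩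
    exact (if_pos ⟨hgp, not_all hR he hr⟩).trans (val_pos he w hm)
  · exact (if_neg (fun h1 => hm ((rig_red' hR he hr).1 (GP_iff.1 h1.1).red))).trans
      (val_neg w hm).symm

end GpRig

/-- `rig_parts`, `utw_exists`, `UTw.root_iff`, `UTw.cmp`; conversely `utw_mk`, `rig_max`, `rig_red`, `VT_comp`; `e` determines `ψ` and is determined by it (`iso_unique`: both are determined by the value at the root); `quv` and `puv` as in `sw_rigid` -/
theorem gpB_rig (hR : Rigid C.toB) (w : Wt) :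
    gpB w (cG C hC Y) N = ∑ ψ : Perm C.toB.T,
      if Refl C.toB.aa C.s ψ ∧ ψ (Sum.inr true) = C.s (Sum.inr true) ∧ Cmp C Y N ψ then
        w.bi ^ cBis C.s ψ * w.vx ^ nV C.s * ∏ o : Option C.I, quv w C ψ o (netO Y N o).1 else 0 := by
  by_cases hex : ∃ ψ : Perm C.toB.T, Refl C.toB.aa C.s ψ ∧
      ψ (Sum.inr true) = C.s (Sum.inr true) ∧ Cmp C Y N ψ
  · obtain ⟨ψ, hψ, hr, hn⟩ := hex
    obtain ⟨e, he⟩ := utw_mk hC hψ hn
    refine (gpB_utw hR he hr w).trans (Eq.symm ?_)
    rw [Finset.sum_eq_single ψ]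
    · exact if_pos ⟨hψ, hr, hn⟩
    · intro ψ' _ hne
      rw [if_neg]
      rintro ⟨h1, h2, -⟩
      exact hne (PairSum.root_unique hC h1 hψ h2 hr)
    · intro h1
      exact absurd (mem_univ _) h1
  · have hR0 : (∑ ψ : Perm C.toB.T,
        if Refl C.toB.aa C.s ψ ∧ ψ (Sum.inr true) = C.s (Sum.inr true) ∧ Cmp C Y N ψ then
          w.bi ^ cBis C.s ψ * w.vx ^ nV C.s * ∏ o : Option C.I, quv w C ψ o (netO Y N o).1 else 0) =
        0 := by
      refine Finset.sum_eq_zero fun ψ _ => ?_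
      rw [if_neg (fun h1 => hex ⟨ψ, h1⟩)]
    rw [hR0]
    refine gpB_zero w (K := cG C hC Y) (N := N) fun e h1 => ?_
    by_contra h2
    obtain ⟨ψ, hψ⟩ := utw_exists hC h1.refl (rig_parts hR h1 h2)
    exact hex ⟨ψ, hψ.core, hψ.root_iff.1 h1.root, hψ.cmp⟩

end PGr

end
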