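import Pool.Agent.PGm.M15
import Pool.Agent.PGm.M22

section
/-! # Module GpSer: the first net is a series composition -/

set_option linter.unusedSectionVars false

namespace PGr
open Equiv Finset
open scoped ENNReal Classical

section shared
variable {C : Core} {hC : C.toB.IsGood} {Y : C.I → GB} {N : GB} {i₀ : C.I}

theorem GpSer_mem_upO {o : Option C.I} {t : (comp C Y).D ⊕ N.1.D} :
    t ∈ upO Y N o univ ↔ ∃ d, t = dO Y N o d := by
  constructor
  · intro h
    obtain ⟨d, -, h1⟩ := UAx_part h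
    exact ⟨d, h1⟩
  · rintro ⟨d, rfl⟩
    exact UAx_mem.2 (mem_univ _)

theorem GpSer_up_none {t : (comp C Y).D ⊕ N.1.D} :
    t ∈ upO Y N none univ ↔ t ∈ prN (cG C hC Y) N := by
  rw [GpSer_mem_upO]
  exact (GpA_prN (K := cG C hC Y)).symm

theorem GpSer_up_some {i : C.I} {t : (comp C Y).D ⊕ N.1.D} (h : t ∈ upO Y N (some i) univ) :
    t ∉ prN (cG C hC Y) N := by
  obtain ⟨d, rfl⟩ := GpSer_mem_upO.1 h
  exact (GpA_not_prN (K := cG C hC Y)).2 ⟨⟨i, d⟩, rfl⟩

theorem GpSer_dis {o o' : Option C.I} (h : o ≠ o') {t : (comp C Y).D ⊕ N.1.D}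
    (h1 : t ∈ upO Y N o univ) : t ∉ upO Y N o' univ := by
  intro h2
  obtain ⟨d, rfl⟩ := GpSer_mem_upO.1 h1
  obtain ⟨d', hd⟩ := GpSer_mem_upO.1 h2
  obtain ⟨h3, -⟩ := dO_inj hd
  exact h h3

/-- a closed set of cut 4 which contains the part `i₀` and no dart of `N` is this part or everything -/
theorem GpSer_tail (hT : ∀ E : Finset (comp C Y).T, Cl (comp C Y).aa E → cut (comp C Y).s E = 4 →
      Sum.inr true ∉ E → upS Y i₀ univ ⊆ E → E ∪ (comp C Y).root ≠ univ → E = upS Y i₀ univ)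
    {E : Finset ((comp C Y).D ⊕ N.1.D)} (hE : Cl (twoA (cG C hC Y) N) E)
    (h4 : cut (twoS (cG C hC Y) N) E = 4) (hN : ∀ t ∈ E, t ∉ prN (cG C hC Y) N)
    (hP : ∀ t ∈ upO Y N (some i₀) univ, t ∈ E) (hu : ∃ d : (comp C Y).D, Sum.inl d ∉ E) :
    E = upO Y N (some i₀) univ := by
  set B : Finset (comp C Y).D := univ.filter fun d => (Sum.inl d : (comp C Y).D ⊕ N.1.D) ∈ E
    with hB
  have mB : ∀ d, d ∈ B ↔ (Sum.inl d : (comp C Y).D ⊕ N.1.D) ∈ E := by
    intro d
    rw [hB, mem_filter]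
    exact ⟨fun h => h.2, fun h => ⟨mem_univ _, h⟩⟩
  have hEB : E = B.map ⟨Sum.inl, (chart_l (cG C hC Y) N).inj⟩ := by
    ext t
    constructor
    · intro ht
      obtain ⟨d, hd⟩ := (GpA_not_prN (K := cG C hC Y)).1 (hN t ht)
      subst hd
      exact (ChartA_mem (chart_l (cG C hC Y) N).inj).2 ((mB d).2 ht)
    · intro ht
      obtain ⟨d, hd, h1⟩ := mem_map.1 ht
      have h2 : (Sum.inl d : (comp C Y).D ⊕ N.1.D) = t := h1
      rw [← h2]
      exact (mB d).1 hd
  have h1 : Cl (comp C Y).aa (dn B) := by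
    rw [hEB] at hE
    exact (chart_cl (chart_l (cG C hC Y) N) B).1 hE
  have h2 : cut (comp C Y).s (dn B) = 4 := by
    rw [hEB, chart_cut (chart_l (cG C hC Y) N) B] at h4
    exact h4
  have h3 := hT (dn B) h1 h2 AxPart_dn_inr (by
    intro t ht
    obtain ⟨d, -, rfl⟩ := AxPart_up_part ht
    have h5 : CompInj.dt Y i₀ d = Sum.inl (⟨i₀, d⟩ : Σ i, (Y i).1.D) := rfl
    have h6 : (⟨i₀, d⟩ : Σ i, (Y i).1.D) ∈ B :=
      (mB _).2 (hP _ (GpSer_mem_upO.2 ⟨d, rfl⟩))
    exact (AxPart_mem_dn (M := comp C Y)).2 h6) (by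
    intro h5
    obtain ⟨d, hd⟩ := hu
    have h6 : (Sum.inl d : (comp C Y).T) ∈ dn B ∪ (comp C Y).root := by rw [h5]; exact mem_univ _
    rw [mem_union, AxPart_mem_dn, mB] at h6
    rcases h6 with h6 | h6
    · exact hd h6
    · obtain ⟨b, hb⟩ := CompFour.mem_root.1 h6
      have h7 : (Sum.inl d : (comp C Y).D ⊕ Bool) = Sum.inr b := hb
      simp at h7)
  ext t
  constructor
  · intro ht
    obtain ⟨d, hd⟩ := (GpA_not_prN (K := cG C hC Y)).1 (hN t ht)
    subst hd
    have h5 : (Sum.inl d : (comp C Y).T) ∈ upS Y i₀ univ := by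
      rw [← h3]
      exact AxPart_mem_dn.2 ((mB d).2 ht)
    obtain ⟨d', -, h6⟩ := AxPart_up_part h5
    have h7 : d = (⟨i₀, d'⟩ : Σ i, (Y i).1.D) := Sum.inl_injective h6
    rw [h7]
    exact GpSer_mem_upO.2 ⟨d', rfl⟩
  · exact hP t

/-- a reflection as in `GP` which does not exchange the two parts exchanges `N` and the part `i₀` -/
theorem GpSer_img (hT : ∀ E : Finset (comp C Y).T, Cl (comp C Y).aa E → cut (comp C Y).s E = 4 →
      Sum.inr true ∉ E → upS Y i₀ univ ⊆ E → E ∪ (comp C Y).root ≠ univ → E = upS Y i₀ univ)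
    {i₁ : C.I} (hi : i₁ ≠ i₀) (hs : C.s (Sum.inr true) = Sum.inl (i₀, true))
    {e : Perm ((comp C Y).D ⊕ N.1.D)} (he : GP (cG C hC Y) N e)
    (hne : ¬ ∀ t ∈ prK (cG C hC Y) N, e t ∈ prN (cG C hC Y) N) :
    ∀ t, e t ∈ prN (cG C hC Y) N ↔ t ∈ upO Y N (some i₀) univ := by
  have hG : Good (twoA (cG C hC Y) N) (twoS (cG C hC Y) N) := two_good _ _
  have hsr : twoS (cG C hC Y) N (twoR (cG C hC Y) N) =
      dO Y N (some i₀) (fstD (Y i₀) true) :=
    dO_s_out (hC := hC) (Y := Y) (N := N) (o := none) (o' := some i₀) (b := true) (b' := true) hs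
  have hr : twoR (cG C hC Y) N ∈ upO Y N none univ := GpSer_mem_upO.2 ⟨_, rfl⟩
  have halt := max_alt hG he.refl he.root he.max (R := upO Y N (some i₀) univ)
    ((upO_cl (hC := hC) _ _).2 (by
      intro t
      rcases t with d | b
      · have h4 : (netO Y N (some i₀)).1.aa (Sum.inl d) =
          Sum.inl ((netO Y N (some i₀)).1.a d) := rfl
        rw [h4, AxPart_mem_dn, AxPart_mem_dn]
        exact iff_of_true (mem_univ _) (mem_univ _)
      · exact iff_of_false AxPart_dn_inr AxPart_dn_inr)) (upO_univ _)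
    (GpSer_dis (by simp) hr) (by rw [hsr]; exact GpSer_mem_upO.2 ⟨_, rfl⟩)
  have h1 : ∀ t ∈ upO Y N (some i₀) univ, e t ∈ prN (cG C hC Y) N := by
    rcases halt with h1 | h1
    · exact h1
    · exfalso
      have h2 : dO Y N (some i₁) (fstD (Y i₁) true) ∈ upO Y N (some i₁) univ :=
        GpSer_mem_upO.2 ⟨_, rfl⟩
      exact GpSer_up_some (hC := hC) h2
        (h1 _ (GpSer_dis (fun h => hi (Option.some_injective _ h)) h2))
  set E : Finset ((comp C Y).D ⊕ N.1.D) := (prN (cG C hC Y) N).map e.toEmbedding with hE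
  have mE : ∀ t, t ∈ E ↔ e t ∈ prN (cG C hC Y) N := by
    intro t
    rw [hE, mem_map_equiv]
    have h2 : e.symm t = e t := by
      rw [Equiv.symm_apply_eq]
      exact (he.refl.ee t).symm
    rw [h2]
    exact Iff.rfl
  have hEeq : E = upO Y N (some i₀) univ := by
    refine GpSer_tail (hC := hC) hT (refl_cl he.refl he.max.1.cl) ?_ ?_ ?_ ?_
    · exact (refl_cut he.refl _).trans he.max.1.cut4
    · intro t ht h2
      exact he.max.1.dis t h2 ((mE t).1 ht)
    · intro t ht
      exact (mE t).2 (h1 t ht)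
    · by_contra hcon
      push Not at hcon
      apply hne
      intro t ht
      obtain ⟨d, rfl⟩ := GpA_prK.1 ht
      exact (mE _).1 (hcon d)
  intro t
  rw [← hEeq]
  exact (mE t).symm

/-- Conversely: a reflection which exchanges `N` and the part `i₀` satisfies `MaxQ`. -/
theorem GpSer_max (hT : ∀ E : Finset (comp C Y).T, Cl (comp C Y).aa E → cut (comp C Y).s E = 4 →
      Sum.inr true ∉ E → upS Y i₀ univ ⊆ E → E ∪ (comp C Y).root ≠ univ → E = upS Y i₀ univ)
    {i₁ : C.I} (hi : i₁ ≠ i₀) {e : Perm ((comp C Y).D ⊕ N.1.D)}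
    (he : Refl (twoA (cG C hC Y) N) (twoS (cG C hC Y) N) e)
    (hr : e (twoR (cG C hC Y) N) = twoS (cG C hC Y) N (twoR (cG C hC Y) N))
    (him : ∀ t, e t ∈ prN (cG C hC Y) N ↔ t ∈ upO Y N (some i₀) univ) :
    MaxQ (twoA (cG C hC Y) N) (twoS (cG C hC Y) N) e (twoR (cG C hC Y) N)
      (prN (cG C hC Y) N) := by
  have hG : Good (twoA (cG C hC Y) N) (twoS (cG C hC Y) N) := two_good _ _
  have hdis : ∀ t ∈ prN (cG C hC Y) N, e t ∉ prN (cG C hC Y) N := by
    intro t ht h1
    exact GpSer_up_some (hC := hC) ((him t).1 h1) ht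
  have hQ := GpA_GQ (K := cG C hC Y) (N := N) hdis
  refine ⟨hQ, fun Q hQ' => ?_⟩
  have hR := GQ.union hG he hr hQ' hQ
  set R : Finset ((comp C Y).D ⊕ N.1.D) := Q ∪ prN (cG C hC Y) N with hRd
  have hRN : ∀ t ∈ prN (cG C hC Y) N, t ∈ R := fun t ht => mem_union_right _ ht
  have hcompl : Cl (twoA (cG C hC Y) N) Rᶜ := hR.cl.compl
  have hcut : cut (twoS (cG C hC Y) N) Rᶜ = 4 := (cut_compl _ _).trans hR.cut4
  have hNc : ∀ t ∈ Rᶜ, t ∉ prN (cG C hC Y) N := by
    intro t ht h1
    rw [mem_compl] at ht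
    exact ht (hRN t h1)
  have hPc : ∀ t ∈ upO Y N (some i₀) univ, t ∈ Rᶜ := by
    intro t ht
    rw [mem_compl]
    intro h1
    have h2 := hR.dis _ (hRN _ ((him t).2 ht))
    have h3 : e (e t) = t := he.ee t
    exact h2 ((congrArg (fun x => x ∈ R) h3).mpr h1)
  by_cases hu : ∃ d : (comp C Y).D, (Sum.inl d : (comp C Y).D ⊕ N.1.D) ∉ Rᶜ
  · exfalso
    have h1 := GpSer_tail (hC := hC) hT hcompl hcut hNc hPc hu
    -- a dart of the part `i₁` and its image are in `R`
    set t₁ : (comp C Y).D ⊕ N.1.D := dO Y N (some i₁) (fstD (Y i₁) true) with ht₁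
    have h2 : t₁ ∈ upO Y N (some i₁) univ := GpSer_mem_upO.2 ⟨_, rfl⟩
    have h3 : t₁ ∉ upO Y N (some i₀) univ :=
      GpSer_dis (fun h => hi (Option.some_injective _ h)) h2
    have h4 : t₁ ∈ R := by
      by_contra h5
      exact h3 ((Finset.ext_iff.1 h1 t₁).1 (Finset.mem_compl.2 h5))
    have h5 := hR.dis _ h4
    have h6 : e t₁ ∈ upO Y N (some i₀) univ :=
      (Finset.ext_iff.1 h1 (e t₁)).1 (Finset.mem_compl.2 h5)
    have h7 := (him (e t₁)).2 h6
    have h8 : e (e t₁) = t₁ := he.ee t₁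
    exact GpSer_up_some (hC := hC) h2
      ((congrArg (fun x => x ∈ prN (cG C hC Y) N) h8).mp h7)
  · push Not at hu
    intro t ht
    by_contra h1
    obtain ⟨d, hd⟩ := (GpA_not_prN (K := cG C hC Y)).1 h1
    subst hd
    have h2 := hu d
    rw [mem_compl] at h2
    exact h2 (mem_union_left _ ht)

end shared

section vertex
variable {T : Type} [Fintype T] [DecidableEq T] {a s : Perm T}

/-- a vertex with a dart in `A` and a dart outside contains a boundary corner -/
theorem GpSer_bd {A : Finset T} {u w : T} (hu : u ∈ A) (hw : w ∉ A) (h : s.SameCycle u w) :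
    ∃ z ∈ bd s A, s.SameCycle u z :=
  Four.exists_bd_of_shC ⟨⟨u, hu, Perm.SameCycle.refl _ _⟩, w, hw, h⟩

/-- if all vertices with darts of `B` and of the complement are the vertex of `p`, then `B` is empty or everything -/
theorem GpSer_one (hG : Good a s) {B : Finset T} (hB : Cl a B) (hne : B.Nonempty)
    (hu : B ≠ univ) {p : T} (h : ∀ u ∈ B, ∀ w, w ∉ B → s.SameCycle u w → s.SameCycle u p) :
    False := by
  obtain ⟨t, t', ⟨⟨x, hx, hx'⟩, y, hy, hy'⟩, ⟨⟨x2, hx2, hx2'⟩, y2, hy2, hy2'⟩, h3⟩ :=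
    hG.two_shared hB hne hu
  apply h3
  have h4 := h x hx y hy (hx'.symm.trans hy')
  have h5 := h x2 hx2 y2 hy2 (hx2'.symm.trans hy2')
  exact hx'.trans (h4.trans (hx2'.trans h5).symm)

/-- Let `S` be the part of the root, its shared vertices are those of `p` and `q`, and let `A` be a closed set
whose boundary corners are at vertices without darts of `S` or at the vertex of `p`.  Then `A` and `S` are disjoint. -/
theorem GpSer_disj (hG : Good a s) {A S : Finset T} (hA : Cl a A) (hS : Cl a S) {p q u₀ r : T}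
    (h1 : ∀ t ∈ bd s A, ∀ u ∈ S, s.SameCycle t u → s.SameCycle u p)
    (h2 : ∀ u ∈ S, ∀ w, w ∉ S → s.SameCycle u w → s.SameCycle u p ∨ s.SameCycle u q)
    (hpq : ¬ s.SameCycle p q) (hu₀ : u₀ ∈ S) (hq : s.SameCycle u₀ q) (hrS : r ∈ S) (hrA : r ∉ A)
    (hSu : S ≠ univ) : ∀ t ∈ A, t ∉ S := by
  intro t₀ ht₀ ht₀S
  -- a vertex with darts of `S`, of `A` and of the complement of `A` is the vertex of `p`
  have h3 : ∀ u ∈ S, ∀ x ∈ A, ∀ y, y ∉ A → s.SameCycle u x → s.SameCycle u y →
      s.SameCycle u p := by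
    intro u hu x hx y hy hux huy
    obtain ⟨z, hz, hz'⟩ := GpSer_bd hx hy (hux.symm.trans huy)
    exact h1 z hz u hu (hz'.symm.trans hux.symm)
  have hqA : (∀ x, s.SameCycle u₀ x → x ∈ A) ∨ (∀ x, s.SameCycle u₀ x → x ∉ A) := by
    by_contra hcon
    push Not at hcon
    obtain ⟨⟨y, hy, hy'⟩, x, hx, hx'⟩ := hcon
    have h4 := h3 u₀ hu₀ x hx' y hy' hx hy
    exact hpq (h4.symm.trans hq)
  have huniv : ∀ B : Finset T, B ⊆ S → B ≠ univ := by
    rintro B hB rfl
    exact hSu (eq_univ_of_forall fun x => hB (mem_univ x))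
  rcases hqA with hall | hnone
  · refine GpSer_one hG (hS.sdiff hA) ⟨r, mem_sdiff.2 ⟨hrS, hrA⟩⟩
      (huniv _ sdiff_subset) (p := p) ?_
    intro u hu w hw huw
    rw [mem_sdiff] at hu
    by_cases h4 : ∃ x ∈ A, s.SameCycle u x
    · obtain ⟨x, hx, hx'⟩ := h4
      exact h3 u hu.1 x hx u hu.2 hx' (Perm.SameCycle.refl _ _)
    · push Not at h4
      have h5 : w ∉ S := by
        intro h6
        apply hw
        rw [mem_sdiff]
        exact ⟨h6, fun h7 => h4 w h7 huw⟩
      rcases h2 u hu.1 w h5 huw with h6 | h6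
      · exact h6
      · exact absurd (hall u (hq.trans h6.symm)) hu.2
  · refine GpSer_one hG (hA.inter hS) ⟨t₀, mem_inter.2 ⟨ht₀, ht₀S⟩⟩
      (huniv _ inter_subset_right) (p := p) ?_
    intro u hu w hw huw
    rw [mem_inter] at hu
    by_cases h4 : ∃ y, y ∉ A ∧ s.SameCycle u y
    · obtain ⟨y, hy, hy'⟩ := h4
      exact h3 u hu.2 u hu.1 y hy (Perm.SameCycle.refl _ _) hy'
    · push Not at h4
      have h5 : w ∉ S := by
        intro h6
        apply hw
        rw [mem_inter]
        exact ⟨by_contra fun h7 => h4 w h7 huw, h6⟩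
      rcases h2 u hu.2 w h5 huw with h6 | h6
      · exact h6
      · exact absurd hu.1 (hnone u (hq.trans h6.symm))

end vertex

section single
variable {K N : GB}

theorem GpSer_single (w : Wt) {e : Perm (K.1.D ⊕ N.1.D)} (he : Refl (twoA K N) (twoS K N) e)
    (hr : e (twoR K N) = twoS K N (twoR K N)) (k1 : ¬ ∀ t ∈ prK K N, e t ∈ prN K N)
    (k2 : GP K N e ↔ MRed (twoA K N) (twoS K N) e (twoR K N)) :
    gpB w K N = if MRed (twoA K N) (twoS K N) e (twoR K N) then
      VT w (twoA K N) (twoS K N) e else 0 := by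
  unfold gpB
  rw [Finset.sum_eq_single e]
  · by_cases h3 : MRed (twoA K N) (twoS K N) e (twoR K N)
    · rw [if_pos h3, if_pos ⟨k2.2 h3, k1⟩]
    · rw [if_neg h3, if_neg]
      rintro ⟨h4, -⟩
      exact h3 (k2.1 h4)
  · intro e' _ hne
    rw [if_neg]
    rintro ⟨he', hne'⟩
    exact hne (GpA_unique (two_good K N) he'.refl he (he'.root.trans hr.symm))
  · intro h3
    exact absurd (mem_univ _) h3

theorem GpSer_zero (w : Wt) (h : ∀ e : Perm (K.1.D ⊕ N.1.D), GP K N e →
    (¬ ∀ t ∈ prK K N, e t ∈ prN K N) → False) : gpB w K N = 0 := by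
  unfold gpB
  apply Finset.sum_eq_zero
  intro e _
  rw [if_neg]
  rintro ⟨he, hne⟩
  exact h e he hne

end single

section utw
variable {C : Core} {hC : C.toB.IsGood} {Y : C.I → GB} {N : GB} {i₀ i₁ : C.I}

/-- a reflection which exchanges `N` and the part `i₀` permutes the parts -/
theorem GpSer_parts (hi : i₁ ≠ i₀) (hcov : ∀ i, i = i₀ ∨ i = i₁)
    {e : Perm ((comp C Y).D ⊕ N.1.D)} (hee : ∀ t, e (e t) = t)
    (him : ∀ t, e t ∈ prN (cG C hC Y) N ↔ t ∈ upO Y N (some i₀) univ) :
    ∀ o : Option C.I, ∃ o' : Option C.I, ∀ d, ∃ d', e (dO Y N o d) = dO Y N o' d' := by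
  have h0 : ∀ o d, dO Y N o d ∈ upO Y N o univ := fun o d => GpSer_mem_upO.2 ⟨d, rfl⟩
  rintro (_ | i)
  · refine ⟨some i₀, fun d => ?_⟩
    have h1 : e (e (dO Y N none d)) ∈ prN (cG C hC Y) N := by
      rw [hee]
      exact GpSer_up_none.1 (h0 none d)
    exact GpSer_mem_upO.1 ((him _).1 h1)
  · rcases hcov i with rfl | rfl
    · exact ⟨none, fun d => GpSer_mem_upO.1
        (GpSer_up_none (hC := hC).2 ((him _).2 (h0 _ d)))⟩
    · refine ⟨some i, fun d => ?_⟩
      have h1 : dO Y N (some i) d ∉ upO Y N (some i₀) univ :=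
        GpSer_dis (fun h => hi (Option.some_injective _ h)) (h0 _ d)
      have h2 : e (dO Y N (some i) d) ∉ prN (cG C hC Y) N := fun h => h1 ((him _).1 h)
      obtain ⟨o', d', h3⟩ := dO_cases (e (dO Y N (some i) d))
      rcases o' with _ | i'
      · exfalso
        apply h2
        rw [h3]
        exact GpSer_up_none.1 (h0 none d')
      · rcases hcov i' with rfl | rfl
        · exfalso
          have h4 := (him (e (dO Y N (some i) d))).2 (by rw [h3]; exact h0 _ d')
          rw [hee] at h4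
          exact GpSer_up_some (hC := hC) (h0 _ d) h4
        · exact ⟨d', h3⟩

/-- the reflection of the core is unique -/
theorem GpSer_psi {ψ₀ : Perm C.toB.T} (hC : C.toB.IsGood) (hψ : Refl C.toB.aa C.s ψ₀)
    (hr : ψ₀ (Sum.inr true) = C.s (Sum.inr true)) {e : Perm ((comp C Y).D ⊕ N.1.D)}
    (he : Refl (twoA (cG C hC Y) N) (twoS (cG C hC Y) N) e)
    (her : e (twoR (cG C hC Y) N) = twoS (cG C hC Y) N (twoR (cG C hC Y) N))
    (hp : ∀ o : Option C.I, ∃ o' : Option C.I, ∀ d, ∃ d', e (dO Y N o d) = dO Y N o' d') :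
    UTw C hC Y N ψ₀ e := by
  obtain ⟨ψ, h⟩ := utw_exists hC he hp
  have h1 := h.root_iff.1 her
  have h2 : ψ = ψ₀ := GpA_unique hC h.core hψ (h1.trans hr.symm)
  rw [← h2]
  exact h

/-- the values of the reflection of the core -/
structure GpSerPsi (C : Core) (ψ₀ : Perm C.toB.T) (i₀ i₁ : C.I) (c : Bool) : Prop where
  refl : Refl C.toB.aa C.s ψ₀
  root : C.s (Sum.inr true) = Sum.inl (i₀, true)
  ne : i₁ ≠ i₀
  cov : ∀ i, i = i₀ ∨ i = i₁
  p0 : ∀ b, ψ₀ (Sum.inr b) = Sum.inl (i₀, b)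
  p1 : ∀ b, ψ₀ (Sum.inl (i₀, b)) = Sum.inr b
  p2 : ∀ b, ψ₀ (Sum.inl (i₁, b)) = Sum.inl (i₁, xor c b)

/-- the image of the part `none` -/
theorem GpSer_e0 {ψ₀ : Perm C.toB.T} {c : Bool} (hψ : GpSerPsi C ψ₀ i₀ i₁ c)
    {e : Perm ((comp C Y).D ⊕ N.1.D)} (h : UTw C hC Y N ψ₀ e) (d : N.1.D) :
    ∃ d', e (dO Y N none d) = dO Y N (some i₀) d' := by
  obtain ⟨φ, hφ, h1⟩ := h.nets none true (some i₀) true (hψ.p0 true)
  obtain ⟨d', hd'⟩ := hφ.inl d
  exact ⟨d', h1 _ _ hd'⟩

theorem GpSer_e1 {ψ₀ : Perm C.toB.T} {c : Bool} (hψ : GpSerPsi C ψ₀ i₀ i₁ c)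
    {e : Perm ((comp C Y).D ⊕ N.1.D)} (h : UTw C hC Y N ψ₀ e) (d : (Y i₀).1.D) :
    ∃ d', e (dO Y N (some i₀) d) = dO Y N none d' := by
  obtain ⟨φ, hφ, h1⟩ := h.nets (some i₀) true none true (hψ.p1 true)
  obtain ⟨d', hd'⟩ := hφ.inl d
  exact ⟨d', h1 _ _ hd'⟩

theorem GpSer_e2 {ψ₀ : Perm C.toB.T} {c : Bool} (hψ : GpSerPsi C ψ₀ i₀ i₁ c)
    {e : Perm ((comp C Y).D ⊕ N.1.D)} (h : UTw C hC Y N ψ₀ e) (d : (Y i₁).1.D) :
    ∃ d', e (dO Y N (some i₁) d) = dO Y N (some i₁) d' := by
  obtain ⟨φ, hφ, h1⟩ := h.nets (some i₁) true (some i₁) (xor c true) (hψ.p2 true)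
  obtain ⟨d', hd'⟩ := hφ.inl d
  exact ⟨d', h1 _ _ hd'⟩

theorem GpSer_him {ψ₀ : Perm C.toB.T} {c : Bool} (hψ : GpSerPsi C ψ₀ i₀ i₁ c)
    {e : Perm ((comp C Y).D ⊕ N.1.D)} (h : UTw C hC Y N ψ₀ e) :
    ∀ t, e t ∈ prN (cG C hC Y) N ↔ t ∈ upO Y N (some i₀) univ := by
  have h0 : ∀ o d, dO Y N o d ∈ upO Y N o univ := fun o d => GpSer_mem_upO.2 ⟨d, rfl⟩
  intro t
  obtain ⟨o, d, rfl⟩ := dO_cases t
  rcases o with _ | i
  · obtain ⟨d', hd'⟩ := GpSer_e0 hψ h d
    refine iff_of_false ?_ (GpSer_dis (by simp) (h0 none d))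
    rw [hd']
    exact GpSer_up_some (h0 _ d')
  · rcases hψ.cov i with rfl | rfl
    · obtain ⟨d', hd'⟩ := GpSer_e1 hψ h d
      refine iff_of_true ?_ (h0 _ d)
      rw [hd']
      exact GpSer_up_none.1 (h0 none d')
    · obtain ⟨d', hd'⟩ := GpSer_e2 hψ h d
      refine iff_of_false ?_
        (GpSer_dis (fun h => hψ.ne (Option.some_injective _ h)) (h0 _ d))
      rw [hd']
      exact GpSer_up_some (h0 _ d')

/-- the sum has at most one term, which comes from the reflection of the core -/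
theorem GpSer_sum (hT : ∀ E : Finset (comp C Y).T, Cl (comp C Y).aa E → cut (comp C Y).s E = 4 →
      Sum.inr true ∉ E → upS Y i₀ univ ⊆ E → E ∪ (comp C Y).root ≠ univ → E = upS Y i₀ univ)
    {ψ₀ : Perm C.toB.T} {c : Bool} (hψ : GpSerPsi C ψ₀ i₀ i₁ c) (w : Wt) :
    gpB w (cG C hC Y) N =
      if h : ∃ e, UTw C hC Y N ψ₀ e then
        (if MRed (twoA (cG C hC Y) N) (twoS (cG C hC Y) N) h.choose (twoR (cG C hC Y) N) then
          VT w (twoA (cG C hC Y) N) (twoS (cG C hC Y) N) h.choose else 0) else 0 := by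
  have hr0 : ψ₀ (Sum.inr true) = C.s (Sum.inr true) := (hψ.p0 true).trans hψ.root.symm
  have hG : Good (twoA (cG C hC Y) N) (twoS (cG C hC Y) N) := two_good _ _
  have h1 : ∀ e : Perm ((comp C Y).D ⊕ N.1.D), GP (cG C hC Y) N e →
      (¬ ∀ t ∈ prK (cG C hC Y) N, e t ∈ prN (cG C hC Y) N) → UTw C hC Y N ψ₀ e := by
    intro e he hne
    have him := GpSer_img (hC := hC) hT hψ.ne hψ.root he hne
    exact GpSer_psi hC hψ.refl hr0 he.refl he.root
      (GpSer_parts hψ.ne hψ.cov he.refl.ee him)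
  have h2 : ∀ e : Perm ((comp C Y).D ⊕ N.1.D), UTw C hC Y N ψ₀ e →
      (¬ ∀ t ∈ prK (cG C hC Y) N, e t ∈ prN (cG C hC Y) N) ∧
      (GP (cG C hC Y) N e ↔
        MRed (twoA (cG C hC Y) N) (twoS (cG C hC Y) N) e (twoR (cG C hC Y) N)) := by
    intro e he
    have him := GpSer_him hψ he
    have hroot := he.root_iff.2 hr0
    refine ⟨?_, fun h => h.red, fun h => ⟨he.refl, hroot, h,
      GpSer_max (hC := hC) hT hψ.ne he.refl hroot him⟩⟩
    intro hcon
    obtain ⟨d', hd'⟩ := GpSer_e2 hψ he (fstD (Y i₁) true)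
    have h3 : dO Y N (some i₁) (fstD (Y i₁) true) ∈ prK (cG C hC Y) N :=
      GpA_prK.2 ⟨_, rfl⟩
    have h4 := hcon _ h3
    rw [hd'] at h4
    exact GpSer_up_some (hC := hC) (GpSer_mem_upO.2 ⟨_, rfl⟩) h4
  by_cases h : ∃ e, UTw C hC Y N ψ₀ e
  · rw [dif_pos h]
    have he := h.choose_spec
    obtain ⟨k1, k2⟩ := h2 _ he
    exact GpSer_single w he.refl (he.root_iff.2 hr0) k1 k2
  · rw [dif_neg h]
    exact GpSer_zero w fun e he hne => h ⟨e, h1 e he hne⟩

/-- the condition for `N` and the part `i₀` -/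
theorem GpSer_biso {ψ₀ : Perm C.toB.T} {c : Bool} (hψ : GpSerPsi C ψ₀ i₀ i₁ c)
    {e : Perm ((comp C Y).D ⊕ N.1.D)} (h : UTw C hC Y N ψ₀ e) :
    BIso (twM true false N.1) (Y i₀).1 ∧ ∃ φ : Perm (Y i₁).1.T,
      TwI true c (Y i₁).1 (Y i₁).1 φ := by
  constructor
  · obtain ⟨φ, hφ, -⟩ := h.nets none true (some i₀) true (hψ.p0 true)
    exact hφ.biso
  · obtain ⟨φ, hφ, -⟩ := h.nets (some i₁) true (some i₁) (xor c true) (hψ.p2 true)
    refine ⟨φ, ?_⟩
    have h1 : xor true (xor c true) = c := by cases c <;> rfl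
    rw [← h1]
    exact hφ

/-- conversely -/
theorem GpSer_cmp {ψ₀ : Perm C.toB.T} {c : Bool} (hψ : GpSerPsi C ψ₀ i₀ i₁ c)
    (h1 : BIso (twM true false N.1) (Y i₀).1) (h2 : ∃ φ : Perm (Y i₁).1.T,
      TwI true c (Y i₁).1 (Y i₁).1 φ) : ∃ e, UTw C hC Y N ψ₀ e := by
  obtain ⟨φ, hφ⟩ := TwI_iff.2 h1
  obtain ⟨χ, hχ⟩ := h2
  refine utw_mk hC hψ.refl ?_
  intro o b o' b' ho
  rcases o with _ | i
  · have h3 : ψ₀ (cdt none b) = Sum.inl (i₀, b) := hψ.p0 b
    rw [h3] at ho
    rcases o' with _ | i'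
    · exact absurd ho (by simp [cdt])
    · have h4 : (i₀, b) = (i', b') := Sum.inl_injective ho
      rw [Prod.mk.injEq] at h4
      obtain ⟨rfl, rfl⟩ := h4
      refine ⟨φ, ?_⟩
      rw [Bool.xor_self]
      exact hφ
  · rcases hψ.cov i with rfl | rfl
    · have h3 : ψ₀ (cdt (some i) b) = Sum.inr b := hψ.p1 b
      rw [h3] at ho
      rcases o' with _ | i'
      · have h4 : b = b' := Sum.inr_injective ho
        subst h4
        refine ⟨φ.symm, ?_⟩
        rw [Bool.xor_self]
        exact hφ.symm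
      · exact absurd ho (by simp [cdt])
    · have h3 : ψ₀ (cdt (some i) b) = Sum.inl (i, xor c b) := hψ.p2 b
      rw [h3] at ho
      rcases o' with _ | i'
      · exact absurd ho (by simp [cdt])
      · have h4 : (i, xor c b) = (i', b') := Sum.inl_injective ho
        rw [Prod.mk.injEq] at h4
        obtain ⟨rfl, rfl⟩ := h4
        refine ⟨χ, ?_⟩
        have h5 : xor b (xor c b) = c := by cases b <;> cases c <;> rfl
        rw [h5]
        exact hχ

end utw

section red
variable {C : Core} {hC : C.toB.IsGood} {Y : C.I → GB} {N : GB} {i₀ i₁ : C.I}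
  {ψ₀ : Perm C.toB.T} {c : Bool} {e : Perm ((comp C Y).D ⊕ N.1.D)}

/-- an invariant set without darts of `N` is inside the part `i₁` -/
theorem GpSer_sub (hψ : GpSerPsi C ψ₀ i₀ i₁ c) (h : UTw C hC Y N ψ₀ e)
    {A : Finset ((comp C Y).D ⊕ N.1.D)} (hinv : ∀ t ∈ A, e t ∈ A)
    (hd : ∀ t ∈ A, t ∉ prN (cG C hC Y) N) :
    ∃ B : Finset (Y i₁).1.D, A = upO Y N (some i₁) B := by
  refine ⟨univ.filter fun d => dO Y N (some i₁) d ∈ A, ?_⟩
  ext t
  constructor
  · intro ht
    obtain ⟨o, d, rfl⟩ := dO_cases t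
    rcases o with _ | i
    · exact absurd (GpA_prN.2 ⟨_, rfl⟩) (hd _ ht)
    · rcases hψ.cov i with rfl | rfl
      · exfalso
        have h1 := hinv _ ht
        obtain ⟨d', hd'⟩ := GpSer_e1 hψ h d
        rw [hd'] at h1
        exact hd _ h1 (GpA_prN.2 ⟨_, rfl⟩)
      · exact UAx_mem.2 (mem_filter.2 ⟨mem_univ _, ht⟩)
  · intro ht
    obtain ⟨d, hd1, rfl⟩ := UAx_part ht
    exact (mem_filter.1 hd1).2

theorem GpSer_card {o : Option C.I} (B : Finset (netO Y N o).1.D) :
    (upO Y N o B).card = B.card := by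
  unfold upO
  exact card_map _

theorem GpSer_dn {M : BMap} {A : Finset M.T} (hcl : Cl M.aa A) (hr : Sum.inr true ∉ A) :
    dn (univ.filter fun d : M.D => (Sum.inl d : M.T) ∈ A) = A := by
  ext t
  rcases t with d | b
  · rw [AxPart_mem_dn, mem_filter]
    exact ⟨fun h => h.2, fun h => ⟨mem_univ _, h⟩⟩
  · exact iff_of_false AxPart_dn_inr (fun h => hr ((CompFour.inr_mem_iff hcl b true).1 h))

end red

section ser
variable {x z N : GB}

def GpSer_p : Perm ((Bool × Bool) ⊕ Bool) :=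
  ⟨fun t => match t with
    | Sum.inr b => Sum.inl (true, b)
    | Sum.inl (true, b) => Sum.inr b
    | Sum.inl (false, b) => Sum.inl (false, !b),
  fun t => match t with
    | Sum.inr b => Sum.inl (true, b)
    | Sum.inl (true, b) => Sum.inr b
    | Sum.inl (false, b) => Sum.inl (false, !b), by decide, by decide⟩

theorem GpSer_tri : GpSerPsi tri GpSer_p true false true where
  refl := by
    have h : Refl TriProps_a TriProps_s GpSer_p := ⟨by decide, by decide, by decide⟩
    exact h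
  root := by
    have h : TriProps_s (Sum.inr true) = Sum.inl (true, true) := by decide
    exact h
  ne := by
    have h : (false : Bool) ≠ true := by decide
    exact h
  cov := by
    have h : ∀ i : Bool, i = true ∨ i = false := by decide
    exact h
  p0 := fun b => rfl
  p1 := fun b => rfl
  p2 := by
    have h : ∀ b : Bool, GpSer_p (Sum.inl (false, b)) = Sum.inl (false, xor true b) := by decide
    exact h

theorem GpSer_bis : cBis tri.s GpSer_p = 2 := by
  have h : (univ.filter fun t : (Bool × Bool) ⊕ Bool => GpSer_p t = TriProps_s t).card = 2 := by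
    decide
  exact h

/-- common vertices of `N` and the other parts: the pole `true` with the first part, the pole `false` with the second part -/
theorem GpSer_triv {b b' : Bool} {i : tri.I} (h : tri.s.SameCycle (cdt none b) (cdt (some i) b')) :
    b = i := by
  have h1 := (TriProps_same (Sum.inr b) (Sum.inl (i, b'))).1 h
  revert h1
  have h2 : ∀ b i b' : Bool, TriProps_v (Sum.inr b) = TriProps_v (Sum.inl (i, b')) → b = i := by
    decide
  exact h2 b i b'

theorem GpSer_red {e : Perm ((comp tri (serNets x z)).D ⊕ N.1.D)}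
    (h : UTw tri tri_good (serNets x z) N GpSer_p e) {φ : Perm z.1.T}
    (hφ : TwI true true z.1 z.1 φ) :
    MRed (twoA (cG tri tri_good (serNets x z)) N) (twoS (cG tri tri_good (serNets x z)) N) e
      (twoR (cG tri tri_good (serNets x z)) N) ↔ ARed z.1 φ := by
  have hG : Good (twoA (cG tri tri_good (serNets x z)) N)
    (twoS (cG tri tri_good (serNets x z)) N) := two_good _ _
  have hS : Cl (twoA (cG tri tri_good (serNets x z)) N)
      (prN (cG tri tri_good (serNets x z)) N) := by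
    have h1 := (GpSer_him GpSer_tri h)
    have h2 : ∀ t ∈ prN (cG tri tri_good (serNets x z)) N,
        e t ∉ prN (cG tri tri_good (serNets x z)) N := by
      intro t ht h3
      exact GpSer_up_some (hC := tri_good) ((h1 t).1 h3) ht
    exact (GpA_GQ h2).cl
  have hax : ∀ B : Finset z.1.D,
      AxI (twoA (cG tri tri_good (serNets x z)) N) (twoS (cG tri tri_good (serNets x z)) N) e
        (upO (serNets x z) N (some false : Option tri.I) B) ↔ AxSet z.1 φ (dn B) := by
    intro B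
    have h1 := uax_part h (o := (some false : Option tri.I)) (b := true) (b' := false)
      (GpSer_tri.p2 true) (φ := φ) hφ B
    refine h1.trans ⟨fun h2 => ?_, Or.inl⟩
    rcases h2 with h2 | ⟨-, h2⟩
    · exact h2
    · exact absurd h2 (by decide)
  constructor
  · intro hred A hA
    have hdn := GpSer_dn hA.cl hA.root
    set B : Finset z.1.D := univ.filter fun d => (Sum.inl d : z.1.T) ∈ A with hB
    have h1 := (hax B).2 (by rw [hdn]; exact hA)
    have h2 := hred _ h1.cl h1.inv h1.cut4 (by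
      intro h3
      obtain ⟨d, -, h4⟩ := UAx_part h3
      have h5 : (Sum.inr (CompInj.lstD N true) : (comp tri (serNets x z)).D ⊕ N.1.D) =
        Sum.inl ⟨false, d⟩ := h4
      simp at h5) h1.ends
    have h3 : (upO (serNets x z) N (some false : Option tri.I) B).card = B.card := card_map _
    rw [← hdn]
    unfold dn
    rw [card_map, ← h3]
    exact h2
  · intro hred A hcl hinv hcut hrA hends
    have hmain : ∀ t ∈ A, t ∉ prN (cG tri tri_good (serNets x z)) N := by
      have hdd : ∀ d d' : N.1.D, (twoS (cG tri tri_good (serNets x z)) N).SameCycle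
          (Sum.inr d) (Sum.inr d') ↔ N.1.s.SameCycle (Sum.inl d) (Sum.inl d') :=
        fun d d' => two_sc_rr _ _ d d'
      refine GpSer_disj hG hcl hS (p := Sum.inr (CompInj.lstD N true))
        (q := Sum.inr (CompInj.lstD N false)) (u₀ := Sum.inr (CompInj.lstD N false))
        (r := twoR (cG tri tri_good (serNets x z)) N) ?_ ?_ ?_ ?_ ?_ ?_ hrA ?_
      · intro t ht u hu htu
        obtain ⟨d, rfl⟩ := GpA_prN.1 hu
        have h1 := hends t ht
        have h2 := GpA_refl_sc h.refl htu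
        have h3 := htu.symm.trans (h1.trans h2)
        obtain ⟨d', hd'⟩ := GpSer_e0 GpSer_tri h d
        have h4 : e (Sum.inr d) = dO (serNets x z) N (some true : Option tri.I) d' := hd'
        have h5 : (twoS (cG tri tri_good (serNets x z)) N).SameCycle
            (dO (serNets x z) N (none : Option tri.I) d)
            (dO (serNets x z) N (some true : Option tri.I) d') := by
          rw [← h4]
          exact h3
        obtain ⟨b, b', h6, -, h7⟩ := sc_dO2 (by simp) h5
        have h8 := GpSer_triv h7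
        rw [h8] at h6
        exact (hdd _ _).2 (h6.trans (GpA_lst_sc N true).symm)
      · intro u hu v hv huv
        obtain ⟨d, rfl⟩ := GpA_prN.1 hu
        obtain ⟨o, d', rfl⟩ := dO_cases v
        rcases o with _ | i
        · exact absurd (GpA_prN.2 ⟨_, rfl⟩) hv
        · have h5 : (twoS (cG tri tri_good (serNets x z)) N).SameCycle
              (dO (serNets x z) N (none : Option tri.I) d)
              (dO (serNets x z) N (some i : Option tri.I) d') := huv
          obtain ⟨b, b', h6, -, h7⟩ := sc_dO2 (by simp) h5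
          cases b
          · exact Or.inr ((hdd _ _).2 (h6.trans (GpA_lst_sc N false).symm))
          · exact Or.inl ((hdd _ _).2 (h6.trans (GpA_lst_sc N true).symm))
      · intro h1
        have h2 := (GpA_lst_sc N true).symm.trans (((hdd _ _).1 h1).trans (GpA_lst_sc N false))
        have h3 := CompVAux.root_uniq N (Perm.SameCycle.refl _ _) h2
        exact absurd h3 (by decide)
      · exact GpA_prN.2 ⟨_, rfl⟩
      · exact Perm.SameCycle.refl _ _
      · exact GpA_prN.2 ⟨_, rfl⟩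
      · intro h1
        have h2 : dO (serNets x z) N (some false : Option tri.I) (fstD z true) ∈
            prN (cG tri tri_good (serNets x z)) N := by rw [h1]; exact mem_univ _
        exact GpSer_up_some (hC := tri_good) (GpSer_mem_upO.2 ⟨_, rfl⟩) h2
    obtain ⟨B, hB⟩ := GpSer_sub GpSer_tri h hinv hmain
    have h1 : AxI (twoA (cG tri tri_good (serNets x z)) N)
        (twoS (cG tri tri_good (serNets x z)) N) e
        (upO (serNets x z) N (some false : Option tri.I) B) := by
      rw [← hB]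
      exact ⟨hcl, hinv, hcut, hends⟩
    have h2 := hred _ ((hax B).1 h1)
    have h3 : (upO (serNets x z) N (some false : Option tri.I) B).card = B.card := card_map _
    unfold dn at h2
    rw [card_map] at h2
    rw [hB]
    exact h3.trans h2

theorem GpSer_val (w : Wt) {e : Perm ((comp tri (serNets x z)).D ⊕ N.1.D)}
    (h : UTw tri tri_good (serNets x z) N GpSer_p e) {φ : Perm z.1.T}
    (hφ : TwI true true z.1 z.1 φ) :
    VT w (twoA (cG tri tri_good (serNets x z)) N) (twoS (cG tri tri_good (serNets x z)) N) e =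
      w.bi ^ 2 * w.vx ^ 3 * hW w N.1 ^ 2 * Vw w z.1 φ := by
  have h1 := VT_comp h w
  obtain ⟨χ, hχ⟩ := TwI_iff.2 (GpSer_biso GpSer_tri h).1
  have h2 : hW w x.1 = hW w N.1 := hW_tw w hχ
  have e1 : puv w tri GpSer_p none N.1 = hW w N.1 := by
    unfold puv
    have k1 : ¬ GpSer_p (Sum.inr true) = Sum.inr true := by decide
    have k2 : ¬ GpSer_p (Sum.inr true) = Sum.inr false := by decide
    exact (if_neg k1).trans (if_neg k2)
  have e2 : puv w tri GpSer_p (some true : Option tri.I) x.1 = hW w x.1 := by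
    unfold puv
    have k1 : ¬ GpSer_p (Sum.inl (true, true)) = Sum.inl (true, true) := by decide
    have k2 : ¬ GpSer_p (Sum.inl (true, true)) = Sum.inl (true, false) := by decide
    exact (if_neg k1).trans (if_neg k2)
  have e3 : puv w tri GpSer_p (some false : Option tri.I) z.1 = sv w true z.1 := by
    unfold puv
    have k1 : ¬ GpSer_p (Sum.inl (false, true)) = Sum.inl (false, true) := by decide
    have k2 : GpSer_p (Sum.inl (false, true)) = Sum.inl (false, false) := by decide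
    exact (if_neg k1).trans (if_pos k2)
  have h3 : ∏ o : Option tri.I, puv w tri GpSer_p o (netO (serNets x z) N o).1 =
      hW w N.1 * (hW w x.1 * sv w true z.1) := by
    rw [← e1, ← e2, ← e3, Fintype.prod_option]
    have h4 : ∏ i : tri.I, puv w tri GpSer_p (some i) (netO (serNets x z) N (some i)).1 =
        ∏ i : Bool, puv w tri GpSer_p (some i : Option tri.I)
          (netO (serNets x z) N (some i : Option tri.I)).1 := rfl
    rw [h4, Fintype.prod_bool]
    rfl
  rw [h1, h3, h2, GpSer_bis, tri_nV, sv_of w z.2 hφ]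
  ring

end ser

/-- Notation: `C = tri`, `Y = serNets x z`, parts `none` (`N`), `some true` (`x`), `some false` (`z`).
Proof.  (1) Let `e` satisfy `GP` and not map the part of `K` into `prN`.  Then `e (prN)` is the part of `x` (`tail_ser`) and `e` preserves the part of `z`; `utw_exists`, `UTw.root_iff`.
(2) Conversely `utw_mk`, `tail_ser` gives `MaxQ`.
(3) `MRed` is `ARed` of `z` (`GpSer_red`).
(4) The weight: `VT_comp`. -/
theorem gpB_ser (w : Wt) {x z N : GB} (hz : ¬ IsSer z.1) :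
    gpB w (cG tri tri_good (serNets x z)) N =
      if BIso (twM true false N.1) x.1 then
        w.bi ^ 2 * w.vx ^ 3 * hW w N.1 ^ 2 * sw w true z.1 else 0 := by
  have hT : ∀ E : Finset (comp tri (serNets x z)).T, Cl (comp tri (serNets x z)).aa E →
      cut (comp tri (serNets x z)).s E = 4 → Sum.inr true ∉ E →
      upS (serNets x z) true univ ⊆ E → E ∪ (comp tri (serNets x z)).root ≠ univ →
      E = upS (serNets x z) true univ := fun E h1 h2 h3 h4 h5 => tail_ser hz h1 h2 h3 h4 h5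
  have hsum := GpSer_sum (hC := tri_good) (N := N) hT GpSer_tri w
  by_cases h : BIso (twM true false N.1) x.1
  · rw [if_pos h]
    by_cases h2 : ∃ φ : Perm z.1.T, TwI true true z.1 z.1 φ
    · have hex : ∃ e, UTw tri tri_good (serNets x z) N GpSer_p e :=
        GpSer_cmp (hC := tri_good) GpSer_tri h h2
      rw [dif_pos hex] at hsum
      obtain ⟨φ, hφ⟩ := h2
      rw [hsum, sw_of w z.2 hφ]
      by_cases h3 : ARed z.1 φ
      · rw [if_pos h3]
        exact (if_pos ((GpSer_red hex.choose_spec hφ).2 h3)).trans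
          (GpSer_val w hex.choose_spec hφ)
      · rw [if_neg h3, mul_zero]
        exact if_neg fun h4 => h3 ((GpSer_red hex.choose_spec hφ).1 h4)
    · have hex : ¬ ∃ e, UTw tri tri_good (serNets x z) N GpSer_p e := by
        rintro ⟨e, he⟩
        exact h2 (GpSer_biso GpSer_tri he).2
      rw [dif_neg hex] at hsum
      rw [hsum, sw_none w h2, mul_zero]
  · have hex : ¬ ∃ e, UTw tri tri_good (serNets x z) N GpSer_p e := by
      rintro ⟨e, he⟩
      exact h (GpSer_biso GpSer_tri he).1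
    rw [dif_neg hex] at hsum
    rw [hsum, if_neg h]

end PGr

end

section
/-! # Module GpPar: the first net is a parallel composition -/

set_option linter.unusedSectionVars false

namespace PGr
open Equiv Finset
open scoped ENNReal Classical

variable {x z N : GB}

def GpPar_s : Perm ((Bool × Bool) ⊕ Bool) :=
  Perm.sumCongr 1 Equiv.boolNot * TriProps_s *
    Perm.sumCongr (Equiv.prodCongr (Equiv.refl Bool) Equiv.boolNot) 1

def GpPar_p : Perm ((Bool × Bool) ⊕ Bool) :=
  ⟨fun t => match t with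
    | Sum.inr b => Sum.inl (true, b)
    | Sum.inl (true, b) => Sum.inr b
    | Sum.inl (false, b) => Sum.inl (false, b),
  fun t => match t with
    | Sum.inr b => Sum.inl (true, b)
    | Sum.inl (true, b) => Sum.inr b
    | Sum.inl (false, b) => Sum.inl (false, b), by decide, by decide⟩

theorem GpPar_tri : GpSerPsi (ddCore tri) GpPar_p true false false where
  refl := by
    have h : Refl TriProps_a GpPar_s GpPar_p := ⟨by decide, by decide, by decide⟩
    exact h
  root := by
    have h : GpPar_s (Sum.inr true) = Sum.inl (true, true) := by decide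
    exact h
  ne := by
    have h : (false : Bool) ≠ true := by decide
    exact h
  cov := by
    have h : ∀ i : Bool, i = true ∨ i = false := by decide
    exact h
  p0 := fun b => rfl
  p1 := fun b => rfl
  p2 := by
    have h : ∀ b : Bool, GpPar_p (Sum.inl (false, b)) = Sum.inl (false, xor false b) := by decide
    exact h

theorem GpPar_bis : cBis (ddCore tri).s GpPar_p = 2 := by
  have h : (univ.filter fun t : (Bool × Bool) ⊕ Bool => GpPar_p t = GpPar_s t).card = 2 := by
    decide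
  exact h

/-- the rotation of the core -/
structure GpParB (C : Core) (ψ₀ : Perm C.toB.T) (i₀ i₁ : C.I) : Prop where
  psi : GpSerPsi C ψ₀ i₀ i₁ false
  r1 : C.s (Sum.inl (i₀, true)) = Sum.inl (i₁, true)
  r2 : C.s (Sum.inl (i₁, true)) = Sum.inr true
  r3 : C.s (Sum.inr false) = Sum.inl (i₁, false)
  r4 : C.s (Sum.inl (i₁, false)) = Sum.inl (i₀, false)
  r5 : C.s (Sum.inl (i₀, false)) = Sum.inr false

theorem GpPar_bond : GpParB (ddCore tri) GpPar_p true false where
  psi := GpPar_tri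
  r1 := by
    have h : GpPar_s (Sum.inl (true, true)) = Sum.inl (false, true) := by decide
    exact h
  r2 := by
    have h : GpPar_s (Sum.inl (false, true)) = Sum.inr true := by decide
    exact h
  r3 := by
    have h : GpPar_s (Sum.inr false) = Sum.inl (false, false) := by decide
    exact h
  r4 := by
    have h : GpPar_s (Sum.inl (false, false)) = Sum.inl (true, false) := by decide
    exact h
  r5 := by
    have h : GpPar_s (Sum.inl (true, false)) = Sum.inr false := by decide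
    exact h

/-- two corners between two disjoint sets -/
theorem GpPar_cut {T : Type*} [Fintype T] [DecidableEq T] {s : Perm T} {A B : Finset T}
    (hA : cut s A ≤ 4) (hB : cut s B ≤ 4) (hd : ∀ t ∈ A, t ∉ B) {x y : T} (hx : x ∈ A)
    (hx' : s x ∈ B) (hy : y ∈ B) (hy' : s y ∈ A) : cut s (A ∪ B) ≤ 4 := by
  refine GpA_cut_two hA hB (x := x) (y := y) (fun h => hd x hx (h ▸ hy)) ⟨?_, ?_, ?_⟩ ⟨?_, ?_, ?_⟩
  · exact mem_bd.2 fun h => hd _ (h.1 hx) hx'
  · exact mem_bd.2 fun h => hd _ hx (h.2 hx')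
  · rw [mem_bd, not_not]
    exact iff_of_true (mem_union_left _ hx) (mem_union_right _ hx')
  · exact mem_bd.2 fun h => hd _ (h.2 hy') hy
  · exact mem_bd.2 fun h => hd _ hy' (h.1 hy)
  · rw [mem_bd, not_not]
    exact iff_of_true (mem_union_right _ hy) (mem_union_left _ hy')

section bond
variable {C : Core} {hC : C.toB.IsGood} {Y : C.I → GB} {i₀ i₁ : C.I}
  {ψ₀ : Perm C.toB.T} {e : Perm ((comp C Y).D ⊕ N.1.D)}

theorem GpPar_in (o : Option C.I) (b : Bool) : (twoS (cG C hC Y) N).SameCycle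
      (dO Y N o (fstD (netO Y N o) b)) (dO Y N o (CompInj.lstD (netO Y N o) b)) :=
  (sc_dO o _ _).2 ((GpA_fst_sc _ b).symm.trans (GpA_lst_sc _ b).symm)

theorem GpPar_out {o o' : Option C.I} {b : Bool} (h : C.s (cdt o b) = cdt o' b) :
    (twoS (cG C hC Y) N).SameCycle (dO Y N o (CompInj.lstD (netO Y N o) b))
      (dO Y N o' (CompInj.lstD (netO Y N o') b)) := by
  have h1 := dO_s_out hC (Y := Y) (N := N) h
  have h2 := GpA_sc (twoS (cG C hC Y) N) (dO Y N o (CompInj.lstD (netO Y N o) b))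
  rw [h1] at h2
  exact h2.trans (GpPar_in o' b)

/-- the two poles -/
theorem GpPar_pole (hB : GpParB C ψ₀ i₀ i₁) (o : Option C.I) (b : Bool) :
    (twoS (cG C hC Y) N).SameCycle (dO Y N o (CompInj.lstD (netO Y N o) b))
      (dO Y N none (CompInj.lstD N b)) := by
  rcases o with _ | i
  · exact Perm.SameCycle.refl _ _
  · cases b
    · rcases hB.psi.cov i with rfl | rfl
      · exact GpPar_out (o := some i) (o' := none) hB.r5
      · exact (GpPar_out (o := some i) (o' := some i₀) hB.r4).trans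
          (GpPar_out (o := some i₀) (o' := none) hB.r5)
    · rcases hB.psi.cov i with rfl | rfl
      · exact (GpPar_out (o := some i) (o' := some i₁) hB.r1).trans
          (GpPar_out (o := some i₁) (o' := none) hB.r2)
      · exact GpPar_out (o := some i) (o' := none) hB.r2

/-- the poles are fixed -/
theorem GpPar_fix (hB : GpParB C ψ₀ i₀ i₁) (h : UTw C hC Y N ψ₀ e)
    {t : (comp C Y).D ⊕ N.1.D} {b : Bool}
    (ht : (twoS (cG C hC Y) N).SameCycle t (dO Y N none (CompInj.lstD N b))) :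
    (twoS (cG C hC Y) N).SameCycle t (e t) := by
  have h1 : e (dO Y N none (CompInj.lstD N b)) = dO Y N (some i₀) (fstD (Y i₀) b) :=
    h.lst (o := none) (o' := some i₀) (b := b) (b' := b) (hB.psi.p0 b)
  have h2 := (congrArg (fun y => (twoS (cG C hC Y) N).SameCycle (e t) y) h1).mp
    (GpA_refl_sc h.refl ht)
  exact ht.trans ((GpPar_pole (hC := hC) hB (some i₀) b).symm.trans
    ((GpPar_in (hC := hC) (some i₀) b).symm.trans h2.symm))

/-- boundary corners of a set in a part -/
theorem GpPar_bd (hB : GpParB C ψ₀ i₀ i₁) {o : Option C.I} {B : Finset (netO Y N o).1.D}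
    (hp : ∀ t ∈ bd (netO Y N o).1.s (dn B), ∃ b, (netO Y N o).1.s.SameCycle t (Sum.inr b))
    {t : (comp C Y).D ⊕ N.1.D} (ht : t ∈ bd (twoS (cG C hC Y) N) (upO Y N o B)) :
    ∃ b, (twoS (cG C hC Y) N).SameCycle t (dO Y N none (CompInj.lstD N b)) := by
  have key : ∀ d, (Sum.inl d : (netO Y N o).1.T) ∈ bd (netO Y N o).1.s (dn B) →
      ∃ b, (twoS (cG C hC Y) N).SameCycle (dO Y N o d) (dO Y N none (CompInj.lstD N b)) := by
    intro d hd
    obtain ⟨b, hb⟩ := hp _ hd
    exact ⟨b, ((sc_dO o _ _).2 (hb.trans (GpA_lst_sc _ b).symm)).trans (GpPar_pole hB o b)⟩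
  by_cases h1 : t ∈ upO Y N o B
  · obtain ⟨d, _, rfl⟩ := UAx_part h1
    exact key d (UAx_bd.1 ht)
  · have h2 : twoS (cG C hC Y) N t ∈ upO Y N o B := by
      by_contra h3
      exact mem_bd.1 ht ⟨fun h4 => absurd h4 h1, fun h4 => absurd h4 h3⟩
    obtain ⟨d, hd, h3⟩ := UAx_part h2
    rcases h4 : (netO Y N o).1.s⁻¹ (Sum.inl d) with d₀ | b₁
    · have h5 : (netO Y N o).1.s (Sum.inl d₀) = Sum.inl d := by rw [← h4]; simp
      have h6 : t = dO Y N o d₀ := by
        apply (twoS (cG C hC Y) N).injective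
        rw [h3]
        exact (dO_s_in (hC := hC) h5).symm
      subst h6
      exact key d₀ (UAx_bd.1 ht)
    · have h5 : (netO Y N o).1.s (Sum.inr b₁) = Sum.inl d := by rw [← h4]; simp
      rw [fstD_spec] at h5
      have h6 := Sum.inl_injective h5
      refine ⟨b₁, ?_⟩
      have h7 := GpA_sc (twoS (cG C hC Y) N) t
      rw [h3, ← h6] at h7
      exact h7.trans ((GpPar_in o b₁).trans (GpPar_pole hB o b₁))

/-- a closed nonempty set has at least two darts -/
theorem GpPar_two {T : Type*} [Fintype T] [DecidableEq T] {a : Perm T} (hf : ∀ t, a t ≠ t)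
    {A : Finset T} (hA : Cl a A) {t : T} (ht : t ∈ A) : 2 ≤ A.card :=
  Finset.one_lt_card.2 ⟨_, (hA t).2 ht, _, ht, hf t⟩

theorem GpPar_red1 (hB : GpParB C ψ₀ i₀ i₁) (h : UTw C hC Y N ψ₀ e)
    (hred : MRed (twoA (cG C hC Y) N) (twoS (cG C hC Y) N) e (twoR (cG C hC Y) N)) :
    Fintype.card (Y i₁).1.D = 2 := by
  obtain ⟨-, φ, hφ⟩ := GpSer_biso hB.psi h
  have h1 := (uax_part h (o := some i₁) (b := true) (b' := true) (hB.psi.p2 true) (φ := φ) hφ
    univ).2 (Or.inr ⟨rfl, rfl⟩)
  have h2 := hred _ h1.cl h1.inv h1.cut4 (by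
    intro h3
    exact GpSer_up_some (hC := hC) h3 (GpA_prN.2 ⟨_, rfl⟩)) h1.ends
  rw [← h2]
  exact (card_map _).symm.trans rfl

theorem GpPar_red2 (hB : GpParB C ψ₀ i₀ i₁) (h : UTw C hC Y N ψ₀ e)
    (hred : MRed (twoA (cG C hC Y) N) (twoS (cG C hC Y) N) e (twoR (cG C hC Y) N)) :
    ¬ IsPar N.1 := by
  intro hpar
  have hG : Good (twoA (cG C hC Y) N) (twoS (cG C hC Y) N) := two_good _ _
  obtain ⟨B, hcl, hcut, hft, hlf, hlt, hpole⟩ := GpA_prefix N hpar
  set A₁ : Finset ((comp C Y).D ⊕ N.1.D) := upO Y N none B with hA₁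
  set A₂ : Finset ((comp C Y).D ⊕ N.1.D) := upO Y N (some i₁) univ with hA₂
  set A₃ : Finset ((comp C Y).D ⊕ N.1.D) := A₁.map e.toEmbedding with hA₃
  have hee : ∀ t, e (e t) = t := h.refl.ee
  have hes : ∀ t, twoS (cG C hC Y) N (e (twoS (cG C hC Y) N t)) = e t := h.refl.es
  have m3 : ∀ t, t ∈ A₃ ↔ e t ∈ A₁ := by
    intro t
    rw [hA₃, mem_map_equiv]
    have h2 : e.symm t = e t := by
      rw [Equiv.symm_apply_eq]
      exact (hee t).symm
    rw [h2]
  have m3' : ∀ t, e t ∈ A₃ ↔ t ∈ A₁ := by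
    intro t
    rw [m3, hee]
  have inv2 : ∀ t ∈ A₂, e t ∈ A₂ := by
    intro t ht
    obtain ⟨d, -, rfl⟩ := UAx_part ht
    obtain ⟨d', hd'⟩ := GpSer_e2 hB.psi h d
    rw [hd']
    exact GpSer_mem_upO.2 ⟨d', rfl⟩
  have n1 : ∀ t ∈ A₁, t ∈ upO Y N none univ := by
    intro t ht
    obtain ⟨d, -, rfl⟩ := UAx_part ht
    exact GpSer_mem_upO.2 ⟨d, rfl⟩
  have n3 : ∀ t ∈ A₃, t ∈ upO Y N (some i₀) univ := by
    intro t ht
    exact (GpSer_him (hC := hC) hB.psi h t).1 (GpSer_up_none.1 (n1 _ ((m3 t).1 ht)))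
  have d12 : ∀ t ∈ A₁, t ∉ A₂ := fun t ht => GpSer_dis (by simp) (n1 t ht)
  have d13 : ∀ t ∈ A₁, t ∉ A₃ := fun t ht h1 => GpSer_dis (by simp) (n1 t ht) (n3 t h1)
  have d23 : ∀ t ∈ A₂, t ∉ A₃ := fun t ht h1 =>
    GpSer_dis (fun h => hB.psi.ne (Option.some_injective _ h)) ht (n3 t h1)
  have c1 : Cl (twoA (cG C hC Y) N) A₁ := (upO_cl none B).2 hcl
  have c2 : Cl (twoA (cG C hC Y) N) A₂ := by
    refine (upO_cl (some i₁) univ).2 ?_
    intro t
    rcases t with d | b
    · have h4 : (netO Y N (some i₁)).1.aa (Sum.inl d) =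
        Sum.inl ((netO Y N (some i₁)).1.a d) := rfl
      rw [h4, AxPart_mem_dn, AxPart_mem_dn]
      exact iff_of_true (mem_univ _) (mem_univ _)
    · exact iff_of_false AxPart_dn_inr AxPart_dn_inr
  have c3 : Cl (twoA (cG C hC Y) N) A₃ := refl_cl h.refl c1
  have k1 : cut (twoS (cG C hC Y) N) A₁ = 4 := (upO_cut none B).trans hcut
  have k2 : cut (twoS (cG C hC Y) N) A₂ = 4 := upO_univ (some i₁)
  have k3 : cut (twoS (cG C hC Y) N) A₃ = 4 := (refl_cut h.refl A₁).trans k1
  -- two corners between `A₂` and `A₁`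
  set x₁ : (comp C Y).D ⊕ N.1.D := dO Y N (some i₁) (CompInj.lstD (Y i₁) true) with hx₁
  set y₁ : (comp C Y).D ⊕ N.1.D := dO Y N none (CompInj.lstD N false) with hy₁
  have hsx : twoS (cG C hC Y) N x₁ = dO Y N none (fstD N true) :=
    dO_s_out hC (Y := Y) (N := N) (o := some i₁) (o' := none) (b := true) (b' := true) hB.r2
  have hsy : twoS (cG C hC Y) N y₁ = dO Y N (some i₁) (fstD (Y i₁) false) :=
    dO_s_out hC (Y := Y) (N := N) (o := none) (o' := some i₁) (b := false) (b' := false) hB.r3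
  have q1 : x₁ ∈ A₂ := GpSer_mem_upO.2 ⟨_, rfl⟩
  have q2 : twoS (cG C hC Y) N x₁ ∈ A₁ := by rw [hsx]; exact UAx_mem.2 hft
  have q3 : y₁ ∈ A₁ := UAx_mem.2 hlf
  have q4 : twoS (cG C hC Y) N y₁ ∈ A₂ := by rw [hsy]; exact GpSer_mem_upO.2 ⟨_, rfl⟩
  have le12 : cut (twoS (cG C hC Y) N) (A₁ ∪ A₂) ≤ 4 :=
    GpPar_cut k1.le k2.le d12 q3 q4 q1 q2
  have le : cut (twoS (cG C hC Y) N) ((A₁ ∪ A₂) ∪ A₃) ≤ 4 := by
    refine GpPar_cut le12 k3.le ?_ (x := e (twoS (cG C hC Y) N y₁))
      (y := e (twoS (cG C hC Y) N x₁)) ?_ ?_ ?_ ?_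
    · intro t ht
      rcases mem_union.1 ht with ht | ht
      · exact d13 t ht
      · exact d23 t ht
    · exact mem_union_right _ (inv2 _ q4)
    · exact (congrArg (fun z => z ∈ A₃) (hes y₁)).mpr ((m3' y₁).2 q3)
    · exact (m3' _).2 q2
    · exact (congrArg (fun z => z ∈ A₁ ∪ A₂) (hes x₁)).mpr (mem_union_right _ (inv2 _ q1))
  have hrA : twoR (cG C hC Y) N ∉ (A₁ ∪ A₂) ∪ A₃ := by
    have h1 : twoR (cG C hC Y) N ∈ upO Y N none univ := GpSer_mem_upO.2 ⟨_, rfl⟩
    intro h0
    rcases mem_union.1 h0 with h0 | h2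
    · rcases mem_union.1 h0 with h2 | h2
      · exact hlt ((UAx_mem (Y := Y) (N := N) (o := none)).1 h2)
      · exact GpSer_dis (by simp) h1 h2
    · exact GpSer_dis (by simp) h1 (n3 _ h2)
  have ge : 4 ≤ cut (twoS (cG C hC Y) N) ((A₁ ∪ A₂) ∪ A₃) :=
    hG.ns _ ((c1.union c2).union c3) ⟨_, mem_union_left _ (mem_union_left _ q3)⟩
      (fun h => hrA (Finset.eq_univ_iff_forall.1 h _))
  have p1 : ∀ t ∈ bd (twoS (cG C hC Y) N) A₁, ∃ b,
      (twoS (cG C hC Y) N).SameCycle t (dO Y N none (CompInj.lstD N b)) :=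
    fun t ht => GpPar_bd hB (o := none) hpole ht
  have p2 : ∀ t ∈ bd (twoS (cG C hC Y) N) A₂, ∃ b,
      (twoS (cG C hC Y) N).SameCycle t (dO Y N none (CompInj.lstD N b)) := by
    intro t ht
    refine GpPar_bd hB (o := some i₁) ?_ ht
    intro t ht
    rcases t with d | b
    · rcases h5 : (netO Y N (some i₁)).1.s (Sum.inl d) with d' | b
      · exfalso
        rw [mem_bd, h5, AxPart_mem_dn, AxPart_mem_dn] at ht
        exact ht (iff_of_true (mem_univ _) (mem_univ _))
      · exact ⟨b, by rw [← h5]; exact GpA_sc _ _⟩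
    · exact ⟨b, Perm.SameCycle.refl _ _⟩
  have hcard := hred ((A₁ ∪ A₂) ∪ A₃) ((c1.union c2).union c3) ?_ (le_antisymm le ge) hrA ?_
  · have h1 : dO Y N none (fstD N true) ∈ (A₁ ∪ A₂) ∪ A₃ :=
      mem_union_left _ (mem_union_left _ (UAx_mem.2 hft))
    have h2 : twoA (cG C hC Y) N (dO Y N none (fstD N true)) ∈ (A₁ ∪ A₂) ∪ A₃ :=
      (((c1.union c2).union c3) _).2 h1
    have h3 : x₁ ∈ (A₁ ∪ A₂) ∪ A₃ := mem_union_left _ (mem_union_right _ q1)
    have h4 : 2 < ((A₁ ∪ A₂) ∪ A₃).card := by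
      refine Finset.two_lt_card.2 ⟨_, h1, _, h2, _, h3, (hG.fpf _).symm, ?_, ?_⟩
      · intro h5
        exact d12 _ (UAx_mem.2 hft) (h5 ▸ q1)
      · intro h5
        exact d12 _ ((c1 _).2 (UAx_mem.2 hft)) (h5 ▸ q1)
    exact absurd hcard (ne_of_gt h4)
  · intro t ht
    rcases mem_union.1 ht with ht | ht
    · rcases mem_union.1 ht with ht | ht
      · exact mem_union_right _ ((m3' t).2 ht)
      · exact mem_union_left _ (mem_union_right _ (inv2 t ht))
    · exact mem_union_left _ (mem_union_left _ ((m3 t).1 ht))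
  · intro t ht
    have h1 : t ∈ bd (twoS (cG C hC Y) N) A₁ ∨ t ∈ bd (twoS (cG C hC Y) N) A₂ ∨
        t ∈ bd (twoS (cG C hC Y) N) A₃ := by
      by_contra hcon
      push Not at hcon
      obtain ⟨h1, h2, h3⟩ := hcon
      rw [mem_bd, not_not] at h1 h2 h3
      apply mem_bd.1 ht
      rw [mem_union, mem_union, mem_union, mem_union, h1, h2, h3]
    rcases h1 with h1 | h1 | h1
    · obtain ⟨b, hb⟩ := p1 t h1
      exact GpPar_fix hB h hb
    · obtain ⟨b, hb⟩ := p2 t h1
      exact GpPar_fix hB h hb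
    · have h2 : e (twoS (cG C hC Y) N t) ∈ bd (twoS (cG C hC Y) N) A₁ := by
        refine mem_bd.2 fun h3 => mem_bd.1 h1 ?_
        exact (m3 t).trans (Iff.trans (Iff.of_eq (congrArg (fun z => z ∈ A₁) (hes t).symm))
          (h3.symm.trans (m3 _).symm))
      obtain ⟨b, hb⟩ := p1 _ h2
      have h3 : (twoS (cG C hC Y) N).SameCycle (e (twoS (cG C hC Y) N t)) (e t) :=
        (congrArg (fun z => (twoS (cG C hC Y) N).SameCycle (e (twoS (cG C hC Y) N t)) z)
          (hes t)).mp (GpA_sc (twoS (cG C hC Y) N) (e (twoS (cG C hC Y) N t)))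
      have h4 := GpPar_fix hB h (h3.symm.trans hb)
      exact ((congrArg (fun z => (twoS (cG C hC Y) N).SameCycle (e t) z) (hee t)).mp h4).symm

theorem GpPar_red3 (hB : GpParB C ψ₀ i₀ i₁) (h : UTw C hC Y N ψ₀ e)
    (h2 : Fintype.card (Y i₁).1.D = 2) (hpar : ¬ IsPar N.1) :
    MRed (twoA (cG C hC Y) N) (twoS (cG C hC Y) N) e (twoR (cG C hC Y) N) := by
  have hG : Good (twoA (cG C hC Y) N) (twoS (cG C hC Y) N) := two_good _ _
  intro A hcl hinv hcut hrA hends
  have hAne : A.Nonempty := by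
    rw [nonempty_iff_ne_empty]
    intro h1
    rw [h1] at hcut
    have h2 : cut (twoS (cG C hC Y) N) ∅ = 0 := by
      rw [cut_eq_two_mul]
      simp
    rw [h2] at hcut
    exact absurd hcut (by decide)
  have hmain : ∀ t ∈ A, t ∉ prN (cG C hC Y) N := by
    intro t₀ ht₀ h0
    obtain ⟨d₀, rfl⟩ := GpA_prN.1 h0
    apply hpar
    set B : Finset N.1.D := univ.filter fun d =>
      (Sum.inr d : (cG C hC Y).1.D ⊕ N.1.D) ∈ A with hBd
    have mB : ∀ d, d ∈ B ↔ (Sum.inr d : (cG C hC Y).1.D ⊕ N.1.D) ∈ A := by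
      intro d
      rw [hBd, mem_filter]
      exact ⟨fun h => h.2, fun h => ⟨mem_univ _, h⟩⟩
    refine par_of_two N.2 (B := dn B) ?_ AxPart_dn_inr ?_ ?_ ?_
    · intro t
      rcases t with d | b
      · have h1 : N.1.aa (Sum.inl d) = Sum.inl (N.1.a d) := rfl
        rw [h1, AxPart_mem_dn, AxPart_mem_dn, mB, mB]
        exact hcl (Sum.inr d)
      · exact iff_of_false AxPart_dn_inr AxPart_dn_inr
    · exact ⟨_, AxPart_mem_dn.2 ((mB d₀).2 ht₀)⟩
    · intro h1
      have h2 : (Sum.inl (CompInj.lstD N true) : N.1.T) ∈ dn B ∪ N.1.root := by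
        rw [h1]; exact mem_univ _
      rw [mem_union, AxPart_mem_dn, mB] at h2
      rcases h2 with h2 | h2
      · exact hrA h2
      · obtain ⟨b₁, hb₁⟩ := CompFour.mem_root.1 h2
        have h4 : (Sum.inl (CompInj.lstD N true) : N.1.D ⊕ Bool) = Sum.inr b₁ := hb₁
        simp at h4
    · intro t ht
      rcases t with d | b
      · rcases h2 : N.1.s (Sum.inl d) with d' | b
        · have h3 : (Sum.inr d : (cG C hC Y).1.D ⊕ N.1.D) ∈ bd (twoS (cG C hC Y) N) A := by
            rw [mem_bd, GpA_rr h2, ← mB, ← mB]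
            rw [mem_bd, h2, AxPart_mem_dn, AxPart_mem_dn] at ht
            exact ht
          have h4 := hends _ h3
          obtain ⟨d'', hd''⟩ := GpSer_e0 hB.psi h d
          have h5 : (twoS (cG C hC Y) N).SameCycle (dO Y N none d) (dO Y N (some i₀) d'') :=
            (congrArg (fun z => (twoS (cG C hC Y) N).SameCycle (dO Y N none d) z) hd'').mp h4
          obtain ⟨b, b', h6, -, -⟩ := sc_dO2 (by simp) h5
          exact ⟨b, h6⟩
        · exact ⟨b, by rw [← h2]; exact GpA_sc _ _⟩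
      · exact ⟨b, Perm.SameCycle.refl _ _⟩
  obtain ⟨B, hBA⟩ := GpSer_sub hB.psi h hinv hmain
  have h3 : A.card = B.card := (congrArg Finset.card hBA).trans (card_map _)
  have h4 : B.card ≤ 2 := by
    rw [← h2]
    exact card_le_univ B
  obtain ⟨t, ht⟩ := hAne
  have h5 : 2 ≤ A.card := GpPar_two hG.fpf hcl ht
  exact le_antisymm (h3.trans_le h4) h5

end bond

/-- the digon has a reflection -/
theorem GpPar_dig (z : GB) (h : Fintype.card z.1.D = 2) :
    ∃ φ : Perm z.1.T, TwI true false z.1 z.1 φ := by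
  have h1 : BIso z.1 digonB := eq_digon z.2 (by omega)
  obtain ⟨φ, hφ⟩ := BIso_iff.1 h1
  have h2 : TwI true false digonB digonB (Equiv.refl _) := by
    refine ⟨fun t => rfl, fun t => ?_, fun b => ?_⟩
    · rw [twS_true, Equiv.refl_apply, Equiv.refl_apply]
      exact (Perm.eq_inv_iff_eq.2 (by rcases t with d | b <;> rfl))
    · simp
  have h3 := (hφ.trans h2).trans hφ.symm
  exact ⟨_, h3⟩

theorem GpPar_val (w : Wt) {e : Perm ((comp (ddCore tri) (serNets x z)).D ⊕ N.1.D)}
    (h : UTw (ddCore tri) (dd_good tri_good) (serNets x z) N GpPar_p e)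
    (h2 : Fintype.card z.1.D = 2) :
    VT w (twoA (cG (ddCore tri) (dd_good tri_good) (serNets x z)) N)
      (twoS (cG (ddCore tri) (dd_good tri_good) (serNets x z)) N) e =
      w.bi ^ 2 * w.vx ^ 2 * (w.ax ^ 2 * w.dt ^ 2) * hW w N.1 ^ 2 := by
  have h1 := VT_comp h w
  obtain ⟨χ, hχ⟩ := TwI_iff.2 (GpSer_biso GpPar_tri h).1
  have h3 : hW w x.1 = hW w N.1 := hW_tw w hχ
  have e1 : puv w (ddCore tri) GpPar_p none N.1 = hW w N.1 := by
    unfold puv
    have k1 : ¬ GpPar_p (Sum.inr true) = Sum.inr true := by decide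
    have k2 : ¬ GpPar_p (Sum.inr true) = Sum.inr false := by decide
    exact (if_neg k1).trans (if_neg k2)
  have e2 : puv w (ddCore tri) GpPar_p (some true : Option (ddCore tri).I) x.1 = hW w x.1 := by
    unfold puv
    have k1 : ¬ GpPar_p (Sum.inl (true, true)) = Sum.inl (true, true) := by decide
    have k2 : ¬ GpPar_p (Sum.inl (true, true)) = Sum.inl (true, false) := by decide
    exact (if_neg k1).trans (if_neg k2)
  have e3 : puv w (ddCore tri) GpPar_p (some false : Option (ddCore tri).I) z.1 =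
      sv w false z.1 := by
    unfold puv
    have k1 : GpPar_p (Sum.inl (false, true)) = Sum.inl (false, true) := by decide
    exact if_pos k1
  have h4 : ∏ o : Option (ddCore tri).I, puv w (ddCore tri) GpPar_p o
      (netO (C := ddCore tri) (serNets x z) N o).1 = hW w N.1 * (hW w x.1 * sv w false z.1) := by
    rw [← e1, ← e2, ← e3, Fintype.prod_option]
    have h4 : ∏ i : (ddCore tri).I, puv w (ddCore tri) GpPar_p (some i)
        (netO (C := ddCore tri) (serNets x z) N (some i)).1 =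
        ∏ i : Bool, puv w (ddCore tri) GpPar_p (some i : Option (ddCore tri).I)
          (netO (C := ddCore tri) (serNets x z) N (some i : Option (ddCore tri).I)).1 := rfl
    rw [h4, Fintype.prod_bool]
    rfl
  rw [h1, h4, h3, GpPar_bis, bond_nV, sv_two w z.2 h2]
  ring

/-- Notation: `C = ddCore tri`, `Y = serNets x z`, parts `none` (`N`), `some true` (`x`), `some false` (`z`).  The vertices of the core (in the order of the rotation): `inr true, (true, true), (false, true)` and `inr false, (false, false), (true, false)`.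
Proof.  (1) Let `e` satisfy `GP` and not map the part of `K` into `prN`.  As in `gpB_ser` (with `tail_par`) `e (prN)` is the part of `x`, and `e` preserves the part of `z`.  `utw_exists`, `UTw.root_iff`: `ψ (inr b) = inl (true, b)`, and
`ψ (inl (false, true)) = ψ (C.s⁻¹ (inr true)) = C.s (inl (true, true)) = inl (false, true)`.  So `x` is isomorphic to the mirror image of `N`, and the whole part of `z` is an `AxI` (`uax_part` with `B = univ`), so `z` has 2 nonroot darts by `MRed`.  `N` is not parallel: otherwise there is a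
prefix `dn B` of `N` with `fstD true ∈ B`, `lstD false ∈ B`, `lstD true ∉ B` and cut 4 (see `swap_red`), and `A = B ∪ z ∪ e B` (as sets of darts of `twoS`) is invariant, closed, does not contain the root, its cut is at most `4 + 4 + 4 - 2 * 4` as there are two corners
between `B` and `z` (after `lstD z true` comes `fstD N true`; after `lstD N false` comes `fstD z false`) and two between `z` and `e B`; its boundary corners are at the two vertices of the core, which are fixed by `e`; contradiction to `MRed`.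
(2) Conversely let `BIso (twM true false N.1) x.1`, `z` with 2 nonroot darts (the digon, it has a reflection with root on the axis: `eq_digon`), `N` not parallel.  `utw_mk` gives `e`.  `max`: as in `gpB_ser` with `tail_par`.  `MRed`: let `A` be as in `MRed`, `B = A ∩ prN`.  If `B` is empty, `A` does not
meet the part of `x` either, so it is inside the part of `z` and has 2 elements.  Otherwise `B` is not everything (`r ∉ A`), and its boundary corners (in the net `N`) are next to the root darts or are boundary corners of `A` at vertices with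
darts of `prN` and of the part of `x`, so at poles (`sc_dO2`): `N` is parallel by `par_of_two`, contradiction.
(3) The weight: `VT_comp`; two bisected corners (`inr true` and `inl (true, false)`), `nV = 2` (`bond_nV`), factors `hW w N`, `hW w x`, `sv w false z = w.ax ^ 2 * w.dt ^ 2` (`sv_two`). -/
theorem gpB_par (w : Wt) {x z N : GB} (hz : ¬ IsPar z.1) :
    gpB w (cG (ddCore tri) (dd_good tri_good) (serNets x z)) N =
      if BIso (twM true false N.1) x.1 ∧ Fintype.card z.1.D = 2 ∧ ¬ IsPar N.1 then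
        w.bi ^ 2 * w.vx ^ 2 * (w.ax ^ 2 * w.dt ^ 2) * hW w N.1 ^ 2 else 0 := by
  have hT : ∀ E : Finset (comp (ddCore tri) (serNets x z)).T,
      Cl (comp (ddCore tri) (serNets x z)).aa E →
      cut (comp (ddCore tri) (serNets x z)).s E = 4 → Sum.inr true ∉ E →
      upS (C := ddCore tri) (serNets x z) true univ ⊆ E →
      E ∪ (comp (ddCore tri) (serNets x z)).root ≠ univ →
      E = upS (C := ddCore tri) (serNets x z) true univ :=
    fun E h1 h2 h3 h4 h5 => tail_par hz h1 h2 h3 h4 h5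
  have hsum := GpSer_sum (hC := dd_good tri_good) (N := N) hT GpPar_tri w
  rw [hsum]
  by_cases hex : ∃ e, UTw (ddCore tri) (dd_good tri_good) (serNets x z) N GpPar_p e
  · rw [dif_pos hex]
    have he := hex.choose_spec
    have h0 := (GpSer_biso GpPar_tri he).1
    by_cases h : Fintype.card z.1.D = 2 ∧ ¬ IsPar N.1
    · exact (if_pos (GpPar_red3 GpPar_bond he h.1 h.2)).trans
        ((GpPar_val w he h.1).trans (if_pos ⟨h0, h⟩).symm)
    · exact (if_neg fun h1 => h ⟨GpPar_red1 GpPar_bond he h1, GpPar_red2 GpPar_bond he h1⟩).trans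
        (if_neg fun h1 : _ ∧ _ => h h1.2).symm
  · rw [dif_neg hex, if_neg]
    rintro ⟨h1, h2, -⟩
    exact hex (GpSer_cmp (hC := dd_good tri_good) GpPar_tri h1 (GpPar_dig z h2))

end PGr

end
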