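import Pool.Agent.PGc.PrefType
import Pool.Agent.PGc.SerEq
import Pool.Agent.PGm.M05
import Pool.Agent.PGm.M06
import Pool.Agent.PGm.M09
import Pool.Agent.PGm.M10
import Pool.Agent.PGm.M14
import Pool.Agent.PGm.M21
import Pool.Agent.PGr.Cut
import Pool.Agent.PGr.ParProps
import Pool.Agent.PGr.SerExcl
import Pool.Agent.PGr.SerInj
import Pool.Agent.PGr.SerRl

section
/-! # Module BdCore: copies of a net in parallel -/

set_option linter.unusedSectionVars false

namespace PGr
open Equiv Finset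
open scoped ENNReal Classical

section
variable {k : ℕ}

/-- the edges of the bond, turned by one -/
def BdCore_r (k : ℕ) : Perm (bondC k).K := finRotate k

/-- the edge 0 -/
def BdCore_0 (hk : 2 ≤ k) : (bondC k).K := (⟨0, by omega⟩ : Fin k)

theorem BdCore_aa (i : (bondC k).K) (b : Bool) :
    (bondC k).aa (Sum.inl (i, b)) = Sum.inl (i, !b) := rfl

theorem BdCore_s_true (i : (bondC k).K) :
    (bondC k).s (Sum.inl (i, true)) = Sum.inl (BdCore_r k i, true) := rfl

theorem BdCore_s_false (i : (bondC k).K) :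
    (bondC k).s (Sum.inl (i, false)) = Sum.inl ((BdCore_r k).symm i, false) := rfl

theorem BdCore_rot_sc' (hk : 2 ≤ k) (i j : Fin k) : (finRotate k).SameCycle i j := by
  have h1 : (finRotate k).IsCycle := isCycle_finRotate_of_le hk
  have h2 : ∀ x, finRotate k x ≠ x := by
    intro x
    have h3 : x ∈ (finRotate k).support := by
      rw [support_finRotate_of_le hk]
      exact mem_univ _
    exact Perm.mem_support.1 h3
  exact h1.sameCycle (h2 i) (h2 j)

theorem BdCore_card (hk : 2 ≤ k) : orderOf (finRotate k) = k := by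
  have h1 : (finRotate k).IsCycle := isCycle_finRotate_of_le hk
  rw [h1.orderOf, support_finRotate_of_le hk, card_univ, Fintype.card_fin]

theorem BdCore_pow' (hk : 2 ≤ k) (i : Fin k) : ((finRotate k) ^ k) i = i := by
  have h := pow_orderOf_eq_one (finRotate k)
  rw [BdCore_card hk] at h
  rw [h]
  rfl

theorem BdCore_free' (hk : 2 ≤ k) (i : Fin k) (n : ℕ) (h0 : 0 < n) (h1 : n < k) :
    ((finRotate k) ^ n) i ≠ i := by
  intro h
  have h2 : (finRotate k) ^ n = 1 := by
    refine Equiv.ext fun j => ?_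
    obtain ⟨m, hm⟩ := BdCore_rot_sc' hk i j
    rw [← hm, Perm.one_apply, ← Perm.mul_apply]
    have h4 : (finRotate k) ^ n * (finRotate k) ^ m = (finRotate k) ^ m * (finRotate k) ^ n := by
      rw [← zpow_natCast, ← zpow_add, ← zpow_add, add_comm]
    rw [h4, Perm.mul_apply, h]
  have h5 := orderOf_dvd_of_pow_eq_one h2
  rw [BdCore_card hk] at h5
  exact absurd (Nat.le_of_dvd h0 h5) (by omega)

theorem BdCore_rot_sc (hk : 2 ≤ k) (i j : (bondC k).K) : (BdCore_r k).SameCycle i j :=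
  BdCore_rot_sc' hk i j

theorem BdCore_pow (hk : 2 ≤ k) (i : (bondC k).K) : ((BdCore_r k) ^ k) i = i := BdCore_pow' hk i

theorem BdCore_free (hk : 2 ≤ k) (i : (bondC k).K) (n : ℕ) (h0 : 0 < n) (h1 : n < k) :
    ((BdCore_r k) ^ n) i ≠ i := BdCore_free' hk i n h0 h1

theorem BdCore_pow_s (b : Bool) (n : ℕ) (i : (bondC k).K) :
    ((bondC k).s ^ n) (Sum.inl (i, b)) =
      Sum.inl ((bif b then (BdCore_r k) ^ n else ((BdCore_r k)⁻¹) ^ n) i, b) := by
  induction n with
  | zero => cases b <;> rfl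
  | succ n ih =>
    rw [pow_succ', Perm.mul_apply, ih]
    cases b
    · rw [BdCore_s_false]
      show (Sum.inl ((BdCore_r k).symm ((((BdCore_r k)⁻¹) ^ n) i), false) :
        (bondC k).T) = Sum.inl ((((BdCore_r k)⁻¹) ^ (n + 1)) i, false)
      rw [pow_succ', Perm.mul_apply]
      rfl
    · rw [BdCore_s_true]
      show (Sum.inl ((BdCore_r k) (((BdCore_r k) ^ n) i), true) :
        (bondC k).T) = Sum.inl (((BdCore_r k) ^ (n + 1)) i, true)
      rw [pow_succ', Perm.mul_apply]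

theorem BdCore_sc (hk : 2 ≤ k) (i j : (bondC k).K) (b b' : Bool) :
    (bondC k).s.SameCycle (Sum.inl (i, b)) (Sum.inl (j, b')) ↔ b = b' := by
  constructor
  · intro h
    obtain ⟨n, -, hn⟩ := h.exists_pow_eq'
    rw [BdCore_pow_s] at hn
    have h1 := Sum.inl_injective hn
    exact (Prod.mk.inj h1).2
  · rintro rfl
    cases b
    · have h0 : ((BdCore_r k)⁻¹).SameCycle i j := Perm.sameCycle_inv.2 (BdCore_rot_sc hk i j)
      obtain ⟨n, -, hn⟩ := h0.exists_pow_eq'
      refine ⟨n, ?_⟩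
      rw [zpow_natCast, BdCore_pow_s]
      exact congrArg (fun x => (Sum.inl (x, false) : (bondC k).T)) hn
    · obtain ⟨n, -, hn⟩ := (BdCore_rot_sc hk i j).exists_pow_eq'
      refine ⟨n, ?_⟩
      rw [zpow_natCast, BdCore_pow_s]
      exact congrArg (fun x => (Sum.inl (x, true) : (bondC k).T)) hn

/-- a nonempty proper set of residues has a first element and a last element -/
theorem BdCore_change (hk : 2 ≤ k) {J : (bondC k).K → Prop} {i j : (bondC k).K} (hi : J i) (hj : ¬ J j) :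
    ∃ x, J x ∧ ¬ J (BdCore_r k x) := by
  by_contra hcon
  push Not at hcon
  obtain ⟨n, -, hn⟩ := (BdCore_rot_sc hk i j).exists_pow_eq'
  apply hj
  rw [← hn]
  clear hn
  induction n with
  | zero => exact hi
  | succ n ih =>
    rw [pow_succ', Perm.mul_apply]
    exact hcon _ ih

/-- The map with two vertices and `k ≥ 2` edges: the darts `(i, true)` form one cycle, the darts `(i, false)` the other one.
`NS`: a closed proper nonempty set of edges has at least two boundary corners at each vertex.  `Pl`: Euler's formula with `k`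
faces (`Pl_iff_euler`), or: `star_good` for the link inserted several times, or directly. -/
theorem bondC_good (hk : 2 ≤ k) : (bondC k).IsGood where
  inv := by
    rintro (⟨i, b⟩ | x)
    · rw [BdCore_aa, BdCore_aa, Bool.not_not]
    · exact x.elim
  fpf := by
    rintro (⟨i, b⟩ | x)
    · rw [BdCore_aa]
      intro h
      have h1 := (Prod.mk.inj (Sum.inl_injective h)).2
      cases b <;> simp at h1
    · exact x.elim
  ns := by
    intro A hA hne hu
    have hcl : ∀ i b, (Sum.inl (i, b) : (bondC k).T) ∈ A ↔ (Sum.inl (i, true) : (bondC k).T) ∈ A := by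
      intro i b
      cases b
      · exact hA (Sum.inl (i, true))
      · exact Iff.rfl
    let J : (bondC k).K → Prop := fun i => (Sum.inl (i, true) : (bondC k).T) ∈ A
    obtain ⟨x, hx⟩ : ∃ x, J x := by
      obtain ⟨t, ht⟩ := hne
      rcases t with ⟨i, b⟩ | t
      · exact ⟨i, (hcl i b).1 ht⟩
      · exact t.elim
    obtain ⟨y, hy⟩ : ∃ y, ¬ J y := by
      by_contra hcon
      push Not at hcon
      apply hu
      rw [eq_univ_iff_forall]
      rintro (⟨i, b⟩ | t)
      · exact (hcl i b).2 (hcon i)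
      · exact t.elim
    obtain ⟨u, hu1, hu2⟩ := BdCore_change hk hx hy
    obtain ⟨v, hv1, hv2⟩ := BdCore_change hk (J := fun i => ¬ J i) hy (not_not.2 hx)
    rw [not_not] at hv2
    have huv : u ≠ v := fun h => hv1 (h ▸ hu1)
    have huv' : BdCore_r k u ≠ BdCore_r k v := fun h => huv ((BdCore_r k).injective h)
    have hB : ({Sum.inl (u, true), Sum.inl (v, true), Sum.inl (BdCore_r k u, false),
        Sum.inl (BdCore_r k v, false)} : Finset (bondC k).T).card = 4 := by
      have e1 : (Sum.inl (u, true) : (bondC k).T) ≠ Sum.inl (v, true) := fun h =>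
        huv (Prod.mk.inj (Sum.inl_injective h)).1
      have e2 : (Sum.inl (BdCore_r k u, false) : (bondC k).T) ≠ Sum.inl (BdCore_r k v, false) :=
        fun h => huv' (Prod.mk.inj (Sum.inl_injective h)).1
      have e3 : ∀ i j : (bondC k).K, (Sum.inl (i, true) : (bondC k).T) ≠ Sum.inl (j, false) := by
        intro i j h
        have := (Prod.mk.inj (Sum.inl_injective h)).2
        simp at this
      rw [card_insert_of_notMem, card_insert_of_notMem, card_insert_of_notMem, card_singleton]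
      · rw [mem_singleton]; exact e2
      · rw [mem_insert, mem_singleton]
        rintro (h | h)
        · exact e3 _ _ h
        · exact e3 _ _ h
      · rw [mem_insert, mem_insert, mem_singleton]
        rintro (h | h | h)
        · exact e1 h
        · exact e3 _ _ h
        · exact e3 _ _ h
    rw [← hB]
    refine card_le_card fun t ht => ?_
    rw [mem_bd]
    rw [mem_insert, mem_insert, mem_insert, mem_singleton] at ht
    rcases ht with rfl | rfl | rfl | rfl
    · rw [BdCore_s_true]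
      exact fun h => hu2 (h.1 hu1)
    · rw [BdCore_s_true]
      exact fun h => hv1 (h.2 hv2)
    · rw [BdCore_s_false, Equiv.symm_apply_apply, hcl (BdCore_r k u) false, hcl u false]
      exact fun h => hu2 (h.2 hu1)
    · rw [BdCore_s_false, Equiv.symm_apply_apply, hcl (BdCore_r k v) false, hcl v false]
      exact fun h => hv1 (h.1 hv2)
  pl := by
    intro p q hpq
    refine ⟨fun t => match t with
      | Sum.inl x => p (Sum.inl (x.1, true))
      | Sum.inr _ => 0, ?_, ?_⟩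
    · rintro (⟨i, b⟩ | x)
      · rfl
      · exact x.elim
    · rintro (⟨i, b⟩ | x)
      · cases b
        · obtain ⟨j, rfl⟩ := (BdCore_r k).surjective i
          rw [BdCore_s_false, Equiv.symm_apply_apply]
          have h1 := hpq (Sum.inl (BdCore_r k j, false))
          have h2 := hpq (Sum.inl (j, true))
          rw [BdCore_s_false, Equiv.symm_apply_apply, BdCore_aa] at h1
          rw [BdCore_s_true, BdCore_aa] at h2
          show p (Sum.inl (BdCore_r k j, true)) + p (Sum.inl (j, true)) = _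
          simp only [Bool.not_false, Bool.not_true] at h1 h2
          generalize p (Sum.inl (BdCore_r k j, true)) = x1 at *
          generalize p (Sum.inl (BdCore_r k j, false)) = x2 at *
          generalize p (Sum.inl (j, true)) = x3 at *
          generalize p (Sum.inl (j, false)) = x4 at *
          generalize q (Sum.inl (BdCore_r k j, true)) = y1 at *
          generalize q (Sum.inl (j, false)) = y4 at *
          revert h1 h2
          revert x1 x2 x3 x4 y1 y4
          decide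
        · rfl
      · exact x.elim
  big := by
    have h : Fintype.card (bondC k).T = 2 * k := by
      show Fintype.card ((Fin k × Bool) ⊕ Empty) = _
      simp [mul_comm]
    omega

theorem bondC_nV (hk : 2 ≤ k) : nV (bondC k).s = 2 := by
  let e : Quotient (Perm.SameCycle.setoid (bondC k).s) ≃ Bool :=
    { toFun := fun q => Quotient.liftOn q (fun t : (bondC k).T => match t with
        | Sum.inl x => x.2
        | Sum.inr x => x.elim) (by
          rintro (⟨i, b⟩ | x) (⟨j, b'⟩ | y) h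
          · exact (BdCore_sc hk i j b b').1 h
          · exact y.elim
          · exact x.elim
          · exact x.elim)
      invFun := fun b => Quotient.mk _ (Sum.inl (BdCore_0 hk, b))
      left_inv := fun q => by
        induction q using Quotient.inductionOn with
        | h t =>
          rcases t with ⟨i, b⟩ | x
          · exact Quotient.sound ((BdCore_sc hk _ i b b).2 rfl)
          · exact x.elim
      right_inv := fun b => rfl }
  rw [nV, Nat.card_congr e, Nat.card_eq_fintype_card, Fintype.card_bool]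

theorem bFT_good (hk : 2 ≤ k) (N : GB) : Good (bFa k N) (bFs k N) :=
  GCo.F_good (bondC k) (fun _ => N) (bondC_good hk)

theorem BdCore_j (N : GB) (i j : (bondC k).K) (b b' : Bool) (hk : 2 ≤ k) :
    (bFs k N).SameCycle (gjump (bondC k) (fun _ => N) (Sum.inl (i, b)))
      (gjump (bondC k) (fun _ => N) (Sum.inl (j, b'))) ↔ b = b' :=
  (GCo.sc_jump (bondC k) (fun _ => N)).trans (BdCore_sc hk i j b b')

theorem BdCore_pole (N : GB) (i : (bondC k).K) {b : Bool} {d : N.1.D}
    (h : N.1.s.SameCycle (Sum.inl d) (Sum.inr b)) :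
    (bFs k N).SameCycle (gjump (bondC k) (fun _ => N) (Sum.inl (i, b))) (Sum.inl ⟨i, d⟩) :=
  GCo.sc_pole (bondC k) (fun _ => N) h

/-- the darts at the first vertex -/
theorem brt_iff (hk : 2 ≤ k) (N : GB) {d : N.1.D} (hd : AtP N.1 d) (t : bFT k N) :
    (bFs k N).SameCycle (brt hk N d) t ↔ ∃ i d', t = Sum.inl ⟨i, d'⟩ ∧ AtP N.1 d' := by
  have h0 := BdCore_pole (k := k) N (BdCore_0 hk) hd.symm
  constructor
  · intro h
    rcases t with ⟨i, d'⟩ | x
    · refine ⟨i, d', rfl, ?_⟩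
      by_cases hin : ∀ b, ¬ N.1.s.SameCycle (Sum.inl d') (Sum.inr b)
      · have h1 := (GCo.sc_inner (bondC k) (fun _ => N) (i := i) hin (brt hk N d)).1 h.symm
        obtain ⟨d'', h2, h3⟩ := h1
        have h4 := Sum.inl_injective h2
        obtain ⟨h5, h6⟩ := Sigma.mk.inj h4
        subst h5
        have h7 := eq_of_heq h6
        subst h7
        exact absurd (h3.trans hd.symm) (hin true)
      · push Not at hin
        obtain ⟨b, hb⟩ := hin
        have h1 := BdCore_pole (k := k) N i hb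
        have h2 := (h0.trans h).trans h1.symm
        have h3 := (BdCore_j N _ i true b hk).1 h2
        subst h3
        exact hb.symm
    · exact x.elim
  · rintro ⟨i, d', rfl, h⟩
    have h1 := BdCore_pole (k := k) N i h.symm
    exact (h0.symm.trans ((BdCore_j N _ i true true hk).2 rfl)).trans h1

/-- the rotation of the bond -/
def BdCore_rho (k : ℕ) (N : GB) : Perm (bFT k N) where
  toFun t := match t with
    | Sum.inl x => Sum.inl ⟨BdCore_r k x.1, x.2⟩
    | Sum.inr x => x.elim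
  invFun t := match t with
    | Sum.inl x => Sum.inl ⟨(BdCore_r k).symm x.1, x.2⟩
    | Sum.inr x => x.elim
  left_inv := by
    rintro (⟨i, d⟩ | x)
    · show (Sum.inl ⟨(BdCore_r k).symm (BdCore_r k i), d⟩ : bFT k N) = Sum.inl ⟨i, d⟩
      rw [Equiv.symm_apply_apply]
    · exact x.elim
  right_inv := by
    rintro (⟨i, d⟩ | x)
    · show (Sum.inl ⟨BdCore_r k ((BdCore_r k).symm i), d⟩ : bFT k N) = Sum.inl ⟨i, d⟩
      rw [Equiv.apply_symm_apply]
    · exact x.elim

theorem BdCore_rho_inl (N : GB) (i : (bondC k).K) (d : N.1.D) :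
    BdCore_rho k N (Sum.inl ⟨i, d⟩) = Sum.inl ⟨BdCore_r k i, d⟩ := rfl

theorem BdCore_rho_pow (N : GB) (n : ℕ) (i : (bondC k).K) (d : N.1.D) :
    (BdCore_rho k N ^ n) (Sum.inl ⟨i, d⟩) = Sum.inl ⟨((BdCore_r k) ^ n) i, d⟩ := by
  induction n with
  | zero => rfl
  | succ n ih =>
    rw [pow_succ', Perm.mul_apply, ih, pow_succ', Perm.mul_apply]
    rfl

theorem BdCore_rho_jump (N : GB) (i : (bondC k).K) (b : Bool) :
    BdCore_rho k N (gjump (bondC k) (fun _ => N) (Sum.inl (i, b))) =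
      gjump (bondC k) (fun _ => N) (Sum.inl (BdCore_r k i, b)) := rfl

theorem BdCore_rs (N : GB) (t : bFT k N) :
    BdCore_rho k N (bFs k N t) = bFs k N (BdCore_rho k N t) := by
  rcases t with ⟨i, d⟩ | x
  · rw [BdCore_rho_inl]
    rcases h : N.1.s (Sum.inl d) with d' | b
    · have h1 : bFs k N (Sum.inl ⟨i, d⟩) = Sum.inl ⟨i, d'⟩ :=
        GCo.Fs_in (bondC k) (fun _ => N) (i := i) h
      have h2 : bFs k N (Sum.inl ⟨BdCore_r k i, d⟩) = Sum.inl ⟨BdCore_r k i, d'⟩ :=
        GCo.Fs_in (bondC k) (fun _ => N) (i := BdCore_r k i) h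
      rw [h1, h2]
      rfl
    · have h1 : bFs k N (Sum.inl ⟨i, d⟩) =
          gjump (bondC k) (fun _ => N) ((bondC k).s (Sum.inl (i, b))) :=
        GCo.Fs_out (bondC k) (fun _ => N) (i := i) h
      have h2 : bFs k N (Sum.inl ⟨BdCore_r k i, d⟩) =
          gjump (bondC k) (fun _ => N) ((bondC k).s (Sum.inl (BdCore_r k i, b))) :=
        GCo.Fs_out (bondC k) (fun _ => N) (i := BdCore_r k i) h
      rw [h1, h2]
      cases b
      · rw [BdCore_s_false, BdCore_s_false, BdCore_rho_jump, Equiv.apply_symm_apply,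
          Equiv.symm_apply_apply]
      · rw [BdCore_s_true, BdCore_s_true, BdCore_rho_jump]
  · exact x.elim

theorem BdCore_isRot (hk : 2 ≤ k) (N : GB) {d : N.1.D} (hd : AtP N.1 d) :
    Rot (bFa k N) (bFs k N) (BdCore_rho k N) k (brt hk N d) where
  ra := by
    rintro (⟨i, d'⟩ | x)
    · rfl
    · exact x.elim
  rs := BdCore_rs N
  k2 := hk
  pow := by
    rintro (⟨i, d'⟩ | x)
    · rw [BdCore_rho_pow, BdCore_pow hk]
    · exact x.elim
  free := by
    rintro (⟨i, d'⟩ | x) n h0 h1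
    · rw [BdCore_rho_pow]
      intro h
      have h2 := Sum.inl_injective h
      rw [Sigma.mk.injEq] at h2
      exact BdCore_free hk i n h0 h1 h2.1
    · exact x.elim
  root := by
    rw [brt_iff hk N hd]
    exact ⟨_, d, rfl, hd⟩

theorem BdCore_mem (N : GB) (i j : (bondC k).K) (d : N.1.D) :
    (Sum.inl ⟨j, d⟩ : bFT k N) ∈ (bondC k).part (fun _ => N) i ↔ j = i := by
  rw [GCo.mem_part]
  constructor
  · rintro ⟨d', h⟩
    have h2 := Sum.inl_injective h
    rw [Sigma.mk.injEq] at h2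
    exact h2.1
  · rintro rfl
    exact ⟨d, rfl⟩

theorem BdCore_VS (hk : 2 ≤ k) (N : GB) {d : N.1.D} (hd : AtP N.1 d) (i : (bondC k).K) :
    VS (bFa k N) (bFs k N) (BdCore_rho k N) k (brt hk N d) ((bondC k).part (fun _ => N) i) where
  cl := GCo.part_cl (bondC k) (fun _ => N) i
  cut4 := GCo.part_cut (bondC k) (fun _ => N) (bondC_good hk) i
  root := ⟨Sum.inl ⟨i, d⟩, (BdCore_mem N i i d).2 rfl, (brt_iff hk N hd _).2 ⟨i, d, rfl, hd⟩⟩
  disj := by
    rintro n h0 h1 (⟨j, d'⟩ | x) ht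
    · rw [BdCore_mem] at ht
      subst ht
      rw [BdCore_rho_pow, BdCore_mem]
      exact BdCore_free hk j n h0 h1
    · exact x.elim

theorem BdCore_Bd (hk : 2 ≤ k) (N : GB) {d : N.1.D} (hd : AtP N.1 d) :
    Bd (bFa k N) (bFs k N) (BdCore_rho k N) k (brt hk N d) := by
  refine ⟨_, BdCore_VS hk N hd (BdCore_0 hk), ?_⟩
  rintro (⟨j, d'⟩ | x)
  · obtain ⟨n, -, hn⟩ := (BdCore_rot_sc hk j (BdCore_0 hk)).exists_pow_eq'
    refine ⟨n, ?_⟩
    rw [BdCore_rho_pow, BdCore_mem]
    exact hn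
  · exact x.elim

theorem BdCore_PV (hk : 2 ≤ k) (N : GB) {d : N.1.D} (hd : AtP N.1 d) :
    PV (bFs k N) (BdCore_rho k N) (brt hk N d) := by
  refine ⟨gjump (bondC k) (fun _ => N) (Sum.inl (BdCore_0 hk, false)), ?_, ?_⟩
  · intro h
    have h0 := BdCore_pole (k := k) N (BdCore_0 hk) hd.symm
    have h1 := (BdCore_j N _ _ true false hk).1 (h0.trans h)
    simp at h1
  · rw [BdCore_rho_jump]
    exact (BdCore_j N _ _ false false hk).2 rfl

/-- the rotation `(i, d) ↦ (i + 1, d)` (`finRotate`), of order `k`; the part 0 is a `VS` whose translates cover; the other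
pole is the second vertex -/
theorem bFT_rot (hk : 2 ≤ k) (N : GB) {d : N.1.D} (hd : AtP N.1 d) : ∃ ρ : Perm (bFT k N),
    Rot (bFa k N) (bFs k N) ρ k (brt hk N d) ∧
    (∀ i d', ρ (Sum.inl ⟨i, d'⟩) = Sum.inl ⟨finRotate k i, d'⟩) ∧
    (∀ i, VS (bFa k N) (bFs k N) ρ k (brt hk N d) ((bondC k).part (fun _ => N) i)) ∧
    Bd (bFa k N) (bFs k N) ρ k (brt hk N d) ∧ PV (bFs k N) ρ (brt hk N d) :=
  ⟨BdCore_rho k N, BdCore_isRot hk N hd, fun _ _ => rfl, BdCore_VS hk N hd, BdCore_Bd hk N hd,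
    BdCore_PV hk N hd⟩

/-- the class of the bond with root dart `d` in the copy 0 -/
noncomputable def bcls (hk : 2 ≤ k) (N : GB) (d : N.1.D) : GC :=
  gcl (bFa k N) (bFs k N) (brt hk N d) (bFT_good hk N)

theorem isBd_bcls (hk : 2 ≤ k) (N : GB) {d : N.1.D} (hd : AtP N.1 d) :
    IsBd k (bcls hk N d).rep.1 :=
  (isBd_gcl (bFT_good hk N) (BdCore_isRot hk N hd)).2 (BdCore_Bd hk N hd)

theorem BdCore_dg (hk : 2 ≤ k) (N : GB) {d : N.1.D} (hd : AtP N.1 d) :
    dgs (bFs k N) (brt hk N d) = k * pd N.1 := by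
  have h0 := BdCore_pole (k := k) N (BdCore_0 hk) hd.symm
  have h1 : dgs (bFs k N) (brt hk N d) = dgs (bFs k N)
      (gjump (bondC k) (fun _ => N) (Sum.inl (BdCore_0 hk, true))) := by
    rw [dgs, dgs, minimalPeriod_eq_card, minimalPeriod_eq_card]
    congr 1
    ext t
    simp only [mem_filter, mem_univ, true_and]
    exact ⟨fun h => h0.trans h, fun h => h0.symm.trans h⟩
  rw [h1]
  have h2 := GCo.F_dg (bondC k) (fun _ => N) (bondC_good hk)
    (Sum.inl (BdCore_0 hk, true))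
  rw [h2]
  have h3 : ((univ : Finset (bondC k).T).filter (fun y =>
      (bondC k).s.SameCycle (Sum.inl (BdCore_0 hk, true)) y)) =
      (univ : Finset (bondC k).K).map ⟨fun i => (Sum.inl (i, true) : (bondC k).T), fun i j h =>
        (Prod.mk.inj (Sum.inl_injective h)).1⟩ := by
    ext t
    rw [mem_filter, mem_map]
    simp only [mem_univ, true_and, Function.Embedding.coeFn_mk]
    rcases t with ⟨i, b⟩ | x
    · constructor
      · intro h
        have h4 := (BdCore_sc hk _ i true b).1 h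
        subst h4
        exact ⟨i, rfl⟩
      · rintro ⟨j, hj⟩
        rw [← hj]
        exact (BdCore_sc hk _ j true true).2 rfl
    · exact x.elim
  rw [h3, sum_map]
  have h4 : ∀ i : (bondC k).K, (bondC k).wt (fun _ => N) (Sum.inl (i, true)) = pd N.1 := fun i => rfl
  refine (Finset.sum_congr rfl (fun i _ => h4 i)).trans ?_
  have hK : Fintype.card (bondC k).K = k := Fintype.card_fin k
  rw [sum_const, card_univ, hK, smul_eq_mul]

/-- `nV = 2 + k * (nV N - 2)` (`GCo.F_nV`), two fixed vertices; faces: Euler's formula, `k * (nF N - 1)`, none of them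
fixed; `k * |D| / 2` edges, none reversed; degree `k * pd N` (`GCo.F_dg`) -/
theorem wV_bcls (hk : 2 ≤ k) (N : GB) {d : N.1.D} (hd : AtP N.1 d) (S F Y kv kf ke Z : ℝ≥0∞) :
    wV k S F Y kv kf ke Z (bcls hk N d).rep.1 = kv * nw S F Y Z N.1 ^ k := by
  have hg := bFT_good hk N
  have hr := BdCore_isRot hk N hd
  have h1 : wV k S F Y kv kf ke Z (bcls hk N d).rep.1 =
      wR S F Y kv kf ke Z (bFa k N) (bFs k N) (BdCore_rho k N) (brt hk N d) :=
    wV_gcl S F Y kv kf ke Z hg hr
  rw [h1, wR]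
  have hpv := BdCore_PV hk N hd
  obtain ⟨f1, f2, f3⟩ : nFix (bFs k N) (BdCore_rho k N) = 2 ∧
      nFix (bFa k N * bFs k N) (BdCore_rho k N) = 0 ∧ nFix (bFa k N) (BdCore_rho k N) = 0 := by
    rcases Rot.trichotomy hg hr with h | h | h
    · exact ⟨h.2.2.2.1, h.2.2.2.2.1, h.2.2.2.2.2⟩
    · exact absurd hpv h.1
    · exact absurd hpv h.1
  rw [f1, f2, f3]
  have hV : nV (bFs k N) - 2 = k * (nV N.1.s - 2) := by
    have h2 := GCo.F_nV (bondC k) (fun _ => N) (bondC_good hk)
    rw [bondC_nV hk] at h2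
    have h3 : Fintype.card (bondC k).K = k := Fintype.card_fin k
    have h4 : (∑ i : (bondC k).K, nV ((fun _ : (bondC k).K => N) i).1.s) = k * nV N.1.s := by
      rw [sum_const, card_univ, h3, smul_eq_mul]
    have h5 : nV ((bondC k).Fs (fun _ => N)) + 2 * k = 2 + k * nV N.1.s := by
      rw [← h4, ← h2, h3]
    have h6 : 2 ≤ nV N.1.s := Good.two_le_nV N.2
    obtain ⟨m, hm⟩ := Nat.exists_eq_add_of_le h6
    rw [hm] at h5 ⊢
    have h7 : nV (bFs k N) + 2 * k = 2 + k * (2 + m) := h5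
    have h8 : k * (2 + m) = 2 * k + k * m := by ring
    rw [h8] at h7
    have h9 : 2 + m - 2 = m := by omega
    rw [h9]
    omega
  have hcard : Fintype.card (bFT k N) = k * Fintype.card N.1.D := by
    have h2 := GCo.F_card (bondC k) (fun _ => N)
    have h3 : Fintype.card (bondC k).R = 0 := rfl
    have h4 : Fintype.card (bondC k).K = k := Fintype.card_fin k
    rw [sum_const, card_univ, h3, h4, smul_eq_mul, add_zero] at h2
    exact h2
  have hE := hg.euler
  have hEN := N.2.euler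
  have hDT : Fintype.card N.1.T = Fintype.card N.1.D + 2 := by
    show Fintype.card (N.1.D ⊕ Bool) = _
    rw [Fintype.card_sum, Fintype.card_bool]
  obtain ⟨m, -, hm⟩ := card_D_even N.2
  have hY : Fintype.card (bFT k N) / 2 - 0 = k * (Fintype.card N.1.D / 2) := by
    rw [hcard, hm, Nat.sub_zero]
    have h3 : k * (2 * m) = 2 * (k * m) := by ring
    rw [h3, Nat.mul_div_cancel_left _ (by norm_num), Nat.mul_div_cancel_left _ (by norm_num)]
  have hF : nV (bFa k N * bFs k N) - 0 = k * (nV (N.1.aa * N.1.s) - 1) := by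
    have h2 : 2 ≤ nV N.1.s := Good.two_le_nV N.2
    have h2' : 2 ≤ nV (bFs k N) := Good.two_le_nV hg
    obtain ⟨v, hv⟩ := Nat.exists_eq_add_of_le h2
    rw [hDT, hm] at hEN
    have h3 : (2 * m + 2) / 2 = m + 1 := by omega
    rw [h3, hv] at hEN
    rw [hv] at hV
    have h4 : 2 + v - 2 = v := by omega
    rw [h4] at hV
    have h5 : Fintype.card (bFT k N) / 2 = k * m := by
      have h6 := hY
      rw [hm, Nat.mul_div_cancel_left _ (by norm_num)] at h6
      omega
    rw [h5] at hE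
    obtain ⟨w, hw⟩ : ∃ w, nV (N.1.aa * N.1.s) = w + 1 := ⟨nV (N.1.aa * N.1.s) - 1, by
      have : 2 ≤ nV (N.1.aa * N.1.s) := Good.two_le_nV N.2.dual
      omega⟩
    rw [hw] at hEN ⊢
    have h7 : m = v + w := by omega
    have h8 : w + 1 - 1 = w := by omega
    rw [h8]
    rw [h7] at hE
    have h9 : k * (v + w) = k * v + k * w := by ring
    rw [h9] at hE
    omega
  rw [hV, hF, hY, BdCore_dg hk N hd, nw]
  simp only [pow_zero, mul_one, Nat.add_one_sub_one, pow_one]
  rw [mul_pow, mul_pow, mul_pow, ← pow_mul, ← pow_mul, ← pow_mul, ← pow_mul]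
  simp only [mul_comm k]
  ring

end

end PGr

end

section
/-! # Module FanDec: a map with a rotation which is not a bond is a fan -/

set_option linter.unusedSectionVars false

namespace PGr
open Equiv Finset

section lib
variable {T : Type} [Fintype T] [DecidableEq T] {a s : Perm T}

/-- inside a set of edges of cut 4 the rotation leads from a dart to the exit at its vertex -/
theorem FanDec_walk (h : Good a s) {A : Finset T} (hA : Cl a A) (h4 : cut s A = 4) {t z : T}
    (ht : t ∈ A) (hz : z ∈ A) (hz' : s z ∉ A) (hsc : s.SameCycle t z) :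
    ∃ m, (s ^ m) t = z ∧ ∀ i < m, (s ^ i) t ∈ A ∧ (s ^ (i + 1)) t ∈ A := by
  classical
  have hex : ∃ j, (s ^ j) t ∈ A ∧ (s ^ (j + 1)) t ∉ A := by
    obtain ⟨i, _, hi⟩ := hsc.exists_pow_eq'
    exact ⟨i, by rw [hi]; exact hz, by rw [pow_succ', Perm.mul_apply, hi]; exact hz'⟩
  obtain ⟨h1, h2⟩ := Nat.find_spec hex
  have hmin := fun i (hi : i < Nat.find hex) => Nat.find_min hex hi
  set m := Nat.find hex with hm
  refine ⟨m, ?_, ?_⟩
  · rw [pow_succ', Perm.mul_apply] at h2
    exact h.exit_unique hA h4 h1 h2 hz hz' (Perm.SameCycle.trans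
      (Perm.SameCycle.symm ⟨(m : ℤ), by simp⟩) hsc)
  · have key : ∀ i ≤ m, (s ^ i) t ∈ A := by
      intro i
      induction i with
      | zero => intro _; exact ht
      | succ i ih =>
        intro hi
        by_contra hcon
        exact hmin i (by omega) ⟨ih (by omega), hcon⟩
    exact fun i hi => ⟨key i (by omega), key (i + 1) (by omega)⟩

variable {K : Type} [Fintype K] [DecidableEq K] (F : Fam a s K)

theorem FanDec_eq {κ κ' : K} {t : T} (h : t ∈ F.A κ) (h' : t ∈ F.A κ') : κ = κ' := by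
  by_contra hne
  exact disjoint_left.1 (F.disj κ κ' hne) h h'

theorem FanDec_lst_inj : Function.Injective F.lst := by
  rintro (⟨κ, b⟩ | t) (⟨κ', b'⟩ | t') hx
  · have hx' : F.z κ b = F.z κ' b' := hx
    have h1 : κ = κ' := FanDec_eq F (F.mem κ b) (hx' ▸ F.mem κ' b')
    subst h1
    have h2 : b = b' := by
      by_contra hne
      cases b <;> cases b' <;> simp_all
      · exact F.ne κ hx'.symm
      · exact F.ne κ hx'
    rw [h2]
  · have hx' : F.z κ b = t'.1 := hx
    exact absurd (hx' ▸ F.mem κ b) (t'.2 κ)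
  · have hx' : t.1 = F.z κ' b' := hx
    exact absurd (hx'.symm ▸ F.mem κ' b') (t.2 κ')
  · have hx' : t.1 = t'.1 := hx
    rw [Subtype.ext hx']

/-- a dart of a part which is followed by a dart of the part is not a last dart -/
theorem FanDec_not_lst {κ : K} {t : T} (ht : t ∈ F.A κ) (ht' : s t ∈ F.A κ)
    (y : (K × Bool) ⊕ F.R) : F.lst y ≠ t := by
  rcases y with ⟨κ', b⟩ | t'
  · intro hy
    have hy' : F.z κ' b = t := hy
    have h1 : κ' = κ := FanDec_eq F (F.mem κ' b) (hy' ▸ ht)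
    subst h1
    exact F.out κ' b (hy' ▸ ht')
  · intro hy
    have hy' : t'.1 = t := hy
    exact t'.2 κ (hy' ▸ ht)

/-- the next last dart is determined by the rotation -/
theorem FanDec_next {sC : Perm ((K × Bool) ⊕ F.R)}
    (hC : ∀ x, ∃ n, 0 < n ∧ (s ^ n) (F.lst x) = F.lst (sC x) ∧
        ∀ i, 0 < i → i < n → ∀ y, F.lst y ≠ (s ^ i) (F.lst x))
    {x y : (K × Bool) ⊕ F.R} {m : ℕ} (hm : 0 < m) (h1 : (s ^ m) (F.lst x) = F.lst y)
    (h2 : ∀ i, 0 < i → i < m → ∀ y, F.lst y ≠ (s ^ i) (F.lst x)) : sC x = y := by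
  obtain ⟨n, hn, h3, h4⟩ := hC x
  have hnm : n = m := by
    rcases lt_trichotomy n m with hlt | heq | hlt
    · exact absurd h3.symm (h2 n hn hlt _)
    · exact heq
    · exact absurd h1.symm (h4 m hm hlt _)
  subst hnm
  exact FanDec_lst_inj F (h3.symm.trans h1)

/-- the next last dart, if the rotation enters a part -/
theorem FanDec_enter (h : Good a s) {sC : Perm ((K × Bool) ⊕ F.R)}
    (hC : ∀ x, ∃ n, 0 < n ∧ (s ^ n) (F.lst x) = F.lst (sC x) ∧
        ∀ i, 0 < i → i < n → ∀ y, F.lst y ≠ (s ^ i) (F.lst x))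
    {x : (K × Bool) ⊕ F.R} {κ : K} {b : Bool} (hx : s (F.lst x) ∈ F.A κ)
    (hsc : s.SameCycle (F.lst x) (F.z κ b)) : sC x = Sum.inl (κ, b) := by
  obtain ⟨m, h1, h2⟩ := FanDec_walk h (F.cl κ) (F.cut4 κ) hx (F.mem κ b) (F.out κ b)
    ((Perm.sameCycle_apply_left).2 hsc)
  refine FanDec_next F hC (m := m + 1) (Nat.succ_pos m) ?_ ?_
  · rw [pow_succ, Perm.mul_apply]
    exact h1
  · intro i hi hlt y
    obtain ⟨j, rfl⟩ : ∃ j, i = j + 1 := ⟨i - 1, by omega⟩
    have h3 := h2 j (by omega)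
    have h4 : (s ^ (j + 1)) (F.lst x) = (s ^ j) (s (F.lst x)) := by
      rw [pow_succ, Perm.mul_apply]
    rw [h4]
    refine FanDec_not_lst F h3.1 ?_ y
    have h5 := h3.2
    rw [pow_succ', Perm.mul_apply] at h5
    exact h5

/-- the next last dart, if the next dart is outside the family -/
theorem FanDec_step {sC : Perm ((K × Bool) ⊕ F.R)}
    (hC : ∀ x, ∃ n, 0 < n ∧ (s ^ n) (F.lst x) = F.lst (sC x) ∧
        ∀ i, 0 < i → i < n → ∀ y, F.lst y ≠ (s ^ i) (F.lst x))
    {x : (K × Bool) ⊕ F.R} {t : F.R} (hx : s (F.lst x) = t.1) : sC x = Sum.inr t := by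
  refine FanDec_next F hC one_pos (by rw [pow_one]; exact hx) ?_
  intro i hi hlt
  omega

end lib


theorem FanDec_pow_val {T : Type} {H : Finset T} {ρ : Perm T} (hi : ∀ t, ρ t ∈ H ↔ t ∈ H)
    (i : ℕ) (x : {t // t ∈ H}) : ((ρ.subtypePerm hi ^ i) x).1 = (ρ ^ i) x.1 := by
  induction i with
  | zero => rfl
  | succ i ih =>
    rw [pow_succ', pow_succ', Perm.mul_apply, Perm.mul_apply, ← ih]
    rfl

/-- Proof.  `R = {t // t ∈ HS}` with `subA a`, `ret s HS`, `NP` by `HS_np`; `K = {t ∈ R : s t ∉ HS}` (`HS_next`, `gap`: `K` is in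
bijection with the maximal sets, `κ ↦ A κ` with `s κ ∈ A κ`).  The family `Fam` (index type `{x // x ∈ K}`): the sets `A κ`, disjoint by
`MaxV.eq_of_mem`; `z κ true` the exit of `A κ` at the vertex of `r`, `z κ false` its other exit (`z` in `gap`).  The darts outside
the family are the darts of `HS`.  `Fam.contract` gives `T ≃ FT` for the core `mkC K R aR sC`.  The rotation `sC` is the rotation
of the star: `sC (inr t)`, `t ∉ K`: `s t ∈ HS`.  `sC (inr κ) = inl (κ, false)`: from `κ` the rotation enters `A κ` and stays in it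
until `z κ false`.  `sC (inl (κ, false)) = inr (s_H κ)`: `s (z κ false) = ret s HS κ` (`gap`).  `sC (inl (κ, true))`: `s (z κ true)` is in a
maximal set `A κ'` (`MaxV_next`), so it is `inl (κ', true)`, and `ret (subA a * ret s HS) K κ' = κ` by `order`.  (If the core is
given with another but equal rotation, rewrite; the types are the same.)  The rotation of `R` is the restriction of `ρ`; `K` is invariant;
all corners in `K` are in one face: `one_face`; so `Rot` for the face permutation with root `p ∈ K`, the corner of the maximal set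
`A p` containing `r`.  The nets at `κ` and `ρ κ` are isomorphic: `ρ` maps `A κ` to `A (ρ κ)` and the exits to the exits (use `GCo.uniq`
style arguments or the explicit nets of `Fam.contract`, or `GCo.uniq` for the isomorphism `e ∘ ρ ∘ e⁻¹` of the fan).
The dart `r` is in the net `p` at the pole `true`. -/
theorem exists_fan {T : Type} [Fintype T] [DecidableEq T] {a s ρ : Perm T} {k : ℕ} {r : T}
    (h : Good a s) (hr : Rot a s ρ k r) (hn : ¬ Bd a s ρ k r) :
    ∃ (X : FanD k) (d : X.N0.1.D) (e : T ≃ X.FT), X.AtPole d ∧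
      (∀ t, e (a t) = X.Fa (e t)) ∧ (∀ t, e (s t) = X.Fs (e t)) ∧ e r = X.rt d ∧
      ∀ t x, e t = Sum.inr x → e (ρ t) = Sum.inr (X.ρ x) := by
  classical
  have hcl : Cl a (HS a s ρ k r) := HS_cl hr
  have hinv : ∀ t, ρ t ∈ HS a s ρ k r ↔ t ∈ HS a s ρ k r := HS_inv hr
  -- the occupied corners
  obtain ⟨K, hK⟩ : ∃ K : Finset {t // t ∈ HS a s ρ k r}, ∀ x, x ∈ K ↔ s x.1 ∉ HS a s ρ k r :=
    ⟨univ.filter fun t => s t.1 ∉ HS a s ρ k r, by simp⟩
  -- the maximal sets
  have hex : ∀ κ : {x // x ∈ K}, ∃ (A : Finset T) (z z' : T), MaxV a s ρ k r A ∧ s κ.1.1 ∈ A ∧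
      z ∈ A ∧ s z ∈ HS a s ρ k r ∧ s.SameCycle κ.1.1 z ∧
      (∀ q ∈ HS a s ρ k r, s q ∈ A → q = κ.1.1) ∧
      (ret s (HS a s ρ k r) κ.1).1 = s z ∧ z' ∈ A ∧ s z' ∉ A ∧ s.SameCycle r z' := by
    intro κ
    obtain ⟨B, hB, hsB⟩ := HS_next h hr hn κ.1.2 ((hK _).1 κ.2)
    obtain ⟨p, z, hp, hpB, hz, hzH, hpz, hrp, hup, huz, hret⟩ := gap h hr hn hB
    have hκ : κ.1.1 = p := hup _ κ.1.2 hsB
    obtain ⟨z', hz1, hz2, hz3⟩ := exists_exit (hB.1.shC hr)
    refine ⟨B, z, z', hB, hsB, hz, hzH, by rw [hκ]; exact hpz,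
      fun q hq hqB => by rw [hκ]; exact hup q hq hqB, ?_, hz2, hz3, hz1⟩
    have h1 : κ.1 = ⟨p, hp⟩ := Subtype.ext hκ
    rw [h1]
    exact hret hp
  choose A z z' hmax hsA hz hzH hzc hup hret hz1 hz2 hz3 using hex
  -- different corners have disjoint maximal sets
  have hAinj : ∀ κ κ' t, t ∈ A κ → t ∈ A κ' → κ = κ' := by
    intro κ κ' t h1 h2
    have h3 : A κ = A κ' := (hmax κ).eq_of_mem h hr hn (hmax κ') h1 h2
    have h4 := hup κ' κ.1.1 κ.1.2 (h3 ▸ hsA κ)
    exact Subtype.ext (Subtype.ext h4)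
  -- every maximal set occurs
  have hAsurj : ∀ B, MaxV a s ρ k r B → ∃ κ, A κ = B := by
    intro B hB
    obtain ⟨p, z, hp, hpB, -⟩ := gap h hr hn hB
    have hpK : (⟨p, hp⟩ : {t // t ∈ HS a s ρ k r}) ∈ K := (hK _).2 (HNS_notMem hB hpB)
    exact ⟨⟨⟨p, hp⟩, hpK⟩, (hmax _).eq_of_mem h hr hn hB (hsA _) hpB⟩
  have hcover : ∀ t, (∀ κ, t ∉ A κ) ↔ t ∈ HS a s ρ k r := by
    intro t
    constructor
    · intro ht
      by_contra hcon
      obtain ⟨B, hB, htB⟩ := HNS_exists hcon
      obtain ⟨κ, rfl⟩ := hAsurj B hB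
      exact ht κ htB
    · intro ht κ hκ
      exact HNS_notMem (hmax κ) hκ ht
  -- the family
  let F : Fam a s {x // x ∈ K} :=
    { A := A
      z := fun κ b => bif b then z' κ else z κ
      cl := fun κ => (hmax κ).1.cl
      cut4 := fun κ => (hmax κ).1.cut4
      disj := fun κ κ' hne => disjoint_left.2 fun t h1 h2 => hne (hAinj κ κ' t h1 h2)
      mem := fun κ b => by cases b; exacts [hz κ, hz1 κ]
      out := fun κ b => by
        cases b
        exacts [fun h1 => HNS_notMem (hmax κ) h1 (hzH κ), hz2 κ]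
      ne := fun κ h1 => by
        have h2 : z' κ = z κ := h1
        have h3 := hz3 κ
        rw [h2] at h3
        exact HS_root h hr ((Perm.sameCycle_apply_right).2 h3) (hzH κ) }
  -- the rotation
  let ρH : Perm {t // t ∈ HS a s ρ k r} := ρ.subtypePerm hinv
  have hinvK : ∀ x, ρH x ∈ K ↔ x ∈ K := by
    intro x
    rw [hK, hK]
    show s (ρ x.1) ∉ _ ↔ _
    rw [← hr.rs, hinv]
  let eK : {x // x ∈ K} ≃ {x // x ∈ K} := ρH.subtypePerm hinvK
  have hAK : ∀ κ t, ρ t ∈ A (eK κ) ↔ t ∈ A κ := by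
    intro κ t
    have h1 : MaxV a s ρ k r (tr ρ 1 (A κ)) := (hmax κ).tr hr 1
    have h2 : s (eK κ).1.1 ∈ tr ρ 1 (A κ) := by
      have h3 : s (eK κ).1.1 = (ρ ^ 1) (s κ.1.1) := by
        show s (ρ κ.1.1) = _
        rw [pow_one, hr.rs]
      rw [h3]
      exact mem_tr.2 (hsA κ)
    have h3 : A (eK κ) = tr ρ 1 (A κ) := (hmax _).eq_of_mem h hr hn h1 (hsA _) h2
    rw [h3]
    have h4 := mem_tr (ρ := ρ) (i := 1) (A := A κ) (t := t)
    rwa [pow_one] at h4
  have hzK : ∀ κ, ρ (z' κ) = z' (eK κ) := by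
    intro κ
    refine h.exit_unique (hmax (eK κ)).1.cl (hmax (eK κ)).1.cut4 ((hAK κ _).2 (hz1 κ)) ?_
      (hz1 (eK κ)) (hz2 (eK κ)) ?_
    · rw [← hr.rs, hAK]
      exact hz2 κ
    · have h1 := (hr.pow_root 1 (t := z' κ)).2 (hz3 κ)
      rw [pow_one] at h1
      exact h1.symm.trans (hz3 _)
  -- the number of darts of the core
  obtain ⟨κ0, hκ0⟩ : ∃ κ, r ∈ A κ := by
    obtain ⟨B, hB, hrB⟩ := HNS_exists (HS_root h hr (Perm.SameCycle.refl s r))
    obtain ⟨κ, rfl⟩ := hAsurj B hB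
    exact ⟨κ, hrB⟩
  have hne : eK κ0 ≠ κ0 := by
    intro h1
    have h2 : ρ κ0.1.1 = κ0.1.1 := congrArg (fun x : {x // x ∈ K} => x.1.1) h1
    have h3 := hr.free κ0.1.1 1 one_pos hr.k2
    rw [pow_one] at h3
    exact h3 h2
  have hbig : 4 ≤ 2 * Fintype.card {x // x ∈ K} + Fintype.card F.R := by
    have h1 : 1 < Fintype.card {x // x ∈ K} := Fintype.one_lt_card_iff.2 ⟨_, _, hne⟩
    omega
  obtain ⟨aR, sC, N, e, hg, haR, hsC, hea, hes, hinr, hpart, hzd⟩ := F.contract h hbig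
  let eR : F.R ≃ {t // t ∈ HS a s ρ k r} := Equiv.subtypeEquivRight hcover
  let aH : Perm {t // t ∈ HS a s ρ k r} := subA a (HS a s ρ k r) hcl
  let sH : Perm {t // t ∈ HS a s ρ k r} := ret s (HS a s ρ k r)
  -- the core is the star
  obtain ⟨G, hG⟩ : ∃ G : ({x // x ∈ K} × Bool) ⊕ F.R → ({x // x ∈ K} × Bool) ⊕
      {t // t ∈ HS a s ρ k r}, G = gmap (C := mkC {x // x ∈ K} F.R aR sC) (C' := starC aH sH K)
        (Equiv.refl _) eR (fun _ => false) := ⟨_, rfl⟩
  have hG1 : ∀ κ b, G (Sum.inl (κ, b)) = Sum.inl (κ, b) := by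
    intro κ b
    rw [hG]
    cases b <;> rfl
  have hG2 : ∀ t, G (Sum.inr t) = Sum.inr (eR t) := by
    intro t
    rw [hG]
    rfl
  have hsG : ∀ x, G (sC x) = (starC aH sH K).s (G x) := by
    rintro (⟨κ, _ | _⟩ | t)
    · -- leaving a maximal set at its outer end
      have h1 : sC (Sum.inl (κ, false)) = Sum.inr ⟨s (z κ), (hcover _).2 (hzH κ)⟩ :=
        FanDec_step F hsC rfl
      rw [h1, hG1, hG2]
      refine Eq.trans ?_ (starC_false aH sH K κ).symm
      exact congrArg Sum.inr (Subtype.ext (hret κ).symm)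
    · -- leaving a maximal set at the vertex of the root
      rcases MaxV_next h hr hn (hmax κ) (hz1 κ) (hz2 κ) with ⟨-, B, hB, hsB⟩ | ⟨h1, -⟩
      · obtain ⟨κ', rfl⟩ := hAsurj B hB
        have h1 : sC (Sum.inl (κ, true)) = Sum.inl (κ', true) :=
          FanDec_enter F h hsC (x := Sum.inl (κ, true)) (κ := κ') (b := true) hsB
            ((hz3 κ).symm.trans (hz3 κ'))
        rw [h1, hG1, hG1]
        refine Eq.trans ?_ (starC_true aH sH K κ).symm
        obtain ⟨n, hn0, hn1, hn2⟩ := order h hr hn (hmax κ) (hmax κ') (hz1 κ) (hz2 κ) hsB (hz3 κ)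
          hcl κ.1 κ'.1 (hsA κ) (hsA κ')
        have h2 : ret (aH * sH) K κ' = κ := by
          have h3 : ((aH * sH) ^ n) κ'.1 ∈ K := by
            rw [hn1]
            exact κ.2
          rw [ret_spec (aH * sH) K κ' hn0 h3 (fun i hi hlt hk => (hK _).1 hk (hn2 i hi hlt))]
          exact Subtype.ext hn1
        have h3 : (ret (aH * sH) K)⁻¹ κ = κ' := by
          rw [Perm.inv_eq_iff_eq]
          exact h2.symm
        rw [h3]
        rfl
      · exact absurd (hz3 κ) h1
    · by_cases hk : eR t ∈ K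
      · have h1 : sC (Sum.inr t) = Sum.inl (⟨eR t, hk⟩, false) :=
          FanDec_enter F h hsC (x := Sum.inr t) (κ := ⟨eR t, hk⟩) (b := false)
            (hsA ⟨eR t, hk⟩) (hzc ⟨eR t, hk⟩)
        rw [h1, hG1, hG2]
        exact (starC_inr_mem aH sH K hk).symm
      · have hst : s t.1 ∈ HS a s ρ k r := by
          by_contra hcon
          exact hk ((hK _).2 hcon)
        have h1 : sC (Sum.inr t) = Sum.inr ⟨s t.1, (hcover _).2 hst⟩ := FanDec_step F hsC rfl
        rw [h1, hG2, hG2]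
        refine Eq.trans ?_ (starC_inr_not_mem aH sH K hk).symm
        refine congrArg Sum.inr ?_
        exact (ret_of_mem s (HS a s ρ k r) (eR t) hst).symm
  obtain ⟨e2, ha2, hs2, hr2, hd2⟩ := GCo.iso_of (C := mkC {x // x ∈ K} F.R aR sC)
    (C' := starC aH sH K) (N := N) (N' := N) (Equiv.refl _) eR (fun _ => false)
    (fun t => Subtype.ext (haR t)) (fun x => by rw [← hG]; exact hsG x)
    (fun i => Equiv.refl _) (fun _ _ => rfl) (fun _ _ => rfl) (fun i b => by cases b <;> rfl)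
  -- the nets
  have hee : ∀ t, e (ρ (e.symm t)) = ((e.symm.trans ρ).trans e) t := fun _ => rfl
  obtain ⟨eR', c, f, -, -, -, fa, fs, fr, hf⟩ := GCo.uniq hg hg (N := N) (N' := N)
    ((e.symm.trans ρ).trans e)
    (fun t => by
      obtain ⟨u, rfl⟩ := e.surjective t
      rw [← hee, ← hee, ← hea, e.symm_apply_apply, e.symm_apply_apply, hr.ra, hea])
    (fun t => by
      obtain ⟨u, rfl⟩ := e.surjective t
      rw [← hee, ← hee, ← hes, e.symm_apply_apply, e.symm_apply_apply, hr.rs, hes])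
    eK (fun κ t => by
      obtain ⟨u, rfl⟩ := e.surjective t
      rw [← hee, e.symm_apply_apply, hpart, hpart]
      exact hAK κ u)
  have hper : ∀ κ, BIso (N κ).1 (N (eK κ)).1 := by
    intro κ
    refine ⟨f κ, fa κ, fs κ, ?_⟩
    obtain ⟨d, hd, hd'⟩ := hzd κ true
    obtain ⟨d1, hd1, hd1'⟩ := hzd (eK κ) true
    have h1 : f κ (Sum.inl d) = Sum.inl d1 := by
      refine (hf κ d d1).1 ?_
      rw [← hee, ← hd, e.symm_apply_apply, ← hd1]
      exact congrArg e (hzK κ)
    rw [← hd', fs, h1]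
    exact hd1'
  -- the fan
  have hψ : ∀ t, ρH ((aH * sH) t) = (aH * sH) (ρH t) := by
    intro t
    apply Subtype.ext
    have h1 := HNS_ret_comm (S := HS a s ρ k r) hr.rs hinv t
    show ρ (a (ret s (HS a s ρ k r) t).1) = a (ret s (HS a s ρ k r) ⟨ρ t.1, (hinv _).2 t.2⟩).1
    rw [hr.ra, h1]
  let X : FanD k :=
    { R := {t // t ∈ HS a s ρ k r}
      a := aH
      s := sH
      ρ := ρH
      p := κ0.1
      K := K
      N := N
      np := HS_np h hr hn hcl
      rot :=
        { ra := fun t => Subtype.ext (hr.ra t.1)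
          rs := hψ
          k2 := hr.k2
          pow := fun t => Subtype.ext (by rw [FanDec_pow_val]; exact hr.pow t.1)
          free := fun t i h0 h1 h2 => hr.free t.1 i h0 h1 (by
            rw [← FanDec_pow_val hinv]
            exact congrArg Subtype.val h2)
          root := one_face h hr hn hcl _ _ ((hK _).1 κ0.2) ((hK _).1 (eK κ0).2) }
      pK := κ0.2
      face := fun x hx => one_face h hr hn hcl _ _ ((hK _).1 κ0.2) ((hK _).1 hx)
      inv := hinvK
      per := fun x hx => hper ⟨x, hx⟩ }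
  obtain ⟨d, hd⟩ := (GCo.mem_part (mkC {x // x ∈ K} F.R aR sC) N).1 ((hpart κ0 r).2 hκ0)
  refine ⟨X, d, e.trans e2, ?_, ?_, ?_, ?_, ?_⟩
  · -- the root is at the new vertex
    obtain ⟨m, hm1, hm2⟩ := FanDec_walk h (hmax κ0).1.cl (hmax κ0).1.cut4 hκ0 (hz1 κ0) (hz2 κ0)
      (hz3 κ0)
    have hstep : ∀ j ≤ m, ∃ dj : (N κ0).1.D, e ((s ^ j) r) = Sum.inl ⟨κ0, dj⟩ ∧
        (N κ0).1.s.SameCycle (Sum.inl d) (Sum.inl dj) := by
      intro j
      induction j with
      | zero => exact fun _ => ⟨d, hd, Perm.SameCycle.refl _ _⟩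
      | succ j ih =>
        intro hj
        obtain ⟨dj, h1, h2⟩ := ih (by omega)
        obtain ⟨h3, h4⟩ := hm2 j (by omega)
        rw [pow_succ', Perm.mul_apply] at h4 ⊢
        rcases h5 : (N κ0).1.s (Sum.inl dj) with d' | b
        · refine ⟨d', ?_, h2.trans ?_⟩
          · rw [hes, h1]
            exact GCo.Fs_in (mkC {x // x ∈ K} F.R aR sC) N h5
          · exact ⟨1, by rw [zpow_one]; exact h5⟩
        · exfalso
          obtain ⟨db, h6, h7⟩ := hzd κ0 b
          have h8 : (Sum.inl dj : (N κ0).1.T) = Sum.inl db :=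
            (N κ0).1.s.injective (h5.trans h7.symm)
          rw [Sum.inl.injEq] at h8
          rw [h8, ← h6] at h1
          have h9 := e.injective h1
          rw [h9] at h4
          exact F.out κ0 b h4
    obtain ⟨dm, h1, h2⟩ := hstep m le_rfl
    obtain ⟨db, h6, h7⟩ := hzd κ0 true
    have h3 : dm = db := by
      have h4 : e (F.z κ0 true) = Sum.inl ⟨κ0, dm⟩ := by
        rw [← h1, hm1]
        rfl
      have h5 := h4.symm.trans h6
      simpa using h5
    subst h3
    show (N κ0).1.s.SameCycle (Sum.inr true) (Sum.inl d)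
    refine (h2.trans ⟨1, ?_⟩).symm
    rw [zpow_one]
    exact h7
  · intro t
    show e2 (e (a t)) = _
    rw [hea, ha2]
    rfl
  · intro t
    show e2 (e (s t)) = _
    rw [hes, hs2]
    rfl
  · show e2 (e r) = _
    rw [hd]
    exact hd2 κ0 d d rfl
  · intro t x hx
    have h1 : ∀ y : {t // t ∈ HS a s ρ k r}, e2 (e y.1) = Sum.inr y := by
      intro y
      have h2 := hinr ⟨y.1, (hcover _).2 y.2⟩
      rw [h2, hr2]
      rfl
    have h2 : t = x.1 := by
      have h3 : e2 (e t) = e2 (e x.1) := hx.trans (h1 x).symm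
      exact e.injective (e2.injective h3)
    subst h2
    exact h1 (ρH x)

end PGr

end

section
/-! # Module BdGeo: a bond consists of copies of a net -/

set_option linter.unusedSectionVars false

namespace PGr
open Equiv Finset
open scoped ENNReal Classical

section
variable {T : Type*} [Fintype T] [DecidableEq T] {a s ρ : Perm T} {k : ℕ} {r : T}
  {S : Finset T}

/-- the exponent of a translate is determined modulo `k` -/
theorem BdGeo_dvd (hr : Rot a s ρ k r) (hS : VS a s ρ k r S) {y : T} {i : ℕ} (hy : y ∈ S)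
    (hi : (ρ ^ i) y ∈ S) : k ∣ i := by
  by_contra h
  have hk := hr.k2
  have h1 : 0 < i % k := by
    rcases Nat.eq_zero_or_pos (i % k) with h2 | h2
    · exact absurd (Nat.dvd_of_mod_eq_zero h2) h
    · exact h2
  refine hS.disj (i % k) h1 (Nat.mod_lt _ (by omega)) y hy ?_
  rw [hr.pow_mod]
  exact hi

theorem BdGeo_modEq (hr : Rot a s ρ k r) (hS : VS a s ρ k r S) {y y' : T} {i j : ℕ} (hy : y ∈ S)
    (hy' : y' ∈ S) (h : (ρ ^ i) y = (ρ ^ j) y') : i ≡ j [MOD k] := by
  rcases le_total i j with hij | hij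
  · obtain ⟨m, rfl⟩ := Nat.exists_eq_add_of_le hij
    rw [pow_add, Perm.mul_apply] at h
    have h1 := (ρ ^ i).injective h
    have h2 := BdGeo_dvd hr hS hy' (h1 ▸ hy)
    exact ((Nat.modEq_iff_dvd' hij).2 (by simpa using h2))
  · obtain ⟨m, rfl⟩ := Nat.exists_eq_add_of_le hij
    rw [pow_add, Perm.mul_apply] at h
    have h1 := (ρ ^ j).injective h
    have h2 := BdGeo_dvd hr hS hy (h1.symm ▸ hy')
    exact ((Nat.modEq_iff_dvd' hij).2 (by simpa using h2)).symm

/-- the translate which contains a given dart -/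
theorem BdGeo_cov (hr : Rot a s ρ k r) (hc : ∀ t, ∃ i : ℕ, (ρ ^ i) t ∈ S) (t : T) :
    ∃ j, j < k ∧ t ∈ tr ρ j S := by
  obtain ⟨i, hi⟩ := hc t
  have hk := hr.k2
  rw [← hr.pow_mod] at hi
  have hlt : i % k < k := Nat.mod_lt _ (by omega)
  rcases Nat.eq_zero_or_pos (i % k) with h0 | h0
  · refine ⟨0, by omega, ?_⟩
    rw [h0] at hi
    rw [mem_tr']
    exact ⟨t, hi, rfl⟩
  · refine ⟨k - i % k, by omega, ?_⟩
    rw [mem_tr']
    exact ⟨_, hi, hr.pow_inv hlt.le t⟩

theorem BdGeo_next (hr : Rot a s ρ k r) (hc : ∀ t, ∃ i : ℕ, (ρ ^ i) t ∈ S) {t : T} (ht : t ∉ S) :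
    ∃ j, 0 < j ∧ j < k ∧ t ∈ tr ρ j S := by
  obtain ⟨j, hj, h1⟩ := BdGeo_cov hr hc t
  refine ⟨j, Nat.pos_of_ne_zero ?_, hj, h1⟩
  rintro rfl
  obtain ⟨x, hx, rfl⟩ := mem_tr'.1 h1
  exact ht hx

/-- Let the translates of `S` cover.  They are disjoint (`VS.disj`) and all of them have the same two ends.  Proof: let `x` be
the other end of `S`, `z` the exit of `S` there; `s z` is in a translate `tr ρ j S`, `0 < j < k`, so `x` is shared for it; its
ends are `r` and `(ρ ^ j) x`, so `(ρ ^ j) x ~ x`, and `Rot.fixed_of_pow` gives `ρ x ~ x`. -/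
theorem bond_end (h : Good a s) (hr : Rot a s ρ k r) (hS : VS a s ρ k r S)
    (hc : ∀ t, ∃ i : ℕ, (ρ ^ i) t ∈ S) {x : T} (hx : ShC s S x) (hn : ¬ s.SameCycle r x) :
    s.SameCycle x (ρ x) := by
  obtain ⟨z, hxz, hz, hz'⟩ := exists_exit hx
  obtain ⟨j, hj0, hjk, hj⟩ := BdGeo_next hr hc hz'
  have hS' := hS.tr hr j
  have hzj : z ∉ tr ρ j S := fun h1 => disjoint_left.1 (BondA_disj0 hS hj0 hjk) hz h1
  have h1 : ShC s (tr ρ j S) x :=
    ⟨⟨s z, hj, Perm.sameCycle_apply_right.2 hxz⟩, z, hzj, hxz⟩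
  have h2 : ShC s (tr ρ j S) ((ρ ^ j) x) := BondA_shC_tr hr j hx
  have h3 : ¬ s.SameCycle r ((ρ ^ j) x) := fun h4 => hn ((hr.pow_root j).1 h4)
  have h4 : s.SameCycle x ((ρ ^ j) x) := h.ends_two hS'.cl hS'.cut4 (hS'.shC hr) h1 h2 hn h3
  exact (hr.fixed_of_pow h hj0 hjk).1 h4

theorem BdGeo_end_pow (h : Good a s) (hr : Rot a s ρ k r) (hS : VS a s ρ k r S)
    (hc : ∀ t, ∃ i : ℕ, (ρ ^ i) t ∈ S) {x : T} (hx : ShC s S x) (hn : ¬ s.SameCycle r x) (i : ℕ) :
    s.SameCycle x ((ρ ^ i) x) := by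
  have h1 := bond_end h hr hS hc hx hn
  induction i with
  | zero => exact Perm.SameCycle.refl _ _
  | succ i ih =>
    rw [pow_succ, Perm.mul_apply]
    exact ih.trans (BondA_sc hr i h1)

/-- The order around the two ends.  Let `z` be the exit of `S` at `r`, `z'` the exit of `S` at the other end.  There is
`0 < j < k`, prime to `k`, such that the dart after `z` is in `tr ρ j S` and the dart after `z'` is in `tr ρ (k - j) S`.  Proof: `s z`
is in `tr ρ j S` for some `0 < j < k`.  `j` is prime to `k`, since going around the vertex of `r` one meets successively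
`tr ρ (j * l) S`, `l = 0, 1, ...` (the exit of `tr ρ i S` at `r` is `(ρ ^ i) z`), and one meets all translates.  By `Good.adj` for `S`,
`tr ρ j S` and the corner `z` there is a corner `c'` at the other end with `c' ∈ tr ρ j S`, `s c' ∈ S`; it is the exit of
`tr ρ j S`, so `c' = (ρ ^ j) z'`, and `s z' = (ρ ^ (k - j)) (s c') ∈ tr ρ (k - j) S`. -/
theorem bond_order (h : Good a s) (hr : Rot a s ρ k r) (hS : VS a s ρ k r S)
    (hc : ∀ t, ∃ i : ℕ, (ρ ^ i) t ∈ S) {z z' : T} (hz : z ∈ S) (hz1 : s z ∉ S)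
    (hz2 : s.SameCycle r z) (hz' : z' ∈ S) (hz1' : s z' ∉ S) (hz2' : ¬ s.SameCycle r z') :
    ∃ j, 0 < j ∧ j < k ∧ j.Coprime k ∧ s z ∈ tr ρ j S ∧ s z' ∈ tr ρ (k - j) S := by
  obtain ⟨j, hj0, hjk, hj⟩ := BdGeo_next hr hc hz1
  have hk := hr.k2
  refine ⟨j, hj0, hjk, ?_, hj, ?_⟩
  · -- coprime
    have hstep : ∀ t, s.SameCycle r t → (∃ l, t ∈ tr ρ (j * l) S) → ∃ l, s t ∈ tr ρ (j * l) S := by
      rintro t ht ⟨l, hl⟩
      by_cases h1 : s t ∈ tr ρ (j * l) S
      · exact ⟨l, h1⟩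
      · have hS' := hS.tr hr (j * l)
        have h2 : t = (ρ ^ (j * l)) z := by
          refine h.exit_unique hS'.cl hS'.cut4 hl h1 (mem_tr.2 hz) ?_ ?_
          · rw [← hr.pow_s, mem_tr]
            exact hz1
          · exact ht.symm.trans ((hr.pow_root _).2 hz2)
        refine ⟨l + 1, ?_⟩
        rw [h2, ← hr.pow_s]
        obtain ⟨y, hy, hy'⟩ := mem_tr'.1 hj
        rw [mem_tr']
        refine ⟨y, hy, ?_⟩
        rw [← hy', mul_add, mul_one, pow_add, Perm.mul_apply]
    have hall : ∀ n : ℕ, ∃ l, (s ^ n) z ∈ tr ρ (j * l) S := by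
      intro n
      induction n with
      | zero => exact ⟨0, by rw [mem_tr']; exact ⟨z, hz, rfl⟩⟩
      | succ n ih =>
        rw [pow_succ', Perm.mul_apply]
        exact hstep _ (hz2.trans ⟨n, by rw [zpow_natCast]⟩) ih
    have h1 : s.SameCycle z (ρ z) := by
      have h2 := (hr.pow_root 1 (t := z)).2 hz2
      rw [pow_one] at h2
      exact hz2.symm.trans h2
    obtain ⟨n, -, hn⟩ := h1.exists_pow_eq'
    obtain ⟨l, hl⟩ := hall n
    rw [hn] at hl
    obtain ⟨y, hy, hy'⟩ := mem_tr'.1 hl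
    have h3 : j * l ≡ 1 [MOD k] := BdGeo_modEq hr hS hy hz (by rw [hy', pow_one])
    have h4 : Nat.gcd (j * l) k = Nat.gcd 1 k := h3.gcd_eq
    rw [Nat.gcd_one_left] at h4
    exact Nat.Coprime.coprime_mul_right h4
  · have hS' := hS.tr hr j
    have hd := BondA_disj0 hS hj0 hjk
    have hx : ShC s S z' := ⟨⟨z', hz', Perm.SameCycle.refl _ _⟩, s z', hz1',
      Perm.sameCycle_apply_right.2 (Perm.SameCycle.refl _ _)⟩
    have hx' : ShC s (tr ρ j S) z' :=
      BondA_shC_sc (BondA_shC_tr hr j hx) (BdGeo_end_pow h hr hS hc hx hz2' j).symm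
    obtain ⟨c', h1, h2, h3⟩ := h.adj hS.cl hS'.cl hS.cut4 hS'.cut4 hd hz hj hx hx'
      (fun h4 => hz2' (hz2.trans h4))
    have h4 : c' = (ρ ^ j) z' := by
      refine h.exit_unique hS'.cl hS'.cut4 h2 (fun h5 => disjoint_left.1 hd h3 h5)
        (mem_tr.2 hz') ?_ ?_
      · rw [← hr.pow_s, mem_tr]
        exact hz1'
      · exact h1.symm.trans (BdGeo_end_pow h hr hS hc hx hz2' j)
    rw [h4, ← hr.pow_s] at h3
    rw [mem_tr']
    exact ⟨_, h3, hr.pow_inv hjk.le _⟩

/-! ### lemmas for the isomorphism -/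

theorem BdGeo_tr_mod (hr : Rot a s ρ k r) (i : ℕ) : tr ρ (i % k) S = tr ρ i S := by
  ext t
  rw [mem_tr', mem_tr']
  simp only [hr.pow_mod]

theorem BdGeo_tr_modEq (hr : Rot a s ρ k r) {i j : ℕ} (h : i ≡ j [MOD k]) :
    tr ρ i S = tr ρ j S := by
  rw [← BdGeo_tr_mod hr i, ← BdGeo_tr_mod hr j, h]

theorem BdGeo_tr_zero : tr ρ 0 S = S := by
  ext t
  rw [mem_tr']
  simp

theorem BdGeo_tr_add (i j : ℕ) {t : T} : (ρ ^ i) t ∈ tr ρ (i + j) S ↔ t ∈ tr ρ j S := by
  rw [mem_tr', mem_tr']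
  constructor
  · rintro ⟨x, hx, h⟩
    rw [pow_add, Perm.mul_apply] at h
    exact ⟨x, hx, (ρ ^ i).injective h⟩
  · rintro ⟨x, hx, rfl⟩
    exact ⟨x, hx, by rw [pow_add, Perm.mul_apply]⟩

end

theorem BdGeo_fin {k : ℕ} (i : Fin k) : (finRotate k i : ℕ) = (i.val + 1) % k := by
  match k, i with
  | 0, i => exact i.elim0
  | n + 1, i =>
    rw [coe_finRotate]
    split_ifs with h
    · subst h
      simp
    · have h1 : i.val < n := Fin.val_lt_last h
      rw [Nat.mod_eq_of_lt (by omega)]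

theorem BdGeo_fin' {k : ℕ} (i : Fin k) :
    ((finRotate k).symm i).val + 1 ≡ i.val [MOD k] := by
  have h1 := BdGeo_fin ((finRotate k).symm i)
  rw [Equiv.apply_symm_apply] at h1
  unfold Nat.ModEq
  rw [← h1, Nat.mod_eq_of_lt i.2]

theorem BdGeo_inr {M N : BMap} (g : M.T ≃ N.T) (ga : ∀ t, g (M.aa t) = N.aa (g t))
    (gr : g (Sum.inr true) = Sum.inr true) (b : Bool) : g (Sum.inr b) = Sum.inr b := by
  cases b
  · have h := ga (Sum.inr true)
    rw [gr] at h
    exact h
  · exact gr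

theorem BdGeo_inl {M N : BMap} (g : M.T ≃ N.T) (ga : ∀ t, g (M.aa t) = N.aa (g t))
    (gr : g (Sum.inr true) = Sum.inr true) (d : M.D) : ∃ d', g (Sum.inl d) = Sum.inl d' := by
  rcases h : g (Sum.inl d) with d' | b
  · exact ⟨d', rfl⟩
  · exfalso
    have h2 := BdGeo_inr g ga gr b
    have := g.injective (h.trans h2.symm)
    simp at this

theorem BdGeo_sc {T T' : Type*} [Fintype T] [DecidableEq T] [Fintype T'] [DecidableEq T']
    {s : Perm T} {s' : Perm T'}
    (f : T ≃ T') (h2 : ∀ t, f (s t) = s' (f t)) (x y : T) :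
    s'.SameCycle (f x) (f y) ↔ s.SameCycle x y := by
  constructor
  · rintro ⟨i, hi⟩
    refine ⟨i, f.injective ?_⟩
    rw [CutIso.zpow f h2, hi]
  · rintro ⟨i, hi⟩
    exact ⟨i, by rw [← CutIso.zpow f h2, hi]⟩

/-- `Fam.contract` for a family which covers everything -/
theorem BdGeo_contract {T : Type} [Fintype T] [DecidableEq T] {a s : Perm T} {K : Type}
    [Fintype K] [DecidableEq K] (F : Fam a s K) (h : Good a s) (hE : IsEmpty F.R)
    (h2 : 2 ≤ Fintype.card K) :
    ∃ (sC : Perm ((K × Bool) ⊕ Empty)) (N : K → GB) (e : T ≃ (mkC K Empty 1 sC).FT N),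
      (mkC K Empty 1 sC).IsGood ∧
      (∀ κ κ' b, s (F.z κ b) ∈ F.A κ' → s.SameCycle (F.z κ b) (F.z κ' b) →
        sC (Sum.inl (κ, b)) = Sum.inl (κ', b)) ∧
      (∀ t, e (a t) = (mkC K Empty 1 sC).Fa N (e t)) ∧
      (∀ t, e (s t) = (mkC K Empty 1 sC).Fs N (e t)) ∧
      (∀ κ t, e t ∈ (mkC K Empty 1 sC).part N κ ↔ t ∈ F.A κ) ∧
      ∀ κ b, ∃ d, e (F.z κ b) = Sum.inl ⟨κ, d⟩ ∧ (N κ).1.s (Sum.inl d) = Sum.inr b := by
  have hbig : 4 ≤ 2 * Fintype.card K + Fintype.card F.R := by omega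
  obtain ⟨aR, sC, N, e, hg, haR, hsC, hea, hes, hinr, hpart, hzd⟩ := F.contract h hbig
  let eR : F.R ≃ Empty := Equiv.equivOfIsEmpty _ _
  let φ : (K × Bool) ⊕ F.R ≃ (K × Bool) ⊕ Empty := Equiv.sumCongr (Equiv.refl _) eR
  let sC' : Perm ((K × Bool) ⊕ Empty) := (φ.symm.trans sC).trans φ
  have hsC' : ∀ x, φ (sC x) = sC' (φ x) := fun x => by
    show _ = φ (sC (φ.symm (φ x)))
    rw [φ.symm_apply_apply]
  have hφ : ∀ x, φ ((mkC K F.R aR sC).aa x) = (mkC K Empty 1 sC').aa (φ x) := by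
    rintro (⟨κ, b⟩ | t)
    · rfl
    · exact hE.elim t
  have hm : ∀ x, gmap (C := mkC K F.R aR sC) (C' := mkC K Empty 1 sC') (Equiv.refl _) eR
      (fun _ => false) x = φ x := by
    rintro (⟨κ, b⟩ | t)
    · show Sum.inl (κ, xor false b) = Sum.inl (κ, b)
      rw [Bool.false_xor]
    · exact hE.elim t
  obtain ⟨e2, ha2, hs2, -, hd2⟩ := GCo.iso_of (C := mkC K F.R aR sC)
    (C' := mkC K Empty 1 sC') (N := N) (N' := N) (Equiv.refl _) eR (fun _ => false)
    (fun t => hE.elim t) (fun x => by rw [hm, hm]; exact hsC' x) (fun i => Equiv.refl _)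
    (fun _ _ => rfl) (fun _ _ => rfl) (fun i b => by rw [Bool.false_xor]; rfl)
  refine ⟨sC', N, e.trans e2, Good_iso φ hφ hsC' hg, ?_, ?_, ?_, ?_, ?_⟩
  · intro κ κ' b h3 h4
    have h5 : sC (Sum.inl (κ, b)) = Sum.inl (κ', b) := FanDec_enter F h hsC h3 h4
    exact (hsC' (Sum.inl (κ, b))).symm.trans (congrArg φ h5)
  · intro t
    show e2 (e (a t)) = _
    rw [hea, ha2]
    rfl
  · intro t
    show e2 (e (s t)) = _
    rw [hes, hs2]
    rfl
  · intro κ t
    rw [← hpart κ t, GCo.mem_part, GCo.mem_part]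
    show (∃ d, e2 (e t) = _) ↔ _
    rcases h3 : e t with ⟨i, dt⟩ | t'
    · rw [hd2 i dt dt rfl]
      constructor
      · rintro ⟨d, h4⟩
        have h5 : i = κ := congrArg Sigma.fst (Sum.inl_injective h4)
        subst h5
        exact ⟨dt, rfl⟩
      · rintro ⟨d, h4⟩
        have h5 : i = κ := congrArg Sigma.fst (Sum.inl_injective h4)
        subst h5
        exact ⟨dt, rfl⟩
    · exact hE.elim t'
  · intro κ b
    obtain ⟨d, h3, h4⟩ := hzd κ b
    refine ⟨d, ?_, h4⟩
    show e2 (e _) = _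
    rw [h3, hd2 κ d d rfl]
    rfl

/-- Proof.  Replace `ρ` by `ρ' = ρ ^ j` (`bond_order`; `Rot.coprime_pow`).  Family: `K = Fin k`, `A i = tr ρ' i S`,
`z i true = (ρ' ^ i) z`, `z i false = (ρ' ^ i) z'`; `Fam.contract` (no darts outside: `F.R` is empty, `Empty` in `bondC`): the
rotation of the core is `bondP`: `s (z i true)` is in `A (i + 1)` and the next exit is `z (i + 1) true`; `s (z i false)` is in
`A (i - 1)`.  The nets are isomorphic to the net at 0 (`ρ' ^ i`; `GCo.uniq` or the explicit nets), `GCo.iso_of`. -/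
theorem bd_iso {T : Type} [Fintype T] [DecidableEq T] {a s ρ : Perm T} {k : ℕ} {r : T}
    (h : Good a s) (hr : Rot a s ρ k r) (hk : 2 ≤ k) {S : Finset T} (hS : VS a s ρ k r S)
    (hc : ∀ t, ∃ i : ℕ, (ρ ^ i) t ∈ S) (hrS : r ∈ S) :
    ∃ (N : GB) (d : N.1.D) (e : T ≃ bFT k N), AtP N.1 d ∧ (∀ t, e (a t) = bFa k N (e t)) ∧
      (∀ t, e (s t) = bFs k N (e t)) ∧ e r = brt hk N d ∧
      ∀ t, e t ∈ (bondC k).part (fun _ => N) ⟨0, by omega⟩ ↔ t ∈ S := by
  obtain ⟨z, hz2, hz, hz1⟩ := exists_exit (hS.shC hr)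
  obtain ⟨x, hx, hxn, -⟩ := h.ends hS.cl hS.cut4 (hS.shC hr)
  obtain ⟨z', hxz', hz', hz1'⟩ := exists_exit hx
  have hz2' : ¬ s.SameCycle r z' := fun h1 => hxn (h1.trans hxz'.symm)
  obtain ⟨j, hj0, hjk, hcop, hj, hj'⟩ := bond_order h hr hS hc hz hz1 hz2 hz' hz1' hz2'
  -- the new rotation
  obtain ⟨σ, hσ⟩ : ∃ σ, σ = ρ ^ j := ⟨_, rfl⟩
  have hrσ : Rot a s σ k r := hσ ▸ hr.coprime_pow hcop
  have hSσ : VS a s σ k r S := (VS.indep h hr hrσ S).1 hS
  have hcσ : ∀ t, ∃ i : ℕ, (σ ^ i) t ∈ S := by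
    intro t
    obtain ⟨i, hi⟩ := hc t
    obtain ⟨m, hm⟩ := Nat.exists_mul_mod_eq_one_of_coprime hcop (by omega)
    refine ⟨m * i, ?_⟩
    have h1 : j * (m * i) ≡ i [MOD k] := by
      have h2 : j * m ≡ 1 [MOD k] := by
        unfold Nat.ModEq
        rw [hm.2, Nat.mod_eq_of_lt (by omega)]
      have h3 := h2.mul_right i
      rwa [one_mul, mul_assoc] at h3
    rw [hσ, ← pow_mul, ← hr.pow_mod, h1, hr.pow_mod]
    exact hi
  have hsz : s z ∈ tr σ 1 S := by
    obtain ⟨y, hy, hy'⟩ := mem_tr'.1 hj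
    rw [mem_tr']
    exact ⟨y, hy, by rw [pow_one, hσ, hy']⟩
  have hsz' : s z' ∈ tr σ (k - 1) S := by
    obtain ⟨y, hy, hy'⟩ := mem_tr'.1 hj'
    rw [mem_tr']
    refine ⟨y, hy, ?_⟩
    have h1 : (σ ^ 1) (s z') = y := by
      rw [pow_one, hσ, ← hy', ← Perm.mul_apply, ← pow_add, Nat.add_sub_cancel' hjk.le, hr.pow]
    rw [← h1]
    exact hrσ.pow_inv (by omega) _
  have hend : ∀ i, s.SameCycle z' ((σ ^ i) z') := by
    have h1 : ShC s S z' := BondA_shC_sc hx hxz'
    exact BdGeo_end_pow h hrσ hSσ hcσ h1 hz2'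
  -- the family
  let F : Fam a s (Fin k) :=
    { A := fun i => tr σ i.val S
      z := fun i b => (σ ^ i.val) (bif b then z else z')
      cl := fun i => tr_cl hrσ i.val hSσ.cl
      cut4 := fun i => (tr_cut hrσ i.val).trans hSσ.cut4
      disj := fun i i' hne => BondA_disj' hSσ i.2 i'.2 (fun h1 => hne (Fin.ext h1))
      mem := fun i b => by cases b; exacts [mem_tr.2 hz', mem_tr.2 hz]
      out := fun i b => by
        rw [← hrσ.pow_s, mem_tr]
        cases b
        exacts [hz1', hz1]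
      ne := fun i h1 => by
        have h2 := (σ ^ i.val).injective h1
        exact hz2' ((show z = z' from h2) ▸ hz2) }
  have hE : IsEmpty F.R := by
    refine ⟨fun t => ?_⟩
    obtain ⟨i, hi, h1⟩ := BdGeo_cov hrσ hcσ t.1
    exact t.2 ⟨i, hi⟩ h1
  obtain ⟨sC, N, e, hg, hsC, hea, hes, hpart, hzd⟩ := BdGeo_contract F h hE
    (by rw [Fintype.card_fin]; exact hk)
  -- the core
  have hs1 : ∀ i : Fin k, sC (Sum.inl (i, true)) = Sum.inl (finRotate k i, true) := by
    intro i
    refine hsC i (finRotate k i) true ?_ ?_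
    · show s ((σ ^ i.val) z) ∈ tr σ (finRotate k i).val S
      rw [BdGeo_fin, BdGeo_tr_mod hrσ, ← hrσ.pow_s, BdGeo_tr_add]
      exact hsz
    · show s.SameCycle ((σ ^ i.val) z) ((σ ^ (finRotate k i).val) z)
      exact ((hrσ.pow_root _).2 hz2).symm.trans ((hrσ.pow_root _).2 hz2)
  have hs2 : ∀ i : Fin k, sC (Sum.inl (i, false)) = Sum.inl ((finRotate k).symm i, false) := by
    intro i
    refine hsC i ((finRotate k).symm i) false ?_ ?_
    · show s ((σ ^ i.val) z') ∈ tr σ ((finRotate k).symm i).val S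
      have h1 : i.val + (k - 1) ≡ ((finRotate k).symm i).val [MOD k] := by
        have h2 := (BdGeo_fin' i).symm.add_right (k - 1)
        refine h2.trans ?_
        rw [add_assoc, Nat.add_sub_cancel' (by omega : 1 ≤ k)]
        unfold Nat.ModEq
        simp
      rw [← BdGeo_tr_modEq hrσ h1, ← hrσ.pow_s, BdGeo_tr_add]
      exact hsz'
    · show s.SameCycle ((σ ^ i.val) z') ((σ ^ ((finRotate k).symm i).val) z')
      exact (hend _).symm.trans (hend _)
  -- the nets
  have hee : ∀ t, e (σ (e.symm t)) = ((e.symm.trans σ).trans e) t := fun _ => rfl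
  obtain ⟨eR', c, f, -, -, -, fa, fs, fr, hf⟩ := GCo.uniq hg hg (N := N) (N' := N)
    ((e.symm.trans σ).trans e)
    (fun t => by
      obtain ⟨u, rfl⟩ := e.surjective t
      rw [← hee, ← hee, ← hea, e.symm_apply_apply, e.symm_apply_apply, hrσ.ra, hea])
    (fun t => by
      obtain ⟨u, rfl⟩ := e.surjective t
      rw [← hee, ← hee, ← hes, e.symm_apply_apply, e.symm_apply_apply, hrσ.rs, hes])
    (finRotate k) (fun i t => by
      obtain ⟨u, rfl⟩ := e.surjective t
      rw [← hee, e.symm_apply_apply, hpart, hpart]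
      show σ u ∈ tr σ (finRotate k i).val S ↔ u ∈ tr σ i.val S
      have h1 := BdGeo_tr_add (ρ := σ) (S := S) 1 i.val (t := u)
      rw [pow_one, add_comm] at h1
      rw [BdGeo_fin, BdGeo_tr_mod hrσ]
      exact h1)
  have hper : ∀ i, BIso (N i).1 (N (finRotate k i)).1 := by
    intro i
    refine ⟨f i, fa i, fs i, ?_⟩
    obtain ⟨d, hd, hd'⟩ := hzd i true
    obtain ⟨d1, hd1, hd1'⟩ := hzd (finRotate k i) true
    have h1 : f i (Sum.inl d) = Sum.inl d1 := by
      refine (hf i d d1).1 ?_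
      rw [← hee, ← hd, e.symm_apply_apply, ← hd1]
      refine congrArg e ?_
      show σ ((σ ^ i.val) z) = (σ ^ (finRotate k i).val) z
      rw [BdGeo_fin, hrσ.pow_mod, pow_succ', Perm.mul_apply]
    rw [← hd', fs, h1]
    exact hd1'
  obtain ⟨i0, hi0⟩ : ∃ i0 : Fin k, i0 = ⟨0, by omega⟩ := ⟨_, rfl⟩
  have hN0 : ∀ i, BIso (N i).1 (N i0).1 := by
    intro i
    obtain ⟨n, -, hn⟩ := (BdCore_rot_sc' hk i i0).exists_pow_eq'
    rw [← hn]
    clear hn
    induction n with
    | zero => exact BIso.refl _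
    | succ n ih =>
      rw [pow_succ', Perm.mul_apply]
      exact ih.trans (hper _)
  choose g ga gs gr using hN0
  -- the isomorphism
  obtain ⟨e2, ha2, hs2', -, hd2⟩ := GCo.iso_of (C := mkC (Fin k) Empty 1 sC)
    (C' := bondC k) (N := N) (N' := fun _ => N i0) (Equiv.refl _) (Equiv.refl _) (fun _ => false)
    (fun _ => rfl) (fun x => by
      rcases x with ⟨i, _ | _⟩ | t
      · show gmap (C := mkC (Fin k) Empty 1 sC) (C' := bondC k) _ _ _ (sC (Sum.inl (i, false))) = _
        rw [hs2]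
        rfl
      · show gmap (C := mkC (Fin k) Empty 1 sC) (C' := bondC k) _ _ _ (sC (Sum.inl (i, true))) = _
        rw [hs1]
        rfl
      · exact t.elim)
    g ga gs (fun i b => by rw [Bool.false_xor]; exact BdGeo_inr (g i) (ga i) (gr i) b)
  have hrS' : r ∈ F.A i0 := by
    rw [hi0]
    show r ∈ tr σ 0 S
    rw [BdGeo_tr_zero]
    exact hrS
  obtain ⟨d, hd⟩ := (GCo.mem_part (mkC (Fin k) Empty 1 sC) N).1 ((hpart i0 r).2 hrS')
  obtain ⟨d', hd'⟩ := BdGeo_inl (g i0) (ga i0) (gr i0) d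
  refine ⟨N i0, d', e.trans e2, ?_, ?_, ?_, ?_, ?_⟩
  · -- the root is at the first vertex
    have hFz : F.z i0 true = z := by
      rw [hi0]
      rfl
    have hz1F : s z ∉ F.A i0 := by
      have := F.out i0 true
      rwa [hFz] at this
    have hzF : z ∈ F.A i0 := by
      have := F.mem i0 true
      rwa [hFz] at this
    obtain ⟨m, hm1, hm2⟩ := FanDec_walk h (F.cl i0) (F.cut4 i0) hrS' hzF hz1F hz2
    have hstep : ∀ j ≤ m, ∃ dj : (N i0).1.D, e ((s ^ j) r) = Sum.inl ⟨i0, dj⟩ ∧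
        (N i0).1.s.SameCycle (Sum.inl d) (Sum.inl dj) := by
      intro j
      induction j with
      | zero => exact fun _ => ⟨d, hd, Perm.SameCycle.refl _ _⟩
      | succ j ih =>
        intro hj
        obtain ⟨dj, h1, h2⟩ := ih (by omega)
        obtain ⟨h3, h4⟩ := hm2 j (by omega)
        rw [pow_succ', Perm.mul_apply] at h4 ⊢
        rcases h5 : (N i0).1.s (Sum.inl dj) with d' | b
        · refine ⟨d', ?_, h2.trans ?_⟩
          · rw [hes, h1]
            exact GCo.Fs_in (mkC (Fin k) Empty 1 sC) N h5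
          · exact ⟨1, by rw [zpow_one]; exact h5⟩
        · exfalso
          obtain ⟨db, h6, h7⟩ := hzd i0 b
          have h8 : (Sum.inl dj : (N i0).1.T) = Sum.inl db :=
            (N i0).1.s.injective (h5.trans h7.symm)
          rw [Sum.inl.injEq] at h8
          rw [h8, ← h6] at h1
          have h9 := e.injective h1
          rw [h9] at h4
          exact F.out i0 b h4
    obtain ⟨dm, h1, h2⟩ := hstep m le_rfl
    obtain ⟨db, h6, h7⟩ := hzd i0 true
    have h3 : dm = db := by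
      have h4 : e (F.z i0 true) = Sum.inl ⟨i0, dm⟩ := by
        rw [← h1, hm1, hFz]
      have h5 := h4.symm.trans h6
      simpa using h5
    subst h3
    have h8 : (N i0).1.s.SameCycle (Sum.inr true) (Sum.inl d) := by
      refine (h2.trans ⟨1, ?_⟩).symm
      rw [zpow_one]
      exact h7
    have h9 := (BdGeo_sc (g i0) (gs i0) (Sum.inr true) (Sum.inl d)).2 h8
    rw [gr, hd'] at h9
    exact h9
  · intro t
    show e2 (e (a t)) = _
    rw [hea, ha2]
    rfl
  · intro t
    show e2 (e (s t)) = _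
    rw [hes, hs2']
    rfl
  · show e2 (e r) = _
    rw [hd]
    refine (hd2 i0 d d' hd').trans ?_
    have h1 : ∀ (M : GB) (d : M.1.D) (i : Fin k), i = ⟨0, by omega⟩ →
        (Sum.inl ⟨i, d⟩ : bFT k M) = brt hk M d := by
      rintro M d _ rfl
      rfl
    exact h1 (N i0) d' i0 hi0
  · intro t
    have h1 : e t ∈ (mkC (Fin k) Empty 1 sC).part N i0 ↔ t ∈ S := by
      rw [hpart i0 t, hi0]
      show t ∈ tr σ 0 S ↔ _
      rw [BdGeo_tr_zero]
    rw [← h1]
    refine Iff.trans (GCo.mem_part (bondC k) (fun _ => N i0)) ?_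
    refine Iff.trans ?_ (GCo.mem_part (mkC (Fin k) Empty 1 sC) N).symm
    show (∃ d, e2 (e t) = _) ↔ _
    rcases h2 : e t with ⟨i, dt⟩ | t'
    · obtain ⟨dt', hdt'⟩ := BdGeo_inl (g i) (ga i) (gr i) dt
      rw [hd2 i dt dt' hdt']
      constructor
      · rintro ⟨d1, h3⟩
        have h4 : i = ⟨0, by omega⟩ := congrArg Sigma.fst (Sum.inl_injective h3)
        rw [← hi0] at h4
        subst h4
        exact ⟨dt, rfl⟩
      · rintro ⟨d1, h3⟩
        have h4 : i = i0 := congrArg Sigma.fst (Sum.inl_injective h3)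
        rw [hi0] at h4
        subst h4
        exact ⟨dt', rfl⟩
    · exact t'.elim

end PGr

end

section
/-! # Module ParSum: nets with a marked dart in the first parallel component -/

set_option linter.unusedSectionVars false

namespace PGr
open Equiv Finset
open scoped ENNReal Classical

/-- number of darts at the pole in the first component -/
noncomputable def fd (M : BMap) : ℕ := (univ.filter fun d : M.D => AtP M d ∧ FirstC M d).card

/-- a prefix which is not a series prefix is a parallel prefix (the third case in the proof of `pref_ser_or_par`) -/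
theorem ParSum_last {M : BMap} (hM : M.IsGood) {A : Finset M.T} (h : Pref M A)
    (hs : M.s⁻¹ (Sum.inr true) ∉ A) : M.s⁻¹ (Sum.inr false) ∈ A := by
  by_contra hs'
  exfalso
  have hsf := PrefType_next hM h hs hs'
  have hfA : (Sum.inr false : M.T) ∉ A := fun h1 => h.root ((h.cl (Sum.inr true)).1 h1)
  set Vt := univ.filter fun x => M.s.SameCycle (Sum.inr true) x with hVt
  set Vf := univ.filter fun x => M.s.SameCycle (Sum.inr false) x with hVf
  have hloop : ¬ M.s.SameCycle (Sum.inr true) (Sum.inr false) := hM.noLoop (Sum.inr true)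
  have hdis : Disjoint (Vt ∩ bd M.s A) (Vf ∩ bd M.s A) := by
    rw [disjoint_left]
    intro x h1 h2
    rw [mem_inter, hVt, mem_filter] at h1
    rw [mem_inter, hVf, mem_filter] at h2
    exact hloop (h1.1.2.trans h2.1.2.symm)
  have htb : (Sum.inr true : M.T) ∈ bd M.s A := by
    rw [mem_bd]
    have h1 := h.root
    have h2 := h.fst
    tauto
  have hfb : (Sum.inr false : M.T) ∈ bd M.s A := by
    rw [mem_bd]
    tauto
  have c1 := (PrefType_two (PrefType_even M.s A (Sum.inr true)) (x := Sum.inr true)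
    (by rw [mem_inter, mem_filter]; exact ⟨⟨mem_univ _, Perm.SameCycle.refl _ _⟩, htb⟩)).1
  have c2 := (PrefType_two (PrefType_even M.s A (Sum.inr false)) (x := Sum.inr false)
    (by rw [mem_inter, mem_filter]; exact ⟨⟨mem_univ _, Perm.SameCycle.refl _ _⟩, hfb⟩)).1
  have hall : (Vt ∩ bd M.s A) ∪ (Vf ∩ bd M.s A) = bd M.s A := by
    apply eq_of_subset_of_card_le
    · exact union_subset inter_subset_right inter_subset_right
    · rw [card_union_of_disjoint hdis]
      have h4 : (bd M.s A).card = 4 := h.cut4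
      rw [h4]
      exact add_le_add c1 c2
  obtain ⟨z, hz, hzne⟩ := (PrefType_two (PrefType_even (M.aa * M.s) A (Sum.inr true))
    (x := Sum.inr true) (by
      rw [mem_inter, mem_filter, PrefType_bd_dual h.cl]
      exact ⟨⟨mem_univ _, Perm.SameCycle.refl _ _⟩, htb⟩)).2
  rw [mem_inter, mem_filter, PrefType_bd_dual h.cl] at hz
  obtain ⟨⟨-, hzf⟩, hzb⟩ := hz
  have hz' := hzb
  rw [← hall, mem_union, mem_inter, mem_inter] at hz'
  rcases hz' with ⟨h1, -⟩ | ⟨h1, -⟩
  · rw [hVt, mem_filter] at h1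
    exact hM.noPinch (Ne.symm hzne) h1.2 hzf
  · rw [hVf, mem_filter] at h1
    have h2 : z = M.s⁻¹ (Sum.inr false) := by
      by_contra hne
      refine hM.noPinch hne ?_ ?_
      · exact h1.2.symm.trans ⟨-1, by simp⟩
      · refine hzf.symm.trans ?_
        refine Perm.SameCycle.symm ⟨1, ?_⟩
        rw [zpow_one, Perm.mul_apply, SerExcl.apply_inv]
        rfl
    rw [h2, mem_bd, SerExcl.apply_inv] at hzb
    exact hzb ⟨fun h3 => absurd h3 hs', fun h3 => absurd h3 hfA⟩


/-- ... so it is a series prefix of the dual -/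
theorem ParSum_dual {M : BMap} (hM : M.IsGood) {A : Finset M.T} (h : Pref M A)
    (hs : M.s⁻¹ (Sum.inr true) ∉ A) : Pref M.dual A ∧ M.dual.s⁻¹ (Sum.inr true) ∈ A := by
  have hs' := ParSum_last hM h hs
  have hroot : Cl M.aa M.root := by
    rintro (d | b)
    · simp [BMap.root, BMap.aa]
    · cases b <;> simp [BMap.root, BMap.aa]
  refine ⟨⟨h.cl, h.root, (h.cl _).2 h.fst, h.rest, ?_, ?_⟩, ?_⟩
  · exact (cut_dual h.cl).trans h.cut4
  · exact (cut_dual (h.cl.union hroot)).trans h.cut4'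
  · have e : (M.aa * M.s)⁻¹ (Sum.inr true) = M.s⁻¹ (Sum.inr false) := by
      rw [Perm.inv_eq_iff_eq, Perm.mul_apply, SerExcl.apply_inv]
      rfl
    show (M.aa * M.s)⁻¹ (Sum.inr true) ∈ A
    rw [e]
    exact hs'

/-- a net which is not parallel: all darts at the pole (`Pref` with `s⁻¹ (inr true) ∉ A` is a parallel prefix,
`pref_ser_or_par`, see `PGc/PrefType`) -/
theorem fd_not_par (N : GB) (h : ¬ IsPar N.1) : fd N.1 = pd N.1 := by
  rw [← card_atP]
  unfold fd
  congr 1
  ext d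
  simp only [mem_filter, mem_univ, true_and]
  constructor
  · exact fun h1 => h1.1
  · intro h1
    refine ⟨h1, fun A hA hs => ?_⟩
    exact absurd ⟨A, ParSum_dual N.2 hA hs⟩ h

section
open SerInj SerRl

private theorem ParSum_sc {T : Type*} [Fintype T] [DecidableEq T] (p : Perm T) {x y : T}
    (h : p.SameCycle x y) :
    ∃ j, j < Function.minimalPeriod (fun t => p t) x ∧ (fun t => p t)^[j] x = y := by
  obtain ⟨n, -, hn⟩ := h.exists_pow_eq'
  have hper : 0 < Function.minimalPeriod (fun t => p t) x := by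
    rw [minimalPeriod_eq_card, card_pos]
    exact ⟨x, by simp only [mem_filter, mem_univ, true_and]; exact Perm.SameCycle.refl _ _⟩
  refine ⟨n % Function.minimalPeriod (fun t => p t) x, Nat.mod_lt _ hper, ?_⟩
  rw [Function.iterate_mod_minimalPeriod_eq]
  have h1 : (fun t => p t)^[n] x = (p ^ n) x := by
    have : (⇑p)^[n] x = (p ^ n) x := by rw [Perm.iterate_eq_pow]
    exact this
  rw [h1, hn]

private theorem ParSum_sc' {T : Type*} [Fintype T] [DecidableEq T] (p : Perm T) {x y : T} {j : ℕ}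
    (h : (fun t => p t)^[j] x = y) : p.SameCycle x y := by
  have h1 : (fun t => p t)^[j] x = (p ^ j) x := by
    have : (⇑p)^[j] x = (p ^ j) x := by rw [Perm.iterate_eq_pow]
    exact this
  exact ⟨j, by rw [zpow_natCast, ← h1, h]⟩

/-- the darts of the first net in the root face of the series composition -/
private theorem ParSum_face (N₁ N₂ : GB) (d : N₁.1.D) :
    ((serMap N₁ N₂).aa * (serMap N₁ N₂).s).SameCycle (Sum.inr true) (em1 N₁ N₂ d) ↔
      (N₁.1.aa * N₁.1.s).SameCycle (Sum.inr true) (Sum.inl d) := by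
  obtain ⟨d1, hd1⟩ := exists_d N₁
  obtain ⟨d2, hd2⟩ := exists_d N₂
  have r1 := two_le N₁
  have r2 := two_le N₂
  have t1 := SerSurj.tri_t
  have t2 := SerSurj.tri_tf
  have a1 : ps (serMap N₁ N₂) (Sum.inr true) = Sum.inl ⟨true, d1 1⟩ := by
    show (comp tri (serNets N₁ N₂)).aa ((comp tri (serNets N₁ N₂)).s (Sum.inr true)) = _
    rw [comp_s_root, t1]
    exact first tri (serNets N₁ N₂) true d1 hd1
  have a2 : ∀ j, j + 1 < N₁.1.rl → (ps (serMap N₁ N₂))^[j + 1] (Sum.inr true) =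
      Sum.inl ⟨true, d1 (j + 1)⟩ := by
    intro j hj
    rw [Function.iterate_succ_apply, a1]
    exact run tri (serNets N₁ N₂) true d1 hd1 j hj
  have a3 : (ps (serMap N₁ N₂))^[N₁.1.rl] (Sum.inr true) = Sum.inl ⟨false, d2 1⟩ := by
    have e : N₁.1.rl = N₁.1.rl - 2 + 1 + 1 := by omega
    rw [e, Function.iterate_succ_apply', a2 _ (by omega)]
    have e' : N₁.1.rl - 2 + 1 = N₁.1.rl - 1 := by omega
    rw [e']
    have h := last tri (serNets N₁ N₂) true d1 hd1
    rw [t2] at h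
    exact h.trans (first tri (serNets N₁ N₂) false d2 hd2)
  have a4 : ∀ j, j + 1 < N₂.1.rl → (ps (serMap N₁ N₂))^[j + N₁.1.rl] (Sum.inr true) =
      Sum.inl ⟨false, d2 (j + 1)⟩ := by
    intro j hj
    rw [Function.iterate_add_apply, a3]
    exact run tri (serNets N₁ N₂) false d2 hd2 j hj
  have hrl := serMap_rl N₁ N₂
  constructor
  · intro h
    obtain ⟨j, hj, hj'⟩ := ParSum_sc _ h
    have hj1 : j < (serMap N₁ N₂).rl := hj
    have hj2 : (ps (serMap N₁ N₂))^[j] (Sum.inr true) = em1 N₁ N₂ d := hj'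
    have h0 : 0 < j := by
      rcases Nat.eq_zero_or_pos j with h1 | h1
      · rw [h1] at hj2
        exact absurd hj2 (by
          intro h2
          exact em1_root (N₂ := N₂) d (mem_root.2 ⟨true, h2.symm⟩))
      · exact h1
    by_cases hc : j < N₁.1.rl
    · have h2 := a2 (j - 1) (by omega)
      rw [show j - 1 + 1 = j by omega, hj2] at h2
      have h3 : d = d1 j := em1_inj (N₂ := N₂) h2
      rw [h3]
      exact ParSum_sc' _ (hd1 j h0 hc)
    · exfalso
      have h2 := a4 (j - N₁.1.rl) (by omega)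
      rw [show j - N₁.1.rl + N₁.1.rl = j by omega, hj2] at h2
      have h3 : em1 N₁ N₂ d = em2 N₁ N₂ (d2 (j - N₁.1.rl + 1)) := h2
      exact em2_P1 (N₁ := N₁) (d2 (j - N₁.1.rl + 1)) (h3 ▸ em1_mem d)
  · intro h
    obtain ⟨j, hj, hj'⟩ := ParSum_sc _ h
    have hj1 : j < N₁.1.rl := hj
    have hj2 : (ps N₁.1)^[j] (Sum.inr true) = Sum.inl d := hj'
    have h0 : 0 < j := by
      rcases Nat.eq_zero_or_pos j with h1 | h1
      · rw [h1] at hj2
        exact absurd hj2 (by simp)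
      · exact h1
    have h2 := a2 (j - 1) (by omega)
    rw [show j - 1 + 1 = j by omega] at h2
    have h3 := hd1 j h0 hj1
    rw [hj2] at h3
    have h4 : d = d1 j := Sum.inl_injective h3
    rw [h4]
    exact ParSum_sc' _ h2

private theorem ParSum_inv {S : BMap} (b : Bool) :
    S.dual.s⁻¹ (Sum.inr b) = S.s⁻¹ (Sum.inr (!b)) := by
  have h : (S.aa * S.s)⁻¹ (Sum.inr b) = S.s⁻¹ (Sum.inr (!b)) := by
    rw [Perm.inv_eq_iff_eq, Perm.mul_apply, SerExcl.apply_inv]
    show _ = Sum.inr (!(!b))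
    rw [Bool.not_not]
  exact h

theorem ParSum_firstC {S : BMap} (hS : S.IsGood) (d : S.D) : FirstC S.dual d ↔
    ∀ A : Finset S.T, Pref S A → S.s⁻¹ (Sum.inr true) ∈ A → (Sum.inl d : S.T) ∈ A := by
  constructor
  · intro h A hA hs
    have hroot : Cl S.aa S.root := by
      rintro (d | b)
      · simp [BMap.root, BMap.aa]
      · cases b <;> simp [BMap.root, BMap.aa]
    have h1 : Pref S.dual A := ⟨hA.cl, hA.root, (hA.cl _).2 hA.fst, hA.rest,
      (cut_dual hA.cl).trans hA.cut4, (cut_dual (hA.cl.union hroot)).trans hA.cut4'⟩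
    refine h A h1 ?_
    rw [ParSum_inv]
    exact (Pref.ends hS hA hs).2
  · intro h A hA hs
    have h1 := ParSum_last (M := S.dual) (Good.dual hS) hA hs
    rw [ParSum_inv] at h1
    exact h A (Pref.of_dual hS hA) h1

/-- a parallel composition whose first net is not parallel: the darts of the first net.  The parallel prefixes are the series
prefixes of the dual `serMap N₁.dual N₂.dual` (`Pref.of_dual`), all of them contain the first net (`SerInj.P_sub`), and the
first net is one of them (`SerInj.P_pref`). -/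
theorem fd_par (N₁ N₂ : GB) (h : ¬ IsPar N₁.1) : fd (parMap N₁ N₂) = pd N₁.1 := by
  have hg := serMap_good N₁.dual N₂.dual
  have hs1 : N₁.dual.1.aa * N₁.dual.1.s = N₁.1.s :=
    Equiv.ext fun t => N₁.2.inv (N₁.1.s t)
  rw [← card_atP]
  symm
  refine card_bij (s := univ.filter fun d => AtP N₁.1 d)
    (t := univ.filter fun d : (parMap N₁ N₂).D => AtP (parMap N₁ N₂) d ∧ FirstC (parMap N₁ N₂) d)
    (fun d _ => (⟨true, d⟩ : Σ i, (serNets N₁.dual N₂.dual i).1.D)) ?_ ?_ ?_
  · intro d hd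
    refine mem_filter.2 ⟨mem_univ _, ?_, ?_⟩
    · have h1 : (N₁.dual.1.aa * N₁.dual.1.s).SameCycle (Sum.inr true) (Sum.inl d) := by
        rw [hs1]
        exact (mem_filter.1 hd).2
      exact (ParSum_face N₁.dual N₂.dual d).2 h1
    · refine (ParSum_firstC hg _).2 fun A hA hs => ?_
      exact P_sub (N₁ := N₁.dual) (N₂ := N₂.dual) h hA hs
        (em1_mem (N₁ := N₁.dual) (N₂ := N₂.dual) d)
  · intro d _ d' _ hdd'
    exact em1_inj (N₁ := N₁.dual) (N₂ := N₂.dual) (congrArg Sum.inl hdd')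
  · intro x hx
    obtain ⟨-, hx1, hx2⟩ := mem_filter.1 hx
    have hx3 := (ParSum_firstC hg _).1 hx2 (P1 N₁.dual N₂.dual) P_pref.1 P_pref.2
    obtain ⟨d, -, hd⟩ := mem_up1.1 hx3
    have hd' : x = (⟨true, d⟩ : Σ i, (serNets N₁.dual N₂.dual i).1.D) :=
      (Sum.inl_injective hd).symm
    refine ⟨d, mem_filter.2 ⟨mem_univ _, ?_⟩, hd'.symm⟩
    have h1 : ((serMap N₁.dual N₂.dual).aa * (serMap N₁.dual N₂.dual).s).SameCycle (Sum.inr true)
        (em1 N₁.dual N₂.dual d) := by
      rw [hd]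
      exact hx1
    rw [ParSum_face, hs1] at h1
    exact h1

private theorem ParSum_rl (N : GB) : N.dual.1.rl = dgs N.1.s (Sum.inr true) := by
  have h2 : N.dual.1.aa * N.dual.1.s = N.1.s := Equiv.ext fun t => N.2.inv (N.1.s t)
  exact congrArg (fun p : Perm N.1.T => dgs p (Sum.inr true)) h2

/-- degrees: `serMap_rl` for the duals -/
theorem pd_par (N₁ N₂ : GB) : pd (parMap N₁ N₂) = pd N₁.1 + pd N₂.1 := by
  have h1 := serMap_rl N₁.dual N₂.dual
  have h2 := two_le N₁.dual
  have h3 := two_le N₂.dual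
  rw [ParSum_rl] at h2 h3
  rw [ParSum_rl, ParSum_rl] at h1
  have h4 : dgs (parMap N₁ N₂).s (Sum.inr true) = (serMap N₁.dual N₂.dual).rl := rfl
  unfold pd
  rw [h4]
  omega

/-- `parMap_nV`, `parMap_card`, Euler's formula, `pd_par` -/
theorem nw_par (N₁ N₂ : GB) (s f y z : ℝ≥0∞) :
    nw s f y z (parMap N₁ N₂) = nw s f y z N₁.1 * nw s f y z N₂.1 := by
  have hM := parMap_good N₁ N₂
  have h1 := parMap_nV N₁ N₂
  have h2 := parMap_card N₁ N₂
  obtain ⟨n1, -, hn1⟩ := card_D_even N₁.2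
  obtain ⟨n2, -, hn2⟩ := card_D_even N₂.2
  have e1 := Good.euler N₁.2
  have e2 := Good.euler N₂.2
  have e3 := Good.euler hM
  have c1 : Fintype.card N₁.1.T = Fintype.card N₁.1.D + 2 := by
    rw [Fintype.card_sum, Fintype.card_bool]
  have c2 : Fintype.card N₂.1.T = Fintype.card N₂.1.D + 2 := by
    rw [Fintype.card_sum, Fintype.card_bool]
  have c3 : Fintype.card (parMap N₁ N₂).T = Fintype.card (parMap N₁ N₂).D + 2 := by
    rw [Fintype.card_sum, Fintype.card_bool]
  have v1 := Good.two_le_nV N₁.2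
  have v2 := Good.two_le_nV N₂.2
  have w1 : 2 ≤ nV (N₁.1.aa * N₁.1.s) := Good.two_le_nV N₁.2.dual
  have w2 : 2 ≤ nV (N₂.1.aa * N₂.1.s) := Good.two_le_nV N₂.2.dual
  have g1 : nV (parMap N₁ N₂).s - 2 = (nV N₁.1.s - 2) + (nV N₂.1.s - 2) := by omega
  have g2 : nV ((parMap N₁ N₂).aa * (parMap N₁ N₂).s) - 1 =
      (nV (N₁.1.aa * N₁.1.s) - 1) + (nV (N₂.1.aa * N₂.1.s) - 1) := by omega
  have g3 : Fintype.card (parMap N₁ N₂).D / 2 =
      Fintype.card N₁.1.D / 2 + Fintype.card N₂.1.D / 2 := by omega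
  unfold nw
  rw [g1, g2, g3, pd_par, pow_add, pow_add, pow_add, pow_add]
  ring

end

/-- Every parallel net is `parMap N₁ N₂` with `N₁` not parallel in exactly one way (`exists_serMap`, `serMap_inj` for the
duals).  So for every `g` with `g (parMap N₁ N₂) = g₁ N₁ N₂`: -/
theorem tsum_par (W : BMap → ℝ≥0∞) (hW : ∀ M M' : BMap, BIso M M' → W M = W M') :
    ∑' c : GC, W c.rep.1 = (∑' c : GC, if ¬ IsPar c.rep.1 then W c.rep.1 else 0) +
      ∑' c : GC, if ¬ IsPar c.rep.1 then ∑' c' : GC, W (parMap c.rep c'.rep) else 0 := by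
  set φ : {c : GC // ¬ IsPar c.rep.1} × GC → GC := fun p =>
    ESum.cl ⟨parMap p.1.1.rep p.2.rep, parMap_good _ _⟩ with hφ
  have hφi : ∀ p, BIso (φ p).rep.1 (parMap p.1.1.rep p.2.rep) := fun p => ESum.rep_iso _
  have hinj : Function.Injective φ := by
    rintro ⟨⟨c, hc⟩, c'⟩ ⟨⟨e, he⟩, e'⟩ h
    have h1 := hφi ⟨⟨c, hc⟩, c'⟩
    rw [h] at h1
    have h2 : BIso (parMap c.rep c'.rep) (parMap e.rep e'.rep) := h1.symm.trans (hφi _)
    have h3 : BIso (serMap c.rep.dual c'.rep.dual) (serMap e.rep.dual e'.rep.dual) := by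
      have h4 := h2.dual
      unfold parMap at h4
      rwa [dual_dual (serMap_good _ _), dual_dual (serMap_good _ _)] at h4
    obtain ⟨h5, h6⟩ := serMap_inj (N₁ := c.rep.dual) (N₂ := c'.rep.dual) (N₁' := e.rep.dual)
      (N₂' := e'.rep.dual) hc he h3
    have h7 : c = e := ESum.eq_of_iso (by
      have h8 := h5.dual
      have e1 : c.rep.dual.1.dual = c.rep.1 := dual_dual c.rep.2
      have e2 : e.rep.dual.1.dual = e.rep.1 := dual_dual e.rep.2
      rwa [e1, e2] at h8)
    have h9 : c' = e' := ESum.eq_of_iso (by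
      have h8 := h6.dual
      have e1 : c'.rep.dual.1.dual = c'.rep.1 := dual_dual c'.rep.2
      have e2 : e'.rep.dual.1.dual = e'.rep.1 := dual_dual e'.rep.2
      rwa [e1, e2] at h8)
    subst h7
    subst h9
    rfl
  have hran : ∀ c : GC, IsPar c.rep.1 → ∃ p, φ p = c := by
    intro c hc
    obtain ⟨N₁, N₂, h1, h2⟩ := exists_parMap c.rep.2 hc
    have e1 := ESum.rep_iso N₁
    have e2 := ESum.rep_iso N₂
    refine ⟨⟨⟨ESum.cl N₁, fun hs => h1 (e1.par hs)⟩, ESum.cl N₂⟩, ?_⟩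
    exact ESum.eq_of_iso ((hφi _).trans ((SerEq_parMap_iso e1 e2).trans h2.symm))
  have hpar : ∀ p, IsPar (φ p).rep.1 := fun p => (hφi p).symm.par (parMap_isPar _ _)
  have h0 : ∑' c : GC, W c.rep.1 = (∑' c : GC, if ¬ IsPar c.rep.1 then W c.rep.1 else 0) +
      ∑' c : GC, if IsPar c.rep.1 then W c.rep.1 else 0 := by
    rw [← ENNReal.tsum_add]
    refine tsum_congr fun c => ?_
    by_cases hc : IsPar c.rep.1 <;> simp [hc]
  rw [h0]
  congr 1
  have h1 : ∑' c : GC, (if IsPar c.rep.1 then W c.rep.1 else 0) =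
      ∑' p, if IsPar (φ p).rep.1 then W (φ p).rep.1 else 0 := by
    symm
    refine hinj.tsum_eq (f := fun c : GC => if IsPar c.rep.1 then W c.rep.1 else 0) ?_
    intro c hc
    rw [Function.mem_support] at hc
    have h2 : IsPar c.rep.1 := by
      by_contra h3
      exact hc (if_neg h3)
    exact hran c h2
  rw [h1]
  have h2 : ∀ p : {c : GC // ¬ IsPar c.rep.1} × GC,
      (if IsPar (φ p).rep.1 then W (φ p).rep.1 else 0) = W (parMap p.1.1.rep p.2.rep) := by
    intro p
    rw [if_pos (hpar p)]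
    exact hW _ _ (hφi p)
  rw [tsum_congr h2, ENNReal.tsum_prod (f := fun (a : {c : GC // ¬ IsPar c.rep.1}) (b : GC) =>
    W (parMap a.1.rep b.rep))]
  refine (_root_.tsum_subtype {c : GC | ¬ IsPar c.rep.1}
    (fun c => ∑' c' : GC, W (parMap c.rep c'.rep))).trans ?_
  refine tsum_congr fun c => ?_
  by_cases hc : IsPar c.rep.1 <;> simp [Set.indicator, hc]

/-! ### invariance under isomorphism -/

private theorem ParSum_sciso {M N : BMap} {e : M.T ≃ N.T} (h2 : ∀ t, e (M.s t) = N.s (e t))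
    (x y : M.T) : N.s.SameCycle (e x) (e y) ↔ M.s.SameCycle x y := by
  constructor
  · rintro ⟨i, hi⟩
    refine ⟨i, e.injective ?_⟩
    rw [CutIso.zpow e h2, hi]
  · rintro ⟨i, hi⟩
    exact ⟨i, by rw [← CutIso.zpow e h2, hi]⟩

private theorem ParSum_pd {M N : BMap} (h : BIso M N) : pd M = pd N := by
  obtain ⟨e, h1, h2, h3⟩ := h
  unfold pd dgs
  rw [minimalPeriod_eq_card, minimalPeriod_eq_card]
  congr 1
  refine Finset.card_bij (fun t _ => e t) ?_ (fun t _ t' _ h5 => e.injective h5) ?_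
  · intro t ht
    rw [mem_filter] at ht ⊢
    rw [← h3]
    exact ⟨mem_univ _, (ParSum_sciso h2 _ _).2 ht.2⟩
  · intro t' ht'
    obtain ⟨t, rfl⟩ := e.surjective t'
    rw [mem_filter, ← h3] at ht'
    exact ⟨t, by rw [mem_filter]; exact ⟨mem_univ _, (ParSum_sciso h2 _ _).1 ht'.2⟩, rfl⟩

theorem ParSum_nw {M N : BMap} (h : BIso M N) (s f y z : ℝ≥0∞) :
    nw s f y z M = nw s f y z N := by
  have h1 : nV (M.aa * M.s) = nV (N.aa * N.s) := h.dual.nV_eq
  unfold nw
  rw [h.nV_eq, h1, h.card_eq, ParSum_pd h]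

private theorem ParSum_fc {M N : BMap} {e : M.T ≃ N.T} (h1 : ∀ t, e (M.aa t) = N.aa (e t))
    (h2 : ∀ t, e (M.s t) = N.s (e t)) (h3 : ∀ b, e (Sum.inr b) = Sum.inr b) {d : M.D} {d' : N.D}
    (hd : e (Sum.inl d) = Sum.inl d') (h : FirstC N d') : FirstC M d := by
  intro A hA hs
  have h4 := h _ (SerInj.pref_iso e h1 h2 h3 hA) (by
    intro h5
    apply hs
    have h6 : N.s⁻¹ (Sum.inr true) = e (M.s⁻¹ (Sum.inr true)) := by
      rw [Perm.inv_eq_iff_eq, ← h2, SerExcl.apply_inv, h3]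
    rw [h6] at h5
    exact (mem_map' e.toEmbedding).1 h5)
  rw [← hd] at h4
  exact (mem_map' e.toEmbedding).1 h4

theorem ParSum_fd {M N : BMap} (h : BIso M N) : fd M = fd N := by
  obtain ⟨e, h1, h2, h3⟩ := h
  have h4 := CutIso.inr h1 h3
  obtain ⟨f, hf⟩ := CompIso.exists_equiv e h4
  have h1' : ∀ t, e.symm (N.aa t) = M.aa (e.symm t) := fun t => by
    rw [Equiv.symm_apply_eq, h1, Equiv.apply_symm_apply]
  have h2' : ∀ t, e.symm (N.s t) = M.s (e.symm t) := fun t => by
    rw [Equiv.symm_apply_eq, h2, Equiv.apply_symm_apply]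
  have h4' : ∀ b, e.symm (Sum.inr b) = Sum.inr b := fun b => by
    rw [Equiv.symm_apply_eq, h4]
  have hA : ∀ d, AtP N (f d) ↔ AtP M d := by
    intro d
    unfold AtP
    rw [← hf d, ← h4 true]
    exact ParSum_sciso h2 _ _
  have hF : ∀ d, FirstC N (f d) ↔ FirstC M d := by
    intro d
    refine ⟨ParSum_fc h1 h2 h4 (hf d), ParSum_fc h1' h2' h4' ?_⟩
    rw [Equiv.symm_apply_eq, hf]
  unfold fd
  refine Finset.card_bij (fun t _ => f t) ?_ (fun t _ t' _ h5 => f.injective h5) ?_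
  · intro t ht
    rw [mem_filter] at ht ⊢
    exact ⟨mem_univ _, (hA t).2 ht.2.1, (hF t).2 ht.2.2⟩
  · intro t' ht'
    obtain ⟨t, rfl⟩ := f.surjective t'
    rw [mem_filter] at ht'
    exact ⟨t, by rw [mem_filter]; exact ⟨mem_univ _, (hA t).1 ht'.2.1, (hF t).1 ht'.2.2⟩, rfl⟩

/-- With `D`, `Dd` the sums of `nw` and `pd * nw` over the nets which are not parallel: `eN = D + D * eN`,
`eD = Dd + Dd * eN + D * eD`, and the left sum is `Dd + Dd * eN`.  Put `X = 1 + eN` (finite): `X * (1 - D) = 1`, so `D < 1`, and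
`eD = Dd * X ^ 2`. -/
theorem first_sum (s f y z : ℝ≥0∞) (h1 : eN s f y z ≠ ⊤) (h2 : eD s f y z ≠ ⊤) :
    (∑' c : GC, (fd c.rep.1 : ℝ≥0∞) * nw s f y z c.rep.1) * (1 + eN s f y z) = eD s f y z := by
  set D : ℝ≥0∞ := ∑' c : GC, if ¬ IsPar c.rep.1 then nw s f y z c.rep.1 else 0 with hD
  set Dd : ℝ≥0∞ := ∑' c : GC, if ¬ IsPar c.rep.1 then (pd c.rep.1 : ℝ≥0∞) * nw s f y z c.rep.1
    else 0 with hDd
  set E := eN s f y z with hE
  set E' := eD s f y z with hE'
  have q1 : E = D + D * E := by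
    have h3 := tsum_par (nw s f y z) (fun M M' h => ParSum_nw h s f y z)
    have h4 : ∑' c : GC, (if ¬ IsPar c.rep.1 then
        ∑' c' : GC, nw s f y z (parMap c.rep c'.rep) else 0) = D * E := by
      rw [hD, hE, eN, ← ENNReal.tsum_mul_right]
      refine tsum_congr fun c => ?_
      by_cases hc : ¬ IsPar c.rep.1
      · rw [if_pos hc, if_pos hc, ← ENNReal.tsum_mul_left]
        exact tsum_congr fun c' => nw_par c.rep c'.rep s f y z
      · rw [if_neg hc, if_neg hc, zero_mul]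
    rw [h4] at h3
    exact h3
  have q2 : E' = Dd + (Dd * E + D * E') := by
    have h3 := tsum_par (fun M => (pd M : ℝ≥0∞) * nw s f y z M) (fun M M' h => by
      show (pd M : ℝ≥0∞) * nw s f y z M = (pd M' : ℝ≥0∞) * nw s f y z M'
      rw [ParSum_pd h, ParSum_nw h s f y z])
    have h4 : ∑' c : GC, (if ¬ IsPar c.rep.1 then
        ∑' c' : GC, (fun M => (pd M : ℝ≥0∞) * nw s f y z M) (parMap c.rep c'.rep) else 0) =
        Dd * E + D * E' := by
      rw [hD, hDd, hE, hE', eN, eD, ← ENNReal.tsum_mul_right, ← ENNReal.tsum_mul_right,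
        ← ENNReal.tsum_add]
      refine tsum_congr fun c => ?_
      by_cases hc : ¬ IsPar c.rep.1
      · rw [if_pos hc, if_pos hc, if_pos hc, ← ENNReal.tsum_mul_left, ← ENNReal.tsum_mul_left,
          ← ENNReal.tsum_add]
        refine tsum_congr fun c' => ?_
        show ((pd (parMap c.rep c'.rep) : ℕ) : ℝ≥0∞) * nw s f y z (parMap c.rep c'.rep) = _
        rw [pd_par, nw_par]
        push_cast
        ring
      · rw [if_neg hc, if_neg hc, if_neg hc, zero_mul, zero_mul, add_zero]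
    rw [h4] at h3
    exact h3
  have q3 : ∑' c : GC, (fd c.rep.1 : ℝ≥0∞) * nw s f y z c.rep.1 = Dd + Dd * E := by
    have h3 := tsum_par (fun M => (fd M : ℝ≥0∞) * nw s f y z M) (fun M M' h => by
      show (fd M : ℝ≥0∞) * nw s f y z M = (fd M' : ℝ≥0∞) * nw s f y z M'
      rw [ParSum_fd h, ParSum_nw h s f y z])
    refine h3.trans ?_
    congr 1
    · refine tsum_congr fun c => ?_
      by_cases hc : ¬ IsPar c.rep.1
      · rw [if_pos hc, if_pos hc, fd_not_par c.rep hc]
      · rw [if_neg hc, if_neg hc]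
    · rw [hDd, hE, eN, ← ENNReal.tsum_mul_right]
      refine tsum_congr fun c => ?_
      by_cases hc : ¬ IsPar c.rep.1
      · rw [if_pos hc, if_pos hc, ← ENNReal.tsum_mul_left]
        refine tsum_congr fun c' => ?_
        rw [fd_par c.rep c'.rep hc, nw_par]
        ring
      · rw [if_neg hc, if_neg hc, zero_mul]
  rw [q3]
  have hDt : D ≠ ⊤ := ne_top_of_le_ne_top h1 (by rw [q1]; exact le_self_add)
  have hDdt : Dd ≠ ⊤ := ne_top_of_le_ne_top h2 (by rw [q2]; exact le_self_add)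
  have hEt : E ≠ ⊤ := h1
  have hEt' : E' ≠ ⊤ := h2
  clear_value D Dd E E'
  clear hD hDd hE hE' q3 h1 h2
  lift D to NNReal using hDt
  lift Dd to NNReal using hDdt
  lift E to NNReal using hEt
  lift E' to NNReal using hEt'
  have r1 : (E : ℝ) = D + D * E := by exact_mod_cast q1
  have r2 : (E' : ℝ) = Dd + (Dd * E + D * E') := by exact_mod_cast q2
  have r3 : ((Dd : ℝ) + Dd * E) * (1 + E) = E' := by
    have r4 : (1 + (E : ℝ)) * (1 - D) = 1 := by linarith
    have r5 : (1 - (D : ℝ)) * E' = Dd * (1 + E) := by linarith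
    calc ((Dd : ℝ) + Dd * E) * (1 + E) = (1 + E) * (Dd * (1 + E)) := by ring
      _ = (1 + E) * ((1 - D) * E') := by rw [r5]
      _ = ((1 + E) * (1 - D)) * E' := by ring
      _ = E' := by rw [r4, one_mul]
  exact_mod_cast r3

end PGr

end

section
/-! # Module BdFst: the root in the first component; uniqueness -/

set_option linter.unusedSectionVars false
set_option linter.unusedVariables false

namespace PGr
open Equiv Finset
open scoped ENNReal Classical

namespace BdFst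
variable {k : ℕ}

theorem sinl {D : (bondC k).K → Type} {R : Type} {i i' : (bondC k).K} {d : D i} {d' : D i'}
    (h : (Sum.inl ⟨i, d⟩ : (Σ i, D i) ⊕ R) = Sum.inl ⟨i', d'⟩) : i = i' :=
  congrArg Sigma.fst (Sum.inl_injective h)

theorem next (N : GB) (i : (bondC k).K) {d d' : N.1.D} (h : N.1.s (Sum.inl d) = Sum.inl d') :
    bFs k N (Sum.inl ⟨i, d⟩) = Sum.inl ⟨i, d'⟩ := GCo.Fs_in (bondC k) (fun _ => N) h

theorem next_true (N : GB) (i : (bondC k).K) {d : N.1.D} (h : N.1.s (Sum.inl d) = Sum.inr true) :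
    bFs k N (Sum.inl ⟨i, d⟩) = Sum.inl ⟨BdCore_r k i, fstD N true⟩ :=
  GCo.Fs_out (bondC k) (fun _ => N) h

theorem next_false (N : GB) (i : (bondC k).K) {d : N.1.D}
    (h : N.1.s (Sum.inl d) = Sum.inr false) :
    bFs k N (Sum.inl ⟨i, d⟩) = Sum.inl ⟨(BdCore_r k).symm i, fstD N false⟩ :=
  GCo.Fs_out (bondC k) (fun _ => N) h

theorem r_ne (hk : 2 ≤ k) (i : (bondC k).K) : BdCore_r k i ≠ i := by
  have h := BdCore_free hk i 1 (by omega) (by omega)
  rwa [pow_one] at h

theorem r_ne' (hk : 2 ≤ k) (i : (bondC k).K) : (BdCore_r k).symm i ≠ i := by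
  intro h
  apply r_ne hk i
  rw [Equiv.symm_apply_eq] at h
  exact h.symm

/-- leaving a part -/
theorem next_out (hk : 2 ≤ k) (N : GB) (i : (bondC k).K) {d : N.1.D} {b : Bool}
    (h : N.1.s (Sum.inl d) = Sum.inr b) :
    ∃ i' d', bFs k N (Sum.inl ⟨i, d⟩) = Sum.inl ⟨i', d'⟩ ∧ i' ≠ i := by
  cases b
  · exact ⟨_, _, next_false N i h, r_ne' hk i⟩
  · exact ⟨_, _, next_true N i h, r_ne hk i⟩

/-- a set of darts of the net in the copy `i` -/
noncomputable def cp (N : GB) (i : (bondC k).K) (B : Finset N.1.T) : Finset (bFT k N) :=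
  univ.filter fun t => ∃ d, t = Sum.inl ⟨i, d⟩ ∧ Sum.inl d ∈ B

theorem mem_cp (N : GB) (i j : (bondC k).K) (B : Finset N.1.T) (d : N.1.D) :
    (Sum.inl ⟨j, d⟩ : bFT k N) ∈ cp N i B ↔ j = i ∧ Sum.inl d ∈ B := by
  unfold cp
  rw [mem_filter]
  constructor
  · rintro ⟨-, d', h, h'⟩
    have h1 := Sum.inl_injective h
    rw [Sigma.mk.injEq] at h1
    obtain ⟨rfl, h2⟩ := h1
    rw [eq_of_heq h2]
    exact ⟨rfl, h'⟩
  · rintro ⟨rfl, h⟩
    exact ⟨mem_univ _, d, rfl, h⟩

theorem cp_exit (hk : 2 ≤ k) (N : GB) (i : (bondC k).K) {B : Finset N.1.T}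
    (hB : ∀ b, (Sum.inr b : N.1.T) ∉ B) (d : N.1.D) :
    bFs k N (Sum.inl ⟨i, d⟩) ∈ cp N i B ↔ N.1.s (Sum.inl d) ∈ B := by
  rcases h : N.1.s (Sum.inl d) with d' | b
  · rw [next N i h, mem_cp]
    exact ⟨fun h1 => h1.2, fun h1 => ⟨rfl, h1⟩⟩
  · obtain ⟨i', d', h1, h2⟩ := next_out hk N i h
    rw [h1, mem_cp]
    exact ⟨fun h3 => absurd h3.1 h2, fun h3 => absurd h3 (hB b)⟩

/-- the cut of a set in one copy -/
theorem cut_cp (hk : 2 ≤ k) (N : GB) (i : (bondC k).K) {B : Finset N.1.T}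
    (hB : ∀ b, (Sum.inr b : N.1.T) ∉ B) : cut (bFs k N) (cp N i B) = cut N.1.s B := by
  rw [cut_eq_two_mul, cut_eq_two_mul]
  congr 1
  symm
  refine Finset.card_bij (fun t _ => match t with
    | Sum.inl d => (Sum.inl ⟨i, d⟩ : bFT k N)
    | Sum.inr b => Sum.inl ⟨i, fstD N b⟩) ?_ ?_ ?_
  · rintro (d | b) h
    · rw [mem_filter] at h ⊢
      refine ⟨mem_univ _, (mem_cp N i i B d).2 ⟨rfl, h.2.1⟩, ?_⟩
      show bFs k N (Sum.inl ⟨i, d⟩) ∉ _
      rw [cp_exit hk N i hB]
      exact h.2.2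
    · rw [mem_filter] at h
      exact absurd h.2.1 (hB b)
  · rintro (d | b) h (d' | b') h' h1
    · have h2 := Sum.inl_injective h1
      rw [Sigma.mk.injEq] at h2
      rw [eq_of_heq h2.2]
    · rw [mem_filter] at h'
      exact absurd h'.2.1 (hB b')
    · rw [mem_filter] at h
      exact absurd h.2.1 (hB b)
    · rw [mem_filter] at h
      exact absurd h.2.1 (hB b)
  · rintro (⟨j, d⟩ | x) h
    · rw [mem_filter, mem_cp] at h
      obtain ⟨-, ⟨rfl, h1⟩, h2⟩ := h
      refine ⟨Sum.inl d, ?_, rfl⟩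
      rw [mem_filter]
      refine ⟨mem_univ _, h1, ?_⟩
      rw [← cp_exit hk N j hB]
      exact h2
    · exact x.elim

/-- the last dart of a parallel prefix at the second pole is the last dart of the net, the first one is not -/
theorem snd {M : BMap} (hM : M.IsGood) {A : Finset M.T} (h : Pref M A)
    (hs : M.s⁻¹ (Sum.inr true) ∉ A) :
    M.s⁻¹ (Sum.inr false) ∈ A ∧ M.s (Sum.inr false) ∉ A := by
  obtain ⟨h1, h2⟩ := ParSum_dual hM h hs
  refine ⟨ParSum_last hM h hs, fun h3 => ?_⟩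
  exact (Pref.ends hM.dual h1 h2).1 ((h.cl (M.s (Sum.inr false))).2 h3)

theorem pow_inl {N : GB} {ρ : Perm (bFT k N)}
    (hρ : ∀ (i : (bondC k).K) d', ρ (Sum.inl ⟨i, d'⟩) = Sum.inl ⟨BdCore_r k i, d'⟩) (n : ℕ)
    (i : (bondC k).K) (d : N.1.D) :
    (ρ ^ n) (Sum.inl ⟨i, d⟩) = Sum.inl ⟨((BdCore_r k) ^ n) i, d⟩ := by
  induction n with
  | zero => rfl
  | succ n ih =>
    rw [pow_succ', Perm.mul_apply, ih, pow_succ', Perm.mul_apply, hρ]

theorem compl_cut (N : GB) {A : Finset N.1.T} (hA : Pref N.1 A) :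
    cut N.1.s (univ \ (A ∪ N.1.root)) = 4 := by
  rw [← compl_eq_univ_sdiff, cut_compl]
  exact hA.cut4'

theorem mem_root {M : BMap} (b : Bool) : (Sum.inr b : M.T) ∈ M.root := by
  cases b <;> simp [BMap.root]

theorem not_mem_root {M : BMap} (d : M.D) : (Sum.inl d : M.T) ∉ M.root := by
  simp [BMap.root]

theorem pref_inr {M : BMap} {A : Finset M.T} (h : Pref M A) (b : Bool) :
    (Sum.inr b : M.T) ∉ A := by
  cases b
  · intro h1
    exact h.root ((h.cl (Sum.inr true)).1 h1)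
  · exact h.root

end BdFst

open BdFst in
/-- A sector whose parallel prefix `A` does not contain the root can be moved.  Let `S` be the part 0 of a bond, `A` a parallel
prefix of the net `N` (as a set of darts of the bond, in the part 0) which does not contain `d`.  Then
`S' = (S \ A) ∪ ρ A` (`ρ` as in `bFT_rot`, `ρ A` in the part 1) is a `VS` whose translates cover.  Proof: the last dart of `S` at the
first vertex is not in `A` and the first dart of `A` is the first dart of `S` (`Pref.fst`), so the corner after the last dart is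
a corner between `S \ A` and `ρ A`; at the second vertex the dart before the root dart `inr false` of `N` is in `A` and the
dart after it is not (`pref_ser_or_par` and its proof in `PGc/PrefType`: a prefix which is not a series prefix has
`s⁻¹ (inr false) ∈ A`, and then `s (inr false) ∉ A`), so there is a second corner from `ρ A` to `S \ A`.  `A` and `S \ A` have cut 4
(`Pref.cut4`, `Pref.cut4'`), `cut_union_le`. -/
theorem bond_move {k : ℕ} (hk : 2 ≤ k) (N : GB) {d : N.1.D} (hd : AtP N.1 d) {ρ : Perm (bFT k N)}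
    (hr : Rot (bFa k N) (bFs k N) ρ k (brt hk N d))
    (hρ : ∀ i d', ρ (Sum.inl ⟨i, d'⟩) = Sum.inl ⟨finRotate k i, d'⟩)
    {A : Finset N.1.T} (hA : Pref N.1 A) (hA' : N.1.s⁻¹ (Sum.inr true) ∉ A)
    (hdA : Sum.inl d ∉ A) (S' : Finset (bFT k N))
    (hS' : ∀ i d', (Sum.inl ⟨i, d'⟩ : bFT k N) ∈ S' ↔
      (i = (⟨0, by omega⟩ : Fin k) ∧ Sum.inl d' ∉ A) ∨
        (i = finRotate k (⟨0, by omega⟩ : Fin k) ∧ Sum.inl d' ∈ A)) :
    VS (bFa k N) (bFs k N) ρ k (brt hk N d) S' ∧ ∀ t, ∃ i : ℕ, (ρ ^ i) t ∈ S' := by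
  have hρ' : ∀ (i : (bondC k).K) d', ρ (Sum.inl ⟨i, d'⟩) = Sum.inl ⟨BdCore_r k i, d'⟩ := hρ
  have hmem : ∀ (i : (bondC k).K) d', (Sum.inl ⟨i, d'⟩ : bFT k N) ∈ S' ↔
      (i = BdCore_0 hk ∧ Sum.inl d' ∉ A) ∨ (i = BdCore_r k (BdCore_0 hk) ∧ Sum.inl d' ∈ A) := hS'
  clear hρ hS'
  have hgood := bFT_good hk N
  obtain ⟨h1, h2⟩ := snd N.2 hA hA'
  have hne : BdCore_r k (BdCore_0 hk) ≠ BdCore_0 hk := r_ne hk _
  have hcl : Cl (bFa k N) S' := by
    rintro (⟨i, d'⟩ | x)
    · show (Sum.inl ⟨i, N.1.a d'⟩ : bFT k N) ∈ S' ↔ (Sum.inl ⟨i, d'⟩ : bFT k N) ∈ S'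
      rw [hmem, hmem]
      have h3 : (Sum.inl (N.1.a d') : N.1.T) ∈ A ↔ Sum.inl d' ∈ A := hA.cl (Sum.inl d')
      rw [h3]
    · exact x.elim
  have hbr : brt hk N d ∈ S' := (hmem (BdCore_0 hk) d).2 (Or.inl ⟨rfl, hdA⟩)
  have hu : S' ≠ univ := by
    intro h3
    obtain ⟨d1, hd1⟩ : ∃ d1, N.1.s (Sum.inr true) = Sum.inl d1 := ⟨_, fstD_spec N true⟩
    have h4 : (Sum.inl ⟨BdCore_0 hk, d1⟩ : bFT k N) ∈ S' := h3 ▸ mem_univ _
    rw [hmem] at h4
    have h5 := hA.fst
    rw [hd1] at h5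
    rcases h4 with ⟨-, h4⟩ | ⟨h4, -⟩
    · exact h4 h5
    · exact hne h4.symm
  -- the two pieces
  set B : Finset N.1.T := univ \ (A ∪ N.1.root) with hB
  have hBr : ∀ b, (Sum.inr b : N.1.T) ∉ B := by
    intro b h3
    rw [hB, mem_sdiff, mem_union] at h3
    exact h3.2 (Or.inr (mem_root b))
  have hBm : ∀ d', (Sum.inl d' : N.1.T) ∈ B ↔ Sum.inl d' ∉ A := by
    intro d'
    rw [hB, mem_sdiff, mem_union]
    constructor
    · exact fun h3 h4 => h3.2 (Or.inl h4)
    · exact fun h3 => ⟨mem_univ _, fun h4 => h4.elim h3 (not_mem_root d')⟩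
  have hSU : S' = cp N (BdCore_0 hk) B ∪ cp N (BdCore_r k (BdCore_0 hk)) A := by
    ext t
    rcases t with ⟨i, d'⟩ | x
    · rw [mem_union, mem_cp, mem_cp, hBm, hmem]
    · exact x.elim
  have hdisj : Disjoint (cp N (BdCore_0 hk) B) (cp N (BdCore_r k (BdCore_0 hk)) A) := by
    rw [disjoint_left]
    rintro (⟨i, d'⟩ | x) h3 h4
    · rw [mem_cp] at h3 h4
      exact hne (h4.1.symm.trans h3.1)
    · exact x.elim
  have hc1 : cut (bFs k N) (cp N (BdCore_0 hk) B) = 4 := by
    rw [cut_cp hk N _ hBr]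
    exact compl_cut N hA
  have hc2 : cut (bFs k N) (cp N (BdCore_r k (BdCore_0 hk)) A) = 4 := by
    rw [cut_cp hk N _ (pref_inr hA)]
    exact hA.cut4
  have hcut : cut (bFs k N) S' = 4 := by
    have h3 : 4 ≤ cut (bFs k N) S' := hgood.ns S' hcl ⟨_, hbr⟩ hu
    have h4 : cut (bFs k N) (cp N (BdCore_0 hk) B ∪ cp N (BdCore_r k (BdCore_0 hk)) A) + 4 ≤
        cut (bFs k N) (cp N (BdCore_0 hk) B) +
          cut (bFs k N) (cp N (BdCore_r k (BdCore_0 hk)) A) := by
      refine cut_union_le hdisj (c := Sum.inl ⟨BdCore_0 hk, CompInj.lstD N true⟩)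
        (c' := Sum.inl ⟨BdCore_r k (BdCore_0 hk), CompInj.lstD N false⟩) ?_ (Or.inl ⟨?_, ?_⟩)
        (Or.inr ⟨?_, ?_⟩)
      · intro h5
        exact hne (sinl h5).symm
      · rw [mem_cp, hBm]
        refine ⟨rfl, fun h5 => hA' ?_⟩
        rw [← CompInj.lstD_spec N true, Perm.inv_def, Equiv.symm_apply_apply]
        exact h5
      · rw [next_true N _ (CompInj.lstD_spec N true), mem_cp]
        refine ⟨rfl, ?_⟩
        have h5 := hA.fst
        rw [fstD_spec] at h5
        exact h5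
      · rw [mem_cp]
        refine ⟨rfl, ?_⟩
        rw [← CompInj.lstD_spec N false, Perm.inv_def, Equiv.symm_apply_apply] at h1
        exact h1
      · rw [next_false N _ (CompInj.lstD_spec N false), mem_cp, Equiv.symm_apply_apply, hBm]
        refine ⟨rfl, ?_⟩
        rw [fstD_spec] at h2
        exact h2
    rw [← hSU, hc1, hc2] at h4
    omega
  refine ⟨⟨hcl, hcut, ⟨_, hbr, Perm.SameCycle.refl _ _⟩, ?_⟩, ?_⟩
  · rintro n h0 hn (⟨i, d'⟩ | x) h3 h4
    · rw [pow_inl hρ', hmem] at h4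
      rw [hmem] at h3
      have h5 : ∀ j, ((BdCore_r k) ^ n) j ≠ j := fun j => BdCore_free hk j n h0 hn
      rcases h3 with ⟨rfl, h6⟩ | ⟨rfl, h6⟩ <;> rcases h4 with ⟨h7, h8⟩ | ⟨h7, h8⟩
      · exact h5 _ h7
      · exact h6 h8
      · exact h8 h6
      · exact h5 _ h7
    · exact x.elim
  · rintro (⟨i, d'⟩ | x)
    · by_cases h3 : (Sum.inl d' : N.1.T) ∈ A
      · obtain ⟨n, -, hn⟩ := (BdCore_rot_sc hk i (BdCore_r k (BdCore_0 hk))).exists_pow_eq'
        exact ⟨n, by rw [pow_inl hρ', hmem]; exact Or.inr ⟨hn, h3⟩⟩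
      · obtain ⟨n, -, hn⟩ := (BdCore_rot_sc hk i (BdCore_0 hk)).exists_pow_eq'
        exact ⟨n, by rw [pow_inl hρ', hmem]; exact Or.inl ⟨hn, h3⟩⟩
    · exact x.elim

namespace BdFst
variable {k : ℕ}

theorem not_AtP (N : GB) {d : N.1.D} (h : N.1.s.SameCycle (Sum.inr false) (Sum.inl d)) :
    ¬ AtP N.1 d := fun h1 => N.2.noLoop (Sum.inr true) (h1.trans h.symm)

/-- the first dart of a part at the first vertex -/
theorem first_of (hk : 2 ≤ k) (N : GB) {d : N.1.D} (hd : AtP N.1 d) {i : (bondC k).K}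
    {u : bFT k N} (h1 : bFs k N u ∈ (bondC k).part (fun _ => N) i)
    (h2 : u ∉ (bondC k).part (fun _ => N) i)
    (h3 : (bFs k N).SameCycle (brt hk N d) (bFs k N u)) :
    bFs k N u = Sum.inl ⟨i, fstD N true⟩ := by
  rcases u with ⟨j, du⟩ | x
  · have hj : j ≠ i := fun h4 => h2 ((BdCore_mem N i j du).2 h4)
    rcases h : N.1.s (Sum.inl du) with d' | b
    · rw [next N j h, BdCore_mem] at h1
      exact absurd h1 hj
    · cases b
      · rw [next_false N j h] at h3 ⊢
        obtain ⟨i', d', h4, h5⟩ := (brt_iff hk N hd _).1 h3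
        have h6 := Sum.inl_injective h4
        rw [Sigma.mk.injEq] at h6
        rw [← eq_of_heq h6.2] at h5
        refine absurd h5 (not_AtP N ⟨1, ?_⟩)
        rw [zpow_one]
        exact fstD_spec N false
      · rw [next_true N j h] at h1 ⊢
        rw [BdCore_mem] at h1
        rw [h1]
  · exact x.elim

/-- the last dart of a part at the first vertex -/
theorem last_of (hk : 2 ≤ k) (N : GB) {d : N.1.D} (hd : AtP N.1 d) {i : (bondC k).K}
    {u : bFT k N} (h1 : u ∈ (bondC k).part (fun _ => N) i)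
    (h2 : bFs k N u ∉ (bondC k).part (fun _ => N) i)
    (h3 : (bFs k N).SameCycle (brt hk N d) u) :
    u = Sum.inl ⟨i, CompInj.lstD N true⟩ := by
  rcases u with ⟨j, du⟩ | x
  · have hj : j = i := (BdCore_mem N i j du).1 h1
    subst hj
    rcases h : N.1.s (Sum.inl du) with d' | b
    · rw [next N j h, BdCore_mem] at h2
      exact absurd rfl h2
    · cases b
      · obtain ⟨i', d', h4, h5⟩ := (brt_iff hk N hd _).1 h3
        have h6 := Sum.inl_injective h4
        rw [Sigma.mk.injEq] at h6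
        rw [← eq_of_heq h6.2] at h5
        refine absurd h5 (not_AtP N (Perm.SameCycle.symm ⟨1, ?_⟩))
        rw [zpow_one]
        exact h
      · rw [CompInj.eq_lstD h]
  · exact x.elim

/-- exponents under conjugation -/
theorem conj_pow {T T' : Type*} (f : T ≃ T') (ρ : Perm T) (n : ℕ) (t : T) :
    (((f.symm.trans ρ).trans f) ^ n) (f t) = f ((ρ ^ n) t) := by
  induction n with
  | zero => rfl
  | succ n ih =>
    rw [pow_succ', Perm.mul_apply, ih, pow_succ', Perm.mul_apply]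
    show f (ρ (f.symm (f _))) = _
    rw [f.symm_apply_apply]

/-- the last step of `exists_bond` -/
theorem step {T : Type} [Fintype T] [DecidableEq T] {a s ρ : Perm T} {k : ℕ} {r : T}
    (h : Good a s) (hr : Rot a s ρ k r) (hk : 2 ≤ k) (n : ℕ) :
    ∀ S : Finset T, VS a s ρ k r S → (∀ t, ∃ i : ℕ, (ρ ^ i) t ∈ S) → r ∈ S →
      (s⁻¹ ^ n) r ∉ S → ∃ (N : GB) (d : N.1.D) (e : T ≃ bFT k N), AtP N.1 d ∧ FirstC N.1 d ∧
      (∀ t, e (a t) = bFa k N (e t)) ∧ (∀ t, e (s t) = bFs k N (e t)) ∧ e r = brt hk N d := by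
  induction n using Nat.strong_induction_on with
  | _ n ih =>
  intro S hS hc hrS hn
  obtain ⟨N, d, e, hd, hea, hes, her, hpart⟩ := bd_iso h hr hk hS hc hrS
  by_cases hf : FirstC N.1 d
  · exact ⟨N, d, e, hd, hf, hea, hes, her⟩
  obtain ⟨A, hA, hA', hdA⟩ : ∃ A, Pref N.1 A ∧ N.1.s⁻¹ (Sum.inr true) ∉ A ∧ Sum.inl d ∉ A := by
    by_contra hcon
    apply hf
    intro A h1 h2
    by_contra h3
    exact hcon ⟨A, h1, h2, h3⟩
  obtain ⟨ρ', hr', hρ', -, -⟩ := bFT_rot hk N hd
  set B : Finset N.1.T := Aᶜ with hB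
  obtain ⟨S1, hS1⟩ : ∃ S1, S1 = cp N (BdCore_0 hk) B ∪ cp N (BdCore_r k (BdCore_0 hk)) A :=
    ⟨_, rfl⟩
  have hmem : ∀ (i : (bondC k).K) d', (Sum.inl ⟨i, d'⟩ : bFT k N) ∈ S1 ↔
      (i = BdCore_0 hk ∧ Sum.inl d' ∉ A) ∨ (i = BdCore_r k (BdCore_0 hk) ∧ Sum.inl d' ∈ A) := by
    intro i d'
    rw [hS1, mem_union, mem_cp, mem_cp, hB, mem_compl]
  obtain ⟨hV, hcov⟩ := bond_move hk N hd hr' hρ' hA hA' hdA S1 hmem
  have hea' := CutIso.symm hea
  have hes' := CutIso.symm hes
  have her' : e.symm (brt hk N d) = r := by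
    rw [Equiv.symm_apply_eq, her]
  have hr2 : Rot a s ((e.symm.symm.trans ρ').trans e.symm) k (e.symm (brt hk N d)) :=
    Rot.iso e.symm hea' hes' hr'
  have hV2 : VS a s ((e.symm.symm.trans ρ').trans e.symm) k (e.symm (brt hk N d))
      (S1.map e.symm.toEmbedding) := (VS.iso e.symm hea' hes' S1).2 hV
  rw [her'] at hr2 hV2
  have hV3 : VS a s ρ k r (S1.map e.symm.toEmbedding) := (VS.indep h hr2 hr _).1 hV2
  have hm : ∀ t, t ∈ S1.map e.symm.toEmbedding ↔ e t ∈ S1 := by
    intro t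
    rw [mem_map_equiv, Equiv.symm_symm]
  have hcov2 : ∀ t, ∃ i : ℕ, (ρ ^ i) t ∈ S1.map e.symm.toEmbedding := by
    intro t
    obtain ⟨i, hi⟩ := hcov (e t)
    obtain ⟨m, -, hm2⟩ := Rot.pow_eq h hr hr2
    refine ⟨m * i, ?_⟩
    rw [hm, pow_mul, ← hm2]
    have h1 := conj_pow e.symm ρ' i (e t)
    rw [e.symm_apply_apply] at h1
    rw [h1, e.apply_symm_apply]
    exact hi
  -- going back
  have hex : ∃ n, (s⁻¹ ^ n) r ∉ S := ⟨n, hn⟩
  have h1 := Nat.find_spec hex
  have h2 : Nat.find hex ≤ n := Nat.find_min' hex hn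
  have h3 : Nat.find hex ≠ 0 := by
    intro h4
    rw [h4] at h1
    exact h1 hrS
  obtain ⟨m, hm2⟩ : ∃ m, Nat.find hex = m + 1 := ⟨Nat.find hex - 1, by omega⟩
  have h4 : (s⁻¹ ^ m) r ∈ S := by
    by_contra h5
    exact Nat.find_min hex (by omega : m < Nat.find hex) h5
  rw [hm2, pow_succ', Perm.mul_apply] at h1
  refine ih m (by omega) _ hV3 hcov2 ?_ ?_
  · rw [hm, her]
    exact (hmem (BdCore_0 hk) d).2 (Or.inl ⟨rfl, hdA⟩)
  · rw [hm]
    have h5 : s.SameCycle r ((s⁻¹ ^ m) r) := by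
      rw [← Perm.sameCycle_inv]
      exact ⟨m, by rw [zpow_natCast]⟩
    have h6 : bFs k N (e (s⁻¹ ((s⁻¹ ^ m) r))) = e ((s⁻¹ ^ m) r) := by
      rw [← hes, SerExcl.apply_inv]
    have h7 : bFs k N (e (s⁻¹ ((s⁻¹ ^ m) r))) = Sum.inl ⟨BdCore_0 hk, fstD N true⟩ := by
      refine first_of hk N hd ?_ ?_ ?_
      · rw [h6]
        exact (hpart _).2 h4
      · intro h8
        exact h1 ((hpart _).1 h8)
      · rw [h6, ← her]
        exact (BdGeo_sc e hes _ _).2 h5
    rw [← h6, h7, hmem]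
    have h8 := hA.fst
    rw [fstD_spec] at h8
    rintro (⟨-, h9⟩ | ⟨h9, -⟩)
    · exact h9 h8
    · exact r_ne hk _ h9.symm

end BdFst

open BdFst in
/-- Proof.  Among the sets `S` which are `VS`, contain `r` and have covering translates choose one for which the number `μ` of
darts of `S` before `r` in the rotation (from the first dart of `S` at this vertex) is minimal (there is one: a translate of the set
given by `Bd`).  `bd_iso`.  If `d` is not in the first component, `bond_move` gives another such set, which contains `r`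
and has a smaller `μ`: its darts before `r` are the darts of `S` before `r` without those of `A` (the darts of `A` at
this vertex are the first darts of `S`: `A` is entered and left once, starting with the first dart). -/
theorem exists_bond {T : Type} [Fintype T] [DecidableEq T] {a s ρ : Perm T} {k : ℕ} {r : T}
    (h : Good a s) (hr : Rot a s ρ k r) (hk : 2 ≤ k) (hb : Bd a s ρ k r) :
    ∃ (N : GB) (d : N.1.D) (e : T ≃ bFT k N), AtP N.1 d ∧ FirstC N.1 d ∧
      (∀ t, e (a t) = bFa k N (e t)) ∧ (∀ t, e (s t) = bFs k N (e t)) ∧ e r = brt hk N d := by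
  obtain ⟨S, hS, hc⟩ := hb
  obtain ⟨j, hj, hrj⟩ := BdGeo_cov hr hc r
  have hS' := hS.tr hr j
  have hc' : ∀ t, ∃ i : ℕ, (ρ ^ i) t ∈ tr ρ j S := by
    intro t
    obtain ⟨i, hi⟩ := hc t
    refine ⟨j + i, ?_⟩
    rw [pow_add, Perm.mul_apply, mem_tr]
    exact hi
  obtain ⟨x, hx, hrx⟩ := (hS'.shC hr).2
  rw [← Perm.sameCycle_inv] at hrx
  obtain ⟨n, -, hn⟩ := hrx.exists_pow_eq'
  exact step h hr hk n _ hS' hc' hrj (by rw [hn]; exact hx)

namespace BdFst
variable {k : ℕ}

/-- a crossing set cannot contain the last dart and not the first dart of a part whose root is in the first component -/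
theorem no_first {T : Type} [Fintype T] [DecidableEq T] {a s : Perm T} (h : Good a s)
    (hk : 2 ≤ k) (N : GB) {d : N.1.D} (hf : FirstC N.1 d) (e : bFT k N ≃ T)
    (ha : ∀ t, e (bFa k N t) = a (e t)) (hs : ∀ t, e (bFs k N t) = s (e t))
    {S S1 : Finset T} (hS : ∀ t, e t ∈ S ↔ t ∈ (bondC k).part (fun _ => N) (BdCore_0 hk))
    (hScl : Cl a S) (hS4 : cut s S = 4)
    (hcl : Cl a S1) (h4 : cut s S1 = 4) (hi : (S ∩ S1).Nonempty) (hu : S ∪ S1 ≠ univ)
    (h1 : (S \ S1).Nonempty) (h2 : (S1 \ S).Nonempty) (hr : e (brt hk N d) ∈ S1)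
    (hfst : e (Sum.inl ⟨BdCore_0 hk, fstD N true⟩) ∉ S1)
    (hlst : e (Sum.inl ⟨BdCore_0 hk, CompInj.lstD N true⟩) ∈ S1) : False := by
  set A : Finset N.1.T := univ.filter fun t => ∃ d', t = Sum.inl d' ∧
    e (Sum.inl ⟨BdCore_0 hk, d'⟩) ∉ S1 with hA
  set C : Finset N.1.T := univ.filter fun t => ∃ d', t = Sum.inl d' ∧
    e (Sum.inl ⟨BdCore_0 hk, d'⟩) ∈ S1 with hC
  have hAm : ∀ d', (Sum.inl d' : N.1.T) ∈ A ↔ e (Sum.inl ⟨BdCore_0 hk, d'⟩) ∉ S1 := by
    intro d'
    rw [hA, mem_filter]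
    constructor
    · rintro ⟨-, d2, h3, h5⟩
      rw [Sum.inl_injective h3]
      exact h5
    · exact fun h3 => ⟨mem_univ _, d', rfl, h3⟩
  have hCm : ∀ d', (Sum.inl d' : N.1.T) ∈ C ↔ e (Sum.inl ⟨BdCore_0 hk, d'⟩) ∈ S1 := by
    intro d'
    rw [hC, mem_filter]
    constructor
    · rintro ⟨-, d2, h3, h5⟩
      rw [Sum.inl_injective h3]
      exact h5
    · exact fun h3 => ⟨mem_univ _, d', rfl, h3⟩
  have hAr : ∀ b, (Sum.inr b : N.1.T) ∉ A := by
    intro b h3
    rw [hA, mem_filter] at h3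
    obtain ⟨-, d2, h5, -⟩ := h3
    simp at h5
  have hCr : ∀ b, (Sum.inr b : N.1.T) ∉ C := by
    intro b h3
    rw [hC, mem_filter] at h3
    obtain ⟨-, d2, h5, -⟩ := h3
    simp at h5
  have hS' : ∀ i d', e (Sum.inl ⟨i, d'⟩) ∈ S ↔ i = BdCore_0 hk := by
    intro i d'
    rw [hS, BdCore_mem]
  have e1 : (cp N (BdCore_0 hk) A).map e.toEmbedding = S \ S1 := by
    ext t
    obtain ⟨u, rfl⟩ := e.surjective t
    rw [CutIso.mem, mem_sdiff]
    rcases u with ⟨i, d'⟩ | x
    · rw [mem_cp, hAm, hS']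
      constructor
      · rintro ⟨rfl, h3⟩
        exact ⟨rfl, h3⟩
      · rintro ⟨rfl, h3⟩
        exact ⟨rfl, h3⟩
    · exact x.elim
  have e2 : (cp N (BdCore_0 hk) C).map e.toEmbedding = S ∩ S1 := by
    ext t
    obtain ⟨u, rfl⟩ := e.surjective t
    rw [CutIso.mem, mem_inter]
    rcases u with ⟨i, d'⟩ | x
    · rw [mem_cp, hCm, hS']
      constructor
      · rintro ⟨rfl, h3⟩
        exact ⟨rfl, h3⟩
      · rintro ⟨rfl, h3⟩
        exact ⟨rfl, h3⟩
    · exact x.elim
  have hcA : cut N.1.s A = 4 := by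
    rw [← cut_cp hk N (BdCore_0 hk) hAr, ← cut_iso e hs, e1]
    exact (h.ns.uncross_sdiff hScl hcl hS4 h4 h1 h2).1
  have hcC : cut N.1.s C = 4 := by
    rw [← cut_cp hk N (BdCore_0 hk) hCr, ← cut_iso e hs, e2]
    exact (h.ns.uncross hScl hcl hS4 h4 hi hu).1
  have hcomp : (A ∪ N.1.root)ᶜ = C := by
    ext t
    rw [mem_compl, mem_union]
    rcases t with d' | b
    · rw [hAm, hCm]
      constructor
      · intro h3
        by_contra h5
        exact h3 (Or.inl h5)
      · rintro h3 (h5 | h5)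
        · exact h5 h3
        · exact not_mem_root d' h5
    · constructor
      · exact fun h3 => absurd (Or.inr (mem_root b)) h3
      · exact fun h3 => absurd h3 (hCr b)
  have hdA : (Sum.inl d : N.1.T) ∉ A := by
    rw [hAm]
    exact fun h3 => h3 hr
  have hpref : Pref N.1 A :=
    { cl := by
        rintro (d' | b)
        · show (Sum.inl (N.1.a d') : N.1.T) ∈ A ↔ _
          rw [hAm, hAm, not_iff_not, ← hcl (e (Sum.inl ⟨BdCore_0 hk, d'⟩)), ← ha]
          rfl
        · show (Sum.inr (!b) : N.1.T) ∈ A ↔ _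
          exact ⟨fun h3 => absurd h3 (hAr _), fun h3 => absurd h3 (hAr _)⟩
      root := hAr true
      fst := by
        rw [fstD_spec, hAm]
        exact hfst
      rest := by
        intro h3
        have h5 : (Sum.inl d : N.1.T) ∈ A ∪ N.1.root := h3 ▸ mem_univ _
        rw [mem_union] at h5
        exact h5.elim hdA (not_mem_root d)
      cut4 := hcA
      cut4' := by
        rw [← cut_compl, hcomp]
        exact hcC }
  refine hdA (hf A hpref ?_)
  rw [← CompInj.lstD_spec N true, Perm.inv_def, Equiv.symm_apply_apply, hAm]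
  exact fun h3 => h3 hlst

section
variable {T : Type*} [Fintype T] [DecidableEq T] {a s : Perm T} {A B : Finset T}

theorem case3a (h : Good a s) (hA : Cl a A) (hB : Cl a B) (h4 : cut s A = 4)
    (h4' : cut s B = 4) (hi : (A ∩ B).Nonempty) (hu : A ∪ B ≠ univ) (hab : (A \ B).Nonempty)
    (hba : (B \ A).Nonempty) {r w t z' : T} (hrw : s.SameCycle r w) (hwA : w ∉ A) (hwB : w ∉ B)
    (hw : s w ∈ A ∩ B) (hrt : s.SameCycle r t) (ht : t ∈ A ∩ B) (ht' : s t ∈ A \ B)
    (hrz : s.SameCycle r z') (hz : z' ∈ B \ A) : False := by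
  obtain ⟨c1, c2⟩ := h.ns.uncross hA hB h4 h4' hi hu
  have hsh : ShC s (B \ A) r := ⟨⟨z', hz, hrz⟩, t, fun h1 =>
    (mem_sdiff.1 h1).2 (mem_inter.1 ht).1, hrt⟩
  obtain ⟨y, hry, hy, hy'⟩ := exists_entry hsh
  by_cases hyA : y ∈ A
  · by_cases hyB : y ∈ B
    · have h1 : y = t := by
        refine h.exit_unique (hA.inter hB) c1 (mem_inter.2 ⟨hyA, hyB⟩) ?_ ht ?_
          (hry.symm.trans hrt)
        · intro h2
          exact (mem_sdiff.1 hy').2 (mem_inter.1 h2).1
        · intro h2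
          exact (mem_sdiff.1 ht').2 (mem_inter.1 h2).2
      rw [h1] at hy'
      exact (mem_sdiff.1 hy').2 (mem_sdiff.1 ht').1
    · exact (h.cross_corners hA hB h4 h4' hi hu hab hba y).1 ⟨mem_sdiff.2 ⟨hyA, hyB⟩, hy'⟩
  · have hyB : y ∉ B := fun h1 => hy (mem_sdiff.2 ⟨h1, hyA⟩)
    have h1 : y = w := by
      refine h.entry_unique (hA.union hB) c2 ?_ ?_ ?_ ?_ (hry.symm.trans hrw)
      · intro h2
        exact (mem_union.1 h2).elim hyA hyB
      · exact mem_union_right _ (mem_sdiff.1 hy').1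
      · intro h2
        exact (mem_union.1 h2).elim hwA hwB
      · exact mem_union_left _ (mem_inter.1 hw).1
    rw [h1] at hy'
    exact (mem_sdiff.1 hy').2 (mem_inter.1 hw).1

theorem case3 (h : Good a s) (hA : Cl a A) (hB : Cl a B) (h4 : cut s A = 4)
    (h4' : cut s B = 4) (hi : (A ∩ B).Nonempty) (hu : A ∪ B ≠ univ) (hab : (A \ B).Nonempty)
    (hba : (B \ A).Nonempty) {r w z z' : T} (hrw : s.SameCycle r w) (hwA : w ∉ A) (hwB : w ∉ B)
    (hw : s w ∈ A ∩ B) (hrz : s.SameCycle r z) (hz : z ∈ A \ B)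
    (hrz' : s.SameCycle r z') (hz' : z' ∈ B \ A) : False := by
  have hsh : ShC s (A ∩ B) r := ⟨⟨s w, hw, Perm.sameCycle_apply_right.2 hrw⟩, w, fun h1 =>
    hwA (mem_inter.1 h1).1, hrw⟩
  obtain ⟨t, hrt, ht, ht'⟩ := exists_exit hsh
  have hcr := h.cross_corners hA hB h4 h4' hi hu hab hba t
  by_cases h1 : s t ∈ A
  · have h2 : s t ∉ B := fun h2 => ht' (mem_inter.2 ⟨h1, h2⟩)
    exact case3a h hA hB h4 h4' hi hu hab hba hrw hwA hwB hw hrt ht (mem_sdiff.2 ⟨h1, h2⟩)
      hrz' hz'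
  · by_cases h2 : s t ∈ B
    · rw [inter_comm] at hi hw ht
      rw [union_comm] at hu
      exact case3a h hB hA h4' h4 hi hu hba hab hrw hwB hwA hw hrt ht (mem_sdiff.2 ⟨h2, h1⟩)
        hrz hz
    · exact hcr.2.2.1 ⟨ht, fun h3 => (mem_union.1 h3).elim h1 h2⟩

end

theorem card_FT (N : GB) : Fintype.card (bFT k N) = k * Fintype.card N.1.D := by
  have h : Fintype.card ((Σ _ : Fin k, N.1.D) ⊕ Empty) = k * Fintype.card N.1.D := by
    simp
  exact h

theorem card_part (N : GB) (i : (bondC k).K) :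
    ((bondC k).part (fun _ => N) i).card = Fintype.card N.1.D := by
  rw [← card_univ]
  symm
  refine Finset.card_bij (fun d _ => (Sum.inl ⟨i, d⟩ : bFT k N)) ?_ ?_ ?_
  · intro d _
    exact (BdCore_mem N i i d).2 rfl
  · intro d _ d' _ h
    have h1 := Sum.inl_injective h
    rw [Sigma.mk.injEq] at h1
    exact eq_of_heq h1.2
  · intro t ht
    obtain ⟨d, rfl⟩ := (GCo.mem_part (bondC k) (fun _ => N)).1 ht
    exact ⟨d, mem_univ _, rfl⟩

theorem first_mem (hk : 2 ≤ k) (N : GB) {d : N.1.D} (hd : AtP N.1 d) :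
    bFs k N (Sum.inl ⟨(BdCore_r k).symm (BdCore_0 hk), CompInj.lstD N true⟩) =
      Sum.inl ⟨BdCore_0 hk, fstD N true⟩ ∧
    (bFs k N).SameCycle (brt hk N d)
      (Sum.inl ⟨(BdCore_r k).symm (BdCore_0 hk), CompInj.lstD N true⟩) ∧
    (bFs k N).SameCycle (brt hk N d) (Sum.inl ⟨BdCore_0 hk, CompInj.lstD N true⟩) ∧
    bFs k N (Sum.inl ⟨BdCore_0 hk, CompInj.lstD N true⟩) ∉
      (bondC k).part (fun _ => N) (BdCore_0 hk) := by
  have h1 : AtP N.1 (CompInj.lstD N true) := by
    refine Perm.SameCycle.symm ⟨1, ?_⟩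
    rw [zpow_one]
    exact CompInj.lstD_spec N true
  refine ⟨?_, (brt_iff hk N hd _).2 ⟨_, _, rfl, h1⟩, (brt_iff hk N hd _).2 ⟨_, _, rfl, h1⟩, ?_⟩
  · rw [next_true N _ (CompInj.lstD_spec N true), Equiv.apply_symm_apply]
  · rw [next_true N _ (CompInj.lstD_spec N true), BdCore_mem]
    exact r_ne hk _

/-- the parts 0 correspond -/
theorem part_eq (hk : 2 ≤ k) {N N' : GB} {d : N.1.D} {d' : N'.1.D} (hd : AtP N.1 d)
    (hd' : AtP N'.1 d') (hf : FirstC N.1 d) (hf' : FirstC N'.1 d') (e : bFT k N ≃ bFT k N')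
    (ha : ∀ t, e (bFa k N t) = bFa k N' (e t)) (hs : ∀ t, e (bFs k N t) = bFs k N' (e t))
    (he : e (brt hk N d) = brt hk N' d') {S : Finset (bFT k N')}
    (hS : S = ((bondC k).part (fun _ => N) (BdCore_0 hk)).map e.toEmbedding) :
    S = (bondC k).part (fun _ => N') (BdCore_0 hk) := by
  obtain ⟨ρ, hr, hρ, hV, -⟩ := bFT_rot hk N hd
  obtain ⟨ρ', hr', hρ', hV', -⟩ := bFT_rot hk N' hd'
  have hgood := bFT_good hk N'
  have hrc := Rot.iso e ha hs hr
  have hVc : VS _ _ _ _ _ S := hS ▸ (VS.iso e ha hs _).2 (hV (BdCore_0 hk))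
  rw [he] at hrc hVc
  have hVS : VS (bFa k N') (bFs k N') ρ' k (brt hk N' d') S := (VS.indep hgood hrc hr' _).1 hVc
  have hVS' := hV' (BdCore_0 hk)
  set S' := (bondC k).part (fun _ => N') (BdCore_0 hk) with hS'
  have hmS : ∀ t, e t ∈ S ↔ t ∈ (bondC k).part (fun _ => N) (BdCore_0 hk) := by
    intro t
    rw [hS]
    exact CutIso.mem e _ t
  have hcard : S.card = S'.card := by
    rw [hS, card_map, hS', card_part, card_part]
    have h1 := Fintype.card_congr e
    rw [card_FT, card_FT] at h1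
    exact Nat.eq_of_mul_eq_mul_left (by omega) h1
  by_contra hne
  have hab : (S \ S').Nonempty := by
    rw [sdiff_nonempty]
    intro h1
    exact hne (eq_of_subset_of_card_le h1 hcard.ge)
  have hba : (S' \ S).Nonempty := by
    rw [sdiff_nonempty]
    intro h1
    exact hne (eq_of_subset_of_card_le h1 hcard.le).symm
  have hr1 : brt hk N' d' ∈ S := by
    rw [← he, hmS]
    exact (BdCore_mem N _ _ d).2 rfl
  have hr2 : brt hk N' d' ∈ S' := (BdCore_mem N' _ _ d').2 rfl
  have hi : (S ∩ S').Nonempty := ⟨_, mem_inter.2 ⟨hr1, hr2⟩⟩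
  have hi' : (S' ∩ S).Nonempty := ⟨_, mem_inter.2 ⟨hr2, hr1⟩⟩
  have hu := hVS.union_ne hr' hVS' hi
  have hu' := hVS'.union_ne hr' hVS hi'
  have ho := hVS.out hgood hr' hVS' hi hab hba
  have ho' := hVS'.out hgood hr' hVS hi' hba hab
  have hsh := hVS.shC hr'
  have hsh' := hVS'.shC hr'
  obtain ⟨f1, f2, f3, f4⟩ := first_mem hk N hd
  obtain ⟨g1, g2, g3, g4⟩ := first_mem hk N' hd'
  have f2' := (BdGeo_sc e hs _ _).2 f2
  have f3' := (BdGeo_sc e hs _ _).2 f3
  rw [he] at f2' f3'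
  have hzS : e (Sum.inl ⟨BdCore_0 hk, CompInj.lstD N true⟩) ∈ S :=
    (hmS _).2 ((BdCore_mem N _ _ _).2 rfl)
  have hzS' : bFs k N' (e (Sum.inl ⟨BdCore_0 hk, CompInj.lstD N true⟩)) ∉ S := by
    rw [← hs, hmS]
    exact f4
  have hwS : e (Sum.inl ⟨(BdCore_r k).symm (BdCore_0 hk), CompInj.lstD N true⟩) ∉ S := by
    rw [hmS, BdCore_mem]
    exact r_ne' hk _
  have hwS' : bFs k N' (e (Sum.inl ⟨(BdCore_r k).symm (BdCore_0 hk), CompInj.lstD N true⟩)) =
      e (Sum.inl ⟨BdCore_0 hk, fstD N true⟩) := by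
    rw [← hs, f1]
  have hwS2 : e (Sum.inl ⟨BdCore_0 hk, fstD N true⟩) ∈ S :=
    (hmS _).2 ((BdCore_mem N _ _ _).2 rfl)
  have kzS : (Sum.inl ⟨BdCore_0 hk, CompInj.lstD N' true⟩ : bFT k N') ∈ S' :=
    (BdCore_mem N' _ _ _).2 rfl
  have kwS : (Sum.inl ⟨(BdCore_r k).symm (BdCore_0 hk), CompInj.lstD N' true⟩ : bFT k N') ∉ S' := by
    rw [hS', BdCore_mem]
    exact r_ne' hk _
  have kwS2 : (Sum.inl ⟨BdCore_0 hk, fstD N' true⟩ : bFT k N') ∈ S' :=
    (BdCore_mem N' _ _ _).2 rfl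
  have c1 := hgood.cross_exit hVS'.cl hVS.cl hVS'.cut4 hVS.cut4 hi' hu' hba hab hsh' hsh ho'
    f3' hzS hzS' f2' hwS (by rw [hwS']; exact hwS2)
  have c2 := hgood.cross_exit hVS.cl hVS'.cl hVS.cut4 hVS'.cut4 hi hu hab hba hsh hsh' ho
    g3 kzS g4 g2 kwS (by rw [g1]; exact kwS2)
  rw [hwS'] at c1
  rw [g1] at c2
  rcases c1 with ⟨c1, c1'⟩ | ⟨c1, c1'⟩
  · exact no_first hgood hk N hf e ha hs hmS hVS.cl hVS.cut4 hVS'.cl hVS'.cut4 hi hu hab hba
      (by rw [he]; exact hr2) c1' c1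
  rcases c2 with ⟨c2, c2'⟩ | ⟨c2, c2'⟩
  · exact no_first hgood hk N' hf' (Equiv.refl _) (fun _ => rfl) (fun _ => rfl)
      (fun _ => Iff.rfl) hVS'.cl hVS'.cut4 hVS.cl hVS.cut4 hi' hu' hba hab hr1 c2' c2
  -- the same first dart
  have hcI := (hgood.ns.uncross hVS.cl hVS'.cl hVS.cut4 hVS'.cut4 hi hu).1
  have hww : e (Sum.inl ⟨(BdCore_r k).symm (BdCore_0 hk), CompInj.lstD N true⟩) =
      Sum.inl ⟨(BdCore_r k).symm (BdCore_0 hk), CompInj.lstD N' true⟩ := by
    refine hgood.entry_unique (hVS.cl.inter hVS'.cl) hcI ?_ ?_ ?_ ?_ (f2'.symm.trans g2)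
    · exact fun h1 => hwS (mem_inter.1 h1).1
    · rw [hwS']
      exact mem_inter.2 ⟨hwS2, c1'⟩
    · exact fun h1 => kwS (mem_inter.1 h1).2
    · rw [g1]
      exact mem_inter.2 ⟨c2', kwS2⟩
  refine case3 hgood hVS.cl hVS'.cl hVS.cut4 hVS'.cut4 hi hu hab hba f2' hwS
    (by rw [hww]; exact kwS) (by rw [hwS']; exact mem_inter.2 ⟨hwS2, c1'⟩) f3'
    (mem_sdiff.2 ⟨hzS, c1⟩) g3 (mem_sdiff.2 ⟨kzS, c2⟩)

end BdFst

open BdFst in
/-- Proof.  Let `ρ'` be the rotation of the second bond (`bFT_rot`); `S = e (part 0)` and `S' = part 0` are both `VS` for `ρ'`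
(`VS.iso`, `VS.indep`) with covering translates, and contain the root `r' = brt hk N' d'`.  Claim: `S = S'`.  Both have `|T| / k`
elements.  Suppose `S ≠ S'`; then they cross.  They have the same ends.  Let `w`, `z` be the entry and the exit of `S` at `r'`,
`w'`, `z'` those of `S'`.  By `Good.cross_exit` exactly one of `z`, `s w` is in `S'`, and exactly one of `z'`, `s w'` is in `S`.
If `s w ∉ S'`: `A = S \ S'` is closed of cut 4, `S ∩ S'` too, `A` contains the first dart `s w` and not the last one `z`, so `A`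
(transported to `N`) is a parallel prefix of `N` which does not contain `d`, contradiction to `FirstC`.  If `s w' ∉ S`: the same
for `N'`.  Otherwise `s w, s w' ∈ S ∩ S'`, `z ∉ S'`, `z' ∉ S`; `w` and `w'` are entries of `S ∩ S'` at `r'`, so `w = w'`.  The exit `t` of
`S ∩ S'` at `r'` goes to `S \ S'` or to `S' \ S` (`cross_corners`), say to `S \ S'`.  `S' \ S` has darts at `r'` (`z'`), its entry `y` at `r'`
is not in `S ∩ S'` (the only exit of `S ∩ S'` is `t`), not in `S \ S'` (`cross_corners`), so it is outside `S ∪ S'`: `y` and `w` are two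
different entries of `S ∪ S'` (cut 4), contradiction.
So `e` maps the part 0 to the part 0; then it maps parts to parts (translates), and `GCo.uniq` gives the isomorphism `g` of the
nets at 0, with `g (inr true) = inr true` since the first vertex is mapped to the first vertex, and `g (inl d) = inl d'`. -/
theorem bond_uniq {k : ℕ} (hk : 2 ≤ k) {N N' : GB} {d : N.1.D} {d' : N'.1.D} (hd : AtP N.1 d)
    (hd' : AtP N'.1 d') (hf : FirstC N.1 d) (hf' : FirstC N'.1 d') (e : bFT k N ≃ bFT k N')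
    (ha : ∀ t, e (bFa k N t) = bFa k N' (e t)) (hs : ∀ t, e (bFs k N t) = bFs k N' (e t))
    (he : e (brt hk N d) = brt hk N' d') :
    ∃ g : N.1.T ≃ N'.1.T, (∀ t, g (N.1.aa t) = N'.1.aa (g t)) ∧
      (∀ t, g (N.1.s t) = N'.1.s (g t)) ∧ g (Sum.inr true) = Sum.inr true ∧
      g (Sum.inl d) = Sum.inl d' := by
  obtain ⟨ρ, hr, hρ0, -, -⟩ := bFT_rot hk N hd
  obtain ⟨ρ', hr', hρ0', -, -⟩ := bFT_rot hk N' hd'
  have hρ : ∀ (i : (bondC k).K) d', ρ (Sum.inl ⟨i, d'⟩) = Sum.inl ⟨BdCore_r k i, d'⟩ := hρ0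
  have hρ' : ∀ (i : (bondC k).K) d', ρ' (Sum.inl ⟨i, d'⟩) = Sum.inl ⟨BdCore_r k i, d'⟩ := hρ0'
  clear hρ0 hρ0'
  have hgood := bFT_good hk N'
  have hrc := Rot.iso e ha hs hr
  rw [he] at hrc
  obtain ⟨m, hmc, hm⟩ := Rot.pow_eq hgood hr' hrc
  have h0 : ∀ t, e t ∈ (bondC k).part (fun _ => N') (BdCore_0 hk) ↔
      t ∈ (bondC k).part (fun _ => N) (BdCore_0 hk) := by
    intro t
    rw [← part_eq hk hd hd' hf hf' e ha hs he rfl]
    exact CutIso.mem e _ t
  -- where the parts go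
  have hgo : ∀ i d1, ∃ n d2, (BdCore_r k ^ n) (BdCore_0 hk) = i ∧
      e (Sum.inl ⟨i, d1⟩) = Sum.inl ⟨(BdCore_r k ^ (m * n)) (BdCore_0 hk), d2⟩ := by
    intro i d1
    obtain ⟨n, -, hn⟩ := (BdCore_rot_sc hk (BdCore_0 hk) i).exists_pow_eq'
    obtain ⟨d2, hd2⟩ := (GCo.mem_part (bondC k) (fun _ => N')).1
      ((h0 (Sum.inl ⟨BdCore_0 hk, d1⟩)).2 ((BdCore_mem N _ _ _).2 rfl))
    refine ⟨n, d2, hn, ?_⟩
    have h1 := conj_pow e ρ n (Sum.inl ⟨BdCore_0 hk, d1⟩)
    rw [pow_inl hρ, hn, hm, ← pow_mul, hd2, pow_inl hρ'] at h1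
    exact h1.symm
  have hmod : ∀ n n', (BdCore_r k ^ n) (BdCore_0 hk) = (BdCore_r k ^ n') (BdCore_0 hk) →
      n ≡ n' [MOD k] := by
    have hord : orderOf (BdCore_r k) = k := BdCore_card hk
    have key : ∀ n n', n ≤ n' →
        (BdCore_r k ^ n) (BdCore_0 hk) = (BdCore_r k ^ n') (BdCore_0 hk) → n ≡ n' [MOD k] := by
      intro n n' hle h1
      obtain ⟨l, rfl⟩ := Nat.exists_eq_add_of_le hle
      rw [pow_add, Perm.mul_apply] at h1
      have h2 := ((BdCore_r k) ^ n).injective h1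
      have h3 : k ∣ l := by
        by_contra h4
        have h5 : 0 < l % k := by
          rcases Nat.eq_zero_or_pos (l % k) with h6 | h6
          · exact absurd (Nat.dvd_of_mod_eq_zero h6) h4
          · exact h6
        refine BdCore_free hk (BdCore_0 hk) (l % k) h5 (Nat.mod_lt _ (by omega)) ?_
        have h6 : BdCore_r k ^ (l % k) = BdCore_r k ^ l := by
          rw [pow_eq_pow_iff_modEq, hord]
          exact Nat.mod_modEq l k
        rw [h6]
        exact h2.symm
      exact (Nat.modEq_iff_dvd' hle).2 (by simpa using h3)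
    intro n n' h1
    rcases le_total n n' with h2 | h2
    · exact key n n' h2 h1
    · exact (key n' n h2 h1.symm).symm
  have hmod' : ∀ n n', n ≡ n' [MOD k] →
      (BdCore_r k ^ n) (BdCore_0 hk) = (BdCore_r k ^ n') (BdCore_0 hk) := by
    intro n n' h1
    have hord : orderOf (BdCore_r k) = k := BdCore_card hk
    have h2 : BdCore_r k ^ n = BdCore_r k ^ n' := by
      rw [pow_eq_pow_iff_modEq, hord]
      exact h1
    rw [h2]
  choose f hf1 using fun i : (bondC k).K =>
    (BdCore_rot_sc hk (BdCore_0 hk) i).exists_pow_eq'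
  have hf2 : ∀ i, (BdCore_r k ^ f i) (BdCore_0 hk) = i := fun i => (hf1 i).2
  set E : (bondC k).K → (bondC k).K := fun i => (BdCore_r k ^ (m * f i)) (BdCore_0 hk) with hE
  have hEmap : ∀ i d1, ∃ d2, e (Sum.inl ⟨i, d1⟩) = Sum.inl ⟨E i, d2⟩ := by
    intro i d1
    obtain ⟨n, d2, h1, h2⟩ := hgo i d1
    have h3 : n ≡ f i [MOD k] := hmod _ _ (h1.trans (hf2 i).symm)
    have h4 : (BdCore_r k ^ (m * n)) (BdCore_0 hk) = E i := hmod' _ _ (h3.mul_left m)
    rw [h4] at h2
    exact ⟨d2, h2⟩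
  have hEinj : Function.Injective E := by
    intro i j h1
    have h2 := hmod _ _ h1
    have h3 : f i ≡ f j [MOD k] := Nat.ModEq.cancel_left_of_coprime (by rw [Nat.gcd_comm]; exact hmc) h2
    rw [← hf2 i, ← hf2 j]
    exact hmod' _ _ h3
  let eK : (bondC k).K ≃ (bondC k).K :=
    Equiv.ofBijective E (Finite.injective_iff_bijective.1 hEinj)
  have hE0 : E (BdCore_0 hk) = BdCore_0 hk := by
    have h1 := (h0 (Sum.inl ⟨BdCore_0 hk, d⟩)).2 ((BdCore_mem N _ _ _).2 rfl)
    obtain ⟨d2, h2⟩ := hEmap (BdCore_0 hk) d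
    rw [h2, BdCore_mem] at h1
    exact h1
  obtain ⟨eR, c, F, -, -, -, fa, fs, fr, hF⟩ := GCo.uniq (bondC_good hk) (bondC_good hk)
    (N := fun _ => N) (N' := fun _ => N') e ha hs eK (fun i t => by
      rcases t with ⟨j, d1⟩ | x
      · obtain ⟨d2, h2⟩ := hEmap j d1
        rw [h2, BdCore_mem, BdCore_mem]
        exact ⟨fun h3 => hEinj h3, fun h3 => congrArg E h3⟩
      · exact x.elim)
  have hFd : F (BdCore_0 hk) (Sum.inl d) = Sum.inl d' := by
    refine (hF (BdCore_0 hk) d d').1 ?_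
    refine he.trans ?_
    have h1 : ∀ i : (bondC k).K, i = BdCore_0 hk →
        brt hk N' d' = (Sum.inl ⟨i, d'⟩ : bFT k N') := by
      rintro _ rfl
      rfl
    exact h1 _ hE0
  refine ⟨F (BdCore_0 hk), fa (BdCore_0 hk), fs (BdCore_0 hk), ?_, hFd⟩
  have h1 := fr (BdCore_0 hk) true
  cases h2 : c (BdCore_0 hk)
  · rw [h1, h2]
    rfl
  · exfalso
    rw [h2] at h1
    have h3 := (BdGeo_sc (F (BdCore_0 hk)) (fs (BdCore_0 hk)) (Sum.inr true) (Sum.inl d)).2 hd
    rw [h1, hFd] at h3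
    exact not_AtP N' h3 hd'

end PGr

end

section
/-! # Module BdSum: the generating function of the bonds -/

set_option linter.unusedSectionVars false

namespace PGr
open Equiv Finset
open scoped ENNReal Classical

namespace BdSum

theorem nw_pow (S F Y Z : ℝ≥0∞) (k : ℕ) (M : BMap) :
    nw S F Y Z M ^ k = nw (S ^ k) (F ^ k) (Y ^ k) (Z ^ k) M := by
  unfold nw
  rw [mul_pow, mul_pow, mul_pow]
  simp only [← pow_mul, mul_comm]

theorem inr {M N : BMap} (g : M.T ≃ N.T) (ga : ∀ t, g (M.aa t) = N.aa (g t))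
    (gr : g (Sum.inr true) = Sum.inr true) (b : Bool) : g (Sum.inr b) = Sum.inr b := by
  cases b
  · have h := ga (Sum.inr true)
    rw [gr] at h
    exact h
  · exact gr

theorem inl {M N : BMap} (g : M.T ≃ N.T) (ga : ∀ t, g (M.aa t) = N.aa (g t))
    (gr : g (Sum.inr true) = Sum.inr true) (d : M.D) : ∃ d', g (Sum.inl d) = Sum.inl d' := by
  rcases h : g (Sum.inl d) with d' | b
  · exact ⟨d', rfl⟩
  · exfalso
    have h2 := inr g ga gr b
    have := g.injective (h.trans h2.symm)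
    simp at this

theorem sc {M N : BMap} {e : M.T ≃ N.T} (h2 : ∀ t, e (M.s t) = N.s (e t))
    (x y : M.T) : N.s.SameCycle (e x) (e y) ↔ M.s.SameCycle x y := by
  constructor
  · rintro ⟨i, hi⟩
    refine ⟨i, e.injective ?_⟩
    rw [CutIso.zpow e h2, hi]
  · rintro ⟨i, hi⟩
    exact ⟨i, by rw [← CutIso.zpow e h2, hi]⟩

theorem fc {M N : BMap} {e : M.T ≃ N.T} (h1 : ∀ t, e (M.aa t) = N.aa (e t))
    (h2 : ∀ t, e (M.s t) = N.s (e t)) (h3 : ∀ b, e (Sum.inr b) = Sum.inr b) {d : M.D} {d' : N.D}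
    (hd : e (Sum.inl d) = Sum.inl d') (h : FirstC N d') : FirstC M d := by
  intro A hA hs
  have h4 := h _ (SerInj.pref_iso e h1 h2 h3 hA) (by
    intro h5
    apply hs
    have h6 : N.s⁻¹ (Sum.inr true) = e (M.s⁻¹ (Sum.inr true)) := by
      rw [Perm.inv_eq_iff_eq, ← h2, SerExcl.apply_inv, h3]
    rw [h6] at h5
    exact (mem_map' e.toEmbedding).1 h5)
  rw [← hd] at h4
  exact (mem_map' e.toEmbedding).1 h4

/-- isomorphic nets give isomorphic bonds -/
theorem iso {k : ℕ} (hk : 2 ≤ k) {N N' : GB} (g : N.1.T ≃ N'.1.T)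
    (ga : ∀ t, g (N.1.aa t) = N'.1.aa (g t)) (gs : ∀ t, g (N.1.s t) = N'.1.s (g t))
    (gr : g (Sum.inr true) = Sum.inr true) {d : N.1.D} {d' : N'.1.D}
    (hd : g (Sum.inl d) = Sum.inl d') : bcls hk N d = bcls hk N' d' := by
  unfold bcls
  rw [gcl_eq_iff]
  have hm : ∀ x : (bondC k).T, gmap (C := bondC k) (C' := bondC k) (Equiv.refl _) (Equiv.refl _)
      (fun _ => false) x = x := by
    rintro (⟨i, b⟩ | t)
    · show Sum.inl (i, xor false b) = _
      rw [Bool.false_xor]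
    · rfl
  obtain ⟨e, e1, e2, -, e4⟩ := GCo.iso_of (C := bondC k) (C' := bondC k) (N := fun _ => N)
    (N' := fun _ => N') (Equiv.refl _) (Equiv.refl _) (fun _ => false) (fun _ => rfl)
    (fun x => by rw [hm, hm]) (fun _ => g) (fun _ => ga) (fun _ => gs)
    (fun _ b => by rw [Bool.false_xor]; exact inr g ga gr b)
  exact ⟨e, e1, e2, e4 _ _ _ hd⟩

/-- the codes -/
structure Code where
  n : GC
  d : n.rep.1.D
  h : AtP n.rep.1 d ∧ FirstC n.rep.1 d

noncomputable def Code.F {k : ℕ} (hk : 2 ≤ k) (x : Code) : GC := bcls hk x.n.rep x.d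

theorem F_inj {k : ℕ} (hk : 2 ≤ k) : Function.Injective (Code.F hk) := by
  rintro ⟨n, d, hd⟩ ⟨n', d', hd'⟩ he
  unfold Code.F bcls at he
  simp only at he
  obtain ⟨e, ea, es, er⟩ := (gcl_eq_iff (bFT_good hk _) (bFT_good hk _)).1 he
  obtain ⟨g, ga, gs, gr, gd⟩ := bond_uniq hk hd.1 hd'.1 hd.2 hd'.2 e ea es er
  have hn : n = n' := ESum.eq_of_iso ⟨g, ga, gs, gr⟩
  subst hn
  have hg : g = Equiv.refl _ := iso_unique n.rep.2 (Sum.inr true) g (Equiv.refl _) ga gs
    (fun _ => rfl) (fun _ => rfl) gr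
  subst hg
  have : d = d' := Sum.inl.inj gd
  subst this
  rfl

theorem surj {k : ℕ} (hk : 2 ≤ k) {c : GC} (h : IsBd k c.rep.1) : ∃ x : Code, x.F hk = c := by
  obtain ⟨ρ, hr, hb⟩ := h
  obtain ⟨N, d, e, hd, hf, ea, es, er⟩ := exists_bond c.rep.2 hr hk hb
  obtain ⟨g, ga, gs, gr⟩ : BIso N.1 (ESum.cl N).rep.1 := (ESum.rep_iso N).symm
  obtain ⟨d', hd'⟩ := inl g ga gr d
  have ga' : ∀ t, g.symm ((ESum.cl N).rep.1.aa t) = N.1.aa (g.symm t) := fun t => by
    rw [Equiv.symm_apply_eq, ga, Equiv.apply_symm_apply]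
  have gs' : ∀ t, g.symm ((ESum.cl N).rep.1.s t) = N.1.s (g.symm t) := fun t => by
    rw [Equiv.symm_apply_eq, gs, Equiv.apply_symm_apply]
  have gr' : g.symm (Sum.inr true) = Sum.inr true := by
    rw [Equiv.symm_apply_eq, gr]
  have gd' : g.symm (Sum.inl d') = Sum.inl d := by
    rw [Equiv.symm_apply_eq, hd']
  have h1 : AtP (ESum.cl N).rep.1 d' := by
    unfold AtP
    rw [← hd', ← gr]
    exact (sc gs _ _).2 hd
  have h2 : FirstC (ESum.cl N).rep.1 d' := fc ga' gs' (inr g.symm ga' gr') gd' hf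
  refine ⟨⟨ESum.cl N, d', h1, h2⟩, ?_⟩
  show bcls hk (ESum.cl N).rep d' = c
  rw [← iso hk g ga gs gr hd', ← gcl_rep c]
  exact ((gcl_eq_iff c.rep.2 (bFT_good hk N)).2 ⟨e, ea, es, er⟩).symm

theorem sub {D : Type} [Fintype D] (P : D → Prop) (g : D → ℝ≥0∞) :
    (∑' d : {d // P d}, g d.1) = ∑ d : D, if P d then g d else 0 := by
  rw [tsum_fintype, ← Finset.sum_filter]
  exact (Finset.sum_subtype (univ.filter P) (by simp) g).symm

/-- the codes as dependent pairs -/
noncomputable def eqv : Code ≃ (Σ n : GC, {d : n.rep.1.D // AtP n.rep.1 d ∧ FirstC n.rep.1 d}) where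
  toFun x := ⟨x.n, ⟨x.d, x.h⟩⟩
  invFun y := ⟨y.1, y.2.1, y.2.2⟩
  left_inv _ := rfl
  right_inv _ := rfl

end BdSum

/-- the pairs (class of a net, dart at the pole in the first component) are in bijection with the classes of bonds, by `bcls`:
`exists_bond`, `bond_uniq`, `isBd_bcls` -/
theorem bond_sum {k : ℕ} (hk : 2 ≤ k) (W : GC → ℝ≥0∞) :
    (∑' c : GC, if IsBd k c.rep.1 then W c else 0) =
      ∑' n : GC, ∑ d : n.rep.1.D, if AtP n.rep.1 d ∧ FirstC n.rep.1 d then
        W (bcls hk n.rep d) else 0 := by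
  have h1 : (∑' c : GC, if IsBd k c.rep.1 then W c else 0) = ∑' x : BdSum.Code, W (x.F hk) := by
    rw [← (BdSum.F_inj hk).tsum_eq (f := fun c => if IsBd k c.rep.1 then W c else 0)]
    · refine tsum_congr fun x => ?_
      exact if_pos (isBd_bcls hk x.n.rep x.h.1)
    · intro c hc
      by_cases h2 : IsBd k c.rep.1
      · exact BdSum.surj hk h2
      · exact absurd (if_neg h2) hc
  rw [h1, ← BdSum.eqv.symm.tsum_eq, ENNReal.tsum_sigma']
  refine tsum_congr fun n => ?_
  refine (BdSum.sub (D := n.rep.1.D) (fun d => AtP n.rep.1 d ∧ FirstC n.rep.1 d)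
    (fun d => W (bcls hk n.rep d))).trans (sum_congr rfl fun d _ => ?_)
  by_cases h : AtP n.rep.1 d ∧ FirstC n.rep.1 d
  · rw [if_pos h, if_pos h]
  · rw [if_neg h, if_neg h]

/-- `wV_bcls`, `first_sum` -/
theorem bd_eq {k : ℕ} (hk : 2 ≤ k) (S F Y kv kf ke Z G : ℝ≥0∞)
    (hG : G ^ k = 1 + eN (S ^ k) (F ^ k) (Y ^ k) (Z ^ k))
    (h1 : eN (S ^ k) (F ^ k) (Y ^ k) (Z ^ k) ≠ ⊤) (h2 : eD (S ^ k) (F ^ k) (Y ^ k) (Z ^ k) ≠ ⊤) :
    gBD k S F Y kv kf ke Z * G ^ k = kv * eD (S ^ k) (F ^ k) (Y ^ k) (Z ^ k) := by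
  unfold gBD
  rw [bond_sum hk (fun c => wV k S F Y kv kf ke Z c.rep.1)]
  have h3 : ∀ n : GC, (∑ d : n.rep.1.D, if AtP n.rep.1 d ∧ FirstC n.rep.1 d then
      wV k S F Y kv kf ke Z (bcls hk n.rep d).rep.1 else 0) =
      kv * ((fd n.rep.1 : ℝ≥0∞) * nw (S ^ k) (F ^ k) (Y ^ k) (Z ^ k) n.rep.1) := by
    intro n
    have h4 : ∀ d : n.rep.1.D, (if AtP n.rep.1 d ∧ FirstC n.rep.1 d then
        wV k S F Y kv kf ke Z (bcls hk n.rep d).rep.1 else 0) =
        if AtP n.rep.1 d ∧ FirstC n.rep.1 d then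
          kv * nw (S ^ k) (F ^ k) (Y ^ k) (Z ^ k) n.rep.1 else 0 := by
      intro d
      by_cases h5 : AtP n.rep.1 d ∧ FirstC n.rep.1 d
      · rw [if_pos h5, if_pos h5, wV_bcls hk n.rep h5.1, BdSum.nw_pow]
      · rw [if_neg h5, if_neg h5]
    rw [sum_congr rfl fun d _ => h4 d, ← sum_filter, sum_const, nsmul_eq_mul]
    unfold fd
    ring
  rw [tsum_congr h3, ENNReal.tsum_mul_left, hG, mul_assoc,
    first_sum (S ^ k) (F ^ k) (Y ^ k) (Z ^ k) h1 h2]

end PGr

end

section
/-! # Module ZOf: composites in `ZC` -/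

set_option linter.unusedSectionVars false

namespace PGr
open Equiv Finset

section
variable {C : Core} {N : C.I → GB} {k : ℕ}

open CompFour CompInj

/-- a nonempty closed set has at least two elements -/
private theorem zof_two {T : Type*} [Fintype T] [DecidableEq T] {a s : Perm T} (h : Good a s)
    {A : Finset T} (hA : Cl a A) (hne : A.Nonempty) : 2 ≤ A.card := by
  obtain ⟨t, ht⟩ := hne
  exact Finset.one_lt_card.2 ⟨t, ht, a t, (hA t).2 ht, (h.fpf t).symm⟩


section gen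
variable {T : Type*} [Fintype T] [DecidableEq T] {a s ρ : Perm T} {r : T}

private theorem zof_sh (h : Good a s) (t : T) : ShC s {t, a t} t :=
  ⟨⟨t, by simp, Perm.SameCycle.refl _ _⟩, s t, by
    rw [mem_insert, mem_singleton, not_or]
    exact ⟨h.s_ne t, h.s_ne_a t⟩, CompVAux.sc_apply s t⟩

private theorem zof_sh' (h : Good a s) (t : T) : ShC s {t, a t} (a t) := by
  have h1 := zof_sh h (a t)
  rw [h.inv] at h1
  rwa [pair_comm]

private theorem zof_disj (h : Good a s) (t : T) : Disjoint ({t, a t} : Finset T) {s t, a (s t)} := by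
  have h1 := h.s_ne t
  have h2 := h.s_ne_a t
  rw [disjoint_left]
  intro x hx hx'
  rw [mem_insert, mem_singleton] at hx hx'
  rcases hx with rfl | rfl <;> rcases hx' with h3 | h3
  · exact h1 h3.symm
  · apply h2
    rw [← h.inv (s x), ← h3]
  · exact h2 h3.symm
  · exact h1 (a.injective h3).symm

/-- in a bond with single edges two consecutive edges have the same ends -/
private theorem zof_gen (h : Good a s) (hr : Rot a s ρ k r) (h8 : 8 ≤ Fintype.card T)
    {S : Finset T} (hS : VS a s ρ k r S) (hc : ∀ t, ∃ i : ℕ, (ρ ^ i) t ∈ S) (hS2 : S.card = 2) :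
    ∃ t, s.SameCycle r t ∧ t ≠ r ∧ s t ≠ r ∧ Disjoint ({t, a t} : Finset T) {s t, a (s t)} ∧
      cut s ({t, a t} ∪ {s t, a (s t)}) ≤ 4 := by
  classical
  obtain ⟨t0, ht0S, ht0⟩ := hS.root
  have hSe : S = {t0, a t0} := by
    symm
    apply Finset.eq_of_subset_of_card_le
    · intro x hx
      rw [mem_insert, mem_singleton] at hx
      rcases hx with rfl | rfl
      · exact ht0S
      · exact (hS.cl t0).2 ht0S
    · rw [hS2, card_pair (h.fpf t0).symm]
  have hn0 : ¬ s.SameCycle r (a t0) := fun h1 => h.noLoop t0 (ht0.symm.trans h1)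
  have hx0 : ShC s S (a t0) := by rw [hSe]; exact zof_sh' h t0
  have hfix := BdGeo_end_pow h hr hS hc hx0 hn0
  have hend : ∀ y, s.SameCycle r y → s.SameCycle (a t0) (a y) := by
    intro y hy
    obtain ⟨i, hi⟩ := hc y
    have hk : 0 < k := by have := hr.k2; omega
    have hlt : i % k < k := Nat.mod_lt _ hk
    rw [← hr.pow_mod i] at hi
    have h1 : (ρ ^ (i % k)) y = t0 := by
      rw [hSe, mem_insert, mem_singleton] at hi
      rcases hi with h2 | h2
      · exact h2
      · exact absurd ((hr.pow_root (i % k)).2 hy) (by rw [h2]; exact hn0)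
    have h2 : (ρ ^ (k - i % k)) (a t0) = a y := by
      rw [← h1, ← hr.pow_a, hr.pow_inv hlt.le]
    rw [← h2]
    exact hfix _
  have hk4 : 4 ≤ k := by
    have h1 : (univ : Finset T) ⊆ (range k).biUnion fun j => tr ρ j S := by
      intro x _
      obtain ⟨j, hj, hx⟩ := BdGeo_cov hr hc x
      exact mem_biUnion.2 ⟨j, mem_range.2 hj, hx⟩
    have h2 := (card_le_card h1).trans (card_biUnion_le)
    have h3 : ∀ j ∈ range k, (tr ρ j S).card = 2 := by
      intro j _
      unfold tr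
      rw [card_map, hS2]
    rw [Finset.sum_congr rfl h3, Finset.sum_const, card_range, smul_eq_mul, card_univ] at h2
    omega
  have hrt : s.SameCycle r (s r) := CompVAux.sc_apply s r
  have hrt' : s.SameCycle r (s (s r)) := hrt.trans (CompVAux.sc_apply s (s r))
  have hst : s (s r) ≠ r := by
    intro h1
    have h2 : (s ^ 2) r = r := by rw [pow_two, Perm.mul_apply, h1]
    have h3 := (Poles_dgs s r 2).1 h2
    have h4 := (hr.normal h).1.trans h3
    have := Nat.le_of_dvd (by norm_num) h4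
    omega
  refine ⟨s r, hrt, h.s_ne r, hst, zof_disj h (s r), ?_⟩
  have hA := VS.pair h hr hrt
  have hB := VS.pair h hr hrt'
  have hd := zof_disj h (s r)
  have hsh : ShC s {s (s r), a (s (s r))} (a (s r)) := by
    refine ⟨⟨a (s (s r)), by simp, (hend _ hrt).symm.trans (hend _ hrt')⟩, a (s r), ?_,
      Perm.SameCycle.refl _ _⟩
    exact disjoint_left.1 hd (by simp)
  obtain ⟨c', -, hc1, hc2⟩ := h.adj hA.cl hB.cl hA.cut4 hB.cut4 hd (c := s r) (by simp)
    (by simp) (zof_sh' h (s r)) hsh (h.noLoop (s r))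
  have h5 := cut_union_le (s := s) hd (c := s r) (c' := c')
    (by
      rintro rfl
      exact disjoint_left.1 hd (by simp) hc1)
    (Or.inl ⟨by simp, by simp⟩) (Or.inr ⟨hc1, hc2⟩)
  rw [hA.cut4, hB.cut4] at h5
  omega

end gen

/-- the number of nonroot darts of a net is the cardinality of its part -/
private theorem zof_card_part (i : C.I) :
    (partSet C N i).card = Fintype.card (N i).1.D := by
  classical
  have h1 : partSet C N i = (univ : Finset (N i).1.D).map
      ⟨dt N i, fun _ _ h => dt_inj N h⟩ := by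
    ext t
    rw [mem_partSet, mem_map]
    constructor
    · intro h
      rcases cases_dt N t with ⟨j, d, rfl⟩ | ⟨b, rfl⟩
      · rw [partOf_dt] at h
        have hj : j = i := Option.some_injective _ h
        subst hj
        exact ⟨d, mem_univ _, rfl⟩
      · exact absurd h (by rw [partOf_root]; simp)
    · rintro ⟨d, -, rfl⟩
      exact partOf_dt N i d
  rw [h1, card_map, card_univ]

/-- the composite has at least eight darts -/
private theorem zof_big (hR : Rigid C.toB) :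
    8 ≤ Fintype.card (comp C N).T := by
  classical
  have h1 : Fintype.card (comp C N).T = (∑ i, Fintype.card (N i).1.D) + 2 := by
    change Fintype.card ((Σ i, (N i).1.D) ⊕ Bool) = _
    rw [Fintype.card_sum, Fintype.card_sigma, Fintype.card_bool]
  have h2 : ∀ i : C.I, 2 ≤ Fintype.card (N i).1.D := by
    intro i
    have h3 := (N i).2.big
    have h4 : Fintype.card (N i).1.T = Fintype.card (N i).1.D + 2 := by
      change Fintype.card ((N i).1.D ⊕ Bool) = _
      rw [Fintype.card_sum, Fintype.card_bool]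
    omega
  have h5 : ∑ _i : C.I, 2 ≤ ∑ i, Fintype.card (N i).1.D := Finset.sum_le_sum fun i _ => h2 i
  rw [Finset.sum_const, smul_eq_mul, card_univ] at h5
  have h6 := card_I C hR
  omega

private theorem zof_VS' (hC : C.toB.IsGood) (hR : Rigid C.toB) {e : Perm (comp C N).T}
    (he : Rot (comp C N).aa (comp C N).s e k (Sum.inr true))
    (h2 : ∀ i, AtV C i → Fintype.card (N i).1.D = 2) {A : Finset (comp C N).T}
    (hA : VS (comp C N).aa (comp C N).s e k (Sum.inr true) A) (hr : Sum.inr true ∉ A) :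
    A.card = 2 := by
  classical
  have hG : Good (comp C N).aa (comp C N).s := comp_good C N hC
  obtain ⟨t, htA, ht⟩ := hA.root
  have h3 := zof_two hG hA.cl ⟨t, htA⟩
  rcases comp_four C N hC hR hA.cl hr ⟨t, htA⟩ hA.cut4 with ⟨i, hi⟩ | hu
  · have h4 := card_le_card hi
    rw [zof_card_part] at h4
    have h5 : AtV C i := by
      have h6 := (mem_partSet C N i t).1 (hi htA)
      rcases cases_dt N t with ⟨j, d, rfl⟩ | ⟨b, rfl⟩
      · rw [partOf_dt] at h6
        have hj : j = i := Option.some_injective _ h6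
        subst hj
        exact comp_atV N ht
      · exact absurd h6 (by rw [partOf_root]; simp)
    rw [h2 i h5] at h4
    omega
  · exfalso
    have h4 := hA.card he
    have h5 := zof_big (N := N) hR
    have h6 : Fintype.card (comp C N).T ≤ A.card + 2 := by
      rw [← card_univ, ← hu]
      refine (card_union_le _ _).trans (Nat.add_le_add_left ?_ _)
      exact card_le_two
    have h7 : 2 * A.card ≤ k * A.card := Nat.mul_le_mul_right _ he.k2
    omega

/-- Proof.  Let `A` be `VS`.  If `inr true ∉ A`: `comp_four` gives `A ⊆ partSet C N i` or `A ∪ root = univ`.  In the second case `A` has all but two darts and is disjoint from `tr e 1 A`, so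
`|T| ≤ 4`, contradiction.  In the first case a dart of `A` at the root vertex is `dt N i d`, so `AtV C i` (`comp_atV`), `|A| ≤ 2`.  If `inr true ∈ A`: `tr e 1 A` is `VS` (`VS.tr`)
and does not contain `inr true` (`VS.disj`), and has the same cardinality. -/
theorem zof_VS (hC : C.toB.IsGood) (hR : Rigid C.toB) {e : Perm (comp C N).T}
    (he : Rot (comp C N).aa (comp C N).s e k (Sum.inr true))
    (h2 : ∀ i, AtV C i → Fintype.card (N i).1.D = 2) {A : Finset (comp C N).T}
    (hA : VS (comp C N).aa (comp C N).s e k (Sum.inr true) A) : A.card = 2 := by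
  by_cases hr : Sum.inr true ∈ A
  · have h3 := zof_VS' hC hR he h2 (hA.tr he 1) (by
      intro h
      obtain ⟨x, hx, hx'⟩ := mem_tr'.1 h
      exact hA.disj 1 one_pos (by have := he.k2; omega) x hx (hx' ▸ hr))
    unfold tr at h3
    rwa [card_map] at h3
  · exact zof_VS' hC hR he h2 hA hr

/-- Proof.  Suppose that the translates of a `VS` set `S` cover.  `|S| = 2` (`zof_VS`), so `T` has exactly `k` edges, all of them at the root vertex; `k ≥ 4` (`Rigid`, the composite has at least as many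
darts as the core).  Let `S = {t, a t}` with `t` at the root vertex; the vertex `x` of `a t` is fixed by `e` (`bond_end`), so the other end of every edge is `x`.
Choose `t` at the root vertex with `t ≠ inr true`, `s t ≠ inr true` (degree `k ≥ 4`).  `A = {t, a t}` and `B = {s t, a (s t)}` are disjoint (`s_ne`, `s_ne_a`), have cut 4, the same ends, and share the
corner `t`; `Good.adj` gives a second common corner, `cut_union_le`: `cut (A ∪ B) ≤ 4`, so `= 4` (`comp_ns`).  `comp_four` for `A ∪ B`: either `A ∪ B ⊆ partSet C N i`, but `|partSet| = 2`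
(`AtV`), or `A ∪ B ∪ root = univ`, so `|T| ≤ 6 < 8`. -/
theorem zof_not_bd (hC : C.toB.IsGood) (hR : Rigid C.toB) {e : Perm (comp C N).T}
    (he : Rot (comp C N).aa (comp C N).s e k (Sum.inr true))
    (h2 : ∀ i, AtV C i → Fintype.card (N i).1.D = 2) :
    ¬ Bd (comp C N).aa (comp C N).s e k (Sum.inr true) := by
  classical
  rintro ⟨S, hS, hc⟩
  have hG : Good (comp C N).aa (comp C N).s := comp_good C N hC
  have hbig := zof_big (N := N) hR
  obtain ⟨t, ht, htr, hstr, hd, hcut⟩ := zof_gen hG he hbig hS hc (zof_VS hC hR he h2 hS)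
  have hcard : (({t, (comp C N).aa t} : Finset (comp C N).T) ∪
      {(comp C N).s t, (comp C N).aa ((comp C N).s t)}).card = 4 := by
    rw [card_union_of_disjoint hd, card_pair (hG.fpf _).symm, card_pair (hG.fpf _).symm]
  have hcl := (Cl_pair hG.inv t).union (Cl_pair hG.inv ((comp C N).s t))
  have hne : (({t, (comp C N).aa t} : Finset (comp C N).T) ∪
      {(comp C N).s t, (comp C N).aa ((comp C N).s t)}).Nonempty := ⟨t, by simp⟩
  have hge := hG.ns _ hcl hne (by
    intro hu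
    rw [hu, card_univ] at hcard
    omega)
  have hr : (Sum.inr true : (comp C N).T) ∉ (({t, (comp C N).aa t} : Finset (comp C N).T) ∪
      {(comp C N).s t, (comp C N).aa ((comp C N).s t)}) := by
    rw [mem_union, mem_insert, mem_singleton, mem_insert, mem_singleton]
    rintro ((h1 | h1) | (h1 | h1))
    · exact htr h1.symm
    · exact hG.noLoop t (ht.symm.trans (h1 ▸ Perm.SameCycle.refl _ _))
    · exact hstr h1.symm
    · refine hG.noLoop ((comp C N).s t) ?_
      have h3 : (comp C N).s.SameCycle (Sum.inr true) ((comp C N).s t) :=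
        ht.trans (CompVAux.sc_apply _ _)
      exact h3.symm.trans (h1 ▸ Perm.SameCycle.refl _ _)
  rcases comp_four C N hC hR hcl hr hne (le_antisymm hcut hge) with ⟨i, hi⟩ | hu
  · have h4 := card_le_card hi
    rw [zof_card_part, hcard] at h4
    have h5 : AtV C i := by
      have h6 := (mem_partSet C N i t).1 (hi (by simp))
      rcases cases_dt N t with ⟨j, d, rfl⟩ | ⟨b, rfl⟩
      · rw [partOf_dt] at h6
        have hj : j = i := Option.some_injective _ h6
        subst hj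
        exact comp_atV N ht
      · exact absurd h6 (by rw [partOf_root]; simp)
    rw [h2 i h5] at h4
    omega
  · have h6 : Fintype.card (comp C N).T ≤ 4 + 2 := by
      rw [← card_univ, ← hu, ← hcard]
      refine (card_union_le _ _).trans (Nat.add_le_add_left ?_ _)
      exact card_le_two
    omega

/-- Proof.  The degree is not 1 (`s_ne`).  If it is 2, let `t = s (inr true)`, `s t = inr true`, `A = {t, a t} ∪ root`: the two corners at the root vertex are between `{t, a t}` and `root`, so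
`cut A ≤ 4` (`cut_union_le`), and `Aᶜ` is closed of cut 4 (not empty: `8 ≤ |T|`), does not contain `inr true`; `comp_four`: either `Aᶜ ⊆ partSet C N i`, but then the core has at most two
edges besides the root (`card_I`: at least 3), or `Aᶜ ∪ root = univ`, but `t ∉ Aᶜ`. -/
theorem zof_dgs (hC : C.toB.IsGood) (hR : Rigid C.toB) :
    3 ≤ dgs (comp C N).s (Sum.inr true) := by
  classical
  have hG : Good (comp C N).aa (comp C N).s := comp_good C N hC
  have hbig := zof_big (N := N) hR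
  by_contra hlt
  have h0 := Poles_dgs_pos (comp C N).s (Sum.inr true)
  have h1 : ((comp C N).s ^ 2) (Sum.inr true) = Sum.inr true := by
    rw [Poles_dgs]
    rcases (by omega : dgs (comp C N).s (Sum.inr true) = 1 ∨
      dgs (comp C N).s (Sum.inr true) = 2) with h2 | h2 <;> rw [h2]
    · norm_num
  rw [pow_two, Perm.mul_apply] at h1
  have hd := zof_disj hG (Sum.inr true)
  rw [disjoint_comm] at hd
  -- `A` consists of the root edge and the edge of `s (inr true)`
  have hcl := (Cl_pair hG.inv ((comp C N).s (Sum.inr true))).union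
    (Cl_pair hG.inv (Sum.inr true : (comp C N).T))
  have hcut : cut (comp C N).s (({(comp C N).s (Sum.inr true),
      (comp C N).aa ((comp C N).s (Sum.inr true))} : Finset (comp C N).T) ∪
        {Sum.inr true, (comp C N).aa (Sum.inr true)}) ≤ 4 := by
    have h5 := cut_union_le (s := (comp C N).s) hd (c := Sum.inr true)
      (c' := (comp C N).s (Sum.inr true)) (hG.s_ne _).symm
      (Or.inr ⟨by simp, by simp⟩) (Or.inl ⟨by simp, by rw [h1]; simp⟩)
    rw [hG.cut_pair, hG.cut_pair] at h5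
    omega
  set A : Finset (comp C N).T := (({(comp C N).s (Sum.inr true),
      (comp C N).aa ((comp C N).s (Sum.inr true))} : Finset (comp C N).T) ∪
        {Sum.inr true, (comp C N).aa (Sum.inr true)}) with hA
  have hAcard : A.card ≤ 4 := by
    rw [hA]
    exact (card_union_le _ _).trans (Nat.add_le_add card_le_two card_le_two)
  have hne : Aᶜ.Nonempty := by
    rw [← card_pos, card_compl]
    omega
  have hneu : Aᶜ ≠ univ := by
    intro hu
    have : (Sum.inr true : (comp C N).T) ∈ Aᶜ := by rw [hu]; exact mem_univ _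
    rw [mem_compl, hA] at this
    exact this (by simp)
  have hge := hG.ns _ hcl.compl hne hneu
  rw [cut_compl] at hge
  have hr : (Sum.inr true : (comp C N).T) ∉ Aᶜ := by
    rw [mem_compl, not_not, hA]; simp
  rcases comp_four C N hC hR hcl.compl hr hne (by rw [cut_compl]; exact le_antisymm hcut hge) with
    ⟨i, hi⟩ | hu
  · -- all parts except `i` contain `s (inr true)`
    have hp : ∀ j, j ≠ i → partOf C N ((comp C N).s (Sum.inr true)) = some j := by
      intro j hj
      obtain ⟨y, hy⟩ := partSet_nonempty C N j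
      rw [mem_partSet] at hy
      have h6 : y ∉ Aᶜ := by
        intro h7
        have h8 := (mem_partSet C N i y).1 (hi h7)
        rw [hy] at h8
        exact hj (Option.some_injective _ h8)
      rw [mem_compl, not_not, hA, mem_union, mem_insert, mem_singleton, mem_insert,
        mem_singleton] at h6
      rcases h6 with (h6 | h6) | (h6 | h6)
      · rw [← h6]; exact hy
      · rw [h6, partOf_aa] at hy
        exact hy
      · rw [h6, partOf_root] at hy
        exact absurd hy (by simp)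
      · rw [h6, partOf_aa, partOf_root] at hy
        exact absurd hy (by simp)
    have h7 := card_I C hR
    have h8 : 1 < (univ.erase i : Finset C.I).card := by
      rw [card_erase_of_mem (mem_univ _), card_univ]
      omega
    obtain ⟨j, hj, l, hl, hjl⟩ := one_lt_card.1 h8
    have h9 := (hp j (ne_of_mem_erase hj)).symm.trans (hp l (ne_of_mem_erase hl))
    exact hjl (Option.some_injective _ h9)
  · have h6 : (comp C N).s (Sum.inr true) ∈ Aᶜ ∪ (comp C N).root := by
      rw [hu]; exact mem_univ _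
    rw [mem_union, mem_compl, hA] at h6
    rcases h6 with h6 | h6
    · exact h6 (by simp)
    · rw [BMap.root, mem_insert, mem_singleton] at h6
      rcases h6 with h6 | h6
      · exact hG.s_ne _ h6
      · exact hG.s_ne_a _ h6

theorem zof (hC : C.toB.IsGood) (hR : Rigid C.toB) {e : Perm (comp C N).T}
    (he : Rot (comp C N).aa (comp C N).s e k (Sum.inr true))
    (h2 : ∀ i, AtV C i → Fintype.card (N i).1.D = 2) : ZC k (comp C N) :=
  ⟨⟨e, he, zof_not_bd hC hR he h2, fun _ hA => zof_VS hC hR he h2 hA.1⟩, zof_dgs hC hR⟩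

end

end PGr

end
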