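import Pool.Agent.PGm.M08
import Pool.Agent.PGm.M10
import Pool.Agent.PGm.M11
import Pool.Agent.PGm.M25

section
/-! # Module FanSum: the classes of maps which are not bonds and the codes of fans -/

set_option linter.unusedSectionVars false

namespace PGr
open Equiv Finset
open scoped ENNReal Classical

/-- an isomorphism of rooted maps maps nonroot darts to nonroot darts -/
theorem FanSum_inr {M N : BMap} (g : M.T ≃ N.T) (ga : ∀ t, g (M.aa t) = N.aa (g t))
    (gr : g (Sum.inr true) = Sum.inr true) (b : Bool) : g (Sum.inr b) = Sum.inr b := by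
  cases b
  · have h := ga (Sum.inr true)
    rw [gr] at h
    exact h
  · exact gr

theorem FanSum_inl {M N : BMap} (g : M.T ≃ N.T) (ga : ∀ t, g (M.aa t) = N.aa (g t))
    (gr : g (Sum.inr true) = Sum.inr true) (d : M.D) : ∃ d', g (Sum.inl d) = Sum.inl d' := by
  rcases h : g (Sum.inl d) with d' | b
  · exact ⟨d', rfl⟩
  · exfalso
    have h2 := FanSum_inr g ga gr b
    have := g.injective (h.trans h2.symm)
    simp at this

theorem FanSum_sc {T T' : Type*} [Fintype T] [DecidableEq T] [Fintype T'] [DecidableEq T']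
    {s : Perm T} {s' : Perm T'}
    (f : T ≃ T') (h2 : ∀ t, f (s t) = s' (f t)) (x y : T) :
    s'.SameCycle (f x) (f y) ↔ s.SameCycle x y := by
  constructor
  · rintro ⟨i, hi⟩
    refine ⟨i, f.injective ?_⟩
    rw [CutIso.zpow f h2, hi]
  · rintro ⟨i, hi⟩
    exact ⟨i, by rw [← CutIso.zpow f h2, hi]⟩

theorem FanSum_onet {o : Option GC} (h : o ≠ none) {N : GB} (e : o = some (ESum.cl N)) :
    BIso N.1 (onet o h).1 := by
  subst e
  exact (ESum.rep_iso N).symm

/-- two equal nets at equal corners -/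
theorem FanSum_biso {k : ℕ} (X : FanD k) {x y : X.R} (h : x = y) (hx : x ∈ X.K) (hy : y ∈ X.K) :
    BIso (X.N ⟨x, hx⟩).1 (X.N ⟨y, hy⟩).1 := by
  subst h
  exact BIso.refl _

/-- isomorphic data give the same classes -/
theorem FanSum_of_data {k : ℕ} {X X' : FanD k} {d : X.N0.1.D} (hd : X.AtPole d) (f : X.R ≃ X'.R)
    (fa : ∀ t, f (X.a t) = X'.a (f t)) (fs : ∀ t, f (X.s t) = X'.s (f t)) (fp : f X.p = X'.p)
    (fK : ∀ x, f x ∈ X'.K ↔ x ∈ X.K)
    (fN : ∀ (x : X.R) (h : x ∈ X.K), BIso (X.N ⟨x, h⟩).1 (X'.N ⟨f x, (fK x).2 h⟩).1) :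
    ∃ d' : X'.N0.1.D, X'.AtPole d' ∧ X.cls d = X'.cls d' := by
  have h1 : BIso X.N0.1 X'.N0.1 :=
    (fN X.p X.pK).trans (FanSum_biso X' fp _ _)
  obtain ⟨g, ga, gs, gr⟩ := h1
  obtain ⟨d', hd'⟩ := FanSum_inl g ga gr d
  refine ⟨d', ?_, ?_⟩
  · unfold FanD.AtPole at hd ⊢
    rw [← hd', ← gr, FanSum_sc g gs]
    exact hd
  · obtain ⟨e, ea, es, er⟩ := FanD.iso_of (d := d) (d' := d') f fa fs fp fK fN g ga gs gr hd'
    exact (gcl_eq_iff X.good X'.good).2 ⟨e, ea, es, er⟩

/-- the codes over a map with at least four darts -/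
structure FCode (k : ℕ) where
  c : GC
  h : IsFo k c.rep.1
  ω : c.rep.1.T → Option GC
  hω : FCond c.rep.1 h.choose ω
  d : (FanD.ofCode k c h ω hω).N0.1.D
  hd : (FanD.ofCode k c h ω hω).AtPole d

noncomputable def FCode.F {k : ℕ} (x : FCode k) : GC := (FanD.ofCode k x.c x.h x.ω x.hω).cls x.d

/-- the codes over the link -/
structure LCode (k : ℕ) (h2 : k = 2) where
  n : GC
  d : (FanD.ofLink k h2 n).N0.1.D
  hd : (FanD.ofLink k h2 n).AtPole d

noncomputable def LCode.F {k : ℕ} {h2 : k = 2} (x : LCode k h2) : GC :=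
  (FanD.ofLink k h2 x.n).cls x.d

theorem FanSum_mem (k : ℕ) (c : GC) (h : IsFo k c.rep.1) (ω : c.rep.1.T → Option GC)
    (hω : FCond c.rep.1 h.choose ω) (x : c.rep.1.T) :
    x ∈ (FanD.ofCode k c h ω hω).K ↔ ω x ≠ none := by
  change x ∈ (univ.filter fun t => ω t ≠ none) ↔ _
  simp

theorem FCode.F_inj {k : ℕ} : Function.Injective (FCode.F (k := k)) := by
  rintro ⟨c, h, ω, hω, d, hd⟩ ⟨c', h', ω', hω', d', hd'⟩ he
  unfold FCode.F at he
  simp only at he
  obtain ⟨e, ea, es, er⟩ := (gcl_eq_iff (FanD.good _) (FanD.good _)).1 he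
  obtain ⟨f, g, fa, fs, fp, fK, fN, ga, gs, gr, gd⟩ := FanD.uniq hd hd' e ea es er
  have hc : c = c' := ESum.eq_of_iso ⟨f, fa, fs, fp⟩
  subst hc
  have hf : f = Equiv.refl _ := iso_unique c.rep.2 (Sum.inr true) f (Equiv.refl _) fa fs
    (fun _ => rfl) (fun _ => rfl) fp
  subst hf
  have hω2 : ω = ω' := by
    funext x
    have hK : ω' x ≠ none ↔ ω x ≠ none := by
      rw [← FanSum_mem k c h' ω' hω' x, ← FanSum_mem k c h ω hω x]
      exact fK x
    by_cases hx : ω x = none
    · rw [hx]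
      by_contra hne
      exact (hK.1 (fun h => hne h.symm)) hx
    · have hx' := hK.2 hx
      have hb := fN x ((FanSum_mem k c h ω hω x).2 hx) ((FanSum_mem k c h' ω' hω' x).2 hx')
      have hb2 : BIso (onet (ω x) hx).1 (onet (ω' x) hx').1 := hb
      obtain ⟨u, hu⟩ := Option.ne_none_iff_exists'.1 hx
      obtain ⟨u', hu'⟩ := Option.ne_none_iff_exists'.1 hx'
      have h3 : ∀ (o : Option GC) (ho : o ≠ none) (v : GC), o = some v → onet o ho = v.rep := by
        rintro o ho v rfl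
        rfl
      rw [h3 _ hx u hu, h3 _ hx' u' hu'] at hb2
      rw [hu, hu', ESum.eq_of_iso hb2]
  subst hω2
  have hg : g = Equiv.refl _ := iso_unique (FanD.N0 _).2 (Sum.inr true) g (Equiv.refl _) ga gs
    (fun _ => rfl) (fun _ => rfl) gr
  subst hg
  have : d = d' := Sum.inl.inj gd
  subst this
  rfl

theorem LCode.F_inj {k : ℕ} {h2 : k = 2} : Function.Injective (LCode.F (k := k) (h2 := h2)) := by
  rintro ⟨n, d, hd⟩ ⟨n', d', hd'⟩ he
  unfold LCode.F at he
  simp only at he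
  obtain ⟨e, ea, es, er⟩ := (gcl_eq_iff (FanD.good _) (FanD.good _)).1 he
  obtain ⟨f, g, fa, fs, fp, fK, fN, ga, gs, gr, gd⟩ := FanD.uniq hd hd' e ea es er
  have hn : n = n' := ESum.eq_of_iso ⟨g, ga, gs, gr⟩
  subst hn
  have hg : g = Equiv.refl _ := iso_unique n.rep.2 (Sum.inr true) g (Equiv.refl _) ga gs
    (fun _ => rfl) (fun _ => rfl) gr
  subst hg
  have : d = d' := Sum.inl.inj gd
  subst this
  rfl

theorem FanSum_disj {k : ℕ} {h2 : k = 2} (x : FCode k) (y : LCode k h2) : x.F ≠ y.F := by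
  obtain ⟨c, h, ω, hω, d, hd⟩ := x
  obtain ⟨n, d', hd'⟩ := y
  intro he
  unfold FCode.F LCode.F at he
  simp only at he
  obtain ⟨e, ea, es, er⟩ := (gcl_eq_iff (FanD.good _) (FanD.good _)).1 he
  obtain ⟨f, -⟩ := FanD.uniq hd hd' e ea es er
  have h1 : Fintype.card c.rep.1.T = Fintype.card Bool := Fintype.card_congr f
  have h3 := c.rep.2.big
  rw [h1] at h3
  simp at h3

/-- the nets of a fan as classes -/
noncomputable def FanSum_o {k : ℕ} (X : FanD k) (x : X.R) : Option GC :=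
  if h : x ∈ X.K then some (ESum.cl (X.N ⟨x, h⟩)) else none

theorem FanSum_o_ne {k : ℕ} (X : FanD k) (x : X.R) : FanSum_o X x ≠ none ↔ x ∈ X.K := by
  unfold FanSum_o
  split_ifs with h <;> simp [h]

theorem FanSum_o_some {k : ℕ} (X : FanD k) (x : X.R) (h : x ∈ X.K) :
    FanSum_o X x = some (ESum.cl (X.N ⟨x, h⟩)) := by
  unfold FanSum_o
  rw [dif_pos h]

theorem FanSum_o_per {k : ℕ} (X : FanD k) (x : X.R) : FanSum_o X (X.ρ x) = FanSum_o X x := by
  by_cases h : x ∈ X.K
  · rw [FanSum_o_some X x h, FanSum_o_some X (X.ρ x) ((X.inv x).2 h)]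
    exact congrArg some (Quotient.sound (X.per x h)).symm
  · have h' : X.ρ x ∉ X.K := fun h2 => h ((X.inv x).1 h2)
    unfold FanSum_o
    rw [dif_neg h, dif_neg h']

theorem FanSum_o_pow {k : ℕ} (X : FanD k) {T : Type} (φ : X.R ≃ T) (i : ℕ) (t : T) :
    FanSum_o X (φ.symm ((((φ.symm.trans X.ρ).trans φ : Perm T) ^ i) t)) = FanSum_o X (φ.symm t) := by
  induction i with
  | zero => simp
  | succ n ih =>
    rw [pow_succ', Perm.mul_apply]
    rw [← ih]
    simp only [Equiv.trans_apply, Equiv.symm_apply_apply]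
    exact FanSum_o_per X _

theorem FanSum_surj1 {k : ℕ} (X : FanD k) {d : X.N0.1.D} (hd : X.AtPole d)
    (hcard : 4 ≤ Fintype.card X.R) : ∃ x : FCode k, x.F = X.cls d := by
  have hg : Good X.a X.s := ⟨X.np.inv, X.np.fpf, X.np.ns, X.np.pl, hcard⟩
  obtain ⟨φ, φa, φs, φp⟩ := gcl_iso X.a X.s X.p hg
  have φas : ∀ t, φ ((X.a * X.s) t) =
      ((gcl X.a X.s X.p hg).rep.1.aa * (gcl X.a X.s X.p hg).rep.1.s) (φ t) := by
    intro t
    rw [Perm.mul_apply, Perm.mul_apply, φa, φs]
  have hrot : Rot (gcl X.a X.s X.p hg).rep.1.aa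
      ((gcl X.a X.s X.p hg).rep.1.aa * (gcl X.a X.s X.p hg).rep.1.s)
      ((φ.symm.trans X.ρ).trans φ) k (Sum.inr true) := by
    have := Rot.iso φ φa φas X.rot
    rwa [φp] at this
  have hF : IsFo k (gcl X.a X.s X.p hg).rep.1 := ⟨_, hrot⟩
  obtain ⟨i, -, hi⟩ := Rot.pow_eq (Good.dual (gcl X.a X.s X.p hg).rep.2) hrot hF.choose_spec
  have hω : FCond (gcl X.a X.s X.p hg).rep.1 hF.choose (fun t => FanSum_o X (φ.symm t)) := by
    refine ⟨fun t ht => ?_, fun t => ?_, ?_⟩
    · have h1 := X.face _ ((FanSum_o_ne X _).1 ht)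
      rw [← FanSum_sc φ φas, φp, Equiv.apply_symm_apply] at h1
      exact h1
    · rw [hi]
      exact FanSum_o_pow X φ i t
    · rw [← φp, Equiv.symm_apply_apply, FanSum_o_ne]
      exact X.pK
  obtain ⟨d', hd', he⟩ := FanSum_of_data (X' := FanD.ofCode k _ hF _ hω) hd φ φa φs φp
    (fun x => (FanSum_mem k _ hF _ hω (φ x)).trans (by
      rw [Equiv.symm_apply_apply]
      exact FanSum_o_ne X x))
    (fun x h => FanSum_onet (o := FanSum_o X (φ.symm (φ x)))
      (by rw [Equiv.symm_apply_apply]; exact (FanSum_o_ne X x).2 h)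
      (by rw [Equiv.symm_apply_apply]; exact FanSum_o_some X x h))
  exact ⟨⟨_, hF, _, hω, d', hd'⟩, by unfold FCode.F; rw [← he]⟩

theorem FanSum_two {k : ℕ} (X : FanD k) (hcard : ¬ 4 ≤ Fintype.card X.R) (x : X.R) :
    x = X.p ∨ x = X.a X.p := by
  by_contra hne
  rw [not_or] at hne
  apply hcard
  have h1 : ({X.p, X.a X.p, x, X.a x} : Finset X.R).card = 4 := by
    rw [card_insert_of_notMem, card_insert_of_notMem, card_insert_of_notMem, card_singleton]
    · rw [mem_singleton]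
      exact fun h => X.np.fpf x h.symm
    · rw [mem_insert, mem_singleton, not_or]
      exact ⟨fun h => hne.2 h.symm, fun h => hne.1 (X.a.injective h).symm⟩
    · rw [mem_insert, mem_insert, mem_singleton, not_or, not_or]
      refine ⟨fun h => X.np.fpf _ h.symm, fun h => hne.1 h.symm, fun h => hne.2 ?_⟩
      rw [h, X.np.inv]
  rw [← h1]
  exact card_le_univ _

theorem FanSum_surj2 {k : ℕ} (X : FanD k) {d : X.N0.1.D} (hd : X.AtPole d)
    (hcard : ¬ 4 ≤ Fintype.card X.R) : ∃ (h2 : k = 2) (y : LCode k h2), y.F = X.cls d := by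
  have htwo := FanSum_two X hcard
  have hk2 := X.rot.k2
  have hρp : X.ρ X.p = X.a X.p := by
    rcases htwo (X.ρ X.p) with h | h
    · exfalso
      exact X.rot.free X.p 1 one_pos (by omega) (by rw [pow_one]; exact h)
    · exact h
  have hρa : X.ρ (X.a X.p) = X.p := by
    rw [X.rot.ra, hρp, X.np.inv]
  have hk : k = 2 := by
    by_contra hne
    apply X.rot.free X.p 2 (by norm_num) (by omega)
    rw [pow_two, Perm.mul_apply, hρp, hρa]
  have hsp : X.s X.p = X.p := by
    rcases htwo (X.s X.p) with h | h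
    · exact h
    · exfalso
      have hsa : X.s (X.a X.p) = X.p := by
        rcases htwo (X.s (X.a X.p)) with h' | h'
        · exact h'
        · exact absurd (X.s.injective (h'.trans h.symm)) (X.np.fpf _)
      have has : X.a * X.s = 1 := by
        ext t
        rcases htwo t with rfl | rfl
        · rw [Perm.mul_apply, h, X.np.inv]; rfl
        · rw [Perm.mul_apply, hsa]; rfl
      have := X.rot.root
      rw [has, hρp] at this
      obtain ⟨i, hi⟩ := this
      rw [one_zpow, Perm.one_apply] at hi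
      exact X.np.fpf _ hi.symm
  have hsa : X.s (X.a X.p) = X.a X.p := by
    rcases htwo (X.s (X.a X.p)) with h' | h'
    · exact absurd (X.s.injective (h'.trans hsp.symm)) (X.np.fpf _)
    · exact h'
  have haK : X.a X.p ∈ X.K := by
    rw [← hρp]
    exact (X.inv _).2 X.pK
  have hK : ∀ x, x ∈ X.K := by
    intro x
    rcases htwo x with rfl | rfl
    · exact X.pK
    · exact haK
  -- the bijection with `Bool`
  let f : X.R ≃ Bool :=
    { toFun := fun x => decide (x = X.p)
      invFun := fun b => bif b then X.p else X.a X.p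
      left_inv := by
        intro x
        rcases htwo x with rfl | rfl
        · simp
        · simp [X.np.fpf]
      right_inv := by
        intro b
        cases b
        · simp [X.np.fpf]
        · simp }
  have fp : f X.p = true := by simp [f]
  have fap : f (X.a X.p) = false := by simp [f, X.np.fpf]
  refine ⟨hk, ?_⟩
  have hper : ∀ x (h : x ∈ X.K), BIso (X.N ⟨x, h⟩).1 X.N0.1 := by
    intro x h
    rcases htwo x with rfl | rfl
    · exact BIso.refl _
    · have h1 := X.per X.p X.pK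
      exact (FanSum_biso X hρp.symm _ _).trans h1.symm
  obtain ⟨d', hd', he⟩ := FanSum_of_data (X' := FanD.ofLink k hk (ESum.cl X.N0)) hd f
    (fun x => by
      change f (X.a x) = !(f x)
      rcases htwo x with rfl | rfl
      · rw [fp, fap]; rfl
      · rw [X.np.inv, fp, fap]; rfl)
    (fun x => by
      change f (X.s x) = f x
      rcases htwo x with rfl | rfl
      · rw [hsp]
      · rw [hsa])
    fp
    (fun x => by
      change f x ∈ univ ↔ _
      simp [hK x])
    (fun x h => by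
      change BIso _ (ESum.cl X.N0).rep.1
      exact (hper x h).trans (ESum.rep_iso _).symm)
  exact ⟨⟨_, d', hd'⟩, by unfold LCode.F; rw [← he]⟩

theorem FanSum_surj {k : ℕ} {c : GC} (h : IsNB k c.rep.1) :
    (∃ x : FCode k, x.F = c) ∨ ∃ (h2 : k = 2) (y : LCode k h2), y.F = c := by
  obtain ⟨ρ, hr, hn⟩ := h
  obtain ⟨X, d, e, hd, ea, es, er, -⟩ := exists_fan c.rep.2 hr hn
  have hX : X.cls d = c :=
    (((gcl_eq_iff c.rep.2 X.good).2 ⟨e, ea, es, er⟩).symm).trans (gcl_rep c)
  by_cases hcard : 4 ≤ Fintype.card X.R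
  · left
    rw [← hX]
    exact FanSum_surj1 X hd hcard
  · right
    rw [← hX]
    exact FanSum_surj2 X hd hcard

theorem FanSum_range {ι : Type*} {F : ι → GC} (W : GC → ℝ≥0∞) (hF : Function.Injective F) :
    (∑' c : GC, if c ∈ Set.range F then W c else 0) = ∑' x : ι, W (F x) := by
  rw [← hF.tsum_eq (f := fun c => if c ∈ Set.range F then W c else 0)]
  · refine tsum_congr fun x => ?_
    rw [if_pos ⟨x, rfl⟩]
  · intro c hc
    by_contra hne
    apply hc
    simp only
    rw [if_neg hne]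

theorem FanSum_sub {D : Type} [Fintype D] (P : D → Prop) (g : D → ℝ≥0∞) :
    (∑' d : {d // P d}, g d.1) = ∑ d : D, if P d then g d else 0 := by
  rw [tsum_fintype, ← Finset.sum_filter]
  exact (Finset.sum_subtype (univ.filter P) (by simp) g).symm

/-- the codes as iterated dependent pairs -/
noncomputable def FanSum_eq (k : ℕ) : FCode k ≃
    (Σ c : {c : GC // IsFo k c.rep.1}, Σ ω : {ω : c.1.rep.1.T → Option GC //
      FCond c.1.rep.1 c.2.choose ω}, {d : (FanD.ofCode k c.1 c.2 ω.1 ω.2).N0.1.D //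
        (FanD.ofCode k c.1 c.2 ω.1 ω.2).AtPole d}) where
  toFun x := ⟨⟨x.c, x.h⟩, ⟨x.ω, x.hω⟩, ⟨x.d, x.hd⟩⟩
  invFun y := ⟨y.1.1, y.1.2, y.2.1.1, y.2.1.2, y.2.2.1, y.2.2.2⟩
  left_inv _ := rfl
  right_inv _ := rfl

theorem FanSum_codes {k : ℕ} (W : GC → ℝ≥0∞) :
    (∑' x : FCode k, W x.F) = (∑' c : {c : GC // IsFo k c.rep.1},
      ∑' ω : {ω : c.1.rep.1.T → Option GC // FCond c.1.rep.1 c.2.choose ω},
        ∑ d : (FanD.ofCode k c.1 c.2 ω.1 ω.2).N0.1.D,
          if (FanD.ofCode k c.1 c.2 ω.1 ω.2).AtPole d then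
            W ((FanD.ofCode k c.1 c.2 ω.1 ω.2).cls d) else 0) := by
  rw [← (FanSum_eq k).symm.tsum_eq, ENNReal.tsum_sigma']
  refine tsum_congr fun c => ?_
  rw [ENNReal.tsum_sigma']
  refine tsum_congr fun ω => ?_
  exact FanSum_sub (D := (FanD.ofCode k c.1 c.2 ω.1 ω.2).N0.1.D)
    (fun d => (FanD.ofCode k c.1 c.2 ω.1 ω.2).AtPole d)
    (fun d => W ((FanD.ofCode k c.1 c.2 ω.1 ω.2).cls d))

noncomputable def FanSum_leq (k : ℕ) (h2 : k = 2) : LCode k h2 ≃
    (Σ n : GC, {d : (FanD.ofLink k h2 n).N0.1.D // (FanD.ofLink k h2 n).AtPole d}) where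
  toFun x := ⟨x.n, ⟨x.d, x.hd⟩⟩
  invFun y := ⟨y.1, y.2.1, y.2.2⟩
  left_inv _ := rfl
  right_inv _ := rfl

theorem FanSum_lcodes {k : ℕ} (h2 : k = 2) (W : GC → ℝ≥0∞) :
    (∑' x : LCode k h2, W x.F) = ∑' n : GC, ∑ d : (FanD.ofLink k h2 n).N0.1.D,
        if (FanD.ofLink k h2 n).AtPole d then W ((FanD.ofLink k h2 n).cls d) else 0 := by
  rw [← (FanSum_leq k h2).symm.tsum_eq, ENNReal.tsum_sigma']
  refine tsum_congr fun n => ?_
  exact FanSum_sub (D := (FanD.ofLink k h2 n).N0.1.D)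
    (fun d => (FanD.ofLink k h2 n).AtPole d) (fun d => W ((FanD.ofLink k h2 n).cls d))

/-- Proof.  The map from the codes (triples `(c, ω, d)` with `d` at the pole, and, if `k = 2`, pairs `(n, d)`) to the
classes `c` with `IsNB k c.rep` is a bijection.  Into: `FanD.isNB_cls`.  Injective: equal classes give an isomorphism of the
fans mapping root darts to root darts (`gcl_eq_iff`), `FanD.uniq`: an isomorphism `f` of the maps `R` which maps `p` to `p`; the
link has 2 darts, the others at least 4; for two codes over classes: `f` is an isomorphism `BIso`, so the classes `c` are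
equal and `f = 1` (`iso_unique`), so `ω = ω'` (the nets are isomorphic, they are representatives: `eq_of_iso`), and `g` is the
identity, `d = d'`.  (Do the equality of the dependent triples step by step: `subst`.)  Surjective: `exists_fan`; if `R` has at
least 4 darts, let `c = gcl X.a X.s X.p`, `ω t = cl (net)` transported by `gcl_iso` (`IsFo` by `Rot.iso`; invariance under
`h.choose`, a power of the transported `ρ` by `Rot.pow_eq` for the dual, from `X.per`), and `FanD.iso_of` shows that the classes are equal;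
if `R` has 2 darts `{p, a p}`: then `ρ p = a p` (free), `k = 2`, `K = R`, `X.s = 1` (`a p` is in the face of `p` and not at the
vertex of `p`, otherwise `s = a`, `a * s = 1`, but `Rot.root` says that `p`, `ρ p` are in one cycle of `a * s`), `X ≅ ofLink`. -/
theorem fan_sum {k : ℕ} (hk : 2 ≤ k) (W : GC → ℝ≥0∞) :
    (∑' c : GC, if IsNB k c.rep.1 then W c else 0) =
    (∑' c : {c : GC // IsFo k c.rep.1},
      ∑' ω : {ω : c.1.rep.1.T → Option GC // FCond c.1.rep.1 c.2.choose ω},
        ∑ d : (FanD.ofCode k c.1 c.2 ω.1 ω.2).N0.1.D,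
          if (FanD.ofCode k c.1 c.2 ω.1 ω.2).AtPole d then
            W ((FanD.ofCode k c.1 c.2 ω.1 ω.2).cls d) else 0) +
    if h2 : k = 2 then
      ∑' n : GC, ∑ d : (FanD.ofLink k h2 n).N0.1.D,
        if (FanD.ofLink k h2 n).AtPole d then W ((FanD.ofLink k h2 n).cls d) else 0
    else 0 := by
  rw [← FanSum_codes, ← FanSum_range _ FCode.F_inj]
  by_cases h2 : k = 2
  · rw [dif_pos h2, ← FanSum_lcodes, ← FanSum_range _ LCode.F_inj, ← ENNReal.tsum_add]
    refine tsum_congr fun c => ?_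
    by_cases h : IsNB k c.rep.1
    · rw [if_pos h]
      rcases FanSum_surj h with ⟨x, hx⟩ | ⟨h2', y, hy⟩
      · rw [if_pos ⟨x, hx⟩, if_neg, add_zero]
        rintro ⟨y, hy⟩
        exact FanSum_disj x y (hx.trans hy.symm)
      · rw [if_neg, if_pos ⟨y, hy⟩, zero_add]
        rintro ⟨x, hx⟩
        exact FanSum_disj x y (hx.trans hy.symm)
    · rw [if_neg h, if_neg, if_neg, add_zero]
      · rintro ⟨y, hy⟩
        rw [← hy] at h
        exact h (FanD.isNB_cls _ y.hd)
      · rintro ⟨x, hx⟩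
        rw [← hx] at h
        exact h (FanD.isNB_cls _ x.hd)
  · rw [dif_neg h2, add_zero]
    refine tsum_congr fun c => ?_
    by_cases h : IsNB k c.rep.1
    · rw [if_pos h]
      rcases FanSum_surj h with ⟨x, hx⟩ | ⟨h2', _⟩
      · rw [if_pos ⟨x, hx⟩]
      · exact absurd h2' h2
    · rw [if_neg h, if_neg]
      rintro ⟨x, hx⟩
      rw [← hx] at h
      exact h (FanD.isNB_cls _ x.hd)

end PGr

end

section
/-! # Module NbEq: the generating function of the maps which are not bonds -/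

set_option linter.unusedSectionVars false

namespace PGr
open Equiv Finset
open scoped ENNReal Classical

namespace NbEq

theorem nw_pow (S F Y Z : ℝ≥0∞) (k : ℕ) (M : BMap) :
    nw S F Y Z M ^ k = nw (S ^ k) (F ^ k) (Y ^ k) (Z ^ k) M := by
  unfold nw
  rw [mul_pow, mul_pow, mul_pow]
  simp only [← pow_mul, mul_comm]

/-- the fan sum for a given fan -/
theorem sum_atPole {k : ℕ} (X : FanD k) (w : ℝ≥0∞) :
    ∑ d : X.N0.1.D, (if X.AtPole d then w else 0) = (pd X.N0.1 : ℝ≥0∞) * w := by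
  rw [← sum_filter, sum_const, nsmul_eq_mul]
  congr 2
  exact card_atP X.N0

theorem sum_fan {k : ℕ} (X : FanD k) (S F Y kv kf ke Z : ℝ≥0∞) (c : ℝ≥0∞)
    (W : GC → ℝ≥0∞) (hW : ∀ d, X.AtPole d → W (X.cls d) =
      c * wV k S F Y kv kf ke Z (X.cls d).rep.1) :
    ∑ d : X.N0.1.D, (if X.AtPole d then W (X.cls d) else 0) =
      c * (wR F S Y kf kv ke 1 X.a (X.a * X.s) X.ρ X.p *
        ((pd X.N0.1 : ℝ≥0∞) * ∏ κ, nw S F Y Z (X.N κ).1)) := by
  have h1 : ∀ d, (if X.AtPole d then W (X.cls d) else 0) = if X.AtPole d then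
      c * (wR F S Y kf kv ke 1 X.a (X.a * X.s) X.ρ X.p * ∏ κ, nw S F Y Z (X.N κ).1) else 0 := by
    intro d
    by_cases hd : X.AtPole d
    · rw [if_pos hd, if_pos hd, hW d hd, X.wV_cls hd]
    · rw [if_neg hd, if_neg hd]
  rw [sum_congr rfl fun d _ => h1 d, sum_atPole]
  ring

theorem card_K {k : ℕ} (X : FanD k) : k ≤ X.K.card := by
  have hin : ∀ i : ℕ, (X.ρ ^ i) X.p ∈ X.K := by
    intro i
    induction i with
    | zero => exact X.pK
    | succ i ih =>
      rw [pow_succ', Perm.mul_apply, X.inv]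
      exact ih
  have hinj : ∀ i j : ℕ, i < j → j < k → (X.ρ ^ i) X.p ≠ (X.ρ ^ j) X.p := by
    intro i j hij hj h
    have h1 : (X.ρ ^ i) ((X.ρ ^ (j - i)) X.p) = (X.ρ ^ i) X.p := by
      rw [← Perm.mul_apply, ← pow_add, show i + (j - i) = j by omega, h]
    exact X.rot.free X.p (j - i) (by omega) (by omega) ((X.ρ ^ i).injective h1)
  have h2 := card_le_card_of_injOn (s := range k) (t := X.K) (fun i => (X.ρ ^ i) X.p)
    (fun i _ => hin i) (by
      intro i hi j hj h
      have hi' : i < k := by simpa using hi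
      have hj' : j < k := by simpa using hj
      by_contra hne
      rcases Nat.lt_or_gt_of_ne hne with h3 | h3
      · exact hinj i j h3 hj' h
      · exact hinj j i h3 hi' h.symm)
  rwa [card_range] at h2

theorem card_cls_ge {k : ℕ} (X : FanD k) {d : X.N0.1.D} :
    2 * k + Fintype.card X.R ≤ Fintype.card (X.cls d).rep.1.T := by
  rw [X.card_cls]
  have h1 : 2 * X.K.card ≤ ∑ κ, Fintype.card (X.N κ).1.D := by
    have h2 : 2 * X.K.card = ∑ κ : {x // x ∈ X.K}, 2 := by
      rw [sum_const, card_univ, Fintype.card_coe, smul_eq_mul, mul_comm]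
    rw [h2]
    refine sum_le_sum fun κ _ => ?_
    obtain ⟨n, hn0, hn⟩ := card_D_even (X.N κ).2
    omega
  have h2 := card_K X
  omega

theorem onet_some (c : GC) (h : (some c : Option GC) ≠ none) : onet (some c) h = c.rep := rfl

/-- the factor of an option -/
noncomputable def mv (z : ℝ≥0∞) (f : GC → ℝ≥0∞) (o : Option GC) : ℝ≥0∞ :=
  match o with | none => z | some x => f x

theorem mv_onet (z : ℝ≥0∞) (f : BMap → ℝ≥0∞) (o : Option GC) (h : o ≠ none) :
    f (onet o h).1 = mv z (fun c => f c.rep.1) o := by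
  cases o with
  | none => exact absurd rfl h
  | some c => rfl

theorem mem_K {k : ℕ} (c : GC) (h : IsFo k c.rep.1) (ω : c.rep.1.T → Option GC)
    (hω : FCond c.rep.1 h.choose ω) (t : c.rep.1.T) :
    t ∈ (FanD.ofCode k c h ω hω).K ↔ ω t ≠ none :=
  (@mem_filter _ (fun t => ω t ≠ none) (_) univ t).trans (by simp)

theorem prod_code {k : ℕ} (c : GC) (h : IsFo k c.rep.1) (ω : c.rep.1.T → Option GC)
    (hω : FCond c.rep.1 h.choose ω) (f : BMap → ℝ≥0∞) :
    ∏ κ, f ((FanD.ofCode k c h ω hω).N κ).1 = ∏ t, mv 1 (fun c => f c.rep.1) (ω t) := by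
  have h1 : ∀ κ, f ((FanD.ofCode k c h ω hω).N κ).1 =
      mv 1 (fun c => f c.rep.1) (ω κ.1) := fun κ =>
    mv_onet 1 f (ω κ.1) ((mem_K c h ω hω κ.1).1 κ.2)
  rw [prod_congr rfl fun κ _ => h1 κ]
  refine (Finset.prod_coe_sort (FanD.ofCode k c h ω hω).K
    (fun t => mv 1 (fun c => f c.rep.1) (ω t))).trans ?_
  refine prod_subset (subset_univ _) fun t _ ht => ?_
  have h2 : ω t = none := by
    by_contra h3
    exact ht ((mem_K c h ω hω t).2 h3)
  rw [h2]
  rfl

end NbEq

open NbEq in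
/-- the sum over the codes with given `c`: the fan has weight `wR F S Y kf kv ke 1 ... * ∏ nw` (`FanD.wV_cls`), the number of
`d` is `pd` of the net at `p` (`card_atP`), and `per_sum_root` with `I` = the corners of the root face, `g = pd`, `φ = nw S F Y Z`
(`nw S F Y Z c ^ k = nw (S ^ k) (F ^ k) (Y ^ k) (Z ^ k) c`) -/
theorem code_sum {k : ℕ} (hk : 2 ≤ k) (S F Y kv kf ke Z : ℝ≥0∞) (c : GC) (h : IsFo k c.rep.1) :
    (∑' ω : {ω : c.rep.1.T → Option GC // FCond c.rep.1 h.choose ω},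
      ∑ d : (FanD.ofCode k c h ω.1 ω.2).N0.1.D,
        if (FanD.ofCode k c h ω.1 ω.2).AtPole d then
          wV k S F Y kv kf ke Z ((FanD.ofCode k c h ω.1 ω.2).cls d).rep.1 else 0) =
      wF k S F Y kv kf ke 1 c.rep.1 * (eD (S ^ k) (F ^ k) (Y ^ k) (Z ^ k) *
        (1 + eN (S ^ k) (F ^ k) (Y ^ k) (Z ^ k)) ^
          (dgs (c.rep.1.aa * c.rep.1.s) (Sum.inr true) / k - 1)) := by
  have hrot := h.choose_spec
  set ρ := h.choose with hρ
  set I : Finset c.rep.1.T := univ.filter fun t =>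
    (c.rep.1.aa * c.rep.1.s).SameCycle (Sum.inr true) t with hI
  have hcard : I.card = dgs (c.rep.1.aa * c.rep.1.s) (Sum.inr true) := by
    unfold dgs
    rw [minimalPeriod_eq_card]
  have hinv : ∀ t, ρ t ∈ I ↔ t ∈ I := by
    intro t
    have h1 := Rot.pow_root hrot 1 (t := t)
    rw [pow_one] at h1
    rw [hI, mem_filter, mem_filter]
    simp only [mem_univ, true_and]
    exact h1
  have hp : (Sum.inr true : c.rep.1.T) ∈ I := by
    rw [hI, mem_filter]
    exact ⟨mem_univ _, Perm.SameCycle.refl _ _⟩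
  have key : (∑' ω : {ω : c.rep.1.T → Option GC // (∀ t, ω t ≠ none → t ∈ I) ∧
      (∀ t, ω (ρ t) = ω t) ∧ ω (Sum.inr true) ≠ none},
      mv 0 (fun n => (pd n.rep.1 : ℝ≥0∞)) (ω.1 (Sum.inr true)) *
        ∏ t, mv 1 (fun n => nw S F Y Z n.rep.1) (ω.1 t)) =
      (∑' x : GC, (pd x.rep.1 : ℝ≥0∞) * nw S F Y Z x.rep.1 ^ k) *
        (1 + ∑' x : GC, nw S F Y Z x.rep.1 ^ k) ^ (I.card / k - 1) := by
    refine Eq.trans (tsum_congr fun ω => ?_) (per_sum_root ρ (k := k) (by omega) hrot.pow hrot.free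
      I hinv hp (fun n : GC => (pd n.rep.1 : ℝ≥0∞)) (fun n : GC => nw S F Y Z n.rep.1))
    refine congrArg₂ (· * ·) ?_ (prod_congr rfl fun t _ => ?_)
    · cases ω.1 (Sum.inr true) <;> rfl
    · cases ω.1 t <;> rfl
  have e1 : ∑' x : GC, (pd x.rep.1 : ℝ≥0∞) * nw S F Y Z x.rep.1 ^ k =
      eD (S ^ k) (F ^ k) (Y ^ k) (Z ^ k) := tsum_congr fun x => by rw [nw_pow]
  have e2 : ∑' x : GC, nw S F Y Z x.rep.1 ^ k = eN (S ^ k) (F ^ k) (Y ^ k) (Z ^ k) :=
    tsum_congr fun x => by rw [nw_pow]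
  rw [e1, e2, hcard] at key
  rw [← key, ← ENNReal.tsum_mul_left]
  have hiff : ∀ ω : c.rep.1.T → Option GC, FCond c.rep.1 h.choose ω ↔
      ((∀ t, ω t ≠ none → t ∈ I) ∧ (∀ t, ω (ρ t) = ω t) ∧ ω (Sum.inr true) ≠ none) := by
    intro ω
    constructor
    · intro h1
      exact ⟨fun t ht => mem_filter.2 ⟨mem_univ _, h1.supp t ht⟩, h1.per, h1.root⟩
    · rintro ⟨h1, h2, h3⟩
      exact ⟨fun t ht => (mem_filter.1 (h1 t ht)).2, h2, h3⟩
  rw [← (Equiv.subtypeEquivRight hiff).tsum_eq]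
  refine tsum_congr fun ω => ?_
  have h2 := sum_fan (FanD.ofCode k c h ω.1 ω.2) S F Y kv kf ke Z 1
    (fun n => wV k S F Y kv kf ke Z n.rep.1) (fun d _ => (one_mul _).symm)
  rw [one_mul] at h2
  refine h2.trans ?_
  have e3 : wR F S Y kf kv ke 1 (FanD.ofCode k c h ω.1 ω.2).a
      ((FanD.ofCode k c h ω.1 ω.2).a * (FanD.ofCode k c h ω.1 ω.2).s)
      (FanD.ofCode k c h ω.1 ω.2).ρ (FanD.ofCode k c h ω.1 ω.2).p =
      wF k S F Y kv kf ke 1 c.rep.1 := by
    unfold wF
    rw [dif_pos h]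
    rfl
  rw [e3, prod_code c h ω.1 ω.2 (nw S F Y Z)]
  have e4 : (pd (FanD.ofCode k c h ω.1 ω.2).N0.1 : ℝ≥0∞) =
      mv 0 (fun c => (pd c.rep.1 : ℝ≥0∞)) (ω.1 (Sum.inr true)) :=
    mv_onet 0 (fun M => (pd M : ℝ≥0∞)) (ω.1 (Sum.inr true)) ω.2.root
  rw [e4]
  rfl

namespace NbEq

theorem wF_one {k : ℕ} (S F Y kv kf ke G : ℝ≥0∞) (M : BMap) :
    wF k S F Y kv kf ke 1 M * G ^ dgs (M.aa * M.s) (Sum.inr true) =
      wF k S F Y kv kf ke G M := by
  unfold wF
  by_cases h : IsFo k M
  · rw [dif_pos h, dif_pos h]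
    unfold wR
    rw [one_pow, mul_one]
  · rw [dif_neg h, dif_neg h, zero_mul]

/-- the factor of one class -/
theorem factor {k : ℕ} (hk : 2 ≤ k) (S F Y kv kf ke Z G : ℝ≥0∞)
    (hG : G ^ k = 1 + eN (S ^ k) (F ^ k) (Y ^ k) (Z ^ k)) (c : GC) (h : IsFo k c.rep.1) :
    wF k S F Y kv kf ke 1 c.rep.1 * (eD (S ^ k) (F ^ k) (Y ^ k) (Z ^ k) *
        (1 + eN (S ^ k) (F ^ k) (Y ^ k) (Z ^ k)) ^
          (dgs (c.rep.1.aa * c.rep.1.s) (Sum.inr true) / k - 1)) * G ^ k =
      eD (S ^ k) (F ^ k) (Y ^ k) (Z ^ k) * wF k S F Y kv kf ke G c.rep.1 := by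
  rw [← hG, ← wF_one S F Y kv kf ke G]
  obtain ⟨h1, -⟩ := Rot.normal (Good.dual c.rep.2) h.choose_spec
  have h2 : 0 < dgs (c.rep.1.aa * c.rep.1.s) (Sum.inr true) := by
    unfold dgs
    rw [minimalPeriod_eq_card, card_pos]
    exact ⟨Sum.inr true, by
      simp only [mem_filter, mem_univ, true_and]; exact Perm.SameCycle.refl _ _⟩
  obtain ⟨m, hm⟩ := h1
  have h3 : dgs (c.rep.1.aa * c.rep.1.s) (Sum.inr true) / k = m := by
    rw [hm, Nat.mul_div_cancel_left _ (by omega)]
  have h4 : 0 < m := by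
    rcases Nat.eq_zero_or_pos m with h5 | h5
    · rw [h5, mul_zero] at hm
      omega
    · exact h5
  rw [h3, hm]
  have h5 : (G ^ k) ^ (m - 1) * G ^ k = G ^ (k * m) := by
    rw [← pow_succ, ← pow_mul]
    congr 2
    omega
  rw [← h5]
  ring

/-- the sum over the fans over the link -/
theorem link {k : ℕ} (h2 : k = 2) (n : GC) (S F Y kv kf ke Z : ℝ≥0∞) (c : ℝ≥0∞)
    (W : GC → ℝ≥0∞) (hW : ∀ d, (FanD.ofLink k h2 n).AtPole d → W ((FanD.ofLink k h2 n).cls d) =
      c * wV k S F Y kv kf ke Z ((FanD.ofLink k h2 n).cls d).rep.1) :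
    ∑ d : (FanD.ofLink k h2 n).N0.1.D, (if (FanD.ofLink k h2 n).AtPole d then
      W ((FanD.ofLink k h2 n).cls d) else 0) =
      c * (ke * S ^ 2 * ((pd n.rep.1 : ℝ≥0∞) * nw (S ^ k) (F ^ k) (Y ^ k) (Z ^ k) n.rep.1)) := by
  rw [sum_fan (FanD.ofLink k h2 n) S F Y kv kf ke Z c W hW]
  have e1 : wR F S Y kf kv ke 1 (FanD.ofLink k h2 n).a
      ((FanD.ofLink k h2 n).a * (FanD.ofLink k h2 n).s) (FanD.ofLink k h2 n).ρ
      (FanD.ofLink k h2 n).p = ke * S ^ 2 * 1 ^ 2 := wR_link S F Y kv kf ke 1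
  have e2 : ∏ κ, nw S F Y Z ((FanD.ofLink k h2 n).N κ).1 = nw S F Y Z n.rep.1 ^ k := by
    have e3 : ∀ κ, nw S F Y Z ((FanD.ofLink k h2 n).N κ).1 = nw S F Y Z n.rep.1 := fun κ => rfl
    rw [prod_congr rfl fun κ _ => e3 κ, prod_const, card_univ]
    congr 1
    have e4 : Fintype.card {x // x ∈ (FanD.ofLink k h2 n).K} = 2 := by
      rw [Fintype.card_coe]
      show (univ : Finset Bool).card = 2
      rfl
    rw [e4, h2]
  rw [e1, e2, nw_pow, one_pow, mul_one]
  rfl

end NbEq

open NbEq in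
/-- `fan_sum`, `code_sum`; the length of the root face is a positive multiple of `k` (`Rot.normal` for the dual), so
`(G ^ k) ^ (l / k - 1) * G ^ k = G ^ l`, which is the factor of `Z` in `wF` at `Z = G`.  The link: `K` has two elements, weight
`ke * S ^ 2 * (nw)^2` (`wV_cls`, `wR_link`). -/
theorem nb_eq {k : ℕ} (hk : 2 ≤ k) (S F Y kv kf ke Z G : ℝ≥0∞)
    (hG : G ^ k = 1 + eN (S ^ k) (F ^ k) (Y ^ k) (Z ^ k)) :
    gNB k S F Y kv kf ke Z * G ^ k =
      eD (S ^ k) (F ^ k) (Y ^ k) (Z ^ k) * (gF k S F Y kv kf ke G + lkw k S ke G) := by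
  unfold gNB
  rw [fan_sum hk (fun c => wV k S F Y kv kf ke Z c.rep.1), add_mul, mul_add]
  congr 1
  · rw [← ENNReal.tsum_mul_right]
    have h1 : ∀ c : {c : GC // IsFo k c.rep.1},
        (∑' ω : {ω : c.1.rep.1.T → Option GC // FCond c.1.rep.1 c.2.choose ω},
          ∑ d : (FanD.ofCode k c.1 c.2 ω.1 ω.2).N0.1.D,
            if (FanD.ofCode k c.1 c.2 ω.1 ω.2).AtPole d then
              wV k S F Y kv kf ke Z ((FanD.ofCode k c.1 c.2 ω.1 ω.2).cls d).rep.1 else 0) *
          G ^ k = eD (S ^ k) (F ^ k) (Y ^ k) (Z ^ k) * wF k S F Y kv kf ke G c.1.rep.1 := by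
      intro c
      rw [code_sum hk S F Y kv kf ke Z c.1 c.2]
      exact factor hk S F Y kv kf ke Z G hG c.1 c.2
    rw [tsum_congr h1, ENNReal.tsum_mul_left]
    congr 1
    refine (_root_.tsum_subtype {c : GC | IsFo k c.rep.1}
      (fun c => wF k S F Y kv kf ke G c.rep.1)).trans ?_
    unfold gF
    refine tsum_congr fun c => ?_
    by_cases hc : IsFo k c.rep.1
    · exact Set.indicator_of_mem (show c ∈ {c : GC | IsFo k c.rep.1} from hc) _
    · rw [Set.indicator_of_notMem (show c ∉ {c : GC | IsFo k c.rep.1} from hc)]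
      unfold wF
      rw [dif_neg hc]
  · by_cases h2 : k = 2
    · rw [dif_pos h2]
      have h3 : ∀ n : GC, ∑ d : (FanD.ofLink k h2 n).N0.1.D,
          (if (FanD.ofLink k h2 n).AtPole d then
            wV k S F Y kv kf ke Z ((FanD.ofLink k h2 n).cls d).rep.1 else 0) =
          (ke * S ^ 2) * ((pd n.rep.1 : ℝ≥0∞) *
            nw (S ^ k) (F ^ k) (Y ^ k) (Z ^ k) n.rep.1) := by
        intro n
        have h4 := link h2 n S F Y kv kf ke Z 1 (fun n => wV k S F Y kv kf ke Z n.rep.1)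
          (fun d _ => (one_mul _).symm)
        rw [one_mul] at h4
        exact h4
      rw [tsum_congr h3, ENNReal.tsum_mul_left]
      unfold lkw
      rw [if_pos h2]
      have h4 : G ^ k = G ^ 2 := by rw [h2]
      rw [h4]
      unfold eD
      ring
    · rw [dif_neg h2]
      unfold lkw
      rw [if_neg h2, zero_mul, mul_zero]

open NbEq in
/-- The same with at most `M + 1` orbits of edges: the spokes have at least one orbit of edges (`FanD.card_cls`: every net has
at least 2 nonroot darts and there are at least `k` nets), so `R` has at most `M` orbits of edges; the link has 2 darts and the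
fans over it at least `6 > 4` darts. -/
theorem nb_trunc {k : ℕ} (hk : 2 ≤ k) (M : ℕ) (S F Y kv kf ke Z G : ℝ≥0∞)
    (hG : G ^ k = 1 + eN (S ^ k) (F ^ k) (Y ^ k) (Z ^ k)) :
    gNBt k (M + 1) S F Y kv kf ke Z * G ^ k ≤
      eD (S ^ k) (F ^ k) (Y ^ k) (Z ^ k) *
        (gFt k M S F Y kv kf ke G + if M = 0 then 0 else lkw k S ke G) := by
  have e0 : gNBt k (M + 1) S F Y kv kf ke Z = ∑' c : GC, if IsNB k c.rep.1 then
      (if Fintype.card c.rep.1.T ≤ 2 * k * (M + 1) then wV k S F Y kv kf ke Z c.rep.1 else 0)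
      else 0 := by
    unfold gNBt
    refine tsum_congr fun c => ?_
    by_cases h1 : IsNB k c.rep.1 <;> by_cases h2 : Fintype.card c.rep.1.T ≤ 2 * k * (M + 1) <;>
      simp [h1]
  rw [e0, fan_sum hk (fun c => if Fintype.card c.rep.1.T ≤ 2 * k * (M + 1) then
    wV k S F Y kv kf ke Z c.rep.1 else 0), add_mul,
    mul_add (eD (S ^ k) (F ^ k) (Y ^ k) (Z ^ k))]
  refine add_le_add ?_ ?_
  · rw [← ENNReal.tsum_mul_right]
    have h1 : ∀ c : {c : GC // IsFo k c.rep.1},
        (∑' ω : {ω : c.1.rep.1.T → Option GC // FCond c.1.rep.1 c.2.choose ω},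
          ∑ d : (FanD.ofCode k c.1 c.2 ω.1 ω.2).N0.1.D,
            if (FanD.ofCode k c.1 c.2 ω.1 ω.2).AtPole d then
              (fun c : GC => if Fintype.card c.rep.1.T ≤ 2 * k * (M + 1) then
                wV k S F Y kv kf ke Z c.rep.1 else 0)
                ((FanD.ofCode k c.1 c.2 ω.1 ω.2).cls d) else 0) * G ^ k ≤
          eD (S ^ k) (F ^ k) (Y ^ k) (Z ^ k) *
            (if Fintype.card c.1.rep.1.T ≤ 2 * k * M then
              wF k S F Y kv kf ke G c.1.rep.1 else 0) := by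
      intro c
      by_cases hc : Fintype.card c.1.rep.1.T ≤ 2 * k * M
      · rw [if_pos hc, ← factor hk S F Y kv kf ke Z G hG c.1 c.2,
          ← code_sum hk S F Y kv kf ke Z c.1 c.2]
        refine mul_le_mul' (ENNReal.tsum_le_tsum fun ω => sum_le_sum fun d _ => ?_) le_rfl
        by_cases hd : (FanD.ofCode k c.1 c.2 ω.1 ω.2).AtPole d
        · rw [if_pos hd, if_pos hd]
          show (if _ then _ else _) ≤ _
          split_ifs
          · exact le_rfl
          · exact zero_le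
        · rw [if_neg hd, if_neg hd]
      · rw [if_neg hc, mul_zero, nonpos_iff_eq_zero]
        have h2 : ∀ (ω : {ω : c.1.rep.1.T → Option GC // FCond c.1.rep.1 c.2.choose ω})
            (d : (FanD.ofCode k c.1 c.2 ω.1 ω.2).N0.1.D),
            (if (FanD.ofCode k c.1 c.2 ω.1 ω.2).AtPole d then
              (fun c : GC => if Fintype.card c.rep.1.T ≤ 2 * k * (M + 1) then
                wV k S F Y kv kf ke Z c.rep.1 else 0)
                ((FanD.ofCode k c.1 c.2 ω.1 ω.2).cls d) else 0) = 0 := by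
          intro ω d
          have h3 := card_cls_ge (FanD.ofCode k c.1 c.2 ω.1 ω.2) (d := d)
          have h4 : Fintype.card (FanD.ofCode k c.1 c.2 ω.1 ω.2).R =
            Fintype.card c.1.rep.1.T := rfl
          have h5 : ¬ Fintype.card ((FanD.ofCode k c.1 c.2 ω.1 ω.2).cls d).rep.1.T ≤
              2 * k * (M + 1) := by
            rw [h4] at h3
            have h6 : 2 * k * (M + 1) = 2 * k * M + 2 * k := by ring
            omega
          by_cases hd : (FanD.ofCode k c.1 c.2 ω.1 ω.2).AtPole d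
          · rw [if_pos hd]
            exact if_neg h5
          · rw [if_neg hd]
        have h3 : (∑' ω : {ω : c.1.rep.1.T → Option GC // FCond c.1.rep.1 c.2.choose ω},
          ∑ d : (FanD.ofCode k c.1 c.2 ω.1 ω.2).N0.1.D,
            if (FanD.ofCode k c.1 c.2 ω.1 ω.2).AtPole d then
              (fun c : GC => if Fintype.card c.rep.1.T ≤ 2 * k * (M + 1) then
                wV k S F Y kv kf ke Z c.rep.1 else 0)
                ((FanD.ofCode k c.1 c.2 ω.1 ω.2).cls d) else 0) = 0 := by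
          rw [ENNReal.tsum_eq_zero]
          intro ω
          exact sum_eq_zero fun d _ => h2 ω d
        rw [h3, zero_mul]
    refine (ENNReal.tsum_le_tsum h1).trans ?_
    rw [ENNReal.tsum_mul_left]
    refine mul_le_mul' le_rfl (le_of_eq ?_)
    refine (_root_.tsum_subtype {c : GC | IsFo k c.rep.1}
      (fun c => if Fintype.card c.rep.1.T ≤ 2 * k * M then
        wF k S F Y kv kf ke G c.rep.1 else 0)).trans ?_
    unfold gFt
    refine tsum_congr fun c => ?_
    by_cases hc : IsFo k c.rep.1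
    · exact Set.indicator_of_mem (show c ∈ {c : GC | IsFo k c.rep.1} from hc) _
    · rw [Set.indicator_of_notMem (show c ∉ {c : GC | IsFo k c.rep.1} from hc)]
      have h2 : wF k S F Y kv kf ke G c.rep.1 = 0 := dif_neg hc
      rw [h2, ite_self]
  · by_cases h2 : k = 2
    · rw [dif_pos h2]
      by_cases hM : M = 0
      · rw [if_pos hM, mul_zero, nonpos_iff_eq_zero]
        have h3 : (∑' n : GC, ∑ d : (FanD.ofLink k h2 n).N0.1.D,
            if (FanD.ofLink k h2 n).AtPole d then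
              (fun c : GC => if Fintype.card c.rep.1.T ≤ 2 * k * (M + 1) then
                wV k S F Y kv kf ke Z c.rep.1 else 0) ((FanD.ofLink k h2 n).cls d) else 0) = 0 := by
          rw [ENNReal.tsum_eq_zero]
          intro n
          refine sum_eq_zero fun d _ => ?_
          have h4 := card_cls_ge (FanD.ofLink k h2 n) (d := d)
          have h5 : Fintype.card (FanD.ofLink k h2 n).R = 2 := Fintype.card_bool
          have h6 : ¬ Fintype.card ((FanD.ofLink k h2 n).cls d).rep.1.T ≤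
              2 * k * (M + 1) := by
            rw [h5] at h4
            rw [hM]
            omega
          by_cases hd : (FanD.ofLink k h2 n).AtPole d
          · rw [if_pos hd]
            exact if_neg h6
          · rw [if_neg hd]
        rw [h3, zero_mul]
      · rw [if_neg hM]
        have h3 : ∀ n : GC, ∑ d : (FanD.ofLink k h2 n).N0.1.D,
            (if (FanD.ofLink k h2 n).AtPole d then
              (fun c : GC => if Fintype.card c.rep.1.T ≤ 2 * k * (M + 1) then
                wV k S F Y kv kf ke Z c.rep.1 else 0) ((FanD.ofLink k h2 n).cls d) else 0) ≤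
            (ke * S ^ 2) * ((pd n.rep.1 : ℝ≥0∞) *
              nw (S ^ k) (F ^ k) (Y ^ k) (Z ^ k) n.rep.1) := by
          intro n
          have h4 := link h2 n S F Y kv kf ke Z 1 (fun n => wV k S F Y kv kf ke Z n.rep.1)
            (fun d _ => (one_mul _).symm)
          rw [one_mul] at h4
          rw [← h4]
          refine sum_le_sum fun d _ => ?_
          by_cases hd : (FanD.ofLink k h2 n).AtPole d
          · rw [if_pos hd, if_pos hd]
            show (if _ then _ else _) ≤ _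
            split_ifs
            · exact le_rfl
            · exact zero_le
          · rw [if_neg hd, if_neg hd]
        refine (mul_le_mul' (ENNReal.tsum_le_tsum h3) le_rfl).trans (le_of_eq ?_)
        rw [ENNReal.tsum_mul_left]
        unfold lkw
        rw [if_pos h2]
        have h4 : G ^ k = G ^ 2 := by rw [h2]
        rw [h4]
        unfold eD
        ring
    · rw [dif_neg h2, zero_mul]
      exact zero_le

end PGr

end
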