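import Mathlib
import Pool.Agent.PGc.Pring
import Pool.Agent.PGm.M02
import Pool.Agent.PGm.M05
import Pool.Agent.PGm.M10
import Pool.Agent.PGm.M14
import Pool.Agent.PGm.M16
import Pool.Agent.PGm.M18
import Pool.Agent.PGm.M19
import Pool.Agent.PGm.M21
import Pool.Agent.PGr.InsMap
import Pool.Agent.PGr.InsSurj
import Pool.Agent.PGr.PieceDec
import Pool.Agent.PGr.TUpper

section
/-! # The rotation equations: definitions -/

namespace PGa
open scoped ENNReal

/-- the derivative of the solution along the curve -/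
noncomputable def Nd (q c kv kf ke w : ℝ) : ℝ :=
  kv * dNv c w + kf * dNf q c w + ke * dNe q c w

/-- the same for `h` -/
noncomputable def Hd (q c kv kf ke w : ℝ) : ℝ :=
  ke * (ss q c * dX q c w) + q * Nd q c kv kf ke (q * w) +
    kf * (q * dZ q c (q * w) / Zf q c (q * w))

/-- The system of the two functional equations (at the points of the curve). -/
structure RotSys (q c kv kf ke : ℝ) (n h : ℝ → ℝ≥0∞) : Prop where
  en : ∀ w, 0 < w → w < q → n (Zf q c w) = ENNReal.ofReal ke +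
    ENNReal.ofReal (dX q c w / dZ q c w) * (h (Xf q c w) + ENNReal.ofReal (kv / Xf q c w))
  eh : ∀ w, 0 < w → w < q → h (Xf q c w) = ENNReal.ofReal (ke * ss q c) +
    ENNReal.ofReal (q * dZ q c (q * w) / dX q c w) *
      (n (Zf q c (q * w)) + ENNReal.ofReal (kf / Zf q c (q * w)))

/-- Truncations. -/
structure RotTrunc (q c kv kf ke : ℝ) (n h : ℕ → ℝ → ℝ≥0∞) : Prop where
  n0 : ∀ z, n 0 z = 0
  h0 : ∀ z, h 0 z = 0
  en : ∀ M w, 0 < w → w < q → n (M + 1) (Zf q c w) ≤ ENNReal.ofReal ke +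
    ENNReal.ofReal (dX q c w / dZ q c w) * (h M (Xf q c w) + ENNReal.ofReal (kv / Xf q c w))
  eh : ∀ M w, 0 < w → w < q → h (M + 1) (Xf q c w) ≤ ENNReal.ofReal (ke * ss q c) +
    ENNReal.ofReal (q * dZ q c (q * w) / dX q c w) *
      (n M (Zf q c (q * w)) + ENNReal.ofReal (kf / Zf q c (q * w)))

end PGa

end

section
/-! # Module SUP1 -/

namespace PGa
open scoped ENNReal

variable {q c kv kf ke w : ℝ} {n h : ℝ → ℝ≥0∞} {nM hM : ℕ → ℝ → ℝ≥0∞}

/-- Module SUP1 (`dNv_nonpos`, ..) -/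
theorem Nd_nonpos (hq : 0 < q) (hqc : q < c) (hc : c < 1) (hkv : 0 ≤ kv) (hkf : 0 ≤ kf)
    (hke : 0 ≤ ke) (h0 : 0 ≤ w) (h1 : w < c) : Nd q c kv kf ke w ≤ 0 := by
  have e1 := dNv_nonpos hc h1
  have e2 := dNf_nonpos hq hqc h0 (h1.trans hc)
  have e3 := dNe_nonpos (w := w) hq hqc hc
  unfold Nd
  have f1 := mul_nonpos_of_nonneg_of_nonpos hkv e1
  have f2 := mul_nonpos_of_nonneg_of_nonpos hkf e2
  have f3 := mul_nonpos_of_nonneg_of_nonpos hke e3
  linarith

/-- Module SUP1 -/
theorem Hd_nonpos (hq : 0 < q) (hqc : q < c) (hc : c < 1) (hkv : 0 ≤ kv) (hkf : 0 ≤ kf)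
    (hke : 0 ≤ ke) (h0 : 0 ≤ w) (h1 : w < c) : Hd q c kv kf ke w ≤ 0 := by
  have hq1 : q < 1 := hqc.trans hc
  have hqw0 : 0 ≤ q * w := mul_nonneg hq.le h0
  have hqw1 : q * w < c := by nlinarith
  have e1 := Nd_nonpos hq hqc hc hkv hkf hke hqw0 hqw1
  have e2 := dX_neg hq hqc hc h0 (h1.trans hc)
  have e3 := dZ_neg hq hqc hc hqw0 hqw1
  have e4 := one_lt_Zf hq hqc hc h0 h1
  have e5 := ss_pos hq hqc hc
  unfold Hd
  have f1 : ke * (ss q c * dX q c w) ≤ 0 :=
    mul_nonpos_of_nonneg_of_nonpos hke (mul_nonpos_of_nonneg_of_nonpos e5.le e2.le)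
  have f2 : q * Nd q c kv kf ke (q * w) ≤ 0 := mul_nonpos_of_nonneg_of_nonpos hq.le e1
  have f3 : kf * (q * dZ q c (q * w) / Zf q c (q * w)) ≤ 0 :=
    mul_nonpos_of_nonneg_of_nonpos hkf
      (div_nonpos_of_nonpos_of_nonneg (mul_nonpos_of_nonneg_of_nonpos hq.le e3.le) (by linarith))
  linarith

/-- Module SUP1 (the three telescoping identities) -/
theorem Nd_eq (hq : 0 < q) (hqc : q < c) (hc : c < 1) (h0 : 0 ≤ w) (h1 : w < c) :
    Nd q c kv kf ke w = ke * dZ q c w + Hd q c kv kf ke w + kv * (dX q c w / Xf q c w) := by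
  have e1 := tele_v hq hqc hc h0 h1
  have e2 := tele_f hq hqc hc h0 h1
  have e3 := tele_e hq hqc hc h0 h1
  unfold Hd Nd
  linear_combination kv * e1 + kf * e2 + ke * e3

end PGa

end

section
/-! # Module SUP2 -/

namespace PGa
open scoped ENNReal

variable {q c kv kf ke w : ℝ} {n h : ℝ → ℝ≥0∞} {nM hM : ℕ → ℝ → ℝ≥0∞}

/-- Module SUP2: the closed form solves the system -/
theorem sol_n (hq : 0 < q) (hqc : q < c) (hc : c < 1) (hkv : 0 ≤ kv) (hkf : 0 ≤ kf)
    (hke : 0 ≤ ke) (h0 : 0 < w) (h1 : w < q) :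
    ENNReal.ofReal (Nd q c kv kf ke w / dZ q c w) = ENNReal.ofReal ke +
      ENNReal.ofReal (dX q c w / dZ q c w) *
        (ENNReal.ofReal (Hd q c kv kf ke w / dX q c w) + ENNReal.ofReal (kv / Xf q c w)) := by
  have hwc : w < c := h1.trans hqc
  have e1 := dX_neg hq hqc hc h0.le (hwc.trans hc)
  have e2 := dZ_neg hq hqc hc h0.le hwc
  have e3 := Hd_nonpos hq hqc hc hkv hkf hke h0.le hwc
  have e4 := Xf_pos hq hqc hc h0.le hwc
  have e5 := Nd_eq (kv := kv) (kf := kf) (ke := ke) hq hqc hc h0.le hwc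
  have f1 : 0 ≤ Hd q c kv kf ke w / dX q c w := div_nonneg_of_nonpos e3 e1.le
  have f2 : 0 ≤ kv / Xf q c w := div_nonneg hkv e4.le
  have f3 : 0 ≤ dX q c w / dZ q c w := div_nonneg_of_nonpos e1.le e2.le
  rw [← ENNReal.ofReal_add f1 f2, ← ENNReal.ofReal_mul f3,
    ← ENNReal.ofReal_add hke (mul_nonneg f3 (add_nonneg f1 f2))]
  congr 1
  rw [e5]
  have g1 := e1.ne
  have g2 := e2.ne
  have g3 := e4.ne'
  field_simp
  ring

/-- Module SUP2 -/
theorem sol_h (hq : 0 < q) (hqc : q < c) (hc : c < 1) (hkv : 0 ≤ kv) (hkf : 0 ≤ kf)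
    (hke : 0 ≤ ke) (h0 : 0 < w) (h1 : w < q) :
    ENNReal.ofReal (Hd q c kv kf ke w / dX q c w) = ENNReal.ofReal (ke * ss q c) +
      ENNReal.ofReal (q * dZ q c (q * w) / dX q c w) *
        (ENNReal.ofReal (Nd q c kv kf ke (q * w) / dZ q c (q * w)) +
          ENNReal.ofReal (kf / Zf q c (q * w))) := by
  have hq1 : q < 1 := hqc.trans hc
  have hwc : w < c := h1.trans hqc
  have hqw0 : 0 ≤ q * w := mul_nonneg hq.le h0.le
  have hqw1 : q * w < c := by nlinarith
  have e1 := dX_neg hq hqc hc h0.le (hwc.trans hc)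
  have e2 := dZ_neg hq hqc hc hqw0 hqw1
  have e3 := Nd_nonpos hq hqc hc hkv hkf hke hqw0 hqw1
  have e4 : 0 < Zf q c (q * w) := by linarith [one_lt_Zf hq hqc hc h0.le hwc]
  have e5 := ss_pos hq hqc hc
  have f1 : 0 ≤ Nd q c kv kf ke (q * w) / dZ q c (q * w) := div_nonneg_of_nonpos e3 e2.le
  have f2 : 0 ≤ kf / Zf q c (q * w) := div_nonneg hkf e4.le
  have f3 : 0 ≤ q * dZ q c (q * w) / dX q c w :=
    div_nonneg_of_nonpos (mul_nonpos_of_nonneg_of_nonpos hq.le e2.le) e1.le
  rw [← ENNReal.ofReal_add f1 f2, ← ENNReal.ofReal_mul f3,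
    ← ENNReal.ofReal_add (mul_nonneg hke e5.le) (mul_nonneg f3 (add_nonneg f1 f2))]
  congr 1
  unfold Hd
  have g1 := e1.ne
  have g2 := e2.ne
  have g3 := e4.ne'
  field_simp
  ring

end PGa

end

section
/-! # Module UNI -/

namespace PGa
open scoped ENNReal

variable {q c kv kf ke w : ℝ} {n h : ℝ → ℝ≥0∞} {nM hM : ℕ → ℝ → ℝ≥0∞}

theorem Uni_aux {x y : ℝ≥0∞} {A k k' : ℝ} (hA : 0 ≤ A) (hy : y ≠ ⊤)
    (h : x = ENNReal.ofReal k + ENNReal.ofReal A * (y + ENNReal.ofReal k')) :
    x.toReal = (ENNReal.ofReal k).toReal + A * (y.toReal + (ENNReal.ofReal k').toReal) := by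
  have h1 : y + ENNReal.ofReal k' ≠ ⊤ := ENNReal.add_ne_top.2 ⟨hy, ENNReal.ofReal_ne_top⟩
  rw [h, ENNReal.toReal_add ENNReal.ofReal_ne_top (ENNReal.mul_ne_top ENNReal.ofReal_ne_top h1),
    ENNReal.toReal_mul, ENNReal.toReal_add hy ENNReal.ofReal_ne_top, ENNReal.toReal_ofReal hA]

theorem Uni_step (hq : 0 < q) (hqc : q < c) (hc : c < 1) (hkv : 0 ≤ kv) (hkf : 0 ≤ kf)
    (hke : 0 ≤ ke) (hS : RotSys q c kv kf ke n h)
    (hle : ∀ w, 0 < w → w < q → n (Zf q c w) ≤ ENNReal.ofReal (Nd q c kv kf ke w / dZ q c w))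
    (h0 : 0 < w) (h1 : w < q) :
    Nd q c kv kf ke w / dZ q c w - (n (Zf q c w)).toReal = (q * dZ q c (q * w) / dZ q c w) *
      (Nd q c kv kf ke (q * w) / dZ q c (q * w) - (n (Zf q c (q * w))).toReal) := by
  have hq1 : q < 1 := hqc.trans hc
  have hqw0 : 0 < q * w := mul_pos hq h0
  have hqw1 : q * w < q := by nlinarith
  have z1 := dZ_neg hq hqc hc h0.le (h1.trans hqc)
  have z2 := dZ_neg hq hqc hc hqw0.le (hqw1.trans hqc)
  have x1 := dX_neg hq hqc hc h0.le (h1.trans hq1)
  have n1 := Nd_nonpos hq hqc hc hkv hkf hke h0.le (h1.trans hqc)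
  have n2 := Nd_nonpos hq hqc hc hkv hkf hke hqw0.le (hqw1.trans hqc)
  have k1 := Hd_nonpos hq hqc hc hkv hkf hke h0.le (h1.trans hqc)
  have hA : 0 ≤ dX q c w / dZ q c w := div_nonneg_of_nonpos x1.le z1.le
  have hB : 0 ≤ q * dZ q c (q * w) / dX q c w :=
    div_nonneg_of_nonpos (mul_nonpos_of_nonneg_of_nonpos hq.le z2.le) x1.le
  have hN : 0 ≤ Nd q c kv kf ke w / dZ q c w := div_nonneg_of_nonpos n1 z1.le
  have hN' : 0 ≤ Nd q c kv kf ke (q * w) / dZ q c (q * w) := div_nonneg_of_nonpos n2 z2.le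
  have hH : 0 ≤ Hd q c kv kf ke w / dX q c w := div_nonneg_of_nonpos k1 x1.le
  have hn' : n (Zf q c (q * w)) ≠ ⊤ :=
    ne_top_of_le_ne_top ENNReal.ofReal_ne_top (hle _ hqw0 hqw1)
  have e2 := hS.eh w h0 h1
  have hh : h (Xf q c w) ≠ ⊤ := by
    rw [e2]
    exact ENNReal.add_ne_top.2 ⟨ENNReal.ofReal_ne_top, ENNReal.mul_ne_top ENNReal.ofReal_ne_top
      (ENNReal.add_ne_top.2 ⟨hn', ENNReal.ofReal_ne_top⟩)⟩
  have f1 := Uni_aux hA hh (hS.en w h0 h1)
  have f2 := Uni_aux hB hn' e2
  have f3 := Uni_aux hA ENNReal.ofReal_ne_top (sol_n hq hqc hc hkv hkf hke h0 h1)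
  have f4 := Uni_aux hB ENNReal.ofReal_ne_top (sol_h hq hqc hc hkv hkf hke h0 h1)
  rw [ENNReal.toReal_ofReal hN, ENNReal.toReal_ofReal hH] at f3
  rw [ENNReal.toReal_ofReal hH, ENNReal.toReal_ofReal hN'] at f4
  have hAB : dX q c w / dZ q c w * (q * dZ q c (q * w) / dX q c w) =
      q * dZ q c (q * w) / dZ q c w := by
    have := x1.ne
    field_simp
  rw [← hAB, f3, f4, f1, f2]
  ring

theorem Uni_iter (hq : 0 < q) (hqc : q < c) (hc : c < 1) (hkv : 0 ≤ kv) (hkf : 0 ≤ kf)
    (hke : 0 ≤ ke) (hS : RotSys q c kv kf ke n h)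
    (hle : ∀ w, 0 < w → w < q → n (Zf q c w) ≤ ENNReal.ofReal (Nd q c kv kf ke w / dZ q c w))
    (h0 : 0 < w) (h1 : w < q) (j : ℕ) :
    Nd q c kv kf ke w / dZ q c w - (n (Zf q c w)).toReal =
      (q ^ j * dZ q c (q ^ j * w) / dZ q c w) *
      (Nd q c kv kf ke (q ^ j * w) / dZ q c (q ^ j * w) - (n (Zf q c (q ^ j * w))).toReal) := by
  have hq1 : q < 1 := hqc.trans hc
  induction j with
  | zero =>
    have z1 := (dZ_neg hq hqc hc h0.le (h1.trans hqc)).ne
    simp [z1]
  | succ j ih =>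
    have g0 : 0 < q ^ j * w := by positivity
    have g1 : q ^ j * w < q := by
      have : q ^ j ≤ 1 := pow_le_one₀ hq.le hq1.le
      nlinarith
    have z1 := (dZ_neg hq hqc hc g0.le (g1.trans hqc)).ne
    rw [ih, Uni_step hq hqc hc hkv hkf hke hS hle g0 g1]
    have e : q * (q ^ j * w) = q ^ (j + 1) * w := by ring
    rw [e]
    have e2 : q ^ j * dZ q c (q ^ j * w) / dZ q c w *
        (q * dZ q c (q ^ (j + 1) * w) / dZ q c (q ^ j * w)) =
        q ^ (j + 1) * dZ q c (q ^ (j + 1) * w) / dZ q c w := by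
      rw [pow_succ q j]
      field_simp
    rw [← mul_assoc, e2]

/-- Module UNI.  `D w = (closed form - n) dZ w` is real and bounded on `(0, q)` and satisfies
`D w = q D (q w)`, so `D w = q^j D (q^j w) → 0`. -/
theorem rot_eq (hq : 0 < q) (hqc : q < c) (hc : c < 1) (hkv : 0 ≤ kv) (hkf : 0 ≤ kf)
    (hke : 0 ≤ ke) (hS : RotSys q c kv kf ke n h)
    (hle : ∀ w, 0 < w → w < q → n (Zf q c w) ≤ ENNReal.ofReal (Nd q c kv kf ke w / dZ q c w))
    (h0 : 0 < w) (h1 : w < q) :
    n (Zf q c w) = ENNReal.ofReal (Nd q c kv kf ke w / dZ q c w) ∧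
    h (Xf q c w) = ENNReal.ofReal (Hd q c kv kf ke w / dX q c w) := by
  have hq1 : q < 1 := hqc.trans hc
  have main : ∀ w, 0 < w → w < q →
      n (Zf q c w) = ENNReal.ofReal (Nd q c kv kf ke w / dZ q c w) := by
    intro w h0 h1
    have z1 := dZ_neg hq hqc hc h0.le (h1.trans hqc)
    have n1 := Nd_nonpos hq hqc hc hkv hkf hke h0.le (h1.trans hqc)
    have hN : 0 ≤ Nd q c kv kf ke w / dZ q c w := div_nonneg_of_nonpos n1 z1.le
    have hfin : n (Zf q c w) ≠ ⊤ := ne_top_of_le_ne_top ENNReal.ofReal_ne_top (hle _ h0 h1)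
    -- the limit
    have hlim : Filter.Tendsto (fun j : ℕ => q ^ j * (Nd q c kv kf ke (q ^ j * w) / dZ q c w))
        Filter.atTop (nhds 0) := by
      have a1 : Filter.Tendsto (fun j : ℕ => q ^ j) Filter.atTop (nhds 0) :=
        tendsto_pow_atTop_nhds_zero_of_lt_one hq.le hq1
      have a2 : Filter.Tendsto (fun j : ℕ => q ^ j * w) Filter.atTop (nhds 0) := by
        have := a1.mul_const w
        rwa [zero_mul] at this
      have a3 : ContinuousAt (fun x => Nd q c kv kf ke x / dZ q c w) 0 := by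
        have b1 : (1 : ℝ) - 0 ≠ 0 := by norm_num
        have b2 : c - 0 ≠ 0 := by linarith
        have b3 : c - q * 0 ≠ 0 := by linarith
        have c1 : ContinuousAt (fun x : ℝ => 1 - x) 0 := by fun_prop
        have c2 : ContinuousAt (fun x : ℝ => c - x) 0 := by fun_prop
        have c3 : ContinuousAt (fun x : ℝ => c - q * x) 0 := by fun_prop
        have d1 : ContinuousAt (fun x => dNv c x) 0 := by
          unfold dNv
          exact (continuousAt_const.div c1 b1).sub (continuousAt_const.div c2 b2)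
        have d2 : ContinuousAt (fun x => dNf q c x) 0 := by
          unfold dNf
          exact (continuousAt_const.div c3 b3).sub (continuousAt_const.div c1 b1)
        have d3 : ContinuousAt (fun x => dNe q c x) 0 := by
          unfold dNe
          exact continuousAt_const.div (c2.pow 2) (pow_ne_zero 2 b2)
        have d4 : ContinuousAt (fun x => Nd q c kv kf ke x) 0 := by
          unfold Nd
          exact ((continuousAt_const.mul d1).add (continuousAt_const.mul d2)).add
            (continuousAt_const.mul d3)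
        exact d4.div_const _
      have a4 := a1.mul (a3.tendsto.comp a2)
      rw [zero_mul] at a4
      exact a4
    have hup : ∀ j : ℕ, Nd q c kv kf ke w / dZ q c w - (n (Zf q c w)).toReal ≤
        q ^ j * (Nd q c kv kf ke (q ^ j * w) / dZ q c w) := by
      intro j
      have g0 : 0 < q ^ j * w := by positivity
      have g1 : q ^ j * w < q := by
        have : q ^ j ≤ 1 := pow_le_one₀ hq.le hq1.le
        nlinarith
      have z2 := dZ_neg hq hqc hc g0.le (g1.trans hqc)
      rw [Uni_iter hq hqc hc hkv hkf hke hS hle h0 h1 j]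
      have e1 : q ^ j * dZ q c (q ^ j * w) / dZ q c w *
          (Nd q c kv kf ke (q ^ j * w) / dZ q c (q ^ j * w)) =
          q ^ j * (Nd q c kv kf ke (q ^ j * w) / dZ q c w) := by
        have := z2.ne
        field_simp
      rw [mul_sub, e1]
      have e2 : 0 ≤ q ^ j * dZ q c (q ^ j * w) / dZ q c w :=
        div_nonneg_of_nonpos (mul_nonpos_of_nonneg_of_nonpos (pow_pos hq j).le z2.le) z1.le
      have e3 : 0 ≤ (n (Zf q c (q ^ j * w))).toReal := ENNReal.toReal_nonneg
      have e4 := mul_nonneg e2 e3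
      linarith
    have hle0 : Nd q c kv kf ke w / dZ q c w - (n (Zf q c w)).toReal ≤ 0 :=
      ge_of_tendsto' hlim hup
    refine le_antisymm (hle w h0 h1) ?_
    rw [← ENNReal.ofReal_toReal hfin]
    exact ENNReal.ofReal_le_ofReal (by linarith)
  refine ⟨main w h0 h1, ?_⟩
  have hqw0 : 0 < q * w := mul_pos hq h0
  have hqw1 : q * w < q := by nlinarith
  rw [hS.eh w h0 h1, main (q * w) hqw0 hqw1, ← sol_h hq hqc hc hkv hkf hke h0 h1]

end PGa

end

section
/-! # Module CodeIso: isomorphic rigid networks have matching codes -/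

set_option linter.unusedSectionVars false

namespace PGr
open Equiv Finset
open scoped ENNReal Classical
universe u
variable {Λ : Type u}
open NetSumC

/-- exchange of the root darts if `b` is true -/
def CodeIso.sg (T : Type) (b : Bool) : (T ⊕ Bool) ≃ (T ⊕ Bool) :=
  Equiv.sumCongr (Equiv.refl T) (if b then Equiv.boolNot else Equiv.refl Bool)

theorem CodeIso.sg_inl (T : Type) (b : Bool) (x : T) : CodeIso.sg T b (Sum.inl x) = Sum.inl x := rfl

theorem CodeIso.sg_inr (T : Type) (b c : Bool) :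
    CodeIso.sg T b (Sum.inr c) = Sum.inr (xor b c) := by
  cases b <;> cases c <;> rfl

theorem CodeIso.sg_sg (T : Type) (b : Bool) (t : T ⊕ Bool) :
    CodeIso.sg T b (CodeIso.sg T b t) = t := by
  rcases t with x | c
  · rfl
  · rw [CodeIso.sg_inr, CodeIso.sg_inr]
    cases b <;> cases c <;> rfl

/-- the core with the root darts exchanged -/
def CodeIso.cc (C : Core) (b : Bool) : Core where
  I := C.I
  s := ((CodeIso.sg (C.I × Bool) b).trans C.s).trans (CodeIso.sg (C.I × Bool) b)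

theorem CodeIso.cc_s (C : Core) (b : Bool) (t : (C.I × Bool) ⊕ Bool) :
    CodeIso.sg (C.I × Bool) b ((CodeIso.cc C b).s t) = C.s (CodeIso.sg (C.I × Bool) b t) :=
  CodeIso.sg_sg _ _ _

theorem CodeIso.cc_aa (C : Core) (b : Bool) (t : (C.I × Bool) ⊕ Bool) :
    CodeIso.sg (C.I × Bool) b ((CodeIso.cc C b).toB.aa t) =
      C.toB.aa (CodeIso.sg (C.I × Bool) b t) := by
  rcases t with x | c
  · rfl
  · show CodeIso.sg (C.I × Bool) b (Sum.inr (!c)) = _
    rw [CodeIso.sg_inr, CodeIso.sg_inr]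
    show _ = (Sum.inr (!(xor b c)) : (C.I × Bool) ⊕ Bool)
    cases b <;> cases c <;> rfl

theorem CodeIso.cc_aa' (C : Core) (b : Bool) (t : (C.I × Bool) ⊕ Bool) :
    CodeIso.sg (C.I × Bool) b (C.toB.aa t) =
      (CodeIso.cc C b).toB.aa (CodeIso.sg (C.I × Bool) b t) := by
  have h := CodeIso.cc_aa C b (CodeIso.sg (C.I × Bool) b t)
  rw [CodeIso.sg_sg] at h
  rw [← h, CodeIso.sg_sg]

theorem CodeIso.cc_s' (C : Core) (b : Bool) (t : (C.I × Bool) ⊕ Bool) :
    CodeIso.sg (C.I × Bool) b (C.s t) = (CodeIso.cc C b).s (CodeIso.sg (C.I × Bool) b t) := by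
  have h := CodeIso.cc_s C b (CodeIso.sg (C.I × Bool) b t)
  rw [CodeIso.sg_sg] at h
  rw [← h, CodeIso.sg_sg]

theorem CodeIso.cc_good (C : Core) (b : Bool) (h : C.toB.IsGood) : (CodeIso.cc C b).toB.IsGood :=
  Good_iso (T := C.toB.T) (T' := (CodeIso.cc C b).toB.T) (CodeIso.sg (C.I × Bool) b)
    (CodeIso.cc_aa' C b) (CodeIso.cc_s' C b) h

theorem CodeIso.rigid_iso {M N : BMap} (e : M.T ≃ N.T) (h1 : ∀ t, e (M.aa t) = N.aa (e t))
    (h2 : ∀ t, e (M.s t) = N.s (e t)) (hM : Rigid M) : Rigid N := by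
  obtain ⟨hM1, hM2⟩ := hM
  have hc := Fintype.card_congr e
  refine ⟨by rw [← hc]; exact hM1, ?_⟩
  intro A hA hA1 hA2
  have h4 := hM2 (A.map e.symm.toEmbedding) (Cl_iso e.symm (CutIso.symm h1) hA)
    (by rw [card_map]; exact hA1) (by rw [card_map, hc]; exact hA2)
  rw [← cut_iso e h2, CutIso.map_symm] at h4
  exact h4

theorem CodeIso.cc_rigid (C : Core) (b : Bool) (h : Rigid C.toB) : Rigid (CodeIso.cc C b).toB :=
  CodeIso.rigid_iso (M := C.toB) (N := (CodeIso.cc C b).toB) (CodeIso.sg (C.I × Bool) b)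
    (CodeIso.cc_aa' C b) (CodeIso.cc_s' C b) h

theorem CodeIso.vinc {C : Core} {t t' : (C.I × Bool) ⊕ Bool} :
    C.vinc t = C.vinc t' ↔ C.s.SameCycle t t' :=
  ⟨fun h => Quotient.exact h, fun h => Quotient.sound h⟩

theorem CodeIso.cc_same (C : Core) (b : Bool) (t t' : (C.I × Bool) ⊕ Bool) :
    (CodeIso.cc C b).s.SameCycle t t' ↔
      C.s.SameCycle (CodeIso.sg (C.I × Bool) b t) (CodeIso.sg (C.I × Bool) b t') := by
  constructor
  · rintro ⟨i, hi⟩
    exact ⟨i, (CutIso.zpow (CodeIso.sg (C.I × Bool) b) (CodeIso.cc_s C b) i t).symm.trans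
      (congrArg (CodeIso.sg (C.I × Bool) b) hi)⟩
  · rintro ⟨i, hi⟩
    exact ⟨i, (CodeIso.sg (C.I × Bool) b).injective
      ((CutIso.zpow (CodeIso.sg (C.I × Bool) b) (CodeIso.cc_s C b) i t).trans hi)⟩

/-- the bijection of the vertices -/
noncomputable def CodeIso.cv (C : Core) (b : Bool) : C.CV ≃ (CodeIso.cc C b).CV where
  toFun := Quotient.map' (s₁ := Perm.SameCycle.setoid C.s)
    (s₂ := Perm.SameCycle.setoid (CodeIso.cc C b).s) (CodeIso.sg (C.I × Bool) b)
    (fun t t' h => by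
      show (CodeIso.cc C b).s.SameCycle _ _
      rw [CodeIso.cc_same, CodeIso.sg_sg, CodeIso.sg_sg]
      exact h)
  invFun := Quotient.map' (s₁ := Perm.SameCycle.setoid (CodeIso.cc C b).s)
    (s₂ := Perm.SameCycle.setoid C.s) (CodeIso.sg (C.I × Bool) b)
    (fun t t' h => (CodeIso.cc_same C b t t').1 h)
  left_inv := by
    rintro ⟨t⟩
    exact congrArg C.vinc (CodeIso.sg_sg _ _ t)
  right_inv := by
    rintro ⟨t⟩
    exact congrArg (CodeIso.cc C b).vinc (CodeIso.sg_sg _ _ t)

theorem CodeIso.cv_vinc (C : Core) (b : Bool) (t : (C.I × Bool) ⊕ Bool) :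
    CodeIso.cv C b (C.vinc t) = (CodeIso.cc C b).vinc (CodeIso.sg (C.I × Bool) b t) := rfl

/-- the reversed glued network is glued along the core with the root darts exchanged -/
theorem CodeIso.fl_glue (C : Core) (b : Bool) (X : C.I → LNet Λ) (g : C.CV → Λ) :
    NIso (LNet.fl b (glue C.vinc X g))
      (glue (CodeIso.cc C b).vinc (X : (CodeIso.cc C b).I → LNet Λ)
        (fun x => g ((CodeIso.cv C b).symm x))) := by
  have hv : ∀ t, CodeIso.cv C b (C.vinc t) =
      (CodeIso.cc C b).vinc (CodeIso.sg (C.I × Bool) b t) := CodeIso.cv_vinc C b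
  refine ⟨Equiv.refl _, Equiv.sumCongr (CodeIso.cv C b) (Equiv.refl _), fun _ => rfl, ?_, ?_, ?_⟩
  · rintro ⟨i, d⟩
    show (Equiv.sumCongr (CodeIso.cv C b) (Equiv.refl (Σ i, (X i).Int)))
      (glueInc C.vinc X (Sum.inl ⟨i, d⟩)) =
        glueInc (CodeIso.cc C b).vinc (X : (CodeIso.cc C b).I → LNet Λ) (Sum.inl ⟨i, d⟩)
    by_cases c1 : (X i).inc (Sum.inl d) = (X i).pole true
    · rw [GlueLib.inc_true _ _ c1]
      refine Eq.trans ?_ (GlueLib.inc_true (I := (CodeIso.cc C b).I) (CodeIso.cc C b).vinc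
        (X : (CodeIso.cc C b).I → LNet Λ) (i := i) (d := d) c1).symm
      show Sum.inl (CodeIso.cv C b (C.vinc (Sum.inl (i, true)))) = _
      rw [hv]
      rfl
    · by_cases c2 : (X i).inc (Sum.inl d) = (X i).pole false
      · rw [GlueLib.inc_false _ _ c1 c2]
        refine Eq.trans ?_ (GlueLib.inc_false (I := (CodeIso.cc C b).I) (CodeIso.cc C b).vinc
          (X : (CodeIso.cc C b).I → LNet Λ) (i := i) (d := d) c1 c2).symm
        show Sum.inl (CodeIso.cv C b (C.vinc (Sum.inl (i, false)))) = _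
        rw [hv]
        rfl
      · rw [GlueLib.inc_int _ _ c1 c2]
        exact (GlueLib.inc_int (I := (CodeIso.cc C b).I) (CodeIso.cc C b).vinc
          (X : (CodeIso.cc C b).I → LNet Λ) (i := i) (d := d) c1 c2).symm
  · intro c
    show Sum.inl (CodeIso.cv C b (C.vinc (Sum.inr (xor b c)))) =
      Sum.inl ((CodeIso.cc C b).vinc (Sum.inr c))
    rw [hv, CodeIso.sg_inr]
    congr 3
    cases b <;> cases c <;> rfl
  · rintro (x | x) _
    · show g ((CodeIso.cv C b).symm (CodeIso.cv C b x)) = g x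
      rw [Equiv.symm_apply_apply]
    · rfl

theorem CodeIso.dec {F F' : NC Λ} {c c' : Bool} (h : NIso F.rep.1 (LNet.fl (xor c c') F'.rep.1)) :
    (if c' then F' else F'.fl) = (if c then F else F.fl) := by
  have h1 : ∀ {G G' : NC Λ}, NIso G.rep.1 (LNet.fl true G'.rep.1) → G = G'.fl := fun h2 =>
    eq_of_rep (h2.trans (NC.fl_rep _).symm)
  have h2 : ∀ {G G' : NC Λ}, NIso G.rep.1 (LNet.fl false G'.rep.1) → G = G' := fun h2 =>
    eq_of_rep (h2.trans (fl_false _))
  cases c <;> cases c'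
  · rw [h2 h]
  · rw [h1 h]
    show F' = F'.fl.fl
    rw [NC.fl_fl]
  · rw [h1 h]
    rfl
  · rw [h2 h]

/-- Proof for `b = false`: `glue_rig_iso` gives a `CMatch`, `CMatch.iso_or` a sign.  For `b = true`: `LNet.fl true (cN q)` is (up
to an isomorphism which is the identity on darts) the network glued along the core of `q` with the two root darts
exchanged (the core with the same `I` and the rotation conjugated by the exchange of `inr true` and `inr false`, which is
good and rigid); apply the same theorems to it. -/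
theorem exists_DM [Nonempty Λ] {p q : Ix Λ} (hp : Rigid p.1.rep.1) (hq : Rigid q.1.rep.1) (b : Bool)
    (h : NIso (cN p) (LNet.fl b (cN q))) :
    ∃ (o : Bool) (ψ : CT (hat p).1 ≃ CT (hat q).1), DM (hat p) (hat q) o ψ ∧
      ∀ c, ψ (Sum.inr c) = Sum.inr (xor b c) := by
  have gp : (core p.1).toB.IsGood := (core_iso p.1).symm.good p.1.rep.2
  have rp : Rigid (core p.1).toB := (core_iso p.1).symm.rigid hp
  have gq : (core q.1).toB.IsGood := (core_iso q.1).symm.good q.1.rep.2
  have rq : Rigid (core q.1).toB := (core_iso q.1).symm.rigid hq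
  obtain ⟨ψ, hm⟩ := glue_rig_iso (core p.1) (CodeIso.cc (core q.1) b) gp rp
    (CodeIso.cc_good _ b gq) (CodeIso.cc_rigid _ b rq) (cX p) (cX q) (fun i => (p.2.1 i).rep.2)
    (fun i => (q.2.1 i).rep.2) (gx p.2.2)
    (fun x => gx q.2.2 ((CodeIso.cv (core q.1) b).symm x))
    (h.trans (CodeIso.fl_glue (core q.1) b (cX q) (gx q.2.2)))
  have hsr : ∀ c, CodeIso.sg ((core q.1).I × Bool) b (ψ (Sum.inr c)) = Sum.inr (xor b c) := by
    intro c
    rw [hm.root c]
    exact CodeIso.sg_inr _ b c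
  -- vertices
  have hvt : ∀ t t', (core p.1).vinc t = (core p.1).vinc t' ↔
      (core q.1).vinc (CodeIso.sg ((core q.1).I × Bool) b (ψ t)) =
        (core q.1).vinc (CodeIso.sg ((core q.1).I × Bool) b (ψ t')) := by
    intro t t'
    rw [CodeIso.vinc, CodeIso.vinc, hm.vtx t t', CodeIso.cc_same]
  have hroot : ∀ t, (∀ c, (core p.1).vinc t ≠ (core p.1).vinc (Sum.inr c)) ↔
      ∀ c, (core q.1).vinc (CodeIso.sg ((core q.1).I × Bool) b (ψ t)) ≠
        (core q.1).vinc (Sum.inr c) := by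
    intro t
    have h1 : ∀ c, (core p.1).vinc t = (core p.1).vinc (Sum.inr c) ↔
        (core q.1).vinc (CodeIso.sg ((core q.1).I × Bool) b (ψ t)) =
          (core q.1).vinc (Sum.inr (xor b c)) := by
      intro c
      exact (hvt t (Sum.inr c)).trans (iff_of_eq (congrArg (fun z : ((core q.1).I × Bool) ⊕ Bool =>
        (core q.1).vinc (CodeIso.sg ((core q.1).I × Bool) b (ψ t)) = (core q.1).vinc z) (hsr c)))
    constructor
    · intro h2 c hc
      refine h2 (xor b c) ((h1 _).2 ?_)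
      rw [hc]
      congr 2
      cases b <;> cases c <;> rfl
    · intro h2 c hc
      exact h2 (xor b c) ((h1 c).1 hc)
  have hsig : (∀ t, ψ ((core p.1).s t) = (CodeIso.cc (core q.1) b).s (ψ t)) ∨
      ∀ t, ψ ((core p.1).s t) = (CodeIso.cc (core q.1) b).s⁻¹ (ψ t) :=
    hm.iso_or gp rp (CodeIso.cc_good _ b gq)
  have ho : ∃ o : Bool, ∀ t, CodeIso.sg ((core q.1).I × Bool) b (ψ ((core p.1).s t)) =
      if o then (core q.1).s (CodeIso.sg ((core q.1).I × Bool) b (ψ t))
      else (core q.1).s⁻¹ (CodeIso.sg ((core q.1).I × Bool) b (ψ t)) := by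
    rcases hsig with h1 | h1
    · refine ⟨true, fun t => ?_⟩
      rw [if_pos rfl, h1]
      exact CodeIso.cc_s _ b _
    · refine ⟨false, fun t => ?_⟩
      rw [if_neg (by decide), Perm.eq_inv_iff_eq, h1]
      rw [← CodeIso.cc_s]
      congr 1
      exact Equiv.apply_symm_apply (CodeIso.cc (core q.1) b).s (ψ t)
  obtain ⟨o, ho⟩ := ho
  refine ⟨o, ψ.trans (CodeIso.sg ((core q.1).I × Bool) b), ⟨fun t => ?_, ho, fun t => ?_,
    fun t => ?_⟩, hsr⟩
  · show CodeIso.sg ((core q.1).I × Bool) b (ψ ((core p.1).toB.aa t)) = _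
    rw [hm.aa]
    exact CodeIso.cc_aa _ b _
  · -- darts
    show (hat q).2.1 (CodeIso.sg ((core q.1).I × Bool) b (ψ t)) = (hat p).2.1 t
    rcases t with ⟨i, c⟩ | c
    · rcases h1 : ψ (Sum.inl (i, c)) with ⟨i', c'⟩ | c'
      · have h2 := hm.net i c i' c' h1
        have h3 := CodeIso.dec (F := p.2.1 i) (F' := q.2.1 i') h2
        exact (congrArg (fun z : ((core q.1).I × Bool) ⊕ Bool =>
          (hat q).2.1 (CodeIso.sg ((core q.1).I × Bool) b z)) h1).trans (congrArg some h3)
      · exfalso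
        rw [← hm.root c'] at h1
        exact absurd (ψ.injective h1) (by simp)
    · exact congrArg (fun z : ((core q.1).I × Bool) ⊕ Bool => (hat q).2.1 z) (hsr c)
  · -- vertices
    show (if h : ∀ c, (core q.1).vinc (CodeIso.sg ((core q.1).I × Bool) b (ψ t)) ≠
        (core q.1).vinc (Sum.inr c) then some (q.2.2 ⟨_, h⟩) else none) =
      (if h : ∀ c, (core p.1).vinc t ≠ (core p.1).vinc (Sum.inr c) then some (p.2.2 ⟨_, h⟩)
        else none)
    by_cases h1 : ∀ c, (core p.1).vinc t ≠ (core p.1).vinc (Sum.inr c)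
    · have h2 := (hroot t).1 h1
      rw [dif_pos h1, dif_pos h2]
      have h3 := hm.lab t h1
      have h4 : (CodeIso.cv (core q.1) b).symm ((CodeIso.cc (core q.1) b).vinc (ψ t)) =
          (core q.1).vinc (CodeIso.sg ((core q.1).I × Bool) b (ψ t)) := rfl
      have h5 : gx q.2.2 ((core q.1).vinc (CodeIso.sg ((core q.1).I × Bool) b (ψ t))) =
          gx p.2.2 ((core p.1).vinc t) := by
        rw [← h4]
        exact h3
      have h6 : gx p.2.2 ((core p.1).vinc t) = p.2.2 ⟨(core p.1).vinc t, h1⟩ := dif_pos h1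
      have h7 : gx q.2.2 ((core q.1).vinc (CodeIso.sg ((core q.1).I × Bool) b (ψ t))) =
          q.2.2 ⟨(core q.1).vinc (CodeIso.sg ((core q.1).I × Bool) b (ψ t)), h2⟩ := dif_pos h2
      rw [h6, h7] at h5
      exact congrArg some h5
    · have h2 : ¬ ∀ c, (core q.1).vinc (CodeIso.sg ((core q.1).I × Bool) b (ψ t)) ≠
          (core q.1).vinc (Sum.inr c) := fun h => h1 ((hroot t).2 h)
      rw [dif_neg h1, dif_neg h2]

/-- every rigid network has a code (`exists_rdec`) -/
theorem exists_cN [Nonempty Λ] {c : NC Λ} (h : c.IsX) (hs : ¬ SerN c.rep.1) :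
    ∃ p : Ix Λ, Rigid p.1.rep.1 ∧ NIso (cN p) c.rep.1 := by
  obtain ⟨c', X, g, hd⟩ := exists_rdec h hs
  refine ⟨⟨c', fun i => cls (X i) (hd.good i), fun x => g x.1⟩, hd.rig, ?_⟩
  refine NIso.trans ?_ hd.iso.symm
  refine glue_iso _ _ _ _ _ _ (Equiv.refl _) (fun _ _ => rfl) (fun _ => rfl) (fun i => ?_)
    (fun x hx => ?_)
  · exact cls_iso _ _
  · exact dif_pos hx

end PGr

end

section
/-! # Module CodeAct: the mirror image of a code and the code with the reversed root edge -/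

set_option linter.unusedSectionVars false

namespace PGr
open Equiv Finset
open scoped ENNReal Classical
universe u
variable {Λ : Type u}
open NetSumC

/-- `q` is the code of the map of `p` (of its mirror image if `o = false`), rooted at the dart `inr true` (`b = false`) or
`inr false` (`b = true`) of the root edge -/
def CAct (o b : Bool) (p q : Ix Λ) : Prop :=
  ∃ ψ : CT (hat p).1 ≃ CT (hat q).1, DM (hat p) (hat q) o ψ ∧
    ∀ c, ψ (Sum.inr c) = Sum.inr (xor b c)

/-- `hat_reroot`, `DM.hat_root`; uniqueness: `DM.symm`, `DM.trans`, `DM.eq`, `hat_inj` -/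
theorem exists_cact (o b : Bool) (p : Ix Λ) : ∃ q, CAct o b p q ∧ ∀ q', CAct o b p q' → q' = q := by
  obtain ⟨q, ψ, hψ, hr⟩ := hat_reroot p (!b) o
  obtain ⟨b'', hb''⟩ := hψ.hat_root
  have hb : b'' = b := by
    have h1 := (hb'' (!b)).symm.trans hr
    have h2 : (b'' ^^ !b) = true := Sum.inr.inj h1
    revert h2
    cases b'' <;> cases b <;> simp
  rw [hb] at hb''
  refine ⟨q, ⟨ψ, hψ, hb''⟩, ?_⟩
  rintro q' ⟨ψ', hψ', hb'⟩
  have h3 := hψ.symm.trans hψ'
  have h4 : (o == o) = true := by cases o <;> rfl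
  rw [h4] at h3
  have hx : (b ^^ (b ^^ true)) = true := by cases b <;> rfl
  have h5 : ψ.symm (Sum.inr true) = Sum.inr (b ^^ true) := by
    rw [Equiv.symm_apply_eq, hb'', hx]
  have h6 : (ψ.symm.trans ψ') (Sum.inr true) = Sum.inr true := by
    rw [Equiv.trans_apply, h5, hb', hx]
  exact (hat_inj (h3.eq h6)).symm

/-- `DM.trans` -/
theorem CAct.trans {o b o' b' : Bool} {p q r : Ix Λ} (h : CAct o b p q) (h' : CAct o' b' q r) :
    CAct (o == o') (xor b b') p r := by
  obtain ⟨ψ, hψ, hb⟩ := h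
  obtain ⟨ψ', hψ', hb'⟩ := h'
  refine ⟨ψ.trans ψ', hψ.trans hψ', fun c => ?_⟩
  rw [Equiv.trans_apply, hb, hb']
  cases b <;> cases b' <;> cases c <;> rfl

theorem CAct.refl (p : Ix Λ) : CAct true false p p :=
  ⟨Equiv.refl _, DM.refl _, fun c => by cases c <;> rfl⟩

/-- the action of the Klein four group on codes -/
noncomputable def cact (o b : Bool) (p : Ix Λ) : Ix Λ := (exists_cact o b p).choose

theorem cact_iff (o b : Bool) (p q : Ix Λ) : CAct o b p q ↔ q = cact o b p := by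
  constructor
  · exact (exists_cact o b p).choose_spec.2 q
  · rintro rfl
    exact (exists_cact o b p).choose_spec.1

theorem cact_one (p : Ix Λ) : cact true false p = p := ((cact_iff _ _ _ _).1 (CAct.refl p)).symm

theorem cact_comp (o b o' b' : Bool) (p : Ix Λ) :
    cact o b (cact o' b' p) = cact (o' == o) (xor b' b) p :=
  (cact_iff _ _ _ _).1 (((cact_iff o' b' p _).2 rfl).trans ((cact_iff o b _ _).2 rfl))

theorem cact_rigid (o b : Bool) (p : Ix Λ) : Rigid (cact o b p).1.rep.1 ↔ Rigid p.1.rep.1 := by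
  obtain ⟨ψ, hψ, -⟩ := (cact_iff o b p _).2 rfl
  exact ⟨hψ.symm.rigid, hψ.rigid⟩

/-- `exists_DM`, `DM.glue`, `fl_false` -/
theorem cact_niso [Nonempty Λ] {p q : Ix Λ} (hp : Rigid p.1.rep.1) (hq : Rigid q.1.rep.1) (b : Bool) :
    NIso (cN p) (LNet.fl b (cN q)) ↔ q = cact true b p ∨ q = cact false b p := by
  constructor
  · intro h
    obtain ⟨o, ψ, h1, h2⟩ := exists_DM hp hq b h
    have h3 : CAct o b p q := ⟨ψ, h1, h2⟩
    rw [cact_iff] at h3
    cases o
    · exact Or.inr h3
    · exact Or.inl h3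
  · rintro (h | h)
    · obtain ⟨ψ, h1, h2⟩ := (cact_iff _ _ _ _).2 h
      exact h1.glue h2
    · obtain ⟨ψ, h1, h2⟩ := (cact_iff _ _ _ _).2 h
      exact h1.glue h2

end PGr

end

section
/-! # Module SerCls: series composition of classes -/

set_option linter.unusedSectionVars false

namespace PGr
open Equiv Finset
open scoped ENNReal Classical
universe u
variable {Λ : Type u}
open NetSumC

/-- series composition of classes; `l` is the label of the middle vertex -/
noncomputable def NC.ser (c : NC Λ) (l : Λ) (c' : NC Λ) : NC Λ :=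
  cls (serGlue c.rep.1 c'.rep.1 fun _ => l) (serGlue_good c.rep.2 c'.rep.2 _)

theorem NC.ser_rep (c : NC Λ) (l : Λ) (c' : NC Λ) :
    NIso (c.ser l c').rep.1 (serGlue c.rep.1 c'.rep.1 fun _ => l) := cls_iso _ _

theorem NC.ser_inj {c₁ c₂ c₁' c₂' : NC Λ} {l l' : Λ} (h : ¬ c₁.IsSer) (h' : ¬ c₁'.IsSer)
    (he : c₁.ser l c₂ = c₁'.ser l' c₂') : c₁ = c₁' ∧ l = l' ∧ c₂ = c₂' := by
  have h1 : NIso (serGlue c₁.rep.1 c₂.rep.1 fun _ => l) (serGlue c₁'.rep.1 c₂'.rep.1 fun _ => l') := by
    have h2 := NC.ser_rep c₁ l c₂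
    rw [he] at h2
    exact h2.symm.trans (NC.ser_rep c₁' l' c₂')
  obtain ⟨a, b, c⟩ := serGlue_inj c₁.rep.2 c₂.rep.2 c₁'.rep.2 c₂'.rep.2 _ _ h h' h1
  exact ⟨eq_of_rep a, c, eq_of_rep b⟩

/-- `ser_dec` -/
theorem NC.exists_ser {c : NC Λ} (h : c.IsSer) : ∃ (c₁ : NC Λ) (l : Λ) (c₂ : NC Λ), ¬ c₁.IsSer ∧ c = c₁.ser l c₂ := by
  obtain ⟨N₁, N₂, g, h1, h2, h3, -, -, h4⟩ := ser_dec c.rep.2 h
  refine ⟨cls N₁ h1, g none, cls N₂ h2, fun h5 => h3 ((cls_iso N₁ h1).ser h5), eq_of_rep ?_⟩
  refine (h4.trans ?_).trans (NC.ser_rep _ _ _).symm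
  exact serGlue_iso (cls_iso N₁ h1).symm (cls_iso N₂ h2).symm rfl

theorem NC.ser_IsSer (c : NC Λ) (l : Λ) (c' : NC Λ) : (c.ser l c').IsSer ∧ (c.ser l c').IsX := by
  have hi := (NC.ser_rep c l c').symm
  have hX := serGlue_X c.rep.2 c'.rep.2 (fun _ => l)
  exact ⟨hi.ser (serGlue_ser c.rep.2 c'.rep.2 _),
    ⟨hi.good hX.good, hi.conn hX.conn, fun hd => hX.dir (hi.symm.direct hd)⟩⟩

/-- `c.IsSer` implies `c.IsX` -/
theorem NC.IsSer.isX {c : NC Λ} (h : c.IsSer) : c.IsX := by
  obtain ⟨c₁, l, c₂, -, rfl⟩ := NC.exists_ser h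
  exact (NC.ser_IsSer _ _ _).2

theorem NC.fl_ser (c : NC Λ) (l : Λ) (c' : NC Λ) : (c.ser l c').fl = c'.fl.ser l c.fl := by
  apply eq_of_rep
  refine (NC.fl_rep _).trans (((NC.ser_rep c l c').fl true).trans ?_)
  refine (serGlue_fl c.rep.2 c'.rep.2 (fun _ => l) (fun _ => l) rfl).trans ?_
  refine NIso.trans ?_ (NC.ser_rep _ _ _).symm
  exact serGlue_iso (NC.fl_rep c').symm (NC.fl_rep c).symm rfl

theorem NC.ser_assoc (c₁ c₂ c₃ : NC Λ) (l l' : Λ) :
    (c₁.ser l c₂).ser l' c₃ = c₁.ser l (c₂.ser l' c₃) := by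
  apply eq_of_rep
  refine (NC.ser_rep _ _ _).trans ?_
  refine (serGlue_iso (g' := fun _ => l') (NC.ser_rep c₁ l c₂) (NIso.refl _) rfl).trans ?_
  refine (serGlue_assoc c₁.rep.2 c₂.rep.2 c₃.rep.2 (fun _ => l) (fun _ => l')).trans ?_
  refine NIso.trans ?_ (NC.ser_rep _ _ _).symm
  exact serGlue_iso (NIso.refl _) (NC.ser_rep c₂ l' c₃).symm rfl

theorem NC.wt_ser (w : Λ → ℝ≥0∞) (c : NC Λ) (l : Λ) (c' : NC Λ) :
    wt w (c.ser l c').rep.1 = w l * (wt w c.rep.1 * wt w c'.rep.1) := by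
  rw [(NC.ser_rep c l c').wt_eq w, wt_serGlue]

theorem NC.card_ser (c : NC Λ) (l : Λ) (c' : NC Λ) : Fintype.card (c.ser l c').rep.1.D =
    Fintype.card c.rep.1.D + Fintype.card c'.rep.1.D := by
  rw [(NC.ser_rep c l c').card_eq, card_serGlue]

/-- decomposition at the last network, by reversal -/
theorem NC.exists_ser' {c : NC Λ} (h : c.IsSer) : ∃ (c₁ : NC Λ) (l : Λ) (c₂ : NC Λ), ¬ c₂.IsSer ∧ c = c₁.ser l c₂ := by
  obtain ⟨c₁, l, c₂, h1, h2⟩ := NC.exists_ser ((NC.fl_Ser c).2 h)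
  refine ⟨c₂.fl, l, c₁.fl, fun h3 => h1 ((NC.fl_Ser c₁).1 h3), ?_⟩
  rw [← NC.fl_ser, ← h2, NC.fl_fl]

theorem NC.ser_inj' {c₁ c₂ c₁' c₂' : NC Λ} {l l' : Λ} (h : ¬ c₂.IsSer) (h' : ¬ c₂'.IsSer)
    (he : c₁.ser l c₂ = c₁'.ser l' c₂') : c₁ = c₁' ∧ l = l' ∧ c₂ = c₂' := by
  have h1 := congrArg NC.fl he
  rw [NC.fl_ser, NC.fl_ser] at h1
  obtain ⟨a, b, c⟩ := NC.ser_inj (fun h3 => h ((NC.fl_Ser c₂).1 h3))
    (fun h3 => h' ((NC.fl_Ser c₂').1 h3)) h1
  exact ⟨NC.fl_inj c, b, NC.fl_inj a⟩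

/-- a sum over classes from a parametrization -/
private theorem SerCls_sum (w : Λ → ℝ≥0∞) {α : Type*} (P : NC Λ → Prop) (F : α → NC Λ)
    (hF : Function.Injective F) (h1 : ∀ a, P (F a)) (h2 : ∀ c, P c → ∃ a, F a = c) :
    pN w 1 P = ∑' a, wt w (F a).rep.1 := by
  unfold pN
  rw [← hF.tsum_eq]
  · refine tsum_congr fun a => ?_
    rw [if_pos (h1 a), pow_one]
  · intro c hc
    have : P c := by
      by_contra h
      exact hc (if_neg h)
    obtain ⟨a, ha⟩ := h2 c this
    exact ⟨a, ha⟩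

/-- a sum over a subtype -/
private theorem SerCls_sub (w : Λ → ℝ≥0∞) (k : ℕ) (P : NC Λ → Prop) :
    pN w k P = ∑' c : {c // P c}, wt w c.1.rep.1 ^ k := by
  unfold pN
  rw [← Subtype.val_injective.tsum_eq (f := fun c : NC Λ => if P c then wt w c.rep.1 ^ k else 0)
    (g := (Subtype.val : {c // P c} → NC Λ))]
  · refine tsum_congr fun a => ?_
    rw [if_pos a.2]
  · intro c hc
    have : P c := by
      by_contra h
      exact hc (if_neg h)
    exact ⟨⟨c, this⟩, rfl⟩

/-- the sum over the series networks: `NC.exists_ser`, `NC.ser_inj`, `NC.wt_ser` -/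
theorem Ser_eq (w : Λ → ℝ≥0∞) :
    pN w 1 NC.IsSer = pK w 1 * pN w 1 (fun c => ¬ c.IsSer) * pD w 1 := by
  rw [SerCls_sum w NC.IsSer
    (fun a : {c : NC Λ // ¬ c.IsSer} × Λ × NC Λ => a.1.1.ser a.2.1 a.2.2)]
  · rw [ENNReal.tsum_prod']
    have : ∀ a : {c : NC Λ // ¬ c.IsSer}, ∑' b : Λ × NC Λ, wt w (a.1.ser b.1 b.2).rep.1 =
        pK w 1 * pD w 1 * wt w a.1.rep.1 ^ 1 := by
      intro a
      rw [ENNReal.tsum_prod']
      have h1 : ∀ l : Λ, ∑' c : NC Λ, wt w (a.1.ser l c).rep.1 =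
          w l ^ 1 * (wt w a.1.rep.1 * pD w 1) := by
        intro l
        unfold pD pN
        rw [← ENNReal.tsum_mul_left, ← ENNReal.tsum_mul_left]
        refine tsum_congr fun c => ?_
        rw [NC.wt_ser, if_pos trivial, pow_one, pow_one]
      rw [tsum_congr h1, ENNReal.tsum_mul_right, pow_one]
      show pK w 1 * _ = _
      ring
    rw [tsum_congr this, ENNReal.tsum_mul_left, ← SerCls_sub]
    ring
  · rintro ⟨⟨c₁, h₁⟩, l, c₂⟩ ⟨⟨c₁', h₁'⟩, l', c₂'⟩ he
    obtain ⟨rfl, rfl, rfl⟩ := NC.ser_inj h₁ h₁' he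
    rfl
  · intro a
    exact (NC.ser_IsSer _ _ _).1
  · intro c hc
    obtain ⟨c₁, l, c₂, h1, rfl⟩ := NC.exists_ser hc
    exact ⟨⟨⟨c₁, h1⟩, l, c₂⟩, rfl⟩

/-- the series networks which are isomorphic to their reverse.
Let `c = ser N₁ l N₂`, `N₁` not series, `c = c.fl = ser N₂.fl l N₁.fl`.  If `N₂` is not series, then (`ser_inj`) `N₂ = N₁.fl`;
conversely `ser N₁ l N₁.fl` is invariant.  If `N₂ = ser M m N₃` with `N₃` not series (`exists_ser'`), then
`c = ser N₁ l (ser M m N₃)`, `c.fl = ser N₃.fl m (ser M.fl l N₁.fl)`, so `N₁ = N₃.fl`, `l = m` and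
`ser M m N₃ = ser M.fl l N₁.fl`, so (`ser_inj'`) `M = M.fl`; conversely these are invariant.  The weights are
`w l * wt N₁ ^ 2` and `w l ^ 2 * wt N₁ ^ 2 * wt M`. -/
theorem SerS_eq (w : Λ → ℝ≥0∞) : pN w 1 (fun c => c.IsSer ∧ c.fl = c) =
    pN w 2 (fun c => ¬ c.IsSer) * (pK w 1 + pK w 2 * pS w 1) := by
  rw [SerCls_sum w (fun c => c.IsSer ∧ c.fl = c)
    (fun a : {c : NC Λ // ¬ c.IsSer} × (Λ ⊕ Λ × {c : NC Λ // c.fl = c}) =>
      a.1.1.ser (Sum.elim id Prod.fst a.2)
        (Sum.elim (fun _ => a.1.1.fl) (fun x => x.2.1.ser x.1 a.1.1.fl) a.2))]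
  · rw [ENNReal.tsum_prod', SerCls_sub, ← ENNReal.tsum_mul_right]
    refine tsum_congr fun a => ?_
    rw [ENNReal.summable.tsum_sum ENNReal.summable, mul_add]
    congr 1
    · unfold pK
      rw [← ENNReal.tsum_mul_left]
      refine tsum_congr fun l => ?_
      show wt w (a.1.ser l a.1.fl).rep.1 = _
      rw [NC.wt_ser, NC.wt_fl]
      ring
    · rw [ENNReal.tsum_prod']
      unfold pK pS
      rw [← ENNReal.tsum_mul_right, ← ENNReal.tsum_mul_left]
      refine tsum_congr fun l => ?_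
      rw [SerCls_sub, ← mul_assoc, ← ENNReal.tsum_mul_left]
      refine tsum_congr fun c => ?_
      show wt w (a.1.ser l (c.1.ser l a.1.fl)).rep.1 = _
      rw [NC.wt_ser, NC.wt_ser, NC.wt_fl]
      ring
  · rintro ⟨⟨c, h⟩, x⟩ ⟨⟨c', h'⟩, x'⟩ he
    obtain ⟨h1, h2, h3⟩ := NC.ser_inj h h' he
    subst h1
    have hf : ¬ c.fl.IsSer := fun h3 => h ((NC.fl_Ser c).1 h3)
    rcases x with l | ⟨l, M⟩ <;> rcases x' with l' | ⟨l', M'⟩
    · cases (h2 : l = l')
      rfl
    · exfalso
      have h4 : c.fl = M'.1.ser l' c.fl := h3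
      rw [h4] at hf
      exact hf (NC.ser_IsSer _ _ _).1
    · exfalso
      have h4 : M.1.ser l c.fl = c.fl := h3
      rw [← h4] at hf
      exact hf (NC.ser_IsSer _ _ _).1
    · have h4 : M.1.ser l c.fl = M'.1.ser l' c.fl := h3
      obtain ⟨h5, h6, -⟩ := NC.ser_inj' hf hf h4
      have h7 : M = M' := Subtype.ext h5
      subst h6 h7
      rfl
  · rintro ⟨⟨c, h⟩, l | ⟨l, M⟩⟩
    · refine ⟨(NC.ser_IsSer _ _ _).1, ?_⟩
      show (c.ser l c.fl).fl = c.ser l c.fl
      rw [NC.fl_ser, NC.fl_fl]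
    · refine ⟨(NC.ser_IsSer _ _ _).1, ?_⟩
      show (c.ser l (M.1.ser l c.fl)).fl = c.ser l (M.1.ser l c.fl)
      rw [NC.fl_ser, NC.fl_ser, NC.fl_fl, M.2, NC.ser_assoc]
  · rintro c ⟨hc, hs⟩
    obtain ⟨c₁, l, c₂, h1, rfl⟩ := NC.exists_ser hc
    by_cases h2 : c₂.IsSer
    · obtain ⟨M, m, c₃, h3, rfl⟩ := NC.exists_ser' h2
      rw [NC.fl_ser, NC.fl_ser, NC.ser_assoc] at hs
      have h3' : ¬ c₃.fl.IsSer := fun h4 => h3 ((NC.fl_Ser c₃).1 h4)
      obtain ⟨h5, h6, h7⟩ := NC.ser_inj h3' h1 hs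
      have h1' : ¬ c₁.fl.IsSer := fun h4 => h1 ((NC.fl_Ser c₁).1 h4)
      obtain ⟨h8, h9, h10⟩ := NC.ser_inj' h1' h3 h7
      refine ⟨⟨⟨c₁, h1⟩, Sum.inr ⟨l, ⟨M, h8⟩⟩⟩, ?_⟩
      show c₁.ser l (M.ser l c₁.fl) = _
      rw [h10, h6]
    · have h2' : ¬ c₂.fl.IsSer := fun h4 => h2 ((NC.fl_Ser c₂).1 h4)
      rw [NC.fl_ser] at hs
      obtain ⟨h5, -, h7⟩ := NC.ser_inj h2' h1 hs
      refine ⟨⟨⟨c₁, h1⟩, Sum.inl l⟩, ?_⟩
      show c₁.ser l c₁.fl = _
      rw [h7]

end PGr

end

section
/-!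
# Graphs with a root vertex, and their decompositions at the root vertex (definitions)
-/

set_option linter.unusedSectionVars false

namespace PGr
open Equiv Finset
open scoped ENNReal Classical
universe u
variable {Λ : Type u}
open NetSumC

/-- a graph given by its darts, with labelled vertices and a root vertex (its label is irrelevant) -/
structure VNet (Λ : Type u) where
  D : Type
  V : Type
  [fD : Fintype D]
  [dD : DecidableEq D]
  [fV : Fintype V]
  [dV : DecidableEq V]
  a : Perm D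
  inc : D → V
  lab : V → Λ
  v0 : V

attribute [instance] VNet.fD VNet.dD VNet.fV VNet.dV

/-- simple, planar, nonseparable -/
structure VNet.IsGood (B : VNet Λ) : Prop where
  inv : ∀ d, B.a (B.a d) = d
  fpf : ∀ d, B.a d ≠ d
  ne : Nonempty B.D
  surj : Function.Surjective B.inc
  loop : ∀ d, B.inc (B.a d) ≠ B.inc d
  simp : ∀ d d', B.inc d = B.inc d' → B.inc (B.a d) = B.inc (B.a d') → d = d'
  two : ∀ A : Finset B.D, Cl B.a A → A.Nonempty → A ≠ univ →
    ∃ x y, x ≠ y ∧ Sh B.inc A x ∧ Sh B.inc A y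
  planar : ∃ s : Perm B.D, (∀ t t', s.SameCycle t t' ↔ B.inc t = B.inc t') ∧ Pl B.a s

/-- `(e, f)` is an isomorphism -/
structure VMatch (B B' : VNet Λ) (e : B.D ≃ B'.D) (f : B.V ≃ B'.V) : Prop where
  a : ∀ d, e (B.a d) = B'.a (e d)
  inc : ∀ d, f (B.inc d) = B'.inc (e d)
  v0 : f B.v0 = B'.v0
  lab : ∀ x, x ≠ B.v0 → B'.lab (f x) = B.lab x

def VIso (B B' : VNet Λ) : Prop := ∃ e f, VMatch B B' e f

theorem VMatch.refl (B : VNet Λ) : VMatch B B (Equiv.refl _) (Equiv.refl _) :=
  ⟨fun _ => rfl, fun _ => rfl, rfl, fun _ _ => rfl⟩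

theorem VMatch.symm {B B' : VNet Λ} {e : B.D ≃ B'.D} {f : B.V ≃ B'.V} (h : VMatch B B' e f) :
    VMatch B' B e.symm f.symm := by
  refine ⟨fun d => ?_, fun d => ?_, ?_, fun x hx => ?_⟩
  · rw [Equiv.symm_apply_eq, h.a, Equiv.apply_symm_apply]
  · rw [Equiv.symm_apply_eq, h.inc, Equiv.apply_symm_apply]
  · rw [Equiv.symm_apply_eq, h.v0]
  · have := h.lab (f.symm x) (fun hb => hx (by rw [← h.v0, ← hb, Equiv.apply_symm_apply]))
    rw [← this, Equiv.apply_symm_apply]

theorem VMatch.trans {B B' B'' : VNet Λ} {e : B.D ≃ B'.D} {f : B.V ≃ B'.V} {e' : B'.D ≃ B''.D}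
    {f' : B'.V ≃ B''.V} (h : VMatch B B' e f) (h' : VMatch B' B'' e' f') :
    VMatch B B'' (e.trans e') (f.trans f') := by
  refine ⟨fun d => by simp [h.a, h'.a], fun d => by simp [h.inc, h'.inc],
    by simp [h.v0, h'.v0], fun x hx => ?_⟩
  rw [← h.lab x hx, ← h'.lab (f x) (fun hb => hx (f.injective (by rw [hb, h.v0])))]
  rfl

/-- good graphs -/
abbrev GV (Λ : Type u) := {B : VNet Λ // B.IsGood}

instance vSetoid (Λ : Type u) : Setoid (GV Λ) where
  r B B' := VIso B.1 B'.1
  iseqv := ⟨fun _ => ⟨_, _, VMatch.refl _⟩, fun ⟨_, _, h⟩ => ⟨_, _, h.symm⟩,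
    fun ⟨_, _, h⟩ ⟨_, _, h'⟩ => ⟨_, _, h.trans h'⟩⟩

/-- isomorphism classes -/
abbrev VC (Λ : Type u) := Quotient (vSetoid Λ)

noncomputable abbrev VC.rep (c : VC Λ) : GV Λ := Quotient.out c

/-- product of the weights of the labels of the vertices different from the root vertex -/
noncomputable def wtV (w : Λ → ℝ≥0∞) (B : VNet Λ) : ℝ≥0∞ :=
  ∏ x : {x : B.V // x ≠ B.v0}, w (B.lab x.1)

/-- nonseparable graphs with at least two edges and a root vertex -/
noncomputable def pV (w : Λ → ℝ≥0∞) : ℝ≥0∞ :=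
  ∑' c : VC Λ, if 4 ≤ Fintype.card c.rep.1.D then wtV w c.rep.1 else 0

/-- delete the root edge; the root vertex is the pole `true`, and the pole `false` gets the label `l` -/
def LNet.toV (N : LNet Λ) (l : Λ) : VNet Λ where
  D := N.D
  V := N.V
  a := N.a
  inc := fun d => N.inc (Sum.inl d)
  lab := fun x => if x = N.pole false then l else N.lab x
  v0 := N.pole true

/-- the root edge is included in the graph -/
def LNet.clV (N : LNet Λ) : VNet Λ where
  D := N.T
  V := N.V
  a := N.aa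
  inc := N.inc
  lab := N.lab
  v0 := N.pole true

/-- replace the edges of a graph with vertex set `Vc` by networks; root vertex `v` -/
def vglue {I Vc : Type} [Fintype I] [DecidableEq I] [Fintype Vc] [DecidableEq Vc]
    (cinc : I × Bool → Vc) (v : Vc) (N : I → LNet Λ) (g : Vc → Λ) : VNet Λ where
  D := Σ i, (N i).D
  V := Vc ⊕ Σ i, (N i).Int
  a := Equiv.sigmaCongrRight fun i => (N i).a
  inc := fun d => glueInc (Sum.elim cinc fun _ => v) N (Sum.inl d)
  lab := glueLab N g
  v0 := Sum.inl v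

/-- number of darts of a network -/
noncomputable def nd (c : NC Λ) : ℕ := Fintype.card c.rep.1.D

theorem XNet.of_iso {N N' : LNet Λ} (h : NIso N N') (hN : XNet N) : XNet N' :=
  ⟨h.good hN.good, h.conn hN.conn, fun h1 => hN.dir (h.symm.direct h1)⟩

/-- the class of a network that is neither an edge nor parallel -/
noncomputable def XC.mk (N : LNet Λ) (h : XNet N) : XC Λ :=
  ⟨cls N h.good, XNet.of_iso (cls_iso N h.good).symm h⟩

/-! ### incidences -/

/-- Incidences `(l, X, N)`: a pair `{v0, x}` of vertices, `x` with label `l`; the graph consists of the networks `X`, `N` from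
`v0` to `x`, and `X` is not parallel and not an edge. -/
abbrev IN (Λ : Type u) := Λ × XC Λ × NC Λ

/-- the networks `X` (side `true`) and `N` (side `false`) in parallel -/
noncomputable def parN (i : IN Λ) : LNet Λ := par2 i.2.1.1.rep.1 i.2.2.rep.1 fun _ => i.1

/-- the graph of an incidence -/
noncomputable def vnet (i : IN Λ) : VNet Λ := (parN i).toV i.1

/-- the side of a dart of two parallel networks -/
def pside (N X : LNet Λ) (g : Bool → Λ) (l : Λ) (d : ((par2 N X g).toV l).D) : Bool :=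
  Sigma.fst (β := fun b : Bool => (bif b then N else X : LNet Λ).D) d

/-- the darts of the network `N` in the graph of the incidence `(l, X, N)` -/
noncomputable def inN (i : IN Λ) : Finset (vnet i).D := univ.filter fun d => pside _ _ _ _ d = false

/-! ### polygons -/

/-- Polygons at `v0`: `((l₁, D₁), N, (l₂, D₂))`: networks `D₁`, `D₂` from `v0` to `x₁`, `x₂` (labels `l₁`, `l₂`) and a network `N`
from `x₁` to `x₂` which is not series. -/
abbrev PO (Λ : Type u) := (Λ × NC Λ) × {c : NC Λ // ¬ c.IsSer} × (Λ × NC Λ)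

/-- exchange of `x₁` and `x₂` -/
noncomputable def PO.flip (p : PO Λ) : PO Λ :=
  (p.2.2, ⟨p.2.1.1.fl, fun h => p.2.1.2 ((NC.fl_Ser _).1 h)⟩, p.1)

theorem PO.flip_flip (p : PO Λ) : p.flip.flip = p := by
  rcases p with ⟨⟨l, c⟩, ⟨N, hN⟩, ⟨l', c'⟩⟩
  simp [PO.flip, NC.fl_fl]

instance poSetoid (Λ : Type u) : Setoid (PO Λ) where
  r p q := q = p ∨ q = p.flip
  iseqv := ⟨fun _ => Or.inl rfl, fun {p q} h => by
      rcases h with rfl | rfl
      · exact Or.inl rfl
      · exact Or.inr p.flip_flip.symm, fun {p q r} h h' => by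
      rcases h with rfl | rfl
      · exact h'
      · rcases h' with rfl | rfl
        · exact Or.inr rfl
        · exact Or.inl p.flip_flip⟩

/-- the incidence at `x₁` -/
noncomputable def PO.toIN (p : PO Λ) : IN Λ :=
  (p.1.1, ⟨p.2.2.2.ser p.2.2.1 p.2.1.1.fl, (NC.ser_IsSer _ _ _).2⟩, p.1.2)

noncomputable def PO.wt (w : Λ → ℝ≥0∞) (p : PO Λ) : ℝ≥0∞ :=
  w p.1.1 * PGr.wt w p.1.2.rep.1 * (w p.2.2.1 * PGr.wt w p.2.2.2.rep.1) * PGr.wt w p.2.1.1.rep.1

/-- number of darts of the graph of a polygon -/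
noncomputable def PO.nT (p : PO Λ) : ℕ := nd p.1.2 + nd p.2.2.2 + nd p.2.1.1

/-- the generating function of the polygons up to exchange -/
noncomputable def poly (w : Λ → ℝ≥0∞) : ℝ≥0∞ := ∑' x : Quotient (poSetoid Λ), x.out.wt w

/-- the ends of the three edges of the triangle: `v0 = none`, `x₁ = some true`, `x₂ = some false`; the edge `some true` joins `v0`
and `x₁`, `some false` joins `v0` and `x₂`, `none` joins `x₁` and `x₂` -/
def triE : Option Bool × Bool → Option Bool
  | (some c, true) => none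
  | (some c, false) => some c
  | (none, b) => some b

/-- the graph of a polygon -/
noncomputable def PO.full (p : PO Λ) : VNet Λ :=
  vglue triE none (fun e : Option Bool =>
    e.elim p.2.1.1.rep.1 fun c => bif c then p.1.2.rep.1 else p.2.2.2.rep.1)
    (fun x => x.elim p.1.1 fun c => bif c then p.1.1 else p.2.2.1)

/-- the darts of the network on the edge `e` -/
noncomputable def PO.part (p : PO Λ) (e : Option Bool) : Finset p.full.D :=
  univ.filter fun d : Σ e : Option Bool, LNet.D (e.elim p.2.1.1.rep.1 fun c =>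
    bif c then p.1.2.rep.1 else p.2.2.2.rep.1) => d.1 = e

/-! ### rigid nodes -/

/-- the code without the network on the root edge and the label of its end -/
noncomputable def FC.ix (p : FC Λ) : Ix Λ := ⟨p.1, p.2.1, fun x => p.2.2.2 ⟨x.1, x.2 true⟩⟩

/-- the label of the end of the root edge -/
noncomputable def FC.lend (p : FC Λ) : Λ :=
  p.2.2.2 ⟨(core p.1).vinc (Sum.inr false), (RgTwo_pole p.1).symm⟩

/-- the incidence at the root edge -/
noncomputable def FCR.toIN [Nonempty Λ] (p : FCR Λ) : IN Λ :=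
  (p.1.lend, XC.mk (cN p.1.ix) (cN_X p.1.ix p.2).1, p.1.2.2.1)

/-- number of darts of the graph of a full code -/
noncomputable def FCR.nT (p : FCR Λ) : ℕ := (∑ i, nd (p.1.2.1 i)) + nd p.1.2.2.1

/-- the edges of a core: `none` is the root edge -/
def edgeE (C : Core) : Option C.I × Bool → C.CV
  | (some i, b) => C.vinc (Sum.inl (i, b))
  | (none, b) => C.vinc (Sum.inr b)

/-- the edge of a dart -/
def edgeOf (C : Core) : (C.I × Bool) ⊕ Bool → Option C.I
  | Sum.inl x => some x.1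
  | Sum.inr _ => none

/-- the graph of a full code -/
noncomputable def FCR.full [Nonempty Λ] (p : FCR Λ) : VNet Λ :=
  vglue (edgeE (core p.1.1)) ((core p.1.1).vinc (Sum.inr true))
    (fun e : Option (core p.1.1).I => e.elim p.1.2.2.1.rep.1 fun i => (p.1.2.1 i).rep.1)
    (fun x => if h : x ≠ (core p.1.1).vinc (Sum.inr true) then p.1.2.2.2 ⟨x, h⟩ else
      Classical.arbitrary Λ)

/-- the darts of the network on the edge of the core dart `t` -/
noncomputable def FCR.part [Nonempty Λ] (p : FCR Λ) (t : CT p.1.1) : Finset p.full.D :=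
  univ.filter fun d : Σ e : Option (core p.1.1).I, LNet.D (e.elim p.1.2.2.1.rep.1 fun i =>
    (p.1.2.1 i).rep.1) => d.1 = edgeOf (core p.1.1) t

/-! ### separations at the root vertex, centres -/

/-- the edge set `A` has only the vertices `v0` and `x` in common with its complement -/
structure VNet.Sep (B : VNet Λ) (x : B.V) (A : Finset B.D) : Prop where
  cl : Cl B.a A
  ne : A.Nonempty
  nu : A ≠ univ
  nv : x ≠ B.v0
  sh : ∀ y, Sh B.inc A y → y = B.v0 ∨ y = x

/-- The sets in `P` are the edge sets of the networks at `v0` of a node of the decomposition. -/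
structure BNode (B : VNet Λ) (P : Finset B.D → Prop) : Prop where
  sep : ∀ A, P A → ∃ x, B.Sep x A
  dj : ∀ A A', P A → P A' → A ≠ A' → ∀ d ∈ A, ∀ d' ∈ A', B.inc d = B.inc d' → B.inc d = B.v0
  dich : ∀ x A, B.Sep x A → ∃ Q, P Q ∧ (A ⊆ Q ∨ Aᶜ ⊆ Q)

/-- The sets in `P` are the edge sets of the parallel networks between `v0` and `x`. -/
structure PartsAt (B : VNet Λ) (x : B.V) (P : Finset B.D → Prop) : Prop where
  cover : ∀ d, ∃ A, P A ∧ d ∈ A
  sep : ∀ A, P A → B.Sep x A
  conn : ∀ A, P A → ∀ C, Cl B.a C → (∃ d ∈ A, d ∈ C) → (∃ d ∈ A, d ∉ C) →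
    ∃ d ∈ A, ∃ d' ∈ A, d ∈ C ∧ d' ∉ C ∧ B.inc d = B.inc d' ∧ B.inc d ≠ B.v0 ∧ B.inc d ≠ x

/-- sinks of type c: a pair `{v0, x}` (`x` with label `p.1`) such that no part contains more than half of the darts -/
def CSink (p : Λ × NC Λ) : Prop :=
  4 ≤ nd p.2 ∧ ¬ p.2.IsX ∧ ∀ b m, IsParts p.2.rep.1 b m → ∀ x ∈ m, 2 * nd x.1 ≤ nd p.2

/-- sinks among the polygons: both networks at `v0` contain less than half of the darts -/
def PSink (p : PO Λ) : Prop := 2 * nd p.1.2 < p.nT ∧ 2 * nd p.2.2.2 < p.nT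

/-- sinks among the rigid nodes -/
def RSink (p : FCR Λ) : Prop :=
  ∀ t, (core p.1.1).s.SameCycle (Sum.inr true) t → 2 * nd (p.1.hat.2.1 t) < p.nT

end PGr

end

section
/-! # Module VBasic: elementary properties of graphs with a root vertex -/

set_option linter.unusedSectionVars false

namespace PGr
open Equiv Finset
open scoped ENNReal Classical
universe u
variable {Λ : Type u}

theorem VBasic_lab_pos (N : LNet Λ) (l : Λ) {x : N.V} (h : x = N.pole false) :
    (N.toV l).lab x = l := by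
  simp [LNet.toV, h]

theorem VBasic_lab_neg (N : LNet Λ) (l : Λ) {x : N.V} (h : x ≠ N.pole false) :
    (N.toV l).lab x = N.lab x := by
  simp [LNet.toV, h]

theorem VIso.good {B B' : VNet Λ} (h : VIso B B') (hB : B.IsGood) : B'.IsGood := by 
  obtain ⟨e, f, h⟩ := h
  constructor
  · intro d
    obtain ⟨d, rfl⟩ := e.surjective d
    rw [← h.a, ← h.a, hB.inv]
  · intro d
    obtain ⟨d, rfl⟩ := e.surjective d
    rw [← h.a]
    exact fun h5 => hB.fpf d (e.injective h5)
  · obtain ⟨d⟩ := hB.ne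
    exact ⟨e d⟩
  · intro x
    obtain ⟨t, ht⟩ := hB.surj (f.symm x)
    refine ⟨e t, ?_⟩
    rw [← h.inc, ht, Equiv.apply_symm_apply]
  · intro t
    obtain ⟨t, rfl⟩ := e.surjective t
    rw [← h.a, ← h.inc, ← h.inc]
    exact fun h5 => hB.loop t (f.injective h5)
  · intro d d' h5 h6
    obtain ⟨d, rfl⟩ := e.surjective d
    obtain ⟨d', rfl⟩ := e.surjective d'
    rw [← h.inc, ← h.inc] at h5
    rw [← h.a, ← h.a, ← h.inc, ← h.inc] at h6
    rw [hB.simp d d' (f.injective h5) (f.injective h6)]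
  · intro A hA hne hu
    have hA' : Cl B.a (A.map e.symm.toEmbedding) := Cl_iso e.symm (CutIso.symm h.a) hA
    obtain ⟨x, y, hxy, hx, hy⟩ := hB.two _ hA' hne.map (GlueLib.nuniv e hu)
    have h5 := (GlueLib.sh e f h.inc _ x).2 hx
    have h6 := (GlueLib.sh e f h.inc _ y).2 hy
    rw [CutIso.map_symm] at h5 h6
    exact ⟨f x, f y, fun h7 => hxy (f.injective h7), h5, h6⟩
  · obtain ⟨s, hs1, hs2⟩ := hB.planar
    have hc : ∀ t, e (s t) = (e.permCongr s) (e t) := by
      intro t
      simp [Equiv.permCongr_apply]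
    refine ⟨e.permCongr s, ?_, Pl_iso e h.a hc hs2⟩
    intro t t'
    obtain ⟨t, rfl⟩ := e.surjective t
    obtain ⟨t', rfl⟩ := e.surjective t'
    rw [← h.inc, ← h.inc, f.injective.eq_iff, ← hs1]
    constructor
    · rintro ⟨i, h5⟩
      refine ⟨i, e.injective ?_⟩
      rw [CutIso.zpow e hc]
      exact h5
    · rintro ⟨i, h5⟩
      refine ⟨i, ?_⟩
      rw [← CutIso.zpow e hc, h5]

theorem VIso.card {B B' : VNet Λ} (h : VIso B B') : Fintype.card B.D = Fintype.card B'.D := by 
  obtain ⟨e, f, h⟩ := h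
  exact Fintype.card_congr e

theorem VIso.wtV (w : Λ → ℝ≥0∞) {B B' : VNet Λ} (h : VIso B B') : PGr.wtV w B = PGr.wtV w B' := by 
  obtain ⟨e, f, h⟩ := h
  unfold PGr.wtV
  refine Fintype.prod_equiv (f.subtypeEquiv fun x => ?_) _ _ ?_
  · rw [← h.v0, not_iff_not, f.injective.eq_iff]
  · intro x
    show w (B.lab x.1) = w (B'.lab (f x.1))
    rw [h.lab x.1 x.2]

/-- the class of a good graph -/
def vcls (B : VNet Λ) (h : B.IsGood) : VC Λ := Quotient.mk (vSetoid Λ) ⟨B, h⟩

theorem vcls_iso (B : VNet Λ) (h : B.IsGood) : VIso (vcls B h).rep.1 B := by 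
  exact Quotient.exact (Quotient.out_eq (vcls B h))

theorem vcls_eq {B B' : VNet Λ} (h : B.IsGood) (h' : B'.IsGood) :
    vcls B h = vcls B' h' ↔ VIso B B' := by 
  constructor
  · intro h1
    exact Quotient.exact h1
  · intro h1
    exact Quotient.sound h1

theorem toV_match {N N' : LNet Λ} {e : N.D ≃ N'.D} {f : N.V ≃ N'.V}
    (h1 : ∀ d, e (N.a d) = N'.a (e d)) (h2 : ∀ d, f (N.inc (Sum.inl d)) = N'.inc (Sum.inl (e d)))
    (h3 : ∀ b, f (N.pole b) = N'.pole b) (h4 : ∀ x, (∀ b, x ≠ N.pole b) → N'.lab (f x) = N.lab x)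
    (l : Λ) : VMatch (N.toV l) (N'.toV l) e f := by 
  refine ⟨h1, h2, h3 true, fun x hx => ?_⟩
  by_cases h5 : x = N.pole false
  · exact (VBasic_lab_pos N' l ((congrArg f h5).trans (h3 false))).trans
      (VBasic_lab_pos N l h5).symm
  · have h6 : f x ≠ N'.pole false := fun h6 => h5 (f.injective (h6.trans (h3 false).symm))
    have hb : ∀ b, x ≠ N.pole b := by
      rintro (_ | _)
      exacts [h5, hx]
    exact (VBasic_lab_neg N' l h6).trans ((h4 x hb).trans (VBasic_lab_neg N l h5).symm)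

theorem toV_iso {N N' : LNet Λ} (h : NIso N N') (l : Λ) : VIso (N.toV l) (N'.toV l) := by 
  obtain ⟨e, f, h1, h2, h3, h4⟩ := h
  exact ⟨e, f, toV_match h1 h2 h3 h4 l⟩

theorem wV_toV (w : Λ → ℝ≥0∞) {N : LNet Λ} (hN : N.IsGood) (l : Λ) :
    wtV w (N.toV l) = w l * wt w N := by 
  have hne : N.pole false ≠ N.pole true := hN.loop (Sum.inr true)
  have hb : ∀ x : N.V, x ≠ N.pole true → x ≠ N.pole false → ∀ b, x ≠ N.pole b := by
    rintro x h1 h2 (_ | _) <;> assumption
  let F : Option N.Int → {x : (N.toV l).V // x ≠ (N.toV l).v0} :=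
    fun o => o.elim ⟨N.pole false, hne⟩ fun x => ⟨x.1, x.2 true⟩
  have hF : Function.Bijective F := by
    constructor
    · rintro (_ | x) (_ | y) hxy
      · rfl
      · exact absurd (congrArg Subtype.val hxy).symm (y.2 false)
      · exact absurd (congrArg Subtype.val hxy) (x.2 false)
      · have h1 : (F (some x)).1 = (F (some y)).1 := congrArg Subtype.val hxy
        exact congrArg some (Subtype.ext h1)
    · rintro ⟨x, hx⟩
      by_cases h : x = N.pole false
      · exact ⟨none, Subtype.ext h.symm⟩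
      · exact ⟨some ⟨x, hb x hx h⟩, rfl⟩
  unfold wtV wt
  rw [← Fintype.prod_bijective F hF (fun o => w ((N.toV l).lab (F o).1)) _ (fun _ => rfl),
    Fintype.prod_option]
  congr 1
  · exact congrArg w (VBasic_lab_pos N l rfl)
  · refine Fintype.prod_congr _ _ fun x => ?_
    exact congrArg w (VBasic_lab_neg N l (x.2 false))

/-- a match which respects the poles `false` is an isomorphism of networks -/
theorem toV_unique {N N' : LNet Λ} (hN : N.IsGood) (hN' : N'.IsGood) {l l' : Λ}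
    {e : (N.toV l).D ≃ (N'.toV l').D} {f : (N.toV l).V ≃ (N'.toV l').V}
    (h : VMatch (N.toV l) (N'.toV l') e f) (hx : f (N.pole false) = N'.pole false) :
    NIso N N' ∧ l = l' := by 
  have hne : N.pole false ≠ N.pole true := hN.loop (Sum.inr true)
  have hv : f (N.pole true) = N'.pole true := h.v0
  refine ⟨⟨e, f, h.a, h.inc, ?_, ?_⟩, ?_⟩
  · rintro (_ | _)
    · exact hx
    · exact hv
  · intro x hx'
    have h6 : f x ≠ N'.pole false := fun h6 => hx' false (f.injective (h6.trans hx.symm))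
    exact (VBasic_lab_neg N' l' h6).symm.trans
      ((h.lab x (hx' true)).trans (VBasic_lab_neg N l (hx' false)))
  · exact (VBasic_lab_pos N l rfl).symm.trans ((h.lab _ hne).symm.trans
      (VBasic_lab_pos N' l' hx))

/-- in a good graph, every dart and every vertex: a closed set sharing at most one vertex with its complement is
empty or everything -/
theorem VNet.Sep.sh_iff {B : VNet Λ} (hB : B.IsGood) {x : B.V} {A : Finset B.D} (h : B.Sep x A)
    (y : B.V) : Sh B.inc A y ↔ y = B.v0 ∨ y = x := by 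
  refine ⟨h.sh y, ?_⟩
  obtain ⟨x', y', hne, hx', hy'⟩ := hB.two A h.cl h.ne h.nu
  rcases h.sh _ hx' with rfl | rfl
  · rcases h.sh _ hy' with rfl | rfl
    · exact absurd rfl hne
    · rintro (rfl | rfl) <;> assumption
  · rcases h.sh _ hy' with rfl | rfl
    · rintro (rfl | rfl) <;> assumption
    · exact absurd rfl hne

theorem VNet.Sep.compl {B : VNet Λ} {x : B.V} {A : Finset B.D} (h : B.Sep x A) :
    B.Sep x Aᶜ := by 
  refine ⟨fun t => ?_, ?_, ?_, h.nv, fun y hy => h.sh y ?_⟩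
  · rw [mem_compl, mem_compl, h.cl t]
  · rw [nonempty_iff_ne_empty, Ne, compl_eq_empty_iff]
    exact h.nu
  · rw [Ne, compl_eq_univ_iff]
    exact h.ne.ne_empty
  · obtain ⟨⟨t, ht, h1⟩, t', ht', h2⟩ := hy
    rw [mem_compl] at ht ht'
    exact ⟨⟨t', not_not.1 ht', h2⟩, t, ht, h1⟩

/-- the vertex `x` is determined -/
theorem VNet.Sep.unique {B : VNet Λ} (hB : B.IsGood) {x x' : B.V} {A : Finset B.D}
    (h : B.Sep x A) (h' : B.Sep x' A) : x = x' := by 
  rcases h'.sh x ((h.sh_iff hB x).2 (Or.inr rfl)) with h1 | h1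
  · exact absurd h1 h.nv
  · exact h1

theorem VMatch.sep {B B' : VNet Λ} {e : B.D ≃ B'.D} {f : B.V ≃ B'.V} (h : VMatch B B' e f)
    {x : B.V} {A : Finset B.D} (hA : B.Sep x A) : B'.Sep (f x) (A.map e.toEmbedding) := by 
  refine ⟨Cl_iso e h.a hA.cl, hA.ne.map, fun h5 => hA.nu (CutIso.map_univ e h5), ?_, ?_⟩
  · rw [← h.v0]
    exact fun h5 => hA.nv (f.injective h5)
  · intro y hy
    obtain ⟨y, rfl⟩ := f.surjective y
    rw [GlueLib.sh e f h.inc] at hy
    rw [← h.v0]
    rcases hA.sh y hy with rfl | rfl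
    · exact Or.inl rfl
    · exact Or.inr rfl

theorem VMatch.bnode {B B' : VNet Λ} {e : B.D ≃ B'.D} {f : B.V ≃ B'.V} (h : VMatch B B' e f)
    {P : Finset B.D → Prop} (hP : BNode B P) :
    BNode B' fun A => P (A.map e.symm.toEmbedding) := by 
  have hm : ∀ (A : Finset B'.D) (d : B'.D), e.symm d ∈ A.map e.symm.toEmbedding ↔ d ∈ A := by
    intro A d
    rw [Finset.mem_map_equiv, Equiv.symm_symm, Equiv.apply_symm_apply]
  constructor
  · intro A hA
    obtain ⟨x, hx⟩ := hP.sep _ hA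
    have h1 := h.sep hx
    rw [CutIso.map_symm] at h1
    exact ⟨f x, h1⟩
  · intro A A' hA hA' hne d hd d' hd' he
    have h1 := hP.dj _ _ hA hA' (fun h2 => hne (Finset.map_injective _ h2)) (e.symm d)
      ((hm A d).2 hd) (e.symm d') ((hm A' d').2 hd') (f.injective (by
        rw [h.inc, h.inc, Equiv.apply_symm_apply, Equiv.apply_symm_apply, he]))
    have h2 := congrArg f h1
    rwa [h.inc, Equiv.apply_symm_apply, h.v0] at h2
  · intro x A hA
    obtain ⟨Q, hQ, h1⟩ := hP.dich _ _ (h.symm.sep hA)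
    have hQ' : (Q.map e.toEmbedding).map e.symm.toEmbedding = Q := by
      ext d
      rw [Finset.mem_map_equiv, Finset.mem_map_equiv, Equiv.symm_symm, Equiv.symm_apply_apply]
    refine ⟨Q.map e.toEmbedding, by rw [hQ']; exact hQ, ?_⟩
    rcases h1 with h1 | h1
    · left
      intro d hd
      rw [Finset.mem_map_equiv]
      exact h1 ((hm A d).2 hd)
    · right
      intro d hd
      rw [Finset.mem_map_equiv]
      refine h1 ?_
      rw [mem_compl] at hd ⊢
      rwa [hm A d]

theorem VMatch.partsAt {B B' : VNet Λ} {e : B.D ≃ B'.D} {f : B.V ≃ B'.V} (h : VMatch B B' e f)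
    {x : B.V} {P : Finset B.D → Prop} (hP : PartsAt B x P) :
    PartsAt B' (f x) fun A => P (A.map e.symm.toEmbedding) := by 
  have hm : ∀ (A : Finset B'.D) (d : B'.D), e.symm d ∈ A.map e.symm.toEmbedding ↔ d ∈ A := by
    intro A d
    rw [Finset.mem_map_equiv, Equiv.symm_symm, Equiv.apply_symm_apply]
  have hQ' : ∀ Q : Finset B.D, (Q.map e.toEmbedding).map e.symm.toEmbedding = Q := by
    intro Q
    ext d
    rw [Finset.mem_map_equiv, Finset.mem_map_equiv, Equiv.symm_symm, Equiv.symm_apply_apply]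
  constructor
  · intro d
    obtain ⟨A, hA, h1⟩ := hP.cover (e.symm d)
    refine ⟨A.map e.toEmbedding, by rw [hQ']; exact hA, ?_⟩
    rw [Finset.mem_map_equiv]
    exact h1
  · intro A hA
    have h1 := h.sep (hP.sep _ hA)
    rwa [CutIso.map_symm] at h1
  · rintro A hA C hC ⟨d, hd, hdC⟩ ⟨d', hd', hdC'⟩
    obtain ⟨t, ht, t', ht', h1, h2, h3, h4, h5⟩ := hP.conn _ hA (C.map e.symm.toEmbedding)
      (Cl_iso e.symm (CutIso.symm h.a) hC) ⟨e.symm d, (hm A d).2 hd, (hm C d).2 hdC⟩
      ⟨e.symm d', (hm A d').2 hd', fun h6 => hdC' ((hm C d').1 h6)⟩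
    obtain ⟨u, rfl⟩ := e.symm.surjective t
    obtain ⟨u', rfl⟩ := e.symm.surjective t'
    rw [hm] at ht ht' h1 h2
    have e1 : f (B.inc (e.symm u)) = B'.inc u := by rw [h.inc, Equiv.apply_symm_apply]
    have e2 : f (B.inc (e.symm u')) = B'.inc u' := by rw [h.inc, Equiv.apply_symm_apply]
    refine ⟨u, ht, u', ht', h1, h2, ?_, ?_, ?_⟩
    · rw [← e1, ← e2, h3]
    · rw [← e1, ← h.v0]
      exact fun h6 => h4 (f.injective h6)
    · rw [← e1]
      exact fun h6 => h5 (f.injective h6)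

end PGr

end

section
/-! # Module VPar: the graph of a parallel network, the graph of an incidence -/

set_option linter.unusedSectionVars false

namespace PGr
open Equiv Finset
open scoped ENNReal Classical
universe u
open NetSumC
variable {Λ : Type u}

theorem VPar_nonroot {N : LNet Λ} (h : N.IsGood) (x : N.V) : ∃ d, N.inc (Sum.inl d) = x := by
  obtain ⟨t, rfl⟩ := h.surj x
  rcases t with d | b
  · exact ⟨d, rfl⟩
  · exact NetSer.exists_pole h b

theorem VPar_sc {T T' : Type*} [Fintype T] [DecidableEq T] [Fintype T'] [DecidableEq T'] (e : T ≃ T') (g : Perm T) (t t' : T) :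
    (e.permCongr g).SameCycle (e t) (e t') ↔ g.SameCycle t t' := by
  have hc : ∀ t, e (g t) = (e.permCongr g) (e t) := by
    intro t
    simp [Equiv.permCongr_apply]
  constructor
  · rintro ⟨i, h5⟩
    refine ⟨i, e.injective ?_⟩
    rw [CutIso.zpow e hc]
    exact h5
  · rintro ⟨i, h5⟩
    refine ⟨i, ?_⟩
    rw [← CutIso.zpow e hc, h5]

theorem VPar_planar {N : LNet Λ} (h : N.IsGood) :
    ∃ s : Perm N.D, (∀ t t', s.SameCycle t t' ↔ N.inc (Sum.inl t) = N.inc (Sum.inl t')) ∧
      Pl N.a s := by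
  obtain ⟨s, hs, hp⟩ := h.planar
  let S : Finset N.T := univ.map ⟨Sum.inl, Sum.inl_injective⟩
  have hmem : ∀ t : N.T, t ∈ S ↔ ∃ d, Sum.inl d = t := by
    intro t
    simp [S]
  have hS : Cl N.aa S := by
    rintro (d | b)
    · rw [hmem, hmem]
      exact ⟨fun _ => ⟨d, rfl⟩, fun _ => ⟨N.a d, rfl⟩⟩
    · rw [hmem, hmem]
      constructor
      · rintro ⟨d, hd⟩
        exact absurd hd (by show Sum.inl d ≠ Sum.inr (!b); simp)
      · rintro ⟨d, hd⟩
        simp at hd
  have hinv : ∀ t, N.aa (N.aa t) = t := by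
    rintro (d | b)
    · exact congrArg Sum.inl (h.inv d)
    · exact congrArg Sum.inr (Bool.not_not b)
  have h1 := hp.restrict hinv S hS
  let E' : N.D ≃ {x // x ∈ S} := Equiv.ofBijective (fun d => ⟨Sum.inl d, (hmem _).2 ⟨d, rfl⟩⟩) (by
    constructor
    · intro d d' hd
      exact Sum.inl_injective (congrArg Subtype.val hd)
    · rintro ⟨t, ht⟩
      obtain ⟨d, rfl⟩ := (hmem t).1 ht
      exact ⟨d, rfl⟩)
  refine ⟨E'.symm.permCongr (ret s S), ?_, ?_⟩
  · intro t t'
    have h2 := VPar_sc E'.symm (ret s S) (E' t) (E' t')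
    rw [Equiv.symm_apply_apply, Equiv.symm_apply_apply] at h2
    rw [h2, sameCycle_ret]
    exact hs _ _
  · refine Pl_iso E'.symm ?_ ?_ h1
    · intro x
      obtain ⟨d, rfl⟩ := E'.surjective x
      rw [Equiv.symm_apply_apply, Equiv.symm_apply_eq]
      rfl
    · intro x
      simp [Equiv.permCongr_apply]

theorem VPar_or {I Vc : Type} [Fintype I] [DecidableEq I] [Fintype Vc] [DecidableEq Vc]
    (cinc : (I × Bool) ⊕ Bool → Vc) (N : I → LNet Λ) (i : I) (d : (N i).D) :
    (∃ c, glueInc cinc N (Sum.inl ⟨i, d⟩) = Sum.inl (cinc (Sum.inl (i, c)))) ∨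
      ∃ x, glueInc cinc N (Sum.inl ⟨i, d⟩) = Sum.inr ⟨i, x⟩ := by
  unfold glueInc
  by_cases h1 : (N i).inc (Sum.inl d) = (N i).pole true
  · left
    exact ⟨true, by simp [h1]⟩
  · by_cases h2 : (N i).inc (Sum.inl d) = (N i).pole false
    · left
      refine ⟨false, ?_⟩
      dsimp only
      rw [dif_neg h1, dif_pos h2]
    · right
      exact ⟨⟨(N i).inc (Sum.inl d), by rintro (_ | _) <;> assumption⟩, by simp [h1, h2]⟩

/-- the vertex of a bond given by a vertex of one of its networks -/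
noncomputable def VPar_emb (N : Bool → LNet Λ) (b : Bool) (v : (N b).V) : Bool ⊕ Σ b, (N b).Int :=
  if h1 : v = (N b).pole true then Sum.inl true
  else if h2 : v = (N b).pole false then Sum.inl false
  else Sum.inr ⟨b, ⟨v, by rintro (_ | _) <;> assumption⟩⟩

theorem VPar_emb_pole {N : Bool → LNet Λ} (hN : ∀ b, (N b).IsGood) (b c : Bool) :
    VPar_emb N b ((N b).pole c) = Sum.inl c := by
  have hne : (N b).pole false ≠ (N b).pole true := (hN b).loop (Sum.inr true)
  cases c
  · unfold VPar_emb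
    rw [dif_neg hne, dif_pos rfl]
  · unfold VPar_emb
    rw [dif_pos rfl]

theorem VPar_emb_int {N : Bool → LNet Λ} (b : Bool) (v : (N b).Int) :
    VPar_emb N b v.1 = Sum.inr ⟨b, v⟩ := by
  unfold VPar_emb
  rw [dif_neg (v.2 true), dif_neg (v.2 false)]
  rfl

theorem VPar_emb_inc {N : Bool → LNet Λ} (b : Bool) (d : (N b).D) :
    VPar_emb N b ((N b).inc (Sum.inl d)) = glueInc (bondInc Bool) N (Sum.inl ⟨b, d⟩) := by
  unfold VPar_emb glueInc
  dsimp only
  by_cases h1 : (N b).inc (Sum.inl d) = (N b).pole true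
  · rw [dif_pos h1, dif_pos h1]
    rfl
  · by_cases h2 : (N b).inc (Sum.inl d) = (N b).pole false
    · rw [dif_neg h1, dif_pos h2, dif_neg h1, dif_pos h2]
      rfl
    · rw [dif_neg h1, dif_neg h2, dif_neg h1, dif_neg h2]

theorem VPar_pole_or {N : LNet Λ} (v : N.V) : (∃ b, v = N.pole b) ∨ ∀ b, v ≠ N.pole b := by
  by_cases h : ∃ b, v = N.pole b
  · exact Or.inl h
  · exact Or.inr fun b hb => h ⟨b, hb⟩

theorem VPar_emb_inj {N : Bool → LNet Λ} (hN : ∀ b, (N b).IsGood) (b : Bool) :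
    Function.Injective (VPar_emb N b) := by
  intro v v' h
  rcases VPar_pole_or v with ⟨c, rfl⟩ | hv
  · rcases VPar_pole_or v' with ⟨c', rfl⟩ | hv'
    · rw [VPar_emb_pole hN, VPar_emb_pole hN] at h
      rw [Sum.inl.inj h]
    · rw [VPar_emb_pole hN, VPar_emb_int b ⟨v', hv'⟩] at h
      exact absurd h (by simp)
  · rcases VPar_pole_or v' with ⟨c', rfl⟩ | hv'
    · rw [VPar_emb_pole hN, VPar_emb_int b ⟨v, hv⟩] at h
      exact absurd h (by simp)
    · rw [VPar_emb_int b ⟨v, hv⟩, VPar_emb_int b ⟨v', hv'⟩] at h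
      have h1 := eq_of_heq (Sigma.mk.inj (Sum.inr.inj h)).2
      exact congrArg Subtype.val h1

/-- a match of two bonds which respects the sides gives isomorphisms of the networks -/
theorem VPar_side {N N' : Bool → LNet Λ} (hN : ∀ b, (N b).IsGood) (hN' : ∀ b, (N' b).IsGood)
    (e : (Σ b, (N b).D) ≃ (Σ b, (N' b).D)) (f : (Bool ⊕ Σ b, (N b).Int) ≃ (Bool ⊕ Σ b, (N' b).Int))
    (ha : ∀ b d, e ⟨b, (N b).a d⟩ = ⟨(e ⟨b, d⟩).1, (N' _).a (e ⟨b, d⟩).2⟩)
    (hi : ∀ d, f (glueInc (bondInc Bool) N (Sum.inl d)) =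
      glueInc (bondInc Bool) N' (Sum.inl (e d)))
    (hp : ∀ c, f (Sum.inl c) = Sum.inl c) (hs : ∀ b d, (e ⟨b, d⟩).1 = b)
    (hl : ∀ b (x : (N b).Int) (x' : (N' b).Int), f (Sum.inr ⟨b, x⟩) = Sum.inr ⟨b, x'⟩ →
      (N' b).lab x'.1 = (N b).lab x.1) (b : Bool) : NIso (N b) (N' b) := by
  obtain ⟨eb, heb⟩ := GlueIso.exists_fibre e (Equiv.refl Bool) hs b
  obtain ⟨fb, hfb⟩ := GlueIso.exists_restrict (VPar_emb N b) (VPar_emb N' b) (VPar_emb_inj hN b)
    (VPar_emb_inj hN' b) f (by
      intro v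
      obtain ⟨d, rfl⟩ := VPar_nonroot (hN b) v
      refine ⟨(N' b).inc (Sum.inl (eb d)), ?_⟩
      rw [VPar_emb_inc, hi, heb]
      exact (VPar_emb_inc b (eb d)).symm) (by
      intro v'
      obtain ⟨d', rfl⟩ := VPar_nonroot (hN' b) v'
      obtain ⟨d, rfl⟩ := eb.surjective d'
      refine ⟨(N b).inc (Sum.inl d), ?_⟩
      rw [VPar_emb_inc, hi, heb]
      exact (VPar_emb_inc b (eb d)).symm)
  have hfp : ∀ c, fb ((N b).pole c) = (N' b).pole c := by
    intro c
    apply VPar_emb_inj hN' b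
    rw [← hfb, VPar_emb_pole hN, VPar_emb_pole hN', hp]
  refine ⟨eb, fb, ?_, ?_, hfp, ?_⟩
  · intro d
    have h1 := ha b d
    rw [heb, heb] at h1
    exact eq_of_heq (Sigma.mk.inj h1).2
  · intro d
    apply VPar_emb_inj hN' b
    rw [← hfb, VPar_emb_inc, hi, heb]
    exact (VPar_emb_inc b (eb d)).symm
  · intro x hx
    have hx' : ∀ c, fb x ≠ (N' b).pole c := by
      intro c hc
      rw [← hfp] at hc
      exact hx c (fb.injective hc)
    refine hl b ⟨x, hx⟩ ⟨fb x, hx'⟩ ?_
    rw [← VPar_emb_int b ⟨x, hx⟩, ← VPar_emb_int b ⟨fb x, hx'⟩]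
    exact hfb x

/-- Delete the root edge.  `two`: a closed nonempty proper set `A` of nonroot darts sharing at most one vertex with the other
nonroot darts makes `N` series, and a good series network is an `XNet` (the argument of `NC.IsSer.isX`, module SerCls).
`planar`: restriction of a planar rotation to a closed set of darts (`PlRestrict`).  `surj`: every vertex is on a nonroot
edge (`two` for the root edge, or `exists_pole`). -/
theorem toV_good {N : LNet Λ} (h : N.IsGood) (hX : ¬ XNet N) (l : Λ) : (N.toV l).IsGood := by 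
  refine ⟨h.inv, h.fpf, h.ne, VPar_nonroot h, fun d => h.loop (Sum.inl d), h.simp, ?_,
    VPar_planar h⟩
  intro A hA hne hu
  by_contra hc
  refine hX (XNet.of_iso (cls_iso N h) (NC.IsSer.isX (c := cls N h)
    ((cls_iso N h).symm.ser ⟨A, hA, hne, hu, ?_⟩)))
  intro x y hx hy
  by_contra hxy
  exact hc ⟨x, y, hxy, hx, hy⟩

theorem parN_good (i : IN Λ) : (parN i).IsGood ∧ ¬ XNet (parN i) := by 
  refine ⟨par2_good i.2.1.2.good i.2.2.rep.2 (fun hd => i.2.1.2.dir hd.1) _,
    par2_not_X i.2.1.2.good i.2.2.rep.2 _⟩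

theorem vnet_good (i : IN Λ) : (vnet i).IsGood := by 
  exact toV_good (parN_good i).1 (parN_good i).2 _

theorem vnet_card (i : IN Λ) : Fintype.card (vnet i).D = nd i.2.1.1 + nd i.2.2 := by 
  exact card_par2 i.2.1.1.rep.1 i.2.2.rep.1 fun _ => i.1

/-- a network that is not an edge has at least four darts, every network at least two -/
theorem in_nd (i : IN Λ) : 4 ≤ nd i.2.1.1 ∧ 2 ≤ nd i.2.2 := by 
  constructor
  · have hX := i.2.1.2
    obtain ⟨d, hd⟩ := NetSer.exists_pole hX.good true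
    obtain ⟨d', hd'⟩ := NetSer.exists_pole hX.good false
    have hne : i.2.1.1.rep.1.pole false ≠ i.2.1.1.rep.1.pole true := hX.good.loop (Sum.inr true)
    have h1 : d ≠ d' := by
      rintro rfl
      exact hne (hd'.symm.trans hd)
    have h2 : d' ≠ i.2.1.1.rep.1.a d := by
      rintro rfl
      exact hX.dir ⟨d, hd, hd'⟩
    have h3 : d ≠ i.2.1.1.rep.1.a d' := by
      intro h4
      refine h2 ?_
      rw [h4, hX.good.inv]
    have h5 : ({d, i.2.1.1.rep.1.a d, d', i.2.1.1.rep.1.a d'} : Finset _).card = 4 := by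
      rw [card_insert_of_notMem, card_insert_of_notMem, card_insert_of_notMem, card_singleton]
      · simpa using (hX.good.fpf d').symm
      · simp only [mem_insert, mem_singleton, not_or]
        exact ⟨h2.symm, fun h4 => h1 (i.2.1.1.rep.1.a.injective h4)⟩
      · simp only [mem_insert, mem_singleton, not_or]
        exact ⟨(hX.good.fpf d).symm, h1, h3⟩
    rw [← h5]
    exact card_le_univ _
  · have hN := i.2.2.rep.2
    obtain ⟨d⟩ := hN.ne
    have h5 : ({d, i.2.2.rep.1.a d} : Finset _).card = 2 := by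
      rw [card_insert_of_notMem, card_singleton]
      simpa using (hN.fpf d).symm
    rw [← h5]
    exact card_le_univ _

theorem VPar_mem (i : IN Λ) (d : (vnet i).D) :
    d ∈ inN i ↔ pside i.2.1.1.rep.1 i.2.2.rep.1 (fun _ => i.1) i.1 d = false := by
  unfold inN
  simp

theorem inN_card (i : IN Λ) : (inN i).card = nd i.2.2 := by 
  refine (Finset.card_bij (s := (univ : Finset (i.2.2.rep.1.D)))
    (fun d _ => (⟨false, d⟩ : Σ b : Bool, LNet.D (bif b then i.2.1.1.rep.1 else i.2.2.rep.1)))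
    ?_ ?_ ?_).symm
  · intro d _
    exact (VPar_mem i ⟨false, d⟩).2 rfl
  · intro d _ d' _ h
    exact eq_of_heq (Sigma.mk.inj h).2
  · rintro ⟨b, d⟩ h
    obtain rfl : b = false := (VPar_mem i _).1 h
    exact ⟨d, mem_univ _, rfl⟩

theorem wV_vnet (w : Λ → ℝ≥0∞) (i : IN Λ) :
    wtV w (vnet i) = w i.1 * (wt w i.2.1.1.rep.1 * wt w i.2.2.rep.1) := by 
  rw [vnet, wV_toV w (parN_good i).1]
  exact congrArg (w i.1 * ·) (wt_par2 w _ _ _)

theorem inN_sep (i : IN Λ) : (vnet i).Sep ((parN i).pole false) (inN i) := by 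
  refine ⟨fun d => ?_, ?_, ?_, ?_, ?_⟩
  · rw [VPar_mem, VPar_mem]
    exact Iff.rfl
  · obtain ⟨d⟩ := i.2.2.rep.2.ne
    exact ⟨(⟨false, d⟩ : Σ b : Bool, LNet.D (bif b then i.2.1.1.rep.1 else i.2.2.rep.1)),
      (VPar_mem i _).2 rfl⟩
  · intro h
    obtain ⟨d⟩ := i.2.1.2.good.ne
    have h1 : (⟨true, d⟩ : Σ b : Bool, LNet.D (bif b then i.2.1.1.rep.1 else i.2.2.rep.1)) ∈
        inN i := by rw [h]; exact mem_univ _
    have h2 := (VPar_mem i _).1 h1
    exact Bool.noConfusion h2
  · intro h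
    exact Bool.noConfusion (Sum.inl.inj h)
  · rintro y ⟨⟨⟨b, d⟩, ht, h1⟩, ⟨b', d'⟩, ht', h2⟩
    obtain rfl : b = false := (VPar_mem i _).1 ht
    obtain rfl : b' = true := by
      by_contra hb
      refine ht' ((VPar_mem i _).2 ?_)
      cases b'
      · rfl
      · exact absurd rfl hb
    obtain ⟨c, hc⟩ | ⟨x, hx⟩ := VPar_or (bondInc Bool)
      (fun b => bif b then i.2.1.1.rep.1 else i.2.2.rep.1) false d
    · have hy : y = Sum.inl c := h1.symm.trans hc
      rw [hy]
      cases c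
      · exact Or.inr rfl
      · exact Or.inl rfl
    · obtain ⟨c, hc⟩ | ⟨x', hx'⟩ := VPar_or (bondInc Bool)
        (fun b => bif b then i.2.1.1.rep.1 else i.2.2.rep.1) true d'
      · exact absurd ((hc.symm.trans (h2.trans h1.symm)).trans hx) (by simp)
      · have h3 := (hx'.symm.trans (h2.trans h1.symm)).trans hx
        have h4 := congrArg Sigma.fst (Sum.inr.inj h3)
        exact Bool.noConfusion h4

/-- Restrict the match to the two sides; the pole `false` is the vertex different from the root vertex which the sides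
have in common. -/
theorem inN_unique {i j : IN Λ} {e : (vnet i).D ≃ (vnet j).D} {f : (vnet i).V ≃ (vnet j).V}
    (h : VMatch (vnet i) (vnet j) e f) (he : ∀ d, d ∈ inN i ↔ e d ∈ inN j) : i = j := by 
  have hB := vnet_good i
  have hB' := vnet_good j
  have hS := inN_sep i
  have hpf : f ((parN i).pole false) = (parN j).pole false := by
    have h1 : Sh (vnet i).inc (inN i) ((parN i).pole false) := (hS.sh_iff hB _).2 (Or.inr rfl)
    have h2 := (GlueLib.sh e f h.inc (inN i) ((parN i).pole false)).2 h1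
    have h3 : (inN i).map e.toEmbedding = inN j := by
      ext d
      obtain ⟨d, rfl⟩ := e.surjective d
      rw [CutIso.mem, he]
    rw [h3] at h2
    rcases (inN_sep j).sh _ h2 with h4 | h4
    · exact absurd (f.injective (h4.trans h.v0.symm)) hS.nv
    · exact h4
  have hgood : ∀ (i : IN Λ) (b : Bool), (bif b then i.2.1.1.rep.1 else i.2.2.rep.1).IsGood := by
    rintro i (_ | _)
    · exact i.2.2.rep.2
    · exact i.2.1.2.good
  have key := VPar_side (N := fun b => bif b then i.2.1.1.rep.1 else i.2.2.rep.1)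
    (N' := fun b => bif b then j.2.1.1.rep.1 else j.2.2.rep.1) (hgood i) (hgood j) e f
    (fun b d => h.a ⟨b, d⟩) h.inc (by
      rintro (_ | _)
      · exact hpf
      · exact h.v0) (by
      rintro (_ | _) d
      · exact (VPar_mem j _).1 ((he ⟨false, d⟩).1 ((VPar_mem i _).2 rfl))
      · by_contra h2
        have h3 : (e ⟨true, d⟩).1 = false := by
          cases h4 : (e ⟨true, d⟩).1
          · rfl
          · exact absurd h4 h2
        have h5 := (he ⟨true, d⟩).2 ((VPar_mem j _).2 h3)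
        exact Bool.noConfusion ((VPar_mem i _).1 h5)) (by
      intro b x x' hx
      have h1 := h.lab (Sum.inr ⟨b, x⟩) (by intro h2; cases h2)
      have h3 : (vnet j).lab (Sum.inr ⟨b, x'⟩) = (vnet i).lab (Sum.inr ⟨b, x⟩) := by
        rw [← hx]; exact h1
      have h4 : (vnet i).lab (Sum.inr ⟨b, x⟩) = (bif b then i.2.1.1.rep.1 else i.2.2.rep.1).lab x.1 :=
        VBasic_lab_neg (parN i) i.1 (x := Sum.inr ⟨b, x⟩) (by intro h2; cases h2)
      have h5 : (vnet j).lab (Sum.inr ⟨b, x'⟩) =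
          (bif b then j.2.1.1.rep.1 else j.2.2.rep.1).lab x'.1 :=
        VBasic_lab_neg (parN j) j.1 (x := Sum.inr ⟨b, x'⟩) (by intro h2; cases h2)
      exact h5.symm.trans (h3.trans h4))
  have hl : i.1 = j.1 := by
    have h1 := h.lab ((parN i).pole false) hS.nv
    have h2 : (vnet i).lab ((parN i).pole false) = i.1 := VBasic_lab_pos (parN i) i.1 rfl
    have h3 : (vnet j).lab (f ((parN i).pole false)) = j.1 := VBasic_lab_pos (parN j) j.1 hpf
    rw [← h2, ← h1, h3]
  have hX : i.2.1.1 = j.2.1.1 := eq_of_rep (key true)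
  have hN : i.2.2 = j.2.2 := eq_of_rep (key false)
  obtain ⟨l, X, N⟩ := i
  obtain ⟨l', X', N'⟩ := j
  obtain rfl : l = l' := hl
  obtain rfl : X = X' := Subtype.ext hX
  obtain rfl : N = N' := hN
  rfl

end PGr

end

section
/-! # Module CPart: the parallel networks at a pair of vertices -/

set_option linter.unusedSectionVars false

namespace PGr
open Equiv Finset
open scoped ENNReal Classical
universe u
open NetSumC
variable {Λ : Type u}

namespace CPart

/-- the vertex of a dart of a parallel composition -/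
theorem inc_cases {I : Type} [Fintype I] [DecidableEq I] (Y : I → LNet Λ) (g : Bool → Λ) (i : I)
    (d : (Y i).D) :
    (∃ b, (glue (bondInc I) Y g).inc (Sum.inl ⟨i, d⟩) = Sum.inl b) ∨
      ∃ y : (Y i).Int, (glue (bondInc I) Y g).inc (Sum.inl ⟨i, d⟩) = Sum.inr ⟨i, y⟩ := by
  by_cases h1 : (Y i).inc (Sum.inl d) = (Y i).pole true
  · exact Or.inl ⟨_, dif_pos h1⟩
  · by_cases h2 : (Y i).inc (Sum.inl d) = (Y i).pole false
    · exact Or.inl ⟨_, (dif_neg h1).trans (dif_pos h2)⟩
    · exact Or.inr ⟨_, (dif_neg h1).trans (dif_neg h2)⟩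

theorem inc_int {I : Type} [Fintype I] [DecidableEq I] (Y : I → LNet Λ) (g : Bool → Λ) (i : I)
    (d : (Y i).D) (x : (Y i).V) (hx : ∀ b, x ≠ (Y i).pole b) (hd : (Y i).inc (Sum.inl d) = x) :
    (glue (bondInc I) Y g).inc (Sum.inl ⟨i, d⟩) = Sum.inr ⟨i, ⟨x, hx⟩⟩ := by
  subst hd
  exact (dif_neg (hx true)).trans (dif_neg (hx false))

/-- the parts of a parallel composition -/
theorem glue_partsAt {I : Type} [Fintype I] [DecidableEq I] (Y : I → LNet Λ) (g : Bool → Λ) (l : Λ)
    (hne : ∀ i, Nonempty (Y i).D) (hconn : ∀ i, Conn (Y i)) (h2 : ∀ i : I, ∃ j, j ≠ i) :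
    PartsAt ((glue (bondInc I) Y g).toV l) ((glue (bondInc I) Y g).pole false)
      (fun A => ∃ i, A = univ.filter fun d : (Σ i, (Y i).D) => d.1 = i) where
  cover := by
    intro d
    exact ⟨_, ⟨Sigma.fst (β := fun i => (Y i).D) d, rfl⟩, mem_filter.2 ⟨mem_univ _, rfl⟩⟩
  sep := by
    rintro A ⟨i, rfl⟩
    refine ⟨?_, ?_, ?_, ?_, ?_⟩
    · rintro ⟨j, d⟩
      show (⟨j, (Y j).a d⟩ : Σ i, (Y i).D) ∈ univ.filter (fun d : (Σ i, (Y i).D) => d.1 = i) ↔
        (⟨j, d⟩ : Σ i, (Y i).D) ∈ univ.filter (fun d : (Σ i, (Y i).D) => d.1 = i)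
      rw [mem_filter, mem_filter]
      simp
    · obtain ⟨d⟩ := hne i
      exact ⟨(⟨i, d⟩ : Σ i, (Y i).D), mem_filter.2 ⟨mem_univ _, rfl⟩⟩
    · intro hu
      obtain ⟨j, hj⟩ := h2 i
      obtain ⟨d⟩ := hne j
      have h1 : (⟨j, d⟩ : Σ i, (Y i).D) ∈ univ.filter (fun d : (Σ i, (Y i).D) => d.1 = i) := by
        rw [show (univ.filter fun d : (Σ i, (Y i).D) => d.1 = i) = univ from hu]
        exact mem_univ _
      exact hj (mem_filter.1 h1).2
    · intro h
      have : (Sum.inl false : Bool ⊕ Σ i, (Y i).Int) = Sum.inl true := h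
      simp at this
    · rintro y ⟨⟨⟨j, d⟩, hj, hd⟩, ⟨k, d'⟩, hk, hd'⟩
      have hji : j = i := (mem_filter.1 hj).2
      have hki : k ≠ i := fun h => hk (mem_filter.2 ⟨mem_univ _, h⟩)
      have hd1 : (glue (bondInc I) Y g).inc (Sum.inl ⟨j, d⟩) = y := hd
      have hd1' : (glue (bondInc I) Y g).inc (Sum.inl ⟨k, d'⟩) = y := hd'
      rcases inc_cases Y g j d with ⟨b, hb⟩ | ⟨z, hz⟩
      · rw [hb] at hd1
        cases b
        · exact Or.inr hd1.symm
        · exact Or.inl hd1.symm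
      · exfalso
        rcases inc_cases Y g k d' with ⟨b, hb⟩ | ⟨z', hz'⟩
        · rw [hz] at hd1
          rw [hb, ← hd1] at hd1'
          cases hd1'
        · rw [hz] at hd1
          rw [hz', ← hd1] at hd1'
          have h3 := Sum.inr.inj hd1'
          have h4 : k = j := congrArg Sigma.fst h3
          exact hki (h4.trans hji)
  conn := by
    rintro A ⟨i, rfl⟩ C hC ⟨⟨j, d⟩, hj, hd⟩ ⟨⟨k, d'⟩, hk, hd'⟩
    have hji : j = i := (mem_filter.1 hj).2
    have hki : k = i := (mem_filter.1 hk).2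
    subst hji
    subst hki
    set Ck : Finset (Y k).D := univ.filter fun d => ((⟨k, d⟩ : Σ i, (Y i).D) ∈ C) with hCk
    obtain ⟨x, hx, ⟨t, ht, htx⟩, t', ht', htx'⟩ := hconn k Ck (by
      intro t
      rw [hCk, mem_filter, mem_filter]
      have := hC (⟨k, t⟩ : Σ i, (Y i).D)
      constructor
      · rintro ⟨_, h⟩
        exact ⟨mem_univ _, this.1 h⟩
      · rintro ⟨_, h⟩
        exact ⟨mem_univ _, this.2 h⟩) ⟨d, mem_filter.2 ⟨mem_univ _, hd⟩⟩ (by
      intro hu
      apply hd'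
      have : d' ∈ Ck := by rw [hu]; exact mem_univ _
      exact (mem_filter.1 this).2)
    have e1 := inc_int Y g k t x hx htx
    have e2 := inc_int Y g k t' x hx htx'
    refine ⟨(⟨k, t⟩ : Σ i, (Y i).D), mem_filter.2 ⟨mem_univ _, rfl⟩,
      (⟨k, t'⟩ : Σ i, (Y i).D), mem_filter.2 ⟨mem_univ _, rfl⟩, (mem_filter.1 ht).2,
      fun h => ht' (mem_filter.2 ⟨mem_univ _, h⟩), ?_, ?_, ?_⟩
    · exact e1.trans e2.symm
    · intro h
      have h' : (glue (bondInc I) Y g).inc (Sum.inl ⟨k, t⟩) = Sum.inl true := h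
      rw [e1] at h'
      cases h'
    · intro h
      have h' : (glue (bondInc I) Y g).inc (Sum.inl ⟨k, t⟩) = Sum.inl false := h
      rw [e1] at h'
      cases h'

theorem card_part {I : Type} [Fintype I] [DecidableEq I] (Y : I → LNet Λ) (i : I) :
    (univ.filter fun d : (Σ i, (Y i).D) => d.1 = i).card = Fintype.card (Y i).D := by
  rw [← Fintype.card_subtype]
  refine Fintype.card_congr ⟨fun d => d.2 ▸ d.1.2, fun d => ⟨⟨i, d⟩, rfl⟩, ?_, fun _ => rfl⟩
  rintro ⟨⟨j, d⟩, rfl⟩
  rfl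

theorem edge_conn (g : Bool → Λ) : Conn (edgeNet g) := by
  intro A hA hne hu
  exfalso
  apply hu
  obtain ⟨c, hc⟩ := hne
  ext d
  simp only [mem_univ, iff_true]
  by_cases h : d = c
  · rw [h]; exact hc
  · have hd : d = (edgeNet g).a c := by
      show d = !c
      cases d <;> cases c <;> simp_all
    rw [hd]
    exact (hA c).2 hc

theorem trans_card {D D' : Type} [Fintype D] [Fintype D'] [DecidableEq D] [DecidableEq D'] (e : D ≃ D')
    (A : Finset D) : (A.map e.toEmbedding).card = A.card := card_map _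

/-- two parts -/
theorem two_idx {N : LNet Λ} (h : N.IsGood) (h4 : 4 ≤ Fintype.card N.D) (hX : ¬ XNet N)
    {b : Bool} {m : Multiset (XC Λ)} (hm : IsParts N b m) :
    (b = false → 2 ≤ Multiset.card m) ∧ (b = true → 1 ≤ Multiset.card m) := by
  have hc := hm.card
  constructor
  · rintro rfl
    have h1 : Multiset.card m ≠ 1 := fun h1 => hX ((hm.X_iff h).2 ⟨rfl, h1⟩)
    have h0 : Multiset.card m ≠ 0 := by
      intro h0
      rw [Multiset.card_eq_zero] at h0
      rw [h0] at hc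
      simp at hc
      omega
    omega
  · rintro rfl
    by_contra h0
    have h0 : Multiset.card m = 0 := by omega
    rw [Multiset.card_eq_zero] at h0
    rw [h0] at hc
    simp at hc
    omega

end CPart

/-- Let `N` be isomorphic to `bond b X g`.  `P A`: `A` is the set of darts of one `X j` or of the direct edge (there are at least
two such sets because `N` is neither an edge nor an `XNet`).  `sep`: the parts share only the poles.  `conn`: `XNet.conn` for the
parts `X j`; nothing to prove for the direct edge.  Transport with `toV_match`, `VMatch.partsAt`. -/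
theorem exists_partsAt {N : LNet Λ} (h : N.IsGood) (h4 : 4 ≤ Fintype.card N.D) (hX : ¬ XNet N)
    (l : Λ) {b : Bool} {m : Multiset (XC Λ)} (hm : IsParts N b m) :
    ∃ P : Finset (N.toV l).D → Prop, PartsAt (N.toV l) (N.pole false) P ∧
      ∀ A, P A → A.card = 2 ∨ ∃ x ∈ m, A.card = nd x.1 := by
  have h2 := CPart.two_idx h h4 hX hm
  obtain ⟨J, fJ, dJ, X, g, ⟨e, f, e1, e2, e3, e4⟩, hmX⟩ := hm
  have hcJ : Multiset.card m = Fintype.card J := by
    rw [hmX, Multiset.card_map]
    rfl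
  have hmatch : VMatch (N.toV l) ((bond b (fun j => (X j).1.rep.1) g).toV l) e f :=
    toV_match e1 e2 e3 e4 l
  have key : ∃ P : Finset ((bond b (fun j => (X j).1.rep.1) g).toV l).D → Prop,
      PartsAt ((bond b (fun j => (X j).1.rep.1) g).toV l)
        ((bond b (fun j => (X j).1.rep.1) g).pole false) P ∧
      ∀ A, P A → A.card = 2 ∨ ∃ x ∈ m, A.card = nd x.1 := by
    clear hmatch e1 e2 e3 e4 e f
    cases b
    · have hJ : 2 ≤ Fintype.card J := hcJ ▸ h2.1 rfl
      refine ⟨_, CPart.glue_partsAt (fun j => (X j).1.rep.1) g l (fun j => (X j).2.good.ne)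
        (fun j => (X j).2.conn) (fun j => ?_), ?_⟩
      · have : 1 < Fintype.card J := hJ
        exact Fintype.exists_ne_of_one_lt_card this j
      · rintro A ⟨j, rfl⟩
        right
        exact ⟨X j, by rw [hmX]; exact Multiset.mem_map_of_mem _ (mem_univ _),
          CPart.card_part (fun j => (X j).1.rep.1) j⟩
    · have hJ : 1 ≤ Fintype.card J := hcJ ▸ h2.2 rfl
      have hJn : Nonempty J := Fintype.card_pos_iff.1 hJ
      refine ⟨_, CPart.glue_partsAt
        (fun i : Option J => (i.elim (edgeNet g) (fun j => (X j).1.rep.1) : LNet Λ)) g l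
        (fun i => ?_) (fun i => ?_) (fun i => ?_), ?_⟩
      · cases i with
        | none => exact (inferInstance : Nonempty Bool)
        | some j => exact (X j).2.good.ne
      · cases i with
        | none => exact CPart.edge_conn g
        | some j => exact (X j).2.conn
      · cases i with
        | none => exact ⟨some hJn.some, by simp⟩
        | some j => exact ⟨none, by simp⟩
      · rintro A ⟨i, rfl⟩
        have hc := CPart.card_part
          (fun i : Option J => (i.elim (edgeNet g) (fun j => (X j).1.rep.1) : LNet Λ)) i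
        cases i with
        | none =>
          left
          exact hc.trans (Fintype.card_bool)
        | some j =>
          right
          exact ⟨X j, by rw [hmX]; exact Multiset.mem_map_of_mem _ (mem_univ _), hc⟩
  obtain ⟨P, hP, hPc⟩ := key
  have hP' := hmatch.symm.partsAt hP
  have hx : f.symm ((bond b (fun j => (X j).1.rep.1) g).pole false) = N.pole false := by
    rw [Equiv.symm_apply_eq]
    exact (e3 false).symm
  have hP2 := (congrArg (fun z => PartsAt (N.toV l) z
    (fun A => P (A.map e.symm.symm.toEmbedding))) hx).mp hP'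
  refine ⟨_, hP2, fun A hA => ?_⟩
  have := hPc _ hA
  rwa [Finset.card_map] at this

/-- the parts of a sink are light -/
theorem csink_parts {p : Λ × NC Λ} (h : CSink p) :
    ∃ P : Finset (p.2.rep.1.toV p.1).D → Prop,
      PartsAt (p.2.rep.1.toV p.1) (p.2.rep.1.pole false) P ∧
      ∀ A, P A → 2 * A.card ≤ Fintype.card (p.2.rep.1.toV p.1).D := by
  obtain ⟨h4, hX, hs⟩ := h
  obtain ⟨m, hm⟩ := exists_parts p.2.rep.2
  obtain ⟨P, hP, hPc⟩ := exists_partsAt p.2.rep.2 h4 hX p.1 hm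
  refine ⟨P, hP, fun A hA => ?_⟩
  have hn : Fintype.card (p.2.rep.1.toV p.1).D = nd p.2 := rfl
  rw [hn]
  rcases hPc A hA with h2 | ⟨x, hx, hc⟩
  · rw [h2]; exact h4
  · rw [hc]; exact hs _ _ hm x hx

end PGr

end

section
/-! # Module Centre: the centre is unique -/

set_option linter.unusedSectionVars false

namespace PGr
open Equiv Finset
open scoped ENNReal Classical
universe u
variable {Λ : Type u} {B : VNet Λ}

theorem Centre_compl_card (A : Finset B.D) : Aᶜ.card + A.card = Fintype.card B.D :=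
  card_compl_add_card A

/-- Two light nodes have the same networks at `v0`.  Let `P A`.  By `dich` there is `Q` with `P' Q` and `A ⊆ Q` or `Aᶜ ⊆ Q`; the
second is impossible: `|Aᶜ| > |D| / 2 > |Q|`.  In the same way `Q ⊆ A'` with `P A'`.  So `A ⊆ A'`, hence `A = A'` (otherwise by `dj` for
`d ∈ A ⊆ A'` both ends of `d` are `v0`, contradiction to `loop`), and `A = Q`. -/
theorem bnode_unique (hB : B.IsGood) {P P' : Finset B.D → Prop} (h : BNode B P) (h' : BNode B P')
    (hl : ∀ A, P A → 2 * A.card < Fintype.card B.D)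
    (hl' : ∀ A, P' A → 2 * A.card < Fintype.card B.D) {A : Finset B.D} (hA : P A) : P' A := by
  have key : ∀ {P P' : Finset B.D → Prop}, BNode B P → BNode B P' →
      (∀ A, P A → 2 * A.card < Fintype.card B.D) →
      (∀ A, P' A → 2 * A.card < Fintype.card B.D) → ∀ A, P A → ∃ Q, P' Q ∧ A ⊆ Q := by
    intro P P' h h' hl hl' A hA
    obtain ⟨x, hx⟩ := h.sep A hA
    obtain ⟨Q, hQ, h1 | h1⟩ := h'.dich x A hx
    · exact ⟨Q, hQ, h1⟩
    · exfalso
      have h2 := card_le_card h1
      have h3 := Centre_compl_card A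
      have h4 := hl A hA
      have h5 := hl' Q hQ
      omega
  obtain ⟨Q, hQ, hAQ⟩ := key h h' hl hl' A hA
  obtain ⟨A', hA', hQA⟩ := key h' h hl' hl Q hQ
  have hAA : A = A' := by
    by_contra hne
    obtain ⟨x, hx⟩ := h.sep A hA
    obtain ⟨d, hd⟩ := hx.ne
    have h1 := h.dj A A' hA hA' hne d hd d (hQA (hAQ hd)) rfl
    have hd' : B.a d ∈ A := (hx.cl d).2 hd
    have h2 := h.dj A A' hA hA' hne (B.a d) hd' (B.a d) (hQA (hAQ hd')) rfl
    exact hB.loop d (h2.trans h1.symm)
  have hAQ' : A = Q := Subset.antisymm hAQ (hAA ▸ hQA)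
  rw [hAQ']
  exact hQ

/-- A light node and a light pair of vertices do not occur together.  Every `A` with `P' A` is contained in some `Q` with
`P Q` (`dich`, sizes: `|Aᶜ| ≥ |D| / 2 > |Q|`); `x` is a vertex of `A` (`Sep.sh_iff`), so `x` is a vertex of `Q`, and by `dj` (`x ≠ v0`) `Q` is
the same for all `A`; by `cover`, `Q = univ`, contradiction to `nu`. -/
theorem bnode_parts (hB : B.IsGood) {P P' : Finset B.D → Prop} {x : B.V} (h : BNode B P)
    (h' : PartsAt B x P') (hl : ∀ A, P A → 2 * A.card < Fintype.card B.D)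
    (hl' : ∀ A, P' A → 2 * A.card ≤ Fintype.card B.D) : False := by
  have key : ∀ A, P' A → ∃ Q, P Q ∧ A ⊆ Q := by
    intro A hA
    obtain ⟨Q, hQ, h1 | h1⟩ := h.dich x A (h'.sep A hA)
    · exact ⟨Q, hQ, h1⟩
    · exfalso
      have h2 := card_le_card h1
      have h3 := Centre_compl_card A
      have h4 := hl' A hA
      have h5 := hl Q hQ
      omega
  have hx : ∀ A, P' A → ∃ d ∈ A, B.inc d = x := by
    intro A hA
    exact (((h'.sep A hA).sh_iff hB x).2 (Or.inr rfl)).1
  obtain ⟨d0⟩ := hB.ne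
  obtain ⟨A0, hA0, hd0⟩ := h'.cover d0
  obtain ⟨Q0, hQ0, hAQ0⟩ := key A0 hA0
  obtain ⟨e0, he0, hxe0⟩ := hx A0 hA0
  have hxv : x ≠ B.v0 := (h'.sep A0 hA0).nv
  obtain ⟨y, hy⟩ := h.sep Q0 hQ0
  apply hy.nu
  ext d
  simp only [mem_univ, iff_true]
  obtain ⟨A, hA, hd⟩ := h'.cover d
  obtain ⟨Q, hQ, hAQ⟩ := key A hA
  obtain ⟨e, he, hxe⟩ := hx A hA
  by_cases hQQ : Q = Q0
  · exact hQQ ▸ hAQ hd
  · exfalso
    have h1 := h.dj Q Q0 hQ hQ0 hQQ e (hAQ he) e0 (hAQ0 he0) (hxe.trans hxe0.symm)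
    exact hxv (hxe.symm.trans h1)

/-- one direction for `parts_unique` -/
theorem Centre_half (hB : B.IsGood) {P P' : Finset B.D → Prop} {x x' : B.V} (h : PartsAt B x P)
    (h' : PartsAt B x' P') (hxx : x ≠ x') {A A' : Finset B.D} (hA : P A) (hA' : P' A')
    (h1 : ∀ d, B.inc d = x' → d ∈ A) (h2 : ∀ d, B.inc d = x → d ∈ A') : Aᶜ ⊆ A' := by
  intro d hd
  rw [mem_compl] at hd
  obtain ⟨A2, hA2, hd2⟩ := h.cover d
  have hdisj : ∀ d ∈ A2, d ∉ A := by
    intro d1 hd1 hd1A
    obtain ⟨e, he, e', he', heA, he'A, hee, hev, hex⟩ :=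
      h.conn A2 hA2 A (h.sep A hA).cl ⟨d1, hd1, hd1A⟩ ⟨d, hd2, hd⟩
    rcases (h.sep A hA).sh (B.inc e) ⟨⟨e, heA, rfl⟩, e', he'A, hee.symm⟩ with h3 | h3
    · exact hev h3
    · exact hex h3
  obtain ⟨d3, hd3, hd3x⟩ := (((h.sep A2 hA2).sh_iff hB x).2 (Or.inr rfl)).1
  by_contra hdA'
  obtain ⟨e, he, e', he', heA, he'A, hee, hev, hex⟩ :=
    h.conn A2 hA2 A' (h'.sep A' hA').cl ⟨d3, hd3, h2 d3 hd3x⟩ ⟨d, hd2, hdA'⟩
  rcases (h'.sep A' hA').sh (B.inc e) ⟨⟨e, heA, rfl⟩, e', he'A, hee.symm⟩ with h3 | h3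
  · exact hev h3
  · exact hdisj e he (h1 e h3)

/-- the part which contains all darts at another vertex -/
theorem Centre_part (hB : B.IsGood) {P : Finset B.D → Prop} {x x' : B.V} (h : PartsAt B x P)
    (hxx : x' ≠ x) (hv : x' ≠ B.v0) : ∃ A, P A ∧ ∀ d, B.inc d = x' → d ∈ A := by
  obtain ⟨d0, hd0⟩ := hB.surj x'
  obtain ⟨A, hA, hdA⟩ := h.cover d0
  refine ⟨A, hA, fun d hd => ?_⟩
  by_contra hdn
  rcases (h.sep A hA).sh x' ⟨⟨d0, hdA, hd0⟩, d, hdn, hd⟩ with h3 | h3
  · exact hv h3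
  · exact hxx h3

/-- Two light pairs of vertices are equal.  Suppose `x ≠ x'`.  Let `A` be the part at `x` containing a dart at `x'`
(`surj`, `cover`); by `sep` all darts at `x'` are in `A`.  Let `A'` be the part at `x'` which contains all darts at `x`.
Claim: `Aᶜ ⊆ A'`.  Let `d ∉ A`, `d` in the part `A₂` at `x`.  `A₂` is disjoint from `A` (otherwise `conn` for `A₂` and `C = A` gives a vertex
`≠ v0, x` shared by `A` and `Aᶜ`).  `A₂` contains a dart at `x` (`Sep.sh_iff`), which is in `A'`.  If `d ∉ A'`, then `conn` for `A₂` and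
`C = A'` gives a vertex `y ≠ v0, x` of `A₂` shared by `A'` and its complement, so `y = x'`, but the darts at `x'` are in `A`.
By symmetry `A'ᶜ ⊆ A`.  By the sizes `A' = Aᶜ`; then `x` is shared by `A` (`Sep.sh_iff`), so by `A'`, so `x = x'`. -/
theorem parts_unique (hB : B.IsGood) {P P' : Finset B.D → Prop} {x x' : B.V} (h : PartsAt B x P)
    (h' : PartsAt B x' P') (hl : ∀ A, P A → 2 * A.card ≤ Fintype.card B.D)
    (hl' : ∀ A, P' A → 2 * A.card ≤ Fintype.card B.D) : x = x' := by
  by_contra hxx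
  obtain ⟨d0⟩ := hB.ne
  have hxv : x ≠ B.v0 := by
    obtain ⟨A0, hA0, -⟩ := h.cover d0
    exact (h.sep A0 hA0).nv
  have hxv' : x' ≠ B.v0 := by
    obtain ⟨A0, hA0, -⟩ := h'.cover d0
    exact (h'.sep A0 hA0).nv
  obtain ⟨A, hA, h1⟩ := Centre_part hB h (Ne.symm hxx) hxv'
  obtain ⟨A', hA', h2⟩ := Centre_part hB h' hxx hxv
  have hsub := Centre_half hB h h' hxx hA hA' h1 h2
  have hcard := Centre_compl_card A
  have hlA := hl A hA
  have hlA' := hl' A' hA'
  have heq : Aᶜ = A' := eq_of_subset_of_card_le hsub (by omega)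
  have hsh : Sh B.inc A x := ((h.sep A hA).sh_iff hB x).2 (Or.inr rfl)
  have hsh' : Sh B.inc A' x := by
    rw [← heq]
    refine ⟨?_, ?_⟩
    · obtain ⟨t, ht, htx⟩ := hsh.2
      exact ⟨t, mem_compl.2 ht, htx⟩
    · obtain ⟨t, ht, htx⟩ := hsh.1
      exact ⟨t, fun hc => (mem_compl.1 hc) ht, htx⟩
  rcases ((h'.sep A' hA').sh x hsh') with h3 | h3
  · exact hxv h3
  · exact hxx h3

end PGr

end

section
/-! # Module VGlueM: graphs glued along matching patterns -/

set_option linter.unusedSectionVars false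

namespace PGr
open Equiv Finset
open scoped ENNReal Classical
universe u
variable {Λ : Type u} {I I' Vc Vc' : Type} [Fintype I] [DecidableEq I] [Fintype I']
  [DecidableEq I'] [Fintype Vc] [DecidableEq Vc] [Fintype Vc'] [DecidableEq Vc']

/-- the edge of the pattern to which a dart belongs -/
def vside (cinc : I × Bool → Vc) (v : Vc) (N : I → LNet Λ) (g : Vc → Λ)
    (d : (vglue cinc v N g).D) : I := Sigma.fst (β := fun i => (N i).D) d

private theorem VGM_inc (cinc : (I × Bool) ⊕ Bool → Vc) (N : I → LNet Λ) {i : I}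
    (hN : (N i).IsGood) {d : (N i).D} (b : Bool) (h : (N i).inc (Sum.inl d) = (N i).pole b) :
    glueInc cinc N (Sum.inl ⟨i, d⟩) = Sum.inl (cinc (Sum.inl (i, b))) := by
  cases b
  · refine GlueLib.inc_false cinc N (fun h' => ?_) h
    exact hN.loop (Sum.inr true) (h.symm.trans h')
  · exact GlueLib.inc_true cinc N h

/-- Proof as `glue_match`: write the isomorphism down. -/
theorem vglue_match (cinc : I × Bool → Vc) (cinc' : I' × Bool → Vc') (v : Vc) (v' : Vc')
    (N : I → LNet Λ) (N' : I' → LNet Λ) (hN : ∀ i, (N i).IsGood) (hN' : ∀ i, (N' i).IsGood)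
    (g : Vc → Λ) (g' : Vc' → Λ) (ψ : (I × Bool) ≃ (I' × Bool)) (θ : Vc ≃ Vc')
    (ha : ∀ i c, ∃ i' c', ψ (i, c) = (i', c') ∧ ψ (i, !c) = (i', !c'))
    (hθ : ∀ t, θ (cinc t) = cinc' (ψ t)) (hv : θ v = v')
    (hnet : ∀ i c i' c', ψ (i, c) = (i', c') → NIso (N i) (LNet.fl (xor c c') (N' i')))
    (hlab : ∀ x, x ≠ v → g' (θ x) = g x) :
    ∃ e f, VMatch (vglue cinc v N g) (vglue cinc' v' N' g') e f ∧
      ∀ d, vside cinc' v' N' g' (e d) = (ψ (vside cinc v N g d, true)).1 := by
  -- the map of the edges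
  have h0 : ∀ i, ∃ i' τ, ∀ c, ψ (i, c) = (i', xor τ c) := by
    intro i
    obtain ⟨i', c', h1, h2⟩ := ha i true
    refine ⟨i', !c', fun c => ?_⟩
    cases c
    · rw [Bool.xor_false]
      exact h2
    · rw [Bool.xor_true, Bool.not_not]
      exact h1
  choose π₀ τ hπ using h0
  have hinj : Function.Injective π₀ := by
    intro i j hij
    have h1 := hπ i (xor (τ i) (τ j))
    have h2 := hπ j false
    rw [← Bool.xor_assoc, Bool.xor_self, Bool.false_xor, hij] at h1
    rw [Bool.xor_false] at h2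
    have h3 := ψ.injective (h1.trans h2.symm)
    exact congrArg Prod.fst h3
  have hsurj : Function.Surjective π₀ := by
    intro i'
    rcases ht : ψ.symm (i', true) with ⟨i, c⟩
    refine ⟨i, ?_⟩
    have h1 := hπ i c
    rw [← ht, Equiv.apply_symm_apply] at h1
    exact (congrArg Prod.fst h1).symm
  set π : I ≃ I' := Equiv.ofBijective π₀ ⟨hinj, hsurj⟩ with hπdef
  have hπ' : ∀ i c, ψ (i, c) = (π i, xor (τ i) c) := hπ
  have hiso : ∀ i, NIso (N i) (LNet.fl (τ i) (N' (π i))) := by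
    intro i
    have h1 := hnet i false (π i) (τ i) (by rw [hπ', Bool.xor_false])
    rwa [Bool.false_xor] at h1
  choose e f h1 h2 h3 h4 using hiso
  have h2' : ∀ i d, f i ((N i).inc (Sum.inl d)) = (N' (π i)).inc (Sum.inl (e i d)) := h2
  have h3' : ∀ i c, f i ((N i).pole c) = (N' (π i)).pole (xor (τ i) c) := h3
  have hint : ∀ i (x : (N i).V), (∀ c, x ≠ (N i).pole c) ↔ ∀ c, f i x ≠ (N' (π i)).pole c := by
    intro i x
    constructor
    · intro h c hc
      apply h (xor (τ i) c)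
      apply (f i).injective
      rw [hc, h3', ← Bool.xor_assoc, Bool.xor_self, Bool.false_xor]
    · intro h c hc
      apply h (xor (τ i) c)
      rw [hc, h3']
  refine ⟨Equiv.sigmaCongr π e, Equiv.sumCongr θ
    (Equiv.sigmaCongr π (fun i => (f i).subtypeEquiv (hint i))), ⟨?_, ?_, ?_, ?_⟩, ?_⟩
  · rintro ⟨i, d⟩
    change (⟨π i, e i ((N i).a d)⟩ : Σ i, (N' i).D) = ⟨π i, (N' (π i)).a (e i d)⟩
    rw [h1]
    rfl
  · rintro ⟨i, d⟩
    change (Equiv.sumCongr θ
      (Equiv.sigmaCongr π (fun i => (f i).subtypeEquiv (hint i))))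
      (glueInc (Sum.elim cinc fun _ => v) N (Sum.inl ⟨i, d⟩)) =
        glueInc (Sum.elim cinc' fun _ => v') N' (Sum.inl ⟨π i, e i d⟩)
    have hcase : ∀ c, (N i).inc (Sum.inl d) = (N i).pole c →
        (Equiv.sumCongr θ (Equiv.sigmaCongr π (fun i => (f i).subtypeEquiv (hint i))))
      (glueInc (Sum.elim cinc fun _ => v) N (Sum.inl ⟨i, d⟩)) =
        glueInc (Sum.elim cinc' fun _ => v') N' (Sum.inl ⟨π i, e i d⟩) := by
      intro c hc
      have h5 : (N' (π i)).inc (Sum.inl (e i d)) = (N' (π i)).pole (xor (τ i) c) := by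
        rw [← h2', hc, h3']
      rw [VGM_inc _ N (hN i) c hc, VGM_inc _ N' (hN' _) _ h5]
      change Sum.inl (θ (cinc (i, c))) = Sum.inl (cinc' (π i, xor (τ i) c))
      rw [hθ, hπ']
    by_cases c1 : (N i).inc (Sum.inl d) = (N i).pole true
    · exact hcase true c1
    · by_cases c2 : (N i).inc (Sum.inl d) = (N i).pole false
      · exact hcase false c2
      · have h6 : ∀ c, (N i).inc (Sum.inl d) ≠ (N i).pole c := by
          rintro (_ | _)
          · exact c2
          · exact c1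
        have h7 := (hint i _).1 h6
        rw [h2'] at h7
        rw [GlueLib.inc_int _ _ c1 c2, GlueLib.inc_int _ _ (h7 true) (h7 false)]
        change Sum.inr (⟨π i, _⟩ : Σ i, (N' i).Int) = Sum.inr ⟨π i, _⟩
        congr 2
        exact Subtype.ext (h2' i d)
  · change Sum.inl (θ v) = Sum.inl v'
    rw [hv]
  · rintro (x | ⟨i, x⟩) hx
    · change g' (θ x) = g x
      exact hlab x (fun hc => hx (congrArg Sum.inl hc))
    · change (N' (π i)).lab (f i x.1) = (N i).lab x.1
      refine h4 i x.1 x.2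
  · rintro ⟨i, d⟩
    change π i = (ψ (i, true)).1
    rw [hπ']

theorem vglue_card (cinc : I × Bool → Vc) (v : Vc) (N : I → LNet Λ) (g : Vc → Λ) :
    Fintype.card (vglue cinc v N g).D = ∑ i, Fintype.card (N i).D := by
  have h : Fintype.card (vglue cinc v N g).D = Fintype.card (Σ i, (N i).D) :=
    Fintype.card_congr (Equiv.refl _)
  rw [h, Fintype.card_sigma]

private theorem VGM_card (D : I → Type) [∀ i, Fintype (D i)] (i : I) :
    (univ.filter fun d : Σ i, D i => d.1 = i).card = Fintype.card (D i) := by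
  have h : (univ.filter fun d : Σ i, D i => d.1 = i) =
      (univ : Finset (D i)).map ⟨fun d => (⟨i, d⟩ : Σ i, D i), by
        intro a b hab
        simpa using hab⟩ := by
    ext ⟨j, d⟩
    simp only [mem_filter, mem_univ, true_and, mem_map, Function.Embedding.coeFn_mk]
    constructor
    · rintro rfl
      exact ⟨d, rfl⟩
    · rintro ⟨d', he⟩
      exact (congrArg Sigma.fst he).symm
  rw [h, card_map, card_univ]

theorem vside_card (cinc : I × Bool → Vc) (v : Vc) (N : I → LNet Λ) (g : Vc → Λ) (i : I) :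
    (univ.filter fun d => vside cinc v N g d = i).card = Fintype.card (N i).D := by
  exact VGM_card (fun i => (N i).D) i

/-- the end of a dart at a pole -/
theorem vglue_inc_pole (cinc : I × Bool → Vc) (v : Vc) (N : I → LNet Λ) (hN : ∀ i, (N i).IsGood)
    (g : Vc → Λ) (i : I) (d : (N i).D) (b : Bool) (h : (N i).inc (Sum.inl d) = (N i).pole b) :
    (vglue cinc v N g).inc (⟨i, d⟩ : Σ i, (N i).D) = Sum.inl (cinc (i, b)) :=
  VGM_inc (Sum.elim cinc fun _ => v) N (hN i) b h

/-- a vertex common to two different sides is a vertex of the pattern -/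
theorem vglue_common (cinc : I × Bool → Vc) (v : Vc) (N : I → LNet Λ) (g : Vc → Λ)
    {d d' : (vglue cinc v N g).D} (hd : vside cinc v N g d ≠ vside cinc v N g d')
    (h : (vglue cinc v N g).inc d = (vglue cinc v N g).inc d') :
    ∃ b b', (vglue cinc v N g).inc d = Sum.inl (cinc (vside cinc v N g d, b)) ∧
      cinc (vside cinc v N g d, b) = cinc (vside cinc v N g d', b') := by
  have key : ∀ d : (vglue cinc v N g).D,
      (∃ b, (vglue cinc v N g).inc d = Sum.inl (cinc (vside cinc v N g d, b))) ∨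
        ∃ x, (vglue cinc v N g).inc d = Sum.inr ⟨vside cinc v N g d, x⟩ := by
    rintro ⟨i, d⟩
    by_cases c1 : (N i).inc (Sum.inl d) = (N i).pole true
    · exact Or.inl ⟨true, GlueLib.inc_true (Sum.elim cinc fun _ => v) N c1⟩
    · by_cases c2 : (N i).inc (Sum.inl d) = (N i).pole false
      · exact Or.inl ⟨false, GlueLib.inc_false (Sum.elim cinc fun _ => v) N c1 c2⟩
      · exact Or.inr ⟨_, GlueLib.inc_int (Sum.elim cinc fun _ => v) N c1 c2⟩
  rcases key d with ⟨b, hb⟩ | ⟨x, hx⟩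
  · rcases key d' with ⟨b', hb'⟩ | ⟨x', hx'⟩
    · refine ⟨b, b', hb, ?_⟩
      rw [hb, hb'] at h
      exact Sum.inl_injective h
    · rw [hb, hx'] at h
      cases h
  · rcases key d' with ⟨b', hb'⟩ | ⟨x', hx'⟩
    · rw [hx, hb'] at h
      cases h
    · rw [hx, hx'] at h
      exact absurd (congrArg Sigma.fst (Sum.inr_injective h)) hd

end PGr

end

section
/-! # Module FourSum: sums over the orbits of an involution -/

set_option linter.unusedSectionVars false

namespace PGr
open scoped ENNReal Classical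

theorem FourSum_fib {P C : Type*} (Φ : P → C) (g : P → ℝ≥0∞) :
    ∑' p, g p = ∑' c, ∑' x : {x // Φ x = c}, g x.1 := by
  rw [← (Equiv.sigmaFiberEquiv Φ).tsum_eq, ENNReal.tsum_sigma']
  rfl

theorem FourSum_fiber {P C : Type*} (m : P → P) (Φ : P → C)
    (hΦ : ∀ p q, Φ p = Φ q ↔ q = p ∨ q = m p) (g : P → ℝ≥0∞) (p : P) :
    ∑' x : {x // Φ x = Φ p}, g x.1 = if m p = p then g p else g p + g (m p) := by
  have h : {x | Φ x = Φ p} = ((({p, m p} : Finset P) : Set P)) := by
    ext x
    simp only [Set.mem_setOf_eq, Finset.coe_insert, Finset.coe_singleton, Set.mem_insert_iff,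
      Set.mem_singleton_iff]
    rw [eq_comm, hΦ]
  have h1 : ∑' x : {x // Φ x = Φ p}, g x.1 = ∑' x, Set.indicator {x | Φ x = Φ p} g x :=
    tsum_subtype {x | Φ x = Φ p} g
  rw [h1, h, ← tsum_subtype, Finset.tsum_subtype']
  split_ifs with hm
  · rw [hm]; simp
  · rw [Finset.sum_pair (Ne.symm hm)]

theorem FourSum_aux {P C : Type*} (m : P → P) (Φ : P → C)
    (hΦ : ∀ p q, Φ p = Φ q ↔ q = p ∨ q = m p) (F : C → ℝ≥0∞) (g : P → ℝ≥0∞)
    (h1 : ∀ p, m p = p → g p = 2 * F (Φ p))
    (h2 : ∀ p, m p ≠ p → g p + g (m p) = 2 * F (Φ p)) :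
    2 * ∑' c, (if ∃ p, Φ p = c then F c else 0) = ∑' p, g p := by
  rw [FourSum_fib Φ g, ← ENNReal.tsum_mul_left]
  refine tsum_congr fun c => ?_
  by_cases hc : ∃ p, Φ p = c
  · obtain ⟨p, rfl⟩ := hc
    rw [if_pos ⟨p, rfl⟩, FourSum_fiber m Φ hΦ g p]
    split_ifs with hm
    · exact (h1 p hm).symm
    · exact (h2 p hm).symm
  · rw [if_neg hc, mul_zero]
    haveI : IsEmpty {x // Φ x = c} := ⟨fun x => hc ⟨x.1, x.2⟩⟩
    exact tsum_empty.symm

/-- The orbits `{p, m p}` of an involution: `2 * (sum over the orbits) = (sum over P) + (sum over the fixed points)`.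
Proof: sum over the fibres of `Φ` (`tsum_sigma` for the fibres, `Equiv.sigmaFiberEquiv`); the fibre of `Φ p` is
`{p, m p}`. -/
theorem two_sum {P C : Type*} (m : P → P) (hm : ∀ p, m (m p) = p) (Φ : P → C)
    (hΦ : ∀ p q, Φ p = Φ q ↔ q = p ∨ q = m p) (f : C → ℝ≥0∞) :
    2 * ∑' c, (if ∃ p, Φ p = c then f c else 0) =
      ∑' p, f (Φ p) + ∑' p, if m p = p then f (Φ p) else 0 := by
  rw [← ENNReal.tsum_add]
  refine FourSum_aux m Φ hΦ f _ ?_ ?_
  · intro p hp
    rw [if_pos hp, two_mul]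
  · intro p hp
    have h1 : Φ (m p) = Φ p := ((hΦ p (m p)).2 (Or.inr rfl)).symm
    have h2 : ¬ m (m p) = m p := by
      rw [hm]; exact fun h => hp h.symm
    rw [if_neg hp, if_neg h2, h1, add_zero, two_mul]

/-- The orbits `{p, m p}` which are invariant under an involution `g` commuting with `m`.
Proof: over the fibre of `Φ p`, the left side counts `2 f` if `g p = p` or `g p = m p`; the right side: if
`m p ≠ p`, exactly one of `g p = p` (for `p` and for `m p`) and `m (g p) = p` (for `p` and for `m p`) holds; if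
`m p = p`, both hold. -/
theorem two_sum_inv {P C : Type*} (m g : P → P) (hm : ∀ p, m (m p) = p) (hg : ∀ p, g (g p) = p)
    (hc : ∀ p, m (g p) = g (m p)) (Φ : P → C) (hΦ : ∀ p q, Φ p = Φ q ↔ q = p ∨ q = m p)
    (t : C → C) (ht : ∀ p, t (Φ p) = Φ (g p)) (f : C → ℝ≥0∞) :
    2 * ∑' c, (if (∃ p, Φ p = c) ∧ t c = c then f c else 0) =
      ∑' p, (if g p = p then f (Φ p) else 0) + ∑' p, if m (g p) = p then f (Φ p) else 0 := by
  have hfix : ∀ p, t (Φ p) = Φ p ↔ (g p = p ∨ m (g p) = p) := by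
    intro p
    rw [ht, eq_comm, hΦ]
    constructor
    · rintro (h | h)
      · exact Or.inl h
      · right; rw [h, hm]
    · rintro (h | h)
      · exact Or.inl h
      · right
        rw [← h, hm, h]
  have e : ∀ c, (if (∃ p, Φ p = c) ∧ t c = c then f c else 0) =
      if (∃ p, Φ p = c) then (if t c = c then f c else 0) else 0 := by
    intro c
    by_cases h1 : ∃ p, Φ p = c <;> by_cases h2 : t c = c <;> simp [h1, h2]
  rw [tsum_congr e, ← ENNReal.tsum_add]
  refine FourSum_aux m Φ hΦ (fun c => if t c = c then f c else 0) _ ?_ ?_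
  · intro p hp
    have h3 : m (g p) = g p := by rw [hc, hp]
    rw [h3]
    by_cases h : g p = p
    · have : t (Φ p) = Φ p := (hfix p).2 (Or.inl h)
      simp only [this, h, if_true, two_mul]
    · have : ¬ t (Φ p) = Φ p := by
        rw [hfix, h3]; tauto
      simp only [this, h, if_false, add_zero, mul_zero]
  · intro p hp
    have h1 : Φ (m p) = Φ p := ((hΦ p (m p)).2 (Or.inr rfl)).symm
    have h4 : g (m p) = m p ↔ g p = p := by
      rw [← hc]
      constructor
      · intro h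
        rw [← hm (g p), h, hm]
      · intro h
        rw [h]
    have h5 : m (g (m p)) = m p ↔ m (g p) = p := by
      rw [← hc, hm]
      constructor
      · intro h; rw [h, hm]
      · intro h
        rw [← hm (g p), h]
    simp only [h1, h4, h5]
    by_cases ha : g p = p <;> by_cases hb : m (g p) = p
    · exfalso
      rw [ha] at hb
      exact hp hb
    · have : t (Φ p) = Φ p := (hfix p).2 (Or.inl ha)
      simp only [this, ha, if_true, two_mul]
      rw [ha] at hb
      simp [hb]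
    · have : t (Φ p) = Φ p := (hfix p).2 (Or.inr hb)
      simp only [this, ha, hb, if_true, if_false, two_mul, zero_add]
    · have : ¬ t (Φ p) = Φ p := by
        rw [hfix]; tauto
      simp only [this, ha, hb, if_false, add_zero, mul_zero]

end PGr

end

section
/-! # Module ExpV: the rooted graph of a nonseparable graph with rooted graphs as labels -/

set_option linter.unusedSectionVars false

namespace PGr
open Equiv Finset
open scoped ENNReal Classical

/-- replace every vertex different from the root vertex by its label -/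
noncomputable def expandV (B : VNet RC) : RG where
  D := B.D ⊕ Σ v : {v : B.V // v ≠ B.v0}, (B.lab v.1).rep.1.D
  V := Option (Σ v : {v : B.V // v ≠ B.v0}, (B.lab v.1).rep.1.V)
  a := Perm.sumCongr B.a (Equiv.sigmaCongrRight fun v => (B.lab v.1).rep.1.a)
  inc := Sum.elim
    (fun t => if h : B.inc t = B.v0 then none else
      some ⟨⟨B.inc t, h⟩, (B.lab (B.inc t)).rep.1.v0⟩)
    (fun d => some ⟨d.1, (B.lab d.1.1).rep.1.inc d.2⟩)
  v0 := none

theorem expand_clV (N : LNet RC) : expand N = expandV N.clV := rfl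

/-- choose a dart `r` at the root vertex; `N` has the darts different from `r`, `B.a r`, the root edge is the edge of `r` -/
theorem exists_clV {B : VNet RC} (hB : B.IsGood) : ∃ N : LNet RC, EHyp N ∧ VIso B N.clV := by
  obtain ⟨r, hr⟩ := hB.surj B.v0
  have hra : B.a r ≠ r := hB.fpf r
  let D := {d : B.D // d ≠ r ∧ d ≠ B.a r}
  have hD : ∀ d : B.D, (B.a d ≠ r ∧ B.a d ≠ B.a r) ↔ (d ≠ r ∧ d ≠ B.a r) := by
    intro d
    have h1 : B.a d = r ↔ d = B.a r :=
      ⟨fun h => by rw [← h, hB.inv], fun h => by rw [h, hB.inv]⟩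
    rw [Ne, Ne, h1, EmbeddingLike.apply_eq_iff_eq]
    exact and_comm
  let N : LNet RC :=
    { D := D
      V := B.V
      a := B.a.subtypePerm hD
      inc := Sum.elim (fun d => B.inc d.1) (fun b => B.inc (if b then r else B.a r))
      lab := B.lab }
  let g : N.T → B.D := Sum.elim (fun d => d.1) (fun b => if b then r else B.a r)
  have hg : Function.Bijective g := by
    constructor
    · rintro (d | b) (d' | b') h
      · exact congrArg Sum.inl (Subtype.ext h)
      · exfalso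
        have h' : d.1 = if b' then r else B.a r := h
        cases b'
        · exact d.2.2 h'
        · exact d.2.1 h'
      · exfalso
        have h' : (if b then r else B.a r) = d'.1 := h
        cases b
        · exact d'.2.2 h'.symm
        · exact d'.2.1 h'.symm
      · have h' : (if b then r else B.a r) = if b' then r else B.a r := h
        cases b <;> cases b'
        · rfl
        · exact absurd h' hra
        · exact absurd h'.symm hra
        · rfl
    · intro d
      by_cases h1 : d = r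
      · exact ⟨Sum.inr true, h1.symm⟩
      · by_cases h2 : d = B.a r
        · exact ⟨Sum.inr false, h2.symm⟩
        · exact ⟨Sum.inl ⟨d, h1, h2⟩, rfl⟩
  have hga : ∀ t, g (N.aa t) = B.a (g t) := by
    rintro (d | b)
    · rfl
    · cases b
      · show r = B.a (B.a r)
        rw [hB.inv]
      · rfl
  have hgi : ∀ t, N.inc t = B.inc (g t) := by
    rintro (d | b) <;> rfl
  have hm : VMatch N.clV B (Equiv.ofBijective g hg) (Equiv.refl _) := by
    refine ⟨hga, hgi, ?_, fun _ _ => rfl⟩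
    show B.inc r = B.v0
    exact hr
  have hi : VIso B N.clV := ⟨_, _, hm.symm⟩
  have hG : N.clV.IsGood := hi.good hB
  refine ⟨N, ?_, hi⟩
  have hloop : ∀ t : N.T, N.inc (N.aa t) ≠ N.inc t := hG.loop
  have hsimp : ∀ t t' : N.T, N.inc t = N.inc t' → N.inc (N.aa t) = N.inc (N.aa t') → t = t' :=
    hG.simp
  exact
    { inv := fun d => Sum.inl_injective (hG.inv (Sum.inl d))
      fpf := fun d h => hG.fpf (Sum.inl d) (congrArg Sum.inl h)
      surj := hG.surj
      loop := hloop
      simp := fun d d' h h' => Sum.inl_injective (hsimp (Sum.inl d) (Sum.inl d') h h')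
      two := hG.two
      planar := hG.planar
      nd := by
        rintro ⟨d, h1, h2⟩
        have h3 := hsimp (Sum.inl d) (Sum.inr true) h1 h2
        cases h3 }

theorem clV_good {N : LNet RC} (h : EHyp N) : N.clV.IsGood where
  inv := by
    rintro (e | b)
    · show (Sum.inl (N.a (N.a e)) : N.T) = _
      rw [h.inv]
    · show (Sum.inr (!!b) : N.T) = _
      rw [Bool.not_not]
  fpf := by
    rintro (e | b) h1
    · exact h.fpf e (Sum.inl.inj h1)
    · have h2 : (!b) = b := Sum.inr.inj h1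
      cases b <;> cases h2
  ne := ⟨(Sum.inr true : N.T)⟩
  surj := h.surj
  loop := h.loop
  simp := by
    have hpole : N.pole false ≠ N.pole true := h.loop (Sum.inr true)
    have hdir : ∀ (e : N.D) (b : Bool), N.inc (Sum.inl e) = N.pole b →
        N.inc (Sum.inl (N.a e)) = N.pole (!b) → False := by
      intro e b h5 h6
      cases b
      · exact h.nd ⟨N.a e, h6, by rw [h.inv]; exact h5⟩
      · exact h.nd ⟨e, h5, h6⟩
    rintro (e | b) (e' | b') h3 h4
    · rw [h.simp e e' h3 h4]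
    · exact (hdir e b' h3 h4).elim
    · exact (hdir e' b h3.symm h4.symm).elim
    · have h5 : N.pole b = N.pole b' := h3
      have h6 : b = b' := by
        cases b <;> cases b' <;> first | rfl | exact absurd h5 hpole | exact absurd h5.symm hpole
      rw [h6]
  two := h.two
  planar := h.planar

theorem ExpV_some_eq (B' : VNet RC) {w w' : B'.V} (h : w ≠ B'.v0) (h' : w' ≠ B'.v0)
    (e : w = w') :
    (some ⟨⟨w, h⟩, (B'.lab w).rep.1.v0⟩ :
      Option (Σ v : {v : B'.V // v ≠ B'.v0}, (B'.lab v.1).rep.1.V)) =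
    some ⟨⟨w', h'⟩, (B'.lab w').rep.1.v0⟩ := by
  subst e; rfl

theorem ExpV_inc_root (B : VNet RC) {d : B.D} (h : B.inc d = B.v0) :
    (expandV B).inc (Sum.inl d) = none := dif_pos h

theorem ExpV_inc (B : VNet RC) {d : B.D} (h : B.inc d ≠ B.v0) :
    (expandV B).inc (Sum.inl d) = some ⟨⟨B.inc d, h⟩, (B.lab (B.inc d)).rep.1.v0⟩ := dif_neg h

theorem expandV_iso {B B' : VNet RC} (h : VIso B B') : RIso (expandV B) (expandV B') := by
  classical
  obtain ⟨e, f, h1, h2, h3, h4⟩ := h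
  have hlab : ∀ v : {v : B.V // v ≠ B.v0}, B.lab v.1 = B'.lab (f v.1) :=
    fun v => (h4 v.1 v.2).symm
  have hiso : ∀ v : {v : B.V // v ≠ B.v0},
      RIso (B.lab v.1).rep.1 (B'.lab (f v.1)).rep.1 := by
    intro v
    rw [hlab v]
    exact RIso.refl _
  choose ev fv g1 g2 g3 using hiso
  let F : {v : B.V // v ≠ B.v0} ≃ {v : B'.V // v ≠ B'.v0} :=
    f.subtypeEquiv (fun v => by rw [← h3, Ne, Ne, f.injective.eq_iff])
  let E : (expandV B).D ≃ (expandV B').D :=
    Equiv.sumCongr e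
      (Equiv.sigmaCongr (β₂ := fun v : {v : B'.V // v ≠ B'.v0} => (B'.lab v.1).rep.1.D) F ev)
  let G : (expandV B).V ≃ (expandV B').V :=
    Equiv.optionCongr (Equiv.sigmaCongr
      (β₂ := fun v : {v : B'.V // v ≠ B'.v0} => (B'.lab v.1).rep.1.V) F fv)
  refine ⟨E, G, ?_, ?_, rfl⟩
  · rintro (d | ⟨v, d⟩)
    · show (Sum.inl (e (B.a d)) : (expandV B').D) = Sum.inl (B'.a (e d))
      rw [h1]
    · show (Sum.inr ⟨F v, ev v ((B.lab v.1).rep.1.a d)⟩ : (expandV B').D) =
        Sum.inr ⟨F v, (B'.lab (f v.1)).rep.1.a (ev v d)⟩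
      rw [g1]
  · rintro (t | ⟨v, d⟩)
    · have ht : f (B.inc t) = B'.inc (e t) := h2 t
      show G ((expandV B).inc (Sum.inl t)) = (expandV B').inc (Sum.inl (e t))
      by_cases hn : B.inc t = B.v0
      · have hn' : B'.inc (e t) = B'.v0 := by rw [← ht, hn, h3]
        rw [ExpV_inc_root B hn, ExpV_inc_root B' hn']
        rfl
      · have hn' : B'.inc (e t) ≠ B'.v0 := by
          rw [← ht, ← h3]
          exact fun h => hn (f.injective h)
        rw [ExpV_inc B hn, ExpV_inc B' hn']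
        show (some ⟨F ⟨B.inc t, hn⟩, fv ⟨B.inc t, hn⟩ (B.lab (B.inc t)).rep.1.v0⟩ :
          Option (Σ v : {v : B'.V // v ≠ B'.v0}, (B'.lab v.1).rep.1.V)) = _
        rw [g3]
        exact ExpV_some_eq B' (by rw [ht]; exact hn') hn' ht
    · show (some ⟨F v, fv v ((B.lab v.1).rep.1.inc d)⟩ :
        Option (Σ v : {v : B'.V // v ≠ B'.v0}, (B'.lab v.1).rep.1.V)) =
        some ⟨F v, (B'.lab (f v.1)).rep.1.inc (ev v d)⟩
      rw [g2]

/-- `exists_clV`, `ExpGood.good`; the root is not a cut vertex: `ExpGood.ncut` -/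
theorem expandV_good {B : VNet RC} (hB : B.IsGood) :
    (expandV B).IsGood ∧ Piece (expandV B) := by
  obtain ⟨N, hN, hi⟩ := exists_clV hB
  have h1 : RIso (expandV N.clV) (expandV B) := (expandV_iso hi).symm
  have h2 : (expandV N.clV).IsGood := ExpGood.good hN
  have h3 : Piece (expandV N.clV) := ⟨⟨Sum.inl (Sum.inr true : N.T)⟩, ExpGood.ncut0 hN⟩
  exact ⟨h1.good h2, h1.piece h3⟩

theorem ExpV_size (B : VNet RC) :
    (expandV B).size = 1 + ∑ v : {v : B.V // v ≠ B.v0}, (B.lab v.1).rep.1.size := by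
  show Fintype.card (Option (Σ v : {v : B.V // v ≠ B.v0}, (B.lab v.1).rep.1.V)) = _
  rw [Fintype.card_option, Fintype.card_sigma, add_comm]
  rfl

theorem expandV_weight (x : ℝ≥0∞) (B : VNet RC) :
    x ^ ((expandV B).size - 1) = wtV (wx x) B := by
  rw [ExpV_size, Nat.add_sub_cancel_left]
  exact (Finset.prod_pow_eq_pow_sum _ _ _).symm

/-- `piece_dec` -/
theorem exists_expandV {G : RG} (hG : G.IsGood) (hP : Piece G) :
    ∃ B : VNet RC, B.IsGood ∧ RIso G (expandV B) := by
  obtain ⟨N, hi, -, ⟨hN, hd⟩ | ⟨hN, -⟩⟩ := piece_dec hG hP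
  · exact ⟨N.clV, clV_good (EHyp.of_good hN hd), hi⟩
  · exact ⟨(emptyNet (N.lab (N.pole false))).clV, clV_good (EHyp.of_empty _),
      hi.trans (expand_iso hN rfl)⟩

end PGr

end

section
/-! # Module CodeSum: sums over the codes with a given symmetry -/

set_option linter.unusedSectionVars false

namespace PGr
open Equiv Finset
open scoped ENNReal Classical
universe u
variable {Λ : Type u} (w : Λ → ℝ≥0∞)
open NetSumC

/-- the weight of a code -/
noncomputable def ixW (p : Ix Λ) : ℝ≥0∞ :=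
  (∏ i, wt w (p.2.1 i).rep.1) * ∏ x : CInt (core p.1), w (p.2.2 x)

namespace CodeSum

/-- compatibility of the decorations of a code with `σ` -/
def Comp (p : Ix Λ) (σ : Perm (CT p.1)) : Prop :=
  (∀ t, (hat p).2.1 (σ t) = (hat p).2.1 t) ∧
    ∀ t, (hat p).2.2 ((core p.1).vinc (σ t)) = (hat p).2.2 ((core p.1).vinc t)

theorem good (c : GC) : (core c).toB.IsGood := (core_iso c).symm.good c.rep.2

theorem fix_iff (o b : Bool) (p : Ix Λ) : cact o b p = p ↔
    ∃ σ : Perm (CT p.1), SymM (core p.1).toB o σ (Sum.inr (!b)) ∧ Comp p σ := by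
  have h0 : cact o b p = p ↔ CAct o b p p := by
    rw [cact_iff]
    exact eq_comm
  rw [h0]
  constructor
  · rintro ⟨ψ, h, hb⟩
    refine ⟨ψ, ⟨h.a, h.s, ?_⟩, h.f, h.g⟩
    have h1 : ψ (Sum.inr true) = Sum.inr (b ^^ true) := hb true
    rw [Bool.xor_true] at h1
    exact h1
  · rintro ⟨σ, h, h1, h2⟩
    have hd : DM (hat p) (hat p) o σ := ⟨h.a, h.s, h1, h2⟩
    refine ⟨σ, hd, ?_⟩
    obtain ⟨b', hb'⟩ := hd.hat_root
    have h3 : σ (Sum.inr true) = Sum.inr (!b) := h.root
    have h4 : (b' ^^ true) = !b := Sum.inr.inj ((hb' true).symm.trans h3)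
    have h5 : b' = b := by
      revert h4
      cases b' <;> cases b <;> simp
    rw [← h5]
    exact hb'

theorem sum_fix (o b : Bool) (p : Ix Λ) (x : ℝ≥0∞) :
    ∑ σ : Perm (CT p.1), (if SymM (core p.1).toB o σ (Sum.inr (!b)) ∧ Comp p σ then x else 0) =
      if cact o b p = p then x else 0 := by
  by_cases h : cact o b p = p
  · rw [if_pos h]
    obtain ⟨σ, h1, h2⟩ := (fix_iff o b p).1 h
    rw [Finset.sum_eq_single σ, if_pos ⟨h1, h2⟩]
    · intro τ _ hne
      rw [if_neg]
      rintro ⟨h3, -⟩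
      exact hne (SymM.unique (good p.1) h3 h1)
    · intro h3
      exact absurd (Finset.mem_univ _) h3
  · rw [if_neg h]
    refine Finset.sum_eq_zero fun σ _ => if_neg fun h1 => h ((fix_iff o b p).2 ⟨σ, h1⟩)

/-- transport of the sum over the permutations -/
theorem transport (c : GC) (o b : Bool) (k1 k2 d1 s1 d2 : ℝ≥0∞) :
    ∑ σ : Perm (CT c), (if SymM (core c).toB o σ (Sum.inr (!b)) then
        symW (core c).toB σ k1 k2 d1 s1 d2 else 0) =
      ∑ σ : Perm c.rep.1.T, if SymM c.rep.1 o σ (Sum.inr (!b)) then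
        symW c.rep.1 σ k1 k2 d1 s1 d2 else 0 := by
  obtain ⟨e, ha, hs, hr⟩ := core_iso c
  have ha' : ∀ t, e.symm (c.rep.1.aa t) = (core c).toB.aa (e.symm t) := by
    intro t
    rw [Equiv.symm_apply_eq, ha, Equiv.apply_symm_apply]
  have hs' : ∀ t, e.symm (c.rep.1.s t) = (core c).toB.s (e.symm t) := by
    intro t
    rw [Equiv.symm_apply_eq, hs, Equiv.apply_symm_apply]
  have hr' : e.symm (Sum.inr true) = Sum.inr true := by
    rw [Equiv.symm_apply_eq, hr]
  have hf := iso_root_false (M := (core c).toB) e ha hr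
  have hb : ∀ b : Bool, e (Sum.inr b) = Sum.inr b := by
    intro b
    cases b
    · exact hf
    · exact hr
  have hb' : ∀ b : Bool, e.symm (Sum.inr b) = Sum.inr b := by
    intro b
    rw [Equiv.symm_apply_eq, hb]
  refine Fintype.sum_equiv (Equiv.permCongr e) _ _ fun σ => ?_
  have h0 : Equiv.permCongr e σ = (e.symm.trans σ).trans e := rfl
  rw [h0]
  have hiff : SymM (core c).toB o σ (Sum.inr (!b)) ↔
      SymM c.rep.1 o ((e.symm.trans σ).trans e) (Sum.inr (!b)) := by
    constructor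
    · intro h
      have h1 := SymM.conj (M := (core c).toB) (N := c.rep.1) h e ha hs hr
      rwa [hb] at h1
    · intro h
      have h1 := SymM.conj (M := c.rep.1) (N := (core c).toB) h e.symm ha' hs' hr'
      rw [hb'] at h1
      have h2 : (e.symm.symm.trans ((e.symm.trans σ).trans e)).trans e.symm = σ := by
        ext t
        simp
      rwa [h2] at h1
  by_cases h : SymM (core c).toB o σ (Sum.inr (!b))
  · rw [if_pos h, if_pos (hiff.1 h)]
    exact (symW_conj (M := (core c).toB) (N := c.rep.1) σ e ha hs hr k1 k2 d1 s1 d2).symm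
  · rw [if_neg h, if_neg fun h1 => h (hiff.2 h1)]

end CodeSum

/-- Proof: `cact o b p = p` iff there is a permutation `σ` of `CT p.1` with `DM (hat p) (hat p) o σ` and
`σ (inr c) = inr (xor b c)`; it is unique (`DM.unique`).  `DM (hat p) (hat p) o σ` is `SymM (core p.1).toB o σ (inr !b)`
together with the compatibility of the decorations (for `inr false`: `DM.hat_root`).  So the left side is
`∑' c, ∑' q, ∑ σ, ...` (`tsum_sigma_eq`, exchange of a finite sum and `∑'`), and `ix_sum` gives the sum over `q`; transport to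
`c.rep.1` along `core_iso` (`SymM.conj`, `symW_conj`, `iso_root_false`). -/
theorem cod_sum (o b : Bool) :
    ∑' p : Ix Λ, (if Rigid p.1.rep.1 ∧ cact o b p = p then ixW w p else 0) =
      ∑' c : GC, ∑ σ : Perm c.rep.1.T,
        if Rigid c.rep.1 ∧ SymM c.rep.1 o σ (Sum.inr (!b)) then
          symW c.rep.1 σ (pK w 1) (pK w 2) (pD w 1) (pS w 1) (pD w 2) else 0 := by
  rw [← tsum_sigma_eq (fun c q => if Rigid (⟨c, q⟩ : Ix Λ).1.rep.1 ∧
    cact o b (⟨c, q⟩ : Ix Λ) = ⟨c, q⟩ then ixW w ⟨c, q⟩ else 0)]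
  refine tsum_congr fun c => ?_
  by_cases hc : Rigid c.rep.1
  · have h1 : ∑ σ : Perm c.rep.1.T, (if Rigid c.rep.1 ∧ SymM c.rep.1 o σ (Sum.inr (!b)) then
          symW c.rep.1 σ (pK w 1) (pK w 2) (pD w 1) (pS w 1) (pD w 2) else 0) =
        ∑ σ : Perm c.rep.1.T, if SymM c.rep.1 o σ (Sum.inr (!b)) then
          symW c.rep.1 σ (pK w 1) (pK w 2) (pD w 1) (pS w 1) (pD w 2) else 0 := by
      refine Finset.sum_congr rfl fun σ _ => ?_
      simp only [hc, true_and]
    rw [h1, ← CodeSum.transport]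
    have h2 : ∀ σ : Perm (CT c), (if SymM (core c).toB o σ (Sum.inr (!b)) then
        symW (core c).toB σ (pK w 1) (pK w 2) (pD w 1) (pS w 1) (pD w 2) else 0) =
        ∑' q : ((core c).I → NC Λ) × (CInt (core c) → Λ),
          if SymM (core c).toB o σ (Sum.inr (!b)) ∧ CodeSum.Comp ⟨c, q⟩ σ then
            ixW w ⟨c, q⟩ else 0 := by
      intro σ
      by_cases h : SymM (core c).toB o σ (Sum.inr (!b))
      · rw [if_pos h, ← ix_sum w c hc o (!b) σ h]
        refine tsum_congr fun q => ?_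
        by_cases h3 : CodeSum.Comp ⟨c, q⟩ σ
        · exact (if_pos h3).trans (if_pos (show SymM (core c).toB o σ (Sum.inr (!b)) ∧
            CodeSum.Comp ⟨c, q⟩ σ from ⟨h, h3⟩)).symm
        · exact (if_neg h3).trans (if_neg (show ¬ (SymM (core c).toB o σ (Sum.inr (!b)) ∧
            CodeSum.Comp ⟨c, q⟩ σ) from fun h4 => h3 h4.2)).symm
      · rw [if_neg h]
        symm
        rw [ENNReal.tsum_eq_zero]
        intro q
        rw [if_neg fun h4 => h h4.1]
    rw [Finset.sum_congr rfl fun σ _ => h2 σ,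
      ← Summable.tsum_finsetSum fun _ _ => ENNReal.summable]
    refine tsum_congr fun q => ?_
    have h3 := CodeSum.sum_fix o b (⟨c, q⟩ : Ix Λ) (ixW w ⟨c, q⟩)
    rw [h3]
    simp only [hc, true_and]
  · simp only [hc, false_and, if_false, tsum_zero, Finset.sum_const_zero]

theorem code_sum_v : ∑' p : Ix Λ, (if Rigid p.1.rep.1 ∧ cact false false p = p then ixW w p else 0) =
    Av (pK w 1) (pK w 2) (pD w 1) (pS w 1) (pD w 2) := cod_sum w false false

theorem code_sum_h : ∑' p : Ix Λ, (if Rigid p.1.rep.1 ∧ cact false true p = p then ixW w p else 0) =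
    Ah (pK w 1) (pK w 2) (pD w 1) (pS w 1) (pD w 2) := cod_sum w false true

theorem code_sum_pi : ∑' p : Ix Λ, (if Rigid p.1.rep.1 ∧ cact true true p = p then ixW w p else 0) =
    Api (pK w 1) (pK w 2) (pD w 1) (pS w 1) (pD w 2) := cod_sum w true true

/-- the only symmetry is the identity; or directly as `RgTwo_sum` (`Pool/Agent/PGc/RgTwo.lean`) -/
theorem code_sum_one : ∑' p : Ix Λ, (if Rigid p.1.rep.1 then ixW w p else 0) =
    Rg (pK w 1) (pD w 1) := by
  have h0 : ∀ p : Ix Λ, (if Rigid p.1.rep.1 then ixW w p else 0) = RgTwo_pw w p := by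
    intro p
    by_cases h : Rigid p.1.rep.1
    · rw [if_pos h, RgTwo_pw, if_pos h]
      rfl
    · rw [if_neg h, RgTwo_pw, if_neg h]
  rw [tsum_congr h0, ← tsum_sigma_eq (fun c q => RgTwo_pw w ⟨c, q⟩)]
  have h1 : pK w 1 = ∑' l, w l := tsum_congr fun l => pow_one _
  have h2 : pD w 1 = Nsel w (fun _ => True) := pN_one w fun _ => True
  rw [h1, h2]
  unfold Rg
  exact tsum_congr fun c => RgTwo_sum w c

end PGr

end

section
/-! # Module RigEq: the generating functions of the rigid networks -/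

set_option linter.unusedSectionVars false

namespace PGr
open Equiv Finset
open scoped ENNReal Classical
universe u
variable {Λ : Type u} (w : Λ → ℝ≥0∞)
open NetSumC

namespace RigEq

/-- rigid codes -/
abbrev P (Λ : Type u) := {p : Ix Λ // Rigid p.1.rep.1}

noncomputable def act (o b : Bool) (p : P Λ) : P Λ := ⟨cact o b p.1, (cact_rigid o b p.1).2 p.2⟩

noncomputable def Φ [Nonempty Λ] (p : P Λ) : NC Λ := cls (cN p.1) (cN_good p.1 p.2)

theorem Φ_iso [Nonempty Λ] (p : P Λ) : NIso (Φ p).rep.1 (cN p.1) := cls_iso _ _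

theorem Φ_eq [Nonempty Λ] (p q : P Λ) : Φ p = Φ q ↔ NIso (cN p.1) (cN q.1) := by
  constructor
  · intro h
    have h1 := Φ_iso p
    rw [h] at h1
    exact h1.symm.trans (Φ_iso q)
  · intro h
    exact eq_of_rep (((Φ_iso p).trans h).trans (Φ_iso q).symm)

theorem Φ_eq' [Nonempty Λ] (p q : P Λ) : Φ p = Φ q ↔ q = p ∨ q = act false false p := by
  rw [Φ_eq]
  have h1 : NIso (cN p.1) (cN q.1) ↔ NIso (cN p.1) (LNet.fl false (cN q.1)) :=
    ⟨fun h => h.trans (fl_false _).symm, fun h => h.trans (fl_false _)⟩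
  rw [h1, cact_niso p.2 q.2, cact_one]
  refine or_congr ⟨fun h => Subtype.ext h, fun h => congrArg Subtype.val h⟩
    ⟨fun h => Subtype.ext h, fun h => congrArg Subtype.val h⟩

theorem act_act (o b o' b' : Bool) (p : P Λ) :
    act o b (act o' b' p) = act (o' == o) (xor b' b) p := Subtype.ext (cact_comp o b o' b' p.1)

theorem act_one (p : P Λ) : act true false p = p := Subtype.ext (cact_one p.1)

theorem Φ_fl [Nonempty Λ] (p : P Λ) : (Φ p).fl = Φ (act true true p) := by
  have h : NIso (cN (act true true p).1) (LNet.fl true (cN p.1)) := by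
    rw [cact_niso (act true true p).2 p.2 true]
    left
    exact (congrArg Subtype.val ((act_act true true true true p).trans (act_one p))).symm
  refine eq_of_rep ?_
  exact ((NC.fl_rep _).trans ((Φ_iso p).fl true)).trans (h.symm.trans (Φ_iso _).symm)

theorem range_Φ [Nonempty Λ] (c : NC Λ) : (∃ p : P Λ, Φ p = c) ↔ c.IsX ∧ ¬ c.IsSer := by
  constructor
  · rintro ⟨p, rfl⟩
    exact RgTwo_X (Φ_iso p).symm (cN_X p.1 p.2)
  · rintro ⟨h1, h2⟩
    obtain ⟨p, hp, h⟩ := exists_cN h1 h2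
    exact ⟨⟨p, hp⟩, eq_of_rep ((Φ_iso _).trans h)⟩

theorem wt_Φ [Nonempty Λ] (p : P Λ) : wt w (Φ p).rep.1 ^ 1 = ixW w p.1 := by
  rw [pow_one, (Φ_iso p).wt_eq, RgTwo_wt w p.1 p.2, RgTwo_pw, if_pos p.2, ixW]

theorem ifc {p q : Prop} (ip : Decidable p) (iq : Decidable q) (h : p ↔ q) (a b : ℝ≥0∞) :
    @ite _ p ip a b = @ite _ q iq a b := if_congr h rfl rfl

theorem tsum_P (Q : P Λ → Prop) (R : Ix Λ → Prop) [DecidablePred Q]
    [∀ p : Ix Λ, Decidable (Rigid p.1.rep.1 ∧ R p)] (h : ∀ p : P Λ, Q p ↔ R p.1)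
    (f : P Λ → ℝ≥0∞) (hf : ∀ p, f p = ixW w p.1) :
    ∑' p : P Λ, (if Q p then f p else 0) =
      ∑' p : Ix Λ, if Rigid p.1.rep.1 ∧ R p then ixW w p else 0 := by
  have h1 : ∑' p : P Λ, (if Q p then f p else 0) =
      ∑' p : {p : Ix Λ | Rigid p.1.rep.1}, (fun p : Ix Λ => if R p then ixW w p else 0) p.1 :=
    tsum_congr fun p => by simp only [h, hf]
  refine h1.trans ((_root_.tsum_subtype {p : Ix Λ | Rigid p.1.rep.1}
    (fun p : Ix Λ => if R p then ixW w p else 0)).trans ?_)
  refine tsum_congr fun p => ?_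
  by_cases h2 : Rigid p.1.rep.1 <;> by_cases h3 : R p <;> simp [Set.indicator, h2, h3]

theorem tsum_P' (f : P Λ → ℝ≥0∞) (hf : ∀ p, f p = ixW w p.1) :
    ∑' p : P Λ, f p = ∑' p : Ix Λ, if Rigid p.1.rep.1 then ixW w p else 0 := by
  have h1 : ∑' p : P Λ, f p = ∑' p : {p : Ix Λ | Rigid p.1.rep.1}, ixW w p.1 :=
    tsum_congr fun p => hf p
  refine h1.trans ((_root_.tsum_subtype {p : Ix Λ | Rigid p.1.rep.1} _).trans ?_)
  refine tsum_congr fun p => ?_
  by_cases h2 : Rigid p.1.rep.1 <;> simp [Set.indicator, h2]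

end RigEq

open RigEq in
/-- `two_sum` for `P` = codes with a rigid map, `m = cact false false`, `Φ p` = the class of `cN p`: `cact_niso` with
`b = false` (`fl_false`), `exists_cN`, `cN_X`, `RgTwo_wt`; then `code_sum_one`, `code_sum_v` -/
theorem rig_eq [Nonempty Λ] : 2 * pN w 1 (fun c => c.IsX ∧ ¬ c.IsSer) =
    Rg (pK w 1) (pD w 1) + Av (pK w 1) (pK w 2) (pD w 1) (pS w 1) (pD w 2) := by
  have h := two_sum (act false false) (fun p => by rw [act_act]; exact act_one p)
    (RigEq.Φ (Λ := Λ)) Φ_eq' (fun c => wt w c.rep.1 ^ 1)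
  refine (congrArg (2 * ·) (tsum_congr fun c => ifc _ _ (range_Φ c).symm _ _)).trans
    (h.trans ?_)
  congr 1
  · exact (tsum_P' w _ (wt_Φ w)).trans (code_sum_one w)
  · exact (tsum_P w (fun p => act false false p = p) (fun p => cact false false p = p)
      (fun p => ⟨fun h => congrArg Subtype.val h, fun h => Subtype.ext h⟩)
      _ (wt_Φ w)).trans (code_sum_v w)

open RigEq in
/-- `two_sum_inv` with `g = cact true true`, `t = NC.fl` -/
theorem rigS_eq [Nonempty Λ] : 2 * pN w 1 (fun c => (c.IsX ∧ ¬ c.IsSer) ∧ c.fl = c) =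
    Api (pK w 1) (pK w 2) (pD w 1) (pS w 1) (pD w 2) +
      Ah (pK w 1) (pK w 2) (pD w 1) (pS w 1) (pD w 2) := by
  have h := two_sum_inv (act false false) (act true true)
    (fun p => by rw [act_act]; exact act_one p) (fun p => by rw [act_act]; exact act_one p)
    (fun p => by rw [act_act, act_act]; rfl)
    (RigEq.Φ (Λ := Λ)) Φ_eq' NC.fl Φ_fl (fun c => wt w c.rep.1 ^ 1)
  refine (congrArg (2 * ·) (tsum_congr fun c =>
    ifc _ _ (and_congr (range_Φ c).symm Iff.rfl) _ _)).trans (h.trans ?_)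
  congr 1
  · exact (tsum_P w (fun p => act true true p = p) (fun p => cact true true p = p)
      (fun p => ⟨fun h => congrArg Subtype.val h, fun h => Subtype.ext h⟩)
      _ (wt_Φ w)).trans (code_sum_pi w)
  · exact (tsum_P w (fun p => act false false (act true true p) = p)
      (fun p => cact false true p = p) (fun p => by
        rw [act_act]
        exact ⟨fun h => congrArg Subtype.val h, fun h => Subtype.ext h⟩)
      _ (wt_Φ w)).trans (code_sum_h w)

/-- all networks that are neither an edge nor parallel: `Ser_eq` is used later -/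
theorem X_split : pN w 1 NC.IsX = pN w 1 NC.IsSer + pN w 1 (fun c => c.IsX ∧ ¬ c.IsSer) := by
  rw [← pN_add w 1 NC.IsX NC.IsSer]
  congr 2
  funext c
  exact propext ⟨fun h => h.2, fun h => ⟨h.isX, h⟩⟩

theorem XS_split : pN w 1 (fun c => c.IsX ∧ c.fl = c) =
    pN w 1 (fun c => c.IsSer ∧ c.fl = c) + pN w 1 (fun c => (c.IsX ∧ ¬ c.IsSer) ∧ c.fl = c) := by
  rw [← pN_add w 1 (fun c => c.IsX ∧ c.fl = c) NC.IsSer]
  congr 2
  · funext c
    exact propext ⟨fun h => ⟨h.2, h.1.2⟩, fun h => ⟨⟨h.1.isX, h.2⟩, h.1⟩⟩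
  · funext c
    exact propext ⟨fun h => ⟨⟨h.1.1, h.2⟩, h.1.2⟩, fun h => ⟨⟨h.1.1, h.2⟩, h.1.2⟩⟩

end PGr

end

section
/-! # Module InsRot: nets which are not series and have a rotation exchanging the root darts -/

set_option linter.unusedSectionVars false

namespace PGr
open Equiv Finset
open scoped ENNReal Classical

section
variable {N : BMap} {m : ℕ}

theorem InsRot_s {T : Type*} [Fintype T] [DecidableEq T] {a s ρ : Perm T}
    (ha : ∀ t, ρ (a t) = a (ρ t)) (hs : ∀ t, ρ ((a * s) t) = (a * s) (ρ t)) (t : T) :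
    ρ (s t) = s (ρ t) := by
  have h1 := hs t
  rw [Perm.mul_apply, Perm.mul_apply, ha] at h1
  exact a.injective h1

theorem InsRot_s' {T : Type*} [Fintype T] [DecidableEq T] {a s ρ : Perm T}
    (ha : ∀ t, ρ (a t) = a (ρ t)) (hs : ∀ t, ρ (s t) = s (ρ t)) (t : T) :
    ρ ((a * s) t) = (a * s) (ρ t) := by
  rw [Perm.mul_apply, Perm.mul_apply, ha, hs]

theorem InsRot_A {T : Type*} [Fintype T] [DecidableEq T] {s ρ : Perm T} {c0 c1 : T} (hne : c0 ≠ c1)
    (hs : ∀ t, ρ (s t) = s (ρ t)) (h1 : ρ c0 = c1) (h3 : ρ c1 = c0) (hρρ : ∀ t, ρ (ρ t) = t)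
    (t : T ⊕ Bool) : Perm.sumCongr ρ Equiv.boolNot (insS s c0 c1 t) =
      insS s c0 c1 (Perm.sumCongr ρ Equiv.boolNot t) := by
  rcases t with t | b
  · show _ = insS s c0 c1 (Sum.inl (ρ t))
    by_cases ht0 : t = c0
    · rw [ht0, insS_c0 s hne, h1, insS_c1 s hne]
      rfl
    · by_cases ht1 : t = c1
      · rw [ht1, insS_c1 s hne, h3, insS_c0 s hne]
        rfl
      · rw [insS_inl s hne ht0 ht1, insS_inl s hne]
        · exact congrArg Sum.inl (hs t)
        · intro h4
          apply ht1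
          rw [← hρρ t, h4, h1]
        · intro h4
          apply ht0
          rw [← hρρ t, h4, h3]
  · cases b
    · show _ = insS s c0 c1 (Sum.inr true)
      rw [insS_false s hne, insS_true s hne]
      exact congrArg Sum.inl ((hs c1).trans (congrArg s h3))
    · show _ = insS s c0 c1 (Sum.inr false)
      rw [insS_false s hne, insS_true s hne]
      exact congrArg Sum.inl ((hs c0).trans (congrArg s h1))

theorem InsRot_B {T : Type*} [Fintype T] [DecidableEq T] {a s : Perm T} {c0 c1 : T} (hne : c0 ≠ c1)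
    {φ : Perm (T ⊕ Bool)} (hin : ∀ t, ∃ t', φ (Sum.inl t) = Sum.inl t')
    (ha : ∀ t, φ (ext a t) = ext a (φ t)) (hrot : ∀ t, φ (insS s c0 c1 t) = insS s c0 c1 (φ t))
    (hT : φ (Sum.inr true) = Sum.inr false) (hF : φ (Sum.inr false) = Sum.inr true)
    (hinv : ∀ t, φ (φ t) = t) :
    ∃ ρ : Perm T, (∀ t, φ (Sum.inl t) = Sum.inl (ρ t)) ∧ (∀ t, ρ (a t) = a (ρ t)) ∧
      (∀ t, ρ (s t) = s (ρ t)) ∧ ρ c0 = c1 ∧ ρ c1 = c0 ∧ ∀ t, ρ (ρ t) = t := by
  choose f hf using hin
  have finj : Function.Injective f := by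
    intro x y hxy
    have h2 : φ (Sum.inl x) = φ (Sum.inl y) := by rw [hf, hf, hxy]
    exact Sum.inl_injective (φ.injective h2)
  have hff : ∀ t, f (f t) = t := by
    intro t
    have h2 := hinv (Sum.inl t)
    rw [hf, hf] at h2
    exact Sum.inl_injective h2
  have fa : ∀ t, f (a t) = a (f t) := by
    intro t
    have h2 := ha (Sum.inl t)
    rw [ext_inl, hf, hf] at h2
    exact Sum.inl_injective h2
  have e0 : f c0 = c1 := by
    have h2 := hrot (Sum.inl c0)
    rw [insS_c0 s hne, hT, hf] at h2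
    have h3 := (insS s c0 c1).injective ((insS_c1 s hne).trans h2)
    exact (Sum.inl_injective h3).symm
  have e1 : f c1 = c0 := by rw [← e0, hff]
  have fs : ∀ t, f (s t) = s (f t) := by
    intro t
    by_cases ht0 : t = c0
    · have h2 := hrot (Sum.inr true)
      rw [insS_true s hne, hT, insS_false s hne, hf] at h2
      rw [ht0, e0]
      exact Sum.inl_injective h2
    · by_cases ht1 : t = c1
      · have h2 := hrot (Sum.inr false)
        rw [insS_false s hne, hF, insS_true s hne, hf] at h2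
        rw [ht1, e1]
        exact Sum.inl_injective h2
      · have h2 := hrot (Sum.inl t)
        rw [insS_inl s hne ht0 ht1, hf, hf, insS_inl s hne] at h2
        · exact Sum.inl_injective h2
        · intro h4
          apply ht1
          rw [← hff t, h4, e0]
        · intro h4
          apply ht0
          rw [← hff t, h4, e1]
  exact ⟨Equiv.ofBijective f (Finite.injective_iff_bijective.mp finj), hf, fa, fs, e0, e1, hff⟩

/-- Let `N` have a rotation of order 2 about the root face.  Proof.  `Rot.normal` for the dual: the length `N.rl` is even, `= 2 * m`, and `ρ` maps the root corner to the corner `m` steps further (an odd power of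
`ρ` is `ρ`).  Insert the root edge from the corner `inr true` to the corner `ρ (inr true)`; `φ (inl t) = inl (ρ t)`, `φ (inr b) = inr (!b)` commutes with `ext aa` and with `insS` (`insS_c0`, `insS_c1`, `insS_true`,
`insS_false`, `insS_inl`; `ρ` exchanges the two corners). -/
theorem ins_rot (hN : N.IsGood) {ρ : Perm N.T}
    (hr : Rot N.aa (N.aa * N.s) ρ 2 (Sum.inr true)) :
    ∃ m, 0 < m ∧ N.rl = 2 * m ∧ ρ (Sum.inr true) = ((N.aa * N.s) ^ m) (Sum.inr true) ∧
      ∃ φ : Perm (insMap N m).T, TwI false true (insMap N m) (insMap N m) φ ∧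
        ∀ t : N.T, φ (Sum.inl t) = Sum.inl (ρ t) := by
  have hgd : Good N.aa (N.aa * N.s) := Good.dual hN
  obtain ⟨⟨m, hm⟩, i, hi, h1⟩ := Rot.normal hgd hr
  have hrl : N.rl = 2 * m := hm
  have h2 := hN.two_le_rl
  have hm0 : 0 < m := by omega
  have hml : m < N.rl := by omega
  have hi1 : i % 2 = 1 := by
    rcases Nat.mod_two_eq_zero_or_one i with h | h
    · exfalso
      have h3 : 2 ∣ i := Nat.dvd_of_mod_eq_zero h
      have h4 : i.gcd 2 = 2 := Nat.gcd_eq_right h3
      rw [Nat.Coprime] at hi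
      omega
    · exact h
  have hdiv : dgs (N.aa * N.s) (Sum.inr true : N.T) / 2 = m := by
    rw [hm]; omega
  rw [hr.Poles_mod, hi1, pow_one, hdiv] at h1
  have hs : ∀ t, ρ (N.s t) = N.s (ρ t) := InsRot_s hr.ra hr.rs
  have hρρ : ∀ t, ρ (ρ t) = t := fun t => hr.pow t
  have hne : (Sum.inr true : N.T) ≠ ((N.aa * N.s) ^ m) (Sum.inr true) := InsMap_ne hm0 hml
  have h3 : ρ (((N.aa * N.s) ^ m) (Sum.inr true)) = Sum.inr true := by rw [← h1, hρρ]
  refine ⟨m, hm0, hrl, h1, Perm.sumCongr ρ Equiv.boolNot, ⟨?_, ?_, ?_⟩, fun t => rfl⟩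
  · rintro (t | b)
    · exact congrArg Sum.inl (hr.ra t)
    · rfl
  · intro t
    exact InsRot_A hne hs h1 h3 hρρ t
  · intro b
    cases b <;> rfl

/-- Conversely.  Proof.  `φ` maps nonroot darts to nonroot darts (`TwI.inl`), this defines `ρ`.  It commutes with `N.s`: `insS` determines `s` (`s` of a dart `t` not in the two corners
is clear; for `t = c0`: `insS (inl c0) = inr true` is mapped to `inr false = insS (inl c1)`, so `ρ c0 = c1`, and `insS (inr true) = inl (s c0)` is mapped to `insS (inr false) = inl (s c1)`).  `ρ` is an involution without fixed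
darts (`TwI.piInvol`, `TwI.piFree`).  `c1 = (aa * s) ^ m c0`, so `(aa * s) ^ (2 * m) c0 = ρ (ρ c0) = c0` (`ρ` commutes with `aa * s`), `N.rl ∣ 2 * m`, `0 < 2 * m < 2 * N.rl`. -/
theorem rot_of_ins (hN : N.IsGood) (h0 : 0 < m) (h1 : m < N.rl) {φ : Perm (insMap N m).T}
    (h : TwI false true (insMap N m) (insMap N m) φ) :
    N.rl = 2 * m ∧ ∃ ρ : Perm N.T, Rot N.aa (N.aa * N.s) ρ 2 (Sum.inr true) ∧
      ∀ t : N.T, φ (Sum.inl t) = Sum.inl (ρ t) := by
  have hne : (Sum.inr true : N.T) ≠ ((N.aa * N.s) ^ m) (Sum.inr true) := InsMap_ne h0 h1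
  obtain ⟨ρ, hφ, hρa, hρs, e0, e1, hρρ⟩ := InsRot_B (T := N.T) (a := N.aa) (s := N.s) hne (φ := φ)
    (fun t => h.inl t) h.aa h.rot (h.root true) (h.root false) (h.invol (insMap_good hN h0 h1))
  have hfree : ∀ t, ρ t ≠ t := by
    intro t ht
    have h2 : ρ = 1 := iso_unique hN t ρ 1 hρa hρs (fun _ => rfl) (fun _ => rfl) ht
    apply hne
    rw [← e0, h2]
    rfl
  have hcomm := InsRot_s' hρa hρs
  have h2m : ((N.aa * N.s) ^ (2 * m)) (Sum.inr true) = Sum.inr true := by
    have h2 := Poles_comm' hcomm m (Sum.inr true)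
    rw [e1, e0, ← Perm.mul_apply, ← pow_add, ← two_mul] at h2
    exact h2.symm
  refine ⟨?_, ρ, ⟨hρa, hcomm, le_refl 2, ?_, ?_, ?_⟩, hφ⟩
  · rw [Poles_dgs] at h2m
    have h3 : dgs (N.aa * N.s) (Sum.inr true : N.T) = N.rl := rfl
    rw [h3] at h2m
    obtain ⟨q, hq⟩ := h2m
    have hq1 : q = 1 := by
      rcases Nat.lt_or_ge q 2 with hq2 | hq2
      · rcases Nat.eq_zero_or_pos q with h4 | h4
        · rw [h4, mul_zero] at hq; omega
        · omega
      · have : N.rl * 2 ≤ N.rl * q := Nat.mul_le_mul_left _ hq2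
        omega
    rw [hq1, mul_one] at hq
    exact hq.symm
  · intro t
    rw [pow_two, Perm.mul_apply]
    exact hρρ t
  · intro t i hi0 hi1
    have hi : i = 1 := by omega
    rw [hi, pow_one]
    exact hfree t
  · refine ⟨(m : ℤ), ?_⟩
    rw [zpow_natCast, e0]

end

end PGr

end

section
/-! # Module InsW: weights of insertions with a rotation, the nets which are not series -/

set_option linter.unusedSectionVars false

namespace PGr
open Equiv Finset
open scoped ENNReal Classical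

section
variable {T : Type*} [Fintype T] [DecidableEq T] {a s ρ : Perm T} {c0 c1 : T}

/-- the vertices of a map with an inserted edge -/
def InsW_E (hne : c0 ≠ c1) : Quotient (Perm.SameCycle.setoid s) ≃
    Quotient (Perm.SameCycle.setoid (insS s c0 c1)) where
  toFun := Quotient.lift
    (fun t => Quotient.mk (Perm.SameCycle.setoid (insS s c0 c1)) (Sum.inl t))
    (fun x y h => Quotient.sound ((sameCycle_insS s hne x y).2 h))
  invFun := Quotient.lift
    (fun x => Quotient.mk (Perm.SameCycle.setoid s) (InsBasic.pr c0 c1 x))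
    (fun _ _ h => Quotient.sound (InsBasic.proj s hne h))
  left_inv := by
    intro q
    induction q using Quotient.inductionOn with
    | _ x => rfl
  right_inv := by
    intro q
    induction q using Quotient.inductionOn with
    | _ x =>
      apply Quotient.sound
      show (insS s c0 c1).SameCycle (Sum.inl (InsBasic.pr c0 c1 x)) x
      rcases x with t | b
      · exact Perm.SameCycle.refl _ _
      · cases b
        · exact InsBasic.false_c1 s hne
        · exact InsBasic.true_c0 s hne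

theorem InsW_fixV (hne : c0 ≠ c1) (e0 : ρ c0 = c1) (e1 : ρ c1 = c0) {φ : Perm (T ⊕ Bool)}
    (hφ : ∀ t, φ (Sum.inl t) = Sum.inl (ρ t)) (hT : φ (Sum.inr true) = Sum.inr false)
    (hF : φ (Sum.inr false) = Sum.inr true) : nFix (insS s c0 c1) φ = nFix s ρ := by
  unfold nFix
  symm
  refine Nat.card_congr ((InsW_E (s := s) hne).subtypeEquiv ?_)
  intro q
  constructor
  · rintro ⟨t, rfl, ht⟩
    refine ⟨Sum.inl t, rfl, ?_⟩
    rw [hφ, sameCycle_insS s hne]
    exact ht
  · rintro ⟨x, h1, h2⟩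
    refine ⟨InsBasic.pr c0 c1 x, ?_, ?_⟩
    · rw [← (InsW_E (s := s) hne).symm_apply_apply q, h1]
      rfl
    · have h3 := InsBasic.proj s hne h2
      rcases x with t | b
      · rw [hφ] at h3
        exact h3
      · cases b
        · rw [hF] at h3
          show s.SameCycle c1 (ρ c1)
          rw [e1]
          exact h3
        · rw [hT] at h3
          show s.SameCycle c0 (ρ c0)
          rw [e0]
          exact h3

theorem InsW_pow_inl (a : Perm T) (n : ℕ) (t : T) :
    ((ext a) ^ n) (Sum.inl t) = Sum.inl ((a ^ n) t) := by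
  induction n with
  | zero => rfl
  | succ n ih => rw [pow_succ', pow_succ', Perm.mul_apply, Perm.mul_apply, ih, ext_inl]

theorem InsW_sc (a : Perm T) (x y : T) :
    (ext a).SameCycle (Sum.inl x) (Sum.inl y) ↔ a.SameCycle x y := by
  constructor
  · intro h
    obtain ⟨n, hn⟩ := h.exists_nat_pow_eq
    rw [InsW_pow_inl] at hn
    exact ⟨(n : ℤ), by rw [zpow_natCast]; exact Sum.inl_injective hn⟩
  · intro h
    obtain ⟨n, hn⟩ := h.exists_nat_pow_eq
    exact ⟨(n : ℤ), by rw [zpow_natCast, InsW_pow_inl, hn]⟩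

theorem InsW_sc' (a : Perm T) (x : T) (b : Bool) :
    ¬ (ext a).SameCycle (Sum.inl x) (Sum.inr b) := by
  intro h
  obtain ⟨n, hn⟩ := h.exists_nat_pow_eq
  rw [InsW_pow_inl] at hn
  cases hn

theorem InsW_sc2 (a : Perm T) (b b' : Bool) : (ext a).SameCycle (Sum.inr b) (Sum.inr b') := by
  by_cases h : b = b'
  · rw [h]
  · have h1 : b' = !b := by cases b <;> cases b' <;> simp_all
    rw [h1]
    exact ⟨1, by rw [zpow_one, ext_inr]⟩

theorem InsW_fixE {φ : Perm (T ⊕ Bool)}
    (hφ : ∀ t, φ (Sum.inl t) = Sum.inl (ρ t)) (hT : φ (Sum.inr true) = Sum.inr false) :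
    nFix (ext a) φ = nFix a ρ + 1 := by
  unfold nFix
  rw [← Finite.card_option]
  symm
  let G : Option {q : Quotient (Perm.SameCycle.setoid a) //
      ∃ t, q = Quotient.mk _ t ∧ a.SameCycle t (ρ t)} →
      {q : Quotient (Perm.SameCycle.setoid (ext a)) //
        ∃ t, q = Quotient.mk _ t ∧ (ext a).SameCycle t (φ t)} := fun o =>
    match o with
    | none => ⟨Quotient.mk _ (Sum.inr true), Sum.inr true, rfl, by
        rw [hT]; exact InsW_sc2 a true false⟩
    | some q => ⟨Quotient.lift (fun t => Quotient.mk (Perm.SameCycle.setoid (ext a)) (Sum.inl t))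
        (fun x y h => Quotient.sound ((InsW_sc a x y).2 h)) q.1, by
        obtain ⟨t, h1, h2⟩ := q.2
        refine ⟨Sum.inl t, by rw [h1]; rfl, ?_⟩
        rw [hφ, InsW_sc]
        exact h2⟩
  refine Nat.card_congr (Equiv.ofBijective G ⟨?_, ?_⟩)
  · rintro (_ | ⟨q, t, rfl, ht⟩) (_ | ⟨q', t', rfl, ht'⟩) h
    · rfl
    · exfalso
      have h1 : (ext a).SameCycle (Sum.inr true) (Sum.inl t') :=
        Quotient.exact (congrArg Subtype.val h)
      exact InsW_sc' a t' true h1.symm
    · exfalso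
      have h1 : (ext a).SameCycle (Sum.inl t) (Sum.inr true) :=
        Quotient.exact (congrArg Subtype.val h)
      exact InsW_sc' a t true h1
    · have h1 : (ext a).SameCycle (Sum.inl t) (Sum.inl t') :=
        Quotient.exact (congrArg Subtype.val h)
      rw [InsW_sc] at h1
      congr 1
      exact Subtype.ext (Quotient.sound h1)
  · rintro ⟨q, x, rfl, hx⟩
    rcases x with t | b
    · rw [hφ, InsW_sc] at hx
      exact ⟨some ⟨Quotient.mk _ t, t, rfl, hx⟩, rfl⟩
    · refine ⟨none, Subtype.ext (Quotient.sound ?_)⟩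
      exact InsW_sc2 a true b

end

section
variable {N : BMap} {m : ℕ}

/-- Weights.  Proof.  `nV (insMap N m).s = nV N.s` (`insMap_nV`), two more darts.  The fixed cells: `TwI.piTwo` for `φ` and `Rot.two_poles` for `ρ` (in the dual).  The vertices fixed by `φ` are those fixed by `ρ`
(`sameCycle_insS`; the two ends of the new edge are exchanged), the edges are the new edge and those of `ρ`; the sums are 2 on both sides, so
`nFix` of the faces of `insMap N m` is `nFix (N.aa * N.s) ρ - 1`.  `S ^ 2 * S ^ (nV - 2 - nFix) = S ^ (nV - nFix)` by `TwI.piV`. -/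
theorem pW_ins (S Y kv kf ke : ℝ≥0∞) (hN : N.IsGood) (h0 : 0 < m) (h1 : m < N.rl) {ρ : Perm N.T}
    (hr : Rot N.aa (N.aa * N.s) ρ 2 (Sum.inr true)) {φ : Perm (insMap N m).T}
    (h : TwI false true (insMap N m) (insMap N m) φ)
    (hρ : ∀ t : N.T, φ (Sum.inl t) = Sum.inl (ρ t)) :
    S ^ 2 * pW S Y kv kf ke (insMap N m) φ =
      wR 1 S Y kf kv ke 1 N.aa (N.aa * N.s) ρ (Sum.inr true) := by
  have hne : (Sum.inr true : N.T) ≠ ((N.aa * N.s) ^ m) (Sum.inr true) := InsMap_ne h0 h1
  obtain ⟨ρ', hφ', -, -, e0', e1', -⟩ := InsRot_B (T := N.T) (a := N.aa) (s := N.s) hne (φ := φ)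
    (fun t => h.inl t) h.aa h.rot (h.root true) (h.root false) (h.invol (insMap_good hN h0 h1))
  have hρρ' : ρ' = ρ := by
    ext t
    have h2 := (hφ' t).symm.trans (hρ t)
    exact Sum.inl_injective h2
  rw [hρρ'] at e0' e1'
  have hV : nFix (insMap N m).s φ = nFix N.s ρ :=
    InsW_fixV hne e0' e1' hρ (h.root true) (h.root false)
  have hE : nFix (insMap N m).aa φ = nFix N.aa ρ + 1 := InsW_fixE hρ (h.root true)
  have hg := insMap_good hN h0 h1
  obtain ⟨h2, h3⟩ := h.piTwo hg
  obtain ⟨h4, -, -, -⟩ := h.piV hg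
  have h5 := hr.two_poles (Good.dual hN)
  have haas : N.aa * (N.aa * N.s) = N.s := Equiv.ext fun t => hN.inv (N.s t)
  rw [haas] at h5
  have hnv := insMap_nV hN h0 h1
  have hcard : Fintype.card (insMap N m).T = Fintype.card N.T + 2 := by
    show Fintype.card (N.T ⊕ Bool) = _
    rw [Fintype.card_sum, Fintype.card_bool]
  unfold pW wR
  rw [haas, hV, hE, hcard, hnv]
  rw [hV, hE] at h3
  rw [hV, hnv] at h4
  have x1 : nFix ((insMap N m).aa * (insMap N m).s) φ = nFix (N.aa * N.s) ρ - 1 := by omega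
  have x2 : (Fintype.card N.T + 2) / 2 - (nFix N.aa ρ + 1) = Fintype.card N.T / 2 - nFix N.aa ρ := by
    omega
  have x3 : nFix N.aa ρ + 1 - 1 = nFix N.aa ρ := by omega
  have x4 : nV N.s - nFix N.s ρ = 2 + (nV N.s - 2 - nFix N.s ρ) := by omega
  rw [x1, x2, x3, x4, pow_add]
  simp only [one_pow]
  ring

/-- the term of a class -/
theorem InsW_term (S Y kv kf ke : ℝ≥0∞) (c : GC) :
    S ^ 2 * wPi S Y kv kf ke (insMap c.rep.1 (c.rep.1.rl / 2)) = wF 2 S 1 Y kv kf ke 1 c.rep.1 := by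
  have hN := c.rep.2
  have h2 := hN.two_le_rl
  have h0 : 0 < c.rep.1.rl / 2 := by omega
  have h1 : c.rep.1.rl / 2 < c.rep.1.rl := by omega
  have hg := insMap_good hN h0 h1
  unfold wF
  by_cases h : IsFo 2 c.rep.1
  · rw [dif_pos h]
    obtain ⟨m, hm0, hm, -, φ, hφ, hφρ⟩ := ins_rot hN h.choose_spec
    have h3 : c.rep.1.rl / 2 = m := by omega
    have h4 : m < c.rep.1.rl := by omega
    rw [h3, wPi_of (insMap_good hN hm0 h4) hφ, pW_ins S Y kv kf ke hN hm0 h4 h.choose_spec hφ hφρ]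
  · rw [dif_neg h, wPi_none, mul_zero]
    rintro ⟨e, he⟩
    obtain ⟨-, ρ, hρ, -⟩ := rot_of_ins hN h0 h1 he
    exact h ⟨ρ, hρ⟩

/-- the class of the map with the inserted edge -/
noncomputable def InsW_cl (c : GC) : GC :=
  ESum.cl ⟨insMap c.rep.1 (c.rep.1.rl / 2), insMap_good c.rep.2
    (by have := c.rep.2.two_le_rl; omega) (by have := c.rep.2.two_le_rl; omega)⟩

/-- all classes which are not series -/
noncomputable def InsW_F (o : Option GC) : GC := o.elim digC InsW_cl

theorem InsW_card (c : GC) : 4 ≤ Fintype.card (InsW_cl c).rep.1.D := by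
  have h1 := ESum.rep_iso ⟨insMap c.rep.1 (c.rep.1.rl / 2), insMap_good c.rep.2
    (by have := c.rep.2.two_le_rl; omega) (by have := c.rep.2.two_le_rl; omega)⟩
  obtain ⟨φ, hφ⟩ := BIso_iff.1 h1
  have h2 := hφ.card_eq
  have h3 : 4 ≤ Fintype.card c.rep.1.T := by
    obtain ⟨k, hk0, hk⟩ := card_D_even c.rep.2
    have : Fintype.card c.rep.1.T = Fintype.card c.rep.1.D + 2 := by
      rw [Fintype.card_sum, Fintype.card_bool]
    omega
  have h4 : Fintype.card (InsW_cl c).rep.1.D = Fintype.card c.rep.1.T := h2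
  omega

theorem InsW_digcard : Fintype.card digC.rep.1.D = 2 := by
  obtain ⟨φ, hφ⟩ := BIso_iff.1 (ESum.rep_iso ⟨digonB, digon_good⟩)
  have h2 := hφ.card_eq
  have h3 : Fintype.card digonB.D = 2 := by
    show Fintype.card Bool = 2
    decide
  exact h2.trans h3

theorem InsW_inj : Function.Injective InsW_F := by
  rintro (_ | c) (_ | c') h
  · rfl
  · exfalso
    have h1 := InsW_card c'
    have h2 : digC = InsW_cl c' := h
    rw [← h2, InsW_digcard] at h1
    omega
  · exfalso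
    have h1 := InsW_card c
    have h2 : InsW_cl c = digC := h
    rw [h2, InsW_digcard] at h1
    omega
  · have h1 : InsW_cl c = InsW_cl c' := h
    have h2 := ESum.iso_of_mk h1
    have h3 := c.rep.2.two_le_rl
    have h4 := c'.rep.2.two_le_rl
    have h5 := insMap_inj c.rep.2 (by omega) (by omega) c'.rep.2 (by omega) (by omega) h2
    rw [ESum.eq_of_iso h5]

/-- Proof.  The classes which are not series are the class of the digon (`eq_digon`; `wPi_dig`) and the classes of `insMap c.rep.1 l`, `0 < l < rl` (`exists_insMap`, `insMap_good`, `insMap_not_ser`, `insMap_iso`), which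
determine `l` (`insMap_rl`: the length of the root face is `l + 1`) and `c` (`insMap_inj`).  The term of `(c, l)` is 0 unless `IsFo 2 c.rep.1` and `rl = 2 * l` (`rot_of_ins`), and then it is
`wF 2 S 1 Y kv kf ke 1 c.rep.1` divided by `S ^ 2` (`ins_rot`, `pW_ins`, `wPi_of`, `wR_indep` for the dual).  So `c ↦` the class of `insMap c.rep.1 (rl / 2)` is a bijection from the classes with `IsFo 2` to
the classes which are not series, not the digon, and have nonzero weight or a rotation. -/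
theorem FR_ns (S Y kv kf ke : ℝ≥0∞) :
    S ^ 2 * FRsel S Y kv kf ke (fun M => ¬ IsSer M) =
      gF 2 S 1 Y kv kf ke 1 + ke * S ^ 2 := by
  unfold FRsel gF
  rw [← ENNReal.tsum_mul_left]
  rw [← InsW_inj.tsum_eq]
  · rw [NetSumC.tsum_opt, add_comm]
    congr 1
    · refine tsum_congr fun c => ?_
      have h1 := c.rep.2.two_le_rl
      have h2 : BIso (InsW_cl c).rep.1 (insMap c.rep.1 (c.rep.1.rl / 2)) := ESum.rep_iso _
      have h3 : ¬ IsSer (InsW_F (some c)).rep.1 :=
        fun h3 => insMap_not_ser c.rep.2 (by omega) (by omega) (h2.ser h3)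
      rw [if_pos h3]
      show S ^ 2 * wPi S Y kv kf ke (InsW_cl c).rep.1 = _
      rw [wPi_iso h2, InsW_term]
    · have h2 : BIso digC.rep.1 digonB := ESum.rep_iso _
      have h3 : ¬ IsSer (InsW_F none).rep.1 := fun h3 => digon_not_ser (h2.ser h3)
      rw [if_pos h3]
      show S ^ 2 * wPi S Y kv kf ke digC.rep.1 = _
      rw [wPi_dig, mul_comm]
  · intro c hc
    have hs : ¬ IsSer c.rep.1 := by
      intro h
      apply hc
      show S ^ 2 * _ = 0
      rw [if_neg (not_not.2 h), mul_zero]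
    have hc' : S ^ 2 * wPi S Y kv kf ke c.rep.1 ≠ 0 := by
      intro h
      apply hc
      show S ^ 2 * _ = 0
      rw [if_pos hs]
      exact h
    by_cases h4 : Fintype.card c.rep.1.D < 4
    · refine ⟨none, ?_⟩
      show digC = c
      exact ESum.eq_of_iso ((ESum.rep_iso _).trans (eq_digon c.rep.2 h4).symm)
    · obtain ⟨N, k, hN, hk, hk', hi⟩ := exists_insMap c.rep.2 hs (by omega)
      have h5 : ∃ e : Perm c.rep.1.T, TwI false true c.rep.1 c.rep.1 e := by
        by_contra h6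
        apply hc'
        rw [wPi_none h6, mul_zero]
      obtain ⟨e, he⟩ := h5
      obtain ⟨φ, hφ⟩ := BIso_iff.1 hi
      have h6 : TwI false true (insMap N k) (insMap N k) ((φ.symm.trans e).trans φ) :=
        (hφ.symm.trans he).trans hφ
      obtain ⟨h7, -⟩ := rot_of_ins hN hk hk' h6
      have h8 : BIso (ESum.cl ⟨N, hN⟩).rep.1 N := ESum.rep_iso ⟨N, hN⟩
      refine ⟨some (ESum.cl ⟨N, hN⟩), ?_⟩
      show InsW_cl (ESum.cl ⟨N, hN⟩) = c
      refine ESum.eq_of_iso ?_
      have h9 : (ESum.cl ⟨N, hN⟩).rep.1.rl / 2 = k := by rw [h8.rl_eq]; omega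
      refine (ESum.rep_iso _).trans ?_
      show BIso (insMap (ESum.cl ⟨N, hN⟩).rep.1 ((ESum.cl ⟨N, hN⟩).rep.1.rl / 2)) _
      rw [h9]
      exact (TUpper.insMap_iso h8 k).trans hi.symm

end

end PGr

end

section
/-! # Module SLem: power series with nonnegative coefficients along a curve (Mathlib only) -/

namespace PGr
open scoped ENNReal
open Filter Topology

/-- The derivative.  Let `G` be the sum of the series as a real function on `(0, R)`, `R = sup x w` (all values are finite on this interval, `x` is strictly decreasing and continuous, so its values are an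
interval).  The power series is differentiable termwise inside its interval of convergence, `X * G' X = ∑ m a_m X ^ m`; `G (x w) = g w` on the interval, so by the chain rule
`G' (x w) * dx w = dg w`.  (Alternatively: Mathlib's `HasFPowerSeriesOnBall` / `hasDerivAt_tsum`, or see `nonneg_series_deriv` in `Pool/Agent/PGc/Pring.lean` and the proof of `int_series` in
`Pool/Agent/PGa/Int1.lean`, which does the same for the primitive.) -/
theorem series_deriv (a : ℕ → ℝ≥0∞) (x g dx dg : ℝ → ℝ) {w0 w1 : ℝ}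
    (hx : ∀ w, w0 < w → w < w1 → HasDerivAt x (dx w) w)
    (hg : ∀ w, w0 < w → w < w1 → HasDerivAt g (dg w) w)
    (hdx : ∀ w, w0 < w → w < w1 → dx w < 0) (hpos : ∀ w, w0 < w → w < w1 → 0 < x w)
    (hg0 : ∀ w, w0 < w → w < w1 → 0 ≤ g w)
    (hs : ∀ w, w0 < w → w < w1 → ∑' m, a m * ENNReal.ofReal (x w) ^ m = ENNReal.ofReal (g w))
    {w : ℝ} (h0 : w0 < w) (h1 : w < w1) :
    ∑' m : ℕ, (m : ℝ≥0∞) * a m * ENNReal.ofReal (x w) ^ m =
      ENNReal.ofReal (x w * dg w / dx w) := by
  have hanti : StrictAntiOn x (Set.Ioo w0 w1) := by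
    refine strictAntiOn_of_deriv_neg (convex_Ioo _ _)
      (fun w hw => (hx w hw.1 hw.2).continuousAt.continuousWithinAt) fun w hw => ?_
    rw [interior_Ioo] at hw
    rw [(hx w hw.1 hw.2).deriv]
    exact hdx w hw.1 hw.2
  obtain ⟨v, hv0, hv1⟩ := exists_between h0
  have hb : x w < x v := hanti ⟨hv0, hv1.trans h1⟩ ⟨h0, h1⟩ hv1
  have hfin : ∑' m, a m * ENNReal.ofReal (x v) ^ m ≠ ⊤ := by
    rw [hs v hv0 (hv1.trans h1)]
    exact ENNReal.ofReal_ne_top
  obtain ⟨hD, hF⟩ := nonneg_series_deriv a (hpos v hv0 (hv1.trans h1)) hfin (hpos w h0 h1) hb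
  have e1 := hF.comp w (hx w h0 h1)
  have e2 : (fun z => (∑' n, a n * ENNReal.ofReal z ^ n).toReal) ∘ x =ᶠ[𝓝 w] g := by
    filter_upwards [lt_mem_nhds h0, gt_mem_nhds h1] with y hy0 hy1
    show (∑' n, a n * ENNReal.ofReal (x y) ^ n).toReal = g y
    rw [hs y hy0 hy1, ENNReal.toReal_ofReal (hg0 y hy0 hy1)]
  have e3 := (hg w h0 h1).congr_of_eventuallyEq e2
  have e4 := e1.unique e3
  have hdx0 := (hdx w h0 h1).ne
  have e5 : (∑' n : ℕ, (n : ℝ≥0∞) * (a n * ENNReal.ofReal (x w) ^ (n - 1))).toReal =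
      dg w / dx w := by
    rw [eq_div_iff hdx0, e4]
  have e6 : ∑' n : ℕ, (n : ℝ≥0∞) * (a n * ENNReal.ofReal (x w) ^ (n - 1)) =
      ENNReal.ofReal (dg w / dx w) := by
    rw [← e5, ENNReal.ofReal_toReal hD]
  have e7 : ∑' m : ℕ, (m : ℝ≥0∞) * a m * ENNReal.ofReal (x w) ^ m =
      ENNReal.ofReal (x w) * ∑' n : ℕ, (n : ℝ≥0∞) * (a n * ENNReal.ofReal (x w) ^ (n - 1)) := by
    rw [← ENNReal.tsum_mul_left]
    refine tsum_congr fun m => ?_
    rcases Nat.eq_zero_or_pos m with h | h
    · subst h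
      simp
    · obtain ⟨k, rfl⟩ := Nat.exists_eq_add_of_le' h
      rw [Nat.add_sub_cancel, pow_succ]
      ring
  rw [e7, e6, ← ENNReal.ofReal_mul (hpos w h0 h1).le, mul_div_assoc]

/-- The value at the end: the sum of the series is a continuous function of `X` on `[0, R)` (dominated convergence: `tendsto_tsum_of_dominated_convergence` for the real series, the bound is the
convergent series at a point `x w' > b`), and `x w → b`, `g w → g w1`. -/
theorem series_at (a : ℕ → ℝ≥0∞) (x g : ℝ → ℝ) {w0 w1 b : ℝ} (h01 : w0 < w1) (hb : 0 ≤ b)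
    (hx : ContinuousOn x (Set.Ioc w0 w1)) (hg : ContinuousOn g (Set.Ioc w0 w1))
    (hx1 : x w1 = b) (hxb : ∀ w, w0 < w → w < w1 → b < x w)
    (hg0 : ∀ w, w0 < w → w < w1 → 0 ≤ g w)
    (hs : ∀ w, w0 < w → w < w1 → ∑' m, a m * ENNReal.ofReal (x w) ^ m = ENNReal.ofReal (g w)) :
    ∑' m, a m * ENNReal.ofReal b ^ m = ENNReal.ofReal (g w1) := by
  obtain ⟨v, hv0, hv1⟩ := exists_between h01
  have hB := hxb v hv0 hv1
  have hB0 : 0 < x v := hb.trans_lt hB
  have hfin : ∑' m, a m * ENNReal.ofReal (x v) ^ m ≠ ⊤ := by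
    rw [hs v hv0 hv1]
    exact ENNReal.ofReal_ne_top
  have ha : ∀ m, a m ≠ ⊤ := by
    intro m h
    have h1 := ENNReal.ne_top_of_tsum_ne_top hfin m
    rw [h] at h1
    refine h1 (ENNReal.top_mul ?_)
    exact pow_ne_zero _ (ENNReal.ofReal_pos.2 hB0).ne'
  have hterm : ∀ z, 0 ≤ z → ∀ m, a m * ENNReal.ofReal z ^ m =
      ENNReal.ofReal ((a m).toReal * z ^ m) := by
    intro z hz m
    rw [ENNReal.ofReal_mul ENNReal.toReal_nonneg, ENNReal.ofReal_toReal (ha m),
      ENNReal.ofReal_pow hz]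
  have hnn : ∀ z, 0 ≤ z → ∀ m, 0 ≤ (a m).toReal * z ^ m :=
    fun z hz m => mul_nonneg ENNReal.toReal_nonneg (pow_nonneg hz m)
  have hsum : Summable fun m => (a m).toReal * x v ^ m := by
    have h1 := ENNReal.summable_toReal hfin
    refine h1.congr fun m => ?_
    rw [hterm _ hB0.le m, ENNReal.toReal_ofReal (hnn _ hB0.le m)]
  have hle : ∀ z, z ∈ Set.Icc 0 (x v) → ∀ m, ‖(a m).toReal * z ^ m‖ ≤ (a m).toReal * x v ^ m := by
    intro z hz m
    rw [Real.norm_of_nonneg (hnn z hz.1 m)]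
    exact mul_le_mul_of_nonneg_left (pow_le_pow_left₀ hz.1 hz.2 m) ENNReal.toReal_nonneg
  have hval : ∀ z, z ∈ Set.Icc 0 (x v) → ∑' m, a m * ENNReal.ofReal z ^ m =
      ENNReal.ofReal (∑' m, (a m).toReal * z ^ m) := by
    intro z hz
    rw [ENNReal.ofReal_tsum_of_nonneg (hnn z hz.1)
      (Summable.of_norm_bounded hsum (hle z hz))]
    exact tsum_congr (hterm z hz.1)
  have hcont : ContinuousOn (fun z => ∑' m, (a m).toReal * z ^ m) (Set.Icc 0 (x v)) :=
    continuousOn_tsum (fun m => by fun_prop) hsum fun m z hz => hle z hz m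
  have hbm : b ∈ Set.Icc 0 (x v) := ⟨hb, hB.le⟩
  have hI : Set.Ioo w0 w1 ∈ 𝓝[<] w1 := Ioo_mem_nhdsLT h01
  have hlim : ∀ f : ℝ → ℝ, ContinuousOn f (Set.Ioc w0 w1) → Tendsto f (𝓝[<] w1) (𝓝 (f w1)) := by
    intro f hf
    have h1 := hf w1 ⟨h01, le_rfl⟩
    refine h1.mono_left ?_
    rw [nhdsWithin_le_iff]
    filter_upwards [hI] with w hw using ⟨hw.1, hw.2.le⟩
  have hxl := hlim x hx
  rw [hx1] at hxl
  have hev : ∀ᶠ w in 𝓝[<] w1, x w ∈ Set.Icc 0 (x v) := by
    filter_upwards [hI, hxl.eventually (gt_mem_nhds hB)] with w hw hw'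
    exact ⟨(hb.trans_lt (hxb w hw.1 hw.2)).le, hw'.le⟩
  have hxl' : Tendsto x (𝓝[<] w1) (𝓝[Set.Icc 0 (x v)] b) := tendsto_nhdsWithin_iff.2 ⟨hxl, hev⟩
  have hF1 : Tendsto (fun w => ∑' m, (a m).toReal * x w ^ m) (𝓝[<] w1)
      (𝓝 (∑' m, (a m).toReal * b ^ m)) := (hcont b hbm).tendsto.comp hxl'
  have hF2 : Tendsto (fun w => ∑' m, (a m).toReal * x w ^ m) (𝓝[<] w1) (𝓝 (g w1)) := by
    refine (hlim g hg).congr' ?_
    filter_upwards [hI, hev] with w hw hw'
    have h1 := hs w hw.1 hw.2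
    rw [hval _ hw'] at h1
    exact ((ENNReal.ofReal_eq_ofReal_iff (tsum_nonneg (hnn _ hw'.1)) (hg0 w hw.1 hw.2)).1 h1).symm
  rw [hval b hbm, tendsto_nhds_unique hF1 hF2]

end PGr

end

section
/-! # Module RgCut: sets of cut 4 at the root vertex, if all maximal sets are single edges -/

set_option linter.unusedSectionVars false

namespace PGr
open Equiv Finset

section
variable {T : Type*} [Fintype T] [DecidableEq T] {a s ρ : Perm T} {k : ℕ} {r : T}

private theorem two_le (h : Good a s) {A : Finset T} (hA : Cl a A) (hne : A.Nonempty) :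
    2 ≤ A.card := by
  obtain ⟨t, ht⟩ := hne
  have h1 : ({t, a t} : Finset T) ⊆ A := by
    intro u hu
    rw [mem_insert, mem_singleton] at hu
    rcases hu with rfl | rfl
    · exact ht
    · exact (hA t).2 ht
  have h2 := card_le_card h1
  rwa [card_pair (h.fpf t).symm] at h2

private theorem eq_pair (h : Good a s) {A : Finset T} (hA : Cl a A) (hc : A.card = 2) {t : T}
    (ht : t ∈ A) : A = {t, a t} := by
  symm
  refine eq_of_subset_of_card_le ?_ ?_
  · intro u hu
    rw [mem_insert, mem_singleton] at hu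
    rcases hu with rfl | rfl
    · exact ht
    · exact (hA t).2 ht
  · rw [hc, card_pair (h.fpf t).symm]

/-- a `VS` has two elements: `exists_maxV`; a nonempty closed set has at least two elements -/
theorem rg_VS (h : Good a s) (hr : Rot a s ρ k r) (h2 : ∀ A, MaxV a s ρ k r A → A.card = 2)
    {A : Finset T} (hA : VS a s ρ k r A) : A.card = 2 := by
  obtain ⟨B, hB, hs⟩ := exists_maxV hA
  have h1 := card_le_card hs
  rw [h2 B hB] at h1
  obtain ⟨t, ht, -⟩ := hA.root
  exact le_antisymm h1 (two_le h hA.cl ⟨t, ht⟩)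

private theorem shC_compl {A : Finset T} {t : T} (h : ShC s A t) : ShC s Aᶜ t := by
  obtain ⟨⟨u, hu, hu'⟩, v, hv, hv'⟩ := h
  exact ⟨⟨v, mem_compl.2 hv, hv'⟩, u, fun hh => (mem_compl.1 hh) hu, hu'⟩

private theorem tr_card (i : ℕ) (A : Finset T) : (tr ρ i A).card = A.card := card_map _

/-- a translate is different -/
private theorem tr_ne (h : Good a s) (hr : Rot a s ρ k r) {A : Finset T} (hA : Cl a A)
    (h4 : cut s A = 4) (hs : ShC s A r) {i : ℕ} (h0 : 0 < i) (h1 : i < k) : tr ρ i A ≠ A := by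
  intro he
  obtain ⟨z, hz1, hz2, hz3⟩ := exists_exit hs
  have h5 : (ρ ^ i) z ∈ A := by
    rw [← he]
    exact mem_tr.2 hz2
  have h6 : s ((ρ ^ i) z) ∉ A := by
    rw [← hr.pow_s, ← he, mem_tr]
    exact hz3
  have h7 := h.exit_unique hA h4 hz2 hz3 h5 h6 (hz1.symm.trans ((hr.pow_root i).2 hz1))
  exact hr.free z i h0 h1 h7.symm

private theorem sdiffs {A B : Finset T} (hc : A.card = B.card) (hne : B ≠ A) :
    (A \ B).Nonempty ∧ (B \ A).Nonempty := by
  constructor
  · rw [sdiff_nonempty]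
    intro hs
    exact hne (eq_of_subset_of_card_le hs hc.ge).symm
  · rw [sdiff_nonempty]
    intro hs
    exact hne (eq_of_subset_of_card_le hs hc.le)

private theorem inter_of {i : ℕ} {t : T} {A : Finset T} (ht : (ρ ^ i) t ∈ A) (ht' : t ∈ A) :
    (A ∩ tr ρ i A).Nonempty := ⟨_, mem_inter.2 ⟨ht, mem_tr.2 ht'⟩⟩

private theorem card_aux {A B : Finset T} (hc : A.card = B.card) :
    (A ∪ B).card + (A ∩ B).card = 2 * A.card := by
  rw [card_union_add_card_inter, hc]
  ring

/-- the family in (3) -/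
private structure Fm (a s : Perm T) (r x : T) (C : Finset T) : Prop where
  cl : Cl a C
  cut4 : cut s C = 4
  r : ShC s C r
  x : ShC s C x
  c2 : C.card ≠ 2
  c2' : Cᶜ.card ≠ 2

private theorem Fm.compl {x : T} {C : Finset T} (hC : Fm a s r x C) : Fm a s r x Cᶜ :=
  ⟨hC.cl.compl, by rw [cut_compl, hC.cut4], shC_compl hC.r, shC_compl hC.x, hC.c2',
    by rw [compl_compl]; exact hC.c2⟩

private theorem Fm.three (h : Good a s) {x : T} {C : Finset T} (hC : Fm a s r x C) :
    3 ≤ Cᶜ.card := by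
  obtain ⟨-, v, hv, -⟩ := hC.r
  have h1 := two_le h hC.cl.compl ⟨v, mem_compl.2 hv⟩
  have h2 := hC.c2'
  omega

/-- a smaller set with the ends `r` and `x` has two elements -/
private theorem small (h : Good a s) {x : T} {C E : Finset T} (hC : Fm a s r x C)
    (hmin : ∀ C', Fm a s r x C' → C.card ≤ C'.card) (hE : Cl a E) (h4 : cut s E = 4) (hs : E ⊆ C)
    (hlt : E.card < C.card) (hr : ∃ t ∈ E, s.SameCycle r t) (hx : ∃ t ∈ E, s.SameCycle x t) :
    E.card = 2 := by
  by_contra hne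
  have h1 : Fm a s r x E := by
    refine ⟨hE, h4, ⟨hr, ?_⟩, ⟨hx, ?_⟩, hne, ?_⟩
    · obtain ⟨-, v, hv, hv'⟩ := hC.r
      exact ⟨v, fun hh => hv (hs hh), hv'⟩
    · obtain ⟨-, v, hv, hv'⟩ := hC.x
      exact ⟨v, fun hh => hv (hs hh), hv'⟩
    · have h2 := hC.three h
      have h3 : Cᶜ ⊆ Eᶜ := compl_subset_compl.2 hs
      have h4 := card_le_card h3
      omega
  have := hmin E h1
  omega

/-- Proof.  (1) Let `A` be closed, `cut s A = 4`, `ShC s A r`, and suppose that neither `A` nor `Aᶜ` has two elements.  Then neither is `VS`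
(`rg_VS`), so `exists_meet` gives `0 < i < k` with `A ∩ tr ρ i A` nonempty and `0 < j < k` with `A ∪ tr ρ j A ≠ univ` (`exists_meet` for `Aᶜ`).
There is one exponent (`i` or `j`) with both properties: if `A ∪ tr ρ i A = univ`, then `2 |A| > |T|`, so `A ∩ tr ρ j A` is not empty
(otherwise `2 |A| ≤ |T|`).  Call it `i` and `B = tr ρ i A`.  `A ≠ B`: the exit `z` of `A` at `r` (`exists_exit`) would be mapped to an exit of
`B = A` at `r`, so `(ρ ^ i) z = z` by `exit_unique`, against `Rot.free`.  As `|A| = |B|`, `A \ B` and `B \ A` are nonempty.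
(2) `cross_meet` for `Aᶜ`, `Bᶜ` gives a dart outside `A ∪ B` at `r`.  Let `x` be the other end of `A` (`Good.ends`); `cross_end`: `ShC s B x`.
`B` has also the end `(ρ ^ i) x`, which is not at the vertex of `r`, so `x ~ (ρ ^ i) x` (`ends_two`) and `ρ x ~ x` (`Rot.fixed_of_pow`).
(3) Let `F` be the family of the closed sets `C` with `cut s C = 4`, `ShC s C r`, `ShC s C x`, `4 ≤ |C|`, `4 ≤ |Cᶜ|` (`|C| = 2` is excluded for `A`
and its complement, and the cardinality of a closed set is even).  It contains `A` and is invariant under complements.  Let `C` be an element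
with `|C|` minimal; so `2 |C| ≤ |T|`.  `C` is not `VS` (`rg_VS`), so `C` meets `D = tr ρ i C` for some `0 < i < k` (`exists_meet`), `C ∪ D ≠ univ` (`2 |C| ≤ |T|`), `C ≠ D` as in (1).
`C ∩ D` and `C \ D` are closed with cut 4 (`NS.uncross`, `NS.uncross_sdiff`, or `uncross` for `C` and `Dᶜ`).  Each of them contains a dart at `r`
(`cross_meet` for `C`, `D`, resp. for `C`, `Dᶜ`) and a dart at `x` (`cross_meet` at `x`: `ShC s D x` since `x ~ (ρ ^ i) x`), and the vertices of `r` and `x`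
have a dart outside `C`; so both have the ends `r` and `x`.  By minimality both have two elements (their complements are
larger than `Cᶜ`).  So `C = {t, a t} ∪ {t', a t'}` with `t ≠ t'` at `r` and `a t`, `a t'` at `x` (`noLoop`).
(4) `C` has only one exit at `r` (`exit_unique`), so `s t ∈ C` or `s t' ∈ C`; the darts of `C` at `r` are `t`, `t'` and `s t ≠ t` (`Good.s_ne`), so `s t = t'` or
`s t' = t`.  Say `s t = t'`.  `{t, a t}` and `{t', a t'}` are `VS` (`VS.pair`) and maximal (`exists_maxV`: the maximal set containing it has two elements).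
`bd_of_adj_root` for them, `c = t`, gives `Bd`, contradiction. -/
theorem rg_cut (h : Good a s) (hr : Rot a s ρ k r) (hn : ¬ Bd a s ρ k r)
    (h2 : ∀ A, MaxV a s ρ k r A → A.card = 2) {A : Finset T} (hA : Cl a A) (h4 : cut s A = 4)
    (hs : ShC s A r) : A.card = 2 ∨ Aᶜ.card = 2 := by
  classical
  by_contra hcon
  rw [not_or] at hcon
  obtain ⟨hc1, hc2⟩ := hcon
  -- (1)
  obtain ⟨m, hm0, hmk, hmi, hmu⟩ : ∃ m, 0 < m ∧ m < k ∧ (A ∩ tr ρ m A).Nonempty ∧
      A ∪ tr ρ m A ≠ univ := by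
    obtain ⟨i, t, hi0, hik, ht, ht'⟩ := exists_meet (ρ := ρ) (k := k) hA h4 hs.1
      fun hv => hc1 (rg_VS h hr h2 hv)
    obtain ⟨j, u, hj0, hjk, hu, hu'⟩ := exists_meet (ρ := ρ) (k := k) hA.compl
      ((cut_compl s A).trans h4) (shC_compl hs).1 fun hv => hc2 (rg_VS h hr h2 hv)
    by_cases hun : A ∪ tr ρ i A = univ
    · refine ⟨j, hj0, hjk, ?_, ?_⟩
      · by_contra hempty
        have h5 := card_aux (A := A) (B := tr ρ i A) (tr_card i A).symm
        have h6 := card_aux (A := A) (B := tr ρ j A) (tr_card j A).symm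
        rw [not_nonempty_iff_eq_empty.1 hempty, card_empty] at h6
        rw [hun, card_univ] at h5
        have h7 : 0 < (A ∩ tr ρ i A).card := card_pos.2 (inter_of ht' ht)
        have h8 : (A ∪ tr ρ j A).card ≤ Fintype.card T := card_le_univ _
        omega
      · intro hh
        have h5 : (ρ ^ j) u ∈ A ∪ tr ρ j A := by rw [hh]; exact mem_univ _
        rw [mem_union, mem_tr] at h5
        rcases h5 with h5 | h5
        · exact (mem_compl.1 hu') h5
        · exact (mem_compl.1 hu) h5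
    · exact ⟨i, hi0, hik, inter_of ht' ht, hun⟩
  set B := tr ρ m A with hB
  have hBne : B ≠ A := tr_ne h hr hA h4 hs hm0 hmk
  obtain ⟨hab, hba⟩ := sdiffs (A := A) (B := B) (tr_card m A).symm hBne
  have hBcl : Cl a B := tr_cl hr m hA
  have hBcut : cut s B = 4 := (tr_cut hr m).trans h4
  have hBr : ShC s B r :=
    BondA_shC_sc (BondA_shC_tr hr m hs) ((hr.pow_root m).2 (Perm.SameCycle.refl _ _)).symm
  -- (2)
  obtain ⟨o, ho, hor⟩ : ∃ t ∈ Aᶜ ∩ Bᶜ, s.SameCycle r t := by
    refine h.cross_meet hA.compl hBcl.compl ((cut_compl s A).trans h4)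
      ((cut_compl s B).trans hBcut) ?_ ?_ ?_ ?_ (shC_compl hs) (shC_compl hBr)
    · rw [← compl_union, nonempty_iff_ne_empty, Ne, compl_eq_empty_iff]
      exact hmu
    · rw [← compl_inter, Ne, compl_eq_univ_iff, ← Ne, ← nonempty_iff_ne_empty]
      exact hmi
    · obtain ⟨u, hu⟩ := hba
      rw [mem_sdiff] at hu
      exact ⟨u, by simp [hu.1, hu.2]⟩
    · obtain ⟨u, hu⟩ := hab
      rw [mem_sdiff] at hu
      exact ⟨u, by simp [hu.1, hu.2]⟩
  rw [mem_inter, mem_compl, mem_compl] at ho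
  obtain ⟨x, hxA, hrx, -⟩ := h.ends hA h4 hs
  have hxB : ShC s B x := h.cross_end hA hBcl h4 hBcut hmi hmu hab hba hs hBr
    ⟨o, fun hh => (mem_union.1 hh).elim ho.1 ho.2, hor⟩ hxA hrx
  have hxB' : ShC s B ((ρ ^ m) x) := BondA_shC_tr hr m hxA
  have hrx' : ¬ s.SameCycle r ((ρ ^ m) x) := fun hh => hrx ((hr.pow_root m).1 hh)
  have hxx : s.SameCycle x ((ρ ^ m) x) := h.ends_two hBcl hBcut hBr hxB hxB' hrx hrx'
  have hx1 : s.SameCycle x (ρ x) := (hr.fixed_of_pow h hm0 hmk).1 hxx
  have hxi : ∀ i, s.SameCycle x ((ρ ^ i) x) := by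
    intro i
    induction i with
    | zero => exact Perm.SameCycle.refl _ _
    | succ n ih =>
      rw [pow_succ, Perm.mul_apply]
      exact ih.trans (BondA_sc hr n hx1)
  -- (3)
  obtain ⟨C, hCm, hmin⟩ := (univ.filter fun C => Fm a s r x C).exists_min_image card
    ⟨A, by
      rw [mem_filter]
      exact ⟨mem_univ _, hA, h4, hs, hxA, hc1, hc2⟩⟩
  have hC : Fm a s r x C := (mem_filter.1 hCm).2
  have hmin' : ∀ C', Fm a s r x C' → C.card ≤ C'.card := fun C' hC' =>
    hmin C' (mem_filter.2 ⟨mem_univ _, hC'⟩)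
  have hhalf : 2 * C.card ≤ Fintype.card T := by
    have h5 := hmin' _ hC.compl
    have h6 := card_add_card_compl C
    omega
  obtain ⟨i, t0, hi0, hik, ht0, ht0'⟩ := exists_meet (ρ := ρ) (k := k) hC.cl hC.cut4 hC.r.1
    fun hv => hC.c2 (rg_VS h hr h2 hv)
  set D := tr ρ i C with hD
  have hDne : D ≠ C := tr_ne h hr hC.cl hC.cut4 hC.r hi0 hik
  obtain ⟨hcd, hdc⟩ := sdiffs (A := C) (B := D) (tr_card i C).symm hDne
  have hDcl : Cl a D := tr_cl hr i hC.cl
  have hDcut : cut s D = 4 := (tr_cut hr i).trans hC.cut4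
  have hDr : ShC s D r :=
    BondA_shC_sc (BondA_shC_tr hr i hC.r) ((hr.pow_root i).2 (Perm.SameCycle.refl _ _)).symm
  have hDx : ShC s D x := BondA_shC_sc (BondA_shC_tr hr i hC.x) (hxi i).symm
  have hCD : (C ∩ D).Nonempty := inter_of ht0' ht0
  have hCDu : C ∪ D ≠ univ := by
    intro hh
    have h5 := card_aux (A := C) (B := D) (tr_card i C).symm
    have h6 : 0 < (C ∩ D).card := card_pos.2 hCD
    rw [hh, card_univ] at h5
    omega
  have hcutI := (h.ns.uncross hC.cl hDcl hC.cut4 hDcut hCD hCDu).1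
  have hcutS := (h.ns.uncross_sdiff hC.cl hDcl hC.cut4 hDcut hcd hdc).1
  have hI : ∀ {y : T}, ShC s C y → ShC s D y → ∃ t ∈ C ∩ D, s.SameCycle y t := fun h5 h6 =>
    h.cross_meet hC.cl hDcl hC.cut4 hDcut hCD hCDu hcd hdc h5 h6
  have hS : ∀ {y : T}, ShC s C y → ShC s D y → ∃ t ∈ C \ D, s.SameCycle y t := by
    intro y h5 h6
    obtain ⟨t, ht, ht'⟩ := h.cross_meet hC.cl hDcl.compl hC.cut4 ((cut_compl s D).trans hDcut)
      (r := y) (by
        obtain ⟨u, hu⟩ := hcd
        rw [mem_sdiff] at hu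
        exact ⟨u, by simp [hu.1, hu.2]⟩) (by
        intro hh
        obtain ⟨u, hu⟩ := hdc
        rw [mem_sdiff] at hu
        have h7 : u ∈ C ∪ Dᶜ := by rw [hh]; exact mem_univ _
        rw [mem_union, mem_compl] at h7
        tauto) (by
        obtain ⟨u, hu⟩ := hCD
        rw [mem_inter] at hu
        exact ⟨u, by simp [hu.1, hu.2]⟩) (by
        by_contra hh
        apply hCDu
        rw [eq_univ_iff_forall]
        intro u
        by_contra hu
        rw [mem_union, not_or] at hu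
        exact hh ⟨u, by simp [hu.1, hu.2]⟩) h5 (shC_compl h6)
    rw [mem_inter, mem_compl] at ht
    exact ⟨t, mem_sdiff.2 ht, ht'⟩
  have hIcard : (C ∩ D).card < C.card := by
    refine card_lt_card ⟨inter_subset_left, fun hh => ?_⟩
    obtain ⟨u, hu⟩ := hcd
    rw [mem_sdiff] at hu
    exact hu.2 (mem_inter.1 (hh hu.1)).2
  have hScard : (C \ D).card < C.card := by
    refine card_lt_card ⟨sdiff_subset, fun hh => ?_⟩
    obtain ⟨u, hu⟩ := hCD
    rw [mem_inter] at hu
    exact (mem_sdiff.1 (hh hu.1)).2 hu.2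
  have hI2 : (C ∩ D).card = 2 := small h hC hmin' (hC.cl.inter hDcl) hcutI inter_subset_left hIcard
    (hI hC.r hDr) (hI hC.x hDx)
  have hS2 : (C \ D).card = 2 := small h hC hmin' (hC.cl.sdiff hDcl) hcutS sdiff_subset hScard
    (hS hC.r hDr) (hS hC.x hDx)
  obtain ⟨t, ht, htr⟩ := hI hC.r hDr
  obtain ⟨t', ht', htr'⟩ := hS hC.r hDr
  have hIe := eq_pair h (hC.cl.inter hDcl) hI2 ht
  have hSe := eq_pair h (hC.cl.sdiff hDcl) hS2 ht'
  have hatx : s.SameCycle x (a t) := by
    obtain ⟨u, hu, hux⟩ := hI hC.x hDx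
    rw [hIe, mem_insert, mem_singleton] at hu
    rcases hu with rfl | rfl
    · exact absurd (htr.trans hux.symm) hrx
    · exact hux
  have hatx' : s.SameCycle x (a t') := by
    obtain ⟨u, hu, hux⟩ := hS hC.x hDx
    rw [hSe, mem_insert, mem_singleton] at hu
    rcases hu with rfl | rfl
    · exact absurd (htr'.trans hux.symm) hrx
    · exact hux
  -- elements of `C` at `r`
  have hCr : ∀ u ∈ C, s.SameCycle r u → u = t ∨ u = t' := by
    intro u hu hur
    by_cases huD : u ∈ D
    · have h5 : u ∈ C ∩ D := mem_inter.2 ⟨hu, huD⟩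
      rw [hIe, mem_insert, mem_singleton] at h5
      rcases h5 with h5 | h5
      · exact Or.inl h5
      · rw [h5] at hur
        exact absurd (hur.trans hatx.symm) hrx
    · have h5 : u ∈ C \ D := mem_sdiff.2 ⟨hu, huD⟩
      rw [hSe, mem_insert, mem_singleton] at h5
      rcases h5 with h5 | h5
      · exact Or.inr h5
      · rw [h5] at hur
        exact absurd (hur.trans hatx'.symm) hrx
  have htC := (mem_inter.1 ht)
  have htC' := (mem_sdiff.1 ht')
  have htt : t ≠ t' := fun he => htC'.2 (he ▸ htC.2)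
  -- the maximal sets
  have hmax : ∀ u, s.SameCycle r u → MaxV a s ρ k r {u, a u} := by
    intro u hu
    obtain ⟨M, hM, hMs⟩ := exists_maxV (VS.pair h hr hu)
    have h5 : ({u, a u} : Finset T) = M := by
      refine eq_of_subset_of_card_le hMs ?_
      rw [h2 M hM, card_pair (h.fpf u).symm]
    rw [h5]
    exact hM
  have hsr : ∀ u, s.SameCycle r u → s.SameCycle r (s u) := fun u hu =>
    hu.trans ⟨1, by rw [zpow_one]⟩
  have n1 : t' ≠ a t := fun he => hrx ((htr'.trans (by rw [he])).trans hatx.symm)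
  have n2 : t ≠ a t' := fun he => hrx ((htr.trans (by rw [he])).trans hatx'.symm)
  have n3 : a t ≠ a t' := fun he => htt (a.injective he)
  have sh1 : ShC s {t, a t} x := ⟨⟨a t, by simp, hatx⟩, a t', by
    rw [mem_insert, mem_singleton, not_or]
    exact ⟨fun he => n2 he.symm, fun he => n3 he.symm⟩, hatx'⟩
  have sh2 : ShC s {t', a t'} x := ⟨⟨a t', by simp, hatx'⟩, a t, by
    rw [mem_insert, mem_singleton, not_or]
    exact ⟨fun he => n1 he.symm, n3⟩, hatx⟩
  -- (4)
  by_cases h5 : s t ∈ C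
  · have h6 : s t = t' := (hCr _ h5 (hsr t htr)).resolve_left (h.s_ne t)
    refine hn (bd_of_adj_root h hr (hmax t htr) (hmax t' htr') (c := t) (x := x) (by simp) ?_ ?_
      htr sh1 sh2 hrx)
    · rw [h6, mem_insert, mem_singleton, not_or]
      exact ⟨htt.symm, n1⟩
    · rw [h6]
      simp
  · by_cases h6 : s t' ∈ C
    · have h7 : s t' = t := (hCr _ h6 (hsr t' htr')).resolve_right (h.s_ne t')
      refine hn (bd_of_adj_root h hr (hmax t' htr') (hmax t htr) (c := t') (x := x) (by simp) ?_ ?_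
        htr' sh2 sh1 hrx)
      · rw [h7, mem_insert, mem_singleton, not_or]
        exact ⟨htt, n2⟩
      · rw [h7]
        simp
    · exact htt (h.exit_unique hC.cl hC.cut4 htC.1 h5 htC'.1 h6 (htr.symm.trans htr'))

end

end PGr

end

section
/-! # Module ZTypes: the maps of `ZC` are neither digons nor series nor parallel; the nets at the root vertex -/

set_option linter.unusedSectionVars false

namespace PGr
open Equiv Finset

section
variable {M : BMap} {k : ℕ}


open CompFour CompInj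

private theorem zt_inv {T : Type*} (s : Perm T) (x : T) : s (s⁻¹ x) = x := s.apply_symm_apply x

private theorem zt_s1 {T : Type*} [Fintype T] [DecidableEq T] {s : Perm T} {r : T}
    (h3 : 3 ≤ dgs s r) {n : ℕ} (h0 : 0 < n) (h2 : n ≤ 2) : (s ^ n) r ≠ r := by
  intro h
  have h4 := Nat.le_of_dvd h0 ((Poles_dgs s r n).1 h)
  omega

/-- a maximal set containing a single edge at the root vertex is this edge -/
private theorem zt_max {T : Type*} [Fintype T] [DecidableEq T] {a s ρ : Perm T} {r t : T}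
    (h : Good a s) (hr : Rot a s ρ k r) (h2 : ∀ A, MaxV a s ρ k r A → A.card = 2)
    (ht : s.SameCycle r t) : MaxV a s ρ k r {t, a t} := by
  obtain ⟨B, hB, hsub⟩ := exists_maxV (VS.pair h hr ht)
  have h3 : ({t, a t} : Finset T) = B := by
    apply Finset.eq_of_subset_of_card_le hsub
    rw [h2 B hB, card_pair (h.fpf t).symm]
  rw [h3]
  exact hB

/-- a prefix-like set of cut 4 at the root vertex, if all maximal sets are single edges, is the edge of
`s (inr true)` -/
private theorem zt_pref (hM : M.IsGood) (h : ZC k M) {A : Finset M.T} (hcl : Cl M.aa A)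
    (hroot : Sum.inr true ∉ A) (hfst : M.s (Sum.inr true) ∈ A) (hrest : A ∪ M.root ≠ univ)
    (h4 : cut M.s A = 4) : A = {M.s (Sum.inr true), M.aa (M.s (Sum.inr true))} := by
  obtain ⟨⟨ρ, hr, hn, h2⟩, -⟩ := h
  have hsh : ShC M.s A (Sum.inr true) :=
    ⟨⟨_, hfst, CompVAux.sc_apply _ _⟩, Sum.inr true, hroot, Perm.SameCycle.refl _ _⟩
  have hsub : ({M.s (Sum.inr true), M.aa (M.s (Sum.inr true))} : Finset M.T) ⊆ A := by
    intro x hx
    rw [mem_insert, mem_singleton] at hx
    rcases hx with rfl | rfl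
    · exact hfst
    · exact (hcl _).2 hfst
  rcases rg_cut hM hr hn h2 hcl h4 hsh with h5 | h5
  · symm
    apply Finset.eq_of_subset_of_card_le hsub
    rw [h5, card_pair (hM.fpf _).symm]
  · exfalso
    apply hrest
    have h6 : M.root = Aᶜ := by
      apply Finset.eq_of_subset_of_card_le
      · intro x hx
        obtain ⟨b, rfl⟩ := mem_root.1 hx
        rw [mem_compl]
        intro h7
        exact hroot ((inr_mem_iff hcl b true).1 h7)
      · rw [h5, BMap.root, card_pair (by simp)]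
    rw [h6, union_compl]

/-- the root vertex has at most `|T| / 2` darts (`Good.noLoop`), so `6 ≤ |T|` -/
theorem ZC.card (hM : M.IsGood) (h : ZC k M) : 4 ≤ Fintype.card M.D := by
  classical
  have h3 := h.2
  have e1 : M.s (Sum.inr true) ≠ Sum.inr true := by
    have := zt_s1 h3 (n := 1) (by norm_num) (by norm_num)
    rwa [pow_one] at this
  have e2 : M.s (M.s (Sum.inr true)) ≠ Sum.inr true := by
    have := zt_s1 h3 (n := 2) (by norm_num) (by norm_num)
    rwa [pow_two, Perm.mul_apply] at this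
  have e3 : M.s (M.s (Sum.inr true)) ≠ M.s (Sum.inr true) := fun h4 => e1 (M.s.injective h4)
  have c1 : M.s.SameCycle (Sum.inr true) (M.s (Sum.inr true)) := CompVAux.sc_apply _ _
  have c2 : M.s.SameCycle (Sum.inr true) (M.s (M.s (Sum.inr true))) :=
    c1.trans (CompVAux.sc_apply _ _)
  have hX : ({Sum.inr true, M.s (Sum.inr true), M.s (M.s (Sum.inr true))} : Finset M.T).card
      = 3 :=
    card_eq_three.2 ⟨_, _, _, e1.symm, e2.symm, e3.symm, rfl⟩
  have hc : ∀ x ∈ ({Sum.inr true, M.s (Sum.inr true), M.s (M.s (Sum.inr true))} :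
      Finset M.T), M.s.SameCycle (Sum.inr true) x := by
    intro x hx
    rw [mem_insert, mem_insert, mem_singleton] at hx
    rcases hx with rfl | rfl | rfl
    · exact Perm.SameCycle.refl _ _
    · exact c1
    · exact c2
  have hd : Disjoint ({Sum.inr true, M.s (Sum.inr true), M.s (M.s (Sum.inr true))} :
      Finset M.T) (({Sum.inr true, M.s (Sum.inr true), M.s (M.s (Sum.inr true))} :
      Finset M.T).map M.aa.toEmbedding) := by
    rw [disjoint_left]
    intro x hx hx'
    obtain ⟨y, hy, hyx⟩ := mem_map.1 hx'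
    have h5 := hc x hx
    rw [← hyx] at h5
    exact hM.noLoop y ((hc y hy).symm.trans h5)
  have h5 := card_le_univ (({Sum.inr true, M.s (Sum.inr true), M.s (M.s (Sum.inr true))} :
      Finset M.T) ∪ (({Sum.inr true, M.s (Sum.inr true), M.s (M.s (Sum.inr true))} :
      Finset M.T).map M.aa.toEmbedding))
  rw [card_union_of_disjoint hd, card_map, hX] at h5
  have h6 : Fintype.card M.T = Fintype.card M.D + 2 := by
    change Fintype.card (M.D ⊕ Bool) = _
    rw [Fintype.card_sum, Fintype.card_bool]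
  omega

/-- Proof.  Let `A` be a prefix with `s⁻¹ (inr true) ∈ A` (and `s (inr true) ∈ A`).  `ShC s A (inr true)`; `rg_cut`: `|A| = 2` or `|Aᶜ| = 2`.  The
complement contains the root edge and more (`Pref.rest`), so `A = {t, a t}` with `t` at the root vertex; `s (inr true)` and
`s⁻¹ (inr true)` are in `A` and at the root vertex, `a t` is not (`noLoop`); so both are `t`: `s (inr true) = t`, `s t = inr true`, and the root vertex
has degree 2, contradiction. -/
theorem ZC.not_ser (hM : M.IsGood) (h : ZC k M) : ¬ IsSer M := by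
  rintro ⟨A, hP, hl⟩
  have hA := zt_pref hM h hP.cl hP.root hP.fst hP.rest hP.cut4
  have h3 := h.2
  have c1 : M.s.SameCycle (Sum.inr true) (M.s (Sum.inr true)) := CompVAux.sc_apply _ _
  have c2 : M.s.SameCycle (M.s⁻¹ (Sum.inr true)) (Sum.inr true) := by
    have := CompVAux.sc_apply M.s (M.s⁻¹ (Sum.inr true))
    rwa [zt_inv] at this
  rw [hA, mem_insert, mem_singleton] at hl
  rcases hl with h4 | h4
  · apply zt_s1 h3 (n := 2) (by norm_num) le_rfl
    rw [pow_two, Perm.mul_apply, ← h4, zt_inv]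
  · rw [h4] at c2
    exact hM.noLoop (M.s (Sum.inr true)) (c1.symm.trans c2.symm)

private theorem zt_par (hM : M.IsGood) (h : ZC k M) {A : Finset M.T} (hcl : Cl M.aa A)
    (hroot : Sum.inr true ∉ A) (hfst : M.s (Sum.inr true) ∈ A) (hrest : A ∪ M.root ≠ univ)
    (h4 : cut M.s A = 4) (hl' : M.s⁻¹ (Sum.inr false) ∈ A) : False := by
  have hA := zt_pref hM h hcl hroot hfst hrest h4
  have c1 : M.s.SameCycle (Sum.inr true) (M.s (Sum.inr true)) := CompVAux.sc_apply _ _
  have c2 : M.s.SameCycle (M.s⁻¹ (Sum.inr false)) (Sum.inr false) := by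
    have := CompVAux.sc_apply M.s (M.s⁻¹ (Sum.inr false))
    rwa [zt_inv] at this
  have hn0 : ¬ M.s.SameCycle (Sum.inr true) (Sum.inr false) := hM.noLoop (Sum.inr true)
  obtain ⟨⟨ρ, hr, hn, h2⟩, -⟩ := h
  rw [hA, mem_insert, mem_singleton] at hl'
  rcases hl' with h5 | h5
  · rw [h5] at c2
    exact hn0 (c1.trans c2)
  · rw [h5] at c2
    have m1 := zt_max hM hr h2 (Perm.SameCycle.refl M.s (Sum.inr true))
    have m2 := zt_max hM hr h2 c1
    refine hn (bd_of_adj_root hM hr m1 m2 (c := Sum.inr true) (x := Sum.inr false) (by simp) ?_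
      (by simp) (Perm.SameCycle.refl _ _) ?_ ?_ hn0)
    · rw [mem_insert, mem_singleton, not_or]
      exact ⟨hM.s_ne _, hM.s_ne_a _⟩
    · refine ⟨⟨Sum.inr false, ?_, Perm.SameCycle.refl _ _⟩, M.s (Sum.inr false), ?_,
        CompVAux.sc_apply _ _⟩
      · rw [mem_insert, mem_singleton]
        exact Or.inr rfl
      · rw [mem_insert, mem_singleton, not_or]
        exact ⟨hM.s_ne_a (Sum.inr false), hM.s_ne (Sum.inr false)⟩
    · refine ⟨⟨M.aa (M.s (Sum.inr true)), by simp, c2.symm⟩, Sum.inr false, ?_,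
        Perm.SameCycle.refl _ _⟩
      rw [mem_insert, mem_singleton, not_or]
      constructor
      · intro h6
        rw [← h6] at c1
        exact hn0 c1
      · intro h6
        rw [← h6] at c2
        -- `inr false = a (s (inr true))`, so `s (inr true) = inr true`
        apply hM.s_ne (Sum.inr true)
        rw [← hM.inv (M.s (Sum.inr true)), ← h6]
        rfl

/-- Proof.  `IsPar M` is `IsSer M.dual`: let `A` be a prefix of the dual with `(M.dual.s)⁻¹ (inr true) ∈ A`, that is `s⁻¹ (inr false) ∈ A`.  `A` is closed, contains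
`s (inr true)`, has cut 4 in `M` (`cut_dual`), and `A ∪ root` too.  Let `z` be the number of boundary corners of `A` not next to a root dart and `j` the number of the
four darts `s (inr b)`, `s⁻¹ (inr b)` in `A`: `z + j = 4`, `z + (4 - j) = 4`, so `j = 2` and `s⁻¹ (inr true) ∉ A`, `s (inr false) ∉ A`.
`ShC s A (inr true)`; `rg_cut`: `A = {t, a t}`, `t = s (inr true)` (as in `not_ser`).  The set
`A ∪ root` has cut 4; if `a t` and `inr false` were at different vertices, it would have at least 6 boundary corners: one exit and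
one entry at each of the vertices of `t`, `a t`, `inr false` (at the root vertex since its degree is at least 3; the vertex of `a t` is
shared for `A ∪ root` because a vertex has at least two darts, `Good.s_ne`).  So `a t ~ inr false`.  Then `{inr true, inr false}` and `{t, a t}` are `MaxV` (`VS.pair`,
`exists_maxV`) with the same ends and adjacent (`c = inr true`, `s c = t`): `bd_of_adj_root` gives `Bd`, contradiction. -/
theorem ZC.not_par (hM : M.IsGood) (h : ZC k M) : ¬ IsPar M := by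
  rintro ⟨A, hP, hl⟩
  have hcl : Cl M.aa A := hP.cl
  have hroot : (Sum.inr true : M.T) ∉ A := hP.root
  have hfst : M.s (Sum.inr true) ∈ A := by
    have h1 : M.aa (M.s (Sum.inr true)) ∈ A := hP.fst
    exact (hcl _).1 h1
  have hrest : A ∪ M.root ≠ univ := hP.rest
  have h4 : cut M.s A = 4 := by
    have h1 : cut (M.aa * M.s) A = 4 := hP.cut4
    rwa [cut_dual hcl] at h1
  have hl' : M.s⁻¹ (Sum.inr false) ∈ A := by
    have h1 : (M.aa * M.s)⁻¹ (Sum.inr true) ∈ A := hl
    have h2 : (M.aa * M.s)⁻¹ (Sum.inr true : M.T) = M.s⁻¹ (Sum.inr false) := by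
      rw [Perm.inv_eq_iff_eq, Perm.mul_apply, zt_inv]
      rfl
    rwa [h2] at h1
  exact zt_par hM h hcl hroot hfst hrest h4 hl'

/-- Proof.  Let `A = partSet C N i` (`cut_partSet`).  It is shared at the root vertex: with `b` as in `AtV`, the last dart `L N (inl (i, b))` of the part at the core
dart `inl (i, b)` is at the vertex of `L N (inr true) = inr true` (`comp_sc_L` or `CompV.jump_sc`), and `inr true ∉ A`.  `rg_cut`: `|A| = 2` or `|Aᶜ| = 2`; the complement contains the root and the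
other parts (`card_I`: at least 2 others), so it has more than 2 elements.  And `|A|` is the number of nonroot darts of `N i`. -/
theorem zc_net {C : Core} {N : C.I → GB} (hC : C.toB.IsGood) (hR : Rigid C.toB)
    (h : ZC k (comp C N)) {i : C.I} (hi : AtV C i) : Fintype.card (N i).1.D = 2 := by
  classical
  obtain ⟨⟨ρ, hr, hn, h2⟩, -⟩ := h
  have hG : Good (comp C N).aa (comp C N).s := comp_good C N hC
  obtain ⟨b, hb⟩ := hi
  have h1 : (comp C N).s.SameCycle (Sum.inr true) (L N (Sum.inl (i, b))) :=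
    (comp_sc_L N (Sum.inr true) (Sum.inl (i, b))).2 hb
  have hsh : ShC (comp C N).s (partSet C N i) (Sum.inr true) := by
    refine ⟨⟨_, ?_, h1⟩, Sum.inr true, root_not_mem_partSet C N i true,
      Perm.SameCycle.refl _ _⟩
    rw [mem_partSet, L_inl, partOf_dt]
  have hcard : (partSet C N i).card = Fintype.card (N i).1.D := by
    have h1 : partSet C N i = (univ : Finset (N i).1.D).map
        ⟨dt N i, fun _ _ h => dt_inj N h⟩ := by
      ext t
      rw [mem_partSet, mem_map]
      constructor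
      · intro h
        rcases cases_dt N t with ⟨j, d, rfl⟩ | ⟨b, rfl⟩
        · rw [partOf_dt] at h
          have hj : j = i := Option.some_injective _ h
          subst hj
          exact ⟨d, mem_univ _, rfl⟩
        · exact absurd h (by rw [partOf_root]; simp)
      · rintro ⟨d, -, rfl⟩
        exact partOf_dt N i d
    rw [h1, card_map, card_univ]
  rcases rg_cut hG hr hn h2 (Cl_partSet C N i) (cut_partSet C N hC i) hsh with h5 | h5
  · rw [← hcard, h5]
  · exfalso
    have h6 := card_I C hR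
    obtain ⟨j, hj⟩ : ∃ j, j ≠ i := by
      by_contra hcon
      push Not at hcon
      have : Fintype.card C.I ≤ 1 := by
        rw [Fintype.card_le_one_iff]
        intro x y; rw [hcon x, hcon y]
      omega
    obtain ⟨y, hy⟩ := partSet_nonempty C N j
    rw [mem_partSet] at hy
    have h7 : ({Sum.inr true, Sum.inr false, y} : Finset (comp C N).T) ⊆ (partSet C N i)ᶜ := by
      intro x hx
      rw [mem_insert, mem_insert, mem_singleton] at hx
      rw [mem_compl, mem_partSet]
      rcases hx with rfl | rfl | rfl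
      · rw [partOf_root]; simp
      · rw [partOf_root]; simp
      · rw [hy]
        intro h8
        exact hj (Option.some_injective _ h8)
    have h8 : ({Sum.inr true, Sum.inr false, y} : Finset (comp C N).T).card = 3 := by
      refine card_eq_three.2 ⟨_, _, _, by simp, ?_, ?_, rfl⟩
      · rintro rfl
        rw [partOf_root] at hy
        exact absurd hy (by simp)
      · rintro rfl
        rw [partOf_root] at hy
        exact absurd hy (by simp)
    have h9 := card_le_card h7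
    omega

end

end PGr

end
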