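import Mathlib
import Pool.Agent.PGm.M04
import Pool.Agent.PGm.M10
import Pool.Agent.PGm.M14
import Pool.Agent.PGm.M16
import Pool.Agent.PGm.M18
import Pool.Agent.PGm.M19
import Pool.Agent.PGm.M21
import Pool.Agent.PGm.M26
import Pool.Agent.PGm.M27
import Pool.Agent.PGr.KSum

section
/-! # Module POV: the graph of a polygon -/

set_option linter.unusedSectionVars false

namespace PGr
open Equiv Finset
open scoped ENNReal Classical
universe u
open NetSumC
variable {Λ : Type u}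

/-! ### the graph of an incidence as a glued graph -/

/-- two networks `A` (side `true`), `X` (side `false`) in parallel, as a glued graph -/
def POV_W (A X : LNet Λ) (l : Λ) : VNet Λ :=
  vglue (fun x : Bool × Bool => x.2) true (fun b => bif b then A else X) (fun _ => l)

/-- the side of a dart -/
def POV_side (A X : LNet Λ) (l : Λ) (d : (POV_W A X l).D) : Bool :=
  vside (fun x : Bool × Bool => x.2) true (fun b => bif b then A else X) (fun _ => l) d

/-- change of the first network -/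
theorem POV_change {A A' X X' : LNet Λ} (hA : A.IsGood) (hX : X.IsGood) (h : NIso A A')
    (h' : NIso X X') (l : Λ) : ∃ e f, VMatch (POV_W A X l) (POV_W A' X' l) e f ∧
      ∀ d, POV_side A' X' l (e d) = POV_side A X l d := by
  have hg : ∀ b : Bool, (bif b then A else X).IsGood := by
    intro b
    cases b
    · exact hX
    · exact hA
  have hg' : ∀ b : Bool, (bif b then A' else X').IsGood := by
    intro b
    cases b
    · exact h'.good hX
    · exact h.good hA
  refine vglue_match (fun x : Bool × Bool => x.2) (fun x : Bool × Bool => x.2) true true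
    (fun b => bif b then A else X) (fun b => bif b then A' else X') hg hg' (fun _ => l)
    (fun _ => l) (Equiv.refl _) (Equiv.refl _) ?_ (fun _ => rfl) rfl ?_ (fun _ _ => rfl)
  · intro i c
    exact ⟨i, c, rfl, rfl⟩
  · intro i c i' c' hi
    have hi' : (i, c) = (i', c') := hi
    obtain ⟨rfl, rfl⟩ := Prod.mk.inj hi'
    rw [Bool.xor_self]
    cases i
    · exact h'.trans (fl_false X').symm
    · exact h.trans (fl_false A').symm

/-- the graph of an incidence -/
theorem POV_vnet (i : IN Λ) : VMatch (POV_W i.2.1.1.rep.1 i.2.2.rep.1 i.1) (vnet i)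
    (Equiv.refl _) (Equiv.refl _) := by
  refine ⟨fun _ => rfl, ?_, rfl, ?_⟩
  · rintro ⟨b, d⟩
    rfl
  · rintro (b | x) hx
    · cases b
      · show (if (Sum.inl false : (parN i).V) = (parN i).pole false then i.1 else
          (parN i).lab (Sum.inl false)) = i.1
        exact if_pos rfl
      · exact absurd rfl hx
    · show (if (Sum.inr x : (parN i).V) = (parN i).pole false then i.1 else
        (parN i).lab (Sum.inr x)) = _
      rw [if_neg (fun h => by cases h)]
      rfl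

theorem POV_toIN (i : IN Λ) {A : LNet Λ} (hA : NIso A i.2.1.1.rep.1) :
    ∃ e f, VMatch (POV_W A i.2.2.rep.1 i.1) (vnet i) e f ∧
      ∀ d, POV_side A i.2.2.rep.1 i.1 d = false ↔ e d ∈ inN i := by
  obtain ⟨e, f, h1, h2⟩ := POV_change (hA.symm.good i.2.1.1.rep.2) i.2.2.rep.2 hA
    (NIso.refl i.2.2.rep.1) i.1
  refine ⟨_, _, h1.trans (POV_vnet i), ?_⟩
  intro d
  rw [← h2 d]
  constructor
  · intro h
    exact mem_filter.2 ⟨mem_univ _, h⟩
  · intro h
    exact (mem_filter.1 h).2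

/-! ### the polygon -/

private theorem POV_p (cinc : (Option Bool × Bool) ⊕ Bool → Option Bool)
    (N : Option Bool → LNet Λ) (i : Option Bool)
    (hN : (N i).IsGood) (b : Bool) {d : (N i).D} (h : (N i).inc (Sum.inl d) = (N i).pole b) :
    glueInc cinc N (Sum.inl ⟨i, d⟩) = Sum.inl (cinc (Sum.inl (i, b))) := by
  cases b
  · refine GlueLib.inc_false _ _ ?_ h
    rw [h]
    exact (hN.loop (Sum.inr false)).symm
  · exact GlueLib.inc_true _ _ h

private theorem POV_pb {Vc : Type} [Fintype Vc] [DecidableEq Vc]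
    (cinc : (Bool × Bool) ⊕ Bool → Vc) (N : Bool → LNet Λ) (i : Bool)
    (hN : (N i).IsGood) (b : Bool) {d : (N i).D} (h : (N i).inc (Sum.inl d) = (N i).pole b) :
    glueInc cinc N (Sum.inl ⟨i, d⟩) = Sum.inl (cinc (Sum.inl (i, b))) := by
  cases b
  · refine GlueLib.inc_false _ _ ?_ h
    rw [h]
    exact (hN.loop (Sum.inr false)).symm
  · exact GlueLib.inc_true _ _ h

private theorem POV_c (N : LNet Λ) (x : N.V) : (∃ b, x = N.pole b) ∨ ∀ b, x ≠ N.pole b := by
  by_cases h : ∃ b, x = N.pole b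
  · exact Or.inl h
  · push Not at h
    exact Or.inr h

section
variable (M D₁ D₂ : LNet Λ) (l₁ l₂ : Λ)

/-- the polygon -/
private def POV_P : VNet Λ :=
  vglue triE none (fun e : Option Bool => e.elim M fun c => bif c then D₁ else D₂)
    (fun x => x.elim l₁ fun c => bif c then l₁ else l₂)

private abbrev POV_S : LNet Λ := serGlue D₂ (LNet.fl true M) fun _ => l₂

private def POV_eD : (POV_P M D₁ D₂ l₁ l₂).D ≃ (POV_W (POV_S M D₂ l₂) D₁ l₁).D where
  toFun
    | ⟨some true, d⟩ => ⟨false, d⟩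
    | ⟨some false, d⟩ => ⟨true, (⟨true, d⟩ : (POV_S M D₂ l₂).D)⟩
    | ⟨none, d⟩ => ⟨true, (⟨false, d⟩ : (POV_S M D₂ l₂).D)⟩
  invFun
    | ⟨false, d⟩ => ⟨some true, d⟩
    | ⟨true, (⟨true, d⟩ : (POV_S M D₂ l₂).D)⟩ => ⟨some false, d⟩
    | ⟨true, (⟨false, d⟩ : (POV_S M D₂ l₂).D)⟩ => ⟨none, d⟩
  left_inv := by
    rintro ⟨_ | _ | _, d⟩ <;> rfl
  right_inv := by
    rintro ⟨_ | _, d⟩
    · rfl
    · obtain ⟨_ | _, d⟩ := d <;> rfl

private theorem POV_flint {N : LNet Λ} {x : N.V} (h : ∀ b, x ≠ N.pole b) :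
    ∀ b, x ≠ (LNet.fl true N).pole b := fun b => h (xor true b)

private theorem POV_flint' {N : LNet Λ} {x : N.V} (h : ∀ b, x ≠ (LNet.fl true N).pole b) :
    ∀ b, x ≠ N.pole b := by
  intro b
  cases b
  · exact h true
  · exact h false

private def POV_a : (POV_S M D₂ l₂).Int → (POV_P M D₁ D₂ l₁ l₂).V
  | ⟨Sum.inl none, _⟩ => Sum.inl (some false)
  | ⟨Sum.inl (some b), h⟩ => (h b rfl).elim
  | ⟨Sum.inr ⟨true, x⟩, _⟩ => Sum.inr ⟨some false, x⟩
  | ⟨Sum.inr ⟨false, x⟩, _⟩ => Sum.inr ⟨none, (⟨x.1, POV_flint' (N := M) x.2⟩ : M.Int)⟩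

private def POV_eV : (POV_P M D₁ D₂ l₁ l₂).V ≃ (POV_W (POV_S M D₂ l₂) D₁ l₁).V where
  toFun
    | Sum.inl none => Sum.inl true
    | Sum.inl (some true) => Sum.inl false
    | Sum.inl (some false) =>
      Sum.inr ⟨true, (⟨Sum.inl none, fun b hb => by cases hb⟩ : (POV_S M D₂ l₂).Int)⟩
    | Sum.inr ⟨some true, x⟩ => Sum.inr ⟨false, x⟩
    | Sum.inr ⟨some false, x⟩ =>
      Sum.inr ⟨true, (⟨Sum.inr ⟨true, x⟩, fun b hb => by cases hb⟩ : (POV_S M D₂ l₂).Int)⟩
    | Sum.inr ⟨none, x⟩ =>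
      Sum.inr ⟨true, (⟨Sum.inr ⟨false, (⟨x.1, POV_flint (N := M) x.2⟩ :
        (LNet.fl true M).Int)⟩, fun b hb => by cases hb⟩ : (POV_S M D₂ l₂).Int)⟩
  invFun
    | Sum.inl true => Sum.inl none
    | Sum.inl false => Sum.inl (some true)
    | Sum.inr ⟨false, x⟩ => Sum.inr ⟨some true, x⟩
    | Sum.inr ⟨true, x⟩ => POV_a M D₁ D₂ l₁ l₂ x
  left_inv := by
    rintro ((_ | _ | _) | ⟨_ | _ | _, x⟩) <;> rfl
  right_inv := by
    rintro ((_ | _) | ⟨_ | _, x⟩)
    · rfl
    · rfl
    · rfl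
    · obtain ⟨(_ | b) | ⟨_ | _, x⟩, h⟩ := x
      · rfl
      · exact (h b rfl).elim
      · rfl
      · rfl

private theorem POV_match (hM : M.IsGood) (h₁ : D₁.IsGood) (h₂ : D₂.IsGood) :
    VMatch (POV_P M D₁ D₂ l₁ l₂) (POV_W (POV_S M D₂ l₂) D₁ l₁) (POV_eD M D₁ D₂ l₁ l₂)
      (POV_eV M D₁ D₂ l₁ l₂) := by
  have hf := fl_good hM
  have hS : (POV_S M D₂ l₂).IsGood := serGlue_good h₂ hf _
  have hpp : ∀ (d : M.D) (b : Bool), M.inc (Sum.inl d) = M.pole b →
      (LNet.fl true M).inc (Sum.inl d) = (LNet.fl true M).pole (!b) := by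
    intro d b h
    cases b <;> exact h
  -- darts of the network in parallel
  have w1 : ∀ (d : D₁.D) (b : Bool), D₁.inc (Sum.inl d) = D₁.pole b →
      (POV_W (POV_S M D₂ l₂) D₁ l₁).inc ⟨false, d⟩ = Sum.inl b := by
    intro d b h
    exact POV_pb (Sum.elim (fun x : Bool × Bool => x.2) fun _ => true)
      (fun b => bif b then POV_S M D₂ l₂ else D₁) false h₁ b h
  have w1i : ∀ (d : D₁.D) (h : ∀ b, D₁.inc (Sum.inl d) ≠ D₁.pole b),
      (POV_W (POV_S M D₂ l₂) D₁ l₁).inc ⟨false, d⟩ = Sum.inr ⟨false, ⟨D₁.inc (Sum.inl d), h⟩⟩ := by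
    intro d h
    exact GlueLib.inc_int (Sum.elim (fun x : Bool × Bool => x.2) fun _ => true)
      (fun b => bif b then POV_S M D₂ l₂ else D₁) (i := false) (h true) (h false)
  have w2 : ∀ (d : (POV_S M D₂ l₂).D) (b : Bool),
      (POV_S M D₂ l₂).inc (Sum.inl d) = (POV_S M D₂ l₂).pole b →
      (POV_W (POV_S M D₂ l₂) D₁ l₁).inc ⟨true, d⟩ = Sum.inl b := by
    intro d b h
    exact POV_pb (Sum.elim (fun x : Bool × Bool => x.2) fun _ => true)
      (fun b => bif b then POV_S M D₂ l₂ else D₁) true hS b h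
  have w2i : ∀ (d : (POV_S M D₂ l₂).D) (x : (POV_S M D₂ l₂).V)
      (hx : ∀ b, x ≠ (POV_S M D₂ l₂).pole b), (POV_S M D₂ l₂).inc (Sum.inl d) = x →
      (POV_W (POV_S M D₂ l₂) D₁ l₁).inc ⟨true, d⟩ = Sum.inr ⟨true, ⟨x, hx⟩⟩ := by
    rintro d x hx rfl
    exact GlueLib.inc_int (Sum.elim (fun x : Bool × Bool => x.2) fun _ => true)
      (fun b => bif b then POV_S M D₂ l₂ else D₁) (i := true) (hx true) (hx false)
  -- darts of the polygon
  have p0 : ∀ (c : Bool) (d : (bif c then D₁ else D₂).D) (b : Bool),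
      (bif c then D₁ else D₂).inc (Sum.inl d) = (bif c then D₁ else D₂).pole b →
      (POV_P M D₁ D₂ l₁ l₂).inc ⟨some c, d⟩ = Sum.inl (triE (some c, b)) := by
    intro c d b h
    refine POV_p (Sum.elim triE fun _ => none)
      (fun e : Option Bool => e.elim M fun c => bif c then D₁ else D₂) (some c) ?_ b h
    cases c
    · exact h₂
    · exact h₁
  have p0i : ∀ (c : Bool) (d : (bif c then D₁ else D₂).D)
      (h : ∀ b, (bif c then D₁ else D₂).inc (Sum.inl d) ≠ (bif c then D₁ else D₂).pole b),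
      (POV_P M D₁ D₂ l₁ l₂).inc ⟨some c, d⟩ =
        Sum.inr ⟨some c, ⟨(bif c then D₁ else D₂).inc (Sum.inl d), h⟩⟩ := by
    intro c d h
    exact GlueLib.inc_int (Sum.elim triE fun _ => none)
      (fun e : Option Bool => e.elim M fun c => bif c then D₁ else D₂) (i := some c)
      (h true) (h false)
  have pm : ∀ (d : M.D) (b : Bool), M.inc (Sum.inl d) = M.pole b →
      (POV_P M D₁ D₂ l₁ l₂).inc ⟨none, d⟩ = Sum.inl (triE (none, b)) := by
    intro d b h
    exact POV_p (Sum.elim triE fun _ => none)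
      (fun e : Option Bool => e.elim M fun c => bif c then D₁ else D₂) none hM b h
  have pmi : ∀ (d : M.D) (h : ∀ b, M.inc (Sum.inl d) ≠ M.pole b),
      (POV_P M D₁ D₂ l₁ l₂).inc ⟨none, d⟩ = Sum.inr ⟨none, ⟨M.inc (Sum.inl d), h⟩⟩ := by
    intro d h
    exact GlueLib.inc_int (Sum.elim triE fun _ => none)
      (fun e : Option Bool => e.elim M fun c => bif c then D₁ else D₂) (i := none)
      (h true) (h false)
  -- darts of the series network
  have s1 : ∀ (d : D₂.D) (b : Bool), D₂.inc (Sum.inl d) = D₂.pole b →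
      (POV_S M D₂ l₂).inc (Sum.inl ⟨true, d⟩) = Sum.inl (serInc (Sum.inl (true, b))) := by
    intro d b h
    exact POV_pb serInc (fun i => bif i then D₂ else LNet.fl true M) true h₂ b h
  have s1i : ∀ (d : D₂.D) (h : ∀ b, D₂.inc (Sum.inl d) ≠ D₂.pole b),
      (POV_S M D₂ l₂).inc (Sum.inl ⟨true, d⟩) = Sum.inr ⟨true, ⟨D₂.inc (Sum.inl d), h⟩⟩ := by
    intro d h
    exact GlueLib.inc_int serInc (fun i => bif i then D₂ else LNet.fl true M) (i := true)
      (h true) (h false)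
  have s2 : ∀ (d : M.D) (b : Bool),
      (LNet.fl true M).inc (Sum.inl d) = (LNet.fl true M).pole b →
      (POV_S M D₂ l₂).inc (Sum.inl ⟨false, d⟩) = Sum.inl (serInc (Sum.inl (false, b))) := by
    intro d b h
    exact POV_pb serInc (fun i => bif i then D₂ else LNet.fl true M) false hf b h
  have s2i : ∀ (d : M.D) (h : ∀ b, (LNet.fl true M).inc (Sum.inl d) ≠ (LNet.fl true M).pole b),
      (POV_S M D₂ l₂).inc (Sum.inl ⟨false, d⟩) =
        Sum.inr ⟨false, ⟨(LNet.fl true M).inc (Sum.inl d), h⟩⟩ := by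
    intro d h
    exact GlueLib.inc_int serInc (fun i => bif i then D₂ else LNet.fl true M) (i := false)
      (h true) (h false)
  refine ⟨?_, ?_, rfl, ?_⟩
  · rintro ⟨_ | _ | _, d⟩ <;> rfl
  · rintro ⟨_ | _ | _, d⟩
    · show POV_eV M D₁ D₂ l₁ l₂ ((POV_P M D₁ D₂ l₁ l₂).inc ⟨none, d⟩) =
        (POV_W (POV_S M D₂ l₂) D₁ l₁).inc ⟨true, (⟨false, d⟩ : (POV_S M D₂ l₂).D)⟩
      rcases POV_c M (M.inc (Sum.inl d)) with ⟨b, hb⟩ | hb
      · rw [pm d b hb]
        have h5 := s2 d (!b) (hpp d b hb)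
        cases b
        · rw [w2i _ (Sum.inl none) (fun b hb => by cases hb) h5]
          rfl
        · rw [w2 _ false h5]
          rfl
      · rw [pmi d hb, w2i _ _ (fun b hb => by cases hb) (s2i d (POV_flint hb))]
        rfl
    · show POV_eV M D₁ D₂ l₁ l₂ ((POV_P M D₁ D₂ l₁ l₂).inc ⟨some false, d⟩) =
        (POV_W (POV_S M D₂ l₂) D₁ l₁).inc ⟨true, (⟨true, d⟩ : (POV_S M D₂ l₂).D)⟩
      rcases POV_c D₂ (D₂.inc (Sum.inl d)) with ⟨b, hb⟩ | hb
      · rw [p0 false d b hb]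
        have h5 := s1 d b hb
        cases b
        · rw [w2i _ (Sum.inl none) (fun b hb => by cases hb) h5]
          rfl
        · rw [w2 _ true h5]
          rfl
      · rw [p0i false d hb, w2i _ _ (fun b hb => by cases hb) (s1i d hb)]
        rfl
    · show POV_eV M D₁ D₂ l₁ l₂ ((POV_P M D₁ D₂ l₁ l₂).inc ⟨some true, d⟩) =
        (POV_W (POV_S M D₂ l₂) D₁ l₁).inc ⟨false, d⟩
      rcases POV_c D₁ (D₁.inc (Sum.inl d)) with ⟨b, hb⟩ | hb
      · rw [p0 true d b hb, w1 d b hb]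
        cases b <;> rfl
      · rw [p0i true d hb, w1i d hb]
        rfl
  · rintro ((_ | _ | _) | ⟨_ | _ | _, x⟩) hx
    · exact absurd rfl hx
    · rfl
    · rfl
    · rfl
    · rfl
    · rfl

end

/-- `p.toIN = (l₁, D₂ ser l₂ (N reversed), D₁)`.  Write the isomorphism of the triangle glued with `D₁, D₂, N` and of the network
`serGlue D₂ (N reversed)` parallel to `D₁` down (with `NIso` for the representatives of the classes). -/
theorem PO.full_toIN (p : PO Λ) : ∃ e f, VMatch p.full (vnet p.toIN) e f ∧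
    ∀ d, d ∈ p.part (some true) ↔ e d ∈ inN p.toIN := by
  have h1 : NIso (POV_S p.2.1.1.rep.1 p.2.2.2.rep.1 p.2.2.1) p.toIN.2.1.1.rep.1 := by
    refine NIso.trans ?_ (NC.ser_rep _ _ _).symm
    exact serGlue_iso (NIso.refl _) (NC.fl_rep _).symm rfl
  obtain ⟨e, f, h2, h3⟩ := POV_toIN p.toIN h1
  have h4 : VMatch p.full _ _ _ := POV_match p.2.1.1.rep.1 p.1.2.rep.1 p.2.2.2.rep.1 p.1.1
    p.2.2.1 p.2.1.1.rep.2 p.1.2.rep.2 p.2.2.2.rep.2
  refine ⟨_, _, h4.trans h2, ?_⟩
  intro d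
  have h5 := h3 (POV_eD p.2.1.1.rep.1 p.1.2.rep.1 p.2.2.2.rep.1 p.1.1 p.2.2.1 d)
  refine Iff.trans ?_ h5
  obtain ⟨_ | _ | _, d⟩ := d
  · constructor
    · intro h
      cases (mem_filter.1 h).2
    · intro h
      cases h
  · constructor
    · intro h
      cases (mem_filter.1 h).2
    · intro h
      cases h
  · exact ⟨fun _ => rfl, fun _ => mem_filter.2 ⟨mem_univ _, rfl⟩⟩

/-- `vglue_match` with the exchange of `some true` and `some false`, reversing the edge `none` -/
theorem PO.full_flip (p : PO Λ) : ∃ e f, VMatch p.full p.flip.full e f ∧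
    ∀ c d, d ∈ p.part (some c) ↔ e d ∈ p.flip.part (some (!c)) := by
  have hψ : Function.Involutive (fun t : Option Bool × Bool =>
      (match t with
        | (some c, b) => (some (!c), b)
        | (none, b) => (none, !b) : Option Bool × Bool)) := by
    rintro ⟨_ | c, b⟩
    · cases b <;> rfl
    · cases c <;> rfl
  have hθ : Function.Involutive (fun x : Option Bool => x.map not) := by
    rintro (_ | _ | _) <;> rfl
  have hg : ∀ e : Option Bool, (e.elim p.2.1.1.rep.1 fun c =>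
      bif c then p.1.2.rep.1 else p.2.2.2.rep.1 : LNet Λ).IsGood := by
    rintro (_ | _ | _)
    · exact p.2.1.1.rep.2
    · exact p.2.2.2.rep.2
    · exact p.1.2.rep.2
  have hg' : ∀ e : Option Bool, (e.elim p.flip.2.1.1.rep.1 fun c =>
      bif c then p.flip.1.2.rep.1 else p.flip.2.2.2.rep.1 : LNet Λ).IsGood := by
    rintro (_ | _ | _)
    · exact p.flip.2.1.1.rep.2
    · exact p.flip.2.2.2.rep.2
    · exact p.flip.1.2.rep.2
  obtain ⟨e, f, h1, h2⟩ := vglue_match triE triE none none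
    (fun e : Option Bool => e.elim p.2.1.1.rep.1 fun c =>
      bif c then p.1.2.rep.1 else p.2.2.2.rep.1)
    (fun e : Option Bool => e.elim p.flip.2.1.1.rep.1 fun c =>
      bif c then p.flip.1.2.rep.1 else p.flip.2.2.2.rep.1) hg hg'
    (fun x => x.elim p.1.1 fun c => bif c then p.1.1 else p.2.2.1)
    (fun x => x.elim p.flip.1.1 fun c => bif c then p.flip.1.1 else p.flip.2.2.1)
    (Function.Involutive.toPerm _ hψ) (Function.Involutive.toPerm _ hθ) (by
      rintro (_ | c) b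
      · exact ⟨none, !b, rfl, rfl⟩
      · exact ⟨some (!c), b, rfl, rfl⟩) (by
      rintro ⟨_ | c, b⟩
      · cases b <;> rfl
      · cases b <;> rfl) rfl (by
      rintro (_ | c) b i' b' hi
      · have hi' : ((none, !b) : Option Bool × Bool) = (i', b') := hi
        obtain ⟨rfl, rfl⟩ := Prod.mk.inj hi'
        have h3 : xor b (!b) = true := by cases b <;> rfl
        rw [h3]
        show NIso p.2.1.1.rep.1 (LNet.fl true p.2.1.1.fl.rep.1)
        have h4 := (NC.fl_rep p.2.1.1).fl true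
        exact (h4.trans ((fl_fl true true _).trans (fl_false _))).symm
      · have hi' : ((some (!c), b) : Option Bool × Bool) = (i', b') := hi
        obtain ⟨rfl, rfl⟩ := Prod.mk.inj hi'
        rw [Bool.xor_self]
        cases c
        · exact (fl_false _).symm
        · exact (fl_false _).symm) (by
      rintro (_ | _ | _) hx
      · exact absurd rfl hx
      · rfl
      · rfl)
  refine ⟨e, f, h1, ?_⟩
  intro c d
  have h3 := h2 d
  obtain ⟨i, d⟩ := d
  have h4 : (⟨i, d⟩ : p.full.D) ∈ p.part (some c) ↔ i = some c :=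
    ⟨fun h => (mem_filter.1 h).2, fun h => mem_filter.2 ⟨mem_univ _, h⟩⟩
  have h5 : e ⟨i, d⟩ ∈ p.flip.part (some (!c)) ↔
      (Function.Involutive.toPerm _ hψ (i, true)).1 = some (!c) := by
    constructor
    · intro h
      exact h3.symm.trans (mem_filter.1 h).2
    · intro h
      exact mem_filter.2 ⟨mem_univ _, h3.trans h⟩
  refine h4.trans (Iff.trans ?_ h5.symm)
  rcases i with _ | c'
  · constructor
    · intro h
      cases h
    · intro h
      cases h
  · constructor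
    · intro h
      rw [Option.some.inj h]
      rfl
    · intro h
      have h6 : some (!c') = some (!c) := h
      rw [Bool.not_inj (Option.some.inj h6)]

private theorem POV_iso (p : PO Λ) : VIso p.full (vnet p.toIN) := by
  obtain ⟨e, f, h, -⟩ := p.full_toIN
  exact ⟨e, f, h⟩

theorem PO.full_good (p : PO Λ) : p.full.IsGood := by
  obtain ⟨e, f, h⟩ := POV_iso p
  exact VIso.good ⟨_, _, h.symm⟩ (vnet_good p.toIN)

theorem PO.full_card (p : PO Λ) : Fintype.card p.full.D = p.nT := by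
  unfold PO.full
  rw [vglue_card, Fintype.sum_option, Fintype.sum_bool]
  show nd p.2.1.1 + (nd p.1.2 + nd p.2.2.2) = nd p.1.2 + nd p.2.2.2 + nd p.2.1.1
  omega

theorem PO.part_card (p : PO Λ) : (p.part (some true)).card = nd p.1.2 ∧
    (p.part (some false)).card = nd p.2.2.2 := by
  have h : ∀ e, (p.part e).card = Fintype.card (e.elim p.2.1.1.rep.1 fun c =>
      bif c then p.1.2.rep.1 else p.2.2.2.rep.1 : LNet Λ).D := fun e =>
    vside_card triE none (fun e : Option Bool => e.elim p.2.1.1.rep.1 fun c =>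
      bif c then p.1.2.rep.1 else p.2.2.2.rep.1)
      (fun x => x.elim p.1.1 fun c => bif c then p.1.1 else p.2.2.1) e
  exact ⟨h (some true), h (some false)⟩

theorem PO.wV_full (w : Λ → ℝ≥0∞) (p : PO Λ) : wtV w p.full = p.wt w := by
  rw [(POV_iso p).wtV w, wV_vnet]
  show w p.1.1 * (PGr.wt w (p.2.2.2.ser p.2.2.1 p.2.1.1.fl).rep.1 *
    PGr.wt w p.1.2.rep.1) = _
  rw [NC.wt_ser, NC.wt_fl]
  unfold PO.wt
  ring

theorem PO.flip_nT (p : PO Λ) : p.flip.nT = p.nT := by
  have h : nd p.2.1.1.fl = nd p.2.1.1 := (NC.fl_rep p.2.1.1).card_eq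
  show nd p.2.2.2 + nd p.1.2 + nd p.2.1.1.fl = nd p.1.2 + nd p.2.2.2 + nd p.2.1.1
  rw [h]
  omega

end PGr

end

section
/-! # Module FCV: the graph of a full code -/

set_option linter.unusedSectionVars false

namespace PGr
open Equiv Finset
open scoped ENNReal Classical
universe u
open NetSumC
variable {Λ : Type u} [Nonempty Λ]

/-- the vertices of a glued graph different from the root vertex -/
def FCV_ext {I Vc : Type} [Fintype I] [DecidableEq I] [Fintype Vc] [DecidableEq Vc]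
    (cinc : I × Bool → Vc) (v : Vc) (N : I → LNet Λ) (g : Vc → Λ) :
    ({x : Vc // x ≠ v} ⊕ Σ i, (N i).Int) ≃
      {x : (vglue cinc v N g).V // x ≠ (vglue cinc v N g).v0} where
  toFun
    | Sum.inl x => ⟨Sum.inl x.1, fun hb => x.2 (Sum.inl.inj hb)⟩
    | Sum.inr x => ⟨Sum.inr x, fun hb => by cases hb⟩
  invFun
    | ⟨Sum.inl x, h⟩ => Sum.inl ⟨x, fun hb => h (congrArg Sum.inl hb)⟩
    | ⟨Sum.inr x, _⟩ => Sum.inr x
  left_inv := by rintro (x | x) <;> rfl
  right_inv := by rintro ⟨x | x, h⟩ <;> rfl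

/-- the weight of a glued graph -/
theorem FCV_wV {I Vc : Type} [Fintype I] [DecidableEq I] [Fintype Vc] [DecidableEq Vc]
    (w : Λ → ℝ≥0∞) (cinc : I × Bool → Vc) (v : Vc) (N : I → LNet Λ) (g : Vc → Λ) :
    wtV w (vglue cinc v N g) = (∏ x : {x : Vc // x ≠ v}, w (g x.1)) * ∏ i, wt w (N i) := by
  unfold wtV
  rw [← Fintype.prod_equiv (FCV_ext cinc v N g) (fun x => w ((vglue cinc v N g).lab
    (FCV_ext cinc v N g x).1)) _ (fun x => rfl)]
  rw [Fintype.prod_sum_type, Fintype.prod_sigma]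
  rfl

theorem FCV_c (N : LNet Λ) (x : N.V) : (∃ b, x = N.pole b) ∨ ∀ b, x ≠ N.pole b := by
  by_cases h : ∃ b, x = N.pole b
  · exact Or.inl h
  · push Not at h
    exact Or.inr h

theorem FCV_p {I Vc : Type} [Fintype I] [DecidableEq I] [Fintype Vc] [DecidableEq Vc]
    (cinc : (I × Bool) ⊕ Bool → Vc) (N : I → LNet Λ) (i : I)
    (hN : (N i).IsGood) (b : Bool) {d : (N i).D} (h : (N i).inc (Sum.inl d) = (N i).pole b) :
    glueInc cinc N (Sum.inl ⟨i, d⟩) = Sum.inl (cinc (Sum.inl (i, b))) := by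
  cases b
  · refine GlueLib.inc_false _ _ ?_ h
    rw [h]
    exact (hN.loop (Sum.inr false)).symm
  · exact GlueLib.inc_true _ _ h

section full
variable (p : FCR Λ)

/-- the networks on the edges -/
noncomputable def FCV_N (e : Option (core p.1.1).I) : LNet Λ :=
  e.elim p.1.2.2.1.rep.1 fun i => (p.1.2.1 i).rep.1

/-- the labels -/
noncomputable def FCV_g (x : (core p.1.1).CV) : Λ :=
  if h : x ≠ (core p.1.1).vinc (Sum.inr true) then p.1.2.2.2 ⟨x, h⟩ else Classical.arbitrary Λ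

theorem FCV_full : p.full =
    vglue (edgeE (core p.1.1)) ((core p.1.1).vinc (Sum.inr true)) (FCV_N p) (FCV_g p) := rfl

theorem FCV_Ng (e : Option (core p.1.1).I) : (FCV_N p e).IsGood := by
  rcases e with _ | i
  · exact p.1.2.2.1.rep.2
  · exact (p.1.2.1 i).rep.2

noncomputable abbrev FCV_A : LNet Λ := cN p.1.ix

noncomputable abbrev FCV_W : VNet Λ := POV_W (FCV_A p) p.1.2.2.1.rep.1 p.1.lend

/-- a vertex of the network of the other edges -/
noncomputable def FCV_vm (y : (FCV_A p).V) : (FCV_W p).V :=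
  if h1 : y = (FCV_A p).pole true then Sum.inl true
  else if h2 : y = (FCV_A p).pole false then Sum.inl false
  else Sum.inr ⟨true, (⟨y, by rintro (_ | _) <;> assumption⟩ : (FCV_A p).Int)⟩

theorem FCV_vm_inc (d : (FCV_A p).D) :
    (FCV_W p).inc ⟨true, d⟩ = FCV_vm p ((FCV_A p).inc (Sum.inl d)) := rfl

theorem FCV_poles : (FCV_A p).pole true ≠ (FCV_A p).pole false := by
  intro h
  exact RgTwo_pole p.1.1 (Sum.inl_injective h)

theorem FCV_vm_pole (b : Bool) : FCV_vm p ((FCV_A p).pole b) = Sum.inl b := by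
  unfold FCV_vm
  cases b
  · rw [dif_neg (FCV_poles p).symm, dif_pos rfl]
  · rw [dif_pos rfl]

theorem FCV_vm_int {y : (FCV_A p).V} (h : ∀ b, y ≠ (FCV_A p).pole b) :
    FCV_vm p y = Sum.inr ⟨true, (⟨y, h⟩ : (FCV_A p).Int)⟩ := by
  unfold FCV_vm
  rw [dif_neg (h true), dif_neg (h false)]

noncomputable def FCV_eD : p.full.D ≃ (FCV_W p).D where
  toFun
    | ⟨some i, d⟩ => ⟨true, (⟨i, d⟩ : (FCV_A p).D)⟩
    | ⟨none, d⟩ => ⟨false, d⟩
  invFun
    | ⟨false, d⟩ => ⟨none, d⟩
    | ⟨true, (⟨i, d⟩ : (FCV_A p).D)⟩ => ⟨some i, d⟩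
  left_inv := by
    rintro ⟨_ | _, d⟩ <;> rfl
  right_inv := by
    rintro ⟨_ | _, d⟩
    · rfl
    · obtain ⟨_, d⟩ := d
      rfl

noncomputable def FCV_inv : (FCV_W p).V → p.full.V
  | Sum.inl b => Sum.inl ((core p.1.1).vinc (Sum.inr b))
  | Sum.inr ⟨false, x⟩ => Sum.inr ⟨none, x⟩
  | Sum.inr ⟨true, x⟩ => match x.1 with
    | Sum.inl x => Sum.inl x
    | Sum.inr ⟨i, x⟩ => Sum.inr ⟨some i, x⟩

noncomputable def FCV_fwd : p.full.V → (FCV_W p).V
  | Sum.inl x => FCV_vm p (Sum.inl x)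
  | Sum.inr ⟨some i, x⟩ => Sum.inr ⟨true, (⟨Sum.inr ⟨i, x⟩, fun b hb => by cases hb⟩ :
      (FCV_A p).Int)⟩
  | Sum.inr ⟨none, x⟩ => Sum.inr ⟨false, x⟩

theorem FCV_inv_vm (x : (core p.1.1).CV) : FCV_inv p (FCV_vm p (Sum.inl x)) = Sum.inl x := by
  rcases FCV_c (FCV_A p) (Sum.inl x) with ⟨b, hb⟩ | hb
  · have hx : x = (core p.1.1).vinc (Sum.inr b) := Sum.inl_injective hb
    rw [hb, FCV_vm_pole, hx]
    rfl
  · rw [FCV_vm_int p hb]
    rfl

noncomputable def FCV_eV : p.full.V ≃ (FCV_W p).V where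
  toFun := FCV_fwd p
  invFun := FCV_inv p
  left_inv := by
    rintro (x | ⟨_ | i, x⟩)
    · exact FCV_inv_vm p x
    · rfl
    · rfl
  right_inv := by
    rintro (b | ⟨_ | _, x⟩)
    · exact FCV_vm_pole p b
    · rfl
    · obtain ⟨x | ⟨i, x⟩, hx⟩ := x
      · exact FCV_vm_int p hx
      · rfl

theorem FCV_match : VMatch p.full (FCV_W p) (FCV_eD p) (FCV_eV p) := by
  have hn : ∀ (d : p.1.2.2.1.rep.1.D) (b : Bool),
      p.1.2.2.1.rep.1.inc (Sum.inl d) = p.1.2.2.1.rep.1.pole b →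
      p.full.inc ⟨none, d⟩ = Sum.inl ((core p.1.1).vinc (Sum.inr b)) := fun d b h =>
    FCV_p (Sum.elim (edgeE (core p.1.1)) fun _ => (core p.1.1).vinc (Sum.inr true)) (FCV_N p)
      none (FCV_Ng p none) b h
  have hs : ∀ i (d : (p.1.2.1 i).rep.1.D) (b : Bool),
      (p.1.2.1 i).rep.1.inc (Sum.inl d) = (p.1.2.1 i).rep.1.pole b →
      p.full.inc ⟨some i, d⟩ = Sum.inl ((core p.1.1).vinc (Sum.inl (i, b))) := fun i d b h =>
    FCV_p (Sum.elim (edgeE (core p.1.1)) fun _ => (core p.1.1).vinc (Sum.inr true)) (FCV_N p)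
      (some i) (FCV_Ng p (some i)) b h
  have hni : ∀ (d : p.1.2.2.1.rep.1.D)
      (h : ∀ b, p.1.2.2.1.rep.1.inc (Sum.inl d) ≠ p.1.2.2.1.rep.1.pole b),
      p.full.inc ⟨none, d⟩ = Sum.inr ⟨none, ⟨p.1.2.2.1.rep.1.inc (Sum.inl d), h⟩⟩ := fun d h =>
    GlueLib.inc_int (Sum.elim (edgeE (core p.1.1)) fun _ => (core p.1.1).vinc (Sum.inr true))
      (FCV_N p) (i := none) (h true) (h false)
  have hsi : ∀ i (d : (p.1.2.1 i).rep.1.D)
      (h : ∀ b, (p.1.2.1 i).rep.1.inc (Sum.inl d) ≠ (p.1.2.1 i).rep.1.pole b),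
      p.full.inc ⟨some i, d⟩ = Sum.inr ⟨some i, ⟨(p.1.2.1 i).rep.1.inc (Sum.inl d), h⟩⟩ :=
    fun i d h =>
    GlueLib.inc_int (Sum.elim (edgeE (core p.1.1)) fun _ => (core p.1.1).vinc (Sum.inr true))
      (FCV_N p) (i := some i) (h true) (h false)
  have ha : ∀ i (d : (p.1.2.1 i).rep.1.D) (b : Bool),
      (p.1.2.1 i).rep.1.inc (Sum.inl d) = (p.1.2.1 i).rep.1.pole b →
      (FCV_A p).inc (Sum.inl ⟨i, d⟩) = Sum.inl ((core p.1.1).vinc (Sum.inl (i, b))) :=
    fun i d b h =>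
    FCV_p (core p.1.1).vinc (cX p.1.ix) i (p.1.2.1 i).rep.2 b h
  have hai : ∀ i (d : (p.1.2.1 i).rep.1.D)
      (h : ∀ b, (p.1.2.1 i).rep.1.inc (Sum.inl d) ≠ (p.1.2.1 i).rep.1.pole b),
      (FCV_A p).inc (Sum.inl ⟨i, d⟩) = Sum.inr ⟨i, ⟨(p.1.2.1 i).rep.1.inc (Sum.inl d), h⟩⟩ :=
    fun i d h => GlueLib.inc_int (core p.1.1).vinc (cX p.1.ix) (i := i) (h true) (h false)
  have hw : ∀ (d : p.1.2.2.1.rep.1.D) (b : Bool),
      p.1.2.2.1.rep.1.inc (Sum.inl d) = p.1.2.2.1.rep.1.pole b →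
      (FCV_W p).inc ⟨false, d⟩ = Sum.inl b := fun d b h =>
    FCV_p (Sum.elim (fun x : Bool × Bool => x.2) fun _ => true)
      (fun b => bif b then FCV_A p else p.1.2.2.1.rep.1) false p.1.2.2.1.rep.2 b h
  have hwi : ∀ (d : p.1.2.2.1.rep.1.D)
      (h : ∀ b, p.1.2.2.1.rep.1.inc (Sum.inl d) ≠ p.1.2.2.1.rep.1.pole b),
      (FCV_W p).inc ⟨false, d⟩ = Sum.inr ⟨false, ⟨p.1.2.2.1.rep.1.inc (Sum.inl d), h⟩⟩ :=
    fun d h =>
    GlueLib.inc_int (Sum.elim (fun x : Bool × Bool => x.2) fun _ => true)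
      (fun b => bif b then FCV_A p else p.1.2.2.1.rep.1) (i := false) (h true) (h false)
  refine ⟨?_, ?_, FCV_vm_pole p true, ?_⟩
  · rintro ⟨_ | _, d⟩ <;> rfl
  · rintro ⟨_ | i, d⟩
    · show FCV_eV p (p.full.inc ⟨none, d⟩) = (FCV_W p).inc ⟨false, d⟩
      rcases FCV_c p.1.2.2.1.rep.1 (p.1.2.2.1.rep.1.inc (Sum.inl d)) with ⟨b, hb⟩ | hb
      · rw [hn d b hb, hw d b hb]
        exact FCV_vm_pole p b
      · rw [hni d hb, hwi d hb]
        rfl
    · show FCV_eV p (p.full.inc ⟨some i, d⟩) = (FCV_W p).inc ⟨true, (⟨i, d⟩ : (FCV_A p).D)⟩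
      rw [FCV_vm_inc]
      rcases FCV_c (p.1.2.1 i).rep.1 ((p.1.2.1 i).rep.1.inc (Sum.inl d)) with ⟨b, hb⟩ | hb
      · rw [hs i d b hb, ha i d b hb]
        rfl
      · rw [hsi i d hb, hai i d hb, FCV_vm_int p (fun b hb => by cases hb)]
        rfl
  · rintro (x | ⟨_ | i, x⟩) hx
    · have hx' : x ≠ (core p.1.1).vinc (Sum.inr true) := fun h => hx (congrArg Sum.inl h)
      have h1 : p.full.lab (Sum.inl x) = p.1.2.2.2 ⟨x, hx'⟩ := dif_pos hx'
      rw [h1]
      show (FCV_W p).lab (FCV_vm p (Sum.inl x)) = _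
      by_cases h2 : x = (core p.1.1).vinc (Sum.inr false)
      · subst h2
        have h3 : FCV_vm p (Sum.inl ((core p.1.1).vinc (Sum.inr false))) = Sum.inl false :=
          FCV_vm_pole p false
        rw [h3]
        rfl
      · have h3 : ∀ b, x ≠ (core p.1.1).vinc (Sum.inr b) := by
          rintro (_ | _)
          · exact h2
          · exact hx'
        rw [FCV_vm_int p (y := Sum.inl x) (fun b hb => h3 b (Sum.inl_injective hb))]
        show gx p.1.ix.2.2 x = _
        exact dif_pos h3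
    · rfl
    · rfl

end full

/-- the network of the code `p.ix` parallel to the network of the root edge: write the isomorphism down -/
theorem FCR.full_toIN (p : FCR Λ) : ∃ e f, VMatch p.full (vnet p.toIN) e f ∧
    ∀ d, d ∈ p.part (Sum.inr true) ↔ e d ∈ inN p.toIN := by
  have h1 : NIso (FCV_A p) p.toIN.2.1.1.rep.1 := (cls_iso _ _).symm
  obtain ⟨e, f, h2, h3⟩ := POV_toIN p.toIN h1
  have h4 : VMatch p.full _ _ _ := FCV_match p
  refine ⟨_, _, h4.trans h2, ?_⟩
  intro d
  have h5 := h3 (FCV_eD p d)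
  refine Iff.trans ?_ h5
  obtain ⟨_ | i, d⟩ := d
  · exact ⟨fun _ => rfl, fun _ => mem_filter.2 ⟨mem_univ _, rfl⟩⟩
  · constructor
    · intro h
      cases (mem_filter.1 h).2
    · intro h
      cases h

/-- the networks on corresponding edges -/
theorem FCV_net {x y : NC Λ} {c c' : Bool}
    (h : (if c' then y else y.fl) = (if c then x else x.fl)) :
    NIso x.rep.1 (LNet.fl (xor c c') y.rep.1) := by
  cases c <;> cases c'
  · have h7 : y.fl = x.fl := h
    rw [NC.fl_inj h7]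
    exact (fl_false _).symm
  · have h7 : y = x.fl := h
    rw [h7]
    show NIso x.rep.1 (LNet.fl true x.fl.rep.1)
    exact (((NC.fl_rep x).fl true).trans ((fl_fl true true _).trans (fl_false _))).symm
  · have h7 : y.fl = x := h
    rw [← h7]
    exact NC.fl_rep y
  · have h7 : y = x := h
    rw [h7]
    exact (fl_false _).symm

/-- the darts of a core with all edges -/
def FCV_E (C : Core) : C.toB.T ≃ Option C.I × Bool where
  toFun
    | Sum.inl (i, b) => (some i, b)
    | Sum.inr b => (none, b)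
  invFun
    | (some i, b) => Sum.inl (i, b)
    | (none, b) => Sum.inr b
  left_inv := by rintro (⟨i, b⟩ | b) <;> rfl
  right_inv := by rintro ⟨_ | i, b⟩ <;> rfl

theorem FCV_E_fst (C : Core) (t : C.toB.T) : (FCV_E C t).1 = edgeOf C t := by
  rcases t with ⟨i, b⟩ | b <;> rfl

theorem FCV_E_aa (C : Core) (t : C.toB.T) :
    FCV_E C (C.toB.aa t) = ((FCV_E C t).1, !(FCV_E C t).2) := by
  rcases t with ⟨i, b⟩ | b <;> rfl

theorem FCV_E_vinc (C : Core) (t : C.toB.T) : edgeE C (FCV_E C t) = C.vinc t := by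
  rcases t with ⟨i, b⟩ | b <;> rfl

/-- the network of the edge `e` -/
noncomputable def FCV_n (p : FCR Λ) (e : Option (core p.1.1).I) : NC Λ :=
  e.elim p.1.2.2.1 p.1.2.1

theorem FCV_deco (p : FCR Λ) (t : CT p.1.1) : p.1.hat.2.1 t =
    if (FCV_E (core p.1.1) t).2 then FCV_n p (FCV_E (core p.1.1) t).1
      else (FCV_n p (FCV_E (core p.1.1) t).1).fl := by
  rcases t with ⟨i, b⟩ | b
  · rfl
  · rfl

theorem FCV_nN (p : FCR Λ) (e : Option (core p.1.1).I) :
    FCV_N p e = (FCV_n p e).rep.1 := by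
  rcases e with _ | i <;> rfl

/-- `vglue_match`; the darts of the core with all edges are `Option I × Bool` -/
theorem FCR.full_match {p q : FCR Λ} {o : Bool} {ψ : CT p.1.hat.1 ≃ CT q.1.hat.1}
    (h : DM p.1.hat q.1.hat o ψ) : ∃ e f, VMatch p.full q.full e f ∧
      ∀ t d, d ∈ p.part t ↔ e d ∈ q.part (ψ t) := by
  obtain ⟨θ, hθ⟩ : ∃ θ : (core p.1.1).CV ≃ (core q.1.1).CV,
      ∀ t : CT p.1.hat.1, θ ((core p.1.1).vinc t) = (core q.1.1).vinc (ψ t) := DMLib.exists_cv h
  have hlab : ∀ x : (core p.1.1).CV, q.1.hat.2.2 (θ x) = p.1.hat.2.2 x := by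
    intro x
    obtain ⟨t, rfl⟩ := DMLibB.vinc_surj _ x
    exact (congrArg q.1.hat.2.2 (hθ t)).trans (h.g t)
  have hroot : ∀ x : (core p.1.1).CV, x = (core p.1.1).vinc (Sum.inr true) ↔
      θ x = (core q.1.1).vinc (Sum.inr true) := by
    intro x
    have h3 := DMLib.hat_none p.1 x
    have h4 := DMLib.hat_none q.1 (θ x)
    rw [hlab] at h4
    exact h3.symm.trans h4
  set ψ' : (Option (core p.1.1).I × Bool) ≃ (Option (core q.1.1).I × Bool) :=
    (FCV_E (core p.1.1)).symm.trans ((show (core p.1.1).toB.T ≃ (core q.1.1).toB.T from ψ).trans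
      (FCV_E (core q.1.1))) with hψ'
  have hψE : ∀ t : CT p.1.1, ψ' (FCV_E (core p.1.1) t) = FCV_E (core q.1.1) (ψ t) := by
    intro t
    rw [hψ']
    simp only [Equiv.trans_apply, Equiv.symm_apply_apply]
    rfl
  have hψa : ∀ e c, ψ' (e, !c) = ((ψ' (e, c)).1, !(ψ' (e, c)).2) := by
    intro e c
    obtain ⟨t, ht⟩ := (FCV_E (core p.1.1)).surjective (e, c)
    have h1 : (e, !c) = FCV_E (core p.1.1) ((core p.1.1).toB.aa t) := by
      rw [FCV_E_aa, ht]
    have h2 : ψ ((core p.1.1).toB.aa t) = (core q.1.1).toB.aa (ψ t) := h.a t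
    rw [h1, hψE, h2, FCV_E_aa, ← ht, hψE]
  obtain ⟨e, f, h1, h2⟩ := vglue_match (edgeE (core p.1.1)) (edgeE (core q.1.1))
    ((core p.1.1).vinc (Sum.inr true)) ((core q.1.1).vinc (Sum.inr true)) (FCV_N p) (FCV_N q)
    (FCV_Ng p) (FCV_Ng q) (FCV_g p) (FCV_g q) ψ' θ (fun e c => ⟨_, _, rfl, hψa e c⟩) (by
      intro t
      obtain ⟨t, rfl⟩ := (FCV_E (core p.1.1)).surjective t
      rw [FCV_E_vinc, hψE, FCV_E_vinc]
      exact hθ t) ((hroot _).1 rfl) (by
      intro e c e' c' he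
      obtain ⟨t, ht⟩ := (FCV_E (core p.1.1)).surjective (e, c)
      have h5 := h.f t
      rw [FCV_deco, FCV_deco, ht] at h5
      rw [← ht, hψE] at he
      rw [he] at h5
      rw [FCV_nN, FCV_nN]
      exact FCV_net h5) (by
      intro x hx
      have hx' : θ x ≠ (core q.1.1).vinc (Sum.inr true) := fun h => hx ((hroot x).2 h)
      have h3 : FCV_g q (θ x) = q.1.2.2.2 ⟨θ x, hx'⟩ := dif_pos hx'
      have h4 : FCV_g p x = p.1.2.2.2 ⟨x, hx⟩ := dif_pos hx
      rw [h3, h4]
      have h5 := hlab x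
      have h6 := DMLib.hat_some p.1 ⟨x, hx⟩
      have h7 := DMLib.hat_some q.1 ⟨θ x, hx'⟩
      exact Option.some.inj (h7.symm.trans (h5.trans h6)))
  refine ⟨e, f, h1, ?_⟩
  intro t d
  have h3 := h2 d
  set i := vside (edgeE (core p.1.1)) ((core p.1.1).vinc (Sum.inr true)) (FCV_N p) (FCV_g p) d
    with hi
  have h4 : d ∈ p.part t ↔ i = edgeOf (core p.1.1) t :=
    ⟨fun h => (mem_filter.1 h).2, fun h => mem_filter.2 ⟨mem_univ _, h⟩⟩
  have h5 : e d ∈ q.part (ψ t) ↔ (ψ' (i, true)).1 = edgeOf (core q.1.1) (ψ t) := by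
    constructor
    · intro h
      exact h3.symm.trans (mem_filter.1 h).2
    · intro h
      exact mem_filter.2 ⟨mem_univ _, h3.trans h⟩
  refine h4.trans (Iff.trans ?_ h5.symm)
  have e1 := FCV_E_fst (core p.1.1) t
  have e2 := FCV_E_fst (core q.1.1) (ψ t)
  rw [← e1, ← e2, ← hψE]
  constructor
  · intro h6
    rcases h7 : FCV_E (core p.1.1) t with ⟨j, c⟩
    rw [h7] at h6
    have h6 : i = j := h6
    rw [h6]
    cases c
    · have h8 := hψa j true
      rw [Bool.not_true] at h8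
      rw [h8]
    · rfl
  · intro h6
    rcases h7 : FCV_E (core p.1.1) t with ⟨j, c⟩
    rw [h7] at h6
    show i = j
    rcases h8 : ψ' (i, true) with ⟨i', b⟩
    rcases h9 : ψ' (j, c) with ⟨j', b'⟩
    rw [h8, h9] at h6
    have h6 : i' = j' := h6
    by_cases hb : b = b'
    · have h10 : ψ' (i, true) = ψ' (j, c) := by rw [h8, h9, h6, hb]
      exact congrArg Prod.fst (ψ'.injective h10)
    · have h10 : ψ' (i, true) = ψ' (j, !c) := by
        rw [hψa j c, h9, h8, h6]
        have : b = !b' := by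
          revert hb
          cases b <;> cases b' <;> simp
        rw [this]
      exact congrArg Prod.fst (ψ'.injective h10)

theorem FCV_iso (p : FCR Λ) : VIso p.full (vnet p.toIN) := by
  obtain ⟨e, f, h, -⟩ := p.full_toIN
  exact ⟨e, f, h⟩

theorem FCR.full_good (p : FCR Λ) : p.full.IsGood := by
  obtain ⟨e, f, h⟩ := FCV_iso p
  exact VIso.good ⟨_, _, h.symm⟩ (vnet_good p.toIN)

theorem FCR.full_card (p : FCR Λ) : Fintype.card p.full.D = p.nT := by
  have h : Fintype.card p.full.D = ∑ e, Fintype.card (FCV_N p e).D := by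
    rw [FCV_full]
    exact vglue_card _ _ _ _
  rw [h, Fintype.sum_option]
  show nd p.1.2.2.1 + ∑ i, nd (p.1.2.1 i) = (∑ i, nd (p.1.2.1 i)) + nd p.1.2.2.1
  exact Nat.add_comm _ _

theorem FCV_nd_fl (x : NC Λ) : nd x.fl = nd x := (NC.fl_rep x).card_eq

theorem FCR.part_card (p : FCR Λ) (t : CT p.1.1) : (p.part t).card = nd (p.1.hat.2.1 t) := by
  have h : (p.part t).card = Fintype.card (FCV_N p (edgeOf (core p.1.1) t)).D :=
    vside_card (edgeE (core p.1.1)) ((core p.1.1).vinc (Sum.inr true)) (FCV_N p) (FCV_g p) _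
  rw [h]
  rcases t with ⟨i, b⟩ | b
  · cases b
    · exact (FCV_nd_fl _).symm
    · rfl
  · cases b
    · exact (FCV_nd_fl _).symm
    · rfl

theorem FCR.wV_full (w : Λ → ℝ≥0∞) (p : FCR Λ) : wtV w p.full = p.1.wt w := by
  rw [FCV_full, FCV_wV, Fintype.prod_option]
  unfold FC.wt
  have h1 : ∏ x : {x // x ≠ (core p.1.1).vinc (Sum.inr true)}, w (FCV_g p x.1) =
      ∏ x : CExt (core p.1.1), w (p.1.2.2.2 x) := by
    refine Finset.prod_congr rfl fun x _ => ?_
    have h2 : FCV_g p x.1 = p.1.2.2.2 ⟨x.1, x.2⟩ := dif_pos x.2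
    rw [h2]
  rw [h1]
  show _ * (PGr.wt w p.1.2.2.1.rep.1 * ∏ i, PGr.wt w (p.1.2.1 i).rep.1) = _
  ring

theorem FCR.nT_eq {p q : FCR Λ} (h : (fcSetoid Λ).r p q) : p.nT = q.nT := by
  obtain ⟨o, ψ, h⟩ := h
  obtain ⟨e, f, -, -⟩ := FCR.full_match h
  rw [← p.full_card, ← q.full_card]
  exact Fintype.card_congr e

end PGr

end

section
/-! # Module FCN: the networks of a rigid node at the root vertex -/

set_option linter.unusedSectionVars false

namespace PGr
open Equiv Finset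
open scoped ENNReal Classical
universe u
open NetSumC
variable {Λ : Type u} [Nonempty Λ]

section
variable (p : FCR Λ)

/-- the edge of a dart -/
noncomputable def FCN_side (d : p.full.D) : Option (core p.1.1).I :=
  vside (edgeE (core p.1.1)) ((core p.1.1).vinc (Sum.inr true)) (FCV_N p) (FCV_g p) d

theorem FCN_mem (t : CT p.1.1) (d : p.full.D) :
    d ∈ p.part t ↔ FCN_side p d = edgeOf (core p.1.1) t :=
  ⟨fun h => (mem_filter.1 h).2, fun h => mem_filter.2 ⟨mem_univ _, h⟩⟩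

theorem FCN_a (d : p.full.D) : FCN_side p (p.full.a d) = FCN_side p d := rfl

theorem FCN_common {d d' : p.full.D} (hd : FCN_side p d ≠ FCN_side p d')
    (h : p.full.inc d = p.full.inc d') :
    ∃ b b', p.full.inc d = Sum.inl (edgeE (core p.1.1) (FCN_side p d, b)) ∧
      edgeE (core p.1.1) (FCN_side p d, b) = edgeE (core p.1.1) (FCN_side p d', b') :=
  vglue_common (edgeE (core p.1.1)) ((core p.1.1).vinc (Sum.inr true)) (FCV_N p) (FCV_g p) hd h

theorem FCN_ne (e : Option (core p.1.1).I) : ∃ d, FCN_side p d = e := by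
  obtain ⟨d⟩ := (FCV_Ng p e).ne
  exact ⟨⟨e, d⟩, rfl⟩

theorem FCN_good : (core p.1.1).toB.IsGood := (core_iso p.1.1).symm.good p.1.1.rep.2

theorem FCN_rigid : Rigid (core p.1.1).toB := (core_iso p.1.1).symm.rigid p.2

/-- the set of darts on one edge -/
noncomputable def FCN_P (e : Option (core p.1.1).I) : Finset p.full.D :=
  univ.filter fun d => FCN_side p d = e

theorem FCN_memP (e : Option (core p.1.1).I) (d : p.full.D) :
    d ∈ FCN_P p e ↔ FCN_side p d = e := by
  unfold FCN_P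
  rw [mem_filter]
  exact ⟨fun h => h.2, fun h => ⟨mem_univ _, h⟩⟩

theorem FCN_clP (e : Option (core p.1.1).I) : Cl p.full.a (FCN_P p e) := by
  intro d
  rw [FCN_memP, FCN_memP, FCN_a]

/-- the vertices shared by one edge -/
theorem FCN_shP (e : Option (core p.1.1).I) {y : p.full.V} (h : Sh p.full.inc (FCN_P p e) y) :
    ∃ b, y = Sum.inl (edgeE (core p.1.1) (e, b)) := by
  obtain ⟨⟨d, hd, hy⟩, d', hd', hy'⟩ := h
  rw [FCN_memP] at hd hd'
  obtain ⟨b, b', h1, -⟩ := FCN_common p (d := d) (d' := d') (by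
    rw [hd]
    exact fun h => hd' h.symm) (hy.trans hy'.symm)
  rw [hd] at h1
  exact ⟨b, by rw [← hy, h1]⟩

theorem FCN_kP (e : Option (core p.1.1).I) : (shV p.full.inc (FCN_P p e)).card ≤ 2 := by
  have h : shV p.full.inc (FCN_P p e) ⊆
      (univ : Finset Bool).image fun b => (Sum.inl (edgeE (core p.1.1) (e, b)) : p.full.V) := by
    intro y hy
    rw [mem_shV] at hy
    obtain ⟨b, hb⟩ := FCN_shP p e hy
    exact mem_image.2 ⟨b, mem_univ _, hb.symm⟩
  refine (card_le_card h).trans (card_image_le.trans ?_)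
  rw [card_univ, Fintype.card_bool]

theorem FCN_two {A : Finset p.full.D} (hA : Cl p.full.a A) (hne : A.Nonempty) (hu : A ≠ univ) :
    2 ≤ (shV p.full.inc A).card := by
  obtain ⟨x, y, hxy, hx, hy⟩ := p.full_good.two A hA hne hu
  have : ({x, y} : Finset p.full.V) ⊆ shV p.full.inc A := by
    intro z hz
    rw [mem_insert, mem_singleton] at hz
    rw [mem_shV]
    rcases hz with rfl | rfl
    · exact hx
    · exact hy
  have h2 := card_le_card this
  rwa [card_pair hxy] at h2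

/-- uncrossing with the network of the root edge -/
theorem FCN_union {A : Finset p.full.D} (hA : Cl p.full.a A)
    (hk : (shV p.full.inc A).card ≤ 2) (h1 : ∃ d ∈ A, FCN_side p d = none) :
    (shV p.full.inc (A ∪ FCN_P p none)).card ≤ 2 := by
  have h2 := shV_inter_union p.full.inc A (FCN_P p none)
  have h3 := FCN_kP p none
  have h4 : 2 ≤ (shV p.full.inc (A ∩ FCN_P p none)).card := by
    apply FCN_two
    · intro d
      rw [mem_inter, mem_inter, hA d, FCN_clP p none d]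
    · obtain ⟨d, hd, hd'⟩ := h1
      exact ⟨d, mem_inter.2 ⟨hd, (FCN_memP p _ _).2 hd'⟩⟩
    · intro h5
      have hI := CompFour.card_I _ (FCN_rigid p)
      have : Nonempty (core p.1.1).I := Fintype.card_pos_iff.1 (by omega)
      obtain ⟨i⟩ := this
      obtain ⟨d, hd⟩ := FCN_ne p (some i)
      have h6 : d ∈ A ∩ FCN_P p none := by rw [h5]; exact mem_univ _
      rw [mem_inter, FCN_memP, hd] at h6
      cases h6.2
  omega

/-- the network of the other edges -/
noncomputable abbrev FCN_G : LNet Λ := FCV_A p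

/-- a vertex of this network as a vertex of the graph -/
noncomputable def FCN_i : (FCN_G p).V → p.full.V
  | Sum.inl x => Sum.inl x
  | Sum.inr ⟨i, x⟩ => Sum.inr ⟨some i, x⟩

theorem FCN_i_inj : Function.Injective (FCN_i p) := by
  rintro (x | ⟨i, x⟩) (y | ⟨j, y⟩) h
  · have h : (Sum.inl x : p.full.V) = Sum.inl y := h
    rw [Sum.inl_injective h]
  · cases h
  · cases h
  · have h : (Sum.inr ⟨some i, x⟩ : p.full.V) = Sum.inr ⟨some j, y⟩ := h
    have h2 := Sum.inr_injective h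
    obtain rfl : i = j := Option.some.inj (congrArg Sigma.fst h2)
    have h3 : x = y := eq_of_heq (Sigma.mk.inj h2).2
    rw [h3]

theorem FCN_i_inc (i : (core p.1.1).I) (d : (p.1.2.1 i).rep.1.D) :
    FCN_i p ((FCN_G p).inc (Sum.inl ⟨i, d⟩)) = p.full.inc ⟨some i, d⟩ := by
  rcases FCV_c (p.1.2.1 i).rep.1 ((p.1.2.1 i).rep.1.inc (Sum.inl d)) with ⟨b, hb⟩ | hb
  · have h1 : (FCV_A p).inc (Sum.inl ⟨i, d⟩) = Sum.inl ((core p.1.1).vinc (Sum.inl (i, b))) :=
      FCV_p (core p.1.1).vinc (cX p.1.ix) i (p.1.2.1 i).rep.2 b hb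
    have h2 : p.full.inc ⟨some i, d⟩ = Sum.inl ((core p.1.1).vinc (Sum.inl (i, b))) :=
      FCV_p (Sum.elim (edgeE (core p.1.1)) fun _ => (core p.1.1).vinc (Sum.inr true)) (FCV_N p)
        (some i) (FCV_Ng p (some i)) b hb
    rw [h1, h2]
    rfl
  · have h1 : (FCV_A p).inc (Sum.inl ⟨i, d⟩) =
        Sum.inr ⟨i, ⟨(p.1.2.1 i).rep.1.inc (Sum.inl d), hb⟩⟩ :=
      GlueLib.inc_int (core p.1.1).vinc (cX p.1.ix) (i := i) (hb true) (hb false)
    have h2 : p.full.inc ⟨some i, d⟩ =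
        Sum.inr ⟨some i, ⟨(p.1.2.1 i).rep.1.inc (Sum.inl d), hb⟩⟩ :=
      GlueLib.inc_int (Sum.elim (edgeE (core p.1.1)) fun _ => (core p.1.1).vinc (Sum.inr true))
        (FCV_N p) (i := some i) (hb true) (hb false)
    rw [h1, h2]
    rfl

/-- a set of darts without darts on the root edge -/
noncomputable def FCN_s (A : Finset p.full.D) : Finset (FCN_G p).T :=
  univ.filter fun t => ∃ (i : (core p.1.1).I) (d : (p.1.2.1 i).rep.1.D),
    t = Sum.inl ⟨i, d⟩ ∧ (⟨some i, d⟩ : p.full.D) ∈ A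

theorem FCN_mem_s (A : Finset p.full.D) (i : (core p.1.1).I) (d : (p.1.2.1 i).rep.1.D) :
    (Sum.inl ⟨i, d⟩ : (FCN_G p).T) ∈ FCN_s p A ↔ (⟨some i, d⟩ : p.full.D) ∈ A := by
  unfold FCN_s
  constructor
  · intro h
    obtain ⟨j, d', h1, h2⟩ := (mem_filter.1 h).2
    have h3 : (⟨i, d⟩ : Σ i, (p.1.2.1 i).rep.1.D) = ⟨j, d'⟩ := Sum.inl_injective h1
    obtain rfl : i = j := congrArg Sigma.fst h3
    have h4 : d = d' := by simpa using h3
    rw [h4]
    exact h2
  · intro h
    exact mem_filter.2 ⟨mem_univ _, i, d, rfl, h⟩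

theorem FCN_inr_s (A : Finset p.full.D) (b : Bool) :
    (Sum.inr b : (FCN_G p).T) ∉ FCN_s p A := by
  unfold FCN_s
  intro h
  obtain ⟨j, d', h1, -⟩ := (mem_filter.1 h).2
  cases h1

/-- closed sets without darts on the root edge -/
theorem FCN_L {A : Finset p.full.D} (hA : Cl p.full.a A) (hne : A.Nonempty)
    (hk : (shV p.full.inc A).card ≤ 2) (h0 : ∀ d, FCN_side p d = none → d ∉ A) :
    (∃ i, A ⊆ FCN_P p (some i)) ∨ ∀ d, FCN_side p d ≠ none → d ∈ A := by
  by_cases hall : ∀ d, FCN_side p d ≠ none → d ∈ A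
  · exact Or.inr hall
  left
  push Not at hall
  obtain ⟨d₁, h1, h1'⟩ := hall
  have hsh : ∀ y, Sh (FCN_G p).inc (FCN_s p A) y → Sh p.full.inc A (FCN_i p y) := by
    rintro y ⟨⟨t, ht, hy⟩, t', ht', hy'⟩
    rcases t with ⟨i, d⟩ | b
    swap
    · exact absurd ht (FCN_inr_s p A b)
    have ht2 := (FCN_mem_s p A i d).1 ht
    refine ⟨⟨⟨some i, d⟩, ht2, ?_⟩, ?_⟩
    · rw [← hy]
      exact (FCN_i_inc p i d).symm
    · rcases t' with ⟨j, d'⟩ | b
      · refine ⟨⟨some j, d'⟩, fun h => ht' ((FCN_mem_s p A j d').2 h), ?_⟩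
        rw [← hy']
        exact (FCN_i_inc p j d').symm
      · obtain ⟨d', hd'⟩ := NetSer.exists_pole p.1.2.2.1.rep.2 b
        refine ⟨⟨none, d'⟩, h0 _ rfl, ?_⟩
        have h2 : p.full.inc ⟨none, d'⟩ = Sum.inl ((core p.1.1).vinc (Sum.inr b)) :=
          FCV_p (Sum.elim (edgeE (core p.1.1)) fun _ => (core p.1.1).vinc (Sum.inr true)) (FCV_N p)
            none (FCV_Ng p none) b hd'
        rw [h2, ← hy']
        rfl
  have hk' : (shV (FCN_G p).inc (FCN_s p A)).card ≤ 2 := by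
    refine le_trans ?_ hk
    refine card_le_card_of_injOn (FCN_i p) ?_ (FCN_i_inj p).injOn
    intro y hy
    have hy' : y ∈ shV (FCN_G p).inc (FCN_s p A) := hy
    rw [mem_shV] at hy'
    have := (mem_shV (inc := p.full.inc)).2 (hsh y hy')
    exact this
  have hcl : Cl (FCN_G p).aa (FCN_s p A) := by
    rintro (⟨i, d⟩ | b)
    · have h2 := hA (⟨some i, d⟩ : p.full.D)
      refine Iff.trans ?_ (h2.trans (FCN_mem_s p A i d).symm)
      exact FCN_mem_s p A i ((p.1.2.1 i).rep.1.a d)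
    · constructor
      · intro h
        exact absurd h (FCN_inr_s p A (!b))
      · intro h
        exact absurd h (FCN_inr_s p A b)
  obtain ⟨i, hi⟩ := glue_four (core p.1.1) (FCN_good p) (FCN_rigid p) (cX p.1.ix)
    (fun i => (p.1.2.1 i).rep.2) (gx p.1.ix.2.2) (A := FCN_s p A) hcl (FCN_inr_s p A true) (by
      obtain ⟨⟨e, d⟩, hd⟩ := hne
      rcases e with _ | i
      · exact absurd hd (h0 _ rfl)
      · exact ⟨Sum.inl ⟨i, d⟩, (FCN_mem_s p A i d).2 hd⟩) hk' (by
      obtain ⟨e, d⟩ := d₁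
      rcases e with _ | i
      · exact absurd rfl h1
      · exact ⟨⟨i, d⟩, fun h => h1' ((FCN_mem_s p A i d).1 h)⟩)
  refine ⟨i, ?_⟩
  rintro ⟨e, d⟩ hd
  rcases e with _ | j
  · exact absurd hd (h0 _ rfl)
  · have h2 := hi ((FCN_mem_s p A j d).2 hd)
    rw [GlueFour.mem_gpart] at h2
    obtain ⟨d', h3⟩ := h2
    have h4 : (⟨j, d⟩ : Σ i, (p.1.2.1 i).rep.1.D) = ⟨i, d'⟩ := Sum.inl_injective h3
    rw [FCN_memP]
    show some j = some i
    rw [show j = i from congrArg Sigma.fst h4]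

/-- a set with at most two shared vertices is in one network, or its complement is -/
theorem FCN_dich {A : Finset p.full.D} (hA : Cl p.full.a A) (hne : A.Nonempty) (hu : A ≠ univ)
    (hk : (shV p.full.inc A).card ≤ 2) :
    ∃ e, A ⊆ FCN_P p e ∨ Aᶜ ⊆ FCN_P p e := by
  have hAc : Cl p.full.a Aᶜ := hA.compl
  have hkc : (shV p.full.inc Aᶜ).card ≤ 2 := by rw [shV_compl]; exact hk
  have hnec : (Aᶜ).Nonempty := by
    rw [nonempty_iff_ne_empty]
    intro h
    exact hu (by rwa [compl_eq_empty_iff] at h)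
  by_cases h1 : ∀ d, FCN_side p d = none → d ∉ A
  · rcases FCN_L p hA hne hk h1 with ⟨i, hi⟩ | h2
    · exact ⟨some i, Or.inl hi⟩
    · refine ⟨none, Or.inr fun d hd => ?_⟩
      rw [FCN_memP]
      by_contra h3
      exact (mem_compl.1 hd) (h2 d h3)
  by_cases h2 : ∀ d, FCN_side p d = none → d ∉ Aᶜ
  · rcases FCN_L p hAc hnec hkc h2 with ⟨i, hi⟩ | h3
    · exact ⟨some i, Or.inr hi⟩
    · refine ⟨none, Or.inl fun d hd => ?_⟩
      rw [FCN_memP]
      by_contra h4
      exact (mem_compl.1 (h3 d h4)) hd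
  push Not at h1 h2
  obtain ⟨d₁, h3, h3'⟩ := h1
  obtain ⟨d₂, h4, h4'⟩ := h2
  have k1 := FCN_union p hA hk ⟨d₁, h3', h3⟩
  have k2 := FCN_union p hAc hkc ⟨d₂, h4', h4⟩
  rw [← shV_compl] at k1 k2
  by_cases e1 : ((A ∪ FCN_P p none)ᶜ).Nonempty
  swap
  · rw [not_nonempty_iff_eq_empty, compl_eq_empty_iff] at e1
    refine ⟨none, Or.inr fun d hd => ?_⟩
    have : d ∈ A ∪ FCN_P p none := by rw [e1]; exact mem_univ _
    rcases mem_union.1 this with h5 | h5
    · exact absurd h5 (mem_compl.1 hd)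
    · exact h5
  by_cases e2 : ((Aᶜ ∪ FCN_P p none)ᶜ).Nonempty
  swap
  · rw [not_nonempty_iff_eq_empty, compl_eq_empty_iff] at e2
    refine ⟨none, Or.inl fun d hd => ?_⟩
    have : d ∈ Aᶜ ∪ FCN_P p none := by rw [e2]; exact mem_univ _
    rcases mem_union.1 this with h5 | h5
    · exact absurd hd (mem_compl.1 h5)
    · exact h5
  have hcl1 : Cl p.full.a (A ∪ FCN_P p none)ᶜ := (hA.union (FCN_clP p none)).compl
  have hcl2 : Cl p.full.a (Aᶜ ∪ FCN_P p none)ᶜ := (hAc.union (FCN_clP p none)).compl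
  have hn1 : ∀ d, FCN_side p d = none → d ∉ (A ∪ FCN_P p none)ᶜ := by
    intro d hd h5
    exact (mem_compl.1 h5) (mem_union_right _ ((FCN_memP p _ _).2 hd))
  have hn2 : ∀ d, FCN_side p d = none → d ∉ (Aᶜ ∪ FCN_P p none)ᶜ := by
    intro d hd h5
    exact (mem_compl.1 h5) (mem_union_right _ ((FCN_memP p _ _).2 hd))
  have hm1 : ∀ d, d ∈ (A ∪ FCN_P p none)ᶜ ↔ d ∉ A ∧ FCN_side p d ≠ none := by
    intro d
    rw [mem_compl, mem_union, FCN_memP, not_or]
  have hm2 : ∀ d, d ∈ (Aᶜ ∪ FCN_P p none)ᶜ ↔ d ∈ A ∧ FCN_side p d ≠ none := by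
    intro d
    rw [mem_compl, mem_union, FCN_memP, not_or, mem_compl, not_not]
  rcases FCN_L p hcl1 e1 k1 hn1 with ⟨i, hi⟩ | h5
  swap
  · exfalso
    obtain ⟨d, hd⟩ := e2
    rw [hm2] at hd
    exact ((hm1 d).1 (h5 d hd.2)).1 hd.1
  rcases FCN_L p hcl2 e2 k2 hn2 with ⟨j, hj⟩ | h5
  swap
  · exfalso
    obtain ⟨d, hd⟩ := e1
    rw [hm1] at hd
    exact hd.1 ((hm2 d).1 (h5 d hd.2)).1
  exfalso
  have hI := CompFour.card_I _ (FCN_rigid p)
  obtain ⟨k, hk1, hk2⟩ : ∃ k, k ≠ i ∧ k ≠ j := by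
    by_contra hcon
    push Not at hcon
    have h6 : (univ : Finset (core p.1.1).I) ⊆ {i, j} := by
      intro k _
      rw [mem_insert, mem_singleton]
      by_cases h7 : k = i
      · exact Or.inl h7
      · exact Or.inr (hcon k h7)
    have h7 := (card_le_card h6).trans card_le_two
    rw [card_univ] at h7
    omega
  obtain ⟨d, hd⟩ := FCN_ne p (some k)
  have hd0 : FCN_side p d ≠ none := by rw [hd]; simp
  by_cases h6 : d ∈ A
  · have h7 := hj ((hm2 d).2 ⟨h6, hd0⟩)
    rw [FCN_memP, hd] at h7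
    exact hk2 (Option.some.inj h7)
  · have h7 := hi ((hm1 d).2 ⟨h6, hd0⟩)
    rw [FCN_memP, hd] at h7
    exact hk1 (Option.some.inj h7)

theorem FCN_partP (t : CT p.1.1) : p.part t = FCN_P p (edgeOf (core p.1.1) t) := by
  ext d
  rw [FCN_mem, FCN_memP]

/-- a dart of the network on the edge `e` at a core vertex -/
theorem FCN_end {e : Option (core p.1.1).I} {x : (core p.1.1).CV} {d : p.full.D}
    (hd : FCN_side p d = e) (hx : p.full.inc d = Sum.inl x) :
    ∃ b, x = edgeE (core p.1.1) (e, b) := by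
  obtain ⟨e', d⟩ := d
  have hd : e' = e := hd
  subst hd
  rcases FCV_c (FCV_N p e') ((FCV_N p e').inc (Sum.inl d)) with ⟨b, hb⟩ | hb
  · have h2 : p.full.inc ⟨e', d⟩ = Sum.inl (edgeE (core p.1.1) (e', b)) :=
      FCV_p (Sum.elim (edgeE (core p.1.1)) fun _ => (core p.1.1).vinc (Sum.inr true)) (FCV_N p)
        e' (FCV_Ng p e') b hb
    rw [h2] at hx
    exact ⟨b, (Sum.inl_injective hx).symm⟩
  · have h2 : p.full.inc ⟨e', d⟩ =
        Sum.inr ⟨e', ⟨(FCV_N p e').inc (Sum.inl d), hb⟩⟩ :=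
      GlueLib.inc_int (Sum.elim (edgeE (core p.1.1)) fun _ => (core p.1.1).vinc (Sum.inr true))
        (FCV_N p) (i := e') (hb true) (hb false)
    rw [h2] at hx
    cases hx

theorem FCN_root {e : Option (core p.1.1).I} {d : p.full.D}
    (hd : FCN_side p d = e) (hx : p.full.inc d = p.full.v0) :
    ∃ t, (core p.1.1).s.SameCycle (Sum.inr true) t ∧ edgeOf (core p.1.1) t = e := by
  obtain ⟨b, hb⟩ := FCN_end p (x := (core p.1.1).vinc (Sum.inr true)) hd hx
  obtain ⟨t, ht⟩ := (FCV_E (core p.1.1)).surjective (e, b)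
  refine ⟨t, ?_, ?_⟩
  · rw [← ht, FCV_E_vinc] at hb
    exact DMLibB.vinc_eq_iff.1 hb
  · rw [← FCV_E_fst, ht]

/-- an edge at the root vertex: its two ends -/
theorem FCN_ends {t : CT p.1.1} (ht : (core p.1.1).s.SameCycle (Sum.inr true) t) (b : Bool) :
    edgeE (core p.1.1) (edgeOf (core p.1.1) t, b) = (core p.1.1).vinc (Sum.inr true) ∨
      edgeE (core p.1.1) (edgeOf (core p.1.1) t, b) =
        (core p.1.1).vinc ((core p.1.1).toB.aa t) := by
  have h1 : (core p.1.1).vinc t = (core p.1.1).vinc (Sum.inr true) :=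
    DMLibB.vinc_eq_iff.2 ht.symm
  rcases h2 : FCV_E (core p.1.1) t with ⟨e, c⟩
  have h3 : edgeOf (core p.1.1) t = e := by rw [← FCV_E_fst, h2]
  rw [h3]
  by_cases hb : b = c
  · left
    rw [hb, ← h2, FCV_E_vinc, h1]
  · right
    have h4 : FCV_E (core p.1.1) ((core p.1.1).toB.aa t) = (e, b) := by
      rw [FCV_E_aa, h2]
      have : b = !c := by
        revert hb
        cases b <;> cases c <;> simp
      rw [this]
    rw [← h4, FCV_E_vinc]

theorem FCN_loop (t : CT p.1.1) :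
    (core p.1.1).vinc ((core p.1.1).toB.aa t) ≠ (core p.1.1).vinc t := by
  intro h
  exact (FCN_good p).noLoop t (DMLibB.vinc_eq_iff.1 h).symm

end

/-- `sep`: the part of `t` shares with the rest the two ends of the edge of `t`.  `dj`: in a rigid map two edges at `v0` have
different other ends (`Rg3.simple`).  `dich`: let `Sep x A`; let `n ≥ 4` be the number of edges of the map, `P_i` the parts, and
`κ B` the number of vertices which `B` has in common with its complement (`shV`).  If both `A ∩ P_i` and `P_i \ A` are nonempty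
(`i` is crossed), then `κ (A ∪ P_i) ≤ 2` by `shV_inter_union` and `κ (A ∩ P_i) ≥ 2` (`two`), and `κ (A \ P_i) ≤ 2` in the same way for
the complement of `A`.  So for every set `J` of edges with `J₋ ⊆ J ⊆ J₊`, `J₋ = {i : P_i ⊆ A}`, `J₊ = {i : P_i ∩ A ≠ ∅}`, the
union `U J` of the `P_i`, `i ∈ J`, has `κ ≤ 2` (treat the crossed edges one after the other: induction on the number of
crossed edges).  By `Rg3.three_shared` (the vertices shared by `J` in the core are shared by `U J`) every such `J` has at most one or at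
least `n - 1` elements.  If `|J₊| ≤ 1`, then `A ⊆ P_i`; if `|J₋| ≥ n - 1`, then `Aᶜ ⊆ P_i`; otherwise `|J₋| ≤ 1` and `|J₊| ≥ n - 1 ≥ 3`, and
there is a `J` between them with two elements, contradiction.  Since `v0` is a common vertex of `A` and `Aᶜ` (`Sep.sh_iff`), it
is a vertex of `P_i` in both cases, so `i` is the edge of a dart at the root vertex. -/
theorem FCR.bnode (p : FCR Λ) : BNode p.full fun A =>
    ∃ t, (core p.1.1).s.SameCycle (Sum.inr true) t ∧ A = p.part t where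
  sep := by
    rintro A ⟨t, ht, rfl⟩
    have h1 : (core p.1.1).vinc t = (core p.1.1).vinc (Sum.inr true) :=
      DMLibB.vinc_eq_iff.2 ht.symm
    refine ⟨Sum.inl ((core p.1.1).vinc ((core p.1.1).toB.aa t)), ?_, ?_, ?_, ?_, ?_⟩
    · rw [FCN_partP]
      exact FCN_clP p _
    · obtain ⟨d, hd⟩ := FCN_ne p (edgeOf (core p.1.1) t)
      exact ⟨d, (FCN_mem p t d).2 hd⟩
    · intro h
      have hI := CompFour.card_I _ (FCN_rigid p)
      obtain ⟨e, he⟩ : ∃ e, e ≠ edgeOf (core p.1.1) t := by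
        by_contra hcon
        push Not at hcon
        have h6 : (univ : Finset (Option (core p.1.1).I)) ⊆ {edgeOf (core p.1.1) t} := by
          intro k _
          rw [mem_singleton]
          exact hcon k
        have h7 := card_le_card h6
        rw [card_univ, card_singleton, Fintype.card_option] at h7
        omega
      obtain ⟨d, hd⟩ := FCN_ne p e
      have h2 : d ∈ p.part t := by rw [h]; exact mem_univ _
      rw [FCN_mem, hd] at h2
      exact he h2
    · intro h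
      have h2 := Sum.inl_injective h
      rw [← h1] at h2
      exact FCN_loop p t h2
    · intro y hy
      rw [FCN_partP] at hy
      obtain ⟨b, hb⟩ := FCN_shP p _ hy
      rcases FCN_ends p ht b with h2 | h2
      · left
        rw [hb, h2]
        rfl
      · right
        rw [hb, h2]
  dj := by
    rintro A A' ⟨t, ht, rfl⟩ ⟨t', ht', rfl⟩ hne d hd d' hd' h
    rw [FCN_mem] at hd hd'
    have hee : edgeOf (core p.1.1) t ≠ edgeOf (core p.1.1) t' := by
      intro h1
      apply hne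
      rw [FCN_partP, FCN_partP, h1]
    obtain ⟨b, b', h1, h2⟩ := FCN_common p (by rw [hd, hd']; exact hee) h
    rw [hd] at h1 h2
    rw [hd'] at h2
    rw [h1]
    rcases FCN_ends p ht b with h3 | h3
    · rw [h3]
      rfl
    · rcases FCN_ends p ht' b' with h4 | h4
      · rw [h2, h4]
        rfl
      · exfalso
        rw [h3, h4] at h2
        apply hee
        have h5 : t = t' := Rg3.simple (FCN_good p) ((rigid_iff _).1 (FCN_rigid p))
          (ht.symm.trans ht') (DMLibB.vinc_eq_iff.1 h2)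
        rw [h5]
  dich := by
    intro x A hA
    have hk : (shV p.full.inc A).card ≤ 2 := by
      have h1 : shV p.full.inc A ⊆ {p.full.v0, x} := by
        intro y hy
        rw [mem_shV] at hy
        rw [mem_insert, mem_singleton]
        exact hA.sh y hy
      exact (card_le_card h1).trans card_le_two
    have hv : Sh p.full.inc A p.full.v0 := (hA.sh_iff p.full_good _).2 (Or.inl rfl)
    obtain ⟨⟨d, hd, hd'⟩, d₂, hd₂, hd₂'⟩ := hv
    obtain ⟨e, he | he⟩ := FCN_dich p hA.cl hA.ne hA.nu hk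
    · obtain ⟨t, ht, ht'⟩ := FCN_root p ((FCN_memP p _ _).1 (he hd)) hd'
      exact ⟨_, ⟨t, ht, rfl⟩, Or.inl (by rw [FCN_partP, ht']; exact he)⟩
    · obtain ⟨t, ht, ht'⟩ := FCN_root p ((FCN_memP p _ _).1 (he (mem_compl.2 hd₂))) hd₂'
      exact ⟨_, ⟨t, ht, rfl⟩, Or.inr (by rw [FCN_partP, ht']; exact he)⟩

/-- number of darts on an edge -/
theorem FCN_cardP (p : FCR Λ) (t : CT p.1.1) :
    nd (p.1.hat.2.1 t) = (FCN_P p (edgeOf (core p.1.1) t)).card := by
  rw [← p.part_card t, FCN_partP]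

/-- every part is smaller than the complement of another part -/
theorem FCR.part_lt (p : FCR Λ) {t t' : CT p.1.1}
    (h : edgeOf (core p.1.1) t ≠ edgeOf (core p.1.1) t') :
    nd (p.1.hat.2.1 t) + nd (p.1.hat.2.1 t') < p.nT := by
  rw [FCN_cardP, FCN_cardP, ← p.full_card, ← card_univ, ← card_union_of_disjoint]
  · apply card_lt_card
    rw [ssubset_univ_iff]
    intro h1
    have hI := CompFour.card_I _ (FCN_rigid p)
    obtain ⟨e, he, he'⟩ : ∃ e, e ≠ edgeOf (core p.1.1) t ∧ e ≠ edgeOf (core p.1.1) t' := by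
      by_contra hcon
      push Not at hcon
      have h6 : (univ : Finset (Option (core p.1.1).I)) ⊆
          {edgeOf (core p.1.1) t, edgeOf (core p.1.1) t'} := by
        intro k _
        rw [mem_insert, mem_singleton]
        by_cases h7 : k = edgeOf (core p.1.1) t
        · exact Or.inl h7
        · exact Or.inr (hcon k h7)
      have h7 := (card_le_card h6).trans card_le_two
      rw [card_univ, Fintype.card_option] at h7
      omega
    obtain ⟨d, hd⟩ := FCN_ne p e
    have h2 : d ∈ FCN_P p (edgeOf (core p.1.1) t) ∪ FCN_P p (edgeOf (core p.1.1) t') := by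
      rw [h1]; exact mem_univ _
    rw [mem_union, FCN_memP, FCN_memP, hd] at h2
    rcases h2 with h2 | h2
    · exact he h2
    · exact he' h2
  · rw [disjoint_left]
    intro d hd hd'
    rw [FCN_memP] at hd hd'
    exact h (hd.symm.trans hd')

/-- at most one part at `v0` contains half of the darts: the parts of different edges are disjoint and there is a third edge -/
theorem FCR.heavy_unique (p : FCR Λ) {t t' : CT p.1.1} (h : p.nT ≤ 2 * nd (p.1.hat.2.1 t))
    (h' : p.nT ≤ 2 * nd (p.1.hat.2.1 t')) :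
    edgeOf (core p.1.1) t = edgeOf (core p.1.1) t' := by
  by_contra hne
  have := p.part_lt hne
  omega

end PGr

end

section
/-! # Module PON: the networks of a polygon at the root vertex form a node -/

set_option linter.unusedSectionVars false

namespace PGr
open Equiv Finset
open scoped ENNReal Classical
universe u
open NetSumC
variable {Λ : Type u}

section
variable (p : PO Λ)

/-- the edge of the triangle of a dart -/
private noncomputable def PON_side (d : p.full.D) : Option Bool :=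
  vside triE none (fun e : Option Bool => e.elim p.2.1.1.rep.1 fun c =>
      bif c then p.1.2.rep.1 else p.2.2.2.rep.1)
      (fun x => x.elim p.1.1 fun c => bif c then p.1.1 else p.2.2.1) d

private theorem PON_mem (e : Option Bool) (d : p.full.D) : d ∈ p.part e ↔ PON_side p d = e :=
  ⟨fun h => (mem_filter.1 h).2, fun h => mem_filter.2 ⟨mem_univ _, h⟩⟩

private theorem PON_a (d : p.full.D) : PON_side p (p.full.a d) = PON_side p d := rfl

private theorem PON_common {d d' : p.full.D} (hd : PON_side p d ≠ PON_side p d')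
    (h : p.full.inc d = p.full.inc d') : ∃ b b', p.full.inc d = Sum.inl (triE (PON_side p d, b)) ∧
      triE (PON_side p d, b) = triE (PON_side p d', b') :=
  vglue_common triE none (fun e : Option Bool => e.elim p.2.1.1.rep.1 fun c =>
      bif c then p.1.2.rep.1 else p.2.2.2.rep.1)
      (fun x => x.elim p.1.1 fun c => bif c then p.1.1 else p.2.2.1) hd h

/-- darts of the two networks at `v0` -/
private theorem PON_some {d d' : p.full.D} {c c' : Bool} (hc : c ≠ c')
    (hd : PON_side p d = some c) (hd' : PON_side p d' = some c')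
    (h : p.full.inc d = p.full.inc d') : p.full.inc d = p.full.v0 := by
  obtain ⟨b, b', h1, h2⟩ := PON_common p (by rw [hd, hd']; simpa using hc) h
  rw [hd] at h1 h2
  rw [hd'] at h2
  rw [h1]
  cases b
  · cases b'
    · exact absurd (Option.some.inj h2) hc
    · cases h2
  · rfl

private theorem PON_none {d d' : p.full.D} {c : Bool}
    (hd : PON_side p d = some c) (hd' : PON_side p d' = none)
    (h : p.full.inc d = p.full.inc d') : p.full.inc d = Sum.inl (some c) := by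
  obtain ⟨b, b', h1, h2⟩ := PON_common p (by rw [hd, hd']; simp) h
  rw [hd] at h1 h2
  rw [hd'] at h2
  rw [h1]
  cases b
  · rfl
  · cases b' <;> cases h2

private theorem PON_ne (e : Option Bool) : ∃ d, PON_side p d = e := by
  have hg : Nonempty (e.elim p.2.1.1.rep.1 fun c =>
      bif c then p.1.2.rep.1 else p.2.2.2.rep.1 : LNet Λ).D := by
    rcases e with _ | _ | _
    · exact p.2.1.1.rep.2.ne
    · exact p.2.2.2.rep.2.ne
    · exact p.1.2.rep.2.ne
  obtain ⟨d⟩ := hg
  exact ⟨⟨e, d⟩, rfl⟩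

private theorem PON_sep (c : Bool) : p.full.Sep (Sum.inl (some c)) (p.part (some c)) where
  cl := by
    intro d
    rw [PON_mem, PON_mem, PON_a]
  ne := by
    obtain ⟨d, hd⟩ := PON_ne p (some c)
    exact ⟨d, (PON_mem p _ d).2 hd⟩
  nu := by
    intro h
    obtain ⟨d, hd⟩ := PON_ne p none
    have h1 : d ∈ p.part (some c) := by rw [h]; exact mem_univ _
    rw [PON_mem, hd] at h1
    cases h1
  nv := by
    intro h
    cases h
  sh := by
    rintro y ⟨⟨d, hd, hy⟩, d', hd', hy'⟩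
    rw [PON_mem] at hd hd'
    have he : p.full.inc d = p.full.inc d' := hy.trans hy'.symm
    rcases h : PON_side p d' with _ | c'
    · right
      rw [← hy]
      exact PON_none p hd h he
    · left
      rw [← hy]
      refine PON_some p (c' := c') ?_ hd h he
      rintro rfl
      exact hd' h

/-- the vertices of the network on the edge `none` -/
private noncomputable def PON_vm (x : p.2.1.1.rep.1.V) : p.full.V :=
  if h1 : x = p.2.1.1.rep.1.pole true then Sum.inl (some true)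
  else if h2 : x = p.2.1.1.rep.1.pole false then Sum.inl (some false)
  else Sum.inr ⟨none, (⟨x, by rintro (_ | _) <;> assumption⟩ : p.2.1.1.rep.1.Int)⟩

private theorem PON_vm_inc (d : p.2.1.1.rep.1.D) :
    p.full.inc ⟨none, d⟩ = PON_vm p (p.2.1.1.rep.1.inc (Sum.inl d)) := rfl

private theorem PON_vm_ne (x : p.2.1.1.rep.1.V) : PON_vm p x ≠ p.full.v0 := by
  unfold PON_vm
  split_ifs
  · intro h
    cases h
  · intro h
    cases h
  · intro h
    cases h

private theorem PON_vm_inj {x y : p.2.1.1.rep.1.V} (h : PON_vm p x = PON_vm p y) : x = y := by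
  unfold PON_vm at h
  split_ifs at h with h1 h2 h3 h4 h5 h6 h7 h8
  · exact h1.trans h2.symm
  · cases h
  · cases h
  · exact h4.trans h6.symm
  · have h9 := Sum.inr_injective h
    simp only [Sigma.mk.injEq, heq_eq_eq, true_and] at h9
    exact congrArg Subtype.val h9

/-- a separation does not cut the network on the edge `none` -/
private theorem PON_none_cut {x : p.full.V} {A : Finset p.full.D} (hA : p.full.Sep x A) :
    (∀ d, PON_side p d = none → d ∈ A) ∨ ∀ d, PON_side p d = none → d ∉ A := by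
  by_contra hcon
  push Not at hcon
  obtain ⟨⟨d₁, h1, h1'⟩, d₂, h2, h2'⟩ := hcon
  obtain ⟨e₁, d₁⟩ := d₁
  obtain ⟨e₂, d₂⟩ := d₂
  have h1 : e₁ = none := h1
  have h2 : e₂ = none := h2
  subst h1 h2
  set B : Finset p.2.1.1.rep.1.D := univ.filter fun d => (⟨none, d⟩ : p.full.D) ∈ A with hB
  apply p.2.1.2
  by_contra hns
  have h3 : ¬ ∀ x y, Sh (fun d => p.2.1.1.rep.1.inc (Sum.inl d)) B x →
      Sh (fun d => p.2.1.1.rep.1.inc (Sum.inl d)) B y → x = y := by
    intro h4
    apply hns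
    refine ⟨B, ?_, ⟨d₂, ?_⟩, ?_, h4⟩
    · intro d
      rw [hB, mem_filter, mem_filter]
      have := hA.cl (⟨none, d⟩ : p.full.D)
      exact ⟨fun h => ⟨mem_univ _, this.1 h.2⟩, fun h => ⟨mem_univ _, this.2 h.2⟩⟩
    · rw [hB, mem_filter]
      exact ⟨mem_univ _, h2'⟩
    · intro h5
      have h6 : d₁ ∈ B := by rw [h5]; exact mem_univ _
      exact h1' (mem_filter.1 h6).2
  push Not at h3
  obtain ⟨y, z, hy, hz, hyz⟩ := h3
  have key : ∀ y, Sh (fun d => p.2.1.1.rep.1.inc (Sum.inl d)) B y → PON_vm p y = x := by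
    rintro y ⟨⟨d, hd, hy⟩, d', hd', hy'⟩
    rw [hB, mem_filter] at hd hd'
    have h5 : Sh p.full.inc A (PON_vm p y) := by
      refine ⟨⟨⟨none, d⟩, hd.2, ?_⟩, ⟨none, d'⟩, fun h => hd' ⟨mem_univ _, h⟩, ?_⟩
      · rw [PON_vm_inc]
        exact congrArg _ hy
      · rw [PON_vm_inc]
        exact congrArg _ hy'
    rcases hA.sh _ h5 with h6 | h6
    · exact absurd h6 (PON_vm_ne p y)
    · exact h6
  exact hyz (PON_vm_inj p ((key y hy).trans (key z hz).symm))

private theorem PON_meets {x : p.full.V} {A : Finset p.full.D} (hA : p.full.Sep x A)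
    (hn : ∀ d, PON_side p d = none → d ∉ A) {c : Bool} (hc : ∃ d ∈ A, PON_side p d = some c) :
    ∃ d, PON_side p d = some c ∧ p.full.inc d = x := by
  obtain ⟨d₀, h0, h0'⟩ := hc
  obtain ⟨y, z, hyz, hy, hz⟩ := p.full_good.two (A ∩ p.part (some c)) (by
      intro d
      rw [mem_inter, mem_inter, PON_mem, PON_mem, PON_a, hA.cl d])
    ⟨d₀, mem_inter.2 ⟨h0, (PON_mem p _ _).2 h0'⟩⟩ (by
      intro h
      obtain ⟨d, hd⟩ := PON_ne p none
      have h1 : d ∈ A ∩ p.part (some c) := by rw [h]; exact mem_univ _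
      exact hn d hd (mem_inter.1 h1).1)
  have key : ∀ y, Sh p.full.inc (A ∩ p.part (some c)) y → y ≠ p.full.v0 →
      ∃ d, PON_side p d = some c ∧ p.full.inc d = x := by
    rintro y ⟨⟨d, hd, hy⟩, d', hd', hy'⟩ hne
    rw [mem_inter, PON_mem] at hd hd'
    refine ⟨d, hd.2, ?_⟩
    by_cases hA' : d' ∈ A
    · have h1 : PON_side p d' ≠ some c := fun h => hd' ⟨hA', h⟩
      rcases h2 : PON_side p d' with _ | c'
      · exact absurd hA' (hn d' h2)
      · exfalso
        apply hne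
        rw [← hy]
        exact PON_some p (c' := c') (by
          rintro rfl
          exact h1 h2) hd.2 h2 (hy.trans hy'.symm)
    · have h3 : Sh p.full.inc A y := ⟨⟨d, hd.1, hy⟩, d', hA', hy'⟩
      rcases hA.sh y h3 with h4 | h4
      · exact absurd h4 hne
      · rw [hy, h4]
  by_cases h1 : y = p.full.v0
  · exact key z hz (fun h => hyz (h1.trans h.symm))
  · exact key y hy h1

private theorem PON_sub {x : p.full.V} {A : Finset p.full.D} (hA : p.full.Sep x A)
    (hn : ∀ d, PON_side p d = none → d ∉ A) : ∃ c, A ⊆ p.part (some c) := by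
  by_cases h1 : ∃ d ∈ A, PON_side p d = some true
  · by_cases h2 : ∃ d ∈ A, PON_side p d = some false
    · exfalso
      obtain ⟨d₁, h3, h4⟩ := PON_meets p hA hn h1
      obtain ⟨d₂, h5, h6⟩ := PON_meets p hA hn h2
      apply hA.nv
      rw [← h4]
      exact PON_some p (by decide) h3 h5 (h4.trans h6.symm)
    · refine ⟨true, fun d hd => ?_⟩
      rw [PON_mem]
      rcases h3 : PON_side p d with _ | _ | _
      · exact absurd hd (hn d h3)
      · exact absurd ⟨d, hd, h3⟩ h2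
      · rfl
  · refine ⟨false, fun d hd => ?_⟩
    rw [PON_mem]
    rcases h3 : PON_side p d with _ | _ | _
    · exact absurd hd (hn d h3)
    · rfl
    · exact absurd ⟨d, hd, h3⟩ h1

end

/-- Let `P₁ = part (some true)`, `P₂ = part (some false)`, `Q = part none` (darts of `N`).  `sep`, `dj` are clear from the ends of
the edges of the triangle.  `dich`: let `Sep x A`.  If `A ∩ Q` and `Q \ A` are nonempty, they have two vertices in common because
`N` is not series, and these are different from `v0`; contradiction to `Sep`.  So `Q ⊆ A` or `Q ⊆ Aᶜ`; let `Q ⊆ Aᶜ` (otherwise replace `A`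
by `Aᶜ`, `Sep.compl`).  Suppose `A` meets `P₁` and `P₂`.  The closed set `A ∩ P₁` has two vertices in common with its complement
(`two`), one of them, `z₁`, is different from `v0`; it is a vertex of `Aᶜ`: it is `x₁` (a vertex of `Q ⊆ Aᶜ`) or an internal
vertex of `P₁` (then it is on a dart of `P₁ \ A`).  In the same way there is `z₂ ≠ v0` in `P₂`; `z₁ ≠ z₂` as `P₁`, `P₂` have only `v0` in
common; contradiction to `Sep`.  So `A ⊆ P₁` or `A ⊆ P₂`. -/
theorem PO.bnode (p : PO Λ) : BNode p.full fun A => ∃ c, A = p.part (some c) where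
  sep := by
    rintro A ⟨c, rfl⟩
    exact ⟨_, PON_sep p c⟩
  dj := by
    rintro A A' ⟨c, rfl⟩ ⟨c', rfl⟩ hne d hd d' hd' h
    rw [PON_mem] at hd hd'
    refine PON_some p (c := c) (c' := c') ?_ hd hd' h
    rintro rfl
    exact hne rfl
  dich := by
    intro x A hA
    rcases PON_none_cut p hA with h | h
    · obtain ⟨c, hc⟩ := PON_sub p hA.compl (fun d hd hd' => (mem_compl.1 hd') (h d hd))
      exact ⟨_, ⟨c, rfl⟩, Or.inr hc⟩
    · obtain ⟨c, hc⟩ := PON_sub p hA h
      exact ⟨_, ⟨c, rfl⟩, Or.inl hc⟩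

end PGr

end

section
/-! # Module SinkDef: sinks and their graphs -/

set_option linter.unusedSectionVars false

namespace PGr
open Equiv Finset
open scoped ENNReal Classical
universe u
open NetSumC
variable {Λ : Type u} [Nonempty Λ]

/-- sinks -/
abbrev SinkT (Λ : Type u) :=
  {p : Λ × NC Λ // CSink p} ⊕ ({x : Quotient (poSetoid Λ) // PSink x.out} ⊕
    {x : Quotient (fcSetoid Λ) // RSink x.out})

theorem CSink.good {p : Λ × NC Λ} (h : CSink p) : (p.2.rep.1.toV p.1).IsGood :=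
  toV_good p.2.rep.2 h.2.1 p.1

/-- the class of the graph of a sink -/
noncomputable def sinkV : SinkT Λ → VC Λ
  | Sum.inl p => vcls (p.1.2.rep.1.toV p.1.1) p.2.good
  | Sum.inr (Sum.inl x) => vcls x.1.out.full x.1.out.full_good
  | Sum.inr (Sum.inr x) => vcls x.1.out.full x.1.out.full_good

/-- the weight of a sink -/
noncomputable def sinkW (w : Λ → ℝ≥0∞) : SinkT Λ → ℝ≥0∞
  | Sum.inl p => w p.1.1 * wt w p.1.2.rep.1
  | Sum.inr (Sum.inl x) => x.1.out.wt w
  | Sum.inr (Sum.inr x) => x.1.out.1.wt w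

end PGr

end

section
/-! # Module SinkW: weights of sinks; sinks on equivalence classes -/

set_option linter.unusedSectionVars false

namespace PGr
open Equiv Finset
open scoped ENNReal Classical
universe u
open NetSumC
variable {Λ : Type u} [Nonempty Λ]

/-- `wV_toV`, `PO.wV_full`, `FCR.wV_full` -/
theorem wV_sink (w : Λ → ℝ≥0∞) (s : SinkT Λ) : wtV w (sinkV s).rep.1 = sinkW w s := by
  rcases s with p | x | x
  · exact (VIso.wtV w (vcls_iso _ _)).trans (wV_toV w p.1.2.rep.2 p.1.1)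
  · exact (VIso.wtV w (vcls_iso _ _)).trans (PO.wV_full w _)
  · exact (VIso.wtV w (vcls_iso _ _)).trans (FCR.wV_full w _)

/-- at least two edges: `CSink`; a polygon has three nonempty networks; a rigid map has at least four edges -/
theorem card_sink (s : SinkT Λ) : 4 ≤ Fintype.card (sinkV s).rep.1.D := by
  rcases s with p | x | x
  · have h1 : Fintype.card (sinkV (Sum.inl p)).rep.1.D =
        Fintype.card (p.1.2.rep.1.toV p.1.1).D := VIso.card (vcls_iso _ _)
    rw [h1]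
    exact p.2.1
  · have h1 : Fintype.card (sinkV (Sum.inr (Sum.inl x))).rep.1.D = Fintype.card x.1.out.full.D :=
      VIso.card (vcls_iso _ _)
    obtain ⟨e, f, h, _⟩ := PO.full_toIN x.1.out
    have h2 := Fintype.card_congr e
    have h3 := vnet_card x.1.out.toIN
    have h4 := in_nd x.1.out.toIN
    omega
  · have h1 : Fintype.card (sinkV (Sum.inr (Sum.inr x))).rep.1.D = Fintype.card x.1.out.full.D :=
      VIso.card (vcls_iso _ _)
    obtain ⟨e, f, h, _⟩ := FCR.full_toIN x.1.out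
    have h2 := Fintype.card_congr e
    have h3 := vnet_card x.1.out.toIN
    have h4 := in_nd x.1.out.toIN
    omega

omit [Nonempty Λ] in
theorem psink_flip (p : PO Λ) : PSink p.flip ↔ PSink p := by
  unfold PSink
  rw [PO.flip_nT]
  exact and_comm

omit [Nonempty Λ] in
theorem SinkW_out (p : PO Λ) : p = (Quotient.mk (poSetoid Λ) p).out ∨
    p = (Quotient.mk (poSetoid Λ) p).out.flip := Quotient.mk_out (s := poSetoid Λ) p

omit [Nonempty Λ] in
theorem psink_out (p : PO Λ) : PSink (Quotient.mk (poSetoid Λ) p).out ↔ PSink p := by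
  rcases SinkW_out p with h | h
  · rw [← h]
  · conv_rhs => rw [h]
    rw [psink_flip]

omit [Nonempty Λ] in
/-- `DM` matches the darts at the root vertices and their networks -/
theorem rsink_rel {p q : FCR Λ} (h : (fcSetoid Λ).r p q) : RSink p ↔ RSink q := by
  have : Nonempty Λ := ⟨p.1.lend⟩
  have hT : p.nT = q.nT := FCR.nT_eq h
  obtain ⟨o, ψ, hψ⟩ := h
  unfold RSink
  constructor
  · intro hp t ht
    obtain ⟨t', rfl⟩ := ψ.surjective t
    have h1 := (hψ.fc_root t').2 ht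
    have h2 := hp _ h1
    have h3 := hψ.f t'
    have h4 : nd (q.1.hat.2.1 (ψ t')) = nd (p.1.hat.2.1 t') := congrArg nd h3
    have h5 : 2 * nd (p.1.hat.2.1 t') < p.nT := h2
    show 2 * nd (q.1.hat.2.1 (ψ t')) < q.nT
    omega
  · intro hq t ht
    have h1 := (hψ.fc_root t).1 ht
    have h2 : 2 * nd (q.1.hat.2.1 (ψ t)) < q.nT := hq _ h1
    have h4 : nd (q.1.hat.2.1 (ψ t)) = nd (p.1.hat.2.1 t) := congrArg nd (hψ.f t)
    show 2 * nd (p.1.hat.2.1 t) < p.nT
    omega

omit [Nonempty Λ] in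
theorem rsink_out (p : FCR Λ) : RSink (Quotient.mk (fcSetoid Λ) p).out ↔ RSink p :=
  rsink_rel (Quotient.mk_out (s := fcSetoid Λ) p)

omit [Nonempty Λ] in
theorem SinkW_flip (w : Λ → ℝ≥0∞) (p : PO Λ) : p.flip.wt w = p.wt w := by
  simp only [PO.wt, PO.flip, NC.wt_fl]
  ring

omit [Nonempty Λ] in
theorem po_wt_out (w : Λ → ℝ≥0∞) (p : PO Λ) :
    (Quotient.mk (poSetoid Λ) p).out.wt w = p.wt w := by
  rcases SinkW_out p with h | h
  · rw [← h]
  · conv_rhs => rw [h]
    rw [SinkW_flip]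

omit [Nonempty Λ] in
theorem fc_wt_out (w : Λ → ℝ≥0∞) (p : FCR Λ) :
    (Quotient.mk (fcSetoid Λ) p).out.1.wt w = p.1.wt w :=
  fc_wt' w (Quotient.mk_out (s := fcSetoid Λ) p)

end PGr

end

section
/-! # Module SinkEx: every graph has a sink -/

set_option linter.unusedSectionVars false

namespace PGr
open Equiv Finset
open scoped ENNReal Classical
universe u
open NetSumC
variable {Λ : Type u} [Nonempty Λ]

omit [Nonempty Λ] in
theorem SinkEx_symm {B B' : VNet Λ} (h : VIso B B') : VIso B' B := by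
  obtain ⟨e, f, h⟩ := h
  exact ⟨_, _, h.symm⟩

omit [Nonempty Λ] in
theorem SinkEx_trans {B B' B'' : VNet Λ} (h : VIso B B') (h' : VIso B' B'') : VIso B B'' := by
  obtain ⟨e, f, h⟩ := h
  obtain ⟨e', f', h'⟩ := h'
  exact ⟨_, _, h.trans h'⟩

omit [Nonempty Λ] in
theorem SinkEx_vcls {B B' : VNet Λ} (hB : B.IsGood) (hB' : B'.IsGood) (h : VIso B B') :
    vcls B hB = vcls B' hB' :=
  Quotient.sound (s := vSetoid Λ) h

/-- a root edge parallel to the edge of `d` -/
def SinkEx_N (B : VNet Λ) (d : B.D) : LNet Λ where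
  D := B.D
  V := B.V
  a := B.a
  inc := Sum.elim B.inc (fun b => bif b then B.inc d else B.inc (B.a d))
  lab := B.lab

omit [Nonempty Λ] in
theorem SinkEx_two {B : VNet Λ} (hB : B.IsGood) (d : B.D) (A : Finset (SinkEx_N B d).T)
    (hA : Cl (SinkEx_N B d).aa A) (hne : A.Nonempty) (hu : A ≠ univ) :
    ∃ x y, x ≠ y ∧ Sh (SinkEx_N B d).inc A x ∧ Sh (SinkEx_N B d).inc A y := by
  have hcl : Cl B.a (univ.filter fun t : B.D => (Sum.inl t : (SinkEx_N B d).T) ∈ A) := by
    intro t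
    simp only [mem_filter, mem_univ, true_and]
    exact hA (Sum.inl t)
  have hr : (Sum.inr false : (SinkEx_N B d).T) ∈ A ↔ (Sum.inr true : (SinkEx_N B d).T) ∈ A :=
    hA (Sum.inr true)
  by_cases h0 : (univ.filter fun t : B.D => (Sum.inl t : (SinkEx_N B d).T) ∈ A).Nonempty
  · by_cases h1 : (univ.filter fun t : B.D => (Sum.inl t : (SinkEx_N B d).T) ∈ A) = univ
    · have h2 : ∀ t : B.D, (Sum.inl t : (SinkEx_N B d).T) ∈ A := fun t => by
        have : t ∈ univ.filter fun t : B.D => (Sum.inl t : (SinkEx_N B d).T) ∈ A := by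
          rw [h1]; exact mem_univ _
        exact (mem_filter.1 this).2
      have h3 : (Sum.inr true : (SinkEx_N B d).T) ∉ A := by
        intro h3
        apply hu
        rw [eq_univ_iff_forall]
        rintro (t | (_ | _))
        · exact h2 t
        · exact hr.2 h3
        · exact h3
      have h4 : (Sum.inr false : (SinkEx_N B d).T) ∉ A := fun h => h3 (hr.1 h)
      exact ⟨B.inc d, B.inc (B.a d), fun h => hB.loop d h.symm,
        ⟨⟨Sum.inl d, h2 d, rfl⟩, Sum.inr true, h3, rfl⟩,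
        ⟨⟨Sum.inl (B.a d), h2 _, rfl⟩, Sum.inr false, h4, rfl⟩⟩
    · obtain ⟨x, y, hxy, hx, hy⟩ := hB.two _ hcl h0 h1
      have key : ∀ z, Sh B.inc (univ.filter fun t : B.D => (Sum.inl t : (SinkEx_N B d).T) ∈ A) z →
          Sh (SinkEx_N B d).inc A z := by
        rintro z ⟨⟨t, ht, h3⟩, t', ht', h4⟩
        refine ⟨⟨Sum.inl t, (mem_filter.1 ht).2, h3⟩, Sum.inl t', ?_, h4⟩
        intro h5
        exact ht' (mem_filter.2 ⟨mem_univ _, h5⟩)
      exact ⟨x, y, hxy, key x hx, key y hy⟩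
  · have h2 : ∀ t : B.D, (Sum.inl t : (SinkEx_N B d).T) ∉ A := fun t ht =>
      h0 ⟨t, mem_filter.2 ⟨mem_univ _, ht⟩⟩
    have h3 : (Sum.inr true : (SinkEx_N B d).T) ∈ A := by
      obtain ⟨(t | (_ | _)), ht⟩ := hne
      · exact absurd ht (h2 t)
      · exact hr.1 ht
      · exact ht
    have h4 : (Sum.inr false : (SinkEx_N B d).T) ∈ A := hr.2 h3
    exact ⟨B.inc d, B.inc (B.a d), fun h => hB.loop d h.symm,
      ⟨⟨Sum.inr true, h3, rfl⟩, Sum.inl d, h2 d, rfl⟩,
      ⟨⟨Sum.inr false, h4, rfl⟩, Sum.inl (B.a d), h2 _, rfl⟩⟩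

omit [Nonempty Λ] in
theorem SinkEx_planar {B : VNet Λ} (hB : B.IsGood) (d : B.D) :
    ∃ s : Perm (SinkEx_N B d).T, (∀ t t', s.SameCycle t t' ↔
      (SinkEx_N B d).inc t = (SinkEx_N B d).inc t') ∧ Pl (SinkEx_N B d).aa s := by
  obtain ⟨s, hs, hp⟩ := hB.planar
  have hs1 : s (s.symm (B.a d)) = B.a d := s.apply_symm_apply _
  have hsc : s.SameCycle (s.symm (B.a d)) (B.a d) := ⟨1, by rw [zpow_one, hs1]⟩
  have hc : d ≠ s.symm (B.a d) := by
    intro h1
    rw [← h1, hs] at hsc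
    exact hB.loop d hsc.symm
  have hface : (B.a * s).SameCycle d (s.symm (B.a d)) := by
    refine Perm.SameCycle.symm ⟨1, ?_⟩
    rw [zpow_one, Perm.mul_apply, hs1]
    exact hB.inv d
  refine ⟨insS s d (s.symm (B.a d)), ?_, Pl.ins hB.inv hp hc hface⟩
  have hinc : ∀ x : (SinkEx_N B d).T, (SinkEx_N B d).inc x =
      B.inc (InsBasic.pr d (s.symm (B.a d)) x) := by
    rintro (t | (_ | _))
    · rfl
    · show B.inc (B.a d) = B.inc (s.symm (B.a d))
      exact ((hs _ _).1 hsc).symm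
    · rfl
  intro t t'
  exact ((AddE.same s hc t t').trans (hs _ _)).trans
    ⟨fun h => (hinc t).trans (h.trans (hinc t').symm),
      fun h => (hinc t).symm.trans (h.trans (hinc t'))⟩

omit [Nonempty Λ] in
theorem SinkEx_good {B : VNet Λ} (hB : B.IsGood) (d : B.D) : (SinkEx_N B d).IsGood where
  inv := hB.inv
  fpf := hB.fpf
  ne := hB.ne
  surj := fun v => by
    obtain ⟨t, ht⟩ := hB.surj v
    exact ⟨Sum.inl t, ht⟩
  loop := by
    rintro (t | (_ | _))
    · exact hB.loop t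
    · exact fun h => hB.loop d (Eq.symm h)
    · exact hB.loop d
  simp := hB.simp
  two := SinkEx_two hB d
  planar := SinkEx_planar hB d

omit [Nonempty Λ] in
theorem SinkEx_viso {B : VNet Λ} (d : B.D) (hd : B.inc d = B.v0) :
    VIso B ((SinkEx_N B d).toV (B.lab (B.inc (B.a d)))) := by
  refine ⟨Equiv.refl _, Equiv.refl _, fun _ => rfl, fun _ => rfl, hd.symm, fun x _ => ?_⟩
  show (if x = B.inc (B.a d) then B.lab (B.inc (B.a d)) else B.lab x) = B.lab x
  split_ifs with h
  · rw [h]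
  · rfl

/-- Choose an edge `d` at `v0` and consider the graph as a network with the poles `v0` and the other end of `d` (add a root edge; the
network is direct, so not an `XNet`): good, because adding an edge parallel to `d` preserves planarity and `two`. -/
theorem exists_cnode {B : VNet Λ} (hB : B.IsGood) (h4 : 4 ≤ Fintype.card B.D) :
    ∃ p : Λ × NC Λ, 4 ≤ nd p.2 ∧ ¬ p.2.IsX ∧ VIso B (p.2.rep.1.toV p.1) := by
  obtain ⟨d, hd⟩ := hB.surj B.v0
  have hN := SinkEx_good hB d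
  refine ⟨(B.lab (B.inc (B.a d)), cls (SinkEx_N B d) hN), ?_, ?_, ?_⟩
  · have h1 : nd (cls (SinkEx_N B d) hN) = Fintype.card B.D := (cls_iso _ hN).card_eq
    rw [h1]
    exact h4
  · intro h
    exact (XNet.of_iso (cls_iso _ hN) h).dir ⟨d, rfl, rfl⟩
  · exact SinkEx_trans (SinkEx_viso d hd) (toV_iso (cls_iso _ hN).symm _)

/-- a part can be taken out: `exists_parts`, `IsParts.unique`, `exists_of_parts` for the other parts, `IsParts.par2`, `IsParts.iso`; the
number of darts of `N` is `nd X + nd N'` (`IsParts.card`) -/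
theorem exists_in {p : Λ × NC Λ} (hX : ¬ p.2.IsX) {b : Bool} {m : Multiset (XC Λ)}
    (hm : IsParts p.2.rep.1 b m) {x : XC Λ} (hx : x ∈ m) :
    ∃ N : NC Λ, NIso p.2.rep.1 (parN (p.1, x, N)) ∧ nd p.2 = nd x.1 + nd N := by
  obtain ⟨m', rfl⟩ := Multiset.exists_cons_of_mem hx
  have hbm : b = true ∨ m' ≠ 0 := by
    by_contra hc
    rw [not_or, not_not, Bool.not_eq_true] at hc
    obtain ⟨rfl, rfl⟩ := hc
    exact hX ((hm.X_iff p.2.rep.2).2 ⟨rfl, by simp⟩)
  obtain ⟨N0, h0, hp⟩ := exists_of_parts b m' hbm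
  have hp' : IsParts (cls N0 h0).rep.1 b m' := hp.of_iso (cls_iso N0 h0)
  have h1 := hm.iso (hp'.par2 (cls N0 h0).rep.2 x fun _ => p.1)
  have h2 : NIso p.2.rep.1 (parN (p.1, x, cls N0 h0)) := h1.trans (par2_comm _ _ _)
  refine ⟨cls N0 h0, h2, ?_⟩
  have h3 := h2.card_eq
  exact h3.trans (card_par2 _ _ _)

/-- the pair of vertices of an incidence, as a candidate for a sink -/
theorem exists_c (i : IN Λ) : ∃ p : Λ × NC Λ, p.1 = i.1 ∧ NIso p.2.rep.1 (parN i) ∧
    4 ≤ nd p.2 ∧ ¬ p.2.IsX ∧ VIso (vnet i) (p.2.rep.1.toV p.1) ∧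
    ∀ b m, IsParts i.2.2.rep.1 b m → IsParts p.2.rep.1 b (i.2.1 ::ₘ m) := by
  have hi := cls_iso (parN i) (parN_good i).1
  refine ⟨(i.1, cls (parN i) (parN_good i).1), rfl, hi, ?_, ?_, ?_, ?_⟩
  · have h1 : nd (cls (parN i) (parN_good i).1) = nd i.2.1.1 + nd i.2.2 :=
      hi.card_eq.trans (card_par2 _ _ _)
    have h2 := in_nd i
    show 4 ≤ nd (cls (parN i) (parN_good i).1)
    omega
  · intro h
    exact (parN_good i).2 (XNet.of_iso hi h)
  · exact toV_iso hi.symm _
  · intro b m hm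
    exact (hm.par2 i.2.2.rep.2 i.2.1 fun _ => i.1).of_iso (hi.trans (par2_comm _ _ _))

/-- the network `X` of an incidence is series or rigid: `NC.exists_ser'` (`N := (last network).fl`), or `exists_cN` -/
theorem exists_bnode (i : IN Λ) : (∃ p : PO Λ, p.toIN = i) ∨ ∃ p : FCR Λ, p.toIN = i := by
  by_cases hs : i.2.1.1.IsSer
  · left
    obtain ⟨c1, l, c2, h2, h⟩ := NC.exists_ser' hs
    refine ⟨((i.1, i.2.2), ⟨c2.fl, fun hc => h2 ((NC.fl_Ser _).1 hc)⟩, (l, c1)), ?_⟩
    refine Prod.ext rfl (Prod.ext (Subtype.ext ?_) rfl)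
    show c1.ser l c2.fl.fl = i.2.1.1
    rw [NC.fl_fl, h]
  · right
    obtain ⟨q, hq, hi⟩ := exists_cN i.2.1.2 hs
    let p : FC Λ := ⟨q.1, q.2.1, i.2.2, fun x =>
      if h : ∀ b, x.1 ≠ (core q.1).vinc (Sum.inr b) then q.2.2 ⟨x.1, h⟩ else i.1⟩
    have e1 : p.ix = q := by
      obtain ⟨q1, q2, q3⟩ := q
      show (⟨q1, q2, fun x => if h : ∀ b, x.1 ≠ (core q1).vinc (Sum.inr b) then q3 ⟨x.1, h⟩
        else i.1⟩ : Ix Λ) = ⟨q1, q2, q3⟩
      congr 2
      funext x
      exact dif_pos x.2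
    have e2 : p.lend = i.1 := by
      refine dif_neg ?_
      intro h
      exact h false rfl
    refine ⟨⟨p, hq⟩, ?_⟩
    refine Prod.ext e2 (Prod.ext (Subtype.ext (eq_of_rep ?_)) rfl)
    refine (cls_iso _ _).trans ?_
    show NIso (cN p.ix) _
    rw [e1]
    exact hi

/-- the sink of a polygon -/
theorem SinkEx_po {B : VNet Λ} (hB : B.IsGood) {p : PO Λ} (hp : PSink p)
    (h : VIso B (vnet p.toIN)) : ∃ s : SinkT Λ, sinkV s = vcls B hB := by
  refine ⟨Sum.inr (Sum.inl ⟨Quotient.mk (poSetoid Λ) p, (psink_out p).2 hp⟩), ?_⟩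
  refine SinkEx_vcls _ _ ?_
  have h1 : VIso p.full (vnet p.toIN) := by
    obtain ⟨e, f, h1, -⟩ := p.full_toIN
    exact ⟨e, f, h1⟩
  refine SinkEx_trans ?_ (SinkEx_trans h1 (SinkEx_symm h))
  rcases SinkW_out p with h2 | h2
  · show VIso (Quotient.mk (poSetoid Λ) p).out.full p.full
    rw [← h2]
    exact ⟨_, _, VMatch.refl _⟩
  · have h4 : VIso (Quotient.mk (poSetoid Λ) p).out.full
        (Quotient.mk (poSetoid Λ) p).out.flip.full := by
      obtain ⟨e, f, h3, -⟩ := (Quotient.mk (poSetoid Λ) p).out.full_flip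
      exact ⟨e, f, h3⟩
    rw [← h2] at h4
    exact h4

/-- the sink of a rigid node -/
theorem SinkEx_fc {B : VNet Λ} (hB : B.IsGood) {p : FCR Λ} (hp : RSink p)
    (h : VIso B (vnet p.toIN)) : ∃ s : SinkT Λ, sinkV s = vcls B hB := by
  refine ⟨Sum.inr (Sum.inr ⟨Quotient.mk (fcSetoid Λ) p, (rsink_out p).2 hp⟩), ?_⟩
  refine SinkEx_vcls _ _ ?_
  refine SinkEx_trans ?_ (SinkEx_trans (FCV_iso p) (SinkEx_symm h))
  obtain ⟨o, ψ, hψ⟩ : (fcSetoid Λ).r (Quotient.mk (fcSetoid Λ) p).out p :=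
    Quotient.mk_out (s := fcSetoid Λ) p
  obtain ⟨e, f, h1, -⟩ := FCR.full_match hψ
  exact ⟨e, f, h1⟩

/-- the sink of a pair of vertices -/
theorem SinkEx_c {B : VNet Λ} (hB : B.IsGood) {p : Λ × NC Λ} (hp : CSink p)
    (h : VIso B (p.2.rep.1.toV p.1)) : ∃ s : SinkT Λ, sinkV s = vcls B hB :=
  ⟨Sum.inl ⟨p, hp⟩, SinkEx_vcls _ _ (SinkEx_symm h)⟩

/-- a pair of vertices which is not a sink -/
theorem SinkEx_notc {B : VNet Λ} (hB : B.IsGood) {p : Λ × NC Λ} (h4 : 4 ≤ nd p.2)
    (hX : ¬ p.2.IsX) (h : VIso B (p.2.rep.1.toV p.1)) :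
    (∃ s : SinkT Λ, sinkV s = vcls B hB) ∨ ∃ (b : Bool) (m : Multiset (XC Λ)) (j : IN Λ),
      IsParts p.2.rep.1 b m ∧ j.2.1 ∈ m ∧ VIso B (vnet j) ∧ nd j.2.2 < nd j.2.1.1 ∧
      nd p.2 = nd j.2.1.1 + nd j.2.2 := by
  by_cases hp : CSink p
  · exact Or.inl (SinkEx_c hB hp h)
  right
  have h1 : ∃ b m, IsParts p.2.rep.1 b m ∧ ∃ x ∈ m, nd p.2 < 2 * nd x.1 := by
    by_contra hc
    push Not at hc
    exact hp ⟨h4, hX, hc⟩
  obtain ⟨b, m, hm, x, hx, hlt⟩ := h1
  obtain ⟨N, hN, hc⟩ := exists_in hX hm hx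
  refine ⟨b, m, (p.1, x, N), hm, hx, SinkEx_trans h (toV_iso hN _), ?_, hc⟩
  show nd N < nd x.1
  omega

/-- from an incidence whose network `X` contains at most half of the darts -/
theorem SinkEx_next {B : VNet Λ} (hB : B.IsGood) (j : IN Λ) (hj : VIso B (vnet j))
    (h : nd j.2.1.1 ≤ nd j.2.2) : (∃ s : SinkT Λ, sinkV s = vcls B hB) ∨
      ∃ k : IN Λ, VIso B (vnet k) ∧ nd k.2.2 < nd k.2.1.1 ∧ nd k.2.1.1 ≤ nd j.2.2 := by
  obtain ⟨p, hp1, hp2, h4, hX, hiso, hparts⟩ := exists_c j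
  rcases SinkEx_notc hB h4 hX (SinkEx_trans hj hiso) with h1 | ⟨b, m, k, hm, hk, hkB, hlt, hc⟩
  · exact Or.inl h1
  right
  refine ⟨k, hkB, hlt, ?_⟩
  obtain ⟨m0, hm0⟩ := exists_parts j.2.2.rep.2
  have h2 := hparts _ _ hm0
  obtain ⟨rfl, rfl⟩ := hm.unique h2
  have hnd : nd p.2 = nd j.2.1.1 + nd j.2.2 := hp2.card_eq.trans (card_par2 _ _ _)
  rcases Multiset.mem_cons.1 hk with h3 | h3
  · exfalso
    have h5 : nd k.2.1.1 = nd j.2.1.1 := by rw [h3]
    omega
  · have h5 := hm0.card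
    have h6 : nd k.2.1.1 ≤ (m0.map fun x => Fintype.card x.1.rep.1.D).sum := by
      refine Multiset.single_le_sum (fun _ _ => Nat.zero_le _) _ ?_
      exact Multiset.mem_map_of_mem (fun x : XC Λ => Fintype.card x.1.rep.1.D) h3
    have h7 : nd j.2.2 = Fintype.card j.2.2.rep.1.D := rfl
    omega

/-- Main step.  Let `i` be an incidence of the graph `B` with `nd N < nd X`.  Then `B` has a sink or there is another such incidence `j`
of `B` with a smaller `X`.  Proof: let `p` be the polygon or rigid node with `p.toIN = i` (`exists_bnode`).  If `p` is not a sink, one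
of its networks at `v0` contains at least half of the darts; it is not the network `N` of `i` (`nd N < nd X`), so it is properly contained
in `X`, i.e. smaller than `X`.  Let `j` be the incidence of `p` at this network: for a polygon `p.flip.toIN`, for a rigid node
`q.toIN` where `q` is `p` rerooted (`FC.reroot`, `FCR.full_match`).  So `j = (l, X', N')` with `nd X' ≤ nd N' < nd X`.  If the pair of vertices of `j`
(`exists_c`) is not a sink, it has a part `Y` with more than half of the darts; `Y ≠ X'`, so `Y` is a part of `N'` and `nd Y ≤ nd N' < nd X`;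
`exists_in` gives the incidence with `Y`. -/
theorem sink_step {B : VNet Λ} (hB : B.IsGood) (i : IN Λ) (hi : VIso B (vnet i))
    (h : nd i.2.2 < nd i.2.1.1) : (∃ s : SinkT Λ, sinkV s = vcls B hB) ∨
      ∃ j : IN Λ, VIso B (vnet j) ∧ nd j.2.2 < nd j.2.1.1 ∧ nd j.2.1.1 < nd i.2.1.1 := by
  have key : (∃ s : SinkT Λ, sinkV s = vcls B hB) ∨
      ∃ j : IN Λ, VIso B (vnet j) ∧ nd j.2.1.1 ≤ nd j.2.2 ∧ nd j.2.2 < nd i.2.1.1 := by
    rcases exists_bnode i with ⟨p, rfl⟩ | ⟨p, rfl⟩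
    · by_cases hp : PSink p
      · exact Or.inl (SinkEx_po hB hp hi)
      right
      have hpf : VIso p.full (vnet p.toIN) := by
        obtain ⟨e, f, h1, -⟩ := p.full_toIN
        exact ⟨e, f, h1⟩
      have hpf' : VIso p.flip.full (vnet p.flip.toIN) := by
        obtain ⟨e, f, h1, -⟩ := p.flip.full_toIN
        exact ⟨e, f, h1⟩
      have hfl : VIso p.full p.flip.full := by
        obtain ⟨e, f, h1, -⟩ := p.full_flip
        exact ⟨e, f, h1⟩
      have c1 : p.nT = nd p.toIN.2.1.1 + nd p.toIN.2.2 := by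
        rw [← vnet_card, ← hpf.card, p.full_card]
      have c2 : p.nT = nd p.flip.toIN.2.1.1 + nd p.flip.toIN.2.2 := by
        rw [← vnet_card, ← hpf'.card, p.flip.full_card, p.flip_nT]
      have c3 : nd p.toIN.2.2 = nd p.1.2 := rfl
      have c4 : nd p.flip.toIN.2.2 = nd p.2.2.2 := rfl
      have c5 : p.nT = nd p.1.2 + nd p.2.2.2 + nd p.2.1.1 := rfl
      have c6 : 0 < nd p.2.1.1 := by
        obtain ⟨d⟩ := p.2.1.1.rep.2.ne
        exact Fintype.card_pos_iff.2 ⟨d⟩
      have c7 : ¬ (2 * nd p.1.2 < p.nT ∧ 2 * nd p.2.2.2 < p.nT) := hp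
      refine ⟨p.flip.toIN, SinkEx_trans hi (SinkEx_trans (SinkEx_symm hpf)
        (SinkEx_trans hfl hpf')), ?_, ?_⟩ <;> omega
    · by_cases hp : RSink p
      · exact Or.inl (SinkEx_fc hB hp hi)
      right
      have c1 : p.nT = nd p.toIN.2.1.1 + nd p.toIN.2.2 := by
        rw [← vnet_card, ← (FCV_iso p).card, p.full_card]
      have h1 : ∃ t, (core p.1.1).s.SameCycle (Sum.inr true) t ∧
          p.nT ≤ 2 * nd (p.1.hat.2.1 t) := by
        by_contra hc
        push Not at hc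
        exact hp hc
      obtain ⟨t, ht, hle⟩ := h1
      have hne : edgeOf (core p.1.1) t ≠ edgeOf (core p.1.1) (Sum.inr true) := by
        intro he
        have h2 : nd (p.1.hat.2.1 t) = nd p.toIN.2.2 := by
          refine (FCN_cardP p t).trans ?_
          rw [he]
          exact (FCN_cardP p (Sum.inr true)).symm
        omega
      have hlt : nd (p.1.hat.2.1 t) + nd p.toIN.2.2 < p.nT := p.part_lt hne
      obtain ⟨q0, ψ, hψ, hr⟩ := FC.reroot p.1 t ht true
      have hq : Rigid q0.1.rep.1 := hψ.rigid p.2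
      have hrel : (fcSetoid Λ).r p ⟨q0, hq⟩ := ⟨true, ψ, hψ⟩
      have hT := FCR.nT_eq hrel
      have hfull : VIso p.full (FCR.full ⟨q0, hq⟩) := by
        obtain ⟨e, f, h2, -⟩ := FCR.full_match (p := p) (q := ⟨q0, hq⟩) hψ
        exact ⟨e, f, h2⟩
      have c3 : FCR.nT ⟨q0, hq⟩ = nd (FCR.toIN ⟨q0, hq⟩).2.1.1 + nd (FCR.toIN ⟨q0, hq⟩).2.2 := by
        rw [← vnet_card, ← (FCV_iso ⟨q0, hq⟩).card, FCR.full_card]
      have c4 : nd (FCR.toIN ⟨q0, hq⟩).2.2 = nd (p.1.hat.2.1 t) := by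
        have h2 := hψ.f t
        have h3 : q0.hat.2.1 (ψ t) = q0.hat.2.1 (Sum.inr true) := congrArg q0.hat.2.1 hr
        exact congrArg nd (h3.symm.trans h2)
      refine ⟨FCR.toIN ⟨q0, hq⟩, SinkEx_trans hi (SinkEx_trans (SinkEx_symm (FCV_iso p))
        (SinkEx_trans hfull (FCV_iso ⟨q0, hq⟩))), ?_, ?_⟩
      · omega
      · omega
  rcases key with h1 | ⟨j, hj, h1, h2⟩
  · exact Or.inl h1
  rcases SinkEx_next hB j hj h1 with h3 | ⟨k, hk, h3, h4⟩
  · exact Or.inl h3
  · exact Or.inr ⟨k, hk, h3, by omega⟩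

theorem SinkEx_ind {B : VNet Λ} (hB : B.IsGood) (n : ℕ) : ∀ i : IN Λ, VIso B (vnet i) →
    nd i.2.2 < nd i.2.1.1 → nd i.2.1.1 = n → ∃ s : SinkT Λ, sinkV s = vcls B hB := by
  induction n using Nat.strong_induction_on with
  | _ n ih =>
    intro i hi h hn
    rcases sink_step hB i hi h with h1 | ⟨j, hj, h1, h2⟩
    · exact h1
    · exact ih _ (by omega) j hj h1 rfl

/-- `exists_cnode`; if this pair of vertices is not a sink, `exists_in` gives an incidence as in `sink_step`; take one with minimal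
`nd X`. -/
theorem sinkV_surj (c : VC Λ) (h4 : 4 ≤ Fintype.card c.rep.1.D) : ∃ s : SinkT Λ, sinkV s = c := by
  have hc : vcls c.rep.1 c.rep.2 = c := Quotient.out_eq c
  obtain ⟨p, h4', hX, hiso⟩ := exists_cnode c.rep.2 h4
  rw [← hc]
  rcases SinkEx_notc c.rep.2 h4' hX hiso with h1 | ⟨b, m, j, -, -, hj, hlt, -⟩
  · exact h1
  · exact SinkEx_ind c.rep.2 _ j hj hlt rfl

end PGr

end

section
/-! # Module CountA: pairs of vertices and their heavy parts -/

set_option linter.unusedSectionVars false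

namespace PGr
open Equiv Finset
open scoped ENNReal Classical
universe u
open NetSumC
variable {Λ : Type u} [Nonempty Λ]

/-- the weight of an incidence -/
noncomputable def inW (w : Λ → ℝ≥0∞) (i : IN Λ) : ℝ≥0∞ :=
  w i.1 * (wt w i.2.1.1.rep.1 * wt w i.2.2.rep.1)

omit [Nonempty Λ] in
theorem CountA_sub {α : Type*} (P : α → Prop) [DecidablePred P] (f : α → ℝ≥0∞) :
    ∑' x : {x // P x}, f x.1 = ∑' x, if P x then f x else 0 := by
  have h := _root_.tsum_subtype {x | P x} f
  refine h.trans (tsum_congr fun x => ?_)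
  by_cases hx : P x
  · rw [if_pos hx, Set.indicator_of_mem (show x ∈ {x | P x} from hx)]
  · rw [if_neg hx, Set.indicator_of_notMem (show x ∉ {x | P x} from hx)]

/-- all incidences -/
theorem in_sum (w : Λ → ℝ≥0∞) : ∑' i : IN Λ, inW w i = pK w 1 * pN w 1 NC.IsX * pD w 1 := by
  have h1 : pK w 1 = ∑' l, w l := by simp [pK]
  have h2 : pN w 1 NC.IsX = ∑' x : XC Λ, wt w x.1.rep.1 := by
    rw [CountA_sub NC.IsX (fun c : NC Λ => wt w c.rep.1)]
    simp [pN]
  have h3 : pD w 1 = ∑' c : NC Λ, wt w c.rep.1 := by simp [pD, pN]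
  rw [h1, h2, h3, ENNReal.tsum_prod', ← ENNReal.tsum_mul_right, ← ENNReal.tsum_mul_right]
  refine tsum_congr fun l => ?_
  rw [ENNReal.tsum_prod', mul_assoc, ← ENNReal.tsum_mul_right, ← ENNReal.tsum_mul_left]
  refine tsum_congr fun x => ?_
  rw [← ENNReal.tsum_mul_left, ← ENNReal.tsum_mul_left]
  rfl

theorem CountA_card {p : NC Λ} {b : Bool} {m : Multiset (XC Λ)} {x : XC Λ} {N : NC Λ}
    (h : IsParts N.rep.1 b m) (h' : IsParts p.rep.1 b (x ::ₘ m)) : nd p = nd x.1 + nd N := by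
  unfold nd
  rw [h'.card, h.card, Multiset.map_cons, Multiset.sum_cons]
  ring

/-- A network (not an edge, not an `XNet`) which is not a sink has exactly one part `X` with more than half of the darts; `N` = the
rest.  This is a bijection of these networks and the pairs `(X, N)` with `nd N < nd X`: `exists_in`; conversely `(X, N) ↦` the class of
`parN` (`parN_good`, `exists_c`); uniqueness by `IsParts.unique`, `IsParts.iso`. -/
theorem count_A (w : Λ → ℝ≥0∞) :
    pK w 1 * pN w 1 (fun c => 4 ≤ Fintype.card c.rep.1.D ∧ ¬ c.IsX) =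
      (∑' p : Λ × NC Λ, if CSink p then w p.1 * wt w p.2.rep.1 else 0) +
      ∑' i : IN Λ, if nd i.2.2 < nd i.2.1.1 then inW w i else 0 := by
  have hL : pK w 1 * pN w 1 (fun c => 4 ≤ Fintype.card c.rep.1.D ∧ ¬ c.IsX) =
      ∑' p : Λ × NC Λ, if 4 ≤ nd p.2 ∧ ¬ p.2.IsX then w p.1 * wt w p.2.rep.1 else 0 := by
    rw [ENNReal.tsum_prod']
    unfold pK pN
    rw [← ENNReal.tsum_mul_right]
    refine tsum_congr fun l => ?_
    rw [← ENNReal.tsum_mul_left]
    refine tsum_congr fun c => ?_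
    by_cases h : 4 ≤ Fintype.card c.rep.1.D ∧ ¬ c.IsX
    · have h' : 4 ≤ nd (l, c).2 ∧ ¬ (l, c).2.IsX := h
      rw [if_pos h, if_pos h', pow_one, pow_one]
    · have h' : ¬ (4 ≤ nd (l, c).2 ∧ ¬ (l, c).2.IsX) := h
      rw [if_neg h, if_neg h', mul_zero]
  have hS : ∀ p : Λ × NC Λ, (if 4 ≤ nd p.2 ∧ ¬ p.2.IsX then w p.1 * wt w p.2.rep.1 else 0) =
      (if CSink p then w p.1 * wt w p.2.rep.1 else 0) +
      if (4 ≤ nd p.2 ∧ ¬ p.2.IsX) ∧ ¬ CSink p then w p.1 * wt w p.2.rep.1 else 0 := by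
    intro p
    by_cases h1 : CSink p
    · rw [if_pos ⟨h1.1, h1.2.1⟩, if_pos h1, if_neg (fun h => h.2 h1), add_zero]
    · by_cases h2 : 4 ≤ nd p.2 ∧ ¬ p.2.IsX
      · rw [if_pos h2, if_neg h1, if_pos ⟨h2, h1⟩, zero_add]
      · rw [if_neg h2, if_neg h1, if_neg (fun h => h2 h.1), add_zero]
  rw [hL, tsum_congr hS, ENNReal.tsum_add]
  congr 1
  rw [← CountA_sub (fun p : Λ × NC Λ => (4 ≤ nd p.2 ∧ ¬ p.2.IsX) ∧ ¬ CSink p)
    (fun p => w p.1 * wt w p.2.rep.1), ← CountA_sub (fun i : IN Λ => nd i.2.2 < nd i.2.1.1) (inW w)]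
  choose F hF1 hF2 hF3 hF4 hF5 hF6 using fun i : IN Λ => exists_c i
  have hcard : ∀ i, nd (F i).2 = nd i.2.1.1 + nd i.2.2 := by
    intro i
    obtain ⟨m, hm⟩ := exists_parts i.2.2.rep.2
    exact CountA_card hm (hF6 i _ _ hm)
  have hns : ∀ i : IN Λ, nd i.2.2 < nd i.2.1.1 → ¬ CSink (F i) := by
    intro i hi hc
    obtain ⟨m, hm⟩ := exists_parts i.2.2.rep.2
    have h1 := hc.2.2 _ _ (hF6 i _ _ hm) i.2.1 (Multiset.mem_cons_self _ _)
    have h2 := hcard i
    omega
  let G : {i : IN Λ // nd i.2.2 < nd i.2.1.1} →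
      {p : Λ × NC Λ // (4 ≤ nd p.2 ∧ ¬ p.2.IsX) ∧ ¬ CSink p} :=
    fun i => ⟨F i.1, ⟨hF3 _, hF4 _⟩, hns _ i.2⟩
  have hG : Function.Bijective G := by
    constructor
    · rintro ⟨i, hi⟩ ⟨j, hj⟩ h
      have h0 : F i = F j := congrArg Subtype.val h
      apply Subtype.ext
      show i = j
      obtain ⟨m, hm⟩ := exists_parts i.2.2.rep.2
      obtain ⟨m', hm'⟩ := exists_parts j.2.2.rep.2
      have h1 := hF6 i _ _ hm
      have h2 := hF6 j _ _ hm'
      rw [← h0] at h2
      obtain ⟨hb, hmm⟩ := h1.unique h2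
      have hle : ∀ (b : Bool) (m : Multiset (XC Λ)) (N : NC Λ) (x : XC Λ), IsParts N.rep.1 b m →
          x ∈ m → nd x.1 ≤ nd N := by
        intro b m N x hN hx
        obtain ⟨m', rfl⟩ := Multiset.exists_cons_of_mem hx
        unfold nd
        rw [hN.card, Multiset.map_cons, Multiset.sum_cons]
        omega
      have hX : i.2.1 = j.2.1 := by
        by_contra hne
        have h3 : i.2.1 ∈ j.2.1 ::ₘ m' := by rw [← hmm]; exact Multiset.mem_cons_self _ _
        have h4 : j.2.1 ∈ i.2.1 ::ₘ m := by rw [hmm]; exact Multiset.mem_cons_self _ _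
        rw [Multiset.mem_cons] at h3 h4
        have h5 := hle _ _ _ _ hm' (h3.resolve_left hne)
        have h6 := hle _ _ _ _ hm (h4.resolve_left (Ne.symm hne))
        omega
      rw [hX] at hmm
      have hmm' : m = m' := (Multiset.cons_inj_right _).1 hmm
      subst hmm'
      rw [hb] at hm
      have hN : i.2.2 = j.2.2 := eq_of_rep (hm.iso hm')
      have hl : i.1 = j.1 := by rw [← hF1 i, ← hF1 j, h0]
      exact Prod.ext hl (Prod.ext hX hN)
    · rintro ⟨p, ⟨h4, hX⟩, hc⟩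
      have h1 : ∃ b m, IsParts p.2.rep.1 b m ∧ ∃ x ∈ m, nd p.2 < 2 * nd x.1 := by
        by_contra hno
        apply hc
        refine ⟨h4, hX, fun b m hm x hx => ?_⟩
        by_contra hlt
        exact hno ⟨b, m, hm, x, hx, not_le.1 hlt⟩
      obtain ⟨b, m, hm, x, hx, hlt⟩ := h1
      obtain ⟨N, hN, hnd⟩ := exists_in hX hm hx
      refine ⟨⟨(p.1, x, N), by show nd N < nd x.1; omega⟩, Subtype.ext ?_⟩
      show F (p.1, x, N) = p
      refine Prod.ext (hF1 _) (eq_of_rep ((hF2 _).trans hN.symm))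
  rw [← (Equiv.ofBijective G hG).tsum_eq]
  refine tsum_congr fun i => ?_
  show w (F i.1).1 * wt w (F i.1).2.rep.1 = inW w i.1
  obtain ⟨m, hm⟩ := exists_parts i.1.2.2.rep.2
  rw [hF1, (hF6 i.1 _ _ hm).wt w, Multiset.map_cons, Multiset.prod_cons, ← hm.wt w]
  rfl

end PGr

end

section
/-! # Module CountP: polygons and their heavy networks -/

set_option linter.unusedSectionVars false

namespace PGr
open Equiv Finset
open scoped ENNReal Classical
universe u
open NetSumC
variable {Λ : Type u} [Nonempty Λ]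

/-- sums over two subtypes in bijection -/
private theorem CountP_sub {α : Type*} (P : α → Prop) [DecidablePred P] (f : α → ℝ≥0∞) :
    ∑' x, (if P x then f x else 0) = ∑' x : {x // P x}, f x.1 := by
  refine Eq.trans ?_ (_root_.tsum_subtype {x | P x} f).symm
  refine tsum_congr fun x => ?_
  by_cases h : P x
  · rw [if_pos h, Set.indicator_of_mem (show x ∈ {x | P x} from h)]
  · rw [if_neg h, Set.indicator_of_notMem (show x ∉ {x | P x} from h)]

private theorem CountP_bij {α β : Type*} (P : α → Prop) (Q : β → Prop) [DecidablePred P]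
    [DecidablePred Q] (f : α → ℝ≥0∞)
    (g : β → ℝ≥0∞) (φ : {y // Q y} → {x // P x}) (hφ : Function.Bijective φ)
    (h : ∀ y, g y.1 = f (φ y).1) :
    ∑' x, (if P x then f x else 0) = ∑' y, if Q y then g y else 0 := by
  rw [CountP_sub P, CountP_sub Q, ← (Equiv.ofBijective φ hφ).tsum_eq]
  exact tsum_congr fun y => (h y).symm

omit [Nonempty Λ] in
private theorem CountP_toIN_inj {p q : PO Λ} (h : p.toIN = q.toIN) : p = q := by
  obtain ⟨⟨l1, c1⟩, ⟨N, hN⟩, l2, c2⟩ := p
  obtain ⟨⟨l1', c1'⟩, ⟨N', hN'⟩, l2', c2'⟩ := q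
  simp only [PO.toIN, Prod.mk.injEq, Subtype.mk.injEq] at h
  obtain ⟨h1, h2, h3⟩ := h
  obtain ⟨h4, h5, h6⟩ := NC.ser_inj' (fun hh => hN ((NC.fl_Ser _).1 hh))
    (fun hh => hN' ((NC.fl_Ser _).1 hh)) h2
  have h7 := NC.fl_inj h6
  subst h1 h3 h4 h5 h7
  rfl

omit [Nonempty Λ] in
private theorem CountP_exists {i : IN Λ} (h : i.2.1.1.IsSer) : ∃ p : PO Λ, p.toIN = i := by
  obtain ⟨l, ⟨X, hX⟩, N⟩ := i
  obtain ⟨c1, l', c2, hc, he⟩ := NC.exists_ser' h
  refine ⟨((l, N), ⟨c2.fl, fun hh => hc ((NC.fl_Ser _).1 hh)⟩, (l', c1)), ?_⟩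
  dsimp only at he
  subst he
  simp only [PO.toIN, NC.fl_fl]

omit [Nonempty Λ] in
private theorem CountP_nd_fl (c : NC Λ) : nd c.fl = nd c := (NC.fl_rep c).card_eq

omit [Nonempty Λ] in
private theorem CountP_nd_ser (c : NC Λ) (l : Λ) (c' : NC Λ) :
    nd (c.ser l c') = nd c + nd c' := NC.card_ser c l c'

omit [Nonempty Λ] in
private theorem CountP_nd (p : PO Λ) : nd p.toIN.2.1.1 = nd p.2.2.2 + nd p.2.1.1 := by
  have h : nd p.toIN.2.1.1 = nd (p.2.2.2.ser p.2.2.1 p.2.1.1.fl) := rfl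
  rw [h, CountP_nd_ser, CountP_nd_fl]

omit [Nonempty Λ] in
/-- every network has a dart -/
private theorem CountP_pos (c : NC Λ) : 0 < nd c := by
  have := c.rep.2.ne
  exact Fintype.card_pos

omit [Nonempty Λ] in
private theorem CountP_wt (w : Λ → ℝ≥0∞) (p : PO Λ) : inW w p.toIN = p.wt w := by
  have h : inW w p.toIN = w p.1.1 * (wt w (p.2.2.2.ser p.2.2.1 p.2.1.1.fl).rep.1 *
    wt w p.1.2.rep.1) := rfl
  rw [h, NC.wt_ser, NC.wt_fl]
  unfold PO.wt
  ring

/-- A polygon which is not a sink has exactly one of its two networks at `v0` with at least half of the darts (the third network is not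
empty); choose the order such that it is the first one.  So the classes of these polygons correspond to the polygons with heavy
first network, and `PO.toIN` is a bijection of them and the incidences with `X` series, `nd X ≤ nd N`: injective by
`NC.ser_inj'` and `NC.fl_inj`, surjective by `NC.exists_ser'`. -/
theorem count_P (w : Λ → ℝ≥0∞) : poly w =
    (∑' x : Quotient (poSetoid Λ), if PSink x.out then x.out.wt w else 0) +
    ∑' i : IN Λ, if i.2.1.1.IsSer ∧ nd i.2.1.1 ≤ nd i.2.2 then inW w i else 0 := by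
  have h1 : poly w = (∑' x : Quotient (poSetoid Λ), if PSink x.out then x.out.wt w else 0) +
      ∑' x : Quotient (poSetoid Λ), if ¬ PSink x.out then x.out.wt w else 0 := by
    rw [← ENNReal.tsum_add]
    refine tsum_congr fun x => ?_
    by_cases h : PSink x.out
    · rw [if_pos h, if_neg (not_not.2 h), add_zero]
    · rw [if_neg h, if_pos h, zero_add]
  rw [h1]
  congr 1
  -- the polygon of an incidence
  have hex : ∀ i : {i : IN Λ // i.2.1.1.IsSer ∧ nd i.2.1.1 ≤ nd i.2.2}, ∃ p : PO Λ, p.toIN = i.1 :=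
    fun i => CountP_exists i.2.1
  choose P hP using hex
  have hheavy : ∀ i, (P i).nT ≤ 2 * nd (P i).1.2 := by
    intro i
    have h2 := i.2.2
    rw [← hP i, CountP_nd] at h2
    have h3 : nd (P i).toIN.2.2 = nd (P i).1.2 := rfl
    unfold PO.nT
    omega
  have hns : ∀ i, ¬ PSink (Quotient.mk (poSetoid Λ) (P i)).out := by
    intro i h
    rw [psink_out] at h
    have := hheavy i
    have := h.1
    omega
  refine CountP_bij (fun x : Quotient (poSetoid Λ) => ¬ PSink x.out)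
    (fun i : IN Λ => i.2.1.1.IsSer ∧ nd i.2.1.1 ≤ nd i.2.2) (fun x => x.out.wt w) (inW w) (fun i => ⟨Quotient.mk (poSetoid Λ) (P i), hns i⟩) ⟨?_, ?_⟩ ?_
  · intro i j h
    have h2 : Quotient.mk (poSetoid Λ) (P i) = Quotient.mk (poSetoid Λ) (P j) :=
      congrArg Subtype.val h
    have h3 : P j = P i ∨ P j = (P i).flip := Quotient.exact h2
    apply Subtype.ext
    rcases h3 with h3 | h3
    · rw [← hP i, ← hP j, h3]
    · exfalso
      have h4 := hheavy i
      have h5 := hheavy j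
      rw [h3, PO.flip_nT] at h5
      have h6 : nd (P i).flip.1.2 = nd (P i).2.2.2 := rfl
      have h7 := CountP_pos (P i).2.1.1
      unfold PO.nT at h4 h5
      omega
  · rintro ⟨x, hx⟩
    have key : ∀ p : PO Λ, p.nT ≤ 2 * nd p.1.2 →
        ∃ i, Quotient.mk (poSetoid Λ) (P i) = Quotient.mk (poSetoid Λ) p := by
      intro p hp
      have h1 : p.toIN.2.1.1.IsSer := (NC.ser_IsSer p.2.2.2 p.2.2.1 p.2.1.1.fl).1
      have h2 : nd p.toIN.2.1.1 ≤ nd p.toIN.2.2 := by
        rw [CountP_nd]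
        show nd p.2.2.2 + nd p.2.1.1 ≤ nd p.1.2
        unfold PO.nT at hp
        omega
      exact ⟨⟨p.toIN, h1, h2⟩, congrArg _ (CountP_toIN_inj (hP ⟨p.toIN, h1, h2⟩))⟩
    have hx' : x.out.nT ≤ 2 * nd x.out.1.2 ∨ x.out.nT ≤ 2 * nd x.out.2.2.2 := by
      by_contra hc
      push Not at hc
      exact hx hc
    rcases hx' with h2 | h2
    · obtain ⟨i, hi⟩ := key x.out h2
      refine ⟨i, Subtype.ext ?_⟩
      show Quotient.mk (poSetoid Λ) (P i) = x
      rw [hi, Quotient.out_eq]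
    · obtain ⟨i, hi⟩ := key x.out.flip (by rw [PO.flip_nT]; exact h2)
      refine ⟨i, Subtype.ext ?_⟩
      show Quotient.mk (poSetoid Λ) (P i) = x
      have h3 : Quotient.mk (poSetoid Λ) x.out = Quotient.mk (poSetoid Λ) x.out.flip :=
        Quotient.sound (s := poSetoid Λ) (Or.inr rfl)
      rw [hi, ← h3, Quotient.out_eq]
  · intro i
    show inW w i.1 = (Quotient.mk (poSetoid Λ) (P i)).out.wt w
    rw [po_wt_out, ← hP i, CountP_wt]

/-- the weight of a network at the root vertex with its end -/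
private noncomputable def CountP_A (w : Λ → ℝ≥0∞) (a : Λ × NC Λ) : ℝ≥0∞ := w a.1 * wt w a.2.rep.1

omit [Nonempty Λ] in
private theorem CountP_A1 (w : Λ → ℝ≥0∞) : ∑' a, CountP_A w a = pK w 1 * pD w 1 := by
  unfold CountP_A pK pD pN
  rw [ENNReal.tsum_prod']
  simp_rw [ENNReal.tsum_mul_left, ENNReal.tsum_mul_right, if_true, pow_one]

omit [Nonempty Λ] in
private theorem CountP_A2 (w : Λ → ℝ≥0∞) : ∑' a, CountP_A w a ^ 2 = pK w 2 * pD w 2 := by
  unfold CountP_A pK pD pN
  rw [ENNReal.tsum_prod']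
  simp_rw [mul_pow, ENNReal.tsum_mul_left, ENNReal.tsum_mul_right, if_true]

omit [Nonempty Λ] in
private theorem CountP_flip_iff (p : PO Λ) : p.flip = p ↔ p.2.2 = p.1 ∧ p.2.1.1.fl = p.2.1.1 := by
  obtain ⟨a, ⟨N, hN⟩, b⟩ := p
  simp only [PO.flip, Prod.mk.injEq, Subtype.mk.injEq]
  constructor
  · rintro ⟨h1, h2, _⟩
    exact ⟨h1, h2⟩
  · rintro ⟨h1, h2⟩
    exact ⟨h1, h2, h1.symm⟩

/-- `two_sum` with `m = PO.flip`, `Φ p` = the class of `p` -/
theorem poly_eq (w : Λ → ℝ≥0∞) : 2 * poly w =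
    pK w 1 ^ 2 * pD w 1 ^ 2 * pN w 1 (fun c => ¬ c.IsSer) +
      pK w 2 * pD w 2 * pN w 1 (fun c => ¬ c.IsSer ∧ c.fl = c) := by
  have h := two_sum (P := PO Λ) (C := Quotient (poSetoid Λ)) PO.flip PO.flip_flip
    (Quotient.mk (poSetoid Λ)) (fun p q => Quotient.eq (r := poSetoid Λ)) (fun x => x.out.wt w)
  have h0 : ∑' c : Quotient (poSetoid Λ), (if ∃ p, Quotient.mk (poSetoid Λ) p = c then
      c.out.wt w else 0) = poly w := by
    unfold poly
    refine tsum_congr fun c => ?_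
    rw [if_pos ⟨c.out, Quotient.out_eq c⟩]
  rw [h0] at h
  rw [h]
  simp_rw [po_wt_out]
  congr 1
  · have h1 : ∀ p : PO Λ, p.wt w = CountP_A w p.1 * (wt w p.2.1.1.rep.1 * CountP_A w p.2.2) := by
      intro p
      unfold PO.wt CountP_A
      ring
    simp_rw [h1]
    rw [ENNReal.tsum_prod']
    simp_rw [ENNReal.tsum_mul_left]
    rw [ENNReal.tsum_mul_right, CountP_A1, ENNReal.tsum_prod']
    simp_rw [ENNReal.tsum_mul_left]
    rw [ENNReal.tsum_mul_right, CountP_A1]
    have h2 : ∑' N : {c : NC Λ // ¬ c.IsSer}, wt w N.1.rep.1 = pN w 1 (fun c => ¬ c.IsSer) := by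
      unfold pN
      simp_rw [pow_one]
      exact (CountP_sub (fun c : NC Λ => ¬ c.IsSer) (fun c => wt w c.rep.1)).symm
    rw [h2]
    ring
  · have h1 : ∀ p : PO Λ, (if p.flip = p then p.wt w else 0) =
        CountP_A w p.1 * ((if p.2.1.1.fl = p.2.1.1 then wt w p.2.1.1.rep.1 else 0) *
          (if p.2.2 = p.1 then CountP_A w p.2.2 else 0)) := by
      intro p
      by_cases h2 : p.2.2 = p.1
      · by_cases h3 : p.2.1.1.fl = p.2.1.1
        · rw [if_pos ((CountP_flip_iff p).2 ⟨h2, h3⟩), if_pos h2, if_pos h3]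
          unfold PO.wt CountP_A
          ring
        · rw [if_neg (fun hh => h3 ((CountP_flip_iff p).1 hh).2), if_neg h3, zero_mul, mul_zero]
      · rw [if_neg (fun hh => h2 ((CountP_flip_iff p).1 hh).1), if_neg h2, mul_zero, mul_zero]
    simp_rw [h1]
    rw [ENNReal.tsum_prod']
    have h4 : ∀ a : Λ × NC Λ, ∑' b : {c : NC Λ // ¬ c.IsSer} × (Λ × NC Λ),
        CountP_A w a * ((if b.1.1.fl = b.1.1 then wt w b.1.1.rep.1 else 0) *
          (if b.2 = a then CountP_A w b.2 else 0)) =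
        CountP_A w a ^ 2 * pN w 1 (fun c => ¬ c.IsSer ∧ c.fl = c) := by
      intro a
      rw [ENNReal.tsum_mul_left, ENNReal.tsum_prod']
      simp_rw [ENNReal.tsum_mul_left]
      rw [ENNReal.tsum_mul_right, tsum_ite_eq]
      have h5 : ∑' N : {c : NC Λ // ¬ c.IsSer}, (if N.1.fl = N.1 then wt w N.1.rep.1 else 0) =
          pN w 1 (fun c => ¬ c.IsSer ∧ c.fl = c) := by
        unfold pN
        simp_rw [pow_one]
        refine (CountP_sub (fun c : NC Λ => ¬ c.IsSer)
          (fun c => if c.fl = c then wt w c.rep.1 else 0)).symm.trans ?_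
        refine tsum_congr fun c => ?_
        by_cases h6 : c.IsSer
        · simp [h6]
        · simp [h6]
      rw [h5]
      ring
    refine (tsum_congr h4).trans ?_
    rw [ENNReal.tsum_mul_right, CountP_A2]

end PGr

end

section
/-! # Module CountR: rigid nodes and their heavy networks -/

set_option linter.unusedSectionVars false

namespace PGr
open Equiv Finset
open scoped ENNReal Classical
universe u
open NetSumC
variable {Λ : Type u} [Nonempty Λ]

/-- a matching of full codes with heavy root networks respects the root dart -/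
private theorem CountR_root {p q : FCR Λ} (hp : p.nT ≤ 2 * nd p.1.2.2.1)
    (hq : q.nT ≤ 2 * nd q.1.2.2.1) {o : Bool} {ψ : CT p.1.1 ≃ CT q.1.1}
    (hψ : DM p.1.hat q.1.hat o ψ) : ψ (Sum.inr true) = Sum.inr true := by
  have h1 : (core q.1.1).s.SameCycle (Sum.inr true) (ψ (Sum.inr true)) :=
    (hψ.fc_root (Sum.inr true)).1 (Perm.SameCycle.refl _ _)
  have h2 : q.1.hat.2.1 (ψ (Sum.inr true)) = p.1.2.2.1 := hψ.f (Sum.inr true)
  have hT : p.nT = q.nT := FCR.nT_eq ⟨o, ψ, hψ⟩
  have h3 : edgeOf (core q.1.1) (ψ (Sum.inr true)) = edgeOf (core q.1.1) (Sum.inr true) := by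
    refine q.heavy_unique ?_ ?_
    · have h4 : nd (q.1.hat.2.1 (ψ (Sum.inr true))) = nd p.1.2.2.1 := congrArg nd h2
      show q.nT ≤ 2 * nd (q.1.hat.2.1 (ψ (Sum.inr true)))
      omega
    · exact hq
  rcases h4 : ψ (Sum.inr true) with x | b
  · rw [h4] at h3
    exact absurd h3 (by simp [edgeOf])
  · cases b
    · exfalso
      rw [h4] at h1
      exact Good.noLoop (CT_good q.1.1) (Sum.inr true) h1
    · rfl

omit [Nonempty Λ] in
private theorem CountR_vinc {c : GC} (t t' : CT c) :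
    (core c).vinc t = (core c).vinc t' ↔ (core c).s.SameCycle t t' :=
  Quotient.eq (r := Perm.SameCycle.setoid (core c).s)

omit [Nonempty Λ] in
/-- matchings of codes are matchings of full codes -/
private theorem CountR_DM {p q : FC Λ} (h1 : p.lend = q.lend) (h3 : p.2.2.1 = q.2.2.1) {o : Bool}
    {ψ : CT p.1 ≃ CT q.1} (hψ : @DM _ _ (hat p.ix) (hat q.ix) o ψ)
    (hr : ∀ c, ψ (Sum.inr c) = Sum.inr c) : @DM _ _ p.hat q.hat o ψ := by
  have hv : ∀ t b, (core q.1).vinc (ψ t) = (core q.1).vinc (Sum.inr b) ↔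
      (core p.1).vinc t = (core p.1).vinc (Sum.inr b) := by
    intro t b
    refine (CountR_vinc (ψ t) (Sum.inr b)).trans (Iff.trans ?_ (CountR_vinc t (Sum.inr b)).symm)
    have h2 := hψ.sameCycle t (Sum.inr b)
    have h4 : (core q.1).s.SameCycle (ψ t) (ψ (Sum.inr b)) ↔
        (core q.1).s.SameCycle (ψ t) (Sum.inr b) :=
      iff_of_eq (congrArg (fun y => (core q.1).s.SameCycle (ψ t) y) (hr b))
    exact h4.symm.trans h2.symm
  refine ⟨hψ.a, hψ.s, ?_, ?_⟩
  · rintro (x | c)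
    · have h2 : (hat q.ix).2.1 (ψ (Sum.inl x)) = some (eDec p.2.1 x) := hψ.f (Sum.inl x)
      rcases h4 : ψ (Sum.inl x) with x' | c'
      · rw [h4] at h2
        have h5 : some (eDec q.2.1 x') = some (eDec p.2.1 x) := h2
        have h6 : q.hat.2.1 (ψ (Sum.inl x)) = q.hat.2.1 (Sum.inl x') := congrArg q.hat.2.1 h4
        exact h6.trans (Option.some.inj h5)
      · rw [h4] at h2
        have h5 : (none : Option (NC Λ)) = some (eDec p.2.1 x) := h2
        exact absurd h5 (by simp)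
    · have h6 : q.hat.2.1 (ψ (Sum.inr c)) = q.hat.2.1 (Sum.inr c) := congrArg q.hat.2.1 (hr c)
      refine h6.trans ?_
      show (if c then q.2.2.1 else q.2.2.1.fl) = (if c then p.2.2.1 else p.2.2.1.fl)
      rw [h3]
  · intro t
    show (if h : (core q.1).vinc (ψ t) ≠ (core q.1).vinc (Sum.inr true) then
        some (q.2.2.2 ⟨(core q.1).vinc (ψ t), h⟩) else none) =
      (if h : (core p.1).vinc t ≠ (core p.1).vinc (Sum.inr true) then
        some (p.2.2.2 ⟨(core p.1).vinc t, h⟩) else none)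
    by_cases ht : (core p.1).vinc t = (core p.1).vinc (Sum.inr true)
    · rw [dif_neg (not_not.2 ht), dif_neg (not_not.2 ((hv t true).2 ht))]
    · have ht' : (core q.1).vinc (ψ t) ≠ (core q.1).vinc (Sum.inr true) :=
        fun h => ht ((hv t true).1 h)
      rw [dif_pos ht, dif_pos ht']
      congr 1
      by_cases hf : (core p.1).vinc t = (core p.1).vinc (Sum.inr false)
      · have hf' := (hv t false).2 hf
        have e1 : p.lend = p.2.2.2 ⟨(core p.1).vinc t, ht⟩ :=
          congrArg p.2.2.2 (Subtype.ext hf.symm)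
        have e2 : q.lend = q.2.2.2 ⟨(core q.1).vinc (ψ t), ht'⟩ :=
          congrArg q.2.2.2 (Subtype.ext hf'.symm)
        rw [← e1, ← e2, h1]
      · have h2 := hψ.g t
        have k1 : ∀ b, (core p.1).vinc t ≠ (core p.1).vinc (Sum.inr b) := by
          intro b
          cases b
          · exact hf
          · exact ht
        have k2 : ∀ b, (core q.1).vinc (ψ t) ≠ (core q.1).vinc (Sum.inr b) :=
          fun b h => k1 b ((hv t b).1 h)
        have h5 : (if h : ∀ b, (core q.1).vinc (ψ t) ≠ (core q.1).vinc (Sum.inr b) then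
            some (q.ix.2.2 ⟨(core q.1).vinc (ψ t), h⟩) else none) =
          (if h : ∀ b, (core p.1).vinc t ≠ (core p.1).vinc (Sum.inr b) then
            some (p.ix.2.2 ⟨(core p.1).vinc t, h⟩) else none) := h2
        rw [dif_pos k1, dif_pos k2] at h5
        exact Option.some.inj h5

/-- two full codes with a heavy network on the root edge are equivalent iff they have the same incidence: a matching maps the
root dart to the root dart (`FCR.heavy_unique`: the edges are equal, and the root dart is the dart of its edge at the root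
vertex); so the incidences are equal (`FCR.full_match`, `FCR.full_toIN`, `inN_unique`); conversely `cact_niso` with `b = false`, as
in `fc_unique` -/
theorem heavy_rel {p q : FCR Λ} (hp : p.nT ≤ 2 * nd p.1.2.2.1) (hq : q.nT ≤ 2 * nd q.1.2.2.1) :
    (fcSetoid Λ).r p q ↔ p.toIN = q.toIN := by
  constructor
  · rintro ⟨o, ψ, hψ⟩
    have hr : ψ (Sum.inr true) = Sum.inr true := CountR_root hp hq hψ
    obtain ⟨e, f, hm, hpart⟩ := FCR.full_match hψ
    obtain ⟨e1, f1, hm1, hp1⟩ := FCR.full_toIN p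
    obtain ⟨e2, f2, hm2, hp2⟩ := FCR.full_toIN q
    refine inN_unique (hm1.symm.trans (hm.trans hm2)) fun d => ?_
    obtain ⟨d', rfl⟩ := e1.surjective d
    have h5 : d' ∈ p.part (Sum.inr true) ↔ e d' ∈ q.part (Sum.inr true) :=
      (hpart (Sum.inr true) d').trans
        (iff_of_eq (congrArg (fun s => e d' ∈ FCR.part q s) hr))
    rw [← hp1, h5, hp2]
    simp
  · intro h
    have h1 : p.1.lend = q.1.lend := congrArg Prod.fst h
    have h2 : p.toIN.2.1.1 = q.toIN.2.1.1 := congrArg (fun i : IN Λ => i.2.1.1) h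
    have h3 : p.1.2.2.1 = q.1.2.2.1 := congrArg (fun i : IN Λ => i.2.2) h
    have h4 : NIso (cN p.1.ix) (cN q.1.ix) := by
      have e1 : NIso p.toIN.2.1.1.rep.1 (cN p.1.ix) := cls_iso _ _
      have e2 : NIso q.toIN.2.1.1.rep.1 (cN q.1.ix) := cls_iso _ _
      rw [h2] at e1
      exact e1.symm.trans e2
    have h5 : ∃ o, CAct o false p.1.ix q.1.ix := by
      rcases (cact_niso (p := p.1.ix) (q := q.1.ix) p.2 q.2 false).1
        (h4.trans (fl_false _).symm) with h5 | h5
      · exact ⟨true, (cact_iff _ _ _ _).2 h5⟩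
      · exact ⟨false, (cact_iff _ _ _ _).2 h5⟩
    obtain ⟨o, ψ, hψ, hψr⟩ := h5
    refine ⟨o, ψ, CountR_DM h1 h3 hψ fun c => ?_⟩
    have := hψr c
    rwa [Bool.false_xor] at this

omit [Nonempty Λ] in
private theorem CountR_sub {α : Type*} (P : α → Prop) [DecidablePred P] (f : α → ℝ≥0∞) :
    ∑' x, (if P x then f x else 0) = ∑' x : {x // P x}, f x.1 := by
  refine Eq.trans ?_ (_root_.tsum_subtype {x | P x} f).symm
  refine tsum_congr fun x => ?_
  by_cases h : P x
  · rw [if_pos h, Set.indicator_of_mem (show x ∈ {x | P x} from h)]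
  · rw [if_neg h, Set.indicator_of_notMem (show x ∉ {x | P x} from h)]

omit [Nonempty Λ] in
private theorem CountR_bij {α β : Type*} (P : α → Prop) (Q : β → Prop) [DecidablePred P]
    [DecidablePred Q] (f : α → ℝ≥0∞)
    (g : β → ℝ≥0∞) (φ : {y // Q y} → {x // P x}) (hφ : Function.Bijective φ)
    (h : ∀ y, g y.1 = f (φ y).1) :
    ∑' x, (if P x then f x else 0) = ∑' y, if Q y then g y else 0 := by
  rw [CountR_sub P, CountR_sub Q, ← (Equiv.ofBijective φ hφ).tsum_eq]
  exact tsum_congr fun y => (h y).symm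

private theorem CountR_nT (p : FCR Λ) : p.nT = nd p.toIN.2.1.1 + nd p.toIN.2.2 := by
  obtain ⟨e, f, _, _⟩ := FCR.full_toIN p
  rw [← FCR.full_card, Fintype.card_congr e, vnet_card]

private theorem CountR_wt (w : Λ → ℝ≥0∞) (p : FCR Λ) : inW w p.toIN = p.1.wt w := by
  obtain ⟨e, f, hm, _⟩ := FCR.full_toIN p
  rw [← FCR.wV_full, VIso.wtV w ⟨e, f, hm⟩, wV_vnet]
  rfl

private theorem CountR_not_ser (p : FCR Λ) : ¬ p.toIN.2.1.1.IsSer := by
  intro h
  have e1 : NIso p.toIN.2.1.1.rep.1 (cN p.1.ix) := cls_iso _ _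
  exact (cN_X p.1.ix p.2).2 (e1.ser h)

/-- Every class of full codes which is not a sink contains a code with a heavy network on the root edge (`FC.reroot`); by
`heavy_rel` these classes correspond to the incidences with `X` not series and `nd X ≤ nd N` (`exists_bnode`). -/
theorem count_R (w : Λ → ℝ≥0∞) : PR w =
    (∑' x : Quotient (fcSetoid Λ), if RSink x.out then x.out.1.wt w else 0) +
    ∑' i : IN Λ, if ¬ i.2.1.1.IsSer ∧ nd i.2.1.1 ≤ nd i.2.2 then inW w i else 0 := by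
  have h1 : PR w = (∑' x : Quotient (fcSetoid Λ), if RSink x.out then x.out.1.wt w else 0) +
      ∑' x : Quotient (fcSetoid Λ), if ¬ RSink x.out then x.out.1.wt w else 0 := by
    rw [← ENNReal.tsum_add]
    refine tsum_congr fun x => ?_
    by_cases h : RSink x.out
    · rw [if_pos h, if_neg (not_not.2 h), add_zero]
    · rw [if_neg h, if_pos h, zero_add]
  rw [h1]
  congr 1
  have hex : ∀ i : {i : IN Λ // ¬ i.2.1.1.IsSer ∧ nd i.2.1.1 ≤ nd i.2.2},
      ∃ p : FCR Λ, p.toIN = i.1 := by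
    intro i
    rcases exists_bnode i.1 with ⟨p, hp⟩ | ⟨p, hp⟩
    · exfalso
      apply i.2.1
      rw [← hp]
      exact (NC.ser_IsSer _ _ _).1
    · exact ⟨p, hp⟩
  choose P hP using hex
  have hheavy : ∀ i, (P i).nT ≤ 2 * nd (P i).1.2.2.1 := by
    intro i
    have h2 := i.2.2
    have h3 := CountR_nT (P i)
    rw [hP i] at h3
    have h4 : nd i.1.2.2 = nd (P i).1.2.2.1 := by rw [← hP i]; rfl
    omega
  have hns : ∀ i, ¬ RSink (Quotient.mk (fcSetoid Λ) (P i)).out := by
    intro i h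
    rw [rsink_out] at h
    have h2 := hheavy i
    have h3 : 2 * nd (P i).1.2.2.1 < (P i).nT := h (Sum.inr true) (Perm.SameCycle.refl _ _)
    omega
  refine CountR_bij (fun x : Quotient (fcSetoid Λ) => ¬ RSink x.out)
    (fun i : IN Λ => ¬ i.2.1.1.IsSer ∧ nd i.2.1.1 ≤ nd i.2.2) (fun x => x.out.1.wt w) (inW w)
    (fun i => ⟨Quotient.mk (fcSetoid Λ) (P i), hns i⟩) ⟨?_, ?_⟩ ?_
  · intro i j h
    have h2 : Quotient.mk (fcSetoid Λ) (P i) = Quotient.mk (fcSetoid Λ) (P j) :=
      congrArg Subtype.val h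
    have h3 : (fcSetoid Λ).r (P i) (P j) := Quotient.exact h2
    have h4 := (heavy_rel (hheavy i) (hheavy j)).1 h3
    apply Subtype.ext
    rw [← hP i, ← hP j, h4]
  · rintro ⟨x, hx⟩
    have hx' : ∃ t, (core x.out.1.1).s.SameCycle (Sum.inr true) t ∧
        x.out.nT ≤ 2 * nd (x.out.1.hat.2.1 t) := by
      by_contra hc
      apply hx
      intro t ht
      by_contra hlt
      exact hc ⟨t, ht, not_lt.1 hlt⟩
    obtain ⟨t, ht, hnt⟩ := hx'
    obtain ⟨q, ψ, hψ, hψt⟩ := FC.reroot x.out.1 t ht true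
    have hqr : Rigid q.1.rep.1 := hψ.rigid x.out.2
    have hrel : (fcSetoid Λ).r x.out ⟨q, hqr⟩ := ⟨true, ψ, hψ⟩
    have hT : x.out.nT = FCR.nT ⟨q, hqr⟩ := FCR.nT_eq hrel
    have hnet : q.2.2.1 = x.out.1.hat.2.1 t := by
      have h2 := hψ.f t
      rw [hψt] at h2
      exact h2
    have hq : FCR.nT ⟨q, hqr⟩ ≤ 2 * nd q.2.2.1 := by
      rw [← hT, hnet]; exact hnt
    have h2 := CountR_nT (⟨q, hqr⟩ : FCR Λ)
    have h3 : nd (FCR.toIN ⟨q, hqr⟩).2.2 = nd q.2.2.1 := rfl
    have hQ : ¬ (FCR.toIN ⟨q, hqr⟩).2.1.1.IsSer ∧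
        nd (FCR.toIN ⟨q, hqr⟩).2.1.1 ≤ nd (FCR.toIN ⟨q, hqr⟩).2.2 :=
      ⟨CountR_not_ser _, by omega⟩
    refine ⟨⟨FCR.toIN ⟨q, hqr⟩, hQ⟩, Subtype.ext ?_⟩
    have h4 : (fcSetoid Λ).r (P ⟨FCR.toIN ⟨q, hqr⟩, hQ⟩) ⟨q, hqr⟩ :=
      (heavy_rel (hheavy _) hq).2 (hP _)
    have h5 : Quotient.mk (fcSetoid Λ) (P ⟨FCR.toIN ⟨q, hqr⟩, hQ⟩) =
        Quotient.mk (fcSetoid Λ) ⟨q, hqr⟩ := Quotient.sound h4
    have h6 : Quotient.mk (fcSetoid Λ) x.out = Quotient.mk (fcSetoid Λ) ⟨q, hqr⟩ :=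
      Quotient.sound hrel
    show Quotient.mk (fcSetoid Λ) (P ⟨FCR.toIN ⟨q, hqr⟩, hQ⟩) = x
    rw [h5, ← h6, Quotient.out_eq]
  · intro i
    show inW w i.1 = (Quotient.mk (fcSetoid Λ) (P i)).out.1.wt w
    rw [fc_wt_out, ← hP i, CountR_wt]

end PGr

end

section
/-! # Module SinkUq: every graph has at most one sink -/

set_option linter.unusedSectionVars false

namespace PGr
open Equiv Finset
open scoped ENNReal Classical
universe u
open NetSumC
variable {Λ : Type u} [Nonempty Λ]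

/-- Two matches of light nodes: if the graphs of two polygons or rigid nodes which are sinks are isomorphic, then the isomorphism maps
the part of the first root network to one of the parts of the second one.  `VMatch.bnode`, `bnode_unique`. -/
theorem node_match {B B' : VNet Λ} (hB : B.IsGood) {e : B.D ≃ B'.D} {f : B.V ≃ B'.V}
    (h : VMatch B B' e f) {P : Finset B.D → Prop} {P' : Finset B'.D → Prop} (hP : BNode B P)
    (hP' : BNode B' P') (hl : ∀ A, P A → 2 * A.card < Fintype.card B.D)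
    (hl' : ∀ A, P' A → 2 * A.card < Fintype.card B'.D) {A : Finset B.D} (hA : P A) :
    P' (A.map e.toEmbedding) := by
  have hB' : B'.IsGood := VIso.good ⟨e, f, h⟩ hB
  have hc : Fintype.card B.D = Fintype.card B'.D := Fintype.card_congr e
  refine bnode_unique hB' (h.bnode hP) hP' (fun A' hA' => ?_) hl' ?_
  · have h1 := hl _ hA'
    rw [card_map] at h1
    omega
  · have h2 : (A.map e.toEmbedding).map e.symm.toEmbedding = A := by
      ext d
      rw [mem_map_equiv, mem_map_equiv, Equiv.symm_symm, Equiv.symm_apply_apply]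
    rw [h2]
    exact hA

theorem SinkUq_po_light {p : PO Λ} (hp : PSink p) (A : Finset p.full.D)
    (hA : ∃ c, A = p.part (some c)) : 2 * A.card < Fintype.card p.full.D := by
  obtain ⟨c, rfl⟩ := hA
  rw [p.full_card]
  cases c
  · rw [p.part_card.2]
    exact hp.2
  · rw [p.part_card.1]
    exact hp.1

theorem SinkUq_fc_light {p : FCR Λ} (hp : RSink p) (A : Finset p.full.D)
    (hA : ∃ t, (core p.1.1).s.SameCycle (Sum.inr true) t ∧ A = p.part t) :
    2 * A.card < Fintype.card p.full.D := by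
  obtain ⟨t, ht, rfl⟩ := hA
  rw [p.full_card, p.part_card]
  exact hp t ht

/-- the incidences of matching graphs -/
theorem SinkUq_toIN {B B' : VNet Λ} {i j : IN Λ} {A : Finset B.D} {A' : Finset B'.D}
    {e1 : B.D ≃ (vnet i).D} {f1 : B.V ≃ (vnet i).V} (h1 : VMatch B (vnet i) e1 f1)
    (k1 : ∀ d, d ∈ A ↔ e1 d ∈ inN i) {e2 : B'.D ≃ (vnet j).D} {f2 : B'.V ≃ (vnet j).V}
    (h2 : VMatch B' (vnet j) e2 f2) (k2 : ∀ d, d ∈ A' ↔ e2 d ∈ inN j) {e : B.D ≃ B'.D}
    {f : B.V ≃ B'.V} (h : VMatch B B' e f) (k : ∀ d, d ∈ A ↔ e d ∈ A') : i = j := by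
  refine inN_unique ((h1.symm.trans h).trans h2) (fun d => ?_)
  obtain ⟨d, rfl⟩ := e1.surjective d
  rw [← k1, k, k2]
  simp

theorem SinkUq_po_eq {p q : PO Λ} (h : p.toIN = q.toIN) : p = q := by
  have h1 : p.1.1 = q.1.1 := congrArg (fun i : IN Λ => i.1) h
  have h2 := congrArg (fun i : IN Λ => i.2.1.1) h
  have h3 : p.1.2 = q.1.2 := congrArg (fun i : IN Λ => i.2.2) h
  have h4 : p.2.2.2.ser p.2.2.1 p.2.1.1.fl = q.2.2.2.ser q.2.2.1 q.2.1.1.fl := h2
  obtain ⟨h5, h6, h7⟩ := NC.ser_inj' (fun hc => p.2.1.2 ((NC.fl_Ser _).1 hc))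
    (fun hc => q.2.1.2 ((NC.fl_Ser _).1 hc)) h4
  have h8 := NC.fl_inj h7
  rcases p with ⟨⟨l, c⟩, ⟨N, hN⟩, ⟨l', c'⟩⟩
  rcases q with ⟨⟨k, d⟩, ⟨M, hM⟩, ⟨k', d'⟩⟩
  have e1 : l = k := h1
  have e2 : c = d := h3
  have e3 : c' = d' := h5
  have e4 : l' = k' := h6
  have e5 : N = M := h8
  subst e1 e2 e3 e4 e5
  rfl

/-- a polygon with the first network at a given part -/
theorem SinkUq_po_choose (q : PO Λ) (c : Bool) : ∃ (q' : PO Λ) (e : q.full.D ≃ q'.full.D)
    (f : q.full.V ≃ q'.full.V), VMatch q.full q'.full e f ∧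
      (∀ d, d ∈ q.part (some c) ↔ e d ∈ q'.part (some true)) ∧ (q' = q ∨ q' = q.flip) := by
  cases c
  · obtain ⟨e, f, h1, h2⟩ := q.full_flip
    exact ⟨q.flip, e, f, h1, h2 false, Or.inr rfl⟩
  · exact ⟨q, _, _, VMatch.refl _, fun _ => Iff.rfl, Or.inl rfl⟩

theorem SinkUq_map {B B' : VNet Λ} {e : B.D ≃ B'.D} {A : Finset B.D} {A' : Finset B'.D}
    (h : A.map e.toEmbedding = A') (d : B.D) : d ∈ A ↔ e d ∈ A' := by
  rw [← h, mem_map_equiv, Equiv.symm_apply_apply]

/-- `PO.bnode`, `node_match`: the first network of `p` is matched with the first or the second network of `q`; in the second case replace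
`q` by `q.flip` (`PO.full_flip`).  Then `PO.full_toIN` and `inN_unique` give `p.toIN = q.toIN`, and `NC.ser_inj'` (the network `N.fl` is
not series), `NC.fl_inj` give `p = q`. -/
theorem po_unique {p q : PO Λ} (hp : PSink p) (hq : PSink q) (h : VIso p.full q.full) :
    q = p ∨ q = p.flip := by
  obtain ⟨e, f, h⟩ := h
  obtain ⟨c, hc⟩ := node_match p.full_good h p.bnode q.bnode (SinkUq_po_light hp)
    (SinkUq_po_light hq) (A := p.part (some true)) ⟨true, rfl⟩
  obtain ⟨q', e', f', h', k', hq'⟩ := SinkUq_po_choose q c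
  obtain ⟨e1, f1, m1, k1⟩ := p.full_toIN
  obtain ⟨e2, f2, m2, k2⟩ := q'.full_toIN
  have h1 := SinkUq_toIN m1 k1 m2 k2 (h.trans h') (fun d => (SinkUq_map hc d).trans (k' (e d)))
  have h2 := SinkUq_po_eq h1
  rcases hq' with h3 | h3
  · exact Or.inl (h3.symm.trans h2.symm)
  · right
    rw [h2, h3, PO.flip_flip]

/-- a rigid node with the root edge at a given part -/
theorem SinkUq_fc_choose (q : FCR Λ) (t : CT q.1.1)
    (ht : (core q.1.1).s.SameCycle (Sum.inr true) t) : ∃ (q' : FCR Λ) (e : q.full.D ≃ q'.full.D)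
    (f : q.full.V ≃ q'.full.V), VMatch q.full q'.full e f ∧
      (∀ d, d ∈ q.part t ↔ e d ∈ q'.part (Sum.inr true)) ∧ (fcSetoid Λ).r q q' := by
  obtain ⟨q0, ψ, h1, h2⟩ := FC.reroot q.1 t ht true
  have h3 : Rigid q0.1.rep.1 := h1.rigid q.2
  obtain ⟨e, f, h4, h5⟩ := FCR.full_match (p := q) (q := ⟨q0, h3⟩) h1
  refine ⟨⟨q0, h3⟩, e, f, h4, fun d => ?_, ⟨true, ψ, h1⟩⟩
  have h6 := h5 t d
  rw [h2] at h6
  exact h6

omit [Nonempty Λ] in
/-- the matching of full codes from a matching of the codes -/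
theorem SinkUq_DM {p q : FC Λ} {o : Bool} {ψ : CT (hat p.ix).1 ≃ CT (hat q.ix).1}
    (h : DM (hat p.ix) (hat q.ix) o ψ) (hr : ∀ c, ψ (Sum.inr c) = Sum.inr c)
    (hl : p.lend = q.lend) (hn : p.2.2.1 = q.2.2.1) : DM p.hat q.hat o ψ where
  a := h.a
  s := h.s
  f := by
    rintro (x | b)
    · have h1 := h.f (Sum.inl x)
      rcases he : ψ (Sum.inl x) with y | b
      · rw [he] at h1
        have h2 : some (eDec q.2.1 y) = some (eDec p.2.1 x) := h1
        have h4 : q.hat.2.1 (ψ (Sum.inl x)) = q.hat.2.1 (Sum.inl y) := congrArg q.hat.2.1 he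
        exact h4.trans (Option.some.inj h2)
      · exfalso
        rw [← hr b] at he
        have h2 : (Sum.inl x : CT (hat p.ix).1) = Sum.inr b := ψ.injective he
        cases h2
    · have h1 : q.hat.2.1 (ψ (Sum.inr b)) = q.hat.2.1 (Sum.inr b) :=
        congrArg q.hat.2.1 (hr b)
      have h2 : (if b then q.2.2.1 else q.2.2.1.fl) = if b then p.2.2.1 else p.2.2.1.fl := by
        rw [hn]
      exact h1.trans h2
  g := by
    intro t
    have hv : ∀ b, (core p.1).vinc t = (core p.1).vinc (Sum.inr b) ↔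
        (core q.1).vinc (ψ t) = (core q.1).vinc (Sum.inr b) := by
      intro b
      have h1 := h.sameCycle t (Sum.inr b)
      rw [hr b] at h1
      exact ⟨fun h2 => Quotient.sound (h1.1 (Quotient.exact h2)),
        fun h2 => Quotient.sound (h1.2 (Quotient.exact h2))⟩
    by_cases c1 : (core p.1).vinc t = (core p.1).vinc (Sum.inr true)
    · have e1 : p.hat.2.2 ((core p.1).vinc t) = none := dif_neg (not_not.2 c1)
      have e2 : q.hat.2.2 ((core q.1).vinc (ψ t)) = none := dif_neg (not_not.2 ((hv true).1 c1))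
      exact e2.trans e1.symm
    · have c1' : (core q.1).vinc (ψ t) ≠ (core q.1).vinc (Sum.inr true) :=
        fun h1 => c1 ((hv true).2 h1)
      have e1 : p.hat.2.2 ((core p.1).vinc t) = some (p.2.2.2 ⟨(core p.1).vinc t, c1⟩) :=
        dif_pos c1
      have e2 : q.hat.2.2 ((core q.1).vinc (ψ t)) =
        some (q.2.2.2 ⟨(core q.1).vinc (ψ t), c1'⟩) := dif_pos c1'
      refine Eq.trans e2 (Eq.trans (congrArg some ?_) e1.symm)
      by_cases c2 : (core p.1).vinc t = (core p.1).vinc (Sum.inr false)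
      · have c2' := (hv false).1 c2
        have e3 : p.2.2.2 ⟨(core p.1).vinc t, c1⟩ = p.lend :=
          congrArg p.2.2.2 (Subtype.ext c2)
        have e4 : q.2.2.2 ⟨(core q.1).vinc (ψ t), c1'⟩ = q.lend :=
          congrArg q.2.2.2 (Subtype.ext c2')
        rw [e3, hl]
        exact e4
      · have d1 : ∀ b, (core p.1).vinc t ≠ (core p.1).vinc (Sum.inr b) := by
          rintro (_ | _)
          · exact c2
          · exact c1
        have d2 : ∀ b, (core q.1).vinc (ψ t) ≠ (core q.1).vinc (Sum.inr b) := by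
          rintro (_ | _)
          · exact fun h1 => c2 ((hv false).2 h1)
          · exact c1'
        have e3 : (hat p.ix).2.2 ((core p.1).vinc t) =
          some (p.2.2.2 ⟨(core p.1).vinc t, d1 true⟩) := dif_pos d1
        have e4 : (hat q.ix).2.2 ((core q.1).vinc (ψ t)) =
          some (q.2.2.2 ⟨(core q.1).vinc (ψ t), d2 true⟩) := dif_pos d2
        exact Option.some.inj (e4.symm.trans ((h.g t).trans e3))

/-- `FCR.bnode`, `node_match`: the network of the root edge of `p` is matched with the network of a dart `t` at the root vertex of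
`q`; let `q'` be `q` rerooted at `t` (`FC.reroot`, `DM.rigid`, `FCR.full_match`).  Then `p.toIN = q'.toIN`, so the networks `cN p.ix`, `cN q'.ix`
are isomorphic (`cact_niso` with `b = false`: `q'.ix` is `p.ix` or its mirror image), the labels of the ends and the networks of the
root edges are equal: so there is a matching `DM p.hat q'.hat`. -/
theorem fc_unique {p q : FCR Λ} (hp : RSink p) (hq : RSink q) (h : VIso p.full q.full) :
    (fcSetoid Λ).r p q := by
  obtain ⟨e, f, h⟩ := h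
  obtain ⟨t, ht, hc⟩ := node_match p.full_good h p.bnode q.bnode (SinkUq_fc_light hp)
    (SinkUq_fc_light hq) (A := p.part (Sum.inr true)) ⟨_, Perm.SameCycle.refl _ _, rfl⟩
  obtain ⟨q', e', f', h', k', hq'⟩ := SinkUq_fc_choose q t ht
  obtain ⟨e1, f1, m1, k1⟩ := p.full_toIN
  obtain ⟨e2, f2, m2, k2⟩ := q'.full_toIN
  have h1 := SinkUq_toIN m1 k1 m2 k2 (h.trans h') (fun d => (SinkUq_map hc d).trans (k' (e d)))
  have g1 : p.1.lend = q'.1.lend := congrArg Prod.fst h1
  have g2 : XC.mk (cN p.1.ix) (cN_X p.1.ix p.2).1 = XC.mk (cN q'.1.ix) (cN_X q'.1.ix q'.2).1 :=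
    congrArg (fun i : IN Λ => i.2.1) h1
  have g3 : p.1.2.2.1 = q'.1.2.2.1 := congrArg (fun i : IN Λ => i.2.2) h1
  have g4 : NIso (cN p.1.ix) (cN q'.1.ix) := by
    have h2 := cls_iso (cN p.1.ix) (cN_X p.1.ix p.2).1.good
    have h3 := cls_iso (cN q'.1.ix) (cN_X q'.1.ix q'.2).1.good
    have h4 : cls (cN p.1.ix) (cN_X p.1.ix p.2).1.good =
      cls (cN q'.1.ix) (cN_X q'.1.ix q'.2).1.good := congrArg Subtype.val g2
    rw [← h4] at h3
    exact h2.symm.trans h3
  have g5 := (cact_niso (p := p.1.ix) (q := q'.1.ix) p.2 q'.2 false).1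
    (g4.trans (fl_false _).symm)
  have g6 : ∃ o, CAct o false p.1.ix q'.1.ix := by
    rcases g5 with g5 | g5
    · exact ⟨true, (cact_iff _ _ _ _).2 g5⟩
    · exact ⟨false, (cact_iff _ _ _ _).2 g5⟩
  obtain ⟨o, ψ, hψ, hψr⟩ := g6
  have g7 : (fcSetoid Λ).r p q' := ⟨o, ψ, SinkUq_DM hψ (fun c => by
    rw [hψr c, Bool.false_xor]) g1 g3⟩
  exact (fcSetoid Λ).iseqv.trans g7 ((fcSetoid Λ).iseqv.symm hq')

/-- as in `po_unique`, `fc_unique`: `p.toIN = q'.toIN`, but the network of the first one is series (`NC.ser_IsSer`), that of the second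
is not (`cN_X`) -/
theorem po_fc {p : PO Λ} {q : FCR Λ} (hp : PSink p) (hq : RSink q) : ¬ VIso p.full q.full := by
  rintro ⟨e, f, h⟩
  obtain ⟨t, ht, hc⟩ := node_match p.full_good h p.bnode q.bnode (SinkUq_po_light hp)
    (SinkUq_fc_light hq) (A := p.part (some true)) ⟨_, rfl⟩
  obtain ⟨q', e', f', h', k', hq'⟩ := SinkUq_fc_choose q t ht
  obtain ⟨e1, f1, m1, k1⟩ := p.full_toIN
  obtain ⟨e2, f2, m2, k2⟩ := q'.full_toIN
  have h1 := SinkUq_toIN m1 k1 m2 k2 (h.trans h') (fun d => (SinkUq_map hc d).trans (k' (e d)))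
  have h2 : p.2.2.2.ser p.2.2.1 p.2.1.1.fl = cls (cN q'.1.ix) (cN_X q'.1.ix q'.2).1.good :=
    congrArg (fun i : IN Λ => i.2.1.1) h1
  have h3 := (NC.ser_IsSer p.2.2.2 p.2.2.1 p.2.1.1.fl).1
  rw [h2] at h3
  exact (cN_X q'.1.ix q'.2).2 ((cls_iso _ _).ser h3)

/-- `csink_parts`, `PO.bnode`, `bnode_parts` -/
theorem c_po {p : Λ × NC Λ} {q : PO Λ} (hp : CSink p) (hq : PSink q) :
    ¬ VIso (p.2.rep.1.toV p.1) q.full := by
  rintro ⟨e, f, h⟩
  obtain ⟨P, hP, hl⟩ := csink_parts hp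
  refine bnode_parts q.full_good q.bnode (h.partsAt hP) (SinkUq_po_light hq) (fun A hA => ?_)
  have h1 := hl _ hA
  rw [card_map, Fintype.card_congr e] at h1
  exact h1

theorem c_fc {p : Λ × NC Λ} {q : FCR Λ} (hp : CSink p) (hq : RSink q) :
    ¬ VIso (p.2.rep.1.toV p.1) q.full := by
  rintro ⟨e, f, h⟩
  obtain ⟨P, hP, hl⟩ := csink_parts hp
  refine bnode_parts q.full_good q.bnode (h.partsAt hP) (SinkUq_fc_light hq) (fun A hA => ?_)
  have h1 := hl _ hA
  rw [card_map, Fintype.card_congr e] at h1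
  exact h1

/-- `csink_parts`, `parts_unique`, `toV_unique` -/
theorem c_unique {p q : Λ × NC Λ} (hp : CSink p) (hq : CSink q)
    (h : VIso (p.2.rep.1.toV p.1) (q.2.rep.1.toV q.1)) : p = q := by
  obtain ⟨e, f, h⟩ := h
  obtain ⟨P, hP, hl⟩ := csink_parts hp
  obtain ⟨P', hP', hl'⟩ := csink_parts hq
  have h1 := parts_unique hq.good (h.partsAt hP) hP' (fun A hA => by
    have h1 := hl _ hA
    rw [card_map, Fintype.card_congr e] at h1
    exact h1) hl'
  obtain ⟨h2, h3⟩ := toV_unique p.2.rep.2 q.2.rep.2 h h1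
  exact Prod.ext h3 (eq_of_rep h2)

theorem sinkV_inj : Function.Injective (sinkV : SinkT Λ → VC Λ) := by
  rintro (⟨p, hp⟩ | ⟨x, hx⟩ | ⟨x, hx⟩) (⟨q, hq⟩ | ⟨y, hy⟩ | ⟨y, hy⟩) h
  · have h1 := c_unique hp hq ((vcls_eq _ _).1 h)
    subst h1
    rfl
  · exact absurd ((vcls_eq _ _).1 h) (c_po hp hy)
  · exact absurd ((vcls_eq _ _).1 h) (c_fc hp hy)
  · exact absurd ((vcls_eq _ _).1 h.symm) (c_po hq hx)
  · have h1 := po_unique hx hy ((vcls_eq _ _).1 h)
    have h2 : x = y := by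
      rw [← Quotient.out_eq x, ← Quotient.out_eq y]
      exact Quotient.sound h1
    subst h2
    rfl
  · exact absurd ((vcls_eq _ _).1 h) (po_fc hx hy)
  · exact absurd ((vcls_eq _ _).1 h.symm) (c_fc hq hx)
  · exact absurd ((vcls_eq _ _).1 h.symm) (po_fc hy hx)
  · have h1 := fc_unique hx hy ((vcls_eq _ _).1 h)
    have h2 : x = y := by
      rw [← Quotient.out_eq x, ← Quotient.out_eq y]
      exact Quotient.sound h1
    subst h2
    rfl

end PGr

end

section
/-! # Module ExpVInj: the block at the root of a piece is unique -/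

set_option linter.unusedSectionVars false

namespace PGr
open Equiv Finset
open scoped ENNReal Classical

/-- the vertex of the expansion that comes from a vertex of the graph -/
noncomputable def ExpVInj_vtx (B : VNet RC) (x : B.V) : (expandV B).V :=
  if h : x = B.v0 then none else some ⟨⟨x, h⟩, (B.lab x).rep.1.v0⟩

theorem ExpVInj_vtx_root (B : VNet RC) : ExpVInj_vtx B B.v0 = none := dif_pos rfl

theorem ExpVInj_vtx_of (B : VNet RC) (v : {v : B.V // v ≠ B.v0}) :
    ExpVInj_vtx B v.1 = some ⟨v, (B.lab v.1).rep.1.v0⟩ := dif_neg v.2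

theorem ExpVInj_inc (B : VNet RC) (t : B.D) :
    (expandV B).inc (Sum.inl t) = ExpVInj_vtx B (B.inc t) := rfl

theorem ExpVInj_inc_inr (B : VNet RC) (v : {v : B.V // v ≠ B.v0}) (d : (B.lab v.1).rep.1.D) :
    (expandV B).inc (Sum.inr ⟨v, d⟩) = some ⟨v, (B.lab v.1).rep.1.inc d⟩ := rfl

theorem ExpVInj_vtx_some {B : VNet RC} {x : B.V} {v : {v : B.V // v ≠ B.v0}}
    {y : (B.lab v.1).rep.1.V} (h : ExpVInj_vtx B x = some ⟨v, y⟩) :
    x = v.1 ∧ y = (B.lab v.1).rep.1.v0 := by
  have hx : x ≠ B.v0 := by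
    intro hx
    rw [hx, ExpVInj_vtx_root] at h
    cases h
  rw [ExpVInj_vtx_of B ⟨x, hx⟩] at h
  have h1 := Option.some.inj h
  obtain ⟨h2, h3⟩ := Sigma.mk.inj_iff.1 h1
  subst h2
  exact ⟨rfl, (eq_of_heq h3).symm⟩

theorem ExpVInj_vtx_inj {B : VNet RC} {x y : B.V} (h : ExpVInj_vtx B x = ExpVInj_vtx B y) :
    x = y := by
  by_cases hy : y = B.v0
  · by_cases hx : x = B.v0
    · rw [hx, hy]
    · rw [hy, ExpVInj_vtx_root, ExpVInj_vtx_of B ⟨x, hx⟩] at h
      cases h
  · rw [ExpVInj_vtx_of B ⟨y, hy⟩] at h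
    exact (ExpVInj_vtx_some h).1

/-- `(e, f)` is an isomorphism of the expansions -/
structure ExpVInj_Iso (B B' : VNet RC) (e : (expandV B).D ≃ (expandV B').D)
    (f : (expandV B).V ≃ (expandV B').V) : Prop where
  a : ∀ d, e ((expandV B).a d) = (expandV B').a (e d)
  inc : ∀ d, f ((expandV B).inc d) = (expandV B').inc (e d)
  v0 : f none = none

theorem ExpVInj_Iso.symm {B B' : VNet RC} {e : (expandV B).D ≃ (expandV B').D}
    {f : (expandV B).V ≃ (expandV B').V} (h : ExpVInj_Iso B B' e f) :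
    ExpVInj_Iso B' B e.symm f.symm := by
  refine ⟨fun d => ?_, fun d => ?_, ?_⟩
  · rw [Equiv.symm_apply_eq, h.a, Equiv.apply_symm_apply]
  · rw [Equiv.symm_apply_eq, h.inc, Equiv.apply_symm_apply]
  · exact (Equiv.symm_apply_eq f).2 h.v0.symm

/-- the darts of `B` are mapped to darts of `B'` -/
theorem ExpVInj_inl {B B' : VNet RC} {e : (expandV B).D ≃ (expandV B').D}
    {f : (expandV B).V ≃ (expandV B').V} (h : ExpVInj_Iso B B' e f) (hB : B.IsGood) (d : B.D) :
    ∃ d' : B'.D, e (Sum.inl d) = Sum.inl d' := by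
  classical
  by_contra hcon
  push Not at hcon
  rcases hed : e (Sum.inl d) with d' | ⟨v', z'⟩
  · exact hcon d' hed
  obtain ⟨A, hA⟩ : ∃ A : Finset B.D, ∀ t, t ∈ A ↔
      ∃ z, e (Sum.inl t) = (Sum.inr ⟨v', z⟩ : (expandV B').D) :=
    ⟨univ.filter fun t => ∃ z, e (Sum.inl t) = (Sum.inr ⟨v', z⟩ : (expandV B').D), by simp⟩
  have hstep : ∀ t, t ∈ A → B.a t ∈ A := by
    intro t ht
    rw [hA] at ht ⊢
    obtain ⟨z, hz⟩ := ht
    refine ⟨(B'.lab v'.1).rep.1.a z, ?_⟩
    have h1 := h.a (Sum.inl t)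
    rw [hz] at h1
    exact h1
  have hcl : Cl B.a A := by
    intro t
    refine ⟨fun ht => ?_, hstep t⟩
    have h1 := hstep _ ht
    rwa [hB.inv] at h1
  have hne : A.Nonempty := ⟨d, (hA d).2 ⟨z', hed⟩⟩
  have hnu : A ≠ univ := by
    intro hu
    obtain ⟨r, hr⟩ := hB.surj B.v0
    have h1 : r ∈ A := by rw [hu]; exact mem_univ _
    obtain ⟨z, hz⟩ := (hA r).1 h1
    have h2 := h.inc (Sum.inl r)
    rw [hz, ExpVInj_inc, hr, ExpVInj_vtx_root, h.v0, ExpVInj_inc_inr] at h2
    cases h2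
  obtain ⟨x, y, hxy, hx, hy⟩ := hB.two A hcl hne hnu
  have key : ∀ w, Sh B.inc A w →
      f (ExpVInj_vtx B w) = some ⟨v', (B'.lab v'.1).rep.1.v0⟩ := by
    rintro w ⟨⟨t, ht, htw⟩, ⟨t', ht', htw'⟩⟩
    obtain ⟨z, hz⟩ := (hA t).1 ht
    have h1 := h.inc (Sum.inl t)
    rw [hz, ExpVInj_inc, htw, ExpVInj_inc_inr] at h1
    have h2 := h.inc (Sum.inl t')
    rw [ExpVInj_inc, htw', h1] at h2
    rcases h3 : e (Sum.inl t') with d' | ⟨v'', z''⟩
    · rw [h3, ExpVInj_inc] at h2
      rw [h1, (ExpVInj_vtx_some h2.symm).2]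
    · exfalso
      rw [h3, ExpVInj_inc_inr] at h2
      obtain ⟨h4, -⟩ := Sigma.mk.inj_iff.1 (Option.some.inj h2)
      subst h4
      exact ht' ((hA t').2 ⟨z'', h3⟩)
  exact hxy (ExpVInj_vtx_inj (f.injective ((key x hx).trans (key y hy).symm)))

/-- the labels are mapped to the labels -/
theorem ExpVInj_lab {B B' : VNet RC} {e : (expandV B).D ≃ (expandV B').D}
    {f : (expandV B).V ≃ (expandV B').V} (h : ExpVInj_Iso B B' e f) (hB' : B'.IsGood)
    {v : {v : B.V // v ≠ B.v0}} {w : {v : B'.V // v ≠ B'.v0}}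
    (hvw : f (ExpVInj_vtx B v.1) = ExpVInj_vtx B' w.1) :
    (∀ z : (B.lab v.1).rep.1.V, ∃ z', f (some ⟨v, z⟩) = (some ⟨w, z'⟩ : (expandV B').V)) ∧
      ∀ d : (B.lab v.1).rep.1.D, ∃ d', e (Sum.inr ⟨v, d⟩) = (Sum.inr ⟨w, d'⟩ : (expandV B').D) := by
  classical
  have hinr : ∀ (d : (B.lab v.1).rep.1.D), (∃ z', f (some ⟨v, (B.lab v.1).rep.1.inc d⟩) =
      (some ⟨w, z'⟩ : (expandV B').V)) →
      ∃ d', e (Sum.inr ⟨v, d⟩) = (Sum.inr ⟨w, d'⟩ : (expandV B').D) := by
    rintro d ⟨z', hz'⟩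
    rcases h1 : e (Sum.inr ⟨v, d⟩) with d' | ⟨w', d'⟩
    · exfalso
      obtain ⟨d0, h2⟩ := ExpVInj_inl h.symm hB' d'
      rw [← h1] at h2
      have h3 := (Equiv.symm_apply_apply e _).symm.trans h2
      cases h3
    · have h2 := h.inc (Sum.inr ⟨v, d⟩)
      rw [h1, ExpVInj_inc_inr, ExpVInj_inc_inr, hz'] at h2
      obtain ⟨h3, -⟩ := Sigma.mk.inj_iff.1 (Option.some.inj h2)
      subst h3
      exact ⟨d', rfl⟩
  have hV : ∀ z : (B.lab v.1).rep.1.V, ∃ z', f (some ⟨v, z⟩) =
      (some ⟨w, z'⟩ : (expandV B').V) := by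
    by_contra hcon
    push Not at hcon
    obtain ⟨z0, hz0⟩ := hcon
    obtain ⟨X, hX⟩ : ∃ X : Finset (B.lab v.1).rep.1.V, ∀ z, z ∈ X ↔
        ∃ z', f (some ⟨v, z⟩) = (some ⟨w, z'⟩ : (expandV B').V) :=
      ⟨univ.filter fun z => ∃ z', f (some ⟨v, z⟩) = (some ⟨w, z'⟩ : (expandV B').V), by simp⟩
    obtain ⟨d, hd1, hd2⟩ := (B.lab v.1).rep.2.conn X ((hX _).2 ⟨(B'.lab w.1).rep.1.v0, by
        rw [← ExpVInj_vtx_of, ← ExpVInj_vtx_of]
        exact hvw⟩) (by
      intro hu
      have h1 : z0 ∈ X := by rw [hu]; exact mem_univ _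
      obtain ⟨z', hz'⟩ := (hX z0).1 h1
      exact hz0 z' hz')
    apply hd2
    obtain ⟨d', hd'⟩ := hinr d ((hX _).1 hd1)
    refine (hX _).2 ⟨(B'.lab w.1).rep.1.inc ((B'.lab w.1).rep.1.a d'), ?_⟩
    have h1 := h.inc (Sum.inr ⟨v, (B.lab v.1).rep.1.a d⟩)
    have h2 := h.a (Sum.inr ⟨v, d⟩)
    rw [hd'] at h2
    have h3 : e (Sum.inr ⟨v, (B.lab v.1).rep.1.a d⟩) =
      (Sum.inr ⟨w, (B'.lab w.1).rep.1.a d'⟩ : (expandV B').D) := h2
    rw [h3, ExpVInj_inc_inr, ExpVInj_inc_inr] at h1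
    exact h1
  exact ⟨hV, fun d => hinr d (hV _)⟩

theorem ExpVInj_riso {B B' : VNet RC} {e : (expandV B).D ≃ (expandV B').D}
    {f : (expandV B).V ≃ (expandV B').V} (h : ExpVInj_Iso B B' e f) (hB : B.IsGood)
    (hB' : B'.IsGood) {v : {v : B.V // v ≠ B.v0}} {w : {v : B'.V // v ≠ B'.v0}}
    (hvw : f (ExpVInj_vtx B v.1) = ExpVInj_vtx B' w.1) :
    RIso (B.lab v.1).rep.1 (B'.lab w.1).rep.1 := by
  obtain ⟨h1, h2⟩ := ExpVInj_lab h hB' hvw
  have hwv : f.symm (ExpVInj_vtx B' w.1) = ExpVInj_vtx B v.1 := by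
    rw [← hvw, Equiv.symm_apply_apply]
  obtain ⟨h3, h4⟩ := ExpVInj_lab h.symm hB hwv
  choose fv hfv using h1
  choose ev hev using h2
  have hfb : Function.Bijective fv := by
    constructor
    · intro z z' hz
      have h5 : f (some ⟨v, z⟩) = f (some ⟨v, z'⟩) := by rw [hfv, hfv, hz]
      obtain ⟨-, h6⟩ := Sigma.mk.inj_iff.1 (Option.some.inj (f.injective h5))
      exact eq_of_heq h6
    · intro z'
      obtain ⟨z, hz⟩ := h3 z'
      refine ⟨z, ?_⟩
      have h5 := ((Equiv.symm_apply_eq f).1 hz).trans (hfv z)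
      obtain ⟨-, h6⟩ := Sigma.mk.inj_iff.1 (Option.some.inj h5)
      exact (eq_of_heq h6).symm
  have heb : Function.Bijective ev := by
    constructor
    · intro z z' hz
      have h5 : e (Sum.inr ⟨v, z⟩) = e (Sum.inr ⟨v, z'⟩) := by rw [hev, hev, hz]
      obtain ⟨-, h6⟩ := Sigma.mk.inj_iff.1 (Sum.inr.inj (e.injective h5))
      exact eq_of_heq h6
    · intro z'
      obtain ⟨z, hz⟩ := h4 z'
      refine ⟨z, ?_⟩
      have h5 := ((Equiv.symm_apply_eq e).1 hz).trans (hev z)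
      obtain ⟨-, h6⟩ := Sigma.mk.inj_iff.1 (Sum.inr.inj h5)
      exact (eq_of_heq h6).symm
  refine ⟨Equiv.ofBijective ev heb, Equiv.ofBijective fv hfb, fun d => ?_, fun d => ?_, ?_⟩
  · show ev _ = (B'.lab w.1).rep.1.a (ev d)
    have h5 := h.a (Sum.inr ⟨v, d⟩)
    rw [hev] at h5
    have h6 : e (Sum.inr ⟨v, (B.lab v.1).rep.1.a d⟩) =
      (Sum.inr ⟨w, (B'.lab w.1).rep.1.a (ev d)⟩ : (expandV B').D) := h5
    rw [hev] at h6
    obtain ⟨-, h7⟩ := Sigma.mk.inj_iff.1 (Sum.inr.inj h6)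
    exact eq_of_heq h7
  · show fv _ = (B'.lab w.1).rep.1.inc (ev d)
    have h5 := h.inc (Sum.inr ⟨v, d⟩)
    rw [hev, ExpVInj_inc_inr, ExpVInj_inc_inr, hfv] at h5
    obtain ⟨-, h7⟩ := Sigma.mk.inj_iff.1 (Option.some.inj h5)
    exact eq_of_heq h7
  · show fv _ = _
    have h5 := hfv (B.lab v.1).rep.1.v0
    rw [← ExpVInj_vtx_of, hvw] at h5
    exact (ExpVInj_vtx_some h5).2

/-- Proof.  Let `(e, f)` be the isomorphism.  (1) `e` maps the darts of `B` to darts of `B'`: the darts at the root do so, because the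
darts at the root of `expandV B'` are darts of `B'`.  For `v'` let `A` be the set of the darts `d` of `B` such that `e d` is a dart of the
label of `v'`; `A` is closed and not everything; if it is nonempty, it shares two vertices `x ≠ y` with the other darts of `B`
(`two`), and their images are shared by the darts of the label of `v'` and the other darts, so both images are the root of the
label at `v'`, contradiction.  By symmetry `e` restricts to a bijection of the darts of `B` and of `B'`, and (`surj`) `f` to a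
bijection of the vertices of `B` and of `B'`.  (2) For `v ≠ v0` the vertices of the label of `v` are mapped to those of the label of
`f v`: let `X` be the set of the vertices `z` with this property; it contains the root, and if it is not everything, `conn` gives a dart
`d` with `inc d ∈ X`, `inc (a d) ∉ X`, but `e d` is not a dart of `B'`, so it is in the label of `f v`, and so is its reverse.  So the
labels are isomorphic rooted graphs, hence equal classes. -/
theorem expandV_inj {B B' : VNet RC} (hB : B.IsGood) (hB' : B'.IsGood)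
    (h : RIso (expandV B) (expandV B')) : VIso B B' := by
  obtain ⟨e, f, h1, h2, h3⟩ := h
  have hi : ExpVInj_Iso B B' e f := ⟨h1, h2, h3⟩
  choose e0 he0 using ExpVInj_inl hi hB
  choose e1 he1 using ExpVInj_inl hi.symm hB'
  have h01 : ∀ d, e1 (e0 d) = d := by
    intro d
    have h4 := he1 (e0 d)
    rw [← he0] at h4
    exact (Sum.inl.inj ((Equiv.symm_apply_apply e _).symm.trans h4)).symm
  have h10 : ∀ d, e0 (e1 d) = d := by
    intro d
    have h4 := he0 (e1 d)
    rw [← he1] at h4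
    exact (Sum.inl.inj ((Equiv.apply_symm_apply e _).symm.trans h4)).symm
  have hf : ∀ x : B.V, ∃ x' : B'.V, f (ExpVInj_vtx B x) = ExpVInj_vtx B' x' := by
    intro x
    obtain ⟨t, rfl⟩ := hB.surj x
    refine ⟨B'.inc (e0 t), ?_⟩
    rw [← ExpVInj_inc, ← ExpVInj_inc]
    exact (hi.inc _).trans (congrArg _ (he0 t))
  have hf' : ∀ x : B'.V, ∃ x' : B.V, f.symm (ExpVInj_vtx B' x) = ExpVInj_vtx B x' := by
    intro x
    obtain ⟨t, rfl⟩ := hB'.surj x
    refine ⟨B.inc (e1 t), ?_⟩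
    rw [← ExpVInj_inc, ← ExpVInj_inc]
    exact (hi.symm.inc _).trans (congrArg _ (he1 t))
  choose f0 hf0 using hf
  choose f1 hf1 using hf'
  have g01 : ∀ x, f1 (f0 x) = x := by
    intro x
    have h4 := hf1 (f0 x)
    rw [← hf0, Equiv.symm_apply_apply] at h4
    exact (ExpVInj_vtx_inj h4).symm
  have g10 : ∀ x, f0 (f1 x) = x := by
    intro x
    have h4 := hf0 (f1 x)
    rw [← hf1, Equiv.apply_symm_apply] at h4
    exact (ExpVInj_vtx_inj h4).symm
  have hr : f0 B.v0 = B'.v0 := by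
    apply ExpVInj_vtx_inj
    rw [← hf0, ExpVInj_vtx_root, ExpVInj_vtx_root]
    exact hi.v0
  refine ⟨⟨e0, e1, h01, h10⟩, ⟨f0, f1, g01, g10⟩, ?_, ?_, hr, ?_⟩
  · intro d
    show e0 (B.a d) = B'.a (e0 d)
    have h4 := hi.a (Sum.inl d)
    rw [he0] at h4
    have h5 : e (Sum.inl (B.a d)) = (Sum.inl (B'.a (e0 d)) : (expandV B').D) := h4
    rw [he0] at h5
    exact Sum.inl.inj h5
  · intro d
    show f0 (B.inc d) = B'.inc (e0 d)
    apply ExpVInj_vtx_inj
    rw [← hf0, ← ExpVInj_inc, ← ExpVInj_inc]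
    exact (hi.inc _).trans (congrArg _ (he0 d))
  · intro x hx
    show B'.lab (f0 x) = B.lab x
    have hx' : f0 x ≠ B'.v0 := by
      intro h4
      apply hx
      rw [← g01 x, h4, ← hr, g01]
    have h5 := ExpVInj_riso hi hB hB' (v := ⟨x, hx⟩) (w := ⟨f0 x, hx'⟩) (hf0 x)
    have h6 : Quotient.mk rSetoid (B.lab x).rep = Quotient.mk rSetoid (B'.lab (f0 x)).rep :=
      Quotient.sound h5
    rw [← Quotient.out_eq (B'.lab (f0 x)), ← Quotient.out_eq (B.lab x)]
    exact h6.symm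

end PGr

end

section
/-! # Module KEq: rooted graphs and pieces -/

set_option linter.unusedSectionVars false

namespace PGr
open Equiv Finset
open scoped ENNReal Classical

/-- the generating function of the pieces; the root vertex is not counted -/
noncomputable def pP (x : ℝ≥0∞) : ℝ≥0∞ :=
  ∑' c : RC, if Piece c.rep.1 then x ^ (c.rep.1.size - 1) else 0

theorem KEq_exists_fam {α : Type*} (m : Multiset α) :
    ∃ (n : ℕ) (g : Fin n → α), m = (univ : Finset (Fin n)).val.map g := by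
  obtain ⟨l, rfl⟩ := Quot.exists_rep m
  refine ⟨l.length, l.get, ?_⟩
  show (l : Multiset α) = _
  rw [Fin.univ_def]
  show (l : Multiset α) = ((List.finRange l.length).map l.get : List α)
  rw [List.map_get_finRange]

/-- classes of rooted graphs and multisets of classes of pieces -/
theorem KEq_bij : ∃ Φ : RC → Multiset {c : RC // Piece c.rep.1}, Function.Bijective Φ ∧
    ∀ (x : ℝ≥0∞) (c : RC), x ^ c.rep.1.size =
      x * ((Φ c).map fun c : {c : RC // Piece c.rep.1} => x ^ (c.1.rep.1.size - 1)).prod := by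
  choose J fJ dJ X hX hiso using fun c : RC => wedge_dec c.rep.2
  have hP : ∀ c j, Piece (KSum.cls (X c j) (hX c j).1).rep.1 := fun c j =>
    (KSum.cls_iso (X c j) (hX c j).1).symm.piece (hX c j).2.1
  let Y : ∀ c, J c → {c : RC // Piece c.rep.1} := fun c j => ⟨KSum.cls (X c j) (hX c j).1, hP c j⟩
  refine ⟨fun c => Multiset.map (Y c) (@univ (J c) (fJ c)).val, ⟨?_, ?_⟩, ?_⟩
  · intro c c' h
    obtain ⟨π, hπ⟩ := exists_equiv_of_map_eq _ _ h
    have h1 := @wedge_iso (J c) (J c') (fJ c) (dJ c) (fJ c') (dJ c') (X c) (X c') π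
      (fun j => KSum.iso_of_cls (congrArg Subtype.val (hπ j)).symm)
    exact KSum.eq_of_rep ((hiso c).trans (h1.trans (hiso c').symm))
  · intro m
    obtain ⟨n, g, hg⟩ := KEq_exists_fam m
    have hG : (wedge fun j : Fin n => (g j).1.rep.1).IsGood := wedge_good _ fun j => (g j).1.rep.2
    refine ⟨KSum.cls _ hG, ?_⟩
    have h1 := (hiso (KSum.cls _ hG)).symm.trans (KSum.cls_iso _ hG)
    obtain ⟨π, hπ⟩ := @wedge_inj (J (KSum.cls _ hG)) (Fin n) (fJ _) (dJ _) _ _
      (X (KSum.cls _ hG)) (fun j => (g j).1.rep.1) (fun j => ⟨(hX _ j).1, (hX _ j).2.1⟩)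
      (fun j => ⟨(g j).1.rep.2, (g j).2⟩) h1
    rw [hg]
    have h2 : ∀ j, Y (KSum.cls _ hG) j = g (π j) := by
      intro j
      refine Subtype.ext (KSum.eq_of_rep ?_)
      exact (KSum.cls_iso _ _).trans (hπ j)
    have h3 : Multiset.map (Y (KSum.cls _ hG)) (@univ _ (fJ (KSum.cls _ hG))).val =
        Multiset.map g (Multiset.map π (@univ _ (fJ (KSum.cls _ hG))).val) := by
      rw [Multiset.map_map]
      exact Multiset.map_congr rfl fun j _ => h2 j
    show Multiset.map (Y (KSum.cls _ hG)) (@univ _ (fJ (KSum.cls _ hG))).val = _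
    rw [h3]
    congr 1
    let _ := fJ (KSum.cls _ hG)
    have h4 := congrArg Finset.val (Finset.map_univ_equiv π)
    rw [← h4]
    rfl
  · intro x c
    rw [Multiset.map_map]
    have h1 : ∀ j, (((fun c : {c : RC // Piece c.rep.1} => x ^ (c.1.rep.1.size - 1)) ∘ Y c) j) =
        x ^ ((X c j).size - 1) := by
      intro j
      show x ^ ((KSum.cls (X c j) (hX c j).1).rep.1.size - 1) = _
      rw [(KSum.cls_iso (X c j) (hX c j).1).size_eq]
    have h2 : (Multiset.map ((fun c : {c : RC // Piece c.rep.1} => x ^ (c.1.rep.1.size - 1)) ∘ Y c)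
        (@univ (J c) (fJ c)).val).prod = ∏ j : J c, x ^ ((X c j).size - 1) := by
      show ∏ j : J c, _ = _
      exact Finset.prod_congr rfl fun j _ => h1 j
    rw [h2, Finset.prod_pow_eq_pow_sum]
    have h3 : c.rep.1.size = 1 + ∑ j : J c, ((X c j).size - 1) := by
      rw [(hiso c).size_eq]
      exact wedge_size (X c)
    rw [h3, pow_add, pow_one]

/-- `wedge_dec`, `wedge_iso` (injectivity), `wedge_good` (surjectivity), `wedge_inj` (well defined), `wedge_size`: classes of rooted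
graphs correspond to multisets of classes of pieces -/
theorem K_eq (x : ℝ≥0∞) : pK (wx x) 1 =
    x * MS (fun c : {c : RC // Piece c.rep.1} => x ^ (c.1.rep.1.size - 1)) := by
  obtain ⟨Φ, hΦ, hw⟩ := KEq_bij
  unfold MS pK wx
  rw [← ENNReal.tsum_mul_left, ← (Equiv.ofBijective Φ hΦ).tsum_eq]
  refine tsum_congr fun c => ?_
  rw [pow_one]
  exact hw x c

theorem KEq_pP (x : ℝ≥0∞) : pP x =
    ∑' c : {c : RC // Piece c.rep.1}, x ^ (c.1.rep.1.size - 1) := by
  unfold pP
  have h1 := tsum_subtype {c : RC | Piece c.rep.1} fun c : RC => x ^ (c.rep.1.size - 1)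
  refine Eq.trans ?_ h1.symm
  refine tsum_congr fun c => ?_
  by_cases h : Piece c.rep.1
  · rw [if_pos h, Set.indicator_of_mem (by exact h)]
  · rw [if_neg h, Set.indicator_of_notMem (by exact h)]

theorem KEq_le_MS {ι : Type*} (f : ι → ℝ≥0∞) : ∑' i, f i ≤ MS f := by
  unfold MS
  have h1 : ∀ i, f i = (Multiset.map f {i}).prod := fun i => by simp
  calc ∑' i, f i = ∑' i, (Multiset.map f {i}).prod := tsum_congr h1
    _ ≤ ∑' m : Multiset ι, (Multiset.map f m).prod :=
      ENNReal.tsum_comp_le_tsum_of_injective (f := fun i : ι => ({i} : Multiset ι))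
        (fun i j h => Multiset.singleton_inj.1 h) (fun m => (Multiset.map f m).prod)

theorem KEq_lt_one {ι : Type*} (f : ι → ℝ≥0∞) (h : MS f ≠ ⊤) (i : ι) : f i < 1 := by
  by_contra hcon
  apply h
  rw [not_lt] at hcon
  have h1 : ∑' n : ℕ, f i ^ n ≤ MS f := by
    unfold MS
    have h2 : ∀ n : ℕ, f i ^ n = (Multiset.map f (Multiset.replicate n i)).prod := fun n => by
      simp
    calc ∑' n : ℕ, f i ^ n = ∑' n : ℕ, (Multiset.map f (Multiset.replicate n i)).prod :=
          tsum_congr h2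
      _ ≤ ∑' m : Multiset ι, (Multiset.map f m).prod :=
        ENNReal.tsum_comp_le_tsum_of_injective (f := fun n : ℕ => Multiset.replicate n i)
          (fun m n h => by simpa using congrArg Multiset.card h)
          (fun m => (Multiset.map f m).prod)
  rw [ENNReal.tsum_geometric, tsub_eq_zero_of_le hcon, ENNReal.inv_zero, top_le_iff] at h1
  exact h1

/-- `MS_exp`; `pP (x ^ k)` is the sum of the `k`-th powers of the weights of the pieces.  The weights are less than `1` and have a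
finite sum because `MS` is finite. -/
theorem K_exp {x : ℝ≥0∞} (h0 : x ≠ 0) (h : pK (wx x) 1 ≠ ⊤) :
    (∑' k : ℕ, pP (x ^ (k + 1)) / ((k + 1 : ℕ) : ℝ≥0∞)) ≠ ⊤ ∧
    pK (wx x) 1 = x * ENNReal.ofReal (Real.exp
      (∑' k : ℕ, pP (x ^ (k + 1)) / ((k + 1 : ℕ) : ℝ≥0∞)).toReal) := by
  have hMS : MS (fun c : {c : RC // Piece c.rep.1} => x ^ (c.1.rep.1.size - 1)) ≠ ⊤ := by
    intro h1
    apply h
    rw [K_eq, h1, ENNReal.mul_top h0]
  have h1 := MS_exp (fun c : {c : RC // Piece c.rep.1} => x ^ (c.1.rep.1.size - 1))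
    (KEq_lt_one _ hMS) (ne_top_of_le_ne_top hMS (KEq_le_MS _))
  have h2 : ∀ k : ℕ, pP (x ^ (k + 1)) =
      ∑' c : {c : RC // Piece c.rep.1}, (x ^ (c.1.rep.1.size - 1)) ^ (k + 1) := by
    intro k
    rw [KEq_pP]
    refine tsum_congr fun c => ?_
    rw [← pow_mul, ← pow_mul, mul_comm]
  have h3 : (∑' k : ℕ, pP (x ^ (k + 1)) / ((k + 1 : ℕ) : ℝ≥0∞)) = ∑' k : ℕ,
      (∑' c : {c : RC // Piece c.rep.1}, (x ^ (c.1.rep.1.size - 1)) ^ (k + 1)) /
        ((k + 1 : ℕ) : ℝ≥0∞) := tsum_congr fun k => by rw [h2]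
  rw [h3, K_eq]
  exact ⟨h1.1, by rw [← h1.2]⟩

end PGr

end

section
/-! # Module PieceSum: the generating function of the pieces -/

set_option linter.unusedSectionVars false

namespace PGr
open Equiv Finset
open scoped ENNReal Classical

/-- classes of pieces correspond to classes of good graphs with a root vertex: `exists_expandV`, `expandV_inj`, `expandV_iso`,
`expandV_good`, `expandV_weight` -/
theorem pP_sum (x : ℝ≥0∞) : pP x = ∑' c : VC RC, wtV (wx x) c.rep.1 := by
  have hP : ∀ c : VC RC, Piece (KSum.cls (expandV c.rep.1) (expandV_good c.rep.2).1).rep.1 :=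
    fun c => (KSum.cls_iso _ _).symm.piece (expandV_good c.rep.2).2
  let Φ : VC RC → {c : RC // Piece c.rep.1} := fun c =>
    ⟨KSum.cls (expandV c.rep.1) (expandV_good c.rep.2).1, hP c⟩
  have hΦ : Function.Bijective Φ := by
    constructor
    · intro c c' h
      have h1 := KSum.iso_of_cls (congrArg Subtype.val h)
      have h2 := expandV_inj c.rep.2 c'.rep.2 h1
      have h3 : Quotient.mk (vSetoid RC) c.rep = Quotient.mk (vSetoid RC) c'.rep :=
        Quotient.sound h2
      rwa [Quotient.out_eq, Quotient.out_eq] at h3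
    · intro c
      obtain ⟨B, hB, hi⟩ := exists_expandV c.1.rep.2 c.2
      refine ⟨vcls B hB, Subtype.ext (KSum.eq_of_rep ?_)⟩
      exact (KSum.cls_iso _ _).trans ((expandV_iso (vcls_iso B hB)).trans hi.symm)
  rw [KEq_pP, ← (Equiv.ofBijective Φ hΦ).tsum_eq]
  refine tsum_congr fun c => ?_
  rw [← expandV_weight]
  show x ^ ((KSum.cls (expandV c.rep.1) (expandV_good c.rep.2).1).rep.1.size - 1) = _
  rw [(KSum.cls_iso _ _).size_eq]

section
universe u
variable {Λ : Type u}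

/-- one edge; the other end has label `l` -/
def PieceSum_edge (l : Λ) : VNet Λ where
  D := Bool
  V := Bool
  a := Equiv.boolNot
  inc := id
  lab := fun _ => l
  v0 := true

theorem PieceSum_edge_good (l : Λ) : (PieceSum_edge l).IsGood where
  inv := fun b => Bool.not_not b
  fpf := fun b h => by
    have h1 : (!b) = b := h
    cases b <;> cases h1
  ne := ⟨true⟩
  surj := fun b => ⟨b, rfl⟩
  loop := fun b h => by
    have h1 : (!b) = b := h
    cases b <;> cases h1
  simp := fun _ _ h _ => h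
  two := by
    intro A hA hne hnu
    exfalso
    apply hnu
    obtain ⟨b, hb⟩ := hne
    have h1 : (!b : Bool) ∈ A := (hA b).2 hb
    rw [eq_univ_iff_forall]
    intro c
    have h2 : c = b ∨ c = !b := by
      have h3 : ∀ b c : Bool, c = b ∨ c = !b := by decide
      exact h3 b c
    rcases h2 with rfl | rfl
    · exact hb
    · exact h1
  planar := by
    refine ⟨1, ?_, ?_⟩
    · intro t t'
      rw [Perm.sameCycle_one]
      rfl
    · intro p q _
      refine ⟨fun _ => 0, fun _ => rfl, fun t => ?_⟩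
      show (0 : ZMod 2) + 0 = p t + p t
      rw [add_zero, CharTwo.add_self_eq_zero]

theorem PieceSum_edge_wV (w : Λ → ℝ≥0∞) (l : Λ) : wtV w (PieceSum_edge l) = w l := by
  unfold wtV
  have h1 : ∀ x : {x : (PieceSum_edge l).V // x ≠ (PieceSum_edge l).v0},
      w ((PieceSum_edge l).lab x.1) = w l := fun _ => rfl
  rw [Finset.prod_congr rfl fun x _ => h1 x, Finset.prod_const]
  have h2 : Fintype.card {x : (PieceSum_edge l).V // x ≠ (PieceSum_edge l).v0} = 1 := by
    rw [Fintype.card_eq_one_iff]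
    refine ⟨⟨(false : Bool), fun h => ?_⟩, ?_⟩
    · have h3 : (false : Bool) = true := h
      cases h3
    · rintro ⟨x, hx⟩
      apply Subtype.ext
      have h3 : (x : Bool) ≠ true := hx
      show (x : Bool) = false
      exact Bool.eq_false_iff.2 h3
  rw [Finset.card_univ, h2, pow_one]

theorem PieceSum_edge_inj {l l' : Λ} (h : VIso (PieceSum_edge l) (PieceSum_edge l')) : l = l' := by
  obtain ⟨e, f, h⟩ := h
  have h1 : (false : Bool) ≠ true := by decide
  exact (h.lab (false : Bool) h1).symm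

/-- a good graph with less than four darts is an edge -/
theorem PieceSum_edge_surj {B : VNet Λ} (hB : B.IsGood) (hc : Fintype.card B.D < 4) :
    ∃ l, VIso (PieceSum_edge l) B := by
  obtain ⟨r, hr⟩ := hB.surj B.v0
  have hall : ∀ d : B.D, d = r ∨ d = B.a r := by
    by_contra hcon
    push Not at hcon
    obtain ⟨d, hd1, hd2⟩ := hcon
    have h1 : B.a d ≠ r := fun h => hd2 (by rw [← h, hB.inv])
    have h2 : B.a d ≠ B.a r := fun h => hd1 (B.a.injective h)
    have h3 : ({r, B.a r, d, B.a d} : Finset B.D).card = 4 := by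
      have e1 : r ≠ B.a r := (hB.fpf r).symm
      have e2 : d ≠ B.a d := (hB.fpf d).symm
      rw [card_insert_of_notMem, card_insert_of_notMem, card_insert_of_notMem, card_singleton]
      · simpa using e2
      · simp only [mem_insert, mem_singleton, not_or]
        exact ⟨hd2.symm, h2.symm⟩
      · simp only [mem_insert, mem_singleton, not_or]
        exact ⟨e1, hd1.symm, h1.symm⟩
    have h4 := card_le_univ ({r, B.a r, d, B.a d} : Finset B.D)
    omega
  refine ⟨B.lab (B.inc (B.a r)), ?_⟩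
  have hinc : B.inc (B.a r) ≠ B.inc r := hB.loop r
  let e : Bool → B.D := fun b => if b then r else B.a r
  have he : Function.Bijective e := by
    constructor
    · intro b b' h
      have h' : (if b then r else B.a r) = if b' then r else B.a r := h
      cases b <;> cases b'
      · rfl
      · exact absurd h' (hB.fpf r)
      · exact absurd h'.symm (hB.fpf r)
      · rfl
    · intro d
      rcases hall d with rfl | h
      · exact ⟨true, rfl⟩
      · exact ⟨false, h.symm⟩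
  have hf : Function.Bijective fun b => B.inc (e b) := by
    constructor
    · intro b b' h
      have h' : B.inc (if b then r else B.a r) = B.inc (if b' then r else B.a r) := h
      cases b <;> cases b'
      · rfl
      · exact absurd h' hinc
      · exact absurd h'.symm hinc
      · rfl
    · intro v
      obtain ⟨d, rfl⟩ := hB.surj v
      obtain ⟨b, rfl⟩ := he.2 d
      exact ⟨b, rfl⟩
  refine ⟨Equiv.ofBijective e he, Equiv.ofBijective _ hf, ?_, fun _ => rfl, hr, ?_⟩
  · intro b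
    show e (!b) = B.a (e b)
    cases b
    · show r = B.a (B.a r)
      rw [hB.inv]
    · rfl
  · intro b hb
    have h1 : (b : Bool) = false := Bool.eq_false_iff.2 hb
    subst h1
    rfl

end

/-- the graphs with one edge: the other end has an arbitrary label -/
theorem VC_edge {Λ : Type*} (w : Λ → ℝ≥0∞) :
    ∑' c : VC Λ, (if Fintype.card c.rep.1.D < 4 then wtV w c.rep.1 else 0) = pK w 1 := by
  let Ψ : Λ → VC Λ := fun l => vcls (PieceSum_edge l) (PieceSum_edge_good l)
  have hΨ : Function.Injective Ψ := fun l l' h => PieceSum_edge_inj ((vcls_eq _ _).1 h)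
  have hi : ∀ l, VIso (Ψ l).rep.1 (PieceSum_edge l) := fun l => vcls_iso _ _
  have hs : Function.support (fun c : VC Λ => if Fintype.card c.rep.1.D < 4 then wtV w c.rep.1
      else 0) ⊆ Set.range Ψ := by
    intro c hc
    have h1 : Fintype.card c.rep.1.D < 4 := by
      by_contra h2
      exact hc (if_neg h2)
    obtain ⟨l, hl⟩ := PieceSum_edge_surj c.rep.2 h1
    refine ⟨l, ?_⟩
    have h3 : Quotient.mk (vSetoid Λ) ⟨PieceSum_edge l, PieceSum_edge_good l⟩ =
      Quotient.mk (vSetoid Λ) c.rep := Quotient.sound hl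
    rw [Quotient.out_eq] at h3
    exact h3
  rw [← hΨ.tsum_eq hs]
  unfold pK
  refine tsum_congr fun l => ?_
  have h1 : Fintype.card (Ψ l).rep.1.D < 4 := by
    rw [(hi l).card]
    show Fintype.card Bool < 4
    decide
  rw [if_pos h1, (hi l).wtV, PieceSum_edge_wV, pow_one]

theorem pP_eq (x : ℝ≥0∞) : pP x = pK (wx x) 1 + pV (wx x) := by
  rw [pP_sum, ← VC_edge, pV, ← ENNReal.tsum_add]
  refine tsum_congr fun c => ?_
  by_cases h : Fintype.card c.rep.1.D < 4
  · rw [if_pos h, if_neg (by omega), add_zero]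
  · rw [if_neg h, if_pos (by omega), zero_add]

end PGr

end

section
/-! # Module BO: orders at the origin -/

set_option linter.unusedSectionVars false

namespace PGr
open Filter Topology

/-- `f x = O(x ^ n)` for `x → 0`, `x > 0` -/
def BO (n : ℕ) (f : ℝ → ℝ) : Prop :=
  ∃ C ε : ℝ, 0 < ε ∧ ∀ x, 0 < x → x < ε → |f x| ≤ C * x ^ n

/-- one may take `C ≥ 0` and `ε ≤ 1` (and `ε ≤ δ`) -/
theorem BO.norm {n : ℕ} {f : ℝ → ℝ} (h : BO n f) {δ : ℝ} (hδ : 0 < δ) :
    ∃ C ε : ℝ, 0 ≤ C ∧ 0 < ε ∧ ε ≤ 1 ∧ ε ≤ δ ∧ ∀ x, 0 < x → x < ε → |f x| ≤ C * x ^ n := by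
  obtain ⟨C, ε, hε, h⟩ := h
  refine ⟨|C|, min ε (min 1 δ), abs_nonneg C, by positivity, ?_, ?_, fun x hx hx' => ?_⟩
  · exact le_trans (min_le_right _ _) (min_le_left _ _)
  · exact le_trans (min_le_right _ _) (min_le_right _ _)
  · refine (h x hx (lt_of_lt_of_le hx' (min_le_left _ _))).trans ?_
    exact mul_le_mul_of_nonneg_right (le_abs_self C) (pow_nonneg hx.le n)

theorem BO.mono {m n : ℕ} {f : ℝ → ℝ} (h : BO n f) (hmn : m ≤ n) : BO m f := by
  obtain ⟨C, ε, hC, hε, hε1, _, h⟩ := h.norm one_pos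
  refine ⟨C, ε, hε, fun x hx hx' => (h x hx hx').trans ?_⟩
  exact mul_le_mul_of_nonneg_left (pow_le_pow_of_le_one hx.le (hx'.le.trans hε1) hmn) hC

theorem BO.congr {n : ℕ} {f g : ℝ → ℝ} (h : BO n f) {ε : ℝ} (hε : 0 < ε)
    (hfg : ∀ x, 0 < x → x < ε → g x = f x) : BO n g := by
  obtain ⟨C, ε', hC, hε', hε1, hε2, h⟩ := h.norm hε
  refine ⟨C, ε', hε', fun x hx hx' => ?_⟩
  rw [hfg x hx (lt_of_lt_of_le hx' hε2)]
  exact h x hx hx'

theorem BO.of_le {n : ℕ} {f g : ℝ → ℝ} (h : BO n g) {C ε : ℝ} (hε : 0 < ε)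
    (hfg : ∀ x, 0 < x → x < ε → |f x| ≤ C * |g x|) : BO n f := by
  obtain ⟨D, ε', hD, hε', hε1, hε2, h⟩ := h.norm hε
  refine ⟨|C| * D, ε', hε', fun x hx hx' => ?_⟩
  have h1 := hfg x hx (lt_of_lt_of_le hx' hε2)
  have h2 := h x hx hx'
  calc |f x| ≤ C * |g x| := h1
    _ ≤ |C| * |g x| := mul_le_mul_of_nonneg_right (le_abs_self C) (abs_nonneg _)
    _ ≤ |C| * (D * x ^ n) := mul_le_mul_of_nonneg_left h2 (abs_nonneg C)
    _ = |C| * D * x ^ n := by ring

theorem BO.add {n : ℕ} {f g : ℝ → ℝ} (hf : BO n f) (hg : BO n g) : BO n fun x => f x + g x := by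
  obtain ⟨C, ε, hε, hf⟩ := hf
  obtain ⟨D, δ, hD, hδ, hδ1, hδ2, hg⟩ := hg.norm hε
  refine ⟨C + D, δ, hδ, fun x hx hx' => ?_⟩
  have h1 := hf x hx (lt_of_lt_of_le hx' hδ2)
  have h2 := hg x hx hx'
  calc |f x + g x| ≤ |f x| + |g x| := abs_add_le _ _
    _ ≤ C * x ^ n + D * x ^ n := add_le_add h1 h2
    _ = (C + D) * x ^ n := by ring

theorem BO.neg {n : ℕ} {f : ℝ → ℝ} (hf : BO n f) : BO n fun x => - f x := by
  obtain ⟨C, ε, hε, hf⟩ := hf
  exact ⟨C, ε, hε, fun x hx hx' => by rw [abs_neg]; exact hf x hx hx'⟩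

theorem BO.sub {n : ℕ} {f g : ℝ → ℝ} (hf : BO n f) (hg : BO n g) : BO n fun x => f x - g x := by
  have h := hf.add hg.neg
  exact h.congr one_pos (fun x _ _ => sub_eq_add_neg _ _)

theorem BO.abs {n : ℕ} {f : ℝ → ℝ} (hf : BO n f) : BO n fun x => |f x| := by
  obtain ⟨C, ε, hε, hf⟩ := hf
  exact ⟨C, ε, hε, fun x hx hx' => by rw [abs_abs]; exact hf x hx hx'⟩

theorem BO.mul {m n : ℕ} {f g : ℝ → ℝ} (hf : BO m f) (hg : BO n g) :
    BO (m + n) fun x => f x * g x := by
  obtain ⟨C, ε, hC, hε, _, _, hf⟩ := hf.norm one_pos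
  obtain ⟨D, δ, hD, hδ, hδ1, hδ2, hg⟩ := hg.norm hε
  refine ⟨C * D, δ, hδ, fun x hx hx' => ?_⟩
  have h1 := hf x hx (lt_of_lt_of_le hx' hδ2)
  have h2 := hg x hx hx'
  calc |f x * g x| = |f x| * |g x| := abs_mul _ _
    _ ≤ (C * x ^ m) * (D * x ^ n) :=
        mul_le_mul h1 h2 (abs_nonneg _) (mul_nonneg hC (pow_nonneg hx.le m))
    _ = C * D * x ^ (m + n) := by rw [pow_add]; ring

theorem BO.const (c : ℝ) : BO 0 fun _ => c :=
  ⟨|c|, 1, one_pos, fun x _ _ => by simp⟩

theorem BO.const_mul {n : ℕ} {f : ℝ → ℝ} (c : ℝ) (hf : BO n f) : BO n fun x => c * f x := by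
  have h := (BO.const c).mul hf
  rw [Nat.zero_add] at h
  exact h

theorem BO.id : BO 1 fun x => x :=
  ⟨1, 1, one_pos, fun x hx _ => by rw [abs_of_pos hx]; simp⟩

theorem BO.pow (k : ℕ) : BO k fun x => x ^ k :=
  ⟨1, 1, one_pos, fun x hx _ => by rw [abs_of_nonneg (pow_nonneg hx.le k), one_mul]⟩

/-- the argument `x ^ k` -/
theorem BO.comp_pow {n : ℕ} {f : ℝ → ℝ} (hf : BO n f) {k : ℕ} (hk : 1 ≤ k) :
    BO (k * n) fun x => f (x ^ k) := by
  obtain ⟨C, ε, hC, hε, hε1, _, hf⟩ := hf.norm one_pos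
  refine ⟨C, ε, hε, fun x hx hx' => ?_⟩
  have h1 : x ^ k ≤ x := by
    calc x ^ k ≤ x ^ 1 := pow_le_pow_of_le_one hx.le (hx'.le.trans hε1) hk
      _ = x := pow_one x
  have h2 := hf (x ^ k) (pow_pos hx k) (lt_of_le_of_lt h1 hx')
  rw [← pow_mul] at h2
  exact h2

theorem BO.small {f : ℝ → ℝ} (hf : BO 1 f) {δ : ℝ} (hδ : 0 < δ) :
    ∃ ε, 0 < ε ∧ ∀ x, 0 < x → x < ε → |f x| ≤ δ := by
  obtain ⟨C, ε, hC, hε, hε1, _, hf⟩ := hf.norm one_pos
  have hC1 : 0 < C + 1 := by linarith
  refine ⟨min ε (δ / (C + 1)), lt_min hε (div_pos hδ hC1), fun x hx hx' => ?_⟩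
  have h1 := hf x hx (lt_of_lt_of_le hx' (min_le_left _ _))
  have h2 : x < δ / (C + 1) := lt_of_lt_of_le hx' (min_le_right _ _)
  rw [pow_one] at h1
  rw [lt_div_iff₀ hC1] at h2
  nlinarith

end PGr

end

section
/-! # Module BOs: orders at the origin, exponentials and power series -/

set_option linter.unusedSectionVars false

namespace PGr
open Filter Topology

private theorem BOs_exp_sub (a b : ℝ) (ha : |a| ≤ 1) (hb : |b| ≤ 1) :
    |Real.exp a - Real.exp b| ≤ 3 * |a - b| := by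
  have key : ∀ u v : ℝ, |u| ≤ 1 → |v| ≤ 1 → Real.exp u - Real.exp v ≤ 3 * |u - v| := by
    intro u v hu hv
    have h1 : Real.exp u ≤ 3 := by
      have h2 : Real.exp u ≤ Real.exp 1 := Real.exp_le_exp.mpr (abs_le.mp hu).2
      have h3 := Real.exp_one_lt_d9
      linarith
    have h4 : Real.exp v = Real.exp u * Real.exp (v - u) := by
      rw [← Real.exp_add]; congr 1; ring
    have h5 : v - u + 1 ≤ Real.exp (v - u) := Real.add_one_le_exp _
    have h6 : 0 < Real.exp u := Real.exp_pos u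
    have h7 : u - v ≤ |u - v| := le_abs_self _
    have h8 : 0 ≤ |u - v| := abs_nonneg _
    calc Real.exp u - Real.exp v = Real.exp u * (1 - Real.exp (v - u)) := by rw [h4]; ring
      _ ≤ Real.exp u * (u - v) := mul_le_mul_of_nonneg_left (by linarith) h6.le
      _ ≤ Real.exp u * |u - v| := mul_le_mul_of_nonneg_left h7 h6.le
      _ ≤ 3 * |u - v| := mul_le_mul_of_nonneg_right h1 h8
  rw [abs_le]
  constructor
  · have := key b a hb ha
    rw [abs_sub_comm] at this
    linarith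
  · exact key a b ha hb

/-- `|exp a - exp b| ≤ exp (max |a| |b|) * |a - b|` -/
theorem BO.exp_sub {n : ℕ} {f g : ℝ → ℝ} (hf : BO 1 f) (hg : BO 1 g)
    (h : BO n fun x => f x - g x) : BO n fun x => Real.exp (f x) - Real.exp (g x) := by
  obtain ⟨ε₁, h1, h1'⟩ := hf.small one_pos
  obtain ⟨ε₂, h2, h2'⟩ := hg.small one_pos
  refine h.of_le (C := 3) (lt_min h1 h2) (fun x hx hx' => ?_)
  exact BOs_exp_sub _ _ (h1' x hx (lt_of_lt_of_le hx' (min_le_left _ _)))
    (h2' x hx (lt_of_lt_of_le hx' (min_le_right _ _)))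

/-- if the denominator is bounded below by `1 / 2` -/
theorem BO.div {n : ℕ} {f g : ℝ → ℝ} (hf : BO n f) {ε : ℝ} (hε : 0 < ε)
    (hg : ∀ x, 0 < x → x < ε → 1 / 2 ≤ g x) : BO n fun x => f x / g x := by
  refine hf.of_le (C := 2) hε (fun x hx hx' => ?_)
  have h1 := hg x hx hx'
  have h2 : 0 < g x := by linarith
  rw [abs_div, abs_of_pos h2, div_le_iff₀ h2]
  have h3 := abs_nonneg (f x)
  nlinarith

/-- absolute convergence in the disc of radius `x₀` -/
private theorem BOs_summable {a : ℕ → ℝ} {x₀ : ℝ} (h0 : 0 < x₀)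
    (ha : Summable fun n => a n * x₀ ^ n) {x : ℝ} (hx : 0 < x) (hx' : x < x₀) :
    Summable fun n => a n * x ^ n := by
  have hr : x / x₀ < 1 := (div_lt_one h0).mpr hx'
  have hr0 : 0 ≤ x / x₀ := (div_pos hx h0).le
  have hab : Tendsto (fun n => a n * x₀ ^ n) atTop (𝓝 0) := ha.tendsto_atTop_zero
  obtain ⟨M, hM⟩ := hab.bddAbove_range
  obtain ⟨m, hm⟩ := hab.bddBelow_range
  have hbd : ∀ n, |a n * x₀ ^ n| ≤ max |M| |m| := by
    intro n
    have h1 : a n * x₀ ^ n ≤ M := hM ⟨n, rfl⟩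
    have h2 : m ≤ a n * x₀ ^ n := hm ⟨n, rfl⟩
    rw [abs_le]
    constructor
    · have h3 : -|m| ≤ m := neg_abs_le m
      have h4 : |m| ≤ max |M| |m| := le_max_right _ _
      linarith
    · exact h1.trans ((le_abs_self M).trans (le_max_left _ _))
  have hgeo : Summable fun n => max |M| |m| * (x / x₀) ^ n :=
    (summable_geometric_of_lt_one hr0 hr).mul_left _
  refine Summable.of_norm_bounded hgeo (fun n => ?_)
  have h5 : a n * x ^ n = (a n * x₀ ^ n) * (x / x₀) ^ n := by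
    rw [div_pow]
    have : x₀ ^ n ≠ 0 := (pow_pos h0 n).ne'
    field_simp
  rw [h5, Real.norm_eq_abs, abs_mul, abs_of_nonneg (pow_nonneg hr0 n)]
  exact mul_le_mul_of_nonneg_right (hbd n) (pow_nonneg hr0 n)

/-- bound of the tail -/
private theorem BOs_tail {a : ℕ → ℝ} {x₀ : ℝ} (h0 : 0 < x₀)
    (ha : Summable fun n => a n * x₀ ^ n) (n : ℕ) :
    ∃ C ε : ℝ, 0 < ε ∧ ε ≤ x₀ ∧ ∀ x, 0 < x → x < ε →
      |∑' m, a (m + n) * x ^ (m + n)| ≤ C * x ^ n := by
  have hy0 : 0 < x₀ / 2 := by linarith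
  have hS : Summable fun m => a m * (x₀ / 2) ^ m := BOs_summable h0 ha hy0 (by linarith)
  have hS' : Summable fun m => |a (m + n) * (x₀ / 2) ^ (m + n)| :=
    ((summable_nat_add_iff n).mpr hS).abs
  refine ⟨(∑' m, |a (m + n) * (x₀ / 2) ^ (m + n)|) / (x₀ / 2) ^ n, x₀ / 2, hy0, by linarith,
    fun x hx hx' => ?_⟩
  have hterm : ∀ m, |a (m + n) * x ^ (m + n)| ≤
      |a (m + n) * (x₀ / 2) ^ (m + n)| * (x / (x₀ / 2)) ^ n := by
    intro m
    rw [abs_mul, abs_mul, abs_of_nonneg (pow_nonneg hx.le _),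
      abs_of_nonneg (pow_nonneg hy0.le _), mul_assoc]
    refine mul_le_mul_of_nonneg_left ?_ (abs_nonneg _)
    rw [pow_add, pow_add, div_pow x (x₀ / 2) n]
    have h1 : x ^ m ≤ (x₀ / 2) ^ m := pow_le_pow_left₀ hx.le hx'.le m
    have h2 : (x₀ / 2) ^ m * (x₀ / 2) ^ n * (x ^ n / (x₀ / 2) ^ n) = (x₀ / 2) ^ m * x ^ n := by
      have : (x₀ / 2) ^ n ≠ 0 := (pow_pos hy0 n).ne'
      field_simp
    rw [h2]
    exact mul_le_mul_of_nonneg_right h1 (pow_nonneg hx.le n)
  have hS2 : Summable fun m => |a (m + n) * (x₀ / 2) ^ (m + n)| * (x / (x₀ / 2)) ^ n :=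
    hS'.mul_right _
  have hS3 : Summable fun m => |a (m + n) * x ^ (m + n)| :=
    Summable.of_nonneg_of_le (fun m => abs_nonneg _) hterm hS2
  calc |∑' m, a (m + n) * x ^ (m + n)| ≤ ∑' m, |a (m + n) * x ^ (m + n)| := by
        have := norm_tsum_le_tsum_norm (f := fun m => a (m + n) * x ^ (m + n)) (by
          simpa [Real.norm_eq_abs] using hS3)
        simpa [Real.norm_eq_abs] using this
    _ ≤ ∑' m, |a (m + n) * (x₀ / 2) ^ (m + n)| * (x / (x₀ / 2)) ^ n :=
        Summable.tsum_le_tsum hterm hS3 hS2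
    _ = (∑' m, |a (m + n) * (x₀ / 2) ^ (m + n)|) * (x / (x₀ / 2)) ^ n := tsum_mul_right
    _ = (∑' m, |a (m + n) * (x₀ / 2) ^ (m + n)|) / (x₀ / 2) ^ n * x ^ n := by
        rw [div_pow]; ring

/-- a power series whose first `n` coefficients vanish; it converges absolutely for small `x` -/
theorem BO.tsum {a : ℕ → ℝ} {x₀ : ℝ} (h0 : 0 < x₀) (ha : Summable fun n => a n * x₀ ^ n) {n : ℕ}
    (h : ∀ m, m < n → a m = 0) : BO n fun x => ∑' m, a m * x ^ m := by
  obtain ⟨C, ε, hε, hεx, hC⟩ := BOs_tail h0 ha n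
  refine ⟨C, ε, hε, fun x hx hx' => ?_⟩
  have hs := BOs_summable h0 ha hx (lt_of_lt_of_le hx' hεx)
  have h1 : ∑' m, a m * x ^ m = ∑' m, a (m + n) * x ^ (m + n) := by
    rw [← hs.sum_add_tsum_nat_add n]
    have h2 : ∑ m ∈ Finset.range n, a m * x ^ m = 0 := by
      refine Finset.sum_eq_zero (fun m hm => ?_)
      rw [h m (Finset.mem_range.mp hm), zero_mul]
    rw [h2, zero_add]
  show |∑' m, a m * x ^ m| ≤ C * x ^ n
  rw [h1]
  exact hC x hx hx'

/-- the converse: divide by `x ^ m` for the first nonzero coefficient `a m` and let `x → 0` -/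
theorem BO.coeff {a : ℕ → ℝ} {x₀ : ℝ} (h0 : 0 < x₀) (ha : Summable fun n => a n * x₀ ^ n) {n : ℕ}
    (h : BO n fun x => ∑' m, a m * x ^ m) : ∀ m, m < n → a m = 0 := by
  intro m
  induction m using Nat.strong_induction_on with
  | _ m ih =>
    intro hm
    -- `a m x ^ m = (the series) - (the tail from m + 1)`
    obtain ⟨C, ε, hε, hεx, hC⟩ := BOs_tail h0 ha (m + 1)
    have h1 : BO (m + 1) fun x => ∑' k, a k * x ^ k := h.mono hm
    obtain ⟨D, δ, hD, hδ, hδ1, hδ2, hD'⟩ := h1.norm hε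
    have hmain : ∀ x, 0 < x → x < δ → |a m| ≤ (D + C) * x := by
      intro x hx hx'
      have hxε := lt_of_lt_of_le hx' hδ2
      have hs := BOs_summable h0 ha hx (lt_of_lt_of_le hxε hεx)
      have h2 : ∑' k, a k * x ^ k = a m * x ^ m + ∑' k, a (k + (m + 1)) * x ^ (k + (m + 1)) := by
        rw [← hs.sum_add_tsum_nat_add (m + 1), Finset.sum_range_succ]
        have h3 : ∑ k ∈ Finset.range m, a k * x ^ k = 0 := by
          refine Finset.sum_eq_zero (fun k hk => ?_)
          have hk' := Finset.mem_range.mp hk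
          rw [ih k hk' (by omega), zero_mul]
        rw [h3, zero_add]
      have h4 := hD' x hx hx'
      have h5 := hC x hx hxε
      have h6 : |a m * x ^ m| ≤ (D + C) * x ^ (m + 1) := by
        have h7 : a m * x ^ m = ∑' k, a k * x ^ k - ∑' k, a (k + (m + 1)) * x ^ (k + (m + 1)) := by
          rw [h2]; ring
        rw [h7]
        calc |∑' k, a k * x ^ k - ∑' k, a (k + (m + 1)) * x ^ (k + (m + 1))|
            ≤ |∑' k, a k * x ^ k| + |∑' k, a (k + (m + 1)) * x ^ (k + (m + 1))| := abs_sub _ _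
          _ ≤ D * x ^ (m + 1) + C * x ^ (m + 1) := add_le_add h4 h5
          _ = (D + C) * x ^ (m + 1) := by ring
      have hxm : 0 < x ^ m := pow_pos hx m
      rw [abs_mul, abs_of_pos hxm, pow_succ, ← mul_assoc, mul_right_comm] at h6
      exact le_of_mul_le_mul_right h6 hxm
    by_contra hne
    have hpos : 0 < |a m| := abs_pos.mpr hne
    have hDC : 0 < D + C := by
      have h2 := hmain (δ / 2) (by linarith) (by linarith)
      by_contra hneg
      have h3 : D + C ≤ 0 := by linarith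
      nlinarith
    have h4 := hmain (min (δ / 2) (|a m| / (2 * (D + C)))) (lt_min (by linarith) (by positivity))
      (lt_of_le_of_lt (min_le_left _ _) (by linarith))
    have h5 : min (δ / 2) (|a m| / (2 * (D + C))) ≤ |a m| / (2 * (D + C)) := min_le_right _ _
    have h6 : (D + C) * (|a m| / (2 * (D + C))) = |a m| / 2 := by field_simp
    nlinarith

end PGr

end

section
/-! # Module StarSum: fans all of whose nets are single edges -/

set_option linter.unusedSectionVars false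

namespace PGr
open Equiv Finset
open scoped ENNReal Classical

section
variable {k : ℕ} {S Y kv kf ke ζ G : ℝ≥0∞}

namespace StarSum

/-- the edges at the root vertex and the reversed edges are different -/
theorem deg_le {T : Type*} [Fintype T] [DecidableEq T] {a s ρ : Perm T} {r : T}
    (h : Good a s) (hr : Rot a s ρ k r) : dgs s r + nFix a ρ ≤ Fintype.card T / 2 := by
  have hV : dgs s r = (univ.filter fun y => s.SameCycle r y).card := by
    unfold dgs
    rw [minimalPeriod_eq_card]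
  set V : Finset T := univ.filter fun y => s.SameCycle r y with hVdef
  have hmem : ∀ y, y ∈ V ↔ s.SameCycle r y := fun y => by simp [hVdef]
  have hdisj : Disjoint V (V.image a) := by
    rw [disjoint_left]
    intro y hy hy'
    obtain ⟨x, hx, rfl⟩ := mem_image.1 hy'
    exact h.noLoop x (((hmem x).1 hx).symm.trans ((hmem _).1 hy))
  have hcard : (V ∪ V.image a).card = 2 * V.card := by
    rw [card_union_of_disjoint hdisj, card_image_of_injective _ a.injective]
    ring
  have hlt : ∀ x, ρ x = a x → x ∉ V := by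
    intro x hx hxV
    have h1 : s.SameCycle r (ρ x) :=
      hr.root.trans ((Poles_sc_map hr.rs).2 ((hmem x).1 hxV))
    rw [hx] at h1
    exact h.noLoop x (((hmem x).1 hxV).symm.trans h1)
  have hle := card_le_univ (V ∪ V.image a)
  rw [hcard, ← hV] at hle
  rcases hr.trichotomy h with ⟨-, -, -, -, -, h6⟩ | ⟨-, -, -, -, -, h6⟩ | ⟨-, -, h3, -, -, h6⟩
  · omega
  · omega
  · obtain ⟨x, hx⟩ := h3
    have hx' : ρ (a x) = a (a x) := by rw [hr.ra, hx]
    have h1 : x ∉ V := hlt x hx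
    have h2 : a x ∉ V := hlt (a x) hx'
    have h3 : x ∉ V.image a := by
      intro h4
      obtain ⟨y, hy, hy'⟩ := mem_image.1 h4
      apply h2
      rw [← hy', h.inv]
      exact hy
    have h4 : a x ∉ V.image a := by
      intro h4
      obtain ⟨y, hy, hy'⟩ := mem_image.1 h4
      apply h1
      rw [← a.injective hy']
      exact hy
    have h5 : Disjoint (V ∪ V.image a) {x, a x} := by
      rw [disjoint_right]
      intro y hy
      rw [mem_insert, mem_singleton] at hy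
      rw [mem_union]
      rcases hy with rfl | rfl
      · exact fun h7 => h7.elim h1 h3
      · exact fun h7 => h7.elim h2 h4
    have h7 := card_le_univ ((V ∪ V.image a) ∪ {x, a x})
    rw [card_union_of_disjoint h5, hcard, card_pair (Ne.symm (h.fpf x)), ← hV] at h7
    omega

end StarSum

/-- The relation between the weights `wS` and `wR`: the darts at the root vertex belong to different edges (`noLoop`) which are not reversed, so
`dgs s r + nFix a ρ ≤ |T| / 2`, and `Y ^ (m + d) * (ζ / Y) ^ d = Y ^ m * ζ ^ d`. -/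
theorem wS_eq_wR {T : Type*} [Fintype T] [DecidableEq T] {a s ρ : Perm T} {r : T}
    (h : Good a s) (hr : Rot a s ρ k r) (h0 : Y ≠ 0) (ht : Y ≠ ⊤) :
    wS S Y kv kf ke ζ a s ρ r = wR S 1 Y kv kf ke (ζ / Y) a s ρ r := by
  have h1 := StarSum.deg_le h hr
  have h2 : Fintype.card T / 2 - nFix a ρ =
      (Fintype.card T / 2 - nFix a ρ - dgs s r) + dgs s r := by omega
  have h3 : ζ ^ dgs s r = Y ^ dgs s r * (ζ / Y) ^ dgs s r := by
    rw [← mul_pow, ENNReal.mul_div_cancel h0 ht]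
  unfold wS wR
  rw [one_pow, mul_one, h2, pow_add, h3, ← h2]
  ring

namespace StarSum

theorem wSc_eq_wV {M : BMap} (hM : M.IsGood) (h0 : Y ≠ 0) (ht : Y ≠ ⊤) :
    wSc k S Y kv kf ke ζ M = wV k S 1 Y kv kf ke (ζ / Y) M := by
  unfold wSc wV
  by_cases h : IsV k M
  · rw [dif_pos h, dif_pos h]
    exact wS_eq_wR hM h.choose_spec h0 ht
  · rw [dif_neg h, dif_neg h]

theorem card_part (X : FanD k) (κ : {x // x ∈ X.K}) :
    (X.C.part X.N κ).card = Fintype.card (X.N κ).1.D := by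
  rw [← card_univ]
  symm
  refine card_bij (fun d _ => (Sum.inl ⟨κ, d⟩ : X.FT)) ?_ ?_ ?_
  · intro d _
    exact (GCo.mem_part X.C X.N).2 ⟨d, rfl⟩
  · intro d _ d' _ h
    exact eq_of_heq (Sigma.mk.inj (Sum.inl.inj h)).2
  · intro t ht
    obtain ⟨d, hd⟩ := (GCo.mem_part X.C X.N).1 ht
    exact ⟨d, mem_univ _, hd.symm⟩

/-- the class of a fan has an isomorphism to the fan -/
theorem cls_iso (X : FanD k) (d : X.N0.1.D) :
    ∃ e : X.FT ≃ (X.cls d).rep.1.T, (∀ t, e (X.Fa t) = (X.cls d).rep.1.aa (e t)) ∧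
      (∀ t, e (X.Fs t) = (X.cls d).rep.1.s (e t)) ∧ e (X.rt d) = Sum.inr true :=
  gcl_iso X.Fa X.Fs (X.rt d) X.good

end StarSum

/-- A fan is in `Al2` iff all its nets have two nonroot darts: the maximal sets of a fan are the parts of its nets (module FanV), and it is not a bond. -/
theorem al2_cls (X : FanD k) {d : X.N0.1.D} (hd : X.AtPole d) :
    Al2 k (X.cls d).rep.1 ↔ ∀ κ, Fintype.card (X.N κ).1.D = 2 := by
  obtain ⟨ρF, hr, h⟩ := X.exists_rot hd
  obtain ⟨e, h1, h2, h3⟩ := StarSum.cls_iso X d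
  have h4 := Rot.iso e h1 h2 hr
  rw [h3] at h4
  rw [Al2_of (X.cls d).rep.2 h4]
  have h5 := Bd.iso (k := k) (r := X.rt d) (ρ := ρF) e h1 h2
  rw [h3] at h5
  rw [h5]
  have hmax : ∀ A, MaxV (X.cls d).rep.1.aa (X.cls d).rep.1.s ((e.symm.trans ρF).trans e) k
      (Sum.inr true) (A.map e.toEmbedding) ↔ MaxV X.Fa X.Fs ρF k (X.rt d) A := by
    intro A
    have h6 := MaxV.iso (k := k) (r := X.rt d) (ρ := ρF) e h1 h2 A
    rwa [h3] at h6
  constructor
  · rintro ⟨-, h6⟩ κ
    have h7 := h6 ((X.C.part X.N κ).map e.toEmbedding)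
      ((hmax _).2 ((X.maxV_iff hd hr h _).2 ⟨κ, rfl⟩))
    rwa [card_map, StarSum.card_part] at h7
  · intro h6
    refine ⟨X.not_bd hd hr h, fun A hA => ?_⟩
    have h7 : (A.map e.symm.toEmbedding).map e.toEmbedding = A := by
      ext t
      simp
    rw [← h7, hmax, X.maxV_iff hd hr h] at hA
    obtain ⟨κ, h8⟩ := hA
    have h9 : A.card = (A.map e.symm.toEmbedding).card := (card_map _).symm
    rw [h9, h8]
    exact (StarSum.card_part X κ).trans (h6 κ)

namespace StarSum

/-- the degree of the new vertex if all nets are single edges -/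
theorem dgs_dig {M : BMap} (hM : M.IsGood) (h : Fintype.card M.D = 2) : pd M = 1 := by
  have h1 : pd M ≤ 1 := by
    have h2 := card_atP ⟨M, hM⟩
    rw [← h2]
    by_contra h3
    push Not at h3
    -- two nonroot darts at the pole `true`, they are `d` and `a d`
    obtain ⟨x, hx, y, hy, hxy⟩ := one_lt_card.1 h3
    have hx' : AtP M x := (mem_filter.1 hx).2
    have hy' : AtP M y := (mem_filter.1 hy).2
    have h4 : M.aa (Sum.inl x) = Sum.inl (M.a x) := rfl
    have hne : M.a x ≠ x := by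
      intro h5
      have h6 := hM.fpf (Sum.inl x)
      apply h6
      exact congrArg Sum.inl h5
    have h5 : y = M.a x := by
      by_contra h6
      have h7 : ({x, y, M.a x} : Finset M.D).card = 3 := by
        rw [card_insert_of_notMem, card_pair h6]
        simp only [mem_insert, mem_singleton, not_or]
        exact ⟨hxy, fun h8 => hne h8.symm⟩
      have h8 := card_le_univ ({x, y, M.a x} : Finset M.D)
      omega
    have h6 : M.s.SameCycle (Sum.inl x) (M.aa (Sum.inl x)) := by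
      rw [h4, ← h5]
      exact hx'.symm.trans hy'
    exact Good.noLoop (a := M.aa) hM _ h6
  have h2 := pd_pos ⟨M, hM⟩
  have h3 : 0 < pd M := h2
  omega

theorem nw_dig {M : BMap} (hM : M.IsGood) (h : Fintype.card M.D = 2) (h0 : Y ≠ 0) (ht : Y ≠ ⊤) :
    nw S 1 Y (ζ / Y) M = ζ := by
  have h1 : nV M.s = 2 := by
    have h2 : 2 ≤ nV M.s := Good.two_le_nV hM
    have h3 : 2 ≤ nV (M.aa * M.s) := Good.two_le_nV hM.dual
    have h4 := NP.euler (NP.of_good hM) ⟨Sum.inr true⟩
    have h5 : Fintype.card M.T = 4 := by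
      show Fintype.card (M.D ⊕ Bool) = 4
      rw [Fintype.card_sum, h, Fintype.card_bool]
    rw [h5] at h4
    omega
  unfold nw
  rw [h1, dgs_dig hM h, h]
  simp
  rw [ENNReal.mul_div_cancel h0 ht]

/-- the weight of a net: `ζ` if it is a single edge -/
noncomputable def φw (ζ : ℝ≥0∞) (M : BMap) : ℝ≥0∞ := if Fintype.card M.D = 2 then ζ else 0

theorem prod_all {ι : Type*} [Fintype ι] (f : ι → GB) :
    (∏ κ, φw ζ (f κ).1) = if ∀ κ, Fintype.card (f κ).1.D = 2 then ζ ^ Fintype.card ι else 0 := by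
  by_cases h : ∀ κ, Fintype.card (f κ).1.D = 2
  · rw [if_pos h]
    have h1 : ∀ κ, φw ζ (f κ).1 = ζ := fun κ => if_pos (h κ)
    rw [prod_congr rfl fun κ _ => h1 κ, prod_const, card_univ]
  · rw [if_neg h]
    push Not at h
    obtain ⟨κ, hκ⟩ := h
    exact prod_eq_zero (mem_univ κ) (if_neg hκ)

/-- the value of the sum over `d` for one fan, with a condition `P` -/
theorem sum_fan2 (X : FanD k) (h0 : Y ≠ 0) (ht : Y ≠ ⊤) (W : GC → ℝ≥0∞) (c : ℝ≥0∞)
    (hW : ∀ d, X.AtPole d → W (X.cls d) = c * (if Al2 k (X.cls d).rep.1 then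
      wSc k S Y kv kf ke ζ (X.cls d).rep.1 else 0)) :
    (∑ d : X.N0.1.D, if X.AtPole d then W (X.cls d) else 0) =
      c * (wR 1 S Y kf kv ke 1 X.a (X.a * X.s) X.ρ X.p * ∏ κ, φw ζ (X.N κ).1) := by
  have h1 : ∀ d, X.AtPole d → W (X.cls d) =
      (c * (if ∀ κ, Fintype.card (X.N κ).1.D = 2 then 1 else 0)) *
        wV k S 1 Y kv kf ke (ζ / Y) (X.cls d).rep.1 := by
    intro d hd
    rw [hW d hd, wSc_eq_wV (X.cls d).rep.2 h0 ht]
    by_cases h : ∀ κ, Fintype.card (X.N κ).1.D = 2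
    · rw [if_pos h, if_pos ((al2_cls X hd).2 h), mul_one]
    · rw [if_neg h, if_neg (fun h2 => h ((al2_cls X hd).1 h2)), mul_zero, zero_mul]
  rw [NbEq.sum_fan X S 1 Y kv kf ke (ζ / Y) _ W h1]
  by_cases h : ∀ κ, Fintype.card (X.N κ).1.D = 2
  · rw [if_pos h, mul_one]
    have h2 : pd X.N0.1 = 1 := dgs_dig X.N0.2 (h _)
    have h3 : ∀ κ, nw S 1 Y (ζ / Y) (X.N κ).1 = φw ζ (X.N κ).1 := by
      intro κ
      rw [nw_dig (X.N κ).2 (h κ) h0 ht]
      exact (if_pos (h κ)).symm
    rw [h2, prod_congr rfl fun κ _ => h3 κ, Nat.cast_one, one_mul]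
  · rw [if_neg h, mul_zero, zero_mul]
    push Not at h
    obtain ⟨κ, hκ⟩ := h
    have h2 : ∏ κ, φw ζ (X.N κ).1 = 0 := prod_eq_zero (mem_univ κ) (if_neg hκ)
    rw [h2, mul_zero, mul_zero]

theorem dig_iff (k : GC) : Fintype.card k.rep.1.D = 2 ↔ k = digC := by
  constructor
  · intro h
    exact ESum.eq_of_iso ((eq_digon k.rep.2 (by omega)).trans
      (ESum.rep_iso ⟨digonB, digon_good⟩).symm)
  · rintro rfl
    exact (ESum.rep_iso ⟨digonB, digon_good⟩).card_eq.trans rfl

theorem tsum_φw (hk : k ≠ 0) : ∑' x : GC, φw ζ x.rep.1 ^ k = ζ ^ k := by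
  rw [tsum_eq_single digC]
  · unfold φw
    rw [if_pos ((dig_iff digC).2 rfl)]
  · intro x hx
    unfold φw
    rw [if_neg (fun h => hx ((dig_iff x).1 h)), zero_pow hk]

theorem code_wF (c : GC) (h : IsFo k c.rep.1) (ω : c.rep.1.T → Option GC)
    (hω : FCond c.rep.1 h.choose ω) :
    wR 1 S Y kf kv ke 1 (FanD.ofCode k c h ω hω).a
      ((FanD.ofCode k c h ω hω).a * (FanD.ofCode k c h ω hω).s)
      (FanD.ofCode k c h ω hω).ρ (FanD.ofCode k c h ω hω).p =
      wF k S 1 Y kv kf ke 1 c.rep.1 := by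
  unfold wF
  rw [dif_pos h]
  rfl

end StarSum

open StarSum in
/-- The sum over the codes over one class with all nets equal to the digon: `wS_eq_wR`, `FanD.wV_cls` with `nw S 1 Y (ζ / Y) = ζ` for a net with two nonroot darts; `AtPole d` for exactly one `d` of the digon
at `p` (`card_atP`, `pd = 1`); `per_sum_root` with `φ c = if c = digC then ζ else 0` and `g = 1` (copy the proof of `code_sum` in module NbEq). -/
theorem star_code_sum (hk : 2 ≤ k) (h0 : Y ≠ 0) (ht : Y ≠ ⊤) (c : GC) (h : IsFo k c.rep.1) :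
    (∑' ω : {ω : c.rep.1.T → Option GC // FCond c.rep.1 h.choose ω},
      ∑ d : (FanD.ofCode k c h ω.1 ω.2).N0.1.D,
        if (FanD.ofCode k c h ω.1 ω.2).AtPole d then
          (if Al2 k ((FanD.ofCode k c h ω.1 ω.2).cls d).rep.1 then
            wSc k S Y kv kf ke ζ ((FanD.ofCode k c h ω.1 ω.2).cls d).rep.1 else 0) else 0) =
      wF k S 1 Y kv kf ke 1 c.rep.1 * (ζ ^ k *
        (1 + ζ ^ k) ^ (dgs (c.rep.1.aa * c.rep.1.s) (Sum.inr true) / k - 1)) := by
  have hrot := h.choose_spec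
  set ρ := h.choose with hρ
  set I : Finset c.rep.1.T := univ.filter fun t =>
    (c.rep.1.aa * c.rep.1.s).SameCycle (Sum.inr true) t with hI
  have hcard : I.card = dgs (c.rep.1.aa * c.rep.1.s) (Sum.inr true) := by
    unfold dgs
    rw [minimalPeriod_eq_card]
  have hinv : ∀ t, ρ t ∈ I ↔ t ∈ I := by
    intro t
    have h1 := Rot.pow_root hrot 1 (t := t)
    rw [pow_one] at h1
    rw [hI, mem_filter, mem_filter]
    simp only [mem_univ, true_and]
    exact h1
  have hp : (Sum.inr true : c.rep.1.T) ∈ I := by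
    rw [hI, mem_filter]
    exact ⟨mem_univ _, Perm.SameCycle.refl _ _⟩
  have key : (∑' ω : {ω : c.rep.1.T → Option GC // (∀ t, ω t ≠ none → t ∈ I) ∧
      (∀ t, ω (ρ t) = ω t) ∧ ω (Sum.inr true) ≠ none},
        NbEq.mv 0 (fun _ => 1) (ω.1 (Sum.inr true)) *
          ∏ t, NbEq.mv 1 (fun n => φw ζ n.rep.1) (ω.1 t)) =
      (∑' x : GC, 1 * φw ζ x.rep.1 ^ k) *
        (1 + ∑' x : GC, φw ζ x.rep.1 ^ k) ^ (I.card / k - 1) := by
    refine Eq.trans (tsum_congr fun ω => ?_) (per_sum_root ρ (k := k) (by omega) hrot.pow hrot.free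
      I hinv hp (fun _ : GC => 1) (fun n : GC => φw ζ n.rep.1))
    refine congrArg₂ (· * ·) ?_ (prod_congr rfl fun t _ => ?_)
    · cases ω.1 (Sum.inr true) <;> rfl
    · cases ω.1 t <;> rfl
  have e1 : ∑' x : GC, 1 * φw ζ x.rep.1 ^ k = ζ ^ k := by
    rw [← tsum_φw (k := k) (by omega)]
    exact tsum_congr fun x => one_mul _
  rw [e1, tsum_φw (by omega), hcard] at key
  rw [← key, ← ENNReal.tsum_mul_left]
  have hiff : ∀ ω : c.rep.1.T → Option GC, FCond c.rep.1 h.choose ω ↔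
      ((∀ t, ω t ≠ none → t ∈ I) ∧ (∀ t, ω (ρ t) = ω t) ∧ ω (Sum.inr true) ≠ none) := by
    intro ω
    constructor
    · intro h1
      exact ⟨fun t ht => mem_filter.2 ⟨mem_univ _, h1.supp t ht⟩, h1.per, h1.root⟩
    · rintro ⟨h1, h2, h3⟩
      exact ⟨fun t ht => (mem_filter.1 (h1 t ht)).2, h2, h3⟩
  rw [← (Equiv.subtypeEquivRight hiff).tsum_eq]
  refine tsum_congr fun ω => ?_
  have h2 := sum_fan2 (S := S) (kv := kv) (kf := kf) (ke := ke) (ζ := ζ)
    (FanD.ofCode k c h ω.1 ω.2) h0 ht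
    (fun n => if Al2 k n.rep.1 then wSc k S Y kv kf ke ζ n.rep.1 else 0) 1
    (fun d _ => (one_mul _).symm)
  rw [one_mul] at h2
  refine h2.trans ?_
  rw [code_wF, NbEq.prod_code c h ω.1 ω.2 (φw ζ)]
  have h3 : ∀ o : Option GC, o ≠ none → NbEq.mv 0 (fun _ => 1) o = 1 := by
    intro o ho
    cases o with
    | none => exact absurd rfl ho
    | some x => rfl
  have h4 : NbEq.mv 0 (fun _ => 1) (((Equiv.subtypeEquivRight hiff) ω).1 (Sum.inr true)) = 1 :=
    h3 _ ω.2.root
  rw [h4, one_mul]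
  rfl

namespace StarSum

/-- the sum over the fans over the link -/
theorem link2 (h2 : k = 2) (n : GC) (h0 : Y ≠ 0) (ht : Y ≠ ⊤) (W : GC → ℝ≥0∞) (c : ℝ≥0∞)
    (hW : ∀ d, (FanD.ofLink k h2 n).AtPole d → W ((FanD.ofLink k h2 n).cls d) =
      c * (if Al2 k ((FanD.ofLink k h2 n).cls d).rep.1 then
      wSc k S Y kv kf ke ζ ((FanD.ofLink k h2 n).cls d).rep.1 else 0)) :
    (∑ d : (FanD.ofLink k h2 n).N0.1.D, if (FanD.ofLink k h2 n).AtPole d then
      W ((FanD.ofLink k h2 n).cls d) else 0) = c * (ke * S ^ 2 * φw ζ n.rep.1 ^ 2) := by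
  rw [sum_fan2 (FanD.ofLink k h2 n) h0 ht W c hW]
  have e1 : wR 1 S Y kf kv ke 1 (FanD.ofLink k h2 n).a
      ((FanD.ofLink k h2 n).a * (FanD.ofLink k h2 n).s) (FanD.ofLink k h2 n).ρ
      (FanD.ofLink k h2 n).p = ke * S ^ 2 * 1 ^ 2 := wR_link S 1 Y kv kf ke 1
  have e2 : ∏ κ, φw ζ ((FanD.ofLink k h2 n).N κ).1 = φw ζ n.rep.1 ^ 2 := by
    have e3 : ∀ κ, φw ζ ((FanD.ofLink k h2 n).N κ).1 = φw ζ n.rep.1 := fun κ => rfl
    rw [prod_congr rfl fun κ _ => e3 κ, prod_const, card_univ]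
    congr 1
  rw [e1, e2, one_pow, mul_one]

theorem al2_isNB {M : BMap} (h : Al2 k M) : IsNB k M := by
  obtain ⟨ρ, h1, h2, -⟩ := h
  exact ⟨ρ, h1, h2⟩

end StarSum

open StarSum in
/-- All fans with single edges, root vertex of any degree: `fan_sum` for `W c = if Al2 k c.rep.1 then wSc .. else 0` (`Al2 → IsNB`), `star_code_sum`, and `(G ^ k) ^ (l / k - 1) * G ^ k = G ^ l`
as in the proof of `nb_eq`.  The link (`k = 2`): weight `ke * S ^ 2 * ζ ^ 2` (`wR_link`). -/
theorem star_all (hk : 2 ≤ k) (h0 : Y ≠ 0) (ht : Y ≠ ⊤) (hG : G ^ k = 1 + ζ ^ k) :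
    (∑' c : GC, if Al2 k c.rep.1 then wSc k S Y kv kf ke ζ c.rep.1 else 0) * G ^ k =
      ζ ^ k * (gF k S 1 Y kv kf ke G + lkw k S ke G) := by
  have e0 : (∑' c : GC, if Al2 k c.rep.1 then wSc k S Y kv kf ke ζ c.rep.1 else 0) =
      ∑' c : GC, if IsNB k c.rep.1 then
        (if Al2 k c.rep.1 then wSc k S Y kv kf ke ζ c.rep.1 else 0) else 0 := by
    refine tsum_congr fun c => ?_
    by_cases h1 : Al2 k c.rep.1
    · rw [if_pos h1, if_pos (al2_isNB h1)]
    · rw [if_neg h1, ite_self]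
  rw [e0, fan_sum hk (fun c => if Al2 k c.rep.1 then wSc k S Y kv kf ke ζ c.rep.1 else 0),
    add_mul, mul_add]
  congr 1
  · rw [← ENNReal.tsum_mul_right]
    have h1 : ∀ c : {c : GC // IsFo k c.rep.1},
        (∑' ω : {ω : c.1.rep.1.T → Option GC // FCond c.1.rep.1 c.2.choose ω},
          ∑ d : (FanD.ofCode k c.1 c.2 ω.1 ω.2).N0.1.D,
            if (FanD.ofCode k c.1 c.2 ω.1 ω.2).AtPole d then
              (if Al2 k ((FanD.ofCode k c.1 c.2 ω.1 ω.2).cls d).rep.1 then
                wSc k S Y kv kf ke ζ ((FanD.ofCode k c.1 c.2 ω.1 ω.2).cls d).rep.1 else 0)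
              else 0) * G ^ k = ζ ^ k * wF k S 1 Y kv kf ke G c.1.rep.1 := by
      intro c
      rw [star_code_sum hk h0 ht c.1 c.2, ← hG, ← NbEq.wF_one S 1 Y kv kf ke G]
      obtain ⟨⟨m, hm⟩, -⟩ := Rot.normal (Good.dual c.1.rep.2) c.2.choose_spec
      have h2 := Poles_dgs_pos (c.1.rep.1.aa * c.1.rep.1.s) (Sum.inr true)
      have h3 : dgs (c.1.rep.1.aa * c.1.rep.1.s) (Sum.inr true) / k = m := by
        rw [hm, Nat.mul_div_cancel_left _ (by omega)]
      have h4 : 0 < m := by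
        rcases Nat.eq_zero_or_pos m with h5 | h5
        · rw [h5, mul_zero] at hm
          omega
        · exact h5
      rw [h3, hm]
      have h5 : (G ^ k) ^ (m - 1) * G ^ k = G ^ (k * m) := by
        rw [← pow_succ, ← pow_mul]
        congr 2
        omega
      rw [← h5]
      ring
    rw [tsum_congr h1, ENNReal.tsum_mul_left]
    congr 1
    refine (_root_.tsum_subtype {c : GC | IsFo k c.rep.1}
      (fun c => wF k S 1 Y kv kf ke G c.rep.1)).trans ?_
    unfold gF
    refine tsum_congr fun c => ?_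
    by_cases hc : IsFo k c.rep.1
    · exact Set.indicator_of_mem (show c ∈ {c : GC | IsFo k c.rep.1} from hc) _
    · rw [Set.indicator_of_notMem (show c ∉ {c : GC | IsFo k c.rep.1} from hc)]
      unfold wF
      rw [dif_neg hc]
  · by_cases h2 : k = 2
    · rw [dif_pos h2]
      have h3 : ∀ n : GC, ∑ d : (FanD.ofLink k h2 n).N0.1.D,
          (if (FanD.ofLink k h2 n).AtPole d then
            (if Al2 k ((FanD.ofLink k h2 n).cls d).rep.1 then
              wSc k S Y kv kf ke ζ ((FanD.ofLink k h2 n).cls d).rep.1 else 0) else 0) =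
          (ke * S ^ 2) * φw ζ n.rep.1 ^ 2 := by
        intro n
        have h4 := link2 (S := S) (kv := kv) (kf := kf) (ke := ke) (ζ := ζ) h2 n h0 ht
          (fun n => if Al2 k n.rep.1 then wSc k S Y kv kf ke ζ n.rep.1 else 0) 1
          (fun d _ => (one_mul _).symm)
        rw [one_mul] at h4
        exact h4
      rw [tsum_congr h3, ENNReal.tsum_mul_left, tsum_φw (k := 2) (by omega)]
      unfold lkw
      rw [if_pos h2]
      subst h2
      ring
    · rw [dif_neg h2]
      unfold lkw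
      rw [if_neg h2, zero_mul, mul_zero]

namespace StarSum

theorem dgs_iso {T T' : Type*} [Fintype T] [DecidableEq T] [Fintype T'] [DecidableEq T']
    {s : Perm T} {s' : Perm T'} (f : T ≃ T') (hs : ∀ t, f (s t) = s' (f t)) (r : T) :
    dgs s' (f r) = dgs s r := by
  unfold dgs
  rw [minimalPeriod_eq_card, minimalPeriod_eq_card]
  symm
  refine card_bij (fun t _ => f t) ?_ ?_ ?_
  · intro t ht
    rw [mem_filter] at ht ⊢
    exact ⟨mem_univ _, (FanSum_sc f hs _ _).2 ht.2⟩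
  · intro t _ t' _ h
    exact f.injective h
  · intro t ht
    rw [mem_filter] at ht
    obtain ⟨t, rfl⟩ := f.surjective t
    exact ⟨t, by rw [mem_filter]; exact ⟨mem_univ _, (FanSum_sc f hs _ _).1 ht.2⟩, rfl⟩

/-- the degree of the new vertex -/
theorem dgs_cls (X : FanD k) {d : X.N0.1.D} (hd : X.AtPole d)
    (h : ∀ κ, Fintype.card (X.N κ).1.D = 2) :
    dgs (X.cls d).rep.1.s (Sum.inr true) = X.K.card := by
  obtain ⟨e, -, h2, h3⟩ := cls_iso X d
  have h4 := dgs_iso (r := X.rt d) e h2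
  rw [h3] at h4
  rw [h4]
  have h5 := X.dg_eq hd
  have h6 : ∀ κ, dgs (X.N κ).1.s (Sum.inr true) = 2 := by
    intro κ
    have h7 := dgs_dig (X.N κ).2 (h κ)
    unfold pd at h7
    omega
  rw [sum_congr rfl fun κ _ => h6 κ, sum_const, card_univ, Fintype.card_coe, smul_eq_mul] at h5
  omega

theorem card_pairF {T : Type*} {x y : T} (h : x ≠ y) (K : Finset T)
    (hK : ∀ t, t ∈ K ↔ t = x ∨ t = y) : K.card = 2 := by
  have h1 : K = {x, y} := by
    ext t
    rw [hK, mem_insert, mem_singleton]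
  rw [h1, card_pair h]

theorem prod_pairF {T : Type*} [Fintype T] {x y : T} (h : x ≠ y) (f : T → ℝ≥0∞) (z : ℝ≥0∞)
    (hf : ∀ t, f t = if t = x ∨ t = y then z else 1) : ∏ t, f t = z ^ 2 := by
  have h1 : ∀ t, f t = if t ∈ ({x, y} : Finset T) then z else 1 := by
    intro t
    rw [hf]
    by_cases h2 : t = x ∨ t = y
    · rw [if_pos h2, if_pos (by rw [mem_insert, mem_singleton]; exact h2)]
    · rw [if_neg h2, if_neg (by rw [mem_insert, mem_singleton]; exact h2)]
  rw [prod_congr rfl fun t _ => h1 t, prod_ite_mem, univ_inter, prod_const, card_pair h]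

theorem eq_pairF {T : Type*} {x y : T} (h : x ≠ y) (K : Finset T) (hK : K.card = 2)
    (hx : x ∈ K) (hy : y ∈ K) (t : T) : t ∈ K ↔ t = x ∨ t = y := by
  have h1 : ({x, y} : Finset T) = K := by
    refine eq_of_subset_of_card_le ?_ ?_
    · intro t ht
      rw [mem_insert, mem_singleton] at ht
      rcases ht with rfl | rfl
      · exact hx
      · exact hy
    · rw [card_pair h]
      exact hK.le
  rw [← h1, mem_insert, mem_singleton]

/-- the code with the digon at `p` and `ρ p` -/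
noncomputable def ω0 {T : Type*} (ρ : Perm T) (p : T) : T → Option GC := fun t =>
  if t = p ∨ t = ρ p then some digC else none

end StarSum

open StarSum in
/-- The fans with root vertex of degree at most 2: the degree is a multiple of `k ≥ 2` (`Rot.normal`), so `k = 2` and the degree is 2; these are the codes where `ω` is not `none` only at `p` and `ρ p` (both of
them different; the degree of the new vertex is `|K|` if all nets are single edges, `FanD.dg_eq` in FanW), one for every class `c` with `IsFo 2 c.rep.1`, weight `ζ ^ 2 * wF 2 S 1 Y kv kf ke 1 c.rep.1`, and the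
fan over the link, weight `ke * S ^ 2 * ζ ^ 2`.  Use `fan_sum` for `W c = if Al2 .. ∧ dgs .. = 2 then .. else 0`. -/
theorem star_two (h0 : Y ≠ 0) (ht : Y ≠ ⊤) :
    (∑' c : GC, if Al2 2 c.rep.1 ∧ ¬ 3 ≤ dgs c.rep.1.s (Sum.inr true) then
      wSc 2 S Y kv kf ke ζ c.rep.1 else 0) =
      ζ ^ 2 * (gF 2 S 1 Y kv kf ke 1 + ke * S ^ 2) := by
  have e0 : (∑' c : GC, if Al2 2 c.rep.1 ∧ ¬ 3 ≤ dgs c.rep.1.s (Sum.inr true) then
      wSc 2 S Y kv kf ke ζ c.rep.1 else 0) =
      ∑' c : GC, if IsNB 2 c.rep.1 then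
        (if Al2 2 c.rep.1 ∧ ¬ 3 ≤ dgs c.rep.1.s (Sum.inr true) then
          wSc 2 S Y kv kf ke ζ c.rep.1 else 0) else 0 := by
    refine tsum_congr fun c => ?_
    by_cases h1 : Al2 2 c.rep.1 ∧ ¬ 3 ≤ dgs c.rep.1.s (Sum.inr true)
    · rw [if_pos h1, if_pos (al2_isNB h1.1)]
    · rw [if_neg h1, ite_self]
  -- the value for one fan
  have hfan : ∀ (X : FanD 2), (∑ d : X.N0.1.D, if X.AtPole d then
      (if Al2 2 (X.cls d).rep.1 ∧ ¬ 3 ≤ dgs (X.cls d).rep.1.s (Sum.inr true) then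
          wSc 2 S Y kv kf ke ζ (X.cls d).rep.1 else 0) else 0) =
      (if X.K.card = 2 then 1 else 0) *
        (wR 1 S Y kf kv ke 1 X.a (X.a * X.s) X.ρ X.p * ∏ κ, φw ζ (X.N κ).1) := by
    intro X
    refine sum_fan2 X h0 ht (fun c => if Al2 2 c.rep.1 ∧ ¬ 3 ≤ dgs c.rep.1.s (Sum.inr true) then
          wSc 2 S Y kv kf ke ζ c.rep.1 else 0) _ fun d hd => ?_
    by_cases h1 : Al2 2 (X.cls d).rep.1
    · have h2 := dgs_cls X hd ((al2_cls X hd).1 h1)
      have h3 := NbEq.card_K X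
      by_cases h4 : X.K.card = 2
      · rw [if_pos ⟨h1, by omega⟩, if_pos h4, if_pos h1, one_mul]
      · rw [if_neg (by rintro ⟨-, h5⟩; omega), if_neg h4, zero_mul]
    · rw [if_neg (fun h => h1 h.1), if_neg h1, mul_zero]
  rw [e0, fan_sum (le_refl 2) (fun c => if Al2 2 c.rep.1 ∧ ¬ 3 ≤ dgs c.rep.1.s (Sum.inr true) then
    wSc 2 S Y kv kf ke ζ c.rep.1 else 0), mul_add]
  congr 1
  · have h1 : ∀ c : {c : GC // IsFo 2 c.rep.1},
        (∑' ω : {ω : c.1.rep.1.T → Option GC // FCond c.1.rep.1 c.2.choose ω},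
          ∑ d : (FanD.ofCode 2 c.1 c.2 ω.1 ω.2).N0.1.D,
            if (FanD.ofCode 2 c.1 c.2 ω.1 ω.2).AtPole d then
              (if Al2 2 ((FanD.ofCode 2 c.1 c.2 ω.1 ω.2).cls d).rep.1 ∧
                ¬ 3 ≤ dgs ((FanD.ofCode 2 c.1 c.2 ω.1 ω.2).cls d).rep.1.s (Sum.inr true) then
                wSc 2 S Y kv kf ke ζ ((FanD.ofCode 2 c.1 c.2 ω.1 ω.2).cls d).rep.1 else 0)
              else 0) = ζ ^ 2 * wF 2 S 1 Y kv kf ke 1 c.1.rep.1 := by
      rintro ⟨c, h⟩
      simp only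
      have hrot := h.choose_spec
      have hpp : ∀ t, h.choose (h.choose t) = t := by
        intro t
        have h2 := hrot.pow t
        rwa [pow_two, Perm.mul_apply] at h2
      have hne : h.choose (Sum.inr true) ≠ Sum.inr true := by
        have h2 := hrot.free (Sum.inr true) 1 one_pos (by omega)
        rwa [pow_one] at h2
      have hω0 : FCond c.rep.1 h.choose (ω0 h.choose (Sum.inr true)) := by
        refine ⟨fun t ht => ?_, fun t => ?_, ?_⟩
        · have h2 : t = Sum.inr true ∨ t = h.choose (Sum.inr true) := by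
            by_contra h3
            exact ht (if_neg h3)
          rcases h2 with rfl | rfl
          · exact Perm.SameCycle.refl _ _
          · exact hrot.root
        · have h2 : (h.choose t = Sum.inr true ∨ h.choose t = h.choose (Sum.inr true)) ↔
              (t = Sum.inr true ∨ t = h.choose (Sum.inr true)) := by
            rw [or_comm, EmbeddingLike.apply_eq_iff_eq]
            refine or_congr Iff.rfl ⟨fun h3 => ?_, fun h3 => ?_⟩
            · exact (hpp t).symm.trans (congrArg h.choose h3)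
            · exact (congrArg h.choose h3).trans (hpp _)
          unfold ω0
          by_cases h3 : t = Sum.inr true ∨ t = h.choose (Sum.inr true)
          · rw [if_pos h3, if_pos (h2.2 h3)]
          · rw [if_neg h3, if_neg (fun h4 => h3 (h2.1 h4))]
        · unfold ω0
          rw [if_pos (Or.inl rfl)]
          simp
      have hval : ∀ ω : {ω : c.rep.1.T → Option GC // FCond c.rep.1 h.choose ω},
          (∑ d : (FanD.ofCode 2 c h ω.1 ω.2).N0.1.D,
            if (FanD.ofCode 2 c h ω.1 ω.2).AtPole d then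
              (if Al2 2 ((FanD.ofCode 2 c h ω.1 ω.2).cls d).rep.1 ∧
                ¬ 3 ≤ dgs ((FanD.ofCode 2 c h ω.1 ω.2).cls d).rep.1.s (Sum.inr true) then
                wSc 2 S Y kv kf ke ζ ((FanD.ofCode 2 c h ω.1 ω.2).cls d).rep.1 else 0)
              else 0) = (if (FanD.ofCode 2 c h ω.1 ω.2).K.card = 2 then 1 else 0) *
          (wF 2 S 1 Y kv kf ke 1 c.rep.1 *
            ∏ t, NbEq.mv 1 (fun n => φw ζ n.rep.1) (ω.1 t)) := by
        intro ω
        rw [hfan (FanD.ofCode 2 c h ω.1 ω.2), code_wF, NbEq.prod_code c h ω.1 ω.2 (φw ζ)]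
      rw [tsum_congr hval, tsum_eq_single ⟨ω0 h.choose (Sum.inr true), hω0⟩]
      · have hK2 : (FanD.ofCode 2 c h (ω0 h.choose (Sum.inr true)) hω0).K.card = 2 := by
          refine card_pairF (Ne.symm hne) _ fun t => ?_
          refine (NbEq.mem_K c h _ hω0 t).trans ?_
          unfold ω0
          by_cases h4 : t = Sum.inr true ∨ t = h.choose (Sum.inr true)
          · rw [if_pos h4]
            exact ⟨fun _ => h4, fun _ h5 => Option.some_ne_none _ h5⟩
          · rw [if_neg h4]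
            exact ⟨fun h5 => absurd rfl h5, fun h5 => absurd h5 h4⟩
        have h3 : ∏ t, NbEq.mv 1 (fun n => φw ζ n.rep.1) (ω0 h.choose (Sum.inr true) t) =
            ζ ^ 2 := by
          refine prod_pairF (Ne.symm hne) _ ζ fun t => ?_
          unfold ω0
          by_cases h4 : t = Sum.inr true ∨ t = h.choose (Sum.inr true)
          · rw [if_pos h4, if_pos h4]
            exact if_pos ((dig_iff digC).2 rfl)
          · rw [if_neg h4, if_neg h4]
            rfl
        simp only [h3]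
        rw [if_pos hK2, one_mul, mul_comm]
      · rintro ⟨ω, hω⟩ hneω
        by_cases h3 : (FanD.ofCode 2 c h ω hω).K.card = 2
        · by_cases h4 : ∀ t x, ω t = some x → x = digC
          · exfalso
            apply hneω
            have hr1 : Sum.inr true ∈ (FanD.ofCode 2 c h ω hω).K := (FanD.ofCode 2 c h ω hω).pK
            have hr2 : h.choose (Sum.inr true) ∈ (FanD.ofCode 2 c h ω hω).K :=
              ((FanD.ofCode 2 c h ω hω).inv _).2 hr1
            apply Subtype.ext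
            funext t
            show ω t = ω0 h.choose (Sum.inr true) t
            have h5 : ω t ≠ none ↔ (t = Sum.inr true ∨ t = h.choose (Sum.inr true)) := by
              exact (NbEq.mem_K c h ω hω t).symm.trans
                (eq_pairF (Ne.symm hne) _ h3 hr1 hr2 t)
            unfold ω0
            by_cases h6 : t = Sum.inr true ∨ t = h.choose (Sum.inr true)
            · rw [if_pos h6]
              obtain ⟨x, hx⟩ := Option.ne_none_iff_exists'.1 (h5.2 h6)
              rw [hx, h4 t x hx]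
            · rw [if_neg h6]
              by_contra h7
              exact h6 (h5.1 h7)
          · push Not at h4
            obtain ⟨t, x, hx, hxd⟩ := h4
            have h5 : ∏ t, NbEq.mv 1 (fun n => φw ζ n.rep.1) (ω t) = 0 := by
              refine prod_eq_zero (mem_univ t) ?_
              rw [hx]
              exact if_neg (fun h6 => hxd ((dig_iff x).1 h6))
            simp only [h5, mul_zero]
        · simp only [h3, if_false, zero_mul]
    rw [tsum_congr h1, ENNReal.tsum_mul_left]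
    congr 1
    refine (_root_.tsum_subtype {c : GC | IsFo 2 c.rep.1}
      (fun c => wF 2 S 1 Y kv kf ke 1 c.rep.1)).trans ?_
    unfold gF
    refine tsum_congr fun c => ?_
    by_cases hc : IsFo 2 c.rep.1
    · exact Set.indicator_of_mem (show c ∈ {c : GC | IsFo 2 c.rep.1} from hc) _
    · rw [Set.indicator_of_notMem (show c ∉ {c : GC | IsFo 2 c.rep.1} from hc)]
      unfold wF
      rw [dif_neg hc]
  · rw [dif_pos rfl]
    have h3 : ∀ n : GC, (∑ d : (FanD.ofLink 2 rfl n).N0.1.D,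
          if (FanD.ofLink 2 rfl n).AtPole d then
            (if Al2 2 ((FanD.ofLink 2 rfl n).cls d).rep.1 ∧
              ¬ 3 ≤ dgs ((FanD.ofLink 2 rfl n).cls d).rep.1.s (Sum.inr true) then
              wSc 2 S Y kv kf ke ζ ((FanD.ofLink 2 rfl n).cls d).rep.1 else 0) else 0) =
          (ke * S ^ 2) * φw ζ n.rep.1 ^ 2 := by
      intro n
      have h4 := link2 (S := S) (kv := kv) (kf := kf) (ke := ke) (ζ := ζ) rfl n h0 ht
        (fun c => if Al2 2 c.rep.1 ∧ ¬ 3 ≤ dgs c.rep.1.s (Sum.inr true) then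
          wSc 2 S Y kv kf ke ζ c.rep.1 else 0) 1 (fun d hd => by
            rw [one_mul]
            by_cases h1 : Al2 2 ((FanD.ofLink 2 rfl n).cls d).rep.1
            · have h2 := dgs_cls _ hd ((al2_cls _ hd).1 h1)
              have h5 : (FanD.ofLink 2 rfl n).K.card = 2 := by
                show (univ : Finset Bool).card = 2
                rfl
              rw [if_pos ⟨h1, by omega⟩, if_pos h1]
            · rw [if_neg (fun h => h1 h.1), if_neg h1])
      rw [one_mul] at h4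
      exact h4
    rw [tsum_congr h3, ENNReal.tsum_mul_left, tsum_φw (k := 2) (by omega), mul_comm]

/-- for `k ≥ 3` the degree is at least 3 -/
theorem al2_three (hk : 3 ≤ k) {c : GC} (h : Al2 k c.rep.1) :
    3 ≤ dgs c.rep.1.s (Sum.inr true) := by
  obtain ⟨ρ, hr, -, -⟩ := h
  obtain ⟨⟨m, hm⟩, -⟩ := Rot.normal (a := c.rep.1.aa) c.rep.2 hr
  have h2 := Poles_dgs_pos c.rep.1.s (Sum.inr true)
  have h4 : 0 < m := by
    rcases Nat.eq_zero_or_pos m with h5 | h5
    · rw [h5, mul_zero] at hm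
      omega
    · exact h5
  rw [hm]
  nlinarith

theorem star_sum (hk : 2 ≤ k) (h0 : Y ≠ 0) (ht : Y ≠ ⊤) (hG : G ^ k = 1 + ζ ^ k) :
    (ZS k S Y kv kf ke ζ +
      if k = 2 then ζ ^ 2 * (gF 2 S 1 Y kv kf ke 1 + ke * S ^ 2) else 0) * G ^ k =
      ζ ^ k * (gF k S 1 Y kv kf ke G + lkw k S ke G) := by
  rw [← star_all hk h0 ht hG]
  congr 1
  by_cases h2 : k = 2
  · subst h2
    rw [if_pos rfl, ← star_two h0 ht]
    unfold ZS
    rw [← ENNReal.tsum_add]
    refine tsum_congr fun c => ?_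
    by_cases h3 : Al2 2 c.rep.1
    · by_cases h4 : 3 ≤ dgs c.rep.1.s (Sum.inr true)
      · simp [ZC, h3, h4]
      · simp [ZC, h3, h4]
    · simp [ZC, h3]
  · rw [if_neg h2, add_zero]
    unfold ZS
    refine tsum_congr fun c => ?_
    by_cases h3 : Al2 k c.rep.1
    · have h4 := al2_three (by omega) h3
      simp [ZC, h3, h4]
    · simp [ZC, h3]

end

end PGr

end
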