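import Pool.Agent.PGc.SerEq
import Pool.Agent.PGm.M03
import Pool.Agent.PGm.M06
import Pool.Agent.PGm.M12
import Pool.Agent.PGm.M13
import Pool.Agent.PGm.M14
import Pool.Agent.PGm.M21

section
/-! # Module ARpar: parallel maps with crossing root edge -/

set_option linter.unusedSectionVars false

namespace PGr
open Equiv Finset

theorem ARpar_core : ∀ (i b : Bool),
    (ddCore tri).s (Sum.inr b) = Sum.inl (i, b) ∨
      (ddCore tri).s ((ddCore tri).s (Sum.inr b)) = Sum.inl (i, b) := by
  intro i b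
  cases i <;> cases b <;> first | exact Or.inl rfl | exact Or.inr rfl

theorem ARpar_sc (i b : Bool) :
    (ddCore tri).s.SameCycle (Sum.inl (i, b)) (Sum.inr b) := by
  refine Perm.SameCycle.symm ?_
  rcases ARpar_core i b with h | h
  · exact ⟨1, by rw [zpow_one]; exact h⟩
  · refine ⟨2, ?_⟩
    have h2 : ((ddCore tri).s ^ (2 : ℤ)) (Sum.inr b) =
        (ddCore tri).s ((ddCore tri).s (Sum.inr b)) := by
      have : ((2 : ℤ)) = 1 + 1 := by norm_num
      rw [this, zpow_add, zpow_one, Perm.mul_apply]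
    rw [h2]
    exact h

/-- no dart of an `AxSet` in one part is at a vertex with a dart of the other part -/
theorem ARpar_sep {a b : GB} {e : Perm (comp (ddCore tri) (serNets a b)).T}
    (h : TwI true true (comp (ddCore tri) (serNets a b)) (comp (ddCore tri) (serNets a b)) e)
    {A : Finset (comp (ddCore tri) (serNets a b)).T}
    (hA : AxSet (comp (ddCore tri) (serNets a b)) e A) {i j : Bool} (hij : i ≠ j)
    {d : (serNets a b i).1.D} {d' : (serNets a b j).1.D}
    (hd : CompInj.dt (C := ddCore tri) (serNets a b) i d ∈ A) :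
    ¬ (comp (ddCore tri) (serNets a b)).s.SameCycle
      (CompInj.dt (C := ddCore tri) (serNets a b) i d)
      (CompInj.dt (C := ddCore tri) (serNets a b) j d') := by
  intro hc
  have hC := dd_good tri_good
  obtain ⟨b₁, b₁', h1, h2, h3⟩ := sc_parts (C := ddCore tri) (N := serNets a b) hC hij hc
  exact pole_free (comp_good (ddCore tri) (serNets a b) hC) h hA hd
    ((sc_root (C := ddCore tri) (N := serNets a b) hC (b' := b₁)).2 ⟨b₁, h1, ARpar_sc i b₁⟩)

/-- one direction for one net -/
theorem ARpar_net {C : Core} {N : C.I → GB} {ψ : Perm C.toB.T} {e : Perm (comp C N).T}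
    (hC : C.toB.IsGood) (hcard : 2 ≤ Fintype.card C.I) (h : CTw true true C C N N ψ e) (i : C.I)
    (hψ : ψ (Sum.inl (i, true)) = Sum.inl (i, false)) {φ : Perm (N i).1.T}
    (hφ : TwI true true (N i).1 (N i).1 φ) (hR : ARed (comp C N) e) : ARed (N i).1 φ := by
  classical
  intro A' hA'
  set B : Finset (N i).1.D := univ.filter fun d => (Sum.inl d : (N i).1.T) ∈ A' with hB
  have hBA : dn B = A' := by
    ext t
    rcases t with d | b
    · simp [dn, hB]
    · have h3 : (Sum.inr b : (N i).1.T) ∉ A' := by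
        cases b
        · exact fun h4 => hA'.root ((hA'.cl (Sum.inr true)).1 h4)
        · exact hA'.root
      simp [dn, h3]
  have h5 := (ax_part hC hcard h (i := i) (b := true) (b' := false) hψ (φ := φ) hφ B).2
    (Or.inl (by rw [hBA]; exact hA'))
  have h6 := hR _ h5
  rw [← hBA]
  unfold dn
  rw [card_map]
  unfold upS at h6
  rw [card_map] at h6
  exact h6

/-- the other direction for one net -/
theorem ARpar_net' {C : Core} {N : C.I → GB} {ψ : Perm C.toB.T} {e : Perm (comp C N).T}
    (hC : C.toB.IsGood) (hcard : 2 ≤ Fintype.card C.I) (h : CTw true true C C N N ψ e) (i : C.I)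
    (hψ : ψ (Sum.inl (i, true)) = Sum.inl (i, false)) {φ : Perm (N i).1.T}
    (hφ : TwI true true (N i).1 (N i).1 φ) (hR : ARed (N i).1 φ) {A : Finset (comp C N).T}
    (hA : AxSet (comp C N) e A) (hsub : ∀ j d, CompInj.dt N j d ∈ A → j = i) : A.card = 2 := by
  classical
  set B : Finset (N i).1.D := univ.filter fun d => CompInj.dt N i d ∈ A with hB
  have hBA : upS N i B = A := by
    ext t
    unfold upS
    rw [mem_map]
    constructor
    · rintro ⟨d, hd, rfl⟩
      exact (mem_filter.1 hd).2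
    · intro ht
      obtain ⟨j, d, rfl⟩ | ⟨b', rfl⟩ := CompInj.cases_dt N t
      · obtain rfl := hsub j d ht
        exact ⟨d, mem_filter.2 ⟨mem_univ _, ht⟩, rfl⟩
      · exact absurd (Perm.SameCycle.refl _ _)
          (pole_free (comp_good C N hC) h.tw hA ht (b := b'))
  have h5 := (ax_part hC hcard h (i := i) (b := true) (b' := false) hψ (φ := φ) hφ B).1
    (by rw [hBA]; exact hA)
  rcases h5 with h5 | ⟨-, h5⟩
  · have h6 := hR _ h5
    rw [← hBA]
    unfold upS
    rw [card_map]
    unfold dn at h6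
    rw [card_map] at h6
    exact h6
  · cases h5

/-- The core `ddCore tri` has two vertices: `inr true, (true, true), (false, true)` and `inr false, (false, false), (true, false)`.  Proof.  It is enough (`ax_part`;
the alternative `b = b'` is excluded) to show that an `AxSet` `A` is inside one part.  Suppose it meets both parts, in `B₁`, `B₂`.  A boundary corner of `B₁` whose
other dart is in `B₂` would be at a vertex of the core, that is at the vertex of a root dart, impossible by `pole_free`.  So the boundary corners of `B₁` and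
of `B₂` are boundary corners of `A` and they are different; both sets have at least 4 (`NS`), so `cut A ≥ 8`. -/
theorem ared_bond {a b : GB} {ψ : Perm (ddCore tri).toB.T}
    {e : Perm (comp (ddCore tri) (serNets a b)).T}
    (h : CTw true true (ddCore tri) (ddCore tri) (serNets a b) (serNets a b) ψ e)
    (hψ : ∀ i b, ψ (Sum.inl (i, b)) = Sum.inl (i, !b))
    {φ : Perm a.1.T} (hφ : TwI true true a.1 a.1 φ) {χ : Perm b.1.T}
    (hχ : TwI true true b.1 b.1 χ) :
    ARed (comp (ddCore tri) (serNets a b)) e ↔ ARed a.1 φ ∧ ARed b.1 χ := by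
  have hC := dd_good tri_good
  have hcard : 2 ≤ Fintype.card (ddCore tri).I := by
    show 2 ≤ Fintype.card Bool
    decide
  classical
  constructor
  · intro hR
    exact ⟨ARpar_net (C := ddCore tri) (N := serNets a b) hC hcard h true (hψ true true) (φ := φ) hφ hR,
      ARpar_net (C := ddCore tri) (N := serNets a b) hC hcard h false (hψ false true) (φ := χ) hχ hR⟩
  · rintro ⟨hRa, hRb⟩ A hA
    have hM : (comp (ddCore tri) (serNets a b)).IsGood := comp_good _ _ hC
    set P : Bool → Finset (comp (ddCore tri) (serNets a b)).T := fun i =>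
      A.filter fun t => partOf (ddCore tri) (serNets a b) t = some i with hP
    have hPm : ∀ i t, t ∈ P i ↔ t ∈ A ∧ partOf (ddCore tri) (serNets a b) t = some i := by
      intro i t
      simp only [hP, mem_filter]
    have hcl : ∀ i, Cl (comp (ddCore tri) (serNets a b)).aa (P i) := by
      intro i t
      have hpa : partOf (ddCore tri) (serNets a b) ((comp (ddCore tri) (serNets a b)).aa t) =
          partOf (ddCore tri) (serNets a b) t := by
        rcases t with ⟨i, d⟩ | b <;> rfl
      rw [hPm, hPm, hA.cl t, hpa]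
    have hu : ∀ i, P i ≠ univ := by
      intro i hu
      have h3 : (Sum.inr true : (comp (ddCore tri) (serNets a b)).T) ∈ P i := by
        rw [hu]; exact mem_univ _
      exact hA.root ((hPm _ _).1 h3).1
    -- the neighbour of a dart of `P i`
    have hnb : ∀ (i : Bool) (x y : (comp (ddCore tri) (serNets a b)).T), x ∈ P i → y ∉ P i →
        (comp (ddCore tri) (serNets a b)).s.SameCycle x y → y ∉ A := by
      intro i x y hx hy hc hyA
      obtain ⟨hxA, hxi⟩ := (hPm _ _).1 hx
      obtain ⟨i', d0, rfl⟩ | ⟨b', rfl⟩ := CompInj.cases_dt (C := ddCore tri) (serNets a b) x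
      swap
      · cases hxi
      have hi' : i' = i := Option.some.inj hxi
      subst hi'
      obtain ⟨j, d1, rfl⟩ | ⟨b', rfl⟩ := CompInj.cases_dt (C := ddCore tri) (serNets a b) y
      · by_cases hj : j = i'
        · subst hj
          exact hy ((hPm _ _).2 ⟨hyA, rfl⟩)
        · exact ARpar_sep h.tw hA (Ne.symm hj) hxA hc
      · exact pole_free hM h.tw hA hyA (b := b') (Perm.SameCycle.refl _ _)
    have hbd : ∀ (i : Bool) z, z ∈ bd (comp (ddCore tri) (serNets a b)).s (P i) →
        z ∈ bd (comp (ddCore tri) (serNets a b)).s A ∧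
          (z ∈ P i ∨ (comp (ddCore tri) (serNets a b)).s z ∈ P i) ∧
          (z ∉ A ∨ (comp (ddCore tri) (serNets a b)).s z ∉ A) := by
      intro i z hz
      have hsz : (comp (ddCore tri) (serNets a b)).s.SameCycle z
        ((comp (ddCore tri) (serNets a b)).s z) := ⟨1, by simp⟩
      rw [mem_bd] at hz
      by_cases hzB : z ∈ P i
      · have hsB : (comp (ddCore tri) (serNets a b)).s z ∉ P i :=
          fun h4 => hz ⟨fun _ => h4, fun _ => hzB⟩
        have h5 := hnb i _ _ hzB hsB hsz
        refine ⟨?_, Or.inl hzB, Or.inr h5⟩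
        rw [mem_bd]
        exact fun h6 => h5 (h6.1 ((hPm _ _).1 hzB).1)
      · have hsB : (comp (ddCore tri) (serNets a b)).s z ∈ P i := by
          by_contra h4
          exact hz ⟨fun h5 => absurd h5 hzB, fun h5 => absurd h5 h4⟩
        have h5 := hnb i _ _ hsB hzB hsz.symm
        refine ⟨?_, Or.inr hsB, Or.inl h5⟩
        rw [mem_bd]
        exact fun h6 => h5 (h6.2 ((hPm _ _).1 hsB).1)
    have hdis : ∀ t, t ∈ P true → t ∉ P false := by
      intro t h1 h2
      have h3 := ((hPm _ _).1 h1).2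
      rw [((hPm _ _).1 h2).2] at h3
      cases h3
    by_cases ht : (P true).Nonempty
    · by_cases hf : (P false).Nonempty
      · exfalso
        have c1 : 4 ≤ (bd (comp (ddCore tri) (serNets a b)).s (P true)).card :=
          hM.ns _ (hcl true) ht (hu true)
        have c2 : 4 ≤ (bd (comp (ddCore tri) (serNets a b)).s (P false)).card :=
          hM.ns _ (hcl false) hf (hu false)
        have hd : Disjoint (bd (comp (ddCore tri) (serNets a b)).s (P true))
            (bd (comp (ddCore tri) (serNets a b)).s (P false)) := by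
          rw [Finset.disjoint_left]
          intro z h1 h2
          obtain ⟨-, e1, e2⟩ := hbd true z h1
          obtain ⟨-, e3, e4⟩ := hbd false z h2
          have q1 : ∀ i t, t ∈ P i → t ∈ A := fun i t ht => ((hPm i t).1 ht).1
          rcases e1 with e1 | e1
          · rcases e3 with e3 | e3
            · exact hdis z e1 e3
            · rcases e2 with e2 | e2
              · exact e2 (q1 _ _ e1)
              · exact e2 (q1 _ _ e3)
          · rcases e3 with e3 | e3
            · rcases e2 with e2 | e2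
              · exact e2 (q1 _ _ e3)
              · exact e2 (q1 _ _ e1)
            · exact hdis _ e1 e3
        have hsub : bd (comp (ddCore tri) (serNets a b)).s (P true) ∪
            bd (comp (ddCore tri) (serNets a b)).s (P false) ⊆
              bd (comp (ddCore tri) (serNets a b)).s A := by
          intro z hz
          rcases mem_union.1 hz with hz | hz
          · exact (hbd _ z hz).1
          · exact (hbd _ z hz).1
        have h8 := card_le_card hsub
        rw [card_union_of_disjoint hd] at h8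
        have h9 : (bd (comp (ddCore tri) (serNets a b)).s A).card = 4 := hA.cut4
        omega
      · refine ARpar_net' (C := ddCore tri) (N := serNets a b) hC hcard h true (hψ true true) (φ := φ) hφ hRa hA ?_
        intro j d hjd
        cases j
        · exact absurd ⟨_, (hPm false _).2 ⟨hjd, rfl⟩⟩ hf
        · rfl
    · refine ARpar_net' (C := ddCore tri) (N := serNets a b) hC hcard h false (hψ false true) (φ := χ) hχ hRb hA ?_
      intro j d hjd
      cases j
      · rfl
      · exact absurd ⟨_, (hPm true _).2 ⟨hjd, rfl⟩⟩ ht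

end PGr

end

section
/-! # Module SerAlg: the algebra of series compositions of classes -/

set_option linter.unusedSectionVars false

namespace PGr
open Equiv Finset

/-- `serMap_iso` -/
theorem serC_mk (a b : GB) :
    serC (ESum.cl a) (ESum.cl b) = ESum.cl ⟨serMap a b, serMap_good _ _⟩ :=
  cl_eq_iff.2 (serMap_iso (ESum.rep_iso a) (ESum.rep_iso b))

theorem SerAlg_left (a k b : GC) : serC (serC a k) b =
    ESum.cl ⟨comp quad (nets3 a.rep k.rep b.rep), comp_good _ _ quad_good⟩ := by
  have h1 : serC (serC a k) b = ESum.cl ⟨serMap ⟨serMap a.rep k.rep, serMap_good _ _⟩ b.rep,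
      serMap_good _ _⟩ := by
    conv_lhs => rw [← cl_rep b]
    exact serC_mk _ _
  rw [h1, cl_eq_iff]
  exact ser_quad_left a.rep k.rep b.rep

theorem serC_quad (a k b : GC) : serC a (serC k b) =
    ESum.cl ⟨comp quad (nets3 a.rep k.rep b.rep), comp_good _ _ quad_good⟩ := by
  have h1 : serC a (serC k b) = ESum.cl ⟨serMap a.rep ⟨serMap k.rep b.rep, serMap_good _ _⟩,
      serMap_good _ _⟩ := by
    conv_lhs => rw [← cl_rep a]
    exact serC_mk _ _
  rw [h1, cl_eq_iff]
  exact ser_quad_right a.rep k.rep b.rep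

theorem serC_assoc (a k b : GC) : serC (serC a k) b = serC a (serC k b) :=
  (SerAlg_left a k b).trans (serC_quad a k b).symm

theorem SerAlg_iso (a b : GC) : BIso (serC a b).rep.1 (serMap a.rep b.rep) := ESum.rep_iso _

theorem isSer_serC (a b : GC) : IsSer (serC a b).rep.1 :=
  (SerAlg_iso a b).symm.ser (serMap_isSer _ _)

/-- `serMap_inj` -/
theorem serC_inj {a b a' b' : GC} (ha : ¬ IsSer a.rep.1) (ha' : ¬ IsSer a'.rep.1)
    (h : serC a b = serC a' b') : a = a' ∧ b = b' := by
  have h1 : BIso (serMap a.rep b.rep) (serMap a'.rep b'.rep) := by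
    refine ((SerAlg_iso a b).symm).trans ?_
    rw [h]
    exact SerAlg_iso a' b'
  obtain ⟨h4, h5⟩ := serMap_inj ha ha' h1
  exact ⟨ESum.eq_of_iso h4, ESum.eq_of_iso h5⟩

/-- as in `SumB.ser_sum` -/
theorem exists_serC {x : GC} (h : IsSer x.rep.1) : ∃ a b, ¬ IsSer a.rep.1 ∧ x = serC a b := by
  obtain ⟨N₁, N₂, h1, h2⟩ := exists_serMap x.rep.2 h
  have e1 := ESum.rep_iso N₁
  have e2 := ESum.rep_iso N₂
  refine ⟨ESum.cl N₁, ESum.cl N₂, fun hs => h1 (e1.ser hs), ?_⟩
  apply ESum.eq_of_iso
  exact (h2.trans (serMap_iso e1 e2).symm).trans (SerAlg_iso _ _).symm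

theorem SerAlg_tri : ∀ t, tri.s t = tri.s⁻¹ t := by
  have h : ∀ t, tri.s (tri.s t) = t := by
    decide
  intro t
  rw [eq_comm, Perm.inv_eq_iff_eq]
  exact (h t).symm

theorem SerAlg_tri' (m : Bool) (t : tri.toB.T) : tri.s t = twS m tri.s t := by
  cases m
  · rfl
  · exact SerAlg_tri t

theorem SerAlg_id (m : Bool) : TwI m false tri.toB tri.toB (Equiv.refl _) :=
  ⟨fun _ => rfl, fun t => SerAlg_tri' m t, fun b => by cases b <;> rfl⟩

/-- the flip of the triangle -/
def SerAlg_flip : tri.toB.T ≃ tri.toB.T where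
  toFun
    | Sum.inl (i, b) => Sum.inl (!i, !b)
    | Sum.inr b => Sum.inr (!b)
  invFun
    | Sum.inl (i, b) => Sum.inl (!i, !b)
    | Sum.inr b => Sum.inr (!b)
  left_inv := by
    rintro (⟨i, b⟩ | b) <;> cases b <;> (try cases i) <;> rfl
  right_inv := by
    rintro (⟨i, b⟩ | b) <;> cases b <;> (try cases i) <;> rfl

theorem SerAlg_flip_s : ∀ t : (Bool × Bool) ⊕ Bool, SerAlg_flip (tri.s t) = tri.s (SerAlg_flip t) := by
  decide

theorem SerAlg_flip_tw (m : Bool) : TwI m true tri.toB tri.toB SerAlg_flip := by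
  refine ⟨?_, fun t => ?_, fun b => by cases b <;> rfl⟩
  · rintro (⟨i, b⟩ | b)
    · rfl
    · rfl
  · show SerAlg_flip (tri.s t) = twS m tri.s (SerAlg_flip t)
    rw [← SerAlg_tri' m]
    exact SerAlg_flip_s t

/-- `ctwist` for the core `tri`, or `ctw_mk` with the map `ψ` of `tri`: the identity -/
theorem twC_serC_false (m : Bool) (a b : GC) :
    twC m false (serC a b) = serC (twC m false a) (twC m false b) := by
  obtain ⟨φ, hφ⟩ := twC_eq_iff.1 (rfl : twC m false a = twC m false a)
  obtain ⟨χ, hχ⟩ := twC_eq_iff.1 (rfl : twC m false b = twC m false b)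
  obtain ⟨e, he⟩ := ctw_mk (N := serNets a.rep b.rep)
    (N' := serNets (twC m false a).rep (twC m false b).rep) (SerAlg_id m) (by
      intro i b₁ i' b' h
      have h1 : (i, b₁) = (i', b') := Sum.inl_injective h
      obtain ⟨rfl, rfl⟩ := Prod.mk.inj h1
      rw [Bool.xor_self]
      cases i
      · exact ⟨χ, hχ⟩
      · exact ⟨φ, hφ⟩)
  obtain ⟨κ, hκ⟩ := BIso_iff.1 (SerAlg_iso (twC m false a) (twC m false b))
  refine tw_cl_iff.2 ⟨e.trans κ.symm, ?_⟩
  have h2 := he.tw.trans hκ.symm
  rw [Bool.xor_false, Bool.xor_false] at h2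
  exact h2

/-- `ctw_mk` with `ψ (inl (i, b)) = inl (!i, !b)`, `ψ (inr b) = inr (!b)` (a symmetry of `tri`, mirrored or not: `tri.s` is an
involution) -/
theorem twC_serC_true (m : Bool) (a b : GC) :
    twC m true (serC a b) = serC (twC m true b) (twC m true a) := by
  obtain ⟨φ, hφ⟩ := twC_eq_iff.1 (rfl : twC m true a = twC m true a)
  obtain ⟨χ, hχ⟩ := twC_eq_iff.1 (rfl : twC m true b = twC m true b)
  obtain ⟨e, he⟩ := ctw_mk (N := serNets a.rep b.rep)
    (N' := serNets (twC m true b).rep (twC m true a).rep) (SerAlg_flip_tw m) (by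
      intro i b₁ i' b' h
      have h1 : (!i, !b₁) = (i', b') := Sum.inl_injective h
      obtain ⟨rfl, rfl⟩ := Prod.mk.inj h1
      have h3 : xor b₁ (!b₁) = true := by cases b₁ <;> rfl
      rw [h3]
      cases i
      · exact ⟨χ, hχ⟩
      · exact ⟨φ, hφ⟩)
  obtain ⟨κ, hκ⟩ := BIso_iff.1 (SerAlg_iso (twC m true b) (twC m true a))
  refine tw_cl_iff.2 ⟨e.trans κ.symm, ?_⟩
  have h2 := he.tw.trans hκ.symm
  rw [Bool.xor_false, Bool.xor_false] at h2
  exact h2

theorem SerAlg_ser (m c : Bool) (x : GC) : IsSer (twC m c x).rep.1 ↔ IsSer x.rep.1 := by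
  obtain ⟨φ, hφ⟩ := twC_eq_iff.1 (rfl : twC m c x = twC m c x)
  exact (isSer_tw x.rep.2 hφ).symm

/-- apply `twC false true` and `serC_inj` -/
theorem serC_right_inj {k k' z : GC} (hz : ¬ IsSer z.rep.1) (h : serC k z = serC k' z) :
    k = k' := by
  have h1 := congrArg (twC false true) h
  rw [twC_serC_true, twC_serC_true] at h1
  have hz' : ¬ IsSer (twC false true z).rep.1 := by rwa [SerAlg_ser]
  have h2 := (serC_inj hz' hz' h1).2
  rw [← twC_inv false true k, h2, twC_inv]

/-- Proof.  Let `t x = twC m true x` (an involution), `t (serC a b) = serC (t b) (t a)`.  If `t b` is not series then `a = t b` (`serC_inj`).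
Otherwise `t b = serC a' k` with `a'` not series, `serC a b = serC (serC a' k) (t a) = serC a' (serC k (t a))`, so `a = a'`, `b = serC k (t a)`; then
`t b = serC a (t k)`, so `k = t k`. -/
theorem sym_ser {m : Bool} {a b : GC} (ha : ¬ IsSer a.rep.1)
    (h : twC m true (serC a b) = serC a b) :
    b = twC m true a ∨ ∃ k, twC m true k = k ∧ b = serC k (twC m true a) := by
  rw [twC_serC_true] at h
  by_cases hb : IsSer (twC m true b).rep.1
  · right
    obtain ⟨a', k, ha', hk⟩ := exists_serC hb
    rw [hk, serC_assoc] at h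
    obtain ⟨h1, h2⟩ := serC_inj ha' ha h
    subst h1
    refine ⟨k, ?_, h2.symm⟩
    rw [← h2, twC_serC_true, twC_inv] at hk
    exact (serC_inj ha' ha' hk).2
  · left
    obtain ⟨h1, -⟩ := serC_inj hb ha h
    rw [← h1, twC_inv]

end PGr

end

section
/-! # Module DualC: duality of classes, the algebra of parallel compositions -/

set_option linter.unusedSectionVars false

namespace PGr
open Equiv Finset

/-- dual of an isomorphism -/
theorem DualC_iso {M N : GB} (h : BIso M.1 N.1) : BIso M.dual.1 N.dual.1 := by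
  obtain ⟨φ, hφ⟩ := BIso_iff.1 h
  exact BIso_iff.2 ⟨_, TwI.dual M.2 hφ⟩

theorem dC_cl (M : GB) : dC (ESum.cl M) = ESum.cl M.dual := by
  unfold dC
  rw [cl_eq_iff]
  exact DualC_iso (ESum.rep_iso M)

theorem dC_dC (x : GC) : dC (dC x) = x := by
  conv_lhs => rw [← cl_rep x]
  rw [dC_cl, dC_cl]
  conv_rhs => rw [← cl_rep x]
  exact congrArg ESum.cl (Subtype.ext (dual_dual x.rep.2))

/-- `TwI.dual` -/
theorem dC_twC (m c : Bool) (x : GC) : dC (twC m c x) = twC m (xor c m) (dC x) := by
  symm
  unfold dC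
  rw [tw_cl_iff]
  obtain ⟨φ, hφ⟩ := twC_eq_iff.1 (rfl : twC m c x = twC m c x)
  have h1 := TwI.dual x.rep.2 hφ
  obtain ⟨χ, hχ⟩ := BIso_iff.1 (ESum.rep_iso (twC m c x).rep.dual)
  have h2 := h1.trans hχ.symm
  rw [Bool.xor_false, Bool.xor_false] at h2
  exact ⟨_, h2⟩

theorem DualC_inj {x y : GC} (h : dC x = dC y) : x = y := by
  rw [← dC_dC x, h, dC_dC]

theorem isPar_iff_dC (x : GC) : IsPar x.rep.1 ↔ IsSer (dC x).rep.1 := by
  obtain ⟨φ, hφ⟩ := BIso_iff.1 (ESum.rep_iso x.rep.dual)
  exact (isSer_tw (dC x).rep.2 hφ).symm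

theorem parC_dC (a b : GC) : parC a b = dC (serC (dC a) (dC b)) := by
  have h : serC (dC a) (dC b) =
      ESum.cl ⟨serMap a.rep.dual b.rep.dual, serMap_good _ _⟩ := serC_mk _ _
  rw [h, dC_cl]
  rfl

theorem DualC_par (a b : GC) : dC (parC a b) = serC (dC a) (dC b) := by
  rw [parC_dC, dC_dC]

theorem isPar_parC (a b : GC) : IsPar (parC a b).rep.1 := by
  rw [isPar_iff_dC, DualC_par]
  exact isSer_serC _ _

theorem DualC_not {a : GC} (ha : ¬ IsPar a.rep.1) : ¬ IsSer (dC a).rep.1 := by
  rwa [← isPar_iff_dC]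

theorem parC_inj {a b a' b' : GC} (ha : ¬ IsPar a.rep.1) (ha' : ¬ IsPar a'.rep.1)
    (h : parC a b = parC a' b') : a = a' ∧ b = b' := by
  have h1 := congrArg dC h
  rw [DualC_par, DualC_par] at h1
  obtain ⟨h2, h3⟩ := serC_inj (DualC_not ha) (DualC_not ha') h1
  exact ⟨DualC_inj h2, DualC_inj h3⟩

theorem DualC_ser (a b : GC) : dC (serC a b) = parC (dC a) (dC b) := by
  rw [parC_dC, dC_dC, dC_dC]

theorem exists_parC {x : GC} (h : IsPar x.rep.1) : ∃ a b, ¬ IsPar a.rep.1 ∧ x = parC a b := by
  obtain ⟨a, b, ha, hx⟩ := exists_serC ((isPar_iff_dC x).1 h)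
  refine ⟨dC a, dC b, ?_, ?_⟩
  · rw [isPar_iff_dC, dC_dC]
    exact ha
  · rw [← DualC_ser, ← hx, dC_dC]

theorem DualC_xor (m : Bool) : xor m m = false := by cases m <;> rfl
theorem DualC_xor' (m : Bool) : xor (!m) m = true := by cases m <;> rfl

/-- `dC_twC`, `twC_serC_false`: here `xor c m = false` -/
theorem twC_parC_eq (m : Bool) (a b : GC) :
    twC m m (parC a b) = parC (twC m m a) (twC m m b) := by
  refine DualC_inj ?_
  rw [dC_twC, DualC_xor, DualC_par, twC_serC_false, DualC_par, dC_twC, dC_twC, DualC_xor]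

/-- here `xor c m = true` -/
theorem twC_parC_ne (m : Bool) (a b : GC) :
    twC m (!m) (parC a b) = parC (twC m (!m) b) (twC m (!m) a) := by
  refine DualC_inj ?_
  rw [dC_twC, DualC_xor', DualC_par, twC_serC_true, DualC_par, dC_twC, dC_twC, DualC_xor']

theorem sym_par {m : Bool} {a b : GC} (ha : ¬ IsPar a.rep.1)
    (h : twC m (!m) (parC a b) = parC a b) :
    b = twC m (!m) a ∨ ∃ k, twC m (!m) k = k ∧ b = parC k (twC m (!m) a) := by
  have h1 := congrArg dC h
  rw [dC_twC, DualC_xor', DualC_par] at h1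
  rcases sym_ser (DualC_not ha) h1 with h2 | ⟨k, h2, h3⟩
  · left
    refine DualC_inj ?_
    rw [h2, dC_twC, DualC_xor']
  · right
    refine ⟨dC k, ?_, ?_⟩
    · refine DualC_inj ?_
      rw [dC_twC, DualC_xor', dC_dC, h2]
    · refine DualC_inj ?_
      rw [h3, DualC_par, dC_dC, dC_twC, DualC_xor']

theorem parC_right_inj {k k' z : GC} (hz : ¬ IsPar z.rep.1) (h : parC k z = parC k' z) :
    k = k' := by
  have h1 := congrArg dC h
  rw [DualC_par, DualC_par] at h1
  exact DualC_inj (serC_right_inj (DualC_not hz) h1)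

end PGr

end

section
/-! # Module ValP: weights of symmetric parallel maps, crossing root edge -/

set_option linter.unusedSectionVars false

namespace PGr
open Equiv Finset
open scoped ENNReal

/-- the symmetry of the bond which exchanges the two darts of every edge -/
def ValP_psi : Perm ((Bool × Bool) ⊕ Bool) :=
  Perm.sumCongr (Equiv.prodCongr (Equiv.refl Bool) Equiv.boolNot) Equiv.boolNot

theorem ValP_psi_inl (i b : Bool) : ValP_psi (Sum.inl (i, b)) = Sum.inl (i, !b) := rfl

def ValP_s : Perm ((Bool × Bool) ⊕ Bool) := (ddCore tri).s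

theorem ValP_rot : ∀ t : (Bool × Bool) ⊕ Bool,
    ValP_s (ValP_psi (ValP_s t)) = ValP_psi t := by
  decide

theorem ValP_nbi : ∀ t : (Bool × Bool) ⊕ Bool, ¬ (ValP_psi t = ValP_s t) := by
  decide

theorem ValP_aa : ∀ t : (Bool × Bool) ⊕ Bool,
      ValP_psi (ext (Equiv.prodCongr (Equiv.refl Bool) Equiv.boolNot) t) =
        ext (Equiv.prodCongr (Equiv.refl Bool) Equiv.boolNot) (ValP_psi t) := by decide

theorem ValP_tw : TwI true true (ddCore tri).toB (ddCore tri).toB ValP_psi where
  aa := ValP_aa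
  rot t := by
    rw [twS_true, Perm.eq_inv_iff_eq]
    exact ValP_rot t
  root b := by cases b <;> rfl

theorem ValP_nBi0 : nBi (ddCore tri).toB ValP_psi = 0 := by
  unfold nBi
  rw [card_eq_zero, filter_eq_empty_iff]
  intro t _
  exact ValP_nbi t

/-- the nets of a bond -/
def ValP_N (A B : GB) : (ddCore tri).I → GB := serNets A B

theorem ValP_ctw {A B : GB} {φ : Perm A.1.T} (hφ : TwI true true A.1 A.1 φ) {χ : Perm B.1.T}
    (hχ : TwI true true B.1 B.1 χ) : ∃ e, CTw true true (ddCore tri) (ddCore tri) (ValP_N A B)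
      (ValP_N A B) ValP_psi e := by
  refine ctw_mk (C := ddCore tri) (C' := ddCore tri) ValP_tw ?_
  intro (i : Bool) b₁ (i' : Bool) b' h
  have h1 : (Sum.inl (i, !b₁) : (Bool × Bool) ⊕ Bool) = Sum.inl (i', b') := h
  obtain ⟨h2, h3⟩ := Prod.mk.inj (Sum.inl.inj h1)
  subst h2
  subst h3
  have hx : xor b₁ (!b₁) = true := by cases b₁ <;> rfl
  rw [hx]
  cases i
  · exact ⟨χ, hχ⟩
  · exact ⟨φ, hφ⟩

open scoped Classical

/-- If `a`, `b` are both symmetric (`twC true true`): `par_bond`, `ctw_mk` with the core `ddCore tri` and `ψ (inl (i, b)) = inl (i, !b)`, `ψ (inr b) = inr (!b)`; no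
bisected corners, `nV = 2` (`bond_nV`), `ared_bond`.  Otherwise both sides are 0: `twC_parC_eq`, `parC_inj` (`isPar_twC`). -/
theorem sw_par (w : Wt) {a : GC} (ha : ¬ IsPar a.rep.1) (b : GC) :
    sw w true (parC a b).rep.1 = sw w true a.rep.1 * sw w true b.rep.1 := by
  by_cases hs : twC true true a = a ∧ twC true true b = b
  · obtain ⟨φ, hφ⟩ := (sym_iff true a).2 hs.1
    obtain ⟨χ, hχ⟩ := (sym_iff true b).2 hs.2
    have hiso : BIso (parC a b).rep.1 (comp (ddCore tri) (ValP_N a.rep b.rep)) :=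
      ((ESum.rep_iso ⟨parMap a.rep b.rep, parMap_good _ _⟩)).trans (par_bond a.rep b.rep)
    rw [sw_iso w true hiso]
    obtain ⟨e, he⟩ := ValP_ctw hφ hχ
    have hgd : (comp (ddCore tri) (ValP_N a.rep b.rep)).IsGood :=
      comp_good _ _ (dd_good tri_good)
    rw [sw_of w hgd he.tw, sw_of w a.rep.2 hφ, sw_of w b.rep.2 hχ]
    have hA : ARed (comp (ddCore tri) (ValP_N a.rep b.rep)) e ↔ ARed a.rep.1 φ ∧ ARed b.rep.1 χ :=
      ared_bond he ValP_psi_inl hφ hχ
    have hV := Vw_comp (dd_good tri_good) he w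
    rw [ValP_nBi0, bond_nV] at hV
    have hpv : ∀ i : Bool, pv w (ddCore tri) ValP_psi i (ValP_N a.rep b.rep i).1 =
        sv w true (ValP_N a.rep b.rep i).1 := by
      intro i
      have h1 : ValP_psi (Sum.inl (i, true)) = Sum.inl (i, false) := rfl
      have h2 : ¬ ValP_psi (Sum.inl (i, true)) = Sum.inl (i, true) := by
        rw [h1]; simp
      exact (if_neg h2).trans (if_pos h1)
    have hprod : (∏ i : (ddCore tri).I, pv w (ddCore tri) ValP_psi i (ValP_N a.rep b.rep i).1) =
        Vw w a.rep.1 φ * Vw w b.rep.1 χ := by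
      have h1 : (∏ i : (ddCore tri).I, pv w (ddCore tri) ValP_psi i (ValP_N a.rep b.rep i).1) =
        pv w (ddCore tri) ValP_psi true (ValP_N a.rep b.rep true).1 *
        pv w (ddCore tri) ValP_psi false (ValP_N a.rep b.rep false).1 :=
        Fintype.prod_bool (fun i : Bool => pv w (ddCore tri) ValP_psi i (ValP_N a.rep b.rep i).1)
      rw [h1, hpv, hpv]
      show sv w true a.rep.1 * sv w true b.rep.1 = _
      rw [sv_of w a.rep.2 hφ, sv_of w b.rep.2 hχ]
    rw [hprod] at hV
    by_cases h1 : ARed a.rep.1 φ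
    · by_cases h2 : ARed b.rep.1 χ
      · rw [if_pos (hA.2 ⟨h1, h2⟩), if_pos h1, if_pos h2, hV]
        simp
      · rw [if_neg (fun h => h2 (hA.1 h).2), if_neg h2, mul_zero]
    · rw [if_neg (fun h => h1 (hA.1 h).1), if_neg h1, zero_mul]
  · have hl : ¬ ∃ e : Perm (parC a b).rep.1.T, TwI true true (parC a b).rep.1 (parC a b).rep.1 e := by
      intro h
      have h1 := (sym_iff true (parC a b)).1 h
      rw [twC_parC_eq true a b] at h1
      have h2 := parC_inj (fun h3 => ha ((isPar_twC true true a).1 h3)) ha h1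
      exact hs h2
    rw [sw_none w hl]
    by_cases h1 : twC true true a = a
    · have h2 : ¬ twC true true b = b := fun h2 => hs ⟨h1, h2⟩
      rw [sw_none w (M := b.rep.1) (c := true) (fun h => h2 ((sym_iff true b).1 h)), mul_zero]
    · rw [sw_none w (M := a.rep.1) (c := true) (fun h => h1 ((sym_iff true a).1 h)), zero_mul]

end PGr

end

section
/-! # Module ValS: weights of symmetric series maps -/

set_option linter.unusedSectionVars false

namespace PGr

section ValS_dec
open Equiv Finset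

private def ValS_s2 : Perm ((Bool × Bool) ⊕ Bool) := tri.s

private def ValS_f2 : Perm ((Bool × Bool) ⊕ Bool) :=
  Perm.sumCongr (Equiv.prodCongr Equiv.boolNot Equiv.boolNot) Equiv.boolNot

/-- the reflection of the triangle -/
private def ValS_psi2 : Perm tri.toB.T := ValS_f2

private theorem ValS_psi2_inl (i b : Bool) : ValS_psi2 (Sum.inl (i, b)) = Sum.inl (!i, !b) := rfl

private theorem ValS_psi2_tw : TwI true true tri.toB tri.toB ValS_psi2 := by
  refine ⟨?_, ?_, ?_⟩
  · rintro (⟨i, b⟩ | b) <;> rfl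
  · intro t
    rw [twS_true, Perm.eq_inv_iff_eq]
    have : ∀ t : (Bool × Bool) ⊕ Bool, ValS_s2 (ValS_f2 (ValS_s2 t)) = ValS_f2 t := by
      decide
    exact this t
  · intro b
    cases b <;> rfl

private theorem ValS_nBi2 : nBi tri.toB ValS_psi2 = 2 := by
  have : (univ.filter fun t : (Bool × Bool) ⊕ Bool => ValS_f2 t = ValS_s2 t).card = 2 := by decide
  exact this

private def ValS_rev : Perm (Fin 3) := swap 0 2

private def ValS_s3 : Perm ((Fin 3 × Bool) ⊕ Bool) := quad.s

private def ValS_f3 : Perm ((Fin 3 × Bool) ⊕ Bool) :=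
  Perm.sumCongr (Equiv.prodCongr ValS_rev Equiv.boolNot) Equiv.boolNot

/-- the reflection of the quadrangle -/
private def ValS_psi3 : Perm quad.toB.T := ValS_f3

private theorem ValS_psi3_tw : TwI true true quad.toB quad.toB ValS_psi3 := by
  refine ⟨?_, ?_, ?_⟩
  · rintro (⟨i, b⟩ | b) <;> rfl
  · intro t
    rw [twS_true, Perm.eq_inv_iff_eq]
    have : ∀ t : (Fin 3 × Bool) ⊕ Bool, ValS_s3 (ValS_f3 (ValS_s3 t)) = ValS_f3 t := by
      decide
    exact this t
  · intro b
    cases b <;> rfl

private theorem ValS_nBi3 : nBi quad.toB ValS_psi3 = 0 := by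
  have : (univ.filter fun t : (Fin 3 × Bool) ⊕ Bool => ValS_f3 t = ValS_s3 t).card = 0 := by decide
  exact this

end ValS_dec

open Equiv Finset
open scoped ENNReal Classical

/-- Let `N = ![a.rep, (twC true true a).rep]`.  `ctw_mk` with the core `tri` and `ψ (inl (i, b)) = inl (!i, !b)`, `ψ (inr b) = inr (!b)` gives a reflection `e` of `serMap` with
`CTw`; `sw_iso`, `sw_of`, `ared_tri`, `Vw_comp`: two bisected corners of `tri`, `nV tri.s = 3` (`tri_nV`), both factors `pv` are `hW w a.rep`
(`hW_twC`) -/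
theorem sw_ser2 (w : Wt) (a : GC) : sw w true (serC a (twC true true a)).rep.1 =
    w.bi ^ 2 * w.vx * hW w a.rep.1 ^ 2 := by
  set b := twC true true a with hb
  have e1 : sw w true (serC a b).rep.1 = sw w true (comp tri (serNets a.rep b.rep)) :=
    sw_iso w true (ESum.rep_iso _)
  obtain ⟨φ, hφ⟩ := twC_eq_iff.1 hb.symm
  obtain ⟨e, he⟩ := ctw_mk (N := serNets a.rep b.rep) (N' := serNets a.rep b.rep)
    ValS_psi2_tw (by
      intro i x i' x' hi
      change (Sum.inl (!i, !x) : tri.toB.T) = Sum.inl (i', x') at hi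
      have h2 := Sum.inl_injective hi
      have h3 : (!i) = i' := congrArg Prod.fst h2
      have h4 : (!x) = x' := congrArg Prod.snd h2
      have h5 : xor x x' = true := by rw [← h4]; cases x <;> rfl
      rw [h5, ← h3]
      cases i with
      | true => exact ⟨φ, hφ⟩
      | false => exact ⟨φ.symm, hφ.symm⟩)
  have hg : (comp tri (serNets a.rep b.rep)).IsGood := comp_good _ _ tri_good
  have hne : ∀ (i : Bool) (M : BMap), pv w tri ValS_psi2 i M = hW w M := by
    intro i M
    have h1 : ¬ ValS_psi2 (Sum.inl (i, true)) = Sum.inl (i, true) := by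
      intro h
      have h2 : (!i) = i := congrArg Prod.fst (Sum.inl_injective h)
      cases i <;> cases h2
    have h2 : ¬ ValS_psi2 (Sum.inl (i, true)) = Sum.inl (i, false) := by
      intro h
      have h2 : (!i) = i := congrArg Prod.fst (Sum.inl_injective h)
      cases i <;> cases h2
    unfold pv
    exact (if_neg h1).trans (if_neg h2)
  have hpr : ∏ i : tri.I, pv w tri ValS_psi2 i (serNets a.rep b.rep i).1 =
      hW w a.rep.1 * hW w b.rep.1 := by
    have h1 : ∏ i : tri.I, pv w tri ValS_psi2 i (serNets a.rep b.rep i).1 =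
        ∏ i : Bool, hW w (serNets a.rep b.rep i).1 :=
      Finset.prod_congr rfl fun i _ => hne i _
    rw [h1, Fintype.prod_bool]
    rfl
  rw [e1, sw_of w hg he.tw, if_pos (ared_tri he ValS_psi2_inl), Vw_comp tri_good he w, ValS_nBi2,
    tri_nV, hpr, hb, hW_twC]
  ring

/-- If `k` is not symmetric (`twC true true k ≠ k`) both sides are 0: if the left map is symmetric then `serC a (serC k (twC true true a)) =
serC a (serC (twC true true k) (twC true true a))` (`twC_serC_true`, `serC_assoc`), so `k = twC true true k` by `serC_inj`, `serC_right_inj`.  Otherwise `serC_quad`,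
`ctw_mk` with the core `quad` and `ψ` as in `ared_quad`; no bisected corners, `nV = 4` (`quad_nV`). -/
theorem sw_ser3 (w : Wt) {a : GC} (ha : ¬ IsSer a.rep.1) (k : GC) :
    sw w true (serC a (serC k (twC true true a))).rep.1 =
      w.vx ^ 2 * hW w a.rep.1 ^ 2 * sw w true k.rep.1 := by
  set b := twC true true a with hb
  have hbt : twC true true b = a := by rw [hb, twC_inv]
  by_cases hk : twC true true k = k
  · have e1 : sw w true (serC a (serC k b)).rep.1 =
        sw w true (comp quad (nets3 a.rep k.rep b.rep)) := by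
      rw [serC_quad]
      exact sw_iso w true (ESum.rep_iso _)
    obtain ⟨φ, hφ⟩ := twC_eq_iff.1 hb.symm
    obtain ⟨χ, hχ⟩ := twC_eq_iff.1 hk
    obtain ⟨e, he⟩ := ctw_mk (N := nets3 a.rep k.rep b.rep) (N' := nets3 a.rep k.rep b.rep)
      ValS_psi3_tw (by
        intro i x i' x' hi
        change (Sum.inl (ValS_rev i, !x) : quad.toB.T) = Sum.inl (i', x') at hi
        have h2 := Sum.inl_injective hi
        have h3 : ValS_rev i = i' := congrArg Prod.fst h2
        have h4 : (!x) = x' := congrArg Prod.snd h2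
        have h5 : xor x x' = true := by rw [← h4]; cases x <;> rfl
        rw [h5, ← h3]
        have hi3 : ∀ j : Fin 3, ∃ φ, TwI true true (nets3 a.rep k.rep b.rep j).1
            (nets3 a.rep k.rep b.rep (ValS_rev j)).1 φ := by
          intro j
          fin_cases j
          · exact ⟨φ, hφ⟩
          · exact ⟨χ, hχ⟩
          · exact ⟨φ.symm, hφ.symm⟩
        exact hi3 i)
    have hg : (comp quad (nets3 a.rep k.rep b.rep)).IsGood := comp_good _ _ quad_good
    have hpr : ∏ i : quad.I, pv w quad ValS_psi3 i (nets3 a.rep k.rep b.rep i).1 =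
        hW w a.rep.1 * Vw w k.rep.1 χ * hW w b.rep.1 := by
      have h0 : pv w quad ValS_psi3 (0 : Fin 3) a.rep.1 = hW w a.rep.1 := by
        have h1 : ¬ ValS_psi3 (Sum.inl ((0 : Fin 3), true)) = Sum.inl ((0 : Fin 3), true) := by
          intro h
          have h2 : (2 : Fin 3) = 0 := congrArg Prod.fst (Sum.inl_injective h)
          exact absurd h2 (by decide)
        have h2 : ¬ ValS_psi3 (Sum.inl ((0 : Fin 3), true)) = Sum.inl ((0 : Fin 3), false) := by
          intro h
          have h2 : (2 : Fin 3) = 0 := congrArg Prod.fst (Sum.inl_injective h)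
          exact absurd h2 (by decide)
        unfold pv
        exact (if_neg h1).trans (if_neg h2)
      have h2' : pv w quad ValS_psi3 (2 : Fin 3) b.rep.1 = hW w b.rep.1 := by
        have h1 : ¬ ValS_psi3 (Sum.inl ((2 : Fin 3), true)) = Sum.inl ((2 : Fin 3), true) := by
          intro h
          have h2 : (0 : Fin 3) = 2 := congrArg Prod.fst (Sum.inl_injective h)
          exact absurd h2 (by decide)
        have h2 : ¬ ValS_psi3 (Sum.inl ((2 : Fin 3), true)) = Sum.inl ((2 : Fin 3), false) := by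
          intro h
          have h2 : (0 : Fin 3) = 2 := congrArg Prod.fst (Sum.inl_injective h)
          exact absurd h2 (by decide)
        unfold pv
        exact (if_neg h1).trans (if_neg h2)
      have h1' : pv w quad ValS_psi3 (1 : Fin 3) k.rep.1 = Vw w k.rep.1 χ := by
        have h1 : ¬ ValS_psi3 (Sum.inl ((1 : Fin 3), true)) = Sum.inl ((1 : Fin 3), true) := by
          intro h
          have h2 : false = true := congrArg Prod.snd (Sum.inl_injective h)
          cases h2
        have h2 : ValS_psi3 (Sum.inl ((1 : Fin 3), true)) = Sum.inl ((1 : Fin 3), false) := rfl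
        unfold pv
        exact ((if_neg h1).trans (if_pos h2)).trans (sv_of w k.rep.2 hχ)
      have h3 : ∏ i : quad.I, pv w quad ValS_psi3 i (nets3 a.rep k.rep b.rep i).1 =
          pv w quad ValS_psi3 (0 : Fin 3) a.rep.1 * pv w quad ValS_psi3 (1 : Fin 3) k.rep.1 *
            pv w quad ValS_psi3 (2 : Fin 3) b.rep.1 :=
        Fin.prod_univ_three (fun i : Fin 3 =>
          pv w quad ValS_psi3 i (nets3 a.rep k.rep b.rep i).1)
      rw [h3, h0, h1', h2']
    have har := ared_quad he (fun x => rfl) (fun x => rfl) (fun x => rfl) hχ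
    rw [e1, sw_of w hg he.tw, sw_of w k.rep.2 hχ]
    by_cases hA : ARed k.rep.1 χ
    · rw [if_pos (har.2 hA), if_pos hA, Vw_comp quad_good he w, ValS_nBi3, quad_nV, hpr, hb,
        hW_twC]
      ring
    · rw [if_neg (fun h => hA (har.1 h)), if_neg hA, mul_zero]
  · have hz : ¬ IsSer b.rep.1 := by rw [hb, isSer_twC]; exact ha
    have h1 : sw w true k.rep.1 = 0 := sw_none w fun h => hk ((sym_iff true k).1 h)
    rw [h1, mul_zero]
    refine sw_none w fun h => hk ?_
    have h2 := (sym_iff true (serC a (serC k b))).1 h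
    rw [twC_serC_true, twC_serC_true, hbt, ← hb, serC_assoc] at h2
    exact serC_right_inj hz (serC_inj ha ha h2).2

end PGr

end

section
/-! # Module CFix: the cells fixed by an automorphism of a composite -/

set_option linter.unusedSectionVars false
set_option linter.unusedVariables false

namespace PGr
open Equiv Finset

namespace CFix

/-- the same cell, or the same extra element -/
def Rl {T' κ : Type*} (s' : Perm T') (u v : T' ⊕ κ) : Prop :=
  (∃ x y, u = Sum.inl x ∧ v = Sum.inl y ∧ s'.SameCycle x y) ∨ ∃ c, u = Sum.inr c ∧ v = Sum.inr c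

/-- the fixed cells -/
abbrev Fx {T : Type*} (s e : Perm T) : Type _ :=
  {q : Quotient (Perm.SameCycle.setoid s) // ∃ t, q = Quotient.mk _ t ∧ s.SameCycle t (e t)}

/-- `b` is the image of the fixed cell `a` -/
def Im {T1 T' κ : Type*} {s1 e1 : Perm T1} {s' e' : Perm T'} (f : T1 → T' ⊕ κ) (a : Fx s1 e1)
    (b : Fx s' e' ⊕ κ) : Prop :=
  ∃ t, a.1 = Quotient.mk _ t ∧ s1.SameCycle t (e1 t) ∧
    ((∃ u, f t = Sum.inl u ∧ ∃ z, b = Sum.inl z ∧ z.1 = Quotient.mk _ u) ∨
      ∃ c, f t = Sum.inr c ∧ b = Sum.inr c)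

theorem im_exists {T1 T' κ : Type*} {s1 e1 : Perm T1} {s' e' : Perm T'} (f : T1 → T' ⊕ κ)
    (hf : ∀ x, s1.SameCycle x (e1 x) → ∀ t, f x = Sum.inl t → s'.SameCycle t (e' t))
    (a : Fx s1 e1) : ∃ b : Fx s' e' ⊕ κ, Im f a b := by
  obtain ⟨q, t, h1, h2⟩ := a
  rcases h : f t with u | c
  · exact ⟨Sum.inl ⟨Quotient.mk _ u, u, rfl, hf t h2 u h⟩, t, h1, h2,
      Or.inl ⟨u, h, _, rfl, rfl⟩⟩
  · exact ⟨Sum.inr c, t, h1, h2, Or.inr ⟨c, h, rfl⟩⟩

theorem im_rl {T1 T2 T' κ : Type*} {s1 e1 : Perm T1} {s2 e2 : Perm T2} {s' e' : Perm T'}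
    {f : T1 → T' ⊕ κ} {g : T2 → T' ⊕ κ} {a : Fx s1 e1} {a' : Fx s2 e2} {b : Fx s' e' ⊕ κ}
    (h : Im f a b) (h' : Im g a' b) : ∃ t t', a.1 = Quotient.mk _ t ∧ a'.1 = Quotient.mk _ t' ∧
      s1.SameCycle t (e1 t) ∧ s2.SameCycle t' (e2 t') ∧ Rl s' (f t) (g t') := by
  obtain ⟨t, h1, h2, h3⟩ := h
  obtain ⟨t', h1', h2', h3'⟩ := h'
  refine ⟨t, t', h1, h1', h2, h2', ?_⟩
  rcases h3 with ⟨u, h4, z, h5, h6⟩ | ⟨c, h4, h5⟩
  · rcases h3' with ⟨u', h4', z', h5', h6'⟩ | ⟨c', h4', h5'⟩
    · refine Or.inl ⟨u, u', h4, h4', ?_⟩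
      have h7 : z = z' := Sum.inl_injective (h5.symm.trans h5')
      rw [← h7] at h6'
      exact Quotient.exact (h6.symm.trans h6')
    · rw [h5] at h5'
      simp at h5'
  · rcases h3' with ⟨u', h4', z', h5', h6'⟩ | ⟨c', h4', h5'⟩
    · rw [h5] at h5'
      simp at h5'
    · have h7 : c = c' := Sum.inr_injective (h5.symm.trans h5')
      subst h7
      exact Or.inr ⟨c, h4, h4'⟩

theorem fix_add {T1 T2 T' κ : Type*} [Finite T1] [Finite T2] [Finite T'] [Finite κ]
    {s1 e1 : Perm T1} {s2 e2 : Perm T2} {s' e' : Perm T'} (f : T1 → T' ⊕ κ) (g : T2 → T' ⊕ κ)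
    (hf : ∀ x, s1.SameCycle x (e1 x) → ∀ t, f x = Sum.inl t → s'.SameCycle t (e' t))
    (hg : ∀ x, s2.SameCycle x (e2 x) → ∀ t, g x = Sum.inl t → s'.SameCycle t (e' t))
    (ff : ∀ x y, s1.SameCycle x (e1 x) → s1.SameCycle y (e1 y) → Rl s' (f x) (f y) →
      s1.SameCycle x y)
    (gg : ∀ x y, s2.SameCycle x (e2 x) → s2.SameCycle y (e2 y) → Rl s' (g x) (g y) →
      s2.SameCycle x y)
    (fg : ∀ x y, s1.SameCycle x (e1 x) → s2.SameCycle y (e2 y) → ¬ Rl s' (f x) (g y)) :
    nFix s1 e1 + nFix s2 e2 ≤ nFix s' e' + Nat.card κ := by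
  choose F hF using fun a => im_exists (s1 := s1) (e1 := e1) (s' := s') (e' := e') f hf a
  choose G hG using fun a => im_exists (s1 := s2) (e1 := e2) (s' := s') (e' := e') g hg a
  have h1 : nFix s1 e1 + nFix s2 e2 = Nat.card (Fx s1 e1 ⊕ Fx s2 e2) := by
    rw [Nat.card_sum]
    rfl
  have h2 : nFix s' e' + Nat.card κ = Nat.card (Fx s' e' ⊕ κ) := by
    rw [Nat.card_sum]
    rfl
  rw [h1, h2]
  refine Nat.card_le_card_of_injective (Sum.elim F G) ?_
  rintro (a | a) (a' | a') h
  · obtain ⟨t, t', h3, h4, h5, h6, h7⟩ := im_rl (hF a) ((show F a = F a' from h) ▸ hF a')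
    congr 1
    apply Subtype.ext
    rw [h3, h4]
    exact Quotient.sound (ff t t' h5 h6 h7)
  · obtain ⟨t, t', h3, h4, h5, h6, h7⟩ := im_rl (hF a) ((show F a = G a' from h) ▸ hG a')
    exact absurd h7 (fg t t' h5 h6)
  · obtain ⟨t, t', h3, h4, h5, h6, h7⟩ := im_rl (hF a') ((show F a' = G a from h.symm) ▸ hG a)
    exact absurd h7 (fg t t' h5 h6)
  · obtain ⟨t, t', h3, h4, h5, h6, h7⟩ := im_rl (hG a) ((show G a = G a' from h) ▸ hG a')
    congr 1
    apply Subtype.ext
    rw [h3, h4]
    exact Quotient.sound (gg t t' h5 h6 h7)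

theorem fix_le {T1 T' : Type*} [Finite T1] [Finite T'] {s1 e1 : Perm T1} {s' e' : Perm T'}
    (f : T1 → T') (hf : ∀ x, s1.SameCycle x (e1 x) → s'.SameCycle (f x) (e' (f x)))
    (ff : ∀ x y, s1.SameCycle x (e1 x) → s1.SameCycle y (e1 y) → s'.SameCycle (f x) (f y) →
      s1.SameCycle x y) : nFix s1 e1 ≤ nFix s' e' := by
  have h := fix_add (κ := Empty) (s1 := s1) (e1 := e1) (s2 := (1 : Perm Empty))
    (e2 := (1 : Perm Empty)) (s' := s') (e' := e') (fun x => Sum.inl (f x)) (fun x => x.elim)
    (fun x hx t ht => by rw [← Sum.inl_injective ht]; exact hf x hx) (fun x => x.elim)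
    (fun x y hx hy h => by
      rcases h with ⟨u, v, h1, h2, h3⟩ | ⟨c, -⟩
      · refine ff x y hx hy ?_
        rw [Sum.inl_injective h1, Sum.inl_injective h2]
        exact h3
      · exact c.elim)
    (fun x => x.elim) (fun x y => y.elim)
  have h1 : Nat.card Empty = 0 := by simp
  omega

/-- the cycles of an involution -/
theorem sc_inv {T : Type*} {a : Perm T} (ha : ∀ t, a (a t) = t) {x y : T} :
    a.SameCycle x y ↔ y = x ∨ y = a x := by
  constructor
  · rintro ⟨n, hn⟩
    have h2 : a ^ (2 : ℤ) = 1 := by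
      ext t
      rw [zpow_ofNat, pow_two]
      exact ha t
    rcases Int.even_or_odd n with ⟨m, hm⟩ | ⟨m, hm⟩
    · left
      rw [← hn, hm, ← two_mul, zpow_mul, h2, one_zpow]
      rfl
    · right
      rw [← hn, hm, zpow_add, zpow_mul, h2, one_zpow, one_mul, zpow_one]
  · rintro (rfl | rfl)
    · exact Perm.SameCycle.refl _ _
    · exact ⟨1, by rw [zpow_one]⟩

end CFix

open CFix

section
variable {C : Core} {N : C.I → GB} {ψ : Perm C.toB.T} {e : Perm (comp C N).T}

/-- Fixed vertices.  Proof.  A fixed vertex of the core, with dart `x`, `x ~ ψ x`, gives the vertex of `L N x` (`comp_sc_L`); different vertices give different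
vertices. -/
theorem cfix_v (h : CAut C N ψ e) : nFix C.s ψ ≤ nFix (comp C N).s e := by
  refine fix_le (T1 := (C.I × Bool) ⊕ Bool) (CompInj.L N) (fun x hx => ?_) (fun x y _ _ hxy => ?_)
  · rw [h.L]
    exact (comp_sc_L N x (ψ x)).2 hx
  · exact (comp_sc_L N x y).1 hxy

/-- a vertex fixed by a rotation exchanging the root darts is not a pole -/
theorem CFix_inner {M : GB} {φ : Perm M.1.T} (hφ : TwI false true M.1 M.1 φ) {t : M.1.T}
    (ht : M.1.s.SameCycle t (φ t)) (b : Bool) : ¬ M.1.s.SameCycle t (Sum.inr b) := by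
  intro h
  have h1 := (hφ.sameCycle t (Sum.inr b)).1 h
  rw [hφ.root, Bool.true_xor] at h1
  exact M.2.noLoop (Sum.inr b) ((h.symm.trans ht).trans h1)

theorem CFix_dt (h : CAut C N ψ e) {i : C.I} (hi : ψ (Sum.inl (i, true)) = Sum.inl (i, false))
    {φ : Perm (N i).1.T} (hφ : TwI false true (N i).1 (N i).1 φ) {d d' : (N i).1.D}
    (hd : φ (Sum.inl d) = Sum.inl d') : e (CompInj.dt N i d) = CompInj.dt N i d' := by
  obtain ⟨φ', h1, h2⟩ := h.nets i true i false hi
  have h3 : φ = φ' := TwI.unique (N i).2 hφ h1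
  subst h3
  exact h2 d d' hd

/-- The same with a reversed net.  In addition the vertices of `N i` fixed by `φ`: they are inner vertices, since `φ` exchanges the two root darts and `inr true`, `inr false` are at
different vertices (`noLoop`); so all darts of such a vertex are nonroot darts `inl d`, and the vertex of `dt N i d` is fixed by `e` (by the uniqueness of the isomorphism, `TwI.unique`, the
isomorphism of `CAut.nets` for `i`, `true` is `φ`); `comp_sc_inner`: different inner vertices give different vertices, and they are not vertices of the core. -/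
theorem cfix_v' (h : CAut C N ψ e) {i : C.I} (hi : ψ (Sum.inl (i, true)) = Sum.inl (i, false))
    {φ : Perm (N i).1.T} (hφ : TwI false true (N i).1 (N i).1 φ) :
    nFix C.s ψ + nFix (N i).1.s φ ≤ nFix (comp C N).s e := by
  have key := fix_add (κ := Empty) (T1 := (C.I × Bool) ⊕ Bool) (T2 := (N i).1.T)
    (T' := (comp C N).T) (s1 := C.s) (e1 := ψ)
    (s2 := (N i).1.s) (e2 := φ) (s' := (comp C N).s) (e' := e)
    (fun x => Sum.inl (CompInj.L N x))
    (fun t => match t with
      | Sum.inl d => Sum.inl (CompInj.dt N i d)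
      | Sum.inr b => Sum.inl (Sum.inr b)) ?_ ?_ ?_ ?_ ?_
  · have h1 : Nat.card Empty = 0 := by simp
    omega
  · rintro x hx t ht
    rw [← Sum.inl_injective ht, h.L]
    exact (comp_sc_L N x (ψ x)).2 hx
  · rintro (d | b) hx t ht
    · rw [← show CompInj.dt N i d = t from Sum.inl_injective ht]
      obtain ⟨d', hd'⟩ := hφ.inl d
      rw [CFix_dt h hi hφ hd']
      rw [hd'] at hx
      have h1 : ¬ ∃ b, (N i).1.s.SameCycle (Sum.inl d) (Sum.inr b) := by
        rintro ⟨b, hb⟩
        exact CFix_inner hφ (t := Sum.inl d) (by rw [hd']; exact hx) b hb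
      exact ((comp_sc_inner N h1).2.1 d').2 hx
    · exact absurd (Perm.SameCycle.refl _ _) (CFix_inner hφ hx b)
  · rintro x y - - (⟨u, v, h1, h2, h3⟩ | ⟨c, -⟩)
    · rw [← show CompInj.L N x = u from Sum.inl_injective h1,
        ← show CompInj.L N y = v from Sum.inl_injective h2] at h3
      exact (comp_sc_L N x y).1 h3
    · exact c.elim
  · rintro (d | b) (d' | b') hx hy (⟨u, v, h1, h2, h3⟩ | ⟨c, -⟩)
    · rw [← show CompInj.dt N i d = u from Sum.inl_injective h1,
        ← show CompInj.dt N i d' = v from Sum.inl_injective h2] at h3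
      have h4 : ¬ ∃ b, (N i).1.s.SameCycle (Sum.inl d) (Sum.inr b) := by
        rintro ⟨b, hb⟩
        exact CFix_inner hφ hx b hb
      exact ((comp_sc_inner N h4).2.1 d').1 h3
    · exact c.elim
    · exact absurd (Perm.SameCycle.refl _ _) (CFix_inner hφ hy b')
    · exact c.elim
    · exact absurd (Perm.SameCycle.refl _ _) (CFix_inner hφ hx b)
    · exact c.elim
    · exact absurd (Perm.SameCycle.refl _ _) (CFix_inner hφ hx b)
    · exact c.elim
  · rintro x (d | b) hx hy (⟨u, v, h1, h2, h3⟩ | ⟨c, -⟩)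
    · rw [← show CompInj.L N x = u from Sum.inl_injective h1,
        ← show CompInj.dt N i d = v from Sum.inl_injective h2] at h3
      have h4 : ¬ ∃ b, (N i).1.s.SameCycle (Sum.inl d) (Sum.inr b) := by
        rintro ⟨b, hb⟩
        exact CFix_inner hφ hy b hb
      exact (comp_sc_inner N h4).1 x h3.symm
    · exact c.elim
    · exact absurd (Perm.SameCycle.refl _ _) (CFix_inner hφ hy b)
    · exact c.elim

/-! ### The dual -/

/-- exchange of the two darts of every nonroot edge -/
def CFix_G (C : Core) : Perm ((C.I × Bool) ⊕ Bool) :=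
  Perm.sumCongr (Equiv.prodCongr (Equiv.refl C.I) Equiv.boolNot) 1

theorem CFix_GG (C : Core) (x : (C.I × Bool) ⊕ Bool) : CFix_G C (CFix_G C x) = x := by
  rcases x with ⟨i, b⟩ | b
  · show (Sum.inl (i, !(!b)) : (C.I × Bool) ⊕ Bool) = _
    rw [Bool.not_not]
  · rfl

theorem CFix_Gs (C : Core) (x : C.toB.T) :
    (show C.toB.T ≃ (ddCore C).toB.T from CFix_G C) ((C.toB.aa * C.toB.s) x) =
      (ddCore C).toB.s ((show C.toB.T ≃ (ddCore C).toB.T from CFix_G C) x) := by
  have h1 : ∀ y : (C.I × Bool) ⊕ Bool, CFix_G C (C.toB.aa y) =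
      Perm.sumCongr (1 : Perm (C.I × Bool)) Equiv.boolNot y := by
    rintro (⟨i, b⟩ | b)
    · show (Sum.inl (i, !(!b)) : (C.I × Bool) ⊕ Bool) = Sum.inl (i, b)
      rw [Bool.not_not]
    · rfl
  show CFix_G C (C.toB.aa (C.s x)) = Perm.sumCongr (1 : Perm (C.I × Bool)) Equiv.boolNot
    (C.s (CFix_G C (CFix_G C x)))
  exact (h1 (C.s x)).trans (congrArg (fun y : (C.I × Bool) ⊕ Bool =>
    Perm.sumCongr (1 : Perm (C.I × Bool)) Equiv.boolNot (C.s y)) (CFix_GG C x).symm)

theorem CFix_dual (h : CAut C N ψ e) : ∃ (G : C.toB.T ≃ (ddCore C).toB.T)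
    (κ : (comp C N).T ≃ (comp (ddCore C) (fun i => (N i).dual)).T),
    (∀ t, G ((C.toB.aa * C.toB.s) t) = (ddCore C).toB.s (G t)) ∧
    (∀ t, κ (((comp C N).aa * (comp C N).s) t) =
      (comp (ddCore C) (fun i => (N i).dual)).s (κ t)) ∧
    (∀ i b, G (Sum.inl (i, b)) = Sum.inl (i, !b)) ∧
    CAut (ddCore C) (fun i => (N i).dual) ((G.symm.trans ψ).trans G)
      ((κ.symm.trans e).trans κ) := by
  obtain ⟨κ, k1, k2, k3, k4, k5⟩ := comp_dual' C N
  obtain ⟨G, hG⟩ : ∃ G : C.toB.T ≃ (ddCore C).toB.T, G = CFix_G C := ⟨CFix_G C, rfl⟩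
  have hG1 : ∀ i b, G (Sum.inl (i, b)) = Sum.inl (i, !b) := by
    intro i b
    rw [hG]
    rfl
  have hG2 : ∀ b, G (Sum.inr b) = Sum.inr b := by
    intro b
    rw [hG]
    rfl
  have hGs : ∀ t, G ((C.toB.aa * C.toB.s) t) = (ddCore C).toB.s (G t) := by
    intro t
    rw [hG]
    exact CFix_Gs C t
  have hGa : ∀ t, G (C.toB.aa t) = (ddCore C).toB.aa (G t) := by
    rintro (⟨i, b⟩ | b)
    · show G (Sum.inl (i, !b)) = _
      rw [hG1, hG1]
      rfl
    · show G (Sum.inr (!b)) = _
      rw [hG2, hG2]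
      rfl
  have hL : ∀ x : C.toB.T, κ (CompInj.L N x) =
      CompInj.L (C := ddCore C) (fun i => (N i).dual) (G x) := by
    rintro (⟨i, b⟩ | b)
    · rw [hG1]
      exact k4 i b
    · rw [hG2]
      exact k5 b
  have hψ : ∀ x, ((G.symm.trans ψ).trans G) (G x) = G (ψ x) := fun x => by
    show G (ψ (G.symm (G x))) = _
    rw [G.symm_apply_apply]
  have he : ∀ x, ((κ.symm.trans e).trans κ) (κ x) = κ (e x) := fun x => by
    show κ (e (κ.symm (κ x))) = _
    rw [κ.symm_apply_apply]
  refine ⟨G, κ, hGs, k2, hG1, ?_⟩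
  constructor
  · intro x
    obtain ⟨x, rfl⟩ := G.surjective x
    rw [← hGa, hψ, hψ, h.caa, hGa]
  · intro x
    obtain ⟨x, rfl⟩ := G.surjective x
    show ((G.symm.trans ψ).trans G) ((ddCore C).toB.s (G x)) = (ddCore C).toB.s _
    rw [← hGs, hψ, hψ, ← hGs]
    congr 1
    exact (h.caa (C.s x)).trans (congrArg C.toB.aa (h.cs x))
  · intro x
    obtain ⟨x, rfl⟩ := κ.surjective x
    rw [← k1, he, he, h.aa, k1]
  · intro x
    obtain ⟨x, rfl⟩ := κ.surjective x
    rw [← k2, he, he, ← k2]
    congr 1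
    show e ((comp C N).aa ((comp C N).s x)) = (comp C N).aa ((comp C N).s (e x))
    rw [h.aa, h.s]
  · intro x
    obtain ⟨x, rfl⟩ : ∃ y, G y = x := G.surjective x
    exact (congrArg ((κ.symm.trans e).trans κ) (hL x)).symm.trans ((he _).trans
      ((congrArg κ (h.L x)).trans ((hL (ψ x)).trans
        (congrArg (CompInj.L (C := ddCore C) (fun i => (N i).dual)) (hψ x).symm))))
  · intro i b i' b' hi
    have hG1' : ∀ i b, G (Sum.inl (i, !b)) = Sum.inl (i, b) := by
      intro i b
      have h0 := hG1 i (!b)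
      rw [Bool.not_not] at h0
      exact h0
    have h1 : ψ (Sum.inl (i, !b)) = Sum.inl (i', !b') := by
      apply G.injective
      exact (hψ (Sum.inl (i, !b))).symm.trans
        ((congrArg ((G.symm.trans ψ).trans G) (hG1' i b)).trans (hi.trans (hG1' i' b').symm))
    obtain ⟨φ, h2, h3⟩ := h.nets i (!b) i' (!b') h1
    refine ⟨φ, ?_, ?_⟩
    · have h4 := h2.dual (N i).2
      rw [Bool.xor_false] at h4
      have h5 : xor (!b) (!b') = xor b b' := by cases b <;> cases b' <;> rfl
      rw [h5] at h4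
      exact h4
    · intro d d' hd
      exact (congrArg ((κ.symm.trans e).trans κ) (k3 i d)).symm.trans ((he _).trans
        ((congrArg κ (h3 d d' hd)).trans (k3 i' d')))

/-- Faces: the dual.  By `comp_dual'` `e' = κ e κ⁻¹` is an automorphism of `comp (ddCore C) _` with `CAut (ddCore C) _ ψ' e'`, `ψ' = G ψ G`, `G (inl (i, b)) = inl (i, !b)`,
`G (inr b) = inr b`; the isomorphisms of the nets are the same maps of darts (`TwI.dual` with `m` false).  `G` is an isomorphism from the core with rotation `C.toB.aa * C.toB.s` to `ddCore C`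
(see `dd_iso`).  `cfix_v` for the dual, `nFix_conj`. -/
theorem cfix_f (h : CAut C N ψ e) :
    nFix (C.toB.aa * C.toB.s) ψ ≤ nFix ((comp C N).aa * (comp C N).s) e := by
  obtain ⟨G, κ, h1, h2, h3, h4⟩ := CFix_dual h
  have h5 := cfix_v h4
  rw [nFix_conj κ h2 e] at h5
  have h6 : nFix (ddCore C).s ((G.symm.trans ψ).trans G) = nFix (C.toB.aa * C.toB.s) ψ :=
    nFix_conj G h1 ψ
  exact h6.symm.le.trans h5

theorem cfix_f' (h : CAut C N ψ e) {i : C.I} (hi : ψ (Sum.inl (i, true)) = Sum.inl (i, false))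
    {φ : Perm (N i).1.T} (hφ : TwI false true (N i).1 (N i).1 φ) :
    nFix (C.toB.aa * C.toB.s) ψ + nFix ((N i).1.aa * (N i).1.s) φ ≤
      nFix ((comp C N).aa * (comp C N).s) e := by
  obtain ⟨G, κ, h1, h2, h3, h4⟩ := CFix_dual h
  have hi' : ψ (Sum.inl (i, false)) = Sum.inl (i, true) := by
    have h5 := h.caa (Sum.inl (i, true))
    rw [hi] at h5
    exact h5
  have h5 : ((G.symm.trans ψ).trans G) (Sum.inl (i, true)) = Sum.inl (i, false) := by
    have h6 : G (Sum.inl (i, false)) = Sum.inl (i, true) := h3 i false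
    have h7 : G.symm (Sum.inl (i, true)) = Sum.inl (i, false) :=
      (Equiv.symm_apply_eq G).2 h6.symm
    exact (congrArg G ((congrArg ψ h7).trans hi')).trans (h3 i true)
  have h6 := hφ.dual (N i).2
  rw [Bool.xor_false] at h6
  have h7 := cfix_v' h4 h5 (φ := φ) h6
  rw [nFix_conj κ h2 e] at h7
  have h8 : nFix (ddCore C).s ((G.symm.trans ψ).trans G) = nFix (C.toB.aa * C.toB.s) ψ :=
    nFix_conj G h1 ψ
  exact (Nat.add_le_add_right h8.symm.le _).trans h7

/-- an edge of the core which is not the root edge and is fixed, is reversed -/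
theorem CFix_rev (h : CAut C N ψ e) (hfr : ∀ x, ψ x ≠ x) {i : C.I} {b : Bool}
    (hx : C.toB.aa.SameCycle (Sum.inl (i, b)) (ψ (Sum.inl (i, b)))) :
    ψ (Sum.inl (i, true)) = Sum.inl (i, false) := by
  have hinv : ∀ t, C.toB.aa (C.toB.aa t) = t := by
    rintro (⟨i, b⟩ | b) <;> cases b <;> rfl
  rcases (sc_inv hinv).1 hx with h1 | h1
  · exact absurd h1 (hfr _)
  · cases b
    · have h2 := h.caa (Sum.inl (i, false))
      rw [h1] at h2
      exact h2
    · exact h1

theorem CFix_root (h : CAut C N ψ e) (hfr : ∀ x, ψ x ≠ x) {b : Bool}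
    (hx : C.toB.aa.SameCycle (Sum.inr b) (ψ (Sum.inr b))) :
    (comp C N).aa.SameCycle (Sum.inr b) (e (Sum.inr b)) := by
  have hinv : ∀ t, C.toB.aa (C.toB.aa t) = t := by
    rintro (⟨i, b⟩ | b) <;> cases b <;> rfl
  rcases (sc_inv hinv).1 hx with h1 | h1
  · exact absurd h1 (hfr _)
  · have h2 := h.L (Sum.inr b)
    have h3 : e (Sum.inr b) = Sum.inr (!b) := h2.trans (congrArg (CompInj.L N) h1)
    rw [h3]
    exact ⟨1, rfl⟩

theorem CFix_rr {M : BMap} (b b' : Bool) : M.aa.SameCycle (Sum.inr b) (Sum.inr b') := by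
  by_cases h : b = b'
  · rw [h]
  · have h1 : b' = !b := by cases b <;> cases b' <;> simp_all
    subst h1
    exact ⟨1, rfl⟩

/-- Edges.  If no edge `i` is reversed, the only edge of the core which may be fixed is the root edge (an edge `{x, aa x}` is fixed iff `ψ x = aa x`, as
`ψ x ≠ x`), and then `e` fixes the root edge (`L N (inr b) = inr b`). -/
theorem cfix_e (h : CAut C N ψ e) (hrev : ∀ i, ψ (Sum.inl (i, true)) ≠ Sum.inl (i, false))
    (hfr : ∀ x, ψ x ≠ x) : nFix C.toB.aa ψ ≤ nFix (comp C N).aa e := by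
  refine fix_le (CompInj.L N) ?_ ?_
  · rintro (⟨i, b⟩ | b) hx
    · exact absurd (CFix_rev h hfr hx) (hrev i)
    · exact CFix_root h hfr hx
  · rintro (⟨i, b⟩ | b) (⟨j, b'⟩ | b') hx hy -
    · exact absurd (CFix_rev h hfr hx) (hrev i)
    · exact absurd (CFix_rev h hfr hx) (hrev i)
    · exact absurd (CFix_rev h hfr hy) (hrev j)
    · exact CFix_rr b b'

/-- The edge `i` is reversed.  Another edge of the core fixed by `ψ` can only be the root edge (`hu`, `hfr`), and then `e` fixes the root edge.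
The edges of `N i` fixed by `φ` are its root edge and edges `{d, a d}` with `φ (inl d) = inl (a d)`, which give fixed edges of the composite. -/
theorem cfix_e' (h : CAut C N ψ e) {i : C.I} (hi : ψ (Sum.inl (i, true)) = Sum.inl (i, false))
    (hu : ∀ j, ψ (Sum.inl (j, true)) = Sum.inl (j, false) → j = i) (hfr : ∀ x, ψ x ≠ x)
    {φ : Perm (N i).1.T} (hφ : TwI false true (N i).1 (N i).1 φ) :
    nFix C.toB.aa ψ + nFix (N i).1.aa φ ≤ nFix (comp C N).aa e + 2 := by
  have hinv : ∀ (M : GB) t, M.1.aa (M.1.aa t) = t := fun M => M.2.inv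
  have hinvc : ∀ t, C.toB.aa (C.toB.aa t) = t := by
    rintro (⟨i, b⟩ | b) <;> cases b <;> rfl
  have hinv' : ∀ t, (comp C N).aa ((comp C N).aa t) = t := by
    rintro (⟨j, d⟩ | b)
    · have h1 := hinv (N j) (Sum.inl d)
      have h2 : (N j).1.a ((N j).1.a d) = d := Sum.inl_injective h1
      show (Sum.inl ⟨j, (N j).1.a ((N j).1.a d)⟩ : (comp C N).T) = Sum.inl ⟨j, d⟩
      rw [h2]
    · cases b <;> rfl
  have key := fix_add (κ := Bool) (T1 := C.toB.T) (T2 := (N i).1.T)
    (T' := (comp C N).T) (s1 := C.toB.aa) (e1 := ψ)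
    (s2 := (N i).1.aa) (e2 := φ) (s' := (comp C N).aa) (e' := e)
    (fun t => match t with
      | Sum.inl _ => Sum.inr true
      | Sum.inr b => Sum.inl (Sum.inr b))
    (fun t => match t with
      | Sum.inl d => Sum.inl (CompInj.dt N i d)
      | Sum.inr _ => Sum.inr false) ?_ ?_ ?_ ?_ ?_
  · have h1 : Nat.card Bool = 2 := by simp
    omega
  · rintro (x | b) hx t ht
    · simp at ht
    · rw [← show (Sum.inr b : (comp C N).T) = t from Sum.inl_injective ht]
      exact CFix_root h hfr hx
  · rintro (d | b) hx t ht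
    · rw [← show CompInj.dt N i d = t from Sum.inl_injective ht]
      obtain ⟨d', hd'⟩ := hφ.inl d
      rw [CFix_dt h hi hφ hd', sc_inv hinv']
      rw [hd', sc_inv (hinv (N i))] at hx
      rcases hx with hx | hx
      · left
        rw [Sum.inl_injective hx]
      · right
        rw [CompInj.aa_dt]
        have h1 : d' = (N i).1.a d := Sum.inl_injective hx
        rw [h1]
    · simp at ht
  · rintro (⟨j, b⟩ | b) (⟨j', b'⟩ | b') hx hy hR
    · have h1 := hu j (CFix_rev h hfr hx)
      have h2 := hu j' (CFix_rev h hfr hy)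
      subst h1
      subst h2
      rw [sc_inv hinvc]
      by_cases h3 : b = b'
      · left
        rw [h3]
      · right
        have h4 : b' = !b := by cases b <;> cases b' <;> simp_all
        rw [h4]
        rfl
    · rcases hR with ⟨u, v, h1, h2, h3⟩ | ⟨c, h1, h2⟩
      · simp at h1
      · simp at h2
    · rcases hR with ⟨u, v, h1, h2, h3⟩ | ⟨c, h1, h2⟩
      · simp at h2
      · simp at h1
    · exact CFix_rr b b'
  · rintro (d | b) (d' | b') hx hy hR
    · rcases hR with ⟨u, v, h1, h2, h3⟩ | ⟨c, h1, h2⟩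
      · rw [← show CompInj.dt N i d = u from Sum.inl_injective h1,
          ← show CompInj.dt N i d' = v from Sum.inl_injective h2, sc_inv hinv'] at h3
        rw [sc_inv (hinv (N i))]
        rcases h3 with h3 | h3
        · left
          rw [CompInj.dt_inj N h3]
        · right
          rw [CompInj.aa_dt] at h3
          rw [CompInj.dt_inj N h3]
          rfl
      · simp at h1
    · rcases hR with ⟨u, v, h1, h2, h3⟩ | ⟨c, h1, h2⟩
      · simp at h2
      · simp at h1
    · rcases hR with ⟨u, v, h1, h2, h3⟩ | ⟨c, h1, h2⟩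
      · simp at h1
      · simp at h2
    · exact CFix_rr b b'
  · rintro (x | b) (d | b') hx hy hR
    · rcases hR with ⟨u, v, h1, h2, h3⟩ | ⟨c, h1, h2⟩
      · simp at h1
      · simp at h2
    · rcases hR with ⟨u, v, h1, h2, h3⟩ | ⟨c, h1, h2⟩
      · simp at h1
      · rw [← h1] at h2
        simp at h2
    · rcases hR with ⟨u, v, h1, h2, h3⟩ | ⟨c, h1, h2⟩
      · rw [← show (Sum.inr b : (comp C N).T) = u from Sum.inl_injective h1,
          ← show CompInj.dt N i d = v from Sum.inl_injective h2, sc_inv hinv'] at h3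
        rcases h3 with h3 | h3
        · exact absurd (show (Sum.inl ⟨i, d⟩ : (Σ i, (N i).1.D) ⊕ Bool) = Sum.inr b from h3)
            (by simp)
        · exact absurd (show (Sum.inl ⟨i, d⟩ : (Σ i, (N i).1.D) ⊕ Bool) = Sum.inr (!b) from h3)
            (by simp)
      · simp at h1
    · rcases hR with ⟨u, v, h1, h2, h3⟩ | ⟨c, h1, h2⟩
      · simp at h2
      · simp at h1

/-- the three inequalities and the sums -/
theorem CAut.fix_free (h : CAut C N ψ e)
    (hrev : ∀ i, ψ (Sum.inl (i, true)) ≠ Sum.inl (i, false)) (hfr : ∀ x, ψ x ≠ x)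
    (h1 : nFix C.s ψ + nFix C.toB.aa ψ + nFix (C.toB.aa * C.toB.s) ψ = 2)
    (h2 : nFix (comp C N).s e + nFix (comp C N).aa e +
      nFix ((comp C N).aa * (comp C N).s) e = 2) :
    nFix (comp C N).s e = nFix C.s ψ ∧ nFix (comp C N).aa e = nFix C.toB.aa ψ ∧
      nFix ((comp C N).aa * (comp C N).s) e = nFix (C.toB.aa * C.toB.s) ψ := by
  have a1 := cfix_v h
  have a2 := cfix_f h
  have a3 := cfix_e h hrev hfr
  omega

/-- `h3` is `TwI.piTwo` for the net -/
theorem CAut.fix_rev (h : CAut C N ψ e) {i : C.I}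
    (hi : ψ (Sum.inl (i, true)) = Sum.inl (i, false))
    (hu : ∀ j, ψ (Sum.inl (j, true)) = Sum.inl (j, false) → j = i) (hfr : ∀ x, ψ x ≠ x)
    {φ : Perm (N i).1.T} (hφ : TwI false true (N i).1 (N i).1 φ)
    (h1 : nFix C.s ψ + nFix C.toB.aa ψ + nFix (C.toB.aa * C.toB.s) ψ = 2)
    (h2 : nFix (comp C N).s e + nFix (comp C N).aa e +
      nFix ((comp C N).aa * (comp C N).s) e = 2)
    (h3 : nFix (N i).1.s φ + nFix (N i).1.aa φ + nFix ((N i).1.aa * (N i).1.s) φ = 2) :
    nFix (comp C N).s e = nFix C.s ψ + nFix (N i).1.s φ ∧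
      nFix (comp C N).aa e + 2 = nFix C.toB.aa ψ + nFix (N i).1.aa φ ∧
      nFix ((comp C N).aa * (comp C N).s) e =
        nFix (C.toB.aa * C.toB.s) ψ + nFix ((N i).1.aa * (N i).1.s) φ := by
  have a1 := cfix_v' h hi hφ
  have a2 := cfix_f' h hi hφ
  have a3 := cfix_e' h hi hu hfr hφ
  omega

end

end PGr

end

section
/-! # Module PWc: weights of composites, root darts exchanged -/

set_option linter.unusedSectionVars false
set_option linter.unusedVariables false

namespace PGr
open Equiv Finset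
open scoped ENNReal Classical

namespace PWc
open CFix

/-- a family of different fixed cells -/
theorem le_nFix {T κ : Type*} [Finite T] [Finite κ] {s e : Perm T} (f : κ → T)
    (hf : ∀ c, s.SameCycle (f c) (e (f c))) (hne : ∀ c c', s.SameCycle (f c) (f c') → c = c') :
    Nat.card κ ≤ nFix s e := by
  refine Nat.card_le_card_of_injective (β := Fx s e)
    (fun c => ⟨Quotient.mk _ (f c), f c, rfl, hf c⟩) ?_
  intro c c' h
  have h1 : (Quotient.mk (Perm.SameCycle.setoid s) (f c)) = Quotient.mk _ (f c') :=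
    congrArg Subtype.val h
  exact hne c c' (Quotient.exact h1)

/-- at most one fixed cell -/
theorem nFix_le_one {T : Type*} [Finite T] {s e : Perm T}
    (h : ∀ x y, s.SameCycle x (e x) → s.SameCycle y (e y) → s.SameCycle x y) :
    nFix s e ≤ 1 := by
  have h1 : Subsingleton (Fx s e) := by
    refine ⟨fun a b => ?_⟩
    obtain ⟨q, t, h2, h3⟩ := a
    obtain ⟨q', t', h2', h3'⟩ := b
    apply Subtype.ext
    show q = q'
    rw [h2, h2']
    exact Quotient.sound (h t t' h3 h3')
  exact Finite.card_le_one_iff_subsingleton.2 h1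

/-- the number of vertices of a composite -/
theorem nV_eq {C : Core} (N : C.I → GB) (hC : C.toB.IsGood) :
    nV (comp C N).s = nV C.s + ∑ i, (nV (N i).1.s - 2) := by
  have h1 := nV_comp C N hC
  have h2 : ∀ i, nV (N i).1.s = (nV (N i).1.s - 2) + 2 := by
    intro i
    have := CompVAux.card_inn (N i)
    omega
  have h3 : ∑ i, nV (N i).1.s = ∑ i, (nV (N i).1.s - 2) + 2 * Fintype.card C.I := by
    conv_lhs => rw [sum_congr rfl fun i _ => h2 i]
    rw [sum_add_distrib, sum_const, card_univ, smul_eq_mul, mul_comm]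
  omega

theorem card_T {M : BMap} (hM : M.IsGood) :
    Fintype.card M.T / 2 = Fintype.card M.D / 2 + 1 := by
  have h1 : Fintype.card M.T = Fintype.card M.D + 2 := by
    show Fintype.card (M.D ⊕ Bool) = _
    rw [Fintype.card_sum, Fintype.card_bool]
  omega

/-- the number of edges of a composite -/
theorem card_comp {C : Core} (N : C.I → GB) :
    Fintype.card (comp C N).T / 2 = 1 + ∑ i, Fintype.card (N i).1.D / 2 := by
  have h1 : Fintype.card (comp C N).T = Fintype.card (Σ i, (N i).1.D) + 2 := by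
    show Fintype.card ((Σ i, (N i).1.D) ⊕ Bool) = _
    rw [Fintype.card_sum, Fintype.card_bool]
  have h2 : ∀ i, Fintype.card (N i).1.D = 2 * (Fintype.card (N i).1.D / 2) := by
    intro i
    obtain ⟨n, -, hn⟩ := card_D_even (N i).2
    omega
  rw [Fintype.card_sigma] at h1
  have h3 : ∑ i, Fintype.card (N i).1.D = 2 * ∑ i, Fintype.card (N i).1.D / 2 := by
    rw [mul_sum]
    exact sum_congr rfl fun i _ => h2 i
  omega

theorem prod_nwt {C : Core} (N : C.I → GB) (J : Finset C.I) (S Y : ℝ≥0∞) :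
    ∏ i ∈ J, nwt S Y (N i).1 =
      S ^ (∑ i ∈ J, (nV (N i).1.s - 2)) * Y ^ (∑ i ∈ J, Fintype.card (N i).1.D / 2) := by
  unfold nwt
  rw [prod_mul_distrib, prod_pow_eq_pow_sum, prod_pow_eq_pow_sum]

/-- no reversed edge: the root edge is the only fixed edge -/
theorem aa_le {C : Core} {N : C.I → GB} {ψ : Perm C.toB.T} {e : Perm (comp C N).T}
    (h : CAut C N ψ e) (hfr : ∀ x, ψ x ≠ x)
    (hrev : ∀ i, ψ (Sum.inl (i, true)) ≠ Sum.inl (i, false)) : nFix C.toB.aa ψ ≤ 1 := by
  refine nFix_le_one ?_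
  rintro (⟨i, b⟩ | b) (⟨j, b'⟩ | b') hx hy
  · exact absurd (CFix_rev h hfr hx) (hrev i)
  · exact absurd (CFix_rev h hfr hx) (hrev i)
  · exact absurd (CFix_rev h hfr hy) (hrev j)
  · exact CFix_rr b b'

end PWc

open PWc CFix

section
variable {C : Core} {N : C.I → GB} {ψ : Perm C.toB.T} {e : Perm (comp C N).T}
  {S Y kv kf ke : ℝ≥0∞}

/-- Proof.  `CTw.caut`, `TwI.piTwo` for `ψ` and `e`.  Numbers: `nV (comp) - 2 = (nV C - 2) + ∑ (nV (N i) - 2)` (`nV_comp`), `|T| / 2 = 1 + ∑ |D (N i)| / 2`.
Case 1: no edge `i` is reversed: `CAut.fix_free`; `nFix aa ψ = 1` (only the root edge can be fixed); all factors are `nwt`.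
Case 2: `ψ (inl (i, true)) = inl (i, false)`.  Then `nFix aa ψ = 2` (the root edge and `i`), so `i` is the only one, `nFix C.s ψ = 0` and no face of the core is fixed, `pW S 1 kv kf 1 C.toB ψ = S ^ (nV C - 2)`.
`N i` has a rotation `φ` exchanging its root darts (`h.nets i true i false`); `CAut.fix_rev`; `wPi = pW S Y kv kf ke (N i).1 φ` (`wPi_of`).  The exponents of `S`: `nV (comp) - 2 - nFix φ =
(nV C - 2) + ∑_{j ≠ i} (nV (N j) - 2) + (nV (N i) - 2 - nFix φ)` (`TwI.piV`); of `Y`: `|T| / 2 - nFix aa e = ∑_{j ≠ i} |D (N j)| / 2 + (|T (N i)| / 2 - nFix aa φ)`, as `nFix aa e = nFix aa φ`. -/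
theorem pW_comp (hC : C.toB.IsGood) (h : CTw false true C C N N ψ e) :
    pW S Y kv kf ke (comp C N) e =
      pW S 1 kv kf 1 C.toB ψ * ∏ i, pwt S Y kv kf ke C ψ i (N i).1 := by
  have hca := h.caut hC
  have hN := comp_good C N hC
  have hfr : ∀ x, ψ x ≠ x := h.core.piFree hC
  obtain ⟨p1, p2⟩ := h.core.piTwo hC
  obtain ⟨q1, q2⟩ := h.tw.piTwo hN
  obtain ⟨v1, -, -, -⟩ := h.core.piV hC
  have hnV := nV_eq N hC
  have hcT := card_comp N
  by_cases hrev : ∃ i, ψ (Sum.inl (i, true)) = Sum.inl (i, false)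
  · obtain ⟨i, hi⟩ := hrev
    have hinv : ∀ t, C.toB.aa (C.toB.aa t) = t := hC.inv
    have hfix : ∀ j, ψ (Sum.inl (j, true)) = Sum.inl (j, false) →
        C.toB.aa.SameCycle (Sum.inl (j, true)) (ψ (Sum.inl (j, true))) := by
      intro j hj
      rw [hj]
      exact ⟨1, rfl⟩
    have hroot : C.toB.aa.SameCycle (Sum.inr true) (ψ (Sum.inr true)) := by
      rw [h.core.root]
      exact ⟨1, rfl⟩
    have hne1 : ∀ j b b', ¬ C.toB.aa.SameCycle (Sum.inr b) (Sum.inl (j, b')) := by
      intro j b b' h1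
      rw [sc_inv hinv] at h1
      rcases h1 with h1 | h1
      · simp at h1
      · exact absurd (show (Sum.inl (j, b') : (C.I × Bool) ⊕ Bool) = Sum.inr (!b) from h1) (by simp)
    have hne2 : ∀ j j', C.toB.aa.SameCycle (Sum.inl (j, true)) (Sum.inl (j', true)) → j = j' := by
      intro j j' h1
      rw [sc_inv hinv] at h1
      rcases h1 with h1 | h1
      · exact (congrArg Prod.fst (Sum.inl_injective h1)).symm
      · exact (congrArg Prod.fst (Sum.inl_injective
          (show (Sum.inl (j', true) : (C.I × Bool) ⊕ Bool) = Sum.inl (j, false) from h1))).symm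
    have h2 : 2 ≤ nFix C.toB.aa ψ := by
      have h3 := le_nFix (s := C.toB.aa) (e := ψ) (κ := Bool)
        (fun b => if b then Sum.inr true else Sum.inl (i, true)) (by
          intro b
          cases b
          · exact hfix i hi
          · exact hroot) (by
          intro b b' h3
          cases b <;> cases b'
          · rfl
          · exact absurd h3.symm (hne1 i true true)
          · exact absurd h3 (hne1 i true true)
          · rfl)
      simpa using h3
    have hu : ∀ j, ψ (Sum.inl (j, true)) = Sum.inl (j, false) → j = i := by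
      intro j hj
      by_contra hne
      have h3 := le_nFix (s := C.toB.aa) (e := ψ) (κ := Option Bool)
        (fun b => match b with
          | none => Sum.inr true
          | some true => Sum.inl (i, true)
          | some false => Sum.inl (j, true)) (by
          rintro (_ | _ | _)
          · exact hroot
          · exact hfix j hj
          · exact hfix i hi) (by
          rintro (_ | _ | _) (_ | _ | _) h3
          · rfl
          · exact absurd h3 (hne1 j true true)
          · exact absurd h3 (hne1 i true true)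
          · exact absurd h3.symm (hne1 j true true)
          · rfl
          · exact absurd (hne2 j i h3) hne
          · exact absurd h3.symm (hne1 i true true)
          · exact absurd (hne2 i j h3).symm hne
          · rfl)
      have h4 : Nat.card (Option Bool) = 3 := by simp
      omega
    obtain ⟨φ, hφ, -⟩ := h.nets i true i false hi
    have hφ' : TwI false true (N i).1 (N i).1 φ := hφ
    obtain ⟨n1, n2⟩ := hφ'.piTwo (N i).2
    obtain ⟨w1, -, -, w4⟩ := hφ'.piV (N i).2
    obtain ⟨f1, f2, f3⟩ := hca.fix_rev hi hu hfr hφ' p2 q2 n2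
    have hprod : ∏ j, pwt S Y kv kf ke C ψ j (N j).1 =
        pW S Y kv kf ke (N i).1 φ * ∏ j ∈ univ.erase i, nwt S Y (N j).1 := by
      rw [← mul_prod_erase univ _ (mem_univ i)]
      congr 1
      · unfold pwt
        rw [if_pos hi]
        exact wPi_of (N i).2 hφ'
      · refine prod_congr rfl fun j hj => ?_
        unfold pwt
        rw [if_neg]
        intro h3
        exact (mem_erase.1 hj).1 (hu j h3)
    rw [hprod, prod_nwt]
    have s1 : ∑ j, (nV (N j).1.s - 2) = (nV (N i).1.s - 2) +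
        ∑ j ∈ univ.erase i, (nV (N j).1.s - 2) :=
      (add_sum_erase univ (fun j => nV (N j).1.s - 2) (mem_univ i)).symm
    have s2 : ∑ j, Fintype.card (N j).1.D / 2 = Fintype.card (N i).1.D / 2 +
        ∑ j ∈ univ.erase i, Fintype.card (N j).1.D / 2 :=
      (add_sum_erase univ (fun j => Fintype.card (N j).1.D / 2) (mem_univ i)).symm
    have s3 := card_T (N i).2
    have z1 : nFix C.toB.s ψ = 0 := by
      have : nFix C.toB.s ψ + nFix C.toB.aa ψ + nFix (C.toB.aa * C.toB.s) ψ = 2 := p2
      omega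
    have z2 : nFix (C.toB.aa * C.toB.s) ψ = 0 := by
      have : nFix C.toB.s ψ + nFix C.toB.aa ψ + nFix (C.toB.aa * C.toB.s) ψ = 2 := p2
      omega
    have z3 : nFix C.toB.aa ψ = 2 := by
      have : nFix C.toB.s ψ + nFix C.toB.aa ψ + nFix (C.toB.aa * C.toB.s) ψ = 2 := p2
      omega
    have z1' : nFix C.s ψ = 0 := z1
    unfold pW
    rw [z1, z2, z3]
    have c1 : nFix (comp C N).s e = nFix (N i).1.s φ := by omega
    have c2 : nFix (comp C N).aa e = nFix (N i).1.aa φ := by omega
    have c3 : nFix ((comp C N).aa * (comp C N).s) e = nFix ((N i).1.aa * (N i).1.s) φ := by omega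
    rw [c1, c2, c3]
    have v1' : 2 ≤ nV C.s := by
      have : nFix C.toB.s ψ + 2 ≤ nV C.s := v1
      omega
    have d1 : nV (comp C N).s - 2 - nFix (N i).1.s φ = (nV C.s - 2) +
        ((nV (N i).1.s - 2 - nFix (N i).1.s φ) + ∑ j ∈ univ.erase i, (nV (N j).1.s - 2)) := by
      omega
    have d2 : Fintype.card (comp C N).T / 2 - nFix (N i).1.aa φ =
        (Fintype.card (N i).1.T / 2 - nFix (N i).1.aa φ) +
          ∑ j ∈ univ.erase i, Fintype.card (N j).1.D / 2 := by
      omega
    rw [d1, d2]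
    have d3 : nV C.toB.s - 2 - 0 = nV C.s - 2 := rfl
    rw [d3]
    simp only [pow_add, pow_zero, one_pow, mul_one]
    ring
  · have hrev' : ∀ i, ψ (Sum.inl (i, true)) ≠ Sum.inl (i, false) := fun i hi => hrev ⟨i, hi⟩
    obtain ⟨f1, f2, f3⟩ := hca.fix_free hrev' hfr p2 q2
    have z3 : nFix C.toB.aa ψ = 1 := le_antisymm (aa_le hca hfr hrev') p1
    have hprod : ∏ j, pwt S Y kv kf ke C ψ j (N j).1 = ∏ j ∈ univ, nwt S Y (N j).1 := by
      refine prod_congr rfl fun j _ => ?_
      unfold pwt
      rw [if_neg (hrev' j)]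
    rw [hprod, prod_nwt]
    unfold pW
    have f1' : nFix (comp C N).s e = nFix C.toB.s ψ := f1
    rw [f1', f2, f3, z3]
    have v1' : nFix C.toB.s ψ + 2 ≤ nV C.s := v1
    have d1 : nV (comp C N).s - 2 - nFix C.toB.s ψ = (nV C.toB.s - 2 - nFix C.toB.s ψ) +
        ∑ j, (nV (N j).1.s - 2) := by
      show _ = (nV C.s - 2 - nFix C.toB.s ψ) + _
      omega
    have d2 : Fintype.card (comp C N).T / 2 - 1 = ∑ j, Fintype.card (N j).1.D / 2 := by omega
    rw [d1, d2]
    simp only [pow_add, pow_zero, one_pow, mul_one]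
    ring

/-- `ctw_mk`, `wPi_of`, `pW_comp` -/
theorem wPi_comp (hC : C.toB.IsGood) (hψ : TwI false true C.toB C.toB ψ)
    (hn : ∀ i b i' b', ψ (Sum.inl (i, b)) = Sum.inl (i', b') →
      ∃ φ : (N i).1.T ≃ (N i').1.T, TwI false (xor b b') (N i).1 (N i').1 φ) :
    wPi S Y kv kf ke (comp C N) =
      pW S 1 kv kf 1 C.toB ψ * ∏ i, pwt S Y kv kf ke C ψ i (N i).1 := by
  obtain ⟨e, he⟩ := ctw_mk hψ hn
  rw [wPi_of (comp_good C N hC) he.tw]
  exact pW_comp hC he

/-- `ctw_exists` -/
theorem wPi_comp_none (hC : C.toB.IsGood) (hR : Rigid C.toB)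
    (h : ¬ ∃ ψ : Perm C.toB.T, TwI false true C.toB C.toB ψ ∧
      ∀ i b i' b', ψ (Sum.inl (i, b)) = Sum.inl (i', b') →
        ∃ φ : (N i).1.T ≃ (N i').1.T, TwI false (xor b b') (N i).1 (N i').1 φ) :
    wPi S Y kv kf ke (comp C N) = 0 := by
  refine wPi_none ?_
  rintro ⟨e, he⟩
  obtain ⟨ψ, hψ⟩ := ctw_exists hC hR hC hR he
  refine h ⟨ψ, hψ.core, fun i b i' b' hi => ?_⟩
  obtain ⟨φ, hφ, -⟩ := hψ.nets i b i' b' hi
  exact ⟨φ, hφ⟩

end

end PGr

end

section
/-! # Module RPiR: sum over the composites with rigid core -/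

set_option linter.unusedSectionVars false

namespace PGr
open Equiv Finset
open scoped ENNReal Classical

private theorem RPiR_sc {T : Type*} {a : Perm T} (ha : ∀ t, a (a t) = t) {x y : T}
    (h : a.SameCycle x y) : y = x ∨ y = a x := by
  obtain ⟨n, rfl⟩ := h
  have h2 : ∀ t, (a ^ (2 : ℤ)) t = t := fun t => by
    rw [show (2 : ℤ) = ((2 : ℕ) : ℤ) from rfl, zpow_natCast, pow_two, Perm.mul_apply, ha]
  have h3 : ∀ (m : ℤ) (t : T), (a ^ (2 * m)) t = t := by
    intro m t
    have h4 : a ^ (2 : ℤ) = 1 := by ext t : 1; exact h2 t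
    rw [zpow_mul, h4, one_zpow]; rfl
  rcases Int.even_or_odd' n with ⟨m, rfl | rfl⟩
  · left; exact h3 m x
  · right
    rw [add_comm, zpow_add, Perm.mul_apply, h3, zpow_one]

/-- the number of the edges of the core fixed by a rotation exchanging the root darts -/
private theorem RPiR_nFix (C : Core) (hC : C.toB.IsGood) {ψ : Perm C.toB.T}
    (hψ : TwI false true C.toB C.toB ψ) (τ : C.I → C.I) (γ : C.I → Bool)
    (hall : ∀ i b, ψ (Sum.inl (i, b)) = Sum.inl (τ i, xor (γ i) b)) :
    nFix C.toB.aa ψ = (univ.filter fun i => τ i = i).card + 1 := by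
  have haa : ∀ t, C.toB.aa (C.toB.aa t) = t := hC.inv
  unfold nFix
  have h0 : ((univ.filter fun i => τ i = i).card + 1) =
      Nat.card (Option {i : C.I // τ i = i}) := by
    rw [Nat.card_eq_fintype_card, Fintype.card_option, Fintype.card_subtype]
  rw [h0]
  symm
  have hL : ∀ i, C.toB.aa (Sum.inl (i, true)) = Sum.inl (i, false) := fun i => rfl
  have hfix : ∀ i, τ i = i → C.toB.aa.SameCycle (Sum.inl (i, true) : C.toB.T)
      (ψ (Sum.inl (i, true))) := by
    intro i hi
    rw [hall, hi]
    cases γ i with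
    | true => exact ⟨1, by rw [zpow_one]; exact hL i⟩
    | false => exact ⟨0, rfl⟩
  have hroot : C.toB.aa.SameCycle (Sum.inr true : C.toB.T) (ψ (Sum.inr true)) := by
    rw [hψ.root]
    exact ⟨1, by rw [zpow_one]; rfl⟩
  refine Nat.card_congr (Equiv.ofBijective (fun o : Option {i : C.I // τ i = i} =>
    (match o with
    | none => ⟨Quotient.mk (Perm.SameCycle.setoid C.toB.aa) (Sum.inr true), Sum.inr true, rfl, hroot⟩
    | some i => ⟨Quotient.mk (Perm.SameCycle.setoid C.toB.aa) (Sum.inl (i.1, true)),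
        Sum.inl (i.1, true), rfl, hfix i.1 i.2⟩ :
      {q : Quotient (Perm.SameCycle.setoid C.toB.aa) // ∃ t, q = Quotient.mk _ t ∧
        C.toB.aa.SameCycle t (ψ t)})) ⟨?_, ?_⟩)
  · rintro (_ | ⟨i, hi⟩) (_ | ⟨j, hj⟩) h
    · rfl
    · exfalso
      have h1 : C.toB.aa.SameCycle (Sum.inr true : C.toB.T) (Sum.inl (j, true)) :=
        Quotient.exact (congrArg Subtype.val h)
      rcases RPiR_sc haa h1 with h2 | h2
      · cases h2
      · have h3 : (Sum.inl (j, true) : C.toB.T) = Sum.inr false := h2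
        cases h3
    · exfalso
      have h1 : C.toB.aa.SameCycle (Sum.inl (i, true) : C.toB.T) (Sum.inr true) :=
        Quotient.exact (congrArg Subtype.val h)
      rcases RPiR_sc haa h1 with h2 | h2
      · cases h2
      · have h3 : (Sum.inr true : C.toB.T) = Sum.inl (i, false) := h2
        cases h3
    · have h1 : C.toB.aa.SameCycle (Sum.inl (i, true) : C.toB.T) (Sum.inl (j, true)) :=
        Quotient.exact (congrArg Subtype.val h)
      rcases RPiR_sc haa h1 with h2 | h2
      · have h3 : j = i := congrArg Prod.fst (Sum.inl_injective h2)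
        subst h3; rfl
      · have h3 : (Sum.inl (j, true) : C.toB.T) = Sum.inl (i, false) := h2
        have h4 := congrArg Prod.snd (Sum.inl_injective h3)
        cases h4
  · rintro ⟨q, t, rfl, ht⟩
    rcases t with ⟨i, b⟩ | b
    · have hi : τ i = i := by
        rw [hall] at ht
        rcases RPiR_sc haa ht with h2 | h2
        · exact congrArg Prod.fst (Sum.inl_injective h2)
        · have h3 : (Sum.inl (τ i, xor (γ i) b) : C.toB.T) = Sum.inl (i, !b) := h2
          exact congrArg Prod.fst (Sum.inl_injective h3)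
      refine ⟨some ⟨i, hi⟩, Subtype.ext (Quotient.sound ?_)⟩
      show C.toB.aa.SameCycle (Sum.inl (i, true)) (Sum.inl (i, b))
      cases b
      · exact ⟨1, by rw [zpow_one]; rfl⟩
      · exact ⟨0, rfl⟩
    · refine ⟨none, Subtype.ext (Quotient.sound ?_)⟩
      show C.toB.aa.SameCycle (Sum.inr true) (Sum.inr b)
      cases b
      · exact ⟨1, by rw [zpow_one]; rfl⟩
      · exact ⟨0, rfl⟩

section
variable {S Y Eb kv kf ke x : ℝ≥0∞}

/-- Proof (compare `rig_core` in PGs/RigTot).  If the core has no rotation `ψ` exchanging the root darts, all terms are 0 (`wPi_comp_none`).  Otherwise `ψ` is unique (`TwI.unique`); define `τ i`, `β i` by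
`ψ (inl (i, true)) = inl (τ i, β i)` (then `ψ (inl (i, false)) = inl (τ i, !(β i))`, `τ` is an involution) and `θ i c = twC false (!(β i)) c`.  The nets `(F i).rep` are compatible with `ψ` iff `F (τ i) = θ i (F i)` for all `i`
(`twC_eq_iff`).  `wPi_comp`, `wPi_comp_none`; `orb_prod` with `g i c = pwt S Y kv kf ke C ψ i c.rep.1`; for `τ i ≠ i` the sum of `g i c * g (τ i) (θ i c)` is `∑ nwt ^ 2 = Eb ^ 2` (`tsum_nwt_pow`); for
`τ i = i` we have `β i = false` (`TwI.piFree`), the edge is reversed, and the sum over the `c` with `twC false true c = c` is `FRs` (`pi_iff`, `wPi_none`).  The number of the `i` with `τ i ≠ i` is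
`|T| / 2 - nFix aa ψ`, the number of the others is `nFix aa ψ - 1`. -/
theorem rig_core_Pi (C : Core) (hC : C.toB.IsGood) (hR : Rigid C.toB)
    (hE : Eb ^ 2 = eN (S ^ 2) 1 (Y ^ 2) 1) :
    (∑' F : C.I → GC, wPi S Y kv kf ke (comp C fun i => (F i).rep)) =
      wPi S Eb kv kf (FRs S Y kv kf ke) C.toB := by
  by_cases hex : ∃ ψ : Perm C.toB.T, TwI false true C.toB C.toB ψ
  swap
  · -- no rotation
    have h1 : ∀ F : C.I → GC, wPi S Y kv kf ke (comp C (fun i => (F i).rep)) = 0 := fun F =>
      wPi_comp_none hC hR (fun ⟨ψ, hψ, _⟩ => hex ⟨ψ, hψ⟩)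
    simp only [h1, tsum_zero]
    exact (wPi_none hex).symm
  · obtain ⟨ψ, hψ⟩ := hex
    -- the action on the edges
    have hact : ∀ i : C.I, ∃ p : C.I × Bool, ψ (Sum.inl (i, true)) = Sum.inl p := fun i =>
      hψ.inl (i, true)
    choose p hp using hact
    let τ : C.I → C.I := fun i => (p i).1
    let γ : C.I → Bool := fun i => xor true (p i).2
    have hall : ∀ i b, ψ (Sum.inl (i, b)) = Sum.inl (τ i, xor (γ i) b) := by
      intro i b
      have h1 : ψ (Sum.inl (i, true)) = Sum.inl (τ i, (p i).2) := hp i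
      cases b with
      | true =>
        rw [h1]
        show (Sum.inl (τ i, (p i).2) : C.toB.T) = Sum.inl (τ i, xor (xor true (p i).2) true)
        cases (p i).2 <;> rfl
      | false =>
        have h2 : ψ (Sum.inl (i, false)) = C.toB.aa (ψ (Sum.inl (i, true))) :=
          hψ.aa (Sum.inl (i, true))
        rw [h2, h1]
        show (Sum.inl (τ i, !(p i).2) : C.toB.T) = Sum.inl (τ i, xor (xor true (p i).2) false)
        cases (p i).2 <;> rfl
    have hinv : ∀ i, τ (τ i) = i ∧ γ (τ i) = γ i := by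
      intro i
      have h1 : ψ (ψ (Sum.inl (i, true))) = Sum.inl (i, true) := hψ.invol hC (Sum.inl (i, true))
      rw [hall] at h1
      have h1' := (hall (τ i) (xor (γ i) true)).symm.trans h1
      have h2 := Sum.inl_injective h1'
      have h3 : τ (τ i) = i := congrArg Prod.fst h2
      have h4 : xor (γ (τ i)) (xor (γ i) true) = true := congrArg Prod.snd h2
      refine ⟨h3, ?_⟩
      revert h4
      cases γ (τ i) <;> cases γ i <;> simp
    have hγ : ∀ i, τ i = i → γ i = true := by
      intro i hi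
      by_contra h1
      rw [Bool.not_eq_true] at h1
      have h2 := hall i true
      rw [hi, h1] at h2
      exact hψ.piFree hC _ h2
    have hfixcard := RPiR_nFix C hC hψ τ γ hall
    -- compatible families
    have hcomp : ∀ F : C.I → GC, wPi S Y kv kf ke (comp C (fun i => (F i).rep)) =
        pW S 1 kv kf 1 C.toB ψ *
          (if ∀ i, F (τ i) = twC false (γ i) (F i) then
            ∏ i, pwt S Y kv kf ke C ψ i (F i).rep.1 else 0) := by
      intro F
      by_cases hF : ∀ i, F (τ i) = twC false (γ i) (F i)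
      · rw [if_pos hF]
        refine wPi_comp hC hψ ?_
        intro i b i' b' hi
        rw [hall] at hi
        have h2 := Sum.inl_injective hi
        have h3 : τ i = i' := congrArg Prod.fst h2
        have h4 : xor (γ i) b = b' := congrArg Prod.snd h2
        have h5 : xor b b' = γ i := by
          rw [← h4]; cases γ i <;> cases b <;> rfl
        rw [h5, ← h3]
        exact twC_eq_iff.1 (hF i).symm
      · rw [if_neg hF, mul_zero]
        refine wPi_comp_none hC hR ?_
        rintro ⟨χ, hχ, hn⟩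
        have h1 : χ = ψ := TwI.unique hC hχ hψ
        subst h1
        apply hF
        intro i
        have h2 := hn i true (τ i) (xor (γ i) true) (hall i true)
        have h5 : xor true (xor (γ i) true) = γ i := by cases γ i <;> rfl
        rw [h5] at h2
        exact (twC_eq_iff.2 h2).symm
    have hsum : ∑' F : C.I → GC, wPi S Y kv kf ke (comp C (fun i => (F i).rep)) =
        pW S 1 kv kf 1 C.toB ψ *
          ∑' F : C.I → GC, (if ∀ i, F (τ i) = twC false (γ i) (F i) then
            ∏ i, pwt S Y kv kf ke C ψ i (F i).rep.1 else 0) := by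
      rw [← ENNReal.tsum_mul_left]
      exact tsum_congr hcomp
    have horb := orb_prod (Λ := GC) τ (fun i => (hinv i).1) (fun i x => twC false (γ i) x)
      (fun i x => by
        show twC false (γ (τ i)) (twC false (γ i) x) = x
        rw [(hinv i).2, twC_inv])
      (fun i x => pwt S Y kv kf ke C ψ i x.rep.1) (Eb ^ 2) (fun i hi => by
        have hne : ∀ j, τ j ≠ j → ∀ x : GC, pwt S Y kv kf ke C ψ j x.rep.1 = nwt S Y x.rep.1 := by
          intro j hj x
          have h2 : ¬ ψ (Sum.inl (j, true)) = Sum.inl (j, false) := by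
            rw [hall]
            intro h2
            exact hj (congrArg Prod.fst (Sum.inl_injective h2))
          unfold pwt
          rw [if_neg h2]
        rw [hE, ← tsum_nwt_pow]
        refine tsum_congr fun x => ?_
        have hi' : τ (τ i) ≠ τ i := by rw [(hinv i).1]; exact hi.symm
        rw [hne i hi x, hne (τ i) hi' _, nwt_twC, pow_two])
    -- the fixed edges
    have hfix : ∀ i, τ i = i →
        (∑' x : GC, if twC false (γ i) x = x then pwt S Y kv kf ke C ψ i x.rep.1 else 0) =
          FRs S Y kv kf ke := by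
      intro i hi
      have h0 := hall i true
      rw [hi, hγ i hi] at h0
      have h2 : ψ (Sum.inl (i, true)) = Sum.inl (i, false) := h0
      unfold FRs
      refine tsum_congr fun x => ?_
      unfold pwt
      rw [hγ i hi, if_pos h2]
      split_ifs with h3
      · rfl
      · exact (wPi_none (fun h4 => h3 ((pi_iff x).1 h4))).symm
    have hprod : (∏ i ∈ univ.filter fun i => τ i = i,
        ∑' x : GC, if twC false (γ i) x = x then pwt S Y kv kf ke C ψ i x.rep.1 else 0) =
        FRs S Y kv kf ke ^ (univ.filter fun i => τ i = i).card := by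
      rw [← Finset.prod_const]
      refine Finset.prod_congr rfl fun i hi => ?_
      rw [mem_filter] at hi
      exact hfix i hi.2
    have horb' : (∑' F : C.I → GC, (if ∀ i, F (τ i) = twC false (γ i) (F i) then
        ∏ i, pwt S Y kv kf ke C ψ i (F i).rep.1 else 0)) =
        (∏ i ∈ univ.filter fun i => τ i = i,
          ∑' x : GC, if twC false (γ i) x = x then pwt S Y kv kf ke C ψ i x.rep.1 else 0) *
        (Eb ^ 2) ^ ((univ.filter fun i : C.I => τ i ≠ i).card / 2) := by
      refine (tsum_congr fun F => ?_).trans (horb.trans ?_)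
      · split_ifs <;> rfl
      · congr 1
        refine Finset.prod_congr (by congr) fun i _ => tsum_congr fun x => ?_
        split_ifs <;> rfl
    -- counting
    have hT : Fintype.card C.toB.T / 2 = Fintype.card C.I + 1 := by
      have h1 : Fintype.card C.toB.T = Fintype.card C.I * 2 + 2 := by
        show Fintype.card ((C.I × Bool) ⊕ Bool) = _
        rw [Fintype.card_sum, Fintype.card_prod, Fintype.card_bool]
      omega
    have htot : (univ.filter fun i : C.I => τ i = i).card +
        (univ.filter fun i : C.I => τ i ≠ i).card = Fintype.card C.I := by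
      have h1 := Finset.card_filter_add_card_filter_not (s := (univ : Finset C.I)) (fun i => τ i = i)
      rw [Finset.card_univ] at h1
      exact h1
    have hnum : Fintype.card C.toB.T / 2 - nFix C.toB.aa ψ =
        (univ.filter fun i : C.I => τ i ≠ i).card := by
      rw [hT, hfixcard]
      omega
    have heven : 2 ∣ (univ.filter fun i : C.I => τ i ≠ i).card := by
      rw [← hnum]
      exact (hψ.piV hC).2.2.1
    have hnum2 : nFix C.toB.aa ψ - 1 = (univ.filter fun i : C.I => τ i = i).card := by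
      rw [hfixcard]
      omega
    rw [hsum, horb', hprod, wPi_of hC hψ, ← pow_mul, Nat.mul_div_cancel' heven]
    unfold pW
    rw [hnum, hnum2, one_pow, one_pow]
    ring

/-- rigid maps with a rotation exchanging the root darts -/
noncomputable def RigPi (S Eb kv kf x : ℝ≥0∞) : ℝ≥0∞ :=
  ∑' c : GC, if Rigid c.rep.1 then wPi S Eb kv kf x c.rep.1 else 0

/-- `rig_sum`, `wPi_iso`, `rig_core_Pi` for `ESum.core c`, `ESum.core_iso` (as `rig_total`) -/
theorem FR_rig (hE : Eb ^ 2 = eN (S ^ 2) 1 (Y ^ 2) 1) :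
    FRsel S Y kv kf ke (fun M => ¬ IsSer M ∧ ¬ IsPar M ∧ 4 ≤ Fintype.card M.D) =
      RigPi S Eb kv kf (FRs S Y kv kf ke) := by
  unfold FRsel
  refine Eq.trans ?_ ((rig_sum (fun x => wPi S Y kv kf ke x.rep.1)).trans ?_)
  · refine tsum_congr fun c => ?_
    split_ifs <;> rfl
  have h1 : ∀ p : RigLe.Ix, (if Rigid p.1.rep.1 then wPi S Y kv kf ke (ixC p).rep.1 else 0) =
      (fun (x : GC) (F : (ESum.core x).I → GC) => if Rigid x.rep.1 then
        wPi S Y kv kf ke (comp (ESum.core x) (fun i => (F i).rep)) else 0) p.1 p.2 := by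
    intro p
    have h2 : wPi S Y kv kf ke (ixC p).rep.1 =
        wPi S Y kv kf ke (comp (ESum.core p.1) (fun i => (p.2 i).rep)) :=
      wPi_iso (ESum.rep_iso _)
    simp only [h2]
  refine (tsum_congr h1).trans ((tsum_sigma_eq (fun (x : GC) (F : (ESum.core x).I → GC) =>
    if Rigid x.rep.1 then wPi S Y kv kf ke (comp (ESum.core x) (fun i => (F i).rep))
      else 0)).symm.trans ?_)
  unfold RigPi
  refine tsum_congr fun x => ?_
  by_cases hx : Rigid x.rep.1
  · simp only [if_pos hx]
    rw [rig_core_Pi (ESum.core x) (ESum.core_good x) ((ESum.core_iso x).symm.rigid hx) hE]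
    exact wPi_iso (ESum.core_iso x)
  · simp only [if_neg hx, tsum_zero]

end

end PGr

end

section
/-! # Module RPiV: weights of series and parallel compositions with a rotation exchanging the root darts -/

set_option linter.unusedSectionVars false

namespace PGr

section RPiV_dec
open Equiv Finset

private def RPiV_e2 : Perm ((Bool × Bool) ⊕ Bool) :=
  Perm.sumCongr (Equiv.prodCongr Equiv.boolNot Equiv.boolNot) Equiv.boolNot

private def RPiV_rev : Perm (Fin 3) := swap 0 2

private def RPiV_e3 : Perm ((Fin 3 × Bool) ⊕ Bool) :=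
  Perm.sumCongr (Equiv.prodCongr RPiV_rev Equiv.boolNot) Equiv.boolNot

private def RPiV_s2 : Perm ((Bool × Bool) ⊕ Bool) := tri.s
private def RPiV_s3 : Perm ((Fin 3 × Bool) ⊕ Bool) := quad.s
private def RPiV_d2 : Perm ((Bool × Bool) ⊕ Bool) := (ddCore tri).s
private def RPiV_d3 : Perm ((Fin 3 × Bool) ⊕ Bool) := (ddCore quad).s
private def RPiV_a2 : Perm ((Bool × Bool) ⊕ Bool) :=
  ext (Equiv.prodCongr (Equiv.refl Bool) Equiv.boolNot)
private def RPiV_a3 : Perm ((Fin 3 × Bool) ⊕ Bool) :=
  ext (Equiv.prodCongr (Equiv.refl (Fin 3)) Equiv.boolNot)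

private theorem RPiV_rs2 : ∀ t, RPiV_e2 (RPiV_s2 t) = RPiV_s2 (RPiV_e2 t) := by decide
private theorem RPiV_rs3 : ∀ t, RPiV_e3 (RPiV_s3 t) = RPiV_s3 (RPiV_e3 t) := by decide
private theorem RPiV_rd2 : ∀ t, RPiV_e2 (RPiV_d2 t) = RPiV_d2 (RPiV_e2 t) := by decide
private theorem RPiV_rd3 : ∀ t, RPiV_e3 (RPiV_d3 t) = RPiV_d3 (RPiV_e3 t) := by decide
private theorem RPiV_ra2 : ∀ t, RPiV_e2 (RPiV_a2 t) = RPiV_a2 (RPiV_e2 t) := by decide
private theorem RPiV_ra3 : ∀ t, RPiV_e3 (RPiV_a3 t) = RPiV_a3 (RPiV_e3 t) := by decide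

private theorem RPiV_fv : RPiV_e2 (Sum.inl (true, false)) = RPiV_s2 (Sum.inl (true, false)) := by
  decide

private theorem RPiV_ff : ∃ t, RPiV_e2 t = (RPiV_a2 * RPiV_d2) t := by
  decide

/-- the edge of a dart -/
private def RPiV_ed : (Fin 3 × Bool) ⊕ Bool → Option (Fin 3)
  | Sum.inl (i, _) => some i
  | Sum.inr _ => none

private theorem RPiV_eda : ∀ t, RPiV_ed (RPiV_a3 t) = RPiV_ed t := by decide

private theorem RPiV_edsc {t t' : (Fin 3 × Bool) ⊕ Bool} (h : RPiV_a3.SameCycle t t') :
    RPiV_ed t = RPiV_ed t' := by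
  obtain ⟨i, rfl⟩ := h
  induction i using Int.induction_on generalizing t with
  | zero => simp
  | succ n ih =>
    rw [zpow_add_one, Perm.mul_apply, ← ih, RPiV_eda]
  | pred n ih =>
    rw [zpow_sub_one, Perm.mul_apply, ← ih]
    have := RPiV_eda (RPiV_a3⁻¹ t)
    rw [show RPiV_a3 (RPiV_a3⁻¹ t) = t from Equiv.apply_symm_apply _ _] at this
    exact this

private def RPiV_psi2 : Perm tri.toB.T := RPiV_e2
private def RPiV_psi3 : Perm quad.toB.T := RPiV_e3
private def RPiV_phi2 : Perm (ddCore tri).toB.T := RPiV_e2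
private def RPiV_phi3 : Perm (ddCore quad).toB.T := RPiV_e3

private theorem RPiV_tw2 : TwI false true tri.toB tri.toB RPiV_psi2 where
  aa := RPiV_ra2
  rot := RPiV_rs2
  root b := by cases b <;> rfl

private theorem RPiV_tw3 : TwI false true quad.toB quad.toB RPiV_psi3 where
  aa := RPiV_ra3
  rot := RPiV_rs3
  root b := by cases b <;> rfl

private theorem RPiV_tp2 : TwI false true (ddCore tri).toB (ddCore tri).toB RPiV_phi2 where
  aa := RPiV_ra2
  rot := RPiV_rd2
  root b := by cases b <;> rfl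

private theorem RPiV_tp3 : TwI false true (ddCore quad).toB (ddCore quad).toB RPiV_phi3 where
  aa := RPiV_ra3
  rot := RPiV_rd3
  root b := by cases b <;> rfl

private theorem RPiV_scf {T : Type*} {s : Perm T} {t t' : T} (h : t' = s t) : s.SameCycle t t' :=
  ⟨1, by rw [zpow_one, h]⟩

end RPiV_dec

open Equiv Finset
open scoped ENNReal Classical

private theorem RPiV_assoc (a k b : GC) : parC (parC a k) b = parC a (parC k b) := by
  refine DualC_inj ?_
  rw [DualC_par, DualC_par, DualC_par, DualC_par, serC_assoc]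

section
variable {S Y Eb kv kf ke x : ℝ≥0∞}

private theorem RPiV_w2 : pW S 1 kv kf 1 tri.toB RPiV_psi2 = kv := by
  have h := RPiV_tw2.piTwo tri_good
  have h1 : 1 ≤ nFix tri.toB.s RPiV_psi2 :=
    Poles_pos.2 ⟨Sum.inl (true, false), RPiV_scf RPiV_fv⟩
  have h2 : nFix tri.toB.s RPiV_psi2 = 1 := by omega
  have h3 : nFix tri.toB.aa RPiV_psi2 = 1 := by omega
  have h4 : nFix (tri.toB.aa * tri.toB.s) RPiV_psi2 = 0 := by omega
  have h5 : nV tri.toB.s = 3 := tri_nV
  unfold pW
  rw [h2, h3, h4, h5]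
  simp

private theorem RPiV_w3 : pW S 1 kv kf 1 quad.toB RPiV_psi3 = S ^ 2 := by
  have h := RPiV_tw3.piTwo quad_good
  have h1 : 2 ≤ nFix quad.toB.aa RPiV_psi3 := by
    by_contra hc
    have h2 : RPiV_a3.SameCycle (Sum.inr true) (Sum.inl (1, true)) :=
      Poles_one (g := quad.toB.aa) (τ := RPiV_psi3) (by omega) (RPiV_scf rfl) (RPiV_scf rfl)
    have h3 := RPiV_edsc h2
    exact absurd h3 (by decide)
  have h2 : nFix quad.toB.s RPiV_psi3 = 0 := by omega
  have h4 : nFix (quad.toB.aa * quad.toB.s) RPiV_psi3 = 0 := by omega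
  have h5 : nV quad.toB.s = 4 := quad_nV
  unfold pW
  rw [h2, h4, h5]
  simp

private theorem RPiV_v2 : pW S 1 kv kf 1 (ddCore tri).toB RPiV_phi2 = kf := by
  have h := RPiV_tp2.piTwo (dd_good tri_good)
  have h1 : 1 ≤ nFix ((ddCore tri).toB.aa * (ddCore tri).toB.s) RPiV_phi2 := by
    obtain ⟨t, ht⟩ := RPiV_ff
    exact Poles_pos.2 ⟨t, RPiV_scf ht⟩
  have h2 : nFix (ddCore tri).toB.s RPiV_phi2 = 0 := by omega
  have h3 : nFix (ddCore tri).toB.aa RPiV_phi2 = 1 := by omega
  have h4 : nFix ((ddCore tri).toB.aa * (ddCore tri).toB.s) RPiV_phi2 = 1 := by omega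
  have h5 : nV (ddCore tri).toB.s = 2 := bond_nV
  unfold pW
  rw [h2, h3, h4, h5]
  simp

private theorem RPiV_v3 : pW S 1 kv kf 1 (ddCore quad).toB RPiV_phi3 = 1 := by
  have h := RPiV_tp3.piTwo (dd_good quad_good)
  have h1 : 2 ≤ nFix (ddCore quad).toB.aa RPiV_phi3 := by
    by_contra hc
    have h2 : RPiV_a3.SameCycle (Sum.inr true) (Sum.inl (1, true)) :=
      Poles_one (g := (ddCore quad).toB.aa) (τ := RPiV_phi3) (by omega) (RPiV_scf rfl)
        (RPiV_scf rfl)
    have h3 := RPiV_edsc h2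
    exact absurd h3 (by decide)
  have h2 : nFix (ddCore quad).toB.s RPiV_phi3 = 0 := by omega
  have h4 : nFix ((ddCore quad).toB.aa * (ddCore quad).toB.s) RPiV_phi3 = 0 := by omega
  have h5 : nV (ddCore quad).toB.s = 2 := bond3_nV
  unfold pW
  rw [h2, h4, h5]
  simp

/-- the nets on a core with two nonroot edges which are exchanged -/
private theorem RPiV_nets2 {A B : GB} {φ : A.1.T ≃ B.1.T} (hφ : TwI false true A.1 B.1 φ)
    (i b i' b' : Bool) (h : (Sum.inl (!i, !b) : (Bool × Bool) ⊕ Bool) = Sum.inl (i', b')) :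
    ∃ φ : (serNets A B i).1.T ≃ (serNets A B i').1.T,
      TwI false (xor b b') (serNets A B i).1 (serNets A B i').1 φ := by
  obtain ⟨h3, h4⟩ := Prod.mk.inj (Sum.inl_injective h)
  subst h3
  subst h4
  have h5 : xor b (!b) = true := by cases b <;> rfl
  rw [h5]
  cases i with
  | true => exact ⟨φ, hφ⟩
  | false => exact ⟨φ.symm, hφ.symm⟩

private theorem RPiV_nets3 {A K B : GB} {φ : A.1.T ≃ B.1.T} (hφ : TwI false true A.1 B.1 φ)
    {χ : Perm K.1.T} (hχ : TwI false true K.1 K.1 χ) (i : Fin 3) (b : Bool) (i' : Fin 3) (b' : Bool)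
    (h : (Sum.inl (RPiV_rev i, !b) : (Fin 3 × Bool) ⊕ Bool) = Sum.inl (i', b')) :
    ∃ φ : (nets3 A K B i).1.T ≃ (nets3 A K B i').1.T,
      TwI false (xor b b') (nets3 A K B i).1 (nets3 A K B i').1 φ := by
  obtain ⟨h3, h4⟩ := Prod.mk.inj (Sum.inl_injective h)
  subst h3
  subst h4
  have h5 : xor b (!b) = true := by cases b <;> rfl
  rw [h5]
  have hi3 : ∀ j : Fin 3, ∃ φ, TwI false true (nets3 A K B j).1 (nets3 A K B (RPiV_rev j)).1 φ := by
    intro j
    fin_cases j
    · exact ⟨φ, hφ⟩
    · exact ⟨χ, hχ⟩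
    · exact ⟨φ.symm, hφ.symm⟩
  exact hi3 i

/-! In all cases: `wPi_comp` with `twC_eq_iff` for the nets (compare `sw_ser2`, `sw_ser3` in PGs/ValS, `sw_par` in ValP, which have the same structure for reflections). -/

/-- `tri` with `ψ (inl (i, b)) = inl (!i, !b)`, `ψ (inr b) = inr (!b)`: `nV tri.s = 3` (`tri_nV`), the middle vertex is fixed, so `pW S 1 kv kf 1 tri.toB ψ = kv` (`TwI.piTwo`: no
fixed face, only the root edge); no edge is reversed -/
theorem wPi_ser2 (a : GC) : wPi S Y kv kf ke (serC a (twC false true a)).rep.1 =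
    kv * nwt S Y a.rep.1 ^ 2 := by
  set b := twC false true a with hb
  obtain ⟨φ, hφ⟩ := twC_eq_iff.1 hb.symm
  have e1 : wPi S Y kv kf ke (serC a b).rep.1 =
      wPi S Y kv kf ke (comp tri (serNets a.rep b.rep)) := wPi_iso (ESum.rep_iso _)
  have e2 := wPi_comp (S := S) (Y := Y) (kv := kv) (kf := kf) (ke := ke)
    (N := serNets a.rep b.rep) tri_good RPiV_tw2 (RPiV_nets2 hφ)
  have hne : ∀ (i : Bool) (M : BMap), pwt S Y kv kf ke tri RPiV_psi2 i M = nwt S Y M := by
    intro i M
    have h2 : ¬ RPiV_psi2 (Sum.inl (i, true)) = Sum.inl (i, false) := by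
      intro h
      have h2 : (!i) = i := congrArg Prod.fst (Sum.inl_injective h)
      cases i <;> cases h2
    exact if_neg h2
  have h1 : ∏ i : tri.I, pwt S Y kv kf ke tri RPiV_psi2 i (serNets a.rep b.rep i).1 =
      ∏ i : Bool, nwt S Y (serNets a.rep b.rep i).1 :=
    Finset.prod_congr rfl fun i _ => hne i _
  rw [h1, Fintype.prod_bool, RPiV_w2] at e2
  rw [e1, e2]
  change kv * (nwt S Y a.rep.1 * nwt S Y b.rep.1) = _
  rw [hb, nwt_twC]
  ring

/-- If `twC false true k ≠ k` both sides are 0 (`twC_serC_true`, `serC_assoc`, `serC_inj`, `serC_right_inj`, `pi_iff`).  Otherwise `serC_quad`, `quad` with `ψ` reversing the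
middle edge and exchanging the two other edges: `nV quad.s = 4`, no fixed vertex, `pW S 1 kv kf 1 quad.toB ψ = S ^ 2`. -/
theorem wPi_ser3 {a : GC} (ha : ¬ IsSer a.rep.1) (k : GC) :
    wPi S Y kv kf ke (serC a (serC k (twC false true a))).rep.1 =
      S ^ 2 * nwt S Y a.rep.1 ^ 2 * wPi S Y kv kf ke k.rep.1 := by
  set b := twC false true a with hb
  have hbt : twC false true b = a := by rw [hb, twC_inv]
  by_cases hk : twC false true k = k
  · obtain ⟨φ, hφ⟩ := twC_eq_iff.1 hb.symm
    obtain ⟨χ, hχ⟩ := twC_eq_iff.1 hk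
    have e1 : wPi S Y kv kf ke (serC a (serC k b)).rep.1 =
        wPi S Y kv kf ke (comp quad (nets3 a.rep k.rep b.rep)) := by
      rw [serC_quad]
      exact wPi_iso (ESum.rep_iso _)
    have e2 := wPi_comp (S := S) (Y := Y) (kv := kv) (kf := kf) (ke := ke) (C := quad)
      (N := nets3 a.rep k.rep b.rep) quad_good RPiV_tw3 (RPiV_nets3 hφ hχ)
    have h0 : pwt S Y kv kf ke quad RPiV_psi3 (0 : Fin 3) a.rep.1 = nwt S Y a.rep.1 := by
      refine if_neg fun h => ?_
      have h2 : (2 : Fin 3) = 0 := congrArg Prod.fst (Sum.inl_injective h)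
      exact absurd h2 (by decide)
    have h2' : pwt S Y kv kf ke quad RPiV_psi3 (2 : Fin 3) b.rep.1 = nwt S Y b.rep.1 := by
      refine if_neg fun h => ?_
      have h2 : (0 : Fin 3) = 2 := congrArg Prod.fst (Sum.inl_injective h)
      exact absurd h2 (by decide)
    have h1' : pwt S Y kv kf ke quad RPiV_psi3 (1 : Fin 3) k.rep.1 = wPi S Y kv kf ke k.rep.1 :=
      if_pos rfl
    have h3 : ∏ i : quad.I, pwt S Y kv kf ke quad RPiV_psi3 i (nets3 a.rep k.rep b.rep i).1 =
        pwt S Y kv kf ke quad RPiV_psi3 (0 : Fin 3) a.rep.1 *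
          pwt S Y kv kf ke quad RPiV_psi3 (1 : Fin 3) k.rep.1 *
          pwt S Y kv kf ke quad RPiV_psi3 (2 : Fin 3) b.rep.1 :=
      Fin.prod_univ_three (fun i : Fin 3 =>
        pwt S Y kv kf ke quad RPiV_psi3 i (nets3 a.rep k.rep b.rep i).1)
    rw [h3, h0, h1', h2', RPiV_w3, hb, nwt_twC] at e2
    rw [e1, hb, e2]
    ring
  · have hz : ¬ IsSer b.rep.1 := by rw [hb, SerAlg_ser]; exact ha
    have h1 : wPi S Y kv kf ke k.rep.1 = 0 := wPi_none fun h => hk ((pi_iff k).1 h)
    rw [h1, mul_zero]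
    refine wPi_none fun h => hk ?_
    have h2 := (pi_iff (serC a (serC k b))).1 h
    rw [twC_serC_true, twC_serC_true, hbt, ← hb, serC_assoc] at h2
    exact serC_right_inj hz (serC_inj ha ha h2).2

/-- `par_bond`, `ddCore tri` with `ψ (inl (i, b)) = inl (!i, !b)`, `ψ (inr b) = inr (!b)`: two vertices (`bond_nV`), which are exchanged; the face between the two edges is fixed:
`pW S 1 kv kf 1 _ ψ = kf` -/
theorem wPi_par2 (a : GC) : wPi S Y kv kf ke (parC a (twC false true a)).rep.1 =
    kf * nwt S Y a.rep.1 ^ 2 := by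
  set b := twC false true a with hb
  obtain ⟨φ, hφ⟩ := twC_eq_iff.1 hb.symm
  have e1 : wPi S Y kv kf ke (parC a b).rep.1 =
      wPi S Y kv kf ke (comp (ddCore tri) (serNets a.rep b.rep)) :=
    wPi_iso ((ESum.rep_iso ⟨parMap a.rep b.rep, parMap_good _ _⟩).trans (par_bond a.rep b.rep))
  have e2 := wPi_comp (S := S) (Y := Y) (kv := kv) (kf := kf) (ke := ke) (C := ddCore tri)
    (N := serNets a.rep b.rep) (dd_good tri_good) RPiV_tp2 (RPiV_nets2 hφ)
  have hne : ∀ (i : Bool) (M : BMap),
      pwt S Y kv kf ke (ddCore tri) RPiV_phi2 i M = nwt S Y M := by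
    intro i M
    have h2 : ¬ RPiV_phi2 (Sum.inl (i, true)) = Sum.inl (i, false) := by
      intro h
      have h2 : (!i) = i := congrArg Prod.fst (Sum.inl_injective h)
      cases i <;> cases h2
    exact if_neg h2
  have h1 : ∏ i : (ddCore tri).I,
      pwt S Y kv kf ke (ddCore tri) RPiV_phi2 i (serNets a.rep b.rep i).1 =
      ∏ i : Bool, nwt S Y (serNets a.rep b.rep i).1 :=
    Finset.prod_congr rfl fun i _ => hne i _
  rw [h1, Fintype.prod_bool, RPiV_v2] at e2
  rw [e1, e2]
  change kf * (nwt S Y a.rep.1 * nwt S Y b.rep.1) = _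
  rw [hb, nwt_twC]
  ring

/-- `par_bond3`, `ddCore quad` with `ψ` reversing the middle edge: two vertices (`bond3_nV`), `pW S 1 kv kf 1 _ ψ = 1`; if `twC false true k ≠ k` both sides are 0 (`twC_parC_ne`, `parC_inj`,
`parC_right_inj`) -/
theorem wPi_par3 {a : GC} (ha : ¬ IsPar a.rep.1) (k : GC) :
    wPi S Y kv kf ke (parC a (parC k (twC false true a))).rep.1 =
      nwt S Y a.rep.1 ^ 2 * wPi S Y kv kf ke k.rep.1 := by
  set b := twC false true a with hb
  have hbt : twC false true b = a := by rw [hb, twC_inv]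
  by_cases hk : twC false true k = k
  · obtain ⟨φ, hφ⟩ := twC_eq_iff.1 hb.symm
    obtain ⟨χ, hχ⟩ := twC_eq_iff.1 hk
    have hiso : BIso (parC a (parC k b)).rep.1
        (comp (ddCore quad) (nets3 a.rep k.rep b.rep)) := by
      have h1 : BIso (parC a (parC k b)).rep.1 (parMap a.rep (parC k b).rep) :=
        ESum.rep_iso ⟨parMap a.rep (parC k b).rep, parMap_good _ _⟩
      have h2 : BIso (parC k b).rep.1 (parMap k.rep b.rep) :=
        ESum.rep_iso ⟨parMap k.rep b.rep, parMap_good _ _⟩
      have h3 : BIso (parMap a.rep (parC k b).rep)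
          (parMap a.rep ⟨parMap k.rep b.rep, parMap_good _ _⟩) :=
        (serMap_iso (N₁ := a.rep.dual) (N₂ := (parC k b).rep.dual) (N₁' := a.rep.dual)
          (N₂' := GB.dual ⟨parMap k.rep b.rep, parMap_good _ _⟩) (BIso.refl _) h2.dual).dual
      exact (h1.trans h3).trans (par_bond3 a.rep k.rep b.rep)
    have e1 : wPi S Y kv kf ke (parC a (parC k b)).rep.1 =
        wPi S Y kv kf ke (comp (ddCore quad) (nets3 a.rep k.rep b.rep)) := wPi_iso hiso
    have e2 := wPi_comp (S := S) (Y := Y) (kv := kv) (kf := kf) (ke := ke) (C := ddCore quad)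
      (N := nets3 a.rep k.rep b.rep) (dd_good quad_good) RPiV_tp3 (RPiV_nets3 hφ hχ)
    have h0 : pwt S Y kv kf ke (ddCore quad) RPiV_phi3 (0 : Fin 3) a.rep.1 = nwt S Y a.rep.1 := by
      refine if_neg fun h => ?_
      have h2 : (2 : Fin 3) = 0 := congrArg Prod.fst (Sum.inl_injective h)
      exact absurd h2 (by decide)
    have h2' : pwt S Y kv kf ke (ddCore quad) RPiV_phi3 (2 : Fin 3) b.rep.1 =
        nwt S Y b.rep.1 := by
      refine if_neg fun h => ?_
      have h2 : (0 : Fin 3) = 2 := congrArg Prod.fst (Sum.inl_injective h)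
      exact absurd h2 (by decide)
    have h1' : pwt S Y kv kf ke (ddCore quad) RPiV_phi3 (1 : Fin 3) k.rep.1 =
        wPi S Y kv kf ke k.rep.1 := if_pos rfl
    have h3 : ∏ i : (ddCore quad).I,
        pwt S Y kv kf ke (ddCore quad) RPiV_phi3 i (nets3 a.rep k.rep b.rep i).1 =
        pwt S Y kv kf ke (ddCore quad) RPiV_phi3 (0 : Fin 3) a.rep.1 *
          pwt S Y kv kf ke (ddCore quad) RPiV_phi3 (1 : Fin 3) k.rep.1 *
          pwt S Y kv kf ke (ddCore quad) RPiV_phi3 (2 : Fin 3) b.rep.1 :=
      Fin.prod_univ_three (fun i : Fin 3 =>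
        pwt S Y kv kf ke (ddCore quad) RPiV_phi3 i (nets3 a.rep k.rep b.rep i).1)
    rw [h3, h0, h1', h2', RPiV_v3, hb, nwt_twC] at e2
    rw [e1, hb, e2]
    ring
  · have hz : ¬ IsPar b.rep.1 := by rw [hb, isPar_twC]; exact ha
    have h1 : wPi S Y kv kf ke k.rep.1 = 0 := wPi_none fun h => hk ((pi_iff k).1 h)
    rw [h1, mul_zero]
    refine wPi_none fun h => hk ?_
    have h2 := (pi_iff (parC a (parC k b))).1 h
    have h4 : twC false true (parC a (parC k b)) = parC a (parC (twC false true k) b) := by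
      rw [show twC false true (parC a (parC k b)) =
        parC (twC false true (parC k b)) (twC false true a) from twC_parC_ne false a (parC k b),
        show twC false true (parC k b) = parC (twC false true b) (twC false true k) from
          twC_parC_ne false k b, hbt, ← hb]
      exact RPiV_assoc _ _ _
    rw [h4] at h2
    exact parC_right_inj hz (parC_inj ha ha h2).2

end

end PGr

end

section
/-! # Module RPiS: sums over the series and the parallel compositions -/

set_option linter.unusedSectionVars false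

namespace PGr
open Equiv Finset
open scoped ENNReal Classical

/-- a sum over `b` which is supported at `z` and at the `f k` -/
private theorem RPiS_split {α : Type*} (g : α → ℝ≥0∞) (z : α) (f : α → α)
    (hf : Function.Injective f) (hz : ∀ k, z ≠ f k)
    (h0 : ∀ b, b ≠ z → (∀ k, b ≠ f k) → g b = 0) :
    ∑' b, g b = g z + ∑' k, g (f k) := by
  have h2 : ∀ b, g b = (if b = z then g b else 0) + ∑' k, if b = f k then g b else 0 := by
    intro b
    by_cases h3 : b = z
    · rw [if_pos h3, ENNReal.tsum_eq_zero.2, add_zero]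
      intro k
      rw [if_neg]
      intro h
      exact hz k (h3 ▸ h)
    · rw [if_neg h3, zero_add]
      by_cases h4 : ∃ k, b = f k
      · obtain ⟨k, hk⟩ := h4
        rw [tsum_eq_single k, if_pos hk]
        intro k' hk'
        rw [if_neg]
        intro h
        exact hk' (hf (h ▸ hk)).symm.symm
      · push Not at h4
        rw [h0 b h3 h4]
        simp
  rw [tsum_congr h2, ENNReal.tsum_add, ENNReal.tsum_comm]
  congr 1
  · rw [tsum_eq_single z]
    · rw [if_pos rfl]
    · intro b hb
      rw [if_neg hb]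
  · refine tsum_congr fun k => ?_
    rw [tsum_eq_single (f k)]
    · rw [if_pos rfl]
    · intro b hb
      rw [if_neg hb]

section
variable {S Y Eb kv kf ke x : ℝ≥0∞}

private theorem RPiS_none {x : GC} (h : twC false true x ≠ x) :
    wPi S Y kv kf ke x.rep.1 = 0 :=
  wPi_none fun h1 => h ((pi_iff x).1 h1)

/-- `ser_sum`; for `a` not series the term of `b` is 0 unless `b = twC false true a` or `b = serC k (twC false true a)` with `twC false true k = k` (`pi_iff`, `sym_ser`); the first is not series, the second is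
series, and `k ↦ serC k (twC false true a)` is injective (`serC_right_inj`); `wPi_ser2`, `wPi_ser3` (compare `EC_ser` in PGs/DOne) -/
theorem FR_ser : FRsel S Y kv kf ke IsSer =
    (∑' a : GC, if ¬ IsSer a.rep.1 then nwt S Y a.rep.1 ^ 2 else 0) *
      (kv + S ^ 2 * FRs S Y kv kf ke) := by
  unfold FRsel
  rw [ser_sum (fun x => wPi S Y kv kf ke x.rep.1), ← ENNReal.tsum_mul_right]
  refine tsum_congr fun a => ?_
  by_cases ha : IsSer a.rep.1
  · simp [ha]
  · simp only [ha, not_false_eq_true, if_true]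
    have hzs : ¬ IsSer (twC false true a).rep.1 := by rw [isSer_twC]; exact ha
    rw [RPiS_split (fun b => wPi S Y kv kf ke (serC a b).rep.1) (twC false true a)
      (fun k => serC k (twC false true a)) (fun k k' h => serC_right_inj hzs h)
      (fun k h => hzs (by rw [h]; exact isSer_serC _ _))]
    · rw [wPi_ser2]
      have h3 : ∀ k : GC, wPi S Y kv kf ke (serC a (serC k (twC false true a))).rep.1 =
          S ^ 2 * nwt S Y a.rep.1 ^ 2 * wPi S Y kv kf ke k.rep.1 := fun k => wPi_ser3 ha k
      rw [tsum_congr h3, ENNReal.tsum_mul_left]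
      unfold FRs
      ring
    · intro b hb hb'
      apply RPiS_none
      intro h
      rcases sym_ser (m := false) ha h with h | ⟨k, -, h⟩
      · exact hb h
      · exact hb' k h

/-- the same with `par_sum`, `sym_par` (for `m = false`), `wPi_par2`, `wPi_par3` -/
theorem FR_par : FRsel S Y kv kf ke IsPar =
    (∑' a : GC, if ¬ IsPar a.rep.1 then nwt S Y a.rep.1 ^ 2 else 0) *
      (kf + FRs S Y kv kf ke) := by
  unfold FRsel
  rw [par_sum (fun x => wPi S Y kv kf ke x.rep.1), ← ENNReal.tsum_mul_right]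
  refine tsum_congr fun a => ?_
  by_cases ha : IsPar a.rep.1
  · simp [ha]
  · simp only [ha, not_false_eq_true, if_true]
    have hzs : ¬ IsPar (twC false true a).rep.1 := by rw [isPar_twC]; exact ha
    rw [RPiS_split (fun b => wPi S Y kv kf ke (parC a b).rep.1) (twC false true a)
      (fun k => parC k (twC false true a)) (fun k k' h => parC_right_inj hzs h)
      (fun k h => hzs (by rw [h]; exact isPar_parC _ _))]
    · rw [wPi_par2]
      have h3 : ∀ k : GC, wPi S Y kv kf ke (parC a (parC k (twC false true a))).rep.1 =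
          nwt S Y a.rep.1 ^ 2 * wPi S Y kv kf ke k.rep.1 := fun k => wPi_par3 ha k
      rw [tsum_congr h3, ENNReal.tsum_mul_left]
      unfold FRs
      ring
    · intro b hb hb'
      apply RPiS_none
      intro h
      rcases sym_par (m := false) ha h with h | ⟨k, -, h⟩
      · exact hb h
      · exact hb' k h

private theorem RPiS_Esel (P : BMap → Prop) [∀ M, Decidable (P M)] :
    (∑' a : GC, if P a.rep.1 then nwt S Y a.rep.1 ^ 2 else 0) =
      Esel (S ^ 2) (Y ^ 2) P := by
  rw [ESum.Esel_eq]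
  refine tsum_congr fun a => ?_
  rw [nwt_sq]

/-- `nwt_sq`, `ESum.Esel_eq`, `Esel_add` and `ser_eq` (`PGc/SerEq`): `E = N + s N E`, `E = eN s 1 y 1 = Es s y` (`eN_eq_Es`) -/
theorem Nser_eq : (∑' a : GC, if ¬ IsSer a.rep.1 then nwt S Y a.rep.1 ^ 2 else 0) *
    (1 + S ^ 2 * eN (S ^ 2) 1 (Y ^ 2) 1) = eN (S ^ 2) 1 (Y ^ 2) 1 := by
  have h1 := RPiS_Esel (S := S) (Y := Y) (fun M => ¬ IsSer M)
  rw [h1, eN_eq_Es]
  have h2 := Esel_add (S ^ 2) (Y ^ 2) IsSer
  rw [ser_eq] at h2
  conv_rhs => rw [← h2]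
  ring

/-- the same for parallel compositions (`par_eq`): `E = N + N E` -/
theorem Npar_eq : (∑' a : GC, if ¬ IsPar a.rep.1 then nwt S Y a.rep.1 ^ 2 else 0) *
    (1 + eN (S ^ 2) 1 (Y ^ 2) 1) = eN (S ^ 2) 1 (Y ^ 2) 1 := by
  have h1 := RPiS_Esel (S := S) (Y := Y) (fun M => ¬ IsPar M)
  rw [h1, eN_eq_Es]
  have h2 := Esel_add (S ^ 2) (Y ^ 2) IsPar
  rw [par_eq] at h2
  conv_rhs => rw [← h2]
  ring

end

end PGr

end

section
/-! # Module RPi: decomposition of the nets with a rotation exchanging the root darts -/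

set_option linter.unusedSectionVars false

namespace PGr
open Equiv Finset
open scoped ENNReal Classical

section
variable {S Y Eb kv kf ke x : ℝ≥0∞}

/-- `sum_types`, `wPi_dig` -/
theorem FR_total (hE : Eb ^ 2 = eN (S ^ 2) 1 (Y ^ 2) 1) :
    FRs S Y kv kf ke = ke + FRsel S Y kv kf ke IsSer + FRsel S Y kv kf ke IsPar +
      RigPi S Eb kv kf (FRs S Y kv kf ke) := by
  rw [← FR_rig hE]
  have h := sum_types (fun c => wPi S Y kv kf ke c.rep.1)
  rw [wPi_dig] at h
  refine h.trans ?_
  unfold FRsel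
  congr!

theorem FR_split : FRs S Y kv kf ke =
    FRsel S Y kv kf ke (fun M => ¬ IsSer M) + FRsel S Y kv kf ke IsSer := by
  unfold FRs FRsel
  rw [← ENNReal.tsum_add]
  refine tsum_congr fun c => ?_
  by_cases h : IsSer c.rep.1 <;> simp [h]

end

end PGr

end

section
/-! # Module WSc: weights of composites, rotation about the root vertex -/

set_option linter.unusedSectionVars false
set_option linter.unusedVariables false

namespace PGr
open Equiv Finset
open scoped ENNReal Classical

namespace WSc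
open CFix

theorem nFix_le {T : Type*} [Finite T] (s e : Perm T) : nFix s e ≤ nV s := by
  unfold nFix nV
  exact Nat.card_le_card_of_injective _ Subtype.val_injective

theorem nFix_zero {T : Type*} {s e : Perm T} (h : ∀ x, ¬ s.SameCycle x (e x)) :
    nFix s e = 0 := by
  have h1 : IsEmpty (Fx s e) := by
    refine ⟨fun a => ?_⟩
    obtain ⟨q, t, h2, h3⟩ := a
    exact h t h3
  exact Nat.card_of_isEmpty

theorem prod_swt {C : Core} (P : C.I → Prop) (f : C.I → ℝ≥0∞) :
    ∏ i, (if P i then 1 else f i) = ∏ i ∈ univ.filter (fun i => ¬ P i), f i := by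
  rw [prod_filter]
  refine prod_congr rfl fun i _ => ?_
  by_cases h : P i
  · rw [if_pos h, if_neg (fun h' => h' h)]
  · rw [if_neg h, if_pos h]

theorem sum_split {C : Core} (P : C.I → Prop) (f : C.I → ℕ) :
    ∑ i, f i = ∑ i ∈ univ.filter P, f i + ∑ i ∈ univ.filter (fun i => ¬ P i), f i :=
  (sum_filter_add_sum_filter_not univ P f).symm

end WSc

open WSc PWc CFix

section
variable {C : Core} {N : C.I → GB} {ψ : Perm C.toB.T} {e : Perm (comp C N).T} {k : ℕ}
  {S Y kv kf ke ζ : ℝ≥0∞}

/-- the darts at the root vertex are the `L N x`, `x` at the root vertex of the core (`comp_atV`, `two_darts`, `comp_sc_L`) -/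
theorem dgs_comp (h2 : ∀ i, AtV C i → Fintype.card (N i).1.D = 2) :
    dgs (comp C N).s (Sum.inr true) = dgs C.s (Sum.inr true) := by
  unfold dgs
  rw [minimalPeriod_eq_card, minimalPeriod_eq_card]
  symm
  refine Finset.card_bij (fun x _ => CompInj.L N x) ?_ (fun x _ y _ h => CompInj.L_inj N h) ?_
  · intro x hx
    rw [mem_filter] at hx ⊢
    exact ⟨mem_univ _, (comp_sc_L N (Sum.inr true) x).2 hx.2⟩
  · intro t ht
    rw [mem_filter] at ht
    rcases CompInj.cases_dt N t with ⟨i, d, rfl⟩ | ⟨b, rfl⟩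
    · obtain ⟨b, hb⟩ := (two_darts (h2 i (comp_atV N ht.2))).2.1 d
      refine ⟨Sum.inl (i, b), ?_, ?_⟩
      · rw [mem_filter]
        refine ⟨mem_univ _, (comp_sc_L N (Sum.inr true) (Sum.inl (i, b))).1 ?_⟩
        have h3 := ht.2
        rw [hb] at h3
        exact h3
      · rw [hb]
        rfl
    · refine ⟨Sum.inr b, ?_, rfl⟩
      rw [mem_filter]
      exact ⟨mem_univ _, (comp_sc_L N (Sum.inr true) (Sum.inr b)).1 ht.2⟩

/-- an edge has at most one dart at the root vertex (`noLoop`) -/
theorem card_AtV (hC : C.toB.IsGood) :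
    dgs C.s (Sum.inr true) = 1 + (univ.filter fun i => AtV C i).card := by
  unfold dgs
  rw [minimalPeriod_eq_card, add_comm, ← card_insertNone]
  symm
  refine Finset.card_bij (fun o _ => match o with
    | none => Sum.inr true
    | some i => Sum.inl (i, decide (C.s.SameCycle (Sum.inr true) (Sum.inl (i, true))))) ?_ ?_ ?_
  · rintro (_ | i) h
    · rw [mem_filter]
      exact ⟨mem_univ _, Perm.SameCycle.refl _ _⟩
    · rw [mem_filter]
      refine ⟨mem_univ _, ?_⟩
      rw [some_mem_insertNone, mem_filter] at h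
      obtain ⟨-, b, hb⟩ := h
      by_cases h1 : C.s.SameCycle (Sum.inr true) (Sum.inl (i, true))
      · show C.s.SameCycle _ (Sum.inl (i, decide _))
        rw [decide_eq_true h1]
        exact h1
      · show C.s.SameCycle _ (Sum.inl (i, decide _))
        rw [decide_eq_false h1]
        cases b
        · exact hb
        · exact absurd hb h1
  · rintro (_ | i) h (_ | j) h' h1
    · rfl
    · simp at h1
    · simp at h1
    · have h2 := congrArg Prod.fst (Sum.inl_injective h1)
      exact congrArg some h2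
  · rintro (⟨i, b⟩ | b) h
    · rw [mem_filter] at h
      refine ⟨some i, ?_, ?_⟩
      · rw [some_mem_insertNone, mem_filter]
        exact ⟨mem_univ _, b, h.2⟩
      · show (Sum.inl (i, decide _) : (C.I × Bool) ⊕ Bool) = _
        congr 2
        cases b
        · rw [decide_eq_false_iff_not]
          intro h1
          exact hC.noLoop (Sum.inl (i, true)) (h1.symm.trans h.2)
        · rw [decide_eq_true_eq]
          exact h.2
    · rw [mem_filter] at h
      refine ⟨none, by simp, ?_⟩
      cases b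
      · exact absurd h.2 (hC.noLoop (Sum.inr true))
      · rfl

/-- a reversed edge is not at the root vertex (it would be a loop), and then `k = 2` -/
theorem rev_not_atV (hC : C.toB.IsGood) (hψ : Rot C.toB.aa C.s ψ k (Sum.inr true)) {i : C.I}
    (hi : ψ (Sum.inl (i, true)) = Sum.inl (i, false)) : ¬ AtV C i ∧ k = 2 := by
  have h0 : ψ (Sum.inl (i, true)) = C.toB.aa (Sum.inl (i, true)) := hi
  have hi' : ψ (Sum.inl (i, false)) = Sum.inl (i, true) := by
    have h5 := hψ.ra (Sum.inl (i, true))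
    rw [hi] at h5
    exact h5
  refine ⟨?_, ?_⟩
  · rintro ⟨b, hb⟩
    have h1 := (hψ.pow_root 1 (t := (Sum.inl (i, b) : C.toB.T))).2 hb
    rw [pow_one] at h1
    have h2 : ψ (Sum.inl (i, b)) = Sum.inl (i, !b) := by
      cases b
      · exact hi'
      · exact hi
    rw [h2] at h1
    exact hC.noLoop (Sum.inl (i, b)) (hb.symm.trans h1)
  · refine (Rot.edge (a := C.toB.aa) (s := C.toB.s) (r := Sum.inr true) hC hψ one_pos
      (by have := hψ.k2; omega) (t := Sum.inl (i, true)) ?_).1
    rw [pow_one]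
    exact h0

/-- a net with two nonroot darts has two vertices -/
theorem WSc_two {M : GB} (h : Fintype.card M.1.D = 2) : nV M.1.s - 2 = 0 := by
  have h1 := (eq_digon M.2 (by omega)).nV_eq
  rw [digon_nV] at h1
  omega

/-- Proof.  `Rot.two_poles` for `ψ` and `e`; the root edge is not fixed (it would be a loop: `ψ (inr true)` is at the root vertex).  Numbers: `nV (comp) = nV C + ∑ (nV (N i) - 2)` (`nV_comp`), where the
summand is 0 for `AtV C i` (a map with two nonroot darts has two vertices, `eq_digon`, `digon_nV`), `|T| / 2 = 1 + ∑ |D (N i)| / 2`, `dgs_comp`, `card_AtV`; so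
`|T| / 2 - dgs = ∑_{¬ AtV C i} |D (N i)| / 2`.
Case 1: no edge is reversed: `CAut.fix_free`, `nFix aa ψ = 0`, all factors `swt` are 1 or `nwt`.
Case 2: `ψ (inl (i, true)) = inl (i, false)`: `nFix aa ψ = 1`, `nFix C.s ψ = 1`, no fixed face of the core, so `i` is unique; `N i` has the rotation `φ`; `CAut.fix_rev`: `nFix (comp).s e = 1 + nFix φ`,
`nFix aa e = nFix aa φ - 1`; the factor of `i` is `wPi (N i) = pW (N i) φ` (`wPi_of`); compare exponents as in `pW_comp`. -/
theorem wS_comp (hC : C.toB.IsGood) (h : CAut C N ψ e)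
    (hψ : Rot C.toB.aa C.s ψ k (Sum.inr true))
    (he : Rot (comp C N).aa (comp C N).s e k (Sum.inr true))
    (h2 : ∀ i, AtV C i → Fintype.card (N i).1.D = 2) :
    wS S Y kv kf ke ζ (comp C N).aa (comp C N).s e (Sum.inr true) =
      wS S 1 kv kf 1 ζ C.toB.aa C.s ψ (Sum.inr true) *
        ∏ i, swt S Y kv kf ke C ψ i (N i).1 := by
  have hN := comp_good C N hC
  have hfr : ∀ x, ψ x ≠ x := fun x => by
    have h1 := hψ.free x 1 one_pos (by have := hψ.k2; omega)
    rwa [pow_one] at h1
  have p2 : nFix C.s ψ + nFix C.toB.aa ψ + nFix (C.toB.aa * C.toB.s) ψ = 2 :=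
    Rot.two_poles (a := C.toB.aa) (s := C.toB.s) hC hψ
  have q2 : nFix (comp C N).s e + nFix (comp C N).aa e +
      nFix ((comp C N).aa * (comp C N).s) e = 2 := Rot.two_poles hN he
  have hinv : ∀ t, C.toB.aa (C.toB.aa t) = t := hC.inv
  have hnV := nV_eq N hC
  have hcT := card_comp N
  have hdg := dgs_comp (N := N) h2
  have hat := card_AtV hC
  have hroot : C.s.SameCycle (Sum.inr true) (ψ (Sum.inr true)) := hψ.root
  have hv1 : 1 ≤ nFix C.s ψ := by
    have h3 := le_nFix (s := C.s) (e := ψ) (κ := Unit) (fun _ => Sum.inr true)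
      (fun _ => hroot) (fun _ _ _ => rfl)
    simpa using h3
  have hv2 : nFix C.s ψ ≤ nV C.s := nFix_le _ _
  have s1 := sum_split (C := C) (AtV C) (fun j => nV (N j).1.s - 2)
  have s2 := sum_split (C := C) (AtV C) (fun j => Fintype.card (N j).1.D / 2)
  have t1 : ∑ i ∈ univ.filter (AtV C), (nV (N i).1.s - 2) = 0 := by
    refine sum_eq_zero fun i hi => ?_
    exact WSc_two (h2 i (mem_filter.1 hi).2)
  have hat2 : (univ.filter fun i => AtV C i).card = (univ.filter (AtV C)).card := rfl
  rw [hat2] at hat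
  have t2 : ∑ i ∈ univ.filter (AtV C), Fintype.card (N i).1.D / 2 =
      (univ.filter (AtV C)).card := by
    rw [card_eq_sum_ones]
    refine sum_congr rfl fun i hi => ?_
    rw [h2 i (mem_filter.1 hi).2]
  -- the edges fixed by `ψ`
  have hre : ∀ b, ¬ C.toB.aa.SameCycle (Sum.inr b) (ψ (Sum.inr b)) := by
    intro b h3
    rw [sc_inv hinv] at h3
    rcases h3 with h3 | h3
    · exact hfr _ h3
    · have h4 : ψ (Sum.inr true) = Sum.inr false := by
        cases b
        · have h5 := hψ.ra (Sum.inr false)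
          rw [h3, hinv] at h5
          exact h5
        · exact h3
      rw [h4] at hroot
      exact hC.noLoop (Sum.inr true) hroot
  have hprod : ∏ i, swt S Y kv kf ke C ψ i (N i).1 =
      ∏ i ∈ univ.filter (fun i => ¬ AtV C i), pwt S Y kv kf ke C ψ i (N i).1 :=
    prod_swt (AtV C) (fun i => pwt S Y kv kf ke C ψ i (N i).1)
  rw [hprod]
  have hR : wS S 1 kv kf 1 ζ C.toB.aa C.s ψ (Sum.inr true) =
      S ^ (nV C.s - nFix C.s ψ) * 1 ^ (Fintype.card C.toB.T / 2 - nFix C.toB.aa ψ -
        dgs C.s (Sum.inr true)) * kv ^ (nFix C.s ψ - 1) * kf ^ nFix (C.toB.aa * C.toB.s) ψ *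
        1 ^ nFix C.toB.aa ψ * ζ ^ dgs C.s (Sum.inr true) := rfl
  have hL : wS S Y kv kf ke ζ (comp C N).aa (comp C N).s e (Sum.inr true) =
      S ^ (nV (comp C N).s - nFix (comp C N).s e) * Y ^ (Fintype.card (comp C N).T / 2 -
        nFix (comp C N).aa e - dgs (comp C N).s (Sum.inr true)) *
        kv ^ (nFix (comp C N).s e - 1) * kf ^ nFix ((comp C N).aa * (comp C N).s) e *
        ke ^ nFix (comp C N).aa e * ζ ^ dgs (comp C N).s (Sum.inr true) := rfl
  rw [hL, hR, hdg]
  by_cases hrev : ∃ i, ψ (Sum.inl (i, true)) = Sum.inl (i, false)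
  · obtain ⟨i, hi⟩ := hrev
    obtain ⟨hiv, -⟩ := rev_not_atV hC hψ hi
    have hfix : ∀ j, ψ (Sum.inl (j, true)) = Sum.inl (j, false) →
        C.toB.aa.SameCycle (Sum.inl (j, true)) (ψ (Sum.inl (j, true))) := by
      intro j hj
      rw [hj]
      exact ⟨1, rfl⟩
    have hne2 : ∀ j j', C.toB.aa.SameCycle (Sum.inl (j, true)) (Sum.inl (j', true)) → j = j' := by
      intro j j' h1
      rw [sc_inv hinv] at h1
      rcases h1 with h1 | h1
      · exact (congrArg Prod.fst (Sum.inl_injective h1)).symm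
      · exact (congrArg Prod.fst (Sum.inl_injective
          (show (Sum.inl (j', true) : (C.I × Bool) ⊕ Bool) = Sum.inl (j, false) from h1))).symm
    have ha1 : 1 ≤ nFix C.toB.aa ψ := by
      have h3 := le_nFix (s := C.toB.aa) (e := ψ) (κ := Unit) (fun _ => Sum.inl (i, true))
        (fun _ => hfix i hi) (fun _ _ _ => rfl)
      simpa using h3
    have hu : ∀ j, ψ (Sum.inl (j, true)) = Sum.inl (j, false) → j = i := by
      intro j hj
      by_contra hne
      have h3 := le_nFix (s := C.toB.aa) (e := ψ) (κ := Bool)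
        (fun b => if b then Sum.inl (i, true) else Sum.inl (j, true)) (by
          rintro (_ | _)
          · exact hfix j hj
          · exact hfix i hi) (by
          rintro (_ | _) (_ | _) h3
          · rfl
          · exact absurd (hne2 j i h3) hne
          · exact absurd (hne2 i j h3).symm hne
          · rfl)
      have h4 : Nat.card Bool = 2 := by simp
      omega
    obtain ⟨φ, hφ, -⟩ := h.nets i true i false hi
    have hφ' : TwI false true (N i).1 (N i).1 φ := hφ
    obtain ⟨n1, n2⟩ := hφ'.piTwo (N i).2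
    obtain ⟨w1, -, -, w4⟩ := hφ'.piV (N i).2
    obtain ⟨f1, f2, f3⟩ := h.fix_rev hi hu hfr hφ' p2 q2 n2
    have hmem : i ∈ univ.filter (fun i => ¬ AtV C i) := by
      rw [mem_filter]
      exact ⟨mem_univ _, hiv⟩
    have hprod2 : ∏ j ∈ univ.filter (fun i => ¬ AtV C i), pwt S Y kv kf ke C ψ j (N j).1 =
        pW S Y kv kf ke (N i).1 φ *
          ∏ j ∈ (univ.filter (fun i => ¬ AtV C i)).erase i, nwt S Y (N j).1 := by
      rw [← mul_prod_erase _ _ hmem]
      congr 1
      · unfold pwt
        rw [if_pos hi]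
        exact wPi_of (N i).2 hφ'
      · refine prod_congr rfl fun j hj => ?_
        unfold pwt
        rw [if_neg]
        intro h3
        exact (mem_erase.1 hj).1 (hu j h3)
    rw [hprod2, prod_nwt]
    have u1 : ∑ j ∈ univ.filter (fun i => ¬ AtV C i), (nV (N j).1.s - 2) = (nV (N i).1.s - 2) +
        ∑ j ∈ (univ.filter (fun i => ¬ AtV C i)).erase i, (nV (N j).1.s - 2) :=
      (add_sum_erase _ (fun j => nV (N j).1.s - 2) hmem).symm
    have u2 : ∑ j ∈ univ.filter (fun i => ¬ AtV C i), Fintype.card (N j).1.D / 2 =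
        Fintype.card (N i).1.D / 2 +
        ∑ j ∈ (univ.filter (fun i => ¬ AtV C i)).erase i, Fintype.card (N j).1.D / 2 :=
      (add_sum_erase _ (fun j => Fintype.card (N j).1.D / 2) hmem).symm
    have s3 := card_T (N i).2
    have z1 : nFix C.s ψ = 1 := by omega
    have z2 : nFix (C.toB.aa * C.toB.s) ψ = 0 := by omega
    have z3 : nFix C.toB.aa ψ = 1 := by omega
    have c1 : nFix (comp C N).s e = 1 + nFix (N i).1.s φ := by omega
    have c2 : nFix (comp C N).aa e = nFix (N i).1.aa φ - 1 := by omega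
    have c3 : nFix ((comp C N).aa * (comp C N).s) e = nFix ((N i).1.aa * (N i).1.s) φ := by omega
    unfold pW
    rw [z1, z2, z3, c1, c2, c3]
    have d1 : nV (comp C N).s - (1 + nFix (N i).1.s φ) = (nV C.s - 1) +
        ((nV (N i).1.s - 2 - nFix (N i).1.s φ) +
          ∑ j ∈ (univ.filter (fun i => ¬ AtV C i)).erase i, (nV (N j).1.s - 2)) := by
      omega
    have d2 : Fintype.card (comp C N).T / 2 - (nFix (N i).1.aa φ - 1) - dgs C.s (Sum.inr true) =
        (Fintype.card (N i).1.T / 2 - nFix (N i).1.aa φ) +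
          ∑ j ∈ (univ.filter (fun i => ¬ AtV C i)).erase i, Fintype.card (N j).1.D / 2 := by
      omega
    have d3 : 1 + nFix (N i).1.s φ - 1 = nFix (N i).1.s φ := by omega
    rw [d1, d2, d3]
    simp only [pow_add, pow_zero, one_pow, mul_one, Nat.sub_self]
    ring
  · have hrev' : ∀ i, ψ (Sum.inl (i, true)) ≠ Sum.inl (i, false) := fun i hi => hrev ⟨i, hi⟩
    obtain ⟨f1, f2, f3⟩ := h.fix_free hrev' hfr p2 q2
    have z3 : nFix C.toB.aa ψ = 0 := by
      refine nFix_zero ?_
      rintro (⟨i, b⟩ | b) h3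
      · exact hrev' i (CFix_rev h hfr h3)
      · exact hre b h3
    have hprod2 : ∏ j ∈ univ.filter (fun i => ¬ AtV C i), pwt S Y kv kf ke C ψ j (N j).1 =
        ∏ j ∈ univ.filter (fun i => ¬ AtV C i), nwt S Y (N j).1 := by
      refine prod_congr rfl fun j _ => ?_
      unfold pwt
      rw [if_neg (hrev' j)]
    rw [hprod2, prod_nwt]
    rw [f1, f2, f3, z3]
    have d1 : nV (comp C N).s - nFix C.s ψ = (nV C.s - nFix C.s ψ) +
        ∑ j ∈ univ.filter (fun i => ¬ AtV C i), (nV (N j).1.s - 2) := by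
      omega
    have d2 : Fintype.card (comp C N).T / 2 - 0 - dgs C.s (Sum.inr true) =
        ∑ j ∈ univ.filter (fun i => ¬ AtV C i), Fintype.card (N j).1.D / 2 := by omega
    rw [d1, d2]
    simp only [pow_add, pow_zero, one_pow, mul_one]
    ring

end

end PGr

end
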