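import Pool.Agent.PGm.M04
import Pool.Agent.PGm.M06
import Pool.Agent.PGm.M12
import Pool.Agent.PGm.M14
import Pool.Agent.PGm.M22
import Pool.Agent.PGm.M29

section
/-! # Module StatL: weights in the two forms -/

set_option linter.unusedSectionVars false

namespace PGr
open Equiv Finset
open scoped ENNReal

section
variable {T : Type} [Fintype T] [DecidableEq T] {a s e : Perm T}

private theorem StatL_even {S : Finset T} {a : Perm T} (hinv : ∀ t, a (a t) = t)
    (hfpf : ∀ t, a t ≠ t) (hS : ∀ t ∈ S, a t ∈ S) : Even S.card := by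
  rw [← ZMod.natCast_eq_zero_iff_even]
  have h1 : (S.card : ZMod 2) = ∑ _t ∈ S, (1 : ZMod 2) := by simp
  rw [h1]
  refine Finset.sum_involution (fun t _ => a t) ?_ ?_ ?_ ?_
  · intro t _
    decide
  · intro t _ _
    exact hfpf t
  · intro t ht
    exact hS t ht
  · intro t _
    exact hinv t

/-- the involution `a` acts without fixed points on the darts with `e t = t` -/
theorem even_cAx (h : Good a s) (he : Refl a s e) : Even (cAx e) := by
  refine StatL_even h.inv h.fpf fun t ht => ?_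
  rw [mem_filter] at ht ⊢
  exact ⟨mem_univ _, by rw [he.ea, ht.2]⟩
theorem even_cCr (h : Good a s) (he : Refl a s e) : Even (cCr a e) := by
  refine StatL_even h.inv h.fpf fun t ht => ?_
  rw [mem_filter] at ht ⊢
  exact ⟨mem_univ _, by rw [he.ea, ht.2]⟩

/-- the group of the four permutations `1, a, e, a e` acts freely on the other darts -/
theorem four_dvd (h : Good a s) (he : Refl a s e) :
    ∃ γ, Fintype.card T = cAx e + cCr a e + 4 * γ := by
  classical
  set R := univ.filter fun t : T => e t ≠ t ∧ e t ≠ a t with hR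
  have h1 : Fintype.card T = cAx e + cCr a e + R.card := by
    have e1 : (univ.filter fun t : T => ¬ e t = t) =
        (univ.filter fun t : T => e t = a t) ∪ R := by
      ext t
      simp only [hR, mem_filter, mem_union, mem_univ, true_and]
      constructor
      · intro h1
        by_cases h2 : e t = a t
        · exact Or.inl h2
        · exact Or.inr ⟨h1, h2⟩
      · rintro (h1 | h1)
        · rw [h1]; exact h.fpf t
        · exact h1.1
    have e2 : Disjoint (univ.filter fun t : T => e t = a t) R := by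
      rw [disjoint_left]
      intro t ht ht'
      rw [mem_filter] at ht
      rw [hR, mem_filter] at ht'
      exact ht'.2.2 ht.2
    have e3 := card_filter_add_card_filter_not (s := (univ : Finset T)) (fun t => e t = t)
    rw [e1, card_union_of_disjoint e2, card_univ] at e3
    rw [cAx, cCr, ← e3, add_assoc]
  let f : T → Finset T := fun t => {t, a t, e t, a (e t)}
  have hf : ∀ t, ∀ x ∈ f t, f x = f t := by
    intro t x hx
    simp only [f, mem_insert, mem_singleton] at hx ⊢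
    rcases hx with rfl | rfl | rfl | rfl
    · rfl
    · ext y
      simp only [mem_insert, mem_singleton, h.inv, he.ea]
      tauto
    · ext y
      simp only [mem_insert, mem_singleton, he.ee]
      tauto
    · ext y
      simp only [mem_insert, mem_singleton, h.inv, he.ea, he.ee]
      tauto
  have hfc : ∀ t ∈ R, (f t).card = 4 := by
    intro t ht
    rw [hR, mem_filter] at ht
    obtain ⟨-, h2, h3⟩ := ht
    have n1 : t ≠ a t := (h.fpf t).symm
    have n2 : t ≠ e t := h2.symm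
    have n3 : t ≠ a (e t) := by
      intro h4
      apply h3
      rw [← h.inv (e t), ← h4]
    have n4 : a t ≠ e t := h3.symm
    have n5 : a t ≠ a (e t) := fun h4 => n2 (a.injective h4)
    have n6 : e t ≠ a (e t) := (h.fpf (e t)).symm
    simp only [f]
    rw [card_insert_of_notMem, card_insert_of_notMem, card_pair n6]
    · simp [n4, n5]
    · simp [n1, n2, n3]
  have hfR : ∀ t ∈ R, f t ⊆ R := by
    intro t ht x hx
    rw [hR, mem_filter] at ht ⊢
    obtain ⟨-, h2, h3⟩ := ht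
    refine ⟨mem_univ _, ?_⟩
    simp only [f, mem_insert, mem_singleton] at hx
    rcases hx with rfl | rfl | rfl | rfl
    · exact ⟨h2, h3⟩
    · rw [he.ea]
      exact ⟨fun h4 => h2 (a.injective h4), fun h4 => h3 (a.injective h4)⟩
    · rw [he.ee]
      refine ⟨h2.symm, fun h4 => h3 ?_⟩
      calc e t = a (a (e t)) := (h.inv _).symm
        _ = a t := by rw [← h4]
    · rw [he.ea, he.ee, h.inv]
      refine ⟨fun h4 => h2.symm (a.injective h4), fun h4 => h3 h4.symm⟩
  refine ⟨(R.image f).card, ?_⟩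
  rw [h1]
  congr 1
  rw [card_eq_sum_card_image f R, mul_comm, ← smul_eq_mul, ← sum_const]
  refine sum_congr rfl fun F hF => ?_
  obtain ⟨t, ht, rfl⟩ := mem_image.1 hF
  rw [← hfc t ht]
  congr 1
  ext x
  rw [mem_filter]
  constructor
  · rintro ⟨-, h2⟩
    rw [← h2]
    simp [f]
  · intro hx
    exact ⟨hfR t ht hx, hf t x hx⟩

/-- the parameters `x, k, y1, A, y` expressed by the weights of the elements -/
structure WOK (w : Wt) (x k y1 A y : ℝ≥0∞) : Prop where
  hk : w.vx ^ 2 = k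
  hx : w.bi ^ 2 * w.vx = x
  hy : w.dt ^ 4 = y
  hy1 : w.ax ^ 2 * w.dt ^ 2 = y1 * w.bi ^ 2
  hA : w.cr ^ 2 * w.dt ^ 2 = A * y

/-- square roots (`ENNReal.rpow` or `NNReal.sqrt`): `vx = k^(1/2)`, `bi = (x / vx)^(1/2)`, `dt = y^(1/4)`, `ax = (y1)^(1/2) bi / dt`, `cr = (A y)^(1/2) / dt` -/
theorem exists_wok {x k y1 A y : ℝ≥0∞} (hx : x ≠ 0) (hx' : x ≠ ⊤) (hk : k ≠ 0) (hk' : k ≠ ⊤)
    (h1 : y1 ≠ 0) (h1' : y1 ≠ ⊤) (hA : A ≠ 0) (hA' : A ≠ ⊤) (hy : y ≠ 0) (hy' : y ≠ ⊤) :
    ∃ w : Wt, WOK w x k y1 A y := by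
  lift x to NNReal using hx'
  lift k to NNReal using hk'
  lift y1 to NNReal using h1'
  lift A to NNReal using hA'
  lift y to NNReal using hy'
  have hk0 : k ≠ 0 := by exact_mod_cast hk
  have hy0 : y ≠ 0 := by exact_mod_cast hy
  have hV : NNReal.sqrt k ≠ 0 := by
    rw [Ne, NNReal.sqrt_eq_zero]; exact hk0
  have hD : NNReal.sqrt (NNReal.sqrt y) ≠ 0 := by
    rw [Ne, NNReal.sqrt_eq_zero, NNReal.sqrt_eq_zero]; exact hy0
  set V := NNReal.sqrt k with hVd
  set Dt := NNReal.sqrt (NNReal.sqrt y) with hDd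
  set Bi := NNReal.sqrt (x / V) with hBd
  have e1 : V ^ 2 = k := NNReal.sq_sqrt k
  have e2 : Bi ^ 2 * V = x := by
    rw [hBd, NNReal.sq_sqrt, div_mul_cancel₀ _ hV]
  have e3 : Dt ^ 4 = y := by
    have : Dt ^ 4 = (Dt ^ 2) ^ 2 := by ring
    rw [this, hDd, NNReal.sq_sqrt, NNReal.sq_sqrt]
  have e4 : (NNReal.sqrt y1 * Bi / Dt) ^ 2 * Dt ^ 2 = y1 * Bi ^ 2 := by
    rw [div_pow, div_mul_cancel₀ _ (pow_ne_zero 2 hD), mul_pow, NNReal.sq_sqrt]
  have e5 : (NNReal.sqrt (A * y) / Dt) ^ 2 * Dt ^ 2 = A * y := by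
    rw [div_pow, div_mul_cancel₀ _ (pow_ne_zero 2 hD), NNReal.sq_sqrt]
  refine ⟨⟨(NNReal.sqrt y1 * Bi / Dt : NNReal), (Bi : NNReal), (NNReal.sqrt (A * y) / Dt : NNReal),
    (V : NNReal), (Dt : NNReal)⟩, ?_, ?_, ?_, ?_, ?_⟩
  · show (V : ℝ≥0∞) ^ 2 = _
    exact_mod_cast e1
  · show (Bi : ℝ≥0∞) ^ 2 * (V : ℝ≥0∞) = _
    exact_mod_cast e2
  · show (Dt : ℝ≥0∞) ^ 4 = _
    exact_mod_cast e3
  · show ((NNReal.sqrt y1 * Bi / Dt : NNReal) : ℝ≥0∞) ^ 2 * (Dt : ℝ≥0∞) ^ 2 =
      (y1 : ℝ≥0∞) * (Bi : ℝ≥0∞) ^ 2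
    exact_mod_cast e4
  · show ((NNReal.sqrt (A * y) / Dt : NNReal) : ℝ≥0∞) ^ 2 * (Dt : ℝ≥0∞) ^ 2 = _
    exact_mod_cast e5

/-- Proof.  Let `cAx = 2 α`, `cCr = 2 β`, `card T = 2 α + 2 β + 4 γ`, `nV = nFix + 2 p` (`nV_parity`), `2 nFix = cAx + cBis` (`two_nFix`), so `cBis = 2 σ` with `nFix = α + σ`.  Then `VT` is
`(ax² dt²)^α (bi²)^σ (cr² dt²)^β vx^(α + σ) (vx²)^p (dt⁴)^γ = y1^α (bi² vx)^(α + σ) (A y)^β k^p y^γ`. -/
theorem VT_RW (h : Good a s) (he : Refl a s e) {w : Wt} {x k y1 A y : ℝ≥0∞}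
    (hw : WOK w x k y1 A y) : VT w a s e = RW x k y1 A y a s e := by
  obtain ⟨α, hα⟩ := even_cAx h he
  obtain ⟨β, hβ⟩ := even_cCr h he
  obtain ⟨γ, hγ⟩ := four_dvd h he
  obtain ⟨p, hp⟩ := nV_parity (s := s) (e := e) he.es he.ee
  have h2 := two_nFix (s := s) (e := e) he.es he.ee
  obtain ⟨σ, hσ⟩ : ∃ σ, nFix s e = α + σ := ⟨nFix s e - α, by omega⟩
  have hB : cBis s e = 2 * σ := by omega
  have d1 : (nV s - nFix s e) / 2 = p := by omega
  have d2 : cAx e / 2 = α := by omega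
  have d3 : cCr a e / 2 = β := by omega
  have d4 : (Fintype.card T - cAx e - cCr a e) / 4 = γ := by omega
  rw [VT, RW, d1, d2, d3, d4, hσ, hB, hγ, hp, hσ, hα, hβ]
  have k1 : w.ax ^ (α + α) * w.bi ^ (2 * σ) * w.cr ^ (β + β) * w.vx ^ (α + σ + 2 * p) *
      w.dt ^ (α + α + (β + β) + 4 * γ) =
      (w.ax ^ 2 * w.dt ^ 2) ^ α * (w.bi ^ 2) ^ σ * (w.cr ^ 2 * w.dt ^ 2) ^ β * w.vx ^ (α + σ) *
        (w.vx ^ 2) ^ p * (w.dt ^ 4) ^ γ := by ring
  rw [k1, hw.hy1, hw.hA, hw.hk, hw.hy, ← hw.hx]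
  ring

end

section
variable {M : BMap} {e : Perm M.T} {w : Wt}

private theorem StatL_card (M : BMap) : Fintype.card M.T = Fintype.card M.D + 2 := by
  rw [Fintype.card_sum, Fintype.card_bool]

private theorem StatL_vx (hM : M.IsGood) : w.vx ^ nV M.s = w.vx ^ 2 * w.vx ^ (nV M.s - 2) := by
  have := Good.two_le_nV hM
  rw [← pow_add]
  congr 1
  omega

/-- count the darts with a property -/
private theorem StatL_count (M : BMap) (P : M.T → Prop) [DecidablePred P] :
    (univ.filter fun t : M.T => P t).card =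
      (univ.filter fun d : M.D => P (Sum.inl d)).card +
        (univ.filter fun b : Bool => P (Sum.inr b)).card := by
  simp only [card_filter]
  exact Fintype.sum_sum_type _

/-- the root edge crosses the axis: `nAx = cAx`, `nCr + 2 = cCr`, `nBi = cBis`, `2 ≤ nV` -/
theorem VT_C (hM : M.IsGood) (he : TwI true true M M e) :
    VT w M.aa M.s e = w.cr ^ 2 * w.vx ^ 2 * w.dt ^ 2 * Vw w M e := by
  have r : ∀ b, e (Sum.inr b) = Sum.inr (!b) := fun b => by
    rw [he.root]; cases b <;> rfl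
  have h1 : cAx e = nAx M e := by
    rw [cAx, StatL_count M (fun t => e t = t), nAx, Nat.add_eq_left, card_eq_zero,
      filter_eq_empty_iff]
    intro b _
    rw [r]
    cases b <;> simp
  have h2 : cCr M.aa e = nCr M e + 2 := by
    rw [cCr, StatL_count M (fun t => e t = M.aa t), nCr]
    congr 1
    rw [filter_true_of_mem]
    · rfl
    · intro b _
      rw [r]
      rfl
  have h3 : cBis M.s e = nBi M e := rfl
  rw [VT, Vw, h1, h2, h3, StatL_card, StatL_vx hM]
  ring

/-- the root edge is on the axis -/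
theorem VT_X (hM : M.IsGood) (he : TwI true false M M e) :
    VT w M.aa M.s e = w.ax ^ 2 * w.vx ^ 2 * w.dt ^ 2 * Vw w M e := by
  have r : ∀ b, e (Sum.inr b) = Sum.inr b := fun b => by
    rw [he.root]; cases b <;> rfl
  have h1 : cAx e = nAx M e + 2 := by
    rw [cAx, StatL_count M (fun t => e t = t), nAx]
    congr 1
    rw [filter_true_of_mem]
    · rfl
    · intro b _
      exact r b
  have h0 : (univ.filter fun b : Bool => e (Sum.inr b) = M.aa (Sum.inr b)).card = 0 := by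
    rw [card_eq_zero, filter_eq_empty_iff]
    intro b _
    rw [r]
    cases b <;> simp [BMap.aa]
  have h2 : cCr M.aa e = nCr M e := by
    rw [cCr, StatL_count M (fun t => e t = M.aa t), h0, add_zero]
    rfl
  have h3 : cBis M.s e = nBi M e := rfl
  rw [VT, Vw, h1, h2, h3, StatL_card, StatL_vx hM]
  ring

end

end PGr

end

section
/-! # Module ConvA: the generating functions of symmetric rigid maps in the two forms -/

set_option linter.unusedSectionVars false

namespace PGr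
open Equiv Finset
open scoped ENNReal Classical

theorem symM_iff {M : BMap} (hM : M.IsGood) (c : Bool) (σ : Perm M.T) :
    SymM M false σ (Sum.inr (xor c true)) ↔ TwI true c M M σ := by
  constructor
  · intro h
    refine ⟨h.a, fun t => ?_, fun b => ?_⟩
    · have h1 := h.s t
      rw [if_neg (by simp)] at h1
      rw [twS_true]
      exact h1
    · cases b
      · have h1 := h.a (Sum.inr true)
        rw [h.root] at h1
        rw [Bool.xor_false]
        have h2 : σ (Sum.inr false) = Sum.inr (!(xor c true)) := h1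
        rw [h2]
        cases c <;> rfl
      · exact h.root
  · intro h
    refine ⟨h.aa, fun t => ?_, h.root true⟩
    rw [if_neg (by simp)]
    exact h.rot t

theorem symM_refl {M : BMap} (hM : M.IsGood) (σ : Perm M.T) :
    SymM M false σ (M.s (Sum.inr true)) ↔ Refl M.aa M.s σ ∧ σ (Sum.inr true) = M.s (Sum.inr true) := by
  have hi : ∀ x, M.s (M.s⁻¹ x) = x := fun x => Equiv.apply_symm_apply M.s x
  have hi' : ∀ x, M.s⁻¹ (M.s x) = x := fun x => Equiv.symm_apply_apply M.s x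
  constructor
  · intro h
    have hs : ∀ x, σ (M.s x) = M.s⁻¹ (σ x) := fun x => by
      have h1 := h.s x
      rw [if_neg (by simp)] at h1
      exact h1
    have hs' : ∀ x, σ (M.s⁻¹ x) = M.s (σ x) := fun x => by
      have h1 := hs (M.s⁻¹ x)
      rw [hi] at h1
      rw [h1, hi]
    refine ⟨⟨h.a, fun t => ?_, fun t => ?_⟩, h.root⟩
    · rw [hs, hi]
    · have h2 : σ.trans σ = Equiv.refl _ := by
        refine iso_unique (a' := M.aa) (s' := M.s) hM (Sum.inr true) (σ.trans σ) (Equiv.refl _)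
          (fun t => ?_) (fun t => ?_) (fun _ => rfl) (fun _ => rfl) ?_
        · rw [Equiv.trans_apply, Equiv.trans_apply, h.a, h.a]
        · rw [Equiv.trans_apply, Equiv.trans_apply, hs, hs']
        · show σ (σ (Sum.inr true)) = Sum.inr true
          rw [h.root, hs, h.root, hi']
      exact Equiv.congr_fun h2 t
  · rintro ⟨h, hr⟩
    refine ⟨h.ea, fun x => ?_, hr⟩
    rw [if_neg (by simp), Perm.eq_inv_iff_eq]
    exact h.es x

section fix
variable {M : BMap} {σ : Perm M.T}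

/-- a vertex is fixed iff one of its darts stays in it -/
private theorem convA_key (hes : ∀ t, M.s (σ (M.s t)) = σ t) (q : M.Vx) :
    (∀ t, M.vx t = q → M.vx (σ t) = q) ↔
      ∃ t, q = Quotient.mk (Perm.SameCycle.setoid M.s) t ∧ M.s.SameCycle t (σ t) := by
  constructor
  · intro h
    obtain ⟨t, rfl⟩ : ∃ t, M.vx t = q := Quotient.exists_rep q
    exact ⟨t, rfl, (Quotient.exact (h t rfl)).symm⟩
  · rintro ⟨t, rfl, ht⟩ t' ht'
    have h1 : M.s.SameCycle t' t := Quotient.exact ht'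
    have h2 : M.s.SameCycle (σ t') (σ t) := CycInv_map hes h1
    exact Quotient.sound (h2.trans ht.symm)

private def convA_F (M : BMap) (σ : Perm M.T) : Set M.Vx :=
  {q | ∀ t, M.vx t = q → M.vx (σ t) = q}

private theorem convA_nFix (hes : ∀ t, M.s (σ (M.s t)) = σ t) :
    nFix M.s σ = (convA_F M σ).ncard := by
  rw [← Nat.card_coe_set_eq]
  exact Nat.card_congr (Equiv.subtypeEquivRight fun q => (convA_key hes q).symm)

private theorem convA_fixV (X : M.T → Prop) :
    fixV M σ X = (convA_F M σ \ {q | ∃ t, X t ∧ q = M.vx t}).ncard := by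
  rw [← Nat.card_coe_set_eq]
  refine Nat.card_congr (Equiv.subtypeEquivRight fun q => ?_)
  constructor
  · rintro ⟨h1, h2⟩
    refine ⟨h2, ?_⟩
    rintro ⟨t, ht, hq⟩
    exact h1 t ht hq
  · rintro ⟨h1, h2⟩
    exact ⟨fun t ht hq => h2 ⟨t, ht, hq⟩, h1⟩

private theorem convA_root (hes : ∀ t, M.s (σ (M.s t)) = σ t) {t : M.T}
    (h : M.s.SameCycle t (σ t)) : M.vx t ∈ convA_F M σ :=
  (convA_key hes _).2 ⟨t, rfl, h⟩

private theorem convA_pole (hM : M.IsGood) : M.vx (Sum.inr true) ≠ M.vx (Sum.inr false) :=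
  fun h => Good.noLoop hM (Sum.inr true) (Quotient.exact h)

private theorem convA_set : {q | ∃ t, (∃ b, t = Sum.inr b) ∧ q = M.vx t} =
    {M.vx (Sum.inr true), M.vx (Sum.inr false)} := by
  ext q
  simp only [Set.mem_ofPred_eq, Set.mem_insert_iff, Set.mem_singleton_iff]
  constructor
  · rintro ⟨t, ⟨b, rfl⟩, hq⟩
    cases b
    · exact Or.inr hq
    · exact Or.inl hq
  · rintro (hq | hq)
    · exact ⟨_, ⟨true, rfl⟩, hq⟩
    · exact ⟨_, ⟨false, rfl⟩, hq⟩

end fix

private theorem convA_es {M : BMap} (hM : M.IsGood) {σ : Perm M.T} {c : Bool}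
    (h : TwI true c M M σ) (t : M.T) : M.s (σ (M.s t)) = σ t := by
  rw [h.rot, twS_true]
  exact Equiv.apply_symm_apply M.s _

/-- numbers of fixed vertices: a vertex is fixed iff it contains a dart `t` with `σ t` in the same vertex -/
theorem fixV_C {M : BMap} (hM : M.IsGood) {σ : Perm M.T} (h : TwI true true M M σ) :
    fixV M σ (fun t => ∃ b, t = Sum.inr b) = nFix M.s σ := by
  rw [convA_nFix (convA_es hM h), convA_fixV, convA_set]
  congr 1
  rw [sdiff_eq_left, Set.disjoint_left]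
  intro q hq hq'
  have hp := convA_pole hM
  rcases hq' with h1 | h1
  · have h2 := hq (Sum.inr true) h1.symm
    rw [h.root, h1] at h2
    exact hp h2.symm
  · have h2 := hq (Sum.inr false) h1.symm
    rw [h.root, h1] at h2
    exact hp h2

theorem fixV_X {M : BMap} (hM : M.IsGood) {σ : Perm M.T} (h : TwI true false M M σ) :
    fixV M σ (fun t => ∃ b, t = Sum.inr b) + 2 = nFix M.s σ := by
  have hes := convA_es hM h
  have hfin : Finite M.Vx := inferInstanceAs (Finite (Quotient (Perm.SameCycle.setoid M.s)))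
  rw [convA_nFix hes, convA_fixV, convA_set, ← Set.ncard_pair (convA_pole hM)]
  refine Set.ncard_sdiff_add_ncard_of_subset ?_ (Set.toFinite _)
  intro q hq
  rcases hq with rfl | rfl
  · refine convA_root hes ?_
    rw [h.root]
    exact Perm.SameCycle.refl _ _
  · refine convA_root hes ?_
    rw [h.root]
    exact Perm.SameCycle.refl _ _

theorem fixV_G {M : BMap} (hM : M.IsGood) {σ : Perm M.T} (h : Refl M.aa M.s σ)
    (hr : σ (Sum.inr true) = M.s (Sum.inr true)) :
    fixV M σ (fun t => t = Sum.inr true) + 1 = nFix M.s σ := by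
  have hfin : Finite M.Vx := inferInstanceAs (Finite (Quotient (Perm.SameCycle.setoid M.s)))
  have h1 : {q | ∃ t, t = Sum.inr true ∧ q = M.vx t} = {M.vx (Sum.inr true)} := by
    ext q
    simp
  rw [convA_nFix h.es, convA_fixV, h1, ← Set.ncard_singleton (M.vx (Sum.inr true))]
  refine Set.ncard_sdiff_add_ncard_of_subset ?_ (Set.toFinite _)
  intro q hq
  rw [Set.mem_singleton_iff] at hq
  rw [hq]
  refine convA_root h.es ?_
  rw [hr]
  exact Perm.sameCycle_apply_right.2 (Perm.SameCycle.refl _ _)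

section cnt
variable {M : BMap} {σ : Perm M.T}

private theorem convA_fixD :
    fixD M σ (fun t => ∃ d, t = Sum.inl d) = nAx M σ := by
  unfold fixD nAx
  rw [← Fintype.card_subtype, ← Nat.card_eq_fintype_card]
  symm
  refine Nat.card_congr (Equiv.ofBijective (fun d => ⟨Sum.inl d.1, ⟨d.1, rfl⟩, d.2⟩) ⟨?_, ?_⟩)
  · rintro ⟨x, hx⟩ ⟨y, hy⟩ hxy
    exact Subtype.ext (Sum.inl_injective (congrArg Subtype.val hxy))
  · rintro ⟨_, ⟨x, rfl⟩, hx⟩
    exact ⟨⟨x, hx⟩, rfl⟩

private theorem convA_revD :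
    revD M σ (fun t => ∃ d, t = Sum.inl d) = nCr M σ := by
  unfold revD nCr
  rw [← Fintype.card_subtype, ← Nat.card_eq_fintype_card]
  symm
  refine Nat.card_congr (Equiv.ofBijective (fun d => ⟨Sum.inl d.1, ⟨d.1, rfl⟩, d.2⟩) ⟨?_, ?_⟩)
  · rintro ⟨x, hx⟩ ⟨y, hy⟩ hxy
    exact Subtype.ext (Sum.inl_injective (congrArg Subtype.val hxy))
  · rintro ⟨_, ⟨x, rfl⟩, hx⟩
    exact ⟨⟨x, hx⟩, rfl⟩

private theorem convA_fixD0 : fixD M σ (fun _ => True) = cAx σ := by
  unfold fixD cAx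
  rw [← Fintype.card_subtype, ← Nat.card_eq_fintype_card]
  exact Nat.card_congr (Equiv.subtypeEquivRight fun t => ⟨fun h => h.2, fun h => ⟨trivial, h⟩⟩)

private theorem convA_revD0 : revD M σ (fun _ => True) = cCr M.aa σ := by
  unfold revD cCr
  rw [← Fintype.card_subtype, ← Nat.card_eq_fintype_card]
  exact Nat.card_congr (Equiv.subtypeEquivRight fun t => ⟨fun h => h.2, fun h => ⟨trivial, h⟩⟩)

/-- the darts on the axis: nonroot darts and root darts -/
private theorem convA_cAx : cAx σ = nAx M σ +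
    (univ.filter fun b : Bool => σ (Sum.inr b) = Sum.inr b).card := by
  unfold cAx nAx
  have h1 : (univ.filter fun t : M.T => σ t = t) =
      ((univ.filter fun d : M.D => σ (Sum.inl d) = Sum.inl d).map ⟨Sum.inl, Sum.inl_injective⟩) ∪
        ((univ.filter fun b : Bool => σ (Sum.inr b) = Sum.inr b).map
          ⟨Sum.inr, Sum.inr_injective⟩) := by
    ext t
    simp only [mem_filter, mem_univ, true_and, mem_union, mem_map, Function.Embedding.coeFn_mk]
    constructor
    · intro h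
      rcases t with d | b
      · exact Or.inl ⟨d, h, rfl⟩
      · exact Or.inr ⟨b, h, rfl⟩
    · rintro (⟨d, h, rfl⟩ | ⟨b, h, rfl⟩)
      · exact h
      · exact h
  rw [h1, card_union_of_disjoint, card_map, card_map]
  rw [disjoint_left]
  intro t ht ht'
  simp only [mem_map, mem_filter, mem_univ, true_and, Function.Embedding.coeFn_mk] at ht ht'
  obtain ⟨d, _, rfl⟩ := ht
  obtain ⟨b, _, hb⟩ := ht'
  exact Sum.inr_ne_inl hb

end cnt

/-- Proof.  For a rigid map `M` with a reflection `σ` of root type `C` let `nFix = α + β`, `nAx = 2 α`, `nBi = 2 β` (`two_nFix`, `even_cAx`), `nV = nFix + 2 p` (`nV_parity`; `p ≥ 1` as the poles are exchanged), so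
`bi^(2 β) vx^(nV - 2) (ax² dt²)^α = y1^α (bi²)^(α + β) vx^(α + β) (vx²)^(p - 1) = y1^α x^nFix k^(p - 1)`. -/
theorem rigS_true {w : Wt} {x k y1 A y : ℝ≥0∞} (hw : WOK w x k y1 A y) (E : ℝ≥0∞) :
    RigS w true E = Ah x k y1 E (Es k y) := by
  have e2E : e2 w = Es k y := by
    unfold e2
    rw [hw.hk, hw.hy]
  unfold RigS Ah
  refine tsum_congr fun c => Finset.sum_congr rfl fun σ _ => ?_
  have hM : c.rep.1.IsGood := c.rep.2
  have hiff : SymM c.rep.1 false σ (Sum.inr false) ↔ TwI true true c.rep.1 c.rep.1 σ :=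
    symM_iff hM true σ
  by_cases hc : Rigid c.rep.1 ∧ TwI true true c.rep.1 c.rep.1 σ
  · rw [if_pos hc, if_pos ⟨hc.1, hiff.2 hc.2⟩]
    have h := hc.2
    have hes := convA_es hM h
    have hRefl := TwI.refl_ hM h
    unfold symW
    rw [convA_fixD, convA_revD, fixV_C hM h, e2E]
    obtain ⟨p, hp⟩ := nV_parity hes hRefl.ee
    obtain ⟨α, hα⟩ := even_cAx hM hRefl
    have h2 := two_nFix hes hRefl.ee
    have h3 := convA_cAx (M := c.rep.1) (σ := σ)
    have h4 : (univ.filter fun b : Bool => σ (Sum.inr b) = Sum.inr b).card = 0 := by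
      rw [card_eq_zero, filter_eq_empty_iff]
      intro b _ hb
      rw [h.root] at hb
      cases b <;> simp at hb
    have h5 : cBis c.rep.1.s σ = nBi c.rep.1 σ := rfl
    have hp1 : 1 ≤ p := by
      rcases Nat.eq_zero_or_pos p with rfl | h6
      · exfalso
        have hfin : Finite c.rep.1.Vx :=
          inferInstanceAs (Finite (Quotient (Perm.SameCycle.setoid c.rep.1.s)))
        have h7 : nV c.rep.1.s = Nat.card c.rep.1.Vx := rfl
        rw [convA_nFix hes, h7] at hp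
        have h8 : convA_F c.rep.1 σ = Set.univ := by
          refine Set.eq_of_subset_of_ncard_le (Set.subset_univ _) ?_
          rw [Set.ncard_univ]
          omega
        have h9 : c.rep.1.vx (Sum.inr true) ∈ convA_F c.rep.1 σ := by rw [h8]; trivial
        have h10 := h9 (Sum.inr true) rfl
        rw [h.root] at h10
        exact convA_pole hM h10.symm
      · exact h6
    have hnA : nAx c.rep.1 σ = 2 * α := by omega
    obtain ⟨β, hβ⟩ : ∃ β, nFix c.rep.1.s σ = α + β := ⟨nFix c.rep.1.s σ - α, by omega⟩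
    have hnB : nBi c.rep.1 σ = 2 * β := by omega
    obtain ⟨p', rfl⟩ : ∃ p', p = p' + 1 := ⟨p - 1, by omega⟩
    have e1 : nV c.rep.1.s - 2 = (α + β) + 2 * p' := by omega
    have e3 : (nV c.rep.1.s - 2 - nFix c.rep.1.s σ) / 2 = p' := by omega
    rw [e3, e1, hnA, hnB, hβ]
    have e4 : 2 * α / 2 = α := by omega
    rw [e4, hw.hy1, ← hw.hx, ← hw.hk]
    ring
  · rw [if_neg hc, if_neg fun h => hc ⟨h.1, hiff.1 h.2⟩]

/-- `nFix = fixV + 2`, `cAx = nAx + 2`, so `α + β = fixV + 1` with `nAx = 2 α`, `nBi = 2 β` -/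
theorem rigS_false {w : Wt} {x k y1 A y : ℝ≥0∞} (hw : WOK w x k y1 A y) (E : ℝ≥0∞) :
    RigS w false E = w.bi ^ 2 * Av x k y1 E (Es k y) := by
  have e2E : e2 w = Es k y := by
    unfold e2
    rw [hw.hk, hw.hy]
  unfold RigS Av
  rw [← ENNReal.tsum_mul_left]
  refine tsum_congr fun c => ?_
  rw [Finset.mul_sum]
  refine Finset.sum_congr rfl fun σ _ => ?_
  have hM : c.rep.1.IsGood := c.rep.2
  have hiff : SymM c.rep.1 false σ (Sum.inr true) ↔ TwI true false c.rep.1 c.rep.1 σ :=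
    symM_iff hM false σ
  by_cases hc : Rigid c.rep.1 ∧ TwI true false c.rep.1 c.rep.1 σ
  · rw [if_pos hc, if_pos ⟨hc.1, hiff.2 hc.2⟩]
    have h := hc.2
    have hes := convA_es hM h
    have hRefl := TwI.refl_ hM h
    unfold symW
    rw [convA_fixD, convA_revD, e2E]
    have hf := fixV_X hM h
    obtain ⟨f, hfdef⟩ : ∃ f, fixV c.rep.1 σ (fun t => ∃ b, t = Sum.inr b) = f := ⟨_, rfl⟩
    rw [hfdef] at hf ⊢
    obtain ⟨p, hp⟩ := nV_parity hes hRefl.ee
    obtain ⟨α, hα⟩ := even_cAx hM hRefl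
    have h2 := two_nFix hes hRefl.ee
    have h3 := convA_cAx (M := c.rep.1) (σ := σ)
    have h4 : (univ.filter fun b : Bool => σ (Sum.inr b) = Sum.inr b).card = 2 := by
      have h6 : (univ.filter fun b : Bool => σ (Sum.inr b) = Sum.inr b) = univ := by
        rw [filter_eq_self]
        intro b _
        rw [h.root, Bool.false_xor]
      rw [h6]
      rfl
    have h5 : cBis c.rep.1.s σ = nBi c.rep.1 σ := rfl
    obtain ⟨α', hα'⟩ : ∃ α', nAx c.rep.1 σ = 2 * α' := ⟨α - 1, by omega⟩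
    obtain ⟨β, hβ⟩ : ∃ β, f + 1 = α' + β := ⟨f + 1 - α', by omega⟩
    have hnB : nBi c.rep.1 σ = 2 * β := by omega
    have e1 : nV c.rep.1.s - 2 = f + 2 * p := by omega
    have e3 : (nV c.rep.1.s - 2 - f) / 2 = p := by omega
    rw [e3, e1, hα', hnB]
    have e4 : 2 * α' / 2 = α' := by omega
    rw [e4, hw.hy1, ← hw.hx, ← hw.hk]
    have e5 : w.bi ^ (2 * β) * (w.bi ^ 2) ^ α' = w.bi ^ 2 * (w.bi ^ 2) ^ f := by
      rw [pow_mul, ← pow_add, ← pow_succ']
      congr 1
      omega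
    calc w.bi ^ (2 * β) * w.vx ^ (f + 2 * p) * (y1 * w.bi ^ 2) ^ α' * E ^ (nCr c.rep.1 σ / 2) *
          Es (w.vx ^ 2) y ^ ((Fintype.card c.rep.1.D - 2 * α' - nCr c.rep.1 σ) / 4)
        = (w.bi ^ (2 * β) * (w.bi ^ 2) ^ α') * w.vx ^ (f + 2 * p) * y1 ^ α' *
          E ^ (nCr c.rep.1 σ / 2) *
          Es (w.vx ^ 2) y ^ ((Fintype.card c.rep.1.D - 2 * α' - nCr c.rep.1 σ) / 4) := by
          rw [mul_pow]; ring
      _ = _ := by rw [e5]; ring
  · rw [if_neg hc, if_neg fun h => hc ⟨h.1, hiff.1 h.2⟩, mul_zero]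

/-- `nFix = fixV + 1` -/
theorem rigG_eq {w : Wt} {x k y1 A y : ℝ≥0∞} (hw : WOK w x k y1 A y) (E : ℝ≥0∞) :
    RigG w E = x * Ac x k y1 E (Es k y) := by
  have e2E : e2 w = Es k y := by
    unfold e2
    rw [hw.hk, hw.hy]
  unfold RigG Ac
  rw [← ENNReal.tsum_mul_left]
  refine tsum_congr fun c => ?_
  rw [Finset.mul_sum]
  refine Finset.sum_congr rfl fun σ _ => ?_
  have hM : c.rep.1.IsGood := c.rep.2
  have hiff := symM_refl hM σ
  by_cases hc : Rigid c.rep.1 ∧ Refl c.rep.1.aa c.rep.1.s σ ∧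
      σ (Sum.inr true) = c.rep.1.s (Sum.inr true)
  · rw [if_pos hc, if_pos ⟨hc.1, hiff.2 hc.2⟩]
    have hRefl := hc.2.1
    have hes := hRefl.es
    unfold symW0
    rw [convA_fixD0, convA_revD0, e2E]
    have hf := fixV_G hM hRefl hc.2.2
    obtain ⟨f, hfdef⟩ : ∃ f, fixV c.rep.1 σ (fun t => t = Sum.inr true) = f := ⟨_, rfl⟩
    rw [hfdef] at hf ⊢
    obtain ⟨p, hp⟩ := nV_parity hes hRefl.ee
    obtain ⟨α, hα⟩ := even_cAx hM hRefl
    have h2 := two_nFix hes hRefl.ee
    have hα' : cAx σ = 2 * α := by omega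
    obtain ⟨β, hβ⟩ : ∃ β, f + 1 = α + β := ⟨f + 1 - α, by omega⟩
    have hnB : cBis c.rep.1.s σ = 2 * β := by omega
    have e1 : nV c.rep.1.s = f + 1 + 2 * p := by omega
    have e3 : (f + 1 + 2 * p - 1 - f) / 2 = p := by omega
    rw [e1, e3, hα', hnB]
    have e4 : 2 * α / 2 = α := by omega
    rw [e4, hw.hy1, ← hw.hx, ← hw.hk]
    have e5 : w.bi ^ (2 * β) * (w.bi ^ 2) ^ α = w.bi ^ 2 * (w.bi ^ 2) ^ f := by
      rw [pow_mul, ← pow_add, ← pow_succ']
      congr 1
      omega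
    calc w.bi ^ (2 * β) * w.vx ^ (f + 1 + 2 * p) * (y1 * w.bi ^ 2) ^ α *
          E ^ (cCr c.rep.1.aa σ / 2) *
          Es (w.vx ^ 2) y ^ ((Fintype.card c.rep.1.T - 2 * α - cCr c.rep.1.aa σ) / 4)
        = (w.bi ^ (2 * β) * (w.bi ^ 2) ^ α) * w.vx ^ (f + 1 + 2 * p) * y1 ^ α *
          E ^ (cCr c.rep.1.aa σ / 2) *
          Es (w.vx ^ 2) y ^ ((Fintype.card c.rep.1.T - 2 * α - cCr c.rep.1.aa σ) / 4) := by
          rw [mul_pow]; ring
      _ = _ := by rw [e5]; ring
  · rw [if_neg hc, if_neg fun h => hc ⟨h.1, hiff.1 h.2⟩, mul_zero]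

end PGr

end

section
/-! # Module QSer: the generating functions `Qk`, `Api` of the interface -/

set_option linter.unusedSectionVars false

namespace PGr
open Equiv Finset
open scoped ENNReal Classical

section comb
variable {T : Type*} [Fintype T] [DecidableEq T] {a s e : Perm T}

/-- the reversed darts: two for every fixed edge -/
private theorem QSer_rev (hinv : ∀ t, a (a t) = t) (hfpf : ∀ t, a t ≠ t)
    (hc : ∀ t, e (a t) = a (e t)) (hfree : ∀ t, e t ≠ t) :
    Nat.card {t : T // e t = a t} = 2 * nFix a e := by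
  have hea : ∀ t, a.SameCycle t (e t) → e t = a t := by
    intro t ht
    rcases Poles_sca hinv ht with h1 | h1
    · exact absurd h1 (hfree t)
    · exact h1
  have hout : ∀ q : {q : Quotient (Perm.SameCycle.setoid a) //
      ∃ t, q = Quotient.mk _ t ∧ a.SameCycle t (e t)}, e q.1.out = a q.1.out := by
    rintro ⟨q, t, h1, h2⟩
    apply hea
    refine Poles_sc_of hc h2 ?_
    have h3 : Quotient.mk (Perm.SameCycle.setoid a) q.out = Quotient.mk _ t :=
      (Quotient.out_eq q).trans h1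
    exact (Quotient.exact h3).symm
  let F : {q : Quotient (Perm.SameCycle.setoid a) //
      ∃ t, q = Quotient.mk _ t ∧ a.SameCycle t (e t)} × Bool → {t : T // e t = a t} :=
    fun p => if p.2 then ⟨p.1.1.out, hout p.1⟩ else ⟨a p.1.1.out, by rw [hc, hout p.1]⟩
  have hF1 : ∀ q, (F (q, true)).1 = q.1.out := fun q => rfl
  have hF2 : ∀ q, (F (q, false)).1 = a q.1.out := fun q => rfl
  have hmk : ∀ p, Quotient.mk (Perm.SameCycle.setoid a) (F p).1 = p.1.1 := by
    rintro ⟨q, b⟩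
    cases b
    · rw [hF2]
      refine Eq.trans (Quotient.sound ?_) (Quotient.out_eq q.1)
      exact Perm.SameCycle.symm ⟨1, by simp⟩
    · rw [hF1]
      exact Quotient.out_eq q.1
  have hbij : Function.Bijective F := by
    constructor
    · rintro ⟨q, b⟩ ⟨q', b'⟩ h
      have h1 := hmk (q, b)
      rw [h, hmk (q', b')] at h1
      have h2 : q = q' := Subtype.ext h1.symm
      subst h2
      have h3 := congrArg Subtype.val h
      cases b <;> cases b'
      · rfl
      · rw [hF1, hF2] at h3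
        exact absurd h3 (hfpf _)
      · rw [hF1, hF2] at h3
        exact absurd h3.symm (hfpf _)
      · rfl
    · rintro ⟨t, ht⟩
      have hq : ∃ t', Quotient.mk (Perm.SameCycle.setoid a) t = Quotient.mk _ t' ∧
          a.SameCycle t' (e t') := ⟨t, rfl, ht ▸ ⟨1, by simp⟩⟩
      have h0 : Quotient.mk (Perm.SameCycle.setoid a)
          (Quotient.mk (Perm.SameCycle.setoid a) t).out = Quotient.mk _ t := Quotient.out_eq _
      have h1 : a.SameCycle t (Quotient.mk (Perm.SameCycle.setoid a) t).out :=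
        (Quotient.exact h0).symm
      rcases Poles_sca hinv h1 with h2 | h2
      · exact ⟨(⟨_, hq⟩, true), Subtype.ext ((hF1 _).trans h2)⟩
      · exact ⟨(⟨_, hq⟩, false), Subtype.ext ((hF2 _).trans (by rw [h2, hinv]))⟩
  have h5 := Nat.card_congr (Equiv.ofBijective F hbij)
  rw [Nat.card_prod, Nat.card_eq_fintype_card (α := Bool), Fintype.card_bool] at h5
  rw [← h5, mul_comm]
  rfl

variable {k : ℕ} {r : T} {ρ : Perm T}

/-- the edges at the root vertex are not reversed, and have only one end at the root vertex -/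
private theorem QSer_dgs (h : Good a s) (hr : Rot a s ρ k r) :
    dgs s r + nFix a ρ ≤ Fintype.card T / 2 := by
  have h1 : Nat.card {t : T // ρ t = a t} = 2 * nFix a ρ :=
    QSer_rev h.inv h.fpf hr.ra (fun t ht => hr.free t 1 one_pos (by have := hr.k2; omega)
      (by simpa using ht))
  rw [Nat.card_eq_fintype_card, Fintype.card_subtype] at h1
  have h2 : dgs s r = (univ.filter fun y => s.SameCycle r y).card := minimalPeriod_eq_card s r
  have h3 : ((univ.filter fun y => s.SameCycle r y).image a).card =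
      (univ.filter fun y => s.SameCycle r y).card := card_image_of_injective _ a.injective
  have hfix : ∀ t, s.SameCycle r t → ρ t ≠ a t := by
    intro t ht h4
    refine h.noLoop t ?_
    rw [← h4]
    exact Poles_sc_of hr.rs hr.root ht
  have d1 : Disjoint (univ.filter fun y => s.SameCycle r y)
      ((univ.filter fun y => s.SameCycle r y).image a) := by
    rw [disjoint_left]
    intro t ht ht'
    rw [mem_image] at ht'
    obtain ⟨u, hu, rfl⟩ := ht'
    rw [mem_filter] at ht hu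
    exact h.noLoop u (hu.2.symm.trans ht.2)
  have d2 : Disjoint ((univ.filter fun y => s.SameCycle r y) ∪
      ((univ.filter fun y => s.SameCycle r y).image a)) (univ.filter fun t => ρ t = a t) := by
    rw [disjoint_left]
    intro t ht ht'
    rw [mem_filter] at ht'
    rw [mem_union, mem_filter, mem_image] at ht
    rcases ht with ht | ⟨u, hu, rfl⟩
    · exact hfix t ht.2 ht'.2
    · rw [mem_filter] at hu
      refine hfix u hu.2 ?_
      have h5 := ht'.2
      rw [hr.ra] at h5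
      exact a.injective h5
  have h6 := card_le_univ (((univ.filter fun y => s.SameCycle r y) ∪
      ((univ.filter fun y => s.SameCycle r y).image a)) ∪ (univ.filter fun t => ρ t = a t))
  rw [card_union_of_disjoint d2, card_union_of_disjoint d1, h3, ← h2, h1] at h6
  omega

end comb

section maps
variable {M : BMap} {σ : Perm M.T}

private theorem QSer_fixed (hc : ∀ t, σ (M.s t) = M.s (σ t)) (q : M.Vx) :
    (∀ t, M.vx t = q → M.vx (σ t) = q) ↔
      ∃ t, q = Quotient.mk (Perm.SameCycle.setoid M.s) t ∧ M.s.SameCycle t (σ t) := by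
  constructor
  · intro h
    obtain ⟨t, rfl⟩ := Quotient.exists_rep q
    exact ⟨t, rfl, (Quotient.exact (h t rfl)).symm⟩
  · rintro ⟨t, rfl, h⟩ t' ht'
    have h1 : M.s.SameCycle t t' := (Quotient.exact ht').symm
    exact Quotient.sound ((Poles_sc_of hc h h1).symm.trans h1.symm)

private theorem QSer_fixV1 (hc : ∀ t, σ (M.s t) = M.s (σ t))
    (h0 : M.s.SameCycle (Sum.inr true) (σ (Sum.inr true))) :
    fixV M σ (fun t => t = Sum.inr true) + 1 = nFix M.s σ := by
  have : Fintype M.Vx := Fintype.ofFinite (Quotient (Perm.SameCycle.setoid M.s))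
  have e1 : fixV M σ (fun t => t = Sum.inr true) =
      ((univ.filter fun q : M.Vx => ∃ t, q = Quotient.mk (Perm.SameCycle.setoid M.s) t ∧
        M.s.SameCycle t (σ t)).erase (M.vx (Sum.inr true))).card := by
    unfold fixV
    rw [Nat.card_eq_fintype_card, Fintype.card_subtype]
    congr 1
    ext q
    rw [mem_filter, mem_erase, mem_filter, QSer_fixed hc]
    constructor
    · rintro ⟨-, h1, h2⟩
      exact ⟨h1 _ rfl, mem_univ _, h2⟩
    · rintro ⟨h1, -, h2⟩
      exact ⟨mem_univ _, fun t ht => ht ▸ h1, h2⟩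
  have e2 : nFix M.s σ = (univ.filter fun q : M.Vx =>
      ∃ t, q = Quotient.mk (Perm.SameCycle.setoid M.s) t ∧ M.s.SameCycle t (σ t)).card := by
    show Nat.card {q : M.Vx // ∃ t, q = Quotient.mk (Perm.SameCycle.setoid M.s) t ∧
      M.s.SameCycle t (σ t)} = _
    rw [Nat.card_eq_fintype_card, Fintype.card_subtype]
  rw [e1, e2]
  refine card_erase_add_one ?_
  rw [mem_filter]
  exact ⟨mem_univ _, _, rfl, h0⟩

private theorem QSer_fixV2 (hc : ∀ t, σ (M.s t) = M.s (σ t))
    (h0 : ∀ b, ¬ M.s.SameCycle (Sum.inr b) (σ (Sum.inr b))) :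
    fixV M σ (fun t => ∃ b, t = Sum.inr b) = nFix M.s σ := by
  unfold fixV nFix
  refine Nat.card_congr (Equiv.subtypeEquivRight fun q => ?_)
  rw [QSer_fixed hc]
  constructor
  · exact fun h => h.2
  · rintro ⟨t, rfl, h⟩
    refine ⟨?_, t, rfl, h⟩
    rintro _ ⟨b, rfl⟩ h1
    exact h0 b (Poles_sc_of hc h (Quotient.exact h1))

end maps

section
variable {k : ℕ} {S Y Eb kv kf x ζ : ℝ≥0∞}

private theorem QSer_zeta (k : ℕ) (S Y kv kf ke ζ : ℝ≥0∞) (M : BMap) :
    wSc k S Y kv kf ke ζ M = wSc k S Y kv kf ke 1 M * ζ ^ dgs M.s (Sum.inr true) := by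
  unfold wSc
  split_ifs with h
  · unfold wS
    rw [one_pow, mul_one]
  · rw [zero_mul]

private theorem QSer_dvd {M : BMap} (hM : M.IsGood) (h : IsV k M) :
    ∃ δ, dgs M.s (Sum.inr true) = k * (δ + 1) := by
  obtain ⟨ρ, hr⟩ := h
  obtain ⟨⟨q, hq⟩, -⟩ := hr.normal hM
  have h1 := Poles_dgs_pos M.s (Sum.inr true)
  rcases q with _ | δ
  · rw [hq, mul_zero] at h1
    exact absurd h1 (lt_irrefl 0)
  · exact ⟨δ, hq⟩

/-- the degree is a positive multiple of `k` (`Rot.normal`), and `wSc .. ζ = wSc .. 1 * ζ ^ dgs` -/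
theorem RS_series (hk : 2 ≤ k) :
    RS k S Eb kv kf x ζ = ∑' δ : ℕ, RSd k S Eb kv kf x δ * (ζ ^ k) ^ (δ + 1) := by
  unfold RS RSd
  simp_rw [← ENNReal.tsum_mul_right]
  rw [ENNReal.tsum_comm]
  refine tsum_congr fun c => ?_
  by_cases hR : Rigid c.rep.1
  swap
  · simp [hR]
  by_cases hV : IsV k c.rep.1
  swap
  · simp [wSc_none hV]
  obtain ⟨δ, hδ⟩ := QSer_dvd c.rep.2 hV
  rw [tsum_eq_single δ]
  · rw [if_pos hR, if_pos ⟨hR, hδ⟩, QSer_zeta, hδ, pow_mul]
  · intro δ' hne
    rw [if_neg, zero_mul]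
    rintro ⟨-, h2⟩
    rw [hδ] at h2
    have h3 := Nat.eq_of_mul_eq_mul_left (by omega) h2
    omega

/-- `wS_ke` -/
theorem RSd_ke (hk : k ≠ 2) (x' : ℝ≥0∞) (δ : ℕ) :
    RSd k S Eb kv kf x δ = RSd k S Eb kv kf x' δ := by
  unfold RSd
  refine tsum_congr fun c => ?_
  split_ifs with h
  · by_cases hV : IsV k c.rep.1
    · obtain ⟨ρ, hr⟩ := hV
      rw [wSc_of c.rep.2 hr, wSc_of c.rep.2 hr, wS_ke c.rep.2 hr hk x']
    · rw [wSc_none hV, wSc_none hV]
  · rfl


private theorem QSer_card (M : BMap) (hM : M.IsGood) : 2 ∣ Fintype.card M.T :=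
  ⟨_, (Euler_finrank_inv hM.inv hM.fpf).symm⟩

/-- the weights for a rotation about the root vertex -/
private theorem QSer_rotW {M : BMap} (hM : M.IsGood) {σ : Perm M.T}
    (hr : Rot M.aa M.s σ k (Sum.inr true)) :
    rotW M σ k kv (S ^ k) x (Eb ^ k) =
      kv ^ (nFix M.s σ - 1) * S ^ (nV M.s - nFix M.s σ) * x ^ nFix M.aa σ *
        Eb ^ (Fintype.card M.T / 2 - nFix M.aa σ) := by
  have hk2 := hr.k2
  have e1 := QSer_fixV1 hr.rs hr.root
  have e2 : revD M σ (fun _ => True) = 2 * nFix M.aa σ := by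
    rw [← QSer_rev hM.inv hM.fpf hr.ra (fun t ht => hr.free t 1 one_pos (by omega)
      (by simpa using ht))]
    unfold revD
    exact Nat.card_congr (Equiv.subtypeEquivRight fun q => by simp)
  obtain ⟨-, d1, d2, -⟩ := hr.dvd hM
  have hc := QSer_card M hM
  unfold rotW
  rw [e2, Nat.mul_div_cancel_left _ two_pos, ← pow_mul, ← pow_mul]
  have e3 : fixV M σ (fun t => t = Sum.inr true) = nFix M.s σ - 1 := by omega
  have e4 : k * ((nV M.s - 1 - (nFix M.s σ - 1)) / k) = nV M.s - nFix M.s σ := by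
    rw [show nV M.s - 1 - (nFix M.s σ - 1) = nV M.s - nFix M.s σ by omega]
    exact Nat.mul_div_cancel' d1
  have e5 : k * ((Fintype.card M.T - 2 * nFix M.aa σ) / (2 * k)) =
      Fintype.card M.T / 2 - nFix M.aa σ := by
    rw [← Nat.div_div_eq_div_mul, show (Fintype.card M.T - 2 * nFix M.aa σ) / 2 =
      Fintype.card M.T / 2 - nFix M.aa σ by omega]
    exact Nat.mul_div_cancel' d2
  rw [e3, e4, e5]


private theorem QSer_SymM {M : BMap} {σ : Perm M.T} {t : M.T} (h : SymM M true σ t) :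
    ∀ x, σ (M.s x) = M.s (σ x) := by
  intro x
  have h1 := h.s x
  rwa [if_pos rfl] at h1

/-- the term of one rigid map, for the rotation about the root vertex -/
private theorem QSer_term (hk : 2 ≤ k) {M : BMap} (hM : M.IsGood) (f : Perm M.T → ℝ≥0∞) :
    (∑ σ : Perm M.T, if k ∣ M.dg ∧ SymM M true σ ((M.s ^ (M.dg / k)) (Sum.inr true)) then
      f σ else 0) = if h : ∃ σ, Rot M.aa M.s σ k (Sum.inr true) ∧
        σ (Sum.inr true) = (M.s ^ (dgs M.s (Sum.inr true) / k)) (Sum.inr true) then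
          f h.choose else 0 := by
  have hdg : M.dg = dgs M.s (Sum.inr true) := rfl
  have key : ∀ σ : Perm M.T, (k ∣ M.dg ∧ SymM M true σ ((M.s ^ (M.dg / k)) (Sum.inr true))) ↔
      (Rot M.aa M.s σ k (Sum.inr true) ∧
        σ (Sum.inr true) = (M.s ^ (dgs M.s (Sum.inr true) / k)) (Sum.inr true)) := by
    intro σ
    constructor
    · rintro ⟨h1, h2⟩
      exact ⟨Rot.of_normal hM h2.a (QSer_SymM h2) hk h1 h2.root, h2.root⟩
    · rintro ⟨h1, h2⟩
      refine ⟨(h1.normal hM).1, ⟨h1.ra, fun y => ?_, h2⟩⟩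
      rw [if_pos rfl]
      exact h1.rs y
  split_ifs with h
  · obtain ⟨h1, h2⟩ := h.choose_spec
    rw [Finset.sum_eq_single h.choose]
    · rw [if_pos ((key _).2 ⟨h1, h2⟩)]
    · intro σ _ hne
      rw [if_neg]
      intro h3
      obtain ⟨h4, h5⟩ := (key _).1 h3
      exact hne (iso_unique hM (Sum.inr true) σ h.choose h4.ra h4.rs h1.ra h1.rs
        (h5.trans h2.symm))
    · intro h3
      exact absurd (mem_univ _) h3
  · refine Finset.sum_eq_zero fun σ _ => ?_
    rw [if_neg]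
    exact fun h3 => h ⟨σ, (key σ).1 h3⟩

/-- The term of the class of a rigid map `M` in `Qk`.  If there is a `σ` with `SymM M true σ ((M.s ^ (M.dg / k)) (inr true))`, `k ∣ M.dg`, it is unique (`iso_unique`) and a rotation (`Rot.of_normal`; `M.dg = dgs M.s (inr true)`
by definition); if `IsV k M`, then there is one (`Rot.normal`, `Rot.coprime_pow`).  For it: the fixed vertices different from the root vertex: `fixV = nFix M.s σ - 1`; `revD = 2 * nFix M.aa σ` (no dart is
fixed); so with `Rot.dvd` `rotW M σ k kv (S ^ k) x (Eb ^ k) = kv ^ (nFix M.s σ - 1) * S ^ (nV - nFix M.s σ) * x ^ nFix M.aa σ * Eb ^ (|T| / 2 - nFix M.aa σ)`, which is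
`wS S Eb kv 1 x 1 * Eb ^ dgs`; with `dgs = k * (δ + 1)` the factor `k / dgs` is `1 / (δ + 1)`. -/
theorem Qk_eq (hk : 2 ≤ k) : Qk k kv (S ^ k) x (Eb ^ k) =
    ∑' δ : ℕ, RSd k S Eb kv 1 x δ * (Eb ^ k) ^ (δ + 1) / ((δ : ℝ≥0∞) + 1) := by
  unfold Qk RSd
  simp_rw [ENNReal.div_eq_inv_mul, ← ENNReal.tsum_mul_right, ← ENNReal.tsum_mul_left]
  rw [ENNReal.tsum_comm]
  refine tsum_congr fun c => ?_
  by_cases hR : Rigid c.rep.1
  swap
  · simp [hR]
  have e0 := QSer_term hk c.rep.2 (fun σ => (c.rep.1.dg : ℝ≥0∞)⁻¹ *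
    (rotW c.rep.1 σ k kv (S ^ k) x (Eb ^ k) * (k : ℝ≥0∞)))
  simp only [hR, true_and]
  rw [e0]
  by_cases hV : IsV k c.rep.1
  · obtain ⟨ρ, hρ⟩ := hV
    obtain ⟨-, i, hi1, hi2⟩ := hρ.normal c.rep.2
    have hex : ∃ σ, Rot c.rep.1.aa c.rep.1.s σ k (Sum.inr true) ∧ σ (Sum.inr true) =
        (c.rep.1.s ^ (dgs c.rep.1.s (Sum.inr true) / k)) (Sum.inr true) :=
      ⟨ρ ^ i, hρ.coprime_pow hi1, hi2⟩
    rw [dif_pos hex]
    have hr := hex.choose_spec.1
    generalize hex.choose = σ at hr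
    obtain ⟨δ, hδ⟩ := QSer_dvd c.rep.2 ⟨ρ, hρ⟩
    have hdg : c.rep.1.dg = k * (δ + 1) := hδ
    rw [tsum_eq_single δ]
    · rw [if_pos hδ, wSc_of c.rep.2 hr, QSer_rotW c.rep.2 hr, hdg]
      have hd := QSer_dgs c.rep.2 hr
      rw [hδ] at hd
      have h1 : (((k * (δ + 1) : ℕ) : ℝ≥0∞))⁻¹ * (k : ℝ≥0∞) = ((δ : ℝ≥0∞) + 1)⁻¹ := by
        have hk0 : (k : ℝ≥0∞) ≠ 0 := by
          rw [Ne, Nat.cast_eq_zero]
          omega
        rw [Nat.cast_mul, Nat.cast_add, Nat.cast_one, ENNReal.mul_inv (Or.inl hk0)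
          (Or.inl (ENNReal.natCast_ne_top k)), mul_comm, ← mul_assoc,
          ENNReal.mul_inv_cancel hk0 (ENNReal.natCast_ne_top k), one_mul]
      have h2 : Eb ^ (Fintype.card c.rep.1.T / 2 - nFix c.rep.1.aa σ) =
          Eb ^ (Fintype.card c.rep.1.T / 2 - nFix c.rep.1.aa σ - k * (δ + 1)) *
            (Eb ^ k) ^ (δ + 1) := by
        rw [← pow_mul, ← pow_add]
        congr 1
        omega
      rw [h2]
      unfold wS
      rw [one_pow, one_pow, mul_one, mul_one, hδ]
      calc _ = (((k * (δ + 1) : ℕ) : ℝ≥0∞))⁻¹ * (k : ℝ≥0∞) * _ := by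
            rw [mul_comm (_ * _) (k : ℝ≥0∞), ← mul_assoc]
        _ = _ := by
            rw [h1]
            ring
    · intro δ' hne
      rw [if_neg, zero_mul, mul_zero]
      intro h2
      rw [hδ] at h2
      have h3 := Nat.eq_of_mul_eq_mul_left (by omega) h2
      omega
  · rw [dif_neg]
    · simp [wSc_none hV]
    · rintro ⟨σ, hσ, -⟩
      exact hV ⟨σ, hσ⟩

/-- `SymM M true σ (inr false)` is `TwI false true M M σ`.  No dart is fixed (`TwI.piFree`), `revD = 2 * (nFix M.aa σ - 1)` (nonroot darts), `fixV = nFix M.s σ` (the ends of the root edge are not fixed,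
`TwI.piV`); `(S ^ 2) ^ ((nV - 2 - nFix) / 2) = S ^ (nV - 2 - nFix)` and `(Eb ^ 2) ^ ((|D| - revD) / 4) = Eb ^ (|T| / 2 - nFix M.aa σ)` by the divisibility in `TwI.piV`. -/
theorem Api_eq (d1 : ℝ≥0∞) : Api kv (S ^ 2) d1 x (Eb ^ 2) = RigPi S Eb kv 1 x := by
  unfold Api RigPi
  refine tsum_congr fun c => ?_
  by_cases hR : Rigid c.rep.1
  swap
  · simp [hR]
  rw [if_pos hR]
  unfold wPi
  refine Finset.sum_congr rfl fun σ _ => ?_
  have hM := c.rep.2
  have hiff : SymM c.rep.1 true σ (Sum.inr false) ↔ TwI false true c.rep.1 c.rep.1 σ := by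
    constructor
    · intro h
      refine ⟨h.a, fun t => ?_, fun b => ?_⟩
      · rw [twS_false]
        exact QSer_SymM h t
      · cases b
        · have h1 := h.a (Sum.inr true)
          rw [h.root] at h1
          exact h1
        · exact h.root
    · intro h
      refine ⟨h.aa, fun t => ?_, h.root true⟩
      rw [if_pos rfl]
      exact h.rot t
  by_cases h : TwI false true c.rep.1 c.rep.1 σ
  swap
  · rw [if_neg h, if_neg]
    exact fun h1 => h (hiff.1 h1.2)
  rw [if_pos h, if_pos ⟨hR, hiff.2 h⟩]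
  have hrot : ∀ t, σ (c.rep.1.s t) = c.rep.1.s (σ t) := h.rot
  have hfree := h.piFree hM
  obtain ⟨h1, h2⟩ := h.piTwo hM
  obtain ⟨v1, v2, v3, v4⟩ := h.piV hM
  have e1 : fixV c.rep.1 σ (fun t => ∃ b, t = Sum.inr b) = nFix c.rep.1.s σ := by
    refine QSer_fixV2 hrot fun b hb => ?_
    rw [h.root b] at hb
    refine hM.noLoop (Sum.inr b) ?_
    cases b
    · exact hb
    · exact hb
  have e2 : fixD c.rep.1 σ (fun t => ∃ d, t = Sum.inl d) = 0 := by
    unfold fixD
    rw [Nat.card_eq_zero]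
    left
    exact ⟨fun t => hfree t.1 t.2.2⟩
  have e3 : revD c.rep.1 σ (fun t => ∃ d, t = Sum.inl d) = 2 * (nFix c.rep.1.aa σ - 1) := by
    have h3 := QSer_rev hM.inv hM.fpf h.aa hfree
    have h4 : Nat.card {t : c.rep.1.T // σ t = c.rep.1.aa t} =
        Nat.card {t : c.rep.1.T // (∃ d, t = Sum.inl d) ∧ σ t = c.rep.1.aa t} + 2 := by
      rw [Nat.card_eq_fintype_card, Nat.card_eq_fintype_card, Fintype.card_subtype,
        Fintype.card_subtype]
      have h5 : (univ.filter fun t : c.rep.1.T => σ t = c.rep.1.aa t) =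
          (univ.filter fun t : c.rep.1.T => (∃ d, t = Sum.inl d) ∧ σ t = c.rep.1.aa t) ∪
            {Sum.inr true, Sum.inr false} := by
        ext t
        simp only [mem_filter, mem_univ, true_and, mem_union, mem_insert, mem_singleton]
        constructor
        · intro h6
          rcases t with d | b
          · exact Or.inl ⟨⟨d, rfl⟩, h6⟩
          · right
            cases b
            · exact Or.inr rfl
            · exact Or.inl rfl
        · rintro (h6 | rfl | rfl)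
          · exact h6.2
          · exact h.root true
          · exact h.root false
      rw [h5, card_union_of_disjoint, card_pair (by simp)]
      rw [disjoint_left]
      intro t ht ht'
      rw [mem_filter] at ht
      obtain ⟨-, ⟨d, rfl⟩, -⟩ := ht
      simp at ht'
    show Nat.card {t : c.rep.1.T // (∃ d, t = Sum.inl d) ∧ σ t = c.rep.1.aa t} = _
    omega
  unfold symW pW
  have hD : Fintype.card c.rep.1.T = Fintype.card c.rep.1.D + 2 := by
    rw [Fintype.card_sum, Fintype.card_bool]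
  have hcard := QSer_card c.rep.1 hM
  rw [e1, e2, e3, ← pow_mul, ← pow_mul]
  have e4 : 2 * ((nV c.rep.1.s - 2 - nFix c.rep.1.s σ) / 2) =
      nV c.rep.1.s - 2 - nFix c.rep.1.s σ := Nat.mul_div_cancel' v2
  have e5 : 2 * ((Fintype.card c.rep.1.D - 0 - 2 * (nFix c.rep.1.aa σ - 1)) / 4) =
      Fintype.card c.rep.1.T / 2 - nFix c.rep.1.aa σ := by
    omega
  have e6 : 2 * (nFix c.rep.1.aa σ - 1) / 2 = nFix c.rep.1.aa σ - 1 := by omega
  rw [e4, e5, e6, Nat.zero_div, pow_zero, one_pow]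
  ring

/-- `TwI.piTwo`: exactly one of `nFix M.s e = 1`, `nFix (faces) = 1`, `nFix M.aa e = 2` holds, the others are 0, 0, 1; split the sum -/
theorem RigPi_lin (S Eb : ℝ≥0∞) : ∃ A0 Av Ae : ℝ≥0∞, ∀ kv x, RigPi S Eb kv 1 x =
    A0 + kv * Av + x * Ae := by
  refine ⟨∑' c : GC, ∑ e : Perm c.rep.1.T, if Rigid c.rep.1 ∧ TwI false true c.rep.1 c.rep.1 e ∧
      nFix c.rep.1.s e = 0 ∧ nFix c.rep.1.aa e = 1 then pW S Eb 1 1 1 c.rep.1 e else 0,
    ∑' c : GC, ∑ e : Perm c.rep.1.T, if Rigid c.rep.1 ∧ TwI false true c.rep.1 c.rep.1 e ∧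
      nFix c.rep.1.s e = 1 then pW S Eb 1 1 1 c.rep.1 e else 0,
    ∑' c : GC, ∑ e : Perm c.rep.1.T, if Rigid c.rep.1 ∧ TwI false true c.rep.1 c.rep.1 e ∧
      nFix c.rep.1.aa e = 2 then pW S Eb 1 1 1 c.rep.1 e else 0, fun kv x => ?_⟩
  rw [← ENNReal.tsum_mul_left, ← ENNReal.tsum_mul_left, ← ENNReal.tsum_add, ← ENNReal.tsum_add]
  unfold RigPi
  refine tsum_congr fun c => ?_
  by_cases hR : Rigid c.rep.1
  swap
  · simp [hR]
  rw [if_pos hR, Finset.mul_sum, Finset.mul_sum, ← Finset.sum_add_distrib,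
    ← Finset.sum_add_distrib]
  unfold wPi
  refine Finset.sum_congr rfl fun e _ => ?_
  by_cases h : TwI false true c.rep.1 c.rep.1 e
  swap
  · simp [h]
  rw [if_pos h]
  obtain ⟨h1, h2⟩ := h.piTwo c.rep.2
  have h3 : (nFix c.rep.1.s e = 0 ∧ nFix c.rep.1.aa e = 1) ∨
      (nFix c.rep.1.s e = 1 ∧ nFix c.rep.1.aa e = 1) ∨
      (nFix c.rep.1.s e = 0 ∧ nFix c.rep.1.aa e = 2) := by omega
  unfold pW
  rcases h3 with ⟨a1, a2⟩ | ⟨a1, a2⟩ | ⟨a1, a2⟩
  · simp [hR, h, a1, a2]
  · simp [hR, h, a1, a2]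
    ring
  · simp [hR, h, a1, a2]
    ring

/-- the same with `Rot.trichotomy` -/
theorem Q2_lin (S Eb : ℝ≥0∞) : ∃ Q0 Qv Qe : ℝ≥0∞, ∀ kv x, Qk 2 kv (S ^ 2) x (Eb ^ 2) =
    Q0 + kv * Qv + x * Qe := by
  let P : ∀ c : GC, Perm c.rep.1.T → Prop := fun c σ => Rigid c.rep.1 ∧ 2 ∣ c.rep.1.dg ∧
    SymM c.rep.1 true σ ((c.rep.1.s ^ (c.rep.1.dg / 2)) (Sum.inr true))
  let w : ∀ c : GC, Perm c.rep.1.T → ℝ≥0∞ := fun c σ =>
    S ^ (nV c.rep.1.s - nFix c.rep.1.s σ) *
      Eb ^ (Fintype.card c.rep.1.T / 2 - nFix c.rep.1.aa σ) * ((2 : ℕ) : ℝ≥0∞) /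
        (c.rep.1.dg : ℝ≥0∞)
  refine ⟨∑' c : GC, ∑ σ : Perm c.rep.1.T, if P c σ ∧ nFix c.rep.1.s σ = 1 ∧
      nFix c.rep.1.aa σ = 0 then w c σ else 0,
    ∑' c : GC, ∑ σ : Perm c.rep.1.T, if P c σ ∧ nFix c.rep.1.s σ = 2 then w c σ else 0,
    ∑' c : GC, ∑ σ : Perm c.rep.1.T, if P c σ ∧ nFix c.rep.1.aa σ = 1 then w c σ else 0,
    fun kv x => ?_⟩
  rw [← ENNReal.tsum_mul_left, ← ENNReal.tsum_mul_left, ← ENNReal.tsum_add, ← ENNReal.tsum_add]
  unfold Qk
  refine tsum_congr fun c => ?_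
  rw [Finset.mul_sum, Finset.mul_sum, ← Finset.sum_add_distrib, ← Finset.sum_add_distrib]
  refine Finset.sum_congr rfl fun σ _ => ?_
  have hM := c.rep.2
  by_cases h : P c σ
  swap
  · rw [if_neg h, if_neg (fun h' => h h'.1), if_neg (fun h' => h h'.1), if_neg (fun h' => h h'.1)]
    simp
  rw [if_pos h]
  have hr : Rot c.rep.1.aa c.rep.1.s σ 2 (Sum.inr true) :=
    Rot.of_normal hM h.2.2.a (QSer_SymM h.2.2) le_rfl h.2.1 h.2.2.root
  rw [QSer_rotW hM hr]
  rcases hr.trichotomy hM with ⟨-, -, -, a1, a2, a3⟩ | ⟨-, -, -, a1, a2, a3⟩ |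
    ⟨-, -, -, a1, a2, a3⟩
  · rw [if_neg (by omega), if_pos ⟨h, a1⟩, if_neg (by omega)]
    simp only [w, a1, a3]
    simp [mul_div_assoc, mul_assoc]
  · rw [if_pos ⟨h, a1, a3⟩, if_neg (by omega), if_neg (by omega)]
    simp only [w, a1, a3]
    simp [mul_div_assoc, mul_assoc]
  · rw [if_neg (by omega), if_neg (by omega), if_pos ⟨h, a3⟩]
    simp only [w, a1, a3]
    simp only [ENNReal.div_eq_inv_mul]
    simp
    ring

end

end PGr

end
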