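import Pool.Agent.PGc.NumD
import Pool.Agent.PGc.RgDer
import Pool.Agent.PGm.M04
import Pool.Agent.PGm.M18
import Pool.Agent.PGm.M21
import Pool.Agent.PGr.Digon
import Pool.Agent.PGr.KSum
import Pool.Agent.PGr.NetSumA

section
/-! # Module DpPar: derivative inequality for parallel networks -/

set_option linter.unusedSectionVars false

namespace PGr
open Equiv Finset
open scoped ENNReal Classical
variable {x : ℝ≥0∞}

/-- weights of the `XNet`s of size at most `n` -/
noncomputable def fS (x : ℝ≥0∞) (n : ℕ) (c : NC RC) : ℝ≥0∞ :=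
  if XNet c.rep.1 ∧ sg c.rep.1 ≤ n then x ^ sg c.rep.1 else 0

/-- an `XNet` has an internal vertex -/
theorem fS_le (hx : x ≤ 1) (n : ℕ) (c : NC RC) : fS x n c ≤ x := by
  unfold fS
  split_ifs with h
  · obtain ⟨y⟩ := h.1.exists_int
    have h1 : 1 ≤ (c.rep.1.lab y.1).rep.1.size := by
      unfold RG.size
      exact Fintype.card_pos_iff.2 ⟨(c.rep.1.lab y.1).rep.1.v0⟩
    have h2 : 1 ≤ sg c.rep.1 := by
      unfold sg
      exact h1.trans (Finset.single_le_sum (f := fun y : c.rep.1.Int => (c.rep.1.lab y.1).rep.1.size)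
        (fun _ _ => Nat.zero_le _) (mem_univ y))
    calc x ^ sg c.rep.1 ≤ x ^ 1 := pow_le_pow_right_of_le_one' hx h2
      _ = x := pow_one x
  · exact zero_le

private theorem DpPar_pow_inj {a b : ℕ} (h : (2 : ℝ≥0∞) ^ a = 2 ^ b) : a = b := by
  have h1 : ((2 ^ a : ℕ) : ℝ≥0∞) = ((2 ^ b : ℕ) : ℝ≥0∞) := by push_cast; exact h
  have h2 : (2 : ℕ) ^ a = 2 ^ b := by exact_mod_cast h1
  exact Nat.pow_right_injective (le_refl 2) h2

theorem sg_bond {J : Type} [Fintype J] [DecidableEq J] (b : Bool) (X : J → LNet RC) (g : Bool → RC) :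
    sg (bond b X g) = ∑ j, sg (X j) := by
  have h := wt_bond (wx 2) b X g
  simp only [wt_wx] at h
  rw [Finset.prod_pow_eq_pow_sum] at h
  exact DpPar_pow_inj h

private theorem DpPar_xnet {N N' : LNet RC} (h : NIso N N') (hN : XNet N) : XNet N' :=
  ⟨h.good hN.good, h.conn hN.conn, fun hd => hN.dir (h.symm.direct hd)⟩

/-- the class of a network -/
private def DpPar_cls (N : LNet RC) (h : N.IsGood) : NC RC := Quotient.mk (nSetoid RC) ⟨N, h⟩

private theorem DpPar_rep (N : LNet RC) (h : N.IsGood) :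
    NIso N (DpPar_cls N h).rep.1 := by
  have := Quotient.mk_out (s := nSetoid RC) (⟨N, h⟩ : GN RC)
  exact NIso.symm this

private theorem DpPar_fS (n : ℕ) (N : LNet RC) (h : XNet N) (hn : sg N ≤ n) :
    fS x n (DpPar_cls N h.good) = x ^ sg N := by
  have h1 := DpPar_rep N h.good
  unfold fS
  rw [if_pos ⟨DpPar_xnet h1 h, by rw [← h1.sg_eq]; exact hn⟩, ← h1.sg_eq]

/-- the decomposition map with its properties -/
private theorem DpPar_dec (x : ℝ≥0∞) (n : ℕ) :
    ∃ φ : NC RC → Bool × Multiset (NC RC),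
      (∀ c c', φ c = φ c' → c = c') ∧
      (∀ c, (φ c).1 = decide (Direct c.rep.1)) ∧
      (∀ c, ((φ c).2.map fun c => sg c.rep.1).sum = sg c.rep.1) ∧
      (∀ c, sg c.rep.1 ≤ n → x ^ sg c.rep.1 = ((φ c).2.map (fS x n)).prod) := by
  have H : ∀ c : NC RC, ∃ (J : Type) (_ : Fintype J) (_ : DecidableEq J)
    (X : J → LNet RC) (g : Bool → RC), (∀ j, XNet (X j)) ∧
      (∀ j, Fintype.card (X j).D ≤ Fintype.card c.rep.1.D) ∧
      NIso c.rep.1 (bond (decide (Direct c.rep.1)) X g) := fun c => par_dec c.rep.2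
  choose J fJ dJ X g hX hcard hiso using H
  have hsg : ∀ c, sg c.rep.1 = ∑ j, sg (X c j) := fun c => by
    rw [(hiso c).sg_eq, sg_bond]
  refine ⟨fun c => (decide (Direct c.rep.1),
    Multiset.map (fun j => DpPar_cls (X c j) (hX c j).good) (@univ (J c) (fJ c)).val),
    ?_, fun c => rfl, ?_, ?_⟩
  · intro c c' hcc
    simp only [Prod.mk.injEq] at hcc
    obtain ⟨h1, h2⟩ := hcc
    obtain ⟨π, hπ⟩ := exists_equiv_of_map_eq (J := J c) (J' := J c') _ _ h2
    have h3 : ∀ j, NIso (X c j) (X c' (π j)) := fun j => by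
      have := hπ j
      exact NIso.symm (Quotient.exact this)
    have h4 : NIso (bond (decide (Direct c.rep.1)) (X c) (g c))
        (bond (decide (Direct c'.rep.1)) (X c') (g c')) := by
      rw [← h1]
      exact bond_iso _ (X c) (X c') (g c) (g c') π h3
    have h5 : NIso c.rep.1 c'.rep.1 := ((hiso c).trans h4).trans (hiso c').symm
    rw [← Quotient.out_eq c, ← Quotient.out_eq c']
    exact Quotient.sound h5
  · intro c
    rw [hsg c]
    simp only [Multiset.map_map, Function.comp_def]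
    rw [Finset.sum]
    congr 1
    refine Multiset.map_congr rfl fun j _ => ?_
    exact (DpPar_rep (X c j) (hX c j).good).sg_eq.symm
  · intro c hn
    have hj : ∀ j, sg (X c j) ≤ n := fun j => by
      refine le_trans ?_ hn
      rw [hsg c]
      exact Finset.single_le_sum (f := fun j => sg (X c j)) (fun _ _ => Nat.zero_le _) (mem_univ j)
    rw [hsg c, ← Finset.prod_pow_eq_pow_sum]
    simp only [Multiset.map_map, Function.comp_def]
    rw [Finset.prod]
    congr 1
    refine Multiset.map_congr rfl fun j _ => ?_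
    rw [DpPar_fS n (X c j) (hX c j) (hj j)]

private theorem DpPar_sum (n : ℕ) :
    ∑' c : NC RC, (sg c.rep.1 : ℝ≥0∞) * fS x n c = Dp x n XNet := by
  unfold Dp fS
  refine tsum_congr fun c => ?_
  rw [mul_ite, mul_zero]

/-- as `dn_le` with `MS_pointed` (`par_dec`: the number of direct edges and the multiset of the classes) -/
theorem Dp_all_le (hx : x < 1) (n : ℕ) :
    Dp x n (fun _ => True) ≤ 2 * (MS (fS x n) * ((1 - x)⁻¹ * Dp x n XNet)) := by
  obtain ⟨φ, h1, h2, h3, h4⟩ := DpPar_dec x n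
  have hp := MS_pointed (fS x n) (fun c : NC RC => sg c.rep.1) hx (fun c => fS_le hx.le n c)
  rw [DpPar_sum] at hp
  refine le_trans ?_ (mul_le_mul_right hp 2)
  have e : 2 * ∑' m : Multiset (NC RC), ((m.map fun c => sg c.rep.1).sum : ℝ≥0∞) * (m.map (fS x n)).prod =
      ∑' p : Bool × Multiset (NC RC),
        ((p.2.map fun c => sg c.rep.1).sum : ℝ≥0∞) * (p.2.map (fS x n)).prod := by
    rw [ENNReal.tsum_prod (f := fun (_ : Bool) (m : Multiset (NC RC)) =>
      ((m.map fun c => sg c.rep.1).sum : ℝ≥0∞) * (m.map (fS x n)).prod), tsum_bool, two_mul]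
  rw [e]
  unfold Dp
  refine tsum_le_tsum_of_inj φ (fun c c' h => h1 c c' h) fun c => ?_
  split_ifs with hc
  · rw [h3 c, ← h4 c hc.2]
  · exact zero_le

theorem Dp_nd_le (hx : x < 1) (n : ℕ) :
    Dp x n (fun N => ¬ Direct N) ≤ MS (fS x n) * ((1 - x)⁻¹ * Dp x n XNet) := by
  obtain ⟨φ, h1, h2, h3, h4⟩ := DpPar_dec x n
  have hp := MS_pointed (fS x n) (fun c : NC RC => sg c.rep.1) hx (fun c => fS_le hx.le n c)
  rw [DpPar_sum] at hp
  refine le_trans ?_ hp
  unfold Dp
  refine tsum_le_tsum_of_injOn (fun c => (φ c).2) (fun c c' hc hc' h => ?_) fun c hc => ?_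
  · have hd : ¬ Direct c.rep.1 := by
      by_contra hd; exact hc (if_neg fun h => h.1 hd)
    have hd' : ¬ Direct c'.rep.1 := by
      by_contra hd; exact hc' (if_neg fun h => h.1 hd)
    exact h1 c c' (Prod.ext ((h2 c).trans ((by simp [hd, hd'] :
      decide (Direct c.rep.1) = decide (Direct c'.rep.1)).trans (h2 c').symm)) h)
  · have hP : ¬ Direct c.rep.1 ∧ sg c.rep.1 ≤ n := by
      by_contra hd; exact hc (if_neg hd)
    rw [if_pos hP]
    change _ ≤ ((((φ c).2.map fun c => sg c.rep.1).sum : ℕ) : ℝ≥0∞) * ((φ c).2.map (fS x n)).prod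
    rw [h3 c, ← h4 c hP.2]

/-- the single edge is a good network -/
private theorem DpPar_edge_good (g : Bool → RC) : (edgeNet g).IsGood := by
  constructor
  · intro d; exact Bool.not_not d
  · intro d
    change (!d) ≠ d
    cases d <;> simp
  · exact ⟨true⟩
  · intro b; exact ⟨Sum.inr b, rfl⟩
  · rintro (b | b)
    · change (!b) ≠ b
      cases b <;> simp
    · change (!b) ≠ b
      cases b <;> simp
  · intro d d' h _; exact h
  · intro A hA hne hu
    have hinl : (Sum.inl true : Bool ⊕ Bool) ∈ A ↔ (Sum.inl false : Bool ⊕ Bool) ∈ A := by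
      have := hA (Sum.inl false : Bool ⊕ Bool)
      exact this
    have hinr : (Sum.inr true : Bool ⊕ Bool) ∈ A ↔ (Sum.inr false : Bool ⊕ Bool) ∈ A := by
      have := hA (Sum.inr false : Bool ⊕ Bool)
      exact this
    have hcase : ((∀ b, (Sum.inl b : Bool ⊕ Bool) ∈ A) ∧ ∀ b, (Sum.inr b : Bool ⊕ Bool) ∉ A) ∨
        ((∀ b, (Sum.inr b : Bool ⊕ Bool) ∈ A) ∧ ∀ b, (Sum.inl b : Bool ⊕ Bool) ∉ A) := by
      by_cases h1 : (Sum.inl true : Bool ⊕ Bool) ∈ A
      · by_cases h2 : (Sum.inr true : Bool ⊕ Bool) ∈ A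
        · exfalso
          apply hu
          ext t
          simp only [mem_univ, iff_true]
          rcases t with (_ | _) | (_ | _)
          · exact hinl.1 h1
          · exact h1
          · exact hinr.1 h2
          · exact h2
        · left
          refine ⟨fun b => ?_, fun b => ?_⟩
          · cases b
            · exact hinl.1 h1
            · exact h1
          · cases b
            · exact fun h => h2 (hinr.2 h)
            · exact h2
      · by_cases h2 : (Sum.inr true : Bool ⊕ Bool) ∈ A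
        · right
          refine ⟨fun b => ?_, fun b => ?_⟩
          · cases b
            · exact hinr.1 h2
            · exact h2
          · cases b
            · exact fun h => h1 (hinl.2 h)
            · exact h1
        · exfalso
          obtain ⟨t, ht⟩ := hne
          rcases t with (_ | _) | (_ | _)
          · exact h1 (hinl.2 ht)
          · exact h1 ht
          · exact h2 (hinr.2 ht)
          · exact h2 ht
    refine ⟨(true : Bool), (false : Bool), Bool.true_eq_false_eq_False |> fun h => by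
      intro h2
      exact (by decide : (true : Bool) ≠ false) h2, ?_, ?_⟩
    · rcases hcase with ⟨h1, h2⟩ | ⟨h1, h2⟩
      · exact ⟨⟨Sum.inl true, h1 true, rfl⟩, Sum.inr true, h2 true, rfl⟩
      · exact ⟨⟨Sum.inr true, h1 true, rfl⟩, Sum.inl true, h2 true, rfl⟩
    · rcases hcase with ⟨h1, h2⟩ | ⟨h1, h2⟩
      · exact ⟨⟨Sum.inl false, h1 false, rfl⟩, Sum.inr false, h2 false, rfl⟩
      · exact ⟨⟨Sum.inr false, h1 false, rfl⟩, Sum.inl false, h2 false, rfl⟩
  · refine ⟨(Equiv.sumComm Bool Bool : Perm (Bool ⊕ Bool)), ?_, digon_good.pl⟩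
    have hzpow : ∀ (i : ℤ) (t : Bool ⊕ Bool), Sum.elim id id
        (((Equiv.sumComm Bool Bool : Perm (Bool ⊕ Bool)) ^ i) t) = (Sum.elim id id t : Bool) := by
      have hstep : ∀ t : Bool ⊕ Bool, (Sum.elim id id ((Equiv.sumComm Bool Bool : Perm (Bool ⊕ Bool)) t) : Bool) =
          Sum.elim id id t := by
        rintro (b | b) <;> rfl
      intro i t
      induction i using Int.induction_on with
      | zero => rfl
      | succ k ih =>
        rw [add_comm, zpow_add, zpow_one, Perm.mul_apply, hstep, ih]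
      | pred k ih =>
        rw [sub_eq_add_neg, add_comm, zpow_add, zpow_neg, zpow_one, Perm.mul_apply, ← ih]
        have h5 := hstep ((Equiv.sumComm Bool Bool : Perm (Bool ⊕ Bool))⁻¹
          (((Equiv.sumComm Bool Bool : Perm (Bool ⊕ Bool)) ^ (-(k : ℤ))) t))
        have h6 : ∀ y : Bool ⊕ Bool, (Equiv.sumComm Bool Bool : Perm (Bool ⊕ Bool))
            ((Equiv.sumComm Bool Bool : Perm (Bool ⊕ Bool))⁻¹ y) = y := fun y =>
          (Equiv.sumComm Bool Bool : Perm (Bool ⊕ Bool)).apply_symm_apply y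
        rw [h6] at h5
        exact h5.symm
    intro t t'
    constructor
    · rintro ⟨i, rfl⟩
      exact (hzpow i t).symm
    · intro h
      rcases t with b | b <;> rcases t' with b' | b'
      · have : b = b' := h
        subst this
        exact Perm.SameCycle.refl _ _
      · have : b = b' := h
        rw [this]
        exact ⟨1, rfl⟩
      · have : b = b' := h
        rw [this]
        exact ⟨1, rfl⟩
      · have : b = b' := h
        subst this
        exact Perm.SameCycle.refl _ _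

/-- the one-vertex graph -/
private def DpPar_pt : RG where
  D := Empty
  V := Unit
  a := Equiv.refl _
  inc := fun e => nomatch e
  v0 := ()

private theorem DpPar_pt_good : DpPar_pt.IsGood := by
  constructor
  · intro d; exact nomatch d
  · intro d; exact nomatch d
  · intro d; exact nomatch d
  · intro d; exact nomatch d
  · intro X hX hu
    exfalso
    apply hu
    ext y
    simp only [mem_univ, iff_true]
    exact hX
  · refine ⟨1, fun t => ?_, fun p q _ => ⟨fun _ => 0, fun t => ?_, fun t => ?_⟩⟩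
    · exact Empty.elim t
    · exact Empty.elim t
    · exact Empty.elim t

/-- the edge and the `XNet`s are networks -/
theorem one_add_fS_le (n : ℕ) : 1 + ∑' c, fS x n c ≤ Dt x n (fun _ => True) := by
  · let r : RC := Quotient.mk rSetoid ⟨DpPar_pt, DpPar_pt_good⟩
    let g : Bool → RC := fun _ => r
    have hg := DpPar_edge_good g
    set c0 : NC RC := DpPar_cls (edgeNet g) hg with hc0
    have hi : NIso (edgeNet g) c0.rep.1 := DpPar_rep (edgeNet g) hg
    have hs : sg c0.rep.1 = 0 := by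
      rw [← hi.sg_eq]
      have : IsEmpty (edgeNet g).Int := ⟨fun x => x.2 x.1 rfl⟩
      unfold sg
      exact Fintype.sum_empty _
    have hd : Direct c0.rep.1 := hi.direct ⟨true, rfl, rfl⟩
    have hDt : Dt x n (fun _ => True) =
        ∑' c : NC RC, if sg c.rep.1 ≤ n then x ^ sg c.rep.1 else 0 := by
      unfold Dt
      simp only [true_and]
    rw [hDt, ENNReal.tsum_eq_add_tsum_ite (f := fun c : NC RC => if sg c.rep.1 ≤ n then x ^ sg c.rep.1 else 0) c0]
    rw [if_pos (by omega : sg c0.rep.1 ≤ n), hs, pow_zero]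
    refine add_le_add le_rfl (ENNReal.tsum_le_tsum fun c => ?_)
    by_cases hc : c = c0
    · rw [if_pos hc, hc]
      unfold fS
      rw [if_neg fun h => h.1.dir hd]
    · rw [if_neg hc]
      unfold fS
      by_cases h : XNet c.rep.1 ∧ sg c.rep.1 ≤ n
      · rw [if_pos h, if_pos h.2]
      · rw [if_neg h]
        exact zero_le

end PGr

end

section
/-! # Module KpLe: derivative inequalities for rooted graphs and pieces -/

set_option linter.unusedSectionVars false

namespace PGr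
open Equiv Finset
open scoped ENNReal Classical
variable {x : ℝ≥0∞}

namespace KpLe
open KSum

theorem wP_le' (hx : x ≤ 1) (n : ℕ) (c : RC) : wP x n c ≤ x := by
  unfold wP
  split_ifs with h
  · have := Piece.two_le_size c.rep.2 h.1
    calc x ^ (c.rep.1.size - 1) ≤ x ^ 1 := pow_le_pow_right_of_le_one' hx (by omega)
      _ = x := pow_one _
  · exact zero_le

/-- the term of a pair -/
noncomputable def gp (x : ℝ≥0∞) (n : ℕ) (p : RC × Option (NC RC)) : ℝ≥0∞ :=
  (if p.1.rep.1.size ≤ n then (p.1.rep.1.size : ℝ≥0∞) * x ^ p.1.rep.1.size else 0) *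
    (match p.2 with
    | none => 1
    | some d => if ¬ Direct d.rep.1 ∧ sg d.rep.1 ≤ n then x ^ sg d.rep.1 else 0) +
  wK x n p.1 * (match p.2 with
    | none => 0
    | some d => if ¬ Direct d.rep.1 ∧ sg d.rep.1 ≤ n then
        (sg d.rep.1 : ℝ≥0∞) * x ^ sg d.rep.1 else 0)

theorem pdec_term (x : ℝ≥0∞) (n : ℕ) {c : RC} {N : LNet RC} (h : PDec c N)
    (hn : c.rep.1.size ≤ n) :
    ((c.rep.1.size - 1 : ℕ) : ℝ≥0∞) * x ^ (c.rep.1.size - 1) ≤
      gp x n (N.lab (N.pole false), ncls N) := by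
  set l : RC := N.lab (N.pole false) with hl
  have hs : c.rep.1.size = 1 + l.rep.1.size + sg N := by
    rw [h.iso.size_eq, expand_size_sg h.pole]
  have hs1 : c.rep.1.size - 1 = l.rep.1.size + sg N := by omega
  have hln : l.rep.1.size ≤ n := by omega
  have hsn : sg N ≤ n := by omega
  rw [hs1, gp]
  simp only [if_pos hln, wK]
  unfold ncls
  by_cases ha : N.IsGood ∧ ¬ Direct N
  · rw [dif_pos ha]
    set d : NC RC := Quotient.mk (nSetoid RC) ⟨N, ha.1⟩ with hd
    have hiso : NIso d.rep.1 N := Quotient.exact (Quotient.out_eq d)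
    have hsg : sg d.rep.1 = sg N := hiso.sg_eq
    have hc : ¬ Direct d.rep.1 ∧ sg d.rep.1 ≤ n := by
      refine ⟨fun hdir => ha.2 (hiso.direct hdir), ?_⟩
      rw [hsg]
      exact hsn
    have e1 : (if ¬ Direct d.rep.1 ∧ sg d.rep.1 ≤ n then x ^ sg d.rep.1 else 0) = x ^ sg N := by
      rw [if_pos hc, hsg]
    have e2 : (if ¬ Direct d.rep.1 ∧ sg d.rep.1 ≤ n then
        (sg d.rep.1 : ℝ≥0∞) * x ^ sg d.rep.1 else 0) = (sg N : ℝ≥0∞) * x ^ sg N := by
      rw [if_pos hc, hsg]
    show _ ≤ (l.rep.1.size : ℝ≥0∞) * x ^ l.rep.1.size *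
        (if ¬ Direct d.rep.1 ∧ sg d.rep.1 ≤ n then x ^ sg d.rep.1 else 0) +
      x ^ l.rep.1.size * (if ¬ Direct d.rep.1 ∧ sg d.rep.1 ≤ n then
        (sg d.rep.1 : ℝ≥0∞) * x ^ sg d.rep.1 else 0)
    rw [e1, e2]
    apply le_of_eq
    push_cast
    rw [pow_add]
    ring
  · rw [dif_neg ha]
    have e1 := h.cases.resolve_left ha
    have hsg : sg N = 0 := by
      rw [e1.sg_eq, sg_emptyNet]
    simp only [hsg, add_zero, mul_one, mul_zero]
    exact le_refl _

end KpLe

open KSum KpLe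

/-- as `Kn_le` (`wedge_dec`, `wedge_size`), with `MS_pointed`, `f = wP x n ≤ x`, `k` = size - 1 -/
theorem Kp_le (hx : x < 1) (n : ℕ) :
    Kp x n ≤ x * (MS (wP x n) * (1 + (1 - x)⁻¹ * Pp x n)) := by
  have hpt := MS_pointed (wP x n) (fun c : RC => c.rep.1.size - 1) hx (wP_le' hx.le n)
  have hPp : ∑' c : RC, ((c.rep.1.size - 1 : ℕ) : ℝ≥0∞) * wP x n c = Pp x n := by
    unfold Pp wP
    refine tsum_congr fun c => ?_
    split_ifs
    · rfl
    · rw [mul_zero]
  rw [hPp] at hpt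
  have hmain : Kp x n ≤ x * ∑' m : Multiset RC,
      (1 + ((m.map (fun c : RC => c.rep.1.size - 1)).sum : ℝ≥0∞)) * (m.map (wP x n)).prod := by
    choose J fJ dJ X hX hiso using fun c : RC => wedge_dec c.rep.2
    rw [← ENNReal.tsum_mul_left]
    refine tsum_le_tsum_of_inj
      (fun c => Multiset.map (fun j => cls (X c j) (hX c j).1) (@univ (J c) (fJ c)).val) ?_ ?_
    · intro c c' h
      obtain ⟨π, hπ⟩ := exists_equiv_of_map_eq _ _ h
      have h1 := @wedge_iso (J c) (J c') (fJ c) (dJ c) (fJ c') (dJ c') (X c) (X c') π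
        (fun j => iso_of_cls (hπ j).symm)
      exact eq_of_rep ((hiso c).trans (h1.trans (hiso c').symm))
    · intro c
      split_ifs with hc
      · rw [Multiset.map_map, Multiset.map_map]
        have h1 : ∀ j, (wP x n ∘ fun j => cls (X c j) (hX c j).1) j = x ^ ((X c j).size - 1) := by
          intro j
          have hi := cls_iso (X c j) (hX c j).1
          have hs := hi.size_eq
          show wP x n (cls (X c j) (hX c j).1) = _
          unfold wP
          rw [if_pos, hs]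
          refine ⟨hi.symm.piece (hX c j).2.1, ?_⟩
          rw [hs]
          exact (hX c j).2.2.trans hc
        have h2 : (Multiset.map (wP x n ∘ fun j => cls (X c j) (hX c j).1)
            (@univ (J c) (fJ c)).val).prod = ∏ j : J c, x ^ ((X c j).size - 1) := by
          show ∏ j : J c, (wP x n ∘ fun j => cls (X c j) (hX c j).1) j = _
          exact Finset.prod_congr rfl fun j _ => h1 j
        have h4 : (Multiset.map ((fun c : RC => c.rep.1.size - 1) ∘
            fun j => cls (X c j) (hX c j).1) (@univ (J c) (fJ c)).val).sum =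
            ∑ j : J c, ((X c j).size - 1) := by
          show ∑ j : J c, ((fun c : RC => c.rep.1.size - 1) ∘
            fun j => cls (X c j) (hX c j).1) j = _
          refine Finset.sum_congr rfl fun j _ => ?_
          have hi := cls_iso (X c j) (hX c j).1
          show (cls (X c j) (hX c j).1).rep.1.size - 1 = _
          rw [hi.size_eq]
        rw [h2, h4, Finset.prod_pow_eq_pow_sum]
        have h3 : c.rep.1.size = 1 + ∑ j : J c, ((X c j).size - 1) := by
          rw [(hiso c).size_eq]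
          exact wedge_size (X c)
        rw [h3, pow_add, pow_one]
        push_cast
        apply le_of_eq
        ring
      · exact zero_le
  refine hmain.trans ?_
  refine mul_le_mul_right ?_ x
  have h5 : ∑' m : Multiset RC,
      (1 + ((m.map (fun c : RC => c.rep.1.size - 1)).sum : ℝ≥0∞)) * (m.map (wP x n)).prod =
      MS (wP x n) + ∑' m : Multiset RC,
      ((m.map (fun c : RC => c.rep.1.size - 1)).sum : ℝ≥0∞) * (m.map (wP x n)).prod := by
    unfold MS
    rw [← ENNReal.tsum_add]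
    exact tsum_congr fun m => by ring
  rw [h5, mul_add, mul_one]
  exact add_le_add le_rfl hpt

/-- as `Pn_le` (`piece_dec`): a piece has size `1 + |l| + sg N` -/
theorem Pp_le (n : ℕ) :
    Pp x n ≤ Kp x n * (1 + Dt x n (fun N => ¬ Direct N)) +
      Kn x n * Dp x n (fun N => ¬ Direct N) := by
  have hex : ∀ c : RC, ∃ N : LNet RC, Piece c.rep.1 → PDec c N := by
    intro c
    by_cases h : Piece c.rep.1
    · obtain ⟨N, hN⟩ := exists_pdec c h
      exact ⟨N, fun _ => hN⟩
    · exact ⟨emptyNet c, fun h' => absurd h' h⟩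
  choose N hN using hex
  have hR : Kp x n * (1 + Dt x n (fun N => ¬ Direct N)) +
      Kn x n * Dp x n (fun N => ¬ Direct N) = ∑' p, gp x n p := by
    have h1 : 1 + Dt x n (fun N => ¬ Direct N) = ∑' o : Option (NC RC), (match o with
        | none => (1 : ℝ≥0∞)
        | some d => if ¬ Direct d.rep.1 ∧ sg d.rep.1 ≤ n then x ^ sg d.rep.1 else 0) := by
      rw [tsum_opt]
      unfold Dt
      refine congrArg (fun z => (1 : ℝ≥0∞) + z) (tsum_congr fun d => ?_)
      by_cases h : Direct d.rep.1 <;> simp [h]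
    have h2 : Dp x n (fun N => ¬ Direct N) = ∑' o : Option (NC RC), (match o with
        | none => (0 : ℝ≥0∞)
        | some d => if ¬ Direct d.rep.1 ∧ sg d.rep.1 ≤ n then
            (sg d.rep.1 : ℝ≥0∞) * x ^ sg d.rep.1 else 0) := by
      rw [tsum_opt, zero_add]
      unfold Dp
      refine tsum_congr fun d => ?_
      by_cases h : Direct d.rep.1 <;> simp [h]
    unfold gp
    rw [ENNReal.tsum_add]
    congr 1
    · rw [h1, Kp, tsum_prod_mul]
    · rw [h2, Kn, tsum_prod_mul]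
  rw [hR]
  refine tsum_le_tsum_of_injOn
    (fun c => ((N c).lab ((N c).pole false), ncls (N c))) ?_ ?_
  · intro c c' h h' he
    have hc : Piece c.rep.1 := by
      by_contra hc
      exact h (by rw [if_neg (fun h2 => hc h2.1)])
    have hc' : Piece c'.rep.1 := by
      by_contra hc
      exact h' (by rw [if_neg (fun h2 => hc h2.1)])
    exact pdec_inj (hN c hc) (hN c' hc') (congrArg Prod.fst he) (congrArg Prod.snd he)
  · intro c hc
    split_ifs with h
    · exact pdec_term x n (hN c h.1) h.2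
    · exact zero_le

/-- pieces and the one-vertex graph are rooted graphs -/
theorem Pn_le_Kn {n : ℕ} (hn : 0 < n) : x * (1 + Pn x n) ≤ Kn x n := by
  obtain ⟨c0, hc0⟩ := exists_rc_one
  unfold Kn
  rw [ENNReal.tsum_eq_add_tsum_ite c0, mul_add, mul_one]
  apply add_le_add
  · unfold wK
    rw [if_pos (by omega), hc0, pow_one]
  · unfold Pn
    rw [← ENNReal.tsum_mul_left]
    refine ENNReal.tsum_le_tsum fun c => ?_
    unfold wP wK
    by_cases h : Piece c.rep.1 ∧ c.rep.1.size ≤ n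
    · have h2 := Piece.two_le_size c.rep.2 h.1
      have h3 : c ≠ c0 := by
        rintro rfl
        omega
      rw [if_pos h, if_neg h3, if_pos h.2, ← pow_succ']
      apply le_of_eq
      congr 1
      omega
    · rw [if_neg h, mul_zero]
      exact zero_le

end PGr

end

section
/-! # Module Trunc: the truncated sums are polynomials -/

set_option linter.unusedSectionVars false

namespace PGr
open Equiv Finset
open scoped ENNReal Classical

namespace TruncA

/-- the class of a good network -/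
def ncl (N : LNet RC) (h : N.IsGood) : NC RC := Quotient.mk (nSetoid RC) ⟨N, h⟩

theorem ncl_iso (N : LNet RC) (h : N.IsGood) : NIso (ncl N h).rep.1 N :=
  Quotient.exact (Quotient.out_eq (ncl N h))

theorem eq_of_rep {c c' : NC RC} (h : NIso c.rep.1 c'.rep.1) : c = c' := by
  have h1 : Quotient.mk (nSetoid RC) c.rep = Quotient.mk (nSetoid RC) c'.rep := Quotient.sound h
  rwa [Quotient.out_eq, Quotient.out_eq] at h1

theorem sg_addE (N : LNet RC) : sg (addE N) = sg N := rfl

theorem int_empty (g : Bool → RC) : IsEmpty (edgeNet g).Int := ⟨fun x => x.2 x.1 rfl⟩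

theorem sg_edgeNet (g : Bool → RC) : sg (edgeNet g) = 0 := by
  have := int_empty g
  unfold sg
  exact Finset.sum_of_isEmpty _

theorem edgeNet_iso (g g' : Bool → RC) : NIso (edgeNet g) (edgeNet g') :=
  ⟨Equiv.refl _, Equiv.refl _, fun _ => rfl, fun _ => rfl, fun _ => rfl,
    fun x hx => absurd rfl (hx x)⟩

/-- labels -/
noncomputable def g0 : Bool → RC := fun _ => exists_rc_one.choose

/-- the direct networks -/
noncomputable def F : Option {c : NC RC // ¬ Direct c.rep.1} → {c : NC RC // Direct c.rep.1}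
  | none => ⟨ncl (edgeNet g0) (edgeNet_good g0).1,
      (ncl_iso _ _).symm.direct (edgeNet_good g0).2⟩
  | some c => ⟨ncl (addE c.1.rep.1) (addE_good c.1.rep.2 c.2).1,
      (ncl_iso _ _).symm.direct (addE_good c.1.rep.2 c.2).2⟩

theorem F_none : (F none).1 = ncl (edgeNet g0) (edgeNet_good g0).1 := rfl

theorem F_some (c : {c : NC RC // ¬ Direct c.rep.1}) :
    (F (some c)).1 = ncl (addE c.1.rep.1) (addE_good c.1.rep.2 c.2).1 := rfl

theorem F_bij : Function.Bijective F := by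
  constructor
  · intro o o' h
    have h1 : (F o).1 = (F o').1 := congrArg Subtype.val h
    rcases o with _ | c
    · rcases o' with _ | c'
      · rfl
      · rw [F_none, F_some] at h1
        exact absurd (Quotient.exact h1) (not_edgeNet_addE c'.1.rep.2 g0)
    · rcases o' with _ | c'
      · rw [F_none, F_some] at h1
        exact absurd (Quotient.exact h1.symm) (not_edgeNet_addE c.1.rep.2 g0)
      · rw [F_some, F_some] at h1
        have h2 : NIso (addE c.1.rep.1) (addE c'.1.rep.1) := Quotient.exact h1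
        rw [addE_iso c.1.rep.2 c'.1.rep.2 c.2 c'.2] at h2
        congr 1
        exact Subtype.ext (eq_of_rep h2)
  · intro d
    rcases direct_dec d.1.rep.2 d.2 with ⟨g, hg⟩ | ⟨N', h1, h2, h3⟩
    · refine ⟨none, Subtype.ext ?_⟩
      rw [F_none]
      apply eq_of_rep
      exact ((ncl_iso _ _).trans (edgeNet_iso g0 g)).trans hg.symm
    · have h4 := ncl_iso N' h1
      have h5 : ¬ Direct (ncl N' h1).rep.1 := fun h => h2 (h4.direct h)
      refine ⟨some ⟨ncl N' h1, h5⟩, Subtype.ext ?_⟩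
      rw [F_some]
      apply eq_of_rep
      refine (ncl_iso _ _).trans (NIso.trans ?_ h3.symm)
      rw [addE_iso (ncl N' h1).rep.2 h1 h5 h2]
      exact h4

theorem sg_F_none : sg (F none).1.rep.1 = 0 := by
  rw [F_none, (ncl_iso _ _).sg_eq, sg_edgeNet]

theorem sg_F_some (c : {c : NC RC // ¬ Direct c.rep.1}) :
    sg (F (some c)).1.rep.1 = sg c.1.rep.1 := by
  rw [F_some, (ncl_iso _ _).sg_eq, sg_addE]

section general
variable {ι : Type*} {k : ι → ℕ} {p : ι → Prop} [DecidablePred p]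

theorem tsum_sub {α : Type*} (P : α → Prop) (f : α → ℝ≥0∞) :
    ∑' a : {a // P a}, f a.1 = ∑' a, if P a then f a else 0 := by
  refine (tsum_subtype {a | P a} f).trans (tsum_congr fun a => ?_)
  by_cases h : P a
  · rw [Set.indicator_of_mem (by simpa using h), if_pos h]
  · rw [Set.indicator_of_notMem (by simpa using h), if_neg h]

theorem tsum_split {α : Type*} (P : α → Prop) (f : α → ℝ≥0∞) :
    ∑' a, f a = (∑' a : {a // P a}, f a.1) + ∑' a : {a // ¬ P a}, f a.1 := by
  rw [tsum_sub, tsum_sub, ← ENNReal.tsum_add]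
  refine tsum_congr fun a => ?_
  by_cases h : P a <;> simp [h]

theorem sum_eq (hfin : {i | p i}.Finite) (f : ι → ℝ≥0∞) :
    (∑' i, if p i then f i else 0) = ∑ i ∈ hfin.toFinset, f i := by
  rw [tsum_eq_sum (s := hfin.toFinset)]
  · refine Finset.sum_congr rfl fun i hi => ?_
    rw [if_pos]
    simpa using hi
  · intro i hi
    rw [if_neg]
    simpa using hi

theorem ne_top (hfin : {i | p i}.Finite) (f : ι → ℝ≥0∞) (hf : ∀ i, f i ≠ ⊤) :
    (∑' i, if p i then f i else 0) ≠ ⊤ := by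
  rw [sum_eq hfin]
  exact ENNReal.sum_ne_top.mpr fun i _ => hf i

theorem hasDeriv (hfin : {i | p i}.Finite) {x : ℝ} (hx : 0 < x) :
    HasDerivAt (fun z : ℝ => (∑' i, if p i then ENNReal.ofReal z ^ k i else 0).toReal)
      ((∑' i, if p i then (k i : ℝ≥0∞) * ENNReal.ofReal x ^ k i else 0).toReal / x) x := by
  have h1 : (fun z : ℝ => (∑' i, if p i then ENNReal.ofReal z ^ k i else 0).toReal) =ᶠ[nhds x]
      fun z : ℝ => ∑ i ∈ hfin.toFinset, z ^ k i := by
    filter_upwards [lt_mem_nhds hx] with z hz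
    rw [sum_eq hfin, ENNReal.toReal_sum (fun i _ => ENNReal.pow_ne_top ENNReal.ofReal_ne_top)]
    refine Finset.sum_congr rfl fun i _ => ?_
    rw [ENNReal.toReal_pow, ENNReal.toReal_ofReal hz.le]
  have h2 : (∑' i, if p i then (k i : ℝ≥0∞) * ENNReal.ofReal x ^ k i else 0).toReal / x =
      ∑ i ∈ hfin.toFinset, (k i : ℝ) * x ^ (k i - 1) := by
    rw [sum_eq hfin, ENNReal.toReal_sum (fun i _ => ENNReal.mul_ne_top
      (ENNReal.natCast_ne_top _) (ENNReal.pow_ne_top ENNReal.ofReal_ne_top)), Finset.sum_div]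
    refine Finset.sum_congr rfl fun i _ => ?_
    rw [ENNReal.toReal_mul, ENNReal.toReal_pow, ENNReal.toReal_ofReal hx.le,
      ENNReal.toReal_natCast]
    rcases Nat.eq_zero_or_pos (k i) with h | h
    · rw [h]; simp
    · obtain ⟨m, hm⟩ : ∃ m, k i = m + 1 := ⟨k i - 1, by omega⟩
      rw [hm, Nat.add_sub_cancel, pow_succ]
      field_simp
  rw [h2]
  refine HasDerivAt.congr_of_eventuallyEq ?_ h1
  have h3 := HasDerivAt.fun_sum (u := hfin.toFinset) (A := fun i (z : ℝ) => z ^ k i)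
    (A' := fun i => (k i : ℝ) * x ^ (k i - 1)) (x := x) (fun i _ => hasDerivAt_pow (k i) x)
  exact h3

end general

theorem rc_fin (n : ℕ) : {c : RC | c.rep.1.size ≤ n}.Finite := by
  have h1 : {c : RC | c.rep.1.size ≤ n} ⊆ ⋃ j ∈ Set.Iic n, {c : RC | c.rep.1.size = j} := by
    intro c hc
    simp only [Set.mem_iUnion]
    exact ⟨_, hc, rfl⟩
  refine Set.Finite.subset (Set.Finite.biUnion (Set.finite_Iic n) fun j _ => ?_) h1
  exact @Set.toFinite _ _ (rc_finite j)

theorem nd_fin (n : ℕ) : {c : NC RC | ¬ Direct c.rep.1 ∧ sg c.rep.1 ≤ n}.Finite := by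
  have h1 : {c : NC RC | ¬ Direct c.rep.1 ∧ sg c.rep.1 ≤ n} ⊆
      ⋃ j ∈ Set.Iic n, {c : NC RC | ¬ Direct c.rep.1 ∧ sg c.rep.1 = j} := by
    intro c hc
    simp only [Set.mem_iUnion]
    exact ⟨_, hc.2, hc.1, rfl⟩
  refine Set.Finite.subset (Set.Finite.biUnion (Set.finite_Iic n) fun j _ => ?_) h1
  exact @Set.toFinite _ _ (nd_finite j)

theorem sg_fin (n : ℕ) : {c : NC RC | sg c.rep.1 ≤ n}.Finite := by
  have h0 := nd_fin n
  have h1 : {o : Option {c : NC RC // ¬ Direct c.rep.1} | ∀ c, o = some c → sg c.1.rep.1 ≤ n}.Finite := by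
    have h2 : {c : {c : NC RC // ¬ Direct c.rep.1} | sg c.1.rep.1 ≤ n}.Finite := by
      apply Set.Finite.of_finite_image (f := Subtype.val) _ Subtype.val_injective.injOn
      apply h0.subset
      rintro _ ⟨c, hc, rfl⟩
      exact ⟨c.2, hc⟩
    refine ((h2.image some).insert none).subset ?_
    intro o ho
    rcases o with _ | c
    · exact Set.mem_insert _ _
    · exact Set.mem_insert_of_mem _ ⟨c, ho c rfl, rfl⟩
  have h3 := h0.union ((h1.image F).image Subtype.val)
  refine h3.subset ?_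
  intro c hc
  by_cases hd : Direct c.rep.1
  · right
    obtain ⟨o, ho⟩ := F_bij.2 ⟨c, hd⟩
    refine ⟨⟨c, hd⟩, ⟨o, ?_, ho⟩, rfl⟩
    intro c' hc'
    subst hc'
    rw [← sg_F_some, ho]
    exact hc
  · left
    exact ⟨hd, hc⟩

theorem Dt_deriv (n : ℕ) (P : LNet RC → Prop) {x : ℝ} (hx : 0 < x) :
    HasDerivAt (fun z : ℝ => (Dt (ENNReal.ofReal z) n P).toReal)
      ((Dp (ENNReal.ofReal x) n P).toReal / x) x := by
  unfold Dt Dp
  exact hasDeriv (k := fun c : NC RC => sg c.rep.1)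
    ((sg_fin n).subset (fun c (hc : P c.rep.1 ∧ sg c.rep.1 ≤ n) => hc.2)) hx

end TruncA

open TruncA

/-- `nd_finite`, `direct_dec` -/
theorem sg_finite (n : ℕ) : Finite {c : NC RC // sg c.rep.1 ≤ n} := (sg_fin n).to_subtype

theorem Kn_ne_top {x : ℝ≥0∞} (hx : x ≠ ⊤) (n : ℕ) : Kn x n ≠ ⊤ := by
  unfold Kn wK
  exact ne_top (rc_fin n) _ fun c => ENNReal.pow_ne_top hx

theorem Kp_ne_top {x : ℝ≥0∞} (hx : x ≠ ⊤) (n : ℕ) : Kp x n ≠ ⊤ := by
  unfold Kp
  exact ne_top (rc_fin n) _ fun c =>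
    ENNReal.mul_ne_top (ENNReal.natCast_ne_top _) (ENNReal.pow_ne_top hx)

theorem Pp_ne_top {x : ℝ≥0∞} (hx : x ≠ ⊤) (n : ℕ) : Pp x n ≠ ⊤ := by
  unfold Pp
  exact ne_top ((rc_fin n).subset (fun c (hc : Piece c.rep.1 ∧ c.rep.1.size ≤ n) => hc.2)) _
    fun c => ENNReal.mul_ne_top (ENNReal.natCast_ne_top _) (ENNReal.pow_ne_top hx)

theorem Pn_ne_top {x : ℝ≥0∞} (hx : x ≠ ⊤) (n : ℕ) : Pn x n ≠ ⊤ := by
  unfold Pn wP
  exact ne_top ((rc_fin n).subset (fun c (hc : Piece c.rep.1 ∧ c.rep.1.size ≤ n) => hc.2)) _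
    fun c => ENNReal.pow_ne_top hx

theorem Dt_ne_top {x : ℝ≥0∞} (hx : x ≠ ⊤) (n : ℕ) (P : LNet RC → Prop) : Dt x n P ≠ ⊤ := by
  unfold Dt
  exact ne_top ((sg_fin n).subset (fun c (hc : P c.rep.1 ∧ sg c.rep.1 ≤ n) => hc.2)) _
    fun c => ENNReal.pow_ne_top hx

theorem Dp_ne_top {x : ℝ≥0∞} (hx : x ≠ ⊤) (n : ℕ) (P : LNet RC → Prop) : Dp x n P ≠ ⊤ := by
  unfold Dp
  exact ne_top ((sg_fin n).subset (fun c (hc : P c.rep.1 ∧ sg c.rep.1 ≤ n) => hc.2)) _
    fun c => ENNReal.mul_ne_top (ENNReal.natCast_ne_top _) (ENNReal.pow_ne_top hx)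

theorem Kn_hasDerivAt (n : ℕ) {x : ℝ} (hx : 0 < x) :
    HasDerivAt (fun z : ℝ => (Kn (ENNReal.ofReal z) n).toReal)
      ((Kp (ENNReal.ofReal x) n).toReal / x) x := by
  unfold Kn wK Kp
  exact hasDeriv (k := fun c : RC => c.rep.1.size) (rc_fin n) hx

theorem Dt_hasDerivAt (n : ℕ) {x : ℝ} (hx : 0 < x) :
    HasDerivAt (fun z : ℝ => (Dt (ENNReal.ofReal z) n (fun _ => True)).toReal)
      ((Dp (ENNReal.ofReal x) n (fun _ => True)).toReal / x) x := by
  exact Dt_deriv n (fun _ => True) hx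

theorem Dp_X (x : ℝ≥0∞) (n : ℕ) : Dp x n XNet =
    Dp x n (fun N => XNet N ∧ SerN N) + Dp x n (fun N => XNet N ∧ ¬ SerN N) := by
  unfold Dp
  rw [← ENNReal.tsum_add]
  refine tsum_congr fun c => ?_
  by_cases h1 : XNet c.rep.1 <;> by_cases h2 : SerN c.rep.1 <;>
    by_cases h3 : sg c.rep.1 ≤ n <;> simp [h1, h2, h3]

/-- as `Nsel_all` (`direct_dec`, `addE_iso`; `sg (addE N) = sg N`) -/
theorem Dt_all (x : ℝ≥0∞) (n : ℕ) :
    Dt x n (fun _ => True) = 1 + 2 * Dt x n (fun N => ¬ Direct N) := by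
  obtain ⟨f, hf⟩ : ∃ f : NC RC → ℝ≥0∞, ∀ c, f c =
      if sg c.rep.1 ≤ n then x ^ sg c.rep.1 else 0 := ⟨_, fun _ => rfl⟩
  have h1 : Dt x n (fun _ => True) = ∑' c, f c := by
    unfold Dt
    refine tsum_congr fun c => ?_
    rw [hf]
    by_cases h : sg c.rep.1 ≤ n <;> simp [h]
  have h2 : Dt x n (fun N => ¬ Direct N) = ∑' c : {c : NC RC // ¬ Direct c.rep.1}, f c.1 := by
    rw [tsum_sub]
    unfold Dt
    refine tsum_congr fun c => ?_
    rw [hf]
    by_cases h : sg c.rep.1 ≤ n <;> by_cases h5 : Direct c.rep.1 <;> simp [h, h5]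
  have h6 : ∑' c : {c : NC RC // Direct c.rep.1}, f c.1 = 1 + Dt x n (fun N => ¬ Direct N) := by
    have h7 : ∑' o, f (F o).1 = ∑' c : {c : NC RC // Direct c.rep.1}, f c.1 :=
      (Equiv.ofBijective F F_bij).tsum_eq (fun c : {c : NC RC // Direct c.rep.1} => f c.1)
    rw [← h7, KSum.tsum_opt, h2]
    congr 1
    · rw [hf, sg_F_none, if_pos (Nat.zero_le _), pow_zero]
    · refine tsum_congr fun c => ?_
      rw [hf, hf, sg_F_some]
  rw [h1, tsum_split (fun c : NC RC => Direct c.rep.1) f, h6, ← h2]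
  ring

theorem Kn_le_sum (x : ℝ≥0∞) (n : ℕ) : Kn x n ≤ ∑' c : RC, wx x c := by
  unfold Kn wK wx
  refine ENNReal.tsum_le_tsum fun c => ?_
  split_ifs
  · exact le_rfl
  · exact zero_le

theorem sum_le_of_Kn (x B : ℝ≥0∞) (h : ∀ n, Kn x n ≤ B) : ∑' c : RC, wx x c ≤ B := by
  rw [ENNReal.tsum_eq_iSup_sum]
  refine iSup_le fun s => ?_
  refine le_trans ?_ (h (s.sup fun c => c.rep.1.size))
  have h1 : ∑ c ∈ s, wx x c = ∑ c ∈ s, wK x (s.sup fun c => c.rep.1.size) c := by
    refine Finset.sum_congr rfl fun c hc => ?_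
    unfold wx wK
    rw [if_pos (Finset.le_sup (f := fun c : RC => c.rep.1.size) hc)]
  rw [h1]
  exact ENNReal.sum_le_tsum s

theorem Dt_le_sum (x : ℝ≥0∞) (n : ℕ) :
    Dt x n (fun _ => True) ≤ Nsel (wx x) (fun _ => True) := by
  unfold Dt Nsel
  refine ENNReal.tsum_le_tsum fun c => ?_
  rw [if_pos trivial, wt_wx]
  split_ifs
  · exact le_rfl
  · exact zero_le

end PGr

end

section
/-! # Extend: below the critical curve the series converges beyond the point (assembly) -/

set_option linter.unusedSectionVars false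

namespace PGr
open Equiv Finset
open scoped ENNReal Classical

theorem wP_le_gen {x : ℝ≥0∞} (hx : x ≤ 1) (n : ℕ) (c : RC) : wP x n c ≤ x := by
  unfold wP
  split_ifs with h
  · have := Piece.two_le_size c.rep.2 h.1
    calc x ^ (c.rep.1.size - 1) ≤ x ^ 1 := pow_le_pow_right_of_le_one' hx (by omega)
      _ = x := pow_one _
  · exact zero_le

theorem inv_one_sub {x : ℝ} (h0 : 0 ≤ x) (h1 : x < 1) :
    (1 - ENNReal.ofReal x)⁻¹ = ENNReal.ofReal ((1 - x)⁻¹) := by
  rw [← ENNReal.ofReal_one, ← ENNReal.ofReal_sub _ h0, ENNReal.ofReal_inv_of_pos (by linarith)]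

/-- real form of the derivative bounds -/
theorem der_bounds {x S E : ℝ} {n : ℕ} (hn : 0 < n) (hx : 10 / 277 ≤ x) (hx' : x ≤ 481 / 10000)
    {t : ℝ} (h0 : 0 < t) (h1 : t < 1) (hS : scr t = S) (hS' : S ≤ 48 / 1000) (hSx : 10 / 277 ≤ S)
    (hE1 : 1 ≤ E) (hE : E < ecr t) (hE' : E ≤ 113 / 100)
    (hk : (Kn (ENNReal.ofReal x) n).toReal ≤ S)
    (hd : (Dt (ENNReal.ofReal x) n (fun _ => True)).toReal ≤ E) :
    (Kp (ENNReal.ofReal x) n).toReal ≤ 1 / 10 ∧
      (Dp (ENNReal.ofReal x) n (fun _ => True)).toReal ≤ 3 := by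
  have hx0 : 0 < x := by linarith
  have hx1 : x < 1 := by linarith
  set X := ENNReal.ofReal x with hX
  have hXt : X ≠ ⊤ := ENNReal.ofReal_ne_top
  have hXr : X.toReal = x := ENNReal.toReal_ofReal hx0.le
  have hX1 : X < 1 := by
    rw [hX, ← ENNReal.ofReal_one]; exact (ENNReal.ofReal_lt_ofReal_iff one_pos).mpr hx1
  have fK := Kn_ne_top hXt n
  have fKp := Kp_ne_top hXt n
  have fPp := Pp_ne_top hXt n
  have fPn := Pn_ne_top hXt n
  have fDt := fun P => Dt_ne_top hXt n P
  have fDp := fun P => Dp_ne_top hXt n P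
  -- the multisets
  have hKlow := Pn_le_Kn (x := X) hn
  have hKlow' : x * (1 + (Pn X n).toReal) ≤ (Kn X n).toReal := by
    have := ENNReal.toReal_mono fK hKlow
    rwa [ENNReal.toReal_mul, ENNReal.toReal_add ENNReal.one_ne_top fPn, ENNReal.toReal_one, hXr]
      at this
  have hPnn : 0 ≤ (Pn X n).toReal := ENNReal.toReal_nonneg
  have hPn : (Pn X n).toReal ≤ (Kn X n).toReal / x - 1 := by
    rw [le_sub_iff_add_le, le_div_iff₀ hx0]; nlinarith
  have hKx : x ≤ (Kn X n).toReal := by nlinarith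
  have hMP : MS (wP X n) ≤ ENNReal.ofReal (Real.exp (41 / 40 * ((Kn X n).toReal / x - 1))) := by
    refine MS_le _ hx0 hx1 (num_c2 hx0 hx') (by norm_num) (le_trans hPnn hPn)
      (fun c => wP_le_gen hX1.le n c) ?_
    have : (∑' i, wP X n i) = Pn X n := rfl
    rw [this, ← ENNReal.ofReal_toReal fPn]
    exact ENNReal.ofReal_le_ofReal hPn
  have hDlow := one_add_fS_le (x := X) n
  have fX : (∑' c, fS X n c) ≠ ⊤ :=
    ne_top_of_le_ne_top (fDt _) (le_trans le_add_self hDlow)
  have hXn : (∑' c, fS X n c).toReal ≤ (Dt X n (fun _ => True)).toReal - 1 := by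
    have := ENNReal.toReal_mono (fDt _) hDlow
    rw [ENNReal.toReal_add ENNReal.one_ne_top fX, ENNReal.toReal_one] at this
    linarith
  have hXnn : 0 ≤ (∑' c, fS X n c).toReal := ENNReal.toReal_nonneg
  have hMX : MS (fS X n) ≤
      ENNReal.ofReal (Real.exp (41 / 40 * ((Dt X n (fun _ => True)).toReal - 1))) := by
    refine MS_le _ hx0 hx1 (num_c2 hx0 hx') (by norm_num) (le_trans hXnn hXn)
      (fun c => fS_le hX1.le n c) ?_
    rw [← ENNReal.ofReal_toReal fX]
    exact ENNReal.ofReal_le_ofReal hXn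
  have fMP : MS (wP X n) ≠ ⊤ := ne_top_of_le_ne_top ENNReal.ofReal_ne_top hMP
  have fMX : MS (fS X n) ≠ ⊤ := ne_top_of_le_ne_top ENNReal.ofReal_ne_top hMX
  -- the rigid part
  have hKS : Kn X n ≤ ENNReal.ofReal (scr t) := by
    rw [hS, ← ENNReal.ofReal_toReal fK]; exact ENNReal.ofReal_le_ofReal hk
  have hDE : Dt X n (fun _ => True) ≤ ENNReal.ofReal E := by
    rw [← ENNReal.ofReal_toReal (fDt _)]; exact ENNReal.ofReal_le_ofReal hd
  have hRE : RgE (Kn X n) (Dt X n (fun _ => True)) ≤ ENNReal.ofReal (19 / 100) :=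
    (RgE_mono hKS hDE).trans (RgE_le' h0 h1 (by linarith) (by linarith) hE1 hE)
  have hRS : RgS (Kn X n) (Dt X n (fun _ => True)) ≤ ENNReal.ofReal 4 :=
    (RgS_mono hKS hDE).trans (RgS_le' h0 h1 (by linarith) (by linarith) hE1 hE hE')
  have fRE : RgE (Kn X n) (Dt X n (fun _ => True)) ≠ ⊤ :=
    ne_top_of_le_ne_top ENNReal.ofReal_ne_top hRE
  have fRS : RgS (Kn X n) (Dt X n (fun _ => True)) ≠ ⊤ :=
    ne_top_of_le_ne_top ENNReal.ofReal_ne_top hRS
  -- the inequalities
  have hinv := inv_one_sub hx0.le hx1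
  have hinv' : ((1 - X)⁻¹).toReal = (1 - x)⁻¹ := by
    rw [hX, hinv, ENNReal.toReal_ofReal]
    exact inv_nonneg.mpr (by linarith)
  have finv : (1 - X)⁻¹ ≠ ⊤ := by rw [hX, hinv]; exact ENNReal.ofReal_ne_top
  have e1 : (Kp X n).toReal ≤ x * ((MS (wP X n)).toReal * (1 + (1 - x)⁻¹ * (Pp X n).toReal)) := by
    have := ENNReal.toReal_mono (by finiteness) (Kp_le hX1 n)
    rwa [ENNReal.toReal_mul, ENNReal.toReal_mul, ENNReal.toReal_add ENNReal.one_ne_top
      (ENNReal.mul_ne_top finv fPp), ENNReal.toReal_mul, ENNReal.toReal_one, hXr, hinv'] at this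
  have hDall := Dt_all X n
  have hDall' : (Dt X n (fun _ => True)).toReal =
      1 + 2 * (Dt X n (fun N => ¬ Direct N)).toReal := by
    rw [hDall, ENNReal.toReal_add ENNReal.one_ne_top (ENNReal.mul_ne_top (by simp) (fDt _)),
      ENNReal.toReal_mul, ENNReal.toReal_one, ENNReal.toReal_ofNat]
  have e2 : (Pp X n).toReal ≤ (Kp X n).toReal * ((1 + (Dt X n (fun _ => True)).toReal) / 2) +
      (Kn X n).toReal * (Dp X n (fun N => ¬ Direct N)).toReal := by
    have := ENNReal.toReal_mono (ENNReal.add_ne_top.mpr ⟨ENNReal.mul_ne_top fKp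
      (ENNReal.add_ne_top.mpr ⟨ENNReal.one_ne_top, fDt _⟩), ENNReal.mul_ne_top fK (fDp _)⟩)
      (Pp_le (x := X) n)
    rw [ENNReal.toReal_add (ENNReal.mul_ne_top fKp
      (ENNReal.add_ne_top.mpr ⟨ENNReal.one_ne_top, fDt _⟩)) (ENNReal.mul_ne_top fK (fDp _)),
      ENNReal.toReal_mul, ENNReal.toReal_mul, ENNReal.toReal_add ENNReal.one_ne_top (fDt _),
      ENNReal.toReal_one] at this
    rw [hDall']
    refine this.trans (le_of_eq ?_)
    ring
  have e3 : (Dp X n (fun N => ¬ Direct N)).toReal ≤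
      (MS (fS X n)).toReal * ((1 - x)⁻¹ * (Dp X n XNet).toReal) := by
    have := ENNReal.toReal_mono (ENNReal.mul_ne_top fMX (ENNReal.mul_ne_top finv (fDp _)))
      (Dp_nd_le hX1 n)
    rwa [ENNReal.toReal_mul, ENNReal.toReal_mul, hinv'] at this
  have e4 : (Dp X n (fun _ => True)).toReal ≤
      2 * ((MS (fS X n)).toReal * ((1 - x)⁻¹ * (Dp X n XNet).toReal)) := by
    have := ENNReal.toReal_mono (ENNReal.mul_ne_top (by simp)
      (ENNReal.mul_ne_top fMX (ENNReal.mul_ne_top finv (fDp _)))) (Dp_all_le hX1 n)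
    rwa [ENNReal.toReal_mul, ENNReal.toReal_mul, ENNReal.toReal_mul, hinv',
      ENNReal.toReal_ofNat] at this
  have e5 : (Dp X n XNet).toReal ≤ (Kp X n).toReal * (Dt X n (fun _ => True)).toReal ^ 2 +
      2 * ((Kn X n).toReal * (Dt X n (fun _ => True)).toReal * (Dp X n (fun _ => True)).toReal) +
      ((RgS (Kn X n) (Dt X n (fun _ => True))).toReal * (Kp X n).toReal +
        (RgE (Kn X n) (Dt X n (fun _ => True))).toReal * (Dp X n (fun _ => True)).toReal) := by
    have h := (Dp_X X n).le.trans (add_le_add (Dp_ser_le (x := X) n) (Dp_rig_le (x := X) n))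
    have f1 : Kp X n * Dt X n (fun _ => True) ^ 2 ≠ ⊤ :=
      ENNReal.mul_ne_top fKp (ENNReal.pow_ne_top (fDt _))
    have f2 : 2 * (Kn X n * Dt X n (fun _ => True) * Dp X n (fun _ => True)) ≠ ⊤ :=
      ENNReal.mul_ne_top (by simp) (ENNReal.mul_ne_top (ENNReal.mul_ne_top fK (fDt _)) (fDp _))
    have f3 : RgS (Kn X n) (Dt X n (fun _ => True)) * Kp X n ≠ ⊤ := ENNReal.mul_ne_top fRS fKp
    have f4 : RgE (Kn X n) (Dt X n (fun _ => True)) * Dp X n (fun _ => True) ≠ ⊤ :=
      ENNReal.mul_ne_top fRE (fDp _)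
    have := ENNReal.toReal_mono (ENNReal.add_ne_top.mpr ⟨ENNReal.add_ne_top.mpr ⟨f1, f2⟩,
      ENNReal.add_ne_top.mpr ⟨f3, f4⟩⟩) h
    rwa [ENNReal.toReal_add (ENNReal.add_ne_top.mpr ⟨f1, f2⟩) (ENNReal.add_ne_top.mpr ⟨f3, f4⟩),
      ENNReal.toReal_add f1 f2, ENNReal.toReal_add f3 f4, ENNReal.toReal_mul, ENNReal.toReal_mul,
      ENNReal.toReal_mul, ENNReal.toReal_mul, ENNReal.toReal_mul, ENNReal.toReal_mul,
      ENNReal.toReal_pow, ENNReal.toReal_ofNat] at this
  have hD1 : 1 ≤ (Dt X n (fun _ => True)).toReal := by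
    rw [hDall']
    have : 0 ≤ (Dt X n (fun N => ¬ Direct N)).toReal := ENNReal.toReal_nonneg
    linarith
  have toR : ∀ {a : ℝ≥0∞} {b : ℝ}, 0 ≤ b → a ≤ ENNReal.ofReal b → a.toReal ≤ b := by
    intro a b hb h
    have := ENNReal.toReal_mono ENNReal.ofReal_ne_top h
    rwa [ENNReal.toReal_ofReal hb] at this
  exact num_close (x := x) (K := (Kn X n).toReal) (D := (Dt X n (fun _ => True)).toReal)
    hx hx' hKx (hk.trans hS') hD1 (hd.trans hE')
    ENNReal.toReal_nonneg ENNReal.toReal_nonneg ENNReal.toReal_nonneg ENNReal.toReal_nonneg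
    ENNReal.toReal_nonneg ENNReal.toReal_nonneg ENNReal.toReal_nonneg ENNReal.toReal_nonneg
    ENNReal.toReal_nonneg (toR (Real.exp_pos _).le hMP) (toR (Real.exp_pos _).le hMX)
    (toR (by norm_num) hRE) (toR (by norm_num) hRS) e1 e2 e3 e4 e5

theorem extend {ρ K D E t : ℝ} (hρ : 10 / 277 ≤ ρ)
    (hK : ∑' c : RC, wx (ENNReal.ofReal ρ) c = ENNReal.ofReal K)
    (hD : Nsel (wx (ENNReal.ofReal ρ)) (fun _ => True) = ENNReal.ofReal D) (hK0 : 0 ≤ K)
    (hD0 : 0 ≤ D)
    (hρK : ρ ≤ K) (hK' : K ≤ 476 / 10000) (h0 : 0 < t) (h1 : t < 1) (hs : K < scr t)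
    (hs' : scr t ≤ 48 / 1000) (hE1 : 1 ≤ E) (hE : D < E) (hE' : E < ecr t)
    (hE'' : E ≤ 113 / 100) :
    ∃ x, ρ < x ∧ ∑' c : RC, wx (ENNReal.ofReal x) c ≠ ⊤ := by
  have hρ0 : 0 < ρ := by linarith
  obtain ⟨η, hη, hη1, hη2, hη3⟩ : ∃ η : ℝ, 0 < η ∧ K + 3 * η < scr t ∧ D + 84 * η < E ∧
      ρ + η ≤ 481 / 10000 := by
    refine ⟨min ((scr t - K) / 6) (min ((E - D) / 168) (5 / 10000)), ?_, ?_, ?_, ?_⟩
    · refine lt_min (by linarith) (lt_min (by linarith) (by norm_num))
    · have : min ((scr t - K) / 6) (min ((E - D) / 168) (5 / 10000)) ≤ (scr t - K) / 6 :=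
        min_le_left _ _
      linarith
    · have : min ((scr t - K) / 6) (min ((E - D) / 168) (5 / 10000)) ≤ (E - D) / 168 :=
        (min_le_right _ _).trans (min_le_left _ _)
      linarith
    · have : min ((scr t - K) / 6) (min ((E - D) / 168) (5 / 10000)) ≤ (5 / 10000 : ℝ) :=
        (min_le_right _ _).trans (min_le_right _ _)
      linarith
  refine ⟨ρ + η, by linarith, ?_⟩
  refine ne_top_of_le_ne_top (ENNReal.ofReal_ne_top (r := scr t)) (sum_le_of_Kn _ _ fun n => ?_)
  have hX := ENNReal.ofReal_ne_top (r := ρ + η)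
  rcases Nat.eq_zero_or_pos n with h | hn
  · rw [h, Kn_zero]; exact zero_le
  have key := bootstrap (fun z => (Kn (ENNReal.ofReal z) n).toReal)
    (fun z => (Dt (ENNReal.ofReal z) n (fun _ => True)).toReal)
    (fun z => (Kp (ENNReal.ofReal z) n).toReal / z)
    (fun z => (Dp (ENNReal.ofReal z) n (fun _ => True)).toReal / z)
    (ρ := ρ) (η := η) (S := scr t) (E := E) (A := 3) (B := 84) hη.le
    (fun x hx => Kn_hasDerivAt n (by linarith [hx.1]))
    (fun x hx => Dt_hasDerivAt n (by linarith [hx.1])) ?_ ?_ (by norm_num) (by norm_num) ?_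
  · have h2 := key.1
    rw [← ENNReal.ofReal_toReal (Kn_ne_top hX n)]
    exact ENNReal.ofReal_le_ofReal h2
  · have h2 : (Kn (ENNReal.ofReal ρ) n).toReal ≤ K := by
      have := ENNReal.toReal_mono (by rw [hK]; exact ENNReal.ofReal_ne_top)
        (Kn_le_sum (ENNReal.ofReal ρ) n)
      rwa [hK, ENNReal.toReal_ofReal hK0] at this
    show (Kn (ENNReal.ofReal ρ) n).toReal + 3 * η < scr t
    linarith
  · have h2 : (Dt (ENNReal.ofReal ρ) n (fun _ => True)).toReal ≤ D := by
      have := ENNReal.toReal_mono (by rw [hD]; exact ENNReal.ofReal_ne_top)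
        (Dt_le_sum (ENNReal.ofReal ρ) n)
      rwa [hD, ENNReal.toReal_ofReal hD0] at this
    show (Dt (ENNReal.ofReal ρ) n (fun _ => True)).toReal + 84 * η < E
    linarith
  · intro x hx hk hd
    have hx0 : 10 / 277 ≤ x := le_trans hρ hx.1
    have hx1 : 0 < x := by linarith
    have h2 := der_bounds (S := scr t) (E := E) hn hx0 (le_trans hx.2 hη3) h0 h1 rfl hs'
      (by linarith) hE1 hE' hE'' hk hd
    constructor
    · show (Kp (ENNReal.ofReal x) n).toReal / x ≤ 3
      rw [div_le_iff₀ hx1]; linarith [h2.1]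
    · show (Dp (ENNReal.ofReal x) n (fun _ => True)).toReal / x ≤ 84
      rw [div_le_iff₀ hx1]; linarith [h2.2]

end PGr

end

section
/-! # Module SymSumR: sums over the full codes with a given rotation -/

set_option linter.unusedSectionVars false

namespace PGr
open Equiv Finset
open scoped ENNReal Classical
universe u
variable {Λ : Type u} (w : Λ → ℝ≥0∞)
open NetSumC

namespace SymSumR

/-- the darts as `Option I × Bool` -/
def eps (I : Type) : (I × Bool) ⊕ Bool ≃ Option I × Bool where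
  toFun := Sum.elim (fun x => (some x.1, x.2)) (fun b => (none, b))
  invFun := fun y => y.1.elim (Sum.inr y.2) (fun i => Sum.inl (i, y.2))
  left_inv := by
    rintro (⟨i, b⟩ | b) <;> rfl
  right_inv := by
    rintro ⟨_ | i, b⟩ <;> rfl

/-- full decorations -/
def eqv (I : Type) (A B : Type*) : ((I → A) × A × B) ≃ (Option I → A) × B where
  toFun := fun q => (fun o => o.elim q.2.1 q.1, q.2.2)
  invFun := fun p => (fun i => p.1 (some i), p.1 none, p.2)
  left_inv := fun _ => rfl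
  right_inv := by
    rintro ⟨f, b⟩
    refine Prod.ext (funext fun o => ?_) rfl
    cases o <;> rfl

section core
variable {C : Core} {σ : Perm ((C.I × Bool) ⊕ Bool)}

theorem eps_aa (t : (C.I × Bool) ⊕ Bool) :
    eps C.I (C.toB.aa t) = ((eps C.I t).1, !(eps C.I t).2) := by
  rcases t with ⟨i, b⟩ | b
  · rfl
  · cases b <;> rfl

/-- the permutation of `Option I × Bool` -/
def tau (σ : Perm ((C.I × Bool) ⊕ Bool)) : Perm (Option C.I × Bool) :=
  (eps C.I).symm.trans (σ.trans (eps C.I))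

theorem tau_eps (t : (C.I × Bool) ⊕ Bool) : tau σ (eps C.I t) = eps C.I (σ t) := by
  show eps C.I (σ ((eps C.I).symm (eps C.I t))) = _
  rw [Equiv.symm_apply_apply]

theorem tau_pow (m : ℕ) (t : (C.I × Bool) ⊕ Bool) :
    (tau σ ^ m) (eps C.I t) = eps C.I ((σ ^ m) t) := by
  induction m with
  | zero => rfl
  | succ m ih => rw [pow_succ', Perm.mul_apply, ih, tau_eps, pow_succ', Perm.mul_apply]

theorem tau_CF (ha : ∀ x, σ (C.toB.aa x) = C.toB.aa (σ x)) : SymAux.CF (tau σ) := by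
  intro x
  obtain ⟨t, rfl⟩ := (eps C.I).surjective x
  have h1 : eps C.I (σ (C.toB.aa t)) = eps C.I (C.toB.aa (σ t)) := congrArg _ (ha t)
  rw [tau_eps]
  exact (congrArg (tau σ) (eps_aa t).symm).trans
    ((tau_eps (σ := σ) (C.toB.aa t)).trans (h1.trans (eps_aa _)))

theorem comm_pow {X : Type*} {f a : Perm X} (h : ∀ x, f (a x) = a (f x)) (m : ℕ) (x : X) :
    (f ^ m) (a x) = a ((f ^ m) x) := by
  induction m with
  | zero => rfl
  | succ m ih => rw [pow_succ', Perm.mul_apply, ih, h, Perm.mul_apply]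

/-- a power of a rotation fixing a dart is the identity -/
theorem pow_fix (hC : Good C.toB.aa C.s) (ha : ∀ x, σ (C.toB.aa x) = C.toB.aa (σ x))
    (hs : ∀ x, σ (C.s x) = C.s (σ x)) (m : ℕ) {x : (C.I × Bool) ⊕ Bool}
    (hx : (σ ^ m) x = x) : σ ^ m = 1 := by
  have h1 : ∀ x, (σ ^ m) (C.toB.aa x) = C.toB.aa ((σ ^ m) x) :=
    comm_pow (X := C.toB.T) (f := σ) (a := C.toB.aa) ha m
  exact iso_unique (a' := C.toB.aa) (s' := C.s) hC x (σ ^ m) (1 : Perm ((C.I × Bool) ⊕ Bool)) h1
    (comm_pow hs m) (fun _ => rfl) (fun _ => rfl) hx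

theorem card_CExt : Fintype.card (CExt C) = nV C.s - 1 := by
  have h1 : nV C.s = Fintype.card C.CV := by
    rw [← Nat.card_eq_fintype_card]
    rfl
  have h2 : Fintype.card (CExt C) =
      (univ.filter fun x : C.CV => x ≠ C.vinc (Sum.inr true)).card :=
    Fintype.card_subtype _
  have h3 : (univ.filter fun x : C.CV => x ≠ C.vinc (Sum.inr true)) =
      univ \ {C.vinc (Sum.inr true)} := by
    ext x
    simp
  rw [h2, h3, Finset.card_sdiff_of_subset (subset_univ _), card_singleton, card_univ, h1]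

theorem revD_eq : revD C.toB σ (fun _ => True) =
    Nat.card {x : Option C.I × Bool // tau σ x = (x.1, !x.2)} := by
  refine Nat.card_congr (Equiv.ofBijective (fun x => ⟨eps C.I x.1, ?_⟩) ⟨?_, ?_⟩)
  · exact (tau_eps (σ := σ) x.1).trans ((congrArg (eps C.I) x.2.2).trans (eps_aa x.1))
  · rintro ⟨x, hx⟩ ⟨y, hy⟩ hxy
    exact Subtype.ext ((eps C.I).injective (congrArg Subtype.val hxy))
  · rintro ⟨x, hx⟩
    obtain ⟨t, rfl⟩ := (eps C.I).surjective x
    rw [tau_eps, ← eps_aa] at hx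
    exact ⟨⟨t, trivial, (eps C.I).injective hx⟩, rfl⟩

theorem edge_iff (F : Option C.I → NC Λ) (f : (C.I × Bool) ⊕ Bool → NC Λ)
    (hf : ∀ t, f t = eDec F (eps C.I t)) :
    (∀ t, f (σ t) = f t) ↔ ∀ x, eDec F (tau σ x) = eDec F x := by
  constructor
  · intro h x
    obtain ⟨t, rfl⟩ := (eps C.I).surjective x
    rw [tau_eps, ← hf, ← hf, h]
  · intro h t
    rw [hf, hf, ← tau_eps, h]

end core

end SymSumR

open SymSumR

/-- The same for a rotation of order `k ≥ 2` about the root vertex.  `hv`, `he`: every vertex fixed by a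
power of `σ` different from `1` is fixed by `σ`, and if a power of `σ` reverses an edge, then `k = 2` (module TwoPoles).
`sum_equivariant_rot`. -/
theorem fc_sum_rot (c : GC) (hc : Rigid c.rep.1) (t : CT c)
    (ht : (core c).s.SameCycle (Sum.inr true) t) (σ : Perm (CT c))
    (h : SymM (core c).toB true σ t) (k : ℕ) (hk : orderOf σ = k) (hk2 : 2 ≤ k)
    (hv : ∀ j x, 0 < j → j < k → (core c).s.SameCycle x ((σ ^ j) x) → (core c).s.SameCycle x (σ x))
    (he : ∀ j x, 0 < j → j < k → (σ ^ j) x = (core c).toB.aa x → k = 2) :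
    ∑' q : ((core c).I → NC Λ) × NC Λ × (CExt (core c) → Λ),
      (if (∀ t, (FC.hat ⟨c, q⟩).2.1 (σ t) = (FC.hat ⟨c, q⟩).2.1 t) ∧
          (∀ t, (FC.hat ⟨c, q⟩).2.2 ((core c).vinc (σ t)) =
            (FC.hat ⟨c, q⟩).2.2 ((core c).vinc t)) then FC.wt w ⟨c, q⟩ else 0) =
      rotW (core c).toB σ k (pK w 1) (pK w k) (pS w 1) (pD w k) := by
  have hσ := SymAux.same_of_o h.s
  have hs : ∀ x, σ ((core c).s x) = (core c).s (σ x) := fun x => by
    have h1 := h.s x
    rw [if_pos rfl] at h1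
    exact h1
  have hσk : σ ^ k = 1 := by rw [← hk]; exact pow_orderOf_eq_one σ
  have hne : ∀ m x, 0 < m → m < k → (σ ^ m) x ≠ x := by
    intro m x hm hmk hx
    have h1 := pow_fix (CT_good c) h.a hs m hx
    have h2 : orderOf σ ≤ m := orderOf_le_of_pow_eq_one hm h1
    omega
  have hroot : SymAux.sV hσ ((core c).vinc (Sum.inr true)) = (core c).vinc (Sum.inr true) := by
    have h1 : (core c).vinc (Sum.inr true) = (core c).vinc t := Quotient.sound ht
    have h2 : (core c).vinc (σ (Sum.inr true)) = (core c).vinc t := congrArg _ h.root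
    exact h2.trans h1.symm
  have hP : ∀ x, SymAux.sV hσ x ≠ (core c).vinc (Sum.inr true) ↔
      x ≠ (core c).vinc (Sum.inr true) := by
    intro x
    refine not_congr ?_
    conv_lhs => rw [← hroot]
    exact (SymAux.sV hσ).injective.eq_iff
  have hA : ∀ q : ((core c).I → NC Λ) × NC Λ × (CExt (core c) → Λ),
      (∀ t, (FC.hat ⟨c, q⟩).2.1 (σ t) = (FC.hat ⟨c, q⟩).2.1 t) ↔
        ∀ x, eDec (eqv (core c).I _ _ q).1 (tau (C := core c) σ x) =
          eDec (eqv (core c).I _ _ q).1 x := fun q =>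
    SymSumR.edge_iff (C := core c) (σ := σ) _ (FC.hat ⟨c, q⟩).2.1 (fun t => by
      rcases t with x | b
      · rfl
      · rfl)
  have hB : ∀ q : ((core c).I → NC Λ) × NC Λ × (CExt (core c) → Λ),
      (∀ t, (FC.hat ⟨c, q⟩).2.2 ((core c).vinc (σ t)) =
        (FC.hat ⟨c, q⟩).2.2 ((core c).vinc t)) ↔
        ∀ x, (eqv (core c).I _ _ q).2 ((SymAux.sV hσ).subtypePerm hP x) =
          (eqv (core c).I _ _ q).2 x := fun q =>
    SymAux.vert_iff hσ (fun x => x ≠ (core c).vinc (Sum.inr true)) hP q.2.2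
      (FC.hat ⟨c, q⟩).2.2 (fun x hx => dif_pos hx) (fun x hx => dif_neg hx)
  have hwt : ∀ q : ((core c).I → NC Λ) × NC Λ × (CExt (core c) → Λ), FC.wt w ⟨c, q⟩ =
      (∏ o, wt w ((eqv (core c).I _ _ q).1 o).rep.1) * ∏ x, w ((eqv (core c).I _ _ q).2 x) := by
    intro q
    rw [Fintype.prod_option, mul_comm (wt w _)]
    rfl
  have hV : fixV (core c).toB σ (fun t => t = Sum.inr true) =
      Nat.card {x : CExt (core c) // (SymAux.sV hσ).subtypePerm hP x = x} := by
    refine SymAux.fixV_eq hσ (fun x => x ≠ (core c).vinc (Sum.inr true)) hP _ fun x => ?_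
    constructor
    · rintro h1 t rfl
      exact h1
    · intro h1
      exact h1 _ rfl
  have hpow : ∀ (m : ℕ) (x : CExt (core c)),
      ((((SymAux.sV hσ).subtypePerm hP) ^ m) x).1 = (SymAux.sV hσ ^ m) x.1 := by
    intro m x
    induction m with
    | zero => rfl
    | succ m ih =>
      rw [pow_succ', pow_succ', Perm.mul_apply, Perm.mul_apply, ← ih]
      rfl
  obtain ⟨G, hG⟩ : ∃ G : (Option (core c).I → NC Λ) × (CExt (core c) → Λ) → ℝ≥0∞,
    G = fun p =>
      (if ∀ x, eDec p.1 (tau (C := core c) σ x) = eDec p.1 x then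
        ∏ o, wt w (p.1 o).rep.1 else 0) *
      (if ∀ x, p.2 ((SymAux.sV hσ).subtypePerm hP x) = p.2 x then ∏ x, w (p.2 x) else 0) :=
    ⟨_, rfl⟩
  have h1 : ∑' q : ((core c).I → NC Λ) × NC Λ × (CExt (core c) → Λ),
      (if (∀ t, (FC.hat ⟨c, q⟩).2.1 (σ t) = (FC.hat ⟨c, q⟩).2.1 t) ∧
          (∀ t, (FC.hat ⟨c, q⟩).2.2 ((core c).vinc (σ t)) =
            (FC.hat ⟨c, q⟩).2.2 ((core c).vinc t)) then FC.wt w ⟨c, q⟩ else 0) =
      ∑' q : ((core c).I → NC Λ) × NC Λ × (CExt (core c) → Λ), G (eqv (core c).I _ _ q) := by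
    refine tsum_congr fun q => ?_
    rw [hwt q, hG]
    exact SymAux.iteM (hA q) (hB q) _ _
  rw [h1, (eqv (core c).I (NC Λ) (CExt (core c) → Λ)).tsum_eq, hG]
  refine (tsum_prod_mul (fun F : Option (core c).I → NC Λ =>
    if ∀ x, eDec F (tau (C := core c) σ x) = eDec F x then ∏ i, wt w (F i).rep.1 else 0)
    (fun g : CExt (core c) → Λ =>
      if ∀ x, g ((SymAux.sV hσ).subtypePerm hP x) = g x then ∏ x, w (g x) else 0)).symm.trans ?_
  rw [SymAux.edge_sum_rot (tau_CF h.a) hk2 ?_ ?_ ?_ w, SymAux.vert_sum_rot _ hk2 ?_ ?_ w]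
  · unfold rotW
    have hR : revD (core c).toB σ (fun _ => True) =
      Nat.card {x : Option (core c).I × Bool // tau (C := core c) σ x = (x.1, !x.2)} :=
        SymSumR.revD_eq
    rw [hV, hR, card_CExt]
    have hcard : Fintype.card (core c).toB.T = Fintype.card (Option (core c).I × Bool) :=
      Fintype.card_congr (eps (core c).I)
    rw [hcard]
    have hnV : nV (core c).toB.s = nV (core c).s := rfl
    rw [hnV]
    ring
  · refine Equiv.ext fun x => Subtype.ext ?_
    rw [hpow]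
    obtain ⟨t, ht⟩ : ∃ t, (core c).vinc t = x.1 := Quotient.exists_rep x.1
    rw [← ht]
    exact (SymAux.sV_pow hσ k t).trans ((congrArg (fun f : Perm (CT c) => (core c).vinc (f t)) hσk).trans ht)
  · intro m x hm hmk hx
    refine Subtype.ext ?_
    have h2 := congrArg Subtype.val hx
    rw [hpow] at h2
    obtain ⟨t, ht⟩ : ∃ t, (core c).vinc t = x.1 := Quotient.exists_rep x.1
    rw [← ht] at h2
    have h3 : (core c).vinc ((σ ^ m) t) = (core c).vinc t := (SymAux.sV_pow hσ m t).symm.trans h2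
    have h4 := hv m t hm hmk (Quotient.exact h3.symm)
    show SymAux.sV hσ x.1 = x.1
    rw [← ht]
    have h5 : (core c).vinc t = (core c).vinc (σ t) := Quotient.sound h4
    exact h5.symm
  · refine Equiv.ext fun x => ?_
    obtain ⟨t, rfl⟩ := (eps (core c).I).surjective x
    exact (tau_pow (C := core c) (σ := σ) k t).trans
      (congrArg (fun f : Perm (CT c) => eps (core c).I (f t)) hσk)
  · intro m x hm hmk hx
    obtain ⟨t, rfl⟩ := (eps (core c).I).surjective x
    exact hne m t hm hmk ((eps (core c).I).injective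
      ((tau_pow (C := core c) (σ := σ) m t).symm.trans hx))
  · intro m x hm hmk hx
    obtain ⟨t, rfl⟩ := (eps (core c).I).surjective x
    exact he m t hm hmk ((eps (core c).I).injective
      (((tau_pow (C := core c) (σ := σ) m t).symm.trans hx).trans
        (eps_aa (C := core c) t).symm))

end PGr

end

section
/-! # Module PRExp: the sum over the symmetries of full codes -/

set_option linter.unusedSectionVars false

namespace PGr
open Equiv Finset
open scoped ENNReal Classical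
universe u
variable {Λ : Type u}
open NetSumC

/-- `DM p.hat p.hat o σ` means: `σ` is a symmetry of the map (mapping the root dart to a dart of the root vertex) which respects the
decorations (the decoration `none` of the root vertex) -/
theorem dm_iff (c : GC) (q : ((core c).I → NC Λ) × NC Λ × (CExt (core c) → Λ)) (o : Bool)
    (σ : Perm (CT c)) : DM (FC.hat ⟨c, q⟩) (FC.hat ⟨c, q⟩) o σ ↔
      (∃ t, (core c).s.SameCycle (Sum.inr true) t ∧ SymM (core c).toB o σ t) ∧
      (∀ t, (FC.hat ⟨c, q⟩).2.1 (σ t) = (FC.hat ⟨c, q⟩).2.1 t) ∧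
      ∀ t, (FC.hat ⟨c, q⟩).2.2 ((core c).vinc (σ t)) = (FC.hat ⟨c, q⟩).2.2 ((core c).vinc t) := by
  constructor
  · intro h
    refine ⟨⟨σ (Sum.inr true), ?_, ⟨h.a, h.s, rfl⟩⟩, h.f, h.g⟩
    have h1 := DM.fc_root (p := ⟨c, q⟩) (q := ⟨c, q⟩) (ψ := σ) h (Sum.inr true)
    exact h1.1 (Perm.SameCycle.refl _ _)
  · rintro ⟨⟨t, ht, h⟩, hf, hg⟩
    exact ⟨h.a, h.s, hf, hg⟩

/-- the sum over the rigid full codes -/
private theorem PRExp_sigma (F : FC Λ → ℝ≥0∞) : ∑' p : FCR Λ, F p.1 =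
    ∑' c : GC, if Rigid c.rep.1 then
      ∑' q : ((core c).I → NC Λ) × NC Λ × (CExt (core c) → Λ), F ⟨c, q⟩ else 0 := by
  have h1 : ∑' p : FCR Λ, F p.1 =
      ∑' p : FC Λ, if Rigid p.1.rep.1 then F p else 0 := by
    have h2 := tsum_subtype {p : FC Λ | Rigid p.1.rep.1} F
    refine Eq.trans h2 (tsum_congr fun p => ?_)
    rw [Set.indicator_apply]
    rfl
  rw [h1, ENNReal.tsum_sigma']
  refine tsum_congr fun c => ?_
  by_cases hc : Rigid c.rep.1
  · rw [if_pos hc]
    exact tsum_congr fun q => if_pos hc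
  · rw [if_neg hc]
    rw [ENNReal.tsum_eq_zero]
    exact fun q => if_neg hc

/-- the factor for a symmetry of the core -/
private noncomputable def PRExp_f (w : Λ → ℝ≥0∞) (M : BMap) (o : Bool) (σ : Perm M.T) : ℝ≥0∞ :=
  if o then (if σ = 1 then pK w 1 ^ (nV M.s - 1) * pD w 1 ^ (Fintype.card M.T / 2) else
    rotW M σ (orderOf σ) (pK w 1) (pK w (orderOf σ)) (pS w 1) (pD w (orderOf σ))) else
    symW0 M σ (pK w 1) (pK w 2) (pD w 1) (pS w 1) (pD w 2)

/-- the sum over the decorations -/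
private theorem PRExp_dec (w : Λ → ℝ≥0∞) (c : GC) (hc : Rigid c.rep.1) (o : Bool)
    (σ : Perm (CT c)) : ∑' q : ((core c).I → NC Λ) × NC Λ × (CExt (core c) → Λ),
      (if DM (FC.hat ⟨c, q⟩) (FC.hat ⟨c, q⟩) o σ then FC.wt w ⟨c, q⟩ else 0) =
      if ∃ t, (core c).s.SameCycle (Sum.inr true) t ∧ SymM (core c).toB o σ t then
        PRExp_f w (core c).toB o σ else 0 := by
  have hM : (core c).toB.IsGood := CT_good c
  by_cases hs : ∃ t, (core c).s.SameCycle (Sum.inr true) t ∧ SymM (core c).toB o σ t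
  swap
  · rw [if_neg hs, ENNReal.tsum_eq_zero]
    intro q
    rw [if_neg]
    intro h
    exact hs ((dm_iff c q o σ).1 h).1
  rw [if_pos hs]
  have h0 : ∑' q : ((core c).I → NC Λ) × NC Λ × (CExt (core c) → Λ),
      (if DM (FC.hat ⟨c, q⟩) (FC.hat ⟨c, q⟩) o σ then FC.wt w ⟨c, q⟩ else 0) =
      ∑' q : ((core c).I → NC Λ) × NC Λ × (CExt (core c) → Λ),
      (if (∀ t, (FC.hat ⟨c, q⟩).2.1 (σ t) = (FC.hat ⟨c, q⟩).2.1 t) ∧
          (∀ t, (FC.hat ⟨c, q⟩).2.2 ((core c).vinc (σ t)) =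
            (FC.hat ⟨c, q⟩).2.2 ((core c).vinc t)) then FC.wt w ⟨c, q⟩ else 0) := by
    refine tsum_congr fun q => ?_
    have h2 := dm_iff c q o σ
    by_cases h1 : (∀ t, (FC.hat ⟨c, q⟩).2.1 (σ t) = (FC.hat ⟨c, q⟩).2.1 t) ∧
          (∀ t, (FC.hat ⟨c, q⟩).2.2 ((core c).vinc (σ t)) =
            (FC.hat ⟨c, q⟩).2.2 ((core c).vinc t))
    · rw [if_pos h1, if_pos (h2.2 ⟨hs, h1⟩)]
    · rw [if_neg h1, if_neg fun h => h1 (h2.1 h).2]
  rw [h0]
  obtain ⟨t, ht, hsy⟩ := hs
  cases o with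
  | false =>
    have h3 := fc_sum_refl w c hc t ht σ hsy
    rw [PRExp_f, if_neg Bool.false_ne_true]
    refine Eq.trans (tsum_congr fun q => ?_) h3
    congr
  | true =>
    by_cases h1 : σ = 1
    · subst h1
      have h3 := fc_sum_id w c hc
      rw [PRExp_f, if_pos rfl, if_pos rfl]
      refine Eq.trans (tsum_congr fun q => ?_) h3
      rw [if_pos]
      exact ⟨fun _ => rfl, fun _ => rfl⟩
    · rw [PRExp_f, if_pos rfl, if_neg h1]
      have hk2 : 2 ≤ orderOf σ := by
        have h2 : orderOf σ ≠ 1 := fun h => h1 (orderOf_eq_one_iff.1 h)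
        have h3 := orderOf_pos σ
        omega
      have h3 := fc_sum_rot w c hc t ht σ hsy (orderOf σ) rfl hk2
        (fun j x hj hjk hx => two_poles_v (M := (core c).toB) hM ht hsy
          (pow_ne_one_of_lt_orderOf hj.ne' hjk) hx)
        (fun j x hj hjk hx => two_poles_e (M := (core c).toB) hM ht hsy hx)
      refine Eq.trans (tsum_congr fun q => ?_) h3
      congr

/-- transport of the factor -/
private theorem PRExp_conj (w : Λ → ℝ≥0∞) {M N : BMap} (o : Bool) (σ : Perm M.T) (e : M.T ≃ N.T)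
    (ha : ∀ t, e (M.aa t) = N.aa (e t))
    (hs : ∀ t, e (M.s t) = N.s (e t)) (hr : e (Sum.inr true) = Sum.inr true) :
    PRExp_f w N o (e.permCongr σ) = PRExp_f w M o σ := by
  have hord : orderOf (e.permCongr σ) = orderOf σ := by
    exact MulEquiv.orderOf_eq (e.permCongrHom) σ
  have hone : e.permCongr σ = 1 ↔ σ = 1 := by
    rw [← orderOf_eq_one_iff, hord, orderOf_eq_one_iff]
  unfold PRExp_f
  cases o with
  | false => exact symW0_conj σ e ha hs hr _ _ _ _ _
  | true =>
    simp only [if_true]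
    by_cases h1 : σ = 1
    · rw [if_pos h1, if_pos (hone.2 h1), nV_iso e hs, Fintype.card_congr e]
    · rw [if_neg h1, if_neg fun h => h1 (hone.1 h), hord]
      exact rotW_conj σ e ha hs hr _ _ _ _ _

private theorem PRExp_sym {M N : BMap} (o : Bool) (σ : Perm M.T) (e : M.T ≃ N.T)
    (ha : ∀ t, e (M.aa t) = N.aa (e t))
    (hs : ∀ t, e (M.s t) = N.s (e t)) (hr : e (Sum.inr true) = Sum.inr true) :
    (∃ t, N.s.SameCycle (Sum.inr true) t ∧ SymM N o (e.permCongr σ) t) ↔
      ∃ t, M.s.SameCycle (Sum.inr true) t ∧ SymM M o σ t := by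
  have hsc : ∀ t, N.s.SameCycle (Sum.inr true) (e t) ↔ M.s.SameCycle (Sum.inr true) t := by
    intro t
    have h1 : N.s = (e.symm.trans M.s).trans e := by
      ext x
      show N.s x = e (M.s (e.symm x))
      rw [hs, Equiv.apply_symm_apply]
    have hpow : ∀ (i : ℤ) (x : M.T), e ((M.s ^ i) x) = (N.s ^ i) (e x) := by
      intro i x
      have h2 : N.s = e.permCongrHom M.s := h1
      rw [h2, ← map_zpow]
      show _ = e ((M.s ^ i) (e.symm (e x)))
      rw [Equiv.symm_apply_apply]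
    constructor
    · rintro ⟨i, hi⟩
      refine ⟨i, e.injective ?_⟩
      rw [hpow, hr, hi]
    · rintro ⟨i, hi⟩
      refine ⟨i, ?_⟩
      rw [← hr, ← hpow, hi]
  constructor
  · rintro ⟨t, ht, h⟩
    refine ⟨e.symm t, ?_, ?_⟩
    · rw [← hsc, Equiv.apply_symm_apply]
      exact ht
    · have h2 := h.conj (N := M) e.symm (fun x => ?_) (fun x => ?_) ?_
      · have h3 : (e.symm.symm.trans (e.permCongr σ)).trans e.symm = σ := by
          ext x
          show e.symm (e (σ (e.symm (e x)))) = σ x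
          rw [Equiv.symm_apply_apply, Equiv.symm_apply_apply]
        rw [h3] at h2
        exact h2
      · rw [Equiv.symm_apply_eq, ha, Equiv.apply_symm_apply]
      · rw [Equiv.symm_apply_eq, hs, Equiv.apply_symm_apply]
      · rw [Equiv.symm_apply_eq, hr]
  · rintro ⟨t, ht, h⟩
    exact ⟨e t, (hsc t).2 ht, h.conj e ha hs hr⟩

/-- the sum over the symmetries of a class -/
private theorem PRExp_class (w : Λ → ℝ≥0∞) (c : GC) (o : Bool) :
    ∑ σ : Perm (CT c), (if ∃ t, (core c).s.SameCycle (Sum.inr true) t ∧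
        SymM (core c).toB o σ t then PRExp_f w (core c).toB o σ else 0) =
    ∑ σ : Perm c.rep.1.T, (if ∃ t, c.rep.1.s.SameCycle (Sum.inr true) t ∧
        SymM c.rep.1 o σ t then PRExp_f w c.rep.1 o σ else 0) := by
  obtain ⟨e, ha, hs, hr⟩ := core_iso c
  refine Fintype.sum_equiv e.permCongr _ _ fun σ => ?_
  have h1 := PRExp_sym o σ e ha hs hr
  rw [PRExp_conj w o σ e ha hs hr]
  by_cases h : ∃ t, (core c).s.SameCycle (Sum.inr true) t ∧ SymM (core c).toB o σ t
  · rw [if_pos h, if_pos (h1.2 h)]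
  · rw [if_neg h, if_neg fun h' => h (h1.1 h')]

private theorem PRExp_inner (w : Λ → ℝ≥0∞) (c : GC) (hc : Rigid c.rep.1) (o : Bool) (D : ℝ≥0∞) :
    ∑' q : ((core c).I → NC Λ) × NC Λ × (CExt (core c) → Λ), ∑ σ : Perm (CT c),
      (if DM (FC.hat ⟨c, q⟩) (FC.hat ⟨c, q⟩) o σ then FC.wt w ⟨c, q⟩ / D else 0) =
    (∑ σ : Perm c.rep.1.T, (if ∃ t, c.rep.1.s.SameCycle (Sum.inr true) t ∧
        SymM c.rep.1 o σ t then PRExp_f w c.rep.1 o σ else 0)) / D := by
  refine (Summable.tsum_finsetSum fun _ _ => ENNReal.summable).trans ?_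
  rw [← PRExp_class w c o, div_eq_mul_inv, Finset.sum_mul]
  refine Finset.sum_congr rfl fun σ _ => ?_
  rw [← PRExp_dec w c hc o σ, ← ENNReal.tsum_mul_right]
  refine tsum_congr fun q => ?_
  by_cases hd : DM (FC.hat ⟨c, q⟩) (FC.hat ⟨c, q⟩) o σ
  · rw [if_pos hd, if_pos hd, div_eq_mul_inv]
  · rw [if_neg hd, if_neg hd, zero_mul]

/-- the summand of Burnside's lemma -/
private noncomputable def PRExp_F (w : Λ → ℝ≥0∞) (p : FC Λ) : ℝ≥0∞ :=
  ∑ o : Bool, ∑ σ : Perm (CT p.1),
    if DM p.hat p.hat o σ then p.wt w / (2 * ((core p.1).toB.dg : ℝ≥0∞)) else 0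

private theorem PRExp_burn (w : Λ → ℝ≥0∞) : PR w = ∑' p : FCR Λ, PRExp_F w p.1 :=
  PR_burnside w

private theorem PRExp_Fsum (w : Λ → ℝ≥0∞) (c : GC) (hc : Rigid c.rep.1) :
    ∑' q : ((core c).I → NC Λ) × NC Λ × (CExt (core c) → Λ), PRExp_F w ⟨c, q⟩ =
      ∑ o : Bool, (∑ σ : Perm c.rep.1.T, (if ∃ t, c.rep.1.s.SameCycle (Sum.inr true) t ∧
        SymM c.rep.1 o σ t then PRExp_f w c.rep.1 o σ else 0)) /
          (2 * ((core c).toB.dg : ℝ≥0∞)) := by
  have h1 : ∀ o : Bool, _ := fun o => PRExp_inner w c hc o (2 * ((core c).toB.dg : ℝ≥0∞))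
  rw [← Finset.sum_congr rfl fun o _ => h1 o]
  rw [← Summable.tsum_finsetSum fun _ _ => ENNReal.summable]
  rfl

/-- the root degree of the core -/
private theorem PRExp_dg (c : GC) : (core c).toB.dg = c.rep.1.dg := by
  obtain ⟨e, ha, hs, hr⟩ := core_iso c
  exact (dg_conj e hs hr).symm

private theorem PRExp_one_sym {M : BMap} (σ : Perm M.T) :
    (∃ t, M.s.SameCycle (Sum.inr true) t ∧ SymM M true σ t) ∧ σ = 1 ↔ σ = 1 := by
  refine ⟨fun h => h.2, fun h => ⟨⟨Sum.inr true, Perm.SameCycle.refl _ _, ?_⟩, h⟩⟩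
  subst h
  exact ⟨fun _ => rfl, fun _ => rfl, rfl⟩

/-- `PR_burnside`; sum over the classes `c` of maps and the symmetries, inside over the decorations: `fc_sum_id` for `o = true`,
`σ = 1`; `fc_sum_rot` with `k = orderOf σ` (hypotheses: `two_poles_v`, `two_poles_e`) for `o = true`, `σ ≠ 1`;
`fc_sum_refl` for `o = false`.  Transport from `core c` to `c.rep.1` along `core_iso` (`SymM.conj`, `rotW_conj`,
`symW0_conj`, `dg_conj`). -/
theorem PR_expand (w : Λ → ℝ≥0∞) : PR w = Q1 (pK w 1) (pD w 1) / 2 +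
    ∑' c : GC, ∑ σ : Perm c.rep.1.T,
      (if Rigid c.rep.1 ∧ σ ≠ 1 ∧ ∃ t, c.rep.1.s.SameCycle (Sum.inr true) t ∧
          SymM c.rep.1 true σ t then
        rotW c.rep.1 σ (orderOf σ) (pK w 1) (pK w (orderOf σ)) (pS w 1) (pD w (orderOf σ)) /
          (2 * (c.rep.1.dg : ℝ≥0∞)) else 0) +
    ∑' c : GC, ∑ σ : Perm c.rep.1.T,
      (if Rigid c.rep.1 ∧ ∃ t, c.rep.1.s.SameCycle (Sum.inr true) t ∧ SymM c.rep.1 false σ t then
        symW0 c.rep.1 σ (pK w 1) (pK w 2) (pD w 1) (pS w 1) (pD w 2) /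
          (2 * (c.rep.1.dg : ℝ≥0∞)) else 0) := by
  have h1 : PR w = ∑' c : GC, if Rigid c.rep.1 then
      ∑ o : Bool, (∑ σ : Perm c.rep.1.T, (if ∃ t, c.rep.1.s.SameCycle (Sum.inr true) t ∧
        SymM c.rep.1 o σ t then PRExp_f w c.rep.1 o σ else 0)) / (2 * (c.rep.1.dg : ℝ≥0∞))
        else 0 := by
    rw [PRExp_burn, PRExp_sigma (PRExp_F w)]
    refine tsum_congr fun c => ?_
    by_cases hc : Rigid c.rep.1
    · rw [if_pos hc, if_pos hc, PRExp_Fsum w c hc, PRExp_dg c]
    · rw [if_neg hc, if_neg hc]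
  have h2 : Q1 (pK w 1) (pD w 1) / 2 = ∑' c : GC, if Rigid c.rep.1 then
      pK w 1 ^ (nV c.rep.1.s - 1) * pD w 1 ^ (Fintype.card c.rep.1.T / 2) /
        (2 * (c.rep.1.dg : ℝ≥0∞)) else 0 := by
    rw [Q1, div_eq_mul_inv, ← ENNReal.tsum_mul_right]
    refine tsum_congr fun c => ?_
    by_cases hc : Rigid c.rep.1
    · rw [if_pos hc, if_pos hc, div_eq_mul_inv, div_eq_mul_inv, mul_assoc,
        ENNReal.mul_inv (Or.inl two_ne_zero) (Or.inl ENNReal.ofNat_ne_top),
        mul_comm (2 : ℝ≥0∞)⁻¹]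
    · rw [if_neg hc, if_neg hc, zero_mul]
  rw [h1, h2, ← ENNReal.tsum_add, ← ENNReal.tsum_add]
  refine tsum_congr fun c => ?_
  by_cases hc : Rigid c.rep.1
  swap
  · rw [if_neg hc, if_neg hc]
    rw [Finset.sum_eq_zero fun σ _ => if_neg fun h => hc h.1,
      Finset.sum_eq_zero fun σ _ => if_neg fun h => hc h.1, add_zero, add_zero]
  rw [if_pos hc, if_pos hc, Fintype.sum_bool]
  congr 1
  · have h3 : ∀ σ : Perm c.rep.1.T, (if ∃ t, c.rep.1.s.SameCycle (Sum.inr true) t ∧
        SymM c.rep.1 true σ t then PRExp_f w c.rep.1 true σ else 0) =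
        (if σ = 1 then pK w 1 ^ (nV c.rep.1.s - 1) * pD w 1 ^ (Fintype.card c.rep.1.T / 2)
          else 0) + (if Rigid c.rep.1 ∧ σ ≠ 1 ∧ ∃ t, c.rep.1.s.SameCycle (Sum.inr true) t ∧
            SymM c.rep.1 true σ t then
            rotW c.rep.1 σ (orderOf σ) (pK w 1) (pK w (orderOf σ)) (pS w 1) (pD w (orderOf σ))
          else 0) := by
      intro σ
      by_cases h4 : σ = 1
      · have h5 := ((PRExp_one_sym σ).2 h4).1
        rw [if_pos h5, if_pos h4, if_neg fun h => h.2.1 h4, add_zero]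
        rw [PRExp_f, if_pos rfl, if_pos h4]
      · rw [if_neg h4, zero_add]
        by_cases h5 : ∃ t, c.rep.1.s.SameCycle (Sum.inr true) t ∧ SymM c.rep.1 true σ t
        · rw [if_pos h5, if_pos ⟨hc, h4, h5⟩, PRExp_f, if_pos rfl, if_neg h4]
        · rw [if_neg h5, if_neg fun h => h5 h.2.2]
    rw [Finset.sum_congr rfl fun σ _ => h3 σ, Finset.sum_add_distrib, ENNReal.add_div]
    congr 1
    · rw [Finset.sum_ite_eq' Finset.univ (1 : Perm c.rep.1.T)
        (fun _ => pK w 1 ^ (nV c.rep.1.s - 1) * pD w 1 ^ (Fintype.card c.rep.1.T / 2)),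
        if_pos (Finset.mem_univ _)]
    · rw [div_eq_mul_inv, Finset.sum_mul]
      refine Finset.sum_congr rfl fun σ _ => ?_
      by_cases h5 : Rigid c.rep.1 ∧ σ ≠ 1 ∧ ∃ t, c.rep.1.s.SameCycle (Sum.inr true) t ∧
          SymM c.rep.1 true σ t
      · rw [if_pos h5, if_pos h5, div_eq_mul_inv]
      · rw [if_neg h5, if_neg h5, zero_mul]
  · rw [div_eq_mul_inv, Finset.sum_mul]
    refine Finset.sum_congr rfl fun σ _ => ?_
    by_cases h5 : ∃ t, c.rep.1.s.SameCycle (Sum.inr true) t ∧ SymM c.rep.1 false σ t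
    · rw [if_pos h5, if_pos ⟨hc, h5⟩, PRExp_f, div_eq_mul_inv]
      simp only [Bool.false_eq_true, if_false]
    · rw [if_neg h5, if_neg fun h => h5 h.2, zero_mul]

end PGr

end
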