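import Pool.Agent.PGm.M08
import Pool.Agent.PGm.M10
import Pool.Agent.PGm.M14
import Pool.Agent.PGm.M18
import Pool.Agent.PGm.M21
import Pool.Agent.PGm.M25
import Pool.Agent.PGm.M26
import Pool.Agent.PGm.M27
import Pool.Agent.PGm.M29
import Pool.Agent.PGm.M31
import Pool.Agent.PGs.ARarc

section
/-! # Module SUP3 -/

namespace PGa
open scoped ENNReal

variable {q c kv kf ke w : ℝ} {n h : ℝ → ℝ≥0∞} {nM hM : ℕ → ℝ → ℝ≥0∞}

/-- Module SUP3: upper bound, induction on `M` -/
theorem rot_le (hq : 0 < q) (hqc : q < c) (hc : c < 1) (hkv : 0 ≤ kv) (hkf : 0 ≤ kf)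
    (hke : 0 ≤ ke) (hT : RotTrunc q c kv kf ke nM hM) (M : ℕ) :
    (∀ w, 0 < w → w < q → nM M (Zf q c w) ≤ ENNReal.ofReal (Nd q c kv kf ke w / dZ q c w)) ∧
    (∀ w, 0 < w → w < q → hM M (Xf q c w) ≤ ENNReal.ofReal (Hd q c kv kf ke w / dX q c w)) := by
  induction M with
  | zero =>
    refine ⟨fun w _ _ => ?_, fun w _ _ => ?_⟩
    · rw [hT.n0]; exact zero_le
    · rw [hT.h0]; exact zero_le
  | succ M ih =>
    refine ⟨fun w h0 h1 => ?_, fun w h0 h1 => ?_⟩
    · refine (hT.en M w h0 h1).trans ?_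
      rw [sol_n hq hqc hc hkv hkf hke h0 h1]
      gcongr
      exact ih.2 w h0 h1
    · refine (hT.eh M w h0 h1).trans ?_
      rw [sol_h hq hqc hc hkv hkf hke h0 h1]
      gcongr
      exact ih.1 (q * w) (mul_pos hq h0) (by nlinarith)

end PGa

end

section
/-! # Module INT2 -/

namespace PGa
open scoped ENNReal

variable {q c kv kf ke w : ℝ} {n h : ℝ → ℝ≥0∞} {nM hM : ℕ → ℝ → ℝ≥0∞}

/-- the primitive -/
noncomputable def INT2_P (q c kv kf ke w : ℝ) : ℝ := kv * Nv c w + kf * Nf q c w + ke * Ne q c w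

theorem INT2_hasDerivAt (hq : 0 < q) (hqc : q < c) (hc : c < 1) (h0 : 0 ≤ w) (h1 : w < c) :
    HasDerivAt (INT2_P q c kv kf ke) (Nd q c kv kf ke w) w := by
  have a1 := (hasDerivAt_Nv (w := w) hc h1).const_mul kv
  have a2 := (hasDerivAt_Nf (w := w) hq hqc hc h0 (by linarith)).const_mul kf
  have a3 := (hasDerivAt_Ne (q := q) (w := w) h1).const_mul ke
  exact (a1.add a2).add a3

theorem INT2_val (hq : 0 < q) (hqc : q < c) (hc : c < 1) :
    INT2_P q c kv kf ke (q * c) - INT2_P q c kv kf ke q =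
      kv * Real.log ((1 - uu q c * vv q c) / (1 - vv q c)) -
        kf * Real.log (1 - uu q c * vv q c) + ke / (1 - uu q c) := by
  have h1 := val_v hq hqc hc
  have h2 := val_f hq hqc hc
  have h3 := val_e hq hqc hc
  unfold INT2_P
  rw [← h1]
  have e2 : Real.log (1 - uu q c * vv q c) = -(Nf q c (q * c) - Nf q c q) := by
    rw [h2]
    ring
  have e3 : ke / (1 - uu q c) = ke * (Ne q c (q * c) - Ne q c q) := by
    rw [h3]
    ring
  rw [e2, e3]
  ring

/-- Module INT2: the integral of `n` over `(0, 1)`: `int_series` with `x = Zf`, `w1 = q c`,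
`w2 = q`, `val_v`, `val_f`, `val_e`. -/
theorem int_n (hq : 0 < q) (hqc : q < c) (hc : c < 1) (hkv : 0 ≤ kv) (hkf : 0 ≤ kf)
    (hke : 0 ≤ ke) (R : ℕ → ℝ≥0∞)
    (hR : ∀ w, 0 < w → w < q → ∑' δ, R δ * ENNReal.ofReal (Zf q c w) ^ δ =
      ENNReal.ofReal (Nd q c kv kf ke w / dZ q c w)) :
    ∑' δ : ℕ, R δ / ((δ : ℝ≥0∞) + 1) =
      ENNReal.ofReal (kv * Real.log ((1 - uu q c * vv q c) / (1 - vv q c)) -
        kf * Real.log (1 - uu q c * vv q c) + ke / (1 - uu q c)) := by
  have hc0 : 0 < c := by linarith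
  have hqc0 : 0 < q * c := mul_pos hq hc0
  have h12 : q * c < q := by nlinarith
  have hz : ∀ w, q * c ≤ w → w ≤ q → 0 ≤ w ∧ w < c := fun w h1 h2 => ⟨by linarith, by linarith⟩
  have h := int_series R (Zf q c) (dZ q c) (INT2_P q c kv kf ke) (Nd q c kv kf ke) (b := 1) h12
    (fun w hw => (hasDerivAt_Zf hq hqc hc (hz w hw.1 hw.2).1
      (hz w hw.1 hw.2).2).continuousAt.continuousWithinAt)
    (fun w hw => (INT2_hasDerivAt hq hqc hc (hz w hw.1 hw.2).1
      (hz w hw.1 hw.2).2).continuousAt.continuousWithinAt)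
    (fun w h1 h2 => hasDerivAt_Zf hq hqc hc (hz w h1.le h2.le).1 (hz w h1.le h2.le).2)
    (fun w h1 h2 => INT2_hasDerivAt hq hqc hc (hz w h1.le h2.le).1 (hz w h1.le h2.le).2)
    (fun w h1 h2 => dZ_neg hq hqc hc (hz w h1.le h2.le).1 (hz w h1.le h2.le).2)
    (Zf_qc hq hqc hc) (Zf_q q c)
    (fun w h1 h2 => Nd_nonpos hq hqc hc hkv hkf hke (hz w h1.le h2.le).1 (hz w h1.le h2.le).2)
    (fun w h1 h2 => hR w (by linarith) h2)
  rw [INT2_val hq hqc hc] at h
  rw [← h]
  simp

/-- Module INT3: `∫_0^E h (1 + ζ) dζ`: `int_series` with `x = Xf - 1`, `w1 = q c`, `w2 = q`,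
`P w = kv Nv + kf Nf + ke Ne - kv log (Xf w) - ke Zf w` (`Nd_eq`), `EE_eq`, `Zf_q`, `Zf_qc`. -/
theorem int_h (hq : 0 < q) (hqc : q < c) (hc : c < 1) (hkv : 0 ≤ kv) (hkf : 0 ≤ kf)
    (hke : 0 ≤ ke) (R : ℕ → ℝ≥0∞)
    (hR : ∀ w, 0 < w → w < q → ∑' δ, R δ * ENNReal.ofReal (Xf q c w - 1) ^ δ =
      ENNReal.ofReal (Hd q c kv kf ke w / dX q c w)) :
    ∑' δ : ℕ, R δ * ENNReal.ofReal (EE q c) ^ (δ + 1) / ((δ : ℝ≥0∞) + 1) =
      ENNReal.ofReal (kv * Real.log ((1 - uu q c * vv q c) / (1 - vv q c)) -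
        kf * Real.log (1 - uu q c * vv q c) + ke / (1 - uu q c) -
        kv * Real.log (1 + EE q c) - ke) := by
  have hc0 : 0 < c := by linarith
  have hqc0 : 0 < q * c := mul_pos hq hc0
  have h12 : q * c < q := by nlinarith
  have hz : ∀ w, q * c ≤ w → w ≤ q → 0 ≤ w ∧ w < c := fun w h1 h2 => ⟨by linarith, by linarith⟩
  have hP : ∀ w, 0 ≤ w → w < c → HasDerivAt
      (fun w => INT2_P q c kv kf ke w - kv * Real.log (Xf q c w) - ke * Zf q c w)
      (Hd q c kv kf ke w) w := by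
    intro w h0 h1
    have a1 := INT2_hasDerivAt (kv := kv) (kf := kf) (ke := ke) hq hqc hc h0 h1
    have a2 := ((hasDerivAt_Xf hq hqc hc h0 (by linarith)).log
      (Xf_pos hq hqc hc h0 h1).ne').const_mul kv
    have a3 := (hasDerivAt_Zf hq hqc hc h0 h1).const_mul ke
    have a4 := (a1.sub a2).sub a3
    have e := Nd_eq (kv := kv) (kf := kf) (ke := ke) hq hqc hc h0 h1
    have e2 : Nd q c kv kf ke w - kv * (dX q c w / Xf q c w) - ke * dZ q c w =
        Hd q c kv kf ke w := by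
      rw [e]
      ring
    rw [e2] at a4
    exact a4
  have hX : ∀ w, 0 ≤ w → w < c → HasDerivAt (fun w => Xf q c w - 1) (dX q c w) w :=
    fun w h0 h1 => (hasDerivAt_Xf hq hqc hc h0 (by linarith)).sub_const 1
  have h := int_series R (fun w => Xf q c w - 1) (dX q c)
    (fun w => INT2_P q c kv kf ke w - kv * Real.log (Xf q c w) - ke * Zf q c w)
    (Hd q c kv kf ke) (b := EE q c) h12
    (fun w hw => (hX w (hz w hw.1 hw.2).1 (hz w hw.1 hw.2).2).continuousAt.continuousWithinAt)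
    (fun w hw => (hP w (hz w hw.1 hw.2).1 (hz w hw.1 hw.2).2).continuousAt.continuousWithinAt)
    (fun w h1 h2 => hX w (hz w h1.le h2.le).1 (hz w h1.le h2.le).2)
    (fun w h1 h2 => hP w (hz w h1.le h2.le).1 (hz w h1.le h2.le).2)
    (fun w h1 h2 => dX_neg hq hqc hc (hz w h1.le h2.le).1 (by linarith))
    (by rw [EE_eq hq hqc hc]; ring) (by rw [Xf_q hq hqc hc]; ring)
    (fun w h1 h2 => Hd_nonpos hq hqc hc hkv hkf hke (hz w h1.le h2.le).1 (hz w h1.le h2.le).2)
    (fun w h1 h2 => hR w (by linarith) h2)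
  rw [h]
  congr 1
  have e := INT2_val (kv := kv) (kf := kf) (ke := ke) hq hqc hc
  rw [← e, EE_eq hq hqc hc, Xf_q hq hqc hc, Zf_qc hq hqc hc, Zf_q, Real.log_one]
  ring

end PGa

end

section
/-! # Module ValT: weights of symmetric maps, root edge on the axis -/

set_option linter.unusedSectionVars false

namespace PGr
open Equiv Finset
open scoped ENNReal

/-! ### the two symmetries of bonds -/

/-- the reflection of the bond with two nonroot edges -/
def ValT_psi : Perm ((Bool × Bool) ⊕ Bool) :=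
  Perm.sumCongr (Equiv.prodCongr Equiv.boolNot (Equiv.refl Bool)) (Equiv.refl Bool)

theorem ValT_psi_inl (i b : Bool) : ValT_psi (Sum.inl (i, b)) = Sum.inl (!i, b) := rfl

def ValT_s : Perm ((Bool × Bool) ⊕ Bool) := (ddCore tri).s

theorem ValT_rot : ∀ t : (Bool × Bool) ⊕ Bool,
    ValT_s (ValT_psi (ValT_s t)) = ValT_psi t := by
  decide

theorem ValT_aa : ∀ t : (Bool × Bool) ⊕ Bool,
      ValT_psi (ext (Equiv.prodCongr (Equiv.refl Bool) Equiv.boolNot) t) =
        ext (Equiv.prodCongr (Equiv.refl Bool) Equiv.boolNot) (ValT_psi t) := by decide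

theorem ValT_tw : TwI true false (ddCore tri).toB (ddCore tri).toB ValT_psi where
  aa := ValT_aa
  rot t := by
    rw [twS_true, Perm.eq_inv_iff_eq]
    exact ValT_rot t
  root b := by cases b <;> rfl

theorem ValT_card : (univ.filter fun t : (Bool × Bool) ⊕ Bool => ValT_psi t = ValT_s t).card = 2 := by
  decide

theorem ValT_nBi : nBi (ddCore tri).toB ValT_psi = 2 := ValT_card

/-- the exchange of the first and the third edge -/
def ValT_psi3 : Perm ((Fin 3 × Bool) ⊕ Bool) :=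
  Perm.sumCongr (Equiv.prodCongr (swap 0 2) (Equiv.refl Bool)) (Equiv.refl Bool)

def ValT_s3 : Perm ((Fin 3 × Bool) ⊕ Bool) := (ddCore quad).s

theorem ValT_rot3 : ∀ t : (Fin 3 × Bool) ⊕ Bool,
    ValT_s3 (ValT_psi3 (ValT_s3 t)) = ValT_psi3 t := by
  decide

theorem ValT_aa3 : ∀ t : (Fin 3 × Bool) ⊕ Bool,
      ValT_psi3 (ext (Equiv.prodCongr (Equiv.refl (Fin 3)) Equiv.boolNot) t) =
        ext (Equiv.prodCongr (Equiv.refl (Fin 3)) Equiv.boolNot) (ValT_psi3 t) := by decide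

theorem ValT_tw3 : TwI true false (ddCore quad).toB (ddCore quad).toB ValT_psi3 where
  aa := ValT_aa3
  rot t := by
    rw [twS_true, Perm.eq_inv_iff_eq]
    exact ValT_rot3 t
  root b := by cases b <;> rfl

theorem ValT_nb3 : ∀ t : (Fin 3 × Bool) ⊕ Bool, ¬ (ValT_psi3 t = ValT_s3 t) := by
  decide

theorem ValT_nBi3 : nBi (ddCore quad).toB ValT_psi3 = 0 := by
  unfold nBi
  rw [card_eq_zero, filter_eq_empty_iff]
  intro t _
  exact ValT_nb3 t

theorem ValT_p0 (b : Bool) : ValT_psi3 (Sum.inl ((0 : Fin 3), b)) = Sum.inl ((2 : Fin 3), b) := by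
  revert b; decide
theorem ValT_p1 (b : Bool) : ValT_psi3 (Sum.inl ((1 : Fin 3), b)) = Sum.inl ((1 : Fin 3), b) := by
  revert b; decide
theorem ValT_p2 (b : Bool) : ValT_psi3 (Sum.inl ((2 : Fin 3), b)) = Sum.inl ((0 : Fin 3), b) := by
  revert b; decide

/-! ### the nets -/

/-- the nets of a bond -/
def ValT_N (A B : GB) : (ddCore tri).I → GB := serNets A B
def ValT_N3 (A K B : GB) : (ddCore quad).I → GB := nets3 A K B

theorem ValT_ctw {A B : GB} {φ : A.1.T ≃ B.1.T} (hφ : TwI true false A.1 B.1 φ) :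
    ∃ e, CTw true false (ddCore tri) (ddCore tri) (ValT_N A B) (ValT_N A B) ValT_psi e := by
  refine ctw_mk (C := ddCore tri) (C' := ddCore tri) ValT_tw ?_
  intro (i : Bool) b₁ (i' : Bool) b' h
  have h1 : (Sum.inl (!i, b₁) : (Bool × Bool) ⊕ Bool) = Sum.inl (i', b') := h
  obtain ⟨h2, h3⟩ := Prod.mk.inj (Sum.inl.inj h1)
  subst h2
  subst h3
  have hx : xor b₁ b₁ = false := by cases b₁ <;> rfl
  rw [hx]
  cases i
  · exact ⟨φ.symm, hφ.symm⟩
  · exact ⟨φ, hφ⟩

theorem ValT_ctw3 {A K B : GB} {φ : A.1.T ≃ B.1.T} (hφ : TwI true false A.1 B.1 φ)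
    {χ : Perm K.1.T} (hχ : TwI true false K.1 K.1 χ) :
    ∃ e, CTw true false (ddCore quad) (ddCore quad) (ValT_N3 A K B) (ValT_N3 A K B) ValT_psi3 e := by
  refine ctw_mk (C := ddCore quad) (C' := ddCore quad) ValT_tw3 ?_
  intro (i : Fin 3) b₁ (i' : Fin 3) b' h
  have hx : xor b₁ b₁ = false := by cases b₁ <;> rfl
  fin_cases i
  · have h1 : (Sum.inl ((2 : Fin 3), b₁) : (Fin 3 × Bool) ⊕ Bool) = Sum.inl (i', b') :=
      (ValT_p0 b₁).symm.trans h
    obtain ⟨h2, h3⟩ := Prod.mk.inj (Sum.inl.inj h1)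
    subst h2
    subst h3
    rw [hx]
    exact ⟨φ, hφ⟩
  · have h1 : (Sum.inl ((1 : Fin 3), b₁) : (Fin 3 × Bool) ⊕ Bool) = Sum.inl (i', b') :=
      (ValT_p1 b₁).symm.trans h
    obtain ⟨h2, h3⟩ := Prod.mk.inj (Sum.inl.inj h1)
    subst h2
    subst h3
    rw [hx]
    exact ⟨χ, hχ⟩
  · have h1 : (Sum.inl ((0 : Fin 3), b₁) : (Fin 3 × Bool) ⊕ Bool) = Sum.inl (i', b') :=
      (ValT_p2 b₁).symm.trans h
    obtain ⟨h2, h3⟩ := Prod.mk.inj (Sum.inl.inj h1)
    subst h2
    subst h3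
    rw [hx]
    exact ⟨φ.symm, hφ.symm⟩

theorem ValT_ctws {A B : GB} {φ : Perm A.1.T} (hφ : TwI true false A.1 A.1 φ) {χ : Perm B.1.T}
    (hχ : TwI true false B.1 B.1 χ) :
    ∃ e, CTw true false tri tri (serNets A B) (serNets A B) (Equiv.refl _) e := by
  have ht : TwI true false tri.toB tri.toB (Equiv.refl _) := by
    refine ⟨fun _ => rfl, fun t => ?_, fun b => ?_⟩
    · exact (Perm.eq_inv_iff_eq (f := tri.s)).2 (TriProps_s_sq t)
    · cases b <;> rfl
  refine ctw_mk ht ?_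
  intro (i : Bool) b₁ (i' : Bool) b' h
  have h1 : (Sum.inl (i, b₁) : (Bool × Bool) ⊕ Bool) = Sum.inl (i', b') := h
  obtain ⟨h2, h3⟩ := Prod.mk.inj (Sum.inl.inj h1)
  subst h2
  subst h3
  have hx : xor b₁ b₁ = false := by cases b₁ <;> rfl
  rw [hx]
  cases i
  · exact ⟨χ, hχ⟩
  · exact ⟨φ, hφ⟩

/-- the dart before the root dart of a composite -/
theorem ValT_last {C : Core} (N : C.I → GB) {x : C.toB.T} (hx : C.s x = Sum.inr true) :
    (comp C N).s⁻¹ (Sum.inr true) = CompInj.L N x := by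
  rw [Perm.inv_eq_iff_eq]
  have h1 := CompInj.s_L N x
  rw [hx] at h1
  exact h1.symm

theorem ValT_digsym : twC true false digC = digC := by
  unfold digC
  rw [twC_cl, cl_eq_iff]
  refine TwI_iff.1 ⟨Equiv.refl _, fun _ => rfl, fun t => ?_, fun b => ?_⟩
  · rw [twS_true]
    show digonB.s t = digonB.s⁻¹ t
    rw [Perm.eq_inv_iff_eq]
    rcases t with t | t <;> rfl
  · cases b <;> rfl

theorem ValT_dig_card (k : GC) : k = digC ↔ Fintype.card k.rep.1.D = 2 := by
  constructor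
  · rintro rfl
    exact (ESum.rep_iso ⟨digonB, digon_good⟩).card_eq.trans rfl
  · intro h
    exact ESum.eq_of_iso ((eq_digon k.rep.2 (by omega)).trans
      (ESum.rep_iso ⟨digonB, digon_good⟩).symm)

open scoped Classical

/-- the reflection fixes both nonroot darts -/
theorem swX_dig (w : Wt) : swX w digC.rep.1 = 0 := by
  refine (swX_iso w (ESum.rep_iso ⟨digonB, digon_good⟩)).trans ?_
  unfold swX
  refine Finset.sum_eq_zero fun e _ => if_neg ?_
  rintro ⟨h, -, hne⟩
  apply hne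
  have h1 : digonB.s⁻¹ (Sum.inr true) = Sum.inl true := by
    exact (Perm.inv_eq_iff_eq (f := digonB.s)).2 rfl
  have h2 := h.rot (Sum.inr true)
  have h3 : e (Sum.inr true) = Sum.inr true := h.root true
  rw [h3, twS_true] at h2
  have h4 : digonB.s (Sum.inr true) = Sum.inl true := rfl
  have h5 : e (Sum.inl true) = Sum.inl true := (congrArg e h4).symm.trans (h2.trans h1)
  exact (congrArg e h1).trans (h5.trans h1.symm)

/-- If the map is symmetric then `a`, `b` are symmetric (`twC_serC_false`, `serC_inj`), `ctw_mk` with the core `tri` and `ψ = 1` gives the reflection, `ser_arc` -/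
theorem swX_ser (w : Wt) {a : GC} (ha : ¬ IsSer a.rep.1) (b : GC) :
    swX w (serC a b).rep.1 = 0 := by
  by_cases hs : twC true false (serC a b) = serC a b
  · rw [twC_serC_false] at hs
    obtain ⟨h1, h2⟩ := serC_inj (fun h => ha ((isSer_twC true false a).1 h)) ha hs
    obtain ⟨φ, hφ⟩ := (sym_iff false a).2 h1
    obtain ⟨χ, hχ⟩ := (sym_iff false b).2 h2
    obtain ⟨e, he⟩ := ValT_ctws hφ hχ
    have hiso : BIso (serC a b).rep.1 (comp tri (serNets a.rep b.rep)) :=
      ESum.rep_iso ⟨serMap a.rep b.rep, serMap_good _ _⟩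
    have hgd : (comp tri (serNets a.rep b.rep)).IsGood := comp_good _ _ tri_good
    rw [swX_iso w hiso, swX_of w hgd he.tw, if_neg]
    rintro ⟨h3, h4⟩
    exact h4 (ser_arc he (fun _ _ => rfl) h3)
  · exact swX_none w fun h => hs ((sym_iff false (serC a b)).1 h)

/-- `par_bond`, `ctw_mk` with the core `ddCore tri`, `ψ (inl (i, b)) = inl (!i, b)`, `ψ (inr b) = inr b`: two bisected corners (the corners between the two parts), `nV = 2`,
`ared_bond_arc`; the dart before the root dart is in the second part, `e` maps it to the first part. -/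
theorem swX_par2 (w : Wt) {a : GC} (ha : ¬ IsPar a.rep.1) :
    swX w (parC a (twC true false a)).rep.1 = w.bi ^ 2 * hW w a.rep.1 ^ 2 := by
  obtain ⟨b, hb⟩ : ∃ b, b = twC true false a := ⟨_, rfl⟩
  rw [← hb]
  obtain ⟨φ, hφ⟩ := twC_eq_iff.1 hb.symm
  have hiso : BIso (parC a b).rep.1 (comp (ddCore tri) (ValT_N a.rep b.rep)) :=
    ((ESum.rep_iso ⟨parMap a.rep b.rep, parMap_good _ _⟩)).trans (par_bond a.rep b.rep)
  rw [swX_iso w hiso]
  obtain ⟨e, he⟩ := ValT_ctw hφ
  have hgd : (comp (ddCore tri) (ValT_N a.rep b.rep)).IsGood :=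
    comp_good _ _ (dd_good tri_good)
  have hA : ARed (comp (ddCore tri) (ValT_N a.rep b.rep)) e :=
    ared_bond_arc ha he ValT_psi_inl
  have hne : e ((comp (ddCore tri) (ValT_N a.rep b.rep)).s⁻¹ (Sum.inr true)) ≠
      (comp (ddCore tri) (ValT_N a.rep b.rep)).s⁻¹ (Sum.inr true) := by
    have h1 : (ddCore tri).s (Sum.inl ((false : Bool), true)) = Sum.inr true := by
      have : ValT_s (Sum.inl (false, true)) = Sum.inr true := by decide
      exact this
    have h2 := ValT_last (C := ddCore tri) (ValT_N a.rep b.rep) h1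
    rw [h2]
    intro h3
    have h4 := congrArg (partOf (ddCore tri) (ValT_N a.rep b.rep))
      ((he.L_J (Sum.inl ((false : Bool), true))).symm.trans h3)
    have h5 : (some true : Option Bool) = some false := h4
    simp at h5
  rw [swX_of w hgd he.tw, if_pos ⟨hA, hne⟩, Vw_comp (dd_good tri_good) he w, ValT_nBi, bond_nV]
  have hpv : ∀ i : Bool, pv w (ddCore tri) ValT_psi i (ValT_N a.rep b.rep i).1 =
      hW w (ValT_N a.rep b.rep i).1 := by
    intro i
    have h0 : ValT_psi (Sum.inl (i, true)) = Sum.inl (!i, true) := rfl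
    have h1 : ¬ ValT_psi (Sum.inl (i, true)) = Sum.inl (i, true) := by
      rw [h0]; cases i <;> simp
    have h2 : ¬ ValT_psi (Sum.inl (i, true)) = Sum.inl (i, false) := by
      rw [h0]; cases i <;> simp
    exact (if_neg h1).trans (if_neg h2)
  have hprod : (∏ i : (ddCore tri).I, pv w (ddCore tri) ValT_psi i (ValT_N a.rep b.rep i).1) =
      hW w a.rep.1 ^ 2 := by
    have h1 : (∏ i : (ddCore tri).I, pv w (ddCore tri) ValT_psi i (ValT_N a.rep b.rep i).1) =
      pv w (ddCore tri) ValT_psi true (ValT_N a.rep b.rep true).1 *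
      pv w (ddCore tri) ValT_psi false (ValT_N a.rep b.rep false).1 :=
      Fintype.prod_bool (fun i : Bool => pv w (ddCore tri) ValT_psi i (ValT_N a.rep b.rep i).1)
    rw [h1, hpv, hpv]
    show hW w a.rep.1 * hW w b.rep.1 = _
    rw [hb, hW_twC, sq]
  rw [hprod]
  simp

/-- If `k` is not symmetric (`twC true false`), both sides are 0 (a map with two nonroot darts is the digon, which is symmetric).  Otherwise `par_bond3`, `ctw_mk`, `ared_bond3_arc`; no
bisected corners; if `k` has two darts its factor is `sv_two`. -/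
theorem swX_par3 (w : Wt) {a : GC} (ha : ¬ IsPar a.rep.1) (k : GC) :
    swX w (parC a (parC k (twC true false a))).rep.1 =
      if k = digC then w.ax ^ 2 * w.dt ^ 2 * hW w a.rep.1 ^ 2 else 0 := by
  obtain ⟨b, hb⟩ : ∃ b, b = twC true false a := ⟨_, rfl⟩
  obtain ⟨φ, hφ⟩ := twC_eq_iff.1 hb.symm
  have hz : ¬ IsPar (twC true false a).rep.1 := fun h => ha ((isPar_twC true false a).1 h)
  by_cases hk : twC true false k = k
  · obtain ⟨χ, hχ⟩ := (sym_iff false k).2 hk
    rw [← hb]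
    have hiso : BIso (parC a (parC k b)).rep.1 (comp (ddCore quad) (ValT_N3 a.rep k.rep b.rep)) := by
      have h1 : BIso (parC a (parC k b)).rep.1 (parMap a.rep (parC k b).rep) :=
        ESum.rep_iso ⟨parMap a.rep (parC k b).rep, parMap_good _ _⟩
      have h2 : BIso (parC k b).rep.1 (parMap k.rep b.rep) :=
        ESum.rep_iso ⟨parMap k.rep b.rep, parMap_good _ _⟩
      have h3 : BIso (parMap a.rep (parC k b).rep)
          (parMap a.rep ⟨parMap k.rep b.rep, parMap_good _ _⟩) :=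
        (serMap_iso (N₁ := a.rep.dual) (N₂ := (parC k b).rep.dual) (N₁' := a.rep.dual)
          (N₂' := GB.dual ⟨parMap k.rep b.rep, parMap_good _ _⟩) (BIso.refl _) h2.dual).dual
      exact (h1.trans h3).trans (par_bond3 a.rep k.rep b.rep)
    rw [swX_iso w hiso]
    obtain ⟨e, he⟩ := ValT_ctw3 hφ hχ
    have hq := dd_good quad_good
    have hgd : (comp (ddCore quad) (ValT_N3 a.rep k.rep b.rep)).IsGood := comp_good _ _ hq
    have hA : ARed (comp (ddCore quad) (ValT_N3 a.rep k.rep b.rep)) e ↔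
        Fintype.card k.rep.1.D = 2 :=
      ared_bond3_arc ha he ValT_p0 ValT_p1 ValT_p2
    rw [swX_of w hgd he.tw]
    by_cases h2 : Fintype.card k.rep.1.D = 2
    · have hne : e ((comp (ddCore quad) (ValT_N3 a.rep k.rep b.rep)).s⁻¹ (Sum.inr true)) ≠
          (comp (ddCore quad) (ValT_N3 a.rep k.rep b.rep)).s⁻¹ (Sum.inr true) := by
        have h1 : (ddCore quad).s (Sum.inl ((2 : Fin 3), true)) = Sum.inr true := by
          have : ValT_s3 (Sum.inl (2, true)) = Sum.inr true := by decide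
          exact this
        have h2 := ValT_last (C := ddCore quad) (ValT_N3 a.rep k.rep b.rep) h1
        rw [h2]
        intro h3
        have h4 := congrArg (partOf (ddCore quad) (ValT_N3 a.rep k.rep b.rep))
          ((he.L_J (Sum.inl ((2 : Fin 3), true))).symm.trans h3)
        have h6 : CompInj.J (ValT_N3 a.rep k.rep b.rep) (ValT_psi3 (Sum.inl ((2 : Fin 3), true))) =
            CompInj.J (ValT_N3 a.rep k.rep b.rep) (Sum.inl ((0 : Fin 3), true)) :=
          congrArg _ (ValT_p2 true)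
        have h5 : (some 0 : Option (Fin 3)) = some 2 :=
          (congrArg (partOf (ddCore quad) (ValT_N3 a.rep k.rep b.rep)) h6).symm.trans h4
        simp at h5
      rw [if_pos ⟨hA.2 h2, hne⟩, if_pos ((ValT_dig_card k).2 h2), Vw_comp hq he w, ValT_nBi3,
        bond3_nV]
      have hp0 : pv w (ddCore quad) ValT_psi3 (0 : Fin 3) (ValT_N3 a.rep k.rep b.rep (0 : Fin 3)).1 =
          hW w a.rep.1 := by
        have h1 : ¬ ValT_psi3 (Sum.inl ((0 : Fin 3), true)) = Sum.inl ((0 : Fin 3), true) := by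
          rw [ValT_p0]; simp
        have h2 : ¬ ValT_psi3 (Sum.inl ((0 : Fin 3), true)) = Sum.inl ((0 : Fin 3), false) := by
          rw [ValT_p0]; simp
        exact (if_neg h1).trans (if_neg h2)
      have hp1 : pv w (ddCore quad) ValT_psi3 (1 : Fin 3) (ValT_N3 a.rep k.rep b.rep (1 : Fin 3)).1 =
          sv w false k.rep.1 := if_pos (ValT_p1 true)
      have hp2 : pv w (ddCore quad) ValT_psi3 (2 : Fin 3) (ValT_N3 a.rep k.rep b.rep (2 : Fin 3)).1 =
          hW w b.rep.1 := by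
        have h1 : ¬ ValT_psi3 (Sum.inl ((2 : Fin 3), true)) = Sum.inl ((2 : Fin 3), true) := by
          rw [ValT_p2]; simp
        have h2 : ¬ ValT_psi3 (Sum.inl ((2 : Fin 3), true)) = Sum.inl ((2 : Fin 3), false) := by
          rw [ValT_p2]; simp
        exact (if_neg h1).trans (if_neg h2)
      have hprod : (∏ i : (ddCore quad).I,
          pv w (ddCore quad) ValT_psi3 i (ValT_N3 a.rep k.rep b.rep i).1) =
          hW w a.rep.1 * (w.ax ^ 2 * w.dt ^ 2) * hW w b.rep.1 := by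
        have h1 : (∏ i : (ddCore quad).I,
            pv w (ddCore quad) ValT_psi3 i (ValT_N3 a.rep k.rep b.rep i).1) =
          pv w (ddCore quad) ValT_psi3 (0 : Fin 3) (ValT_N3 a.rep k.rep b.rep (0 : Fin 3)).1 *
          pv w (ddCore quad) ValT_psi3 (1 : Fin 3) (ValT_N3 a.rep k.rep b.rep (1 : Fin 3)).1 *
          pv w (ddCore quad) ValT_psi3 (2 : Fin 3) (ValT_N3 a.rep k.rep b.rep (2 : Fin 3)).1 :=
          Fin.prod_univ_three
            (fun i : Fin 3 => pv w (ddCore quad) ValT_psi3 i (ValT_N3 a.rep k.rep b.rep i).1)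
        rw [h1, hp0, hp1, hp2, sv_two w k.rep.2 h2]
      rw [hprod, hb, hW_twC]
      ring
    · rw [if_neg (fun h => h2 (hA.1 h.1)), if_neg (fun h => h2 ((ValT_dig_card k).1 h))]
  · have hkd : k ≠ digC := by
      rintro rfl
      exact hk ValT_digsym
    rw [if_neg hkd]
    refine swX_none w fun h => ?_
    have h1 := (sym_iff false (parC a (parC k (twC true false a)))).1 h
    rcases sym_par (m := true) ha h1 with h2 | ⟨k', h2, h3⟩
    · apply hz
      have h3 : parC k (twC true false a) = twC true false a := h2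
      rw [← h3]
      exact isPar_parC _ _
    · have h4 : parC k (twC true false a) = parC k' (twC true false a) := h3
      have h5 := parC_right_inj hz h4
      subst h5
      exact hk h2

end PGr

end

section
/-! # Module DOne: the equations for the reduced maps with root edge crossing or on the axis -/

set_option linter.unusedSectionVars false

namespace PGr
open Equiv Finset
open scoped ENNReal Classical

/-- a sum over `b` which is supported at `z` and at the `f k` -/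
theorem DOne_split {α : Type*} (g : α → ℝ≥0∞) (z : α) (f : α → α) (hf : Function.Injective f)
    (hz : ∀ k, z ≠ f k) (h0 : ∀ b, b ≠ z → (∀ k, b ≠ f k) → g b = 0) :
    ∑' b, g b = g z + ∑' k, g (f k) := by
  have h2 : ∀ b, g b = (if b = z then g b else 0) + ∑' k, if b = f k then g b else 0 := by
    intro b
    by_cases h3 : b = z
    · rw [if_pos h3, ENNReal.tsum_eq_zero.2, add_zero]
      intro k
      rw [if_neg]
      intro h
      exact hz k (h3 ▸ h)
    · rw [if_neg h3, zero_add]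
      by_cases h4 : ∃ k, b = f k
      · obtain ⟨k, hk⟩ := h4
        rw [tsum_eq_single k, if_pos hk]
        intro k' hk'
        rw [if_neg]
        intro h
        exact hk' (hf (h ▸ hk)).symm.symm
      · push Not at h4
        rw [h0 b h3 h4]
        simp
  rw [tsum_congr h2, ENNReal.tsum_add, ENNReal.tsum_comm]
  congr 1
  · rw [tsum_eq_single z]
    · rw [if_pos rfl]
    · intro b hb
      rw [if_neg hb]
  · refine tsum_congr fun k => ?_
    rw [tsum_eq_single (f k)]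
    · rw [if_pos rfl]
    · intro b hb
      rw [if_neg hb]

/-- `ser_sum`.  For fixed `a` (not series) the term of `b` is 0 unless `b = twC true true a` or `b = serC k (twC true true a)` (`sw_none`, `sym_iff`, `sym_ser`); the first is not series, the second is
series, and `k ↦ serC k (twC true true a)` is injective (`serC_right_inj`); `sw_ser2`, `sw_ser3`, `Esel_hW` -/
theorem EC_ser (w : Wt) : (∑' x : GC, if IsSer x.rep.1 then sw w true x.rep.1 else 0) =
    fN w * (w.bi ^ 2 * w.vx + w.vx ^ 2 * EC w) := by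
  rw [ser_sum (fun x => sw w true x.rep.1)]
  have h1 : ∀ a : GC, (∑' b : GC, if ¬ IsSer a.rep.1 then sw w true (serC a b).rep.1 else 0) =
      (if ¬ IsSer a.rep.1 then hW w a.rep.1 ^ 2 else 0) * (w.bi ^ 2 * w.vx + w.vx ^ 2 * EC w) := by
    intro a
    by_cases ha : IsSer a.rep.1
    · simp [ha]
    · simp only [ha, not_false_eq_true, if_true]
      have hzs : ¬ IsSer (twC true true a).rep.1 := by rw [isSer_twC]; exact ha
      rw [DOne_split (fun b => sw w true (serC a b).rep.1) (twC true true a)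
        (fun k => serC k (twC true true a)) (fun k k' h => serC_right_inj hzs h)
        (fun k h => hzs (by rw [h]; exact isSer_serC _ _))]
      · rw [sw_ser2]
        have h3 : ∀ k : GC, sw w true (serC a (serC k (twC true true a))).rep.1 =
            w.vx ^ 2 * hW w a.rep.1 ^ 2 * sw w true k.rep.1 := fun k => sw_ser3 w ha k
        rw [tsum_congr h3, ENNReal.tsum_mul_left]
        unfold EC
        ring
      · intro b hb hb'
        apply sw_none
        rw [sym_iff]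
        intro h
        rcases sym_ser ha h with h | ⟨k, -, h⟩
        · exact hb h
        · exact hb' k h
  rw [tsum_congr h1, ENNReal.tsum_mul_right]
  congr 1
  unfold fN
  rw [Esel_hW]
  refine tsum_congr fun x => ?_
  by_cases h : IsSer x.rep.1
  · simp [h]
  · simp [h]

/-- `par_sum`, `sw_par` -/
theorem EC_par (w : Wt) : (∑' x : GC, if IsPar x.rep.1 then sw w true x.rep.1 else 0) =
    NpC w * EC w := by
  rw [par_sum (fun x => sw w true x.rep.1)]
  have h1 : ∀ a : GC, (∑' b : GC, if ¬ IsPar a.rep.1 then sw w true (parC a b).rep.1 else 0) =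
      (if ¬ IsPar a.rep.1 then sw w true a.rep.1 else 0) * EC w := by
    intro a
    by_cases ha : IsPar a.rep.1
    · simp [ha]
    · simp only [ha, not_false_eq_true, if_true]
      rw [tsum_congr (fun b => sw_par w ha b), ENNReal.tsum_mul_left]
      rfl
  rw [tsum_congr h1, ENNReal.tsum_mul_right]
  rfl

theorem NpC_add (w : Wt) : NpC w + NpC w * EC w = EC w := by
  rw [← EC_par]
  unfold NpC EC
  rw [← ENNReal.tsum_add]
  refine tsum_congr fun x => ?_
  by_cases h : IsPar x.rep.1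
  · simp [h]
  · simp [h]

theorem NsC_add (w : Wt) : NsC w + fN w * (w.bi ^ 2 * w.vx + w.vx ^ 2 * EC w) = EC w := by
  rw [← EC_ser]
  unfold NsC EC
  rw [← ENNReal.tsum_add]
  refine tsum_congr fun x => ?_
  by_cases h : IsSer x.rep.1
  · simp [h]
  · simp [h]

/-- `sum_types`, `sw_dig_true`, `rig_total` -/
theorem EC_eq (w : Wt) : EC w = w.cr ^ 2 * w.dt ^ 2 + fN w * (w.bi ^ 2 * w.vx + w.vx ^ 2 * EC w) +
    NpC w * EC w + RigS w true (EC w) := by
  rw [← EC_ser, ← EC_par, ← rig_total, ← sw_dig_true]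
  exact sum_types (fun x => sw w true x.rep.1)

/-- `sum_types`, `swX_dig`, `swX_ser`, `swX_par2`, `swX_par3` (with `sym_par`, `parC_right_inj`), `rig_total_X` -/
theorem X_eq (w : Wt) : ∑' x : GC, swX w x.rep.1 =
    fP w * (w.bi ^ 2 + w.ax ^ 2 * w.dt ^ 2) + RigS w false (EC w) := by
  rw [sum_types (fun x => swX w x.rep.1), swX_dig, zero_add, ser_sum (fun x => swX w x.rep.1),
    par_sum (fun x => swX w x.rep.1), rig_total_X]
  have h0 : (∑' a : GC, ∑' b : GC, if ¬ IsSer a.rep.1 then swX w (serC a b).rep.1 else 0) = 0 := by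
    rw [ENNReal.tsum_eq_zero]
    intro a
    rw [ENNReal.tsum_eq_zero]
    intro b
    by_cases ha : IsSer a.rep.1
    · simp [ha]
    · simp only [ha, not_false_eq_true, if_true]
      exact swX_ser w ha b
  rw [h0, zero_add]
  congr 1
  have h1 : ∀ a : GC, (∑' b : GC, if ¬ IsPar a.rep.1 then swX w (parC a b).rep.1 else 0) =
      (if ¬ IsPar a.rep.1 then hW w a.rep.1 ^ 2 else 0) * (w.bi ^ 2 + w.ax ^ 2 * w.dt ^ 2) := by
    intro a
    by_cases ha : IsPar a.rep.1
    · simp [ha]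
    · simp only [ha, not_false_eq_true, if_true]
      have hzs : ¬ IsPar (twC true false a).rep.1 := by rw [isPar_twC]; exact ha
      rw [DOne_split (fun b => swX w (parC a b).rep.1) (twC true false a)
        (fun k => parC k (twC true false a)) (fun k k' h => parC_right_inj hzs h)
        (fun k h => hzs (by rw [h]; exact isPar_parC _ _))]
      · rw [swX_par2 w ha]
        have h3 : ∀ k : GC, swX w (parC a (parC k (twC true false a))).rep.1 =
            if k = digC then w.ax ^ 2 * w.dt ^ 2 * hW w a.rep.1 ^ 2 else 0 :=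
          fun k => swX_par3 w ha k
        rw [tsum_congr h3, tsum_ite_eq]
        ring
      · intro b hb hb'
        apply swX_none
        rw [sym_iff]
        intro h
        rcases sym_par (m := true) ha h with h | ⟨k, -, h⟩
        · exact hb h
        · exact hb' k h
  rw [tsum_congr h1, ENNReal.tsum_mul_right]
  congr 1
  unfold fP
  rw [Esel_hW]
  refine tsum_congr fun x => ?_
  by_cases h : IsPar x.rep.1
  · simp [h]
  · simp [h]

end PGr

end

section
/-! # Module RotSum: the rotations about the root vertex -/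

set_option linter.unusedSectionVars false

namespace PGr
open Equiv Finset
open scoped ENNReal Classical

/-- the rotation by `j` darts about the root vertex -/
def RotBy (M : BMap) (j : ℕ) (σ : Perm M.T) : Prop := SymM M true σ ((M.s ^ j) (Sum.inr true))

/-- a rotation commutes with the powers of the successor map -/
theorem RotSum_comm {M : BMap} {σ : Perm M.T} {t : M.T} (h : SymM M true σ t) (j : ℕ) (x : M.T) :
    σ ((M.s ^ j) x) = (M.s ^ j) (σ x) := by
  induction j with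
  | zero => simp
  | succ n ih =>
    rw [pow_succ', Perm.mul_apply, Perm.mul_apply, h.s, ih]
    simp

/-- `σ ^ i` maps the root dart to its `(i * j)`-th successor -/
theorem RotBy.pow {M : BMap} {j : ℕ} {σ : Perm M.T} (h : RotBy M j σ) (i : ℕ) :
    RotBy M (i * j) (σ ^ i) := by
  induction i with
  | zero => exact ⟨fun x => by simp, fun x => by simp, by simp⟩
  | succ n ih =>
    refine ⟨fun x => ?_, fun x => ?_, ?_⟩
    · rw [pow_succ', Perm.mul_apply, Perm.mul_apply, ih.a, h.a]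
    · rw [pow_succ', Perm.mul_apply, Perm.mul_apply, ih.s]
      simp only [if_true]
      rw [h.s]; simp
    · rw [pow_succ', Perm.mul_apply, ih.root, RotSum_comm h, h.root, add_mul, pow_add,
        Perm.mul_apply, one_mul]

theorem RotSum_mod (c : GC) (i : ℕ) :
    (c.rep.1.s ^ (i % c.rep.1.dg)) (Sum.inr true) = (c.rep.1.s ^ i) (Sum.inr true) := by
  have key : ∀ m : ℕ, (c.rep.1.s ^ (c.rep.1.dg * m)) (Sum.inr true : c.rep.1.T) = Sum.inr true := by
    intro m
    have h1 : Function.IsPeriodicPt (fun t => c.rep.1.s t) (c.rep.1.dg * m)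
        (Sum.inr true : c.rep.1.T) := (Function.isPeriodicPt_minimalPeriod _ _).mul_const m
    have h2 : (c.rep.1.s ^ (c.rep.1.dg * m)) (Sum.inr true : c.rep.1.T) =
        (fun t => c.rep.1.s t)^[c.rep.1.dg * m] (Sum.inr true) := by
      rw [← Perm.coe_pow]
    rw [h2]; exact h1
  conv_rhs => rw [← Nat.mod_add_div i c.rep.1.dg, pow_add, Perm.mul_apply, key]

theorem RotSum_eq_iff (c : GC) (i j : ℕ) :
    (c.rep.1.s ^ i) (Sum.inr true : c.rep.1.T) = (c.rep.1.s ^ j) (Sum.inr true) ↔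
      i ≡ j [MOD c.rep.1.dg] := by
  have hd := dg_pos c
  constructor
  · intro h
    rw [← RotSum_mod c i, ← RotSum_mod c j] at h
    exact root_pow_inj c (Nat.mod_lt _ hd) (Nat.mod_lt _ hd) h
  · intro h
    rw [← RotSum_mod c i, ← RotSum_mod c j, show i % c.rep.1.dg = j % c.rep.1.dg from h]

theorem RotSum_refl (c : GC) : RotBy c.rep.1 0 1 :=
  ⟨fun x => by simp, fun x => by simp, by simp⟩

theorem RotSum_eq {c : GC} {i j : ℕ} {σ τ : Perm c.rep.1.T} (h : RotBy c.rep.1 i σ)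
    (h' : RotBy c.rep.1 j τ) : σ = τ ↔ i ≡ j [MOD c.rep.1.dg] := by
  constructor
  · intro e
    rw [← RotSum_eq_iff, ← h.root, ← h'.root, e]
  · intro e
    rw [← RotSum_eq_iff] at e
    unfold RotBy at h h'
    rw [e] at h
    exact SymM.unique c.rep.2 h h'

theorem RotSum_order {c : GC} {j : ℕ} {σ : Perm c.rep.1.T} (h : RotBy c.rep.1 j σ) (i : ℕ) :
    σ ^ i = 1 ↔ c.rep.1.dg ∣ i * j := by
  rw [RotSum_eq (h.pow i) (RotSum_refl c), Nat.modEq_zero_iff_dvd]

/-- a rotation by `j` has order `dg / gcd dg j`; the rotation group is cyclic: if there is a rotation of order `k`,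
then `k ∣ dg`, there is a rotation `ρ` by `dg / k`, it has order `k`, and the rotations of order `k` are the `ρ ^ i` with `i < k`,
`i` coprime to `k` (`SymM.unique`) -/
theorem rot_order (c : GC) {σ : Perm c.rep.1.T} {t : c.rep.1.T}
    (ht : c.rep.1.s.SameCycle (Sum.inr true) t) (h : SymM c.rep.1 true σ t) :
    orderOf σ ∣ c.rep.1.dg ∧ ∃ ρ, RotBy c.rep.1 (c.rep.1.dg / orderOf σ) ρ ∧
      ∃ i, i < orderOf σ ∧ i.Coprime (orderOf σ) ∧ σ = ρ ^ i := by
  obtain ⟨m, hm, hmt⟩ := (root_pow c t).1 ht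
  have hr : RotBy c.rep.1 m σ := by
    unfold RotBy; rw [hmt]; exact h
  set d := c.rep.1.dg with hd
  have hdp : 0 < d := dg_pos c
  -- g = gcd d m
  have hgp : 0 < Nat.gcd d m := Nat.gcd_pos_of_pos_left _ hdp
  have hord : orderOf σ = d / Nat.gcd d m := by
    rw [orderOf_eq_iff (Nat.div_pos (Nat.le_of_dvd hdp (Nat.gcd_dvd_left d m)) hgp)]
    constructor
    · rw [RotSum_order hr]
      obtain ⟨u, hu⟩ := Nat.gcd_dvd_right d m
      refine ⟨u, ?_⟩
      calc d / Nat.gcd d m * m = d / Nat.gcd d m * (Nat.gcd d m * u) := by rw [← hu]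
        _ = d * u := by rw [← mul_assoc, Nat.div_mul_cancel (Nat.gcd_dvd_left d m)]
    · intro n hn hn0 hc
      rw [RotSum_order hr] at hc
      -- d ∣ n * m → d/g ∣ n
      have h1 : d / Nat.gcd d m ∣ n * (m / Nat.gcd d m) := by
        obtain ⟨u, hu⟩ := hc
        refine ⟨u, ?_⟩
        have e1 := Nat.div_mul_cancel (Nat.gcd_dvd_left d m)
        have e2 := Nat.div_mul_cancel (Nat.gcd_dvd_right d m)
        apply Nat.eq_of_mul_eq_mul_right hgp
        calc n * (m / Nat.gcd d m) * Nat.gcd d m = n * m := by rw [mul_assoc, e2]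
          _ = d * u := hu
          _ = d / Nat.gcd d m * u * Nat.gcd d m := by
            rw [mul_assoc, mul_comm u, ← mul_assoc, e1]
      have h2 : d / Nat.gcd d m ∣ n :=
        (Nat.coprime_div_gcd_div_gcd hgp).dvd_of_dvd_mul_right h1
      exact absurd (Nat.le_of_dvd hn0 h2) (not_le.2 hn)
  have hk : orderOf σ ∣ d := hord ▸ Nat.div_dvd_of_dvd (Nat.gcd_dvd_left d m)
  have hdk : d / orderOf σ = Nat.gcd d m := by
    rw [hord, Nat.div_div_self (Nat.gcd_dvd_left d m) hdp.ne']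
  refine ⟨hk, ?_⟩
  -- Bezout
  obtain ⟨u, hu⟩ : ∃ u : ℕ, u * m ≡ Nat.gcd d m [MOD d] := by
    have hb := Nat.gcd_eq_gcd_ab d m
    refine ⟨(Nat.gcdB d m % d).toNat, ?_⟩
    have h0 : (0 : ℤ) ≤ Nat.gcdB d m % d := Int.emod_nonneg _ (by exact_mod_cast hdp.ne')
    rw [← Int.natCast_modEq_iff]
    push_cast
    rw [Int.toNat_of_nonneg h0]
    have h1 : (Nat.gcdB d m % d) * (m : ℤ) ≡ Nat.gcdB d m * m [ZMOD d] :=
      (Int.mod_modEq _ _).mul_right _
    refine h1.trans ?_
    rw [hb]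
    have : (d : ℤ) * Nat.gcdA d m + m * Nat.gcdB d m ≡ 0 + m * Nat.gcdB d m [ZMOD d] := by
      apply Int.ModEq.add_right
      exact (Int.modEq_zero_iff_dvd).2 ⟨_, rfl⟩
    refine Int.ModEq.trans ?_ this.symm
    rw [zero_add, mul_comm]
  have hρ : RotBy c.rep.1 (u * m) (σ ^ u) := hr.pow u
  have hρ' : RotBy c.rep.1 (d / orderOf σ) (σ ^ u) := by
    have e := (RotSum_eq_iff c (u * m) (Nat.gcd d m)).2 hu
    unfold RotBy at hρ ⊢
    rw [hdk, ← e]; exact hρ
  refine ⟨σ ^ u, hρ', (m / Nat.gcd d m) % orderOf σ, ?_, ?_, ?_⟩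
  · apply Nat.mod_lt
    exact orderOf_pos σ
  · have h1 : Nat.Coprime (orderOf σ) (m / Nat.gcd d m) := by
      rw [hord]; exact Nat.coprime_div_gcd_div_gcd hgp
    have h2 : Nat.gcd ((m / Nat.gcd d m) % orderOf σ) (orderOf σ) = Nat.gcd (orderOf σ) (m / Nat.gcd d m) :=
      (Nat.gcd_rec _ _).symm
    unfold Nat.Coprime at h1 ⊢
    rw [h2, h1]
  · rw [RotSum_eq hr (hρ'.pow _)]
    -- (m/g % k) * g ≡ m mod d, d = k g
    have hkg : orderOf σ * Nat.gcd d m = d := by
      rw [hord]; exact Nat.div_mul_cancel (Nat.gcd_dvd_left d m)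
    rw [hdk]
    have h1 : (m / Nat.gcd d m) % orderOf σ * Nat.gcd d m ≡ m / Nat.gcd d m * Nat.gcd d m
        [MOD orderOf σ * Nat.gcd d m] := Nat.ModEq.mul_right' _ (Nat.mod_modEq _ _)
    rw [hkg, Nat.div_mul_cancel (Nat.gcd_dvd_right d m)] at h1
    exact h1.symm

theorem rot_gen (c : GC) {k : ℕ} (hk : k ∣ c.rep.1.dg) {ρ : Perm c.rep.1.T}
    (h : RotBy c.rep.1 (c.rep.1.dg / k) ρ) : orderOf ρ = k ∧
      ∀ i, i < k → ∃ t, c.rep.1.s.SameCycle (Sum.inr true) t ∧ SymM c.rep.1 true (ρ ^ i) t := by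
  have hdp : 0 < c.rep.1.dg := dg_pos c
  have hkp : 0 < k := Nat.pos_of_dvd_of_pos hk hdp
  have hkd : k * (c.rep.1.dg / k) = c.rep.1.dg := Nat.mul_div_cancel' hk
  constructor
  · rw [orderOf_eq_iff hkp]
    constructor
    · rw [RotSum_order h, hkd]
    · intro m hm hm0 hc
      rw [RotSum_order h] at hc
      have h1 := Nat.le_of_dvd (Nat.mul_pos hm0 (Nat.div_pos (Nat.le_of_dvd hdp hk) hkp)) hc
      have h2 : m * (c.rep.1.dg / k) < k * (c.rep.1.dg / k) :=
        Nat.mul_lt_mul_of_pos_right hm (Nat.div_pos (Nat.le_of_dvd hdp hk) hkp)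
      rw [hkd] at h2
      exact absurd h1 (not_le.2 h2)
  · intro i _
    exact ⟨_, ⟨((i * (c.rep.1.dg / k) : ℕ) : ℤ), by rw [zpow_natCast]⟩, h.pow i⟩

theorem RotSum_fixed {M : BMap} {σ : Perm M.T} {q : M.Vx}
    (h : ∀ t, M.vx t = q → M.vx (σ t) = q) (n : ℕ) (t : M.T) (ht : M.vx t = q) :
    M.vx ((σ ^ n) t) = q := by
  induction n with
  | zero => simpa using ht
  | succ n ih => rw [pow_succ', Perm.mul_apply]; exact h _ ih

/-- rotations generating the same group have the same weight: the fixed vertices are the same; if `k ≠ 2`, no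
edge is reversed (`two_poles_e`); if `k = 2`, then `i = 1` -/
theorem rotW_pow (c : GC) {k : ℕ} (hk : k ∣ c.rep.1.dg) {ρ : Perm c.rep.1.T}
    (h : RotBy c.rep.1 (c.rep.1.dg / k) ρ) {i : ℕ} (hi : i.Coprime k) (kv s ke E : ℝ≥0∞) :
    rotW c.rep.1 (ρ ^ i) k kv s ke E = rotW c.rep.1 ρ k kv s ke E := by
  have hord := (rot_gen c hk h).1
  have hdp : 0 < c.rep.1.dg := dg_pos c
  have hkp : 0 < k := Nat.pos_of_dvd_of_pos hk hdp
  -- ρ is a power of ρ ^ i
  obtain ⟨j, hj⟩ : ∃ j : ℕ, (ρ ^ i) ^ j = ρ := by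
    have h1 : (Nat.Coprime (orderOf ρ) i) := by rw [hord]; exact hi.symm
    obtain ⟨m, hm⟩ := exists_pow_eq_self_of_coprime h1.symm
    exact ⟨m, hm⟩
  have hf : fixV c.rep.1 (ρ ^ i) (fun t => t = Sum.inr true) =
      fixV c.rep.1 ρ (fun t => t = Sum.inr true) := by
    unfold fixV
    apply Nat.card_congr
    apply Equiv.subtypeEquivRight
    intro q
    refine and_congr_right fun _ => ⟨fun hq t ht => ?_, fun hq t ht => ?_⟩
    · have := RotSum_fixed hq j t ht
      rwa [hj] at this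
    · exact RotSum_fixed hq i t ht
  have hrev : revD c.rep.1 (ρ ^ i) (fun _ => True) = revD c.rep.1 ρ (fun _ => True) := by
    by_cases h2 : k = 2
    · -- i odd, ρ ^ i = ρ
      have hodd : i % 2 = 1 := by
        rw [h2] at hi
        have := (Nat.coprime_two_right).1 hi
        exact Nat.odd_iff.1 this
      have he : ρ ^ i = ρ := by
        have h3 : ρ ^ 2 = 1 := by rw [← h2, ← hord]; exact pow_orderOf_eq_one ρ
        conv_lhs => rw [← Nat.div_add_mod i 2, hodd, pow_succ, pow_mul, h3, one_pow, one_mul]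
      rw [he]
    · have hz : ∀ n : ℕ, revD c.rep.1 (ρ ^ n) (fun _ => True) = 0 := by
        intro n
        unfold revD
        rw [Nat.card_eq_zero]
        left
        refine ⟨fun ⟨x, _, hx⟩ => h2 ?_⟩
        rw [← hord]
        exact two_poles_e c.rep.2 ⟨((c.rep.1.dg / k : ℕ) : ℤ), by rw [zpow_natCast]⟩ h hx
      have h1 := hz 1
      rw [pow_one] at h1
      rw [hz i, h1]
  unfold rotW
  rw [hf, hrev]

/-- the inner sum for one map and one order `k` -/
theorem RotSum_inner (c : GC) (k : ℕ) (hk2 : 2 ≤ k) (kv s ke E : ℝ≥0∞) :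
    (∑ σ : Perm c.rep.1.T, if orderOf σ = k then
      (if Rigid c.rep.1 ∧ σ ≠ 1 ∧ ∃ t, c.rep.1.s.SameCycle (Sum.inr true) t ∧
          SymM c.rep.1 true σ t then
        rotW c.rep.1 σ (orderOf σ) kv s ke E / (2 * (c.rep.1.dg : ℝ≥0∞)) else 0) else 0) =
      (k.totient : ℝ≥0∞) / (2 * (k : ℝ≥0∞)) * ∑ σ : Perm c.rep.1.T,
        if Rigid c.rep.1 ∧ k ∣ c.rep.1.dg ∧
            SymM c.rep.1 true σ ((c.rep.1.s ^ (c.rep.1.dg / k)) (Sum.inr true)) then
          rotW c.rep.1 σ k kv s ke E * (k : ℝ≥0∞) / (c.rep.1.dg : ℝ≥0∞) else 0 := by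
  by_cases hR : Rigid c.rep.1
  swap
  · simp [hR]
  by_cases hex : k ∣ c.rep.1.dg ∧ ∃ ρ, RotBy c.rep.1 (c.rep.1.dg / k) ρ
  · obtain ⟨hk, ρ, hρ⟩ := hex
    have hdp : 0 < c.rep.1.dg := dg_pos c
    have hkp : 0 < k := by omega
    -- right side: only ρ
    have h1 : (∑ σ : Perm c.rep.1.T,
        if Rigid c.rep.1 ∧ k ∣ c.rep.1.dg ∧
            SymM c.rep.1 true σ ((c.rep.1.s ^ (c.rep.1.dg / k)) (Sum.inr true)) then
          rotW c.rep.1 σ k kv s ke E * (k : ℝ≥0∞) / (c.rep.1.dg : ℝ≥0∞) else 0) =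
        rotW c.rep.1 ρ k kv s ke E * (k : ℝ≥0∞) / (c.rep.1.dg : ℝ≥0∞) := by
      rw [Finset.sum_eq_single ρ]
      · rw [if_pos ⟨hR, hk, hρ⟩]
      · intro σ _ hne
        rw [if_neg]
        rintro ⟨_, _, h3⟩
        exact hne (SymM.unique c.rep.2 h3 hρ)
      · intro h; exact absurd (Finset.mem_univ _) h
    rw [h1]
    -- left side
    have hord := (rot_gen c hk hρ).1
    have h2 : ∀ σ : Perm c.rep.1.T, (if orderOf σ = k then
        (if Rigid c.rep.1 ∧ σ ≠ 1 ∧ ∃ t, c.rep.1.s.SameCycle (Sum.inr true) t ∧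
            SymM c.rep.1 true σ t then
          rotW c.rep.1 σ (orderOf σ) kv s ke E / (2 * (c.rep.1.dg : ℝ≥0∞)) else 0) else 0) =
        if σ ∈ ((Finset.range k).filter fun i => k.Coprime i).image (fun i => ρ ^ i) then
          rotW c.rep.1 ρ k kv s ke E / (2 * (c.rep.1.dg : ℝ≥0∞)) else 0 := by
      intro σ
      by_cases hm : σ ∈ ((Finset.range k).filter fun i => k.Coprime i).image (fun i => ρ ^ i)
      · rw [if_pos hm]
        obtain ⟨i, hi, rfl⟩ := Finset.mem_image.1 hm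
        rw [Finset.mem_filter, Finset.mem_range] at hi
        have ho : orderOf (ρ ^ i) = k := by
          rw [orderOf_pow, hord, (show Nat.gcd k i = 1 from hi.2), Nat.div_one]
        rw [if_pos ho, if_pos, ho, rotW_pow c hk hρ hi.2.symm]
        refine ⟨hR, ?_, (rot_gen c hk hρ).2 i hi.1⟩
        intro h
        rw [h, orderOf_one] at ho
        omega
      · rw [if_neg hm]
        split_ifs with h3 h4
        · exfalso
          apply hm
          obtain ⟨_, _, t, ht, hsym⟩ := h4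
          obtain ⟨_, ρ', hρ', i, hi, hic, he⟩ := rot_order c ht hsym
          rw [h3] at hρ' hi hic
          have : ρ' = ρ := SymM.unique c.rep.2 hρ' hρ
          rw [Finset.mem_image]
          exact ⟨i, Finset.mem_filter.2 ⟨Finset.mem_range.2 hi, hic.symm⟩, by rw [he, this]⟩
        · rfl
        · rfl
    rw [Finset.sum_congr rfl fun σ _ => h2 σ]
    rw [← Finset.sum_filter, Finset.sum_const]
    have h3 : (Finset.univ.filter fun σ : Perm c.rep.1.T =>
        σ ∈ ((Finset.range k).filter fun i => k.Coprime i).image (fun i => ρ ^ i)) =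
        ((Finset.range k).filter fun i => k.Coprime i).image (fun i => ρ ^ i) := by
      ext σ; simp
    rw [h3, Finset.card_image_of_injOn]
    · rw [← Nat.totient_eq_card_coprime, nsmul_eq_mul]
      have e1 : (c.rep.1.dg : ℝ≥0∞) ≠ 0 := by exact_mod_cast hdp.ne'
      have e2 : (c.rep.1.dg : ℝ≥0∞) ≠ ⊤ := ENNReal.natCast_ne_top _
      have e3 : (k : ℝ≥0∞) ≠ 0 := by exact_mod_cast hkp.ne'
      have e4 : (k : ℝ≥0∞) ≠ ⊤ := ENNReal.natCast_ne_top _
      rw [ENNReal.div_eq_inv_mul, ENNReal.div_eq_inv_mul, ENNReal.div_eq_inv_mul,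
        ENNReal.mul_inv (Or.inl (by norm_num)) (Or.inl (by norm_num)),
        ENNReal.mul_inv (Or.inl (by norm_num)) (Or.inl (by norm_num))]
      calc (k.totient : ℝ≥0∞) * ((2⁻¹ * (c.rep.1.dg : ℝ≥0∞)⁻¹) * rotW c.rep.1 ρ k kv s ke E)
          = ((k : ℝ≥0∞)⁻¹ * k) * ((k.totient : ℝ≥0∞) *
              ((2⁻¹ * (c.rep.1.dg : ℝ≥0∞)⁻¹) * rotW c.rep.1 ρ k kv s ke E)) := by
            rw [ENNReal.inv_mul_cancel e3 e4, one_mul]
        _ = _ := by ring
    · intro i hi j hj hij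
      have hi' := Finset.mem_range.1 (Finset.mem_filter.1 hi).1
      have hj' := Finset.mem_range.1 (Finset.mem_filter.1 hj).1
      have := pow_inj_mod.1 hij
      rw [hord, Nat.mod_eq_of_lt hi', Nat.mod_eq_of_lt hj'] at this
      exact this
  · -- no rotation of order k
    have h1 : ∀ σ : Perm c.rep.1.T, (if orderOf σ = k then
        (if Rigid c.rep.1 ∧ σ ≠ 1 ∧ ∃ t, c.rep.1.s.SameCycle (Sum.inr true) t ∧
            SymM c.rep.1 true σ t then
          rotW c.rep.1 σ (orderOf σ) kv s ke E / (2 * (c.rep.1.dg : ℝ≥0∞)) else 0) else 0) = 0 := by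
      intro σ
      split_ifs with h3 h4
      · exfalso
        obtain ⟨_, _, t, ht, hsym⟩ := h4
        obtain ⟨hd, ρ', hρ', _⟩ := rot_order c ht hsym
        rw [h3] at hd hρ'
        exact hex ⟨hd, ρ', hρ'⟩
      · rfl
      · rfl
    have h2 : ∀ σ : Perm c.rep.1.T, (if Rigid c.rep.1 ∧ k ∣ c.rep.1.dg ∧
            SymM c.rep.1 true σ ((c.rep.1.s ^ (c.rep.1.dg / k)) (Sum.inr true)) then
          rotW c.rep.1 σ k kv s ke E * (k : ℝ≥0∞) / (c.rep.1.dg : ℝ≥0∞) else 0) = 0 := by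
      intro σ
      rw [if_neg]
      rintro ⟨_, h3, h4⟩
      exact hex ⟨h3, σ, h4⟩
    rw [Finset.sum_congr rfl fun σ _ => h1 σ, Finset.sum_congr rfl fun σ _ => h2 σ]
    simp

/-- Group the rotations `σ ≠ 1` of every map by their order `k ≥ 2`: there are `φ k` of them if there is one (`rot_order`, `rot_gen`,
`orderOf` facts), all with the weight of `ρ`, and `φ(k) / (2 dg) = φ(k) / (2 k) * (k / dg)`. -/
theorem rot_sum (kv ke : ℝ≥0∞) (s E : ℕ → ℝ≥0∞) :
    ∑' c : GC, ∑ σ : Perm c.rep.1.T,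
      (if Rigid c.rep.1 ∧ σ ≠ 1 ∧ ∃ t, c.rep.1.s.SameCycle (Sum.inr true) t ∧
          SymM c.rep.1 true σ t then
        rotW c.rep.1 σ (orderOf σ) kv (s (orderOf σ)) ke (E (orderOf σ)) /
          (2 * (c.rep.1.dg : ℝ≥0∞)) else 0) =
      ∑' k : ℕ, ((k + 2).totient : ℝ≥0∞) / (2 * ((k + 2 : ℕ) : ℝ≥0∞)) *
        Qk (k + 2) kv (s (k + 2)) ke (E (k + 2)) := by
  have h1 : ∀ c : GC, (∑ σ : Perm c.rep.1.T,
      (if Rigid c.rep.1 ∧ σ ≠ 1 ∧ ∃ t, c.rep.1.s.SameCycle (Sum.inr true) t ∧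
          SymM c.rep.1 true σ t then
        rotW c.rep.1 σ (orderOf σ) kv (s (orderOf σ)) ke (E (orderOf σ)) /
          (2 * (c.rep.1.dg : ℝ≥0∞)) else 0)) =
      ∑' k : ℕ, ∑ σ : Perm c.rep.1.T, if orderOf σ = k + 2 then
        (if Rigid c.rep.1 ∧ σ ≠ 1 ∧ ∃ t, c.rep.1.s.SameCycle (Sum.inr true) t ∧
          SymM c.rep.1 true σ t then
        rotW c.rep.1 σ (orderOf σ) kv (s (k + 2)) ke (E (k + 2)) /
          (2 * (c.rep.1.dg : ℝ≥0∞)) else 0) else 0 := by
    intro c
    simp_rw [← tsum_fintype (L := SummationFilter.unconditional _)]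
    rw [ENNReal.tsum_comm]
    refine tsum_congr fun σ => ?_
    by_cases h1 : σ = 1
    · simp [h1]
    · have ho : 0 < orderOf σ := orderOf_pos σ
      have ho1 : orderOf σ ≠ 1 := fun h => h1 (orderOf_eq_one_iff.1 h)
      rw [tsum_eq_single (orderOf σ - 2)]
      · have e : orderOf σ - 2 + 2 = orderOf σ := by omega
        rw [if_pos e.symm, e]
      · intro k hk
        rw [if_neg]
        omega
  rw [tsum_congr h1, ENNReal.tsum_comm]
  refine tsum_congr fun k => ?_
  rw [Qk, ← ENNReal.tsum_mul_left]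
  refine tsum_congr fun c => ?_
  exact RotSum_inner c (k + 2) (by omega) kv (s (k + 2)) ke (E (k + 2))

end PGr

end

section
/-! # Module PREq: the rigid part of the pieces -/

set_option linter.unusedSectionVars false

namespace PGr
open Equiv Finset
open scoped ENNReal Classical
universe u
variable {Λ : Type u}

theorem PR_eq (w : Λ → ℝ≥0∞) : PR w = Q1 (pK w 1) (pD w 1) / 2 +
    ∑' k : ℕ, ((k + 2).totient : ℝ≥0∞) / (2 * ((k + 2 : ℕ) : ℝ≥0∞)) *
      Qk (k + 2) (pK w 1) (pK w (k + 2)) (pS w 1) (pD w (k + 2)) +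
    (pK w 1 * pD w 1 * Av (pK w 1) (pK w 2) (pD w 1) (pS w 1) (pD w 2) +
      Ac (pK w 1) (pK w 2) (pD w 1) (pS w 1) (pD w 2)) / 4 := by
  rw [PR_expand, rot_sum (pK w 1) (pS w 1) (fun k => pK w k) (fun k => pD w k), refl_sum]

end PGr

end

section
/-! # Module SEN: the generating functions of the nets on the curve -/

set_option linter.unusedSectionVars false

namespace PGr
open Equiv Finset PGa
open scoped ENNReal Classical

/-- coefficients -/
noncomputable def eC (s f y : ℝ≥0∞) (m : ℕ) : ℝ≥0∞ :=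
  ∑' c : GC, if pd c.rep.1 = m then nw s f y 1 c.rep.1 else 0

private theorem SEN_comm (d : GC → ℕ) (F : GC → ℝ≥0∞) (h : ℕ → ℝ≥0∞) :
    ∑' m, (∑' c, if d c = m then F c else 0) * h m = ∑' c, F c * h (d c) := by
  have h1 : ∀ m, (∑' c, if d c = m then F c else 0) * h m =
      ∑' c, (if d c = m then F c * h m else 0) := by
    intro m
    rw [← ENNReal.tsum_mul_right]
    refine tsum_congr fun c => ?_
    split_ifs
    · rfl
    · rw [zero_mul]
  rw [tsum_congr h1, ENNReal.tsum_comm]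
  refine tsum_congr fun c => ?_
  rw [tsum_eq_single (d c)]
  · rw [if_pos rfl]
  · intro m hm
    rw [if_neg fun h => hm h.symm]

/-- exchange of sums (`tsum_comm`) -/
theorem eN_series (s f y z : ℝ≥0∞) : eN s f y z = ∑' m, eC s f y m * z ^ m := by
  have h := SEN_comm (fun c => pd c.rep.1) (fun c => nw s f y 1 c.rep.1) (fun m => z ^ m)
  refine Eq.trans (tsum_congr fun c => ?_) h.symm
  simp only [nw, one_pow, mul_one]

theorem eD_series (s f y z : ℝ≥0∞) : eD s f y z = ∑' m : ℕ, (m : ℝ≥0∞) * eC s f y m * z ^ m := by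
  have h := SEN_comm (fun c => pd c.rep.1) (fun c => nw s f y 1 c.rep.1)
    (fun m => (m : ℝ≥0∞) * z ^ m)
  have h2 : ∑' m : ℕ, (m : ℝ≥0∞) * eC s f y m * z ^ m =
      ∑' m, (∑' c : GC, if pd c.rep.1 = m then nw s f y 1 c.rep.1 else 0) *
        ((m : ℝ≥0∞) * z ^ m) := by
    refine tsum_congr fun m => ?_
    rw [eC]
    ring
  rw [h2, h]
  refine tsum_congr fun c => ?_
  simp only [nw, one_pow, mul_one]
  ring

section
variable {q c w : ℝ}

/-- `eN_vertex`, `tau_dual`: `tauL (1 / s) (s y) z = ∑ tL s⁻¹ (s y) l z ^ l = s * eN s 1 y z` -/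
theorem eN_Z (hq : 0 < q) (hqc : q < c) (hc : c < 1)
    (hEs : Es (ENNReal.ofReal (ss q c)) (ENNReal.ofReal (yy q c)) = ENNReal.ofReal (EE q c))
    (h0 : 0 < w) (h1 : w < q) :
    eN (ENNReal.ofReal (ss q c)) 1 (ENNReal.ofReal (yy q c)) (ENNReal.ofReal (Zf q c w)) =
      ENNReal.ofReal (Xf q c w - 1) := by
  have hs := ss_pos hq hqc hc
  have hs' : ENNReal.ofReal (ss q c) ≠ 0 := (ENNReal.ofReal_pos.2 hs).ne'
  have h2 := eN_vertex (ENNReal.ofReal (ss q c)) (ENNReal.ofReal (yy q c))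
    (ENNReal.ofReal (Zf q c w)) hs' ENNReal.ofReal_ne_top
  have h3 := tau_dual hq hqc hc hEs h0 h1
  rw [tauL, one_div, ENNReal.ofReal_inv_of_pos hs, ENNReal.ofReal_mul hs.le,
    ENNReal.ofReal_mul hs.le] at h3
  rw [h3] at h2
  exact (ENNReal.mul_right_inj hs' ENNReal.ofReal_ne_top).1 h2

/-- `eN_one_dual`, `tau_all` -/
theorem eN_X (hq : 0 < q) (hqc : q < c) (hc : c < 1)
    (hEs : Es (ENNReal.ofReal (ss q c)) (ENNReal.ofReal (yy q c)) = ENNReal.ofReal (EE q c))
    (h0 : 0 < w) (h1 : w < c) :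
    eN 1 (ENNReal.ofReal (ss q c)) (ENNReal.ofReal (yy q c)) (ENNReal.ofReal (Xf q c w)) =
      ENNReal.ofReal (Zf q c (q * w) - 1) := by
  have hs := ss_pos hq hqc hc
  have h2 := tau_all hq hqc hc hEs h0 h1
  rw [tauL] at h2
  rw [eN_one_dual, h2, ← ENNReal.ofReal_mul hs.le, mul_div_cancel₀ _ hs.ne']

/-- `series_deriv` with `x = Zf`, `g = Xf - 1` on `(0, q)` (`hasDerivAt_Zf`, `hasDerivAt_Xf`, `dZ_neg`, `Zf_pos`, `one_lt_Xf`) -/
theorem eD_Z (hq : 0 < q) (hqc : q < c) (hc : c < 1)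
    (hEs : Es (ENNReal.ofReal (ss q c)) (ENNReal.ofReal (yy q c)) = ENNReal.ofReal (EE q c))
    (h0 : 0 < w) (h1 : w < q) :
    eD (ENNReal.ofReal (ss q c)) 1 (ENNReal.ofReal (yy q c)) (ENNReal.ofReal (Zf q c w)) =
      ENNReal.ofReal (Zf q c w * dX q c w / dZ q c w) := by
  rw [eD_series]
  refine series_deriv (eC (ENNReal.ofReal (ss q c)) 1 (ENNReal.ofReal (yy q c))) (Zf q c)
    (fun w => Xf q c w - 1) (dZ q c) (dX q c) (w0 := 0) (w1 := q) ?_ ?_ ?_ ?_ ?_ ?_ h0 h1
  · intro w hw hw'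
    exact hasDerivAt_Zf hq hqc hc hw.le (hw'.trans hqc)
  · intro w hw hw'
    exact (hasDerivAt_Xf hq hqc hc hw.le (hw'.trans (hqc.trans hc))).sub_const 1
  · intro w hw hw'
    exact dZ_neg hq hqc hc hw.le (hw'.trans hqc)
  · intro w hw hw'
    exact Zf_pos hq hqc hc hw.le hw'
  · intro w hw hw'
    exact sub_nonneg.2 (one_lt_Xf hq hqc hc hw.le hw').le
  · intro w hw hw'
    rw [← eN_series]
    exact eN_Z hq hqc hc hEs hw hw'

/-- `series_deriv` with `x = Xf`, `g w = Zf (q w) - 1` on `(0, c)` -/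
theorem eD_X (hq : 0 < q) (hqc : q < c) (hc : c < 1)
    (hEs : Es (ENNReal.ofReal (ss q c)) (ENNReal.ofReal (yy q c)) = ENNReal.ofReal (EE q c))
    (h0 : 0 < w) (h1 : w < c) :
    eD 1 (ENNReal.ofReal (ss q c)) (ENNReal.ofReal (yy q c)) (ENNReal.ofReal (Xf q c w)) =
      ENNReal.ofReal (Xf q c w * (q * dZ q c (q * w)) / dX q c w) := by
  rw [eD_series]
  refine series_deriv (eC 1 (ENNReal.ofReal (ss q c)) (ENNReal.ofReal (yy q c))) (Xf q c)
    (fun w => Zf q c (q * w) - 1) (dX q c) (fun w => q * dZ q c (q * w)) (w0 := 0) (w1 := c)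
    ?_ ?_ ?_ ?_ ?_ ?_ h0 h1
  · intro w hw hw'
    exact hasDerivAt_Xf hq hqc hc hw.le (hw'.trans hc)
  · intro w hw hw'
    have h2 : HasDerivAt (fun w : ℝ => q * w) q w := by
      simpa using (hasDerivAt_id w).const_mul q
    have h3 : q * w < c := by
      have : q * w < 1 * w := mul_lt_mul_of_pos_right (hqc.trans hc) hw
      linarith
    have h4 := (hasDerivAt_Zf hq hqc hc (mul_pos hq hw).le h3).comp w h2
    exact (h4.sub_const 1).congr_deriv (mul_comm _ _)
  · intro w hw hw'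
    exact dX_neg hq hqc hc hw.le (hw'.trans hc)
  · intro w hw hw'
    exact Xf_pos hq hqc hc hw.le hw'
  · intro w hw hw'
    exact sub_nonneg.2 (one_lt_Zf hq hqc hc hw.le hw').le
  · intro w hw hw'
    rw [← eN_series]
    exact eN_X hq hqc hc hEs hw hw'

end

end PGr

end

section
/-! # TotEq: the two functional equations -/

set_option linter.unusedSectionVars false

namespace PGr
open Equiv Finset
open scoped ENNReal Classical

section
variable {k : ℕ} {S F Y kv kf ke Z G : ℝ≥0∞}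

theorem tot_eq (hk : 2 ≤ k) (hG : G ^ k = 1 + eN (S ^ k) (F ^ k) (Y ^ k) (Z ^ k))
    (h1 : eN (S ^ k) (F ^ k) (Y ^ k) (Z ^ k) ≠ ⊤) (h2 : eD (S ^ k) (F ^ k) (Y ^ k) (Z ^ k) ≠ ⊤) :
    gV k S F Y kv kf ke Z * G ^ k =
      eD (S ^ k) (F ^ k) (Y ^ k) (Z ^ k) * (gF k S F Y kv kf ke G + lkw k S ke G + kv) := by
  rw [gV_eq_add, add_mul, nb_eq hk S F Y kv kf ke Z G hG, bd_eq hk S F Y kv kf ke Z G hG h1 h2]
  ring

theorem gVt_le (M : ℕ) : gVt k M S F Y kv kf ke Z ≤
    gNBt k M S F Y kv kf ke Z + gBD k S F Y kv kf ke Z := by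
  unfold gVt gNBt gBD
  rw [← ENNReal.tsum_add]
  refine ENNReal.tsum_le_tsum fun c => ?_
  split_ifs with h1 h2 h3 h3 h2
  · exact le_self_add
  · exact le_self_add
  · exact le_add_self
  · by_cases h4 : IsV k c.rep.1
    · rcases (isV_cases c).1.1 h4 with h5 | h5
      · exact absurd ⟨h5, h1⟩ h2
      · exact absurd h5 h3
    · simp [wV, h4]
  all_goals exact bot_le

theorem tot_trunc (hk : 2 ≤ k) (M : ℕ) (hG : G ^ k = 1 + eN (S ^ k) (F ^ k) (Y ^ k) (Z ^ k))
    (h1 : eN (S ^ k) (F ^ k) (Y ^ k) (Z ^ k) ≠ ⊤) (h2 : eD (S ^ k) (F ^ k) (Y ^ k) (Z ^ k) ≠ ⊤) :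
    gVt k (M + 1) S F Y kv kf ke Z * G ^ k ≤
      eD (S ^ k) (F ^ k) (Y ^ k) (Z ^ k) *
        (gFt k M S F Y kv kf ke G + (if M = 0 then 0 else lkw k S ke G) + kv) := by
  refine (mul_le_mul_left (gVt_le (M + 1)) _).trans ?_
  rw [add_mul, bd_eq hk S F Y kv kf ke Z G hG h1 h2]
  refine (add_le_add_left (nb_trunc hk M S F Y kv kf ke Z G hG) _).trans ?_
  apply le_of_eq
  ring

end

end PGr

end

section
/-! # Module SysK: the system of the two functional equations -/

set_option linter.unusedSectionVars false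

namespace PGr
open Equiv Finset PGa
open scoped ENNReal Classical

theorem kr_pow {k : ℕ} (hk : 2 ≤ k) (x : ℝ≥0∞) : kr k x ^ k = x := by
  have h : (k : ℝ) ≠ 0 := by
    have : k ≠ 0 := by omega
    exact_mod_cast this
  unfold kr
  rw [← ENNReal.rpow_natCast, ← ENNReal.rpow_mul, inv_mul_cancel₀ h, ENNReal.rpow_one]

theorem kr_one (k : ℕ) : kr k 1 = 1 := by
  unfold kr
  exact ENNReal.one_rpow _

private theorem SysK_lk {k : ℕ} {ke S G : ℝ≥0∞} (h : k = 2 ∨ ke = 0) :
    lkw k S ke G = ke * S ^ k * G ^ k := by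
  unfold lkw
  rcases h with h | h
  · subst h
    rw [if_pos rfl]
  · subst h
    split_ifs <;> simp

private theorem SysK_alg {A B L K z t f : ℝ≥0∞} (hz : z ≠ 0) (hz' : z ≠ ⊤) (hf : f ≠ 0)
    (hf' : f ≠ ⊤) (h : A * f = (z * t) * (B + L * f + K)) :
    A / z = t * (B / f + L + K / f) := by
  have h1 : A = (z * t) * (B + L * f + K) / f := by
    rw [← h, ENNReal.mul_div_cancel_right hf hf']
  have h2 : (z * t) * (B + L * f + K) / f / z = t * ((B + L * f + K) / f) := by
    rw [mul_assoc, mul_div_assoc, mul_comm z, ENNReal.mul_div_cancel_right hz hz', mul_div_assoc]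
  rw [h1, h2, ENNReal.add_div, ENNReal.add_div, ENNReal.mul_div_cancel_right hf hf']

private theorem SysK_alg_le {A B L K z t f : ℝ≥0∞} (hz : z ≠ 0) (hz' : z ≠ ⊤) (hf : f ≠ 0)
    (hf' : f ≠ ⊤) (h : A * f ≤ (z * t) * (B + L * f + K)) :
    A / z ≤ t * (B / f + L + K / f) := by
  have h1 : A ≤ (z * t) * (B + L * f + K) / f := by
    rw [ENNReal.le_div_iff_mul_le (Or.inl hf) (Or.inl hf')]
    exact h
  have h2 : (z * t) * (B + L * f + K) / f / z = t * ((B + L * f + K) / f) := by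
    rw [mul_assoc, mul_div_assoc, mul_comm z, ENNReal.mul_div_cancel_right hz hz', mul_div_assoc]
  refine (ENNReal.div_le_div_right h1 z).trans ?_
  rw [h2, ENNReal.add_div, ENNReal.add_div, ENNReal.mul_div_cancel_right hf hf']

private theorem SysK_of {x : ℝ} (hx : 0 < x) : ENNReal.ofReal x ≠ 0 :=
  (ENNReal.ofReal_pos.2 hx).ne'

private theorem SysK_card (c : GC) : ¬ Fintype.card c.rep.1.T ≤ 0 := by
  have : 0 < Fintype.card c.rep.1.T := Fintype.card_pos_iff.2 ⟨Sum.inr true⟩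
  omega

private theorem SysK_zero (k : ℕ) (S F Y kv kf ke Z : ℝ≥0∞) : gVt k 0 S F Y kv kf ke Z = 0 := by
  unfold gVt
  simp only [mul_zero]
  simp only [if_neg (SysK_card _), tsum_zero]

private theorem SysK_zeroF (k : ℕ) (S F Y kv kf ke Z : ℝ≥0∞) : gFt k 0 S F Y kv kf ke Z = 0 := by
  rw [gFt_dual, SysK_zero]

section
variable {q c kv kf ke : ℝ} {k : ℕ}

/-- the parameters as elements of `ℝ≥0∞` -/
noncomputable abbrev nR (k : ℕ) (q c kv kf ke : ℝ) (z : ℝ) : ℝ≥0∞ :=
  nS k (ENNReal.ofReal (ss q c)) (ENNReal.ofReal (yy q c)) (ENNReal.ofReal kv)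
    (ENNReal.ofReal kf) (ENNReal.ofReal ke) (ENNReal.ofReal z)

noncomputable abbrev hRr (k : ℕ) (q c kv kf ke : ℝ) (f : ℝ) : ℝ≥0∞ :=
  hS k (ENNReal.ofReal (ss q c)) (ENNReal.ofReal (yy q c)) (ENNReal.ofReal kv)
    (ENNReal.ofReal kf) (ENNReal.ofReal ke) (ENNReal.ofReal f)

noncomputable abbrev nMr (k : ℕ) (q c kv kf ke : ℝ) (M : ℕ) (z : ℝ) : ℝ≥0∞ :=
  nM k (ENNReal.ofReal (ss q c)) (ENNReal.ofReal (yy q c)) (ENNReal.ofReal kv)
    (ENNReal.ofReal kf) (ENNReal.ofReal ke) M (ENNReal.ofReal z)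

noncomputable abbrev hMr (k : ℕ) (q c kv kf ke : ℝ) (M : ℕ) (f : ℝ) : ℝ≥0∞ :=
  hM k (ENNReal.ofReal (ss q c)) (ENNReal.ofReal (yy q c)) (ENNReal.ofReal kv)
    (ENNReal.ofReal kf) (ENNReal.ofReal ke) M (ENNReal.ofReal f)

private theorem SysK_nfin {q c w : ℝ} (hq : 0 < q) (hqc : q < c) (hc : c < 1) (h0 : 0 < w)
    (h1 : w < q)
    (hEs : Es (ENNReal.ofReal (ss q c)) (ENNReal.ofReal (yy q c)) = ENNReal.ofReal (EE q c)) :
    ENNReal.ofReal (Xf q c w) = 1 + eN (ENNReal.ofReal (ss q c)) 1 (ENNReal.ofReal (yy q c))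
      (ENNReal.ofReal (Zf q c w)) ∧
    eN (ENNReal.ofReal (ss q c)) 1 (ENNReal.ofReal (yy q c)) (ENNReal.ofReal (Zf q c w)) ≠ ⊤ ∧
    eD (ENNReal.ofReal (ss q c)) 1 (ENNReal.ofReal (yy q c)) (ENNReal.ofReal (Zf q c w)) ≠ ⊤ ∧
    eD (ENNReal.ofReal (ss q c)) 1 (ENNReal.ofReal (yy q c)) (ENNReal.ofReal (Zf q c w)) =
      ENNReal.ofReal (Zf q c w) * ENNReal.ofReal (dX q c w / dZ q c w) := by
  have hZ : 0 < Zf q c w := Zf_pos hq hqc hc h0.le h1
  have hX := one_lt_Xf hq hqc hc h0.le h1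
  refine ⟨?_, ?_, ?_, ?_⟩
  · rw [eN_Z hq hqc hc hEs h0 h1, ← ENNReal.ofReal_one, ← ENNReal.ofReal_add zero_le_one
      (by linarith)]
    congr 1
    ring
  · rw [eN_Z hq hqc hc hEs h0 h1]
    exact ENNReal.ofReal_ne_top
  · rw [eD_Z hq hqc hc hEs h0 h1]
    exact ENNReal.ofReal_ne_top
  · rw [eD_Z hq hqc hc hEs h0 h1, ← ENNReal.ofReal_mul hZ.le]
    congr 1
    ring

private theorem SysK_hfin {q c w : ℝ} (hq : 0 < q) (hqc : q < c) (hc : c < 1) (h0 : 0 < w)
    (h1 : w < q)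
    (hEs : Es (ENNReal.ofReal (ss q c)) (ENNReal.ofReal (yy q c)) = ENNReal.ofReal (EE q c)) :
    ENNReal.ofReal (Zf q c (q * w)) = 1 + eN 1 (ENNReal.ofReal (ss q c)) (ENNReal.ofReal (yy q c))
      (ENNReal.ofReal (Xf q c w)) ∧
    eN 1 (ENNReal.ofReal (ss q c)) (ENNReal.ofReal (yy q c)) (ENNReal.ofReal (Xf q c w)) ≠ ⊤ ∧
    eD 1 (ENNReal.ofReal (ss q c)) (ENNReal.ofReal (yy q c)) (ENNReal.ofReal (Xf q c w)) ≠ ⊤ ∧
    eD 1 (ENNReal.ofReal (ss q c)) (ENNReal.ofReal (yy q c)) (ENNReal.ofReal (Xf q c w)) =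
      ENNReal.ofReal (Xf q c w) * ENNReal.ofReal (q * dZ q c (q * w) / dX q c w) := by
  have hwc : w < c := h1.trans hqc
  have hX : 0 < Xf q c w := Xf_pos hq hqc hc h0.le hwc
  have hZ := one_lt_Zf hq hqc hc h0.le hwc
  refine ⟨?_, ?_, ?_, ?_⟩
  · rw [eN_X hq hqc hc hEs h0 hwc, ← ENNReal.ofReal_one, ← ENNReal.ofReal_add zero_le_one
      (by linarith)]
    congr 1
    ring
  · rw [eN_X hq hqc hc hEs h0 hwc]
    exact ENNReal.ofReal_ne_top
  · rw [eD_X hq hqc hc hEs h0 hwc]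
    exact ENNReal.ofReal_ne_top
  · rw [eD_X hq hqc hc hEs h0 hwc, ← ENNReal.ofReal_mul hX.le]
    congr 1
    ring

/-- Proof.  Write `s`, `y`, `z = Zf w`, `f = Xf w`, `z' = Zf (q w)` (all positive), `S = kr k s`, `Y = kr k y`.
`en`: `tot_eq` with `F = 1`, `Z = kr k z`, `G = kr k f` (`kr_pow`; `G ^ k = f = 1 + eN s 1 y z`, `eN_Z`; `eD_Z`): `gV * f = z * (dX / dZ) * (gF (kr k f) + lkw k S ke (kr k f) + kv)`; divide by `z * f`:
`gV / z = (dX / dZ) * (gF / f + lkw / f + kv / f)`, and `lkw k S ke (kr k f) / f = ke * s` (for `k = 2`: `ke * S ^ 2 * G ^ 2 / f`; otherwise `ke = 0`).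
`eh`: `gF_dual`, `tot_eq` for `1`, `S`, `Y`, `kf`, `kv`, `ke`, `kr k f` and `G' = kr k z'` (`eN_X`, `eD_X`): `gF (kr k f) * z' = f * (q dZ(q w) / dX w) * (gV (kr k z') + lkw k 1 ke (kr k z') + kf)`;
divide by `f * z'`: `gF / f = (q dZ (q w) / dX w) * (n z' + kf / z')`, as `lkw k 1 ke (kr k z') / z' = ke`. -/
theorem rot_sys (hk : 2 ≤ k) (hke : k = 2 ∨ ke = 0) (hq : 0 < q) (hqc : q < c) (hc : c < 1)
    (hkv : 0 ≤ kv) (hkf : 0 ≤ kf) (hke0 : 0 ≤ ke)
    (hEs : Es (ENNReal.ofReal (ss q c)) (ENNReal.ofReal (yy q c)) = ENNReal.ofReal (EE q c)) :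
    RotSys q c kv kf ke (nR k q c kv kf ke) (hRr k q c kv kf ke) := by
  have hke' : k = 2 ∨ ENNReal.ofReal ke = 0 := by
    rcases hke with h | h
    · exact Or.inl h
    · exact Or.inr (by rw [h, ENNReal.ofReal_zero])
  have hs := kr_pow hk (ENNReal.ofReal (ss q c))
  have hy := kr_pow hk (ENNReal.ofReal (yy q c))
  refine ⟨fun w h0 h1 => ?_, fun w h0 h1 => ?_⟩
  · obtain ⟨g1, g2, g3, g4⟩ := SysK_nfin hq hqc hc h0 h1 hEs
    have hz := kr_pow hk (ENNReal.ofReal (Zf q c w))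
    have hf := kr_pow hk (ENNReal.ofReal (Xf q c w))
    have hX : 0 < Xf q c w := Xf_pos hq hqc hc h0.le (h1.trans hqc)
    have hZ : 0 < Zf q c w := Zf_pos hq hqc hc h0.le h1
    have key := tot_eq (k := k) (S := kr k (ENNReal.ofReal (ss q c))) (F := 1)
      (Y := kr k (ENNReal.ofReal (yy q c))) (kv := ENNReal.ofReal kv) (kf := ENNReal.ofReal kf)
      (ke := ENNReal.ofReal ke) (Z := kr k (ENNReal.ofReal (Zf q c w)))
      (G := kr k (ENNReal.ofReal (Xf q c w))) hk
      (by rw [hs, hy, hz, hf, one_pow]; exact g1)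
      (by rw [hs, hy, hz, one_pow]; exact g2) (by rw [hs, hy, hz, one_pow]; exact g3)
    rw [SysK_lk hke', hs, hy, hz, hf, one_pow, g4] at key
    have h3 := SysK_alg (SysK_of hZ) ENNReal.ofReal_ne_top (SysK_of hX) ENNReal.ofReal_ne_top key
    show ENNReal.ofReal ke + _ / _ = ENNReal.ofReal ke + _
    rw [h3, ENNReal.ofReal_div_of_pos hX]
    show _ = ENNReal.ofReal ke + _ * (ENNReal.ofReal ke * ENNReal.ofReal (ss q c) + _ + _)
    congr 2
    rw [add_comm (ENNReal.ofReal ke * ENNReal.ofReal (ss q c))]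
  · obtain ⟨g1, g2, g3, g4⟩ := SysK_hfin hq hqc hc h0 h1 hEs
    have hz := kr_pow hk (ENNReal.ofReal (Zf q c (q * w)))
    have hf := kr_pow hk (ENNReal.ofReal (Xf q c w))
    have hX : 0 < Xf q c w := Xf_pos hq hqc hc h0.le (h1.trans hqc)
    have hZ : 0 < Zf q c (q * w) := lt_trans one_pos (one_lt_Zf hq hqc hc h0.le (h1.trans hqc))
    have key := tot_eq (k := k) (S := 1) (F := kr k (ENNReal.ofReal (ss q c)))
      (Y := kr k (ENNReal.ofReal (yy q c))) (kv := ENNReal.ofReal kf) (kf := ENNReal.ofReal kv)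
      (ke := ENNReal.ofReal ke) (Z := kr k (ENNReal.ofReal (Xf q c w)))
      (G := kr k (ENNReal.ofReal (Zf q c (q * w)))) hk
      (by rw [hs, hy, hz, hf, one_pow]; exact g1)
      (by rw [hs, hy, hf, one_pow]; exact g2) (by rw [hs, hy, hf, one_pow]; exact g3)
    rw [SysK_lk hke', hs, hy, hz, hf, one_pow, g4, mul_one, ← gF_dual, gF_dual k 1] at key
    have h3 := SysK_alg (SysK_of hX) ENNReal.ofReal_ne_top (SysK_of hZ) ENNReal.ofReal_ne_top key
    show ENNReal.ofReal ke * ENNReal.ofReal (ss q c) + _ / _ = _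
    rw [h3, ENNReal.ofReal_div_of_pos hZ, ENNReal.ofReal_mul hke0]
    show _ = _ + _ * (ENNReal.ofReal ke + _ + _)
    congr 2
    rw [add_comm (ENNReal.ofReal ke)]

/-- the same with `tot_trunc`; `gFt k 0 = 0` (a good map has at least 4 darts) -/
theorem rot_trunc (hk : 2 ≤ k) (hke : k = 2 ∨ ke = 0) (hq : 0 < q) (hqc : q < c) (hc : c < 1)
    (hkv : 0 ≤ kv) (hkf : 0 ≤ kf) (hke0 : 0 ≤ ke)
    (hEs : Es (ENNReal.ofReal (ss q c)) (ENNReal.ofReal (yy q c)) = ENNReal.ofReal (EE q c)) :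
    RotTrunc q c kv kf ke (nMr k q c kv kf ke) (hMr k q c kv kf ke) := by
  have hke' : k = 2 ∨ ENNReal.ofReal ke = 0 := by
    rcases hke with h | h
    · exact Or.inl h
    · exact Or.inr (by rw [h, ENNReal.ofReal_zero])
  have hs := kr_pow hk (ENNReal.ofReal (ss q c))
  have hy := kr_pow hk (ENNReal.ofReal (yy q c))
  refine ⟨fun z => if_pos rfl, fun z => if_pos rfl, fun M w h0 h1 => ?_, fun M w h0 h1 => ?_⟩
  · obtain ⟨g1, g2, g3, g4⟩ := SysK_nfin hq hqc hc h0 h1 hEs
    have hz := kr_pow hk (ENNReal.ofReal (Zf q c w))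
    have hf := kr_pow hk (ENNReal.ofReal (Xf q c w))
    have hX : 0 < Xf q c w := Xf_pos hq hqc hc h0.le (h1.trans hqc)
    have hZ : 0 < Zf q c w := Zf_pos hq hqc hc h0.le h1
    have key := tot_trunc (k := k) (S := kr k (ENNReal.ofReal (ss q c))) (F := 1)
      (Y := kr k (ENNReal.ofReal (yy q c))) (kv := ENNReal.ofReal kv) (kf := ENNReal.ofReal kf)
      (ke := ENNReal.ofReal ke) (Z := kr k (ENNReal.ofReal (Zf q c w)))
      (G := kr k (ENNReal.ofReal (Xf q c w))) hk M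
      (by rw [hs, hy, hz, hf, one_pow]; exact g1)
      (by rw [hs, hy, hz, one_pow]; exact g2) (by rw [hs, hy, hz, one_pow]; exact g3)
    rw [SysK_lk hke', hs, hy, hz, hf, one_pow, g4] at key
    have hM1 : nMr k q c kv kf ke (M + 1) (Zf q c w) = ENNReal.ofReal ke +
        gVt k (M + 1) (kr k (ENNReal.ofReal (ss q c))) 1 (kr k (ENNReal.ofReal (yy q c)))
          (ENNReal.ofReal kv) (ENNReal.ofReal kf) (ENNReal.ofReal ke)
          (kr k (ENNReal.ofReal (Zf q c w))) / ENNReal.ofReal (Zf q c w) :=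
      if_neg (Nat.succ_ne_zero M)
    rw [hM1, ENNReal.ofReal_div_of_pos hX]
    refine add_le_add le_rfl ?_
    by_cases hM : M = 0
    · subst hM
      rw [if_pos rfl, SysK_zeroF, zero_add,
        ← zero_mul (ENNReal.ofReal (Xf q c w))] at key
      have h3 := SysK_alg_le (B := 0) (L := 0) (SysK_of hZ) ENNReal.ofReal_ne_top (SysK_of hX)
        ENNReal.ofReal_ne_top (by simpa using key)
      refine h3.trans (le_of_eq ?_)
      have hh : hMr k q c kv kf ke 0 (Xf q c w) = 0 := if_pos rfl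
      rw [hh]
      simp
    · rw [if_neg hM] at key
      have h3 := SysK_alg_le (SysK_of hZ) ENNReal.ofReal_ne_top (SysK_of hX)
        ENNReal.ofReal_ne_top key
      refine h3.trans (le_of_eq ?_)
      have hh : hMr k q c kv kf ke M (Xf q c w) = ENNReal.ofReal ke * ENNReal.ofReal (ss q c) +
        gFt k M (kr k (ENNReal.ofReal (ss q c))) 1 (kr k (ENNReal.ofReal (yy q c)))
          (ENNReal.ofReal kv) (ENNReal.ofReal kf) (ENNReal.ofReal ke)
          (kr k (ENNReal.ofReal (Xf q c w))) / ENNReal.ofReal (Xf q c w) := if_neg hM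
      rw [hh]
      congr 2
      rw [add_comm (ENNReal.ofReal ke * ENNReal.ofReal (ss q c))]
  · obtain ⟨g1, g2, g3, g4⟩ := SysK_hfin hq hqc hc h0 h1 hEs
    have hz := kr_pow hk (ENNReal.ofReal (Zf q c (q * w)))
    have hf := kr_pow hk (ENNReal.ofReal (Xf q c w))
    have hX : 0 < Xf q c w := Xf_pos hq hqc hc h0.le (h1.trans hqc)
    have hZ : 0 < Zf q c (q * w) := lt_trans one_pos (one_lt_Zf hq hqc hc h0.le (h1.trans hqc))
    have key := tot_trunc (k := k) (S := 1) (F := kr k (ENNReal.ofReal (ss q c)))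
      (Y := kr k (ENNReal.ofReal (yy q c))) (kv := ENNReal.ofReal kf) (kf := ENNReal.ofReal kv)
      (ke := ENNReal.ofReal ke) (Z := kr k (ENNReal.ofReal (Xf q c w)))
      (G := kr k (ENNReal.ofReal (Zf q c (q * w)))) hk M
      (by rw [hs, hy, hz, hf, one_pow]; exact g1)
      (by rw [hs, hy, hf, one_pow]; exact g2) (by rw [hs, hy, hf, one_pow]; exact g3)
    rw [SysK_lk hke', hs, hy, hz, hf, one_pow, g4, mul_one, ← gFt_dual, gFt_dual k M 1] at key
    have hM1 : hMr k q c kv kf ke (M + 1) (Xf q c w) = ENNReal.ofReal ke * ENNReal.ofReal (ss q c) +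
        gFt k (M + 1) (kr k (ENNReal.ofReal (ss q c))) 1 (kr k (ENNReal.ofReal (yy q c)))
          (ENNReal.ofReal kv) (ENNReal.ofReal kf) (ENNReal.ofReal ke)
          (kr k (ENNReal.ofReal (Xf q c w))) / ENNReal.ofReal (Xf q c w) :=
      if_neg (Nat.succ_ne_zero M)
    rw [hM1, ENNReal.ofReal_div_of_pos hZ, ENNReal.ofReal_mul hke0]
    refine add_le_add le_rfl ?_
    by_cases hM : M = 0
    · subst hM
      rw [if_pos rfl, SysK_zero, zero_add,
        ← zero_mul (ENNReal.ofReal (Zf q c (q * w)))] at key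
      have h3 := SysK_alg_le (B := 0) (L := 0) (SysK_of hX) ENNReal.ofReal_ne_top (SysK_of hZ)
        ENNReal.ofReal_ne_top (by simpa using key)
      refine h3.trans (le_of_eq ?_)
      have hh : nMr k q c kv kf ke 0 (Zf q c (q * w)) = 0 := if_pos rfl
      rw [hh]
      simp
    · rw [if_neg hM] at key
      have h3 := SysK_alg_le (SysK_of hX) ENNReal.ofReal_ne_top (SysK_of hZ)
        ENNReal.ofReal_ne_top key
      refine h3.trans (le_of_eq ?_)
      have hh : nMr k q c kv kf ke M (Zf q c (q * w)) = ENNReal.ofReal ke +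
        gVt k M (kr k (ENNReal.ofReal (ss q c))) 1 (kr k (ENNReal.ofReal (yy q c)))
          (ENNReal.ofReal kv) (ENNReal.ofReal kf) (ENNReal.ofReal ke)
          (kr k (ENNReal.ofReal (Zf q c (q * w)))) / ENNReal.ofReal (Zf q c (q * w)) := if_neg hM
      rw [hh]
      congr 2
      rw [add_comm (ENNReal.ofReal ke)]

/-- `gV` is the supremum of the `gVt k M` (every finite sum is bounded by `gVt k M` for large `M`) -/
theorem nS_le {s y kv kf ke z B : ℝ≥0∞} (hk : 2 ≤ k)
    (h : ∀ M, nM k s y kv kf ke M z ≤ B) : nS k s y kv kf ke z ≤ B := by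
  unfold nS gV
  rw [ENNReal.tsum_eq_iSup_sum, ENNReal.iSup_div, ENNReal.add_iSup]
  refine iSup_le fun A => ?_
  set M : ℕ := (∑ c ∈ A, Fintype.card c.rep.1.T) + 1 with hM
  refine le_trans ?_ (h M)
  unfold nM
  rw [if_neg (Nat.succ_ne_zero _)]
  refine add_le_add le_rfl (ENNReal.div_le_div_right ?_ _)
  unfold gVt
  refine le_trans (Finset.sum_le_sum fun c hc => ?_) (ENNReal.sum_le_tsum A)
  have h1 : Fintype.card c.rep.1.T ≤ ∑ c ∈ A, Fintype.card c.rep.1.T :=
    Finset.single_le_sum (f := fun c : GC => Fintype.card c.rep.1.T) (fun _ _ => Nat.zero_le _) hc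
  have h2 : Fintype.card c.rep.1.T ≤ 2 * k * M := by
    have h3 : M ≤ 2 * k * M := Nat.le_mul_of_pos_left _ (by omega)
    omega
  rw [if_pos h2]

theorem rot_value (hk : 2 ≤ k) (hke : k = 2 ∨ ke = 0) (hq : 0 < q) (hqc : q < c) (hc : c < 1)
    (hkv : 0 ≤ kv) (hkf : 0 ≤ kf) (hke0 : 0 ≤ ke)
    (hEs : Es (ENNReal.ofReal (ss q c)) (ENNReal.ofReal (yy q c)) = ENNReal.ofReal (EE q c))
    {w : ℝ} (h0 : 0 < w) (h1 : w < q) :
    hRr k q c kv kf ke (Xf q c w) = ENNReal.ofReal (Hd q c kv kf ke w / dX q c w) :=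
  (rot_eq hq hqc hc hkv hkf hke0 (rot_sys hk hke hq hqc hc hkv hkf hke0 hEs)
    (fun w' h0' h1' => nS_le hk fun M =>
      (rot_le hq hqc hc hkv hkf hke0 (rot_trunc hk hke hq hqc hc hkv hkf hke0 hEs) M).1
        w' h0' h1') h0 h1).2

end

end PGr

end

section
/-! # Module SysOne: the value at 1 -/

set_option linter.unusedSectionVars false

namespace PGr
open Equiv Finset PGa
open scoped ENNReal Classical

namespace SysOneAux

theorem wF_one (k : ℕ) (S F Y kv kf ke Z : ℝ≥0∞) (M : BMap) :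
    wF k S F Y kv kf ke Z M =
      wF k S F Y kv kf ke 1 M * Z ^ dgs (M.aa * M.s) (Sum.inr true) := by
  unfold wF
  by_cases h : IsFo k M
  · rw [dif_pos h, dif_pos h]
    unfold wR
    rw [one_pow, mul_one]
  · rw [dif_neg h, dif_neg h, zero_mul]

theorem len {k : ℕ} (c : GC) (h : IsFo k c.rep.1) :
    ∃ m : ℕ, dgs (c.rep.1.aa * c.rep.1.s) (Sum.inr true) = k * (m + 1) := by
  obtain ⟨h1, -⟩ := Rot.normal (Good.dual c.rep.2) h.choose_spec
  have h2 : 0 < dgs (c.rep.1.aa * c.rep.1.s) (Sum.inr true) := by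
    unfold dgs
    rw [minimalPeriod_eq_card, card_pos]
    exact ⟨Sum.inr true, by
      simp only [mem_filter, mem_univ, true_and]; exact Perm.SameCycle.refl _ _⟩
  obtain ⟨m, hm⟩ := h1
  rcases Nat.eq_zero_or_pos m with h5 | h5
  · rw [h5, mul_zero] at hm
    omega
  · exact ⟨m - 1, by rw [hm, Nat.sub_add_cancel h5]⟩

end SysOneAux

section
variable {q c kv kf ke : ℝ} {k : ℕ}

/-- The terms of `gF` with root face of length `k * (m + 1)` give the coefficient of `f ^ m` (the length is a positive multiple of `k`, `Rot.normal` for the dual); `(kr k f) ^ (k * (m + 1)) / f = f ^ m`. -/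
theorem hS_series (hk : 2 ≤ k) (s y kv kf ke : ℝ≥0∞) : ∃ a : ℕ → ℝ≥0∞, ∀ f : ℝ≥0∞, f ≠ 0 →
    f ≠ ⊤ → hS k s y kv kf ke f = ∑' m, a m * f ^ m := by
  set W : GC → ℝ≥0∞ := fun c => wF k (kr k s) 1 (kr k y) kv kf ke 1 c.rep.1 with hW
  set L : GC → ℕ := fun c => dgs (c.rep.1.aa * c.rep.1.s) (Sum.inr true) with hL
  refine ⟨fun m => (if m = 0 then ke * s else 0) +
    ∑' c : GC, if L c = k * (m + 1) then W c else 0, fun f hf hf' => ?_⟩
  have e1 : ∑' m : ℕ, (if m = 0 then ke * s else 0) * f ^ m = ke * s := by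
    rw [tsum_eq_single 0]
    · simp
    · intro m hm
      rw [if_neg hm, zero_mul]
  have e2 : ∑' m : ℕ, ((if m = 0 then ke * s else 0) +
      ∑' c : GC, if L c = k * (m + 1) then W c else 0) * f ^ m =
      ke * s + ∑' m : ℕ, (∑' c : GC, if L c = k * (m + 1) then W c else 0) * f ^ m := by
    rw [← e1, ← ENNReal.tsum_add]
    rw [e1]
    exact tsum_congr fun m => add_mul _ _ _
  rw [e2]
  unfold hS
  congr 1
  unfold gF
  rw [ENNReal.div_eq_inv_mul, ← ENNReal.tsum_mul_left]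
  have e3 : ∀ m : ℕ, (∑' c : GC, if L c = k * (m + 1) then W c else 0) * f ^ m =
      ∑' c : GC, (if L c = k * (m + 1) then W c else 0) * f ^ m := fun m =>
    (ENNReal.tsum_mul_right).symm
  rw [tsum_congr e3, ENNReal.tsum_comm]
  refine tsum_congr fun c => ?_
  rw [SysOneAux.wF_one]
  by_cases hc : IsFo k c.rep.1
  · obtain ⟨m, hm⟩ := SysOneAux.len c hc
    rw [tsum_eq_single m]
    · have h1 : L c = k * (m + 1) := hm
      rw [if_pos h1, hm, pow_mul, kr_pow hk, pow_succ, mul_comm (f ^ m) f]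
      rw [show f⁻¹ * (wF k (kr k s) 1 (kr k y) kv kf ke 1 c.rep.1 * (f * f ^ m)) =
        (f⁻¹ * f) * (wF k (kr k s) 1 (kr k y) kv kf ke 1 c.rep.1 * f ^ m) by ring]
      rw [ENNReal.inv_mul_cancel hf hf', one_mul]
    · intro m' hm'
      have h1 : L c ≠ k * (m' + 1) := by
        intro h2
        have h3 : k * (m' + 1) = k * (m + 1) := by rw [← h2]; exact hm
        have h4 := Nat.eq_of_mul_eq_mul_left (by omega) h3
        omega
      rw [if_neg h1, zero_mul]
  · have h0 : wF k (kr k s) 1 (kr k y) kv kf ke 1 c.rep.1 = 0 := by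
      unfold wF
      rw [dif_neg hc]
    rw [h0]
    have h1 : W c = 0 := h0
    simp [h1]

private theorem SysOne_cX (hq : 0 < q) (hqc : q < c) (hc : c < 1) {w : ℝ} (_h0 : 0 < w) (h1 : w ≤ q) :
    ContinuousAt (dX q c) w := by
  have n1 : c - q * w ≠ 0 := by nlinarith
  have n2 : 1 - w ≠ 0 := by linarith
  unfold dX
  refine ContinuousAt.div (by fun_prop) (by fun_prop) (by positivity)

private theorem SysOne_cZ (hq : 0 < q) (hqc : q < c) (hc : c < 1) {w : ℝ} (_h0 : 0 < w) (h1 : w ≤ q) :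
    ContinuousAt (fun w => dZ q c (q * w)) w := by
  have n1 : c - q * w ≠ 0 := by nlinarith
  have n2 : 1 - q * w ≠ 0 := by nlinarith
  unfold dZ
  refine ContinuousAt.div (by fun_prop) (by fun_prop) (by positivity)

private theorem SysOne_cf (hq : 0 < q) (hqc : q < c) (hc : c < 1) {w : ℝ} (_h0 : 0 < w) (h1 : w ≤ q) :
    ContinuousAt (fun w => Zf q c (q * w)) w := by
  have n1 : c - q * w ≠ 0 := by nlinarith
  have n2 : 1 - q * w ≠ 0 := by nlinarith
  have n3 : q * (1 - c) * (1 + q) ≠ 0 := by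
    have : 0 < 1 - c := by linarith
    positivity
  unfold Zf
  refine ContinuousAt.div (by fun_prop) (by fun_prop) ?_
  exact mul_ne_zero (mul_ne_zero n3 n1) n2

private theorem SysOne_cN (hq : 0 < q) (hqc : q < c) (hc : c < 1) {w : ℝ} (_h0 : 0 < w) (h1 : w ≤ q) :
    ContinuousAt (fun w => Nd q c kv kf ke (q * w)) w := by
  have hqw : q * w < q := by nlinarith
  have n1 : c - q * w ≠ 0 := by linarith
  have n2 : 1 - q * w ≠ 0 := by linarith
  have n3 : c - q * (q * w) ≠ 0 := by nlinarith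
  unfold Nd dNv dNf dNe
  refine ContinuousAt.add (ContinuousAt.add ?_ ?_) ?_
  · refine ContinuousAt.mul (by fun_prop) (ContinuousAt.sub ?_ ?_)
    · exact ContinuousAt.div (by fun_prop) (by fun_prop) n2
    · exact ContinuousAt.div (by fun_prop) (by fun_prop) n1
  · refine ContinuousAt.mul (by fun_prop) (ContinuousAt.sub ?_ ?_)
    · exact ContinuousAt.div (by fun_prop) (by fun_prop) n3
    · exact ContinuousAt.div (by fun_prop) (by fun_prop) n2
  · refine ContinuousAt.mul (by fun_prop) ?_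
    exact ContinuousAt.div (by fun_prop) (by fun_prop) (pow_ne_zero _ n1)

private theorem SysOne_cH (hq : 0 < q) (hqc : q < c) (hc : c < 1) :
    ContinuousOn (fun w => Hd q c kv kf ke w / dX q c w) (Set.Ioc 0 q) := by
  intro w hw
  refine ContinuousAt.continuousWithinAt ?_
  have h0 := hw.1
  have h1 := hw.2
  have hqw : q * w < q := by nlinarith
  refine ContinuousAt.div ?_ (SysOne_cX hq hqc hc h0 h1) (dX_neg hq hqc hc h0.le (by linarith)).ne
  unfold Hd
  refine ContinuousAt.add (ContinuousAt.add ?_ ?_) ?_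
  · exact continuousAt_const.mul (continuousAt_const.mul (SysOne_cX hq hqc hc h0 h1))
  · exact continuousAt_const.mul (SysOne_cN hq hqc hc h0 h1)
  · refine continuousAt_const.mul (ContinuousAt.div (continuousAt_const.mul
      (SysOne_cZ hq hqc hc h0 h1)) (SysOne_cf hq hqc hc h0 h1) ?_)
    exact (Zf_pos hq hqc hc (by positivity) hqw).ne'

/-- `series_at` with `x = Xf`, `w0 = 0`, `w1 = q`, `b = 1` (`Xf_q`, `one_lt_Xf`), `g w = Hd w / dX w` (continuous on `(0, q]`: `Nd`, `dZ`, `dX` are rational functions without poles there, `dX_neg`;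
`Hd_nonpos`), `hS_series`, `rot_value` -/
theorem hS_one (hk : 2 ≤ k) (hke : k = 2 ∨ ke = 0) (hq : 0 < q) (hqc : q < c) (hc : c < 1)
    (hkv : 0 ≤ kv) (hkf : 0 ≤ kf) (hke0 : 0 ≤ ke)
    (hEs : Es (ENNReal.ofReal (ss q c)) (ENNReal.ofReal (yy q c)) = ENNReal.ofReal (EE q c)) :
    hRr k q c kv kf ke 1 = ENNReal.ofReal (Hd q c kv kf ke q / dX q c q) := by
  obtain ⟨a, ha⟩ := hS_series hk (ENNReal.ofReal (ss q c)) (ENNReal.ofReal (yy q c))
    (ENNReal.ofReal kv) (ENNReal.ofReal kf) (ENNReal.ofReal ke)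
  have h1 : hRr k q c kv kf ke 1 = ∑' m, a m * ENNReal.ofReal 1 ^ m := by
    refine ha _ ?_ ENNReal.ofReal_ne_top
    rw [ENNReal.ofReal_one]
    exact one_ne_zero
  rw [h1]
  refine series_at a (Xf q c) (fun w => Hd q c kv kf ke w / dX q c w) (w0 := 0) (w1 := q) hq
    zero_le_one ?_ (SysOne_cH hq hqc hc) (Xf_q hq hqc hc)
    (fun w h0 h1 => one_lt_Xf hq hqc hc h0.le h1) ?_ ?_
  · intro w hw
    exact (hasDerivAt_Xf hq hqc hc hw.1.le (by linarith [hw.2])).continuousAt.continuousWithinAt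
  · intro w h0 h1
    exact div_nonneg_of_nonpos (Hd_nonpos hq hqc hc hkv hkf hke0 h0.le (h1.trans hqc))
      (dX_neg hq hqc hc h0.le (by linarith)).le
  · intro w h0 h1
    have hX := one_lt_Xf hq hqc hc h0.le h1
    rw [← ha _ (by simpa using by linarith) ENNReal.ofReal_ne_top]
    exact rot_value hk hke hq hqc hc hkv hkf hke0 hEs h0 h1

/-- The value, in terms of `u`, `v`, `s`.  (`Hd q c kv kf ke q = ke * (ss * dX q) + q * Nd (q * q) + kf * (q * dZ (q * q) / Zf (q * q))`; rational functions of `q`, `c`: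
for the coefficients of `kv`, `kf`, `ke` separately `field_simp; ring`.)  Numerical check done. -/
theorem Hd_q (hq : 0 < q) (hqc : q < c) (hc : c < 1) :
    Hd q c kv kf ke q / dX q c q =
      kv * (uu q c * vv q c / (1 - uu q c - uu q c * vv q c)) +
      kf * (ss q c * vv q c * (1 - uu q c) ^ 2 /
        ((1 - vv q c) * (1 - uu q c - uu q c * vv q c))) +
      ke * (ss q c * (1 - uu q c) / ((1 - vv q c) * (1 - uu q c - uu q c * vv q c))) := by
  have hq1 : q < 1 := hqc.trans hc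
  have n1 : (1 - q * c) ≠ 0 := by nlinarith
  have n2 : (c - q ^ 2) ≠ 0 := by nlinarith
  have n3 : (1 + q) ≠ 0 := by linarith
  have n4 : (1 - c) ≠ 0 := by linarith
  have n5 : (c - q) ≠ 0 := by linarith
  have n6 : (1 - q) ≠ 0 := by linarith
  have n7 : q ≠ 0 := hq.ne'
  have n8 : (c - q ^ 3) ≠ 0 := by nlinarith [mul_pos hq hq]
  have hc0 : c ≠ 0 := by linarith
  have hu : uu q c = (c - q) / (1 - q * c) := rfl
  have hu1 : 1 - uu q c = (1 + q) * (1 - c) / (1 - q * c) := by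
    rw [hu, eq_div_iff n1, sub_mul, div_mul_cancel₀ _ n1]; ring
  have hv : vv q c = q * (1 - c) / (c - q ^ 2) := rfl
  have hv1 : 1 - vv q c = (1 + q) * (c - q) / (c - q ^ 2) := by
    rw [hv, eq_div_iff n2, sub_mul, div_mul_cancel₀ _ n2]; ring
  have huv : 1 - uu q c - uu q c * vv q c = (1 - c) * (c - q ^ 3) / ((1 - q * c) * (c - q ^ 2)) := by
    rw [hu1, hu, hv]
    field_simp
    ring
  have hs : ss q c = (c - q) ^ 3 * (1 - q * c) / (q * (1 - c) ^ 3 * (c - q ^ 2)) := by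
    unfold ss
    rw [hu1, hv1, hu, hv]
    field_simp
  have hdX : dX q c q = -((1 - c) * (c - q ^ 3)) / ((c - q) * (1 + q) * (c - q ^ 2) * (1 - q)) := by
    unfold dX
    have e : c - q * q = c - q ^ 2 := by ring
    rw [e]
    field_simp
  have n9 : (1 - q ^ 2) ≠ 0 := by
    have : (1 - q ^ 2) = (1 - q) * (1 + q) := by ring
    rw [this]; exact mul_ne_zero n6 n3
  have n10 : c - q * (q * q) ≠ 0 := by
    have : c - q * (q * q) = c - q ^ 3 := by ring
    rw [this]; exact n8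
  have hNv : q * dNv c (q * q) = -(q * (1 - c)) / ((1 - q ^ 2) * (c - q ^ 2)) := by
    unfold dNv
    have e : c - q * q = c - q ^ 2 := by ring
    have e' : 1 - q * q = 1 - q ^ 2 := by ring
    rw [e, e']
    field_simp
    ring
  have hNf : q * dNf q c (q * q) = q * (q / (c - q ^ 3) - 1 / (1 - q ^ 2)) := by
    unfold dNf
    have e : c - q * (q * q) = c - q ^ 3 := by ring
    have e' : 1 - q * q = 1 - q ^ 2 := by ring
    rw [e, e']
  have hNe : q * dNe q c (q * q) = -((1 - q * c) * (c - q) * (1 - q) * c / ((1 - c) ^ 2 * (1 + q))) / (c - q ^ 2) ^ 2 := by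
    unfold dNe
    have e : c - q * q = c - q ^ 2 := by ring
    rw [e]
    field_simp
  have hZ : Zf q c (q * q) = (1 - q * c) * (c - q ^ 3) / ((1 - c) * (1 + q) ^ 2 * (c - q ^ 2)) := by
    unfold Zf
    have e : c - q * q = c - q ^ 2 := by ring
    have e' : 1 - q * q = (1 - q) * (1 + q) := by ring
    have e2 : c - q * (q * q) = c - q ^ 3 := by ring
    have e3 : q - q * q = q * (1 - q) := by ring
    rw [e, e', e2, e3]
    field_simp
  have hdZ : dZ q c (q * q) = -((1 - q * c) * (c - q) * (c - q ^ 4)) /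
      (q * (1 - c) * (1 + q) ^ 3 * (1 - q) * (c - q ^ 2) ^ 2) := by
    unfold dZ
    have e : c - q * q = c - q ^ 2 := by ring
    have e' : 1 - q * q = (1 - q) * (1 + q) := by ring
    have e2 : c - (q * q) ^ 2 = c - q ^ 4 := by ring
    rw [e, e', e2]
    field_simp
  have main : Hd q c kv kf ke q = kv * (q * dNv c (q * q)) + kf * (q * dNf q c (q * q) +
      q * dZ q c (q * q) / Zf q c (q * q)) + ke * (ss q c * dX q c q + q * dNe q c (q * q)) := by
    unfold Hd Nd
    ring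
  rw [main, hNv, hNf, hNe, hZ, hdZ, huv, hs, hdX, hu1, hv1, hu, hv]
  have a1 : kv * (-(q * (1 - c)) / ((1 - q ^ 2) * (c - q ^ 2))) / (-((1 - c) * (c - q ^ 3)) / ((c - q) * (1 + q) * (c - q ^ 2) * (1 - q))) =
    kv * ((c - q) / (1 - q * c) * (q * (1 - c) / (c - q ^ 2)) / ((1 - c) * (c - q ^ 3) / ((1 - q * c) * (c - q ^ 2)))) := by
    rw [show (1 - q ^ 2) = (1 - q) * (1 + q) by ring]
    field_simp
  rw [add_div, add_div, a1]
  congr 1
  · congr 1
    rw [show (1 - q ^ 2) = (1 - q) * (1 + q) by ring]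
    field_simp
    ring
  · field_simp
    ring

end

end PGr

end
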