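import Pool.Agent.PGm.M06
import Pool.Agent.PGm.M13
import Pool.Agent.PGm.M21
import Pool.Agent.PGm.M22
import Pool.Agent.PGm.M23
import Pool.Agent.PGm.M24
import Pool.Agent.PGm.M30
import Pool.Agent.PGm.M32

section
/-! # Module ConvR: the sums over reduced maps in the two forms -/

set_option linter.unusedSectionVars false

namespace PGr
open Equiv Finset
open scoped ENNReal Classical

private theorem cr_tw {c : Bool} {M : BMap} (hM : M.IsGood) (e : Perm M.T) :
    TwI true c M M e ↔ Refl M.aa M.s e ∧ e (Sum.inr true) = Sum.inr (xor c true) := by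
  constructor
  · intro h
    exact ⟨h.refl_ hM, h.root true⟩
  · rintro ⟨h, h1⟩
    refine ⟨h.ea, fun t => ?_, fun b => ?_⟩
    · rw [twS_true, Perm.eq_inv_iff_eq]
      exact h.es t
    · cases b
      · have h2 : (Sum.inr false : M.T) = M.aa (Sum.inr true) := rfl
        rw [h2, h.ea, h1]
        cases c <;> rfl
      · exact h1

/-- a reflection of the rooted map with root of type `C` is a `TwI true true` -/
theorem twI_C {M : BMap} (hM : M.IsGood) (e : Perm M.T) :
    TwI true true M M e ↔ Refl M.aa M.s e ∧ e (Sum.inr true) = M.aa (Sum.inr true) :=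
  cr_tw hM e
theorem twI_X {M : BMap} (hM : M.IsGood) (e : Perm M.T) :
    TwI true false M M e ↔ Refl M.aa M.s e ∧ e (Sum.inr true) = Sum.inr true :=
  cr_tw hM e

/-- `AxSet` has the additional condition `rest`; a set with `A ∪ root = univ` contains darts at the poles, excluded by `pole_free` (its proof does not use
`rest`; reprove it here for sets without `rest`) -/
theorem mred_C {M : BMap} (hM : M.IsGood) {e : Perm M.T} (he : TwI true true M M e) :
    MRed M.aa M.s e (Sum.inr true) ↔ ARed M e := by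
  constructor
  · intro h A hA
    exact h A hA.cl hA.inv hA.cut4 hA.root hA.ends
  · intro h A hcl hinv h4 hr hends
    by_cases hrest : A ∪ M.root = univ
    · exfalso
      obtain ⟨d, hd⟩ := exists_fst ⟨M, hM⟩ true
      have hd' : M.s (Sum.inr true) = Sum.inl d := hd
      have hx : (Sum.inl d : M.T) ∈ A := by
        have h1 : (Sum.inl d : M.T) ∈ A ∪ M.root := by rw [hrest]; exact mem_univ _
        rw [mem_union] at h1
        rcases h1 with h1 | h1
        · exact h1
        · simp [BMap.root] at h1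
      have hc : M.s.SameCycle (Sum.inl d) (Sum.inr true) := by
        rw [← hd']
        exact Perm.sameCycle_apply_left.2 (Perm.SameCycle.refl _ _)
      obtain ⟨z, hz, hz'⟩ := Four.exists_bd_of_shC (s := M.s) (A := A) (t := Sum.inl d)
        ⟨⟨Sum.inl d, hx, Perm.SameCycle.refl _ _⟩, Sum.inr true, hr, hc⟩
      have h2 := hends z hz
      have h3 : M.s.SameCycle (Sum.inr true) z := hc.symm.trans hz'
      have h4 : M.s.SameCycle (e (Sum.inr true)) (e z) := (he.sameCycle _ _).1 h3
      have h5 : M.s.SameCycle (Sum.inr true) (e (Sum.inr true)) := h3.trans (h2.trans h4.symm)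
      rw [he.root] at h5
      exact Good.noLoop hM (Sum.inr true) h5
    · exact h A ⟨hcl, hinv, h4, hr, hrest, hends⟩

/-- `VT_RW`, `VT_C`; `h.choose` is the unique reflection (`refl_unique`) -/
theorem rsumC_eq {w : Wt} {x k y1 A y : ℝ≥0∞} (hw : WOK w x k y1 A y) :
    RSum .C x k y1 A y = A * y * k * EC w := by
  unfold RSum EC
  rw [← ENNReal.tsum_mul_left]
  refine tsum_congr fun c => ?_
  have hM : c.rep.1.IsGood := c.rep.2
  by_cases h : ∃ e : Perm c.rep.1.T, Refl c.rep.1.aa c.rep.1.s e ∧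
      MTy c.rep.1.aa c.rep.1.s e (Sum.inr true) .C ∧ MRed c.rep.1.aa c.rep.1.s e (Sum.inr true)
  · rw [dif_pos h]
    obtain ⟨h1, h2, h3⟩ := h.choose_spec
    have h4 : TwI true true c.rep.1 c.rep.1 h.choose := (twI_C hM _).2 ⟨h1, h2⟩
    rw [sw_of w hM h4, if_pos ((mred_C hM h4).1 h3), ← VT_RW hM h1 hw, VT_C hM h4]
    have h5 : w.cr ^ 2 * w.vx ^ 2 * w.dt ^ 2 = A * y * k := by
      calc w.cr ^ 2 * w.vx ^ 2 * w.dt ^ 2 = (w.cr ^ 2 * w.dt ^ 2) * w.vx ^ 2 := by ring
        _ = A * y * k := by rw [hw.hA, hw.hk]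
    rw [h5]
  · rw [dif_neg h]
    by_cases h' : ∃ e : Perm c.rep.1.T, TwI true true c.rep.1 c.rep.1 e
    · obtain ⟨e, he⟩ := h'
      rw [sw_of w hM he, if_neg, mul_zero]
      intro h1
      obtain ⟨h2, h3⟩ := (twI_C hM e).1 he
      exact h ⟨e, h2, h3, (mred_C hM he).2 h1⟩
    · rw [sw_none w h', mul_zero]

private theorem cr_inv {T : Type} [Fintype T] [DecidableEq T] {a s e : Perm T}
    (he : Refl a s e) {A : Finset T} (hi : ∀ t ∈ A, e t ∈ A) : ∀ t ∈ Aᶜ, e t ∈ Aᶜ := by
  intro t ht
  rw [mem_compl] at ht ⊢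
  intro h1
  have h2 := hi _ h1
  rw [he.ee] at h2
  exact ht h2

private theorem cr_bd {T : Type} [Fintype T] [DecidableEq T] (s : Perm T) (A : Finset T) :
    bd s Aᶜ = bd s A := by
  ext t
  rw [mem_bd, mem_bd, mem_compl, mem_compl]
  tauto

private theorem cr_two {T : Type} [Fintype T] [DecidableEq T] {B : Finset T} {u v : T}
    (hc : B.card = 2) (hu : u ∈ B) (hv : v ∈ B) (hne : u ≠ v) : B = {u, v} := by
  symm
  apply eq_of_subset_of_card_le
  · intro t ht
    rw [mem_insert, mem_singleton] at ht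
    rcases ht with rfl | rfl
    · exact hu
    · exact hv
  · rw [hc, card_pair hne]

/-- Let `M` have a reflection `e` and let `r' = s r` be on the axis, `e r ≠ r`.  The sets `A` of `MRed` at `r` and the sets `AxSet` for the root `r'`: if `A` does not contain `r` nor `r'`, it belongs to both.  If `A` is an `AxSet` for the root
`r'` which contains `r`, its complement is a set for `MRed` at `r` which contains `r'`, so a single edge by `MRed`, that is `A ∪ root' = univ`, excluded.  If `A` is a set for `MRed` at `r` which contains `r'` and is not the edge of `r'`, its complement is an `AxSet` for the root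
`r'` which contains `r`; if it is a single edge this edge is invariant, `e r = a r` (as `e r ≠ r`), but `e r = s (s r)` is at the vertex of `r`: a loop, contradiction. -/
theorem mred_X {T : Type} [Fintype T] [DecidableEq T] {a s e : Perm T} (h : Good a s)
    (he : Refl a s e) {r : T} (h1 : e (s r) = s r) (h2 : e r ≠ r) :
    MRed a s e r ↔ ∀ A : Finset T, Cl a A → (∀ t ∈ A, e t ∈ A) → cut s A = 4 → s r ∉ A →
      A ∪ {s r, a (s r)} ≠ univ → (∀ t ∈ bd s A, s.SameCycle t (e t)) → A.card = 2 := by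
  constructor
  · intro hm A hcl hi h4 hsr hrest hends
    by_cases hr : r ∈ A
    · exfalso
      have h3 := hm Aᶜ hcl.compl (cr_inv he hi) (by rw [cut_compl, h4])
        (fun h5 => (mem_compl.1 h5) hr) (by rw [cr_bd]; exact hends)
      have h5 : Aᶜ = {s r, a (s r)} := cr_two h3 (mem_compl.2 hsr)
        (mem_compl.2 (fun h6 => hsr ((hcl (s r)).1 h6))) (h.fpf _).symm
      apply hrest
      rw [← h5]
      exact union_compl A
    · exact hm A hcl hi h4 hr hends
  · intro hx A hcl hi h4 hr hends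
    by_cases hsr : s r ∈ A
    · by_cases hrest : Aᶜ ∪ {s r, a (s r)} = univ
      · have h3 : A = {s r, a (s r)} := by
          ext t
          constructor
          · intro ht
            have h5 : t ∈ Aᶜ ∪ {s r, a (s r)} := by rw [hrest]; exact mem_univ _
            rw [mem_union] at h5
            rcases h5 with h5 | h5
            · exact absurd ht (mem_compl.1 h5)
            · exact h5
          · intro ht
            rw [mem_insert, mem_singleton] at ht
            rcases ht with rfl | rfl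
            · exact hsr
            · exact (hcl _).2 hsr
        rw [h3, card_pair (h.fpf _).symm]
      · exfalso
        have h3 := hx Aᶜ hcl.compl (cr_inv he hi) (by rw [cut_compl, h4])
          (fun h5 => (mem_compl.1 h5) hsr) hrest (by rw [cr_bd]; exact hends)
        have har : a r ∉ A := fun h6 => hr ((hcl r).1 h6)
        have h5 : Aᶜ = {r, a r} := cr_two h3 (mem_compl.2 hr) (mem_compl.2 har) (h.fpf _).symm
        have h6 : e r ∈ Aᶜ := cr_inv he hi r (mem_compl.2 hr)
        rw [h5, mem_insert, mem_singleton] at h6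
        have h7 : e r = a r := h6.resolve_left h2
        have h8 : s (s r) = e r := by
          rw [← he.es r, h1]
        apply h.noLoop r
        rw [← h7, ← h8]
        exact ⟨2, by rw [zpow_two, Perm.mul_apply]⟩
    · refine hx A hcl hi h4 hsr ?_ hends
      intro hrest
      have h3 : r ∈ A ∪ {s r, a (s r)} := by rw [hrest]; exact mem_univ _
      rw [mem_union, mem_insert, mem_singleton] at h3
      rcases h3 with h3 | h3 | h3
      · exact hr h3
      · exact h.s_ne r h3.symm
      · apply h.s_ne_a r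
        have h5 := congrArg a h3
        rw [h.inv] at h5
        exact h5.symm

private noncomputable def crN (c : GC) : GC :=
  gcl c.rep.1.aa c.rep.1.s (c.rep.1.s (Sum.inr true)) c.rep.2

private noncomputable def crP (c : GC) : GC :=
  gcl c.rep.1.aa c.rep.1.s (c.rep.1.s⁻¹ (Sum.inr true)) c.rep.2

private theorem crN_iso (c : GC) : ∃ f : c.rep.1.T ≃ (crN c).rep.1.T,
    (∀ t, f (c.rep.1.aa t) = (crN c).rep.1.aa (f t)) ∧
    (∀ t, f (c.rep.1.s t) = (crN c).rep.1.s (f t)) ∧
    f (c.rep.1.s (Sum.inr true)) = Sum.inr true :=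
  gcl_iso _ _ _ _

private theorem crP_iso (c : GC) : ∃ f : c.rep.1.T ≃ (crP c).rep.1.T,
    (∀ t, f (c.rep.1.aa t) = (crP c).rep.1.aa (f t)) ∧
    (∀ t, f (c.rep.1.s t) = (crP c).rep.1.s (f t)) ∧
    f (c.rep.1.s⁻¹ (Sum.inr true)) = Sum.inr true :=
  gcl_iso _ _ _ _

private theorem cr_is {T : Type} (s : Perm T) (t : T) : s⁻¹ (s t) = t := by simp

private theorem cr_si {T : Type} (s : Perm T) (t : T) : s (s⁻¹ t) = t := by simp

private theorem crN_P (c : GC) : crN (crP c) = c := by
  obtain ⟨f, h1, h2, h3⟩ := crP_iso c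
  conv_rhs => rw [← gcl_rep c]
  unfold crN
  symm
  rw [gcl_eq_iff]
  refine ⟨f, h1, h2, ?_⟩
  have h5 := h2 (c.rep.1.s⁻¹ (Sum.inr true))
  rw [cr_si, h3] at h5
  exact h5

private theorem crP_N (c : GC) : crP (crN c) = c := by
  obtain ⟨f, h1, h2, h3⟩ := crN_iso c
  conv_rhs => rw [← gcl_rep c]
  unfold crP
  symm
  rw [gcl_eq_iff]
  refine ⟨f, h1, h2, ?_⟩
  have h5 := h2 (Sum.inr true)
  rw [h3] at h5
  rw [h5, cr_is]

private noncomputable def crE : GC ≃ GC := ⟨crN, crP, crP_N, crN_P⟩

private theorem cr_term {w : Wt} {x k y1 A y : ℝ≥0∞} (hw : WOK w x k y1 A y) {M N : BMap}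
    (hM : M.IsGood) (hN : N.IsGood) (f : M.T ≃ N.T) (f1 : ∀ t, f (M.aa t) = N.aa (f t))
    (f2 : ∀ t, f (M.s t) = N.s (f t)) (f3 : f (M.s (Sum.inr true)) = Sum.inr true) :
    (if h : ∃ e : Perm M.T, Refl M.aa M.s e ∧
      MTy M.aa M.s e (Sum.inr true) .X ∧ MRed M.aa M.s e (Sum.inr true) then
      RW x k y1 A y M.aa M.s h.choose else 0) = x * w.vx * y1 * swX w N := by
  set q : N.T := f (Sum.inr true) with hq
  have hsq : N.s q = Sum.inr true := by rw [hq, ← f2]; exact f3
  have hqi : N.s⁻¹ (Sum.inr true) = q := by rw [← hsq, cr_is]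
  -- the reflections of `N`
  have key : ∀ e' : Perm N.T, Refl N.aa N.s e' → e' (Sum.inr true) = Sum.inr true → e' q ≠ q →
      (MRed N.aa N.s e' q ↔ ARed N e') := by
    intro e' he' h1 h2
    rw [mred_X hN he' (by rw [hsq]; exact h1) h2, hsq]
    constructor
    · intro h3 B hB
      exact h3 B hB.cl hB.inv hB.cut4 hB.root hB.rest hB.ends
    · intro h3 B b1 b2 b3 b4 b5 b6
      exact h3 B ⟨b1, b2, b3, b4, b5, b6⟩
  by_cases h : ∃ e : Perm M.T, Refl M.aa M.s e ∧ MTy M.aa M.s e (Sum.inr true) .X ∧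
      MRed M.aa M.s e (Sum.inr true)
  · rw [dif_pos h]
    obtain ⟨h1, h2, h3⟩ := h.choose_spec
    set e := h.choose with hed
    have g1 := Refl_iso f f1 f2 h1
    have g2 := MTy_iso f f1 f2 h2
    have g3 := MRed_iso f f1 f2 h3
    have g4 := RW_iso (e := e) f f1 f2 x k y1 A y
    set e' := (f.symm.trans e).trans f with he'
    rw [← hq] at g2 g3
    have g5 : e' (N.s q) = N.s q ∧ e' q ≠ q := g2
    rw [hsq] at g5
    have g6 : TwI true false N N e' := (twI_X hN e').2 ⟨g1, g5.1⟩
    rw [← g4, ← VT_RW hN g1 hw, VT_X hN g6, swX_of w hN g6, hqi,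
      if_pos ⟨(key e' g1 g5.1 g5.2).1 g3, g5.2⟩]
    have h5 : w.ax ^ 2 * w.vx ^ 2 * w.dt ^ 2 = x * w.vx * y1 := by
      calc w.ax ^ 2 * w.vx ^ 2 * w.dt ^ 2 = (w.ax ^ 2 * w.dt ^ 2) * w.vx ^ 2 := by ring
        _ = y1 * w.bi ^ 2 * w.vx ^ 2 := by rw [hw.hy1]
        _ = (w.bi ^ 2 * w.vx) * w.vx * y1 := by ring
        _ = x * w.vx * y1 := by rw [hw.hx]
    rw [h5]
  · rw [dif_neg h]
    by_cases h' : ∃ e' : Perm N.T, TwI true false N N e'
    · obtain ⟨e', he'⟩ := h'
      rw [swX_of w hN he', hqi, if_neg, mul_zero]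
      rintro ⟨h1, h2⟩
      obtain ⟨h3, h4⟩ := (twI_X hN e').1 he'
      apply h
      have f1' : ∀ t, f.symm (N.aa t) = M.aa (f.symm t) := by
        intro t
        rw [Equiv.symm_apply_eq, f1, Equiv.apply_symm_apply]
      have f2' : ∀ t, f.symm (N.s t) = M.s (f.symm t) := by
        intro t
        rw [Equiv.symm_apply_eq, f2, Equiv.apply_symm_apply]
      have f3' : f.symm q = Sum.inr true := by rw [hq, Equiv.symm_apply_apply]
      have h5 : MTy N.aa N.s e' q .X := by
        show e' (N.s q) = N.s q ∧ e' q ≠ q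
        rw [hsq]
        exact ⟨h4, h2⟩
      have g1 := Refl_iso f.symm f1' f2' h3
      have g2 := MTy_iso f.symm f1' f2' h5
      have g3 := MRed_iso f.symm f1' f2' ((key e' h3 h4 h2).2 h1)
      rw [f3'] at g2 g3
      exact ⟨_, g1, g2, g3⟩
    · rw [swX_none w h', mul_zero]

/-- The map `c ↦ gcl aa s (s (inr true))` (next root dart) is a bijection of the classes (its inverse takes the previous dart); `gcl_iso`, `mred_X`, `VT_RW`, `VT_X`; `w.ax² w.vx² w.dt² = y1 w.bi² w.vx² = y1 x w.vx` -/
theorem rsumX_eq {w : Wt} {x k y1 A y : ℝ≥0∞} (hw : WOK w x k y1 A y) :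
    RSum .X x k y1 A y = x * w.vx * y1 * ∑' c : GC, swX w c.rep.1 := by
  unfold RSum
  rw [← ENNReal.tsum_mul_left, ← crE.tsum_eq (fun c => x * w.vx * y1 * swX w c.rep.1)]
  refine tsum_congr fun c => ?_
  obtain ⟨f, f1, f2, f3⟩ := crN_iso c
  exact cr_term hw c.rep.2 (crN c).rep.2 f f1 f2 f3

theorem rsumG_eq {w : Wt} {x k y1 A y : ℝ≥0∞} (hw : WOK w x k y1 A y) :
    RSum .G x k y1 A y = SG w := by
  unfold RSum SG
  refine tsum_congr fun c => ?_
  have hM : c.rep.1.IsGood := c.rep.2
  by_cases h : ∃ e : Perm c.rep.1.T, Refl c.rep.1.aa c.rep.1.s e ∧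
      MTy c.rep.1.aa c.rep.1.s e (Sum.inr true) .G ∧ MRed c.rep.1.aa c.rep.1.s e (Sum.inr true)
  · rw [dif_pos h]
    obtain ⟨h1, h2, h3⟩ := h.choose_spec
    rw [Finset.sum_eq_single h.choose]
    · rw [if_pos ⟨h1, h2, h3⟩, VT_RW hM h1 hw]
    · intro e' _ hne
      rw [if_neg]
      rintro ⟨g1, g2, g3⟩
      apply hne
      exact refl_unique (ty := .G) (r := Sum.inr true) hM g1 h1 g2 h2
    · intro h4
      exact absurd (mem_univ _) h4
  · rw [dif_neg h]
    symm
    refine Finset.sum_eq_zero fun e _ => ?_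
    rw [if_neg]
    rintro ⟨g1, g2, g3⟩
    exact h ⟨e, g1, g2, g3⟩

end PGr

end

section
/-! # Module GSum: the equation for the reduced maps with bisected root corner -/

set_option linter.unusedSectionVars false

namespace PGr
open Equiv Finset
open scoped ENNReal Classical

/-- the involution `twC m c` of the classes -/
private noncomputable def GSum_tw (m c : Bool) : GC ≃ GC where
  toFun := twC m c
  invFun := twC m c
  left_inv := twC_inv m c
  right_inv := twC_inv m c

private theorem GSum_sum (σ : GC ≃ GC) (hσ : ∀ x, σ (σ x) = x) (P : GC → Prop)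
    (hP : ∀ x, P (σ x) ↔ P x) (op : GC → GC → GC)
    (hop : ∀ a b, σ (op a b) = op (σ b) (σ a))
    (hs : ∀ g : GC → ℝ≥0∞, (∑' x : GC, if P x then g x else 0) =
      ∑' a : GC, ∑' b : GC, if ¬ P a then g (op a b) else 0) (g : GC → ℝ≥0∞) :
    (∑' x : GC, if P x then g x else 0) =
      ∑' x : GC, ∑' z : GC, if ¬ P z then g (op x z) else 0 := by
  have h1 : (∑' x : GC, if P x then g x else 0) = ∑' x : GC, if P x then g (σ x) else 0 := by
    rw [← σ.tsum_eq]
    refine tsum_congr fun x => ?_
    by_cases h : P x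
    · rw [if_pos h, if_pos ((hP x).2 h)]
    · rw [if_neg h, if_neg (fun h' => h ((hP x).1 h'))]
  rw [h1, hs (fun x => g (σ x)), ENNReal.tsum_comm, ← σ.tsum_eq]
  refine tsum_congr fun x => ?_
  rw [← σ.tsum_eq]
  refine tsum_congr fun z => ?_
  rw [hop, hσ, hσ]
  by_cases h : P z
  · rw [if_neg (fun h' => h' ((hP z).2 h)), if_neg (fun h' => h' h)]
  · rw [if_pos h, if_pos (fun h' => h ((hP z).1 h'))]

/-- `ser_sum` for `g` composed with the bijection `twC false true` (`twC_inv`, `twC_serC_true`, `isSer_twC`) -/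
theorem ser_sum_right (g : GC → ℝ≥0∞) :
    (∑' x : GC, if IsSer x.rep.1 then g x else 0) =
      ∑' x : GC, ∑' z : GC, if ¬ IsSer z.rep.1 then g (serC x z) else 0 :=
  GSum_sum (GSum_tw false true) (twC_inv false true) (fun x => IsSer x.rep.1)
    (isSer_twC false true) serC (twC_serC_true false) ser_sum g

/-- `par_sum` and `twC true false` (`twC_parC_ne`) -/
theorem par_sum_right (g : GC → ℝ≥0∞) :
    (∑' x : GC, if IsPar x.rep.1 then g x else 0) =
      ∑' x : GC, ∑' z : GC, if ¬ IsPar z.rep.1 then g (parC x z) else 0 :=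
  GSum_sum (GSum_tw true false) (twC_inv true false) (fun x => IsPar x.rep.1)
    (isPar_twC true false) parC (twC_parC_ne true) par_sum g

/-- the summand of `RigG` -/
noncomputable def rigGT (w : Wt) (E : ℝ≥0∞) (M : BMap) : ℝ≥0∞ :=
  ∑ ψ : Perm M.T, if Rigid M ∧ Refl M.aa M.s ψ ∧ ψ (Sum.inr true) = M.s (Sum.inr true) then
    w.bi ^ cBis M.s ψ * w.vx ^ nV M.s *
      (w.ax ^ 2 * w.dt ^ 2) ^ (cAx ψ / 2) * E ^ (cCr M.aa ψ / 2) *
      e2 w ^ ((Fintype.card M.T - cAx ψ - cCr M.aa ψ) / 4) else 0

private theorem GSum_filter {T T' : Type} [Fintype T] [Fintype T'] (f : T ≃ T') (p : T → Prop)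
    [DecidablePred p] (p' : T' → Prop) [DecidablePred p'] (h : ∀ t, p' (f t) ↔ p t) :
    (univ.filter p').card = (univ.filter p).card := by
  symm
  refine Finset.card_bij (fun t _ => f t) ?_ ?_ ?_
  · intro t ht
    rw [mem_filter] at ht ⊢
    exact ⟨mem_univ _, (h t).2 ht.2⟩
  · intro t _ t' _ h5
    exact f.injective h5
  · intro t' ht'
    obtain ⟨t, rfl⟩ := f.surjective t'
    rw [mem_filter] at ht'
    exact ⟨t, by rw [mem_filter]; exact ⟨mem_univ _, (h t).1 ht'.2⟩, rfl⟩

private theorem GSum_ft {M N : BMap} (φ : M.T ≃ N.T) (e : Perm M.T) (t : M.T) :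
    ((φ.symm.trans e).trans φ) (φ t) = φ (e t) := by
  simp only [Equiv.trans_apply]
  rw [Equiv.symm_apply_apply]

theorem rigGT_iso (w : Wt) (E : ℝ≥0∞) {M N : BMap} (h : BIso M N) :
    rigGT w E M = rigGT w E N := by
  obtain ⟨φ, hφ⟩ := BIso_iff.1 h
  have hR : Rigid M ↔ Rigid N := rigid_tw hφ
  have hV : nV N.s = nV M.s := hφ.nV_eq
  have hT : Fintype.card M.T = Fintype.card N.T := Fintype.card_congr φ
  have hrot : ∀ t, φ (M.s t) = N.s (φ t) := hφ.rot
  have haa : ∀ t, φ (M.aa t) = N.aa (φ t) := hφ.aa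
  have hroot : φ (Sum.inr true) = Sum.inr true := hφ.root true
  unfold rigGT
  refine Fintype.sum_equiv (Equiv.permCongr φ) _ _ fun e => ?_
  have he : (Equiv.permCongr φ) e = (φ.symm.trans e).trans φ := rfl
  have e1 : cBis N.s ((φ.symm.trans e).trans φ) = cBis M.s e := by
    unfold cBis
    refine GSum_filter φ _ _ fun t => ?_
    rw [GSum_ft, ← hrot]
    exact φ.injective.eq_iff
  have e2 : cAx ((φ.symm.trans e).trans φ) = cAx e := by
    unfold cAx
    refine GSum_filter φ _ _ fun t => ?_
    rw [GSum_ft]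
    exact φ.injective.eq_iff
  have e3 : cCr N.aa ((φ.symm.trans e).trans φ) = cCr M.aa e := by
    unfold cCr
    refine GSum_filter φ _ _ fun t => ?_
    rw [GSum_ft, ← haa]
    exact φ.injective.eq_iff
  have hiff : (Rigid M ∧ Refl M.aa M.s e ∧ e (Sum.inr true) = M.s (Sum.inr true)) ↔
      (Rigid N ∧ Refl N.aa N.s ((φ.symm.trans e).trans φ) ∧
        ((φ.symm.trans e).trans φ) (Sum.inr true) = N.s (Sum.inr true)) := by
    have h3 : ((φ.symm.trans e).trans φ) (Sum.inr true) = N.s (Sum.inr true) ↔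
        e (Sum.inr true) = M.s (Sum.inr true) := by
      rw [← hroot, GSum_ft, ← hrot]
      exact φ.injective.eq_iff
    have h4 : Refl N.aa N.s ((φ.symm.trans e).trans φ) ↔ Refl M.aa M.s e := by
      constructor
      · intro h5
        have h6 := Refl_iso φ.symm (fun t => by rw [Equiv.symm_apply_eq, haa, Equiv.apply_symm_apply])
          (fun t => by rw [Equiv.symm_apply_eq, hrot, Equiv.apply_symm_apply]) h5
        have h7 : (φ.symm.symm.trans ((φ.symm.trans e).trans φ)).trans φ.symm = e := by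
          ext t : 1
          simp
        rwa [h7] at h6
      · intro h5
        exact Refl_iso φ haa hrot h5
    rw [hR, h3, h4]
  rw [he, e1, e2, e3, hT, hV]
  by_cases h1 : Rigid M ∧ Refl M.aa M.s e ∧ e (Sum.inr true) = M.s (Sum.inr true)
  · rw [if_pos h1, if_pos (hiff.1 h1)]
  · rw [if_neg h1, if_neg (fun h2 => h1 (hiff.2 h2))]

/-- the digon is the only class with two darts -/
private theorem GSum_dig {x : GC} (h : Fintype.card x.rep.1.D = 2) : x = digC := by
  refine ESum.eq_of_iso ?_
  exact (eq_digon x.rep.2 (by omega)).trans (ESum.rep_iso ⟨digonB, digon_good⟩).symm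

private theorem GSum_digcard : Fintype.card digC.rep.1.D = 2 := by
  have h1 : Fintype.card digC.rep.1.D = Fintype.card digonB.D :=
    (ESum.rep_iso ⟨digonB, digon_good⟩).card_eq
  rw [h1]
  show Fintype.card Bool = 2
  decide

private theorem GSum_dignp : ¬ IsPar digC.rep.1 := fun h =>
  digon_not_par ((ESum.rep_iso ⟨digonB, digon_good⟩).par h)

private theorem GSum_twdig (m c : Bool) : twC m c digC = digC := by
  apply GSum_dig
  obtain ⟨φ, hφ⟩ := twC_eq_iff.1 (rfl : twC m c digC = twC m c digC)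
  rw [← hφ.card_eq]
  exact GSum_digcard

/-- families on `Option I` as pairs -/
private def GSum_opt (I : Type) : (Option I → GC) ≃ GC × (I → GC) where
  toFun G := (G none, fun i => G (some i))
  invFun p := fun o => match o with
    | none => p.1
    | some i => p.2 i
  left_inv G := by
    funext o
    cases o <;> rfl
  right_inv p := rfl

private theorem GSum_cdt_inj {C : Core} {o o' : Option C.I} {b b' : Bool}
    (h : (cdt o b : C.toB.T) = cdt o' b') : o = o' ∧ b = b' := by
  cases o with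
  | none =>
    cases o' with
    | none =>
      have h1 : (Sum.inr b : (C.I × Bool) ⊕ Bool) = Sum.inr b' := h
      exact ⟨rfl, Sum.inr_injective h1⟩
    | some i' =>
      have h1 : (Sum.inr b : (C.I × Bool) ⊕ Bool) = Sum.inl (i', b') := h
      cases h1
  | some i =>
    cases o' with
    | none =>
      have h1 : (Sum.inl (i, b) : (C.I × Bool) ⊕ Bool) = Sum.inr b' := h
      cases h1
    | some i' =>
      have h1 : (Sum.inl (i, b) : (C.I × Bool) ⊕ Bool) = Sum.inl (i', b') := h
      have h2 := Sum.inl_injective h1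
      exact ⟨congrArg some (congrArg Prod.fst h2), congrArg Prod.snd h2⟩

private theorem GSum_cdt_surj {C : Core} (t : C.toB.T) : ∃ o b, t = cdt o b := by
  rcases t with ⟨i, b⟩ | b
  · exact ⟨some i, b, rfl⟩
  · exact ⟨none, b, rfl⟩

private theorem GSum_aa {C : Core} (o : Option C.I) (b : Bool) :
    C.toB.aa (cdt o b) = cdt o (!b) := by
  cases o <;> rfl

/-- the bijection `cdt` -/
private noncomputable def GSum_cdt (C : Core) : (Option C.I × Bool) ≃ C.toB.T :=
  Equiv.ofBijective (fun p => cdt p.1 p.2) ⟨by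
    rintro ⟨o, b⟩ ⟨o', b'⟩ h
    obtain ⟨h1, h2⟩ := GSum_cdt_inj h
    exact Prod.ext h1 h2, fun t => by
    obtain ⟨o, b, h⟩ := GSum_cdt_surj t
    exact ⟨(o, b), h.symm⟩⟩

/-- the sum of the products over the families compatible with a reflection of the core -/
private theorem GSum_fam (w : Wt) (C : Core) (ψ : Perm C.toB.T) (hψ : Refl C.toB.aa C.s ψ) :
    ∑' N : GC, ∑' F : C.I → GC, (if Cmp C (fun i => (F i).rep) N.rep ψ then
        ∏ o : Option C.I, quv w C ψ o (netO (fun i => (F i).rep) N.rep o).1 else 0) =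
      (w.ax ^ 2 * w.dt ^ 2) ^ (cAx ψ / 2) * EC w ^ (cCr C.toB.aa ψ / 2) *
        e2 w ^ ((Fintype.card C.toB.T - cAx ψ - cCr C.toB.aa ψ) / 4) := by
  have hact : ∀ o : Option C.I, ∃ p : Option C.I × Bool, ψ (cdt o true) = cdt p.1 p.2 := by
    intro o
    obtain ⟨o', b', h⟩ := GSum_cdt_surj (ψ (cdt o true))
    exact ⟨(o', b'), h⟩
  choose p hp using hact
  let τ : Option C.I → Option C.I := fun o => (p o).1
  let γ : Option C.I → Bool := fun o => xor true (p o).2
  have hall : ∀ o b, ψ (cdt o b) = cdt (τ o) (xor (γ o) b) := by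
    intro o b
    have h1 : ψ (cdt o true) = cdt (τ o) (p o).2 := hp o
    cases b with
    | true =>
      rw [h1]
      show (cdt (τ o) (p o).2 : C.toB.T) = cdt (τ o) (xor (xor true (p o).2) true)
      cases (p o).2 <;> rfl
    | false =>
      have h2 : ψ (cdt o false) = C.toB.aa (ψ (cdt o true)) := by
        rw [← hψ.ea, GSum_aa]
        rfl
      rw [h2, h1, GSum_aa]
      show (cdt (τ o) (!(p o).2) : C.toB.T) = cdt (τ o) (xor (xor true (p o).2) false)
      cases (p o).2 <;> rfl
  have hinv : ∀ o, τ (τ o) = o ∧ γ (τ o) = γ o := by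
    intro o
    have h1 : ψ (ψ (cdt o true)) = cdt o true := hψ.ee _
    rw [hall, hall] at h1
    obtain ⟨h3, h4⟩ := GSum_cdt_inj h1
    refine ⟨h3, ?_⟩
    revert h4
    cases γ (τ o) <;> cases γ o <;> simp
  -- compatible families
  have hnet : ∀ (N : GC) (F : C.I → GC) (o : Option C.I),
      netO (fun i => (F i).rep) N.rep o = ((GSum_opt C.I).symm (N, F) o).rep := by
    intro N F o
    cases o <;> rfl
  have hcmp : ∀ (N : GC) (F : C.I → GC), Cmp C (fun i => (F i).rep) N.rep ψ ↔
      ∀ o, (GSum_opt C.I).symm (N, F) (τ o) = twC true (γ o) ((GSum_opt C.I).symm (N, F) o) := by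
    intro N F
    constructor
    · intro h o
      have h2 := h o true (τ o) (xor (γ o) true) (hall o true)
      have h5 : xor true (xor (γ o) true) = γ o := by cases γ o <;> rfl
      rw [h5, hnet, hnet] at h2
      exact (twC_eq_iff.2 h2).symm
    · intro h o b o' b' hi
      rw [hall] at hi
      obtain ⟨h3, h4⟩ := GSum_cdt_inj hi
      have h5 : xor b b' = γ o := by
        rw [← h4]; cases γ o <;> cases b <;> rfl
      rw [h5, ← h3, hnet, hnet]
      exact twC_eq_iff.1 (h o).symm
  have hsum : ∑' N : GC, ∑' F : C.I → GC, (if Cmp C (fun i => (F i).rep) N.rep ψ then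
        ∏ o : Option C.I, quv w C ψ o (netO (fun i => (F i).rep) N.rep o).1 else 0) =
      ∑' G : Option C.I → GC, (if ∀ o, G (τ o) = twC true (γ o) (G o) then
        ∏ o, quv w C ψ o (G o).rep.1 else 0) := by
    rw [← (GSum_opt C.I).symm.tsum_eq, ENNReal.tsum_prod']
    refine tsum_congr fun N => tsum_congr fun F => ?_
    simp only [hnet]
    by_cases h : Cmp C (fun i => (F i).rep) N.rep ψ
    · rw [if_pos h, if_pos ((hcmp N F).1 h)]
    · rw [if_neg h, if_neg (fun h' => h ((hcmp N F).2 h'))]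
  have horb := orb_prod (Λ := GC) τ (fun o => (hinv o).1) (fun o x => twC true (γ o) x)
    (fun o x => by
      show twC true (γ (τ o)) (twC true (γ o) x) = x
      rw [(hinv o).2, twC_inv])
    (fun o x => quv w C ψ o x.rep.1) (e2 w) (fun o ho => by
      have hne : ∀ j, τ j ≠ j → ∀ x : GC, quv w C ψ j x.rep.1 = hW w x.rep.1 := by
        intro j hj x
        have h1 : ¬ ψ (cdt j true) = cdt j true := by
          rw [hall]
          intro h2
          exact hj (GSum_cdt_inj h2).1
        have h2 : ¬ ψ (cdt j true) = cdt j false := by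
          rw [hall]
          intro h2
          exact hj (GSum_cdt_inj h2).1
        unfold quv
        rw [if_neg h1, if_neg h2]
      rw [e2_hW]
      refine tsum_congr fun x => ?_
      have ho' : τ (τ o) ≠ τ o := by rw [(hinv o).1]; exact ho.symm
      rw [hne o ho x, hne (τ o) ho' _, hW_twC, pow_two])
  -- the fixed edges
  have hfix : ∀ o, τ o = o → (∑' x : GC, if twC true (γ o) x = x then quv w C ψ o x.rep.1 else 0) =
      if γ o = true then EC w else w.ax ^ 2 * w.dt ^ 2 := by
    intro o ho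
    have h0 := hall o true
    rw [ho] at h0
    cases hγ : γ o with
    | true =>
      rw [hγ] at h0
      have h2 : ψ (cdt o true) = cdt o false := h0
      have h1 : ¬ ψ (cdt o true) = cdt o true := by
        rw [h2]
        intro h3
        have h4 := (GSum_cdt_inj h3).2
        cases h4
      rw [if_pos rfl]
      unfold EC
      refine tsum_congr fun x => ?_
      unfold quv
      rw [if_neg h1, if_pos h2]
      split_ifs with h3
      · rfl
      · exact (sw_none w (fun h4 => h3 ((sym_iff true x).1 h4))).symm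
    | false =>
      rw [hγ] at h0
      have h1 : ψ (cdt o true) = cdt o true := h0
      rw [if_neg (by simp)]
      rw [tsum_eq_single digC]
      · rw [if_pos (GSum_twdig _ _)]
        unfold quv
        rw [if_pos h1, if_pos GSum_digcard]
      · intro x hx
        unfold quv
        rw [if_pos h1]
        split_ifs with h3 h4
        · exact absurd (GSum_dig h4) hx
        · rfl
        · rfl
  have hprod : (∏ o ∈ univ.filter fun o => τ o = o,
      ∑' x : GC, if twC true (γ o) x = x then quv w C ψ o x.rep.1 else 0) =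
      EC w ^ (univ.filter fun o => τ o = o ∧ γ o = true).card *
        (w.ax ^ 2 * w.dt ^ 2) ^ (univ.filter fun o => τ o = o ∧ ¬ γ o = true).card := by
    have h1 : (∏ o ∈ univ.filter fun o => τ o = o,
      ∑' x : GC, if twC true (γ o) x = x then quv w C ψ o x.rep.1 else 0) =
      ∏ o ∈ univ.filter fun o => τ o = o, if γ o = true then EC w else w.ax ^ 2 * w.dt ^ 2 := by
      refine Finset.prod_congr rfl fun o ho => ?_
      rw [mem_filter] at ho
      exact hfix o ho.2
    rw [h1, Finset.prod_ite, Finset.prod_const, Finset.prod_const, filter_filter, filter_filter]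
  -- counting
  have hcol : ∀ (P : Option C.I → Prop) [DecidablePred P],
      (univ.filter fun d : Option C.I × Bool => P d.1).card =
      2 * (univ.filter fun o : Option C.I => P o).card := by
    intro P _
    have h1 : (univ.filter fun d : Option C.I × Bool => P d.1) =
        (univ.filter fun o : Option C.I => P o) ×ˢ (univ : Finset Bool) := by
      ext d
      simp
    rw [h1, Finset.card_product, Finset.card_univ, Fintype.card_bool, mul_comm]
  have hAx : cAx ψ = 2 * (univ.filter fun o : Option C.I => τ o = o ∧ ¬ γ o = true).card := by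
    rw [← hcol (fun o => τ o = o ∧ ¬ γ o = true)]
    unfold cAx
    refine GSum_filter (GSum_cdt C) _ _ ?_
    rintro ⟨o, b⟩
    show ψ (cdt o b) = cdt o b ↔ (τ o = o ∧ ¬ γ o = true)
    rw [hall]
    constructor
    · intro h1
      obtain ⟨h2, h3⟩ := GSum_cdt_inj h1
      refine ⟨h2, ?_⟩
      intro h4
      rw [h4] at h3
      cases b <;> cases h3
    · rintro ⟨h1, h2⟩
      rw [Bool.not_eq_true] at h2
      rw [h1, h2, Bool.false_xor]
  have hCr : cCr C.toB.aa ψ = 2 * (univ.filter fun o : Option C.I => τ o = o ∧ γ o = true).card := by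
    rw [← hcol (fun o => τ o = o ∧ γ o = true)]
    unfold cCr
    refine GSum_filter (GSum_cdt C) _ _ ?_
    rintro ⟨o, b⟩
    show ψ (cdt o b) = C.toB.aa (cdt o b) ↔ (τ o = o ∧ γ o = true)
    rw [hall, GSum_aa]
    constructor
    · intro h1
      obtain ⟨h2, h3⟩ := GSum_cdt_inj h1
      refine ⟨h2, ?_⟩
      revert h3
      cases γ o <;> cases b <;> simp
    · rintro ⟨h1, h2⟩
      rw [h1, h2, Bool.true_xor]
  have hD : Fintype.card C.toB.T = 2 * Fintype.card (Option C.I) := by
    rw [← Fintype.card_congr (GSum_cdt C), Fintype.card_prod, Fintype.card_bool, mul_comm]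
  have htot : Fintype.card (Option C.I) =
      (univ.filter fun o : Option C.I => τ o = o ∧ ¬ γ o = true).card +
      (univ.filter fun o : Option C.I => τ o = o ∧ γ o = true).card +
      (univ.filter fun o : Option C.I => τ o ≠ o).card := by
    have h1 := Finset.card_filter_add_card_filter_not (s := (univ : Finset (Option C.I)))
      (fun o => τ o = o)
    have h2 := Finset.card_filter_add_card_filter_not
      (s := univ.filter fun o : Option C.I => τ o = o) (fun o => γ o = true)
    rw [filter_filter, filter_filter] at h2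
    rw [Finset.card_univ] at h1
    have h3 : (univ.filter fun o : Option C.I => τ o ≠ o) =
      univ.filter fun o : Option C.I => ¬ τ o = o := rfl
    rw [h3]
    omega
  have horb' : (∑' G : Option C.I → GC, (if ∀ o, G (τ o) = twC true (γ o) (G o) then
      ∏ o, quv w C ψ o (G o).rep.1 else 0)) =
      (∏ o ∈ univ.filter fun o => τ o = o,
        ∑' x : GC, if twC true (γ o) x = x then quv w C ψ o x.rep.1 else 0) *
      e2 w ^ ((univ.filter fun o : Option C.I => τ o ≠ o).card / 2) := by
    refine (tsum_congr fun G => ?_).trans (horb.trans ?_)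
    · split_ifs <;> rfl
    · congr 1
      refine Finset.prod_congr (by congr) fun o _ => tsum_congr fun x => ?_
      split_ifs <;> rfl
  rw [hsum, horb', hprod, hAx, hCr, hD]
  have e1 : 2 * (univ.filter fun o : Option C.I => τ o = o ∧ ¬ γ o = true).card / 2 =
      (univ.filter fun o : Option C.I => τ o = o ∧ ¬ γ o = true).card := by omega
  have e2' : 2 * (univ.filter fun o : Option C.I => τ o = o ∧ γ o = true).card / 2 =
      (univ.filter fun o : Option C.I => τ o = o ∧ γ o = true).card := by omega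
  have e3 : (2 * Fintype.card (Option C.I) -
      2 * (univ.filter fun o : Option C.I => τ o = o ∧ ¬ γ o = true).card -
      2 * (univ.filter fun o : Option C.I => τ o = o ∧ γ o = true).card) / 4 =
      (univ.filter fun o : Option C.I => τ o ≠ o).card / 2 := by omega
  rw [e1, e2', e3]
  ring

/-- As `rig_core`, with `Option C.I` instead of `C.I` (the families `F : C.I → GC` and `N : GC` together are the functions on `Option C.I`): `gpB_rig`; for a reflection `ψ` of the core let `ψ (cdt o true) = cdt (τ o) (β o)`, `θ o x = twC true (xor true (β o)) x`;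
`orb_prod`.  The darts of the core are `cdt o b`. -/
theorem rigG_core (w : Wt) (C : Core) (hC : C.toB.IsGood) (hR : Rigid C.toB) :
    ∑' N : GC, ∑' F : C.I → GC, gpB w (cG C hC (fun i => (F i).rep)) N.rep =
      rigGT w (EC w) C.toB := by
  have h1 : ∀ (N : GC) (F : C.I → GC), gpB w (cG C hC (fun i => (F i).rep)) N.rep =
      ∑ ψ : Perm C.toB.T, if Refl C.toB.aa C.s ψ ∧ ψ (Sum.inr true) = C.s (Sum.inr true) then
        w.bi ^ cBis C.s ψ * w.vx ^ nV C.s * (if Cmp C (fun i => (F i).rep) N.rep ψ then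
          ∏ o : Option C.I, quv w C ψ o (netO (fun i => (F i).rep) N.rep o).1 else 0) else 0 := by
    intro N F
    rw [gpB_rig hR w]
    refine Finset.sum_congr rfl fun ψ _ => ?_
    by_cases h2 : Refl C.toB.aa C.s ψ ∧ ψ (Sum.inr true) = C.s (Sum.inr true)
    · rw [if_pos h2]
      by_cases h3 : Cmp C (fun i => (F i).rep) N.rep ψ
      · rw [if_pos ⟨h2.1, h2.2, h3⟩, if_pos h3]
      · rw [if_neg (fun h => h3 h.2.2), if_neg h3, mul_zero]
    · rw [if_neg h2, if_neg (fun h => h2 ⟨h.1, h.2.1⟩)]
  simp only [h1]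
  have h2 : ∀ N : GC, (∑' F : C.I → GC, ∑ ψ : Perm C.toB.T,
      if Refl C.toB.aa C.s ψ ∧ ψ (Sum.inr true) = C.s (Sum.inr true) then
        w.bi ^ cBis C.s ψ * w.vx ^ nV C.s * (if Cmp C (fun i => (F i).rep) N.rep ψ then
          ∏ o : Option C.I, quv w C ψ o (netO (fun i => (F i).rep) N.rep o).1 else 0) else 0) =
      ∑ ψ : Perm C.toB.T, ∑' F : C.I → GC,
      if Refl C.toB.aa C.s ψ ∧ ψ (Sum.inr true) = C.s (Sum.inr true) then
        w.bi ^ cBis C.s ψ * w.vx ^ nV C.s * (if Cmp C (fun i => (F i).rep) N.rep ψ then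
          ∏ o : Option C.I, quv w C ψ o (netO (fun i => (F i).rep) N.rep o).1 else 0) else 0 :=
    fun N => Summable.tsum_finsetSum fun ψ _ => ENNReal.summable
  rw [tsum_congr h2, Summable.tsum_finsetSum fun ψ _ => ENNReal.summable]
  unfold rigGT
  refine Finset.sum_congr rfl fun ψ _ => ?_
  by_cases h3 : Refl C.toB.aa C.s ψ ∧ ψ (Sum.inr true) = C.s (Sum.inr true)
  · have h4 : Rigid C.toB ∧ Refl C.toB.aa C.toB.s ψ ∧
        ψ (Sum.inr true) = C.toB.s (Sum.inr true) := ⟨hR, h3.1, h3.2⟩
    rw [if_pos h4]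
    simp only [if_pos h3]
    simp_rw [ENNReal.tsum_mul_left]
    rw [GSum_fam w C ψ h3.1]
    show w.bi ^ cBis C.s ψ * w.vx ^ nV C.s * _ = w.bi ^ cBis C.s ψ * w.vx ^ nV C.s * _ * _ * _
    ring
  · have h4 : ¬ (Rigid C.toB ∧ Refl C.toB.aa C.toB.s ψ ∧
        ψ (Sum.inr true) = C.toB.s (Sum.inr true)) := fun h => h3 ⟨h.2.1, h.2.2⟩
    rw [if_neg h4]
    simp only [if_neg h3, tsum_zero]

/-- `pair_sum`, `sum_types` in the variable `K` for `gpB`: `gpA_eq`, `gpB_dig`, `ser_sum_right`, `gpB_ser`, `par_sum_right`, `gpB_par` (`par_bond`, `gpB_iso`), `rig_sum`, `rigG_core`; `Esel_hW`, `e2_hW`.  For the sums over `K`, `x`: the condition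
`BIso (twM true false N.rep) x.rep` says `x = twC true false N`; `z` with two nonroot darts: `z = digC` (`eq_digon`), which is not parallel -/
theorem G_eq (w : Wt) : SG w =
    fP w * (w.bi ^ 4 * w.vx ^ 2 + w.bi ^ 2 * w.vx ^ 2 * (w.ax ^ 2 * w.dt ^ 2)) +
      e2 w * (w.bi ^ 2 * w.vx ^ 3) * NsC w + RigG w (EC w) := by
  have hb : ∀ N x : GC, BIso (twM true false N.rep.1) x.rep.1 ↔ x = twC true false N := by
    intro N x
    rw [← TwI_iff, ← twC_eq_iff]
    exact eq_comm
  -- sums over the mirror image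
  have hone : ∀ (N : GC) (v : ℝ≥0∞), (∑' x : GC, if BIso (twM true false N.rep.1) x.rep.1 then v
      else 0) = v := by
    intro N v
    rw [tsum_eq_single (twC true false N)]
    · rw [if_pos ((hb _ _).2 rfl)]
    · intro x hx
      rw [if_neg (fun h => hx ((hb _ _).1 h))]
  have hfP : fP w = ∑' x : GC, if ¬ IsPar x.rep.1 then hW w x.rep.1 ^ 2 else 0 := by
    unfold fP
    rw [Esel_hW]
    refine tsum_congr fun x => ?_
    by_cases h : IsPar x.rep.1
    · simp [h]
    · simp [h]
  -- the first part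
  have hA : ∑' K : GC, ∑' N : GC, gpA w K.rep N.rep = fP w * (w.bi ^ 4 * w.vx ^ 2) := by
    rw [ENNReal.tsum_comm, hfP, ← ENNReal.tsum_mul_right]
    refine tsum_congr fun N => ?_
    have h1 : ∀ K : GC, gpA w K.rep N.rep = if BIso (twM true false N.rep.1) K.rep.1 then
        (if ¬ IsPar N.rep.1 then hW w N.rep.1 ^ 2 else 0) * (w.bi ^ 4 * w.vx ^ 2) else 0 := by
      intro K
      rw [gpA_eq]
      by_cases h2 : BIso (twM true false N.rep.1) K.rep.1
      · by_cases h3 : IsPar N.rep.1
        · rw [if_neg (fun h => h.2 h3), if_pos h2, if_neg (fun h => h h3), zero_mul]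
        · rw [if_pos ⟨h2, h3⟩, if_pos h2, if_pos h3, mul_comm]
      · rw [if_neg (fun h => h2 h.1), if_neg h2]
    rw [tsum_congr h1, hone]
  -- the sum over `N`
  set g : GC → ℝ≥0∞ := fun K => ∑' N : GC, gpB w K.rep N.rep with hg
  have hdig : g digC = 0 := by
    rw [hg]
    show ∑' N : GC, gpB w digC.rep N.rep = 0
    rw [ENNReal.tsum_eq_zero]
    intro N
    exact gpB_dig w _ _ GSum_digcard
  have hser : (∑' x : GC, if IsSer x.rep.1 then g x else 0) =
      e2 w * (w.bi ^ 2 * w.vx ^ 3) * NsC w := by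
    rw [ser_sum_right g, ENNReal.tsum_comm]
    unfold NsC
    rw [← ENNReal.tsum_mul_left]
    refine tsum_congr fun z => ?_
    by_cases hz : IsSer z.rep.1
    · simp only [hz, not_true_eq_false, if_false, tsum_zero, mul_zero]
    · simp only [hz, not_false_eq_true, if_true]
      have h1 : ∀ x N : GC, gpB w (serC x z).rep N.rep =
          if BIso (twM true false N.rep.1) x.rep.1 then
            w.bi ^ 2 * w.vx ^ 3 * hW w N.rep.1 ^ 2 * sw w true z.rep.1 else 0 := by
        intro x N
        rw [← gpB_ser w hz]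
        exact gpB_iso w (ESum.rep_iso _) (BIso.refl _)
      show ∑' x : GC, ∑' N : GC, gpB w (serC x z).rep N.rep = _
      simp only [h1]
      rw [ENNReal.tsum_comm]
      simp only [hone]
      rw [ENNReal.tsum_mul_right, ENNReal.tsum_mul_left, ← e2_hW, mul_comm (e2 w)]
  have hpar : (∑' x : GC, if IsPar x.rep.1 then g x else 0) =
      fP w * (w.bi ^ 2 * w.vx ^ 2 * (w.ax ^ 2 * w.dt ^ 2)) := by
    rw [par_sum_right g, ENNReal.tsum_comm, tsum_eq_single digC]
    · simp only [GSum_dignp, not_false_eq_true, if_true]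
      have h1 : ∀ x N : GC, gpB w (parC x digC).rep N.rep =
          if BIso (twM true false N.rep.1) x.rep.1 then
            (if ¬ IsPar N.rep.1 then hW w N.rep.1 ^ 2 else 0) *
              (w.bi ^ 2 * w.vx ^ 2 * (w.ax ^ 2 * w.dt ^ 2)) else 0 := by
        intro x N
        have h2 : gpB w (parC x digC).rep N.rep =
            gpB w (cG (ddCore tri) (dd_good tri_good) (serNets x.rep digC.rep)) N.rep :=
          gpB_iso w ((ESum.rep_iso _).trans (par_bond _ _)) (BIso.refl _)
        rw [h2, gpB_par w GSum_dignp]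
        by_cases h3 : BIso (twM true false N.rep.1) x.rep.1
        · by_cases h4 : IsPar N.rep.1
          · rw [if_neg (fun h => h.2.2 h4), if_pos h3, if_neg (fun h => h h4), zero_mul]
          · rw [if_pos ⟨h3, GSum_digcard, h4⟩, if_pos h3, if_pos h4, mul_comm]
        · rw [if_neg (fun h => h3 h.1), if_neg h3]
      show ∑' x : GC, ∑' N : GC, gpB w (parC x digC).rep N.rep = _
      simp only [h1]
      rw [ENNReal.tsum_comm]
      simp only [hone]
      rw [ENNReal.tsum_mul_right, ← hfP]
    · intro z hz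
      rw [ENNReal.tsum_eq_zero]
      intro x
      by_cases hp : IsPar z.rep.1
      · rw [if_neg (fun h => h hp)]
      · rw [if_pos hp]
        show ∑' N : GC, gpB w (parC x z).rep N.rep = 0
        rw [ENNReal.tsum_eq_zero]
        intro N
        have h2 : gpB w (parC x z).rep N.rep =
            gpB w (cG (ddCore tri) (dd_good tri_good) (serNets x.rep z.rep)) N.rep :=
          gpB_iso w ((ESum.rep_iso _).trans (par_bond _ _)) (BIso.refl _)
        rw [h2, gpB_par w hp, if_neg]
        intro h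
        exact hz (GSum_dig h.2.1)
  have hrig : (∑' x : GC, if ¬ IsSer x.rep.1 ∧ ¬ IsPar x.rep.1 ∧ 4 ≤ Fintype.card x.rep.1.D then
      g x else 0) = RigG w (EC w) := by
    rw [rig_sum g]
    have h1 : ∀ q : RigLe.Ix, (if Rigid q.1.rep.1 then g (ixC q) else 0) =
        (fun (x : GC) (F : (ESum.core x).I → GC) => if Rigid x.rep.1 then
          ∑' N : GC, gpB w (cG (ESum.core x) (ESum.core_good x) (fun i => (F i).rep)) N.rep else 0)
          q.1 q.2 := by
      intro q
      by_cases hq : Rigid q.1.rep.1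
      · simp only [if_pos hq]
        refine tsum_congr fun N => ?_
        exact gpB_iso w (ESum.rep_iso _) (BIso.refl _)
      · simp only [if_neg hq]
    refine (tsum_congr h1).trans ((tsum_sigma_eq (fun (x : GC) (F : (ESum.core x).I → GC) =>
      if Rigid x.rep.1 then
        ∑' N : GC, gpB w (cG (ESum.core x) (ESum.core_good x) (fun i => (F i).rep)) N.rep
        else 0)).symm.trans ?_)
    show _ = ∑' x : GC, rigGT w (EC w) x.rep.1
    refine tsum_congr fun x => ?_
    by_cases hx : Rigid x.rep.1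
    · simp only [if_pos hx]
      rw [ENNReal.tsum_comm,
        rigG_core w (ESum.core x) (ESum.core_good x) ((ESum.core_iso x).symm.rigid hx)]
      exact rigGT_iso w (EC w) (ESum.core_iso x)
    · simp only [if_neg hx, tsum_zero]
      unfold rigGT
      symm
      exact Finset.sum_eq_zero fun ψ _ => if_neg fun h => hx h.1
  have hB : ∑' K : GC, g K = e2 w * (w.bi ^ 2 * w.vx ^ 3) * NsC w +
      fP w * (w.bi ^ 2 * w.vx ^ 2 * (w.ax ^ 2 * w.dt ^ 2)) + RigG w (EC w) := by
    rw [sum_types g, hdig, hser, hpar, hrig, zero_add]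
  have hS : SG w = ∑' K : GC, ∑' N : GC, gpA w K.rep N.rep + ∑' K : GC, g K := by
    rw [pair_sum, ← ENNReal.tsum_add]
    refine tsum_congr fun K => ?_
    rw [← ENNReal.tsum_add]
  rw [hS, hA, hB]
  ring

end PGr

end

section
/-! # Module SysB: the system for the symmetric rigid maps -/

set_option linter.unusedSectionVars false

namespace PGr
open Equiv Finset
open scoped ENNReal Classical

/-- `exists_wok`, `EC_eq`, `NpC_add`, `NsC_add`, `X_eq`, `G_eq`, `rsumC_eq`, `rsumX_eq`, `rsumG_eq`, `rigS_true`, `rigS_false`, `rigG_eq`; `e2 w = Es k y`, `fN w`, `fP w` by definition -/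
theorem sym_system {x k y1 A y : ℝ≥0∞} (hx : x ≠ 0) (hx' : x ≠ ⊤) (hk : k ≠ 0) (hk' : k ≠ ⊤)
    (h1 : y1 ≠ 0) (h1' : y1 ≠ ⊤) (hA : A ≠ 0) (hA' : A ≠ ⊤) (hy : y ≠ 0) (hy' : y ≠ ⊤) :
    ∃ S Np Ns : ℝ≥0∞,
      RSum .C x k y1 A y = A * y * k * S ∧
      Np + Np * S = S ∧
      Ns + Esel k y (fun M => ¬ IsSer M) * (x + k * S) = S ∧
      S = A * y + Esel k y (fun M => ¬ IsSer M) * (x + k * S) + Np * S +
        Ah x k y1 S (Es k y) ∧
      RSum .X x k y1 A y = x ^ 2 * y1 * (Esel k y (fun M => ¬ IsPar M) * (1 + y1) +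
        Av x k y1 S (Es k y)) ∧
      RSum .G x k y1 A y = x ^ 2 * (1 + y1) * Esel k y (fun M => ¬ IsPar M) +
        x * k * Es k y * Ns + x * Ac x k y1 S (Es k y) := by
  obtain ⟨w, hw⟩ := exists_wok hx hx' hk hk' h1 h1' hA hA' hy hy'
  have e1 : fN w = Esel k y (fun M => ¬ IsSer M) := by
    unfold fN
    rw [hw.hk, hw.hy]
  have e2' : fP w = Esel k y (fun M => ¬ IsPar M) := by
    unfold fP
    rw [hw.hk, hw.hy]
  have e3 : e2 w = Es k y := by
    unfold e2
    rw [hw.hk, hw.hy]
  refine ⟨EC w, NpC w, NsC w, rsumC_eq hw, NpC_add w, ?_, ?_, ?_, ?_⟩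
  · have h := NsC_add w
    rw [e1, hw.hx, hw.hk] at h
    exact h
  · have h := EC_eq w
    rw [e1, hw.hx, hw.hk, rigS_true hw, hw.hA] at h
    exact h
  · rw [rsumX_eq hw, X_eq, rigS_false hw, e2', hw.hy1]
    calc x * w.vx * y1 * (Esel k y (fun M => ¬ IsPar M) * (w.bi ^ 2 + y1 * w.bi ^ 2) +
          w.bi ^ 2 * Av x k y1 (EC w) (Es k y))
        = x * (w.bi ^ 2 * w.vx) * y1 * (Esel k y (fun M => ¬ IsPar M) * (1 + y1) +
          Av x k y1 (EC w) (Es k y)) := by ring
      _ = _ := by rw [hw.hx]; ring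
  · rw [rsumG_eq hw, G_eq, rigG_eq hw, e2', e3, hw.hy1]
    calc Esel k y (fun M => ¬ IsPar M) * (w.bi ^ 4 * w.vx ^ 2 +
          w.bi ^ 2 * w.vx ^ 2 * (y1 * w.bi ^ 2)) +
          Es k y * (w.bi ^ 2 * w.vx ^ 3) * NsC w + x * Ac x k y1 (EC w) (Es k y)
        = (w.bi ^ 2 * w.vx) ^ 2 * (1 + y1) * Esel k y (fun M => ¬ IsPar M) +
          (w.bi ^ 2 * w.vx) * (w.vx ^ 2) * Es k y * NsC w + x * Ac x k y1 (EC w) (Es k y) := by
          ring
      _ = _ := by rw [hw.hx, hw.hk]

end PGr

end
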