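import Pool.Agent.PGc.Crit
import Pool.Agent.PGc.RgTop
import Pool.Agent.PGm.M01
import Pool.Agent.PGm.M04
import Pool.Agent.PGm.M16
import Pool.Agent.PGm.M18
import Pool.Agent.PGm.M20
import Pool.Agent.PGm.M31

section
/-! # FinalC: the exact equation (assembly) -/

set_option linter.unusedSectionVars false

namespace PGr
open Equiv Finset Set
open scoped ENNReal Classical Topology

/-- rooted graphs -/
noncomputable def Kx (x : ℝ) : ℝ≥0∞ := ∑' c : RC, wx (ENNReal.ofReal x) c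

/-- networks -/
noncomputable def Dx (x : ℝ) : ℝ≥0∞ := Nsel (wx (ENNReal.ofReal x)) (fun _ => True)

theorem wx_mono {x y : ℝ≥0∞} (h : x ≤ y) (c : RC) : wx x c ≤ wx y c := by
  unfold wx; gcongr

theorem wt_mono {Λ : Type*} {w w' : Λ → ℝ≥0∞} (h : ∀ l, w l ≤ w' l) (N : LNet Λ) :
    wt w N ≤ wt w' N := Finset.prod_le_prod' fun _ _ => h _

theorem Kx_mono {x y : ℝ} (h : x ≤ y) : Kx x ≤ Kx y :=
  ENNReal.tsum_le_tsum fun c => wx_mono (ENNReal.ofReal_le_ofReal h) c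

theorem Dx_mono {x y : ℝ} (h : x ≤ y) : Dx x ≤ Dx y := by
  refine ENNReal.tsum_le_tsum fun c => ?_
  simp only [if_true]
  exact wt_mono (fun l => wx_mono (ENNReal.ofReal_le_ofReal h) l) _

theorem le_Kx (x : ℝ) : ENNReal.ofReal x ≤ Kx x := by
  obtain ⟨c, hc⟩ := exists_rc_one
  refine le_trans (le_of_eq ?_) (ENNReal.le_tsum c)
  rw [wx, hc, pow_one]

theorem one_le_Dx (x : ℝ) : 1 ≤ Dx x := by
  haveI : Nonempty RC := ⟨exists_rc_one.choose⟩
  rw [Dx, Nsel_all]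
  exact le_self_add

/-- a point above the critical curve is excluded -/
theorem below {x t : ℝ} {d : ℝ} (hfin : Dx x ≠ ⊤) (h0 : 0 < t) (h1 : t < 1)
    (hs : scr t ≤ 1 / 10) (hk : ENNReal.ofReal (scr t) ≤ Kx x) (hd : ENNReal.ofReal d ≤ Dx x) :
    d ≤ ecr t := by
  by_contra hlt
  push Not at hlt
  haveI : Nonempty RC := ⟨exists_rc_one.choose⟩
  have h2 : Rg (Kx x) (Dx x) ≤ 2 * Dx x := by
    refine (rg_le_two (wx (ENNReal.ofReal x))).trans ?_
    gcongr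
    exact Nsel_mono _ fun _ _ => trivial
  have h3 : Rg (Kx x) (Dx x) = ⊤ := by
    rw [← top_le_iff, ← Rg_top h0 h1 hs hlt]
    exact Rg_mono hk hd
  rw [h3] at h2
  exact absurd (top_le_iff.mp h2) (ENNReal.mul_ne_top (by simp) hfin)

theorem num_t1 : scr (6076 / 10000) ≤ 476 / 10000 ∧ ecr (6076 / 10000) < 1 := by
  constructor
  · unfold scr; norm_num
  · unfold ecr; norm_num

theorem num_t2 : scr (6315 / 10000) ≤ 3599 / 100000 ∧ ecr (6315 / 10000) ≤ 1122 / 1000 := by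
  constructor
  · unfold scr; norm_num
  · unfold ecr; norm_num

theorem critical : ∃ ρ : ℝ, 0 < ρ ∧
    Filter.Tendsto (fun n : ℕ => (u n : ℝ) ^ (1 / n : ℝ)) Filter.atTop (𝓝 (1 / ρ)) ∧
    ∀ x : ℝ, 0 < x → ((Kx x ≠ ⊤ ∧ Dx x ≠ ⊤ ∧ ∃ t : ℝ, 0 < t ∧ t < 1 ∧ (Kx x).toReal = scr t ∧
      (Dx x).toReal = ecr t) ↔ x = ρ) := by
  obtain ⟨ρ, hρ, hlim, htop, hfin⟩ := exists_rho
  have hρ0 : 0 < ρ := by linarith
  -- below ρ
  have hK1 : ∀ x : ℝ, 0 < x → x < ρ → Kx x ≤ ENNReal.ofReal (476 / 10000) := by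
    intro x hx hxρ
    by_contra hlt
    push Not at hlt
    have h1 := below (x := x) (t := 6076 / 10000) (d := 1) (hfin x hxρ).2 (by norm_num)
      (by norm_num) (by linarith [num_t1.1])
      (le_trans (ENNReal.ofReal_le_ofReal num_t1.1) hlt.le)
      (by rw [ENNReal.ofReal_one]; exact one_le_Dx x)
    linarith [num_t1.2]
  have hKρ : Kx ρ ≤ ENNReal.ofReal (476 / 10000) := K_sup hρ0 _ hK1
  have hD1 : ∀ x : ℝ, 0 < x → x < ρ → Dx x ≤ ENNReal.ofReal (1122 / 1000) := by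
    intro x hx hxρ
    set x' := max x (3599 / 100000) with hx'
    have hx1 : x' < ρ := max_lt hxρ (by linarith [show (3599 / 100000 : ℝ) < 10 / 277 by norm_num])
    have hf := (hfin x' hx1).2
    refine (Dx_mono (le_max_left x (3599 / 100000))).trans ?_
    have hf' : Dx x' ≠ ⊤ := hf
    rw [← ENNReal.ofReal_toReal hf']
    refine ENNReal.ofReal_le_ofReal ?_
    have h1 := below (x := x') (t := 6315 / 10000) (d := (Dx x').toReal) hf (by norm_num)
      (by norm_num) (by linarith [num_t2.1])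
      (le_trans (ENNReal.ofReal_le_ofReal (num_t2.1.trans (le_max_right _ _))) (le_Kx x'))
      (by rw [ENNReal.ofReal_toReal hf'])
    linarith [num_t2.2]
  have hDρ : Dx ρ ≤ ENNReal.ofReal (1122 / 1000) := N_sup hρ0 _ hD1
  have fK : Kx ρ ≠ ⊤ := ne_top_of_le_ne_top ENNReal.ofReal_ne_top hKρ
  have fD : Dx ρ ≠ ⊤ := ne_top_of_le_ne_top ENNReal.ofReal_ne_top hDρ
  set K := (Kx ρ).toReal with hKdef
  set D := (Dx ρ).toReal with hDdef
  have eK : Kx ρ = ENNReal.ofReal K := (ENNReal.ofReal_toReal fK).symm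
  have eD : Dx ρ = ENNReal.ofReal D := (ENNReal.ofReal_toReal fD).symm
  have hK476 : K ≤ 476 / 10000 := by
    have := ENNReal.toReal_mono ENNReal.ofReal_ne_top hKρ
    rwa [ENNReal.toReal_ofReal (by norm_num)] at this
  have hD1122 : D ≤ 1122 / 1000 := by
    have := ENNReal.toReal_mono ENNReal.ofReal_ne_top hDρ
    rwa [ENNReal.toReal_ofReal (by norm_num)] at this
  have hρK : ρ ≤ K := by
    have := ENNReal.toReal_mono fK (le_Kx ρ)
    rwa [ENNReal.toReal_ofReal hρ0.le] at this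
  have hD1' : 1 ≤ D := by
    have := ENNReal.toReal_mono fD (one_le_Dx ρ)
    rwa [ENNReal.toReal_one] at this
  have hK0 : 0 < K := by linarith
  obtain ⟨t, h0, h1, ht⟩ := scr_surj hK0
  -- upper bound
  have hup : D ≤ ecr t := by
    by_contra hlt
    push Not at hlt
    -- t' > t with ecr t' < D
    obtain ⟨t', ht', ht'1, htD⟩ : ∃ t', t < t' ∧ t' < 1 ∧ ecr t' < D := by
      have hc : ContinuousAt ecr t := ecr_continuousOn.continuousAt (Ioo_mem_nhds h0 h1)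
      have h2 : ∀ᶠ z in 𝓝 t, ecr z < D := hc.eventually_lt continuousAt_const hlt
      have h3 : ∀ᶠ z in 𝓝[>] t, ecr z < D := h2.filter_mono nhdsWithin_le_nhds
      have h4 : ∀ᶠ z in 𝓝[>] t, z ∈ Ioo t 1 := Ioo_mem_nhdsGT h1
      obtain ⟨z, hz, hz'⟩ := (h3.and h4).exists
      exact ⟨z, hz'.1, hz'.2, hz⟩
    have hs' : scr t' < K := by
      rw [← ht]; exact scr_strictAntiOn ⟨h0, h1⟩ ⟨by linarith, ht'1⟩ ht'
    have hsp := scr_pos (t := t') (by linarith) ht'1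
    -- x with K x > scr t'
    obtain ⟨x1, hx1, hx1ρ, hx1K⟩ : ∃ x, 0 < x ∧ x < ρ ∧ ENNReal.ofReal (scr t') ≤ Kx x := by
      by_contra hno
      push Not at hno
      have h2 := K_sup hρ0 (ENNReal.ofReal (scr t')) (fun x hx hx' => (hno x hx hx').le)
      have h3 : Kx ρ ≤ ENNReal.ofReal (scr t') := h2
      rw [eK, ENNReal.ofReal_le_ofReal_iff hsp.le] at h3
      linarith
    obtain ⟨x2, hx2, hx2ρ, hx2D⟩ : ∃ x, 0 < x ∧ x < ρ ∧ ENNReal.ofReal ((ecr t' + D) / 2) ≤ Dx x := by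
      by_contra hno
      push Not at hno
      have h2 := N_sup hρ0 (ENNReal.ofReal ((ecr t' + D) / 2)) (fun x hx hx' => (hno x hx hx').le)
      have h3 : Dx ρ ≤ ENNReal.ofReal ((ecr t' + D) / 2) := h2
      have h4 := ecr_pos (t := t') (by linarith) ht'1
      rw [eD, ENNReal.ofReal_le_ofReal_iff (by linarith)] at h3
      linarith
    have hm : max x1 x2 < ρ := max_lt hx1ρ hx2ρ
    have h5 := below (x := max x1 x2) (t := t') (d := (ecr t' + D) / 2) (hfin _ hm).2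
      (by linarith) ht'1 (by linarith) (hx1K.trans (Kx_mono (le_max_left _ _)))
      (hx2D.trans (Dx_mono (le_max_right _ _)))
    linarith
  -- lower bound
  have hlow : ecr t ≤ D := by
    by_contra hlt
    push Not at hlt
    obtain ⟨t', ht', ht'0, htD, hts⟩ : ∃ t', t' < t ∧ 0 < t' ∧ D < ecr t' ∧ scr t' < 48 / 1000 := by
      have hc : ContinuousAt ecr t := ecr_continuousOn.continuousAt (Ioo_mem_nhds h0 h1)
      have hc' : ContinuousAt scr t := scr_continuousOn.continuousAt (Ioo_mem_nhds h0 h1)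
      have h2 : ∀ᶠ z in 𝓝 t, D < ecr z := continuousAt_const.eventually_lt hc hlt
      have h2' : ∀ᶠ z in 𝓝 t, scr z < 48 / 1000 :=
        hc'.eventually_lt continuousAt_const (by rw [ht]; linarith)
      have h3 : ∀ᶠ z in 𝓝[<] t, D < ecr z ∧ scr z < 48 / 1000 :=
        (h2.and h2').filter_mono nhdsWithin_le_nhds
      have h4 : ∀ᶠ z in 𝓝[<] t, z ∈ Ioo 0 t := Ioo_mem_nhdsLT h0
      obtain ⟨z, hz, hz'⟩ := (h3.and h4).exists
      exact ⟨z, hz'.2, hz'.1, hz.1, hz.2⟩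
    have hs' : K < scr t' := by
      rw [← ht]; exact scr_strictAntiOn ⟨ht'0, by linarith⟩ ⟨h0, h1⟩ ht'
    obtain ⟨E, hE1, hE2, hE3⟩ : ∃ E, D < E ∧ E < ecr t' ∧ E ≤ 113 / 100 := by
      refine ⟨min ((D + ecr t') / 2) (113 / 100), lt_min (by linarith) (by linarith), ?_,
        min_le_right _ _⟩
      exact lt_of_le_of_lt (min_le_left _ _) (by linarith)
    obtain ⟨x, hx, hx'⟩ := extend (ρ := ρ) (K := K) (D := D) (E := E) (t := t') hρ eK eD hK0.le
      (by linarith) hρK hK476 ht'0 (by linarith) hs' hts.le (by linarith) hE1 hE2 hE3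
    exact hx' (htop x hx)
  have hDt : D = ecr t := le_antisymm hup hlow
  refine ⟨ρ, hρ0, hlim, fun x hx => ⟨?_, ?_⟩⟩
  · rintro ⟨fKx, fDx, t', h0', h1', hk, hd⟩
    rcases lt_trichotomy x ρ with h | h | h
    · exfalso
      have h2 : (Kx x).toReal < K := by
        obtain ⟨c, hc⟩ := exists_rc_one
        have h3 : Kx x + ENNReal.ofReal (ρ - x) ≤ Kx ρ := by
          unfold Kx
          rw [← tsum_ite_eq c (fun _ : RC => ENNReal.ofReal (ρ - x)), ← ENNReal.tsum_add]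
          refine ENNReal.tsum_le_tsum fun d => ?_
          by_cases hdc : d = c
          · rw [if_pos hdc, hdc, wx, wx, hc, pow_one, pow_one, ← ENNReal.ofReal_add hx.le (by linarith)]
            exact ENNReal.ofReal_le_ofReal (by linarith)
          · rw [if_neg hdc, add_zero]
            exact wx_mono (ENNReal.ofReal_le_ofReal h.le) d
        have h4 := ENNReal.toReal_mono fK h3
        rw [ENNReal.toReal_add fKx ENNReal.ofReal_ne_top, ENNReal.toReal_ofReal (by linarith)] at h4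
        linarith
      have h3 : (Dx x).toReal ≤ D := ENNReal.toReal_mono fD (Dx_mono h.le)
      rw [hk, ← ht] at h2
      have h4 : t < t' := by
        by_contra hle
        push Not at hle
        have := scr_strictAntiOn.antitoneOn ⟨h0', h1'⟩ ⟨h0, h1⟩ hle
        linarith
      have h5 := ecr_strictMonoOn ⟨h0, h1⟩ ⟨h0', h1'⟩ h4
      rw [hd, hDt] at h3
      linarith
    · exact h
    · exact absurd (htop x h) fKx
  · rintro rfl
    exact ⟨fK, fD, t, h0, h1, ht.symm, hDt⟩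

/-! ### in terms of real power series -/

theorem summable_iff {a : ℕ → ℕ} {x : ℝ} (hx : 0 < x) :
    (Summable fun n => (a n : ℝ) * x ^ n) ↔
      ∑' n, (a n : ℝ≥0∞) * ENNReal.ofReal x ^ n ≠ ⊤ := by
  have h1 : ∀ n, (a n : ℝ≥0∞) * ENNReal.ofReal x ^ n = ENNReal.ofReal ((a n : ℝ) * x ^ n) := by
    intro n
    rw [ENNReal.ofReal_mul (by positivity), ENNReal.ofReal_natCast, ENNReal.ofReal_pow hx.le]
  simp_rw [h1]
  constructor
  · intro h
    rw [← ENNReal.ofReal_tsum_of_nonneg (fun n => by positivity) h]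
    exact ENNReal.ofReal_ne_top
  · intro h
    have h2 := ENNReal.summable_toReal h
    refine h2.congr fun n => ?_
    rw [ENNReal.toReal_ofReal (by positivity)]

theorem tsum_toReal {a : ℕ → ℕ} {x : ℝ} (hx : 0 < x) :
    (∑' n, (a n : ℝ≥0∞) * ENNReal.ofReal x ^ n).toReal = ∑' n, (a n : ℝ) * x ^ n := by
  have h1 : ∀ n, (a n : ℝ≥0∞) * ENNReal.ofReal x ^ n = ENNReal.ofReal ((a n : ℝ) * x ^ n) := by
    intro n
    rw [ENNReal.ofReal_mul (by positivity), ENNReal.ofReal_natCast, ENNReal.ofReal_pow hx.le]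
  rw [ENNReal.tsum_toReal_eq (fun n => by rw [h1]; exact ENNReal.ofReal_ne_top)]
  refine tsum_congr fun n => ?_
  rw [h1, ENNReal.toReal_ofReal (by positivity)]

theorem critical_equation : ∃ ρ : ℝ, 0 < ρ ∧
    Filter.Tendsto (fun n : ℕ => (u n : ℝ) ^ (1 / n : ℝ)) Filter.atTop (𝓝 (1 / ρ)) ∧
    ∀ x : ℝ, 0 < x →
      (((Summable fun n => (rr n : ℝ) * x ^ n) ∧ (Summable fun n => (bb (n + 2) : ℝ) * x ^ n) ∧
        ∃ t : ℝ, 0 < t ∧ t < 1 ∧
          ∑' n, (rr n : ℝ) * x ^ n = (1 + 3 * t) * (1 - t) ^ 3 / (16 * t ^ 3) ∧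
          2 * ∑' n, (bb (n + 2) : ℝ) * x ^ n - 1 = 3 * t ^ 2 / ((1 - t) * (1 + 3 * t))) ↔
        x = ρ) := by
  obtain ⟨ρ, hρ, hlim, h⟩ := critical
  refine ⟨ρ, hρ, hlim, fun x hx => ?_⟩
  rw [← h x hx]
  haveI : Nonempty RC := ⟨exists_rc_one.choose⟩
  have hK : ∑' n, (rr n : ℝ≥0∞) * ENNReal.ofReal x ^ n = Kx x := rr_sum _
  have hB : ∑' n, (bb (n + 2) : ℝ≥0∞) * ENNReal.ofReal x ^ n =
      1 + Nsel (wx (ENNReal.ofReal x)) (fun N => ¬ Direct N) := bb_sum _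
  have hD : Dx x = 1 + 2 * Nsel (wx (ENNReal.ofReal x)) (fun N => ¬ Direct N) := Nsel_all _
  set M := Nsel (wx (ENNReal.ofReal x)) (fun N => ¬ Direct N) with hM
  have hBt : (∑' n, (bb (n + 2) : ℝ≥0∞) * ENNReal.ofReal x ^ n ≠ ⊤) ↔ Dx x ≠ ⊤ := by
    rw [hB, hD]
    by_cases hMt : M = ⊤
    · simp [hMt]
    · constructor
      · intro _; exact ENNReal.add_ne_top.mpr ⟨ENNReal.one_ne_top, ENNReal.mul_ne_top (by simp) hMt⟩
      · intro _; exact ENNReal.add_ne_top.mpr ⟨ENNReal.one_ne_top, hMt⟩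
  have hB' := summable_iff (a := fun n => bb (n + 2)) hx
  have hK' := summable_iff (a := rr) hx
  rw [hK', hB', hK]
  rw [show (∑' n, ((fun n => bb (n + 2)) n : ℝ≥0∞) * ENNReal.ofReal x ^ n ≠ ⊤) ↔ Dx x ≠ ⊤ from hBt]
  refine and_congr_right fun _ => and_congr_right fun fD => ?_
  have hMt : M ≠ ⊤ := by
    intro hMt
    apply fD
    rw [hD, hMt]
    simp
  have e1 : (Kx x).toReal = ∑' n, (rr n : ℝ) * x ^ n := by rw [← hK]; exact tsum_toReal hx
  have e2 : (Dx x).toReal = 2 * ∑' n, (bb (n + 2) : ℝ) * x ^ n - 1 := by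
    have h3 := tsum_toReal (a := fun n => bb (n + 2)) hx
    have h4 : (∑' n, ((fun n => bb (n + 2)) n : ℝ≥0∞) * ENNReal.ofReal x ^ n) = 1 + M := hB
    rw [h4, ENNReal.toReal_add ENNReal.one_ne_top hMt, ENNReal.toReal_one] at h3
    rw [← h3, hD, ENNReal.toReal_add ENNReal.one_ne_top (ENNReal.mul_ne_top (by simp) hMt),
      ENNReal.toReal_mul, ENNReal.toReal_one, ENNReal.toReal_ofNat]
    ring
  rw [e1, e2]
  rfl

end PGr

end

section
/-!
# The system of equations (definitions)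
-/

set_option linter.unusedSectionVars false

namespace PGr
open Real
open scoped ENNReal

/-- the sum of a power series -/
noncomputable def ev (a : ℕ → ℝ) (x : ℝ) : ℝ := ∑' n, a n * x ^ n

/-! ### generating functions of rigid maps with real arguments -/

noncomputable def rRg (s E : ℝ) : ℝ := (Rg (ENNReal.ofReal s) (ENNReal.ofReal E)).toReal

noncomputable def rQ1 (s E : ℝ) : ℝ := (Q1 (ENNReal.ofReal s) (ENNReal.ofReal E)).toReal

noncomputable def rQk (k : ℕ) (kv s ke E : ℝ) : ℝ :=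
  (Qk k (ENNReal.ofReal kv) (ENNReal.ofReal s) (ENNReal.ofReal ke) (ENNReal.ofReal E)).toReal

noncomputable def rAv (k1 k2 d1 s1 d2 : ℝ) : ℝ :=
  (Av (ENNReal.ofReal k1) (ENNReal.ofReal k2) (ENNReal.ofReal d1) (ENNReal.ofReal s1)
    (ENNReal.ofReal d2)).toReal

noncomputable def rAh (k1 k2 d1 s1 d2 : ℝ) : ℝ :=
  (Ah (ENNReal.ofReal k1) (ENNReal.ofReal k2) (ENNReal.ofReal d1) (ENNReal.ofReal s1)
    (ENNReal.ofReal d2)).toReal

noncomputable def rApi (k1 k2 d1 s1 d2 : ℝ) : ℝ :=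
  (Api (ENNReal.ofReal k1) (ENNReal.ofReal k2) (ENNReal.ofReal d1) (ENNReal.ofReal s1)
    (ENNReal.ofReal d2)).toReal

noncomputable def rAc (k1 k2 d1 s1 d2 : ℝ) : ℝ :=
  (Ac (ENNReal.ofReal k1) (ENNReal.ofReal k2) (ENNReal.ofReal d1) (ENNReal.ofReal s1)
    (ENNReal.ofReal d2)).toReal

/-! ### the combinatorial system -/

section
variable (K D S : ℝ → ℝ)

/-- networks that are neither an edge nor parallel -/
noncomputable def yX (x : ℝ) : ℝ :=
  K x * D x ^ 2 / (1 + K x * D x) +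
    (rRg (K x) (D x) + rAv (K x) (K (x ^ 2)) (D x) (S x) (D (x ^ 2))) / 2

/-- symmetric series networks -/
noncomputable def ySS (x : ℝ) : ℝ :=
  D (x ^ 2) / (1 + K (x ^ 2) * D (x ^ 2)) * (K x + K (x ^ 2) * S x)

/-- symmetric networks that are neither an edge nor parallel -/
noncomputable def yZ (x : ℝ) : ℝ :=
  ySS K D S x + (rApi (K x) (K (x ^ 2)) (D x) (S x) (D (x ^ 2)) +
    rAh (K x) (K (x ^ 2)) (D x) (S x) (D (x ^ 2))) / 2

/-- nodes with rigid skeleton at the root vertex -/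
noncomputable def yR (x : ℝ) : ℝ :=
  rQ1 (K x) (D x) / 2 +
    ∑' k : ℕ, ((k + 2).totient : ℝ) / (2 * ((k + 2 : ℕ) : ℝ)) *
      rQk (k + 2) (K x) (K (x ^ (k + 2))) (S x) (D (x ^ (k + 2))) +
    (K x * D x * rAv (K x) (K (x ^ 2)) (D x) (S x) (D (x ^ 2)) +
      rAc (K x) (K (x ^ 2)) (D x) (S x) (D (x ^ 2))) / 4

/-- pieces -/
noncomputable def yP (x : ℝ) : ℝ :=
  K x * (D x - yX K D S x - D x * yX K D S x) +
    (K x ^ 2 * D x ^ 2 * (D x / (1 + K x * D x)) +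
      K (x ^ 2) * D (x ^ 2) * (S x - ySS K D S x)) / 2 + yR K D S x

/-- The combinatorial system at `x`. -/
structure CSys (x : ℝ) : Prop where
  sQ : Summable fun k : ℕ => ((k + 2).totient : ℝ) / (2 * ((k + 2 : ℕ) : ℝ)) *
      rQk (k + 2) (K x) (K (x ^ (k + 2))) (S x) (D (x ^ (k + 2)))
  sX : Summable fun k : ℕ => yX K D S (x ^ (k + 1)) / ((k + 1 : ℕ) : ℝ)
  sZ : Summable fun k : ℕ => (if Even k then yZ K D S (x ^ (k + 1)) else
    yX K D S (x ^ (k + 1))) / ((k + 1 : ℕ) : ℝ)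
  sP : Summable fun k : ℕ => yP K D S (x ^ (k + 1)) / ((k + 1 : ℕ) : ℝ)
  eD : D x + 1 = 2 * exp (∑' k : ℕ, yX K D S (x ^ (k + 1)) / ((k + 1 : ℕ) : ℝ))
  eS : S x + 1 = 2 * exp (∑' k : ℕ, (if Even k then yZ K D S (x ^ (k + 1)) else
    yX K D S (x ^ (k + 1))) / ((k + 1 : ℕ) : ℝ))
  eK : K x = x * exp (∑' k : ℕ, yP K D S (x ^ (k + 1)) / ((k + 1 : ℕ) : ℝ))

end

/-! ### the actual generating functions -/

/-- `K`: rooted connected planar graphs -/
noncomputable def aK (n : ℕ) : ℝ := rr n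

/-- `D`: networks -/
noncomputable def aD (n : ℕ) : ℝ := 2 * (bb (n + 2) : ℝ) - if n = 0 then 1 else 0

/-- `S`: networks isomorphic to their reverse -/
noncomputable def aS (n : ℕ) : ℝ := Nat.card {c : NC RC // c.fl = c ∧ sg c.rep.1 = n}

/-- admissible sequences of coefficients -/
structure Adm (a b c : ℕ → ℝ) : Prop where
  a0 : a 0 = 0
  b0 : b 0 = 1
  c0 : c 0 = 1
  an : ∀ n, 0 ≤ a n
  bn : ∀ n, 0 ≤ b n
  cn : ∀ n, 0 ≤ c n

/-- the series converge -/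
structure Conv (a b c : ℕ → ℝ) (x : ℝ) : Prop where
  a : Summable fun n => a n * x ^ n
  b : Summable fun n => b n * x ^ n
  c : Summable fun n => c n * x ^ n

end PGr

end

section
/-! # Module FinRg: the generating functions of rigid maps with symmetries are finite -/

set_option linter.unusedSectionVars false

namespace PGr
open Equiv Finset
open scoped ENNReal Classical

/-- `Rg_expl`, `exists_Ef` for `t = 81 / 100`: `scr t > 1 / 400`, `ecr t > 3` -/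
theorem Rg_fin : Rg (ENNReal.ofReal (1 / 400)) (ENNReal.ofReal 3) ≠ ⊤ := by
  have h0 : (0 : ℝ) < 81 / 100 := by norm_num
  have h1 : (81 / 100 : ℝ) < 1 := by norm_num
  have hs : scr (81 / 100) ≤ 1 / 10 := by norm_num [scr]
  have hs' : 1 / 400 ≤ scr (81 / 100) := by norm_num [scr]
  have he : 3 < ecr (81 / 100) := by norm_num [ecr]
  obtain ⟨v, hv0, hv1, hv⟩ := exists_Ef h0 h1 (by norm_num : (0 : ℝ) < 3) he
  obtain ⟨_, h2⟩ := Rg_expl h0 h1 hs hv0 hv1
  rw [hv] at h2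
  refine ne_top_of_le_ne_top ?_ (Rg_mono (ENNReal.ofReal_le_ofReal hs') le_rfl)
  rw [h2]
  exact ENNReal.ofReal_ne_top

theorem FinRg_even (c : GC) : 2 ∣ Fintype.card c.rep.1.T := by
  have h : Good c.rep.1.aa c.rep.1.s := c.rep.2
  have h1 : ∑ x : c.rep.1.T, (1 : ZMod 2) = 0 := by
    refine Finset.sum_involution (fun x _ => c.rep.1.aa x) ?_ ?_ ?_ ?_
    · intro x _
      decide
    · intro x _ _
      exact h.fpf x
    · intro x _
      exact Finset.mem_univ _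
    · intro x _
      exact h.inv x
  have h2 : ((Fintype.card c.rep.1.T : ℕ) : ZMod 2) = 0 := by
    rw [← h1, Finset.sum_const, Finset.card_univ]
    simp
  exact (ZMod.natCast_eq_zero_iff _ _).1 h2

/-- a rigid map has at least four vertices (`Rg3.card_ge`, also for the dual map, and Euler's formula) -/
theorem rigid_nV {c : GC} (h : Rigid c.rep.1) : 4 ≤ nV c.rep.1.s := by
  have hg : Good c.rep.1.aa c.rep.1.s := c.rep.2
  have hr : Rg3 c.rep.1.aa c.rep.1.s := h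
  have h1 := hg.euler
  have h2 := Rg3.card_ge hg.dual (hr.dual hg)
  have h3 := FinRg_even c
  have h5 := h.1
  omega

/-- `Q1 ≤ κ * δ * Rg κ δ` -/
theorem Q1_fin : Q1 (ENNReal.ofReal (1 / 400)) (ENNReal.ofReal 3) ≠ ⊤ := by
  refine ne_top_of_le_ne_top (b := ENNReal.ofReal (1 / 400) * ENNReal.ofReal 3 *
    Rg (ENNReal.ofReal (1 / 400)) (ENNReal.ofReal 3)) ?_ ?_
  · exact ENNReal.mul_ne_top (ENNReal.mul_ne_top ENNReal.ofReal_ne_top ENNReal.ofReal_ne_top) Rg_fin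
  · unfold Q1 Rg
    rw [← ENNReal.tsum_mul_left]
    refine ENNReal.tsum_le_tsum fun c => ?_
    split_ifs with h
    · have h4 := rigid_nV h
      have h5 : Fintype.card c.rep.1.T = Fintype.card c.rep.1.D + 2 := by
        rw [Fintype.card_sum, Fintype.card_bool]
      have h6 : (1 : ℝ≥0∞) ≤ (c.rep.1.dg : ℝ≥0∞) := by
        exact_mod_cast dg_pos c
      rw [show nV c.rep.1.s - 1 = (nV c.rep.1.s - 2) + 1 by omega,
        show Fintype.card c.rep.1.T / 2 = Fintype.card c.rep.1.D / 2 + 1 by omega]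
      refine (ENNReal.div_le_of_le_mul ?_)
      calc _ = ENNReal.ofReal (1 / 400) * ENNReal.ofReal 3 *
            (ENNReal.ofReal (1 / 400) ^ (nV c.rep.1.s - 2) *
              ENNReal.ofReal 3 ^ (Fintype.card c.rep.1.D / 2)) * 1 := by ring
        _ ≤ _ := by gcongr
    · simp

end PGr

end

section
/-! # Module FinAv: the generating functions of rigid maps with an involution are finite -/

set_option linter.unusedSectionVars false

namespace PGr
open Equiv Finset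
open scoped ENNReal Classical

private theorem sum_uniq {α : Type*} [Fintype α] (P : α → Prop) [DecidablePred P]
    (hP : ∀ x y, P x → P y → x = y)
    (f : α → ℝ≥0∞) (B : ℝ≥0∞) (hf : ∀ x, P x → f x ≤ B) : ∑ x, (if P x then f x else 0) ≤ B := by
  by_cases h : ∃ x, P x
  · obtain ⟨x, hx⟩ := h
    rw [Finset.sum_eq_single x]
    · rw [if_pos hx]
      exact hf x hx
    · intro y _ hy
      rw [if_neg fun h => hy (hP y x h hx)]
    · intro h
      exact absurd (mem_univ x) h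
  · push Not at h
    rw [Finset.sum_eq_zero]
    · exact zero_le
    · intro x _
      rw [if_neg (h x)]

private theorem fix_rev {M : BMap} (hM : M.IsGood) (σ : Perm M.T) (X : M.T → Prop) :
    fixD M σ X + revD M σ X ≤ Nat.card {t : M.T // X t} := by
  unfold fixD revD
  rw [← Nat.card_sum]
  refine Nat.card_le_card_of_injective
    (Sum.elim (fun t : {t : M.T // X t ∧ σ t = t} => (⟨t.1, t.2.1⟩ : {t : M.T // X t}))
      (fun t : {t : M.T // X t ∧ σ t = M.aa t} => (⟨t.1, t.2.1⟩ : {t : M.T // X t}))) ?_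
  rintro (⟨t, ht, ht'⟩ | ⟨t, ht, ht'⟩) (⟨u, hu, hu'⟩ | ⟨u, hu, hu'⟩) h
  · simp only [Sum.elim_inl, Subtype.mk.injEq] at h
    subst h
    rfl
  · simp only [Sum.elim_inl, Sum.elim_inr, Subtype.mk.injEq] at h
    subst h
    exact absurd (hu'.symm.trans ht') (Good.fpf hM t)
  · simp only [Sum.elim_inl, Sum.elim_inr, Subtype.mk.injEq] at h
    subst h
    exact absurd (ht'.symm.trans hu') (Good.fpf hM t)
  · simp only [Sum.elim_inr, Subtype.mk.injEq] at h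
    subst h
    rfl

private theorem w_bound (f n a b m : ℕ) (hab : a + b ≤ m) :
    ENNReal.ofReal (1 / 400) ^ f * ENNReal.ofReal (1 / 160000) ^ ((n - f) / 2) *
      ENNReal.ofReal 3 ^ (a / 2) * ENNReal.ofReal 3 ^ (b / 2) *
      ENNReal.ofReal 3 ^ ((m - a - b) / 4) ≤
    ENNReal.ofReal (1 / 400) ^ (n - 1) * ENNReal.ofReal 3 ^ (m / 2) := by
  have h1 : ENNReal.ofReal (1 / 160000) = ENNReal.ofReal (1 / 400) ^ 2 := by
    rw [← ENNReal.ofReal_pow (by norm_num)]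
    norm_num
  rw [h1, ← pow_mul, ← pow_add, mul_assoc, mul_assoc, ← pow_add, ← pow_add]
  refine mul_le_mul' ?_ ?_
  · refine pow_le_pow_right_of_le_one' ?_ (by omega)
    rw [← ENNReal.ofReal_one]
    exact ENNReal.ofReal_le_ofReal (by norm_num)
  · refine pow_le_pow_right' ?_ (by omega)
    rw [← ENNReal.ofReal_one]
    exact ENNReal.ofReal_le_ofReal (by norm_num)

private theorem card_inl (M : BMap) : Nat.card {t : M.T // ∃ d, t = Sum.inl d} = Fintype.card M.D := by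
  rw [← Nat.card_eq_fintype_card]
  refine (Nat.card_congr (Equiv.ofBijective
    (fun d => (⟨Sum.inl d, d, rfl⟩ : {t : M.T // ∃ d, t = Sum.inl d})) ⟨?_, ?_⟩)).symm
  · intro d d' h
    simpa using h
  · rintro ⟨t, d, rfl⟩
    exact ⟨d, rfl⟩

private theorem symW_le (c : GC) (h : Rigid c.rep.1) (σ : Perm c.rep.1.T) :
    symW c.rep.1 σ (ENNReal.ofReal (1 / 400)) (ENNReal.ofReal (1 / 160000)) (ENNReal.ofReal 3)
      (ENNReal.ofReal 3) (ENNReal.ofReal 3) ≤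
    ENNReal.ofReal 400 * (ENNReal.ofReal (1 / 400) ^ (nV c.rep.1.s - 2) *
      ENNReal.ofReal 3 ^ (Fintype.card c.rep.1.D / 2)) := by
  unfold symW
  have h1 := fix_rev c.rep.2 σ (fun t => ∃ d, t = Sum.inl d)
  rw [card_inl] at h1
  refine (w_bound _ _ _ _ _ h1).trans (le_of_eq ?_)
  have h2 := rigid_nV h
  rw [show nV c.rep.1.s - 2 = (nV c.rep.1.s - 2 - 1) + 1 by omega, pow_succ]
  have h3 : ENNReal.ofReal (1 / 400) * ENNReal.ofReal 400 = 1 := by
    rw [← ENNReal.ofReal_mul (by norm_num)]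
    norm_num
  calc _ = ENNReal.ofReal (1 / 400) ^ (nV c.rep.1.s - 2 - 1) *
        ENNReal.ofReal 3 ^ (Fintype.card c.rep.1.D / 2) *
        (ENNReal.ofReal (1 / 400) * ENNReal.ofReal 400) := by rw [h3, mul_one]; rfl
    _ = _ := by ring

private theorem gen_fin (o : Bool) (r : (M : BMap) → M.T) :
    ∑' c : GC, ∑ σ : Perm c.rep.1.T,
      (if Rigid c.rep.1 ∧ SymM c.rep.1 o σ (r c.rep.1) then
        symW c.rep.1 σ (ENNReal.ofReal (1 / 400)) (ENNReal.ofReal (1 / 160000)) (ENNReal.ofReal 3)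
      (ENNReal.ofReal 3) (ENNReal.ofReal 3) else 0) ≠ ⊤ := by
  refine ne_top_of_le_ne_top (b := ENNReal.ofReal 400 *
    Rg (ENNReal.ofReal (1 / 400)) (ENNReal.ofReal 3)) ?_ ?_
  · exact ENNReal.mul_ne_top ENNReal.ofReal_ne_top Rg_fin
  · unfold Rg
    rw [← ENNReal.tsum_mul_left]
    refine ENNReal.tsum_le_tsum fun c => ?_
    refine sum_uniq (fun σ => Rigid c.rep.1 ∧ SymM c.rep.1 o σ (r c.rep.1)) ?_ _ _ ?_
    · intro σ σ' h h'
      exact h.2.unique c.rep.2 h'.2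
    · intro σ h
      rw [if_pos h.1]
      exact symW_le c h.1 σ

/-- Let `κ = 1 / 400`, `δ = 3`.  `k1 ^ f * k2 ^ ((V - 2 - f) / 2) ≤ κ ^ (V - 3)` for `k1 ≤ κ`, `k2 ≤ κ ^ 2`, and the dart weights are at most
`δ ^ (card D / 2)`; for every map there is at most one `σ` (`SymM.unique`).  So `Av ≤ κ⁻¹ * Rg κ δ`. -/
theorem Av_fin : Av (ENNReal.ofReal (1 / 400)) (ENNReal.ofReal (1 / 160000)) (ENNReal.ofReal 3)
    (ENNReal.ofReal 3) (ENNReal.ofReal 3) ≠ ⊤ := gen_fin false fun _ => Sum.inr true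

theorem Ah_fin : Ah (ENNReal.ofReal (1 / 400)) (ENNReal.ofReal (1 / 160000)) (ENNReal.ofReal 3)
    (ENNReal.ofReal 3) (ENNReal.ofReal 3) ≠ ⊤ := gen_fin false fun _ => Sum.inr false

theorem Api_fin : Api (ENNReal.ofReal (1 / 400)) (ENNReal.ofReal (1 / 160000)) (ENNReal.ofReal 3)
    (ENNReal.ofReal 3) (ENNReal.ofReal 3) ≠ ⊤ := gen_fin true fun _ => Sum.inr false

theorem Ac_fin : Ac (ENNReal.ofReal (1 / 400)) (ENNReal.ofReal (1 / 160000)) (ENNReal.ofReal 3)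
    (ENNReal.ofReal 3) (ENNReal.ofReal 3) ≠ ⊤ := by
  refine ne_top_of_le_ne_top (b := ENNReal.ofReal 3 *
    Rg (ENNReal.ofReal (1 / 400)) (ENNReal.ofReal 3)) ?_ ?_
  · exact ENNReal.mul_ne_top ENNReal.ofReal_ne_top Rg_fin
  · unfold Rg Ac
    rw [← ENNReal.tsum_mul_left]
    refine ENNReal.tsum_le_tsum fun c => ?_
    refine sum_uniq (fun σ => Rigid c.rep.1 ∧ SymM c.rep.1 false σ (c.rep.1.s (Sum.inr true))) ?_ _ _ ?_
    · intro σ σ' h h'
      exact h.2.unique c.rep.2 h'.2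
    · intro σ h
      rw [if_pos h.1]
      unfold symW0
      have h1 := fix_rev c.rep.2 σ (fun _ => True)
      have h2 : Nat.card {t : c.rep.1.T // True} = Fintype.card c.rep.1.T := by
        rw [← Nat.card_eq_fintype_card]
        exact Nat.card_congr (Equiv.subtypeUnivEquiv fun _ => trivial)
      rw [h2] at h1
      refine (w_bound _ _ _ _ _ h1).trans (le_of_eq ?_)
      have h5 : Fintype.card c.rep.1.T = Fintype.card c.rep.1.D + 2 := by
        rw [Fintype.card_sum, Fintype.card_bool]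
      rw [show nV c.rep.1.s - 1 - 1 = nV c.rep.1.s - 2 by omega,
        show Fintype.card c.rep.1.T / 2 = Fintype.card c.rep.1.D / 2 + 1 by omega, pow_succ]
      ring

end PGr

end

section
/-!
# The explicit system of equations (definitions)

Everything here is an explicit function of real numbers; the unknowns of the system are the real functions
`K, D, S` (sums of power series) and the auxiliary functions `U, V, A`.
-/

set_option linter.unusedSectionVars false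

namespace PGr
open Real

/-! ### the parameters `u, v` of a pair `(s, E)` -/

def UV (s E u v : ℝ) : Prop :=
  0 < u ∧ 0 < v ∧ u + v + 3 * u * v < 1 ∧ s * (v * (1 - u) ^ 2) = u * (1 - v) ^ 2 ∧
    E * (1 - v) ^ 2 = v * (1 - u - v)

/-- rigid maps -/
noncomputable def eRg (s E u v : ℝ) : ℝ :=
  E - v * (1 - u) ^ 2 - s * E ^ 2 / (1 + s * E) - E ^ 2 / (1 + E)

/-- rigid maps with a root vertex -/
noncomputable def eQ1 (s E u v : ℝ) : ℝ :=
  s * log ((1 - u * v) * (1 - v) / (1 - v - u * v)) - log (1 - u * v) +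
    (1 + u + v - 3 * u * v) - 1 / 2 - (1 + u + v - 3 * u * v) / (2 * (1 - u)) -
    v * (1 - u) ^ 2 / 2 - s * (v * (1 - u) ^ 2) + s * (E / (1 + E)) +
    s * (E / (1 + E)) * E * (1 - E) / 2 + s * E ^ 2 / 2 - s * E * (v * (1 - u) ^ 2) -
    s * E ^ 2 * (s * E / (1 + s * E)) / 2

/-- rotations of order at least 3 about a vertex; `(u, v)` belong to `(K (x ^ k), D (x ^ k))` -/
noncomputable def eQ (k u v : ℝ) : ℝ :=
  k * log ((1 - u * v) * (1 - v) / (1 - v - u * v)) - log (1 - u * v)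

/-- rotations of order 2 about a vertex; `(u, v)` belong to `(s, E) = (K (x ^ 2), D (x ^ 2))` -/
noncomputable def eQ2 (k c s E u v : ℝ) : ℝ :=
  k * (log ((1 - u * v) * (1 - v) / (1 - v - u * v)) - u * v * (1 - u) / (1 - v) +
      s * E ^ 2 / (1 + s * E)) +
    (-log (1 - u * v) - u * v) + c * (u * (1 - v) - s * E / (1 + s * E))

/-- rotations of order 2 exchanging the poles -/
noncomputable def eApi (k c s E u v : ℝ) : ℝ :=
  k * (u * (1 - v) / s - E / (1 + s * E)) + (v * (1 - u) - E / (1 + E)) +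
    c * (1 - s * E / (1 + s * E) - E / (1 + E) - (1 - u) * (1 - v))

/-! ### reflections -/

/-- the parameter `w` of a point of the curve -/
noncomputable def eW (u v z : ℝ) : ℝ :=
  (1 + v * (1 - u) * z - √((1 + v * (1 - u) * z) ^ 2 - 4 * (v * (1 - u * v)) * z)) /
    (2 * (v * (1 - u * v)))

/-- the second coordinate of a point of the curve -/
noncomputable def eX (u v z : ℝ) : ℝ :=
  (1 - v * eW u v z) / ((1 - v * (1 - u) * eW u v z) * (1 - v * (1 - u * v) * eW u v z))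

/-- the difference of the roots of `z ^ 2 - (1 + A + k + k * d) * z + A * (1 + k * d)` -/
noncomputable def eDl (k d A : ℝ) : ℝ := √((1 + A + k + k * d) ^ 2 - 4 * (A * (1 + k * d)))

noncomputable def eZ1 (k d A : ℝ) : ℝ := (1 + A + k + k * d - eDl k d A) / 2

noncomputable def eZ2 (k d A : ℝ) : ℝ := (1 + A + k + k * d + eDl k d A) / 2

/-- the linear function with the values `eX u v z` at the two roots -/
noncomputable def eL (k d A u v z : ℝ) : ℝ :=
  (eX u v (eZ2 k d A) * (z - eZ1 k d A) + eX u v (eZ1 k d A) * (eZ2 k d A - z)) / eDl k d A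

/-- the equation for the parameter `A`; `(u, v)` belong to `(K (x ^ 2), D (x ^ 2))` -/
def RA (k d c A u v : ℝ) : Prop :=
  0 < A ∧ v * (1 - u) * eZ2 k d A < 1 ∧
    4 * (v * (1 - u * v)) * eZ2 k d A < (1 + v * (1 - u) * eZ2 k d A) ^ 2 ∧
    c + 1 = eL k d A u v (A + k)

/-- reflections; the root edge crosses the axis -/
noncomputable def eAh (k c A s E u v : ℝ) : ℝ :=
  c / (1 + c) - A * (v * (1 - u) ^ 2) - E * (k + s * c) / (1 + s * E)

/-- reflections; the root edge lies on the axis -/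
noncomputable def eAv (k d A s E u v : ℝ) : ℝ :=
  (1 + d) * (v * (1 - u) ^ 2 - E / (1 + E)) +
    s * (v * (1 - u) ^ 2) / k * (eL k d A u v (1 + k + k * d) - 1 - E)

/-- reflections; the corner of the root dart is bisected by the axis -/
noncomputable def eAc (k d c A s E u v : ℝ) : ℝ :=
  k * (1 + d) * (v * (1 - u) ^ 2 - E / (1 + E)) +
    s * (v * (1 - u) ^ 2) * (eL k d A u v (1 + A + k + k * d) - 1 - E) -
    s * E * (c - E * (k + s * c) / (1 + s * E))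

/-! ### the system -/

section
variable (K D S U V A : ℝ → ℝ)

/-- networks that are neither an edge nor parallel -/
noncomputable def zX (x : ℝ) : ℝ :=
  K x * D x ^ 2 / (1 + K x * D x) +
    (eRg (K x) (D x) (U x) (V x) +
      eAv (K x) (D x) (A x) (K (x ^ 2)) (D (x ^ 2)) (U (x ^ 2)) (V (x ^ 2))) / 2

/-- symmetric series networks -/
noncomputable def zSS (x : ℝ) : ℝ :=
  D (x ^ 2) / (1 + K (x ^ 2) * D (x ^ 2)) * (K x + K (x ^ 2) * S x)

/-- symmetric networks that are neither an edge nor parallel -/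
noncomputable def zZ (x : ℝ) : ℝ :=
  zSS K D S x + (eApi (K x) (S x) (K (x ^ 2)) (D (x ^ 2)) (U (x ^ 2)) (V (x ^ 2)) +
    eAh (K x) (S x) (A x) (K (x ^ 2)) (D (x ^ 2)) (U (x ^ 2)) (V (x ^ 2))) / 2

/-- nodes with rigid skeleton at the root vertex -/
noncomputable def zR (x : ℝ) : ℝ :=
  eQ1 (K x) (D x) (U x) (V x) / 2 +
    eQ2 (K x) (S x) (K (x ^ 2)) (D (x ^ 2)) (U (x ^ 2)) (V (x ^ 2)) / 4 +
    ∑' k : ℕ, ((k + 3).totient : ℝ) / (2 * ((k + 3 : ℕ) : ℝ)) *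
      eQ (K x) (U (x ^ (k + 3))) (V (x ^ (k + 3))) +
    (K x * D x * eAv (K x) (D x) (A x) (K (x ^ 2)) (D (x ^ 2)) (U (x ^ 2)) (V (x ^ 2)) +
      eAc (K x) (D x) (S x) (A x) (K (x ^ 2)) (D (x ^ 2)) (U (x ^ 2)) (V (x ^ 2))) / 4

/-- pieces -/
noncomputable def zP (x : ℝ) : ℝ :=
  K x * (D x - zX K D U V A x - D x * zX K D U V A x) +
    (K x ^ 2 * D x ^ 2 * (D x / (1 + K x * D x)) +
      K (x ^ 2) * D (x ^ 2) * (S x - zSS K D S x)) / 2 + zR K D S U V A x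

/-- The explicit system at `x`. -/
structure ESys (x : ℝ) : Prop where
  uv : UV (K x) (D x) (U x) (V x)
  ra : RA (K x) (D x) (S x) (A x) (U (x ^ 2)) (V (x ^ 2))
  sQ : Summable fun k : ℕ => ((k + 3).totient : ℝ) / (2 * ((k + 3 : ℕ) : ℝ)) *
    eQ (K x) (U (x ^ (k + 3))) (V (x ^ (k + 3)))
  sX : Summable fun k : ℕ => zX K D U V A (x ^ (k + 1)) / ((k + 1 : ℕ) : ℝ)
  sZ : Summable fun k : ℕ => (if Even k then zZ K D S U V A (x ^ (k + 1)) else
    zX K D U V A (x ^ (k + 1))) / ((k + 1 : ℕ) : ℝ)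
  sP : Summable fun k : ℕ => zP K D S U V A (x ^ (k + 1)) / ((k + 1 : ℕ) : ℝ)
  eD : D x + 1 = 2 * exp (∑' k : ℕ, zX K D U V A (x ^ (k + 1)) / ((k + 1 : ℕ) : ℝ))
  eS : S x + 1 = 2 * exp (∑' k : ℕ, (if Even k then zZ K D S U V A (x ^ (k + 1)) else
    zX K D U V A (x ^ (k + 1))) / ((k + 1 : ℕ) : ℝ))
  eK : K x = x * exp (∑' k : ℕ, zP K D S U V A (x ^ (k + 1)) / ((k + 1 : ℕ) : ℝ))

/-- the values at all powers of `x` have parameters -/
structure EGood (x : ℝ) : Prop where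
  pos : 0 < x
  uv : ∀ j : ℕ, 1 ≤ j → UV (K (x ^ j)) (D (x ^ j)) (U (x ^ j)) (V (x ^ j))
  ra : ∀ j : ℕ, 1 ≤ j → RA (K (x ^ j)) (D (x ^ j)) (S (x ^ j)) (A (x ^ j)) (U ((x ^ j) ^ 2))
    (V ((x ^ j) ^ 2))
  k : ∀ j : ℕ, 1 ≤ j → K (x ^ j) < 1 / 10
  s : ∀ j : ℕ, 1 ≤ j → 0 ≤ S (x ^ j)

end

end PGr

end

section
/-! # Module EVal: the parameters `u, v`; the values of `Rg` and `Q1` -/

set_option linter.unusedSectionVars false

namespace PGr
open Real
open scoped ENNReal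

/-- `scr_surj`, `uf_unique`; `qf s v > 0` implies `v < t` (`qf_strictAnti`, `qf_crit`) -/
theorem UV.exists_t {s E u v : ℝ} (h : UV s E u v) :
    ∃ t, 0 < t ∧ t < 1 ∧ scr t = s ∧ 0 < v ∧ v < t ∧ u = uf s v ∧ E = Ef s v := by
  obtain ⟨hu, hv, hq, he, hE⟩ := h
  have huv : 0 < u * v := mul_pos hu hv
  have hu1 : u < 1 := by nlinarith
  have hv1 : v < 1 := by nlinarith
  have h1 : 0 < (1 - v) ^ 2 := pow_pos (by linarith) 2
  have h2 : 0 < (1 - u) ^ 2 := pow_pos (by linarith) 2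
  have hs : 0 < s := by
    by_contra h
    have h3 : s * (v * (1 - u) ^ 2) ≤ 0 :=
      mul_nonpos_of_nonpos_of_nonneg (not_lt.1 h) (mul_pos hv h2).le
    have h4 : 0 < u * (1 - v) ^ 2 := mul_pos hu h1
    linarith
  have hu' : u = uf s v := uf_unique hs hv hv1 hu hu1 (by linarith)
  obtain ⟨t, ht0, ht1, hst⟩ := scr_surj hs
  refine ⟨t, ht0, ht1, hst, hv, ?_, hu', ?_⟩
  · by_contra h
    have h3 : qf s v = 1 - u - v - 3 * v * u := by rw [qf, ← hu']
    have h4 : 0 < qf s v := by rw [h3]; linarith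
    have h5 : qf s t = 0 := by rw [← hst]; exact qf_crit ht0 ht1
    rcases (not_lt.1 h).lt_or_eq with h6 | h6
    · have := qf_strictAnti hs ht0 h6 hv1
      linarith
    · rw [h6] at h5
      linarith
  · rw [Ef, ← hu', eq_div_iff h1.ne']
    exact hE

theorem UV.of_lt {t v : ℝ} (h1 : t < 1) (hv : 0 < v) (hvt : v < t) :
    UV (scr t) (Ef (scr t) v) (uf (scr t) v) v := by
  have hv1 : v < 1 := hvt.trans h1
  have hs := scr_pos (hv.trans hvt) h1
  have h2 := qf_pos hv hvt h1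
  have h3 := uf_eq hs hv hv1
  have h4 : (1 - v) ^ 2 ≠ 0 := (pow_pos (by linarith) 2).ne'
  refine ⟨uf_pos hs hv hv1, hv, ?_, ?_, ?_⟩
  · rw [qf] at h2
    linarith
  · rw [h3]; ring
  · rw [Ef, div_mul_cancel₀ _ h4]

/-- `exists_Ef` -/
theorem exists_UV {t E : ℝ} (h0 : 0 < t) (h1 : t < 1) (hE : 0 < E) (hE' : E < ecr t) :
    ∃ u v, UV (scr t) E u v := by
  obtain ⟨v, hv, hvt, rfl⟩ := exists_Ef h0 h1 hE hE'
  exact ⟨_, v, UV.of_lt h1 hv hvt⟩

/-- `Ef_strictMonoOn` -/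
theorem UV.unique {s E u v u' v' : ℝ} (h : UV s E u v) (h' : UV s E u' v') : u = u' ∧ v = v' := by
  obtain ⟨t, h0, h1, hs, hv, hvt, hu, hE⟩ := h.exists_t
  obtain ⟨t', h0', h1', hs', hv', hvt', hu', hE'⟩ := h'.exists_t
  have ht : t = t' := scr_strictAntiOn.injOn ⟨h0, h1⟩ ⟨h0', h1'⟩ (hs.trans hs'.symm)
  subst ht
  subst hs
  have hvv : v = v' := (Ef_strictMonoOn h0 h1).injOn ⟨hv.le, hvt.le⟩ ⟨hv'.le, hvt'.le⟩
    (hE.symm.trans hE')
  subst hvv
  exact ⟨hu.trans hu'.symm, rfl⟩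

theorem UV.pos {s E u v : ℝ} (h : UV s E u v) : 0 < s ∧ 0 < E := by
  obtain ⟨t, h0, h1, rfl, hv, hvt, hu, rfl⟩ := h.exists_t
  have h2 := Ef_strictMonoOn h0 h1 ⟨le_rfl, h0.le⟩ ⟨hv.le, hvt.le⟩ hv
  rw [Ef_zero] at h2
  exact ⟨scr_pos h0 h1, h2⟩

/-- `Rg_expl` -/
theorem rRg_val {s E u v : ℝ} (h : UV s E u v) (hs : s ≤ 1 / 10) : rRg s E = eRg s E u v := by
  obtain ⟨t, h0, h1, rfl, hv, hvt, rfl, rfl⟩ := h.exists_t
  obtain ⟨h2, h3⟩ := Rg_expl h0 h1 hs hv hvt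
  rw [rRg, h3, ENNReal.toReal_ofReal h2]
  rfl

/-- `Q1_expl` -/
theorem rQ1_val {s E u v : ℝ} (h : UV s E u v) (hs : s < 1 / 10) : rQ1 s E = eQ1 s E u v := by
  obtain ⟨t, h0, h1, rfl, hv, hvt, rfl, rfl⟩ := h.exists_t
  obtain ⟨h2, h3⟩ := Q1_expl h0 h1 hs hv hvt
  rw [rQ1, h3, ENNReal.toReal_ofReal h2, Q1f, q1F, eQ1]
  have h4 : v * (1 - uf (scr t) v - v) / (1 - v) ^ 2 = Ef (scr t) v := rfl
  simp only [h4]

end PGr

end

section
/-!
# Digits of the growth constant: definitions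

`ρ` is the radius of convergence, `K = scr t`, `D = ecr t` the critical values.  `Fct` collects all facts about the values of
the generating functions at `ρ`, `ρ ^ 2`, `ρ ^ 3` which are used in the numerical part.
-/

set_option linter.unusedSectionVars false

namespace PGn
open PGr Real
open scoped ENNReal

/-- `K * D ^ 2 / (1 + K * D)` for `K = scr t`, `D = ecr t` -/
noncomputable def serc (t : ℝ) : ℝ := 9 * t ^ 2 * (1 - t) / ((1 + 3 * t) ^ 2 * (3 + t))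

/-- the value of `Rg` at the critical point -/
noncomputable def rgc (t : ℝ) : ℝ :=
  ecr t - 16 * t ^ 3 / (1 + 3 * t) ^ 2 - serc t - 9 * t ^ 4 / ((1 - t) * (1 + 3 * t) * (1 + 2 * t))

/-- the value of `Q1` at the critical point -/
noncomputable def q1c (t : ℝ) : ℝ := q1F (scr t) ((1 - t) / (1 + 3 * t)) t

/-- the part of the network equation which depends on `t` only -/
noncomputable def gc (t : ℝ) : ℝ := log ((1 + ecr t) / 2) - serc t - rgc t / 2

/-- bound for the terms `k ≥ 3` of the exponential formula if the term `k = 2` is `x / 2` -/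
noncomputable def tl (r x : ℝ) : ℝ := r * x / 3 + r ^ 2 * x / (4 * (1 - r))

/-- The facts used in the numerical part.  `K, D, S, X, P, Z, y` are the values at `r = ρ` (`y`: `yR`), `K2, D2, X2, P2` the values at `r ^ 2`,
`K3, D3` the values at `r ^ 3`. -/
structure Fct (r t K D S K2 D2 K3 D3 X X2 P P2 Z y : ℝ) : Prop where
  r0 : 10 / 277 ≤ r
  t0 : 0 < t
  t1 : t < 1
  hK : K = scr t
  hD : D = ecr t
  rK : r ≤ K
  K1 : K ≤ 476 / 10000
  D1 : 1 ≤ D
  S1 : 1 ≤ S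
  SD : S ≤ D
  K2l : r ^ 2 * (1 + r ^ 2) ≤ K2
  K2u : K2 ≤ r ^ 2 / (1 - (K - r) / (1 - r ^ 2))
  D21 : 1 ≤ D2
  D2c : D2 ≤ 1 + r * (D - 1)
  D2l : 1 + 2 * X2 ≤ D2
  D2u : D2 ≤ (1 + X2 / (1 - r ^ 2)) / (1 - X2 / (1 - r ^ 2))
  X2l : K2 * D2 ^ 2 / (1 + K2 * D2) ≤ X2
  X2u : X2 ≤ K2 * D2 ^ 2 / (1 + K2 * D2) + r ^ 2 * (rgc t + rAv K K2 D S D2) / 2
  K3l : r ^ 3 ≤ K3
  K3u : K3 ≤ r * K2
  D3l : 1 ≤ D3
  D3u : D3 ≤ 1 + r * (D2 - 1)
  eX : X = serc t + (rgc t + rAv K K2 D S D2) / 2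
  eDl : r ^ 3 / (3 * (1 + r ^ 3)) ≤ log ((1 + D) / 2) - X - X2 / 2
  eDu : log ((1 + D) / 2) - X - X2 / 2 ≤ tl r X2
  eZ : Z = D2 / (1 + K2 * D2) * (K + K2 * S) + (rApi K K2 D S D2 + rAh K K2 D S D2) / 2
  eSl : Z + X2 / 2 ≤ log ((1 + S) / 2)
  eSu : log ((1 + S) / 2) ≤ Z + X2 / 2 + tl r X2
  eP : P = K * (D - X - D * X) + (K ^ 2 * D ^ 2 * (D / (1 + K * D)) +
    K2 * D2 * (S - D2 / (1 + K2 * D2) * (K + K2 * S))) / 2 + y
  yl : q1c t / 2 + rQk 3 K K3 S D3 / 3 +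
    (K * D * rAv K K2 D S D2 + rAc K K2 D S D2) / 4 ≤ y
  yu : y ≤ q1c t / 2 + rQk 2 K K2 S D2 / 4 + rQk 3 K K3 S D3 / 3 +
    rQk 3 K K3 S D3 * r / (2 * (1 - r)) + (K * D * rAv K K2 D S D2 + rAc K K2 D S D2) / 4
  P2l : K2 ≤ P2
  P2u : P2 ≤ K2 * (D2 - X2 - D2 * X2) + (K2 ^ 2 * D2 ^ 3 + r ^ 2 * K2 * D2 ^ 2) / 2 + r ^ 2 * y
  eKl : r ^ 3 / 3 ≤ log (K / r) - P - P2 / 2
  eKu : log (K / r) - P - P2 / 2 ≤ tl r P2

/-! ### Bounds for the generating functions of symmetric rigid maps -/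

/-- upper bounds for all smaller arguments -/
def UpC (K K2 D S D2 av ah ac : ℝ) : Prop := ∀ k k2 d s d2 : ℝ, k ≤ K → k2 ≤ K2 → d ≤ D → s ≤ S →
  d2 ≤ D2 → rAv k k2 d s d2 ≤ av ∧ rAh k k2 d s d2 ≤ ah ∧ rAc k k2 d s d2 ≤ ac

/-- lower bounds for all larger arguments (in a box where the functions are finite) -/
def LoC (K K2 D S D2 av ah ac : ℝ) : Prop := ∀ k k2 d s d2 : ℝ, K ≤ k → K2 ≤ k2 → D ≤ d → S ≤ s →
  D2 ≤ d2 → k ≤ 1 / 20 → k2 ≤ 1 / 400 → d ≤ 9 / 8 → s ≤ 9 / 8 → d2 ≤ 101 / 100 →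
  av ≤ rAv k k2 d s d2 ∧ ah ≤ rAh k k2 d s d2 ∧ ac ≤ rAc k k2 d s d2

/-! ### Numbers -/

/-- bounds for the logarithm -/
noncomputable def lgL (z : ℝ) : ℝ := (z - 1) - (z - 1) ^ 2 / 2 + (z - 1) ^ 3 / 3 - (z - 1) ^ 4 / 4
noncomputable def lgU (z : ℝ) : ℝ := lgL z + (z - 1) ^ 5 / 5
/-- bounds for the exponential function -/
noncomputable def exL (x : ℝ) : ℝ := 1 + x + x ^ 2 / 2 + x ^ 3 / 6
noncomputable def exU (x : ℝ) : ℝ := exL x + x ^ 4 / 20
/-- bounds for `exp (-x)` -/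
noncomputable def emL (x : ℝ) : ℝ := 1 - x + x ^ 2 / 2 - x ^ 3 / 6
noncomputable def emU (x : ℝ) : ℝ := emL x + x ^ 4 / 24

/-- the numbers of one step -/
structure Num where
  (r0 r1 t0 t1 S0 S1 Dc : ℝ)
  (Ka Kb Da Db K2a K2b D2a : ℝ)
  (avU ahU acU avL ahL acL : ℝ)
  (X2a X2b D2n S0n S1n t0n t1n : ℝ)
  (Kan Kbn Dan Dbn Xa Xb ya yb Pa Pb P2b r0n r1n : ℝ)

/-- upper and lower bound for `Z` -/
noncomputable def Num.Zb (N : Num) : ℝ :=
  N.Dc / (1 + N.K2a * N.D2a) * (N.Kb + N.K2b * N.S1) + (176 / 100000 + N.ahU) / 2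
noncomputable def Num.Za (N : Num) : ℝ :=
  N.D2a / (1 + N.K2b * N.Dc) * (N.Ka + N.K2a * N.S0) + (136 / 100000 + N.ahL) / 2

/-- the ranges -/
structure OkA (N : Num) : Prop where
  r0 : 1 / 30 ≤ N.r0
  r1 : N.r1 ≤ 1 / 20
  t0 : 3 / 5 ≤ N.t0
  t1 : N.t1 ≤ 16 / 25
  S0 : 1 ≤ N.S0
  S1 : N.S1 ≤ 9 / 8
  Dc : N.Dc ≤ 101 / 100
  D2a : 1 ≤ N.D2a
  Ka : 1 / 30 ≤ N.Ka
  Kb : N.Kb ≤ 3823 / 100000
  Da : 1 ≤ N.Da
  Db : N.Db ≤ 9 / 8
  K2a : 0 < N.K2a
  K2b : N.K2b ≤ 147 / 100000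
  avL : 0 ≤ N.avL
  ahL : 0 ≤ N.ahL
  acL : 0 ≤ N.acL

/-- `K`, `D`, `K2`, `D2`, `X2` -/
structure OkB (N : Num) : Prop where
  Ka : N.Ka ≤ scr N.t1
  Kb : scr N.t0 ≤ N.Kb
  Da : N.Da ≤ ecr N.t0
  Db : ecr N.t1 ≤ N.Db
  K2a : N.K2a ≤ N.r0 ^ 2 * (1 + N.r0 ^ 2)
  K2b : N.r1 ^ 2 / (1 - (N.Kb - N.r0) / (1 - N.r1 ^ 2)) ≤ N.K2b
  D2a : N.D2a ≤ 1 + 2 * (N.K2a / (1 + N.K2a))
  X2b : N.K2b * N.Dc ^ 2 / (1 + N.K2b * N.Dc) + N.r1 ^ 2 * (426 / 100000 + N.avU) / 2 ≤ N.X2b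
  X2b' : N.X2b ≤ 1 / 100
  X2a : N.X2a ≤ N.K2a * N.D2a ^ 2 / (1 + N.K2a * N.D2a)
  D2n : (1 + N.X2b / (1 - N.r1 ^ 2)) / (1 - N.X2b / (1 - N.r1 ^ 2)) ≤ N.D2n

/-- `S` and `t` -/
structure OkC (N : Num) : Prop where
  S1 : 2 * exU (N.Zb + N.X2b / 2 + tl N.r1 N.X2b) - 1 ≤ N.S1n
  S0 : N.S0n ≤ 2 * exL (N.Za + N.X2a / 2) - 1
  t0 : lgU ((1 + ecr N.t0n) / 2) - serc N.t0n - rgc N.t0n / 2 ≤
    N.avL / 2 + N.X2a / 2 + N.r0 ^ 3 / (3 * (1 + N.r0 ^ 3))
  t1 : N.avU / 2 + N.X2b / 2 + tl N.r1 N.X2b ≤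
    lgL ((1 + ecr N.t1n) / 2) - serc N.t1n - rgc N.t1n / 2
  t0n : 3 / 5 ≤ N.t0n
  t0n' : N.t0n ≤ 16 / 25
  t1n : 3 / 5 ≤ N.t1n
  t1n' : N.t1n ≤ 16 / 25
  t0l : 1 ≤ (1 + ecr N.t0n) / 2
  t0u : (1 + ecr N.t0n) / 2 ≤ 11 / 10
  t1l : 1 ≤ (1 + ecr N.t1n) / 2
  t1u : (1 + ecr N.t1n) / 2 ≤ 11 / 10
  Za : 0 ≤ N.Za + N.X2a / 2
  Zb : N.Zb + N.X2b / 2 + tl N.r1 N.X2b ≤ 1 / 2

/-- `P` and `r` -/
structure OkD (N : Num) : Prop where
  Ka : N.Kan ≤ scr N.t1n
  Kb : scr N.t0n ≤ N.Kbn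
  Da : N.Dan ≤ ecr N.t0n
  Db : ecr N.t1n ≤ N.Dbn
  Ka' : 1 / 30 ≤ N.Kan
  Kb' : N.Kbn ≤ 1 / 20
  Da' : 1 ≤ N.Dan
  Db' : N.Dbn ≤ 9 / 8
  Xa : N.Xa ≤ lgL ((1 + N.Dan) / 2) - N.X2b / 2 - tl N.r1 N.X2b
  Xb : lgU ((1 + N.Dbn) / 2) - N.X2a / 2 - N.r0 ^ 3 / (3 * (1 + N.r0 ^ 3)) ≤ N.Xb
  Xa' : 0 ≤ N.Xa
  Xb' : N.Xb ≤ 1 / 10
  yb : 545 / 20000000 + 1 / 1000000 + 59 / 3000000 +
    59 / 1000000 * N.r1 / (2 * (1 - N.r1)) + (N.Kb * N.Db * N.avU + N.acU) / 4 ≤ N.yb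
  ya : N.ya ≤ 26 / 1000000 + 16 / 1000000 + (N.Ka * N.Da * N.avL + N.acL) / 4
  Pb : N.Kbn * (N.Dbn * (1 - N.Xa) - N.Xa) + (N.Kbn ^ 2 * N.Dbn ^ 3 / (1 + N.Kan * N.Dan) +
    N.K2b * N.Dc * (N.S1 - N.D2a / (1 + N.K2b * N.Dc) * (N.Ka + N.K2a * N.S0))) / 2 + N.yb ≤ N.Pb
  Pa : N.Pa ≤ N.Kan * (N.Dan * (1 - N.Xb) - N.Xb) + (N.Kan ^ 2 * N.Dan ^ 3 / (1 + N.Kbn * N.Dbn) +
    N.K2a * N.D2a * (N.S0 - N.Dc / (1 + N.K2a * N.D2a) * (N.Kb + N.K2b * N.S1))) / 2 + N.ya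
  P2b : N.K2b * (N.Dc * (1 - N.X2a) - N.X2a) + (N.K2b ^ 2 * N.Dc ^ 3 +
    N.r1 ^ 2 * N.K2b * N.Dc ^ 2) / 2 + N.r1 ^ 2 * N.yb ≤ N.P2b
  Pa' : 0 ≤ N.Pa
  Pb' : N.Pb ≤ 1 / 20
  P2b' : N.P2b ≤ 1 / 100
  r1n : N.Kbn * emU (N.Pa + N.K2a / 2 + N.r0 ^ 3 / 3) ≤ N.r1n
  r0n : N.r0n ≤ N.Kan * emL (N.Pb + N.P2b / 2 + tl N.r1 N.P2b)

/-- the actual values are in the box -/
structure Box (r0 r1 t0 t1 S0 S1 Dc r t S D2 : ℝ) : Prop where
  r0 : r0 ≤ r
  r1 : r ≤ r1
  t0 : t0 ≤ t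
  t1 : t ≤ t1
  S0 : S0 ≤ S
  S1 : S ≤ S1
  Dc : D2 ≤ Dc

/-- the numbers of the three steps -/
noncomputable def N0 : Num := 
  { r0 := 10 / 277, r1 := 2389 / 62500, t0 := 6263 / 10000, t1 := 789 / 1250, S0 := 1, S1 :=
    1120021 / 1000000, Dc := 251147 / 250000, Ka := 36073 / 1000000, Kb := 2389 / 62500, Da :=
    273449 / 250000, Db := 1120021 / 1000000, K2a := 13049 / 10000000, K2b := 7321 / 5000000,
    D2a := 501303 / 500000, avU := 2551 / 1250000, ahU := 19 / 10000, acU := 81 / 1000000, avL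
    := 16067 / 10000000, ahL := 1 / 625, acL := 29 / 500000, X2a := 13099 / 10000000, X2b :=
    14801 / 10000000, D2n := 1002969 / 1000000, S0n := 108069 / 100000, S1n := 108701 / 100000,
    t0n := 626937 / 1000000, t1n := 125411 / 200000, Kan := 9471 / 250000, Kbn := 18969 /
    500000, Dan := 219433 / 200000, Dbn := 1097791 / 1000000, Xa := 46679 / 1000000, Xb := 11767
    / 250000, ya := 9 / 125000, yb := 23 / 250000, Pa := 7887 / 200000, Pb := 4967 / 125000, P2b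
    := 147 / 100000, r0n := 1819 / 50000, r1n := 36447 / 1000000 }
noncomputable def N1 : Num := 
  { r0 := 1819 / 50000, r1 := 36447 / 1000000, t0 := 626937 / 1000000, t1 := 125411 / 200000, S0
    := 108069 / 100000, S1 := 108701 / 100000, Dc := 1002969 / 1000000, Ka := 757697 / 20000000,
    Kb := 1896879 / 50000000, Da := 54858271 / 50000000, Db := 21955817 / 20000000, K2a :=
    165657 / 125000000, K2b := 1330459 / 1000000000, D2a := 1002647 / 1000000, avU := 223249 /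
    125000000, ahU := 18029 / 10000000, acU := 6879 / 100000000, avL := 1767633 / 1000000000,
    ahL := 17907 / 10000000, acL := 6777 / 100000000, X2a := 1330513 / 1000000000, X2b := 335151
    / 250000000, D2n := 100268839 / 100000000, S0n := 10849737 / 10000000, S1n := 2714039 /
    2500000, t0n := 31348629 / 50000000, t1n := 31348917 / 50000000, Kan := 3791909 / 100000000,
    Kbn := 474021 / 12500000, Dan := 27433849 / 25000000, Dbn := 109738449 / 100000000, Xa :=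
    73191 / 1562500, Xb := 4686261 / 100000000, ya := 7731 / 100000000, yb := 8483 / 100000000,
    Pa := 3956483 / 100000000, Pb := 989627 / 25000000, P2b := 33319 / 25000000, r0n := 3642249
    / 100000000, r1n := 910647 / 25000000 }
noncomputable def N2 : Num := 
  { r0 := 3642249 / 100000000, r1 := 910647 / 25000000, t0 := 31348629 / 50000000, t1 :=
    31348917 / 50000000, S0 := 10849737 / 10000000, S1 := 2714039 / 2500000, Dc := 100268839 /
    100000000, Ka := 37919099 / 1000000000, Kb := 1516867 / 40000000, Da := 1097353961 /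
    1000000000, Db := 137173061 / 125000000, K2a := 1660447 / 1250000000, K2b := 3322099 /
    2500000000, D2a := 100265319 / 100000000, avU := 17803421 / 10000000000, ahU := 89963 /
    50000000, acU := 17127 / 250000000, avL := 889267 / 500000000, ahL := 17951 / 10000000, acL
    := 17073 / 250000000, X2a := 6668197 / 5000000000, X2b := 13382237 / 10000000000, D2n :=
    2506709 / 2500000, S0n := 5425363 / 5000000, S1n := 6784657 / 6250000, t0n := 626975297 /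
    1000000000, t1n := 78372097 / 125000000, Kan := 18959899 / 500000000, Kbn := 1896023 /
    50000000, Dan := 27434209 / 25000000, Dbn := 1097376199 / 1000000000, Xa := 23425171 /
    500000000, Xb := 5857129 / 125000000, ya := 38787 / 500000000, yb := 84681 / 1000000000, Pa
    := 39571337 / 1000000000, Pb := 39580683 / 1000000000, P2b := 20793 / 15625000, r0n :=
    4552921 / 125000000, r1n := 9106103 / 250000000 }

end PGn

end

section
/-! # Module Ser: bounds for the sums in the exponential formulas -/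

set_option linter.unusedSectionVars false

namespace PGn
open PGr Real

variable {r : ℝ}

private theorem geo_bound (h0 : 0 < r) (h1 : r < 1) {f : ℕ → ℝ} {c : ℝ} (hf : ∀ k, 0 ≤ f k)
    (hc : ∀ k, f k ≤ c * r ^ k) : (Summable f) ∧ ∑' k, f k ≤ c / (1 - r) := by
  have hg : HasSum (fun k : ℕ => c * r ^ k) (c * (1 - r)⁻¹) :=
    (hasSum_geometric_of_lt_one h0.le h1).mul_left c
  have hs : Summable f := Summable.of_nonneg_of_le hf hc hg.summable
  refine ⟨hs, ?_⟩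
  calc ∑' k, f k ≤ ∑' k, c * r ^ k := hs.tsum_le_tsum hc hg.summable
    _ = c / (1 - r) := by rw [hg.tsum_eq, div_eq_mul_inv]

private theorem dec_pow (h0 : 0 < r) {X : ℕ → ℝ} (j : ℕ)
    (hs : ∀ k, j ≤ k → X (k + 1) ≤ r * X k) : ∀ k, X (k + j) ≤ X j * r ^ k := by
  intro k
  induction k with
  | zero => simp
  | succ n ih =>
    have h1 := hs (n + j) (by omega)
    have h2 : n + 1 + j = n + j + 1 := by ring
    rw [h2]
    calc X (n + j + 1) ≤ r * X (n + j) := h1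
      _ ≤ r * (X j * r ^ n) := mul_le_mul_of_nonneg_left ih h0.le
      _ = X j * r ^ (n + 1) := by ring

private theorem tail3 (h0 : 0 < r) (h1 : r < 1) {X W : ℕ → ℝ} (hW : ∀ k, 0 ≤ W k)
    (hWX : ∀ k, W k ≤ X k) (hs : ∀ k, X (k + 1) ≤ r * X k) :
    ∑' k : ℕ, W (k + 3) / ((k + 3 + 1 : ℕ) : ℝ) ≤ r ^ 2 * X 1 / (4 * (1 - r)) := by
  have h4 : (0 : ℝ) < 1 - r := by linarith
  have hb := geo_bound (f := fun k : ℕ => W (k + 3) / ((k + 3 + 1 : ℕ) : ℝ))
    (c := r ^ 2 * X 1 / 4) h0 h1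
    (fun k => div_nonneg (hW _) (Nat.cast_nonneg _)) (by
      intro k
      have e1 : X (k + 3) ≤ X 1 * r ^ (k + 2) := dec_pow h0 1 (fun k _ => hs k) (k + 2)
      have e2 : (4 : ℝ) ≤ ((k + 3 + 1 : ℕ) : ℝ) := by
        have : 4 ≤ k + 3 + 1 := by omega
        exact_mod_cast this
      have e3 : 0 ≤ X (k + 3) := (hW _).trans (hWX _)
      calc W (k + 3) / ((k + 3 + 1 : ℕ) : ℝ) ≤ X (k + 3) / ((k + 3 + 1 : ℕ) : ℝ) := by
            apply div_le_div_of_nonneg_right (hWX _) (by positivity)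
        _ ≤ X (k + 3) / 4 := by
            apply div_le_div_of_nonneg_left e3 (by norm_num) e2
        _ ≤ X 1 * r ^ (k + 2) / 4 := by
            apply div_le_div_of_nonneg_right e1 (by norm_num)
        _ = r ^ 2 * X 1 / 4 * r ^ k := by ring)
  calc _ ≤ r ^ 2 * X 1 / 4 / (1 - r) := hb.2
    _ = r ^ 2 * X 1 / (4 * (1 - r)) := by rw [div_div]

/-- `X k` is the value at `r ^ (k + 1)`.  `X k ≤ r ^ (k - 1) * X 1` for `k ≥ 1`; `1 / (k + 1) ≤ 1 / 4` for `k ≥ 3`. -/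
theorem ser_split (h0 : 0 < r) (h1 : r < 1) {X : ℕ → ℝ} (hX : ∀ k, 0 ≤ X k)
    (hs : ∀ k, X (k + 1) ≤ r * X k) (hS : Summable fun k : ℕ => X k / ((k + 1 : ℕ) : ℝ)) :
    X 2 / 3 ≤ (∑' k : ℕ, X k / ((k + 1 : ℕ) : ℝ)) - X 0 - X 1 / 2 ∧
    (∑' k : ℕ, X k / ((k + 1 : ℕ) : ℝ)) - X 0 - X 1 / 2 ≤ tl r (X 1) := by
  have e := hS.sum_add_tsum_nat_add 3
  have e1 : ∑ k ∈ Finset.range 3, X k / ((k + 1 : ℕ) : ℝ) = X 0 + X 1 / 2 + X 2 / 3 := by
    simp only [Finset.sum_range_succ, Finset.sum_range_zero]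
    norm_num
  rw [e1] at e
  have ht : 0 ≤ ∑' k : ℕ, X (k + 3) / ((k + 3 + 1 : ℕ) : ℝ) :=
    tsum_nonneg fun k => div_nonneg (hX _) (Nat.cast_nonneg _)
  have hu := tail3 h0 h1 hX (fun k => le_refl (X k)) hs
  have h2 : X 2 ≤ r * X 1 := hs 1
  refine ⟨by linarith, ?_⟩
  unfold tl
  have h3 : X 2 / 3 ≤ r * X 1 / 3 := div_le_div_of_nonneg_right h2 (by norm_num)
  linarith

/-- the same with a second sequence `Z` at the even places, `0 ≤ Z ≤ X` -/
theorem ser_split' (h0 : 0 < r) (h1 : r < 1) {X Z : ℕ → ℝ} (hZ : ∀ k, 0 ≤ Z k)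
    (hZX : ∀ k, Z k ≤ X k) (hs : ∀ k, X (k + 1) ≤ r * X k)
    (hS : Summable fun k : ℕ => (if Even k then Z k else X k) / ((k + 1 : ℕ) : ℝ)) :
    0 ≤ (∑' k : ℕ, (if Even k then Z k else X k) / ((k + 1 : ℕ) : ℝ)) - Z 0 - X 1 / 2 ∧
    (∑' k : ℕ, (if Even k then Z k else X k) / ((k + 1 : ℕ) : ℝ)) - Z 0 - X 1 / 2 ≤
      tl r (X 1) := by
  have hW : ∀ k : ℕ, 0 ≤ (if Even k then Z k else X k) := by
    intro k
    split_ifs
    · exact hZ k
    · exact (hZ k).trans (hZX k)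
  have hWX : ∀ k : ℕ, (if Even k then Z k else X k) ≤ X k := by
    intro k
    split_ifs
    · exact hZX k
    · exact le_refl _
  have e := hS.sum_add_tsum_nat_add 3
  have e1 : ∑ k ∈ Finset.range 3, (if Even k then Z k else X k) / ((k + 1 : ℕ) : ℝ) =
      Z 0 + X 1 / 2 + Z 2 / 3 := by
    simp only [Finset.sum_range_succ, Finset.sum_range_zero]
    rw [if_pos (by decide : Even 0), if_neg (by decide : ¬ Even 1), if_pos (by decide : Even 2)]
    norm_num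
  rw [e1] at e
  have ht : 0 ≤ ∑' k : ℕ, (if Even (k + 3) then Z (k + 3) else X (k + 3)) / ((k + 3 + 1 : ℕ) : ℝ) :=
    tsum_nonneg fun k => div_nonneg (hW _) (Nat.cast_nonneg _)
  have hu := tail3 h0 h1 hW hWX hs
  have h2 : X 2 ≤ r * X 1 := hs 1
  have h4 : Z 2 ≤ X 2 := hZX 2
  have h5 : 0 ≤ Z 2 := hZ 2
  refine ⟨by linarith, ?_⟩
  unfold tl
  have h3 : X 2 / 3 ≤ r * X 1 / 3 := div_le_div_of_nonneg_right h2 (by norm_num)
  have h6 : Z 2 / 3 ≤ X 2 / 3 := div_le_div_of_nonneg_right h4 (by norm_num)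
  linarith

/-- geometric series -/
theorem ser_geo (h0 : 0 < r) (h1 : r < 1) {Y : ℕ → ℝ} (hY : ∀ k, 0 ≤ Y k) {b : ℝ}
    (hb : ∀ k, Y k ≤ b * r ^ (2 * k))
    (hS : Summable fun k : ℕ => Y k / ((k + 1 : ℕ) : ℝ)) :
    Y 0 ≤ (∑' k : ℕ, Y k / ((k + 1 : ℕ) : ℝ)) ∧
    (∑' k : ℕ, Y k / ((k + 1 : ℕ) : ℝ)) ≤ b / (1 - r ^ 2) := by
  constructor
  · have h2 := hS.le_tsum 0 (fun k _ => div_nonneg (hY _) (Nat.cast_nonneg _))
    simpa using h2
  · have h2 : r ^ 2 < 1 := by nlinarith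
    have h3 := geo_bound (r := r ^ 2) (f := fun k : ℕ => Y k / ((k + 1 : ℕ) : ℝ)) (c := b)
      (by positivity) h2 (fun k => div_nonneg (hY _) (Nat.cast_nonneg _)) (by
        intro k
        have e1 : (1 : ℝ) ≤ ((k + 1 : ℕ) : ℝ) := by
          have : 1 ≤ k + 1 := by omega
          exact_mod_cast this
        calc Y k / ((k + 1 : ℕ) : ℝ) ≤ Y k := div_le_self (hY k) e1
          _ ≤ b * r ^ (2 * k) := hb k
          _ = b * (r ^ 2) ^ k := by rw [pow_mul])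
    exact h3.2

/-- the sum over `k ≥ 4` in `yR`: `a k = totient k / (2 k) ≤ 1 / 2` -/
theorem ser_Q (h0 : 0 < r) (h1 : r < 1) {Q : ℕ → ℝ} (hQ : ∀ k, 0 ≤ Q k)
    (hb : ∀ k, 1 ≤ k → Q (k + 1) ≤ r * Q k)
    (hS : Summable fun k : ℕ => ((k + 2).totient : ℝ) / (2 * ((k + 2 : ℕ) : ℝ)) * Q k) :
    Q 1 / 3 ≤ ∑' k : ℕ, ((k + 2).totient : ℝ) / (2 * ((k + 2 : ℕ) : ℝ)) * Q k ∧
    ∑' k : ℕ, ((k + 2).totient : ℝ) / (2 * ((k + 2 : ℕ) : ℝ)) * Q k ≤
      Q 0 / 4 + Q 1 / 3 + Q 1 * r / (2 * (1 - r)) := by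
  have hn : ∀ k : ℕ, 0 ≤ ((k + 2).totient : ℝ) / (2 * ((k + 2 : ℕ) : ℝ)) * Q k := fun k =>
    mul_nonneg (div_nonneg (Nat.cast_nonneg _) (by positivity)) (hQ k)
  have e := hS.sum_add_tsum_nat_add 2
  have e1 : ∑ k ∈ Finset.range 2, ((k + 2).totient : ℝ) / (2 * ((k + 2 : ℕ) : ℝ)) * Q k =
      Q 0 / 4 + Q 1 / 3 := by
    have t2 : Nat.totient 2 = 1 := by decide
    have t3 : Nat.totient 3 = 2 := by decide
    simp only [Finset.sum_range_succ, Finset.sum_range_zero]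
    norm_num [t2, t3]
    ring
  rw [e1] at e
  have ht : 0 ≤ ∑' k : ℕ, ((k + 2 + 2).totient : ℝ) / (2 * ((k + 2 + 2 : ℕ) : ℝ)) * Q (k + 2) :=
    tsum_nonneg fun k => hn (k + 2)
  have hu := geo_bound
    (f := fun k : ℕ => ((k + 2 + 2).totient : ℝ) / (2 * ((k + 2 + 2 : ℕ) : ℝ)) * Q (k + 2))
    (c := Q 1 * r / 2) h0 h1 (fun k => hn (k + 2)) (by
      intro k
      have d1 : Q (k + 1 + 1) ≤ Q 1 * r ^ (k + 1) := dec_pow h0 1 (fun k hk => hb k hk) (k + 1)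
      have d2 : Q (k + 2) ≤ Q 1 * r ^ (k + 1) := d1
      have d3 : ((k + 2 + 2).totient : ℝ) ≤ ((k + 2 + 2 : ℕ) : ℝ) := by
        exact_mod_cast Nat.totient_le _
      have d4 : (0 : ℝ) < ((k + 2 + 2 : ℕ) : ℝ) := by positivity
      have d5 : ((k + 2 + 2).totient : ℝ) / (2 * ((k + 2 + 2 : ℕ) : ℝ)) ≤ 1 / 2 := by
        rw [div_le_div_iff₀ (by positivity) (by norm_num)]
        linarith
      calc ((k + 2 + 2).totient : ℝ) / (2 * ((k + 2 + 2 : ℕ) : ℝ)) * Q (k + 2)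
          ≤ 1 / 2 * Q (k + 2) := mul_le_mul_of_nonneg_right d5 (hQ _)
        _ ≤ 1 / 2 * (Q 1 * r ^ (k + 1)) := mul_le_mul_of_nonneg_left d2 (by norm_num)
        _ = Q 1 * r / 2 * r ^ k := by ring)
  have hu2 := hu.2
  rw [div_div] at hu2
  have hq0 := hQ 0
  constructor
  · linarith
  · linarith

end PGn

end

section
/-! # Module TFun: the explicit functions of `t` -/

set_option linter.unusedSectionVars false

namespace PGn
open PGr Real

/-- monotonicity from a nonnegative derivative -/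
private theorem TFun_mono {f f' : ℝ → ℝ} {a : ℝ} (hf : ∀ x, a ≤ x → HasDerivAt f (f' x) x)
    (h0 : ∀ x, a ≤ x → 0 ≤ f' x) {x : ℝ} (hx : a ≤ x) : f a ≤ f x := by
  have h1 : MonotoneOn f (Set.Ici a) := by
    apply monotoneOn_of_deriv_nonneg (convex_Ici a)
    · intro y hy
      exact (hf y hy).continuousAt.continuousWithinAt
    · intro y hy
      rw [interior_Ici] at hy
      exact (hf y (le_of_lt hy)).differentiableAt.differentiableWithinAt
    · intro y hy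
      rw [interior_Ici] at hy
      rw [(hf y (le_of_lt hy)).deriv]
      exact h0 y (le_of_lt hy)
  exact h1 Set.self_mem_Ici hx hx

/-- bounds for `log` on `[1, 11/10]` (derivatives, or the alternating series) -/
theorem lg_bd {z : ℝ} (h : 1 ≤ z) (h' : z ≤ 11 / 10) : lgL z ≤ log z ∧ log z ≤ lgU z := by
  have hd : ∀ x : ℝ, 1 ≤ x → HasDerivAt (fun y => log y - lgL y) ((x - 1) ^ 4 / x) x := by
    intro x hx
    have hx0 : x ≠ 0 := by linarith
    have h1 := hasDerivAt_log hx0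
    have h2 : HasDerivAt (fun y : ℝ => y - 1) 1 x := (hasDerivAt_id x).sub_const 1
    have h3 := (((h2.sub ((h2.pow 2).div_const 2)).add ((h2.pow 3).div_const 3)).sub
      ((h2.pow 4).div_const 4))
    refine (h1.sub h3).congr_deriv ?_
    push_cast
    field_simp
    ring
  have hd2 : ∀ x : ℝ, 1 ≤ x → HasDerivAt (fun y => lgU y - log y) ((x - 1) ^ 5 / x) x := by
    intro x hx
    have hx0 : x ≠ 0 := by linarith
    have h2 : HasDerivAt (fun y : ℝ => y - 1) 1 x := (hasDerivAt_id x).sub_const 1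
    have h3 := ((h2.pow 5).div_const 5).sub (hd x hx)
    have h4 : (fun y => lgU y - log y) = fun y => (y - 1) ^ 5 / 5 - (log y - lgL y) := by
      funext y
      unfold lgU
      ring
    rw [h4]
    refine h3.congr_deriv ?_
    push_cast
    field_simp
  have k1 := TFun_mono hd (fun x hx => by have : 0 ≤ x := by linarith
                                          positivity) h
  have k2 := TFun_mono hd2 (fun x hx => by
    have h3 : 0 ≤ x - 1 := by linarith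
    have : 0 ≤ x := by linarith
    positivity) h
  have e1 : lgL 1 = 0 := by unfold lgL; norm_num
  have e2 : lgU 1 = 0 := by unfold lgU lgL; norm_num
  simp only [e1, e2, log_one, sub_zero] at k1 k2
  constructor <;> linarith

theorem ex_bd {x : ℝ} (h : 0 ≤ x) (h' : x ≤ 1 / 2) : exL x ≤ exp x ∧ exp x ≤ exU x := by
  constructor
  · have h1 := Real.sum_le_exp_of_nonneg h 4
    simp only [Finset.sum_range_succ, Finset.sum_range_zero, Nat.factorial] at h1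
    unfold exL
    norm_num at h1 ⊢
    linarith
  · have h1 := Real.exp_bound' h (by linarith) (n := 5) (by norm_num)
    simp only [Finset.sum_range_succ, Finset.sum_range_zero, Nat.factorial] at h1
    unfold exU exL
    norm_num at h1 ⊢
    have h2 : x ^ 5 ≤ x ^ 4 * (1 / 2) := by
      rw [pow_succ x 4]
      exact mul_le_mul_of_nonneg_left h' (by positivity)
    have h3 : 0 ≤ x ^ 4 := by positivity
    linarith

theorem em_bd {x : ℝ} (h : 0 ≤ x) (h' : x ≤ 1 / 2) : emL x ≤ exp (-x) ∧ exp (-x) ≤ emU x := by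
  have hE : ∀ y : ℝ, HasDerivAt (fun z : ℝ => exp (-z)) (-exp (-y)) y := by
    intro y
    have := (hasDerivAt_neg y).exp
    simpa using this
  have hp : ∀ (n : ℕ) (y : ℝ), HasDerivAt (fun z : ℝ => z ^ n) (n * y ^ (n - 1)) y :=
    fun n y => hasDerivAt_pow n y
  have hi : ∀ y : ℝ, HasDerivAt (fun z : ℝ => z) 1 y := fun y => hasDerivAt_id y
  have s1 : ∀ y : ℝ, 0 ≤ y → 1 - y ≤ exp (-y) := by
    intro y _
    have := add_one_le_exp (-y)
    linarith
  have s2 : ∀ y : ℝ, 0 ≤ y → exp (-y) ≤ 1 - y + y ^ 2 / 2 := by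
    intro y hy
    have k := TFun_mono (f := fun z => 1 - z + z ^ 2 / 2 - exp (-z))
      (f' := fun z => exp (-z) - (1 - z)) (a := 0) (fun z _ => by
        refine ((((hasDerivAt_const z (1 : ℝ)).sub (hi z)).add ((hp 2 z).div_const 2)).sub (hE z)).congr_deriv ?_
        push_cast
        ring) (fun z hz => by linarith [s1 z hz]) hy
    simp only [neg_zero, exp_zero] at k
    linarith
  have s3 : ∀ y : ℝ, 0 ≤ y → 1 - y + y ^ 2 / 2 - y ^ 3 / 6 ≤ exp (-y) := by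
    intro y hy
    have k := TFun_mono (f := fun z => exp (-z) - (1 - z + z ^ 2 / 2 - z ^ 3 / 6))
      (f' := fun z => (1 - z + z ^ 2 / 2) - exp (-z)) (a := 0) (fun z _ => by
        refine ((hE z).sub ((((hasDerivAt_const z (1 : ℝ)).sub (hi z)).add ((hp 2 z).div_const 2)).sub
          ((hp 3 z).div_const 6))).congr_deriv ?_
        push_cast
        ring) (fun z hz => by linarith [s2 z hz]) hy
    simp only [neg_zero, exp_zero] at k
    linarith
  have s4 : ∀ y : ℝ, 0 ≤ y → exp (-y) ≤ 1 - y + y ^ 2 / 2 - y ^ 3 / 6 + y ^ 4 / 24 := by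
    intro y hy
    have k := TFun_mono (f := fun z => (1 - z + z ^ 2 / 2 - z ^ 3 / 6 + z ^ 4 / 24) - exp (-z))
      (f' := fun z => exp (-z) - (1 - z + z ^ 2 / 2 - z ^ 3 / 6)) (a := 0) (fun z _ => by
        refine ((((((hasDerivAt_const z (1 : ℝ)).sub (hi z)).add ((hp 2 z).div_const 2)).sub
          ((hp 3 z).div_const 6)).add ((hp 4 z).div_const 24)).sub (hE z)).congr_deriv ?_
        push_cast
        ring) (fun z hz => by linarith [s3 z hz]) hy
    simp only [neg_zero, exp_zero] at k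
    linarith
  unfold emU emL
  exact ⟨s3 x h, s4 x h⟩

private theorem TFun_ecr {t : ℝ} (h0 : 0 < t) (h1 : t < 1) :
    (1 + ecr t) / 2 = (1 + 2 * t) / ((1 - t) * (1 + 3 * t)) / 2 := by
  have h2 : (1 - t) ≠ 0 := by linarith
  have h3 : (1 + 3 * t) ≠ 0 := by linarith
  unfold ecr
  field_simp
  ring

private theorem TFun_rgc {t : ℝ} (h0 : 0 < t) (h1 : t < 1) :
    rgc t = 3 * t ^ 2 / (1 + 2 * t) - 16 * t ^ 3 / (1 + 3 * t) ^ 2 - serc t := by
  have h2 : (1 - t) ≠ 0 := by linarith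
  have h3 : (1 + 3 * t) ≠ 0 := by linarith
  have h4 : (1 + 2 * t) ≠ 0 := by linarith
  unfold rgc
  have h5 : ecr t - 9 * t ^ 4 / ((1 - t) * (1 + 3 * t) * (1 + 2 * t)) = 3 * t ^ 2 / (1 + 2 * t) := by
    unfold ecr
    field_simp
    ring
  linear_combination h5

/-- `gc t = log ((1 + 2 t) / (2 (1 - t)(1 + 3 t))) - [9 t^2 (1-t) / ((1+3t)^2 (3+t)) + 3 t^2 / (1 + 2 t) - 16 t^3 / (1 + 3 t)^2] / 2`.  The derivative of the logarithm is
`2 / (1 + 2 t) + 1 / (1 - t) - 3 / (1 + 3 t) ≥ 2`, the derivative of the bracket is at most `2` (its value is near `0`).  Alternatively directly for `s < t`: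
`log (a / b) ≥ 1 - b / a` and a polynomial inequality. -/
theorem gc_mono : StrictMonoOn gc (Set.Icc (3 / 5) (16 / 25)) := by
  intro s hs t ht hst
  obtain ⟨hs0, hs1⟩ := hs
  obtain ⟨ht0, ht1⟩ := ht
  have key : ∀ x : ℝ, 3 / 5 ≤ x → x ≤ 16 / 25 → gc x =
      log ((1 + 2 * x) / ((1 - x) * (1 + 3 * x)) / 2) - serc x / 2 - 3 / 2 * (x ^ 2 / (1 + 2 * x)) +
        8 * (x ^ 3 / (1 + 3 * x) ^ 2) := by
    intro x hx0 hx1
    unfold gc
    rw [TFun_ecr (by linarith) (by linarith), TFun_rgc (by linarith) (by linarith)]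
    ring
  rw [key s hs0 hs1, key t ht0 ht1]
  have a1 : 0 < 1 - s := by linarith
  have a2 : 0 < 1 - t := by linarith
  have a3 : 0 < 1 + 3 * s := by linarith
  have a4 : 0 < 1 + 3 * t := by linarith
  have a5 : 0 < 1 + 2 * s := by linarith
  have a6 : 0 < 1 + 2 * t := by linarith
  -- the cubic term
  have c1 : s ^ 3 / (1 + 3 * s) ^ 2 ≤ t ^ 3 / (1 + 3 * t) ^ 2 := by
    rw [div_le_div_iff₀ (by positivity) (by positivity)]
    have b1 : s * (1 + 3 * t) ≤ t * (1 + 3 * s) := by nlinarith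
    have b2 : (s * (1 + 3 * t)) ^ 2 ≤ (t * (1 + 3 * s)) ^ 2 :=
      pow_le_pow_left₀ (by positivity) b1 2
    have b3 : (s * (1 + 3 * t)) ^ 2 * s ≤ (t * (1 + 3 * s)) ^ 2 * t :=
      mul_le_mul b2 hst.le (by linarith) (by positivity)
    nlinarith
  -- `serc` decreases
  have c2 : serc t ≤ serc s := by
    unfold serc
    have b1 : t ^ 2 * (1 - t) / (1 + 3 * t) ≤ s ^ 2 * (1 - s) / (1 + 3 * s) := by
      rw [div_le_div_iff₀ (by positivity) (by positivity)]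
      have e : s ^ 2 * (1 - s) * (1 + 3 * t) - t ^ 2 * (1 - t) * (1 + 3 * s) =
          (t - s) * (t ^ 2 + s * t + s ^ 2 - (t + s) + 3 * s * t * (t + s - 1)) := by ring
      have e2 : 0 ≤ t ^ 2 + s * t + s ^ 2 - (t + s) + 3 * s * t * (t + s - 1) := by
        have f1 : 0 ≤ 3 * s * t * (t + s - 1) := by
          apply mul_nonneg <;> [positivity; linarith]
        have f2 : (3 / 5) * t ≤ t * t := by nlinarith
        have f3 : (3 / 5) * s ≤ s * s := by nlinarith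
        have f4 : (3 / 5) * t ≤ s * t := by nlinarith
        have f5 : (3 / 5) * s ≤ s * t := by nlinarith
        nlinarith
      have e3 := mul_nonneg (sub_nonneg.2 hst.le) e2
      linarith
    have b2 : 9 / ((1 + 3 * t) * (3 + t)) ≤ 9 / ((1 + 3 * s) * (3 + s)) := by
      apply div_le_div_of_nonneg_left (by norm_num) (by positivity)
      apply mul_le_mul <;> [linarith; linarith; linarith; linarith]
    have e1 : 9 * t ^ 2 * (1 - t) / ((1 + 3 * t) ^ 2 * (3 + t)) =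
        (t ^ 2 * (1 - t) / (1 + 3 * t)) * (9 / ((1 + 3 * t) * (3 + t))) := by
      have : (3 + t) ≠ 0 := by linarith
      field_simp
    have e2 : 9 * s ^ 2 * (1 - s) / ((1 + 3 * s) ^ 2 * (3 + s)) =
        (s ^ 2 * (1 - s) / (1 + 3 * s)) * (9 / ((1 + 3 * s) * (3 + s))) := by
      have : (3 + s) ≠ 0 := by linarith
      field_simp
    rw [e1, e2]
    exact mul_le_mul b1 b2 (by positivity) (by positivity)
  -- the quadratic term
  have c3 : t ^ 2 / (1 + 2 * t) - s ^ 2 / (1 + 2 * s) ≤ (t - s) / 2 := by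
    rw [div_sub_div _ _ a6.ne' a5.ne', div_le_iff₀ (by positivity)]
    nlinarith [mul_pos (sub_pos.2 hst) a5]
  -- the logarithm
  have hAs : 0 < (1 + 2 * s) / ((1 - s) * (1 + 3 * s)) / 2 := by positivity
  have hAt : 0 < (1 + 2 * t) / ((1 - t) * (1 + 3 * t)) / 2 := by positivity
  have c4 : 1 - ((1 + 2 * s) / ((1 - s) * (1 + 3 * s)) / 2) / ((1 + 2 * t) / ((1 - t) * (1 + 3 * t)) / 2) ≤
      log ((1 + 2 * t) / ((1 - t) * (1 + 3 * t)) / 2) - log ((1 + 2 * s) / ((1 - s) * (1 + 3 * s)) / 2) := by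
    have h1 := Real.log_le_sub_one_of_pos (div_pos hAs hAt)
    rw [log_div hAs.ne' hAt.ne'] at h1
    linarith
  have c5 : 3 / 4 * (t - s) <
      1 - ((1 + 2 * s) / ((1 - s) * (1 + 3 * s)) / 2) / ((1 + 2 * t) / ((1 - t) * (1 + 3 * t)) / 2) := by
    have e : ((1 + 2 * s) / ((1 - s) * (1 + 3 * s)) / 2) / ((1 + 2 * t) / ((1 - t) * (1 + 3 * t)) / 2) =
        ((1 + 2 * s) * ((1 - t) * (1 + 3 * t))) / ((1 - s) * (1 + 3 * s) * (1 + 2 * t)) := by
      field_simp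
    rw [e, lt_sub_iff_add_lt, ← lt_sub_iff_add_lt', div_lt_iff₀ (by positivity)]
    have e1 : (1 - 3 / 4 * (t - s)) * ((1 - s) * (1 + 3 * s) * (1 + 2 * t)) -
        (1 + 2 * s) * ((1 - t) * (1 + 3 * t)) =
        (t - s) * (3 * (t + s + 2 * s * t) - 3 / 4 * ((1 - s) * (1 + 3 * s) * (1 + 2 * t))) := by ring
    have e2 : 0 < 3 * (t + s + 2 * s * t) - 3 / 4 * ((1 - s) * (1 + 3 * s) * (1 + 2 * t)) := by
      have f1 : (1 - s) * (1 + 3 * s) ≤ 1 / 2 * 3 := mul_le_mul (by linarith) (by linarith) (by linarith) (by norm_num)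
      have f2 : (1 - s) * (1 + 3 * s) * (1 + 2 * t) ≤ (1 / 2 * 3) * 3 :=
        mul_le_mul f1 (by linarith) (by linarith) (by norm_num)
      have f3 : 0 ≤ 2 * s * t := by positivity
      nlinarith
    have e3 := mul_pos (sub_pos.2 hst) e2
    linarith
  linarith

/-- the values are between `0.004246` and `0.004256` -/
theorem rgc_le {t : ℝ} (h0 : 6263 / 10000 ≤ t) (h1 : t ≤ 6312 / 10000) :
    rgc t ≤ 426 / 100000 := by
  rw [TFun_rgc (by linarith) (by linarith)]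
  unfold serc
  have a1 : 0 < 1 - t := by linarith
  have a4 : 0 < 1 + 3 * t := by linarith
  have a6 : 0 < 1 + 2 * t := by linarith
  have a7 : 0 < 3 + t := by linarith
  have e : 3 * t ^ 2 / (1 + 2 * t) - 16 * t ^ 3 / (1 + 3 * t) ^ 2 -
      9 * t ^ 2 * (1 - t) / ((1 + 3 * t) ^ 2 * (3 + t)) =
      (3 * t ^ 2 * (1 + 3 * t) ^ 2 * (3 + t) - 16 * t ^ 3 * (1 + 2 * t) * (3 + t) -
        9 * t ^ 2 * (1 - t) * (1 + 2 * t)) / ((1 + 2 * t) * (1 + 3 * t) ^ 2 * (3 + t)) := by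
    field_simp
  rw [e, div_le_iff₀ (by positivity)]
  obtain ⟨x, rfl⟩ : ∃ x, t = 503 / 800 + x := ⟨t - 503 / 800, by ring⟩
  have x0 : -(245 / 100000) ≤ x := by linarith
  have x1 : x ≤ 245 / 100000 := by linarith
  have x2 : |x| ≤ 245 / 100000 := abs_le.2 ⟨x0, x1⟩
  have y : ∀ n : ℕ, |x ^ n| ≤ (245 / 100000) ^ n := fun n => by
    rw [abs_pow]
    exact pow_le_pow_left₀ (abs_nonneg x) x2 n
  have y2 := abs_le.1 (y 2)
  have y3 := abs_le.1 (y 3)
  have y4 := abs_le.1 (y 4)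
  have y5 := abs_le.1 (y 5)
  norm_num at y2 y3 y4 y5
  have e2 : 426 / 100000 * ((1 + 2 * (503 / 800 + x)) * (1 + 3 * (503 / 800 + x)) ^ 2 * (3 + (503 / 800 + x))) -
      (3 * (503 / 800 + x) ^ 2 * (1 + 3 * (503 / 800 + x)) ^ 2 * (3 + (503 / 800 + x)) -
        16 * (503 / 800 + x) ^ 3 * (1 + 2 * (503 / 800 + x)) * (3 + (503 / 800 + x)) -
        9 * (503 / 800 + x) ^ 2 * (1 - (503 / 800 + x)) * (1 + 2 * (503 / 800 + x))) =
      (25029443487483 / 40960000000000000) + (-6254155836731 / 51200000000000) * x + (52968980911 / 32000000000) * x ^ 2 + (308147133 / 40000000) * x ^ 3 + (1079543 / 100000) * x ^ 4 + 5 * x ^ 5 := by ring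
  linarith

/-- bounds of the argument of `lg_bd` -/
theorem ecr_bd {t : ℝ} (h0 : 6263 / 10000 ≤ t) (h1 : t ≤ 6312 / 10000) :
    1 ≤ (1 + ecr t) / 2 ∧ (1 + ecr t) / 2 ≤ 11 / 10 := by
  rw [TFun_ecr (by linarith) (by linarith)]
  have a1 : 0 < 1 - t := by linarith
  have a4 : 0 < 1 + 3 * t := by linarith
  rw [le_div_iff₀ (by norm_num), div_le_iff₀ (by norm_num), le_div_iff₀ (by positivity),
    div_le_iff₀ (by positivity)]
  constructor <;> nlinarith

end PGn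

end

section
/-! # Module Init: the first box -/

set_option linter.unusedSectionVars false

namespace PGn
open PGr Real

variable {r t K D S K2 D2 K3 D3 X X2 P P2 Z y : ℝ}

/-- Proof.  `D ≥ 1` gives `t > 6 / 10`; `scr t ≥ r ≥ 10 / 277 > scr (6312 / 10000)` gives `t < 6312 / 10000`.  `gc t = log ((1 + D) / 2) - X + rAv / 2 ≥ 0` by `eX`, `eDl` (`X2 ≥ 0`, `rAv ≥ 0`), and
`gc (6263 / 10000) < 0` (`lg_bd`), so `t > 6263 / 10000` (`gc_mono`). -/
theorem init_t (h : Fct r t K D S K2 D2 K3 D3 X X2 P P2 Z y) :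
    6263 / 10000 ≤ t ∧ t ≤ 6312 / 10000 := by
  have ht0 := h.t0
  have ht1 := h.t1
  have hu : t ≤ 6312 / 10000 := by
    by_contra hc
    push Not at hc
    have h1 := scr_strictAntiOn (a := 6312 / 10000) (b := t) ⟨by norm_num, by norm_num⟩
      ⟨ht0, ht1⟩ hc
    have h2 : scr (6312 / 10000) < 10 / 277 := by norm_num [scr]
    have h3 := h.r0
    have h4 := h.rK
    rw [h.hK] at h4
    linarith
  have hl : 3 / 5 ≤ t := by
    by_contra hc
    push Not at hc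
    have h1 := ecr_strictMonoOn (a := t) (b := 3 / 5) ⟨ht0, ht1⟩
      ⟨by norm_num, by norm_num⟩ hc
    have h2 : ecr (3 / 5) < 1 := by norm_num [ecr]
    have h3 := h.D1
    rw [h.hD] at h3
    linarith
  refine ⟨?_, hu⟩
  by_contra hc
  push Not at hc
  have h1 := gc_mono (a := t) (b := 6263 / 10000) ⟨hl, by linarith⟩
      ⟨by norm_num, by norm_num⟩ hc
  have h2 : gc (6263 / 10000) < 0 := by
    have h3 := (lg_bd (z := (1 + ecr (6263 / 10000)) / 2) (by norm_num [ecr])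
      (by norm_num [ecr])).2
    have h4 : lgU ((1 + ecr (6263 / 10000)) / 2) - serc (6263 / 10000) -
      rgc (6263 / 10000) / 2 < 0 := by norm_num [lgU, lgL, ecr, serc, rgc]
    unfold gc
    linarith
  have hr0 : 0 < r := lt_of_lt_of_le (by norm_num) h.r0
  have hK2 : 0 < K2 := lt_of_lt_of_le (by positivity) h.K2l
  have hD2 : 0 < D2 := lt_of_lt_of_le (by norm_num) h.D21
  have hX2 : 0 ≤ X2 := le_trans (by positivity) h.X2l
  have ha : 0 ≤ rAv K K2 D S D2 := ENNReal.toReal_nonneg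
  have h3 : 0 ≤ r ^ 3 / (3 * (1 + r ^ 3)) := by positivity
  have h4 := h.eDl
  have h5 := h.eX
  have h6 : gc t = log ((1 + D) / 2) - serc t - rgc t / 2 := by rw [gc, h.hD]
  linarith

/-- `r ≤ K = scr t ≤ scr (6263 / 10000) ≤ N0.r1`; `S ≤ D = ecr t ≤ ecr (6312 / 10000) ≤ N0.S1`; `D2 ≤ 1 + r (D - 1)` -/
theorem init_box (h : Fct r t K D S K2 D2 K3 D3 X X2 P P2 Z y) :
    Box N0.r0 N0.r1 N0.t0 N0.t1 N0.S0 N0.S1 N0.Dc r t S D2 := by
  obtain ⟨hl, hu⟩ := init_t h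
  have ht0 := h.t0
  have ht1 := h.t1
  have hr0 : 0 < r := lt_of_lt_of_le (by norm_num) h.r0
  have hK : K ≤ 38224 / 1000000 := by
    rw [h.hK]
    refine (scr_strictAntiOn.antitoneOn (a := 6263 / 10000) (b := t)
      ⟨by norm_num, by norm_num⟩ ⟨ht0, ht1⟩ hl).trans ?_
    norm_num [scr]
  have hD : D ≤ 1120021 / 1000000 := by
    rw [h.hD]
    refine (ecr_strictMonoOn.monotoneOn (a := t) (b := 6312 / 10000)
      ⟨ht0, ht1⟩ ⟨by norm_num, by norm_num⟩ hu).trans ?_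
    norm_num [ecr]
  have hrK := h.rK
  have hD1 := h.D1
  refine ⟨h.r0, ?_, ?_, ?_, ?_, ?_, ?_⟩
  · norm_num [N0]
    linarith
  · exact hl
  · norm_num [N0]
    linarith
  · exact h.S1
  · norm_num [N0]
    linarith [h.SD]
  · norm_num [N0]
    have h1 := h.D2c
    have h2 : r * (D - 1) ≤ 38224 / 1000000 * (120021 / 1000000) :=
      mul_le_mul (by linarith) (by linarith) (by linarith) (by norm_num)
    linarith

end PGn

end
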