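import Pool.Agent.PGc.RgExpl
import Pool.Agent.PGm.M20
import Pool.Agent.PGm.M34

section
/-! # Module Crit: the values of `Rg` and `Q1` at the critical point -/

set_option linter.unusedSectionVars false

namespace PGn
open PGr Real
open scoped ENNReal

/-- left continuity of sums of powers with nonnegative coefficients.  Proof.  It is enough to bound finite sums (`ENNReal.tsum_eq_iSup_sum`);
a finite sum is a continuous function of `E` (if a coefficient is `⊤` and its exponent is positive, `B = ⊤` by the hypothesis with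
`E' = E / 2`; if the exponent is `0` the term does not depend on `E`), so it is the limit for `E' → E` from the left. -/
theorem tsum_left {ι : Type*} (a : ι → ℝ≥0∞) (n : ι → ℕ) {E : ℝ} (hE : 0 < E) {B : ℝ≥0∞}
    (h : ∀ E' : ℝ, 0 < E' → E' < E → ∑' i, a i * ENNReal.ofReal E' ^ n i ≤ B) :
    ∑' i, a i * ENNReal.ofReal E ^ n i ≤ B := by
  by_cases hB : B = ⊤
  · rw [hB]
    exact le_top
  have ha : ∀ i, a i ≠ ⊤ := by
    intro i hi
    have h1 := (ENNReal.le_tsum i).trans (h (E / 2) (by linarith) (by linarith))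
    rw [hi, ENNReal.top_mul (pow_ne_zero _ (ENNReal.ofReal_pos.2 (by linarith)).ne')] at h1
    exact hB (top_le_iff.1 h1)
  rw [ENNReal.tsum_eq_iSup_sum]
  refine iSup_le fun s => ?_
  have h1 : Filter.Tendsto (fun E' : ℝ => ∑ i ∈ s, a i * ENNReal.ofReal E' ^ n i)
      (nhdsWithin E (Set.Iio E)) (nhds (∑ i ∈ s, a i * ENNReal.ofReal E ^ n i)) := by
    refine tendsto_finsetSum _ fun i _ => ?_
    refine ENNReal.Tendsto.const_mul ?_ (Or.inr (ha i))
    refine Filter.Tendsto.mono_left ?_ nhdsWithin_le_nhds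
    exact (((ENNReal.continuous_pow (n i)).comp ENNReal.continuous_ofReal).tendsto E)
  refine le_of_tendsto h1 ?_
  filter_upwards [Ioo_mem_nhdsLT hE] with E' hE'
  exact (ENNReal.sum_le_tsum s).trans (h E' hE'.1 hE'.2)

/-- the value at the critical point is the limit of the values below -/
private theorem Crit_gen {ι : Type*} (a : ι → ℝ≥0∞) (n : ι → ℕ) {t : ℝ} (h0 : 0 < t) (h1 : t < 1)
    (f : ℝ → ℝ) (hf : ContinuousAt f t)
    (h : ∀ v, 0 < v → v < t → 0 ≤ f v ∧
      ∑' i, a i * ENNReal.ofReal (Ef (scr t) v) ^ n i = ENNReal.ofReal (f v)) :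
    0 ≤ f t ∧ ∑' i, a i * ENNReal.ofReal (ecr t) ^ n i = ENNReal.ofReal (f t) := by
  have hI : Set.Ioo 0 t ∈ nhdsWithin t (Set.Iio t) := Ioo_mem_nhdsLT h0
  have hft : Filter.Tendsto f (nhdsWithin t (Set.Iio t)) (nhds (f t)) :=
    hf.tendsto.mono_left nhdsWithin_le_nhds
  have hmono := Ef_strictMonoOn h0 h1
  have hcrit := Ef_crit h0 h1
  have hS : ∀ E E' : ℝ, E ≤ E' →
      ∑' i, a i * ENNReal.ofReal E ^ n i ≤ ∑' i, a i * ENNReal.ofReal E' ^ n i := by
    intro E E' hEE
    refine ENNReal.tsum_le_tsum fun i => ?_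
    gcongr
  have hft0 : 0 ≤ f t := by
    refine ge_of_tendsto hft ?_
    filter_upwards [hI] with v hv
    exact (h v hv.1 hv.2).1
  have hle : ∀ v, 0 < v → v < t → f v ≤ f t := by
    intro v hv hv'
    refine ge_of_tendsto hft ?_
    filter_upwards [Ioo_mem_nhdsLT hv'] with w hw
    obtain ⟨h2, h3⟩ := h v hv hv'
    obtain ⟨h4, h5⟩ := h w (hv.trans hw.1) hw.2
    have h6 := hS _ _ (hmono.monotoneOn ⟨hv.le, hv'.le⟩ ⟨(hv.trans hw.1).le, hw.2.le⟩ hw.1.le)
    rw [h3, h5] at h6
    exact (ENNReal.ofReal_le_ofReal_iff h4).1 h6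
  refine ⟨hft0, le_antisymm ?_ ?_⟩
  · refine tsum_left a n (ecr_pos h0 h1) fun E' hE0 hE1 => ?_
    obtain ⟨v, hv, hv', rfl⟩ := exists_Ef h0 h1 hE0 hE1
    rw [(h v hv hv').2]
    exact ENNReal.ofReal_le_ofReal (hle v hv hv')
  · have h2 : Filter.Tendsto (fun v => ENNReal.ofReal (f v)) (nhdsWithin t (Set.Iio t))
        (nhds (ENNReal.ofReal (f t))) := (ENNReal.continuous_ofReal.tendsto _).comp hft
    refine le_of_tendsto h2 ?_
    filter_upwards [hI] with v hv
    rw [← (h v hv.1 hv.2).2]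
    refine hS _ _ ?_
    rw [← hcrit]
    exact hmono.monotoneOn ⟨hv.1.le, hv.2.le⟩ ⟨h0.le, le_rfl⟩ hv.2.le

private theorem Crit_serc {t : ℝ} (h0 : 0 < t) (h1 : t < 1) :
    scr t * ecr t ^ 2 / (1 + scr t * ecr t) = serc t := by
  have a1 : 1 - t ≠ 0 := by linarith
  have a2 : 1 + 3 * t ≠ 0 := by positivity
  have a3 : 3 + t ≠ 0 := by positivity
  have h2 : 1 + scr t * ecr t = (3 + t) * (1 + 3 * t) / (16 * t) := by
    unfold scr ecr
    field_simp
    ring
  rw [h2]
  unfold scr ecr serc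
  field_simp
  ring

/-- `uf_crit`, `Ef_crit`: with `u = (1 - t) / (1 + 3 t)`, `1 - u = 4 t / (1 + 3 t)`, `1 + ecr t = (1 + 2 t) / ((1 - t)(1 + 3 t))`,
`1 + scr t * ecr t = (3 + t)(1 + 3 t) / (16 t)` -/
theorem Rf_crit {t : ℝ} (h0 : 0 < t) (h1 : t < 1) : Rf (scr t) t = rgc t := by
  have a1 : 1 - t ≠ 0 := by linarith
  have a2 : 1 + 3 * t ≠ 0 := by positivity
  have a3 : 1 + 2 * t ≠ 0 := by positivity
  have hY : Yf (scr t) t = 16 * t ^ 3 / (1 + 3 * t) ^ 2 := by
    unfold Yf
    rw [uf_crit h0 h1]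
    field_simp
    ring
  have hE : ecr t ^ 2 / (1 + ecr t) = 9 * t ^ 4 / ((1 - t) * (1 + 3 * t) * (1 + 2 * t)) := by
    have h2 : 1 + ecr t = (1 + 2 * t) / ((1 - t) * (1 + 3 * t)) := by
      unfold ecr
      field_simp
      ring
    rw [h2]
    unfold ecr
    field_simp
    ring
  unfold Rf rgc
  rw [Ef_crit h0 h1, hY, hE, Crit_serc h0 h1]

theorem serc_eq {t : ℝ} (h0 : 0 < t) (h1 : t < 1) :
    scr t * ecr t ^ 2 / (1 + scr t * ecr t) = serc t := Crit_serc h0 h1

/-- Proof.  `Rg_series` writes `Rg` as a sum of powers of the second argument; `Rg_expl` for `v < t` and monotonicity: the values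
for `v → t` (from the left; `Ef (scr t) v → ecr t` is continuous and increasing, `Ef_strictMonoOn`, `Ef_continuousOn`) are `ofReal (Rf (scr t) v) → ofReal (Rf (scr t) t)`
(`Rf` is continuous in `v ∈ (0, 1)`: `uf_hasDerivAt` or `Ef_continuousOn`, `Yf_continuousOn`); upper bound by `tsum_left` (every `E' < ecr t` is `Ef (scr t) v` with `v < t`, `exists_Ef`; the value is
increasing in `v`, so at most the limit), lower bound by monotonicity. -/
theorem rg_crit {t : ℝ} (h0 : 0 < t) (h1 : t < 1) (hs : scr t ≤ 1 / 10) :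
    0 ≤ rgc t ∧ Rg (ENNReal.ofReal (scr t)) (ENNReal.ofReal (ecr t)) = ENNReal.ofReal (rgc t) := by
  have hs0 := scr_pos h0 h1
  have he := ecr_pos h0 h1
  have hcE := (Ef_hasDerivAt hs0 h0 h1).continuousAt
  have hcY := (Yf_hasDerivAt hs0 h0 h1).continuousAt
  have hcont : ContinuousAt (Rf (scr t)) t := by
    unfold Rf
    refine ((hcE.sub hcY).sub ?_).sub ?_
    · refine (continuousAt_const.mul (hcE.pow 2)).div
        (continuousAt_const.add (continuousAt_const.mul hcE)) ?_
      rw [Ef_crit h0 h1]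
      positivity
    · refine (hcE.pow 2).div (continuousAt_const.add hcE) ?_
      rw [Ef_crit h0 h1]
      positivity
  have h2 := Crit_gen (rc' (ENNReal.ofReal (scr t))) (fun n => n) h0 h1 (Rf (scr t)) hcont
    (fun v hv hv' => by
      have h3 := Rg_expl h0 h1 hs hv hv'
      rw [Rg_series] at h3
      exact h3)
  rw [Rf_crit h0 h1] at h2
  rw [Rg_series]
  exact h2

/-- the same with `Q1_expl` -/
theorem q1_crit {t : ℝ} (h0 : 0 < t) (h1 : t < 1) (hs : scr t < 1 / 10) :
    0 ≤ q1c t ∧ Q1 (ENNReal.ofReal (scr t)) (ENNReal.ofReal (ecr t)) = ENNReal.ofReal (q1c t) := by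
  classical
  have hs0 := scr_pos h0 h1
  have hq : Q1f (scr t) t = q1c t := by
    unfold Q1f q1c
    rw [uf_crit h0 h1]
  have hpos : 0 < 1 - uf (scr t) t - t := by
    rw [uf_crit h0 h1]
    have a1 : 0 < 1 - t := by linarith
    have h2 : 1 - (1 - t) / (1 + 3 * t) - t = 3 * t * (1 - t) / (1 + 3 * t) := by
      field_simp
      ring
    rw [h2]
    positivity
  obtain ⟨_, _, _, _, hd⟩ := Q1f_deriv hs0 h0 h1 hpos
  have hQ : ∀ E : ℝ≥0∞, Q1 (ENNReal.ofReal (scr t)) E = ∑' c : GC,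
      (if Rigid c.rep.1 then
        ENNReal.ofReal (scr t) ^ (nV c.rep.1.s - 1) / (c.rep.1.dg : ℝ≥0∞) else 0) *
        E ^ (Fintype.card c.rep.1.T / 2) := by
    intro E
    unfold Q1
    refine tsum_congr fun c => ?_
    split_ifs
    · rw [div_eq_mul_inv, div_eq_mul_inv]
      ring
    · rw [zero_mul]
  have h2 := Crit_gen _ (fun c : GC => Fintype.card c.rep.1.T / 2) h0 h1 (fun v => Q1f (scr t) v)
    hd.continuousAt (fun v hv hv' => by
      have h3 := Q1_expl h0 h1 hs hv hv'
      rw [hQ] at h3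
      exact h3)
  rw [← hQ] at h2
  rw [hq] at h2
  exact h2

end PGn

end

section
/-! # Module NumOk: the numerical conditions (rational arithmetic only) -/

set_option linter.unusedSectionVars false

namespace PGn
open PGr
theorem okA0 : OkA N0 := by constructor <;> norm_num [N0]
theorem okB0 : OkB N0 := by constructor <;> norm_num [N0, scr, ecr]
theorem okC0 : OkC N0 := by constructor <;> norm_num [N0, scr, ecr, serc, rgc, tl, lgL, lgU, exL, exU, Num.Za, Num.Zb]
theorem okD0 : OkD N0 := by constructor <;> norm_num [N0, scr, ecr, serc, rgc, tl, lgL, lgU, emL, emU]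
theorem okA1 : OkA N1 := by constructor <;> norm_num [N1]
theorem okB1 : OkB N1 := by constructor <;> norm_num [N1, scr, ecr]
theorem okC1 : OkC N1 := by constructor <;> norm_num [N1, scr, ecr, serc, rgc, tl, lgL, lgU, exL, exU, Num.Za, Num.Zb]
theorem okD1 : OkD N1 := by constructor <;> norm_num [N1, scr, ecr, serc, rgc, tl, lgL, lgU, emL, emU]
theorem okA2 : OkA N2 := by constructor <;> norm_num [N2]
theorem okB2 : OkB N2 := by constructor <;> norm_num [N2, scr, ecr]
theorem okC2 : OkC N2 := by constructor <;> norm_num [N2, scr, ecr, serc, rgc, tl, lgL, lgU, exL, exU, Num.Za, Num.Zb]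
theorem okD2 : OkD N2 := by constructor <;> norm_num [N2, scr, ecr, serc, rgc, tl, lgL, lgU, emL, emU]
end PGn

end
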