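import Pool.Agent.PGm.M34

section
/-! # Module PassA: `K`, `D`, `K2`, `D2`, `X2` -/

set_option linter.unusedSectionVars false

namespace PGn
open PGr Real

variable {N : Num} {r t K D S K2 D2 K3 D3 X X2 P P2 Z y : ℝ}

/-- first bounds -/
structure RA (N : Num) (K D K2 D2 : ℝ) : Prop where
  Ka : N.Ka ≤ K
  Kb : K ≤ N.Kb
  Da : N.Da ≤ D
  Db : D ≤ N.Db
  K2a : N.K2a ≤ K2
  K2b : K2 ≤ N.K2b
  D2a : N.D2a ≤ D2
  D2b : D2 ≤ N.Dc

/-- `x d ^ 2 / (1 + x d)` is increasing in `x` and `d` -/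
private theorem PassA_q {x x' d d' : ℝ} (hx : 0 ≤ x) (hxx : x ≤ x') (hd : 0 ≤ d) (hdd : d ≤ d') :
    x * d ^ 2 / (1 + x * d) ≤ x' * d' ^ 2 / (1 + x' * d') := by
  have hx' : 0 ≤ x' := hx.trans hxx
  have hd' : 0 ≤ d' := hd.trans hdd
  have h1 : 0 < 1 + x * d := by positivity
  have h2 : 0 < 1 + x' * d' := by positivity
  rw [div_le_div_iff₀ h1 h2]
  have e1 : x * d ^ 2 ≤ x' * d' ^ 2 := by gcongr
  have e2 : 0 ≤ x * x' * d * d' * (d' - d) :=
    mul_nonneg (by positivity) (sub_nonneg.2 hdd)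
  nlinarith [e1, e2]

private theorem PassA_scr {t t' : ℝ} (h0 : 3 / 5 ≤ t) (h : t ≤ t') (h1 : t' ≤ 16 / 25) :
    scr t' ≤ scr t := by
  have := scr_strictAntiOn.antitoneOn
  exact this ⟨by linarith, by linarith⟩ ⟨by linarith, by linarith⟩ h

private theorem PassA_ecr {t t' : ℝ} (h0 : 3 / 5 ≤ t) (h : t ≤ t') (h1 : t' ≤ 16 / 25) :
    ecr t ≤ ecr t' := by
  have := ecr_strictMonoOn.monotoneOn
  exact this ⟨by linarith, by linarith⟩ ⟨by linarith, by linarith⟩ h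

/-- `scr` is decreasing, `ecr` increasing (PGc/Crit); `K2l`, `K2u` are monotone in `r`, `K - r`; `D2 ≥ 1 + 2 X2 ≥ 1 + 2 K2 / (1 + K2)` (`X2l`, `D2 ≥ 1`) -/
theorem passA (h : Fct r t K D S K2 D2 K3 D3 X X2 P P2 Z y) (oA : OkA N) (oB : OkB N)
    (b : Box N.r0 N.r1 N.t0 N.t1 N.S0 N.S1 N.Dc r t S D2) : RA N K D K2 D2 := by
  have t0 := oA.t0
  have t1 := oA.t1
  have bt0 := b.t0
  have bt1 := b.t1
  have r0 := oA.r0
  have r1 := oA.r1
  have br0 := b.r0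
  have br1 := b.r1
  have rp : 0 ≤ r := by linarith
  have hKb : K ≤ N.Kb := by
    rw [h.hK]
    exact (PassA_scr t0 bt0 (by linarith)).trans oB.Kb
  have hKa : N.Ka ≤ K := by
    rw [h.hK]
    exact oB.Ka.trans (PassA_scr (by linarith) bt1 t1)
  have hDa : N.Da ≤ D := by
    rw [h.hD]
    exact oB.Da.trans (PassA_ecr t0 bt0 (by linarith))
  have hDb : D ≤ N.Db := by
    rw [h.hD]
    exact (PassA_ecr (by linarith) bt1 t1).trans oB.Db
  have hK2a : N.K2a ≤ K2 := by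
    refine oB.K2a.trans (le_trans ?_ h.K2l)
    have : N.r0 ^ 2 ≤ r ^ 2 := by gcongr
    gcongr
  have q1 : N.r1 ^ 2 ≤ (1 / 20) ^ 2 := by
    have : 0 ≤ N.r1 := by linarith
    gcongr
  have q2 : r ^ 2 ≤ N.r1 ^ 2 := by gcongr
  have hKbc := oA.Kb
  have hK2b : K2 ≤ N.K2b := by
    refine le_trans h.K2u (le_trans ?_ oB.K2b)
    have e1 : (K - r) / (1 - r ^ 2) ≤ (N.Kb - N.r0) / (1 - N.r1 ^ 2) := by
      apply div_le_div₀
      · linarith [h.rK]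
      · linarith
      · linarith
      · linarith
    have e2 : (N.Kb - N.r0) / (1 - N.r1 ^ 2) < 1 := by
      rw [div_lt_one (by linarith)]
      linarith
    apply div_le_div₀
    · positivity
    · exact q2
    · linarith
    · linarith
  have hK2p : 0 < K2 := lt_of_lt_of_le oA.K2a hK2a
  have hD2a : N.D2a ≤ D2 := by
    refine oB.D2a.trans (le_trans ?_ h.D2l)
    have e : N.K2a / (1 + N.K2a) ≤ X2 := by
      refine le_trans ?_ h.X2l
      have := PassA_q (x := N.K2a) (x' := K2) (d := 1) (d' := D2) oA.K2a.le hK2a zero_le_one h.D21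
      simpa using this
    linarith
  exact ⟨hKa, hKb, hDa, hDb, hK2a, hK2b, hD2a, b.Dc⟩

/-- bounds with the values of the symmetric maps -/
structure RB (N : Num) (K D S K2 D2 X2 : ℝ) : Prop extends RA N K D K2 D2 where
  avL : N.avL ≤ rAv K K2 D S D2
  avU : rAv K K2 D S D2 ≤ N.avU
  ahL : N.ahL ≤ rAh K K2 D S D2
  ahU : rAh K K2 D S D2 ≤ N.ahU
  acL : N.acL ≤ rAc K K2 D S D2
  acU : rAc K K2 D S D2 ≤ N.acU
  X2a : N.X2a ≤ X2
  X2b : X2 ≤ N.X2b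

/-- `UpC`, `LoC` with `passA`; `X2l`, `X2u` (`x D^2 / (1 + x D)` is increasing in `x`, `D`), `rgc_le`; `D2u` is increasing in `X2` and `r` -/
theorem passB (h : Fct r t K D S K2 D2 K3 D3 X X2 P P2 Z y) (oA : OkA N) (oB : OkB N)
    (b : Box N.r0 N.r1 N.t0 N.t1 N.S0 N.S1 N.Dc r t S D2)
    (ht : 6263 / 10000 ≤ t) (ht' : t ≤ 6312 / 10000)
    (hU : UpC N.Kb N.K2b N.Db N.S1 N.Dc N.avU N.ahU N.acU)
    (hL : LoC N.Ka N.K2a N.Da N.S0 N.D2a N.avL N.ahL N.acL) :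
    RB N K D S K2 D2 X2 ∧ D2 ≤ N.D2n := by
  have a := passA h oA oB b
  have rp : 0 ≤ r := by linarith [b.r0, oA.r0]
  have r1p : 0 ≤ N.r1 := rp.trans b.r1
  have hK2p : 0 < K2 := lt_of_lt_of_le oA.K2a a.K2a
  have D2p : 0 ≤ D2 := by linarith [h.D21]
  have q1 : N.r1 ^ 2 ≤ (1 / 20) ^ 2 := by
    have := oA.r1
    gcongr
  have q2 : r ^ 2 ≤ N.r1 ^ 2 := by
    have := b.r1
    gcongr
  obtain ⟨u1, u2, u3⟩ := hU K K2 D S D2 a.Kb a.K2b a.Db b.S1 b.Dc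
  obtain ⟨l1, l2, l3⟩ := hL K K2 D S D2 a.Ka a.K2a a.Da b.S0 a.D2a
    (by linarith [a.Kb, oA.Kb]) (by linarith [a.K2b, oA.K2b]) (a.Db.trans oA.Db)
    (b.S1.trans oA.S1) (b.Dc.trans oA.Dc)
  have hX2a : N.X2a ≤ X2 :=
    oB.X2a.trans ((PassA_q oA.K2a.le a.K2a (by linarith [oA.D2a]) a.D2a).trans h.X2l)
  have hX2b : X2 ≤ N.X2b := by
    refine le_trans h.X2u (le_trans ?_ oB.X2b)
    have e1 := PassA_q hK2p.le a.K2b D2p b.Dc
    have e2 : rgc t + rAv K K2 D S D2 ≤ 426 / 100000 + N.avU := add_le_add (rgc_le ht ht') u1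
    have e3 : 0 ≤ 426 / 100000 + N.avU := by linarith [oA.avL, l1.trans u1]
    have e4 : r ^ 2 * (rgc t + rAv K K2 D S D2) ≤ N.r1 ^ 2 * (426 / 100000 + N.avU) :=
      (mul_le_mul_of_nonneg_left e2 (by positivity)).trans (mul_le_mul_of_nonneg_right q2 e3)
    linarith
  have hX2p : 0 ≤ X2 := by
    refine le_trans ?_ h.X2l
    positivity
  refine ⟨⟨a, l1, u1, l2, u2, l3, u3, hX2a, hX2b⟩, ?_⟩
  refine le_trans h.D2u (le_trans ?_ oB.D2n)
  have e1 : X2 / (1 - r ^ 2) ≤ N.X2b / (1 - N.r1 ^ 2) := by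
    apply div_le_div₀
    · linarith
    · exact hX2b
    · linarith
    · linarith
  have e0 : 0 ≤ X2 / (1 - r ^ 2) := div_nonneg hX2p (by linarith)
  have e2 : N.X2b / (1 - N.r1 ^ 2) < 1 := by
    rw [div_lt_one (by linarith)]
    linarith [oB.X2b']
  apply div_le_div₀
  · linarith
  · linarith
  · linarith
  · linarith

end PGn

end

section
/-! # Module PassC: `S` and `t` -/

set_option linter.unusedSectionVars false

namespace PGn
open PGr Real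

variable {N : Num} {r t K D S K2 D2 K3 D3 X X2 P P2 Z y : ℝ}

/-- the values of `Api` -/
def ApiC : Prop := ∀ k k2 d s d2 : ℝ, 36 / 1000 ≤ k → k ≤ 3823 / 100000 → 13 / 10000 ≤ k2 →
  k2 ≤ 147 / 100000 → 1 ≤ s → s ≤ 1121 / 1000 → 10026 / 10000 ≤ d2 → d2 ≤ 1005 / 1000 →
  136 / 100000 ≤ rApi k k2 d s d2 ∧ rApi k k2 d s d2 ≤ 176 / 100000

private theorem PassC_tl {r r' x x' : ℝ} (hr : 0 ≤ r) (hrr : r ≤ r') (h1 : r' < 1)
    (hx : 0 ≤ x) (hxx : x ≤ x') : tl r x ≤ tl r' x' := by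
  unfold tl
  have hr' : 0 ≤ r' := hr.trans hrr
  have hx' : 0 ≤ x' := hx.trans hxx
  have e1 : r * x / 3 ≤ r' * x' / 3 := by gcongr
  have e2 : r ^ 2 * x / (4 * (1 - r)) ≤ r' ^ 2 * x' / (4 * (1 - r')) := by
    apply div_le_div₀
    · positivity
    · gcongr
    · linarith
    · linarith
  linarith

private theorem PassC_tl0 {r x : ℝ} (hr : 0 ≤ r) (h1 : r < 1) (hx : 0 ≤ x) : 0 ≤ tl r x := by
  unfold tl
  have : 0 ≤ r ^ 2 * x / (4 * (1 - r)) := div_nonneg (by positivity) (by linarith)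
  have : 0 ≤ r * x / 3 := by positivity
  linarith

private theorem PassC_cub {r r' : ℝ} (hr : 0 ≤ r) (hrr : r ≤ r') :
    r ^ 3 / (3 * (1 + r ^ 3)) ≤ r' ^ 3 / (3 * (1 + r' ^ 3)) := by
  have hr' : 0 ≤ r' := hr.trans hrr
  rw [div_le_div_iff₀ (by positivity) (by positivity)]
  have : r ^ 3 ≤ r' ^ 3 := by gcongr
  nlinarith [this]

/-- `eZ`: `Z` between `N.Za` and `N.Zb`; then `eSl`, `eSu`: `1 + S = 2 exp (log ((1 + S) / 2))`, `ex_bd` (the exponents are in `[0, 1 / 2]`) -/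
theorem passS (h : Fct r t K D S K2 D2 K3 D3 X X2 P P2 Z y) (oA : OkA N) (oB : OkB N)
    (oC : OkC N) (b : Box N.r0 N.r1 N.t0 N.t1 N.S0 N.S1 N.Dc r t S D2)
    (hb : RB N K D S K2 D2 X2) (hA : ApiC) (h1 : 36 / 1000 ≤ N.Ka) (h2 : 13 / 10000 ≤ N.K2a)
    (h3 : 10026 / 10000 ≤ N.D2a) (h4 : N.S1 ≤ 1121 / 1000) (h5 : N.Dc ≤ 1005 / 1000) :
    N.S0n ≤ S ∧ S ≤ N.S1n := by
  have a := hb.toRA
  have rp : 0 ≤ r := by linarith [b.r0, oA.r0]
  have r1p : 0 ≤ N.r1 := rp.trans b.r1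
  have hr1 := oA.r1
  have S1 := h.S1
  have K2p : 0 < K2 := lt_of_lt_of_le oA.K2a a.K2a
  have Kp : 0 < K := by linarith [a.Ka]
  have D2p : 1 ≤ D2 := h.D21
  have hX2p : 0 ≤ X2 := by
    refine le_trans ?_ h.X2l
    positivity
  obtain ⟨p1, p2⟩ := hA K K2 D S D2 (h1.trans a.Ka) (a.Kb.trans oA.Kb) (h2.trans a.K2a)
    (a.K2b.trans oA.K2b) S1 (b.S1.trans h4) (h3.trans a.D2a) (b.Dc.trans h5)
  have K2ap := oA.K2a
  have K2bp : 0 < N.K2b := lt_of_lt_of_le K2p a.K2b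
  have Dcp : 0 < N.Dc := by linarith [b.Dc]
  have D2ap : 0 < N.D2a := by linarith [oA.D2a]
  have Kap : 0 < N.Ka := by linarith
  have S0p : 0 < N.S0 := by linarith [oA.S0]
  have S1p : 0 < N.S1 := by linarith [b.S1]
  have fu : D2 / (1 + K2 * D2) ≤ N.Dc / (1 + N.K2a * N.D2a) := by
    apply div_le_div₀ Dcp.le b.Dc (by positivity)
    have := mul_le_mul a.K2a a.D2a D2ap.le K2p.le
    linarith
  have fl : N.D2a / (1 + N.K2b * N.Dc) ≤ D2 / (1 + K2 * D2) := by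
    apply div_le_div₀ (by linarith) a.D2a (by positivity)
    have := mul_le_mul a.K2b b.Dc (by linarith) K2bp.le
    linarith
  have gu : K + K2 * S ≤ N.Kb + N.K2b * N.S1 :=
    add_le_add a.Kb (mul_le_mul a.K2b b.S1 (by linarith) K2bp.le)
  have gl : N.Ka + N.K2a * N.S0 ≤ K + K2 * S :=
    add_le_add a.Ka (mul_le_mul a.K2a b.S0 S0p.le K2p.le)
  have gp : 0 ≤ K + K2 * S := by
    have : 0 ≤ K2 * S := mul_nonneg K2p.le (by linarith)
    linarith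
  have Zu : Z ≤ N.Zb := by
    rw [h.eZ]
    unfold Num.Zb
    have := mul_le_mul fu gu gp (by positivity)
    have := hb.ahU
    linarith
  have Zl : N.Za ≤ Z := by
    rw [h.eZ]
    unfold Num.Za
    have := mul_le_mul fl gl (by positivity) (div_nonneg (by linarith) (by positivity))
    have := hb.ahL
    linarith
  have tu := PassC_tl rp b.r1 (by linarith) hX2p hb.X2b
  have tp := PassC_tl0 rp (by linarith [b.r1]) hX2p
  have hSp : 0 < (1 + S) / 2 := by linarith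
  have B := oC.Zb
  have A := oC.Za
  have up : log ((1 + S) / 2) ≤ N.Zb + N.X2b / 2 + tl N.r1 N.X2b := by
    linarith [h.eSu, hb.X2b]
  have lo : N.Za + N.X2a / 2 ≤ log ((1 + S) / 2) := by
    linarith [h.eSl, hb.X2a]
  constructor
  · have e1 := (ex_bd A (by linarith)).1
    have e2 : exp (N.Za + N.X2a / 2) ≤ (1 + S) / 2 := by
      rw [← Real.exp_log hSp]
      exact Real.exp_le_exp.2 lo
    linarith [oC.S0]
  · have e1 := (ex_bd (by linarith) B).2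
    have e2 : (1 + S) / 2 ≤ exp (N.Zb + N.X2b / 2 + tl N.r1 N.X2b) := by
      rw [← Real.exp_log hSp]
      exact Real.exp_le_exp.2 up
    linarith [oC.S1]

/-- `gc t = rAv / 2 + X2 / 2 + (the rest, between r^3/(3(1+r^3)) and tl r X2)` by `eX`, `eDl`, `eDu`; `lg_bd`, `gc_mono` -/
theorem passT (h : Fct r t K D S K2 D2 K3 D3 X X2 P P2 Z y) (oA : OkA N) (oB : OkB N)
    (oC : OkC N) (b : Box N.r0 N.r1 N.t0 N.t1 N.S0 N.S1 N.Dc r t S D2)
    (hb : RB N K D S K2 D2 X2) : N.t0n ≤ t ∧ t ≤ N.t1n := by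
  have a := hb.toRA
  have rp : 0 ≤ r := by linarith [b.r0, oA.r0]
  have r1p : 0 ≤ N.r1 := rp.trans b.r1
  have hr1 := oA.r1
  have K2p : 0 < K2 := lt_of_lt_of_le oA.K2a a.K2a
  have D2p : 1 ≤ D2 := h.D21
  have hX2p : 0 ≤ X2 := by
    refine le_trans ?_ h.X2l
    positivity
  have tu := PassC_tl rp b.r1 (by linarith) hX2p hb.X2b
  have cu := PassC_cub (by linarith [oA.r0]) b.r0
  have eg : gc t = log ((1 + D) / 2) - X + rAv K K2 D S D2 / 2 := by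
    rw [h.eX]
    unfold gc
    rw [← h.hD]
    ring
  have mt : t ∈ Set.Icc (3 / 5 : ℝ) (16 / 25) := ⟨oA.t0.trans b.t0, b.t1.trans oA.t1⟩
  have m0 : N.t0n ∈ Set.Icc (3 / 5 : ℝ) (16 / 25) := ⟨oC.t0n, oC.t0n'⟩
  have m1 : N.t1n ∈ Set.Icc (3 / 5 : ℝ) (16 / 25) := ⟨oC.t1n, oC.t1n'⟩
  constructor
  · rw [← gc_mono.le_iff_le m0 mt]
    have e1 : gc N.t0n ≤ lgU ((1 + ecr N.t0n) / 2) - serc N.t0n - rgc N.t0n / 2 := by
      unfold gc
      have := (lg_bd oC.t0l oC.t0u).2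
      linarith
    linarith [oC.t0, h.eDl, hb.avL, hb.X2a]
  · rw [← gc_mono.le_iff_le mt m1]
    have e1 : lgL ((1 + ecr N.t1n) / 2) - serc N.t1n - rgc N.t1n / 2 ≤ gc N.t1n := by
      unfold gc
      have := (lg_bd oC.t1l oC.t1u).1
      linarith
    linarith [oC.t1, h.eDu, hb.avU, hb.X2b]

end PGn

end
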