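import Pool.Agent.PGc.Rig1
import Pool.Agent.PGm.M01
import Pool.Agent.PGm.M18
import Pool.Agent.PGm.M32
import Pool.Agent.PGm.M34

section
/-! # Module QkB: the generating functions of rigid maps with a rotation are finite -/

set_option linter.unusedSectionVars false

namespace PGr
open Equiv Finset
open scoped ENNReal Classical

/-- In a rigid map with a rotation `σ` of order `k ≥ 2` about the root vertex there are at least `k` vertices which are not fixed: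
the ends of the darts `σ ^ i` of the root dart; they are different because the graph is simple (`Rg3.simple`). -/
theorem rot_orbit {k : ℕ} (hk : 2 ≤ k) (c : GC) (hR : Rigid c.rep.1) (hd : k ∣ c.rep.1.dg)
    {σ : Perm c.rep.1.T}
    (h : SymM c.rep.1 true σ ((c.rep.1.s ^ (c.rep.1.dg / k)) (Sum.inr true))) :
    k ≤ nV c.rep.1.s - 1 - fixV c.rep.1 σ (fun t => t = Sum.inr true) := by
  have hg : Good c.rep.1.aa c.rep.1.s := c.rep.2
  have hR3 := (rigid_iff c.rep.1).1 hR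
  have hdp : 0 < c.rep.1.dg := dg_pos c
  set j := c.rep.1.dg / k with hj
  have hkj : k * j = c.rep.1.dg := Nat.mul_div_cancel' hd
  have hj0 : 0 < j := by
    rcases Nat.eq_zero_or_pos j with h0 | h0
    · rw [h0] at hkj; omega
    · exact h0
  set r : c.rep.1.T := Sum.inr true with hr
  have hsc : ∀ n : ℕ, c.rep.1.s.SameCycle r ((c.rep.1.s ^ n) r) := fun n => ⟨n, by simp⟩
  -- two darts at the root vertex with the same other end are equal
  have hsimp : ∀ m n : ℕ, c.rep.1.s.SameCycle (c.rep.1.aa ((c.rep.1.s ^ m) r))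
      (c.rep.1.aa ((c.rep.1.s ^ n) r)) → m ≡ n [MOD c.rep.1.dg] := by
    intro m n hmn
    have h1 := Rg3.simple hg hR3 ((hsc m).symm.trans (hsc n)) hmn
    exact (RotSum_eq_iff c m n).1 h1
  let v : Fin k → c.rep.1.Vx := fun i => c.rep.1.vx (c.rep.1.aa ((c.rep.1.s ^ (i.1 * j)) r))
  have hvinj : Function.Injective v := by
    intro i i' hi
    have h1 := hsimp _ _ ((MapShift_vx _ _ _).1 hi)
    have h2 : i.1 * j < c.rep.1.dg := by
      rw [← hkj]; exact Nat.mul_lt_mul_of_pos_right i.2 hj0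
    have h3 : i'.1 * j < c.rep.1.dg := by
      rw [← hkj]; exact Nat.mul_lt_mul_of_pos_right i'.2 hj0
    have h4 := Nat.ModEq.eq_of_lt_of_lt h1 h2 h3
    exact Fin.ext (Nat.eq_of_mul_eq_mul_right hj0 h4)
  have hvr : ∀ i, v i ≠ c.rep.1.vx r := by
    intro i hi
    have h1 := (MapShift_vx _ _ _).1 hi
    exact hg.noLoop _ ((h1.trans (hsc (i.1 * j))).symm)
  let A := {q : c.rep.1.Vx // (∀ t, t = (Sum.inr true : c.rep.1.T) → q ≠ c.rep.1.vx t) ∧
    ∀ t, c.rep.1.vx t = q → c.rep.1.vx (σ t) = q}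
  have hvA : ∀ (i : Fin k) (q : A), v i ≠ q.1 := by
    intro i q hi
    have h1 := q.2.2 _ hi
    have e1 : σ (c.rep.1.aa ((c.rep.1.s ^ (i.1 * j)) r)) =
        c.rep.1.aa ((c.rep.1.s ^ (i.1 * j + j)) r) := by
      rw [h.a, RotSum_comm h, h.root, pow_add, Perm.mul_apply]
    rw [e1, ← hi] at h1
    have h2 := hsimp _ _ ((MapShift_vx _ _ _).1 h1)
    have h3 : j ≡ 0 [MOD c.rep.1.dg] := by
      have h4 : i.1 * j + j ≡ i.1 * j + 0 [MOD c.rep.1.dg] := h2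
      exact Nat.ModEq.add_left_cancel' _ h4
    have h5 := (Nat.modEq_zero_iff_dvd).1 h3
    have h6 := Nat.le_of_dvd hj0 h5
    rw [← hkj] at h6
    nlinarith
  let G : Option (A ⊕ Fin k) → c.rep.1.Vx := fun z => match z with
    | none => c.rep.1.vx r
    | some (Sum.inl q) => q.1
    | some (Sum.inr i) => v i
  have hG : Function.Injective G := by
    rintro (_ | q | i) (_ | q' | i') hz
    · rfl
    · exact absurd hz.symm (q'.2.1 _ rfl)
    · exact absurd hz.symm (hvr i')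
    · exact absurd hz (q.2.1 _ rfl)
    · have h1 : q.1 = q'.1 := hz
      rw [Subtype.ext h1]
    · exact absurd hz.symm (hvA i' q)
    · exact absurd hz (hvr i)
    · exact absurd hz (hvA i q')
    · have h1 : v i = v i' := hz
      rw [hvinj h1]
  have hfin : Finite c.rep.1.Vx :=
    inferInstanceAs (Finite (Quotient (Perm.SameCycle.setoid c.rep.1.s)))
  have hfA : Finite A := Subtype.finite
  have h1 := Nat.card_le_card_of_injective G hG
  rw [Finite.card_option, Nat.card_sum, Nat.card_fin] at h1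
  have h2 : Nat.card A = fixV c.rep.1 σ (fun t => t = r) := rfl
  have h3 : Nat.card c.rep.1.Vx = nV c.rep.1.s := rfl
  omega

/-- the weight of one rotation -/
theorem QkB_term {k : ℕ} (hk : 2 ≤ k) (c : GC) (hR : Rigid c.rep.1) (hd : k ∣ c.rep.1.dg)
    {σ : Perm c.rep.1.T}
    (h : SymM c.rep.1 true σ ((c.rep.1.s ^ (c.rep.1.dg / k)) (Sum.inr true)))
    {kv s ke E κ : ℝ≥0∞} (hκ : κ * 400 = 1) (hκ1 : κ ≤ 1) (h1 : kv ≤ κ) (h2 : s ≤ κ ^ k)
    (h3 : ke ≤ 3) (h4 : E ≤ 3) :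
    rotW c.rep.1 σ k kv s ke E * (k : ℝ≥0∞) / (c.rep.1.dg : ℝ≥0∞) ≤
      (s * 160000 ^ (k - 1) * 3) * (κ ^ (nV c.rep.1.s - 2) *
        3 ^ (Fintype.card c.rep.1.D / 2)) := by
  have hdp : 0 < c.rep.1.dg := dg_pos c
  have hkd : k ≤ c.rep.1.dg := Nat.le_of_dvd hdp hd
  have e1 : rotW c.rep.1 σ k kv s ke E * (k : ℝ≥0∞) / (c.rep.1.dg : ℝ≥0∞) ≤
      rotW c.rep.1 σ k kv s ke E := by
    rw [mul_div_assoc]
    refine mul_le_of_le_one_right zero_le ?_
    exact ENNReal.div_le_of_le_mul (by rw [one_mul]; exact_mod_cast hkd)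
  refine e1.trans ?_
  have hm := rot_orbit hk c hR hd h
  unfold rotW
  set f := fixV c.rep.1 σ (fun t => t = Sum.inr true) with hf
  set n := nV c.rep.1.s with hn
  set rv := revD c.rep.1 σ (fun _ => True) with hrv
  obtain ⟨m, hmd⟩ : ∃ m, m = (n - 1 - f) / k := ⟨_, rfl⟩
  rw [← hmd]
  have hk0 : 0 < k := by omega
  have hm1 : 1 ≤ m := by
    rw [hmd, Nat.one_le_div_iff hk0]
    exact hm
  have hmod := Nat.div_add_mod (n - 1 - f) k
  have hmodlt := Nat.mod_lt (n - 1 - f) hk0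
  rw [← hmd] at hmod
  obtain ⟨m', rfl⟩ : ∃ m', m = m' + 1 := ⟨m - 1, by omega⟩
  have hcardT : Fintype.card c.rep.1.T = Fintype.card c.rep.1.D + 2 := by
    rw [Fintype.card_sum, Fintype.card_bool]
  have hrvle : rv ≤ Fintype.card c.rep.1.T := by
    rw [hrv]
    unfold revD
    rw [← Nat.card_eq_fintype_card]
    exact Nat.card_le_card_of_injective (fun x => x.1) Subtype.val_injective
  have a1 : kv ^ f * s ^ (m' + 1) ≤ s * κ ^ (f + k * m') := by
    calc kv ^ f * s ^ (m' + 1) ≤ κ ^ f * (s * (κ ^ k) ^ m') := by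
          rw [pow_succ' s m']
          gcongr
      _ = s * κ ^ (f + k * m') := by
          rw [← pow_mul, pow_add]
          ring
  have a2 : κ ^ (f + k * m') ≤ κ ^ (n - 2) * 160000 ^ (k - 1) := by
    have b1 : (160000 : ℝ≥0∞) = 400 ^ 2 := by norm_num
    have b2 : κ ^ (f + k * m') = κ ^ (f + k * m' + 2 * (k - 1)) * (400 ^ 2) ^ (k - 1) := by
      rw [← pow_mul, pow_add κ (f + k * m'), mul_assoc, ← mul_pow, hκ, one_pow, mul_one]
    rw [b2, b1]
    refine mul_le_mul_left ?_ _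
    refine pow_le_pow_of_le_one zero_le hκ1 ?_
    have b3 : k * (m' + 1) = k * m' + k := by ring
    rw [b3] at hmod
    omega
  have a3 : ke ^ (rv / 2) * E ^ ((Fintype.card c.rep.1.T - rv) / (2 * k)) ≤
      3 * 3 ^ (Fintype.card c.rep.1.D / 2) := by
    calc ke ^ (rv / 2) * E ^ ((Fintype.card c.rep.1.T - rv) / (2 * k)) ≤
        3 ^ (rv / 2) * 3 ^ ((Fintype.card c.rep.1.T - rv) / (2 * k)) := by gcongr
      _ = 3 ^ (rv / 2 + (Fintype.card c.rep.1.T - rv) / (2 * k)) := by rw [pow_add]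
      _ ≤ 3 ^ (Fintype.card c.rep.1.D / 2 + 1) := by
          refine pow_le_pow_right₀ (by norm_num) ?_
          have b1 : (Fintype.card c.rep.1.T - rv) / (2 * k) ≤
              (Fintype.card c.rep.1.T - rv) / 2 :=
            Nat.div_le_div_left (by omega) (by norm_num)
          omega
      _ = 3 * 3 ^ (Fintype.card c.rep.1.D / 2) := by rw [pow_succ]; ring
  calc kv ^ f * s ^ (m' + 1) * ke ^ (rv / 2) * E ^ ((Fintype.card c.rep.1.T - rv) / (2 * k))
      = (kv ^ f * s ^ (m' + 1)) * (ke ^ (rv / 2) *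
        E ^ ((Fintype.card c.rep.1.T - rv) / (2 * k))) := by ring
    _ ≤ (s * (κ ^ (n - 2) * 160000 ^ (k - 1))) * (3 * 3 ^ (Fintype.card c.rep.1.D / 2)) := by
        refine mul_le_mul' (a1.trans ?_) a3
        exact mul_le_mul_right a2 _
    _ = (s * 160000 ^ (k - 1) * 3) * (κ ^ (n - 2) * 3 ^ (Fintype.card c.rep.1.D / 2)) := by ring

theorem QkB_main {k : ℕ} (hk : 2 ≤ k) {kv s ke E κ : ℝ≥0∞} (hκ : κ * 400 = 1) (hκ1 : κ ≤ 1)
    (h1 : kv ≤ κ) (h2 : s ≤ κ ^ k) (h3 : ke ≤ 3) (h4 : E ≤ 3) :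
    Qk k kv s ke E ≤ (s * 160000 ^ (k - 1) * 3) * Rg κ 3 := by
  unfold Qk Rg
  rw [← ENNReal.tsum_mul_left]
  refine ENNReal.tsum_le_tsum fun c => ?_
  by_cases hR : Rigid c.rep.1
  · rw [if_pos hR]
    by_cases hex : ∃ σ, k ∣ c.rep.1.dg ∧
        SymM c.rep.1 true σ ((c.rep.1.s ^ (c.rep.1.dg / k)) (Sum.inr true))
    · obtain ⟨σ, hd, hσ⟩ := hex
      rw [Finset.sum_eq_single σ]
      · rw [if_pos ⟨hR, hd, hσ⟩]
        exact QkB_term hk c hR hd hσ hκ hκ1 h1 h2 h3 h4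
      · intro τ _ hτ
        rw [if_neg]
        rintro ⟨-, -, h⟩
        exact hτ (SymM.unique c.rep.2 h hσ)
      · intro h
        exact absurd (mem_univ _) h
    · rw [Finset.sum_eq_zero]
      · exact zero_le
      · intro σ _
        rw [if_neg]
        rintro ⟨-, hd, h⟩
        exact hex ⟨σ, hd, h⟩
  · rw [if_neg hR, mul_zero, Finset.sum_eq_zero]
    intro σ _
    rw [if_neg fun h => hR h.1]

/-- every monomial of `Qk` contains `s` (`rot_orbit`); for `kv ≤ κ`, `ke ≤ δ`, `E ≤ δ ^ k`, `s ≤ κ ^ k`: the weight is at most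
`(s / κ ^ k) * κ ^ (V - k) * δ ^ (card T / 2)` (for `s = κ ^ k` the vertices contribute at most `κ ^ (V - k)`, because
`a + k * ((V - 1 - a) / k) ≥ V - k`), and `k / dg ≤ 1`.  So `Qk ≤ (s / κ ^ k) * κ ^ (2 - k) * δ * Rg κ δ`. -/
theorem Qk_bound : ∃ C : ℝ, 0 ≤ C ∧ ∀ (k : ℕ) (kv s ke E : ℝ), 2 ≤ k → 0 ≤ kv → kv ≤ 1 / 400 →
    0 ≤ s → s ≤ (1 / 400) ^ k → 0 ≤ ke → ke ≤ 3 → 0 ≤ E → E ≤ 3 →
    Qk k (ENNReal.ofReal kv) (ENNReal.ofReal s) (ENNReal.ofReal ke) (ENNReal.ofReal E) ≠ ⊤ ∧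
    rQk k kv s ke E ≤ C * s * 160000 ^ k := by
  have hfin := Rg_fin
  set κ := ENNReal.ofReal (1 / 400) with hκd
  have h3 : ENNReal.ofReal 3 = 3 := by norm_num
  rw [h3] at hfin
  have hκ : κ * 400 = 1 := by
    have : (400 : ℝ≥0∞) = ENNReal.ofReal 400 := by norm_num
    rw [hκd, this, ← ENNReal.ofReal_mul (by norm_num)]
    norm_num
  have hκ1 : κ ≤ 1 := by
    rw [hκd]
    exact ENNReal.ofReal_le_one.2 (by norm_num)
  refine ⟨3 * (Rg κ 3).toReal, by positivity, fun k kv s ke E hk kv0 kv1 s0 s1 ke0 ke1 E0 E1 => ?_⟩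
  have hb := QkB_main hk hκ hκ1 (ENNReal.ofReal_le_ofReal kv1) (s := ENNReal.ofReal s)
    (by rw [hκd, ← ENNReal.ofReal_pow (by norm_num)]; exact ENNReal.ofReal_le_ofReal s1)
    (ke := ENNReal.ofReal ke) (by rw [← h3]; exact ENNReal.ofReal_le_ofReal ke1)
    (E := ENNReal.ofReal E) (by rw [← h3]; exact ENNReal.ofReal_le_ofReal E1)
  have hne : (ENNReal.ofReal s * 160000 ^ (k - 1) * 3) * Rg κ 3 ≠ ⊤ := by
    refine ENNReal.mul_ne_top (ENNReal.mul_ne_top (ENNReal.mul_ne_top ENNReal.ofReal_ne_top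
      (ENNReal.pow_ne_top (by norm_num))) (by norm_num)) hfin
  refine ⟨ne_top_of_le_ne_top hne hb, ?_⟩
  unfold rQk
  refine (ENNReal.toReal_mono hne hb).trans ?_
  rw [ENNReal.toReal_mul, ENNReal.toReal_mul, ENNReal.toReal_mul, ENNReal.toReal_ofReal s0,
    ENNReal.toReal_pow]
  have e1 : (160000 : ℝ≥0∞).toReal = 160000 := by norm_num
  have e2 : (3 : ℝ≥0∞).toReal = 3 := by norm_num
  rw [e1, e2]
  have e3 : (160000 : ℝ) ^ (k - 1) ≤ 160000 ^ k := pow_le_pow_right₀ (by norm_num) (by omega)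
  have e4 : 0 ≤ (Rg κ 3).toReal := ENNReal.toReal_nonneg
  calc s * 160000 ^ (k - 1) * 3 * (Rg κ 3).toReal = (3 * (Rg κ 3).toReal * s) *
        160000 ^ (k - 1) := by ring
    _ ≤ (3 * (Rg κ 3).toReal * s) * 160000 ^ k := by gcongr

end PGr

end

section
/-! # Lipschitz estimates near the point `(0, 0, 1, 1, 1)` (definitions) -/

set_option linter.unusedSectionVars false

namespace PGr
open Equiv Finset
open scoped ENNReal Classical

/-- the box -/
structure Bx (k k2 d s d2 : ℝ) : Prop where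
  k : 0 ≤ k ∧ k ≤ 1 / 800
  k2 : 0 ≤ k2 ∧ k2 ≤ 1 / 320000
  d : 0 ≤ d ∧ d ≤ 3 / 2
  s : 0 ≤ s ∧ s ≤ 3 / 2
  d2 : 0 ≤ d2 ∧ d2 ≤ 3 / 2

/-- the estimate: `f` is bounded by `C (k + k2)`, and its difference by the differences of `k`, `k2`, and `k + k2` times the other
differences -/
def LipK (f : ℝ → ℝ → ℝ → ℝ → ℝ → ℝ) : Prop := ∃ C : ℝ, 0 ≤ C ∧
  (∀ k k2 d s d2, Bx k k2 d s d2 → |f k k2 d s d2| ≤ C * (k + k2)) ∧
  ∀ k k2 d s d2 k' k2' d' s' d2', Bx k k2 d s d2 → Bx k' k2' d' s' d2' →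
    |f k k2 d s d2 - f k' k2' d' s' d2'| ≤ C * (|k - k'| + |k2 - k2'|) +
      C * (k + k' + k2 + k2') * (|d - d'| + |s - s'| + |d2 - d2'|)

end PGr

end

section
/-! # Module LipAv: Lipschitz estimates for `rAv`, `rAh`, `rApi`, `rAc` -/

set_option linter.unusedSectionVars false

namespace PGr
open Equiv Finset
open scoped ENNReal Classical

private theorem LipAv_gen (Q : ∀ c : GC, Perm c.rep.1.T → Prop)
    [hdec : ∀ c σ, Decidable (Q c σ)]
    (e : ∀ c : GC, Perm c.rep.1.T → Fin 5 → ℕ)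
    (hP : ∀ c σ, Q c σ → 1 ≤ e c σ 0 ∨ 1 ≤ e c σ 1)
    (hfin : (∑' c : GC, ∑ σ : Perm c.rep.1.T,
      if Q c σ then ENNReal.ofReal (1 / 400) ^ e c σ 0 * ENNReal.ofReal (1 / 160000) ^ e c σ 1 *
        ENNReal.ofReal 3 ^ e c σ 2 * ENNReal.ofReal 3 ^ e c σ 3 * ENNReal.ofReal 3 ^ e c σ 4
      else 0) ≠ ⊤) :
    LipK (fun k k2 d s d2 => (∑' c : GC, ∑ σ : Perm c.rep.1.T,
      if Q c σ then ENNReal.ofReal k ^ e c σ 0 * ENNReal.ofReal k2 ^ e c σ 1 *
        ENNReal.ofReal d ^ e c σ 2 * ENNReal.ofReal s ^ e c σ 3 * ENNReal.ofReal d2 ^ e c σ 4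
      else 0).toReal) := by
  let ι := Σ c : GC, Perm c.rep.1.T
  let cc : ι → ℝ≥0∞ := fun i => if Q i.1 i.2 then 1 else 0
  let ee : ι → Fin 5 → ℕ := fun i => e i.1 i.2
  have hms : ∀ z : Fin 5 → ℝ, msum cc ee (fun j => ENNReal.ofReal (z j)) =
      ∑' c : GC, ∑ σ : Perm c.rep.1.T,
        if Q c σ then ENNReal.ofReal (z 0) ^ e c σ 0 * ENNReal.ofReal (z 1) ^ e c σ 1 *
          ENNReal.ofReal (z 2) ^ e c σ 2 * ENNReal.ofReal (z 3) ^ e c σ 3 *
          ENNReal.ofReal (z 4) ^ e c σ 4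
        else 0 := by
    intro z
    unfold msum
    rw [ENNReal.tsum_sigma']
    refine tsum_congr fun c => ?_
    rw [tsum_fintype]
    refine Finset.sum_congr rfl fun σ _ => ?_
    simp only [cc, ee, Fin.prod_univ_five]
    split_ifs <;> simp
  let P : Fin 5 → Prop := fun j => j = 0 ∨ j = 1
  let R : Fin 5 → ℝ := ![1 / 400, 1 / 160000, 3, 3, 3]
  have hR : ∀ j, 0 < R j := by
    intro j
    fin_cases j <;> norm_num [R]
  have hPP : ∀ i, cc i ≠ 0 → ∃ j, P j ∧ 1 ≤ ee i j := by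
    intro i hi
    have hQ : Q i.1 i.2 := by
      by_contra h
      exact hi (by simp [cc, h])
    rcases hP i.1 i.2 hQ with h | h
    · exact ⟨0, Or.inl rfl, h⟩
    · exact ⟨1, Or.inr rfl, h⟩
  have hf : msum cc ee (fun j => ENNReal.ofReal (R j)) ≠ ⊤ := by
    rw [hms]
    exact hfin
  obtain ⟨C₁, hC₁, h₁⟩ := msum_bound cc ee P hPP R hR hf
  obtain ⟨C₂, hC₂, h₂⟩ := msum_lip cc ee P hPP R hR hf
  have hbox : ∀ k k2 d s d2, Bx k k2 d s d2 → ∀ j : Fin 5,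
      0 ≤ (![k, k2, d, s, d2] : Fin 5 → ℝ) j ∧ (![k, k2, d, s, d2] : Fin 5 → ℝ) j ≤ R j / 2 := by
    intro k k2 d s d2 hB j
    have hk := hB.k
    have hk2 := hB.k2
    have hd := hB.d
    have hs := hB.s
    have hd2 := hB.d2
    fin_cases j
    · exact ⟨hk.1, hk.2.trans (by norm_num [R])⟩
    · exact ⟨hk2.1, hk2.2.trans (by norm_num [R])⟩
    · exact ⟨hd.1, hd.2⟩
    · exact ⟨hs.1, hs.2⟩
    · exact ⟨hd2.1, hd2.2⟩
  have hms' : ∀ k k2 d s d2 : ℝ, (∑' c : GC, ∑ σ : Perm c.rep.1.T,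
      if Q c σ then ENNReal.ofReal k ^ e c σ 0 * ENNReal.ofReal k2 ^ e c σ 1 *
        ENNReal.ofReal d ^ e c σ 2 * ENNReal.ofReal s ^ e c σ 3 * ENNReal.ofReal d2 ^ e c σ 4
      else 0) = msum cc ee
        (fun j => ENNReal.ofReal ((![k, k2, d, s, d2] : Fin 5 → ℝ) j)) := by
    intro k k2 d s d2
    rw [hms]
    rfl
  refine ⟨C₁ + 2 * C₂, by positivity, ?_, ?_⟩
  · intro k k2 d s d2 hB
    have h := (h₁ _ (hbox k k2 d s d2 hB)).2
    simp only [hms']
    rw [abs_of_nonneg ENNReal.toReal_nonneg]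
    refine h.trans ?_
    have hs : (∑ j : Fin 5, if P j then (![k, k2, d, s, d2] : Fin 5 → ℝ) j else 0) = k + k2 := by
      simp [Fin.sum_univ_five, P]
    rw [hs]
    have hk := hB.k.1
    have hk2 := hB.k2.1
    nlinarith [mul_nonneg hC₂ (add_nonneg hk hk2)]
  · intro k k2 d s d2 k' k2' d' s' d2' hB hB'
    have h := h₂ _ _ (hbox k k2 d s d2 hB) (hbox k' k2' d' s' d2' hB')
    simp only [hms']
    refine h.trans ?_
    have hs1 : (∑ j : Fin 5, if P j then |(![k, k2, d, s, d2] : Fin 5 → ℝ) j -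
        (![k', k2', d', s', d2'] : Fin 5 → ℝ) j| else 0) = |k - k'| + |k2 - k2'| := by
      simp [Fin.sum_univ_five, P]
    have hs2 : (∑ j : Fin 5, if P j then (![k, k2, d, s, d2] : Fin 5 → ℝ) j +
        (![k', k2', d', s', d2'] : Fin 5 → ℝ) j else 0) = k + k' + k2 + k2' := by
      simp [Fin.sum_univ_five, P]
      ring
    have hs3 : (∑ j : Fin 5, |(![k, k2, d, s, d2] : Fin 5 → ℝ) j -
        (![k', k2', d', s', d2'] : Fin 5 → ℝ) j|) =
        |k - k'| + |k2 - k2'| + (|d - d'| + |s - s'| + |d2 - d2'|) := by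
      simp [Fin.sum_univ_five]
      ring
    rw [hs1, hs2, hs3]
    have hk := hB.k
    have hk2 := hB.k2
    have hk' := hB'.k
    have hk2' := hB'.k2
    have hK : 0 ≤ |k - k'| + |k2 - k2'| := add_nonneg (abs_nonneg _) (abs_nonneg _)
    have hD : 0 ≤ |d - d'| + |s - s'| + |d2 - d2'| := by positivity
    set KK := |k - k'| + |k2 - k2'| with hKK
    set DD := |d - d'| + |s - s'| + |d2 - d2'| with hDD
    have hS0 : 0 ≤ k + k' + k2 + k2' := by linarith [hk.1, hk2.1, hk'.1, hk2'.1]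
    have hS1 : k + k' + k2 + k2' ≤ 1 := by
      have := hk.2; have := hk2.2; have := hk'.2; have := hk2'.2
      norm_num at *
      linarith
    set SS := k + k' + k2 + k2' with hSS
    have e1 : C₂ * SS * KK ≤ C₂ * KK := by
      have : C₂ * KK * SS ≤ C₂ * KK * 1 := mul_le_mul_of_nonneg_left hS1 (mul_nonneg hC₂ hK)
      nlinarith
    have e2 : 0 ≤ C₁ * KK := mul_nonneg hC₁ hK
    have e3 : 0 ≤ (C₁ + C₂) * SS * DD := by positivity
    nlinarith

/-- `msum_bound`, `msum_lip` with `P` = the variables `k1`, `k2`; the sum over pairs (class, permutation) has monomials with the exponents of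
`symW`; they contain `k1` or `k2` because there are at least two internal vertices (`rigid_nV`) -/
theorem rAv_lip : LipK rAv := by
  refine LipAv_gen (fun c σ => Rigid c.rep.1 ∧ SymM c.rep.1 false σ (Sum.inr true))
    (fun c σ => ![fixV c.rep.1 σ (fun t => ∃ b, t = Sum.inr b),
      (nV c.rep.1.s - 2 - fixV c.rep.1 σ (fun t => ∃ b, t = Sum.inr b)) / 2,
      fixD c.rep.1 σ (fun t => ∃ d, t = Sum.inl d) / 2,
      revD c.rep.1 σ (fun t => ∃ d, t = Sum.inl d) / 2,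
      (Fintype.card c.rep.1.D - fixD c.rep.1 σ (fun t => ∃ d, t = Sum.inl d) -
        revD c.rep.1 σ (fun t => ∃ d, t = Sum.inl d)) / 4]) ?_ Av_fin
  intro c σ h
  have h4 := rigid_nV h.1
  simp only [Matrix.cons_val_zero, Matrix.cons_val_one]
  omega

theorem rAh_lip : LipK rAh := by
  refine LipAv_gen (fun c σ => Rigid c.rep.1 ∧ SymM c.rep.1 false σ (Sum.inr false))
    (fun c σ => ![fixV c.rep.1 σ (fun t => ∃ b, t = Sum.inr b),
      (nV c.rep.1.s - 2 - fixV c.rep.1 σ (fun t => ∃ b, t = Sum.inr b)) / 2,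
      fixD c.rep.1 σ (fun t => ∃ d, t = Sum.inl d) / 2,
      revD c.rep.1 σ (fun t => ∃ d, t = Sum.inl d) / 2,
      (Fintype.card c.rep.1.D - fixD c.rep.1 σ (fun t => ∃ d, t = Sum.inl d) -
        revD c.rep.1 σ (fun t => ∃ d, t = Sum.inl d)) / 4]) ?_ Ah_fin
  intro c σ h
  have h4 := rigid_nV h.1
  simp only [Matrix.cons_val_zero, Matrix.cons_val_one]
  omega

theorem rApi_lip : LipK rApi := by
  refine LipAv_gen (fun c σ => Rigid c.rep.1 ∧ SymM c.rep.1 true σ (Sum.inr false))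
    (fun c σ => ![fixV c.rep.1 σ (fun t => ∃ b, t = Sum.inr b),
      (nV c.rep.1.s - 2 - fixV c.rep.1 σ (fun t => ∃ b, t = Sum.inr b)) / 2,
      fixD c.rep.1 σ (fun t => ∃ d, t = Sum.inl d) / 2,
      revD c.rep.1 σ (fun t => ∃ d, t = Sum.inl d) / 2,
      (Fintype.card c.rep.1.D - fixD c.rep.1 σ (fun t => ∃ d, t = Sum.inl d) -
        revD c.rep.1 σ (fun t => ∃ d, t = Sum.inl d)) / 4]) ?_ Api_fin
  intro c σ h
  have h4 := rigid_nV h.1
  simp only [Matrix.cons_val_zero, Matrix.cons_val_one]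
  omega

theorem rAc_lip : LipK rAc := by
  refine LipAv_gen
    (fun c σ => Rigid c.rep.1 ∧ SymM c.rep.1 false σ (c.rep.1.s (Sum.inr true)))
    (fun c σ => ![fixV c.rep.1 σ (fun t => t = Sum.inr true),
      (nV c.rep.1.s - 1 - fixV c.rep.1 σ (fun t => t = Sum.inr true)) / 2,
      fixD c.rep.1 σ (fun _ => True) / 2,
      revD c.rep.1 σ (fun _ => True) / 2,
      (Fintype.card c.rep.1.T - fixD c.rep.1 σ (fun _ => True) -
        revD c.rep.1 σ (fun _ => True)) / 4]) ?_ Ac_fin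
  intro c σ h
  have h4 := rigid_nV h.1
  simp only [Matrix.cons_val_zero, Matrix.cons_val_one]
  omega

end PGr

end

section
/-! # Module LipQ: Lipschitz estimates for `rRg`, `rQ1`, `rQk` -/

set_option linter.unusedSectionVars false

namespace PGr
open Equiv Finset
open scoped ENNReal Classical

/-- a sum of monomials in two variables, all with the first variable -/
private theorem LipQ_two {ι : Type*} (c : ι → ℝ≥0∞) (e0 e1 : ι → ℕ)
    (hP : ∀ i, c i ≠ 0 → 1 ≤ e0 i) (F : ℝ → ℝ → ℝ)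
    (hF : ∀ k d : ℝ, F k d = (∑' i, c i * (ENNReal.ofReal k ^ e0 i * ENNReal.ofReal d ^ e1 i)).toReal)
    (hfin : (∑' i, c i * (ENNReal.ofReal (1 / 400) ^ e0 i * ENNReal.ofReal 3 ^ e1 i)) ≠ ⊤) :
    LipK fun k _ d _ _ => F k d := by
  let e : ι → Fin 2 → ℕ := fun i => ![e0 i, e1 i]
  have hms : ∀ k d : ℝ, msum c e (fun j => ENNReal.ofReal ((![k, d] : Fin 2 → ℝ) j)) =
      ∑' i, c i * (ENNReal.ofReal k ^ e0 i * ENNReal.ofReal d ^ e1 i) := by
    intro k d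
    rw [msum]
    refine tsum_congr fun i => ?_
    rw [Fin.prod_univ_two]
    rfl
  have hP' : ∀ i, c i ≠ 0 → ∃ j : Fin 2, j = 0 ∧ 1 ≤ e i j := fun i hi => ⟨0, rfl, hP i hi⟩
  have hR : ∀ j : Fin 2, 0 < (![1 / 400, 3] : Fin 2 → ℝ) j := by
    intro j
    fin_cases j
    · show (0 : ℝ) < 1 / 400
      norm_num
    · show (0 : ℝ) < 3
      norm_num
  have hfin' : msum c e (fun j => ENNReal.ofReal ((![1 / 400, 3] : Fin 2 → ℝ) j)) ≠ ⊤ := by
    rw [hms]
    exact hfin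
  obtain ⟨C1, hC1, hb⟩ := msum_bound c e (fun j => j = 0) hP' _ hR hfin'
  obtain ⟨C2, hC2, hl⟩ := msum_lip c e (fun j => j = 0) hP' _ hR hfin'
  have hbox : ∀ k d : ℝ, 0 ≤ k → k ≤ 1 / 800 → 0 ≤ d → d ≤ 3 / 2 → ∀ j : Fin 2,
      0 ≤ (![k, d] : Fin 2 → ℝ) j ∧ (![k, d] : Fin 2 → ℝ) j ≤ (![1 / 400, 3] : Fin 2 → ℝ) j / 2 := by
    intro k d h1 h2 h3 h4 j
    fin_cases j
    · show 0 ≤ k ∧ k ≤ 1 / 400 / 2
      constructor <;> linarith
    · show 0 ≤ d ∧ d ≤ 3 / 2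
      exact ⟨h3, h4⟩
  refine ⟨C1 + 2 * C2, by positivity, ?_, ?_⟩
  · intro k k2 d s d2 hB
    have h1 := (hb _ (hbox k d hB.k.1 hB.k.2 hB.d.1 hB.d.2)).2
    rw [hms, ← hF, Fin.sum_univ_two] at h1
    simp only [if_true, Fin.isValue, one_ne_zero, if_false, add_zero] at h1
    have h2 : 0 ≤ F k d := by rw [hF]; exact ENNReal.toReal_nonneg
    show |F k d| ≤ _
    rw [abs_of_nonneg h2]
    have h3 : (![k, d] : Fin 2 → ℝ) 0 = k := rfl
    rw [h3] at h1
    have h4 := hB.k.1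
    have h5 := hB.k2.1
    nlinarith
  · intro k k2 d s d2 k' k2' d' s' d2' hB hB'
    have h1 := hl _ _ (hbox k d hB.k.1 hB.k.2 hB.d.1 hB.d.2)
      (hbox k' d' hB'.k.1 hB'.k.2 hB'.d.1 hB'.d.2)
    rw [hms, hms, ← hF, ← hF, Fin.sum_univ_two, Fin.sum_univ_two, Fin.sum_univ_two] at h1
    simp only [if_true, Fin.isValue, one_ne_zero, if_false, add_zero] at h1
    have e1 : (![k, d] : Fin 2 → ℝ) 0 = k := rfl
    have e2 : (![k', d'] : Fin 2 → ℝ) 0 = k' := rfl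
    have e3 : (![k, d] : Fin 2 → ℝ) 1 = d := rfl
    have e4 : (![k', d'] : Fin 2 → ℝ) 1 = d' := rfl
    rw [e1, e2, e3, e4] at h1
    show |F k d - F k' d'| ≤ _
    have a1 := hB.k.1
    have a2 := hB.k.2
    have a3 := hB'.k.1
    have a4 := hB'.k.2
    have a5 := hB.k2.1
    have a6 := hB'.k2.1
    have b1 := abs_nonneg (k - k')
    have b2 := abs_nonneg (k2 - k2')
    have b3 := abs_nonneg (d - d')
    have b4 := abs_nonneg (s - s')
    have b5 := abs_nonneg (d2 - d2')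
    generalize |k - k'| = x1 at *
    generalize |k2 - k2'| = x2 at *
    generalize |d - d'| = x3 at *
    generalize |s - s'| = x4 at *
    generalize |d2 - d2'| = x5 at *
    have c1 : C2 * (k + k') * (x1 + x3) ≤ C2 * x1 + C2 * (k + k') * x3 := by
      have : C2 * (k + k') * x1 ≤ C2 * 1 * x1 := by
        apply mul_le_mul_of_nonneg_right _ b1
        exact mul_le_mul_of_nonneg_left (by linarith) hC2
      nlinarith
    have c2 : C2 * (k + k') * x3 ≤ (C1 + 2 * C2) * (k + k' + k2 + k2') * (x3 + x4 + x5) := by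
      have u1 : C2 * (k + k') ≤ (C1 + 2 * C2) * (k + k' + k2 + k2') := by
        apply mul_le_mul (by linarith) (by linarith) (by linarith) (by positivity)
      exact mul_le_mul u1 (by linarith) b3 (by
        apply mul_nonneg (by positivity) (by linarith))
    have c3 : C2 * x1 + C2 * x1 ≤ (C1 + 2 * C2) * (x1 + x2) := by
      have u1 : 0 ≤ C1 * (x1 + x2) := mul_nonneg hC1 (by linarith)
      have u2 : 0 ≤ C2 * x2 := mul_nonneg hC2 b2
      nlinarith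
    linarith

theorem rRg_lip : LipK fun k _ d _ _ => rRg k d := by
  have hRg : ∀ s E : ℝ≥0∞, Rg s E = ∑' c : GC, (if Rigid c.rep.1 then 1 else 0) *
      (s ^ (nV c.rep.1.s - 2) * E ^ (Fintype.card c.rep.1.D / 2)) := by
    intro s E
    rw [Rg]
    refine tsum_congr fun c => ?_
    by_cases h : Rigid c.rep.1
    · rw [if_pos h, if_pos h, one_mul]
    · rw [if_neg h, if_neg h, zero_mul]
  refine LipQ_two (fun c : GC => if Rigid c.rep.1 then 1 else 0) (fun c => nV c.rep.1.s - 2)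
    (fun c => Fintype.card c.rep.1.D / 2) ?_ rRg ?_ ?_
  · intro c hc
    have h : Rigid c.rep.1 := by
      by_contra hn
      exact hc (if_neg hn)
    have := rigid_nV h
    show 1 ≤ nV c.rep.1.s - 2
    omega
  · intro k d
    rw [rRg, hRg]
  · rw [← hRg]
    exact Rg_fin

theorem rQ1_lip : LipK fun k _ d _ _ => rQ1 k d := by
  have hQ1 : ∀ s E : ℝ≥0∞, Q1 s E = ∑' c : GC,
      (if Rigid c.rep.1 then (c.rep.1.dg : ℝ≥0∞)⁻¹ else 0) *
      (s ^ (nV c.rep.1.s - 1) * E ^ (Fintype.card c.rep.1.T / 2)) := by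
    intro s E
    rw [Q1]
    refine tsum_congr fun c => ?_
    by_cases h : Rigid c.rep.1
    · rw [if_pos h, if_pos h, div_eq_mul_inv, mul_comm]
    · rw [if_neg h, if_neg h, zero_mul]
  refine LipQ_two (fun c : GC => if Rigid c.rep.1 then (c.rep.1.dg : ℝ≥0∞)⁻¹ else 0)
    (fun c => nV c.rep.1.s - 1) (fun c => Fintype.card c.rep.1.T / 2) ?_ rQ1 ?_ ?_
  · intro c hc
    have h : Rigid c.rep.1 := by
      by_contra hn
      exact hc (if_neg hn)
    have := rigid_nV h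
    show 1 ≤ nV c.rep.1.s - 1
    omega
  · intro k d
    rw [rQ1, hQ1]
  · rw [← hQ1]
    exact Q1_fin

/-- the same for `Qk` with fixed `k`; the box is smaller; every monomial contains `s` (`rot_orbit`) -/
theorem rQk_lip (k : ℕ) (hk : 2 ≤ k) : ∃ C r : ℝ, 0 ≤ C ∧ 0 < r ∧
    ∀ kv s ke E kv' s' ke' E' : ℝ, 0 ≤ kv → kv ≤ r → 0 ≤ s → s ≤ r → 0 ≤ ke → ke ≤ 3 / 2 → 0 ≤ E →
      E ≤ 3 / 2 → 0 ≤ kv' → kv' ≤ r → 0 ≤ s' → s' ≤ r → 0 ≤ ke' → ke' ≤ 3 / 2 → 0 ≤ E' →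
      E' ≤ 3 / 2 → |rQk k kv s ke E - rQk k kv' s' ke' E'| ≤
        C * |s - s'| + C * (s + s') * (|kv - kv'| + |ke - ke'| + |E - E'|) := by
  let ι := Σ c : GC, Perm c.rep.1.T
  let cond : ι → Prop := fun i => Rigid i.1.rep.1 ∧ k ∣ i.1.rep.1.dg ∧
        SymM i.1.rep.1 true i.2 ((i.1.rep.1.s ^ (i.1.rep.1.dg / k)) (Sum.inr true))
  let c : ι → ℝ≥0∞ := fun i => if cond i then (k : ℝ≥0∞) / (i.1.rep.1.dg : ℝ≥0∞) else 0
  let e : ι → Fin 4 → ℕ := fun i => ![fixV i.1.rep.1 i.2 (fun t => t = Sum.inr true),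
    (nV i.1.rep.1.s - 1 - fixV i.1.rep.1 i.2 (fun t => t = Sum.inr true)) / k,
    revD i.1.rep.1 i.2 (fun _ => True) / 2,
    (Fintype.card i.1.rep.1.T - revD i.1.rep.1 i.2 (fun _ => True)) / (2 * k)]
  have hms : ∀ kv s ke E : ℝ, msum c e (fun j => ENNReal.ofReal ((![kv, s, ke, E] : Fin 4 → ℝ) j)) =
      Qk k (ENNReal.ofReal kv) (ENNReal.ofReal s) (ENNReal.ofReal ke) (ENNReal.ofReal E) := by
    intro kv s ke E
    rw [msum, Qk]
    have h1 : ∀ i : ι, c i * ∏ j, ENNReal.ofReal ((![kv, s, ke, E] : Fin 4 → ℝ) j) ^ e i j =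
        if cond i then rotW i.1.rep.1 i.2 k (ENNReal.ofReal kv) (ENNReal.ofReal s)
          (ENNReal.ofReal ke) (ENNReal.ofReal E) * (k : ℝ≥0∞) / (i.1.rep.1.dg : ℝ≥0∞) else 0 := by
      intro i
      by_cases h : cond i
      · rw [if_pos h]
        show (if cond i then (k : ℝ≥0∞) / (i.1.rep.1.dg : ℝ≥0∞) else 0) * _ = _
        rw [if_pos h, Fin.prod_univ_four, rotW, mul_comm, mul_div_assoc]
        rfl
      · rw [if_neg h]
        show (if cond i then (k : ℝ≥0∞) / (i.1.rep.1.dg : ℝ≥0∞) else 0) * _ = _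
        rw [if_neg h, zero_mul]
    rw [tsum_congr h1]
    refine (ENNReal.tsum_sigma (fun (c : GC) (σ : Perm c.rep.1.T) =>
      if cond ⟨c, σ⟩ then rotW c.rep.1 σ k (ENNReal.ofReal kv) (ENNReal.ofReal s)
          (ENNReal.ofReal ke) (ENNReal.ofReal E) * (k : ℝ≥0∞) / (c.rep.1.dg : ℝ≥0∞) else 0)).trans ?_
    refine tsum_congr fun c => ?_
    rw [tsum_fintype]
  have hP' : ∀ i, c i ≠ 0 → ∃ j : Fin 4, j = 1 ∧ 1 ≤ e i j := by
    intro i hi
    refine ⟨1, rfl, ?_⟩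
    have h : cond i := by
      by_contra hn
      exact hi (if_neg hn)
    obtain ⟨h1, h2, h3⟩ := h
    have h4 := rot_orbit hk i.1 h1 h2 h3
    show 1 ≤ (nV i.1.rep.1.s - 1 - fixV i.1.rep.1 i.2 (fun t => t = Sum.inr true)) / k
    exact Nat.div_pos h4 (by omega)
  set R1 : ℝ := (1 / 400) ^ k with hR1
  have hR1pos : 0 < R1 := by positivity
  have hR1le : R1 ≤ 1 / 400 := by
    rw [hR1]
    calc ((1 : ℝ) / 400) ^ k ≤ (1 / 400) ^ 1 :=
          pow_le_pow_of_le_one (by norm_num) (by norm_num) (by omega)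
      _ = 1 / 400 := by norm_num
  have hR : ∀ j : Fin 4, 0 < (![1 / 400, R1, 3, 3] : Fin 4 → ℝ) j := by
    intro j
    fin_cases j
    · show (0 : ℝ) < 1 / 400
      norm_num
    · exact hR1pos
    · show (0 : ℝ) < 3
      norm_num
    · show (0 : ℝ) < 3
      norm_num
  obtain ⟨_, _, hbd⟩ := Qk_bound
  have hfin' : msum c e (fun j => ENNReal.ofReal ((![1 / 400, R1, 3, 3] : Fin 4 → ℝ) j)) ≠ ⊤ := by
    rw [hms]
    exact (hbd k (1 / 400) R1 3 3 hk (by norm_num) le_rfl hR1pos.le le_rfl (by norm_num) le_rfl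
      (by norm_num) le_rfl).1
  obtain ⟨C2, hC2, hl⟩ := msum_lip c e (fun j => j = 1) hP' _ hR hfin'
  have hbox : ∀ kv s ke E : ℝ, 0 ≤ kv → kv ≤ R1 / 2 → 0 ≤ s → s ≤ R1 / 2 → 0 ≤ ke → ke ≤ 3 / 2 →
      0 ≤ E → E ≤ 3 / 2 → ∀ j : Fin 4, 0 ≤ (![kv, s, ke, E] : Fin 4 → ℝ) j ∧
        (![kv, s, ke, E] : Fin 4 → ℝ) j ≤ (![1 / 400, R1, 3, 3] : Fin 4 → ℝ) j / 2 := by
    intro kv s ke E h1 h2 h3 h4 h5 h6 h7 h8 j
    fin_cases j
    · show 0 ≤ kv ∧ kv ≤ 1 / 400 / 2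
      constructor <;> linarith
    · show 0 ≤ s ∧ s ≤ R1 / 2
      exact ⟨h3, h4⟩
    · show 0 ≤ ke ∧ ke ≤ 3 / 2
      exact ⟨h5, h6⟩
    · show 0 ≤ E ∧ E ≤ 3 / 2
      exact ⟨h7, h8⟩
  refine ⟨2 * C2, R1 / 2, by positivity, by positivity, ?_⟩
  intro kv s ke E kv' s' ke' E' a1 a2 a3 a4 a5 a6 a7 a8 b1 b2 b3 b4 b5 b6 b7 b8
  have h1 := hl _ _ (hbox kv s ke E a1 a2 a3 a4 a5 a6 a7 a8)
    (hbox kv' s' ke' E' b1 b2 b3 b4 b5 b6 b7 b8)
  rw [hms, hms, Fin.sum_univ_four, Fin.sum_univ_four, Fin.sum_univ_four] at h1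
  have d0 : ¬ (0 : Fin 4) = 1 := by decide
  have d2 : ¬ (2 : Fin 4) = 1 := by decide
  have d3 : ¬ (3 : Fin 4) = 1 := by decide
  rw [if_neg d0, if_pos rfl, if_neg d2, if_neg d3, if_neg d0, if_pos rfl, if_neg d2,
    if_neg d3] at h1
  have e1 : ∀ kv s ke E : ℝ, (![kv, s, ke, E] : Fin 4 → ℝ) 0 = kv := fun _ _ _ _ => rfl
  have e2 : ∀ kv s ke E : ℝ, (![kv, s, ke, E] : Fin 4 → ℝ) 1 = s := fun _ _ _ _ => rfl
  have e3 : ∀ kv s ke E : ℝ, (![kv, s, ke, E] : Fin 4 → ℝ) 2 = ke := fun _ _ _ _ => rfl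
  have e4 : ∀ kv s ke E : ℝ, (![kv, s, ke, E] : Fin 4 → ℝ) 3 = E := fun _ _ _ _ => rfl
  rw [e1, e1, e2, e2, e3, e3, e4, e4] at h1
  show |(Qk k (ENNReal.ofReal kv) (ENNReal.ofReal s) (ENNReal.ofReal ke) (ENNReal.ofReal E)).toReal -
    (Qk k (ENNReal.ofReal kv') (ENNReal.ofReal s') (ENNReal.ofReal ke') (ENNReal.ofReal E')).toReal|
    ≤ _
  have c1 := abs_nonneg (kv - kv')
  have c2 := abs_nonneg (s - s')
  have c3 := abs_nonneg (ke - ke')
  have c4 := abs_nonneg (E - E')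
  generalize |kv - kv'| = x1 at *
  generalize |s - s'| = x2 at *
  generalize |ke - ke'| = x3 at *
  generalize |E - E'| = x4 at *
  have u1 : C2 * (s + s') * x2 ≤ C2 * 1 * x2 := by
    apply mul_le_mul_of_nonneg_right _ c2
    exact mul_le_mul_of_nonneg_left (by linarith) hC2
  have u2 : 0 ≤ C2 * (s + s') * (x1 + x3 + x4) :=
    mul_nonneg (mul_nonneg hC2 (by linarith)) (by linarith)
  nlinarith

end PGr

end
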