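import Pool.Agent.PGm.M19
import Pool.Agent.PGm.M27
import Pool.Agent.PGm.M28
import Pool.Agent.PGm.M32
import Pool.Agent.PGm.M34
import Pool.Agent.PGm.M37

section
/-! # Module PVSum: the generating function of nonseparable graphs as a sum over the sinks -/

set_option linter.unusedSectionVars false

namespace PGr
open Equiv Finset
open scoped ENNReal Classical
universe u
open NetSumC
variable {Λ : Type u} [Nonempty Λ]

omit [Nonempty Λ] in
theorem PVSum_sub {α : Type*} (P : α → Prop) [DecidablePred P] (f : α → ℝ≥0∞) :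
    ∑' x : {x // P x}, f x.1 = ∑' x, if P x then f x else 0 := by
  have h := _root_.tsum_subtype {x | P x} f
  refine h.trans (tsum_congr fun x => ?_)
  by_cases hx : P x
  · rw [if_pos hx, Set.indicator_of_mem (show x ∈ {x | P x} from hx)]
  · rw [if_neg hx, Set.indicator_of_notMem (show x ∉ {x | P x} from hx)]

omit [Nonempty Λ] in
theorem PVSum_sum {α β : Type*} (f : α ⊕ β → ℝ≥0∞) :
    ∑' x, f x = ∑' a, f (Sum.inl a) + ∑' b, f (Sum.inr b) :=
  Summable.tsum_sum ENNReal.summable ENNReal.summable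

/-- `sinkV` is a bijection of the sinks and the classes with at least two edges -/
theorem pV_sinks (w : Λ → ℝ≥0∞) : pV w =
    (∑' p : Λ × NC Λ, if CSink p then w p.1 * wt w p.2.rep.1 else 0) +
    (∑' x : Quotient (poSetoid Λ), if PSink x.out then x.out.wt w else 0) +
    ∑' x : Quotient (fcSetoid Λ), if RSink x.out then x.out.1.wt w else 0 := by
  unfold pV
  rw [← PVSum_sub (fun c : VC Λ => 4 ≤ Fintype.card c.rep.1.D) (fun c => wtV w c.rep.1)]
  let G : SinkT Λ → {c : VC Λ // 4 ≤ Fintype.card c.rep.1.D} := fun s => ⟨sinkV s, card_sink s⟩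
  have hG : Function.Bijective G := by
    constructor
    · intro s s' h
      exact sinkV_inj (congrArg Subtype.val h)
    · rintro ⟨c, h4⟩
      obtain ⟨s, hs⟩ := sinkV_surj c h4
      exact ⟨s, Subtype.ext hs⟩
  rw [← (Equiv.ofBijective G hG).tsum_eq]
  have h1 : ∀ s : SinkT Λ, wtV w ((Equiv.ofBijective G hG) s).1.rep.1 = sinkW w s :=
    fun s => wV_sink w s
  rw [tsum_congr h1, PVSum_sum, PVSum_sum, ← add_assoc]
  rw [← PVSum_sub (fun p : Λ × NC Λ => CSink p) (fun p => w p.1 * wt w p.2.rep.1),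
    ← PVSum_sub (fun x : Quotient (poSetoid Λ) => PSink x.out) (fun x => x.out.wt w),
    ← PVSum_sub (fun x : Quotient (fcSetoid Λ) => RSink x.out) (fun x => x.out.1.wt w)]
  rfl

end PGr

end

section
/-! # Module PVEq: the dissymmetry equation at the root vertex -/

set_option linter.unusedSectionVars false

namespace PGr
open Equiv Finset
open scoped ENNReal Classical
universe u
open NetSumC
variable {Λ : Type u} [Nonempty Λ]

theorem pV_eq (w : Λ → ℝ≥0∞) : pV w + pK w 1 * pN w 1 NC.IsX * pD w 1 =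
    pK w 1 * pN w 1 (fun c => 4 ≤ Fintype.card c.rep.1.D ∧ ¬ c.IsX) + poly w + PR w := by
  rw [pV_sinks, ← in_sum, count_A, count_P, count_R]
  have h : ∑' i : IN Λ, inW w i =
      (∑' i : IN Λ, if nd i.2.2 < nd i.2.1.1 then inW w i else 0) +
      (∑' i : IN Λ, if i.2.1.1.IsSer ∧ nd i.2.1.1 ≤ nd i.2.2 then inW w i else 0) +
      ∑' i : IN Λ, if ¬ i.2.1.1.IsSer ∧ nd i.2.1.1 ≤ nd i.2.2 then inW w i else 0 := by
    rw [← ENNReal.tsum_add, ← ENNReal.tsum_add]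
    refine tsum_congr fun i => ?_
    by_cases h1 : nd i.2.2 < nd i.2.1.1
    · have h2 : ¬ nd i.2.1.1 ≤ nd i.2.2 := not_le.2 h1
      simp [h1, h2]
    · have h2 : nd i.2.1.1 ≤ nd i.2.2 := not_lt.1 h1
      by_cases h3 : i.2.1.1.IsSer <;> simp [h1, h2, h3]
  rw [h]
  ring

end PGr

end

section
/-!
# The actual generating functions (definitions)
-/

set_option linter.unusedSectionVars false

namespace PGr
open Real
open scoped ENNReal Classical

/-- the weights `x ^ size` for a real number `x` -/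
noncomputable abbrev WW (x : ℝ) : RC → ℝ≥0∞ := wx (ENNReal.ofReal x)

/-- the generating functions are finite at `x` -/
structure GoodX (x : ℝ) : Prop where
  pos : 0 < x
  lt : x < 1
  K : Kx x ≠ ⊤
  D : Dx x ≠ ⊤

/-- `K`, `D`, `S` as real functions -/
noncomputable def gK (x : ℝ) : ℝ := (pK (WW x) 1).toReal
noncomputable def gD (x : ℝ) : ℝ := (pD (WW x) 1).toReal
noncomputable def gS (x : ℝ) : ℝ := (pS (WW x) 1).toReal

/-- the sum over the networks with property `P`, as a real number -/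
noncomputable def gN (P : NC RC → Prop) (x : ℝ) : ℝ := (pN (WW x) 1 P).toReal

end PGr

end

section
/-! # Module ActA: the generating functions of graphs and networks as power series -/

set_option linter.unusedSectionVars false

namespace PGr
open Real
open scoped ENNReal Classical

/-- `Kx_mono`, `Dx_mono` -/
theorem GoodX.mono {x y : ℝ} (h : GoodX x) (h0 : 0 < y) (hy : y ≤ x) : GoodX y where
  pos := h0
  lt := lt_of_le_of_lt hy h.lt
  K := fun h1 => h.K (top_le_iff.1 (h1 ▸ Kx_mono hy))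
  D := fun h1 => h.D (top_le_iff.1 (h1 ▸ Dx_mono hy))

theorem GoodX.pow {x : ℝ} (h : GoodX x) {k : ℕ} (hk : 1 ≤ k) : GoodX (x ^ k) :=
  h.mono (pow_pos h.pos k) (pow_le_of_le_one h.pos.le h.lt.le (by omega))

theorem wx_pow (X : ℝ≥0∞) (k : ℕ) (c : RC) : wx X c ^ k = wx (X ^ k) c := by
  unfold wx
  rw [← pow_mul, ← pow_mul, mul_comm]

theorem wt_wx_pow (X : ℝ≥0∞) (k : ℕ) (N : LNet RC) : wt (wx X) N ^ k = wt (wx (X ^ k)) N := by
  rw [wt_wx, wt_wx, ← pow_mul, ← pow_mul, mul_comm]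

theorem pN_wx (X : ℝ≥0∞) (k : ℕ) (P : NC RC → Prop) : pN (wx X) k P = pN (wx (X ^ k)) 1 P := by
  unfold pN
  refine tsum_congr fun c => ?_
  rw [wt_wx_pow, pow_one]

theorem pN_WW {x : ℝ} (h : 0 < x) (k : ℕ) (P : NC RC → Prop) :
    pN (WW x) k P = pN (WW (x ^ k)) 1 P := by
  unfold WW
  rw [pN_wx, ENNReal.ofReal_pow h.le]

theorem pK_WW {x : ℝ} (h : 0 < x) (k : ℕ) : pK (WW x) k = pK (WW (x ^ k)) 1 := by
  unfold pK WW
  refine tsum_congr fun c => ?_
  rw [wx_pow, pow_one, ENNReal.ofReal_pow h.le]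

theorem pK_Kx (x : ℝ) : pK (WW x) 1 = Kx x := by
  unfold pK Kx
  exact tsum_congr fun c => pow_one _

theorem pD_Dx (x : ℝ) : pD (WW x) 1 = Dx x := by
  unfold pD pN Dx Nsel
  refine tsum_congr fun c => ?_
  rw [pow_one]

theorem GoodX.pN_fin {x : ℝ} (h : GoodX x) (P : NC RC → Prop) : pN (WW x) 1 P ≠ ⊤ := by
  have h1 : pN (WW x) 1 P ≤ pD (WW x) 1 := by
    unfold pD pN
    refine ENNReal.tsum_le_tsum fun c => ?_
    rw [if_pos trivial]
    split_ifs
    · exact le_rfl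
    · exact zero_le
  rw [pD_Dx] at h1
  exact ne_top_of_le_ne_top h.D h1

theorem GoodX.pK_fin {x : ℝ} (h : GoodX x) : pK (WW x) 1 ≠ ⊤ := by
  rw [pK_Kx]
  exact h.K

/-- `rr_sum`, `tsum_toReal`, `summable_iff` -/
theorem GoodX.sumK {x : ℝ} (h : GoodX x) : Summable fun n => aK n * x ^ n := by
  have h1 : (Summable fun n => (rr n : ℝ) * x ^ n) := by
    rw [summable_iff h.pos, rr_sum]
    exact h.K
  exact h1

theorem GoodX.evK {x : ℝ} (h : GoodX x) : ev aK x = gK x := by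
  have h1 : (∑' n, (rr n : ℝ≥0∞) * ENNReal.ofReal x ^ n).toReal = ∑' n, (rr n : ℝ) * x ^ n :=
    tsum_toReal h.pos
  rw [rr_sum] at h1
  unfold gK
  rw [pK_Kx]
  exact h1.symm

theorem ActA_bb {x : ℝ} : ∑' n, (bb (n + 2) : ℝ≥0∞) * ENNReal.ofReal x ^ n =
    1 + Nsel (wx (ENNReal.ofReal x)) (fun N => ¬ Direct N) := bb_sum _

theorem ActA_Dx (x : ℝ) :
    Dx x = 1 + 2 * Nsel (wx (ENNReal.ofReal x)) (fun N => ¬ Direct N) := by
  have : Nonempty RC := ⟨exists_rc_one.choose⟩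
  exact Nsel_all _

theorem ActA_fin {x : ℝ} (h : GoodX x) :
    Nsel (wx (ENNReal.ofReal x)) (fun N => ¬ Direct N) ≠ ⊤ := by
  intro h1
  apply h.D
  rw [ActA_Dx, h1]
  simp

theorem ActA_sumbb {x : ℝ} (h : GoodX x) : Summable fun n => (bb (n + 2) : ℝ) * x ^ n := by
  rw [summable_iff (a := fun n => bb (n + 2)) h.pos]
  have h1 : ∑' n, ((fun n => bb (n + 2)) n : ℝ≥0∞) * ENNReal.ofReal x ^ n =
      1 + Nsel (wx (ENNReal.ofReal x)) (fun N => ¬ Direct N) := ActA_bb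
  rw [h1]
  exact ENNReal.add_ne_top.mpr ⟨ENNReal.one_ne_top, ActA_fin h⟩

theorem ActA_term (x : ℝ) (n : ℕ) : aD n * x ^ n =
    2 * ((bb (n + 2) : ℝ) * x ^ n) - (if n = 0 then 1 else 0) := by
  unfold aD
  split_ifs with hn
  · subst hn
    simp
  · ring

theorem ActA_one : Summable fun n : ℕ => (if n = 0 then (1 : ℝ) else 0) :=
  (hasSum_ite_eq 0 (1 : ℝ)).summable

/-- `bb_sum`, `Nsel_all` -/
theorem GoodX.sumD {x : ℝ} (h : GoodX x) : Summable fun n => aD n * x ^ n := by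
  simp_rw [ActA_term]
  exact ((ActA_sumbb h).mul_left 2).sub ActA_one

theorem GoodX.evD {x : ℝ} (h : GoodX x) : ev aD x = gD x := by
  unfold ev
  simp_rw [ActA_term]
  rw [((ActA_sumbb h).mul_left 2).tsum_sub ActA_one, tsum_ite_eq, tsum_mul_left]
  have h3 := tsum_toReal (a := fun n => bb (n + 2)) h.pos
  have h4 : (∑' n, ((fun n => bb (n + 2)) n : ℝ≥0∞) * ENNReal.ofReal x ^ n) =
    1 + Nsel (wx (ENNReal.ofReal x)) (fun N => ¬ Direct N) := ActA_bb
  rw [h4, ENNReal.toReal_add ENNReal.one_ne_top (ActA_fin h), ENNReal.toReal_one] at h3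
  unfold gD
  rw [pD_Dx, ← h3, ActA_Dx, ENNReal.toReal_add ENNReal.one_ne_top
    (ENNReal.mul_ne_top (by simp) (ActA_fin h)), ENNReal.toReal_mul, ENNReal.toReal_one,
    ENNReal.toReal_ofNat]
  ring

end PGr

end

section
/-! # Module ActX: the right hand sides `yX`, `ySS`, `yZ` for the actual generating functions -/

set_option linter.unusedSectionVars false

namespace PGr
open Real
open scoped ENNReal Classical

theorem ActX_K {x : ℝ} (h : GoodX x) : ENNReal.ofReal (gK x) = pK (WW x) 1 :=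
  ENNReal.ofReal_toReal h.pK_fin

theorem ActX_D {x : ℝ} (h : GoodX x) : ENNReal.ofReal (gD x) = pD (WW x) 1 :=
  ENNReal.ofReal_toReal (h.pN_fin _)

theorem ActX_S {x : ℝ} (h : GoodX x) : ENNReal.ofReal (gS x) = pS (WW x) 1 :=
  ENNReal.ofReal_toReal (h.pN_fin _)

theorem ActX_Kk {x : ℝ} (h : GoodX x) {k : ℕ} (hk : 1 ≤ k) :
    ENNReal.ofReal (gK (x ^ k)) = pK (WW x) k := by
  rw [ActX_K (h.pow hk), pK_WW h.pos k]

theorem ActX_Dk {x : ℝ} (h : GoodX x) {k : ℕ} (hk : 1 ≤ k) :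
    ENNReal.ofReal (gD (x ^ k)) = pD (WW x) k := by
  rw [ActX_D (h.pow hk)]
  exact (pN_WW h.pos k _).symm

theorem ActX_K0 (x : ℝ) : 0 ≤ gK x := ENNReal.toReal_nonneg

theorem ActX_D0 (x : ℝ) : 0 ≤ gD x := ENNReal.toReal_nonneg

theorem ActX_S0 (x : ℝ) : 0 ≤ gS x := ENNReal.toReal_nonneg

theorem ActX_add {x : ℝ} (h : GoodX x) (P Q : NC RC → Prop) :
    gN (fun c => P c ∧ Q c) x + gN (fun c => P c ∧ ¬ Q c) x = gN P x := by
  unfold gN
  rw [← pN_add (WW x) 1 P Q, ENNReal.toReal_add (h.pN_fin _) (h.pN_fin _)]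

theorem ActX_two {x : ℝ} (h : GoodX x) :
    gN NC.IsSer x + gN (fun c => ¬ c.IsSer) x = gD x := by
  have h1 := ActX_add h (fun _ => True) NC.IsSer
  simp only [true_and] at h1
  exact h1

theorem ActX_ser {x : ℝ} : gN NC.IsSer x = gK x * gN (fun c => ¬ c.IsSer) x * gD x := by
  unfold gN
  rw [Ser_eq, ENNReal.toReal_mul, ENNReal.toReal_mul]
  rfl

theorem act_nser {x : ℝ} (h : GoodX x) :
    gN (fun c => ¬ c.IsSer) x = gD x / (1 + gK x * gD x) := by
  have h1 := ActX_two h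
  rw [ActX_ser] at h1
  have h2 := ActX_K0 x
  have h3 := ActX_D0 x
  have h4 : 0 < 1 + gK x * gD x := by positivity
  rw [eq_div_iff h4.ne']
  linarith

/-- `Ser_eq` and `pN_add`: `Ser = K (D - Ser) D` -/
theorem act_ser {x : ℝ} (h : GoodX x) :
    gN NC.IsSer x = gK x * gD x ^ 2 / (1 + gK x * gD x) := by
  rw [ActX_ser, act_nser h]
  ring

/-- `rig_eq`, `X_split` -/
theorem act_X {x : ℝ} (h : GoodX x) : gN NC.IsX x = yX gK gD gS x := by
  have h1 : gN NC.IsX x = gN NC.IsSer x + gN (fun c => c.IsX ∧ ¬ c.IsSer) x := by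
    unfold gN
    rw [X_split, ENNReal.toReal_add (h.pN_fin _) (h.pN_fin _)]
  have : Nonempty RC := ⟨exists_rc_one.choose⟩
  have h2 := rig_eq (w := WW x)
  have h3 : 2 * pN (WW x) 1 (fun c => c.IsX ∧ ¬ c.IsSer) ≠ ⊤ :=
    ENNReal.mul_ne_top (by norm_num) (h.pN_fin _)
  have h4 := congrArg ENNReal.toReal h2
  rw [h2] at h3
  obtain ⟨h5, h6⟩ := ENNReal.add_ne_top.1 h3
  rw [ENNReal.toReal_add h5 h6, ENNReal.toReal_mul] at h4
  have h7 : rRg (gK x) (gD x) = (Rg (pK (WW x) 1) (pD (WW x) 1)).toReal := by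
    unfold rRg
    rw [ActX_K h, ActX_D h]
  have h8 : rAv (gK x) (gK (x ^ 2)) (gD x) (gS x) (gD (x ^ 2)) =
      (Av (pK (WW x) 1) (pK (WW x) 2) (pD (WW x) 1) (pS (WW x) 1) (pD (WW x) 2)).toReal := by
    unfold rAv
    rw [ActX_K h, ActX_D h, ActX_S h, ActX_Kk h (by norm_num), ActX_Dk h (by norm_num)]
  rw [← h7, ← h8] at h4
  have h9 : gN (fun c => c.IsX ∧ ¬ c.IsSer) x =
      (rRg (gK x) (gD x) + rAv (gK x) (gK (x ^ 2)) (gD x) (gS x) (gD (x ^ 2))) / 2 := by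
    rw [← h4]
    unfold gN
    simp
  unfold yX
  rw [h1, h9, act_ser h]

/-- `SerS_eq`, `pN_WW`, `pK_WW` -/
theorem act_SS {x : ℝ} (h : GoodX x) : gN (fun c => c.IsSer ∧ c.fl = c) x = ySS gK gD gS x := by
  have h1 : gN (fun c => c.IsSer ∧ c.fl = c) x =
      gN (fun c => ¬ c.IsSer) (x ^ 2) * (gK x + gK (x ^ 2) * gS x) := by
    unfold gN gK gS
    rw [SerS_eq, pN_WW h.pos 2, pK_WW h.pos 2, ENNReal.toReal_mul, ENNReal.toReal_add h.pK_fin,
      ENNReal.toReal_mul]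
    exact ENNReal.mul_ne_top (h.pow (by norm_num)).pK_fin (h.pN_fin _)
  rw [h1, act_nser (h.pow (by norm_num))]
  rfl

theorem act_nSS {x : ℝ} (h : GoodX x) :
    gN (fun c => ¬ c.IsSer ∧ c.fl = c) x = gS x - ySS gK gD gS x := by
  have h1 := ActX_add h (fun c => c.fl = c) NC.IsSer
  have h2 : (fun c : NC RC => c.fl = c ∧ c.IsSer) = fun c => c.IsSer ∧ c.fl = c := by
    funext c
    exact propext and_comm
  have h3 : (fun c : NC RC => c.fl = c ∧ ¬ c.IsSer) = fun c => ¬ c.IsSer ∧ c.fl = c := by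
    funext c
    exact propext and_comm
  rw [h2, h3, act_SS h] at h1
  have h4 : gN (fun c : NC RC => c.fl = c) x = gS x := rfl
  rw [h4] at h1
  linarith

/-- `rigS_eq`, `XS_split` -/
theorem act_Z {x : ℝ} (h : GoodX x) : gN (fun c => c.IsX ∧ c.fl = c) x = yZ gK gD gS x := by
  have h1 : gN (fun c => c.IsX ∧ c.fl = c) x = gN (fun c => c.IsSer ∧ c.fl = c) x +
      gN (fun c => (c.IsX ∧ ¬ c.IsSer) ∧ c.fl = c) x := by
    unfold gN
    rw [XS_split, ENNReal.toReal_add (h.pN_fin _) (h.pN_fin _)]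
  have : Nonempty RC := ⟨exists_rc_one.choose⟩
  have h2 := rigS_eq (w := WW x)
  have h3 : 2 * pN (WW x) 1 (fun c => (c.IsX ∧ ¬ c.IsSer) ∧ c.fl = c) ≠ ⊤ :=
    ENNReal.mul_ne_top (by norm_num) (h.pN_fin _)
  have h4 := congrArg ENNReal.toReal h2
  rw [h2] at h3
  obtain ⟨h5, h6⟩ := ENNReal.add_ne_top.1 h3
  rw [ENNReal.toReal_add h5 h6, ENNReal.toReal_mul] at h4
  have h7 : rApi (gK x) (gK (x ^ 2)) (gD x) (gS x) (gD (x ^ 2)) =
      (Api (pK (WW x) 1) (pK (WW x) 2) (pD (WW x) 1) (pS (WW x) 1) (pD (WW x) 2)).toReal := by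
    unfold rApi
    rw [ActX_K h, ActX_D h, ActX_S h, ActX_Kk h (by norm_num), ActX_Dk h (by norm_num)]
  have h8 : rAh (gK x) (gK (x ^ 2)) (gD x) (gS x) (gD (x ^ 2)) =
      (Ah (pK (WW x) 1) (pK (WW x) 2) (pD (WW x) 1) (pS (WW x) 1) (pD (WW x) 2)).toReal := by
    unfold rAh
    rw [ActX_K h, ActX_D h, ActX_S h, ActX_Kk h (by norm_num), ActX_Dk h (by norm_num)]
  rw [← h7, ← h8] at h4
  have h9 : gN (fun c => (c.IsX ∧ ¬ c.IsSer) ∧ c.fl = c) x =
      (rApi (gK x) (gK (x ^ 2)) (gD x) (gS x) (gD (x ^ 2)) +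
        rAh (gK x) (gK (x ^ 2)) (gD x) (gS x) (gD (x ^ 2))) / 2 := by
    rw [← h4]
    unfold gN
    simp
  unfold yZ
  rw [h1, h9, act_SS h]

end PGr

end

section
/-! # Module ActP: pieces of the actual generating functions -/

set_option linter.unusedSectionVars false

namespace PGr
open Real
open scoped ENNReal Classical

theorem ActP_pos {x : ℝ} (h : GoodX x) : ENNReal.ofReal x ≠ 0 := by
  have := h.pos
  simpa using this

/-- `pP` is finite at the points where `Kx` is finite (`K_exp`: the term `k = 0`) -/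
theorem act_P_fin {x : ℝ} (h : GoodX x) : pP (ENNReal.ofReal x) ≠ ⊤ := by
  have h1 := (K_exp (ActP_pos h) h.pK_fin).1
  have h2 := ENNReal.ne_top_of_tsum_ne_top h1 0
  simpa using h2

theorem ActP_V_fin {x : ℝ} (h : GoodX x) : pV (WW x) ≠ ⊤ := by
  have h1 := act_P_fin h
  rw [pP_eq] at h1
  exact (ENNReal.add_ne_top.1 h1).2

theorem ActP_eq {x : ℝ} : pV (WW x) + pK (WW x) 1 * pN (WW x) 1 NC.IsX * pD (WW x) 1 =
    pK (WW x) 1 * pN (WW x) 1 (fun c => 4 ≤ Fintype.card c.rep.1.D ∧ ¬ c.IsX) + poly (WW x) +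
      PR (WW x) := by
  have : Nonempty RC := ⟨exists_rc_one.choose⟩
  exact pV_eq (WW x)

theorem ActP_rhs_fin {x : ℝ} (h : GoodX x) :
    pK (WW x) 1 * pN (WW x) 1 (fun c => 4 ≤ Fintype.card c.rep.1.D ∧ ¬ c.IsX) + poly (WW x) +
      PR (WW x) ≠ ⊤ := by
  rw [← ActP_eq]
  exact ENNReal.add_ne_top.2 ⟨ActP_V_fin h,
    ENNReal.mul_ne_top (ENNReal.mul_ne_top h.pK_fin (h.pN_fin _)) (h.pN_fin _)⟩

/-- `pP_eq`, `pV_eq`: all terms on the right are finite.  For `K D (D - 1 - X)` note that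
`pV + K X D = K N4 + poly + PR` with `N4 ≤ D` finite, `2 poly` finite (`poly_eq`); `PR` is finite because `PR ≤ pV + K X D` -/
theorem act_PR_fin {x : ℝ} (h : GoodX x) : PR (WW x) ≠ ⊤ :=
  (ENNReal.add_ne_top.1 (ActP_rhs_fin h)).2

/-- `PR_eq`; all terms are finite because the sum is -/
theorem act_R {x : ℝ} (h : GoodX x) :
    (Summable fun k : ℕ => ((k + 2).totient : ℝ) / (2 * ((k + 2 : ℕ) : ℝ)) *
      rQk (k + 2) (gK x) (gK (x ^ (k + 2))) (gS x) (gD (x ^ (k + 2)))) ∧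
    (PR (WW x)).toReal = yR gK gD gS x := by
  have h0 := act_PR_fin h
  rw [PR_eq] at h0
  obtain ⟨h1, h2⟩ := ENNReal.add_ne_top.1 h0
  obtain ⟨h3, h4⟩ := ENNReal.add_ne_top.1 h1
  have h5 : ∀ k : ℕ, (((k + 2).totient : ℝ≥0∞) / (2 * ((k + 2 : ℕ) : ℝ≥0∞)) *
      Qk (k + 2) (pK (WW x) 1) (pK (WW x) (k + 2)) (pS (WW x) 1) (pD (WW x) (k + 2))).toReal =
      ((k + 2).totient : ℝ) / (2 * ((k + 2 : ℕ) : ℝ)) *
      rQk (k + 2) (gK x) (gK (x ^ (k + 2))) (gS x) (gD (x ^ (k + 2))) := by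
    intro k
    unfold rQk
    rw [ActX_K h, ActX_S h, ActX_Kk h (by omega), ActX_Dk h (by omega), ENNReal.toReal_mul,
      ENNReal.toReal_div, ENNReal.toReal_mul, ENNReal.toReal_natCast, ENNReal.toReal_natCast,
      ENNReal.toReal_ofNat]
  have h6 := ENNReal.summable_toReal h4
  simp only [h5] at h6
  refine ⟨h6, ?_⟩
  have h7 : (∑' k : ℕ, ((k + 2).totient : ℝ≥0∞) / (2 * ((k + 2 : ℕ) : ℝ≥0∞)) *
      Qk (k + 2) (pK (WW x) 1) (pK (WW x) (k + 2)) (pS (WW x) 1) (pD (WW x) (k + 2))).toReal =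
      ∑' k : ℕ, ((k + 2).totient : ℝ) / (2 * ((k + 2 : ℕ) : ℝ)) *
      rQk (k + 2) (gK x) (gK (x ^ (k + 2))) (gS x) (gD (x ^ (k + 2))) := by
    rw [ENNReal.tsum_toReal_eq (fun k => ENNReal.ne_top_of_tsum_ne_top h4 k)]
    exact tsum_congr h5
  have h8 : pK (WW x) 1 * pD (WW x) 1 * Av (pK (WW x) 1) (pK (WW x) 2) (pD (WW x) 1)
      (pS (WW x) 1) (pD (WW x) 2) +
      Ac (pK (WW x) 1) (pK (WW x) 2) (pD (WW x) 1) (pS (WW x) 1) (pD (WW x) 2) ≠ ⊤ := by
    intro h9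
    apply h2
    rw [h9, ENNReal.top_div_of_ne_top (by norm_num)]
  obtain ⟨h9, h10⟩ := ENNReal.add_ne_top.1 h8
  have h11 : rAv (gK x) (gK (x ^ 2)) (gD x) (gS x) (gD (x ^ 2)) =
      (Av (pK (WW x) 1) (pK (WW x) 2) (pD (WW x) 1) (pS (WW x) 1) (pD (WW x) 2)).toReal := by
    unfold rAv
    rw [ActX_K h, ActX_D h, ActX_S h, ActX_Kk h (by norm_num), ActX_Dk h (by norm_num)]
  have h12 : rAc (gK x) (gK (x ^ 2)) (gD x) (gS x) (gD (x ^ 2)) =
      (Ac (pK (WW x) 1) (pK (WW x) 2) (pD (WW x) 1) (pS (WW x) 1) (pD (WW x) 2)).toReal := by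
    unfold rAc
    rw [ActX_K h, ActX_D h, ActX_S h, ActX_Kk h (by norm_num), ActX_Dk h (by norm_num)]
  have h13 : rQ1 (gK x) (gD x) = (Q1 (pK (WW x) 1) (pD (WW x) 1)).toReal := by
    unfold rQ1
    rw [ActX_K h, ActX_D h]
  have h14 : gK x = (pK (WW x) 1).toReal := rfl
  have h15 : gD x = (pD (WW x) 1).toReal := rfl
  rw [PR_eq, ENNReal.toReal_add h1 h2, ENNReal.toReal_add h3 h4, h7, ENNReal.toReal_div,
    ENNReal.toReal_div, ENNReal.toReal_add h9 h10, ENNReal.toReal_mul, ENNReal.toReal_mul,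
    ENNReal.toReal_ofNat, ENNReal.toReal_ofNat, ← h11, ← h12, ← h13, ← h14, ← h15]
  rfl

/-- `pP_eq`, `pV_eq`, `D_split`, `poly_eq`, `act_nser`, `act_nSS`, `act_X`, `act_R` -/
theorem act_P {x : ℝ} (h : GoodX x) : (pP (ENNReal.ofReal x)).toReal = yP gK gD gS x := by
  have : Nonempty RC := ⟨exists_rc_one.choose⟩
  have h1 : (pP (ENNReal.ofReal x)).toReal = gK x + (pV (WW x)).toReal := by
    rw [pP_eq, ENNReal.toReal_add h.pK_fin (ActP_V_fin h)]
    rfl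
  have hr := ActP_rhs_fin h
  obtain ⟨h2, h3⟩ := ENNReal.add_ne_top.1 hr
  obtain ⟨h4, h5⟩ := ENNReal.add_ne_top.1 h2
  have h6 := congrArg ENNReal.toReal (ActP_eq (x := x))
  have hL : pK (WW x) 1 * pN (WW x) 1 NC.IsX * pD (WW x) 1 ≠ ⊤ :=
    ENNReal.mul_ne_top (ENNReal.mul_ne_top h.pK_fin (h.pN_fin _)) (h.pN_fin _)
  rw [ENNReal.toReal_add (ActP_V_fin h) hL, ENNReal.toReal_add h2 h3, ENNReal.toReal_add h4 h5,
    ENNReal.toReal_mul, ENNReal.toReal_mul, ENNReal.toReal_mul, (act_R h).2] at h6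
  have h7 : (pN (WW x) 1 NC.IsX).toReal = yX gK gD gS x := act_X h
  have h8 : (pK (WW x) 1).toReal = gK x := rfl
  have h9 : (pD (WW x) 1).toReal = gD x := rfl
  have h10 : gD x = 1 + yX gK gD gS x +
      (pN (WW x) 1 (fun c => 4 ≤ Fintype.card c.rep.1.D ∧ ¬ c.IsX)).toReal := by
    have h11 := congrArg ENNReal.toReal (D_split (w := WW x))
    rw [ENNReal.toReal_add (ENNReal.add_ne_top.2 ⟨ENNReal.one_ne_top, h.pN_fin _⟩) (h.pN_fin _),
      ENNReal.toReal_add ENNReal.one_ne_top (h.pN_fin _), ENNReal.toReal_one, h7] at h11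
    exact h11
  have h12 : 2 * (poly (WW x)).toReal = gK x ^ 2 * gD x ^ 2 * (gD x / (1 + gK x * gD x)) +
      gK (x ^ 2) * gD (x ^ 2) * (gS x - ySS gK gD gS x) := by
    have h13 := congrArg ENNReal.toReal (poly_eq (WW x))
    have h14 : (pK (WW x) 2).toReal = gK (x ^ 2) := by
      rw [pK_WW h.pos 2]
      rfl
    have h15 : (pD (WW x) 2).toReal = gD (x ^ 2) := by
      unfold pD
      rw [pN_WW h.pos 2]
      rfl
    have h16 : (pN (WW x) 1 (fun c => ¬ c.IsSer)).toReal = gD x / (1 + gK x * gD x) := act_nser h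
    have h17 : (pN (WW x) 1 (fun c => ¬ c.IsSer ∧ c.fl = c)).toReal =
      gS x - ySS gK gD gS x := act_nSS h
    have h18 : pK (WW x) 1 ^ 2 * pD (WW x) 1 ^ 2 * pN (WW x) 1 (fun c => ¬ c.IsSer) ≠ ⊤ :=
      ENNReal.mul_ne_top (ENNReal.mul_ne_top (ENNReal.pow_ne_top h.pK_fin)
        (ENNReal.pow_ne_top (h.pN_fin _))) (h.pN_fin _)
    have h19 : pK (WW x) 2 * pD (WW x) 2 * pN (WW x) 1 (fun c => ¬ c.IsSer ∧ c.fl = c) ≠ ⊤ := by
      refine ENNReal.mul_ne_top (ENNReal.mul_ne_top ?_ ?_) (h.pN_fin _)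
      · rw [pK_WW h.pos 2]
        exact (h.pow (by norm_num)).pK_fin
      · unfold pD
        rw [pN_WW h.pos 2]
        exact (h.pow (by norm_num)).pN_fin _
    rw [ENNReal.toReal_mul, ENNReal.toReal_ofNat, ENNReal.toReal_add h18 h19] at h13
    rw [h13]
    simp only [ENNReal.toReal_mul, ENNReal.toReal_pow]
    rw [h14, h15, h16, h17, h8, h9]
  rw [h7, h8, h9] at h6
  unfold yP
  rw [h1]
  have h20 : (poly (WW x)).toReal = (gK x ^ 2 * gD x ^ 2 * (gD x / (1 + gK x * gD x)) +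
      gK (x ^ 2) * gD (x ^ 2) * (gS x - ySS gK gD gS x)) / 2 := by linarith
  rw [← h20]
  have h21 : (pN (WW x) 1 (fun c => 4 ≤ Fintype.card c.rep.1.D ∧ ¬ c.IsX)).toReal =
      gD x - 1 - yX gK gD gS x := by linarith
  rw [h21] at h6
  linarith

end PGr

end

section
/-! # Module ActS: the generating function of symmetric networks as a power series; the coefficients -/

set_option linter.unusedSectionVars false

namespace PGr
open Real
open scoped ENNReal Classical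
open NetSumC

/-- for a point `x` with `GoodX x`: infinitely many classes with the same `sg` would make `Dx x` infinite -/
theorem fin_sg {x : ℝ} (h : GoodX x) (n : ℕ) : Finite {c : NC RC // sg c.rep.1 = n} := by
  by_contra hc
  rw [not_finite_iff_infinite] at hc
  apply h.D
  rw [← top_le_iff]
  have h1 : ∑' _ : {c : NC RC // sg c.rep.1 = n}, ENNReal.ofReal x ^ n = ⊤ := by
    apply ENNReal.tsum_const_eq_top_of_ne_zero
    exact pow_ne_zero _ (by rw [Ne, ENNReal.ofReal_eq_zero, not_le]; exact h.pos)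
  rw [← h1]
  unfold Dx Nsel
  have h2 : ∑' c : {c : NC RC // sg c.rep.1 = n}, ENNReal.ofReal x ^ n =
      ∑' c : {c : NC RC // sg c.rep.1 = n}, wt (wx (ENNReal.ofReal x)) c.1.rep.1 := by
    refine tsum_congr fun c => ?_
    rw [wt_wx, c.2]
  rw [h2]
  refine le_trans (ENNReal.tsum_comp_le_tsum_of_injective Subtype.val_injective
    (fun c : NC RC => wt (wx (ENNReal.ofReal x)) c.rep.1)) ?_
  refine ENNReal.tsum_le_tsum fun c => ?_
  rw [if_pos trivial]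

theorem ActS_sum {x : ℝ} (h : GoodX x) :
    ∑' n, ((Nat.card {c : NC RC // c.fl = c ∧ sg c.rep.1 = n} : ℕ) : ℝ≥0∞) *
      ENNReal.ofReal x ^ n = pS (WW x) 1 := by
  have h1 : ∀ n, (Nat.card {c : NC RC // c.fl = c ∧ sg c.rep.1 = n} : ℝ≥0∞) *
      ENNReal.ofReal x ^ n =
      ∑' c : NC RC, if c.fl = c ∧ sg c.rep.1 = n then ENNReal.ofReal x ^ n else 0 := by
    intro n
    have := fin_sg h n
    have : Finite {c : NC RC // c.fl = c ∧ sg c.rep.1 = n} :=
      Finite.of_injective (fun c => (⟨c.1, c.2.2⟩ : {c : NC RC // sg c.rep.1 = n}))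
        (fun c c' h => Subtype.ext (congrArg (fun y : {c : NC RC // sg c.rep.1 = n} => y.1) h))
    exact (BCount.tsum_ite (fun c : NC RC => c.fl = c ∧ sg c.rep.1 = n) _).symm
  simp only [h1]
  rw [ENNReal.tsum_comm]
  unfold pS pN
  refine tsum_congr fun c => ?_
  split_ifs with h2
  · rw [pow_one, wt_wx, tsum_eq_single (sg c.rep.1)]
    · rw [if_pos ⟨h2, rfl⟩]
    · intro j hj
      rw [if_neg]
      rintro ⟨-, h3⟩
      exact hj h3.symm
  · rw [ENNReal.tsum_eq_zero.2]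
    intro j
    rw [if_neg]
    rintro ⟨h3, -⟩
    exact h2 h3

theorem GoodX.sumS {x : ℝ} (h : GoodX x) : Summable fun n => aS n * x ^ n := by
  have h1 := (summable_iff (a := fun n => Nat.card {c : NC RC // c.fl = c ∧ sg c.rep.1 = n})
    h.pos).2 (by
      have h2 := ActS_sum h
      have h3 := h.pN_fin (fun c => c.fl = c)
      rw [show pN (WW x) 1 (fun c => c.fl = c) = pS (WW x) 1 from rfl, ← h2] at h3
      exact h3)
  exact h1

/-- `wt_wx`; group the classes according to `sg` (see `BCount.nsel`, `rr_sum`) -/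
theorem GoodX.evS {x : ℝ} (h : GoodX x) : ev aS x = gS x := by
  have h1 := tsum_toReal (a := fun n => Nat.card {c : NC RC // c.fl = c ∧ sg c.rep.1 = n}) h.pos
  have h2 := ActS_sum h
  unfold gS
  rw [← h2]
  exact h1.symm

theorem GoodX.conv {x : ℝ} (h : GoodX x) : Conv aK aD aS x := ⟨h.sumK, h.sumD, h.sumS⟩

theorem ActS_wt_one (N : LNet RC) : wt (wx 2) N = 2 ^ sg N := wt_wx _ _

/-- a network without internal vertices is an edge -/
theorem ActS_edge {N : LNet RC} (h : N.IsGood) (h0 : sg N = 0) (g : Bool → RC) :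
    NIso N (edgeNet g) := by
  obtain ⟨m, hm⟩ := exists_parts h
  have hd : Direct N := direct_of_sg_zero h h0
  have h1 := hm.wt (wx 2)
  rw [ActS_wt_one, h0, pow_zero] at h1
  have h2 : m = 0 := by
    by_contra hne
    obtain ⟨x, hx⟩ := Multiset.exists_mem_of_ne_zero hne
    obtain ⟨m', rfl⟩ := Multiset.exists_cons_of_mem hx
    rw [Multiset.map_cons, Multiset.prod_cons, ActS_wt_one] at h1
    have h3 : sg x.1.rep.1 ≠ 0 := fun h3 => x.2.dir (direct_of_sg_zero x.1.rep.2 h3)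
    have h4 : (2 : ℝ≥0∞) ≤ 2 ^ sg x.1.rep.1 := by
      calc (2 : ℝ≥0∞) = 2 ^ 1 := (pow_one _).symm
        _ ≤ 2 ^ sg x.1.rep.1 := pow_le_pow_right₀ (by norm_num) (by omega)
    have h5 : (1 : ℝ≥0∞) ≤ (m'.map fun x => wt (wx 2) x.1.rep.1).prod := by
      refine Multiset.one_le_prod_of_one_le ?_
      intro y hy
      obtain ⟨z, -, rfl⟩ := Multiset.mem_map.1 hy
      rw [ActS_wt_one]
      exact one_le_pow₀ (by norm_num)
    have h6 : (2 : ℝ≥0∞) * 1 ≤ 1 := by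
      conv_rhs => rw [h1]
      exact mul_le_mul' h4 h5
    norm_num at h6
  subst h2
  have h3 : decide (Direct N) = true := decide_eq_true hd
  rw [h3] at hm
  exact hm.iso (isParts_edge g)

theorem ActS_fl_edge (g : Bool → RC) : NIso (LNet.fl true (edgeNet g)) (edgeNet g) :=
  ActS_edge (fl_good (edgeNet_good g).1) (by
    have h : ∀ x : (LNet.fl true (edgeNet g)).Int, False := by
      rintro ⟨x, hx⟩
      cases x
      · exact hx true rfl
      · exact hx false rfl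
    unfold sg
    exact Finset.sum_eq_zero fun x _ => (h x).elim) g

theorem ActS_sg_edge (g : Bool → RC) : sg (edgeNet g) = 0 := by
  have h : ∀ x : (edgeNet g).Int, False := by
    rintro ⟨x, hx⟩
    exact hx x (by cases x <;> rfl)
  unfold sg
  exact Finset.sum_eq_zero fun x _ => (h x).elim

theorem ActS_S0 : Nat.card {c : NC RC // c.fl = c ∧ sg c.rep.1 = 0} = 1 := by
  obtain ⟨l, -⟩ := exists_rc_one
  rw [Nat.card_eq_one_iff_unique]
  constructor
  · refine ⟨fun x y => Subtype.ext (eq_of_rep ?_)⟩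
    exact (ActS_edge x.1.rep.2 x.2.2 fun _ => l).trans (ActS_edge y.1.rep.2 y.2.2 fun _ => l).symm
  · have h1 : NIso (cls (edgeNet fun _ => l) (edgeNet_good _).1).rep.1 (edgeNet fun _ : Bool => l) :=
      cls_iso _ _
    refine ⟨⟨cls (edgeNet fun _ => l) (edgeNet_good _).1, ?_, ?_⟩⟩
    · refine eq_of_rep ?_
      refine (NC.fl_rep _).trans ((NIso.fl true h1).trans ((ActS_fl_edge _).trans h1.symm))
    · rw [h1.sg_eq, ActS_sg_edge]

/-- `aK 0 = 0`: a graph has at least one vertex; `aD 0 = 1`: the only network without internal vertices is the edge (`direct_of_sg_zero`);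
`2 * bb (n + 2)` is at least `1` for `n = 0`.  `aS 0 = 1`: the edge is isomorphic to its reverse. -/
theorem adm_actual {x : ℝ} (h : GoodX x) : Adm aK aD aS where
  a0 := by
    unfold aK rr
    have : IsEmpty (Quotient (rpSetoid 0)) := ⟨fun q => by
      obtain ⟨p, rfl⟩ := Quotient.exists_rep q
      exact p.1.2.elim0⟩
    rw [Nat.card_of_isEmpty, Nat.cast_zero]
  b0 := by
    unfold aD
    rw [if_pos rfl, zero_add, bb_two]
    norm_num
  c0 := by
    unfold aS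
    rw [ActS_S0, Nat.cast_one]
  an := fun n => Nat.cast_nonneg _
  bn := by
    intro n
    unfold aD
    split_ifs with hn
    · subst hn
      rw [zero_add, bb_two]
      norm_num
    · rw [sub_zero]
      positivity
  cn := fun n => Nat.cast_nonneg _

end PGr

end

section
/-! # Module ActC: the actual generating functions satisfy the system -/

set_option linter.unusedSectionVars false

namespace PGr
open Real
open scoped ENNReal Classical

/-- if a sum of nonnegative extended real numbers is finite, the sum of the real parts converges to its real part -/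
theorem toReal_euler {f : ℕ → ℝ≥0∞} (h : ∑' k, f k / ((k + 1 : ℕ) : ℝ≥0∞) ≠ ⊤) :
    (Summable fun k => (f k).toReal / ((k + 1 : ℕ) : ℝ)) ∧
    (∑' k, f k / ((k + 1 : ℕ) : ℝ≥0∞)).toReal = ∑' k, (f k).toReal / ((k + 1 : ℕ) : ℝ) := by
  have h1 : ∀ k, (f k / ((k + 1 : ℕ) : ℝ≥0∞)).toReal = (f k).toReal / ((k + 1 : ℕ) : ℝ) := by
    intro k
    rw [ENNReal.toReal_div, ENNReal.toReal_natCast]
  constructor
  · have h2 := ENNReal.summable_toReal h
    simpa only [h1] using h2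
  · rw [ENNReal.tsum_toReal_eq (ENNReal.ne_top_of_tsum_ne_top h)]
    exact tsum_congr h1

/-- `D_exp`, `act_X` at the points `x ^ (k+1)` -/
theorem act_eD {x : ℝ} (h : GoodX x) :
    (Summable fun k : ℕ => yX gK gD gS (x ^ (k + 1)) / ((k + 1 : ℕ) : ℝ)) ∧
    gD x + 1 = 2 * exp (∑' k : ℕ, yX gK gD gS (x ^ (k + 1)) / ((k + 1 : ℕ) : ℝ)) := by
  haveI : Nonempty RC := ⟨exists_rc_one.choose⟩
  have hfin : pD (WW x) 1 ≠ ⊤ := by rw [pD_Dx]; exact h.D
  obtain ⟨h1, h2⟩ := D_exp (WW x) hfin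
  have h3 : ∀ k : ℕ, (pN (WW x) (k + 1) NC.IsX).toReal = yX gK gD gS (x ^ (k + 1)) := by
    intro k
    rw [pN_WW h.pos]
    exact act_X (h.pow (by omega))
  obtain ⟨h4, h5⟩ := toReal_euler h1
  simp only [h3] at h4 h5
  refine ⟨h4, ?_⟩
  rw [← h5]
  have h6 := congrArg ENNReal.toReal h2
  rw [ENNReal.toReal_add hfin ENNReal.one_ne_top, ENNReal.toReal_mul,
    ENNReal.toReal_ofReal (exp_pos _).le, ENNReal.toReal_one, ENNReal.toReal_ofNat] at h6
  exact h6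

/-- `S_exp` -/
theorem act_eS {x : ℝ} (h : GoodX x) :
    (Summable fun k : ℕ => (if Even k then yZ gK gD gS (x ^ (k + 1)) else
      yX gK gD gS (x ^ (k + 1))) / ((k + 1 : ℕ) : ℝ)) ∧
    gS x + 1 = 2 * exp (∑' k : ℕ, (if Even k then yZ gK gD gS (x ^ (k + 1)) else
      yX gK gD gS (x ^ (k + 1))) / ((k + 1 : ℕ) : ℝ)) := by
  haveI : Nonempty RC := ⟨exists_rc_one.choose⟩
  have hfin : pD (WW x) 1 ≠ ⊤ := by rw [pD_Dx]; exact h.D
  have hSfin : pS (WW x) 1 ≠ ⊤ := h.pN_fin _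
  obtain ⟨h1, h2⟩ := S_exp (WW x) hfin
  have h3 : ∀ k : ℕ, (if Even k then pN (WW x) (k + 1) (fun c => c.IsX ∧ c.fl = c) else
      pN (WW x) (k + 1) NC.IsX).toReal = (if Even k then yZ gK gD gS (x ^ (k + 1)) else
      yX gK gD gS (x ^ (k + 1))) := by
    intro k
    split_ifs
    · rw [pN_WW h.pos]
      exact act_Z (h.pow (by omega))
    · rw [pN_WW h.pos]
      exact act_X (h.pow (by omega))
  obtain ⟨h4, h5⟩ := toReal_euler h1
  simp only [h3] at h4 h5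
  refine ⟨h4, ?_⟩
  rw [← h5]
  have h6 := congrArg ENNReal.toReal h2
  rw [ENNReal.toReal_add hSfin ENNReal.one_ne_top, ENNReal.toReal_mul,
    ENNReal.toReal_ofReal (exp_pos _).le, ENNReal.toReal_one, ENNReal.toReal_ofNat] at h6
  exact h6

/-- `K_exp` -/
theorem act_eK {x : ℝ} (h : GoodX x) :
    (Summable fun k : ℕ => yP gK gD gS (x ^ (k + 1)) / ((k + 1 : ℕ) : ℝ)) ∧
    gK x = x * exp (∑' k : ℕ, yP gK gD gS (x ^ (k + 1)) / ((k + 1 : ℕ) : ℝ)) := by
  have hx0 : ENNReal.ofReal x ≠ 0 := by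
    rw [Ne, ENNReal.ofReal_eq_zero]
    exact not_le.2 h.pos
  obtain ⟨h1, h2⟩ := K_exp hx0 h.pK_fin
  have h3 : ∀ k : ℕ, (pP (ENNReal.ofReal x ^ (k + 1))).toReal = yP gK gD gS (x ^ (k + 1)) := by
    intro k
    rw [← ENNReal.ofReal_pow h.pos.le]
    exact act_P (h.pow (by omega))
  obtain ⟨h4, h5⟩ := toReal_euler h1
  simp only [h3] at h4 h5
  refine ⟨h4, ?_⟩
  rw [← h5]
  have h6 := congrArg ENNReal.toReal h2
  rw [ENNReal.toReal_mul, ENNReal.toReal_ofReal (exp_pos _).le,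
    ENNReal.toReal_ofReal h.pos.le] at h6
  exact h6

theorem csys_g {x : ℝ} (h : GoodX x) : CSys gK gD gS x where
  sQ := (act_R h).1
  sX := (act_eD h).1
  sZ := (act_eS h).1
  sP := (act_eK h).1
  eD := (act_eD h).2
  eS := (act_eS h).2
  eK := (act_eK h).2

/-- `CSys` depends only on the values at `x ^ k`, `k ≥ 1` -/
theorem CSys.congr {K D S K' D' S' : ℝ → ℝ} {x : ℝ} (h : CSys K D S x)
    (he : ∀ k : ℕ, 1 ≤ k → K' (x ^ k) = K (x ^ k) ∧ D' (x ^ k) = D (x ^ k) ∧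
      S' (x ^ k) = S (x ^ k)) : CSys K' D' S' x := by
  -- the values at the powers of `x ^ k`
  have e1 : ∀ k : ℕ, 1 ≤ k → ∀ j : ℕ, 1 ≤ j → K' ((x ^ k) ^ j) = K ((x ^ k) ^ j) ∧
      D' ((x ^ k) ^ j) = D ((x ^ k) ^ j) ∧ S' ((x ^ k) ^ j) = S ((x ^ k) ^ j) := by
    intro k hk j hj
    rw [← pow_mul]
    exact he _ (Nat.mul_pos hk hj)
  have hX : ∀ k : ℕ, 1 ≤ k → yX K' D' S' (x ^ k) = yX K D S (x ^ k) := by
    intro k hk
    obtain ⟨a1, a2, a3⟩ := he k hk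
    obtain ⟨b1, b2, b3⟩ := e1 k hk 2 (by norm_num)
    unfold yX
    rw [a1, a2, a3, b1, b2]
  have hSS : ∀ k : ℕ, 1 ≤ k → ySS K' D' S' (x ^ k) = ySS K D S (x ^ k) := by
    intro k hk
    obtain ⟨a1, a2, a3⟩ := he k hk
    obtain ⟨b1, b2, b3⟩ := e1 k hk 2 (by norm_num)
    unfold ySS
    rw [a1, a3, b1, b2]
  have hZ : ∀ k : ℕ, 1 ≤ k → yZ K' D' S' (x ^ k) = yZ K D S (x ^ k) := by
    intro k hk
    obtain ⟨a1, a2, a3⟩ := he k hk
    obtain ⟨b1, b2, b3⟩ := e1 k hk 2 (by norm_num)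
    unfold yZ
    rw [hSS k hk, a1, a2, a3, b1, b2]
  have hQ : ∀ k : ℕ, 1 ≤ k → ∀ j : ℕ, rQk (j + 2) (K' (x ^ k)) (K' ((x ^ k) ^ (j + 2)))
      (S' (x ^ k)) (D' ((x ^ k) ^ (j + 2))) = rQk (j + 2) (K (x ^ k)) (K ((x ^ k) ^ (j + 2)))
      (S (x ^ k)) (D ((x ^ k) ^ (j + 2))) := by
    intro k hk j
    obtain ⟨a1, a2, a3⟩ := he k hk
    obtain ⟨b1, b2, b3⟩ := e1 k hk (j + 2) (by omega)
    rw [a1, a3, b1, b2]
  have hR : ∀ k : ℕ, 1 ≤ k → yR K' D' S' (x ^ k) = yR K D S (x ^ k) := by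
    intro k hk
    obtain ⟨a1, a2, a3⟩ := he k hk
    obtain ⟨b1, b2, b3⟩ := e1 k hk 2 (by norm_num)
    unfold yR
    simp only [hQ k hk]
    rw [a1, a2, a3, b1, b2]
  have hP : ∀ k : ℕ, 1 ≤ k → yP K' D' S' (x ^ k) = yP K D S (x ^ k) := by
    intro k hk
    obtain ⟨a1, a2, a3⟩ := he k hk
    obtain ⟨b1, b2, b3⟩ := e1 k hk 2 (by norm_num)
    unfold yP
    rw [hX k hk, hR k hk, hSS k hk, a1, a2, a3, b1, b2]
  have hX' : ∀ k : ℕ, yX K' D' S' (x ^ (k + 1)) = yX K D S (x ^ (k + 1)) := fun k =>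
    hX (k + 1) (by omega)
  have hZ' : ∀ k : ℕ, yZ K' D' S' (x ^ (k + 1)) = yZ K D S (x ^ (k + 1)) := fun k =>
    hZ (k + 1) (by omega)
  have hP' : ∀ k : ℕ, yP K' D' S' (x ^ (k + 1)) = yP K D S (x ^ (k + 1)) := fun k =>
    hP (k + 1) (by omega)
  have h1 := he 1 le_rfl
  rw [pow_one] at h1
  obtain ⟨c1, c2, c3⟩ := h1
  constructor
  · have h2 : ∀ j : ℕ, rQk (j + 2) (K' x) (K' (x ^ (j + 2))) (S' x) (D' (x ^ (j + 2))) =
        rQk (j + 2) (K x) (K (x ^ (j + 2))) (S x) (D (x ^ (j + 2))) := by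
      intro j
      obtain ⟨b1, b2, b3⟩ := he (j + 2) (by omega)
      rw [c1, c3, b1, b2]
    simp only [h2]
    exact h.sQ
  · simp only [hX']
    exact h.sX
  · simp only [hX', hZ']
    exact h.sZ
  · simp only [hP']
    exact h.sP
  · simp only [hX']
    rw [c2]
    exact h.eD
  · simp only [hX', hZ']
    rw [c3]
    exact h.eS
  · simp only [hP']
    rw [c1]
    exact h.eK

/-- the generating functions of the actual numbers satisfy the system -/
theorem csys_actual {x : ℝ} (h : GoodX x) : CSys (ev aK) (ev aD) (ev aS) x :=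
  (csys_g h).congr fun _ hk => ⟨(h.pow hk).evK, (h.pow hk).evD, (h.pow hk).evS⟩

private theorem ActC_num {t : ℝ} (h0 : 0 < t) (h1 : t < 1) (h : 1 ≤ ecr t) : scr t < 1 := by
  have h2 : 0 < (1 - t) * (1 + 3 * t) := mul_pos (by linarith) (by linarith)
  unfold ecr at h
  rw [le_div_iff₀ h2] at h
  have h3 : 6 / 10 ≤ t := by
    by_contra hlt
    push Not at hlt
    nlinarith
  unfold scr
  have h4 : 0 < 16 * t ^ 3 := by positivity
  rw [div_lt_one h4]
  have h5 : 0 ≤ 1 - t := by linarith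
  have h6 : (1 - t) ^ 3 ≤ (4 / 10) ^ 3 := pow_le_pow_left₀ h5 (by linarith) 3
  have h7 : (6 / 10 : ℝ) ^ 3 ≤ t ^ 3 := pow_le_pow_left₀ (by norm_num) h3 3
  have h8 : 0 ≤ (1 - t) ^ 3 := pow_nonneg h5 3
  calc (1 + 3 * t) * (1 - t) ^ 3 ≤ 4 * (1 - t) ^ 3 :=
        mul_le_mul_of_nonneg_right (by linarith) h8
    _ < 16 * t ^ 3 := by nlinarith

/-- all points below `ρ` are good: `exists_rho` and `critical` (uniqueness of the limit).  For `ρ < 1`: `1 ≤ D = ecr t` gives `6 t² - 2 t - 1 ≥ 0`,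
so `t ≥ 6 / 10` and `ρ ≤ K = scr t < 1` (`le_Kx`). -/
theorem good_of_lt : ∃ ρ : ℝ, 0 < ρ ∧
    Filter.Tendsto (fun n : ℕ => (u n : ℝ) ^ (1 / n : ℝ)) Filter.atTop (nhds (1 / ρ)) ∧
    (∀ x : ℝ, 0 < x → x < ρ → GoodX x) ∧
    ∀ x : ℝ, 0 < x → ((GoodX x ∧ ∃ t : ℝ, 0 < t ∧ t < 1 ∧ gK x = scr t ∧ gD x = ecr t) ↔ x = ρ) := by
  obtain ⟨ρ₁, hρ₁, hlim₁, -, hfin⟩ := exists_rho
  obtain ⟨ρ, hρ, hlim, hcr⟩ := critical
  have he : ρ₁ = ρ := by
    have h1 := tendsto_nhds_unique hlim₁ hlim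
    have h2 : (1 / ρ₁)⁻¹ = (1 / ρ)⁻¹ := by rw [h1]
    rwa [one_div, one_div, inv_inv, inv_inv] at h2
  subst he
  obtain ⟨fK, fD, t, h0, h1, hk, hd⟩ := (hcr ρ₁ hρ).2 rfl
  have hρ1 : ρ₁ < 1 := by
    have h2 : ρ₁ ≤ (Kx ρ₁).toReal := by
      have := ENNReal.toReal_mono fK (le_Kx ρ₁)
      rwa [ENNReal.toReal_ofReal hρ.le] at this
    have h3 : 1 ≤ (Dx ρ₁).toReal := by
      have := ENNReal.toReal_mono fD (one_le_Dx ρ₁)
      rwa [ENNReal.toReal_one] at this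
    rw [hd] at h3
    rw [hk] at h2
    exact lt_of_le_of_lt h2 (ActC_num h0 h1 h3)
  have hgK : ∀ x, gK x = (Kx x).toReal := fun x => by unfold gK; rw [pK_Kx]
  have hgD : ∀ x, gD x = (Dx x).toReal := fun x => by unfold gD; rw [pD_Dx]
  refine ⟨ρ₁, hρ, hlim, fun x hx hx' => ⟨hx, hx'.trans hρ1, (hfin x hx').1, (hfin x hx').2⟩,
    fun x hx => ⟨?_, ?_⟩⟩
  · rintro ⟨hg, t', h0', h1', hk', hd'⟩
    rw [hgK] at hk'
    rw [hgD] at hd'
    exact (hcr x hx).1 ⟨hg.K, hg.D, t', h0', h1', hk', hd'⟩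
  · intro hxρ
    rw [hxρ]
    exact ⟨⟨hρ, hρ1, fK, fD⟩, t, h0, h1, by rw [hgK, hk], by rw [hgD, hd]⟩

end PGr

end

section
/-! # Module EulerO: sums over the powers of the argument -/

set_option linter.unusedSectionVars false

namespace PGr

private theorem EulerO_sum {h : ℕ → ℝ → ℝ} {C ε : ℝ} {n : ℕ} (hn : 1 ≤ n) (hC : 0 ≤ C)
    (hh : ∀ k y, 0 < y → y < ε → |h k y| ≤ C * y ^ n) {x : ℝ} (hx : 0 < x) (hxε : x < ε)
    (hx2 : x ≤ 1 / 2) :
    (Summable fun k : ℕ => h k (x ^ (k + 1)) / ((k + 1 : ℕ) : ℝ)) ∧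
      |∑' k : ℕ, h k (x ^ (k + 1)) / ((k + 1 : ℕ) : ℝ)| ≤ 2 * C * x ^ n := by
  have key : ∀ k : ℕ, ‖h k (x ^ (k + 1)) / ((k + 1 : ℕ) : ℝ)‖ ≤ C * x ^ n * (1 / 2) ^ k := by
    intro k
    have hk1 : (1 : ℝ) ≤ ((k + 1 : ℕ) : ℝ) := by exact_mod_cast Nat.succ_le_succ (Nat.zero_le k)
    have hpos : 0 < x ^ (k + 1) := pow_pos hx _
    have hle : x ^ (k + 1) ≤ x := by
      have := pow_le_of_le_one hx.le (hx2.trans (by norm_num)) (Nat.succ_ne_zero k)
      exact this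
    have h1 := hh k (x ^ (k + 1)) hpos (hle.trans_lt hxε)
    rw [norm_div, Real.norm_eq_abs, Real.norm_eq_abs, abs_of_pos (by linarith : (0 : ℝ) < ((k + 1 : ℕ) : ℝ))]
    have h2 : |h k (x ^ (k + 1))| / ((k + 1 : ℕ) : ℝ) ≤ |h k (x ^ (k + 1))| :=
      div_le_self (abs_nonneg _) hk1
    have h3 : (x ^ (k + 1)) ^ n ≤ x ^ n * (1 / 2) ^ k := by
      rw [← pow_mul]
      have h4 : n + k ≤ (k + 1) * n := by nlinarith [Nat.mul_le_mul_left k hn]
      calc x ^ ((k + 1) * n) ≤ x ^ (n + k) :=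
            pow_le_pow_of_le_one hx.le (hx2.trans (by norm_num)) h4
        _ = x ^ n * x ^ k := pow_add _ _ _
        _ ≤ x ^ n * (1 / 2) ^ k :=
            mul_le_mul_of_nonneg_left (pow_le_pow_left₀ hx.le hx2 k) (pow_pos hx _).le
    calc |h k (x ^ (k + 1))| / ((k + 1 : ℕ) : ℝ) ≤ |h k (x ^ (k + 1))| := h2
      _ ≤ C * (x ^ (k + 1)) ^ n := h1
      _ ≤ C * (x ^ n * (1 / 2) ^ k) := mul_le_mul_of_nonneg_left h3 hC
      _ = C * x ^ n * (1 / 2) ^ k := by ring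
  have hs : HasSum (fun k : ℕ => C * x ^ n * (1 / 2 : ℝ) ^ k) (C * x ^ n * 2) :=
    hasSum_geometric_two.mul_left _
  refine ⟨Summable.of_norm_bounded hs.summable key, ?_⟩
  have := tsum_of_norm_bounded hs key
  rw [Real.norm_eq_abs] at this
  linarith

private theorem EulerO_bd {f f' : ℝ → ℝ} {n : ℕ} (hf : BO n f) (hf' : BO n f') :
    ∃ C ε : ℝ, 0 ≤ C ∧ 0 < ε ∧ ∀ (k : ℕ) y, 0 < y → y < ε →
      |if Even k then f' y else f y| ≤ C * y ^ n := by
  obtain ⟨C, ε, hε, h⟩ := hf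
  obtain ⟨C', ε', hε', h'⟩ := hf'
  refine ⟨max |C| |C'|, min ε ε', le_max_of_le_left (abs_nonneg _), lt_min hε hε', ?_⟩
  intro k y hy hyε
  have h1 := h y hy (hyε.trans_le (min_le_left _ _))
  have h2 := h' y hy (hyε.trans_le (min_le_right _ _))
  have hyn : 0 ≤ y ^ n := (pow_pos hy n).le
  split_ifs
  · exact h2.trans (mul_le_mul_of_nonneg_right ((le_abs_self _).trans (le_max_right _ _)) hyn)
  · exact h1.trans (mul_le_mul_of_nonneg_right ((le_abs_self _).trans (le_max_left _ _)) hyn)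

private theorem EulerO_summable₂ {f f' : ℝ → ℝ} (hf : BO 1 f) (hf' : BO 1 f') :
    ∃ ε, 0 < ε ∧ ∀ x, 0 < x → x < ε → Summable fun k : ℕ =>
      (if Even k then f' (x ^ (k + 1)) else f (x ^ (k + 1))) / ((k + 1 : ℕ) : ℝ) := by
  obtain ⟨C, ε, hC, hε, h⟩ := EulerO_bd hf hf'
  refine ⟨min ε (1 / 2), lt_min hε (by norm_num), ?_⟩
  intro x hx hxε
  exact (EulerO_sum (h := fun k y => if Even k then f' y else f y) le_rfl hC h hx
    (hxε.trans_le (min_le_left _ _)) (hxε.le.trans (min_le_right _ _))).1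

private theorem EulerO_euler₂ {f f' : ℝ → ℝ} {n : ℕ} (hn : 1 ≤ n) (hf : BO n f) (hf' : BO n f') :
    BO n fun x => ∑' k : ℕ, (if Even k then f' (x ^ (k + 1)) else f (x ^ (k + 1))) /
      ((k + 1 : ℕ) : ℝ) := by
  obtain ⟨C, ε, hC, hε, h⟩ := EulerO_bd hf hf'
  refine ⟨2 * C, min ε (1 / 2), lt_min hε (by norm_num), ?_⟩
  intro x hx hxε
  exact (EulerO_sum (h := fun k y => if Even k then f' y else f y) hn hC h hx
    (hxε.trans_le (min_le_left _ _)) (hxε.le.trans (min_le_right _ _))).2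

private theorem EulerO_sub₂ {f f' g g' : ℝ → ℝ} (hf : BO 1 f) (hf' : BO 1 f') (hg : BO 1 g)
    (hg' : BO 1 g') {n : ℕ} (h : BO n fun x => f x - g x) (h' : BO n fun x => f' x - g' x) :
    BO n fun x => ∑' k : ℕ, (if Even k then f' (x ^ (k + 1)) else f (x ^ (k + 1))) /
        ((k + 1 : ℕ) : ℝ) -
      ∑' k : ℕ, (if Even k then g' (x ^ (k + 1)) else g (x ^ (k + 1))) / ((k + 1 : ℕ) : ℝ) := by
  rcases Nat.eq_zero_or_pos n with rfl | hn
  · exact (BO.sub (EulerO_euler₂ le_rfl hf hf') (EulerO_euler₂ le_rfl hg hg')).mono (Nat.zero_le 1)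
  · obtain ⟨ε₁, hε₁, s₁⟩ := EulerO_summable₂ hf hf'
    obtain ⟨ε₂, hε₂, s₂⟩ := EulerO_summable₂ hg hg'
    refine (EulerO_euler₂ hn h h').congr (lt_min hε₁ hε₂) ?_
    intro x hx hxε
    rw [← (s₁ x hx (hxε.trans_le (min_le_left _ _))).tsum_sub
      (s₂ x hx (hxε.trans_le (min_le_right _ _)))]
    refine tsum_congr fun k => ?_
    split_ifs <;> ring

/-- `|f (x ^ (k+1))| ≤ C x ^ (k+1)` -/
theorem BO.summable {f : ℝ → ℝ} (hf : BO 1 f) : ∃ ε, 0 < ε ∧ ∀ x, 0 < x → x < ε →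
    Summable fun k : ℕ => f (x ^ (k + 1)) / ((k + 1 : ℕ) : ℝ) := by
  simpa using EulerO_summable₂ hf hf

theorem BO.euler {f : ℝ → ℝ} (hf : BO 1 f) :
    BO 1 fun x => ∑' k : ℕ, f (x ^ (k + 1)) / ((k + 1 : ℕ) : ℝ) := by
  simpa using EulerO_euler₂ le_rfl hf hf

/-- the terms `k < n` are `O(x ^ n)` by `BO.comp_pow`, the sum of the others is bounded by `C ∑_{k ≥ n} x ^ (k+1)` -/
theorem BO.euler_sub {f g : ℝ → ℝ} (hf : BO 1 f) (hg : BO 1 g) {n : ℕ}
    (h : BO n fun x => f x - g x) :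
    BO n fun x => ∑' k : ℕ, f (x ^ (k + 1)) / ((k + 1 : ℕ) : ℝ) -
      ∑' k : ℕ, g (x ^ (k + 1)) / ((k + 1 : ℕ) : ℝ) := by
  simpa using EulerO_sub₂ hf hf hg hg h h

/-- the same with two functions, depending on the parity of `k` -/
theorem BO.summable₂ {f f' : ℝ → ℝ} (hf : BO 1 f) (hf' : BO 1 f') :
    ∃ ε, 0 < ε ∧ ∀ x, 0 < x → x < ε → Summable fun k : ℕ =>
      (if Even k then f' (x ^ (k + 1)) else f (x ^ (k + 1))) / ((k + 1 : ℕ) : ℝ) :=
  EulerO_summable₂ hf hf'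

theorem BO.euler₂ {f f' : ℝ → ℝ} (hf : BO 1 f) (hf' : BO 1 f') :
    BO 1 fun x => ∑' k : ℕ, (if Even k then f' (x ^ (k + 1)) else f (x ^ (k + 1))) /
      ((k + 1 : ℕ) : ℝ) :=
  EulerO_euler₂ le_rfl hf hf'

theorem BO.euler_sub₂ {f f' g g' : ℝ → ℝ} (hf : BO 1 f) (hf' : BO 1 f') (hg : BO 1 g)
    (hg' : BO 1 g') {n : ℕ} (h : BO n fun x => f x - g x) (h' : BO n fun x => f' x - g' x) :
    BO n fun x => ∑' k : ℕ, (if Even k then f' (x ^ (k + 1)) else f (x ^ (k + 1))) /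
        ((k + 1 : ℕ) : ℝ) -
      ∑' k : ℕ, (if Even k then g' (x ^ (k + 1)) else g (x ^ (k + 1))) / ((k + 1 : ℕ) : ℝ) :=
  EulerO_sub₂ hf hf' hg hg' h h'

end PGr

end

section


end

section
/-! # The right hand sides of the system (definitions) -/

set_option linter.unusedSectionVars false

namespace PGr

/-- behaviour at the origin -/
structure Near (K D S : ℝ → ℝ) : Prop where
  nn : ∃ ε, 0 < ε ∧ ∀ x, 0 < x → x < ε → 0 ≤ K x
  K : BO 1 K
  D : BO 1 fun x => D x - 1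
  S : BO 1 fun x => S x - 1

/-- two triples which agree to the order `n` (`K` to the order `n + 1`) -/
structure Agree (K D S K' D' S' : ℝ → ℝ) (n : ℕ) : Prop where
  K : BO (n + 1) fun x => K x - K' x
  D : BO n fun x => D x - D' x
  S : BO n fun x => S x - S' x

end PGr

end

section
/-! # Module YX: the right hand sides of the system, `yX` and `ySS` -/

set_option linter.unusedSectionVars false

namespace PGr

variable {K D S K' D' S' : ℝ → ℝ}

theorem YX_fact (h : Near K D S) : ∃ ε, 0 < ε ∧ ε ≤ 1 ∧ ∀ x, 0 < x → x < ε →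
    (0 ≤ K x ∧ K x ≤ 1 / 320000) ∧ (1 / 2 ≤ D x ∧ D x ≤ 3 / 2) ∧ (1 / 2 ≤ S x ∧ S x ≤ 3 / 2) := by
  obtain ⟨e0, he0, hK0⟩ := h.nn
  obtain ⟨e1, he1, hK1⟩ := h.K.small (δ := 1 / 320000) (by norm_num)
  obtain ⟨e2, he2, hD⟩ := h.D.small (δ := 1 / 2) (by norm_num)
  obtain ⟨e3, he3, hS⟩ := h.S.small (δ := 1 / 2) (by norm_num)
  refine ⟨min (min (min e0 e1) (min e2 e3)) 1, by positivity, min_le_right _ _, fun x hx hlt => ?_⟩
  rw [lt_min_iff, lt_min_iff, lt_min_iff, lt_min_iff] at hlt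
  obtain ⟨⟨⟨h0, h1⟩, h2, h3⟩, -⟩ := hlt
  have a1 := abs_le.1 (hK1 x hx h1)
  have a2 := abs_le.1 (hD x hx h2)
  have a3 := abs_le.1 (hS x hx h3)
  refine ⟨⟨hK0 x hx h0, a1.2⟩, ⟨by linarith [a2.1], by linarith [a2.2]⟩,
    ⟨by linarith [a3.1], by linarith [a3.2]⟩⟩

theorem YX_sq {ε x : ℝ} (h1 : ε ≤ 1) (hx : 0 < x) (hlt : x < ε) : 0 < x ^ 2 ∧ x ^ 2 < ε :=
  ⟨by positivity, by nlinarith⟩

theorem YX_pow {ε x : ℝ} (h1 : ε ≤ 1) (hx : 0 < x) (hlt : x < ε) {k : ℕ} (hk : 1 ≤ k) :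
    0 < x ^ k ∧ x ^ k < ε := by
  refine ⟨by positivity, lt_of_le_of_lt ?_ hlt⟩
  calc x ^ k ≤ x ^ 1 := pow_le_pow_of_le_one hx.le (by linarith) hk
    _ = x := pow_one x

theorem YX_box (h : Near K D S) : ∃ ε, 0 < ε ∧ ε ≤ 1 ∧ ∀ x, 0 < x → x < ε →
    Bx (K x) (K (x ^ 2)) (D x) (S x) (D (x ^ 2)) := by
  obtain ⟨ε, hε, hε1, hf⟩ := YX_fact h
  refine ⟨ε, hε, hε1, fun x hx hlt => ?_⟩
  obtain ⟨⟨k0, k1⟩, ⟨d0, d1⟩, s0, s1⟩ := hf x hx hlt
  obtain ⟨hx2, hlt2⟩ := YX_sq hε1 hx hlt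
  obtain ⟨⟨k0', k1'⟩, ⟨d0', d1'⟩, -, -⟩ := hf (x ^ 2) hx2 hlt2
  exact ⟨⟨k0, by linarith⟩, ⟨k0', k1'⟩, ⟨by linarith, d1⟩, ⟨by linarith, s1⟩, ⟨by linarith, d1'⟩⟩

theorem YX_K2 (h : Near K D S) : BO 1 fun x => K (x ^ 2) :=
  (h.K.comp_pow (k := 2) (by norm_num)).mono (by norm_num)

theorem YX_D0 (h : Near K D S) : BO 0 D :=
  ((h.D.mono (m := 0) (by norm_num)).add (BO.const 1)).congr (ε := 1) one_pos
    (fun x _ _ => by ring)

theorem YX_S0 (h : Near K D S) : BO 0 S :=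
  ((h.S.mono (m := 0) (by norm_num)).add (BO.const 1)).congr (ε := 1) one_pos
    (fun x _ _ => by ring)

theorem YX_D2 (h : Near K D S) : BO 0 fun x => D (x ^ 2) :=
  ((YX_D0 h).comp_pow (k := 2) (by norm_num)).mono (by norm_num)

theorem YX_aK2 {n : ℕ} (ha : Agree K D S K' D' S' n) : BO (n + 1) fun x => K (x ^ 2) - K' (x ^ 2) :=
  (ha.K.comp_pow (k := 2) (by norm_num)).mono (by omega)

theorem YX_aD2 {n : ℕ} (ha : Agree K D S K' D' S' n) : BO n fun x => D (x ^ 2) - D' (x ^ 2) :=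
  (ha.D.comp_pow (k := 2) (by norm_num)).mono (by omega)

/-- for a function with the property `LipK` of the values at `x` and `x ^ 2` -/
theorem LipK.bo {f : ℝ → ℝ → ℝ → ℝ → ℝ → ℝ} (hf : LipK f) (h : Near K D S) :
    BO 1 fun x => f (K x) (K (x ^ 2)) (D x) (S x) (D (x ^ 2)) := by
  obtain ⟨C, hC, h1, -⟩ := hf
  obtain ⟨ε, hε, hε1, hB⟩ := YX_box h
  refine BO.of_le (g := fun x => K x + K (x ^ 2)) (h.K.add (YX_K2 h)) hε (C := C) fun x hx hlt => ?_
  have hb := hB x hx hlt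
  have h2 := h1 _ _ _ _ _ hb
  rw [abs_of_nonneg (add_nonneg hb.k.1 hb.k2.1)]
  exact h2

/-- `K - K' = O(x ^ (n+1))`, `K + K' = O(x)`, `D - D' = O(x ^ n)`; at `x ^ 2` all differences are `O(x ^ (2n))` -/
theorem LipK.bo_sub {f : ℝ → ℝ → ℝ → ℝ → ℝ → ℝ} (hf : LipK f) (h : Near K D S)
    (h' : Near K' D' S') {n : ℕ} (hn : 1 ≤ n) (ha : Agree K D S K' D' S' n) :
    BO (n + 1) fun x => f (K x) (K (x ^ 2)) (D x) (S x) (D (x ^ 2)) -
      f (K' x) (K' (x ^ 2)) (D' x) (S' x) (D' (x ^ 2)) := by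
  obtain ⟨C, hC, -, h1⟩ := hf
  obtain ⟨ε, hε, hε1, hB⟩ := YX_box h
  obtain ⟨ε', hε', hε1', hB'⟩ := YX_box h'
  have b1 : BO (n + 1) fun x => |K x - K' x| + |K (x ^ 2) - K' (x ^ 2)| :=
    ha.K.abs.add (YX_aK2 ha).abs
  have b2 : BO 1 fun x => K x + K' x + K (x ^ 2) + K' (x ^ 2) :=
    ((h.K.add h'.K).add (YX_K2 h)).add (YX_K2 h')
  have b3 : BO n fun x => |D x - D' x| + |S x - S' x| + |D (x ^ 2) - D' (x ^ 2)| :=
    (ha.D.abs.add ha.S.abs).add (YX_aD2 ha).abs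
  have b4 := b2.mul b3
  rw [show 1 + n = n + 1 by ring] at b4
  refine BO.of_le (b1.add b4) (lt_min hε hε') (C := C) fun x hx hlt => ?_
  rw [lt_min_iff] at hlt
  have hb := hB x hx hlt.1
  have hb' := hB' x hx hlt.2
  have h2 := h1 _ _ _ _ _ _ _ _ _ _ hb hb'
  refine h2.trans ?_
  rw [mul_assoc, ← mul_add]
  refine mul_le_mul_of_nonneg_left ?_ hC
  exact le_abs_self _

/-- the fraction `a ^ p / (1 + b)` -/
theorem YX_den (h : Near K D S) : ∃ ε, 0 < ε ∧ ∀ x, 0 < x → x < ε →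
    1 / 2 ≤ 1 + K x * D x ∧ 1 / 2 ≤ 1 + K (x ^ 2) * D (x ^ 2) := by
  obtain ⟨ε, hε, hε1, hf⟩ := YX_fact h
  refine ⟨ε, hε, fun x hx hlt => ?_⟩
  obtain ⟨hx2, hlt2⟩ := YX_sq hε1 hx hlt
  obtain ⟨⟨k0, -⟩, ⟨d0, -⟩, -⟩ := hf x hx hlt
  obtain ⟨⟨k0', -⟩, ⟨d0', -⟩, -⟩ := hf (x ^ 2) hx2 hlt2
  have h1 : 0 ≤ K x * D x := mul_nonneg k0 (by linarith)
  have h2 : 0 ≤ K (x ^ 2) * D (x ^ 2) := mul_nonneg k0' (by linarith)
  exact ⟨by linarith, by linarith⟩

theorem yX_bo (h : Near K D S) : BO 1 (yX K D S) := by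
  obtain ⟨ε, hε, hd⟩ := YX_den h
  have h1 : BO 1 fun x => K x * (D x * D x) := h.K.mul ((YX_D0 h).mul (YX_D0 h))
  have h2 : BO 1 fun x => K x * (D x * D x) / (1 + K x * D x) :=
    h1.div hε fun x hx hlt => (hd x hx hlt).1
  have h3 : BO 1 fun x => rRg (K x) (D x) := rRg_lip.bo h
  have h4 : BO 1 fun x => rAv (K x) (K (x ^ 2)) (D x) (S x) (D (x ^ 2)) := rAv_lip.bo h
  refine (h2.add ((h3.add h4).const_mul (1 / 2))).congr one_pos fun x _ _ => ?_
  unfold yX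
  ring

theorem yX_sub (h : Near K D S) (h' : Near K' D' S') {n : ℕ} (hn : 1 ≤ n)
    (ha : Agree K D S K' D' S' n) : BO (n + 1) fun x => yX K D S x - yX K' D' S' x := by
  obtain ⟨ε, hε, hd⟩ := YX_den h
  obtain ⟨ε', hε', hd'⟩ := YX_den h'
  -- the numerator
  have n1 : BO (n + 1) fun x => (K x - K' x) * (D x * D x) := by
    have := ha.K.mul ((YX_D0 h).mul (YX_D0 h))
    exact this.mono (by omega)
  have n2 : BO (n + 1) fun x => K' x * ((D x - D' x) * (D x + D' x)) := by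
    have := h'.K.mul (ha.D.mul ((YX_D0 h).add (YX_D0 h')))
    exact this.mono (by omega)
  have n3 : BO (n + 1) fun x => K x * (K' x * (D x * D' x)) * (D x - D' x) := by
    have := (h.K.mul (h'.K.mul ((YX_D0 h).mul (YX_D0 h')))).mul ha.D
    exact this.mono (by omega)
  have n4 := ((n1.add n2).add n3)
  have n5 := n4.div hε fun x hx hlt => (hd x hx hlt).1
  have n6 := n5.div hε' fun x hx hlt => (hd' x hx hlt).1
  have h3 : BO (n + 1) fun x => rRg (K x) (D x) - rRg (K' x) (D' x) := rRg_lip.bo_sub h h' hn ha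
  have h4 : BO (n + 1) fun x => rAv (K x) (K (x ^ 2)) (D x) (S x) (D (x ^ 2)) -
    rAv (K' x) (K' (x ^ 2)) (D' x) (S' x) (D' (x ^ 2)) := rAv_lip.bo_sub h h' hn ha
  refine (n6.add ((h3.add h4).const_mul (1 / 2))).congr (lt_min hε hε') fun x hx hlt => ?_
  rw [lt_min_iff] at hlt
  have d1 : 1 + K x * D x ≠ 0 := by
    have := (hd x hx hlt.1).1
    intro h0
    linarith
  have d2 : 1 + K' x * D' x ≠ 0 := by
    have := (hd' x hx hlt.2).1
    intro h0
    linarith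
  unfold yX
  field_simp
  ring

theorem YX_alg {k2 d2 k2' d2' k s k' s' : ℝ} (h1 : 1 + k2 * d2 ≠ 0) (h2 : 1 + k2' * d2' ≠ 0) :
    d2 / (1 + k2 * d2) * (k + k2 * s) - d2' / (1 + k2' * d2') * (k' + k2' * s') =
      d2 / (1 + k2 * d2) * (k - k' + ((k2 - k2') * s + k2' * (s - s'))) +
      (d2 - d2' + d2 * d2' * (k2' - k2)) / (1 + k2 * d2) / (1 + k2' * d2') * (k' + k2' * s') := by
  simp only [div_eq_mul_inv]
  have e1 := inv_mul_cancel₀ h1
  have e2 := inv_mul_cancel₀ h2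
  linear_combination (k' + k2' * s') * (d2' * (1 + k2' * d2')⁻¹) * e1 -
    (k' + k2' * s') * (d2 * (1 + k2 * d2)⁻¹) * e2

theorem ySS_bo (h : Near K D S) : BO 1 (ySS K D S) := by
  obtain ⟨ε, hε, hd⟩ := YX_den h
  have h1 : BO 0 fun x => D (x ^ 2) / (1 + K (x ^ 2) * D (x ^ 2)) :=
    (YX_D2 h).div hε fun x hx hlt => (hd x hx hlt).2
  have h2 : BO 1 fun x => K x + K (x ^ 2) * S x := by
    have := (YX_K2 h).mul (YX_S0 h)
    exact h.K.add this
  have h3 := h1.mul h2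
  exact h3.mono (by omega)

theorem ySS_sub (h : Near K D S) (h' : Near K' D' S') {n : ℕ} (hn : 1 ≤ n)
    (ha : Agree K D S K' D' S' n) : BO (n + 1) fun x => ySS K D S x - ySS K' D' S' x := by
  obtain ⟨ε, hε, hd⟩ := YX_den h
  obtain ⟨ε', hε', hd'⟩ := YX_den h'
  have e1 : BO 0 fun x => D (x ^ 2) / (1 + K (x ^ 2) * D (x ^ 2)) :=
    (YX_D2 h).div hε fun x hx hlt => (hd x hx hlt).2
  -- the difference of the first factors
  have m1 : BO n fun x => (D (x ^ 2) - D' (x ^ 2)) +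
      (D (x ^ 2) * D' (x ^ 2)) * (K' (x ^ 2) - K (x ^ 2)) := by
    refine (YX_aD2 ha).add ?_
    have h1 : BO (n + 1) fun x => K' (x ^ 2) - K (x ^ 2) :=
      (YX_aK2 ha).neg.congr one_pos fun x _ _ => by ring
    have := ((YX_D2 h).mul (YX_D2 h')).mul h1
    exact this.mono (by omega)
  have m2 := m1.div hε fun x hx hlt => (hd x hx hlt).2
  have m3 := m2.div hε' fun x hx hlt => (hd' x hx hlt).2
  have b1 : BO 1 fun x => K' x + K' (x ^ 2) * S' x := by
    have := (YX_K2 h').mul (YX_S0 h')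
    exact h'.K.add this
  have b2 : BO (n + 1) fun x => (K x - K' x) + ((K (x ^ 2) - K' (x ^ 2)) * S x +
      K' (x ^ 2) * (S x - S' x)) := by
    refine ha.K.add (BO.add ?_ ?_)
    · have := (YX_aK2 ha).mul (YX_S0 h)
      exact this.mono (by omega)
    · have := (YX_K2 h').mul ha.S
      exact this.mono (by omega)
  have f1 := (e1.mul b2).mono (m := n + 1) (by omega)
  have f2 := (m3.mul b1).mono (m := n + 1) (by omega)
  refine (f1.add f2).congr (lt_min hε hε') fun x hx hlt => ?_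
  rw [lt_min_iff] at hlt
  have d1 : 1 + K (x ^ 2) * D (x ^ 2) ≠ 0 := by
    have := (hd x hx hlt.1).2
    intro h0
    linarith
  have d2 : 1 + K' (x ^ 2) * D' (x ^ 2) ≠ 0 := by
    have := (hd' x hx hlt.2).2
    intro h0
    linarith
  unfold ySS
  exact YX_alg d1 d2

end PGr

end

section
/-! # Module ActG: the generating functions at the powers of a point

All functions are sums of weights `x ^ size` over classes with `size ≥ 1` (except the edge in `gD`, `gS`), so a factor `x` is gained when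
`x ^ k` is replaced by `x ^ (k + 1)`. -/

set_option linter.unusedSectionVars false

namespace PGn
open PGr Real
open scoped ENNReal Classical

variable {x : ℝ}

/-- one more factor `X` in a sum of powers with positive exponents -/
private theorem sum_step {ι : Type*} {X : ℝ≥0∞} (hX : X ≤ 1) (P : ι → Prop) [DecidablePred P]
    (s : ι → ℕ)
    (hs : ∀ c, P c → 1 ≤ s c) (k : ℕ) :
    ∑' c, (if P c then (X ^ (k + 1)) ^ s c else 0) ≤
      X * ∑' c, (if P c then (X ^ k) ^ s c else 0) := by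
  rw [← ENNReal.tsum_mul_left]
  refine ENNReal.tsum_le_tsum fun c => ?_
  by_cases hc : P c
  · rw [if_pos hc, if_pos hc, ← pow_mul, ← pow_mul]
    have h1 : (k + 1) * s c = (s c - 1) + 1 + k * s c := by
      have := hs c hc
      have h2 : (k + 1) * s c = k * s c + s c := by ring
      omega
    rw [h1, pow_add, pow_add, pow_one]
    have h2 : X ^ (s c - 1) ≤ 1 := pow_le_one' hX _
    calc X ^ (s c - 1) * X * X ^ (k * s c) ≤ 1 * X * X ^ (k * s c) := by gcongr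
      _ = X * X ^ (k * s c) := by rw [one_mul]
  · rw [if_neg hc, if_neg hc]
    simp

private theorem X_le (h : GoodX x) : ENNReal.ofReal x ≤ 1 := by
  rw [← ENNReal.ofReal_one]
  exact ENNReal.ofReal_le_ofReal h.lt.le

private theorem toReal_step (h : GoodX x) {a b : ℝ≥0∞} (hb : b ≠ ⊤)
    (hab : a ≤ ENNReal.ofReal x * b) : a.toReal ≤ x * b.toReal := by
  have h1 := ENNReal.toReal_mono (ENNReal.mul_ne_top ENNReal.ofReal_ne_top hb) hab
  rwa [ENNReal.toReal_mul, ENNReal.toReal_ofReal h.pos.le] at h1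

private theorem pN_WW' (h : GoodX x) (k : ℕ) (P : NC RC → Prop) :
    pN (WW (x ^ k)) 1 P = ∑' c : NC RC, if P c then (ENNReal.ofReal x ^ k) ^ sg c.rep.1 else 0 := by
  unfold pN
  refine tsum_congr fun c => ?_
  rw [pow_one, wt_wx, ENNReal.ofReal_pow h.pos.le]

private theorem gN_step (h : GoodX x) {k : ℕ} (hk : 1 ≤ k) (P : NC RC → Prop)
    (hP : ∀ c, P c → 1 ≤ sg c.rep.1) : gN P (x ^ (k + 1)) ≤ x * gN P (x ^ k) := by
  unfold gN
  refine toReal_step h ((h.pow hk).pN_fin P) ?_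
  rw [pN_WW' h, pN_WW' h]
  exact sum_step (X_le h) P _ hP k

/-- `GoodX.sumK`, `GoodX.evK`: `gK` is a power series with coefficients `aK ≥ 0`, `aK 0 = 0` (`adm_actual`) -/
theorem gK_step (h : GoodX x) {k : ℕ} (hk : 1 ≤ k) : gK (x ^ (k + 1)) ≤ x * gK (x ^ k) := by
  unfold gK
  refine toReal_step h (h.pow hk).pK_fin ?_
  have h1 : ∀ j : ℕ, pK (WW (x ^ j)) 1 = ∑' c : RC, if True then
      (ENNReal.ofReal x ^ j) ^ c.rep.1.size else 0 := by
    intro j
    unfold pK WW wx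
    refine tsum_congr fun c => ?_
    rw [pow_one, if_pos trivial, ENNReal.ofReal_pow h.pos.le]
  rw [h1, h1]
  exact sum_step (X_le h) (fun _ => True) (fun c : RC => c.rep.1.size)
    (fun c _ => BCount.size_pos c) k

private theorem gD_split (h : GoodX x) :
    gD x = 1 + 2 * gN (fun c => ¬ Direct c.rep.1) x := by
  have h1 := ActA_Dx x
  unfold gD gN
  rw [pD_Dx, h1, ENNReal.toReal_add ENNReal.one_ne_top
    (ENNReal.mul_ne_top (by simp) (ActA_fin h)), ENNReal.toReal_mul, ENNReal.toReal_one,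
    ENNReal.toReal_ofNat]
  have h2 : Nsel (wx (ENNReal.ofReal x)) (fun N => ¬ Direct N) =
      pN (WW x) 1 (fun c => ¬ Direct c.rep.1) := by
    unfold Nsel pN
    refine tsum_congr fun c => ?_
    rw [pow_one]
  rw [h2]

private theorem nd_pos (c : NC RC) (hc : ¬ Direct c.rep.1) : 1 ≤ sg c.rep.1 := by
  rcases Nat.eq_zero_or_pos (sg c.rep.1) with h | h
  · exact absurd (direct_of_sg_zero c.rep.2 h) hc
  · exact h

/-- the same for `gD` (coefficient `1` at `0`) -/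
theorem gD_step (h : GoodX x) {k : ℕ} (hk : 1 ≤ k) :
    gD (x ^ (k + 1)) - 1 ≤ x * (gD (x ^ k) - 1) := by
  rw [gD_split (h.pow (by omega)), gD_split (h.pow hk)]
  have h1 := gN_step h hk (fun c => ¬ Direct c.rep.1) nd_pos
  have h2 : x * (1 + 2 * gN (fun c => ¬ Direct c.rep.1) (x ^ k) - 1) =
      2 * (x * gN (fun c => ¬ Direct c.rep.1) (x ^ k)) := by ring
  rw [h2]
  linarith

/-- `act_X`: `yX` is a sum over classes; `sg c.rep.1 ≥ 1` (`direct_of_sg_zero`: otherwise `c` is an edge, which is not `IsX`) -/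
theorem yX_step (h : GoodX x) {k : ℕ} (hk : 1 ≤ k) :
    yX gK gD gS (x ^ (k + 1)) ≤ x * yX gK gD gS (x ^ k) := by
  rw [← act_X (h.pow (by omega)), ← act_X (h.pow hk)]
  refine gN_step h hk NC.IsX fun c hc => nd_pos c ?_
  exact XNet.dir hc

/-- `act_P`: `yP` is `pP`, a sum over pieces (`size ≥ 1`) -/
theorem yP_step (h : GoodX x) {k : ℕ} (hk : 1 ≤ k) :
    yP gK gD gS (x ^ (k + 1)) ≤ x * yP gK gD gS (x ^ k) := by
  rw [← act_P (h.pow (by omega)), ← act_P (h.pow hk)]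
  refine toReal_step h (act_P_fin (h.pow hk)) ?_
  unfold pP
  rw [ENNReal.ofReal_pow h.pos.le, ENNReal.ofReal_pow h.pos.le]
  refine sum_step (X_le h) (fun c : RC => Piece c.rep.1) (fun c => c.rep.1.size - 1) ?_ k
  intro c hc
  have := Piece.two_le_size c.rep.2 hc
  omega

/-- `act_Z`, `act_X`: a subset of the classes -/
theorem yZ_bd (h : GoodX x) : 0 ≤ yZ gK gD gS x ∧ yZ gK gD gS x ≤ yX gK gD gS x := by
  rw [← act_Z h, ← act_X h]
  refine ⟨ENNReal.toReal_nonneg, ENNReal.toReal_mono (h.pN_fin _) ?_⟩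
  unfold pN
  refine ENNReal.tsum_le_tsum fun c => ?_
  by_cases hc : c.IsX ∧ c.fl = c
  · rw [if_pos hc, if_pos hc.1]
  · rw [if_neg hc]
    exact zero_le

/-- pieces: `P = K + pV` -/
theorem gK_le_P (h : GoodX x) : gK x ≤ yP gK gD gS x := by
  rw [← act_P h]
  refine ENNReal.toReal_mono (act_P_fin h) ?_
  rw [pP_eq]
  exact le_self_add

private theorem yX_nonneg (h : GoodX x) : 0 ≤ yX gK gD gS x := by
  rw [← act_X h]
  exact ENNReal.toReal_nonneg

/-- subset of the classes; the edge -/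
theorem gS_bd (h : GoodX x) : 1 ≤ gS x ∧ gS x ≤ gD x := by
  constructor
  · have h1 := (act_eS h).2
    have h2 : 0 ≤ ∑' k : ℕ, (if Even k then yZ gK gD gS (x ^ (k + 1)) else
      yX gK gD gS (x ^ (k + 1))) / ((k + 1 : ℕ) : ℝ) := by
      refine tsum_nonneg fun k => ?_
      refine div_nonneg ?_ (Nat.cast_nonneg _)
      split_ifs
      · exact (yZ_bd (h.pow (by omega))).1
      · exact yX_nonneg (h.pow (by omega))
    have h3 := Real.one_le_exp h2
    linarith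
  · refine ENNReal.toReal_mono (h.pN_fin _) ?_
    unfold pS pN
    refine ENNReal.tsum_le_tsum fun c => ?_
    rw [if_pos trivial]
    split_ifs
    · exact le_rfl
    · exact zero_le

/-- `le_Kx` -/
theorem le_gK (h : GoodX x) : x ≤ gK x := by
  have h1 := ENNReal.toReal_mono h.K (le_Kx x)
  rw [ENNReal.toReal_ofReal h.pos.le] at h1
  unfold gK
  rw [pK_Kx]
  exact h1

theorem gK_nonneg (x : ℝ) : 0 ≤ gK x := ENNReal.toReal_nonneg

/-- the functions are monotone -/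
theorem g_mono (h : GoodX x) {y : ℝ} (h0 : 0 < y) (hy : y ≤ x) :
    gK y ≤ gK x ∧ gD y ≤ gD x ∧ gS y ≤ gS x := by
  refine ⟨?_, ?_, ?_⟩
  · unfold gK
    rw [pK_Kx, pK_Kx]
    exact ENNReal.toReal_mono h.K (Kx_mono hy)
  · unfold gD
    rw [pD_Dx, pD_Dx]
    exact ENNReal.toReal_mono h.D (Dx_mono hy)
  · refine ENNReal.toReal_mono (h.pN_fin _) ?_
    unfold pS pN
    refine ENNReal.tsum_le_tsum fun c => ?_
    split_ifs
    · rw [pow_one, pow_one]
      exact wt_mono (fun l => wx_mono (ENNReal.ofReal_le_ofReal hy) l) _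
    · exact le_rfl

private theorem iter_step (h : GoodX x) {f : ℝ → ℝ}
    (hf : ∀ k : ℕ, 1 ≤ k → f (x ^ (k + 1)) ≤ x * f (x ^ k)) {k j : ℕ} (hk : 1 ≤ k) :
    f (x ^ (k + j)) ≤ x ^ j * f (x ^ k) := by
  induction j with
  | zero => simp
  | succ j ih =>
    have h1 := hf (k + j) (by omega)
    rw [← add_assoc]
    refine h1.trans ?_
    rw [pow_succ', mul_assoc]
    exact mul_le_mul_of_nonneg_left ih h.pos.le

/-- iterate `gK_step` -/
theorem gK_pow (h : GoodX x) {k j : ℕ} (hk : 1 ≤ k) : gK (x ^ (k + j)) ≤ x ^ j * gK (x ^ k) :=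
  iter_step h (f := gK) (fun _ hk => gK_step h hk) hk
theorem gD_pow (h : GoodX x) {k j : ℕ} (hk : 1 ≤ k) :
    gD (x ^ (k + j)) - 1 ≤ x ^ j * (gD (x ^ k) - 1) :=
  iter_step h (f := fun y => gD y - 1) (fun _ hk => gD_step h hk) hk
theorem yX_pow (h : GoodX x) {k j : ℕ} (hk : 1 ≤ k) :
    yX gK gD gS (x ^ (k + j)) ≤ x ^ j * yX gK gD gS (x ^ k) :=
  iter_step h (f := yX gK gD gS) (fun _ hk => yX_step h hk) hk
theorem yP_pow (h : GoodX x) {k j : ℕ} (hk : 1 ≤ k) :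
    yP gK gD gS (x ^ (k + j)) ≤ x ^ j * yP gK gD gS (x ^ k) :=
  iter_step h (f := yP gK gD gS) (fun _ hk => yP_step h hk) hk

end PGn

end
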