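import Pool.Agent.PGa.XEx
import Pool.Agent.PGm.M04
import Pool.Agent.PGm.M08
import Pool.Agent.PGm.M15
import Pool.Agent.PGm.M33
import Pool.Agent.PGm.M34

section
/-!
# Module XSYS: the symmetric rigid maps in closed form
-/

namespace PGa
open PGr
open scoped ENNReal Classical

variable {u v K D A z1 z2 : ℝ}

/-- the system of the symmetric rigid maps (helper22) -/
theorem XSys_sym {x k y1 A y : ℝ≥0∞} (hx : x ≠ 0) (hx' : x ≠ ⊤) (hk : k ≠ 0) (hk' : k ≠ ⊤)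
    (h1 : y1 ≠ 0) (h1' : y1 ≠ ⊤) (hA : A ≠ 0) (hA' : A ≠ ⊤) (hy : y ≠ 0) (hy' : y ≠ ⊤) :
    ∃ S Np Ns : ℝ≥0∞,
      RSum .C x k y1 A y = A * y * k * S ∧
      Np + Np * S = S ∧
      Ns + Esel k y (fun M => ¬ IsSer M) * (x + k * S) = S ∧
      S = A * y + Esel k y (fun M => ¬ IsSer M) * (x + k * S) + Np * S +
        Ah x k y1 S (Es k y) ∧
      RSum .X x k y1 A y = x ^ 2 * y1 * (Esel k y (fun M => ¬ IsPar M) * (1 + y1) +
        Av x k y1 S (Es k y)) ∧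
      RSum .G x k y1 A y = x ^ 2 * (1 + y1) * Esel k y (fun M => ¬ IsPar M) +
        x * k * Es k y * Ns + x * Ac x k y1 S (Es k y) :=
  PGr.sym_system hx hx' hk hk' h1 h1' hA hA' hy hy'

/-- closed forms of the three functions, as real numbers (the right sides are automatically `≥ 0`) -/
noncomputable def AhR (u v K A S : ℝ) : ℝ :=
  S / (1 + S) - A * yv u v - ev u v * (K + sv u v * S) / (1 + sv u v * ev u v)
noncomputable def AvR (u v K D z1 z2 : ℝ) : ℝ :=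
  (1 + D) * (yv u v - ev u v / (1 + ev u v)) +
    sv u v * yv u v / K * (LL u v z1 z2 (1 + K + K * D) - 1 - ev u v)
noncomputable def AcR (u v K D A S z1 z2 : ℝ) : ℝ :=
  K * (1 + D) * (yv u v - ev u v / (1 + ev u v)) +
    sv u v * yv u v * (LL u v z1 z2 (1 + A + K + K * D) - 1 - ev u v) -
    sv u v * ev u v * (S - ev u v * (K + sv u v * S) / (1 + sv u v * ev u v))

private theorem XSys_aux {a b c : ℝ} (ha : 0 ≤ a) (hb : 0 < b) (hc : 0 ≤ c) {F : ℝ≥0∞}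
    (h : ENNReal.ofReal a = ENNReal.ofReal c + ENNReal.ofReal b * F) :
    F = ENNReal.ofReal ((a - c) / b) ∧ 0 ≤ (a - c) / b := by
  have hb0 : ENNReal.ofReal b ≠ 0 := by
    rw [ne_eq, ENNReal.ofReal_eq_zero]; exact not_le.mpr hb
  have hF : F ≠ ⊤ := by
    intro hF
    rw [hF, ENNReal.mul_top hb0, add_top] at h
    exact ENNReal.ofReal_ne_top h
  have h1 := congrArg ENNReal.toReal h
  rw [ENNReal.toReal_add ENNReal.ofReal_ne_top (ENNReal.mul_ne_top ENNReal.ofReal_ne_top hF),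
    ENNReal.toReal_mul, ENNReal.toReal_ofReal ha, ENNReal.toReal_ofReal hb.le,
    ENNReal.toReal_ofReal hc] at h1
  have h2 : F.toReal = (a - c) / b := by
    rw [eq_div_iff hb.ne']; linarith
  refine ⟨?_, ?_⟩
  · rw [← h2, ENNReal.ofReal_toReal hF]
  · rw [← h2]; exact ENNReal.toReal_nonneg

private theorem XSys_ofReal_ne {a : ℝ} (ha : 0 < a) : ENNReal.ofReal a ≠ 0 := by
  rw [ne_eq, ENNReal.ofReal_eq_zero]; exact not_le.mpr ha

/-- Module XSYS.  `XSys_sym` with `x = ofReal K`, `k = ofReal s`, `y1 = ofReal D`, `A`, `y`; by `rsumC_closed` its `S` is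
`ofReal (LL (A + K) - 1)`; `reg_point` gives `Es k y = ofReal E`; `notPar_closed`, `notSer_closed`;
all terms are finite, take `toReal` and solve. `Np = S/(1+S)`, `Ns = S - E/(1+sE) (K + sS)`. -/
theorem sym_closed (h : Reg u v) (hs : sv u v ≤ 1 / 10) (hK : 0 < K) (hD : 0 < D) (hA : 0 < A)
    (he : Eig K D A z1 z2) (h1 : 0 < z1) (h2 : DomZ u v z2) {S : ℝ}
    (hS : S = LL u v z1 z2 (A + K) - 1) :
    0 ≤ S ∧
    Ah (ENNReal.ofReal K) (ENNReal.ofReal (sv u v)) (ENNReal.ofReal D) (ENNReal.ofReal S)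
      (ENNReal.ofReal (ev u v)) = ENNReal.ofReal (AhR u v K A S) ∧ 0 ≤ AhR u v K A S ∧
    Av (ENNReal.ofReal K) (ENNReal.ofReal (sv u v)) (ENNReal.ofReal D) (ENNReal.ofReal S)
      (ENNReal.ofReal (ev u v)) = ENNReal.ofReal (AvR u v K D z1 z2) ∧ 0 ≤ AvR u v K D z1 z2 ∧
    Ac (ENNReal.ofReal K) (ENNReal.ofReal (sv u v)) (ENNReal.ofReal D) (ENNReal.ofReal S)
      (ENNReal.ofReal (ev u v)) = ENNReal.ofReal (AcR u v K D A S z1 z2) ∧
      0 ≤ AcR u v K D A S z1 z2 := by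
  obtain ⟨_, _, -, -, -, -, -, -, -, -, hEs⟩ := reg_point h hs
  have s0 : 0 < sv u v := h.sv_pos
  have y0 : 0 < yv u v := h.yv_pos
  have e0 : 0 < ev u v := h.ev_pos
  obtain ⟨hC, hC0⟩ := rsumC_closed h hs hK.le hD.le hA.le he h1 h2
  obtain ⟨hX, hX0⟩ := rsumX_closed h hs hK.le hD.le hA.le he h1 h2
  obtain ⟨hG, hG0⟩ := rsumG_closed h hs hK.le hD.le hA.le he h1 h2
  obtain ⟨S', Np, Ns, q1, q2, q3, q4, q5, q6⟩ := XSys_sym (XSys_ofReal_ne hK)
    ENNReal.ofReal_ne_top (XSys_ofReal_ne s0) ENNReal.ofReal_ne_top (XSys_ofReal_ne hD)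
    ENNReal.ofReal_ne_top (XSys_ofReal_ne hA) ENNReal.ofReal_ne_top (XSys_ofReal_ne y0)
    ENNReal.ofReal_ne_top
  rw [hC] at q1
  rw [hX] at q5
  rw [hG] at q6
  rw [← hS] at q1 hC0
  rw [hEs, notPar_closed s0 e0 hEs] at q5 q6
  rw [notSer_closed s0 e0 hEs] at q3 q4
  rw [hEs] at q4
  unfold AhR AvR AcR
  generalize sv u v = s at *
  generalize yv u v = y at *
  generalize ev u v = E at *
  have hP0 : 0 ≤ E / (1 + E) := by positivity
  have hQ0 : 0 ≤ E / (1 + s * E) := by positivity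
  -- the value of `S'`
  have a1 : S' = ENNReal.ofReal S := by
    have b0 : 0 < A * y * s := by positivity
    have b1 : ENNReal.ofReal (A * y * s * S) = ENNReal.ofReal 0 + ENNReal.ofReal (A * y * s) * S' := by
      rw [q1, ENNReal.ofReal_zero, zero_add, ENNReal.ofReal_mul (by positivity),
        ENNReal.ofReal_mul hA.le]
    have b2 := (XSys_aux (by positivity) b0 le_rfl b1).1
    rw [b2]
    congr 1
    field_simp
    ring
  subst a1
  have a2 : ENNReal.ofReal (E / (1 + s * E)) * (ENNReal.ofReal K + ENNReal.ofReal s *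
      ENNReal.ofReal S) = ENNReal.ofReal (E / (1 + s * E) * (K + s * S)) := by
    rw [← ENNReal.ofReal_mul s0.le, ← ENNReal.ofReal_add hK.le (by positivity),
      ← ENNReal.ofReal_mul hQ0]
  rw [a2] at q3 q4
  have hR0 : 0 ≤ E / (1 + s * E) * (K + s * S) := by positivity
  have a3 : Np = ENNReal.ofReal ((S - 0) / (1 + S)) := by
    refine (XSys_aux hC0 (by linarith) le_rfl ?_).1
    rw [ENNReal.ofReal_zero, zero_add, ENNReal.ofReal_add zero_le_one hC0, ENNReal.ofReal_one,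
      add_mul, one_mul, mul_comm (ENNReal.ofReal S) Np]
    exact q2.symm
  rw [sub_zero] at a3
  obtain ⟨a4, a4'⟩ := XSys_aux (F := Ns) hC0 one_pos hR0 (by
    rw [ENNReal.ofReal_one, one_mul, add_comm]; exact q3.symm)
  rw [div_one] at a4 a4'
  subst a3
  subst a4
  have hN0 : 0 ≤ S / (1 + S) := by positivity
  refine ⟨hC0, ?_⟩
  -- `Ah`
  have c1 := XSys_aux (a := S) (b := 1)
    (c := A * y + E / (1 + s * E) * (K + s * S) + S / (1 + S) * S)
    (F := Ah (ENNReal.ofReal K) (ENNReal.ofReal s) (ENNReal.ofReal D) (ENNReal.ofReal S)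
      (ENNReal.ofReal E)) hC0 one_pos (by positivity) (by
      rw [ENNReal.ofReal_one, one_mul, ENNReal.ofReal_add (by positivity) (by positivity),
        ENNReal.ofReal_add (by positivity) (by positivity), ENNReal.ofReal_mul hA.le,
        ENNReal.ofReal_mul hN0]
      exact q4)
  -- `Av`
  have c2 := XSys_aux (a := K * D * y * (K + K * D) + K * D * (s * y *
      (LL u v z1 z2 (1 + K + K * D) - 1 - E))) (b := K ^ 2 * D)
    (c := K ^ 2 * D * (E / (1 + E) * (1 + D)))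
    (F := Av (ENNReal.ofReal K) (ENNReal.ofReal s) (ENNReal.ofReal D) (ENNReal.ofReal S)
      (ENNReal.ofReal E)) (by positivity) (by positivity) (by positivity) (by
      rw [q5, mul_add]
      congr 1
      · rw [ENNReal.ofReal_mul (by positivity), ENNReal.ofReal_mul (by positivity),
          ENNReal.ofReal_pow hK.le, ENNReal.ofReal_mul hP0, ENNReal.ofReal_add zero_le_one hD.le,
          ENNReal.ofReal_one]
      · rw [ENNReal.ofReal_mul (by positivity), ENNReal.ofReal_pow hK.le])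
  -- `Ac`
  have c3 := XSys_aux (a := K * y * (K + K * D) + K * (s * y *
      (LL u v z1 z2 (1 + A + K + K * D) - 1 - E))) (b := K)
    (c := K ^ 2 * (1 + D) * (E / (1 + E)) + K * s * E * (S - E / (1 + s * E) * (K + s * S)))
    (F := Ac (ENNReal.ofReal K) (ENNReal.ofReal s) (ENNReal.ofReal D) (ENNReal.ofReal S)
      (ENNReal.ofReal E)) (by positivity) hK (by positivity) (by
      rw [q6]
      congr 1
      rw [ENNReal.ofReal_add (by positivity) (by positivity)]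
      congr 1
      · rw [ENNReal.ofReal_mul (by positivity), ENNReal.ofReal_mul (by positivity),
          ENNReal.ofReal_pow hK.le, ENNReal.ofReal_add zero_le_one hD.le, ENNReal.ofReal_one]
      · rw [ENNReal.ofReal_mul (by positivity), ENNReal.ofReal_mul (by positivity),
          ENNReal.ofReal_mul hK.le])
  obtain ⟨c1, c1'⟩ := c1
  obtain ⟨c2, c2'⟩ := c2
  obtain ⟨c3, c3'⟩ := c3
  have hS1 : 1 + S ≠ 0 := by positivity
  have hE1 : 1 + E ≠ 0 := by positivity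
  have hsE : 1 + s * E ≠ 0 := by positivity
  have d1 : (S - (A * y + E / (1 + s * E) * (K + s * S) + S / (1 + S) * S)) / 1 =
      S / (1 + S) - A * y - E * (K + s * S) / (1 + s * E) := by
    field_simp
    ring
  have d2 : (K * D * y * (K + K * D) + K * D * (s * y *
      (LL u v z1 z2 (1 + K + K * D) - 1 - E)) - K ^ 2 * D * (E / (1 + E) * (1 + D))) /
      (K ^ 2 * D) = (1 + D) * (y - E / (1 + E)) + s * y / K *
      (LL u v z1 z2 (1 + K + K * D) - 1 - E) := by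
    field_simp
    ring
  have d3 : (K * y * (K + K * D) + K * (s * y *
      (LL u v z1 z2 (1 + A + K + K * D) - 1 - E)) - (K ^ 2 * (1 + D) * (E / (1 + E)) +
      K * s * E * (S - E / (1 + s * E) * (K + s * S)))) / K =
      K * (1 + D) * (y - E / (1 + E)) + s * y * (LL u v z1 z2 (1 + A + K + K * D) - 1 - E) -
      s * E * (S - E * (K + s * S) / (1 + s * E)) := by
    field_simp
    ring
  rw [d1] at c1 c1'
  rw [d2] at c2 c2'
  rw [d3] at c3 c3'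
  exact ⟨c1, c1', c2, c2', c3, c3'⟩

end PGa

end

section
/-! # Module EVal2: the values of the generating functions (reflections) -/

set_option linter.unusedSectionVars false

namespace PGr
open Real
open scoped ENNReal

theorem EVal2_reg {s E u v : ℝ} (h : UV s E u v) :
    PGa.Reg u v ∧ PGa.sv u v = s ∧ PGa.ev u v = E := by
  obtain ⟨h1, h2, h3, h4, h5⟩ := h
  have hp : 0 < u * v := mul_pos h1 h2
  have hu : 0 < 1 - u := by nlinarith
  have hv : 0 < 1 - v := by nlinarith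
  refine ⟨⟨h1, h2, h3⟩, ?_, ?_⟩
  · unfold PGa.sv
    rw [← h4]
    field_simp
  · unfold PGa.ev
    rw [← h5]
    field_simp

theorem EVal2_sq {k d A : ℝ} (hk : 0 < k) (hd : 0 < d) (hA : 0 < A) :
    0 < (1 + A + k + k * d) ^ 2 - 4 * (A * (1 + k * d)) := by
  have h1 : (1 + A + k + k * d) ^ 2 - 4 * (A * (1 + k * d)) =
      (1 + k * d - A) ^ 2 + 2 * k * (1 + k * d + A) + k ^ 2 := by ring
  rw [h1]
  positivity

theorem EVal2_eig {k d A : ℝ} (hk : 0 < k) (hd : 0 < d) (hA : 0 < A) :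
    PGa.Eig k d A (eZ1 k d A) (eZ2 k d A) ∧ 0 < eZ1 k d A ∧ eZ2 k d A - eZ1 k d A = eDl k d A := by
  have h0 := EVal2_sq hk hd hA
  have h1 : 0 < eDl k d A := Real.sqrt_pos.2 h0
  have h2 : eDl k d A ^ 2 = (1 + A + k + k * d) ^ 2 - 4 * (A * (1 + k * d)) := Real.sq_sqrt h0.le
  have h3 : eZ2 k d A - eZ1 k d A = eDl k d A := by
    unfold eZ1 eZ2
    ring
  have h4 : eZ1 k d A * eZ2 k d A = A * (1 + k * d) := by
    unfold eZ1 eZ2
    linear_combination -(1 / 4) * h2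
  refine ⟨⟨by linarith, ?_, h4⟩, ?_, h3⟩
  · unfold eZ1 eZ2
    ring
  · have h5 : 0 < eZ2 k d A := by
      have : 0 < 1 + A + k + k * d := by positivity
      unfold eZ2
      linarith
    have h6 : 0 < eZ1 k d A * eZ2 k d A := by
      rw [h4]
      positivity
    exact (pos_iff_pos_of_mul_pos h6).2 h5

/-- uniqueness of the eigenvalues -/
theorem EVal2_eq {k d A z1 z2 : ℝ} (hk : 0 < k) (hd : 0 < d) (hA : 0 < A)
    (h : PGa.Eig k d A z1 z2) : z1 = eZ1 k d A ∧ z2 = eZ2 k d A := by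
  obtain ⟨⟨e1, e2, e3⟩, -, e4⟩ := EVal2_eig hk hd hA
  have h1 : z2 - z1 = eDl k d A := by
    have h2 : (z2 - z1) ^ 2 = eDl k d A ^ 2 := by
      have h3 : (z2 - z1) ^ 2 = (z1 + z2) ^ 2 - 4 * (z1 * z2) := by ring
      rw [h3, h.sum, h.prod, eDl, Real.sq_sqrt (EVal2_sq hk hd hA).le]
    have h5 : 0 < z2 - z1 := by linarith [h.lt]
    have h6 : 0 < eDl k d A := Real.sqrt_pos.2 (EVal2_sq hk hd hA)
    nlinarith
  have h2 := h.sum
  unfold eZ1 eZ2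
  constructor <;> linarith

theorem EVal2_LL {k d A : ℝ} (hk : 0 < k) (hd : 0 < d) (hA : 0 < A) (u v z : ℝ) :
    PGa.LL u v (eZ1 k d A) (eZ2 k d A) z = eL k d A u v z := by
  unfold PGa.LL eL
  rw [(EVal2_eig hk hd hA).2.2, add_comm]
  rfl

theorem refl_val {k d c s E u v A : ℝ} (hk : 0 < k) (hd : 0 < d) (huv : UV s E u v)
    (hs : s ≤ 1 / 10) (hA : RA k d c A u v) :
    rAh k s d c E = eAh k c A s E u v ∧ rAv k s d c E = eAv k d A s E u v ∧
      rAc k s d c E = eAc k d c A s E u v := by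
  obtain ⟨hr, rfl, rfl⟩ := EVal2_reg huv
  obtain ⟨hA0, h1, h2, h3⟩ := hA
  obtain ⟨he, hz, -⟩ := EVal2_eig hk hd hA0
  obtain ⟨-, a1, a2, b1, b2, c1, c2⟩ := PGa.sym_closed hr hs hk hd hA0 he hz
    ⟨hz.trans he.lt, h1, h2⟩ (S := c) (by rw [EVal2_LL hk hd hA0]; linarith)
  refine ⟨?_, ?_, ?_⟩
  · unfold rAh
    rw [a1, ENNReal.toReal_ofReal a2]
    rfl
  · unfold rAv
    rw [b1, ENNReal.toReal_ofReal b2, PGa.AvR, EVal2_LL hk hd hA0]
    rfl
  · unfold rAc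
    rw [c1, ENNReal.toReal_ofReal c2, PGa.AcR, EVal2_LL hk hd hA0]
    rfl

theorem exists_RA {k d c s E u v : ℝ} (hk : 0 < k) (hk' : k ≤ 1 / 20) (hd : 1 ≤ d)
    (hd' : d ≤ 9 / 8) (hc : 1 ≤ c) (hc' : c ≤ 9 / 8) (hs' : s ≤ 1 / 400) (hE : 1 ≤ E)
    (hE' : E ≤ 101 / 100) (huv : UV s E u v) : ∃ A, RA k d c A u v := by
  obtain ⟨hr, rfl, rfl⟩ := EVal2_reg huv
  obtain ⟨A, z1, z2, h1, -, h3, h4, -, h6, h7⟩ := PGa.exists_A_box hr hs' hE hE' hk hk'
    (by linarith) hd' (by linarith) hc'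
  have hA0 : 0 < A := by linarith
  have hd0 : 0 < d := by linarith
  obtain ⟨e1, e2⟩ := EVal2_eq hk hd0 hA0 h3
  rw [e1, e2] at h7
  rw [e2] at h6
  refine ⟨A, hA0, h6.a, h6.d, ?_⟩
  rw [EVal2_LL hk hd0 hA0] at h7
  linarith

end PGr

end

section
/-! # Module Mono: monotonicity of the generating functions of rigid maps -/

set_option linter.unusedSectionVars false

namespace PGn
open PGr Real
open scoped ENNReal Classical

section
variable {k k' k2 k2' d d' s s' d2 d2' : ℝ≥0∞}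

private theorem Mono_w (M : BMap) (σ : Equiv.Perm M.T) (h1 : k ≤ k') (h2 : k2 ≤ k2') (h3 : d ≤ d')
    (h4 : s ≤ s') (h5 : d2 ≤ d2') : symW M σ k k2 d s d2 ≤ symW M σ k' k2' d' s' d2' := by
  unfold symW
  gcongr

private theorem Mono_w0 (M : BMap) (σ : Equiv.Perm M.T) (h1 : k ≤ k') (h2 : k2 ≤ k2')
    (h3 : d ≤ d') (h4 : s ≤ s') (h5 : d2 ≤ d2') :
    symW0 M σ k k2 d s d2 ≤ symW0 M σ k' k2' d' s' d2' := by
  unfold symW0
  gcongr

theorem Av_mono (h1 : k ≤ k') (h2 : k2 ≤ k2') (h3 : d ≤ d') (h4 : s ≤ s') (h5 : d2 ≤ d2') :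
    Av k k2 d s d2 ≤ Av k' k2' d' s' d2' := by
  unfold Av
  refine ENNReal.tsum_le_tsum fun c => Finset.sum_le_sum fun σ _ => ?_
  split_ifs
  · exact Mono_w c.rep.1 σ h1 h2 h3 h4 h5
  · exact le_rfl
theorem Ah_mono (h1 : k ≤ k') (h2 : k2 ≤ k2') (h3 : d ≤ d') (h4 : s ≤ s') (h5 : d2 ≤ d2') :
    Ah k k2 d s d2 ≤ Ah k' k2' d' s' d2' := by
  unfold Ah
  refine ENNReal.tsum_le_tsum fun c => Finset.sum_le_sum fun σ _ => ?_
  split_ifs
  · exact Mono_w c.rep.1 σ h1 h2 h3 h4 h5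
  · exact le_rfl
theorem Ac_mono (h1 : k ≤ k') (h2 : k2 ≤ k2') (h3 : d ≤ d') (h4 : s ≤ s') (h5 : d2 ≤ d2') :
    Ac k k2 d s d2 ≤ Ac k' k2' d' s' d2' := by
  unfold Ac
  refine ENNReal.tsum_le_tsum fun c => Finset.sum_le_sum fun σ _ => ?_
  split_ifs
  · exact Mono_w0 c.rep.1 σ h1 h2 h3 h4 h5
  · exact le_rfl
theorem Api_mono (h1 : k ≤ k') (h2 : k2 ≤ k2') (h3 : d ≤ d') (h4 : s ≤ s') (h5 : d2 ≤ d2') :
    Api k k2 d s d2 ≤ Api k' k2' d' s' d2' := by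
  unfold Api
  refine ENNReal.tsum_le_tsum fun c => Finset.sum_le_sum fun σ _ => ?_
  split_ifs
  · exact Mono_w c.rep.1 σ h1 h2 h3 h4 h5
  · exact le_rfl
theorem Q1_mono {x x' E E' : ℝ≥0∞} (h1 : x ≤ x') (h2 : E ≤ E') : Q1 x E ≤ Q1 x' E' := by
  unfold Q1
  refine ENNReal.tsum_le_tsum fun c => ?_
  split_ifs
  · gcongr
  · exact le_rfl
theorem Qk_mono (j : ℕ) {x x' E E' : ℝ≥0∞} (h1 : k ≤ k') (h2 : x ≤ x') (h3 : d ≤ d')
    (h4 : E ≤ E') : Qk j k x d E ≤ Qk j k' x' d' E' := by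
  unfold Qk rotW
  refine ENNReal.tsum_le_tsum fun c => Finset.sum_le_sum fun σ _ => ?_
  split_ifs
  · gcongr
  · exact le_rfl

end

section
variable {k k' k2 k2' d d' s s' d2 d2' : ℝ}

theorem rAv_mono (hf : Av (ENNReal.ofReal k') (ENNReal.ofReal k2') (ENNReal.ofReal d')
    (ENNReal.ofReal s') (ENNReal.ofReal d2') ≠ ⊤) (h1 : k ≤ k') (h2 : k2 ≤ k2') (h3 : d ≤ d')
    (h4 : s ≤ s') (h5 : d2 ≤ d2') : rAv k k2 d s d2 ≤ rAv k' k2' d' s' d2' :=
  ENNReal.toReal_mono hf (Av_mono (ENNReal.ofReal_le_ofReal h1) (ENNReal.ofReal_le_ofReal h2)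
    (ENNReal.ofReal_le_ofReal h3) (ENNReal.ofReal_le_ofReal h4) (ENNReal.ofReal_le_ofReal h5))
theorem rAh_mono (hf : Ah (ENNReal.ofReal k') (ENNReal.ofReal k2') (ENNReal.ofReal d')
    (ENNReal.ofReal s') (ENNReal.ofReal d2') ≠ ⊤) (h1 : k ≤ k') (h2 : k2 ≤ k2') (h3 : d ≤ d')
    (h4 : s ≤ s') (h5 : d2 ≤ d2') : rAh k k2 d s d2 ≤ rAh k' k2' d' s' d2' :=
  ENNReal.toReal_mono hf (Ah_mono (ENNReal.ofReal_le_ofReal h1) (ENNReal.ofReal_le_ofReal h2)
    (ENNReal.ofReal_le_ofReal h3) (ENNReal.ofReal_le_ofReal h4) (ENNReal.ofReal_le_ofReal h5))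
theorem rAc_mono (hf : Ac (ENNReal.ofReal k') (ENNReal.ofReal k2') (ENNReal.ofReal d')
    (ENNReal.ofReal s') (ENNReal.ofReal d2') ≠ ⊤) (h1 : k ≤ k') (h2 : k2 ≤ k2') (h3 : d ≤ d')
    (h4 : s ≤ s') (h5 : d2 ≤ d2') : rAc k k2 d s d2 ≤ rAc k' k2' d' s' d2' :=
  ENNReal.toReal_mono hf (Ac_mono (ENNReal.ofReal_le_ofReal h1) (ENNReal.ofReal_le_ofReal h2)
    (ENNReal.ofReal_le_ofReal h3) (ENNReal.ofReal_le_ofReal h4) (ENNReal.ofReal_le_ofReal h5))
theorem rApi_mono (hf : Api (ENNReal.ofReal k') (ENNReal.ofReal k2') (ENNReal.ofReal d')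
    (ENNReal.ofReal s') (ENNReal.ofReal d2') ≠ ⊤) (h1 : k ≤ k') (h2 : k2 ≤ k2') (h3 : d ≤ d')
    (h4 : s ≤ s') (h5 : d2 ≤ d2') : rApi k k2 d s d2 ≤ rApi k' k2' d' s' d2' :=
  ENNReal.toReal_mono hf (Api_mono (ENNReal.ofReal_le_ofReal h1) (ENNReal.ofReal_le_ofReal h2)
    (ENNReal.ofReal_le_ofReal h3) (ENNReal.ofReal_le_ofReal h4) (ENNReal.ofReal_le_ofReal h5))
theorem rQk_mono (j : ℕ) {x x' E E' : ℝ} (hf : Qk j (ENNReal.ofReal k') (ENNReal.ofReal x')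
    (ENNReal.ofReal d') (ENNReal.ofReal E') ≠ ⊤) (h1 : k ≤ k') (h2 : x ≤ x') (h3 : d ≤ d')
    (h4 : E ≤ E') : rQk j k x d E ≤ rQk j k' x' d' E' :=
  ENNReal.toReal_mono hf (Qk_mono j (ENNReal.ofReal_le_ofReal h1) (ENNReal.ofReal_le_ofReal h2)
    (ENNReal.ofReal_le_ofReal h3) (ENNReal.ofReal_le_ofReal h4))

end

end PGn

end

section
/-! # Module Corner: the closed form with rational parameters

`u`, `v`, `w1`, `w2`, `A` rational; `z_i = zw u v w_i`, `Xz z_i = xw u v w_i` are rational, and so are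
`K = -(A - z1)(A - z2) / A`, `D = (z1 z2 / A - 1) / K`, `S`, and the values of `Av`, `Ah`, `Ac`. -/

set_option linter.unusedSectionVars false

namespace PGn
open PGr PGa Real
open scoped ENNReal

section
variable (u v w1 w2 A : ℝ)

noncomputable def cK : ℝ := -((A - zw u v w1) * (A - zw u v w2)) / A
noncomputable def cD : ℝ := (zw u v w1 * zw u v w2 / A - 1) / cK u v w1 w2 A
/-- the linear function -/
noncomputable def cL (x : ℝ) : ℝ :=
  (xw u v w1 * (zw u v w2 - x) + xw u v w2 * (x - zw u v w1)) / (zw u v w2 - zw u v w1)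
noncomputable def cS : ℝ := cL u v w1 w2 (A + cK u v w1 w2 A) - 1
noncomputable def cAh : ℝ :=
  cS u v w1 w2 A / (1 + cS u v w1 w2 A) - A * yv u v -
    ev u v * (cK u v w1 w2 A + sv u v * cS u v w1 w2 A) / (1 + sv u v * ev u v)
noncomputable def cAv : ℝ :=
  (1 + cD u v w1 w2 A) * (yv u v - ev u v / (1 + ev u v)) +
    sv u v * yv u v / cK u v w1 w2 A *
      (cL u v w1 w2 (1 + cK u v w1 w2 A + cK u v w1 w2 A * cD u v w1 w2 A) - 1 - ev u v)
noncomputable def cAc : ℝ :=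
  cK u v w1 w2 A * (1 + cD u v w1 w2 A) * (yv u v - ev u v / (1 + ev u v)) +
    sv u v * yv u v *
      (cL u v w1 w2 (1 + A + cK u v w1 w2 A + cK u v w1 w2 A * cD u v w1 w2 A) - 1 - ev u v) -
    sv u v * ev u v * (cS u v w1 w2 A -
      ev u v * (cK u v w1 w2 A + sv u v * cS u v w1 w2 A) / (1 + sv u v * ev u v))

/-- admissible parameters -/
structure CP : Prop where
  reg : Reg u v
  s : sv u v ≤ 1 / 10
  dw1 : DomW u v w1
  dw2 : DomW u v w2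
  zA : zw u v w1 < A
  Az : A < zw u v w2
  D : A < zw u v w1 * zw u v w2

end

variable {u v w1 w2 A : ℝ}

private theorem Corner_eq {w1 w2 : ℝ} (h1 : Reg u v) (hw1 : DomW u v w1) (hw2 : DomW u v w2) (x : ℝ) :
    LL u v (zw u v w1) (zw u v w2) x = cL u v w1 w2 x := by
  unfold LL cL Xz
  rw [(zw_dom h1 hw1).2, (zw_dom h1 hw2).2]

private theorem Corner_pos (h : CP u v w1 w2 A) :
    0 < zw u v w1 ∧ 0 < zw u v w2 ∧ 0 < A ∧ 0 < cK u v w1 w2 A ∧ 0 < cD u v w1 w2 A := by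
  have z1 : 0 < zw u v w1 := (zw_dom h.reg h.dw1).1.z0
  have z2 : 0 < zw u v w2 := (zw_dom h.reg h.dw2).1.z0
  have hA : 0 < A := z1.trans h.zA
  have hK : 0 < cK u v w1 w2 A := by
    unfold cK
    apply div_pos _ hA
    have := mul_pos (sub_pos.2 h.zA) (sub_pos.2 h.Az)
    linarith
  refine ⟨z1, z2, hA, hK, ?_⟩
  unfold cD
  apply div_pos _ hK
  rw [sub_pos, lt_div_iff₀ hA, one_mul]
  exact h.D

/-- `sym_closed` with `z1 = zw u v w1`, `z2 = zw u v w2` (`zw_dom`: `Xz u v (zw u v w) = xw u v w`), `Eig`: `K + K D = z1 + z2 - 1 - A`, `A (1 + K D) = z1 z2` -/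
theorem corner_val (h : CP u v w1 w2 A) :
    0 < cK u v w1 w2 A ∧ 0 < cD u v w1 w2 A ∧ 0 ≤ cS u v w1 w2 A ∧
    (Av (ENNReal.ofReal (cK u v w1 w2 A)) (ENNReal.ofReal (sv u v))
      (ENNReal.ofReal (cD u v w1 w2 A)) (ENNReal.ofReal (cS u v w1 w2 A))
      (ENNReal.ofReal (ev u v)) = ENNReal.ofReal (cAv u v w1 w2 A) ∧ 0 ≤ cAv u v w1 w2 A) ∧
    (Ah (ENNReal.ofReal (cK u v w1 w2 A)) (ENNReal.ofReal (sv u v))
      (ENNReal.ofReal (cD u v w1 w2 A)) (ENNReal.ofReal (cS u v w1 w2 A))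
      (ENNReal.ofReal (ev u v)) = ENNReal.ofReal (cAh u v w1 w2 A) ∧ 0 ≤ cAh u v w1 w2 A) ∧
    (Ac (ENNReal.ofReal (cK u v w1 w2 A)) (ENNReal.ofReal (sv u v))
      (ENNReal.ofReal (cD u v w1 w2 A)) (ENNReal.ofReal (cS u v w1 w2 A))
      (ENNReal.ofReal (ev u v)) = ENNReal.ofReal (cAc u v w1 w2 A) ∧ 0 ≤ cAc u v w1 w2 A) := by
  obtain ⟨z1, z2, hA, hK, hD⟩ := Corner_pos h
  have hKD : cK u v w1 w2 A * cD u v w1 w2 A = zw u v w1 * zw u v w2 / A - 1 := by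
    conv_lhs => rw [cD]
    rw [mul_div_cancel₀ _ hK.ne']
  have he : Eig (cK u v w1 w2 A) (cD u v w1 w2 A) A (zw u v w1) (zw u v w2) := by
    refine ⟨h.zA.trans h.Az, ?_, ?_⟩
    · rw [hKD]
      unfold cK
      field_simp
      ring
    · rw [hKD]
      field_simp
      ring
  have hL := Corner_eq h.reg h.dw1 h.dw2
  obtain ⟨k1, k2, k3, k4, k5, k6, k7⟩ := sym_closed h.reg h.s hK hD hA he z1 (zw_dom h.reg h.dw2).1
    (S := cS u v w1 w2 A) (by rw [hL]; rfl)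
  have eh : AhR u v (cK u v w1 w2 A) A (cS u v w1 w2 A) = cAh u v w1 w2 A := rfl
  have ev' : AvR u v (cK u v w1 w2 A) (cD u v w1 w2 A) (zw u v w1) (zw u v w2) = cAv u v w1 w2 A := by
    unfold AvR cAv
    rw [hL]
  have ec : AcR u v (cK u v w1 w2 A) (cD u v w1 w2 A) A (cS u v w1 w2 A) (zw u v w1) (zw u v w2) =
      cAc u v w1 w2 A := by
    unfold AcR cAc
    rw [hL]
  rw [eh] at k2 k3
  rw [ev'] at k4 k5
  rw [ec] at k6 k7
  exact ⟨hK, hD, k1, ⟨k4, k5⟩, ⟨k2, k3⟩, ⟨k6, k7⟩⟩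

variable {K K2 D S D2 av ah ac : ℝ}

theorem fin_of (h : CP u v w1 w2 A) (hK : K ≤ cK u v w1 w2 A) (h2 : K2 ≤ sv u v)
    (hD : D ≤ cD u v w1 w2 A) (hS : S ≤ cS u v w1 w2 A) (hE : D2 ≤ ev u v) :
    Av (ENNReal.ofReal K) (ENNReal.ofReal K2) (ENNReal.ofReal D) (ENNReal.ofReal S)
      (ENNReal.ofReal D2) ≠ ⊤ ∧
    Ah (ENNReal.ofReal K) (ENNReal.ofReal K2) (ENNReal.ofReal D) (ENNReal.ofReal S)
      (ENNReal.ofReal D2) ≠ ⊤ ∧
    Ac (ENNReal.ofReal K) (ENNReal.ofReal K2) (ENNReal.ofReal D) (ENNReal.ofReal S)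
      (ENNReal.ofReal D2) ≠ ⊤ := by
  obtain ⟨-, -, -, ⟨k1, -⟩, ⟨k2, -⟩, ⟨k3, -⟩⟩ := corner_val h
  have o := fun {a b : ℝ} (hab : a ≤ b) => ENNReal.ofReal_le_ofReal hab
  refine ⟨?_, ?_, ?_⟩
  · refine ne_top_of_le_ne_top ?_ (Av_mono (o hK) (o h2) (o hD) (o hS) (o hE))
    rw [k1]
    exact ENNReal.ofReal_ne_top
  · refine ne_top_of_le_ne_top ?_ (Ah_mono (o hK) (o h2) (o hD) (o hS) (o hE))
    rw [k2]
    exact ENNReal.ofReal_ne_top
  · refine ne_top_of_le_ne_top ?_ (Ac_mono (o hK) (o h2) (o hD) (o hS) (o hE))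
    rw [k3]
    exact ENNReal.ofReal_ne_top

/-- monotonicity (`rAv_mono` etc.) -/
theorem up_of (h : CP u v w1 w2 A) (hK : K ≤ cK u v w1 w2 A) (h2 : K2 ≤ sv u v)
    (hD : D ≤ cD u v w1 w2 A) (hS : S ≤ cS u v w1 w2 A) (hE : D2 ≤ ev u v)
    (h3 : cAv u v w1 w2 A ≤ av) (h4 : cAh u v w1 w2 A ≤ ah) (h5 : cAc u v w1 w2 A ≤ ac) :
    UpC K K2 D S D2 av ah ac := by
  obtain ⟨-, -, -, ⟨k1, k1'⟩, ⟨k2, k2'⟩, ⟨k3, k3'⟩⟩ := corner_val h
  obtain ⟨f1, f2, f3⟩ := fin_of h le_rfl le_rfl le_rfl le_rfl le_rfl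
  intro k q d s e hk hq hd hs he
  refine ⟨?_, ?_, ?_⟩
  · refine (rAv_mono f1 (hk.trans hK) (hq.trans h2) (hd.trans hD) (hs.trans hS) (he.trans hE)).trans ?_
    unfold rAv
    rw [k1, ENNReal.toReal_ofReal k1']
    exact h3
  · refine (rAh_mono f2 (hk.trans hK) (hq.trans h2) (hd.trans hD) (hs.trans hS) (he.trans hE)).trans ?_
    unfold rAh
    rw [k2, ENNReal.toReal_ofReal k2']
    exact h4
  · refine (rAc_mono f3 (hk.trans hK) (hq.trans h2) (hd.trans hD) (hs.trans hS) (he.trans hE)).trans ?_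
    unfold rAc
    rw [k3, ENNReal.toReal_ofReal k3']
    exact h5

private theorem Corner_CP : CP (1 / 100) (13 / 25) (79 / 100) (127 / 100) (93 / 100) where
  reg := ⟨by norm_num, by norm_num, by norm_num⟩
  s := by norm_num [PGa.sv]
  dw1 := ⟨by norm_num, by norm_num [aa], by norm_num [aa, PGa.bb]⟩
  dw2 := ⟨by norm_num, by norm_num [aa], by norm_num [aa, PGa.bb]⟩
  zA := by norm_num [zw, aa, PGa.bb]
  Az := by norm_num [zw, aa, PGa.bb]
  D := by norm_num [zw, aa, PGa.bb]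

/-- finiteness in the box of `LoC`: `fin_of` with `u = 1/100`, `v = 13/25`, `w1 = 79/100`, `w2 = 127/100`, `A = 93/100`
(`K = 0.0503..`, `s = 0.0045..`, `D = 1.298..`, `S = 1.1629..`, `E = 1.0607..`) -/
theorem fin_box : Av (ENNReal.ofReal (1 / 20)) (ENNReal.ofReal (1 / 400)) (ENNReal.ofReal (9 / 8))
      (ENNReal.ofReal (9 / 8)) (ENNReal.ofReal (101 / 100)) ≠ ⊤ ∧
    Ah (ENNReal.ofReal (1 / 20)) (ENNReal.ofReal (1 / 400)) (ENNReal.ofReal (9 / 8))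
      (ENNReal.ofReal (9 / 8)) (ENNReal.ofReal (101 / 100)) ≠ ⊤ ∧
    Ac (ENNReal.ofReal (1 / 20)) (ENNReal.ofReal (1 / 400)) (ENNReal.ofReal (9 / 8))
      (ENNReal.ofReal (9 / 8)) (ENNReal.ofReal (101 / 100)) ≠ ⊤ :=
  fin_of Corner_CP (by norm_num [cK, zw, aa, PGa.bb]) (by norm_num [PGa.sv])
    (by norm_num [cD, cK, zw, aa, PGa.bb]) (by norm_num [cS, cL, xw, cK, zw, aa, PGa.bb]) (by norm_num [PGa.ev])

/-- monotonicity, `fin_box` -/
theorem lo_of (h : CP u v w1 w2 A) (hK : cK u v w1 w2 A ≤ K) (h2 : sv u v ≤ K2)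
    (hD : cD u v w1 w2 A ≤ D) (hS : cS u v w1 w2 A ≤ S) (hE : ev u v ≤ D2)
    (h3 : av ≤ cAv u v w1 w2 A) (h4 : ah ≤ cAh u v w1 w2 A) (h5 : ac ≤ cAc u v w1 w2 A) :
    LoC K K2 D S D2 av ah ac := by
  obtain ⟨-, -, -, ⟨k1, k1'⟩, ⟨k2, k2'⟩, ⟨k3, k3'⟩⟩ := corner_val h
  obtain ⟨f1, f2, f3⟩ := fin_box
  have o := fun {a b : ℝ} (hab : a ≤ b) => ENNReal.ofReal_le_ofReal hab
  intro k q d s e hk hq hd hs he bk bq bd bs be
  refine ⟨?_, ?_, ?_⟩
  · refine h3.trans (le_trans (le_of_eq ?_) (rAv_mono (ne_top_of_le_ne_top f1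
      (Av_mono (o bk) (o bq) (o bd) (o bs) (o be))) (hK.trans hk) (h2.trans hq) (hD.trans hd)
      (hS.trans hs) (hE.trans he)))
    unfold rAv
    rw [k1, ENNReal.toReal_ofReal k1']
  · refine h4.trans (le_trans (le_of_eq ?_) (rAh_mono (ne_top_of_le_ne_top f2
      (Ah_mono (o bk) (o bq) (o bd) (o bs) (o be))) (hK.trans hk) (h2.trans hq) (hD.trans hd)
      (hS.trans hs) (hE.trans he)))
    unfold rAh
    rw [k2, ENNReal.toReal_ofReal k2']
  · refine h5.trans (le_trans (le_of_eq ?_) (rAc_mono (ne_top_of_le_ne_top f3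
      (Ac_mono (o bk) (o bq) (o bd) (o bs) (o be))) (hK.trans hk) (h2.trans hq) (hD.trans hd)
      (hS.trans hs) (hE.trans he)))
    unfold rAc
    rw [k3, ENNReal.toReal_ofReal k3']

end PGn

end

section
/-! # Module Cor0: the corners of the first step (rational arithmetic) -/

set_option linter.unusedSectionVars false

namespace PGn
open PGr PGa

private theorem cp0_up : CP (295757 / 100000000) (50263681 / 100000000) (2069701 / 2500000)
    (61522209 / 50000000) (760549 / 781250) := by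
  refine ⟨⟨by norm_num, by norm_num, by norm_num⟩, by norm_num [PGa.sv],
    ⟨by norm_num, by norm_num [PGa.aa], by norm_num [PGa.aa, PGa.bb]⟩,
    ⟨by norm_num, by norm_num [PGa.aa], by norm_num [PGa.aa, PGa.bb]⟩,
    by norm_num [zw, PGa.aa, PGa.bb], by norm_num [zw, PGa.aa, PGa.bb],
    by norm_num [zw, PGa.aa, PGa.bb]⟩

theorem cor0_up : UpC N0.Kb N0.K2b N0.Db N0.S1 N0.Dc N0.avU N0.ahU N0.acU := by
  refine up_of cp0_up ?_ ?_ ?_ ?_ ?_ ?_ ?_ ?_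
  · norm_num [N0, cK, zw, PGa.aa, PGa.bb]
  · norm_num [N0, PGa.sv]
  · norm_num [N0, cD, cK, zw, PGa.aa, PGa.bb]
  · norm_num [N0, cS, cL, cK, zw, xw, PGa.aa, PGa.bb]
  · norm_num [N0, PGa.ev]
  · norm_num [N0, cAv, cL, cD, cK, zw, xw, PGa.aa, PGa.bb, PGa.sv, PGa.ev, yv]
  · norm_num [N0, cAh, cS, cL, cK, zw, xw, PGa.aa, PGa.bb, PGa.sv, PGa.ev, yv]
  · norm_num [N0, cAc, cS, cL, cD, cK, zw, xw, PGa.aa, PGa.bb, PGa.sv, PGa.ev, yv]

private theorem cp0_lo : CP (2627 / 1000000) (5019719 / 10000000) (1604587 / 2000000)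
    (5997277 / 5000000) (9231479 / 10000000) := by
  refine ⟨⟨by norm_num, by norm_num, by norm_num⟩, by norm_num [PGa.sv],
    ⟨by norm_num, by norm_num [PGa.aa], by norm_num [PGa.aa, PGa.bb]⟩,
    ⟨by norm_num, by norm_num [PGa.aa], by norm_num [PGa.aa, PGa.bb]⟩,
    by norm_num [zw, PGa.aa, PGa.bb], by norm_num [zw, PGa.aa, PGa.bb],
    by norm_num [zw, PGa.aa, PGa.bb]⟩

theorem cor0_lo : LoC N0.Ka N0.K2a N0.Da N0.S0 N0.D2a N0.avL N0.ahL N0.acL := by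
  refine lo_of cp0_lo ?_ ?_ ?_ ?_ ?_ ?_ ?_ ?_
  · norm_num [N0, cK, zw, PGa.aa, PGa.bb]
  · norm_num [N0, PGa.sv]
  · norm_num [N0, cD, cK, zw, PGa.aa, PGa.bb]
  · norm_num [N0, cS, cL, cK, zw, xw, PGa.aa, PGa.bb]
  · norm_num [N0, PGa.ev]
  · norm_num [N0, cAv, cL, cD, cK, zw, xw, PGa.aa, PGa.bb, PGa.sv, PGa.ev, yv]
  · norm_num [N0, cAh, cS, cL, cK, zw, xw, PGa.aa, PGa.bb, PGa.sv, PGa.ev, yv]
  · norm_num [N0, cAc, cS, cL, cD, cK, zw, xw, PGa.aa, PGa.bb, PGa.sv, PGa.ev, yv]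

end PGn

end

section
/-! # Module Cor1: the corners of the second step (rational arithmetic) -/

set_option linter.unusedSectionVars false

namespace PGn
open PGr PGa

private theorem cp1_up : CP (67003 / 25000000) (50209127 / 100000000) (82075839 / 100000000)
    (122251341 / 100000000) (1200423 / 1250000) := by
  refine ⟨⟨by norm_num, by norm_num, by norm_num⟩, by norm_num [PGa.sv],
    ⟨by norm_num, by norm_num [PGa.aa], by norm_num [PGa.aa, PGa.bb]⟩,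
    ⟨by norm_num, by norm_num [PGa.aa], by norm_num [PGa.aa, PGa.bb]⟩,
    by norm_num [zw, PGa.aa, PGa.bb], by norm_num [zw, PGa.aa, PGa.bb],
    by norm_num [zw, PGa.aa, PGa.bb]⟩

theorem cor1_up : UpC N1.Kb N1.K2b N1.Db N1.S1 N1.Dc N1.avU N1.ahU N1.acU := by
  refine up_of cp1_up ?_ ?_ ?_ ?_ ?_ ?_ ?_ ?_
  · norm_num [N1, cK, zw, PGa.aa, PGa.bb]
  · norm_num [N1, PGa.sv]
  · norm_num [N1, cD, cK, zw, PGa.aa, PGa.bb]
  · norm_num [N1, cS, cL, cK, zw, xw, PGa.aa, PGa.bb]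
  · norm_num [N1, PGa.ev]
  · norm_num [N1, cAv, cL, cD, cK, zw, xw, PGa.aa, PGa.bb, PGa.sv, PGa.ev, yv]
  · norm_num [N1, cAh, cS, cL, cK, zw, xw, PGa.aa, PGa.bb, PGa.sv, PGa.ev, yv]
  · norm_num [N1, cAc, cS, cL, cD, cK, zw, xw, PGa.aa, PGa.bb, PGa.sv, PGa.ev, yv]

private theorem cp1_lo : CP (1334143 / 500000000) (502003241 / 1000000000) (409694909 / 500000000)
    (152640661 / 125000000) (478872729 / 500000000) := by
  refine ⟨⟨by norm_num, by norm_num, by norm_num⟩, by norm_num [PGa.sv],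
    ⟨by norm_num, by norm_num [PGa.aa], by norm_num [PGa.aa, PGa.bb]⟩,
    ⟨by norm_num, by norm_num [PGa.aa], by norm_num [PGa.aa, PGa.bb]⟩,
    by norm_num [zw, PGa.aa, PGa.bb], by norm_num [zw, PGa.aa, PGa.bb],
    by norm_num [zw, PGa.aa, PGa.bb]⟩

theorem cor1_lo : LoC N1.Ka N1.K2a N1.Da N1.S0 N1.D2a N1.avL N1.ahL N1.acL := by
  refine lo_of cp1_lo ?_ ?_ ?_ ?_ ?_ ?_ ?_ ?_
  · norm_num [N1, cK, zw, PGa.aa, PGa.bb]
  · norm_num [N1, PGa.sv]
  · norm_num [N1, cD, cK, zw, PGa.aa, PGa.bb]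
  · norm_num [N1, cS, cL, cK, zw, xw, PGa.aa, PGa.bb]
  · norm_num [N1, PGa.ev]
  · norm_num [N1, cAv, cL, cD, cK, zw, xw, PGa.aa, PGa.bb, PGa.sv, PGa.ev, yv]
  · norm_num [N1, cAh, cS, cL, cK, zw, xw, PGa.aa, PGa.bb, PGa.sv, PGa.ev, yv]
  · norm_num [N1, cAc, cS, cL, cD, cK, zw, xw, PGa.aa, PGa.bb, PGa.sv, PGa.ev, yv]

end PGn

end

section
/-! # Module Cor2: the corners of the third step (rational arithmetic) -/

set_option linter.unusedSectionVars false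

namespace PGn
open PGr PGa

private theorem cp2_up : CP (1337857 / 500000000) (31376177 / 62500000) (820531817 / 1000000000)
    (244447847 / 200000000) (959895203 / 1000000000) := by
  refine ⟨⟨by norm_num, by norm_num, by norm_num⟩, by norm_num [PGa.sv],
    ⟨by norm_num, by norm_num [PGa.aa], by norm_num [PGa.aa, PGa.bb]⟩,
    ⟨by norm_num, by norm_num [PGa.aa], by norm_num [PGa.aa, PGa.bb]⟩,
    by norm_num [zw, PGa.aa, PGa.bb], by norm_num [zw, PGa.aa, PGa.bb],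
    by norm_num [zw, PGa.aa, PGa.bb]⟩

theorem cor2_up : UpC N2.Kb N2.K2b N2.Db N2.S1 N2.Dc N2.avU N2.ahU N2.acU := by
  refine up_of cp2_up ?_ ?_ ?_ ?_ ?_ ?_ ?_ ?_
  · norm_num [N2, cK, zw, PGa.aa, PGa.bb]
  · norm_num [N2, PGa.sv]
  · norm_num [N2, cD, cK, zw, PGa.aa, PGa.bb]
  · norm_num [N2, cS, cL, cK, zw, xw, PGa.aa, PGa.bb]
  · norm_num [N2, PGa.ev]
  · norm_num [N2, cAv, cL, cD, cK, zw, xw, PGa.aa, PGa.bb, PGa.sv, PGa.ev, yv]
  · norm_num [N2, cAh, cS, cL, cK, zw, xw, PGa.aa, PGa.bb, PGa.sv, PGa.ev, yv]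
  · norm_num [N2, cAc, cS, cL, cD, cK, zw, xw, PGa.aa, PGa.bb, PGa.sv, PGa.ev, yv]

private theorem cp2_lo : CP (267457 / 100000000) (50200779 / 100000000) (41019403 / 50000000)
    (122210849 / 100000000) (9596303 / 10000000) := by
  refine ⟨⟨by norm_num, by norm_num, by norm_num⟩, by norm_num [PGa.sv],
    ⟨by norm_num, by norm_num [PGa.aa], by norm_num [PGa.aa, PGa.bb]⟩,
    ⟨by norm_num, by norm_num [PGa.aa], by norm_num [PGa.aa, PGa.bb]⟩,
    by norm_num [zw, PGa.aa, PGa.bb], by norm_num [zw, PGa.aa, PGa.bb],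
    by norm_num [zw, PGa.aa, PGa.bb]⟩

theorem cor2_lo : LoC N2.Ka N2.K2a N2.Da N2.S0 N2.D2a N2.avL N2.ahL N2.acL := by
  refine lo_of cp2_lo ?_ ?_ ?_ ?_ ?_ ?_ ?_ ?_
  · norm_num [N2, cK, zw, PGa.aa, PGa.bb]
  · norm_num [N2, PGa.sv]
  · norm_num [N2, cD, cK, zw, PGa.aa, PGa.bb]
  · norm_num [N2, cS, cL, cK, zw, xw, PGa.aa, PGa.bb]
  · norm_num [N2, PGa.ev]
  · norm_num [N2, cAv, cL, cD, cK, zw, xw, PGa.aa, PGa.bb, PGa.sv, PGa.ev, yv]
  · norm_num [N2, cAh, cS, cL, cK, zw, xw, PGa.aa, PGa.bb, PGa.sv, PGa.ev, yv]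
  · norm_num [N2, cAc, cS, cL, cD, cK, zw, xw, PGa.aa, PGa.bb, PGa.sv, PGa.ev, yv]

end PGn

end
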