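import Pool.Agent.PGm.M30
import Pool.Agent.PGm.M34
import Pool.Agent.PGm.M35
import Pool.Agent.PGm.M37
import Pool.Agent.PGm.M38
import Pool.Agent.PGm.M39

section
/-! # Module Scal: scaling of the generating functions of rigid maps

A rigid map has at least four vertices (`rigid_nV`). -/

set_option linter.unusedSectionVars false

namespace PGn
open PGr Real
open scoped ENNReal Classical

variable {l k k2 d s d2 x E : ℝ≥0∞}

private theorem pow_le_sq (hl : l ≤ 1) {n : ℕ} (hn : 2 ≤ n) : l ^ n ≤ l ^ 2 :=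
  pow_le_pow_right_of_le_one' hl hn

/-- the exponent of `x` is `nV - 2 ≥ 2` -/
theorem Rg_scal (hl : l ≤ 1) : Rg (l * x) E ≤ l ^ 2 * Rg x E := by
  unfold Rg
  rw [← ENNReal.tsum_mul_left]
  refine ENNReal.tsum_le_tsum fun c => ?_
  split_ifs with h
  · have h4 := rigid_nV h
    rw [mul_pow, mul_assoc]
    exact mul_le_mul' (pow_le_sq hl (by omega)) le_rfl
  · simp

/-- `nV - 1 ≥ 2` -/
theorem Q1_scal (hl : l ≤ 1) : Q1 (l * x) E ≤ l ^ 2 * Q1 x E := by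
  unfold Q1
  rw [← ENNReal.tsum_mul_left]
  refine ENNReal.tsum_le_tsum fun c => ?_
  split_ifs with h
  · have h4 := rigid_nV h
    rw [mul_pow, mul_assoc, ← mul_div_assoc]
    refine ENNReal.div_le_div_right ?_ _
    exact mul_le_mul' (pow_le_sq hl (by omega)) le_rfl
  · simp

/-- the weight of one map: exponents `a` of `k` and `p` of `k2` with `a + 2 p ≥ 2` -/
private theorem mono_scal (hl : l ≤ 1) {a p : ℕ} (h : 2 ≤ a + 2 * p) (u v w : ℝ≥0∞) :
    (l * k) ^ a * (l ^ 2 * k2) ^ p * u * v * w ≤ l ^ 2 * (k ^ a * k2 ^ p * u * v * w) := by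
  have h1 : (l * k) ^ a * (l ^ 2 * k2) ^ p * u * v * w =
      l ^ (a + 2 * p) * (k ^ a * k2 ^ p * u * v * w) := by
    rw [mul_pow, mul_pow, ← pow_mul, pow_add]
    ring
  rw [h1]
  exact mul_le_mul' (pow_le_sq hl h) le_rfl

/-- For a reflection `σ` of type `X` (`symM_iff` with `c = false`): `fixV + 2 = nFix` (`fixV_X`) and `nV = nFix + 2 p` (`nV_parity`), so the exponents of `k`, `k2` are
`a`, `p` with `a + 2 p = nV - 2 ≥ 2`. -/
theorem Av_scal (hl : l ≤ 1) : Av (l * k) (l ^ 2 * k2) d s d2 ≤ l ^ 2 * Av k k2 d s d2 := by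
  unfold Av
  rw [← ENNReal.tsum_mul_left]
  refine ENNReal.tsum_le_tsum fun c => ?_
  rw [Finset.mul_sum]
  refine Finset.sum_le_sum fun σ _ => ?_
  split_ifs with h
  · have h4 := rigid_nV h.1
    have hM : c.rep.1.IsGood := c.rep.2
    have ht : TwI true false c.rep.1 c.rep.1 σ := (symM_iff hM false σ).1 h.2
    have hR := TwI.refl_ hM ht
    obtain ⟨p, hp⟩ := nV_parity hR.es hR.ee
    have hf := fixV_X hM ht
    unfold symW
    refine mono_scal hl ?_ _ _ _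
    omega
  · simp

/-- `symM_refl`, `fixV_G`: the exponents are `a`, `p` with `a + 2 p = nV - 1 ≥ 3` -/
theorem Ac_scal (hl : l ≤ 1) : Ac (l * k) (l ^ 2 * k2) d s d2 ≤ l ^ 2 * Ac k k2 d s d2 := by
  unfold Ac
  rw [← ENNReal.tsum_mul_left]
  refine ENNReal.tsum_le_tsum fun c => ?_
  rw [Finset.mul_sum]
  refine Finset.sum_le_sum fun σ _ => ?_
  split_ifs with h
  · have h4 := rigid_nV h.1
    have hM : c.rep.1.IsGood := c.rep.2
    obtain ⟨hR, hr⟩ := (symM_refl hM σ).1 h.2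
    obtain ⟨p, hp⟩ := nV_parity hR.es hR.ee
    have hf := fixV_G hM hR hr
    unfold symW0
    refine mono_scal hl ?_ _ _ _
    omega
  · simp

/-- every monomial contains `x` (`rot_orbit`: the exponent `(nV - 1 - a) / j` is at least 1) -/
theorem Qk_scal {j : ℕ} (hj : 2 ≤ j) (hl : l ≤ 1) : Qk j k (l * x) d E ≤ l * Qk j k x d E := by
  unfold Qk
  rw [← ENNReal.tsum_mul_left]
  refine ENNReal.tsum_le_tsum fun c => ?_
  rw [Finset.mul_sum]
  refine Finset.sum_le_sum fun σ _ => ?_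
  split_ifs with h
  · have h5 := rot_orbit hj c h.1 h.2.1 h.2.2
    have h6 : 1 ≤ (nV c.rep.1.s - 1 - fixV c.rep.1 σ (fun t => t = Sum.inr true)) / j :=
      (Nat.le_div_iff_mul_le (by omega)).2 (by omega)
    rw [← mul_div_assoc]
    refine ENNReal.div_le_div_right ?_ _
    rw [← mul_assoc]
    refine mul_le_mul' ?_ le_rfl
    unfold rotW
    set e := (nV c.rep.1.s - 1 - fixV c.rep.1 σ (fun t => t = Sum.inr true)) / j with he
    have h7 : l ^ e ≤ l := by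
      calc l ^ e ≤ l ^ 1 := pow_le_pow_right_of_le_one' hl h6
        _ = l := pow_one l
    have h8 : ∀ u v w : ℝ≥0∞, u * (l * x) ^ e * v * w = l ^ e * (u * x ^ e * v * w) := by
      intro u v w
      rw [mul_pow]
      ring
    rw [h8]
    exact mul_le_mul' h7 le_rfl
  · simp

private theorem l_le {l : ℝ} (hl : l ≤ 1) : ENNReal.ofReal l ≤ 1 := by
  rw [← ENNReal.ofReal_one]
  exact ENNReal.ofReal_le_ofReal hl

private theorem toReal_scal {l : ℝ} (h0 : 0 ≤ l) {a b : ℝ≥0∞} (hb : b ≠ ⊤) (n : ℕ)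
    (hab : a ≤ ENNReal.ofReal l ^ n * b) : a.toReal ≤ l ^ n * b.toReal := by
  have h1 := ENNReal.toReal_mono
    (ENNReal.mul_ne_top (ENNReal.pow_ne_top ENNReal.ofReal_ne_top) hb) hab
  rwa [ENNReal.toReal_mul, ENNReal.toReal_pow, ENNReal.toReal_ofReal h0] at h1

/-- real versions -/
theorem rRg_scal {l x E : ℝ} (h0 : 0 ≤ l) (hl : l ≤ 1)
    (hf : Rg (ENNReal.ofReal x) (ENNReal.ofReal E) ≠ ⊤) : rRg (l * x) E ≤ l ^ 2 * rRg x E := by
  unfold rRg
  rw [ENNReal.ofReal_mul h0]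
  exact toReal_scal h0 hf 2 (Rg_scal (l_le hl))
theorem rQ1_scal {l x E : ℝ} (h0 : 0 ≤ l) (hl : l ≤ 1)
    (hf : Q1 (ENNReal.ofReal x) (ENNReal.ofReal E) ≠ ⊤) : rQ1 (l * x) E ≤ l ^ 2 * rQ1 x E := by
  unfold rQ1
  rw [ENNReal.ofReal_mul h0]
  exact toReal_scal h0 hf 2 (Q1_scal (l_le hl))
theorem rAv_scal {l k k2 d s d2 : ℝ} (h0 : 0 ≤ l) (hl : l ≤ 1)
    (hf : Av (ENNReal.ofReal k) (ENNReal.ofReal k2) (ENNReal.ofReal d) (ENNReal.ofReal s)
      (ENNReal.ofReal d2) ≠ ⊤) : rAv (l * k) (l ^ 2 * k2) d s d2 ≤ l ^ 2 * rAv k k2 d s d2 := by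
  unfold rAv
  rw [ENNReal.ofReal_mul h0, ENNReal.ofReal_mul (pow_nonneg h0 2), ENNReal.ofReal_pow h0]
  exact toReal_scal h0 hf 2 (Av_scal (l_le hl))
theorem rAc_scal {l k k2 d s d2 : ℝ} (h0 : 0 ≤ l) (hl : l ≤ 1)
    (hf : Ac (ENNReal.ofReal k) (ENNReal.ofReal k2) (ENNReal.ofReal d) (ENNReal.ofReal s)
      (ENNReal.ofReal d2) ≠ ⊤) : rAc (l * k) (l ^ 2 * k2) d s d2 ≤ l ^ 2 * rAc k k2 d s d2 := by
  unfold rAc
  rw [ENNReal.ofReal_mul h0, ENNReal.ofReal_mul (pow_nonneg h0 2), ENNReal.ofReal_pow h0]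
  exact toReal_scal h0 hf 2 (Ac_scal (l_le hl))
theorem rQk_scal {j : ℕ} (hj : 2 ≤ j) {l k x d E : ℝ} (h0 : 0 ≤ l) (hl : l ≤ 1)
    (hf : Qk j (ENNReal.ofReal k) (ENNReal.ofReal x) (ENNReal.ofReal d) (ENNReal.ofReal E) ≠ ⊤) :
    rQk j k (l * x) d E ≤ l * rQk j k x d E := by
  unfold rQk
  rw [ENNReal.ofReal_mul h0]
  have h1 := toReal_scal (a := Qk j (ENNReal.ofReal k) (ENNReal.ofReal l * ENNReal.ofReal x)
    (ENNReal.ofReal d) (ENNReal.ofReal E)) h0 hf 1 (by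
      rw [pow_one]
      exact Qk_scal hj (l_le hl))
  rwa [pow_one] at h1

end PGn

end

section
/-! # Module FBase: the point `ρ` -/

set_option linter.unusedSectionVars false

namespace PGn
open PGr Real
open scoped ENNReal Classical

/-- the situation at the radius of convergence -/
structure Base (r t : ℝ) : Prop where
  good : GoodX r
  r0 : 10 / 277 ≤ r
  t0 : 0 < t
  t1 : t < 1
  hK : gK r = scr t
  hD : gD r = ecr t

variable {r t : ℝ}

private theorem FBASE_one (h : Base r t) : 1 ≤ ecr t := by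
  rw [← h.hD]
  exact (gS_bd h.good).1.trans (gS_bd h.good).2

private theorem FBASE_t (h : Base r t) : 6076 / 10000 < t := by
  by_contra hlt
  push Not at hlt
  have h1 : ecr t ≤ ecr (6076 / 10000) :=
    ecr_strictMonoOn.monotoneOn ⟨h.t0, h.t1⟩ ⟨by norm_num, by norm_num⟩ hlt
  have h2 := num_t1.2
  have h3 := FBASE_one h
  linarith

/-- `1 ≤ gD r = ecr t` and monotonicity of `ecr` give `t > 6076 / 10000` (`num_t1`), so `scr t ≤ 476 / 10000` -/
theorem Base.K1 (h : Base r t) : gK r ≤ 476 / 10000 := by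
  rw [h.hK]
  have h1 : scr t < scr (6076 / 10000) :=
    scr_strictAntiOn ⟨by norm_num, by norm_num⟩ ⟨h.t0, h.t1⟩ (FBASE_t h)
  exact h1.le.trans num_t1.1
theorem Base.r1 (h : Base r t) : r ≤ 1 / 20 := by
  have h1 := le_gK h.good
  have h2 := h.K1
  linarith
theorem Base.rpos (h : Base r t) : 0 < r := by linarith [h.r0]

/-- `scr t ≥ r ≥ 10 / 277 > 3608 / 100000 ≥ scr (6312 / 10000)`, so `t < 6312 / 10000`, `gD r ≤ ecr (6312 / 10000) ≤ 1121 / 1000` -/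
theorem Base.D1 (h : Base r t) : gD r ≤ 1121 / 1000 := by
  have h1 : t < 6312 / 10000 := by
    by_contra hlt
    push Not at hlt
    have h2 : scr t ≤ scr (6312 / 10000) :=
      scr_strictAntiOn.antitoneOn ⟨by norm_num, by norm_num⟩ ⟨h.t0, h.t1⟩ hlt
    have h3 : scr (6312 / 10000) ≤ 3608 / 100000 := by
      unfold scr
      norm_num
    have h4 := le_gK h.good
    have h5 := h.r0
    rw [h.hK] at h4
    have h6 : (3608 / 100000 : ℝ) < 10 / 277 := by norm_num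
    linarith
  rw [h.hD]
  have h2 : ecr t < ecr (6312 / 10000) :=
    ecr_strictMonoOn ⟨h.t0, h.t1⟩ ⟨by norm_num, by norm_num⟩ h1
  have h3 : ecr (6312 / 10000) ≤ 1121 / 1000 := by
    unfold ecr
    norm_num
  exact h2.le.trans h3

/-- `rg_crit`, `q1_crit` -/
theorem Base.rg (h : Base r t) : rRg (gK r) (gD r) = rgc t ∧ 0 ≤ rgc t ∧
    Rg (ENNReal.ofReal (gK r)) (ENNReal.ofReal (gD r)) ≠ ⊤ := by
  have hs : scr t ≤ 1 / 10 := by
    rw [← h.hK]
    exact h.K1.trans (by norm_num)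
  obtain ⟨h1, h2⟩ := rg_crit h.t0 h.t1 hs
  unfold rRg
  rw [h.hK, h.hD, h2]
  exact ⟨ENNReal.toReal_ofReal h1, h1, ENNReal.ofReal_ne_top⟩
theorem Base.q1 (h : Base r t) : rQ1 (gK r) (gD r) = q1c t ∧ 0 ≤ q1c t ∧
    Q1 (ENNReal.ofReal (gK r)) (ENNReal.ofReal (gD r)) ≠ ⊤ := by
  have hs : scr t < 1 / 10 := by
    rw [← h.hK]
    exact lt_of_le_of_lt h.K1 (by norm_num)
  obtain ⟨h1, h2⟩ := q1_crit h.t0 h.t1 hs
  unfold rQ1
  rw [h.hK, h.hD, h2]
  exact ⟨ENNReal.toReal_ofReal h1, h1, ENNReal.ofReal_ne_top⟩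

private theorem FBASE_Av (h : GoodX r) :
    Av (pK (WW r) 1) (pK (WW r) 2) (pD (WW r) 1) (pS (WW r) 1) (pD (WW r) 2) ≠ ⊤ := by
  have : Nonempty RC := ⟨exists_rc_one.choose⟩
  have h2 := rig_eq (w := WW r)
  have h3 : 2 * pN (WW r) 1 (fun c => c.IsX ∧ ¬ c.IsSer) ≠ ⊤ :=
    ENNReal.mul_ne_top (by norm_num) (h.pN_fin _)
  rw [h2] at h3
  exact (ENNReal.add_ne_top.1 h3).2

private theorem FBASE_PR (h : GoodX r) :
    (∑' k : ℕ, ((k + 2).totient : ℝ≥0∞) / (2 * ((k + 2 : ℕ) : ℝ≥0∞)) *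
      Qk (k + 2) (pK (WW r) 1) (pK (WW r) (k + 2)) (pS (WW r) 1) (pD (WW r) (k + 2)) ≠ ⊤) ∧
    Ac (pK (WW r) 1) (pK (WW r) 2) (pD (WW r) 1) (pS (WW r) 1) (pD (WW r) 2) ≠ ⊤ := by
  have h0 := act_PR_fin h
  rw [PR_eq] at h0
  obtain ⟨h1, h2⟩ := ENNReal.add_ne_top.1 h0
  obtain ⟨h3, h4⟩ := ENNReal.add_ne_top.1 h1
  have h8 : pK (WW r) 1 * pD (WW r) 1 * Av (pK (WW r) 1) (pK (WW r) 2) (pD (WW r) 1)
      (pS (WW r) 1) (pD (WW r) 2) +
      Ac (pK (WW r) 1) (pK (WW r) 2) (pD (WW r) 1) (pS (WW r) 1) (pD (WW r) 2) ≠ ⊤ := by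
    intro h9
    apply h2
    rw [h9, ENNReal.top_div_of_ne_top (by norm_num)]
  exact ⟨h4, (ENNReal.add_ne_top.1 h8).2⟩

/-- The functions `Av`, `Ac` are finite at the arguments belonging to `r`: `Av ≤ 2 * (number of rigid networks)`; from `rig_eq` (PGd/RigEq: `2 * rigid = Rg + Av`) and the
finiteness of the network series at `r` (`GoodX.pN_fin`); `Ac`: `act_PR_fin` and `PR_eq` (`PR = .. + (K D Av + Ac) / 4`) -/
theorem Base.fin (h : Base r t) :
    Av (ENNReal.ofReal (gK r)) (ENNReal.ofReal (gK (r ^ 2))) (ENNReal.ofReal (gD r))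
      (ENNReal.ofReal (gS r)) (ENNReal.ofReal (gD (r ^ 2))) ≠ ⊤ ∧
    Ac (ENNReal.ofReal (gK r)) (ENNReal.ofReal (gK (r ^ 2))) (ENNReal.ofReal (gD r))
      (ENNReal.ofReal (gS r)) (ENNReal.ofReal (gD (r ^ 2))) ≠ ⊤ := by
  have hg := h.good
  rw [ActX_K hg, ActX_D hg, ActX_S hg, ActX_Kk hg (by norm_num), ActX_Dk hg (by norm_num)]
  exact ⟨FBASE_Av hg, (FBASE_PR hg).2⟩

/-- the same for the terms of the sum over `k` (`PR_eq`) -/
theorem Base.finQ (h : Base r t) {k : ℕ} (hk : 2 ≤ k) :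
    Qk k (ENNReal.ofReal (gK r)) (ENNReal.ofReal (gK (r ^ k))) (ENNReal.ofReal (gS r))
      (ENNReal.ofReal (gD (r ^ k))) ≠ ⊤ := by
  have hg := h.good
  rw [ActX_K hg, ActX_S hg, ActX_Kk hg (by omega), ActX_Dk hg (by omega)]
  obtain ⟨j, rfl⟩ : ∃ j, k = j + 2 := ⟨k - 2, by omega⟩
  have h1 := ENNReal.ne_top_of_tsum_ne_top (FBASE_PR hg).1 j
  intro h2
  apply h1
  rw [h2]
  refine ENNReal.mul_top ?_
  have h3 : 0 < (j + 2).totient := Nat.totient_pos.2 (by omega)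
  refine (ENNReal.div_pos ?_ ?_).ne'
  · exact_mod_cast h3.ne'
  · exact ENNReal.mul_ne_top (by norm_num) (ENNReal.natCast_ne_top _)

/-- the equations at the powers of `r` -/
theorem Base.sys (h : Base r t) {k : ℕ} (hk : 1 ≤ k) : CSys gK gD gS (r ^ k) :=
  csys_g (h.good.pow hk)

end PGn

end

section
/-! # Module FctK: the values of `K` at `r ^ 2`, `r ^ 3` -/

set_option linter.unusedSectionVars false

namespace PGn
open PGr Real
open scoped ENNReal Classical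

variable {r t : ℝ}

private theorem FCTK_lt (h : Base r t) : r < 1 := by
  have := h.r1
  linarith

private theorem FCTK_P0 {x : ℝ} (h : GoodX x) : 0 ≤ yP gK gD gS x :=
  (gK_nonneg x).trans (gK_le_P h)

/-- the last equation of `CSys` at `r` with `ser_split` for `X k = yP (r ^ (k + 1))` (`yP_step`, `gK_le_P`, `gK_nonneg`); `yP (r ^ 3) ≥ gK (r ^ 3) ≥ r ^ 3` -/
theorem fK_e (h : Base r t) : r ^ 3 / 3 ≤ log (gK r / r) - yP gK gD gS r - yP gK gD gS (r ^ 2) / 2 ∧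
    log (gK r / r) - yP gK gD gS r - yP gK gD gS (r ^ 2) / 2 ≤ tl r (yP gK gD gS (r ^ 2)) := by
  have hr := h.rpos
  have hs := csys_g h.good
  have h1 := ser_split hr (FCTK_lt h) (X := fun k => yP gK gD gS (r ^ (k + 1)))
    (fun k => FCTK_P0 (h.good.pow (by omega))) (fun k => yP_step h.good (by omega)) hs.sP
  have h2 : log (gK r / r) = ∑' k : ℕ, yP gK gD gS (r ^ (k + 1)) / ((k + 1 : ℕ) : ℝ) := by
    have h3 : gK r / r = exp (∑' k : ℕ, yP gK gD gS (r ^ (k + 1)) / ((k + 1 : ℕ) : ℝ)) := by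
      rw [div_eq_iff hr.ne', mul_comm]
      exact hs.eK
    rw [h3, Real.log_exp]
  obtain ⟨h3, h4⟩ := h1
  simp only [zero_add, pow_one, Nat.reduceAdd] at h3 h4
  rw [← h2] at h3 h4
  have h5 : r ^ 3 ≤ yP gK gD gS (r ^ 3) :=
    (le_gK (h.good.pow (by norm_num))).trans (gK_le_P (h.good.pow (by norm_num)))
  constructor
  · linarith
  · exact h4

/-- `K (r^2) = r^2 exp (∑ P (r^(2 j)) / j) ≥ r^2 (1 + P (r^2)) ≥ r^2 (1 + K (r^2)) ≥ r^2 (1 + r^2)` -/
theorem fK_2l (h : Base r t) : r ^ 2 * (1 + r ^ 2) ≤ gK (r ^ 2) := by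
  have hr := h.rpos
  have hg : GoodX (r ^ 2) := h.good.pow (by norm_num)
  have hs := csys_g hg
  have h1 := hs.sP.le_tsum 0 (fun k _ => div_nonneg (FCTK_P0 (hg.pow (by omega))) (by positivity))
  simp only [zero_add, pow_one, Nat.cast_one, div_one] at h1
  have h2 : r ^ 2 ≤ yP gK gD gS (r ^ 2) := (le_gK hg).trans (gK_le_P hg)
  have h3 := Real.add_one_le_exp
    (∑' k : ℕ, yP gK gD gS ((r ^ 2) ^ (k + 1)) / ((k + 1 : ℕ) : ℝ))
  have h4 : 0 ≤ r ^ 2 := by positivity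
  calc r ^ 2 * (1 + r ^ 2) ≤
        r ^ 2 * exp (∑' k : ℕ, yP gK gD gS ((r ^ 2) ^ (k + 1)) / ((k + 1 : ℕ) : ℝ)) :=
        mul_le_mul_of_nonneg_left (by linarith) h4
    _ = gK (r ^ 2) := hs.eK.symm

/-- `P (r^(2 j + 2)) ≤ r^(2 j + 1) P r` (`yP_pow`), so by `ser_geo` the sum is at most `r P r / (1 - r^2)`; `P r ≤ log (K r / r) ≤ K r / r - 1` (the other terms of the equation
at `r` are nonnegative); so the sum is at most `z = (K - r) / (1 - r^2) < 1`, and `exp z ≤ 1 / (1 - z)` -/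
theorem fK_2u (h : Base r t) : gK (r ^ 2) ≤ r ^ 2 / (1 - (gK r - r) / (1 - r ^ 2)) := by
  have hr := h.rpos
  have hr1 := h.r1
  have hK := h.K1
  have hKr := le_gK h.good
  have hg : GoodX (r ^ 2) := h.good.pow (by norm_num)
  have hs := csys_g hg
  have hd : 0 < 1 - r ^ 2 := by nlinarith
  -- the value at `r`
  have hP : r * yP gK gD gS r ≤ gK r - r := by
    have h1 := (fK_e h).1
    have h2 : 0 ≤ yP gK gD gS (r ^ 2) := FCTK_P0 hg
    have h3 : 0 ≤ r ^ 3 := by positivity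
    have h4 : 0 < gK r / r := div_pos (by linarith) hr
    have h5 := Real.log_le_sub_one_of_pos h4
    have h6 : yP gK gD gS r ≤ gK r / r - 1 := by linarith
    calc r * yP gK gD gS r ≤ r * (gK r / r - 1) := mul_le_mul_of_nonneg_left h6 hr.le
      _ = gK r - r := by
        field_simp
  have hb : ∀ k : ℕ, yP gK gD gS ((r ^ 2) ^ (k + 1)) ≤ (gK r - r) * r ^ (2 * k) := by
    intro k
    have h1 := yP_pow h.good (k := 1) (j := 2 * k + 1) le_rfl
    rw [pow_one] at h1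
    have h2 : (r ^ 2) ^ (k + 1) = r ^ (1 + (2 * k + 1)) := by
      rw [← pow_mul]
      congr 1
      ring
    rw [h2]
    refine h1.trans ?_
    calc r ^ (2 * k + 1) * yP gK gD gS r = (r * yP gK gD gS r) * r ^ (2 * k) := by ring
      _ ≤ (gK r - r) * r ^ (2 * k) := mul_le_mul_of_nonneg_right hP (by positivity)
  have h1 := (ser_geo hr (FCTK_lt h) (Y := fun k => yP gK gD gS ((r ^ 2) ^ (k + 1)))
    (fun k => FCTK_P0 (hg.pow (by omega))) hb hs.sP).2
  set z : ℝ := (gK r - r) / (1 - r ^ 2) with hz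
  have hz1 : z < 1 := by
    rw [hz, div_lt_one hd]
    nlinarith
  have h2 : exp z ≤ 1 / (1 - z) := by
    rw [le_div_iff₀ (by linarith)]
    have h3 := Real.add_one_le_exp (-z)
    have h4 : exp z * exp (-z) = 1 := by
      rw [← Real.exp_add]
      simp
    have h5 := Real.exp_pos z
    nlinarith
  have h4 : 0 ≤ r ^ 2 := by positivity
  calc gK (r ^ 2) = r ^ 2 * exp (∑' k : ℕ, yP gK gD gS ((r ^ 2) ^ (k + 1)) / ((k + 1 : ℕ) : ℝ)) :=
        hs.eK
    _ ≤ r ^ 2 * (1 / (1 - z)) :=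
        mul_le_mul_of_nonneg_left ((Real.exp_le_exp.2 h1).trans h2) h4
    _ = r ^ 2 / (1 - z) := by ring

/-- `gK_step`, `le_gK` -/
theorem fK_3 (h : Base r t) : r ^ 3 ≤ gK (r ^ 3) ∧ gK (r ^ 3) ≤ r * gK (r ^ 2) :=
  ⟨le_gK (h.good.pow (by norm_num)), gK_step h.good (by norm_num)⟩

end PGn

end
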