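import Pool.Agent.PGm.M34
import Pool.Agent.PGm.M39

section
/-!
# The system of equations in its final form (definitions)
-/

set_option linter.unusedSectionVars false

namespace PGr
open Real

/-- the point with parameter `w` of the rational cubic curve with parameters `p, q`: first coordinate -/
noncomputable def cz (p q w : ℝ) : ℝ :=
  w * (1 - q * (1 - p * q) * w) / (1 - q * (1 - p) * w)

/-- second coordinate -/
noncomputable def cx (p q w : ℝ) : ℝ :=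
  (1 - q * w) / ((1 - q * (1 - p) * w) * (1 - q * (1 - p * q) * w))

/-- the logarithmic part -/
noncomputable def lg (k u v : ℝ) : ℝ :=
  k * log ((1 - u * v) * (1 - v) / (1 - v - u * v)) - log (1 - u * v)

/-- Relations between the values `k, d, c, u, v, y, A, w, w', α, β, X, Z, B` of functions at a point `x` and the
values `s, E, p, q, h` of `k, d, u, v, y` at `x ^ 2`. -/
structure Loc (k d c u v y A w w' α β s E p q h X Z B : ℝ) : Prop where
  u0 : 0 < u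
  v0 : 0 < v
  reg : u + v + 3 * u * v < 1
  hk : k = u * (1 - v) ^ 2 / (v * (1 - u) ^ 2)
  hd : d = v * (1 - u - v) / (1 - v) ^ 2
  hy : y = v * (1 - u) ^ 2
  A0 : 0 < A
  w0 : 0 < w
  ww : w < w'
  wa : q * (1 - p) * w' < 1
  wb : 2 * (q * (1 - p * q)) * w' < 1 + q * (1 - p) * (q * (1 - p * q)) * w' ^ 2
  sum : cz p q w + cz p q w' = 1 + A + k + k * d
  prod : cz p q w * cz p q w' = A * (1 + k * d)
  line : α + β * cz p q w = cx p q w
  line' : α + β * cz p q w' = cx p q w'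
  hc : c + 1 = α + β * (A + k)
  hX : 2 * X = d / (1 + d) - y + k * d ^ 2 / (1 + k * d) + (1 + d) * (h - E / (1 + E)) +
    s * h * (α + β * (1 + k + k * d) - 1 - E) / k
  hZ : 2 * Z = k * h / (1 - q) + q * (1 - p) + c * (p + q - p * q) - (1 + c) * (E / (1 + E)) +
    c / (1 + c) - A * h
  hB : 4 * B = 4 * k * (d - X - d * X) + k ^ 2 * d ^ 3 / (1 + k * d) -
    u * v * (2 - 3 * u + 4 * u ^ 2 - u ^ 3) / (1 - u) ^ 2 - k * p * q * (1 - p) / (1 - q) -
    p * q + c * p * (1 - q) + k * (1 + d) ^ 2 * (h - E / (1 + E)) +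
    s * h * (α * (1 + d) + β * (A + (1 + d) * (1 + k + k * d)) - (1 + d) * (1 + E))

/-- The system at `x`. -/
structure FSys (K D S U V Y A W W' α β X Z B P : ℝ → ℝ) (x : ℝ) : Prop where
  loc : Loc (K x) (D x) (S x) (U x) (V x) (Y x) (A x) (W x) (W' x) (α x) (β x) (K (x ^ 2))
    (D (x ^ 2)) (U (x ^ 2)) (V (x ^ 2)) (Y (x ^ 2)) (X x) (Z x) (B x)
  hP : HasSum (fun j : ℕ => ((j + 1).totient : ℝ) / (2 * (j + 1)) *
    lg (K x) (U (x ^ (j + 1))) (V (x ^ (j + 1)))) (P x - B x)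
  hD : HasSum (fun j : ℕ => X (x ^ (j + 1)) / (j + 1)) (log ((1 + D x) / 2))
  hS : HasSum (fun j : ℕ => (if Even j then Z (x ^ (j + 1)) else X (x ^ (j + 1))) / (j + 1))
    (log ((1 + S x) / 2))
  hK : HasSum (fun j : ℕ => P (x ^ (j + 1)) / (j + 1)) (log (K x / x))

end PGr

end

section
/-! # Module FAlg: the algebra of the final form of the system -/

set_option linter.unusedSectionVars false
namespace PGr
open Real

section
variable {k d c u v A α β s E p q : ℝ}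

theorem FAlg_pos {u v : ℝ} (h0 : 0 < u) (h1 : 0 < v) (h2 : u + v + 3 * u * v < 1) :
    0 < 1 - u ∧ 0 < 1 - v ∧ 0 < 1 - u - v ∧ 0 < 1 - v - u * v ∧ 0 < 1 - u - u * v ∧ 0 < 1 - u * v := by
  have hp : 0 < u * v := mul_pos h0 h1
  refine ⟨by linarith, by linarith, by linarith, by linarith, by linarith, by nlinarith⟩

theorem UV.iff : UV k d u v ↔ 0 < u ∧ 0 < v ∧ u + v + 3 * u * v < 1 ∧
    k = u * (1 - v) ^ 2 / (v * (1 - u) ^ 2) ∧ d = v * (1 - u - v) / (1 - v) ^ 2 := by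
  constructor
  · rintro ⟨h0, h1, h2, h3, h4⟩
    obtain ⟨a1, a2, -⟩ := FAlg_pos h0 h1 h2
    refine ⟨h0, h1, h2, ?_, ?_⟩
    · rw [eq_div_iff (by positivity)]
      exact h3
    · rw [eq_div_iff (by positivity)]
      exact h4
  · rintro ⟨h0, h1, h2, h3, h4⟩
    obtain ⟨a1, a2, -⟩ := FAlg_pos h0 h1 h2
    refine ⟨h0, h1, h2, ?_, ?_⟩
    · rw [h3]
      field_simp
    · rw [h4]
      field_simp

/-- the value of `zX` -/
theorem FAlg_X (h : UV k d u v) (h' : UV s E p q) (hL : ∀ t, eL k d A p q t = α + β * t) :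
    2 * (k * d ^ 2 / (1 + k * d) + (eRg k d u v + eAv k d A s E p q) / 2) =
      d / (1 + d) - v * (1 - u) ^ 2 + k * d ^ 2 / (1 + k * d) +
        (1 + d) * (q * (1 - p) ^ 2 - E / (1 + E)) +
        s * (q * (1 - p) ^ 2) * (α + β * (1 + k + k * d) - 1 - E) / k := by
  obtain ⟨h0, h1, h2, h3, h4⟩ := UV.iff.1 h
  obtain ⟨a1, a2, a3, -⟩ := FAlg_pos h0 h1 h2
  have hd : 0 < d := by rw [h4]; positivity
  have e : d / (1 + d) = d - d ^ 2 / (1 + d) := by
    have : (1 + d) ≠ 0 := by linarith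
    field_simp
    ring
  unfold eRg eAv
  rw [hL, e]
  ring

/-- the value of `zZ` -/
theorem FAlg_Z (hk : 0 < k) (hc : 0 ≤ c) (h' : UV s E p q) :
    2 * (E / (1 + s * E) * (k + s * c) + (eApi k c s E p q + eAh k c A s E p q) / 2) =
      k * (q * (1 - p) ^ 2) / (1 - q) + q * (1 - p) + c * (p + q - p * q) -
        (1 + c) * (E / (1 + E)) + c / (1 + c) - A * (q * (1 - p) ^ 2) := by
  obtain ⟨h0, h1, h2, h3, h4⟩ := UV.iff.1 h'
  obtain ⟨a1, a2, a3, -⟩ := FAlg_pos h0 h1 h2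
  have e1 : p * (1 - q) / s = q * (1 - p) ^ 2 / (1 - q) := by
    rw [h3]
    field_simp
  unfold eApi eAh
  rw [e1]
  have hs : 0 < s := by rw [h3]; positivity
  have hE : 0 < E := by rw [h4]; positivity
  have h5 : (1 + s * E) ≠ 0 := by positivity
  have e2 : s * E / (1 + s * E) = s * (E / (1 + s * E)) := by ring
  have e3 : E * (k + s * c) / (1 + s * E) = (E / (1 + s * E)) * (k + s * c) := by ring
  rw [e2, e3]
  ring

theorem FAlg_Q1 (h : UV k d u v) : eQ1 k d u v = lg k u v -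
    u * v * (2 - 3 * u + 4 * u ^ 2 - u ^ 3) / (2 * (1 - u) ^ 2) -
      k ^ 2 * d ^ 3 / (2 * (1 + k * d)) := by
  obtain ⟨h0, h1, h2, h3, h4⟩ := UV.iff.1 h
  obtain ⟨a1, a2, a3, a4, a5, a6⟩ := FAlg_pos h0 h1 h2
  have hk : 0 < k := by rw [h3]; positivity
  have hd : 0 < d := by rw [h4]; positivity
  have hd1 : (1 + d) ≠ 0 := by positivity
  have hkd1 : (1 + k * d) ≠ 0 := by positivity
  have e1 : k * (d / (1 + d)) + k * (d / (1 + d)) * d * (1 - d) / 2 + k * d ^ 2 / 2 = k * d := by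
    field_simp
    ring
  have e2 : k * d ^ 2 * (k * d / (1 + k * d)) / 2 = k ^ 2 * d ^ 3 / (2 * (1 + k * d)) := by
    field_simp
  have e3 : k * (v * (1 - u) ^ 2) = u * (1 - v) ^ 2 := by
    rw [h3]
    field_simp
  have e4 : k * d = u * (1 - u - v) / (1 - u) ^ 2 := by
    rw [h3, h4]
    field_simp
  have e5 : d * (1 - v) ^ 2 = v * (1 - u - v) := by
    rw [h4]
    field_simp
  have e6 : (1 + u + v - 3 * u * v) - 1 / 2 - (1 + u + v - 3 * u * v) / (2 * (1 - u)) -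
      v * (1 - u) ^ 2 / 2 - u * (1 - v - u * v) + u * (1 - u - v) / (1 - u) ^ 2 =
      - (u * v * (2 - 3 * u + 4 * u ^ 2 - u ^ 3) / (2 * (1 - u) ^ 2)) := by
    field_simp
    ring
  unfold eQ1 lg
  linear_combination e1 - e2 + e6 - (1 + d) * e3 + e4 - u * e5

/-- the value of `zP`; with `T = E (k + s c) / (1 + s E)` the terms with `c - T = (c - k E) / (1 + s E)` of `zP`, `eQ2`, `eAc`
cancel -/
theorem FAlg_P {X : ℝ} (h : UV k d u v) (h' : UV s E p q) (hL : ∀ t, eL k d A p q t = α + β * t) :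
    4 * (k * (d - X - d * X) + (k ^ 2 * d ^ 2 * (d / (1 + k * d)) +
      s * E * (c - E / (1 + s * E) * (k + s * c))) / 2 + (eQ1 k d u v / 2 +
      eQ2 k c s E p q / 4 + (k * d * eAv k d A s E p q + eAc k d c A s E p q) / 4)) =
    2 * lg k u v + lg k p q + (4 * k * (d - X - d * X) + k ^ 2 * d ^ 3 / (1 + k * d) -
      u * v * (2 - 3 * u + 4 * u ^ 2 - u ^ 3) / (1 - u) ^ 2 - k * p * q * (1 - p) / (1 - q) -
      p * q + c * p * (1 - q) + k * (1 + d) ^ 2 * (q * (1 - p) ^ 2 - E / (1 + E)) +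
      s * (q * (1 - p) ^ 2) * (α * (1 + d) + β * (A + (1 + d) * (1 + k + k * d)) -
        (1 + d) * (1 + E))) := by
  obtain ⟨h0, h1, h2, h3, h4⟩ := UV.iff.1 h
  obtain ⟨a1, a2, a3, a4, a5, a6⟩ := FAlg_pos h0 h1 h2
  obtain ⟨g0, g1, g2, g3, g4⟩ := UV.iff.1 h'
  obtain ⟨b1, b2, b3, b4, b5, b6⟩ := FAlg_pos g0 g1 g2
  have hk : 0 < k := by rw [h3]; positivity
  have hs : 0 < s := by rw [g3]; positivity
  have hE : 0 < E := by rw [g4]; positivity
  have h5 : (1 + s * E) ≠ 0 := by positivity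
  have e1 : s * E * (c - E / (1 + s * E) * (k + s * c)) + k * (s * E ^ 2 / (1 + s * E)) -
      c * (s * E / (1 + s * E)) = 0 := by
    field_simp
    ring
  have e2 : s * E * (c - E * (k + s * c) / (1 + s * E)) =
      s * E * (c - E / (1 + s * E) * (k + s * c)) := by ring
  have e3 : k * d * (s * (q * (1 - p) ^ 2) / k * (α + β * (1 + k + k * d) - 1 - E)) =
      d * (s * (q * (1 - p) ^ 2)) * (α + β * (1 + k + k * d) - 1 - E) := by
    field_simp
  have e4 : eQ1 k d u v = lg k u v -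
      u * v * (2 - 3 * u + 4 * u ^ 2 - u ^ 3) / (1 - u) ^ 2 / 2 -
        k ^ 2 * d ^ 3 / (1 + k * d) / 2 := by
    rw [FAlg_Q1 h, div_div, div_div, mul_comm (2 : ℝ), mul_comm (2 : ℝ)]
  unfold eQ2 eAv eAc
  rw [hL, hL, e4, e2]
  unfold lg
  linear_combination e1 + e3

end

end PGr

end

section
/-! # Module FCrv: the rational parametrisation of the curve -/

set_option linter.unusedSectionVars false

namespace PGr
open Real

/-- `zw` increases on `DomW` -/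
private theorem FCrv_lt {u v w w' : ℝ} (h : PGa.Reg u v) (hw : PGa.DomW u v w)
    (hw' : PGa.DomW u v w') (hlt : w < w') : PGa.zw u v w < PGa.zw u v w' := by
  obtain ⟨ha, hab, hbv, hu1, hv1, hc⟩ := PGa.XCrv_ab h
  have a1 := hw.a
  have a2 := hw'.a
  have d2 := hw'.d
  obtain ⟨a, hadef⟩ : ∃ a, a = PGa.aa u v := ⟨_, rfl⟩
  obtain ⟨b, hbdef⟩ : ∃ b, b = PGa.bb u v := ⟨_, rfl⟩
  unfold PGa.zw
  rw [← hadef] at ha hab a1 a2 d2 ⊢
  rw [← hbdef] at hab d2 ⊢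
  have hb : 0 < b := ha.trans hab
  have e1 : 0 < 1 - a * w := by linarith
  have e2 : 0 < 1 - a * w' := by linarith
  have h3 : 0 < 1 - b * (w + w') + a * b * (w * w') := by
    have h4 : 1 - b * (w + w') + a * b * (w * w') =
        (1 - 2 * b * w' + a * b * w' ^ 2) + b * (w' - w) * (1 - a * w') := by ring
    rw [h4]
    have : 0 < b * (w' - w) * (1 - a * w') := mul_pos (mul_pos hb (by linarith)) e2
    linarith
  rw [div_lt_div_iff₀ e1 e2]
  have h5 : w' * (1 - b * w') * (1 - a * w) - w * (1 - b * w) * (1 - a * w') =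
      (w' - w) * (1 - b * (w + w') + a * b * (w * w')) := by ring
  have h6 : 0 < (w' - w) * (1 - b * (w + w') + a * b * (w * w')) := mul_pos (by linarith) h3
  linarith

/-- `PGa.wz_dom` at `eZ1`, `eZ2` (`domZ_down`), `EVal2_eig`; `α`, `β` = coefficients of the linear function `eL`; `wz` is increasing
because `zw` is increasing on `DomW` -/
theorem RA.param {k d c A p q s E : ℝ} (hk : 0 < k) (hd : 0 < d) (huv : UV s E p q)
    (h : RA k d c A p q) : ∃ w w' α β : ℝ, 0 < w ∧ w < w' ∧ q * (1 - p) * w' < 1 ∧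
      2 * (q * (1 - p * q)) * w' < 1 + q * (1 - p) * (q * (1 - p * q)) * w' ^ 2 ∧
      cz p q w + cz p q w' = 1 + A + k + k * d ∧ cz p q w * cz p q w' = A * (1 + k * d) ∧
      α + β * cz p q w = cx p q w ∧ α + β * cz p q w' = cx p q w' ∧
      ∀ t, eL k d A p q t = α + β * t := by
  obtain ⟨hr, -, -⟩ := EVal2_reg huv
  obtain ⟨hA0, h1, h2, h3⟩ := h
  obtain ⟨he, hz, hD⟩ := EVal2_eig hk hd hA0
  have d2 : PGa.DomZ p q (eZ2 k d A) := ⟨hz.trans he.lt, h1, h2⟩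
  have d1 : PGa.DomZ p q (eZ1 k d A) := PGa.domZ_down hr d2 hz he.lt.le
  obtain ⟨w1, z1⟩ := PGa.wz_dom hr d1
  obtain ⟨w2, z2⟩ := PGa.wz_dom hr d2
  have hlt : PGa.wz p q (eZ1 k d A) < PGa.wz p q (eZ2 k d A) := by
    rcases lt_trichotomy (PGa.wz p q (eZ1 k d A)) (PGa.wz p q (eZ2 k d A)) with hh | hh | hh
    · exact hh
    · exfalso
      rw [hh, z2] at z1
      linarith [he.lt]
    · exfalso
      have := FCrv_lt hr w2 w1 hh
      rw [z1, z2] at this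
      linarith [he.lt]
  have hD0 : 0 < eDl k d A := by rw [← hD]; linarith [he.lt]
  have c1 : cz p q (PGa.wz p q (eZ1 k d A)) = eZ1 k d A := z1
  have c2 : cz p q (PGa.wz p q (eZ2 k d A)) = eZ2 k d A := z2
  have x1 : cx p q (PGa.wz p q (eZ1 k d A)) = eX p q (eZ1 k d A) := rfl
  have x2 : cx p q (PGa.wz p q (eZ2 k d A)) = eX p q (eZ2 k d A) := rfl
  refine ⟨PGa.wz p q (eZ1 k d A), PGa.wz p q (eZ2 k d A),
    (eX p q (eZ1 k d A) * eZ2 k d A - eX p q (eZ2 k d A) * eZ1 k d A) / eDl k d A,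
    (eX p q (eZ2 k d A) - eX p q (eZ1 k d A)) / eDl k d A, w1.w0, hlt, w2.a, ?_, ?_, ?_, ?_, ?_, ?_⟩
  · have := w2.d
    unfold PGa.aa PGa.bb at this
    linarith
  · rw [c1, c2]; exact he.sum
  · rw [c1, c2]; exact he.prod
  · rw [c1, x1]
    field_simp
    rw [← hD]
    ring
  · rw [c2, x2]
    field_simp
    rw [← hD]
    ring
  · intro t
    unfold eL
    field_simp
    ring

/-- `PGa.zw_dom` at `w`, `w'`: `cz p q w = eZ1`, `cz p q w' = eZ2` by `EVal2_eq` -/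
theorem RA.of_param {k d c A p q s E w w' α β : ℝ} (hk : 0 < k) (hd : 0 < d) (huv : UV s E p q)
    (hA : 0 < A) (hw : 0 < w) (hw' : w < w') (ha : q * (1 - p) * w' < 1)
    (hb : 2 * (q * (1 - p * q)) * w' < 1 + q * (1 - p) * (q * (1 - p * q)) * w' ^ 2)
    (hs : cz p q w + cz p q w' = 1 + A + k + k * d)
    (hp : cz p q w * cz p q w' = A * (1 + k * d)) (hl : α + β * cz p q w = cx p q w)
    (hl' : α + β * cz p q w' = cx p q w') (hc : c + 1 = α + β * (A + k)) :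
    RA k d c A p q ∧ ∀ t, eL k d A p q t = α + β * t := by
  obtain ⟨hr, -, -⟩ := EVal2_reg huv
  obtain ⟨qa, qab, qbv, qu1, qv1, qc⟩ := PGa.XCrv_ab hr
  have w2 : PGa.DomW p q w' := by
    refine ⟨hw.trans hw', ha, ?_⟩
    unfold PGa.aa PGa.bb
    linarith
  have w1 : PGa.DomW p q w := by
    have a1 : PGa.aa p q * w < 1 := by
      have := mul_lt_mul_of_pos_left hw' qa
      have := w2.a
      linarith
    refine ⟨hw, a1, ?_⟩
    have h4 : 1 - 2 * PGa.bb p q * w + PGa.aa p q * PGa.bb p q * w ^ 2 =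
        (1 - 2 * PGa.bb p q * w' + PGa.aa p q * PGa.bb p q * w' ^ 2) +
          PGa.bb p q * (w' - w) * ((1 - PGa.aa p q * w) + (1 - PGa.aa p q * w')) := by ring
    rw [h4]
    have h5 : 0 < PGa.bb p q * (w' - w) * ((1 - PGa.aa p q * w) + (1 - PGa.aa p q * w')) :=
      mul_pos (mul_pos (qa.trans qab) (by linarith)) (by linarith [w2.a])
    linarith [w2.d]
  obtain ⟨d1, e1⟩ := PGa.zw_dom hr w1
  obtain ⟨d2, e2⟩ := PGa.zw_dom hr w2
  have hlt := FCrv_lt hr w1 w2 hw'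
  obtain ⟨q1, q2⟩ := EVal2_eq (z1 := cz p q w) (z2 := cz p q w') hk hd hA ⟨hlt, hs, hp⟩
  obtain ⟨he, hz, hD⟩ := EVal2_eig hk hd hA
  have hD0 : 0 < eDl k d A := by rw [← hD]; linarith [he.lt]
  have x1 : eX p q (eZ1 k d A) = α + β * eZ1 k d A := by
    rw [← q1, hl]
    change PGa.xw p q (PGa.wz p q (PGa.zw p q w)) = _
    rw [e1]
    rfl
  have x2 : eX p q (eZ2 k d A) = α + β * eZ2 k d A := by
    rw [← q2, hl']
    change PGa.xw p q (PGa.wz p q (PGa.zw p q w')) = _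
    rw [e2]
    rfl
  have key : ∀ t, eL k d A p q t = α + β * t := by
    intro t
    unfold eL
    rw [x1, x2, ← hD]
    have : eZ2 k d A - eZ1 k d A ≠ 0 := by rw [hD]; exact hD0.ne'
    field_simp
    ring
  refine ⟨⟨hA, ?_, ?_, ?_⟩, key⟩
  · rw [← q2]; exact d2.a
  · rw [← q2]; exact d2.d
  · rw [key]; exact hc

end PGr

end

section
/-! # FEq: the explicit system and its final form -/

set_option linter.unusedSectionVars false

namespace PGr
open Real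

/-- the rational part of `zP` -/
noncomputable def eB (k d c u v A α β s E p q X : ℝ) : ℝ :=
  (4 * k * (d - X - d * X) + k ^ 2 * d ^ 3 / (1 + k * d) -
    u * v * (2 - 3 * u + 4 * u ^ 2 - u ^ 3) / (1 - u) ^ 2 - k * p * q * (1 - p) / (1 - q) -
    p * q + c * p * (1 - q) + k * (1 + d) ^ 2 * (q * (1 - p) ^ 2 - E / (1 + E)) +
    s * (q * (1 - p) ^ 2) * (α * (1 + d) + β * (A + (1 + d) * (1 + k + k * d)) -
      (1 + d) * (1 + E))) / 4

/-- the sum over the rotations -/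
theorem FEq_sum (f : ℕ → ℝ) (T : ℝ) :
    HasSum (fun k : ℕ => ((k + 3).totient : ℝ) / (2 * ((k + 3 : ℕ) : ℝ)) * f (k + 3)) T ↔
    HasSum (fun j : ℕ => ((j + 1).totient : ℝ) / (2 * (j + 1)) * f (j + 1))
      (f 1 / 2 + f 2 / 4 + T) := by
  rw [← hasSum_nat_add_iff' (f := fun j : ℕ => ((j + 1).totient : ℝ) /
    (2 * ((j : ℝ) + 1)) * f (j + 1)) 2]
  have e1 : f 1 / 2 + f 2 / 4 + T - ∑ i ∈ Finset.range 2, ((i + 1).totient : ℝ) /
      (2 * ((i : ℝ) + 1)) * f (i + 1) = T := by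
    rw [Finset.sum_range_succ, Finset.sum_range_one]
    norm_num [Nat.totient_one, Nat.totient_two]
    ring
  rw [e1]
  have e2 : (fun k : ℕ => ((k + 3).totient : ℝ) / (2 * ((k + 3 : ℕ) : ℝ)) * f (k + 3)) =
      fun n : ℕ => ((n + 2 + 1).totient : ℝ) / (2 * (((n + 2 : ℕ) : ℝ) + 1)) * f (n + 2 + 1) := by
    funext n
    push_cast
    ring_nf
  rw [e2]

section
variable {K D S U V A : ℝ → ℝ} {α β x : ℝ}

theorem FEq_X (h : UV (K x) (D x) (U x) (V x))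
    (h' : UV (K (x ^ 2)) (D (x ^ 2)) (U (x ^ 2)) (V (x ^ 2)))
    (hL : ∀ t, eL (K x) (D x) (A x) (U (x ^ 2)) (V (x ^ 2)) t = α + β * t) :
    2 * zX K D U V A x = D x / (1 + D x) - V x * (1 - U x) ^ 2 + K x * D x ^ 2 / (1 + K x * D x) +
      (1 + D x) * (V (x ^ 2) * (1 - U (x ^ 2)) ^ 2 - D (x ^ 2) / (1 + D (x ^ 2))) +
      K (x ^ 2) * (V (x ^ 2) * (1 - U (x ^ 2)) ^ 2) *
        (α + β * (1 + K x + K x * D x) - 1 - D (x ^ 2)) / K x :=
  FAlg_X h h' hL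

theorem FEq_Z (hk : 0 < K x) (hc : 0 ≤ S x)
    (h' : UV (K (x ^ 2)) (D (x ^ 2)) (U (x ^ 2)) (V (x ^ 2))) :
    2 * zZ K D S U V A x = K x * (V (x ^ 2) * (1 - U (x ^ 2)) ^ 2) / (1 - V (x ^ 2)) +
      V (x ^ 2) * (1 - U (x ^ 2)) + S x * (U (x ^ 2) + V (x ^ 2) - U (x ^ 2) * V (x ^ 2)) -
      (1 + S x) * (D (x ^ 2) / (1 + D (x ^ 2))) + S x / (1 + S x) -
      A x * (V (x ^ 2) * (1 - U (x ^ 2)) ^ 2) :=
  FAlg_Z hk hc h'

/-- the value of `zP` -/
theorem FEq_P (h : UV (K x) (D x) (U x) (V x))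
    (h' : UV (K (x ^ 2)) (D (x ^ 2)) (U (x ^ 2)) (V (x ^ 2)))
    (hL : ∀ t, eL (K x) (D x) (A x) (U (x ^ 2)) (V (x ^ 2)) t = α + β * t) :
    zP K D S U V A x = lg (K x) (U x) (V x) / 2 + lg (K x) (U (x ^ 2)) (V (x ^ 2)) / 4 +
      ∑' k : ℕ, ((k + 3).totient : ℝ) / (2 * ((k + 3 : ℕ) : ℝ)) *
        eQ (K x) (U (x ^ (k + 3))) (V (x ^ (k + 3))) +
      eB (K x) (D x) (S x) (U x) (V x) (A x) α β (K (x ^ 2)) (D (x ^ 2)) (U (x ^ 2)) (V (x ^ 2))
        (zX K D U V A x) := by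
  have h1 := FAlg_P (X := zX K D U V A x) (c := S x) h h' hL
  unfold zP zR zSS eB
  linear_combination (1 / 4) * h1

end

/-- from the explicit system to its final form -/
theorem FEq_to {K D S U V A : ℝ → ℝ} {ε : ℝ} (hε : ε ≤ 1)
    (hS : ∀ x, 0 < x → x < ε → 0 ≤ S x)
    (h : ∀ x, 0 < x → x < ε → ESys K D S U V A x) :
    ∃ Y W W' α β X Z B P : ℝ → ℝ, ∀ x, 0 < x → x < ε →
      FSys K D S U V Y A W W' α β X Z B P x := by
  have hpow : ∀ x, 0 < x → x < ε → ∀ j : ℕ, 0 < x ^ (j + 1) ∧ x ^ (j + 1) < ε := by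
    intro x h0 h1 j
    refine ⟨by positivity, lt_of_le_of_lt ?_ h1⟩
    exact pow_le_of_le_one h0.le (h1.le.trans hε) (by omega)
  have huv2 : ∀ x, 0 < x → x < ε → UV (K (x ^ 2)) (D (x ^ 2)) (U (x ^ 2)) (V (x ^ 2)) :=
    fun x h0 h1 => (h (x ^ 2) (hpow x h0 h1 1).1 (hpow x h0 h1 1).2).uv
  have hpos : ∀ x, 0 < x → x < ε → 0 < K x ∧ 0 < D x := by
    intro x h0 h1
    obtain ⟨a1, a2, a3, a4, a5⟩ := UV.iff.1 (h x h0 h1).uv
    have hp : 0 < U x * V x := mul_pos a1 a2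
    have hu : 0 < 1 - U x := by nlinarith
    have hv : 0 < 1 - V x := by nlinarith
    have huv : 0 < 1 - U x - V x := by nlinarith
    rw [a4, a5]
    constructor <;> positivity
  have hch : ∀ x : ℝ, ∃ p : ℝ × ℝ × ℝ × ℝ, 0 < x → x < ε → 0 < p.1 ∧ p.1 < p.2.1 ∧
      V (x ^ 2) * (1 - U (x ^ 2)) * p.2.1 < 1 ∧
      2 * (V (x ^ 2) * (1 - U (x ^ 2) * V (x ^ 2))) * p.2.1 <
        1 + V (x ^ 2) * (1 - U (x ^ 2)) * (V (x ^ 2) * (1 - U (x ^ 2) * V (x ^ 2))) * p.2.1 ^ 2 ∧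
      cz (U (x ^ 2)) (V (x ^ 2)) p.1 + cz (U (x ^ 2)) (V (x ^ 2)) p.2.1 =
        1 + A x + K x + K x * D x ∧
      cz (U (x ^ 2)) (V (x ^ 2)) p.1 * cz (U (x ^ 2)) (V (x ^ 2)) p.2.1 =
        A x * (1 + K x * D x) ∧
      p.2.2.1 + p.2.2.2 * cz (U (x ^ 2)) (V (x ^ 2)) p.1 = cx (U (x ^ 2)) (V (x ^ 2)) p.1 ∧
      p.2.2.1 + p.2.2.2 * cz (U (x ^ 2)) (V (x ^ 2)) p.2.1 = cx (U (x ^ 2)) (V (x ^ 2)) p.2.1 ∧
      ∀ t, eL (K x) (D x) (A x) (U (x ^ 2)) (V (x ^ 2)) t = p.2.2.1 + p.2.2.2 * t := by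
    intro x
    by_cases hx : 0 < x ∧ x < ε
    · obtain ⟨w, w', α, β, h1⟩ := RA.param (hpos x hx.1 hx.2).1 (hpos x hx.1 hx.2).2
        (huv2 x hx.1 hx.2) (h x hx.1 hx.2).ra
      exact ⟨(w, w', α, β), fun _ _ => h1⟩
    · exact ⟨(0, 0, 0, 0), fun h0 h1 => absurd ⟨h0, h1⟩ hx⟩
  choose p hp using hch
  refine ⟨fun x => V x * (1 - U x) ^ 2, fun x => (p x).1, fun x => (p x).2.1,
    fun x => (p x).2.2.1, fun x => (p x).2.2.2, zX K D U V A, zZ K D S U V A,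
    fun x => eB (K x) (D x) (S x) (U x) (V x) (A x) (p x).2.2.1 (p x).2.2.2 (K (x ^ 2))
      (D (x ^ 2)) (U (x ^ 2)) (V (x ^ 2)) (zX K D U V A x), zP K D S U V A, fun x h0 h1 => ?_⟩
  obtain ⟨b1, b2, b3, b4, b5, b6, b7, b8, b9⟩ := hp x h0 h1
  obtain ⟨a1, a2, a3, a4, a5⟩ := UV.iff.1 (h x h0 h1).uv
  have hE := h x h0 h1
  have hra := hE.ra
  obtain ⟨c1, c2, c3, c4⟩ := hra
  have hD0 := (hpos x h0 h1).2
  have hK0 := (hpos x h0 h1).1
  refine ⟨⟨a1, a2, a3, a4, a5, rfl, c1, b1, b2, b3, b4, b5, b6, b7, b8, ?_, ?_, ?_, ?_⟩, ?_, ?_, ?_,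
    ?_⟩
  · rw [c4, b9]
  · exact FEq_X hE.uv (huv2 x h0 h1) b9
  · exact FEq_Z hK0 (hS x h0 h1) (huv2 x h0 h1)
  · simp only [eB]
    ring
  · have h2 := (FEq_sum (fun j => lg (K x) (U (x ^ j)) (V (x ^ j))) _).1 hE.sQ.hasSum
    refine (congrArg (HasSum _) ?_).mp h2
    rw [FEq_P hE.uv (huv2 x h0 h1) b9]
    simp only [pow_one]
    ring
  · have h2 : (1 + D x) / 2 = exp (∑' k : ℕ, zX K D U V A (x ^ (k + 1)) / ((k + 1 : ℕ) : ℝ)) := by
      have := hE.eD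
      linarith
    rw [h2, log_exp]
    have h3 := hE.sX.hasSum
    push_cast at h3 ⊢
    exact h3
  · have h2 : (1 + S x) / 2 = exp (∑' k : ℕ, (if Even k then zZ K D S U V A (x ^ (k + 1)) else
        zX K D U V A (x ^ (k + 1))) / ((k + 1 : ℕ) : ℝ)) := by
      have := hE.eS
      linarith
    rw [h2, log_exp]
    have h3 := hE.sZ.hasSum
    push_cast at h3 ⊢
    exact h3
  · have h2 : K x / x = exp (∑' k : ℕ, zP K D S U V A (x ^ (k + 1)) / ((k + 1 : ℕ) : ℝ)) := by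
      have := hE.eK
      rw [div_eq_iff h0.ne']
      linarith
    rw [h2, log_exp]
    have h3 := hE.sP.hasSum
    push_cast at h3 ⊢
    exact h3

/-- from the final form to the explicit system -/
theorem FEq_from {K D S U V Y A W W' α β X Z B P : ℝ → ℝ} {ε : ℝ} (hε : ε ≤ 1)
    (hS : ∀ x, 0 < x → x < ε → 0 ≤ S x)
    (h : ∀ x, 0 < x → x < ε → FSys K D S U V Y A W W' α β X Z B P x) :
    ∀ x, 0 < x → x < ε → ESys K D S U V A x := by
  have hpow : ∀ x, 0 < x → x < ε → ∀ j : ℕ, 0 < x ^ (j + 1) ∧ x ^ (j + 1) < ε := by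
    intro x h0 h1 j
    refine ⟨by positivity, lt_of_le_of_lt ?_ h1⟩
    exact pow_le_of_le_one h0.le (h1.le.trans hε) (by omega)
  have huv : ∀ x, 0 < x → x < ε → UV (K x) (D x) (U x) (V x) := by
    intro x h0 h1
    have hl := (h x h0 h1).loc
    exact UV.iff.2 ⟨hl.u0, hl.v0, hl.reg, hl.hk, hl.hd⟩
  have huv2 : ∀ x, 0 < x → x < ε → UV (K (x ^ 2)) (D (x ^ 2)) (U (x ^ 2)) (V (x ^ 2)) :=
    fun x h0 h1 => huv (x ^ 2) (hpow x h0 h1 1).1 (hpow x h0 h1 1).2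
  have hpos : ∀ x, 0 < x → x < ε → 0 < K x ∧ 0 < D x := by
    intro x h0 h1
    obtain ⟨a1, a2, a3, a4, a5⟩ := UV.iff.1 (huv x h0 h1)
    have hp : 0 < U x * V x := mul_pos a1 a2
    have hu : 0 < 1 - U x := by nlinarith
    have hv : 0 < 1 - V x := by nlinarith
    have huv : 0 < 1 - U x - V x := by nlinarith
    rw [a4, a5]
    constructor <;> positivity
  have hY : ∀ x, 0 < x → x < ε → Y (x ^ 2) = V (x ^ 2) * (1 - U (x ^ 2)) ^ 2 :=
    fun x h0 h1 => (h (x ^ 2) (hpow x h0 h1 1).1 (hpow x h0 h1 1).2).loc.hy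
  have hra : ∀ x, 0 < x → x < ε → RA (K x) (D x) (S x) (A x) (U (x ^ 2)) (V (x ^ 2)) ∧
      ∀ t, eL (K x) (D x) (A x) (U (x ^ 2)) (V (x ^ 2)) t = α x + β x * t := by
    intro x h0 h1
    have hl := (h x h0 h1).loc
    exact RA.of_param (hpos x h0 h1).1 (hpos x h0 h1).2 (huv2 x h0 h1) hl.A0 hl.w0 hl.ww hl.wa
      hl.wb hl.sum hl.prod hl.line hl.line' hl.hc
  have hX : ∀ x, 0 < x → x < ε → zX K D U V A x = X x := by
    intro x h0 h1
    have h2 := FEq_X (huv x h0 h1) (huv2 x h0 h1) (hra x h0 h1).2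
    have hl := (h x h0 h1).loc
    have h3 := hl.hX
    rw [hl.hy, hY x h0 h1] at h3
    linarith
  have hZ : ∀ x, 0 < x → x < ε → zZ K D S U V A x = Z x := by
    intro x h0 h1
    have h2 := FEq_Z (A := A) (hpos x h0 h1).1 (hS x h0 h1) (huv2 x h0 h1)
    have h3 := (h x h0 h1).loc.hZ
    rw [hY x h0 h1] at h3
    linarith
  have hQ : ∀ x, 0 < x → x < ε → HasSum (fun k : ℕ => ((k + 3).totient : ℝ) /
      (2 * ((k + 3 : ℕ) : ℝ)) * eQ (K x) (U (x ^ (k + 3))) (V (x ^ (k + 3))))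
      (P x - B x - lg (K x) (U x) (V x) / 2 - lg (K x) (U (x ^ 2)) (V (x ^ 2)) / 4) := by
    intro x h0 h1
    refine (FEq_sum (fun j => lg (K x) (U (x ^ j)) (V (x ^ j))) _).2 ?_
    refine (congrArg (HasSum _) ?_).mp (h x h0 h1).hP
    simp only [pow_one]
    ring
  have hP : ∀ x, 0 < x → x < ε → zP K D S U V A x = P x := by
    intro x h0 h1
    rw [FEq_P (huv x h0 h1) (huv2 x h0 h1) (hra x h0 h1).2, (hQ x h0 h1).tsum_eq, hX x h0 h1]
    have h3 := (h x h0 h1).loc.hB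
    rw [hY x h0 h1] at h3
    unfold eB
    linarith
  intro x h0 h1
  have hs := h x h0 h1
  have eX : (fun k : ℕ => zX K D U V A (x ^ (k + 1)) / ((k + 1 : ℕ) : ℝ)) =
      fun j : ℕ => X (x ^ (j + 1)) / (j + 1) := by
    funext j
    rw [hX _ (hpow x h0 h1 j).1 (hpow x h0 h1 j).2]
    push_cast
    ring
  have eZ : (fun k : ℕ => (if Even k then zZ K D S U V A (x ^ (k + 1)) else
      zX K D U V A (x ^ (k + 1))) / ((k + 1 : ℕ) : ℝ)) =
      fun j : ℕ => (if Even j then Z (x ^ (j + 1)) else X (x ^ (j + 1))) / (j + 1) := by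
    funext j
    rw [hX _ (hpow x h0 h1 j).1 (hpow x h0 h1 j).2, hZ _ (hpow x h0 h1 j).1 (hpow x h0 h1 j).2]
    push_cast
    ring
  have eP : (fun k : ℕ => zP K D S U V A (x ^ (k + 1)) / ((k + 1 : ℕ) : ℝ)) =
      fun j : ℕ => P (x ^ (j + 1)) / (j + 1) := by
    funext j
    rw [hP _ (hpow x h0 h1 j).1 (hpow x h0 h1 j).2]
    push_cast
    ring
  refine ⟨huv x h0 h1, (hra x h0 h1).1, (hQ x h0 h1).summable, ?_, ?_, ?_, ?_, ?_, ?_⟩
  · rw [eX]
    exact hs.hD.summable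
  · rw [eZ]
    exact hs.hS.summable
  · rw [eP]
    exact hs.hK.summable
  · rw [eX, hs.hD.tsum_eq, exp_log (by have := (hpos x h0 h1).2; linarith)]
    ring
  · rw [eZ, hs.hS.tsum_eq, exp_log (by have := hS x h0 h1; linarith)]
    ring
  · rw [eP, hs.hK.tsum_eq, exp_log (div_pos (hpos x h0 h1).1 h0)]
    field_simp

end PGr

end
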