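import Pool.Agent.PGm.M14
import Pool.Agent.PGm.M21
import Pool.Agent.PGm.M22
import Pool.Agent.PGm.M25
import Pool.Agent.PGm.M27
import Pool.Agent.PGm.M28
import Pool.Agent.PGm.M29
import Pool.Agent.PGm.M30
import Pool.Agent.PGm.M32
import Pool.Agent.PGm.M34

section
/-! # Module FinFR: the nets with a rotation exchanging the root darts -/

set_option linter.unusedSectionVars false

namespace PGr
open Equiv Finset PGa
open scoped ENNReal Classical

/-- truncated: at most `n` darts -/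
noncomputable def FRt (S Y kv kf ke : ℝ≥0∞) (n : ℕ) : ℝ≥0∞ :=
  ∑' c : GC, if Fintype.card c.rep.1.T ≤ n then wPi S Y kv kf ke c.rep.1 else 0

private theorem FinFR_card (a b : GC) :
    Fintype.card (serC a b).rep.1.T = Fintype.card a.rep.1.D + Fintype.card b.rep.1.T ∧
      0 < Fintype.card a.rep.1.D := by
  constructor
  · have h1 : Fintype.card (serC a b).rep.1.D = Fintype.card (serMap a.rep b.rep).D :=
      (ESum.rep_iso _ : BIso (serC a b).rep.1 (serMap a.rep b.rep)).card_eq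
    have h2 : Fintype.card (serC a b).rep.1.T = Fintype.card (serC a b).rep.1.D + 2 := by
      rw [Fintype.card_sum, Fintype.card_bool]
    have h3 : Fintype.card b.rep.1.T = Fintype.card b.rep.1.D + 2 := by
      rw [Fintype.card_sum, Fintype.card_bool]
    rw [h2, h3, h1, serMap_card]
    ring
  · obtain ⟨k, h1, h2⟩ := card_D_even a.rep.2
    omega

/-- The proof of `FR_ser` with at most `n + 1` darts: a series composition `serC a (serC k (twC false true a))` has more darts than `k` (`serMap_card`). -/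
theorem FR_ser_trunc (S Y kv kf ke : ℝ≥0∞) (n : ℕ) :
    (∑' c : GC, if IsSer c.rep.1 ∧ Fintype.card c.rep.1.T ≤ n + 1 then
      wPi S Y kv kf ke c.rep.1 else 0) ≤
    (∑' a : GC, if ¬ IsSer a.rep.1 then nwt S Y a.rep.1 ^ 2 else 0) *
      (kv + S ^ 2 * FRt S Y kv kf ke n) := by
  set g : GC → ℝ≥0∞ := fun x => if Fintype.card x.rep.1.T ≤ n + 1 then
    wPi S Y kv kf ke x.rep.1 else 0 with hg
  have h0 : (∑' c : GC, if IsSer c.rep.1 ∧ Fintype.card c.rep.1.T ≤ n + 1 then
      wPi S Y kv kf ke c.rep.1 else 0) = ∑' c : GC, if IsSer c.rep.1 then g c else 0 := by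
    refine tsum_congr fun c => ?_
    by_cases h1 : IsSer c.rep.1
    · by_cases h2 : Fintype.card c.rep.1.T ≤ n + 1
      · simp [h1, hg]
      · simp [h1, hg]
    · simp [h1]
  rw [h0, ser_sum g, ← ENNReal.tsum_mul_right]
  refine ENNReal.tsum_le_tsum fun a => ?_
  by_cases ha : IsSer a.rep.1
  · simp [ha]
  · simp only [ha, not_false_eq_true, if_true]
    have hzs : ¬ IsSer (twC false true a).rep.1 := by rw [isSer_twC]; exact ha
    rw [DOne_split (fun b => g (serC a b)) (twC false true a)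
      (fun k => serC k (twC false true a)) (fun k k' h => serC_right_inj hzs h)
      (fun k h => hzs (by rw [h]; exact isSer_serC _ _))]
    · have e1 : g (serC a (twC false true a)) ≤ kv * nwt S Y a.rep.1 ^ 2 := by
        rw [← wPi_ser2 (ke := ke) (kf := kf) a]
        simp only [hg]
        split_ifs
        · exact le_refl _
        · exact zero_le
      have e2 : ∀ k : GC, g (serC a (serC k (twC false true a))) ≤
          S ^ 2 * nwt S Y a.rep.1 ^ 2 *
            (if Fintype.card k.rep.1.T ≤ n then wPi S Y kv kf ke k.rep.1 else 0) := by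
        intro k
        have h3 := FinFR_card a (serC k (twC false true a))
        have h4 := FinFR_card k (twC false true a)
        have h6 := FinFR_card (twC false true a) k
        have h7 : Fintype.card k.rep.1.T = Fintype.card k.rep.1.D + 2 := by
          rw [Fintype.card_sum, Fintype.card_bool]
        have h8 : Fintype.card (twC false true a).rep.1.T =
            Fintype.card (twC false true a).rep.1.D + 2 := by
          rw [Fintype.card_sum, Fintype.card_bool]
        simp only [hg]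
        rw [wPi_ser3 ha k]
        by_cases h5 : Fintype.card k.rep.1.T ≤ n
        · rw [if_pos h5]
          split_ifs
          · exact le_refl _
          · exact zero_le
        · rw [if_neg h5, if_neg (by omega)]
          exact zero_le
      refine (add_le_add e1 (ENNReal.tsum_le_tsum e2)).trans (le_of_eq ?_)
      rw [ENNReal.tsum_mul_left]
      unfold FRt
      ring
    · intro b hb hb'
      simp only [hg]
      rw [wPi_none, ite_self]
      rw [pi_iff]
      intro h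
      rcases sym_ser ha h with h | ⟨k, -, h⟩
      · exact hb h
      · exact hb' k h

/-- Proof.  Let `h = S ^ 2 * FRsel (¬ IsSer)`, `Ns` the sum in `FR_ser_trunc`, `E = eN (S ^ 2) 1 (Y ^ 2) 1`; `Ns * (1 + S ^ 2 * E) = E` (`Nser_eq`).  Put `B = (1 + S ^ 2 * E) * (h / S ^ 2) + kv * E`; then
`B = h / S ^ 2 + Ns * (kv + S ^ 2 * B)` (in real numbers; everything is finite).  By induction `FRt n ≤ B` (`FRt 0 = 0`; `FRt (n + 1) ≤ FRsel (¬ IsSer) + ...`, `FR_ser_trunc`), so `FRs ≤ B < ⊤` (`FRs` is the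
supremum of the `FRt n`).  Then `FR_split`, `FR_ser`: `FRs = h / S ^ 2 + Ns * (kv + S ^ 2 * FRs)`, and `FRs` is finite, so `FRs = B`. -/
theorem FRs_eq {S Y kv kf ke : ℝ≥0∞} (hS : S ≠ 0) (hS' : S ≠ ⊤) (hkv : kv ≠ ⊤)
    (hE : eN (S ^ 2) 1 (Y ^ 2) 1 ≠ ⊤) (hh : S ^ 2 * FRsel S Y kv kf ke (fun M => ¬ IsSer M) ≠ ⊤) :
    FRs S Y kv kf ke = (1 + S ^ 2 * eN (S ^ 2) 1 (Y ^ 2) 1) *
      (S ^ 2 * FRsel S Y kv kf ke (fun M => ¬ IsSer M) / S ^ 2) +
      kv * eN (S ^ 2) 1 (Y ^ 2) 1 := by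
  set E := eN (S ^ 2) 1 (Y ^ 2) 1 with hEd
  set H := FRsel S Y kv kf ke (fun M => ¬ IsSer M) with hH
  set Ns := (∑' a : GC, if ¬ IsSer a.rep.1 then nwt S Y a.rep.1 ^ 2 else 0) with hNs
  have hN : Ns * (1 + S ^ 2 * E) = E := Nser_eq
  have hS2 : S ^ 2 ≠ 0 := pow_ne_zero _ hS
  have hS2' : S ^ 2 ≠ ⊤ := ENNReal.pow_ne_top hS'
  have hH1 : S ^ 2 * H / S ^ 2 = H := by
    rw [mul_comm, ENNReal.mul_div_cancel_right hS2 hS2']
  rw [hH1]
  have hHt : H ≠ ⊤ := by
    intro h
    apply hh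
    rw [h, ENNReal.mul_top hS2]
  set B := (1 + S ^ 2 * E) * H + kv * E with hB
  have hBt : B ≠ ⊤ := by
    rw [hB]
    refine ENNReal.add_ne_top.2 ⟨ENNReal.mul_ne_top (ENNReal.add_ne_top.2
      ⟨ENNReal.one_ne_top, ENNReal.mul_ne_top hS2' hE⟩) hHt, ENNReal.mul_ne_top hkv hE⟩
  have hBe : H + Ns * (kv + S ^ 2 * B) = B := by
    have e1 : H + Ns * (kv + S ^ 2 * B) = H + S ^ 2 * (Ns * (1 + S ^ 2 * E)) * H +
        kv * (Ns * (1 + S ^ 2 * E)) := by
      rw [hB]
      ring
    rw [e1, hN, hB]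
    ring
  have hle : ∀ n, FRt S Y kv kf ke n ≤ B := by
    intro n
    induction n with
    | zero =>
      unfold FRt
      rw [ENNReal.tsum_eq_zero.2]
      · exact zero_le
      · intro c
        have h7 : Fintype.card c.rep.1.T = Fintype.card c.rep.1.D + 2 := by
          rw [Fintype.card_sum, Fintype.card_bool]
        rw [if_neg (by omega)]
    | succ n ih =>
      rw [← hBe]
      have h1 : FRt S Y kv kf ke (n + 1) ≤ H +
          ∑' c : GC, if IsSer c.rep.1 ∧ Fintype.card c.rep.1.T ≤ n + 1 then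
            wPi S Y kv kf ke c.rep.1 else 0 := by
        rw [hH]
        unfold FRt FRsel
        rw [← ENNReal.tsum_add]
        refine ENNReal.tsum_le_tsum fun c => ?_
        by_cases h2 : Fintype.card c.rep.1.T ≤ n + 1
        · by_cases h1 : IsSer c.rep.1
          · rw [if_pos h2, if_neg (not_not.2 h1), if_pos ⟨h1, h2⟩, zero_add]
          · rw [if_pos h2, if_pos h1, if_neg (fun h => h1 h.1), add_zero]
        · rw [if_neg h2]
          exact zero_le
      refine h1.trans (add_le_add_right ((FR_ser_trunc S Y kv kf ke n).trans ?_) _)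
      gcongr
  have hFle : FRs S Y kv kf ke ≤ B := by
    unfold FRs
    refine ENNReal.summable.tsum_le_of_sum_le fun s => ?_
    refine le_trans ?_ (hle (s.sup fun c => Fintype.card c.rep.1.T))
    unfold FRt
    refine le_trans (le_of_eq ?_) (ENNReal.sum_le_tsum s)
    refine sum_congr rfl fun c hc => ?_
    rw [if_pos (le_sup (f := fun c : GC => Fintype.card c.rep.1.T) hc)]
  have hFt : FRs S Y kv kf ke ≠ ⊤ := ne_top_of_le_ne_top hBt hFle
  have hF : FRs S Y kv kf ke = H + Ns * (kv + S ^ 2 * FRs S Y kv kf ke) := by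
    conv_lhs => rw [FR_split, FR_ser]
  set F := FRs S Y kv kf ke with hFd
  have h1 : F * (1 + S ^ 2 * E) = (H + Ns * (kv + S ^ 2 * F)) * (1 + S ^ 2 * E) := by
    rw [← hF]
  have h2 : (H + Ns * (kv + S ^ 2 * F)) * (1 + S ^ 2 * E) =
      B + S ^ 2 * E * F := by
    have e1 : (H + Ns * (kv + S ^ 2 * F)) * (1 + S ^ 2 * E) =
      H * (1 + S ^ 2 * E) + (Ns * (1 + S ^ 2 * E)) * kv + S ^ 2 * (Ns * (1 + S ^ 2 * E)) * F := by
      ring
    rw [e1, hN, hB]
    ring
  have h3 : F + S ^ 2 * E * F = B + S ^ 2 * E * F := by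
    rw [← h2, ← h1]
    ring
  exact (ENNReal.add_left_inj (ENNReal.mul_ne_top (ENNReal.mul_ne_top hS2' hE) hFt)).1 h3

section
variable {q c kv kf ke : ℝ}

private theorem FinFR_D (hq : 0 < q) (hqc : q < c) (hc : c < 1) :
    0 < 1 - uu q c - uu q c * vv q c := by
  have h1 := one_sub_qc hq hqc hc
  have h2 := c_sub_qq hq hqc hc
  have h4 : 0 < c - q ^ 3 := by nlinarith [mul_pos hq hq]
  have h5 : 0 < 1 - c := by linarith
  have e : 1 - uu q c - uu q c * vv q c =
      (1 - c) * (c - q ^ 3) / ((1 - q * c) * (c - q ^ 2)) := by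
    have g1 : 1 - c * q ≠ 0 := by nlinarith
    have g2 := h2.ne'
    unfold uu vv
    field_simp
    ring
  rw [e]
  positivity

private theorem FinFR_E (hq : 0 < q) (hqc : q < c) (hc : c < 1) : 0 < EE q c := by
  have h1 := one_sub_qc hq hqc hc
  have h2 := c_sub_qq hq hqc hc
  have h4 : 0 < c - q := by linarith
  have h5 : 0 < 1 - c := by linarith
  have e : 1 - uu q c - vv q c =
      (1 - c) * (c - q) * (1 + q + q ^ 2) / ((1 - q * c) * (c - q ^ 2)) := by
    have g1 : 1 - c * q ≠ 0 := by nlinarith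
    have g2 := h2.ne'
    unfold uu vv
    field_simp
    ring
  have h6 : 0 < 1 - uu q c - vv q c := by
    rw [e]
    positivity
  have h7 := vv_pos hq hqc hc
  have h8 := one_sub_vv_pos hq hqc hc
  unfold EE
  positivity

/-- Proof.  `S = kr 2 (ss)`, `Y = kr 2 (yy)`; `FR_ns`: `S ^ 2 * FRsel (¬ IsSer) = gF 2 S 1 Y kv kf ke 1 + ke * ss = hS .. 1` (`kr_one`, `kr_pow`), which is the real number of `hS_one`, `Hd_q`; `FRs_eq`, `eN_eq_Es`, `hEs`;
the algebra: `ss = u (1 - v)^2 / (v (1 - u)^2)`, `EE = v (1 - u - v) / (1 - v)^2`, `1 + s E = (1 - u - u v) / (1 - u)^2`; `1 - u - v > 0` and `1 - u - u v > 0` (`EE_pos`, or `1 - u - u v ≥ 1 - u - v`). -/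
theorem FRs_val (hq : 0 < q) (hqc : q < c) (hc : c < 1) (hkv : 0 ≤ kv) (hkf : 0 ≤ kf)
    (hke0 : 0 ≤ ke)
    (hEs : Es (ENNReal.ofReal (ss q c)) (ENNReal.ofReal (yy q c)) = ENNReal.ofReal (EE q c)) :
    FRs (kr 2 (ENNReal.ofReal (ss q c))) (kr 2 (ENNReal.ofReal (yy q c)))
      (ENNReal.ofReal kv) (ENNReal.ofReal kf) (ENNReal.ofReal ke) =
      ENNReal.ofReal (kv * (uu q c / (ss q c * (1 - uu q c))) + kf * (vv q c / (1 - vv q c)) +
        ke / ((1 - uu q c) * (1 - vv q c))) := by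
  have hu := uu_pos hq hqc hc
  have hv := vv_pos hq hqc hc
  have hu1 := one_sub_uu_pos hq hqc hc
  have hv1 := one_sub_vv_pos hq hqc hc
  have hs := ss_pos hq hqc hc
  have hD := FinFR_D hq hqc hc
  have hE := FinFR_E hq hqc hc
  have hks : kr 2 (ENNReal.ofReal (ss q c)) ^ 2 = ENNReal.ofReal (ss q c) := kr_pow (le_refl 2) _
  have hky : kr 2 (ENNReal.ofReal (yy q c)) ^ 2 = ENNReal.ofReal (yy q c) := kr_pow (le_refl 2) _
  have hs0 : ENNReal.ofReal (ss q c) ≠ 0 := (ENNReal.ofReal_pos.2 hs).ne'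
  have hS0 : kr 2 (ENNReal.ofReal (ss q c)) ≠ 0 := by
    intro h
    rw [h] at hks
    exact hs0 (by rw [← hks]; simp)
  have hSt : kr 2 (ENNReal.ofReal (ss q c)) ≠ ⊤ := by
    intro h
    rw [h] at hks
    exact ENNReal.ofReal_ne_top (r := ss q c) (by rw [← hks]; simp)
  have hEN : eN (kr 2 (ENNReal.ofReal (ss q c)) ^ 2) 1 (kr 2 (ENNReal.ofReal (yy q c)) ^ 2) 1 =
      ENNReal.ofReal (EE q c) := by
    rw [hks, hky, eN_eq_Es, hEs]
  have hone := hS_one (k := 2) (le_refl 2) (Or.inl rfl) hq hqc hc hkv hkf hke0 hEs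
  have hh : kr 2 (ENNReal.ofReal (ss q c)) ^ 2 * FRsel (kr 2 (ENNReal.ofReal (ss q c)))
      (kr 2 (ENNReal.ofReal (yy q c))) (ENNReal.ofReal kv) (ENNReal.ofReal kf)
      (ENNReal.ofReal ke) (fun M => ¬ IsSer M) =
      ENNReal.ofReal (Hd q c kv kf ke q / dX q c q) := by
    rw [FR_ns, ← hone]
    unfold hRr hS
    rw [hks, ENNReal.ofReal_one, kr_one, div_one, add_comm]
  have hval := Hd_q (kv := kv) (kf := kf) (ke := ke) hq hqc hc
  have hval0 : 0 ≤ Hd q c kv kf ke q / dX q c q := by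
    rw [hval]
    positivity
  rw [FRs_eq hS0 hSt ENNReal.ofReal_ne_top (by rw [hEN]; exact ENNReal.ofReal_ne_top)
    (by rw [hh]; exact ENNReal.ofReal_ne_top), hEN, hh, hks,
    ← ENNReal.ofReal_div_of_pos hs, ← ENNReal.ofReal_one, ← ENNReal.ofReal_mul hs.le,
    ← ENNReal.ofReal_add zero_le_one (by positivity), ← ENNReal.ofReal_mul (by positivity),
    ← ENNReal.ofReal_mul hkv, ← ENNReal.ofReal_add (by positivity) (by positivity)]
  congr 1
  rw [hval]
  have e1 : 1 + ss q c * EE q c =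
      (1 - uu q c - uu q c * vv q c) / (1 - uu q c) ^ 2 := by
    unfold ss EE
    field_simp
    ring
  have e3 : ∀ D : ℝ, D ≠ 0 → D / (1 - uu q c) ^ 2 *
        (kv * (uu q c * vv q c / D) / ss q c) =
        kv * (uu q c * vv q c) / ((1 - uu q c) ^ 2 * ss q c) := by
    intro D hD
    field_simp
  have e2 : kv * EE q c = kv * (uu q c / (ss q c * (1 - uu q c))) -
      (1 - uu q c - uu q c * vv q c) / (1 - uu q c) ^ 2 *
        (kv * (uu q c * vv q c / (1 - uu q c - uu q c * vv q c)) / ss q c) := by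
    rw [e3 _ hD.ne']
    unfold ss EE
    field_simp
  rw [e1, e2]
  field_simp
  ring

end

end PGr

end

section
/-! # Module RigCore: sum over the nets on a rigid core with a rotation about the root vertex -/

set_option linter.unusedSectionVars false
set_option linter.unusedVariables false

namespace PGr
open Equiv Finset
open scoped ENNReal Classical

namespace RigCore

section act
variable {C : Core} {ψ : Perm C.toB.T} {k : ℕ}

theorem root_iff (hψ : Rot C.toB.aa C.s ψ k (Sum.inr true)) (x : C.toB.T) :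
    C.s.SameCycle (Sum.inr true) (ψ x) ↔ C.s.SameCycle (Sum.inr true) x := by
  have h := hψ.pow_root 1 (t := x)
  rwa [pow_one] at h

theorem flip (hψ : Rot C.toB.aa C.s ψ k (Sum.inr true)) {i i' : C.I} {b b' : Bool}
    (h : ψ (Sum.inl (i, b)) = Sum.inl (i', b')) : ψ (Sum.inl (i, !b)) = Sum.inl (i', !b') := by
  have h1 := hψ.ra (Sum.inl (i, b))
  rw [h] at h1
  exact h1

theorem atV_map (hψ : Rot C.toB.aa C.s ψ k (Sum.inr true)) {i i' : C.I} {b b' : Bool}
    (h : ψ (Sum.inl (i, b)) = Sum.inl (i', b')) : AtV C i' ↔ AtV C i := by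
  have h1 := root_iff hψ (Sum.inl (i, b))
  have h2 := root_iff hψ (Sum.inl (i, !b))
  rw [h] at h1
  rw [flip hψ h] at h2
  constructor
  · rintro ⟨c, hc⟩
    by_cases h3 : c = b'
    · rw [h3] at hc
      exact ⟨b, h1.1 hc⟩
    · rw [Bool.eq_not_of_ne h3] at hc
      exact ⟨!b, h2.1 hc⟩
  · rintro ⟨c, hc⟩
    by_cases h3 : c = b
    · rw [h3] at hc
      exact ⟨b', h1.2 hc⟩
    · rw [Bool.eq_not_of_ne h3] at hc
      exact ⟨!b', h2.2 hc⟩

theorem inl_of (hψ : Rot C.toB.aa C.s ψ k (Sum.inr true)) {i : C.I} (hi : ¬ AtV C i) (b : Bool) :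
    ∃ i' b', ψ (Sum.inl (i, b)) = Sum.inl (i', b') := by
  rcases h : ψ (Sum.inl (i, b)) with ⟨i', b'⟩ | c
  · exact ⟨i', b', rfl⟩
  · exfalso
    apply hi
    cases c
    · have h1 := hψ.ra (Sum.inl (i, b))
      rw [h] at h1
      have h2 : ψ (Sum.inl (i, !b)) = Sum.inr true := h1
      refine ⟨!b, (root_iff hψ (Sum.inl (i, !b))).1 ?_⟩
      rw [h2]
      exact Perm.SameCycle.refl _ _
    · refine ⟨b, (root_iff hψ (Sum.inl (i, b))).1 ?_⟩
      rw [h]
      exact Perm.SameCycle.refl _ _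

/-- the darts of the edges which are not at the root vertex -/
def emb (C : Core) (x : {i // ¬ AtV C i} × Bool) : C.toB.T := Sum.inl (x.1.1, x.2)

theorem emb_inj (C : Core) : Function.Injective (emb C) := by
  rintro ⟨⟨i, hi⟩, b⟩ ⟨⟨j, hj⟩, c⟩ h
  have h1 : (i, b) = (j, c) := Sum.inl_injective h
  have h2 : i = j := congrArg Prod.fst h1
  have h3 : b = c := congrArg Prod.snd h1
  subst h2
  subst h3
  rfl

theorem exists_act (hψ : Rot C.toB.aa C.s ψ k (Sum.inr true)) :
    ∃ σ : Perm ({i // ¬ AtV C i} × Bool), ∀ x, ψ (emb C x) = emb C (σ x) := by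
  have h1 : ∀ x : {i // ¬ AtV C i} × Bool, ∃ y, ψ (emb C x) = emb C y := by
    rintro ⟨⟨i, hi⟩, b⟩
    obtain ⟨i', b', h⟩ := inl_of hψ hi b
    exact ⟨(⟨i', fun h' => hi ((atV_map hψ h).1 h')⟩, b'), h⟩
  choose f hf using h1
  have hinj : Function.Injective f := by
    intro x y h
    apply emb_inj C
    apply ψ.injective
    rw [hf, hf, h]
  exact ⟨Equiv.ofBijective f (Finite.injective_iff_bijective.1 hinj), hf⟩

theorem act_pow {σ : Perm ({i // ¬ AtV C i} × Bool)} (hσ : ∀ x, ψ (emb C x) = emb C (σ x))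
    (n : ℕ) (x : {i // ¬ AtV C i} × Bool) : (ψ ^ n) (emb C x) = emb C ((σ ^ n) x) := by
  induction n with
  | zero => rfl
  | succ n ih => rw [pow_succ', Perm.mul_apply, ih, hσ, pow_succ']; rfl

theorem act_flip (hψ : Rot C.toB.aa C.s ψ k (Sum.inr true))
    {σ : Perm ({i // ¬ AtV C i} × Bool)} (hσ : ∀ x, ψ (emb C x) = emb C (σ x))
    (i : {i // ¬ AtV C i}) (b : Bool) : σ (i, !b) = ((σ (i, b)).1, !(σ (i, b)).2) := by
  apply emb_inj C
  rw [← hσ]
  exact flip hψ (hσ (i, b))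

theorem act_rev {σ : Perm ({i // ¬ AtV C i} × Bool)} (hσ : ∀ x, ψ (emb C x) = emb C (σ x))
    (i : {i // ¬ AtV C i}) :
    σ (i, true) = (i, false) ↔ ψ (Sum.inl (i.1, true)) = Sum.inl (i.1, false) := by
  have h1 : ψ (Sum.inl (i.1, true)) = emb C (σ (i, true)) := hσ (i, true)
  constructor
  · intro h
    rw [h1, h]
    rfl
  · intro h
    apply emb_inj C
    rw [← h1, h]
    rfl

/-- the edges fixed by the rotation of the core -/
theorem nFix_act (hC : C.toB.IsGood) (hψ : Rot C.toB.aa C.s ψ k (Sum.inr true))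
    {σ : Perm ({i // ¬ AtV C i} × Bool)} (hσ : ∀ x, ψ (emb C x) = emb C (σ x)) :
    nFix C.toB.aa ψ = (univ.filter fun i => σ (i, true) = (i, false)).card := by
  have hinv : ∀ t, C.toB.aa (C.toB.aa t) = t := hC.inv
  have hfr : ∀ x, ψ x ≠ x := fun x => by
    have h1 := hψ.free x 1 one_pos (by have := hψ.k2; omega)
    rwa [pow_one] at h1
  have p2 : nFix C.s ψ + nFix C.toB.aa ψ + nFix (C.toB.aa * C.toB.s) ψ = 2 :=
    Rot.two_poles (a := C.toB.aa) (s := C.toB.s) hC hψ
  have hroot : C.s.SameCycle (Sum.inr true) (ψ (Sum.inr true)) := hψ.root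
  have hv1 : 1 ≤ nFix C.s ψ := by
    have h3 := PWc.le_nFix (s := C.s) (e := ψ) (κ := Unit) (fun _ => Sum.inr true)
      (fun _ => hroot) (fun _ _ _ => rfl)
    simpa using h3
  have hfix : ∀ i : {i // ¬ AtV C i}, σ (i, true) = (i, false) →
      C.toB.aa.SameCycle (emb C (i, true)) (ψ (emb C (i, true))) := by
    intro i hi
    have h1 : ψ (emb C (i, true)) = emb C (i, false) := by rw [hσ, hi]
    rw [h1]
    exact ⟨1, rfl⟩
  by_cases hex : ∃ i, σ (i, true) = (i, false)
  · obtain ⟨i, hi⟩ := hex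
    have ha1 : 1 ≤ nFix C.toB.aa ψ := by
      have h3 := PWc.le_nFix (s := C.toB.aa) (e := ψ) (κ := Unit) (fun _ => emb C (i, true))
        (fun _ => hfix i hi) (fun _ _ _ => rfl)
      simpa using h3
    have hu : ∀ j, σ (j, true) = (j, false) → j = i := by
      intro j hj
      by_contra hne
      have hne2 : ∀ j j' : {i // ¬ AtV C i},
          C.toB.aa.SameCycle (emb C (j, true)) (emb C (j', true)) → j = j' := by
        intro j j' h1
        rw [CFix.sc_inv hinv] at h1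
        rcases h1 with h1 | h1
        · exact (congrArg Prod.fst (emb_inj C h1)).symm
        · have h2 : emb C (j', true) = emb C (j, false) := h1
          exact (congrArg Prod.fst (emb_inj C h2)).symm
      have h3 := PWc.le_nFix (s := C.toB.aa) (e := ψ) (κ := Bool)
        (fun b => if b then emb C (i, true) else emb C (j, true)) (by
          rintro (_ | _)
          · exact hfix j hj
          · exact hfix i hi) (by
          rintro (_ | _) (_ | _) h3
          · rfl
          · exact absurd (hne2 j i h3) hne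
          · exact absurd (hne2 i j h3).symm hne
          · rfl)
      have h4 : Nat.card Bool = 2 := by simp
      omega
    have h5 : (univ.filter fun i => σ (i, true) = (i, false)) = {i} := by
      ext j
      rw [mem_filter, mem_singleton]
      constructor
      · rintro ⟨-, hj⟩
        exact hu j hj
      · rintro rfl
        exact ⟨mem_univ _, hi⟩
    rw [h5, card_singleton]
    omega
  · have h5 : (univ.filter fun i => σ (i, true) = (i, false)) = ∅ := by
      rw [filter_eq_empty_iff]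
      intro j _ hj
      exact hex ⟨j, hj⟩
    rw [h5, card_empty]
    refine WSc.nFix_zero ?_
    intro t h3
    rw [CFix.sc_inv hinv] at h3
    rcases h3 with h3 | h3
    · exact hfr _ h3
    rcases t with ⟨i, b⟩ | b
    · have h4 : ψ (Sum.inl (i, true)) = Sum.inl (i, false) := by
        cases b
        · exact flip hψ (b := false) (b' := true) h3
        · exact h3
      have h6 := (rev_not_atV hC hψ h4).1
      exact hex ⟨⟨i, h6⟩, (act_rev hσ ⟨i, h6⟩).2 h4⟩
    · have h4 : ψ (Sum.inr true) = Sum.inr false := by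
        cases b
        · have h5 := hψ.ra (Sum.inr false)
          rw [h3, hinv] at h5
          exact h5
        · exact h3
      rw [h4] at hroot
      exact hC.noLoop (Sum.inr true) hroot

/-- compatible families -/
theorem compat_iff (hψ : Rot C.toB.aa C.s ψ k (Sum.inr true))
    {σ : Perm ({i // ¬ AtV C i} × Bool)} (hσ : ∀ x, ψ (emb C x) = emb C (σ x)) (F : C.I → GC) :
    (∀ i b i' b', ψ (Sum.inl (i, b)) = Sum.inl (i', b') → ¬ AtV C i →
        F i' = twC false (xor b b') (F i)) ↔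
      ∀ j : {i // ¬ AtV C i}, F (σ (j, true)).1.1 =
        if (σ (j, true)).2 then F j.1 else twC false true (F j.1) := by
  constructor
  · intro h j
    have h1 : ψ (Sum.inl (j.1, true)) = Sum.inl ((σ (j, true)).1.1, (σ (j, true)).2) :=
      hσ (j, true)
    have h2 := h j.1 true _ _ h1 j.2
    rw [h2]
    cases (σ (j, true)).2
    · rfl
    · exact twC_false _
  · intro h i b i' b' hi hA
    have h1 : emb C (σ (⟨i, hA⟩, b)) = Sum.inl (i', b') := (hσ (⟨i, hA⟩, b)).symm.trans hi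
    have h2 : ((σ (⟨i, hA⟩, b)).1.1, (σ (⟨i, hA⟩, b)).2) = (i', b') := Sum.inl_injective h1
    have h3 : (σ (⟨i, hA⟩, b)).1.1 = i' := congrArg Prod.fst h2
    have h4 : (σ (⟨i, hA⟩, b)).2 = b' := congrArg Prod.snd h2
    have h5 := h ⟨i, hA⟩
    cases b
    · have h6 := act_flip hψ hσ ⟨i, hA⟩ true
      have h7 : σ (⟨i, hA⟩, false) = ((σ (⟨i, hA⟩, true)).1, !(σ (⟨i, hA⟩, true)).2) := h6
      rw [h7] at h3 h4
      rw [← h3, h5, ← h4]
      cases (σ (⟨i, hA⟩, true)).2
      · rfl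
      · exact (twC_false _).symm
    · rw [← h3, h5, ← h4]
      cases (σ (⟨i, hA⟩, true)).2
      · rfl
      · exact (twC_false _).symm

end act

theorem digC_card {x : GC} (h : Fintype.card x.rep.1.D = 2) : x = digC := by
  have hi : BIso digC.rep.1 digonB := ESum.rep_iso ⟨digonB, digon_good⟩
  exact ESum.eq_of_iso ((eq_digon x.rep.2 (by omega)).trans hi.symm)

theorem card_digC : Fintype.card digC.rep.1.D = 2 := by
  have hi : BIso digC.rep.1 digonB := ESum.rep_iso ⟨digonB, digon_good⟩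
  rw [hi.card_eq]
  show Fintype.card Bool = 2
  decide

end RigCore

open RigCore

section
variable {k : ℕ} {S Y Eb kv kf ke x ζ : ℝ≥0∞}

/-- the families of nets for which the composite is in `ZC`: `zc_net` and `eq_digon` (a net with two nonroot darts is isomorphic to the digon, so its class is `digC`), `zc_fwd'`, `CAut.nets`;
conversely `zc_bwd`, `zof`.  `twC_eq_iff`. -/
theorem zc_iff {C : Core} (hC : C.toB.IsGood) (hR : Rigid C.toB) {ψ : Perm C.toB.T}
    (hψ : Rot C.toB.aa C.s ψ k (Sum.inr true)) (F : C.I → GC) :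
    ZC k (comp C fun i => (F i).rep) ↔
      (∀ i, AtV C i → F i = digC) ∧
      ∀ i b i' b', ψ (Sum.inl (i, b)) = Sum.inl (i', b') → ¬ AtV C i →
        F i' = twC false (xor b b') (F i) := by
  constructor
  · intro h
    have h2 : ∀ i, AtV C i → Fintype.card (F i).rep.1.D = 2 := fun i hi => zc_net hC hR h hi
    refine ⟨fun i hi => digC_card (h2 i hi), fun i b i' b' hi _ => ?_⟩
    obtain ⟨ρ, hr⟩ := h.isV
    obtain ⟨ρ', hc, -⟩ := zc_fwd' hC hR hr h2 hψ
    obtain ⟨φ, hφ, -⟩ := hc.nets i b i' b' hi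
    exact (twC_eq_iff.2 ⟨φ, hφ⟩).symm
  · rintro ⟨h1, h2⟩
    have h3 : ∀ i, AtV C i → Fintype.card (F i).rep.1.D = 2 := by
      intro i hi
      rw [h1 i hi]
      exact card_digC
    obtain ⟨ρ, -, hr⟩ := zc_bwd (N := fun i => (F i).rep) hC hψ h3 (by
      intro i b i' b' hi
      by_cases hA : AtV C i
      · obtain ⟨φ, hφ, -⟩ := two_darts_iso (h3 i hA) (h3 i' ((atV_map hψ hi).2 hA)) (xor b b')
        exact ⟨φ, hφ⟩
      · exact twC_eq_iff.1 (h2 i b i' b' hi hA).symm)
    exact zof hC hR hr h3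

/-- Proof.  If the core has no rotation of order `k` about its root vertex, both sides are 0 (`wSc_none`; `ZC k (comp ..)` gives one by `zc_net`, `zc_fwd`).  Otherwise let `ψ` be a rotation.  For `F` as in
`zc_iff` the weight is `wS S 1 kv kf 1 ζ C.toB.aa C.s ψ (inr true) * ∏ i, swt ..` (`wSc_of` for the rotation from `zc_fwd'`, `wS_comp`).  `restrict_sum` with `P i = ¬ AtV C i`, and `flip_sum` for `I' = {i // ¬ AtV C i}`
with the restriction of `ψ` to the darts of these edges (`ψ` maps the root vertex to itself, so it permutes the edges which are not at the root vertex), `fl = twC false true`,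
`g c = nwt S Y c.rep.1` (`nwt_twC`), `μ c = wPi S Y kv kf ke c.rep.1`; `hrev` is `Rot.edge`.  `∑ g ^ k = Eb ^ k` (`tsum_nwt_pow`), so `(∑ g ^ k) ^ (n / k) = Eb ^ n`, `n` = number of edges which are not reversed and not
at the root vertex `= |T| / 2 - dgs - nFix aa ψ` (`card_AtV`; `k ∣ n` as the orbits have `k` elements, or `Rot.dvd`); `∑_{fl c = c} μ c = FRs` (`pi_iff`, `wPi_none`), and if there is a reversed edge, then `k = 2`
(`rev_not_atV`).  Compare with `wS S Eb kv kf x ζ` of the core. -/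
theorem rig_core_V (C : Core) (hC : C.toB.IsGood) (hR : Rigid C.toB)
    (hE : Eb ^ k = eN (S ^ k) 1 (Y ^ k) 1) (hx : k = 2 → x = FRs S Y kv kf ke) :
    (∑' F : C.I → GC, if ZC k (comp C fun i => (F i).rep) then
      wSc k S Y kv kf ke ζ (comp C fun i => (F i).rep) else 0) =
      wSc k S Eb kv kf x ζ C.toB := by
  by_cases hV : IsV k C.toB
  swap
  · rw [wSc_none hV, ENNReal.tsum_eq_zero]
    intro F
    rw [if_neg]
    intro h
    apply hV
    obtain ⟨ρ, hr⟩ := h.isV
    obtain ⟨ψ, -, hψ⟩ := zc_fwd hC hR hr (fun i hi => zc_net hC hR h hi)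
    exact ⟨ψ, hψ⟩
  obtain ⟨ψ, hψ0⟩ := hV
  have hψ : Rot C.toB.aa C.s ψ k (Sum.inr true) := hψ0
  obtain ⟨σ, hσ⟩ := exists_act hψ
  have hk := hψ.k2
  rw [wSc_of hC hψ0]
  obtain ⟨Φ, hΦ⟩ : ∃ Φ : ({i // ¬ AtV C i} → GC) → ℝ≥0∞, ∀ G, Φ G =
      if ∀ i, G (σ (i, true)).1 = if (σ (i, true)).2 then G i else twC false true (G i) then
        ∏ i, (if σ (i, true) = (i, false) then wPi S Y kv kf ke (G i).rep.1
          else nwt S Y (G i).rep.1) else 0 := ⟨_, fun _ => rfl⟩
  have hterm : ∀ F : C.I → GC, (if ZC k (comp C fun i => (F i).rep) then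
      wSc k S Y kv kf ke ζ (comp C fun i => (F i).rep) else 0) =
      wS S 1 kv kf 1 ζ C.toB.aa C.s ψ (Sum.inr true) *
        (if ∀ i, ¬ ¬ AtV C i → F i = digC then Φ (fun j => F j.1) else 0) := by
    intro F
    by_cases hz : ZC k (comp C fun i => (F i).rep)
    · have hnet : ∀ i, AtV C i → Fintype.card (F i).rep.1.D = 2 := fun i hi => zc_net hC hR hz hi
      obtain ⟨h1, h2⟩ := (zc_iff hC hR hψ F).1 hz
      have h3 := (compat_iff hψ hσ F).1 h2
      rw [if_pos hz, if_pos (fun i hi => h1 i (not_not.1 hi)), hΦ, if_pos h3]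
      obtain ⟨ρ, hr⟩ := hz.isV
      obtain ⟨ρ', hc, hr'⟩ := zc_fwd' hC hR hr hnet hψ
      rw [wSc_of (comp_good _ _ hC) hr', wS_comp hC hc hψ hr' hnet]
      congr 1
      have h4 : ∏ i, swt S Y kv kf ke C ψ i (F i).rep.1 =
          ∏ i ∈ univ.filter (fun i => ¬ AtV C i), pwt S Y kv kf ke C ψ i (F i).rep.1 :=
        WSc.prod_swt (AtV C) (fun i => pwt S Y kv kf ke C ψ i (F i).rep.1)
      rw [h4]
      rw [Finset.prod_subtype (p := fun i => ¬ AtV C i) (univ.filter (fun i => ¬ AtV C i))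
        (fun i => by rw [mem_filter]; exact ⟨fun h => h.2, fun h => ⟨mem_univ _, h⟩⟩)
        (fun i => pwt S Y kv kf ke C ψ i (F i).rep.1)]
      refine prod_congr rfl fun j _ => ?_
      unfold pwt
      by_cases h5 : σ (j, true) = (j, false)
      · rw [if_pos h5, if_pos ((act_rev hσ j).1 h5)]
      · rw [if_neg h5, if_neg (fun h6 => h5 ((act_rev hσ j).2 h6))]
    · rw [if_neg hz]
      symm
      by_cases h1 : ∀ i, ¬ ¬ AtV C i → F i = digC
      · rw [if_pos h1, hΦ, if_neg, mul_zero]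
        intro h3
        apply hz
        refine (zc_iff hC hR hψ F).2 ⟨fun i hi => h1 i (not_not.2 hi), ?_⟩
        exact (compat_iff hψ hσ F).2 h3
      · rw [if_neg h1, mul_zero]
  have hres : (∑' F : C.I → GC, if ∀ i, ¬ ¬ AtV C i → F i = digC then Φ (fun j => F j.1) else 0) =
      ∑' G, Φ G := by
    refine Eq.trans ?_ (restrict_sum (fun i => ¬ AtV C i) digC Φ)
    refine tsum_congr fun F => ?_
    split_ifs <;> rfl
  have hflip := flip_sum (Λ := GC) σ hk (act_flip hψ hσ) (fun t => by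
      apply emb_inj C
      rw [← act_pow hσ]
      exact hψ.pow _) (fun t n h1 h2 h3 => by
      refine hψ.free (emb C t) n h1 h2 ?_
      rw [act_pow hσ, h3]) (fun i b n h1 h2 h3 => by
      refine (Rot.edge (a := C.toB.aa) (s := C.toB.s) (r := Sum.inr true) hC hψ h1 h2
        (t := emb C (i, b)) ?_).1
      rw [act_pow hσ, h3]
      rfl) (twC false true) (twC_inv false true) (fun c => nwt S Y c.rep.1)
      (fun c => nwt_twC false true c) (fun c => wPi S Y kv kf ke c.rep.1)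
  have hFR : (∑' c : GC, if twC false true c = c then wPi S Y kv kf ke c.rep.1 else 0) =
      FRs S Y kv kf ke := by
    unfold FRs
    refine tsum_congr fun c => ?_
    split_ifs with h
    · rfl
    · exact (wPi_none (fun h4 => h ((pi_iff c).1 h4))).symm
  have hΦs : ∑' G, Φ G = (Eb ^ k) ^ ((univ.filter fun i => σ (i, true) ≠ (i, false)).card / k) *
      FRs S Y kv kf ke ^ (univ.filter fun i => σ (i, true) = (i, false)).card := by
    rw [hE, ← tsum_nwt_pow, ← hFR]
    refine Eq.trans ?_ (hflip.trans ?_)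
    · refine tsum_congr fun G => ?_
      rw [hΦ]
      split_ifs <;> rfl
    · congr!
  -- counting
  have hn2 := nFix_act hC hψ hσ
  have hT : Fintype.card C.toB.T / 2 = Fintype.card C.I + 1 := by
    have h1 : Fintype.card C.toB.T = Fintype.card C.I * 2 + 2 := by
      show Fintype.card ((C.I × Bool) ⊕ Bool) = _
      rw [Fintype.card_sum, Fintype.card_prod, Fintype.card_bool]
    omega
  have hat := card_AtV hC
  have hI : (univ.filter fun i => AtV C i).card + Fintype.card {i // ¬ AtV C i} =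
      Fintype.card C.I := by
    have h1 := Finset.card_filter_add_card_filter_not (s := univ) (fun i : C.I => AtV C i)
    rw [Finset.card_univ] at h1
    have h2 : Fintype.card {i // ¬ AtV C i} = (univ.filter fun i => ¬ AtV C i).card :=
      Fintype.card_subtype _
    rw [h2]
    exact h1
  have hn : (univ.filter fun i => σ (i, true) = (i, false)).card +
      (univ.filter fun i => σ (i, true) ≠ (i, false)).card = Fintype.card {i // ¬ AtV C i} := by
    have h1 := Finset.card_filter_add_card_filter_not (s := univ)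
      (fun i : {i // ¬ AtV C i} => σ (i, true) = (i, false))
    rw [Finset.card_univ] at h1
    exact h1
  have hn1 : Fintype.card C.toB.T / 2 - nFix C.toB.aa ψ - dgs C.s (Sum.inr true) =
      (univ.filter fun i => σ (i, true) ≠ (i, false)).card := by
    omega
  have hdvd : k ∣ (univ.filter fun i => σ (i, true) ≠ (i, false)).card := by
    rw [← hn1]
    exact Nat.dvd_sub (Rot.dvd (a := C.toB.aa) (s := C.toB.s) hC hψ).2.2.1
      (Rot.normal (a := C.toB.aa) (s := C.toB.s) hC hψ).1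
  have hxn : x ^ nFix C.toB.aa ψ =
      FRs S Y kv kf ke ^ (univ.filter fun i => σ (i, true) = (i, false)).card := by
    rw [hn2]
    by_cases hex : ∃ i, σ (i, true) = (i, false)
    · obtain ⟨i, hi⟩ := hex
      rw [hx (rev_not_atV hC hψ ((act_rev hσ i).1 hi)).2]
    · have h5 : (univ.filter fun i => σ (i, true) = (i, false)) = ∅ := by
        rw [filter_eq_empty_iff]
        intro j _ hj
        exact hex ⟨j, hj⟩
      rw [h5, card_empty, pow_zero, pow_zero]
  have hW0 : wS S 1 kv kf 1 ζ C.toB.aa C.s ψ (Sum.inr true) =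
      S ^ (nV C.s - nFix C.s ψ) * 1 ^ (Fintype.card C.toB.T / 2 - nFix C.toB.aa ψ -
        dgs C.s (Sum.inr true)) * kv ^ (nFix C.s ψ - 1) * kf ^ nFix (C.toB.aa * C.toB.s) ψ *
        1 ^ nFix C.toB.aa ψ * ζ ^ dgs C.s (Sum.inr true) := rfl
  have hW1 : wS S Eb kv kf x ζ C.toB.aa C.toB.s ψ (Sum.inr true) =
      S ^ (nV C.s - nFix C.s ψ) * Eb ^ (Fintype.card C.toB.T / 2 - nFix C.toB.aa ψ -
        dgs C.s (Sum.inr true)) * kv ^ (nFix C.s ψ - 1) * kf ^ nFix (C.toB.aa * C.toB.s) ψ *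
        x ^ nFix C.toB.aa ψ * ζ ^ dgs C.s (Sum.inr true) := rfl
  rw [tsum_congr hterm, ENNReal.tsum_mul_left]
  refine (congrArg (fun z => wS S 1 kv kf 1 ζ C.toB.aa C.s ψ (Sum.inr true) * z)
    (hres.trans hΦs)).trans ?_
  show wS S 1 kv kf 1 ζ C.toB.aa C.s ψ (Sum.inr true) * _ = _
  rw [hW0, hW1, hxn, hn1, ← pow_mul, Nat.mul_div_cancel' hdvd, one_pow, one_pow]
  ring

/-- `sum_types` for `g c = if ZC k c.rep.1 then wSc .. else 0`: the first three summands are 0 (`ZC.card`, `ZC.not_ser`, `ZC.not_par`); `rig_sum`, `ZC_iso`, `wSc_iso` for `ixC`; the sum over `RigLe.Ix` is the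
sum over `c : GC` of the sum over the families for `ESum.core c` (`tsum_sigma'`); `rig_core_V`, `ESum.core_iso`. -/
theorem rig_sum_V (hE : Eb ^ k = eN (S ^ k) 1 (Y ^ k) 1) (hx : k = 2 → x = FRs S Y kv kf ke) :
    ZS k S Y kv kf ke ζ = RS k S Eb kv kf x ζ := by
  have h0 := sum_types (fun c : GC => if ZC k c.rep.1 then wSc k S Y kv kf ke ζ c.rep.1 else 0)
  have hdig : ¬ ZC k digC.rep.1 := by
    intro h
    have h1 := ZC.card digC.rep.2 h
    rw [card_digC] at h1
    omega
  have hs : (∑' c : GC, if IsSer c.rep.1 then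
      (if ZC k c.rep.1 then wSc k S Y kv kf ke ζ c.rep.1 else 0) else 0) = 0 := by
    rw [ENNReal.tsum_eq_zero]
    intro c
    by_cases h : IsSer c.rep.1
    · rw [if_pos h, if_neg (fun h' => ZC.not_ser c.rep.2 h' h)]
    · rw [if_neg h]
  have hp : (∑' c : GC, if IsPar c.rep.1 then
      (if ZC k c.rep.1 then wSc k S Y kv kf ke ζ c.rep.1 else 0) else 0) = 0 := by
    rw [ENNReal.tsum_eq_zero]
    intro c
    by_cases h : IsPar c.rep.1
    · rw [if_pos h, if_neg (fun h' => ZC.not_par c.rep.2 h' h)]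
    · rw [if_neg h]
  have h1 : ZS k S Y kv kf ke ζ = ∑' c : GC,
      if ¬ IsSer c.rep.1 ∧ ¬ IsPar c.rep.1 ∧ 4 ≤ Fintype.card c.rep.1.D then
        (if ZC k c.rep.1 then wSc k S Y kv kf ke ζ c.rep.1 else 0) else 0 := by
    refine Eq.trans ?_ (h0.trans ?_)
    · rfl
    · rw [hs, hp, if_neg hdig, zero_add, zero_add, zero_add]
  rw [h1, rig_sum (fun c : GC => if ZC k c.rep.1 then wSc k S Y kv kf ke ζ c.rep.1 else 0)]
  have h2 : ∀ p : RigLe.Ix, (if Rigid p.1.rep.1 then
      (if ZC k (ixC p).rep.1 then wSc k S Y kv kf ke ζ (ixC p).rep.1 else 0) else 0) =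
      (fun (c : GC) (F : (ESum.core c).I → GC) => if Rigid c.rep.1 then
        (if ZC k (comp (ESum.core c) (fun i => (F i).rep)) then
          wSc k S Y kv kf ke ζ (comp (ESum.core c) (fun i => (F i).rep)) else 0) else 0) p.1 p.2 := by
    intro p
    have h3 : BIso (ixC p).rep.1 (comp (ESum.core p.1) (fun i => (p.2 i).rep)) := ESum.rep_iso _
    have h4 : wSc k S Y kv kf ke ζ (ixC p).rep.1 =
        wSc k S Y kv kf ke ζ (comp (ESum.core p.1) (fun i => (p.2 i).rep)) :=
      wSc_iso (ixC p).rep.2 h3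
    have h5 := ZC_iso (k := k) h3
    simp only [h4, h5]
  refine (tsum_congr h2).trans ((tsum_sigma_eq (fun (c : GC) (F : (ESum.core c).I → GC) =>
    if Rigid c.rep.1 then (if ZC k (comp (ESum.core c) (fun i => (F i).rep)) then
          wSc k S Y kv kf ke ζ (comp (ESum.core c) (fun i => (F i).rep)) else 0)
      else 0)).symm.trans ?_)
  unfold RS
  refine tsum_congr fun c => ?_
  by_cases hc : Rigid c.rep.1
  · simp only [if_pos hc]
    rw [rig_core_V (ESum.core c) (ESum.core_good c) ((ESum.core_iso c).symm.rigid hc) hE hx]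
    exact wSc_iso (ESum.core_good c) (ESum.core_iso c)
  · simp only [if_neg hc, tsum_zero]

end

end PGr

end

section
/-! # Module FinK: rotations of order at least 3 -/

set_option linter.unusedSectionVars false

namespace PGr
open Equiv Finset PGa
open scoped ENNReal Classical

section
variable {q c kv ke : ℝ} {k : ℕ}

/-- The common part.  Proof.  `s = ofReal (ss q c)`, `y = ofReal (yy q c)`, `f = Xf q c w > 1` (`one_lt_Xf`), `x = f - 1`; `S = kr k s`, `Y = kr k y`, `Eb = kr k (EE q c)`, `ζ = kr k x`, `G = kr k f` (`kr_pow`).  `rig_sum_V`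
(`eN s 1 y 1 = Es s y = EE`, `eN_eq_Es`), `star_sum`, `RS_series`: `(∑ RSd δ * x ^ (δ + 1) + [k = 2] x * (gF 2 S 1 Y kv 1 ke 1 + ke * s)) * f = x * (gF k S 1 Y kv 1 ke G + lkw k S ke G)`.  Divide by `x * f`: the right
side is `hS .. f` (`lkw k S ke G / f = ke * s`; if `k ≠ 2` both are 0), and `gF 2 S 1 Y kv 1 ke 1 + ke * s = hS .. 1` (`kr_one`).  `rot_value`. -/
theorem rig_series (hk : 2 ≤ k) (hke : k = 2 ∨ ke = 0) (hq : 0 < q) (hqc : q < c) (hc : c < 1)
    (hkv : 0 ≤ kv) (hke0 : 0 ≤ ke)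
    (hEs : Es (ENNReal.ofReal (ss q c)) (ENNReal.ofReal (yy q c)) = ENNReal.ofReal (EE q c))
    {x : ℝ≥0∞} (hx : k = 2 → x = FRs (kr k (ENNReal.ofReal (ss q c)))
      (kr k (ENNReal.ofReal (yy q c))) (ENNReal.ofReal kv) 1 (ENNReal.ofReal ke))
    {w : ℝ} (h0 : 0 < w) (h1 : w < q) :
    ∑' δ : ℕ, (RSd k (kr k (ENNReal.ofReal (ss q c))) (kr k (ENNReal.ofReal (EE q c)))
      (ENNReal.ofReal kv) 1 x δ + if k = 2 ∧ δ = 0 then hRr k q c kv 1 ke 1 else 0) *
        ENNReal.ofReal (Xf q c w - 1) ^ δ =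
      ENNReal.ofReal (Hd q c kv 1 ke w / dX q c w) := by
  have hf := one_lt_Xf hq hqc hc h0.le h1
  have hx0 : (0 : ℝ) < Xf q c w - 1 := by linarith
  have hval := rot_value (kf := 1) hk hke hq hqc hc hkv zero_le_one hke0 hEs h0 h1
  rw [← hval]
  set s := ENNReal.ofReal (ss q c) with hs
  set y := ENNReal.ofReal (yy q c) with hy
  set X := ENNReal.ofReal (Xf q c w - 1) with hX
  set f := ENNReal.ofReal (Xf q c w) with hfd
  have hk0 : k ≠ 0 := by omega
  have hs0 : s ≠ 0 := (ENNReal.ofReal_pos.2 (ss_pos hq hqc hc)).ne'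
  have hy0 : y ≠ 0 := (ENNReal.ofReal_pos.2 (yy_pos hq hqc hc)).ne'
  have hX0 : X ≠ 0 := (ENNReal.ofReal_pos.2 hx0).ne'
  have hXt : X ≠ ⊤ := ENNReal.ofReal_ne_top
  have hf0 : f ≠ 0 := (ENNReal.ofReal_pos.2 (by linarith)).ne'
  have hft : f ≠ ⊤ := ENNReal.ofReal_ne_top
  have hY0 : kr k y ≠ 0 := by
    intro h
    have h2 := kr_pow hk y
    rw [h, zero_pow hk0] at h2
    exact hy0 h2.symm
  have hYt : kr k y ≠ ⊤ := by
    intro h
    have h2 := kr_pow hk y
    rw [h, ENNReal.top_pow hk0] at h2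
    exact ENNReal.ofReal_ne_top (r := yy q c) h2.symm
  have hG : kr k f ^ k = 1 + kr k X ^ k := by
    rw [kr_pow hk, kr_pow hk, hfd, hX, ← ENNReal.ofReal_one,
      ← ENNReal.ofReal_add zero_le_one hx0.le]
    congr 1
    ring
  have hE : kr k (ENNReal.ofReal (EE q c)) ^ k = eN (kr k s ^ k) 1 (kr k y ^ k) 1 := by
    rw [kr_pow hk, kr_pow hk, kr_pow hk, eN_eq_Es, hEs]
  have h3 := star_sum (S := kr k s) (kv := ENNReal.ofReal kv) (kf := 1)
    (ke := ENNReal.ofReal ke) hk hY0 hYt hG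
  rw [rig_sum_V (x := x) hE hx, RS_series hk, kr_pow hk, kr_pow hk] at h3
  have e1 : ∀ δ : ℕ, (RSd k (kr k s) (kr k (ENNReal.ofReal (EE q c)))
      (ENNReal.ofReal kv) 1 x δ + if k = 2 ∧ δ = 0 then hRr k q c kv 1 ke 1 else 0) * X ^ δ * X =
      RSd k (kr k s) (kr k (ENNReal.ofReal (EE q c))) (ENNReal.ofReal kv) 1 x δ * X ^ (δ + 1) +
        (if k = 2 ∧ δ = 0 then hRr k q c kv 1 ke 1 else 0) * X ^ (δ + 1) := by
    intro δ
    rw [pow_succ]
    ring
  have e2 : ∑' δ : ℕ, (if k = 2 ∧ δ = 0 then hRr k q c kv 1 ke 1 else 0) * X ^ (δ + 1) =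
      if k = 2 then kr k X ^ 2 * (gF 2 (kr k s) 1 (kr k y) (ENNReal.ofReal kv) 1
        (ENNReal.ofReal ke) 1 + ENNReal.ofReal ke * kr k s ^ 2) else 0 := by
    rw [tsum_eq_single 0]
    · by_cases h2 : k = 2
      · subst h2
        rw [if_pos ⟨rfl, rfl⟩, if_pos rfl, kr_pow hk, kr_pow hk]
        unfold hRr hS
        rw [ENNReal.ofReal_one, kr_one, div_one, zero_add, pow_one]
        ring
      · rw [if_neg (fun h => h2 h.1), if_neg h2, zero_mul]
    · intro δ hδ
      rw [if_neg (fun h => hδ h.2), zero_mul]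
  have e3 : gF k (kr k s) 1 (kr k y) (ENNReal.ofReal kv) 1 (ENNReal.ofReal ke) (kr k f) +
      lkw k (kr k s) (ENNReal.ofReal ke) (kr k f) = hRr k q c kv 1 ke (Xf q c w) * f := by
    unfold hRr hS
    rw [ENNReal.ofReal_one, add_mul, ENNReal.div_mul_cancel hf0 hft, add_comm]
    congr 1
    unfold lkw
    by_cases h2 : k = 2
    · subst h2
      rw [if_pos rfl, kr_pow hk, kr_pow hk]
    · rw [if_neg h2]
      rcases hke with h4 | h4
      · exact absurd h4 h2
      · rw [h4, ENNReal.ofReal_zero, zero_mul, zero_mul]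
  rw [e3, ← e2, ← ENNReal.tsum_add, ← tsum_congr e1, ENNReal.tsum_mul_right] at h3
  have h4 : (∑' δ : ℕ, (RSd k (kr k s) (kr k (ENNReal.ofReal (EE q c)))
      (ENNReal.ofReal kv) 1 x δ + if k = 2 ∧ δ = 0 then hRr k q c kv 1 ke 1 else 0) * X ^ δ) *
        (X * f) = hRr k q c kv 1 ke (Xf q c w) * (X * f) := by
    rw [← mul_assoc, h3]
    ring
  exact (ENNReal.mul_left_inj (mul_ne_zero hX0 hf0) (ENNReal.mul_ne_top hXt hft)).1 h4

/-- `rig_series` with `ke = 0`, `int_h`, `Qk_eq`; `1 + E > 0` -/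
theorem Qk_val (hk : 3 ≤ k) (hq : 0 < q) (hqc : q < c) (hc : c < 1) (hkv : 0 ≤ kv)
    (hEs : Es (ENNReal.ofReal (ss q c)) (ENNReal.ofReal (yy q c)) = ENNReal.ofReal (EE q c))
    (x : ℝ≥0∞) :
    Qk k (ENNReal.ofReal kv) (ENNReal.ofReal (ss q c)) x (ENNReal.ofReal (EE q c)) =
      ENNReal.ofReal (kv * Real.log ((1 - uu q c * vv q c) / (1 - vv q c)) -
        Real.log (1 - uu q c * vv q c) - kv * Real.log (1 + EE q c)) := by
  have hk2 : 2 ≤ k := by omega
  have h1 := Qk_eq (S := kr k (ENNReal.ofReal (ss q c))) (Eb := kr k (ENNReal.ofReal (EE q c)))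
    (kv := ENNReal.ofReal kv) (x := x) hk2
  rw [kr_pow hk2, kr_pow hk2] at h1
  rw [h1]
  have h2 := int_h (kv := kv) (kf := 1) (ke := 0) hq hqc hc hkv zero_le_one (le_refl 0)
    (fun δ => RSd k (kr k (ENNReal.ofReal (ss q c))) (kr k (ENNReal.ofReal (EE q c)))
      (ENNReal.ofReal kv) 1 x δ) (fun w h3 h4 => by
        rw [← rig_series hk2 (Or.inr rfl) hq hqc hc hkv (le_refl 0) hEs (x := x)
          (fun h => absurd h (by omega)) h3 h4]
        refine tsum_congr fun δ => ?_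
        rw [if_neg (fun h => by omega), add_zero])
  rw [h2]
  congr 1
  ring

/-- `rig_series` with `k = 2`, `int_h`, `Qk_eq` -/
theorem Q2_eq (hq : 0 < q) (hqc : q < c) (hc : c < 1) (hkv : 0 ≤ kv) (hke0 : 0 ≤ ke)
    (hEs : Es (ENNReal.ofReal (ss q c)) (ENNReal.ofReal (yy q c)) = ENNReal.ofReal (EE q c)) :
    Qk 2 (ENNReal.ofReal kv) (ENNReal.ofReal (ss q c))
      (FRs (kr 2 (ENNReal.ofReal (ss q c))) (kr 2 (ENNReal.ofReal (yy q c)))
        (ENNReal.ofReal kv) 1 (ENNReal.ofReal ke)) (ENNReal.ofReal (EE q c)) +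
      ENNReal.ofReal (EE q c) * hRr 2 q c kv 1 ke 1 =
      ENNReal.ofReal (kv * Real.log ((1 - uu q c * vv q c) / (1 - vv q c)) -
        Real.log (1 - uu q c * vv q c) + ke / (1 - uu q c) - kv * Real.log (1 + EE q c) - ke) := by
  have h1 := Qk_eq (S := kr 2 (ENNReal.ofReal (ss q c))) (Eb := kr 2 (ENNReal.ofReal (EE q c)))
    (kv := ENNReal.ofReal kv) (x := (FRs (kr 2 (ENNReal.ofReal (ss q c)))
      (kr 2 (ENNReal.ofReal (yy q c))) (ENNReal.ofReal kv) 1 (ENNReal.ofReal ke))) (le_refl 2)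
  rw [kr_pow (le_refl 2), kr_pow (le_refl 2)] at h1
  rw [h1]
  have h2 := int_h (kv := kv) (kf := 1) (ke := ke) hq hqc hc hkv zero_le_one hke0
    (fun δ => RSd 2 (kr 2 (ENNReal.ofReal (ss q c))) (kr 2 (ENNReal.ofReal (EE q c)))
      (ENNReal.ofReal kv) 1 (FRs (kr 2 (ENNReal.ofReal (ss q c)))
      (kr 2 (ENNReal.ofReal (yy q c))) (ENNReal.ofReal kv) 1 (ENNReal.ofReal ke)) δ +
        if (2 : ℕ) = 2 ∧ δ = 0 then hRr 2 q c kv 1 ke 1 else 0)
    (fun w h3 h4 => rig_series (le_refl 2) (Or.inl rfl) hq hqc hc hkv hke0 hEs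
      (fun _ => rfl) h3 h4)
  have e1 : kv * Real.log ((1 - uu q c * vv q c) / (1 - vv q c)) -
        Real.log (1 - uu q c * vv q c) + ke / (1 - uu q c) - kv * Real.log (1 + EE q c) - ke =
      kv * Real.log ((1 - uu q c * vv q c) / (1 - vv q c)) -
        1 * Real.log (1 - uu q c * vv q c) + ke / (1 - uu q c) -
        kv * Real.log (1 + EE q c) - ke := by ring
  rw [e1, ← h2]
  have e2 : ∑' δ : ℕ, (if (2 : ℕ) = 2 ∧ δ = 0 then hRr 2 q c kv 1 ke 1 else 0) *
      ENNReal.ofReal (EE q c) ^ (δ + 1) / ((δ : ℝ≥0∞) + 1) =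
      ENNReal.ofReal (EE q c) * hRr 2 q c kv 1 ke 1 := by
    rw [tsum_eq_single 0]
    · rw [if_pos ⟨rfl, rfl⟩, zero_add, pow_one, Nat.cast_zero, zero_add, div_one, mul_comm]
    · intro δ hδ
      rw [if_neg (fun h => hδ h.2), zero_mul, ENNReal.zero_div]
  rw [← e2, ← ENNReal.tsum_add]
  refine tsum_congr fun δ => ?_
  rw [add_mul, ENNReal.add_div]

end

end PGr

end

section
/-! # Module Fin2: rotations of order 2 -/

set_option linter.unusedSectionVars false

namespace PGr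
open Equiv Finset PGa
open scoped ENNReal Classical

/-- coefficients of `Qk 2`: pole at a vertex, face, edge -/
noncomputable def Q2v (u v s E : ℝ) : ℝ :=
  Real.log ((1 - u * v) * (1 - v) / (1 - v - u * v)) - u * v * (1 - u) / (1 - v) +
    s * E ^ 2 / (1 + s * E)

noncomputable def Q2f (u v : ℝ) : ℝ := -Real.log (1 - u * v) - u * v

noncomputable def Q2e (u v s E : ℝ) : ℝ := u * (1 - v) - s * E / (1 + s * E)

/-- coefficients of `Api` -/
noncomputable def Apv (u v s E : ℝ) : ℝ := u * (1 - v) / s - E / (1 + s * E)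

noncomputable def Apf (u v E : ℝ) : ℝ := v * (1 - u) - E / (1 + E)

noncomputable def Ape (u v s E : ℝ) : ℝ :=
  1 - s * E / (1 + s * E) - E / (1 + E) - (1 - u) * (1 - v)

section
variable {q c : ℝ}

private theorem Fin2_E (hq : 0 < q) (hqc : q < c) (hc : c < 1) :
    0 < 1 - uu q c - vv q c := by
  have h1 := one_sub_qc hq hqc hc
  have h2 := c_sub_qq hq hqc hc
  have h4 : 0 < c - q := by linarith
  have h5 : 0 < 1 - c := by linarith
  have e : 1 - uu q c - vv q c =
      (1 - c) * (c - q) * (1 + q + q ^ 2) / ((1 - q * c) * (c - q ^ 2)) := by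
    have g1 : 1 - c * q ≠ 0 := by nlinarith
    have g2 := h2.ne'
    unfold uu vv
    field_simp
    ring
  rw [e]
  positivity

end

private theorem Fin2_pos {x L : ℝ} (hx : 0 < x) (h : ENNReal.ofReal x = ENNReal.ofReal L) :
    x = L := by
  have hL : 0 < L := by
    by_contra h1
    rw [ENNReal.ofReal_of_nonpos (not_lt.1 h1)] at h
    exact (ENNReal.ofReal_pos.2 hx).ne' h
  exact (ENNReal.ofReal_eq_ofReal_iff hx.le hL.le).1 h

/-- the real equations for `Qk 2` -/
private theorem Fin2_real {u v s E q0 qv qe L0 L1 : ℝ} (hu : 0 < u) (hv : 0 < v)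
    (huv : 0 < 1 - u - v) (hs : s = u * (1 - v) ^ 2 / (v * (1 - u) ^ 2))
    (hE : E = v * (1 - u - v) / (1 - v) ^ 2)
    (hA : q0 + v / (1 - v) * qe + E * (s * v * (1 - u) ^ 2 / ((1 - v) * (1 - u - u * v))) = L0)
    (hB : q0 + qv + (u / (s * (1 - u)) + v / (1 - v)) * qe + E * (u * v / (1 - u - u * v) +
      s * v * (1 - u) ^ 2 / ((1 - v) * (1 - u - u * v))) = L1)
    (hC : q0 + (v / (1 - v) + 1 / ((1 - u) * (1 - v))) * qe +
      E * (s * v * (1 - u) ^ 2 / ((1 - v) * (1 - u - u * v)) +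
        s * (1 - u) / ((1 - v) * (1 - u - u * v))) = L0 + u / (1 - u)) :
    qe = u * (1 - v) - s * E / (1 + s * E) ∧ q0 = L0 - u * v ∧
      qv = L1 - L0 - u * v * (1 - u) / (1 - v) + s * E ^ 2 / (1 + s * E) := by
  have h1 : 0 < 1 - u := by linarith
  have h2 : 0 < 1 - v := by linarith
  have h3 : 0 < 1 - u - u * v := by nlinarith
  have h3' := h3.ne'
  have hsE : 1 + s * E = (1 - u - u * v) / (1 - u) ^ 2 := by
    rw [hs, hE]
    field_simp
    ring
  have hs0 : 0 < s := by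
    rw [hs]
    positivity
  set D := 1 - u - u * v with hD
  have e1 : 1 / ((1 - u) * (1 - v)) * qe + E * (s * (1 - u) / ((1 - v) * D)) = u / (1 - u) := by
    linear_combination hC - hA
  have hqe : qe = u * (1 - v) - s * E / (1 + s * E) := by
    rw [hsE]
    field_simp at e1 ⊢
    linear_combination e1
  have hsE2 : s * E = u * (1 - u - v) / (1 - u) ^ 2 := by
    rw [hs, hE]
    field_simp
  have hqe2 : qe = u * (1 - v) - u * (1 - u - v) / D := by
    rw [hqe, hsE, hsE2]
    field_simp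
  have hsE3 : E * (s * v * (1 - u) ^ 2 / ((1 - v) * D)) =
      u * (1 - u - v) * v / ((1 - v) * D) := by
    have : E * (s * v * (1 - u) ^ 2 / ((1 - v) * D)) =
      (s * E) * (v * (1 - u) ^ 2 / ((1 - v) * D)) := by ring
    rw [this, hsE2]
    field_simp
  refine ⟨hqe, ?_, ?_⟩
  · have e2 : v / (1 - v) * qe + E * (s * v * (1 - u) ^ 2 / ((1 - v) * D)) = u * v := by
      rw [hsE3, hqe2]
      field_simp
      rw [hD]
      ring
    linear_combination hA - e2
  · have e3 : qv = L1 - L0 - u / (s * (1 - u)) * qe - E * (u * v / D) := by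
      linear_combination hB - hA
    have e4 : u / (s * (1 - u)) = v * (1 - u) / (1 - v) ^ 2 := by
      rw [hs]
      field_simp
    have e5 : s * E ^ 2 / (1 + s * E) = u * (1 - u - v) * E / D := by
      have : s * E ^ 2 / (1 + s * E) = (s * E) * E / (1 + s * E) := by ring
      rw [this, hsE, hsE2]
      field_simp
    rw [e3, e4, e5, hqe2, hE]
    field_simp
    rw [hD]
    ring

section
variable {q c kv x : ℝ}

/-- Proof.  `Q2_lin` with `S = kr 2 (ss)`, `Eb = kr 2 (EE)` gives `Q0`, `Qv`, `Qe`.  `Q2_eq` for `(kv, ke) = (0, 0), (1, 0), (0, 1)` with `FRs_val` (`kf = 1`) and `hS_one`, `Hd_q`: with `D = 1 - u - u v`,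
`FRv = u / (s (1 - u))`, `FRf = v / (1 - v)`, `FRe = 1 / ((1 - u)(1 - v))`, `hv = u v / D`, `hf = s v (1 - u)^2 / ((1 - v) D)`, `he = s (1 - u) / ((1 - v) D)`:
`Q0 + FRf Qe + E hf = - log (1 - u v)`, `Q0 + Qv + (FRv + FRf) Qe + E (hv + hf) = log ((1 - u v)/(1 - v)) - log (1 + E) - log (1 - u v)`, `Q0 + (FRf + FRe) Qe + E (hf + he) = - log (1 - u v) + u / (1 - u)`.
All three are finite (`FRf > 0`), so they are real numbers `q0`, `qv`, `qe`: `qe = (u / (1 - u) - E he) / FRe = Q2e`, `q0 = Q2f`, `qv = Q2v` (`1 + E = (1 - v - u v) / (1 - v)^2`; all identities of rational functions of `u`, `v`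
checked exactly, with `s = u (1 - v)^2 / (v (1 - u)^2)`, `E = v (1 - u - v) / (1 - v)^2`). -/
theorem Q2_val (hq : 0 < q) (hqc : q < c) (hc : c < 1) (hkv : 0 ≤ kv) (hx : 0 ≤ x)
    (hEs : Es (ENNReal.ofReal (ss q c)) (ENNReal.ofReal (yy q c)) = ENNReal.ofReal (EE q c)) :
    Qk 2 (ENNReal.ofReal kv) (ENNReal.ofReal (ss q c)) (ENNReal.ofReal x)
      (ENNReal.ofReal (EE q c)) =
      ENNReal.ofReal (kv * Q2v (uu q c) (vv q c) (ss q c) (EE q c) + Q2f (uu q c) (vv q c) +
        x * Q2e (uu q c) (vv q c) (ss q c) (EE q c)) ∧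
    0 ≤ Q2v (uu q c) (vv q c) (ss q c) (EE q c) ∧ 0 ≤ Q2f (uu q c) (vv q c) ∧
      0 ≤ Q2e (uu q c) (vv q c) (ss q c) (EE q c) := by
  have hu := uu_pos hq hqc hc
  have hv := vv_pos hq hqc hc
  have hu1 := one_sub_uu_pos hq hqc hc
  have hv1 := one_sub_vv_pos hq hqc hc
  have hs := ss_pos hq hqc hc
  have huv := Fin2_E hq hqc hc
  have hD : 0 < 1 - uu q c - uu q c * vv q c := by nlinarith
  have hEp : 0 < EE q c := by
    unfold EE
    positivity
  have huv1 : uu q c * vv q c < 1 := by nlinarith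
  have huv0 : 0 < uu q c * vv q c := mul_pos hu hv
  obtain ⟨Q0, Qv, Qe, hlin⟩ := Q2_lin (kr 2 (ENNReal.ofReal (ss q c)))
    (kr 2 (ENNReal.ofReal (EE q c)))
  rw [kr_pow (le_refl 2), kr_pow (le_refl 2)] at hlin
  have key : ∀ kv' ke' : ℝ, 0 ≤ kv' → 0 ≤ ke' →
      Q0 + ENNReal.ofReal kv' * Qv + ENNReal.ofReal (kv' * (uu q c / (ss q c * (1 - uu q c))) +
        vv q c / (1 - vv q c) + ke' / ((1 - uu q c) * (1 - vv q c))) * Qe +
      ENNReal.ofReal (EE q c * (kv' * (uu q c * vv q c / (1 - uu q c - uu q c * vv q c)) +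
        ss q c * vv q c * (1 - uu q c) ^ 2 /
        ((1 - vv q c) * (1 - uu q c - uu q c * vv q c)) +
        ke' * (ss q c * (1 - uu q c) / ((1 - vv q c) * (1 - uu q c - uu q c * vv q c))))) =
      ENNReal.ofReal (kv' * Real.log ((1 - uu q c * vv q c) / (1 - vv q c)) -
        Real.log (1 - uu q c * vv q c) + ke' / (1 - uu q c) -
        kv' * Real.log (1 + EE q c) - ke') := by
    intro kv' ke' h1 h2
    rw [← Q2_eq hq hqc hc h1 h2 hEs, hlin]
    have h3 := FRs_val (kf := 1) hq hqc hc h1 zero_le_one h2 hEs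
    rw [ENNReal.ofReal_one] at h3
    rw [h3, hS_one (le_refl 2) (Or.inl rfl) hq hqc hc h1 zero_le_one h2 hEs,
      Hd_q hq hqc hc, ← ENNReal.ofReal_mul hEp.le]
    simp only [one_mul]
  have hFv : 0 < uu q c / (ss q c * (1 - uu q c)) := by positivity
  have hFf : 0 < vv q c / (1 - vv q c) := by positivity
  have hFe : 0 < 1 / ((1 - uu q c) * (1 - vv q c)) := by positivity
  have hA := key 0 0 (le_refl 0) (le_refl 0)
  have hB := key 1 0 zero_le_one (le_refl 0)
  have hC := key 0 1 (le_refl 0) zero_le_one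
  simp only [ENNReal.ofReal_zero, zero_mul, add_zero, zero_add, zero_div, sub_zero, one_mul,
    ENNReal.ofReal_one, zero_sub] at hA hB hC
  have t0 : Q0 ≠ ⊤ := by
    intro h
    rw [h] at hA
    simp at hA
  have te : Qe ≠ ⊤ := by
    intro h
    rw [h, ENNReal.mul_top (ENNReal.ofReal_pos.2 hFf).ne'] at hA
    simp at hA
  have tv : Qv ≠ ⊤ := by
    intro h
    rw [h] at hB
    simp at hB
  have r0 := ENNReal.ofReal_toReal t0
  have re := ENNReal.ofReal_toReal te
  have rv := ENNReal.ofReal_toReal tv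
  have p0 : 0 ≤ Q0.toReal := ENNReal.toReal_nonneg
  have pe : 0 ≤ Qe.toReal := ENNReal.toReal_nonneg
  have pv : 0 ≤ Qv.toReal := ENNReal.toReal_nonneg
  set q0 := Q0.toReal
  set qe := Qe.toReal
  set qv := Qv.toReal
  rw [← r0, ← re] at hA hC
  rw [← r0, ← re, ← rv] at hB
  rw [← r0, ← re, ← rv] at hlin
  have hf0 : 0 < ss q c * vv q c * (1 - uu q c) ^ 2 /
      ((1 - vv q c) * (1 - uu q c - uu q c * vv q c)) := by positivity
  have hv0 : 0 < uu q c * vv q c / (1 - uu q c - uu q c * vv q c) := by positivity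
  have he0 : 0 < ss q c * (1 - uu q c) /
      ((1 - vv q c) * (1 - uu q c - uu q c * vv q c)) := by positivity
  rw [← ENNReal.ofReal_mul hFf.le, ← ENNReal.ofReal_add p0 (by positivity),
    ← ENNReal.ofReal_add (by positivity) (by positivity)] at hA
  rw [← ENNReal.ofReal_mul (by positivity), ← ENNReal.ofReal_add p0 pv,
    ← ENNReal.ofReal_add (by positivity) (by positivity),
    ← ENNReal.ofReal_add (by positivity) (by positivity)] at hB
  rw [← ENNReal.ofReal_mul (by positivity), ← ENNReal.ofReal_add p0 (by positivity),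
    ← ENNReal.ofReal_add (by positivity) (by positivity)] at hC
  have hA' := Fin2_pos (by positivity) hA
  have hB' := Fin2_pos (by positivity) hB
  have hC' := Fin2_pos (by positivity) hC
  have hne : 1 - uu q c ≠ 0 := hu1.ne'
  obtain ⟨f1, f2, f3⟩ := Fin2_real (s := ss q c) (E := EE q c) hu hv huv rfl rfl hA' hB' (hC'.trans (by
    field_simp
    ring))
  have g1 : qe = Q2e (uu q c) (vv q c) (ss q c) (EE q c) := f1
  have g2 : q0 = Q2f (uu q c) (vv q c) := f2
  have g3 : qv = Q2v (uu q c) (vv q c) (ss q c) (EE q c) := by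
    rw [f3]
    unfold Q2v
    have hw : 0 < 1 - vv q c - uu q c * vv q c := by nlinarith
    have e1 : 1 + EE q c = (1 - vv q c - uu q c * vv q c) / (1 - vv q c) ^ 2 := by
      unfold EE
      field_simp
      ring
    have e2 : (1 - uu q c * vv q c) * (1 - vv q c) / (1 - vv q c - uu q c * vv q c) =
        ((1 - uu q c * vv q c) / (1 - vv q c)) / (1 + EE q c) := by
      rw [e1]
      field_simp
    have hn : 0 < 1 - uu q c * vv q c := by linarith
    have e3 : Real.log ((1 - uu q c * vv q c) / (1 - vv q c) / (1 + EE q c)) =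
        Real.log ((1 - uu q c * vv q c) / (1 - vv q c)) - Real.log (1 + EE q c) :=
      Real.log_div (by positivity) (by positivity)
    rw [e2, e3]
    ring
  rw [hlin, ← g1, ← g2, ← g3]
  refine ⟨?_, pv, p0, pe⟩
  rw [← ENNReal.ofReal_mul hkv, ← ENNReal.ofReal_mul hx,
    ← ENNReal.ofReal_add p0 (by positivity), ← ENNReal.ofReal_add (by positivity) (by positivity)]
  congr 1
  ring

/-- Proof.  `Api_eq`, `RigPi_lin` with `S = kr 2 (ss)`, `Eb = kr 2 (EE)`; `FR_total` (`kf = 1`), `FR_ser`, `Nser_eq`, `FR_par`, `Npar_eq`: with `F = FRs` (finite, `FRs_val`) and real numbers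
`F = ke + E (kv + s F) / (1 + s E) + E (1 + F) / (1 + E) + A0 + kv Av + F Ae` for `(kv, ke) = (0, 0), (1, 0), (0, 1)`; `F = kv FRv + FRf + ke FRe`.  So with `Δ = 1 - s E / (1 + s E) - E / (1 + E) - Ae`: `FRe Δ = 1`,
`FRv Δ = E / (1 + s E) + Av`, `FRf Δ = E / (1 + E) + A0`. -/
theorem Api_val (hq : 0 < q) (hqc : q < c) (hc : c < 1) (hkv : 0 ≤ kv) (hx : 0 ≤ x)
    (hEs : Es (ENNReal.ofReal (ss q c)) (ENNReal.ofReal (yy q c)) = ENNReal.ofReal (EE q c))
    (d1 : ℝ≥0∞) :
    Api (ENNReal.ofReal kv) (ENNReal.ofReal (ss q c)) d1 (ENNReal.ofReal x)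
      (ENNReal.ofReal (EE q c)) =
      ENNReal.ofReal (kv * Apv (uu q c) (vv q c) (ss q c) (EE q c) +
        Apf (uu q c) (vv q c) (EE q c) + x * Ape (uu q c) (vv q c) (ss q c) (EE q c)) ∧
    0 ≤ Apv (uu q c) (vv q c) (ss q c) (EE q c) ∧ 0 ≤ Apf (uu q c) (vv q c) (EE q c) ∧
      0 ≤ Ape (uu q c) (vv q c) (ss q c) (EE q c) := by
  have hu := uu_pos hq hqc hc
  have hv := vv_pos hq hqc hc
  have hu1 := one_sub_uu_pos hq hqc hc
  have hv1 := one_sub_vv_pos hq hqc hc
  have hs := ss_pos hq hqc hc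
  have huv := Fin2_E hq hqc hc
  have hEp : 0 < EE q c := by
    unfold EE
    positivity
  set S := kr 2 (ENNReal.ofReal (ss q c)) with hS
  set Y := kr 2 (ENNReal.ofReal (yy q c)) with hY
  set Eb := kr 2 (ENNReal.ofReal (EE q c)) with hEb
  have hS2 : S ^ 2 = ENNReal.ofReal (ss q c) := kr_pow (le_refl 2) _
  have hY2 : Y ^ 2 = ENNReal.ofReal (yy q c) := kr_pow (le_refl 2) _
  have hE2 : Eb ^ 2 = ENNReal.ofReal (EE q c) := kr_pow (le_refl 2) _
  have heN : eN (S ^ 2) 1 (Y ^ 2) 1 = ENNReal.ofReal (EE q c) := by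
    rw [hS2, hY2, eN_eq_Es, hEs]
  obtain ⟨A0, Av, Ae, hlin⟩ := RigPi_lin S Eb
  have happ := Api_eq (S := S) (Eb := Eb) (kv := ENNReal.ofReal kv) (x := ENNReal.ofReal x) d1
  rw [hS2, hE2, hlin] at happ
  set Ns := (∑' a : GC, if ¬ IsSer a.rep.1 then nwt S Y a.rep.1 ^ 2 else 0) with hNs
  set Np := (∑' a : GC, if ¬ IsPar a.rep.1 then nwt S Y a.rep.1 ^ 2 else 0) with hNp
  have h1sE : 0 < 1 + ss q c * EE q c := by positivity
  have h1E : 0 < 1 + EE q c := by positivity
  have eNs : Ns = ENNReal.ofReal (EE q c / (1 + ss q c * EE q c)) := by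
    have h := Nser_eq (S := S) (Y := Y)
    rw [heN, hS2, ← ENNReal.ofReal_mul hs.le, ← ENNReal.ofReal_one,
      ← ENNReal.ofReal_add zero_le_one (by positivity)] at h
    have h2 : ENNReal.ofReal (EE q c) = ENNReal.ofReal (EE q c / (1 + ss q c * EE q c)) *
        ENNReal.ofReal (1 + ss q c * EE q c) := by
      rw [← ENNReal.ofReal_mul (by positivity), div_mul_cancel₀ _ h1sE.ne']
    rw [h2] at h
    exact (ENNReal.mul_left_inj (ENNReal.ofReal_pos.2 h1sE).ne' ENNReal.ofReal_ne_top).1 h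
  have eNp : Np = ENNReal.ofReal (EE q c / (1 + EE q c)) := by
    have h := Npar_eq (S := S) (Y := Y)
    rw [heN, ← ENNReal.ofReal_one, ← ENNReal.ofReal_add zero_le_one hEp.le] at h
    have h2 : ENNReal.ofReal (EE q c) = ENNReal.ofReal (EE q c / (1 + EE q c)) *
        ENNReal.ofReal (1 + EE q c) := by
      rw [← ENNReal.ofReal_mul (by positivity), div_mul_cancel₀ _ h1E.ne']
    rw [h2] at h
    exact (ENNReal.mul_left_inj (ENNReal.ofReal_pos.2 h1E).ne' ENNReal.ofReal_ne_top).1 h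
  set FR : ℝ → ℝ → ℝ := fun kv' ke' => kv' * (uu q c / (ss q c * (1 - uu q c))) +
    vv q c / (1 - vv q c) + ke' / ((1 - uu q c) * (1 - vv q c)) with hFR
  have hFRp : ∀ kv' ke' : ℝ, 0 ≤ kv' → 0 ≤ ke' → 0 < FR kv' ke' := by
    intro kv' ke' h1 h2
    simp only [hFR]
    positivity
  have key : ∀ kv' ke' : ℝ, 0 ≤ kv' → 0 ≤ ke' →
      ENNReal.ofReal (FR kv' ke') = ENNReal.ofReal ke' + Ns * (ENNReal.ofReal kv' +
        ENNReal.ofReal (ss q c) * ENNReal.ofReal (FR kv' ke')) +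
        Np * (1 + ENNReal.ofReal (FR kv' ke')) +
        (A0 + ENNReal.ofReal kv' * Av + ENNReal.ofReal (FR kv' ke') * Ae) := by
    intro kv' ke' h1 h2
    have h3 := FRs_val (kf := 1) hq hqc hc h1 zero_le_one h2 hEs
    rw [ENNReal.ofReal_one, one_mul] at h3
    have h4 := FR_total (S := S) (Y := Y) (Eb := Eb) (kv := ENNReal.ofReal kv') (kf := 1)
      (ke := ENNReal.ofReal ke') (hE2.trans heN.symm)
    rw [FR_ser, FR_par, hlin, hS2, h3] at h4
    exact h4
  have k0 := key 0 0 (le_refl 0) (le_refl 0)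
  have k1 := key 1 0 zero_le_one (le_refl 0)
  have k2 := key 0 1 (le_refl 0) zero_le_one
  have t0 : A0 ≠ ⊤ := by
    intro h
    rw [h] at k0
    simp at k0
  have te : Ae ≠ ⊤ := by
    intro h
    rw [h, ENNReal.mul_top (ENNReal.ofReal_pos.2 (hFRp 0 0 (le_refl 0) (le_refl 0))).ne'] at k0
    simp at k0
  have tv : Av ≠ ⊤ := by
    intro h
    rw [h] at k1
    simp at k1
  have r0 := ENNReal.ofReal_toReal t0
  have re := ENNReal.ofReal_toReal te
  have rv := ENNReal.ofReal_toReal tv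
  have p0 : 0 ≤ A0.toReal := ENNReal.toReal_nonneg
  have pe : 0 ≤ Ae.toReal := ENNReal.toReal_nonneg
  have pv : 0 ≤ Av.toReal := ENNReal.toReal_nonneg
  set a0 := A0.toReal
  set ae := Ae.toReal
  set av := Av.toReal
  have keyR : ∀ kv' ke' : ℝ, 0 ≤ kv' → 0 ≤ ke' →
      FR kv' ke' = ke' + EE q c / (1 + ss q c * EE q c) * (kv' + ss q c * FR kv' ke') +
        EE q c / (1 + EE q c) * (1 + FR kv' ke') + (a0 + kv' * av + FR kv' ke' * ae) := by
    intro kv' ke' h1 h2
    have h3 := key kv' ke' h1 h2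
    have h4 := hFRp kv' ke' h1 h2
    rw [← r0, ← re, ← rv, eNs, eNp, ← ENNReal.ofReal_one, ← ENNReal.ofReal_mul hs.le,
      ← ENNReal.ofReal_add h1 (by positivity), ← ENNReal.ofReal_mul (by positivity),
      ← ENNReal.ofReal_add h2 (by positivity), ← ENNReal.ofReal_add zero_le_one h4.le,
      ← ENNReal.ofReal_mul (by positivity), ← ENNReal.ofReal_mul h1, ← ENNReal.ofReal_mul h4.le,
      ← ENNReal.ofReal_add p0 (by positivity), ← ENNReal.ofReal_add (by positivity)
      (by positivity), ← ENNReal.ofReal_add (by positivity) (by positivity),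
      ← ENNReal.ofReal_add (by positivity) (by positivity)] at h3
    exact Fin2_pos h4 h3
  have R0 := keyR 0 0 (le_refl 0) (le_refl 0)
  have R1 := keyR 1 0 zero_le_one (le_refl 0)
  have R2 := keyR 0 1 (le_refl 0) zero_le_one
  simp only [hFR, zero_mul, zero_add, zero_div, add_zero, one_mul] at R0 R1 R2
  have g1 : ae = Ape (uu q c) (vv q c) (ss q c) (EE q c) := by
    have e1 : 1 / ((1 - uu q c) * (1 - vv q c)) =
        1 + (EE q c / (1 + ss q c * EE q c) * ss q c + EE q c / (1 + EE q c) + ae) *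
          (1 / ((1 - uu q c) * (1 - vv q c))) := by
      linear_combination R2 - R0
    have e2 : 1 = (1 - uu q c) * (1 - vv q c) +
        (EE q c / (1 + ss q c * EE q c) * ss q c + EE q c / (1 + EE q c) + ae) := by
      have h3 : (1 - uu q c) * (1 - vv q c) ≠ 0 := by positivity
      have h4 := congrArg (fun t => t * ((1 - uu q c) * (1 - vv q c))) e1
      simp only [add_mul, mul_assoc, one_div_mul_cancel h3, mul_one, one_mul] at h4
      linear_combination h4
    unfold Ape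
    linear_combination -e2
  have g2 : a0 = Apf (uu q c) (vv q c) (EE q c) := by
    have e1 : vv q c / (1 - vv q c) * ((1 - uu q c) * (1 - vv q c)) =
        EE q c / (1 + EE q c) + a0 := by
      have h5 : EE q c / (1 + ss q c * EE q c) * ss q c + EE q c / (1 + EE q c) + ae =
        1 - (1 - uu q c) * (1 - vv q c) := by
        rw [g1]
        unfold Ape
        ring
      linear_combination R0 + (vv q c / (1 - vv q c)) * h5
    have e2 : vv q c / (1 - vv q c) * ((1 - uu q c) * (1 - vv q c)) =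
        vv q c * (1 - uu q c) := by
      field_simp
    unfold Apf
    linear_combination e2 - e1
  have g3 : av = Apv (uu q c) (vv q c) (ss q c) (EE q c) := by
    have e1 : uu q c / (ss q c * (1 - uu q c)) * ((1 - uu q c) * (1 - vv q c)) =
        EE q c / (1 + ss q c * EE q c) + av := by
      have h5 : EE q c / (1 + ss q c * EE q c) * ss q c + EE q c / (1 + EE q c) + ae =
        1 - (1 - uu q c) * (1 - vv q c) := by
        rw [g1]
        unfold Ape
        ring
      linear_combination R1 - R0 + (uu q c / (ss q c * (1 - uu q c))) * h5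
    have e2 : uu q c / (ss q c * (1 - uu q c)) * ((1 - uu q c) * (1 - vv q c)) =
        uu q c * (1 - vv q c) / ss q c := by
      field_simp
    unfold Apv
    linear_combination e2 - e1
  rw [happ, ← g1, ← g2, ← g3]
  refine ⟨?_, pv, p0, pe⟩
  rw [← r0, ← re, ← rv, ← ENNReal.ofReal_mul hkv, ← ENNReal.ofReal_mul hx,
    ← ENNReal.ofReal_add p0 (by positivity), ← ENNReal.ofReal_add (by positivity) (by positivity)]
  congr 1
  ring

end

end PGr

end

section
/-! # FinT: the values of `Qk` and `Api` -/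

set_option linter.unusedSectionVars false

namespace PGr
open Equiv Finset PGa
open scoped ENNReal Classical

section
variable {t v kv x : ℝ}

/-- rotations of order at least 3 -/
theorem Qk_value (h0 : 0 < t) (h1 : t < 1) (hs : scr t ≤ 1 / 10) (hv0 : 0 < v) (hvt : v < t)
    (hkv : 0 ≤ kv) {k : ℕ} (hk : 3 ≤ k) (x : ℝ≥0∞) :
    Qk k (ENNReal.ofReal kv) (ENNReal.ofReal (scr t)) x (ENNReal.ofReal (Ef (scr t) v)) =
      ENNReal.ofReal (kv * Real.log ((1 - uf (scr t) v * v) / (1 - v)) -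
        Real.log (1 - uf (scr t) v * v) - kv * Real.log (1 + Ef (scr t) v)) := by
  obtain ⟨q, c, hq, hqc, hc, hu, hv, hs', hE, -, hEs⟩ := exists_point_v h0 h1 hs hv0 hvt
  have := Qk_val hk hq hqc hc hkv hEs x
  rwa [hu, hv, hs', hE] at this

/-- rotations of order 2 -/
theorem Q2_value (h0 : 0 < t) (h1 : t < 1) (hs : scr t ≤ 1 / 10) (hv0 : 0 < v) (hvt : v < t)
    (hkv : 0 ≤ kv) (hx : 0 ≤ x) :
    Qk 2 (ENNReal.ofReal kv) (ENNReal.ofReal (scr t)) (ENNReal.ofReal x)
      (ENNReal.ofReal (Ef (scr t) v)) =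
      ENNReal.ofReal (kv * Q2v (uf (scr t) v) v (scr t) (Ef (scr t) v) +
        Q2f (uf (scr t) v) v + x * Q2e (uf (scr t) v) v (scr t) (Ef (scr t) v)) ∧
    0 ≤ Q2v (uf (scr t) v) v (scr t) (Ef (scr t) v) ∧ 0 ≤ Q2f (uf (scr t) v) v ∧
      0 ≤ Q2e (uf (scr t) v) v (scr t) (Ef (scr t) v) := by
  obtain ⟨q, c, hq, hqc, hc, hu, hv, hs', hE, -, hEs⟩ := exists_point_v h0 h1 hs hv0 hvt
  have := Q2_val hq hqc hc hkv hx hEs
  rwa [hu, hv, hs', hE] at this

/-- rotations exchanging the root darts -/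
theorem Api_value (h0 : 0 < t) (h1 : t < 1) (hs : scr t ≤ 1 / 10) (hv0 : 0 < v) (hvt : v < t)
    (hkv : 0 ≤ kv) (hx : 0 ≤ x) (d1 : ℝ≥0∞) :
    Api (ENNReal.ofReal kv) (ENNReal.ofReal (scr t)) d1 (ENNReal.ofReal x)
      (ENNReal.ofReal (Ef (scr t) v)) =
      ENNReal.ofReal (kv * Apv (uf (scr t) v) v (scr t) (Ef (scr t) v) +
        Apf (uf (scr t) v) v (Ef (scr t) v) +
        x * Ape (uf (scr t) v) v (scr t) (Ef (scr t) v)) ∧
    0 ≤ Apv (uf (scr t) v) v (scr t) (Ef (scr t) v) ∧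
      0 ≤ Apf (uf (scr t) v) v (Ef (scr t) v) ∧
      0 ≤ Ape (uf (scr t) v) v (scr t) (Ef (scr t) v) := by
  obtain ⟨q, c, hq, hqc, hc, hu, hv, hs', hE, -, hEs⟩ := exists_point_v h0 h1 hs hv0 hvt
  have := Api_val hq hqc hc hkv hx hEs d1
  rwa [hu, hv, hs', hE] at this

end

end PGr

end

section
/-! # Module EValR: the values of `Qk`, `Api` (rotations) -/

set_option linter.unusedSectionVars false

namespace PGr
open Real
open scoped ENNReal

/-- elementary inequalities -/
private theorem EValR_ineq {s E u v : ℝ} (h : UV s E u v) :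
    0 < 1 - v ∧ 0 < 1 - u * v ∧ 0 < 1 - v - u * v ∧ 1 - u * v ≤ 1 ∧
      1 - v - u * v ≤ (1 - u * v) * (1 - v) := by
  obtain ⟨h1, h2, h3, -, -⟩ := h
  have h4 := mul_pos h1 h2
  refine ⟨by nlinarith, by nlinarith, by nlinarith, by linarith, ?_⟩
  nlinarith [mul_pos h4 h2]

/-- `Qk_value`; `1 + E = (1 - v - u v) / (1 - v) ^ 2`; the value of `Qk` as an extended real number is `ENNReal.ofReal` of the right
hand side; for the nonnegativity of the right hand side use `log`-inequalities (`1 - u v < 1`, `(1 - u v)(1 - v) > 1 - v - u v`) -/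
theorem rQk_val {s E u v : ℝ} (h : UV s E u v) (hs : s ≤ 1 / 10) {k : ℕ} (hk : 3 ≤ k) {kv : ℝ}
    (hkv : 0 ≤ kv) (x : ℝ) : rQk k kv s x E = eQ kv u v := by
  obtain ⟨a1, a2, a3, a4, a5⟩ := EValR_ineq h
  obtain ⟨t, h0, h1, rfl, hv0, hvt, rfl, rfl⟩ := h.exists_t
  unfold rQk
  rw [Qk_value h0 h1 hs hv0 hvt hkv hk (ENNReal.ofReal x)]
  set u := uf (scr t) v with hu
  have hE : 1 + Ef (scr t) v = (1 - v - u * v) / (1 - v) ^ 2 := by
    unfold Ef
    rw [← hu]
    field_simp
    ring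
  have hlog : Real.log ((1 - u * v) * (1 - v) / (1 - v - u * v)) =
      Real.log ((1 - u * v) / (1 - v)) - Real.log (1 + Ef (scr t) v) := by
    rw [hE, ← Real.log_div (by positivity) (by positivity)]
    congr 1
    field_simp
  have hnn : 0 ≤ Real.log ((1 - u * v) * (1 - v) / (1 - v - u * v)) := by
    apply Real.log_nonneg
    rw [le_div_iff₀ a3]
    linarith
  have hnn2 : Real.log (1 - u * v) ≤ 0 := Real.log_nonpos a2.le a4
  have hval : kv * Real.log ((1 - u * v) / (1 - v)) - Real.log (1 - u * v) -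
      kv * Real.log (1 + Ef (scr t) v) = eQ kv u v := by
    unfold eQ
    rw [hlog]
    ring
  rw [hval]
  apply ENNReal.toReal_ofReal
  unfold eQ
  have := mul_nonneg hkv hnn
  linarith

/-- `Q2_value` -/
theorem rQ2_val {s E u v : ℝ} (h : UV s E u v) (hs : s ≤ 1 / 10) {kv x : ℝ} (hkv : 0 ≤ kv)
    (hx : 0 ≤ x) : rQk 2 kv s x E = eQ2 kv x s E u v := by
  obtain ⟨t, h0, h1, rfl, hv0, hvt, rfl, rfl⟩ := h.exists_t
  obtain ⟨h2, h3, h4, h5⟩ := Q2_value h0 h1 hs hv0 hvt hkv hx
  unfold rQk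
  rw [h2, ENNReal.toReal_ofReal
    (add_nonneg (add_nonneg (mul_nonneg hkv h3) h4) (mul_nonneg hx h5))]
  rfl

/-- `Api_value` -/
theorem rApi_val {s E u v : ℝ} (h : UV s E u v) (hs : s ≤ 1 / 10) {kv x : ℝ} (hkv : 0 ≤ kv)
    (hx : 0 ≤ x) (d : ℝ) : rApi kv s d x E = eApi kv x s E u v := by
  obtain ⟨t, h0, h1, rfl, hv0, hvt, rfl, rfl⟩ := h.exists_t
  obtain ⟨h2, h3, h4, h5⟩ := Api_value h0 h1 hs hv0 hvt hkv hx (ENNReal.ofReal d)
  unfold rApi
  rw [h2, ENNReal.toReal_ofReal
    (add_nonneg (add_nonneg (mul_nonneg hkv h3) h4) (mul_nonneg hx h5))]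
  rfl

end PGr

end
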