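import Pool.Agent.PGm.M38
import Pool.Agent.PGm.M39
import Pool.Agent.PGm.M42

section
/-! # Module EEq: the explicit system and the combinatorial system -/

set_option linter.unusedSectionVars false

namespace PGr
open Real

variable {K D S U V A : ℝ → ℝ} {x : ℝ}

/-- `(x ^ j) ^ i = x ^ (j * i)` -/
theorem EGood.pow (h : EGood K D S U V A x) {j : ℕ} (hj : 1 ≤ j) : EGood K D S U V A (x ^ j) := by
  have hm : ∀ i : ℕ, 1 ≤ i → 1 ≤ j * i := fun i hi => Nat.mul_pos hj hi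
  refine ⟨pow_pos h.pos j, ?_, ?_, ?_, ?_⟩
  · intro i hi
    rw [← pow_mul]
    exact h.uv _ (hm i hi)
  · intro i hi
    rw [← pow_mul]
    exact h.ra _ (hm i hi)
  · intro i hi
    rw [← pow_mul]
    exact h.k _ (hm i hi)
  · intro i hi
    rw [← pow_mul]
    exact h.s _ (hm i hi)

private theorem EEq_uv (h : EGood K D S U V A x) : UV (K x) (D x) (U x) (V x) := by
  have := h.uv 1 le_rfl
  simpa only [pow_one] using this

private theorem EEq_ra (h : EGood K D S U V A x) :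
    RA (K x) (D x) (S x) (A x) (U (x ^ 2)) (V (x ^ 2)) := by
  have := h.ra 1 le_rfl
  simpa only [pow_one] using this

private theorem EEq_k (h : EGood K D S U V A x) : K x < 1 / 10 := by
  have := h.k 1 le_rfl
  simpa only [pow_one] using this

private theorem EEq_s (h : EGood K D S U V A x) : 0 ≤ S x := by
  have := h.s 1 le_rfl
  simpa only [pow_one] using this

private theorem EEq_refl (h : EGood K D S U V A x) :
    rAh (K x) (K (x ^ 2)) (D x) (S x) (D (x ^ 2)) =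
        eAh (K x) (S x) (A x) (K (x ^ 2)) (D (x ^ 2)) (U (x ^ 2)) (V (x ^ 2)) ∧
      rAv (K x) (K (x ^ 2)) (D x) (S x) (D (x ^ 2)) =
        eAv (K x) (D x) (A x) (K (x ^ 2)) (D (x ^ 2)) (U (x ^ 2)) (V (x ^ 2)) ∧
      rAc (K x) (K (x ^ 2)) (D x) (S x) (D (x ^ 2)) =
        eAc (K x) (D x) (S x) (A x) (K (x ^ 2)) (D (x ^ 2)) (U (x ^ 2)) (V (x ^ 2)) :=
  refl_val (EEq_uv h).pos.1 (EEq_uv h).pos.2 (h.uv 2 (by norm_num)) (h.k 2 (by norm_num)).le
    (EEq_ra h)

/-- `rRg_val`, `refl_val` -/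
theorem y_eq_X (h : EGood K D S U V A x) : yX K D S x = zX K D U V A x := by
  unfold yX zX
  rw [rRg_val (EEq_uv h) (EEq_k h).le, (EEq_refl h).2.1]

/-- `rApi_val`, `refl_val` -/
theorem y_eq_Z (h : EGood K D S U V A x) : yZ K D S x = zZ K D S U V A x := by
  unfold yZ zZ
  rw [rApi_val (h.uv 2 (by norm_num)) (h.k 2 (by norm_num)).le (EEq_uv h).pos.1.le (EEq_s h),
    (EEq_refl h).1]
  rfl

private theorem EEq_term (h : EGood K D S U V A x) (k : ℕ) :
    ((k + 1 + 2).totient : ℝ) / (2 * ((k + 1 + 2 : ℕ) : ℝ)) *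
      rQk (k + 1 + 2) (K x) (K (x ^ (k + 1 + 2))) (S x) (D (x ^ (k + 1 + 2))) =
    ((k + 3).totient : ℝ) / (2 * ((k + 3 : ℕ) : ℝ)) *
      eQ (K x) (U (x ^ (k + 3))) (V (x ^ (k + 3))) := by
  have e : k + 1 + 2 = k + 3 := by ring
  rw [e, rQk_val (h.uv (k + 3) (by omega)) (h.k (k + 3) (by omega)).le (by omega)
    (EEq_uv h).pos.1.le]

/-- `rQk_val`; `summable_nat_add_iff` -/
theorem y_sum_iff (h : EGood K D S U V A x) :
    (Summable fun k : ℕ => ((k + 2).totient : ℝ) / (2 * ((k + 2 : ℕ) : ℝ)) *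
      rQk (k + 2) (K x) (K (x ^ (k + 2))) (S x) (D (x ^ (k + 2)))) ↔
    Summable fun k : ℕ => ((k + 3).totient : ℝ) / (2 * ((k + 3 : ℕ) : ℝ)) *
      eQ (K x) (U (x ^ (k + 3))) (V (x ^ (k + 3))) := by
  rw [← summable_nat_add_iff 1]
  simp only [EEq_term h]

/-- `rQ1_val`, `rQ2_val`, `rQk_val`, `refl_val` -/
theorem y_eq_R (h : EGood K D S U V A x)
    (hs : Summable fun k : ℕ => ((k + 3).totient : ℝ) / (2 * ((k + 3 : ℕ) : ℝ)) *
      eQ (K x) (U (x ^ (k + 3))) (V (x ^ (k + 3)))) : yR K D S x = zR K D S U V A x := by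
  have h1 := (y_sum_iff h).2 hs
  unfold yR zR
  rw [h1.tsum_eq_zero_add, rQ1_val (EEq_uv h) (EEq_k h), (EEq_refl h).2.1, (EEq_refl h).2.2]
  simp only [EEq_term h]
  have h2 : rQk (0 + 2) (K x) (K (x ^ (0 + 2))) (S x) (D (x ^ (0 + 2))) =
      eQ2 (K x) (S x) (K (x ^ 2)) (D (x ^ 2)) (U (x ^ 2)) (V (x ^ 2)) :=
    rQ2_val (h.uv 2 (by norm_num)) (h.k 2 (by norm_num)).le (EEq_uv h).pos.1.le (EEq_s h)
  rw [h2]
  have h3 : ((0 + 2 : ℕ).totient : ℝ) / (2 * ((0 + 2 : ℕ) : ℝ)) = 1 / 4 := by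
    have : (0 + 2 : ℕ).totient = 1 := by decide
    rw [this]
    norm_num
  rw [h3]
  ring

theorem y_eq_P (h : EGood K D S U V A x)
    (hs : Summable fun k : ℕ => ((k + 3).totient : ℝ) / (2 * ((k + 3 : ℕ) : ℝ)) *
      eQ (K x) (U (x ^ (k + 3))) (V (x ^ (k + 3)))) : yP K D S x = zP K D S U V A x := by
  unfold yP zP
  rw [y_eq_X h, y_eq_R h hs]
  rfl

/-- the two systems are equivalent -/
theorem csys_iff (h : EGood K D S U V A x)
    (hs : ∀ j : ℕ, 1 ≤ j → Summable fun k : ℕ => ((k + 3).totient : ℝ) / (2 * ((k + 3 : ℕ) : ℝ)) *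
      eQ (K (x ^ j)) (U ((x ^ j) ^ (k + 3))) (V ((x ^ j) ^ (k + 3)))) :
    CSys K D S x ↔ ESys K D S U V A x := by
  have hX : ∀ k : ℕ, yX K D S (x ^ (k + 1)) = zX K D U V A (x ^ (k + 1)) := fun k =>
    y_eq_X (h.pow (by omega))
  have hZ : ∀ k : ℕ, yZ K D S (x ^ (k + 1)) = zZ K D S U V A (x ^ (k + 1)) := fun k =>
    y_eq_Z (h.pow (by omega))
  have hP : ∀ k : ℕ, yP K D S (x ^ (k + 1)) = zP K D S U V A (x ^ (k + 1)) := fun k =>
    y_eq_P (h.pow (by omega)) (hs (k + 1) (by omega))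
  have hs1 : Summable fun k : ℕ => ((k + 3).totient : ℝ) / (2 * ((k + 3 : ℕ) : ℝ)) *
      eQ (K x) (U (x ^ (k + 3))) (V (x ^ (k + 3))) := by
    have := hs 1 le_rfl
    simpa only [pow_one] using this
  constructor
  · intro hc
    refine ⟨EEq_uv h, EEq_ra h, hs1, ?_, ?_, ?_, ?_, ?_, ?_⟩
    · simpa only [hX] using hc.sX
    · simpa only [hX, hZ] using hc.sZ
    · simpa only [hP] using hc.sP
    · simpa only [hX] using hc.eD
    · simpa only [hX, hZ] using hc.eS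
    · simpa only [hP] using hc.eK
  · intro he
    refine ⟨(y_sum_iff h).2 hs1, ?_, ?_, ?_, ?_, ?_, ?_⟩
    · simpa only [hX] using he.sX
    · simpa only [hX, hZ] using he.sZ
    · simpa only [hP] using he.sP
    · simpa only [hX] using he.eD
    · simpa only [hX, hZ] using he.eS
    · simpa only [hP] using he.eK

end PGr

end

section
/-! # Module EAct: the actual generating functions satisfy the explicit system -/

set_option linter.unusedSectionVars false

namespace PGr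
open Real
open scoped ENNReal

private theorem EAct_gK (x : ℝ) : gK x = (Kx x).toReal := by
  unfold gK
  rw [pK_Kx]

private theorem EAct_gD (x : ℝ) : gD x = (Dx x).toReal := by
  unfold gD
  rw [pD_Dx]

/-- `Dx x ≤ 1122 / 1000` and `Kx x ≤ 476 / 10000` as in the proof of `critical` -/
theorem act_box {ρ : ℝ} (h : ∀ x : ℝ, 0 < x → x < ρ → GoodX x) (hρ : 10 / 277 ≤ ρ) {x : ℝ}
    (h0 : 0 < x) (hx : x < ρ) : gK x ≤ 476 / 10000 ∧ gD x ≤ 1122 / 1000 := by
  rw [EAct_gK, EAct_gD]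
  constructor
  · by_contra hlt
    push Not at hlt
    have h1 := below (x := x) (t := 6076 / 10000) (d := 1) (h x h0 hx).D (by norm_num)
      (by norm_num) (by linarith [num_t1.1])
      (by
        rw [← ENNReal.ofReal_toReal (h x h0 hx).K]
        exact ENNReal.ofReal_le_ofReal (num_t1.1.trans hlt.le))
      (by rw [ENNReal.ofReal_one]; exact one_le_Dx x)
    linarith [num_t1.2]
  · set x' := max x (3599 / 100000) with hx'
    have hx1 : x' < ρ := max_lt hx (by linarith [show (3599 / 100000 : ℝ) < 10 / 277 by norm_num])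
    have hx0 : 0 < x' := lt_max_of_lt_left h0
    have hf' : Dx x' ≠ ⊤ := (h x' hx0 hx1).D
    refine (ENNReal.toReal_mono hf' (Dx_mono (le_max_left x (3599 / 100000)))).trans ?_
    have h1 := below (x := x') (t := 6315 / 10000) (d := (Dx x').toReal) hf' (by norm_num)
      (by norm_num) (by linarith [num_t2.1])
      (le_trans (ENNReal.ofReal_le_ofReal (num_t2.1.trans (le_max_right _ _))) (le_Kx x'))
      (by rw [ENNReal.ofReal_toReal hf'])
    linarith [num_t2.2]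

/-- `x ≤ gK x` (`le_Kx`), `1 ≤ gD x`, `1 ≤ gS x` (the edge is isomorphic to its reverse), `gS x ≤ gD x` -/
theorem act_lower {x : ℝ} (h : GoodX x) : x ≤ gK x ∧ 1 ≤ gD x ∧ 1 ≤ gS x ∧ gS x ≤ gD x := by
  refine ⟨?_, ?_, ?_, ?_⟩
  · rw [EAct_gK]
    have := ENNReal.toReal_mono h.K (le_Kx x)
    rwa [ENNReal.toReal_ofReal h.pos.le] at this
  · rw [EAct_gD]
    have := ENNReal.toReal_mono h.D (one_le_Dx x)
    rwa [ENNReal.toReal_one] at this
  · rw [← h.evS]
    have h1 := h.sumS.le_tsum 0 (fun n _ =>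
      mul_nonneg ((adm_actual h).cn n) (pow_nonneg h.pos.le n))
    rw [(adm_actual h).c0, pow_zero, mul_one] at h1
    exact h1
  · unfold gS gD
    refine ENNReal.toReal_mono (by rw [pD_Dx]; exact h.D) ?_
    unfold pS pD pN
    refine ENNReal.tsum_le_tsum fun c => ?_
    rw [if_pos trivial]
    split_ifs
    · exact le_rfl
    · exact zero_le

private theorem EAct_sq {a : ℕ → ℝ} (ha : ∀ n, 0 ≤ a n) (h0 : a 0 = 0) {x : ℝ} (hx : 0 < x)
    (hx1 : x < 1) (hs : Summable fun n => a n * x ^ n) : ev a (x ^ 2) ≤ x * ev a x := by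
  have hle : ∀ n, a n * (x ^ 2) ^ n ≤ x * (a n * x ^ n) := by
    intro n
    rcases Nat.eq_zero_or_pos n with rfl | hn
    · rw [h0]
      simp
    · have h1 : (x ^ 2) ^ n ≤ x ^ (n + 1) := by
        rw [← pow_mul]
        exact pow_le_pow_of_le_one hx.le hx1.le (by omega)
      calc a n * (x ^ 2) ^ n ≤ a n * x ^ (n + 1) := mul_le_mul_of_nonneg_left h1 (ha n)
        _ = x * (a n * x ^ n) := by ring
  unfold ev
  rw [← tsum_mul_left]
  refine Summable.tsum_le_tsum hle ?_ (hs.mul_left x)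
  exact Summable.of_nonneg_of_le (fun n => mul_nonneg (ha n) (by positivity)) hle (hs.mul_left x)

/-- power series without constant term: `f (x ^ 2) ≤ x * f x` -/
theorem act_sq {x : ℝ} (h : GoodX x) :
    gK (x ^ 2) ≤ x * gK x ∧ gD (x ^ 2) - 1 ≤ x * (gD x - 1) := by
  have ha := adm_actual h
  have h2 : GoodX (x ^ 2) := h.pow (by norm_num)
  constructor
  · rw [← h.evK, ← h2.evK]
    exact EAct_sq ha.an ha.a0 h.pos h.lt h.sumK
  · rw [← h.evD, ← h2.evD]
    have key : ∀ y : ℝ, (Summable fun n => aD n * y ^ n) →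
        (Summable fun n => (aD n - if n = 0 then 1 else 0) * y ^ n) ∧
          ev (fun n => aD n - if n = 0 then 1 else 0) y = ev aD y - 1 := by
      intro y hy
      have h3 : HasSum (fun m : ℕ => (if m = 0 then (1 : ℝ) else 0) * y ^ m) 1 := by
        have := hasSum_single (f := fun m : ℕ => (if m = 0 then (1 : ℝ) else 0) * y ^ m) 0
          (by intro m hm; simp [hm])
        simpa using this
      have h4 := hy.hasSum.sub h3
      have h5 : (fun n => (aD n - if n = 0 then 1 else 0) * y ^ n) =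
          fun n => aD n * y ^ n - (if n = 0 then (1 : ℝ) else 0) * y ^ n := by
        funext n
        ring
      rw [← h5] at h4
      exact ⟨h4.summable, h4.tsum_eq⟩
    obtain ⟨h5, h6⟩ := key x h.sumD
    obtain ⟨-, h7⟩ := key (x ^ 2) h2.sumD
    rw [← h6, ← h7]
    refine EAct_sq ?_ ?_ h.pos h.lt h5
    · intro n
      rcases Nat.eq_zero_or_pos n with rfl | hn
      · rw [ha.b0]
        simp
      · rw [if_neg (by omega), sub_zero]
        exact ha.bn n
    · show aD 0 - (if (0 : ℕ) = 0 then (1 : ℝ) else 0) = 0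
      rw [ha.b0]
      simp

/-- existence of the parameters below `ρ`: `K x = scr t` (`scr_surj`), `D x ≤ ecr t` by `below`, and not `=` because `x` is not critical; so
`exists_UV`; then `exists_RA` for `A` -/
theorem exists_params {ρ : ℝ} (hg : ∀ x : ℝ, 0 < x → x < ρ → GoodX x) (hρ : 10 / 277 ≤ ρ)
    (hcr : ∀ x : ℝ, 0 < x → ((GoodX x ∧ ∃ t : ℝ, 0 < t ∧ t < 1 ∧ gK x = scr t ∧ gD x = ecr t) ↔
      x = ρ)) :
    ∃ U V A : ℝ → ℝ, ∀ x : ℝ, 0 < x → x < ρ → UV (gK x) (gD x) (U x) (V x) ∧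
      RA (gK x) (gD x) (gS x) (A x) (U (x ^ 2)) (V (x ^ 2)) := by
  have h1 : ∀ x : ℝ, ∃ u v : ℝ, 0 < x → x < ρ → UV (gK x) (gD x) u v := by
    intro x
    by_cases hx : 0 < x ∧ x < ρ
    · obtain ⟨h0, h2⟩ := hx
      have hgx := hg x h0 h2
      obtain ⟨h3, h4, -, -⟩ := act_lower hgx
      obtain ⟨h5, -⟩ := act_box hg hρ h0 h2
      obtain ⟨t, ht0, ht1, ht⟩ := scr_surj (show 0 < gK x by linarith)
      have h6 : gD x ≤ ecr t := by
        refine below (x := x) (t := t) hgx.D ht0 ht1 (by linarith) ?_ ?_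
        · rw [ht, EAct_gK, ENNReal.ofReal_toReal hgx.K]
        · rw [EAct_gD, ENNReal.ofReal_toReal hgx.D]
      have h7 : gD x < ecr t := by
        refine lt_of_le_of_ne h6 fun h8 => ?_
        have := (hcr x h0).1 ⟨hgx, t, ht0, ht1, ht.symm, h8⟩
        linarith
      obtain ⟨u, v, huv⟩ := exists_UV ht0 ht1 (show 0 < gD x by linarith) h7
      rw [ht] at huv
      exact ⟨u, v, fun _ _ => huv⟩
    · exact ⟨0, 0, fun h2 h3 => absurd ⟨h2, h3⟩ hx⟩
  choose U V hUV using h1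
  have h2 : ∀ x : ℝ, ∃ A : ℝ, 0 < x → x < ρ →
      RA (gK x) (gD x) (gS x) A (U (x ^ 2)) (V (x ^ 2)) := by
    intro x
    by_cases hx : 0 < x ∧ x < ρ
    · obtain ⟨h0, h2⟩ := hx
      have hgx := hg x h0 h2
      obtain ⟨a1, a2, a3, a4⟩ := act_lower hgx
      obtain ⟨b1, b2⟩ := act_box hg hρ h0 h2
      have hx2 : 0 < x ^ 2 := by positivity
      have hx2' : x ^ 2 < ρ := by nlinarith [hgx.lt]
      obtain ⟨c1, c2, -, -⟩ := act_lower (hg _ hx2 hx2')
      obtain ⟨d1, d2⟩ := act_sq hgx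
      have huv := hUV (x ^ 2) hx2 hx2'
      obtain ⟨A, hA⟩ := exists_RA (k := gK x) (d := gD x) (c := gS x) (s := gK (x ^ 2))
        (E := gD (x ^ 2)) (by linarith) (by linarith) a2 (by linarith) a3 (by linarith)
        (by nlinarith) c2 (by nlinarith) huv
      exact ⟨A, fun _ _ => hA⟩
    · exact ⟨0, fun h2 h3 => absurd ⟨h2, h3⟩ hx⟩
  choose A hA using h2
  exact ⟨U, V, A, fun x h0 hx => ⟨hUV x h0 hx, hA x h0 hx⟩⟩

/-- `EGood` for `ev aK`, `ev aD`, `ev aS`; `csys_actual`, `y_sum_iff`, `csys_iff` -/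
theorem esys_actual {ρ : ℝ} (hg : ∀ x : ℝ, 0 < x → x < ρ → GoodX x) (hρ : 10 / 277 ≤ ρ)
    (hcr : ∀ x : ℝ, 0 < x → ((GoodX x ∧ ∃ t : ℝ, 0 < t ∧ t < 1 ∧ gK x = scr t ∧ gD x = ecr t) ↔
      x = ρ)) :
    ∃ U V A : ℝ → ℝ, ∀ x : ℝ, 0 < x → x < ρ → ESys (ev aK) (ev aD) (ev aS) U V A x := by
  obtain ⟨U, V, A, hP⟩ := exists_params hg hρ hcr
  refine ⟨U, V, A, ?_⟩
  have hgood : ∀ x : ℝ, 0 < x → x < ρ → EGood (ev aK) (ev aD) (ev aS) U V A x := by
    intro x h0 hx
    have hgx := hg x h0 hx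
    have hlt : ∀ j : ℕ, 1 ≤ j → 0 < x ^ j ∧ x ^ j < ρ := by
      intro j hj
      refine ⟨pow_pos h0 j, lt_of_le_of_lt ?_ hx⟩
      calc x ^ j ≤ x ^ 1 := pow_le_pow_of_le_one h0.le hgx.lt.le hj
        _ = x := pow_one x
    refine ⟨h0, ?_, ?_, ?_, ?_⟩
    · intro j hj
      rw [(hgx.pow hj).evK, (hgx.pow hj).evD]
      exact (hP _ (hlt j hj).1 (hlt j hj).2).1
    · intro j hj
      rw [(hgx.pow hj).evK, (hgx.pow hj).evD, (hgx.pow hj).evS]
      exact (hP _ (hlt j hj).1 (hlt j hj).2).2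
    · intro j hj
      rw [(hgx.pow hj).evK]
      have := (act_box hg hρ (hlt j hj).1 (hlt j hj).2).1
      linarith
    · intro j hj
      rw [(hgx.pow hj).evS]
      exact ENNReal.toReal_nonneg
  intro x h0 hx
  have hgx := hg x h0 hx
  refine (csys_iff (hgood x h0 hx) ?_).1 (csys_actual hgx)
  intro j hj
  exact (y_sum_iff ((hgood x h0 hx).pow hj)).1 (csys_actual (hgx.pow hj)).sQ

end PGr

end
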