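import Pool.Agent.PGm.M34
import Pool.Agent.PGm.M35
import Pool.Agent.PGm.M39
import Pool.Agent.PGm.M40
import Pool.Agent.PGn.FctD
import Pool.Agent.PGn.FctP
import Pool.Agent.PGn.FctX
import Pool.Agent.PGn.Q1B
import Pool.Agent.PGn.RotC

section
/-! # Module FctAll: assembly -/

set_option linter.unusedSectionVars false

namespace PGn
open PGr Real
open scoped ENNReal Classical

variable {r t : ℝ}

theorem fct (h : Base r t) : Fct r t (gK r) (gD r) (gS r) (gK (r ^ 2)) (gD (r ^ 2)) (gK (r ^ 3))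
    (gD (r ^ 3)) (yX gK gD gS r) (yX gK gD gS (r ^ 2)) (yP gK gD gS r) (yP gK gD gS (r ^ 2))
    (yZ gK gD gS r) (yR gK gD gS r) where
  r0 := h.r0
  t0 := h.t0
  t1 := h.t1
  hK := h.hK
  hD := h.hD
  rK := le_gK h.good
  K1 := h.K1
  D1 := (gS_bd h.good).1.trans (gS_bd h.good).2
  S1 := (gS_bd h.good).1
  SD := (gS_bd h.good).2
  K2l := fK_2l h
  K2u := fK_2u h
  D21 := (fD_c h).1
  D2c := (fD_c h).2.1
  D2l := fD_2l h
  D2u := fD_2u h
  X2l := fX_2l h
  X2u := fX_2u h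
  K3l := (fK_3 h).1
  K3u := (fK_3 h).2
  D3l := (fD_c h).2.2.1
  D3u := (fD_c h).2.2.2
  eX := fX_e h
  eDl := (fD_e h).1
  eDu := (fD_e h).2
  eZ := fX_Z h
  eSl := (fX_S h).1
  eSu := (fX_S h).2
  eP := fP_e h
  yl := (fP_y h).1
  yu := (fP_y h).2
  P2l := gK_le_P (h.good.pow (by norm_num))
  P2u := fP_2u h
  eKl := (fK_e h).1
  eKu := (fK_e h).2

end PGn

end

section
/-! # Digits of the growth constant of unlabelled planar graphs -/

set_option linter.unusedSectionVars false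

namespace PGn
open PGr Real
open scoped ENNReal Classical

variable {N : Num} {r t K D S K2 D2 K3 D3 X X2 P P2 Z y : ℝ}

/-- one step -/
theorem pass (h : Fct r t K D S K2 D2 K3 D3 X X2 P P2 Z y) (oA : OkA N) (oB : OkB N)
    (oC : OkC N) (oD : OkD N) (b : Box N.r0 N.r1 N.t0 N.t1 N.S0 N.S1 N.Dc r t S D2)
    (hU : UpC N.Kb N.K2b N.Db N.S1 N.Dc N.avU N.ahU N.acU)
    (hL : LoC N.Ka N.K2a N.Da N.S0 N.D2a N.avL N.ahL N.acL)
    (h1 : 36 / 1000 ≤ N.Ka) (h2 : 13 / 10000 ≤ N.K2a) (h3 : 10026 / 10000 ≤ N.D2a)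
    (h4 : N.S1 ≤ 1121 / 1000) (h5 : N.Dc ≤ 1005 / 1000) :
    Box N.r0n N.r1n N.t0n N.t1n N.S0n N.S1n N.D2n r t S D2 := by
  obtain ⟨ht, ht'⟩ := init_t h
  obtain ⟨hq, hq'⟩ := q1c_bd ht ht'
  obtain ⟨hb, hd⟩ := passB h oA oB b ht ht' hU hL
  obtain ⟨s0, s1⟩ := passS h oA oB oC b hb apiC h1 h2 h3 h4 h5
  obtain ⟨t0, t1⟩ := passT h oA oB oC b hb
  obtain ⟨y0, y1⟩ := passY h oA oB oD b hb qC hq hq' h1 h4 h5
  obtain ⟨k0, k1, p0, p1, p2⟩ := passP h oA oB oC oD b hb y0 y1 t0 t1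
  obtain ⟨r0, r1⟩ := passR h oA oD b hb k0 k1 p0 p1 p2
  exact ⟨r0, r1, t0, t1, s0, s1, hd⟩

theorem box0 (h : Fct r t K D S K2 D2 K3 D3 X X2 P P2 Z y) :
    Box N1.r0 N1.r1 N1.t0 N1.t1 N1.S0 N1.S1 N1.Dc r t S D2 := by
  have := pass h okA0 okB0 okC0 okD0 (init_box h) cor0_up cor0_lo (by norm_num [N0])
    (by norm_num [N0]) (by norm_num [N0]) (by norm_num [N0]) (by norm_num [N0])
  exact ⟨by norm_num [N1]; have := this.r0; norm_num [N0] at this; exact this,
    by have := this.r1; norm_num [N0] at this; norm_num [N1]; exact this,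
    by have := this.t0; norm_num [N0] at this; norm_num [N1]; exact this,
    by have := this.t1; norm_num [N0] at this; norm_num [N1]; exact this,
    by have := this.S0; norm_num [N0] at this; norm_num [N1]; exact this,
    by have := this.S1; norm_num [N0] at this; norm_num [N1]; exact this,
    by have := this.Dc; norm_num [N0] at this; norm_num [N1]; exact this⟩

theorem box1 (h : Fct r t K D S K2 D2 K3 D3 X X2 P P2 Z y) :
    Box N2.r0 N2.r1 N2.t0 N2.t1 N2.S0 N2.S1 N2.Dc r t S D2 := by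
  have := pass h okA1 okB1 okC1 okD1 (box0 h) cor1_up cor1_lo (by norm_num [N1])
    (by norm_num [N1]) (by norm_num [N1]) (by norm_num [N1]) (by norm_num [N1])
  exact ⟨by have := this.r0; norm_num [N1] at this; norm_num [N2]; exact this,
    by have := this.r1; norm_num [N1] at this; norm_num [N2]; exact this,
    by have := this.t0; norm_num [N1] at this; norm_num [N2]; exact this,
    by have := this.t1; norm_num [N1] at this; norm_num [N2]; exact this,
    by have := this.S0; norm_num [N1] at this; norm_num [N2]; exact this,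
    by have := this.S1; norm_num [N1] at this; norm_num [N2]; exact this,
    by have := this.Dc; norm_num [N1] at this; norm_num [N2]; exact this⟩

theorem final_r (h : Fct r t K D S K2 D2 K3 D3 X X2 P P2 Z y) :
    36423368 / 1000000000 ≤ r ∧ r ≤ 36424412 / 1000000000 := by
  have := pass h okA2 okB2 okC2 okD2 (box1 h) cor2_up cor2_lo (by norm_num [N2])
    (by norm_num [N2]) (by norm_num [N2]) (by norm_num [N2]) (by norm_num [N2])
  have h0 := this.r0
  have h1 := this.r1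
  norm_num [N2] at h0 h1
  exact ⟨by linarith, by linarith⟩

/-- `27.454 < γ < 27.455` -/
theorem digits : ∃ γ : ℝ,
    Filter.Tendsto (fun n : ℕ => (u n : ℝ) ^ (1 / n : ℝ)) Filter.atTop (nhds γ) ∧
    27454 / 1000 < γ ∧ γ < 27455 / 1000 := by
  obtain ⟨ρ, hρ, hlim, hgood, hchar⟩ := good_of_lt
  obtain ⟨hg, t, h0, h1, hK, hD⟩ := (hchar ρ hρ).2 rfl
  have hr : 10 / 277 ≤ ρ := by
    obtain ⟨ρ', hρ', hlim', -, -⟩ := exists_rho
    have h2 := tendsto_nhds_unique hlim hlim'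
    have h3 : (0 : ℝ) < ρ' := by linarith
    have h4 : ρ = ρ' := by
      rw [one_div, one_div, inv_inj] at h2
      exact h2
    rw [h4]
    linarith
  obtain ⟨a, b⟩ := final_r (fct ⟨hg, hr, h0, h1, hK, hD⟩)
  refine ⟨1 / ρ, hlim, ?_, ?_⟩
  · rw [lt_div_iff₀ hρ]
    linarith
  · rw [div_lt_iff₀ hρ]
    linarith

end PGn

end
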