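import Pool.Agent.PGm.M38
import Pool.Agent.PGm.M43

section
/-! # Module YR: the right hand sides of the system, `yR` -/

set_option linter.unusedSectionVars false

namespace PGr

variable {K D S K' D' S' : ℝ → ℝ}

/-- the terms of the sum of the `Qk` -/
noncomputable def YR_t (K D S : ℝ → ℝ) (k : ℕ) (x : ℝ) : ℝ :=
  ((k + 2).totient : ℝ) / (2 * ((k + 2 : ℕ) : ℝ)) *
    rQk (k + 2) (K x) (K (x ^ (k + 2))) (S x) (D (x ^ (k + 2)))

theorem YR_w (k : ℕ) : 0 ≤ ((k + 2).totient : ℝ) / (2 * ((k + 2 : ℕ) : ℝ)) ∧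
    ((k + 2).totient : ℝ) / (2 * ((k + 2 : ℕ) : ℝ)) ≤ 1 := by
  refine ⟨by positivity, ?_⟩
  have h : ((k + 2).totient : ℝ) ≤ ((k + 2 : ℕ) : ℝ) := by exact_mod_cast Nat.totient_le _
  rw [div_le_one (by positivity)]
  have h2 : (0 : ℝ) ≤ ((k + 2 : ℕ) : ℝ) := by positivity
  linarith

theorem YR_rQk_nonneg (k : ℕ) (a b c d : ℝ) : 0 ≤ rQk k a b c d := ENNReal.toReal_nonneg

/-- the terms are bounded by a geometric sequence -/
theorem YR_bound (h : Near K D S) : ∃ C c ε : ℝ, 0 ≤ C ∧ 0 < c ∧ 0 < ε ∧ ∀ x, 0 < x → x < ε →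
    ∀ k, |YR_t K D S k x| ≤ C * (c * x) ^ (k + 2) := by
  obtain ⟨Q, hQ, hb⟩ := Qk_bound
  obtain ⟨ε, hε, hε1, hf⟩ := YX_fact h
  obtain ⟨C1, ε1, he1, hK⟩ := h.K
  set C0 : ℝ := max C1 1 with hC0
  have hC01 : 1 ≤ C0 := le_max_right _ _
  refine ⟨Q * 1, 160000 * C0, min ε (min ε1 (min 1 (1 / (400 * C0)))), by linarith, by positivity,
    by positivity, fun x hx hlt k => ?_⟩
  rw [lt_min_iff, lt_min_iff, lt_min_iff] at hlt
  obtain ⟨l1, l2, l3, l4⟩ := hlt
  have hx1 : x * (400 * C0) < 1 := by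
    rwa [lt_div_iff₀ (by positivity)] at l4
  obtain ⟨⟨k0, k1⟩, ⟨d0, d1⟩, s0, s1⟩ := hf x hx l1
  obtain ⟨hp, hpl⟩ := YX_pow hε1 hx l1 (k := k + 2) (by omega)
  obtain ⟨⟨k0', k1'⟩, ⟨d0', d1'⟩, -⟩ := hf _ hp hpl
  have hxp : x ^ (k + 2) ≤ x := by
    calc x ^ (k + 2) ≤ x ^ 1 := pow_le_pow_of_le_one hx.le l3.le (by omega)
      _ = x := pow_one x
  have hKx : K (x ^ (k + 2)) ≤ (C0 * x) ^ (k + 2) := by
    have h1 := hK _ hp (lt_of_le_of_lt hxp l2)
    rw [abs_of_nonneg k0', pow_one] at h1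
    refine h1.trans ?_
    rw [mul_pow]
    refine mul_le_mul_of_nonneg_right ?_ hp.le
    calc C1 ≤ C0 := le_max_left _ _
      _ = C0 ^ 1 := (pow_one _).symm
      _ ≤ C0 ^ (k + 2) := pow_le_pow_right₀ hC01 (by omega)
  have hs : K (x ^ (k + 2)) ≤ (1 / 400) ^ (k + 2) := by
    refine hKx.trans (pow_le_pow_left₀ (by positivity) ?_ _)
    linarith
  have h2 := (hb (k + 2) (K x) (K (x ^ (k + 2))) (S x) (D (x ^ (k + 2))) (by omega) k0
    (by linarith) k0' hs (by linarith) (by linarith) (by linarith) (by linarith)).2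
  obtain ⟨w0, w1⟩ := YR_w k
  unfold YR_t
  rw [abs_of_nonneg (mul_nonneg w0 (YR_rQk_nonneg _ _ _ _ _))]
  calc _ ≤ 1 * rQk (k + 2) (K x) (K (x ^ (k + 2))) (S x) (D (x ^ (k + 2))) :=
        mul_le_mul_of_nonneg_right w1 (YR_rQk_nonneg _ _ _ _ _)
    _ ≤ Q * K (x ^ (k + 2)) * 160000 ^ (k + 2) := by rw [one_mul]; exact h2
    _ ≤ Q * (C0 * x) ^ (k + 2) * 160000 ^ (k + 2) := by gcongr
    _ = Q * 1 * (160000 * C0 * x) ^ (k + 2) := by
        rw [mul_assoc, ← mul_pow]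
        ring_nf

theorem YR_summable {t : ℕ → ℝ → ℝ} {C c ε : ℝ} (hc : 0 < c)
    (h : ∀ x, 0 < x → x < ε → ∀ k, |t k x| ≤ C * (c * x) ^ (k + 2)) {x : ℝ} (hx : 0 < x)
    (h1 : x < ε) (h2 : x < 1 / (2 * c)) : Summable fun k => t k x := by
  have h3 : c * x < 1 / 2 := by
    rw [lt_div_iff₀ (by positivity)] at h2
    linarith
  have h0 : 0 ≤ c * x := by positivity
  refine Summable.of_norm_bounded (g := fun k => (C * (c * x) ^ 2) * (c * x) ^ k) ?_ fun k => ?_
  · exact (summable_geometric_of_lt_one h0 (by linarith)).mul_left _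
  · rw [Real.norm_eq_abs]
    refine (h x hx h1 k).trans (le_of_eq ?_)
    ring

theorem YR_tail {t : ℕ → ℝ → ℝ} {C c ε : ℝ} (hC : 0 ≤ C) (hc : 0 < c) (hε : 0 < ε)
    (h : ∀ x, 0 < x → x < ε → ∀ k, |t k x| ≤ C * (c * x) ^ (k + 2)) (N : ℕ) :
    BO (N + 2) fun x => ∑' k, t (k + N) x := by
  refine ⟨C * c ^ (N + 2) * 2, min ε (1 / (2 * c)), by positivity, fun x hx hlt => ?_⟩
  rw [lt_min_iff] at hlt
  obtain ⟨h1, h2⟩ := hlt
  have h3 : c * x < 1 / 2 := by
    rw [lt_div_iff₀ (by positivity)] at h2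
    linarith
  have h0 : 0 ≤ c * x := by positivity
  have hg : HasSum (fun k : ℕ => (C * (c * x) ^ (N + 2)) * (1 / 2 : ℝ) ^ k)
      ((C * (c * x) ^ (N + 2)) * 2) := by
    have := (hasSum_geometric_of_lt_one (r := (1 / 2 : ℝ)) (by norm_num) (by norm_num)).mul_left
      (C * (c * x) ^ (N + 2))
    rw [show (1 - 1 / 2 : ℝ)⁻¹ = 2 by norm_num] at this
    exact this
  have h4 := tsum_of_norm_bounded (f := fun k => t (k + N) x) hg (fun k => by
    rw [Real.norm_eq_abs]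
    refine (h x hx h1 (k + N)).trans ?_
    rw [show k + N + 2 = (N + 2) + k by ring, pow_add, ← mul_assoc]
    refine mul_le_mul_of_nonneg_left ?_ (by positivity)
    exact pow_le_pow_left₀ h0 h3.le _)
  rw [Real.norm_eq_abs] at h4
  refine h4.trans (le_of_eq ?_)
  rw [mul_pow]
  ring

/-- the sum of the `Qk`: `K (x ^ k) ≤ C₀ x ^ k`, so `Qk_bound` gives the terms `≤ C (c x) ^ k` for small `x`, so the series converges and
the part `k > n` is `O(x ^ (n+1))`; for every single `k` use `rQk_lip` -/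
theorem yQ_sum (h : Near K D S) : ∃ ε, 0 < ε ∧ ∀ x, 0 < x → x < ε →
    Summable fun k : ℕ => ((k + 2).totient : ℝ) / (2 * ((k + 2 : ℕ) : ℝ)) *
      rQk (k + 2) (K x) (K (x ^ (k + 2))) (S x) (D (x ^ (k + 2))) := by
  obtain ⟨C, c, ε, hC, hc, hε, hb⟩ := YR_bound h
  refine ⟨min ε (1 / (2 * c)), by positivity, fun x hx hlt => ?_⟩
  rw [lt_min_iff] at hlt
  exact YR_summable hc hb hx hlt.1 hlt.2

theorem YR_Q_bo (h : Near K D S) : BO 1 fun x => ∑' k, YR_t K D S k x := by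
  obtain ⟨C, c, ε, hC, hc, hε, hb⟩ := YR_bound h
  exact (YR_tail hC hc hε hb 0).mono (by norm_num)

theorem YR_Kp (h : Near K D S) {k : ℕ} (hk : 1 ≤ k) : BO 1 fun x => K (x ^ k) :=
  (h.K.comp_pow hk).mono (by omega)

/-- one term -/
theorem YR_t_sub (h : Near K D S) (h' : Near K' D' S') {n : ℕ} (hn : 1 ≤ n)
    (ha : Agree K D S K' D' S' n) (k : ℕ) :
    BO (n + 1) fun x => YR_t K D S k x - YR_t K' D' S' k x := by
  obtain ⟨C, r, hC, hr, hl⟩ := rQk_lip (k + 2) (by omega)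
  obtain ⟨ε, hε, hε1, hf⟩ := YX_fact h
  obtain ⟨ε', hε', hε1', hf'⟩ := YX_fact h'
  obtain ⟨e1, he1, hs1⟩ := h.K.small hr
  obtain ⟨e2, he2, hs2⟩ := h'.K.small hr
  have hk2 : 1 ≤ k + 2 := by omega
  have b1 : BO (n + 1) fun x => |K (x ^ (k + 2)) - K' (x ^ (k + 2))| :=
    (ha.K.comp_pow hk2).abs.mono (by nlinarith)
  have b2 : BO 1 fun x => K (x ^ (k + 2)) + K' (x ^ (k + 2)) := (YR_Kp h hk2).add (YR_Kp h' hk2)
  have b3 : BO n fun x => |K x - K' x| + |S x - S' x| + |D (x ^ (k + 2)) - D' (x ^ (k + 2))| :=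
    (((ha.K.mono (by omega)).abs.add ha.S.abs).add
      ((ha.D.comp_pow hk2).abs.mono (by nlinarith)))
  have b4 := b2.mul b3
  rw [show 1 + n = n + 1 by ring] at b4
  have main : BO (n + 1) fun x => rQk (k + 2) (K x) (K (x ^ (k + 2))) (S x) (D (x ^ (k + 2))) -
      rQk (k + 2) (K' x) (K' (x ^ (k + 2))) (S' x) (D' (x ^ (k + 2))) := by
    refine BO.of_le (b1.add b4) (ε := min (min ε ε') (min e1 e2)) (by positivity) (C := C)
      fun x hx hlt => ?_
    rw [lt_min_iff, lt_min_iff, lt_min_iff] at hlt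
    obtain ⟨⟨l1, l2⟩, l3, l4⟩ := hlt
    obtain ⟨hp, hpl⟩ := YX_pow hε1 hx l1 hk2
    obtain ⟨-, hpl'⟩ := YX_pow hε1' hx l2 hk2
    have hxp : x ^ (k + 2) ≤ x := by
      calc x ^ (k + 2) ≤ x ^ 1 := pow_le_pow_of_le_one hx.le (by linarith) (by omega)
        _ = x := pow_one x
    obtain ⟨⟨k0, k1⟩, ⟨d0, d1⟩, s0, s1⟩ := hf x hx l1
    obtain ⟨⟨k0', k1'⟩, ⟨d0', d1'⟩, s0', s1'⟩ := hf' x hx l2
    obtain ⟨⟨q0, q1⟩, ⟨r0, r1⟩, -, -⟩ := hf _ hp hpl
    obtain ⟨⟨q0', q1'⟩, ⟨r0', r1'⟩, -, -⟩ := hf' _ hp hpl'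
    have a1 := (abs_le.1 (hs1 x hx l3)).2
    have a2 := (abs_le.1 (hs2 x hx l4)).2
    have a3 := (abs_le.1 (hs1 _ hp (lt_of_le_of_lt hxp l3))).2
    have a4 := (abs_le.1 (hs2 _ hp (lt_of_le_of_lt hxp l4))).2
    have h2 := hl (K x) (K (x ^ (k + 2))) (S x) (D (x ^ (k + 2))) (K' x) (K' (x ^ (k + 2)))
      (S' x) (D' (x ^ (k + 2))) k0 a1 q0 a3 (by linarith) s1 (by linarith) r1 k0' a2 q0' a4
      (by linarith) s1' (by linarith) r1'
    refine h2.trans ?_
    rw [mul_assoc, ← mul_add]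
    exact mul_le_mul_of_nonneg_left (le_abs_self _) hC
  refine (main.const_mul (((k + 2).totient : ℝ) / (2 * ((k + 2 : ℕ) : ℝ)))).congr one_pos
    fun x _ _ => ?_
  unfold YR_t
  ring

theorem YR_sum_sub (h : Near K D S) (h' : Near K' D' S') {n : ℕ} (hn : 1 ≤ n)
    (ha : Agree K D S K' D' S' n) (N : ℕ) :
    BO (n + 1) fun x => ∑ k ∈ Finset.range N, (YR_t K D S k x - YR_t K' D' S' k x) := by
  induction N with
  | zero =>
    refine ⟨0, 1, one_pos, fun x _ _ => ?_⟩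
    simp
  | succ N ih =>
    refine (ih.add (YR_t_sub h h' hn ha N)).congr one_pos fun x _ _ => ?_
    rw [Finset.sum_range_succ]

theorem YR_Q_sub (h : Near K D S) (h' : Near K' D' S') {n : ℕ} (hn : 1 ≤ n)
    (ha : Agree K D S K' D' S' n) :
    BO (n + 1) fun x => ∑' k, YR_t K D S k x - ∑' k, YR_t K' D' S' k x := by
  obtain ⟨C, c, ε, hC, hc, hε, hb⟩ := YR_bound h
  obtain ⟨C', c', ε', hC', hc', hε', hb'⟩ := YR_bound h'
  have t1 := (YR_tail hC hc hε hb n).mono (m := n + 1) (by omega)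
  have t2 := (YR_tail hC' hc' hε' hb' n).mono (m := n + 1) (by omega)
  refine (((YR_sum_sub h h' hn ha n).add t1).sub t2).congr
    (ε := min (min ε (1 / (2 * c))) (min ε' (1 / (2 * c')))) (by positivity) fun x hx hlt => ?_
  rw [lt_min_iff, lt_min_iff, lt_min_iff] at hlt
  have s1 := YR_summable hc hb hx hlt.1.1 hlt.1.2
  have s2 := YR_summable hc' hb' hx hlt.2.1 hlt.2.2
  rw [← s1.sum_add_tsum_nat_add n, ← s2.sum_add_tsum_nat_add n, Finset.sum_sub_distrib]
  ring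

theorem yR_bo (h : Near K D S) : BO 1 (yR K D S) := by
  have h1 : BO 1 fun x => rQ1 (K x) (D x) := rQ1_lip.bo h
  have h2 := YR_Q_bo h
  have h3 : BO 1 fun x => rAv (K x) (K (x ^ 2)) (D x) (S x) (D (x ^ 2)) := rAv_lip.bo h
  have h4 : BO 1 fun x => rAc (K x) (K (x ^ 2)) (D x) (S x) (D (x ^ 2)) := rAc_lip.bo h
  have h5 : BO 1 fun x => K x * D x * rAv (K x) (K (x ^ 2)) (D x) (S x) (D (x ^ 2)) :=
    ((h.K.mul (YX_D0 h)).mul h3).mono (by norm_num)
  refine (((h1.const_mul (1 / 2)).add h2).add ((h5.add h4).const_mul (1 / 4))).congr one_pos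
    fun x _ _ => ?_
  unfold yR YR_t
  ring

theorem yR_sub (h : Near K D S) (h' : Near K' D' S') {n : ℕ} (hn : 1 ≤ n)
    (ha : Agree K D S K' D' S' n) : BO (n + 1) fun x => yR K D S x - yR K' D' S' x := by
  have h1 : BO (n + 1) fun x => rQ1 (K x) (D x) - rQ1 (K' x) (D' x) := rQ1_lip.bo_sub h h' hn ha
  have h2 := YR_Q_sub h h' hn ha
  have h3 : BO 1 fun x => rAv (K x) (K (x ^ 2)) (D x) (S x) (D (x ^ 2)) := rAv_lip.bo h
  have h3' : BO (n + 1) fun x => rAv (K x) (K (x ^ 2)) (D x) (S x) (D (x ^ 2)) -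
    rAv (K' x) (K' (x ^ 2)) (D' x) (S' x) (D' (x ^ 2)) := rAv_lip.bo_sub h h' hn ha
  have h4 : BO (n + 1) fun x => rAc (K x) (K (x ^ 2)) (D x) (S x) (D (x ^ 2)) -
    rAc (K' x) (K' (x ^ 2)) (D' x) (S' x) (D' (x ^ 2)) := rAc_lip.bo_sub h h' hn ha
  have p1 : BO (n + 1) fun x => (K x - K' x) * (D x * rAv (K x) (K (x ^ 2)) (D x) (S x)
      (D (x ^ 2))) := by
    have := ha.K.mul ((YX_D0 h).mul h3)
    exact this.mono (by omega)
  have p2 : BO (n + 1) fun x => K' x * (D x - D' x) * rAv (K x) (K (x ^ 2)) (D x) (S x)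
      (D (x ^ 2)) := by
    have := (h'.K.mul ha.D).mul h3
    exact this.mono (by omega)
  have p3 : BO (n + 1) fun x => K' x * D' x * (rAv (K x) (K (x ^ 2)) (D x) (S x) (D (x ^ 2)) -
    rAv (K' x) (K' (x ^ 2)) (D' x) (S' x) (D' (x ^ 2))) := by
    have := (h'.K.mul (YX_D0 h')).mul h3'
    exact this.mono (by omega)
  refine (((h1.const_mul (1 / 2)).add h2).add ((((p1.add p2).add p3).add h4).const_mul
    (1 / 4))).congr one_pos fun x _ _ => ?_
  unfold yR YR_t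
  ring

end PGr

end

section
/-! # Module YDiff: the right hand sides of the system, `yZ` and `yP` -/

set_option linter.unusedSectionVars false

namespace PGr

variable {K D S K' D' S' : ℝ → ℝ}

private theorem YDiff_mul {a b m n N : ℕ} {f g f' g' : ℝ → ℝ} (hf' : BO a f') (hg : BO b g)
    (hff : BO m fun x => f x - f' x) (hgg : BO n fun x => g x - g' x) (h1 : N ≤ m + b)
    (h2 : N ≤ a + n) : BO N fun x => f x * g x - f' x * g' x := by
  have h3 := ((hff.mul hg).mono h1).add ((hf'.mul hgg).mono h2)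
  exact h3.congr one_pos fun x _ _ => by ring

private theorem YDiff_D0 (h : Near K D S) : BO 0 D := by
  have h1 := (h.D.mono (Nat.zero_le 1)).add (BO.const 1)
  exact h1.congr one_pos fun x _ _ => by ring

private theorem YDiff_S0 (h : Near K D S) : BO 0 S := by
  have h1 := (h.S.mono (Nat.zero_le 1)).add (BO.const 1)
  exact h1.congr one_pos fun x _ _ => by ring

/-- the denominator `1 + K D` -/
private theorem YDiff_den (h : Near K D S) : ∃ ε, 0 < ε ∧ ∀ x, 0 < x → x < ε →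
    1 / 2 ≤ 1 + K x * D x := by
  obtain ⟨ε, hε, h1⟩ := (h.K.mul (YDiff_D0 h)).small (δ := 1 / 2) (by norm_num)
  refine ⟨ε, hε, fun x hx0 hx1 => ?_⟩
  have h2 := neg_le_of_abs_le (h1 x hx0 hx1)
  linarith

/-- `D / (1 + K D)` -/
private theorem YDiff_Q (h : Near K D S) : BO 0 fun x => D x / (1 + K x * D x) := by
  obtain ⟨ε, hε, h1⟩ := YDiff_den h
  exact (YDiff_D0 h).div hε h1

private theorem YDiff_Q_sub (h : Near K D S) (h' : Near K' D' S') {n : ℕ}
    (ha : Agree K D S K' D' S' n) :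
    BO n fun x => D x / (1 + K x * D x) - D' x / (1 + K' x * D' x) := by
  obtain ⟨ε, hε, h1⟩ := YDiff_den h
  obtain ⟨ε', hε', h1'⟩ := YDiff_den h'
  have hnum : BO n fun x => (D x - D' x) - D x * D' x * (K x - K' x) := by
    have h2 := (((YDiff_D0 h).mul (YDiff_D0 h')).mul ha.K).mono (m := n) (by omega)
    exact ha.D.sub h2
  have h3 := (hnum.div hε h1).div hε' h1'
  refine h3.congr (lt_min hε hε') fun x hx0 hx1 => ?_
  have h4 := h1 x hx0 (lt_of_lt_of_le hx1 (min_le_left _ _))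
  have h5 := h1' x hx0 (lt_of_lt_of_le hx1 (min_le_right _ _))
  have h6 : (1 + K x * D x) ≠ 0 := by linarith
  have h7 : (1 + K' x * D' x) ≠ 0 := by linarith
  rw [div_sub_div _ _ h6 h7, div_div]
  congr 1
  ring

theorem yZ_bo (h : Near K D S) : BO 1 (yZ K D S) := by
  have h1 := (rApi_lip.bo h).add (rAh_lip.bo h)
  have h2 := (ySS_bo h).add (h1.const_mul (1 / 2))
  refine h2.congr one_pos fun x _ _ => ?_
  rw [yZ]
  ring

theorem yZ_sub (h : Near K D S) (h' : Near K' D' S') {n : ℕ} (hn : 1 ≤ n)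
    (ha : Agree K D S K' D' S' n) : BO (n + 1) fun x => yZ K D S x - yZ K' D' S' x := by
  have h1 := (rApi_lip.bo_sub h h' hn ha).add (rAh_lip.bo_sub h h' hn ha)
  have h2 := (ySS_sub h h' hn ha).add (h1.const_mul (1 / 2))
  refine h2.congr one_pos fun x _ _ => ?_
  rw [yZ, yZ]
  ring

/-- `D - X - D X` -/
private theorem YDiff_A (h : Near K D S) :
    BO 0 fun x => D x - yX K D S x - D x * yX K D S x :=
  ((YDiff_D0 h).sub ((yX_bo h).mono (Nat.zero_le 1))).sub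
    (((YDiff_D0 h).mul (yX_bo h)).mono (Nat.zero_le _))

private theorem YDiff_A_sub (h : Near K D S) (h' : Near K' D' S') {n : ℕ} (hn : 1 ≤ n)
    (ha : Agree K D S K' D' S' n) :
    BO n fun x => (D x - yX K D S x - D x * yX K D S x) -
      (D' x - yX K' D' S' x - D' x * yX K' D' S' x) := by
  have hX := yX_sub h h' hn ha
  have h1 : BO n fun x => D x * yX K D S x - D' x * yX K' D' S' x :=
    YDiff_mul (YDiff_D0 h') (yX_bo h) ha.D hX (by omega) (by omega)
  have h2 := (ha.D.sub (hX.mono (m := n) (by omega))).sub h1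
  exact h2.congr one_pos fun x _ _ => by ring

/-- `K ^ 2` -/
private theorem YDiff_K2_sub (h : Near K D S) (h' : Near K' D' S') {n : ℕ}
    (ha : Agree K D S K' D' S' n) : BO (n + 1) fun x => K x * K x - K' x * K' x :=
  YDiff_mul h'.K h.K ha.K ha.K (by omega) (by omega)

private theorem YDiff_D2_sub (h : Near K D S) (h' : Near K' D' S') {n : ℕ}
    (ha : Agree K D S K' D' S' n) : BO n fun x => D x * D x - D' x * D' x :=
  YDiff_mul (YDiff_D0 h') (YDiff_D0 h) ha.D ha.D (by omega) (by omega)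

theorem yP_bo (h : Near K D S) : BO 1 (yP K D S) := by
  have h1 := h.K.mul (YDiff_A h)
  have h2 := (((h.K.mul h.K).mul ((YDiff_D0 h).mul (YDiff_D0 h))).mul (YDiff_Q h)).mono
    (m := 1) (by omega)
  have h3 := (((h.K.comp_pow (k := 2) (by norm_num)).mul
    ((YDiff_D0 h).comp_pow (k := 2) (by norm_num))).mul
    ((YDiff_S0 h).sub ((ySS_bo h).mono (Nat.zero_le 1)))).mono (m := 1) (by omega)
  have h4 := ((h1.mono (m := 1) (by omega)).add ((h2.add h3).const_mul (1 / 2))).add (yR_bo h)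
  refine h4.congr one_pos fun x _ _ => ?_
  rw [yP]
  ring

theorem yP_sub (h : Near K D S) (h' : Near K' D' S') {n : ℕ} (hn : 1 ≤ n)
    (ha : Agree K D S K' D' S' n) : BO (n + 1) fun x => yP K D S x - yP K' D' S' x := by
  have h1 : BO (n + 1) fun x => K x * (D x - yX K D S x - D x * yX K D S x) -
      K' x * (D' x - yX K' D' S' x - D' x * yX K' D' S' x) :=
    YDiff_mul h'.K (YDiff_A h) ha.K (YDiff_A_sub h h' hn ha) (by omega) (by omega)
  have h2 : BO (n + 1) fun x => (K x * K x) * (D x * D x) - (K' x * K' x) * (D' x * D' x) :=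
    YDiff_mul (h'.K.mul h'.K) ((YDiff_D0 h).mul (YDiff_D0 h)) (YDiff_K2_sub h h' ha)
      (YDiff_D2_sub h h' ha) (by omega) (by omega)
  have h3 : BO (n + 1) fun x => ((K x * K x) * (D x * D x)) * (D x / (1 + K x * D x)) -
      ((K' x * K' x) * (D' x * D' x)) * (D' x / (1 + K' x * D' x)) :=
    YDiff_mul ((h'.K.mul h'.K).mul ((YDiff_D0 h').mul (YDiff_D0 h'))) (YDiff_Q h) h2
      (YDiff_Q_sub h h' ha) (by omega) (by omega)
  have hK2 : BO (2 * (n + 1)) fun x => K (x ^ 2) - K' (x ^ 2) := ha.K.comp_pow (by norm_num)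
  have hD2 : BO (2 * n) fun x => D (x ^ 2) - D' (x ^ 2) := ha.D.comp_pow (by norm_num)
  have h4 : BO (n + 1) fun x => K (x ^ 2) * D (x ^ 2) - K' (x ^ 2) * D' (x ^ 2) :=
    YDiff_mul (h'.K.comp_pow (k := 2) (by norm_num)) ((YDiff_D0 h).comp_pow (k := 2) (by norm_num))
      hK2 hD2 (by omega) (by omega)
  have h5 : BO n fun x => (S x - ySS K D S x) - (S' x - ySS K' D' S' x) := by
    have h6 := ha.S.sub ((ySS_sub h h' hn ha).mono (m := n) (by omega))
    exact h6.congr one_pos fun x _ _ => by ring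
  have h7 : BO (n + 1) fun x => (K (x ^ 2) * D (x ^ 2)) * (S x - ySS K D S x) -
      (K' (x ^ 2) * D' (x ^ 2)) * (S' x - ySS K' D' S' x) :=
    YDiff_mul ((h'.K.comp_pow (k := 2) (by norm_num)).mul
      ((YDiff_D0 h').comp_pow (k := 2) (by norm_num)))
      ((YDiff_S0 h).sub ((ySS_bo h).mono (Nat.zero_le 1))) h4 h5 (by omega) (by omega)
  have h8 := (h1.add ((h3.add h7).const_mul (1 / 2))).add (yR_sub h h' hn ha)
  refine h8.congr one_pos fun x _ _ => ?_
  rw [yP, yP]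
  ring

end PGr

end

section
/-! # Module Boot: uniqueness of the solution of the combinatorial system -/

set_option linter.unusedSectionVars false

namespace PGr

private theorem bo_one {b : ℕ → ℝ} (b0 : b 0 = 1) {x₀ : ℝ} (h0 : 0 < x₀) {ε : ℝ} (hε : 0 < ε)
    (hs : ∀ x, 0 < x → x < ε → Summable fun n => b n * x ^ n) (hx : x₀ < ε) :
    BO 1 fun x => ev b x - 1 := by
  have hs0 := hs x₀ h0 hx
  have key : ∀ x, 0 < x → x < ε →
      HasSum (fun m => (b m - if m = 0 then 1 else 0) * x ^ m) (ev b x - 1) := by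
    intro x hx0 hx1
    have h1 : HasSum (fun n => b n * x ^ n) (ev b x) := (hs x hx0 hx1).hasSum
    have h2 : HasSum (fun m : ℕ => (if m = 0 then (1 : ℝ) else 0) * x ^ m) 1 := by
      have := hasSum_single (f := fun m : ℕ => (if m = 0 then (1 : ℝ) else 0) * x ^ m) 0
        (by intro m hm; simp [hm])
      simpa using this
    have h3 := h1.sub h2
    refine h3.congr_fun ?_ |> fun h => h
    intro m
    ring
  have h1 := BO.tsum (a := fun m => b m - if m = 0 then 1 else 0) h0 (key x₀ h0 hx).summable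
    (n := 1) (by
      intro m hm
      have : m = 0 := by omega
      subst this
      simp [b0])
  exact h1.congr hε fun x hx0 hx1 => (key x hx0 hx1).tsum_eq.symm

/-- `K = O(x)`, `D - 1 = O(x)`, `S - 1 = O(x)` -/
theorem Adm.near {a b c : ℕ → ℝ} (h : Adm a b c) {ε : ℝ} (hε : 0 < ε)
    (hc : ∀ x, 0 < x → x < ε → Conv a b c x) : Near (ev a) (ev b) (ev c) := by
  have h0 : 0 < ε / 2 := by linarith
  have h1 : ε / 2 < ε := by linarith
  refine ⟨⟨1, one_pos, ?_⟩, ?_, ?_, ?_⟩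
  · intro x hx _
    exact tsum_nonneg fun n => mul_nonneg (h.an n) (pow_nonneg hx.le n)
  · exact BO.tsum h0 (hc _ h0 h1).a (n := 1) (by
      intro m hm
      have : m = 0 := by omega
      subst this
      exact h.a0)
  · exact bo_one h.b0 h0 hε (fun x hx hx' => (hc x hx hx').b) h1
  · exact bo_one h.c0 h0 hε (fun x hx hx' => (hc x hx hx').c) h1

/-- `K = x exp (O(x))` -/
theorem agree_one {a b c a' b' c' : ℕ → ℝ} (h : Adm a b c) (h' : Adm a' b' c') {ε : ℝ} (hε : 0 < ε)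
    (hc : ∀ x, 0 < x → x < ε → Conv a b c x ∧ CSys (ev a) (ev b) (ev c) x)
    (hc' : ∀ x, 0 < x → x < ε → Conv a' b' c' x ∧ CSys (ev a') (ev b') (ev c') x) :
    Agree (ev a) (ev b) (ev c) (ev a') (ev b') (ev c') 1 := by
  have hn := h.near hε fun x hx hx' => (hc x hx hx').1
  have hn' := h'.near hε fun x hx hx' => (hc' x hx hx').1
  refine ⟨?_, ?_, ?_⟩
  · have h1 := (yP_bo hn).euler
    have h2 := (yP_bo hn').euler
    have h3 := BO.id.mul (BO.exp_sub h1 h2 (h1.sub h2))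
    refine h3.congr hε fun x hx hx' => ?_
    rw [(hc x hx hx').2.eK, (hc' x hx hx').2.eK]
    ring
  · exact (hn.D.sub hn'.D).congr one_pos fun x _ _ => by ring
  · exact (hn.S.sub hn'.S).congr one_pos fun x _ _ => by ring

/-- `yX_sub`, `yZ_sub`, `yP_sub`, `BO.euler_sub`, `BO.exp_sub` -/
theorem agree_succ {a b c a' b' c' : ℕ → ℝ} (h : Adm a b c) (h' : Adm a' b' c') {ε : ℝ}
    (hε : 0 < ε) (hc : ∀ x, 0 < x → x < ε → Conv a b c x ∧ CSys (ev a) (ev b) (ev c) x)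
    (hc' : ∀ x, 0 < x → x < ε → Conv a' b' c' x ∧ CSys (ev a') (ev b') (ev c') x) {n : ℕ}
    (hn : 1 ≤ n) (ha : Agree (ev a) (ev b) (ev c) (ev a') (ev b') (ev c') n) :
    Agree (ev a) (ev b) (ev c) (ev a') (ev b') (ev c') (n + 1) := by
  have hN := h.near hε fun x hx hx' => (hc x hx hx').1
  have hN' := h'.near hε fun x hx hx' => (hc' x hx hx').1
  refine ⟨?_, ?_, ?_⟩
  · have h1 := (yP_bo hN).euler
    have h2 := (yP_bo hN').euler
    have h4 := BO.euler_sub (yP_bo hN) (yP_bo hN') (yP_sub hN hN' hn ha)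
    have h3 := BO.id.mul (BO.exp_sub h1 h2 h4)
    refine BO.mono (h3.congr hε fun x hx hx' => ?_) (le_of_eq (by omega : n + 1 + 1 = 1 + (n + 1)))
    rw [(hc x hx hx').2.eK, (hc' x hx hx').2.eK]
    ring
  · have h1 := (yX_bo hN).euler
    have h2 := (yX_bo hN').euler
    have h4 := BO.euler_sub (yX_bo hN) (yX_bo hN') (yX_sub hN hN' hn ha)
    have h3 := (BO.exp_sub h1 h2 h4).const_mul 2
    refine h3.congr hε fun x hx hx' => ?_
    have e1 := (hc x hx hx').2.eD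
    have e2 := (hc' x hx hx').2.eD
    have : ev b x - ev b' x = (ev b x + 1) - (ev b' x + 1) := by ring
    rw [this, e1, e2]
    ring
  · have h1 := BO.euler₂ (yX_bo hN) (yZ_bo hN)
    have h2 := BO.euler₂ (yX_bo hN') (yZ_bo hN')
    have h4 := BO.euler_sub₂ (yX_bo hN) (yZ_bo hN) (yX_bo hN') (yZ_bo hN')
      (yX_sub hN hN' hn ha) (yZ_sub hN hN' hn ha)
    have h3 := (BO.exp_sub h1 h2 h4).const_mul 2
    refine h3.congr hε fun x hx hx' => ?_
    have e1 := (hc x hx hx').2.eS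
    have e2 := (hc' x hx hx').2.eS
    have : ev c x - ev c' x = (ev c x + 1) - (ev c' x + 1) := by ring
    rw [this, e1, e2]
    ring

private theorem coeff_eq {a a' : ℕ → ℝ} {ε : ℝ} (hε : 0 < ε)
    (hs : ∀ x, 0 < x → x < ε → Summable fun n => a n * x ^ n)
    (hs' : ∀ x, 0 < x → x < ε → Summable fun n => a' n * x ^ n)
    (h : ∀ n, 1 ≤ n → BO n fun x => ev a x - ev a' x) : a = a' := by
  have h0 : 0 < ε / 2 := by linarith
  have h1 : ε / 2 < ε := by linarith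
  have key : ∀ x, 0 < x → x < ε →
      HasSum (fun m => (a m - a' m) * x ^ m) (ev a x - ev a' x) := by
    intro x hx0 hx1
    refine ((hs x hx0 hx1).hasSum.sub (hs' x hx0 hx1).hasSum).congr_fun ?_
    intro m
    ring
  funext m
  have h2 := BO.coeff (a := fun m => a m - a' m) h0 (key _ h0 h1).summable (n := m + 1)
    ((h (m + 1) (by omega)).congr hε fun x hx0 hx1 => (key x hx0 hx1).tsum_eq) m (by omega)
  simpa [sub_eq_zero] using h2

/-- `BO.coeff` for the differences of the coefficients -/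
theorem csys_unique {a b c a' b' c' : ℕ → ℝ} (h : Adm a b c) (h' : Adm a' b' c') {ε : ℝ}
    (hε : 0 < ε) (hc : ∀ x, 0 < x → x < ε → Conv a b c x ∧ CSys (ev a) (ev b) (ev c) x)
    (hc' : ∀ x, 0 < x → x < ε → Conv a' b' c' x ∧ CSys (ev a') (ev b') (ev c') x) :
    a = a' ∧ b = b' ∧ c = c' := by
  have H : ∀ n, 1 ≤ n → Agree (ev a) (ev b) (ev c) (ev a') (ev b') (ev c') n := by
    intro n hn
    induction n, hn using Nat.le_induction with
    | base => exact agree_one h h' hε hc hc'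
    | succ n hn ih => exact agree_succ h h' hε hc hc' hn ih
  refine ⟨?_, ?_, ?_⟩
  · exact coeff_eq hε (fun x h1 h2 => (hc x h1 h2).1.a) (fun x h1 h2 => (hc' x h1 h2).1.a)
      fun n hn => (H n hn).K.mono (Nat.le_succ n)
  · exact coeff_eq hε (fun x h1 h2 => (hc x h1 h2).1.b) (fun x h1 h2 => (hc' x h1 h2).1.b)
      fun n hn => (H n hn).D
  · exact coeff_eq hε (fun x h1 h2 => (hc x h1 h2).1.c) (fun x h1 h2 => (hc' x h1 h2).1.c)
      fun n hn => (H n hn).S

end PGr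

end

section
/-! # Module EUniq: uniqueness of the solution of the explicit system -/

set_option linter.unusedSectionVars false

namespace PGr
open Real

/-- `K = O(x)`, so `K x < 1 / 10` for small `x`; `EGood` for small `x`; `csys_iff` -/
theorem esys_csys {a b c : ℕ → ℝ} (h : Adm a b c) {U V A : ℝ → ℝ} {ε : ℝ} (hε : 0 < ε)
    (hc : ∀ x, 0 < x → x < ε → Conv a b c x ∧ ESys (ev a) (ev b) (ev c) U V A x) :
    ∃ δ, 0 < δ ∧ ∀ x, 0 < x → x < δ → Conv a b c x ∧ CSys (ev a) (ev b) (ev c) x := by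
  have hn := h.near hε fun x hx hx' => (hc x hx hx').1
  obtain ⟨C, ε', hC0, hε', -, -, hC⟩ := hn.K.norm hε
  have hC1 : 0 < C + 1 := by linarith
  refine ⟨min (min ε 1) (min ε' (1 / (10 * (C + 1)))), by positivity, ?_⟩
  intro x hx hx'
  have hx1 : x < ε := hx'.trans_le ((min_le_left _ _).trans (min_le_left _ _))
  have hx2 : x < 1 := hx'.trans_le ((min_le_left _ _).trans (min_le_right _ _))
  have hx3 : x < ε' := hx'.trans_le ((min_le_right _ _).trans (min_le_left _ _))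
  have hx4 : x < 1 / (10 * (C + 1)) := hx'.trans_le ((min_le_right _ _).trans (min_le_right _ _))
  have hle : ∀ j : ℕ, 1 ≤ j → 0 < x ^ j ∧ x ^ j ≤ x := by
    intro j hj
    refine ⟨pow_pos hx j, ?_⟩
    calc x ^ j ≤ x ^ 1 := pow_le_pow_of_le_one hx.le hx2.le hj
      _ = x := pow_one x
  have hE : ∀ j : ℕ, 1 ≤ j → ESys (ev a) (ev b) (ev c) U V A (x ^ j) := fun j hj =>
    (hc _ (hle j hj).1 ((hle j hj).2.trans_lt hx1)).2
  have hg : EGood (ev a) (ev b) (ev c) U V A x := by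
    refine ⟨hx, fun j hj => (hE j hj).uv, fun j hj => (hE j hj).ra, ?_, ?_⟩
    · intro j hj
      have h1 := hC _ (hle j hj).1 ((hle j hj).2.trans_lt hx3)
      rw [pow_one] at h1
      have h2 : C * x ^ j ≤ C * x := mul_le_mul_of_nonneg_left (hle j hj).2 hC0
      rw [lt_div_iff₀ (by positivity)] at hx4
      have h3 := le_abs_self (ev a (x ^ j))
      nlinarith
    · intro j hj
      exact tsum_nonneg fun n => mul_nonneg (h.cn n) (pow_nonneg (hle j hj).1.le n)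
  exact ⟨(hc x hx hx1).1, (csys_iff hg fun j hj => (hE j hj).sQ).2 (hc x hx hx1).2⟩

/-- `csys_unique`, `csys_actual`, `GoodX.conv`, `adm_actual`, `good_of_lt` -/
theorem esys_unique {a b c : ℕ → ℝ} (h : Adm a b c) {U V A : ℝ → ℝ} {ε : ℝ} (hε : 0 < ε)
    (hc : ∀ x, 0 < x → x < ε → Conv a b c x ∧ ESys (ev a) (ev b) (ev c) U V A x) :
    a = aK ∧ b = aD ∧ c = aS := by
  obtain ⟨δ, hδ, h1⟩ := esys_csys h hε hc
  obtain ⟨ρ, hρ, -, hg, -⟩ := good_of_lt
  have hgood := hg (ρ / 2) (by linarith) (by linarith)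
  exact csys_unique h (adm_actual hgood) (lt_min hδ hρ)
    (fun x hx hx' => h1 x hx (hx'.trans_le (min_le_left _ _)))
    (fun x hx hx' => ⟨(hg x hx (hx'.trans_le (min_le_right _ _))).conv,
      csys_actual (hg x hx (hx'.trans_le (min_le_right _ _)))⟩)

end PGr

end
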