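import Pool.Agent.PGm.M41
import Pool.Agent.PGm.M43
import Pool.Agent.PGm.M45

section
/-! # FinalE: the exact determination of the growth constant (assembly) -/

set_option linter.unusedSectionVars false

namespace PGr
open Real

theorem sumD_iff (x : ℝ) : (Summable fun n => aD n * x ^ n) ↔
    Summable fun n => (bb (n + 2) : ℝ) * x ^ n := by
  have h0 : Summable fun n : ℕ => (if n = 0 then (1 : ℝ) else 0) * x ^ n := by
    refine summable_of_ne_finset_zero (s := {0}) fun n hn => ?_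
    rw [Finset.mem_singleton] at hn
    rw [if_neg hn, zero_mul]
  have h1 : ∀ n, aD n * x ^ n = 2 * ((bb (n + 2) : ℝ) * x ^ n) -
      (if n = 0 then (1 : ℝ) else 0) * x ^ n := fun n => by
    unfold aD
    ring
  constructor
  · intro h
    have h2 := (h.add h0).mul_left (1 / 2)
    refine h2.congr fun n => ?_
    rw [h1]
    ring
  · intro h
    exact ((h.mul_left 2).sub h0).congr fun n => (h1 n).symm

theorem evD_eq {x : ℝ} (h : Summable fun n => (bb (n + 2) : ℝ) * x ^ n) :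
    ev aD x = 2 * ∑' n, (bb (n + 2) : ℝ) * x ^ n - 1 := by
  have h0 : HasSum (fun n : ℕ => (if n = 0 then (1 : ℝ) else 0) * x ^ n) 1 := by
    have := hasSum_single (f := fun n : ℕ => (if n = 0 then (1 : ℝ) else 0) * x ^ n) 0
      (fun n hn => by simp [hn])
    simpa using this
  have h1 : ∀ n, aD n * x ^ n = 2 * ((bb (n + 2) : ℝ) * x ^ n) -
      (if n = 0 then (1 : ℝ) else 0) * x ^ n := fun n => by
    unfold aD
    ring
  have h2 := ((h.hasSum.mul_left 2).sub h0).tsum_eq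
  unfold ev
  rw [← h2]
  exact tsum_congr h1

/-- a solution of the explicit system near `0` -/
def Sol (a b c : ℕ → ℝ) : Prop :=
  Adm a b c ∧ ∃ (U V A : ℝ → ℝ) (ε : ℝ), 0 < ε ∧ ∀ x : ℝ, 0 < x → x < ε →
    Conv a b c x ∧ ESys (ev a) (ev b) (ev c) U V A x

theorem exact_growth : ∃ (a b c : ℕ → ℝ) (ρ : ℝ),
    (∀ a' b' c' : ℕ → ℝ, Sol a' b' c' ↔ a' = a ∧ b' = b ∧ c' = c) ∧
    (∀ n, a n = rr n) ∧ (∀ n, b n = 2 * (bb (n + 2) : ℝ) - if n = 0 then 1 else 0) ∧ 0 < ρ ∧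
    (∀ x : ℝ, 0 < x → (((Summable fun n => a n * x ^ n) ∧ (Summable fun n => b n * x ^ n) ∧
      ∃ t : ℝ, 0 < t ∧ t < 1 ∧ ev a x = (1 + 3 * t) * (1 - t) ^ 3 / (16 * t ^ 3) ∧
        ev b x = 3 * t ^ 2 / ((1 - t) * (1 + 3 * t))) ↔ x = ρ)) ∧
    (∃ U V A : ℝ → ℝ, ∀ x : ℝ, 0 < x → x < ρ → Conv a b c x ∧ ESys (ev a) (ev b) (ev c) U V A x) ∧
    Filter.Tendsto (fun n : ℕ => (u n : ℝ) ^ (1 / n : ℝ)) Filter.atTop (nhds (1 / ρ)) := by
  obtain ⟨ρ, hρ, hlim, hcr⟩ := critical_equation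
  obtain ⟨ρ', hρ', hlim', hg, hcr'⟩ := good_of_lt
  obtain ⟨ρ'', hρ'', hlim'', -, -⟩ := exists_rho
  have e1 : ρ' = ρ := by
    have := tendsto_nhds_unique hlim' hlim
    rw [one_div, one_div, inv_inj] at this
    exact this
  have e2 : ρ'' = ρ := by
    have := tendsto_nhds_unique hlim'' hlim
    rw [one_div, one_div, inv_inj] at this
    exact this
  subst e1
  subst e2
  obtain ⟨U, V, A, hE⟩ := esys_actual hg hρ'' hcr'
  have hE' : ∀ x : ℝ, 0 < x → x < ρ'' →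
      Conv aK aD aS x ∧ ESys (ev aK) (ev aD) (ev aS) U V A x :=
    fun x h0 h1 => ⟨(hg x h0 h1).conv, hE x h0 h1⟩
  have hA : Adm aK aD aS := by
    have h1 : 0 < ρ'' / 2 := by linarith
    exact adm_actual (hg (ρ'' / 2) h1 (by linarith))
  refine ⟨aK, aD, aS, ρ'', fun a b c => ⟨?_, ?_⟩, fun n => rfl, fun n => rfl, hρ, ?_, ⟨U, V, A, hE'⟩,
    hlim⟩
  · rintro ⟨h, U', V', A', ε, hε, hc⟩
    exact esys_unique h hε hc
  · rintro ⟨rfl, rfl, rfl⟩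
    exact ⟨hA, U, V, A, ρ'', hρ, hE'⟩
  · intro x hx
    rw [← hcr x hx, sumD_iff]
    refine and_congr Iff.rfl (and_congr_right fun hB => ?_)
    rw [evD_eq hB]
    exact Iff.rfl

end PGr

end

section
/-! # FinalF: the exact determination of the growth constant, final form of the system (assembly) -/

set_option linter.unusedSectionVars false

namespace PGr
open Real

/-- the three power series converge on `(0, ε)` and satisfy the system with some auxiliary functions -/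
def FOn (a b c : ℕ → ℝ) (ε : ℝ) : Prop :=
  ∃ U V Y A W W' α β X Z B P : ℝ → ℝ, ∀ x : ℝ, 0 < x → x < ε →
    Conv a b c x ∧ FSys (ev a) (ev b) (ev c) U V Y A W W' α β X Z B P x

theorem Conv.nonneg {a b c : ℕ → ℝ} (hc : ∀ n, 0 ≤ c n) {x : ℝ} (hx : 0 < x) : 0 ≤ ev c x :=
  tsum_nonneg fun n => mul_nonneg (hc n) (pow_nonneg hx.le n)

theorem FOn.mono {a b c : ℕ → ℝ} {ε δ : ℝ} (h : FOn a b c ε) (hδ : δ ≤ ε) : FOn a b c δ := by
  obtain ⟨U, V, Y, A, W, W', α, β, X, Z, B, P, h⟩ := h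
  exact ⟨U, V, Y, A, W, W', α, β, X, Z, B, P, fun x h0 h1 => h x h0 (h1.trans_le hδ)⟩

theorem fOn_iff {a b c : ℕ → ℝ} (hc : ∀ n, 0 ≤ c n) {ε : ℝ} (hε : ε ≤ 1) : FOn a b c ε ↔
    ∃ U V A : ℝ → ℝ, ∀ x : ℝ, 0 < x → x < ε →
      Conv a b c x ∧ ESys (ev a) (ev b) (ev c) U V A x := by
  constructor
  · rintro ⟨U, V, Y, A, W, W', α, β, X, Z, B, P, h⟩
    exact ⟨U, V, A, fun x h0 h1 => ⟨(h x h0 h1).1, FEq_from hε
      (fun x h0 _ => Conv.nonneg (a := a) (b := b) hc h0) (fun x h0 h1 => (h x h0 h1).2) x h0 h1⟩⟩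
  · rintro ⟨U, V, A, h⟩
    obtain ⟨Y, W, W', α, β, X, Z, B, P, h2⟩ := FEq_to hε
      (fun x h0 _ => Conv.nonneg (a := a) (b := b) hc h0) (fun x h0 h1 => (h x h0 h1).2)
    exact ⟨U, V, Y, A, W, W', α, β, X, Z, B, P, fun x h0 h1 => ⟨(h x h0 h1).1, h2 x h0 h1⟩⟩

theorem sol_iff (a b c : ℕ → ℝ) : Sol a b c ↔ Adm a b c ∧ ∃ ε : ℝ, 0 < ε ∧ FOn a b c ε := by
  constructor
  · rintro ⟨h, U, V, A, ε, hε, h2⟩
    refine ⟨h, min ε 1, lt_min hε one_pos, (fOn_iff h.cn (min_le_right _ _)).2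
      ⟨U, V, A, fun x h0 h1 => h2 x h0 (h1.trans_le (min_le_left _ _))⟩⟩
  · rintro ⟨h, ε, hε, h2⟩
    obtain ⟨U, V, A, h3⟩ := (fOn_iff h.cn (min_le_right ε 1)).1 (h2.mono (min_le_left _ _))
    exact ⟨h, U, V, A, min ε 1, lt_min hε one_pos, h3⟩

theorem exact_growth' : ∃ (a b c : ℕ → ℝ) (ρ : ℝ),
    (∀ a' b' c' : ℕ → ℝ, (Adm a' b' c' ∧ ∃ ε : ℝ, 0 < ε ∧ FOn a' b' c' ε) ↔
      a' = a ∧ b' = b ∧ c' = c) ∧
    (∀ n, a n = rr n) ∧ (∀ n, b n = 2 * (bb (n + 2) : ℝ) - if n = 0 then 1 else 0) ∧ 0 < ρ ∧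
    (∀ x : ℝ, 0 < x → (((Summable fun n => a n * x ^ n) ∧ (Summable fun n => b n * x ^ n) ∧
      ∃ t : ℝ, 0 < t ∧ t < 1 ∧ ev a x = (1 + 3 * t) * (1 - t) ^ 3 / (16 * t ^ 3) ∧
        ev b x = 3 * t ^ 2 / ((1 - t) * (1 + 3 * t))) ↔ x = ρ)) ∧
    FOn a b c ρ ∧
    Filter.Tendsto (fun n : ℕ => (u n : ℝ) ^ (1 / n : ℝ)) Filter.atTop (nhds (1 / ρ)) := by
  obtain ⟨a, b, c, ρ, h1, h2, h3, h4, h5, h6, h7⟩ := exact_growth
  have hc : ∀ n, 0 ≤ c n := ((h1 a b c).2 ⟨rfl, rfl, rfl⟩).1.cn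
  have hρ1 : ρ ≤ 1 := by
    obtain ⟨ρ', hρ', hlim', hg, -⟩ := good_of_lt
    have e1 : ρ' = ρ := by
      have := tendsto_nhds_unique hlim' h7
      rw [one_div, one_div, inv_inj] at this
      exact this
    by_contra hcon
    push Not at hcon
    have := (hg 1 one_pos (by rw [e1]; exact hcon)).lt
    exact lt_irrefl _ this
  exact ⟨a, b, c, ρ, fun a' b' c' => (sol_iff a' b' c').symm.trans (h1 a' b' c'), h2, h3, h4, h5,
    (fOn_iff hc hρ1).2 h6, h7⟩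

end PGr

end
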